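import Pool.Agent.Lib.QG.Defs
set_option autoImplicit false

/-! Row A1. Linkings as partial successor functions.
(=>) Given the paths p: if v lies on a path p x (x in X; the path is unique) let s v be the next vertex
of the path, or none if v is its last vertex; if v lies on no path let s v = some v.
(<=) For x in X follow x, s x, s (s x), ...: by injectivity and the last condition no vertex is
repeated (if v_i = v_j with i < j go back to x = v_(j-i), contradiction), so by finiteness of V the
sequence reaches a vertex with s v = none, which lies in B; consecutive vertices are different, hence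
joined by arcs. Two such paths starting at x, y which meet: go back from the common vertex to get
x = v_k(y) or y = v_k(x), so k = 0 and x = y. -/

namespace QG
open Set Matroid

/-- the vertices reached from `x` -/
private def A1_U {V : Type} (s : V → Option V) (x : V) : ℕ → Option V
  | 0 => some x
  | n + 1 => (A1_U s x n).bind s

private theorem A1_succ {V : Type} {s : V → Option V} {x v : V} {n : ℕ}
    (h : A1_U s x (n + 1) = some v) : ∃ w, A1_U s x n = some w ∧ s w = some v :=
  Option.bind_eq_some_iff.1 h

private theorem A1_back {V : Type} {s : V → Option V}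
    (hs : ∀ v v' w, s v = some w → s v' = some w → v = v') {x y : V} :
    ∀ (i k : ℕ) (v : V), A1_U s x i = some v → A1_U s y (k + i) = some v →
      A1_U s y k = some x := by
  intro i
  induction i with
  | zero =>
    intro k v h1 h2
    have h3 : v = x := (Option.some.inj h1).symm
    rw [h3] at h2
    exact h2
  | succ i ih =>
    intro k v h1 h2
    obtain ⟨w, hw1, hw2⟩ := A1_succ h1
    obtain ⟨w', hw1', hw2'⟩ := A1_succ (n := k + i) h2
    have h3 := hs w w' v hw2 hw2'
    rw [← h3] at hw1'
    exact ih k w hw1 hw1'

private theorem A1_meet {V : Type} {X : Set V} {s : V → Option V}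
    (hs : ∀ v v' w, s v = some w → s v' = some w → v = v') (hX : ∀ x ∈ X, ∀ v, s v ≠ some x)
    {x y : V} (hx : x ∈ X) (hy : y ∈ X) {i j : ℕ} {v : V} (h1 : A1_U s x i = some v)
    (h2 : A1_U s y j = some v) : x = y ∧ i = j := by
  have key : ∀ {x y : V} (_ : x ∈ X) {i k : ℕ} {v : V}, A1_U s x i = some v →
      A1_U s y (k + i) = some v → x = y ∧ k = 0 := by
    intro x y hx i k v h1 h2
    have h3 := A1_back hs i k v h1 h2
    cases k with
    | zero => exact ⟨(Option.some.inj h3).symm, rfl⟩
    | succ k =>
      obtain ⟨w, _, hw⟩ := A1_succ h3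
      exact absurd hw (hX x hx w)
  rcases le_total i j with h | h
  · obtain ⟨k, rfl⟩ := Nat.exists_eq_add_of_le' h
    have h3 := key hx h1 h2
    exact ⟨h3.1, by omega⟩
  · obtain ⟨k, rfl⟩ := Nat.exists_eq_add_of_le' h
    have h3 := key hy h2 h1
    exact ⟨h3.1.symm, by omega⟩

private theorem A1_end {V : Type} [Finite V] {X : Set V} {s : V → Option V}
    (hs : ∀ v v' w, s v = some w → s v' = some w → v = v') (hX : ∀ x ∈ X, ∀ v, s v ≠ some x)
    {x : V} (hx : x ∈ X) : ∃ n, A1_U s x n = none := by
  by_contra hcon
  push Not at hcon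
  have h1 : ∀ n, ∃ v, A1_U s x n = some v := fun n => Option.ne_none_iff_exists'.1 (hcon n)
  choose a ha using h1
  have h2 : Function.Injective a := by
    intro i j hij
    have h3 := ha j
    rw [← hij] at h3
    exact (A1_meet hs hX hx hx (ha i) h3).2
  exact not_injective_infinite_finite a h2

theorem linked_iff {V : Type} [Finite V] (A : V → V → Prop) (B X : Set V) :
    Linked A B X ↔ ∃ s : V → Option V, (∀ v w, s v = some w → A v w ∨ v = w) ∧
      (∀ v, s v = none → v ∈ B) ∧ (∀ v v' w, s v = some w → s v' = some w → v = v') ∧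
      (∀ x ∈ X, ∀ v, s v ≠ some x) := by
  classical
  constructor
  · rintro ⟨p, hp, hd⟩
    have huniq : ∀ {x y v : V}, x ∈ X → y ∈ X → v ∈ p x → v ∈ p y → x = y := by
      intro x y v hx hy h1 h2
      by_contra hne
      exact hd x hx y hy hne v h1 h2
    have hself : ∀ {x : V}, x ∈ X → (p x)[0]? = some x := by
      intro x hx
      rw [← List.head?_eq_getElem?]
      exact (hp x hx).2.2.1
    -- the successor function
    have hex : ∀ v : V, ∃ o : Option V,
        (∃ x ∈ X, ∃ i, (p x)[i]? = some v ∧ o = (p x)[i + 1]?) ∨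
        ((∀ x ∈ X, v ∉ p x) ∧ o = some v) := by
      intro v
      by_cases h : ∃ x ∈ X, v ∈ p x
      · obtain ⟨x, hx, hv⟩ := h
        obtain ⟨i, hi⟩ := List.mem_iff_getElem?.1 hv
        exact ⟨_, Or.inl ⟨x, hx, i, hi, rfl⟩⟩
      · push Not at h
        exact ⟨_, Or.inr ⟨h, rfl⟩⟩
    choose s hs using hex
    have hnodup : ∀ {x : V}, x ∈ X → ∀ {i j : ℕ} {v : V}, (p x)[i]? = some v →
        (p x)[j]? = some v → i = j := by
      intro x hx i j v h1 h2
      have h3 := (hp x hx).1
      obtain ⟨hi, hi'⟩ := List.getElem?_eq_some_iff.1 h1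
      obtain ⟨hj, hj'⟩ := List.getElem?_eq_some_iff.1 h2
      exact (h3.getElem_inj_iff (hi := hi) (hj := hj)).1 (hi'.trans hj'.symm)
    refine ⟨s, ?_, ?_, ?_, ?_⟩
    · intro v w hvw
      rcases hs v with ⟨x, hx, i, h1, h2⟩ | ⟨h1, h2⟩
      · left
        rw [hvw] at h2
        obtain ⟨hi, hi'⟩ := List.getElem?_eq_some_iff.1 h1
        obtain ⟨hj, hj'⟩ := List.getElem?_eq_some_iff.1 h2.symm
        have h3 := (List.isChain_iff_getElem.1 (hp x hx).2.1) i hj
        rw [hi', hj'] at h3
        exact h3
      · right
        rw [hvw] at h2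
        exact (Option.some.inj h2).symm
    · intro v hv
      rcases hs v with ⟨x, hx, i, h1, h2⟩ | ⟨h1, h2⟩
      · rw [hv] at h2
        have h3 := List.getElem?_eq_none_iff.1 h2.symm
        obtain ⟨hi, hi'⟩ := List.getElem?_eq_some_iff.1 h1
        obtain ⟨b, hb, hb'⟩ := (hp x hx).2.2.2
        rw [List.getLast?_eq_getElem?] at hb'
        have h4 : (p x).length - 1 = i := by omega
        rw [h4, h1] at hb'
        rw [Option.some.inj hb']
        exact hb
      · rw [hv] at h2
        exact absurd h2 (by simp)
    · intro v v' w hv hv'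
      rcases hs v with ⟨x, hx, i, h1, h2⟩ | ⟨h1, h2⟩ <;>
        rcases hs v' with ⟨x', hx', i', h1', h2'⟩ | ⟨h1', h2'⟩ <;>
        rw [hv] at h2 <;> rw [hv'] at h2'
      · have h3 : w ∈ p x := List.mem_iff_getElem?.2 ⟨_, h2.symm⟩
        have h4 : w ∈ p x' := List.mem_iff_getElem?.2 ⟨_, h2'.symm⟩
        have h5 := huniq hx hx' h3 h4
        rw [← h5] at h1' h2'
        have h6 := hnodup hx h2.symm h2'.symm
        have h7 : i = i' := by omega
        rw [← h7, h1] at h1'
        exact Option.some.inj h1'
      · have h3 : w ∈ p x := List.mem_iff_getElem?.2 ⟨_, h2.symm⟩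
        rw [Option.some.inj h2'] at h3
        exact absurd h3 (h1' x hx)
      · have h3 : w ∈ p x' := List.mem_iff_getElem?.2 ⟨_, h2'.symm⟩
        rw [Option.some.inj h2] at h3
        exact absurd h3 (h1 x' hx')
      · rw [← Option.some.inj h2, ← Option.some.inj h2']
    · intro x hx v hv
      rcases hs v with ⟨y, hy, i, h1, h2⟩ | ⟨h1, h2⟩
      · rw [hv] at h2
        have h3 : x ∈ p y := List.mem_iff_getElem?.2 ⟨_, h2.symm⟩
        have h4 : x ∈ p x := List.mem_iff_getElem?.2 ⟨_, hself hx⟩
        have h5 := huniq hx hy h4 h3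
        rw [← h5] at h2
        have h6 := hnodup hx h2.symm (hself hx)
        omega
      · rw [hv] at h2
        have h4 : x ∈ p x := List.mem_iff_getElem?.2 ⟨_, hself hx⟩
        have h5 := h1 x hx
        rw [← Option.some.inj h2] at h5
        exact h5 h4
  · rintro ⟨s, h1, h2, h3, h4⟩
    have hex : ∀ x : V, ∃ N : ℕ, x ∈ X → (A1_U s x N = none ∧ ∀ m < N, A1_U s x m ≠ none) := by
      intro x
      by_cases hx : x ∈ X
      · have h5 := A1_end h3 h4 hx
        exact ⟨Nat.find h5, fun _ => ⟨Nat.find_spec h5, fun m hm => Nat.find_min h5 hm⟩⟩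
      · exact ⟨0, fun h => absurd h hx⟩
    choose N hN using hex
    let a : V → ℕ → V := fun x i => (A1_U s x i).getD x
    have ha : ∀ {x : V}, x ∈ X → ∀ {i : ℕ}, i < N x → A1_U s x i = some (a x i) := by
      intro x hx i hi
      obtain ⟨v, hv⟩ := Option.ne_none_iff_exists'.1 ((hN x hx).2 i hi)
      show A1_U s x i = some ((A1_U s x i).getD x)
      rw [hv]
      rfl
    have hpos : ∀ {x : V}, x ∈ X → 0 < N x := by
      intro x hx
      rcases Nat.eq_zero_or_pos (N x) with h | h
      · have h5 := (hN x hx).1
        rw [h] at h5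
        exact absurd h5 (by simp [A1_U])
      · exact h
    refine ⟨fun x => (List.range (N x)).map (a x), ?_, ?_⟩
    · intro x hx
      refine ⟨?_, ?_, ?_, ?_⟩
      · refine List.Nodup.map_on ?_ List.nodup_range
        intro i hi j hj hij
        rw [List.mem_range] at hi hj
        have h5 := ha hx hi
        have h6 := ha hx hj
        rw [← hij] at h6
        exact (A1_meet h3 h4 hx hx h5 h6).2
      · rw [List.isChain_iff_getElem]
        intro i hi
        rw [List.length_map, List.length_range] at hi
        rw [List.getElem_map, List.getElem_map, List.getElem_range, List.getElem_range]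
        have h5 := ha hx (Nat.lt_of_succ_lt hi)
        have h6 := ha hx hi
        obtain ⟨w, hw1, hw2⟩ := A1_succ h6
        rw [h5] at hw1
        rw [← Option.some.inj hw1] at hw2
        rcases h1 _ _ hw2 with h7 | h7
        · exact h7
        · rw [← h7] at h6
          have h8 := (A1_meet h3 h4 hx hx h5 h6).2
          omega
      · rw [List.head?_map, List.head?_range]
        rw [if_neg (hpos hx).ne']
        rfl
      · have h0 := hpos hx
        have h5 := ha hx (i := N x - 1) (by omega)
        refine ⟨a x (N x - 1), ?_, ?_⟩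
        · apply h2
          have h6 := (hN x hx).1
          have h7 : N x = (N x - 1) + 1 := by omega
          rw [h7] at h6
          have h8 : (A1_U s x (N x - 1)).bind s = none := h6
          rw [h5] at h8
          exact h8
        · rw [List.getLast?_eq_getElem?, List.length_map, List.length_range, List.getElem?_map,
            List.getElem?_range (by omega)]
          rfl
    · intro x hx y hy hne v hvx hvy
      obtain ⟨i, hi, hi'⟩ := List.mem_map.1 hvx
      obtain ⟨j, hj, hj'⟩ := List.mem_map.1 hvy
      rw [List.mem_range] at hi hj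
      have h5 := ha hx hi
      have h6 := ha hy hj
      rw [hi'] at h5
      rw [hj'] at h6
      exact hne (A1_meet h3 h4 hx hy h5 h6).1

end QG
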