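import Pool.Agent.Lib.QG.A1
set_option autoImplicit false

/-! Row A2. Gammoids = matroids with a presentation `Pres` (contractions of transversal matroids).
(=>) With V, A, B, f as in the definition of Gammoid: W := V, J := V ⊕ V,
R (inl e) (inl v) := f e = v, R (inr v) (inl w) := A v w ∨ v = w, R (inr v) (inr b) := v = b ∧ b ∈ B,
all others False. A matching g of inl '' I ∪ range inr is the same as s (linked_iff):
s v = some w iff g (inr v) = inl w, s v = none iff g (inr v) = inr v.
(<=) Pres M W J R. Since the empty set is independent, there is an injective μ : W → J with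
R (inr w) (μ w). Digraph on V := Option (M.E ⊕ J) (the Option only to have a value outside M.E):
arcs e → j if R (inl e) j; μ w → j if R (inr w) j (any j, also j = μ w does no harm);
B := the vertices j outside range μ (and none). Claim: Linked (inl '' I) iff Mat R (inl '' I ∪ range inr).
From a matching g: s (e) := some (g e) if e ∈ I, some e otherwise; s (μ w) := some (g w);
s j := none for j outside range μ. From s: g e := the j with s e = some j (e ∈ I; the value e itself is
excluded by the last condition), g w := the j with s (μ w) = some j. -/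

namespace QG
open Set Matroid

theorem Gammoid.finite {α : Type} {M : Matroid α} (h : Gammoid M) : M.Finite := by
  obtain ⟨V, A, B, f, hV, hf, -⟩ := h
  exact ⟨(Set.toFinite (f '' M.E)).of_finite_image hf⟩

/-- the relation of the presentation of a gammoid -/
private def A2_R {α V : Type} (A : V → V → Prop) (B : Set V) (f : α → V) :
    α ⊕ V → V ⊕ V → Prop
  | Sum.inl e, Sum.inl v => f e = v
  | Sum.inl _, Sum.inr _ => False
  | Sum.inr v, Sum.inl w => A v w ∨ v = w
  | Sum.inr v, Sum.inr b => v = b ∧ b ∈ B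

private theorem A2_fwd {α V : Type} [Finite V] (A : V → V → Prop) (B : Set V) (f : α → V)
    {I : Set α} (hf : InjOn f I) : Linked A B (f '' I) ↔
      Mat (A2_R A B f) (Sum.inl '' I ∪ range Sum.inr) := by
  classical
  rw [linked_iff]
  constructor
  · rintro ⟨s, h1, h2, h3, h4⟩
    let g : α ⊕ V → V ⊕ V := fun x => match x with
      | Sum.inl e => Sum.inl (f e)
      | Sum.inr v => (s v).elim (Sum.inr v) Sum.inl
    have hgr : ∀ v w, s v = some w → g (Sum.inr v) = Sum.inl w := by
      intro v w h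
      show (s v).elim (Sum.inr v) Sum.inl = _
      rw [h]
      rfl
    have hgn : ∀ v, s v = none → g (Sum.inr v) = Sum.inr v := by
      intro v h
      show (s v).elim (Sum.inr v) Sum.inl = _
      rw [h]
      rfl
    refine ⟨g, ?_, ?_⟩
    · rintro x (⟨e, he, rfl⟩ | ⟨v, rfl⟩)
      · exact rfl
      · rcases h : s v with _ | w
        · rw [hgn v h]
          exact ⟨rfl, h2 v h⟩
        · rw [hgr v w h]
          exact h1 v w h
    · rintro x (⟨e, he, rfl⟩ | ⟨v, rfl⟩) y (⟨e', he', rfl⟩ | ⟨v', rfl⟩) hxy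
      · have h5 : f e = f e' := Sum.inl_injective hxy
        rw [hf he he' h5]
      · rcases h : s v' with _ | w
        · rw [hgn v' h] at hxy
          exact absurd hxy (by simp [g])
        · rw [hgr v' w h] at hxy
          have h5 : f e = w := Sum.inl_injective hxy
          rw [← h5] at h
          exact absurd h (h4 _ ⟨e, he, rfl⟩ v')
      · rcases h : s v with _ | w
        · rw [hgn v h] at hxy
          exact absurd hxy (by simp [g])
        · rw [hgr v w h] at hxy
          have h5 : w = f e' := Sum.inl_injective hxy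
          rw [h5] at h
          exact absurd h (h4 _ ⟨e', he', rfl⟩ v)
      · rcases h : s v with _ | w <;> rcases h' : s v' with _ | w'
        · rw [hgn v h, hgn v' h'] at hxy
          rw [Sum.inr_injective hxy]
        · rw [hgn v h, hgr v' w' h'] at hxy
          exact absurd hxy (by simp)
        · rw [hgr v w h, hgn v' h'] at hxy
          exact absurd hxy (by simp)
        · rw [hgr v w h, hgr v' w' h'] at hxy
          have h5 : w = w' := Sum.inl_injective hxy
          rw [h3 v v' w h (h5 ▸ h')]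
  · rintro ⟨g, h1, h2⟩
    have hgR : ∀ v, A2_R A B f (Sum.inr v) (g (Sum.inr v)) := fun v => h1 _ (Or.inr ⟨v, rfl⟩)
    have hs : ∀ v, ∃ o : Option V, (∀ w, o = some w ↔ g (Sum.inr v) = Sum.inl w) ∧
        (o = none → v ∈ B) := by
      intro v
      have h3 := hgR v
      rcases h : g (Sum.inr v) with w | b
      · refine ⟨some w, fun w' => ?_, fun h => absurd h (by simp)⟩
        rw [Option.some_inj, Sum.inl.injEq]
      · rw [h] at h3
        refine ⟨none, fun w' => ?_, fun _ => ?_⟩
        · constructor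
          · intro h
            exact absurd h (by simp)
          · intro h
            exact absurd h (by simp)
        · rw [h3.1]
          exact h3.2
    choose s hs1 hs2 using hs
    refine ⟨s, ?_, hs2, ?_, ?_⟩
    · intro v w hvw
      have h3 := hgR v
      rw [(hs1 v w).1 hvw] at h3
      exact h3
    · intro v v' w hv hv'
      have h3 := (hs1 v w).1 hv
      have h4 := (hs1 v' w).1 hv'
      exact Sum.inr_injective
        (h2 (Or.inr ⟨v, rfl⟩) (Or.inr ⟨v', rfl⟩) (h3.trans h4.symm))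
    · rintro x ⟨e, he, rfl⟩ v hv
      have h3 := (hs1 v (f e)).1 hv
      have h4 : g (Sum.inl e) = Sum.inl (f e) := by
        have h5 := h1 (Sum.inl e) (Or.inl ⟨e, he, rfl⟩)
        rcases h : g (Sum.inl e) with w | b
        · rw [h] at h5
          have h6 : f e = w := h5
          rw [h6]
        · rw [h] at h5
          exact h5.elim
      have h5 := h2 (Or.inr ⟨v, rfl⟩) (Or.inl ⟨e, he, rfl⟩) (h3.trans h4.symm)
      exact absurd h5 (by simp)

/-- the arcs of the digraph of a presentation -/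
private def A2_A {α W J : Type} (E : Set α) (R : α ⊕ W → J → Prop) (μ : W → J) :
    Option (E ⊕ J) → Option (E ⊕ J) → Prop
  | some (Sum.inl e), some (Sum.inr j) => R (Sum.inl (e : α)) j
  | some (Sum.inr i), some (Sum.inr j) => ∃ w, μ w = i ∧ R (Sum.inr w) j
  | _, _ => False

private theorem A2_bwd {α W J : Type} (E : Set α) (hE : E.Finite) [Finite J]
    (R : α ⊕ W → J → Prop) (g0 : α ⊕ W → J)
    (μ : W → J) (hμ : Function.Injective μ) (hR : ∀ w, R (Sum.inr w) (μ w)) (f : α → Option (E ⊕ J))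
    (hf : ∀ (a : α) (h : a ∈ E), f a = some (Sum.inl ⟨a, h⟩)) {I : Set α} (hI : I ⊆ E) :
    Linked (A2_A E R μ) {x | ∀ y, x = some y → ∃ j, y = Sum.inr j ∧ j ∉ range μ} (f '' I) ↔
      Mat R (Sum.inl '' I ∪ range Sum.inr) := by
  classical
  have : Finite E := hE
  rw [linked_iff]
  constructor
  · rintro ⟨s, h1, h2, h3, h4⟩
    have hA : ∀ a ∈ I, ∃ j, s (f a) = some (some (Sum.inr j)) ∧ R (Sum.inl a) j := by
      intro a ha
      have h5 : f a = some (Sum.inl ⟨a, hI ha⟩) := hf a (hI ha)
      rcases h : s (f a) with _ | y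
      · have h6 := h2 _ h
        rw [h5] at h6
        obtain ⟨j, hj, _⟩ := h6 _ rfl
        exact absurd hj (by simp)
      · rcases h1 _ _ h with h6 | h6
        · rw [h5] at h6
          rcases y with _ | (e | j)
          · exact h6.elim
          · exact h6.elim
          · exact ⟨j, rfl, h6⟩
        · rw [← h6] at h
          exact absurd h (h4 _ ⟨a, ha, rfl⟩ _)
    have hW : ∀ w, ∃ j, s (some (Sum.inr (μ w))) = some (some (Sum.inr j)) ∧
        R (Sum.inr w) j := by
      intro w
      rcases h : s (some (Sum.inr (μ w))) with _ | y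
      · have h6 := h2 _ h
        obtain ⟨j, hj, hj'⟩ := h6 _ rfl
        rw [← Sum.inr_injective hj] at hj'
        exact absurd ⟨w, rfl⟩ hj'
      · rcases h1 _ _ h with h6 | h6
        · rcases y with _ | (e | j)
          · exact h6.elim
          · exact h6.elim
          · obtain ⟨w', hw', hj⟩ := h6
            rw [hμ hw'] at hj
            exact ⟨j, rfl, hj⟩
        · exact ⟨μ w, by rw [h6], hR w⟩
    have hex : ∀ x : α ⊕ W, ∃ j, x ∈ (Sum.inl '' I ∪ range Sum.inr : Set (α ⊕ W)) → (R x j ∧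
        ((∃ a ∈ I, x = Sum.inl a ∧ s (f a) = some (some (Sum.inr j))) ∨
          ∃ w, x = Sum.inr w ∧ s (some (Sum.inr (μ w))) = some (some (Sum.inr j)))) := by
      intro x
      by_cases hx : x ∈ (Sum.inl '' I ∪ range Sum.inr : Set (α ⊕ W))
      · rcases hx with ⟨a, ha, rfl⟩ | ⟨w, rfl⟩
        · obtain ⟨j, hj1, hj2⟩ := hA a ha
          exact ⟨j, fun _ => ⟨hj2, Or.inl ⟨a, ha, rfl, hj1⟩⟩⟩
        · obtain ⟨j, hj1, hj2⟩ := hW w
          exact ⟨j, fun _ => ⟨hj2, Or.inr ⟨w, rfl, hj1⟩⟩⟩
      · exact ⟨g0 x, fun h => absurd h hx⟩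
    choose g hg using hex
    refine ⟨g, fun x hx => (hg x hx).1, ?_⟩
    intro x hx x' hx' hxx
    rcases (hg x hx).2 with ⟨a, ha, rfl, h5⟩ | ⟨w, rfl, h5⟩ <;>
      rcases (hg x' hx').2 with ⟨a', ha', rfl, h5'⟩ | ⟨w', rfl, h5'⟩ <;>
      rw [hxx] at h5 <;> have h6 := h3 _ _ _ h5 h5'
    · rw [hf a (hI ha), hf a' (hI ha')] at h6
      have h7 := Subtype.ext_iff.1 (Sum.inl_injective (Option.some.inj h6))
      rw [show a = a' from h7]
    · rw [hf a (hI ha)] at h6
      exact absurd (Option.some.inj h6) (by simp)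
    · rw [hf a' (hI ha')] at h6
      exact absurd (Option.some.inj h6) (by simp)
    · rw [hμ (Sum.inr_injective (Option.some.inj h6))]
  · rintro ⟨g, h1, h2⟩
    have hex : ∀ v : Option (E ⊕ J), ∃ o : Option (Option (E ⊕ J)),
        (v = none ∧ o = none) ∨
        (∃ e : E, (e : α) ∈ I ∧ v = some (Sum.inl e) ∧ o = some (some (Sum.inr (g (Sum.inl e))))) ∨
        (∃ e : E, (e : α) ∉ I ∧ v = some (Sum.inl e) ∧ o = some (some (Sum.inl e))) ∨
        (∃ w, v = some (Sum.inr (μ w)) ∧ o = some (some (Sum.inr (g (Sum.inr w))))) ∨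
        (∃ j, j ∉ range μ ∧ v = some (Sum.inr j) ∧ o = none) := by
      rintro (_ | (e | j))
      · exact ⟨_, Or.inl ⟨rfl, rfl⟩⟩
      · by_cases he : (e : α) ∈ I
        · exact ⟨_, Or.inr (Or.inl ⟨e, he, rfl, rfl⟩)⟩
        · exact ⟨_, Or.inr (Or.inr (Or.inl ⟨e, he, rfl, rfl⟩))⟩
      · by_cases hj : j ∈ range μ
        · obtain ⟨w, rfl⟩ := hj
          exact ⟨_, Or.inr (Or.inr (Or.inr (Or.inl ⟨w, rfl, rfl⟩)))⟩
        · exact ⟨_, Or.inr (Or.inr (Or.inr (Or.inr ⟨j, hj, rfl, rfl⟩)))⟩
    choose s hs using hex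
    have hval : ∀ v u, s v = some u →
        (∃ e : E, (e : α) ∈ I ∧ v = some (Sum.inl e) ∧ u = some (Sum.inr (g (Sum.inl e)))) ∨
        (∃ e : E, (e : α) ∉ I ∧ v = some (Sum.inl e) ∧ u = some (Sum.inl e)) ∨
        (∃ w, v = some (Sum.inr (μ w)) ∧ u = some (Sum.inr (g (Sum.inr w)))) := by
      intro v u hvu
      rcases hs v with ⟨_, h⟩ | ⟨e, he, hv, h⟩ | ⟨e, he, hv, h⟩ | ⟨w, hv, h⟩ | ⟨j, _, _, h⟩ <;>
        rw [hvu] at h
      · exact absurd h (by simp)
      · exact Or.inl ⟨e, he, hv, Option.some.inj h⟩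
      · exact Or.inr (Or.inl ⟨e, he, hv, Option.some.inj h⟩)
      · exact Or.inr (Or.inr ⟨w, hv, Option.some.inj h⟩)
      · exact absurd h (by simp)
    refine ⟨s, ?_, ?_, ?_, ?_⟩
    · intro v u hvu
      rcases hval v u hvu with ⟨e, he, rfl, rfl⟩ | ⟨e, he, rfl, rfl⟩ | ⟨w, rfl, rfl⟩
      · exact Or.inl (h1 (Sum.inl (e : α)) (Or.inl ⟨_, he, rfl⟩))
      · exact Or.inr rfl
      · exact Or.inl ⟨w, rfl, h1 (Sum.inr w) (Or.inr ⟨w, rfl⟩)⟩
    · intro v hv y hy
      rcases hs v with ⟨h, _⟩ | ⟨e, _, _, h⟩ | ⟨e, _, _, h⟩ | ⟨w, _, h⟩ | ⟨j, hj, h, _⟩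
      · rw [hy] at h
        exact absurd h (by simp)
      · rw [hv] at h
        exact absurd h (by simp)
      · rw [hv] at h
        exact absurd h (by simp)
      · rw [hv] at h
        exact absurd h (by simp)
      · rw [hy] at h
        exact ⟨j, Option.some.inj h, hj⟩
    · intro v v' u hv hv'
      rcases hval v u hv with ⟨e, he, rfl, h⟩ | ⟨e, he, rfl, h⟩ | ⟨w, rfl, h⟩ <;>
        rcases hval v' u hv' with ⟨e', he', rfl, h'⟩ | ⟨e', he', rfl, h'⟩ | ⟨w', rfl, h'⟩ <;>
        rw [h] at h' <;> have h5 := Option.some.inj h'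
      · have h6 := h2 (Or.inl ⟨_, he, rfl⟩) (Or.inl ⟨_, he', rfl⟩) (Sum.inr_injective h5)
        rw [Subtype.ext (Sum.inl_injective h6)]
      · exact absurd h5 (by simp)
      · have h6 := h2 (Or.inl ⟨_, he, rfl⟩) (Or.inr ⟨w', rfl⟩) (Sum.inr_injective h5)
        exact absurd h6 (by simp)
      · exact absurd h5 (by simp)
      · rw [Sum.inl_injective h5]
      · exact absurd h5 (by simp)
      · have h6 := h2 (Or.inr ⟨w, rfl⟩) (Or.inl ⟨_, he', rfl⟩) (Sum.inr_injective h5)
        exact absurd h6 (by simp)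
      · exact absurd h5 (by simp)
      · have h6 := h2 (Or.inr ⟨w, rfl⟩) (Or.inr ⟨w', rfl⟩) (Sum.inr_injective h5)
        rw [Sum.inr_injective h6]
    · rintro x ⟨a, ha, rfl⟩ v hv
      rw [hf a (hI ha)] at hv
      rcases hval v _ hv with ⟨e, he, rfl, h⟩ | ⟨e, he, rfl, h⟩ | ⟨w, rfl, h⟩ <;>
        have h5 := Option.some.inj h
      · exact absurd h5 (by simp)
      · have h6 : a = (e : α) := Subtype.ext_iff.1 (Sum.inl_injective h5)
        exact he (h6 ▸ ha)
      · exact absurd h5 (by simp)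

theorem gammoid_iff_pres {α : Type} (M : Matroid α) :
    Gammoid M ↔ M.Finite ∧ ∃ (W J : Type) (R : α ⊕ W → J → Prop),
      Finite W ∧ Finite J ∧ Pres M W J R := by
  classical
  constructor
  · intro h
    refine ⟨h.finite, ?_⟩
    obtain ⟨V, A, B, f, hV, hf, hM⟩ := h
    refine ⟨V, V ⊕ V, A2_R A B f, hV, inferInstance, ?_⟩
    intro I hI
    rw [hM I hI]
    exact A2_fwd A B f (hf.mono hI)
  · rintro ⟨hfin, W, J, R, hW, hJ, hP⟩
    have h0 := (hP ∅ (empty_subset _)).1 M.empty_indep
    obtain ⟨g0, hg1, hg2⟩ := h0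
    have hE : M.E.Finite := hfin.ground_finite
    have : Finite M.E := hE
    let f : α → Option (M.E ⊕ J) := fun a => if h : a ∈ M.E then some (Sum.inl ⟨a, h⟩) else none
    have hf : ∀ (a : α) (h : a ∈ M.E), f a = some (Sum.inl ⟨a, h⟩) := fun a h => dif_pos h
    refine ⟨Option (M.E ⊕ J), A2_A M.E R (fun w => g0 (Sum.inr w)),
      {x | ∀ y, x = some y → ∃ j, y = Sum.inr j ∧ j ∉ range fun w => g0 (Sum.inr w)}, f,
      inferInstance, ?_, ?_⟩
    · intro a ha a' ha' haa
      rw [hf a ha, hf a' ha'] at haa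
      exact Subtype.ext_iff.1 (Sum.inl_injective (Option.some.inj haa))
    · intro I hI
      rw [hP I hI]
      refine (A2_bwd M.E hE R g0 _ ?_ ?_ f hf hI).symm
      · intro w w' hww
        exact Sum.inr_injective (hg2 (Or.inr ⟨w, rfl⟩) (Or.inr ⟨w', rfl⟩) hww)
      · intro w
        exact hg1 _ (Or.inr ⟨w, rfl⟩)

end QG
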