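import Pool.Agent.Lib.QG.Defs
set_option autoImplicit false

/-! Row A3. Mendelsohn-Dulmage, and the form of presentations with bases.
mendelsohn_dulmage: let A be the least subset of X such that X \ h(K) ⊆ A, and h (f a) ∈ A whenever
a ∈ A, f a ∈ K, h (f a) ∈ X (inductive predicate). Put Y := A ∪ h (K \ f(A)), g = f on A and
g (h j) = j for j ∈ K \ f(A). No finiteness needed.
presB_of_pres: let r be the rank of M (a base B0 has r elements), |W| + r ≤ |J| since inl '' B0 ∪ range inr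
is matched into J. Take W' := W ⊕ Fin d with d = |J| - |W| - r, the new elements being related to
every j. A base B with all of W' is matched bijectively (cardinality); conversely from a bijection get
the matching of B and W, so B is independent, with r elements.
pres_of_presB: if inl '' I ∪ range inr is matched into J, take a base B0, invert the perfect matching of
inl '' B0 ∪ range inr to get h, use mendelsohn_dulmage with K = univ: Y = inl '' B ∪ range inr with
I ⊆ B ⊆ I ∪ B0, so B is a base. -/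

namespace QG
open Set Matroid

/-- the least set `A` in the proof of `mendelsohn_dulmage` -/
private inductive A3_A {S J : Type} (X : Set S) (K : Set J) (f : S → J) (h : J → S) : S → Prop
  | base (x : S) (hx : x ∈ X) (hn : x ∉ h '' K) : A3_A X K f h x
  | step (a : S) (ha : A3_A X K f h a) (hK : f a ∈ K) (hX : h (f a) ∈ X) : A3_A X K f h (h (f a))

theorem mendelsohn_dulmage {S J : Type} (R : S → J → Prop) (X : Set S) (K : Set J) (f : S → J)
    (hf : ∀ x ∈ X, R x (f x)) (hfi : InjOn f X) (h : J → S) (hh : ∀ j ∈ K, R (h j) j)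
    (hhi : InjOn h K) : ∃ (Y : Set S) (g : S → J), X ⊆ Y ∧ Y ⊆ X ∪ h '' K ∧
      (∀ y ∈ Y, R y (g y)) ∧ InjOn g Y ∧ K ⊆ g '' Y := by
  classical
  set A : Set S := {x | A3_A X K f h x} with hA
  have hAX : A ⊆ X := by
    intro x hx
    cases hx with
    | base _ hx _ => exact hx
    | step a ha hK hX => exact hX
  set K' : Set J := K \ f '' A with hK'
  have hdisj : ∀ j ∈ K', h j ∉ A := by
    intro j hj hjA
    have key : ∀ x, A3_A X K f h x → x = h j → False := by
      intro x hx hxj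
      cases hx with
      | base _ hx hn => exact hn ⟨j, hj.1, hxj.symm⟩
      | step a ha hK hX =>
        have h1 := hhi hK hj.1 hxj
        exact hj.2 ⟨a, ha, h1⟩
    exact key _ hjA rfl
  have hex : ∀ y : S, ∃ j : J, (y ∈ A → j = f y) ∧ (∀ i ∈ K', h i = y → j = i) := by
    intro y
    by_cases hy : y ∈ A
    · refine ⟨f y, fun _ => rfl, fun i hi hiy => ?_⟩
      rw [← hiy] at hy
      exact absurd hy (hdisj i hi)
    · by_cases h1 : ∃ i ∈ K', h i = y
      · obtain ⟨i, hi, hiy⟩ := h1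
        refine ⟨i, fun h => absurd h hy, fun i' hi' hiy' => ?_⟩
        exact hhi hi.1 hi'.1 (hiy.trans hiy'.symm)
      · push Not at h1
        exact ⟨f y, fun h => absurd h hy, fun i hi hiy => absurd hiy (h1 i hi)⟩
  choose g hg1 hg2 using hex
  have hgA : ∀ a ∈ A, g a = f a := fun a ha => hg1 a ha
  have hgK : ∀ j ∈ K', g (h j) = j := fun j hj => hg2 (h j) j hj rfl
  refine ⟨A ∪ h '' K', g, ?_, ?_, ?_, ?_, ?_⟩
  · intro x hx
    by_cases h1 : x ∈ h '' K
    · obtain ⟨j, hj, rfl⟩ := h1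
      by_cases h2 : j ∈ f '' A
      · obtain ⟨a, ha, rfl⟩ := h2
        exact Or.inl (A3_A.step a ha hj hx)
      · exact Or.inr ⟨j, ⟨hj, h2⟩, rfl⟩
    · exact Or.inl (A3_A.base x hx h1)
  · rintro y (hy | ⟨j, hj, rfl⟩)
    · exact Or.inl (hAX hy)
    · exact Or.inr ⟨j, hj.1, rfl⟩
  · rintro y (hy | ⟨j, hj, rfl⟩)
    · rw [hgA y hy]
      exact hf y (hAX hy)
    · rw [hgK j hj]
      exact hh j hj.1
  · rintro y (hy | ⟨j, hj, rfl⟩) y' (hy' | ⟨j', hj', rfl⟩) hyy
    · rw [hgA y hy, hgA y' hy'] at hyy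
      exact hfi (hAX hy) (hAX hy') hyy
    · rw [hgA y hy, hgK j' hj'] at hyy
      exact absurd ⟨y, hy, hyy⟩ hj'.2
    · rw [hgK j hj, hgA y' hy'] at hyy
      exact absurd ⟨y', hy', hyy.symm⟩ hj.2
    · rw [hgK j hj, hgK j' hj'] at hyy
      rw [hyy]
  · intro j hj
    by_cases h2 : j ∈ f '' A
    · obtain ⟨a, ha, rfl⟩ := h2
      exact ⟨a, Or.inl ha, hgA a ha⟩
    · exact ⟨h j, Or.inr ⟨j, ⟨hj, h2⟩, rfl⟩, hgK j ⟨hj, h2⟩⟩

private theorem A3_ncard {α W : Type} [Finite W] {B : Set α} (hB : B.Finite) :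
    (Sum.inl '' B ∪ range Sum.inr : Set (α ⊕ W)).ncard = B.ncard + Nat.card W := by
  have hd : Disjoint (Sum.inl '' B : Set (α ⊕ W)) (range Sum.inr) := by
    rw [disjoint_left]
    rintro _ ⟨a, _, rfl⟩ ⟨w, hw⟩
    exact absurd hw (by simp)
  rw [ncard_union_eq hd (hB.image _) (Set.finite_range _),
    ncard_image_of_injective _ Sum.inl_injective, ← image_univ,
    ncard_image_of_injective _ Sum.inr_injective, ncard_univ]

private theorem A3_base {α : Type} {M : Matroid α} [M.Finite] {B0 B : Set α} (h0 : M.IsBase B0)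
    (hB : M.Indep B) (hc : B.ncard = B0.ncard) : M.IsBase B := by
  obtain ⟨B', hB', hBB'⟩ := hB.exists_isBase_superset
  have h1 : B'.ncard = B0.ncard := hB'.ncard_eq_ncard_of_isBase h0
  have h2 : B = B' := eq_of_subset_of_ncard_le hBB' (by omega) hB'.finite
  rw [h2]
  exact hB'

theorem presB_of_pres {α : Type} {M : Matroid α} [M.Finite] {W J : Type} [Finite W] [Finite J]
    {R : α ⊕ W → J → Prop} (hP : Pres M W J R) :
    ∃ (W' : Type) (R' : α ⊕ W' → J → Prop), Finite W' ∧ PresB M W' J R' := by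
  classical
  obtain ⟨B0, hB0⟩ := M.exists_isBase
  obtain ⟨g0, hg0, hgi0⟩ := (hP B0 hB0.subset_ground).1 hB0.indep
  have hle : B0.ncard + Nat.card W ≤ Nat.card J := by
    rw [← A3_ncard (W := W) hB0.finite, ← hgi0.ncard_image]
    exact (ncard_le_ncard (subset_univ _) (Set.toFinite _)).trans (ncard_univ J).le
  set d : ℕ := Nat.card J - (B0.ncard + Nat.card W) with hd
  let R' : α ⊕ (W ⊕ Fin d) → J → Prop := fun x j => match x with
    | Sum.inl e => R (Sum.inl e) j
    | Sum.inr (Sum.inl w) => R (Sum.inr w) j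
    | Sum.inr (Sum.inr _) => True
  refine ⟨W ⊕ Fin d, R', inferInstance, ?_⟩
  intro B hBE
  have hBfin : B.Finite := M.ground_finite.subset hBE
  have hcW : Nat.card (W ⊕ Fin d) = Nat.card W + d := by
    rw [Nat.card_sum, Nat.card_fin]
  constructor
  · intro hB
    obtain ⟨g, hg, hgi⟩ := (hP B hBE).1 hB.indep
    set X : Set (α ⊕ W) := Sum.inl '' B ∪ range Sum.inr with hX
    have hc : (g '' X)ᶜ.ncard = d := by
      have h1 := ncard_add_ncard_compl (g '' X) (Set.toFinite _) (Set.toFinite _)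
      have h2 : (g '' X).ncard = B0.ncard + Nat.card W := by
        rw [hgi.ncard_image, hX, A3_ncard hBfin, hB.ncard_eq_ncard_of_isBase hB0]
      omega
    have e : Fin d ≃ ((g '' X)ᶜ : Set J) :=
      (finCongr hc.symm).trans (Finite.equivFinOfCardEq rfl).symm
    let g' : α ⊕ (W ⊕ Fin d) → J := fun x => match x with
      | Sum.inl a => g (Sum.inl a)
      | Sum.inr (Sum.inl w) => g (Sum.inr w)
      | Sum.inr (Sum.inr i) => e i
    have hXl : ∀ a ∈ B, (Sum.inl a : α ⊕ W) ∈ X := fun a ha => Or.inl ⟨a, ha, rfl⟩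
    have hXr : ∀ w, (Sum.inr w : α ⊕ W) ∈ X := fun w => Or.inr ⟨w, rfl⟩
    have he : ∀ (i : Fin d) (x : α ⊕ W), x ∈ X → g x ≠ e i := by
      intro i x hx h1
      exact (e i).2 ⟨x, hx, h1⟩
    refine ⟨g', ?_, ?_, ?_, ?_⟩
    · rintro x (⟨a, ha, rfl⟩ | ⟨w | i, rfl⟩)
      · exact hg _ (hXl a ha)
      · exact hg _ (hXr w)
      · trivial
    · exact fun _ _ => mem_univ _
    · rintro x (⟨a, ha, rfl⟩ | ⟨w | i, rfl⟩) y (⟨a', ha', rfl⟩ | ⟨w' | i', rfl⟩) hxy
      · have h1 := hgi (hXl a ha) (hXl a' ha') hxy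
        rw [Sum.inl_injective h1]
      · have h1 := hgi (hXl a ha) (hXr w') hxy
        exact absurd h1 (by simp)
      · exact absurd hxy (he i' _ (hXl a ha))
      · have h1 := hgi (hXr w) (hXl a' ha') hxy
        exact absurd h1 (by simp)
      · have h1 := hgi (hXr w) (hXr w') hxy
        rw [Sum.inr_injective h1]
      · exact absurd hxy (he i' _ (hXr w))
      · exact absurd hxy.symm (he i _ (hXl a' ha'))
      · exact absurd hxy.symm (he i _ (hXr w'))
      · rw [e.injective (Subtype.ext hxy)]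
    · intro j _
      by_cases hj : j ∈ g '' X
      · obtain ⟨x, hx, rfl⟩ := hj
        rcases hx with ⟨a, ha, rfl⟩ | ⟨w, rfl⟩
        · exact ⟨Sum.inl a, Or.inl ⟨a, ha, rfl⟩, rfl⟩
        · exact ⟨Sum.inr (Sum.inl w), Or.inr ⟨_, rfl⟩, rfl⟩
      · obtain ⟨i, hi⟩ := e.surjective ⟨j, hj⟩
        refine ⟨Sum.inr (Sum.inr i), Or.inr ⟨_, rfl⟩, ?_⟩
        show ((e i : ((g '' X)ᶜ : Set J)) : J) = j
        rw [hi]
  · rintro ⟨g, hg, hgb⟩
    have hI : M.Indep B := by
      rw [hP B hBE]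
      refine ⟨fun x => g (x.elim Sum.inl fun w => Sum.inr (Sum.inl w)), ?_, ?_⟩
      · rintro x (⟨a, ha, rfl⟩ | ⟨w, rfl⟩)
        · exact hg (Sum.inl a) (Or.inl ⟨a, ha, rfl⟩)
        · exact hg (Sum.inr (Sum.inl w)) (Or.inr ⟨_, rfl⟩)
      · rintro x (⟨a, ha, rfl⟩ | ⟨w, rfl⟩) y (⟨a', ha', rfl⟩ | ⟨w', rfl⟩) hxy
        · have h1 := hgb.injOn (x₁ := Sum.inl a) (x₂ := Sum.inl a') (Or.inl ⟨a, ha, rfl⟩)
            (Or.inl ⟨a', ha', rfl⟩) hxy
          rw [Sum.inl_injective h1]
        · have h1 := hgb.injOn (x₁ := Sum.inl a) (x₂ := Sum.inr (Sum.inl w'))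
            (Or.inl ⟨a, ha, rfl⟩) (Or.inr ⟨_, rfl⟩) hxy
          exact absurd h1 (by simp)
        · have h1 := hgb.injOn (x₁ := Sum.inr (Sum.inl w)) (x₂ := Sum.inl a')
            (Or.inr ⟨_, rfl⟩) (Or.inl ⟨a', ha', rfl⟩) hxy
          exact absurd h1 (by simp)
        · have h1 := hgb.injOn (x₁ := Sum.inr (Sum.inl w)) (x₂ := Sum.inr (Sum.inl w'))
            (Or.inr ⟨_, rfl⟩) (Or.inr ⟨_, rfl⟩) hxy
          rw [Sum.inl_injective (Sum.inr_injective h1)]
    refine A3_base hB0 hI ?_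
    have h1 : (Sum.inl '' B ∪ range Sum.inr : Set (α ⊕ (W ⊕ Fin d))).ncard = Nat.card J := by
      rw [← ncard_univ J, ← hgb.image_eq, hgb.injOn.ncard_image]
    rw [A3_ncard hBfin, hcW] at h1
    omega

theorem pres_of_presB {α : Type} {M : Matroid α} [M.Finite] {W J : Type} [Finite W] [Finite J]
    {R : α ⊕ W → J → Prop} (hP : PresB M W J R) : Pres M W J R := by
  classical
  intro I hI
  constructor
  · intro h
    obtain ⟨B, hB, hIB⟩ := h.exists_isBase_superset
    obtain ⟨g, hg, hgb⟩ := (hP B hB.subset_ground).1 hB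
    have hsub : (Sum.inl '' I ∪ range Sum.inr : Set (α ⊕ W)) ⊆ Sum.inl '' B ∪ range Sum.inr :=
      union_subset_union_left _ (image_mono hIB)
    exact ⟨g, fun x hx => hg x (hsub hx), hgb.injOn.mono hsub⟩
  · rintro ⟨f, hf, hfi⟩
    obtain ⟨B0, hB0⟩ := M.exists_isBase
    obtain ⟨g0, hg0, hgb0⟩ := (hP B0 hB0.subset_ground).1 hB0
    have hinv : ∀ j : J, ∃ x ∈ (Sum.inl '' B0 ∪ range Sum.inr : Set (α ⊕ W)), g0 x = j :=
      fun j => hgb0.surjOn (mem_univ j)
    choose h hh1 hh2 using hinv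
    obtain ⟨Y, g, hXY, hYX, hgR, hgi, hgs⟩ := mendelsohn_dulmage R
      (Sum.inl '' I ∪ range Sum.inr) univ f hf hfi h
      (fun j _ => by
        have h1 := hg0 (h j) (hh1 j)
        rwa [hh2 j] at h1)
      (fun j _ j' _ hjj => by rw [← hh2 j, ← hh2 j', hjj])
    set B : Set α := Sum.inl ⁻¹' Y with hB
    have hIB : I ⊆ B := fun a ha => hXY (Or.inl ⟨a, ha, rfl⟩)
    have hBE : B ⊆ M.E := by
      intro a ha
      rcases hYX ha with (⟨a', ha', h1⟩ | ⟨w, h1⟩) | ⟨j, _, hj⟩
      · rw [← Sum.inl_injective h1]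
        exact hI ha'
      · exact absurd h1 (by simp)
      · have h2 := hh1 j
        rw [hj] at h2
        rcases h2 with ⟨a', ha', h1⟩ | ⟨w, h1⟩
        · rw [← Sum.inl_injective h1]
          exact hB0.subset_ground ha'
        · exact absurd h1 (by simp)
    have hY : Y = Sum.inl '' B ∪ range Sum.inr := by
      ext x
      constructor
      · intro hx
        rcases x with a | w
        · exact Or.inl ⟨a, hx, rfl⟩
        · exact Or.inr ⟨w, rfl⟩
      · rintro (⟨a, ha, rfl⟩ | ⟨w, rfl⟩)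
        · exact ha
        · exact hXY (Or.inr ⟨w, rfl⟩)
    have hbase : M.IsBase B := by
      rw [hP B hBE, ← hY]
      exact ⟨g, hgR, fun _ _ => mem_univ _, hgi, hgs⟩
    exact hbase.indep.subset hIB

end QG
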