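import Pool.Agent.Lib.QG.A2
import Pool.Agent.Lib.QG.A3
set_option autoImplicit false

/-! Row A4. The dual of a gammoid is a gammoid, and a first consequence.
gammoid_iff_presB: combine gammoid_iff_pres, presB_of_pres, pres_of_presB.
dual: from PresB M W J R take W* := J, J* := Option-free version: J* := M.E ⊕ W (M.E as a type), and
R* (inl e) (inl x) := e = x, R* (inl e) (inr w) := False, R* (inr j) (inl x) := R (inl x) j,
R* (inr j) (inr w) := R (inr w) j. A perfect matching of inl '' (E \ B) ∪ range inr with M.E ⊕ W is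
the identity on E \ B together with a perfect matching of J with B ∪ W. If M.E ⊕ W is empty then
M.E is empty: M✶ = M. (M✶.IsBase B' iff M.IsBase (M.E \ B').)
gammoid_of_trans: PresB with W = Empty. -/

namespace QG
open Set Matroid

theorem gammoid_iff_presB {α : Type} (M : Matroid α) :
    Gammoid M ↔ M.Finite ∧ ∃ (W J : Type) (R : α ⊕ W → J → Prop),
      Finite W ∧ Finite J ∧ PresB M W J R := by
  constructor
  · intro h
    obtain ⟨hM, W, J, R, hW, hJ, hP⟩ := (gammoid_iff_pres M).1 h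
    obtain ⟨W', R', hW', hP'⟩ := presB_of_pres hP
    exact ⟨hM, W', J, R', hW', hJ, hP'⟩
  · rintro ⟨hM, W, J, R, hW, hJ, hP⟩
    exact (gammoid_iff_pres M).2 ⟨hM, W, J, R, hW, hJ, pres_of_presB hP⟩

/-- The relation of the dual presentation. -/
private def A4_dR {α W J : Type} (E : Set α) (R : α ⊕ W → J → Prop) : α ⊕ J → E ⊕ W → Prop
  | Sum.inl e, Sum.inl x => e = x
  | Sum.inl _, Sum.inr _ => False
  | Sum.inr j, Sum.inl x => R (Sum.inl x) j
  | Sum.inr j, Sum.inr w => R (Sum.inr w) j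

open Classical in
/-- The elements of the ground set as a type. -/
private noncomputable def A4_c {α W : Type} (E : Set α) [Nonempty (E ⊕ W)] : α ⊕ W → E ⊕ W
  | Sum.inl e => if h : e ∈ E then Sum.inl ⟨e, h⟩ else Classical.arbitrary _
  | Sum.inr w => Sum.inr w

private theorem A4_c_inl {α W : Type} {E : Set α} [Nonempty (E ⊕ W)] {e : α} (h : e ∈ E) :
    A4_c (W := W) E (Sum.inl e) = Sum.inl ⟨e, h⟩ := by
  simp only [A4_c]
  rw [dif_pos h]

private theorem A4_c_inr {α W : Type} {E : Set α} [Nonempty (E ⊕ W)] (w : W) :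
    A4_c (W := W) E (Sum.inr w) = Sum.inr w := rfl

/-- The value is determined. -/
private theorem A4_val {α W J : Type} {E : Set α} {R : α ⊕ W → J → Prop} {b : α} (hb : b ∈ E)
    {y : E ⊕ W} (h : A4_dR E R (Sum.inl b) y) : y = Sum.inl ⟨b, hb⟩ := by
  rcases y with x | w
  · have h1 : b = x.1 := h
    exact congrArg Sum.inl (Subtype.ext h1.symm)
  · exact absurd h id

private theorem A4_fwd {α W J : Type} {E : Set α} (R : α ⊕ W → J → Prop) {B : Set α} (hB : B ⊆ E)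
    (hE : E.Nonempty) (h : MatB R (Sum.inl '' (E \ B) ∪ range Sum.inr)) :
    MatB (A4_dR E R) (Sum.inl '' B ∪ range Sum.inr) := by
  classical
  have : Nonempty (E ⊕ W) := ⟨Sum.inl ⟨hE.some, hE.some_mem⟩⟩
  obtain ⟨g, hg, hbij⟩ := h
  have hk : ∀ j : J, ∃ x ∈ (Sum.inl '' (E \ B) ∪ range Sum.inr : Set (α ⊕ W)), g x = j :=
    fun j => hbij.surjOn (mem_univ j)
  choose k hkX hkg using hk
  have hkin : ∀ x ∈ (Sum.inl '' (E \ B) ∪ range Sum.inr : Set (α ⊕ W)), k (g x) = x :=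
    fun x hx => hbij.injOn (hkX _) hx (hkg _)
  have hcase : ∀ j, (∃ e ∈ E \ B, k j = Sum.inl e) ∨ ∃ w, k j = Sum.inr w := by
    intro j
    rcases hkX j with ⟨e, he, h1⟩ | ⟨w, h1⟩
    · exact Or.inl ⟨e, he, h1.symm⟩
    · exact Or.inr ⟨w, h1.symm⟩
  refine ⟨Sum.elim (fun e => A4_c E (Sum.inl e)) (fun j => A4_c E (k j)), ?_, ?_, ?_, ?_⟩
  · rintro x (⟨b, hb, rfl⟩ | ⟨j, rfl⟩)
    · rw [Sum.elim_inl, A4_c_inl (hB hb)]
      rfl
    · rw [Sum.elim_inr]
      have h2 := hg _ (hkX j)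
      rw [hkg] at h2
      rcases hcase j with ⟨e, he, h1⟩ | ⟨w, h1⟩
      · rw [h1] at h2 ⊢
        rw [A4_c_inl he.1]
        exact h2
      · rw [h1] at h2 ⊢
        exact h2
  · exact fun _ _ => mem_univ _
  · rintro x (⟨b, hb, rfl⟩ | ⟨j, rfl⟩) y (⟨b', hb', rfl⟩ | ⟨j', rfl⟩) hxy
    · rw [Sum.elim_inl, Sum.elim_inl, A4_c_inl (hB hb), A4_c_inl (hB hb')] at hxy
      have h1 := Sum.inl.inj hxy
      exact congrArg Sum.inl (Subtype.mk.inj h1)
    · rw [Sum.elim_inl, Sum.elim_inr, A4_c_inl (hB hb)] at hxy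
      rcases hcase j' with ⟨e, he, h1⟩ | ⟨w, h1⟩
      · rw [h1, A4_c_inl he.1] at hxy
        have h2 := Subtype.mk.inj (Sum.inl.inj hxy)
        exact absurd (h2 ▸ hb) he.2
      · rw [h1, A4_c_inr] at hxy
        exact absurd hxy Sum.inl_ne_inr
    · rw [Sum.elim_inl, Sum.elim_inr, A4_c_inl (hB hb')] at hxy
      rcases hcase j with ⟨e, he, h1⟩ | ⟨w, h1⟩
      · rw [h1, A4_c_inl he.1] at hxy
        have h2 := Subtype.mk.inj (Sum.inl.inj hxy)
        exact absurd (h2.symm ▸ hb') he.2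
      · rw [h1, A4_c_inr] at hxy
        exact absurd hxy Sum.inr_ne_inl
    · rw [Sum.elim_inr, Sum.elim_inr] at hxy
      have h3 : k j = k j' := by
        rcases hcase j with ⟨e, he, h1⟩ | ⟨w, h1⟩ <;> rcases hcase j' with ⟨e', he', h1'⟩ | ⟨w', h1'⟩
        · rw [h1, h1', A4_c_inl he.1, A4_c_inl he'.1] at hxy
          rw [h1, h1', Subtype.mk.inj (Sum.inl.inj hxy)]
        · rw [h1, h1', A4_c_inl he.1, A4_c_inr] at hxy
          exact absurd hxy Sum.inl_ne_inr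
        · rw [h1, h1', A4_c_inl he'.1, A4_c_inr] at hxy
          exact absurd hxy Sum.inr_ne_inl
        · rw [h1, h1', A4_c_inr, A4_c_inr] at hxy
          rw [h1, h1', Sum.inr.inj hxy]
      rw [← hkg j, h3, hkg j']
  · rintro (⟨x, hx⟩ | w) -
    · by_cases hxB : x ∈ B
      · exact ⟨Sum.inl x, Or.inl ⟨x, hxB, rfl⟩, A4_c_inl hx⟩
      · have hxX : (Sum.inl x : α ⊕ W) ∈ (Sum.inl '' (E \ B) ∪ range Sum.inr : Set (α ⊕ W)) :=
          Or.inl ⟨x, ⟨hx, hxB⟩, rfl⟩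
        refine ⟨Sum.inr (g (Sum.inl x)), Or.inr ⟨_, rfl⟩, ?_⟩
        rw [Sum.elim_inr, hkin _ hxX, A4_c_inl hx]
    · have hxX : (Sum.inr w : α ⊕ W) ∈ (Sum.inl '' (E \ B) ∪ range Sum.inr : Set (α ⊕ W)) :=
        Or.inr ⟨w, rfl⟩
      refine ⟨Sum.inr (g (Sum.inr w)), Or.inr ⟨_, rfl⟩, ?_⟩
      rw [Sum.elim_inr, hkin _ hxX, A4_c_inr]

private theorem A4_bwd {α W J : Type} {E : Set α} (R : α ⊕ W → J → Prop) {B : Set α} (hB : B ⊆ E)
    [Nonempty J] (h : MatB (A4_dR E R) (Sum.inl '' B ∪ range Sum.inr)) :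
    MatB R (Sum.inl '' (E \ B) ∪ range Sum.inr) := by
  classical
  obtain ⟨g, hg, hbij⟩ := h
  have hgB : ∀ b (hb : b ∈ B), g (Sum.inl b) = Sum.inl ⟨b, hB hb⟩ :=
    fun b hb => A4_val (hB hb) (hg _ (Or.inl ⟨b, hb, rfl⟩))
  -- the elements which are not in `B` come from `J`
  have hj : ∀ y : E ⊕ W, (∀ x : E, y = Sum.inl x → (x : α) ∉ B) → ∃ j, g (Sum.inr j) = y := by
    intro y hy
    obtain ⟨x, hx, h1⟩ := hbij.surjOn (mem_univ y)
    rcases hx with ⟨b, hb, rfl⟩ | ⟨j, rfl⟩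
    · rw [hgB b hb] at h1
      exact absurd hb (hy _ h1.symm)
    · exact ⟨j, h1⟩
  have hjw : ∀ w : W, ∃ j, g (Sum.inr j) = Sum.inr w := fun w =>
    hj _ fun x hx => absurd hx Sum.inr_ne_inl
  have hje : ∀ e : α, ∃ j, ∀ h : e ∈ E, e ∉ B → g (Sum.inr j) = Sum.inl ⟨e, h⟩ := by
    intro e
    by_cases h1 : e ∈ E
    · by_cases h2 : e ∈ B
      · exact ⟨Classical.arbitrary J, fun _ h3 => absurd h2 h3⟩
      · obtain ⟨j, hj'⟩ := hj (Sum.inl ⟨e, h1⟩) fun x hx => by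
          rw [← Sum.inl.inj hx]
          exact h2
        exact ⟨j, fun _ _ => hj'⟩
    · exact ⟨Classical.arbitrary J, fun h2 => absurd h2 h1⟩
  choose kw hkw using hjw
  choose ke hke using hje
  refine ⟨Sum.elim ke kw, ?_, ?_, ?_, ?_⟩
  · rintro x (⟨b, hb, rfl⟩ | ⟨w, rfl⟩)
    · rw [Sum.elim_inl]
      have h1 := hg (Sum.inr (ke b)) (Or.inr ⟨_, rfl⟩)
      rw [hke b hb.1 hb.2] at h1
      exact h1
    · rw [Sum.elim_inr]
      have h1 := hg (Sum.inr (kw w)) (Or.inr ⟨_, rfl⟩)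
      rw [hkw w] at h1
      exact h1
  · exact fun _ _ => mem_univ _
  · rintro x (⟨b, hb, rfl⟩ | ⟨w, rfl⟩) y (⟨b', hb', rfl⟩ | ⟨w', rfl⟩) hxy
    · rw [Sum.elim_inl, Sum.elim_inl] at hxy
      have h1 := hke b hb.1 hb.2
      rw [hxy, hke b' hb'.1 hb'.2] at h1
      exact congrArg Sum.inl (Subtype.mk.inj (Sum.inl.inj h1)).symm
    · rw [Sum.elim_inl, Sum.elim_inr] at hxy
      have h1 := hke b hb.1 hb.2
      rw [hxy, hkw w'] at h1
      exact absurd h1 Sum.inr_ne_inl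
    · rw [Sum.elim_inl, Sum.elim_inr] at hxy
      have h1 := hke b' hb'.1 hb'.2
      rw [← hxy, hkw w] at h1
      exact absurd h1 Sum.inr_ne_inl
    · rw [Sum.elim_inr, Sum.elim_inr] at hxy
      have h1 := hkw w
      rw [hxy, hkw w'] at h1
      exact congrArg Sum.inr (Sum.inr.inj h1).symm
  · intro j _
    rcases h1 : g (Sum.inr j) with x | w
    · have hxB : (x : α) ∉ B := by
        intro hx
        have h2 := hgB x hx
        have h3 : g (Sum.inl (x : α)) = g (Sum.inr j) := by rw [h2, h1]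
        exact absurd (hbij.injOn (Or.inl ⟨_, hx, rfl⟩) (Or.inr ⟨_, rfl⟩) h3) Sum.inl_ne_inr
      refine ⟨Sum.inl x, Or.inl ⟨x, ⟨x.2, hxB⟩, rfl⟩, ?_⟩
      rw [Sum.elim_inl]
      have h2 := hke x x.2 hxB
      have h3 : g (Sum.inr (ke x)) = g (Sum.inr j) := by rw [h2, h1]
      exact Sum.inr.inj (hbij.injOn (Or.inr ⟨_, rfl⟩) (Or.inr ⟨_, rfl⟩) h3)
    · refine ⟨Sum.inr w, Or.inr ⟨w, rfl⟩, ?_⟩
      rw [Sum.elim_inr]
      have h3 : g (Sum.inr (kw w)) = g (Sum.inr j) := by rw [hkw w, h1]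
      exact Sum.inr.inj (hbij.injOn (Or.inr ⟨_, rfl⟩) (Or.inr ⟨_, rfl⟩) h3)

theorem Gammoid.dual {α : Type} {M : Matroid α} (h : Gammoid M) : Gammoid M✶ := by
  rcases M.E.eq_empty_or_nonempty with hE | hE
  · have h1 : M = emptyOn α := ground_eq_empty_iff.1 hE
    subst h1
    rw [emptyOn_dual_eq]
    exact h
  · obtain ⟨hM, W, J, R, hW, hJ, hP⟩ := (gammoid_iff_presB M).1 h
    refine (gammoid_iff_presB M✶).2 ⟨inferInstance, J, M.E ⊕ W, A4_dR M.E R, hJ, ?_, ?_⟩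
    · have : Finite M.E := hM.ground_finite
      infer_instance
    · intro B hB
      rw [dual_ground] at hB
      rw [dual_isBase_iff hB, hP _ sdiff_subset]
      have : Nonempty J := by
        obtain ⟨B0, hB0⟩ := M.exists_isBase
        obtain ⟨g, -⟩ := (hP B0 hB0.subset_ground).1 hB0
        exact ⟨g (Sum.inl hE.some)⟩
      exact ⟨A4_fwd R hB hE, A4_bwd R hB⟩

theorem gammoid_of_trans {α : Type} {M : Matroid α} [M.Finite] {J : Type} [Finite J]
    (R : α → J → Prop) (h : ∀ B, B ⊆ M.E → (M.IsBase B ↔ MatB R B)) : Gammoid M := by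
  refine (gammoid_iff_presB M).2 ⟨inferInstance, Empty, J,
    fun x j => Sum.elim (fun a => R a j) (fun _ => True) x, inferInstance, inferInstance, ?_⟩
  intro B hB
  rw [h B hB, range_eq_empty, union_empty]
  constructor
  · rintro ⟨g, h1, h2⟩
    refine ⟨Sum.elim g Empty.elim, ?_, fun _ _ => mem_univ _, ?_, ?_⟩
    · rintro x ⟨b, hb, rfl⟩
      exact h1 b hb
    · rintro x ⟨b, hb, rfl⟩ y ⟨b', hb', rfl⟩ hxy
      rw [Sum.elim_inl, Sum.elim_inl] at hxy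
      exact congrArg Sum.inl (h2.injOn hb hb' hxy)
    · intro j hj
      obtain ⟨b, hb, h3⟩ := h2.surjOn hj
      exact ⟨Sum.inl b, ⟨b, hb, rfl⟩, h3⟩
  · rintro ⟨g, h1, h2⟩
    refine ⟨fun a => g (Sum.inl a), ?_, fun _ _ => mem_univ _, ?_, ?_⟩
    · intro b hb
      exact h1 (Sum.inl b) ⟨b, hb, rfl⟩
    · intro b hb b' hb' hxy
      exact Sum.inl.inj (h2.injOn ⟨b, hb, rfl⟩ ⟨b', hb', rfl⟩ hxy)
    · intro j hj
      obtain ⟨x, ⟨b, hb, rfl⟩, h3⟩ := h2.surjOn hj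
      exact ⟨b, hb, h3⟩

end QG
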