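import Pool.Agent.Lib.QG.A4
set_option autoImplicit false

/-! Row A5. Gammoids are closed under restriction, deletion, contraction, minors, isomorphism.
restrict: same V, A, B, f. contract: M ／ C = (M✶ ＼ C)✶ by definition. minor: N = M ／ C ＼ D.
iso: compose f with the inverse of e (values outside N.E arbitrary; if V is empty enlarge it by one
isolated vertex first, or use gammoid_iff_pres). -/

namespace QG
open Set Matroid
variable {α β : Type} {M N : Matroid α}

theorem Gammoid.restrict (h : Gammoid M) {X : Set α} (hX : X ⊆ M.E) : Gammoid (M ↾ X) := by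
  obtain ⟨V, A, B, f, hV, hf, hI⟩ := h
  refine ⟨V, A, B, f, hV, hf.mono hX, fun I hIX => ?_⟩
  rw [restrict_ground_eq] at hIX
  rw [restrict_indep_iff, hI I (hIX.trans hX)]
  exact and_iff_left hIX

theorem Gammoid.delete (h : Gammoid M) (D : Set α) : Gammoid (M ＼ D) :=
  h.restrict sdiff_subset

theorem Gammoid.contract (h : Gammoid M) (C : Set α) : Gammoid (M ／ C) :=
  (h.dual.delete C).dual

theorem Gammoid.minor (h : Gammoid M) (hN : N ≤m M) : Gammoid N := by
  obtain ⟨C, D, rfl⟩ := hN
  exact (h.contract C).delete D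

theorem Gammoid.iso {P : Matroid β} (h : Gammoid M) (e : MIso M P) : Gammoid P := by
  classical
  obtain ⟨V, A, B, f, hV, hf, hI⟩ := h
  obtain ⟨e, he⟩ := e
  rcases isEmpty_or_nonempty V with hVe | hVn
  · have hα : IsEmpty α := ⟨fun a => hVe.false (f a)⟩
    have hPE : P.E = ∅ := by
      by_contra hne
      obtain ⟨b, hb⟩ := nonempty_iff_ne_empty.2 hne
      exact hα.false (e.symm ⟨b, hb⟩).1
    refine ⟨Unit, fun _ _ => False, ∅, fun _ => (), inferInstance, ?_, fun I hIE => ?_⟩
    · rw [hPE]
      exact injOn_empty _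
    · rw [hPE, subset_empty_iff] at hIE
      subst hIE
      rw [image_empty]
      refine ⟨fun _ => ⟨fun _ => [], fun x hx => absurd hx (notMem_empty x),
        fun x hx => absurd hx (notMem_empty x)⟩, fun _ => P.empty_indep⟩
  · refine ⟨V, A, B, fun b => if h : b ∈ P.E then f (e.symm ⟨b, h⟩) else Classical.arbitrary V,
      hV, ?_, fun I hIE => ?_⟩
    · intro b hb b' hb' hbb
      simp only [dif_pos hb, dif_pos hb'] at hbb
      have h1 := hf (e.symm ⟨b, hb⟩).2 (e.symm ⟨b', hb'⟩).2 hbb
      have h2 := e.symm.injective (Subtype.ext h1)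
      exact Subtype.mk.inj h2
    · have h1 : (Subtype.val '' (e '' {x : M.E | (e x : β) ∈ I}) : Set β) = I := by
        ext b
        constructor
        · rintro ⟨y, ⟨x, hx, rfl⟩, rfl⟩
          exact hx
        · intro hb
          refine ⟨⟨b, hIE hb⟩, ⟨e.symm ⟨b, hIE hb⟩, ?_, e.apply_symm_apply _⟩, rfl⟩
          change (e (e.symm ⟨b, hIE hb⟩) : β) ∈ I
          rw [e.apply_symm_apply]
          exact hb
      have h2 := he {x : M.E | (e x : β) ∈ I}
      rw [h1] at h2
      rw [← h2, hI _ (by rintro _ ⟨x, _, rfl⟩; exact x.2)]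
      have h3 : f '' (Subtype.val '' {x : M.E | (e x : β) ∈ I}) =
          (fun b => if h : b ∈ P.E then f (e.symm ⟨b, h⟩) else Classical.arbitrary V) '' I := by
        ext v
        constructor
        · rintro ⟨_, ⟨x, hx, rfl⟩, rfl⟩
          refine ⟨e x, hx, ?_⟩
          simp only [dif_pos (e x).2, Subtype.coe_eta, e.symm_apply_apply]
        · rintro ⟨b, hb, rfl⟩
          refine ⟨e.symm ⟨b, hIE hb⟩, ⟨e.symm ⟨b, hIE hb⟩, ?_, rfl⟩, ?_⟩
          · change (e (e.symm ⟨b, hIE hb⟩) : β) ∈ I
            rw [e.apply_symm_apply]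
            exact hb
          · simp only [dif_pos (hIE hb)]
      rw [h3]

end QG
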