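import Pool.Agent.Lib.QG.A4
set_option autoImplicit false

/-! Row A6. Direct sums and 2-sums of gammoids. Use gammoid_iff_pres.
sum: presentations (W1, J1, R1) of M ↾ X and (W2, J2, R2) of M ↾ Y; W := W1 ⊕ W2, J := J1 ⊕ J2,
R (inl e) (inl j) := e ∈ X ∧ R1 (inl e) j, R (inl e) (inr j) := e ∈ Y ∧ R2 (inl e) j,
R (inr (inl w)) (inl j) := R1 (inr w) j, R (inr (inr w)) (inr j) := R2 (inr w) j, others False.
(J1 or J2 may be empty; then the corresponding W and ground set have to be empty, or enlarge J1, J2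
by an element related to nothing.)
two_sum: W := (W1 ⊕ W2) ⊕ Unit, J := J1 ⊕ J2, the new element p is related to inl j if
R1 (inl y) j, to inr j if R2 (inl x) j. A matching of I ∪ J' ∪ W either puts p into J1 (then
insert y I is matched by R1 and J' by R2) or into J2. -/

namespace QG
open Set Matroid
variable {α : Type} {M N1 N2 : Matroid α}

private lemma A6_build {S S1 S2 J1 J2 : Type} {R : S → J1 ⊕ J2 → Prop} {R1 : S1 → J1 → Prop}
    {R2 : S2 → J2 → Prop} {Z : Set S} {Z1 : Set S1} {Z2 : Set S2} (c : S → S1 ⊕ S2)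
    (hc : InjOn c Z)
    (hm1 : ∀ z ∈ Z, ∀ s, c z = Sum.inl s → s ∈ Z1 ∧ ∀ j, R1 s j → R z (Sum.inl j))
    (hm2 : ∀ z ∈ Z, ∀ s, c z = Sum.inr s → s ∈ Z2 ∧ ∀ j, R2 s j → R z (Sum.inr j))
    (h1 : Mat R1 Z1) (h2 : Mat R2 Z2) : Mat R Z := by
  obtain ⟨g1, a1, b1⟩ := h1
  obtain ⟨g2, a2, b2⟩ := h2
  refine ⟨fun z => Sum.map g1 g2 (c z), ?_, ?_⟩
  · intro z hz
    rcases hcz : c z with s | s
    · have := hm1 z hz s hcz
      simp only [hcz, Sum.map_inl]
      exact this.2 _ (a1 s this.1)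
    · have := hm2 z hz s hcz
      simp only [hcz, Sum.map_inr]
      exact this.2 _ (a2 s this.1)
  · intro z hz z' hz' h
    apply hc hz hz'
    rcases hcz : c z with s | s <;> rcases hcz' : c z' with s' | s'
    · simp only [hcz, hcz', Sum.map_inl, Sum.inl.injEq] at h
      rw [b1 (hm1 z hz s hcz).1 (hm1 z' hz' s' hcz').1 h]
    · simp [hcz, hcz'] at h
    · simp [hcz, hcz'] at h
    · simp only [hcz, hcz', Sum.map_inr, Sum.inr.injEq] at h
      rw [b2 (hm2 z hz s hcz).1 (hm2 z' hz' s' hcz').1 h]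

private lemma A6_split1 {S S1 J1 J2 : Type} {R1 : S1 → J1 → Prop} {Z : Set S} {Z1 : Set S1}
    (g : S → J1 ⊕ J2) (hg : InjOn g Z) (e1 : S1 → S) (he1 : InjOn e1 Z1)
    (hz : ∀ s ∈ Z1, e1 s ∈ Z ∧ ∃ j, g (e1 s) = Sum.inl j ∧ R1 s j) (g0 : S1 → J1) :
    Mat R1 Z1 := by
  refine ⟨fun s => Sum.elim id (fun _ => g0 s) (g (e1 s)), ?_, ?_⟩
  · intro s hs
    obtain ⟨-, j, hj, hR⟩ := hz s hs
    simpa only [hj, Sum.elim_inl, id] using hR
  · intro s hs s' hs' h
    obtain ⟨h1, j, hj, -⟩ := hz s hs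
    obtain ⟨h1', j', hj', -⟩ := hz s' hs'
    simp only [hj, hj', Sum.elim_inl, id] at h
    subst h
    exact he1 hs hs' (hg h1 h1' (hj.trans hj'.symm))

private lemma A6_split2 {S S1 J1 J2 : Type} {R2 : S1 → J2 → Prop} {Z : Set S} {Z1 : Set S1}
    (g : S → J1 ⊕ J2) (hg : InjOn g Z) (e1 : S1 → S) (he1 : InjOn e1 Z1)
    (hz : ∀ s ∈ Z1, e1 s ∈ Z ∧ ∃ j, g (e1 s) = Sum.inr j ∧ R2 s j) (g0 : S1 → J2) :
    Mat R2 Z1 := by
  refine ⟨fun s => Sum.elim (fun _ => g0 s) id (g (e1 s)), ?_, ?_⟩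
  · intro s hs
    obtain ⟨-, j, hj, hR⟩ := hz s hs
    simpa only [hj, Sum.elim_inr, id] using hR
  · intro s hs s' hs' h
    obtain ⟨h1, j, hj, -⟩ := hz s hs
    obtain ⟨h1', j', hj', -⟩ := hz s' hs'
    simp only [hj, hj', Sum.elim_inr, id] at h
    subst h
    exact he1 hs hs' (hg h1 h1' (hj.trans hj'.symm))

private def A6_R {W1 W2 J1 J2 : Type} (X Y : Set α) (R1 : α ⊕ W1 → J1 → Prop)
    (R2 : α ⊕ W2 → J2 → Prop) : α ⊕ (W1 ⊕ W2) → J1 ⊕ J2 → Prop
  | Sum.inl e, Sum.inl j => e ∈ X ∧ R1 (Sum.inl e) j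
  | Sum.inl e, Sum.inr j => e ∈ Y ∧ R2 (Sum.inl e) j
  | Sum.inr (Sum.inl w), Sum.inl j => R1 (Sum.inr w) j
  | Sum.inr (Sum.inr w), Sum.inr j => R2 (Sum.inr w) j
  | _, _ => False

open Classical in
private lemma A6_c1 {W1 W2 : Type} (X : Set α) : Function.Injective
    (fun s : α ⊕ (W1 ⊕ W2) => (match s with
      | Sum.inl e => if e ∈ X then Sum.inl (Sum.inl e) else Sum.inr (Sum.inl e)
      | Sum.inr (Sum.inl w) => Sum.inl (Sum.inr w)
      | Sum.inr (Sum.inr w) => Sum.inr (Sum.inr w) : (α ⊕ W1) ⊕ (α ⊕ W2))) := by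
  rintro (e | w | w) (e' | w' | w') hh
  all_goals (simp only at hh; try split_ifs at hh)
  all_goals simp_all

open Classical in
private lemma A6_c2 {W1 W2 : Type} (X : Set α) (y : α) (hy : y ∉ X) : Function.Injective
    (fun s : α ⊕ ((W1 ⊕ W2) ⊕ Unit) => (match s with
        | Sum.inl e => if e ∈ X then Sum.inl (Sum.inl e) else Sum.inr (Sum.inl e)
        | Sum.inr (Sum.inl (Sum.inl w)) => Sum.inl (Sum.inr w)
        | Sum.inr (Sum.inl (Sum.inr w)) => Sum.inr (Sum.inr w)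
        | Sum.inr (Sum.inr _) => Sum.inl (Sum.inl y) : (α ⊕ W1) ⊕ (α ⊕ W2))) := by
  rintro (e | (w | w) | w) (e' | (w' | w') | w') hh
  all_goals (simp only at hh; try split_ifs at hh)
  all_goals simp_all

open Classical in
private lemma A6_c3 {W1 W2 : Type} (X : Set α) (x : α) (hx : x ∈ X) : Function.Injective
    (fun s : α ⊕ ((W1 ⊕ W2) ⊕ Unit) => (match s with
        | Sum.inl e => if e ∈ X then Sum.inl (Sum.inl e) else Sum.inr (Sum.inl e)
        | Sum.inr (Sum.inl (Sum.inl w)) => Sum.inl (Sum.inr w)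
        | Sum.inr (Sum.inl (Sum.inr w)) => Sum.inr (Sum.inr w)
        | Sum.inr (Sum.inr _) => Sum.inr (Sum.inl x) : (α ⊕ W1) ⊕ (α ⊕ W2))) := by
  rintro (e | (w | w) | w) (e' | (w' | w') | w') hh
  all_goals (simp only at hh; try split_ifs at hh)
  all_goals simp_all

private lemma A6_e1 {W W' : Type} (k : W → W') (hk : Function.Injective k) : Function.Injective
    (Sum.map (id : α → α) k) := Function.injective_id.sumMap hk

open Classical in
private lemma A6_e2 {W W1 : Type} (y : α) (k : W → W1) (hk : Function.Injective k) :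
    Function.Injective (fun s : α ⊕ W => (match s with
          | Sum.inl e => if e = y then Sum.inr (Sum.inr ()) else Sum.inl e
          | Sum.inr w => Sum.inr (Sum.inl (k w)) : α ⊕ (W1 ⊕ Unit))) := by
  rintro (e | w) (e' | w') hh
  all_goals (simp only at hh; try split_ifs at hh)
  all_goals simp_all
  exact hk hh

private lemma A6_decomp {X Y K : Set α} (hK : K ⊆ X ∪ Y) : K = (K ∩ X) ∪ (K ∩ Y) := by
  rw [← inter_union_distrib_left, inter_eq_left.2 hK]

open Classical in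
theorem gammoid_sum {X Y : Set α} (hE : M.E = X ∪ Y) (hd : Disjoint X Y)
    (h : ∀ I, I ⊆ X → ∀ J, J ⊆ Y → (M.Indep (I ∪ J) ↔ M.Indep I ∧ M.Indep J))
    (hX : Gammoid (M ↾ X)) (hY : Gammoid (M ↾ Y)) : Gammoid M := by
  rw [gammoid_iff_pres] at hX hY ⊢
  obtain ⟨hfX, W1, J1, R1, hW1, hJ1, hP1⟩ := hX
  obtain ⟨hfY, W2, J2, R2, hW2, hJ2, hP2⟩ := hY
  have hXf : X.Finite := hfX.ground_finite
  have hYf : Y.Finite := hfY.ground_finite
  refine ⟨⟨by rw [hE]; exact hXf.union hYf⟩, W1 ⊕ W2, J1 ⊕ J2, A6_R X Y R1 R2,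
    inferInstance, inferInstance, ?_⟩
  obtain ⟨g01, -, -⟩ := (hP1 ∅ (empty_subset _)).1 (M ↾ X).empty_indep
  obtain ⟨g02, -, -⟩ := (hP2 ∅ (empty_subset _)).1 (M ↾ Y).empty_indep
  intro K hK
  rw [hE] at hK
  have hdec := A6_decomp hK
  have h1 : M.Indep (K ∩ X) ↔ Mat R1 (Sum.inl '' (K ∩ X) ∪ range Sum.inr) := by
    rw [← hP1 (K ∩ X) inter_subset_right, restrict_indep_iff, and_iff_left inter_subset_right]
  have h2 : M.Indep (K ∩ Y) ↔ Mat R2 (Sum.inl '' (K ∩ Y) ∪ range Sum.inr) := by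
    rw [← hP2 (K ∩ Y) inter_subset_right, restrict_indep_iff, and_iff_left inter_subset_right]
  have h3 : M.Indep K ↔ M.Indep (K ∩ X) ∧ M.Indep (K ∩ Y) := by
    rw [← h _ inter_subset_right _ inter_subset_right, ← hdec]
  rw [h3, h1, h2]
  constructor
  · rintro ⟨m1, m2⟩
    refine A6_build (fun s => match s with
      | Sum.inl e => if e ∈ X then Sum.inl (Sum.inl e) else Sum.inr (Sum.inl e)
      | Sum.inr (Sum.inl w) => Sum.inl (Sum.inr w)
      | Sum.inr (Sum.inr w) => Sum.inr (Sum.inr w)) ?_ ?_ ?_ m1 m2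
    · exact (A6_c1 X).injOn
    · rintro (e | w | w) hz s hs
      · simp only at hs
        split_ifs at hs with he
        obtain rfl := (Sum.inl.inj hs).symm
        rcases hz with ⟨e', he', hee⟩ | ⟨w, hw⟩
        · obtain rfl := Sum.inl.inj hee
          exact ⟨Or.inl ⟨e', ⟨he', he⟩, rfl⟩, fun j hj => ⟨he, hj⟩⟩
        · exact absurd hw (by simp)
      · obtain rfl := (Sum.inl.inj hs).symm
        exact ⟨Or.inr ⟨w, rfl⟩, fun j hj => hj⟩
      · exact absurd hs (by simp)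
    · rintro (e | w | w) hz s hs
      · simp only at hs
        split_ifs at hs with he
        obtain rfl := (Sum.inr.inj hs).symm
        rcases hz with ⟨e', he', hee⟩ | ⟨w, hw⟩
        · obtain rfl := Sum.inl.inj hee
          have : e' ∈ Y := (hK he').resolve_left he
          exact ⟨Or.inl ⟨e', ⟨he', this⟩, rfl⟩, fun j hj => ⟨this, hj⟩⟩
        · exact absurd hw (by simp)
      · exact absurd hs (by simp)
      · obtain rfl := (Sum.inr.inj hs).symm
        exact ⟨Or.inr ⟨w, rfl⟩, fun j hj => hj⟩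
  · rintro ⟨g, hg, hgi⟩
    constructor
    · refine A6_split1 g hgi (Sum.map id Sum.inl) ?_ ?_ g01
      · exact (A6_e1 _ Sum.inl_injective).injOn
      · rintro _ (⟨e, ⟨heK, heX⟩, rfl⟩ | ⟨w, rfl⟩)
        · have hm : (Sum.inl e : α ⊕ (W1 ⊕ W2)) ∈ Sum.inl '' K ∪ range Sum.inr :=
            Or.inl ⟨e, heK, rfl⟩
          refine ⟨hm, ?_⟩
          have := hg _ hm
          simp only [Sum.map_inl, id]
          rcases hj : g (Sum.inl e) with j | j
          · rw [hj] at this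
            exact ⟨j, rfl, this.2⟩
          · rw [hj] at this
            exact absurd this.1 (fun hY => (disjoint_left.1 hd) heX hY)
        · have hm : (Sum.inr (Sum.inl w) : α ⊕ (W1 ⊕ W2)) ∈ Sum.inl '' K ∪ range Sum.inr :=
            Or.inr ⟨_, rfl⟩
          refine ⟨hm, ?_⟩
          have := hg _ hm
          simp only [Sum.map_inr]
          rcases hj : g (Sum.inr (Sum.inl w)) with j | j
          · rw [hj] at this
            exact ⟨j, rfl, this⟩
          · rw [hj] at this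
            exact absurd this (by simp [A6_R])
    · refine A6_split2 g hgi (Sum.map id Sum.inr) ?_ ?_ g02
      · exact (A6_e1 _ Sum.inr_injective).injOn
      · rintro _ (⟨e, ⟨heK, heY⟩, rfl⟩ | ⟨w, rfl⟩)
        · have hm : (Sum.inl e : α ⊕ (W1 ⊕ W2)) ∈ Sum.inl '' K ∪ range Sum.inr :=
            Or.inl ⟨e, heK, rfl⟩
          refine ⟨hm, ?_⟩
          have := hg _ hm
          simp only [Sum.map_inl, id]
          rcases hj : g (Sum.inl e) with j | j
          · rw [hj] at this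
            exact absurd this.1 (fun hX => (disjoint_left.1 hd) hX heY)
          · rw [hj] at this
            exact ⟨j, rfl, this.2⟩
        · have hm : (Sum.inr (Sum.inr w) : α ⊕ (W1 ⊕ W2)) ∈ Sum.inl '' K ∪ range Sum.inr :=
            Or.inr ⟨_, rfl⟩
          refine ⟨hm, ?_⟩
          have := hg _ hm
          simp only [Sum.map_inr]
          rcases hj : g (Sum.inr (Sum.inr w)) with j | j
          · rw [hj] at this
            exact absurd this (by simp [A6_R])
          · rw [hj] at this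
            exact ⟨j, rfl, this⟩

private def A6_R' {W1 W2 J1 J2 : Type} (X Y : Set α) (x y : α) (R1 : α ⊕ W1 → J1 → Prop)
    (R2 : α ⊕ W2 → J2 → Prop) : α ⊕ ((W1 ⊕ W2) ⊕ Unit) → J1 ⊕ J2 → Prop
  | Sum.inl e, Sum.inl j => e ∈ X ∧ R1 (Sum.inl e) j
  | Sum.inl e, Sum.inr j => e ∈ Y ∧ R2 (Sum.inl e) j
  | Sum.inr (Sum.inl (Sum.inl w)), Sum.inl j => R1 (Sum.inr w) j
  | Sum.inr (Sum.inl (Sum.inr w)), Sum.inr j => R2 (Sum.inr w) j
  | Sum.inr (Sum.inr _), Sum.inl j => R1 (Sum.inl y) j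
  | Sum.inr (Sum.inr _), Sum.inr j => R2 (Sum.inl x) j
  | _, _ => False

open Classical in
theorem gammoid_two_sum {X Y : Set α} {x y : α} (hE : M.E = X ∪ Y) (hd : Disjoint X Y)
    (hx : x ∈ X) (hy : y ∈ Y) (h1 : N1.E = insert y X) (h2 : N2.E = insert x Y)
    (h : ∀ I, I ⊆ X → ∀ J, J ⊆ Y → (M.Indep (I ∪ J) ↔
      (N1.Indep (insert y I) ∧ N2.Indep J) ∨ (N1.Indep I ∧ N2.Indep (insert x J))))
    (hG1 : Gammoid N1) (hG2 : Gammoid N2) : Gammoid M := by
  rw [gammoid_iff_pres] at hG1 hG2 ⊢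
  obtain ⟨hf1, W1, J1, R1, hW1, hJ1, hP1⟩ := hG1
  obtain ⟨hf2, W2, J2, R2, hW2, hJ2, hP2⟩ := hG2
  have hXf : X.Finite := hf1.ground_finite.subset (h1 ▸ subset_insert _ _)
  have hYf : Y.Finite := hf2.ground_finite.subset (h2 ▸ subset_insert _ _)
  refine ⟨⟨by rw [hE]; exact hXf.union hYf⟩, (W1 ⊕ W2) ⊕ Unit, J1 ⊕ J2, A6_R' X Y x y R1 R2,
    inferInstance, inferInstance, ?_⟩
  obtain ⟨g01, -, -⟩ := (hP1 ∅ (empty_subset _)).1 N1.empty_indep
  obtain ⟨g02, -, -⟩ := (hP2 ∅ (empty_subset _)).1 N2.empty_indep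
  have hxY : x ∉ Y := fun hh => disjoint_left.1 hd hx hh
  have hyX : y ∉ X := fun hh => disjoint_left.1 hd hh hy
  intro K hK
  rw [hE] at hK
  have hdec := A6_decomp hK
  have k1 : N1.Indep (K ∩ X) ↔ Mat R1 (Sum.inl '' (K ∩ X) ∪ range Sum.inr) :=
    hP1 (K ∩ X) (by rw [h1]; exact inter_subset_right.trans (subset_insert _ _))
  have k2 : N2.Indep (K ∩ Y) ↔ Mat R2 (Sum.inl '' (K ∩ Y) ∪ range Sum.inr) :=
    hP2 (K ∩ Y) (by rw [h2]; exact inter_subset_right.trans (subset_insert _ _))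
  have k1' : N1.Indep (insert y (K ∩ X)) ↔
      Mat R1 (Sum.inl '' (insert y (K ∩ X)) ∪ range Sum.inr) :=
    hP1 _ (by rw [h1]; exact insert_subset_insert inter_subset_right)
  have k2' : N2.Indep (insert x (K ∩ Y)) ↔
      Mat R2 (Sum.inl '' (insert x (K ∩ Y)) ∪ range Sum.inr) :=
    hP2 _ (by rw [h2]; exact insert_subset_insert inter_subset_right)
  have h3 := h (K ∩ X) inter_subset_right (K ∩ Y) inter_subset_right
  rw [← hdec] at h3
  rw [h3, k1, k2, k1', k2']
  constructor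
  · rintro (⟨m1, m2⟩ | ⟨m1, m2⟩)
    · refine A6_build (fun s => match s with
        | Sum.inl e => if e ∈ X then Sum.inl (Sum.inl e) else Sum.inr (Sum.inl e)
        | Sum.inr (Sum.inl (Sum.inl w)) => Sum.inl (Sum.inr w)
        | Sum.inr (Sum.inl (Sum.inr w)) => Sum.inr (Sum.inr w)
        | Sum.inr (Sum.inr _) => Sum.inl (Sum.inl y)) ?_ ?_ ?_ m1 m2
      · exact (A6_c2 X y hyX).injOn
      · rintro (e | (w | w) | w) hz s hs
        · simp only at hs
          split_ifs at hs with he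
          obtain rfl := (Sum.inl.inj hs).symm
          rcases hz with ⟨e', he', hee⟩ | ⟨w, hw⟩
          · obtain rfl := Sum.inl.inj hee
            exact ⟨Or.inl ⟨e', Or.inr ⟨he', he⟩, rfl⟩, fun j hj => ⟨he, hj⟩⟩
          · exact absurd hw (by simp)
        · obtain rfl := (Sum.inl.inj hs).symm
          exact ⟨Or.inr ⟨w, rfl⟩, fun j hj => hj⟩
        · exact absurd hs (by simp)
        · obtain rfl := (Sum.inl.inj hs).symm
          exact ⟨Or.inl ⟨y, Or.inl rfl, rfl⟩, fun j hj => hj⟩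
      · rintro (e | (w | w) | w) hz s hs
        · simp only at hs
          split_ifs at hs with he
          obtain rfl := (Sum.inr.inj hs).symm
          rcases hz with ⟨e', he', hee⟩ | ⟨w, hw⟩
          · obtain rfl := Sum.inl.inj hee
            have : e' ∈ Y := (hK he').resolve_left he
            exact ⟨Or.inl ⟨e', ⟨he', this⟩, rfl⟩, fun j hj => ⟨this, hj⟩⟩
          · exact absurd hw (by simp)
        · exact absurd hs (by simp)
        · obtain rfl := (Sum.inr.inj hs).symm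
          exact ⟨Or.inr ⟨w, rfl⟩, fun j hj => hj⟩
        · exact absurd hs (by simp)
    · refine A6_build (fun s => match s with
        | Sum.inl e => if e ∈ X then Sum.inl (Sum.inl e) else Sum.inr (Sum.inl e)
        | Sum.inr (Sum.inl (Sum.inl w)) => Sum.inl (Sum.inr w)
        | Sum.inr (Sum.inl (Sum.inr w)) => Sum.inr (Sum.inr w)
        | Sum.inr (Sum.inr _) => Sum.inr (Sum.inl x)) ?_ ?_ ?_ m1 m2
      · exact (A6_c3 X x hx).injOn
      · rintro (e | (w | w) | w) hz s hs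
        · simp only at hs
          split_ifs at hs with he
          obtain rfl := (Sum.inl.inj hs).symm
          rcases hz with ⟨e', he', hee⟩ | ⟨w, hw⟩
          · obtain rfl := Sum.inl.inj hee
            exact ⟨Or.inl ⟨e', ⟨he', he⟩, rfl⟩, fun j hj => ⟨he, hj⟩⟩
          · exact absurd hw (by simp)
        · obtain rfl := (Sum.inl.inj hs).symm
          exact ⟨Or.inr ⟨w, rfl⟩, fun j hj => hj⟩
        · exact absurd hs (by simp)
        · exact absurd hs (by simp)
      · rintro (e | (w | w) | w) hz s hs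
        · simp only at hs
          split_ifs at hs with he
          obtain rfl := (Sum.inr.inj hs).symm
          rcases hz with ⟨e', he', hee⟩ | ⟨w, hw⟩
          · obtain rfl := Sum.inl.inj hee
            have : e' ∈ Y := (hK he').resolve_left he
            exact ⟨Or.inl ⟨e', Or.inr ⟨he', this⟩, rfl⟩, fun j hj => ⟨this, hj⟩⟩
          · exact absurd hw (by simp)
        · exact absurd hs (by simp)
        · obtain rfl := (Sum.inr.inj hs).symm
          exact ⟨Or.inr ⟨w, rfl⟩, fun j hj => hj⟩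
        · obtain rfl := (Sum.inr.inj hs).symm
          exact ⟨Or.inl ⟨x, Or.inl rfl, rfl⟩, fun j hj => hj⟩
  · rintro ⟨g, hg, hgi⟩
    have hX' : ∀ e ∈ K, e ∈ X → ∃ j, g (Sum.inl e) = Sum.inl j ∧ R1 (Sum.inl e) j := by
      intro e heK heX
      have := hg (Sum.inl e) (Or.inl ⟨e, heK, rfl⟩)
      rcases hj : g (Sum.inl e) with j | j
      · rw [hj] at this
        exact ⟨j, rfl, this.2⟩
      · rw [hj] at this
        exact absurd this.1 (fun hY => (disjoint_left.1 hd) heX hY)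
    have hY' : ∀ e ∈ K, e ∈ Y → ∃ j, g (Sum.inl e) = Sum.inr j ∧ R2 (Sum.inl e) j := by
      intro e heK heY
      have := hg (Sum.inl e) (Or.inl ⟨e, heK, rfl⟩)
      rcases hj : g (Sum.inl e) with j | j
      · rw [hj] at this
        exact absurd this.1 (fun hX => (disjoint_left.1 hd) hX heY)
      · rw [hj] at this
        exact ⟨j, rfl, this.2⟩
    have hW1' : ∀ w : W1, ∃ j, g (Sum.inr (Sum.inl (Sum.inl w))) = Sum.inl j ∧
        R1 (Sum.inr w) j := by
      intro w
      have := hg (Sum.inr (Sum.inl (Sum.inl w))) (Or.inr ⟨_, rfl⟩)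
      rcases hj : g (Sum.inr (Sum.inl (Sum.inl w))) with j | j
      · rw [hj] at this
        exact ⟨j, rfl, this⟩
      · rw [hj] at this
        exact absurd this (by simp [A6_R'])
    have hW2' : ∀ w : W2, ∃ j, g (Sum.inr (Sum.inl (Sum.inr w))) = Sum.inr j ∧
        R2 (Sum.inr w) j := by
      intro w
      have := hg (Sum.inr (Sum.inl (Sum.inr w))) (Or.inr ⟨_, rfl⟩)
      rcases hj : g (Sum.inr (Sum.inl (Sum.inr w))) with j | j
      · rw [hj] at this
        exact absurd this (by simp [A6_R'])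
      · rw [hj] at this
        exact ⟨j, rfl, this⟩
    have hU := hg (Sum.inr (Sum.inr ())) (Or.inr ⟨_, rfl⟩)
    rcases hjU : g (Sum.inr (Sum.inr ())) with jU | jU
    · left
      rw [hjU] at hU
      constructor
      · refine A6_split1 g hgi (fun s => match s with
          | Sum.inl e => if e = y then Sum.inr (Sum.inr ()) else Sum.inl e
          | Sum.inr w => Sum.inr (Sum.inl (Sum.inl w))) ?_ ?_ g01
        · exact (A6_e2 y _ Sum.inl_injective).injOn
        · rintro _ (⟨e, (rfl | ⟨heK, heX⟩), rfl⟩ | ⟨w, rfl⟩)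
          · simp only [if_true]
            exact ⟨Or.inr ⟨_, rfl⟩, jU, hjU, hU⟩
          · have hey : e ≠ y := fun hh => hyX (hh ▸ heX)
            simp only [if_neg hey]
            exact ⟨Or.inl ⟨e, heK, rfl⟩, hX' e heK heX⟩
          · exact ⟨Or.inr ⟨_, rfl⟩, hW1' w⟩
      · refine A6_split2 g hgi (Sum.map id (fun w => Sum.inl (Sum.inr w))) ?_ ?_ g02
        · exact (A6_e1 _ (Sum.inl_injective.comp Sum.inr_injective)).injOn
        · rintro _ (⟨e, ⟨heK, heY⟩, rfl⟩ | ⟨w, rfl⟩)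
          · exact ⟨Or.inl ⟨e, heK, rfl⟩, hY' e heK heY⟩
          · exact ⟨Or.inr ⟨_, rfl⟩, hW2' w⟩
    · right
      rw [hjU] at hU
      constructor
      · refine A6_split1 g hgi (Sum.map id (fun w => Sum.inl (Sum.inl w))) ?_ ?_ g01
        · exact (A6_e1 _ (Sum.inl_injective.comp Sum.inl_injective)).injOn
        · rintro _ (⟨e, ⟨heK, heX⟩, rfl⟩ | ⟨w, rfl⟩)
          · exact ⟨Or.inl ⟨e, heK, rfl⟩, hX' e heK heX⟩
          · exact ⟨Or.inr ⟨_, rfl⟩, hW1' w⟩
      · refine A6_split2 g hgi (fun s => match s with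
          | Sum.inl e => if e = x then Sum.inr (Sum.inr ()) else Sum.inl e
          | Sum.inr w => Sum.inr (Sum.inl (Sum.inr w))) ?_ ?_ g02
        · exact (A6_e2 x _ Sum.inr_injective).injOn
        · rintro _ (⟨e, (rfl | ⟨heK, heY⟩), rfl⟩ | ⟨w, rfl⟩)
          · simp only [if_true]
            exact ⟨Or.inr ⟨_, rfl⟩, jU, hjU, hU⟩
          · have hey : e ≠ x := fun hh => hxY (hh ▸ heY)
            simp only [if_neg hey]
            exact ⟨Or.inl ⟨e, heK, rfl⟩, hY' e heK heY⟩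
          · exact ⟨Or.inr ⟨_, rfl⟩, hW2' w⟩

end QG
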