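import Pool.Agent.Lib.QG.A4
set_option autoImplicit false

/-! Row A7. Principal extensions of gammoids are gammoids.
gammoid_prin: let (W, J, R) be a presentation of M ＼ {e} (gammoid_iff_pres). New presentation:
W' := W ⊕ α', J' := J ⊕ α' where α' is X as a type (finite), and
R' (inl e) (inr x) := True (x ∈ X), R' (inl e) (inl j) := False;
for z ∈ X: R' (inl z) (inr z) only; for z outside X, z ≠ e: R' (inl z) (inl j) := R (inl z) j;
R' (inr (inl w)) (inl j) := R (inr w) j; R' (inr (inr x)) (inr x) and
R' (inr (inr x)) (inl j) := R (inl x) j (x ∈ X); others False.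
A matching of I ∪ W' (e not in I): the elements of I ∩ X take their copies, so the copies in W' of
elements of I ∩ X are matched into J by R, the others may be matched with themselves.
If e ∈ I it takes the copy of some x0 ∈ X \ I.
gammoid_free: M.Indep (insert e I) for I ⊆ M.E \ {e} iff I is independent and e not in the closure of I
iff I is independent and X is not contained in the closure of I (hcl, hfree) iff insert x I is
independent for some x ∈ X \ I. -/

namespace QG
open Set Matroid
variable {α : Type} {M : Matroid α}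

/-- the relation of the new presentation -/
private def A7_R {W J : Type} (e : α) (X : Set α) (R : α ⊕ W → J → Prop) :
    α ⊕ (W ⊕ X) → J ⊕ X → Prop
  | .inl z, .inr x => z = e ∨ z = (x : α)
  | .inl z, .inl j => z ≠ e ∧ z ∉ X ∧ R (.inl z) j
  | .inr (.inl w), .inl j => R (.inr w) j
  | .inr (.inl _), .inr _ => False
  | .inr (.inr x), .inr y => x = y
  | .inr (.inr x), .inl j => R (.inl (x : α)) j

private theorem A7_mem_inl {W : Type} {I : Set α} {z : α} :
    (Sum.inl z : α ⊕ W) ∈ Sum.inl '' I ∪ range Sum.inr ↔ z ∈ I := by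
  simp

private theorem A7_mem_inr {W : Type} {I : Set α} {w : W} :
    (Sum.inr w : α ⊕ W) ∈ Sum.inl '' I ∪ range Sum.inr := by
  simp

private theorem A7_to {W J : Type} {e : α} {X : Set α} {R : α ⊕ W → J → Prop} {I : Set α}
    (he : e ∉ I) (h : Mat R (Sum.inl '' I ∪ range Sum.inr)) :
    Mat (A7_R e X R) (Sum.inl '' I ∪ range Sum.inr) := by
  classical
  obtain ⟨g, hg, hgi⟩ := h
  refine ⟨fun s => match s with
    | .inl z => if hz : z ∈ X then .inr ⟨z, hz⟩ else .inl (g (.inl z))
    | .inr (.inl w) => .inl (g (.inr w))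
    | .inr (.inr x) => if (x : α) ∈ I then .inl (g (.inl x)) else .inr x, ?_, ?_⟩
  · rintro (z | w | x) hs
    · rw [A7_mem_inl] at hs
      have hze : z ≠ e := fun h => he (h ▸ hs)
      by_cases hz : z ∈ X
      · simp [hz, A7_R]
      · have h2 := hg _ (A7_mem_inl.2 hs)
        simp [hz, A7_R, hze, h2]
    · exact hg _ A7_mem_inr
    · by_cases hx : (x : α) ∈ I
      · simp only [hx, if_pos, A7_R]
        exact hg _ (A7_mem_inl.2 hx)
      · simp [hx, A7_R]
  · have hinj : ∀ s ∈ (Sum.inl '' I ∪ range Sum.inr : Set (α ⊕ W)),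
        ∀ t ∈ (Sum.inl '' I ∪ range Sum.inr : Set (α ⊕ W)), g s = g t → s = t :=
      fun s hs t ht h => hgi hs ht h
    rintro (z | w | x) hs (z' | w' | x') ht hst
    · rw [A7_mem_inl] at hs ht
      by_cases hz : z ∈ X <;> by_cases hz' : z' ∈ X
      · simpa [hz, hz'] using hst
      · simp [hz, hz'] at hst
      · simp [hz, hz'] at hst
      · simp only [hz, hz', dif_neg, not_false_eq_true, Sum.inl.injEq] at hst
        have := hinj _ (A7_mem_inl.2 hs) _ (A7_mem_inl.2 ht) hst
        simpa using this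
    · rw [A7_mem_inl] at hs
      by_cases hz : z ∈ X
      · simp [hz] at hst
      · simp only [hz, dif_neg, not_false_eq_true, Sum.inl.injEq] at hst
        have := hinj _ (A7_mem_inl.2 hs) _ A7_mem_inr hst
        simp at this
    · rw [A7_mem_inl] at hs
      by_cases hz : z ∈ X <;> by_cases hx : (x' : α) ∈ I
      · simp [hz, hx] at hst
      · simp only [hz, hx, dif_pos, if_neg, not_false_eq_true, Sum.inr.injEq] at hst
        exfalso; apply hx; rw [← hst]; exact hs
      · simp only [hz, hx, dif_neg, if_pos, not_false_eq_true, Sum.inl.injEq] at hst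
        have := hinj _ (A7_mem_inl.2 hs) _ (A7_mem_inl.2 hx) hst
        simp only [Sum.inl.injEq] at this
        exfalso; apply hz; rw [this]; exact x'.2
      · simp [hz, hx] at hst
    · rw [A7_mem_inl] at ht
      by_cases hz : z' ∈ X
      · simp [hz] at hst
      · simp only [hz, dif_neg, not_false_eq_true, Sum.inl.injEq] at hst
        have := hinj _ A7_mem_inr _ (A7_mem_inl.2 ht) hst
        simp at this
    · simp only [Sum.inl.injEq] at hst
      have := hinj _ A7_mem_inr _ A7_mem_inr hst
      simpa using this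
    · by_cases hx : (x' : α) ∈ I
      · simp only [hx, if_pos, Sum.inl.injEq] at hst
        have := hinj _ A7_mem_inr _ (A7_mem_inl.2 hx) hst
        simp at this
      · simp [hx] at hst
    · rw [A7_mem_inl] at ht
      by_cases hz : z' ∈ X <;> by_cases hx : (x : α) ∈ I
      · simp [hz, hx] at hst
      · simp only [hz, hx, dif_pos, if_neg, not_false_eq_true, Sum.inr.injEq] at hst
        exfalso; apply hx; rw [hst]; exact ht
      · simp only [hz, hx, dif_neg, if_pos, not_false_eq_true, Sum.inl.injEq] at hst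
        have := hinj _ (A7_mem_inl.2 hx) _ (A7_mem_inl.2 ht) hst
        simp only [Sum.inl.injEq] at this
        exfalso; apply hz; rw [← this]; exact x.2
      · simp [hz, hx] at hst
    · by_cases hx : (x : α) ∈ I
      · simp only [hx, if_pos, Sum.inl.injEq] at hst
        have := hinj _ (A7_mem_inl.2 hx) _ A7_mem_inr hst
        simp at this
      · simp [hx] at hst
    · by_cases hx : (x : α) ∈ I <;> by_cases hx' : (x' : α) ∈ I
      · simp only [hx, hx', if_pos, Sum.inl.injEq] at hst
        have := hinj _ (A7_mem_inl.2 hx) _ (A7_mem_inl.2 hx') hst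
        simp only [Sum.inl.injEq] at this
        rw [Subtype.ext this]
      · simp [hx, hx'] at hst
      · simp [hx, hx'] at hst
      · simp only [hx, hx', if_neg, not_false_eq_true, Sum.inr.injEq] at hst
        rw [hst]

/-- elements of X take their copies -/
private theorem A7_copy {W J : Type} {e : α} {X : Set α} {R : α ⊕ W → J → Prop} {z : α}
    (hz : z ∈ X) (hze : z ≠ e) {y : J ⊕ X} (h : A7_R e X R (.inl z) y) : y = .inr ⟨z, hz⟩ := by
  rcases y with j | x
  · exact absurd hz h.2.1
  · rcases h with h | h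
    · exact absurd h hze
    · rw [Sum.inr.injEq]; exact Subtype.ext h.symm

private theorem A7_from {W J : Type} [Nonempty J] {e : α} {X : Set α} {R : α ⊕ W → J → Prop}
    {I : Set α} (he : e ∉ I) (h : Mat (A7_R e X R) (Sum.inl '' I ∪ range Sum.inr)) :
    Mat R (Sum.inl '' I ∪ range Sum.inr) := by
  classical
  obtain ⟨g, hg, hgi⟩ := h
  let φ : α ⊕ W → α ⊕ (W ⊕ X) := fun s => match s with
    | .inl z => if hz : z ∈ X then .inr (.inr ⟨z, hz⟩) else .inl z
    | .inr w => .inr (.inl w)
  have hφ : Function.Injective φ := by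
    rintro (z | w) (z' | w') h
    · by_cases hz : z ∈ X <;> by_cases hz' : z' ∈ X
      · simpa [φ, hz, hz'] using h
      · simp [φ, hz, hz'] at h
      · simp [φ, hz, hz'] at h
      · simpa [φ, hz, hz'] using h
    · by_cases hz : z ∈ X
      · simp [φ, hz] at h
      · simp [φ, hz] at h
    · by_cases hz : z' ∈ X
      · simp [φ, hz] at h
      · simp [φ, hz] at h
    · simpa [φ] using h
  have hφm : ∀ s ∈ (Sum.inl '' I ∪ range Sum.inr : Set (α ⊕ W)),
      φ s ∈ (Sum.inl '' I ∪ range Sum.inr : Set (α ⊕ (W ⊕ X))) := by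
    rintro (z | w) hs
    · rw [A7_mem_inl] at hs
      by_cases hz : z ∈ X
      · simp [φ, hz]
      · simp [φ, hz, hs]
    · simp [φ]
  have key : ∀ s ∈ (Sum.inl '' I ∪ range Sum.inr : Set (α ⊕ W)),
      ∃ j, g (φ s) = .inl j ∧ R s j := by
    rintro (z | w) hs
    · rw [A7_mem_inl] at hs
      have hze : z ≠ e := fun h => he (h ▸ hs)
      by_cases hz : z ∈ X
      · have h1 := A7_copy hz hze (hg (.inl z) (A7_mem_inl.2 hs))
        have h2 : φ (.inl z) = .inr (.inr ⟨z, hz⟩) := by simp [φ, hz]
        rw [h2]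
        have h3 := hg (.inr (.inr ⟨z, hz⟩)) A7_mem_inr
        rcases h4 : g (.inr (.inr ⟨z, hz⟩)) with j | y
        · rw [h4] at h3
          exact ⟨j, rfl, h3⟩
        · rw [h4] at h3
          have h5 : (⟨z, hz⟩ : X) = y := h3
          rw [← h5, ← h1] at h4
          have h6 := hgi A7_mem_inr (A7_mem_inl.2 hs) h4
          simp at h6
      · have h2 : φ (.inl z) = .inl z := by simp [φ, hz]
        rw [h2]
        have h3 := hg (.inl z) (A7_mem_inl.2 hs)
        rcases h4 : g (.inl z) with j | y
        · rw [h4] at h3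
          exact ⟨j, rfl, h3.2.2⟩
        · rw [h4] at h3
          rcases h3 with h3 | h3
          · exact absurd h3 hze
          · exact absurd (h3 ▸ y.2) hz
    · have h3 := hg (.inr (.inl w)) A7_mem_inr
      have h2 : φ (.inr w) = .inr (.inl w) := rfl
      rw [h2]
      rcases h4 : g (.inr (.inl w)) with j | y
      · rw [h4] at h3
        exact ⟨j, rfl, h3⟩
      · rw [h4] at h3
        exact h3.elim
  choose! k hk using key
  refine ⟨k, fun s hs => (hk s hs).2, fun s hs t ht hst => ?_⟩
  apply hφ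
  apply hgi (hφm s hs) (hφm t ht)
  rw [(hk s hs).1, (hk t ht).1, hst]

theorem gammoid_prin {e : α} (he : e ∈ M.E) {X : Set α} (hX : X ⊆ M.E \ {e})
    (h : ∀ I, I ⊆ M.E \ {e} → (M.Indep (insert e I) ↔ ∃ x ∈ X, x ∉ I ∧ M.Indep (insert x I)))
    (hG : Gammoid (M ＼ {e})) : Gammoid M := by
  classical
  obtain ⟨hfin, W, J, R, _, _, hP⟩ := (gammoid_iff_pres _).1 hG
  have hEf : M.E.Finite := by
    have h1 : (M.E \ {e}).Finite := hfin.ground_finite
    exact (h1.insert e).subset (by intro x hx; by_cases h : x = e <;> simp [h, hx])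
  have hXf : Finite X := hEf.subset (hX.trans Set.sdiff_subset)
  have hind : ∀ I, I ⊆ M.E \ {e} → ((M ＼ {e}).Indep I ↔ M.Indep I) := by
    intro I hI
    rw [delete_indep_iff]
    exact ⟨fun h => h.1, fun h => ⟨h, (Set.disjoint_singleton_right.2 fun h => (hI h).2 rfl)⟩⟩
  obtain ⟨g0, -, -⟩ := (hP ∅ (empty_subset _)).1 (Matroid.empty_indep _)
  have hJ : Nonempty J := ⟨g0 (.inl e)⟩
  have hout : ∀ I, I ⊆ M.E \ {e} →
      (M.Indep I ↔ Mat (A7_R e X R) (Sum.inl '' I ∪ range Sum.inr)) := by
    intro I hI
    have heI : e ∉ I := fun h => (hI h).2 rfl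
    rw [← hind I hI, hP I hI]
    exact ⟨A7_to heI, A7_from heI⟩
  refine (gammoid_iff_pres M).2 ⟨⟨hEf⟩, W ⊕ X, J ⊕ X, A7_R e X R, inferInstance, inferInstance, ?_⟩
  intro I hI
  by_cases heI : e ∈ I
  swap
  · exact hout I (fun x hx => ⟨hI hx, fun h => heI (h ▸ hx)⟩)
  set I' := I \ {e} with hI'
  have hI's : I' ⊆ M.E \ {e} := fun x hx => ⟨hI hx.1, hx.2⟩
  have hII : insert e I' = I := by rw [hI']; exact Set.insert_sdiff_self_of_mem heI
  have heI' : e ∉ I' := fun h => h.2 rfl
  rw [← hII, h I' hI's]
  constructor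
  · rintro ⟨x, hx, hxI, hi⟩
    have hxe : x ≠ e := (hX hx).2
    obtain ⟨g, hg, hgi⟩ := (hout _ (Set.insert_subset (hX hx) hI's)).1 hi
    have hgx : g (.inl x) = .inr ⟨x, hx⟩ :=
      A7_copy hx hxe (hg _ (A7_mem_inl.2 (Set.mem_insert _ _)))
    have hne : ∀ s, s ∈ (Sum.inl '' (insert e I') ∪ range Sum.inr : Set (α ⊕ (W ⊕ X))) →
        s ≠ .inl e → s ∈ (Sum.inl '' (insert x I') ∪ range Sum.inr : Set (α ⊕ (W ⊕ X))) ∧
          s ≠ .inl x := by
      rintro (z | w) hs hne
      · rw [A7_mem_inl] at hs ⊢
        rcases hs with rfl | hs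
        · exact absurd rfl hne
        · refine ⟨Or.inr hs, fun h => hxI ?_⟩
          rw [← Sum.inl.inj h]; exact hs
      · exact ⟨A7_mem_inr, by simp⟩
    refine ⟨fun s => if s = .inl e then .inr ⟨x, hx⟩ else g s, ?_, ?_⟩
    · intro s hs
      by_cases h1 : s = .inl e
      · simp only [h1, if_true]; exact Or.inl rfl
      · simp only [h1, if_false]
        exact hg s (hne s hs h1).1
    · intro s hs t ht hst
      by_cases h1 : s = .inl e <;> by_cases h2 : t = .inl e
      · rw [h1, h2]
      · simp only [h1, h2, if_true, if_false] at hst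
        rw [← hgx] at hst
        have := hgi (A7_mem_inl.2 (Set.mem_insert _ _)) (hne t ht h2).1 hst
        exact absurd this.symm (hne t ht h2).2
      · simp only [h1, h2, if_true, if_false] at hst
        rw [← hgx] at hst
        have := hgi (hne s hs h1).1 (A7_mem_inl.2 (Set.mem_insert _ _)) hst
        exact absurd this (hne s hs h1).2
      · simp only [h1, h2, if_false] at hst
        exact hgi (hne s hs h1).1 (hne t ht h2).1 hst
  · rintro ⟨g, hg, hgi⟩
    have h1 := hg (.inl e) (A7_mem_inl.2 (Set.mem_insert _ _))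
    rcases h2 : g (.inl e) with j | x
    · rw [h2] at h1
      exact absurd rfl h1.1
    have hxe : (x : α) ≠ e := (hX x.2).2
    have hxI : (x : α) ∉ I' := by
      intro hx
      have h3 := A7_copy x.2 hxe (hg (.inl x) (A7_mem_inl.2 (Set.mem_insert_of_mem _ hx)))
      have h4 := hgi (A7_mem_inl.2 (Set.mem_insert_of_mem _ hx))
        (A7_mem_inl.2 (Set.mem_insert _ _)) (h3.trans h2.symm)
      exact hxe (Sum.inl.inj h4)
    refine ⟨x, x.2, hxI, (hout _ (Set.insert_subset (hX x.2) hI's)).2 ?_⟩
    have hne : ∀ s, s ∈ (Sum.inl '' (insert (x : α) I') ∪ range Sum.inr : Set (α ⊕ (W ⊕ X))) →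
        s ≠ .inl (x : α) → s ∈ (Sum.inl '' (insert e I') ∪ range Sum.inr : Set (α ⊕ (W ⊕ X))) ∧
          s ≠ .inl e := by
      rintro (z | w) hs hne
      · rw [A7_mem_inl] at hs ⊢
        rcases hs with rfl | hs
        · exact absurd rfl hne
        · refine ⟨Or.inr hs, fun h => heI' ?_⟩
          rw [← Sum.inl.inj h]; exact hs
      · exact ⟨A7_mem_inr, by simp⟩
    refine ⟨fun s => if s = .inl (x : α) then .inr x else g s, ?_, ?_⟩
    · intro s hs
      by_cases h1 : s = .inl (x : α)
      · simp only [h1, if_true]; exact Or.inr rfl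
      · simp only [h1, if_false]
        exact hg s (hne s hs h1).1
    · intro s hs t ht hst
      by_cases h1 : s = .inl (x : α) <;> by_cases h3 : t = .inl (x : α)
      · rw [h1, h3]
      · simp only [h1, h3, if_true, if_false] at hst
        rw [← h2] at hst
        have := hgi (A7_mem_inl.2 (Set.mem_insert _ _)) (hne t ht h3).1 hst
        exact absurd this.symm (hne t ht h3).2
      · simp only [h1, h3, if_true, if_false] at hst
        rw [← h2] at hst
        have := hgi (hne s hs h1).1 (A7_mem_inl.2 (Set.mem_insert _ _)) hst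
        exact absurd this (hne s hs h1).2
      · simp only [h1, h3, if_false] at hst
        exact hgi (hne s hs h1).1 (hne t ht h3).1 hst

theorem gammoid_free {e : α} (he : e ∈ M.E) {X : Set α} (hX : X ⊆ M.E \ {e})
    (hcl : e ∈ M.closure X) (hfree : ∀ I, I ⊆ M.E \ {e} → e ∈ M.closure I → X ⊆ M.closure I)
    (hG : Gammoid (M ＼ {e})) : Gammoid M := by
  refine gammoid_prin he hX ?_ hG
  intro I hI
  have heI : e ∉ I := fun h => (hI h).2 rfl
  constructor
  · intro h
    have hi : M.Indep I := h.subset (Set.subset_insert _ _)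
    have h1 := (hi.insert_indep_iff.1 h).resolve_right heI
    have h2 : ¬ X ⊆ M.closure I := fun hX' =>
      h1.2 (M.closure_subset_closure_of_subset_closure hX' hcl)
    rw [Set.not_subset] at h2
    obtain ⟨x, hx, hxc⟩ := h2
    refine ⟨x, hx, fun hxI => hxc (M.mem_closure_of_mem hxI hi.subset_ground), ?_⟩
    exact hi.insert_indep_iff.2 (Or.inl ⟨(hX hx).1, hxc⟩)
  · rintro ⟨x, hx, hxI, h⟩
    have hi : M.Indep I := h.subset (Set.subset_insert _ _)
    have h1 := (hi.insert_indep_iff.1 h).resolve_right hxI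
    exact hi.insert_indep_iff.2 (Or.inl ⟨he, fun hc => h1.2 (hfree I hI hc hx)⟩)

end QG
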