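import Pool.Agent.Lib.QG.A4
set_option autoImplicit false

/-! Row A8. Gammoids are strongly base orderable (two disjoint bases are enough for us).
trace: ρ is a bijection from B1 ⊔ W onto B2 ⊔ W. Reach x w: w is on the ρ-orbit of x ∈ B1 before the
orbit leaves W (inductive: ρ (inl x) = inr w; or Reach x w and ρ (inr w) = inr w'). D X := elements of W
reached from X. ρ maps X ⊔ D X injectively into B2 ⊔ D X and covers D X, so |image ∩ B2| = |X|; for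
X = {x} this defines π x; the images for general X are unions of those for singletons, so π is
injective, hence bijective (|B1| = |B2|).
sbo: gammoid_iff_presB gives perfect matchings g1 of B1 ∪ W and g2 of B2 ∪ W with J; let
ρ := g2⁻¹ ∘ g1 and apply trace; for X ⊆ B1 take g2 on π(X) ∪ D and g1 on (B1 \ X) ∪ (W \ D). -/

namespace QG
open Set Matroid

/-- `w` is on the orbit of `x` before the orbit leaves `W` -/
inductive A8_Reach {B1 B2 W : Type} (ρ : B1 ⊕ W ≃ B2 ⊕ W) (x : B1) : W → Prop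
  | base {w : W} (h : ρ (Sum.inl x) = Sum.inr w) : A8_Reach ρ x w
  | step {w w' : W} (h : A8_Reach ρ x w) (h' : ρ (Sum.inr w) = Sum.inr w') : A8_Reach ρ x w'

/-- the elements of `W` reached from `X` -/
def A8_D {B1 B2 W : Type} (ρ : B1 ⊕ W ≃ B2 ⊕ W) (X : Set B1) : Set W :=
  {w | ∃ x ∈ X, A8_Reach ρ x w}

/-- `b` is the point where the orbit of `x` leaves `W` -/
def A8_Out {B1 B2 W : Type} (ρ : B1 ⊕ W ≃ B2 ⊕ W) (x : B1) (b : B2) : Prop :=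
  ρ (Sum.inl x) = Sum.inl b ∨ ∃ w, A8_Reach ρ x w ∧ ρ (Sum.inr w) = Sum.inl b

/-- the points where the orbits of the elements of `X` leave `W` -/
def A8_Y {B1 B2 W : Type} (ρ : B1 ⊕ W ≃ B2 ⊕ W) (X : Set B1) : Set B2 :=
  {b | ∃ x ∈ X, A8_Out ρ x b}

theorem A8_image {B1 B2 W : Type} (ρ : B1 ⊕ W ≃ B2 ⊕ W) (X : Set B1) :
    ρ '' (Sum.inl '' X ∪ Sum.inr '' A8_D ρ X) = Sum.inl '' A8_Y ρ X ∪ Sum.inr '' A8_D ρ X := by
  apply Subset.antisymm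
  · rintro _ ⟨y, hy, rfl⟩
    rcases hy with ⟨x, hx, rfl⟩ | ⟨w, ⟨x, hx, hw⟩, rfl⟩
    · rcases hρ : ρ (Sum.inl x) with b | w
      · left
        exact ⟨b, ⟨x, hx, Or.inl hρ⟩, rfl⟩
      · right
        exact ⟨w, ⟨x, hx, A8_Reach.base hρ⟩, rfl⟩
    · rcases hρ : ρ (Sum.inr w) with b | w'
      · left
        exact ⟨b, ⟨x, hx, Or.inr ⟨w, hw, hρ⟩⟩, rfl⟩
      · right
        exact ⟨w', ⟨x, hx, A8_Reach.step hw hρ⟩, rfl⟩
  · rintro _ (⟨b, ⟨x, hx, h | ⟨w, hw, h⟩⟩, rfl⟩ | ⟨w, ⟨x, hx, hw⟩, rfl⟩)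
    · exact ⟨Sum.inl x, Or.inl ⟨x, hx, rfl⟩, h⟩
    · exact ⟨Sum.inr w, Or.inr ⟨w, ⟨x, hx, hw⟩, rfl⟩, h⟩
    · cases hw with
      | base h => exact ⟨Sum.inl x, Or.inl ⟨x, hx, rfl⟩, h⟩
      | step hw' h => exact ⟨Sum.inr _, Or.inr ⟨_, ⟨x, hx, hw'⟩, rfl⟩, h⟩

theorem A8_ncard_sum {A W : Type} [Finite A] [Finite W] (Y : Set A) (D : Set W) :
    (Sum.inl '' Y ∪ Sum.inr '' D : Set (A ⊕ W)).ncard = Y.ncard + D.ncard := by
  rw [ncard_union_eq _ (toFinite _) (toFinite _), ncard_image_of_injective _ Sum.inl_injective,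
    ncard_image_of_injective _ Sum.inr_injective]
  rw [disjoint_left]
  rintro _ ⟨a, _, rfl⟩ ⟨b, _, h⟩
  exact absurd h (by simp)

theorem A8_card {B1 B2 W : Type} [Finite B1] [Finite B2] [Finite W] (ρ : B1 ⊕ W ≃ B2 ⊕ W)
    (X : Set B1) : (A8_Y ρ X).ncard = X.ncard := by
  have h1 := congrArg ncard (A8_image ρ X)
  rw [ncard_image_of_injective _ ρ.injective, A8_ncard_sum, A8_ncard_sum] at h1
  omega

theorem trace {B1 B2 W : Type} [Finite B1] [Finite B2] [Finite W] (ρ : B1 ⊕ W ≃ B2 ⊕ W) :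
    ∃ π : B1 ≃ B2, ∀ X : Set B1, ∃ D : Set W,
      ρ '' (Sum.inl '' X ∪ Sum.inr '' D) = Sum.inl '' (π '' X) ∪ Sum.inr '' D := by
  have h1 : ∀ x, ∃ b, ∀ b', A8_Out ρ x b' ↔ b' = b := by
    intro x
    have h2 := A8_card ρ {x}
    rw [ncard_singleton, ncard_eq_one] at h2
    obtain ⟨b, hb⟩ := h2
    refine ⟨b, fun b' => ?_⟩
    have h3 : b' ∈ A8_Y ρ {x} ↔ A8_Out ρ x b' := by
      constructor
      · rintro ⟨y, hy, h4⟩
        rw [mem_singleton_iff] at hy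
        rw [← hy]
        exact h4
      · intro h4
        exact ⟨x, rfl, h4⟩
    rw [← h3, hb, mem_singleton_iff]
  choose f hf using h1
  have hY : ∀ X, A8_Y ρ X = f '' X := by
    intro X
    ext b
    constructor
    · rintro ⟨x, hx, h2⟩
      exact ⟨x, hx, ((hf x b).1 h2).symm⟩
    · rintro ⟨x, hx, rfl⟩
      exact ⟨x, hx, (hf x (f x)).2 rfl⟩
  have hinj : Function.Injective f := by
    intro x y hxy
    by_contra hne
    have h2 := A8_card ρ {x, y}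
    rw [hY, ncard_pair hne, image_pair, hxy, pair_eq_singleton, ncard_singleton] at h2
    omega
  have hcardB : Nat.card B1 = Nat.card B2 := by
    have h2 := Nat.card_congr ρ
    rw [Nat.card_sum, Nat.card_sum] at h2
    omega
  have hbij : Function.Bijective f := by
    refine ⟨hinj, ?_⟩
    rw [← range_eq_univ, ← image_univ]
    apply eq_of_subset_of_ncard_le (subset_univ _)
    rw [ncard_image_of_injective _ hinj, ncard_univ, ncard_univ, hcardB]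
  refine ⟨Equiv.ofBijective f hbij, fun X => ⟨A8_D ρ X, ?_⟩⟩
  rw [A8_image, hY]
  rfl

/-- a bijection with `J` given by a perfect matching -/
theorem A8_equiv {α W J : Type} {B : Set α} {g : α ⊕ W → J}
    (hg : BijOn g (Sum.inl '' B ∪ range Sum.inr) univ) :
    ∃ e : ↥B ⊕ W ≃ J, ∀ y, e y = g (Sum.map Subtype.val id y) := by
  have hm : ∀ y : ↥B ⊕ W, Sum.map Subtype.val id y ∈
      (Sum.inl '' B ∪ range Sum.inr : Set (α ⊕ W)) := by
    rintro (b | w)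
    · exact Or.inl ⟨b, b.2, rfl⟩
    · exact Or.inr ⟨w, rfl⟩
  have hb : Function.Bijective (fun y : ↥B ⊕ W => g (Sum.map Subtype.val id y)) := by
    constructor
    · intro y y' h
      have h1 := hg.injOn (hm y) (hm y') h
      exact (Sum.map_injective.2 ⟨Subtype.val_injective, Function.injective_id⟩) h1
    · intro j
      obtain ⟨s, hs, rfl⟩ := hg.surjOn (mem_univ j)
      rcases hs with ⟨b, hb, rfl⟩ | ⟨w, rfl⟩
      · exact ⟨Sum.inl ⟨b, hb⟩, rfl⟩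
      · exact ⟨Sum.inr w, rfl⟩
  exact ⟨Equiv.ofBijective _ hb, fun _ => rfl⟩

theorem Gammoid.sbo {α : Type} {M : Matroid α} (h : Gammoid M) {B1 B2 : Set α}
    (h1 : M.IsBase B1) (h2 : M.IsBase B2) (hd : Disjoint B1 B2) :
    ∃ π : α → α, BijOn π B1 B2 ∧ ∀ X, X ⊆ B1 → M.IsBase ((B1 \ X) ∪ π '' X) := by
  classical
  obtain ⟨hfin, W, J, R, hW, hJ, hP⟩ := (gammoid_iff_presB M).1 h
  have hB1f : Finite B1 := (M.ground_finite.subset h1.subset_ground).to_subtype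
  have hB2f : Finite B2 := (M.ground_finite.subset h2.subset_ground).to_subtype
  obtain ⟨g1, hg1, hb1⟩ := (hP B1 h1.subset_ground).1 h1
  obtain ⟨g2, hg2, hb2⟩ := (hP B2 h2.subset_ground).1 h2
  obtain ⟨e1, he1⟩ := A8_equiv hb1
  obtain ⟨e2, he2⟩ := A8_equiv hb2
  obtain ⟨π, hπ⟩ := trace (e1.trans e2.symm)
  obtain ⟨f, hf⟩ : ∃ f : α → α, ∀ (a : α) (ha : a ∈ B1), f a = π ⟨a, ha⟩ :=
    ⟨fun a => if ha : a ∈ B1 then (π ⟨a, ha⟩ : α) else a, fun a ha => dif_pos ha⟩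
  have hfB : ∀ a ∈ B1, f a ∈ B2 := by
    intro a ha
    rw [hf a ha]
    exact (π ⟨a, ha⟩).2
  refine ⟨f, ⟨hfB, ?_, ?_⟩, ?_⟩
  · intro a ha b hb hab
    rw [hf a ha, hf b hb] at hab
    exact congrArg Subtype.val (π.injective (Subtype.val_injective hab))
  · intro b hb
    obtain ⟨a, ha⟩ := π.surjective ⟨b, hb⟩
    refine ⟨a, a.2, ?_⟩
    rw [hf a a.2]
    exact congrArg Subtype.val ha
  intro X hX
  obtain ⟨D, hD⟩ := hπ {x | (x : α) ∈ X}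
  -- the set matched with `X ∪ D`
  have hK : g1 '' (Sum.inl '' X ∪ Sum.inr '' D) = g2 '' (Sum.inl '' (f '' X) ∪ Sum.inr '' D) := by
    have h3 := congrArg (fun Z => e2 '' Z) hD
    have h4 : e2 '' ((e1.trans e2.symm) '' (Sum.inl '' {x : B1 | (x : α) ∈ X} ∪ Sum.inr '' D)) =
        g1 '' (Sum.inl '' X ∪ Sum.inr '' D) := by
      ext j
      constructor
      · rintro ⟨_, ⟨y, hy, rfl⟩, rfl⟩
        refine ⟨Sum.map Subtype.val id y, ?_, ?_⟩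
        · rcases hy with ⟨x, hx, rfl⟩ | ⟨w, hw, rfl⟩
          · exact Or.inl ⟨x, hx, rfl⟩
          · exact Or.inr ⟨w, hw, rfl⟩
        · rw [Equiv.trans_apply, Equiv.apply_symm_apply, he1]
      · rintro ⟨s, hs, rfl⟩
        rcases hs with ⟨x, hx, rfl⟩ | ⟨w, hw, rfl⟩
        · refine ⟨_, ⟨Sum.inl ⟨x, hX hx⟩, Or.inl ⟨⟨x, hX hx⟩, hx, rfl⟩, rfl⟩, ?_⟩
          rw [Equiv.trans_apply, Equiv.apply_symm_apply, he1]
          rfl
        · refine ⟨_, ⟨Sum.inr w, Or.inr ⟨w, hw, rfl⟩, rfl⟩, ?_⟩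
          rw [Equiv.trans_apply, Equiv.apply_symm_apply, he1]
          rfl
    have h5 : e2 '' (Sum.inl '' (π '' {x : B1 | (x : α) ∈ X}) ∪ Sum.inr '' D) =
        g2 '' (Sum.inl '' (f '' X) ∪ Sum.inr '' D) := by
      ext j
      constructor
      · rintro ⟨y, hy, rfl⟩
        refine ⟨Sum.map Subtype.val id y, ?_, ?_⟩
        · rcases hy with ⟨_, ⟨x, hx, rfl⟩, rfl⟩ | ⟨w, hw, rfl⟩
          · exact Or.inl ⟨f x, ⟨x, hx, rfl⟩, by rw [hf x x.2]; rfl⟩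
          · exact Or.inr ⟨w, hw, rfl⟩
        · rw [he2]
      · rintro ⟨s, hs, rfl⟩
        rcases hs with ⟨_, ⟨x, hx, rfl⟩, rfl⟩ | ⟨w, hw, rfl⟩
        · refine ⟨Sum.inl (π ⟨x, hX hx⟩), Or.inl ⟨_, ⟨⟨x, hX hx⟩, hx, rfl⟩, rfl⟩, ?_⟩
          rw [he2, hf x (hX hx)]
          rfl
        · refine ⟨Sum.inr w, Or.inr ⟨w, hw, rfl⟩, ?_⟩
          rw [he2]
          rfl
    rw [← h4, ← h5]
    exact h3
  have hsub : (B1 \ X) ∪ f '' X ⊆ M.E := by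
    rintro a (ha | ⟨x, hx, rfl⟩)
    · exact h1.subset_ground ha.1
    · exact h2.subset_ground (hfB x (hX hx))
  rw [hP _ hsub]
  obtain ⟨g, hgdef⟩ : ∃ g : α ⊕ W → J, (∀ a ∈ B1, g (Sum.inl a) = g1 (Sum.inl a)) ∧
      (∀ a ∈ B2, g (Sum.inl a) = g2 (Sum.inl a)) ∧ (∀ w ∉ D, g (Sum.inr w) = g1 (Sum.inr w)) ∧
      ∀ w ∈ D, g (Sum.inr w) = g2 (Sum.inr w) := by
    refine ⟨fun s => Sum.elim (fun a => if a ∈ B1 then g1 (Sum.inl a) else g2 (Sum.inl a))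
      (fun w => if w ∈ D then g2 (Sum.inr w) else g1 (Sum.inr w)) s, ?_, ?_, ?_, ?_⟩
    · intro a ha
      exact if_pos ha
    · intro a ha
      exact if_neg fun ha' => disjoint_left.1 hd ha' ha
    · intro w hw
      exact if_neg hw
    · intro w hw
      exact if_pos hw
  obtain ⟨hga, hgb, hgc, hgd⟩ := hgdef
  -- the two kinds of elements
  have hcases : ∀ s ∈ (Sum.inl '' ((B1 \ X) ∪ f '' X) ∪ range Sum.inr : Set (α ⊕ W)),
      (s ∈ (Sum.inl '' B1 ∪ range Sum.inr : Set (α ⊕ W)) ∧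
        s ∉ (Sum.inl '' X ∪ Sum.inr '' D : Set (α ⊕ W)) ∧ g s = g1 s) ∨
      (s ∈ (Sum.inl '' (f '' X) ∪ Sum.inr '' D : Set (α ⊕ W)) ∧ g s = g2 s) := by
    rintro s (⟨a, ha | ha, rfl⟩ | ⟨w, rfl⟩)
    · left
      refine ⟨Or.inl ⟨a, ha.1, rfl⟩, ?_, hga a ha.1⟩
      rintro (⟨x, hx, h3⟩ | ⟨w, _, h3⟩)
      · rw [Sum.inl_injective h3] at hx
        exact ha.2 hx
      · exact absurd h3 (by simp)
    · right
      refine ⟨Or.inl ⟨a, ha, rfl⟩, ?_⟩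
      obtain ⟨x, hx, rfl⟩ := ha
      exact hgb _ (hfB x (hX hx))
    · by_cases hw : w ∈ D
      · right
        exact ⟨Or.inr ⟨w, hw, rfl⟩, hgd w hw⟩
      · left
        refine ⟨Or.inr ⟨w, rfl⟩, ?_, hgc w hw⟩
        rintro (⟨x, _, h3⟩ | ⟨w', hw', h3⟩)
        · exact absurd h3 (by simp)
        · rw [Sum.inr_injective h3] at hw'
          exact hw hw'
  have hXB : (Sum.inl '' X ∪ Sum.inr '' D : Set (α ⊕ W)) ⊆ Sum.inl '' B1 ∪ range Sum.inr := by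
    rintro s (⟨x, hx, rfl⟩ | ⟨w, _, rfl⟩)
    · exact Or.inl ⟨x, hX hx, rfl⟩
    · exact Or.inr ⟨w, rfl⟩
  have hfXB : (Sum.inl '' (f '' X) ∪ Sum.inr '' D : Set (α ⊕ W)) ⊆
      Sum.inl '' B2 ∪ range Sum.inr := by
    rintro s (⟨_, ⟨x, hx, rfl⟩, rfl⟩ | ⟨w, _, rfl⟩)
    · exact Or.inl ⟨_, hfB x (hX hx), rfl⟩
    · exact Or.inr ⟨w, rfl⟩
  have hmix : ∀ s s' : α ⊕ W, s ∈ (Sum.inl '' B1 ∪ range Sum.inr : Set (α ⊕ W)) →
      s ∉ (Sum.inl '' X ∪ Sum.inr '' D : Set (α ⊕ W)) →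
      s' ∈ (Sum.inl '' (f '' X) ∪ Sum.inr '' D : Set (α ⊕ W)) → g1 s ≠ g2 s' := by
    intro s s' hs hs1 hs' he
    have h3 : g2 s' ∈ g1 '' (Sum.inl '' X ∪ Sum.inr '' D) := by
      rw [hK]
      exact ⟨s', hs', rfl⟩
    obtain ⟨t, ht, h4⟩ := h3
    have h5 : t = s := hb1.injOn (hXB ht) hs (h4.trans he.symm)
    rw [h5] at ht
    exact hs1 ht
  refine ⟨g, ?_, fun _ _ => mem_univ _, ?_, ?_⟩
  · intro s hs
    rcases hcases s hs with ⟨h3, -, h4⟩ | ⟨h3, h4⟩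
    · rw [h4]
      exact hg1 s h3
    · rw [h4]
      exact hg2 s (hfXB h3)
  · intro s hs s' hs' he
    rcases hcases s hs with ⟨h3, h4, h5⟩ | ⟨h3, h5⟩
    · rcases hcases s' hs' with ⟨h6, h7, h8⟩ | ⟨h6, h8⟩
      · rw [h5, h8] at he
        exact hb1.injOn h3 h6 he
      · rw [h5, h8] at he
        exact absurd he (hmix s s' h3 h4 h6)
    · rcases hcases s' hs' with ⟨h6, h7, h8⟩ | ⟨h6, h8⟩
      · rw [h5, h8] at he
        exact absurd he.symm (hmix s' s h6 h7 h3)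
      · rw [h5, h8] at he
        exact hb2.injOn (hfXB h3) (hfXB h6) he
  · intro j _
    by_cases hj : j ∈ g1 '' (Sum.inl '' X ∪ Sum.inr '' D)
    · rw [hK] at hj
      obtain ⟨s, hs, rfl⟩ := hj
      rcases hs with ⟨_, ⟨x, hx, rfl⟩, rfl⟩ | ⟨w, hw, rfl⟩
      · exact ⟨Sum.inl (f x), Or.inl ⟨f x, Or.inr ⟨x, hx, rfl⟩, rfl⟩, hgb _ (hfB x (hX hx))⟩
      · exact ⟨Sum.inr w, Or.inr ⟨w, rfl⟩, hgd w hw⟩
    · obtain ⟨s, hs, rfl⟩ := hb1.surjOn (mem_univ j)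
      rcases hs with ⟨a, ha, rfl⟩ | ⟨w, rfl⟩
      · have haX : a ∉ X := fun hx => hj ⟨_, Or.inl ⟨a, hx, rfl⟩, rfl⟩
        exact ⟨Sum.inl a, Or.inl ⟨a, Or.inl ⟨ha, haX⟩, rfl⟩, hga a ha⟩
      · have hwD : w ∉ D := fun hw => hj ⟨_, Or.inr ⟨w, hw, rfl⟩, rfl⟩
        exact ⟨Sum.inr w, Or.inr ⟨w, rfl⟩, hgc w hwD⟩

end QG
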