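import Pool.Agent.Lib.QG.D0
set_option autoImplicit false

/-! Row Q2. Bad is closed under duality and isomorphism; Good is closed under duality and minors.
P6, P8, K4, X8 are self-dual: EL.dual, then EL.perm with a suitable permutation σ (find it by computer;
check the equality of the lists by decide), and n - r = r. U26 and U46 are dual (the image of the empty
list is empty). -/

namespace QG
open Set Matroid
variable {α β : Type} {M N : Matroid α}

private def Q2_P6 : Equiv.Perm (Fin 6) :=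
  ⟨![3, 4, 5, 0, 1, 2], ![3, 4, 5, 0, 1, 2], by decide, by decide⟩

private def Q2_P8 : Equiv.Perm (Fin 8) :=
  ⟨![0, 1, 2, 3, 7, 6, 5, 4], ![0, 1, 2, 3, 7, 6, 5, 4], by decide, by decide⟩

private def Q2_K4 : Equiv.Perm (Fin 6) :=
  ⟨![0, 1, 3, 2, 4, 5], ![0, 1, 3, 2, 4, 5], by decide, by decide⟩

private def Q2_X8 : Equiv.Perm (Fin 8) :=
  ⟨![4, 6, 2, 7, 0, 5, 1, 3], ![4, 6, 2, 7, 0, 5, 1, 3], by decide, by decide⟩

private theorem Q2_self {n r : ℕ} {L : Finset (Finset (Fin n))} (h : IsL n r L M)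
    (σ : Equiv.Perm (Fin n)) (hr : n - r = r)
    (hL : (L.image (fun B => Bᶜ)).image (fun B => B.map σ.symm.toEmbedding) = L) :
    IsL n r L M✶ := by
  obtain ⟨e, he⟩ := h
  have h1 : EL e r L M := he
  have h2 := h1.dual.perm σ
  rw [hr, hL] at h2
  exact ⟨_, h2⟩

private theorem Q2_U {n r s : ℕ} (h : IsL n r ∅ M) (hr : n - r = s) : IsL n s ∅ M✶ := by
  obtain ⟨e, he⟩ := h
  have h1 : EL e r ∅ M := he
  have h2 := h1.dual
  rw [hr, Finset.image_empty] at h2
  exact ⟨_, h2⟩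

theorem Bad.dual (h : Bad M) : Bad M✶ := by
  unfold Bad at h ⊢
  rw [dual_dual]
  rcases h with h | h | h | h | h | h | h | h | h | h | h | h
  · exact Or.inr (Or.inl (Q2_U h rfl))
  · exact Or.inl (Q2_U h rfl)
  · exact Or.inr (Or.inr (Or.inl (Q2_self h Q2_P6 rfl (by decide +kernel))))
  · exact Or.inr (Or.inr (Or.inr (Or.inl (Q2_self h Q2_P8 rfl (by decide +kernel)))))
  · exact Or.inr (Or.inr (Or.inr (Or.inr (Or.inl (Q2_self h Q2_K4 rfl (by decide +kernel))))))
  · exact Or.inr (Or.inr (Or.inr (Or.inr (Or.inr (Or.inr (Or.inl h))))))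
  · exact Or.inr (Or.inr (Or.inr (Or.inr (Or.inr (Or.inl h)))))
  · exact Or.inr (Or.inr (Or.inr (Or.inr (Or.inr (Or.inr (Or.inr (Or.inr (Or.inl h))))))))
  · exact Or.inr (Or.inr (Or.inr (Or.inr (Or.inr (Or.inr (Or.inr (Or.inl h)))))))
  · exact Or.inr (Or.inr (Or.inr (Or.inr (Or.inr (Or.inr (Or.inr (Or.inr (Or.inr (Or.inr
      (Or.inl h))))))))))
  · exact Or.inr (Or.inr (Or.inr (Or.inr (Or.inr (Or.inr (Or.inr (Or.inr (Or.inr
      (Or.inl h)))))))))
  · exact Or.inr (Or.inr (Or.inr (Or.inr (Or.inr (Or.inr (Or.inr (Or.inr (Or.inr (Or.inr (Or.inr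
      (Q2_self h Q2_X8 rfl (by decide +kernel))))))))))))

theorem Bad.iso {P : Matroid β} (h : Bad M) (e : MIso M P) : Bad P := by
  unfold Bad at h ⊢
  have e' := e.dual
  rcases h with h | h | h | h | h | h | h | h | h | h | h | h
  · exact Or.inl (h.iso e)
  · exact Or.inr (Or.inl (h.iso e))
  · exact Or.inr (Or.inr (Or.inl (h.iso e)))
  · exact Or.inr (Or.inr (Or.inr (Or.inl (h.iso e))))
  · exact Or.inr (Or.inr (Or.inr (Or.inr (Or.inl (h.iso e)))))
  · exact Or.inr (Or.inr (Or.inr (Or.inr (Or.inr (Or.inl (h.iso e))))))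
  · exact Or.inr (Or.inr (Or.inr (Or.inr (Or.inr (Or.inr (Or.inl (h.iso e')))))))
  · exact Or.inr (Or.inr (Or.inr (Or.inr (Or.inr (Or.inr (Or.inr (Or.inl (h.iso e))))))))
  · exact Or.inr (Or.inr (Or.inr (Or.inr (Or.inr (Or.inr (Or.inr (Or.inr (Or.inl (h.iso e')))))))))
  · exact Or.inr (Or.inr (Or.inr (Or.inr (Or.inr (Or.inr (Or.inr (Or.inr (Or.inr
      (Or.inl (h.iso e))))))))))
  · exact Or.inr (Or.inr (Or.inr (Or.inr (Or.inr (Or.inr (Or.inr (Or.inr (Or.inr (Or.inr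
      (Or.inl (h.iso e')))))))))))
  · exact Or.inr (Or.inr (Or.inr (Or.inr (Or.inr (Or.inr (Or.inr (Or.inr (Or.inr (Or.inr (Or.inr
      (h.iso e)))))))))))

theorem Good.minor (h : Good M) (hN : N ≤m M) : Good N :=
  fun _ hN' => h _ (hN'.trans hN)

theorem Good.dual (h : Good M) : Good M✶ := by
  rintro N ⟨C, D, rfl⟩ hB
  refine h _ ?_ hB.dual
  rw [dual_contract_delete, dual_dual]
  have h1 := contract_delete_isMinor M ∅ C
  have h2 := contract_delete_isMinor (M ＼ C) D ∅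
  rw [contract_empty] at h1
  rw [delete_empty] at h2
  exact h2.trans h1

end QG
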