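import Pool.Agent.Lib.QG.Q1
import Pool.Agent.Lib.QG.Q2
set_option autoImplicit false

/-! Further API for the classification. -/

namespace QG
open Set Matroid

theorem MIso.symm {α β : Type} {M : Matroid α} {N : Matroid β} (h : MIso M N) : MIso N M := by
  obtain ⟨e, he⟩ := h
  refine ⟨e.symm, fun I => ?_⟩
  rw [he (e.symm '' I)]
  simp [← image_comp]

theorem MIso.refl {α : Type} (M : Matroid α) : MIso M M := ⟨Equiv.refl _, fun I => by simp⟩

theorem MIso.trans {α β γ : Type} {M : Matroid α} {N : Matroid β} {P : Matroid γ}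
    (h : MIso M N) (h' : MIso N P) : MIso M P := by
  obtain ⟨e, he⟩ := h
  obtain ⟨f, hf⟩ := h'
  refine ⟨e.trans f, fun I => ?_⟩
  rw [he I, hf]
  simp [image_image]

theorem QGam.of_dual {α : Type} {M : Matroid α} (h : QGam M✶) : QGam M := by
  have := h.dual
  rwa [dual_dual] at this

theorem QGam.of_iso {α β : Type} {M : Matroid α} {N : Matroid β} (h : MIso M N) (hN : QGam N) :
    QGam M := hN.iso h.symm

theorem Api_closure {α : Type} {M : Matroid α} {F : Type} [Field F] {W : Type} [AddCommGroup W] [Module F W] {φ : α → W}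
    (hφ : ∀ I, I ⊆ M.E → (M.Indep I ↔ LinearIndepOn F φ I)) {X : Set α} (hX : X ⊆ M.E) {e : α}
    (he : e ∈ M.E) : e ∈ M.closure X ↔ φ e ∈ Submodule.span F (φ '' X) := by
  have key : ∀ B, M.Indep B → ∀ e ∈ M.E, e ∈ M.closure B ↔ φ e ∈ Submodule.span F (φ '' B) := by
    intro B hB e he
    have hB' := (hφ B hB.subset_ground).1 hB
    rw [hB.mem_closure_iff', hB'.mem_span_iff,
      hφ _ (Set.insert_subset he hB.subset_ground)]
    exact ⟨fun h => h.2, fun h => ⟨he, h⟩⟩
  obtain ⟨B, hB⟩ := M.exists_isBasis X hX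
  rw [← hB.closure_eq_closure, key B hB.indep e he]
  have h1 : Submodule.span F (φ '' X) = Submodule.span F (φ '' B) := by
    refine le_antisymm (Submodule.span_le.2 ?_) (Submodule.span_mono (Set.image_mono hB.subset))
    rintro _ ⟨x, hx, rfl⟩
    refine (key B hB.indep x (hX hx)).1 ?_
    rw [hB.closure_eq_closure]
    exact M.mem_closure_of_mem hx hX
  rw [h1]

/-- I is independent in the dual iff for all i in I there is a relation of f using i and otherwise
only elements outside I -/
theorem Api_coindep {α : Type} {M : Matroid α} [M.Finite] {F : Type} [Field F] [Fintype M.E]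
    {W : Type} [AddCommGroup W] [Module F W] (f : α → W)
    (hf : ∀ I, I ⊆ M.E → (M.Indep I ↔ LinearIndepOn F f I)) {I : Set α} (hI : I ⊆ M.E) :
    M✶.Indep I ↔ ∀ i : M.E, (i : α) ∈ I → ∃ c : M.E → F, ∑ e : M.E, c e • f e = 0 ∧ c i ≠ 0 ∧
      ∀ j : M.E, (j : α) ∈ I → j ≠ i → c j = 0 := by
  classical
  rw [← M.coindep_def, coindep_iff_closure_compl_eq_ground hI]
  have h1 : M.closure (M.E \ I) = M.E ↔
      ∀ i : M.E, (i : α) ∈ I → f i ∈ Submodule.span F (f '' (M.E \ I)) := by
    constructor
    · intro h i hi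
      rw [← Api_closure hf Set.sdiff_subset i.2, h]
      exact i.2
    · intro h
      refine (M.closure_subset_ground _).antisymm fun e he => ?_
      by_cases hei : e ∈ I
      · exact (Api_closure hf Set.sdiff_subset he).2 (h ⟨e, he⟩ hei)
      · exact M.mem_closure_of_mem ⟨he, hei⟩ Set.sdiff_subset
  rw [h1]
  refine forall_congr' fun i => forall_congr' fun hi => ?_
  constructor
  · intro h
    obtain ⟨l, hl, hl2⟩ := (Finsupp.mem_span_image_iff_linearCombination F).1 h
    have hlsupp : ∀ e ∈ l.support, e ∈ M.E \ I := fun e he =>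
      (Finsupp.mem_supported F l).1 hl he
    have hl0 : ∀ e ∈ I, l e = 0 := by
      intro e he
      by_contra hne
      exact (hlsupp e (Finsupp.mem_support_iff.2 hne)).2 he
    refine ⟨fun e => (if e = i then 1 else 0) - l e, ?_, ?_, ?_⟩
    · simp only [sub_smul, Finset.sum_sub_distrib]
      have e1 : ∑ e : M.E, (if e = i then (1 : F) else 0) • f e = f i := by
        rw [Finset.sum_eq_single i]
        · simp
        · intro b _ hb
          simp [hb]
        · simp
      have e2 : ∑ e : M.E, l e • f e = f i := by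
        rw [← hl2, Finsupp.linearCombination_apply, Finsupp.sum]
        symm
        have hsub : ∀ e ∈ l.support, e ∈ M.E := fun e he => (hlsupp e he).1
        rw [← Finset.sum_subtype_of_mem (p := fun e => e ∈ M.E) (fun e => l e • f e) hsub]
        refine Finset.sum_subset (Finset.subset_univ _) ?_
        intro x _ hx
        have : l x = 0 := by
          by_contra hne
          apply hx
          rw [Finset.mem_subtype]
          exact Finsupp.mem_support_iff.2 hne
        rw [this, zero_smul]
      rw [e1, e2, sub_self]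
    · simp [hl0 i hi]
    · intro j hj hji
      simp [hl0 j hj, hji]
  · rintro ⟨c, hc, hci, hc0⟩
    rw [Finset.sum_eq_add_sum_sdiff_singleton_of_mem (Finset.mem_univ i)] at hc
    have h6 : f i = (-(c i)⁻¹) • ∑ e ∈ Finset.univ \ {i}, c e • f e := by
      have h7 : ∑ e ∈ Finset.univ \ {i}, c e • f e = -(c i • f i) := by
        rw [eq_neg_iff_add_eq_zero, add_comm]; exact hc
      rw [h7, neg_smul, smul_neg, neg_neg, smul_smul, inv_mul_cancel₀ hci, one_smul]
    rw [h6]
    refine Submodule.smul_mem _ _ (Submodule.sum_mem _ fun e he => ?_)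
    by_cases heI : (e : α) ∈ I
    · rw [Finset.mem_sdiff, Finset.mem_singleton] at he
      rw [hc0 e heI he.2, zero_smul]
      exact Submodule.zero_mem _
    · exact Submodule.smul_mem _ _ (Submodule.subset_span ⟨e, ⟨e.2, heI⟩, rfl⟩)

/-- independence tested by functionals -/
theorem Api_indep_dual {α : Type} {F : Type} [Field F] {W : Type} [AddCommGroup W] [Module F W]
    (g : α → W) {I : Set α} (hfin : I.Finite) : LinearIndepOn F g I ↔
      ∀ i ∈ I, ∃ ψ : Module.Dual F W, ψ (g i) ≠ 0 ∧ ∀ j ∈ I, j ≠ i → ψ (g j) = 0 := by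
  classical
  constructor
  · intro h i hi
    have h2 : g i ∉ Submodule.span F (g '' (I \ {i})) := by
      have h3 := h
      rw [← Set.insert_sdiff_self_of_mem hi, linearIndepOn_insert (by simp)] at h3
      exact h3.2
    obtain ⟨ψ, hψ, hψ0⟩ := Submodule.exists_dual_map_eq_bot_of_notMem h2 inferInstance
    refine ⟨ψ, hψ, fun j hj hji => ?_⟩
    have h4 : ψ (g j) ∈ Submodule.map ψ (Submodule.span F (g '' (I \ {i}))) :=
      ⟨g j, Submodule.subset_span ⟨j, ⟨hj, hji⟩, rfl⟩, rfl⟩
    rw [hψ0] at h4
    exact (Submodule.mem_bot F).1 h4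
  · intro h
    rw [linearIndepOn_iff_notMem_span]
    intro i hi hmem
    obtain ⟨ψ, hψ, hψ0⟩ := h i hi
    apply hψ
    have : Submodule.span F (g '' (I \ {i})) ≤ LinearMap.ker ψ := by
      rw [Submodule.span_le]
      rintro _ ⟨j, hj, rfl⟩
      exact hψ0 j hj.1 hj.2
    exact this hmem

/-- Duality by orthogonality. -/
theorem dual_indep_of_orth {α : Type} {M : Matroid α} [M.Finite] {F : Type} [Field F]
    {W W2 : Type} [AddCommGroup W] [Module F W] [AddCommGroup W2] [Module F W2]
    (f : α → W) (g : α → W2) (hf : ∀ I, I ⊆ M.E → (M.Indep I ↔ LinearIndepOn F f I))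
    (horth : ∀ (φ : Module.Dual F W) (ψ : Module.Dual F W2),
      ∑ x ∈ M.ground_finite.toFinset, φ (f x) * ψ (g x) = 0)
    (hrank : Module.finrank F (Submodule.span F (f '' M.E)) +
      Module.finrank F (Submodule.span F (g '' M.E)) = M.E.ncard) :
    ∀ I, I ⊆ M.E → (M✶.Indep I ↔ LinearIndepOn F g I) := by
  classical
  intro I hI
  have hfin : Finite M.E := M.ground_finite
  let _ : Fintype M.E := Fintype.ofFinite _
  have hIfin : I.Finite := M.ground_finite.subset hI
  rw [Api_coindep f hf hI, Api_indep_dual g hIfin]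
  let Φ : (M.E → F) →ₗ[F] W := Fintype.linearCombination F (fun e : M.E => f e)
  have hΦ : ∀ c, Φ c = ∑ e : M.E, c e • f e := fun c => by
    simp [Φ, Fintype.linearCombination_apply]
  -- the row space of g
  let T : Module.Dual F W2 →ₗ[F] (M.E → F) :=
    { toFun := fun ψ e => ψ (g e)
      map_add' := fun _ _ => rfl
      map_smul' := fun _ _ => rfl }
  have hT : ∀ ψ e, T ψ e = ψ (g e) := fun _ _ => rfl
  have hTK : LinearMap.range T ≤ LinearMap.ker Φ := by
    rintro _ ⟨ψ, rfl⟩
    rw [LinearMap.mem_ker, hΦ, ← Module.forall_dual_apply_eq_zero_iff F]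
    intro φ
    rw [map_sum]
    have h1 := horth φ ψ
    rw [Finset.sum_subtype M.ground_finite.toFinset (p := fun x => x ∈ M.E)
      (fun x => by simp) (fun x => φ (f x) * ψ (g x))] at h1
    rw [← h1]
    refine Finset.sum_congr (by congr) fun e _ => ?_
    rw [map_smul, hT, smul_eq_mul, mul_comm]
  have hUfin : Module.Finite F (Submodule.span F (g '' M.E)) :=
    FiniteDimensional.span_of_finite F (M.ground_finite.image g)
  have hdimT : Module.finrank F (Submodule.span F (g '' M.E)) ≤
      Module.finrank F (LinearMap.range T) := by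
    -- inject the dual of the span into the range of T
    let U := Submodule.span F (g '' M.E)
    let S : Module.Dual F U →ₗ[F] (M.E → F) :=
      { toFun := fun ψ e => ψ ⟨g e, Submodule.subset_span ⟨e, e.2, rfl⟩⟩
        map_add' := fun _ _ => rfl
        map_smul' := fun _ _ => rfl }
    have hS : Function.Injective S := by
      rw [← LinearMap.ker_eq_bot, LinearMap.ker_eq_bot']
      intro ψ hψ
      ext ⟨u, hu⟩
      have h2 : ∀ u (hu : u ∈ U), ψ ⟨u, hu⟩ = 0 := by
        intro u hu
        refine Submodule.span_induction (p := fun u hu => ψ ⟨u, hu⟩ = 0) ?_ ?_ ?_ ?_ hu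
        · rintro _ ⟨e, he, rfl⟩
          exact congrFun hψ ⟨e, he⟩
        · exact map_zero ψ
        · intro x y hx hy h1 h2
          have : (⟨x + y, Submodule.add_mem _ hx hy⟩ : U) = ⟨x, hx⟩ + ⟨y, hy⟩ := rfl
          rw [this, map_add, h1, h2, add_zero]
        · intro a x hx h1
          have : (⟨a • x, Submodule.smul_mem _ a hx⟩ : U) = a • ⟨x, hx⟩ := rfl
          rw [this, map_smul, h1, smul_zero]
      exact h2 u hu
    have hST : LinearMap.range S ≤ LinearMap.range T := by
      rintro _ ⟨ψ, rfl⟩
      obtain ⟨ψ', hψ'⟩ := LinearMap.exists_extend ψ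
      refine ⟨ψ', ?_⟩
      funext e
      rw [hT]
      have := LinearMap.congr_fun hψ' ⟨g e, Submodule.subset_span ⟨e, e.2, rfl⟩⟩
      exact this
    calc Module.finrank F (Submodule.span F (g '' M.E))
        = Module.finrank F (Module.Dual F U) := (Subspace.dual_finrank_eq).symm
      _ = Module.finrank F (LinearMap.range S) := (LinearMap.finrank_range_of_inj hS).symm
      _ ≤ Module.finrank F (LinearMap.range T) := Submodule.finrank_mono hST
  have hdimK : Module.finrank F (LinearMap.ker Φ) + Module.finrank F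
      (Submodule.span F (f '' M.E)) = M.E.ncard := by
    have h1 := LinearMap.finrank_range_add_finrank_ker Φ
    have h2 : LinearMap.range Φ = Submodule.span F (f '' M.E) := by
      rw [Fintype.range_linearCombination]
      congr 1
      rw [image_eq_range]
    rw [h2, Module.finrank_fintype_fun_eq_card, ← Nat.card_eq_fintype_card,
      Nat.card_coe_set_eq] at h1
    omega
  have hEq : LinearMap.range T = LinearMap.ker Φ :=
    Submodule.eq_of_le_of_finrank_le hTK (by omega)
  constructor
  · intro h i hi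
    obtain ⟨c, hc, hci, hc0⟩ := h ⟨i, hI hi⟩ hi
    have hcK : c ∈ LinearMap.range T := by
      rw [hEq, LinearMap.mem_ker, hΦ]; exact hc
    obtain ⟨ψ, rfl⟩ := hcK
    refine ⟨ψ, hci, fun j hj hji => ?_⟩
    exact hc0 ⟨j, hI hj⟩ hj (fun h => hji (congrArg Subtype.val h))
  · intro h i hi
    obtain ⟨ψ, hψ, hψ0⟩ := h i hi
    refine ⟨T ψ, ?_, hψ, fun j hj hji => hψ0 j hj (fun h => hji (Subtype.ext h))⟩
    have : T ψ ∈ LinearMap.ker Φ := hTK ⟨ψ, rfl⟩
    rw [LinearMap.mem_ker, hΦ] at this
    exact this

end QG
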