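import Pool.Agent.Lib.QG.Defs
set_option autoImplicit false

/-! Row B1. Representations over a field: restriction, isomorphism, change of the field.
Rep.congr: a ring isomorphism F ≃+* F' turns an F-space into an F'-space (Module.compHom along the
inverse). Fields with four elements are isomorphic (FiniteField.ringEquivOfCardEq; Nat.card F = 4
gives Fintype). quaternary_iff: for every field F with four elements Quaternary M iff Rep F M. -/

namespace QG
open Set Matroid
variable {α β : Type} {M N : Matroid α} {F : Type} [Field F]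

theorem Rep.restrict (h : Rep F M) {X : Set α} (hX : X ⊆ M.E) : Rep F (M ↾ X) := by
  obtain ⟨W, _, _, φ, hφ⟩ := h
  refine ⟨W, inferInstance, inferInstance, φ, fun I hI => ?_⟩
  have hI' : I ⊆ X := hI
  rw [Matroid.restrict_indep_iff, ← hφ I (hI'.trans hX)]
  exact ⟨fun h => h.1, fun h => ⟨h, hI'⟩⟩

theorem Rep.delete (h : Rep F M) (D : Set α) : Rep F (M ＼ D) := by
  have h1 : M ＼ D = M ↾ (M.E \ D) := rfl
  rw [h1]
  exact h.restrict Set.sdiff_subset

theorem Rep.iso {P : Matroid β} (h : Rep F M) (e : MIso M P) : Rep F P := by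
  classical
  obtain ⟨W, _, _, φ, hφ⟩ := h
  obtain ⟨e, he⟩ := e
  refine ⟨W, inferInstance, inferInstance,
    fun b => if hb : b ∈ P.E then φ (e.symm ⟨b, hb⟩) else 0, fun I hI => ?_⟩
  set J : Set P.E := Subtype.val ⁻¹' I with hJ
  have hJI : Subtype.val '' J = I := by
    rw [hJ, Subtype.image_preimage_coe, inter_eq_right]; exact hI
  have h1 := he (e.symm '' J)
  rw [Equiv.image_symm_eq_preimage, Equiv.image_preimage, hJI] at h1
  rw [← h1, hφ _ (by rintro x ⟨y, _, rfl⟩; exact y.2)]
  set A : Set α := Subtype.val '' (e ⁻¹' J) with hA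
  have hmem : ∀ b : I, ((e.symm ⟨b.1, hI b.2⟩ : M.E) : α) ∈ A := fun b =>
    ⟨e.symm ⟨b.1, hI b.2⟩, by
      rw [mem_preimage, Equiv.apply_symm_apply]
      exact b.2, rfl⟩
  have hbij : Function.Bijective (fun b : I => (⟨_, hmem b⟩ : A)) := by
    constructor
    · intro b c hbc
      have h3 := Subtype.ext_iff.1 hbc
      have h4 := e.symm.injective (Subtype.ext h3)
      exact Subtype.ext (congrArg (fun z : P.E => (z : β)) h4)
    · rintro ⟨a, m, hm, rfl⟩
      refine ⟨⟨(e m : P.E).1, hm⟩, ?_⟩
      apply Subtype.ext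
      simp
  have h2 := linearIndependent_equiv (R := F) (Equiv.ofBijective _ hbij)
    (f := fun x : A => φ x)
  rw [LinearIndepOn, LinearIndepOn, ← h2]
  have h3 : ((fun x : A => φ x) ∘ (Equiv.ofBijective _ hbij)) =
      (fun x : I => if hb : (x : β) ∈ P.E then φ (e.symm ⟨x, hb⟩) else 0) := by
    funext x
    have hx : (x : β) ∈ P.E := hI x.2
    simp [hx]
  rw [h3]

theorem Rep.congr {F' : Type} [Field F'] (e : F ≃+* F') (h : Rep F M) : Rep F' M := by
  obtain ⟨W, _, mW, φ, hφ⟩ := h
  letI m' : Module F' W := Module.compHom W (e.symm : F' →+* F)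
  refine ⟨W, inferInstance, m', φ, fun I hI => ?_⟩
  rw [hφ I hI]
  have hs : ∀ (c : F') (w : W), c • w = (e.symm c) • w := fun c w => rfl
  rw [LinearIndepOn, LinearIndepOn]
  rw [linearIndependent_iff', linearIndependent_iff']
  constructor
  · intro h s g hg i hi
    have h5 := h s (fun i => e.symm (g i)) (by
      rw [← hg]
      exact Finset.sum_congr rfl fun j _ => (hs _ _).symm) i hi
    simpa using h5
  · intro h s g hg i hi
    have h5 := h s (fun i => e (g i)) (by
      rw [← hg]
      refine Finset.sum_congr rfl fun j _ => ?_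
      rw [hs, RingEquiv.symm_apply_apply]) i hi
    simpa using h5

theorem quaternary_iff (hF : Nat.card F = 4) : Quaternary M ↔ Rep F M := by
  constructor
  · rintro ⟨K, _, hK, h⟩
    have : Finite K := Nat.finite_of_card_ne_zero (by omega)
    have : Finite F := Nat.finite_of_card_ne_zero (by omega)
    let _ := Fintype.ofFinite K
    let _ := Fintype.ofFinite F
    have h1 : Fintype.card K = Fintype.card F := by
      rw [← Nat.card_eq_fintype_card, ← Nat.card_eq_fintype_card, hK, hF]
    exact h.congr (FiniteField.ringEquivOfCardEq h1)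
  · intro h
    exact ⟨F, inferInstance, hF, h⟩

end QG
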