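import Pool.Agent.Lib.QG.B1
set_option autoImplicit false

/-! Row B2. The dual of a representable matroid is representable.
Let E := M.E (finite type), φ : E → W. K := {c : E → F | Σ c e • φ e = 0} (submodule of E → F). Represent
M✶ in the dual space Module.Dual F K by ψ e := (c ↦ c e). For I ⊆ E: ψ is independent on I iff the
restriction K → (I → F) is surjective (a family of functionals is independent iff the map it defines
is onto) iff for all t : I → F, Σ t e • φ e lies in span φ(E \ I) iff φ(I) ⊆ span φ(E \ I) iff E \ I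
contains a base of M iff M✶.Indep I. -/

namespace QG
open Set Matroid
variable {α : Type} {M N : Matroid α} {F : Type} [Field F]

private theorem B2_closure {W : Type} [AddCommGroup W] [Module F W] {φ : α → W}
    (hφ : ∀ I, I ⊆ M.E → (M.Indep I ↔ LinearIndepOn F φ I)) {X : Set α} (hX : X ⊆ M.E) {e : α}
    (he : e ∈ M.E) : e ∈ M.closure X ↔ φ e ∈ Submodule.span F (φ '' X) := by
  have key : ∀ B, M.Indep B → ∀ e ∈ M.E, e ∈ M.closure B ↔ φ e ∈ Submodule.span F (φ '' B) := by
    intro B hB e he
    have hB' := (hφ B hB.subset_ground).1 hB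
    rw [hB.mem_closure_iff', hB'.mem_span_iff,
      hφ _ (Set.insert_subset he hB.subset_ground)]
    exact ⟨fun h => h.2, fun h => ⟨he, h⟩⟩
  obtain ⟨B, hB⟩ := M.exists_isBasis X hX
  rw [← hB.closure_eq_closure, key B hB.indep e he]
  have h1 : Submodule.span F (φ '' X) = Submodule.span F (φ '' B) := by
    refine le_antisymm (Submodule.span_le.2 ?_) (Submodule.span_mono (Set.image_mono hB.subset))
    rintro _ ⟨x, hx, rfl⟩
    refine (key B hB.indep x (hX hx)).1 ?_
    rw [hB.closure_eq_closure]
    exact M.mem_closure_of_mem hx hX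
  rw [h1]

theorem Rep.dual [M.Finite] (h : Rep F M) : Rep F M✶ := by
  classical
  obtain ⟨W, _, _, φ, hφ⟩ := h
  have hfin : Finite M.E := M.ground_finite
  let _ : Fintype M.E := Fintype.ofFinite _
  let Φ : (M.E → F) →ₗ[F] W := Fintype.linearCombination F (fun e : M.E => φ e)
  have hΦ : ∀ c, Φ c = ∑ e : M.E, c e • φ e := fun c => by
    simp [Φ, Fintype.linearCombination_apply]
  let K : Submodule F (M.E → F) := LinearMap.ker Φ
  let ψ : α → Module.Dual F K := fun a =>
    if ha : a ∈ M.E then (LinearMap.proj (⟨a, ha⟩ : M.E)).comp K.subtype else 0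
  have hψ : ∀ a (ha : a ∈ M.E) (c : K), ψ a c = c.1 ⟨a, ha⟩ := fun a ha c => by
    simp [ψ, ha]
  refine ⟨Module.Dual F K, inferInstance, inferInstance, ψ, fun I hI => ?_⟩
  have hI' : I ⊆ M.E := hI
  have hIf : I.Finite := M.ground_finite.subset hI'
  rw [← M.coindep_def, coindep_iff_closure_compl_eq_ground hI']
  have h1 : M.closure (M.E \ I) = M.E ↔
      ∀ i ∈ I, φ i ∈ Submodule.span F (φ '' (M.E \ I)) := by
    constructor
    · intro h i hi
      rw [← B2_closure hφ Set.sdiff_subset (hI' hi), h]
      exact hI' hi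
    · intro h
      refine (M.closure_subset_ground _).antisymm fun e he => ?_
      by_cases hei : e ∈ I
      · exact (B2_closure hφ Set.sdiff_subset he).2 (h e hei)
      · exact M.mem_closure_of_mem ⟨he, hei⟩ Set.sdiff_subset
  rw [h1]
  constructor
  · intro h
    rw [LinearIndepOn, linearIndependent_iff']
    intro s g hg i hi
    obtain ⟨l, hl, hl2⟩ := (Finsupp.mem_span_image_iff_linearCombination F).1 (h i i.2)
    -- the vector c
    let c : M.E → F := fun e => (if (e : α) = i then 1 else 0) - l e
    have hlsupp : ∀ e ∈ l.support, e ∈ M.E \ I := fun e he =>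
      (Finsupp.mem_supported F l).1 hl he
    have hl0 : ∀ e ∈ I, l e = 0 := by
      intro e he
      by_contra hne
      exact (hlsupp e (Finsupp.mem_support_iff.2 hne)).2 he
    have hc : c ∈ K := by
      rw [LinearMap.mem_ker, hΦ]
      simp only [c, sub_smul, Finset.sum_sub_distrib]
      have e1 : ∑ e : M.E, (if (e : α) = i then (1 : F) else 0) • φ e = φ i := by
        rw [Finset.sum_eq_single (⟨i, hI' i.2⟩ : M.E)]
        · simp
        · intro b _ hb
          have : (b : α) ≠ i := fun h => hb (Subtype.ext h)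
          simp [this]
        · simp
      have e2 : ∑ e : M.E, l e • φ e = φ i := by
        rw [← hl2, Finsupp.linearCombination_apply, Finsupp.sum]
        symm
        have hsub : ∀ e ∈ l.support, e ∈ M.E := fun e he => (hlsupp e he).1
        rw [← Finset.sum_subtype_of_mem (p := fun e => e ∈ M.E) (fun e => l e • φ e) hsub]
        refine Finset.sum_subset (Finset.subset_univ _) ?_
        intro x _ hx
        have : l x = 0 := by
          by_contra hne
          apply hx
          rw [Finset.mem_subtype]
          exact Finsupp.mem_support_iff.2 hne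
        rw [this, zero_smul]
      rw [e1, e2, sub_self]
    have h2 := congrArg (fun L : Module.Dual F K => L ⟨c, hc⟩) hg
    simp only [LinearMap.coe_sum, Finset.sum_apply, LinearMap.smul_apply, smul_eq_mul,
      LinearMap.zero_apply] at h2
    rw [Finset.sum_eq_single i] at h2
    · rw [hψ _ (hI' i.2)] at h2
      simpa [c, hl0 i i.2] using h2
    · intro b _ hb
      have hbi : (b : α) ≠ i := fun h => hb (Subtype.ext h)
      rw [hψ _ (hI' b.2)]
      simp [c, hl0 b b.2, hbi]
    · intro h; exact absurd hi h
  · intro h i hi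
    have hfinI : Finite (I \ {i} : Set α) := (hIf.subset Set.sdiff_subset)
    -- a vector of the kernel with c i ≠ 0 and c = 0 on I \ {i}
    have h2 : ψ i ∉ Submodule.span F (ψ '' (I \ {i})) := by
      have h3 := h
      rw [← Set.insert_sdiff_self_of_mem hi, linearIndepOn_insert (by simp)] at h3
      exact h3.2
    have h3 : ∃ c : K, (∀ j ∈ I \ {i}, ψ j c = 0) ∧ ψ i c ≠ 0 := by
      by_contra hno
      push Not at hno
      apply h2
      have h4 := mem_span_of_iInf_ker_le_ker (L := fun j : (I \ {i} : Set α) => ψ j) (K := ψ i) (by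
        intro c hc
        rw [Submodule.mem_iInf] at hc
        exact hno c (fun j hj => hc ⟨j, hj⟩))
      have h5 : Set.range (fun j : (I \ {i} : Set α) => ψ j) = ψ '' (I \ {i}) := by
        rw [← Set.image_univ]
        ext x
        simp
      rwa [h5] at h4
    obtain ⟨c, hc0, hci⟩ := h3
    have hc : ∑ e : M.E, c.1 e • φ e = 0 := by
      rw [← hΦ]; exact c.2
    rw [Finset.sum_eq_add_sum_sdiff_singleton_of_mem (Finset.mem_univ (⟨i, hI' hi⟩ : M.E))] at hc
    have h6 : φ i = (-(c.1 ⟨i, hI' hi⟩)⁻¹) •
        ∑ e ∈ Finset.univ \ {(⟨i, hI' hi⟩ : M.E)}, c.1 e • φ e := by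
      have h7 : ∑ e ∈ Finset.univ \ {(⟨i, hI' hi⟩ : M.E)}, c.1 e • φ e =
          -(c.1 ⟨i, hI' hi⟩ • φ i) := by
        rw [eq_neg_iff_add_eq_zero, add_comm]; exact hc
      rw [h7, neg_smul, smul_neg, neg_neg, smul_smul, inv_mul_cancel₀, one_smul]
      rw [← hψ i (hI' hi)]
      exact hci
    rw [h6]
    refine Submodule.smul_mem _ _ (Submodule.sum_mem _ fun e he => ?_)
    by_cases heI : (e : α) ∈ I
    · have hne : (e : α) ≠ i := by
        intro h
        rw [Finset.mem_sdiff, Finset.mem_singleton] at he
        exact he.2 (Subtype.ext h)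
      have h8 := hc0 e ⟨heI, hne⟩
      rw [hψ e e.2] at h8
      have h9 : c.1 e = 0 := h8
      rw [h9, zero_smul]
      exact Submodule.zero_mem _
    · exact Submodule.smul_mem _ _ (Submodule.subset_span ⟨e, ⟨e.2, heI⟩, rfl⟩)

theorem Rep.contract [M.Finite] (h : Rep F M) (C : Set α) : Rep F (M ／ C) := by
  rw [← dual_delete_dual]
  exact (h.dual.delete C).dual

theorem Rep.minor [M.Finite] (h : Rep F M) (hN : N ≤m M) : Rep F N := by
  obtain ⟨C, D, rfl⟩ := hN
  exact (h.contract C).delete D

end QG
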