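import Pool.Agent.Lib.QG.B1
set_option autoImplicit false

/-! Row B3. Direct sums and 2-sums of representable matroids.
sum: φ e := (φ1 e, 0) for e ∈ X, (0, φ2 e) for e ∈ Y, in W1 × W2.
two_sum: in the quotient of W1 × W2 by the line spanned by (φ1 y, φ2 x). I ∪ J is independent there iff
I, J are independent and (φ1 y, φ2 x) is not in span (I) × span (J) (it is nonzero by hne), i.e.
φ1 y not in span I, or φ2 x not in span J. -/

namespace QG
open Set Matroid
variable {α : Type} {M N1 N2 : Matroid α} {F : Type} [Field F]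

private theorem B3_inl {W1 W2 : Type} [AddCommGroup W1] [Module F W1] [AddCommGroup W2] [Module F W2]
    {φ1 : α → W1} {φ : α → W1 × W2} {I : Set α}
    (h1 : ∀ e ∈ I, φ e = (φ1 e, 0)) : LinearIndepOn F φ I ↔ LinearIndepOn F φ1 I := by
  have h : LinearIndepOn F (⇑(LinearMap.inl F W1 W2) ∘ φ1) I ↔ LinearIndepOn F φ1 I :=
    LinearMap.linearIndepOn_iff_of_injOn _ (LinearMap.inl_injective.injOn)
  rw [← h]
  constructor
  · intro g
    exact g.congr (fun e he => by simp [h1 e he])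
  · intro g
    exact g.congr (fun e he => by simp [h1 e he])

private theorem B3_inr {W1 W2 : Type} [AddCommGroup W1] [Module F W1] [AddCommGroup W2] [Module F W2]
    {φ2 : α → W2} {φ : α → W1 × W2} {J : Set α}
    (h1 : ∀ e ∈ J, φ e = (0, φ2 e)) : LinearIndepOn F φ J ↔ LinearIndepOn F φ2 J := by
  have h : LinearIndepOn F (⇑(LinearMap.inr F W1 W2) ∘ φ2) J ↔ LinearIndepOn F φ2 J :=
    LinearMap.linearIndepOn_iff_of_injOn _ (LinearMap.inr_injective.injOn)
  rw [← h]
  constructor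
  · intro g
    exact g.congr (fun e he => by simp [h1 e he])
  · intro g
    exact g.congr (fun e he => by simp [h1 e he])

private theorem B3_key {W1 W2 : Type} [AddCommGroup W1] [Module F W1] [AddCommGroup W2] [Module F W2]
    {φ1 : α → W1} {φ2 : α → W2} {φ : α → W1 × W2} {I J : Set α} (hd : Disjoint I J)
    (h1 : ∀ e ∈ I, φ e = (φ1 e, 0)) (h2 : ∀ e ∈ J, φ e = (0, φ2 e)) :
    LinearIndepOn F φ (I ∪ J) ↔ LinearIndepOn F φ1 I ∧ LinearIndepOn F φ2 J := by
  rw [linearIndepOn_union_iff hd, B3_inl h1, B3_inr h2]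
  constructor
  · rintro ⟨a, b, -⟩
    exact ⟨a, b⟩
  · rintro ⟨a, b⟩
    refine ⟨a, b, ?_⟩
    refine Disjoint.mono ?_ ?_ (LinearMap.isCompl_range_inl_inr (R := F) (M := W1) (M₂ := W2)).disjoint
    · rw [Submodule.span_le]
      rintro _ ⟨e, he, rfl⟩
      exact ⟨φ1 e, by simp [h1 e he]⟩
    · rw [Submodule.span_le]
      rintro _ ⟨e, he, rfl⟩
      exact ⟨φ2 e, by simp [h2 e he]⟩

private theorem B3_span {W1 W2 : Type} [AddCommGroup W1] [Module F W1] [AddCommGroup W2] [Module F W2]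
    {φ1 : α → W1} {φ2 : α → W2} {φ : α → W1 × W2} {I J : Set α}
    (h1 : ∀ e ∈ I, φ e = (φ1 e, 0)) (h2 : ∀ e ∈ J, φ e = (0, φ2 e)) (a : W1) (b : W2) :
    (a, b) ∈ Submodule.span F (φ '' (I ∪ J)) ↔
      a ∈ Submodule.span F (φ1 '' I) ∧ b ∈ Submodule.span F (φ2 '' J) := by
  constructor
  · intro h
    have hle : Submodule.span F (φ '' (I ∪ J)) ≤
        (Submodule.span F (φ1 '' I)).prod (Submodule.span F (φ2 '' J)) := by
      rw [Submodule.span_le]
      rintro _ ⟨e, he | he, rfl⟩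
      · rw [h1 e he]
        exact ⟨Submodule.subset_span ⟨e, he, rfl⟩, Submodule.zero_mem _⟩
      · rw [h2 e he]
        exact ⟨Submodule.zero_mem _, Submodule.subset_span ⟨e, he, rfl⟩⟩
    exact hle h
  · rintro ⟨ha, hb⟩
    have e1 : (Submodule.span F (φ1 '' I)) ≤
        (Submodule.span F (φ '' (I ∪ J))).comap (LinearMap.inl F W1 W2) := by
      rw [Submodule.span_le]
      rintro _ ⟨e, he, rfl⟩
      exact Submodule.subset_span ⟨e, Or.inl he, by simp [h1 e he]⟩
    have e2 : (Submodule.span F (φ2 '' J)) ≤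
        (Submodule.span F (φ '' (I ∪ J))).comap (LinearMap.inr F W1 W2) := by
      rw [Submodule.span_le]
      rintro _ ⟨e, he, rfl⟩
      exact Submodule.subset_span ⟨e, Or.inr he, by simp [h2 e he]⟩
    have q1 : ((a, 0) : W1 × W2) ∈ Submodule.span F (φ '' (I ∪ J)) := e1 ha
    have q2 : ((0, b) : W1 × W2) ∈ Submodule.span F (φ '' (I ∪ J)) := e2 hb
    have q3 := Submodule.add_mem _ q1 q2
    simpa using q3

private theorem B3_quot {W : Type} [AddCommGroup W] [Module F W] {φ : α → W} {K : Set α} {p : W}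
    (hp : p ≠ 0) :
    LinearIndepOn F (⇑(Submodule.mkQ (Submodule.span F {p})) ∘ φ) K ↔
      LinearIndepOn F φ K ∧ p ∉ Submodule.span F (φ '' K) := by
  constructor
  · intro h
    have hd : Disjoint (Submodule.span F (range fun x : K => φ x))
        (LinearMap.ker (Submodule.mkQ (Submodule.span F {p}))) :=
      Submodule.range_ker_disjoint (v := fun x : K => φ x) h
    rw [Submodule.ker_mkQ, Submodule.disjoint_span_singleton' hp] at hd
    refine ⟨LinearIndepOn.of_comp _ h, ?_⟩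
    rwa [image_eq_range]
  · rintro ⟨h1, h2⟩
    refine LinearIndependent.map (v := fun x : K => φ x) h1 ?_
    rw [Submodule.ker_mkQ, Submodule.disjoint_span_singleton' hp]
    rwa [image_eq_range] at h2

theorem rep_sum {X Y : Set α} (hE : M.E = X ∪ Y) (hd : Disjoint X Y)
    (h : ∀ I, I ⊆ X → ∀ J, J ⊆ Y → (M.Indep (I ∪ J) ↔ M.Indep I ∧ M.Indep J))
    (hX : Rep F (M ↾ X)) (hY : Rep F (M ↾ Y)) : Rep F M := by
  classical
  obtain ⟨W1, i1, i2, φ1, H1⟩ := hX
  obtain ⟨W2, i3, i4, φ2, H2⟩ := hY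
  let φ : α → W1 × W2 := fun e => if e ∈ X then (φ1 e, 0) else (0, φ2 e)
  have hφ1 : ∀ e ∈ X, φ e = (φ1 e, 0) := fun e he => if_pos he
  have hφ2 : ∀ e ∈ Y, φ e = (0, φ2 e) := fun e he =>
    if_neg (fun hx => Set.disjoint_left.mp hd hx he)
  refine ⟨W1 × W2, inferInstance, inferInstance, φ, ?_⟩
  intro K hK
  have hK' : K = (K ∩ X) ∪ (K ∩ Y) := by
    rw [← inter_union_distrib_left, ← hE]
    exact (inter_eq_left.mpr hK).symm
  have hdj : Disjoint (K ∩ X) (K ∩ Y) := hd.mono inter_subset_right inter_subset_right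
  have a1 : M.Indep (K ∩ X) ↔ LinearIndepOn F φ1 (K ∩ X) := by
    rw [← H1 (K ∩ X) inter_subset_right, Matroid.restrict_indep_iff]
    simp [inter_subset_right]
  have a2 : M.Indep (K ∩ Y) ↔ LinearIndepOn F φ2 (K ∩ Y) := by
    rw [← H2 (K ∩ Y) inter_subset_right, Matroid.restrict_indep_iff]
    simp [inter_subset_right]
  rw [hK', h _ inter_subset_right _ inter_subset_right, a1, a2,
    B3_key hdj (fun e he => hφ1 e he.2) (fun e he => hφ2 e he.2)]

theorem rep_two_sum {X Y : Set α} {x y : α} (hE : M.E = X ∪ Y) (hd : Disjoint X Y)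
    (hx : x ∈ X) (hy : y ∈ Y) (h1 : N1.E = insert y X) (h2 : N2.E = insert x Y)
    (hne1 : N1.Indep {y}) (hne2 : N2.Indep {x})
    (h : ∀ I, I ⊆ X → ∀ J, J ⊆ Y → (M.Indep (I ∪ J) ↔
      (N1.Indep (insert y I) ∧ N2.Indep J) ∨ (N1.Indep I ∧ N2.Indep (insert x J))))
    (hG1 : Rep F N1) (hG2 : Rep F N2) : Rep F M := by
  classical
  obtain ⟨W1, i1, i2, φ1, H1⟩ := hG1
  obtain ⟨W2, i3, i4, φ2, H2⟩ := hG2
  let φ : α → W1 × W2 := fun e => if e ∈ X then (φ1 e, 0) else (0, φ2 e)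
  have hφ1 : ∀ e ∈ X, φ e = (φ1 e, 0) := fun e he => if_pos he
  have hφ2 : ∀ e ∈ Y, φ e = (0, φ2 e) := fun e he =>
    if_neg (fun hx => Set.disjoint_left.mp hd hx he)
  have hyX : y ∉ X := fun h' => Set.disjoint_left.mp hd h' hy
  have hxY : x ∉ Y := fun h' => Set.disjoint_left.mp hd hx h'
  have hy0 : φ1 y ≠ 0 := by
    have := (H1 {y} (by rw [h1]; exact singleton_subset_iff.mpr (mem_insert _ _))).mp hne1
    exact this.ne_zero rfl
  have hp : ((φ1 y, φ2 x) : W1 × W2) ≠ 0 := fun h0 => hy0 (congrArg Prod.fst h0)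
  refine ⟨(W1 × W2) ⧸ (Submodule.span F {((φ1 y, φ2 x) : W1 × W2)}), inferInstance, inferInstance,
    ⇑(Submodule.mkQ (Submodule.span F {((φ1 y, φ2 x) : W1 × W2)})) ∘ φ, ?_⟩
  intro K hK
  have hK' : K = (K ∩ X) ∪ (K ∩ Y) := by
    rw [← inter_union_distrib_left, ← hE]
    exact (inter_eq_left.mpr hK).symm
  have hdj : Disjoint (K ∩ X) (K ∩ Y) := hd.mono inter_subset_right inter_subset_right
  have yI : y ∉ K ∩ X := fun h' => hyX h'.2
  have xJ : x ∉ K ∩ Y := fun h' => hxY h'.2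
  have s1 : K ∩ X ⊆ N1.E := by rw [h1]; exact inter_subset_right.trans (subset_insert _ _)
  have s2 : K ∩ Y ⊆ N2.E := by rw [h2]; exact inter_subset_right.trans (subset_insert _ _)
  have s3 : insert y (K ∩ X) ⊆ N1.E := by rw [h1]; exact insert_subset_insert inter_subset_right
  have s4 : insert x (K ∩ Y) ⊆ N2.E := by rw [h2]; exact insert_subset_insert inter_subset_right
  have hq := B3_quot (F := F) (φ := φ) (K := (K ∩ X) ∪ (K ∩ Y)) hp
  have hs := B3_span (F := F) (φ1 := φ1) (φ2 := φ2) (φ := φ) (fun e (he : e ∈ K ∩ X) => hφ1 e he.2)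
    (fun e (he : e ∈ K ∩ Y) => hφ2 e he.2) (φ1 y) (φ2 x)
  rw [B3_key hdj (fun e he => hφ1 e he.2) (fun e he => hφ2 e he.2), hs] at hq
  rw [hK', hq, h _ inter_subset_right _ inter_subset_right, H1 _ s3, H2 _ s2, H1 _ s1, H2 _ s4,
    linearIndepOn_insert yI, linearIndepOn_insert xJ]
  tauto

end QG
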