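import Pool.Agent.Lib.QG.K2b

/-!
MP_2e6874_co, part (B): one-element extensions of explicit point sets. Definitions of the checker.

`V` is a list of `c` vectors of length `r`. The flats of rank `r - 1` of the points (hyperplanes) are
given by masks (sets of points, numbers below `2 ^ c`) and functionals. A one-element extension by `v`
is described by the set of the hyperplanes whose closure contains `v`; partial information is given
by two masks `A1`, `A0` (sets of hyperplanes: `v` is in the closure, is not in the closure).
-/

set_option autoImplicit false

namespace QG
open Set Matroid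

/-- every good extension of the points `V` (by an element which is not a coloop) is given by a vector
in `P` -/
def LExt (r c : ℕ) (V : Fin c → Fin r → F4) (P : List (Fin r → F4)) : Prop :=
  ∀ (α : Type) (M : Matroid α) (v : α) (ι : Fin c → α), M.Finite → Good M →
    Function.Injective ι → v ∉ range ι → M.E = insert v (range ι) → v ∈ M.closure (range ι) →
    (∀ I : Set (Fin c), M.Indep (ι '' I) ↔ LinearIndepOn F4 V I) →
    ∃ p ∈ P, ∀ I : Set (Fin c), M.Indep (insert v (ι '' I)) ↔
      LinearIndepOn F4 V I ∧ p ∉ Submodule.span F4 (V '' I)

/-- trees -/
inductive Tr
  /-- branch: `v` is in the closure of hyperplane `h`, or not -/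
  | br (h : ℕ) (t1 t0 : Tr)
  /-- coline number `k` -/
  | col (k : ℕ) (t : Tr)
  /-- contradiction: a hyperplane is in both masks -/
  | cx
  /-- a minor with type `ty` (number of the matroid), contracted set `C`, elements `g` -/
  | bad (ty C : ℕ) (g : List ℕ)
  /-- the extension is given by vector number `j` -/
  | sol (j : ℕ)

structure Dat where
  /-- rank -/
  r : ℕ
  /-- points -/
  V : List (List F4)
  P : List (List F4)
  /-- functionals of the hyperplanes -/
  F : List (List F4)
  /-- masks of the hyperplanes, 16 bits each -/
  ht : ℕ
  /-- for a set of `r - 1` points with mask `m`: bits `7 m, ..., 7 m + 6` are the index of the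
  hyperplane which is spanned, or 127 if the set is dependent -/
  ct : ℕ
  /-- colines: `(m, x, L)`: `m` is the mask of `r - 1` independent points, the coline is spanned by
  `m` without `x`, `L` is the mask of the set of the hyperplanes which contain it -/
  cl : List (ℕ × ℕ × ℕ)
  /-- for the vectors of `P`: the mask of the set of hyperplanes which contain it -/
  sl : List ℕ
  t : Tr

/-- mask of hyperplane `h` -/
def Dat.hyp (D : Dat) (h : ℕ) : ℕ := (D.ht >>> (16 * h)) % 65536

/-- hyperplane spanned by the set of points with mask `m` -/
def Dat.code (D : Dat) (m : ℕ) : ℕ := (D.ct >>> (7 * m)) % 128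

/-- is the set with mask `Y` (size `r`, element `c` is `v`) a base? -/
def Dat.stat (D : Dat) (A1 A0 Y : ℕ) : Option Bool :=
  let x := Nat.log2 Y
  let h := D.code (Y - 2 ^ x)
  if h = 127 then some false
  else if x = D.V.length then
    (if A1.testBit h then some false else if A0.testBit h then some true else none)
  else some (!(D.hyp h).testBit x)

/-- the twelve matroids: number of elements -/
def TN : ℕ → ℕ
  | 0 => 6 | 1 => 6 | 2 => 6 | 3 => 8 | 4 => 6 | 5 => 7 | 6 => 7 | 7 => 8 | 8 => 8 | 9 => 8
  | 10 => 8 | _ => 8

/-- rank -/
def TR : ℕ → ℕ
  | 0 => 2 | 1 => 4 | 2 => 3 | 3 => 4 | 4 => 3 | 5 => 3 | 6 => 4 | 7 => 3 | 8 => 5 | 9 => 3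
  | 10 => 5 | _ => 4

/-- masks of the sets of `TR ty` elements which are not bases -/
def TLn : ℕ → List ℕ
  | 0 => []
  | 1 => []
  | 2 => [7]
  | 3 => [30, 45, 75, 113, 135, 178, 212, 232]
  | 4 => [7, 25, 42, 52]
  | 5 => [7, 41, 50, 76, 81]
  | 6 => [46, 51, 77, 86, 120]
  | 7 => [7, 11, 13, 14, 49, 98, 148, 200]
  | 8 => [55, 107, 157, 206, 241, 242, 244, 248]
  | 9 => [7, 25, 97, 138, 164, 208]
  | 10 => [47, 91, 117, 158, 230, 248]
  | _ => [39, 45, 53, 75, 86, 101, 139, 165, 184, 195, 197, 201, 202, 209, 225, 228]

/-- masks of the subsets of size `k` of `n` elements -/
def msk (n k : ℕ) : List ℕ := (List.range (2 ^ n)).filter (fun m => popc n m == k)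

/-- the sets of `TR ty` elements, and whether they are bases -/
def TL (ty : ℕ) : List (ℕ × Bool) :=
  (msk (TN ty) (TR ty)).map (fun m => (m, !(TLn ty).contains m))

/-- check of a leaf of type `bad` -/
def Dat.badc (D : Dat) (A1 A0 ty C : ℕ) (g : List ℕ) (T : List (ℕ × Bool)) : Bool :=
  g.length == TN ty && decide (C ||| pmask g (2 ^ TN ty - 1) < 2 ^ (D.V.length + 1)) &&
  popc (D.V.length + 1) C + TR ty == D.r &&
  popc (D.V.length + 1) (C ||| pmask g (2 ^ TN ty - 1)) == popc (D.V.length + 1) C + TN ty &&
  T.all (fun q => D.stat A1 A0 (C ||| pmask g q.1) == some q.2)

def Dat.ckT (D : Dat) (TT : ℕ → List (ℕ × Bool)) : Tr → ℕ → ℕ → Bool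
  | Tr.br h t1 t0, A1, A0 => decide (h < D.F.length) && D.ckT TT t1 (A1 ||| 2 ^ h) A0 &&
      D.ckT TT t0 A1 (A0 ||| 2 ^ h)
  | Tr.col k t, A1, A0 =>
      let L := (D.cl.getD k (0, 0, 0)).2.2
      let o := A1 &&& L
      if o = 0 then false
      else if o &&& (o - 1) ≠ 0 then D.ckT TT t (A1 ||| L) A0
      else if A0 &&& L ≠ 0 then D.ckT TT t A1 (A0 ||| (L ^^^ o))
      else false
  | Tr.cx, A1, A0 => A1 &&& A0 != 0
  | Tr.bad ty C g, A1, A0 => D.badc A1 A0 ty C g (TT ty)
  | Tr.sol j, A1, A0 => decide (j < D.sl.length) && (A1 ||| A0 == 2 ^ D.F.length - 1) &&
      A1 == D.sl.getD j 0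

/-- scalar product of two lists of length `r` -/
def dotL : ℕ → List F4 → List F4 → F4
  | 0, _, _ => F4.o
  | r + 1, x, y => F4.add (dotL r x y) (F4.mul (x.getD r F4.o) (y.getD r F4.o))

/-- the set with mask `m` is contained in two different hyperplanes -/
def Dat.two (D : Dat) (m : ℕ) : Bool :=
  (List.range D.F.length).any (fun h => (D.hyp h) &&& m == m &&
    (List.range D.F.length).any (fun h' => (D.hyp h') &&& m == m && D.hyp h != D.hyp h'))

/-- every element of `m` is separated from the other ones by a hyperplane -/
def Dat.sepd (D : Dat) (m : ℕ) : Bool :=
  (List.range D.V.length).all (fun x => !m.testBit x ||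
    (List.range D.F.length).any (fun h => (D.hyp h) &&& (m - 2 ^ x) == m - 2 ^ x &&
      !(D.hyp h).testBit x))

/-- check of the tables -/
def Dat.ckD (D : Dat) : Bool :=
  decide (1 ≤ D.r) && decide (D.V.length ≤ 16) && decide (D.F.length ≤ 126) &&
  (List.range D.F.length).all (fun h => (List.range D.V.length).all (fun i =>
    (D.hyp h).testBit i == (dotL D.r (D.F.getD h []) (D.V.getD i []) == F4.o))) &&
  (List.range D.F.length).all (fun h => D.hyp h < 2 ^ D.V.length - 1) &&
  (List.range D.F.length).all (fun h => (List.range D.F.length).all (fun h' =>
    h == h' || D.hyp h != D.hyp h')) &&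
  (msk D.V.length (D.r - 1)).all (fun m =>
    if D.code m = 127 then D.two m
    else decide (D.code m < D.F.length) && (D.hyp (D.code m)) &&& m == m && D.sepd m) &&
  D.cl.all (fun q => D.code q.1 != 127 && decide (q.1 < 2 ^ D.V.length) &&
    popc D.V.length q.1 == D.r - 1 && q.1.testBit q.2.1 &&
    decide (q.2.2 < 2 ^ D.F.length) &&
    (List.range D.F.length).all (fun h => !q.2.2.testBit h ||
      (D.hyp h) &&& (q.1 - 2 ^ q.2.1) == q.1 - 2 ^ q.2.1)) &&
  D.sl.length == D.P.length &&
  (List.range D.sl.length).all (fun j => decide (D.sl.getD j 0 < 2 ^ D.F.length) &&
    (List.range D.F.length).all (fun h => (D.sl.getD j 0).testBit h ==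
      (dotL D.r (D.F.getD h []) (D.P.getD j []) == F4.o)))

/-- the table of the twelve matroids, evaluated -/
def TTab : ℕ → List (ℕ × Bool)
  | 0 => [(3, true), (5, true), (6, true), (9, true), (10, true), (12, true), (17, true),
      (18, true), (20, true), (24, true), (33, true), (34, true), (36, true), (40, true),
      (48, true)]
  | 1 => [(15, true), (23, true), (27, true), (29, true), (30, true), (39, true), (43, true),
      (45, true), (46, true), (51, true), (53, true), (54, true), (57, true), (58, true),
      (60, true)]
  | 2 => [(7, false), (11, true), (13, true), (14, true), (19, true), (21, true), (22, true),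
      (25, true), (26, true), (28, true), (35, true), (37, true), (38, true), (41, true),
      (42, true), (44, true), (49, true), (50, true), (52, true), (56, true)]
  | 3 => [(15, true), (23, true), (27, true), (29, true), (30, false), (39, true), (43, true),
      (45, false), (46, true), (51, true), (53, true), (54, true), (57, true), (58, true),
      (60, true), (71, true), (75, false), (77, true), (78, true), (83, true), (85, true),
      (86, true), (89, true), (90, true), (92, true), (99, true), (101, true), (102, true),
      (105, true), (106, true), (108, true), (113, false), (114, true), (116, true), (120, true),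
      (135, false), (139, true), (141, true), (142, true), (147, true), (149, true), (150, true),
      (153, true), (154, true), (156, true), (163, true), (165, true), (166, true), (169, true),
      (170, true), (172, true), (177, true), (178, false), (180, true), (184, true), (195, true),
      (197, true), (198, true), (201, true), (202, true), (204, true), (209, true), (210, true),
      (212, false), (216, true), (225, true), (226, true), (228, true), (232, false), (240, true)]
  | 4 => [(7, false), (11, true), (13, true), (14, true), (19, true), (21, true), (22, true),
      (25, false), (26, true), (28, true), (35, true), (37, true), (38, true), (41, true),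
      (42, false), (44, true), (49, true), (50, true), (52, false), (56, true)]
  | 5 => [(7, false), (11, true), (13, true), (14, true), (19, true), (21, true), (22, true),
      (25, true), (26, true), (28, true), (35, true), (37, true), (38, true), (41, false),
      (42, true), (44, true), (49, true), (50, false), (52, true), (56, true), (67, true),
      (69, true), (70, true), (73, true), (74, true), (76, false), (81, false), (82, true),
      (84, true), (88, true), (97, true), (98, true), (100, true), (104, true), (112, true)]
  | 6 => [(15, true), (23, true), (27, true), (29, true), (30, true), (39, true), (43, true),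
      (45, true), (46, false), (51, false), (53, true), (54, true), (57, true), (58, true),
      (60, true), (71, true), (75, true), (77, false), (78, true), (83, true), (85, true),
      (86, false), (89, true), (90, true), (92, true), (99, true), (101, true), (102, true),
      (105, true), (106, true), (108, true), (113, true), (114, true), (116, true), (120, false)]
  | 7 => [(7, false), (11, false), (13, false), (14, false), (19, true), (21, true), (22, true),
      (25, true), (26, true), (28, true), (35, true), (37, true), (38, true), (41, true),
      (42, true), (44, true), (49, false), (50, true), (52, true), (56, true), (67, true),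
      (69, true), (70, true), (73, true), (74, true), (76, true), (81, true), (82, true),
      (84, true), (88, true), (97, true), (98, false), (100, true), (104, true), (112, true),
      (131, true), (133, true), (134, true), (137, true), (138, true), (140, true), (145, true),
      (146, true), (148, false), (152, true), (161, true), (162, true), (164, true), (168, true),
      (176, true), (193, true), (194, true), (196, true), (200, false), (208, true), (224, true)]
  | 8 => [(31, true), (47, true), (55, false), (59, true), (61, true), (62, true), (79, true),
      (87, true), (91, true), (93, true), (94, true), (103, true), (107, false), (109, true),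
      (110, true), (115, true), (117, true), (118, true), (121, true), (122, true), (124, true),
      (143, true), (151, true), (155, true), (157, false), (158, true), (167, true), (171, true),
      (173, true), (174, true), (179, true), (181, true), (182, true), (185, true), (186, true),
      (188, true), (199, true), (203, true), (205, true), (206, false), (211, true), (213, true),
      (214, true), (217, true), (218, true), (220, true), (227, true), (229, true), (230, true),
      (233, true), (234, true), (236, true), (241, false), (242, false), (244, false),
      (248, false)]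
  | 9 => [(7, false), (11, true), (13, true), (14, true), (19, true), (21, true), (22, true),
      (25, false), (26, true), (28, true), (35, true), (37, true), (38, true), (41, true),
      (42, true), (44, true), (49, true), (50, true), (52, true), (56, true), (67, true),
      (69, true), (70, true), (73, true), (74, true), (76, true), (81, true), (82, true),
      (84, true), (88, true), (97, false), (98, true), (100, true), (104, true), (112, true),
      (131, true), (133, true), (134, true), (137, true), (138, false), (140, true), (145, true),
      (146, true), (148, true), (152, true), (161, true), (162, true), (164, false), (168, true),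
      (176, true), (193, true), (194, true), (196, true), (200, true), (208, false), (224, true)]
  | 10 => [(31, true), (47, false), (55, true), (59, true), (61, true), (62, true), (79, true),
      (87, true), (91, false), (93, true), (94, true), (103, true), (107, true), (109, true),
      (110, true), (115, true), (117, false), (118, true), (121, true), (122, true), (124, true),
      (143, true), (151, true), (155, true), (157, true), (158, false), (167, true), (171, true),
      (173, true), (174, true), (179, true), (181, true), (182, true), (185, true), (186, true),
      (188, true), (199, true), (203, true), (205, true), (206, true), (211, true), (213, true),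
      (214, true), (217, true), (218, true), (220, true), (227, true), (229, true), (230, false),
      (233, true), (234, true), (236, true), (241, true), (242, true), (244, true), (248, false)]
  | _ => [(15, true), (23, true), (27, true), (29, true), (30, true), (39, false), (43, true),
      (45, false), (46, true), (51, true), (53, false), (54, true), (57, true), (58, true),
      (60, true), (71, true), (75, false), (77, true), (78, true), (83, true), (85, true),
      (86, false), (89, true), (90, true), (92, true), (99, true), (101, false), (102, true),
      (105, true), (106, true), (108, true), (113, true), (114, true), (116, true), (120, true),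
      (135, true), (139, false), (141, true), (142, true), (147, true), (149, true), (150, true),
      (153, true), (154, true), (156, true), (163, true), (165, false), (166, true), (169, true),
      (170, true), (172, true), (177, true), (178, true), (180, true), (184, false),
      (195, false), (197, false), (198, true), (201, false), (202, false), (204, true),
      (209, false), (210, true), (212, true), (216, true), (225, false), (226, true),
      (228, false), (232, true), (240, true)]

def Dat.ck (D : Dat) : Bool := D.ckD && D.ckT TTab D.t 0 0

/-- the vectors of a list -/
def vecP (r : ℕ) (P : List (List F4)) : List (Fin r → F4) := P.map (fun p s => p.getD s F4.o)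

/-- the labelled points of `M`: the elements `0, ..., c - 1` are the points of `V`, element `c` is `v` -/
structure LabM {α : Type} (D : Dat) (M : Matroid α) (v : α) (ι : Fin D.V.length → α) : Prop where
  fin : M.Finite
  good : Good M
  inj : Function.Injective ι
  nv : v ∉ range ι
  gr : M.E = insert v (range ι)
  cl : v ∈ M.closure (range ι)
  ind : ∀ I : Set (Fin D.V.length), M.Indep (ι '' I) ↔ LinearIndepOn F4 (vecL D.r D.V) I

/-- the partial information is correct -/
def Cons {α : Type} (D : Dat) (M : Matroid α) (v : α) (ι : Fin D.V.length → α) (A1 A0 : ℕ) : Prop :=
  (∀ h, A1.testBit h = true → h < D.F.length ∧ v ∈ M.closure (ι '' bits D.V.length (D.hyp h))) ∧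
  (∀ h, A0.testBit h = true → h < D.F.length ∧ v ∉ M.closure (ι '' bits D.V.length (D.hyp h)))

/-- the facts about the points which are checked by `ckD` -/
structure Tab (D : Dat) : Prop where
  r1 : 1 ≤ D.r
  nF : D.F.length ≤ 126
  /-- functional `h` -/
  fn : ∀ h < D.F.length, ∃ φ : (Fin D.r → F4) →ₗ[F4] F4,
    (∀ i : Fin D.V.length, φ (vecL D.r D.V i) = 0 ↔ i ∈ bits D.V.length (D.hyp h)) ∧
    (∃ i : Fin D.V.length, φ (vecL D.r D.V i) ≠ 0) ∧
    (∀ j < D.sl.length, (D.sl.getD j 0).testBit h = true ↔
      φ (fun s => (D.P.getD j []).getD s F4.o) = 0)
  hlt : ∀ h < D.F.length, D.hyp h < 2 ^ D.V.length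
  hinj : ∀ h < D.F.length, ∀ h' < D.F.length, D.hyp h = D.hyp h' → h = h'
  dep : ∀ m < 2 ^ D.V.length, popc D.V.length m = D.r - 1 → D.code m = 127 →
    ¬ LinearIndepOn F4 (vecL D.r D.V) (bits D.V.length m)
  ind : ∀ m < 2 ^ D.V.length, popc D.V.length m = D.r - 1 → D.code m ≠ 127 →
    D.code m < D.F.length ∧ bits D.V.length m ⊆ bits D.V.length (D.hyp (D.code m)) ∧
      LinearIndepOn F4 (vecL D.r D.V) (bits D.V.length m)
  cl : ∀ q ∈ D.cl, D.code q.1 ≠ 127 ∧ q.1 < 2 ^ D.V.length ∧ popc D.V.length q.1 = D.r - 1 ∧
    q.1.testBit q.2.1 = true ∧ ∀ h, q.2.2.testBit h = true → h < D.F.length ∧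
      bits D.V.length (q.1 - 2 ^ q.2.1) ⊆ bits D.V.length (D.hyp h)
  sl : D.sl.length = D.P.length
  slt : ∀ j < D.sl.length, D.sl.getD j 0 < 2 ^ D.F.length

end QG
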