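import Pool.Agent.Lib.QG.BC0

/-! MP_2e6874_co, part (B), row BC1: the tables are correct. -/

set_option autoImplicit false

namespace QG
open Set Matroid

private theorem bc1_sub_bit (x : ℕ) : ∀ (m j : ℕ), m.testBit x = true →
    (m - 2 ^ x).testBit j = (m.testBit j && decide (j ≠ x)) := by
  induction x with
  | zero =>
    intro m j h
    have h1 : m % 2 = 1 := by simpa using h
    cases j with
    | zero =>
      have h2 : (m - 1) % 2 = 0 := by omega
      simp [h2]
    | succ j =>
      rw [pow_zero, Nat.testBit_succ, Nat.testBit_succ, show (m - 1) / 2 = m / 2 by omega]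
      simp
  | succ x ih =>
    intro m j h
    have h1 : 2 ^ (x + 1) ≤ m := Nat.ge_two_pow_of_testBit h
    rw [Nat.testBit_succ] at h
    have h0 : 2 ^ (x + 1) = 2 * 2 ^ x := by ring
    cases j with
    | zero =>
      have h2 : (m - 2 ^ (x + 1)) % 2 = m % 2 := by omega
      simp [Nat.testBit_zero, h2]
    | succ j =>
      rw [Nat.testBit_succ, Nat.testBit_succ, show (m - 2 ^ (x + 1)) / 2 = m / 2 - 2 ^ x by omega,
        ih _ _ h]
      simp

private theorem bc1_ncard (n : ℕ) : ∀ m, (bits n m).ncard = popc n m := by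
  induction n with
  | zero =>
    intro m
    have : bits 0 m = ∅ := by
      ext i
      exact i.elim0
    rw [this, ncard_empty]
    rfl
  | succ n ih =>
    intro m
    have h1 : bits (n + 1) m = Fin.succ '' bits n (m / 2) ∪ {i | i = 0 ∧ m % 2 = 1} := by
      ext i
      refine Fin.cases ?_ (fun k => ?_) i
      · simp [bits]
      · simp [bits, Nat.testBit_succ]
    have h2 : Disjoint (Fin.succ '' bits n (m / 2)) {i : Fin (n + 1) | i = 0 ∧ m % 2 = 1} := by
      rw [Set.disjoint_left]
      rintro _ ⟨k, -, rfl⟩ h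
      exact Fin.succ_ne_zero k h.1
    rw [h1, ncard_union_eq h2 (Set.toFinite _) (Set.toFinite _),
      ncard_image_of_injective _ (Fin.succ_injective n), ih]
    rw [popc]
    by_cases h : m % 2 = 1
    · have : {i : Fin (n + 1) | i = 0 ∧ m % 2 = 1} = {0} := by
        ext i; simp [h]
      rw [this, ncard_singleton, h]
      omega
    · have : {i : Fin (n + 1) | i = 0 ∧ m % 2 = 1} = ∅ := by
        ext i; simp [h]
      rw [this, ncard_empty]
      omega

private theorem bc1_dotL (r : ℕ) (x y : List F4) :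
    dotL r x y = ∑ s : Fin r, x.getD s F4.o * y.getD s F4.o := by
  induction r with
  | zero => rfl
  | succ r ih =>
    rw [Fin.sum_univ_castSucc, dotL, ih]
    rfl

/-- the functional -/
private def bc1_phi (r : ℕ) (f : List F4) : (Fin r → F4) →ₗ[F4] F4 where
  toFun x := ∑ s : Fin r, f.getD s F4.o * x s
  map_add' x y := by
    rw [← Finset.sum_add_distrib]
    exact Finset.sum_congr rfl fun s _ => by rw [Pi.add_apply, mul_add]
  map_smul' c x := by
    rw [RingHom.id_apply, smul_eq_mul, Finset.mul_sum]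
    exact Finset.sum_congr rfl fun s _ => by rw [Pi.smul_apply, smul_eq_mul]; ring

private theorem bc1_phi_dotL (r : ℕ) (f y : List F4) :
    bc1_phi r f (fun s => y.getD s F4.o) = dotL r f y := by
  rw [bc1_dotL]
  rfl

private theorem bc1_and_sub {a b n : ℕ} (h : a &&& b = b) : bits n b ⊆ bits n a := by
  intro i hi
  have hi' : b.testBit i = true := hi
  have h1 := congrArg (fun m : ℕ => m.testBit i) h
  simp only [Nat.testBit_and, hi', Bool.and_true] at h1
  exact h1

private theorem bc1_ker {r : ℕ} (hr : 1 ≤ r) {n : ℕ} (u : Fin n → Fin r → F4) (φ : (Fin r → F4) →ₗ[F4] F4)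
    (hφ : ∃ i, φ (u i) ≠ 0) {X : Set (Fin n)} (hX : X.ncard = r - 1) (hi : LinearIndepOn F4 u X)
    (h0 : ∀ i ∈ X, φ (u i) = 0) : LinearMap.ker φ = Submodule.span F4 (u '' X) := by
  have h1 : Submodule.span F4 (u '' X) ≤ LinearMap.ker φ := by
    rw [Submodule.span_le]
    rintro _ ⟨i, hi, rfl⟩
    exact h0 i hi
  symm
  refine Submodule.eq_of_le_of_finrank_le h1 ?_
  have h2 : Module.finrank F4 (Submodule.span F4 (u '' X)) = r - 1 := by
    have : Fintype X := (Set.toFinite X).fintype
    have h3 := finrank_span_eq_card hi.linearIndependent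
    rw [← Nat.card_eq_fintype_card, Nat.card_coe_set_eq, hX] at h3
    rw [Set.image_eq_range]
    exact h3
  rw [h2]
  have h3 := LinearMap.finrank_range_add_finrank_ker φ
  rw [Module.finrank_fin_fun] at h3
  have h4 : 0 < Module.finrank F4 (LinearMap.range φ) := by
    rw [Module.finrank_pos_iff]
    obtain ⟨i, hi⟩ := hφ
    exact ⟨⟨0, ⟨φ (u i), ⟨u i, rfl⟩⟩, fun h => hi (congrArg Subtype.val h).symm⟩⟩
  omega

/-- BC1. `φ_h` is the functional `x ↦ Σ_s (F_h)_s x_s` (`dotL`), so the first check says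
`φ_h (V_i) = 0 ↔ i ∈ hyp h` (`vecL`, `getD`); `hyp h < 2^c - 1` gives a point outside. The third part of
`fn` is the last check. `dep`: `m` is contained in two hyperplanes with different masks; if the set were
independent (size `r - 1`), both functionals would have the same kernel (= span, dimension `r - 1`),
so the masks would be equal. `ind`: by `Api_indep_dual` (every element is separated from the others by
a functional). `msk n k`: all masks `< 2^n` with `popc = k`. -/
theorem BC1 (D : Dat) (h : D.ckD = true) : Tab D := by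
  rw [Dat.ckD] at h
  simp only [Bool.and_eq_true, List.all_eq_true, decide_eq_true_eq, List.mem_range, beq_iff_eq] at h
  obtain ⟨⟨⟨⟨⟨⟨⟨⟨⟨hr1, hV⟩, hnF⟩, hfn⟩, hlt⟩, hinj⟩, hmsk⟩, hcl⟩, hslen⟩, hsl⟩ := h
  have hP2 : (1 : ℕ) ≤ 2 ^ D.V.length := Nat.one_le_two_pow
  -- the functionals
  have hφ : ∀ h < D.F.length, ∀ i : Fin D.V.length,
      bc1_phi D.r (D.F.getD h []) (vecL D.r D.V i) = 0 ↔ i ∈ bits D.V.length (D.hyp h) := by
    intro h hh i
    have h1 := hfn h hh i i.2
    have h2 : vecL D.r D.V i = fun s : Fin D.r => (D.V.getD i []).getD s F4.o := by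
      funext s
      unfold vecL
      rw [List.getD_eq_getElem (hn := i.2)]
      rfl
    rw [h2, bc1_phi_dotL]
    show dotL D.r (D.F.getD h []) (D.V.getD i []) = F4.o ↔ (D.hyp h).testBit i = true
    rw [h1]
    simp
  have hout : ∀ h < D.F.length, ∃ i : Fin D.V.length,
      bc1_phi D.r (D.F.getD h []) (vecL D.r D.V i) ≠ 0 := by
    intro h hh
    by_contra hcon
    push Not at hcon
    have h1 := hlt h hh
    have h2 : D.hyp h = 2 ^ D.V.length - 1 := by
      refine Nat.eq_of_testBit_eq fun i => ?_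
      rw [Nat.testBit_two_pow_sub_one]
      by_cases hi : i < D.V.length
      · rw [decide_eq_true hi]
        exact (hφ h hh ⟨i, hi⟩).1 (hcon ⟨i, hi⟩)
      · rw [decide_eq_false hi]
        refine Nat.testBit_lt_two_pow (lt_of_lt_of_le (lt_of_lt_of_le h1 (Nat.sub_le _ _)) ?_)
        exact Nat.pow_le_pow_right (by norm_num) (not_lt.1 hi)
    omega
  have hmem : ∀ m < 2 ^ D.V.length, popc D.V.length m = D.r - 1 → m ∈ msk D.V.length (D.r - 1) := by
    intro m hm hp
    rw [msk, List.mem_filter, List.mem_range]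
    exact ⟨hm, by rw [hp]; simp⟩
  refine ⟨hr1, hnF, ?_, ?_, ?_, ?_, ?_, ?_, hslen, ?_⟩
  · intro h hh
    refine ⟨bc1_phi D.r (D.F.getD h []), hφ h hh, hout h hh, ?_⟩
    intro j hj
    rw [bc1_phi_dotL]
    have h1 := (hsl j hj).2 h hh
    rw [h1]
    show _ ↔ dotL D.r (D.F.getD h []) (D.P.getD j []) = F4.o
    simp
  · intro h hh
    have := hlt h hh
    omega
  · intro h hh h' hh' he
    have h1 := hinj h hh h' hh'
    simp only [Bool.or_eq_true, beq_iff_eq, bne_iff_ne, ne_eq] at h1
    rcases h1 with h1 | h1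
    · exact h1
    · exact absurd he h1
  · intro m hm hp hc hli
    have h1 := hmsk m (hmem m hm hp)
    rw [if_pos hc] at h1
    rw [Dat.two] at h1
    simp only [List.any_eq_true, List.mem_range, Bool.and_eq_true, beq_iff_eq, bne_iff_ne,
      ne_eq] at h1
    obtain ⟨a, ha, ham, b, hb, hbm, hab⟩ := h1
    have hX : (bits D.V.length m).ncard = D.r - 1 := by rw [bc1_ncard, hp]
    have e1 := bc1_ker hr1 (vecL D.r D.V) _ (hout a ha) hX hli fun i hi =>
      (hφ a ha i).2 (bc1_and_sub ham hi)
    have e2 := bc1_ker hr1 (vecL D.r D.V) _ (hout b hb) hX hli fun i hi =>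
      (hφ b hb i).2 (bc1_and_sub hbm hi)
    apply hab
    refine Nat.eq_of_testBit_eq fun i => ?_
    by_cases hi : i < D.V.length
    · have h3 : (⟨i, hi⟩ : Fin D.V.length) ∈ bits D.V.length (D.hyp a) ↔
          (⟨i, hi⟩ : Fin D.V.length) ∈ bits D.V.length (D.hyp b) := by
        rw [← hφ a ha, ← hφ b hb, ← LinearMap.mem_ker, ← LinearMap.mem_ker, e1, e2]
      exact Bool.eq_iff_iff.2 h3
    · have h4 : ∀ c < D.F.length, (D.hyp c).testBit i = false := fun c hc' => by
        refine Nat.testBit_lt_two_pow (lt_of_lt_of_le (lt_of_lt_of_le (hlt c hc') (Nat.sub_le _ _)) ?_)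
        exact Nat.pow_le_pow_right (by norm_num) (not_lt.1 hi)
      rw [h4 a ha, h4 b hb]
  · intro m hm hp hc
    have h1 := hmsk m (hmem m hm hp)
    rw [if_neg hc] at h1
    simp only [Bool.and_eq_true, decide_eq_true_eq, beq_iff_eq] at h1
    obtain ⟨⟨h2, h3⟩, h4⟩ := h1
    refine ⟨h2, bc1_and_sub h3, ?_⟩
    rw [Api_indep_dual _ (Set.toFinite _)]
    intro i hi
    rw [Dat.sepd] at h4
    simp only [List.all_eq_true, List.mem_range, Bool.or_eq_true, Bool.not_eq_true',
      List.any_eq_true, Bool.and_eq_true, beq_iff_eq] at h4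
    have hi' : m.testBit i = true := hi
    rcases h4 i i.2 with h5 | ⟨a, ha, ham, hai⟩
    · rw [hi'] at h5
      exact absurd h5 (by simp)
    · refine ⟨bc1_phi D.r (D.F.getD a []), ?_, ?_⟩
      · intro h0
        have h6 : (D.hyp a).testBit i = true := (hφ a ha i).1 h0
        rw [h6] at hai
        exact absurd hai (by simp)
      · intro j hj hji
        rw [hφ a ha]
        refine bc1_and_sub ham ?_
        show (m - 2 ^ (i : ℕ)).testBit j = true
        rw [bc1_sub_bit _ _ _ hi']
        have hj' : m.testBit j = true := hj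
        rw [hj', Bool.true_and, decide_eq_true_eq]
        exact fun h7 => hji (Fin.ext h7)
  · intro q hq
    have h1 := hcl q hq
    simp only [bne_iff_ne, ne_eq] at h1
    obtain ⟨⟨⟨⟨⟨h2, h3⟩, h4⟩, h5⟩, h6⟩, h7⟩ := h1
    refine ⟨h2, h3, h4, h5, fun a ha => ?_⟩
    have ha' : a < D.F.length := by
      by_contra hcon
      have h8 := Nat.testBit_lt_two_pow (lt_of_lt_of_le h6
        (Nat.pow_le_pow_right (by norm_num : 0 < 2) (not_lt.1 hcon)))
      rw [h8] at ha
      exact absurd ha (by simp)
    have h9 := h7 a ha'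
    simp only [Bool.or_eq_true, Bool.not_eq_true', ha, Bool.true_eq_false, false_or, beq_iff_eq] at h9
    exact ⟨ha', bc1_and_sub h9⟩
  · intro j hj
    exact (hsl j hj).1

end QG
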