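import Pool.Agent.Lib.QG.BC0

/-! MP_2e6874_co, part (B), row BC2: hyperplanes. -/

set_option autoImplicit false

namespace QG
open Set Matroid

variable {α : Type} {D : Dat} {M : Matroid α} {v : α} {ι : Fin D.V.length → α}

/-- BC2a. cardinality of the set with a mask -/
theorem bits_ncard {n m : ℕ} (hm : m < 2 ^ n) : (bits n m).ncard = popc n m := by
  induction n generalizing m with
  | zero =>
    have : bits 0 m = ∅ := Set.eq_empty_of_isEmpty _
    rw [this, ncard_empty]
    rfl
  | succ n ih =>
    have hm2 : m / 2 < 2 ^ n := by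
      rw [pow_succ] at hm
      omega
    rw [popc, ← ih hm2]
    have h1 : (Fin.succ '' bits n (m / 2)).ncard = (bits n (m / 2)).ncard :=
      ncard_image_of_injective _ (Fin.succ_injective n)
    have h0 : (0 : Fin (n + 1)) ∉ Fin.succ '' bits n (m / 2) := by
      rintro ⟨i, _, hi⟩
      exact Fin.succ_ne_zero i hi
    by_cases hodd : m % 2 = 1
    · have h2 : bits (n + 1) m = insert 0 (Fin.succ '' bits n (m / 2)) := by
        ext i
        refine Fin.cases ?_ (fun i => ?_) i
        · refine ⟨fun _ => mem_insert _ _, fun _ => ?_⟩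
          change m.testBit 0 = true
          rw [Nat.testBit_zero, decide_eq_true_eq]
          exact hodd
        · constructor
          · intro h
            have h' : m.testBit (i.succ : ℕ) = true := h
            rw [Fin.val_succ, Nat.testBit_succ] at h'
            exact Or.inr ⟨i, h', rfl⟩
          · rintro (h | ⟨j, hj, h⟩)
            · exact absurd h (Fin.succ_ne_zero i)
            · rw [← h]
              change m.testBit (j.succ : ℕ) = true
              rw [Fin.val_succ, Nat.testBit_succ]
              exact hj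
      rw [h2, ncard_insert_of_notMem h0, h1, hodd, add_comm]
    · have h2 : bits (n + 1) m = Fin.succ '' bits n (m / 2) := by
        ext i
        refine Fin.cases ?_ (fun i => ?_) i
        · refine ⟨fun h => ?_, fun h => absurd h h0⟩
          have h' : m.testBit 0 = true := h
          rw [Nat.testBit_zero, decide_eq_true_eq] at h'
          exact absurd h' hodd
        · constructor
          · intro h
            have h' : m.testBit (i.succ : ℕ) = true := h
            rw [Fin.val_succ, Nat.testBit_succ] at h'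
            exact ⟨i, h', rfl⟩
          · rintro ⟨j, hj, h⟩
            rw [← h]
            change m.testBit (j.succ : ℕ) = true
            rw [Fin.val_succ, Nat.testBit_succ]
            exact hj
      rw [h2, h1]
      omega

private theorem BC2_mem_E (hM : LabM D M v ι) (i : Fin D.V.length) : ι i ∈ M.E := by
  rw [hM.gr]
  exact mem_insert_of_mem _ ⟨i, rfl⟩

private theorem BC2_mem_cl (hM : LabM D M v ι) {I : Set (Fin D.V.length)}
    (hI : LinearIndepOn F4 (vecL D.r D.V) I) (i : Fin D.V.length) :
    ι i ∈ M.closure (ι '' I) ↔ vecL D.r D.V i ∈ Submodule.span F4 (vecL D.r D.V '' I) := by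
  have hI' : M.Indep (ι '' I) := (hM.ind I).2 hI
  by_cases hi : i ∈ I
  · exact ⟨fun _ => Submodule.subset_span ⟨i, hi, rfl⟩,
      fun _ => M.mem_closure_of_mem ⟨i, hi, rfl⟩ hI'.subset_ground⟩
  · rw [← not_iff_not, hI'.notMem_closure_iff (BC2_mem_E hM i), ← image_insert_eq, hM.ind,
      linearIndepOn_insert hi]
    have h1 : ι i ∉ ι '' I := by
      rintro ⟨j, hj, hij⟩
      exact hi (hM.inj hij ▸ hj)
    rw [and_iff_left h1, and_iff_right hI]

private theorem BC2_finrank {r : ℕ} {n : ℕ} {V : Fin n → Fin r → F4} {S : Set (Fin n)}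
    (hl : LinearIndepOn F4 V S) : Module.finrank F4 (Submodule.span F4 (V '' S)) = S.ncard := by
  let _ : Fintype S := (Set.toFinite S).fintype
  have h3 := finrank_span_eq_card hl
  rw [← Nat.card_eq_fintype_card, Nat.card_coe_set_eq] at h3
  rw [← h3, image_eq_range]

/-- the span of the points of `m` is the kernel of the functional -/
private theorem BC2_ker (hT : Tab D) {m : ℕ} (hm : m < 2 ^ D.V.length)
    (hr : popc D.V.length m = D.r - 1) (hc : D.code m ≠ 127) :
    ∃ φ : (Fin D.r → F4) →ₗ[F4] F4,
      (∀ i : Fin D.V.length, φ (vecL D.r D.V i) = 0 ↔ i ∈ bits D.V.length (D.hyp (D.code m))) ∧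
      (∃ i : Fin D.V.length, φ (vecL D.r D.V i) ≠ 0) ∧
      Submodule.span F4 (vecL D.r D.V '' bits D.V.length m) = LinearMap.ker φ := by
  obtain ⟨h1, h2, h3⟩ := hT.ind m hm hr hc
  obtain ⟨φ, hφ, ⟨i, hi⟩, -⟩ := hT.fn _ h1
  refine ⟨φ, hφ, ⟨i, hi⟩, ?_⟩
  refine Submodule.eq_of_le_of_finrank_eq ?_ ?_
  · rw [Submodule.span_le]
    rintro _ ⟨j, hj, rfl⟩
    exact (hφ j).2 (h2 hj)
  · have h4 : φ ≠ 0 := by
      rintro rfl
      exact hi rfl
    have h5 := Module.Dual.finrank_ker_add_one_of_ne_zero h4
    rw [Module.finrank_fin_fun] at h5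
    rw [BC2_finrank h3, bits_ncard hm, hr]
    omega

/-- BC2b. an independent set of `r - 1` points spans the hyperplane with its code: both sets have the
same closure in `M`. (All points of `hyp h` are in the kernel of `φ_h`, which has dimension `r - 1`,
so they are in the span of `m`; independence is the same in `M`.) -/
theorem hyp_closure (hT : Tab D) (hM : LabM D M v ι) {m : ℕ} (hm : m < 2 ^ D.V.length)
    (hr : popc D.V.length m = D.r - 1) (hc : D.code m ≠ 127) :
    M.closure (ι '' bits D.V.length m) = M.closure (ι '' bits D.V.length (D.hyp (D.code m))) := by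
  obtain ⟨φ, hφ, -, hk⟩ := BC2_ker hT hm hr hc
  obtain ⟨h1, h2, h3⟩ := hT.ind m hm hr hc
  refine Subset.antisymm (M.closure_subset_closure (image_mono h2)) ?_
  refine M.closure_subset_closure_of_subset_closure ?_
  rintro _ ⟨i, hi, rfl⟩
  rw [BC2_mem_cl hM h3, hk, LinearMap.mem_ker]
  exact (hφ i).2 hi

/-- BC2c. a point is in the closure of `m` iff it is in the hyperplane -/
theorem mem_hyp (hT : Tab D) (hM : LabM D M v ι) {m : ℕ} (hm : m < 2 ^ D.V.length)
    (hr : popc D.V.length m = D.r - 1) (hc : D.code m ≠ 127) (i : Fin D.V.length) :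
    ι i ∈ M.closure (ι '' bits D.V.length m) ↔ i ∈ bits D.V.length (D.hyp (D.code m)) := by
  obtain ⟨φ, hφ, -, hk⟩ := BC2_ker hT hm hr hc
  obtain ⟨h1, h2, h3⟩ := hT.ind m hm hr hc
  rw [BC2_mem_cl hM h3, hk, LinearMap.mem_ker]
  exact hφ i

/-- BC2d. the rank of `M` is `r` as soon as there is one independent set of `r - 1` points
(a point outside its hyperplane completes it to `r` independent points; the vectors have length `r`;
`v` is in the closure of the points) -/
theorem base_iff (hT : Tab D) (hM : LabM D M v ι) (hex : ∃ m < 2 ^ D.V.length,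
    popc D.V.length m = D.r - 1 ∧ D.code m ≠ 127) (B : Set α) :
    M.IsBase B ↔ M.Indep B ∧ B.ncard = D.r := by
  obtain ⟨m, hm, hr, hc⟩ := hex
  obtain ⟨φ, hφ, ⟨i, hi⟩, hk⟩ := BC2_ker hT hm hr hc
  obtain ⟨h1, h2, h3⟩ := hT.ind m hm hr hc
  have hfin := hM.fin
  have hr1 := hT.r1
  have hns : vecL D.r D.V i ∉ Submodule.span F4 (vecL D.r D.V '' bits D.V.length m) := by
    rw [hk, LinearMap.mem_ker]
    exact hi
  have him : i ∉ bits D.V.length m := fun h => hns (Submodule.subset_span ⟨i, h, rfl⟩)
  have hJ : LinearIndepOn F4 (vecL D.r D.V) (insert i (bits D.V.length m)) :=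
    (linearIndepOn_insert him).2 ⟨h3, hns⟩
  have hJc : (insert i (bits D.V.length m)).ncard = D.r := by
    rw [ncard_insert_of_notMem him, bits_ncard hm, hr]
    omega
  have htop : Submodule.span F4 (vecL D.r D.V '' insert i (bits D.V.length m)) = ⊤ := by
    refine Submodule.eq_top_of_finrank_eq ?_
    rw [BC2_finrank hJ, hJc, Module.finrank_fin_fun]
  have hB0 : M.IsBase (ι '' insert i (bits D.V.length m)) := by
    have hi0 : M.Indep (ι '' insert i (bits D.V.length m)) := (hM.ind _).2 hJ
    refine hi0.isBase_of_ground_subset_closure ?_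
    have h4 : range ι ⊆ M.closure (ι '' insert i (bits D.V.length m)) := by
      rintro _ ⟨j, rfl⟩
      rw [BC2_mem_cl hM hJ, htop]
      exact Submodule.mem_top
    rw [hM.gr]
    refine insert_subset ?_ h4
    exact M.closure_subset_closure_of_subset_closure h4 hM.cl
  have hc0 : (ι '' insert i (bits D.V.length m)).ncard = D.r := by
    rw [ncard_image_of_injective _ hM.inj, hJc]
  constructor
  · intro hB
    exact ⟨hB.indep, (hB.ncard_eq_ncard_of_isBase hB0).trans hc0⟩
  · rintro ⟨hB, hBc⟩
    obtain ⟨B', hB', hBB⟩ := hB.exists_isBase_superset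
    have h5 : B = B' := Set.eq_of_subset_of_ncard_le hBB
      ((hB'.ncard_eq_ncard_of_isBase hB0).trans (hc0.trans hBc.symm)).le
      (M.ground_finite.subset hB'.subset_ground)
    rw [h5]
    exact hB'

end QG
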