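import Pool.Agent.Lib.QG.BC2

/-! MP_2e6874_co, part (B), row BC3: the function `stat` is correct. -/

set_option autoImplicit false

namespace QG
open Set Matroid

variable {α : Type} {D : Dat} {M : Matroid α} {v : α} {ι : Fin D.V.length → α}

/-- the labelling of all elements of `M` -/
noncomputable def labK {α : Type} {c : ℕ} (v : α) (ι : Fin c → α) : Fin (c + 1) → α :=
  Fin.snoc (α := fun _ => α) ι v

private theorem BC3_inj {c : ℕ} {v : α} {ι : Fin c → α} (hi : Function.Injective ι)
    (hv : v ∉ range ι) : Function.Injective (labK v ι) := by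
  intro a b hab
  induction a using Fin.lastCases with
  | last =>
    induction b using Fin.lastCases with
    | last => rfl
    | cast b =>
      rw [labK, Fin.snoc_last, Fin.snoc_castSucc] at hab
      exact absurd ⟨b, hab.symm⟩ hv
  | cast a =>
    induction b using Fin.lastCases with
    | last =>
      rw [labK, Fin.snoc_last, Fin.snoc_castSucc] at hab
      exact absurd ⟨a, hab⟩ hv
    | cast b =>
      rw [labK, Fin.snoc_castSucc, Fin.snoc_castSucc] at hab
      rw [hi hab]

private theorem BC3_bits {c m : ℕ} (hm : m < 2 ^ c) :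
    bits (c + 1) m = Fin.castSucc '' bits c m := by
  ext i
  constructor
  · intro hi
    have hi' : m.testBit i = true := hi
    have hic : (i : ℕ) < c := by
      by_contra hcon
      have h1 : m < 2 ^ (i : ℕ) :=
        hm.trans_le (Nat.pow_le_pow_right (by norm_num) (by omega))
      rw [Nat.testBit_lt_two_pow h1] at hi'
      exact Bool.false_ne_true hi'
    exact ⟨⟨i, hic⟩, hi', rfl⟩
  · rintro ⟨j, hj, rfl⟩
    exact hj

private theorem BC3_Y {c Y : ℕ} (hY0 : Y ≠ 0) (hY : Y < 2 ^ (c + 1)) :
    ∃ x, ∃ hx : x < c + 1, Nat.log2 Y = x ∧ Y - 2 ^ x < 2 ^ x ∧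
      bits (c + 1) Y = insert (⟨x, hx⟩ : Fin (c + 1)) (bits (c + 1) (Y - 2 ^ x)) := by
  have h1 := Nat.lt_log2_self (n := Y)
  have h2 := Nat.log2_self_le hY0
  have hx0 : Nat.log2 Y < c + 1 := (Nat.log2_lt hY0).2 hY
  obtain ⟨x, hxl⟩ : ∃ x, Nat.log2 Y = x := ⟨_, rfl⟩
  rw [hxl] at h1 h2 hx0
  rw [pow_succ] at h1
  refine ⟨x, hx0, hxl, ?_, ?_⟩
  · omega
  · obtain ⟨m, hm⟩ : ∃ m, Y - 2 ^ x = m := ⟨_, rfl⟩
    have hYm : Y = 2 ^ x + m := by omega
    have hm2 : m < 2 ^ x := by omega
    rw [hm]
    ext i
    simp only [bits, mem_ofPred_eq, mem_insert_iff, Fin.ext_iff]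
    rcases lt_trichotomy (i : ℕ) x with h | h | h
    · rw [hYm, Nat.testBit_two_pow_add_gt h]
      constructor
      · exact fun h' => Or.inr h'
      · rintro (h' | h')
        · omega
        · exact h'
    · rw [hYm, h, Nat.testBit_two_pow_add_eq, Nat.testBit_lt_two_pow hm2]
      simp
    · have h3 : Y < 2 ^ (i : ℕ) := by
        have h4 : 2 ^ (x + 1) ≤ 2 ^ (i : ℕ) := Nat.pow_le_pow_right (by norm_num) h
        rw [pow_succ] at h4
        omega
      have h5 : m < 2 ^ (i : ℕ) := by omega
      rw [Nat.testBit_lt_two_pow h3, Nat.testBit_lt_two_pow h5]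
      constructor
      · intro h'
        exact absurd h' Bool.false_ne_true
      · rintro (h' | h')
        · omega
        · exact absurd h' Bool.false_ne_true

/-- BC3. `x = log2 Y` is the largest element of `Y`, `m = Y - 2^x` the rest (`r - 1` elements, all are
points). If `code m = 127` the rest is dependent (`Tab.dep`). If `x = c` then `x` is `v`: base iff
`v ∉ cl (ι '' m) = cl (hyp h)` (`hyp_closure`, `base_iff`). If `x < c`: base iff `ι x ∉ cl (ι '' m)`,
`mem_hyp`. -/
theorem BC3 (hT : Tab D) (hM : LabM D M v ι) (hex : ∃ m < 2 ^ D.V.length,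
    popc D.V.length m = D.r - 1 ∧ D.code m ≠ 127) {A1 A0 : ℕ} (hC : Cons D M v ι A1 A0) {Y : ℕ}
    (hY : Y < 2 ^ (D.V.length + 1)) (hr : popc (D.V.length + 1) Y = D.r) {b : Bool}
    (hs : D.stat A1 A0 Y = some b) :
    M.IsBase (labK v ι '' bits (D.V.length + 1) Y) ↔ b = true := by
  have hr1 := hT.r1
  have hinj := BC3_inj hM.inj hM.nv
  have hnc : (bits (D.V.length + 1) Y).ncard = D.r := by rw [bits_ncard hY, hr]
  have hY0 : Y ≠ 0 := by
    rintro rfl
    have h1 : bits (D.V.length + 1) 0 = ∅ := by
      ext i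
      simp [bits]
    rw [h1, ncard_empty] at hnc
    omega
  obtain ⟨x, hx, hlog, hmx, hbits⟩ := BC3_Y hY0 hY
  obtain ⟨m, hmd⟩ : ∃ m, Y - 2 ^ x = m := ⟨_, rfl⟩
  rw [hmd] at hmx hbits
  have hm : m < 2 ^ D.V.length :=
    hmx.trans_le (Nat.pow_le_pow_right (by norm_num) (by omega))
  have hxm : (⟨x, hx⟩ : Fin (D.V.length + 1)) ∉ bits (D.V.length + 1) m := by
    intro h
    have h' : m.testBit x = true := h
    rw [Nat.testBit_lt_two_pow hmx] at h'
    exact Bool.false_ne_true h'
  have hmb := BC3_bits hm
  have himg : labK v ι '' bits (D.V.length + 1) m = ι '' bits D.V.length m := by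
    rw [hmb, image_image]
    refine image_congr fun i _ => ?_
    rw [labK, Fin.snoc_castSucc]
  have hpm : popc D.V.length m = D.r - 1 := by
    rw [← bits_ncard hm]
    rw [hbits, ncard_insert_of_notMem hxm, hmb,
      ncard_image_of_injective _ (Fin.castSucc_injective _)] at hnc
    omega
  have hset : labK v ι '' bits (D.V.length + 1) Y =
      insert (labK v ι ⟨x, hx⟩) (ι '' bits D.V.length m) := by
    rw [hbits, image_insert_eq, himg]
  have hncs : (insert (labK v ι ⟨x, hx⟩) (ι '' bits D.V.length m)).ncard = D.r := by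
    rw [← hset, ncard_image_of_injective _ hinj, hnc]
  have hstat : D.stat A1 A0 Y = if D.code m = 127 then some false
      else if x = D.V.length then
        (if A1.testBit (D.code m) then some false else if A0.testBit (D.code m) then some true
          else none)
      else some (!(D.hyp (D.code m)).testBit x) := by
    simp only [Dat.stat, hlog, hmd]
  rw [hstat] at hs
  rw [hset, base_iff hT hM hex]
  by_cases hc : D.code m = 127
  · rw [if_pos hc] at hs
    have hb : b = false := (Option.some.inj hs).symm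
    rw [hb]
    constructor
    · rintro ⟨h1, -⟩
      have h2 := h1.subset (subset_insert _ _)
      exact absurd ((hM.ind _).1 h2) (hT.dep m hm hpm hc)
    · intro h
      exact absurd h Bool.false_ne_true
  · rw [if_neg hc] at hs
    obtain ⟨hh, -, hind⟩ := hT.ind m hm hpm hc
    have hI : M.Indep (ι '' bits D.V.length m) := (hM.ind _).2 hind
    have hlabE : labK v ι ⟨x, hx⟩ ∈ M.E := by
      rw [hM.gr]
      by_cases hxc : x < D.V.length
      · right
        have h1 : labK v ι ⟨x, hx⟩ = ι ⟨x, hxc⟩ := by
          have h2 : (⟨x, hx⟩ : Fin (D.V.length + 1)) = Fin.castSucc ⟨x, hxc⟩ := rfl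
          rw [h2, labK, Fin.snoc_castSucc]
        rw [h1]
        exact mem_range_self _
      · left
        have h2 : (⟨x, hx⟩ : Fin (D.V.length + 1)) = Fin.last _ := by
          apply Fin.ext
          simp only [Fin.val_last]
          omega
        rw [h2, labK, Fin.snoc_last]
    have hnm : labK v ι ⟨x, hx⟩ ∉ ι '' bits D.V.length m := by
      rw [← himg]
      rintro ⟨y, hy, hyx⟩
      rw [hinj hyx] at hy
      exact hxm hy
    have hkey : (M.Indep (insert (labK v ι ⟨x, hx⟩) (ι '' bits D.V.length m)) ∧
        (insert (labK v ι ⟨x, hx⟩) (ι '' bits D.V.length m)).ncard = D.r) ↔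
        labK v ι ⟨x, hx⟩ ∉ M.closure (ι '' bits D.V.length m) := by
      rw [hI.notMem_closure_iff hlabE]
      constructor
      · rintro ⟨h1, -⟩
        exact ⟨h1, hnm⟩
      · rintro ⟨h1, -⟩
        exact ⟨h1, hncs⟩
    rw [hkey]
    by_cases hxc : x = D.V.length
    · rw [if_pos hxc] at hs
      have h1 : labK v ι ⟨x, hx⟩ = v := by
        have h2 : (⟨x, hx⟩ : Fin (D.V.length + 1)) = Fin.last _ := by
          apply Fin.ext
          simp only [Fin.val_last]
          omega
        rw [h2, labK, Fin.snoc_last]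
      rw [h1, hyp_closure hT hM hm hpm hc]
      by_cases hA1 : A1.testBit (D.code m) = true
      · rw [if_pos hA1] at hs
        have hb : b = false := (Option.some.inj hs).symm
        rw [hb]
        constructor
        · intro h
          exact absurd (hC.1 _ hA1).2 h
        · intro h
          exact absurd h Bool.false_ne_true
      · rw [if_neg hA1] at hs
        by_cases hA0 : A0.testBit (D.code m) = true
        · rw [if_pos hA0] at hs
          have hb : b = true := (Option.some.inj hs).symm
          rw [hb]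
          exact ⟨fun _ => rfl, fun _ => (hC.2 _ hA0).2⟩
        · rw [if_neg hA0] at hs
          exact absurd hs (by simp)
    · rw [if_neg hxc] at hs
      have hxl : x < D.V.length := by omega
      have h1 : labK v ι ⟨x, hx⟩ = ι ⟨x, hxl⟩ := by
        have h2 : (⟨x, hx⟩ : Fin (D.V.length + 1)) = Fin.castSucc ⟨x, hxl⟩ := rfl
        rw [h2, labK, Fin.snoc_castSucc]
      rw [h1, mem_hyp hT hM hm hpm hc]
      have hb : b = !(D.hyp (D.code m)).testBit x := (Option.some.inj hs).symm
      rw [hb]
      simp only [bits, mem_ofPred_eq]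
      cases (D.hyp (D.code m)).testBit x <;> simp

end QG
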