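import Pool.Agent.Lib.QG.BC0

/-! MP_2e6874_co, part (B), row BC4: minors from bases. -/

set_option autoImplicit false

namespace QG
open Set Matroid

/-- BC4a. If the sets `B ∪ C`, `B ⊆ range g`, which are bases of `M` are described by `L`, then `M` has a
minor with this list: `N = (M ／ C) ＼ (M.E \ (C ∪ range g))`. There is at least one base of this form
(`hex`), so `C` is independent and the bases of `N` are the `B` with `B ∪ C` a base of `M`
(`Matroid.Indep.contract_isBase_iff` and deletion of a set whose complement contains a base). -/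
theorem minor_isL {α : Type} {M : Matroid α} (hf : M.Finite) (C : Set α) (hC : C ⊆ M.E) {n k : ℕ}
    (g : Fin n → α) (hg : Function.Injective g) (hgE : ∀ i, g i ∈ M.E ∧ g i ∉ C)
    (L : Finset (Finset (Fin n))) (hex : ∃ B : Finset (Fin n), B.card = k ∧ B ∉ L)
    (h : ∀ B : Finset (Fin n), M.IsBase (g '' (B : Set (Fin n)) ∪ C) ↔ B.card = k ∧ B ∉ L) :
    ∃ N : Matroid α, N ≤m M ∧ IsL n k L N := by
  obtain ⟨B0, hB0⟩ := hex
  have hb0 := (h B0).2 hB0
  have hCi : M.Indep C := hb0.indep.subset subset_union_right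
  have hdis : ∀ B : Set (Fin n), Disjoint (g '' B) C := by
    intro B
    rw [disjoint_left]
    rintro _ ⟨i, _, rfl⟩
    exact (hgE i).2
  have hc : ∀ B : Set (Fin n), (M ／ C).IsBase (g '' B) ↔ M.IsBase (g '' B ∪ C) := by
    intro B
    rw [hCi.contract_isBase_iff]
    exact and_iff_left (hdis B)
  have hD : (M ／ C).Coindep (M.E \ (C ∪ range g)) := by
    have h1 : M.E \ (C ∪ range g) ⊆ (M ／ C).E := by
      rw [contract_ground]
      exact sdiff_subset_sdiff_right subset_union_left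
    rw [coindep_iff_exists h1]
    refine ⟨g '' (B0 : Set (Fin n)), (hc _).2 hb0, ?_⟩
    rintro _ ⟨i, _, rfl⟩
    rw [contract_ground]
    exact ⟨hgE i, fun h2 => h2.2 (Or.inr ⟨i, rfl⟩)⟩
  refine ⟨(M ／ C) ＼ (M.E \ (C ∪ range g)), contract_delete_isMinor M C _, g, hg, ?_, fun B => ?_⟩
  · rw [delete_ground, contract_ground]
    ext x
    constructor
    · rintro ⟨i, rfl⟩
      exact ⟨hgE i, fun h2 => h2.2 (Or.inr ⟨i, rfl⟩)⟩
    · rintro ⟨⟨h1, h2⟩, h3⟩
      by_contra h4
      exact h3 ⟨h1, fun h5 => h5.elim h2 h4⟩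
  · rw [hD.delete_isBase_iff, hc, ← h B]
    refine and_iff_left ?_
    rw [disjoint_left]
    rintro _ ⟨i, _, rfl⟩ h2
    exact h2.2 (Or.inr ⟨i, rfl⟩)

/-- the list of the nonbases as finsets -/
def TF (ty : ℕ) : Finset (Finset (Fin (TN ty))) := ((TLn ty).map (fun m => fb (TN ty) m)).toFinset

private theorem BC4_e0 : TF 0 = (∅ : Finset (Finset (Fin 6))) := by decide +kernel
private theorem BC4_e1 : TF 1 = (∅ : Finset (Finset (Fin 6))) := by decide +kernel
private theorem BC4_e2 : TF 2 = LP6 := by decide +kernel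
private theorem BC4_e3 : TF 3 = LP8 := by decide +kernel
private theorem BC4_e4 : TF 4 = LK4 := by decide +kernel
private theorem BC4_e5 : TF 5 = LA7 := by decide +kernel
private theorem BC4_e6 : (TF 6).image (fun B => Bᶜ) = LA7 := by decide +kernel
private theorem BC4_e7 : TF 7 = LE8a := by decide +kernel
private theorem BC4_e8 : (TF 8).image (fun B => Bᶜ) = LE8a := by decide +kernel
private theorem BC4_e9 : TF 9 = LE8b := by decide +kernel
private theorem BC4_e10 : (TF 10).image (fun B => Bᶜ) = LE8b := by decide +kernel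
private theorem BC4_e11 : TF 11 = LX8 := by decide +kernel

private theorem BC4_dual {α : Type} {N : Matroid α} {n r r' : ℕ} {L L' : Finset (Finset (Fin n))}
    (h : IsL n r L N) (hr : n - r = r') (hL : L.image (fun B => Bᶜ) = L') : IsL n r' L' N✶ := by
  obtain ⟨e, he⟩ := h
  have h1 := EL.dual (e := e) (M := N) (L := L) (r := r) he
  rw [hr, hL] at h1
  exact ⟨e, h1⟩

/-- BC4b. a matroid with one of the twelve lists is bad. (`ty = 0..11`: U26, U46, P6, P8, K4, A7, A7 dual,
E8a, E8a dual, E8b, E8b dual, X8; for `ty = 6, 8, 10` the list is the list of the complements of the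
bases of the dual: show `IsL _ _ LA7 N✶` from `IsL _ _ (TF 6) N`, `EL.dual` in D0.lean, `decide`.) -/
theorem bad_of_TF {α : Type} {N : Matroid α} {ty : ℕ} (h : IsL (TN ty) (TR ty) (TF ty) N) :
    Bad N := by
  match ty, h with
  | 0, h =>
    rw [BC4_e0] at h
    exact Or.inl h
  | 1, h =>
    rw [BC4_e1] at h
    exact Or.inr (Or.inl h)
  | 2, h =>
    rw [BC4_e2] at h
    exact Or.inr (Or.inr (Or.inl h))
  | 3, h =>
    rw [BC4_e3] at h
    exact Or.inr (Or.inr (Or.inr (Or.inl h)))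
  | 4, h =>
    rw [BC4_e4] at h
    exact Or.inr (Or.inr (Or.inr (Or.inr (Or.inl h))))
  | 5, h =>
    rw [BC4_e5] at h
    exact Or.inr (Or.inr (Or.inr (Or.inr (Or.inr (Or.inl h)))))
  | 6, h =>
    exact Or.inr (Or.inr (Or.inr (Or.inr (Or.inr (Or.inr (Or.inl
      (BC4_dual (n := 7) (r := 4) h rfl BC4_e6)))))))
  | 7, h =>
    rw [BC4_e7] at h
    exact Or.inr (Or.inr (Or.inr (Or.inr (Or.inr (Or.inr (Or.inr (Or.inl h)))))))
  | 8, h =>
    exact Or.inr (Or.inr (Or.inr (Or.inr (Or.inr (Or.inr (Or.inr (Or.inr (Or.inl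
      (BC4_dual (n := 8) (r := 5) h rfl BC4_e8)))))))))
  | 9, h =>
    rw [BC4_e9] at h
    exact Or.inr (Or.inr (Or.inr (Or.inr (Or.inr (Or.inr (Or.inr (Or.inr (Or.inr (Or.inl h)))))))))
  | 10, h =>
    exact Or.inr (Or.inr (Or.inr (Or.inr (Or.inr (Or.inr (Or.inr (Or.inr (Or.inr (Or.inr (Or.inl
      (BC4_dual (n := 8) (r := 5) h rfl BC4_e10)))))))))))
  | n + 11, h =>
    have h' : IsL 8 4 (TF 11) N := h
    rw [BC4_e11] at h'
    exact Or.inr (Or.inr (Or.inr (Or.inr (Or.inr (Or.inr (Or.inr (Or.inr (Or.inr (Or.inr (Or.inr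
      h'))))))))))

end QG
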