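import Pool.Agent.Lib.QG.BC3
import Pool.Agent.Lib.QG.BC4

/-! MP_2e6874_co, part (B), row BC5: leaves of type `bad`. -/

set_option autoImplicit false

namespace QG
open Set Matroid

variable {α : Type} {D : Dat} {M : Matroid α} {v : α} {ι : Fin D.V.length → α}

private theorem BC5_tab (ty : ℕ) : (TLn ty).all (fun m => decide (m < 2 ^ TN ty)) = true ∧
    (msk (TN ty) (TR ty)).any (fun m => !(TLn ty).contains m) = true := by
  match ty with
  | 0 => exact ⟨by decide +kernel, by decide +kernel⟩
  | 1 => exact ⟨by decide +kernel, by decide +kernel⟩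
  | 2 => exact ⟨by decide +kernel, by decide +kernel⟩
  | 3 => exact ⟨by decide +kernel, by decide +kernel⟩
  | 4 => exact ⟨by decide +kernel, by decide +kernel⟩
  | 5 => exact ⟨by decide +kernel, by decide +kernel⟩
  | 6 => exact ⟨by decide +kernel, by decide +kernel⟩
  | 7 => exact ⟨by decide +kernel, by decide +kernel⟩
  | 8 => exact ⟨by decide +kernel, by decide +kernel⟩
  | 9 => exact ⟨by decide +kernel, by decide +kernel⟩
  | 10 => exact ⟨by decide +kernel, by decide +kernel⟩
  | n + 11 =>
    have e1 : TLn (n + 11) = TLn 11 := rfl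
    have e2 : TN (n + 11) = TN 11 := rfl
    have e3 : TR (n + 11) = TR 11 := rfl
    rw [e1, e2, e3]
    exact ⟨by decide +kernel, by decide +kernel⟩

private theorem BC5_fb_coe (n m : ℕ) : ((fb n m : Finset (Fin n)) : Set (Fin n)) = bits n m := by
  ext i
  simp [fb, bits]

private theorem BC5_fb_inj {n m m' : ℕ} (hm : m < 2 ^ n) (hm' : m' < 2 ^ n)
    (h : bits n m = bits n m') : m = m' := by
  apply Nat.eq_of_testBit_eq
  intro j
  by_cases hj : j < n
  · have h1 : (⟨j, hj⟩ : Fin n) ∈ bits n m ↔ (⟨j, hj⟩ : Fin n) ∈ bits n m' := by rw [h]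
    have h2 : m.testBit j = true ↔ m'.testBit j = true := h1
    exact Bool.eq_iff_iff.2 h2
  · have h3 : 2 ^ n ≤ 2 ^ j := Nat.pow_le_pow_right (by norm_num) (by omega)
    rw [Nat.testBit_lt_two_pow (hm.trans_le h3), Nat.testBit_lt_two_pow (hm'.trans_le h3)]

private theorem BC5_lab_inj (hM : LabM D M v ι) : Function.Injective (labK v ι) := by
  intro i j
  refine Fin.lastCases ?_ (fun i => ?_) i
  · refine Fin.lastCases ?_ (fun j => ?_) j
    · intro _; rfl
    · intro h
      rw [labK, Fin.snoc_last, Fin.snoc_castSucc] at h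
      exact absurd ⟨j, h.symm⟩ hM.nv
  · refine Fin.lastCases ?_ (fun j => ?_) j
    · intro h
      rw [labK, Fin.snoc_last, Fin.snoc_castSucc] at h
      exact absurd ⟨i, h⟩ hM.nv
    · intro h
      rw [labK, Fin.snoc_castSucc, Fin.snoc_castSucc] at h
      rw [hM.inj h]

private theorem BC5_lab_mem (hM : LabM D M v ι) (i : Fin (D.V.length + 1)) :
    labK v ι i ∈ M.E := by
  rw [hM.gr]
  refine Fin.lastCases ?_ (fun i => ?_) i
  · rw [labK, Fin.snoc_last]; exact mem_insert _ _
  · rw [labK, Fin.snoc_castSucc]; exact mem_insert_of_mem _ ⟨i, rfl⟩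

/-- BC5. `C` (mask over `c + 1` elements) and `g` (list of `TN ty` elements, pairwise different and not in
`C`: this is the check of `popc`) describe a minor; by `BC3` the sets `C ∪ g(m)` are bases as in the
table of type `ty`; `minor_isL` and `bad_of_TF` give a bad minor, contradiction to `Good M`.
(`pmask`: `K2_testBit_pmask` in K2b.lean.) -/
theorem BC5 (hT : Tab D) (hM : LabM D M v ι) (hex : ∃ m < 2 ^ D.V.length,
    popc D.V.length m = D.r - 1 ∧ D.code m ≠ 127) {A1 A0 : ℕ} (hC : Cons D M v ι A1 A0)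
    {ty C : ℕ} {g : List ℕ} (h : D.badc A1 A0 ty C g (TL ty) = true) : False := by
  classical
  simp only [Dat.badc, Bool.and_eq_true, beq_iff_eq, decide_eq_true_eq, List.all_eq_true] at h
  obtain ⟨⟨⟨⟨hgl, hlt⟩, hCk⟩, hpc⟩, hall⟩ := h
  obtain ⟨hT1, hT2⟩ := BC5_tab ty
  have hinj := BC5_lab_inj hM
  have hbig : ∀ j, (C ||| pmask g (2 ^ TN ty - 1)).testBit j = true → j < D.V.length + 1 := by
    intro j hj
    by_contra hcon
    have h3 : 2 ^ (D.V.length + 1) ≤ 2 ^ j := Nat.pow_le_pow_right (by norm_num) (by omega)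
    rw [Nat.testBit_lt_two_pow (hlt.trans_le h3)] at hj
    exact absurd hj (by simp)
  have hgN : ∀ i : Fin g.length, g.get i < D.V.length + 1 := by
    intro i
    apply hbig
    rw [Nat.testBit_or, Bool.or_eq_true]
    right
    rw [K2_testBit_pmask]
    refine ⟨i, ?_, rfl⟩
    rw [Nat.testBit_two_pow_sub_one]
    have := i.2
    simp only [decide_eq_true_eq]
    omega
  have hCN : ∀ j, C.testBit j = true → j < D.V.length + 1 := by
    intro j hj
    apply hbig
    rw [Nat.testBit_or, hj, Bool.true_or]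
  have hClt : C < 2 ^ (D.V.length + 1) := by
    apply Nat.lt_pow_two_of_testBit
    intro j hj
    rw [Bool.eq_false_iff]
    intro h1
    have := hCN j h1
    omega
  let gi : Fin (TN ty) → Fin (D.V.length + 1) := fun i => ⟨g.get (i.cast hgl.symm), hgN _⟩
  have hbits : ∀ m, bits (D.V.length + 1) (C ||| pmask g m) =
      bits (D.V.length + 1) C ∪ gi '' bits (TN ty) m := by
    intro m
    ext j
    simp only [bits, mem_ofPred_eq, mem_union, mem_image, Nat.testBit_or, Bool.or_eq_true,
      K2_testBit_pmask]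
    refine or_congr_right ?_
    constructor
    · rintro ⟨i, hi, hij⟩
      exact ⟨i.cast hgl, hi, Fin.ext hij⟩
    · rintro ⟨i, hi, hij⟩
      exact ⟨i.cast hgl.symm, hi, congrArg Fin.val hij⟩
  have hYlt : ∀ m, C ||| pmask g m < 2 ^ (D.V.length + 1) := by
    intro m
    apply Nat.lt_pow_two_of_testBit
    intro j hj
    rw [Bool.eq_false_iff]
    intro h1
    rw [Nat.testBit_or, Bool.or_eq_true] at h1
    rcases h1 with h1 | h1
    · have := hCN j h1
      omega
    · rw [K2_testBit_pmask] at h1
      obtain ⟨i, -, rfl⟩ := h1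
      have := hgN i
      omega
  have huniv : bits (TN ty) (2 ^ TN ty - 1) = univ := by
    ext i
    simp [bits, Nat.testBit_two_pow_sub_one]
  have hR : (gi '' univ).ncard ≤ TN ty := by
    have := ncard_image_le (f := gi) (s := univ) (toFinite _)
    rwa [ncard_univ, Nat.card_eq_fintype_card, Fintype.card_fin] at this
  have e1 := bits_ncard (hYlt (2 ^ TN ty - 1))
  rw [hbits, huniv, hpc, ← bits_ncard hClt] at e1
  have e2 := ncard_union_add_ncard_inter (bits (D.V.length + 1) C) (gi '' univ)
    (toFinite _) (toFinite _)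
  have e3 : (gi '' univ).ncard = TN ty := by omega
  have e4 : (bits (D.V.length + 1) C ∩ gi '' univ).ncard = 0 := by omega
  rw [ncard_eq_zero (toFinite _)] at e4
  have hgi : Function.Injective gi := by
    have h1 : (gi '' univ).ncard = (univ : Set (Fin (TN ty))).ncard := by
      rw [e3, ncard_univ, Nat.card_eq_fintype_card, Fintype.card_fin]
    exact injOn_univ.1 (injOn_of_ncard_image_eq h1 (toFinite _))
  have hgC : ∀ i, gi i ∉ bits (D.V.length + 1) C := by
    intro i hi
    have : gi i ∈ bits (D.V.length + 1) C ∩ gi '' univ := ⟨hi, i, mem_univ _, rfl⟩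
    rw [e4] at this
    exact this
  have hcardY : ∀ m < 2 ^ TN ty, popc (D.V.length + 1) (C ||| pmask g m) =
      popc (D.V.length + 1) C + popc (TN ty) m := by
    intro m hm
    rw [← bits_ncard (hYlt m), hbits, ncard_union_eq ?_ (toFinite _) (toFinite _),
      bits_ncard hClt, ncard_image_of_injective _ hgi, bits_ncard hm]
    rw [Set.disjoint_left]
    rintro _ hx ⟨i, _, rfl⟩
    exact hgC i hx
  have hset : ∀ m, (fun i => labK v ι (gi i)) '' bits (TN ty) m ∪
      labK v ι '' bits (D.V.length + 1) C =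
      labK v ι '' bits (D.V.length + 1) (C ||| pmask g m) := by
    intro m
    rw [hbits, image_union, union_comm, image_image]
  have hTF : ∀ m < 2 ^ TN ty, (fb (TN ty) m ∈ TF ty ↔ m ∈ TLn ty) := by
    intro m hm
    rw [TF, List.mem_toFinset, List.mem_map]
    constructor
    · rintro ⟨m', hm', h1⟩
      have h2 : bits (TN ty) m' = bits (TN ty) m := by
        rw [← BC5_fb_coe, ← BC5_fb_coe, h1]
      have h3 : m' < 2 ^ TN ty := by
        have := List.all_eq_true.1 hT1 m' hm'
        simpa using this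
      rw [BC5_fb_inj h3 hm h2] at hm'
      exact hm'
    · intro h1
      exact ⟨m, h1, rfl⟩
  have hcardB : ∀ m < 2 ^ TN ty, (fb (TN ty) m).card = popc (TN ty) m := by
    intro m hm
    rw [← bits_ncard hm, ← BC5_fb_coe, ncard_coe_finset]
  have hmem : ∀ m < 2 ^ TN ty, popc (TN ty) m = TR ty →
      D.stat A1 A0 (C ||| pmask g m) = some (!(TLn ty).contains m) := by
    intro m hm hp
    refine hall (m, !(TLn ty).contains m) ?_
    rw [TL, List.mem_map]
    refine ⟨m, ?_, rfl⟩
    rw [msk, List.mem_filter, List.mem_range, beq_iff_eq]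
    exact ⟨hm, hp⟩
  have key : ∀ B : Finset (Fin (TN ty)), M.IsBase ((fun i => labK v ι (gi i)) '' (B : Set _) ∪
      labK v ι '' bits (D.V.length + 1) C) ↔ B.card = TR ty ∧ B ∉ TF ty := by
    intro B
    obtain ⟨m, hm, hmB⟩ := K1_exists_bits (TN ty) (B : Set (Fin (TN ty)))
    have hB : B = fb (TN ty) m := by
      apply Finset.coe_injective
      rw [BC5_fb_coe, hmB]
    rw [← hmB, hset, hB, hTF m hm, hcardB m hm]
    by_cases hp : popc (TN ty) m = TR ty
    · rw [BC3 hT hM hex hC (hYlt m) (by rw [hcardY m hm, hp, hCk]) (hmem m hm hp)]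
      rw [and_iff_right hp]
      simp
    · constructor
      · intro h1
        rw [base_iff hT hM hex, ncard_image_of_injective _ hinj, bits_ncard (hYlt m),
          hcardY m hm] at h1
        exfalso
        apply hp
        have := h1.2
        omega
      · rintro ⟨h1, _⟩
        exact absurd h1 hp
  obtain ⟨m0, hm0, hm0'⟩ := List.any_eq_true.1 hT2
  rw [msk, List.mem_filter, List.mem_range, beq_iff_eq] at hm0
  have hmm : m0 ∉ TLn ty := by
    intro h1
    have h2 : (TLn ty).contains m0 = true := by simpa using h1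
    rw [h2] at hm0'
    exact absurd hm0' (by simp)
  obtain ⟨N, hN, hNL⟩ := minor_isL hM.fin (labK v ι '' bits (D.V.length + 1) C)
    (by rintro _ ⟨i, _, rfl⟩; exact BC5_lab_mem hM i) (fun i => labK v ι (gi i))
    (hinj.comp hgi) (fun i => ⟨BC5_lab_mem hM _, by
      rintro ⟨j, hj, h1⟩
      exact hgC i (hinj h1 ▸ hj)⟩) (TF ty)
    ⟨fb (TN ty) m0, by rw [hcardB m0 hm0.1]; exact hm0.2, by rw [hTF m0 hm0.1]; exact hmm⟩ key
  exact hM.good N hN (bad_of_TF hNL)

end QG
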