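import Pool.Agent.Lib.QG.Defs
set_option autoImplicit false

/-! Row C1. The rank function with natural values, for finite matroids. All from the corresponding
statements for `eRk` (Mathlib, Matroid/Rank/ENat.lean: eRk_mono, eRk_inter_add_eRk_union_le,
eRk_le_encard, indep_iff_eRk_eq_encard_of_finite, eRk_insert_le_add_one, restrict_eRk_eq',
eRk_dual_add_eRank, eRk_closure_eq, ...); first show M.eRk X = (rk M X : ℕ∞). -/

namespace QG
open Set Matroid
variable {α : Type} (M : Matroid α) [M.Finite]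

theorem coe_rk (X : Set α) : (rk M X : ℕ∞) = M.eRk X := by
  unfold rk
  exact ENat.natCast_toNat (eRk_ne_top_iff.2 (M.isRkFinite_set X))

theorem rk_empty : rk M ∅ = 0 := by
  simp [rk]

theorem rk_mono {X Y : Set α} (h : X ⊆ Y) : rk M X ≤ rk M Y := by
  rw [← Nat.cast_le (α := ℕ∞), coe_rk, coe_rk]
  exact M.eRk_mono h

theorem rk_submod (X Y : Set α) : rk M (X ∩ Y) + rk M (X ∪ Y) ≤ rk M X + rk M Y := by
  rw [← Nat.cast_le (α := ℕ∞), Nat.cast_add, Nat.cast_add, coe_rk, coe_rk, coe_rk, coe_rk]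
  exact M.eRk_inter_add_eRk_union_le X Y

theorem rk_union_le (X Y : Set α) : rk M (X ∪ Y) ≤ rk M X + rk M Y := by
  rw [← Nat.cast_le (α := ℕ∞), Nat.cast_add, coe_rk, coe_rk, coe_rk]
  exact M.eRk_union_le_eRk_add_eRk X Y

private theorem C1_fin {X : Set α} (hX : X ⊆ M.E) : X.Finite := M.ground_finite.subset hX

private theorem C1_ncard {X : Set α} (hX : X ⊆ M.E) : (X.ncard : ℕ∞) = X.encard :=
  (C1_fin M hX).cast_ncard_eq

theorem rk_le_ncard {X : Set α} (hX : X ⊆ M.E) : rk M X ≤ X.ncard := by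
  rw [← Nat.cast_le (α := ℕ∞), coe_rk, C1_ncard M hX]
  exact M.eRk_le_encard X

theorem rk_le_rk (X : Set α) : rk M X ≤ rk M M.E := by
  rw [← Nat.cast_le (α := ℕ∞), coe_rk, coe_rk, eRk_ground]
  exact M.eRk_le_eRank X

theorem rk_inter_ground (X : Set α) : rk M (X ∩ M.E) = rk M X := by
  unfold rk
  rw [eRk_inter_ground]

theorem rk_insert_le (e : α) (X : Set α) : rk M (insert e X) ≤ rk M X + 1 := by
  rw [← Nat.cast_le (α := ℕ∞), Nat.cast_add, coe_rk, coe_rk, Nat.cast_one]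
  exact M.eRk_insert_le_add_one e X

theorem indep_iff_rk {I : Set α} (hI : I ⊆ M.E) : M.Indep I ↔ rk M I = I.ncard := by
  rw [indep_iff_eRk_eq_encard, ← coe_rk, ← C1_ncard M hI, Nat.cast_inj]

theorem Indep.rk_eq {M : Matroid α} [M.Finite] {I : Set α} (hI : M.Indep I) :
    rk M I = I.ncard := (indep_iff_rk M hI.subset_ground).1 hI

theorem isBase_iff_rk {B : Set α} (hB : B ⊆ M.E) :
    M.IsBase B ↔ rk M B = rk M M.E ∧ B.ncard = rk M M.E := by
  constructor
  · intro h
    have h1 : rk M B = rk M M.E := by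
      unfold rk
      rw [h.eRk_eq_eRank, eRk_ground]
    exact ⟨h1, by rw [← h1, Indep.rk_eq h.indep]⟩
  · rintro ⟨h1, h2⟩
    have h3 : M.Indep B := by rw [indep_iff_rk M hB, h1, h2]
    refine h3.isBase_of_eRk_ge (C1_fin M hB) ?_
    rw [← eRk_ground, ← coe_rk, ← coe_rk, h1]

theorem exists_indep_rk (X : Set α) : ∃ I, I ⊆ X ∧ M.Indep I ∧ I.ncard = rk M X := by
  obtain ⟨I, hI⟩ := M.exists_isBasis' X
  refine ⟨I, hI.subset, hI.indep, ?_⟩
  rw [← Nat.cast_inj (R := ℕ∞), coe_rk, C1_ncard M hI.indep.subset_ground, hI.encard_eq_eRk]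

theorem mem_closure_iff_rk {e : α} (he : e ∈ M.E) (X : Set α) :
    e ∈ M.closure X ↔ rk M (insert e X) = rk M X := by
  constructor
  · intro h
    unfold rk
    rw [← eRk_insert_closure_eq, insert_eq_of_mem h, eRk_closure_eq]
  · intro h
    by_contra hcon
    have h1 := M.eRk_insert_eq_add_one (X := X) ⟨he, hcon⟩
    rw [← coe_rk, ← coe_rk, h] at h1
    have h2 : rk M X = rk M X + 1 := by exact_mod_cast h1
    omega

theorem rk_closure (X : Set α) : rk M (M.closure X) = rk M X := by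
  unfold rk
  rw [eRk_closure_eq]

theorem rk_restrict {X Y : Set α} (hY : Y ⊆ X) : rk (M ↾ X) Y = rk M Y := by
  unfold rk
  rw [restrict_eRk_eq M hY]

theorem rk_delete (D X : Set α) : rk (M ＼ D) X = rk M (X \ D) := by
  unfold rk
  rw [delete_eq_restrict, restrict_eRk_eq', ← M.eRk_inter_ground (X \ D)]
  congr 2
  ext x
  simp only [mem_inter_iff, mem_sdiff]
  tauto

theorem rk_contract (C X : Set α) : rk (M ／ C) X + rk M C = rk M (X ∪ C) := by
  obtain ⟨J, hJ⟩ := M.exists_isBasis' C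
  obtain ⟨K, hK, hJK⟩ := hJ.indep.subset_isBasis'_of_subset
    (hJ.subset.trans (subset_union_right (s := X)))
  have h1 : (M ／ C).IsBasis' (K \ C) ((X ∪ C) \ C) := hK.contract_isBasis' hJ
    (hK.indep.subset (union_subset sdiff_subset hJK))
  have h2 : (M ／ C).eRk X = (K \ C).encard := by
    rw [h1.encard_eq_eRk, ← (M ／ C).eRk_inter_ground X, ← (M ／ C).eRk_inter_ground ((X ∪ C) \ C),
      contract_ground]
    congr 1
    ext x
    simp only [mem_inter_iff, mem_sdiff, mem_union]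
    tauto
  have h3 : K ∩ C = J := (hJ.eq_of_subset_indep (hK.indep.inter_right C)
    (subset_inter hJK hJ.subset) inter_subset_right).symm
  rw [← Nat.cast_inj (R := ℕ∞), Nat.cast_add, coe_rk, coe_rk, coe_rk, h2, ← hJ.encard_eq_eRk,
    ← hK.encard_eq_eRk, ← h3]
  exact encard_sdiff_add_encard_inter K C

theorem rk_dual {X : Set α} (hX : X ⊆ M.E) :
    rk M✶ X + rk M M.E = X.ncard + rk M (M.E \ X) := by
  rw [← Nat.cast_inj (R := ℕ∞), Nat.cast_add, Nat.cast_add, coe_rk, coe_rk, coe_rk,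
    C1_ncard M hX, eRk_ground, M.eRk_dual_add_eRank X hX, add_comm]

theorem rk_dual_ground : rk M✶ M.E + rk M M.E = M.E.ncard := by
  rw [rk_dual M subset_rfl, sdiff_self]
  simp [rk]

theorem ext_rk {N : Matroid α} [N.Finite] (hE : M.E = N.E) (h : ∀ X, X ⊆ M.E → rk M X = rk N X) :
    M = N := by
  refine ext_indep hE fun I hI => ?_
  rw [indep_iff_rk M hI, indep_iff_rk N (hE ▸ hI), h I hI]

end QG
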