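import Pool.Agent.Lib.QG.BC2
import Pool.Agent.Lib.QG.C1

/-! MP_2e6874_co, part (B), row BC6: colines. -/

set_option autoImplicit false

namespace QG
open Set Matroid

variable {α : Type} {D : Dat} {M : Matroid α} {v : α} {ι : Fin D.V.length → α}

private theorem BC6_bit {m x i : ℕ} (hx : m.testBit x = true) (hi : m.testBit i = true)
    (hne : i ≠ x) : (m - 2 ^ x).testBit i = true := by
  have hle : 2 ^ x ≤ m := by
    by_contra hlt
    rw [Nat.testBit_lt_two_pow (not_le.1 hlt)] at hx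
    exact absurd hx (by simp)
  obtain ⟨k, hk⟩ : ∃ k, m = k + 2 ^ x := ⟨m - 2 ^ x, by omega⟩
  have hk' : m - 2 ^ x = k := by omega
  rw [hk']
  rcases lt_or_gt_of_ne hne with h | h
  · -- `i < x`
    have h1 : m % 2 ^ (i + 1) = k % 2 ^ (i + 1) := by
      obtain ⟨j, rfl⟩ : ∃ j, x = (i + 1) + j := ⟨x - (i + 1), by omega⟩
      rw [hk, pow_add, Nat.add_mul_mod_self_left]
    have h2 := Nat.testBit_mod_two_pow m (i + 1) i
    have h3 := Nat.testBit_mod_two_pow k (i + 1) i
    rw [h1] at h2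
    rw [h2] at h3
    simpa [hi] using h3.symm
  · -- `x < i`
    have hmx : m / 2 ^ x % 2 = 1 := by
      rw [Nat.testBit_eq_decide_div_mod_eq] at hx
      simpa using hx
    have h1 : k / 2 ^ (x + 1) = m / 2 ^ (x + 1) := by
      rw [pow_succ, ← Nat.div_div_eq_div_mul, ← Nat.div_div_eq_div_mul]
      have h2 : m / 2 ^ x = k / 2 ^ x + 1 := by
        rw [hk, Nat.add_div_right _ (Nat.two_pow_pos x)]
      omega
    obtain ⟨j, rfl⟩ : ∃ j, i = (x + 1) + j := ⟨i - (x + 1), by omega⟩
    rw [Nat.testBit_eq_decide_div_mod_eq] at hi ⊢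
    rw [pow_add, ← Nat.div_div_eq_div_mul, h1, Nat.div_div_eq_div_mul, ← pow_add]
    exact hi

private theorem BC6_inj {n m m' : ℕ} (hm : m < 2 ^ n) (hm' : m' < 2 ^ n)
    (h : bits n m = bits n m') : m = m' := by
  apply Nat.eq_of_testBit_eq
  intro i
  by_cases hi : i < n
  · have h1 : (⟨i, hi⟩ : Fin n) ∈ bits n m ↔ (⟨i, hi⟩ : Fin n) ∈ bits n m' := by rw [h]
    have h2 : m.testBit i = true ↔ m'.testBit i = true := h1
    rcases hb : m.testBit i <;> rcases hb' : m'.testBit i <;> simp_all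
  · have h3 : 2 ^ n ≤ 2 ^ i := Nat.pow_le_pow_right (by norm_num) (by omega)
    rw [Nat.testBit_lt_two_pow (hm.trans_le h3), Nat.testBit_lt_two_pow (hm'.trans_le h3)]

/-- the rank of a hyperplane -/
private theorem BC6_rk (hT : Tab D) (hM : LabM D M v ι) {h : ℕ} (hh : h < D.F.length) :
    rk M (ι '' bits D.V.length (D.hyp h)) ≤ D.r - 1 := by
  have hfin := hM.fin
  obtain ⟨φ, hφ, ⟨i0, hi0⟩, -⟩ := hT.fn h hh
  obtain ⟨I, hI, hind, hcard⟩ := exists_indep_rk M (ι '' bits D.V.length (D.hyp h))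
  rw [← hcard]
  obtain ⟨T, hT1, rfl⟩ := subset_image_iff.1 hI
  have hli := (hM.ind T).1 hind
  rw [ncard_image_of_injective _ hM.inj]
  have hφ0 : φ ≠ 0 := by
    rintro rfl
    exact hi0 rfl
  have h1 := Module.Dual.finrank_ker_add_one_of_ne_zero hφ0
  rw [Module.finrank_fin_fun] at h1
  have h2 : Submodule.span F4 (vecL D.r D.V '' T) ≤ LinearMap.ker φ := by
    rw [Submodule.span_le]
    rintro _ ⟨i, hi, rfl⟩
    exact (hφ i).2 (hT1 hi)
  have h3 : T.ncard ≤ Module.finrank F4 (Submodule.span F4 (vecL D.r D.V '' T)) := by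
    have h4 : Fintype T := Fintype.ofFinite T
    have h5 := finrank_span_eq_card (R := F4) (b := fun i : T => vecL D.r D.V i) hli
    have h6 : range (fun i : T => vecL D.r D.V i) = vecL D.r D.V '' T := by
      rw [image_eq_range]
    rw [h6] at h5
    rw [h5, ← Nat.card_eq_fintype_card]
    exact le_of_eq (Nat.card_coe_set_eq T).symm
  have h4 := Submodule.finrank_mono h2
  omega

/-- a point in the closure of a hyperplane is in the hyperplane -/
private theorem BC6_mem (hT : Tab D) (hM : LabM D M v ι) {h : ℕ} (hh : h < D.F.length)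
    {i : Fin D.V.length} (hi : ι i ∈ M.closure (ι '' bits D.V.length (D.hyp h))) :
    i ∈ bits D.V.length (D.hyp h) := by
  have hfin := hM.fin
  obtain ⟨φ, hφ, -, -⟩ := hT.fn h hh
  by_contra hcon
  obtain ⟨I, hI, hind, hcard⟩ := exists_indep_rk M (ι '' bits D.V.length (D.hyp h))
  obtain ⟨T, hT1, rfl⟩ := subset_image_iff.1 hI
  have hli := (hM.ind T).1 hind
  have h1 : vecL D.r D.V i ∉ Submodule.span F4 (vecL D.r D.V '' T) := by
    intro h2
    have h3 : Submodule.span F4 (vecL D.r D.V '' T) ≤ LinearMap.ker φ := by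
      rw [Submodule.span_le]
      rintro _ ⟨j, hj, rfl⟩
      exact (hφ j).2 (hT1 hj)
    exact hcon ((hφ i).1 (h3 h2))
  have h2 : M.Indep (ι '' insert i T) := (hM.ind _).2 (hli.insert h1)
  have hiT : i ∉ T := fun h3 => hcon (hT1 h3)
  have h3 := Indep.rk_eq h2
  rw [ncard_image_of_injective _ hM.inj, ncard_insert_of_notMem hiT (toFinite T)] at h3
  rw [ncard_image_of_injective _ hM.inj] at hcard
  have h4 : ι '' insert i T ⊆ insert (ι i) (ι '' bits D.V.length (D.hyp h)) := by
    rw [image_insert_eq]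
    exact insert_subset_insert (image_mono hT1)
  have h5 := rk_mono M h4
  have hiE : ι i ∈ M.E := by
    rw [hM.gr]
    exact Or.inr ⟨i, rfl⟩
  rw [(mem_closure_iff_rk M hiE _).1 hi] at h5
  omega

/-- BC6. Let `I = q.1 - 2^x` (`r - 2` independent points), `h ≠ h'` hyperplanes of `L = q.2.2` (both contain
`I`) with different masks, `v ∈ cl (hyp h)` and `v ∈ cl (hyp h')`. Then `v ∈ cl I`, so `v ∈ cl (hyp h'')`
for all `h'' ∈ L`. Proof: otherwise `I ∪ {v}` is independent, of size `r - 1`, contained in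
`cl (hyp h)` and `cl (hyp h')`; the ranks of `hyp h`, `hyp h'` are at most `r - 1` (the points are in the
kernel of a nonzero functional), so both closures are the closure of `I ∪ {v}`, hence equal; but a
point in one mask and not in the other one is not in the closure of the other (functional). -/
theorem BC6 (hT : Tab D) (hM : LabM D M v ι) {q : ℕ × ℕ × ℕ} (hq : q ∈ D.cl) {h h' h'' : ℕ}
    (h1 : q.2.2.testBit h = true) (h2 : q.2.2.testBit h' = true) (h3 : q.2.2.testBit h'' = true)
    (hne : D.hyp h ≠ D.hyp h') (hv : v ∈ M.closure (ι '' bits D.V.length (D.hyp h)))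
    (hv' : v ∈ M.closure (ι '' bits D.V.length (D.hyp h'))) :
    v ∈ M.closure (ι '' bits D.V.length (D.hyp h'')) := by
  have hfin := hM.fin
  obtain ⟨hc, hlt, hpop, hx, hall⟩ := hT.cl q hq
  obtain ⟨-, -, hJ⟩ := hT.ind q.1 hlt hpop hc
  obtain ⟨hh, hI1⟩ := hall h h1
  obtain ⟨hh', hI2⟩ := hall h' h2
  obtain ⟨-, hI3⟩ := hall h'' h3
  have hxlt : q.2.1 < D.V.length := by
    by_contra hcon
    have h4 : 2 ^ D.V.length ≤ 2 ^ q.2.1 := Nat.pow_le_pow_right (by norm_num) (by omega)
    rw [Nat.testBit_lt_two_pow (hlt.trans_le h4)] at hx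
    exact absurd hx (by simp)
  set x : Fin D.V.length := ⟨q.2.1, hxlt⟩ with hxdef
  have hxJ : x ∈ bits D.V.length q.1 := hx
  set I : Set (Fin D.V.length) := bits D.V.length q.1 \ {x} with hI
  have hsub : I ⊆ bits D.V.length (q.1 - 2 ^ q.2.1) := by
    rintro i ⟨hi1, hi2⟩
    refine BC6_bit hx hi1 fun h5 => hi2 ?_
    rw [mem_singleton_iff]
    exact Fin.ext h5
  have hIc : I.ncard + 1 = D.r - 1 := by
    rw [hI, ncard_sdiff_singleton_add_one hxJ (toFinite _), bits_ncard hlt, hpop]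
  have hvE : v ∈ M.E := by
    rw [hM.gr]
    exact mem_insert _ _
  have hIind : M.Indep (ι '' I) := (hM.ind I).2 (hJ.mono sdiff_subset)
  by_contra hcon
  have hvI : v ∉ M.closure (ι '' I) := fun h5 =>
    hcon (M.closure_subset_closure (image_mono (hsub.trans hI3)) h5)
  have h6 := (hIind.notMem_closure_iff hvE).1 hvI
  have hXrk := Indep.rk_eq h6.1
  rw [ncard_insert_of_notMem h6.2 (toFinite _), ncard_image_of_injective _ hM.inj, hIc] at hXrk
  -- closures of hyperplanes in `L` which contain `v`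
  have key : ∀ g g' : ℕ, g < D.F.length → g' < D.F.length →
      bits D.V.length (q.1 - 2 ^ q.2.1) ⊆ bits D.V.length (D.hyp g) →
      bits D.V.length (q.1 - 2 ^ q.2.1) ⊆ bits D.V.length (D.hyp g') →
      v ∈ M.closure (ι '' bits D.V.length (D.hyp g)) →
      v ∈ M.closure (ι '' bits D.V.length (D.hyp g')) →
      bits D.V.length (D.hyp g) ⊆ bits D.V.length (D.hyp g') := by
    intro g g' hg hg' hs hs' hvg hvg' i hi
    have hsubE : ∀ S : Set (Fin D.V.length), ι '' S ⊆ M.E := by
      rintro S _ ⟨j, _, rfl⟩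
      rw [hM.gr]
      exact Or.inr ⟨j, rfl⟩
    have hX : ∀ k : ℕ, bits D.V.length (q.1 - 2 ^ q.2.1) ⊆ bits D.V.length (D.hyp k) →
        v ∈ M.closure (ι '' bits D.V.length (D.hyp k)) →
        insert v (ι '' I) ⊆ M.closure (ι '' bits D.V.length (D.hyp k)) := by
      intro k hk hvk
      refine insert_subset hvk ?_
      exact (image_mono (hsub.trans hk)).trans (M.subset_closure _ (hsubE _))
    have hiE : ι i ∈ M.E := hsubE {i} ⟨i, rfl, rfl⟩
    have h7 : ι i ∈ M.closure (insert v (ι '' I)) := by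
      rw [mem_closure_iff_rk M hiE]
      apply le_antisymm _ (rk_mono M (subset_insert _ _))
      rw [hXrk]
      refine le_trans ?_ (BC6_rk hT hM hg)
      rw [← rk_closure M (ι '' bits D.V.length (D.hyp g))]
      exact rk_mono M (insert_subset (M.subset_closure _ (hsubE _) ⟨i, hi, rfl⟩) (hX g hs hvg))
    refine BC6_mem hT hM hg' ?_
    have h8 := M.closure_subset_closure (hX g' hs' hvg') h7
    rwa [M.closure_closure] at h8
  exact hne (BC6_inj (hT.hlt h hh) (hT.hlt h' hh')
    ((key h h' hh hh' hI1 hI2 hv hv').antisymm (key h' h hh' hh hI2 hI1 hv' hv)))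

end QG
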