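import Pool.Agent.Lib.QG.BC3

/-! MP_2e6874_co, part (B), row BC7: leaves of type `sol`. -/

set_option autoImplicit false

namespace QG
open Set Matroid

variable {α : Type} {D : Dat} {M : Matroid α} {v : α} {ι : Fin D.V.length → α}

/-- the closure of a hyperplane contains `v` iff it is in the first mask -/
private theorem BC7_hyp {A1 A0 : ℕ} (hC : Cons D M v ι A1 A0)
    (hA : A1 ||| A0 = 2 ^ D.F.length - 1) {h : ℕ} (hh : h < D.F.length) :
    v ∈ M.closure (ι '' bits D.V.length (D.hyp h)) ↔ A1.testBit h = true := by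
  constructor
  · intro hv
    have h1 : (A1 ||| A0).testBit h = true := by
      rw [hA, Nat.testBit_two_pow_sub_one]
      exact decide_eq_true hh
    rw [Nat.testBit_or, Bool.or_eq_true] at h1
    rcases h1 with h1 | h1
    · exact h1
    · exact absurd hv (hC.2 h h1).2
  · intro h1
    exact (hC.1 h h1).2

/-- an extension to a base, by points and `p` -/
private theorem BC7_ext {r c : ℕ} (V : Fin c → Fin r → F4) (hsp : Submodule.span F4 (range V) = ⊤)
    {I : Set (Fin c)} (hI : LinearIndepOn F4 V I) {p : Fin r → F4}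
    (hp : p ∉ Submodule.span F4 (V '' I)) : ∃ X : Set (Fin c), I ⊆ X ∧ LinearIndepOn F4 V X ∧
      X.ncard + 1 = r ∧ Submodule.span F4 (insert p (V '' X)) = ⊤ := by
  classical
  obtain ⟨W, hW⟩ : ∃ W : Option (Fin c) → Fin r → F4, W = fun o => o.elim p V := ⟨_, rfl⟩
  have hWc : W ∘ some = V := by rw [hW]; rfl
  have hW0 : W none = p := by rw [hW]; rfl
  have hWs : ∀ X : Set (Fin c), W '' (some '' X) = V '' X := by
    intro X
    rw [← Set.image_comp, hWc]
  have hWi : ∀ X : Set (Fin c), W '' (insert none (some '' X)) = insert p (V '' X) := by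
    intro X
    rw [Set.image_insert_eq, hWs, hW0]
  have hn : ∀ X : Set (Fin c), (none : Option (Fin c)) ∉ some '' X := by
    rintro X ⟨x, -, hx⟩
    exact Option.some_ne_none x hx
  have h0 : LinearIndepOn F4 W (insert none (some '' I)) := by
    rw [linearIndepOn_insert (hn I), hWs, hW0]
    refine ⟨?_, hp⟩
    apply LinearIndepOn.image_of_comp
    rw [hWc]
    exact hI
  obtain ⟨b, -, hb1, hb2, hb3⟩ := exists_linearIndepOn_extension h0 (subset_univ _)
  obtain ⟨X, hX⟩ : ∃ X : Set (Fin c), X = some ⁻¹' b := ⟨_, rfl⟩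
  have hbX : b = insert none (some '' X) := by
    ext o
    rcases o with _ | x
    · simp only [mem_insert_iff, true_or, iff_true]
      exact hb1 (mem_insert _ _)
    · rw [hX]
      simp
  have hX1 : LinearIndepOn F4 W (some '' X) := hb3.mono (by rw [hbX]; exact subset_insert _ _)
  have hspan : Submodule.span F4 (W '' b) = ⊤ := by
    rw [eq_top_iff, ← hsp, Submodule.span_le]
    rintro _ ⟨i, rfl⟩
    apply hb2
    refine ⟨some i, mem_univ _, ?_⟩
    rw [← hWc]
    rfl
  refine ⟨X, ?_, ?_, ?_, ?_⟩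
  · intro i hi
    rw [hX]
    exact hb1 (mem_insert_of_mem _ ⟨i, hi, rfl⟩)
  · have := LinearIndepOn.comp_of_image hX1 (Option.some_injective _).injOn
    rwa [hWc] at this
  · have hs : ⊤ ≤ Submodule.span F4 (Set.range fun x : b => W x) := by
      rw [← hspan, Set.image_eq_range]
    have h1 := Module.finrank_eq_nat_card_basis (Module.Basis.mk hb3.linearIndependent hs)
    rw [Module.finrank_fin_fun] at h1
    have h2 : Nat.card b = b.ncard := rfl
    rw [h2, hbX, Set.ncard_insert_of_notMem (hn X) (Set.toFinite _),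
      Set.ncard_image_of_injective _ (Option.some_injective _)] at h1
    exact h1.symm
  · rw [← hWi, ← hbX]
    exact hspan

/-- BC7. All hyperplanes are in `A1` or `A0`, and `A1` is the set of the hyperplanes which contain
`p = P_j`. Then `M` is given by `p`. `→`: extend `insert v (ι '' I)` to a base `insert v (ι '' X)`,
`X ⊇ I` independent of size `r - 1`, `h = code X`; `v ∉ cl (hyp h)`, so `h ∉ A1`, so `φ_h p ≠ 0`, but
`φ_h = 0` on `X ⊇ I`. `←`: `p ∉ span (V '' I)`: extend `I` by points to `X` (size `r - 1`, independent) with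
`p ∉ span (V '' X)` (extend `I ∪ {p}` to a basis of the space by points: the points span, `base_iff`),
`h = code X`, `φ_h p ≠ 0`, `h ∈ A0`, `v ∉ cl (hyp h) ⊇ cl (ι '' I)`. -/
theorem BC7 (hT : Tab D) (hM : LabM D M v ι) (hex : ∃ m < 2 ^ D.V.length,
    popc D.V.length m = D.r - 1 ∧ D.code m ≠ 127) {A1 A0 : ℕ} (hC : Cons D M v ι A1 A0)
    (hA : A1 ||| A0 = 2 ^ D.F.length - 1) {j : ℕ} (hj : j < D.sl.length)
    (h1 : A1 = D.sl.getD j 0) :
    ∀ I : Set (Fin D.V.length), M.Indep (insert v (ι '' I)) ↔
      LinearIndepOn F4 (vecL D.r D.V) I ∧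
        (fun s : Fin D.r => (D.P.getD j []).getD s F4.o) ∉
          Submodule.span F4 (vecL D.r D.V '' I) := by
  intro I
  have hr1 := hT.r1
  have hfin := hM.fin
  obtain ⟨p, hp⟩ : ∃ p : Fin D.r → F4, p = fun s : Fin D.r => (D.P.getD j []).getD s F4.o :=
    ⟨_, rfl⟩
  rw [← hp]
  -- the code of an independent set of `r - 1` points
  have hcode : ∀ X : Set (Fin D.V.length), LinearIndepOn F4 (vecL D.r D.V) X →
      X.ncard + 1 = D.r → ∃ h < D.F.length, M.closure (ι '' X) =
        M.closure (ι '' bits D.V.length (D.hyp h)) ∧ X ⊆ bits D.V.length (D.hyp h) := by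
    intro X hX hXc
    obtain ⟨m, hm, hmX⟩ := K1_exists_bits D.V.length X
    have hpop : popc D.V.length m = D.r - 1 := by
      rw [← bits_ncard hm, hmX]
      omega
    have hne : D.code m ≠ 127 := by
      intro h
      apply hT.dep m hm hpop h
      rw [hmX]
      exact hX
    obtain ⟨a1, a2, -⟩ := hT.ind m hm hpop hne
    have a3 := hyp_closure hT hM hm hpop hne
    rw [hmX] at a2 a3
    exact ⟨D.code m, a1, a3, a2⟩
  have hvE : v ∈ M.E := by rw [hM.gr]; exact mem_insert _ _
  have hnv : ∀ X : Set (Fin D.V.length), v ∉ ι '' X := fun X hX =>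
    hM.nv (image_subset_range ι X hX)
  constructor
  · intro hI
    have hI1 : LinearIndepOn F4 (vecL D.r D.V) I :=
      (hM.ind I).mp (hI.subset (subset_insert _ _))
    refine ⟨hI1, fun hpI => ?_⟩
    obtain ⟨B, hB, hIB⟩ := hI.exists_isBase_superset
    obtain ⟨hBi, hBc⟩ := (base_iff hT hM hex B).mp hB
    obtain ⟨X, hX⟩ : ∃ X : Set (Fin D.V.length), X = ι ⁻¹' B := ⟨_, rfl⟩
    have hBX : B = insert v (ι '' X) := by
      ext x
      constructor
      · intro hx
        have hxE := hB.subset_ground hx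
        rw [hM.gr] at hxE
        rcases hxE with rfl | ⟨i, rfl⟩
        · exact mem_insert _ _
        · exact mem_insert_of_mem _ ⟨i, by rw [hX]; exact hx, rfl⟩
      · rintro (rfl | ⟨i, hi, rfl⟩)
        · exact hIB (mem_insert _ _)
        · rw [hX] at hi
          exact hi
    have hXc : X.ncard + 1 = D.r := by
      rw [hBX, Set.ncard_insert_of_notMem (hnv X) (Set.toFinite _),
        Set.ncard_image_of_injective _ hM.inj] at hBc
      exact hBc
    have hXi : LinearIndepOn F4 (vecL D.r D.V) X := by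
      rw [← hM.ind X]
      rw [hBX] at hBi
      exact hBi.subset (subset_insert _ _)
    obtain ⟨h, hh, hcl, hsub⟩ := hcode X hXi hXc
    have hvX : v ∉ M.closure (ι '' X) := by
      rw [hBX] at hBi
      have := hBi.notMem_closure_sdiff_of_mem (mem_insert v _)
      rwa [insert_sdiff_self_of_notMem (hnv X)] at this
    rw [hcl, BC7_hyp hC hA hh, h1] at hvX
    obtain ⟨φ, hφ1, -, hφ3⟩ := hT.fn h hh
    apply hvX
    rw [hφ3 j hj, ← hp]
    have hle : Submodule.span F4 (vecL D.r D.V '' I) ≤ LinearMap.ker φ := by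
      rw [Submodule.span_le]
      rintro _ ⟨i, hi, rfl⟩
      rw [SetLike.mem_coe, LinearMap.mem_ker, hφ1 i]
      apply hsub
      rw [hX]
      exact hIB (mem_insert_of_mem _ ⟨i, hi, rfl⟩)
    exact hle hpI
  · rintro ⟨hI, hpI⟩
    -- the points span
    have hsp : Submodule.span F4 (range (vecL D.r D.V)) = ⊤ := by
      have hspan : M.Spanning (range ι) := by
        have hsub : range ι ⊆ M.E := by rw [hM.gr]; exact subset_insert _ _
        rw [Matroid.spanning_iff_ground_subset_closure hsub]
        rw [hM.gr]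
        rintro x (rfl | hx)
        · exact hM.cl
        · exact M.subset_closure (range ι) hsub hx
      obtain ⟨B, hB, hBs⟩ := hspan.exists_isBase_subset
      obtain ⟨hBi, hBc⟩ := (base_iff hT hM hex B).mp hB
      obtain ⟨Z, rfl⟩ := Set.subset_range_iff_exists_image_eq.mp hBs
      have hZ : LinearIndepOn F4 (vecL D.r D.V) Z := (hM.ind Z).mp hBi
      rw [Set.ncard_image_of_injective _ hM.inj] at hBc
      classical
      haveI : Fintype Z := Fintype.ofFinite Z
      have hZs := LinearIndependent.span_eq_top_of_card_eq_finrank' hZ.linearIndependent (by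
        rw [Module.finrank_fin_fun, ← Nat.card_eq_fintype_card]
        exact hBc)
      rw [eq_top_iff, ← hZs]
      apply Submodule.span_mono
      rintro _ ⟨x, rfl⟩
      exact ⟨x, rfl⟩
    obtain ⟨X, hIX, hXi, hXc, hXs⟩ := BC7_ext (vecL D.r D.V) hsp hI hpI
    obtain ⟨h, hh, hcl, hsub⟩ := hcode X hXi hXc
    obtain ⟨φ, hφ1, ⟨i0, hφ2⟩, hφ3⟩ := hT.fn h hh
    have hφp : φ p ≠ 0 := by
      intro h0
      have hle : (⊤ : Submodule F4 (Fin D.r → F4)) ≤ LinearMap.ker φ := by
        rw [← hXs, Submodule.span_le]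
        rintro _ (rfl | ⟨i, hi, rfl⟩)
        · exact h0
        · rw [SetLike.mem_coe, LinearMap.mem_ker, hφ1 i]
          exact hsub hi
      exact hφ2 (hle Submodule.mem_top)
    have hvX : v ∉ M.closure (ι '' X) := by
      rw [hcl, BC7_hyp hC hA hh, h1, hφ3 j hj, ← hp]
      exact hφp
    have hii : M.Indep (ι '' I) := (hM.ind I).mpr hI
    rw [hii.insert_indep_iff_of_notMem (hnv I)]
    exact ⟨hvE, fun h => hvX (M.closure_subset_closure (image_mono hIX) h)⟩

end QG
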