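import Pool.Agent.Lib.QG.BC1
import Pool.Agent.Lib.QG.BC5
import Pool.Agent.Lib.QG.BC6
import Pool.Agent.Lib.QG.BC7

/-! MP_2e6874_co, part (B): soundness of the checker. -/

set_option autoImplicit false

namespace QG
open Set Matroid

theorem TTab_eq (ty : ℕ) : TTab ty = TL ty := by
  rcases ty with _ | _ | _ | _ | _ | _ | _ | _ | _ | _ | _ | ty
  all_goals first | decide +kernel | skip
  change TTab 11 = TL 11
  decide +kernel

variable {α : Type} {D : Dat} {M : Matroid α} {v : α} {ι : Fin D.V.length → α}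

private theorem two_bits {o : ℕ} (h : o &&& (o - 1) ≠ 0) :
    ∃ i j, i ≠ j ∧ o.testBit i = true ∧ o.testBit j = true := by
  by_contra hcon
  push Not at hcon
  have ho : o ≠ 0 := by rintro rfl; exact h (by simp)
  obtain ⟨i, hi⟩ := Nat.exists_testBit_of_ne_zero ho
  have h1 : o = 2 ^ i := by
    apply Nat.eq_of_testBit_eq
    intro j
    rw [Nat.testBit_two_pow]
    by_cases hj : i = j
    · subst hj; simp [hi]
    · simp only [hj, decide_false]
      have := hcon i j hj hi
      simpa using this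
  apply h
  rw [h1]
  apply Nat.eq_of_testBit_eq
  intro j
  rw [Nat.testBit_and, Nat.testBit_two_pow, Nat.testBit_two_pow_sub_one]
  by_cases hj : i = j
  · subst hj; simp
  · simp [hj]

private theorem one_bit {o : ℕ} (h : o &&& (o - 1) = 0) {i j : ℕ} (hi : o.testBit i = true)
    (hj : o.testBit j = true) : i = j := by
  by_contra hne
  -- the largest element x of i, j: o has bit x and some lower bit, so o - 1 has bit x
  wlog hlt : i < j generalizing i j
  · exact this hj hi (fun h => hne h.symm) (by omega)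
  have h1 : (o - 1).testBit j = true := by
    have h2 : 2 ^ i ≤ o % 2 ^ j := by
      apply Nat.ge_two_pow_of_testBit (i := i)
      rw [Nat.testBit_mod_two_pow]
      simp [hlt, hi]
    have h3 : 0 < o % 2 ^ j := lt_of_lt_of_le (Nat.two_pow_pos i) h2
    have h4 : (o - 1) / 2 ^ j = o / 2 ^ j := by
      have h5 := Nat.div_add_mod o (2 ^ j)
      have h6 : o - 1 = 2 ^ j * (o / 2 ^ j) + (o % 2 ^ j - 1) := by omega
      have h8 : (o % 2 ^ j - 1) / 2 ^ j = 0 := Nat.div_eq_of_lt (by
        have := Nat.mod_lt o (Nat.two_pow_pos j)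
        omega)
      rw [h6, Nat.mul_add_div (Nat.two_pow_pos j), h8, add_zero]
    rw [Nat.testBit_eq_decide_div_mod_eq, h4, ← Nat.testBit_eq_decide_div_mod_eq]
    exact hj
  have h7 : (o &&& (o - 1)).testBit j = true := by
    rw [Nat.testBit_and, hj, h1]; rfl
  rw [h] at h7
  simp at h7

/-- the conclusion of `LExt` for one matroid -/
private def Concl (D : Dat) (M : Matroid α) (v : α) (ι : Fin D.V.length → α) : Prop :=
  ∃ p ∈ vecP D.r D.P, ∀ I : Set (Fin D.V.length), M.Indep (insert v (ι '' I)) ↔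
    LinearIndepOn F4 (vecL D.r D.V) I ∧ p ∉ Submodule.span F4 (vecL D.r D.V '' I)

private theorem ckT_sound (hT : Tab D) (hM : LabM D M v ι) (hex : ∃ m < 2 ^ D.V.length,
    popc D.V.length m = D.r - 1 ∧ D.code m ≠ 127) (t : Tr) : ∀ A1 A0 : ℕ,
    Cons D M v ι A1 A0 → D.ckT TTab t A1 A0 = true → Concl D M v ι := by
  induction t with
  | br h t1 t0 ih1 ih0 =>
    intro A1 A0 hC hc
    simp only [Dat.ckT, Bool.and_eq_true, decide_eq_true_eq] at hc
    obtain ⟨⟨hh, h1⟩, h0⟩ := hc
    by_cases hv : v ∈ M.closure (ι '' bits D.V.length (D.hyp h))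
    · refine ih1 _ _ ⟨?_, hC.2⟩ h1
      intro k hk
      rw [Nat.testBit_or, Bool.or_eq_true, Nat.testBit_two_pow, decide_eq_true_eq] at hk
      rcases hk with hk | rfl
      · exact hC.1 k hk
      · exact ⟨hh, hv⟩
    · refine ih0 _ _ ⟨hC.1, ?_⟩ h0
      intro k hk
      rw [Nat.testBit_or, Bool.or_eq_true, Nat.testBit_two_pow, decide_eq_true_eq] at hk
      rcases hk with hk | rfl
      · exact hC.2 k hk
      · exact ⟨hh, hv⟩
  | col k t ih =>
    intro A1 A0 hC hc
    simp only [Dat.ckT] at hc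
    set q := D.cl.getD k (0, 0, 0) with hq
    by_cases hk : k < D.cl.length
    · have hqm : q ∈ D.cl := by
        rw [hq, List.getD_eq_getElem _ _ hk]
        exact List.getElem_mem hk
      have hL : ∀ h, q.2.2.testBit h = true → h < D.F.length :=
        fun h hh => ((hT.cl q hqm).2.2.2.2 h hh).1
      split_ifs at hc with c1 c2 c3
      · refine ih _ _ ⟨?_, hC.2⟩ hc
        intro h hh
        rw [Nat.testBit_or, Bool.or_eq_true] at hh
        rcases hh with hh | hh
        · exact hC.1 h hh
        · refine ⟨hL h hh, ?_⟩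
          obtain ⟨i, j, hij, hi, hj⟩ := two_bits c2
          rw [Nat.testBit_and, Bool.and_eq_true] at hi hj
          exact BC6 hT hM hqm hi.2 hj.2 hh
            (fun he => hij (hT.hinj i (hL i hi.2) j (hL j hj.2) he))
            (hC.1 i hi.1).2 (hC.1 j hj.1).2
      · refine ih _ _ ⟨hC.1, ?_⟩ hc
        intro h hh
        rw [Nat.testBit_or, Bool.or_eq_true, Nat.testBit_xor] at hh
        rcases hh with hh | hh
        · exact hC.2 h hh
        · rw [not_not] at c2
          obtain ⟨i, hi⟩ := Nat.exists_testBit_of_ne_zero c1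
          obtain ⟨j, hj⟩ := Nat.exists_testBit_of_ne_zero c3
          have hi' := hi
          rw [Nat.testBit_and, Bool.and_eq_true] at hi' hj
          have hhL : q.2.2.testBit h = true := by
            by_contra hcon
            rw [Bool.not_eq_true] at hcon
            rw [hcon, Nat.testBit_and, hcon] at hh
            simp at hh
          have hne : h ≠ i := by
            rintro rfl
            rw [hhL, hi] at hh
            simp at hh
          refine ⟨hL h hhL, fun hv => ?_⟩
          refine (hC.2 j hj.1).2 (BC6 hT hM hqm hi'.2 hhL hj.2 ?_ (hC.1 i hi'.1).2 hv)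
          intro he
          exact hne (hT.hinj i (hL i hi'.2) h (hL h hhL) he).symm
    · have : q = (0, 0, 0) := by rw [hq, List.getD_eq_default _ _ (by omega)]
      rw [this] at hc
      simp at hc
  | cx =>
    intro A1 A0 hC hc
    simp only [Dat.ckT, bne_iff_ne, ne_eq] at hc
    obtain ⟨i, hi⟩ := Nat.exists_testBit_of_ne_zero hc
    rw [Nat.testBit_and, Bool.and_eq_true] at hi
    exact absurd (hC.1 i hi.1).2 (hC.2 i hi.2).2
  | bad ty C g =>
    intro A1 A0 hC hc
    simp only [Dat.ckT] at hc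
    rw [TTab_eq] at hc
    exact (BC5 hT hM hex hC hc).elim
  | sol j =>
    intro A1 A0 hC hc
    simp only [Dat.ckT, Bool.and_eq_true, decide_eq_true_eq, beq_iff_eq] at hc
    obtain ⟨⟨hj, hA⟩, h1⟩ := hc
    refine ⟨fun s : Fin D.r => (D.P.getD j []).getD s F4.o, ?_, BC7 hT hM hex hC hA hj h1⟩
    have hj' : j < D.P.length := by rw [← hT.sl]; exact hj
    rw [vecP, List.mem_map]
    refine ⟨D.P[j], List.getElem_mem hj', ?_⟩
    funext s
    rw [List.getD_eq_getElem _ _ hj']

theorem lext_of_chk' (D : Dat) (h1 : D.ckD = true) (h2 : D.ckT TTab D.t 0 0 = true)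
    (hne : D.cl ≠ []) :
    LExt D.r D.V.length (vecL D.r D.V) (vecP D.r D.P) := by
  intro α M v ι hf hG hinj hnv hE hcl hind
  have hT := BC1 D h1
  have hM : LabM D M v ι := ⟨hf, hG, hinj, hnv, hE, hcl, hind⟩
  have hex : ∃ m < 2 ^ D.V.length, popc D.V.length m = D.r - 1 ∧ D.code m ≠ 127 := by
    obtain ⟨q, Q, hq⟩ := List.exists_cons_of_ne_nil hne
    have := hT.cl q (by rw [hq]; simp)
    exact ⟨q.1, this.2.1, this.2.2.1, this.1⟩
  exact ckT_sound hT hM hex D.t 0 0 ⟨fun h hh => by simp at hh, fun h hh => by simp at hh⟩ h2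

theorem lext_of_chk (D : Dat) (h : D.ck = true) (hne : D.cl ≠ []) :
    LExt D.r D.V.length (vecL D.r D.V) (vecP D.r D.P) := by
  rw [Dat.ck, Bool.and_eq_true] at h
  exact lext_of_chk' D h.1 h.2 hne

end QG
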