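import Pool.Agent.Lib.QG.BC8

/-! MP_2e6874_co, part (B): data for de00_1111. -/

set_option autoImplicit false
set_option maxRecDepth 100000

namespace QG

def B_de00_1111_t : Tr :=
  .br 0 (.br 1 (.col 5 (.br 5 (.col 3 (.col 4 (.col 9 (.col 13 (.br 15 (.col 0 (.col 1 (.col 2 (.col 7 (.col 8 (.col 10 (.col 12 (.col 14 (.col 15 (.col 16 (.col 19 (.col 20 (.sol 9)))))))))))))
  (.col 0 (.col 1 (.col 2 (.col 7 (.col 8 (.col 10 (.col 12 (.col 14 (.col 15 (.col 16 (.col 19 (.col 20 (.sol 3))))))))))))))))))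
  (.col 3 (.col 4 (.col 9 (.col 13 (.br 19 (.col 0 (.col 1 (.col 2 (.col 8 (.col 10 (.col 12 (.col 14 (.br 37 (.col 27 (.bad 4 16 [8, 2, 3, 6, 7, 0]))
  (.bad 0 160 [8, 0, 2, 3, 4, 6])))))))))
  (.br 20 (.col 19 (.col 27 (.col 1 (.col 15 (.col 21 (.bad 0 3 [8, 2, 3, 5, 6, 7]))))))
  (.col 27 (.br 21 (.col 14 (.col 25 (.col 26 (.col 8 (.col 12 (.col 1 (.br 36 (.col 15 (.br 34 (.bad 4 128 [8, 0, 1, 4, 5, 3])
  (.bad 0 3 [8, 2, 3, 5, 6, 7])))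
  (.bad 0 96 [8, 0, 2, 3, 4, 7]))))))))
  (.br 15 (.col 0 (.col 1 (.col 2 (.col 7 (.col 8 (.col 10 (.col 12 (.col 14 (.sol 2)))))))))
  (.col 1 (.col 2 (.col 12 (.br 23 (.col 10 (.col 21 (.br 27 (.col 16 (.br 28 (.bad 4 64 [8, 0, 1, 4, 5, 2])
  (.bad 0 96 [8, 0, 2, 3, 4, 7])))
  (.bad 0 3 [8, 2, 3, 5, 6, 7]))))
  (.bad 0 160 [8, 0, 2, 3, 4, 6]))))))))))))))))
  (.col 5 (.br 7 (.col 3 (.col 4 (.col 9 (.br 11 (.bad 4 8 [8, 1, 2, 5, 6, 7])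
  (.bad 0 40 [8, 0, 2, 4, 6, 7])))))
  (.br 8 (.col 9 (.col 18 (.col 4 (.br 10 (.bad 9 8 [8, 0, 5, 4, 6, 1, 2, 7])
  (.bad 0 40 [8, 0, 2, 4, 6, 7])))))
  (.br 5 (.col 3 (.col 4 (.col 9 (.col 13 (.br 17 (.col 1 (.col 2 (.col 6 (.col 7 (.col 8 (.br 26 (.col 26 (.bad 4 16 [8, 1, 3, 5, 7, 0]))
  (.bad 0 132 [8, 0, 1, 4, 5, 6])))))))
  (.br 18 (.col 8 (.col 23 (.col 25 (.col 26 (.col 2 (.col 16 (.br 30 (.bad 4 128 [8, 0, 6, 4, 2, 3])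
  (.bad 0 192 [8, 0, 1, 3, 4, 5]))))))))
  (.br 15 (.col 0 (.col 1 (.col 2 (.col 7 (.col 8 (.col 10 (.col 12 (.col 14 (.col 15 (.col 16 (.col 19 (.col 20 (.sol 1)))))))))))))
  (.col 0 (.col 2 (.br 33 (.col 12 (.col 14 (.col 26 (.br 36 (.bad 4 32 [8, 0, 6, 4, 2, 1])
  (.bad 0 96 [8, 0, 2, 3, 4, 7])))))
  (.bad 0 20 [8, 1, 3, 5, 6, 7])))))))))))
  (.col 4 (.br 14 (.col 13 (.br 13 (.bad 9 8 [8, 0, 6, 4, 5, 2, 1, 7])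
  (.bad 0 72 [8, 0, 1, 4, 5, 7])))
  (.bad 0 24 [8, 1, 2, 5, 6, 7]))))))))
  (.br 1 (.col 5 (.br 6 (.col 4 (.col 13 (.col 24 (.col 3 (.br 8 (.bad 4 8 [8, 0, 2, 4, 6, 7])
  (.bad 0 24 [8, 1, 2, 5, 6, 7]))))))
  (.br 8 (.col 9 (.col 18 (.col 3 (.bad 0 40 [8, 0, 2, 4, 6, 7]))))
  (.br 9 (.col 4 (.col 9 (.col 3 (.br 11 (.bad 9 8 [8, 0, 2, 4, 1, 6, 5, 7])
  (.bad 0 40 [8, 0, 2, 4, 6, 7])))))
  (.br 5 (.col 3 (.col 4 (.col 9 (.col 13 (.br 16 (.col 2 (.col 11 (.col 12 (.col 17 (.col 0 (.br 18 (.col 25 (.bad 4 2 [8, 0, 3, 4, 7, 5]))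
  (.bad 0 20 [8, 1, 3, 5, 6, 7])))))))
  (.br 18 (.col 8 (.col 15 (.col 25 (.col 26 (.col 14 (.bad 0 96 [8, 0, 2, 3, 4, 7]))))))
  (.col 25 (.br 24 (.col 2 (.col 7 (.col 8 (.col 10 (.col 15 (.col 21 (.br 26 (.col 26 (.br 29 (.bad 4 128 [8, 1, 6, 5, 2, 3])
  (.bad 0 192 [8, 0, 1, 3, 4, 5])))
  (.bad 0 132 [8, 0, 1, 4, 5, 6]))))))))
  (.br 15 (.col 0 (.col 1 (.col 2 (.col 7 (.col 8 (.col 10 (.col 12 (.col 14 (.col 15 (.col 16 (.col 20 (.sol 0))))))))))))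
  (.col 0 (.col 1 (.br 33 (.col 12 (.col 14 (.br 31 (.col 22 (.br 35 (.bad 4 16 [8, 1, 6, 5, 2, 0])
  (.bad 0 66 [8, 0, 3, 4, 5, 7])))
  (.bad 0 132 [8, 0, 1, 4, 5, 6]))))
  (.bad 0 20 [8, 1, 3, 5, 6, 7])))))))))))))
  (.col 3 (.br 14 (.col 13 (.br 12 (.bad 9 8 [8, 0, 2, 4, 5, 6, 1, 7])
  (.bad 0 72 [8, 0, 1, 4, 5, 7])))
  (.bad 0 24 [8, 1, 2, 5, 6, 7]))))))))
  (.br 5 (.col 3 (.col 4 (.br 14 (.bad 4 8 [8, 0, 1, 4, 5, 7])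
  (.br 2 (.col 5 (.col 18 (.bad 0 40 [8, 0, 2, 4, 6, 7])))
  (.br 3 (.col 5 (.col 9 (.br 11 (.bad 9 8 [8, 0, 1, 4, 2, 5, 6, 7])
  (.bad 0 40 [8, 0, 2, 4, 6, 7]))))
  (.br 4 (.col 13 (.br 8 (.bad 9 8 [8, 0, 1, 4, 6, 5, 2, 7])
  (.bad 0 24 [8, 1, 2, 5, 6, 7])))
  (.bad 0 12 [8, 0, 1, 4, 5, 7])))))))
  (.br 15 (.col 0 (.col 1 (.col 2 (.br 35 (.bad 4 2 [8, 0, 2, 4, 6, 5])
  (.br 36 (.bad 4 1 [8, 1, 2, 5, 6, 4])
  (.br 33 (.bad 4 4 [8, 0, 1, 4, 5, 6])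
  (.br 28 (.bad 6 0 [8, 0, 4, 6, 1, 2, 5])
  (.bad 2 256 [0, 1, 2, 4, 5, 6]))))))))
  (.br 2 (.col 5 (.br 9 (.col 4 (.col 9 (.col 18 (.br 10 (.bad 4 8 [8, 0, 5, 4, 1, 7])
  (.bad 0 40 [8, 0, 2, 4, 6, 7])))))
  (.br 10 (.col 3 (.col 13 (.col 18 (.bad 0 24 [8, 1, 2, 5, 6, 7]))))
  (.br 14 (.col 9 (.col 18 (.bad 0 9 [8, 1, 2, 5, 6, 7])))
  (.br 24 (.col 2 (.col 8 (.col 23 (.br 25 (.bad 4 4 [8, 0, 5, 4, 1, 6])
  (.bad 0 36 [8, 0, 3, 4, 6, 7])))))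
  (.br 25 (.col 1 (.col 12 (.col 23 (.bad 0 20 [8, 1, 3, 5, 6, 7]))))
  (.br 33 (.col 8 (.col 23 (.bad 0 5 [8, 1, 3, 5, 6, 7])))
  (.br 6 (.col 4 (.col 13 (.col 18 (.col 24 (.br 27 (.col 0 (.col 6 (.col 16 (.col 22 (.col 23 (.bad 0 20 [8, 1, 3, 5, 6, 7]))))))
  (.br 28 (.col 14 (.col 26 (.col 21 (.bad 0 3 [8, 2, 3, 5, 6, 7]))))
  (.br 35 (.col 7 (.col 22 (.bad 0 3 [8, 2, 3, 5, 6, 7])))
  (.br 36 (.col 10 (.col 21 (.bad 0 3 [8, 2, 3, 5, 6, 7])))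
  (.br 16 (.col 2 (.col 11 (.col 12 (.col 14 (.col 16 (.col 17 (.col 19 (.col 20 (.col 22 (.col 23 (.col 26 (.col 27 (.sol 8)))))))))))))
  (.col 11 (.col 17 (.br 34 (.col 21 (.col 22 (.col 23 (.col 25 (.col 26 (.sol 7))))))
  (.bad 0 3 [8, 2, 3, 5, 6, 7])))))))))))))
  (.col 24 (.br 11 (.col 18 (.br 16 (.col 2 (.col 11 (.col 12 (.col 16 (.col 17 (.col 19 (.col 20 (.col 22 (.col 23 (.col 25 (.col 26 (.col 27 (.sol 6)))))))))))))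
  (.col 17 (.col 19 (.br 18 (.bad 4 16 [8, 2, 7, 6, 3, 0])
  (.bad 0 20 [8, 1, 3, 5, 6, 7]))))))
  (.bad 0 40 [8, 0, 2, 4, 6, 7])))))))))))
  (.br 12 (.col 4 (.col 18 (.br 4 (.bad 4 8 [8, 1, 6, 5, 2, 7])
  (.br 3 (.col 9 (.br 10 (.bad 9 8 [8, 0, 5, 4, 2, 1, 6, 7])
  (.bad 0 40 [8, 0, 2, 4, 6, 7])))
  (.bad 0 12 [8, 0, 1, 4, 5, 7])))))
  (.br 13 (.col 3 (.col 18 (.br 3 (.bad 4 8 [8, 0, 6, 4, 2, 7])
  (.br 4 (.col 13 (.br 9 (.bad 9 8 [8, 0, 6, 4, 1, 2, 5, 7])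
  (.bad 0 24 [8, 1, 2, 5, 6, 7])))
  (.bad 0 12 [8, 0, 1, 4, 5, 7])))))
  (.br 27 (.col 0 (.col 15 (.col 16 (.br 24 (.bad 4 2 [8, 0, 6, 4, 2, 5])
  (.br 31 (.col 22 (.col 23 (.br 25 (.col 10 (.col 12 (.br 3 (.br 7 (.col 9 (.col 19 (.br 37 (.bad 4 128 [8, 1, 2, 5, 6, 3])
  (.bad 0 192 [8, 0, 1, 3, 4, 5]))))
  (.bad 0 129 [8, 1, 2, 4, 5, 6]))
  (.bad 0 20 [8, 1, 3, 5, 6, 7]))))
  (.bad 0 5 [8, 1, 3, 5, 6, 7]))))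
  (.bad 0 6 [8, 0, 3, 4, 6, 7]))))))
  (.br 29 (.col 16 (.col 27 (.br 11 (.bad 4 64 [8, 1, 7, 5, 3, 2])
  (.br 8 (.col 19 (.bad 1 0 [8, 0, 1, 2, 3, 6]))
  (.bad 0 72 [8, 0, 1, 4, 5, 7])))))
  (.br 19 (.col 0 (.br 30 (.col 15 (.col 21 (.col 10 (.bad 0 5 [8, 1, 3, 5, 6, 7]))))
  (.br 31 (.col 2 (.col 7 (.bad 0 66 [8, 0, 3, 4, 5, 7])))
  (.br 32 (.col 1 (.col 10 (.bad 0 65 [8, 1, 3, 4, 5, 7])))
  (.br 6 (.col 4 (.col 7 (.col 11 (.col 17 (.col 24 (.br 36 (.col 10 (.col 12 (.col 13 (.col 14 (.col 18 (.col 19 (.col 20 (.col 23 (.col 5 (.sol 5))))))))))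
  (.bad 0 65 [8, 1, 3, 4, 5, 7])))))))
  (.col 11 (.br 35 (.col 7 (.br 7 (.col 3 (.col 6 (.col 8 (.col 9 (.col 10 (.col 12 (.col 13 (.col 14 (.col 19 (.col 20 (.sol 4)))))))))))
  (.bad 2 8 [2, 6, 7, 8, 0, 1])))
  (.bad 0 66 [8, 0, 3, 4, 5, 7]))))))))
  (.br 34 (.col 22 (.br 9 (.bad 4 2 [8, 0, 7, 4, 3, 5])
  (.bad 0 10 [8, 0, 2, 4, 6, 7])))
  (.bad 0 3 [8, 2, 3, 5, 6, 7])))))))))))

def B_de00_1111 : Dat where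
  r := 4
  V := [[.i, .o, .o, .o],
    [.o, .i, .o, .o],
    [.o, .o, .i, .o],
    [.o, .o, .o, .i],
    [.v, .w, .w, .w],
    [.w, .v, .w, .w],
    [.w, .w, .v, .w],
    [.w, .w, .w, .v]]
  P := [[.i, .o, .o, .o],
    [.o, .i, .o, .o],
    [.o, .o, .i, .o],
    [.o, .o, .o, .i],
    [.v, .w, .w, .w],
    [.w, .v, .w, .w],
    [.w, .w, .v, .w],
    [.w, .w, .w, .v],
    [.i, .i, .i, .i],
    [.o, .o, .o, .o]]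
  F := [[.i, .o, .o, .o],
    [.o, .i, .o, .o],
    [.i, .i, .o, .o],
    [.i, .w, .o, .o],
    [.i, .v, .o, .o],
    [.o, .o, .i, .o],
    [.i, .o, .i, .o],
    [.o, .i, .i, .o],
    [.i, .v, .i, .o],
    [.i, .o, .w, .o],
    [.o, .i, .w, .o],
    [.i, .w, .w, .o],
    [.i, .o, .v, .o],
    [.o, .i, .v, .o],
    [.i, .i, .v, .o],
    [.o, .o, .o, .i],
    [.i, .o, .o, .i],
    [.o, .i, .o, .i],
    [.i, .v, .o, .i],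
    [.o, .o, .i, .i],
    [.i, .w, .i, .i],
    [.i, .i, .w, .i],
    [.i, .o, .v, .i],
    [.o, .i, .v, .i],
    [.i, .o, .o, .w],
    [.o, .i, .o, .w],
    [.i, .w, .o, .w],
    [.o, .o, .i, .w],
    [.i, .i, .i, .w],
    [.i, .o, .w, .w],
    [.o, .i, .w, .w],
    [.i, .o, .o, .v],
    [.o, .i, .o, .v],
    [.i, .i, .o, .v],
    [.o, .o, .i, .v],
    [.i, .o, .i, .v],
    [.o, .i, .i, .v],
    [.i, .v, .v, .v]]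
  ht := 0xe000610052008300340085008600c100c20070004300a40025001600a1009200b000d00033009400550066000700380049004a00680029001a0058009900aa000b002c001c00cc000d000e
  ct := 0x2500000000000000000000000000140000000000000200000020074f00000000000000000000000000001500000000000006000001a0018b80000000000000070000012005838000000020018380007d0004400000000000000000000000000000001c0000000000000b00000100041200000000000000080000011008c88000000020030680004088036000000000000000000e0000021004c980000000400185000040c802600000000000300243800060880260000000000800a000001e000000000000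
  cl := [(7, 2, 0x408088020),
    (7, 1, 0x102028002),
    (7, 0, 0x81018001),
    (11, 1, 0x24a2),
    (11, 0, 0x1261),
    (13, 0, 0x1f),
    (19, 1, 0xa0080),
    (19, 0, 0x801480200),
    (21, 0, 0x201060008),
    (25, 0, 0x4388),
    (35, 1, 0x1002880400),
    (35, 0, 0x90040),
    (37, 0, 0x206010010),
    (41, 0, 0x4c50),
    (49, 0, 0x210284000),
    (67, 1, 0x1048022000),
    (67, 0, 0x828011000),
    (69, 0, 0x30004),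
    (73, 0, 0x3904),
    (81, 0, 0x810120100),
    (97, 0, 0x3010010800),
    (131, 1, 0x540800080),
    (131, 0, 0x4a0400040),
    (133, 0, 0x184040004),
    (137, 0, 0xc4),
    (145, 0, 0x740080),
    (161, 0, 0x2004a00040),
    (193, 0, 0x2060100004)]
  sl := [0x154a8aa4a2, 0xca9499261, 0x38707801f, 0x7fff, 0xa117e4388, 0x3216a94c50, 0x3878133904, 0x25e4f400c4, 0xb00c4, 0x3fffffffff]
  t := B_de00_1111_t

theorem B_de00_1111_okD : B_de00_1111.ckD = true := by decide +kernel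

theorem B_de00_1111_okT : B_de00_1111.ckT TTab B_de00_1111.t 0 0 = true := by decide +kernel

theorem lext_de00_1111 : LExt 4 8 (vecL 4 B_de00_1111.V) (vecP 4 B_de00_1111.P) :=
  lext_of_chk' B_de00_1111 B_de00_1111_okD B_de00_1111_okT (by decide)

end QG
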