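import Pool.Agent.Lib.QG.BC8

/-! MP_2e6874_co, part (B): data for de00_211. -/

set_option autoImplicit false
set_option maxRecDepth 100000

namespace QG

def B_de00_211_t : Tr :=
  .br 0 (.br 1 (.col 4 (.br 11 (.col 1 (.col 2 (.col 6 (.col 10 (.br 4 (.col 0 (.col 3 (.col 5 (.col 7 (.col 8 (.col 9 (.col 12 (.col 16 (.col 17 (.col 18 (.sol 9)))))))))))
  (.col 0 (.col 3 (.col 5 (.col 7 (.col 8 (.col 9 (.col 12 (.col 16 (.col 17 (.col 18 (.sol 2))))))))))))))))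
  (.col 1 (.col 2 (.col 6 (.col 10 (.br 4 (.col 0 (.col 3 (.col 5 (.col 7 (.col 8 (.col 9 (.col 12 (.col 16 (.col 17 (.col 18 (.sol 3)))))))))))
  (.col 3 (.col 7 (.col 16 (.br 28 (.bad 4 2 [8, 2, 3, 7, 5, 6])
  (.br 25 (.bad 4 2 [8, 0, 5, 2, 3, 6])
  (.br 18 (.col 5 (.col 12 (.br 20 (.bad 4 64 [8, 2, 3, 7, 4, 0])
  (.bad 0 80 [8, 1, 2, 3, 5, 7]))))
  (.bad 0 34 [8, 0, 2, 4, 6, 7]))))))))))))))
  (.col 4 (.br 6 (.col 7 (.col 11 (.col 3 (.br 8 (.bad 4 8 [8, 1, 2, 6, 7, 5])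
  (.bad 2 8 [8, 1, 2, 4, 6, 7])))))
  (.br 8 (.col 16 (.col 22 (.col 3 (.bad 0 9 [8, 1, 2, 5, 6, 7]))))
  (.br 11 (.col 1 (.col 2 (.col 6 (.col 10 (.col 25 (.br 7 (.col 7 (.col 16 (.col 19 (.col 9 (.br 17 (.bad 4 128 [8, 0, 2, 4, 5, 3])
  (.bad 0 160 [8, 0, 1, 3, 4, 6]))))))
  (.col 13 (.br 4 (.col 0 (.col 3 (.col 5 (.col 7 (.col 8 (.col 9 (.col 12 (.sol 1))))))))
  (.col 3 (.col 5 (.br 22 (.bad 4 64 [8, 0, 1, 4, 5, 3])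
  (.bad 0 96 [8, 0, 2, 3, 4, 7]))))))))))))
  (.col 2 (.br 13 (.bad 4 4 [8, 1, 3, 7, 4, 0])
  (.br 15 (.bad 4 4 [8, 1, 3, 6, 4, 0])
  (.br 14 (.col 10 (.bad 5 4 [3, 8, 1, 0, 5, 4, 7]))
  (.bad 0 20 [8, 1, 3, 5, 6, 7]))))))))))
  (.br 1 (.col 4 (.br 23 (.col 2 (.col 10 (.bad 4 4 [8, 0, 3, 1, 5, 7])))
  (.br 27 (.col 10 (.col 15 (.bad 4 4 [8, 0, 3, 6, 5, 7])))
  (.br 11 (.col 1 (.col 2 (.col 6 (.br 5 (.col 3 (.col 7 (.col 8 (.col 9 (.col 18 (.br 17 (.bad 4 32 [8, 0, 2, 4, 7, 3])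
  (.bad 0 160 [8, 0, 1, 3, 4, 6])))))))
  (.col 14 (.br 4 (.col 0 (.col 3 (.col 5 (.col 7 (.col 8 (.col 9 (.col 12 (.col 16 (.col 17 (.col 18 (.sol 0)))))))))))
  (.col 0 (.col 7 (.col 8 (.br 22 (.bad 4 64 [8, 0, 1, 4, 5, 3])
  (.br 26 (.col 24 (.br 18 (.bad 4 2 [8, 0, 6, 4, 5, 3])
  (.bad 0 34 [8, 0, 2, 4, 6, 7])))
  (.bad 0 96 [8, 0, 2, 3, 4, 7]))))))))))))
  (.col 1 (.br 14 (.col 6 (.br 4 (.col 0 (.col 3 (.col 5 (.col 7 (.col 8 (.col 9 (.col 12 (.col 16 (.col 17 (.col 18 (.sol 4)))))))))))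
  (.col 5 (.col 7 (.col 12 (.col 17 (.br 5 (.bad 4 2 [8, 2, 4, 6, 3, 0])
  (.br 9 (.bad 4 2 [8, 2, 4, 7, 3, 0])
  (.br 8 (.bad 4 128 [8, 2, 4, 6, 3, 0])
  (.br 28 (.col 24 (.bad 2 64 [1, 3, 5, 8, 4, 7]))
  (.bad 2 2 [3, 5, 6, 8, 4, 7])))))))))))
  (.bad 0 36 [8, 0, 1, 4, 6, 7])))))))
  (.br 12 (.col 2 (.col 6 (.br 2 (.bad 4 4 [8, 1, 4, 7, 3, 0])
  (.br 3 (.bad 4 4 [8, 1, 4, 6, 3, 0])
  (.br 27 (.col 10 (.bad 7 4 [1, 0, 6, 7, 8, 4, 3, 5]))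
  (.bad 2 4 [3, 5, 7, 8, 4, 6]))))))
  (.br 4 (.col 3 (.col 5 (.col 7 (.br 11 (.col 0 (.col 1 (.col 2 (.col 8 (.col 9 (.br 22 (.bad 4 64 [8, 0, 1, 4, 5, 3])
  (.br 2 (.col 10 (.col 21 (.col 23 (.col 24 (.bad 0 96 [8, 0, 2, 3, 4, 7])))))
  (.col 21 (.br 14 (.bad 4 4 [8, 0, 7, 4, 5, 3])
  (.br 27 (.col 18 (.br 17 (.bad 4 128 [8, 0, 2, 4, 5, 3])
  (.bad 0 160 [8, 0, 1, 3, 4, 6])))
  (.bad 0 36 [8, 0, 1, 4, 6, 7])))))))))))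
  (.col 0 (.br 28 (.bad 4 2 [8, 0, 3, 7, 5, 6])
  (.br 23 (.bad 4 2 [8, 0, 3, 2, 5, 6])
  (.bad 0 34 [8, 0, 2, 4, 6, 7]))))))))
  (.br 11 (.col 0 (.col 1 (.col 2 (.br 14 (.col 6 (.col 10 (.bad 4 4 [8, 0, 7, 4, 5, 3])))
  (.br 18 (.col 5 (.col 9 (.bad 4 2 [8, 0, 6, 4, 5, 3])))
  (.br 2 (.col 4 (.col 10 (.col 15 (.col 21 (.br 7 (.col 7 (.col 11 (.col 23 (.col 24 (.bad 0 34 [8, 0, 2, 4, 6, 7])))))
  (.col 13 (.br 22 (.col 12 (.col 23 (.bad 0 9 [8, 1, 2, 5, 6, 7])))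
  (.br 5 (.col 3 (.col 9 (.col 11 (.col 12 (.col 14 (.col 16 (.col 17 (.col 18 (.col 20 (.col 22 (.col 24 (.sol 8))))))))))))
  (.col 11 (.col 14 (.br 10 (.col 19 (.col 22 (.col 23 (.col 24 (.sol 7)))))
  (.bad 0 9 [8, 1, 2, 5, 6, 7]))))))))))))
  (.col 21 (.br 27 (.col 15 (.br 5 (.col 3 (.col 9 (.col 11 (.col 14 (.col 16 (.col 17 (.col 18 (.col 20 (.col 22 (.col 23 (.col 24 (.sol 6))))))))))))
  (.col 16 (.br 28 (.col 20 (.bad 4 8 [8, 1, 7, 6, 2, 5]))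
  (.bad 0 34 [8, 0, 2, 4, 6, 7])))))
  (.bad 0 36 [8, 0, 1, 4, 6, 7])))))))))
  (.br 3 (.col 4 (.col 15 (.br 13 (.bad 4 4 [8, 3, 6, 4, 7, 0])
  (.br 14 (.col 10 (.bad 5 4 [3, 8, 6, 0, 5, 4, 7]))
  (.bad 0 20 [8, 1, 3, 5, 6, 7])))))
  (.br 7 (.col 7 (.col 13 (.col 16 (.br 27 (.bad 4 64 [8, 0, 3, 2, 5, 1])
  (.br 26 (.bad 4 64 [8, 0, 3, 7, 5, 1])
  (.br 22 (.col 17 (.col 23 (.br 2 (.bad 4 4 [8, 3, 7, 4, 6, 0])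
  (.br 9 (.bad 4 128 [8, 1, 3, 6, 4, 0])
  (.bad 2 8 [2, 5, 7, 8, 1, 4])))))
  (.bad 0 96 [8, 0, 2, 3, 4, 7])))))))
  (.br 8 (.col 16 (.col 25 (.br 27 (.bad 4 64 [8, 2, 5, 7, 3, 1])
  (.br 19 (.bad 4 64 [8, 0, 5, 7, 3, 1])
  (.br 22 (.col 17 (.bad 5 64 [3, 8, 7, 0, 5, 4, 1]))
  (.bad 0 96 [8, 0, 2, 3, 4, 7]))))))
  (.br 6 (.col 7 (.br 9 (.col 3 (.col 11 (.col 20 (.br 13 (.bad 4 128 [8, 1, 3, 2, 4, 0])
  (.br 20 (.bad 4 128 [8, 1, 3, 6, 4, 0])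
  (.br 17 (.col 12 (.col 17 (.bad 0 320 [0, 1, 2, 3, 4, 7])))
  (.bad 0 144 [8, 1, 2, 3, 5, 6])))))))
  (.br 13 (.col 6 (.col 12 (.col 21 (.col 11 (.br 29 (.bad 4 128 [8, 0, 5, 4, 2, 3])
  (.col 8 (.br 23 (.col 9 (.col 10 (.br 26 (.bad 4 32 [8, 1, 2, 6, 7, 3])
  (.bad 0 160 [8, 0, 1, 3, 4, 6]))))
  (.bad 2 2 [0, 3, 4, 8, 2, 5]))))))))
  (.br 2 (.col 11 (.col 14 (.br 15 (.bad 4 4 [8, 3, 7, 4, 6, 0])
  (.br 14 (.col 10 (.col 12 (.col 17 (.col 18 (.col 23 (.col 24 (.col 8 (.sol 5))))))))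
  (.bad 0 20 [8, 1, 3, 5, 6, 7])))))
  (.col 11 (.br 15 (.col 6 (.col 12 (.col 15 (.col 17 (.br 21 (.col 20 (.br 23 (.col 10 (.col 8 (.br 26 (.bad 4 32 [8, 1, 2, 6, 7, 3])
  (.bad 0 160 [8, 0, 1, 3, 4, 6]))))
  (.bad 2 2 [3, 5, 6, 8, 2, 4])))
  (.bad 0 144 [8, 1, 2, 3, 5, 6]))))))
  (.bad 0 260 [0, 1, 3, 4, 6, 7])))))))
  (.br 10 (.col 19 (.col 22 (.br 28 (.bad 4 128 [8, 0, 3, 1, 5, 2])
  (.br 26 (.bad 4 128 [8, 0, 3, 6, 5, 2])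
  (.br 17 (.col 23 (.col 5 (.br 5 (.bad 4 2 [8, 3, 6, 4, 7, 0])
  (.bad 2 8 [1, 5, 6, 8, 2, 4]))))
  (.bad 0 160 [8, 0, 1, 3, 4, 6]))))))
  (.bad 0 9 [8, 1, 2, 5, 6, 7]))))))))))

def B_de00_211 : Dat where
  r := 4
  V := [[.i, .o, .o, .o],
    [.o, .i, .o, .o],
    [.o, .o, .i, .o],
    [.o, .o, .o, .i],
    [.i, .o, .o, .i],
    [.w, .w, .w, .i],
    [.w, .v, .w, .o],
    [.w, .w, .v, .o]]
  P := [[.i, .o, .o, .o],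
    [.o, .i, .o, .o],
    [.o, .o, .i, .o],
    [.o, .o, .o, .i],
    [.i, .o, .o, .i],
    [.w, .w, .w, .i],
    [.w, .v, .w, .o],
    [.w, .w, .v, .o],
    [.i, .i, .i, .o],
    [.o, .o, .o, .o]]
  F := [[.i, .o, .o, .o],
    [.o, .i, .o, .o],
    [.i, .i, .o, .o],
    [.i, .v, .o, .o],
    [.o, .o, .i, .o],
    [.i, .o, .i, .o],
    [.o, .i, .i, .o],
    [.o, .i, .w, .o],
    [.i, .w, .w, .o],
    [.i, .o, .v, .o],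
    [.o, .i, .v, .o],
    [.o, .o, .o, .i],
    [.i, .o, .o, .i],
    [.i, .i, .o, .i],
    [.i, .w, .o, .i],
    [.i, .v, .o, .i],
    [.i, .o, .i, .i],
    [.i, .v, .i, .i],
    [.i, .o, .w, .i],
    [.o, .i, .w, .i],
    [.i, .w, .w, .i],
    [.i, .o, .v, .i],
    [.i, .i, .v, .i],
    [.i, .o, .o, .w],
    [.o, .i, .o, .w],
    [.o, .o, .i, .w],
    [.i, .w, .w, .w],
    [.i, .v, .o, .v],
    [.i, .o, .v, .v],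
    [.o, .i, .v, .v]]
  ht := 0xa100a2006400e00023002500260070009200d00061003200b00052005400340094001600c70099008a00c800590039006a001b004c00ac001d000e
  ct := 0x1a000000000000000000000000001400000000000008000000b002c58000000000000000000000000000110000000000000200000020070e800000000000000a000000d005450000000020024500002c5801600000000000000000000000000000001600000000000005000001b001498000000000000007000000f004038000000030014380002c580160000000000000000006000000e004830000000020014300005cc00320000000000010013f80003008008000000000080080000016000000000000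
  cl := [(7, 2, 0x2000810),
    (7, 1, 0x1000802),
    (7, 0, 0x801801),
    (11, 0, 0x231),
    (13, 0, 0xf),
    (19, 0, 0x251010),
    (21, 0, 0xf002),
    (26, 1, 0x4d2),
    (35, 1, 0x23080040),
    (35, 0, 0x12840020),
    (37, 0, 0x9804004),
    (41, 0, 0x64),
    (49, 0, 0x464040),
    (67, 1, 0x80880),
    (67, 0, 0x10820),
    (69, 0, 0x8008808),
    (73, 0, 0x1a8),
    (81, 0, 0x518080),
    (97, 0, 0xc480020),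
    (131, 1, 0x20000c00),
    (131, 0, 0x10200a00),
    (133, 0, 0x2804),
    (137, 0, 0x704),
    (145, 0, 0x322400),
    (161, 0, 0x34020004),
    (193, 0, 0x4100900)]
  sl := [0x23080cd2, 0x12a51a31, 0x980f80f, 0x7ff, 0x77f4d2, 0x3fce4064, 0xc5989a8, 0x34322f04, 0x12864, 0x3fffffff]
  t := B_de00_211_t

theorem B_de00_211_okD : B_de00_211.ckD = true := by decide +kernel

theorem B_de00_211_okT : B_de00_211.ckT TTab B_de00_211.t 0 0 = true := by decide +kernel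

theorem lext_de00_211 : LExt 4 8 (vecL 4 B_de00_211.V) (vecP 4 B_de00_211.P) :=
  lext_of_chk' B_de00_211 B_de00_211_okD B_de00_211_okT (by decide)

end QG
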