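import Pool.Agent.Lib.QG.BC8

/-! MP_2e6874_co, part (B): data for de00_2111. -/

set_option autoImplicit false
set_option maxRecDepth 100000

namespace QG

def B_de00_2111_t : Tr :=
  .br 0 (.br 1 (.col 6 (.br 26 (.col 2 (.col 3 (.col 9 (.col 18 (.br 4 (.col 1 (.col 5 (.col 8 (.col 12 (.col 16 (.col 17 (.col 21 (.col 28 (.col 31 (.col 35 (.br 11 (.col 0 (.col 4 (.col 7 (.col 10 (.col 11 (.col 13 (.col 14 (.col 15 (.col 19 (.col 20 (.col 27 (.col 30 (.col 32 (.col 33 (.col 34 (.col 37 (.col 42 (.col 44 (.col 47 (.col 48 (.col 49 (.col 52 (.col 56 (.col 57 (.col 58 (.sol 11))))))))))))))))))))))))))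
  (.col 0 (.col 4 (.col 7 (.col 10 (.col 11 (.col 13 (.col 14 (.col 15 (.col 19 (.col 20 (.col 27 (.col 30 (.col 32 (.col 33 (.col 34 (.col 37 (.col 42 (.col 44 (.col 47 (.col 48 (.col 49 (.col 52 (.col 56 (.col 57 (.col 58 (.sol 3)))))))))))))))))))))))))))))))))))))
  (.col 1 (.col 5 (.col 8 (.col 12 (.col 16 (.col 17 (.col 21 (.col 28 (.col 31 (.col 35 (.br 14 (.col 13 (.col 15 (.col 27 (.col 33 (.col 34 (.col 37 (.br 69 (.col 86 (.bad 4 144 [10, 2, 3, 8, 9, 6]))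
  (.bad 0 704 [10, 0, 2, 4, 5, 8]))))))))
  (.br 15 (.col 32 (.col 68 (.col 74 (.col 78 (.col 84 (.col 85 (.col 11 (.col 14 (.col 15 (.col 59 (.br 42 (.bad 4 576 [10, 0, 7, 5, 1, 4])
  (.bad 0 578 [10, 0, 2, 5, 7, 8]))))))))))))
  (.col 74 (.br 41 (.bad 4 640 [10, 0, 3, 5, 6, 4])
  (.br 11 (.col 0 (.col 4 (.col 7 (.col 10 (.col 11 (.col 13 (.col 14 (.col 15 (.col 19 (.col 20 (.col 27 (.col 30 (.col 32 (.col 33 (.col 34 (.col 37 (.col 42 (.col 44 (.col 47 (.col 48 (.col 49 (.col 52 (.col 56 (.col 57 (.col 58 (.sol 2))))))))))))))))))))))))))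
  (.col 0 (.col 4 (.col 11 (.col 34 (.br 69 (.col 85 (.col 48 (.col 69 (.bad 0 67 [10, 2, 3, 7, 8, 9]))))
  (.bad 0 704 [10, 0, 2, 4, 5, 8]))))))))))))))))))))))))))
  (.col 2 (.col 3 (.col 9 (.col 18 (.br 4 (.col 1 (.col 5 (.col 8 (.col 12 (.col 16 (.col 17 (.col 21 (.col 28 (.col 31 (.col 35 (.br 11 (.col 0 (.col 4 (.col 7 (.col 10 (.col 11 (.col 13 (.col 14 (.col 15 (.col 19 (.col 20 (.col 27 (.col 30 (.col 32 (.col 33 (.col 34 (.col 37 (.col 42 (.col 44 (.col 47 (.col 48 (.col 49 (.col 52 (.col 56 (.col 57 (.col 58 (.sol 4))))))))))))))))))))))))))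
  (.col 4 (.col 10 (.col 11 (.col 32 (.br 45 (.bad 4 5 [10, 3, 5, 7, 6, 8])
  (.br 39 (.bad 4 36 [10, 3, 4, 9, 6, 8])
  (.col 71 (.col 73 (.col 79 (.br 59 (.col 15 (.br 51 (.col 37 (.br 53 (.bad 4 257 [10, 3, 5, 7, 6, 2])
  (.bad 0 448 [10, 0, 3, 4, 5, 9])))
  (.bad 0 100 [10, 1, 3, 7, 8, 9])))
  (.bad 0 69 [10, 1, 3, 7, 8, 9]))))))))))))))))))))))
  (.col 5 (.col 12 (.col 28 (.br 58 (.bad 4 136 [10, 2, 4, 8, 6, 9])
  (.col 50 (.br 34 (.bad 4 9 [10, 2, 5, 7, 6, 9])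
  (.br 37 (.col 21 (.br 57 (.bad 4 9 [10, 1, 6, 2, 5, 9])
  (.bad 0 74 [10, 0, 2, 5, 8, 9])))
  (.bad 0 200 [10, 0, 2, 5, 8, 9])))))))))))))))
  (.col 6 (.br 6 (.col 12 (.col 72 (.col 5 (.br 8 (.bad 4 24 [10, 1, 2, 7, 8, 9])
  (.bad 2 24 [10, 1, 2, 5, 7, 8])))))
  (.br 8 (.col 28 (.col 43 (.col 5 (.bad 0 25 [10, 1, 2, 7, 8, 9]))))
  (.br 13 (.col 11 (.col 51 (.col 4 (.br 17 (.bad 4 20 [10, 1, 3, 7, 9, 8])
  (.bad 2 20 [10, 1, 3, 5, 7, 9])))))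
  (.br 17 (.col 27 (.col 64 (.col 4 (.bad 0 21 [10, 1, 3, 7, 8, 9]))))
  (.br 25 (.col 56 (.col 77 (.col 83 (.col 4 (.col 5 (.bad 5 1040 [6, 1, 7, 8, 3, 2, 9]))))))
  (.br 10 (.col 12 (.col 47 (.col 5 (.br 22 (.bad 4 17 [10, 2, 9, 8, 3, 6])
  (.br 15 (.col 32 (.br 11 (.col 4 (.bad 4 1040 [3, 5, 8, 9, 6, 7]))
  (.bad 0 21 [10, 1, 3, 7, 8, 9])))
  (.bad 2 528 [2, 6, 8, 10, 5, 7]))))))
  (.br 15 (.col 68 (.col 77 (.col 5 (.br 7 (.col 32 (.col 36 (.col 4 (.br 19 (.bad 4 18 [10, 2, 3, 8, 9, 7])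
  (.bad 2 528 [2, 6, 8, 10, 1, 5])))))
  (.bad 0 25 [10, 1, 2, 7, 8, 9])))))
  (.br 4 (.col 5 (.col 12 (.br 16 (.col 11 (.col 27 (.col 32 (.col 42 (.br 20 (.bad 4 1040 [2, 5, 7, 8, 6, 9])
  (.bad 0 273 [10, 1, 3, 6, 7, 9]))))))
  (.br 11 (.col 4 (.col 10 (.col 11 (.col 32 (.col 42 (.col 47 (.br 26 (.col 0 (.col 1 (.col 2 (.col 3 (.col 7 (.col 8 (.col 9 (.col 13 (.col 14 (.col 15 (.col 16 (.col 17 (.col 18 (.col 19 (.col 20 (.col 21 (.col 30 (.col 31 (.col 33 (.col 34 (.col 35 (.col 37 (.col 44 (.col 48 (.col 49 (.col 52 (.col 57 (.col 58 (.sol 1)))))))))))))))))))))))))))))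
  (.col 1 (.col 3 (.col 7 (.col 8 (.col 13 (.col 19 (.br 63 (.bad 4 12 [10, 1, 4, 7, 6, 9])
  (.col 35 (.col 37 (.col 79 (.br 46 (.bad 4 132 [10, 4, 8, 5, 9, 0])
  (.br 54 (.col 84 (.br 39 (.col 71 (.br 62 (.bad 4 257 [10, 1, 5, 9, 6, 2])
  (.bad 0 577 [10, 1, 2, 5, 7, 8])))
  (.bad 0 608 [10, 1, 2, 4, 7, 8])))
  (.bad 0 672 [10, 2, 3, 4, 6, 8]))))))))))))))))))))
  (.col 4 (.col 10 (.br 24 (.col 47 (.br 22 (.bad 4 1040 [2, 5, 9, 8, 6, 7])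
  (.bad 0 529 [10, 1, 2, 6, 7, 8])))
  (.bad 0 145 [10, 2, 3, 6, 8, 9]))))))))
  (.col 5 (.br 7 (.col 32 (.br 12 (.col 4 (.col 10 (.br 20 (.bad 4 1040 [3, 5, 7, 9, 6, 8])
  (.bad 0 273 [10, 1, 3, 6, 7, 9]))))
  (.bad 2 144 [2, 6, 8, 10, 5, 9])))
  (.bad 0 25 [10, 1, 2, 7, 8, 9])))))))))))))
  (.br 1 (.col 6 (.br 55 (.col 3 (.col 18 (.bad 4 12 [10, 0, 4, 1, 6, 9])))
  (.br 63 (.col 18 (.col 26 (.bad 4 12 [10, 0, 4, 7, 6, 9])))
  (.br 26 (.col 2 (.col 3 (.col 9 (.br 5 (.col 5 (.col 12 (.col 16 (.col 17 (.col 35 (.br 32 (.bad 4 40 [10, 2, 4, 8, 6, 9])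
  (.bad 0 328 [10, 0, 1, 5, 7, 9])))))))
  (.col 76 (.br 4 (.col 1 (.col 5 (.col 8 (.col 12 (.col 16 (.col 17 (.col 21 (.col 28 (.col 31 (.col 35 (.br 12 (.col 4 (.col 10 (.col 11 (.col 14 (.col 32 (.col 33 (.col 34 (.col 54 (.col 57 (.col 58 (.br 41 (.col 73 (.bad 4 36 [10, 3, 4, 9, 6, 8]))
  (.bad 0 704 [10, 0, 2, 4, 5, 8]))))))))))))
  (.col 54 (.br 11 (.col 0 (.col 4 (.col 7 (.col 10 (.col 11 (.col 13 (.col 14 (.col 15 (.col 19 (.col 20 (.col 27 (.col 30 (.col 32 (.col 33 (.col 34 (.col 37 (.col 42 (.col 44 (.col 47 (.col 48 (.col 49 (.col 52 (.col 56 (.col 57 (.col 58 (.sol 0))))))))))))))))))))))))))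
  (.col 0 (.col 10 (.col 11 (.col 33 (.br 39 (.bad 4 36 [10, 3, 4, 9, 6, 8])
  (.col 73 (.br 44 (.bad 4 6 [10, 0, 8, 5, 6, 4])
  (.br 66 (.col 61 (.col 63 (.col 64 (.col 71 (.br 69 (.col 86 (.bad 4 528 [10, 1, 2, 7, 8, 6]))
  (.bad 0 704 [10, 0, 2, 4, 5, 8]))))))
  (.bad 0 70 [10, 0, 3, 5, 8, 9]))))))))))))))))))))))
  (.col 1 (.col 12 (.col 16 (.br 33 (.bad 4 10 [10, 0, 9, 5, 6, 4])
  (.br 36 (.col 46 (.br 37 (.bad 4 136 [10, 0, 9, 5, 6, 4])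
  (.bad 0 168 [10, 2, 4, 6, 8, 9])))
  (.bad 0 42 [10, 2, 4, 6, 8, 9]))))))))))))
  (.col 2 (.br 29 (.col 9 (.br 4 (.col 1 (.col 5 (.col 8 (.col 12 (.col 16 (.col 17 (.col 21 (.col 28 (.col 31 (.col 35 (.br 11 (.col 0 (.col 4 (.col 7 (.col 10 (.col 11 (.col 13 (.col 14 (.col 15 (.col 19 (.col 20 (.col 27 (.col 30 (.col 32 (.col 33 (.col 34 (.col 37 (.col 42 (.col 44 (.col 47 (.col 48 (.col 49 (.col 52 (.col 56 (.col 57 (.col 58 (.sol 5))))))))))))))))))))))))))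
  (.col 7 (.col 10 (.col 11 (.col 20 (.col 32 (.col 37 (.br 12 (.bad 4 260 [10, 5, 9, 6, 7, 0])
  (.br 45 (.bad 4 5 [10, 3, 5, 7, 6, 8])
  (.br 60 (.col 79 (.br 53 (.bad 4 257 [10, 3, 5, 7, 6, 2])
  (.bad 0 448 [10, 0, 3, 4, 5, 9])))
  (.bad 0 196 [10, 0, 3, 5, 8, 9])))))))))))))))))))))
  (.col 8 (.col 12 (.col 21 (.br 5 (.bad 4 520 [10, 5, 8, 6, 7, 0])
  (.br 34 (.bad 4 9 [10, 2, 5, 7, 6, 9])
  (.br 58 (.col 50 (.br 57 (.bad 4 9 [10, 1, 6, 2, 5, 9])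
  (.bad 0 74 [10, 0, 2, 5, 8, 9])))
  (.bad 0 200 [10, 0, 2, 5, 8, 9])))))))))
  (.bad 0 76 [10, 0, 1, 5, 7, 9])))))))
  (.br 27 (.col 3 (.col 9 (.br 2 (.bad 4 12 [10, 1, 5, 9, 4, 0])
  (.br 3 (.bad 4 12 [10, 1, 5, 7, 4, 0])
  (.br 63 (.col 18 (.bad 7 12 [1, 0, 7, 9, 10, 5, 4, 6]))
  (.bad 2 12 [4, 6, 9, 10, 5, 7]))))))
  (.br 4 (.col 5 (.col 8 (.col 12 (.br 37 (.bad 4 40 [10, 1, 4, 7, 6, 9])
  (.br 11 (.col 4 (.col 10 (.col 11 (.col 32 (.col 37 (.col 47 (.br 3 (.col 6 (.col 27 (.col 28 (.br 25 (.bad 4 144 [10, 2, 3, 8, 9, 6])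
  (.bad 2 528 [2, 6, 8, 10, 5, 7])))))
  (.br 2 (.col 64 (.br 26 (.col 0 (.col 1 (.col 15 (.col 16 (.col 33 (.col 71 (.col 82 (.col 84 (.col 85 (.bad 0 704 [10, 0, 2, 4, 5, 8]))))))))))
  (.col 0 (.col 82 (.br 45 (.bad 4 5 [10, 1, 5, 7, 6, 8])
  (.col 33 (.br 46 (.bad 4 516 [10, 4, 8, 5, 7, 0])
  (.br 54 (.col 84 (.col 85 (.br 60 (.col 71 (.col 15 (.br 58 (.col 50 (.bad 4 66 [10, 2, 9, 8, 3, 7]))
  (.bad 0 448 [10, 0, 3, 4, 5, 9]))))
  (.bad 0 704 [10, 0, 2, 4, 5, 8]))))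
  (.bad 0 672 [10, 2, 3, 4, 6, 8])))))))))
  (.br 8 (.col 56 (.br 17 (.bad 4 144 [10, 2, 9, 8, 3, 6])
  (.bad 2 528 [2, 6, 8, 10, 5, 7])))
  (.bad 2 24 [2, 8, 9, 10, 5, 7]))))))))))
  (.col 10 (.br 15 (.bad 4 17 [10, 1, 3, 7, 9, 6])
  (.br 42 (.bad 4 34 [10, 3, 4, 9, 6, 7])
  (.br 41 (.bad 6 32 [10, 1, 7, 6, 3, 4, 9])
  (.bad 2 1056 [1, 3, 4, 6, 7, 9]))))))))))
  (.br 11 (.col 7 (.col 10 (.col 11 (.br 52 (.bad 4 34 [10, 2, 4, 8, 6, 7])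
  (.br 51 (.bad 4 36 [10, 1, 4, 7, 6, 8])
  (.br 24 (.bad 4 17 [10, 1, 2, 7, 8, 6])
  (.br 48 (.bad 6 32 [10, 1, 7, 6, 2, 4, 8])
  (.bad 2 1056 [1, 2, 4, 6, 7, 8]))))))))
  (.br 26 (.col 0 (.col 1 (.col 2 (.col 3 (.br 29 (.col 9 (.col 18 (.bad 4 12 [10, 0, 9, 5, 6, 4])))
  (.br 33 (.col 8 (.col 17 (.bad 4 10 [10, 0, 9, 5, 6, 4])))
  (.br 44 (.col 7 (.col 15 (.bad 4 6 [10, 0, 8, 5, 6, 4])))
  (.br 2 (.col 6 (.col 18 (.col 26 (.col 82 (.br 7 (.col 12 (.col 31 (.col 46 (.bad 0 104 [10, 1, 2, 7, 8, 9]))))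
  (.col 25 (.br 16 (.col 11 (.col 27 (.col 66 (.col 71 (.bad 0 70 [10, 0, 3, 5, 8, 9])))))
  (.col 24 (.br 37 (.col 21 (.col 31 (.col 46 (.bad 0 42 [10, 2, 4, 6, 8, 9]))))
  (.br 51 (.col 20 (.col 34 (.col 71 (.bad 0 70 [10, 0, 3, 5, 8, 9]))))
  (.br 5 (.col 5 (.col 17 (.col 28 (.col 35 (.col 41 (.col 43 (.col 46 (.col 50 (.col 72 (.col 76 (.br 18 (.col 10 (.col 36 (.col 65 (.col 70 (.bad 0 70 [10, 0, 3, 5, 8, 9])))))
  (.col 38 (.br 24 (.col 32 (.col 36 (.col 68 (.col 65 (.col 70 (.bad 0 70 [10, 0, 3, 5, 8, 9]))))))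
  (.col 53 (.br 48 (.col 52 (.col 58 (.col 73 (.col 70 (.bad 0 70 [10, 0, 3, 5, 8, 9])))))
  (.br 52 (.col 19 (.col 36 (.col 70 (.bad 0 70 [10, 0, 3, 5, 8, 9]))))
  (.br 12 (.col 4 (.col 15 (.col 27 (.col 34 (.col 36 (.col 37 (.col 42 (.col 49 (.col 51 (.col 52 (.col 54 (.col 56 (.col 57 (.col 58 (.col 61 (.col 63 (.col 64 (.col 65 (.col 66 (.col 68 (.col 70 (.col 71 (.col 74 (.col 80 (.sol 10)))))))))))))))))))))))))
  (.col 36 (.col 51 (.col 54 (.br 66 (.col 61 (.col 63 (.col 64 (.col 65 (.col 66 (.col 68 (.col 70 (.col 71 (.col 73 (.col 74 (.col 77 (.col 78 (.col 79 (.col 80 (.sol 9)))))))))))))))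
  (.bad 0 70 [10, 0, 3, 5, 8, 9]))))))))))))))))))))))
  (.col 72 (.col 76 (.br 35 (.col 46 (.col 50 (.col 55 (.col 41 (.br 12 (.col 4 (.col 15 (.col 27 (.col 34 (.col 36 (.col 42 (.col 44 (.col 45 (.col 47 (.col 48 (.col 49 (.col 52 (.col 56 (.col 57 (.col 58 (.col 61 (.col 63 (.col 64 (.col 65 (.col 66 (.col 68 (.col 69 (.col 73 (.sol 8))))))))))))))))))))))))
  (.col 49 (.br 66 (.bad 4 66 [10, 2, 9, 8, 3, 7])
  (.bad 0 70 [10, 0, 3, 5, 8, 9]))))))))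
  (.bad 0 168 [10, 2, 4, 6, 8, 9])))))))))))))))
  (.col 82 (.br 30 (.col 26 (.br 5 (.col 5 (.col 17 (.col 28 (.col 31 (.col 35 (.col 41 (.col 43 (.col 46 (.col 50 (.col 67 (.br 12 (.col 4 (.col 15 (.col 27 (.col 30 (.col 32 (.col 33 (.col 34 (.col 37 (.col 42 (.col 44 (.col 45 (.col 47 (.col 48 (.col 49 (.col 52 (.col 56 (.col 57 (.col 58 (.col 61 (.col 63 (.col 64 (.col 65 (.col 66 (.col 69 (.sol 7)))))))))))))))))))))))))
  (.col 34 (.br 66 (.bad 4 68 [10, 1, 9, 7, 3, 8])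
  (.bad 0 70 [10, 0, 3, 5, 8, 9]))))))))))))))
  (.col 28 (.col 31 (.br 36 (.col 41 (.bad 4 24 [10, 1, 8, 7, 2, 9]))
  (.bad 0 42 [10, 2, 4, 6, 8, 9]))))))
  (.bad 0 44 [10, 1, 4, 6, 7, 9])))))))))))
  (.br 3 (.col 6 (.col 26 (.br 28 (.bad 4 12 [10, 4, 7, 5, 9, 0])
  (.br 29 (.col 18 (.bad 5 12 [4, 10, 7, 0, 6, 5, 9]))
  (.bad 0 44 [10, 1, 4, 6, 7, 9])))))
  (.br 7 (.col 12 (.col 25 (.br 57 (.bad 4 9 [10, 1, 6, 7, 5, 9])
  (.br 65 (.bad 4 9 [10, 5, 7, 6, 8, 9])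
  (.br 56 (.bad 4 9 [10, 2, 6, 7, 5, 9])
  (.bad 0 73 [10, 1, 2, 7, 8, 9]))))))
  (.br 6 (.col 12 (.br 8 (.col 28 (.col 43 (.col 55 (.br 63 (.bad 4 136 [10, 2, 6, 8, 4, 9])
  (.br 34 (.bad 4 136 [10, 0, 6, 8, 4, 9])
  (.br 37 (.col 21 (.col 31 (.col 46 (.bad 0 1036 [0, 1, 4, 5, 7, 9]))))
  (.bad 0 200 [10, 0, 2, 5, 8, 9])))))))
  (.br 9 (.col 41 (.col 43 (.br 28 (.bad 4 264 [10, 1, 4, 9, 5, 0])
  (.col 67 (.br 33 (.col 21 (.col 31 (.bad 0 1036 [0, 1, 4, 5, 7, 9])))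
  (.bad 0 42 [10, 2, 4, 6, 8, 9]))))))
  (.br 15 (.col 32 (.col 68 (.col 74 (.col 80 (.col 11 (.col 59 (.col 60 (.br 45 (.bad 4 5 [10, 5, 9, 6, 7, 8])
  (.br 57 (.bad 4 3 [10, 3, 6, 9, 5, 7])
  (.col 16 (.br 53 (.bad 4 257 [10, 5, 9, 6, 7, 2])
  (.bad 0 193 [10, 2, 3, 5, 8, 9]))))))))))))
  (.col 68 (.br 13 (.col 11 (.col 22 (.col 32 (.col 47 (.br 17 (.col 27 (.col 36 (.col 51 (.col 64 (.col 75 (.col 77 (.br 63 (.bad 4 132 [10, 3, 6, 9, 4, 8])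
  (.br 45 (.bad 4 132 [10, 0, 6, 9, 4, 8])
  (.col 14 (.col 16 (.col 33 (.col 69 (.br 51 (.col 20 (.col 21 (.col 52 (.col 71 (.col 85 (.br 19 (.bad 4 528 [10, 1, 8, 7, 2, 6])
  (.bad 0 1538 [0, 2, 4, 6, 7, 8])))))))
  (.bad 0 196 [10, 0, 3, 5, 8, 9]))))))))))))))
  (.br 19 (.col 42 (.col 51 (.col 63 (.col 81 (.br 38 (.bad 4 258 [10, 4, 9, 5, 7, 0])
  (.br 66 (.bad 4 514 [10, 2, 6, 8, 4, 7])
  (.br 62 (.bad 4 768 [10, 0, 6, 1, 4, 3])
  (.col 69 (.br 42 (.col 19 (.col 20 (.col 30 (.bad 0 1156 [0, 3, 4, 5, 8, 9]))))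
  (.bad 0 578 [10, 0, 2, 5, 7, 8]))))))))))
  (.br 21 (.col 4 (.col 51 (.col 61 (.br 28 (.bad 4 516 [10, 1, 4, 8, 5, 0])
  (.col 45 (.br 44 (.col 20 (.col 30 (.bad 0 1156 [0, 3, 4, 5, 8, 9])))
  (.bad 0 38 [10, 3, 4, 6, 8, 9])))))))
  (.br 25 (.col 56 (.col 77 (.col 83 (.col 86 (.br 38 (.bad 4 384 [10, 2, 5, 9, 4, 0])
  (.col 29 (.br 46 (.bad 4 640 [10, 2, 5, 8, 4, 0])
  (.br 41 (.col 37 (.col 52 (.col 73 (.col 79 (.col 85 (.col 69 (.col 70 (.bad 0 1538 [0, 2, 4, 6, 7, 8]))))))))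
  (.bad 0 672 [10, 2, 3, 4, 6, 8])))))))))
  (.br 28 (.col 9 (.col 20 (.col 21 (.col 37 (.col 45 (.col 54 (.col 67 (.col 73 (.col 76 (.col 82 (.col 84 (.br 45 (.bad 4 132 [10, 0, 6, 5, 8, 4])
  (.col 14 (.col 16 (.col 33 (.col 69 (.br 61 (.col 49 (.col 70 (.col 85 (.br 60 (.col 34 (.br 58 (.br 55 (.bad 4 72 [10, 1, 2, 7, 8, 9])
  (.bad 0 70 [10, 0, 3, 5, 8, 9]))
  (.bad 0 328 [10, 0, 1, 5, 7, 9])))
  (.bad 0 704 [10, 0, 2, 4, 5, 8])))))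
  (.bad 2 514 [0, 4, 5, 10, 6, 8]))))))))))))))))))
  (.col 45 (.col 67 (.br 2 (.col 51 (.col 72 (.br 46 (.bad 4 132 [10, 4, 8, 5, 9, 0])
  (.br 50 (.bad 4 516 [10, 1, 5, 8, 4, 0])
  (.br 44 (.col 15 (.col 17 (.col 18 (.col 19 (.col 20 (.col 21 (.col 26 (.col 31 (.col 34 (.col 35 (.col 37 (.col 41 (.col 44 (.col 49 (.col 50 (.col 52 (.col 57 (.col 58 (.col 70 (.col 71 (.col 79 (.col 85 (.sol 6)))))))))))))))))))))))
  (.bad 0 38 [10, 3, 4, 6, 8, 9]))))))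
  (.br 30 (.col 9 (.col 20 (.col 30 (.br 50 (.bad 4 36 [10, 1, 9, 7, 3, 8])
  (.bad 0 38 [10, 3, 4, 6, 8, 9])))))
  (.bad 0 1036 [0, 1, 4, 5, 7, 9]))))))))))))))
  (.col 22 (.br 16 (.col 32 (.br 18 (.bad 4 17 [10, 1, 8, 7, 2, 6])
  (.bad 0 273 [10, 1, 3, 6, 7, 9])))
  (.bad 0 21 [10, 1, 3, 7, 8, 9])))))))))
  (.br 10 (.col 40 (.br 34 (.bad 4 9 [10, 5, 8, 6, 7, 9])
  (.br 57 (.bad 4 9 [10, 1, 6, 8, 5, 9])
  (.br 56 (.bad 4 9 [10, 2, 6, 8, 5, 9])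
  (.bad 0 73 [10, 1, 2, 7, 8, 9])))))
  (.bad 0 25 [10, 1, 2, 7, 8, 9]))))))))))

def B_de00_2111 : Dat where
  r := 5
  V := [[.i, .o, .o, .o, .o],
    [.o, .i, .o, .o, .o],
    [.o, .o, .i, .o, .o],
    [.o, .o, .o, .i, .o],
    [.o, .o, .o, .o, .i],
    [.i, .o, .o, .o, .i],
    [.w, .w, .w, .w, .i],
    [.w, .v, .w, .w, .o],
    [.w, .w, .v, .w, .o],
    [.w, .w, .w, .v, .o]]
  P := [[.i, .o, .o, .o, .o],
    [.o, .i, .o, .o, .o],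
    [.o, .o, .i, .o, .o],
    [.o, .o, .o, .i, .o],
    [.o, .o, .o, .o, .i],
    [.i, .o, .o, .o, .i],
    [.w, .w, .w, .w, .i],
    [.w, .v, .w, .w, .o],
    [.w, .w, .v, .w, .o],
    [.w, .w, .w, .v, .o],
    [.i, .i, .i, .i, .o],
    [.o, .o, .o, .o, .o]]
  F := [[.i, .o, .o, .o, .o],
    [.o, .i, .o, .o, .o],
    [.i, .i, .o, .o, .o],
    [.i, .v, .o, .o, .o],
    [.o, .o, .i, .o, .o],
    [.i, .o, .i, .o, .o],
    [.o, .i, .i, .o, .o],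
    [.o, .i, .w, .o, .o],
    [.i, .w, .w, .o, .o],
    [.i, .o, .v, .o, .o],
    [.o, .i, .v, .o, .o],
    [.o, .o, .o, .i, .o],
    [.i, .o, .o, .i, .o],
    [.o, .i, .o, .i, .o],
    [.o, .o, .i, .i, .o],
    [.o, .i, .v, .i, .o],
    [.o, .i, .o, .w, .o],
    [.i, .w, .o, .w, .o],
    [.o, .o, .i, .w, .o],
    [.i, .o, .w, .w, .o],
    [.o, .i, .w, .w, .o],
    [.i, .o, .o, .v, .o],
    [.o, .i, .o, .v, .o],
    [.o, .o, .i, .v, .o],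
    [.o, .i, .i, .v, .o],
    [.i, .v, .v, .v, .o],
    [.o, .o, .o, .o, .i],
    [.i, .o, .o, .o, .i],
    [.i, .i, .o, .o, .i],
    [.i, .w, .o, .o, .i],
    [.i, .v, .o, .o, .i],
    [.i, .o, .i, .o, .i],
    [.i, .v, .i, .o, .i],
    [.i, .o, .w, .o, .i],
    [.o, .i, .w, .o, .i],
    [.i, .w, .w, .o, .i],
    [.i, .o, .v, .o, .i],
    [.i, .i, .v, .o, .i],
    [.i, .o, .o, .i, .i],
    [.i, .v, .o, .i, .i],
    [.i, .w, .i, .i, .i],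
    [.i, .i, .w, .i, .i],
    [.i, .o, .v, .i, .i],
    [.o, .i, .v, .i, .i],
    [.i, .o, .o, .w, .i],
    [.o, .i, .o, .w, .i],
    [.i, .w, .o, .w, .i],
    [.o, .o, .i, .w, .i],
    [.i, .i, .i, .w, .i],
    [.i, .o, .w, .w, .i],
    [.i, .o, .o, .v, .i],
    [.i, .i, .o, .v, .i],
    [.i, .o, .i, .v, .i],
    [.o, .i, .i, .v, .i],
    [.i, .v, .v, .v, .i],
    [.i, .o, .o, .o, .w],
    [.o, .i, .o, .o, .w],
    [.o, .o, .i, .o, .w],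
    [.i, .w, .w, .o, .w],
    [.o, .o, .o, .i, .w],
    [.i, .w, .o, .w, .w],
    [.i, .o, .w, .w, .w],
    [.o, .i, .w, .w, .w],
    [.i, .v, .o, .o, .v],
    [.i, .o, .v, .o, .v],
    [.o, .i, .v, .o, .v],
    [.i, .o, .o, .v, .v],
    [.o, .i, .o, .v, .v],
    [.o, .o, .i, .v, .v],
    [.i, .v, .v, .v, .v]]
  ht := 0x3c00243024502460149014a00cc0341034202c4004701c8004b004d004e03a001c1016200e40226032201e0014302a400c5006602c1026202e00360026401a600e8012a01a800c9006a016802aa00ac006c032c002e038f039001b1023302350216033103120133029400b502b100f3017501d600370139011a019800b9027902da003b009c035c003d001e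
  ct := 0x450000000000000000000000000000000000000000000000000000003600000000000000000000000000190000000000001a000001a0068d0000000000000000000000000000000000000000000000000000000028000000000000000000000000000200000000000002000000200f5f0000000000000000000000000000140000000000001c000001c00c4a00000000000000020000002004ca00000007f0068d000068d00340000000000000000000000000000000000000000000000000000000000029000000000000000000000000000500000000000005000003c0015580000000000000000000000000000f0000000000001f000002e007c7800000000000000500000110014780000001a01fcd000068d003400000000000000000000000000000000600000000000006000002700a83000000000000007f0000002001430000000020014300010a1808800000000000000000060000016005ff80000001c007c30000c8b002e00000000000200143000054b002e000000068d0034000003400000000000000000000000000000000000000000000000000000000000000000030000000000000000000000000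000c0000000000003a000000c0031a8000000000000000000000000000180000000000002300000260098c0000000000000008000000c0030c00000001a0068d0001fcd003400000000000000000000000000000000d00000000000020000000d00d068000000000000002000007f00306800000002010208000306805e000000000000000000a000000d004bf80000001c00905000098680240000000000020024500003068024000000068d00340000034000000000000000000000000000000000000000e000000000000250000033003870000000000000005000000c01fc700000003f001510000316801c00000000000000000070000010003bf80000001e007c38000988001c000000000003001438000308001c000000068d0034000003400000000000000000000000006000000d003bf80000001d008430000b06801c000000000002001430000306801c0000000ddc0072000007600000000000000000010013f80002ff80fe00000006c08008000001600000000000000000800800000160000000000003400000000000000000000000000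
  cl := [(15, 3, 0x800000004000800),
    (15, 2, 0x200000004000010),
    (15, 1, 0x100000004000002),
    (15, 0, 0x8000000c000001),
    (23, 0, 0x201801),
    (27, 0, 0x231),
    (29, 0, 0xf),
    (39, 0, 0x4104008000800),
    (43, 0, 0x1288000010),
    (45, 0, 0x78000002),
    (54, 2, 0x844810),
    (54, 1, 0x412802),
    (58, 1, 0x4d2),
    (71, 2, 0x100a00800000004000),
    (71, 1, 0x80900200000002000),
    (71, 0, 0x40880100000001000),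
    (75, 1, 0x20300000400000040),
    (75, 0, 0x10280000200000020),
    (77, 0, 0x8180000020000004),
    (99, 0, 0x10140200004000),
    (101, 0, 0x8108020002000),
    (105, 0, 0x2320000040),
    (114, 1, 0x6040),
    (135, 2, 0x4004000),
    (135, 1, 0x200004010000),
    (139, 1, 0x404000080),
    (141, 0, 0x8000000044000008),
    (149, 0, 0x31008),
    (153, 0, 0x1a8),
    (163, 0, 0x4080004000),
    (165, 0, 0x8404040010000),
    (169, 0, 0x28c0000080),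
    (178, 1, 0x101c080),
    (195, 1, 0x20280400004000),
    (197, 0, 0x9008200000001000),
    (201, 0, 0x8400002400000020),
    (209, 0, 0x5020),
    (225, 0, 0x9022000004000),
    (263, 2, 0x800004040000),
    (263, 1, 0x4002000),
    (267, 1, 0x20000000004000400),
    (267, 0, 0x10000001004000200),
    (275, 0, 0xc1200),
    (281, 0, 0x704),
    (291, 0, 0x12005000040000),
    (293, 0, 0x4010002000),
    (297, 0, 0x1910000400),
    (306, 1, 0x1142400),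
    (323, 1, 0x24020800000002000),
    (323, 0, 0x12010800000001000),
    (329, 0, 0x30400000100000004),
    (337, 0, 0x3004),
    (353, 0, 0x11010100002000),
    (387, 1, 0x20000005000000),
    (389, 0, 0x4004001000),
    (393, 0, 0x400000804000100),
    (401, 0, 0x3001100),
    (417, 0, 0x41004801000000),
    (449, 0, 0x200421000000001000),
    (519, 2, 0x100000000004800000),
    (519, 1, 0x80000000004400000),
    (519, 0, 0x40004000004200000),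
    (523, 1, 0x4000040),
    (531, 0, 0xa80020),
    (533, 0, 0x620004),
    (547, 0, 0x6040080800000),
    (549, 0, 0x4408010400000),
    (553, 0, 0x90000040),
    (562, 1, 0xd08040),
    (579, 1, 0x184000080000000040),
    (579, 0, 0x142000040000000020),
    (581, 0, 0xc1000008000000004),
    (593, 0, 0x64),
    (609, 0, 0x78000000040),
    (643, 1, 0x80004008000),
    (645, 0, 0x1000400004020000),
    (649, 0, 0x84000020),
    (657, 0, 0x2028020),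
    (673, 0, 0x40420080008000),
    (705, 0, 0x2010000a0000000020),
    (771, 1, 0x4000000004100000),
    (771, 0, 0x2002000004080000),
    (777, 0, 0x14000004),
    (785, 0, 0x2180004),
    (801, 0, 0x42010010100000),
    (833, 0, 0x206000010000000004),
    (897, 0, 0x200040000006000000)]
  sl := [0x1a4b20a80405d5ecd2, 0x152a9694528cac5a31, 0xc998c70c07c63380f, 0x38780003ffc0007ff, 0x3ffffff, 0x5f57fbf9d5ecd2, 0x3fffb9bfa720007064, 0x2094696a6cc703d1a8, 0x2364738159171c3704, 0x3c70464f8096fa8064, 0x4094007064, 0x3fffffffffffffffff]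
  t := B_de00_2111_t

theorem B_de00_2111_okD : B_de00_2111.ckD = true := by decide +kernel

theorem B_de00_2111_okT : B_de00_2111.ckT TTab B_de00_2111.t 0 0 = true := by decide +kernel

theorem lext_de00_2111 : LExt 5 10 (vecL 5 B_de00_2111.V) (vecP 5 B_de00_2111.P) :=
  lext_of_chk' B_de00_2111 B_de00_2111_okD B_de00_2111_okT (by decide)

end QG
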