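import Pool.Agent.Lib.QG.BC8

/-! MP_2e6874_co, part (B): data for de00_22. -/

set_option autoImplicit false
set_option maxRecDepth 100000

namespace QG

def B_de00_22_t : Tr :=
  .br 0 (.br 3 (.col 14 (.br 10 (.col 12 (.col 13 (.col 15 (.col 16 (.br 1 (.col 2 (.col 3 (.col 5 (.col 6 (.col 7 (.col 8 (.col 11 (.col 18 (.sol 9)))))))))
  (.col 2 (.col 3 (.col 5 (.col 6 (.col 7 (.col 8 (.col 11 (.col 18 (.sol 6))))))))))))))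
  (.col 12 (.col 13 (.col 15 (.col 16 (.br 12 (.col 21 (.col 22 (.bad 4 128 [8, 0, 3, 4, 5, 2])))
  (.br 15 (.col 5 (.col 6 (.col 8 (.col 10 (.col 18 (.bad 4 4 [8, 1, 3, 4, 7, 5]))))))
  (.col 17 (.br 1 (.col 2 (.col 3 (.col 5 (.col 6 (.col 8 (.col 18 (.sol 3)))))))
  (.col 2 (.col 3 (.col 6 (.br 18 (.col 8 (.col 18 (.sol 1)))
  (.bad 0 160 [8, 0, 1, 3, 4, 6])))))))))))))))
  (.col 14 (.br 1 (.col 2 (.col 3 (.col 6 (.br 9 (.col 1 (.col 4 (.col 5 (.col 7 (.col 8 (.col 9 (.col 11 (.col 13 (.col 15 (.col 16 (.sol 2)))))))))))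
  (.col 1 (.col 5 (.col 13 (.br 21 (.bad 4 64 [8, 2, 3, 4, 7, 0])
  (.br 16 (.bad 4 128 [8, 1, 4, 3, 2, 0])
  (.br 12 (.col 22 (.bad 4 2 [8, 2, 6, 5, 7, 0]))
  (.bad 0 144 [8, 1, 2, 3, 5, 6])))))))))))
  (.col 3 (.br 5 (.bad 4 8 [8, 2, 6, 4, 7, 0])
  (.br 8 (.bad 4 8 [8, 0, 5, 6, 2, 7])
  (.br 6 (.bad 5 8 [2, 8, 6, 0, 5, 4, 7])
  (.bad 2 8 [0, 6, 7, 8, 4, 5]))))))))
  (.br 3 (.col 14 (.br 6 (.col 6 (.col 10 (.bad 4 8 [8, 0, 7, 4, 5, 2])))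
  (.br 17 (.col 11 (.col 15 (.col 16 (.col 23 (.br 1 (.bad 4 16 [8, 2, 3, 5, 6, 1])
  (.col 2 (.br 2 (.bad 4 32 [8, 2, 3, 4, 6, 1])
  (.br 15 (.col 17 (.col 22 (.bad 7 32 [0, 2, 4, 1, 8, 7, 3, 6])))
  (.bad 2 4 [3, 5, 7, 8, 4, 6])))))))))
  (.br 20 (.col 13 (.col 23 (.col 12 (.br 1 (.col 3 (.col 5 (.col 19 (.bad 5 4 [3, 8, 4, 1, 7, 6, 5]))))
  (.col 2 (.br 2 (.col 9 (.col 19 (.col 20 (.col 21 (.col 22 (.sol 7))))))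
  (.col 19 (.col 20 (.col 21 (.col 22 (.br 9 (.bad 4 4 [8, 1, 5, 6, 7, 3])
  (.bad 0 288 [0, 1, 2, 3, 4, 7]))))))))))))
  (.col 23 (.br 12 (.col 21 (.col 22 (.bad 4 128 [8, 0, 3, 4, 5, 2])))
  (.br 14 (.col 1 (.col 19 (.br 11 (.bad 4 4 [8, 1, 7, 6, 5, 3])
  (.bad 2 32 [2, 3, 7, 8, 4, 6]))))
  (.col 18 (.br 9 (.br 1 (.col 2 (.col 3 (.col 5 (.col 6 (.col 7 (.col 9 (.sol 0)))))))
  (.col 2 (.col 5 (.col 7 (.br 11 (.col 9 (.col 20 (.sol 8)))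
  (.bad 0 96 [8, 0, 2, 3, 4, 7]))))))
  (.br 2 (.col 9 (.col 10 (.br 13 (.bad 4 32 [8, 0, 6, 2, 3, 1])
  (.bad 0 96 [8, 0, 2, 3, 4, 7]))))
  (.bad 2 32 [1, 3, 6, 8, 4, 7])))))))))))
  (.br 14 (.col 1 (.col 18 (.br 7 (.bad 4 2 [8, 2, 7, 5, 6, 0])
  (.br 1 (.col 3 (.col 5 (.bad 4 4 [8, 1, 7, 4, 3, 5])))
  (.br 2 (.col 9 (.col 10 (.col 19 (.col 20 (.col 21 (.col 22 (.br 13 (.bad 4 32 [8, 0, 6, 2, 3, 1])
  (.br 17 (.bad 4 32 [8, 2, 3, 4, 6, 1])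
  (.bad 0 96 [8, 0, 2, 3, 4, 7])))))))))
  (.col 19 (.br 19 (.bad 4 128 [8, 0, 5, 1, 2, 3])
  (.br 11 (.bad 4 4 [8, 1, 7, 6, 5, 3])
  (.br 22 (.bad 4 128 [8, 1, 2, 6, 5, 3])
  (.br 12 (.col 11 (.br 13 (.col 12 (.bad 2 4 [3, 5, 7, 8, 4, 6]))
  (.bad 0 96 [8, 0, 2, 3, 4, 7])))
  (.bad 0 160 [8, 0, 1, 3, 4, 6])))))))))))
  (.br 20 (.col 13 (.col 19 (.col 23 (.br 16 (.bad 4 128 [8, 1, 4, 6, 2, 0])
  (.br 4 (.bad 4 64 [8, 2, 7, 4, 3, 0])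
  (.br 5 (.bad 4 128 [8, 2, 6, 4, 3, 0])
  (.br 12 (.col 22 (.br 9 (.bad 4 4 [8, 1, 5, 6, 7, 3])
  (.col 11 (.br 7 (.bad 4 32 [8, 1, 3, 4, 7, 2])
  (.br 13 (.col 7 (.br 1 (.bad 4 1 [8, 3, 4, 6, 5, 1])
  (.bad 2 8 [2, 5, 7, 8, 4, 6])))
  (.bad 0 96 [8, 0, 2, 3, 4, 7]))))))
  (.bad 0 144 [8, 1, 2, 3, 5, 6]))))))))
  (.br 2 (.col 3 (.col 19 (.col 20 (.br 21 (.bad 4 128 [8, 2, 3, 4, 6, 0])
  (.br 16 (.bad 4 128 [8, 1, 4, 3, 2, 0])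
  (.br 12 (.col 22 (.br 4 (.bad 4 8 [8, 2, 7, 4, 6, 0])
  (.br 6 (.col 10 (.col 11 (.col 15 (.col 16 (.sol 5)))))
  (.col 10 (.col 11 (.col 16 (.br 10 (.bad 4 1 [8, 4, 6, 5, 7, 1])
  (.bad 2 64 [0, 2, 4, 8, 3, 5]))))))))
  (.bad 0 144 [8, 1, 2, 3, 5, 6])))))))
  (.br 8 (.col 2 (.col 10 (.br 5 (.bad 4 8 [8, 0, 5, 4, 7, 2])
  (.br 4 (.bad 5 8 [0, 8, 5, 2, 6, 4, 7])
  (.bad 2 8 [2, 5, 7, 8, 4, 6])))))
  (.br 11 (.col 9 (.col 13 (.br 1 (.bad 4 4 [8, 3, 4, 6, 5, 1])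
  (.br 15 (.col 17 (.br 13 (.bad 4 1 [8, 4, 7, 5, 6, 1])
  (.col 16 (.br 18 (.bad 4 32 [8, 1, 7, 6, 2, 3])
  (.br 12 (.col 11 (.col 21 (.col 4 (.bad 2 8 [0, 2, 4, 8, 5, 6]))))
  (.bad 0 160 [8, 0, 1, 3, 4, 6]))))))
  (.bad 2 4 [1, 3, 6, 8, 4, 7])))))
  (.br 13 (.col 7 (.col 12 (.br 1 (.bad 4 1 [8, 3, 4, 6, 5, 1])
  (.br 15 (.bad 4 1 [8, 4, 7, 5, 6, 1])
  (.bad 2 4 [1, 3, 6, 8, 4, 7])))))
  (.br 18 (.col 18 (.col 22 (.br 15 (.bad 4 128 [8, 0, 2, 1, 5, 3])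
  (.br 21 (.col 21 (.bad 7 128 [6, 0, 1, 3, 8, 4, 2, 5]))
  (.bad 2 128 [0, 2, 4, 8, 5, 6])))))
  (.br 7 (.col 8 (.col 10 (.col 16 (.br 19 (.bad 4 32 [8, 0, 7, 1, 3, 2])
  (.br 12 (.bad 4 32 [8, 1, 3, 4, 7, 2])
  (.bad 0 160 [8, 0, 1, 3, 4, 6]))))))
  (.br 9 (.col 7 (.br 22 (.bad 4 32 [8, 1, 2, 6, 7, 3])
  (.br 17 (.col 11 (.br 15 (.col 5 (.col 6 (.col 15 (.col 21 (.sol 4)))))
  (.bad 0 384 [0, 1, 2, 3, 5, 6])))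
  (.bad 0 96 [8, 0, 2, 3, 4, 7]))))
  (.br 22 (.col 16 (.col 22 (.br 15 (.bad 4 128 [8, 0, 2, 6, 5, 3])
  (.br 16 (.col 4 (.br 6 (.col 6 (.br 10 (.bad 4 16 [8, 2, 6, 5, 3, 1])
  (.bad 2 4 [1, 3, 6, 8, 4, 7])))
  (.bad 0 288 [0, 1, 2, 3, 4, 7])))
  (.bad 2 128 [0, 2, 4, 8, 1, 5])))))
  (.bad 1 0 [8, 1, 2, 5, 6, 7]))))))))))))

def B_de00_22 : Dat where
  r := 4
  V := [[.i, .o, .o, .o],
    [.o, .i, .o, .o],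
    [.o, .o, .i, .o],
    [.o, .o, .o, .i],
    [.i, .o, .i, .o],
    [.w, .w, .i, .o],
    [.o, .i, .o, .i],
    [.w, .w, .o, .i]]
  P := [[.i, .o, .o, .o],
    [.o, .i, .o, .o],
    [.o, .o, .i, .o],
    [.o, .o, .o, .i],
    [.i, .o, .i, .o],
    [.w, .w, .i, .o],
    [.o, .i, .o, .i],
    [.w, .w, .o, .i],
    [.i, .i, .o, .o],
    [.o, .o, .o, .o]]
  F := [[.i, .o, .o, .o],
    [.o, .i, .o, .o],
    [.i, .i, .o, .o],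
    [.o, .o, .i, .o],
    [.i, .o, .i, .o],
    [.i, .i, .i, .o],
    [.i, .w, .i, .o],
    [.i, .o, .w, .o],
    [.o, .i, .w, .o],
    [.o, .o, .o, .i],
    [.o, .i, .o, .i],
    [.i, .i, .o, .i],
    [.i, .w, .i, .i],
    [.o, .i, .w, .i],
    [.i, .o, .o, .w],
    [.o, .i, .o, .w],
    [.i, .o, .i, .w],
    [.i, .w, .i, .w],
    [.i, .o, .w, .w],
    [.o, .i, .w, .w],
    [.i, .v, .o, .v],
    [.i, .v, .i, .v],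
    [.i, .v, .v, .v]]
  ht := 0xe000d000c400a100a20070009200950086006100b00064005500370029006a00380098005a00cb00ac001d004e
  ct := 0x160000000000000000000000000015000000000000030000014000c180000000000000000000000000000c000000000000020000002004898000000000000005000000f00407800000002000c18000387800600000000000000000000000000000001100000000000007000000b001c68000000000000004000000a0010500000000001fc1800000500060000000000000000006000000900244800000002001c40000244801200000000000100100800027f8012000000000080060000012000000000000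
  cl := [(7, 2, 0x208),
    (7, 0, 0x4201),
    (11, 1, 0x10a),
    (13, 0, 0x7),
    (19, 0, 0x10210),
    (22, 1, 0x8602),
    (25, 0, 0x72),
    (35, 1, 0x82300),
    (35, 0, 0x40280),
    (37, 0, 0xa04),
    (41, 0, 0x1c4),
    (49, 0, 0x21240),
    (67, 1, 0x2408),
    (69, 0, 0x100c01),
    (73, 0, 0x99),
    (81, 0, 0x220410),
    (97, 0, 0x422880),
    (131, 1, 0x88008),
    (131, 0, 0x54008),
    (133, 0, 0x10c004),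
    (137, 0, 0x2c),
    (145, 0, 0x219020),
    (161, 0, 0x4c1004),
    (193, 0, 0x700008)]
  sl := [0x8a70a, 0x54299, 0x10ce07, 0x1ff, 0x239672, 0x4e3bc4, 0x722c99, 0x7dd02c, 0xa2c, 0x7fffff]
  t := B_de00_22_t

theorem B_de00_22_okD : B_de00_22.ckD = true := by decide +kernel

theorem B_de00_22_okT : B_de00_22.ckT TTab B_de00_22.t 0 0 = true := by decide +kernel

theorem lext_de00_22 : LExt 4 8 (vecL 4 B_de00_22.V) (vecP 4 B_de00_22.P) :=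
  lext_of_chk' B_de00_22 B_de00_22_okD B_de00_22_okT (by decide)

end QG
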