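import Pool.Agent.Lib.QG.BC8

/-! MP_2e6874_co, part (B): data for de01_1111. -/

set_option autoImplicit false
set_option maxRecDepth 100000

namespace QG

def B_de01_1111_t : Tr :=
  .br 0 (.br 1 (.col 9 (.br 5 (.col 7 (.col 8 (.col 16 (.col 23 (.br 15 (.col 4 (.col 5 (.col 6 (.col 14 (.col 15 (.col 20 (.col 22 (.col 27 (.col 31 (.col 32 (.col 38 (.col 42 (.br 38 (.col 0 (.col 1 (.col 2 (.col 3 (.col 10 (.col 11 (.col 12 (.col 17 (.col 18 (.col 25 (.col 26 (.col 28 (.col 35 (.col 39 (.col 43 (.sol 10))))))))))))))))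
  (.col 0 (.col 1 (.col 2 (.col 3 (.col 10 (.col 11 (.col 12 (.col 17 (.col 18 (.col 25 (.col 26 (.col 28 (.col 35 (.col 39 (.col 43 (.sol 4)))))))))))))))))))))))))))))
  (.col 4 (.col 5 (.col 6 (.col 14 (.col 15 (.col 20 (.col 22 (.col 27 (.col 31 (.col 32 (.col 38 (.col 42 (.br 47 (.col 0 (.col 1 (.col 3 (.col 44 (.col 46 (.br 49 (.bad 4 258 [9, 0, 2, 5, 7, 6])
  (.bad 2 130 [0, 5, 6, 9, 4, 8])))))))
  (.br 48 (.col 25 (.col 26 (.col 41 (.col 56 (.col 59 (.br 50 (.bad 4 320 [9, 0, 7, 5, 2, 3])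
  (.bad 2 192 [0, 2, 5, 9, 4, 8])))))))
  (.br 49 (.col 35 (.col 51 (.col 61 (.bad 2 3 [2, 6, 7, 9, 4, 8]))))
  (.br 50 (.col 39 (.col 55 (.col 60 (.bad 2 3 [2, 6, 7, 9, 4, 8]))))
  (.br 54 (.col 10 (.col 11 (.col 18 (.col 19 (.br 56 (.bad 4 258 [9, 0, 7, 5, 2, 6])
  (.bad 2 3 [2, 6, 7, 9, 4, 8]))))))
  (.br 55 (.col 17 (.col 18 (.col 29 (.br 56 (.bad 4 257 [9, 1, 7, 6, 2, 5])
  (.bad 2 3 [2, 6, 7, 9, 4, 8])))))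
  (.br 56 (.col 28 (.col 29 (.col 30 (.br 57 (.bad 4 384 [9, 0, 1, 5, 6, 3])
  (.bad 2 192 [0, 2, 5, 9, 4, 8])))))
  (.br 57 (.col 43 (.col 59 (.bad 2 3 [2, 6, 7, 9, 4, 8])))
  (.br 38 (.col 0 (.col 1 (.col 2 (.col 3 (.col 11 (.col 12 (.col 18 (.col 26 (.sol 3)))))))))
  (.col 1 (.col 2 (.col 3 (.col 11 (.col 12 (.col 18 (.col 26 (.br 42 (.sol 14)
  (.bad 2 3 [2, 6, 7, 9, 4, 8])))))))))))))))))))))))))))))))))))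
  (.col 7 (.col 8 (.col 16 (.col 23 (.br 19 (.col 4 (.col 5 (.col 6 (.col 14 (.col 27 (.br 20 (.col 63 (.bad 4 18 [9, 2, 3, 7, 8, 6]))
  (.bad 0 176 [9, 1, 2, 3, 6, 8])))))))
  (.br 20 (.col 38 (.col 63 (.col 5 (.col 31 (.col 47 (.bad 0 19 [9, 2, 3, 6, 7, 8]))))))
  (.col 63 (.br 21 (.col 27 (.col 54 (.col 58 (.col 15 (.col 5 (.br 35 (.col 32 (.br 34 (.bad 4 272 [9, 0, 1, 5, 6, 3])
  (.bad 0 19 [9, 2, 3, 6, 7, 8])))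
  (.bad 0 176 [9, 1, 2, 3, 6, 8])))))))
  (.br 15 (.col 4 (.col 5 (.col 6 (.col 14 (.col 15 (.col 20 (.col 22 (.col 27 (.br 45 (.col 1 (.col 2 (.col 3 (.col 29 (.col 30 (.br 46 (.bad 4 136 [9, 0, 1, 5, 6, 8])
  (.bad 2 72 [0, 5, 8, 9, 4, 7])))))))
  (.br 46 (.col 26 (.col 37 (.col 41 (.bad 2 10 [0, 5, 8, 9, 4, 7]))))
  (.br 49 (.col 35 (.col 51 (.col 64 (.bad 2 96 [1, 3, 8, 9, 4, 7]))))
  (.br 50 (.col 39 (.col 55 (.col 65 (.bad 2 96 [1, 3, 8, 9, 4, 7]))))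
  (.br 52 (.col 11 (.col 12 (.col 25 (.br 57 (.bad 4 160 [9, 1, 3, 6, 8, 2])
  (.bad 2 96 [1, 3, 8, 9, 4, 7])))))
  (.br 53 (.col 18 (.col 19 (.col 25 (.br 57 (.bad 4 192 [9, 0, 3, 5, 8, 2])
  (.bad 2 96 [1, 3, 8, 9, 4, 7])))))
  (.br 56 (.col 28 (.col 36 (.col 40 (.col 44 (.br 57 (.bad 4 384 [9, 0, 1, 5, 6, 3])
  (.bad 2 96 [1, 3, 8, 9, 4, 7]))))))
  (.br 57 (.col 59 (.col 65 (.bad 2 10 [0, 5, 8, 9, 4, 7])))
  (.br 38 (.col 0 (.col 1 (.col 2 (.col 3 (.col 10 (.col 12 (.col 17 (.col 25 (.sol 2)))))))))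
  (.col 0 (.col 2 (.col 3 (.col 10 (.col 12 (.col 17 (.col 25 (.br 41 (.sol 13)
  (.bad 2 96 [1, 3, 8, 9, 4, 7]))))))))))))))))))))))))))
  (.col 6 (.col 22 (.br 23 (.col 47 (.br 27 (.col 32 (.br 22 (.bad 4 272 [9, 0, 6, 5, 1, 3])
  (.bad 0 50 [9, 2, 3, 6, 7, 8])))
  (.bad 0 19 [9, 2, 3, 6, 7, 8])))
  (.bad 0 336 [9, 0, 2, 3, 5, 7])))))))))))))))
  (.col 9 (.br 7 (.col 7 (.col 8 (.col 16 (.br 11 (.bad 4 24 [9, 1, 2, 6, 7, 8])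
  (.bad 0 88 [9, 0, 2, 5, 7, 8])))))
  (.br 8 (.col 16 (.col 34 (.col 8 (.br 10 (.bad 9 24 [9, 0, 6, 5, 7, 1, 2, 8])
  (.bad 0 88 [9, 0, 2, 5, 7, 8])))))
  (.br 5 (.col 7 (.col 8 (.col 16 (.col 23 (.br 17 (.col 5 (.col 6 (.col 13 (.col 14 (.col 15 (.col 48 (.br 26 (.col 58 (.bad 4 17 [9, 1, 3, 6, 8, 5]))
  (.bad 0 276 [9, 0, 1, 5, 6, 7]))))))))
  (.br 18 (.col 15 (.col 54 (.col 58 (.col 6 (.col 14 (.br 28 (.col 42 (.br 25 (.bad 4 80 [9, 0, 2, 5, 7, 1])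
  (.bad 0 81 [9, 2, 3, 5, 7, 8])))
  (.bad 0 176 [9, 1, 2, 3, 6, 8])))))))
  (.br 15 (.col 4 (.col 5 (.col 6 (.col 14 (.col 15 (.col 20 (.col 22 (.col 27 (.col 31 (.col 32 (.col 38 (.col 42 (.br 44 (.col 2 (.col 3 (.col 10 (.col 11 (.col 17 (.col 18 (.br 50 (.bad 4 65 [9, 2, 3, 7, 8, 5])
  (.bad 2 129 [3, 5, 8, 9, 4, 6]))))))))
  (.br 46 (.col 37 (.col 41 (.col 43 (.br 50 (.bad 4 192 [9, 0, 8, 5, 3, 2])
  (.bad 2 129 [3, 5, 8, 9, 4, 6])))))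
  (.br 48 (.col 25 (.col 28 (.col 30 (.col 44 (.col 52 (.col 56 (.col 59 (.br 50 (.bad 4 320 [9, 0, 7, 5, 2, 3])
  (.bad 2 384 [0, 3, 5, 9, 4, 6])))))))))
  (.br 50 (.col 39 (.col 40 (.col 60 (.bad 2 136 [0, 5, 8, 9, 4, 6]))))
  (.br 51 (.col 12 (.col 19 (.col 25 (.col 26 (.br 53 (.bad 4 72 [9, 0, 7, 5, 2, 8])
  (.bad 2 129 [3, 5, 8, 9, 4, 6]))))))
  (.br 53 (.col 18 (.col 24 (.col 28 (.col 29 (.col 30 (.br 57 (.bad 4 192 [9, 0, 3, 5, 8, 2])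
  (.bad 2 384 [0, 3, 5, 9, 4, 6])))))))
  (.br 55 (.col 17 (.col 45 (.bad 2 129 [3, 5, 8, 9, 4, 6])))
  (.br 57 (.col 43 (.col 64 (.bad 2 129 [3, 5, 8, 9, 4, 6])))
  (.br 38 (.col 0 (.col 1 (.col 2 (.col 3 (.col 10 (.col 11 (.col 28 (.col 35 (.sol 1)))))))))
  (.col 0 (.col 1 (.col 3 (.col 10 (.col 11 (.col 28 (.col 35 (.br 40 (.sol 12)
  (.bad 2 129 [3, 5, 8, 9, 4, 6]))))))))))))))))))))))))))))))
  (.col 4 (.col 6 (.col 14 (.br 33 (.col 22 (.col 27 (.br 20 (.col 63 (.br 32 (.bad 4 272 [9, 0, 2, 5, 7, 3])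
  (.bad 0 276 [9, 0, 1, 5, 6, 7])))
  (.bad 0 176 [9, 1, 2, 3, 6, 8]))))
  (.bad 0 52 [9, 1, 3, 6, 7, 8]))))))))))))
  (.col 8 (.br 14 (.col 23 (.br 13 (.bad 9 24 [9, 0, 7, 5, 6, 2, 1, 8])
  (.bad 0 152 [9, 0, 1, 5, 6, 8])))
  (.bad 0 56 [9, 1, 2, 6, 7, 8]))))))))
  (.br 1 (.col 9 (.br 6 (.col 8 (.col 23 (.col 50 (.col 7 (.br 8 (.bad 4 24 [9, 0, 2, 5, 7, 8])
  (.bad 0 56 [9, 1, 2, 6, 7, 8]))))))
  (.br 8 (.col 16 (.col 34 (.col 7 (.bad 0 88 [9, 0, 2, 5, 7, 8]))))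
  (.br 9 (.col 8 (.col 16 (.col 7 (.br 11 (.bad 9 24 [9, 0, 2, 5, 1, 7, 6, 8])
  (.bad 0 88 [9, 0, 2, 5, 7, 8])))))
  (.br 5 (.col 7 (.col 8 (.col 16 (.col 23 (.br 16 (.col 21 (.col 32 (.col 33 (.col 42 (.col 20 (.br 20 (.col 54 (.bad 4 80 [9, 0, 3, 5, 8, 1]))
  (.bad 0 176 [9, 1, 2, 3, 6, 8])))))))
  (.br 18 (.col 15 (.col 31 (.col 49 (.col 4 (.bad 0 22 [9, 0, 3, 5, 7, 8])))))
  (.col 54 (.br 24 (.col 14 (.col 15 (.br 28 (.bad 4 48 [9, 1, 2, 6, 7, 0])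
  (.bad 0 176 [9, 1, 2, 3, 6, 8]))))
  (.br 15 (.col 4 (.col 5 (.col 6 (.col 14 (.col 15 (.col 20 (.col 22 (.col 27 (.col 31 (.col 32 (.col 42 (.br 43 (.col 3 (.col 11 (.col 12 (.br 46 (.bad 4 40 [9, 1, 2, 6, 7, 8])
  (.bad 2 136 [1, 6, 8, 9, 4, 5])))))
  (.br 46 (.col 37 (.col 41 (.col 43 (.br 49 (.bad 4 160 [9, 1, 8, 6, 3, 2])
  (.bad 2 130 [3, 6, 8, 9, 4, 5])))))
  (.br 48 (.col 25 (.col 28 (.col 29 (.col 44 (.col 52 (.col 56 (.col 59 (.br 49 (.bad 4 288 [9, 1, 7, 6, 2, 3])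
  (.bad 2 384 [1, 3, 6, 9, 4, 5])))))))))
  (.br 49 (.col 35 (.col 36 (.col 61 (.bad 2 136 [1, 6, 8, 9, 4, 5]))))
  (.br 51 (.col 12 (.col 19 (.col 26 (.br 52 (.bad 4 40 [9, 1, 7, 6, 2, 8])
  (.bad 2 136 [1, 6, 8, 9, 4, 5])))))
  (.br 52 (.col 11 (.col 24 (.col 28 (.col 29 (.col 30 (.br 57 (.bad 4 160 [9, 1, 3, 6, 8, 2])
  (.bad 2 384 [1, 3, 6, 9, 4, 5])))))))
  (.br 54 (.col 10 (.col 28 (.col 29 (.col 46 (.bad 2 136 [1, 6, 8, 9, 4, 5])))))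
  (.br 57 (.col 64 (.col 65 (.bad 2 136 [1, 6, 8, 9, 4, 5])))
  (.br 38 (.col 0 (.col 1 (.col 2 (.col 3 (.col 17 (.col 18 (.col 28 (.col 39 (.sol 0)))))))))
  (.col 0 (.col 1 (.col 2 (.col 17 (.col 18 (.col 28 (.col 39 (.br 39 (.sol 11)
  (.bad 2 136 [1, 6, 8, 9, 4, 5])))))))))))))))))))))))))))))
  (.col 4 (.col 5 (.br 35 (.col 38 (.br 33 (.bad 4 48 [9, 1, 7, 6, 2, 0])
  (.bad 0 52 [9, 1, 3, 6, 7, 8])))
  (.bad 0 50 [9, 2, 3, 6, 7, 8])))))))))))))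
  (.col 7 (.br 14 (.col 23 (.br 12 (.bad 9 24 [9, 0, 2, 5, 6, 7, 1, 8])
  (.bad 0 152 [9, 0, 1, 5, 6, 8])))
  (.bad 0 56 [9, 1, 2, 6, 7, 8]))))))))
  (.br 5 (.col 7 (.col 8 (.br 14 (.bad 4 24 [9, 0, 1, 5, 6, 8])
  (.br 2 (.col 9 (.col 34 (.bad 0 88 [9, 0, 2, 5, 7, 8])))
  (.br 3 (.col 9 (.col 16 (.br 11 (.bad 9 24 [9, 0, 1, 5, 2, 6, 7, 8])
  (.bad 0 88 [9, 0, 2, 5, 7, 8]))))
  (.br 8 (.col 34 (.br 4 (.bad 9 24 [9, 0, 1, 5, 7, 6, 2, 8])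
  (.bad 0 88 [9, 0, 2, 5, 7, 8])))
  (.bad 0 56 [9, 1, 2, 6, 7, 8])))))))
  (.br 15 (.col 4 (.col 5 (.col 6 (.br 35 (.bad 4 18 [9, 0, 2, 5, 7, 6])
  (.br 36 (.bad 4 17 [9, 1, 2, 6, 7, 5])
  (.br 33 (.bad 4 20 [9, 0, 1, 5, 6, 7])
  (.br 28 (.bad 6 16 [9, 0, 5, 7, 1, 2, 6])
  (.bad 2 528 [0, 1, 2, 5, 6, 7]))))))))
  (.br 38 (.col 0 (.col 1 (.col 2 (.col 3 (.br 53 (.bad 4 9 [9, 1, 2, 6, 7, 8])
  (.br 56 (.bad 4 3 [9, 2, 3, 7, 8, 6])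
  (.br 51 (.bad 4 12 [9, 0, 1, 5, 6, 8])
  (.br 55 (.bad 4 5 [9, 1, 3, 6, 8, 7])
  (.br 54 (.bad 4 6 [9, 0, 3, 5, 8, 7])
  (.br 48 (.col 59 (.br 50 (.bad 4 320 [9, 0, 7, 5, 2, 3])
  (.bad 2 513 [1, 2, 3, 6, 7, 8])))
  (.bad 2 516 [0, 1, 3, 5, 6, 8])))))))))))
  (.br 2 (.col 9 (.br 9 (.col 8 (.col 16 (.col 34 (.br 10 (.bad 4 24 [9, 0, 6, 5, 1, 8])
  (.bad 0 88 [9, 0, 2, 5, 7, 8])))))
  (.br 10 (.col 7 (.col 23 (.col 34 (.bad 0 56 [9, 1, 2, 6, 7, 8]))))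
  (.br 14 (.col 16 (.col 23 (.col 34 (.bad 0 26 [9, 0, 2, 5, 7, 8]))))
  (.br 24 (.col 6 (.col 14 (.col 15 (.col 49 (.br 25 (.col 20 (.br 28 (.bad 4 80 [9, 0, 2, 5, 7, 1])
  (.br 21 (.col 54 (.col 58 (.br 8 (.col 34 (.col 31 (.br 34 (.bad 4 272 [9, 0, 1, 5, 6, 3])
  (.bad 0 19 [9, 2, 3, 6, 7, 8]))))
  (.bad 0 176 [9, 1, 2, 3, 6, 8]))))
  (.bad 0 112 [9, 1, 2, 3, 7, 8]))))
  (.bad 0 21 [9, 1, 3, 6, 7, 8]))))))
  (.br 25 (.col 5 (.col 22 (.col 49 (.bad 0 52 [9, 1, 3, 6, 7, 8]))))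
  (.br 33 (.col 15 (.col 22 (.col 49 (.bad 0 22 [9, 0, 3, 5, 7, 8]))))
  (.br 43 (.col 3 (.col 10 (.col 11 (.col 12 (.br 49 (.bad 4 34 [9, 2, 3, 7, 8, 6])
  (.br 44 (.bad 4 12 [9, 0, 6, 5, 1, 8])
  (.br 17 (.br 7 (.col 13 (.col 14 (.bad 2 34 [9, 2, 3, 4, 7, 8])))
  (.bad 2 9 [1, 6, 8, 9, 2, 4]))
  (.bad 2 5 [1, 6, 7, 9, 3, 4]))))))))
  (.br 44 (.col 17 (.col 18 (.col 19 (.br 50 (.bad 4 65 [9, 2, 3, 7, 8, 5])
  (.br 6 (.col 23 (.br 16 (.col 21 (.col 27 (.col 42 (.col 58 (.bad 2 65 [9, 2, 3, 4, 7, 8])))))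
  (.bad 2 6 [0, 5, 7, 9, 3, 4])))
  (.bad 2 10 [0, 5, 8, 9, 2, 4]))))))
  (.br 51 (.col 12 (.col 25 (.col 26 (.br 57 (.bad 4 96 [9, 2, 3, 7, 8, 1])
  (.br 17 (.br 7 (.col 13 (.col 27 (.bad 2 96 [9, 2, 3, 4, 7, 8])))
  (.bad 2 9 [1, 6, 8, 9, 2, 4]))
  (.bad 2 5 [1, 6, 7, 9, 3, 4]))))))
  (.br 6 (.col 8 (.col 23 (.col 34 (.col 50 (.br 27 (.col 4 (.col 32 (.col 48 (.bad 0 50 [9, 2, 3, 6, 7, 8]))))
  (.br 28 (.col 27 (.col 58 (.col 47 (.bad 0 19 [9, 2, 3, 6, 7, 8]))))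
  (.br 35 (.col 14 (.col 48 (.bad 0 19 [9, 2, 3, 6, 7, 8])))
  (.br 36 (.col 20 (.col 31 (.col 47 (.col 48 (.col 49 (.col 54 (.bad 0 176 [9, 1, 2, 3, 6, 8])))))))
  (.br 45 (.col 28 (.col 29 (.col 30 (.br 50 (.bad 4 129 [9, 1, 3, 6, 8, 5])
  (.br 46 (.bad 4 136 [9, 0, 1, 5, 6, 8])
  (.br 17 (.col 31 (.bad 2 129 [9, 1, 3, 4, 6, 8]))
  (.bad 2 160 [1, 2, 6, 9, 3, 4])))))))
  (.br 46 (.col 26 (.col 37 (.bad 2 40 [9, 6, 7, 1, 2, 4])))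
  (.br 52 (.col 30 (.col 35 (.col 37 (.br 57 (.bad 4 160 [9, 1, 3, 6, 8, 2])
  (.br 53 (.bad 4 136 [9, 0, 6, 5, 1, 8])
  (.br 16 (.col 33 (.col 38 (.bad 2 160 [9, 1, 3, 4, 6, 8])))
  (.bad 2 192 [0, 2, 5, 9, 3, 4])))))))
  (.br 53 (.col 18 (.col 29 (.bad 2 9 [9, 6, 7, 1, 2, 4])))
  (.br 16 (.col 6 (.col 21 (.col 22 (.col 27 (.col 32 (.col 33 (.col 38 (.col 42 (.col 48 (.col 49 (.col 58 (.col 63 (.br 47 (.col 0 (.col 24 (.col 36 (.col 44 (.col 45 (.br 50 (.bad 4 257 [9, 1, 2, 6, 7, 5])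
  (.bad 2 257 [9, 1, 2, 4, 6, 7])))))))
  (.br 48 (.col 25 (.col 36 (.col 40 (.col 53 (.col 56 (.col 59 (.br 50 (.bad 4 320 [9, 0, 7, 5, 2, 3])
  (.bad 2 320 [9, 2, 5, 0, 4, 7]))))))))
  (.br 49 (.col 35 (.col 51 (.bad 2 34 [9, 7, 8, 2, 3, 4])))
  (.br 50 (.col 39 (.col 40 (.col 65 (.bad 2 192 [9, 0, 8, 3, 4, 5]))))
  (.br 54 (.col 10 (.col 24 (.col 36 (.br 57 (.bad 4 288 [9, 1, 2, 6, 7, 3])
  (.bad 2 288 [9, 1, 2, 4, 6, 7])))))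
  (.br 55 (.col 17 (.col 24 (.col 36 (.br 56 (.bad 4 257 [9, 1, 7, 6, 2, 5])
  (.bad 2 257 [9, 2, 6, 1, 4, 7])))))
  (.br 56 (.col 28 (.col 36 (.col 40 (.br 57 (.bad 4 384 [9, 0, 1, 5, 6, 3])
  (.bad 2 384 [9, 0, 1, 4, 5, 6])))))
  (.br 57 (.col 43 (.col 59 (.bad 2 96 [9, 7, 8, 2, 3, 4])))
  (.br 39 (.col 40 (.col 57 (.col 62 (.sol 9))))
  (.col 40 (.col 57 (.col 62 (.sol 15)))))))))))))))))))))))))
  (.col 21 (.col 33 (.br 20 (.col 54 (.col 58 (.col 63 (.col 47 (.col 48 (.br 39 (.col 40 (.col 46 (.col 51 (.col 52 (.col 55 (.col 59 (.col 60 (.sol 8))))))))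
  (.col 46 (.col 51 (.col 52 (.col 55 (.col 59 (.col 60 (.br 42 (.sol 19)
  (.bad 2 130 [0, 5, 6, 9, 3, 4]))))))))))))))
  (.bad 0 176 [9, 1, 2, 3, 6, 8])))))))))))))))))
  (.col 50 (.br 11 (.col 34 (.br 16 (.col 6 (.col 21 (.col 22 (.col 32 (.col 33 (.col 38 (.col 42 (.col 48 (.col 49 (.col 54 (.col 58 (.col 63 (.br 47 (.col 0 (.col 44 (.col 46 (.bad 2 34 [3, 6, 8, 9, 2, 4]))))
  (.br 48 (.col 25 (.col 52 (.col 59 (.bad 2 34 [3, 6, 8, 9, 2, 4]))))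
  (.br 54 (.col 10 (.col 28 (.col 29 (.col 30 (.col 51 (.br 55 (.bad 4 260 [9, 0, 6, 5, 1, 7])
  (.bad 2 65 [3, 5, 8, 9, 2, 4])))))))
  (.br 55 (.col 17 (.col 55 (.bad 2 34 [3, 6, 8, 9, 2, 4])))
  (.br 39 (.col 30 (.col 35 (.col 36 (.col 37 (.col 39 (.col 43 (.col 51 (.col 60 (.sol 7)))))))))
  (.col 30 (.col 35 (.col 36 (.col 37 (.col 39 (.col 43 (.col 60 (.br 41 (.sol 18)
  (.bad 2 34 [3, 6, 8, 9, 2, 4]))))))))))))))))))))))))))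
  (.col 33 (.col 38 (.col 63 (.br 18 (.col 49 (.bad 4 17 [9, 2, 8, 7, 3, 5]))
  (.bad 0 52 [9, 1, 3, 6, 7, 8])))))))
  (.bad 0 88 [9, 0, 2, 5, 7, 8]))))))))))))))
  (.br 12 (.col 8 (.col 34 (.br 4 (.bad 4 24 [9, 1, 7, 6, 2, 8])
  (.br 3 (.col 16 (.br 10 (.bad 9 24 [9, 0, 6, 5, 2, 1, 7, 8])
  (.bad 0 88 [9, 0, 2, 5, 7, 8])))
  (.bad 0 28 [9, 0, 1, 5, 6, 8])))))
  (.br 13 (.col 7 (.col 34 (.br 3 (.bad 4 24 [9, 0, 7, 5, 2, 8])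
  (.br 4 (.col 23 (.br 9 (.bad 9 24 [9, 0, 7, 5, 1, 2, 6, 8])
  (.bad 0 56 [9, 1, 2, 6, 7, 8])))
  (.bad 0 28 [9, 0, 1, 5, 6, 8])))))
  (.br 27 (.col 4 (.col 31 (.col 32 (.br 25 (.bad 4 17 [9, 1, 7, 6, 2, 5])
  (.br 32 (.col 47 (.col 49 (.br 10 (.br 24 (.col 14 (.br 6 (.col 23 (.col 27 (.col 34 (.br 20 (.bad 4 272 [9, 0, 2, 5, 7, 3])
  (.bad 0 176 [9, 1, 2, 3, 6, 8])))))
  (.bad 0 274 [9, 0, 2, 5, 6, 7])))
  (.bad 0 22 [9, 0, 3, 5, 7, 8]))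
  (.bad 0 81 [9, 2, 3, 5, 7, 8]))))
  (.bad 0 21 [9, 1, 3, 6, 7, 8]))))))
  (.br 29 (.col 32 (.col 63 (.br 11 (.bad 4 144 [9, 1, 8, 6, 3, 2])
  (.br 8 (.col 38 (.bad 1 16 [9, 0, 1, 2, 3, 7]))
  (.bad 0 152 [9, 0, 1, 5, 6, 8])))))
  (.br 19 (.col 4 (.br 30 (.col 31 (.col 47 (.col 20 (.bad 0 21 [9, 1, 3, 6, 7, 8]))))
  (.br 31 (.col 6 (.col 14 (.col 21 (.bad 0 26 [9, 0, 2, 5, 7, 8]))))
  (.br 32 (.col 5 (.col 20 (.bad 0 145 [9, 1, 3, 5, 6, 8])))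
  (.br 45 (.col 1 (.col 24 (.col 28 (.col 29 (.col 30 (.br 47 (.bad 4 3 [9, 2, 8, 7, 3, 6])
  (.br 49 (.bad 4 130 [9, 0, 3, 5, 8, 6])
  (.br 6 (.col 8 (.col 14 (.col 21 (.col 33 (.br 36 (.col 20 (.col 22 (.col 23 (.col 27 (.col 34 (.col 38 (.bad 2 160 [2, 3, 8, 9, 1, 4])))))))
  (.bad 0 145 [9, 1, 3, 5, 6, 8]))))))
  (.bad 2 258 [2, 6, 7, 9, 0, 4])))))))))
  (.br 47 (.col 0 (.col 44 (.col 45 (.col 46 (.br 16 (.col 33 (.bad 2 129 [3, 5, 8, 9, 1, 4]))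
  (.bad 2 130 [3, 6, 8, 9, 0, 4]))))))
  (.br 56 (.col 28 (.col 60 (.col 61 (.br 52 (.bad 4 130 [9, 0, 8, 5, 3, 6])
  (.br 53 (.bad 4 129 [9, 1, 8, 6, 3, 5])
  (.br 8 (.col 34 (.bad 2 136 [1, 6, 8, 9, 0, 4]))
  (.bad 2 136 [0, 5, 8, 9, 1, 4])))))))
  (.br 6 (.col 8 (.col 14 (.col 21 (.col 33 (.col 50 (.br 36 (.col 20 (.col 22 (.col 23 (.col 27 (.col 34 (.col 38 (.col 42 (.col 49 (.col 9 (.br 43 (.col 3 (.col 11 (.col 12 (.bad 2 136 [0, 5, 8, 9, 1, 4]))))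
  (.br 49 (.col 35 (.col 40 (.col 64 (.bad 2 136 [0, 5, 8, 9, 1, 4]))))
  (.br 52 (.col 11 (.col 24 (.col 37 (.bad 2 129 [3, 5, 8, 9, 1, 4]))))
  (.br 54 (.col 10 (.col 17 (.col 19 (.col 52 (.bad 2 136 [0, 5, 8, 9, 1, 4])))))
  (.br 39 (.col 19 (.col 25 (.col 26 (.col 36 (.col 39 (.col 43 (.col 55 (.sol 6))))))))
  (.col 19 (.col 25 (.col 26 (.col 39 (.col 43 (.col 55 (.br 40 (.sol 17)
  (.bad 2 136 [0, 5, 8, 9, 1, 4]))))))))))))))))))))))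
  (.bad 0 145 [9, 1, 3, 5, 6, 8])))))))
  (.col 21 (.br 22 (.col 14 (.br 17 (.col 5 (.col 13 (.col 15 (.col 16 (.col 20 (.col 22 (.col 23 (.col 27 (.col 38 (.col 42 (.br 44 (.col 17 (.col 18 (.col 19 (.br 50 (.bad 4 65 [9, 2, 3, 7, 8, 5])
  (.bad 2 192 [2, 3, 8, 9, 0, 4])))))
  (.br 50 (.col 39 (.col 60 (.col 65 (.bad 2 136 [1, 6, 8, 9, 0, 4]))))
  (.br 53 (.col 18 (.col 24 (.col 41 (.bad 2 130 [3, 6, 8, 9, 0, 4]))))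
  (.br 55 (.col 17 (.col 56 (.bad 2 192 [2, 3, 8, 9, 0, 4])))
  (.br 39 (.col 3 (.col 10 (.col 11 (.col 12 (.col 25 (.col 26 (.col 35 (.col 43 (.sol 16)))))))))
  (.br 42 (.col 10 (.col 11 (.col 12 (.col 25 (.col 26 (.col 35 (.col 43 (.sol 5))))))))
  (.bad 2 192 [2, 3, 8, 9, 0, 4])))))))))))))))))
  (.bad 2 20 [3, 7, 8, 9, 0, 1])))
  (.bad 0 274 [9, 0, 2, 5, 6, 7])))))))))))
  (.br 34 (.col 48 (.br 9 (.bad 4 18 [9, 0, 8, 5, 3, 6])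
  (.bad 0 26 [9, 0, 2, 5, 7, 8])))
  (.bad 0 19 [9, 2, 3, 6, 7, 8]))))))))))))

def B_de01_1111 : Dat where
  r := 5
  V := [[.i, .o, .o, .o, .o],
    [.o, .i, .o, .o, .o],
    [.o, .o, .i, .o, .o],
    [.o, .o, .o, .i, .o],
    [.o, .o, .o, .o, .i],
    [.v, .w, .w, .w, .w],
    [.w, .v, .w, .w, .w],
    [.w, .w, .v, .w, .w],
    [.w, .w, .w, .v, .w]]
  P := [[.i, .o, .o, .o, .o],
    [.o, .i, .o, .o, .o],
    [.o, .o, .i, .o, .o],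
    [.o, .o, .o, .i, .o],
    [.o, .o, .o, .o, .i],
    [.v, .w, .w, .w, .w],
    [.w, .v, .w, .w, .w],
    [.w, .w, .v, .w, .w],
    [.w, .w, .w, .v, .w],
    [.i, .i, .i, .i, .i],
    [.o, .o, .o, .o, .o],
    [.i, .o, .o, .o, .i],
    [.o, .i, .o, .o, .i],
    [.o, .o, .i, .o, .i],
    [.o, .o, .o, .i, .i],
    [.w, .w, .w, .w, .v],
    [.v, .w, .w, .w, .v],
    [.w, .v, .w, .w, .v],
    [.w, .w, .v, .w, .v],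
    [.w, .w, .w, .v, .v]]
  F := [[.i, .o, .o, .o, .o],
    [.o, .i, .o, .o, .o],
    [.i, .i, .o, .o, .o],
    [.i, .w, .o, .o, .o],
    [.i, .v, .o, .o, .o],
    [.o, .o, .i, .o, .o],
    [.i, .o, .i, .o, .o],
    [.o, .i, .i, .o, .o],
    [.i, .v, .i, .o, .o],
    [.i, .o, .w, .o, .o],
    [.o, .i, .w, .o, .o],
    [.i, .w, .w, .o, .o],
    [.i, .o, .v, .o, .o],
    [.o, .i, .v, .o, .o],
    [.i, .i, .v, .o, .o],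
    [.o, .o, .o, .i, .o],
    [.i, .o, .o, .i, .o],
    [.o, .i, .o, .i, .o],
    [.i, .v, .o, .i, .o],
    [.o, .o, .i, .i, .o],
    [.i, .w, .i, .i, .o],
    [.i, .i, .w, .i, .o],
    [.i, .o, .v, .i, .o],
    [.o, .i, .v, .i, .o],
    [.i, .o, .o, .w, .o],
    [.o, .i, .o, .w, .o],
    [.i, .w, .o, .w, .o],
    [.o, .o, .i, .w, .o],
    [.i, .i, .i, .w, .o],
    [.i, .o, .w, .w, .o],
    [.o, .i, .w, .w, .o],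
    [.i, .o, .o, .v, .o],
    [.o, .i, .o, .v, .o],
    [.i, .i, .o, .v, .o],
    [.o, .o, .i, .v, .o],
    [.i, .o, .i, .v, .o],
    [.o, .i, .i, .v, .o],
    [.i, .v, .v, .v, .o],
    [.o, .o, .o, .o, .i],
    [.i, .o, .o, .o, .i],
    [.o, .i, .o, .o, .i],
    [.o, .o, .i, .o, .i],
    [.o, .o, .o, .i, .i],
    [.i, .o, .o, .o, .w],
    [.o, .i, .o, .o, .w],
    [.o, .o, .i, .o, .w],
    [.i, .i, .i, .o, .w],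
    [.o, .o, .o, .i, .w],
    [.i, .i, .o, .i, .w],
    [.i, .o, .i, .i, .w],
    [.o, .i, .i, .i, .w],
    [.i, .i, .o, .o, .v],
    [.i, .o, .i, .o, .v],
    [.o, .i, .i, .o, .v],
    [.i, .o, .o, .i, .v],
    [.o, .i, .o, .i, .v],
    [.o, .o, .i, .i, .v],
    [.i, .i, .i, .i, .v]]
  ht := 0x1e001830145012600c900aa006c01c101a20164010700e8008b004d002e00e7016b01ad01ce000f01d000d100b201130074011501160191019200f0009301540055003601510132017001b00073013400b500d6001700780099009a00d80059003a00b80139015a001b005c003c019c001d001e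
  ct := 0x390000000000000000000000000025000000000000270000027009d900000000000000000000000000001400000000000028000002800c54000000000000000200000020074f00000007f009d400009d4007000000000000000000000000000000001500000000000029000003000a548000000000000006000001a0018b80000002701fd480009db8052000000000000000000700000120058380000002800a7f8000d9400520000000000020018380007d0004400000009d40052000005e000000000000000000000000000000000000001c0000000000002e000002a00a95000000000000000b000001000412000000027009da8001fd5005400000000000000000080000011008c880000002800d140000abf8054000000000002003068000408803600000009d4005a00000540000000000000000000000000e0000021004c980000003300a548000a9500fe00000000000400185000040c802600000009d600520000054000000000000000000300243800060880260000000ad40052000005400000000000000000800a000001e0000000000004c00000000000000000000000000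
  cl := [(15, 3, 0x844000008000),
    (15, 2, 0x224000000020),
    (15, 1, 0x114000000002),
    (15, 0, 0x8c000000001),
    (23, 2, 0x408088020),
    (23, 1, 0x102028002),
    (23, 0, 0x81018001),
    (27, 1, 0x24a2),
    (27, 0, 0x1261),
    (29, 0, 0x1f),
    (39, 0, 0x400c0001000000),
    (43, 0, 0x100a0000000200),
    (45, 0, 0x8090000000008),
    (51, 1, 0xa0080),
    (51, 0, 0x801480200),
    (53, 0, 0x201060008),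
    (57, 0, 0x4388),
    (71, 1, 0x80140002000000),
    (75, 1, 0x20120000000400),
    (77, 0, 0x8108000000010),
    (83, 1, 0x1002880400),
    (83, 0, 0x90040),
    (85, 0, 0x206010010),
    (89, 0, 0x4c50),
    (102, 2, 0x60000080000),
    (101, 0, 0x9040200000000),
    (105, 0, 0x8420000004000),
    (113, 0, 0x210284000),
    (135, 2, 0x100240008000000),
    (139, 1, 0x20210000002000),
    (139, 0, 0x10208000001000),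
    (147, 1, 0x1048022000),
    (147, 0, 0x828011000),
    (149, 0, 0x30004),
    (153, 0, 0x3904),
    (163, 0, 0x12040800000000),
    (166, 1, 0x50000020000),
    (169, 0, 0x10410000000100),
    (177, 0, 0x810120100),
    (195, 1, 0x24041000000000),
    (197, 0, 0x48000010000),
    (201, 0, 0x20408000000800),
    (209, 0, 0x3010010800),
    (225, 0, 0x200440010000000),
    (263, 2, 0x100820400000000),
    (263, 1, 0x80810100000000),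
    (263, 0, 0x40808080000000),
    (275, 1, 0x540800080),
    (275, 0, 0x4a0400040),
    (277, 0, 0x184040004),
    (281, 0, 0xc4),
    (291, 0, 0x42020000400000),
    (293, 0, 0x41010000040000),
    (298, 1, 0x30000000080),
    (305, 0, 0x740080),
    (323, 1, 0x84020000800000),
    (325, 0, 0x81008004000000),
    (329, 0, 0x28000000040),
    (337, 0, 0x2004a00040),
    (353, 0, 0x201020000200000),
    (387, 1, 0x104010040000000),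
    (387, 0, 0x102008020000000),
    (393, 0, 0x18000000004),
    (401, 0, 0x2060100004),
    (417, 0, 0x202010000100000),
    (449, 0, 0x20400a000000000)]
  sl := [0x1a4b7554a8aa4a2, 0x152aecca9499261, 0xc99dc38707801f, 0x387bc000007fff, 0x3fffffffff, 0x25b4f0a117e4388, 0x2ad56b216a94c50, 0x33665b878133904, 0x3c783a5e4f400c4, 0x780000b00c4, 0x3ffffffffffffff, 0x954a8aa4a2, 0x10ca9499261, 0x2038707801f, 0x40000007fff, 0xb00c4, 0x8a117e4388, 0x13216a94c50, 0x23878133904, 0x425e4f400c4]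
  t := B_de01_1111_t

theorem B_de01_1111_okD : B_de01_1111.ckD = true := by decide +kernel

theorem B_de01_1111_okT : B_de01_1111.ckT TTab B_de01_1111.t 0 0 = true := by decide +kernel

theorem lext_de01_1111 : LExt 5 9 (vecL 5 B_de01_1111.V) (vecP 5 B_de01_1111.P) :=
  lext_of_chk' B_de01_1111 B_de01_1111_okD B_de01_1111_okT (by decide)

end QG
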