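import Pool.Agent.Lib.QG.BC8

/-! MP_2e6874_co, part (B): data for de01_211. -/

set_option autoImplicit false
set_option maxRecDepth 100000

namespace QG

def B_de01_211_t : Tr :=
  .br 0 (.br 1 (.col 6 (.br 18 (.col 2 (.col 3 (.col 9 (.col 18 (.br 4 (.col 1 (.col 5 (.col 8 (.col 12 (.col 16 (.col 17 (.col 22 (.col 30 (.col 33 (.col 37 (.br 11 (.col 0 (.col 4 (.col 7 (.col 10 (.col 11 (.col 13 (.col 14 (.col 20 (.col 21 (.col 34 (.col 35 (.col 39 (.sol 10)))))))))))))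
  (.col 0 (.col 4 (.col 7 (.col 10 (.col 11 (.col 13 (.col 14 (.col 20 (.col 21 (.col 34 (.col 35 (.col 39 (.sol 3))))))))))))))))))))))))
  (.col 1 (.col 5 (.col 8 (.col 12 (.col 16 (.col 17 (.col 22 (.col 30 (.col 33 (.col 37 (.br 16 (.col 10 (.col 11 (.col 32 (.col 47 (.col 50 (.br 34 (.bad 4 288 [9, 1, 4, 7, 6, 2])
  (.bad 2 160 [1, 4, 6, 9, 3, 8])))))))
  (.col 40 (.br 17 (.col 34 (.col 50 (.col 54 (.col 56 (.col 60 (.br 36 (.bad 4 320 [9, 0, 7, 5, 1, 4])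
  (.bad 2 96 [1, 4, 7, 9, 3, 8])))))))
  (.col 56 (.br 34 (.col 60 (.col 61 (.bad 4 384 [9, 0, 2, 5, 6, 4])))
  (.br 36 (.col 20 (.col 21 (.col 32 (.col 36 (.bad 4 258 [9, 0, 7, 5, 6, 4])))))
  (.br 11 (.col 0 (.col 4 (.col 7 (.col 10 (.col 11 (.col 14 (.col 21 (.sol 2))))))))
  (.col 0 (.col 4 (.col 7 (.col 11 (.col 14 (.col 21 (.br 14 (.sol 13)
  (.bad 2 65 [1, 5, 7, 9, 3, 8]))))))))))))))))))))))))))))))
  (.col 2 (.col 3 (.col 9 (.col 18 (.br 4 (.col 1 (.col 5 (.col 8 (.col 12 (.col 16 (.col 17 (.col 22 (.col 30 (.col 33 (.col 37 (.br 11 (.col 0 (.col 4 (.col 7 (.col 10 (.col 11 (.col 13 (.col 14 (.col 20 (.col 21 (.col 34 (.col 35 (.col 39 (.sol 4)))))))))))))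
  (.col 4 (.col 10 (.col 11 (.br 30 (.bad 4 6 [9, 3, 4, 8, 5, 0])
  (.br 42 (.bad 4 6 [9, 0, 6, 3, 4, 8])
  (.br 31 (.col 20 (.col 21 (.br 34 (.bad 4 96 [9, 1, 2, 7, 8, 4])
  (.bad 2 160 [1, 2, 8, 9, 3, 6]))))
  (.bad 2 6 [0, 3, 8, 9, 5, 6]))))))))))))))))))
  (.col 5 (.col 12 (.col 30 (.br 40 (.bad 4 10 [9, 0, 6, 2, 4, 7])
  (.br 44 (.bad 4 10 [9, 2, 4, 8, 6, 7])
  (.br 25 (.col 8 (.col 22 (.br 27 (.bad 4 136 [9, 2, 4, 8, 5, 0])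
  (.bad 0 168 [9, 1, 2, 4, 6, 8]))))
  (.bad 0 74 [9, 0, 2, 5, 7, 8]))))))))))))))
  (.col 6 (.br 6 (.col 12 (.col 19 (.col 5 (.br 8 (.bad 4 24 [9, 1, 2, 7, 8, 6])
  (.bad 2 24 [9, 1, 2, 5, 7, 8])))))
  (.br 8 (.col 30 (.col 46 (.col 5 (.bad 0 25 [9, 1, 2, 6, 7, 8]))))
  (.br 18 (.col 2 (.col 3 (.col 9 (.col 18 (.col 58 (.br 7 (.col 12 (.col 30 (.col 42 (.col 17 (.br 24 (.bad 4 264 [9, 0, 2, 5, 6, 4])
  (.bad 0 328 [9, 0, 1, 4, 5, 7]))))))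
  (.col 26 (.br 4 (.col 1 (.col 5 (.col 8 (.col 12 (.col 16 (.col 17 (.col 22 (.br 15 (.col 11 (.col 25 (.col 29 (.col 32 (.col 34 (.col 35 (.br 34 (.bad 4 160 [9, 2, 4, 8, 6, 1])
  (.bad 2 320 [0, 4, 5, 9, 3, 7]))))))))
  (.col 25 (.br 17 (.col 34 (.col 38 (.col 50 (.col 56 (.col 60 (.br 35 (.bad 4 192 [9, 0, 8, 5, 2, 4])
  (.bad 2 96 [2, 4, 8, 9, 3, 7])))))))
  (.col 56 (.br 34 (.col 60 (.col 61 (.bad 4 384 [9, 0, 2, 5, 6, 4])))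
  (.br 35 (.col 32 (.col 36 (.bad 4 132 [9, 0, 8, 5, 6, 4])))
  (.br 11 (.col 0 (.col 4 (.col 7 (.col 10 (.col 11 (.col 13 (.col 20 (.sol 1))))))))
  (.col 0 (.col 4 (.col 7 (.col 10 (.col 13 (.col 20 (.br 13 (.sol 12)
  (.bad 2 320 [0, 4, 5, 9, 3, 7]))))))))))))))))))))))
  (.col 5 (.col 8 (.br 29 (.bad 4 136 [9, 0, 1, 5, 6, 4])
  (.bad 0 200 [9, 0, 2, 4, 5, 8]))))))))))))
  (.col 3 (.br 22 (.bad 4 12 [9, 1, 4, 7, 5, 0])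
  (.br 39 (.bad 4 12 [9, 0, 6, 1, 4, 8])
  (.br 20 (.bad 4 12 [9, 1, 4, 8, 5, 0])
  (.br 21 (.bad 5 12 [4, 9, 1, 0, 6, 5, 8])
  (.bad 0 44 [9, 1, 4, 6, 7, 8])))))))))))
  (.br 1 (.col 6 (.br 38 (.col 3 (.col 18 (.bad 4 12 [9, 0, 4, 1, 6, 8])))
  (.br 43 (.col 18 (.col 28 (.bad 4 12 [9, 0, 4, 7, 6, 8])))
  (.br 18 (.col 2 (.col 3 (.col 9 (.br 5 (.col 5 (.col 12 (.col 16 (.col 17 (.col 37 (.br 24 (.bad 4 72 [9, 0, 2, 5, 8, 4])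
  (.bad 0 328 [9, 0, 1, 4, 5, 7])))))))
  (.col 27 (.br 4 (.col 1 (.col 5 (.col 8 (.col 12 (.col 16 (.col 17 (.col 22 (.col 30 (.col 33 (.col 37 (.br 31 (.col 7 (.col 10 (.col 13 (.col 15 (.bad 4 6 [9, 0, 8, 5, 6, 4])))))
  (.br 34 (.col 60 (.col 61 (.bad 4 384 [9, 0, 2, 5, 6, 4])))
  (.br 35 (.col 21 (.col 23 (.col 32 (.col 35 (.col 36 (.bad 4 132 [9, 0, 8, 5, 6, 4]))))))
  (.br 36 (.col 20 (.col 23 (.col 47 (.col 51 (.col 52 (.bad 4 258 [9, 0, 7, 5, 6, 4]))))))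
  (.br 11 (.col 0 (.col 4 (.col 7 (.col 10 (.col 11 (.col 13 (.col 14 (.col 34 (.col 35 (.sol 0))))))))))
  (.col 0 (.col 10 (.col 11 (.col 13 (.col 14 (.col 34 (.col 35 (.br 12 (.col 57 (.sol 11))
  (.bad 2 320 [1, 4, 7, 9, 3, 5]))))))))))))))))))))))))
  (.col 1 (.col 12 (.col 16 (.br 29 (.bad 4 136 [9, 0, 1, 5, 6, 4])
  (.br 41 (.col 53 (.br 25 (.bad 4 10 [9, 0, 7, 5, 6, 4])
  (.bad 0 74 [9, 0, 2, 5, 7, 8])))
  (.bad 0 200 [9, 0, 2, 4, 5, 8]))))))))))))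
  (.col 2 (.br 21 (.col 9 (.br 4 (.col 1 (.col 5 (.col 8 (.col 12 (.col 16 (.col 17 (.col 22 (.col 30 (.col 33 (.col 37 (.br 11 (.col 0 (.col 4 (.col 7 (.col 10 (.col 11 (.col 13 (.col 14 (.col 20 (.col 21 (.col 34 (.col 35 (.col 39 (.sol 5)))))))))))))
  (.col 7 (.col 10 (.col 11 (.col 34 (.br 12 (.bad 4 6 [9, 3, 5, 8, 4, 0])
  (.br 33 (.bad 4 3 [9, 3, 5, 8, 6, 7])
  (.br 37 (.bad 4 257 [9, 3, 5, 7, 6, 2])
  (.bad 2 320 [1, 4, 7, 9, 0, 3])))))))))))))))))))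
  (.col 8 (.col 12 (.col 22 (.col 33 (.br 9 (.bad 4 10 [9, 2, 5, 8, 4, 0])
  (.br 5 (.bad 4 10 [9, 2, 5, 7, 4, 0])
  (.br 45 (.bad 4 72 [9, 0, 8, 5, 2, 4])
  (.br 8 (.bad 4 136 [9, 2, 5, 8, 4, 0])
  (.br 44 (.col 53 (.bad 2 136 [1, 4, 6, 9, 5, 8]))
  (.bad 2 264 [0, 4, 5, 9, 1, 6]))))))))))))
  (.bad 0 76 [9, 0, 1, 5, 7, 8])))))))
  (.br 19 (.col 3 (.col 9 (.br 3 (.bad 4 12 [9, 1, 5, 7, 4, 0])
  (.br 2 (.bad 4 12 [9, 1, 5, 8, 4, 0])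
  (.br 43 (.col 18 (.bad 7 12 [1, 0, 7, 8, 9, 5, 4, 6]))
  (.bad 2 12 [4, 6, 8, 9, 5, 7]))))))
  (.br 4 (.col 5 (.col 8 (.col 12 (.br 18 (.col 1 (.col 2 (.col 3 (.col 16 (.col 17 (.br 29 (.bad 4 72 [9, 0, 1, 5, 7, 4])
  (.br 2 (.col 18 (.col 44 (.col 49 (.col 53 (.bad 0 200 [9, 0, 2, 4, 5, 8])))))
  (.col 44 (.br 21 (.bad 4 12 [9, 0, 8, 5, 6, 4])
  (.br 43 (.col 37 (.br 24 (.bad 4 264 [9, 0, 2, 5, 6, 4])
  (.bad 0 328 [9, 0, 1, 4, 5, 7])))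
  (.bad 0 76 [9, 0, 1, 5, 7, 8])))))))))))
  (.col 1 (.br 44 (.bad 4 10 [9, 0, 4, 8, 6, 7])
  (.br 38 (.bad 4 10 [9, 0, 4, 2, 6, 7])
  (.bad 0 74 [9, 0, 2, 5, 7, 8]))))))))
  (.br 11 (.col 7 (.col 10 (.col 11 (.br 17 (.bad 4 17 [9, 1, 2, 7, 8, 6])
  (.br 35 (.bad 4 36 [9, 1, 4, 7, 6, 8])
  (.br 36 (.bad 4 34 [9, 2, 4, 8, 6, 7])
  (.br 34 (.bad 6 32 [9, 1, 7, 6, 2, 4, 8])
  (.bad 2 544 [1, 2, 4, 6, 7, 8]))))))))
  (.br 18 (.col 0 (.col 1 (.col 2 (.col 3 (.br 21 (.col 9 (.col 18 (.bad 4 12 [9, 0, 8, 5, 6, 4])))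
  (.br 25 (.col 8 (.col 17 (.bad 4 10 [9, 0, 7, 5, 6, 4])))
  (.br 31 (.col 7 (.col 15 (.bad 4 6 [9, 0, 8, 5, 6, 4])))
  (.br 2 (.col 6 (.col 18 (.col 28 (.col 44 (.br 7 (.col 12 (.col 19 (.col 49 (.col 53 (.bad 0 74 [9, 0, 2, 5, 7, 8])))))
  (.col 26 (.br 15 (.col 11 (.col 32 (.col 34 (.br 16 (.bad 4 17 [9, 1, 8, 7, 2, 6])
  (.br 23 (.col 27 (.col 30 (.col 46 (.bad 2 17 [9, 2, 7, 1, 3, 8]))))
  (.bad 2 34 [4, 6, 7, 9, 2, 3]))))))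
  (.col 25 (.br 29 (.col 22 (.col 49 (.bad 0 25 [9, 1, 2, 6, 7, 8])))
  (.br 35 (.col 32 (.col 36 (.bad 4 132 [9, 0, 8, 5, 6, 4])))
  (.br 5 (.col 5 (.col 17 (.col 19 (.col 22 (.col 27 (.col 30 (.col 33 (.col 37 (.col 43 (.col 46 (.col 53 (.br 16 (.col 10 (.col 23 (.col 31 (.col 47 (.col 50 (.br 34 (.bad 4 288 [9, 1, 4, 7, 6, 2])
  (.bad 2 288 [9, 1, 4, 3, 6, 7])))))))
  (.col 40 (.br 17 (.col 34 (.col 50 (.bad 2 17 [9, 7, 8, 1, 2, 3])))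
  (.col 56 (.br 34 (.col 60 (.col 61 (.bad 4 384 [9, 0, 2, 5, 6, 4])))
  (.br 36 (.col 20 (.col 31 (.col 38 (.bad 4 258 [9, 0, 7, 5, 6, 4]))))
  (.br 12 (.col 38 (.col 54 (.col 57 (.sol 9))))
  (.col 38 (.col 54 (.col 57 (.sol 14))))))))))))))))))))))
  (.col 19 (.col 27 (.br 10 (.col 42 (.col 46 (.col 49 (.col 53 (.br 12 (.col 38 (.col 45 (.col 47 (.col 48 (.col 50 (.col 51 (.col 55 (.sol 8))))))))
  (.col 45 (.col 47 (.col 48 (.col 50 (.col 51 (.col 55 (.br 14 (.sol 16)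
  (.bad 2 160 [1, 4, 6, 9, 2, 3])))))))))))))
  (.bad 0 25 [9, 1, 2, 6, 7, 8])))))))))))))))
  (.col 44 (.br 43 (.col 28 (.br 5 (.col 5 (.col 17 (.col 19 (.col 27 (.col 30 (.col 33 (.col 37 (.col 43 (.col 46 (.col 49 (.col 53 (.br 16 (.col 10 (.col 35 (.col 36 (.col 50 (.bad 2 68 [0, 5, 8, 9, 1, 3])))))
  (.col 40 (.br 36 (.col 20 (.col 31 (.col 35 (.col 36 (.bad 4 258 [9, 0, 7, 5, 6, 4])))))
  (.br 12 (.col 29 (.col 32 (.col 34 (.col 35 (.col 39 (.col 48 (.sol 7)))))))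
  (.col 29 (.col 32 (.col 34 (.col 35 (.col 39 (.br 13 (.sol 15)
  (.bad 2 65 [2, 5, 8, 9, 1, 3]))))))))))))))))))))))
  (.col 37 (.br 44 (.bad 4 72 [9, 1, 8, 7, 2, 4])
  (.bad 0 74 [9, 0, 2, 5, 7, 8])))))
  (.bad 0 76 [9, 0, 1, 5, 7, 8])))))))))))
  (.br 3 (.col 6 (.col 28 (.br 39 (.bad 4 12 [9, 0, 6, 7, 4, 8])
  (.br 20 (.bad 4 12 [9, 4, 7, 5, 8, 0])
  (.br 21 (.bad 5 12 [4, 9, 7, 0, 6, 5, 8])
  (.bad 0 44 [9, 1, 4, 6, 7, 8]))))))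
  (.br 7 (.col 12 (.col 26 (.col 30 (.br 43 (.bad 4 136 [9, 0, 4, 2, 6, 1])
  (.br 41 (.bad 4 136 [9, 0, 4, 8, 6, 1])
  (.br 29 (.col 22 (.col 33 (.col 49 (.br 40 (.bad 4 10 [9, 0, 6, 5, 7, 4])
  (.br 2 (.bad 4 12 [9, 4, 8, 5, 7, 0])
  (.br 9 (.bad 4 264 [9, 1, 4, 7, 5, 0])
  (.br 38 (.col 17 (.bad 2 264 [2, 4, 6, 9, 1, 5]))
  (.bad 2 10 [0, 4, 5, 9, 2, 6]))))))))
  (.bad 0 200 [9, 0, 2, 4, 5, 8])))))))
  (.br 8 (.col 30 (.col 58 (.br 22 (.bad 4 136 [9, 2, 5, 8, 4, 0])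
  (.br 23 (.bad 4 136 [9, 1, 5, 8, 4, 0])
  (.br 29 (.col 37 (.bad 5 136 [4, 9, 8, 0, 6, 5, 1]))
  (.bad 0 168 [9, 1, 2, 4, 6, 8]))))))
  (.br 6 (.col 12 (.br 9 (.col 5 (.col 19 (.col 43 (.br 40 (.bad 4 10 [9, 0, 6, 8, 4, 7])
  (.col 16 (.br 41 (.bad 4 264 [9, 1, 4, 7, 6, 2])
  (.br 24 (.col 22 (.col 33 (.bad 0 648 [0, 1, 2, 4, 5, 8])))
  (.bad 0 328 [9, 0, 1, 4, 5, 7]))))))))
  (.br 15 (.col 11 (.col 23 (.col 25 (.col 29 (.col 34 (.br 16 (.bad 4 17 [9, 1, 8, 7, 2, 6])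
  (.br 39 (.bad 4 5 [9, 3, 6, 7, 5, 8])
  (.col 16 (.br 43 (.bad 4 132 [9, 0, 4, 3, 6, 8])
  (.br 42 (.bad 4 5 [9, 1, 6, 7, 5, 8])
  (.br 37 (.bad 4 129 [9, 2, 5, 8, 6, 1])
  (.br 33 (.col 52 (.br 31 (.bad 4 66 [9, 0, 8, 5, 2, 7])
  (.br 30 (.bad 4 258 [9, 0, 6, 5, 7, 4])
  (.br 38 (.col 17 (.col 18 (.col 22 (.br 41 (.bad 4 72 [9, 1, 2, 7, 8, 4])
  (.bad 0 200 [9, 0, 2, 4, 5, 8])))))
  (.bad 2 6 [4, 6, 8, 9, 3, 5])))))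
  (.bad 0 769 [1, 2, 3, 5, 6, 7])))))))))))))
  (.br 16 (.col 10 (.col 23 (.col 40 (.col 45 (.col 50 (.br 40 (.bad 4 3 [9, 3, 6, 8, 5, 7])
  (.col 16 (.br 37 (.bad 4 257 [9, 1, 5, 7, 6, 2])
  (.br 32 (.col 36 (.br 30 (.bad 4 132 [9, 0, 6, 5, 8, 4])
  (.col 47 (.br 22 (.col 9 (.col 22 (.col 33 (.bad 0 296 [9, 1, 2, 4, 6, 7]))))
  (.bad 2 132 [4, 6, 8, 9, 3, 5])))))
  (.bad 0 641 [1, 2, 3, 5, 6, 8]))))))))))
  (.br 17 (.col 50 (.col 56 (.col 59 (.br 45 (.bad 4 257 [9, 3, 6, 7, 5, 2])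
  (.col 16 (.br 2 (.col 18 (.col 19 (.col 22 (.col 27 (.br 28 (.col 49 (.br 22 (.bad 4 136 [9, 1, 4, 2, 5, 0])
  (.bad 0 168 [9, 1, 2, 4, 6, 8])))
  (.bad 0 42 [9, 2, 4, 6, 7, 8]))))))
  (.bad 2 20 [1, 7, 8, 9, 3, 5])))))))
  (.br 20 (.col 9 (.col 22 (.col 44 (.col 19 (.br 45 (.bad 4 264 [9, 0, 6, 5, 2, 4])
  (.col 16 (.br 43 (.col 18 (.col 37 (.br 44 (.bad 4 72 [9, 1, 8, 7, 2, 4])
  (.bad 0 74 [9, 0, 2, 5, 7, 8]))))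
  (.bad 2 136 [0, 4, 5, 9, 2, 6]))))))))
  (.br 2 (.col 19 (.col 27 (.br 22 (.bad 4 136 [9, 1, 4, 2, 5, 0])
  (.br 21 (.col 18 (.col 22 (.col 33 (.col 37 (.col 49 (.col 53 (.col 16 (.br 12 (.col 15 (.col 20 (.col 21 (.col 31 (.col 35 (.col 39 (.col 51 (.sol 6))))))))
  (.col 15 (.col 21 (.br 30 (.bad 4 260 [9, 3, 6, 7, 5, 0])
  (.bad 2 36 [1, 7, 8, 9, 3, 4]))))))))))))
  (.bad 0 44 [9, 1, 4, 6, 7, 8])))))
  (.col 19 (.br 22 (.col 9 (.col 22 (.col 28 (.col 33 (.br 28 (.col 43 (.br 41 (.col 37 (.col 16 (.br 38 (.bad 4 72 [9, 1, 2, 7, 8, 4])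
  (.bad 0 76 [9, 0, 1, 5, 7, 8]))))
  (.bad 2 136 [1, 4, 6, 9, 5, 8])))
  (.bad 0 296 [9, 1, 2, 4, 6, 7]))))))
  (.bad 0 524 [0, 1, 4, 5, 7, 8]))))))))))
  (.br 10 (.col 42 (.col 46 (.br 44 (.bad 4 264 [9, 0, 4, 1, 6, 2])
  (.br 41 (.bad 4 264 [9, 0, 4, 7, 6, 2])
  (.br 24 (.col 49 (.col 8 (.br 5 (.bad 4 136 [9, 1, 4, 8, 5, 0])
  (.bad 2 24 [1, 6, 7, 9, 2, 5]))))
  (.bad 0 328 [9, 0, 1, 4, 5, 7]))))))
  (.bad 0 25 [9, 1, 2, 6, 7, 8])))))))))))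

def B_de01_211 : Dat where
  r := 5
  V := [[.i, .o, .o, .o, .o],
    [.o, .i, .o, .o, .o],
    [.o, .o, .i, .o, .o],
    [.o, .o, .o, .i, .o],
    [.o, .o, .o, .o, .i],
    [.i, .o, .o, .o, .i],
    [.w, .w, .w, .w, .i],
    [.w, .v, .w, .w, .o],
    [.w, .w, .v, .w, .o]]
  P := [[.i, .o, .o, .o, .o],
    [.o, .i, .o, .o, .o],
    [.o, .o, .i, .o, .o],
    [.o, .o, .o, .i, .o],
    [.o, .o, .o, .o, .i],
    [.i, .o, .o, .o, .i],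
    [.w, .w, .w, .w, .i],
    [.w, .v, .w, .w, .o],
    [.w, .w, .v, .w, .o],
    [.i, .i, .i, .i, .o],
    [.o, .o, .o, .o, .o],
    [.i, .o, .o, .i, .o],
    [.o, .i, .o, .i, .o],
    [.o, .o, .i, .i, .o],
    [.w, .w, .w, .v, .o],
    [.w, .v, .w, .v, .o],
    [.w, .w, .v, .v, .o]]
  F := [[.i, .o, .o, .o, .o],
    [.o, .i, .o, .o, .o],
    [.i, .i, .o, .o, .o],
    [.i, .v, .o, .o, .o],
    [.o, .o, .i, .o, .o],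
    [.i, .o, .i, .o, .o],
    [.o, .i, .i, .o, .o],
    [.o, .i, .w, .o, .o],
    [.i, .w, .w, .o, .o],
    [.i, .o, .v, .o, .o],
    [.o, .i, .v, .o, .o],
    [.o, .o, .o, .i, .o],
    [.i, .o, .o, .i, .o],
    [.o, .i, .o, .i, .o],
    [.o, .o, .i, .i, .o],
    [.o, .i, .o, .w, .o],
    [.o, .o, .i, .w, .o],
    [.o, .i, .i, .v, .o],
    [.o, .o, .o, .o, .i],
    [.i, .o, .o, .o, .i],
    [.i, .i, .o, .o, .i],
    [.i, .w, .o, .o, .i],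
    [.i, .v, .o, .o, .i],
    [.i, .o, .i, .o, .i],
    [.i, .v, .i, .o, .i],
    [.i, .o, .w, .o, .i],
    [.o, .i, .w, .o, .i],
    [.i, .w, .w, .o, .i],
    [.i, .o, .v, .o, .i],
    [.i, .i, .v, .o, .i],
    [.i, .o, .o, .i, .i],
    [.i, .o, .o, .w, .i],
    [.o, .i, .o, .w, .i],
    [.o, .o, .i, .w, .i],
    [.i, .i, .i, .w, .i],
    [.i, .i, .o, .v, .i],
    [.i, .o, .i, .v, .i],
    [.o, .i, .i, .v, .i],
    [.i, .o, .o, .o, .w],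
    [.o, .i, .o, .o, .w],
    [.o, .o, .i, .o, .w],
    [.i, .w, .w, .o, .w],
    [.o, .o, .o, .i, .w],
    [.i, .v, .o, .o, .v],
    [.i, .o, .v, .o, .v],
    [.o, .i, .v, .o, .v]]
  ht := 0x149014a00cc004701c8004b004d004e01c1016200e401e0014300c5006601a600e8012a01a800c9006a016800aa00ac006c012c002e018f01b1013300b500f3017501d600370139011a019800b9007900da003b009c015c003d001e
  ct := 0x22000000000000000000000000000c00000000000029000000c003128000000000000000000000000000110000000000001b000001e007888000000000000008000000c00308800000012004890001fc9002400000000000000000000000000000000d00000000000018000000d009068000000000000002000007f0030680000000200b1680003068042000000000000000000a000000d0043f80000001400705000078680200000000000020024500003068020000000048900240000024000000000000000000000000000000000000000e0000000000001d0000023003870000000000000005000000c01fc700000002b0014d0000310001c0000000000000000007000000f003bf800000016005c38000787801c000000000003001438000307801c00000004890024000002400000000000000000000000006000000d003bf8000000150064300007c6801c000000000002001430000306801c00000009938050000005400000000000000000010013f80002ff80fe00000004c08008000001600000000000000000800800000160000000000002400000000000000000000000000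
  cl := [(15, 3, 0x40000040800),
    (15, 2, 0x10000040010),
    (15, 1, 0x8000040002),
    (15, 0, 0x40000c0001),
    (23, 0, 0x1801),
    (27, 0, 0x231),
    (29, 0, 0xf),
    (39, 0, 0xc0080800),
    (43, 0, 0x12880010),
    (45, 0, 0x780002),
    (54, 2, 0x14810),
    (54, 1, 0xa802),
    (58, 1, 0x4d2),
    (71, 2, 0x50200004000),
    (71, 1, 0x48100002000),
    (71, 0, 0x44080001000),
    (75, 1, 0x218004000040),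
    (75, 0, 0x114002000020),
    (77, 0, 0x8c000200004),
    (89, 0, 0x64),
    (99, 0, 0x1082004000),
    (101, 0, 0x880202000),
    (105, 0, 0x23200040),
    (114, 1, 0x6040),
    (135, 2, 0x44000),
    (135, 1, 0x100048000),
    (139, 1, 0x4040080),
    (139, 0, 0x840020),
    (141, 0, 0x80000440008),
    (149, 0, 0x9008),
    (153, 0, 0x1a8),
    (163, 0, 0x40804000),
    (165, 0, 0x840408000),
    (169, 0, 0x28c00080),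
    (178, 1, 0x2c080),
    (195, 1, 0x2104004000),
    (197, 0, 0x80900001000),
    (201, 0, 0xa0024000020),
    (209, 0, 0x5020),
    (225, 0, 0xc20004000),
    (263, 2, 0x200050000),
    (263, 1, 0x42000),
    (267, 1, 0x200000040400),
    (267, 0, 0x100010040200),
    (269, 0, 0x140004),
    (275, 0, 0x11200),
    (281, 0, 0x704),
    (291, 0, 0x1050010000),
    (293, 0, 0x40102000),
    (297, 0, 0x19100400),
    (306, 1, 0x32400),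
    (323, 1, 0x202200002000),
    (323, 0, 0x101200001000),
    (329, 0, 0x320001000004),
    (337, 0, 0x3004),
    (353, 0, 0x1401002000),
    (387, 1, 0x2000060000),
    (389, 0, 0x40041000),
    (393, 0, 0x20008040100),
    (401, 0, 0x21100),
    (417, 0, 0x448020000),
    (449, 0, 0x22400001000)]
  sl := [0x25a30407ecd2, 0x1552d28d5a31, 0xcc9c07cb80f, 0x3bc03ffc07ff, 0x3ffff, 0x1cfbfbecd2, 0x3fffa7207064, 0xa2d6cc6d1a8, 0x323659173704, 0x40947064, 0x3fffffffffff, 0x2180440414d2, 0x1140128c2231, 0x8c0007c400f, 0x940064, 0xa002cc421a8, 0x320019144704]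
  t := B_de01_211_t

theorem B_de01_211_okD : B_de01_211.ckD = true := by decide +kernel

theorem B_de01_211_okT : B_de01_211.ckT TTab B_de01_211.t 0 0 = true := by decide +kernel

theorem lext_de01_211 : LExt 5 9 (vecL 5 B_de01_211.V) (vecP 5 B_de01_211.P) :=
  lext_of_chk' B_de01_211 B_de01_211_okD B_de01_211_okT (by decide)

end QG
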