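import Pool.Agent.Lib.QG.BC8

/-! MP_2e6874_co, part (B): data for de01_22. -/

set_option autoImplicit false
set_option maxRecDepth 100000

namespace QG

def B_de01_22_t : Tr :=
  .br 0 (.br 6 (.col 23 (.br 16 (.col 20 (.col 21 (.col 25 (.col 29 (.br 1 (.col 2 (.col 3 (.col 6 (.col 7 (.col 10 (.col 11 (.col 17 (.col 35 (.br 3 (.col 5 (.col 8 (.col 14 (.col 18 (.col 19 (.col 24 (.col 26 (.col 27 (.col 28 (.col 32 (.col 33 (.col 40 (.sol 10)))))))))))))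
  (.col 5 (.col 8 (.col 14 (.col 18 (.col 19 (.col 24 (.col 26 (.col 27 (.col 28 (.col 32 (.col 33 (.col 40 (.sol 2))))))))))))))))))))))
  (.col 2 (.col 3 (.col 6 (.col 7 (.col 10 (.col 11 (.col 17 (.col 35 (.br 3 (.col 5 (.col 8 (.col 22 (.col 24 (.col 26 (.col 27 (.col 28 (.col 32 (.col 33 (.col 40 (.sol 7)))))))))))
  (.col 22 (.col 24 (.col 26 (.col 27 (.br 5 (.bad 4 65 [9, 2, 7, 5, 4, 1])
  (.br 27 (.bad 4 10 [9, 2, 7, 5, 8, 6])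
  (.br 21 (.bad 4 66 [9, 2, 7, 5, 8, 3])
  (.bad 2 288 [3, 4, 6, 9, 1, 2]))))))))))))))))))))))
  (.col 20 (.col 21 (.col 25 (.col 29 (.br 20 (.col 17 (.col 46 (.bad 4 68 [9, 1, 4, 5, 8, 3])))
  (.br 23 (.col 53 (.col 54 (.bad 4 384 [9, 0, 4, 5, 6, 3])))
  (.br 26 (.col 6 (.col 7 (.col 11 (.col 15 (.col 35 (.bad 4 12 [9, 1, 4, 5, 8, 6]))))))
  (.col 34 (.br 19 (.col 26 (.col 27 (.col 42 (.br 21 (.bad 4 288 [9, 1, 6, 7, 3, 4])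
  (.br 15 (.bad 4 9 [9, 1, 6, 7, 8, 4])
  (.bad 2 96 [1, 2, 3, 9, 7, 8]))))))
  (.col 49 (.br 1 (.col 2 (.col 3 (.col 6 (.col 7 (.col 11 (.col 35 (.br 3 (.col 5 (.col 8 (.col 14 (.col 18 (.col 19 (.col 24 (.col 27 (.col 33 (.col 40 (.sol 4))))))))))
  (.col 8 (.col 19 (.br 21 (.bad 4 96 [9, 1, 8, 2, 4, 3])
  (.br 18 (.bad 4 9 [9, 2, 4, 6, 7, 1])
  (.bad 2 96 [1, 2, 3, 9, 7, 8]))))))))))))
  (.col 2 (.col 3 (.col 7 (.br 28 (.col 4 (.col 11 (.col 35 (.br 3 (.col 5 (.col 8 (.col 18 (.col 22 (.col 24 (.col 27 (.col 33 (.col 40 (.sol 1)))))))))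
  (.col 5 (.col 22 (.col 24 (.col 27 (.col 33 (.col 40 (.br 5 (.col 18 (.sol 12))
  (.bad 2 320 [0, 4, 5, 9, 2, 7]))))))))))))
  (.bad 0 292 [9, 1, 3, 4, 6, 7]))))))))))))))))))
  (.col 23 (.br 1 (.col 2 (.col 3 (.col 7 (.br 3 (.col 8 (.col 14 (.col 19 (.col 24 (.col 27 (.br 15 (.col 1 (.col 4 (.col 5 (.col 6 (.col 9 (.col 10 (.col 11 (.col 13 (.col 16 (.col 17 (.col 18 (.col 21 (.col 25 (.col 26 (.col 28 (.col 29 (.col 32 (.sol 3))))))))))))))))))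
  (.col 1 (.col 5 (.col 6 (.col 13 (.col 18 (.br 28 (.bad 4 258 [9, 2, 5, 7, 3, 0])
  (.br 24 (.bad 4 65 [9, 2, 7, 5, 4, 1])
  (.br 32 (.bad 4 3 [9, 5, 7, 6, 8, 2])
  (.col 45 (.col 46 (.br 29 (.col 25 (.bad 0 292 [9, 1, 3, 4, 6, 7]))
  (.bad 0 196 [9, 0, 3, 4, 5, 8]))))))))))))))))))
  (.col 8 (.col 24 (.br 10 (.bad 4 272 [9, 2, 6, 7, 5, 0])
  (.br 14 (.bad 4 18 [9, 0, 6, 2, 3, 8])
  (.br 11 (.bad 5 18 [3, 9, 2, 0, 6, 5, 8])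
  (.bad 2 18 [0, 2, 8, 9, 5, 6]))))))))))
  (.col 3 (.br 13 (.bad 4 20 [9, 0, 6, 7, 3, 8])
  (.br 8 (.bad 4 20 [9, 3, 7, 5, 8, 0])
  (.br 9 (.bad 5 20 [3, 9, 7, 0, 6, 5, 8])
  (.bad 2 20 [0, 7, 8, 9, 5, 6]))))))))
  (.br 6 (.col 23 (.br 9 (.col 7 (.col 15 (.bad 4 20 [9, 0, 8, 5, 6, 3])))
  (.br 11 (.col 27 (.col 31 (.bad 4 18 [9, 0, 8, 5, 6, 3])))
  (.br 29 (.col 17 (.col 29 (.br 13 (.bad 4 68 [9, 0, 4, 5, 7, 1])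
  (.br 2 (.bad 4 68 [9, 3, 4, 5, 7, 1])
  (.br 31 (.col 46 (.bad 7 68 [0, 3, 5, 1, 9, 8, 4, 7]))
  (.bad 2 68 [3, 4, 8, 9, 0, 7]))))))
  (.br 33 (.col 21 (.col 50 (.col 20 (.br 1 (.col 2 (.col 3 (.col 6 (.col 10 (.col 46 (.bad 5 68 [4, 9, 0, 1, 8, 7, 3]))))))
  (.col 2 (.br 2 (.col 13 (.col 37 (.col 39 (.col 41 (.col 46 (.br 3 (.col 5 (.col 22 (.col 24 (.col 33 (.bad 4 66 [9, 0, 7, 2, 8, 3])))))
  (.col 22 (.br 4 (.col 30 (.col 36 (.col 40 (.col 42 (.col 44 (.col 48 (.sol 8)))))))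
  (.col 36 (.col 42 (.br 18 (.bad 4 72 [9, 2, 8, 5, 7, 1])
  (.bad 2 192 [0, 3, 5, 9, 2, 4]))))))))))))
  (.col 46 (.br 15 (.bad 4 68 [9, 1, 3, 7, 8, 4])
  (.bad 0 580 [0, 1, 3, 4, 5, 7])))))))))
  (.col 50 (.br 20 (.col 41 (.col 46 (.bad 4 260 [9, 0, 4, 5, 6, 3])))
  (.br 21 (.col 16 (.col 48 (.br 18 (.bad 4 96 [9, 1, 8, 7, 3, 4])
  (.bad 2 96 [3, 4, 8, 9, 2, 7]))))
  (.br 23 (.col 53 (.col 54 (.bad 4 384 [9, 0, 4, 5, 6, 3])))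
  (.br 25 (.col 1 (.col 35 (.col 37 (.col 45 (.col 46 (.br 13 (.bad 4 68 [9, 0, 4, 1, 8, 3])
  (.br 17 (.bad 4 12 [9, 1, 8, 7, 6, 4])
  (.br 24 (.col 20 (.br 14 (.bad 4 66 [9, 0, 7, 2, 8, 3])
  (.col 22 (.col 26 (.col 28 (.br 5 (.bad 4 65 [9, 2, 7, 5, 4, 1])
  (.bad 2 320 [0, 4, 5, 9, 2, 7])))))))
  (.bad 0 196 [9, 0, 3, 4, 5, 8])))))))))
  (.col 35 (.br 15 (.br 1 (.col 2 (.col 3 (.col 6 (.col 7 (.col 10 (.col 13 (.br 3 (.col 5 (.col 8 (.col 14 (.col 18 (.col 24 (.col 26 (.col 27 (.col 28 (.col 33 (.sol 0))))))))))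
  (.col 5 (.col 8 (.col 14 (.col 18 (.col 26 (.col 28 (.col 33 (.br 10 (.col 52 (.sol 11))
  (.bad 2 288 [1, 4, 7, 9, 2, 6]))))))))))))))))
  (.col 2 (.col 6 (.col 10 (.br 17 (.col 13 (.col 39 (.br 3 (.col 8 (.col 18 (.col 22 (.col 24 (.col 28 (.bad 2 192 [9, 0, 4, 2, 5, 8]))))))
  (.col 5 (.col 22 (.col 33 (.br 19 (.col 26 (.col 42 (.bad 4 9 [9, 1, 6, 7, 8, 4])))
  (.col 49 (.br 4 (.col 30 (.col 47 (.col 52 (.sol 9))))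
  (.col 30 (.col 47 (.col 52 (.sol 13)))))))))))))
  (.bad 0 196 [9, 0, 3, 4, 5, 8]))))))
  (.br 2 (.col 13 (.col 15 (.br 24 (.bad 4 68 [9, 0, 7, 3, 4, 1])
  (.bad 0 196 [9, 0, 3, 4, 5, 8]))))
  (.bad 2 68 [1, 4, 7, 9, 5, 8]))))))))))))))
  (.br 25 (.col 1 (.col 35 (.br 12 (.bad 4 6 [9, 3, 8, 6, 7, 0])
  (.br 7 (.bad 4 6 [9, 3, 8, 5, 7, 0])
  (.br 1 (.col 3 (.col 6 (.bad 4 12 [9, 1, 8, 5, 4, 6])))
  (.br 2 (.col 13 (.col 15 (.col 37 (.col 39 (.col 41 (.col 46 (.br 24 (.bad 4 68 [9, 0, 7, 3, 4, 1])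
  (.br 29 (.bad 4 68 [9, 3, 4, 5, 7, 1])
  (.bad 0 196 [9, 0, 3, 4, 5, 8])))))))))
  (.col 37 (.br 17 (.bad 4 12 [9, 1, 8, 7, 6, 4])
  (.br 8 (.bad 4 260 [9, 1, 3, 4, 5, 0])
  (.br 35 (.bad 4 260 [9, 1, 3, 7, 6, 4])
  (.br 31 (.bad 4 260 [9, 0, 6, 1, 3, 4])
  (.br 20 (.col 17 (.col 41 (.br 24 (.col 20 (.bad 2 36 [1, 4, 7, 9, 3, 8]))
  (.bad 0 196 [9, 0, 3, 4, 5, 8]))))
  (.bad 0 324 [9, 0, 1, 4, 5, 7])))))))))))))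
  (.br 33 (.col 21 (.col 37 (.col 50 (.br 30 (.bad 4 260 [9, 1, 6, 7, 3, 4])
  (.br 31 (.bad 4 260 [9, 0, 6, 7, 3, 4])
  (.br 20 (.col 41 (.br 7 (.bad 4 132 [9, 3, 8, 5, 4, 0])
  (.br 15 (.bad 4 12 [9, 1, 6, 7, 8, 4])
  (.col 17 (.br 13 (.bad 4 68 [9, 0, 4, 5, 8, 3])
  (.br 12 (.bad 4 68 [9, 1, 4, 5, 8, 3])
  (.br 24 (.br 1 (.bad 4 5 [9, 4, 5, 7, 6, 1])
  (.bad 2 36 [1, 4, 7, 9, 3, 8]))
  (.bad 0 196 [9, 0, 3, 4, 5, 8]))))))))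
  (.bad 0 324 [9, 0, 1, 4, 5, 7])))))))
  (.br 2 (.col 3 (.col 37 (.col 39 (.br 28 (.bad 4 260 [9, 1, 5, 4, 3, 0])
  (.br 7 (.bad 4 20 [9, 3, 8, 5, 7, 0])
  (.br 34 (.bad 4 260 [9, 3, 4, 5, 7, 0])
  (.br 20 (.col 46 (.br 3 (.col 8 (.col 22 (.col 24 (.col 27 (.col 44 (.br 19 (.bad 4 257 [9, 2, 6, 7, 5, 4])
  (.br 12 (.bad 4 18 [9, 0, 3, 2, 6, 8])
  (.col 11 (.col 5 (.bad 2 288 [1, 4, 7, 9, 2, 3]))))))))))
  (.br 4 (.col 36 (.col 45 (.col 47 (.col 48 (.col 51 (.col 52 (.col 54 (.br 9 (.col 15 (.col 17 (.col 18 (.col 19 (.col 25 (.col 28 (.col 29 (.sol 6))))))))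
  (.col 15 (.col 17 (.col 18 (.col 28 (.col 29 (.br 16 (.bad 4 5 [9, 5, 7, 6, 8, 1])
  (.bad 2 132 [0, 3, 5, 9, 4, 6])))))))))))))))
  (.col 45 (.col 47 (.col 54 (.br 19 (.bad 4 257 [9, 2, 6, 7, 5, 4])
  (.br 10 (.bad 4 272 [9, 2, 6, 7, 5, 0])
  (.br 27 (.bad 4 257 [9, 1, 5, 2, 6, 4])
  (.bad 2 288 [1, 4, 7, 9, 2, 3]))))))))))
  (.bad 0 292 [9, 1, 3, 4, 6, 7]))))))))
  (.br 4 (.col 36 (.col 47 (.col 51 (.col 52 (.br 28 (.bad 4 258 [9, 2, 5, 7, 3, 0])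
  (.br 8 (.bad 4 272 [9, 2, 5, 7, 6, 0])
  (.br 34 (.bad 4 384 [9, 2, 5, 4, 3, 0])
  (.br 26 (.col 34 (.col 41 (.br 32 (.bad 4 257 [9, 1, 6, 2, 5, 4])
  (.col 45 (.br 35 (.bad 4 260 [9, 0, 3, 7, 6, 4])
  (.bad 0 324 [9, 0, 1, 4, 5, 7]))))))
  (.bad 2 288 [1, 4, 7, 9, 2, 3])))))))))
  (.br 13 (.col 2 (.col 15 (.br 8 (.bad 4 20 [9, 0, 6, 5, 8, 3])
  (.br 7 (.bad 5 20 [0, 9, 6, 3, 7, 5, 8])
  (.bad 2 20 [3, 6, 8, 9, 5, 7])))))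
  (.br 14 (.col 22 (.col 31 (.br 10 (.bad 4 18 [9, 0, 6, 5, 8, 3])
  (.br 7 (.bad 5 18 [0, 9, 6, 3, 2, 5, 8])
  (.bad 2 18 [3, 6, 8, 9, 2, 5])))))
  (.br 17 (.col 13 (.col 21 (.br 1 (.bad 4 12 [9, 4, 5, 7, 6, 1])
  (.br 26 (.col 34 (.br 35 (.bad 4 260 [9, 0, 3, 7, 6, 4])
  (.col 29 (.br 30 (.bad 4 68 [9, 1, 8, 7, 3, 4])
  (.bad 2 68 [1, 4, 7, 9, 0, 8])))))
  (.bad 2 12 [1, 4, 7, 9, 5, 8])))))
  (.br 22 (.col 49 (.col 54 (.br 10 (.bad 4 384 [9, 0, 6, 5, 4, 3])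
  (.br 34 (.bad 5 384 [0, 9, 6, 3, 2, 5, 4])
  (.bad 2 384 [3, 4, 6, 9, 2, 5])))))
  (.br 24 (.col 10 (.col 20 (.col 29 (.br 9 (.bad 4 68 [9, 0, 7, 5, 4, 1])
  (.br 1 (.bad 4 5 [9, 4, 5, 7, 6, 1])
  (.br 26 (.bad 4 5 [9, 5, 8, 6, 7, 1])
  (.br 30 (.col 35 (.col 46 (.br 7 (.bad 4 6 [9, 5, 7, 6, 8, 0])
  (.br 34 (.col 41 (.bad 2 36 [1, 3, 6, 9, 4, 8]))
  (.bad 2 260 [0, 3, 5, 9, 6, 7])))))
  (.bad 0 772 [0, 1, 3, 4, 6, 7]))))))))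
  (.br 30 (.col 35 (.col 46 (.br 26 (.bad 4 260 [9, 0, 3, 1, 6, 4])
  (.br 34 (.col 41 (.bad 7 260 [7, 0, 1, 4, 9, 5, 3, 6]))
  (.bad 2 260 [0, 3, 5, 9, 6, 7])))))
  (.br 12 (.col 11 (.col 15 (.col 29 (.br 20 (.bad 4 68 [9, 1, 4, 5, 8, 3])
  (.br 31 (.bad 4 68 [9, 0, 8, 1, 4, 3])
  (.bad 0 324 [9, 0, 1, 4, 5, 7]))))))
  (.br 15 (.col 9 (.col 10 (.br 35 (.bad 4 68 [9, 1, 3, 7, 8, 4])
  (.br 29 (.col 17 (.br 5 (.col 18 (.col 19 (.col 32 (.col 48 (.br 16 (.col 6 (.col 7 (.col 8 (.col 25 (.col 26 (.col 27 (.col 40 (.sol 5))))))))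
  (.bad 2 132 [0, 4, 8, 9, 3, 6]))))))
  (.bad 2 320 [1, 4, 7, 9, 0, 2])))
  (.bad 0 196 [9, 0, 3, 4, 5, 8])))))
  (.br 35 (.col 29 (.col 46 (.br 26 (.bad 4 260 [9, 0, 3, 7, 6, 4])
  (.br 9 (.br 28 (.col 4 (.col 7 (.br 16 (.bad 4 36 [9, 3, 7, 6, 4, 1])
  (.bad 2 132 [0, 3, 5, 9, 4, 6]))))
  (.bad 2 260 [0, 3, 5, 9, 1, 6]))
  (.bad 0 580 [0, 1, 3, 4, 5, 7])))))
  (.bad 1 4 [9, 1, 3, 6, 7, 8])))))))))))))))

def B_de01_22 : Dat where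
  r := 5
  V := [[.i, .o, .o, .o, .o],
    [.o, .i, .o, .o, .o],
    [.o, .o, .i, .o, .o],
    [.o, .o, .o, .i, .o],
    [.o, .o, .o, .o, .i],
    [.i, .o, .o, .i, .o],
    [.w, .w, .w, .i, .o],
    [.o, .i, .o, .o, .i],
    [.w, .w, .w, .o, .i]]
  P := [[.i, .o, .o, .o, .o],
    [.o, .i, .o, .o, .o],
    [.o, .o, .i, .o, .o],
    [.o, .o, .o, .i, .o],
    [.o, .o, .o, .o, .i],
    [.i, .o, .o, .i, .o],
    [.w, .w, .w, .i, .o],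
    [.o, .i, .o, .o, .i],
    [.w, .w, .w, .o, .i],
    [.i, .i, .i, .o, .o],
    [.o, .o, .o, .o, .o],
    [.i, .o, .i, .o, .o],
    [.o, .i, .i, .o, .o],
    [.w, .w, .v, .o, .o]]
  F := [[.i, .o, .o, .o, .o],
    [.o, .i, .o, .o, .o],
    [.i, .i, .o, .o, .o],
    [.o, .o, .i, .o, .o],
    [.i, .o, .i, .o, .o],
    [.o, .i, .i, .o, .o],
    [.o, .o, .o, .i, .o],
    [.i, .o, .o, .i, .o],
    [.i, .i, .o, .i, .o],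
    [.i, .w, .o, .i, .o],
    [.i, .o, .i, .i, .o],
    [.i, .o, .w, .i, .o],
    [.i, .o, .o, .w, .o],
    [.o, .i, .o, .w, .o],
    [.o, .o, .i, .w, .o],
    [.o, .o, .o, .o, .i],
    [.o, .i, .o, .o, .i],
    [.i, .i, .o, .o, .i],
    [.o, .i, .i, .o, .i],
    [.o, .i, .w, .o, .i],
    [.i, .w, .o, .i, .i],
    [.i, .o, .w, .i, .i],
    [.o, .i, .w, .i, .i],
    [.i, .i, .v, .i, .i],
    [.o, .i, .o, .w, .i],
    [.i, .o, .o, .o, .w],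
    [.o, .i, .o, .o, .w],
    [.o, .o, .i, .o, .w],
    [.i, .o, .o, .i, .w],
    [.i, .w, .o, .i, .w],
    [.i, .o, .o, .w, .w],
    [.o, .i, .o, .w, .w],
    [.o, .o, .i, .w, .w],
    [.i, .v, .o, .o, .v],
    [.i, .v, .o, .i, .v],
    [.i, .v, .o, .v, .v]]
  ht := 0x1c401a4018c01430145014600e40126012b012d010e00c501e001c10162016401a900e900cc00ad006f00d3005500d600f201b20074013400b60197017901da00bb015c003d009e
  ct := 0x1700000000000000000000000000040000000000000400000230010b00000000000000000000000000000a000000000000130000022002898000000000000004000000601fc3000000021001098000183000c00000000000000000000000000000000500000000000005000001400542800000000000007f00000020010280000000200102800078f8040000000000000000000500000080028280000001a006ff800070d0036000000000002001028000183000c000000064d0036000000c000000000000000000000000000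000000000000b00000000000012000001d002c90000000000000004000000c01fc700000001100109000030c001c0000000000000000003000000701fc1800000010000ff80001c8000600000000000001fc18001fc300fe00000000080006000000c000000000000000000000000050000009002c280000000f003ff80003c7801e000000000002001028000306801c00000003c7801e000001e0000000000000000001000ff80001c0800600000003ff80fe000001e000000000000000008006000000c0000000000001e00000000000000000000000000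
  cl := [(15, 3, 0x8040),
    (15, 0, 0x2008001),
    (23, 1, 0x2042),
    (29, 0, 0x7),
    (39, 0, 0x10008080),
    (46, 2, 0x8008008),
    (46, 1, 0x4018002),
    (53, 0, 0x382),
    (58, 1, 0x2a),
    (71, 2, 0x10000c000),
    (71, 1, 0x8100a000),
    (71, 0, 0x40009000),
    (75, 0, 0x8010),
    (77, 0, 0x28004),
    (83, 1, 0x6020),
    (85, 0, 0x3204),
    (99, 0, 0x208800),
    (101, 0, 0x20108200),
    (106, 1, 0x48020),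
    (113, 0, 0xa20),
    (135, 1, 0x1010040),
    (141, 0, 0x200030001),
    (149, 2, 0x4048),
    (149, 0, 0x10c1),
    (153, 0, 0x19),
    (165, 0, 0x420010080),
    (170, 1, 0xd0008),
    (177, 0, 0xc88),
    (195, 1, 0x1444000),
    (197, 0, 0x821021000),
    (201, 0, 0x60010),
    (209, 0, 0x5810),
    (225, 0, 0x20840800),
    (263, 2, 0x108000040),
    (263, 1, 0x84000040),
    (263, 0, 0x52000040),
    (267, 0, 0xa000010),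
    (269, 0, 0x206000004),
    (275, 1, 0x60),
    (277, 0, 0x144),
    (291, 0, 0x18200400),
    (293, 0, 0x414100100),
    (298, 1, 0xc080020),
    (305, 0, 0x520),
    (323, 1, 0x180400020),
    (323, 0, 0x140200010),
    (325, 0, 0x8c0100004),
    (337, 0, 0x34),
    (353, 0, 0xb00020),
    (387, 1, 0x480040),
    (389, 0, 0xe00000040),
    (393, 0, 0x200080010),
    (401, 0, 0x450),
    (417, 0, 0x400880400),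
    (449, 0, 0x800c00010)]
  sl := [0x18d4de06a, 0x15a20dcd9, 0xef713b3c7, 0x20e0f803f, 0x7fff, 0x43cbd8faa, 0x9e1f6fa34, 0xe21cf5cd9, 0xfdef80574, 0x68574, 0xfffffffff, 0x8501a452, 0x520490e1, 0x28144]
  t := B_de01_22_t

theorem B_de01_22_okD : B_de01_22.ckD = true := by decide +kernel

theorem B_de01_22_okT : B_de01_22.ckT TTab B_de01_22.t 0 0 = true := by decide +kernel

theorem lext_de01_22 : LExt 5 9 (vecL 5 B_de01_22.V) (vecP 5 B_de01_22.P) :=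
  lext_of_chk' B_de01_22 B_de01_22_okD B_de01_22_okT (by decide)

end QG
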