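import Pool.Agent.Lib.QG.BC8

/-! MP_2e6874_co, part (B): data for de10_1111. -/

set_option autoImplicit false
set_option maxRecDepth 100000

namespace QG

def B_de10_1111_t : Tr :=
  .br 0 (.br 1 (.col 5 (.br 5 (.col 3 (.col 4 (.col 8 (.col 12 (.br 15 (.col 0 (.col 1 (.col 2 (.col 6 (.col 7 (.col 10 (.col 11 (.col 14 (.col 15 (.col 16 (.col 19 (.col 20 (.sol 9)))))))))))))
  (.col 0 (.col 1 (.col 2 (.col 6 (.col 7 (.col 10 (.col 11 (.col 14 (.col 15 (.col 16 (.col 19 (.col 20 (.sol 3))))))))))))))))))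
  (.col 3 (.col 4 (.col 8 (.col 12 (.br 19 (.col 0 (.col 1 (.col 6 (.col 7 (.col 14 (.br 20 (.bad 4 32 [9, 2, 3, 7, 8, 4])
  (.bad 0 288 [9, 1, 2, 4, 6, 7])))))))
  (.br 20 (.col 19 (.col 25 (.col 7 (.bad 0 96 [9, 2, 3, 4, 7, 8]))))
  (.col 27 (.br 21 (.col 14 (.col 25 (.col 26 (.col 7 (.col 11 (.col 1 (.br 36 (.col 15 (.br 34 (.bad 4 256 [9, 0, 1, 5, 6, 4])
  (.bad 0 3 [9, 2, 3, 6, 7, 8])))
  (.bad 0 192 [9, 0, 3, 4, 5, 8]))))))))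
  (.br 15 (.col 0 (.col 1 (.col 2 (.col 6 (.col 7 (.col 10 (.col 11 (.col 14 (.sol 2)))))))))
  (.col 1 (.col 2 (.col 7 (.col 11 (.br 22 (.col 22 (.br 23 (.bad 4 256 [9, 0, 6, 5, 1, 4])
  (.bad 0 320 [9, 0, 2, 4, 5, 7])))
  (.bad 0 288 [9, 1, 2, 4, 6, 7])))))))))))))))))
  (.col 5 (.br 7 (.col 3 (.col 4 (.col 8 (.br 11 (.bad 4 8 [9, 1, 2, 6, 7, 8])
  (.bad 0 72 [9, 0, 2, 5, 7, 8])))))
  (.br 8 (.col 8 (.col 17 (.col 4 (.br 10 (.bad 9 8 [9, 0, 6, 5, 7, 1, 2, 8])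
  (.bad 0 72 [9, 0, 2, 5, 7, 8])))))
  (.br 5 (.col 3 (.col 4 (.col 8 (.col 12 (.br 17 (.col 1 (.col 2 (.col 6 (.col 7 (.col 19 (.col 22 (.br 21 (.col 26 (.bad 4 1 [9, 1, 3, 6, 8, 5]))
  (.bad 0 288 [9, 1, 2, 4, 6, 7]))))))))
  (.br 18 (.col 7 (.col 23 (.col 25 (.col 26 (.col 2 (.col 6 (.br 25 (.col 10 (.br 28 (.bad 4 64 [9, 0, 2, 5, 7, 4])
  (.bad 0 192 [9, 0, 3, 4, 5, 8])))
  (.bad 0 5 [9, 1, 3, 6, 7, 8]))))))))
  (.br 15 (.col 0 (.col 1 (.col 2 (.col 6 (.col 7 (.col 10 (.col 11 (.col 14 (.col 15 (.col 16 (.col 19 (.col 20 (.sol 1)))))))))))))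
  (.col 0 (.col 2 (.br 33 (.col 11 (.col 14 (.col 26 (.br 36 (.bad 4 64 [9, 0, 7, 5, 2, 4])
  (.bad 0 192 [9, 0, 3, 4, 5, 8])))))
  (.bad 0 36 [9, 1, 3, 6, 7, 8])))))))))))
  (.col 4 (.br 14 (.col 12 (.br 13 (.bad 9 8 [9, 0, 7, 5, 6, 2, 1, 8])
  (.bad 0 136 [9, 0, 1, 5, 6, 8])))
  (.bad 0 40 [9, 1, 2, 6, 7, 8]))))))))
  (.br 1 (.col 5 (.br 6 (.col 4 (.col 12 (.col 24 (.col 3 (.br 8 (.bad 4 8 [9, 0, 2, 5, 7, 8])
  (.bad 0 40 [9, 1, 2, 6, 7, 8]))))))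
  (.br 8 (.col 8 (.col 17 (.col 3 (.bad 0 72 [9, 0, 2, 5, 7, 8]))))
  (.br 9 (.col 4 (.col 8 (.col 3 (.br 11 (.bad 9 8 [9, 0, 2, 5, 1, 7, 6, 8])
  (.bad 0 72 [9, 0, 2, 5, 7, 8])))))
  (.br 5 (.col 3 (.col 4 (.col 8 (.col 12 (.br 16 (.col 2 (.col 11 (.col 18 (.col 1 (.col 15 (.br 18 (.col 25 (.bad 4 128 [9, 0, 3, 5, 8, 4]))
  (.bad 0 260 [9, 0, 1, 5, 6, 7])))))))
  (.br 18 (.col 7 (.col 9 (.col 10 (.col 25 (.col 26 (.col 14 (.bad 0 192 [9, 0, 3, 4, 5, 8])))))))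
  (.col 25 (.br 24 (.col 2 (.col 6 (.col 7 (.col 10 (.col 15 (.col 21 (.br 26 (.col 26 (.br 29 (.bad 4 256 [9, 1, 7, 6, 2, 4])
  (.bad 0 384 [9, 0, 1, 4, 5, 6])))
  (.bad 0 260 [9, 0, 1, 5, 6, 7]))))))))
  (.br 15 (.col 0 (.col 1 (.col 2 (.col 6 (.col 7 (.col 10 (.col 11 (.col 14 (.col 15 (.col 16 (.col 20 (.sol 0))))))))))))
  (.col 0 (.col 1 (.col 15 (.br 31 (.col 22 (.br 37 (.col 20 (.br 33 (.br 35 (.bad 4 32 [9, 1, 7, 6, 2, 4])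
  (.bad 0 160 [9, 1, 3, 4, 6, 8]))
  (.bad 0 36 [9, 1, 3, 6, 7, 8])))
  (.bad 0 384 [9, 0, 1, 4, 5, 6])))
  (.bad 0 6 [9, 0, 3, 5, 7, 8]))))))))))))))
  (.col 3 (.br 14 (.col 12 (.br 12 (.bad 9 8 [9, 0, 2, 5, 6, 7, 1, 8])
  (.bad 0 10 [9, 0, 2, 5, 7, 8])))
  (.bad 0 40 [9, 1, 2, 6, 7, 8]))))))))
  (.br 5 (.col 3 (.col 4 (.br 14 (.bad 4 8 [9, 0, 1, 5, 6, 8])
  (.br 2 (.col 5 (.col 17 (.bad 0 72 [9, 0, 2, 5, 7, 8])))
  (.br 3 (.col 5 (.col 8 (.br 11 (.bad 9 8 [9, 0, 1, 5, 2, 6, 7, 8])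
  (.bad 0 72 [9, 0, 2, 5, 7, 8]))))
  (.br 4 (.col 12 (.br 8 (.bad 9 8 [9, 0, 1, 5, 7, 6, 2, 8])
  (.bad 0 40 [9, 1, 2, 6, 7, 8])))
  (.bad 0 12 [9, 0, 1, 5, 6, 8])))))))
  (.br 15 (.col 0 (.col 1 (.col 2 (.br 36 (.bad 4 1 [9, 1, 2, 6, 7, 5])
  (.br 33 (.bad 4 4 [9, 0, 1, 5, 6, 7])
  (.br 35 (.bad 4 2 [9, 0, 2, 5, 7, 6])
  (.br 28 (.bad 5 512 [4, 0, 5, 6, 2, 1, 7])
  (.bad 2 512 [0, 1, 2, 5, 6, 7]))))))))
  (.br 2 (.col 5 (.br 9 (.col 4 (.col 8 (.col 17 (.br 10 (.bad 4 8 [9, 0, 6, 5, 1, 8])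
  (.bad 0 72 [9, 0, 2, 5, 7, 8])))))
  (.br 10 (.col 3 (.col 12 (.col 17 (.bad 0 40 [9, 1, 2, 6, 7, 8]))))
  (.br 14 (.col 8 (.col 12 (.col 17 (.bad 0 10 [9, 0, 2, 5, 7, 8]))))
  (.br 24 (.col 2 (.col 7 (.col 23 (.br 25 (.bad 4 4 [9, 0, 6, 5, 1, 7])
  (.bad 0 5 [9, 1, 3, 6, 7, 8])))))
  (.br 25 (.col 11 (.col 23 (.bad 0 6 [9, 0, 3, 5, 7, 8])))
  (.br 33 (.col 7 (.col 23 (.bad 0 5 [9, 1, 3, 6, 7, 8])))
  (.br 6 (.col 4 (.col 12 (.col 17 (.col 24 (.br 27 (.col 0 (.col 9 (.col 15 (.col 21 (.bad 0 5 [9, 1, 3, 6, 7, 8])))))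
  (.br 28 (.col 14 (.col 19 (.col 26 (.col 21 (.bad 0 5 [9, 1, 3, 6, 7, 8])))))
  (.br 35 (.col 6 (.col 9 (.col 22 (.col 23 (.bad 0 5 [9, 1, 3, 6, 7, 8])))))
  (.br 36 (.col 10 (.col 15 (.col 21 (.bad 0 5 [9, 1, 3, 6, 7, 8]))))
  (.br 16 (.col 2 (.col 11 (.col 13 (.col 14 (.col 16 (.col 18 (.col 19 (.col 20 (.col 22 (.col 23 (.col 26 (.col 27 (.sol 4)))))))))))))
  (.col 13 (.col 18 (.br 32 (.col 21 (.col 22 (.col 23 (.col 25 (.col 26 (.sol 8))))))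
  (.bad 0 5 [9, 1, 3, 6, 7, 8])))))))))))))
  (.col 24 (.br 11 (.col 17 (.br 16 (.col 2 (.col 11 (.col 13 (.col 16 (.col 18 (.col 19 (.col 20 (.col 22 (.col 23 (.col 25 (.col 26 (.col 27 (.sol 7)))))))))))))
  (.col 16 (.col 18 (.br 32 (.col 23 (.bad 4 2 [9, 2, 8, 7, 3, 6]))
  (.bad 0 5 [9, 1, 3, 6, 7, 8]))))))
  (.bad 0 72 [9, 0, 2, 5, 7, 8])))))))))))
  (.br 12 (.col 4 (.col 17 (.br 4 (.bad 4 8 [9, 1, 7, 6, 2, 8])
  (.br 3 (.col 8 (.br 10 (.bad 9 8 [9, 0, 6, 5, 2, 1, 7, 8])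
  (.bad 0 72 [9, 0, 2, 5, 7, 8])))
  (.bad 0 12 [9, 0, 1, 5, 6, 8])))))
  (.br 13 (.col 3 (.col 17 (.br 3 (.bad 4 8 [9, 0, 7, 5, 2, 8])
  (.br 4 (.col 12 (.br 9 (.bad 9 8 [9, 0, 7, 5, 1, 2, 6, 8])
  (.bad 0 40 [9, 1, 2, 6, 7, 8])))
  (.bad 0 12 [9, 0, 1, 5, 6, 8])))))
  (.br 27 (.col 0 (.col 15 (.col 16 (.br 24 (.bad 4 2 [9, 0, 7, 5, 2, 6])
  (.br 31 (.col 23 (.br 25 (.bad 4 1 [9, 1, 7, 6, 2, 5])
  (.bad 0 5 [9, 1, 3, 6, 7, 8])))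
  (.bad 0 6 [9, 0, 3, 5, 7, 8]))))))
  (.br 29 (.col 16 (.col 27 (.br 11 (.bad 4 128 [9, 1, 8, 6, 3, 4])
  (.br 8 (.col 19 (.bad 1 0 [9, 0, 1, 2, 3, 7]))
  (.bad 0 136 [9, 0, 1, 5, 6, 8])))))
  (.br 19 (.col 0 (.br 30 (.col 15 (.col 21 (.col 10 (.bad 0 5 [9, 1, 3, 6, 7, 8]))))
  (.br 31 (.col 2 (.col 6 (.col 13 (.bad 0 10 [9, 0, 2, 5, 7, 8]))))
  (.br 32 (.col 1 (.col 10 (.bad 0 129 [9, 1, 3, 5, 6, 8])))
  (.br 6 (.col 4 (.col 6 (.col 13 (.col 18 (.col 24 (.br 25 (.col 10 (.col 11 (.col 12 (.col 14 (.col 17 (.col 19 (.col 20 (.col 23 (.col 5 (.sol 6))))))))))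
  (.bad 0 5 [9, 1, 3, 6, 7, 8])))))))
  (.col 13 (.br 24 (.col 6 (.br 17 (.col 1 (.col 7 (.col 8 (.col 10 (.col 11 (.col 12 (.col 14 (.col 19 (.col 20 (.sol 5))))))))))
  (.bad 2 128 [3, 4, 8, 9, 0, 1])))
  (.bad 0 6 [9, 0, 3, 5, 7, 8]))))))))
  (.br 34 (.col 22 (.br 9 (.bad 4 2 [9, 0, 8, 5, 3, 6])
  (.bad 0 10 [9, 0, 2, 5, 7, 8])))
  (.bad 0 3 [9, 2, 3, 6, 7, 8])))))))))))

def B_de10_1111 : Dat where
  r := 4
  V := [[.i, .o, .o, .o],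
    [.o, .i, .o, .o],
    [.o, .o, .i, .o],
    [.o, .o, .o, .i],
    [.i, .i, .i, .i],
    [.v, .w, .w, .w],
    [.w, .v, .w, .w],
    [.w, .w, .v, .w],
    [.w, .w, .w, .v]]
  P := [[.i, .o, .o, .o],
    [.o, .i, .o, .o],
    [.o, .o, .i, .o],
    [.o, .o, .o, .i],
    [.i, .i, .i, .i],
    [.v, .w, .w, .w],
    [.w, .v, .w, .w],
    [.w, .w, .v, .w],
    [.w, .w, .w, .v],
    [.o, .o, .o, .o]]
  F := [[.i, .o, .o, .o],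
    [.o, .i, .o, .o],
    [.i, .i, .o, .o],
    [.i, .w, .o, .o],
    [.i, .v, .o, .o],
    [.o, .o, .i, .o],
    [.i, .o, .i, .o],
    [.o, .i, .i, .o],
    [.i, .v, .i, .o],
    [.i, .o, .w, .o],
    [.o, .i, .w, .o],
    [.i, .w, .w, .o],
    [.i, .o, .v, .o],
    [.o, .i, .v, .o],
    [.i, .i, .v, .o],
    [.o, .o, .o, .i],
    [.i, .o, .o, .i],
    [.o, .i, .o, .i],
    [.i, .v, .o, .i],
    [.o, .o, .i, .i],
    [.i, .w, .i, .i],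
    [.i, .i, .w, .i],
    [.i, .o, .v, .i],
    [.o, .i, .v, .i],
    [.i, .o, .o, .w],
    [.o, .i, .o, .w],
    [.i, .w, .o, .w],
    [.o, .o, .i, .w],
    [.i, .i, .i, .w],
    [.i, .o, .w, .w],
    [.o, .i, .w, .w],
    [.i, .o, .o, .v],
    [.o, .i, .o, .v],
    [.i, .i, .o, .v],
    [.o, .o, .i, .v],
    [.i, .o, .i, .v],
    [.o, .i, .i, .v],
    [.i, .v, .v, .v]]
  ht := 0x1c000c100a201030064010501060181018200e0008301440045002601410122016001a00073012400b500d6000700680089008a00c80049002a00a80139015a000b004c002c019c000d000e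
  ct := 0x250000000000000000000000000000000000000000000000000000001400000000000000000000000000020000000000000200000020074f0000000000000000000000000000000000000000000000000000000015000000000000000000000000000600000000000006000001a0018b80000000000000000000000000000700000000000007000001200583800000000000007f0000002001838000000020018380007d00044000000000000000000000000000000000000000000000000000000000001c00000000000000000000000000100000000000000b000001000412000000000000000000000000000011000000000000080000011008c88000000000000002000007f0040880000000200306800040880360000000000000000000000000000000130000000000000e0000021004c98000000000000006000001001fc980000000400185000040c802600000000000000000070000011004ff800000003002438000608802600000000000200183800040880260000000000800a000001e000000000000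
  cl := [(7, 2, 0x408088020),
    (7, 1, 0x102028002),
    (7, 0, 0x81018001),
    (11, 1, 0x24a2),
    (11, 0, 0x1261),
    (13, 0, 0x1f),
    (35, 0, 0x801480200),
    (37, 0, 0x201060008),
    (41, 0, 0x4388),
    (50, 1, 0xa0080),
    (67, 1, 0x1002880400),
    (69, 0, 0x206010010),
    (73, 0, 0x4c50),
    (81, 0, 0x90040),
    (97, 0, 0x210284000),
    (131, 1, 0x1048022000),
    (131, 0, 0x828011000),
    (137, 0, 0x3904),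
    (145, 0, 0x30004),
    (161, 0, 0x810120100),
    (193, 0, 0x3010010800),
    (259, 1, 0x540800080),
    (259, 0, 0x4a0400040),
    (261, 0, 0x184040004),
    (273, 0, 0xc4),
    (289, 0, 0x740080),
    (321, 0, 0x2004a00040),
    (385, 0, 0x2060100004)]
  sl := [0x154a8aa4a2, 0xca9499261, 0x38707801f, 0x7fff, 0xb00c4, 0xa117e4388, 0x3216a94c50, 0x3878133904, 0x25e4f400c4, 0x3fffffffff]
  t := B_de10_1111_t

theorem B_de10_1111_okD : B_de10_1111.ckD = true := by decide +kernel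

theorem B_de10_1111_okT : B_de10_1111.ckT TTab B_de10_1111.t 0 0 = true := by decide +kernel

theorem lext_de10_1111 : LExt 4 9 (vecL 4 B_de10_1111.V) (vecP 4 B_de10_1111.P) :=
  lext_of_chk' B_de10_1111 B_de10_1111_okD B_de10_1111_okT (by decide)

end QG
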