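import Pool.Agent.Lib.QG.BC8

/-! MP_2e6874_co, part (B): data for de10_211. -/

set_option autoImplicit false
set_option maxRecDepth 100000

namespace QG

def B_de10_211_t : Tr :=
  .br 0 (.br 1 (.col 5 (.br 11 (.col 1 (.col 2 (.col 7 (.col 12 (.br 4 (.col 0 (.col 4 (.col 6 (.col 8 (.col 9 (.col 10 (.col 11 (.col 14 (.col 18 (.col 19 (.col 20 (.sol 9))))))))))))
  (.col 0 (.col 4 (.col 6 (.col 8 (.col 9 (.col 10 (.col 11 (.col 14 (.col 18 (.col 19 (.col 20 (.sol 2)))))))))))))))))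
  (.col 1 (.col 2 (.col 7 (.col 12 (.br 4 (.col 0 (.col 4 (.col 6 (.col 9 (.col 10 (.col 11 (.col 14 (.col 18 (.col 19 (.col 20 (.sol 4)))))))))))
  (.col 4 (.col 9 (.col 18 (.br 20 (.bad 4 256 [9, 3, 4, 7, 5, 0])
  (.br 21 (.bad 4 2 [9, 2, 4, 8, 5, 0])
  (.br 17 (.col 14 (.br 16 (.bad 4 2 [9, 2, 4, 7, 5, 0])
  (.bad 0 160 [9, 2, 3, 4, 6, 8])))
  (.bad 0 288 [9, 1, 3, 4, 6, 7]))))))))))))))
  (.col 5 (.br 6 (.col 9 (.col 13 (.col 4 (.br 8 (.bad 4 16 [9, 1, 2, 7, 8, 6])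
  (.bad 2 16 [9, 1, 2, 5, 7, 8])))))
  (.br 8 (.col 18 (.col 24 (.col 4 (.bad 0 17 [9, 1, 2, 6, 7, 8]))))
  (.br 11 (.col 1 (.col 2 (.col 7 (.col 12 (.col 27 (.br 7 (.col 9 (.col 18 (.col 21 (.col 11 (.br 17 (.bad 4 256 [9, 0, 3, 5, 6, 4])
  (.bad 0 320 [9, 0, 1, 4, 5, 7]))))))
  (.col 15 (.br 4 (.col 0 (.col 4 (.col 6 (.col 9 (.col 10 (.col 11 (.col 14 (.sol 1))))))))
  (.col 4 (.col 6 (.br 22 (.bad 4 128 [9, 0, 3, 5, 6, 4])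
  (.bad 0 192 [9, 0, 2, 4, 5, 8]))))))))))))
  (.col 2 (.br 24 (.bad 4 4 [9, 0, 6, 1, 4, 8])
  (.br 27 (.bad 4 4 [9, 1, 4, 7, 6, 8])
  (.br 14 (.col 7 (.bad 5 4 [4, 9, 1, 0, 6, 5, 8]))
  (.bad 0 68 [9, 0, 1, 5, 7, 8]))))))))))
  (.br 1 (.col 5 (.br 23 (.col 2 (.col 12 (.bad 4 4 [9, 0, 4, 1, 6, 8])))
  (.br 27 (.col 12 (.col 16 (.bad 4 4 [9, 0, 4, 7, 6, 8])))
  (.br 11 (.col 1 (.col 2 (.col 7 (.br 5 (.col 4 (.col 9 (.col 10 (.col 11 (.col 20 (.br 17 (.bad 4 256 [9, 0, 3, 5, 6, 4])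
  (.bad 0 320 [9, 0, 1, 4, 5, 7])))))))
  (.col 17 (.br 4 (.col 0 (.col 4 (.col 6 (.col 9 (.col 10 (.col 11 (.col 14 (.col 18 (.col 19 (.col 20 (.sol 0)))))))))))
  (.col 0 (.col 9 (.col 10 (.br 22 (.bad 4 128 [9, 0, 3, 5, 6, 4])
  (.br 26 (.col 26 (.br 18 (.bad 4 2 [9, 0, 7, 5, 6, 4])
  (.bad 0 66 [9, 0, 2, 5, 7, 8])))
  (.bad 0 192 [9, 0, 2, 4, 5, 8]))))))))))))
  (.col 1 (.br 14 (.col 7 (.br 4 (.col 0 (.col 4 (.col 6 (.col 8 (.col 9 (.col 10 (.col 11 (.col 14 (.col 18 (.col 19 (.col 20 (.sol 5))))))))))))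
  (.col 6 (.col 8 (.col 9 (.col 14 (.br 29 (.bad 4 256 [9, 0, 6, 5, 3, 4])
  (.br 19 (.bad 4 1 [9, 2, 5, 7, 6, 3])
  (.br 25 (.bad 4 1 [9, 1, 6, 2, 5, 3])
  (.bad 0 65 [9, 1, 2, 5, 7, 8]))))))))))
  (.bad 0 68 [9, 0, 1, 5, 7, 8])))))))
  (.br 12 (.col 2 (.col 7 (.br 2 (.bad 4 4 [9, 1, 5, 8, 4, 0])
  (.br 3 (.bad 4 4 [9, 1, 5, 7, 4, 0])
  (.br 27 (.col 12 (.bad 7 4 [1, 0, 7, 8, 9, 5, 4, 6]))
  (.bad 2 4 [4, 6, 8, 9, 5, 7]))))))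
  (.br 4 (.col 4 (.col 6 (.col 9 (.br 22 (.bad 4 32 [9, 1, 4, 7, 6, 3])
  (.br 11 (.col 0 (.col 1 (.col 2 (.col 10 (.col 11 (.br 2 (.col 12 (.col 23 (.col 25 (.col 26 (.bad 0 192 [9, 0, 2, 4, 5, 8])))))
  (.col 23 (.br 17 (.bad 4 256 [9, 0, 3, 5, 6, 4])
  (.br 26 (.col 20 (.br 14 (.bad 4 4 [9, 0, 8, 5, 6, 4])
  (.bad 0 68 [9, 0, 1, 5, 7, 8])))
  (.bad 0 320 [9, 0, 1, 4, 5, 7]))))))))))
  (.col 0 (.br 23 (.bad 4 2 [9, 0, 4, 2, 6, 7])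
  (.br 28 (.br 19 (.bad 4 1 [9, 1, 5, 7, 6, 3])
  (.br 29 (.bad 4 1 [9, 1, 5, 8, 6, 3])
  (.col 26 (.br 24 (.col 12 (.bad 0 192 [9, 0, 2, 4, 5, 8]))
  (.bad 0 65 [9, 1, 2, 5, 7, 8])))))
  (.bad 0 66 [9, 0, 2, 5, 7, 8])))))))))
  (.br 11 (.col 0 (.col 1 (.col 2 (.br 14 (.col 7 (.col 12 (.bad 4 4 [9, 0, 8, 5, 6, 4])))
  (.br 18 (.col 6 (.col 11 (.bad 4 2 [9, 0, 7, 5, 6, 4])))
  (.br 2 (.col 5 (.col 12 (.col 16 (.col 23 (.br 7 (.col 9 (.col 13 (.col 25 (.col 26 (.bad 0 66 [9, 0, 2, 5, 7, 8])))))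
  (.col 15 (.br 22 (.col 14 (.col 25 (.bad 0 17 [9, 1, 2, 6, 7, 8])))
  (.br 5 (.col 4 (.col 11 (.col 13 (.col 14 (.col 17 (.col 18 (.col 19 (.col 20 (.col 22 (.col 24 (.col 26 (.sol 3))))))))))))
  (.col 13 (.col 17 (.br 10 (.col 21 (.col 24 (.col 25 (.col 26 (.sol 8)))))
  (.bad 0 17 [9, 1, 2, 6, 7, 8]))))))))))))
  (.col 23 (.br 27 (.col 16 (.br 5 (.col 4 (.col 11 (.col 13 (.col 17 (.col 18 (.col 19 (.col 20 (.col 22 (.col 24 (.col 25 (.col 26 (.sol 7))))))))))))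
  (.col 17 (.col 18 (.col 19 (.br 28 (.col 22 (.bad 4 32 [9, 1, 8, 7, 2, 3]))
  (.bad 0 66 [9, 0, 2, 5, 7, 8])))))))
  (.bad 0 68 [9, 0, 1, 5, 7, 8])))))))))
  (.br 3 (.col 5 (.col 16 (.br 13 (.bad 4 4 [9, 4, 7, 5, 8, 0])
  (.br 14 (.col 12 (.bad 5 4 [4, 9, 7, 0, 6, 5, 8]))
  (.bad 0 36 [9, 1, 4, 6, 7, 8])))))
  (.br 7 (.col 9 (.col 15 (.col 18 (.br 27 (.bad 4 128 [9, 0, 4, 2, 6, 3])
  (.br 26 (.bad 4 128 [9, 0, 4, 8, 6, 3])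
  (.br 22 (.col 14 (.br 25 (.bad 4 64 [9, 0, 1, 5, 7, 4])
  (.br 24 (.bad 4 1 [9, 2, 6, 7, 5, 3])
  (.br 29 (.bad 4 1 [9, 5, 7, 6, 8, 3])
  (.bad 0 65 [9, 1, 2, 5, 7, 8])))))
  (.bad 0 192 [9, 0, 2, 4, 5, 8])))))))
  (.br 6 (.col 9 (.br 8 (.col 18 (.col 24 (.col 27 (.br 21 (.bad 4 256 [9, 1, 5, 7, 4, 0])
  (.br 13 (.bad 4 256 [9, 3, 5, 7, 4, 0])
  (.col 8 (.bad 0 514 [0, 2, 4, 5, 7, 8])))))))
  (.br 9 (.col 4 (.col 13 (.col 22 (.br 13 (.bad 4 256 [9, 1, 4, 3, 5, 0])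
  (.col 8 (.br 18 (.col 14 (.col 20 (.bad 0 640 [0, 2, 3, 4, 6, 8])))
  (.bad 0 34 [9, 2, 4, 6, 7, 8])))))))
  (.br 13 (.col 7 (.col 8 (.col 14 (.col 17 (.col 23 (.br 29 (.bad 4 256 [9, 0, 6, 5, 3, 4])
  (.col 10 (.br 27 (.col 12 (.col 20 (.br 28 (.bad 4 64 [9, 1, 8, 7, 2, 4])
  (.bad 0 66 [9, 0, 2, 5, 7, 8]))))
  (.bad 2 128 [0, 4, 5, 9, 2, 6])))))))))
  (.col 8 (.br 2 (.col 13 (.br 20 (.bad 4 256 [9, 3, 4, 7, 5, 0])
  (.br 21 (.bad 4 256 [9, 1, 5, 3, 4, 0])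
  (.br 17 (.col 14 (.col 19 (.col 20 (.col 26 (.col 10 (.col 11 (.sol 6)))))))
  (.bad 0 288 [9, 1, 3, 4, 6, 7])))))
  (.col 13 (.br 21 (.col 6 (.col 14 (.col 25 (.br 15 (.bad 4 32 [9, 1, 8, 7, 2, 3])
  (.bad 0 160 [9, 2, 3, 4, 6, 8])))))
  (.bad 0 514 [0, 2, 4, 5, 7, 8])))))))))
  (.br 10 (.col 21 (.br 19 (.bad 4 1 [9, 5, 8, 6, 7, 3])
  (.br 24 (.bad 4 1 [9, 2, 6, 8, 5, 3])
  (.br 25 (.bad 4 1 [9, 1, 6, 8, 5, 3])
  (.bad 0 65 [9, 1, 2, 5, 7, 8])))))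
  (.bad 0 17 [9, 1, 2, 6, 7, 8])))))))))

def B_de10_211 : Dat where
  r := 4
  V := [[.i, .o, .o, .o],
    [.o, .i, .o, .o],
    [.o, .o, .i, .o],
    [.i, .i, .i, .o],
    [.o, .o, .o, .i],
    [.i, .o, .o, .i],
    [.w, .w, .w, .i],
    [.w, .v, .w, .o],
    [.w, .w, .v, .o]]
  P := [[.i, .o, .o, .o],
    [.o, .i, .o, .o],
    [.o, .o, .i, .o],
    [.i, .i, .i, .o],
    [.o, .o, .o, .i],
    [.i, .o, .o, .i],
    [.w, .w, .w, .i],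
    [.w, .v, .w, .o],
    [.w, .w, .v, .o],
    [.o, .o, .o, .o]]
  F := [[.i, .o, .o, .o],
    [.o, .i, .o, .o],
    [.i, .i, .o, .o],
    [.i, .v, .o, .o],
    [.o, .o, .i, .o],
    [.i, .o, .i, .o],
    [.o, .i, .i, .o],
    [.o, .i, .w, .o],
    [.i, .w, .w, .o],
    [.i, .o, .v, .o],
    [.o, .i, .v, .o],
    [.o, .o, .o, .i],
    [.i, .o, .o, .i],
    [.i, .i, .o, .i],
    [.i, .w, .o, .i],
    [.i, .v, .o, .i],
    [.i, .o, .i, .i],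
    [.i, .v, .i, .i],
    [.i, .o, .w, .i],
    [.o, .i, .w, .i],
    [.i, .w, .w, .i],
    [.i, .o, .v, .i],
    [.i, .i, .v, .i],
    [.i, .o, .o, .w],
    [.o, .i, .o, .w],
    [.o, .o, .i, .w],
    [.i, .w, .w, .w],
    [.i, .v, .o, .v],
    [.i, .o, .v, .v],
    [.o, .i, .v, .v]]
  ht := 0x141014200c401c000430045004600e0012201a000c10062016000aa00a40064012c0026018f01310112019000b1007900da00330094015c00350016
  ct := 0x1a0000000000000000000000000000000000000000000000000000001400000000000000000000000000080000000000000b000000b002c5800000000000000000000000000000000000000000000000000000001100000000000000000000000000020000000000000200000020070e80000000000000000000000000000a0000000000000d000000d00545000000000000000200000020024500000007f002c580002c580160000000000000000000000000000000000000000000000000000000000016000000000000000000000000000500000000000005000001b0014980000000000000000000000000000700000000000010000000f00403800000000000000500000030014380000000b01fc580002c5801600000000000000000000000000000000600000000000006000000e00483000000000000007f0000002001430000000020014300005cc0032000000000000000000600000010013f80000000d0040300003008008000000000002001430000000800800000002c580160000016000000000000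
  cl := [(7, 2, 0x2000810),
    (7, 1, 0x1000802),
    (7, 0, 0x801801),
    (11, 1, 0x840),
    (19, 0, 0x231),
    (21, 0, 0xf),
    (35, 0, 0x251010),
    (37, 0, 0xf002),
    (41, 0, 0x12040),
    (50, 1, 0x4d2),
    (67, 1, 0x23080040),
    (67, 0, 0x12840020),
    (69, 0, 0x9804004),
    (81, 0, 0x64),
    (97, 0, 0x464040),
    (131, 1, 0x80880),
    (133, 0, 0x8008808),
    (137, 0, 0x10820),
    (145, 0, 0x1a8),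
    (161, 0, 0x518080),
    (193, 0, 0xc480020),
    (259, 1, 0x20000c00),
    (259, 0, 0x10200a00),
    (265, 0, 0x2804),
    (273, 0, 0x704),
    (289, 0, 0x322400),
    (321, 0, 0x34020004),
    (385, 0, 0x4100900)]
  sl := [0x23080cd2, 0x12a51a31, 0x980f80f, 0x12864, 0x7ff, 0x77f4d2, 0x3fce4064, 0xc5989a8, 0x34322f04, 0x3fffffff]
  t := B_de10_211_t

theorem B_de10_211_okD : B_de10_211.ckD = true := by decide +kernel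

theorem B_de10_211_okT : B_de10_211.ckT TTab B_de10_211.t 0 0 = true := by decide +kernel

theorem lext_de10_211 : LExt 4 9 (vecL 4 B_de10_211.V) (vecP 4 B_de10_211.P) :=
  lext_of_chk' B_de10_211 B_de10_211_okD B_de10_211_okT (by decide)

end QG
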