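import Pool.Agent.Lib.QG.BC8

/-! MP_2e6874_co, part (B): data for de10_22. -/

set_option autoImplicit false
set_option maxRecDepth 100000

namespace QG

def B_de10_22_t : Tr :=
  .br 0 (.br 3 (.col 16 (.br 10 (.col 13 (.col 15 (.col 17 (.col 18 (.br 1 (.col 2 (.col 3 (.col 6 (.col 7 (.col 8 (.col 9 (.col 12 (.col 20 (.sol 9)))))))))
  (.col 2 (.col 3 (.col 6 (.col 7 (.col 8 (.col 9 (.col 12 (.col 20 (.sol 7))))))))))))))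
  (.col 13 (.col 15 (.col 17 (.col 18 (.br 13 (.col 23 (.col 24 (.bad 4 256 [9, 0, 4, 5, 6, 3])))
  (.br 16 (.col 6 (.col 7 (.col 9 (.col 11 (.col 20 (.bad 4 8 [9, 1, 4, 5, 8, 6]))))))
  (.col 19 (.br 1 (.col 2 (.col 3 (.col 6 (.col 7 (.col 9 (.col 20 (.sol 4)))))))
  (.col 2 (.col 3 (.col 7 (.br 17 (.col 4 (.col 9 (.col 20 (.sol 1))))
  (.bad 0 288 [9, 1, 3, 4, 6, 7])))))))))))))))
  (.col 16 (.br 1 (.col 2 (.col 3 (.col 7 (.br 9 (.col 1 (.col 4 (.col 5 (.col 6 (.col 8 (.col 9 (.col 10 (.col 12 (.col 15 (.col 17 (.col 18 (.sol 3))))))))))))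
  (.col 1 (.col 6 (.col 10 (.br 14 (.bad 4 128 [9, 0, 6, 4, 3, 2])
  (.br 17 (.bad 4 2 [9, 3, 7, 5, 8, 2])
  (.br 13 (.bad 4 32 [9, 3, 4, 6, 8, 2])
  (.col 24 (.br 22 (.col 17 (.bad 0 192 [9, 0, 3, 4, 5, 8]))
  (.bad 0 288 [9, 1, 3, 4, 6, 7])))))))))))))
  (.col 3 (.br 5 (.bad 4 16 [9, 3, 7, 5, 8, 0])
  (.br 8 (.bad 4 16 [9, 0, 6, 7, 3, 8])
  (.br 6 (.bad 5 16 [3, 9, 7, 0, 6, 5, 8])
  (.bad 2 16 [0, 7, 8, 9, 5, 6]))))))))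
  (.br 3 (.col 16 (.br 6 (.col 7 (.col 11 (.bad 4 16 [9, 0, 8, 5, 6, 3])))
  (.br 18 (.col 17 (.col 18 (.bad 4 128 [9, 0, 2, 5, 6, 3])))
  (.br 21 (.col 15 (.col 25 (.col 13 (.col 14 (.br 1 (.col 3 (.col 6 (.col 21 (.bad 5 8 [4, 9, 5, 1, 8, 7, 6]))))
  (.col 2 (.br 2 (.col 10 (.col 21 (.col 22 (.col 23 (.col 24 (.sol 8))))))
  (.col 21 (.col 22 (.col 23 (.br 9 (.bad 4 8 [9, 1, 6, 7, 8, 4])
  (.bad 0 544 [1, 2, 3, 4, 6, 8]))))))))))))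
  (.col 25 (.br 13 (.col 23 (.col 24 (.bad 4 256 [9, 0, 4, 5, 6, 3])))
  (.br 15 (.col 1 (.col 21 (.br 11 (.bad 4 8 [9, 1, 8, 7, 6, 4])
  (.bad 2 64 [3, 4, 8, 9, 5, 7]))))
  (.col 20 (.br 9 (.br 1 (.col 2 (.col 3 (.col 6 (.col 7 (.col 8 (.col 10 (.col 14 (.sol 0))))))))
  (.col 2 (.col 6 (.col 8 (.br 5 (.col 5 (.col 14 (.col 22 (.sol 2))))
  (.bad 0 288 [9, 1, 3, 4, 6, 7]))))))
  (.br 2 (.col 10 (.col 11 (.br 14 (.bad 4 64 [9, 0, 7, 3, 4, 1])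
  (.bad 0 192 [9, 0, 3, 4, 5, 8]))))
  (.bad 2 64 [1, 4, 7, 9, 5, 8])))))))))))
  (.br 21 (.col 15 (.col 25 (.br 4 (.bad 4 128 [9, 3, 8, 5, 4, 0])
  (.br 7 (.bad 4 128 [9, 3, 8, 6, 4, 2])
  (.br 12 (.bad 4 128 [9, 2, 5, 8, 3, 0])
  (.br 18 (.col 18 (.bad 5 128 [3, 9, 8, 0, 6, 5, 2]))
  (.bad 0 160 [9, 2, 3, 4, 6, 8])))))))
  (.br 15 (.col 1 (.col 20 (.col 21 (.br 4 (.bad 4 2 [9, 3, 8, 5, 7, 2])
  (.br 5 (.bad 4 256 [9, 1, 3, 4, 5, 0])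
  (.br 7 (.bad 4 2 [9, 3, 8, 6, 7, 2])
  (.br 11 (.bad 4 8 [9, 1, 8, 7, 6, 4])
  (.br 22 (.bad 4 256 [9, 1, 3, 7, 5, 0])
  (.br 13 (.col 12 (.col 24 (.br 14 (.col 13 (.br 12 (.bad 4 128 [9, 0, 6, 5, 2, 3])
  (.bad 0 160 [9, 2, 3, 4, 6, 8])))
  (.bad 0 192 [9, 0, 3, 4, 5, 8]))))
  (.bad 0 288 [9, 1, 3, 4, 6, 7]))))))))))
  (.br 2 (.col 3 (.col 21 (.col 22 (.br 17 (.bad 4 256 [9, 1, 5, 4, 3, 0])
  (.br 4 (.bad 4 16 [9, 3, 8, 5, 7, 0])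
  (.br 22 (.bad 4 256 [9, 3, 4, 5, 7, 0])
  (.br 13 (.col 24 (.br 6 (.col 11 (.col 12 (.col 17 (.col 18 (.sol 6)))))
  (.col 11 (.col 12 (.col 18 (.br 10 (.bad 4 8 [9, 4, 6, 7, 5, 1])
  (.br 12 (.bad 4 4 [9, 5, 7, 6, 8, 1])
  (.bad 0 160 [9, 2, 3, 4, 6, 8]))))))))
  (.bad 0 288 [9, 1, 3, 4, 6, 7]))))))))
  (.br 8 (.col 2 (.col 11 (.br 5 (.bad 4 16 [9, 0, 6, 5, 8, 3])
  (.br 4 (.bad 5 16 [0, 9, 6, 3, 7, 5, 8])
  (.bad 2 16 [3, 6, 8, 9, 5, 7])))))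
  (.br 11 (.col 10 (.col 14 (.col 15 (.br 4 (.bad 4 128 [9, 2, 3, 4, 5, 0])
  (.br 5 (.bad 4 4 [9, 5, 8, 6, 7, 1])
  (.br 22 (.bad 4 128 [9, 2, 3, 8, 5, 0])
  (.br 18 (.col 12 (.col 18 (.col 24 (.br 16 (.bad 4 1 [9, 5, 8, 6, 7, 2])
  (.br 17 (.bad 4 2 [9, 5, 8, 6, 7, 2])
  (.bad 0 288 [9, 1, 3, 4, 6, 7]))))))
  (.bad 0 160 [9, 2, 3, 4, 6, 8]))))))))
  (.br 7 (.col 11 (.col 16 (.col 18 (.br 1 (.bad 4 16 [9, 0, 3, 7, 6, 8])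
  (.br 10 (.bad 4 128 [9, 0, 3, 4, 6, 2])
  (.br 22 (.col 17 (.br 5 (.bad 5 16 [8, 9, 5, 0, 6, 7, 3])
  (.col 23 (.br 9 (.bad 4 32 [9, 1, 2, 7, 8, 4])
  (.col 9 (.br 20 (.bad 4 64 [9, 0, 8, 1, 4, 3])
  (.bad 0 320 [9, 0, 1, 4, 5, 7])))))))
  (.bad 2 128 [0, 3, 5, 9, 6, 8])))))))
  (.br 14 (.col 8 (.col 13 (.col 18 (.br 1 (.bad 4 1 [9, 4, 5, 7, 6, 2])
  (.br 6 (.bad 4 64 [9, 0, 7, 5, 4, 1])
  (.br 16 (.bad 4 1 [9, 5, 8, 6, 7, 2])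
  (.br 4 (.col 4 (.col 7 (.col 17 (.br 13 (.bad 4 32 [9, 1, 4, 6, 8, 2])
  (.bad 0 288 [9, 1, 3, 4, 6, 7])))))
  (.bad 2 16 [0, 3, 5, 9, 6, 7]))))))))
  (.br 10 (.br 23 (.bad 4 128 [9, 0, 3, 8, 6, 2])
  (.br 18 (.col 17 (.br 1 (.col 6 (.col 7 (.col 8 (.col 9 (.col 12 (.col 23 (.sol 5)))))))
  (.col 6 (.col 7 (.col 12 (.col 23 (.br 20 (.bad 4 1 [9, 5, 7, 6, 8, 2])
  (.br 19 (.bad 4 2 [9, 5, 7, 6, 8, 2])
  (.bad 0 320 [9, 0, 1, 4, 5, 7])))))))))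
  (.bad 0 192 [9, 0, 3, 4, 5, 8])))
  (.br 23 (.col 24 (.br 16 (.bad 4 256 [9, 0, 3, 7, 6, 4])
  (.br 9 (.bad 4 64 [9, 1, 3, 7, 8, 4])
  (.bad 2 8 [1, 5, 6, 9, 7, 8]))))
  (.bad 0 640 [0, 2, 3, 4, 6, 8])))))))))))

def B_de10_22 : Dat where
  r := 4
  V := [[.i, .o, .o, .o],
    [.o, .i, .o, .o],
    [.i, .i, .o, .o],
    [.o, .o, .i, .o],
    [.o, .o, .o, .i],
    [.i, .o, .i, .o],
    [.w, .w, .i, .o],
    [.o, .i, .o, .i],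
    [.w, .w, .o, .i]]
  P := [[.i, .o, .o, .o],
    [.o, .i, .o, .o],
    [.i, .i, .o, .o],
    [.o, .o, .i, .o],
    [.o, .o, .o, .i],
    [.i, .o, .i, .o],
    [.w, .w, .i, .o],
    [.o, .i, .o, .i],
    [.w, .w, .o, .i],
    [.o, .o, .o, .o]]
  F := [[.i, .o, .o, .o],
    [.o, .i, .o, .o],
    [.i, .i, .o, .o],
    [.o, .o, .i, .o],
    [.i, .o, .i, .o],
    [.i, .i, .i, .o],
    [.i, .w, .i, .o],
    [.i, .o, .w, .o],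
    [.o, .i, .w, .o],
    [.o, .o, .o, .i],
    [.o, .i, .o, .i],
    [.i, .i, .o, .i],
    [.i, .i, .i, .i],
    [.i, .w, .i, .i],
    [.o, .i, .w, .i],
    [.i, .o, .o, .w],
    [.o, .i, .o, .w],
    [.i, .o, .i, .w],
    [.i, .w, .i, .w],
    [.i, .o, .w, .w],
    [.o, .i, .w, .w],
    [.i, .v, .o, .v],
    [.i, .v, .i, .v],
    [.i, .v, .v, .v]]
  ht := 0x1c001a001880141014200e001220129010a00c1016000a400cc00a9006f005100d20070013400b20197015c0039009a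
  ct := 0x17000000000000000000000000000000000000000000000000000000160000000000000000000000000003000000000000150000003000c1800000000000000000000000000000000000000000000000000000000d0000000000000000000000000002000000000000020000002004ca000000000000000000000000000005000000000000100000005004480000000000000002000007f000c1800000002003c800000c18006000000000000000000000000000000000000000000000000000000000001200000000000000000000000000070000000000000b000000b001c70000000000000000000000000000040000000000000a000000c001050000000000000000000000301fc180000000b0000500000c180060000000000000000000000000000000060000000000000900000090024480000000000000020000002001c400000007f002448000244801200000000000000000010000005001008000000090027f800024480120000000000020000080000c180060000000244801200000fe000000000000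
  cl := [(14, 3, 0x208),
    (11, 0, 0x8201),
    (19, 1, 0x10a),
    (25, 0, 0x7),
    (35, 0, 0x20210),
    (37, 0, 0x1220),
    (42, 1, 0x10602),
    (49, 0, 0x72),
    (67, 1, 0x104300),
    (67, 0, 0x80280),
    (73, 0, 0xa04),
    (81, 0, 0x1c4),
    (97, 0, 0x42240),
    (131, 1, 0x4408),
    (133, 0, 0x1808),
    (137, 0, 0x200c01),
    (145, 0, 0x99),
    (161, 0, 0x441410),
    (193, 0, 0x844880),
    (259, 1, 0x110008),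
    (259, 0, 0xa8008),
    (265, 0, 0x218004),
    (273, 0, 0x2c),
    (289, 0, 0x432020),
    (321, 0, 0x982004),
    (385, 0, 0xe00008)]
  sl := [0x11470a, 0xa8299, 0x1a2c, 0x218e07, 0x1ff, 0x473672, 0x9c6bc4, 0xe45c99, 0xfba02c, 0xffffff]
  t := B_de10_22_t

theorem B_de10_22_okD : B_de10_22.ckD = true := by decide +kernel

theorem B_de10_22_okT : B_de10_22.ckT TTab B_de10_22.t 0 0 = true := by decide +kernel

theorem lext_de10_22 : LExt 4 9 (vecL 4 B_de10_22.V) (vecP 4 B_de10_22.P) :=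
  lext_of_chk' B_de10_22 B_de10_22_okD B_de10_22_okT (by decide)

end QG
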