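import Pool.Agent.Lib.QG.BC8

/-! MP_2e6874_co, part (B): data for de11_111. -/

set_option autoImplicit false
set_option maxRecDepth 100000

namespace QG

def B_de11_111_t : Tr :=
  .br 0 (.br 6 (.col 2 (.br 1 (.col 1 (.col 5 (.col 8 (.br 3 (.col 0 (.col 3 (.col 4 (.col 7 (.col 10 (.col 11 (.col 14 (.col 15 (.sol 8)))))))))
  (.col 0 (.col 3 (.col 4 (.col 7 (.col 10 (.col 11 (.col 14 (.col 15 (.sol 2)))))))))))))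
  (.col 1 (.col 5 (.col 8 (.br 5 (.col 3 (.col 4 (.col 7 (.col 10 (.br 10 (.col 21 (.bad 4 32 [8, 1, 2, 6, 7, 3]))
  (.bad 0 80 [8, 0, 2, 3, 5, 7]))))))
  (.br 10 (.col 14 (.col 19 (.col 4 (.bad 0 48 [8, 1, 2, 3, 6, 7]))))
  (.col 21 (.br 13 (.col 3 (.col 4 (.col 7 (.col 19 (.br 25 (.bad 4 256 [0, 3, 5, 7, 4, 6])
  (.bad 0 48 [8, 1, 2, 3, 6, 7]))))))
  (.br 3 (.col 0 (.col 3 (.col 4 (.col 7 (.col 10 (.sol 1))))))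
  (.col 0 (.col 4 (.br 24 (.col 14 (.br 22 (.bad 4 256 [0, 3, 5, 6, 4, 7])
  (.bad 0 48 [8, 1, 2, 3, 6, 7])))
  (.bad 0 17 [8, 1, 2, 5, 6, 7]))))))))))))))
  (.col 2 (.br 11 (.col 5 (.col 12 (.col 18 (.br 5 (.col 3 (.col 6 (.col 9 (.col 10 (.col 11 (.br 12 (.col 17 (.bad 4 1 [8, 1, 7, 6, 2, 5]))
  (.bad 0 18 [8, 0, 2, 5, 6, 7])))))))
  (.br 9 (.col 0 (.col 3 (.col 4 (.col 14 (.col 17 (.br 22 (.bad 4 256 [0, 1, 4, 3, 5, 7])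
  (.bad 0 48 [8, 1, 2, 3, 6, 7])))))))
  (.br 3 (.col 0 (.col 7 (.col 11 (.col 13 (.col 14 (.col 15 (.col 16 (.col 17 (.col 19 (.sol 6))))))))))
  (.col 11 (.col 13 (.col 14 (.br 13 (.col 16 (.col 17 (.col 19 (.br 23 (.bad 4 256 [0, 3, 5, 7, 4, 1])
  (.bad 0 48 [8, 1, 2, 3, 6, 7])))))
  (.bad 0 17 [8, 1, 2, 5, 6, 7])))))))))))
  (.col 12 (.br 3 (.col 0 (.col 7 (.col 11 (.col 13 (.col 14 (.col 15 (.col 17 (.br 8 (.col 3 (.col 5 (.br 22 (.bad 4 16 [8, 0, 2, 5, 7, 3])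
  (.bad 0 48 [8, 1, 2, 3, 6, 7]))))
  (.br 1 (.col 8 (.col 9 (.col 10 (.col 16 (.col 18 (.sol 3))))))
  (.col 9 (.col 18 (.br 17 (.col 10 (.br 13 (.bad 4 16 [8, 0, 7, 5, 2, 3])
  (.bad 0 17 [8, 1, 2, 5, 6, 7])))
  (.bad 0 20 [8, 0, 1, 5, 6, 7])))))))))))))
  (.col 13 (.br 10 (.col 14 (.col 21 (.br 5 (.col 3 (.col 6 (.col 10 (.bad 0 20 [8, 0, 1, 5, 6, 7]))))
  (.br 8 (.col 1 (.col 3 (.col 5 (.col 19 (.br 23 (.bad 4 256 [0, 2, 4, 3, 5, 1])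
  (.bad 0 48 [8, 1, 2, 3, 6, 7]))))))
  (.br 1 (.col 8 (.col 16 (.col 17 (.col 18 (.col 19 (.col 0 (.col 4 (.sol 7))))))))
  (.col 16 (.col 18 (.br 17 (.col 10 (.br 9 (.bad 4 256 [0, 1, 4, 3, 5, 2])
  (.bad 0 17 [8, 1, 2, 5, 6, 7])))
  (.bad 0 20 [8, 0, 1, 5, 6, 7])))))))))
  (.col 21 (.br 12 (.col 4 (.col 17 (.col 19 (.col 20 (.br 5 (.col 3 (.col 10 (.bad 0 20 [8, 0, 1, 5, 6, 7])))
  (.br 8 (.col 3 (.col 5 (.br 25 (.bad 4 256 [0, 2, 4, 3, 5, 6])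
  (.bad 0 48 [8, 1, 2, 3, 6, 7]))))
  (.br 17 (.col 10 (.br 24 (.bad 4 256 [0, 3, 5, 6, 4, 2])
  (.bad 0 80 [8, 0, 2, 3, 5, 7])))
  (.bad 0 20 [8, 0, 1, 5, 6, 7]))))))))
  (.col 17 (.br 1 (.col 1 (.col 8 (.col 9 (.col 16 (.col 18 (.col 19 (.br 9 (.col 3 (.col 4 (.br 25 (.bad 4 16 [8, 0, 1, 5, 6, 3])
  (.bad 0 48 [8, 1, 2, 3, 6, 7]))))
  (.br 24 (.col 14 (.br 23 (.bad 4 16 [8, 0, 6, 5, 1, 3])
  (.bad 0 48 [8, 1, 2, 3, 6, 7])))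
  (.bad 0 17 [8, 1, 2, 5, 6, 7])))))))))
  (.col 18 (.br 8 (.col 5 (.br 5 (.col 3 (.col 4 (.col 10 (.sol 9))))
  (.col 3 (.br 25 (.col 10 (.bad 0 18 [8, 0, 2, 5, 6, 7]))
  (.bad 0 80 [8, 0, 2, 3, 5, 7])))))
  (.br 17 (.br 5 (.col 3 (.col 10 (.sol 13)))
  (.col 10 (.br 24 (.col 3 (.bad 0 18 [8, 0, 2, 5, 6, 7]))
  (.bad 0 80 [8, 0, 2, 3, 5, 7]))))
  (.bad 0 20 [8, 0, 1, 5, 6, 7])))))))))))))))
  (.br 6 (.col 2 (.br 2 (.col 5 (.col 18 (.col 1 (.br 16 (.bad 4 4 [8, 0, 1, 5, 6, 7])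
  (.bad 2 4 [8, 0, 1, 4, 5, 6])))))
  (.br 4 (.col 4 (.col 13 (.col 0 (.br 19 (.bad 4 2 [8, 0, 2, 5, 7, 6])
  (.bad 2 2 [8, 0, 2, 4, 5, 7])))))
  (.br 16 (.col 8 (.col 12 (.col 1 (.bad 0 20 [8, 0, 1, 5, 6, 7]))))
  (.br 19 (.col 7 (.col 17 (.col 0 (.bad 0 18 [8, 0, 2, 5, 6, 7]))))
  (.br 21 (.col 15 (.col 20 (.col 21 (.col 0 (.col 1 (.bad 5 256 [3, 0, 5, 6, 2, 1, 7]))))))
  (.br 11 (.col 5 (.col 14 (.col 1 (.br 12 (.bad 4 16 [8, 1, 7, 6, 2, 3])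
  (.br 22 (.col 10 (.col 19 (.br 9 (.col 0 (.bad 4 256 [2, 3, 7, 6, 4, 5]))
  (.bad 0 17 [8, 1, 2, 5, 6, 7]))))
  (.bad 2 128 [1, 3, 6, 8, 4, 5]))))))
  (.br 12 (.col 4 (.col 19 (.col 0 (.br 25 (.col 10 (.br 8 (.col 1 (.bad 4 256 [1, 3, 6, 7, 4, 5]))
  (.bad 0 20 [8, 0, 1, 5, 6, 7])))
  (.bad 2 64 [2, 3, 7, 8, 4, 5])))))
  (.br 22 (.col 19 (.col 20 (.col 1 (.br 17 (.col 10 (.col 15 (.col 0 (.br 20 (.bad 4 1 [8, 1, 2, 6, 7, 5])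
  (.bad 2 128 [1, 3, 6, 8, 0, 4])))))
  (.bad 0 20 [8, 0, 1, 5, 6, 7])))))
  (.br 1 (.col 1 (.col 5 (.br 3 (.col 0 (.col 3 (.col 4 (.col 10 (.col 11 (.col 14 (.sol 0)))))))
  (.col 0 (.col 3 (.br 23 (.col 10 (.br 10 (.bad 4 256 [1, 3, 6, 5, 4, 7])
  (.bad 0 80 [8, 0, 2, 3, 5, 7])))
  (.bad 0 18 [8, 0, 2, 5, 6, 7])))))))
  (.col 1 (.br 17 (.col 10 (.br 9 (.col 0 (.col 3 (.br 10 (.bad 4 256 [2, 3, 7, 5, 4, 6])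
  (.bad 0 80 [8, 0, 2, 3, 5, 7]))))
  (.bad 0 18 [8, 0, 2, 5, 6, 7])))
  (.bad 0 20 [8, 0, 1, 5, 6, 7])))))))))))))
  (.br 15 (.col 1 (.col 12 (.br 14 (.bad 4 4 [8, 0, 6, 5, 1, 7])
  (.br 2 (.col 5 (.bad 2 4 [8, 0, 6, 1, 4, 5]))
  (.br 3 (.col 0 (.col 7 (.col 9 (.col 11 (.col 13 (.col 14 (.br 7 (.col 4 (.col 5 (.br 22 (.bad 4 256 [1, 2, 4, 3, 5, 7])
  (.bad 0 48 [8, 1, 2, 3, 6, 7]))))
  (.br 17 (.col 10 (.br 12 (.bad 4 256 [1, 3, 5, 7, 4, 2])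
  (.bad 0 18 [8, 0, 2, 5, 6, 7])))
  (.bad 0 20 [8, 0, 1, 5, 6, 7])))))))))
  (.col 11 (.br 18 (.bad 4 1 [8, 1, 7, 6, 2, 5])
  (.br 21 (.bad 4 64 [8, 0, 2, 5, 7, 3])
  (.br 19 (.bad 5 256 [3, 0, 5, 1, 2, 6, 7])
  (.bad 2 256 [0, 2, 6, 1, 5, 7]))))))))))
  (.br 3 (.col 0 (.col 11 (.col 13 (.br 14 (.col 2 (.col 7 (.col 17 (.br 2 (.col 5 (.col 6 (.col 10 (.col 19 (.bad 0 80 [8, 0, 2, 3, 5, 7])))))
  (.br 8 (.col 1 (.col 3 (.col 5 (.col 10 (.br 10 (.bad 4 256 [0, 2, 4, 3, 6, 7])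
  (.bad 0 80 [8, 0, 2, 3, 5, 7]))))))
  (.br 1 (.col 8 (.col 9 (.col 10 (.col 12 (.col 14 (.col 15 (.col 16 (.sol 5))))))))
  (.col 8 (.col 9 (.br 11 (.col 14 (.br 13 (.bad 4 256 [0, 3, 6, 7, 4, 2])
  (.bad 0 17 [8, 1, 2, 5, 6, 7])))
  (.bad 0 20 [8, 0, 1, 5, 6, 7]))))))))))
  (.col 7 (.br 16 (.col 8 (.col 9 (.col 12 (.col 15 (.col 21 (.br 2 (.col 5 (.col 19 (.bad 0 17 [8, 1, 2, 5, 6, 7])))
  (.br 7 (.col 4 (.col 5 (.br 13 (.bad 4 256 [0, 1, 3, 4, 7, 2])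
  (.bad 0 17 [8, 1, 2, 5, 6, 7]))))
  (.br 8 (.col 3 (.br 12 (.bad 4 256 [0, 1, 3, 4, 2, 7])
  (.bad 0 18 [8, 0, 2, 5, 6, 7])))
  (.bad 0 20 [8, 0, 1, 5, 6, 7])))))))))
  (.col 15 (.br 1 (.col 1 (.col 8 (.col 18 (.br 7 (.col 4 (.col 5 (.br 10 (.bad 4 16 [8, 1, 2, 6, 7, 3])
  (.bad 0 80 [8, 0, 2, 3, 5, 7]))))
  (.br 11 (.col 14 (.br 12 (.bad 4 16 [8, 1, 7, 6, 2, 3])
  (.bad 0 18 [8, 0, 2, 5, 6, 7])))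
  (.bad 0 20 [8, 0, 1, 5, 6, 7]))))))
  (.col 9 (.br 7 (.col 4 (.br 2 (.col 5 (.col 10 (.col 14 (.col 19 (.sol 11)))))
  (.col 5 (.br 22 (.col 19 (.bad 0 80 [8, 0, 2, 3, 5, 7]))
  (.bad 0 48 [8, 1, 2, 3, 6, 7])))))
  (.br 12 (.br 2 (.col 5 (.col 19 (.sol 15)))
  (.col 19 (.br 17 (.col 5 (.bad 0 80 [8, 0, 2, 3, 5, 7]))
  (.bad 0 48 [8, 1, 2, 3, 6, 7]))))
  (.bad 0 18 [8, 0, 2, 5, 6, 7]))))))))))))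
  (.br 14 (.col 2 (.col 7 (.br 18 (.bad 4 2 [8, 0, 7, 5, 2, 6])
  (.br 1 (.col 1 (.col 8 (.col 9 (.col 10 (.col 12 (.col 16 (.col 18 (.br 4 (.col 4 (.col 14 (.bad 0 17 [8, 1, 2, 5, 6, 7])))
  (.br 9 (.col 3 (.col 4 (.br 10 (.bad 4 256 [0, 1, 4, 3, 7, 6])
  (.bad 0 80 [8, 0, 2, 3, 5, 7]))))
  (.br 24 (.col 14 (.br 12 (.bad 4 256 [0, 3, 7, 6, 4, 1])
  (.bad 0 18 [8, 0, 2, 5, 6, 7])))
  (.bad 0 17 [8, 1, 2, 5, 6, 7])))))))))))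
  (.col 8 (.br 21 (.bad 4 32 [8, 1, 2, 6, 7, 3])
  (.br 20 (.bad 5 256 [3, 0, 5, 1, 7, 6, 2])
  (.bad 2 256 [1, 2, 5, 0, 6, 7]))))))))
  (.br 16 (.col 8 (.col 15 (.br 20 (.bad 4 64 [8, 0, 7, 5, 2, 3])
  (.br 19 (.bad 4 32 [8, 1, 7, 6, 2, 3])
  (.br 18 (.bad 5 256 [3, 0, 5, 2, 1, 7, 6])
  (.bad 2 256 [2, 5, 6, 0, 1, 7]))))))
  (.br 1 (.col 1 (.col 8 (.col 9 (.col 18 (.br 13 (.col 3 (.col 19 (.br 4 (.col 4 (.col 14 (.bad 0 20 [8, 0, 1, 5, 6, 7])))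
  (.br 7 (.col 4 (.col 5 (.br 25 (.bad 4 256 [1, 2, 4, 3, 6, 5])
  (.bad 0 48 [8, 1, 2, 3, 6, 7]))))
  (.br 11 (.col 14 (.br 23 (.bad 4 256 [1, 3, 6, 5, 4, 2])
  (.bad 0 48 [8, 1, 2, 3, 6, 7])))
  (.bad 0 20 [8, 0, 1, 5, 6, 7]))))))
  (.col 16 (.br 19 (.col 17 (.col 20 (.col 21 (.col 10 (.br 4 (.col 4 (.col 14 (.bad 0 20 [8, 0, 1, 5, 6, 7])))
  (.br 7 (.col 4 (.col 5 (.br 24 (.bad 4 256 [0, 2, 3, 4, 6, 1])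
  (.bad 0 80 [8, 0, 2, 3, 5, 7]))))
  (.br 11 (.col 14 (.br 9 (.bad 4 256 [0, 1, 4, 3, 2, 6])
  (.bad 0 17 [8, 1, 2, 5, 6, 7])))
  (.bad 0 20 [8, 0, 1, 5, 6, 7]))))))))
  (.col 20 (.br 7 (.col 5 (.br 4 (.col 4 (.col 10 (.col 14 (.sol 10))))
  (.col 4 (.br 25 (.col 14 (.bad 0 17 [8, 1, 2, 5, 6, 7]))
  (.bad 0 48 [8, 1, 2, 3, 6, 7])))))
  (.br 11 (.br 4 (.col 4 (.col 14 (.sol 14)))
  (.col 14 (.br 23 (.col 4 (.bad 0 17 [8, 1, 2, 5, 6, 7]))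
  (.bad 0 48 [8, 1, 2, 3, 6, 7]))))
  (.bad 0 20 [8, 0, 1, 5, 6, 7])))))))))))
  (.br 18 (.col 16 (.col 17 (.br 21 (.bad 4 128 [8, 0, 1, 5, 6, 3])
  (.bad 2 256 [0, 1, 7, 2, 5, 6]))))
  (.br 19 (.col 20 (.br 20 (.bad 4 128 [8, 0, 6, 5, 1, 3])
  (.bad 2 256 [1, 5, 7, 0, 2, 6])))
  (.br 20 (.col 21 (.bad 2 256 [0, 6, 7, 1, 2, 5]))
  (.br 21 (.bad 2 256 [5, 6, 7, 0, 1, 2])
  (.br 2 (.br 7 (.col 5 (.br 4 (.col 4 (.col 6 (.col 10 (.col 14 (.col 19 (.sol 4))))))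
  (.col 4 (.col 6 (.col 10 (.bad 2 32 [1, 3, 6, 8, 4, 7]))))))
  (.col 5 (.br 9 (.col 3 (.col 4 (.col 19 (.br 25 (.bad 4 16 [8, 0, 1, 5, 6, 3])
  (.bad 0 48 [8, 1, 2, 3, 6, 7])))))
  (.br 4 (.col 4 (.col 6 (.col 10 (.col 14 (.col 19 (.sol 12))))))
  (.col 6 (.br 13 (.col 19 (.col 4 (.col 10 (.bad 2 32 [1, 3, 6, 8, 2, 4]))))
  (.bad 2 1 [2, 5, 7, 8, 1, 4])))))))
  (.br 7 (.col 5 (.bad 2 4 [0, 5, 7, 8, 4, 6]))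
  (.br 8 (.col 5 (.bad 2 4 [1, 6, 7, 8, 4, 5]))
  (.br 11 (.col 5 (.bad 2 4 [0, 5, 7, 8, 1, 4]))
  (.bad 2 4 [1, 6, 7, 8, 0, 4])))))))))))))))

def B_de11_111 : Dat where
  r := 4
  V := [[.i, .o, .o, .o],
    [.o, .i, .o, .o],
    [.o, .o, .i, .o],
    [.o, .o, .o, .i],
    [.i, .i, .i, .i],
    [.i, .o, .o, .w],
    [.o, .i, .o, .w],
    [.o, .o, .i, .w]]
  P := [[.i, .o, .o, .o],
    [.o, .i, .o, .o],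
    [.o, .o, .i, .o],
    [.o, .o, .o, .i],
    [.i, .i, .i, .i],
    [.i, .o, .o, .w],
    [.o, .i, .o, .w],
    [.o, .o, .i, .w],
    [.o, .o, .o, .o],
    [.o, .i, .i, .i],
    [.i, .o, .i, .i],
    [.i, .i, .o, .i],
    [.i, .i, .i, .v],
    [.o, .i, .i, .v],
    [.i, .o, .i, .v],
    [.i, .i, .o, .v]]
  F := [[.i, .o, .o, .o],
    [.o, .i, .o, .o],
    [.i, .i, .o, .o],
    [.o, .o, .i, .o],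
    [.i, .o, .i, .o],
    [.o, .i, .i, .o],
    [.o, .o, .o, .i],
    [.i, .o, .o, .i],
    [.o, .i, .o, .i],
    [.o, .o, .i, .i],
    [.i, .w, .w, .i],
    [.i, .v, .o, .w],
    [.i, .o, .v, .w],
    [.o, .i, .v, .w],
    [.i, .o, .o, .v],
    [.o, .i, .o, .v],
    [.i, .i, .o, .v],
    [.i, .w, .o, .v],
    [.o, .o, .i, .v],
    [.i, .o, .i, .v],
    [.o, .i, .i, .v],
    [.i, .i, .i, .v],
    [.i, .v, .i, .v],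
    [.i, .o, .w, .v],
    [.o, .i, .w, .v],
    [.i, .i, .v, .v]]
  ht := 0x700051003200b000e000c100a20083003400640045002600910092005400d000130015001600070039005a006b009c00ad00ce
  ct := 0x15000000000000000000000000000a0000000000000000000000000a000000000000000000000000000016000000000000010000001004c0800000000000000200000020030680000007f0000080000008024000000000000000000000000000000019000000000000030000010000c18000000000000004000000b0010c00000000001fc18000007800600000000000000000050000011005c2800000001000ff800038080060000000000020010280001c4001200000000008006000000c000000000000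
  cl := [(7, 2, 0x40248),
    (7, 1, 0x8142),
    (7, 0, 0x40c1),
    (19, 1, 0x1002320),
    (19, 0, 0x801290),
    (21, 0, 0x20984),
    (25, 0, 0x34),
    (35, 0, 0x884008),
    (37, 0, 0x34002),
    (42, 1, 0x2a),
    (49, 0, 0x2c20020),
    (67, 1, 0x1108008),
    (69, 0, 0x18801),
    (73, 0, 0x19),
    (81, 0, 0x3000c10),
    (97, 0, 0x2210008),
    (131, 1, 0x142002),
    (131, 0, 0xc1001),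
    (137, 0, 0x7),
    (145, 0, 0x403404),
    (161, 0, 0x680002),
    (193, 0, 0x300401)]
  sl := [0x114a36a, 0x8c52d9, 0x3c9c7, 0x3f, 0x3c23fb4, 0x2eb402a, 0x3318c19, 0x7c3407, 0x3ffffff, 0x1002321, 0x801292, 0x2098c, 0x34, 0x2c20021, 0x3000c12, 0x40340c]
  t := B_de11_111_t

theorem B_de11_111_okD : B_de11_111.ckD = true := by decide +kernel

theorem B_de11_111_okT : B_de11_111.ckT TTab B_de11_111.t 0 0 = true := by decide +kernel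

theorem lext_de11_111 : LExt 4 8 (vecL 4 B_de11_111.V) (vecP 4 B_de11_111.P) :=
  lext_of_chk' B_de11_111 B_de11_111_okD B_de11_111_okT (by decide)

end QG
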