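import Pool.Agent.Lib.QG.BC8

/-! MP_2e6874_co, part (B): data for de11_1111. -/

set_option autoImplicit false
set_option maxRecDepth 100000

namespace QG

def B_de11_1111_t : Tr :=
  .br 0 (.br 10 (.col 3 (.br 1 (.col 2 (.col 9 (.col 12 (.br 3 (.col 1 (.col 7 (.col 8 (.col 11 (.col 15 (.col 18 (.col 22 (.col 25 (.br 6 (.col 0 (.col 4 (.col 5 (.col 6 (.col 10 (.col 13 (.col 14 (.col 17 (.col 20 (.col 21 (.col 24 (.col 27 (.col 28 (.col 31 (.col 32 (.col 35 (.col 38 (.col 39 (.col 42 (.col 43 (.sol 10)))))))))))))))))))))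
  (.col 0 (.col 4 (.col 5 (.col 6 (.col 10 (.col 13 (.col 14 (.col 17 (.col 20 (.col 21 (.col 24 (.col 27 (.col 28 (.col 31 (.col 32 (.col 35 (.col 38 (.col 39 (.col 42 (.col 43 (.sol 3))))))))))))))))))))))))))))))
  (.col 1 (.col 7 (.col 8 (.col 11 (.col 15 (.col 18 (.col 22 (.col 25 (.br 9 (.col 4 (.col 5 (.col 6 (.col 10 (.col 13 (.col 24 (.col 27 (.br 47 (.col 64 (.bad 4 192 [10, 2, 3, 8, 9, 4]))
  (.bad 0 352 [10, 1, 3, 4, 7, 9])))))))))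
  (.br 17 (.col 32 (.col 48 (.col 6 (.bad 0 98 [10, 2, 3, 7, 8, 9]))))
  (.col 61 (.col 63 (.col 64 (.col 65 (.br 24 (.col 4 (.col 6 (.col 21 (.col 47 (.col 48 (.br 48 (.bad 4 544 [10, 0, 1, 6, 7, 4])
  (.bad 0 672 [10, 0, 2, 4, 6, 8])))))))
  (.br 6 (.col 0 (.col 4 (.col 5 (.col 6 (.col 10 (.col 13 (.col 14 (.col 17 (.col 20 (.col 21 (.col 24 (.col 27 (.sol 2)))))))))))))
  (.col 0 (.col 5 (.col 6 (.br 49 (.col 13 (.br 54 (.col 42 (.br 53 (.bad 4 288 [10, 0, 1, 6, 7, 4])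
  (.bad 0 290 [10, 0, 3, 6, 7, 9])))
  (.bad 0 352 [10, 1, 3, 4, 7, 9])))
  (.bad 0 546 [10, 0, 2, 6, 7, 8])))))))))))))))))))))))))
  (.col 2 (.col 9 (.col 12 (.br 5 (.col 7 (.col 8 (.col 15 (.br 14 (.bad 4 40 [10, 1, 2, 7, 8, 9])
  (.bad 0 296 [10, 0, 1, 6, 7, 9])))))
  (.br 8 (.col 5 (.col 6 (.col 10 (.col 14 (.col 46 (.br 16 (.col 56 (.bad 4 5 [10, 1, 3, 7, 9, 8]))
  (.bad 0 164 [10, 0, 3, 6, 8, 9])))))))
  (.br 14 (.col 22 (.col 33 (.col 57 (.col 1 (.bad 0 41 [10, 1, 2, 7, 8, 9])))))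
  (.col 40 (.br 16 (.col 21 (.col 49 (.col 6 (.bad 0 100 [10, 1, 3, 7, 8, 9]))))
  (.col 56 (.br 18 (.col 31 (.col 47 (.col 60 (.col 61 (.col 63 (.br 42 (.bad 4 544 [10, 0, 8, 6, 2, 4])
  (.br 22 (.col 6 (.col 10 (.col 32 (.col 42 (.col 48 (.col 51 (.col 1 (.col 4 (.br 34 (.col 15 (.br 36 (.br 48 (.bad 4 160 [10, 0, 3, 6, 9, 4])
  (.bad 0 672 [10, 0, 2, 4, 6, 8]))
  (.bad 0 41 [10, 1, 2, 7, 8, 9])))
  (.bad 0 352 [10, 1, 3, 4, 7, 9]))))))))))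
  (.bad 0 548 [10, 0, 1, 6, 7, 8]))))))))
  (.br 21 (.col 7 (.col 8 (.col 33 (.br 37 (.br 23 (.bad 4 33 [10, 2, 9, 8, 3, 6])
  (.br 47 (.bad 4 288 [10, 0, 3, 6, 9, 4])
  (.br 42 (.col 14 (.col 27 (.col 49 (.col 6 (.br 56 (.col 32 (.br 25 (.bad 5 1056 [4, 1, 7, 8, 3, 2, 9])
  (.bad 0 800 [10, 0, 1, 4, 6, 7])))
  (.bad 0 352 [10, 1, 3, 4, 7, 9]))))))
  (.bad 2 1056 [0, 3, 8, 2, 6, 9]))))
  (.bad 0 168 [10, 0, 2, 6, 8, 9])))))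
  (.br 3 (.col 1 (.col 7 (.col 8 (.col 11 (.col 15 (.col 55 (.col 58 (.col 59 (.br 6 (.col 0 (.col 4 (.col 5 (.col 6 (.col 10 (.col 13 (.col 14 (.col 20 (.col 27 (.col 28 (.col 32 (.col 35 (.col 38 (.sol 1))))))))))))))
  (.col 0 (.col 4 (.col 6 (.col 32 (.br 47 (.col 38 (.col 54 (.br 55 (.col 21 (.br 57 (.bad 4 160 [10, 0, 8, 6, 2, 4])
  (.bad 0 161 [10, 2, 3, 6, 8, 9])))
  (.bad 0 100 [10, 1, 3, 7, 8, 9]))))
  (.bad 0 800 [10, 0, 1, 4, 6, 7])))))))))))))))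
  (.col 1 (.col 8 (.br 34 (.col 38 (.br 42 (.bad 4 96 [10, 2, 9, 8, 3, 4])
  (.br 23 (.bad 5 1056 [4, 0, 6, 3, 2, 9, 8])
  (.br 22 (.col 6 (.col 32 (.col 42 (.bad 0 800 [10, 0, 1, 4, 6, 7]))))
  (.bad 0 548 [10, 0, 1, 6, 7, 8])))))
  (.bad 0 296 [10, 0, 1, 6, 7, 9]))))))))))))))))))
  (.col 3 (.br 19 (.col 9 (.col 19 (.col 62 (.br 5 (.col 7 (.col 15 (.col 22 (.br 20 (.bad 4 40 [10, 1, 8, 7, 2, 9])
  (.bad 0 296 [10, 0, 1, 6, 7, 9])))))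
  (.br 8 (.col 5 (.col 14 (.col 21 (.br 22 (.bad 4 36 [10, 1, 9, 7, 3, 8])
  (.bad 0 38 [10, 0, 3, 6, 8, 9])))))
  (.br 13 (.col 7 (.col 8 (.col 22 (.br 34 (.col 38 (.br 42 (.bad 4 96 [10, 2, 9, 8, 3, 4])
  (.br 18 (.bad 4 288 [10, 0, 9, 6, 3, 4])
  (.br 23 (.bad 5 1056 [4, 0, 6, 3, 2, 9, 8])
  (.bad 2 1056 [3, 6, 8, 0, 2, 9])))))
  (.bad 0 296 [10, 0, 1, 6, 7, 9])))))
  (.br 3 (.col 1 (.col 11 (.col 18 (.col 22 (.col 25 (.col 29 (.col 30 (.col 33 (.br 15 (.col 4 (.col 5 (.col 6 (.col 21 (.col 42 (.col 48 (.br 56 (.col 38 (.br 42 (.br 18 (.bad 4 544 [10, 0, 8, 6, 2, 4])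
  (.bad 0 800 [10, 0, 1, 4, 6, 7]))
  (.bad 0 100 [10, 1, 3, 7, 8, 9])))
  (.bad 0 290 [10, 0, 3, 6, 7, 9]))))))))
  (.br 6 (.col 0 (.col 10 (.col 17 (.col 20 (.col 21 (.col 24 (.col 27 (.col 28 (.col 31 (.col 32 (.col 35 (.col 38 (.col 39 (.col 42 (.col 43 (.col 44 (.col 45 (.col 46 (.col 48 (.col 49 (.sol 7)))))))))))))))))))))
  (.col 17 (.col 20 (.col 21 (.br 23 (.col 45 (.col 46 (.col 47 (.col 48 (.br 53 (.col 32 (.br 51 (.bad 4 34 [10, 0, 8, 6, 2, 7])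
  (.bad 0 98 [10, 2, 3, 7, 8, 9])))
  (.bad 0 35 [10, 2, 3, 7, 8, 9]))))))
  (.bad 0 37 [10, 1, 3, 7, 8, 9])))))))))))))))
  (.col 18 (.col 22 (.br 21 (.col 29 (.col 30 (.col 31 (.col 33 (.br 35 (.br 23 (.bad 4 33 [10, 2, 9, 8, 3, 6])
  (.br 47 (.bad 4 288 [10, 0, 3, 6, 9, 4])
  (.br 42 (.col 14 (.col 21 (.col 49 (.col 54 (.col 13 (.br 54 (.col 42 (.br 17 (.bad 5 1056 [4, 1, 7, 2, 9, 8, 3])
  (.bad 0 290 [10, 0, 3, 6, 7, 9])))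
  (.bad 0 352 [10, 1, 3, 4, 7, 9])))))))
  (.bad 2 1056 [0, 3, 8, 2, 6, 9]))))
  (.bad 0 42 [10, 0, 2, 6, 8, 9]))))))
  (.bad 0 41 [10, 1, 2, 7, 8, 9])))))))))))
  (.col 19 (.br 3 (.col 1 (.col 11 (.col 18 (.col 25 (.col 30 (.col 40 (.col 57 (.br 12 (.col 7 (.col 9 (.br 34 (.bad 4 40 [10, 0, 2, 6, 8, 9])
  (.bad 0 296 [10, 0, 1, 6, 7, 9]))))
  (.br 1 (.col 12 (.col 29 (.col 36 (.col 53 (.col 62 (.br 15 (.col 5 (.col 6 (.col 49 (.br 55 (.bad 4 36 [10, 0, 1, 6, 7, 8])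
  (.bad 0 164 [10, 0, 3, 6, 8, 9])))))
  (.br 51 (.col 6 (.col 14 (.col 49 (.br 52 (.bad 4 36 [10, 0, 7, 6, 1, 8])
  (.bad 0 164 [10, 0, 3, 6, 8, 9])))))
  (.br 52 (.col 5 (.col 16 (.col 21 (.col 45 (.col 46 (.col 47 (.col 48 (.br 56 (.col 32 (.bad 0 35 [10, 2, 3, 7, 8, 9]))
  (.bad 0 98 [10, 2, 3, 7, 8, 9])))))))))
  (.br 53 (.col 4 (.col 16 (.col 23 (.col 32 (.col 44 (.col 46 (.col 49 (.col 54 (.br 54 (.col 27 (.bad 0 164 [10, 0, 3, 6, 8, 9]))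
  (.bad 0 352 [10, 1, 3, 4, 7, 9]))))))))))
  (.br 54 (.col 27 (.col 42 (.col 58 (.bad 0 164 [10, 0, 3, 6, 8, 9]))))
  (.br 55 (.col 14 (.col 16 (.col 21 (.col 58 (.col 63 (.col 47 (.bad 0 35 [10, 2, 3, 7, 8, 9])))))))
  (.br 56 (.col 13 (.col 23 (.col 32 (.col 48 (.col 49 (.bad 0 164 [10, 0, 3, 6, 8, 9]))))))
  (.br 57 (.col 31 (.col 47 (.col 48 (.col 49 (.col 54 (.bad 0 352 [10, 1, 3, 4, 7, 9]))))))
  (.br 6 (.col 0 (.col 10 (.col 17 (.col 24 (.col 26 (.col 27 (.col 28 (.col 35 (.col 37 (.col 38 (.col 39 (.col 41 (.col 42 (.col 43 (.col 44 (.col 45 (.col 46 (.col 47 (.col 48 (.col 49 (.sol 4)))))))))))))))))))))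
  (.col 26 (.col 37 (.col 41 (.br 47 (.col 54 (.col 58 (.col 59 (.col 63 (.col 64 (.col 65 (.col 47 (.col 48 (.col 51 (.col 55 (.col 60 (.col 44 (.sol 9)))))))))))))
  (.bad 0 352 [10, 1, 3, 4, 7, 9])))))))))))))))))))
  (.col 53 (.col 62 (.br 21 (.col 33 (.br 29 (.bad 4 40 [10, 0, 8, 6, 2, 9])
  (.bad 0 44 [10, 0, 1, 6, 7, 9])))
  (.bad 0 41 [10, 1, 2, 7, 8, 9])))))))))))))
  (.col 57 (.br 16 (.col 21 (.col 41 (.col 56 (.col 58 (.col 59 (.col 65 (.br 33 (.bad 4 192 [10, 2, 9, 8, 3, 4])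
  (.col 40 (.br 1 (.col 29 (.col 30 (.col 36 (.col 37 (.col 45 (.col 46 (.col 47 (.col 48 (.col 49 (.col 54 (.col 0 (.br 9 (.col 13 (.col 27 (.bad 0 352 [10, 1, 3, 4, 7, 9])))
  (.br 13 (.col 7 (.col 8 (.br 37 (.bad 4 40 [10, 0, 1, 6, 7, 9])
  (.bad 0 168 [10, 0, 2, 6, 8, 9]))))
  (.br 53 (.col 31 (.col 32 (.br 54 (.bad 4 288 [10, 0, 1, 6, 7, 4])
  (.bad 0 352 [10, 1, 3, 4, 7, 9]))))
  (.bad 0 35 [10, 2, 3, 7, 8, 9])))))))))))))))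
  (.col 45 (.col 46 (.col 49 (.br 43 (.bad 4 513 [10, 1, 8, 7, 2, 6])
  (.col 61 (.br 20 (.bad 5 1056 [4, 1, 7, 2, 3, 8, 9])
  (.col 30 (.bad 2 1025 [2, 7, 9, 1, 3, 8])))))))))))))))))
  (.col 56 (.br 22 (.col 6 (.col 41 (.col 46 (.col 48 (.col 49 (.col 51 (.col 52 (.br 31 (.bad 4 66 [10, 2, 9, 8, 3, 7])
  (.col 30 (.br 46 (.bad 4 576 [10, 1, 2, 7, 8, 4])
  (.col 65 (.br 14 (.bad 5 1056 [4, 1, 7, 3, 2, 9, 8])
  (.bad 2 1056 [1, 2, 9, 3, 7, 8])))))))))))))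
  (.col 46 (.br 1 (.col 2 (.col 12 (.col 45 (.col 52 (.col 53 (.col 62 (.br 13 (.col 7 (.col 8 (.col 33 (.br 37 (.bad 4 40 [10, 0, 1, 6, 7, 9])
  (.bad 0 168 [10, 0, 2, 6, 8, 9])))))
  (.br 9 (.col 4 (.col 16 (.col 23 (.br 51 (.col 14 (.br 52 (.bad 4 36 [10, 0, 7, 6, 1, 8])
  (.bad 0 164 [10, 0, 3, 6, 8, 9])))
  (.bad 0 38 [10, 0, 3, 6, 8, 9])))))
  (.br 14 (.col 22 (.col 33 (.col 36 (.col 40 (.col 8 (.col 29 (.br 15 (.col 5 (.col 6 (.br 55 (.bad 4 36 [10, 0, 1, 6, 7, 8])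
  (.bad 0 164 [10, 0, 3, 6, 8, 9]))))
  (.br 6 (.col 10 (.col 17 (.col 24 (.col 28 (.col 31 (.col 32 (.col 35 (.col 38 (.col 39 (.col 42 (.col 43 (.col 44 (.col 47 (.col 48 (.col 54 (.sol 8))))))))))))))))
  (.col 28 (.col 31 (.col 32 (.br 24 (.col 48 (.br 51 (.col 14 (.br 52 (.bad 4 36 [10, 0, 7, 6, 1, 8])
  (.bad 0 164 [10, 0, 3, 6, 8, 9])))
  (.bad 0 98 [10, 2, 3, 7, 8, 9])))
  (.bad 0 35 [10, 2, 3, 7, 8, 9])))))))))))))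
  (.col 33 (.br 35 (.col 13 (.col 15 (.br 36 (.col 20 (.br 48 (.bad 4 96 [10, 1, 3, 7, 9, 4])
  (.br 25 (.col 42 (.col 63 (.col 31 (.col 47 (.br 55 (.br 15 (.bad 4 36 [10, 0, 1, 6, 7, 8])
  (.bad 0 35 [10, 2, 3, 7, 8, 9]))
  (.bad 0 164 [10, 0, 3, 6, 8, 9]))))))
  (.bad 0 672 [10, 0, 2, 4, 6, 8]))))
  (.bad 0 41 [10, 1, 2, 7, 8, 9]))))
  (.bad 0 42 [10, 0, 2, 6, 8, 9]))))))))))))
  (.col 62 (.br 14 (.col 22 (.col 33 (.col 40 (.col 29 (.col 30 (.br 5 (.col 7 (.col 15 (.bad 0 42 [10, 0, 2, 6, 8, 9])))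
  (.br 6 (.col 10 (.col 24 (.col 26 (.col 28 (.col 37 (.col 61 (.br 12 (.col 5 (.col 9 (.br 42 (.bad 4 36 [10, 0, 3, 6, 9, 8])
  (.bad 0 100 [10, 1, 3, 7, 8, 9]))))
  (.br 13 (.col 4 (.col 8 (.br 49 (.bad 4 34 [10, 0, 3, 6, 9, 7])
  (.bad 0 546 [10, 0, 2, 6, 7, 8]))))
  (.bad 0 41 [10, 1, 2, 7, 8, 9])))))))))
  (.col 39 (.col 43 (.br 44 (.bad 4 320 [10, 1, 9, 7, 3, 4])
  (.col 61 (.bad 2 1025 [3, 7, 8, 1, 2, 9]))))))))))))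
  (.col 40 (.br 25 (.col 63 (.col 65 (.col 39 (.col 60 (.col 61 (.br 31 (.bad 4 320 [10, 1, 3, 7, 9, 4])
  (.col 30 (.bad 2 1025 [7, 8, 9, 1, 2, 3]))))))))
  (.col 65 (.br 6 (.col 10 (.col 24 (.col 37 (.br 12 (.col 5 (.col 9 (.br 42 (.bad 4 36 [10, 0, 3, 6, 9, 8])
  (.bad 0 100 [10, 1, 3, 7, 8, 9]))))
  (.br 29 (.col 14 (.br 23 (.bad 4 36 [10, 0, 9, 6, 3, 8])
  (.bad 0 548 [10, 0, 1, 6, 7, 8])))
  (.bad 0 44 [10, 0, 1, 6, 7, 9]))))))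
  (.col 41 (.br 17 (.col 32 (.col 61 (.col 30 (.bad 2 1088 [1, 8, 9, 2, 3, 7]))))
  (.col 61 (.br 20 (.bad 2 1056 [1, 3, 8, 2, 7, 9])
  (.col 30 (.br 12 (.col 9 (.br 5 (.col 7 (.col 8 (.col 15 (.br 8 (.col 5 (.col 6 (.col 14 (.col 16 (.col 20 (.col 27 (.col 31 (.col 32 (.col 38 (.col 47 (.col 48 (.sol 11))))))))))))
  (.col 5 (.col 31 (.col 47 (.br 49 (.col 54 (.col 14 (.bad 0 164 [10, 0, 3, 6, 8, 9])))
  (.bad 0 546 [10, 0, 2, 6, 7, 8])))))))))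
  (.col 7 (.br 34 (.col 15 (.bad 0 42 [10, 0, 2, 6, 8, 9]))
  (.bad 0 296 [10, 0, 1, 6, 7, 9])))))
  (.br 29 (.br 5 (.col 7 (.col 15 (.br 8 (.col 5 (.col 14 (.col 16 (.col 20 (.col 27 (.col 31 (.col 38 (.col 47 (.col 54 (.sol 16))))))))))
  (.col 14 (.col 54 (.br 24 (.col 47 (.col 5 (.bad 0 164 [10, 0, 3, 6, 8, 9])))
  (.bad 0 546 [10, 0, 2, 6, 7, 8])))))))
  (.col 15 (.br 21 (.col 7 (.bad 0 42 [10, 0, 2, 6, 8, 9]))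
  (.bad 0 296 [10, 0, 1, 6, 7, 9]))))
  (.bad 0 44 [10, 0, 1, 6, 7, 9])))))))))))))))))))))))))
  (.br 10 (.col 3 (.br 2 (.col 9 (.col 62 (.col 2 (.br 28 (.bad 4 12 [10, 0, 1, 6, 7, 9])
  (.bad 2 12 [10, 0, 1, 5, 6, 7])))))
  (.br 4 (.col 8 (.col 57 (.col 1 (.br 31 (.bad 4 10 [10, 0, 2, 6, 8, 9])
  (.bad 2 10 [10, 0, 2, 5, 6, 8])))))
  (.br 7 (.col 6 (.col 41 (.col 0 (.br 39 (.bad 4 6 [10, 0, 3, 6, 9, 8])
  (.bad 2 6 [10, 0, 3, 5, 6, 9])))))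
  (.br 14 (.col 22 (.col 33 (.col 42 (.br 16 (.bad 4 160 [10, 2, 9, 8, 3, 4])
  (.br 17 (.bad 4 288 [10, 1, 9, 7, 3, 4])
  (.br 22 (.bad 5 1056 [4, 1, 7, 3, 2, 9, 8])
  (.bad 2 1056 [3, 7, 8, 1, 2, 9])))))))
  (.br 16 (.col 21 (.col 49 (.col 58 (.br 17 (.bad 4 544 [10, 1, 8, 7, 2, 4])
  (.br 20 (.bad 5 1056 [4, 1, 7, 2, 3, 8, 9])
  (.bad 2 1056 [2, 7, 9, 1, 3, 8]))))))
  (.br 17 (.col 32 (.col 48 (.col 63 (.br 19 (.bad 5 1056 [4, 1, 7, 2, 9, 8, 3])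
  (.bad 2 1056 [1, 8, 9, 2, 3, 7])))))
  (.br 19 (.br 22 (.bad 4 36 [10, 1, 9, 7, 3, 8])
  (.br 20 (.bad 4 40 [10, 1, 8, 7, 2, 9])
  (.br 25 (.bad 4 160 [10, 2, 3, 8, 9, 4])
  (.bad 2 1056 [2, 3, 7, 1, 8, 9]))))
  (.br 20 (.br 22 (.bad 4 34 [10, 2, 9, 8, 3, 7])
  (.br 25 (.bad 4 288 [10, 1, 3, 7, 9, 4])
  (.bad 2 1056 [1, 3, 8, 2, 7, 9])))
  (.br 22 (.br 25 (.bad 4 544 [10, 1, 2, 7, 8, 4])
  (.bad 2 1056 [1, 2, 9, 3, 7, 8]))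
  (.br 25 (.bad 2 1056 [7, 8, 9, 1, 2, 3])
  (.br 28 (.col 12 (.col 2 (.bad 0 44 [10, 0, 1, 6, 7, 9])))
  (.br 31 (.col 11 (.col 1 (.bad 0 42 [10, 0, 2, 6, 8, 9])))
  (.br 21 (.col 33 (.br 1 (.col 2 (.col 7 (.col 8 (.col 9 (.col 15 (.col 18 (.col 25 (.col 29 (.br 6 (.col 0 (.col 4 (.col 5 (.col 6 (.col 10 (.col 13 (.col 14 (.col 17 (.col 20 (.col 24 (.col 27 (.col 28 (.col 31 (.col 35 (.col 38 (.col 39 (.col 43 (.sol 0))))))))))))))))))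
  (.col 0 (.col 4 (.col 5 (.br 49 (.col 51 (.col 52 (.col 14 (.bad 0 164 [10, 0, 3, 6, 8, 9]))))
  (.bad 0 546 [10, 0, 2, 6, 7, 8]))))))))))))))
  (.col 2 (.col 7 (.br 35 (.col 15 (.bad 0 44 [10, 0, 1, 6, 7, 9]))
  (.bad 0 42 [10, 0, 2, 6, 8, 9]))))))
  (.br 34 (.col 36 (.col 2 (.br 29 (.col 15 (.col 22 (.col 25 (.col 1 (.br 32 (.bad 4 9 [10, 1, 2, 7, 8, 9])
  (.bad 2 136 [2, 8, 9, 10, 0, 5]))))))
  (.bad 0 44 [10, 0, 1, 6, 7, 9]))))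
  (.bad 0 296 [10, 0, 1, 6, 7, 9]))))))))))))))))
  (.br 27 (.col 2 (.col 19 (.br 26 (.bad 4 12 [10, 0, 7, 6, 1, 9])
  (.br 2 (.col 9 (.bad 2 12 [10, 0, 7, 1, 5, 6]))
  (.br 3 (.col 1 (.col 11 (.col 18 (.col 22 (.col 25 (.col 29 (.col 53 (.br 6 (.col 0 (.col 10 (.col 17 (.col 20 (.col 21 (.col 27 (.col 31 (.col 35 (.col 44 (.col 51 (.br 11 (.col 6 (.col 9 (.br 17 (.col 63 (.br 34 (.br 42 (.bad 4 96 [10, 2, 9, 8, 3, 4])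
  (.bad 0 100 [10, 1, 3, 7, 8, 9]))
  (.bad 0 352 [10, 1, 3, 4, 7, 9])))
  (.bad 0 546 [10, 0, 2, 6, 7, 8]))))
  (.br 20 (.col 32 (.br 22 (.bad 4 34 [10, 2, 9, 8, 3, 7])
  (.bad 0 546 [10, 0, 2, 6, 7, 8])))
  (.bad 0 42 [10, 0, 2, 6, 8, 9])))))))))))))
  (.col 17 (.col 39 (.br 46 (.bad 4 384 [10, 0, 3, 6, 9, 4])
  (.br 38 (.bad 4 5 [10, 1, 9, 7, 3, 8])
  (.col 44 (.br 44 (.bad 5 1280 [4, 0, 6, 1, 3, 7, 9])
  (.bad 2 1280 [0, 3, 7, 1, 6, 9])))))))))))))))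
  (.col 18 (.br 33 (.bad 4 136 [10, 0, 2, 6, 8, 9])
  (.br 30 (.bad 4 9 [10, 1, 8, 7, 2, 9])
  (.br 31 (.bad 5 1032 [9, 0, 6, 1, 2, 7, 8])
  (.bad 2 1032 [0, 2, 7, 1, 6, 8]))))))))))
  (.br 3 (.col 1 (.col 18 (.col 57 (.br 24 (.col 4 (.col 26 (.col 44 (.col 46 (.col 48 (.col 51 (.br 31 (.bad 4 258 [10, 0, 9, 6, 3, 7])
  (.col 11 (.br 1 (.col 29 (.col 36 (.col 37 (.col 45 (.col 47 (.col 49 (.col 54 (.col 58 (.col 5 (.br 7 (.col 32 (.col 42 (.bad 0 352 [10, 1, 3, 4, 7, 9])))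
  (.br 11 (.col 8 (.col 9 (.br 14 (.bad 4 40 [10, 1, 2, 7, 8, 9])
  (.bad 0 296 [10, 0, 1, 6, 7, 9]))))
  (.br 20 (.col 32 (.col 33 (.br 54 (.col 27 (.br 19 (.bad 4 40 [10, 1, 8, 7, 2, 9])
  (.bad 0 164 [10, 0, 3, 6, 8, 9])))
  (.bad 0 352 [10, 1, 3, 4, 7, 9]))))
  (.bad 0 42 [10, 0, 2, 6, 8, 9])))))))))))))
  (.col 45 (.col 47 (.col 55 (.br 46 (.bad 4 768 [10, 0, 1, 6, 7, 4])
  (.col 59 (.br 37 (.col 25 (.bad 5 1028 [8, 0, 6, 3, 1, 9, 7]))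
  (.bad 2 1056 [0, 1, 9, 3, 6, 7]))))))))))))))))
  (.col 44 (.br 40 (.col 17 (.col 26 (.col 45 (.col 53 (.col 55 (.col 56 (.col 58 (.col 59 (.br 44 (.bad 4 768 [10, 0, 7, 6, 1, 4])
  (.col 51 (.br 28 (.bad 4 132 [10, 0, 9, 6, 3, 8])
  (.col 25 (.br 31 (.col 11 (.bad 5 1056 [4, 0, 6, 1, 9, 7, 3]))
  (.bad 2 1280 [0, 7, 9, 1, 3, 6]))))))))))))))
  (.col 55 (.br 1 (.col 2 (.col 29 (.col 45 (.col 53 (.col 60 (.col 62 (.br 11 (.col 8 (.col 9 (.col 15 (.br 14 (.bad 4 40 [10, 1, 2, 7, 8, 9])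
  (.bad 0 296 [10, 0, 1, 6, 7, 9])))))
  (.br 7 (.col 6 (.col 23 (.col 26 (.col 34 (.br 53 (.col 31 (.col 32 (.col 35 (.col 51 (.col 52 (.col 11 (.col 12 (.br 55 (.col 21 (.bad 4 33 [10, 1, 8, 7, 2, 6]))
  (.bad 0 100 [10, 1, 3, 7, 8, 9])))))))))
  (.bad 0 35 [10, 2, 3, 7, 8, 9]))))))
  (.br 14 (.col 22 (.col 25 (.col 33 (.col 36 (.col 11 (.bad 0 42 [10, 0, 2, 6, 8, 9]))))))
  (.br 15 (.col 4 (.col 5 (.br 57 (.bad 4 33 [10, 1, 2, 7, 8, 6])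
  (.bad 0 161 [10, 2, 3, 6, 8, 9]))))
  (.br 6 (.col 17 (.col 26 (.col 28 (.col 37 (.col 39 (.br 16 (.col 21 (.col 24 (.col 25 (.col 36 (.col 49 (.col 54 (.br 17 (.col 32 (.bad 0 296 [10, 0, 1, 6, 7, 9]))
  (.bad 0 546 [10, 0, 2, 6, 7, 8]))))))))
  (.br 17 (.col 32 (.col 35 (.col 36 (.bad 0 296 [10, 0, 1, 6, 7, 9]))))
  (.br 19 (.col 9 (.col 14 (.col 54 (.br 22 (.bad 4 36 [10, 1, 9, 7, 3, 8])
  (.bad 0 546 [10, 0, 2, 6, 7, 8])))))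
  (.br 55 (.col 14 (.col 15 (.col 24 (.col 25 (.col 27 (.col 33 (.col 36 (.col 38 (.col 42 (.col 43 (.col 49 (.col 52 (.col 54 (.col 64 (.col 10 (.sol 6))))))))))))))))
  (.bad 0 164 [10, 0, 3, 6, 8, 9]))))))))))
  (.col 26 (.col 37 (.br 53 (.col 31 (.col 32 (.br 34 (.col 15 (.col 22 (.col 27 (.col 38 (.col 54 (.br 22 (.col 49 (.br 52 (.bad 4 33 [10, 1, 8, 7, 2, 6])
  (.bad 0 164 [10, 0, 3, 6, 8, 9])))
  (.bad 0 546 [10, 0, 2, 6, 7, 8])))))))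
  (.bad 0 296 [10, 0, 1, 6, 7, 9]))))
  (.bad 0 35 [10, 2, 3, 7, 8, 9])))))))))))))))
  (.col 53 (.br 26 (.col 3 (.col 11 (.col 12 (.col 15 (.col 25 (.col 30 (.br 2 (.col 9 (.col 33 (.bad 0 41 [10, 1, 2, 7, 8, 9])))
  (.br 6 (.col 10 (.col 13 (.col 14 (.col 17 (.col 23 (.col 46 (.br 12 (.col 7 (.col 9 (.br 16 (.col 58 (.br 14 (.bad 4 160 [10, 2, 9, 8, 3, 4])
  (.bad 0 296 [10, 0, 1, 6, 7, 9])))
  (.bad 0 164 [10, 0, 3, 6, 8, 9]))))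
  (.br 21 (.col 31 (.br 19 (.col 21 (.br 23 (.bad 4 33 [10, 2, 9, 8, 3, 6])
  (.bad 0 548 [10, 0, 1, 6, 7, 8])))
  (.bad 0 44 [10, 0, 1, 6, 7, 9])))
  (.bad 0 41 [10, 1, 2, 7, 8, 9])))))))))
  (.col 10 (.col 13 (.col 35 (.br 46 (.bad 4 320 [10, 1, 3, 7, 9, 4])
  (.col 59 (.bad 2 1056 [1, 3, 6, 0, 7, 9]))))))))))))))
  (.col 11 (.br 39 (.col 10 (.col 51 (.col 52 (.col 59 (.br 28 (.bad 4 68 [10, 1, 9, 7, 3, 8])
  (.col 25 (.bad 2 1280 [1, 6, 9, 0, 3, 7])))))))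
  (.col 51 (.br 6 (.col 41 (.br 11 (.col 6 (.col 8 (.br 17 (.bad 4 34 [10, 2, 3, 8, 9, 7])
  (.bad 0 546 [10, 0, 2, 6, 7, 8]))))
  (.br 20 (.col 32 (.br 22 (.bad 4 34 [10, 2, 9, 8, 3, 7])
  (.bad 0 546 [10, 0, 2, 6, 7, 8])))
  (.bad 0 42 [10, 0, 2, 6, 8, 9]))))
  (.col 26 (.br 28 (.col 24 (.bad 2 1028 [3, 6, 7, 0, 1, 9]))
  (.col 25 (.br 48 (.bad 2 1056 [6, 7, 9, 0, 1, 3])
  (.col 59 (.br 11 (.col 8 (.br 2 (.col 9 (.col 15 (.col 22 (.col 33 (.br 7 (.col 6 (.col 13 (.col 14 (.col 21 (.col 27 (.col 31 (.col 32 (.col 38 (.col 42 (.col 49 (.sol 13)))))))))))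
  (.col 6 (.br 17 (.col 32 (.bad 0 98 [10, 2, 3, 7, 8, 9]))
  (.bad 0 546 [10, 0, 2, 6, 7, 8]))))))))
  (.col 9 (.br 21 (.col 33 (.bad 0 168 [10, 0, 2, 6, 8, 9]))
  (.bad 0 41 [10, 1, 2, 7, 8, 9])))))
  (.br 20 (.br 2 (.col 9 (.col 33 (.br 7 (.col 6 (.col 21 (.col 32 (.col 34 (.col 38 (.col 42 (.col 49 (.col 63 (.sol 18)))))))))
  (.col 32 (.br 22 (.col 6 (.bad 0 98 [10, 2, 3, 7, 8, 9]))
  (.bad 0 546 [10, 0, 2, 6, 7, 8]))))))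
  (.col 33 (.br 12 (.col 9 (.bad 0 168 [10, 0, 2, 6, 8, 9]))
  (.bad 0 41 [10, 1, 2, 7, 8, 9]))))
  (.bad 0 42 [10, 0, 2, 6, 8, 9]))))))))))))))))))))))
  (.br 38 (.col 0 (.col 44 (.col 46 (.br 30 (.bad 4 3 [10, 2, 9, 8, 3, 7])
  (.br 44 (.bad 4 514 [10, 0, 2, 6, 8, 7])
  (.br 26 (.bad 4 6 [10, 0, 9, 6, 3, 8])
  (.br 31 (.bad 5 1026 [7, 0, 6, 3, 2, 9, 8])
  (.bad 2 1026 [0, 2, 9, 3, 6, 8]))))))))
  (.br 40 (.col 17 (.col 45 (.col 56 (.br 28 (.bad 4 132 [10, 0, 9, 6, 3, 8])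
  (.br 39 (.bad 4 516 [10, 0, 7, 6, 1, 8])
  (.br 26 (.bad 5 1028 [8, 0, 6, 1, 9, 7, 3])
  (.bad 2 1028 [0, 7, 9, 1, 3, 6])))))))
  (.br 1 (.col 2 (.col 45 (.col 53 (.col 62 (.br 18 (.col 47 (.col 60 (.col 61 (.col 63 (.col 64 (.br 41 (.bad 4 640 [10, 0, 8, 6, 2, 4])
  (.col 52 (.br 4 (.col 48 (.col 58 (.bad 0 548 [10, 0, 1, 6, 7, 8])))
  (.br 6 (.col 10 (.col 12 (.col 17 (.col 24 (.col 26 (.col 28 (.col 30 (.col 32 (.col 1 (.br 11 (.col 6 (.col 9 (.br 16 (.bad 4 36 [10, 1, 3, 7, 9, 8])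
  (.bad 0 164 [10, 0, 3, 6, 8, 9]))))
  (.br 35 (.col 13 (.br 22 (.col 49 (.br 19 (.bad 4 36 [10, 1, 9, 7, 3, 8])
  (.bad 0 164 [10, 0, 3, 6, 8, 9])))
  (.bad 0 546 [10, 0, 2, 6, 7, 8])))
  (.bad 0 42 [10, 0, 2, 6, 8, 9]))))))))))))
  (.col 28 (.col 29 (.col 31 (.br 31 (.bad 4 258 [10, 0, 9, 6, 3, 7])
  (.col 36 (.br 28 (.col 12 (.bad 5 1056 [4, 0, 6, 2, 9, 8, 3]))
  (.bad 2 1152 [0, 8, 9, 2, 3, 6]))))))))))))))))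
  (.col 60 (.br 21 (.col 29 (.col 30 (.col 31 (.col 33 (.col 36 (.col 37 (.br 46 (.bad 4 384 [10, 0, 3, 6, 9, 4])
  (.col 64 (.br 28 (.bad 4 136 [10, 0, 8, 6, 2, 9])
  (.col 12 (.br 42 (.bad 5 1056 [4, 0, 6, 2, 3, 8, 9])
  (.bad 2 1056 [0, 3, 8, 2, 6, 9]))))))))))))
  (.col 29 (.br 26 (.col 3 (.col 11 (.col 12 (.col 15 (.col 19 (.col 25 (.br 4 (.col 8 (.col 22 (.bad 0 296 [10, 0, 1, 6, 7, 9])))
  (.br 6 (.col 0 (.col 10 (.col 13 (.col 14 (.col 21 (.col 27 (.col 28 (.col 38 (.col 46 (.br 13 (.col 4 (.col 7 (.br 17 (.col 63 (.br 50 (.bad 4 33 [10, 1, 3, 7, 9, 6])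
  (.bad 0 672 [10, 0, 2, 4, 6, 8])))
  (.bad 0 546 [10, 0, 2, 6, 7, 8]))))
  (.br 24 (.col 48 (.br 20 (.col 33 (.br 25 (.bad 4 288 [10, 1, 3, 7, 9, 4])
  (.bad 0 800 [10, 0, 1, 4, 6, 7])))
  (.bad 0 290 [10, 0, 3, 6, 7, 9])))
  (.bad 0 35 [10, 2, 3, 7, 8, 9]))))))))))))
  (.col 24 (.br 46 (.bad 4 192 [10, 2, 3, 8, 9, 4])
  (.bad 2 1152 [2, 3, 6, 0, 8, 9])))))))))))
  (.col 12 (.br 39 (.col 10 (.col 51 (.br 31 (.bad 4 66 [10, 2, 9, 8, 3, 7])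
  (.bad 2 1026 [2, 6, 9, 0, 3, 8]))))
  (.col 52 (.br 6 (.col 0 (.col 10 (.col 17 (.col 24 (.col 41 (.br 11 (.col 6 (.col 9 (.br 16 (.bad 4 36 [10, 1, 3, 7, 9, 8])
  (.bad 0 164 [10, 0, 3, 6, 8, 9]))))
  (.br 22 (.col 49 (.br 19 (.bad 4 36 [10, 1, 9, 7, 3, 8])
  (.bad 0 164 [10, 0, 3, 6, 8, 9])))
  (.bad 0 38 [10, 0, 3, 6, 8, 9]))))))))
  (.col 37 (.br 31 (.col 35 (.bad 2 1026 [3, 6, 8, 0, 2, 9]))
  (.col 36 (.br 46 (.bad 2 1152 [6, 8, 9, 0, 2, 3])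
  (.col 64 (.br 11 (.col 9 (.br 4 (.col 8 (.col 15 (.col 22 (.br 7 (.col 6 (.col 13 (.col 14 (.col 20 (.col 21 (.col 27 (.col 32 (.col 42 (.col 48 (.sol 12))))))))))
  (.col 6 (.col 13 (.br 54 (.col 27 (.bad 0 100 [10, 1, 3, 7, 8, 9]))
  (.bad 0 352 [10, 1, 3, 4, 7, 9]))))))))
  (.col 8 (.br 14 (.col 22 (.bad 0 41 [10, 1, 2, 7, 8, 9]))
  (.bad 0 296 [10, 0, 1, 6, 7, 9])))))
  (.br 19 (.br 4 (.col 8 (.col 22 (.br 7 (.col 6 (.col 21 (.col 23 (.col 27 (.col 32 (.col 42 (.col 48 (.col 58 (.sol 17)))))))))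
  (.col 21 (.col 23 (.col 27 (.br 56 (.col 13 (.bad 0 100 [10, 1, 3, 7, 8, 9]))
  (.bad 0 352 [10, 1, 3, 4, 7, 9]))))))))
  (.col 22 (.br 20 (.col 8 (.bad 0 41 [10, 1, 2, 7, 8, 9]))
  (.bad 0 296 [10, 0, 1, 6, 7, 9]))))
  (.bad 0 44 [10, 0, 1, 6, 7, 9])))))))))))))))))))))
  (.br 26 (.col 11 (.col 12 (.br 33 (.bad 4 72 [10, 1, 2, 7, 8, 9])
  (.br 30 (.bad 4 10 [10, 0, 8, 6, 2, 9])
  (.br 32 (.bad 5 1032 [9, 0, 6, 1, 8, 7, 2])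
  (.bad 2 1032 [1, 2, 6, 0, 7, 8]))))))
  (.br 28 (.col 25 (.br 32 (.bad 4 136 [10, 0, 8, 6, 2, 9])
  (.br 31 (.bad 4 72 [10, 1, 8, 7, 2, 9])
  (.br 30 (.bad 5 1032 [9, 0, 6, 2, 1, 8, 7])
  (.bad 2 1032 [2, 6, 7, 0, 1, 8])))))
  (.br 30 (.col 29 (.col 30 (.br 33 (.bad 4 264 [10, 0, 1, 6, 7, 9])
  (.bad 2 1032 [0, 1, 8, 2, 6, 7]))))
  (.br 31 (.col 36 (.br 32 (.bad 4 264 [10, 0, 7, 6, 1, 9])
  (.bad 2 1032 [1, 6, 8, 0, 2, 7])))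
  (.br 32 (.col 40 (.bad 2 1032 [0, 7, 8, 1, 2, 6]))
  (.br 33 (.bad 2 1032 [6, 7, 8, 0, 1, 2])
  (.br 39 (.col 10 (.col 51 (.col 52 (.br 46 (.bad 4 576 [10, 1, 2, 7, 8, 4])
  (.br 43 (.bad 4 514 [10, 0, 8, 6, 2, 7])
  (.br 45 (.bad 2 1280 [0, 7, 9, 1, 3, 6])
  (.bad 2 1536 [1, 2, 6, 0, 7, 8])))))))
  (.br 41 (.col 24 (.bad 2 1028 [6, 7, 9, 0, 1, 3]))
  (.br 43 (.col 28 (.col 60 (.bad 2 1025 [1, 8, 9, 2, 3, 7])))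
  (.br 44 (.col 64 (.br 45 (.bad 4 768 [10, 0, 7, 6, 1, 4])
  (.bad 2 1536 [1, 6, 8, 0, 2, 7])))
  (.br 45 (.col 39 (.col 65 (.bad 2 1280 [0, 7, 9, 1, 3, 6])))
  (.br 46 (.bad 2 1536 [6, 7, 8, 0, 1, 2])
  (.br 6 (.col 0 (.col 10 (.col 17 (.col 24 (.col 26 (.col 28 (.col 35 (.col 37 (.col 39 (.col 41 (.col 43 (.br 11 (.col 6 (.br 2 (.col 9 (.col 14 (.col 21 (.col 49 (.br 4 (.col 8 (.col 13 (.col 15 (.col 22 (.col 27 (.col 32 (.col 33 (.col 38 (.col 42 (.col 47 (.sol 14)))))))))))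
  (.col 8 (.col 15 (.br 47 (.col 54 (.bad 0 98 [10, 2, 3, 7, 8, 9]))
  (.bad 0 352 [10, 1, 3, 4, 7, 9])))))))))
  (.col 9 (.br 16 (.col 49 (.bad 0 100 [10, 1, 3, 7, 8, 9]))
  (.bad 0 164 [10, 0, 3, 6, 8, 9])))))
  (.br 22 (.br 2 (.col 9 (.col 49 (.br 4 (.col 8 (.col 22 (.col 33 (.col 48 (.col 50 (.col 54 (.col 58 (.col 63 (.sol 19)))))))))
  (.col 48 (.col 50 (.col 54 (.br 34 (.col 15 (.bad 0 98 [10, 2, 3, 7, 8, 9]))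
  (.bad 0 352 [10, 1, 3, 4, 7, 9]))))))))
  (.col 49 (.br 19 (.col 9 (.bad 0 100 [10, 1, 3, 7, 8, 9]))
  (.bad 0 164 [10, 0, 3, 6, 8, 9]))))
  (.bad 0 38 [10, 0, 3, 6, 8, 9]))))))))))))))
  (.br 2 (.br 11 (.col 9 (.br 4 (.col 8 (.col 15 (.col 22 (.col 33 (.br 7 (.col 6 (.col 13 (.col 14 (.col 20 (.col 21 (.col 27 (.col 31 (.col 32 (.col 38 (.col 42 (.col 47 (.sol 5))))))))))))
  (.col 6 (.col 13 (.col 20 (.col 27 (.col 42 (.bad 2 384 [0, 4, 6, 10, 5, 9])))))))))))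
  (.col 8 (.col 15 (.col 22 (.col 33 (.bad 2 9 [1, 7, 9, 10, 5, 8])))))))
  (.col 9 (.br 13 (.col 7 (.col 8 (.col 33 (.br 37 (.bad 4 40 [10, 0, 1, 6, 7, 9])
  (.bad 0 168 [10, 0, 2, 6, 8, 9])))))
  (.br 4 (.col 8 (.col 22 (.col 33 (.col 50 (.br 15 (.col 5 (.col 6 (.col 49 (.br 55 (.bad 4 36 [10, 0, 1, 6, 7, 8])
  (.bad 0 164 [10, 0, 3, 6, 8, 9])))))
  (.br 7 (.col 6 (.col 21 (.col 23 (.col 27 (.col 32 (.col 34 (.col 38 (.col 42 (.col 48 (.col 49 (.col 58 (.col 63 (.sol 15)))))))))))))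
  (.col 23 (.br 24 (.col 48 (.col 6 (.col 13 (.bad 2 66 [2, 7, 8, 10, 3, 5]))))
  (.bad 2 3 [3, 7, 9, 10, 2, 5])))))))))
  (.col 50 (.br 36 (.col 22 (.col 33 (.br 35 (.bad 4 40 [10, 0, 7, 6, 1, 9])
  (.bad 0 42 [10, 0, 2, 6, 8, 9]))))
  (.bad 2 9 [1, 7, 9, 10, 2, 5])))))))
  (.br 11 (.col 9 (.bad 2 12 [0, 6, 9, 10, 5, 7]))
  (.br 12 (.col 9 (.bad 2 12 [1, 7, 9, 10, 5, 6]))
  (.br 29 (.col 9 (.bad 2 12 [1, 7, 9, 10, 0, 5]))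
  (.bad 2 12 [0, 6, 9, 10, 1, 5]))))))))))))))))))))))))

def B_de11_1111 : Dat where
  r := 5
  V := [[.i, .o, .o, .o, .o],
    [.o, .i, .o, .o, .o],
    [.o, .o, .i, .o, .o],
    [.o, .o, .o, .i, .o],
    [.o, .o, .o, .o, .i],
    [.i, .i, .i, .i, .i],
    [.i, .o, .o, .o, .w],
    [.o, .i, .o, .o, .w],
    [.o, .o, .i, .o, .w],
    [.o, .o, .o, .i, .w]]
  P := [[.i, .o, .o, .o, .o],
    [.o, .i, .o, .o, .o],
    [.o, .o, .i, .o, .o],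
    [.o, .o, .o, .i, .o],
    [.o, .o, .o, .o, .i],
    [.i, .i, .i, .i, .i],
    [.i, .o, .o, .o, .w],
    [.o, .i, .o, .o, .w],
    [.o, .o, .i, .o, .w],
    [.o, .o, .o, .i, .w],
    [.o, .o, .o, .o, .o],
    [.o, .i, .i, .i, .i],
    [.i, .o, .i, .i, .i],
    [.i, .i, .o, .i, .i],
    [.i, .i, .i, .o, .i],
    [.i, .i, .i, .i, .v],
    [.o, .i, .i, .i, .v],
    [.i, .o, .i, .i, .v],
    [.i, .i, .o, .i, .v],
    [.i, .i, .i, .o, .v]]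
  F := [[.i, .o, .o, .o, .o],
    [.o, .i, .o, .o, .o],
    [.i, .i, .o, .o, .o],
    [.o, .o, .i, .o, .o],
    [.i, .o, .i, .o, .o],
    [.o, .i, .i, .o, .o],
    [.o, .o, .o, .i, .o],
    [.i, .o, .o, .i, .o],
    [.o, .i, .o, .i, .o],
    [.o, .o, .i, .i, .o],
    [.o, .o, .o, .o, .i],
    [.i, .o, .o, .o, .i],
    [.o, .i, .o, .o, .i],
    [.o, .o, .i, .o, .i],
    [.i, .w, .w, .o, .i],
    [.o, .o, .o, .i, .i],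
    [.i, .w, .o, .w, .i],
    [.i, .o, .w, .w, .i],
    [.o, .i, .w, .w, .i],
    [.i, .v, .o, .o, .w],
    [.i, .o, .v, .o, .w],
    [.o, .i, .v, .o, .w],
    [.i, .o, .o, .v, .w],
    [.o, .i, .o, .v, .w],
    [.o, .o, .i, .v, .w],
    [.i, .v, .v, .v, .w],
    [.i, .o, .o, .o, .v],
    [.o, .i, .o, .o, .v],
    [.i, .i, .o, .o, .v],
    [.i, .w, .o, .o, .v],
    [.o, .o, .i, .o, .v],
    [.i, .o, .i, .o, .v],
    [.o, .i, .i, .o, .v],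
    [.i, .i, .i, .o, .v],
    [.i, .v, .i, .o, .v],
    [.i, .o, .w, .o, .v],
    [.o, .i, .w, .o, .v],
    [.i, .i, .v, .o, .v],
    [.o, .o, .o, .i, .v],
    [.i, .o, .o, .i, .v],
    [.o, .i, .o, .i, .v],
    [.i, .i, .o, .i, .v],
    [.i, .v, .o, .i, .v],
    [.o, .o, .i, .i, .v],
    [.i, .o, .i, .i, .v],
    [.o, .i, .i, .i, .v],
    [.i, .i, .i, .i, .v],
    [.i, .w, .i, .i, .v],
    [.i, .i, .w, .i, .v],
    [.i, .o, .v, .i, .v],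
    [.o, .i, .v, .i, .v],
    [.i, .o, .o, .w, .v],
    [.o, .i, .o, .w, .v],
    [.o, .o, .i, .w, .v],
    [.i, .i, .i, .w, .v],
    [.i, .i, .o, .v, .v],
    [.i, .o, .i, .v, .v],
    [.o, .i, .i, .v, .v]]
  ht := 0x1a1016200e401e0012300a5006602a1026202e0036003c0038103420303026402c402850246020700e800a9006a016801c80189014a010b006c00cc008d004e03a00223022502260129012a00ac0321032202a4002701a8002b002d002e000f00f3017501b601d7027902ba02db033c035d039e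
  ct := 0x2e00000000000000000000000000000000000000000000000000000019000000000000000000000000000000000000000000000000000016800000000000000000000000000000000000000000000000000000002f000000000000000000000000000100000000000001000000100b0080000000000000000000000000000200000000000002000000200449000000000000007f000007f0000080000007f000008000000805600000000000000000000000000000000000000000000000000000000000300000000000000000000000000003000000000000030000029000c180000000000000000000000000000400000000000004000001000119000000000000007f000000001fc180000000001fc18000014000600000000000000000000000000000000500000000000005000002a00c42800000000000007f0000001000ff800000001000ff80009c08006000000000000000007f00000020010280000000200102800058b803000000000007f01fff8000000800600000000008006000004c0000000000000000000000000000000000000000000000000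00000000000000000360000000000000000000000000006000000000000210000006001830000000000000000000000000000070000000000000e0000007001dc8000000000000000000007f01fc3000000000000100001fc3000c00000000000000000000000000000000800000000000022000000800e040000000000000001000007f001bf800000001007c080001bf800c0000000000000000002000007f001c40000000020050a80001c4006a00000000007f000008001fff800c0000000000803c000000c0000000000000000000000000000000000000009000000000000250000037002448000000000000003000000601fff80000001c000c1800018300fe0000000000000000004000000701fc48000000130011200001da001200000000000001fc18001fc300fe000000000d8006000000c0000000000000000000000000500000080027f80000001d008c28000cc40012000000000001000ff80001bf80fe00000006808006000000c00000000000000000020010280001c4001200000002c6001a000001e000000000000000008006000000c0000000000001400000000000000000000000000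
  cl := [(15, 3, 0x4000008440),
    (15, 2, 0x40002408),
    (15, 1, 0x8001402),
    (15, 0, 0x4000c01),
    (39, 2, 0x2000000100a200),
    (39, 1, 0x10000000809100),
    (39, 0, 0x8000000408880),
    (43, 1, 0x1000203020),
    (43, 0, 0x800102810),
    (45, 0, 0x20081804),
    (71, 0, 0x8008004000040),
    (75, 0, 0x884000008),
    (77, 0, 0x34000002),
    (99, 0, 0x10a000800000200),
    (101, 0, 0x88040020000100),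
    (105, 0, 0x2c20000020),
    (114, 1, 0x320),
    (135, 1, 0x10010008000040),
    (139, 1, 0x1108000008),
    (141, 0, 0x18080001),
    (163, 1, 0x214001000000200),
    (165, 0, 0x90000000090080),
    (169, 0, 0x3000084010),
    (177, 0, 0x290),
    (197, 0, 0x80020010000040),
    (201, 0, 0x2210000008),
    (212, 2, 0x248),
    (225, 0, 0xc1002000000200),
    (263, 2, 0x20080040000040),
    (267, 1, 0x140200002),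
    (267, 0, 0xc0100001),
    (291, 1, 0x220000000240100),
    (291, 0, 0x120000000120080),
    (297, 0, 0x400304004),
    (305, 0, 0x184),
    (323, 0, 0x100100080000040),
    (329, 0, 0x680000002),
    (338, 1, 0x142),
    (353, 0, 0x140800400000100),
    (387, 1, 0x200200100000040),
    (393, 0, 0x300004001),
    (401, 0, 0xc1),
    (417, 0, 0x240000002004080),
    (449, 0, 0x40400200000040),
    (519, 2, 0x84001000008),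
    (519, 1, 0x14000800002),
    (519, 0, 0xc000400001),
    (547, 1, 0x4000001840020),
    (547, 0, 0x2000001420010),
    (549, 0, 0x40000c10004),
    (561, 0, 0x34),
    (579, 0, 0x2108000000008),
    (581, 0, 0x68000000002),
    (594, 1, 0x2a),
    (609, 0, 0x3840000000020),
    (643, 1, 0x4210000000008),
    (645, 0, 0x30000010001),
    (657, 0, 0x19),
    (673, 0, 0x5000002010010),
    (705, 0, 0x1420000000008),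
    (771, 1, 0x280000040002),
    (771, 0, 0x180000020001),
    (785, 0, 0x7),
    (801, 0, 0x800002060004),
    (833, 0, 0xd00000000002),
    (897, 0, 0x600002000001)]
  sl := [0x234295149a4b76a, 0x12a18c8c552aed9, 0x9807c03cc99dc7, 0x3ffc387c3f, 0x3ff, 0x3ff843c23fffbb4, 0x1cbd6aeb400036a, 0x2d563331a0942d9, 0x360f807c23641c7, 0x7ffc003c7003f, 0x3ffffffffffffff, 0x234001001a4b321, 0x12a00080152aa92, 0x98040020c9998c, 0x3c20387874, 0x3b4, 0x1cb842c20000321, 0x2d5003002094292, 0x36080040236418c, 0x7840003c70074]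
  t := B_de11_1111_t

theorem B_de11_1111_okD : B_de11_1111.ckD = true := by decide +kernel

theorem B_de11_1111_okT : B_de11_1111.ckT TTab B_de11_1111.t 0 0 = true := by decide +kernel

theorem lext_de11_1111 : LExt 5 10 (vecL 5 B_de11_1111.V) (vecP 5 B_de11_1111.P) :=
  lext_of_chk' B_de11_1111 B_de11_1111_okD B_de11_1111_okT (by decide)

end QG
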