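import Pool.Agent.Lib.QG.BC8

/-! MP_2e6874_co, part (B): data for de11_211. -/

set_option autoImplicit false
set_option maxRecDepth 100000

namespace QG

def B_de11_211_t : Tr :=
  .br 0 (.br 26 (.col 17 (.br 1 (.col 16 (.col 20 (.col 23 (.br 3 (.col 15 (.col 18 (.col 19 (.col 22 (.col 24 (.col 37 (.col 39 (.col 41 (.br 6 (.col 0 (.col 1 (.col 2 (.col 3 (.col 6 (.col 7 (.col 8 (.col 9 (.col 10 (.col 12 (.col 13 (.col 14 (.col 32 (.col 35 (.col 36 (.sol 10))))))))))))))))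
  (.col 0 (.col 1 (.col 2 (.col 3 (.col 6 (.col 7 (.col 8 (.col 9 (.col 10 (.col 12 (.col 13 (.col 14 (.col 32 (.col 35 (.col 36 (.sol 7)))))))))))))))))))))))))
  (.col 15 (.col 18 (.col 19 (.col 22 (.col 24 (.col 37 (.col 39 (.col 41 (.br 6 (.col 0 (.col 1 (.col 2 (.col 3 (.col 6 (.col 7 (.col 8 (.col 9 (.col 10 (.col 12 (.col 13 (.col 14 (.col 32 (.col 35 (.col 36 (.sol 2))))))))))))))))
  (.col 0 (.col 2 (.col 3 (.col 7 (.br 9 (.bad 4 3 [10, 2, 7, 4, 6, 8])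
  (.br 17 (.bad 4 272 [10, 0, 5, 2, 7, 3])
  (.br 13 (.col 52 (.bad 4 3 [10, 2, 7, 9, 6, 8]))
  (.bad 0 49 [10, 1, 2, 7, 8, 9])))))))))))))))))))))
  (.col 16 (.col 20 (.col 23 (.br 5 (.col 18 (.col 19 (.col 22 (.col 24 (.br 42 (.col 63 (.bad 4 192 [10, 1, 2, 8, 9, 5]))
  (.bad 0 656 [10, 0, 1, 5, 6, 8]))))))
  (.br 6 (.col 0 (.col 2 (.col 3 (.col 7 (.col 8 (.col 10 (.col 13 (.br 10 (.col 32 (.col 48 (.col 6 (.bad 0 49 [10, 1, 2, 7, 8, 9]))))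
  (.col 60 (.col 61 (.col 62 (.col 63 (.br 13 (.col 14 (.col 28 (.col 6 (.col 9 (.br 37 (.bad 4 272 [10, 0, 3, 6, 7, 5])
  (.bad 0 400 [10, 0, 2, 5, 6, 9]))))))
  (.col 44 (.br 34 (.bad 4 528 [10, 0, 3, 6, 7, 5])
  (.br 44 (.col 19 (.col 22 (.col 24 (.col 30 (.col 32 (.col 37 (.col 45 (.col 47 (.col 54 (.col 1 (.sol 1)))))))))))
  (.bad 0 656 [10, 0, 1, 5, 6, 8])))))))))))))))))
  (.col 0 (.col 3 (.col 8 (.br 8 (.bad 4 5 [10, 1, 7, 4, 6, 9])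
  (.br 14 (.bad 4 5 [10, 1, 7, 8, 6, 9])
  (.col 31 (.br 20 (.bad 4 12 [10, 4, 6, 8, 7, 0])
  (.br 24 (.bad 4 260 [10, 4, 6, 9, 5, 0])
  (.bad 0 84 [10, 1, 5, 7, 8, 9]))))))))))))))))
  (.col 17 (.br 22 (.col 3 (.col 5 (.col 8 (.bad 4 6 [10, 4, 6, 9, 5, 0]))))
  (.br 29 (.col 10 (.col 20 (.br 18 (.bad 4 20 [10, 0, 9, 6, 7, 5])
  (.br 7 (.bad 5 20 [5, 10, 1, 0, 7, 6, 9])
  (.br 11 (.bad 5 20 [5, 10, 8, 0, 7, 6, 9])
  (.bad 0 1044 [0, 1, 5, 6, 8, 9]))))))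
  (.br 35 (.col 9 (.col 19 (.br 18 (.bad 4 18 [10, 0, 8, 6, 7, 5])
  (.br 7 (.bad 5 18 [5, 10, 2, 0, 7, 6, 8])
  (.br 12 (.bad 5 18 [5, 10, 9, 0, 7, 6, 8])
  (.bad 0 1042 [0, 2, 5, 7, 8, 9]))))))
  (.br 27 (.col 16 (.col 38 (.col 56 (.br 3 (.col 15 (.col 22 (.col 25 (.col 37 (.col 39 (.col 41 (.col 53 (.col 54 (.col 55 (.br 6 (.col 0 (.col 5 (.col 6 (.col 9 (.col 14 (.col 35 (.br 20 (.bad 4 528 [10, 1, 5, 3, 6, 0])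
  (.bad 0 592 [10, 1, 3, 5, 7, 8]))))))))
  (.col 5 (.col 6 (.col 12 (.br 8 (.col 2 (.col 14 (.bad 4 17 [10, 2, 6, 8, 7, 3])))
  (.br 18 (.col 26 (.col 28 (.col 29 (.col 30 (.col 32 (.col 33 (.col 35 (.col 36 (.col 44 (.col 45 (.col 46 (.sol 8))))))))))))
  (.bad 2 20 [0, 5, 6, 10, 1, 7]))))))))))))))))
  (.col 37 (.col 39 (.br 30 (.bad 4 129 [10, 1, 9, 8, 2, 6])
  (.col 54 (.br 41 (.col 18 (.br 34 (.bad 4 1152 [0, 1, 4, 5, 6, 9])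
  (.bad 0 656 [10, 0, 1, 5, 6, 8])))
  (.bad 0 146 [10, 0, 2, 6, 8, 9]))))))))))
  (.col 38 (.br 24 (.col 29 (.col 31 (.col 33 (.bad 4 260 [10, 4, 6, 9, 5, 0]))))
  (.br 37 (.col 24 (.col 35 (.col 39 (.br 41 (.bad 4 144 [10, 0, 1, 6, 8, 5])
  (.br 44 (.col 55 (.br 40 (.br 18 (.bad 4 272 [10, 0, 3, 6, 7, 5])
  (.col 2 (.col 45 (.br 9 (.col 14 (.br 20 (.bad 4 20 [10, 0, 7, 6, 9, 5])
  (.bad 0 592 [10, 1, 3, 5, 7, 8])))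
  (.bad 0 82 [10, 2, 5, 7, 8, 9])))))
  (.bad 0 148 [10, 0, 1, 6, 8, 9])))
  (.bad 0 146 [10, 0, 2, 6, 8, 9]))))))
  (.br 3 (.col 15 (.col 22 (.col 37 (.col 40 (.col 41 (.col 54 (.col 63 (.br 1 (.col 16 (.col 25 (.col 53 (.col 56 (.col 57 (.br 23 (.col 35 (.col 51 (.col 52 (.col 12 (.bad 0 82 [10, 2, 5, 7, 8, 9])))))
  (.br 25 (.col 9 (.col 12 (.col 13 (.col 14 (.bad 0 336 [10, 2, 3, 5, 7, 9])))))
  (.br 6 (.col 0 (.col 5 (.col 6 (.col 7 (.col 8 (.col 9 (.col 10 (.col 12 (.col 13 (.col 14 (.col 32 (.col 36 (.sol 5)))))))))))))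
  (.col 5 (.col 6 (.col 7 (.col 12 (.col 13 (.col 14 (.col 32 (.col 36 (.br 20 (.col 11 (.col 30 (.col 34 (.sol 3))))
  (.bad 0 592 [10, 1, 3, 5, 7, 8]))))))))))))))))))
  (.col 25 (.col 56 (.br 40 (.col 18 (.br 34 (.bad 4 144 [10, 0, 2, 6, 9, 5])
  (.bad 0 656 [10, 0, 1, 5, 6, 8])))
  (.bad 0 148 [10, 0, 1, 6, 8, 9]))))))))))))
  (.col 40 (.br 6 (.col 0 (.col 5 (.col 6 (.col 8 (.col 12 (.br 31 (.bad 4 66 [10, 2, 5, 9, 7, 8])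
  (.col 54 (.br 41 (.br 21 (.bad 4 18 [10, 0, 7, 6, 8, 5])
  (.br 25 (.bad 4 18 [10, 2, 5, 9, 6, 0])
  (.bad 0 82 [10, 2, 5, 7, 8, 9])))
  (.bad 0 146 [10, 0, 2, 6, 8, 9])))))))))
  (.col 5 (.br 11 (.col 7 (.col 29 (.br 40 (.br 20 (.bad 4 20 [10, 0, 7, 6, 9, 5])
  (.bad 0 84 [10, 1, 5, 7, 8, 9]))
  (.bad 0 148 [10, 0, 1, 6, 8, 9]))))
  (.col 31 (.br 18 (.col 30 (.col 59 (.br 1 (.col 13 (.col 16 (.col 25 (.col 50 (.col 56 (.br 34 (.col 51 (.col 52 (.col 55 (.col 57 (.col 58 (.col 60 (.col 9 (.col 14 (.col 18 (.col 42 (.col 45 (.sol 9))))))))))))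
  (.bad 0 208 [10, 1, 2, 5, 8, 9])))))))
  (.col 50 (.col 56 (.br 40 (.col 2 (.br 5 (.col 14 (.col 18 (.col 19 (.col 24 (.col 32 (.col 35 (.col 36 (.col 37 (.col 39 (.col 45 (.col 47 (.col 49 (.col 53 (.col 62 (.sol 11)))))))))))))))
  (.bad 2 80 [1, 3, 8, 10, 2, 7])))
  (.bad 0 148 [10, 0, 1, 6, 8, 9])))))))
  (.col 59 (.br 21 (.bad 4 10 [10, 4, 6, 9, 7, 0])
  (.br 17 (.col 28 (.col 32 (.br 42 (.bad 4 272 [10, 0, 5, 9, 7, 3])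
  (.bad 0 400 [10, 0, 2, 5, 6, 9]))))
  (.bad 2 272 [3, 5, 7, 10, 2, 6]))))))))))))))))))))
  (.br 26 (.col 17 (.br 2 (.col 20 (.col 23 (.br 27 (.bad 4 132 [10, 0, 8, 6, 1, 9])
  (.bad 2 132 [10, 1, 6, 0, 4, 8]))))
  (.br 4 (.col 19 (.col 22 (.br 30 (.bad 4 130 [10, 0, 9, 6, 2, 8])
  (.bad 2 130 [10, 2, 6, 0, 4, 9]))))
  (.br 7 (.col 3 (.col 6 (.col 7 (.br 20 (.bad 4 20 [10, 1, 5, 9, 6, 0])
  (.br 44 (.bad 4 18 [10, 2, 5, 9, 7, 8])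
  (.br 10 (.bad 4 48 [10, 1, 2, 8, 9, 7])
  (.br 41 (.bad 4 18 [10, 0, 7, 2, 5, 8])
  (.br 35 (.col 22 (.col 54 (.br 24 (.bad 4 20 [10, 1, 5, 8, 6, 0])
  (.br 29 (.col 23 (.col 24 (.col 39 (.col 51 (.col 53 (.bad 0 1552 [0, 1, 3, 5, 7, 8]))))))
  (.bad 0 84 [10, 1, 5, 7, 8, 9])))))
  (.bad 0 146 [10, 0, 2, 6, 8, 9])))))))))
  (.br 18 (.col 0 (.col 8 (.bad 4 6 [10, 0, 9, 6, 7, 5])))
  (.br 10 (.col 32 (.col 48 (.col 60 (.br 36 (.bad 4 272 [10, 0, 7, 9, 5, 3])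
  (.br 44 (.bad 4 528 [10, 1, 7, 8, 5, 3])
  (.br 24 (.bad 4 272 [10, 2, 6, 9, 5, 0])
  (.br 45 (.bad 4 528 [10, 0, 7, 8, 5, 3])
  (.br 34 (.br 21 (.bad 4 272 [10, 3, 6, 9, 5, 0])
  (.br 37 (.col 24 (.col 9 (.col 18 (.bad 0 1042 [0, 2, 5, 7, 8, 9]))))
  (.bad 0 336 [10, 2, 3, 5, 7, 9])))
  (.bad 0 656 [10, 0, 1, 5, 6, 8])))))))))
  (.br 11 (.col 7 (.col 29 (.col 31 (.col 32 (.br 20 (.bad 4 20 [10, 5, 8, 6, 9, 0])
  (.br 19 (.bad 4 260 [10, 4, 5, 9, 6, 0])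
  (.col 8 (.br 29 (.col 23 (.col 38 (.br 42 (.bad 4 272 [10, 2, 5, 9, 7, 3])
  (.br 36 (.bad 4 272 [10, 0, 7, 2, 5, 3])
  (.br 37 (.col 24 (.col 25 (.col 34 (.col 37 (.col 53 (.col 55 (.col 9 (.col 15 (.br 12 (.bad 4 48 [10, 1, 9, 8, 2, 7])
  (.bad 0 1042 [0, 2, 5, 7, 8, 9]))))))))))
  (.bad 0 400 [10, 0, 2, 5, 6, 9]))))))
  (.bad 0 84 [10, 1, 5, 7, 8, 9])))))))))
  (.br 12 (.col 6 (.col 45 (.col 47 (.col 48 (.br 20 (.bad 4 528 [10, 1, 5, 3, 6, 0])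
  (.br 19 (.bad 4 514 [10, 4, 5, 8, 6, 0])
  (.col 8 (.br 42 (.bad 4 528 [10, 1, 5, 8, 7, 3])
  (.br 41 (.bad 4 18 [10, 0, 7, 9, 5, 8])
  (.br 35 (.col 9 (.br 45 (.bad 4 528 [10, 0, 7, 1, 5, 3])
  (.br 34 (.col 24 (.col 35 (.col 10 (.bad 0 1044 [0, 1, 5, 6, 8, 9]))))
  (.bad 0 656 [10, 0, 1, 5, 6, 8]))))
  (.bad 0 146 [10, 0, 2, 6, 8, 9])))))))))))
  (.br 27 (.col 16 (.col 23 (.col 38 (.bad 0 148 [10, 0, 1, 6, 8, 9]))))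
  (.br 30 (.col 15 (.col 22 (.col 54 (.bad 0 146 [10, 0, 2, 6, 8, 9]))))
  (.br 32 (.col 37 (.col 53 (.col 58 (.col 63 (.col 23 (.br 13 (.bad 4 513 [10, 4, 6, 8, 7, 3])
  (.br 17 (.bad 4 257 [10, 4, 6, 9, 7, 3])
  (.br 19 (.bad 4 768 [10, 0, 7, 6, 3, 5])
  (.col 8 (.br 44 (.col 45 (.col 55 (.br 43 (.bad 4 144 [10, 1, 9, 8, 2, 5])
  (.br 37 (.col 35 (.br 20 (.col 10 (.br 40 (.bad 4 20 [10, 0, 7, 6, 9, 5])
  (.bad 0 148 [10, 0, 1, 6, 8, 9])))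
  (.bad 0 592 [10, 1, 3, 5, 7, 8])))
  (.bad 0 400 [10, 0, 2, 5, 6, 9])))))
  (.bad 0 1552 [0, 1, 3, 5, 7, 8])))))))))))
  (.br 36 (.col 28 (.col 37 (.br 16 (.bad 4 257 [10, 4, 7, 9, 6, 3])
  (.br 14 (.bad 4 257 [10, 2, 6, 4, 7, 3])
  (.bad 2 288 [2, 7, 9, 10, 4, 6])))))
  (.br 40 (.col 2 (.col 16 (.col 18 (.col 20 (.br 34 (.bad 4 144 [10, 0, 2, 6, 9, 5])
  (.br 20 (.bad 4 20 [10, 0, 7, 6, 9, 5])
  (.br 17 (.bad 4 17 [10, 2, 7, 8, 6, 3])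
  (.br 6 (.bad 4 5 [10, 1, 6, 4, 7, 9])
  (.col 8 (.br 24 (.col 35 (.br 42 (.col 55 (.br 35 (.col 9 (.br 13 (.bad 4 528 [10, 0, 5, 8, 7, 3])
  (.bad 0 592 [10, 1, 3, 5, 7, 8])))
  (.bad 0 146 [10, 0, 2, 6, 8, 9])))
  (.bad 0 400 [10, 0, 2, 5, 6, 9])))
  (.bad 0 84 [10, 1, 5, 7, 8, 9])))))))))))
  (.br 1 (.col 23 (.col 38 (.col 53 (.br 8 (.col 10 (.col 13 (.col 33 (.br 3 (.col 12 (.col 14 (.col 15 (.col 22 (.col 24 (.col 34 (.col 35 (.col 36 (.col 39 (.col 41 (.col 49 (.col 54 (.sol 6)))))))))))))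
  (.col 12 (.col 14 (.col 22 (.col 24 (.br 42 (.col 55 (.br 41 (.bad 4 17 [10, 1, 7, 2, 6, 3])
  (.bad 0 146 [10, 0, 2, 6, 8, 9])))
  (.bad 0 400 [10, 0, 2, 5, 6, 9]))))))))))
  (.bad 0 1044 [0, 1, 5, 7, 8, 9])))))
  (.col 23 (.br 43 (.col 39 (.br 17 (.bad 4 272 [10, 0, 5, 2, 7, 3])
  (.br 44 (.bad 4 144 [10, 1, 9, 8, 2, 5])
  (.br 8 (.bad 4 20 [10, 0, 5, 8, 7, 9])
  (.br 45 (.col 18 (.col 44 (.br 35 (.col 22 (.br 9 (.col 12 (.bad 4 513 [10, 1, 6, 4, 7, 3]))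
  (.bad 0 49 [10, 1, 2, 7, 8, 9])))
  (.bad 0 146 [10, 0, 2, 6, 8, 9]))))
  (.bad 2 640 [1, 5, 8, 10, 0, 4]))))))
  (.bad 0 148 [10, 0, 1, 6, 8, 9])))))))))))))))))
  (.br 19 (.col 8 (.col 59 (.br 38 (.bad 4 6 [10, 0, 7, 6, 9, 5])
  (.br 7 (.bad 4 6 [10, 4, 5, 9, 6, 0])
  (.br 39 (.bad 5 6 [9, 10, 6, 0, 7, 4, 5])
  (.bad 2 6 [0, 5, 6, 10, 4, 7]))))))
  (.br 28 (.col 23 (.col 33 (.col 38 (.br 38 (.bad 4 132 [10, 0, 1, 6, 8, 9])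
  (.br 6 (.bad 4 68 [10, 1, 5, 8, 7, 9])
  (.br 18 (.bad 4 260 [10, 0, 9, 6, 7, 5])
  (.br 11 (.bad 5 260 [5, 10, 4, 0, 7, 6, 9])
  (.br 2 (.col 7 (.col 46 (.br 22 (.bad 4 20 [10, 1, 6, 9, 5, 0])
  (.bad 0 84 [10, 1, 5, 7, 8, 9]))))
  (.br 3 (.col 12 (.col 25 (.col 34 (.col 36 (.col 40 (.col 41 (.col 57 (.col 62 (.col 63 (.br 10 (.col 48 (.br 8 (.col 2 (.col 10 (.br 25 (.col 45 (.br 45 (.bad 4 17 [10, 2, 6, 9, 7, 3])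
  (.bad 0 656 [10, 0, 1, 5, 6, 8])))
  (.bad 0 592 [10, 1, 3, 5, 7, 8]))))
  (.bad 0 49 [10, 1, 2, 7, 8, 9])))
  (.bad 0 1296 [0, 2, 3, 5, 6, 9])))))))))))
  (.col 41 (.br 31 (.bad 4 192 [10, 1, 9, 8, 2, 5])
  (.br 32 (.bad 4 384 [10, 0, 9, 6, 2, 5])
  (.br 30 (.col 15 (.col 42 (.col 53 (.col 54 (.br 13 (.bad 4 513 [10, 1, 7, 4, 6, 3])
  (.br 12 (.bad 4 514 [10, 0, 7, 4, 5, 8])
  (.br 9 (.bad 4 3 [10, 4, 6, 9, 7, 8])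
  (.br 25 (.col 9 (.col 51 (.br 17 (.col 14 (.bad 0 208 [10, 1, 2, 5, 8, 9]))
  (.bad 0 336 [10, 2, 3, 5, 7, 9]))))
  (.bad 2 514 [5, 7, 8, 10, 4, 6])))))))))
  (.bad 2 1152 [2, 6, 8, 0, 1, 9]))))))))))))))
  (.br 31 (.col 22 (.col 49 (.col 54 (.br 6 (.bad 4 66 [10, 2, 5, 9, 7, 8])
  (.br 18 (.bad 4 514 [10, 0, 8, 6, 7, 5])
  (.br 12 (.bad 5 514 [5, 10, 4, 0, 7, 6, 8])
  (.br 1 (.col 52 (.col 53 (.col 56 (.col 57 (.col 62 (.col 63 (.br 10 (.bad 5 768 [5, 10, 4, 0, 7, 6, 3])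
  (.bad 0 1552 [0, 1, 3, 5, 7, 8]))))))))
  (.col 57 (.br 16 (.bad 4 576 [10, 1, 7, 8, 5, 3])
  (.br 14 (.bad 5 1088 [3, 1, 8, 2, 7, 9, 5])
  (.bad 2 1088 [1, 7, 9, 2, 5, 8])))))))))))
  (.br 33 (.col 41 (.col 57 (.col 62 (.col 63 (.br 27 (.bad 4 384 [10, 0, 2, 6, 9, 5])
  (.br 30 (.bad 4 640 [10, 0, 1, 6, 8, 5])
  (.br 14 (.bad 4 320 [10, 2, 5, 9, 7, 3])
  (.br 15 (.bad 4 576 [10, 1, 5, 8, 7, 3])
  (.br 18 (.bad 4 768 [10, 0, 3, 6, 7, 5])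
  (.br 38 (.bad 5 1152 [5, 0, 6, 8, 2, 1, 9])
  (.br 6 (.bad 2 1025 [1, 2, 6, 7, 8, 9])
  (.bad 1 4 [10, 0, 1, 6, 7, 8]))))))))))))
  (.br 1 (.col 23 (.col 50 (.col 56 (.col 57 (.br 6 (.col 5 (.col 8 (.col 13 (.col 31 (.col 33 (.br 18 (.col 0 (.col 2 (.col 3 (.col 16 (.col 20 (.br 4 (.col 6 (.col 14 (.col 18 (.col 19 (.col 39 (.bad 0 656 [10, 0, 1, 5, 6, 8]))))))
  (.col 30 (.br 3 (.col 12 (.col 14 (.col 15 (.col 18 (.col 19 (.col 24 (.col 32 (.col 35 (.col 36 (.col 37 (.col 39 (.col 45 (.sol 0)))))))))))))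
  (.col 12 (.col 14 (.col 15 (.col 18 (.br 37 (.bad 4 272 [10, 0, 3, 6, 7, 5])
  (.br 42 (.col 55 (.br 35 (.bad 4 18 [10, 0, 8, 6, 7, 5])
  (.bad 0 146 [10, 0, 2, 6, 8, 9])))
  (.bad 0 400 [10, 0, 2, 5, 6, 9])))))))))))))))
  (.col 0 (.col 2 (.col 16 (.br 43 (.bad 4 260 [10, 0, 5, 4, 7, 9])
  (.br 39 (.bad 4 20 [10, 0, 5, 1, 7, 9])
  (.bad 0 148 [10, 0, 1, 6, 8, 9]))))))))))))
  (.col 13 (.br 27 (.col 16 (.col 17 (.col 20 (.col 26 (.br 7 (.bad 4 6 [10, 0, 7, 4, 5, 9])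
  (.br 11 (.bad 4 20 [10, 0, 7, 8, 5, 9])
  (.br 24 (.col 10 (.bad 2 20 [5, 7, 9, 10, 1, 6]))
  (.bad 2 20 [5, 7, 9, 10, 6, 8]))))))))
  (.col 16 (.br 3 (.col 12 (.col 15 (.col 22 (.col 34 (.col 36 (.col 37 (.col 40 (.col 41 (.col 52 (.col 53 (.br 7 (.col 6 (.col 7 (.br 10 (.bad 4 48 [10, 1, 2, 8, 9, 7])
  (.bad 2 48 [10, 1, 2, 6, 8, 9]))))
  (.br 10 (.col 32 (.col 48 (.bad 2 48 [10, 8, 9, 1, 2, 6])))
  (.br 11 (.br 12 (.bad 4 48 [10, 1, 9, 8, 2, 7])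
  (.bad 2 48 [10, 2, 8, 1, 6, 9]))
  (.br 12 (.bad 2 48 [10, 1, 9, 2, 6, 8])
  (.br 22 (.col 3 (.col 9 (.br 23 (.col 60 (.br 44 (.br 43 (.bad 4 144 [10, 1, 9, 8, 2, 5])
  (.bad 0 400 [10, 0, 2, 5, 6, 9]))
  (.bad 0 656 [10, 0, 1, 5, 6, 8])))
  (.bad 0 592 [10, 1, 3, 5, 7, 8]))))
  (.br 25 (.col 45 (.br 42 (.col 39 (.br 39 (.bad 4 144 [10, 1, 2, 8, 9, 5])
  (.bad 0 148 [10, 0, 1, 6, 8, 9])))
  (.bad 0 656 [10, 0, 1, 5, 6, 8])))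
  (.bad 0 82 [10, 2, 5, 7, 8, 9])))))))))))))))))
  (.col 25 (.br 13 (.col 14 (.col 48 (.col 52 (.br 18 (.col 1 (.col 28 (.col 44 (.col 45 (.col 55 (.br 4 (.col 19 (.col 39 (.bad 0 148 [10, 0, 1, 6, 8, 9])))
  (.col 30 (.br 37 (.bad 4 272 [10, 0, 3, 6, 7, 5])
  (.br 43 (.col 20 (.br 35 (.bad 4 18 [10, 0, 8, 6, 7, 5])
  (.bad 0 146 [10, 0, 2, 6, 8, 9])))
  (.bad 0 400 [10, 0, 2, 5, 6, 9]))))))))))
  (.col 42 (.col 44 (.col 53 (.br 42 (.bad 4 768 [10, 0, 5, 4, 7, 3])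
  (.br 44 (.bad 4 514 [10, 0, 5, 4, 7, 8])
  (.bad 0 656 [10, 0, 1, 5, 6, 8]))))))))))
  (.col 52 (.br 18 (.col 42 (.col 44 (.col 53 (.br 7 (.col 3 (.col 7 (.col 10 (.col 20 (.br 4 (.col 6 (.col 9 (.col 14 (.col 19 (.col 24 (.col 28 (.col 32 (.col 35 (.col 39 (.sol 12))))))))))
  (.col 6 (.col 19 (.br 42 (.col 39 (.col 28 (.bad 0 49 [10, 1, 2, 7, 8, 9])))
  (.bad 0 656 [10, 0, 1, 5, 6, 8])))))))))
  (.col 3 (.br 43 (.col 29 (.br 4 (.col 6 (.col 19 (.col 30 (.col 32 (.col 35 (.col 39 (.col 45 (.sol 15))))))))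
  (.col 32 (.col 39 (.br 44 (.col 19 (.col 1 (.bad 0 49 [10, 1, 2, 7, 8, 9])))
  (.bad 0 656 [10, 0, 1, 5, 6, 8]))))))
  (.bad 0 148 [10, 0, 1, 6, 8, 9])))))))
  (.br 32 (.col 37 (.col 53 (.col 15 (.br 9 (.bad 4 3 [10, 4, 6, 9, 7, 8])
  (.br 17 (.bad 4 257 [10, 4, 6, 9, 7, 3])
  (.bad 0 49 [10, 1, 2, 7, 8, 9]))))))
  (.bad 1 256 [10, 0, 2, 6, 7, 9])))))))))))))))
  (.br 3 (.col 22 (.col 25 (.col 34 (.col 40 (.col 41 (.br 6 (.col 5 (.col 12 (.col 13 (.col 14 (.col 47 (.br 18 (.col 1 (.col 2 (.col 3 (.col 18 (.col 19 (.br 2 (.col 20 (.col 46 (.col 51 (.col 55 (.bad 0 400 [10, 0, 2, 5, 6, 9])))))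
  (.col 46 (.br 29 (.bad 4 20 [10, 0, 9, 6, 7, 5])
  (.br 43 (.col 39 (.br 34 (.bad 4 528 [10, 0, 3, 6, 7, 5])
  (.bad 0 656 [10, 0, 1, 5, 6, 8])))
  (.bad 0 148 [10, 0, 1, 6, 8, 9]))))))))))
  (.col 0 (.col 1 (.col 15 (.br 44 (.bad 4 514 [10, 0, 5, 4, 7, 8])
  (.br 39 (.bad 4 18 [10, 0, 5, 2, 7, 8])
  (.bad 0 146 [10, 0, 2, 6, 8, 9]))))))))))))
  (.col 12 (.br 30 (.col 15 (.col 16 (.col 18 (.col 42 (.br 8 (.bad 4 5 [10, 1, 7, 4, 6, 9])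
  (.br 14 (.bad 4 5 [10, 1, 7, 8, 6, 9])
  (.col 36 (.br 13 (.bad 4 513 [10, 1, 7, 4, 6, 3])
  (.bad 0 49 [10, 1, 2, 7, 8, 9])))))))))
  (.col 15 (.br 14 (.col 13 (.col 31 (.col 36 (.col 52 (.col 61 (.br 18 (.col 2 (.col 28 (.col 29 (.col 39 (.col 44 (.br 2 (.col 20 (.col 46 (.col 51 (.col 55 (.bad 0 146 [10, 0, 2, 6, 8, 9])))))
  (.col 46 (.br 29 (.bad 4 20 [10, 0, 9, 6, 7, 5])
  (.br 39 (.col 19 (.br 34 (.bad 4 528 [10, 0, 3, 6, 7, 5])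
  (.bad 0 656 [10, 0, 1, 5, 6, 8])))
  (.bad 0 148 [10, 0, 1, 6, 8, 9]))))))))))
  (.col 26 (.col 28 (.br 43 (.bad 4 260 [10, 0, 5, 4, 7, 9])
  (.br 42 (.bad 4 272 [10, 0, 5, 9, 7, 3])
  (.bad 0 400 [10, 0, 2, 5, 6, 9])))))))))))
  (.col 36 (.br 18 (.col 26 (.col 28 (.col 37 (.br 7 (.col 3 (.col 6 (.col 9 (.col 19 (.br 2 (.col 7 (.col 10 (.col 14 (.col 20 (.col 24 (.col 32 (.col 35 (.col 39 (.col 44 (.sol 13))))))))))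
  (.col 7 (.col 20 (.br 42 (.col 55 (.col 44 (.bad 0 49 [10, 1, 2, 7, 8, 9])))
  (.bad 0 400 [10, 0, 2, 5, 6, 9])))))))))
  (.col 3 (.br 44 (.col 45 (.br 2 (.col 7 (.col 20 (.col 29 (.col 46 (.col 48 (.col 51 (.col 55 (.sol 16))))))))
  (.col 48 (.col 55 (.br 43 (.col 20 (.col 2 (.bad 0 49 [10, 1, 2, 7, 8, 9])))
  (.bad 0 400 [10, 0, 2, 5, 6, 9]))))))
  (.bad 0 146 [10, 0, 2, 6, 8, 9])))))))
  (.br 36 (.col 18 (.br 8 (.bad 4 17 [10, 2, 6, 8, 7, 3])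
  (.br 13 (.bad 4 17 [10, 6, 9, 7, 8, 3])
  (.bad 0 49 [10, 1, 2, 7, 8, 9]))))
  (.bad 1 16 [10, 0, 1, 6, 7, 8]))))))))))))))
  (.br 6 (.col 12 (.col 13 (.br 16 (.bad 4 33 [10, 1, 2, 8, 9, 7])
  (.bad 2 1088 [1, 2, 5, 7, 8, 9]))))
  (.br 14 (.col 36 (.br 15 (.bad 4 33 [10, 1, 9, 8, 2, 7])
  (.bad 2 1088 [2, 5, 8, 1, 7, 9])))
  (.br 15 (.col 52 (.bad 2 1088 [1, 5, 9, 2, 7, 8]))
  (.br 16 (.bad 2 1088 [5, 8, 9, 1, 2, 7])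
  (.br 27 (.col 16 (.col 26 (.col 37 (.col 38 (.br 17 (.bad 4 257 [10, 2, 7, 4, 6, 3])
  (.br 8 (.bad 4 5 [10, 4, 6, 8, 7, 9])
  (.br 11 (.bad 4 260 [10, 0, 7, 4, 5, 9])
  (.br 24 (.col 10 (.col 35 (.br 2 (.bad 4 20 [10, 5, 9, 6, 8, 0])
  (.br 39 (.br 4 (.bad 4 272 [10, 2, 6, 3, 5, 0])
  (.col 19 (.br 42 (.bad 4 144 [10, 1, 2, 8, 9, 5])
  (.bad 0 400 [10, 0, 2, 5, 6, 9]))))
  (.bad 0 148 [10, 0, 1, 6, 8, 9])))))
  (.bad 2 260 [5, 7, 9, 10, 4, 6])))))))))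
  (.br 18 (.col 0 (.col 42 (.col 58 (.br 7 (.col 3 (.br 2 (.col 7 (.col 10 (.col 20 (.br 4 (.col 6 (.col 9 (.col 11 (.col 14 (.col 18 (.col 19 (.col 24 (.col 32 (.col 35 (.col 39 (.sol 4)))))))))))
  (.col 6 (.col 9 (.col 11 (.col 18 (.col 19 (.bad 2 130 [0, 6, 8, 10, 4, 9]))))))))))
  (.col 7 (.col 10 (.col 20 (.bad 2 132 [0, 6, 9, 10, 4, 8]))))))
  (.col 3 (.br 8 (.col 2 (.col 7 (.col 10 (.col 20 (.bad 2 132 [1, 8, 9, 10, 4, 6])))))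
  (.col 2 (.br 2 (.col 7 (.col 20 (.col 29 (.col 46 (.br 9 (.col 1 (.col 6 (.col 9 (.col 11 (.col 14 (.col 18 (.col 51 (.col 55 (.br 37 (.bad 4 144 [10, 0, 1, 6, 8, 5])
  (.bad 0 400 [10, 0, 2, 5, 6, 9]))))))))))
  (.col 1 (.br 4 (.col 6 (.col 19 (.col 21 (.col 24 (.col 30 (.col 32 (.col 35 (.col 39 (.col 45 (.col 48 (.col 55 (.sol 14))))))))))))
  (.col 21 (.col 30 (.br 35 (.bad 4 18 [10, 0, 8, 6, 7, 5])
  (.br 44 (.col 45 (.col 48 (.col 14 (.bad 2 33 [1, 7, 8, 10, 2, 4]))))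
  (.bad 0 146 [10, 0, 2, 6, 8, 9]))))))))))))
  (.col 46 (.br 29 (.bad 4 20 [10, 0, 9, 6, 7, 5])
  (.bad 2 68 [5, 7, 9, 10, 1, 4])))))))))))
  (.br 32 (.col 37 (.col 53 (.col 63 (.br 10 (.bad 4 768 [10, 0, 7, 4, 5, 3])
  (.br 13 (.bad 4 513 [10, 4, 6, 8, 7, 3])
  (.br 17 (.bad 4 257 [10, 4, 6, 9, 7, 3])
  (.br 23 (.col 35 (.col 51 (.br 2 (.bad 4 528 [10, 3, 5, 8, 6, 0])
  (.br 44 (.br 4 (.bad 4 272 [10, 3, 5, 9, 6, 0])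
  (.col 19 (.br 43 (.bad 4 144 [10, 1, 9, 8, 2, 5])
  (.bad 0 400 [10, 0, 2, 5, 6, 9]))))
  (.bad 0 656 [10, 0, 1, 5, 6, 8])))))
  (.bad 2 768 [3, 5, 7, 10, 4, 6]))))))))
  (.bad 1 256 [10, 0, 2, 6, 7, 9])))))))))))))))

def B_de11_211 : Dat where
  r := 5
  V := [[.i, .o, .o, .o, .o],
    [.o, .i, .o, .o, .o],
    [.o, .o, .i, .o, .o],
    [.o, .o, .o, .i, .o],
    [.i, .i, .i, .i, .o],
    [.o, .o, .o, .o, .i],
    [.i, .o, .o, .o, .i],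
    [.o, .o, .o, .w, .i],
    [.o, .i, .o, .w, .o],
    [.o, .o, .i, .w, .o]]
  P := [[.i, .o, .o, .o, .o],
    [.o, .i, .o, .o, .o],
    [.o, .o, .i, .o, .o],
    [.o, .o, .o, .i, .o],
    [.i, .i, .i, .i, .o],
    [.o, .o, .o, .o, .i],
    [.i, .o, .o, .o, .i],
    [.o, .o, .o, .w, .i],
    [.o, .i, .o, .w, .o],
    [.o, .o, .i, .w, .o],
    [.o, .o, .o, .o, .o],
    [.o, .i, .i, .i, .o],
    [.i, .o, .i, .i, .o],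
    [.i, .i, .o, .i, .o],
    [.i, .i, .i, .v, .o],
    [.i, .o, .i, .v, .o],
    [.i, .i, .o, .v, .o]]
  F := [[.i, .o, .o, .o, .o],
    [.o, .i, .o, .o, .o],
    [.i, .i, .o, .o, .o],
    [.o, .o, .i, .o, .o],
    [.i, .o, .i, .o, .o],
    [.o, .i, .i, .o, .o],
    [.o, .o, .o, .i, .o],
    [.i, .o, .o, .i, .o],
    [.o, .i, .o, .i, .o],
    [.o, .o, .i, .i, .o],
    [.i, .w, .w, .i, .o],
    [.i, .v, .o, .w, .o],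
    [.i, .o, .v, .w, .o],
    [.o, .i, .v, .w, .o],
    [.o, .i, .o, .v, .o],
    [.o, .o, .i, .v, .o],
    [.o, .i, .i, .v, .o],
    [.o, .i, .w, .v, .o],
    [.o, .o, .o, .o, .i],
    [.i, .o, .o, .o, .i],
    [.i, .i, .o, .o, .i],
    [.i, .o, .i, .o, .i],
    [.i, .o, .o, .i, .i],
    [.i, .w, .w, .i, .i],
    [.i, .v, .o, .w, .i],
    [.i, .o, .v, .w, .i],
    [.i, .o, .o, .v, .i],
    [.o, .i, .o, .v, .i],
    [.i, .i, .o, .v, .i],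
    [.i, .w, .o, .v, .i],
    [.o, .o, .i, .v, .i],
    [.i, .o, .i, .v, .i],
    [.o, .i, .i, .v, .i],
    [.i, .i, .i, .v, .i],
    [.i, .v, .i, .v, .i],
    [.i, .o, .w, .v, .i],
    [.o, .i, .w, .v, .i],
    [.i, .i, .v, .v, .i],
    [.o, .o, .o, .i, .w],
    [.i, .o, .o, .i, .w],
    [.o, .i, .o, .i, .w],
    [.o, .o, .i, .i, .w],
    [.i, .w, .w, .i, .w],
    [.i, .v, .o, .w, .v],
    [.i, .o, .v, .w, .v],
    [.o, .i, .v, .w, .v]]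
  ht := 0x291029201940390009300950096008701d0019100d202d003c0038102c2028300d401c4018500c60252015403500056015a025c034e031f01710361026301650271023201340330007300750036006700f901ba01eb02bc02ed03ae
  ct := 0x2100000000000000000000000000000000000000000000000000000000000000000000000000000000002a0000000000000000000000001000000000000000000000000000000000000000000000000000000000100000000000000000000000000017000000000000130000013004c800000000000000000000000000000a00000000000000000000000008000000000000001200000120048900000007f01fc90001fc9002400000000000000000000000000000000000000000000000000000000000010000000000000000000000000022000000000000010000001007c08000000000000000000000000000020000000000007f000007f000008000000000000002000000200b1680000007f000008000000803c00000000000000000000000000000000d000000000000010000001003ff80000000000000140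0000140064680000007f004c080004c0801e000000000000000000200000020030680000007f000008000000801e00000000007f00489000048900240000001fff8024000002400000000000000000000000000000000000000000000000000000000000000000003000000000000000000000000002500000000000003000001c000c18000000000000000000000000000040000000000007f000000001fc18000000000000004000002b0011200000000001fc1800000d800600000000000000000000000000000001100000000000003000000e000ff800000000000001500000180054880000001301fc180004c700060000000000000000004000000b0010880000000001fc18000007000600000000001201fc9000048900240000001fc900fe000002400000000000000000000000000000000000000050000000000007f0000001000ff8000000000000005000001d008c2800000001000ff80006808006000000000000000007f00000020010280000007f01fff800000080060000000000020010280009d4005200000000008006000004c0000000000000000000000000500000080027f800000001000ff80001bf80fe000000000014005428000584001200000004c08006000000c00000000000000000020010280001c4001200000000008006000000c00000000000000489002400000240000000000002400000000000000000000000000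
  cl := [(15, 3, 0x4000040040),
    (23, 2, 0x20000040200),
    (23, 1, 0x10000040100),
    (23, 0, 0x8000440080),
    (27, 1, 0x40020),
    (39, 0, 0xc1),
    (51, 0, 0x1290),
    (53, 0, 0x984),
    (71, 0, 0x4480040),
    (83, 0, 0x802600200),
    (85, 0, 0x21500100),
    (89, 0, 0x300020),
    (102, 2, 0x8248),
    (102, 1, 0x4142),
    (114, 1, 0x22320),
    (135, 2, 0x24040000008),
    (135, 1, 0x14008000002),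
    (135, 0, 0xc004000001),
    (147, 1, 0x231000000020),
    (147, 0, 0x128800000010),
    (149, 0, 0x98020000004),
    (177, 0, 0x34),
    (195, 0, 0x884000008),
    (197, 0, 0x34000002),
    (209, 0, 0x2c20000020),
    (226, 1, 0x2a),
    (263, 1, 0x8044000),
    (269, 2, 0x40008),
    (275, 1, 0x1000060000),
    (277, 0, 0x80001040800),
    (281, 0, 0x240010),
    (293, 0, 0x4801),
    (305, 0, 0x20c10),
    (325, 0, 0x11084000),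
    (329, 0, 0x280008),
    (337, 0, 0x2001a20000),
    (354, 1, 0x34008),
    (387, 1, 0x1108000008),
    (389, 0, 0x80018000001),
    (401, 0, 0xc3000000010),
    (417, 0, 0x19),
    (449, 0, 0x2210000008),
    (519, 2, 0x40048000),
    (523, 1, 0x40002),
    (531, 1, 0x200000042000),
    (531, 0, 0x100002041000),
    (537, 0, 0x140004),
    (547, 0, 0x9001),
    (561, 0, 0x3404),
    (579, 0, 0x82088000),
    (585, 0, 0x180002),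
    (593, 0, 0x402902000),
    (610, 1, 0x1a002),
    (643, 1, 0x200140000002),
    (643, 0, 0x1000c0000001),
    (657, 0, 0x340400000004),
    (673, 0, 0x7),
    (705, 0, 0x680000002),
    (771, 1, 0x100050000),
    (777, 0, 0xc0001),
    (785, 0, 0x40000840400),
    (801, 0, 0x10401),
    (833, 0, 0x200890000),
    (897, 0, 0x40300000001)]
  sl := [0x23514807e36a, 0x12c8c66c92d9, 0x9c03d5c49c7, 0x3c003f, 0x3fbc23f63fb4, 0x3ffff, 0x2eb7fbe36a, 0x3ffffc00003f, 0xc3319af4c19, 0x3407c29db407, 0x3fffffffffff, 0x2310000e2321, 0x128802641292, 0x9802154098c, 0x340034, 0xc3001a60c12, 0x34040294340c]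
  t := B_de11_211_t

theorem B_de11_211_okD : B_de11_211.ckD = true := by decide +kernel

theorem B_de11_211_okT : B_de11_211.ckT TTab B_de11_211.t 0 0 = true := by decide +kernel

theorem lext_de11_211 : LExt 5 10 (vecL 5 B_de11_211.V) (vecP 5 B_de11_211.P) :=
  lext_of_chk' B_de11_211 B_de11_211_okD B_de11_211_okT (by decide)

end QG
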