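import Pool.Agent.Lib.QG.BC8

/-! MP_2e6874_co, part (B): data for de11_22. -/

set_option autoImplicit false
set_option maxRecDepth 100000

namespace QG

def B_de11_22_t : Tr :=
  .br 0 (.br 10 (.col 36 (.br 16 (.col 33 (.col 34 (.col 37 (.br 1 (.col 16 (.col 17 (.col 19 (.col 49 (.col 50 (.br 3 (.col 7 (.col 10 (.col 26 (.col 27 (.col 30 (.col 31 (.col 32 (.col 39 (.col 40 (.col 42 (.col 44 (.sol 10))))))))))))
  (.col 7 (.col 10 (.col 26 (.col 27 (.col 30 (.col 31 (.col 32 (.col 39 (.col 40 (.col 42 (.col 44 (.sol 7))))))))))))))))))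
  (.col 16 (.col 17 (.col 19 (.col 49 (.col 50 (.br 3 (.col 7 (.col 10 (.col 26 (.col 27 (.col 30 (.col 31 (.col 32 (.col 39 (.col 40 (.col 44 (.col 55 (.sol 8))))))))))))
  (.col 26 (.col 27 (.col 30 (.br 8 (.bad 4 12 [10, 6, 9, 7, 8, 1])
  (.br 29 (.bad 4 10 [10, 6, 9, 7, 8, 2])
  (.br 28 (.bad 4 9 [10, 6, 9, 7, 8, 2])
  (.bad 0 584 [10, 1, 4, 5, 7, 8])))))))))))))))))
  (.col 33 (.col 34 (.col 37 (.br 3 (.col 26 (.col 27 (.col 30 (.col 31 (.col 32 (.col 55 (.br 24 (.col 19 (.col 51 (.bad 4 136 [10, 1, 5, 6, 9, 4])))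
  (.br 28 (.col 8 (.col 9 (.col 13 (.col 17 (.col 40 (.bad 4 24 [10, 1, 5, 6, 9, 7]))))))
  (.col 39 (.br 1 (.col 10 (.col 16 (.col 17 (.col 19 (.col 42 (.col 44 (.col 46 (.col 47 (.col 49 (.col 50 (.sol 5)))))))))))
  (.col 10 (.col 16 (.col 17 (.col 44 (.br 32 (.col 13 (.col 18 (.col 40 (.col 41 (.col 50 (.sol 1))))))
  (.bad 0 648 [10, 0, 1, 5, 6, 8]))))))))))))))))
  (.col 26 (.col 27 (.col 32 (.br 18 (.bad 4 264 [10, 0, 4, 5, 7, 2])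
  (.br 19 (.bad 4 320 [10, 4, 9, 7, 5, 2])
  (.col 56 (.br 20 (.bad 4 260 [10, 3, 6, 9, 7, 0])
  (.br 35 (.bad 4 768 [10, 3, 6, 5, 4, 0])
  (.bad 0 328 [10, 2, 4, 5, 7, 9])))))))))))))))
  (.col 36 (.br 9 (.col 27 (.col 28 (.col 32 (.bad 4 34 [10, 3, 6, 9, 4, 0]))))
  (.br 11 (.col 9 (.col 17 (.col 21 (.br 6 (.bad 4 40 [10, 0, 9, 6, 7, 4])
  (.col 57 (.br 4 (.bad 5 40 [4, 10, 8, 0, 7, 6, 9])
  (.col 28 (.bad 11 32 [4, 10, 6, 8, 3, 0, 7, 9]))))))))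
  (.br 30 (.col 19 (.col 30 (.col 34 (.br 6 (.bad 4 264 [10, 0, 2, 6, 7, 4])
  (.col 57 (.br 5 (.bad 4 72 [10, 4, 5, 7, 8, 1])
  (.br 2 (.bad 4 136 [10, 4, 5, 6, 8, 1])
  (.col 52 (.br 8 (.bad 4 36 [10, 3, 6, 8, 7, 0])
  (.br 3 (.col 7 (.col 28 (.col 41 (.br 28 (.bad 4 24 [10, 1, 5, 6, 9, 7])
  (.br 29 (.bad 4 10 [10, 4, 8, 6, 9, 2])
  (.bad 0 584 [10, 1, 4, 5, 7, 8]))))))
  (.bad 2 96 [4, 7, 9, 10, 3, 8])))))))))))
  (.br 22 (.col 33 (.col 35 (.col 59 (.br 1 (.col 16 (.col 20 (.col 49 (.col 50 (.col 51 (.br 3 (.col 10 (.col 26 (.col 39 (.col 44 (.bad 4 72 [10, 4, 5, 7, 9, 2])))))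
  (.col 10 (.col 28 (.br 18 (.bad 4 17 [10, 3, 8, 7, 5, 1])
  (.br 6 (.col 24 (.col 38 (.col 39 (.col 40 (.col 42 (.col 44 (.col 45 (.col 46 (.col 47 (.sol 9))))))))))
  (.bad 2 264 [0, 4, 6, 10, 5, 7])))))))))))
  (.col 49 (.col 50 (.col 51 (.br 15 (.bad 4 192 [10, 1, 4, 8, 9, 5])
  (.br 14 (.bad 5 129 [5, 10, 3, 1, 9, 8, 6])
  (.bad 0 1160 [0, 1, 4, 5, 6, 8]))))))))))
  (.col 59 (.br 21 (.col 18 (.col 50 (.col 51 (.col 52 (.br 16 (.bad 4 192 [10, 1, 9, 8, 4, 5])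
  (.bad 2 192 [4, 5, 9, 10, 3, 8]))))))
  (.col 50 (.br 24 (.col 19 (.col 51 (.br 14 (.bad 4 136 [10, 0, 5, 6, 9, 4])
  (.br 25 (.col 34 (.bad 7 136 [0, 1, 6, 4, 10, 8, 5, 9]))
  (.bad 2 136 [1, 5, 8, 10, 0, 9])))))
  (.br 15 (.col 5 (.br 35 (.col 55 (.col 56 (.col 57 (.bad 4 768 [10, 3, 6, 5, 4, 0]))))
  (.br 1 (.col 16 (.col 20 (.col 33 (.col 35 (.col 49 (.col 52 (.br 3 (.col 7 (.col 10 (.col 26 (.col 28 (.col 31 (.col 32 (.col 41 (.col 42 (.col 44 (.col 6 (.sol 4)))))))))))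
  (.col 7 (.col 10 (.col 28 (.col 31 (.col 41 (.col 42 (.br 20 (.col 6 (.col 24 (.col 29 (.sol 2))))
  (.bad 0 328 [10, 2, 4, 5, 7, 9])))))))))))))))
  (.col 20 (.col 35 (.col 52 (.br 33 (.col 12 (.br 3 (.col 7 (.col 26 (.col 31 (.col 39 (.col 41 (.br 20 (.col 6 (.bad 4 520 [10, 1, 4, 5, 6, 0]))
  (.bad 0 328 [10, 2, 4, 5, 7, 9])))))))
  (.col 7 (.col 28 (.col 41 (.br 19 (.bad 4 17 [10, 1, 7, 8, 9, 5])
  (.col 56 (.br 5 (.col 2 (.col 8 (.col 9 (.col 24 (.col 57 (.sol 11))))))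
  (.col 2 (.col 8 (.br 20 (.bad 4 264 [10, 0, 7, 6, 2, 4])
  (.bad 0 328 [10, 2, 4, 5, 7, 9]))))))))))))
  (.bad 0 648 [10, 0, 1, 5, 6, 8]))))))))
  (.br 1 (.col 16 (.col 20 (.col 35 (.col 52 (.br 25 (.bad 4 136 [10, 0, 8, 4, 5, 1])
  (.bad 0 392 [10, 0, 4, 5, 6, 9]))))))
  (.bad 2 192 [1, 5, 8, 10, 3, 9])))))))))))))
  (.br 10 (.col 36 (.br 4 (.col 27 (.col 28 (.col 32 (.bad 5 34 [4, 10, 3, 0, 7, 6, 9]))))
  (.br 6 (.col 26 (.col 32 (.bad 4 34 [10, 0, 9, 6, 7, 4])))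
  (.br 2 (.col 3 (.col 17 (.col 21 (.col 44 (.br 9 (.bad 4 40 [10, 4, 9, 6, 8, 0])
  (.col 32 (.bad 11 32 [4, 10, 6, 3, 8, 0, 7, 9])))))))
  (.br 14 (.col 2 (.col 16 (.col 17 (.br 3 (.bad 4 33 [10, 3, 7, 8, 6, 9])
  (.col 32 (.br 8 (.bad 4 40 [10, 0, 7, 6, 9, 4])
  (.bad 2 40 [4, 7, 9, 10, 6, 8])))))))
  (.br 17 (.col 24 (.col 25 (.col 34 (.br 9 (.bad 4 264 [10, 2, 4, 5, 6, 0])
  (.br 35 (.bad 4 264 [10, 2, 4, 9, 6, 0])
  (.bad 0 328 [10, 2, 4, 5, 7, 9]))))))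
  (.br 22 (.col 33 (.col 37 (.col 59 (.bad 0 392 [10, 0, 4, 5, 6, 9]))))
  (.br 25 (.col 12 (.col 18 (.col 23 (.col 33 (.col 34 (.br 28 (.bad 4 9 [10, 6, 9, 7, 8, 2])
  (.br 20 (.bad 4 264 [10, 0, 7, 6, 2, 4])
  (.br 3 (.bad 4 257 [10, 3, 7, 5, 6, 2])
  (.col 32 (.br 35 (.col 46 (.br 32 (.bad 4 130 [10, 3, 9, 6, 8, 4])
  (.bad 0 648 [10, 0, 1, 5, 6, 8])))
  (.bad 0 328 [10, 2, 4, 5, 7, 9])))))))))))
  (.br 16 (.col 37 (.col 59 (.br 1 (.col 20 (.col 21 (.col 49 (.col 53 (.col 1 (.col 13 (.br 34 (.bad 4 24 [10, 1, 7, 8, 9, 5])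
  (.br 28 (.col 8 (.col 9 (.col 10 (.col 30 (.col 31 (.col 32 (.col 45 (.sol 6))))))))
  (.bad 0 1544 [0, 1, 4, 5, 7, 8])))))))))
  (.col 20 (.col 53 (.br 32 (.bad 4 130 [10, 3, 9, 6, 8, 4])
  (.br 33 (.col 39 (.br 8 (.bad 4 520 [10, 0, 7, 6, 5, 4])
  (.br 19 (.bad 4 513 [10, 3, 7, 8, 6, 5])
  (.col 31 (.col 32 (.col 58 (.br 29 (.bad 4 66 [10, 3, 9, 7, 8, 2])
  (.bad 0 584 [10, 1, 4, 5, 7, 8]))))))))
  (.bad 0 648 [10, 0, 1, 5, 6, 8]))))))))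
  (.col 37 (.br 36 (.col 51 (.col 55 (.br 28 (.bad 4 520 [10, 0, 4, 8, 7, 5])
  (.br 15 (.bad 4 136 [10, 1, 4, 8, 9, 5])
  (.col 18 (.br 18 (.bad 4 264 [10, 0, 4, 9, 7, 2])
  (.br 19 (.bad 4 768 [10, 0, 4, 3, 7, 5])
  (.br 27 (.bad 4 520 [10, 1, 4, 8, 7, 5])
  (.br 3 (.col 32 (.col 45 (.bad 2 520 [0, 4, 6, 10, 1, 7])))
  (.bad 2 272 [5, 7, 9, 10, 3, 6]))))))))))
  (.bad 0 392 [10, 0, 4, 5, 6, 9]))))))))))))
  (.br 7 (.col 32 (.col 57 (.br 12 (.bad 4 34 [10, 0, 7, 6, 9, 4])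
  (.br 4 (.bad 4 34 [10, 3, 4, 9, 6, 0])
  (.br 13 (.bad 5 34 [9, 10, 6, 0, 7, 3, 4])
  (.bad 2 34 [0, 4, 6, 10, 3, 7]))))))
  (.br 21 (.col 18 (.col 45 (.col 50 (.br 3 (.bad 4 66 [10, 4, 8, 7, 9, 2])
  (.br 6 (.bad 4 514 [10, 0, 8, 6, 7, 4])
  (.br 9 (.bad 4 66 [10, 3, 8, 7, 9, 2])
  (.br 12 (.bad 4 130 [10, 0, 8, 6, 9, 4])
  (.br 13 (.bad 4 130 [10, 3, 8, 6, 9, 4])
  (.bad 2 34 [0, 3, 9, 10, 6, 7])))))))))
  (.br 23 (.col 37 (.col 53 (.col 58 (.col 59 (.br 26 (.bad 4 576 [10, 1, 4, 8, 7, 5])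
  (.br 15 (.bad 4 192 [10, 1, 4, 8, 9, 5])
  (.br 12 (.bad 4 384 [10, 0, 5, 6, 9, 4])
  (.br 6 (.bad 4 768 [10, 0, 5, 6, 7, 4])
  (.br 3 (.bad 4 320 [10, 4, 5, 7, 9, 2])
  (.br 31 (.bad 4 640 [10, 0, 1, 6, 8, 5])
  (.bad 1 1 [10, 1, 6, 7, 8, 9])))))))))))
  (.br 1 (.col 21 (.col 48 (.col 52 (.col 53 (.br 17 (.col 15 (.col 20 (.bad 4 20 [10, 3, 8, 6, 9, 1])))
  (.br 20 (.col 6 (.col 20 (.bad 4 68 [10, 3, 8, 7, 9, 1])))
  (.br 30 (.col 19 (.col 20 (.bad 4 192 [10, 3, 8, 4, 5, 1])))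
  (.br 34 (.col 25 (.col 42 (.br 15 (.bad 4 24 [10, 1, 7, 8, 9, 5])
  (.col 20 (.br 35 (.col 30 (.col 46 (.col 55 (.col 23 (.col 27 (.br 12 (.col 16 (.col 2 (.bad 5 72 [5, 10, 4, 1, 9, 8, 2])))
  (.bad 2 384 [0, 4, 6, 10, 3, 5])))))))
  (.bad 2 72 [2, 4, 7, 10, 8, 9]))))))
  (.br 35 (.col 30 (.col 46 (.col 47 (.col 55 (.br 4 (.bad 4 264 [10, 4, 5, 6, 9, 0])
  (.br 15 (.bad 4 72 [10, 1, 2, 8, 9, 5])
  (.col 20 (.br 5 (.col 2 (.col 10 (.col 16 (.br 22 (.bad 4 257 [10, 5, 6, 9, 7, 2])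
  (.col 49 (.br 32 (.col 13 (.br 25 (.bad 4 9 [10, 5, 6, 8, 7, 2])
  (.bad 0 392 [10, 0, 4, 5, 6, 9])))
  (.bad 0 648 [10, 0, 1, 5, 6, 8])))))))
  (.bad 2 24 [5, 7, 9, 10, 6, 8])))))))))
  (.br 15 (.col 20 (.br 36 (.col 34 (.col 51 (.bad 4 136 [10, 1, 4, 8, 9, 5])))
  (.br 6 (.br 3 (.col 7 (.col 10 (.col 26 (.col 28 (.col 31 (.col 32 (.col 33 (.col 34 (.col 38 (.col 41 (.col 45 (.col 47 (.col 49 (.col 50 (.col 2 (.sol 0))))))))))))))))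
  (.col 7 (.col 10 (.col 26 (.col 31 (.col 33 (.col 38 (.col 47 (.col 49 (.col 2 (.br 32 (.col 13 (.col 27 (.col 40 (.sol 12))))
  (.bad 0 648 [10, 0, 1, 5, 6, 8]))))))))))))
  (.br 19 (.col 31 (.col 47 (.col 23 (.col 25 (.col 39 (.br 32 (.col 13 (.bad 4 264 [10, 0, 4, 5, 7, 2]))
  (.bad 0 648 [10, 0, 1, 5, 6, 8])))))))
  (.bad 2 768 [4, 5, 7, 10, 3, 6])))))
  (.col 20 (.br 9 (.col 5 (.col 9 (.br 28 (.bad 4 72 [10, 1, 5, 4, 9, 2])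
  (.bad 0 584 [10, 1, 4, 5, 7, 8]))))
  (.bad 2 320 [2, 5, 9, 10, 3, 7])))))))))))))
  (.br 16 (.col 20 (.col 29 (.col 35 (.col 37 (.br 11 (.bad 4 192 [10, 3, 5, 4, 8, 1])
  (.br 8 (.bad 4 68 [10, 3, 9, 7, 8, 1])
  (.br 2 (.bad 4 20 [10, 3, 9, 6, 8, 1])
  (.br 24 (.col 46 (.col 51 (.br 13 (.bad 4 136 [10, 1, 5, 6, 9, 4])
  (.br 25 (.br 9 (.bad 4 72 [10, 1, 5, 7, 9, 2])
  (.br 18 (.col 23 (.bad 4 520 [10, 0, 5, 6, 7, 4]))
  (.bad 0 328 [10, 2, 4, 5, 7, 9])))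
  (.bad 0 392 [10, 0, 4, 5, 6, 9])))))
  (.bad 2 192 [1, 5, 8, 10, 3, 9])))))))))
  (.br 19 (.col 31 (.col 47 (.col 56 (.br 15 (.bad 4 17 [10, 1, 7, 8, 9, 5])
  (.br 5 (.bad 5 17 [5, 10, 3, 1, 9, 8, 7])
  (.br 2 (.col 3 (.col 15 (.col 42 (.bad 11 16 [5, 10, 8, 3, 6, 1, 9, 7]))))
  (.br 4 (.col 1 (.col 25 (.bad 11 16 [5, 10, 9, 3, 6, 7, 8, 1])))
  (.br 17 (.br 27 (.bad 4 24 [10, 1, 9, 8, 7, 5])
  (.bad 2 24 [1, 5, 8, 10, 6, 9]))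
  (.bad 2 24 [5, 7, 9, 10, 6, 8])))))))))
  (.br 22 (.col 33 (.col 49 (.col 54 (.br 26 (.bad 4 513 [10, 1, 6, 8, 7, 5])
  (.br 28 (.bad 4 513 [10, 3, 6, 8, 7, 5])
  (.br 18 (.bad 4 257 [10, 3, 6, 9, 7, 2])
  (.br 15 (.bad 4 129 [10, 1, 6, 8, 9, 5])
  (.br 3 (.bad 4 257 [10, 5, 6, 9, 7, 2])
  (.bad 2 17 [1, 3, 7, 10, 8, 9])))))))))
  (.br 3 (.col 10 (.col 28 (.col 31 (.col 32 (.br 13 (.col 27 (.col 36 (.bad 4 34 [10, 0, 4, 3, 7, 9])))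
  (.br 11 (.col 9 (.col 17 (.br 6 (.bad 4 40 [10, 0, 9, 6, 7, 4])
  (.col 26 (.bad 11 32 [4, 10, 7, 8, 3, 9, 6, 0])))))
  (.br 14 (.col 2 (.col 16 (.col 17 (.br 25 (.bad 4 257 [10, 3, 7, 5, 6, 2])
  (.col 12 (.col 7 (.br 28 (.bad 4 17 [10, 1, 5, 3, 9, 7])
  (.br 29 (.bad 4 66 [10, 3, 9, 4, 8, 2])
  (.br 24 (.bad 4 136 [10, 0, 5, 6, 9, 4])
  (.br 32 (.bad 4 136 [10, 0, 5, 1, 9, 4])
  (.br 36 (.col 34 (.col 55 (.br 20 (.col 6 (.bad 0 584 [10, 1, 4, 5, 7, 8]))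
  (.bad 0 328 [10, 2, 4, 5, 7, 9]))))
  (.bad 0 648 [10, 0, 1, 5, 6, 8]))))))))))))
  (.br 15 (.col 5 (.col 19 (.br 35 (.col 30 (.col 46 (.bad 4 72 [10, 1, 2, 8, 9, 5])))
  (.bad 2 320 [10, 4, 5, 3, 7, 9]))))
  (.col 7 (.br 28 (.bad 4 17 [10, 1, 5, 3, 9, 7])
  (.br 27 (.bad 4 18 [10, 3, 9, 6, 8, 7])
  (.br 2 (.col 15 (.col 42 (.br 30 (.bad 4 136 [10, 4, 5, 6, 8, 1])
  (.br 25 (.bad 4 136 [10, 0, 8, 4, 5, 1])
  (.br 36 (.col 55 (.col 44 (.br 20 (.bad 4 12 [10, 6, 8, 7, 9, 1])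
  (.bad 0 328 [10, 2, 4, 5, 7, 9]))))
  (.bad 0 392 [10, 0, 4, 5, 6, 9]))))))
  (.br 6 (.col 23 (.col 39 (.col 40 (.col 44 (.br 24 (.bad 4 520 [10, 0, 5, 6, 7, 4])
  (.br 36 (.col 34 (.bad 0 1160 [0, 1, 4, 5, 6, 8]))
  (.bad 0 648 [10, 0, 1, 5, 6, 8])))))))
  (.bad 2 40 [0, 4, 6, 10, 7, 8]))))))))))))))
  (.br 6 (.col 26 (.br 15 (.col 7 (.col 11 (.br 4 (.col 1 (.col 27 (.col 40 (.br 2 (.col 3 (.col 8 (.col 9 (.col 15 (.col 17 (.col 19 (.col 23 (.col 24 (.col 25 (.col 30 (.col 34 (.col 39 (.sol 3)))))))))))))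
  (.col 3 (.col 8 (.col 9 (.col 15 (.col 19 (.col 24 (.col 30 (.bad 2 320 [2, 4, 7, 10, 3, 9]))))))))))))
  (.col 1 (.col 27 (.col 40 (.br 2 (.col 3 (.col 8 (.col 15 (.col 17 (.col 19 (.col 23 (.col 24 (.col 25 (.col 30 (.col 34 (.col 39 (.col 44 (.sol 13)))))))))))))
  (.col 15 (.col 24 (.col 44 (.br 35 (.bad 4 72 [10, 1, 2, 8, 9, 5])
  (.col 55 (.br 18 (.col 8 (.col 9 (.col 19 (.bad 2 320 [2, 5, 9, 10, 3, 7]))))
  (.bad 2 272 [5, 7, 9, 10, 3, 6]))))))))))))))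
  (.br 31 (.col 38 (.col 45 (.col 47 (.col 49 (.col 50 (.br 9 (.bad 4 66 [10, 3, 8, 4, 9, 2])
  (.col 27 (.br 5 (.bad 4 17 [10, 1, 9, 3, 5, 7])
  (.br 18 (.col 23 (.col 25 (.col 34 (.br 2 (.bad 4 24 [10, 5, 7, 8, 6, 1])
  (.col 44 (.br 24 (.bad 4 520 [10, 0, 5, 6, 7, 4])
  (.bad 0 648 [10, 0, 1, 5, 6, 8])))))))
  (.bad 2 17 [5, 7, 9, 10, 3, 8]))))))))))
  (.bad 1 128 [10, 0, 1, 6, 8, 9]))))
  (.br 12 (.col 16 (.col 33 (.col 36 (.br 18 (.bad 4 257 [10, 3, 6, 5, 7, 2])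
  (.br 5 (.bad 4 33 [10, 3, 6, 8, 7, 9])
  (.br 4 (.bad 4 34 [10, 0, 7, 3, 4, 9])
  (.br 9 (.col 9 (.col 30 (.br 17 (.bad 4 264 [10, 2, 4, 5, 6, 0])
  (.br 36 (.col 55 (.br 2 (.bad 4 40 [10, 4, 9, 6, 8, 0])
  (.col 51 (.br 28 (.bad 4 520 [10, 0, 4, 8, 7, 5])
  (.br 29 (.col 5 (.bad 4 136 [10, 1, 4, 8, 9, 5]))
  (.bad 0 584 [10, 1, 4, 5, 7, 8]))))))
  (.bad 0 392 [10, 0, 4, 5, 6, 9])))))
  (.bad 2 34 [4, 7, 9, 10, 3, 6]))))))))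
  (.bad 1 256 [10, 0, 5, 6, 7, 9]))))))))))))

def B_de11_22 : Dat where
  r := 5
  V := [[.i, .o, .o, .o, .o],
    [.o, .i, .o, .o, .o],
    [.o, .o, .i, .o, .o],
    [.i, .i, .i, .o, .o],
    [.o, .o, .o, .i, .o],
    [.o, .o, .o, .o, .i],
    [.i, .o, .o, .i, .o],
    [.o, .o, .w, .i, .o],
    [.o, .i, .o, .o, .i],
    [.o, .o, .w, .o, .i]]
  P := [[.i, .o, .o, .o, .o],
    [.o, .i, .o, .o, .o],
    [.o, .o, .i, .o, .o],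
    [.i, .i, .i, .o, .o],
    [.o, .o, .o, .i, .o],
    [.o, .o, .o, .o, .i],
    [.i, .o, .o, .i, .o],
    [.o, .o, .w, .i, .o],
    [.o, .i, .o, .o, .i],
    [.o, .o, .w, .o, .i],
    [.o, .o, .o, .o, .o],
    [.o, .i, .i, .o, .o],
    [.i, .o, .i, .o, .o],
    [.i, .i, .v, .o, .o]]
  F := [[.i, .o, .o, .o, .o],
    [.o, .i, .o, .o, .o],
    [.i, .i, .o, .o, .o],
    [.o, .o, .i, .o, .o],
    [.i, .o, .i, .o, .o],
    [.o, .i, .i, .o, .o],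
    [.o, .o, .o, .i, .o],
    [.i, .o, .o, .i, .o],
    [.i, .i, .o, .i, .o],
    [.i, .o, .i, .i, .o],
    [.i, .o, .v, .i, .o],
    [.i, .w, .v, .i, .o],
    [.o, .o, .i, .w, .o],
    [.i, .o, .i, .w, .o],
    [.o, .i, .i, .w, .o],
    [.o, .o, .o, .o, .i],
    [.o, .i, .o, .o, .i],
    [.i, .i, .o, .o, .i],
    [.o, .i, .i, .o, .i],
    [.o, .i, .v, .o, .i],
    [.i, .i, .o, .i, .i],
    [.i, .o, .v, .i, .i],
    [.o, .i, .v, .i, .i],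
    [.i, .i, .v, .i, .i],
    [.i, .w, .v, .i, .i],
    [.o, .i, .i, .w, .i],
    [.o, .o, .i, .o, .w],
    [.i, .o, .i, .o, .w],
    [.o, .i, .i, .o, .w],
    [.i, .o, .i, .i, .w],
    [.i, .w, .v, .i, .w],
    [.o, .o, .i, .w, .w],
    [.i, .o, .i, .w, .w],
    [.o, .i, .i, .w, .w],
    [.i, .v, .w, .o, .v],
    [.i, .v, .w, .i, .v],
    [.i, .v, .w, .v, .v]]
  ht := 0x388034803180289028a028301c8024a0259021a0253018902c803c0038102c2014c03510159019c01d500df00a901aa01a300e801e2016a026c0366032f0079013a017302bc02f503b6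
  ct := 0x170000000000000000000000000000000000000000000000000000000000000000000000000000000000000000000000002400000000000b00000000000000000000000000000000000000000000000000000000070000000000000000000000000013000000000000230000007001c980000000000000000000000000000000000000000006000007f01fc30000000000000022000000000009800000006001830001fc3000c000000000000000000000000000000000000000000000000000000000000100000000000000000000000000010000000000001800000010054080000000000000000000000000007f00000000000002000007f000008000000000000002000007f00000800000002008108000000803e00000000000000000000000000000000100000000000008000007f001c0800000000000001c0000001006bf8000000080074e00001c080340000000000000000002000007f0000080000007f001830001fff800c000000000002006ce000000080340000000183000c000000c0000000000000000000000000000000000000000000000000000000000000000000a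00000000000000000000000000100000000000001e0000010002880000000000000000000000000000000000000000000d000000001fc60000000000000011000007f000080000000110034c8000008001800000000000000000000000000000000300000000000009000000701fc180000000000000120000010000ff8000000140024900001c800060000000000000000004000000001fc180000000601fc30001fc300fe00000000001100109000000800060000000183000c000000c00000000000000000000000000000000000000010000000000000b000000100280800000000000000f000007f003ff80000000f003c780003ff801e0000000000000000002000007f00000800000002003470000000801800000000007f003c78001fff801e00000003c7801e000001e000000000000000000000000050000001000ff8000000080024280001c0800600000000000f003ff80003ff80fe00000003c7801e000001e000000000000000000200102800000080060000000183000c000000c000000000000003c7801e000001e000000000000fe00000000000000000000000000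
  cl := [(30, 4, 0x8040),
    (27, 0, 0x8008010),
    (43, 1, 0x4060),
    (57, 0, 0x34),
    (71, 0, 0x8080),
    (75, 0, 0x20008200),
    (77, 0, 0x108100),
    (86, 2, 0x4008008),
    (90, 1, 0x10048020),
    (105, 0, 0xb20),
    (114, 1, 0x2a),
    (135, 2, 0x80009000),
    (139, 1, 0x20200c000),
    (139, 0, 0x10000a000),
    (147, 0, 0x8001),
    (153, 0, 0x28004),
    (163, 1, 0x5002),
    (169, 0, 0x6804),
    (195, 0, 0x208400),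
    (201, 0, 0x41008800),
    (210, 1, 0x18002),
    (225, 0, 0xc02),
    (263, 1, 0x10040),
    (267, 1, 0x2040040),
    (269, 0, 0x120040),
    (281, 0, 0x400060010),
    (293, 2, 0x1048),
    (297, 0, 0x2250),
    (305, 0, 0x19),
    (325, 0, 0x110080),
    (329, 0, 0x840140200),
    (338, 1, 0xd0008),
    (353, 0, 0x688),
    (387, 1, 0x2411000),
    (393, 0, 0x1042022000),
    (401, 0, 0x30001),
    (417, 0, 0x3401),
    (449, 0, 0x40810400),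
    (519, 2, 0x84000040),
    (523, 1, 0x210000040),
    (523, 0, 0x128000040),
    (531, 0, 0xc000001),
    (537, 0, 0x418000004),
    (547, 1, 0x42),
    (553, 0, 0x144),
    (579, 0, 0x24200080),
    (585, 0, 0x831000100),
    (594, 1, 0x14080002),
    (609, 0, 0x182),
    (643, 1, 0x280400002),
    (643, 0, 0x180200001),
    (649, 0, 0x1301000004),
    (673, 0, 0x7),
    (705, 0, 0x1a00002),
    (771, 1, 0x480040),
    (777, 0, 0x1c00000040),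
    (785, 0, 0x400080001),
    (801, 0, 0xc1),
    (833, 0, 0x800880080),
    (897, 0, 0x1000c00001)]
  sl := [0x2964dd06a, 0x1ac20b6d9, 0x1381c7, 0x1f7b16eb74, 0x41c0f803f, 0x7fff, 0x875bd8faa, 0x13c3e3fc07, 0x1c42df36d9, 0x1fbde801c7, 0x1fffffffff, 0x21204c0e1, 0x12801a252, 0x128144]
  t := B_de11_22_t

theorem B_de11_22_okD : B_de11_22.ckD = true := by decide +kernel

theorem B_de11_22_okT : B_de11_22.ckT TTab B_de11_22.t 0 0 = true := by decide +kernel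

theorem lext_de11_22 : LExt 5 10 (vecL 5 B_de11_22.V) (vecP 5 B_de11_22.P) :=
  lext_of_chk' B_de11_22 B_de11_22_okD B_de11_22_okT (by decide)

end QG
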