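import Pool.Agent.Lib.QG.BC8

/-! MP_2e6874_co, part (B): data for la00_012. -/

set_option autoImplicit false
set_option maxRecDepth 100000

namespace QG

def B_la00_012_t : Tr :=
  .br 0 (.br 4 (.col 12 (.br 9 (.col 8 (.col 9 (.col 10 (.col 11 (.col 18 (.br 1 (.col 3 (.col 5 (.col 6 (.col 7 (.col 13 (.col 14 (.col 15 (.col 16 (.col 19 (.col 21 (.sol 9)))))))))))
  (.col 3 (.col 5 (.col 6 (.col 7 (.col 13 (.col 14 (.col 15 (.col 16 (.col 19 (.col 21 (.sol 6)))))))))))))))))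
  (.col 8 (.col 9 (.col 10 (.col 11 (.col 18 (.br 1 (.col 3 (.col 5 (.col 6 (.col 7 (.col 13 (.col 14 (.col 15 (.col 17 (.col 19 (.col 21 (.sol 5)))))))))))
  (.col 5 (.col 6 (.col 7 (.col 17 (.br 11 (.bad 4 16 [9, 2, 7, 6, 8, 3])
  (.br 21 (.bad 4 2 [9, 3, 8, 6, 5, 4])
  (.br 16 (.bad 4 2 [9, 4, 7, 6, 5, 3])
  (.br 12 (.col 25 (.bad 2 1 [3, 4, 6, 9, 7, 8]))
  (.bad 2 2 [3, 4, 6, 9, 7, 8])))))))))))))))))
  (.col 12 (.br 7 (.col 17 (.col 23 (.bad 4 32 [9, 1, 2, 7, 8, 0])))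
  (.br 9 (.col 8 (.col 9 (.col 10 (.col 11 (.col 18 (.br 15 (.col 13 (.col 19 (.bad 4 1 [9, 3, 4, 7, 8, 5])))
  (.br 1 (.col 3 (.col 5 (.col 6 (.col 7 (.col 14 (.col 15 (.col 19 (.col 21 (.sol 2)))))))))
  (.col 3 (.col 7 (.col 15 (.col 21 (.br 12 (.col 14 (.col 20 (.sol 1)))
  (.bad 0 384 [9, 0, 1, 2, 5, 6])))))))))))))
  (.col 9 (.br 14 (.bad 4 64 [9, 2, 5, 3, 8, 4])
  (.br 13 (.bad 4 64 [9, 0, 7, 2, 5, 3])
  (.br 20 (.bad 4 64 [9, 2, 5, 4, 7, 3])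
  (.br 23 (.bad 5 64 [5, 9, 2, 3, 8, 7, 4])
  (.bad 0 192 [9, 0, 2, 4, 5, 8]))))))))))
  (.br 4 (.col 12 (.br 1 (.col 5 (.col 6 (.col 7 (.col 17 (.br 9 (.col 0 (.col 1 (.col 2 (.col 3 (.col 8 (.col 9 (.col 10 (.col 11 (.col 13 (.col 14 (.col 15 (.col 18 (.sol 0)))))))))))))
  (.col 0 (.col 3 (.col 8 (.col 13 (.br 17 (.bad 4 2 [9, 3, 5, 6, 8, 4])
  (.col 21 (.br 12 (.bad 4 256 [9, 0, 5, 1, 7, 3])
  (.br 23 (.col 18 (.col 24 (.bad 5 64 [5, 9, 0, 3, 8, 7, 4])))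
  (.bad 0 384 [9, 0, 1, 2, 5, 6]))))))))))))))
  (.col 5 (.br 2 (.bad 4 32 [9, 0, 6, 7, 2, 1])
  (.br 6 (.bad 4 32 [9, 0, 6, 8, 1, 2])
  (.br 7 (.bad 5 32 [0, 9, 6, 1, 8, 7, 2])
  (.bad 2 32 [1, 2, 6, 9, 7, 8])))))))
  (.br 9 (.col 8 (.col 9 (.br 12 (.col 14 (.col 20 (.bad 4 2 [9, 3, 4, 7, 8, 5])))
  (.br 15 (.col 13 (.col 19 (.bad 4 1 [9, 3, 4, 7, 8, 5])))
  (.br 19 (.col 15 (.col 21 (.bad 4 4 [9, 3, 4, 7, 8, 5])))
  (.br 7 (.col 25 (.br 1 (.col 3 (.col 5 (.col 7 (.col 16 (.col 17 (.col 19 (.col 21 (.col 22 (.col 23 (.sol 4))))))))))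
  (.col 3 (.col 16 (.col 23 (.br 14 (.col 10 (.col 17 (.col 22 (.sol 3))))
  (.bad 0 320 [9, 0, 2, 3, 5, 7])))))))
  (.br 23 (.col 18 (.col 24 (.bad 4 64 [9, 3, 4, 7, 8, 5])))
  (.bad 0 384 [9, 0, 1, 2, 5, 6]))))))))
  (.br 5 (.col 10 (.col 12 (.br 17 (.bad 4 64 [9, 2, 8, 3, 5, 4])
  (.br 22 (.bad 4 64 [9, 0, 8, 3, 5, 4])
  (.br 23 (.col 18 (.br 1 (.col 3 (.col 5 (.bad 4 1 [9, 4, 5, 6, 7, 3])))
  (.br 2 (.col 1 (.col 15 (.col 16 (.col 17 (.col 22 (.col 23 (.col 25 (.sol 7))))))))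
  (.col 15 (.col 16 (.col 17 (.br 18 (.bad 4 8 [9, 2, 8, 6, 7, 4])
  (.br 21 (.bad 4 8 [9, 1, 8, 6, 7, 4])
  (.bad 2 256 [0, 2, 5, 9, 3, 6])))))))))
  (.bad 0 320 [9, 0, 2, 3, 5, 7]))))))
  (.br 2 (.col 1 (.col 7 (.col 17 (.br 17 (.bad 4 4 [9, 3, 5, 6, 8, 4])
  (.br 14 (.bad 4 8 [9, 2, 7, 6, 8, 4])
  (.br 6 (.bad 4 32 [9, 1, 8, 7, 2, 0])
  (.br 21 (.bad 4 8 [9, 1, 8, 2, 7, 4])
  (.br 8 (.col 11 (.col 24 (.br 11 (.bad 4 16 [9, 2, 7, 6, 8, 3])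
  (.col 15 (.br 13 (.bad 4 64 [9, 0, 7, 4, 5, 3])
  (.bad 0 192 [9, 0, 2, 4, 5, 8]))))))
  (.bad 2 256 [1, 2, 6, 9, 3, 5])))))))))
  (.br 3 (.col 0 (.col 5 (.col 6 (.col 17 (.br 17 (.bad 4 2 [9, 3, 5, 6, 8, 4])
  (.br 18 (.bad 4 8 [9, 1, 7, 2, 8, 4])
  (.br 14 (.bad 4 8 [9, 1, 7, 6, 8, 4])
  (.br 22 (.bad 4 1 [9, 3, 5, 6, 8, 4])
  (.br 8 (.bad 4 32 [9, 0, 1, 8, 6, 2])
  (.bad 2 256 [0, 2, 5, 9, 3, 6]))))))))))
  (.br 10 (.col 14 (.col 15 (.col 18 (.br 8 (.bad 4 64 [9, 2, 7, 4, 5, 3])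
  (.br 7 (.bad 4 128 [9, 1, 2, 5, 4, 0])
  (.br 1 (.bad 4 4 [9, 4, 5, 6, 7, 3])
  (.bad 2 32 [0, 2, 8, 9, 6, 7])))))))
  (.br 11 (.col 3 (.col 13 (.col 15 (.br 18 (.bad 4 4 [9, 3, 8, 7, 4, 5])
  (.br 21 (.bad 4 1 [9, 3, 8, 7, 4, 5])
  (.br 22 (.br 17 (.col 20 (.col 24 (.col 25 (.col 11 (.bad 4 16 [9, 2, 7, 6, 8, 3])))))
  (.bad 2 4 [3, 5, 7, 9, 6, 8]))
  (.bad 2 1 [3, 5, 7, 9, 6, 8])))))))
  (.br 1 (.br 13 (.bad 4 1 [9, 4, 5, 6, 7, 3])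
  (.br 6 (.col 2 (.col 23 (.col 11 (.br 23 (.col 24 (.col 25 (.col 19 (.col 21 (.sol 8)))))
  (.bad 0 192 [9, 0, 2, 4, 5, 8])))))
  (.col 23 (.br 20 (.bad 4 16 [9, 2, 8, 6, 7, 3])
  (.br 23 (.col 24 (.col 25 (.col 19 (.bad 2 2 [3, 5, 7, 9, 6, 8]))))
  (.bad 0 192 [9, 0, 2, 4, 5, 8]))))))
  (.br 13 (.col 13 (.col 18 (.br 8 (.bad 4 64 [9, 0, 7, 4, 5, 3])
  (.br 7 (.col 23 (.col 25 (.br 17 (.col 20 (.col 21 (.bad 4 256 [9, 1, 2, 3, 5, 0])))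
  (.bad 2 4 [4, 5, 8, 9, 6, 7]))))
  (.bad 2 32 [0, 2, 8, 9, 6, 7])))))
  (.bad 1 0 [9, 0, 2, 5, 6, 7]))))))))))

def B_la00_012 : Dat where
  r := 4
  V := [[.i, .o, .o, .o],
    [.o, .i, .o, .o],
    [.o, .o, .i, .o],
    [.i, .i, .o, .o],
    [.w, .o, .v, .o],
    [.o, .o, .o, .i],
    [.o, .i, .i, .o],
    [.i, .i, .o, .i],
    [.w, .o, .v, .i]]
  P := [[.i, .o, .o, .o],
    [.o, .i, .o, .o],
    [.o, .o, .i, .o],
    [.i, .i, .o, .o],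
    [.w, .o, .v, .o],
    [.o, .o, .o, .i],
    [.o, .i, .i, .o],
    [.i, .i, .o, .i],
    [.w, .o, .v, .i],
    [.o, .o, .o, .o]]
  F := [[.i, .o, .o, .o],
    [.o, .i, .o, .o],
    [.i, .i, .o, .o],
    [.o, .o, .i, .o],
    [.o, .i, .i, .o],
    [.i, .i, .i, .o],
    [.i, .o, .v, .o],
    [.i, .i, .v, .o],
    [.i, .v, .v, .o],
    [.o, .o, .o, .i],
    [.i, .o, .o, .i],
    [.o, .i, .o, .i],
    [.i, .o, .i, .i],
    [.o, .i, .i, .i],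
    [.i, .i, .i, .i],
    [.o, .i, .w, .i],
    [.i, .o, .v, .i],
    [.i, .o, .o, .w],
    [.i, .i, .o, .w],
    [.i, .v, .o, .w],
    [.i, .v, .v, .w],
    [.o, .o, .i, .v],
    [.o, .i, .i, .v],
    [.i, .w, .w, .v]]
  ht := 0x1c00141010b00d00184010c014600920181014800c10182009500c6005f017001b8013200e8006100ab00ac01350066
  ct := 0x1700000000000000000000000000000000000000000000000000000007000000000000000000000000000700000000000007000001300307800000000000000000000000000000000000000000000000000000000800000000000000000000000000080000000000000e00000110044b00000000000000000000000000007f0000000000000700000010018080000000000000070000001001808000000120054a8000440802a0000000000000000000000000000000000000000000000000000000000005000000000000000000000000001400000000000005000000a002868000000000000000000000000000070000000000007f0000002000c18000000000000007000000b00405800000002000c180002858006000000000000000000000000000000008000000000000050000000000020000000000000009000000900244800000009002448001fc480120000000000000000007000000100180800000002000c18000000800600000000000900244800027f8012000000024480fe0000012000000000000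
  cl := [(14, 2, 0x200208),
    (13, 0, 0x40204),
    (19, 0, 0x10240),
    (22, 1, 0xa02),
    (25, 0, 0x280),
    (35, 1, 0x1a),
    (35, 0, 0x49),
    (37, 0, 0x7),
    (67, 1, 0x402210),
    (69, 0, 0x20601),
    (73, 0, 0x4220),
    (81, 0, 0x100300),
    (97, 0, 0x131),
    (131, 1, 0xa808),
    (131, 0, 0x11408),
    (133, 0, 0x80c04),
    (145, 0, 0x110880),
    (161, 0, 0xac),
    (193, 0, 0x902420),
    (259, 1, 0x608002),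
    (259, 0, 0x221040),
    (261, 0, 0xe0002),
    (265, 0, 0x244080),
    (289, 0, 0x1c2),
    (321, 0, 0xc24100),
    (385, 0, 0x889080)]
  sl := [0x60aa1a, 0x231649, 0xe0e07, 0x2442ac, 0x110bc2, 0x1ff, 0xd26731, 0x99bcac, 0xeed1c2, 0xffffff]
  t := B_la00_012_t

theorem B_la00_012_okD : B_la00_012.ckD = true := by decide +kernel

theorem B_la00_012_okT : B_la00_012.ckT TTab B_la00_012.t 0 0 = true := by decide +kernel

theorem lext_la00_012 : LExt 4 9 (vecL 4 B_la00_012.V) (vecP 4 B_la00_012.P) :=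
  lext_of_chk' B_la00_012 B_la00_012_okD B_la00_012_okT (by decide)

end QG
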