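import Pool.Agent.Lib.QG.BC8

/-! MP_2e6874_co, part (B): data for la00_111. -/

set_option autoImplicit false
set_option maxRecDepth 100000

namespace QG

def B_la00_111_t : Tr :=
  .br 0 (.br 1 (.col 15 (.br 11 (.col 13 (.col 14 (.col 16 (.col 17 (.col 18 (.br 4 (.col 1 (.col 5 (.col 6 (.col 7 (.col 8 (.col 9 (.col 10 (.col 11 (.col 20 (.sol 9))))))))))
  (.col 1 (.col 5 (.col 6 (.col 7 (.col 8 (.col 9 (.col 10 (.col 11 (.col 20 (.sol 7))))))))))))))))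
  (.col 13 (.col 14 (.col 16 (.col 17 (.col 18 (.br 17 (.col 19 (.col 20 (.bad 4 256 [9, 0, 1, 2, 3, 5])))
  (.br 21 (.col 11 (.col 12 (.bad 4 64 [9, 2, 3, 4, 5, 1])))
  (.br 4 (.col 1 (.col 5 (.col 6 (.col 7 (.col 8 (.col 9 (.col 10 (.col 20 (.sol 3)))))))))
  (.col 1 (.col 7 (.col 10 (.br 10 (.col 9 (.col 21 (.sol 2)))
  (.bad 0 320 [9, 1, 2, 3, 5, 7])))))))))))))))
  (.col 15 (.br 4 (.col 1 (.col 7 (.col 10 (.br 10 (.col 9 (.col 21 (.bad 4 4 [9, 1, 5, 6, 8, 4])))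
  (.br 13 (.col 13 (.col 17 (.col 19 (.col 23 (.col 25 (.bad 0 320 [9, 1, 2, 3, 5, 7]))))))
  (.br 14 (.col 16 (.col 18 (.col 14 (.bad 0 384 [9, 0, 1, 3, 5, 6]))))
  (.br 18 (.col 18 (.col 24 (.col 8 (.col 12 (.bad 7 64 [9, 3, 5, 1, 8, 7, 2, 4])))))
  (.br 9 (.col 0 (.col 2 (.col 3 (.col 5 (.col 6 (.col 8 (.col 11 (.col 12 (.col 14 (.col 16 (.sol 1)))))))))))
  (.col 0 (.col 2 (.col 8 (.col 14 (.br 15 (.col 17 (.col 23 (.col 6 (.sol 5))))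
  (.bad 0 384 [9, 0, 1, 3, 5, 6]))))))))))))))
  (.col 7 (.br 7 (.bad 4 8 [9, 0, 8, 7, 5, 4])
  (.br 6 (.bad 4 8 [9, 4, 6, 7, 5, 0])
  (.br 8 (.bad 5 8 [5, 9, 7, 0, 8, 6, 4])
  (.bad 2 8 [0, 4, 7, 9, 6, 8]))))))))
  (.br 1 (.col 15 (.br 8 (.col 10 (.col 22 (.bad 4 8 [9, 0, 4, 6, 8, 5])))
  (.br 9 (.col 0 (.col 3 (.col 6 (.col 9 (.br 18 (.col 18 (.col 24 (.col 8 (.col 11 (.bad 7 64 [9, 2, 4, 1, 8, 7, 3, 5])))))
  (.br 22 (.col 20 (.col 23 (.bad 0 320 [9, 1, 2, 3, 5, 7])))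
  (.br 24 (.col 17 (.col 18 (.col 13 (.bad 0 384 [9, 0, 1, 3, 5, 6]))))
  (.br 4 (.col 1 (.col 5 (.col 7 (.col 8 (.col 10 (.col 11 (.col 13 (.col 14 (.col 16 (.sol 0))))))))))
  (.col 1 (.col 5 (.col 8 (.col 13 (.br 15 (.col 16 (.col 23 (.col 4 (.sol 4))))
  (.bad 0 384 [9, 0, 1, 3, 5, 6]))))))))))))))
  (.col 3 (.br 20 (.bad 4 4 [9, 4, 7, 6, 5, 1])
  (.br 16 (.bad 4 4 [9, 1, 8, 7, 4, 5])
  (.br 10 (.bad 5 4 [4, 9, 7, 1, 8, 6, 5])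
  (.bad 2 4 [1, 5, 7, 9, 6, 8]))))))))
  (.br 12 (.col 14 (.col 16 (.br 2 (.bad 4 128 [9, 1, 4, 6, 3, 0])
  (.br 23 (.bad 4 128 [9, 0, 5, 4, 1, 3])
  (.br 24 (.bad 5 128 [1, 9, 4, 0, 5, 6, 3])
  (.bad 2 128 [0, 3, 4, 9, 5, 6]))))))
  (.br 23 (.col 13 (.col 17 (.br 3 (.bad 4 128 [9, 0, 5, 3, 8, 4])
  (.br 22 (.bad 5 128 [5, 9, 0, 4, 1, 8, 3])
  (.bad 2 128 [0, 3, 4, 9, 1, 8])))))
  (.br 11 (.col 13 (.col 14 (.br 15 (.bad 4 128 [9, 0, 1, 4, 5, 3])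
  (.br 3 (.bad 5 128 [3, 9, 8, 5, 0, 1, 4])
  (.br 18 (.col 18 (.br 4 (.col 1 (.col 5 (.col 7 (.col 8 (.col 9 (.col 10 (.col 11 (.col 20 (.sol 6)))))))))
  (.col 8 (.col 9 (.col 10 (.col 11 (.br 5 (.bad 4 2 [9, 4, 5, 6, 7, 2])
  (.br 19 (.bad 4 1 [9, 4, 5, 7, 6, 3])
  (.br 7 (.br 16 (.bad 4 256 [9, 0, 3, 2, 1, 5])
  (.bad 2 256 [1, 3, 5, 9, 2, 6]))
  (.bad 2 256 [0, 2, 5, 9, 3, 6]))))))))))
  (.bad 0 384 [9, 0, 1, 3, 5, 6]))))))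
  (.br 2 (.col 18 (.br 15 (.bad 5 128 [3, 9, 6, 0, 5, 4, 1])
  (.bad 2 128 [0, 1, 6, 9, 4, 5])))
  (.br 4 (.col 1 (.col 5 (.col 7 (.col 8 (.col 10 (.br 3 (.bad 4 8 [9, 0, 5, 7, 8, 4])
  (.br 14 (.bad 4 64 [9, 1, 3, 4, 7, 2])
  (.br 15 (.bad 4 32 [9, 0, 3, 8, 7, 2])
  (.br 13 (.bad 4 1 [9, 3, 5, 7, 8, 4])
  (.br 24 (.col 18 (.bad 2 128 [0, 3, 4, 9, 6, 8]))
  (.bad 2 128 [0, 1, 6, 9, 4, 5])))))))))))
  (.br 6 (.col 4 (.col 10 (.br 7 (.bad 4 8 [9, 0, 8, 6, 4, 5])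
  (.br 3 (.bad 5 8 [4, 9, 6, 0, 8, 7, 5])
  (.bad 2 8 [0, 5, 6, 9, 7, 8])))))
  (.br 9 (.col 0 (.col 2 (.col 3 (.col 8 (.col 9 (.col 11 (.br 22 (.bad 4 2 [9, 2, 4, 7, 8, 5])
  (.br 8 (.bad 4 64 [9, 1, 4, 3, 8, 5])
  (.br 18 (.col 25 (.br 7 (.bad 4 1 [9, 3, 8, 6, 4, 5])
  (.bad 2 8 [0, 5, 6, 9, 7, 8])))
  (.bad 0 320 [9, 1, 2, 3, 5, 7]))))))))))
  (.br 5 (.br 14 (.bad 4 16 [9, 1, 3, 6, 7, 2])
  (.br 15 (.col 17 (.col 23 (.col 6 (.br 18 (.col 24 (.col 25 (.col 19 (.col 20 (.sol 8)))))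
  (.bad 0 192 [9, 1, 3, 4, 5, 8])))))
  (.col 23 (.br 20 (.bad 4 32 [9, 2, 6, 8, 3, 0])
  (.br 24 (.bad 5 32 [3, 9, 8, 0, 7, 6, 2])
  (.bad 2 32 [0, 2, 8, 9, 6, 7]))))))
  (.br 14 (.col 11 (.col 16 (.col 18 (.br 19 (.bad 5 16 [2, 9, 8, 1, 7, 6, 3])
  (.bad 2 32 [0, 3, 6, 9, 7, 8])))))
  (.bad 1 0 [9, 1, 3, 4, 6, 7])))))))))))

def B_la00_111 : Dat where
  r := 4
  V := [[.i, .o, .o, .o],
    [.o, .i, .o, .o],
    [.o, .o, .i, .o],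
    [.o, .o, .o, .i],
    [.i, .o, .i, .o],
    [.o, .w, .o, .v],
    [.i, .i, .o, .o],
    [.o, .o, .i, .i],
    [.i, .w, .i, .v]]
  P := [[.i, .o, .o, .o],
    [.o, .i, .o, .o],
    [.o, .o, .i, .o],
    [.o, .o, .o, .i],
    [.i, .o, .i, .o],
    [.o, .w, .o, .v],
    [.i, .i, .o, .o],
    [.o, .o, .i, .i],
    [.i, .w, .i, .v],
    [.o, .o, .o, .o]]
  F := [[.i, .o, .o, .o],
    [.o, .i, .o, .o],
    [.i, .i, .o, .o],
    [.i, .v, .o, .o],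
    [.o, .o, .i, .o],
    [.i, .o, .i, .o],
    [.i, .i, .i, .o],
    [.o, .i, .w, .o],
    [.i, .i, .v, .o],
    [.o, .o, .o, .i],
    [.i, .i, .o, .i],
    [.o, .o, .i, .i],
    [.i, .o, .i, .i],
    [.o, .i, .i, .i],
    [.i, .i, .i, .i],
    [.i, .w, .i, .i],
    [.i, .o, .o, .w],
    [.o, .o, .i, .w],
    [.i, .i, .w, .w],
    [.o, .i, .o, .v],
    [.i, .i, .o, .v],
    [.i, .i, .i, .v],
    [.i, .o, .v, .v],
    [.o, .i, .v, .v],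
    [.i, .i, .v, .v]]
  ht := 0xe000a1018201700064013501c00143010601b000d00181009200c301440057014801090058013a006b018c00cc009d00ae
  ct := 0x120000000000000000000000000000000000000000000000000000000f000000000000000000000000000f000000000000030000003005868000000000000000000000000000000000000000000000000000000015000000000000000000000000001500000000000008000000a0044880000000000000000000000000007f00000000000005000001300149800000000000000500000130014980000000300143800040980220000000000000000000000000000000000000000000000000000000000018000000000000000000000000000e000000000000020000002002c580000000000000000000000000000f0000000000000000000000000b800000000000000100000010030080000007f000008000000801600000000000000000000000000000001500000000000004000001400102000000000000000600000090024480000000200102000024480fe000000000000000000500000130014980000000001fc20000009800800000000000100140800027f8012000000000080080000012000000000000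
  cl := [(7, 0, 0x10201),
    (11, 1, 0x92),
    (19, 0, 0x1220),
    (22, 1, 0x80202),
    (25, 0, 0x62),
    (35, 1, 0x880010),
    (37, 0, 0x180001),
    (41, 0, 0x31),
    (70, 2, 0x20a10),
    (69, 0, 0x100604),
    (73, 0, 0x154),
    (81, 0, 0x204240),
    (97, 0, 0x1300010),
    (131, 1, 0x802802),
    (131, 0, 0x401801),
    (137, 0, 0xf),
    (145, 0, 0xd002),
    (161, 0, 0x1808001),
    (193, 0, 0x1044804),
    (259, 1, 0xa2080),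
    (259, 0, 0x430020),
    (261, 0, 0x90408),
    (265, 0, 0x1a8),
    (289, 0, 0x288020),
    (321, 0, 0x260500),
    (385, 0, 0x44a008)]
  sl := [0x8a2a92, 0x431a31, 0x19060f, 0x1ff, 0x28d262, 0x1b88031, 0x1364f54, 0x1c4f80f, 0x6fa5a8, 0x1ffffff]
  t := B_la00_111_t

theorem B_la00_111_okD : B_la00_111.ckD = true := by decide +kernel

theorem B_la00_111_okT : B_la00_111.ckT TTab B_la00_111.t 0 0 = true := by decide +kernel

theorem lext_la00_111 : LExt 4 9 (vecL 4 B_la00_111.V) (vecP 4 B_la00_111.P) :=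
  lext_of_chk' B_la00_111 B_la00_111_okD B_la00_111_okT (by decide)

end QG
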