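import Pool.Agent.Lib.QG.BC8

/-! MP_2e6874_co, part (B): data for la10_011. -/

set_option autoImplicit false
set_option maxRecDepth 100000

namespace QG

def B_la10_011_t : Tr :=
  .br 0 (.br 4 (.col 13 (.br 9 (.col 11 (.col 12 (.col 14 (.col 15 (.br 1 (.col 1 (.col 2 (.col 3 (.col 4 (.col 5 (.col 6 (.col 7 (.col 8 (.col 9 (.col 16 (.sol 11)))))))))))
  (.col 1 (.col 2 (.col 3 (.col 4 (.col 5 (.col 6 (.col 7 (.col 8 (.col 9 (.col 16 (.sol 6))))))))))))))))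
  (.col 11 (.col 12 (.col 14 (.col 15 (.br 1 (.col 1 (.col 2 (.col 3 (.col 4 (.col 5 (.col 6 (.col 7 (.col 8 (.col 9 (.col 16 (.sol 3)))))))))))
  (.col 1 (.col 2 (.col 3 (.col 9 (.br 19 (.bad 4 128 [8, 0, 1, 4, 6, 2])
  (.br 11 (.bad 4 32 [8, 0, 2, 3, 6, 1])
  (.br 15 (.bad 4 2 [8, 3, 6, 5, 4, 0])
  (.br 14 (.col 20 (.bad 2 32 [1, 2, 6, 8, 4, 7]))
  (.bad 2 1 [1, 4, 6, 8, 5, 7]))))))))))))))))
  (.col 13 (.br 7 (.col 9 (.col 19 (.bad 4 8 [8, 1, 2, 5, 7, 0])))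
  (.br 18 (.col 10 (.col 14 (.col 15 (.col 12 (.br 3 (.bad 4 32 [8, 0, 1, 4, 6, 2])
  (.col 2 (.br 19 (.bad 4 2 [8, 0, 7, 6, 3, 4])
  (.br 12 (.bad 5 2 [3, 8, 6, 0, 7, 5, 4])
  (.bad 2 2 [0, 4, 6, 8, 5, 7])))))))))
  (.br 20 (.col 11 (.col 12 (.col 21 (.bad 0 96 [8, 0, 2, 3, 4, 7]))))
  (.br 9 (.col 11 (.col 12 (.col 15 (.br 14 (.col 6 (.col 16 (.bad 4 1 [8, 1, 4, 5, 7, 3])))
  (.br 1 (.col 1 (.col 2 (.col 3 (.col 4 (.col 5 (.col 7 (.col 8 (.col 16 (.sol 2)))))))))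
  (.col 3 (.col 5 (.col 8 (.br 12 (.col 7 (.col 17 (.sol 1)))
  (.bad 0 160 [8, 0, 1, 2, 4, 6]))))))))))
  (.col 12 (.br 1 (.col 1 (.col 3 (.col 5 (.col 8 (.col 16 (.br 15 (.bad 4 32 [8, 1, 4, 3, 2, 0])
  (.br 13 (.bad 4 32 [8, 0, 6, 3, 2, 1])
  (.br 21 (.col 20 (.bad 2 32 [0, 2, 4, 8, 1, 7]))
  (.bad 0 96 [8, 0, 2, 3, 4, 7])))))))))
  (.col 3 (.br 3 (.col 0 (.col 2 (.col 4 (.col 7 (.br 11 (.col 6 (.col 8 (.col 15 (.sol 8))))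
  (.col 6 (.br 21 (.col 20 (.bad 7 32 [8, 1, 3, 0, 7, 6, 2, 4]))
  (.bad 0 96 [8, 0, 2, 3, 4, 7]))))))))
  (.col 2 (.br 19 (.bad 4 2 [8, 0, 7, 6, 3, 4])
  (.br 15 (.bad 4 2 [8, 3, 6, 5, 4, 0])
  (.br 12 (.col 20 (.bad 2 128 [0, 2, 4, 8, 5, 6]))
  (.bad 2 2 [0, 4, 6, 8, 5, 7])))))))))))))))
  (.br 4 (.col 13 (.br 1 (.col 1 (.col 2 (.col 3 (.col 9 (.br 16 (.col 12 (.col 18 (.col 20 (.col 5 (.col 6 (.col 7 (.br 18 (.bad 4 32 [8, 0, 1, 4, 6, 2])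
  (.bad 0 96 [8, 0, 2, 3, 4, 7]))))))))
  (.col 18 (.br 18 (.col 10 (.col 15 (.col 6 (.col 7 (.bad 0 160 [8, 0, 1, 2, 4, 6])))))
  (.br 21 (.col 15 (.col 20 (.col 6 (.col 7 (.bad 7 32 [8, 1, 3, 0, 7, 6, 2, 4])))))
  (.br 9 (.col 0 (.col 4 (.col 5 (.col 6 (.col 7 (.col 11 (.sol 0)))))))
  (.col 0 (.col 5 (.col 6 (.col 11 (.br 12 (.col 7 (.sol 9))
  (.bad 0 160 [8, 0, 1, 2, 4, 6])))))))))))))))
  (.col 1 (.br 6 (.bad 4 8 [8, 0, 6, 7, 1, 2])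
  (.br 2 (.bad 4 8 [8, 0, 6, 5, 2, 1])
  (.br 7 (.bad 5 8 [0, 8, 6, 1, 7, 5, 2])
  (.bad 2 8 [1, 2, 6, 8, 5, 7])))))))
  (.br 9 (.col 11 (.col 12 (.br 12 (.col 7 (.col 17 (.bad 4 2 [8, 0, 4, 5, 7, 3])))
  (.br 14 (.col 6 (.col 16 (.bad 4 1 [8, 1, 4, 5, 7, 3])))
  (.br 17 (.col 8 (.col 20 (.br 3 (.bad 4 32 [8, 0, 3, 2, 7, 4])
  (.br 5 (.col 13 (.col 14 (.br 15 (.bad 5 32 [1, 8, 4, 0, 6, 3, 2])
  (.bad 9 32 [2, 8, 7, 6, 1, 4, 0, 3]))))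
  (.bad 2 32 [0, 1, 3, 8, 6, 7])))))
  (.br 8 (.col 13 (.col 14 (.col 15 (.br 7 (.col 9 (.col 10 (.col 19 (.col 0 (.sol 4)))))
  (.bad 0 160 [8, 0, 1, 2, 4, 6])))))
  (.col 14 (.br 1 (.col 1 (.col 3 (.col 5 (.col 10 (.br 21 (.col 15 (.bad 7 32 [8, 2, 4, 0, 7, 6, 1, 3]))
  (.bad 0 160 [8, 0, 1, 2, 4, 6]))))))
  (.col 5 (.br 3 (.col 0 (.col 2 (.col 4 (.br 2 (.col 9 (.col 15 (.sol 10)))
  (.col 9 (.br 21 (.bad 7 32 [8, 1, 3, 0, 7, 6, 2, 4])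
  (.bad 0 160 [8, 0, 1, 2, 4, 6])))))))
  (.col 0 (.br 21 (.col 15 (.col 20 (.br 2 (.br 6 (.bad 4 8 [8, 1, 7, 5, 2, 0])
  (.col 4 (.bad 2 32 [0, 2, 4, 8, 1, 7])))
  (.bad 2 8 [0, 2, 7, 8, 5, 6]))))
  (.bad 2 128 [1, 2, 6, 8, 0, 5])))))))))))))
  (.br 3 (.col 0 (.col 1 (.col 2 (.br 8 (.bad 4 8 [8, 0, 1, 7, 6, 2])
  (.br 16 (.bad 4 2 [8, 0, 3, 6, 7, 4])
  (.br 20 (.bad 4 1 [8, 1, 3, 6, 7, 4])
  (.br 2 (.col 9 (.br 10 (.col 7 (.col 8 (.col 10 (.col 15 (.col 20 (.sol 5))))))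
  (.col 8 (.col 10 (.col 15 (.bad 2 64 [0, 2, 4, 8, 5, 7]))))))
  (.col 9 (.br 10 (.col 7 (.col 8 (.col 15 (.col 20 (.bad 2 128 [0, 2, 4, 8, 5, 6])))))
  (.col 7 (.br 11 (.col 6 (.col 8 (.col 15 (.bad 2 128 [1, 2, 6, 8, 4, 5]))))
  (.col 6 (.br 18 (.bad 4 32 [8, 0, 1, 4, 6, 2])
  (.br 21 (.col 20 (.bad 2 4 [3, 4, 7, 8, 5, 6]))
  (.bad 0 96 [8, 0, 2, 3, 4, 7])))))))))))))))
  (.br 2 (.col 3 (.col 9 (.br 6 (.bad 4 8 [8, 1, 7, 5, 2, 0])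
  (.br 8 (.bad 5 8 [2, 8, 5, 0, 6, 7, 1])
  (.bad 2 8 [0, 1, 5, 8, 6, 7])))))
  (.br 10 (.col 7 (.col 8 (.col 12 (.br 7 (.bad 4 32 [8, 1, 2, 3, 4, 0])
  (.br 6 (.bad 4 2 [8, 3, 4, 5, 6, 0])
  (.br 14 (.bad 5 32 [0, 8, 7, 4, 1, 2, 3])
  (.br 21 (.col 15 (.br 1 (.bad 4 8 [8, 0, 2, 5, 6, 1])
  (.br 19 (.bad 5 2 [0, 8, 7, 3, 6, 5, 4])
  (.bad 2 128 [0, 2, 4, 8, 1, 5]))))
  (.bad 0 160 [8, 0, 1, 2, 4, 6]))))))))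
  (.br 5 (.col 9 (.col 13 (.col 15 (.br 11 (.bad 4 32 [8, 0, 2, 3, 6, 1])
  (.br 1 (.bad 4 8 [8, 0, 2, 5, 6, 1])
  (.br 15 (.bad 5 32 [1, 8, 4, 0, 6, 3, 2])
  (.br 6 (.bad 5 8 [1, 8, 7, 0, 6, 5, 2])
  (.bad 2 16 [1, 2, 6, 8, 5, 7]))))))))
  (.br 11 (.col 5 (.col 6 (.br 19 (.bad 4 1 [8, 1, 7, 5, 4, 3])
  (.br 20 (.bad 5 1 [4, 8, 5, 1, 7, 6, 3])
  (.bad 2 1 [1, 3, 5, 8, 6, 7])))))
  (.br 1 (.br 13 (.bad 4 1 [8, 3, 4, 5, 6, 1])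
  (.br 6 (.col 4 (.col 19 (.col 10 (.br 21 (.col 20 (.col 21 (.col 16 (.sol 7))))
  (.bad 0 96 [8, 0, 2, 3, 4, 7])))))
  (.col 19 (.br 18 (.col 10 (.bad 11 0 [2, 8, 6, 3, 5, 1, 4, 0]))
  (.bad 2 64 [0, 2, 4, 8, 3, 5])))))
  (.br 13 (.col 15 (.br 15 (.bad 4 32 [8, 0, 6, 4, 1, 2])
  (.br 7 (.bad 5 32 [0, 8, 6, 1, 4, 3, 2])
  (.bad 2 32 [1, 2, 6, 8, 3, 4]))))
  (.bad 1 0 [8, 0, 2, 3, 5, 6]))))))))))

def B_la10_011 : Dat where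
  r := 4
  V := [[.i, .o, .o, .o],
    [.o, .i, .o, .o],
    [.o, .o, .i, .o],
    [.o, .o, .o, .i],
    [.w, .o, .v, .o],
    [.i, .i, .o, .i],
    [.o, .i, .i, .o],
    [.w, .o, .v, .i]]
  P := [[.i, .o, .o, .o],
    [.o, .i, .o, .o],
    [.o, .o, .i, .o],
    [.o, .o, .o, .i],
    [.w, .o, .v, .o],
    [.i, .i, .o, .i],
    [.o, .i, .i, .o],
    [.w, .o, .v, .i],
    [.o, .i, .o, .i],
    [.i, .o, .o, .i],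
    [.i, .i, .o, .o],
    [.o, .o, .o, .o]]
  F := [[.i, .o, .o, .o],
    [.o, .i, .o, .o],
    [.i, .i, .o, .o],
    [.o, .o, .i, .o],
    [.o, .i, .i, .o],
    [.i, .i, .i, .o],
    [.i, .o, .v, .o],
    [.i, .i, .v, .o],
    [.i, .v, .v, .o],
    [.o, .o, .o, .i],
    [.i, .o, .o, .i],
    [.o, .i, .o, .i],
    [.i, .o, .i, .i],
    [.o, .i, .i, .i],
    [.o, .i, .w, .i],
    [.i, .o, .v, .i],
    [.i, .o, .o, .w],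
    [.i, .v, .o, .w],
    [.i, .v, .v, .w],
    [.o, .o, .i, .v],
    [.o, .i, .i, .v],
    [.i, .w, .w, .v]]
  ht := 0xe000c10083007000a400c6003200a1006100a200350066005700d800b8009a00680049002b002c009d004e
  ct := 0x1500000000000000000000000000080000000000000800000100040a00000000000000000000000000000700000000000007000001100307000000000000007f000000100180800000001001808000400802600000000000000000000000000000001200000000000005000000a002868000000000000008000000900244800000000000020001fc480120000000000000000007000000b003c5800000002000c18000285800600000000000100180800027f8012000000000080060000012000000000000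
  cl := [(7, 2, 0x80208),
    (11, 1, 0x1a),
    (11, 0, 0x49),
    (13, 0, 0x7),
    (19, 0, 0x8240),
    (22, 1, 0xa02),
    (35, 1, 0x6808),
    (35, 0, 0x9408),
    (37, 0, 0x20c04),
    (41, 0, 0xac),
    (49, 0, 0x48880),
    (67, 1, 0x102210),
    (69, 0, 0x10601),
    (73, 0, 0x131),
    (81, 0, 0x40300),
    (97, 0, 0x242420),
    (131, 1, 0x184002),
    (131, 0, 0x91040),
    (133, 0, 0x30002),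
    (145, 0, 0x1c2),
    (161, 0, 0x225080),
    (193, 0, 0x310100)]
  sl := [0x186a1a, 0x99649, 0x30e07, 0x1ff, 0x48bc2, 0x26fcac, 0x352731, 0x3b51c2, 0x6849, 0x941a, 0x802ac, 0x3fffff]
  t := B_la10_011_t

theorem B_la10_011_okD : B_la10_011.ckD = true := by decide +kernel

theorem B_la10_011_okT : B_la10_011.ckT TTab B_la10_011.t 0 0 = true := by decide +kernel

theorem lext_la10_011 : LExt 4 8 (vecL 4 B_la10_011.V) (vecP 4 B_la10_011.P) :=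
  lext_of_chk' B_la10_011 B_la10_011_okD B_la10_011_okT (by decide)

end QG
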