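import Pool.Agent.Lib.QG.BC8

/-! MP_2e6874_co, part (B): data for la10_012. -/

set_option autoImplicit false
set_option maxRecDepth 100000

namespace QG

def B_la10_012_t : Tr :=
  .br 0 (.br 4 (.col 37 (.br 17 (.col 33 (.col 34 (.col 35 (.col 36 (.br 1 (.col 24 (.col 25 (.col 26 (.col 27 (.col 28 (.col 30 (.col 54 (.br 9 (.col 13 (.col 15 (.col 16 (.col 17 (.col 18 (.col 38 (.col 39 (.col 40 (.col 41 (.col 42 (.col 43 (.sol 13))))))))))))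
  (.col 13 (.col 15 (.col 16 (.col 17 (.col 18 (.col 38 (.col 39 (.col 40 (.col 41 (.col 42 (.col 43 (.sol 8))))))))))))))))))))
  (.col 24 (.col 25 (.col 26 (.col 27 (.col 28 (.col 30 (.col 54 (.br 9 (.col 13 (.col 15 (.col 16 (.col 17 (.col 18 (.col 38 (.col 42 (.col 43 (.col 44 (.col 49 (.col 50 (.sol 7))))))))))))
  (.col 13 (.col 16 (.col 18 (.col 49 (.br 30 (.bad 4 513 [10, 1, 3, 7, 8, 6])
  (.br 13 (.bad 4 66 [10, 5, 9, 8, 7, 0])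
  (.br 11 (.bad 4 48 [10, 2, 9, 7, 8, 3])
  (.bad 2 544 [0, 2, 6, 10, 1, 8])))))))))))))))))))))
  (.col 33 (.col 34 (.col 35 (.col 36 (.br 1 (.col 24 (.col 29 (.col 30 (.col 31 (.col 32 (.col 54 (.col 55 (.col 56 (.col 23 (.br 26 (.col 43 (.col 44 (.bad 4 544 [10, 1, 2, 3, 6, 0])))
  (.br 32 (.col 15 (.col 17 (.col 19 (.col 20 (.col 21 (.bad 4 160 [10, 0, 9, 3, 6, 4]))))))
  (.br 9 (.col 13 (.col 17 (.col 19 (.col 20 (.col 21 (.col 38 (.col 39 (.col 40 (.col 41 (.col 46 (.col 47 (.sol 6))))))))))))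
  (.col 19 (.col 20 (.col 21 (.col 46 (.col 47 (.br 16 (.col 17 (.col 45 (.col 51 (.sol 3))))
  (.bad 0 672 [10, 0, 2, 3, 6, 8])))))))))))))))))))
  (.col 29 (.col 30 (.col 31 (.col 32 (.br 33 (.bad 4 257 [10, 1, 9, 7, 6, 4])
  (.br 23 (.bad 4 258 [10, 4, 5, 7, 6, 0])
  (.br 19 (.bad 4 257 [10, 4, 5, 7, 6, 1])
  (.br 20 (.col 57 (.bad 2 288 [0, 2, 4, 10, 7, 9]))
  (.bad 2 258 [0, 4, 7, 10, 5, 9]))))))))))))))))
  (.col 37 (.br 7 (.col 32 (.col 58 (.bad 4 72 [10, 1, 2, 5, 9, 0])))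
  (.br 14 (.col 21 (.col 48 (.col 53 (.br 3 (.bad 4 96 [10, 0, 1, 9, 7, 2])
  (.col 30 (.br 2 (.bad 5 96 [2, 10, 8, 0, 7, 9, 1])
  (.col 31 (.bad 11 64 [2, 10, 9, 8, 5, 0, 7, 1]))))))))
  (.br 16 (.col 17 (.col 51 (.bad 4 136 [10, 2, 8, 5, 9, 4])))
  (.br 29 (.col 18 (.col 35 (.col 36 (.col 12 (.col 34 (.br 9 (.bad 4 144 [10, 2, 9, 5, 8, 3])
  (.col 20 (.br 26 (.bad 4 6 [10, 3, 6, 5, 9, 4])
  (.bad 2 640 [3, 6, 8, 10, 2, 5])))))))))
  (.br 31 (.col 11 (.col 12 (.bad 4 136 [10, 0, 9, 2, 8, 4])))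
  (.br 34 (.col 33 (.col 34 (.col 59 (.bad 0 416 [10, 0, 2, 4, 6, 9]))))
  (.br 35 (.col 36 (.col 52 (.br 15 (.bad 4 160 [10, 3, 4, 8, 9, 6])
  (.col 12 (.br 9 (.col 20 (.bad 5 160 [6, 10, 2, 3, 9, 8, 4]))
  (.bad 2 640 [0, 2, 6, 10, 3, 5]))))))
  (.br 9 (.col 19 (.col 20 (.col 49 (.br 26 (.col 16 (.col 34 (.col 36 (.col 50 (.br 22 (.col 25 (.col 27 (.col 31 (.col 54 (.bad 4 257 [10, 1, 4, 5, 9, 6])))))
  (.br 1 (.col 24 (.col 25 (.col 26 (.col 27 (.col 30 (.col 39 (.col 41 (.col 43 (.col 44 (.col 54 (.sol 2)))))))))))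
  (.col 24 (.col 27 (.col 41 (.col 44 (.br 20 (.col 26 (.col 30 (.col 40 (.col 43 (.col 55 (.sol 1))))))
  (.bad 0 800 [10, 0, 1, 2, 6, 7]))))))))))))
  (.bad 0 672 [10, 0, 2, 3, 6, 8])))))
  (.col 20 (.br 32 (.col 52 (.br 1 (.col 39 (.col 42 (.bad 4 513 [10, 3, 6, 5, 7, 1])))
  (.col 31 (.br 3 (.col 9 (.col 30 (.br 11 (.col 8 (.col 15 (.col 16 (.col 25 (.col 26 (.col 27 (.col 33 (.col 34 (.col 42 (.col 44 (.col 54 (.col 12 (.sol 10)))))))))))))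
  (.col 8 (.col 15 (.col 42 (.bad 4 33 [10, 3, 6, 7, 9, 4])))))))
  (.col 30 (.br 13 (.bad 4 66 [10, 5, 9, 8, 7, 0])
  (.br 11 (.col 8 (.col 15 (.col 5 (.br 18 (.bad 4 36 [10, 4, 6, 7, 8, 3])
  (.bad 0 416 [10, 0, 2, 4, 6, 9])))))
  (.bad 2 96 [1, 2, 7, 10, 8, 9]))))))))
  (.bad 2 640 [3, 6, 8, 10, 0, 5])))))))))))))
  (.br 4 (.col 37 (.br 1 (.col 29 (.col 30 (.col 31 (.col 32 (.br 14 (.col 21 (.col 48 (.bad 4 96 [10, 0, 1, 9, 7, 2])))
  (.br 16 (.col 17 (.col 51 (.bad 4 136 [10, 0, 8, 5, 9, 4])))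
  (.br 24 (.col 12 (.col 40 (.col 41 (.bad 4 40 [10, 1, 8, 2, 9, 4]))))
  (.col 41 (.br 27 (.col 34 (.col 56 (.col 57 (.col 24 (.bad 4 288 [10, 0, 6, 2, 9, 4])))))
  (.col 56 (.br 29 (.col 28 (.col 36 (.col 25 (.col 26 (.bad 0 800 [10, 0, 1, 2, 6, 7])))))
  (.br 35 (.col 36 (.col 52 (.col 25 (.br 15 (.bad 4 160 [10, 3, 4, 8, 9, 6])
  (.br 11 (.col 8 (.bad 5 160 [6, 10, 0, 3, 9, 8, 4]))
  (.bad 2 36 [3, 4, 7, 10, 8, 9]))))))
  (.br 9 (.col 19 (.col 20 (.col 46 (.col 47 (.col 50 (.br 32 (.col 15 (.col 16 (.col 25 (.col 26 (.col 33 (.col 42 (.col 49 (.col 54 (.sol 0)))))))))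
  (.bad 0 672 [10, 0, 2, 3, 6, 8])))))))
  (.col 19 (.col 47 (.br 26 (.col 52 (.br 10 (.col 9 (.col 16 (.col 26 (.col 27 (.col 34 (.col 36 (.col 43 (.col 55 (.col 57 (.col 11 (.col 33 (.sol 11))))))))))))
  (.col 9 (.col 16 (.col 43 (.bad 4 34 [10, 3, 6, 7, 9, 4]))))))
  (.bad 2 640 [3, 6, 8, 10, 2, 5])))))))))))))))))
  (.col 29 (.br 2 (.bad 4 72 [10, 0, 7, 5, 2, 1])
  (.br 6 (.bad 4 72 [10, 0, 7, 9, 1, 2])
  (.br 7 (.bad 5 72 [0, 10, 7, 1, 9, 5, 2])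
  (.bad 2 72 [1, 2, 7, 10, 5, 9])))))))
  (.br 17 (.col 33 (.col 34 (.br 9 (.col 13 (.col 15 (.col 16 (.col 49 (.col 50 (.br 20 (.col 26 (.col 43 (.bad 4 34 [10, 3, 4, 8, 9, 6])))
  (.br 22 (.col 25 (.col 42 (.col 47 (.col 54 (.bad 4 257 [10, 1, 4, 5, 9, 6])))))
  (.br 28 (.col 27 (.col 44 (.bad 4 36 [10, 3, 4, 8, 9, 6])))
  (.br 7 (.col 57 (.br 1 (.col 24 (.col 25 (.col 27 (.col 28 (.col 32 (.col 35 (.col 39 (.col 41 (.col 45 (.col 47 (.col 48 (.col 54 (.col 58 (.sol 4))))))))))))))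
  (.col 24 (.col 28 (.col 35 (.col 47 (.col 48 (.col 58 (.br 16 (.col 17 (.col 32 (.col 45 (.col 22 (.sol 12)))))
  (.bad 0 672 [10, 0, 2, 3, 6, 8]))))))))))
  (.br 35 (.col 36 (.col 52 (.bad 4 160 [10, 3, 4, 8, 9, 6])))
  (.bad 0 800 [10, 0, 1, 2, 6, 7])))))))))))
  (.col 13 (.br 12 (.bad 4 129 [10, 4, 8, 5, 6, 3])
  (.br 10 (.bad 4 6 [10, 4, 8, 5, 6, 3])
  (.br 31 (.bad 4 129 [10, 3, 9, 8, 4, 6])
  (.br 24 (.bad 4 6 [10, 3, 9, 8, 4, 6])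
  (.br 26 (.br 32 (.col 52 (.col 53 (.col 18 (.bad 4 144 [10, 2, 8, 5, 9, 3]))))
  (.bad 2 129 [3, 6, 8, 10, 5, 9]))
  (.bad 2 6 [3, 6, 8, 10, 5, 9]))))))))))
  (.br 3 (.col 22 (.col 29 (.col 30 (.br 27 (.bad 4 258 [10, 0, 6, 7, 9, 4])
  (.br 34 (.bad 4 257 [10, 1, 6, 7, 9, 4])
  (.br 8 (.bad 4 72 [10, 0, 1, 9, 7, 2])
  (.br 9 (.col 13 (.col 19 (.col 20 (.col 38 (.col 47 (.col 49 (.col 50 (.col 53 (.br 29 (.bad 4 144 [10, 2, 9, 5, 8, 3])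
  (.br 18 (.bad 4 6 [10, 4, 6, 5, 8, 3])
  (.col 26 (.br 21 (.bad 4 129 [10, 4, 6, 5, 8, 3])
  (.col 25 (.br 35 (.col 36 (.col 57 (.col 32 (.br 25 (.bad 4 40 [10, 1, 8, 2, 9, 4])
  (.bad 2 36 [3, 4, 7, 10, 8, 9])))))
  (.bad 2 160 [0, 2, 4, 10, 8, 9])))))))))))))))
  (.br 15 (.col 2 (.col 11 (.col 12 (.br 10 (.col 9 (.col 16 (.col 26 (.br 2 (.col 3 (.col 10 (.col 27 (.col 28 (.col 32 (.col 36 (.col 42 (.col 45 (.col 48 (.col 8 (.sol 5)))))))))))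
  (.col 10 (.col 27 (.col 28 (.col 32 (.col 36 (.col 42 (.bad 2 768 [0, 2, 6, 10, 5, 7])))))))))))
  (.col 9 (.col 16 (.br 2 (.col 32 (.col 36 (.bad 2 384 [0, 2, 4, 10, 5, 9])))
  (.col 32 (.col 45 (.br 11 (.col 8 (.col 15 (.col 21 (.col 36 (.bad 2 640 [3, 6, 8, 10, 2, 5])))))
  (.col 8 (.col 15 (.br 14 (.bad 4 96 [10, 0, 1, 9, 7, 2])
  (.col 18 (.br 35 (.bad 4 160 [10, 3, 4, 8, 9, 6])
  (.bad 0 672 [10, 0, 2, 3, 6, 8]))))))))))))))))
  (.col 2 (.br 31 (.bad 4 9 [10, 5, 8, 7, 9, 4])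
  (.br 24 (.bad 4 10 [10, 5, 8, 7, 9, 4])
  (.bad 1 128 [10, 0, 2, 3, 8, 9]))))))))))))
  (.br 2 (.col 31 (.col 32 (.br 6 (.bad 4 72 [10, 1, 9, 5, 2, 0])
  (.br 8 (.bad 5 72 [2, 10, 5, 0, 7, 9, 1])
  (.bad 2 72 [0, 1, 5, 10, 7, 9])))))
  (.br 18 (.col 26 (.col 27 (.col 34 (.br 7 (.bad 4 288 [10, 1, 2, 6, 4, 0])
  (.br 6 (.bad 4 258 [10, 4, 6, 7, 5, 0])
  (.br 33 (.bad 5 258 [0, 10, 9, 4, 5, 7, 6])
  (.br 22 (.bad 5 288 [0, 10, 9, 4, 1, 2, 6])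
  (.br 35 (.col 36 (.br 1 (.bad 4 72 [10, 0, 2, 5, 7, 1])
  (.bad 2 768 [0, 2, 6, 10, 1, 5])))
  (.bad 0 800 [10, 0, 1, 2, 6, 7])))))))))
  (.br 5 (.col 32 (.col 36 (.col 37 (.br 1 (.bad 4 72 [10, 0, 2, 5, 7, 1])
  (.br 19 (.bad 4 288 [10, 0, 2, 6, 7, 1])
  (.br 23 (.bad 5 288 [1, 10, 4, 0, 7, 6, 2])
  (.br 6 (.bad 5 72 [1, 10, 9, 0, 7, 5, 2])
  (.bad 2 272 [1, 2, 7, 10, 5, 9]))))))))
  (.br 10 (.col 9 (.col 10 (.col 16 (.col 21 (.br 16 (.bad 4 160 [10, 2, 6, 3, 9, 4])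
  (.br 32 (.bad 4 160 [10, 0, 9, 2, 6, 4])
  (.br 35 (.br 7 (.bad 4 96 [10, 1, 2, 8, 9, 0])
  (.col 57 (.br 25 (.bad 4 36 [10, 3, 9, 7, 6, 4])
  (.br 19 (.bad 4 36 [10, 4, 8, 7, 6, 3])
  (.bad 2 36 [3, 4, 7, 10, 8, 9])))))
  (.bad 0 672 [10, 0, 2, 3, 6, 8]))))))))
  (.br 12 (.col 8 (.col 21 (.br 13 (.bad 4 96 [10, 0, 7, 9, 1, 2])
  (.br 7 (.bad 5 96 [0, 10, 7, 1, 9, 8, 2])
  (.bad 2 96 [1, 2, 7, 10, 8, 9])))))
  (.br 19 (.col 24 (.col 25 (.br 33 (.bad 4 257 [10, 1, 9, 5, 4, 6])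
  (.br 34 (.bad 5 257 [4, 10, 5, 1, 9, 7, 6])
  (.bad 2 257 [1, 5, 6, 10, 7, 9])))))
  (.br 1 (.br 21 (.bad 4 257 [10, 4, 6, 7, 5, 1])
  (.br 6 (.col 23 (.col 58 (.col 28 (.br 35 (.col 57 (.col 59 (.col 54 (.br 9 (.col 13 (.col 38 (.col 39 (.col 40 (.col 41 (.col 42 (.col 43 (.col 45 (.col 48 (.sol 9))))))))))
  (.col 38 (.col 42 (.col 48 (.br 15 (.bad 4 3 [10, 5, 7, 8, 9, 6])
  (.bad 0 1184 [0, 2, 3, 4, 6, 8])))))))))
  (.bad 0 416 [10, 0, 2, 4, 6, 9])))))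
  (.col 58 (.br 29 (.col 28 (.bad 11 256 [2, 10, 7, 6, 5, 1, 4, 0]))
  (.bad 2 384 [0, 2, 4, 10, 5, 6])))))
  (.br 21 (.col 15 (.col 36 (.br 9 (.bad 4 129 [10, 4, 6, 5, 8, 3])
  (.br 11 (.bad 4 33 [10, 4, 6, 7, 8, 3])
  (.br 14 (.bad 4 160 [10, 0, 8, 4, 6, 3])
  (.br 26 (.col 44 (.col 50 (.bad 2 260 [4, 6, 9, 10, 5, 7])))
  (.bad 2 160 [4, 6, 9, 10, 2, 8])))))))
  (.bad 1 256 [10, 0, 2, 5, 6, 7]))))))))))))

def B_la10_012 : Dat where
  r := 5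
  V := [[.i, .o, .o, .o, .o],
    [.o, .i, .o, .o, .o],
    [.o, .o, .i, .o, .o],
    [.o, .o, .o, .i, .o],
    [.w, .o, .v, .o, .o],
    [.i, .i, .o, .i, .o],
    [.o, .o, .o, .o, .i],
    [.o, .i, .i, .o, .o],
    [.o, .o, .o, .i, .i],
    [.w, .o, .v, .o, .i]]
  P := [[.i, .o, .o, .o, .o],
    [.o, .i, .o, .o, .o],
    [.o, .o, .i, .o, .o],
    [.o, .o, .o, .i, .o],
    [.w, .o, .v, .o, .o],
    [.i, .i, .o, .i, .o],
    [.o, .o, .o, .o, .i],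
    [.o, .i, .i, .o, .o],
    [.o, .o, .o, .i, .i],
    [.w, .o, .v, .o, .i],
    [.o, .i, .o, .i, .o],
    [.i, .o, .o, .i, .o],
    [.i, .i, .o, .o, .o],
    [.o, .o, .o, .o, .o]]
  F := [[.i, .o, .o, .o, .o],
    [.o, .i, .o, .o, .o],
    [.i, .i, .o, .o, .o],
    [.o, .o, .i, .o, .o],
    [.o, .i, .i, .o, .o],
    [.i, .i, .i, .o, .o],
    [.i, .o, .v, .o, .o],
    [.i, .i, .v, .o, .o],
    [.i, .v, .v, .o, .o],
    [.o, .o, .o, .i, .o],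
    [.i, .o, .o, .i, .o],
    [.o, .i, .o, .i, .o],
    [.o, .i, .i, .i, .o],
    [.i, .o, .v, .i, .o],
    [.i, .v, .v, .w, .o],
    [.o, .o, .o, .o, .i],
    [.i, .i, .i, .o, .i],
    [.o, .o, .o, .i, .i],
    [.i, .o, .o, .i, .i],
    [.o, .i, .o, .i, .i],
    [.i, .o, .i, .i, .i],
    [.o, .i, .i, .i, .i],
    [.o, .i, .w, .i, .i],
    [.i, .o, .v, .i, .i],
    [.i, .o, .o, .o, .w],
    [.i, .i, .o, .o, .w],
    [.i, .o, .o, .i, .w],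
    [.i, .o, .o, .w, .w],
    [.i, .v, .o, .w, .w],
    [.i, .v, .v, .w, .w],
    [.o, .o, .i, .o, .v],
    [.o, .i, .i, .o, .v],
    [.o, .i, .i, .i, .v],
    [.o, .o, .i, .v, .v],
    [.o, .i, .i, .v, .v],
    [.i, .w, .w, .v, .v]]
  ht := 0x3a00381030302a10289022b01b00324038602a6022c028e0132032101a10322013501a6019702a800bf02f0027200e1027500e602d703d80378035a01e801c9016b016c035d01ce
  ct := 0x800000000000000000000000000000000000000000000000000000023000000000000000000000000000800000000000008000001b006d10000000000000000000000000000000000000000000000000000000007000000000000000000000000007f0000000000007f00000010018080000000000000000000000000000700000000000007000001c0050b000000000000007f0000001001808000000010018080006c08042000000000000000000000000000000000000000000000000000000000000e000000000000000000000000007f0000000000000800000090024480000000000000000000000000000e00000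000000010000001a0069000000000000000080000009002448000000180060f8001fc4801200000000000000000000000000000007f00000000000007000000b00345800000000000007f000007f01fff80000000100180800027f80120000000000000000007000000b003458000000190078f0000685803c00000000000100180800027f80120000000600803c00000120000000000000000000000000000000000000000000000000000000000000000000500000000000000000000000000080000000000007f00000000000200000000000000000000000000001d0000000000000500000120048a8000000000000008000001100448800000000000020001fc880220000000000000000000000000000000070000000000007f0000002000c1800000000000007f00000010018080000007f01fff8000000800600000000000000000070000013005c9800000002000c18000489800600000000000100180800047f8022000000000080060000022000000000000000000000000000000000000000e00000000000005000000a002860000000000000008000000900244800000000000020001fc48012000000000000000000f000000f003c780000000f003c78001fc7801e00000000000f003c78001fff80fe0000001fc7801e00000fe00000000000000000000000007000000b00345800000002000c18000285800600000000000100180800027f8012000000000080060000012000000000000000000f003c780003ff801e00000003c780fe000001e000000000000003ff801e00000fe0000000000001e00000000000000000000000000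
  cl := [(27, 0, 0x8040),
    (30, 1, 0x8002),
    (46, 2, 0x40008008),
    (45, 0, 0x2008004),
    (51, 0, 0x80a000),
    (54, 1, 0x88800),
    (57, 0, 0x8080),
    (71, 2, 0x208),
    (99, 1, 0x1808),
    (99, 0, 0x2408),
    (101, 0, 0xc04),
    (139, 1, 0x80008010),
    (141, 0, 0x1008001),
    (156, 3, 0x28200),
    (153, 0, 0x8100),
    (163, 1, 0x100209000),
    (165, 0, 0x4048400),
    (169, 0, 0x18020),
    (177, 0, 0x2000c000),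
    (195, 1, 0x1210),
    (197, 0, 0x601),
    (225, 0, 0x5420),
    (263, 2, 0x200020008),
    (275, 0, 0x820040),
    (278, 1, 0xa0002),
    (291, 1, 0x680008),
    (291, 0, 0x940008),
    (293, 0, 0x100c0004),
    (305, 0, 0x20880080),
    (323, 1, 0x1a),
    (323, 0, 0x49),
    (325, 0, 0x7),
    (353, 0, 0xac),
    (387, 1, 0x400220010),
    (389, 0, 0x8060001),
    (401, 0, 0x20020100),
    (417, 0, 0x820240020),
    (449, 0, 0x131),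
    (519, 2, 0x240000200),
    (523, 1, 0xc0000002),
    (523, 0, 0x41000040),
    (525, 0, 0x3000002),
    (547, 1, 0x140400800),
    (547, 0, 0x44102000),
    (549, 0, 0x16000800),
    (553, 0, 0x42010080),
    (579, 0, 0x2240),
    (582, 1, 0xa02),
    (609, 0, 0x6880),
    (643, 1, 0x580000200),
    (645, 0, 0xd000200),
    (649, 0, 0x81010100),
    (673, 0, 0x904014000),
    (705, 0, 0x4300),
    (771, 1, 0x600400002),
    (771, 0, 0x208100040),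
    (773, 0, 0x18000002),
    (801, 0, 0x810500080),
    (833, 0, 0x1c2),
    (897, 0, 0xc08000100)]
  sl := [0x7c06a9a1a, 0x24d96a649, 0x1f0e8e07, 0xc30181ff, 0x208aebc2, 0x976fdfcac, 0x7fff, 0xdad27d731, 0xe38fe01ff, 0xfdf516bc2, 0x141689849, 0xc494a41a, 0x2420382ac, 0xfffffffff]
  t := B_la10_012_t

theorem B_la10_012_okD : B_la10_012.ckD = true := by decide +kernel

theorem B_la10_012_okT : B_la10_012.ckT TTab B_la10_012.t 0 0 = true := by decide +kernel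

theorem lext_la10_012 : LExt 5 10 (vecL 5 B_la10_012.V) (vecP 5 B_la10_012.P) :=
  lext_of_chk' B_la10_012 B_la10_012_okD B_la10_012_okT (by decide)

end QG
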