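import Pool.Agent.Lib.QG.BC8

/-! MP_2e6874_co, part (B): data for la10_111. -/

set_option autoImplicit false
set_option maxRecDepth 100000

namespace QG

def B_la10_111_t : Tr :=
  .br 0 (.br 10 (.col 57 (.br 19 (.col 56 (.col 58 (.col 59 (.br 1 (.col 22 (.col 23 (.col 24 (.col 25 (.col 26 (.col 27 (.col 28 (.col 30 (.col 31 (.col 32 (.br 3 (.col 12 (.col 13 (.col 14 (.col 15 (.col 16 (.col 17 (.col 18 (.col 19 (.col 20 (.col 40 (.col 41 (.col 43 (.col 45 (.col 49 (.sol 13)))))))))))))))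
  (.col 12 (.col 13 (.col 14 (.col 15 (.col 16 (.col 17 (.col 18 (.col 19 (.col 20 (.col 40 (.col 41 (.col 43 (.col 45 (.col 49 (.sol 8))))))))))))))))))))))))))
  (.col 22 (.col 23 (.col 24 (.col 25 (.col 26 (.col 27 (.col 28 (.col 30 (.col 31 (.col 32 (.br 3 (.col 12 (.col 14 (.col 16 (.col 40 (.col 41 (.col 42 (.col 43 (.col 44 (.col 45 (.col 46 (.col 47 (.col 48 (.col 49 (.col 9 (.sol 9)))))))))))))))
  (.col 40 (.col 41 (.col 42 (.col 43 (.col 44 (.col 46 (.col 47 (.col 48 (.br 6 (.bad 4 144 [10, 1, 2, 9, 8, 3])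
  (.br 20 (.bad 4 9 [10, 6, 7, 8, 9, 4])
  (.br 26 (.bad 4 36 [10, 6, 7, 9, 8, 0])
  (.bad 2 192 [1, 3, 5, 10, 2, 9])))))))))))))))))))))))))))
  (.col 56 (.col 58 (.col 59 (.br 3 (.col 40 (.col 41 (.col 42 (.col 43 (.col 44 (.col 45 (.col 46 (.col 47 (.col 48 (.col 49 (.br 18 (.col 18 (.col 19 (.bad 4 192 [10, 2, 3, 4, 5, 1])))
  (.br 22 (.col 17 (.col 29 (.bad 4 66 [10, 4, 5, 7, 8, 2])))
  (.br 1 (.col 4 (.col 6 (.col 7 (.col 8 (.col 10 (.col 11 (.col 12 (.col 13 (.col 15 (.col 20 (.col 21 (.col 24 (.sol 4)))))))))))))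
  (.col 6 (.col 7 (.col 12 (.col 13 (.col 20 (.col 24 (.br 32 (.col 21 (.col 32 (.col 36 (.sol 5))))
  (.bad 0 448 [10, 1, 3, 4, 5, 9])))))))))))))))))))))
  (.col 41 (.col 42 (.col 43 (.br 29 (.bad 4 576 [10, 0, 3, 5, 8, 2])
  (.br 33 (.bad 4 513 [10, 2, 7, 8, 5, 3])
  (.col 39 (.br 21 (.bad 4 516 [10, 1, 5, 7, 6, 0])
  (.br 25 (.bad 5 513 [5, 10, 8, 2, 7, 6, 3])
  (.bad 2 576 [0, 1, 7, 10, 2, 8])))))))))))))))
  (.col 57 (.br 9 (.col 31 (.col 35 (.bad 4 272 [10, 1, 3, 7, 6, 0])))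
  (.br 13 (.col 48 (.col 52 (.bad 4 48 [10, 2, 3, 6, 7, 0])))
  (.br 32 (.col 21 (.col 32 (.col 36 (.col 37 (.br 1 (.bad 4 320 [10, 0, 3, 7, 5, 1])
  (.col 25 (.br 6 (.bad 4 192 [10, 1, 2, 5, 8, 3])
  (.br 11 (.bad 4 96 [10, 0, 2, 7, 8, 3])
  (.br 4 (.bad 5 96 [3, 10, 9, 0, 8, 7, 2])
  (.col 43 (.br 5 (.bad 4 24 [10, 6, 7, 8, 9, 0])
  (.br 8 (.col 24 (.col 29 (.col 33 (.br 19 (.bad 4 320 [10, 1, 4, 3, 9, 5])
  (.br 23 (.col 44 (.br 33 (.bad 4 3 [10, 2, 9, 8, 4, 5])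
  (.bad 2 3 [2, 5, 8, 10, 6, 9])))
  (.bad 0 832 [10, 0, 1, 3, 5, 7]))))))
  (.bad 2 80 [1, 3, 9, 10, 7, 8])))))))))))))
  (.br 19 (.col 56 (.col 58 (.col 59 (.br 1 (.col 22 (.col 23 (.col 24 (.col 25 (.col 26 (.col 27 (.col 28 (.col 30 (.br 25 (.col 44 (.col 49 (.bad 4 513 [10, 2, 3, 6, 7, 5])))
  (.br 3 (.col 12 (.col 13 (.col 14 (.col 15 (.col 16 (.col 18 (.col 19 (.col 40 (.col 41 (.col 43 (.col 45 (.col 49 (.sol 3)))))))))))))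
  (.col 14 (.col 16 (.col 19 (.col 40 (.col 43 (.br 21 (.col 18 (.col 46 (.col 50 (.sol 2))))
  (.bad 0 704 [10, 1, 2, 3, 5, 8])))))))))))))))))
  (.col 22 (.col 30 (.br 22 (.col 28 (.col 33 (.bad 5 257 [3, 10, 9, 4, 7, 6, 5])))
  (.bad 0 448 [10, 1, 3, 4, 5, 9]))))))))
  (.col 56 (.br 18 (.col 30 (.col 34 (.bad 4 12 [10, 4, 5, 6, 7, 0])))
  (.br 5 (.col 19 (.col 20 (.br 26 (.bad 4 192 [10, 2, 5, 4, 3, 1])
  (.br 22 (.bad 4 192 [10, 1, 8, 4, 3, 2])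
  (.br 35 (.col 53 (.bad 2 192 [1, 3, 5, 10, 2, 9]))
  (.bad 0 448 [10, 1, 3, 4, 5, 9]))))))
  (.br 21 (.col 46 (.col 50 (.bad 4 516 [10, 1, 5, 7, 6, 0])))
  (.br 26 (.col 18 (.col 21 (.br 25 (.bad 4 192 [10, 1, 9, 2, 5, 4])
  (.br 22 (.bad 4 192 [10, 1, 8, 5, 2, 3])
  (.br 35 (.col 53 (.bad 2 192 [1, 2, 4, 10, 3, 9]))
  (.bad 0 448 [10, 1, 3, 4, 5, 9]))))))
  (.br 6 (.br 20 (.col 17 (.col 19 (.col 37 (.br 1 (.col 4 (.col 6 (.col 7 (.col 8 (.col 9 (.col 22 (.col 23 (.col 24 (.col 25 (.col 28 (.col 29 (.col 33 (.col 38 (.col 39 (.col 40 (.col 42 (.sol 10)))))))))))))))))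
  (.col 4 (.col 6 (.col 8 (.col 25 (.col 28 (.col 42 (.br 31 (.col 29 (.col 45 (.col 55 (.col 24 (.col 27 (.col 39 (.col 43 (.sol 1))))))))
  (.bad 0 832 [10, 0, 1, 3, 5, 7]))))))))))))
  (.col 17 (.br 35 (.col 53 (.bad 7 192 [10, 2, 4, 1, 9, 8, 3, 5]))
  (.bad 0 448 [10, 1, 3, 4, 5, 9]))))
  (.br 35 (.col 37 (.col 53 (.br 20 (.bad 7 192 [10, 3, 5, 1, 9, 8, 2, 4])
  (.bad 2 192 [1, 3, 5, 10, 2, 9]))))
  (.bad 2 192 [4, 5, 9, 10, 2, 8]))))))))))))))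
  (.br 10 (.col 57 (.br 2 (.col 25 (.col 31 (.col 35 (.bad 5 272 [3, 10, 7, 0, 9, 6, 1]))))
  (.br 3 (.col 41 (.col 43 (.bad 4 48 [10, 0, 3, 6, 8, 2])))
  (.br 7 (.col 23 (.col 24 (.bad 4 272 [10, 0, 1, 6, 9, 3])))
  (.br 12 (.col 13 (.col 42 (.col 48 (.br 5 (.bad 4 144 [10, 2, 9, 6, 3, 1])
  (.br 1 (.bad 4 20 [10, 6, 8, 7, 9, 1])
  (.col 31 (.bad 2 144 [1, 3, 9, 10, 6, 8])))))))
  (.br 28 (.col 34 (.col 50 (.col 51 (.col 56 (.col 58 (.br 1 (.bad 4 12 [10, 0, 4, 7, 9, 5])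
  (.col 31 (.br 6 (.bad 4 132 [10, 1, 4, 8, 9, 5])
  (.br 11 (.bad 4 516 [10, 0, 5, 7, 8, 1])
  (.col 48 (.br 25 (.col 17 (.col 45 (.br 32 (.col 32 (.bad 4 66 [10, 2, 5, 7, 9, 4]))
  (.bad 0 448 [10, 1, 3, 4, 5, 9]))))
  (.bad 0 704 [10, 1, 2, 3, 5, 8]))))))))))))
  (.br 34 (.col 33 (.col 49 (.col 54 (.col 55 (.col 58 (.br 1 (.bad 4 257 [10, 3, 4, 7, 9, 5])
  (.col 31 (.br 6 (.bad 4 3 [10, 2, 4, 8, 9, 5])
  (.br 11 (.bad 4 513 [10, 2, 5, 8, 7, 3])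
  (.col 48 (.br 24 (.bad 4 576 [10, 1, 2, 5, 8, 3])
  (.br 21 (.col 18 (.br 32 (.col 32 (.bad 4 68 [10, 1, 5, 7, 9, 4]))
  (.bad 0 448 [10, 1, 3, 4, 5, 9])))
  (.bad 2 516 [0, 1, 7, 10, 6, 8])))))))))))))
  (.br 19 (.col 56 (.col 58 (.br 1 (.col 22 (.col 28 (.col 29 (.col 30 (.col 31 (.col 32 (.br 4 (.col 5 (.col 6 (.col 7 (.col 8 (.col 9 (.col 11 (.col 17 (.col 18 (.col 19 (.col 20 (.col 44 (.col 45 (.sol 6)))))))))))))
  (.col 5 (.col 7 (.col 17 (.col 18 (.col 19 (.col 20 (.col 45 (.br 33 (.bad 4 6 [10, 6, 8, 7, 9, 4])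
  (.bad 2 640 [1, 3, 5, 10, 2, 6]))))))))))))))))
  (.col 28 (.col 29 (.col 30 (.col 31 (.col 32 (.br 16 (.bad 4 12 [10, 0, 5, 6, 9, 4])
  (.bad 2 384 [1, 3, 5, 10, 4, 6]))))))))))
  (.col 58 (.br 27 (.col 40 (.br 1 (.col 4 (.col 22 (.col 26 (.col 27 (.col 28 (.col 30 (.col 31 (.col 32 (.col 15 (.br 4 (.col 5 (.col 6 (.col 7 (.col 11 (.col 17 (.col 18 (.col 19 (.col 20 (.col 39 (.sol 12))))))))))
  (.col 5 (.col 6 (.col 7 (.col 11 (.col 20 (.br 30 (.bad 4 72 [10, 0, 4, 7, 9, 5])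
  (.br 25 (.bad 4 513 [10, 2, 3, 6, 7, 5])
  (.br 21 (.bad 4 132 [10, 1, 5, 6, 9, 4])
  (.bad 0 704 [10, 1, 2, 3, 5, 8])))))))))))))))))))
  (.col 22 (.col 31 (.br 17 (.bad 4 12 [10, 0, 9, 6, 5, 4])
  (.col 32 (.br 20 (.bad 4 9 [10, 6, 7, 8, 9, 4])
  (.br 22 (.bad 4 320 [10, 0, 1, 4, 5, 3])
  (.br 18 (.col 19 (.br 4 (.bad 4 72 [10, 4, 5, 8, 7, 0])
  (.col 48 (.col 38 (.br 25 (.bad 4 513 [10, 2, 3, 6, 7, 5])
  (.br 21 (.col 18 (.bad 4 80 [10, 1, 2, 9, 8, 3]))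
  (.bad 0 704 [10, 1, 2, 3, 5, 8])))))))
  (.bad 0 448 [10, 1, 3, 4, 5, 9]))))))))))
  (.bad 2 768 [0, 1, 7, 10, 3, 6])))))))))))
  (.br 4 (.col 43 (.col 48 (.br 14 (.bad 4 48 [10, 0, 8, 6, 3, 2])
  (.br 12 (.bad 4 48 [10, 2, 7, 6, 3, 0])
  (.br 15 (.bad 5 48 [3, 10, 6, 0, 8, 7, 2])
  (.bad 2 48 [0, 2, 6, 10, 7, 8]))))))
  (.br 8 (.col 5 (.col 24 (.col 31 (.br 14 (.bad 4 272 [10, 0, 9, 6, 1, 3])
  (.br 5 (.bad 4 80 [10, 1, 8, 7, 3, 2])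
  (.br 3 (.bad 4 18 [10, 6, 8, 7, 9, 2])
  (.br 2 (.bad 4 272 [10, 1, 6, 7, 3, 0])
  (.br 11 (.bad 4 80 [10, 1, 8, 9, 2, 3])
  (.br 15 (.col 52 (.bad 2 80 [2, 3, 8, 10, 7, 9]))
  (.bad 2 272 [0, 3, 6, 10, 7, 9]))))))))))
  (.br 31 (.col 29 (.col 45 (.col 58 (.br 1 (.bad 4 320 [10, 1, 9, 3, 4, 5])
  (.br 6 (.bad 4 66 [10, 2, 4, 8, 9, 5])
  (.br 11 (.bad 4 576 [10, 1, 8, 5, 2, 3])
  (.br 29 (.bad 5 576 [3, 10, 0, 2, 1, 8, 5])
  (.br 20 (.bad 5 66 [5, 10, 7, 2, 9, 8, 4])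
  (.bad 2 65 [3, 4, 8, 10, 7, 9])))))))))
  (.br 19 (.col 47 (.col 56 (.col 58 (.br 1 (.col 4 (.col 7 (.col 22 (.col 25 (.col 28 (.col 30 (.col 31 (.col 32 (.br 6 (.col 3 (.col 6 (.col 9 (.col 11 (.col 13 (.col 17 (.col 18 (.col 20 (.br 3 (.col 12 (.col 23 (.col 33 (.col 35 (.sol 11)))))
  (.col 12 (.col 23 (.br 15 (.bad 4 48 [10, 0, 2, 7, 8, 3])
  (.br 34 (.bad 4 257 [10, 3, 4, 7, 9, 5])
  (.bad 2 768 [0, 1, 7, 10, 5, 6]))))))))))))))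
  (.col 3 (.col 6 (.col 9 (.col 18 (.br 13 (.bad 4 96 [10, 2, 3, 9, 7, 0])
  (.br 25 (.bad 4 66 [10, 2, 5, 7, 9, 4])
  (.bad 0 704 [10, 1, 2, 3, 5, 8]))))))))))))))))
  (.col 30 (.br 36 (.bad 4 320 [10, 0, 5, 3, 9, 4])
  (.br 16 (.bad 4 12 [10, 0, 5, 6, 9, 4])
  (.br 20 (.bad 4 72 [10, 0, 5, 8, 9, 4])
  (.br 22 (.col 17 (.col 33 (.br 3 (.bad 4 3 [10, 4, 5, 6, 8, 2])
  (.br 11 (.bad 4 65 [10, 4, 5, 8, 7, 3])
  (.col 46 (.br 33 (.bad 4 516 [10, 0, 1, 6, 8, 5])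
  (.bad 2 640 [2, 3, 8, 10, 1, 6])))))))
  (.bad 2 320 [4, 5, 9, 10, 0, 1]))))))))))
  (.br 17 (.col 10 (.col 29 (.col 30 (.col 32 (.br 29 (.bad 4 72 [10, 0, 9, 8, 5, 4])
  (.br 9 (.bad 4 320 [10, 1, 3, 7, 4, 0])
  (.br 35 (.col 58 (.br 5 (.bad 4 72 [10, 4, 7, 8, 5, 0])
  (.br 30 (.col 53 (.col 17 (.col 18 (.col 44 (.bad 4 96 [10, 2, 3, 9, 7, 0])))))
  (.bad 2 72 [0, 4, 8, 10, 7, 9]))))
  (.bad 0 448 [10, 1, 3, 4, 5, 9]))))))))
  (.br 24 (.col 3 (.col 45 (.col 46 (.br 29 (.bad 4 576 [10, 0, 3, 2, 1, 5])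
  (.br 20 (.bad 4 66 [10, 2, 9, 7, 5, 4])
  (.br 1 (.bad 4 68 [10, 1, 9, 8, 4, 5])
  (.br 13 (.bad 4 576 [10, 1, 2, 7, 5, 0])
  (.br 30 (.col 19 (.col 53 (.br 23 (.col 28 (.br 32 (.col 37 (.bad 2 80 [1, 3, 9, 10, 7, 8]))
  (.bad 2 96 [0, 3, 7, 10, 8, 9])))
  (.bad 0 832 [10, 0, 1, 3, 5, 7]))))
  (.bad 2 576 [0, 2, 5, 10, 3, 7])))))))))
  (.br 1 (.col 7 (.col 25 (.col 30 (.col 31 (.br 6 (.col 6 (.col 9 (.col 13 (.col 18 (.col 20 (.br 15 (.col 52 (.col 57 (.bad 4 48 [10, 0, 2, 7, 8, 3])))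
  (.br 20 (.col 4 (.col 8 (.col 17 (.col 19 (.col 21 (.col 28 (.col 37 (.br 3 (.col 12 (.col 16 (.col 22 (.col 23 (.col 33 (.col 34 (.col 38 (.sol 0))))))))
  (.col 12 (.col 16 (.col 22 (.col 33 (.br 28 (.bad 4 12 [10, 0, 4, 7, 9, 5])
  (.bad 2 768 [1, 3, 5, 10, 6, 7]))))))))))))))
  (.col 4 (.col 8 (.col 17 (.col 28 (.br 35 (.col 37 (.col 53 (.col 59 (.br 16 (.bad 4 1280 [3, 4, 6, 5, 7, 9])
  (.col 11 (.col 22 (.br 14 (.col 41 (.bad 4 1536 [0, 2, 6, 3, 7, 8]))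
  (.bad 2 288 [0, 3, 7, 10, 6, 9]))))))))
  (.bad 0 832 [10, 0, 1, 3, 5, 7])))))))))))))
  (.col 6 (.br 13 (.bad 4 80 [10, 2, 3, 7, 9, 1])
  (.br 12 (.bad 4 20 [10, 6, 8, 7, 9, 1])
  (.br 26 (.bad 4 68 [10, 4, 8, 7, 5, 1])
  (.br 21 (.col 50 (.col 53 (.br 23 (.col 28 (.br 16 (.bad 4 132 [10, 1, 5, 6, 9, 4])
  (.col 26 (.col 33 (.br 15 (.bad 4 272 [10, 0, 3, 7, 9, 1])
  (.bad 2 768 [1, 3, 5, 10, 6, 7]))))))
  (.bad 0 832 [10, 0, 1, 3, 5, 7]))))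
  (.bad 2 68 [1, 5, 8, 10, 7, 9])))))))))))
  (.br 6 (.col 6 (.br 14 (.col 23 (.col 41 (.bad 4 17 [10, 6, 7, 8, 9, 3])))
  (.br 20 (.col 4 (.col 8 (.col 17 (.col 28 (.br 35 (.col 37 (.col 53 (.col 18 (.col 19 (.br 2 (.col 13 (.col 14 (.col 15 (.col 22 (.col 33 (.col 34 (.col 35 (.col 49 (.sol 7)))))))))
  (.col 13 (.col 14 (.col 15 (.col 33 (.br 27 (.bad 4 9 [10, 6, 7, 8, 9, 4])
  (.bad 2 768 [1, 3, 5, 10, 0, 6])))))))))))
  (.bad 0 832 [10, 0, 1, 3, 5, 7]))))))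
  (.col 17 (.br 29 (.bad 4 65 [10, 3, 9, 7, 4, 5])
  (.br 36 (.bad 4 65 [10, 4, 7, 8, 5, 3])
  (.br 23 (.col 54 (.br 3 (.bad 4 513 [10, 3, 5, 8, 6, 2])
  (.col 12 (.br 16 (.bad 4 257 [10, 3, 5, 6, 9, 4])
  (.bad 2 258 [4, 5, 9, 10, 6, 7])))))
  (.bad 2 65 [3, 5, 7, 10, 8, 9]))))))))
  (.br 11 (.col 9 (.col 42 (.col 48 (.br 18 (.bad 4 68 [10, 4, 5, 7, 8, 1])
  (.br 5 (.bad 4 80 [10, 2, 9, 7, 3, 1])
  (.br 2 (.bad 4 20 [10, 6, 9, 7, 8, 1])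
  (.br 9 (.col 35 (.col 37 (.br 23 (.col 28 (.col 44 (.col 4 (.br 3 (.bad 4 144 [10, 1, 3, 6, 8, 2])
  (.col 40 (.col 41 (.br 16 (.bad 4 9 [10, 6, 9, 8, 7, 4])
  (.bad 2 288 [0, 3, 7, 10, 6, 9]))))))))
  (.bad 0 832 [10, 0, 1, 3, 5, 7]))))
  (.bad 2 80 [1, 3, 9, 10, 7, 8]))))))))
  (.bad 1 64 [10, 1, 2, 4, 8, 9])))))))))))

def B_la10_111 : Dat where
  r := 5
  V := [[.i, .o, .o, .o, .o],
    [.o, .i, .o, .o, .o],
    [.o, .o, .i, .o, .o],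
    [.o, .o, .o, .i, .o],
    [.o, .o, .o, .o, .i],
    [.o, .w, .o, .v, .o],
    [.i, .o, .i, .o, .i],
    [.i, .i, .o, .o, .o],
    [.o, .o, .i, .i, .o],
    [.o, .w, .o, .v, .i]]
  P := [[.i, .o, .o, .o, .o],
    [.o, .i, .o, .o, .o],
    [.o, .o, .i, .o, .o],
    [.o, .o, .o, .i, .o],
    [.o, .o, .o, .o, .i],
    [.o, .w, .o, .v, .o],
    [.i, .o, .i, .o, .i],
    [.i, .i, .o, .o, .o],
    [.o, .o, .i, .i, .o],
    [.o, .w, .o, .v, .i],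
    [.o, .o, .i, .o, .i],
    [.i, .o, .o, .o, .i],
    [.i, .o, .i, .o, .o],
    [.o, .o, .o, .o, .o]]
  F := [[.i, .o, .o, .o, .o],
    [.o, .i, .o, .o, .o],
    [.i, .i, .o, .o, .o],
    [.o, .o, .i, .o, .o],
    [.i, .o, .i, .o, .o],
    [.i, .i, .i, .o, .o],
    [.o, .o, .o, .i, .o],
    [.o, .o, .i, .i, .o],
    [.i, .o, .i, .i, .o],
    [.i, .i, .i, .i, .o],
    [.i, .w, .i, .i, .o],
    [.o, .i, .o, .v, .o],
    [.i, .i, .o, .v, .o],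
    [.i, .i, .i, .v, .o],
    [.o, .i, .v, .v, .o],
    [.i, .i, .v, .v, .o],
    [.o, .o, .o, .o, .i],
    [.i, .o, .o, .o, .i],
    [.i, .i, .o, .o, .i],
    [.i, .v, .o, .o, .i],
    [.o, .o, .i, .o, .i],
    [.i, .i, .o, .i, .i],
    [.o, .o, .i, .i, .i],
    [.o, .i, .i, .i, .i],
    [.i, .o, .o, .w, .i],
    [.o, .o, .i, .w, .i],
    [.i, .i, .o, .v, .i],
    [.o, .i, .o, .o, .w],
    [.i, .i, .o, .o, .w],
    [.o, .i, .w, .o, .w],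
    [.i, .i, .v, .o, .w],
    [.i, .o, .v, .v, .w],
    [.i, .i, .v, .v, .w],
    [.o, .o, .o, .i, .v],
    [.o, .o, .i, .i, .v],
    [.i, .i, .w, .w, .v],
    [.o, .i, .v, .v, .v]]
  ht := 0x16103c00383028701e0034202c80249038c030d00e402c30246034101c302c400eb034c01cc016e01af03b0033102f002b40275037001d00152019300d700d8027a02bb019c015d033e
  ct := 0x230000000000000000000000000000000000000000000000000000000f000000000000000000000000000f0000000000001c000001c00891000000000000000000000000000000000000000000000000000000000a000000000000000000000000000a000000000000130000013007cb80000000000000000000000000007f00000000000000000000000007000000000000000000000000000700000007f0000d800000d8044000000000000000000000000000000000000000000000000000000000000d000000000000000000000000000d0000000000001e00000150064c80000000000000000000000000007f00000000000003000000c000c18000000000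000003000000c000c180000001c000c1800085080fe00000000000000000000000000000007f00000000000004000000b001058000000000000004000000b001058000000130010e80006058032000000000000000007f000007f01fff80000000001fc18000005800600000000000001fc180000058006000000000d800600000420000000000000000000000000000000000000000000000000000000000000000002000000000000000000000000000090000000000001200000120058b00000000000000000000000000000f0000000000001000000100040800000000000000020000002001c380000007f00408000040800fe00000000000000000000000000000000a00000000000011000001100452000000000000000100000010020080000007f004408000440802c000000000000000000000000000000700000007f01fc80001fc8002000000000007f000008000000800e0000001fff80200000020000000000000000000000000000000000000000d00000000000014000001a0050a00000000000000050000006001830000000120050a000018300fe0000000000000000003000000c000c180000001001fff800040800fe000000000002000c1800018300fe000000040800fe00000fe00000000000000000000000004000000b0010580000001101fca000044580280000000000010010080001bf800c00000004408028000000c000000000000000000001fc1800000580060000001fc800fe0000020000000000000000008006000000c0000000000002000000000000000000000000000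
  cl := [(23, 0, 0x41),
    (27, 1, 0xa),
    (39, 1, 0x10800),
    (71, 0, 0x1020040),
    (75, 1, 0x20100002),
    (83, 0, 0x150),
    (86, 1, 0x842),
    (89, 0, 0x32),
    (99, 1, 0x1000100800),
    (101, 0, 0x4020800),
    (105, 0, 0x120010),
    (142, 3, 0x200010040),
    (150, 2, 0xc8),
    (149, 0, 0x1044),
    (153, 0, 0x2c),
    (165, 0, 0x4011000),
    (172, 2, 0x110008),
    (198, 2, 0x2500040),
    (197, 0, 0x4240040),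
    (201, 0, 0x40140020),
    (209, 0, 0x2260),
    (225, 0, 0x104102000),
    (267, 1, 0x8010002),
    (275, 1, 0x4082),
    (275, 0, 0x181),
    (281, 0, 0x7),
    (291, 1, 0x1000014000),
    (297, 0, 0x30001),
    (323, 1, 0x1000c00002),
    (323, 0, 0x80420100),
    (329, 0, 0xe0002),
    (337, 0, 0x702),
    (353, 0, 0x1100020400),
    (390, 2, 0x400410080),
    (393, 0, 0x10050004),
    (401, 0, 0x8284),
    (417, 0, 0x100018000),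
    (449, 0, 0x900440200),
    (519, 1, 0x208000800),
    (519, 0, 0x201000001),
    (523, 1, 0x28000008),
    (547, 1, 0x4808),
    (549, 0, 0x1801),
    (553, 0, 0x19),
    (579, 1, 0x22800800),
    (579, 0, 0x83000010),
    (581, 0, 0x1280800),
    (585, 0, 0x60080010),
    (609, 0, 0x2c10),
    (646, 2, 0x602000008),
    (645, 0, 0x210201000),
    (649, 0, 0x50000008),
    (673, 0, 0xb008),
    (705, 0, 0x842202000),
    (771, 1, 0x408804000),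
    (771, 0, 0x480000001),
    (777, 0, 0x18080001),
    (801, 0, 0xc401),
    (833, 0, 0x880880400),
    (897, 0, 0xc10008000)]
  sl := [0x162ad148ca, 0x6835301d9, 0x21d2f1847, 0x781f003f, 0xffff, 0x110413fc19, 0x19e7fe2f72, 0xf5675b2ec, 0x1d98cfc787, 0xefba8fc19, 0x1022d01847, 0x52e48ca, 0x208012f72, 0x1fffffffff]
  t := B_la10_111_t

theorem B_la10_111_okD : B_la10_111.ckD = true := by decide +kernel

theorem B_la10_111_okT : B_la10_111.ckT TTab B_la10_111.t 0 0 = true := by decide +kernel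

theorem lext_la10_111 : LExt 5 10 (vecL 5 B_la10_111.V) (vecP 5 B_la10_111.P) :=
  lext_of_chk' B_la10_111 B_la10_111_okD B_la10_111_okT (by decide)

end QG
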