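import Pool.Agent.Lib.QG.BC8

/-! MP_2e6874_co, part (B): data for la11_011. -/

set_option autoImplicit false
set_option maxRecDepth 100000

namespace QG

def B_la11_011_t : Tr :=
  .br 0 (.br 4 (.col 49 (.br 17 (.col 47 (.col 48 (.col 50 (.br 1 (.col 34 (.col 35 (.col 36 (.col 37 (.col 38 (.col 39 (.col 40 (.col 41 (.col 42 (.br 9 (.col 8 (.col 9 (.col 10 (.col 11 (.col 12 (.col 13 (.col 14 (.col 15 (.col 17 (.col 18 (.col 19 (.col 22 (.col 23 (.sol 15))))))))))))))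
  (.col 8 (.col 9 (.col 10 (.col 11 (.col 12 (.col 13 (.col 14 (.col 15 (.col 17 (.col 18 (.col 19 (.col 22 (.col 23 (.sol 8))))))))))))))))))))))))
  (.col 34 (.col 35 (.col 36 (.col 37 (.col 38 (.col 39 (.col 40 (.col 41 (.col 42 (.br 9 (.col 8 (.col 12 (.col 13 (.col 19 (.col 20 (.col 21 (.col 22 (.col 23 (.col 24 (.col 25 (.col 26 (.col 27 (.col 4 (.sol 7))))))))))))))
  (.col 19 (.col 20 (.col 21 (.col 23 (.col 25 (.col 26 (.col 27 (.br 28 (.bad 4 72 [9, 0, 1, 8, 7, 2])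
  (.br 11 (.bad 4 5 [9, 5, 6, 7, 8, 3])
  (.br 13 (.bad 4 18 [9, 5, 6, 8, 7, 0])
  (.br 24 (.bad 4 12 [9, 5, 6, 7, 8, 0])
  (.bad 2 96 [1, 2, 7, 9, 3, 4]))))))))))))))))))))))))))
  (.col 47 (.col 48 (.col 50 (.br 1 (.col 34 (.col 35 (.col 36 (.col 37 (.col 38 (.col 39 (.col 40 (.col 41 (.col 42 (.br 25 (.col 16 (.col 25 (.bad 4 36 [9, 3, 4, 7, 6, 0])))
  (.br 30 (.col 14 (.col 28 (.bad 4 65 [9, 3, 4, 5, 7, 1])))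
  (.br 9 (.col 8 (.col 9 (.col 10 (.col 11 (.col 12 (.col 13 (.col 17 (.col 18 (.col 19 (.col 22 (.col 23 (.sol 4))))))))))))
  (.col 12 (.col 13 (.col 18 (.col 22 (.col 23 (.br 16 (.col 17 (.col 26 (.col 30 (.sol 3))))
  (.bad 0 224 [9, 0, 2, 3, 4, 8])))))))))))))))))))
  (.col 35 (.br 31 (.bad 4 257 [9, 1, 6, 7, 4, 2])
  (.br 19 (.bad 4 257 [9, 2, 5, 7, 4, 1])
  (.br 22 (.bad 5 257 [4, 9, 7, 1, 6, 5, 2])
  (.bad 2 257 [1, 2, 7, 9, 5, 6])))))))))))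
  (.col 49 (.br 7 (.col 41 (.col 45 (.bad 4 24 [9, 1, 2, 5, 6, 0])))
  (.br 14 (.col 18 (.col 27 (.col 31 (.br 3 (.bad 4 48 [9, 0, 1, 6, 7, 2])
  (.col 36 (.br 2 (.bad 5 48 [2, 9, 8, 0, 7, 6, 1])
  (.col 37 (.bad 11 16 [2, 9, 6, 8, 5, 0, 7, 1]))))))))
  (.br 16 (.col 17 (.col 26 (.col 30 (.col 32 (.br 1 (.bad 4 72 [9, 0, 2, 5, 7, 1])
  (.br 11 (.bad 4 96 [9, 0, 2, 3, 7, 1])
  (.br 6 (.bad 5 72 [1, 9, 8, 0, 7, 5, 2])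
  (.col 36 (.br 13 (.bad 5 96 [1, 9, 4, 0, 7, 3, 2])
  (.br 9 (.col 8 (.col 19 (.col 22 (.col 23 (.col 25 (.col 28 (.br 22 (.bad 4 65 [9, 1, 4, 5, 8, 3])
  (.br 21 (.bad 4 160 [9, 0, 8, 2, 4, 3])
  (.bad 2 257 [1, 4, 5, 9, 6, 7])))))))))
  (.bad 2 80 [1, 2, 7, 9, 5, 8])))))))))))
  (.br 17 (.col 47 (.col 48 (.col 50 (.br 9 (.col 19 (.col 20 (.col 21 (.col 22 (.col 23 (.col 24 (.col 25 (.br 22 (.col 38 (.col 42 (.bad 4 257 [9, 1, 2, 5, 6, 4])))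
  (.br 1 (.col 9 (.col 10 (.col 11 (.col 12 (.col 13 (.col 15 (.col 16 (.col 34 (.col 35 (.col 37 (.col 42 (.sol 2))))))))))))
  (.col 11 (.col 13 (.col 16 (.col 34 (.col 37 (.br 20 (.col 15 (.col 39 (.col 43 (.sol 1))))
  (.bad 0 352 [9, 0, 1, 2, 4, 7]))))))))))))))))
  (.col 19 (.col 23 (.col 25 (.br 30 (.col 24 (.col 28 (.bad 5 129 [2, 9, 8, 3, 6, 5, 4])))
  (.bad 0 224 [9, 0, 2, 3, 4, 8])))))))))
  (.col 48 (.br 25 (.col 25 (.col 29 (.bad 4 6 [9, 3, 4, 5, 6, 0])))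
  (.br 13 (.col 15 (.col 18 (.br 30 (.bad 4 96 [9, 0, 7, 4, 1, 2])
  (.br 33 (.col 46 (.br 24 (.bad 4 96 [9, 1, 4, 3, 2, 0])
  (.bad 2 96 [0, 1, 3, 9, 2, 8])))
  (.bad 0 224 [9, 0, 2, 3, 4, 8])))))
  (.br 20 (.col 15 (.col 46 (.br 30 (.col 14 (.br 24 (.bad 4 96 [9, 0, 7, 3, 2, 1])
  (.bad 2 96 [3, 4, 8, 9, 2, 7])))
  (.bad 0 224 [9, 0, 2, 3, 4, 8]))))
  (.br 24 (.col 16 (.col 17 (.br 30 (.bad 4 96 [9, 0, 7, 3, 2, 1])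
  (.br 33 (.col 46 (.bad 2 96 [0, 2, 4, 9, 1, 8]))
  (.bad 0 224 [9, 0, 2, 3, 4, 8])))))
  (.br 11 (.col 16 (.br 22 (.col 14 (.col 32 (.br 1 (.col 9 (.col 11 (.col 13 (.col 19 (.col 22 (.col 23 (.col 24 (.col 28 (.col 34 (.col 35 (.col 36 (.col 37 (.col 42 (.sol 12))))))))))))))
  (.col 9 (.col 13 (.col 23 (.col 28 (.col 37 (.col 42 (.br 6 (.col 10 (.col 21 (.col 24 (.col 36 (.col 38 (.sol 9))))))
  (.bad 2 320 [1, 2, 7, 9, 4, 5])))))))))))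
  (.col 14 (.br 33 (.bad 7 96 [9, 2, 4, 0, 8, 7, 1, 3])
  (.bad 0 352 [9, 0, 1, 2, 4, 7])))))
  (.br 28 (.col 14 (.br 33 (.col 46 (.bad 7 96 [9, 1, 3, 0, 8, 7, 2, 4]))
  (.bad 0 224 [9, 0, 2, 3, 4, 8])))
  (.bad 2 96 [1, 2, 7, 9, 3, 4]))))))))))))))
  (.br 4 (.col 49 (.br 1 (.col 35 (.col 36 (.col 37 (.col 41 (.br 14 (.col 18 (.col 27 (.bad 4 48 [9, 0, 1, 6, 7, 2])))
  (.br 16 (.col 17 (.col 30 (.bad 4 72 [9, 0, 2, 5, 7, 1])))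
  (.br 33 (.col 46 (.col 50 (.col 51 (.bad 4 768 [1, 2, 7, 4, 5, 6]))))
  (.br 17 (.col 33 (.col 34 (.col 38 (.col 40 (.col 42 (.col 43 (.br 9 (.col 8 (.col 9 (.col 10 (.col 11 (.col 12 (.col 13 (.col 14 (.col 15 (.col 19 (.col 22 (.col 23 (.sol 0))))))))))))
  (.col 8 (.col 13 (.col 14 (.br 25 (.col 15 (.col 29 (.bad 5 66 [0, 9, 8, 3, 7, 5, 4])))
  (.bad 0 224 [9, 0, 2, 3, 4, 8]))))))))))))
  (.col 33 (.col 34 (.col 38 (.col 42 (.br 25 (.col 32 (.br 9 (.col 8 (.col 9 (.col 12 (.col 13 (.col 15 (.col 16 (.col 19 (.col 22 (.col 23 (.col 25 (.col 29 (.sol 13))))))))))))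
  (.col 13 (.col 16 (.col 22 (.col 29 (.br 20 (.col 15 (.col 39 (.col 3 (.col 6 (.col 9 (.sol 10))))))
  (.bad 0 352 [9, 0, 1, 2, 4, 7]))))))))
  (.br 30 (.col 14 (.col 28 (.bad 4 65 [9, 3, 4, 5, 7, 1])))
  (.bad 0 224 [9, 0, 2, 3, 4, 8])))))))))))))))
  (.col 35 (.br 6 (.bad 4 24 [9, 0, 7, 6, 1, 2])
  (.br 2 (.bad 4 24 [9, 0, 7, 5, 2, 1])
  (.br 7 (.bad 5 24 [0, 9, 7, 1, 6, 5, 2])
  (.bad 2 24 [1, 2, 7, 9, 5, 6])))))))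
  (.br 17 (.col 47 (.col 48 (.br 9 (.col 19 (.col 20 (.col 21 (.col 22 (.col 23 (.col 24 (.col 25 (.br 20 (.col 15 (.col 43 (.bad 4 66 [9, 0, 4, 5, 8, 3])))
  (.br 22 (.col 38 (.col 42 (.bad 4 257 [9, 1, 2, 5, 6, 4])))
  (.br 27 (.col 16 (.col 40 (.bad 4 36 [9, 0, 3, 6, 8, 4])))
  (.br 7 (.col 46 (.br 1 (.col 9 (.col 11 (.col 13 (.col 17 (.col 18 (.col 26 (.col 31 (.col 34 (.col 35 (.col 37 (.col 42 (.col 45 (.sol 14)))))))))))))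
  (.col 13 (.col 18 (.col 31 (.col 34 (.col 45 (.br 16 (.col 17 (.col 26 (.col 41 (.col 8 (.sol 11)))))
  (.bad 0 224 [9, 0, 2, 3, 4, 8])))))))))
  (.br 33 (.col 32 (.col 50 (.col 51 (.bad 4 640 [0, 3, 5, 4, 6, 8]))))
  (.bad 0 352 [9, 0, 1, 2, 4, 7])))))))))))))
  (.col 19 (.br 12 (.bad 4 129 [9, 2, 8, 5, 4, 3])
  (.br 29 (.bad 4 129 [9, 2, 8, 6, 3, 4])
  (.br 30 (.bad 5 129 [2, 9, 8, 3, 6, 5, 4])
  (.bad 2 129 [3, 4, 8, 9, 5, 6]))))))))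
  (.br 1 (.col 34 (.col 35 (.col 37 (.br 5 (.bad 4 24 [9, 0, 2, 5, 7, 1])
  (.br 21 (.bad 4 257 [9, 2, 4, 7, 5, 1])
  (.br 12 (.col 5 (.col 13 (.bad 4 17 [9, 5, 7, 8, 6, 1])))
  (.br 15 (.col 2 (.col 3 (.col 4 (.col 9 (.col 13 (.col 24 (.col 26 (.br 27 (.bad 4 36 [9, 0, 3, 6, 8, 4])
  (.col 44 (.br 32 (.bad 4 129 [9, 2, 3, 6, 8, 4])
  (.col 42 (.br 6 (.col 12 (.col 43 (.col 45 (.col 46 (.col 18 (.br 25 (.bad 4 96 [9, 1, 2, 3, 4, 0])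
  (.bad 0 224 [9, 0, 2, 3, 4, 8])))))))
  (.col 45 (.br 10 (.col 25 (.col 27 (.col 32 (.col 39 (.bad 0 352 [9, 0, 1, 2, 4, 7])))))
  (.col 25 (.br 14 (.col 18 (.col 32 (.br 20 (.bad 4 576 [1, 2, 7, 8, 5, 4])
  (.bad 0 352 [9, 0, 1, 2, 4, 7]))))
  (.bad 2 48 [0, 2, 6, 9, 7, 8])))))))))))))))))
  (.br 10 (.col 6 (.col 7 (.col 13 (.col 25 (.col 27 (.br 6 (.bad 4 18 [9, 5, 7, 8, 6, 0])
  (.col 45 (.br 24 (.bad 4 36 [9, 3, 6, 7, 4, 0])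
  (.col 11 (.br 27 (.col 44 (.col 46 (.col 51 (.br 29 (.bad 4 192 [9, 0, 3, 2, 8, 4])
  (.col 9 (.br 16 (.bad 4 72 [9, 0, 2, 5, 7, 1])
  (.br 30 (.bad 4 65 [9, 3, 4, 5, 7, 1])
  (.bad 0 224 [9, 0, 2, 3, 4, 8]))))))))
  (.bad 2 36 [0, 3, 7, 9, 6, 8])))))))))))
  (.br 9 (.col 13 (.br 18 (.bad 4 6 [9, 0, 4, 5, 8, 3])
  (.br 22 (.col 14 (.col 28 (.col 42 (.br 6 (.col 10 (.col 11 (.col 12 (.col 15 (.col 16 (.col 17 (.col 18 (.col 29 (.col 30 (.col 32 (.sol 6)))))))))))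
  (.col 10 (.col 11 (.col 12 (.col 15 (.col 17 (.col 18 (.col 32 (.bad 2 160 [3, 4, 8, 9, 2, 6]))))))))))))
  (.col 14 (.col 42 (.br 6 (.col 12 (.col 15 (.col 18 (.col 32 (.bad 2 160 [0, 2, 3, 9, 6, 8])))))
  (.col 12 (.col 18 (.br 20 (.bad 4 66 [9, 0, 4, 5, 8, 3])
  (.br 33 (.col 32 (.bad 2 160 [0, 2, 3, 9, 4, 6]))
  (.bad 2 288 [0, 1, 4, 9, 6, 7])))))))))))
  (.col 13 (.br 18 (.col 25 (.col 39 (.col 40 (.col 44 (.col 50 (.br 23 (.bad 5 6 [3, 9, 6, 0, 8, 5, 4])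
  (.col 11 (.br 6 (.col 10 (.col 45 (.col 9 (.col 17 (.col 18 (.br 30 (.bad 4 65 [9, 3, 4, 5, 7, 1])
  (.bad 0 224 [9, 0, 2, 3, 4, 8])))))))
  (.col 45 (.br 22 (.col 14 (.col 9 (.br 16 (.bad 4 72 [9, 0, 2, 5, 7, 1])
  (.bad 2 96 [1, 2, 7, 9, 3, 8]))))
  (.bad 0 352 [9, 0, 1, 2, 4, 7])))))))))))
  (.bad 1 128 [9, 0, 2, 4, 5, 8]))))))))))))
  (.br 6 (.col 36 (.col 45 (.br 2 (.bad 4 24 [9, 1, 6, 5, 2, 0])
  (.br 5 (.bad 5 24 [1, 9, 6, 0, 7, 5, 2])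
  (.bad 2 24 [0, 2, 6, 9, 5, 7])))))
  (.br 31 (.col 33 (.col 42 (.br 19 (.bad 4 257 [9, 1, 6, 5, 2, 4])
  (.br 21 (.bad 5 257 [1, 9, 6, 2, 5, 7, 4])
  (.bad 2 257 [2, 4, 6, 9, 5, 7])))))
  (.br 9 (.col 8 (.col 12 (.col 13 (.col 19 (.col 22 (.col 23 (.br 20 (.bad 4 66 [9, 0, 4, 5, 8, 3])
  (.br 18 (.bad 4 6 [9, 0, 4, 5, 8, 3])
  (.br 22 (.bad 4 65 [9, 1, 4, 5, 8, 3])
  (.br 21 (.bad 4 129 [9, 2, 4, 5, 8, 3])
  (.br 19 (.bad 4 5 [9, 5, 8, 7, 6, 3])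
  (.br 2 (.col 4 (.col 40 (.br 25 (.bad 4 36 [9, 3, 4, 7, 6, 0])
  (.br 7 (.col 17 (.col 18 (.col 41 (.col 46 (.br 30 (.col 28 (.bad 4 9 [9, 5, 8, 7, 6, 2]))
  (.bad 0 224 [9, 0, 2, 3, 4, 8]))))))
  (.bad 2 96 [0, 1, 3, 9, 2, 8])))))
  (.br 3 (.col 41 (.br 14 (.bad 4 48 [9, 0, 1, 6, 7, 2])
  (.col 31 (.br 29 (.bad 4 9 [9, 5, 8, 7, 6, 2])
  (.col 28 (.br 16 (.col 17 (.col 32 (.br 27 (.bad 9 96 [2, 9, 8, 7, 1, 4, 0, 3])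
  (.bad 0 352 [9, 0, 1, 2, 4, 7]))))
  (.br 33 (.col 46 (.col 51 (.bad 2 260 [0, 4, 6, 9, 5, 7])))
  (.bad 2 160 [3, 4, 8, 9, 0, 6]))))))))
  (.br 32 (.col 28 (.br 25 (.col 16 (.col 29 (.col 30 (.col 45 (.bad 2 288 [0, 1, 4, 9, 2, 6])))))
  (.bad 2 34 [3, 4, 8, 9, 6, 7])))
  (.bad 2 257 [1, 4, 5, 9, 6, 7])))))))))))))))
  (.br 23 (.col 10 (.col 11 (.col 21 (.col 29 (.br 13 (.bad 4 66 [9, 3, 7, 5, 4, 0])
  (.br 10 (.bad 4 6 [9, 3, 6, 5, 4, 0])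
  (.br 7 (.bad 4 72 [9, 1, 2, 5, 8, 0])
  (.br 2 (.bad 4 12 [9, 5, 8, 7, 6, 0])
  (.br 18 (.col 40 (.br 11 (.bad 4 36 [9, 0, 4, 7, 8, 3])
  (.br 20 (.col 39 (.col 46 (.col 5 (.br 14 (.bad 4 48 [9, 0, 1, 6, 7, 2])
  (.br 8 (.bad 4 24 [9, 0, 1, 6, 7, 2])
  (.col 30 (.br 30 (.bad 4 33 [9, 3, 4, 7, 6, 2])
  (.bad 0 224 [9, 0, 2, 3, 4, 8]))))))))
  (.bad 2 96 [3, 4, 8, 9, 1, 2]))))
  (.bad 2 6 [0, 4, 6, 9, 5, 8]))))))))))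
  (.br 29 (.col 9 (.col 20 (.col 28 (.br 12 (.bad 4 129 [9, 3, 6, 5, 4, 2])
  (.br 11 (.bad 4 65 [9, 3, 7, 5, 4, 1])
  (.br 3 (.bad 4 9 [9, 5, 8, 7, 6, 2])
  (.br 21 (.col 38 (.bad 2 65 [1, 4, 7, 9, 5, 8]))
  (.bad 2 129 [2, 4, 6, 9, 5, 8]))))))))
  (.br 32 (.col 28 (.col 42 (.col 47 (.br 15 (.bad 4 129 [9, 2, 3, 6, 8, 4])
  (.br 28 (.bad 4 65 [9, 1, 3, 7, 8, 4])
  (.br 3 (.bad 4 257 [9, 1, 4, 7, 6, 2])
  (.br 11 (.bad 5 65 [4, 9, 5, 1, 8, 7, 3])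
  (.br 12 (.br 19 (.bad 4 33 [9, 2, 8, 7, 4, 3])
  (.bad 2 33 [2, 3, 7, 9, 6, 8]))
  (.bad 2 33 [3, 4, 8, 9, 6, 7])))))))))
  (.br 8 (.col 30 (.col 31 (.col 45 (.col 49 (.col 51 (.br 28 (.bad 4 72 [9, 0, 1, 8, 7, 2])
  (.br 3 (.bad 4 24 [9, 0, 1, 6, 7, 2])
  (.br 2 (.bad 5 24 [2, 9, 5, 0, 7, 6, 1])
  (.br 24 (.bad 5 72 [2, 9, 5, 0, 7, 8, 1])
  (.br 15 (.br 10 (.col 7 (.col 25 (.col 39 (.col 40 (.br 22 (.bad 4 33 [9, 2, 3, 6, 8, 4])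
  (.bad 0 352 [9, 0, 1, 2, 4, 7]))))))
  (.col 25 (.br 30 (.col 14 (.col 24 (.col 38 (.br 27 (.bad 4 36 [9, 0, 3, 6, 8, 4])
  (.bad 2 96 [3, 4, 8, 9, 2, 7])))))
  (.bad 0 224 [9, 0, 2, 3, 4, 8]))))
  (.bad 2 40 [1, 2, 7, 9, 6, 8])))))))))))
  (.br 3 (.br 15 (.col 3 (.br 26 (.bad 4 6 [9, 0, 3, 6, 8, 4])
  (.br 11 (.col 2 (.col 5 (.col 14 (.col 24 (.br 2 (.col 4 (.col 7 (.col 16 (.col 17 (.col 18 (.col 25 (.col 26 (.col 32 (.col 39 (.sol 5))))))))))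
  (.col 4 (.col 7 (.col 16 (.col 17 (.col 18 (.col 25 (.col 32 (.col 39 (.bad 2 320 [1, 2, 7, 9, 4, 5]))))))))))))))
  (.col 2 (.col 14 (.br 2 (.col 4 (.col 16 (.col 17 (.col 18 (.col 32 (.bad 2 192 [0, 2, 4, 9, 5, 8]))))))
  (.col 4 (.col 17 (.col 26 (.br 27 (.bad 4 36 [9, 0, 3, 6, 8, 4])
  (.br 33 (.col 50 (.bad 2 260 [0, 4, 6, 9, 5, 7]))
  (.bad 2 320 [0, 2, 4, 9, 5, 7]))))))))))))
  (.col 3 (.br 26 (.col 29 (.col 43 (.col 44 (.col 48 (.col 51 (.br 13 (.bad 5 66 [4, 9, 5, 0, 8, 7, 3])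
  (.col 6 (.br 2 (.col 4 (.col 7 (.col 41 (.col 5 (.col 17 (.col 18 (.br 30 (.bad 4 33 [9, 3, 4, 7, 6, 2])
  (.bad 0 224 [9, 0, 2, 3, 4, 8]))))))))
  (.col 41 (.br 22 (.col 14 (.col 5 (.br 14 (.bad 4 48 [9, 0, 1, 6, 7, 2])
  (.br 16 (.col 17 (.bad 2 36 [3, 4, 8, 9, 6, 7]))
  (.bad 0 224 [9, 0, 2, 3, 4, 8])))))
  (.bad 0 352 [9, 0, 1, 2, 4, 7])))))))))))
  (.bad 1 64 [9, 0, 1, 3, 7, 8]))))
  (.br 26 (.col 29 (.col 43 (.col 48 (.br 15 (.bad 4 6 [9, 0, 3, 6, 8, 4])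
  (.br 28 (.bad 4 66 [9, 0, 3, 7, 8, 4])
  (.br 13 (.bad 5 66 [4, 9, 5, 0, 8, 7, 3])
  (.br 10 (.bad 5 6 [4, 9, 5, 0, 8, 6, 3])
  (.bad 2 34 [3, 4, 8, 9, 6, 7]))))))))
  (.bad 1 256 [9, 0, 1, 4, 6, 7])))))))))))))

def B_la11_011 : Dat where
  r := 5
  V := [[.i, .o, .o, .o, .o],
    [.o, .i, .o, .o, .o],
    [.o, .o, .i, .o, .o],
    [.o, .o, .o, .i, .o],
    [.o, .o, .o, .o, .i],
    [.i, .i, .o, .i, .o],
    [.i, .o, .w, .o, .v],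
    [.o, .i, .i, .o, .o],
    [.o, .o, .o, .i, .i]]
  P := [[.i, .o, .o, .o, .o],
    [.o, .i, .o, .o, .o],
    [.o, .o, .i, .o, .o],
    [.o, .o, .o, .i, .o],
    [.o, .o, .o, .o, .i],
    [.i, .i, .o, .i, .o],
    [.i, .o, .w, .o, .v],
    [.o, .i, .i, .o, .o],
    [.o, .o, .o, .i, .i],
    [.o, .i, .o, .i, .o],
    [.i, .o, .o, .i, .o],
    [.i, .i, .o, .o, .o],
    [.o, .o, .w, .o, .v],
    [.i, .o, .o, .o, .v],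
    [.i, .o, .w, .o, .o],
    [.o, .o, .o, .o, .o]]
  F := [[.i, .o, .o, .o, .o],
    [.o, .i, .o, .o, .o],
    [.i, .i, .o, .o, .o],
    [.o, .o, .i, .o, .o],
    [.o, .i, .i, .o, .o],
    [.i, .i, .i, .o, .o],
    [.i, .o, .v, .o, .o],
    [.i, .i, .v, .o, .o],
    [.i, .v, .v, .o, .o],
    [.o, .o, .o, .i, .o],
    [.i, .o, .o, .i, .o],
    [.o, .i, .o, .i, .o],
    [.o, .i, .i, .i, .o],
    [.i, .o, .v, .i, .o],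
    [.i, .v, .v, .w, .o],
    [.o, .o, .o, .o, .i],
    [.i, .i, .i, .o, .i],
    [.o, .o, .o, .i, .i],
    [.i, .o, .o, .i, .i],
    [.o, .i, .o, .i, .i],
    [.i, .o, .i, .i, .i],
    [.o, .i, .i, .i, .i],
    [.o, .i, .w, .i, .i],
    [.i, .o, .o, .o, .w],
    [.i, .i, .o, .o, .w],
    [.i, .o, .o, .i, .w],
    [.i, .o, .o, .w, .w],
    [.i, .v, .o, .w, .w],
    [.o, .o, .i, .o, .v],
    [.o, .i, .i, .o, .v],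
    [.o, .i, .i, .i, .v],
    [.o, .o, .i, .v, .v],
    [.o, .i, .i, .v, .v],
    [.i, .w, .w, .v, .v]]
  ht := 0x1e001c1014300e100c9006b016401c600e6006c00ce016101a10162012501a6018700e800af00f0007200b1007500b600d701d80178015a01b80199013b013c015d019e
  ct := 0x21000000000000000000000000000800000000000008000001a006900000000000000000000000000000050000000000000500000120048a800000000000007f000000000002000000000000020001fc8802200000000000000000000000000000000700000000000007000001b0050b000000000000007f000000100180800000001001808000680803e000000000000000007f0000002000c1800000002000c18000489800600000000007f01fff80000008006000000000080060000022000000000000000000000000000000000000000e0000000000001000000190064f0000000000000008000000900244800000017005ce8001fc480120000000000000000005000000a0028600000000f003c78001fc7801e000000000000000020001fc480120000001fc7801e00000fe00000000000000000000000007000000b003458000000180070e0000645803800000000000100180800027f801200000005c0803800000120000000000000000002000c18000285800600000003c780fe000001e00000000000000000800600000120000000000001e00000000000000000000000000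
  cl := [(15, 1, 0x8002),
    (23, 2, 0x208),
    (39, 1, 0x88800),
    (46, 2, 0x10008008),
    (45, 0, 0x1008004),
    (51, 1, 0x1808),
    (51, 0, 0x2408),
    (53, 0, 0xc04),
    (71, 2, 0x90000200),
    (75, 1, 0x30000002),
    (75, 0, 0x10800040),
    (77, 0, 0x1800002),
    (83, 0, 0x2240),
    (86, 1, 0xa02),
    (99, 1, 0x50400800),
    (99, 0, 0x12102000),
    (101, 0, 0xb000800),
    (105, 0, 0x11010080),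
    (113, 0, 0x6880),
    (141, 3, 0x28200),
    (139, 1, 0x20008010),
    (141, 0, 0x808001),
    (147, 1, 0x1210),
    (149, 0, 0x601),
    (163, 1, 0x40209000),
    (165, 0, 0x2048400),
    (169, 0, 0x18020),
    (177, 0, 0x5420),
    (195, 1, 0x160000200),
    (197, 0, 0x6800200),
    (201, 0, 0x20810100),
    (209, 0, 0x4300),
    (225, 0, 0x242014000),
    (263, 2, 0x80020008),
    (263, 1, 0xa0002),
    (275, 1, 0x1a),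
    (275, 0, 0x49),
    (277, 0, 0x7),
    (291, 1, 0x680008),
    (291, 0, 0x140008),
    (293, 0, 0x80c0004),
    (305, 0, 0xac),
    (323, 1, 0x180400002),
    (323, 0, 0x84100040),
    (325, 0, 0xc000002),
    (337, 0, 0x1c2),
    (353, 0, 0x208500080),
    (387, 1, 0x100220010),
    (389, 0, 0x4060001),
    (401, 0, 0x131),
    (417, 0, 0x200240020),
    (449, 0, 0x304000100)]
  sl := [0x1f06a9a1a, 0x9696a649, 0xf8e8e07, 0x318181ff, 0x7fff, 0x25b7dfcac, 0x3ffd16bc2, 0x366a7d731, 0x38c7e01ff, 0x50e89849, 0x3214a41a, 0x910382ac, 0x1f0400e07, 0xf801a1a, 0xaebc2, 0x3ffffffff]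
  t := B_la11_011_t

theorem B_la11_011_okD : B_la11_011.ckD = true := by decide +kernel

theorem B_la11_011_okT : B_la11_011.ckT TTab B_la11_011.t 0 0 = true := by decide +kernel

theorem lext_la11_011 : LExt 5 9 (vecL 5 B_la11_011.V) (vecP 5 B_la11_011.P) :=
  lext_of_chk' B_la11_011 B_la11_011_okD B_la11_011_okT (by decide)

end QG
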