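import Pool.Agent.Lib.QG.BC8

/-! MP_2e6874_co, part (B): data for la11_012. -/

set_option autoImplicit false
set_option maxRecDepth 100000

namespace QG

def B_la11_012_t : Tr :=
  .br 0 (.br 4 (.col 118 (.br 31 (.col 114 (.col 115 (.col 116 (.br 1 (.col 101 (.col 102 (.col 103 (.col 104 (.col 105 (.col 106 (.col 108 (.br 9 (.col 71 (.col 72 (.col 73 (.col 74 (.col 75 (.col 76 (.col 78 (.col 80 (.col 81 (.col 85 (.col 86 (.br 15 (.col 16 (.col 17 (.col 18 (.col 20 (.col 21 (.col 22 (.col 24 (.col 25 (.col 26 (.col 27 (.col 35 (.col 37 (.col 39 (.col 44 (.sol 17)))))))))))))))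
  (.col 16 (.col 17 (.col 18 (.col 20 (.col 21 (.col 22 (.col 24 (.col 25 (.col 26 (.col 27 (.col 35 (.col 37 (.col 39 (.col 44 (.sol 10)))))))))))))))))))))))))))
  (.col 71 (.col 72 (.col 73 (.col 74 (.col 75 (.col 76 (.col 78 (.col 80 (.col 81 (.col 85 (.col 86 (.br 15 (.col 16 (.col 29 (.col 30 (.col 35 (.col 36 (.col 38 (.col 41 (.col 42 (.col 43 (.col 44 (.col 45 (.col 49 (.col 50 (.col 52 (.sol 9)))))))))))))))
  (.col 35 (.col 41 (.col 42 (.col 44 (.col 49 (.col 52 (.br 23 (.bad 4 67 [11, 5, 8, 9, 10, 7])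
  (.br 19 (.bad 4 224 [11, 1, 2, 9, 10, 0])
  (.br 22 (.bad 4 193 [11, 5, 8, 9, 10, 1])
  (.bad 0 2400 [0, 2, 3, 4, 7, 10]))))))))))))))))))))))))))))))
  (.col 101 (.col 102 (.col 103 (.col 104 (.col 105 (.col 106 (.col 108 (.br 9 (.col 71 (.col 83 (.col 84 (.col 86 (.col 87 (.col 88 (.col 89 (.col 90 (.col 91 (.col 95 (.col 70 (.br 15 (.col 16 (.col 17 (.col 18 (.col 20 (.col 21 (.col 22 (.col 24 (.col 25 (.col 26 (.col 27 (.col 35 (.col 37 (.col 39 (.col 44 (.sol 8)))))))))))))))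
  (.col 16 (.col 18 (.col 21 (.col 22 (.col 24 (.col 25 (.col 26 (.col 27 (.br 20 (.bad 4 97 [11, 3, 7, 8, 10, 4])
  (.br 18 (.bad 4 76 [11, 5, 9, 8, 10, 4])
  (.br 28 (.bad 4 530 [11, 5, 6, 10, 8, 0])
  (.br 26 (.bad 4 517 [11, 5, 6, 8, 10, 7])
  (.bad 2 608 [1, 2, 8, 11, 4, 7])))))))))))))))))))))))))
  (.col 86 (.col 88 (.col 89 (.col 90 (.col 91 (.col 95 (.br 13 (.bad 4 146 [11, 5, 6, 9, 8, 0])
  (.br 45 (.bad 4 1090 [11, 0, 3, 8, 9, 7])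
  (.br 41 (.bad 4 1036 [11, 5, 6, 8, 9, 0])
  (.br 11 (.bad 4 145 [11, 5, 6, 9, 8, 1])
  (.bad 2 1120 [1, 2, 8, 11, 3, 7])))))))))))))))))))))))
  (.col 114 (.col 115 (.col 116 (.br 1 (.col 101 (.col 105 (.col 107 (.col 109 (.col 110 (.col 111 (.col 112 (.col 103 (.br 37 (.col 43 (.col 47 (.col 50 (.col 57 (.col 60 (.bad 4 518 [11, 4, 7, 6, 5, 0]))))))
  (.br 38 (.col 42 (.col 49 (.col 59 (.bad 4 577 [11, 4, 7, 8, 5, 1]))))
  (.br 42 (.col 76 (.col 77 (.bad 4 1120 [11, 1, 2, 3, 7, 0])))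
  (.br 47 (.col 75 (.col 80 (.col 89 (.bad 4 1057 [11, 3, 7, 8, 6, 2]))))
  (.br 9 (.col 71 (.col 72 (.col 73 (.col 74 (.col 78 (.col 83 (.col 84 (.col 85 (.col 86 (.col 96 (.col 97 (.br 15 (.col 16 (.col 17 (.col 18 (.col 22 (.col 27 (.col 29 (.col 30 (.col 31 (.col 32 (.col 33 (.col 35 (.col 37 (.col 47 (.col 48 (.sol 7)))))))))))))))
  (.col 29 (.col 30 (.col 31 (.col 32 (.col 33 (.col 47 (.col 48 (.br 39 (.col 27 (.col 45 (.col 58 (.col 61 (.sol 4)))))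
  (.bad 0 864 [11, 0, 2, 4, 7, 10])))))))))))))))))))))
  (.col 83 (.col 84 (.col 85 (.col 96 (.col 97 (.br 30 (.col 78 (.col 91 (.col 94 (.br 15 (.col 16 (.col 17 (.col 18 (.col 20 (.col 21 (.col 22 (.col 24 (.col 25 (.col 26 (.col 27 (.col 35 (.col 37 (.col 47 (.col 48 (.sol 3)))))))))))))))
  (.col 16 (.col 26 (.br 39 (.bad 4 352 [11, 3, 10, 9, 4, 7])
  (.bad 0 864 [11, 0, 2, 4, 7, 10]))))))))
  (.bad 0 1376 [11, 0, 2, 3, 7, 9]))))))))))))))))))))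
  (.col 109 (.col 111 (.br 48 (.bad 4 1537 [11, 1, 6, 8, 7, 2])
  (.br 33 (.bad 4 1568 [11, 0, 2, 7, 8, 1])
  (.br 36 (.bad 5 1537 [7, 11, 8, 1, 6, 5, 2])
  (.bad 2 1537 [1, 2, 8, 11, 5, 6]))))))))))))
  (.col 118 (.br 7 (.col 112 (.col 113 (.bad 4 152 [11, 1, 2, 5, 6, 0])))
  (.br 14 (.col 85 (.col 98 (.col 99 (.br 3 (.bad 4 176 [11, 0, 1, 6, 8, 2])
  (.col 110 (.br 2 (.bad 5 176 [2, 11, 9, 0, 8, 6, 1])
  (.col 111 (.bad 11 144 [2, 11, 6, 9, 5, 0, 8, 1]))))))))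
  (.br 16 (.col 52 (.col 65 (.col 66 (.br 1 (.bad 4 200 [11, 0, 2, 5, 8, 1])
  (.col 111 (.br 6 (.bad 5 200 [1, 11, 10, 0, 8, 5, 2])
  (.col 110 (.bad 11 136 [1, 11, 5, 10, 6, 0, 8, 2]))))))))
  (.br 30 (.col 26 (.col 78 (.col 91 (.col 94 (.col 95 (.br 39 (.bad 4 352 [11, 3, 10, 9, 4, 7])
  (.br 15 (.bad 4 296 [11, 2, 9, 6, 10, 4])
  (.br 20 (.bad 4 104 [11, 1, 9, 8, 10, 4])
  (.br 22 (.bad 4 352 [11, 0, 7, 3, 10, 4])
  (.br 21 (.bad 4 328 [11, 0, 9, 5, 10, 4])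
  (.br 1 (.bad 4 1096 [11, 0, 2, 5, 8, 1])
  (.col 111 (.br 38 (.col 42 (.col 56 (.col 59 (.col 55 (.br 3 (.bad 4 545 [11, 4, 7, 6, 8, 2])
  (.bad 2 560 [0, 2, 6, 11, 8, 10]))))))
  (.bad 2 352 [4, 7, 10, 11, 0, 9]))))))))))))))
  (.br 39 (.col 27 (.col 45 (.col 58 (.col 62 (.br 22 (.bad 4 352 [11, 0, 7, 4, 9, 3])
  (.br 12 (.bad 4 304 [11, 0, 10, 6, 9, 3])
  (.br 11 (.bad 4 112 [11, 2, 10, 8, 9, 3])
  (.br 10 (.bad 4 304 [11, 2, 10, 6, 9, 3])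
  (.col 97 (.br 3 (.bad 4 560 [11, 0, 1, 6, 8, 2])
  (.col 110 (.br 47 (.col 75 (.col 89 (.col 92 (.col 95 (.col 88 (.br 1 (.bad 4 1089 [11, 3, 7, 5, 8, 1])
  (.br 43 (.col 106 (.col 107 (.bad 0 1632 [11, 0, 1, 2, 7, 8])))
  (.bad 2 1344 [3, 7, 9, 11, 2, 5]))))))))
  (.bad 2 352 [3, 7, 9, 11, 0, 10])))))))))))))
  (.br 50 (.col 62 (.col 95 (.br 23 (.bad 4 352 [11, 3, 4, 9, 10, 7])
  (.br 19 (.bad 5 352 [7, 11, 2, 3, 10, 9, 4])
  (.br 22 (.bad 5 352 [7, 11, 0, 3, 10, 9, 4])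
  (.bad 0 2400 [0, 2, 3, 4, 7, 10]))))))
  (.br 31 (.col 114 (.col 115 (.br 9 (.col 86 (.col 87 (.col 88 (.col 89 (.col 90 (.br 15 (.col 16 (.col 17 (.col 18 (.col 20 (.col 21 (.col 22 (.col 24 (.col 25 (.br 36 (.col 42 (.col 44 (.col 47 (.col 51 (.col 69 (.col 71 (.col 101 (.bad 4 1537 [11, 1, 2, 5, 6, 7]))))))))
  (.br 1 (.col 41 (.col 42 (.col 43 (.col 44 (.col 47 (.col 48 (.col 50 (.col 69 (.col 70 (.col 71 (.col 76 (.col 77 (.col 101 (.sol 2))))))))))))))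
  (.col 41 (.col 44 (.col 48 (.col 70 (.col 77 (.col 101 (.br 34 (.col 43 (.col 47 (.col 50 (.col 69 (.col 71 (.col 76 (.sol 1)))))))
  (.bad 0 1632 [11, 0, 1, 2, 7, 8]))))))))))))))))))
  (.col 16 (.col 22 (.col 25 (.br 38 (.col 24 (.col 31 (.bad 4 321 [11, 4, 7, 5, 9, 3])))
  (.bad 0 864 [11, 0, 2, 4, 7, 10])))))))))))
  (.col 86 (.col 90 (.br 47 (.col 89 (.col 92 (.bad 5 1281 [2, 11, 9, 3, 6, 5, 7])))
  (.bad 0 1376 [11, 0, 2, 3, 7, 9])))))))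
  (.col 115 (.br 37 (.col 57 (.col 60 (.bad 4 518 [11, 4, 7, 6, 5, 0])))
  (.br 38 (.br 18 (.col 44 (.col 52 (.bad 4 608 [11, 0, 8, 7, 2, 1])))
  (.br 19 (.col 25 (.col 33 (.col 24 (.bad 0 1376 [11, 0, 2, 3, 7, 9]))))
  (.br 13 (.col 12 (.col 42 (.br 28 (.bad 4 608 [11, 0, 8, 4, 1, 2])
  (.col 6 (.col 24 (.br 42 (.col 76 (.col 90 (.col 93 (.col 103 (.col 106 (.bad 4 146 [11, 5, 6, 9, 8, 0]))))))
  (.bad 0 1376 [11, 0, 2, 3, 7, 9])))))))
  (.br 11 (.br 20 (.col 11 (.col 24 (.col 25 (.col 42 (.col 43 (.col 44 (.col 75 (.col 77 (.br 1 (.col 41 (.col 49 (.col 51 (.col 53 (.col 54 (.col 55 (.col 56 (.col 59 (.col 72 (.col 74 (.col 84 (.col 86 (.col 89 (.col 97 (.col 101 (.col 102 (.col 105 (.col 106 (.col 111 (.sol 14))))))))))))))))))))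
  (.col 41 (.col 49 (.col 55 (.col 59 (.col 72 (.col 84 (.col 97 (.col 105 (.col 111 (.br 3 (.col 36 (.col 47 (.col 56 (.col 64 (.col 69 (.col 80 (.col 88 (.col 102 (.col 110 (.sol 11))))))))))
  (.bad 2 1568 [1, 2, 8, 11, 6, 7]))))))))))))))))))))
  (.col 11 (.col 24 (.col 42 (.bad 4 97 [11, 4, 7, 8, 9, 3])))))
  (.br 20 (.col 11 (.col 24 (.col 42 (.col 75 (.br 42 (.bad 4 98 [11, 3, 7, 8, 10, 4])
  (.bad 0 1376 [11, 0, 2, 3, 7, 9]))))))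
  (.bad 2 224 [1, 2, 8, 11, 9, 10]))))))
  (.bad 0 864 [11, 0, 2, 4, 7, 10])))))))))))))
  (.br 4 (.col 118 (.br 1 (.col 109 (.col 110 (.col 111 (.col 112 (.br 14 (.col 85 (.col 98 (.bad 4 176 [11, 0, 1, 6, 8, 2])))
  (.br 16 (.col 52 (.col 66 (.bad 4 200 [11, 0, 2, 5, 8, 1])))
  (.br 30 (.col 78 (.col 94 (.bad 4 1096 [11, 0, 2, 5, 8, 1])))
  (.br 39 (.col 45 (.col 58 (.bad 4 560 [11, 0, 1, 6, 8, 2])))
  (.br 50 (.col 62 (.col 95 (.br 23 (.bad 4 352 [11, 3, 4, 9, 10, 7])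
  (.br 19 (.bad 5 352 [7, 11, 2, 3, 10, 9, 4])
  (.br 22 (.bad 5 352 [7, 11, 0, 3, 10, 9, 4])
  (.bad 0 2400 [0, 2, 3, 4, 7, 10]))))))
  (.br 31 (.col 100 (.col 101 (.col 102 (.col 104 (.col 105 (.col 106 (.br 9 (.col 71 (.col 72 (.col 73 (.col 74 (.col 75 (.col 76 (.col 80 (.col 81 (.col 86 (.br 15 (.col 16 (.col 17 (.col 18 (.col 20 (.col 21 (.col 22 (.col 24 (.col 25 (.col 35 (.col 37 (.col 39 (.col 44 (.sol 0)))))))))))))
  (.col 16 (.col 24 (.col 35 (.br 37 (.col 25 (.col 44 (.bad 4 100 [11, 4, 7, 8, 9, 3])))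
  (.bad 0 864 [11, 0, 2, 4, 7, 10])))))))))))))))
  (.col 71 (.col 75 (.col 86 (.br 42 (.col 76 (.col 81 (.col 93 (.bad 5 1030 [0, 11, 9, 3, 6, 5, 7]))))
  (.bad 0 1376 [11, 0, 2, 3, 7, 9]))))))))))))
  (.col 100 (.col 101 (.col 102 (.col 105 (.br 37 (.col 62 (.br 19 (.col 25 (.col 33 (.col 95 (.br 9 (.col 22 (.col 31 (.col 32 (.col 39 (.col 40 (.col 41 (.col 43 (.col 44 (.col 47 (.col 54 (.col 55 (.col 57 (.col 60 (.col 71 (.col 72 (.col 76 (.col 77 (.col 80 (.col 81 (.col 86 (.col 93 (.sol 15))))))))))))))))))))))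
  (.col 22 (.col 32 (.col 41 (.col 44 (.col 54 (.col 60 (.col 77 (.col 80 (.col 93 (.br 34 (.col 43 (.col 47 (.col 49 (.col 57 (.col 76 (.col 81 (.col 90 (.col 20 (.sol 12)))))))))
  (.bad 0 1632 [11, 0, 1, 2, 7, 8])))))))))))))))
  (.col 25 (.br 47 (.col 75 (.col 80 (.col 89 (.bad 4 1057 [11, 3, 7, 8, 6, 2]))))
  (.bad 0 1376 [11, 0, 2, 3, 7, 9])))))
  (.br 38 (.col 42 (.col 49 (.col 59 (.bad 4 577 [11, 4, 7, 8, 5, 1]))))
  (.bad 0 864 [11, 0, 2, 4, 7, 10])))))))))))))))))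
  (.col 109 (.br 2 (.bad 4 152 [11, 0, 8, 5, 2, 1])
  (.br 6 (.bad 4 152 [11, 0, 8, 6, 1, 2])
  (.br 7 (.bad 5 152 [0, 11, 8, 1, 6, 5, 2])
  (.bad 2 152 [1, 2, 8, 11, 5, 6])))))))
  (.br 31 (.col 114 (.col 115 (.br 9 (.col 86 (.col 87 (.col 88 (.col 89 (.col 90 (.br 15 (.col 16 (.col 17 (.col 18 (.col 20 (.col 21 (.col 22 (.col 24 (.col 25 (.br 34 (.col 43 (.col 47 (.col 69 (.col 71 (.col 76 (.col 83 (.bad 4 1090 [11, 0, 7, 5, 9, 3])))))))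
  (.br 36 (.col 42 (.col 47 (.col 69 (.col 71 (.col 75 (.col 84 (.col 101 (.bad 4 1537 [11, 1, 2, 5, 6, 7]))))))))
  (.br 44 (.col 44 (.col 48 (.col 70 (.col 77 (.col 84 (.col 101 (.bad 4 548 [11, 0, 7, 6, 10, 4])))))))
  (.br 7 (.col 108 (.br 1 (.col 41 (.col 42 (.col 44 (.col 45 (.col 47 (.col 48 (.col 52 (.col 58 (.col 61 (.col 69 (.col 70 (.col 71 (.col 78 (.col 84 (.col 85 (.col 101 (.col 113 (.sol 16))))))))))))))))))
  (.col 41 (.col 45 (.col 61 (.col 84 (.col 85 (.col 101 (.col 113 (.br 16 (.col 26 (.col 52 (.col 65 (.col 78 (.col 112 (.col 39 (.sol 13)))))))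
  (.bad 0 864 [11, 0, 2, 4, 7, 10])))))))))))
  (.br 50 (.col 62 (.col 65 (.col 91 (.col 95 (.bad 4 352 [11, 3, 4, 9, 10, 7])))))
  (.bad 0 1632 [11, 0, 1, 2, 7, 8]))))))))))))))
  (.col 16 (.col 22 (.br 21 (.bad 4 265 [11, 5, 10, 6, 9, 4])
  (.col 31 (.br 38 (.bad 4 321 [11, 4, 7, 5, 9, 3])
  (.br 27 (.bad 4 273 [11, 5, 9, 6, 10, 3])
  (.bad 2 289 [4, 7, 10, 11, 6, 9])))))))))))))
  (.col 86 (.br 40 (.bad 4 1030 [11, 0, 9, 6, 3, 7])
  (.br 10 (.bad 4 1030 [11, 0, 9, 5, 7, 3])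
  (.br 42 (.bad 5 1030 [0, 11, 9, 3, 6, 5, 7])
  (.bad 2 1030 [3, 7, 9, 11, 5, 6]))))))))
  (.br 1 (.col 101 (.col 109 (.col 111 (.br 5 (.bad 4 152 [11, 0, 2, 5, 8, 1])
  (.br 35 (.bad 4 1537 [11, 2, 7, 8, 5, 1])
  (.br 12 (.col 80 (.col 84 (.bad 4 145 [11, 5, 8, 9, 6, 1])))
  (.br 27 (.col 36 (.col 41 (.bad 4 529 [11, 5, 8, 10, 6, 1])))
  (.br 15 (.col 29 (.col 35 (.col 41 (.col 47 (.col 48 (.col 49 (.col 51 (.col 56 (.col 65 (.br 48 (.bad 4 515 [11, 6, 10, 8, 7, 4])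
  (.col 105 (.br 43 (.bad 4 518 [11, 0, 7, 6, 10, 4])
  (.col 107 (.br 6 (.col 40 (.col 113 (.col 117 (.col 45 (.br 37 (.col 57 (.bad 4 530 [11, 5, 8, 10, 6, 0]))
  (.bad 0 864 [11, 0, 2, 4, 7, 10]))))))
  (.col 113 (.br 9 (.col 22 (.col 71 (.col 83 (.col 84 (.col 85 (.br 39 (.bad 4 112 [11, 2, 10, 8, 9, 3])
  (.br 34 (.bad 4 1120 [11, 0, 7, 1, 9, 3])
  (.br 50 (.col 116 (.col 57 (.bad 2 560 [0, 2, 6, 11, 8, 10])))
  (.bad 0 1632 [11, 0, 1, 2, 7, 8])))))))))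
  (.col 84 (.br 10 (.col 30 (.col 33 (.br 23 (.col 25 (.col 43 (.col 62 (.bad 0 1632 [11, 0, 1, 2, 7, 8]))))
  (.col 18 (.col 25 (.br 39 (.bad 4 352 [11, 2, 7, 4, 9, 3])
  (.bad 2 560 [0, 2, 6, 11, 8, 10])))))))
  (.col 30 (.br 14 (.col 85 (.bad 11 192 [2, 11, 8, 9, 5, 1, 10, 0]))
  (.bad 2 224 [0, 2, 10, 11, 8, 9])))))))))))))))))))))
  (.br 25 (.col 37 (.col 38 (.col 41 (.col 57 (.col 58 (.br 6 (.bad 4 530 [11, 5, 8, 10, 6, 0])
  (.col 113 (.br 17 (.bad 4 518 [11, 4, 5, 6, 7, 0])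
  (.col 51 (.br 43 (.col 107 (.col 108 (.col 117 (.br 21 (.bad 4 832 [11, 0, 7, 2, 10, 4])
  (.col 49 (.br 16 (.bad 4 200 [11, 0, 2, 5, 8, 1])
  (.br 38 (.bad 4 577 [11, 4, 7, 8, 5, 1])
  (.bad 0 864 [11, 0, 2, 4, 7, 10]))))))))
  (.bad 2 518 [0, 5, 7, 11, 6, 10])))))))))))
  (.br 10 (.col 18 (.col 81 (.col 82 (.col 84 (.col 98 (.br 39 (.bad 4 304 [11, 2, 10, 6, 9, 3])
  (.br 7 (.bad 4 176 [11, 1, 2, 9, 6, 0])
  (.br 24 (.bad 4 22 [11, 5, 10, 6, 9, 3])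
  (.col 41 (.bad 2 560 [0, 2, 6, 11, 8, 10]))))))))))
  (.br 24 (.col 41 (.br 32 (.bad 4 548 [11, 0, 4, 8, 10, 7])
  (.br 9 (.col 22 (.col 84 (.col 86 (.br 20 (.col 4 (.col 11 (.col 24 (.col 31 (.col 39 (.col 42 (.col 59 (.col 72 (.br 6 (.col 40 (.col 43 (.col 44 (.col 45 (.col 50 (.col 52 (.col 60 (.col 61 (.col 62 (.col 73 (.col 74 (.col 76 (.col 78 (.col 85 (.col 12 (.sol 6))))))))))))))))
  (.col 40 (.col 43 (.col 44 (.col 45 (.col 52 (.col 62 (.bad 2 1568 [1, 2, 8, 11, 6, 7]))))))))))))))))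
  (.col 4 (.col 11 (.col 24 (.col 42 (.br 6 (.col 40 (.col 43 (.col 44 (.col 45 (.col 52 (.col 62 (.bad 2 1568 [1, 2, 8, 11, 0, 6])))))))
  (.col 40 (.col 45 (.col 83 (.col 85 (.br 34 (.bad 4 1120 [11, 0, 7, 1, 9, 3])
  (.br 37 (.col 25 (.col 33 (.col 62 (.col 77 (.col 78 (.bad 2 1312 [3, 7, 9, 11, 0, 6]))))))
  (.bad 2 546 [4, 7, 10, 11, 6, 8]))))))))))))))))
  (.col 22 (.col 84 (.br 29 (.bad 4 7 [11, 5, 10, 9, 6, 7])
  (.bad 1 1056 [11, 0, 2, 7, 8, 9])))))))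
  (.col 41 (.br 32 (.col 57 (.col 90 (.col 104 (.col 107 (.br 23 (.bad 4 38 [11, 3, 4, 9, 10, 7])
  (.br 11 (.bad 4 1060 [11, 0, 7, 8, 9, 3])
  (.col 84 (.br 40 (.bad 5 1030 [3, 11, 6, 0, 9, 5, 7])
  (.col 74 (.br 18 (.bad 5 548 [7, 11, 6, 0, 10, 8, 4])
  (.bad 2 100 [3, 4, 8, 11, 9, 10])))))))))))
  (.bad 1 544 [11, 0, 2, 4, 8, 10]))))))))))))))
  (.br 6 (.col 110 (.col 113 (.br 2 (.bad 4 152 [11, 1, 6, 5, 2, 0])
  (.br 5 (.bad 5 152 [1, 11, 6, 0, 8, 5, 2])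
  (.bad 2 152 [0, 2, 6, 11, 5, 8])))))
  (.br 48 (.col 100 (.col 105 (.br 33 (.bad 4 1537 [11, 1, 6, 5, 2, 7])
  (.br 35 (.bad 5 1537 [1, 11, 6, 2, 5, 8, 7])
  (.bad 2 1537 [2, 6, 7, 11, 5, 8])))))
  (.br 9 (.col 71 (.col 83 (.col 84 (.col 86 (.col 96 (.col 97 (.br 34 (.bad 4 1090 [11, 0, 7, 5, 9, 3])
  (.br 33 (.bad 4 1029 [11, 5, 9, 8, 7, 3])
  (.br 35 (.bad 4 1281 [11, 2, 7, 5, 9, 3])
  (.br 32 (.bad 4 1030 [11, 0, 7, 5, 9, 3])
  (.br 36 (.bad 4 1089 [11, 1, 7, 5, 9, 3])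
  (.br 2 (.col 70 (.br 40 (.bad 4 1036 [11, 5, 9, 8, 6, 0])
  (.col 93 (.br 3 (.col 112 (.col 116 (.col 78 (.col 85 (.br 47 (.bad 4 1057 [11, 3, 7, 8, 6, 2])
  (.bad 0 1376 [11, 0, 2, 3, 7, 9]))))))
  (.bad 2 1058 [3, 7, 9, 11, 6, 8])))))
  (.br 3 (.col 112 (.br 14 (.bad 4 176 [11, 0, 1, 6, 8, 2])
  (.col 99 (.br 15 (.col 16 (.col 22 (.col 35 (.col 36 (.col 47 (.col 56 (.col 57 (.col 37 (.br 39 (.bad 4 608 [11, 0, 1, 4, 8, 2])
  (.bad 2 784 [0, 2, 6, 11, 5, 10]))))))))))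
  (.col 47 (.br 21 (.bad 4 137 [11, 5, 10, 8, 6, 2])
  (.col 31 (.br 16 (.col 33 (.col 52 (.bad 11 160 [1, 11, 8, 10, 6, 2, 9, 0])))
  (.br 17 (.col 32 (.col 51 (.br 23 (.col 25 (.col 44 (.col 62 (.bad 0 1632 [11, 0, 1, 2, 7, 8]))))
  (.col 22 (.col 25 (.br 39 (.bad 4 352 [11, 2, 7, 4, 9, 3])
  (.br 28 (.bad 4 578 [11, 4, 5, 8, 7, 0])
  (.br 27 (.bad 4 273 [11, 5, 9, 6, 10, 3])
  (.col 36 (.bad 2 608 [1, 2, 8, 11, 4, 7]))))))))))
  (.bad 2 392 [0, 2, 5, 11, 6, 10]))))))))))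
  (.br 47 (.col 92 (.br 42 (.col 77 (.col 93 (.col 94 (.col 95 (.col 108 (.bad 2 1568 [0, 1, 7, 11, 2, 6]))))))
  (.bad 2 1058 [3, 7, 9, 11, 6, 8])))
  (.bad 2 1057 [2, 6, 7, 11, 8, 9])))))))))))))))
  (.br 24 (.col 22 (.col 39 (.col 40 (.col 41 (.col 53 (.col 54 (.col 55 (.br 45 (.bad 4 67 [11, 5, 10, 9, 8, 7])
  (.br 33 (.bad 4 517 [11, 5, 10, 8, 6, 7])
  (.br 29 (.bad 4 7 [11, 5, 10, 9, 6, 7])
  (.br 32 (.bad 4 518 [11, 0, 4, 5, 10, 7])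
  (.br 11 (.bad 4 21 [11, 5, 10, 8, 9, 3])
  (.br 10 (.bad 4 22 [11, 5, 10, 6, 9, 3])
  (.br 12 (.bad 4 273 [11, 5, 10, 6, 9, 3])
  (.br 13 (.bad 4 82 [11, 5, 10, 8, 9, 3])
  (.br 35 (.bad 4 769 [11, 2, 4, 5, 10, 7])
  (.br 3 (.br 14 (.bad 4 176 [11, 0, 1, 6, 8, 2])
  (.br 39 (.bad 4 560 [11, 0, 1, 6, 8, 2])
  (.br 47 (.bad 4 1057 [11, 3, 7, 8, 6, 2])
  (.br 38 (.bad 4 545 [11, 4, 7, 6, 8, 2])
  (.br 5 (.col 65 (.col 91 (.col 116 (.br 37 (.col 25 (.bad 0 1376 [11, 0, 2, 3, 7, 9]))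
  (.bad 0 864 [11, 0, 2, 4, 7, 10])))))
  (.bad 0 2352 [0, 2, 3, 6, 9, 10]))))))
  (.bad 1 1025 [11, 2, 5, 7, 8, 9]))))))))))))))))))
  (.br 17 (.col 32 (.col 50 (.col 51 (.col 60 (.br 7 (.bad 4 200 [11, 1, 2, 5, 10, 0])
  (.br 13 (.bad 4 194 [11, 5, 10, 9, 8, 0])
  (.br 28 (.bad 4 578 [11, 4, 5, 8, 7, 0])
  (.br 34 (.col 76 (.col 108 (.br 11 (.bad 4 1120 [11, 0, 7, 1, 9, 3])
  (.br 23 (.bad 4 98 [11, 3, 4, 9, 10, 7])
  (.col 21 (.br 41 (.bad 4 76 [11, 5, 10, 8, 9, 4])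
  (.bad 2 100 [3, 7, 9, 11, 8, 10])))))))
  (.bad 2 578 [0, 4, 8, 11, 5, 10])))))))))
  (.br 21 (.col 31 (.col 49 (.col 59 (.col 63 (.br 3 (.bad 4 137 [11, 5, 10, 8, 6, 2])
  (.br 11 (.bad 4 193 [11, 5, 10, 9, 8, 1])
  (.br 26 (.bad 4 577 [11, 4, 5, 8, 7, 1])
  (.br 36 (.col 75 (.col 102 (.br 29 (.bad 4 1057 [11, 2, 3, 6, 9, 7])
  (.br 23 (.bad 4 97 [11, 3, 4, 9, 10, 7])
  (.col 20 (.bad 2 1281 [2, 3, 5, 11, 6, 9]))))))
  (.bad 2 577 [1, 4, 8, 11, 5, 10])))))))))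
  (.br 40 (.col 21 (.col 73 (.col 74 (.col 93 (.br 20 (.bad 4 74 [11, 5, 9, 8, 10, 4])
  (.br 18 (.bad 4 76 [11, 5, 9, 8, 10, 4])
  (.br 13 (.bad 4 1090 [11, 3, 8, 5, 7, 0])
  (.br 7 (.bad 4 1096 [11, 1, 2, 5, 9, 0])
  (.br 34 (.col 43 (.col 108 (.br 26 (.bad 4 608 [11, 0, 4, 1, 10, 7])
  (.bad 2 580 [4, 7, 10, 11, 5, 8]))))
  (.bad 2 1090 [0, 7, 8, 11, 5, 9]))))))))))
  (.br 43 (.col 60 (.col 93 (.col 106 (.br 23 (.bad 4 70 [11, 3, 4, 9, 10, 7])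
  (.br 20 (.bad 4 578 [11, 0, 7, 8, 10, 4])
  (.br 45 (.bad 4 1090 [11, 0, 3, 8, 9, 7])
  (.br 13 (.bad 5 1090 [7, 11, 5, 0, 9, 8, 3])
  (.br 28 (.br 19 (.bad 4 98 [11, 4, 9, 8, 7, 3])
  (.bad 2 98 [3, 7, 9, 11, 8, 10]))
  (.bad 2 98 [3, 4, 8, 11, 9, 10])))))))))
  (.br 46 (.col 20 (.col 72 (.col 92 (.col 94 (.br 11 (.bad 4 1089 [11, 3, 8, 5, 7, 1])
  (.br 16 (.bad 4 328 [11, 0, 10, 5, 9, 4])
  (.br 20 (.bad 4 73 [11, 5, 9, 8, 10, 4])
  (.br 22 (.bad 4 321 [11, 3, 10, 5, 7, 4])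
  (.br 41 (.bad 4 1096 [11, 0, 8, 5, 2, 1])
  (.br 38 (.col 42 (.col 62 (.br 14 (.bad 4 352 [11, 0, 9, 4, 7, 3])
  (.br 42 (.col 76 (.col 77 (.br 7 (.bad 4 1120 [11, 1, 2, 3, 7, 0])
  (.bad 0 1632 [11, 0, 1, 2, 7, 8]))))
  (.bad 0 1376 [11, 0, 2, 3, 7, 9])))))
  (.bad 2 321 [4, 7, 10, 11, 5, 9])))))))))))
  (.br 49 (.col 59 (.col 92 (.col 105 (.col 114 (.br 3 (.bad 4 1537 [11, 1, 7, 8, 6, 2])
  (.br 15 (.bad 4 769 [11, 2, 7, 6, 10, 4])
  (.br 20 (.bad 4 577 [11, 1, 7, 8, 10, 4])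
  (.br 23 (.bad 4 321 [11, 3, 4, 9, 10, 7])
  (.br 29 (.bad 4 1281 [11, 2, 3, 6, 9, 7])
  (.br 12 (.bad 5 1281 [7, 11, 5, 2, 9, 6, 3])
  (.br 27 (.col 36 (.br 33 (.bad 4 545 [11, 2, 10, 8, 4, 7])
  (.bad 2 545 [2, 7, 8, 11, 6, 10])))
  (.bad 2 289 [3, 4, 6, 11, 9, 10]))))))))))))
  (.br 15 (.br 23 (.col 16 (.br 3 (.col 47 (.col 69 (.br 8 (.bad 4 200 [11, 0, 1, 10, 8, 2])
  (.br 11 (.col 7 (.col 11 (.col 24 (.col 29 (.col 35 (.col 36 (.col 42 (.col 56 (.br 2 (.col 38 (.col 48 (.col 52 (.col 57 (.col 58 (.col 62 (.col 70 (.col 77 (.col 78 (.col 82 (.col 85 (.col 103 (.col 6 (.col 12 (.sol 5)))))))))))))))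
  (.col 48 (.col 52 (.col 62 (.col 70 (.col 77 (.col 78 (.col 85 (.bad 2 1344 [3, 7, 9, 11, 2, 5])))))))))))))))))
  (.col 7 (.col 11 (.col 24 (.col 42 (.br 2 (.col 38 (.col 48 (.col 52 (.col 57 (.col 62 (.bad 2 832 [0, 2, 4, 11, 5, 10]))))))
  (.col 48 (.col 52 (.col 70 (.col 78 (.br 44 (.bad 4 1120 [11, 0, 3, 2, 9, 7])
  (.br 50 (.col 62 (.col 95 (.bad 4 352 [11, 3, 4, 9, 10, 7])))
  (.bad 2 1600 [0, 2, 7, 11, 5, 8]))))))))))))))))
  (.col 47 (.col 69 (.br 8 (.col 61 (.col 66 (.col 94 (.col 99 (.col 113 (.col 117 (.br 41 (.bad 5 1096 [2, 11, 5, 0, 8, 9, 1])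
  (.col 5 (.col 48 (.br 10 (.col 18 (.col 57 (.col 82 (.col 103 (.col 104 (.br 36 (.bad 4 1057 [11, 2, 3, 6, 9, 7])
  (.bad 0 1632 [11, 0, 1, 2, 7, 8])))))))
  (.col 18 (.col 57 (.col 90 (.br 38 (.col 24 (.col 42 (.col 56 (.col 75 (.col 102 (.br 13 (.bad 4 1120 [11, 0, 8, 7, 1, 2])
  (.col 6 (.br 44 (.bad 4 548 [11, 0, 7, 6, 10, 4])
  (.br 34 (.bad 4 98 [11, 3, 4, 9, 10, 7])
  (.bad 0 1632 [11, 0, 1, 2, 7, 8]))))))))))
  (.bad 0 864 [11, 0, 2, 4, 7, 10])))))))))))))))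
  (.bad 1 576 [11, 0, 1, 7, 8, 10]))))))
  (.col 16 (.br 8 (.col 94 (.col 113 (.col 118 (.br 20 (.bad 4 200 [11, 0, 1, 10, 8, 2])
  (.col 47 (.br 45 (.bad 4 1096 [11, 0, 1, 9, 8, 2])
  (.br 41 (.bad 5 1096 [2, 11, 5, 0, 8, 9, 1])
  (.br 2 (.bad 5 152 [2, 11, 5, 0, 8, 6, 1])
  (.bad 2 1064 [1, 2, 8, 11, 6, 9])))))))))
  (.bad 1 1280 [11, 0, 2, 3, 6, 9]))))
  (.br 8 (.col 66 (.col 94 (.col 113 (.col 118 (.br 20 (.bad 4 200 [11, 0, 1, 10, 8, 2])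
  (.br 45 (.bad 4 1096 [11, 0, 1, 9, 8, 2])
  (.br 3 (.bad 4 152 [11, 0, 1, 6, 8, 2])
  (.br 41 (.bad 5 1096 [2, 11, 5, 0, 8, 9, 1])
  (.br 2 (.bad 5 152 [2, 11, 5, 0, 8, 6, 1])
  (.br 18 (.col 5 (.br 29 (.bad 4 44 [11, 6, 9, 8, 10, 4])
  (.bad 2 1064 [1, 2, 8, 11, 6, 9])))
  (.bad 2 168 [1, 2, 8, 11, 6, 10])))))))))))
  (.bad 1 768 [11, 0, 2, 6, 7, 10]))))))))))))))))

def B_la11_012 : Dat where
  r := 6
  V := [[.i, .o, .o, .o, .o, .o],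
    [.o, .i, .o, .o, .o, .o],
    [.o, .o, .i, .o, .o, .o],
    [.o, .o, .o, .i, .o, .o],
    [.o, .o, .o, .o, .i, .o],
    [.i, .i, .o, .i, .o, .o],
    [.i, .o, .w, .o, .v, .o],
    [.o, .o, .o, .o, .o, .i],
    [.o, .i, .i, .o, .o, .o],
    [.o, .o, .o, .i, .o, .i],
    [.o, .o, .o, .o, .i, .i]]
  P := [[.i, .o, .o, .o, .o, .o],
    [.o, .i, .o, .o, .o, .o],
    [.o, .o, .i, .o, .o, .o],
    [.o, .o, .o, .i, .o, .o],
    [.o, .o, .o, .o, .i, .o],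
    [.i, .i, .o, .i, .o, .o],
    [.i, .o, .w, .o, .v, .o],
    [.o, .o, .o, .o, .o, .i],
    [.o, .i, .i, .o, .o, .o],
    [.o, .o, .o, .i, .o, .i],
    [.o, .o, .o, .o, .i, .i],
    [.o, .i, .o, .i, .o, .o],
    [.i, .o, .o, .i, .o, .o],
    [.i, .i, .o, .o, .o, .o],
    [.o, .o, .w, .o, .v, .o],
    [.i, .o, .o, .o, .v, .o],
    [.i, .o, .w, .o, .o, .o],
    [.o, .o, .o, .o, .o, .o]]
  F := [[.i, .o, .o, .o, .o, .o],
    [.o, .i, .o, .o, .o, .o],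
    [.i, .i, .o, .o, .o, .o],
    [.o, .o, .i, .o, .o, .o],
    [.o, .i, .i, .o, .o, .o],
    [.i, .i, .i, .o, .o, .o],
    [.i, .o, .v, .o, .o, .o],
    [.i, .i, .v, .o, .o, .o],
    [.i, .v, .v, .o, .o, .o],
    [.o, .o, .o, .i, .o, .o],
    [.i, .o, .o, .i, .o, .o],
    [.o, .i, .o, .i, .o, .o],
    [.o, .i, .i, .i, .o, .o],
    [.i, .o, .v, .i, .o, .o],
    [.i, .v, .v, .w, .o, .o],
    [.o, .o, .o, .o, .i, .o],
    [.i, .i, .i, .o, .i, .o],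
    [.i, .o, .o, .o, .w, .o],
    [.i, .i, .o, .o, .w, .o],
    [.i, .o, .o, .i, .w, .o],
    [.o, .o, .i, .o, .v, .o],
    [.o, .i, .i, .o, .v, .o],
    [.o, .i, .i, .i, .v, .o],
    [.o, .o, .o, .o, .o, .i],
    [.o, .o, .o, .i, .o, .i],
    [.i, .o, .o, .i, .o, .i],
    [.o, .i, .o, .i, .o, .i],
    [.o, .i, .i, .i, .o, .i],
    [.i, .o, .v, .i, .o, .i],
    [.o, .o, .o, .o, .i, .i],
    [.i, .i, .i, .o, .i, .i],
    [.o, .o, .o, .i, .i, .i],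
    [.i, .o, .o, .i, .i, .i],
    [.o, .i, .o, .i, .i, .i],
    [.i, .o, .i, .i, .i, .i],
    [.o, .i, .i, .i, .i, .i],
    [.o, .i, .w, .i, .i, .i],
    [.i, .o, .o, .i, .w, .i],
    [.o, .i, .i, .i, .v, .i],
    [.i, .v, .v, .w, .o, .w],
    [.i, .o, .o, .o, .w, .w],
    [.i, .i, .o, .o, .w, .w],
    [.i, .o, .o, .i, .w, .w],
    [.i, .o, .o, .w, .w, .w],
    [.i, .v, .o, .w, .w, .w],
    [.o, .o, .i, .o, .v, .v],
    [.o, .i, .i, .o, .v, .v],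
    [.o, .i, .i, .i, .v, .v],
    [.o, .o, .i, .v, .v, .v],
    [.o, .i, .i, .v, .v, .v],
    [.i, .w, .w, .v, .v, .v]]
  ht := 0x7600741064305610549046b066407460566046c054e0370036103660661072106620625072607070568052f02720331027503360357017f01e103c902eb01e602ec03ce03e803af05f004f205b104f505b605d707d806f806da07b8079906bb06bc06dd079e
  ct := 0x800000000000000000000000000000000000000000000000000000005000000000000000000000000007f0000000000007f0000000000020000000000000000000000000000000000000000000000000000000032000000000000000000000000000800000000000008000002b00ad880000000000000000000000000000500000000000005000002000811800000000000007f000000000002000000000000020001fcf803e0000000000000000000000000000000000000000000000000000000000007000000000000000000000000007f0000000000007f00000010018080000000000000000000000000007f0000000000007f0000002000c1800000000000007f000007f01fff80000007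f01fff8000000800600000000000000000000000000000000700000000000007000002c00892000000000000007f000000100180800000001001808000ac08060000000000000000007f0000002000c1800000002000c18000810800600000000007f01fff8000000800600000000008006000003e0000000000000000000000000000000000000000000000000000000000000000000e000000000000000000000000007f0000000000000800000090024480000000000000000000000000007f00000000000005000000a00286000000000000007f000007f01fff800000000000020001fc4801200000000000000000000000000000000e0000000000001e000002a00a97800000000000000800000090024480000002800a170001fc480120000000000000000005000000a0028600000001d0074e8001fce803a000000000000000020001fc480120000001fce803a00000fe000000000000000000000000000000000000007f00000000000007000000b00345800000000000007f000007f01fff80000000100180800027f8012000000000000000007f000007f01fff800000002000c18000285800600000000007f01fff8001fff80f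e00000000008006000001200000000000000000000000007000000b0034580000002900b568000a85805a00000000000100180800027f80120000000a00805a00000120000000000000000002000c180002858006000000074e80fe000003a00000000000000000800600000120000000000003a000000000000000000000000000000000000000000000000000000000000000000000000000000001000000000000000000000000000080000000000007f00000110044a8000000000000000000000000000050000000000007f000000f003c7800000000000007f00000000000200000007f01fff8001fc7801e00000000000000000000000000000002700000000000010000002500953000000000000000800000180060c0000000110044a8001fcc0030000000000000000000500000190064d80000000f003c78001fc7801e000000000000000020001fcc00300000001fc7801e00000fe00000000000000000000000000000000000000070000000000007f00000120050a000000000000007f00000010018080000007f01fff80004408028000000000000000007f0000002000c180000007f01fff80003c780fe00000000007f01f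ff800000080060000001fff80fe000001e00000000000000000000000007000001a0070d0000000120050a000094d002800000000000100180800063f80300000000440802800000300000000000000000002000c1800064d000600000003c780fe000001e00000000000000000800600000300000000000001e00000000000000000000000000000000000000000000000000000e000000000000100000013004cb00000000000000080000009002448000000110044a8001fc480120000000000000000005000000a0028600000000f003c78001fc7801e000000000000000020001fc480120000001fc7801e00000fe000000000000000000000000170000017005cb800000017005cb8001fcb802e000000000017005cb8001fff80fe0000001fcb802e00000fe0000000000000000017005cb8001fcb802e0000001fff80fe00000fe00000000000001fcb802e00000fe000000000000fe0000000000000000000000000000000000000007000000b003458000000120050a00004c5802800000000000100180800027f80120000000440802800000120000000000000000002000c18000285800600000003c780fe000001e00000000000000000800600000120000000000001e000000000000000000000000000000017005cb80005ff802e00000005cb80fe000002e000000000000005ff802e00000fe0000000000002e00000000000000000000000000005cb80fe000002e000000000000fe000000000000000000000000002e000000000000000000000000000000000000000000000000000000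
  cl := [(62, 2, 0x800008),
    (61, 0, 0x800004),
    (91, 0, 0x800040),
    (94, 1, 0x800002),
    (110, 2, 0x200000900000),
    (109, 0, 0x20000840000),
    (115, 0, 0x10802000),
    (118, 1, 0x4800800),
    (121, 0, 0x800080),
    (167, 1, 0x8800),
    (199, 2, 0x100200),
    (227, 1, 0x500800),
    (227, 0, 0x182000),
    (229, 0, 0xc0800),
    (283, 1, 0x800010),
    (285, 0, 0x800001),
    (316, 4, 0x20808000),
    (307, 1, 0x8801000),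
    (309, 0, 0x2800400),
    (313, 0, 0x800020),
    (331, 1, 0x400000a00000),
    (333, 0, 0x10000820000),
    (348, 3, 0x1800200),
    (345, 0, 0x800100),
    (355, 1, 0x804000c00000),
    (357, 0, 0x42000880000),
    (361, 0, 0x40810000),
    (369, 0, 0x8000804000),
    (397, 3, 0x8200),
    (419, 1, 0x409000),
    (421, 0, 0x88400),
    (451, 1, 0x600200),
    (453, 0, 0xa0200),
    (481, 0, 0x494000),
    (535, 2, 0x1000008),
    (551, 1, 0x204008000),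
    (563, 1, 0xc000008),
    (563, 0, 0x12000008),
    (565, 0, 0x6000004),
    (583, 2, 0x1000001100000),
    (595, 0, 0x11000040),
    (598, 1, 0x5000002),
    (611, 1, 0x5004100000),
    (611, 0, 0x2410100000),
    (613, 0, 0x102004040000),
    (625, 0, 0x8014000080),
    (647, 1, 0x8002),
    (678, 2, 0x108008),
    (677, 0, 0x48004),
    (707, 1, 0x300002),
    (707, 0, 0x120040),
    (709, 0, 0x60002),
    (737, 0, 0x150080),
    (781, 3, 0x81008000),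
    (787, 1, 0x9000010),
    (789, 0, 0x3000001),
    (803, 1, 0x4808008000),
    (805, 0, 0x2102008000),
    (817, 0, 0x800a000020),
    (835, 1, 0x2004001200000),
    (837, 0, 0x82001020000),
    (849, 0, 0x8001000100),
    (865, 0, 0x400e000010000),
    (899, 1, 0x208010),
    (901, 0, 0x28001),
    (929, 0, 0x18020),
    (961, 0, 0x230100),
    (1039, 1, 0x20000002),
    (1063, 1, 0x220000800),
    (1070, 2, 0x200020000008),
    (1069, 0, 0x20020000004),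
    (1095, 2, 0x1200000000200),
    (1099, 1, 0x600000000002),
    (1099, 0, 0x210000000040),
    (1101, 0, 0x30000000002),
    (1123, 1, 0xa01000000800),
    (1123, 0, 0x240400002000),
    (1125, 0, 0x160000000800),
    (1129, 0, 0x220040000080),
    (1159, 2, 0x208),
    (1187, 1, 0x1808),
    (1187, 0, 0x2408),
    (1189, 0, 0xc04),
    (1219, 0, 0x2240),
    (1222, 1, 0xa02),
    (1249, 0, 0x6880),
    (1293, 3, 0xa0000200),
    (1291, 1, 0x400020000010),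
    (1293, 0, 0x10020000001),
    (1315, 1, 0x800820001000),
    (1317, 0, 0x40120000400),
    (1321, 0, 0x60000020),
    (1347, 1, 0x2c00000000200),
    (1349, 0, 0xd0000000200),
    (1353, 0, 0x410040000100),
    (1377, 0, 0x4840040004000),
    (1411, 1, 0x1210),
    (1413, 0, 0x601),
    (1441, 0, 0x5420),
    (1473, 0, 0x4300),
    (1543, 2, 0x1000080000008),
    (1543, 1, 0x280000002),
    (1571, 1, 0x1a00000008),
    (1571, 0, 0x500000008),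
    (1573, 0, 0x100300000004),
    (1603, 1, 0x3001000000002),
    (1603, 0, 0x1080400000040),
    (1605, 0, 0x180000000002),
    (1633, 0, 0x4101400000080),
    (1667, 1, 0x1a),
    (1667, 0, 0x49),
    (1669, 0, 0x7),
    (1697, 0, 0xac),
    (1729, 0, 0x1c2),
    (1795, 1, 0x2000880000010),
    (1797, 0, 0x80180000001),
    (1825, 0, 0x4000900000020),
    (1857, 0, 0x6080000000100),
    (1921, 0, 0x131)]
  sl := [0x3e05aadf09a1a, 0x12d25b39aa649, 0x1f23a78e8e07, 0x630060b781ff, 0x801f807fff, 0x4b6ff7eddfcac, 0x7fff455ff6bc2, 0x7fffff, 0x6cde9ebebd731, 0x718ff9f3781ff, 0x7ff1fe0007fff, 0xa15a2cd29849, 0x642532b8a41a, 0x12200e19582ac, 0x3e05007f00e07, 0x1f200d8e1a1a, 0x82b580ebc2, 0x7ffffffffffff]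
  t := B_la11_012_t

theorem B_la11_012_okD : B_la11_012.ckD = true := by decide +kernel

theorem B_la11_012_okT : B_la11_012.ckT TTab B_la11_012.t 0 0 = true := by decide +kernel

theorem lext_la11_012 : LExt 6 11 (vecL 6 B_la11_012.V) (vecP 6 B_la11_012.P) :=
  lext_of_chk' B_la11_012 B_la11_012_okD B_la11_012_okT (by decide)

end QG
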