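import Pool.Agent.Lib.QG.BC8

/-! MP_2e6874_co, part (B): data for la11_111. -/

set_option autoImplicit false
set_option maxRecDepth 100000

namespace QG

def B_la11_111_t : Tr :=
  .br 0 (.br 10 (.col 111 (.br 29 (.col 110 (.col 112 (.col 117 (.br 3 (.col 76 (.col 77 (.col 78 (.col 79 (.col 80 (.col 81 (.col 82 (.col 83 (.col 84 (.col 94 (.br 16 (.col 22 (.col 23 (.col 24 (.col 25 (.col 26 (.col 27 (.col 28 (.col 29 (.col 31 (.col 32 (.col 41 (.col 43 (.col 45 (.col 46 (.br 1 (.col 37 (.col 38 (.col 39 (.col 40 (.col 52 (.col 53 (.col 54 (.col 57 (.col 58 (.col 59 (.col 69 (.col 70 (.col 71 (.col 73 (.sol 17)))))))))))))))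
  (.col 37 (.col 38 (.col 39 (.col 40 (.col 52 (.col 53 (.col 54 (.col 57 (.col 58 (.col 59 (.col 69 (.col 70 (.col 71 (.col 73 (.sol 7))))))))))))))))))))))))))))))
  (.col 22 (.col 23 (.col 24 (.col 25 (.col 26 (.col 27 (.col 28 (.col 29 (.col 31 (.col 32 (.col 41 (.col 43 (.col 45 (.col 46 (.br 1 (.col 37 (.col 38 (.col 40 (.col 69 (.col 70 (.col 72 (.col 73 (.col 85 (.col 87 (.col 88 (.col 90 (.col 91 (.col 93 (.col 102 (.sol 10)))))))))))))))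
  (.col 72 (.col 73 (.col 85 (.col 87 (.col 93 (.br 24 (.bad 4 13 [11, 6, 8, 10, 7, 5])
  (.br 18 (.bad 4 352 [11, 2, 3, 10, 7, 1])
  (.br 20 (.bad 4 545 [11, 6, 8, 10, 7, 3])
  (.bad 2 832 [1, 3, 4, 11, 5, 7])))))))))))))))))))))))))))))))))))
  (.col 76 (.col 77 (.col 78 (.col 79 (.col 80 (.col 81 (.col 82 (.col 83 (.col 84 (.col 94 (.br 1 (.col 69 (.col 72 (.col 73 (.col 99 (.col 100 (.col 101 (.col 102 (.col 103 (.col 104 (.col 106 (.col 107 (.br 16 (.col 22 (.col 26 (.col 27 (.col 41 (.col 42 (.col 43 (.col 44 (.col 45 (.col 46 (.col 47 (.col 49 (.col 50 (.col 51 (.col 52 (.col 55 (.col 56 (.col 10 (.sol 9))))))))))))))))))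
  (.col 41 (.col 42 (.col 44 (.col 46 (.col 49 (.col 52 (.col 56 (.br 19 (.bad 4 137 [11, 6, 8, 9, 10, 4])
  (.br 38 (.bad 4 152 [11, 6, 8, 9, 10, 0])
  (.br 45 (.bad 4 19 [11, 6, 7, 9, 10, 3])
  (.br 21 (.bad 4 292 [11, 6, 7, 10, 9, 1])
  (.bad 2 448 [4, 5, 10, 11, 2, 3]))))))))))))))))))))))))
  (.col 99 (.col 100 (.col 101 (.col 102 (.col 103 (.col 106 (.br 30 (.bad 4 1033 [11, 6, 8, 9, 7, 5])
  (.br 6 (.bad 4 1090 [11, 2, 5, 9, 7, 3])
  (.br 5 (.bad 4 56 [11, 6, 8, 9, 7, 0])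
  (.bad 2 1344 [1, 2, 5, 11, 3, 7])))))))))))))))))))))))))
  (.col 110 (.col 112 (.col 117 (.br 3 (.col 76 (.col 77 (.col 78 (.col 79 (.col 80 (.col 81 (.col 82 (.col 83 (.col 84 (.col 94 (.br 28 (.col 92 (.col 106 (.bad 4 1096 [11, 1, 5, 8, 9, 0])))
  (.br 32 (.col 90 (.col 113 (.bad 4 1027 [11, 3, 5, 9, 6, 2])))
  (.br 39 (.col 29 (.col 49 (.bad 4 196 [11, 4, 5, 8, 9, 1])))
  (.br 48 (.col 47 (.col 61 (.bad 4 641 [11, 4, 5, 6, 8, 3])))
  (.br 16 (.col 22 (.col 23 (.col 24 (.col 25 (.col 26 (.col 27 (.col 31 (.col 32 (.col 41 (.col 43 (.col 45 (.col 46 (.br 1 (.col 37 (.col 38 (.col 39 (.col 40 (.col 52 (.col 55 (.col 56 (.col 60 (.col 69 (.col 70 (.col 71 (.col 73 (.sol 5)))))))))))))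
  (.col 38 (.col 39 (.col 40 (.col 55 (.col 56 (.col 60 (.col 71 (.col 73 (.br 27 (.col 35 (.col 52 (.col 70 (.sol 16))))
  (.bad 2 1600 [0, 1, 8, 11, 3, 7])))))))))))))))))))))))
  (.col 26 (.col 27 (.col 32 (.col 45 (.col 46 (.br 25 (.col 31 (.col 50 (.col 63 (.br 1 (.col 37 (.col 38 (.col 40 (.col 52 (.col 53 (.col 54 (.col 59 (.col 69 (.col 70 (.col 72 (.col 73 (.col 102 (.sol 4)))))))))))))
  (.col 37 (.col 73 (.br 30 (.bad 4 328 [11, 1, 10, 7, 4, 5])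
  (.col 70 (.bad 2 1600 [0, 1, 8, 11, 3, 7])))))))))
  (.bad 0 960 [11, 1, 3, 4, 5, 10]))))))))))))))))))))))
  (.col 77 (.col 78 (.col 79 (.br 42 (.bad 4 1153 [11, 3, 6, 9, 5, 2])
  (.br 34 (.bad 4 1216 [11, 1, 2, 5, 9, 3])
  (.col 75 (.br 31 (.bad 4 1156 [11, 1, 5, 8, 6, 0])
  (.br 35 (.bad 5 1216 [5, 11, 9, 3, 0, 1, 2])
  (.bad 2 1216 [0, 1, 8, 11, 2, 9])))))))))))))))
  (.col 111 (.br 9 (.col 107 (.col 115 (.bad 4 560 [11, 1, 3, 8, 6, 0])))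
  (.br 13 (.col 84 (.col 97 (.bad 4 176 [11, 2, 3, 6, 8, 0])))
  (.br 22 (.col 32 (.col 51 (.col 60 (.br 11 (.bad 4 224 [11, 0, 2, 8, 9, 3])
  (.br 6 (.bad 4 352 [11, 1, 2, 7, 9, 3])
  (.br 1 (.bad 4 608 [11, 0, 3, 8, 7, 1])
  (.col 103 (.br 4 (.bad 5 224 [3, 11, 10, 0, 9, 8, 2])
  (.col 79 (.br 5 (.bad 4 56 [11, 6, 8, 9, 7, 0])
  (.bad 2 112 [2, 3, 9, 11, 7, 8])))))))))))
  (.br 25 (.col 50 (.col 63 (.bad 4 656 [11, 1, 3, 8, 6, 0])))
  (.br 29 (.col 110 (.col 112 (.col 117 (.br 16 (.col 41 (.col 42 (.col 43 (.col 44 (.col 45 (.col 46 (.col 47 (.col 49 (.br 32 (.col 57 (.col 113 (.bad 4 515 [11, 3, 5, 6, 10, 4])))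
  (.br 35 (.col 80 (.col 94 (.bad 4 1153 [11, 2, 3, 6, 8, 5])))
  (.br 3 (.col 23 (.col 24 (.col 25 (.col 26 (.col 27 (.col 29 (.col 30 (.col 76 (.col 77 (.col 79 (.col 81 (.col 94 (.br 1 (.col 37 (.col 38 (.col 39 (.col 40 (.col 52 (.col 53 (.col 54 (.col 58 (.col 69 (.col 70 (.col 71 (.col 73 (.sol 3)))))))))))))
  (.col 37 (.col 40 (.col 52 (.col 54 (.col 58 (.col 69 (.col 70 (.col 73 (.br 20 (.col 19 (.col 39 (.col 55 (.sol 15))))
  (.bad 2 832 [4, 5, 10, 11, 1, 7])))))))))))))))))))))))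
  (.col 25 (.col 27 (.col 30 (.col 76 (.col 79 (.br 31 (.col 29 (.col 82 (.col 95 (.br 1 (.col 37 (.col 38 (.col 39 (.col 40 (.col 52 (.col 53 (.col 54 (.col 58 (.col 69 (.col 72 (.col 73 (.col 100 (.sol 2)))))))))))))
  (.col 37 (.col 40 (.col 72 (.br 20 (.bad 4 352 [11, 1, 9, 7, 2, 3])
  (.bad 2 832 [4, 5, 10, 11, 1, 7])))))))))
  (.bad 0 1472 [11, 1, 2, 3, 5, 9]))))))))))))))))))
  (.col 41 (.col 46 (.col 49 (.br 48 (.col 47 (.col 48 (.bad 5 704 [3, 11, 10, 5, 0, 1, 4])))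
  (.bad 0 960 [11, 1, 3, 4, 5, 10])))))))))
  (.col 110 (.br 28 (.col 106 (.col 114 (.bad 4 1036 [11, 1, 5, 8, 6, 0])))
  (.br 31 (.col 82 (.col 95 (.bad 4 1156 [11, 1, 5, 8, 6, 0])))
  (.br 21 (.col 29 (.col 32 (.br 38 (.bad 4 448 [11, 2, 5, 4, 3, 1])
  (.br 35 (.bad 4 448 [11, 1, 10, 2, 5, 4])
  (.br 48 (.bad 4 448 [11, 1, 9, 5, 2, 3])
  (.br 51 (.col 98 (.bad 2 448 [1, 2, 4, 11, 3, 10]))
  (.bad 0 960 [11, 1, 3, 4, 5, 10])))))))
  (.br 39 (.col 49 (.col 62 (.bad 4 140 [11, 4, 5, 6, 8, 0])))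
  (.br 38 (.col 30 (.col 31 (.br 35 (.bad 4 448 [11, 1, 10, 3, 4, 5])
  (.bad 2 448 [1, 3, 5, 11, 2, 10]))))
  (.br 19 (.col 30 (.br 35 (.col 28 (.col 65 (.br 3 (.col 23 (.col 25 (.col 27 (.col 41 (.col 43 (.col 45 (.col 46 (.col 47 (.col 48 (.col 61 (.col 76 (.col 77 (.col 78 (.col 79 (.col 81 (.col 94 (.br 1 (.col 37 (.col 38 (.col 39 (.col 40 (.col 52 (.col 53 (.col 56 (.col 57 (.col 69 (.col 70 (.col 71 (.col 73 (.sol 14)))))))))))))
  (.col 40 (.col 56 (.col 73 (.br 6 (.col 17 (.col 19 (.col 35 (.col 36 (.col 52 (.col 53 (.col 57 (.col 70 (.sol 1)))))))))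
  (.bad 2 1344 [2, 3, 9, 11, 5, 7]))))))))))))))))))))))
  (.col 23 (.col 27 (.col 43 (.col 46 (.col 48 (.col 61 (.col 79 (.col 81 (.col 94 (.br 33 (.col 47 (.col 80 (.col 44 (.col 78 (.br 1 (.col 37 (.col 38 (.col 39 (.col 40 (.col 52 (.col 53 (.col 54 (.col 57 (.col 69 (.col 70 (.col 72 (.col 73 (.sol 11)))))))))))))
  (.col 38 (.col 72 (.br 18 (.bad 4 608 [11, 0, 7, 8, 3, 1])
  (.col 21 (.bad 2 1344 [2, 3, 9, 11, 5, 7]))))))))))
  (.bad 0 1728 [11, 0, 1, 3, 5, 8]))))))))))))))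
  (.col 28 (.br 51 (.bad 7 448 [11, 3, 5, 1, 10, 9, 2, 4])
  (.bad 0 1472 [11, 1, 2, 3, 5, 9])))))
  (.br 45 (.col 28 (.br 51 (.col 98 (.bad 7 448 [11, 2, 4, 1, 10, 9, 3, 5]))
  (.bad 0 960 [11, 1, 3, 4, 5, 10])))
  (.bad 2 448 [2, 3, 9, 11, 4, 5]))))))))))))))))
  (.br 10 (.col 111 (.br 2 (.col 103 (.col 107 (.col 115 (.bad 5 560 [3, 11, 8, 0, 7, 6, 1]))))
  (.br 3 (.col 77 (.col 79 (.bad 4 176 [11, 0, 3, 6, 9, 2])))
  (.br 7 (.col 101 (.col 102 (.bad 4 560 [11, 0, 1, 6, 7, 3])))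
  (.br 12 (.col 78 (.col 84 (.col 88 (.br 5 (.bad 4 304 [11, 2, 7, 6, 3, 1])
  (.br 1 (.bad 4 52 [11, 6, 9, 8, 7, 1])
  (.col 107 (.bad 2 304 [1, 3, 7, 11, 6, 9])))))))
  (.br 37 (.col 25 (.col 44 (.col 54 (.br 4 (.bad 4 152 [11, 6, 10, 9, 8, 0])
  (.col 84 (.br 1 (.bad 4 28 [11, 6, 10, 8, 7, 1])
  (.col 107 (.br 5 (.bad 4 280 [11, 6, 10, 9, 7, 1])
  (.br 6 (.bad 4 112 [11, 1, 2, 7, 9, 3])
  (.bad 2 304 [2, 3, 9, 11, 6, 7]))))))))))
  (.br 41 (.col 62 (.col 95 (.col 96 (.col 110 (.col 112 (.br 11 (.bad 4 1156 [11, 0, 5, 8, 9, 1])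
  (.col 84 (.br 35 (.col 81 (.br 36 (.bad 4 140 [11, 0, 4, 8, 10, 5])
  (.col 50 (.br 45 (.bad 4 208 [11, 1, 2, 10, 9, 3])
  (.col 28 (.br 22 (.col 51 (.bad 4 194 [11, 2, 5, 8, 10, 4]))
  (.bad 0 960 [11, 1, 3, 4, 5, 10])))))))
  (.bad 0 1472 [11, 1, 2, 3, 5, 9])))))))))
  (.br 46 (.col 42 (.col 43 (.bad 4 656 [11, 0, 1, 6, 10, 3])))
  (.br 50 (.col 94 (.col 108 (.col 109 (.col 112 (.br 11 (.bad 4 1153 [11, 2, 5, 9, 8, 3])
  (.col 84 (.br 34 (.bad 4 1216 [11, 1, 2, 5, 9, 3])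
  (.br 42 (.bad 4 1216 [11, 0, 3, 5, 9, 2])
  (.br 43 (.col 98 (.bad 2 1216 [0, 1, 8, 11, 2, 9]))
  (.bad 2 1216 [0, 1, 8, 11, 3, 9]))))))))))
  (.br 29 (.col 110 (.col 112 (.br 1 (.col 99 (.col 104 (.col 105 (.col 106 (.col 107 (.br 4 (.col 70 (.col 71 (.col 72 (.col 73 (.col 74 (.col 80 (.col 81 (.col 82 (.col 83 (.col 84 (.br 16 (.col 27 (.col 41 (.bad 4 137 [11, 6, 10, 9, 8, 4])))
  (.br 36 (.col 7 (.col 9 (.col 10 (.col 11 (.col 13 (.col 16 (.col 19 (.col 21 (.col 28 (.col 29 (.col 31 (.col 32 (.col 36 (.sol 6))))))))))))))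
  (.bad 1 640 [11, 0, 3, 4, 8, 10])))))))))))))
  (.col 71 (.col 72 (.col 80 (.col 81 (.col 82 (.col 83 (.col 84 (.br 49 (.bad 4 1030 [11, 6, 9, 8, 7, 5])
  (.bad 2 1408 [1, 3, 5, 11, 2, 6])))))))))))))))
  (.col 104 (.col 105 (.col 106 (.col 107 (.br 26 (.bad 4 1036 [11, 0, 1, 6, 7, 5])
  (.bad 1 1536 [11, 1, 3, 5, 6, 8])))))))))
  (.col 112 (.br 40 (.col 76 (.br 1 (.col 69 (.col 99 (.col 100 (.col 104 (.col 106 (.col 107 (.br 4 (.col 71 (.col 72 (.col 73 (.col 74 (.col 75 (.col 80 (.col 82 (.col 83 (.col 84 (.br 16 (.col 22 (.col 26 (.col 27 (.col 28 (.col 29 (.col 31 (.col 32 (.col 41 (.col 45 (.col 46 (.col 50 (.col 52 (.col 55 (.col 56 (.sol 13)))))))))))))))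
  (.col 22 (.col 31 (.col 41 (.br 19 (.bad 4 137 [11, 6, 8, 9, 10, 4])
  (.col 11 (.col 13 (.col 32 (.br 39 (.bad 4 196 [11, 4, 5, 8, 9, 1])
  (.br 48 (.bad 4 193 [11, 4, 5, 9, 8, 3])
  (.bad 0 960 [11, 1, 3, 4, 5, 10]))))))))))))))))))))
  (.col 71 (.col 72 (.col 73 (.col 74 (.br 35 (.bad 4 1153 [11, 2, 3, 6, 8, 5])
  (.br 43 (.bad 4 1096 [11, 0, 5, 8, 7, 1])
  (.bad 2 1216 [0, 1, 8, 11, 3, 9]))))))))))))))
  (.col 99 (.col 107 (.br 27 (.bad 4 1036 [11, 0, 7, 6, 1, 5])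
  (.br 30 (.bad 4 1033 [11, 6, 8, 9, 7, 5])
  (.br 28 (.col 92 (.br 4 (.bad 4 1096 [11, 1, 5, 8, 9, 0])
  (.col 84 (.col 74 (.br 35 (.bad 4 1153 [11, 2, 3, 6, 8, 5])
  (.br 31 (.col 91 (.bad 4 112 [11, 1, 2, 7, 9, 3]))
  (.bad 0 1472 [11, 1, 2, 3, 5, 9])))))))
  (.bad 2 1036 [1, 5, 7, 11, 6, 8]))))))))
  (.bad 2 1664 [0, 1, 8, 11, 3, 6])))))))))))))
  (.br 4 (.col 79 (.col 84 (.br 14 (.bad 4 176 [11, 0, 9, 6, 3, 2])
  (.br 12 (.bad 4 176 [11, 2, 8, 6, 3, 0])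
  (.br 15 (.bad 5 176 [3, 11, 6, 0, 9, 8, 2])
  (.bad 2 176 [0, 2, 6, 11, 8, 9]))))))
  (.br 8 (.col 71 (.col 102 (.col 107 (.br 3 (.bad 4 50 [11, 6, 9, 8, 7, 2])
  (.br 14 (.bad 4 560 [11, 0, 7, 6, 1, 3])
  (.br 5 (.bad 4 112 [11, 1, 9, 8, 3, 2])
  (.br 11 (.bad 4 112 [11, 1, 9, 7, 2, 3])
  (.br 2 (.bad 4 560 [11, 1, 6, 8, 3, 0])
  (.br 15 (.col 97 (.bad 2 112 [2, 3, 9, 11, 7, 8]))
  (.bad 2 560 [0, 3, 6, 11, 7, 8]))))))))))
  (.br 44 (.col 81 (.col 105 (.col 112 (.br 6 (.bad 4 1090 [11, 2, 5, 9, 7, 3])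
  (.br 11 (.bad 4 1216 [11, 1, 9, 5, 2, 3])
  (.br 42 (.bad 5 1216 [3, 11, 0, 2, 1, 9, 5])
  (.br 30 (.bad 5 1090 [3, 11, 8, 2, 7, 9, 5])
  (.br 1 (.col 73 (.br 43 (.bad 4 1096 [11, 0, 5, 8, 7, 1])
  (.br 13 (.bad 4 112 [11, 2, 3, 8, 7, 1])
  (.br 31 (.bad 9 1216 [1, 11, 9, 8, 0, 3, 5, 2])
  (.bad 0 1472 [11, 1, 2, 3, 5, 9])))))
  (.bad 2 1089 [3, 5, 9, 11, 7, 8])))))))))
  (.br 47 (.col 8 (.col 36 (.col 43 (.col 48 (.col 50 (.br 3 (.bad 4 146 [11, 6, 9, 8, 10, 2])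
  (.br 6 (.bad 4 82 [11, 7, 9, 10, 8, 3])
  (.br 7 (.bad 4 530 [11, 6, 7, 8, 10, 3])
  (.br 39 (.bad 4 704 [11, 1, 4, 8, 3, 0])
  (.br 34 (.bad 4 194 [11, 2, 10, 9, 4, 5])
  (.br 11 (.bad 4 208 [11, 1, 9, 10, 2, 3])
  (.br 19 (.bad 4 194 [11, 4, 9, 8, 5, 2])
  (.br 20 (.bad 4 578 [11, 4, 7, 8, 5, 3])
  (.br 29 (.bad 4 704 [11, 1, 4, 3, 10, 5])
  (.br 35 (.col 80 (.col 90 (.col 94 (.br 51 (.col 98 (.col 117 (.col 29 (.col 95 (.br 16 (.bad 4 388 [11, 1, 5, 6, 10, 4])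
  (.bad 2 515 [4, 5, 10, 11, 6, 7]))))))
  (.bad 0 1728 [11, 0, 1, 3, 5, 8])))))
  (.bad 2 194 [2, 5, 9, 11, 8, 10]))))))))))))))))
  (.br 17 (.col 13 (.col 39 (.col 46 (.col 48 (.col 51 (.br 2 (.col 56 (.col 103 (.bad 4 44 [11, 6, 7, 10, 8, 0])))
  (.br 5 (.col 21 (.col 40 (.bad 4 104 [11, 7, 9, 8, 10, 0])))
  (.br 9 (.col 60 (.col 107 (.bad 4 608 [11, 1, 3, 8, 10, 0])))
  (.br 12 (.col 26 (.col 78 (.bad 4 164 [11, 6, 9, 10, 8, 0])))
  (.br 13 (.col 32 (.col 84 (.bad 4 224 [11, 2, 3, 10, 8, 0])))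
  (.br 15 (.col 97 (.col 111 (.col 115 (.br 1 (.bad 4 560 [11, 0, 3, 8, 7, 1])
  (.br 6 (.bad 4 304 [11, 1, 2, 7, 9, 3])
  (.bad 2 112 [1, 3, 7, 11, 8, 9]))))))
  (.br 25 (.col 50 (.col 65 (.col 49 (.br 33 (.bad 4 704 [11, 0, 10, 3, 5, 4])
  (.bad 0 1728 [11, 0, 1, 3, 5, 8])))))
  (.br 24 (.col 16 (.col 18 (.col 35 (.col 52 (.col 54 (.col 57 (.br 43 (.bad 4 328 [11, 1, 4, 7, 10, 5])
  (.br 41 (.bad 4 268 [11, 1, 4, 7, 10, 5])
  (.br 51 (.bad 4 2624 [1, 4, 8, 5, 7, 10])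
  (.br 39 (.col 49 (.col 58 (.col 83 (.col 106 (.col 110 (.col 112 (.br 3 (.br 6 (.col 17 (.col 20 (.col 22 (.col 23 (.col 28 (.col 29 (.col 42 (.col 53 (.col 61 (.col 68 (.col 72 (.sol 12))))))))))))
  (.col 17 (.col 20 (.col 29 (.col 72 (.br 35 (.bad 4 193 [11, 3, 4, 8, 10, 5])
  (.bad 0 1472 [11, 1, 2, 3, 5, 9])))))))
  (.br 31 (.col 29 (.col 95 (.col 23 (.br 50 (.bad 4 131 [11, 2, 4, 9, 10, 5])
  (.bad 2 896 [4, 5, 10, 11, 1, 6])))))
  (.bad 2 1408 [2, 3, 9, 11, 5, 6])))))))))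
  (.bad 0 960 [11, 1, 3, 4, 5, 10])))))))))))
  (.col 35 (.br 30 (.bad 4 74 [11, 7, 9, 10, 8, 4])
  (.br 32 (.bad 4 578 [11, 3, 5, 8, 10, 4])
  (.br 26 (.bad 4 14 [11, 6, 7, 8, 10, 4])
  (.br 51 (.col 65 (.col 98 (.col 112 (.col 116 (.col 117 (.col 49 (.br 38 (.bad 4 200 [11, 4, 8, 9, 5, 0])
  (.br 3 (.col 94 (.br 45 (.col 17 (.bad 2 1284 [1, 5, 6, 11, 7, 9]))
  (.bad 2 208 [1, 3, 10, 11, 8, 9])))
  (.bad 2 1288 [1, 5, 7, 11, 6, 9])))))))))
  (.bad 2 832 [4, 5, 10, 11, 1, 7])))))))))))))))))))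
  (.br 27 (.col 35 (.col 70 (.col 100 (.col 105 (.br 20 (.bad 4 578 [11, 3, 10, 8, 5, 4])
  (.br 19 (.bad 4 74 [11, 7, 8, 10, 9, 4])
  (.br 16 (.bad 4 14 [11, 6, 10, 8, 7, 4])
  (.br 48 (.col 28 (.col 61 (.br 3 (.bad 4 131 [11, 4, 5, 6, 9, 2])
  (.br 6 (.bad 4 67 [11, 4, 5, 9, 7, 3])
  (.col 68 (.br 49 (.bad 4 1030 [11, 6, 9, 8, 7, 5])
  (.bad 2 1027 [2, 3, 9, 11, 6, 7])))))))
  (.bad 2 578 [4, 5, 10, 11, 7, 8])))))))))
  (.br 29 (.col 49 (.col 83 (.col 110 (.col 112 (.br 23 (.bad 4 704 [11, 0, 5, 3, 10, 4])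
  (.br 19 (.bad 4 200 [11, 0, 5, 9, 10, 4])
  (.br 16 (.bad 4 140 [11, 0, 5, 6, 10, 4])
  (.br 48 (.col 28 (.col 61 (.col 65 (.br 11 (.bad 4 193 [11, 4, 5, 9, 8, 3])
  (.col 82 (.br 13 (.col 31 (.br 3 (.bad 4 131 [11, 4, 5, 6, 9, 2])
  (.col 97 (.br 37 (.bad 4 400 [11, 2, 3, 6, 10, 1])
  (.bad 2 896 [4, 5, 10, 11, 3, 6])))))
  (.bad 0 1472 [11, 1, 2, 3, 5, 9])))))))
  (.bad 2 704 [4, 5, 10, 11, 0, 1])))))))))
  (.br 34 (.col 6 (.col 68 (.col 81 (.col 82 (.br 13 (.bad 4 1216 [11, 1, 2, 8, 5, 0])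
  (.br 19 (.bad 4 194 [11, 2, 10, 8, 5, 4])
  (.br 21 (.bad 4 196 [11, 1, 10, 8, 5, 4])
  (.br 24 (.bad 4 70 [11, 7, 10, 9, 8, 5])
  (.br 36 (.bad 4 196 [11, 1, 10, 9, 4, 5])
  (.br 22 (.col 51 (.br 25 (.col 31 (.col 59 (.col 60 (.col 65 (.br 1 (.bad 4 608 [11, 0, 3, 8, 7, 1])
  (.br 5 (.bad 4 328 [11, 4, 5, 9, 7, 1])
  (.bad 2 112 [1, 3, 7, 11, 8, 9])))))))
  (.bad 2 208 [1, 2, 8, 11, 9, 10])))
  (.bad 2 224 [2, 3, 9, 11, 8, 10])))))))))))
  (.br 1 (.col 40 (.col 73 (.col 103 (.col 106 (.col 107 (.br 12 (.col 78 (.col 88 (.bad 4 52 [11, 6, 9, 8, 7, 1])))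
  (.br 13 (.col 84 (.col 93 (.bad 4 112 [11, 2, 3, 8, 7, 1])))
  (.br 15 (.col 111 (.col 115 (.bad 4 560 [11, 0, 3, 8, 7, 1])))
  (.br 21 (.col 12 (.col 20 (.bad 4 100 [11, 7, 8, 9, 10, 1])))
  (.br 22 (.col 51 (.col 60 (.bad 4 608 [11, 0, 3, 8, 7, 1])))
  (.br 25 (.col 65 (.bad 2 704 [1, 3, 5, 11, 8, 10]))
  (.br 24 (.col 18 (.col 37 (.col 44 (.col 49 (.br 6 (.col 17 (.col 29 (.col 72 (.br 16 (.col 22 (.col 41 (.col 52 (.col 62 (.br 51 (.bad 4 2816 [3, 4, 6, 5, 7, 10])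
  (.br 33 (.col 47 (.col 57 (.col 61 (.col 80 (.col 83 (.col 90 (.col 94 (.col 108 (.col 113 (.col 7 (.sol 0)))))))))))
  (.bad 0 1728 [11, 0, 1, 3, 5, 8])))))))
  (.col 22 (.col 41 (.col 52 (.br 41 (.bad 4 1036 [11, 0, 5, 8, 7, 1])
  (.br 51 (.col 65 (.col 98 (.col 116 (.col 117 (.col 28 (.col 57 (.br 7 (.col 87 (.bad 4 2432 [1, 2, 6, 3, 10, 9]))
  (.bad 2 800 [1, 3, 7, 11, 6, 10]))))))))
  (.bad 2 896 [4, 5, 10, 11, 3, 6]))))))))))
  (.col 17 (.col 72 (.br 19 (.col 11 (.col 47 (.br 51 (.col 98 (.col 117 (.br 49 (.col 22 (.col 52 (.bad 4 7 [11, 6, 9, 10, 7, 5])))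
  (.bad 2 1156 [1, 5, 9, 11, 6, 8]))))
  (.bad 0 1728 [11, 0, 1, 3, 5, 8]))))
  (.bad 2 224 [2, 3, 9, 11, 8, 10])))))))))
  (.col 37 (.br 38 (.bad 4 88 [11, 7, 8, 10, 9, 1])
  (.br 45 (.col 9 (.br 19 (.col 11 (.col 28 (.col 47 (.col 65 (.bad 0 1728 [11, 0, 1, 3, 5, 8])))))
  (.bad 2 224 [2, 3, 9, 11, 8, 10])))
  (.bad 2 208 [1, 3, 10, 11, 8, 9]))))))))))))))))
  (.br 6 (.col 72 (.br 14 (.col 77 (.col 87 (.bad 4 49 [11, 6, 8, 9, 7, 3])))
  (.br 23 (.col 11 (.col 19 (.bad 4 97 [11, 7, 9, 8, 10, 3])))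
  (.br 24 (.col 17 (.col 37 (.br 16 (.col 22 (.col 41 (.col 52 (.br 33 (.bad 4 641 [11, 3, 5, 6, 10, 4])
  (.br 51 (.br 48 (.col 28 (.col 57 (.col 61 (.col 65 (.col 80 (.col 90 (.col 94 (.col 98 (.col 113 (.col 116 (.col 117 (.col 29 (.col 30 (.col 58 (.col 62 (.col 92 (.col 95 (.col 114 (.sol 8)))))))))))))))))))
  (.bad 2 704 [4, 5, 10, 11, 0, 1]))
  (.bad 0 1728 [11, 0, 1, 3, 5, 8]))))))
  (.col 52 (.br 40 (.bad 4 13 [11, 6, 8, 10, 7, 5])
  (.br 33 (.col 47 (.col 80 (.col 108 (.br 3 (.bad 4 1153 [11, 3, 5, 9, 6, 2])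
  (.col 23 (.bad 2 642 [4, 5, 10, 11, 6, 8]))))))
  (.bad 1 640 [11, 0, 3, 5, 6, 10])))))))
  (.br 36 (.col 10 (.col 47 (.col 49 (.br 51 (.br 5 (.bad 4 88 [11, 7, 9, 10, 8, 1])
  (.col 93 (.col 116 (.br 18 (.bad 4 76 [11, 4, 7, 8, 5, 1])
  (.bad 2 76 [1, 5, 7, 11, 8, 10])))))
  (.bad 0 1728 [11, 0, 1, 3, 5, 8])))))
  (.bad 1 576 [11, 1, 3, 4, 7, 10]))))))
  (.br 11 (.col 84 (.br 5 (.bad 4 112 [11, 2, 7, 8, 3, 1])
  (.br 9 (.bad 5 112 [2, 11, 7, 1, 9, 8, 3])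
  (.bad 2 112 [1, 3, 7, 11, 8, 9]))))
  (.bad 1 1088 [11, 1, 2, 5, 7, 9])))))))))))))

def B_la11_111 : Dat where
  r := 6
  V := [[.i, .o, .o, .o, .o, .o],
    [.o, .i, .o, .o, .o, .o],
    [.o, .o, .i, .o, .o, .o],
    [.o, .o, .o, .i, .o, .o],
    [.o, .o, .o, .o, .i, .o],
    [.o, .o, .o, .o, .o, .i],
    [.i, .o, .i, .o, .i, .o],
    [.o, .i, .o, .w, .o, .v],
    [.i, .i, .o, .o, .o, .o],
    [.o, .o, .i, .i, .o, .o],
    [.o, .o, .o, .o, .i, .i]]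
  P := [[.i, .o, .o, .o, .o, .o],
    [.o, .i, .o, .o, .o, .o],
    [.o, .o, .i, .o, .o, .o],
    [.o, .o, .o, .i, .o, .o],
    [.o, .o, .o, .o, .i, .o],
    [.o, .o, .o, .o, .o, .i],
    [.i, .o, .i, .o, .i, .o],
    [.o, .i, .o, .w, .o, .v],
    [.i, .i, .o, .o, .o, .o],
    [.o, .o, .i, .i, .o, .o],
    [.o, .o, .o, .o, .i, .i],
    [.o, .o, .i, .o, .i, .o],
    [.i, .o, .o, .o, .i, .o],
    [.i, .o, .i, .o, .o, .o],
    [.o, .o, .o, .w, .o, .v],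
    [.o, .i, .o, .o, .o, .v],
    [.o, .i, .o, .w, .o, .o],
    [.o, .o, .o, .o, .o, .o]]
  F := [[.i, .o, .o, .o, .o, .o],
    [.o, .i, .o, .o, .o, .o],
    [.i, .i, .o, .o, .o, .o],
    [.o, .o, .i, .o, .o, .o],
    [.i, .o, .i, .o, .o, .o],
    [.i, .i, .i, .o, .o, .o],
    [.o, .o, .o, .i, .o, .o],
    [.o, .o, .i, .i, .o, .o],
    [.i, .o, .i, .i, .o, .o],
    [.i, .i, .i, .i, .o, .o],
    [.i, .w, .i, .i, .o, .o],
    [.o, .i, .o, .v, .o, .o],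
    [.i, .i, .o, .v, .o, .o],
    [.i, .i, .i, .v, .o, .o],
    [.o, .i, .v, .v, .o, .o],
    [.i, .i, .v, .v, .o, .o],
    [.o, .o, .o, .o, .i, .o],
    [.i, .o, .o, .o, .i, .o],
    [.i, .i, .o, .o, .i, .o],
    [.o, .o, .i, .o, .i, .o],
    [.o, .o, .i, .i, .i, .o],
    [.i, .i, .o, .v, .i, .o],
    [.i, .i, .v, .v, .w, .o],
    [.o, .i, .v, .v, .v, .o],
    [.o, .o, .o, .o, .o, .i],
    [.i, .i, .i, .i, .o, .i],
    [.o, .o, .o, .o, .i, .i],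
    [.i, .o, .o, .o, .i, .i],
    [.i, .i, .o, .o, .i, .i],
    [.i, .v, .o, .o, .i, .i],
    [.o, .o, .i, .o, .i, .i],
    [.i, .i, .o, .i, .i, .i],
    [.o, .o, .i, .i, .i, .i],
    [.o, .i, .i, .i, .i, .i],
    [.i, .o, .o, .w, .i, .i],
    [.o, .o, .i, .w, .i, .i],
    [.o, .i, .o, .o, .o, .w],
    [.i, .i, .o, .o, .o, .w],
    [.i, .i, .i, .o, .o, .w],
    [.i, .i, .o, .o, .i, .w],
    [.o, .i, .o, .o, .w, .w],
    [.i, .i, .o, .o, .w, .w],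
    [.o, .i, .w, .o, .w, .w],
    [.i, .i, .v, .o, .w, .w],
    [.i, .o, .v, .v, .w, .w],
    [.o, .o, .o, .i, .o, .v],
    [.o, .o, .i, .i, .o, .v],
    [.i, .o, .i, .i, .o, .v],
    [.o, .o, .i, .i, .i, .v],
    [.o, .o, .o, .i, .v, .v],
    [.o, .o, .i, .i, .v, .v],
    [.i, .i, .w, .w, .v, .v]]
  ht := 0x7c00783058703c302d2039301d706c205c804c9078c068d03cc01d8039c02dd05c304c606c1074305c4054b06cc074c064e070f03d0035f02e103e001e4036301eb036c02ee03af07b006b105f005b404f506f00770067207330577057804fa05bb073c067d06be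
  ct := 0x330000000000000000000000000000000000000000000000000000000f000000000000000000000000000f00000000000029000002900c99000000000000000000000000000000000000000000000000000000000900000000000000000000000000090000000000001c000001c0081000000000000000000000000000007f000000000000020000002001c380000000000000020000002001c380000007f0068d000068d00fe000000000000000000000000000000000000000000000000000000000000a000000000000000000000000000a0000000000001d000001d00b1080000000000000000000000000007f00000000000000000000000007000000000000000000000000000700000007f000140000014006400000000000000000000000000000007f00000000000001000000100200800000000000000100000010020080000007f006c080006c08040000000000000000007f000007f01fff80000007f000008000000800e00000000007f000008000000800e0000001fff803400000340000000000000000000000000000000000000000000000000000000000000000000d000000000000000000000000000d0000000000002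b000001f008d180000000000000000000000000007f00000000000003000000c000c18000000000000003000000c000c1800000029000c18000c5880fe00000000000000000000000000000007f00000000000005000000600183000000000000000500000060018300000001c0078f000018300fe000000000000000007f000007f01fff800000002000c1800018300fe000000000002000c1800018300fe000000068d00fe00000fe000000000000000000000000000000000000007f00000000000004000000b001058000000000000004000000b0010580000001d0011500008858046000000000000000007f000007f01fff80000000001fc18000005800600000000000001fc1800000580060000000014000600000620000000000000000000000007f000007f01fff8000000010010080001bf800c0000000000010010080001bf800c00000006c0803c000000c000000000000000007f01fff8001fff80fe00000000008006000000c000000000000000008006000000c000000000000340000000000000000000000000000000000000000000000000000000000000000000000000000000016000000000000000000000000001900000000000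027000002700c1800000000000000000000000000000f000000000000100000010004080000000000000025000002500b9700000007f00408000040800fe0000000000000000000000000000000090000000000001200000120050a000000000000001800000180060c00000007f0060c000060c00fe00000000000000000020000002001c380000007f00408000040800fe00000000007f0060c000060c00fe0000001fff80fe00000fe000000000000000000000000000000000000000a0000000000001100000110044b8000000000000024000002400bd200000007f0045200004520060000000000000000000000000000000700000007f01fc80001fc8002000000000007f000120000012005c0000001fff802000000200000000000000000000000000100000010020080000007f004408000440802800000000007f0063f800063f80300000001fff80300000030000000000000000007f000008000000800e0000001fff8020000002000000000000001fff80300000030000000000000fe00000000000000000000000000000000000000000000000000000d000000000000130000015004c98000000000000026000002d00b5680000002700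4c98000b5680fe0000000000000000003000000c000c180000001001fff800040800fe000000000025000c18000b5680fe000000040800fe00000fe00000000000000000000000005000000600183000000012004c9800018300fe0000000000180060c0001fff80fe000000060c00fe00000fe0000000000000000002000c1800018300fe000000040800fe00000fe0000000000000060c00fe00000fe000000000000fe0000000000000000000000000000000000000004000000b0010580000001101fc980004458026000000000024001120000b7f805a00000004520026000005a000000000000000000001fc1800000580060000001fc800fe0000020000000000000000120006000005a000000000000200000000000000000000000000000000010010080001bf800c00000004408026000000c0000000000000063f803000000fe0000000000003000000000000000000000000000000008006000000c000000000000200000000000000000000000000030000000000000000000000000000000000000000000000000000000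
  cl := [(91, 0, 0x1000010),
    (103, 0, 0x20040),
    (107, 1, 0x80002),
    (151, 0, 0x200000000001),
    (155, 1, 0x1000000008),
    (167, 1, 0x10800),
    (199, 0, 0x200400020000),
    (203, 1, 0x41000080000),
    (211, 0, 0xa00000000010),
    (214, 1, 0x201000000800),
    (217, 0, 0x5000000010),
    (227, 1, 0x880800),
    (229, 0, 0x220800),
    (233, 0, 0xa0010),
    (286, 2, 0x1000008),
    (302, 3, 0x10040),
    (334, 2, 0x41080000),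
    (348, 3, 0x200001000040),
    (345, 0, 0x4001000020),
    (358, 2, 0x180040),
    (357, 0, 0x240040),
    (361, 0, 0xc0020),
    (398, 3, 0x2200000010000),
    (406, 2, 0x600000000008),
    (405, 0, 0x202000001000),
    (409, 0, 0x6000000008),
    (421, 0, 0x211000),
    (428, 2, 0x90008),
    (454, 2, 0x1200800080000),
    (453, 0, 0x208080200000),
    (457, 0, 0x8c000080000),
    (465, 0, 0x204002002000),
    (481, 0, 0x682000),
    (539, 0, 0x1000001),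
    (555, 1, 0x10002),
    (587, 0, 0x9020000),
    (595, 0, 0x800001000100),
    (602, 1, 0x1001000002),
    (611, 1, 0x900002),
    (611, 0, 0x120100),
    (617, 0, 0x60002),
    (651, 1, 0x11000010000),
    (659, 1, 0x401000004000),
    (659, 0, 0xc00000000001),
    (665, 0, 0x3000000001),
    (675, 1, 0x814000),
    (681, 0, 0x30001),
    (707, 1, 0x1001200800000),
    (707, 0, 0x1900000020000),
    (713, 0, 0x9020020000),
    (721, 0, 0x801002000400),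
    (737, 0, 0xc20400),
    (794, 4, 0x5010000),
    (790, 2, 0x400001000080),
    (793, 0, 0x2001000004),
    (806, 2, 0x110080),
    (809, 0, 0x50004),
    (838, 2, 0x1000101100000),
    (841, 0, 0x8011040000),
    (849, 0, 0x3000200),
    (865, 0, 0x540200),
    (902, 2, 0x5400000010000),
    (905, 0, 0x2a000010000),
    (913, 0, 0x402002008000),
    (929, 0, 0x418000),
    (961, 0, 0x9008002400000),
    (1063, 0, 0x41),
    (1067, 1, 0xa),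
    (1095, 0, 0x408000040),
    (1099, 1, 0x40040000002),
    (1099, 0, 0x48000010),
    (1123, 0, 0x150),
    (1126, 1, 0x842),
    (1129, 0, 0x32),
    (1159, 1, 0x2010000000800),
    (1159, 0, 0x2000400000001),
    (1163, 1, 0x50000000008),
    (1187, 1, 0x4808),
    (1189, 0, 0x1801),
    (1193, 0, 0x19),
    (1219, 1, 0x40a00000800),
    (1219, 0, 0x100c00000010),
    (1221, 0, 0x4a0000800),
    (1225, 0, 0xc0020000010),
    (1249, 0, 0x2c10),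
    (1294, 3, 0x2000004000040),
    (1294, 2, 0x44000008),
    (1318, 2, 0xc8),
    (1317, 0, 0x1044),
    (1321, 0, 0x2c),
    (1350, 2, 0x940000040),
    (1349, 0, 0x90000040),
    (1353, 0, 0x80050000020),
    (1377, 0, 0x2260),
    (1414, 2, 0x6000800000008),
    (1413, 0, 0x2020080001000),
    (1417, 0, 0xa0000000008),
    (1441, 0, 0xb008),
    (1473, 0, 0x8080880002000),
    (1547, 1, 0x10004000002),
    (1547, 0, 0xc000001),
    (1571, 1, 0x4082),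
    (1571, 0, 0x181),
    (1577, 0, 0x7),
    (1603, 1, 0x300000002),
    (1603, 0, 0x100108000100),
    (1609, 0, 0x38000002),
    (1633, 0, 0x702),
    (1667, 1, 0x4010200004000),
    (1667, 0, 0x4100000000001),
    (1673, 0, 0x30020000001),
    (1697, 0, 0xc401),
    (1729, 0, 0x8100220000400),
    (1798, 2, 0x4000104000080),
    (1801, 0, 0x20014000004),
    (1825, 0, 0x8284),
    (1857, 0, 0x8000110000200),
    (1921, 0, 0xc020000008000)]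
  sl := [0x7651b459948ca, 0x7f00d4d1b01d9, 0x223b4bd271847, 0xff07d0f003f, 0xe0700300ffff, 0xffffff, 0x9bcdffbfe2f72, 0xffffea2ebfc19, 0xf6ae9d77db2ec, 0xdd3b33fd7c787, 0xe1f0ffc00ffff, 0x1243b41981847, 0x6094b92648ca, 0x2a15007012f72, 0x7f00c000f003f, 0xff0201b01d9, 0x4debfc19, 0xfffffffffffff]
  t := B_la11_111_t

theorem B_la11_111_okD : B_la11_111.ckD = true := by decide +kernel

theorem B_la11_111_okT : B_la11_111.ckT TTab B_la11_111.t 0 0 = true := by decide +kernel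

theorem lext_la11_111 : LExt 6 11 (vecL 6 B_la11_111.V) (vecP 6 B_la11_111.P) :=
  lext_of_chk' B_la11_111 B_la11_111_okD B_la11_111_okT (by decide)

end QG
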