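import Pool.Agent.Lib.QG.BC8

/-! MP_2e6874_co, part (B): data for n5_0. -/

set_option autoImplicit false
set_option maxRecDepth 100000

namespace QG

def B_n5_0_t : Tr :=
  .br 0 (.br 1 (.col 0 (.sol 0))
  (.col 0 (.sol 2)))
  (.br 1 (.col 0 (.sol 1))
  (.br 2 (.col 0 (.sol 3))
  (.br 3 (.col 0 (.sol 5))
  (.br 4 (.sol 4)
  (.bad 0 0 [5, 0, 1, 2, 3, 4])))))

def B_n5_0 : Dat where
  r := 2
  V := [[.i, .o],
    [.o, .i],
    [.i, .i],
    [.i, .w],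
    [.i, .v]]
  P := [[.o, .o],
    [.i, .o],
    [.o, .i],
    [.i, .i],
    [.i, .w],
    [.i, .v]]
  F := [[.i, .o],
    [.o, .i],
    [.i, .i],
    [.i, .w],
    [.i, .v]]
  ht := 0x80010000400010002
  ct := 0x30000000000000400000020000080
  cl := [(1, 0, 0x1f)]
  sl := [0x1f, 0x2, 0x1, 0x4, 0x10, 0x8]
  t := B_n5_0_t

theorem B_n5_0_okD : B_n5_0.ckD = true := by decide +kernel

theorem B_n5_0_okT : B_n5_0.ckT TTab B_n5_0.t 0 0 = true := by decide +kernel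

theorem lext_n5_0 : LExt 2 5 (vecL 2 B_n5_0.V) (vecP 2 B_n5_0.P) :=
  lext_of_chk' B_n5_0 B_n5_0_okD B_n5_0_okT (by decide)

end QG
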