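import Pool.Agent.Lib.QG.BC8

/-! MP_2e6874_co, part (B): data for n5_1. -/

set_option autoImplicit false
set_option maxRecDepth 100000

namespace QG

def B_n5_1_t : Tr :=
  .br 0 (.br 1 (.col 2 (.br 4 (.col 0 (.col 1 (.col 3 (.sol 0))))
  (.col 0 (.col 1 (.col 3 (.sol 3))))))
  (.col 2 (.br 4 (.col 0 (.col 1 (.col 3 (.sol 2))))
  (.col 1 (.br 5 (.col 3 (.col 4 (.sol 6)))
  (.br 7 (.col 0 (.sol 8))
  (.br 9 (.sol 7)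
  (.bad 2 0 [5, 1, 2, 0, 3, 4]))))))))
  (.br 1 (.col 2 (.br 4 (.col 0 (.col 1 (.col 3 (.sol 1))))
  (.col 0 (.br 5 (.col 3 (.col 4 (.sol 9)))
  (.br 6 (.col 1 (.sol 11))
  (.br 8 (.sol 10)
  (.bad 2 0 [5, 0, 2, 1, 3, 4])))))))
  (.br 4 (.col 0 (.col 1 (.br 2 (.col 2 (.col 4 (.sol 19)))
  (.br 3 (.col 3 (.sol 16))
  (.br 5 (.sol 12)
  (.bad 2 0 [5, 0, 1, 2, 3, 4]))))))
  (.br 2 (.col 2 (.br 5 (.col 3 (.col 4 (.sol 5)))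
  (.col 4 (.br 6 (.col 3 (.sol 21))
  (.br 9 (.sol 20)
  (.bad 2 0 [5, 2, 4, 0, 1, 3]))))))
  (.br 7 (.col 0 (.col 4 (.br 3 (.col 3 (.sol 17))
  (.br 6 (.sol 15)
  (.bad 2 0 [5, 0, 4, 1, 2, 3])))))
  (.br 8 (.col 1 (.col 4 (.br 3 (.col 3 (.sol 18))
  (.br 9 (.sol 14)
  (.bad 2 0 [5, 1, 4, 0, 2, 3])))))
  (.br 3 (.br 5 (.col 3 (.sol 4))
  (.col 3 (.bad 2 0 [5, 2, 3, 0, 1, 4])))
  (.br 5 (.col 3 (.bad 2 0 [5, 3, 4, 0, 1, 2]))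
  (.br 6 (.col 3 (.bad 2 0 [5, 1, 3, 0, 2, 4]))
  (.br 9 (.bad 2 0 [5, 0, 3, 1, 2, 4])
  (.sol 13))))))))))

def B_n5_1 : Dat where
  r := 3
  V := [[.i, .o, .o],
    [.o, .i, .o],
    [.o, .o, .i],
    [.i, .w, .v],
    [.i, .v, .w]]
  P := [[.o, .o, .o],
    [.i, .o, .o],
    [.o, .i, .o],
    [.o, .o, .i],
    [.i, .w, .v],
    [.i, .v, .w],
    [.o, .i, .i],
    [.o, .i, .w],
    [.o, .i, .v],
    [.i, .o, .i],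
    [.i, .o, .w],
    [.i, .o, .v],
    [.i, .i, .o],
    [.i, .i, .i],
    [.i, .i, .w],
    [.i, .i, .v],
    [.i, .w, .o],
    [.i, .w, .i],
    [.i, .w, .w],
    [.i, .v, .o],
    [.i, .v, .i],
    [.i, .v, .v]]
  F := [[.i, .o, .o],
    [.o, .i, .o],
    [.i, .w, .o],
    [.i, .v, .o],
    [.o, .o, .i],
    [.i, .i, .i],
    [.i, .o, .w],
    [.o, .i, .w],
    [.i, .o, .v],
    [.o, .i, .v]]
  ht := 0x900120011000a00180003000c001400050006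
  ct := 0x5000000200203800000003001848000000800800000
  cl := [(3, 1, 0x292),
    (3, 0, 0x151),
    (5, 0, 0xf),
    (9, 0, 0x268),
    (17, 0, 0x1a4)]
  sl := [0x3ff, 0x292, 0x151, 0xf, 0x268, 0x1a4, 0x21, 0x201, 0x81, 0x22, 0x102, 0x42, 0x30, 0x0, 0x300, 0xc0, 0x18, 0x88, 0x108, 0x14, 0x204, 0x44]
  t := B_n5_1_t

theorem B_n5_1_okD : B_n5_1.ckD = true := by decide +kernel

theorem B_n5_1_okT : B_n5_1.ckT TTab B_n5_1.t 0 0 = true := by decide +kernel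

theorem lext_n5_1 : LExt 3 5 (vecL 3 B_n5_1.V) (vecP 3 B_n5_1.P) :=
  lext_of_chk' B_n5_1 B_n5_1_okD B_n5_1_okT (by decide)

end QG
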