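import Pool.Agent.Lib.QG.BC8

/-! MP_2e6874_co, part (B): data for n6_0. -/

set_option autoImplicit false
set_option maxRecDepth 100000

namespace QG

def B_n6_0_t : Tr :=
  .br 0 (.br 4 (.col 1 (.br 1 (.col 0 (.col 2 (.col 3 (.sol 0))))
  (.col 0 (.col 2 (.col 3 (.sol 2))))))
  (.col 1 (.br 1 (.col 0 (.col 2 (.col 3 (.sol 3))))
  (.col 2 (.br 6 (.col 3 (.col 4 (.sol 7)))
  (.br 8 (.col 0 (.sol 9))
  (.br 10 (.sol 8)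
  (.bad 2 0 [3, 4, 5, 6, 0, 1]))))))))
  (.br 4 (.col 1 (.br 1 (.col 0 (.col 2 (.col 3 (.sol 1))))
  (.col 0 (.br 2 (.col 2 (.col 4 (.sol 18)))
  (.br 3 (.col 3 (.sol 16))
  (.br 6 (.sol 12)
  (.bad 2 0 [3, 4, 5, 6, 1, 2])))))))
  (.br 1 (.col 0 (.col 2 (.br 5 (.col 1 (.col 5 (.sol 6)))
  (.col 5 (.br 7 (.col 1 (.sol 11))
  (.br 9 (.sol 10)
  (.bad 0 2 [6, 0, 2, 3, 4, 5])))))))
  (.br 5 (.col 1 (.col 5 (.br 2 (.col 2 (.col 4 (.br 10 (.bad 4 0 [6, 0, 3, 2, 4, 5])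
  (.bad 2 0 [6, 2, 4, 0, 1, 3]))))
  (.br 3 (.col 3 (.br 8 (.bad 4 0 [6, 0, 4, 2, 3, 5])
  (.bad 2 0 [6, 2, 3, 0, 1, 4])))
  (.br 8 (.col 0 (.bad 2 0 [6, 0, 4, 1, 2, 3]))
  (.br 10 (.bad 2 0 [6, 0, 3, 1, 2, 4])
  (.sol 13)))))))
  (.br 7 (.col 1 (.br 3 (.col 2 (.col 3 (.col 4 (.sol 4))))
  (.col 3 (.br 2 (.col 4 (.sol 19))
  (.br 8 (.sol 15)
  (.bad 2 0 [0, 2, 5, 6, 1, 4]))))))
  (.br 9 (.br 2 (.col 2 (.col 4 (.col 0 (.sol 5))))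
  (.col 4 (.br 3 (.col 3 (.sol 17))
  (.br 10 (.sol 14)
  (.bad 2 0 [0, 2, 5, 6, 1, 3])))))
  (.bad 0 2 [6, 0, 2, 3, 4, 5]))))))

def B_n6_0 : Dat where
  r := 3
  V := [[.i, .o, .o],
    [.o, .i, .o],
    [.o, .o, .i],
    [.i, .w, .v],
    [.i, .v, .w],
    [.i, .o, .i]]
  P := [[.o, .o, .o],
    [.i, .o, .o],
    [.o, .i, .o],
    [.o, .o, .i],
    [.i, .w, .v],
    [.i, .v, .w],
    [.i, .o, .i],
    [.o, .i, .i],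
    [.o, .i, .w],
    [.o, .i, .v],
    [.i, .o, .w],
    [.i, .o, .v],
    [.i, .i, .o],
    [.i, .i, .i],
    [.i, .i, .w],
    [.i, .i, .v],
    [.i, .w, .o],
    [.i, .w, .w],
    [.i, .v, .o],
    [.i, .v, .v]]
  F := [[.i, .o, .o],
    [.o, .i, .o],
    [.i, .w, .o],
    [.i, .v, .o],
    [.o, .o, .i],
    [.i, .o, .i],
    [.i, .i, .i],
    [.i, .o, .w],
    [.o, .i, .w],
    [.i, .o, .v],
    [.o, .i, .v]]
  ht := 0x900120011000a003800220003000c001400250006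
  ct := 0x6000000000000060000001001408000000000000006000000200244000000003001c50000000800800000
  cl := [(3, 1, 0x512),
    (3, 0, 0x2b1),
    (5, 0, 0xf),
    (9, 0, 0x4c8),
    (17, 0, 0x344),
    (33, 0, 0x62)]
  sl := [0x7ff, 0x512, 0x2b1, 0xf, 0x4c8, 0x344, 0x62, 0x41, 0x401, 0x101, 0x202, 0x82, 0x50, 0x20, 0x600, 0x180, 0x18, 0x208, 0x14, 0x84]
  t := B_n6_0_t

theorem B_n6_0_okD : B_n6_0.ckD = true := by decide +kernel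

theorem B_n6_0_okT : B_n6_0.ckT TTab B_n6_0.t 0 0 = true := by decide +kernel

theorem lext_n6_0 : LExt 3 6 (vecL 3 B_n6_0.V) (vecP 3 B_n6_0.P) :=
  lext_of_chk' B_n6_0 B_n6_0_okD B_n6_0_okT (by decide)

end QG
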