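import Pool.Agent.Lib.QG.BC8

/-! MP_2e6874_co, part (B): data for n6_1. -/

set_option autoImplicit false
set_option maxRecDepth 100000

namespace QG

def B_n6_1_t : Tr :=
  .br 0 (.br 1 (.col 2 (.br 5 (.col 0 (.col 1 (.col 3 (.col 4 (.sol 0)))))
  (.col 0 (.col 1 (.col 3 (.col 4 (.sol 3)))))))
  (.col 2 (.br 5 (.col 0 (.col 1 (.col 3 (.col 4 (.sol 2)))))
  (.col 1 (.br 7 (.col 0 (.col 5 (.br 8 (.sol 7)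
  (.bad 0 16 [6, 0, 1, 2, 3, 5]))))
  (.br 8 (.col 3 (.col 4 (.bad 0 1 [6, 1, 2, 3, 4, 5])))
  (.br 10 (.col 0 (.col 4 (.br 14 (.sol 9)
  (.bad 0 32 [6, 0, 1, 2, 3, 4]))))
  (.br 11 (.col 5 (.br 13 (.sol 8)
  (.bad 0 1 [6, 1, 2, 3, 4, 5])))
  (.bad 0 16 [6, 0, 1, 2, 3, 5])))))))))
  (.br 1 (.col 2 (.br 5 (.col 0 (.col 1 (.col 3 (.col 4 (.sol 1)))))
  (.col 0 (.br 6 (.col 1 (.col 5 (.br 8 (.sol 10)
  (.bad 0 16 [6, 0, 1, 2, 3, 5]))))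
  (.br 8 (.col 3 (.col 4 (.bad 0 2 [6, 0, 2, 3, 4, 5])))
  (.br 9 (.col 1 (.col 3 (.br 11 (.sol 12)
  (.bad 0 16 [6, 0, 1, 2, 3, 5]))))
  (.br 12 (.col 4 (.br 14 (.sol 11)
  (.bad 0 32 [6, 0, 1, 2, 3, 4])))
  (.bad 0 2 [6, 0, 2, 3, 4, 5]))))))))
  (.br 5 (.col 0 (.col 1 (.br 2 (.col 2 (.col 5 (.br 8 (.sol 13)
  (.bad 0 16 [6, 0, 1, 2, 3, 5]))))
  (.br 8 (.col 3 (.col 4 (.bad 0 32 [6, 0, 1, 2, 3, 4])))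
  (.br 3 (.col 2 (.col 4 (.br 14 (.sol 19)
  (.bad 0 32 [6, 0, 1, 2, 3, 4]))))
  (.br 11 (.col 5 (.br 4 (.sol 16)
  (.bad 0 8 [6, 0, 1, 2, 4, 5])))
  (.bad 0 16 [6, 0, 1, 2, 3, 5])))))))
  (.br 2 (.col 2 (.br 8 (.col 3 (.col 4 (.col 5 (.bad 0 2 [6, 0, 2, 3, 4, 5]))))
  (.br 6 (.col 1 (.col 5 (.col 0 (.sol 6))))
  (.col 5 (.br 9 (.col 1 (.col 3 (.br 10 (.sol 15)
  (.bad 0 16 [6, 0, 1, 2, 3, 5]))))
  (.br 12 (.col 4 (.br 13 (.sol 14)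
  (.bad 0 1 [6, 1, 2, 3, 4, 5])))
  (.bad 0 2 [6, 0, 2, 3, 4, 5])))))))
  (.br 6 (.col 1 (.col 5 (.br 8 (.col 3 (.col 4 (.bad 0 1 [6, 1, 2, 3, 4, 5])))
  (.br 3 (.col 2 (.col 4 (.br 13 (.sol 20)
  (.bad 0 1 [6, 1, 2, 3, 4, 5]))))
  (.br 10 (.col 0 (.br 4 (.sol 17)
  (.bad 0 8 [6, 0, 1, 2, 4, 5])))
  (.bad 0 16 [6, 0, 1, 2, 3, 5]))))))
  (.br 7 (.col 0 (.col 5 (.br 8 (.col 3 (.col 4 (.bad 0 2 [6, 0, 2, 3, 4, 5])))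
  (.br 3 (.col 2 (.col 4 (.br 9 (.sol 21)
  (.bad 0 2 [6, 0, 2, 3, 4, 5]))))
  (.br 12 (.col 1 (.br 4 (.sol 18)
  (.bad 0 8 [6, 0, 1, 2, 4, 5])))
  (.bad 0 16 [6, 0, 1, 2, 3, 5]))))))
  (.br 3 (.col 2 (.br 8 (.col 3 (.col 4 (.sol 5)))
  (.col 4 (.br 9 (.col 3 (.bad 0 1 [6, 1, 2, 3, 4, 5]))
  (.bad 0 2 [6, 0, 2, 3, 4, 5])))))
  (.br 4 (.br 8 (.col 3 (.col 4 (.sol 4)))
  (.col 3 (.br 12 (.col 4 (.bad 0 1 [6, 1, 2, 3, 4, 5]))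
  (.bad 0 2 [6, 0, 2, 3, 4, 5]))))
  (.bad 0 4 [6, 0, 1, 3, 4, 5]))))))))

def B_n6_1 : Dat where
  r := 3
  V := [[.i, .o, .o],
    [.o, .i, .o],
    [.o, .o, .i],
    [.i, .w, .v],
    [.i, .v, .w],
    [.i, .i, .i]]
  P := [[.o, .o, .o],
    [.i, .o, .o],
    [.o, .i, .o],
    [.o, .o, .i],
    [.i, .w, .v],
    [.i, .v, .w],
    [.i, .i, .i],
    [.o, .i, .i],
    [.o, .i, .w],
    [.o, .i, .v],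
    [.i, .o, .i],
    [.i, .o, .w],
    [.i, .o, .v],
    [.i, .i, .o],
    [.i, .i, .w],
    [.i, .i, .v],
    [.i, .w, .o],
    [.i, .w, .i],
    [.i, .w, .w],
    [.i, .v, .o],
    [.i, .v, .i],
    [.i, .v, .v]]
  F := [[.i, .o, .o],
    [.o, .i, .o],
    [.i, .i, .o],
    [.i, .w, .o],
    [.i, .v, .o],
    [.o, .o, .i],
    [.i, .o, .i],
    [.o, .i, .i],
    [.i, .i, .i],
    [.i, .o, .w],
    [.o, .i, .w],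
    [.i, .v, .w],
    [.i, .o, .v],
    [.o, .i, .v],
    [.i, .w, .v]]
  ht := 0x280009001200300011000a0018002100220003000c0014002400050006
  ct := 0xb0000000000000e0000002001838000000000000008000000300305000000004002468000000800a00000
  cl := [(3, 1, 0x24a2),
    (3, 0, 0x1261),
    (5, 0, 0x1f),
    (9, 0, 0x6310),
    (17, 0, 0x1d08),
    (33, 0, 0x48c4)]
  sl := [0x7fff, 0x24a2, 0x1261, 0x1f, 0x6310, 0x1d08, 0x48c4, 0x181, 0x2801, 0x4401, 0x142, 0x5002, 0xa02, 0x124, 0x3004, 0x604, 0x830, 0x450, 0x1090, 0x4028, 0x2048, 0x288]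
  t := B_n6_1_t

theorem B_n6_1_okD : B_n6_1.ckD = true := by decide +kernel

theorem B_n6_1_okT : B_n6_1.ckT TTab B_n6_1.t 0 0 = true := by decide +kernel

theorem lext_n6_1 : LExt 3 6 (vecL 3 B_n6_1.V) (vecP 3 B_n6_1.P) :=
  lext_of_chk' B_n6_1 B_n6_1_okD B_n6_1_okT (by decide)

end QG
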