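import Pool.Agent.Lib.QG.BC8

/-! MP_2e6874_co, part (B): data for n6_2. -/

set_option autoImplicit false
set_option maxRecDepth 100000

namespace QG

def B_n6_2_t : Tr :=
  .br 0 (.br 4 (.col 4 (.br 1 (.col 0 (.col 1 (.col 2 (.col 3 (.sol 0)))))
  (.col 0 (.col 1 (.col 2 (.col 3 (.sol 5)))))))
  (.col 4 (.br 7 (.col 3 (.col 5 (.bad 4 0 [6, 1, 2, 3, 5, 0])))
  (.br 1 (.col 0 (.col 1 (.col 2 (.sol 3))))
  (.col 2 (.br 3 (.col 1 (.sol 2))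
  (.col 1 (.sol 7))))))))
  (.br 4 (.col 4 (.br 1 (.col 0 (.col 1 (.col 2 (.col 3 (.sol 1)))))
  (.col 0 (.br 2 (.bad 4 0 [6, 0, 4, 3, 2, 1])
  (.br 6 (.bad 4 0 [6, 0, 4, 5, 1, 2])
  (.br 7 (.bad 5 0 [0, 6, 4, 1, 5, 3, 2])
  (.bad 2 0 [1, 2, 4, 6, 3, 5])))))))
  (.br 1 (.col 0 (.col 2 (.br 5 (.bad 4 0 [6, 0, 2, 3, 4, 1])
  (.br 6 (.col 5 (.sol 6))
  (.col 5 (.sol 8))))))
  (.br 6 (.col 1 (.col 5 (.br 2 (.bad 4 0 [6, 1, 5, 3, 2, 0])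
  (.br 5 (.bad 5 0 [1, 6, 5, 0, 4, 3, 2])
  (.bad 2 0 [0, 2, 5, 6, 3, 4])))))
  (.br 8 (.col 4 (.col 5 (.br 3 (.bad 4 0 [6, 0, 1, 5, 4, 2])
  (.br 2 (.bad 5 0 [2, 6, 3, 0, 4, 5, 1])
  (.sol 10)))))
  (.br 2 (.br 3 (.col 3 (.sol 4))
  (.col 3 (.bad 2 0 [0, 1, 3, 6, 4, 5])))
  (.br 3 (.col 3 (.sol 9))
  (.br 5 (.col 3 (.sol 12))
  (.br 7 (.sol 11)
  (.bad 2 0 [0, 2, 5, 6, 3, 4])))))))))

def B_n6_2 : Dat where
  r := 3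
  V := [[.i, .o, .o],
    [.o, .i, .o],
    [.o, .o, .i],
    [.i, .i, .o],
    [.o, .i, .i],
    [.i, .o, .v]]
  P := [[.o, .o, .o],
    [.i, .o, .o],
    [.o, .i, .o],
    [.o, .o, .i],
    [.i, .i, .o],
    [.o, .i, .i],
    [.i, .o, .v],
    [.o, .i, .w],
    [.i, .o, .w],
    [.i, .w, .o],
    [.i, .w, .i],
    [.i, .v, .i],
    [.i, .v, .w]]
  F := [[.i, .o, .o],
    [.o, .i, .o],
    [.i, .i, .o],
    [.o, .o, .i],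
    [.o, .i, .i],
    [.i, .i, .i],
    [.i, .o, .w],
    [.i, .i, .w],
    [.i, .w, .w]]
  ht := 0x300028002200180011000b000c00250016
  ct := 0x8000000000000070000001001808000000000000005000000000002000000002000c18000000800600000
  cl := [(3, 1, 0x1a),
    (3, 0, 0x49),
    (5, 0, 0x7),
    (9, 0, 0xac),
    (17, 0, 0x131),
    (33, 0, 0x1c2)]
  sl := [0x1ff, 0x1a, 0x49, 0x7, 0xac, 0x131, 0x1c2, 0x1, 0x2, 0x8, 0x100, 0x80, 0x20]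
  t := B_n6_2_t

theorem B_n6_2_okD : B_n6_2.ckD = true := by decide +kernel

theorem B_n6_2_okT : B_n6_2.ckT TTab B_n6_2.t 0 0 = true := by decide +kernel

theorem lext_n6_2 : LExt 3 6 (vecL 3 B_n6_2.V) (vecP 3 B_n6_2.P) :=
  lext_of_chk' B_n6_2 B_n6_2_okD B_n6_2_okT (by decide)

end QG
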