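import Pool.Agent.Lib.QG.BC8

/-! MP_2e6874_co, part (B): data for n7_0. -/

set_option autoImplicit false
set_option maxRecDepth 100000

namespace QG

def B_n7_0_t : Tr :=
  .br 0 (.br 4 (.col 1 (.br 1 (.col 0 (.col 2 (.col 3 (.sol 0))))
  (.col 0 (.col 2 (.col 3 (.sol 2))))))
  (.col 1 (.br 9 (.col 0 (.col 2 (.col 4 (.bad 4 0 [7, 0, 4, 2, 6, 5]))))
  (.br 11 (.col 0 (.col 2 (.col 3 (.bad 4 0 [7, 0, 3, 2, 6, 5]))))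
  (.br 1 (.col 0 (.col 2 (.col 3 (.sol 3))))
  (.col 2 (.br 6 (.col 6 (.sol 7))
  (.bad 0 1 [7, 1, 3, 4, 5, 6]))))))))
  (.br 4 (.col 1 (.br 1 (.col 0 (.col 2 (.col 3 (.sol 1))))
  (.col 0 (.br 7 (.bad 4 0 [7, 0, 1, 5, 6, 2])
  (.br 3 (.bad 5 0 [2, 7, 3, 6, 0, 1, 5])
  (.br 2 (.bad 5 0 [2, 7, 4, 6, 0, 1, 5])
  (.bad 0 128 [1, 2, 3, 4, 5, 6])))))))
  (.br 6 (.col 0 (.col 6 (.br 2 (.bad 4 0 [7, 0, 6, 2, 4, 5])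
  (.br 3 (.bad 4 0 [7, 0, 6, 2, 3, 5])
  (.br 5 (.bad 4 0 [7, 0, 6, 5, 1, 2])
  (.br 10 (.col 1 (.bad 2 0 [0, 2, 5, 7, 1, 3]))
  (.bad 2 0 [0, 2, 5, 7, 1, 4])))))))
  (.br 1 (.col 0 (.col 2 (.br 5 (.col 1 (.col 5 (.sol 6)))
  (.col 5 (.br 8 (.bad 4 0 [7, 1, 3, 2, 5, 6])
  (.br 10 (.bad 4 0 [7, 1, 4, 2, 5, 6])
  (.bad 0 2 [7, 0, 3, 4, 5, 6])))))))
  (.br 5 (.col 1 (.col 5 (.br 2 (.bad 4 0 [7, 1, 5, 2, 4, 6])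
  (.br 3 (.bad 4 0 [7, 1, 5, 2, 3, 6])
  (.br 11 (.col 0 (.bad 2 0 [1, 2, 6, 7, 0, 4]))
  (.bad 2 0 [1, 2, 6, 7, 0, 3]))))))
  (.br 8 (.col 1 (.br 2 (.col 2 (.col 3 (.col 4 (.bad 0 1 [7, 1, 3, 4, 5, 6]))))
  (.br 3 (.col 3 (.col 4 (.sol 4)))
  (.col 3 (.br 9 (.bad 7 0 [4, 5, 3, 6, 7, 0, 2, 1])
  (.bad 0 1 [7, 1, 3, 4, 5, 6]))))))
  (.br 10 (.br 2 (.col 2 (.col 4 (.col 0 (.sol 5))))
  (.col 4 (.br 11 (.col 3 (.bad 7 0 [3, 5, 4, 6, 7, 0, 2, 1]))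
  (.bad 0 1 [7, 1, 3, 4, 5, 6]))))
  (.bad 0 2 [7, 0, 3, 4, 5, 6])))))))

def B_n7_0 : Dat where
  r := 3
  V := [[.i, .o, .o],
    [.o, .i, .o],
    [.o, .o, .i],
    [.i, .w, .v],
    [.i, .v, .w],
    [.i, .o, .i],
    [.o, .i, .i]]
  P := [[.o, .o, .o],
    [.i, .o, .o],
    [.o, .i, .o],
    [.o, .o, .i],
    [.i, .w, .v],
    [.i, .v, .w],
    [.i, .o, .i],
    [.o, .i, .i]]
  F := [[.i, .o, .o],
    [.o, .i, .o],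
    [.i, .w, .o],
    [.i, .v, .o],
    [.o, .o, .i],
    [.i, .o, .i],
    [.o, .i, .i],
    [.i, .i, .i],
    [.i, .o, .w],
    [.o, .i, .w],
    [.i, .o, .v],
    [.o, .i, .v]]
  ht := 0x900120011000a0078004100220003000c001400250046
  ct := 0x7000000000000000000000000000700000000000007000000000003000000000000000000000000000007000000000000070000001001408000000000000007000000200284800000003002058000000800800000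
  cl := [(3, 1, 0xa52),
    (3, 0, 0x531),
    (5, 0, 0xf),
    (9, 0, 0x988),
    (17, 0, 0x684),
    (33, 0, 0xa2),
    (65, 0, 0xc1)]
  sl := [0xfff, 0xa52, 0x531, 0xf, 0x988, 0x684, 0xa2, 0xc1]
  t := B_n7_0_t

theorem B_n7_0_okD : B_n7_0.ckD = true := by decide +kernel

theorem B_n7_0_okT : B_n7_0.ckT TTab B_n7_0.t 0 0 = true := by decide +kernel

theorem lext_n7_0 : LExt 3 7 (vecL 3 B_n7_0.V) (vecP 3 B_n7_0.P) :=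
  lext_of_chk' B_n7_0 B_n7_0_okD B_n7_0_okT (by decide)

end QG
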