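import Pool.Agent.Lib.QG.BC8

/-! MP_2e6874_co, part (B): data for n7_1. -/

set_option autoImplicit false
set_option maxRecDepth 100000

namespace QG

def B_n7_1_t : Tr :=
  .br 0 (.br 4 (.col 1 (.br 1 (.col 0 (.col 2 (.col 3 (.col 5 (.sol 0)))))
  (.col 0 (.col 2 (.col 3 (.col 5 (.sol 2)))))))
  (.col 1 (.br 1 (.col 0 (.col 2 (.col 3 (.col 5 (.sol 3)))))
  (.col 2 (.br 7 (.bad 4 0 [7, 1, 2, 6, 5, 0])
  (.br 9 (.bad 4 0 [7, 0, 4, 1, 2, 6])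
  (.br 6 (.bad 5 0 [2, 7, 1, 0, 4, 5, 6])
  (.bad 2 0 [0, 1, 6, 7, 4, 5]))))))))
  (.br 4 (.col 1 (.br 3 (.col 2 (.col 3 (.col 6 (.col 0 (.bad 5 0 [2, 7, 3, 4, 0, 6, 5])))))
  (.br 6 (.col 4 (.col 5 (.bad 4 0 [7, 0, 6, 5, 4, 2])))
  (.br 1 (.col 0 (.col 2 (.col 3 (.col 5 (.sol 1)))))
  (.col 0 (.br 12 (.col 6 (.sol 7))
  (.bad 0 8 [7, 0, 1, 2, 5, 6])))))))
  (.br 1 (.col 0 (.col 2 (.br 10 (.bad 4 0 [7, 0, 2, 1, 4, 6])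
  (.br 5 (.col 1 (.col 5 (.col 6 (.sol 6))))
  (.col 5 (.br 8 (.col 3 (.bad 7 0 [7, 0, 5, 2, 3, 1, 6, 4]))
  (.bad 0 2 [7, 2, 3, 4, 5, 6])))))))
  (.br 7 (.col 5 (.col 6 (.br 3 (.bad 4 0 [7, 2, 3, 6, 5, 4])
  (.br 9 (.bad 4 0 [7, 0, 4, 5, 6, 2])
  (.br 10 (.col 1 (.br 11 (.bad 5 0 [5, 7, 6, 4, 0, 3, 2])
  (.bad 0 8 [7, 0, 1, 2, 5, 6])))
  (.bad 2 0 [0, 2, 5, 7, 1, 4]))))))
  (.br 5 (.col 1 (.col 5 (.br 2 (.bad 4 0 [7, 1, 5, 6, 2, 0])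
  (.br 9 (.bad 5 0 [0, 7, 4, 2, 1, 5, 6])
  (.br 3 (.col 3 (.bad 2 0 [0, 1, 6, 7, 3, 4]))
  (.br 12 (.col 3 (.bad 9 0 [6, 7, 3, 1, 0, 4, 2, 5]))
  (.bad 2 0 [2, 4, 6, 7, 1, 3])))))))
  (.br 8 (.col 1 (.br 2 (.col 2 (.col 3 (.col 4 (.bad 7 0 [7, 6, 4, 2, 3, 1, 0, 5]))))
  (.br 6 (.col 3 (.col 4 (.sol 4)))
  (.bad 2 0 [2, 4, 6, 7, 1, 5]))))
  (.br 10 (.br 3 (.col 2 (.col 3 (.col 4 (.bad 2 0 [3, 4, 5, 7, 0, 6]))))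
  (.br 2 (.col 4 (.col 6 (.col 0 (.sol 5))))
  (.col 4 (.br 11 (.col 3 (.bad 9 0 [0, 7, 3, 1, 6, 5, 2, 4]))
  (.bad 2 0 [0, 2, 5, 7, 1, 3])))))
  (.bad 0 2 [7, 2, 3, 4, 5, 6])))))))

def B_n7_1 : Dat where
  r := 3
  V := [[.i, .o, .o],
    [.o, .i, .o],
    [.o, .o, .i],
    [.i, .w, .v],
    [.i, .v, .w],
    [.i, .o, .i],
    [.i, .v, .o]]
  P := [[.o, .o, .o],
    [.i, .o, .o],
    [.o, .i, .o],
    [.o, .o, .i],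
    [.i, .w, .v],
    [.i, .v, .w],
    [.i, .o, .i],
    [.i, .v, .o]]
  F := [[.i, .o, .o],
    [.o, .i, .o],
    [.i, .w, .o],
    [.i, .v, .o],
    [.o, .o, .i],
    [.i, .o, .i],
    [.i, .i, .i],
    [.i, .w, .i],
    [.i, .o, .w],
    [.o, .i, .w],
    [.i, .o, .v],
    [.o, .i, .v],
    [.i, .w, .v]]
  ht := 0x48000900120011000a0060003800220043000c005400250006
  ct := 0x700000000000000000000000000020000000000000c000000200102000000000000000000000000000006000000000000060000001001408000000000000006000000200284800000003002058000000800800000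
  cl := [(3, 1, 0xa12),
    (3, 0, 0x531),
    (5, 0, 0xf),
    (9, 0, 0x1948),
    (17, 0, 0x644),
    (33, 0, 0xe2),
    (65, 0, 0x1094)]
  sl := [0x1fff, 0xa12, 0x531, 0xf, 0x1948, 0x644, 0xe2, 0x1094]
  t := B_n7_1_t

theorem B_n7_1_okD : B_n7_1.ckD = true := by decide +kernel

theorem B_n7_1_okT : B_n7_1.ckT TTab B_n7_1.t 0 0 = true := by decide +kernel

theorem lext_n7_1 : LExt 3 7 (vecL 3 B_n7_1.V) (vecP 3 B_n7_1.P) :=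
  lext_of_chk' B_n7_1 B_n7_1_okD B_n7_1_okT (by decide)

end QG
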