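import Pool.Agent.Lib.QG.BC8

/-! MP_2e6874_co, part (B): data for n7_2. -/

set_option autoImplicit false
set_option maxRecDepth 100000

namespace QG

def B_n7_2_t : Tr :=
  .br 0 (.br 1 (.col 2 (.br 5 (.col 0 (.col 1 (.col 3 (.col 4 (.sol 0)))))
  (.col 0 (.col 1 (.col 3 (.col 4 (.sol 3)))))))
  (.col 2 (.br 7 (.col 0 (.col 1 (.bad 4 0 [7, 0, 6, 2, 1, 5])))
  (.br 8 (.col 3 (.col 4 (.col 5 (.col 1 (.bad 0 1 [7, 1, 3, 4, 5, 6])))))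
  (.br 10 (.col 0 (.col 1 (.col 4 (.br 14 (.bad 9 0 [7, 0, 4, 2, 1, 3, 6, 5])
  (.bad 0 8 [7, 0, 1, 2, 5, 6])))))
  (.br 5 (.col 0 (.col 1 (.col 3 (.col 4 (.sol 2)))))
  (.col 1 (.br 11 (.col 6 (.br 13 (.bad 9 0 [7, 0, 3, 2, 1, 4, 6, 5])
  (.bad 0 8 [7, 0, 1, 2, 5, 6])))
  (.bad 0 16 [7, 0, 1, 2, 5, 6])))))))))
  (.br 1 (.col 2 (.br 9 (.col 1 (.col 3 (.col 0 (.br 11 (.bad 4 0 [7, 1, 3, 6, 4, 5])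
  (.bad 0 16 [7, 0, 1, 2, 5, 6])))))
  (.br 11 (.col 4 (.col 5 (.col 6 (.col 0 (.bad 0 2 [7, 0, 2, 3, 4, 6])))))
  (.br 12 (.col 1 (.col 4 (.col 0 (.br 14 (.bad 4 0 [7, 1, 4, 6, 3, 5])
  (.bad 0 8 [7, 0, 1, 2, 5, 6])))))
  (.br 14 (.col 3 (.col 5 (.col 6 (.col 0 (.bad 0 2 [7, 0, 2, 3, 4, 6])))))
  (.br 5 (.col 0 (.col 1 (.col 3 (.sol 1))))
  (.col 0 (.br 6 (.col 5 (.sol 6))
  (.bad 0 2 [7, 0, 2, 3, 4, 6])))))))))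
  (.br 5 (.col 0 (.col 1 (.br 2 (.bad 4 0 [7, 0, 1, 2, 6, 5])
  (.br 3 (.col 2 (.col 4 (.br 14 (.bad 9 0 [7, 0, 1, 2, 4, 6, 3, 5])
  (.bad 0 8 [7, 0, 1, 2, 5, 6]))))
  (.br 4 (.col 3 (.br 11 (.bad 9 0 [7, 0, 1, 2, 3, 6, 4, 5])
  (.bad 0 16 [7, 0, 1, 2, 5, 6])))
  (.bad 0 4 [7, 1, 3, 4, 5, 6]))))))
  (.br 6 (.col 1 (.col 5 (.br 3 (.col 2 (.col 4 (.col 6 (.br 13 (.bad 4 0 [7, 0, 3, 2, 4, 5])
  (.bad 0 8 [7, 0, 1, 2, 5, 6])))))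
  (.br 2 (.col 2 (.col 6 (.col 0 (.sol 7))))
  (.col 6 (.br 10 (.col 0 (.br 4 (.bad 4 0 [7, 0, 4, 2, 3, 5])
  (.bad 0 4 [7, 1, 3, 4, 5, 6])))
  (.bad 0 16 [7, 0, 1, 2, 5, 6])))))))
  (.br 2 (.col 2 (.col 6 (.br 8 (.col 3 (.col 4 (.bad 0 2 [7, 0, 2, 3, 4, 6])))
  (.br 9 (.col 1 (.col 3 (.br 10 (.bad 9 0 [7, 0, 4, 2, 6, 3, 1, 5])
  (.bad 0 16 [7, 0, 1, 2, 5, 6]))))
  (.br 12 (.col 4 (.br 13 (.bad 9 0 [7, 0, 3, 2, 6, 4, 1, 5])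
  (.bad 0 8 [7, 0, 1, 2, 5, 6])))
  (.bad 0 2 [7, 0, 2, 3, 4, 6]))))))
  (.br 7 (.col 0 (.col 6 (.br 3 (.col 2 (.col 4 (.br 9 (.bad 9 0 [7, 0, 6, 2, 4, 1, 3, 5])
  (.bad 0 2 [7, 0, 2, 3, 4, 6]))))
  (.br 4 (.col 3 (.br 12 (.bad 9 0 [7, 0, 6, 2, 3, 1, 4, 5])
  (.bad 0 2 [7, 0, 2, 3, 4, 6])))
  (.bad 0 4 [7, 1, 3, 4, 5, 6])))))
  (.br 3 (.col 2 (.br 8 (.col 3 (.col 4 (.sol 5)))
  (.col 4 (.br 9 (.col 3 (.bad 0 1 [7, 1, 3, 4, 5, 6]))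
  (.bad 0 2 [7, 0, 2, 3, 4, 6])))))
  (.br 4 (.br 8 (.col 3 (.col 4 (.sol 4)))
  (.col 3 (.br 12 (.col 4 (.bad 0 1 [7, 1, 3, 4, 5, 6]))
  (.bad 0 2 [7, 0, 2, 3, 4, 6]))))
  (.bad 0 4 [7, 1, 3, 4, 5, 6]))))))))

def B_n7_2 : Dat where
  r := 3
  V := [[.i, .o, .o],
    [.o, .i, .o],
    [.o, .o, .i],
    [.i, .w, .v],
    [.i, .v, .w],
    [.i, .o, .i],
    [.i, .i, .i]]
  P := [[.o, .o, .o],
    [.i, .o, .o],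
    [.o, .i, .o],
    [.o, .o, .i],
    [.i, .w, .v],
    [.i, .v, .w],
    [.i, .o, .i],
    [.i, .i, .i]]
  F := [[.i, .o, .o],
    [.o, .i, .o],
    [.i, .i, .o],
    [.i, .w, .o],
    [.i, .v, .o],
    [.o, .o, .i],
    [.i, .o, .i],
    [.o, .i, .i],
    [.i, .i, .i],
    [.i, .o, .w],
    [.o, .i, .w],
    [.i, .v, .w],
    [.i, .o, .v],
    [.o, .i, .v],
    [.i, .w, .v]]
  ht := 0x480009001200500011000a0038004100620003000c0014004400250006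
  ct := 0x6000000000000000000000000000b0000000000000e000000200183800000000000000000000000000008000000000000080000001001808000000000000008000000300305000000004002468000000800a00000
  cl := [(3, 1, 0x24a2),
    (3, 0, 0x1261),
    (5, 0, 0x1f),
    (9, 0, 0x6310),
    (17, 0, 0x1d08),
    (33, 0, 0x142),
    (65, 0, 0x48c4)]
  sl := [0x7fff, 0x24a2, 0x1261, 0x1f, 0x6310, 0x1d08, 0x142, 0x48c4]
  t := B_n7_2_t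

theorem B_n7_2_okD : B_n7_2.ckD = true := by decide +kernel

theorem B_n7_2_okT : B_n7_2.ckT TTab B_n7_2.t 0 0 = true := by decide +kernel

theorem lext_n7_2 : LExt 3 7 (vecL 3 B_n7_2.V) (vecP 3 B_n7_2.P) :=
  lext_of_chk' B_n7_2 B_n7_2_okD B_n7_2_okT (by decide)

end QG
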