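import Pool.Agent.Lib.QG.BC8

/-! MP_2e6874_co, part (B): data for n7_3. -/

set_option autoImplicit false
set_option maxRecDepth 100000

namespace QG

def B_n7_3_t : Tr :=
  .br 0 (.br 4 (.col 16 (.br 10 (.col 13 (.col 14 (.col 15 (.col 17 (.br 1 (.col 0 (.col 1 (.col 2 (.col 3 (.col 4 (.col 5 (.col 6 (.col 7 (.sol 0)))))))))
  (.col 0 (.col 1 (.col 2 (.col 3 (.col 4 (.col 5 (.col 6 (.col 7 (.sol 7))))))))))))))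
  (.col 13 (.col 14 (.col 15 (.col 17 (.br 17 (.col 6 (.col 10 (.bad 4 4 [7, 1, 3, 4, 5, 0])))
  (.br 1 (.col 0 (.col 1 (.col 2 (.col 3 (.col 4 (.col 5 (.col 7 (.sol 4))))))))
  (.col 2 (.col 3 (.col 4 (.col 7 (.br 9 (.col 1 (.col 5 (.sol 11)))
  (.col 1 (.br 14 (.sol 12)
  (.bad 2 32 [0, 1, 4, 7, 2, 6]))))))))))))))))
  (.col 16 (.br 7 (.col 7 (.col 11 (.bad 4 8 [7, 1, 2, 4, 5, 0])))
  (.br 10 (.col 13 (.col 14 (.col 15 (.col 17 (.br 1 (.col 0 (.col 1 (.col 2 (.col 3 (.col 4 (.col 5 (.col 6 (.sol 3))))))))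
  (.col 0 (.col 1 (.col 4 (.col 6 (.br 3 (.col 3 (.col 5 (.sol 10)))
  (.col 3 (.br 14 (.sol 13)
  (.bad 2 32 [0, 1, 4, 7, 3, 6])))))))))))))
  (.col 15 (.br 17 (.col 6 (.col 10 (.bad 4 4 [7, 1, 3, 4, 5, 0])))
  (.br 1 (.col 0 (.col 1 (.col 2 (.col 3 (.col 4 (.br 15 (.col 12 (.col 17 (.col 18 (.bad 4 128 [0, 1, 4, 3, 5, 6]))))
  (.br 12 (.col 5 (.col 8 (.col 14 (.sol 8))))
  (.col 14 (.br 19 (.col 8 (.sol 9))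
  (.bad 0 96 [7, 0, 1, 2, 3, 4]))))))))))
  (.col 4 (.br 12 (.col 13 (.col 14 (.col 17 (.br 14 (.col 5 (.col 9 (.sol 2)))
  (.bad 2 32 [0, 2, 3, 7, 4, 6])))))
  (.col 14 (.br 3 (.col 3 (.col 5 (.col 9 (.br 15 (.col 18 (.bad 11 0 [1, 6, 4, 2, 5, 0, 7, 3]))
  (.bad 2 16 [7, 1, 3, 2, 5, 6])))))
  (.col 3 (.br 9 (.col 1 (.col 5 (.br 15 (.col 18 (.bad 11 0 [1, 6, 4, 3, 5, 0, 7, 2]))
  (.bad 2 32 [7, 1, 2, 3, 4, 6]))))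
  (.col 1 (.br 14 (.col 8 (.col 12 (.bad 0 96 [7, 0, 1, 2, 3, 4])))
  (.br 19 (.col 18 (.sol 14))
  (.bad 2 32 [0, 2, 3, 7, 1, 6])))))))))))))))))
  (.br 4 (.col 16 (.br 1 (.col 2 (.col 3 (.col 4 (.col 7 (.br 11 (.col 6 (.col 15 (.bad 4 4 [7, 0, 3, 4, 6, 1])))
  (.br 13 (.col 9 (.col 10 (.col 14 (.col 18 (.col 5 (.bad 2 16 [7, 1, 3, 2, 5, 6]))))))
  (.br 15 (.col 12 (.col 17 (.col 18 (.col 5 (.col 10 (.col 13 (.bad 11 0 [0, 5, 4, 2, 6, 1, 7, 3])))))))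
  (.br 9 (.col 0 (.col 1 (.col 5 (.col 6 (.col 8 (.col 10 (.sol 1)))))))
  (.col 0 (.col 5 (.col 8 (.br 18 (.col 10 (.sol 15))
  (.bad 0 96 [7, 0, 1, 2, 3, 4])))))))))))))
  (.col 2 (.br 6 (.bad 4 8 [7, 0, 6, 5, 1, 2])
  (.br 2 (.bad 4 8 [7, 0, 6, 4, 2, 1])
  (.br 7 (.bad 5 8 [0, 7, 6, 1, 5, 4, 2])
  (.bad 2 8 [1, 2, 6, 7, 4, 5])))))))
  (.br 10 (.col 13 (.col 15 (.br 5 (.bad 4 64 [7, 0, 2, 4, 3, 1])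
  (.br 1 (.col 0 (.col 1 (.col 2 (.col 4 (.col 5 (.col 6 (.br 6 (.col 9 (.col 11 (.col 12 (.sol 18))))
  (.col 11 (.br 15 (.col 18 (.bad 11 0 [0, 5, 4, 3, 6, 1, 7, 2]))
  (.bad 2 16 [7, 1, 2, 3, 5, 6]))))))))))
  (.col 0 (.br 16 (.bad 4 4 [7, 0, 6, 5, 1, 3])
  (.br 2 (.bad 4 4 [7, 0, 6, 4, 3, 1])
  (.br 17 (.bad 5 4 [0, 7, 6, 1, 5, 4, 3])
  (.bad 2 4 [1, 3, 6, 7, 4, 5])))))))))
  (.br 1 (.col 0 (.col 2 (.col 4 (.br 5 (.bad 4 8 [7, 0, 2, 4, 6, 1])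
  (.br 11 (.bad 4 4 [7, 0, 3, 4, 6, 1])
  (.br 6 (.col 11 (.br 13 (.col 9 (.col 10 (.col 12 (.col 14 (.col 18 (.sol 6))))))
  (.col 9 (.col 10 (.col 12 (.col 18 (.br 12 (.sol 19)
  (.bad 2 64 [0, 1, 4, 7, 2, 5]))))))))
  (.col 11 (.br 14 (.col 5 (.col 9 (.col 10 (.col 12 (.bad 2 64 [1, 2, 3, 7, 4, 5])))))
  (.col 8 (.br 15 (.col 12 (.col 17 (.col 18 (.col 10 (.bad 2 2 [2, 3, 6, 7, 4, 5])))))
  (.br 12 (.col 14 (.br 18 (.col 10 (.sol 16))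
  (.bad 0 96 [7, 0, 1, 2, 3, 4])))
  (.br 13 (.col 9 (.col 10 (.sol 17)))
  (.bad 2 64 [0, 1, 4, 7, 3, 5])))))))))))))
  (.br 6 (.col 3 (.col 11 (.br 2 (.bad 4 8 [7, 1, 5, 4, 2, 0])
  (.br 5 (.bad 5 8 [1, 7, 5, 0, 6, 4, 2])
  (.bad 2 8 [0, 2, 5, 7, 4, 6])))))
  (.br 16 (.col 1 (.col 10 (.br 2 (.bad 4 4 [7, 1, 5, 4, 3, 0])
  (.br 11 (.bad 5 4 [1, 7, 5, 0, 6, 4, 3])
  (.bad 2 4 [0, 3, 5, 7, 4, 6])))))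
  (.br 8 (.col 11 (.col 16 (.br 3 (.bad 4 8 [7, 0, 1, 5, 6, 2])
  (.br 2 (.bad 5 8 [2, 7, 4, 0, 6, 5, 1])
  (.br 9 (.col 5 (.col 6 (.br 18 (.bad 4 4 [7, 0, 1, 5, 6, 3])
  (.col 18 (.bad 2 32 [0, 1, 4, 7, 2, 6])))))
  (.br 13 (.col 9 (.col 14 (.col 18 (.col 10 (.col 15 (.bad 2 16 [7, 5, 6, 1, 2, 3]))))))
  (.col 18 (.br 11 (.col 6 (.col 17 (.br 14 (.sol 23)
  (.bad 2 2 [2, 3, 6, 7, 4, 5]))))
  (.br 17 (.col 12 (.br 12 (.sol 22)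
  (.bad 2 2 [2, 3, 6, 7, 4, 5])))
  (.bad 2 4 [0, 3, 5, 7, 4, 6]))))))))))
  (.br 15 (.col 18 (.br 14 (.col 12 (.br 12 (.col 5 (.col 6 (.col 7 (.sol 5))))
  (.bad 2 64 [1, 2, 3, 7, 0, 5])))
  (.bad 2 32 [0, 2, 3, 7, 1, 6])))
  (.br 12 (.col 13 (.col 14 (.col 17 (.br 18 (.col 10 (.br 9 (.bad 4 4 [7, 0, 1, 5, 6, 3])
  (.col 5 (.br 7 (.col 7 (.sol 25))
  (.bad 2 8 [0, 1, 4, 7, 5, 6])))))
  (.bad 0 96 [7, 0, 1, 2, 3, 4])))))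
  (.br 14 (.col 5 (.col 8 (.col 9 (.col 12 (.br 18 (.col 15 (.br 5 (.col 7 (.sol 27))
  (.bad 2 64 [0, 1, 4, 7, 3, 5])))
  (.bad 0 96 [7, 0, 1, 2, 3, 4]))))))
  (.br 18 (.col 10 (.col 15 (.col 18 (.br 9 (.bad 4 4 [7, 0, 1, 5, 6, 3])
  (.br 5 (.br 3 (.col 7 (.bad 5 4 [3, 7, 4, 0, 6, 5, 1]))
  (.bad 2 2 [2, 3, 6, 7, 4, 5]))
  (.bad 2 64 [0, 1, 4, 7, 3, 5]))))))
  (.br 5 (.col 17 (.br 19 (.col 18 (.br 2 (.col 6 (.bad 2 4 [0, 1, 4, 7, 5, 6]))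
  (.col 7 (.br 9 (.col 6 (.sol 26))
  (.bad 2 2 [2, 3, 6, 7, 4, 5])))))
  (.bad 2 64 [7, 3, 4, 0, 2, 5])))
  (.br 2 (.col 7 (.bad 2 8 [0, 1, 4, 7, 5, 6]))
  (.br 3 (.col 5 (.col 7 (.br 11 (.col 6 (.br 19 (.col 18 (.sol 21))
  (.bad 2 32 [0, 2, 3, 7, 4, 6])))
  (.br 13 (.col 18 (.br 17 (.sol 20)
  (.bad 2 4 [0, 3, 5, 7, 4, 6])))
  (.bad 2 64 [1, 2, 3, 7, 4, 5])))))
  (.br 7 (.col 12 (.br 13 (.col 18 (.br 9 (.col 6 (.sol 24))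
  (.bad 2 1 [2, 3, 5, 7, 4, 6])))
  (.bad 2 32 [7, 3, 4, 1, 2, 6])))
  (.bad 2 8 [1, 2, 6, 7, 4, 5])))))))))))))))

def B_n7_3 : Dat where
  r := 4
  V := [[.i, .o, .o, .o],
    [.o, .i, .o, .o],
    [.o, .o, .i, .o],
    [.o, .o, .o, .i],
    [.i, .i, .o, .o],
    [.i, .o, .v, .w],
    [.o, .i, .i, .i]]
  P := [[.o, .o, .o, .o],
    [.i, .o, .o, .o],
    [.o, .i, .o, .o],
    [.o, .o, .i, .o],
    [.o, .o, .o, .i],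
    [.i, .i, .o, .o],
    [.i, .o, .v, .w],
    [.o, .i, .i, .i],
    [.o, .o, .i, .i],
    [.o, .o, .i, .v],
    [.o, .i, .o, .i],
    [.o, .i, .i, .o],
    [.o, .i, .i, .v],
    [.o, .i, .w, .i],
    [.o, .i, .w, .v],
    [.i, .o, .o, .w],
    [.i, .o, .w, .w],
    [.i, .o, .w, .v],
    [.i, .o, .v, .o],
    [.i, .o, .v, .v],
    [.i, .w, .o, .i],
    [.i, .w, .o, .v],
    [.i, .w, .i, .i],
    [.i, .w, .i, .v],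
    [.i, .v, .i, .o],
    [.i, .v, .i, .i],
    [.i, .v, .w, .o],
    [.i, .v, .w, .i]]
  F := [[.i, .o, .o, .o],
    [.o, .i, .o, .o],
    [.i, .i, .o, .o],
    [.o, .o, .i, .o],
    [.o, .i, .i, .o],
    [.i, .i, .i, .o],
    [.i, .o, .w, .o],
    [.i, .i, .w, .o],
    [.i, .w, .w, .o],
    [.o, .o, .o, .i],
    [.o, .i, .o, .i],
    [.i, .i, .o, .i],
    [.o, .o, .i, .i],
    [.i, .o, .i, .i],
    [.o, .o, .i, .w],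
    [.i, .i, .v, .w],
    [.i, .o, .o, .v],
    [.i, .i, .o, .v],
    [.i, .v, .o, .v],
    [.o, .i, .w, .v]]
  ht := 0x61006400340026007000330062005300540045001700680038002a00580049001b001c002d004e
  ct := 0xf000000000000080000012003498000000000000005000000b0030600000000000002000000500180000000000000000007000001100387000000001001808000400801c000000000002000c1800024480fe000000000080060000012000000000000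
  cl := [(7, 1, 0x602),
    (7, 0, 0x10201),
    (11, 1, 0x1a),
    (11, 0, 0x49),
    (13, 0, 0x7),
    (22, 2, 0x5208),
    (21, 0, 0x20a04),
    (25, 0, 0xac),
    (35, 1, 0x84002),
    (35, 0, 0x16040),
    (37, 0, 0x70002),
    (41, 0, 0x1c2),
    (49, 0, 0x2c080),
    (67, 1, 0x81410),
    (67, 0, 0x3001),
    (69, 0, 0x40c01),
    (73, 0, 0x131),
    (81, 0, 0x9820),
    (97, 0, 0xca100)]
  sl := [0xfffff, 0x8561a, 0x17249, 0x70e07, 0x1ff, 0x2daac, 0xfe1c2, 0xcbd31, 0x3007, 0x84007, 0x40c49, 0x10331, 0x4131, 0x44c01, 0x80001, 0x7001a, 0x71002, 0x2002, 0x7c2, 0x11c2, 0x22008, 0x80808, 0x21100, 0x4900, 0x2280, 0x41080, 0x80220, 0x44020]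
  t := B_n7_3_t

theorem B_n7_3_okD : B_n7_3.ckD = true := by decide +kernel

theorem B_n7_3_okT : B_n7_3.ckT TTab B_n7_3.t 0 0 = true := by decide +kernel

theorem lext_n7_3 : LExt 4 7 (vecL 4 B_n7_3.V) (vecP 4 B_n7_3.P) :=
  lext_of_chk' B_n7_3 B_n7_3_okD B_n7_3_okT (by decide)

end QG
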