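import Pool.Agent.Lib.QG.BC8

/-! MP_2e6874_co, part (B): data for n7_4. -/

set_option autoImplicit false
set_option maxRecDepth 100000

namespace QG

def B_n7_4_t : Tr :=
  .br 0 (.br 1 (.col 5 (.br 9 (.col 1 (.col 2 (.col 8 (.col 12 (.br 4 (.col 0 (.col 3 (.col 4 (.col 6 (.col 7 (.col 10 (.col 11 (.col 13 (.col 14 (.sol 0))))))))))
  (.col 0 (.col 3 (.col 4 (.col 6 (.col 7 (.col 10 (.col 11 (.col 13 (.col 14 (.sol 3)))))))))))))))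
  (.col 1 (.col 2 (.col 8 (.col 12 (.br 4 (.col 0 (.col 3 (.col 4 (.col 6 (.col 7 (.col 10 (.col 11 (.col 13 (.col 14 (.sol 4))))))))))
  (.col 3 (.col 4 (.br 12 (.bad 4 2 [7, 2, 3, 6, 5, 0])
  (.br 13 (.bad 4 64 [7, 0, 4, 2, 3, 1])
  (.br 17 (.bad 4 2 [7, 0, 4, 2, 3, 6])
  (.br 19 (.col 14 (.bad 5 2 [3, 7, 2, 0, 4, 5, 6]))
  (.bad 0 17 [7, 1, 2, 3, 5, 6]))))))))))))))
  (.col 5 (.br 4 (.col 3 (.col 4 (.col 13 (.br 11 (.col 8 (.col 17 (.col 19 (.col 20 (.col 0 (.col 2 (.col 6 (.col 7 (.col 10 (.bad 11 0 [7, 0, 6, 5, 2, 4, 1, 3]))))))))))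
  (.col 19 (.br 16 (.col 1 (.col 2 (.col 7 (.col 10 (.col 11 (.col 12 (.bad 11 0 [7, 6, 0, 4, 2, 5, 1, 3])))))))
  (.col 10 (.br 9 (.col 0 (.col 1 (.col 2 (.col 7 (.col 11 (.col 12 (.sol 2)))))))
  (.col 0 (.col 2 (.col 11 (.br 22 (.br 21 (.bad 5 4 [7, 0, 4, 5, 1, 6, 3])
  (.bad 0 17 [7, 1, 2, 3, 5, 6]))
  (.bad 0 96 [7, 0, 1, 2, 3, 4])))))))))))))
  (.col 4 (.br 8 (.bad 4 8 [7, 1, 2, 6, 5, 4])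
  (.br 7 (.bad 4 8 [7, 0, 4, 1, 2, 5])
  (.br 6 (.bad 5 8 [1, 7, 2, 4, 0, 6, 5])
  (.bad 2 8 [2, 4, 5, 7, 0, 6]))))))))
  (.br 1 (.col 5 (.br 5 (.col 4 (.col 9 (.bad 4 8 [7, 0, 2, 1, 4, 5])))
  (.br 8 (.col 13 (.col 18 (.col 3 (.bad 5 8 [5, 7, 6, 4, 0, 2, 1]))))
  (.br 11 (.col 8 (.col 17 (.col 19 (.col 1 (.br 14 (.bad 4 16 [7, 1, 5, 6, 2, 3])
  (.br 6 (.bad 4 64 [7, 0, 3, 2, 4, 1])
  (.col 3 (.br 18 (.bad 4 1 [7, 2, 3, 6, 5, 1])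
  (.br 12 (.col 11 (.br 17 (.bad 4 2 [7, 0, 4, 5, 6, 3])
  (.bad 2 2 [0, 3, 5, 7, 2, 4])))
  (.bad 0 96 [7, 0, 1, 2, 3, 4]))))))))))
  (.br 15 (.col 2 (.col 7 (.col 1 (.br 20 (.bad 4 16 [7, 1, 2, 6, 5, 3])
  (.br 4 (.bad 4 2 [7, 0, 3, 2, 4, 6])
  (.col 3 (.br 18 (.bad 4 1 [7, 2, 3, 6, 5, 1])
  (.br 12 (.bad 5 2 [6, 7, 5, 0, 4, 2, 3])
  (.br 13 (.col 6 (.bad 2 32 [0, 1, 3, 7, 4, 6]))
  (.bad 2 64 [1, 3, 4, 7, 0, 5]))))))))))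
  (.br 12 (.col 16 (.col 20 (.col 1 (.br 10 (.col 11 (.col 0 (.col 3 (.col 6 (.bad 2 64 [7, 0, 3, 2, 4, 5])))))
  (.bad 2 4 [0, 1, 6, 7, 4, 5])))))
  (.br 10 (.col 2 (.col 11 (.col 12 (.col 3 (.br 18 (.bad 4 1 [7, 2, 3, 6, 5, 1])
  (.bad 2 64 [0, 1, 2, 7, 3, 5]))))))
  (.br 9 (.col 1 (.col 12 (.br 14 (.col 11 (.col 14 (.col 10 (.bad 0 96 [7, 0, 1, 2, 3, 4]))))
  (.br 4 (.col 0 (.col 3 (.col 6 (.col 10 (.col 14 (.sol 1))))))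
  (.col 0 (.col 3 (.col 6 (.col 10 (.br 20 (.sol 9)
  (.bad 0 96 [7, 0, 1, 2, 3, 4]))))))))))
  (.col 1 (.br 22 (.col 20 (.br 17 (.col 0 (.col 3 (.col 6 (.bad 2 16 [2, 3, 5, 7, 0, 6]))))
  (.br 19 (.col 10 (.col 14 (.bad 2 2 [3, 4, 6, 7, 2, 5])))
  (.br 4 (.col 3 (.col 6 (.col 11 (.sol 8))))
  (.col 3 (.br 13 (.br 14 (.sol 10)
  (.bad 2 2 [3, 4, 6, 7, 2, 5]))
  (.bad 0 17 [7, 1, 2, 3, 5, 6])))))))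
  (.bad 2 4 [0, 1, 6, 7, 4, 5])))))))))))
  (.br 9 (.col 1 (.col 2 (.br 14 (.col 7 (.col 11 (.bad 4 2 [7, 0, 6, 5, 4, 3])))
  (.br 6 (.col 3 (.col 15 (.col 0 (.col 6 (.br 2 (.col 5 (.col 17 (.col 18 (.col 19 (.col 20 (.sol 7))))))
  (.col 17 (.col 18 (.col 19 (.col 20 (.br 3 (.bad 4 8 [7, 0, 6, 5, 4, 1])
  (.bad 2 32 [2, 3, 4, 7, 1, 6])))))))))))
  (.col 15 (.br 20 (.col 14 (.col 19 (.col 20 (.col 17 (.br 4 (.bad 6 0 [2, 7, 5, 4, 1, 6, 3])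
  (.bad 2 32 [0, 1, 3, 7, 2, 6]))))))
  (.br 2 (.col 5 (.col 17 (.col 18 (.col 20 (.br 4 (.bad 4 8 [7, 1, 5, 6, 2, 4])
  (.col 0 (.br 19 (.col 6 (.sol 12))
  (.bad 2 32 [0, 1, 3, 7, 4, 6]))))))))
  (.col 17 (.br 19 (.col 6 (.col 10 (.col 14 (.br 5 (.bad 6 0 [2, 7, 4, 3, 0, 1, 5])
  (.bad 2 8 [1, 4, 6, 7, 0, 2])))))
  (.br 4 (.col 0 (.col 3 (.col 4 (.col 11 (.br 8 (.col 13 (.sol 14))
  (.bad 0 96 [7, 0, 1, 2, 3, 4]))))))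
  (.col 0 (.br 7 (.br 3 (.col 9 (.col 13 (.col 16 (.sol 15))))
  (.col 9 (.col 16 (.br 8 (.bad 4 8 [7, 0, 4, 5, 6, 1])
  (.bad 0 96 [7, 0, 1, 2, 3, 4])))))
  (.bad 0 17 [7, 1, 2, 3, 5, 6])))))))))))))
  (.br 4 (.col 0 (.col 3 (.col 4 (.br 15 (.bad 4 2 [7, 0, 3, 2, 4, 6])
  (.br 2 (.col 5 (.col 13 (.bad 4 8 [7, 1, 5, 6, 2, 4])))
  (.br 13 (.col 6 (.col 19 (.br 3 (.bad 6 0 [2, 7, 0, 1, 4, 3, 6])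
  (.bad 2 4 [0, 1, 6, 7, 3, 4]))))
  (.br 16 (.col 1 (.col 10 (.br 3 (.col 8 (.col 12 (.col 13 (.col 14 (.col 20 (.sol 6))))))
  (.col 12 (.col 13 (.col 14 (.col 20 (.br 11 (.sol 19)
  (.bad 2 64 [1, 3, 4, 7, 2, 5])))))))))
  (.col 10 (.br 21 (.col 8 (.col 13 (.br 10 (.col 11 (.col 12 (.col 14 (.sol 18))))
  (.col 11 (.br 20 (.col 20 (.bad 2 64 [0, 1, 2, 7, 3, 5]))
  (.bad 2 64 [1, 3, 4, 7, 0, 5]))))))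
  (.bad 0 17 [7, 1, 2, 3, 5, 6]))))))))))
  (.br 12 (.col 11 (.col 16 (.br 17 (.bad 4 2 [7, 0, 4, 5, 6, 3])
  (.br 15 (.bad 5 2 [6, 7, 5, 0, 4, 2, 3])
  (.bad 2 2 [0, 3, 5, 7, 2, 4])))))
  (.br 18 (.col 10 (.col 15 (.col 20 (.br 5 (.col 18 (.br 10 (.bad 4 2 [7, 2, 5, 6, 3, 0])
  (.br 3 (.bad 6 0 [2, 7, 6, 0, 3, 5, 1])
  (.bad 2 4 [0, 1, 6, 7, 3, 5]))))
  (.br 7 (.col 9 (.br 2 (.bad 5 8 [4, 7, 0, 1, 2, 6, 5])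
  (.bad 2 8 [0, 1, 5, 7, 2, 6])))
  (.br 21 (.col 6 (.br 10 (.col 2 (.col 8 (.col 11 (.bad 2 16 [1, 3, 6, 7, 0, 5]))))
  (.br 2 (.col 5 (.col 8 (.br 14 (.sol 13)
  (.bad 2 32 [2, 3, 4, 7, 1, 6]))))
  (.br 11 (.col 8 (.col 14 (.sol 17)))
  (.bad 2 64 [1, 3, 4, 7, 2, 5])))))
  (.bad 2 1 [7, 5, 6, 2, 3, 4])))))))
  (.br 10 (.col 2 (.col 11 (.br 5 (.bad 4 2 [7, 2, 5, 6, 3, 0])
  (.br 17 (.bad 5 2 [0, 7, 4, 3, 2, 5, 6])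
  (.br 2 (.col 5 (.col 12 (.col 18 (.br 20 (.col 14 (.col 19 (.br 7 (.col 6 (.bad 2 1 [1, 2, 6, 7, 4, 5]))
  (.bad 2 1 [1, 3, 5, 7, 4, 6]))))
  (.bad 0 96 [7, 0, 1, 2, 3, 4])))))
  (.br 7 (.col 3 (.col 6 (.col 9 (.col 12 (.br 8 (.bad 4 8 [7, 0, 4, 5, 6, 1])
  (.br 20 (.col 19 (.bad 2 4 [3, 4, 5, 7, 0, 6]))
  (.bad 0 96 [7, 0, 1, 2, 3, 4])))))))
  (.br 8 (.col 13 (.col 18 (.bad 2 8 [1, 4, 6, 7, 0, 2])))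
  (.br 11 (.col 8 (.col 12 (.col 19 (.bad 0 96 [7, 0, 1, 2, 3, 4]))))
  (.br 19 (.col 10 (.col 12 (.col 14 (.bad 0 96 [7, 0, 1, 2, 3, 4]))))
  (.br 3 (.col 8 (.col 12 (.col 14 (.br 13 (.col 15 (.sol 16))
  (.bad 0 17 [7, 1, 2, 3, 5, 6])))))
  (.col 12 (.br 20 (.col 19 (.br 21 (.br 6 (.sol 22)
  (.bad 2 8 [1, 4, 6, 7, 0, 2]))
  (.bad 0 17 [7, 1, 2, 3, 5, 6])))
  (.bad 0 96 [7, 0, 1, 2, 3, 4])))))))))))))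
  (.br 16 (.col 1 (.col 10 (.col 12 (.br 14 (.bad 4 32 [7, 0, 2, 1, 4, 3])
  (.br 6 (.bad 4 1 [7, 2, 5, 6, 3, 1])
  (.br 20 (.col 20 (.br 2 (.col 17 (.col 18 (.br 15 (.bad 4 16 [7, 1, 2, 6, 5, 3])
  (.bad 2 2 [3, 4, 6, 7, 2, 5]))))
  (.br 5 (.col 7 (.col 9 (.col 19 (.sol 20))))
  (.bad 2 8 [0, 1, 5, 7, 2, 6]))))
  (.bad 2 32 [7, 0, 2, 1, 4, 6])))))))
  (.br 11 (.col 17 (.br 3 (.col 8 (.col 13 (.br 20 (.col 14 (.col 19 (.col 6 (.col 15 (.sol 5)))))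
  (.bad 0 96 [7, 0, 1, 2, 3, 4]))))
  (.bad 2 4 [0, 1, 6, 7, 3, 5])))
  (.br 3 (.col 5 (.col 12 (.col 13 (.br 20 (.col 14 (.col 19 (.col 6 (.br 6 (.bad 4 8 [7, 0, 6, 5, 4, 1])
  (.bad 2 64 [0, 1, 2, 7, 3, 5])))))
  (.bad 0 96 [7, 0, 1, 2, 3, 4])))))
  (.br 7 (.col 3 (.col 9 (.br 8 (.bad 4 8 [7, 0, 4, 5, 6, 1])
  (.br 22 (.col 17 (.bad 2 8 [0, 1, 5, 7, 2, 6]))
  (.bad 2 32 [0, 1, 3, 7, 2, 6])))))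
  (.br 13 (.col 15 (.col 19 (.br 2 (.bad 4 64 [7, 0, 4, 2, 3, 1])
  (.bad 2 8 [1, 4, 6, 7, 0, 2]))))
  (.br 20 (.col 20 (.bad 2 32 [0, 1, 3, 7, 2, 6]))
  (.br 2 (.col 17 (.br 8 (.col 18 (.br 14 (.col 14 (.bad 2 32 [7, 1, 4, 0, 2, 6]))
  (.col 7 (.br 21 (.col 6 (.sol 11))
  (.bad 2 4 [0, 1, 6, 7, 4, 5])))))
  (.bad 0 96 [7, 0, 1, 2, 3, 4])))
  (.br 22 (.col 20 (.br 15 (.col 8 (.br 5 (.col 7 (.col 14 (.col 18 (.sol 21))))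
  (.col 7 (.br 19 (.br 6 (.sol 23)
  (.bad 2 8 [1, 4, 6, 7, 0, 2]))
  (.bad 0 17 [7, 1, 2, 3, 5, 6])))))
  (.br 21 (.col 6 (.br 6 (.col 18 (.br 14 (.bad 3 0 [7, 0, 6, 2, 1, 5, 4, 3])
  (.bad 2 2 [3, 4, 6, 7, 2, 5])))
  (.bad 2 1 [1, 3, 5, 7, 4, 6])))
  (.bad 2 4 [0, 1, 6, 7, 3, 4]))))
  (.bad 2 4 [0, 1, 6, 7, 3, 5])))))))))))))))

def B_n7_4 : Dat where
  r := 4
  V := [[.i, .o, .o, .o],
    [.o, .i, .o, .o],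
    [.o, .o, .i, .o],
    [.o, .o, .o, .i],
    [.i, .w, .i, .v],
    [.i, .w, .o, .i],
    [.i, .i, .i, .o]]
  P := [[.o, .o, .o, .o],
    [.i, .o, .o, .o],
    [.o, .i, .o, .o],
    [.o, .o, .i, .o],
    [.o, .o, .o, .i],
    [.i, .w, .i, .v],
    [.i, .w, .o, .i],
    [.i, .i, .i, .o],
    [.i, .o, .o, .w],
    [.i, .o, .w, .o],
    [.i, .o, .w, .w],
    [.i, .i, .i, .w],
    [.i, .i, .w, .o],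
    [.i, .i, .w, .w],
    [.i, .w, .o, .o],
    [.i, .w, .i, .o],
    [.i, .w, .v, .i],
    [.i, .w, .v, .v],
    [.i, .v, .o, .i],
    [.i, .v, .o, .w],
    [.i, .v, .i, .w],
    [.i, .v, .i, .v],
    [.i, .v, .v, .i],
    [.i, .v, .v, .v]]
  F := [[.i, .o, .o, .o],
    [.o, .i, .o, .o],
    [.i, .i, .o, .o],
    [.i, .v, .o, .o],
    [.o, .o, .i, .o],
    [.i, .o, .i, .o],
    [.o, .i, .i, .o],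
    [.o, .i, .w, .o],
    [.i, .v, .w, .o],
    [.o, .o, .o, .i],
    [.i, .o, .o, .i],
    [.i, .i, .o, .i],
    [.i, .o, .i, .i],
    [.o, .i, .i, .i],
    [.i, .o, .w, .i],
    [.i, .o, .o, .w],
    [.o, .i, .o, .w],
    [.o, .o, .i, .w],
    [.o, .i, .i, .w],
    [.o, .i, .v, .w],
    [.i, .w, .v, .w],
    [.o, .i, .o, .v],
    [.i, .i, .o, .v]]
  ht := 0x640015007000310061001300250016003200510062005400260047006800190049005a002b003c004c000d000e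
  ct := 0x14000000000000080000016003090000000000000005000000b001468000000020014300002448012000000000000000000300000030038980000000300102000028800080000000000030014380003ca8022000000000080080000012000000000000
  cl := [(7, 2, 0x20210),
    (7, 1, 0x210202),
    (7, 0, 0x8601),
    (11, 1, 0xd2),
    (11, 0, 0x31),
    (13, 0, 0xf),
    (19, 1, 0x2a2080),
    (19, 0, 0x2c020),
    (21, 0, 0x208808),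
    (25, 0, 0xa8),
    (35, 1, 0xd0010),
    (35, 0, 0x5410),
    (37, 0, 0x410408),
    (41, 0, 0x118),
    (49, 0, 0x184008),
    (67, 1, 0x42240),
    (67, 0, 0x1220),
    (69, 0, 0x400a04),
    (73, 0, 0x164),
    (81, 0, 0x102820),
    (97, 0, 0x541100)]
  sl := [0x7fffff, 0x2f22d2, 0x2d631, 0x618e0f, 0x1ff, 0x3ae8a8, 0x5d5518, 0x543b64, 0x4000d2, 0x310202, 0x406002, 0x200164, 0x480a04, 0x244004, 0x20318, 0x12a8, 0x412408, 0x248808, 0x205410, 0xd0810, 0x112820, 0x42c020, 0x300440, 0x488040]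
  t := B_n7_4_t

theorem B_n7_4_okD : B_n7_4.ckD = true := by decide +kernel

theorem B_n7_4_okT : B_n7_4.ckT TTab B_n7_4.t 0 0 = true := by decide +kernel

theorem lext_n7_4 : LExt 4 7 (vecL 4 B_n7_4.V) (vecP 4 B_n7_4.P) :=
  lext_of_chk' B_n7_4 B_n7_4_okD B_n7_4_okT (by decide)

end QG
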