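import Pool.Agent.Lib.QG.BC8

/-! MP_2e6874_co, part (B): data for n7_5. -/

set_option autoImplicit false
set_option maxRecDepth 100000

namespace QG

def B_n7_5_t : Tr :=
  .br 0 (.br 1 (.col 5 (.br 4 (.col 3 (.col 4 (.col 9 (.col 13 (.br 11 (.col 0 (.col 1 (.col 2 (.col 6 (.col 7 (.col 8 (.col 10 (.col 11 (.col 12 (.col 14 (.sol 0)))))))))))
  (.col 0 (.col 1 (.col 2 (.col 6 (.col 7 (.col 8 (.col 10 (.col 11 (.col 12 (.col 14 (.sol 4))))))))))))))))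
  (.col 3 (.col 4 (.col 9 (.col 13 (.br 16 (.col 0 (.col 2 (.col 6 (.col 8 (.bad 4 64 [7, 0, 4, 2, 3, 1])))))
  (.col 6 (.br 17 (.col 11 (.col 12 (.col 20 (.bad 0 33 [7, 1, 2, 3, 4, 6]))))
  (.br 11 (.col 0 (.col 1 (.col 2 (.col 7 (.col 8 (.col 10 (.col 12 (.col 14 (.sol 3)))))))))
  (.col 1 (.col 2 (.col 8 (.col 12 (.br 20 (.col 10 (.col 20 (.br 24 (.sol 9)
  (.bad 0 34 [7, 0, 2, 3, 4, 6]))))
  (.br 23 (.col 11 (.br 21 (.sol 8)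
  (.bad 0 96 [7, 0, 1, 2, 3, 4])))
  (.bad 0 33 [7, 1, 2, 3, 4, 6])))))))))))))))))
  (.col 5 (.br 6 (.col 3 (.col 4 (.bad 4 8 [7, 0, 6, 2, 1, 4])))
  (.br 7 (.col 9 (.col 13 (.col 4 (.bad 2 8 [7, 1, 2, 0, 5, 6]))))
  (.br 13 (.col 1 (.col 2 (.col 12 (.br 14 (.bad 4 4 [7, 1, 3, 6, 4, 0])
  (.bad 2 4 [7, 1, 3, 4, 5, 6])))))
  (.br 14 (.col 8 (.col 17 (.col 2 (.bad 0 36 [7, 0, 1, 3, 4, 6]))))
  (.br 18 (.col 6 (.col 15 (.col 19 (.col 2 (.col 4 (.bad 6 0 [7, 0, 2, 1, 4, 6, 3]))))))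
  (.br 23 (.col 10 (.br 11 (.col 0 (.col 2 (.col 4 (.col 7 (.col 8 (.col 11 (.col 12 (.col 13 (.col 14 (.sol 2))))))))))
  (.bad 2 1 [2, 3, 4, 7, 5, 6])))
  (.br 16 (.col 0 (.col 2 (.col 4 (.bad 4 2 [7, 0, 4, 2, 3, 6]))))
  (.br 17 (.col 11 (.col 2 (.col 4 (.bad 2 2 [7, 2, 3, 0, 4, 5]))))
  (.br 24 (.col 7 (.col 14 (.bad 2 16 [0, 2, 3, 7, 5, 6])))
  (.br 4 (.col 0 (.col 2 (.col 3 (.col 4 (.col 13 (.col 19 (.br 15 (.col 12 (.col 14 (.br 20 (.sol 11)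
  (.bad 0 33 [7, 1, 2, 3, 4, 6]))))
  (.br 25 (.col 10 (.br 22 (.sol 10)
  (.bad 0 96 [7, 0, 1, 2, 3, 4])))
  (.bad 0 48 [7, 0, 1, 2, 3, 6])))))))))
  (.col 4 (.br 19 (.col 2 (.col 8 (.col 12 (.col 15 (.br 8 (.col 10 (.col 13 (.br 21 (.sol 13)
  (.bad 0 96 [7, 0, 1, 2, 3, 4]))))
  (.br 25 (.col 14 (.br 9 (.sol 12)
  (.bad 0 40 [7, 0, 1, 2, 4, 6])))
  (.bad 0 33 [7, 1, 2, 3, 4, 6])))))))
  (.bad 0 34 [7, 0, 2, 3, 4, 6])))))))))))))))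
  (.br 1 (.col 5 (.br 4 (.col 3 (.col 4 (.col 9 (.col 13 (.br 12 (.col 2 (.col 7 (.bad 4 2 [7, 0, 3, 2, 4, 6])))
  (.col 8 (.br 17 (.col 11 (.col 16 (.col 20 (.col 0 (.col 6 (.bad 0 48 [7, 0, 1, 2, 3, 6]))))))
  (.br 11 (.col 0 (.col 1 (.col 2 (.col 6 (.col 7 (.col 10 (.col 12 (.col 14 (.sol 1)))))))))
  (.col 0 (.col 1 (.col 6 (.col 10 (.br 19 (.col 11 (.col 12 (.br 21 (.sol 15)
  (.bad 0 96 [7, 0, 1, 2, 3, 4]))))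
  (.br 24 (.col 14 (.br 22 (.sol 14)
  (.bad 0 96 [7, 0, 1, 2, 3, 4])))
  (.bad 0 34 [7, 0, 2, 3, 4, 6])))))))))))))))
  (.col 3 (.br 11 (.col 0 (.col 1 (.col 2 (.col 6 (.col 8 (.col 10 (.col 12 (.br 9 (.col 13 (.col 18 (.col 20 (.br 24 (.bad 4 128 [0, 1, 6, 4, 3, 5])
  (.bad 0 34 [7, 0, 2, 3, 4, 6])))))
  (.br 5 (.col 4 (.col 7 (.col 9 (.col 14 (.col 16 (.sol 16))))))
  (.col 9 (.col 16 (.br 10 (.col 11 (.br 21 (.bad 4 128 [1, 2, 6, 3, 5, 4])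
  (.bad 0 96 [7, 0, 1, 2, 3, 4])))
  (.bad 0 40 [7, 0, 1, 2, 4, 6])))))))))))))
  (.col 1 (.br 12 (.col 2 (.col 8 (.col 12 (.br 17 (.col 11 (.col 14 (.col 20 (.bad 0 33 [7, 1, 2, 3, 4, 6]))))
  (.br 5 (.col 4 (.col 7 (.col 9 (.col 11 (.col 13 (.col 14 (.col 19 (.col 20 (.sol 5)))))))))
  (.col 7 (.col 9 (.col 14 (.col 19 (.br 9 (.col 13 (.col 20 (.br 23 (.sol 20)
  (.bad 0 34 [7, 0, 2, 3, 4, 6]))))
  (.br 10 (.col 11 (.br 20 (.sol 17)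
  (.bad 0 33 [7, 1, 2, 3, 4, 6])))
  (.bad 0 40 [7, 0, 1, 2, 4, 6]))))))))))))
  (.col 8 (.br 16 (.col 0 (.col 6 (.col 7 (.col 9 (.col 10 (.col 14 (.br 17 (.col 11 (.col 20 (.bad 0 40 [7, 0, 1, 2, 4, 6])))
  (.br 9 (.col 13 (.col 20 (.br 19 (.sol 22)
  (.bad 0 34 [7, 0, 2, 3, 4, 6]))))
  (.br 10 (.col 11 (.br 22 (.sol 18)
  (.bad 0 96 [7, 0, 1, 2, 3, 4])))
  (.bad 0 40 [7, 0, 1, 2, 4, 6]))))))))))
  (.col 6 (.br 5 (.col 4 (.col 7 (.col 9 (.col 13 (.col 14 (.col 16 (.br 19 (.col 11 (.col 12 (.br 20 (.bad 4 128 [0, 2, 3, 5, 6, 1])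
  (.bad 0 33 [7, 1, 2, 3, 4, 6]))))
  (.br 23 (.col 10 (.br 22 (.bad 4 128 [0, 1, 5, 3, 2, 6])
  (.bad 0 96 [7, 0, 1, 2, 3, 4])))
  (.bad 0 34 [7, 0, 2, 3, 4, 6])))))))))
  (.col 9 (.br 9 (.col 13 (.br 17 (.col 11 (.col 20 (.sol 21)))
  (.col 20 (.br 23 (.col 11 (.bad 0 48 [7, 0, 1, 2, 3, 6]))
  (.bad 0 33 [7, 1, 2, 3, 4, 6])))))
  (.br 10 (.br 17 (.col 11 (.col 12 (.col 14 (.col 20 (.sol 19)))))
  (.col 11 (.br 20 (.col 20 (.bad 0 48 [7, 0, 1, 2, 3, 6]))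
  (.bad 0 33 [7, 1, 2, 3, 4, 6]))))
  (.bad 0 40 [7, 0, 1, 2, 4, 6]))))))))))))))
  (.br 4 (.col 3 (.col 4 (.br 2 (.bad 4 8 [7, 0, 1, 2, 6, 4])
  (.br 7 (.col 13 (.bad 2 8 [7, 0, 1, 2, 5, 6]))
  (.br 11 (.col 0 (.col 1 (.col 2 (.col 6 (.col 7 (.col 10 (.col 11 (.col 17 (.br 3 (.col 12 (.col 13 (.br 21 (.sol 34)
  (.bad 0 96 [7, 0, 1, 2, 3, 4]))))
  (.br 9 (.col 20 (.br 15 (.sol 27)
  (.bad 0 48 [7, 0, 1, 2, 3, 6])))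
  (.bad 0 40 [7, 0, 1, 2, 4, 6])))))))))))
  (.col 0 (.br 12 (.bad 4 2 [7, 0, 3, 2, 4, 6])
  (.br 18 (.bad 4 1 [7, 1, 3, 6, 4, 2])
  (.br 14 (.bad 6 0 [7, 0, 2, 4, 1, 3, 6])
  (.bad 2 128 [0, 1, 3, 2, 4, 6]))))))))))
  (.br 11 (.col 0 (.col 1 (.col 2 (.br 2 (.col 5 (.col 17 (.col 8 (.br 7 (.col 9 (.col 13 (.col 14 (.col 16 (.bad 0 34 [7, 0, 2, 3, 4, 6])))))
  (.br 5 (.col 4 (.col 7 (.col 16 (.col 18 (.col 19 (.col 20 (.col 3 (.col 6 (.sol 7)))))))))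
  (.col 16 (.col 18 (.col 19 (.col 20 (.br 8 (.col 10 (.col 13 (.br 24 (.sol 26)
  (.bad 0 34 [7, 0, 2, 3, 4, 6]))))
  (.br 25 (.col 14 (.br 10 (.sol 25)
  (.bad 0 34 [7, 0, 2, 3, 4, 6])))
  (.bad 0 33 [7, 1, 2, 3, 4, 6]))))))))))))
  (.col 17 (.br 6 (.col 3 (.col 15 (.col 18 (.col 19 (.col 20 (.col 6 (.br 7 (.col 13 (.col 14 (.bad 0 34 [7, 0, 2, 3, 4, 6])))
  (.br 3 (.col 12 (.col 13 (.br 24 (.sol 39)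
  (.bad 0 34 [7, 0, 2, 3, 4, 6]))))
  (.br 10 (.col 11 (.br 15 (.sol 31)
  (.bad 0 48 [7, 0, 1, 2, 3, 6])))
  (.bad 0 40 [7, 0, 1, 2, 4, 6]))))))))))
  (.col 15 (.br 5 (.col 4 (.col 7 (.col 9 (.col 18 (.col 19 (.br 3 (.col 12 (.col 13 (.br 25 (.bad 4 128 [0, 2, 6, 5, 4, 3])
  (.bad 0 33 [7, 1, 2, 3, 4, 6]))))
  (.br 8 (.col 10 (.br 15 (.bad 4 128 [0, 2, 6, 5, 3, 4])
  (.bad 0 48 [7, 0, 1, 2, 3, 6])))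
  (.bad 0 40 [7, 0, 1, 2, 4, 6]))))))))
  (.col 16 (.br 3 (.col 12 (.br 7 (.col 13 (.col 14 (.sol 38)))
  (.col 13 (.br 24 (.col 14 (.bad 0 33 [7, 1, 2, 3, 4, 6]))
  (.bad 0 34 [7, 0, 2, 3, 4, 6])))))
  (.br 15 (.br 7 (.col 13 (.col 14 (.sol 32)))
  (.col 14 (.br 10 (.col 13 (.bad 0 33 [7, 1, 2, 3, 4, 6]))
  (.bad 0 34 [7, 0, 2, 3, 4, 6]))))
  (.bad 0 36 [7, 0, 1, 3, 4, 6]))))))))))))
  (.br 2 (.col 5 (.col 17 (.br 12 (.bad 4 4 [7, 1, 4, 6, 3, 0])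
  (.br 5 (.col 4 (.col 7 (.col 9 (.col 16 (.col 18 (.col 19 (.col 20 (.col 3 (.br 13 (.col 10 (.col 12 (.bad 0 34 [7, 0, 2, 3, 4, 6])))
  (.br 15 (.col 12 (.col 14 (.br 23 (.sol 23)
  (.bad 0 34 [7, 0, 2, 3, 4, 6]))))
  (.br 25 (.col 10 (.br 19 (.sol 24)
  (.bad 0 34 [7, 0, 2, 3, 4, 6])))
  (.bad 0 48 [7, 0, 1, 2, 3, 6]))))))))))))
  (.col 18 (.br 18 (.bad 4 64 [7, 0, 4, 2, 3, 1])
  (.br 16 (.bad 6 0 [7, 0, 2, 3, 1, 4, 6])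
  (.bad 2 128 [2, 3, 6, 0, 1, 4]))))))))
  (.br 6 (.col 15 (.col 18 (.br 16 (.bad 4 1 [7, 1, 4, 6, 3, 2])
  (.br 14 (.bad 4 64 [7, 0, 3, 2, 4, 1])
  (.br 12 (.bad 6 0 [7, 0, 2, 1, 3, 6, 4])
  (.bad 2 128 [0, 3, 6, 1, 2, 4]))))))
  (.br 5 (.col 4 (.col 9 (.col 16 (.col 18 (.br 12 (.col 2 (.col 7 (.col 8 (.col 11 (.col 14 (.col 19 (.br 13 (.col 10 (.col 12 (.bad 0 40 [7, 0, 1, 2, 4, 6])))
  (.br 3 (.col 12 (.col 13 (.br 20 (.sol 35)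
  (.bad 0 33 [7, 1, 2, 3, 4, 6]))))
  (.br 8 (.col 10 (.br 22 (.sol 28)
  (.bad 0 96 [7, 0, 1, 2, 3, 4])))
  (.bad 0 40 [7, 0, 1, 2, 4, 6]))))))))))
  (.col 7 (.br 14 (.col 8 (.col 17 (.col 19 (.col 20 (.col 6 (.br 13 (.col 10 (.col 12 (.bad 0 34 [7, 0, 2, 3, 4, 6])))
  (.br 3 (.col 12 (.col 13 (.br 23 (.sol 36)
  (.bad 0 34 [7, 0, 2, 3, 4, 6]))))
  (.br 8 (.col 10 (.br 19 (.sol 30)
  (.bad 0 34 [7, 0, 2, 3, 4, 6])))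
  (.bad 0 40 [7, 0, 1, 2, 4, 6])))))))))
  (.col 19 (.br 3 (.col 13 (.br 13 (.col 10 (.col 12 (.sol 37)))
  (.col 12 (.br 23 (.col 10 (.bad 0 96 [7, 0, 1, 2, 3, 4]))
  (.bad 0 34 [7, 0, 2, 3, 4, 6])))))
  (.br 8 (.br 13 (.col 10 (.col 11 (.col 12 (.sol 29))))
  (.col 10 (.br 19 (.col 12 (.bad 0 96 [7, 0, 1, 2, 3, 4]))
  (.bad 0 34 [7, 0, 2, 3, 4, 6]))))
  (.bad 0 40 [7, 0, 1, 2, 4, 6])))))))))))
  (.br 12 (.col 7 (.col 8 (.br 18 (.bad 4 16 [7, 0, 6, 2, 1, 3])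
  (.bad 2 128 [1, 2, 4, 0, 3, 6]))))
  (.br 14 (.col 19 (.br 16 (.bad 4 16 [7, 0, 1, 2, 6, 3])
  (.bad 2 128 [2, 4, 6, 0, 1, 3])))
  (.br 16 (.col 6 (.bad 2 128 [0, 1, 4, 2, 3, 6]))
  (.br 18 (.bad 2 128 [0, 4, 6, 1, 2, 3])
  (.br 3 (.br 7 (.col 13 (.br 13 (.col 10 (.col 11 (.col 12 (.col 14 (.sol 6)))))
  (.col 10 (.col 11 (.bad 2 2 [0, 2, 6, 7, 4, 5])))))
  (.col 13 (.bad 2 8 [1, 4, 6, 7, 0, 5])))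
  (.br 8 (.col 13 (.bad 2 8 [1, 4, 6, 7, 2, 5]))
  (.br 7 (.col 13 (.br 15 (.col 12 (.bad 2 4 [0, 1, 6, 7, 3, 5]))
  (.col 14 (.br 13 (.col 10 (.col 12 (.br 17 (.sol 33)
  (.bad 0 34 [7, 0, 2, 3, 4, 6]))))
  (.br 20 (.col 10 (.col 20 (.bad 2 2 [3, 4, 6, 7, 0, 5])))
  (.bad 2 1 [2, 3, 4, 7, 5, 6]))))))
  (.br 10 (.col 13 (.bad 2 8 [0, 2, 4, 7, 5, 6]))
  (.bad 2 8 [0, 2, 4, 7, 1, 5])))))))))))))))

def B_n7_5 : Dat where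
  r := 4
  V := [[.i, .o, .o, .o],
    [.o, .i, .o, .o],
    [.o, .o, .i, .o],
    [.o, .o, .o, .i],
    [.i, .o, .i, .i],
    [.i, .v, .w, .v],
    [.i, .i, .i, .o]]
  P := [[.o, .o, .o, .o],
    [.i, .o, .o, .o],
    [.o, .i, .o, .o],
    [.o, .o, .i, .o],
    [.o, .o, .o, .i],
    [.i, .o, .i, .i],
    [.i, .v, .w, .v],
    [.i, .i, .i, .o],
    [.o, .o, .i, .w],
    [.o, .o, .i, .v],
    [.o, .i, .o, .w],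
    [.o, .i, .o, .v],
    [.o, .i, .w, .o],
    [.o, .i, .v, .o],
    [.i, .o, .o, .w],
    [.i, .o, .o, .v],
    [.i, .o, .i, .o],
    [.i, .o, .w, .i],
    [.i, .o, .w, .w],
    [.i, .o, .w, .v],
    [.i, .o, .v, .i],
    [.i, .o, .v, .w],
    [.i, .o, .v, .v],
    [.i, .i, .i, .w],
    [.i, .i, .i, .v],
    [.i, .i, .w, .o],
    [.i, .i, .v, .o],
    [.i, .w, .o, .o],
    [.i, .w, .i, .i],
    [.i, .w, .i, .w],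
    [.i, .w, .i, .v],
    [.i, .w, .w, .o],
    [.i, .w, .v, .o],
    [.i, .w, .v, .w],
    [.i, .v, .o, .o],
    [.i, .v, .i, .i],
    [.i, .v, .i, .w],
    [.i, .v, .i, .v],
    [.i, .v, .w, .o],
    [.i, .v, .v, .o]]
  F := [[.i, .o, .o, .o],
    [.o, .i, .o, .o],
    [.i, .i, .o, .o],
    [.i, .w, .o, .o],
    [.o, .o, .i, .o],
    [.i, .o, .i, .o],
    [.o, .i, .i, .o],
    [.i, .i, .i, .o],
    [.o, .i, .w, .o],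
    [.i, .v, .w, .o],
    [.i, .o, .v, .o],
    [.o, .o, .o, .i],
    [.i, .o, .o, .i],
    [.o, .i, .o, .i],
    [.i, .i, .o, .i],
    [.i, .v, .o, .i],
    [.o, .o, .i, .i],
    [.i, .o, .i, .i],
    [.o, .i, .i, .i],
    [.i, .o, .o, .w],
    [.o, .i, .i, .w],
    [.i, .w, .v, .w],
    [.i, .i, .o, .v],
    [.o, .o, .i, .v],
    [.i, .o, .w, .v],
    [.o, .i, .v, .v]]
  ht := 0x3100320023006400700061002600510062001300340054002500160047002a0068002900380049005a000b002c004c001d000e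
  ct := 0x150000000000000900000160044a0000000000000005000000e001490000000020014300002c580160000000000000000007000000f0060c8000000030028400004c6802e0000000000010014080003008020000000000080080000016000000000000
  cl := [(7, 2, 0x810810),
    (7, 1, 0x2802),
    (7, 0, 0x81801),
    (11, 1, 0x152),
    (11, 0, 0x431),
    (13, 0, 0xf),
    (19, 1, 0x2050002),
    (19, 0, 0x1011020),
    (21, 0, 0xd002),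
    (25, 0, 0xa2),
    (35, 1, 0x2902100),
    (35, 0, 0x18a0400),
    (37, 0, 0x48a008),
    (41, 0, 0x788),
    (49, 0, 0x3208080),
    (67, 1, 0x140840),
    (67, 0, 0x20820),
    (69, 0, 0x404804),
    (73, 0, 0x264),
    (81, 0, 0x244020),
    (97, 0, 0x720200)]
  sl := [0x3ffffff, 0x2952952, 0x18b1c31, 0x48f80f, 0x7ff, 0x325d0a2, 0x3faa788, 0x764a64, 0xa0000f, 0x110000f, 0x2400431, 0x108431, 0x2081a01, 0x281901, 0x1400152, 0x280152, 0x228a2, 0x10d402, 0x2450402, 0x18a0402, 0x80d202, 0x720202, 0x20d0202, 0x808264, 0x2080264, 0x2404c04, 0x1404904, 0x818a10, 0x1411120, 0x2902120, 0x2c4120, 0x148c40, 0x3208880, 0x22080, 0xa10818, 0x1111028, 0xa44028, 0x48a028, 0xf88, 0x1140848]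
  t := B_n7_5_t

theorem B_n7_5_okD : B_n7_5.ckD = true := by decide +kernel

theorem B_n7_5_okT : B_n7_5.ckT TTab B_n7_5.t 0 0 = true := by decide +kernel

theorem lext_n7_5 : LExt 4 7 (vecL 4 B_n7_5.V) (vecP 4 B_n7_5.P) :=
  lext_of_chk' B_n7_5 B_n7_5_okD B_n7_5_okT (by decide)

end QG
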