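import Pool.Agent.Lib.QG.BC8

/-! MP_2e6874_co, part (B): data for s00_4. -/

set_option autoImplicit false
set_option maxRecDepth 100000

namespace QG

def B_s00_4_t : Tr :=
  .br 0 (.br 8 (.col 50 (.br 18 (.col 47 (.col 48 (.col 49 (.col 51 (.br 1 (.col 32 (.col 33 (.col 34 (.col 35 (.col 36 (.col 37 (.col 39 (.col 40 (.col 41 (.br 3 (.col 4 (.col 5 (.col 6 (.col 7 (.col 8 (.col 9 (.col 11 (.col 13 (.col 14 (.col 16 (.col 17 (.sol 11))))))))))))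
  (.col 4 (.col 5 (.col 6 (.col 7 (.col 8 (.col 9 (.col 11 (.col 13 (.col 14 (.col 16 (.col 17 (.sol 8))))))))))))))))))))))
  (.col 32 (.col 33 (.col 34 (.col 35 (.col 36 (.col 37 (.col 39 (.col 40 (.col 41 (.br 3 (.col 11 (.col 13 (.bad 4 80 [9, 1, 3, 7, 8, 2])))
  (.br 4 (.col 18 (.col 19 (.col 20 (.col 21 (.col 22 (.col 23 (.col 25 (.col 26 (.col 5 (.col 7 (.sol 7)))))))))))
  (.col 18 (.col 19 (.col 20 (.col 21 (.col 23 (.br 11 (.bad 4 20 [9, 5, 6, 8, 7, 0])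
  (.br 26 (.bad 4 36 [9, 3, 6, 8, 7, 0])
  (.bad 2 96 [1, 3, 4, 9, 2, 8]))))))))))))))))))))))))
  (.col 47 (.col 48 (.col 49 (.col 51 (.br 1 (.col 32 (.col 33 (.col 34 (.col 35 (.col 36 (.col 37 (.col 39 (.col 40 (.col 41 (.br 27 (.col 16 (.col 28 (.bad 4 72 [9, 2, 4, 7, 5, 1])))
  (.br 3 (.col 4 (.col 5 (.col 6 (.col 7 (.col 8 (.col 9 (.col 11 (.col 13 (.col 14 (.col 17 (.sol 4)))))))))))
  (.col 6 (.col 7 (.col 8 (.col 11 (.col 13 (.col 17 (.br 16 (.col 10 (.col 15 (.col 19 (.sol 12))))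
  (.col 10 (.col 19 (.br 23 (.sol 16)
  (.bad 2 96 [1, 2, 7, 9, 3, 8]))))))))))))))))))))))
  (.col 34 (.col 35 (.col 36 (.col 41 (.br 28 (.bad 4 288 [9, 1, 3, 7, 4, 2])
  (.col 33 (.br 31 (.bad 4 288 [9, 0, 1, 4, 7, 2])
  (.br 29 (.bad 4 264 [9, 1, 4, 6, 5, 0])
  (.br 22 (.bad 4 260 [9, 4, 7, 5, 6, 0])
  (.bad 0 352 [9, 1, 2, 3, 4, 7])))))))))))))))))
  (.col 50 (.br 12 (.col 26 (.col 29 (.bad 4 144 [9, 2, 3, 6, 5, 0])))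
  (.br 14 (.col 41 (.col 45 (.bad 4 272 [9, 1, 3, 6, 5, 0])))
  (.br 24 (.col 46 (.col 51 (.col 52 (.br 1 (.bad 4 288 [9, 0, 2, 6, 7, 1])
  (.col 36 (.br 28 (.bad 5 288 [1, 9, 3, 0, 7, 6, 2])
  (.col 33 (.br 7 (.col 35 (.bad 5 288 [1, 9, 4, 0, 7, 6, 2]))
  (.bad 2 320 [2, 3, 4, 9, 1, 5])))))))))
  (.br 18 (.col 47 (.col 48 (.col 49 (.br 1 (.col 32 (.col 33 (.col 34 (.col 35 (.col 36 (.col 37 (.col 39 (.col 40 (.br 3 (.col 4 (.col 5 (.col 6 (.col 7 (.col 8 (.col 9 (.col 11 (.col 13 (.col 14 (.col 16 (.sol 3)))))))))))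
  (.col 4 (.col 5 (.col 8 (.col 9 (.col 13 (.col 16 (.br 6 (.col 12 (.col 15 (.col 21 (.sol 13))))
  (.col 12 (.col 21 (.br 23 (.sol 15)
  (.bad 2 96 [1, 2, 7, 9, 4, 8]))))))))))))))))))))
  (.col 32 (.col 33 (.col 36 (.col 40 (.br 31 (.bad 4 288 [9, 0, 1, 3, 7, 2])
  (.br 22 (.bad 4 260 [9, 4, 7, 5, 6, 0])
  (.bad 0 352 [9, 1, 2, 3, 4, 7])))))))))))
  (.col 49 (.br 27 (.col 25 (.col 28 (.bad 4 136 [9, 2, 4, 6, 5, 0])))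
  (.br 29 (.col 40 (.col 44 (.bad 4 264 [9, 1, 4, 6, 5, 0])))
  (.br 1 (.col 32 (.col 33 (.col 34 (.col 35 (.col 36 (.br 3 (.col 4 (.col 5 (.col 6 (.col 7 (.col 8 (.col 9 (.col 11 (.col 13 (.br 20 (.col 27 (.col 42 (.col 43 (.col 47 (.col 48 (.sol 10))))))
  (.col 43 (.col 48 (.br 31 (.col 14 (.col 23 (.sol 9)))
  (.bad 0 352 [9, 1, 2, 3, 4, 7])))))))))))))
  (.col 8 (.col 13 (.br 20 (.col 42 (.col 43 (.col 47 (.col 48 (.br 23 (.col 15 (.col 24 (.col 27 (.sol 2))))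
  (.bad 2 96 [1, 3, 4, 9, 7, 8]))))))
  (.col 43 (.col 48 (.br 31 (.col 14 (.col 37 (.br 6 (.col 27 (.bad 2 192 [9, 2, 4, 3, 5, 8]))
  (.col 12 (.col 21 (.br 25 (.bad 2 160 [9, 2, 3, 4, 6, 8])
  (.col 5 (.col 10 (.sol 14)))))))))
  (.bad 0 352 [9, 1, 2, 3, 4, 7])))))))))))))
  (.col 36 (.br 3 (.col 8 (.col 13 (.col 16 (.col 17 (.br 20 (.col 43 (.col 47 (.col 48 (.br 31 (.col 14 (.col 24 (.col 27 (.col 38 (.col 42 (.sol 1))))))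
  (.bad 0 352 [9, 1, 2, 3, 4, 7])))))
  (.col 48 (.br 32 (.col 23 (.col 37 (.bad 4 33 [9, 4, 6, 8, 7, 2])))
  (.bad 0 416 [9, 0, 2, 3, 4, 6]))))))))
  (.br 4 (.col 20 (.col 21 (.br 11 (.bad 4 20 [9, 5, 6, 8, 7, 0])
  (.br 7 (.bad 4 17 [9, 5, 7, 8, 6, 2])
  (.col 35 (.bad 2 48 [1, 2, 7, 9, 6, 8]))))))
  (.bad 1 32 [9, 3, 4, 6, 7, 8]))))))))))))))
  (.br 8 (.col 50 (.br 1 (.col 34 (.col 35 (.col 36 (.col 41 (.br 3 (.col 6 (.col 7 (.col 8 (.col 11 (.col 13 (.col 17 (.br 19 (.col 44 (.col 49 (.bad 4 264 [9, 0, 4, 6, 7, 1])))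
  (.br 21 (.col 24 (.col 25 (.col 27 (.col 39 (.col 46 (.bad 2 192 [9, 2, 4, 3, 5, 8]))))))
  (.col 39 (.br 24 (.col 46 (.col 51 (.bad 4 288 [9, 0, 2, 6, 7, 1])))
  (.br 16 (.col 9 (.col 10 (.col 16 (.col 18 (.col 19 (.col 25 (.col 27 (.col 33 (.col 42 (.col 47 (.sol 0)))))))))))
  (.col 9 (.col 18 (.col 27 (.col 42 (.col 47 (.br 29 (.col 16 (.col 25 (.col 40 (.sol 17))))
  (.bad 0 352 [9, 1, 2, 3, 4, 7]))))))))))))))))))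
  (.col 8 (.col 11 (.br 10 (.bad 4 18 [9, 5, 7, 6, 8, 3])
  (.col 7 (.br 12 (.bad 4 48 [9, 2, 3, 7, 6, 1])
  (.br 5 (.bad 4 24 [9, 5, 8, 6, 7, 1])
  (.bad 2 80 [2, 3, 8, 9, 5, 7]))))))))))))
  (.col 34 (.br 2 (.bad 4 272 [9, 0, 7, 6, 3, 1])
  (.br 13 (.bad 4 272 [9, 0, 7, 5, 1, 3])
  (.br 14 (.bad 5 272 [0, 9, 7, 1, 5, 6, 3])
  (.bad 2 272 [1, 3, 7, 9, 5, 6])))))))
  (.br 18 (.col 47 (.col 49 (.br 9 (.bad 4 384 [9, 0, 3, 6, 4, 2])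
  (.br 1 (.col 32 (.col 33 (.col 34 (.col 36 (.col 37 (.col 40 (.br 3 (.col 4 (.col 5 (.col 8 (.col 9 (.col 11 (.col 13 (.col 14 (.col 16 (.br 10 (.col 6 (.col 7 (.col 15 (.col 17 (.col 24 (.col 26 (.col 30 (.sol 18))))))))
  (.col 7 (.col 17 (.col 26 (.br 24 (.col 46 (.col 51 (.bad 4 288 [9, 0, 2, 6, 7, 1])))
  (.bad 2 384 [9, 0, 3, 4, 5, 6]))))))))))))))
  (.col 8 (.col 9 (.br 5 (.bad 4 24 [9, 5, 8, 6, 7, 1])
  (.br 26 (.bad 4 72 [9, 1, 8, 5, 2, 4])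
  (.col 5 (.br 27 (.bad 4 40 [9, 2, 4, 7, 6, 1])
  (.bad 2 136 [2, 4, 8, 9, 5, 6]))))))))))))))
  (.col 32 (.br 28 (.bad 4 264 [9, 0, 7, 5, 1, 4])
  (.br 31 (.bad 4 257 [9, 3, 7, 5, 6, 2])
  (.br 2 (.bad 4 264 [9, 0, 7, 6, 4, 1])
  (.br 7 (.bad 4 257 [9, 3, 7, 4, 6, 2])
  (.br 29 (.col 46 (.br 13 (.bad 4 288 [9, 1, 4, 6, 3, 0])
  (.br 21 (.bad 4 288 [9, 1, 2, 6, 3, 0])
  (.bad 2 258 [3, 4, 7, 9, 5, 6]))))
  (.bad 2 264 [1, 4, 7, 9, 5, 6])))))))))))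
  (.br 1 (.col 32 (.col 34 (.col 36 (.br 9 (.bad 4 272 [9, 0, 3, 6, 7, 1])
  (.br 19 (.bad 4 264 [9, 0, 4, 6, 7, 1])
  (.br 5 (.col 13 (.col 22 (.bad 4 24 [9, 5, 8, 6, 7, 1])))
  (.br 6 (.col 11 (.col 20 (.col 21 (.col 29 (.br 15 (.bad 4 144 [9, 0, 2, 5, 8, 3])
  (.col 41 (.br 16 (.col 19 (.col 27 (.col 30 (.col 42 (.col 43 (.br 29 (.col 40 (.bad 4 10 [9, 5, 8, 6, 7, 4]))
  (.bad 0 352 [9, 1, 2, 3, 4, 7])))))))
  (.col 27 (.br 21 (.col 24 (.col 38 (.col 39 (.col 40 (.col 46 (.col 5 (.br 27 (.bad 4 40 [9, 2, 4, 7, 6, 1])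
  (.bad 2 96 [1, 3, 4, 9, 7, 8]))))))))
  (.col 39 (.br 24 (.col 46 (.col 51 (.bad 4 288 [9, 0, 2, 6, 7, 1])))
  (.br 29 (.col 46 (.bad 2 320 [1, 2, 7, 9, 4, 5]))
  (.bad 2 320 [2, 3, 4, 9, 5, 7])))))))))))))
  (.br 16 (.col 9 (.col 18 (.col 19 (.col 27 (.br 28 (.bad 4 10 [9, 5, 8, 6, 7, 4])
  (.col 40 (.br 10 (.col 7 (.col 15 (.col 17 (.col 24 (.col 26 (.br 24 (.col 46 (.col 51 (.bad 4 288 [9, 0, 2, 6, 7, 1])))
  (.bad 2 320 [2, 3, 4, 9, 5, 7])))))))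
  (.col 7 (.br 12 (.bad 4 48 [9, 2, 3, 7, 6, 1])
  (.br 15 (.col 41 (.col 46 (.bad 2 320 [1, 2, 7, 9, 3, 5])))
  (.bad 2 144 [0, 3, 5, 9, 6, 8])))))))))))
  (.br 20 (.col 27 (.col 42 (.col 43 (.col 47 (.col 48 (.col 52 (.br 13 (.col 38 (.col 40 (.col 41 (.br 3 (.col 4 (.col 5 (.col 6 (.col 7 (.col 8 (.col 16 (.col 17 (.sol 20))))))))
  (.col 8 (.br 27 (.col 16 (.col 25 (.bad 4 40 [9, 2, 4, 7, 6, 1])))
  (.bad 2 72 [1, 4, 5, 9, 7, 8])))))))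
  (.col 41 (.br 29 (.col 40 (.br 3 (.col 4 (.col 5 (.col 6 (.col 7 (.col 8 (.col 16 (.col 17 (.sol 21))))))))
  (.col 8 (.br 12 (.col 17 (.col 26 (.bad 4 48 [9, 2, 3, 7, 6, 1])))
  (.bad 2 144 [0, 3, 5, 9, 6, 8])))))
  (.bad 0 352 [9, 1, 2, 3, 4, 7]))))))))))
  (.br 3 (.col 8 (.br 10 (.col 6 (.col 7 (.col 17 (.col 26 (.br 21 (.col 24 (.col 25 (.col 30 (.col 38 (.col 39 (.col 40 (.col 51 (.col 5 (.sol 5)))))))))
  (.col 24 (.col 30 (.col 38 (.col 39 (.col 40 (.bad 2 320 [1, 2, 7, 9, 3, 5])))))))))))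
  (.col 6 (.col 7 (.col 17 (.col 26 (.br 23 (.col 15 (.col 16 (.col 30 (.bad 2 320 [2, 3, 4, 9, 5, 7]))))
  (.col 14 (.col 23 (.br 21 (.col 24 (.col 25 (.col 38 (.col 39 (.col 40 (.col 46 (.col 5 (.sol 19))))))))
  (.col 39 (.br 24 (.bad 4 288 [9, 0, 2, 6, 7, 1])
  (.bad 2 320 [1, 2, 7, 9, 4, 5])))))))))))))
  (.bad 1 64 [9, 1, 3, 4, 7, 8])))))))))))
  (.br 13 (.col 35 (.col 41 (.br 2 (.bad 4 272 [9, 1, 5, 6, 3, 0])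
  (.br 9 (.bad 5 272 [1, 9, 5, 0, 7, 6, 3])
  (.bad 2 272 [0, 3, 5, 9, 6, 7])))))
  (.br 21 (.col 38 (.col 39 (.col 48 (.br 29 (.bad 4 288 [9, 1, 2, 6, 3, 0])
  (.br 14 (.bad 4 288 [9, 1, 2, 6, 4, 0])
  (.br 24 (.col 51 (.br 17 (.bad 4 257 [9, 3, 6, 5, 7, 2])
  (.br 7 (.bad 4 257 [9, 4, 6, 5, 7, 2])
  (.br 2 (.bad 4 260 [9, 4, 6, 5, 7, 0])
  (.bad 2 320 [2, 3, 4, 9, 1, 5])))))
  (.bad 0 352 [9, 1, 2, 3, 4, 7])))))))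
  (.br 15 (.col 41 (.col 51 (.br 28 (.bad 4 288 [9, 1, 3, 7, 4, 2])
  (.br 31 (.bad 4 288 [9, 0, 1, 4, 7, 2])
  (.br 29 (.col 46 (.bad 7 288 [3, 0, 4, 2, 9, 6, 1, 7]))
  (.bad 2 288 [0, 1, 6, 9, 3, 7]))))))
  (.br 4 (.col 8 (.col 26 (.br 11 (.bad 4 48 [9, 2, 6, 7, 3, 1])
  (.br 14 (.bad 5 48 [3, 9, 7, 1, 8, 6, 2])
  (.bad 2 48 [1, 2, 7, 9, 6, 8])))))
  (.br 10 (.col 21 (.col 26 (.br 5 (.bad 4 144 [9, 2, 5, 6, 3, 0])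
  (.br 9 (.bad 5 144 [2, 9, 5, 0, 8, 6, 3])
  (.bad 2 144 [0, 3, 5, 9, 6, 8])))))
  (.br 25 (.col 5 (.col 19 (.col 24 (.col 25 (.br 2 (.bad 4 12 [9, 5, 7, 8, 6, 0])
  (.br 22 (.bad 4 36 [9, 3, 7, 8, 6, 0])
  (.br 12 (.bad 4 160 [9, 2, 3, 6, 4, 0])
  (.br 11 (.bad 4 36 [9, 3, 7, 4, 6, 0])
  (.br 5 (.bad 4 136 [9, 2, 5, 6, 4, 0])
  (.br 19 (.col 44 (.br 3 (.bad 4 72 [9, 1, 4, 7, 8, 2])
  (.br 14 (.col 45 (.col 52 (.br 6 (.bad 4 80 [9, 1, 2, 5, 8, 3])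
  (.bad 2 68 [3, 4, 8, 9, 5, 7]))))
  (.bad 2 48 [1, 2, 7, 9, 6, 8]))))
  (.bad 2 136 [0, 4, 5, 9, 6, 8])))))))))))
  (.br 28 (.col 4 (.col 33 (.col 40 (.br 26 (.bad 4 40 [9, 1, 8, 6, 2, 4])
  (.br 16 (.bad 4 10 [9, 5, 8, 6, 7, 4])
  (.br 2 (.bad 4 264 [9, 1, 5, 6, 4, 0])
  (.br 19 (.col 28 (.bad 2 40 [2, 4, 8, 9, 6, 7]))
  (.bad 2 264 [0, 4, 5, 9, 6, 7]))))))))
  (.br 3 (.br 30 (.bad 4 40 [9, 1, 4, 7, 8, 2])
  (.br 20 (.col 47 (.br 24 (.col 52 (.br 23 (.col 14 (.col 27 (.col 28 (.col 29 (.col 42 (.col 44 (.col 45 (.col 46 (.col 10 (.col 12 (.sol 6)))))))))))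
  (.bad 2 160 [0, 3, 4, 9, 2, 8])))
  (.bad 0 416 [9, 0, 2, 3, 4, 6])))
  (.br 32 (.col 23 (.col 37 (.bad 4 33 [9, 4, 6, 8, 7, 2])))
  (.bad 2 384 [2, 3, 4, 9, 0, 5]))))
  (.br 30 (.col 40 (.col 49 (.col 51 (.br 31 (.bad 4 288 [9, 0, 1, 3, 7, 2])
  (.br 17 (.bad 4 264 [9, 0, 1, 5, 7, 4])
  (.br 16 (.bad 4 136 [9, 0, 2, 5, 8, 4])
  (.br 23 (.col 27 (.br 7 (.br 14 (.col 45 (.bad 5 264 [4, 9, 6, 0, 7, 5, 1]))
  (.bad 2 288 [0, 1, 6, 9, 4, 7]))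
  (.bad 2 258 [3, 4, 7, 9, 5, 6])))
  (.bad 2 34 [3, 4, 6, 9, 7, 8]))))))))
  (.bad 1 32 [9, 1, 3, 4, 7, 8])))))))))))))

def B_s00_4 : Dat where
  r := 5
  V := [[.i, .o, .o, .o, .o],
    [.o, .i, .o, .o, .o],
    [.o, .o, .i, .o, .o],
    [.o, .o, .o, .i, .o],
    [.o, .o, .o, .o, .i],
    [.i, .o, .o, .v, .w],
    [.i, .i, .o, .o, .o],
    [.o, .i, .i, .o, .o],
    [.o, .o, .i, .i, .i]]
  P := [[.i, .o, .o, .o, .o],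
    [.o, .i, .o, .o, .o],
    [.o, .o, .i, .o, .o],
    [.o, .o, .o, .i, .o],
    [.o, .o, .o, .o, .i],
    [.i, .o, .o, .v, .w],
    [.i, .i, .o, .o, .o],
    [.o, .i, .i, .o, .o],
    [.o, .o, .i, .i, .i],
    [.o, .o, .o, .v, .w],
    [.o, .o, .o, .w, .w],
    [.o, .o, .o, .o, .o],
    [.o, .o, .i, .i, .o],
    [.o, .o, .i, .o, .i],
    [.o, .o, .i, .w, .v],
    [.o, .o, .w, .v, .w],
    [.o, .o, .v, .v, .w],
    [.i, .o, .o, .o, .w],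
    [.i, .o, .o, .v, .o],
    [.i, .o, .o, .w, .v],
    [.i, .o, .o, .v, .v],
    [.i, .o, .o, .w, .w]]
  F := [[.i, .o, .o, .o, .o],
    [.o, .i, .o, .o, .o],
    [.i, .i, .o, .o, .o],
    [.o, .o, .i, .o, .o],
    [.o, .i, .i, .o, .o],
    [.i, .i, .i, .o, .o],
    [.o, .o, .o, .i, .o],
    [.o, .o, .i, .i, .o],
    [.o, .i, .i, .i, .o],
    [.i, .i, .i, .i, .o],
    [.i, .o, .o, .w, .o],
    [.i, .i, .o, .w, .o],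
    [.i, .i, .i, .w, .o],
    [.i, .o, .w, .w, .o],
    [.i, .i, .w, .w, .o],
    [.i, .w, .w, .w, .o],
    [.o, .o, .o, .o, .i],
    [.o, .o, .i, .o, .i],
    [.o, .i, .i, .o, .i],
    [.i, .i, .i, .o, .i],
    [.o, .o, .o, .i, .i],
    [.i, .o, .o, .i, .i],
    [.i, .i, .o, .i, .i],
    [.o, .o, .o, .i, .w],
    [.i, .i, .i, .v, .w],
    [.i, .o, .o, .o, .v],
    [.i, .i, .o, .o, .v],
    [.i, .i, .i, .o, .v],
    [.i, .o, .v, .o, .v],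
    [.i, .i, .v, .o, .v],
    [.i, .v, .v, .o, .v],
    [.o, .o, .i, .w, .v],
    [.o, .i, .i, .w, .v]]
  ht := 0x1a1016301a80168012a00e8006c00ae01e000e7016401a601c701c80189014b00cf01b00170013200f0007400b601d00191015300d700d800b9007b015c013d019e
  ct := 0x1800000000000000000000000000090000000000001300000140050a00000000000000000000000000000f0000000000001e0000015005500000000000000000000000000004000000000000090001fca002800000000000000000000000000000000e0000000000001d0000016007cf80000000000000020000002001c380000000200448800050a00fe0000000000000000001000000100340800000001007008000540803e00000000007f000008000000800e000000000080220000028000000000000000000000000000000000000000c0000000000001b0000017005cb8000000000000005000000600183000000010004080001fff80fe0000000000000000004000000a00282000000019006420001fcb802e000000000000000020001fc3000c0000001fc8002000000fe00000000000000000000000003000000b000c180000001a000c180005cb80fe000000000002000c1800018300fe000000040800fe00000fe0000000000000000001000ff8000280800600000006408006000002e000000000000000008006000000c0000000000002000000000000000000000000000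
  cl := [(15, 1, 0x10002),
    (23, 1, 0x42),
    (27, 0, 0x9),
    (39, 1, 0x800002),
    (43, 0, 0x12000008),
    (45, 0, 0x6000002),
    (51, 0, 0x2408),
    (53, 0, 0xc02),
    (58, 1, 0x1a),
    (78, 2, 0x30008),
    (77, 0, 0x4010004),
    (86, 2, 0xc8),
    (85, 0, 0x844),
    (89, 0, 0x2c),
    (102, 2, 0x80800008),
    (101, 0, 0x4c00800),
    (105, 0, 0x2c000008),
    (113, 0, 0x5808),
    (139, 1, 0x50010),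
    (141, 0, 0x2010001),
    (147, 1, 0x150),
    (149, 0, 0x441),
    (153, 0, 0x31),
    (163, 1, 0x100800010),
    (165, 0, 0x2a00400),
    (169, 0, 0x4a000010),
    (177, 0, 0x9410),
    (204, 3, 0x910040),
    (201, 0, 0x8090020),
    (209, 0, 0x1260),
    (225, 0, 0x9801000),
    (263, 1, 0x100002),
    (267, 1, 0x60002),
    (267, 0, 0x10020001),
    (275, 1, 0x182),
    (275, 0, 0x2081),
    (281, 0, 0x7),
    (291, 1, 0x180000002),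
    (291, 0, 0x90202000),
    (293, 0, 0x600002),
    (297, 0, 0x70000002),
    (305, 0, 0xe002),
    (326, 2, 0x80120080),
    (325, 0, 0x500004),
    (329, 0, 0x200a0004),
    (337, 0, 0x4284),
    (353, 0, 0xa1404000),
    (387, 1, 0x100140100),
    (389, 0, 0x300001),
    (393, 0, 0x400c0001),
    (401, 0, 0x8301),
    (417, 0, 0x141208000),
    (449, 0, 0x1180200)]
  sl := [0x1809701da, 0x92b324c9, 0x6f10c47, 0x7e0f003f, 0xffff, 0x1ffe0fc1a, 0xaddb5aec, 0x14bbd9771, 0x1f17ee387, 0x18080003f, 0x70003f, 0x1ffffffff, 0x601e387, 0x700e0c47, 0x180000007, 0x708e0007, 0x80e387, 0x7e0001da, 0x7fc1a, 0x60001a, 0x10fc1a, 0x7e10001a]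
  t := B_s00_4_t

theorem B_s00_4_okD : B_s00_4.ckD = true := by decide +kernel

theorem B_s00_4_okT : B_s00_4.ckT TTab B_s00_4.t 0 0 = true := by decide +kernel

theorem lext_s00_4 : LExt 5 9 (vecL 5 B_s00_4.V) (vecP 5 B_s00_4.P) :=
  lext_of_chk' B_s00_4 B_s00_4_okD B_s00_4_okT (by decide)

end QG
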