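import Pool.Agent.Lib.QG.BC8

/-! MP_2e6874_co, part (B): data for s10_3. -/

set_option autoImplicit false
set_option maxRecDepth 100000

namespace QG

def B_s10_3_t : Tr :=
  .br 0 (.br 4 (.col 12 (.br 9 (.col 10 (.col 11 (.col 13 (.col 14 (.br 1 (.col 2 (.col 4 (.col 5 (.col 6 (.col 7 (.col 8 (.col 9 (.col 16 (.sol 9)))))))))
  (.col 2 (.col 4 (.col 5 (.col 6 (.col 7 (.col 8 (.col 9 (.col 16 (.sol 6))))))))))))))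
  (.col 10 (.col 11 (.col 13 (.col 14 (.br 1 (.col 2 (.col 4 (.col 5 (.col 6 (.col 7 (.col 8 (.col 9 (.col 18 (.col 19 (.sol 3))))))))))
  (.col 2 (.col 5 (.col 8 (.col 18 (.br 11 (.bad 4 4 [8, 3, 6, 7, 5, 0])
  (.br 17 (.bad 4 128 [8, 1, 4, 6, 3, 2])
  (.br 13 (.bad 4 32 [8, 2, 4, 6, 3, 1])
  (.br 14 (.bad 4 128 [8, 0, 1, 3, 6, 2])
  (.br 18 (.bad 5 16 [3, 8, 6, 1, 7, 5, 2])
  (.bad 0 160 [8, 1, 2, 3, 4, 6])))))))))))))))))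
  (.col 12 (.br 7 (.col 8 (.col 18 (.bad 4 8 [8, 1, 2, 5, 7, 4])))
  (.br 15 (.col 10 (.col 11 (.col 21 (.br 16 (.bad 4 64 [8, 2, 3, 5, 4, 0])
  (.bad 2 64 [8, 2, 3, 4, 5, 7])))))
  (.br 16 (.col 13 (.col 14 (.col 11 (.bad 0 192 [8, 0, 2, 3, 4, 5]))))
  (.br 20 (.col 14 (.col 20 (.col 21 (.col 11 (.br 1 (.bad 4 128 [8, 0, 2, 5, 6, 1])
  (.col 2 (.br 13 (.bad 4 4 [8, 3, 6, 4, 5, 0])
  (.br 3 (.col 1 (.bad 5 128 [1, 8, 3, 0, 6, 5, 2]))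
  (.bad 2 16 [2, 3, 7, 8, 5, 6])))))))))
  (.br 9 (.col 11 (.col 13 (.br 18 (.col 19 (.col 20 (.bad 4 128 [8, 1, 2, 5, 4, 0])))
  (.br 1 (.col 2 (.col 4 (.col 5 (.col 6 (.col 7 (.col 16 (.sol 2)))))))
  (.col 2 (.col 4 (.col 7 (.br 14 (.col 6 (.col 16 (.sol 1)))
  (.bad 0 160 [8, 1, 2, 3, 4, 6])))))))))
  (.col 11 (.br 19 (.br 1 (.col 2 (.col 4 (.col 5 (.col 7 (.col 15 (.col 18 (.col 19 (.sol 10))))))))
  (.col 2 (.col 19 (.br 11 (.bad 4 4 [8, 3, 6, 7, 5, 0])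
  (.br 14 (.bad 4 128 [8, 0, 1, 4, 6, 2])
  (.bad 0 160 [8, 1, 2, 3, 4, 6]))))))
  (.bad 0 192 [8, 0, 2, 3, 4, 5]))))))))))
  (.br 4 (.col 12 (.br 1 (.col 2 (.col 5 (.col 8 (.col 18 (.br 20 (.col 20 (.col 21 (.bad 4 128 [8, 0, 2, 5, 6, 1])))
  (.br 12 (.col 3 (.col 4 (.col 7 (.col 9 (.col 10 (.col 11 (.col 13 (.col 15 (.sol 4)))))))))
  (.col 3 (.col 4 (.col 9 (.col 13 (.br 9 (.col 6 (.col 7 (.col 10 (.col 11 (.sol 0)))))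
  (.col 6 (.col 10 (.br 10 (.col 17 (.sol 8))
  (.bad 0 192 [8, 0, 2, 3, 4, 5])))))))))))))))
  (.col 5 (.br 2 (.bad 4 8 [8, 2, 5, 6, 4, 1])
  (.br 6 (.bad 4 8 [8, 1, 7, 6, 4, 2])
  (.br 7 (.bad 5 8 [4, 8, 6, 1, 7, 5, 2])
  (.bad 2 8 [1, 2, 6, 8, 5, 7])))))))
  (.br 12 (.col 11 (.col 13 (.br 5 (.bad 4 64 [8, 2, 4, 5, 3, 0])
  (.br 2 (.col 2 (.col 4 (.bad 4 4 [8, 3, 5, 4, 6, 0])))
  (.br 3 (.col 3 (.col 5 (.col 6 (.col 8 (.col 9 (.br 11 (.bad 4 128 [8, 1, 4, 5, 2, 0])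
  (.br 20 (.col 21 (.bad 5 128 [1, 8, 4, 0, 6, 5, 2]))
  (.bad 0 160 [8, 1, 2, 3, 4, 6]))))))))
  (.col 3 (.br 11 (.col 7 (.col 17 (.bad 4 4 [8, 4, 6, 7, 5, 0])))
  (.br 8 (.col 21 (.br 1 (.col 4 (.col 9 (.col 15 (.col 18 (.sol 11)))))
  (.col 4 (.col 18 (.br 14 (.bad 4 128 [8, 0, 1, 3, 6, 2])
  (.br 18 (.bad 4 16 [8, 1, 2, 5, 7, 3])
  (.bad 0 160 [8, 1, 2, 3, 4, 6])))))))
  (.br 20 (.col 20 (.col 21 (.br 1 (.bad 4 128 [8, 0, 2, 5, 6, 1])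
  (.bad 2 8 [2, 4, 7, 8, 5, 6]))))
  (.bad 2 64 [8, 2, 4, 3, 5, 7]))))))))))
  (.br 1 (.col 2 (.col 4 (.col 5 (.br 16 (.bad 4 16 [8, 2, 3, 6, 5, 1])
  (.br 5 (.bad 4 8 [8, 2, 4, 6, 5, 1])
  (.br 6 (.col 18 (.br 10 (.col 11 (.col 16 (.col 17 (.col 19 (.col 20 (.col 21 (.sol 7)))))))
  (.col 16 (.col 17 (.col 19 (.col 20 (.col 21 (.br 9 (.sol 13)
  (.bad 2 32 [1, 2, 6, 8, 4, 7])))))))))
  (.col 18 (.br 10 (.col 11 (.col 16 (.col 17 (.col 19 (.col 20 (.bad 2 32 [1, 3, 4, 8, 6, 7]))))))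
  (.col 17 (.br 20 (.col 20 (.col 21 (.bad 4 128 [8, 0, 2, 5, 6, 1])))
  (.br 9 (.col 6 (.col 10 (.br 19 (.col 19 (.sol 14))
  (.bad 0 192 [8, 0, 2, 3, 4, 5]))))
  (.br 14 (.col 15 (.col 16 (.col 19 (.sol 12))))
  (.bad 2 32 [1, 2, 6, 8, 3, 7])))))))))))))
  (.br 6 (.col 1 (.col 18 (.br 2 (.bad 4 8 [8, 1, 7, 5, 2, 4])
  (.br 5 (.bad 5 8 [1, 8, 7, 2, 5, 6, 4])
  (.bad 2 8 [2, 4, 7, 8, 5, 6])))))
  (.br 10 (.col 11 (.col 16 (.col 17 (.br 18 (.bad 4 128 [8, 1, 2, 5, 4, 0])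
  (.br 13 (.bad 4 4 [8, 4, 5, 7, 6, 0])
  (.br 2 (.bad 4 4 [8, 3, 5, 7, 6, 0])
  (.br 7 (.bad 4 128 [8, 1, 2, 5, 3, 0])
  (.br 20 (.col 21 (.br 3 (.bad 4 1 [8, 4, 5, 7, 6, 2])
  (.bad 2 32 [1, 3, 4, 8, 2, 7])))
  (.bad 0 160 [8, 1, 2, 3, 4, 6])))))))))
  (.br 8 (.col 18 (.col 21 (.br 17 (.bad 4 128 [8, 1, 4, 6, 3, 2])
  (.br 14 (.bad 4 128 [8, 0, 1, 3, 6, 2])
  (.br 18 (.col 20 (.bad 7 128 [4, 0, 3, 2, 8, 5, 1, 6]))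
  (.bad 2 128 [0, 1, 5, 8, 4, 6]))))))
  (.br 15 (.col 15 (.col 21 (.br 17 (.bad 4 128 [8, 0, 6, 4, 1, 2])
  (.br 11 (.bad 4 128 [8, 0, 6, 5, 2, 1])
  (.br 18 (.col 20 (.bad 2 128 [1, 2, 6, 8, 3, 5]))
  (.bad 2 128 [1, 2, 6, 8, 4, 5]))))))
  (.br 9 (.br 5 (.col 14 (.col 21 (.br 2 (.col 7 (.col 8 (.col 9 (.col 19 (.col 20 (.sol 5))))))
  (.col 7 (.col 8 (.col 9 (.col 20 (.br 17 (.bad 5 16 [1, 8, 7, 2, 5, 6, 3])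
  (.bad 0 384 [0, 1, 2, 3, 4, 6])))))))))
  (.col 14 (.br 19 (.col 19 (.br 14 (.bad 4 128 [8, 0, 1, 4, 6, 2])
  (.br 7 (.col 20 (.bad 7 128 [3, 0, 4, 2, 8, 5, 1, 6]))
  (.bad 2 128 [0, 1, 5, 8, 3, 6]))))
  (.bad 0 192 [8, 0, 2, 3, 4, 5]))))
  (.br 19 (.col 19 (.col 21 (.br 14 (.bad 4 128 [8, 0, 1, 4, 6, 2])
  (.br 3 (.bad 4 16 [8, 1, 3, 6, 7, 2])
  (.br 5 (.col 8 (.bad 2 128 [0, 1, 5, 8, 3, 6]))
  (.bad 2 64 [0, 2, 5, 8, 3, 7]))))))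
  (.bad 2 64 [0, 3, 4, 8, 2, 7]))))))))))

def B_s10_3 : Dat where
  r := 4
  V := [[.i, .o, .o, .o],
    [.o, .i, .o, .o],
    [.o, .o, .i, .o],
    [.o, .o, .o, .i],
    [.v, .o, .o, .w],
    [.i, .i, .o, .o],
    [.o, .i, .i, .o],
    [.v, .o, .i, .v]]
  P := [[.i, .o, .o, .o],
    [.o, .i, .o, .o],
    [.o, .o, .i, .o],
    [.o, .o, .o, .i],
    [.v, .o, .o, .w],
    [.i, .i, .o, .o],
    [.o, .i, .i, .o],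
    [.v, .o, .i, .v],
    [.i, .o, .o, .i],
    [.o, .o, .o, .o],
    [.o, .o, .i, .i],
    [.v, .o, .i, .w],
    [.w, .o, .i, .v],
    [.i, .o, .w, .o],
    [.i, .o, .v, .o]]
  F := [[.i, .o, .o, .o],
    [.o, .i, .o, .o],
    [.i, .i, .o, .o],
    [.o, .o, .i, .o],
    [.o, .i, .i, .o],
    [.i, .i, .i, .o],
    [.i, .o, .v, .o],
    [.i, .i, .v, .o],
    [.i, .v, .v, .o],
    [.o, .o, .o, .i],
    [.i, .o, .o, .i],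
    [.i, .i, .o, .i],
    [.i, .o, .o, .w],
    [.i, .i, .o, .w],
    [.o, .o, .i, .w],
    [.o, .i, .i, .w],
    [.i, .i, .i, .w],
    [.i, .o, .w, .w],
    [.i, .i, .w, .w],
    [.i, .w, .w, .w],
    [.i, .i, .i, .v]]
  ht := 0xe000d000b00092007000c100a30034005600a400c6006700c800a8008a00680059003b002c009d004e
  ct := 0x14000000000000000000000000001300000000000008000000a0028780000000000000000000000000001200000000000007000000b003870000000000000001000000100440800000001001808000280801c000000000000000000000000000000010000000000000050000009002448000000000000004000000c00302000000000000020001fc480120000000000000000003000000d000c1800000002000c1800024480fe000000000001000ff80003008006000000000080060000012000000000000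
  cl := [(7, 1, 0x202),
    (11, 0, 0x49),
    (13, 0, 0x7),
    (19, 0, 0x21008),
    (21, 0, 0x3002),
    (26, 1, 0x1a),
    (38, 2, 0x4208),
    (37, 0, 0x2a04),
    (41, 0, 0xac),
    (49, 0, 0x52008),
    (67, 1, 0x8210),
    (69, 0, 0x1601),
    (73, 0, 0x131),
    (81, 0, 0x91010),
    (97, 0, 0x110220),
    (131, 1, 0xc002),
    (131, 0, 0x24440),
    (133, 0, 0xc02),
    (137, 0, 0x1c2),
    (145, 0, 0xe0002),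
    (161, 0, 0x144880),
    (193, 0, 0x188500)]
  sl := [0xc21a, 0x25649, 0x3e07, 0x1ff, 0xf301a, 0x156aac, 0x199731, 0x1ecdc2, 0xc1a, 0x1fffff, 0xe0007, 0x31c2, 0xc002, 0x3c2, 0xe0202]
  t := B_s10_3_t

theorem B_s10_3_okD : B_s10_3.ckD = true := by decide +kernel

theorem B_s10_3_okT : B_s10_3.ckT TTab B_s10_3.t 0 0 = true := by decide +kernel

theorem lext_s10_3 : LExt 4 8 (vecL 4 B_s10_3.V) (vecP 4 B_s10_3.P) :=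
  lext_of_chk' B_s10_3 B_s10_3_okD B_s10_3_okT (by decide)

end QG
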