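import Pool.Agent.Lib.QG.BC8

/-! MP_2e6874_co, part (B): data for s10_4. -/

set_option autoImplicit false
set_option maxRecDepth 100000

namespace QG

def B_s10_4_t : Tr :=
  .br 0 (.br 8 (.col 31 (.br 16 (.col 29 (.col 30 (.col 32 (.col 33 (.br 1 (.col 21 (.col 23 (.col 24 (.col 25 (.col 26 (.col 27 (.col 28 (.col 53 (.br 3 (.col 5 (.col 7 (.col 8 (.col 10 (.col 11 (.col 12 (.col 15 (.col 16 (.col 17 (.col 18 (.col 37 (.col 39 (.sol 11)))))))))))))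
  (.col 5 (.col 7 (.col 8 (.col 10 (.col 11 (.col 12 (.col 15 (.col 16 (.col 17 (.col 18 (.col 37 (.col 39 (.sol 8))))))))))))))))))))))
  (.col 21 (.col 23 (.col 24 (.col 25 (.col 26 (.col 27 (.col 28 (.col 53 (.br 3 (.col 5 (.col 8 (.bad 4 80 [10, 3, 5, 8, 7, 2])))
  (.br 4 (.col 11 (.col 13 (.col 14 (.col 15 (.col 16 (.col 17 (.col 18 (.col 42 (.col 47 (.sol 7))))))))))
  (.col 14 (.col 15 (.col 47 (.br 28 (.bad 4 36 [10, 6, 9, 7, 8, 4])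
  (.br 11 (.bad 4 20 [10, 6, 9, 7, 8, 5])
  (.bad 0 1600 [1, 2, 3, 4, 5, 8])))))))))))))))))))))
  (.col 29 (.col 30 (.col 32 (.col 33 (.br 1 (.col 21 (.col 23 (.col 24 (.col 25 (.col 26 (.col 27 (.col 28 (.col 55 (.col 56 (.br 3 (.col 5 (.col 7 (.col 8 (.col 10 (.col 11 (.col 12 (.col 15 (.col 16 (.col 17 (.col 18 (.col 37 (.col 39 (.sol 4)))))))))))))
  (.col 5 (.col 8 (.col 10 (.col 11 (.col 17 (.col 37 (.br 28 (.bad 4 576 [10, 2, 5, 8, 4, 3])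
  (.col 39 (.br 29 (.bad 4 544 [10, 2, 4, 7, 6, 1])
  (.br 19 (.bad 4 136 [10, 4, 8, 9, 6, 0])
  (.br 23 (.bad 4 640 [10, 0, 2, 4, 8, 3])
  (.bad 0 704 [10, 2, 3, 4, 5, 8]))))))))))))))))))))))
  (.col 21 (.col 24 (.col 27 (.col 55 (.br 30 (.bad 4 768 [10, 1, 5, 7, 4, 3])
  (.br 21 (.bad 4 288 [10, 3, 6, 7, 4, 1])
  (.br 24 (.bad 4 257 [10, 5, 7, 9, 6, 3])
  (.br 18 (.bad 4 12 [10, 4, 7, 9, 6, 0])
  (.br 31 (.bad 5 288 [4, 10, 7, 1, 9, 6, 3])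
  (.bad 0 832 [10, 1, 3, 4, 5, 7])))))))))))))))))
  (.col 31 (.br 12 (.col 17 (.col 49 (.bad 4 144 [10, 2, 3, 6, 9, 5])))
  (.br 14 (.col 27 (.col 55 (.bad 4 272 [10, 1, 3, 6, 9, 5])))
  (.br 25 (.col 29 (.col 30 (.col 58 (.br 26 (.bad 4 384 [10, 3, 4, 6, 5, 0])
  (.bad 2 384 [10, 3, 4, 5, 6, 9])))))
  (.br 26 (.col 32 (.col 33 (.col 30 (.bad 0 896 [10, 0, 3, 4, 5, 6]))))
  (.br 33 (.col 33 (.col 51 (.col 57 (.col 58 (.col 30 (.br 4 (.bad 4 640 [10, 0, 3, 6, 8, 2])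
  (.col 11 (.br 22 (.bad 4 136 [10, 4, 8, 5, 6, 0])
  (.br 3 (.bad 4 576 [10, 1, 3, 7, 8, 2])
  (.br 1 (.bad 4 768 [10, 0, 3, 6, 7, 1])
  (.br 6 (.col 8 (.col 10 (.col 12 (.col 20 (.br 30 (.bad 4 514 [10, 4, 7, 5, 8, 3])
  (.bad 2 544 [1, 4, 6, 10, 7, 8]))))))
  (.bad 2 160 [3, 4, 9, 10, 6, 8]))))))))))))
  (.br 16 (.col 30 (.col 32 (.br 29 (.col 18 (.col 50 (.bad 4 160 [10, 2, 3, 6, 9, 4])))
  (.br 31 (.col 28 (.col 56 (.bad 4 288 [10, 1, 3, 6, 9, 4])))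
  (.br 1 (.col 21 (.col 23 (.col 24 (.col 25 (.col 26 (.col 53 (.br 3 (.col 5 (.col 7 (.col 8 (.col 10 (.col 11 (.col 12 (.col 15 (.col 16 (.col 37 (.col 39 (.sol 3)))))))))))
  (.col 5 (.col 7 (.col 11 (.col 16 (.br 23 (.col 15 (.col 42 (.col 47 (.sol 2))))
  (.bad 0 704 [10, 2, 3, 4, 5, 8])))))))))))))
  (.col 21 (.col 23 (.col 26 (.br 24 (.col 25 (.col 53 (.br 3 (.col 5 (.col 7 (.col 8 (.col 10 (.col 11 (.col 12 (.col 15 (.col 16 (.col 37 (.col 39 (.sol 1)))))))))))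
  (.col 8 (.col 12 (.col 15 (.br 19 (.col 48 (.bad 4 544 [10, 1, 8, 7, 4, 2]))
  (.bad 0 704 [10, 2, 3, 4, 5, 8]))))))))
  (.bad 0 832 [10, 1, 3, 4, 5, 7]))))))))))
  (.col 30 (.br 32 (.br 1 (.col 21 (.col 23 (.col 24 (.col 26 (.col 52 (.col 55 (.col 56 (.br 3 (.col 5 (.col 7 (.col 8 (.col 10 (.col 11 (.col 16 (.col 37 (.col 38 (.col 39 (.col 41 (.col 45 (.sol 12))))))))))))
  (.col 5 (.col 11 (.col 38 (.col 45 (.br 19 (.bad 4 136 [10, 4, 8, 9, 6, 0])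
  (.br 23 (.bad 4 514 [10, 5, 8, 6, 7, 3])
  (.bad 0 704 [10, 2, 3, 4, 5, 8])))))))))))))))
  (.col 21 (.col 56 (.br 18 (.bad 4 12 [10, 4, 7, 9, 6, 0])
  (.br 24 (.bad 4 768 [10, 0, 1, 5, 7, 3])
  (.bad 0 832 [10, 1, 3, 4, 5, 7]))))))
  (.bad 0 896 [10, 0, 3, 4, 5, 6])))))))))))
  (.br 8 (.col 31 (.br 1 (.col 21 (.col 24 (.col 27 (.col 55 (.br 3 (.col 5 (.col 8 (.col 10 (.col 14 (.col 17 (.col 37 (.br 33 (.col 51 (.col 58 (.bad 4 640 [10, 0, 3, 6, 8, 2])))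
  (.br 20 (.col 12 (.col 13 (.col 16 (.col 18 (.col 22 (.col 23 (.col 25 (.col 26 (.col 28 (.col 29 (.col 30 (.col 32 (.col 39 (.col 41 (.sol 5)))))))))))))))
  (.col 12 (.col 13 (.col 18 (.col 22 (.col 23 (.col 28 (.col 32 (.col 39 (.br 16 (.col 15 (.col 16 (.col 25 (.col 26 (.col 29 (.col 30 (.sol 0)))))))
  (.col 15 (.col 25 (.col 29 (.br 19 (.col 43 (.col 48 (.sol 10)))
  (.bad 0 704 [10, 2, 3, 4, 5, 8]))))))))))))))))))))))
  (.col 8 (.col 14 (.br 10 (.bad 4 144 [10, 2, 9, 8, 5, 3])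
  (.col 37 (.br 5 (.bad 4 24 [10, 6, 7, 9, 8, 1])
  (.br 12 (.bad 4 528 [10, 2, 5, 7, 6, 1])
  (.bad 2 80 [2, 3, 8, 10, 7, 9]))))))))))))
  (.col 24 (.br 2 (.bad 4 272 [10, 3, 6, 7, 5, 1])
  (.br 13 (.bad 4 272 [10, 1, 9, 7, 5, 3])
  (.br 14 (.bad 5 272 [5, 10, 7, 1, 9, 6, 3])
  (.bad 2 272 [1, 3, 7, 10, 6, 9])))))))
  (.br 20 (.col 30 (.col 32 (.br 9 (.bad 4 384 [10, 3, 5, 6, 4, 0])
  (.br 2 (.col 21 (.col 23 (.bad 4 12 [10, 4, 6, 5, 7, 0])))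
  (.br 5 (.col 11 (.col 13 (.bad 4 136 [10, 4, 6, 5, 8, 0])))
  (.br 6 (.col 12 (.col 14 (.col 15 (.col 17 (.col 18 (.br 25 (.bad 4 640 [10, 0, 8, 5, 2, 3])
  (.br 19 (.bad 4 640 [10, 2, 5, 6, 3, 0])
  (.br 33 (.bad 5 640 [2, 10, 5, 0, 8, 6, 3])
  (.bad 0 704 [10, 2, 3, 4, 5, 8])))))))))
  (.col 12 (.br 7 (.col 8 (.col 20 (.col 22 (.col 24 (.col 25 (.col 27 (.col 28 (.br 18 (.bad 4 12 [10, 5, 7, 9, 6, 0])
  (.br 33 (.col 58 (.br 10 (.bad 4 514 [10, 4, 7, 5, 8, 3])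
  (.br 23 (.bad 4 514 [10, 5, 8, 6, 7, 3])
  (.col 51 (.br 11 (.bad 4 80 [10, 2, 9, 8, 5, 3])
  (.bad 2 528 [1, 2, 7, 10, 6, 8]))))))
  (.bad 0 832 [10, 1, 3, 4, 5, 7]))))))))))
  (.col 22 (.br 18 (.col 26 (.col 54 (.bad 4 12 [10, 5, 7, 9, 6, 0])))
  (.br 15 (.col 58 (.br 1 (.col 23 (.col 28 (.col 39 (.col 52 (.col 55 (.br 3 (.col 7 (.col 13 (.col 16 (.col 18 (.col 36 (.col 37 (.col 41 (.col 44 (.sol 13)))))))))
  (.col 7 (.col 13 (.col 36 (.col 44 (.br 29 (.bad 4 544 [10, 2, 4, 7, 6, 1])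
  (.br 19 (.bad 4 520 [10, 5, 8, 6, 7, 1])
  (.br 23 (.bad 4 640 [10, 0, 2, 4, 8, 3])
  (.bad 0 704 [10, 2, 3, 4, 5, 8]))))))))))))))
  (.col 23 (.col 55 (.br 24 (.bad 4 768 [10, 0, 1, 4, 7, 3])
  (.br 31 (.bad 4 288 [10, 1, 3, 6, 9, 4])
  (.bad 0 832 [10, 1, 3, 4, 5, 7])))))))
  (.br 33 (.col 57 (.col 58 (.br 1 (.bad 4 768 [10, 0, 3, 6, 7, 1])
  (.bad 2 272 [3, 5, 9, 10, 6, 7]))))
  (.bad 2 384 [10, 3, 5, 4, 6, 9])))))))))))))
  (.br 1 (.col 21 (.col 23 (.col 24 (.br 9 (.bad 4 272 [10, 3, 5, 7, 6, 1])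
  (.br 26 (.bad 4 288 [10, 3, 4, 7, 6, 1])
  (.br 5 (.col 5 (.col 11 (.bad 4 24 [10, 6, 7, 9, 8, 1])))
  (.br 22 (.col 7 (.col 13 (.bad 4 40 [10, 6, 7, 9, 8, 1])))
  (.br 6 (.col 8 (.col 10 (.col 12 (.col 14 (.col 17 (.col 18 (.br 30 (.bad 4 34 [10, 6, 7, 9, 8, 3])
  (.col 56 (.br 15 (.bad 4 144 [10, 2, 5, 8, 9, 3])
  (.col 55 (.br 16 (.col 25 (.col 26 (.col 33 (.bad 0 832 [10, 1, 3, 4, 5, 7]))))
  (.col 15 (.br 24 (.bad 4 3 [10, 5, 7, 9, 8, 3])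
  (.col 52 (.br 17 (.col 48 (.col 54 (.col 57 (.bad 0 704 [10, 2, 3, 4, 5, 8]))))
  (.bad 0 1664 [0, 2, 3, 4, 5, 8]))))))))))))))))
  (.br 16 (.col 15 (.col 16 (.col 25 (.col 26 (.col 29 (.col 30 (.col 33 (.br 13 (.col 53 (.col 55 (.col 56 (.br 3 (.col 36 (.col 37 (.col 38 (.col 39 (.col 40 (.col 44 (.col 45 (.sol 15))))))))
  (.col 40 (.col 44 (.br 29 (.col 45 (.col 50 (.bad 4 544 [10, 2, 4, 7, 6, 1])))
  (.bad 0 704 [10, 2, 3, 4, 5, 8]))))))))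
  (.col 55 (.br 31 (.col 56 (.br 3 (.col 36 (.col 37 (.col 38 (.col 39 (.col 40 (.col 44 (.col 45 (.sol 16))))))))
  (.col 40 (.col 45 (.br 12 (.col 44 (.col 49 (.bad 4 528 [10, 2, 5, 7, 6, 1])))
  (.bad 0 704 [10, 2, 3, 4, 5, 8]))))))
  (.bad 0 832 [10, 1, 3, 4, 5, 7])))))))))))
  (.br 4 (.col 40 (.br 10 (.col 36 (.col 37 (.col 44 (.col 49 (.br 17 (.col 47 (.col 48 (.col 50 (.col 51 (.col 53 (.col 54 (.col 56 (.col 58 (.col 39 (.sol 9))))))))))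
  (.col 48 (.col 51 (.col 53 (.col 54 (.col 56 (.bad 2 320 [1, 3, 7, 10, 5, 9])))))))))))
  (.col 36 (.col 37 (.col 44 (.col 49 (.br 17 (.col 48 (.col 51 (.col 53 (.col 56 (.bad 2 320 [1, 4, 5, 10, 7, 9])))))
  (.col 48 (.col 54 (.br 23 (.col 41 (.col 42 (.col 45 (.col 46 (.col 47 (.col 50 (.col 51 (.col 53 (.sol 14)))))))))
  (.col 41 (.col 46 (.br 33 (.bad 4 640 [10, 0, 3, 6, 8, 2])
  (.bad 2 320 [1, 3, 7, 10, 4, 9]))))))))))))))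
  (.bad 1 128 [10, 3, 4, 5, 6, 8])))))))))))
  (.br 13 (.col 20 (.col 55 (.br 2 (.bad 4 272 [10, 1, 9, 6, 3, 5])
  (.br 9 (.bad 5 272 [1, 10, 9, 3, 6, 7, 5])
  (.bad 2 272 [3, 5, 9, 10, 6, 7])))))
  (.br 17 (.col 30 (.col 53 (.col 54 (.br 21 (.bad 4 12 [10, 5, 6, 9, 7, 0])
  (.br 14 (.bad 4 768 [10, 1, 3, 6, 4, 0])
  (.br 31 (.bad 4 768 [10, 1, 3, 6, 5, 0])
  (.br 33 (.col 58 (.br 7 (.bad 4 257 [10, 5, 6, 9, 7, 3])
  (.br 2 (.bad 4 12 [10, 4, 6, 9, 7, 0])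
  (.bad 2 320 [1, 4, 5, 10, 3, 9]))))
  (.bad 0 832 [10, 1, 3, 4, 5, 7]))))))))
  (.br 10 (.col 10 (.col 36 (.col 37 (.col 47 (.br 28 (.bad 4 516 [10, 4, 7, 5, 6, 0])
  (.br 30 (.bad 4 514 [10, 4, 7, 5, 8, 3])
  (.br 7 (.bad 4 18 [10, 6, 8, 9, 7, 3])
  (.br 24 (.bad 4 514 [10, 4, 7, 6, 8, 3])
  (.br 14 (.bad 4 528 [10, 1, 2, 6, 8, 5])
  (.br 18 (.bad 4 516 [10, 4, 7, 8, 6, 0])
  (.br 31 (.col 28 (.col 45 (.col 56 (.br 4 (.bad 5 544 [4, 10, 7, 1, 8, 6, 2])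
  (.bad 2 160 [2, 4, 6, 10, 8, 9])))))
  (.bad 0 1792 [0, 1, 3, 4, 5, 6]))))))))))))
  (.br 4 (.col 11 (.col 14 (.col 40 (.col 49 (.br 11 (.bad 4 528 [10, 2, 6, 7, 5, 1])
  (.br 9 (.bad 4 144 [10, 3, 5, 8, 6, 2])
  (.br 7 (.bad 4 17 [10, 6, 8, 7, 9, 2])
  (.br 2 (.bad 4 24 [10, 6, 8, 9, 7, 1])
  (.br 14 (.bad 5 528 [5, 10, 7, 1, 8, 6, 2])
  (.bad 2 80 [2, 5, 7, 10, 8, 9]))))))))))
  (.br 15 (.col 58 (.br 27 (.bad 4 640 [10, 2, 5, 8, 4, 3])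
  (.br 30 (.bad 4 768 [10, 1, 5, 7, 4, 3])
  (.br 23 (.bad 4 640 [10, 0, 2, 4, 8, 3])
  (.br 24 (.bad 4 768 [10, 0, 1, 4, 7, 3])
  (.br 3 (.bad 4 528 [10, 1, 5, 7, 8, 2])
  (.bad 0 1538 [3, 4, 5, 6, 7, 8])))))))
  (.br 25 (.col 46 (.col 52 (.col 58 (.br 27 (.bad 4 640 [10, 0, 8, 5, 2, 3])
  (.br 30 (.bad 4 768 [10, 0, 7, 5, 1, 3])
  (.br 3 (.bad 4 513 [10, 5, 6, 8, 7, 2])
  (.bad 0 1538 [3, 4, 5, 6, 7, 8])))))))
  (.br 16 (.br 9 (.col 33 (.col 58 (.br 2 (.col 26 (.col 27 (.col 28 (.col 56 (.col 57 (.br 3 (.col 5 (.col 7 (.col 8 (.col 12 (.col 15 (.col 16 (.col 17 (.col 18 (.col 42 (.sol 6))))))))))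
  (.col 8 (.col 15 (.br 27 (.bad 4 514 [10, 5, 7, 6, 8, 3])
  (.bad 0 1664 [0, 2, 3, 4, 5, 8]))))))))))
  (.col 26 (.col 27 (.col 28 (.col 57 (.br 30 (.bad 5 768 [1, 10, 5, 0, 7, 6, 3])
  (.bad 0 1792 [0, 1, 3, 4, 5, 6])))))))))
  (.col 33 (.br 32 (.col 50 (.col 56 (.br 23 (.bad 4 640 [10, 0, 2, 5, 8, 3])
  (.col 15 (.br 7 (.bad 4 288 [10, 1, 4, 7, 9, 3])
  (.col 25 (.br 3 (.bad 4 544 [10, 1, 4, 7, 8, 2])
  (.br 12 (.col 44 (.col 51 (.br 18 (.bad 4 576 [10, 2, 3, 7, 4, 1])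
  (.bad 0 832 [10, 1, 3, 4, 5, 7]))))
  (.bad 2 144 [2, 5, 6, 10, 8, 9])))))))))
  (.bad 0 896 [10, 0, 3, 4, 5, 6]))))
  (.br 32 (.col 50 (.col 56 (.br 23 (.bad 4 640 [10, 0, 2, 5, 8, 3])
  (.br 24 (.bad 4 768 [10, 0, 1, 5, 7, 3])
  (.br 3 (.bad 4 544 [10, 1, 4, 7, 8, 2])
  (.bad 0 1538 [3, 4, 5, 6, 7, 8]))))))
  (.bad 2 384 [0, 4, 5, 10, 3, 9]))))))))))))

def B_s10_4 : Dat where
  r := 5
  V := [[.i, .o, .o, .o, .o],
    [.o, .i, .o, .o, .o],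
    [.o, .o, .i, .o, .o],
    [.o, .o, .o, .i, .o],
    [.o, .o, .o, .o, .i],
    [.v, .o, .o, .o, .w],
    [.i, .i, .o, .o, .o],
    [.o, .i, .i, .o, .o],
    [.o, .o, .i, .i, .o],
    [.v, .o, .o, .i, .v]]
  P := [[.i, .o, .o, .o, .o],
    [.o, .i, .o, .o, .o],
    [.o, .o, .i, .o, .o],
    [.o, .o, .o, .i, .o],
    [.o, .o, .o, .o, .i],
    [.v, .o, .o, .o, .w],
    [.i, .i, .o, .o, .o],
    [.o, .i, .i, .o, .o],
    [.o, .o, .i, .i, .o],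
    [.v, .o, .o, .i, .v],
    [.i, .o, .o, .o, .i],
    [.o, .o, .o, .o, .o],
    [.o, .o, .o, .i, .i],
    [.v, .o, .o, .i, .w],
    [.w, .o, .o, .i, .v],
    [.i, .o, .o, .w, .o],
    [.i, .o, .o, .v, .o]]
  F := [[.i, .o, .o, .o, .o],
    [.o, .i, .o, .o, .o],
    [.i, .i, .o, .o, .o],
    [.o, .o, .i, .o, .o],
    [.o, .i, .i, .o, .o],
    [.i, .i, .i, .o, .o],
    [.o, .o, .o, .i, .o],
    [.o, .o, .i, .i, .o],
    [.o, .i, .i, .i, .o],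
    [.i, .i, .i, .i, .o],
    [.i, .o, .o, .v, .o],
    [.i, .i, .o, .v, .o],
    [.i, .i, .i, .v, .o],
    [.i, .o, .v, .v, .o],
    [.i, .i, .v, .v, .o],
    [.i, .v, .v, .v, .o],
    [.o, .o, .o, .o, .i],
    [.i, .o, .o, .o, .i],
    [.i, .i, .o, .o, .i],
    [.i, .i, .i, .o, .i],
    [.i, .o, .o, .o, .w],
    [.i, .i, .o, .o, .w],
    [.i, .i, .i, .o, .w],
    [.o, .o, .o, .i, .w],
    [.o, .o, .i, .i, .w],
    [.o, .i, .i, .i, .w],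
    [.i, .i, .i, .i, .w],
    [.i, .o, .o, .w, .w],
    [.i, .i, .o, .w, .w],
    [.i, .i, .i, .w, .w],
    [.i, .o, .w, .w, .w],
    [.i, .i, .w, .w, .w],
    [.i, .w, .w, .w, .w],
    [.i, .i, .i, .i, .v]]
  ht := 0x3c003a00360032202e0026402a601e00381034302c700e8016c01ae02c8034c038e01cf03900350031202d00254029601d001b1017300f700d802b9027b015c033d019e
  ct := 0x2100000000000000000000000000000000000000000000000000000020000000000000000000000000000f0000000000001100000110044c800000000000000000000000000000000000000000000000000000001f000000000000000000000000000e0000000000001200000120060c00000000000000000000000000000100000000000001000000100780800000000000000100000010034080000007f0044080004408030000000000000000000000000000000000000000000000000000000000001d000000000000000000000000000c000000000000130000017005cb80000000000000000000000000000400000000000004000001b006c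20000000000000004000000a00282000000011004420001fcb802e00000000000000000000000000000000300000000000003000001c000c18000000000000003000000b000c1800000012000c180005cb80fe000000000000000007f0000001000ff800000001000ff80006c08006000000000001000ff8000280800600000004408006000002e0000000000000000000000000000000000000000000000000000000000000000001a00000000000000000000000000090000000000001000000100040800000000000000000000000000000800000000000014000001400504000000000000000000000000000400000007f01fc80001fc80020000000000000000000000000000000007000000000000150000015001c380000000000000020000002001c380000007f00408000040800fe00000000000000000010000001001ff80000007f005008000500800e00000000007f000008000000800e0000001fff802000000200000000000000000000000000000000000000006000000000000160000006001830000000000000005000000600183000000010004080001fff80fe00000000000000000040000006001bf800000014005020001fc3000c000000000000000020001fc3000c0000001fc8002000000fe00000000000000000000000003000000601fff800000015000c1800018300fe000000000002000c1800018300fe000000040800fe00000fe0000000000000000001000ff80001bf80fe00000005008006000000c000000000000000008006000000c0000000000002000000000000000000000000000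
  cl := [(27, 0, 0x9),
    (43, 0, 0x100008),
    (54, 1, 0x42),
    (78, 2, 0x10008),
    (85, 0, 0x844),
    (89, 0, 0x2c),
    (101, 0, 0x10200040),
    (105, 0, 0x600008),
    (116, 2, 0xc8),
    (139, 1, 0x10010),
    (149, 0, 0x441),
    (153, 0, 0x31),
    (165, 0, 0x8100040),
    (169, 0, 0x500010),
    (178, 1, 0x150),
    (204, 3, 0x810040),
    (201, 0, 0x490020),
    (209, 0, 0x1260),
    (225, 0, 0x24400040),
    (267, 1, 0x10002),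
    (275, 0, 0x2081),
    (281, 0, 0x7),
    (291, 0, 0x40100080),
    (297, 0, 0x300002),
    (306, 1, 0x182),
    (326, 2, 0x1010080),
    (329, 0, 0x250004),
    (337, 0, 0x4284),
    (353, 0, 0x84200080),
    (387, 1, 0x2010100),
    (393, 0, 0x130001),
    (401, 0, 0x8301),
    (417, 0, 0x104100100),
    (449, 0, 0x204010200),
    (519, 1, 0x800002),
    (523, 0, 0x20008),
    (531, 0, 0x2408),
    (533, 0, 0xc02),
    (547, 0, 0x48000008),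
    (549, 0, 0x18000002),
    (562, 1, 0x1a),
    (582, 2, 0x1800008),
    (581, 0, 0x10840800),
    (585, 0, 0xc0008),
    (593, 0, 0x5808),
    (609, 0, 0xb0000008),
    (643, 1, 0x2800010),
    (645, 0, 0x8820400),
    (649, 0, 0xa0010),
    (657, 0, 0x9410),
    (673, 0, 0x128000010),
    (705, 0, 0x220881000),
    (771, 1, 0x3000002),
    (771, 0, 0x41022000),
    (777, 0, 0x60002),
    (785, 0, 0xe002),
    (801, 0, 0x1c0000002),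
    (833, 0, 0x281044000),
    (897, 0, 0x302028000)]
  sl := [0x38101da, 0x499324c9, 0x18b70c47, 0x7f003f, 0xffff, 0x1fc7001da, 0x2b5ed5aec, 0x32edb9771, 0x3c737e387, 0x3fb8efc1a, 0xe01da, 0x3ffffffff, 0x1f800003f, 0x70fc1a, 0x380001a, 0x1fc1a, 0x1f801001a]
  t := B_s10_4_t

theorem B_s10_4_okD : B_s10_4.ckD = true := by decide +kernel

theorem B_s10_4_okT : B_s10_4.ckT TTab B_s10_4.t 0 0 = true := by decide +kernel

theorem lext_s10_4 : LExt 5 10 (vecL 5 B_s10_4.V) (vecP 5 B_s10_4.P) :=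
  lext_of_chk' B_s10_4 B_s10_4_okD B_s10_4_okT (by decide)

end QG
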