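import Pool.Agent.Lib.QG.BC8

/-! MP_2e6874_co, part (B): data for s11_3. -/

set_option autoImplicit false
set_option maxRecDepth 100000

namespace QG

def B_s11_3_t : Tr :=
  .br 0 (.br 12 (.col 24 (.br 1 (.col 12 (.col 13 (.col 14 (.col 15 (.col 16 (.br 4 (.col 3 (.col 5 (.col 6 (.col 7 (.col 8 (.col 10 (.col 11 (.col 19 (.sol 9)))))))))
  (.col 3 (.col 5 (.col 6 (.col 7 (.col 8 (.col 10 (.col 11 (.col 19 (.sol 7)))))))))))))))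
  (.col 12 (.col 13 (.col 14 (.col 15 (.col 16 (.br 4 (.col 3 (.col 5 (.col 6 (.col 18 (.col 19 (.col 20 (.col 21 (.col 22 (.sol 8)))))))))
  (.col 18 (.col 20 (.col 21 (.col 22 (.br 8 (.bad 4 1 [9, 5, 6, 8, 7, 3])
  (.br 6 (.bad 4 8 [9, 4, 6, 8, 7, 0])
  (.br 7 (.bad 4 8 [9, 5, 6, 8, 7, 0])
  (.bad 0 576 [1, 2, 3, 4, 5, 8]))))))))))))))))
  (.col 24 (.br 11 (.col 15 (.col 17 (.bad 4 128 [9, 1, 3, 4, 6, 0])))
  (.br 13 (.col 16 (.col 17 (.bad 4 128 [9, 1, 3, 5, 6, 0])))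
  (.br 15 (.col 22 (.col 23 (.bad 4 256 [9, 2, 3, 6, 5, 0])))
  (.br 19 (.col 21 (.col 23 (.bad 4 256 [9, 2, 3, 6, 4, 0])))
  (.br 1 (.col 12 (.col 13 (.col 14 (.br 4 (.col 3 (.col 5 (.col 6 (.col 8 (.col 9 (.col 19 (.sol 3)))))))
  (.col 3 (.col 5 (.col 9 (.br 17 (.col 8 (.col 19 (.sol 2)))
  (.bad 0 320 [9, 2, 3, 4, 5, 7])))))))))
  (.col 14 (.br 10 (.col 13 (.br 4 (.col 3 (.col 5 (.col 6 (.col 7 (.col 8 (.col 19 (.sol 1)))))))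
  (.col 6 (.col 7 (.br 17 (.bad 4 1 [9, 5, 7, 8, 6, 3])
  (.bad 0 320 [9, 2, 3, 4, 5, 7]))))))
  (.bad 0 192 [9, 1, 3, 4, 5, 8]))))))))))
  (.br 12 (.col 24 (.br 1 (.col 12 (.col 14 (.col 17 (.br 4 (.col 3 (.col 6 (.bad 4 16 [9, 3, 5, 7, 6, 2])))
  (.br 5 (.col 7 (.col 8 (.col 9 (.col 10 (.col 11 (.col 19 (.sol 6)))))))
  (.col 7 (.col 8 (.col 9 (.col 10 (.col 11 (.br 18 (.bad 4 4 [9, 4, 8, 6, 7, 1])
  (.br 14 (.bad 4 4 [9, 5, 8, 6, 7, 1])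
  (.bad 0 768 [0, 2, 3, 4, 5, 6])))))))))))))
  (.col 17 (.br 9 (.bad 4 128 [9, 0, 1, 6, 8, 3])
  (.br 3 (.bad 5 128 [3, 9, 5, 0, 8, 6, 1])
  (.br 2 (.bad 5 128 [3, 9, 4, 0, 8, 6, 1])
  (.bad 0 640 [0, 1, 3, 4, 5, 6])))))))
  (.br 5 (.col 20 (.col 23 (.br 20 (.bad 4 256 [9, 0, 7, 6, 3, 2])
  (.br 14 (.bad 4 256 [9, 2, 5, 6, 3, 0])
  (.br 18 (.bad 4 256 [9, 2, 4, 6, 3, 0])
  (.br 21 (.col 24 (.bad 2 256 [0, 2, 6, 9, 5, 7]))
  (.bad 2 256 [0, 2, 6, 9, 4, 7])))))))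
  (.br 10 (.col 7 (.col 13 (.col 17 (.br 6 (.bad 4 64 [9, 1, 7, 4, 3, 2])
  (.br 7 (.bad 4 64 [9, 1, 7, 5, 3, 2])
  (.br 2 (.bad 4 128 [9, 1, 6, 4, 3, 0])
  (.br 3 (.bad 4 128 [9, 1, 6, 5, 3, 0])
  (.br 4 (.bad 4 2 [9, 5, 8, 6, 7, 2])
  (.bad 0 520 [0, 4, 5, 6, 7, 8])))))))))
  (.br 1 (.col 9 (.col 14 (.col 17 (.br 8 (.col 2 (.col 4 (.col 8 (.col 10 (.col 11 (.br 4 (.col 6 (.col 12 (.col 15 (.col 16 (.sol 0)))))
  (.col 6 (.col 12 (.br 16 (.bad 4 256 [9, 0, 2, 5, 7, 3])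
  (.br 21 (.bad 4 16 [9, 2, 5, 7, 8, 3])
  (.bad 0 384 [9, 0, 3, 4, 5, 6])))))))))))
  (.col 8 (.br 15 (.bad 4 64 [9, 2, 3, 5, 8, 1])
  (.br 19 (.bad 4 64 [9, 2, 3, 4, 8, 1])
  (.bad 0 320 [9, 2, 3, 4, 5, 7]))))))))
  (.br 17 (.col 8 (.col 19 (.col 23 (.br 3 (.bad 4 4 [9, 5, 7, 6, 8, 1])
  (.br 2 (.bad 4 4 [9, 4, 7, 6, 8, 1])
  (.br 6 (.bad 4 64 [9, 2, 8, 4, 3, 1])
  (.br 7 (.bad 4 64 [9, 2, 8, 5, 3, 1])
  (.br 4 (.col 6 (.br 11 (.bad 4 16 [9, 3, 5, 7, 6, 2])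
  (.br 13 (.bad 4 32 [9, 3, 4, 7, 6, 2])
  (.bad 0 192 [9, 1, 3, 4, 5, 8]))))
  (.bad 0 520 [0, 4, 5, 6, 7, 8])))))))))
  (.br 20 (.col 12 (.col 18 (.col 24 (.br 2 (.bad 4 128 [9, 0, 8, 4, 3, 1])
  (.br 3 (.bad 4 128 [9, 0, 8, 5, 3, 1])
  (.br 8 (.bad 4 1 [9, 5, 6, 8, 7, 3])
  (.br 14 (.bad 4 256 [9, 0, 7, 5, 2, 3])
  (.br 18 (.bad 4 256 [9, 0, 7, 4, 2, 3])
  (.bad 0 516 [1, 4, 5, 6, 7, 8])))))))))
  (.br 11 (.col 17 (.br 2 (.col 14 (.col 15 (.col 16 (.br 4 (.col 3 (.col 5 (.col 6 (.col 10 (.col 11 (.col 21 (.col 22 (.sol 4))))))))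
  (.col 3 (.col 6 (.col 10 (.br 15 (.col 11 (.col 22 (.bad 5 32 [4, 9, 7, 2, 8, 6, 3])))
  (.bad 0 320 [9, 2, 3, 4, 5, 7])))))))))
  (.col 15 (.br 16 (.col 16 (.bad 7 128 [4, 0, 5, 1, 9, 6, 3, 8]))
  (.bad 0 384 [9, 0, 3, 4, 5, 6])))))
  (.br 13 (.br 2 (.col 14 (.col 15 (.col 16 (.bad 0 384 [9, 0, 3, 4, 5, 6]))))
  (.br 3 (.col 16 (.col 24 (.br 4 (.col 3 (.col 5 (.col 6 (.col 10 (.col 11 (.col 21 (.col 22 (.sol 5))))))))
  (.col 5 (.col 6 (.col 11 (.br 19 (.col 10 (.col 21 (.bad 5 16 [5, 9, 7, 2, 8, 6, 3])))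
  (.bad 0 320 [9, 2, 3, 4, 5, 7]))))))))
  (.col 16 (.br 21 (.bad 7 128 [5, 0, 4, 1, 9, 6, 3, 8])
  (.bad 0 384 [9, 0, 3, 4, 5, 6])))))
  (.bad 0 192 [9, 1, 3, 4, 5, 8])))))))))

def B_s11_3 : Dat where
  r := 4
  V := [[.i, .o, .o, .o],
    [.o, .i, .o, .o],
    [.o, .o, .i, .o],
    [.o, .o, .o, .i],
    [.i, .i, .o, .o],
    [.i, .w, .o, .o],
    [.i, .o, .i, .o],
    [.o, .o, .i, .i],
    [.o, .v, .o, .i]]
  P := [[.i, .o, .o, .o],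
    [.o, .i, .o, .o],
    [.o, .o, .i, .o],
    [.o, .o, .o, .i],
    [.i, .i, .o, .o],
    [.i, .w, .o, .o],
    [.i, .o, .i, .o],
    [.o, .o, .i, .i],
    [.o, .v, .o, .i],
    [.o, .o, .o, .o]]
  F := [[.i, .o, .o, .o],
    [.o, .i, .o, .o],
    [.i, .i, .o, .o],
    [.i, .v, .o, .o],
    [.o, .o, .i, .o],
    [.i, .o, .i, .o],
    [.i, .i, .i, .o],
    [.i, .v, .i, .o],
    [.o, .o, .o, .i],
    [.o, .o, .i, .i],
    [.i, .o, .i, .i],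
    [.i, .i, .i, .i],
    [.i, .w, .i, .i],
    [.i, .v, .i, .i],
    [.i, .v, .o, .w],
    [.i, .v, .i, .w],
    [.i, .v, .w, .w],
    [.o, .i, .o, .v],
    [.i, .i, .o, .v],
    [.i, .i, .i, .v],
    [.o, .i, .v, .v],
    [.i, .i, .v, .v]]
  ht := 0x190018101500114014501a00160012400e001c000d000c200b3007700680058014a013b00ac009c00cd018e
  ct := 0xc0000000000000000000000000000000000000000000000000000001000000000000000000000000000150000000000000000000000000a000000000000000000000000000000000000000000000000000000000f00000000000000000000000000130000000000000500000110014880000000000000000000000000000400000000000004000000e00102000000000000000400000120010200000000001fc200000088008000000000000000000000000000000000000000000000000000000000000d000000000000000000000000000b0000000000000100000010028080000000000000000000000000000900000000000003000000300244800000000000000200000020024480000007f000008000000801200000000000000000000000000000000800000000000007000000800204000000000000000600000080020400000000100140800023f80100000000000000000004000000801fff80000000300102000020400fe00000000000200102000020400fe000000000080080000010000000000000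
  cl := [(7, 0, 0x101),
    (11, 1, 0x12),
    (21, 0, 0x40104),
    (25, 0, 0x54),
    (37, 0, 0x4108),
    (41, 0, 0x98),
    (52, 2, 0x310),
    (67, 0, 0x520),
    (70, 1, 0x20102),
    (73, 0, 0xe2),
    (81, 0, 0x80940),
    (97, 0, 0xa180),
    (131, 1, 0x100202),
    (131, 0, 0x601),
    (137, 0, 0xf),
    (145, 0, 0x200a04),
    (161, 0, 0x12208),
    (193, 0, 0x3c02),
    (259, 1, 0x120010),
    (261, 0, 0x64001),
    (265, 0, 0x31),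
    (273, 0, 0x2c0010),
    (289, 0, 0x1c010),
    (321, 0, 0xa9020),
    (385, 0, 0x311001)]
  sl := [0x120312, 0x731, 0x6410f, 0xff, 0x2c0b54, 0x1e398, 0xabde2, 0x313e0f, 0x3fd031, 0x3fffff]
  t := B_s11_3_t

theorem B_s11_3_okD : B_s11_3.ckD = true := by decide +kernel

theorem B_s11_3_okT : B_s11_3.ckT TTab B_s11_3.t 0 0 = true := by decide +kernel

theorem lext_s11_3 : LExt 4 9 (vecL 4 B_s11_3.V) (vecP 4 B_s11_3.P) :=
  lext_of_chk' B_s11_3 B_s11_3_okD B_s11_3_okT (by decide)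

end QG
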