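import Pool.Agent.Lib.QG.BC8

/-! MP_2e6874_co, part (B): data for th00_123. -/

set_option autoImplicit false
set_option maxRecDepth 100000

namespace QG

def B_th00_123_t : Tr :=
  .br 0 (.br 4 (.col 28 (.br 9 (.col 26 (.col 27 (.col 32 (.col 36 (.br 21 (.col 23 (.col 24 (.col 25 (.col 29 (.col 30 (.col 31 (.col 33 (.col 37 (.br 1 (.col 1 (.col 4 (.col 7 (.col 9 (.col 10 (.col 11 (.col 12 (.col 15 (.col 16 (.col 17 (.col 19 (.col 21 (.col 22 (.col 38 (.col 40 (.col 43 (.sol 11)))))))))))))))))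
  (.col 1 (.col 4 (.col 7 (.col 9 (.col 10 (.col 11 (.col 12 (.col 15 (.col 16 (.col 17 (.col 19 (.col 21 (.col 22 (.col 38 (.col 40 (.col 43 (.sol 7))))))))))))))))))))))))))
  (.col 23 (.col 24 (.col 25 (.col 29 (.col 30 (.col 31 (.col 33 (.col 37 (.br 1 (.col 1 (.col 4 (.col 7 (.col 9 (.col 10 (.col 11 (.col 12 (.col 15 (.col 16 (.col 17 (.col 19 (.col 21 (.col 22 (.col 38 (.col 43 (.col 46 (.sol 4)))))))))))))))))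
  (.col 4 (.col 10 (.col 15 (.col 16 (.col 17 (.col 22 (.col 43 (.br 31 (.bad 4 34 [9, 4, 7, 6, 8, 0])
  (.br 38 (.bad 4 72 [9, 4, 7, 5, 8, 1])
  (.br 27 (.bad 4 320 [9, 0, 2, 4, 7, 1])
  (.bad 0 352 [9, 1, 2, 3, 4, 7])))))))))))))))))))))))))
  (.col 26 (.col 27 (.col 32 (.col 36 (.br 1 (.col 4 (.col 9 (.col 10 (.col 15 (.col 16 (.col 17 (.col 22 (.col 45 (.col 49 (.br 21 (.col 0 (.col 1 (.col 11 (.col 12 (.col 14 (.col 18 (.col 20 (.col 21 (.col 23 (.col 24 (.col 25 (.col 31 (.col 33 (.col 37 (.col 40 (.col 46 (.sol 3)))))))))))))))))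
  (.col 1 (.col 14 (.br 27 (.bad 4 68 [9, 0, 8, 4, 3, 7])
  (.col 18 (.col 29 (.br 30 (.bad 4 257 [9, 4, 5, 6, 7, 1])
  (.br 40 (.col 37 (.col 55 (.bad 4 96 [9, 0, 1, 8, 7, 2])))
  (.bad 2 384 [0, 2, 5, 9, 4, 6]))))))))))))))))))
  (.col 4 (.col 10 (.col 17 (.col 45 (.br 17 (.bad 4 272 [9, 1, 5, 7, 3, 2])
  (.br 11 (.bad 4 20 [9, 3, 7, 8, 6, 0])
  (.br 14 (.bad 4 272 [9, 0, 1, 3, 7, 2])
  (.br 18 (.col 22 (.bad 5 48 [3, 9, 7, 1, 8, 6, 2]))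
  (.bad 0 336 [9, 1, 2, 3, 5, 7]))))))))))))))))
  (.col 28 (.br 7 (.col 17 (.col 45 (.bad 4 24 [9, 1, 2, 6, 8, 5])))
  (.br 15 (.col 26 (.col 27 (.col 59 (.br 16 (.bad 4 144 [9, 2, 3, 6, 5, 0])
  (.bad 2 144 [9, 2, 3, 5, 6, 8])))))
  (.br 16 (.col 32 (.col 36 (.col 27 (.bad 0 400 [9, 0, 2, 3, 5, 6]))))
  (.br 20 (.col 36 (.col 54 (.col 59 (.col 27 (.br 1 (.bad 4 272 [9, 0, 2, 6, 7, 1])
  (.col 4 (.br 13 (.bad 4 20 [9, 3, 7, 5, 6, 0])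
  (.br 3 (.col 3 (.bad 5 272 [1, 9, 3, 0, 7, 6, 2]))
  (.bad 2 48 [2, 3, 8, 9, 6, 7])))))))))
  (.br 35 (.col 24 (.col 25 (.col 56 (.col 58 (.br 40 (.bad 4 384 [9, 0, 3, 5, 6, 2])
  (.br 9 (.bad 4 129 [9, 2, 4, 8, 3, 5])
  (.col 27 (.br 28 (.bad 5 129 [5, 9, 6, 2, 3, 8, 4])
  (.br 29 (.bad 5 6 [6, 9, 5, 0, 3, 4, 8])
  (.bad 2 192 [0, 2, 4, 9, 5, 8]))))))))))
  (.br 25 (.col 39 (.col 53 (.col 4 (.col 25 (.br 36 (.bad 4 264 [9, 0, 6, 5, 1, 2])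
  (.br 37 (.bad 4 264 [9, 0, 6, 5, 7, 2])
  (.br 23 (.bad 4 12 [9, 0, 6, 4, 7, 8])
  (.col 12 (.br 39 (.bad 4 72 [9, 0, 8, 5, 7, 1])
  (.bad 2 40 [1, 4, 6, 9, 7, 8]))))))))))
  (.br 24 (.col 12 (.col 24 (.col 25 (.col 35 (.br 38 (.bad 4 72 [9, 0, 7, 5, 8, 1])
  (.br 33 (.bad 4 72 [9, 0, 7, 5, 2, 1])
  (.br 2 (.bad 4 72 [9, 0, 7, 4, 2, 1])
  (.bad 0 584 [0, 1, 2, 4, 5, 8]))))))))
  (.br 28 (.col 29 (.col 33 (.col 37 (.br 21 (.bad 4 129 [9, 2, 3, 6, 5, 4])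
  (.col 25 (.bad 2 192 [2, 3, 8, 9, 4, 5]))))))
  (.br 30 (.col 33 (.col 50 (.col 56 (.col 61 (.col 27 (.br 19 (.br 38 (.bad 4 320 [9, 0, 7, 5, 3, 2])
  (.br 1 (.bad 4 257 [9, 4, 5, 6, 7, 1])
  (.col 49 (.br 31 (.br 11 (.bad 4 320 [9, 1, 5, 4, 2, 0])
  (.bad 0 336 [9, 1, 2, 3, 5, 7]))
  (.bad 0 352 [9, 1, 2, 3, 4, 7])))))
  (.bad 0 400 [9, 0, 2, 3, 5, 6])))))))
  (.br 9 (.col 27 (.col 32 (.br 18 (.col 22 (.col 49 (.bad 4 48 [9, 1, 2, 6, 8, 3])))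
  (.br 37 (.col 31 (.col 60 (.col 30 (.bad 0 224 [9, 0, 2, 3, 4, 8]))))
  (.br 38 (.col 48 (.col 53 (.col 55 (.col 57 (.col 30 (.br 39 (.col 21 (.col 3 (.bad 4 264 [9, 1, 4, 6, 5, 2])))
  (.bad 0 224 [9, 0, 2, 3, 4, 8])))))))
  (.br 21 (.col 23 (.col 25 (.col 30 (.col 31 (.col 37 (.br 1 (.col 1 (.col 4 (.col 7 (.col 9 (.col 10 (.col 11 (.col 15 (.col 16 (.col 19 (.col 38 (.col 40 (.col 43 (.sol 2)))))))))))))
  (.col 1 (.col 4 (.col 7 (.col 9 (.col 11 (.col 16 (.br 31 (.col 19 (.col 46 (.col 51 (.col 0 (.col 3 (.sol 1))))))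
  (.bad 0 352 [9, 1, 2, 3, 4, 7]))))))))))))))
  (.col 23 (.col 25 (.col 30 (.br 1 (.col 1 (.col 7 (.col 9 (.col 10 (.col 11 (.col 15 (.br 39 (.bad 4 96 [9, 2, 4, 7, 3, 1])
  (.br 40 (.col 55 (.bad 2 320 [0, 1, 4, 9, 3, 5]))
  (.bad 0 224 [9, 0, 2, 3, 4, 8])))))))))
  (.bad 0 776 [0, 2, 4, 5, 6, 7])))))))))))
  (.col 27 (.br 26 (.col 23 (.col 25 (.bad 4 6 [9, 0, 8, 4, 3, 6])))
  (.bad 2 129 [3, 4, 5, 9, 6, 8])))))))))))))))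
  (.br 4 (.col 28 (.br 1 (.col 4 (.col 10 (.col 17 (.col 45 (.br 20 (.col 54 (.col 59 (.bad 4 272 [9, 0, 2, 6, 7, 1])))
  (.br 21 (.col 0 (.col 1 (.col 12 (.col 14 (.col 21 (.col 24 (.col 25 (.col 31 (.col 40 (.br 9 (.col 11 (.col 15 (.col 16 (.col 18 (.col 20 (.col 22 (.col 23 (.col 26 (.col 27 (.col 32 (.col 33 (.col 37 (.col 43 (.col 46 (.sol 0)))))))))))))))
  (.col 11 (.col 23 (.col 33 (.br 40 (.bad 4 384 [9, 0, 3, 5, 6, 2])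
  (.br 29 (.bad 4 68 [9, 0, 3, 5, 7, 8])
  (.col 19 (.br 18 (.col 22 (.col 32 (.col 59 (.bad 5 6 [0, 9, 3, 8, 4, 5, 6]))))
  (.bad 0 352 [9, 1, 2, 3, 4, 7]))))))))))))))))))
  (.col 0 (.col 1 (.col 12 (.col 24 (.br 30 (.col 50 (.col 56 (.bad 4 257 [9, 4, 5, 6, 7, 1])))
  (.br 12 (.col 8 (.col 9 (.col 16 (.col 22 (.col 26 (.col 27 (.col 32 (.col 42 (.br 22 (.col 14 (.col 20 (.col 30 (.col 46 (.bad 4 320 [9, 1, 2, 4, 5, 0])))))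
  (.br 27 (.col 18 (.col 20 (.col 21 (.col 29 (.col 30 (.col 31 (.col 37 (.col 46 (.sol 5)))))))))
  (.bad 0 832 [0, 1, 2, 3, 4, 7])))))))))))
  (.col 8 (.col 9 (.col 22 (.col 32 (.br 32 (.col 6 (.col 7 (.col 14 (.col 20 (.col 21 (.col 30 (.col 37 (.col 46 (.br 14 (.bad 4 258 [9, 0, 6, 5, 3, 7])
  (.bad 2 320 [0, 1, 4, 9, 5, 7]))))))))))
  (.col 6 (.col 7 (.col 21 (.col 31 (.br 40 (.col 37 (.col 55 (.bad 4 96 [9, 0, 1, 8, 7, 2])))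
  (.br 9 (.col 11 (.col 15 (.col 16 (.col 18 (.col 23 (.col 26 (.col 27 (.br 31 (.col 19 (.col 34 (.sol 9)))
  (.bad 0 352 [9, 1, 2, 3, 4, 7])))))))))
  (.col 15 (.col 26 (.br 11 (.col 44 (.br 22 (.col 34 (.col 51 (.col 52 (.col 57 (.col 18 (.sol 10))))))
  (.col 52 (.br 31 (.bad 4 320 [9, 1, 5, 4, 2, 0])
  (.bad 0 352 [9, 1, 2, 3, 4, 7])))))
  (.bad 0 336 [9, 1, 2, 3, 5, 7])))))))))))))))))))))))))))
  (.col 10 (.br 6 (.bad 4 24 [9, 1, 8, 7, 5, 2])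
  (.br 2 (.bad 4 24 [9, 2, 6, 7, 5, 1])
  (.br 7 (.bad 5 24 [5, 9, 7, 1, 8, 6, 2])
  (.bad 2 24 [1, 2, 7, 9, 6, 8])))))))
  (.br 12 (.col 27 (.col 32 (.br 5 (.bad 4 144 [9, 2, 5, 6, 3, 0])
  (.br 2 (.col 4 (.col 9 (.bad 4 20 [9, 3, 6, 5, 7, 0])))
  (.br 3 (.col 8 (.col 10 (.col 15 (.col 17 (.col 22 (.br 15 (.bad 4 17 [9, 5, 6, 8, 7, 2])
  (.br 11 (.bad 4 272 [9, 1, 5, 6, 2, 0])
  (.br 20 (.bad 5 272 [1, 9, 5, 0, 7, 6, 2])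
  (.bad 0 336 [9, 1, 2, 3, 5, 7])))))))))
  (.col 8 (.br 11 (.col 16 (.col 44 (.bad 4 20 [9, 5, 7, 8, 6, 0])))
  (.br 8 (.col 59 (.br 1 (.col 9 (.col 22 (.col 42 (.col 45 (.br 21 (.col 1 (.col 12 (.col 14 (.bad 4 72 [9, 0, 2, 4, 8, 1]))))
  (.col 1 (.br 24 (.bad 4 9 [9, 2, 5, 7, 6, 1])
  (.br 22 (.col 14 (.col 20 (.col 25 (.col 30 (.col 40 (.col 48 (.bad 4 160 [9, 2, 4, 8, 3, 0])))))))
  (.col 40 (.col 48 (.col 53 (.br 27 (.bad 4 320 [9, 0, 2, 4, 3, 1])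
  (.col 20 (.col 30 (.br 31 (.bad 4 34 [9, 4, 7, 6, 8, 0])
  (.br 40 (.col 37 (.col 61 (.bad 2 65 [2, 5, 8, 9, 3, 7])))
  (.bad 0 352 [9, 1, 2, 3, 4, 7])))))))))))))))))
  (.col 9 (.col 45 (.br 14 (.bad 4 272 [9, 0, 1, 3, 7, 2])
  (.br 18 (.bad 4 48 [9, 1, 2, 6, 8, 3])
  (.bad 0 336 [9, 1, 2, 3, 5, 7])))))))
  (.br 20 (.col 54 (.col 59 (.br 1 (.bad 4 272 [9, 0, 2, 6, 7, 1])
  (.bad 2 24 [2, 5, 8, 9, 6, 7]))))
  (.bad 2 144 [9, 2, 5, 3, 6, 8]))))))))))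
  (.br 32 (.col 25 (.col 30 (.col 31 (.br 9 (.bad 4 6 [9, 0, 6, 5, 3, 8])
  (.br 19 (.bad 4 160 [9, 2, 3, 8, 4, 0])
  (.br 10 (.bad 5 6 [8, 9, 4, 0, 3, 5, 6])
  (.br 1 (.col 7 (.col 9 (.col 10 (.col 20 (.col 44 (.col 48 (.col 49 (.br 16 (.bad 4 48 [9, 2, 3, 7, 6, 1])
  (.br 28 (.bad 4 96 [9, 0, 7, 3, 2, 1])
  (.br 40 (.col 55 (.col 61 (.br 6 (.bad 4 10 [9, 4, 8, 5, 7, 6])
  (.col 45 (.br 14 (.bad 4 320 [9, 0, 1, 5, 7, 2])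
  (.bad 0 336 [9, 1, 2, 3, 5, 7]))))))
  (.bad 0 224 [9, 0, 2, 3, 4, 8])))))))))))
  (.col 7 (.br 2 (.bad 4 12 [9, 4, 6, 5, 7, 8])
  (.br 3 (.col 3 (.col 6 (.col 15 (.col 17 (.col 19 (.col 21 (.br 15 (.bad 4 17 [9, 5, 6, 8, 7, 2])
  (.br 8 (.bad 4 264 [9, 1, 5, 7, 4, 2])
  (.br 20 (.col 54 (.col 61 (.br 27 (.bad 4 320 [9, 0, 2, 4, 7, 1])
  (.bad 0 352 [9, 1, 2, 3, 4, 7]))))
  (.bad 0 400 [9, 0, 2, 3, 5, 6]))))))))))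
  (.col 6 (.br 6 (.bad 4 10 [9, 4, 8, 5, 7, 6])
  (.br 31 (.bad 4 34 [9, 3, 7, 6, 8, 0])
  (.br 17 (.bad 4 34 [9, 3, 7, 4, 8, 0])
  (.br 34 (.bad 4 10 [9, 0, 8, 5, 7, 6])
  (.br 14 (.col 42 (.br 8 (.bad 4 272 [9, 0, 1, 3, 7, 2])
  (.br 20 (.col 36 (.col 54 (.col 55 (.col 61 (.br 28 (.bad 4 65 [9, 4, 8, 7, 5, 2])
  (.bad 0 224 [9, 0, 2, 3, 4, 8]))))))
  (.bad 0 400 [9, 0, 2, 3, 5, 6]))))
  (.bad 2 258 [0, 5, 7, 9, 3, 4])))))))))))))))))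
  (.br 1 (.col 4 (.col 7 (.col 9 (.col 10 (.br 16 (.bad 4 48 [9, 2, 3, 7, 6, 1])
  (.br 39 (.bad 4 40 [9, 2, 4, 7, 6, 1])
  (.br 5 (.bad 4 24 [9, 2, 5, 7, 6, 1])
  (.br 21 (.col 0 (.col 1 (.col 12 (.col 14 (.br 36 (.bad 4 10 [9, 0, 7, 5, 8, 6])
  (.col 48 (.br 7 (.bad 4 72 [9, 0, 2, 4, 8, 1])
  (.bad 0 584 [1, 2, 4, 5, 7, 8]))))))))
  (.col 1 (.br 24 (.bad 4 9 [9, 2, 5, 7, 6, 1])
  (.br 22 (.br 9 (.col 11 (.col 15 (.col 23 (.col 34 (.col 37 (.col 51 (.br 36 (.bad 4 34 [9, 3, 8, 6, 7, 0])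
  (.col 48 (.br 18 (.bad 4 96 [9, 1, 2, 4, 8, 0])
  (.bad 0 352 [9, 1, 2, 3, 4, 7]))))))))))
  (.col 34 (.br 10 (.col 44 (.col 52 (.col 57 (.col 18 (.br 40 (.col 55 (.col 60 (.col 61 (.col 46 (.col 50 (.col 53 (.col 56 (.col 58 (.col 38 (.col 40 (.sol 8)))))))))))
  (.bad 0 224 [9, 0, 2, 3, 4, 8]))))))
  (.col 44 (.col 52 (.col 57 (.br 28 (.bad 4 33 [9, 4, 8, 6, 7, 1])
  (.br 40 (.col 61 (.col 50 (.col 56 (.bad 4 257 [9, 4, 5, 6, 7, 1]))))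
  (.bad 0 224 [9, 0, 2, 3, 4, 8])))))))))
  (.bad 0 584 [0, 1, 2, 4, 5, 7]))))))))))))
  (.br 6 (.col 3 (.col 45 (.br 2 (.bad 4 24 [9, 1, 8, 6, 2, 5])
  (.br 5 (.bad 5 24 [1, 9, 8, 2, 6, 7, 5])
  (.bad 2 24 [2, 5, 8, 9, 6, 7])))))
  (.br 10 (.col 27 (.col 43 (.col 44 (.br 7 (.bad 4 272 [9, 1, 2, 6, 3, 0])
  (.br 2 (.bad 4 20 [9, 3, 6, 8, 7, 0])
  (.br 13 (.bad 4 20 [9, 5, 6, 8, 7, 0])
  (.br 18 (.bad 4 272 [9, 1, 2, 6, 5, 0])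
  (.br 20 (.col 59 (.br 3 (.bad 4 17 [9, 5, 6, 8, 7, 2])
  (.bad 2 80 [1, 3, 5, 9, 2, 8])))
  (.bad 0 336 [9, 1, 2, 3, 5, 7])))))))))
  (.br 8 (.col 28 (.col 45 (.col 59 (.br 17 (.bad 4 272 [9, 1, 5, 7, 3, 2])
  (.br 14 (.bad 4 272 [9, 0, 1, 3, 7, 2])
  (.br 3 (.bad 4 24 [9, 1, 5, 7, 8, 2])
  (.br 9 (.col 36 (.br 18 (.col 54 (.bad 7 272 [5, 0, 3, 2, 9, 6, 1, 7]))
  (.bad 2 48 [1, 3, 6, 9, 7, 8])))
  (.bad 2 18 [3, 5, 6, 9, 7, 8]))))))))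
  (.br 15 (.col 26 (.col 42 (.col 59 (.br 3 (.bad 4 17 [9, 5, 6, 8, 7, 2])
  (.br 17 (.bad 4 272 [9, 0, 7, 5, 1, 2])
  (.bad 2 18 [3, 5, 6, 9, 7, 8]))))))
  (.br 9 (.br 5 (.col 36 (.col 59 (.br 2 (.col 16 (.col 17 (.col 22 (.col 49 (.col 54 (.col 6 (.br 37 (.bad 4 40 [9, 1, 4, 7, 8, 2])
  (.br 21 (.col 0 (.col 1 (.col 12 (.col 14 (.bad 4 264 [9, 0, 1, 4, 6, 2])))))
  (.col 0 (.col 23 (.br 35 (.bad 4 257 [9, 1, 4, 7, 3, 5])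
  (.br 22 (.col 14 (.col 20 (.col 21 (.col 35 (.col 37 (.col 50 (.col 51 (.sol 6))))))))
  (.bad 2 384 [0, 2, 5, 9, 3, 4])))))))))))))
  (.col 16 (.col 17 (.col 22 (.col 54 (.br 17 (.bad 5 272 [1, 9, 5, 0, 7, 6, 2])
  (.bad 0 784 [0, 1, 2, 3, 5, 7])))))))))
  (.col 36 (.br 19 (.col 49 (.br 14 (.bad 4 272 [9, 0, 1, 5, 7, 2])
  (.br 7 (.col 54 (.bad 7 272 [3, 0, 5, 2, 9, 6, 1, 7]))
  (.bad 2 272 [0, 1, 6, 9, 3, 7]))))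
  (.bad 0 400 [9, 0, 2, 3, 5, 6]))))
  (.br 19 (.col 49 (.col 59 (.br 14 (.bad 4 272 [9, 0, 1, 5, 7, 2])
  (.br 3 (.bad 4 48 [9, 1, 3, 7, 8, 2])
  (.br 7 (.col 17 (.bad 2 144 [0, 2, 6, 9, 3, 8]))
  (.bad 2 272 [0, 1, 6, 9, 3, 7]))))))
  (.bad 2 144 [0, 3, 5, 9, 2, 8])))))))))))

def B_th00_123 : Dat where
  r := 5
  V := [[.i, .o, .o, .o, .o],
    [.o, .i, .o, .o, .o],
    [.o, .o, .i, .o, .o],
    [.o, .o, .o, .i, .o],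
    [.o, .o, .o, .o, .i],
    [.v, .o, .o, .w, .w],
    [.i, .i, .o, .o, .i],
    [.o, .i, .i, .o, .o],
    [.v, .o, .i, .v, .v]]
  P := [[.i, .o, .o, .o, .o],
    [.o, .i, .o, .o, .o],
    [.o, .o, .i, .o, .o],
    [.o, .o, .o, .i, .o],
    [.o, .o, .o, .o, .i],
    [.v, .o, .o, .w, .w],
    [.i, .i, .o, .o, .i],
    [.o, .i, .i, .o, .o],
    [.v, .o, .i, .v, .v],
    [.i, .o, .o, .o, .i],
    [.i, .o, .o, .i, .i],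
    [.o, .o, .o, .o, .o]]
  F := [[.i, .o, .o, .o, .o],
    [.o, .i, .o, .o, .o],
    [.i, .i, .o, .o, .o],
    [.o, .o, .i, .o, .o],
    [.o, .i, .i, .o, .o],
    [.i, .i, .i, .o, .o],
    [.i, .o, .v, .o, .o],
    [.i, .i, .v, .o, .o],
    [.i, .v, .v, .o, .o],
    [.o, .o, .o, .i, .o],
    [.i, .o, .o, .i, .o],
    [.i, .i, .o, .i, .o],
    [.i, .o, .o, .w, .o],
    [.i, .i, .o, .w, .o],
    [.o, .o, .i, .w, .o],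
    [.o, .i, .i, .w, .o],
    [.i, .i, .i, .w, .o],
    [.i, .o, .w, .w, .o],
    [.i, .i, .w, .w, .o],
    [.i, .w, .w, .w, .o],
    [.i, .i, .i, .v, .o],
    [.o, .o, .o, .o, .i],
    [.i, .o, .o, .o, .i],
    [.o, .i, .o, .o, .i],
    [.o, .i, .i, .o, .i],
    [.o, .i, .v, .o, .i],
    [.o, .o, .o, .i, .i],
    [.o, .i, .o, .i, .i],
    [.o, .i, .i, .i, .i],
    [.i, .o, .o, .v, .i],
    [.o, .i, .i, .v, .i],
    [.i, .o, .w, .v, .i],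
    [.i, .o, .o, .o, .w],
    [.i, .v, .o, .o, .w],
    [.o, .o, .i, .o, .w],
    [.o, .i, .i, .o, .w],
    [.i, .o, .w, .o, .w],
    [.i, .w, .w, .o, .w],
    [.i, .v, .w, .o, .w],
    [.i, .v, .v, .o, .w],
    [.i, .w, .w, .i, .v]]
  ht := 0x1e000e8016801a8012a0189010b006c00ae016201c100e600e1016501a7014900c9004d01ce008f01d001b00170013200f001910153007400b60154019600d701980158011a00d800b9007b005c013d009e
  ct := 0x2800000000000000000000000000140000000000001600000160058f00000000000000000000000000001300000000000025000001a0068d0000000000000008000000a00287800000016005918001fcd003400000000000000000000000000000001200000000000026000001b007cd8000000000000007000000b003870000000160058c800058d801c00000000000000000010000001004408000000010090080006bf8034000000000001001808000280801c000000058080440000034000000000000000000000000000000000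000001000000000000027000001d0074e00000000000000050000009002448000000160058c0001fc480120000000000000000004000000c00302000000020008020001fcd0034000000000000000020001fc480120000001fca802a00000fe00000000000000000000000003000000d000c1800000021000c1800074d8006000000000002000c1800024480fe000000058b800600000120000000000000000001000ff8000300800600000008008006000003400000000000000000800600000120000000000002a00000000000000000000000000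
  cl := [(15, 2, 0x400200008),
    (15, 1, 0xa00002),
    (23, 1, 0x202),
    (27, 0, 0x49),
    (29, 0, 0x7),
    (39, 2, 0x4000008),
    (43, 0, 0x1100000008),
    (45, 0, 0x300000002),
    (51, 0, 0x21008),
    (53, 0, 0x3002),
    (58, 1, 0x1a),
    (71, 1, 0x8800200),
    (75, 1, 0x3800008),
    (75, 0, 0x400008),
    (77, 0, 0x200c00004),
    (86, 2, 0x4208),
    (85, 0, 0x2a04),
    (89, 0, 0xac),
    (99, 1, 0x18000008),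
    (99, 0, 0xa0000008),
    (101, 0, 0x228002000),
    (105, 0, 0xc200000008),
    (113, 0, 0x52008),
    (141, 3, 0x4200200),
    (139, 1, 0x801200010),
    (141, 0, 0x100600001),
    (147, 1, 0x8210),
    (149, 0, 0x1601),
    (153, 0, 0x131),
    (163, 1, 0x14000010),
    (165, 0, 0x124001000),
    (169, 0, 0xa100000010),
    (177, 0, 0x91010),
    (195, 1, 0x51000200),
    (197, 0, 0x20400200),
    (201, 0, 0x8001400020),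
    (209, 0, 0x110220),
    (225, 0, 0x18030010000),
    (263, 2, 0x404004000),
    (267, 1, 0xc02000002),
    (267, 0, 0x1400400040),
    (269, 0, 0x400002),
    (275, 1, 0xc002),
    (275, 0, 0x24440),
    (277, 0, 0xc02),
    (281, 0, 0x1c2),
    (291, 0, 0x1084020000),
    (294, 1, 0xc000002),
    (297, 0, 0x7000000002),
    (305, 0, 0xe0002),
    (323, 1, 0x4a004000),
    (323, 0, 0x80404000),
    (325, 0, 0x8400800),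
    (329, 0, 0x4002400080),
    (337, 0, 0x144880),
    (353, 0, 0x14088040000),
    (387, 1, 0x844008000),
    (389, 0, 0x4400400),
    (393, 0, 0x2800400100),
    (401, 0, 0x188500),
    (417, 0, 0x12004080000),
    (449, 0, 0x10040500000)]
  sl := [0xc5fa0c21a, 0x15a4625649, 0x32ce03e07, 0xff03e001ff, 0x1fffff, 0x1f3bc0f301a, 0x1c2fbd56aac, 0x1a975799731, 0x17cce5ecdc2, 0xa040c21a, 0x1c400c1a, 0x1ffffffffff]
  t := B_th00_123_t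

theorem B_th00_123_okD : B_th00_123.ckD = true := by decide +kernel

theorem B_th00_123_okT : B_th00_123.ckT TTab B_th00_123.t 0 0 = true := by decide +kernel

theorem lext_th00_123 : LExt 5 9 (vecL 5 B_th00_123.V) (vecP 5 B_th00_123.P) :=
  lext_of_chk' B_th00_123 B_th00_123_okD B_th00_123_okT (by decide)

end QG
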