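import Pool.Agent.Lib.QG.BC8

/-! MP_2e6874_co, part (B): data for th00_222. -/

set_option autoImplicit false
set_option maxRecDepth 100000

namespace QG

def B_th00_222_t : Tr :=
  .br 0 (.br 1 (.col 5 (.br 4 (.col 4 (.col 12 (.col 19 (.br 11 (.col 2 (.col 10 (.col 11 (.col 17 (.col 18 (.col 24 (.col 28 (.col 29 (.col 35 (.col 40 (.br 24 (.col 1 (.col 6 (.col 7 (.col 8 (.col 13 (.col 14 (.col 15 (.col 20 (.col 22 (.col 23 (.col 25 (.col 26 (.col 32 (.col 34 (.col 36 (.col 39 (.sol 11)))))))))))))))))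
  (.col 1 (.col 6 (.col 7 (.col 8 (.col 13 (.col 14 (.col 15 (.col 20 (.col 22 (.col 23 (.col 25 (.col 26 (.col 32 (.col 34 (.col 36 (.col 39 (.sol 4))))))))))))))))))))))))))))
  (.col 2 (.col 10 (.col 11 (.col 17 (.col 18 (.col 24 (.col 28 (.col 29 (.col 35 (.col 40 (.br 24 (.col 1 (.col 6 (.col 7 (.col 8 (.col 15 (.col 16 (.col 20 (.col 22 (.col 23 (.col 25 (.col 26 (.col 32 (.col 34 (.col 36 (.col 39 (.col 43 (.sol 3)))))))))))))))))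
  (.col 1 (.col 7 (.col 8 (.col 15 (.col 16 (.col 23 (.col 39 (.col 43 (.br 42 (.bad 4 257 [9, 3, 4, 5, 6, 1])
  (.br 28 (.bad 4 288 [9, 1, 2, 3, 4, 0])
  (.br 43 (.bad 4 65 [9, 3, 4, 7, 8, 2])
  (.bad 2 320 [2, 5, 7, 9, 0, 3])))))))))))))))))))))))))))
  (.col 4 (.col 12 (.col 19 (.br 11 (.col 2 (.col 10 (.col 11 (.col 17 (.col 18 (.col 24 (.col 28 (.col 29 (.col 35 (.col 40 (.br 24 (.col 1 (.col 6 (.col 7 (.col 8 (.col 13 (.col 14 (.col 15 (.col 20 (.col 22 (.col 23 (.col 25 (.col 26 (.col 32 (.col 34 (.col 36 (.col 39 (.sol 2)))))))))))))))))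
  (.col 1 (.col 8 (.col 22 (.br 30 (.bad 4 10 [9, 2, 4, 8, 5, 6])
  (.col 42 (.br 36 (.bad 4 258 [9, 0, 6, 3, 7, 5])
  (.col 62 (.br 32 (.bad 4 96 [9, 2, 4, 8, 3, 1])
  (.bad 0 296 [9, 1, 2, 4, 6, 7]))))))))))))))))))))
  (.col 2 (.col 11 (.br 17 (.bad 4 18 [9, 2, 3, 8, 5, 6])
  (.br 15 (.bad 4 18 [9, 2, 3, 7, 6, 5])
  (.br 23 (.bad 4 80 [9, 2, 3, 8, 5, 1])
  (.br 20 (.col 63 (.bad 5 18 [2, 9, 3, 5, 8, 7, 6]))
  (.bad 0 304 [9, 1, 2, 3, 6, 7])))))))))))))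
  (.col 5 (.br 4 (.col 4 (.col 12 (.col 19 (.br 11 (.col 2 (.col 10 (.col 11 (.col 17 (.col 18 (.col 24 (.col 28 (.col 29 (.col 35 (.col 40 (.br 24 (.col 1 (.col 6 (.col 7 (.col 8 (.col 13 (.col 14 (.col 15 (.col 20 (.col 23 (.col 25 (.col 26 (.col 32 (.col 33 (.col 34 (.col 36 (.col 39 (.sol 1)))))))))))))))))
  (.col 1 (.col 15 (.col 26 (.col 33 (.br 35 (.bad 4 12 [9, 1, 4, 6, 7, 8])
  (.col 13 (.br 29 (.bad 4 68 [9, 0, 8, 3, 5, 7])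
  (.col 23 (.br 38 (.bad 4 384 [9, 1, 4, 6, 3, 2])
  (.bad 0 200 [9, 1, 2, 4, 5, 8])))))))))))))))))))))
  (.col 2 (.col 17 (.col 29 (.br 19 (.bad 4 144 [9, 1, 3, 6, 8, 0])
  (.br 13 (.bad 4 20 [9, 1, 3, 5, 8, 7])
  (.col 9 (.br 14 (.bad 4 20 [9, 1, 3, 6, 7, 8])
  (.br 22 (.bad 5 144 [1, 9, 3, 0, 5, 6, 2])
  (.bad 0 208 [9, 1, 2, 3, 5, 8])))))))))))))
  (.col 4 (.br 7 (.bad 4 24 [9, 1, 2, 6, 7, 0])
  (.br 6 (.bad 4 24 [9, 1, 2, 5, 7, 0])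
  (.br 10 (.bad 4 24 [9, 1, 2, 6, 8, 0])
  (.br 9 (.bad 4 24 [9, 1, 2, 5, 8, 0])
  (.bad 0 536 [0, 1, 5, 6, 7, 8])))))))))
  (.br 1 (.col 5 (.br 21 (.col 11 (.col 18 (.bad 4 20 [9, 5, 6, 7, 8, 1])))
  (.br 29 (.col 8 (.col 16 (.bad 4 12 [9, 5, 6, 7, 8, 1])))
  (.br 5 (.col 4 (.col 31 (.col 48 (.br 11 (.col 2 (.col 17 (.bad 4 18 [9, 2, 6, 7, 3, 5])))
  (.col 47 (.br 12 (.col 10 (.col 29 (.col 30 (.col 35 (.col 40 (.col 53 (.br 24 (.col 1 (.col 6 (.col 7 (.col 8 (.col 25 (.col 26 (.col 27 (.col 32 (.col 33 (.col 34 (.col 36 (.col 39 (.col 43 (.col 49 (.col 52 (.sol 7))))))))))))))))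
  (.col 33 (.col 34 (.br 30 (.bad 4 34 [9, 3, 8, 4, 7, 6])
  (.br 32 (.bad 4 96 [9, 3, 8, 4, 7, 1])
  (.br 26 (.col 45 (.bad 4 6 [9, 3, 8, 7, 4, 0]))
  (.bad 0 296 [9, 1, 2, 4, 6, 7])))))))))))))
  (.col 35 (.br 23 (.col 53 (.bad 7 48 [6, 0, 3, 1, 9, 8, 2, 7]))
  (.bad 2 48 [0, 2, 8, 9, 6, 7])))))))))
  (.col 31 (.br 22 (.col 35 (.col 40 (.bad 4 144 [9, 0, 2, 6, 5, 1])))
  (.br 31 (.col 23 (.col 34 (.col 39 (.col 41 (.br 34 (.bad 4 160 [9, 0, 8, 3, 6, 2])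
  (.col 59 (.br 42 (.bad 4 96 [9, 0, 8, 3, 7, 1])
  (.br 25 (.bad 4 72 [9, 1, 2, 5, 7, 0])
  (.col 45 (.br 23 (.bad 4 96 [9, 3, 7, 4, 8, 1])
  (.br 15 (.bad 4 192 [9, 0, 1, 3, 5, 2])
  (.br 40 (.bad 4 96 [9, 0, 2, 3, 7, 1])
  (.br 11 (.col 42 (.col 47 (.col 53 (.bad 0 296 [9, 1, 2, 4, 6, 7]))))
  (.bad 2 65 [2, 4, 8, 9, 5, 7]))))))))))))))
  (.br 18 (.col 29 (.col 30 (.col 63 (.col 28 (.br 4 (.col 10 (.col 17 (.bad 4 18 [9, 5, 6, 7, 8, 2])))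
  (.br 13 (.col 47 (.col 53 (.col 57 (.col 46 (.br 24 (.col 1 (.col 6 (.col 13 (.col 14 (.bad 4 72 [9, 0, 2, 4, 8, 1])))))
  (.col 6 (.col 13 (.br 41 (.bad 4 33 [9, 2, 4, 7, 6, 3])
  (.br 28 (.col 37 (.col 50 (.col 51 (.col 52 (.col 55 (.col 56 (.col 58 (.col 60 (.col 64 (.col 65 (.sol 8)))))))))))
  (.bad 2 160 [0, 2, 3, 9, 4, 6]))))))))))
  (.bad 0 560 [0, 1, 2, 3, 6, 7])))))))
  (.col 63 (.br 8 (.col 4 (.col 46 (.col 47 (.col 48 (.col 53 (.br 12 (.bad 4 18 [9, 2, 5, 8, 3, 6])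
  (.bad 2 48 [1, 2, 7, 9, 6, 8])))))))
  (.col 48 (.br 23 (.col 24 (.col 53 (.br 12 (.bad 4 48 [9, 1, 2, 6, 8, 0])
  (.bad 2 48 [1, 2, 7, 9, 3, 8]))))
  (.br 32 (.col 23 (.col 56 (.col 58 (.br 35 (.bad 4 72 [9, 0, 2, 5, 8, 1])
  (.br 27 (.col 37 (.col 28 (.br 12 (.col 10 (.col 11 (.bad 0 304 [9, 1, 2, 3, 6, 7])))
  (.bad 0 176 [9, 0, 2, 3, 6, 8]))))
  (.bad 0 200 [9, 1, 2, 4, 5, 8]))))))
  (.br 36 (.col 26 (.col 44 (.col 60 (.br 11 (.bad 4 258 [9, 0, 6, 3, 7, 5])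
  (.col 47 (.br 17 (.br 15 (.bad 4 130 [9, 0, 6, 3, 8, 5])
  (.col 28 (.br 12 (.col 10 (.bad 4 10 [9, 5, 6, 7, 8, 2]))
  (.bad 0 176 [9, 0, 2, 3, 6, 8]))))
  (.bad 0 304 [9, 1, 2, 3, 6, 7])))))))
  (.col 62 (.br 12 (.col 2 (.col 11 (.col 29 (.col 30 (.col 35 (.br 17 (.col 10 (.br 24 (.col 1 (.col 6 (.col 7 (.col 8 (.col 15 (.col 20 (.col 25 (.col 27 (.col 32 (.col 33 (.col 36 (.col 43 (.sol 9)))))))))))))
  (.col 27 (.col 33 (.br 27 (.col 15 (.bad 4 6 [9, 3, 8, 7, 4, 0]))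
  (.bad 0 200 [9, 1, 2, 4, 5, 8]))))))
  (.bad 0 304 [9, 1, 2, 3, 6, 7])))))))
  (.col 30 (.br 16 (.col 28 (.br 4 (.col 9 (.col 10 (.col 17 (.br 24 (.col 1 (.col 6 (.col 7 (.col 8 (.col 13 (.col 14 (.col 15 (.col 20 (.col 22 (.col 25 (.col 32 (.col 36 (.sol 0)))))))))))))
  (.col 6 (.col 7 (.col 13 (.col 14 (.col 20 (.col 25 (.col 32 (.col 36 (.br 27 (.col 15 (.col 37 (.col 45 (.sol 10))))
  (.bad 0 200 [9, 1, 2, 4, 5, 8]))))))))))))))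
  (.col 9 (.col 17 (.br 17 (.bad 4 18 [9, 5, 8, 7, 6, 2])
  (.bad 0 304 [9, 1, 2, 3, 6, 7]))))))
  (.bad 0 176 [9, 0, 2, 3, 6, 8])))))))))))))))))))
  (.br 5 (.col 4 (.col 31 (.br 10 (.bad 4 24 [9, 1, 7, 6, 8, 0])
  (.br 3 (.bad 4 24 [9, 1, 7, 6, 2, 0])
  (.br 2 (.bad 4 24 [9, 1, 7, 5, 2, 0])
  (.br 9 (.bad 4 24 [9, 1, 7, 5, 8, 0])
  (.bad 0 536 [0, 1, 2, 5, 6, 8])))))))
  (.br 8 (.col 4 (.col 48 (.br 7 (.bad 4 24 [9, 1, 8, 6, 7, 0])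
  (.br 6 (.bad 4 24 [9, 1, 8, 5, 7, 0])
  (.br 2 (.bad 4 24 [9, 1, 8, 5, 2, 0])
  (.br 3 (.bad 4 24 [9, 1, 8, 6, 2, 0])
  (.bad 0 536 [0, 2, 5, 6, 7, 8])))))))
  (.br 18 (.col 29 (.col 46 (.col 63 (.br 4 (.bad 4 18 [9, 5, 6, 7, 8, 2])
  (.br 16 (.bad 4 144 [9, 0, 5, 8, 1, 2])
  (.br 7 (.bad 4 144 [9, 1, 8, 6, 3, 0])
  (.br 10 (.bad 4 272 [9, 1, 7, 6, 3, 2])
  (.br 14 (.bad 4 144 [9, 1, 8, 6, 2, 0])
  (.br 22 (.col 24 (.col 35 (.br 2 (.bad 4 48 [9, 2, 3, 7, 6, 1])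
  (.br 13 (.bad 4 48 [9, 0, 2, 6, 7, 1])
  (.br 9 (.br 3 (.bad 4 24 [9, 2, 6, 8, 5, 0])
  (.bad 2 20 [3, 7, 8, 9, 5, 6]))
  (.bad 0 304 [9, 1, 2, 3, 6, 7]))))))
  (.bad 0 208 [9, 1, 2, 3, 5, 8]))))))))))
  (.br 33 (.col 59 (.col 60 (.br 20 (.bad 4 384 [9, 0, 1, 4, 5, 2])
  (.br 19 (.bad 4 384 [9, 0, 1, 4, 6, 2])
  (.br 38 (.bad 4 384 [9, 0, 1, 3, 6, 2])
  (.br 37 (.bad 4 384 [9, 0, 1, 3, 5, 2])
  (.bad 0 896 [0, 2, 3, 4, 5, 6])))))))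
  (.br 36 (.col 26 (.col 44 (.col 60 (.col 62 (.br 10 (.bad 4 264 [9, 1, 7, 6, 4, 2])
  (.br 15 (.bad 4 130 [9, 0, 6, 3, 8, 5])
  (.br 4 (.bad 4 10 [9, 5, 6, 7, 8, 2])
  (.br 6 (.bad 4 136 [9, 1, 8, 5, 4, 2])
  (.br 9 (.bad 4 264 [9, 1, 7, 5, 4, 0])
  (.br 20 (.bad 4 384 [9, 1, 3, 5, 4, 2])
  (.br 26 (.bad 4 264 [9, 1, 7, 5, 2, 0])
  (.br 32 (.col 23 (.col 56 (.col 58 (.br 35 (.bad 4 72 [9, 0, 2, 5, 8, 1])
  (.br 7 (.col 40 (.br 12 (.bad 4 144 [9, 1, 2, 6, 3, 0])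
  (.br 16 (.col 9 (.br 17 (.bad 4 48 [9, 0, 7, 8, 1, 2])
  (.bad 0 304 [9, 1, 2, 3, 6, 7])))
  (.bad 0 176 [9, 0, 2, 3, 6, 8]))))
  (.bad 0 200 [9, 1, 2, 4, 5, 8]))))))
  (.bad 0 296 [9, 1, 2, 4, 6, 7])))))))))))))
  (.br 12 (.col 2 (.col 29 (.col 30 (.br 19 (.bad 4 144 [9, 1, 2, 6, 8, 0])
  (.br 7 (.bad 4 144 [9, 1, 2, 6, 3, 0])
  (.br 22 (.col 35 (.br 3 (.bad 4 20 [9, 1, 7, 6, 3, 8])
  (.br 2 (.col 11 (.col 12 (.col 19 (.col 24 (.col 53 (.br 24 (.col 1 (.col 6 (.col 7 (.col 8 (.col 13 (.col 14 (.col 15 (.col 20 (.col 22 (.col 23 (.col 32 (.col 34 (.col 36 (.col 39 (.sol 5)))))))))))))))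
  (.col 6 (.col 8 (.col 20 (.col 22 (.col 23 (.col 34 (.br 35 (.bad 4 192 [9, 0, 2, 4, 5, 1])
  (.br 25 (.bad 4 6 [9, 3, 8, 7, 4, 0])
  (.col 15 (.br 38 (.bad 4 384 [9, 3, 6, 4, 5, 2])
  (.bad 0 200 [9, 1, 2, 4, 5, 8])))))))))))))))))
  (.col 12 (.br 10 (.bad 4 24 [9, 5, 7, 6, 8, 0])
  (.bad 2 80 [1, 2, 8, 9, 3, 7]))))))
  (.bad 0 208 [9, 1, 2, 3, 5, 8])))))))
  (.br 6 (.col 31 (.col 35 (.br 15 (.bad 4 144 [9, 0, 1, 3, 5, 2])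
  (.br 19 (.col 40 (.bad 7 144 [8, 0, 3, 2, 9, 6, 1, 5]))
  (.bad 2 144 [0, 1, 6, 9, 5, 8])))))
  (.br 2 (.col 5 (.col 11 (.col 12 (.br 16 (.bad 4 48 [9, 0, 7, 3, 2, 1])
  (.br 7 (.bad 4 24 [9, 2, 5, 7, 6, 0])
  (.br 22 (.bad 4 48 [9, 2, 3, 7, 6, 1])
  (.br 20 (.br 15 (.bad 4 144 [9, 0, 1, 8, 5, 2])
  (.bad 2 144 [0, 1, 6, 9, 3, 5]))
  (.bad 0 176 [9, 0, 2, 3, 6, 8]))))))))
  (.br 4 (.col 10 (.col 12 (.br 13 (.col 9 (.col 11 (.col 24 (.col 28 (.col 35 (.col 47 (.br 14 (.bad 4 20 [9, 5, 8, 7, 6, 1])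
  (.br 7 (.col 40 (.bad 2 144 [1, 2, 5, 9, 6, 8]))
  (.bad 2 144 [1, 2, 5, 9, 3, 6])))))))))
  (.col 9 (.br 20 (.bad 4 48 [9, 0, 1, 8, 7, 2])
  (.br 23 (.col 24 (.br 11 (.col 17 (.col 18 (.col 19 (.col 25 (.col 40 (.col 42 (.br 34 (.bad 4 257 [9, 1, 4, 5, 7, 3])
  (.br 25 (.col 15 (.col 16 (.col 22 (.col 23 (.col 34 (.col 36 (.col 39 (.col 45 (.col 54 (.sol 6))))))))))
  (.col 15 (.col 16 (.col 22 (.col 23 (.col 39 (.br 26 (.bad 4 260 [9, 3, 5, 4, 6, 7])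
  (.br 37 (.bad 4 384 [9, 3, 5, 4, 6, 2])
  (.bad 0 296 [9, 1, 2, 4, 6, 7]))))))))))))))))
  (.bad 2 272 [2, 3, 7, 9, 1, 5])))
  (.bad 0 304 [9, 1, 2, 3, 6, 7])))))))
  (.br 9 (.col 48 (.br 3 (.bad 4 24 [9, 2, 6, 8, 5, 0])
  (.br 7 (.bad 4 24 [9, 5, 8, 6, 7, 0])
  (.bad 0 536 [0, 1, 2, 6, 7, 8]))))
  (.bad 0 536 [0, 1, 2, 5, 7, 8]))))))))))))

def B_th00_222 : Dat where
  r := 5
  V := [[.i, .o, .o, .o, .o],
    [.o, .i, .o, .o, .o],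
    [.o, .o, .i, .o, .o],
    [.o, .o, .o, .i, .o],
    [.o, .o, .o, .o, .i],
    [.i, .i, .o, .i, .o],
    [.w, .i, .o, .o, .w],
    [.i, .o, .i, .i, .o],
    [.v, .o, .i, .o, .v]]
  P := [[.i, .o, .o, .o, .o],
    [.o, .i, .o, .o, .o],
    [.o, .o, .i, .o, .o],
    [.o, .o, .o, .i, .o],
    [.o, .o, .o, .o, .i],
    [.i, .i, .o, .i, .o],
    [.w, .i, .o, .o, .w],
    [.i, .o, .i, .i, .o],
    [.v, .o, .i, .o, .v],
    [.i, .o, .o, .i, .o],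
    [.i, .o, .o, .o, .i],
    [.o, .o, .o, .o, .o]]
  F := [[.i, .o, .o, .o, .o],
    [.o, .i, .o, .o, .o],
    [.i, .i, .o, .o, .o],
    [.i, .w, .o, .o, .o],
    [.o, .o, .i, .o, .o],
    [.i, .o, .i, .o, .o],
    [.i, .i, .i, .o, .o],
    [.i, .w, .i, .o, .o],
    [.i, .o, .v, .o, .o],
    [.i, .i, .v, .o, .o],
    [.i, .w, .v, .o, .o],
    [.o, .o, .o, .i, .o],
    [.i, .o, .o, .i, .o],
    [.o, .i, .o, .i, .o],
    [.i, .w, .o, .i, .o],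
    [.o, .o, .i, .i, .o],
    [.o, .i, .i, .i, .o],
    [.i, .o, .v, .i, .o],
    [.i, .o, .v, .w, .o],
    [.i, .w, .v, .w, .o],
    [.i, .v, .v, .w, .o],
    [.i, .w, .o, .v, .o],
    [.i, .w, .w, .v, .o],
    [.i, .w, .v, .v, .o],
    [.o, .o, .o, .o, .i],
    [.i, .o, .o, .o, .i],
    [.i, .i, .o, .o, .i],
    [.i, .o, .i, .o, .i],
    [.i, .o, .o, .i, .i],
    [.i, .i, .o, .o, .w],
    [.o, .o, .i, .o, .w],
    [.i, .i, .i, .o, .w],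
    [.i, .i, .w, .o, .w],
    [.o, .o, .i, .i, .w],
    [.o, .i, .i, .i, .w],
    [.o, .i, .o, .o, .v],
    [.i, .o, .i, .o, .v],
    [.i, .i, .i, .o, .v],
    [.i, .v, .i, .o, .v],
    [.o, .i, .w, .o, .v],
    [.o, .i, .o, .i, .v],
    [.o, .i, .i, .i, .v],
    [.o, .i, .w, .i, .v],
    [.o, .i, .w, .w, .v]]
  ht := 0x1c1016100e10065014901c801a8018a00cd01a10183016800e8012b006c01e600ca012c014e00af017000f0007401b001d00192013200b100d300d4013500b6015701580138011a00d800b8009a007b005c003c019d001e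
  ct := 0x1c000000000000000000000000001300000000000026000001c0071580000000000000000000000000001400000000000025000001c007110000000000000001000000100480800000001009008000700804200000000000000000000000000000001700000000000020000001c00715000000000000000a000000b002c5800000019006538001fc580160000000000000000009000000d0044680000001a0078f0000706803c0000000000010020080002ff80160000000640803c000001600000000000000000000000000000000000000160000000000001f000001c007148000000000000007000000e003c7800000023006d18000711801e0000000000000000006000000c003080000000180060c0001fcc0030000000000001001408000300801e000000063f803000000300000000000000000000000000400000150010200000001d00102000071400080000000000030010200002c580fe00000006518008000001600000000000000000020010200003068008000000060c00fe000003000000000000000000800800000160000000000003000000000000000000000000000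
  cl := [(15, 3, 0x1000800),
    (15, 0, 0x3000001),
    (23, 0, 0x1801),
    (27, 1, 0x12),
    (27, 0, 0x131),
    (29, 0, 0xf),
    (39, 1, 0x10001002000),
    (46, 2, 0x41000010),
    (45, 0, 0x25000004),
    (51, 1, 0x12010),
    (51, 0, 0x21010),
    (53, 0, 0x203004),
    (57, 0, 0x254),
    (71, 1, 0x10800000800),
    (75, 1, 0x8800000010),
    (75, 0, 0xa000010),
    (77, 0, 0x822000008),
    (86, 2, 0x8810),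
    (85, 0, 0x204808),
    (89, 0, 0x498),
    (99, 1, 0x70000000010),
    (99, 0, 0x10000010),
    (101, 0, 0x10030200000),
    (105, 0, 0x1a0000010),
    (113, 0, 0xe00010),
    (135, 2, 0x201008000),
    (139, 0, 0x1009000020),
    (142, 1, 0x801000002),
    (147, 1, 0x18002),
    (147, 0, 0x49020),
    (149, 0, 0x5002),
    (153, 0, 0xe2),
    (163, 1, 0x20401010000),
    (165, 0, 0x11001000),
    (169, 0, 0x2081000040),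
    (177, 0, 0x511040),
    (195, 1, 0xa0800008000),
    (195, 0, 0x18008000),
    (197, 0, 0x810004000),
    (201, 0, 0x4888000080),
    (209, 0, 0x48c080),
    (225, 0, 0x20090400000),
    (263, 2, 0x240000800),
    (267, 1, 0x8040000002),
    (267, 0, 0x1042000100),
    (269, 0, 0x6000002),
    (275, 0, 0x60900),
    (278, 1, 0x2802),
    (281, 0, 0x702),
    (291, 1, 0x40440002000),
    (291, 0, 0x50020000),
    (293, 0, 0x14002000),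
    (297, 0, 0x2144000200),
    (305, 0, 0x922200),
    (323, 1, 0xc8000000800),
    (325, 0, 0x12000800),
    (329, 0, 0xc102000400),
    (337, 0, 0x880c00),
    (353, 0, 0x40110800000),
    (387, 1, 0x80600000002),
    (387, 0, 0x1210040000),
    (389, 0, 0x10000002),
    (393, 0, 0x7000000002),
    (401, 0, 0x1c0002),
    (417, 0, 0x2410100000),
    (449, 0, 0x84010080000)]
  sl := [0xf8e4101a812, 0x125b069931, 0x1083720780f, 0xf9ef0007ff, 0xffffff, 0x725f5f33254, 0xfc9bae8cc98, 0xa7e995dd0e2, 0xcf7569e2f02, 0x8851025012, 0x1e01a812, 0xfffffffffff]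
  t := B_th00_222_t

theorem B_th00_222_okD : B_th00_222.ckD = true := by decide +kernel

theorem B_th00_222_okT : B_th00_222.ckT TTab B_th00_222.t 0 0 = true := by decide +kernel

theorem lext_th00_222 : LExt 5 9 (vecL 5 B_th00_222.V) (vecP 5 B_th00_222.P) :=
  lext_of_chk' B_th00_222 B_th00_222_okD B_th00_222_okT (by decide)

end QG
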