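import Pool.Agent.Lib.QG.BC8

/-! MP_2e6874_co, part (B): data for th10_122. -/

set_option autoImplicit false
set_option maxRecDepth 100000

namespace QG

def B_th10_122_t : Tr :=
  .br 0 (.br 1 (.col 3 (.br 4 (.col 2 (.col 6 (.col 10 (.br 11 (.col 0 (.col 4 (.col 5 (.col 8 (.col 9 (.col 11 (.col 12 (.col 15 (.col 16 (.col 17 (.sol 9)))))))))))
  (.col 0 (.col 4 (.col 5 (.col 8 (.col 9 (.col 11 (.col 12 (.col 15 (.col 16 (.col 17 (.sol 3)))))))))))))))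
  (.col 2 (.col 6 (.col 10 (.br 11 (.col 0 (.col 4 (.col 5 (.col 8 (.col 9 (.col 11 (.col 12 (.col 15 (.col 16 (.col 17 (.sol 2)))))))))))
  (.col 0 (.col 5 (.col 9 (.br 14 (.bad 4 32 [8, 1, 6, 3, 2, 0])
  (.br 16 (.bad 4 2 [8, 2, 3, 7, 4, 5])
  (.br 17 (.bad 4 16 [8, 2, 3, 6, 5, 1])
  (.br 22 (.col 23 (.bad 5 2 [2, 8, 3, 4, 7, 6, 5]))
  (.bad 0 96 [8, 1, 2, 3, 4, 7]))))))))))))))
  (.col 3 (.br 4 (.col 2 (.col 6 (.col 10 (.br 11 (.col 0 (.col 4 (.col 5 (.col 8 (.col 9 (.col 11 (.col 12 (.col 15 (.col 16 (.col 17 (.sol 1)))))))))))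
  (.col 0 (.col 4 (.col 8 (.col 12 (.br 13 (.bad 4 128 [8, 1, 3, 4, 2, 0])
  (.br 23 (.bad 4 128 [8, 0, 5, 3, 1, 2])
  (.col 7 (.br 22 (.bad 4 128 [8, 1, 3, 5, 6, 2])
  (.br 17 (.col 11 (.bad 5 4 [1, 8, 3, 7, 4, 5, 6]))
  (.bad 0 96 [8, 1, 2, 3, 4, 7]))))))))))))))
  (.col 2 (.br 6 (.bad 4 8 [8, 1, 2, 4, 6, 0])
  (.br 7 (.bad 4 8 [8, 1, 2, 5, 6, 0])
  (.br 9 (.bad 4 8 [8, 1, 2, 4, 7, 0])
  (.br 10 (.bad 4 8 [8, 1, 2, 5, 7, 0])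
  (.bad 0 264 [0, 1, 4, 5, 6, 7])))))))))
  (.br 1 (.col 3 (.br 15 (.col 5 (.col 9 (.bad 4 4 [8, 4, 5, 6, 7, 1])))
  (.br 5 (.col 2 (.col 14 (.col 20 (.br 11 (.col 0 (.col 4 (.col 5 (.col 12 (.col 13 (.col 15 (.col 16 (.col 17 (.col 21 (.sol 6))))))))))
  (.col 12 (.col 13 (.col 15 (.col 16 (.br 12 (.bad 4 32 [8, 1, 2, 3, 6, 0])
  (.col 19 (.br 18 (.col 21 (.col 22 (.bad 4 128 [8, 0, 2, 4, 5, 1])))
  (.bad 2 32 [1, 2, 7, 8, 4, 6]))))))))))))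
  (.col 14 (.br 17 (.col 11 (.col 16 (.br 12 (.bad 4 32 [8, 1, 2, 4, 6, 0])
  (.br 10 (.col 22 (.bad 7 32 [4, 0, 3, 1, 8, 6, 2, 7]))
  (.bad 2 32 [1, 2, 7, 8, 3, 6])))))
  (.br 20 (.col 12 (.col 13 (.col 23 (.br 4 (.col 7 (.col 8 (.bad 4 32 [8, 0, 1, 6, 7, 2])))
  (.br 12 (.col 18 (.col 19 (.col 20 (.col 21 (.col 22 (.sol 7))))))
  (.bad 0 288 [0, 1, 2, 3, 4, 6]))))))
  (.col 23 (.br 8 (.col 2 (.col 18 (.col 19 (.col 20 (.col 21 (.br 11 (.bad 4 2 [8, 2, 4, 7, 3, 5])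
  (.bad 2 16 [1, 2, 6, 8, 5, 7])))))))
  (.col 20 (.br 18 (.col 21 (.col 22 (.bad 4 128 [8, 0, 2, 4, 5, 1])))
  (.br 12 (.col 0 (.col 9 (.col 18 (.col 19 (.col 22 (.br 14 (.col 8 (.sol 8))
  (.bad 0 96 [8, 1, 2, 3, 4, 7])))))))
  (.col 19 (.br 23 (.col 17 (.br 4 (.col 4 (.col 7 (.col 8 (.sol 0))))
  (.col 7 (.br 14 (.bad 4 32 [8, 0, 7, 6, 1, 2])
  (.bad 0 96 [8, 1, 2, 3, 4, 7])))))
  (.bad 0 160 [8, 0, 2, 3, 4, 6]))))))))))))))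
  (.br 5 (.col 2 (.col 14 (.br 10 (.bad 4 8 [8, 1, 6, 5, 7, 0])
  (.br 2 (.bad 4 8 [8, 1, 6, 4, 2, 0])
  (.br 3 (.bad 4 8 [8, 1, 6, 5, 2, 0])
  (.br 9 (.bad 4 8 [8, 1, 6, 4, 7, 0])
  (.bad 0 264 [0, 1, 2, 4, 5, 7])))))))
  (.br 8 (.col 2 (.col 20 (.br 6 (.bad 4 8 [8, 1, 7, 4, 6, 0])
  (.br 2 (.bad 4 8 [8, 1, 7, 4, 2, 0])
  (.br 3 (.bad 4 8 [8, 1, 7, 5, 2, 0])
  (.br 7 (.bad 4 8 [8, 1, 7, 5, 6, 0])
  (.bad 0 264 [0, 1, 2, 4, 5, 6])))))))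
  (.br 20 (.col 12 (.col 18 (.col 23 (.br 23 (.bad 4 128 [8, 0, 5, 6, 1, 2])
  (.br 13 (.bad 4 128 [8, 1, 6, 4, 2, 0])
  (.br 10 (.bad 4 128 [8, 1, 6, 5, 3, 2])
  (.br 18 (.col 21 (.br 4 (.bad 4 2 [8, 4, 5, 6, 7, 2])
  (.col 11 (.br 3 (.bad 4 32 [8, 2, 3, 7, 4, 1])
  (.br 19 (.bad 4 32 [8, 0, 2, 4, 7, 1])
  (.br 7 (.col 14 (.br 2 (.bad 4 8 [8, 2, 4, 6, 5, 0])
  (.bad 0 264 [0, 1, 2, 4, 6, 7])))
  (.bad 0 96 [8, 1, 2, 3, 4, 7])))))))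
  (.bad 0 160 [8, 0, 2, 3, 4, 6]))))))))
  (.br 12 (.col 0 (.col 18 (.col 19 (.br 9 (.bad 4 128 [8, 1, 2, 4, 3, 0])
  (.br 2 (.bad 4 4 [8, 1, 7, 4, 3, 6])
  (.br 21 (.bad 4 128 [8, 1, 2, 4, 6, 0])
  (.br 18 (.col 22 (.br 3 (.col 9 (.col 10 (.col 11 (.col 14 (.col 16 (.sol 5))))))
  (.col 10 (.br 6 (.bad 4 8 [8, 4, 6, 5, 7, 0])
  (.bad 0 264 [0, 1, 2, 4, 6, 7])))))
  (.bad 0 144 [8, 1, 2, 3, 5, 6]))))))))
  (.br 10 (.col 20 (.col 22 (.br 16 (.bad 4 128 [8, 0, 1, 3, 5, 2])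
  (.br 21 (.col 21 (.bad 7 128 [6, 0, 3, 2, 8, 4, 1, 5]))
  (.bad 2 128 [0, 1, 4, 8, 5, 6])))))
  (.br 3 (.col 3 (.col 10 (.br 6 (.bad 4 8 [8, 2, 5, 6, 4, 0])
  (.br 9 (.bad 4 8 [8, 2, 5, 7, 4, 0])
  (.bad 0 264 [0, 1, 2, 4, 6, 7])))))
  (.br 4 (.col 8 (.col 10 (.br 19 (.col 7 (.col 9 (.col 11 (.col 13 (.col 16 (.col 17 (.br 13 (.bad 4 128 [8, 0, 5, 4, 2, 1])
  (.br 9 (.col 6 (.col 15 (.bad 2 128 [1, 2, 5, 8, 4, 6])))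
  (.bad 2 128 [1, 2, 5, 8, 3, 4])))))))))
  (.col 7 (.br 22 (.bad 4 32 [8, 0, 1, 6, 7, 2])
  (.br 17 (.col 11 (.br 16 (.col 4 (.col 5 (.col 6 (.col 15 (.sol 4)))))
  (.bad 0 384 [0, 1, 2, 3, 5, 6])))
  (.bad 0 96 [8, 1, 2, 3, 4, 7])))))))
  (.br 7 (.col 14 (.br 2 (.bad 4 8 [8, 2, 4, 6, 5, 0])
  (.br 9 (.bad 4 8 [8, 4, 7, 5, 6, 0])
  (.bad 0 264 [0, 1, 2, 4, 6, 7]))))
  (.bad 0 264 [0, 1, 2, 5, 6, 7]))))))))))

def B_th10_122 : Dat where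
  r := 4
  V := [[.i, .o, .o, .o],
    [.o, .i, .o, .o],
    [.o, .o, .i, .o],
    [.o, .o, .o, .i],
    [.i, .i, .o, .o],
    [.w, .i, .o, .w],
    [.i, .o, .i, .o],
    [.v, .o, .i, .v]]
  P := [[.i, .o, .o, .o],
    [.o, .i, .o, .o],
    [.o, .o, .i, .o],
    [.o, .o, .o, .i],
    [.i, .i, .o, .o],
    [.w, .i, .o, .w],
    [.i, .o, .i, .o],
    [.v, .o, .i, .v],
    [.i, .o, .o, .i],
    [.o, .o, .o, .o]]
  F := [[.i, .o, .o, .o],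
    [.o, .i, .o, .o],
    [.i, .i, .o, .o],
    [.i, .w, .o, .o],
    [.o, .o, .i, .o],
    [.i, .o, .i, .o],
    [.i, .i, .i, .o],
    [.i, .w, .i, .o],
    [.i, .o, .v, .o],
    [.i, .i, .v, .o],
    [.i, .w, .v, .o],
    [.o, .o, .o, .i],
    [.i, .o, .o, .i],
    [.i, .i, .o, .i],
    [.i, .o, .i, .i],
    [.i, .i, .o, .w],
    [.o, .o, .i, .w],
    [.i, .i, .i, .w],
    [.i, .i, .w, .w],
    [.o, .i, .o, .v],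
    [.i, .o, .i, .v],
    [.i, .i, .i, .v],
    [.i, .v, .i, .v],
    [.o, .i, .w, .v]]
  ht := 0xa100e000d000c2006500b00070009300340062009400a6005700a80098008a00680058004a003b002c001c00cd000e
  ct := 0x160000000000000000000000000015000000000000010000001005008000000000000000000000000000120000000000000a000000c0030b8000000000000009000000d004080000000010020080003008020000000000000000000000000000000011000000000000070000013003898000000000000006000000b002c58000000010014080002ff80160000000000000000004000000f0010200000000300102000030980080000000000020010200002c580fe000000000080080000016000000000000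
  cl := [(7, 0, 0x1801),
    (11, 1, 0x12),
    (11, 0, 0x131),
    (13, 0, 0xf),
    (22, 2, 0x10810),
    (21, 0, 0xa804),
    (25, 0, 0x254),
    (35, 1, 0x880010),
    (35, 0, 0x5010),
    (37, 0, 0x89008),
    (41, 0, 0x498),
    (49, 0, 0x68010),
    (67, 0, 0x104820),
    (70, 1, 0x80802),
    (73, 0, 0xe2),
    (81, 0, 0x220840),
    (97, 0, 0x4a4080),
    (131, 1, 0x810002),
    (131, 0, 0x111100),
    (133, 0, 0x3002),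
    (137, 0, 0x702),
    (145, 0, 0x252200),
    (161, 0, 0xc41400),
    (193, 0, 0x700002)]
  sl := [0x890812, 0x115931, 0x8b80f, 0x7ff, 0x27aa54, 0xced498, 0x7a48e2, 0xf53702, 0x7012, 0xffffff]
  t := B_th10_122_t

theorem B_th10_122_okD : B_th10_122.ckD = true := by decide +kernel

theorem B_th10_122_okT : B_th10_122.ckT TTab B_th10_122.t 0 0 = true := by decide +kernel

theorem lext_th10_122 : LExt 4 8 (vecL 4 B_th10_122.V) (vecP 4 B_th10_122.P) :=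
  lext_of_chk' B_th10_122 B_th10_122_okD B_th10_122_okT (by decide)

end QG
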