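import Pool.Agent.Lib.QG.BC8

/-! MP_2e6874_co, part (B): data for th10_222. -/

set_option autoImplicit false
set_option maxRecDepth 100000

namespace QG

def B_th10_222_t : Tr :=
  .br 0 (.br 18 (.col 60 (.br 3 (.col 47 (.col 48 (.col 49 (.col 50 (.col 55 (.br 1 (.col 2 (.col 4 (.col 5 (.col 9 (.col 11 (.col 12 (.col 17 (.col 18 (.col 20 (.col 25 (.br 25 (.col 1 (.col 6 (.col 7 (.col 8 (.col 13 (.col 14 (.col 15 (.col 21 (.col 23 (.col 24 (.col 26 (.col 27 (.col 33 (.col 35 (.col 37 (.col 40 (.sol 11)))))))))))))))))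
  (.col 1 (.col 6 (.col 7 (.col 8 (.col 13 (.col 14 (.col 15 (.col 21 (.col 23 (.col 24 (.col 26 (.col 27 (.col 33 (.col 35 (.col 37 (.col 40 (.sol 5))))))))))))))))))))))))))))
  (.col 2 (.col 4 (.col 5 (.col 9 (.col 11 (.col 12 (.col 17 (.col 18 (.col 20 (.col 25 (.br 25 (.col 1 (.col 6 (.col 13 (.col 14 (.bad 4 144 [10, 1, 3, 5, 9, 2])))))
  (.col 6 (.col 13 (.br 40 (.bad 4 130 [10, 3, 5, 8, 6, 4])
  (.br 26 (.col 23 (.col 38 (.col 42 (.col 52 (.col 53 (.col 54 (.col 56 (.col 57 (.col 58 (.col 59 (.col 62 (.col 63 (.sol 9)))))))))))))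
  (.col 53 (.col 54 (.col 58 (.col 59 (.br 34 (.bad 4 192 [10, 4, 8, 5, 9, 2])
  (.br 29 (.bad 4 132 [10, 4, 8, 5, 9, 6])
  (.bad 0 400 [10, 2, 3, 5, 6, 9]))))))))))))))))))))))))))))
  (.col 47 (.col 48 (.col 49 (.col 50 (.col 55 (.br 1 (.col 2 (.col 4 (.col 17 (.col 18 (.bad 4 288 [10, 2, 3, 7, 9, 1])))))
  (.col 2 (.br 5 (.bad 4 40 [10, 2, 9, 6, 4, 8])
  (.br 6 (.col 19 (.col 20 (.col 25 (.col 32 (.col 36 (.col 41 (.br 25 (.col 6 (.col 8 (.col 13 (.col 23 (.col 26 (.col 37 (.bad 4 768 [10, 1, 2, 5, 7, 3])))))))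
  (.col 7 (.col 26 (.br 33 (.bad 4 514 [10, 2, 5, 6, 8, 4])
  (.br 26 (.col 23 (.col 24 (.col 35 (.col 38 (.col 39 (.col 40 (.col 42 (.col 53 (.col 56 (.col 57 (.col 58 (.col 63 (.sol 7)))))))))))))
  (.col 23 (.col 24 (.col 38 (.col 40 (.col 58 (.br 41 (.bad 4 768 [10, 4, 6, 5, 7, 3])
  (.br 28 (.bad 4 520 [10, 4, 6, 5, 7, 8])
  (.bad 0 592 [10, 2, 3, 5, 7, 8])))))))))))))))))))
  (.col 19 (.col 20 (.col 25 (.col 41 (.br 14 (.bad 4 48 [10, 6, 8, 7, 9, 1])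
  (.br 13 (.bad 4 34 [10, 6, 8, 7, 9, 4])
  (.bad 0 352 [10, 1, 3, 4, 7, 9]))))))))))))))))))
  (.col 60 (.br 15 (.col 55 (.col 66 (.bad 4 544 [10, 2, 3, 6, 8, 0])))
  (.br 16 (.col 25 (.col 41 (.bad 4 160 [10, 2, 3, 6, 8, 0])))
  (.br 17 (.col 20 (.col 41 (.bad 4 160 [10, 2, 3, 4, 8, 0])))
  (.br 14 (.col 32 (.col 36 (.col 49 (.col 2 (.br 5 (.bad 4 40 [10, 2, 9, 6, 4, 8])
  (.col 12 (.col 18 (.br 7 (.col 19 (.br 20 (.bad 4 96 [10, 2, 9, 7, 3, 1])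
  (.bad 0 608 [10, 2, 3, 4, 7, 8])))
  (.bad 0 416 [10, 2, 3, 4, 6, 9])))))))))
  (.br 22 (.col 50 (.col 55 (.bad 4 544 [10, 2, 3, 6, 4, 0])))
  (.br 34 (.col 40 (.col 42 (.col 58 (.br 35 (.bad 4 384 [10, 1, 9, 4, 6, 3])
  (.col 57 (.br 36 (.col 24 (.col 18 (.bad 4 384 [10, 1, 2, 4, 6, 3])))
  (.bad 0 656 [10, 1, 3, 5, 6, 8])))))))
  (.br 36 (.col 24 (.col 59 (.col 61 (.col 18 (.br 7 (.col 19 (.col 39 (.br 29 (.bad 4 144 [10, 2, 8, 5, 3, 1])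
  (.bad 0 400 [10, 2, 3, 5, 6, 9]))))
  (.bad 0 416 [10, 2, 3, 4, 6, 9]))))))
  (.br 41 (.col 54 (.col 67 (.col 43 (.col 58 (.br 39 (.bad 4 516 [10, 1, 7, 4, 8, 6])
  (.col 65 (.br 43 (.col 57 (.bad 4 576 [10, 1, 7, 4, 8, 2]))
  (.bad 0 656 [10, 1, 3, 5, 6, 8]))))))))
  (.br 42 (.col 40 (.col 65 (.col 68 (.col 49 (.br 20 (.col 48 (.br 10 (.bad 4 384 [10, 1, 2, 4, 9, 3])
  (.col 18 (.col 30 (.br 7 (.col 19 (.bad 4 96 [10, 2, 9, 7, 3, 1]))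
  (.bad 0 416 [10, 2, 3, 4, 6, 9]))))))
  (.bad 0 608 [10, 2, 3, 4, 7, 8]))))))
  (.br 3 (.col 32 (.col 47 (.col 48 (.col 49 (.col 65 (.br 1 (.col 2 (.col 4 (.col 5 (.col 9 (.col 11 (.col 18 (.col 19 (.br 26 (.col 23 (.col 34 (.col 38 (.col 39 (.col 42 (.col 52 (.col 53 (.col 56 (.col 57 (.col 58 (.col 62 (.sol 3))))))))))))
  (.bad 1 128 [10, 4, 5, 6, 8, 9])))))))))
  (.col 2 (.col 5 (.col 11 (.col 19 (.br 10 (.col 18 (.col 24 (.col 29 (.br 25 (.col 1 (.col 6 (.col 7 (.col 8 (.col 13 (.col 14 (.col 15 (.col 21 (.col 23 (.col 26 (.col 33 (.col 37 (.sol 1)))))))))))))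
  (.col 6 (.col 7 (.col 13 (.col 14 (.col 21 (.col 26 (.col 33 (.col 37 (.br 29 (.col 15 (.col 38 (.col 46 (.sol 10))))
  (.bad 0 400 [10, 2, 3, 5, 6, 9]))))))))))))))
  (.bad 0 416 [10, 2, 3, 4, 6, 9]))))))))))))
  (.col 49 (.br 20 (.col 48 (.br 26 (.col 42 (.col 52 (.col 53 (.col 56 (.col 57 (.col 58 (.col 63 (.col 67 (.br 9 (.col 4 (.col 5 (.col 7 (.col 8 (.col 9 (.col 10 (.col 11 (.col 14 (.col 15 (.col 17 (.col 18 (.col 21 (.sol 2)))))))))))))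
  (.bad 1 16 [10, 5, 6, 7, 8, 9]))))))))))
  (.bad 1 512 [10, 4, 5, 6, 7, 8])))
  (.bad 0 608 [10, 2, 3, 4, 7, 8])))))))))))))))
  (.br 18 (.col 60 (.br 3 (.col 47 (.col 49 (.col 50 (.col 66 (.br 1 (.col 2 (.col 5 (.col 10 (.col 11 (.col 30 (.col 31 (.col 32 (.col 36 (.br 25 (.col 1 (.col 6 (.col 7 (.col 8 (.col 26 (.col 27 (.col 28 (.col 33 (.col 34 (.col 35 (.col 37 (.col 40 (.col 44 (.col 51 (.col 54 (.sol 8))))))))))))))))
  (.col 27 (.col 28 (.col 34 (.col 35 (.col 37 (.br 43 (.bad 4 640 [10, 0, 1, 8, 5, 3])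
  (.col 44 (.br 27 (.bad 4 132 [10, 4, 9, 5, 8, 6])
  (.col 46 (.br 36 (.bad 4 192 [10, 4, 9, 5, 8, 2])
  (.bad 0 592 [10, 2, 3, 5, 7, 8]))))))))))))))))))))
  (.col 30 (.col 31 (.col 32 (.col 36 (.br 9 (.bad 4 160 [10, 0, 2, 8, 9, 3])
  (.br 6 (.bad 4 40 [10, 6, 7, 8, 9, 2])
  (.br 8 (.col 5 (.bad 5 96 [3, 10, 4, 1, 8, 9, 2]))
  (.bad 0 1184 [0, 2, 3, 4, 6, 9])))))))))))))
  (.col 66 (.br 20 (.bad 4 544 [10, 0, 2, 8, 7, 3])
  (.br 21 (.bad 4 544 [10, 2, 4, 7, 8, 3])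
  (.br 22 (.col 55 (.bad 7 544 [4, 0, 8, 3, 10, 6, 2, 7]))
  (.bad 2 544 [0, 2, 6, 10, 4, 7])))))))
  (.br 10 (.col 18 (.col 41 (.br 23 (.bad 4 160 [10, 0, 9, 8, 2, 3])
  (.br 6 (.bad 4 160 [10, 2, 8, 6, 3, 0])
  (.br 8 (.bad 4 160 [10, 2, 8, 4, 3, 0])
  (.br 24 (.col 60 (.bad 2 160 [0, 3, 8, 10, 6, 9]))
  (.bad 2 160 [0, 3, 8, 10, 4, 9])))))))
  (.br 12 (.col 30 (.col 48 (.col 66 (.br 23 (.bad 4 544 [10, 0, 7, 8, 2, 3])
  (.br 24 (.bad 4 544 [10, 2, 8, 7, 4, 3])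
  (.br 19 (.br 17 (.bad 4 288 [10, 2, 9, 7, 4, 1])
  (.br 7 (.bad 4 288 [10, 2, 9, 7, 3, 1])
  (.br 16 (.col 25 (.bad 4 36 [10, 6, 7, 8, 9, 3]))
  (.bad 0 416 [10, 2, 3, 4, 6, 9]))))
  (.bad 0 672 [10, 0, 3, 4, 6, 8])))))))
  (.br 32 (.col 26 (.col 43 (.col 63 (.br 1 (.bad 4 260 [10, 1, 9, 5, 6, 7])
  (.br 9 (.bad 4 6 [10, 6, 7, 8, 9, 3])
  (.br 29 (.bad 4 260 [10, 1, 9, 4, 7, 6])
  (.br 20 (.bad 4 516 [10, 1, 8, 5, 6, 7])
  (.br 27 (.bad 4 516 [10, 1, 8, 4, 7, 6])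
  (.br 11 (.col 4 (.bad 2 516 [6, 7, 8, 10, 4, 5]))
  (.bad 2 260 [6, 7, 9, 10, 4, 5]))))))))))
  (.br 35 (.col 37 (.col 57 (.col 62 (.col 68 (.br 29 (.bad 4 384 [10, 1, 9, 4, 2, 3])
  (.br 31 (.bad 4 514 [10, 2, 4, 7, 8, 5])
  (.br 27 (.bad 4 640 [10, 1, 8, 4, 3, 0])
  (.br 34 (.bad 4 384 [10, 1, 9, 4, 6, 3])
  (.br 17 (.br 9 (.bad 4 130 [10, 4, 5, 8, 9, 3])
  (.col 20 (.br 36 (.col 54 (.col 61 (.br 23 (.col 47 (.br 4 (.bad 4 544 [10, 0, 7, 6, 3, 2])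
  (.br 15 (.bad 4 768 [10, 1, 7, 5, 6, 3])
  (.bad 0 608 [10, 2, 3, 4, 7, 8]))))
  (.bad 0 672 [10, 0, 3, 4, 6, 8]))))
  (.bad 0 656 [10, 1, 3, 5, 6, 8]))))
  (.bad 0 400 [10, 2, 3, 5, 6, 9]))))))))))
  (.br 3 (.col 29 (.col 49 (.col 62 (.col 66 (.br 6 (.col 11 (.col 19 (.bad 4 40 [10, 6, 7, 8, 9, 2])))
  (.br 16 (.col 36 (.col 41 (.bad 4 288 [10, 1, 3, 7, 6, 2])))
  (.br 19 (.col 55 (.col 60 (.bad 4 544 [10, 0, 3, 6, 7, 2])))
  (.br 9 (.br 38 (.col 6 (.col 13 (.col 21 (.bad 4 258 [10, 4, 5, 6, 7, 2]))))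
  (.col 21 (.br 1 (.col 2 (.col 4 (.col 5 (.col 10 (.col 12 (.col 20 (.col 31 (.col 47 (.br 25 (.col 1 (.col 7 (.col 8 (.col 15 (.col 24 (.col 27 (.col 28 (.col 34 (.col 35 (.col 40 (.col 44 (.sol 0))))))))))))
  (.col 7 (.col 28 (.col 34 (.col 44 (.br 27 (.bad 4 640 [10, 0, 5, 4, 3, 1])
  (.col 15 (.col 46 (.br 39 (.bad 4 20 [10, 6, 7, 8, 9, 3])
  (.col 65 (.br 34 (.col 24 (.bad 4 24 [10, 6, 7, 8, 9, 2]))
  (.bad 0 400 [10, 2, 3, 5, 6, 9]))))))))))))))))))))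
  (.col 10 (.col 31 (.col 47 (.br 17 (.col 20 (.col 32 (.col 50 (.col 4 (.col 5 (.br 25 (.col 1 (.col 7 (.col 8 (.col 15 (.col 16 (.col 23 (.col 24 (.col 27 (.col 35 (.col 40 (.col 44 (.sol 4))))))))))))
  (.col 1 (.col 7 (.col 44 (.br 26 (.bad 4 640 [10, 0, 3, 4, 5, 1])
  (.bad 0 1600 [1, 2, 3, 5, 7, 8])))))))))))
  (.bad 0 416 [10, 2, 3, 4, 6, 9]))))))))
  (.br 1 (.col 2 (.col 10 (.col 47 (.br 24 (.col 50 (.bad 4 36 [10, 3, 6, 9, 4, 7]))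
  (.bad 0 672 [10, 0, 3, 4, 6, 8])))))
  (.bad 2 96 [1, 3, 9, 10, 7, 8]))))))))))
  (.br 2 (.col 2 (.col 5 (.br 7 (.bad 4 40 [10, 2, 4, 7, 8, 9])
  (.br 4 (.bad 4 40 [10, 2, 4, 6, 9, 8])
  (.br 6 (.bad 5 40 [2, 10, 4, 9, 6, 7, 8])
  (.bad 2 40 [4, 8, 9, 10, 6, 7]))))))
  (.br 7 (.col 31 (.col 41 (.br 11 (.bad 4 288 [10, 2, 4, 7, 3, 1])
  (.br 13 (.bad 4 288 [10, 1, 6, 7, 3, 2])
  (.br 14 (.col 36 (.bad 2 288 [1, 2, 7, 10, 6, 9]))
  (.bad 2 288 [1, 2, 7, 10, 4, 6]))))))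
  (.br 11 (.col 4 (.col 30 (.col 32 (.br 16 (.col 25 (.col 36 (.br 24 (.bad 4 48 [10, 2, 8, 7, 9, 1])
  (.br 23 (.col 47 (.br 22 (.bad 4 48 [10, 2, 8, 6, 9, 1])
  (.br 4 (.bad 4 544 [10, 0, 7, 6, 3, 2])
  (.bad 0 608 [10, 2, 3, 4, 7, 8]))))
  (.bad 0 672 [10, 0, 3, 4, 6, 8])))))
  (.bad 0 416 [10, 2, 3, 4, 6, 9])))))
  (.br 1 (.br 8 (.bad 4 40 [10, 2, 8, 7, 4, 9])
  (.br 17 (.bad 4 288 [10, 2, 3, 7, 4, 1])
  (.br 16 (.col 36 (.br 4 (.col 9 (.col 10 (.col 11 (.col 12 (.col 17 (.col 20 (.col 25 (.col 48 (.br 25 (.col 1 (.col 6 (.col 7 (.col 8 (.col 13 (.col 14 (.col 15 (.col 21 (.col 23 (.col 24 (.col 27 (.col 33 (.col 35 (.col 40 (.sol 6)))))))))))))))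
  (.col 6 (.col 7 (.col 8 (.col 21 (.col 23 (.col 24 (.col 35 (.br 37 (.bad 4 384 [10, 1, 3, 5, 6, 2])
  (.br 42 (.bad 4 768 [10, 4, 7, 5, 6, 3])
  (.br 29 (.col 15 (.bad 4 528 [10, 2, 3, 6, 5, 1]))
  (.bad 0 400 [10, 2, 3, 5, 6, 9]))))))))))))))))))))
  (.col 9 (.col 10 (.col 11 (.col 12 (.col 25 (.br 24 (.bad 4 48 [10, 6, 8, 7, 9, 1])
  (.br 23 (.bad 4 33 [10, 6, 8, 7, 9, 4])
  (.bad 0 672 [10, 0, 3, 4, 6, 8]))))))))))
  (.bad 0 416 [10, 2, 3, 4, 6, 9]))))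
  (.br 17 (.col 32 (.col 41 (.br 15 (.col 36 (.bad 7 288 [4, 1, 9, 3, 10, 7, 2, 6]))
  (.bad 2 288 [2, 3, 6, 10, 7, 9]))))
  (.bad 0 1312 [1, 2, 3, 4, 7, 9]))))))))))))

def B_th10_222 : Dat where
  r := 5
  V := [[.i, .o, .o, .o, .o],
    [.o, .i, .o, .o, .o],
    [.o, .o, .i, .o, .o],
    [.o, .o, .o, .i, .o],
    [.i, .i, .o, .o, .o],
    [.o, .o, .o, .o, .i],
    [.i, .o, .i, .o, .o],
    [.o, .w, .i, .o, .w],
    [.i, .o, .o, .i, .o],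
    [.o, .v, .o, .i, .v]]
  P := [[.i, .o, .o, .o, .o],
    [.o, .i, .o, .o, .o],
    [.o, .o, .i, .o, .o],
    [.o, .o, .o, .i, .o],
    [.i, .i, .o, .o, .o],
    [.o, .o, .o, .o, .i],
    [.i, .o, .i, .o, .o],
    [.o, .w, .i, .o, .w],
    [.i, .o, .o, .i, .o],
    [.o, .v, .o, .i, .v],
    [.o, .i, .o, .o, .i],
    [.o, .o, .o, .o, .o]]
  F := [[.i, .o, .o, .o, .o],
    [.o, .i, .o, .o, .o],
    [.i, .i, .o, .o, .o],
    [.o, .o, .i, .o, .o],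
    [.i, .o, .i, .o, .o],
    [.i, .i, .i, .o, .o],
    [.i, .v, .i, .o, .o],
    [.o, .i, .w, .o, .o],
    [.i, .i, .w, .o, .o],
    [.o, .o, .o, .i, .o],
    [.i, .o, .o, .i, .o],
    [.i, .i, .o, .i, .o],
    [.i, .w, .o, .i, .o],
    [.i, .o, .i, .i, .o],
    [.i, .i, .i, .i, .o],
    [.i, .w, .i, .i, .o],
    [.i, .v, .i, .i, .o],
    [.i, .i, .w, .i, .o],
    [.i, .w, .v, .i, .o],
    [.i, .v, .i, .w, .o],
    [.o, .i, .o, .v, .o],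
    [.i, .i, .o, .v, .o],
    [.i, .i, .i, .v, .o],
    [.o, .i, .w, .v, .o],
    [.i, .i, .w, .v, .o],
    [.o, .o, .o, .o, .i],
    [.o, .i, .o, .o, .i],
    [.i, .i, .o, .o, .i],
    [.i, .i, .i, .o, .i],
    [.i, .i, .o, .i, .i],
    [.i, .i, .i, .o, .w],
    [.o, .o, .o, .i, .w],
    [.i, .o, .o, .i, .w],
    [.i, .o, .i, .i, .w],
    [.i, .i, .i, .i, .w],
    [.i, .o, .v, .i, .w],
    [.i, .i, .i, .w, .w],
    [.o, .o, .i, .o, .v],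
    [.i, .o, .i, .o, .v],
    [.i, .i, .o, .i, .v],
    [.i, .o, .i, .i, .v],
    [.i, .i, .i, .i, .v],
    [.i, .i, .v, .i, .v],
    [.o, .o, .i, .w, .v],
    [.i, .o, .i, .w, .v]]
  ht := 0x2c202930390035001c2031400ca019b02d0038201d003420306025700d801940258029c03cd015f02b002a102700234026502e003a001b001e00360017001620324013401a600f700b801a900e80078026a033b003c016d02ae
  ct := 0x1a00000000000000000000000000000000000000000000000000000012000000000000000000000000002a0000000000001a000001a008cd000000000000000000000000000000000000000000000000000000000f00000000000000000000000000290000000000001a000001a0084d00000000000000000000000000000300000000000003000000c000c180000000000000030000027000c180000001a000ff800080d0006000000000000000000000000000000000000000000000000000000000001300000000000000000000000000240000000000001a000001a00b0d0000000000000000000000000000180000000000000000000000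000b800000000000001b000001b00ad580000007f0000d000000d00560000000000000000000000000000000160000000000000400000140010a000000000000001c000001f007cf80000001a0010d00007ff803e00000000000000000030000015000c180000000001fc1800000a000600000000001b000c180007cf80fe000000000d0006000003e0000000000000000000000000000000000000000000000000000000000000000001000000000000000000000000000220000000000001a000001a00a0d00000000000000000000000000001100000000000007000000a002838000000000000025000001d0095280000001a0097f800028d004a00000000000000000000000000000000e00000000000001000000100340800000000000001900000190064c80000007f0067f800067f80320000000000000000003000000b000c1800000001000ff8000280800600000000001901fff800064c80fe000000067f80fe0000032000000000000000000000000000000000000000900000000000006000000900244800000000000001e00000090024480000001a0098d000027f80120000000000000000008000000900244800000000000038001fc4801200000000001b00952800024480fe000000000d004a00000120000000000000000000000000500000090024480000000100100800027f80120000000000190064c8001fff80fe000000067f803200000fe0000000000000000002000c1800024480fe0000000000800600000120000000000000064c80fe00000fe0000000000003200000000000000000000000000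
  cl := [(15, 0, 0x2000001),
    (29, 0, 0xa000004),
    (45, 0, 0x7),
    (54, 2, 0x208),
    (53, 0, 0x200a04),
    (57, 0, 0x12c),
    (75, 0, 0x4002000010),
    (92, 3, 0x82000200),
    (89, 0, 0x52000020),
    (99, 0, 0x2210),
    (102, 1, 0x100202),
    (105, 0, 0x72),
    (113, 0, 0x404220),
    (139, 0, 0x6000000001),
    (150, 2, 0x82000000200),
    (149, 0, 0x28000200),
    (153, 0, 0x2048000100),
    (163, 1, 0x800280),
    (165, 0, 0x601),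
    (169, 0, 0x1c1),
    (177, 0, 0x1020300),
    (195, 0, 0x114000000200),
    (198, 1, 0x4000200),
    (201, 0, 0x4044000040),
    (209, 0, 0x1440000200),
    (225, 0, 0x90240),
    (263, 0, 0x102000400),
    (277, 0, 0x8022000800),
    (284, 2, 0x2002000008),
    (291, 0, 0x2408),
    (293, 0, 0x1c02),
    (298, 1, 0x8a),
    (305, 0, 0x24808),
    (323, 0, 0x10202002000),
    (330, 1, 0x6000002),
    (337, 0, 0x20402004000),
    (353, 0, 0x1e002),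
    (387, 0, 0x12800000400),
    (389, 0, 0x24000400),
    (394, 1, 0x2004000080),
    (401, 0, 0x42420020000),
    (417, 0, 0x70480),
    (449, 0, 0x10404010000),
    (519, 0, 0x180000001),
    (534, 2, 0x80080000008),
    (533, 0, 0x8088200000),
    (537, 0, 0x18000008),
    (547, 1, 0x900008),
    (549, 0, 0x301001),
    (553, 0, 0x19),
    (561, 0, 0x1600008),
    (579, 0, 0x100280000010),
    (582, 1, 0x84100000),
    (585, 0, 0x14000010),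
    (593, 0, 0x21090400000),
    (609, 0, 0x588010),
    (643, 1, 0x80004800000),
    (643, 0, 0x180800000001),
    (649, 0, 0xc000001),
    (657, 0, 0xc1009000000),
    (673, 0, 0x18c0001),
    (705, 0, 0x101004080000),
    (771, 0, 0xb00000008),
    (773, 0, 0x8104001000),
    (778, 1, 0x4000008),
    (785, 0, 0x68000000008),
    (801, 0, 0x49008),
    (833, 0, 0x20204008000),
    (897, 0, 0x40804040000)]
  sl := [0x8208690028a, 0x196b82002619, 0x81ae301e07, 0x605e0001ff, 0xeb4fb624b2c, 0x1ffffff, 0x1356d659e272, 0x1d7c6d8f07c1, 0x7af2607fc8a, 0x1e9b9dfc9019, 0x3c002619, 0x1fffffffffff]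
  t := B_th10_222_t

theorem B_th10_222_okD : B_th10_222.ckD = true := by decide +kernel

theorem B_th10_222_okT : B_th10_222.ckT TTab B_th10_222.t 0 0 = true := by decide +kernel

theorem lext_th10_222 : LExt 5 10 (vecL 5 B_th10_222.V) (vecP 5 B_th10_222.P) :=
  lext_of_chk' B_th10_222 B_th10_222_okD B_th10_222_okT (by decide)

end QG
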