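import Pool.Agent.Lib.QG.BC8

/-! MP_2e6874_co, part (B): data for th11_122. -/

set_option autoImplicit false
set_option maxRecDepth 100000

namespace QG

def B_th11_122_t : Tr :=
  .br 0 (.br 18 (.col 24 (.br 3 (.col 19 (.col 20 (.col 21 (.col 22 (.col 23 (.br 1 (.col 0 (.col 2 (.col 3 (.col 4 (.col 6 (.col 7 (.col 8 (.col 9 (.col 11 (.col 12 (.sol 9)))))))))))
  (.col 0 (.col 2 (.col 3 (.col 4 (.col 6 (.col 7 (.col 8 (.col 9 (.col 11 (.col 12 (.sol 8)))))))))))))))))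
  (.col 19 (.col 20 (.col 21 (.col 22 (.col 23 (.br 1 (.col 0 (.col 2 (.col 8 (.col 9 (.bad 4 128 [9, 2, 3, 6, 8, 1])))))
  (.col 0 (.br 5 (.bad 4 8 [9, 2, 8, 5, 4, 7])
  (.br 6 (.col 10 (.col 11 (.col 12 (.col 16 (.col 17 (.col 18 (.sol 6)))))))
  (.col 10 (.col 11 (.col 12 (.col 18 (.br 13 (.bad 4 2 [9, 5, 7, 6, 8, 4])
  (.br 14 (.bad 4 16 [9, 5, 7, 6, 8, 1])
  (.bad 0 160 [9, 1, 3, 4, 6, 8]))))))))))))))))))
  (.col 24 (.br 15 (.col 23 (.col 25 (.bad 4 256 [9, 2, 3, 5, 7, 0])))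
  (.br 16 (.col 12 (.col 18 (.bad 4 64 [9, 2, 3, 5, 7, 0])))
  (.br 17 (.col 11 (.col 18 (.bad 4 64 [9, 2, 3, 4, 7, 0])))
  (.br 14 (.col 16 (.col 17 (.col 21 (.br 10 (.bad 4 128 [9, 1, 2, 4, 5, 3])
  (.col 9 (.col 7 (.br 20 (.col 20 (.bad 4 128 [9, 2, 8, 5, 4, 3]))
  (.bad 0 288 [9, 2, 3, 4, 6, 7]))))))))
  (.br 22 (.col 7 (.col 9 (.col 22 (.col 23 (.br 7 (.col 15 (.br 13 (.bad 4 2 [9, 5, 7, 6, 8, 4])
  (.bad 0 160 [9, 1, 3, 4, 6, 8])))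
  (.bad 0 192 [9, 2, 3, 4, 5, 8]))))))
  (.br 3 (.col 16 (.col 19 (.col 20 (.col 21 (.br 1 (.col 0 (.col 2 (.col 3 (.col 4 (.col 6 (.col 9 (.col 10 (.sol 3))))))))
  (.col 0 (.col 3 (.col 6 (.col 10 (.br 10 (.col 9 (.col 13 (.sol 1)))
  (.bad 0 192 [9, 2, 3, 4, 5, 8])))))))))))
  (.col 21 (.br 20 (.col 20 (.br 9 (.col 2 (.col 3 (.col 4 (.col 5 (.col 6 (.col 8 (.col 9 (.sol 2))))))))
  (.bad 1 0 [9, 4, 5, 6, 7, 8])))
  (.bad 0 288 [9, 2, 3, 4, 6, 7])))))))))))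
  (.br 18 (.col 24 (.br 3 (.col 19 (.col 21 (.col 22 (.col 25 (.br 1 (.col 0 (.col 3 (.col 5 (.col 6 (.col 14 (.col 15 (.col 16 (.col 17 (.sol 7)))))))))
  (.col 14 (.col 15 (.col 16 (.col 17 (.br 9 (.bad 4 32 [9, 1, 2, 8, 7, 3])
  (.br 6 (.bad 4 8 [9, 5, 6, 7, 8, 2])
  (.br 8 (.col 3 (.bad 5 4 [3, 9, 4, 5, 8, 7, 6]))
  (.bad 0 576 [0, 2, 3, 4, 5, 7])))))))))))))
  (.col 25 (.br 21 (.bad 4 256 [9, 2, 4, 6, 7, 3])
  (.br 20 (.bad 4 256 [9, 0, 2, 7, 6, 3])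
  (.br 22 (.col 23 (.bad 7 256 [4, 0, 7, 3, 9, 5, 2, 6]))
  (.bad 2 256 [0, 2, 5, 9, 4, 6])))))))
  (.br 10 (.col 9 (.col 18 (.br 6 (.bad 4 64 [9, 2, 7, 5, 3, 0])
  (.br 8 (.bad 4 64 [9, 2, 7, 4, 3, 0])
  (.br 23 (.bad 4 64 [9, 0, 8, 7, 2, 3])
  (.br 19 (.col 24 (.bad 2 64 [0, 3, 7, 9, 4, 8]))
  (.bad 2 64 [0, 3, 7, 9, 5, 8])))))))
  (.br 12 (.col 14 (.col 20 (.col 25 (.br 14 (.bad 4 128 [9, 2, 8, 5, 4, 3])
  (.br 4 (.bad 4 256 [9, 2, 7, 5, 3, 0])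
  (.br 9 (.bad 4 4 [9, 5, 6, 7, 8, 3])
  (.br 13 (.bad 4 128 [9, 1, 5, 8, 2, 3])
  (.br 16 (.col 12 (.br 22 (.col 22 (.br 23 (.bad 4 256 [9, 0, 6, 7, 2, 3])
  (.bad 0 320 [9, 0, 3, 4, 5, 7])))
  (.bad 0 288 [9, 2, 3, 4, 6, 7])))
  (.bad 0 160 [9, 1, 3, 4, 6, 8])))))))))
  (.br 7 (.col 10 (.col 18 (.br 1 (.col 0 (.col 6 (.col 14 (.col 15 (.col 16 (.col 17 (.br 9 (.col 2 (.col 5 (.col 7 (.col 8 (.col 11 (.col 12 (.sol 0)))))))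
  (.col 5 (.br 19 (.bad 4 32 [9, 2, 3, 6, 8, 1])
  (.br 22 (.bad 4 32 [9, 2, 3, 4, 8, 1])
  (.bad 0 288 [9, 2, 3, 4, 6, 7])))))))))))
  (.col 15 (.br 11 (.bad 4 128 [9, 2, 4, 6, 3, 1])
  (.br 13 (.bad 4 128 [9, 1, 5, 6, 3, 2])
  (.br 14 (.col 17 (.bad 2 128 [1, 2, 6, 9, 5, 8]))
  (.bad 2 128 [1, 2, 6, 9, 4, 5]))))))))
  (.br 23 (.col 8 (.col 24 (.br 8 (.bad 4 64 [9, 0, 8, 4, 3, 2])
  (.br 6 (.bad 4 64 [9, 0, 8, 5, 3, 2])
  (.br 17 (.col 18 (.bad 2 64 [2, 3, 8, 9, 5, 7]))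
  (.bad 2 64 [2, 3, 8, 9, 4, 7]))))))
  (.br 3 (.col 13 (.col 15 (.col 19 (.col 21 (.col 25 (.br 16 (.bad 4 128 [9, 1, 3, 6, 5, 2])
  (.br 17 (.col 16 (.br 19 (.bad 4 256 [9, 0, 3, 5, 6, 2])
  (.br 22 (.col 7 (.col 11 (.col 12 (.col 22 (.col 2 (.sol 4))))))
  (.bad 0 288 [9, 2, 3, 4, 6, 7]))))
  (.bad 0 192 [9, 2, 3, 4, 5, 8]))))))))
  (.br 2 (.col 0 (.col 3 (.br 4 (.bad 4 8 [9, 2, 4, 5, 8, 7])
  (.br 6 (.bad 5 8 [2, 9, 4, 8, 5, 6, 7])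
  (.bad 2 8 [4, 7, 8, 9, 5, 6])))))
  (.br 11 (.col 2 (.col 14 (.col 16 (.br 16 (.col 12 (.col 17 (.br 24 (.col 22 (.br 4 (.bad 4 32 [9, 1, 3, 6, 7, 2])
  (.br 20 (.bad 4 256 [9, 0, 2, 4, 6, 3])
  (.bad 0 288 [9, 2, 3, 4, 6, 7]))))
  (.bad 0 320 [9, 0, 3, 4, 5, 7]))))
  (.bad 0 192 [9, 2, 3, 4, 5, 8])))))
  (.br 1 (.br 17 (.bad 4 128 [9, 2, 3, 6, 4, 1])
  (.br 16 (.col 17 (.br 8 (.bad 4 8 [9, 2, 7, 6, 4, 8])
  (.br 4 (.col 4 (.col 5 (.col 6 (.col 7 (.col 11 (.col 12 (.col 20 (.sol 5))))))))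
  (.col 4 (.col 6 (.col 7 (.col 12 (.br 24 (.bad 4 16 [9, 5, 7, 6, 8, 1])
  (.bad 0 320 [9, 0, 3, 4, 5, 7])))))))))
  (.bad 0 192 [9, 2, 3, 4, 5, 8])))
  (.br 17 (.col 16 (.col 18 (.br 15 (.col 17 (.bad 7 128 [4, 1, 8, 3, 9, 6, 2, 5]))
  (.bad 2 128 [2, 3, 5, 9, 6, 8]))))
  (.bad 0 640 [1, 2, 3, 4, 6, 8])))))))))))

def B_th11_122 : Dat where
  r := 4
  V := [[.i, .o, .o, .o],
    [.o, .i, .o, .o],
    [.o, .o, .i, .o],
    [.o, .o, .o, .i],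
    [.i, .i, .o, .o],
    [.i, .o, .i, .o],
    [.o, .w, .i, .o],
    [.i, .o, .o, .i],
    [.o, .v, .o, .i]]
  P := [[.i, .o, .o, .o],
    [.o, .i, .o, .o],
    [.o, .o, .i, .o],
    [.o, .o, .o, .i],
    [.i, .i, .o, .o],
    [.i, .o, .i, .o],
    [.o, .w, .i, .o],
    [.i, .o, .o, .i],
    [.o, .v, .o, .i],
    [.o, .o, .o, .o]]
  F := [[.i, .o, .o, .o],
    [.o, .i, .o, .o],
    [.i, .i, .o, .o],
    [.o, .o, .i, .o],
    [.i, .o, .i, .o],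
    [.i, .i, .i, .o],
    [.i, .v, .i, .o],
    [.o, .i, .w, .o],
    [.i, .i, .w, .o],
    [.o, .o, .o, .i],
    [.i, .o, .o, .i],
    [.i, .i, .o, .i],
    [.i, .w, .o, .i],
    [.i, .o, .i, .i],
    [.i, .i, .i, .i],
    [.i, .w, .i, .i],
    [.i, .v, .i, .i],
    [.i, .i, .w, .i],
    [.i, .w, .v, .i],
    [.i, .v, .i, .w],
    [.o, .i, .o, .v],
    [.i, .i, .o, .v],
    [.i, .i, .i, .v],
    [.o, .i, .w, .v],
    [.i, .i, .w, .v]]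
  ht := 0x1500141013001140125016001c000d000e001a000b000a20184009400c60077005800c900680038012a019b001c00ad014e
  ct := 0x120000000000000000000000000000000000000000000000000000000f000000000000000000000000000300000000000003000000c000c1800000000000000000000000000000000000000000000000000000001300000000000000000000000000180000000000000000000000000b8000000000000000000000000000160000000000000400000140010a00000000000000030000015000c180000000001fc1800000a00060000000000000000000000000000000000000000000000000000000000010000000000000000000000000001100000000000007000000a0028380000000000000000000000000000e000000000000010000001003408000000000000003000000b000c1800000001000ff80002808006000000000000000000000000000000009000000000000060000009002448000000000000008000000900244800000000000038001fc48012000000000000000000500000090024480000000100100800027f8012000000000002000c1800024480fe000000000080060000012000000000000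
  cl := [(13, 0, 0x7),
    (22, 2, 0x208),
    (21, 0, 0x200a04),
    (25, 0, 0x12c),
    (35, 0, 0x2210),
    (38, 1, 0x100202),
    (41, 0, 0x72),
    (49, 0, 0x404220),
    (67, 1, 0x800280),
    (69, 0, 0x601),
    (73, 0, 0x1c1),
    (81, 0, 0x1020300),
    (97, 0, 0x90240),
    (131, 0, 0x2408),
    (133, 0, 0x1c02),
    (138, 1, 0x8a),
    (145, 0, 0x24808),
    (161, 0, 0x1e002),
    (193, 0, 0x70480),
    (259, 1, 0x900008),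
    (261, 0, 0x301001),
    (265, 0, 0x19),
    (273, 0, 0x1600008),
    (289, 0, 0x588010),
    (321, 0, 0x18c0001),
    (385, 0, 0x49008)]
  sl := [0x90028a, 0x2619, 0x301e07, 0x1ff, 0x1624b2c, 0x59e272, 0x18f07c1, 0x7fc8a, 0x1fc9019, 0x1ffffff]
  t := B_th11_122_t

theorem B_th11_122_okD : B_th11_122.ckD = true := by decide +kernel

theorem B_th11_122_okT : B_th11_122.ckT TTab B_th11_122.t 0 0 = true := by decide +kernel

theorem lext_th11_122 : LExt 4 9 (vecL 4 B_th11_122.V) (vecP 4 B_th11_122.P) :=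
  lext_of_chk' B_th11_122 B_th11_122_okD B_th11_122_okT (by decide)

end QG
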