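import Pool.Agent.Lib.QG.BC8

/-! MP_2e6874_co, part (B): data for th11_222. -/

set_option autoImplicit false
set_option maxRecDepth 100000

namespace QG

def B_th11_222_t : Tr :=
  .br 0 (.br 35 (.col 63 (.br 2 (.col 59 (.col 60 (.col 61 (.col 62 (.br 6 (.col 47 (.col 48 (.col 49 (.col 50 (.col 51 (.col 52 (.col 53 (.col 54 (.col 57 (.col 58 (.col 65 (.br 1 (.col 1 (.col 2 (.col 4 (.col 5 (.col 6 (.col 7 (.col 9 (.col 10 (.col 12 (.col 13 (.col 14 (.col 16 (.col 18 (.col 19 (.col 21 (.col 22 (.col 25 (.col 26 (.sol 11)))))))))))))))))))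
  (.col 1 (.col 2 (.col 4 (.col 5 (.col 6 (.col 7 (.col 9 (.col 10 (.col 12 (.col 13 (.col 14 (.col 16 (.col 18 (.col 19 (.col 21 (.col 22 (.col 25 (.col 26 (.sol 10)))))))))))))))))))))))))))))))
  (.col 47 (.col 48 (.col 49 (.col 50 (.col 51 (.col 52 (.col 53 (.col 54 (.col 57 (.col 58 (.col 65 (.br 1 (.col 1 (.col 2 (.col 4 (.col 18 (.bad 4 65 [11, 7, 9, 8, 10, 5])))))
  (.col 1 (.col 2 (.br 10 (.bad 4 144 [11, 5, 6, 9, 10, 2])
  (.br 8 (.col 14 (.col 15 (.col 16 (.col 17 (.col 18 (.col 19 (.col 20 (.col 21 (.col 22 (.col 25 (.col 26 (.col 28 (.col 29 (.col 31 (.col 34 (.sol 8))))))))))))))))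
  (.col 14 (.col 15 (.col 16 (.col 17 (.col 21 (.col 25 (.br 27 (.bad 4 96 [11, 7, 9, 8, 10, 2])
  (.br 26 (.bad 4 34 [11, 7, 9, 8, 10, 6])
  (.bad 0 672 [11, 1, 4, 6, 8, 10]))))))))))))))))))))))))))))))
  (.col 59 (.col 60 (.col 61 (.col 62 (.br 6 (.col 47 (.col 49 (.col 50 (.col 51 (.col 52 (.col 53 (.col 54 (.col 57 (.col 58 (.col 65 (.col 66 (.br 1 (.col 1 (.col 4 (.col 6 (.col 14 (.col 18 (.bad 4 257 [11, 5, 9, 6, 10, 7]))))))
  (.col 6 (.col 14 (.br 11 (.bad 4 272 [11, 2, 10, 5, 7, 9])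
  (.br 4 (.col 2 (.col 4 (.col 5 (.col 7 (.col 10 (.col 12 (.col 13 (.col 16 (.col 18 (.col 19 (.col 21 (.col 22 (.col 25 (.col 26 (.sol 6)))))))))))))))
  (.col 2 (.col 4 (.col 5 (.col 10 (.col 13 (.br 26 (.bad 4 130 [11, 5, 9, 6, 10, 8])
  (.col 28 (.br 29 (.bad 4 544 [11, 1, 4, 8, 7, 3])
  (.bad 0 672 [11, 1, 4, 6, 8, 10])))))))))))))))))))))))))
  (.col 50 (.col 51 (.col 52 (.col 53 (.col 58 (.br 39 (.bad 4 1056 [11, 2, 3, 6, 8, 4])
  (.br 9 (.bad 4 18 [11, 5, 7, 6, 8, 9])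
  (.br 28 (.bad 4 1536 [11, 5, 7, 6, 8, 4])
  (.bad 0 1184 [11, 3, 4, 6, 8, 9]))))))))))))))))
  (.col 63 (.br 30 (.col 58 (.col 69 (.bad 4 1088 [11, 3, 4, 7, 9, 0])))
  (.br 31 (.col 26 (.col 44 (.bad 4 320 [11, 3, 4, 7, 9, 0])))
  (.br 32 (.col 21 (.col 44 (.bad 4 320 [11, 3, 4, 5, 9, 0])))
  (.br 27 (.col 34 (.col 39 (.br 17 (.bad 4 576 [11, 2, 3, 5, 7, 4])
  (.col 19 (.col 13 (.br 14 (.col 20 (.bad 4 192 [11, 4, 8, 9, 5, 3]))
  (.bad 0 832 [11, 3, 4, 5, 7, 10])))))))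
  (.br 28 (.col 38 (.col 70 (.br 23 (.bad 4 640 [11, 1, 2, 10, 5, 4])
  (.br 25 (.bad 4 640 [11, 2, 8, 5, 10, 4])
  (.bad 2 640 [1, 2, 6, 11, 5, 8])))))
  (.br 29 (.col 43 (.col 45 (.br 17 (.bad 4 768 [11, 2, 3, 5, 7, 4])
  (.col 19 (.col 25 (.br 14 (.col 20 (.bad 4 384 [11, 4, 6, 9, 5, 3]))
  (.bad 0 832 [11, 3, 4, 5, 7, 10])))))))
  (.br 34 (.col 43 (.col 62 (.col 68 (.col 71 (.col 52 (.br 41 (.bad 4 1056 [11, 3, 6, 8, 9, 4])
  (.col 51 (.br 42 (.col 13 (.col 19 (.br 14 (.col 33 (.br 23 (.col 35 (.br 1 (.col 36 (.bad 4 768 [11, 2, 7, 6, 4, 3]))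
  (.bad 0 672 [11, 1, 4, 6, 8, 10])))
  (.bad 0 704 [11, 2, 4, 5, 8, 10])))
  (.bad 0 832 [11, 3, 4, 5, 7, 10]))))
  (.bad 0 1216 [11, 3, 4, 5, 8, 9])))))))))
  (.br 37 (.col 25 (.col 62 (.col 64 (.col 19 (.br 14 (.col 42 (.br 19 (.bad 4 10 [11, 5, 9, 6, 10, 7])
  (.bad 0 800 [11, 3, 4, 6, 7, 10])))
  (.bad 0 832 [11, 3, 4, 5, 7, 10]))))))
  (.br 42 (.col 13 (.col 19 (.col 53 (.col 58 (.br 14 (.col 20 (.col 33 (.br 23 (.bad 4 192 [11, 2, 9, 8, 4, 3])
  (.bad 0 704 [11, 2, 4, 5, 8, 10]))))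
  (.bad 0 832 [11, 3, 4, 5, 7, 10]))))))
  (.br 2 (.col 45 (.col 59 (.col 60 (.col 61 (.col 70 (.br 6 (.col 34 (.col 47 (.col 48 (.col 49 (.col 50 (.col 51 (.col 52 (.col 65 (.br 1 (.col 1 (.col 2 (.col 4 (.col 5 (.col 6 (.col 7 (.col 9 (.col 10 (.col 12 (.col 14 (.col 16 (.col 19 (.col 20 (.sol 4))))))))))))))
  (.col 1 (.col 2 (.col 5 (.col 6 (.col 9 (.col 12 (.col 14 (.col 20 (.br 26 (.col 7 (.col 10 (.col 16 (.col 19 (.sol 1)))))
  (.bad 0 672 [11, 1, 4, 6, 8, 10])))))))))))))))))))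
  (.col 49 (.col 52 (.br 39 (.col 46 (.col 48 (.col 51 (.br 16 (.col 4 (.col 5 (.col 7 (.col 8 (.col 9 (.col 10 (.col 11 (.col 12 (.col 15 (.col 16 (.col 18 (.col 19 (.col 22 (.sol 3))))))))))))))
  (.bad 1 64 [11, 5, 7, 8, 9, 10])))))
  (.bad 0 1184 [11, 3, 4, 6, 8, 9]))))))))))
  (.col 61 (.br 43 (.col 60 (.br 6 (.col 34 (.col 47 (.col 48 (.col 49 (.col 50 (.col 51 (.col 52 (.col 54 (.col 65 (.br 16 (.col 4 (.col 5 (.col 7 (.col 8 (.col 9 (.col 10 (.col 11 (.col 12 (.col 15 (.col 16 (.col 18 (.col 19 (.col 22 (.sol 2))))))))))))))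
  (.bad 1 256 [11, 5, 6, 7, 9, 10])))))))))))
  (.bad 1 1024 [11, 5, 6, 7, 8, 9])))
  (.bad 0 1312 [11, 2, 4, 6, 7, 9])))))))))))))))
  (.br 35 (.col 63 (.br 2 (.col 59 (.col 61 (.col 64 (.col 71 (.br 5 (.col 1 (.col 2 (.bad 4 24 [11, 5, 6, 9, 10, 2])))
  (.br 6 (.col 5 (.col 47 (.col 49 (.col 50 (.col 52 (.col 53 (.col 65 (.col 66 (.col 68 (.col 69 (.br 1 (.col 6 (.col 8 (.col 9 (.col 24 (.col 27 (.col 29 (.col 30 (.col 31 (.col 32 (.col 33 (.col 34 (.col 35 (.col 36 (.col 38 (.col 39 (.sol 9))))))))))))))))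
  (.col 27 (.col 30 (.br 16 (.bad 4 260 [11, 5, 6, 9, 10, 4])
  (.br 8 (.bad 4 20 [11, 7, 8, 9, 10, 3])
  (.col 24 (.bad 0 2336 [2, 3, 4, 6, 7, 10])))))))))))))))))
  (.col 65 (.col 66 (.col 68 (.col 69 (.br 41 (.bad 4 1088 [11, 3, 5, 8, 9, 4])
  (.br 39 (.bad 4 1056 [11, 2, 3, 9, 8, 4])
  (.col 55 (.br 42 (.col 57 (.col 58 (.bad 4 1152 [11, 3, 4, 5, 6, 2])))
  (.bad 2 1056 [2, 3, 7, 11, 6, 8])))))))))))))))
  (.col 71 (.br 43 (.bad 4 1280 [11, 0, 2, 9, 6, 4])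
  (.br 36 (.bad 4 1280 [11, 2, 7, 6, 9, 4])
  (.br 37 (.col 62 (.bad 7 1280 [7, 0, 9, 4, 11, 5, 2, 6]))
  (.bad 2 1280 [0, 2, 5, 11, 6, 7])))))))
  (.br 17 (.col 19 (.col 44 (.br 44 (.bad 4 320 [11, 0, 10, 9, 3, 4])
  (.br 12 (.bad 4 320 [11, 3, 9, 7, 4, 0])
  (.br 15 (.bad 4 320 [11, 3, 9, 5, 4, 0])
  (.br 45 (.col 63 (.bad 2 320 [0, 4, 9, 11, 7, 10]))
  (.bad 2 320 [0, 4, 9, 11, 5, 10])))))))
  (.br 22 (.col 32 (.col 51 (.col 69 (.br 44 (.bad 4 1088 [11, 0, 8, 9, 3, 4])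
  (.br 27 (.bad 4 576 [11, 3, 10, 7, 5, 4])
  (.br 45 (.bad 4 1088 [11, 3, 9, 8, 5, 4])
  (.br 38 (.br 23 (.bad 4 576 [11, 2, 7, 10, 3, 4])
  (.br 31 (.col 26 (.bad 4 72 [11, 7, 8, 9, 10, 4]))
  (.bad 0 704 [11, 2, 4, 5, 8, 10])))
  (.bad 0 1344 [11, 0, 4, 5, 7, 9]))))))))
  (.br 18 (.col 27 (.col 46 (.col 66 (.br 3 (.bad 4 1032 [11, 2, 9, 5, 8, 7])
  (.br 4 (.bad 4 520 [11, 2, 10, 6, 7, 8])
  (.br 16 (.bad 4 12 [11, 7, 8, 9, 10, 4])
  (.br 19 (.bad 4 520 [11, 2, 10, 5, 8, 7])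
  (.br 40 (.bad 4 1032 [11, 2, 9, 6, 7, 8])
  (.br 20 (.col 4 (.bad 2 1032 [7, 8, 9, 11, 5, 6]))
  (.bad 2 520 [7, 8, 10, 11, 5, 6]))))))))))
  (.br 33 (.col 40 (.col 60 (.col 71 (.br 44 (.bad 4 1280 [11, 0, 6, 9, 2, 4])
  (.br 3 (.bad 4 1280 [11, 2, 9, 5, 4, 0])
  (.br 16 (.bad 4 260 [11, 5, 6, 9, 10, 4])
  (.br 19 (.bad 4 768 [11, 2, 10, 5, 3, 4])
  (.br 29 (.bad 4 768 [11, 2, 10, 5, 7, 4])
  (.br 32 (.col 21 (.br 37 (.col 64 (.bad 0 1344 [11, 0, 4, 5, 7, 9]))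
  (.bad 0 1312 [11, 2, 4, 6, 7, 9])))
  (.bad 0 800 [11, 3, 4, 6, 7, 10]))))))))))
  (.br 2 (.col 41 (.col 61 (.col 66 (.col 71 (.br 5 (.col 1 (.col 2 (.bad 4 24 [11, 5, 6, 9, 10, 2])))
  (.br 15 (.col 17 (.col 20 (.br 32 (.bad 4 768 [11, 3, 4, 6, 5, 2])
  (.col 21 (.br 29 (.bad 4 288 [11, 4, 6, 9, 7, 2])
  (.bad 0 800 [11, 3, 4, 6, 7, 10]))))))
  (.br 20 (.col 29 (.col 32 (.bad 4 520 [11, 5, 6, 7, 8, 2])))
  (.br 32 (.col 43 (.col 44 (.bad 4 768 [11, 3, 4, 6, 5, 2])))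
  (.br 41 (.col 48 (.col 51 (.bad 4 1032 [11, 5, 6, 7, 8, 2])))
  (.br 45 (.col 21 (.col 53 (.col 62 (.col 63 (.br 40 (.bad 4 1088 [11, 0, 3, 5, 8, 4])
  (.col 55 (.br 14 (.bad 4 320 [11, 0, 4, 5, 10, 3])
  (.col 42 (.br 29 (.col 25 (.br 27 (.bad 4 96 [11, 7, 9, 8, 10, 2])
  (.col 38 (.br 9 (.bad 4 160 [11, 1, 4, 8, 9, 3])
  (.bad 0 1184 [11, 3, 4, 6, 8, 9])))))
  (.bad 0 800 [11, 3, 4, 6, 7, 10]))))))))))
  (.br 16 (.br 8 (.col 14 (.col 15 (.col 22 (.col 24 (.col 25 (.col 26 (.col 42 (.col 59 (.br 1 (.col 6 (.col 8 (.col 9 (.col 10 (.col 12 (.col 13 (.col 30 (.col 35 (.col 36 (.col 38 (.col 39 (.col 55 (.sol 7)))))))))))))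
  (.col 6 (.col 10 (.col 12 (.col 35 (.br 6 (.bad 4 544 [11, 1, 4, 8, 7, 3])
  (.bad 0 2624 [2, 3, 4, 5, 8, 10])))))))))))))))
  (.col 22 (.col 24 (.col 25 (.col 26 (.br 13 (.col 15 (.col 42 (.col 59 (.br 1 (.col 6 (.col 8 (.col 9 (.col 10 (.col 13 (.col 30 (.col 33 (.col 35 (.col 36 (.col 38 (.col 39 (.col 50 (.sol 0)))))))))))))
  (.col 30 (.col 33 (.col 50 (.br 7 (.bad 4 1088 [11, 0, 8, 7, 4, 3])
  (.col 10 (.col 35 (.br 27 (.bad 4 640 [11, 1, 4, 6, 5, 2])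
  (.br 28 (.col 70 (.bad 4 192 [11, 2, 3, 10, 9, 4]))
  (.bad 0 672 [11, 1, 4, 6, 8, 10])))))))))))))
  (.bad 0 800 [11, 3, 4, 6, 7, 10])))))))
  (.br 1 (.col 8 (.br 6 (.col 5 (.col 9 (.col 24 (.col 28 (.col 30 (.col 38 (.col 47 (.col 53 (.br 37 (.col 64 (.bad 4 260 [11, 4, 5, 10, 7, 6]))
  (.bad 0 1184 [11, 3, 4, 6, 8, 9]))))))))))
  (.bad 0 2144 [2, 3, 4, 8, 9, 10])))
  (.bad 2 40 [4, 8, 10, 11, 6, 9])))))))))))))
  (.br 4 (.col 32 (.col 37 (.br 19 (.bad 4 520 [11, 5, 8, 7, 6, 2])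
  (.br 21 (.bad 5 520 [7, 11, 6, 2, 10, 5, 8])
  (.bad 2 520 [2, 6, 8, 11, 5, 10])))))
  (.br 7 (.col 12 (.col 52 (.br 14 (.bad 4 80 [11, 7, 10, 9, 8, 3])
  (.br 5 (.bad 4 80 [11, 3, 5, 7, 10, 9])
  (.br 15 (.bad 5 80 [10, 11, 7, 3, 5, 8, 9])
  (.bad 2 80 [3, 7, 9, 11, 5, 8]))))))
  (.br 8 (.col 6 (.col 14 (.col 24 (.br 14 (.bad 4 272 [11, 2, 7, 6, 9, 10])
  (.br 3 (.bad 4 272 [11, 2, 7, 5, 10, 9])
  (.br 6 (.bad 4 20 [11, 7, 8, 9, 10, 3])
  (.br 9 (.bad 4 144 [11, 2, 8, 5, 10, 9])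
  (.br 15 (.col 5 (.bad 2 144 [8, 9, 10, 11, 5, 6]))
  (.bad 2 272 [7, 9, 10, 11, 5, 6])))))))))
  (.br 12 (.col 12 (.col 20 (.col 24 (.br 13 (.bad 4 272 [11, 2, 9, 6, 7, 10])
  (.br 1 (.bad 4 144 [11, 2, 9, 6, 8, 10])
  (.br 6 (.bad 4 80 [11, 7, 8, 9, 10, 3])
  (.br 5 (.bad 5 80 [3, 11, 5, 10, 7, 8, 9])
  (.br 3 (.bad 5 272 [10, 11, 5, 2, 7, 6, 9])
  (.bad 2 48 [3, 7, 9, 11, 6, 8])))))))))
  (.br 14 (.col 20 (.col 33 (.col 42 (.col 44 (.br 25 (.bad 4 768 [11, 2, 7, 6, 4, 3])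
  (.br 1 (.bad 4 17 [11, 5, 7, 6, 8, 10])
  (.br 23 (.bad 4 576 [11, 2, 7, 8, 4, 3])
  (.br 19 (.bad 4 768 [11, 3, 5, 6, 4, 2])
  (.br 29 (.col 38 (.br 30 (.col 58 (.br 16 (.bad 4 192 [11, 2, 3, 10, 9, 4])
  (.col 18 (.br 45 (.bad 4 320 [11, 0, 4, 5, 10, 3])
  (.bad 0 1344 [11, 0, 4, 5, 7, 9])))))
  (.bad 0 704 [11, 2, 4, 5, 8, 10])))
  (.bad 2 768 [2, 3, 6, 11, 5, 7]))))))))))
  (.br 23 (.col 31 (.col 35 (.col 39 (.br 32 (.col 34 (.br 19 (.bad 4 514 [11, 5, 8, 6, 7, 10])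
  (.col 43 (.br 1 (.bad 4 544 [11, 3, 4, 8, 6, 1])
  (.col 36 (.br 28 (.bad 4 640 [11, 1, 2, 10, 5, 4])
  (.bad 0 672 [11, 1, 4, 6, 8, 10])))))))
  (.bad 0 832 [11, 3, 4, 5, 7, 10])))))
  (.br 24 (.col 36 (.col 65 (.col 70 (.br 31 (.bad 4 640 [11, 2, 10, 6, 8, 1])
  (.br 27 (.col 34 (.bad 0 832 [11, 3, 4, 5, 7, 10]))
  (.bad 0 704 [11, 2, 4, 5, 8, 10]))))))
  (.br 6 (.col 69 (.br 31 (.bad 4 576 [11, 2, 4, 8, 7, 3])
  (.br 27 (.col 34 (.br 1 (.col 29 (.col 30 (.col 36 (.col 38 (.col 43 (.br 3 (.col 1 (.col 4 (.col 5 (.col 7 (.col 8 (.col 9 (.col 11 (.col 13 (.col 15 (.col 18 (.col 21 (.col 22 (.col 25 (.col 26 (.sol 5)))))))))))))))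
  (.col 1 (.col 4 (.col 5 (.col 7 (.col 9 (.col 13 (.col 15 (.col 25 (.br 44 (.bad 4 257 [11, 5, 9, 6, 10, 7])
  (.col 50 (.br 38 (.bad 4 384 [11, 5, 9, 6, 10, 3])
  (.bad 0 1216 [11, 3, 4, 5, 8, 9]))))))))))))))))))
  (.col 30 (.col 38 (.br 25 (.bad 4 516 [11, 5, 6, 7, 8, 3])
  (.bad 0 2688 [1, 2, 4, 5, 8, 10]))))))
  (.bad 0 704 [11, 2, 4, 5, 8, 10]))))
  (.br 30 (.col 39 (.col 58 (.col 70 (.br 32 (.br 1 (.bad 4 640 [11, 2, 4, 6, 10, 1])
  (.br 16 (.bad 4 192 [11, 2, 3, 10, 9, 4])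
  (.col 21 (.br 44 (.col 59 (.br 3 (.bad 4 1280 [11, 0, 6, 5, 4, 2])
  (.br 13 (.bad 4 257 [11, 5, 9, 6, 10, 7])
  (.col 43 (.br 26 (.col 7 (.br 37 (.col 25 (.br 10 (.bad 4 160 [11, 1, 9, 6, 4, 3])
  (.bad 2 144 [2, 5, 9, 11, 6, 8])))
  (.bad 0 1312 [11, 2, 4, 6, 7, 9])))
  (.bad 0 672 [11, 1, 4, 6, 8, 10]))))))
  (.bad 0 1344 [11, 0, 4, 5, 7, 9])))))
  (.bad 0 832 [11, 3, 4, 5, 7, 10])))))
  (.bad 0 3584 [2, 3, 4, 6, 7, 8]))))))))))))))))

def B_th11_222 : Dat where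
  r := 5
  V := [[.i, .o, .o, .o, .o],
    [.o, .i, .o, .o, .o],
    [.o, .o, .i, .o, .o],
    [.o, .o, .o, .i, .o],
    [.o, .o, .o, .o, .i],
    [.i, .o, .i, .o, .o],
    [.o, .i, .i, .o, .o],
    [.i, .o, .o, .i, .o],
    [.o, .w, .o, .i, .o],
    [.i, .o, .o, .o, .i],
    [.o, .v, .o, .o, .i]]
  P := [[.i, .o, .o, .o, .o],
    [.o, .i, .o, .o, .o],
    [.o, .o, .i, .o, .o],
    [.o, .o, .o, .i, .o],
    [.o, .o, .o, .o, .i],
    [.i, .o, .i, .o, .o],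
    [.o, .i, .i, .o, .o],
    [.i, .o, .o, .i, .o],
    [.o, .w, .o, .i, .o],
    [.i, .o, .o, .o, .i],
    [.o, .v, .o, .o, .i],
    [.o, .o, .o, .o, .o]]
  F := [[.i, .o, .o, .o, .o],
    [.o, .i, .o, .o, .o],
    [.o, .o, .i, .o, .o],
    [.i, .o, .i, .o, .o],
    [.o, .i, .i, .o, .o],
    [.i, .i, .i, .o, .o],
    [.o, .o, .o, .i, .o],
    [.i, .o, .o, .i, .o],
    [.i, .v, .o, .i, .o],
    [.i, .o, .i, .i, .o],
    [.i, .i, .i, .i, .o],
    [.i, .v, .i, .i, .o],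
    [.i, .v, .v, .i, .o],
    [.o, .i, .o, .w, .o],
    [.o, .i, .i, .w, .o],
    [.i, .i, .i, .w, .o],
    [.o, .o, .o, .o, .i],
    [.i, .o, .o, .o, .i],
    [.i, .w, .o, .o, .i],
    [.i, .o, .i, .o, .i],
    [.i, .i, .i, .o, .i],
    [.i, .w, .i, .o, .i],
    [.i, .w, .w, .o, .i],
    [.i, .o, .o, .i, .i],
    [.i, .w, .o, .i, .i],
    [.i, .v, .o, .i, .i],
    [.i, .o, .i, .i, .i],
    [.i, .i, .i, .i, .i],
    [.i, .w, .i, .i, .i],
    [.i, .v, .i, .i, .i],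
    [.i, .w, .w, .i, .i],
    [.i, .v, .v, .i, .i],
    [.i, .i, .i, .w, .i],
    [.i, .w, .o, .v, .i],
    [.i, .w, .i, .v, .i],
    [.i, .w, .w, .v, .i],
    [.i, .v, .o, .i, .w],
    [.i, .v, .i, .i, .w],
    [.i, .v, .v, .i, .w],
    [.o, .i, .o, .o, .v],
    [.o, .i, .i, .o, .v],
    [.i, .i, .i, .o, .v],
    [.i, .i, .i, .i, .v],
    [.o, .i, .o, .w, .v],
    [.o, .i, .i, .w, .v],
    [.i, .i, .i, .w, .v]]
  ht := 0x5600541052504e0046804c904ad05c005a00584074007200704036003c006c003a006a002e002a20384068402c6064806280268032a060c034e01ef01700351033501d001b000f004b2019404d60677007802d9053a079b02bd055e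
  ct := 0x200000000000000000000000000000000000000000000000000000000000000000000000000000000000000000000000000000000000000230000000000000000000000000000000000000000000000000000002200000000000000000000000000020000000000000200000210008100000000000000000000000000000000000000000000000000000000000000000000000000000000000000000000000000000000000000001e0000000000000000000000000000000000000000000000000000001c0000000000000000000000000002000000000000020000018000810000000000000000000000000000000000000000000000000000000006000000000000000000000000000600000000000016000000600183000000000000000000000000000006000000000000150000006001830000000000000002000000601fff80000001200081000018300fe0000000000000000000000000000000000000000000000000000000000000000000000000000000000000000000000000000000000000000000260000000000000000000000000000000000000000000000000000002500000000000000000000000000020000000000000200000240008100000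0000000000000000000000000000000000000000000000000002d00000000000000000000000000000000000000000000000000001600000000000000000000000000000300000000000003000002b000d5800000000000007f000000001fc100000000001fc100000158004000000000000000000000000000000000000000000000000000000000002a0000000000000000000000000007000000000000280000007001d4000000000000000000000000000009000000000000270000027002538000000000000002000000701fc1000000027000bf80001d38004000000000000000000000000000000006000000000000290000006001830000000000000000000007f01fc3000000000000140001fc3000c0000000000000000003000000601fc3000000027000d380001bf800c00000000000001fc10001fc300fe00000000138004000000c000000000000000000000000000000000000000000000000000000000000000000000000000000000000000000000000000000000000000000000000001f0000000000000000000000000000000000000000000000000000001d00000000000000000000000000020000000000000200000190008100000000000000000000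00000000000000000000000000000000000020000000000000000000000000000e0000000000001100000110044700000000000000000000000000000d00000000000013000000d004c68000000000000002000000d000bf80000001101fc100004468004000000000000000000000000000000000000000000000000000000000001b0000000000000000000000000004000000000000040000017005c200000000000000000000000000000100000000000001000000100680800000000000007f0000001000bf800000001000bf80005c080040000000000000000000000000000000060000000000001400000060018300000000000000040000006001bf800000011004420001fc3000c0000000000000000001000007f001bf800000001004c080001bf800c000000000001000bf80001bf80fe00000004408004000000c00000000000000000000000000000000000000000000000000000000000000000010000000000000000000000000000c0000000000001000000100040800000000000000000000000000000b00000000000010000001000408000000000000000200000080008100000001001fff800040800fe00000000000000000000000000000000f00000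000000010000001000408000000000000000000000000000700000007f01fc80001fc800200000000000000000003000000d000c680000001001fc8000043f802000000000000001fc1000000680040000001fc800fe0000020000000000000000000000000000000000000000a0000000000001000000100040800000000000000040000007001c20000000100043f8001fc80020000000000000000000100000010024080000007f0043f800043f8020000000000001000bf80001c08004000000043f80fe000002000000000000000000000000005000000600183000000010004080001fff80fe000000000000000020001fc3000c0000001fc8002000000fe0000000000000000001000c080001bf800c000000043f802000000fe000000000000000008004000000c0000000000002000000000000000000000000000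
  cl := [(29, 0, 0x3),
    (57, 0, 0x2a),
    (89, 0, 0x31),
    (108, 3, 0x10040),
    (105, 0, 0x20000110020),
    (113, 0, 0x8460),
    (149, 0, 0x182),
    (163, 0, 0x4010200),
    (170, 1, 0x8000010002),
    (177, 0, 0xe02),
    (197, 0, 0x810080),
    (202, 1, 0x10000010010),
    (209, 0, 0x1490),
    (225, 0, 0x40008010400),
    (277, 0, 0x2101),
    (294, 1, 0x80000012000),
    (297, 0, 0x90008),
    (305, 0, 0xa808),
    (323, 1, 0x100000014000),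
    (329, 0, 0x30001),
    (337, 0, 0xd001),
    (353, 0, 0x200100018000),
    (389, 0, 0x1002010100),
    (396, 2, 0x10004),
    (401, 0, 0x1904),
    (417, 0, 0x2020010800),
    (449, 0, 0x4080011000),
    (525, 0, 0x60002),
    (547, 0, 0x4080040),
    (553, 0, 0x380002),
    (562, 1, 0x2042),
    (581, 0, 0x820040),
    (585, 0, 0x520010),
    (594, 1, 0x4050),
    (609, 0, 0x108100040),
    (643, 0, 0x4800004),
    (645, 0, 0x3800002),
    (658, 1, 0x16),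
    (673, 0, 0x3c000002),
    (705, 0, 0xc8800010),
    (773, 0, 0x202022000),
    (777, 0, 0xa0004),
    (786, 1, 0x6004),
    (801, 0, 0x520082000),
    (833, 0, 0x980024000),
    (897, 0, 0xa2000004),
    (1037, 0, 0x8000040001),
    (1062, 1, 0x88000000040),
    (1065, 0, 0x28000200008),
    (1073, 0, 0x248),
    (1091, 1, 0x110000000040),
    (1097, 0, 0x30000400001),
    (1105, 0, 0xc1),
    (1121, 0, 0x260000000040),
    (1157, 0, 0x9001000080),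
    (1162, 1, 0x18000000004),
    (1169, 0, 0x284),
    (1185, 0, 0x4a010000200),
    (1217, 0, 0x54040000080),
    (1283, 1, 0x180000000004),
    (1285, 0, 0x81200000001),
    (1297, 0, 0xd),
    (1313, 0, 0x282400000008),
    (1345, 0, 0x304800000001),
    (1409, 0, 0x7000000004),
    (1541, 0, 0x201040040),
    (1545, 0, 0x640004),
    (1556, 2, 0x44),
    (1569, 0, 0x410200040),
    (1601, 0, 0x840400040),
    (1665, 0, 0x51000004),
    (1793, 0, 0xe00000004)]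
  sl := [0x198000016056, 0x48b02cd, 0x892038721c3, 0x380007f003f, 0xffff, 0x2ea53c39ae6a, 0x3749c8d3d4f1, 0x5f0ff811f96, 0x387fa20bf90d, 0xffffe6056, 0x3ffe516402cd, 0x3fffffffffff]
  t := B_th11_222_t

theorem B_th11_222_okD : B_th11_222.ckD = true := by decide +kernel

theorem B_th11_222_okT : B_th11_222.ckT TTab B_th11_222.t 0 0 = true := by decide +kernel

theorem lext_th11_222 : LExt 5 11 (vecL 5 B_th11_222.V) (vecP 5 B_th11_222.P) :=
  lext_of_chk' B_th11_222 B_th11_222_okD B_th11_222_okT (by decide)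

end QG
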