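import Pool.Agent.Lib.QG.BC8

/-! MP_2e6874_co, part (B): data for w4. -/

set_option autoImplicit false
set_option maxRecDepth 100000

namespace QG

def B_w4_t : Tr :=
  .br 0 (.br 8 (.col 13 (.br 1 (.col 9 (.col 10 (.col 11 (.col 12 (.br 3 (.col 2 (.col 3 (.col 4 (.col 5 (.col 6 (.col 8 (.sol 20)))))))
  (.col 2 (.col 3 (.col 4 (.col 5 (.col 6 (.col 8 (.sol 6))))))))))))
  (.col 9 (.col 10 (.col 11 (.col 12 (.br 3 (.col 2 (.col 4 (.bad 4 16 [8, 1, 3, 5, 6, 2])))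
  (.br 11 (.col 3 (.col 6 (.bad 4 4 [8, 4, 7, 5, 6, 0])))
  (.br 4 (.col 5 (.col 6 (.col 7 (.col 8 (.sol 5)))))
  (.col 5 (.col 6 (.col 7 (.col 8 (.sol 17))))))))))))))
  (.col 13 (.br 12 (.col 8 (.col 18 (.bad 4 32 [8, 2, 3, 4, 7, 0])))
  (.br 14 (.col 12 (.col 19 (.bad 4 64 [8, 1, 3, 4, 7, 0])))
  (.br 1 (.col 9 (.col 10 (.col 11 (.br 3 (.col 2 (.col 3 (.col 4 (.col 6 (.col 7 (.sol 3))))))
  (.col 4 (.col 7 (.br 6 (.col 3 (.col 6 (.sol 2)))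
  (.col 3 (.col 6 (.sol 13))))))))))
  (.col 11 (.br 4 (.col 5 (.col 6 (.col 16 (.br 13 (.bad 4 128 [8, 1, 6, 5, 3, 2])
  (.col 10 (.br 11 (.bad 4 128 [8, 2, 4, 5, 3, 1])
  (.bad 2 16 [1, 2, 5, 8, 6, 7])))))))
  (.col 7 (.br 11 (.col 3 (.col 6 (.bad 4 4 [8, 4, 7, 5, 6, 0])))
  (.br 6 (.col 6 (.br 3 (.col 2 (.col 10 (.sol 1)))
  (.col 2 (.col 10 (.sol 11)))))
  (.col 6 (.br 3 (.col 2 (.col 10 (.sol 12)))
  (.bad 2 128 [2, 3, 6, 8, 4, 5])))))))))))))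
  (.br 8 (.col 13 (.br 1 (.col 9 (.col 10 (.col 11 (.col 12 (.br 3 (.col 2 (.col 3 (.col 4 (.col 5 (.col 6 (.col 8 (.sol 0)))))))
  (.col 2 (.col 5 (.br 5 (.bad 4 8 [8, 4, 5, 7, 6, 1])
  (.br 11 (.bad 4 16 [8, 1, 6, 7, 2, 3])
  (.col 15 (.br 12 (.bad 4 128 [8, 2, 3, 5, 4, 1])
  (.bad 2 32 [2, 3, 6, 8, 4, 7]))))))))))))
  (.col 9 (.br 13 (.bad 4 64 [8, 0, 5, 7, 1, 3])
  (.br 2 (.bad 4 64 [8, 0, 5, 4, 3, 1])
  (.br 14 (.bad 5 64 [0, 8, 5, 1, 7, 4, 3])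
  (.bad 2 64 [1, 3, 5, 8, 4, 7])))))))
  (.br 1 (.col 9 (.col 11 (.br 9 (.bad 4 64 [8, 0, 3, 4, 5, 1])
  (.br 5 (.col 4 (.col 7 (.bad 4 8 [8, 4, 5, 7, 6, 1])))
  (.br 6 (.col 2 (.col 3 (.col 5 (.col 6 (.col 8 (.br 14 (.bad 4 16 [8, 1, 2, 7, 6, 3])
  (.col 19 (.sol 9))))))))
  (.br 13 (.col 19 (.br 3 (.col 14 (.col 15 (.col 16 (.col 17 (.sol 7)))))
  (.col 14 (.col 15 (.col 16 (.col 17 (.sol 19)))))))
  (.col 19 (.br 3 (.col 14 (.col 15 (.col 16 (.col 17 (.sol 10)))))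
  (.col 16 (.br 12 (.col 17 (.col 18 (.bad 4 128 [8, 2, 3, 5, 4, 1])))
  (.bad 2 32 [0, 3, 7, 8, 4, 6])))))))))))
  (.br 13 (.col 10 (.col 19 (.br 2 (.bad 4 64 [8, 1, 7, 4, 3, 0])
  (.br 9 (.bad 5 64 [1, 8, 7, 0, 5, 4, 3])
  (.bad 2 64 [0, 3, 7, 8, 4, 5])))))
  (.br 4 (.col 5 (.col 7 (.col 16 (.br 2 (.bad 4 8 [8, 4, 6, 7, 5, 1])
  (.br 9 (.bad 4 32 [8, 0, 3, 4, 6, 2])
  (.br 7 (.bad 4 1 [8, 4, 6, 5, 7, 2])
  (.br 10 (.col 15 (.col 18 (.col 19 (.sol 18))))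
  (.col 18 (.br 11 (.bad 4 128 [8, 2, 4, 5, 3, 1])
  (.br 14 (.bad 5 128 [3, 8, 5, 1, 6, 4, 2])
  (.bad 2 64 [0, 1, 4, 8, 5, 7])))))))))))
  (.br 10 (.col 6 (.col 14 (.col 15 (.col 18 (.br 5 (.bad 4 32 [8, 2, 7, 4, 3, 0])
  (.br 14 (.bad 4 128 [8, 1, 2, 4, 6, 3])
  (.br 7 (.bad 4 2 [8, 4, 6, 7, 5, 3])
  (.br 9 (.bad 5 32 [2, 8, 7, 0, 6, 4, 3])
  (.bad 2 64 [0, 1, 4, 8, 5, 7])))))))))
  (.br 15 (.col 13 (.col 18 (.col 19 (.br 7 (.bad 4 64 [8, 0, 1, 7, 5, 3])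
  (.br 6 (.bad 4 32 [8, 0, 2, 7, 6, 3])
  (.br 3 (.bad 4 128 [8, 1, 3, 5, 6, 2])
  (.br 11 (.bad 5 128 [2, 8, 4, 1, 6, 5, 3])
  (.br 2 (.bad 5 64 [3, 8, 4, 0, 5, 7, 1])
  (.bad 2 16 [1, 2, 5, 8, 6, 7])))))))))
  (.br 2 (.br 7 (.col 12 (.br 3 (.col 2 (.col 3 (.col 4 (.col 8 (.sol 4)))))
  (.col 2 (.col 3 (.col 4 (.col 8 (.sol 15)))))))
  (.col 12 (.bad 2 64 [0, 1, 4, 8, 5, 7])))
  (.br 7 (.col 12 (.br 3 (.col 2 (.col 3 (.col 4 (.col 8 (.sol 8)))))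
  (.col 2 (.br 5 (.bad 4 16 [8, 1, 6, 5, 3, 2])
  (.br 11 (.bad 4 16 [8, 1, 6, 7, 2, 3])
  (.br 12 (.bad 5 16 [1, 8, 6, 2, 7, 5, 3])
  (.bad 2 128 [1, 3, 4, 8, 5, 6])))))))
  (.br 3 (.col 2 (.col 4 (.br 9 (.bad 4 16 [8, 1, 3, 5, 6, 2])
  (.br 14 (.col 17 (.sol 16))
  (.bad 2 64 [0, 1, 4, 8, 5, 7])))))
  (.br 6 (.col 3 (.br 14 (.bad 4 16 [8, 1, 2, 7, 6, 3])
  (.br 12 (.col 8 (.sol 14))
  (.bad 2 128 [1, 3, 4, 8, 5, 6]))))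
  (.bad 1 0 [8, 0, 1, 5, 6, 7])))))))))))

def B_w4 : Dat where
  r := 4
  V := [[.i, .o, .o, .o],
    [.o, .i, .o, .o],
    [.o, .o, .i, .o],
    [.o, .o, .o, .i],
    [.i, .i, .o, .o],
    [.o, .i, .i, .o],
    [.o, .o, .i, .i],
    [.w, .o, .o, .i]]
  P := [[.i, .o, .o, .o],
    [.o, .i, .o, .o],
    [.o, .o, .i, .o],
    [.o, .o, .o, .i],
    [.i, .i, .o, .o],
    [.o, .i, .i, .o],
    [.o, .o, .i, .i],
    [.w, .o, .o, .i],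
    [.i, .w, .o, .o],
    [.i, .o, .w, .o],
    [.i, .o, .o, .w],
    [.o, .i, .w, .o],
    [.o, .i, .o, .w],
    [.o, .o, .i, .w],
    [.i, .v, .w, .o],
    [.i, .i, .w, .w],
    [.w, .i, .o, .w],
    [.o, .i, .v, .w],
    [.v, .i, .i, .w],
    [.v, .o, .i, .v],
    [.o, .o, .o, .o]]
  F := [[.i, .o, .o, .o],
    [.o, .i, .o, .o],
    [.i, .i, .o, .o],
    [.o, .o, .i, .o],
    [.o, .i, .i, .o],
    [.i, .i, .i, .o],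
    [.o, .o, .o, .i],
    [.o, .o, .i, .i],
    [.o, .i, .i, .i],
    [.i, .i, .i, .i],
    [.i, .o, .o, .w],
    [.i, .i, .o, .w],
    [.i, .i, .i, .w],
    [.i, .o, .w, .w],
    [.i, .i, .w, .w],
    [.i, .w, .w, .w]]
  ht := 0xe000d000c200b0009400a60070006100530037003800a9009b005c00cd006e
  ct := 0xf000000000000000000000000000e0000000000000100000010034080000000000000000000000000000c00000000000004000000a002820000000000000003000000b000c1800000001000ff800028080060000000000000000000000000000000090000000000000000000000000400000000000000020000002001c380000007f000008000000800e0000000000000000005000000600183000000000000020001fc3000c000000000002000c1800018300fe00000000008006000000c000000000000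
  cl := [(7, 1, 0x42),
    (11, 0, 0x9),
    (22, 2, 0xc8),
    (21, 0, 0x844),
    (25, 0, 0x2c),
    (35, 1, 0x150),
    (37, 0, 0x441),
    (41, 0, 0x31),
    (49, 0, 0x1260),
    (67, 1, 0x182),
    (67, 0, 0x2081),
    (73, 0, 0x7),
    (81, 0, 0x4284),
    (97, 0, 0x8301),
    (131, 0, 0x2408),
    (133, 0, 0xc02),
    (138, 1, 0x1a),
    (145, 0, 0x5808),
    (161, 0, 0x9410),
    (193, 0, 0xe002)]
  sl := [0x1da, 0x24c9, 0xc47, 0x3f, 0x5aec, 0x9771, 0xe387, 0xfc1a, 0xc8, 0x42, 0x1a, 0x441, 0x9, 0x7, 0x1260, 0x4284, 0x5808, 0x8301, 0x9410, 0xe002, 0xffff]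
  t := B_w4_t

theorem B_w4_okD : B_w4.ckD = true := by decide +kernel

theorem B_w4_okT : B_w4.ckT TTab B_w4.t 0 0 = true := by decide +kernel

theorem lext_w4 : LExt 4 8 (vecL 4 B_w4.V) (vecP 4 B_w4.P) :=
  lext_of_chk' B_w4 B_w4_okD B_w4_okT (by decide)

end QG
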