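import Pool.Agent.Lib.QG.BC8

/-! MP_2e6874_co, part (B): data for w5. -/

set_option autoImplicit false
set_option maxRecDepth 100000

namespace QG

def B_w5_t : Tr :=
  .br 0 (.br 13 (.col 29 (.br 1 (.col 25 (.col 26 (.col 27 (.col 28 (.br 3 (.col 18 (.col 19 (.col 20 (.col 21 (.col 22 (.col 24 (.br 6 (.col 4 (.col 5 (.col 6 (.col 9 (.col 10 (.col 12 (.col 13 (.col 15 (.sol 30)))))))))
  (.col 4 (.col 5 (.col 6 (.col 9 (.col 10 (.col 12 (.col 13 (.col 15 (.sol 8))))))))))))))))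
  (.col 18 (.col 19 (.col 20 (.col 21 (.col 22 (.col 24 (.br 6 (.col 4 (.col 12 (.col 13 (.bad 4 576 [10, 2, 4, 7, 8, 3]))))
  (.br 17 (.col 5 (.col 10 (.bad 4 40 [10, 6, 9, 7, 8, 1])))
  (.br 7 (.col 9 (.col 10 (.col 11 (.col 12 (.col 13 (.col 15 (.sol 7)))))))
  (.col 9 (.col 10 (.col 11 (.col 12 (.col 13 (.col 15 (.sol 27)))))))))))))))))))))
  (.col 25 (.col 26 (.col 27 (.col 28 (.br 3 (.col 18 (.col 21 (.col 22 (.bad 4 768 [10, 1, 4, 6, 7, 2]))))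
  (.br 7 (.col 9 (.col 12 (.col 13 (.bad 4 640 [10, 1, 4, 6, 8, 3]))))
  (.br 16 (.col 10 (.col 13 (.bad 4 12 [10, 5, 9, 6, 8, 0])))
  (.br 20 (.col 19 (.col 22 (.bad 4 260 [10, 5, 9, 6, 7, 0])))
  (.br 4 (.col 21 (.col 22 (.col 23 (.col 24 (.br 6 (.col 4 (.col 5 (.col 6 (.col 12 (.col 13 (.col 15 (.sol 6)))))))
  (.col 4 (.col 5 (.col 6 (.col 12 (.col 13 (.col 15 (.sol 25))))))))))))
  (.col 21 (.col 22 (.col 23 (.col 24 (.br 6 (.col 4 (.col 12 (.col 13 (.bad 4 576 [10, 2, 4, 7, 8, 3]))))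
  (.br 18 (.col 15 (.col 38 (.col 43 (.sol 24))))
  (.bad 2 544 [2, 4, 6, 10, 7, 8]))))))))))))))))))
  (.col 29 (.br 18 (.col 15 (.col 43 (.bad 4 192 [10, 3, 4, 5, 9, 0])))
  (.br 21 (.col 24 (.col 48 (.bad 4 320 [10, 2, 4, 5, 9, 0])))
  (.br 23 (.col 28 (.col 49 (.bad 4 384 [10, 1, 4, 5, 9, 0])))
  (.br 1 (.col 25 (.col 26 (.col 27 (.br 3 (.col 18 (.col 19 (.col 20 (.col 22 (.col 23 (.br 6 (.col 4 (.col 5 (.col 6 (.col 10 (.col 11 (.col 13 (.col 14 (.sol 4))))))))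
  (.col 6 (.col 11 (.col 14 (.br 10 (.col 5 (.col 10 (.col 13 (.sol 3))))
  (.col 5 (.col 10 (.col 13 (.sol 19))))))))))))))
  (.col 20 (.col 23 (.br 7 (.col 9 (.col 11 (.col 13 (.col 14 (.col 34 (.br 11 (.bad 4 3 [10, 6, 8, 7, 9, 3])
  (.br 17 (.bad 4 576 [10, 3, 5, 7, 4, 2])
  (.bad 2 96 [2, 3, 7, 10, 8, 9]))))))))
  (.col 11 (.col 14 (.br 17 (.col 5 (.col 10 (.bad 4 40 [10, 6, 9, 7, 8, 1])))
  (.br 10 (.col 10 (.col 13 (.br 6 (.col 4 (.col 19 (.col 22 (.sol 2))))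
  (.col 4 (.col 19 (.col 22 (.sol 17)))))))
  (.col 10 (.col 13 (.br 6 (.col 4 (.col 19 (.col 22 (.sol 18))))
  (.bad 2 96 [3, 4, 8, 10, 7, 9])))))))))))))))
  (.col 27 (.br 4 (.col 21 (.col 22 (.col 46 (.br 12 (.bad 4 257 [10, 5, 7, 6, 9, 2])
  (.col 26 (.br 20 (.bad 4 768 [10, 2, 5, 6, 4, 1])
  (.bad 2 768 [1, 2, 6, 10, 5, 7])))))))
  (.col 23 (.br 8 (.col 12 (.col 13 (.col 14 (.col 37 (.col 41 (.br 3 (.bad 4 48 [10, 6, 7, 9, 8, 2])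
  (.br 11 (.bad 4 65 [10, 5, 8, 7, 9, 3])
  (.col 22 (.br 16 (.bad 4 12 [10, 5, 9, 6, 8, 0])
  (.br 20 (.bad 4 260 [10, 5, 9, 6, 7, 0])
  (.bad 2 544 [2, 4, 6, 10, 7, 8])))))))))))
  (.col 14 (.br 16 (.col 10 (.col 13 (.bad 4 12 [10, 5, 9, 6, 8, 0])))
  (.br 17 (.col 5 (.col 13 (.bad 4 72 [10, 5, 9, 7, 8, 0])))
  (.br 20 (.col 19 (.col 22 (.bad 4 260 [10, 5, 9, 6, 7, 0])))
  (.br 10 (.col 13 (.br 6 (.col 4 (.col 22 (.br 3 (.col 18 (.col 26 (.col 34 (.sol 1))))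
  (.col 18 (.col 26 (.col 34 (.sol 14)))))))
  (.col 4 (.col 22 (.br 3 (.col 18 (.col 26 (.col 34 (.sol 15))))
  (.bad 2 768 [2, 4, 7, 10, 5, 6]))))))
  (.col 13 (.br 6 (.col 4 (.col 22 (.br 7 (.col 9 (.col 26 (.col 34 (.sol 16))))
  (.bad 2 640 [3, 4, 8, 10, 5, 6]))))
  (.bad 2 96 [3, 4, 8, 10, 7, 9]))))))))))))))))))
  (.br 13 (.col 29 (.br 1 (.col 25 (.col 26 (.col 27 (.col 28 (.br 3 (.col 18 (.col 19 (.col 20 (.col 21 (.col 22 (.col 24 (.br 6 (.col 4 (.col 5 (.col 6 (.col 9 (.col 10 (.col 12 (.col 13 (.col 15 (.sol 0)))))))))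
  (.col 4 (.col 9 (.col 12 (.br 9 (.bad 4 48 [10, 6, 7, 9, 8, 2])
  (.br 16 (.bad 4 160 [10, 1, 8, 9, 3, 4])
  (.col 33 (.col 36 (.br 18 (.bad 4 640 [10, 3, 4, 6, 5, 1])
  (.bad 2 96 [3, 4, 8, 10, 7, 9]))))))))))))))))
  (.col 18 (.col 21 (.br 5 (.bad 4 24 [10, 5, 6, 9, 7, 1])
  (.br 20 (.bad 4 288 [10, 1, 7, 9, 2, 4])
  (.col 45 (.br 21 (.bad 4 768 [10, 2, 4, 6, 5, 1])
  (.bad 2 320 [2, 4, 7, 10, 5, 9]))))))))))))
  (.col 25 (.br 22 (.bad 4 384 [10, 0, 6, 9, 1, 4])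
  (.br 2 (.bad 4 384 [10, 0, 6, 5, 4, 1])
  (.br 23 (.bad 5 384 [0, 10, 6, 1, 9, 5, 4])
  (.bad 2 384 [1, 4, 6, 10, 5, 9])))))))
  (.br 1 (.col 25 (.col 27 (.br 14 (.bad 4 384 [10, 0, 4, 5, 6, 1])
  (.br 5 (.col 20 (.col 23 (.bad 4 24 [10, 5, 6, 9, 7, 1])))
  (.br 9 (.col 11 (.col 14 (.bad 4 144 [10, 5, 6, 9, 8, 1])))
  (.br 10 (.col 5 (.col 9 (.col 10 (.col 12 (.col 13 (.col 15 (.br 23 (.bad 4 160 [10, 1, 3, 9, 8, 4])
  (.col 49 (.br 19 (.col 22 (.col 35 (.col 45 (.bad 4 36 [10, 6, 7, 9, 8, 4]))))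
  (.col 45 (.br 21 (.col 47 (.col 48 (.bad 4 768 [10, 2, 4, 6, 5, 1])))
  (.br 3 (.col 18 (.col 34 (.col 46 (.sol 12))))
  (.col 46 (.br 11 (.col 4 (.sol 11))
  (.bad 2 320 [0, 4, 9, 10, 5, 7])))))))))))))))
  (.br 11 (.col 4 (.col 18 (.col 19 (.col 22 (.col 24 (.br 23 (.bad 4 288 [10, 1, 2, 9, 7, 4])
  (.br 7 (.bad 4 3 [10, 6, 8, 7, 9, 3])
  (.col 41 (.br 15 (.bad 4 6 [10, 5, 8, 9, 7, 4])
  (.col 40 (.br 18 (.bad 4 640 [10, 3, 4, 6, 5, 1])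
  (.bad 2 544 [2, 4, 6, 10, 7, 8]))))))))))))
  (.br 22 (.col 49 (.br 3 (.col 44 (.col 45 (.col 46 (.col 47 (.br 6 (.col 32 (.col 33 (.col 34 (.col 35 (.col 37 (.col 38 (.sol 9)))))))
  (.col 32 (.col 33 (.col 34 (.col 35 (.col 37 (.col 38 (.sol 29))))))))))))
  (.col 44 (.col 45 (.col 46 (.col 47 (.br 6 (.col 35 (.col 37 (.bad 4 576 [10, 2, 4, 7, 8, 3])))
  (.br 18 (.col 38 (.col 42 (.col 43 (.sol 28))))
  (.bad 2 96 [2, 4, 9, 10, 7, 8])))))))))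
  (.col 49 (.br 3 (.col 44 (.col 45 (.col 46 (.col 47 (.br 6 (.col 32 (.col 33 (.col 34 (.col 35 (.col 37 (.col 38 (.sol 13)))))))
  (.col 34 (.col 37 (.br 18 (.col 42 (.col 43 (.bad 4 640 [10, 3, 4, 6, 5, 1])))
  (.bad 2 96 [2, 4, 9, 10, 7, 8])))))))))
  (.col 46 (.br 21 (.col 47 (.col 48 (.bad 4 768 [10, 2, 4, 6, 5, 1])))
  (.bad 2 320 [0, 4, 9, 10, 5, 7])))))))))))))
  (.br 22 (.col 26 (.col 49 (.br 2 (.bad 4 384 [10, 1, 9, 5, 4, 0])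
  (.br 14 (.bad 5 384 [1, 10, 9, 0, 6, 5, 4])
  (.bad 2 384 [0, 4, 9, 10, 5, 6])))))
  (.br 4 (.col 21 (.col 23 (.col 46 (.br 12 (.bad 4 257 [10, 5, 7, 6, 9, 2])
  (.br 2 (.bad 4 24 [10, 5, 7, 9, 6, 1])
  (.br 14 (.bad 4 320 [10, 0, 4, 5, 7, 2])
  (.br 6 (.col 4 (.col 6 (.col 34 (.col 37 (.br 15 (.col 35 (.col 36 (.col 38 (.col 40 (.col 42 (.col 43 (.col 45 (.sol 26))))))))
  (.col 35 (.col 36 (.col 38 (.col 43 (.br 20 (.bad 4 768 [10, 2, 5, 6, 4, 1])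
  (.col 32 (.br 23 (.bad 4 544 [10, 2, 4, 7, 8, 3])
  (.bad 2 384 [1, 4, 6, 10, 5, 9])))))))))))))
  (.col 37 (.br 7 (.bad 4 17 [10, 5, 7, 6, 8, 2])
  (.br 9 (.bad 4 80 [10, 5, 7, 9, 8, 2])
  (.br 10 (.col 10 (.col 13 (.br 23 (.bad 4 160 [10, 1, 3, 9, 8, 4])
  (.br 24 (.bad 4 192 [10, 0, 3, 9, 8, 4])
  (.bad 2 384 [1, 4, 6, 10, 5, 9])))))
  (.bad 1 128 [10, 0, 4, 5, 6, 8]))))))))))))
  (.br 8 (.col 12 (.col 14 (.col 37 (.col 41 (.br 2 (.bad 4 144 [10, 5, 8, 9, 6, 1])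
  (.br 3 (.bad 4 17 [10, 5, 8, 6, 7, 2])
  (.br 5 (.bad 4 80 [10, 5, 8, 9, 7, 2])
  (.br 11 (.bad 4 65 [10, 5, 8, 7, 9, 3])
  (.br 14 (.bad 4 192 [10, 0, 4, 5, 8, 3])
  (.br 12 (.bad 4 129 [10, 5, 8, 6, 9, 3])
  (.bad 1 256 [10, 0, 4, 5, 6, 7])))))))))))
  (.br 15 (.col 13 (.col 36 (.col 39 (.col 40 (.col 43 (.br 23 (.bad 4 640 [10, 1, 3, 5, 8, 4])
  (.br 9 (.bad 4 192 [10, 3, 9, 5, 4, 0])
  (.br 2 (.bad 4 12 [10, 5, 8, 6, 9, 0])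
  (.br 5 (.bad 4 72 [10, 5, 8, 7, 9, 0])
  (.br 12 (.bad 4 130 [10, 5, 8, 9, 6, 4])
  (.br 14 (.col 24 (.br 6 (.bad 4 96 [10, 2, 4, 7, 8, 3])
  (.col 35 (.br 20 (.bad 4 516 [10, 5, 8, 6, 7, 4])
  (.br 3 (.bad 4 288 [10, 1, 4, 6, 7, 2])
  (.bad 2 544 [2, 4, 6, 10, 7, 8]))))))
  (.bad 2 384 [1, 4, 6, 10, 5, 9]))))))))))))
  (.br 19 (.col 22 (.col 35 (.col 44 (.col 45 (.col 48 (.br 23 (.bad 4 768 [10, 1, 2, 5, 7, 4])
  (.br 12 (.bad 4 258 [10, 5, 7, 9, 6, 4])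
  (.br 10 (.bad 4 6 [10, 5, 7, 9, 8, 4])
  (.br 16 (.bad 4 516 [10, 5, 7, 6, 8, 4])
  (.br 7 (.bad 4 514 [10, 5, 7, 8, 6, 3])
  (.br 2 (.bad 4 260 [10, 5, 7, 6, 9, 0])
  (.br 14 (.col 15 (.bad 2 544 [2, 4, 6, 10, 7, 8]))
  (.bad 2 384 [1, 4, 6, 10, 5, 9])))))))))))))
  (.br 24 (.col 29 (.col 43 (.col 48 (.col 49 (.br 12 (.bad 4 384 [10, 0, 1, 9, 6, 4])
  (.br 11 (.bad 4 320 [10, 0, 2, 9, 7, 4])
  (.br 10 (.bad 4 192 [10, 0, 3, 9, 8, 4])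
  (.br 7 (.bad 4 640 [10, 1, 4, 6, 8, 3])
  (.br 6 (.bad 4 576 [10, 2, 4, 7, 8, 3])
  (.br 2 (.bad 5 384 [4, 10, 5, 0, 6, 9, 1])
  (.br 9 (.col 6 (.br 17 (.bad 4 96 [10, 3, 9, 7, 4, 2])
  (.bad 2 96 [2, 3, 7, 10, 8, 9])))
  (.bad 2 160 [1, 4, 9, 10, 6, 8]))))))))))))
  (.br 2 (.br 12 (.col 28 (.br 3 (.col 18 (.col 19 (.col 20 (.col 24 (.br 6 (.col 4 (.col 5 (.col 6 (.col 9 (.col 10 (.col 15 (.sol 5)))))))
  (.col 4 (.col 5 (.col 6 (.col 9 (.col 10 (.col 15 (.sol 22))))))))))))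
  (.col 18 (.col 19 (.col 20 (.col 24 (.br 6 (.col 4 (.col 6 (.bad 4 96 [10, 2, 4, 7, 8, 3])))
  (.br 18 (.col 15 (.col 38 (.col 42 (.sol 21))))
  (.bad 2 576 [2, 4, 5, 10, 7, 8])))))))))
  (.col 28 (.bad 2 384 [0, 1, 5, 10, 6, 9])))
  (.br 12 (.col 28 (.br 3 (.col 18 (.col 19 (.col 20 (.col 24 (.br 6 (.col 4 (.col 5 (.col 6 (.col 9 (.col 10 (.col 15 (.sol 10)))))))
  (.col 4 (.col 9 (.br 16 (.bad 4 160 [10, 1, 8, 9, 3, 4])
  (.col 33 (.br 18 (.bad 4 544 [10, 3, 4, 7, 6, 2])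
  (.bad 2 640 [1, 4, 5, 10, 6, 8])))))))))))
  (.col 18 (.br 20 (.bad 4 288 [10, 1, 7, 9, 2, 4])
  (.br 5 (.bad 4 288 [10, 1, 7, 6, 4, 2])
  (.br 21 (.bad 5 288 [1, 10, 7, 2, 9, 6, 4])
  (.bad 2 320 [0, 4, 9, 10, 5, 7])))))))
  (.br 3 (.col 18 (.col 20 (.br 14 (.bad 4 288 [10, 1, 4, 6, 7, 2])
  (.br 23 (.col 47 (.br 6 (.col 4 (.col 6 (.col 32 (.col 33 (.col 34 (.col 38 (.sol 23)))))))
  (.col 32 (.col 34 (.col 38 (.br 9 (.bad 4 48 [10, 6, 7, 9, 8, 2])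
  (.br 10 (.bad 4 160 [10, 1, 3, 9, 8, 4])
  (.bad 2 192 [3, 4, 8, 10, 5, 9]))))))))
  (.bad 2 384 [1, 4, 6, 10, 5, 9])))))
  (.br 11 (.col 19 (.br 23 (.bad 4 288 [10, 1, 2, 9, 7, 4])
  (.br 14 (.col 24 (.br 6 (.col 4 (.col 5 (.col 6 (.col 9 (.col 10 (.col 15 (.sol 20)))))))
  (.col 6 (.col 15 (.br 7 (.bad 4 48 [10, 6, 8, 9, 7, 2])
  (.bad 2 640 [1, 4, 5, 10, 6, 8]))))))
  (.bad 2 384 [1, 4, 6, 10, 5, 9]))))
  (.bad 1 256 [10, 0, 1, 6, 7, 9])))))))))))))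

def B_w5 : Dat where
  r := 5
  V := [[.i, .o, .o, .o, .o],
    [.o, .i, .o, .o, .o],
    [.o, .o, .i, .o, .o],
    [.o, .o, .o, .i, .o],
    [.o, .o, .o, .o, .i],
    [.i, .i, .o, .o, .o],
    [.o, .i, .i, .o, .o],
    [.o, .o, .i, .i, .o],
    [.o, .o, .o, .i, .i],
    [.w, .o, .o, .o, .i]]
  P := [[.i, .o, .o, .o, .o],
    [.o, .i, .o, .o, .o],
    [.o, .o, .i, .o, .o],
    [.o, .o, .o, .i, .o],
    [.o, .o, .o, .o, .i],
    [.i, .i, .o, .o, .o],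
    [.o, .i, .i, .o, .o],
    [.o, .o, .i, .i, .o],
    [.o, .o, .o, .i, .i],
    [.w, .o, .o, .o, .i],
    [.i, .w, .o, .o, .o],
    [.i, .o, .w, .o, .o],
    [.i, .o, .o, .w, .o],
    [.i, .o, .o, .o, .w],
    [.o, .i, .w, .o, .o],
    [.o, .i, .o, .w, .o],
    [.o, .i, .o, .o, .w],
    [.o, .o, .i, .w, .o],
    [.o, .o, .i, .o, .w],
    [.o, .o, .o, .i, .w],
    [.i, .v, .w, .o, .o],
    [.i, .i, .w, .w, .o],
    [.i, .i, .o, .w, .w],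
    [.w, .i, .o, .o, .w],
    [.o, .i, .v, .w, .o],
    [.o, .i, .i, .w, .w],
    [.v, .i, .i, .o, .w],
    [.o, .o, .i, .v, .w],
    [.v, .o, .i, .i, .w],
    [.v, .o, .o, .i, .v],
    [.o, .o, .o, .o, .o]]
  F := [[.i, .o, .o, .o, .o],
    [.o, .i, .o, .o, .o],
    [.i, .i, .o, .o, .o],
    [.o, .o, .i, .o, .o],
    [.o, .i, .i, .o, .o],
    [.i, .i, .i, .o, .o],
    [.o, .o, .o, .i, .o],
    [.o, .o, .i, .i, .o],
    [.o, .i, .i, .i, .o],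
    [.i, .i, .i, .i, .o],
    [.o, .o, .o, .o, .i],
    [.o, .o, .o, .i, .i],
    [.o, .o, .i, .i, .i],
    [.o, .i, .i, .i, .i],
    [.i, .i, .i, .i, .i],
    [.i, .o, .o, .o, .w],
    [.i, .i, .o, .o, .w],
    [.i, .i, .i, .o, .w],
    [.i, .i, .i, .i, .w],
    [.i, .o, .o, .w, .w],
    [.i, .i, .o, .w, .w],
    [.i, .i, .i, .w, .w],
    [.i, .o, .w, .w, .w],
    [.i, .i, .w, .w, .w],
    [.i, .w, .w, .w, .w]]
  ht := 0x3c003a0038203600324034602e0026802ac02ce01e001c101a3016700ef00f002d102b3027701780359033b01bc039d01de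
  ct := 0x180000000000000000000000000000000000000000000000000000001700000000000000000000000000010000000000000100000010058080000000000000000000000000000000000000000000000000000000150000000000000000000000000004000000000000040000013004c2000000000000000000000000000003000000000000030000014000c1800000000000007f0000001000ff800000001000ff80004c08006000000000000000000000000000000000000000000000000000000000001200000000000000000000000000080000000000000f000000f003c4000000000000000000000000000007000000000000100000010001c380000000000000010000001001ff80000007f003c080003c0800e0000000000000000000000000000000060000000000001100000060018300000000000000040000006001bf80000000f003c20001fc3000c0000000000000000003000000601fff800000010000c1800018300fe000000000001000ff80001bf80fe00000003c08006000000c0000000000000000000000000000000000000000000000000000000000000000000e000000000000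00000000000000000000000000000000000000000680000000000000000000000000000200000000000002000000200306000000000000007f000007f0000080000007f000008000000801800000000000000000000000000000000500000000000005000000b002c5800000000000007f000000000002000000000000020001fc58016000000000000000007f0000002000c1800000002000c180002c580fe00000000007f01fff8000000800600000000008006000001600000000000000000000000000000000000000090000000000000a000000a00285000000000000000000000000000400000007f01fc50001fc5001400000000000000000020000002001c380000007f00285000028500fe00000000007f000008000000800e0000001fff801400000140000000000000000000000000500000060018300000000a002850001fff80fe000000000000000020001fc3000c0000001fc5001400000fe0000000000000000002000c1800018300fe000000028500fe00000fe000000000000000008006000000c0000000000001400000000000000000000000000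
  cl := [(46, 2, 0x408),
    (53, 0, 0x44),
    (75, 1, 0x410),
    (85, 0, 0x41),
    (108, 3, 0xc40),
    (105, 0, 0x20420),
    (113, 0, 0x260),
    (139, 1, 0x402),
    (147, 0, 0x81),
    (166, 2, 0x1480),
    (169, 0, 0x10404),
    (177, 0, 0x284),
    (195, 1, 0x2500),
    (201, 0, 0x8401),
    (209, 0, 0x301),
    (225, 0, 0x44600),
    (263, 1, 0x802),
    (275, 0, 0x9),
    (294, 2, 0x1808),
    (293, 0, 0x100804),
    (305, 0, 0x2c),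
    (323, 1, 0x2810),
    (325, 0, 0x80801),
    (337, 0, 0x31),
    (353, 0, 0x204820),
    (387, 1, 0x3002),
    (387, 0, 0x401001),
    (401, 0, 0x7),
    (417, 0, 0x805004),
    (449, 0, 0x1006001),
    (523, 0, 0x8008),
    (534, 1, 0x42),
    (549, 0, 0x110040),
    (553, 0, 0x30008),
    (564, 2, 0xc8),
    (581, 0, 0x88040),
    (585, 0, 0x28010),
    (594, 1, 0x150),
    (609, 0, 0x260040),
    (643, 0, 0x408080),
    (649, 0, 0x18002),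
    (658, 1, 0x182),
    (673, 0, 0x850080),
    (705, 0, 0x1048100),
    (771, 0, 0x480008),
    (773, 0, 0x180002),
    (786, 1, 0x1a),
    (801, 0, 0xb00008),
    (833, 0, 0x1280010),
    (897, 0, 0x1c00002)]
  sl := [0x3dda, 0x489cc9, 0x198c47, 0x3843f, 0x3ff, 0xb75eec, 0x12eef71, 0x1c5f787, 0x1f8783f, 0x1ff81da, 0x1cc8, 0xc42, 0x41a, 0x1da, 0x88c41, 0x8409, 0xc9, 0x18407, 0x47, 0x3f, 0x264e60, 0x855684, 0xb0582c, 0xb700c8, 0x104e701, 0x1286831, 0x12e8150, 0x1c07007, 0x1c58182, 0x1f8001a, 0x1ffffff]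
  t := B_w5_t

theorem B_w5_okD : B_w5.ckD = true := by decide +kernel

theorem B_w5_okT : B_w5.ckT TTab B_w5.t 0 0 = true := by decide +kernel

theorem lext_w5 : LExt 5 10 (vecL 5 B_w5.V) (vecP 5 B_w5.P) :=
  lext_of_chk' B_w5 B_w5_okD B_w5_okT (by decide)

end QG
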