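import Pool.Agent.Lib.QG.BTall

/-! MP_2e6874_co, part (B): BaseA from the labelled extension theorems. -/

set_option autoImplicit false

namespace QG
open Set Matroid Submodule

/-- the labelled extension theorems for the small members of the families -/
structure LXB : Prop where
  w4 : LExt 4 tV_w4.length (vecL 4 tV_w4) (vecP 4 tP_w4)
  s10_3 : LExt 4 tV_s10_3.length (vecL 4 tV_s10_3) (vecP 4 tP_s10_3)
  th10_122 : LExt 4 tV_th10_122.length (vecL 4 tV_th10_122) (vecP 4 tP_th10_122)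
  la10_011 : LExt 4 tV_la10_011.length (vecL 4 tV_la10_011) (vecP 4 tP_la10_011)
  de00_22 : LExt 4 tV_de00_22.length (vecL 4 tV_de00_22) (vecP 4 tP_de00_22)
  de00_211 : LExt 4 tV_de00_211.length (vecL 4 tV_de00_211) (vecP 4 tP_de00_211)
  de00_1111 : LExt 4 tV_de00_1111.length (vecL 4 tV_de00_1111) (vecP 4 tP_de00_1111)
  de11_111 : LExt 4 tV_de11_111.length (vecL 4 tV_de11_111) (vecP 4 tP_de11_111)
  s11_3 : LExt 4 tV_s11_3.length (vecL 4 tV_s11_3) (vecP 4 tP_s11_3)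
  th11_122 : LExt 4 tV_th11_122.length (vecL 4 tV_th11_122) (vecP 4 tP_th11_122)
  la00_012 : LExt 4 tV_la00_012.length (vecL 4 tV_la00_012) (vecP 4 tP_la00_012)
  la00_111 : LExt 4 tV_la00_111.length (vecL 4 tV_la00_111) (vecP 4 tP_la00_111)
  de10_22 : LExt 4 tV_de10_22.length (vecL 4 tV_de10_22) (vecP 4 tP_de10_22)
  de10_211 : LExt 4 tV_de10_211.length (vecL 4 tV_de10_211) (vecP 4 tP_de10_211)
  de10_1111 : LExt 4 tV_de10_1111.length (vecL 4 tV_de10_1111) (vecP 4 tP_de10_1111)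
  th00_123 : LExt 5 tV_th00_123.length (vecL 5 tV_th00_123) (vecP 5 tP_th00_123)
  th00_222 : LExt 5 tV_th00_222.length (vecL 5 tV_th00_222) (vecP 5 tP_th00_222)
  s00_4 : LExt 5 tV_s00_4.length (vecL 5 tV_s00_4) (vecP 5 tP_s00_4)
  la11_011 : LExt 5 tV_la11_011.length (vecL 5 tV_la11_011) (vecP 5 tP_la11_011)
  de01_22 : LExt 5 tV_de01_22.length (vecL 5 tV_de01_22) (vecP 5 tP_de01_22)
  de01_211 : LExt 5 tV_de01_211.length (vecL 5 tV_de01_211) (vecP 5 tP_de01_211)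
  de01_1111 : LExt 5 tV_de01_1111.length (vecL 5 tV_de01_1111) (vecP 5 tP_de01_1111)
  w5 : LExt 5 tV_w5.length (vecL 5 tV_w5) (vecP 5 tP_w5)
  th10_222 : LExt 5 tV_th10_222.length (vecL 5 tV_th10_222) (vecP 5 tP_th10_222)
  s10_4 : LExt 5 tV_s10_4.length (vecL 5 tV_s10_4) (vecP 5 tP_s10_4)
  de11_22 : LExt 5 tV_de11_22.length (vecL 5 tV_de11_22) (vecP 5 tP_de11_22)
  de00_2111 : LExt 5 tV_de00_2111.length (vecL 5 tV_de00_2111) (vecP 5 tP_de00_2111)
  la10_012 : LExt 5 tV_la10_012.length (vecL 5 tV_la10_012) (vecP 5 tP_la10_012)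
  la10_111 : LExt 5 tV_la10_111.length (vecL 5 tV_la10_111) (vecP 5 tP_la10_111)
  de11_211 : LExt 5 tV_de11_211.length (vecL 5 tV_de11_211) (vecP 5 tP_de11_211)
  de11_1111 : LExt 5 tV_de11_1111.length (vecL 5 tV_de11_1111) (vecP 5 tP_de11_1111)
  th11_222 : LExt 5 tV_th11_222.length (vecL 5 tV_th11_222) (vecP 5 tP_th11_222)
  s11_4 : LExt 5 tV_s11_4.length (vecL 5 tV_s11_4) (vecP 5 tP_s11_4)
  la00_022 : LExt 5 tV_la00_022.length (vecL 5 tV_la00_022) (vecP 5 tP_la00_022)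
  la00_112 : LExt 5 tV_la00_112.length (vecL 5 tV_la00_112) (vecP 5 tP_la00_112)
  de10_2111 : LExt 5 tV_de10_2111.length (vecL 5 tV_de10_2111) (vecP 5 tP_de10_2111)
  la11_012 : LExt 6 tV_la11_012.length (vecL 6 tV_la11_012) (vecP 6 tP_la11_012)
  la11_111 : LExt 6 tV_la11_111.length (vecL 6 tV_la11_111) (vecP 6 tP_la11_111)
  la10_112 : LExt 6 tV_la10_112.length (vecL 6 tV_la10_112) (vecP 6 tP_la10_112)
  la11_112 : LExt 7 tV_la11_112.length (vecL 7 tV_la11_112) (vecP 7 tP_la11_112)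

theorem baseA_of (h : LXB) : BaseA where
  w4 := ba_w4 h.w4
  s10_3 := ba_s10_3 h.s10_3
  th10_122 := ba_th10_122 h.th10_122
  la10_011 := ba_la10_011 h.la10_011
  de00_22 := ba_de00_22 h.de00_22
  de00_211 := ba_de00_211 h.de00_211
  de00_1111 := ba_de00_1111 h.de00_1111
  de11_111 := ba_de11_111 h.de11_111
  s11_3 := ba_s11_3 h.s11_3
  th11_122 := ba_th11_122 h.th11_122
  la00_012 := ba_la00_012 h.la00_012
  la00_111 := ba_la00_111 h.la00_111
  de10_22 := ba_de10_22 h.de10_22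
  de10_211 := ba_de10_211 h.de10_211
  de10_1111 := ba_de10_1111 h.de10_1111
  th00_123 := ba_th00_123 h.th00_123
  th00_222 := ba_th00_222 h.th00_222
  s00_4 := ba_s00_4 h.s00_4
  la11_011 := ba_la11_011 h.la11_011
  de01_22 := ba_de01_22 h.de01_22
  de01_211 := ba_de01_211 h.de01_211
  de01_1111 := ba_de01_1111 h.de01_1111
  w5 := ba_w5 h.w5
  th10_222 := ba_th10_222 h.th10_222
  s10_4 := ba_s10_4 h.s10_4
  de11_22 := ba_de11_22 h.de11_22
  de00_2111 := ba_de00_2111 h.de00_2111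
  la10_012 := ba_la10_012 h.la10_012
  la10_111 := ba_la10_111 h.la10_111
  de11_211 := ba_de11_211 h.de11_211
  de11_1111 := ba_de11_1111 h.de11_1111
  th11_222 := ba_th11_222 h.th11_222
  s11_4 := ba_s11_4 h.s11_4
  la00_022 := ba_la00_022 h.la00_022
  la00_112 := ba_la00_112 h.la00_112
  de10_2111 := ba_de10_2111 h.de10_2111
  la11_012 := ba_la11_012 h.la11_012
  la11_111 := ba_la11_111 h.la11_111
  la10_112 := ba_la10_112 h.la10_112
  la11_112 := ba_la11_112 h.la11_112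

end QG
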