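import Pool.Agent.Lib.QG.JD

/-! MP_2e6874_co, part (B), row JA2: one-element extensions of labelled matroids. -/

set_option autoImplicit false

namespace QG
open Set Matroid Submodule

private def JA2_e (V : List (List F4)) (p : List F4) (i : Fin V.length) : Fin (V ++ [p]).length :=
  ⟨i.1, by rw [List.length_append]; exact Nat.lt_add_right _ i.2⟩

private def JA2_l (V : List (List F4)) (p : List F4) : Fin (V ++ [p]).length :=
  ⟨V.length, by simp⟩

private lemma JA2_e_inj (V : List (List F4)) (p : List F4) : Function.Injective (JA2_e V p) := by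
  intro i j h
  have := congrArg Fin.val h
  exact Fin.ext this

private lemma JA2_vec_e (k : ℕ) (V : List (List F4)) (p : List F4) (i : Fin V.length) :
    vecL k (V ++ [p]) (JA2_e V p i) = vecL k V i := by
  funext s
  unfold vecL JA2_e
  congr 1
  simp only [List.get_eq_getElem]
  exact List.getElem_append_left i.2

private lemma JA2_vec_l (k : ℕ) (V : List (List F4)) (p : List F4) :
    vecL k (V ++ [p]) (JA2_l V p) = fun s : Fin k => p.getD s F4.o := by
  funext s
  unfold vecL JA2_l
  congr 1
  simp [List.get_eq_getElem]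

private lemma JA2_cases (V : List (List F4)) (p : List F4) (j : Fin (V ++ [p]).length) :
    (∃ i, j = JA2_e V p i) ∨ j = JA2_l V p := by
  rcases lt_or_ge j.1 V.length with h | h
  · exact Or.inl ⟨⟨j.1, h⟩, rfl⟩
  · refine Or.inr (Fin.ext ?_)
    have h2 := j.2
    have h3 : (V ++ [p]).length = V.length + 1 := by simp
    change j.1 = V.length
    omega

private lemma JA2_ne (V : List (List F4)) (p : List F4) (i : Fin V.length) :
    JA2_e V p i ≠ JA2_l V p := by
  intro h
  have := congrArg Fin.val h
  change i.1 = V.length at this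
  have := i.2
  omega

private lemma JA2_image (k : ℕ) (V : List (List F4)) (p : List F4) (J : Set (Fin V.length)) :
    LinearIndepOn F4 (vecL k (V ++ [p])) (JA2_e V p '' J) ↔ LinearIndepOn F4 (vecL k V) J := by
  have h : vecL k (V ++ [p]) ∘ JA2_e V p = vecL k V := funext (JA2_vec_e k V p)
  constructor
  · intro h1
    rw [← h]
    exact h1.comp_of_image ((JA2_e_inj V p).injOn)
  · intro h1
    rw [← h] at h1
    exact h1.image_of_comp

/-- JA2a. (`ι` on the first elements, `x` for the last one; `vecL k (V ++ [p])` is `vecL k V` on the first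
elements and `p` on the last one; `linearIndepOn_insert`.) -/
theorem RepL.ext {α : Type} {M : Matroid α} {k : ℕ} {V P : List (List F4)}
    (hL : LExt k V.length (vecL k V) (vecP k P)) (hf : M.Finite) (hG : Good M) {x : α}
    (hx : x ∈ M.E) (hcl : x ∈ M.closure (M.E \ {x})) (h : RepL k V (M ＼ {x})) :
    ∃ p ∈ P, RepL k (V ++ [p]) M := by
  classical
  obtain ⟨ι, hinj, hr, hind⟩ := h
  rw [Matroid.delete_ground] at hr
  have hxr : x ∉ range ι := by
    rw [hr]
    exact fun h => h.2 rfl
  have hE : M.E = insert x (range ι) := by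
    rw [hr, insert_sdiff_singleton, insert_eq_of_mem hx]
  have hind' : ∀ I : Set (Fin V.length), M.Indep (ι '' I) ↔ LinearIndepOn F4 (vecL k V) I := by
    intro I
    rw [← hind I, Matroid.delete_indep_iff]
    refine ⟨fun h => ⟨h, ?_⟩, fun h => h.1⟩
    rw [Set.disjoint_singleton_right]
    exact fun hh => hxr (image_subset_range _ _ hh)
  obtain ⟨p0, hp0, hp⟩ := hL α M x ι hf hG hinj hxr hE (by rw [hr]; exact hcl) hind'
  obtain ⟨p, hpP, rfl⟩ := List.mem_map.mp hp0
  refine ⟨p, hpP, fun j => if h : j.1 < V.length then ι ⟨j.1, h⟩ else x, ?_, ?_, ?_⟩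
  all_goals
    have ee : ∀ i, (fun j : Fin (V ++ [p]).length => if h : j.1 < V.length then ι ⟨j.1, h⟩ else x)
        (JA2_e V p i) = ι i := fun i => dif_pos i.2
    have el : (fun j : Fin (V ++ [p]).length => if h : j.1 < V.length then ι ⟨j.1, h⟩ else x)
        (JA2_l V p) = x := dif_neg (lt_irrefl V.length)
    generalize (fun j : Fin (V ++ [p]).length => if h : j.1 < V.length then ι ⟨j.1, h⟩ else x) = g
      at ee el ⊢
  · intro a b hab
    rcases JA2_cases V p a with ⟨i, rfl⟩ | rfl <;> rcases JA2_cases V p b with ⟨j, rfl⟩ | rfl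
    · rw [ee, ee] at hab
      rw [hinj hab]
    · rw [ee, el] at hab
      exact (hxr ⟨i, hab⟩).elim
    · rw [ee, el] at hab
      exact (hxr ⟨j, hab.symm⟩).elim
    · rfl
  · rw [hE]
    ext y
    constructor
    · rintro ⟨a, rfl⟩
      rcases JA2_cases V p a with ⟨i, rfl⟩ | rfl
      · rw [ee]
        exact Or.inr ⟨i, rfl⟩
      · rw [el]
        exact Or.inl rfl
    · rintro (rfl | ⟨i, rfl⟩)
      · exact ⟨_, el⟩
      · exact ⟨_, ee i⟩
  · intro I
    have h1 : ∀ J : Set (Fin V.length), g '' (JA2_e V p '' J) = ι '' J := by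
      intro J
      rw [image_image]
      exact image_congr fun i _ => ee i
    have h2 : ∀ J : Set (Fin V.length), JA2_l V p ∉ JA2_e V p '' J := by
      rintro J ⟨i, _, hi⟩
      exact JA2_ne V p i hi
    by_cases hl : JA2_l V p ∈ I
    · have hI : I = insert (JA2_l V p) (JA2_e V p '' (JA2_e V p ⁻¹' I)) := by
        ext a
        constructor
        · intro ha
          rcases JA2_cases V p a with ⟨i, rfl⟩ | rfl
          · exact Or.inr ⟨i, ha, rfl⟩
          · exact Or.inl rfl
        · rintro (rfl | ⟨i, hi, rfl⟩)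
          · exact hl
          · exact hi
      rw [hI, image_insert_eq, el, h1, hp, linearIndepOn_insert (h2 _), JA2_image, JA2_vec_l,
        image_image]
      have h3 : (fun i => vecL k (V ++ [p]) (JA2_e V p i)) = vecL k V :=
        funext (JA2_vec_e k V p)
      rw [h3]
    · have hI : I = JA2_e V p '' (JA2_e V p ⁻¹' I) := by
        ext a
        constructor
        · intro ha
          rcases JA2_cases V p a with ⟨i, rfl⟩ | rfl
          · exact ⟨i, ha, rfl⟩
          · exact (hl ha).elim
        · rintro ⟨i, hi, rfl⟩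
          exact hi
      rw [hI, h1, hind', JA2_image]

private lemma JA2_isz {x : List F4} (h : isz x = true) (s : ℕ) : x.getD s F4.o = F4.o := by
  unfold isz at h
  rw [List.all_eq_true] at h
  rw [List.getD_eq_getElem?_getD]
  rcases lt_or_ge s x.length with h1 | h1
  · rw [List.getElem?_eq_getElem h1, Option.getD_some]
    exact eq_of_beq (h _ (List.getElem_mem h1))
  · rw [List.getElem?_eq_none h1, Option.getD_none]

private lemma JA2_addL : ∀ (x y : List F4) (s : ℕ),
    (addL x y).getD s F4.o = x.getD s F4.o + y.getD s F4.o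
  | [], y, s => by
    rw [addL]
    change y.getD s F4.o = 0 + y.getD s F4.o
    rw [zero_add]
  | a :: x, [], s => by
    rw [addL]
    · change (a :: x).getD s F4.o = (a :: x).getD s F4.o + 0
      rw [add_zero]
    · simp
  | a :: x, b :: y, 0 => rfl
  | a :: x, b :: y, s + 1 => by
    rw [addL]
    exact JA2_addL x y s

private lemma JA2_smL (c : F4) (x : List F4) (s : ℕ) :
    (smL c x).getD s F4.o = c * x.getD s F4.o := by
  unfold smL
  rw [List.getD_eq_getElem?_getD, List.getD_eq_getElem?_getD, List.getElem?_map]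
  rcases x[s]? with _ | a
  · change F4.o = c * 0
    rw [mul_zero]
    rfl
  · rfl

/-- JA2b. in a simple matroid the new vector is not zero and not parallel to a member of `V` -/
theorem RepL.par_false {α : Type} {M : Matroid α} {k : ℕ} {V : List (List F4)} {p : List F4}
    (hV : ∀ v ∈ V, v.length = k) (hp : p.length = k)
    (hs : ∀ x ∈ M.E, ∀ y ∈ M.E, M.Indep {x, y}) (h : RepL k (V ++ [p]) M) : parV V p = false := by
  obtain ⟨ι, hinj, hr, hind⟩ := h
  have hpair : ∀ a b, LinearIndepOn F4 (vecL k (V ++ [p])) {a, b} := by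
    intro a b
    rw [← hind, image_pair]
    exact hs _ (hr ▸ mem_range_self a) _ (hr ▸ mem_range_self b)
  rw [parV, Bool.or_eq_false_iff, List.any_eq_false]
  constructor
  · rw [← Bool.not_eq_true]
    intro hz
    have h1 := (hpair (JA2_l V p) (JA2_l V p)).ne_zero (mem_insert _ _)
    rw [JA2_vec_l] at h1
    exact h1 (funext fun s => JA2_isz hz s)
  · intro v hv hpar
    unfold par at hpar
    rw [List.any_eq_true] at hpar
    obtain ⟨c, -, hc⟩ := hpar
    obtain ⟨i, rfl⟩ := List.get_of_mem hv
    have h1 : vecL k (V ++ [p]) (JA2_e V p i) + c • vecL k (V ++ [p]) (JA2_l V p) = 0 := by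
      rw [JA2_vec_e, JA2_vec_l]
      funext s
      have h2 := JA2_isz hc (s : ℕ)
      rw [JA2_addL, JA2_smL] at h2
      exact h2
    have h2 := hpair (JA2_e V p i) (JA2_l V p)
    rw [LinearIndepOn.pair_iff _ (JA2_ne V p i)] at h2
    have h3 := (h2 1 c (by rw [one_smul]; exact h1)).1
    exact one_ne_zero h3

end QG
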