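import Pool.Agent.Lib.QG.HD

/-! MP_2e6874_co, part (B), row HA3: arithmetic of lists. -/

set_option autoImplicit false

namespace QG
open Set Matroid Submodule

private theorem HA3_dVa_addL (x : List F4) : ∀ (y : List F4) (j : ℕ),
    dVa j (addL x y) = dVa j x + dVa j y := by
  induction x with
  | nil =>
    intro y j
    simp [addL, dVa]
  | cons a x ih =>
    intro y j
    cases y with
    | nil => simp [addL, dVa]
    | cons b y =>
      show (a + b) • e (j / 5) (j % 5) + dVa (j + 1) (addL x y) =
        (a • e (j / 5) (j % 5) + dVa (j + 1) x) + (b • e (j / 5) (j % 5) + dVa (j + 1) y)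
      rw [ih, add_smul, add_add_add_comm]

private theorem HA3_dVa_smL (s : F4) (x : List F4) : ∀ j : ℕ,
    dVa j (smL s x) = s • dVa j x := by
  induction x with
  | nil =>
    intro j
    simp [smL, dVa]
  | cons a x ih =>
    intro j
    show (s * a) • e (j / 5) (j % 5) + dVa (j + 1) (smL s x) =
      s • (a • e (j / 5) (j % 5) + dVa (j + 1) x)
    rw [ih, smul_add, mul_smul]

private theorem HA3_dVa_zeros (l : List F4) (m : ℕ) : ∀ j : ℕ,
    dVa j (List.replicate m F4.o ++ l) = dVa (j + m) l := by
  induction m with
  | zero =>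
    intro j
    rfl
  | succ m ih =>
    intro j
    rw [List.replicate_succ, List.cons_append]
    show (0 : F4) • e (j / 5) (j % 5) + dVa (j + 1) (List.replicate m F4.o ++ l) = _
    rw [zero_smul, zero_add, ih, show j + 1 + m = j + (m + 1) by omega]

private theorem HA3_dVa_isz (x : List F4) : ∀ j : ℕ, isz x = true → dVa j x = 0 := by
  induction x with
  | nil =>
    intro j _
    rfl
  | cons a x ih =>
    intro j h
    rw [isz, List.all_cons, Bool.and_eq_true, beq_iff_eq] at h
    obtain ⟨h1, h2⟩ := h
    subst h1
    show (0 : F4) • e (j / 5) (j % 5) + dVa (j + 1) x = 0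
    rw [zero_smul, zero_add, ih _ h2]

private theorem HA3_dVa_sum (x : List F4) : ∀ k : ℕ, dVa k x =
    ∑ j ∈ Finset.range x.length, (x.getD j F4.o) • e ((k + j) / 5) ((k + j) % 5) := by
  induction x with
  | nil =>
    intro k
    rfl
  | cons a x ih =>
    intro k
    rw [List.length_cons, Finset.sum_range_succ', dVa, ih (k + 1), add_comm]
    congr 1
    refine Finset.sum_congr rfl fun j _ => ?_
    rw [List.getD_cons_succ, show k + 1 + j = k + (j + 1) by omega]

/-- HA3a. -/
theorem dV_addL (x y : List F4) : dV (addL x y) = dV x + dV y :=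
  HA3_dVa_addL x y 0

/-- HA3b. -/
theorem dV_smL (s : F4) (x : List F4) : dV (smL s x) = s • dV x :=
  HA3_dVa_smL s x 0

/-- HA3c. -/
theorem dV_eL {i n : ℕ} (hn : n < 5) : dV (eL i n) = e i n := by
  rw [dV, eL, HA3_dVa_zeros]
  show (1 : F4) • e ((0 + (5 * i + n)) / 5) ((0 + (5 * i + n)) % 5) + 0 = e i n
  rw [one_smul, add_zero, show (0 + (5 * i + n)) / 5 = i by omega,
    show (0 + (5 * i + n)) % 5 = n by omega]

theorem dV_nil : dV [] = 0 := rfl

/-- HA3d. -/
theorem dV_isz {x : List F4} (h : isz x = true) : dV x = 0 :=
  HA3_dVa_isz x 0 h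

/-- HA3e. the same for vectors of length `r` (entries `getD`) -/
def vf (r : ℕ) (x : List F4) : Fin r → F4 := fun s => x.getD s F4.o

private theorem HA3_getD_addL (x : List F4) : ∀ (y : List F4) (k : ℕ),
    (addL x y).getD k F4.o = x.getD k F4.o + y.getD k F4.o := by
  induction x with
  | nil =>
    intro y k
    show y.getD k F4.o = (0 : F4) + y.getD k F4.o
    rw [zero_add]
  | cons a x ih =>
    intro y k
    cases y with
    | nil =>
      show (a :: x).getD k F4.o = (a :: x).getD k F4.o + (0 : F4)
      rw [add_zero]
    | cons b y =>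
      cases k with
      | zero => rfl
      | succ k => exact ih y k

private theorem HA3_getD_smL (s : F4) (x : List F4) : ∀ k : ℕ,
    (smL s x).getD k F4.o = s * x.getD k F4.o := by
  induction x with
  | nil =>
    intro k
    show (0 : F4) = s * 0
    rw [mul_zero]
  | cons a x ih =>
    intro k
    cases k with
    | zero => rfl
    | succ k => exact ih k

theorem vf_addL (r : ℕ) (x y : List F4) : vf r (addL x y) = vf r x + vf r y := by
  funext s
  exact HA3_getD_addL x y s

theorem vf_smL (r : ℕ) (s : F4) (x : List F4) : vf r (smL s x) = s • vf r x := by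
  funext k
  exact HA3_getD_smL s x k

private theorem HA3_vf_isz (r : ℕ) {x : List F4} (h : isz x = true) : vf r x = 0 := by
  rw [isz, List.all_eq_true] at h
  funext s
  show x.getD s F4.o = F4.o
  by_cases hs : (s : ℕ) < x.length
  · rw [List.getD_eq_getElem (hn := hs)]
    exact beq_iff_eq.1 (h _ (List.getElem_mem hs))
  · rw [List.getD_eq_default _ _ (not_lt.1 hs)]

theorem vf_isz (r : ℕ) {x : List F4} (hx : x.length ≤ r) : vf r x = 0 ↔ isz x = true := by
  constructor
  · intro h
    rw [isz, List.all_eq_true]
    intro a ha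
    obtain ⟨k, hk, rfl⟩ := List.mem_iff_getElem.1 ha
    rw [beq_iff_eq]
    have h1 := congrFun h ⟨k, lt_of_lt_of_le hk hx⟩
    have h2 : x.getD k F4.o = F4.o := h1
    rwa [List.getD_eq_getElem (hn := hk)] at h2
  · exact HA3_vf_isz r

/-- HA3f. `par` -/
theorem vf_par (r : ℕ) {x y : List F4} (h : par x y = true) :
    ∃ s : F4, s ≠ 0 ∧ vf r x = s • vf r y := by
  rw [par, List.any_eq_true] at h
  obtain ⟨s, hs, h1⟩ := h
  refine ⟨s, ?_, ?_⟩
  · clear h1
    revert s
    decide
  · have h2 := HA3_vf_isz r h1
    rw [vf_addL, vf_smL] at h2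
    exact vadd_eq_zero.1 h2

/-- HA3g. `comb`: linear combinations in `VV` and in `F4^r` -/
theorem dV_comb (x : List F4) (T : List (List F4)) :
    dV (comb x T) = ∑ j ∈ Finset.range (min x.length T.length), (x.getD j F4.o) • dV (T.getD j []) := by
  induction x generalizing T with
  | nil =>
    have : comb [] T = [] := by cases T <;> rfl
    rw [this, List.length_nil, Nat.zero_min]
    rfl
  | cons a x ih =>
    cases T with
    | nil =>
      rw [List.length_nil, Nat.min_zero]
      rfl
    | cons t T =>
      rw [List.length_cons, List.length_cons, Nat.add_min_add_right, Finset.sum_range_succ']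
      show dV (addL (smL a t) (comb x T)) = _
      rw [dV_addL, dV_smL, ih T, add_comm]
      rfl

theorem vf_comb (r : ℕ) (x : List F4) (T : List (List F4)) :
    vf r (comb x T) =
      ∑ j ∈ Finset.range (min x.length T.length), (x.getD j F4.o) • vf r (T.getD j []) := by
  induction x generalizing T with
  | nil =>
    have : comb [] T = [] := by cases T <;> rfl
    rw [this, List.length_nil, Nat.zero_min]
    rfl
  | cons a x ih =>
    cases T with
    | nil =>
      rw [List.length_nil, Nat.min_zero]
      rfl
    | cons t T =>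
      rw [List.length_cons, List.length_cons, Nat.add_min_add_right, Finset.sum_range_succ']
      show vf r (addL (smL a t) (comb x T)) = _
      rw [vf_addL, vf_smL, ih T, add_comm]
      rfl

/-- HA3h. `dV` as a sum -/
theorem dV_sum (x : List F4) :
    dV x = ∑ j ∈ Finset.range x.length, (x.getD j F4.o) • e (j / 5) (j % 5) := by
  rw [dV, HA3_dVa_sum]
  simp only [zero_add]

/-- HA3i. lengths -/
theorem addL_length (x y : List F4) : (addL x y).length = max x.length y.length := by
  induction x generalizing y with
  | nil =>
    show y.length = _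
    simp
  | cons a x ih =>
    cases y with
    | nil =>
      show (a :: x).length = _
      simp
    | cons b y =>
      show (addL x y).length + 1 = _
      rw [ih, List.length_cons, List.length_cons]
      omega

theorem comb_length_le {r : ℕ} (x : List F4) {T : List (List F4)} (hT : ∀ t ∈ T, t.length ≤ r) :
    (comb x T).length ≤ r := by
  induction x generalizing T with
  | nil =>
    have : comb [] T = [] := by cases T <;> rfl
    rw [this]
    exact Nat.zero_le _
  | cons a x ih =>
    cases T with
    | nil => exact Nat.zero_le _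
    | cons t T =>
      show (addL (smL a t) (comb x T)).length ≤ r
      rw [addL_length]
      refine max_le ?_ (ih fun t' ht' => hT t' (List.mem_cons_of_mem _ ht'))
      rw [smL, List.length_map]
      exact hT t List.mem_cons_self

/-- HA3j. `spanL` -/
theorem spanL_mem {K : List (List F4)} {x : List F4} (hx : x ∈ spanL K) :
    dV x ∈ span F4 (SV K) := by
  induction K generalizing x with
  | nil =>
    rw [spanL, List.mem_singleton] at hx
    rw [hx, dV_nil]
    exact zero_mem _
  | cons k K ih =>
    rw [spanL, List.mem_flatMap] at hx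
    obtain ⟨y, hy, hx⟩ := hx
    rw [List.mem_map] at hx
    obtain ⟨s, -, rfl⟩ := hx
    rw [dV_addL, dV_smL]
    refine add_mem (smul_mem _ s (subset_span ⟨k, List.mem_cons_self, rfl⟩)) ?_
    refine span_mono ?_ (ih hy)
    rintro _ ⟨l, hl, rfl⟩
    exact ⟨l, List.mem_cons_of_mem _ hl, rfl⟩

end QG
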