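import Pool.Agent.Lib.QG.HA2
import Pool.Agent.Lib.QG.HA3

/-! MP_2e6874_co, part (B), row HA4: correctness of the transfer check. -/

set_option autoImplicit false

namespace QG
open Set Matroid Submodule

/-- HA4a. The linear map `Π : VV → F4^r` with `Π (dV x) = vf r (comb x T)` for the lists `x` which are not
longer than `T`: `Finsupp.linearCombination` (or `Finsupp.lsum`) of
`(i, n) ↦ if n < 5 ∧ 5 * i + n < T.length then vf r (T.getD (5 * i + n) []) else 0`. -/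
theorem exists_Pi (r : ℕ) (T : List (List F4)) : ∃ Φ : VV →ₗ[F4] (Fin r → F4),
    ∀ x : List F4, x.length ≤ T.length → Φ (dV x) = vf r (comb x T) := by
  classical
  let φ : ℕ × ℕ → (Fin r → F4) := fun p =>
    if p.2 < 5 ∧ 5 * p.1 + p.2 < T.length then vf r (T.getD (5 * p.1 + p.2) []) else 0
  refine ⟨Finsupp.linearCombination F4 φ, fun x hx => ?_⟩
  rw [dV_sum, vf_comb, map_sum, min_eq_left hx]
  refine Finset.sum_congr rfl fun j hj => ?_
  rw [Finset.mem_range] at hj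
  have h1 : 5 * (j / 5) + j % 5 = j := Nat.div_add_mod j 5
  have h2 : j % 5 < 5 := Nat.mod_lt _ (by norm_num)
  have h3 : φ (j / 5, j % 5) = vf r (T.getD j []) := by
    simp only [φ, h1]
    rw [if_pos ⟨h2, hj.trans_le hx⟩]
  rw [map_smul, e, Finsupp.linearCombination_single, one_smul, h3]

/-- HA4b. The linear map `Θ : F4^r → VV` with `Θ (vf r y) = dV (comb y B)`, `B.length = r`, `y.length ≤ r`. -/
theorem exists_Th (r : ℕ) (B : List (List F4)) (hB : B.length = r) :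
    ∃ Θ : (Fin r → F4) →ₗ[F4] VV, ∀ y : List F4, y.length ≤ r → Θ (vf r y) = dV (comb y B) := by
  classical
  refine ⟨∑ s : Fin r, (LinearMap.proj (R := F4) (φ := fun _ : Fin r => F4) s).smulRight
    (dV (B.getD s [])), fun y hy => ?_⟩
  rw [dV_comb, LinearMap.sum_apply, min_eq_left (hy.trans hB.ge)]
  have h1 : ∑ j ∈ Finset.range y.length, (y.getD j F4.o) • dV (B.getD j []) =
      ∑ j ∈ Finset.range r, (y.getD j F4.o) • dV (B.getD j []) := by
    refine Finset.sum_subset (Finset.range_subset_range.2 hy) fun j _ hj => ?_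
    rw [Finset.mem_range, not_lt] at hj
    rw [List.getD_eq_default _ _ hj]
    exact zero_smul F4 _
  rw [h1, Finset.sum_range]
  rfl

/-- HA4. -/
theorem ak_of_chk {r : ℕ} {V Q T B KL CL PL : List (List F4)}
    (h : chkX r V Q T B KL CL PL = true)
    (hA : AThm (range (vecL r V)) {p | p ∈ vecP r Q}) :
    AK (span F4 (SV KL)) (SV CL) (SV PL) := by
  obtain ⟨Φ, hΦ⟩ := exists_Pi r T
  simp only [chkX, Bool.and_eq_true, List.all_eq_true, List.any_eq_true, beq_iff_eq,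
    decide_eq_true_eq] at h
  obtain ⟨⟨⟨⟨⟨⟨⟨⟨⟨c1, c2⟩, c3⟩, c4⟩, c5⟩, c6⟩, c7⟩, c8⟩, c9⟩, c10⟩ := h
  obtain ⟨Θ, hΘ⟩ := exists_Th r B c2
  have hlen : ∀ x : List F4, (comb x T).length ≤ r := fun x =>
    comb_length_le x fun t ht => (c1 t ht).le
  have key : ∀ x : List F4, x.length ≤ T.length → (∃ k ∈ spanL KL,
      isz (addL (addL x (comb (comb x T) B)) k) = true) →
      dV x + Θ (Φ (dV x)) ∈ span F4 (SV KL) := by
    rintro x hx ⟨k, hk, hz⟩
    have h1 := dV_isz hz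
    rw [dV_addL, dV_addL, ← hΘ _ (hlen x), ← hΦ x hx] at h1
    rw [eq_neg_of_add_eq_zero_left h1]
    exact neg_mem (spanL_mem hk)
  refine AK.of_coord Φ Θ ?_ ?_ ?_ ?_ hA
  · intro k hk
    have h1 : span F4 (SV KL) ≤ LinearMap.ker Φ := by
      rw [span_le]
      rintro _ ⟨l, hl, rfl⟩
      have h2 := c5 l hl
      show Φ (dV l) = 0
      rw [hΦ l h2.1]
      exact (vf_isz r (hlen l)).2 h2.2
    exact h1 hk
  · rintro x (⟨l, hl, rfl⟩ | ⟨l, hl, rfl⟩)
    · exact key l (c6 l hl).1 (c6 l hl).2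
    · exact key l (c7 l hl).1 (c7 l hl).2
  · ext y
    constructor
    · rintro ⟨hy, _, ⟨_, ⟨l, hl, rfl⟩, rfl⟩, s, rfl⟩
      refine ⟨hy, ?_⟩
      obtain ⟨v, hv, hp⟩ := c9 l hl
      obtain ⟨s', -, hs'⟩ := vf_par r hp
      obtain ⟨i, rfl⟩ := List.mem_iff_get.1 hv
      refine ⟨vecL r V i, ⟨i, rfl⟩, s * s', ?_⟩
      rw [hΦ l (c6 l hl).1, hs', smul_smul]
      rfl
    · rintro ⟨hy, _, ⟨i, rfl⟩, s, rfl⟩
      refine ⟨hy, ?_⟩
      obtain ⟨-, c, hc, hp⟩ := c8 (V.get i) (List.get_mem V i)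
      obtain ⟨s', -, hs'⟩ := vf_par r hp
      refine ⟨Φ (dV c), ⟨_, ⟨c, hc, rfl⟩, rfl⟩, s * s', ?_⟩
      rw [hΦ c (c6 c hc).1, ← smul_smul, ← hs']
      rfl
  · intro p' hp'
    obtain ⟨q, hq, rfl⟩ := List.mem_map.1 hp'
    obtain ⟨p, hp, hpar⟩ := c10 q hq
    obtain ⟨s, hs, hs'⟩ := vf_par r hpar
    refine ⟨dV p, ⟨p, hp, rfl⟩, s, hs, ?_⟩
    rw [hΦ p (c7 p hp).1, ← hs']
    rfl

end QG
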