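import Pool.Agent.Lib.QG.JD
import Pool.Agent.Lib.QG.HA4

/-! MP_2e6874_co, part (B), row JA3: labelled matroids and configurations. -/

set_option autoImplicit false

namespace QG
open Set Matroid Submodule

private theorem JA3_two (x : VV) : x + x = 0 := by
  have h : (2 : F4) = 0 := CharTwo.two_eq_zero
  rw [← two_smul F4 x, h, zero_smul]

private theorem JA3_two' {r : ℕ} (x : Fin r → F4) : x + x = 0 := by
  have h : (2 : F4) = 0 := CharTwo.two_eq_zero
  rw [← two_smul F4 x, h, zero_smul]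

private theorem JA3_data {r : ℕ} {V Q T B KL CL PL : List (List F4)}
    (hc : chkX r V Q T B KL CL PL = true) :
    ∃ (Φ : VV →ₗ[F4] (Fin r → F4)) (Θ : (Fin r → F4) →ₗ[F4] VV),
      (∀ k ∈ span F4 (SV KL), Φ k = 0) ∧
      (∀ c ∈ SV CL, c + Θ (Φ c) ∈ span F4 (SV KL)) ∧
      (∀ i : Fin V.length, ∃ c ∈ SV CL, ∃ s : F4, s ≠ 0 ∧ vecL r V i = s • Φ c) ∧
      (∀ c ∈ SV CL, ∃ i : Fin V.length, ∃ s : F4, s ≠ 0 ∧ Φ c = s • vecL r V i) := by
  obtain ⟨Φ, hΦ⟩ := exists_Pi r T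
  simp only [chkX, Bool.and_eq_true, List.all_eq_true, List.any_eq_true, beq_iff_eq,
    decide_eq_true_eq] at hc
  obtain ⟨⟨⟨⟨⟨⟨⟨⟨⟨c1, c2⟩, c3⟩, c4⟩, c5⟩, c6⟩, c7⟩, c8⟩, c9⟩, c10⟩ := hc
  obtain ⟨Θ, hΘ⟩ := exists_Th r B c2
  have hlen : ∀ x : List F4, (comb x T).length ≤ r := fun x =>
    comb_length_le x fun t ht => (c1 t ht).le
  refine ⟨Φ, Θ, ?_, ?_, ?_, ?_⟩
  · intro k hk
    have h1 : span F4 (SV KL) ≤ LinearMap.ker Φ := by
      rw [span_le]
      rintro _ ⟨l, hl, rfl⟩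
      have h2 := c5 l hl
      show Φ (dV l) = 0
      rw [hΦ l h2.1]
      exact (vf_isz r (hlen l)).2 h2.2
    exact h1 hk
  · rintro _ ⟨l, hl, rfl⟩
    obtain ⟨hx, k, hk, hz⟩ := c6 l hl
    have h1 := dV_isz hz
    rw [dV_addL, dV_addL, ← hΘ _ (hlen l), ← hΦ l hx] at h1
    rw [eq_neg_of_add_eq_zero_left h1]
    exact neg_mem (spanL_mem hk)
  · intro i
    obtain ⟨-, c, hc, hp⟩ := c8 (V.get i) (List.get_mem V i)
    obtain ⟨s', h1, hs'⟩ := vf_par r hp
    refine ⟨dV c, ⟨c, hc, rfl⟩, s', h1, ?_⟩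
    rw [hΦ c (c6 c hc).1, ← hs']
    rfl
  · rintro _ ⟨l, hl, rfl⟩
    obtain ⟨v, hv, hp⟩ := c9 l hl
    obtain ⟨s', h1, hs'⟩ := vf_par r hp
    obtain ⟨i, rfl⟩ := List.mem_iff_get.1 hv
    refine ⟨i, s', h1, ?_⟩
    rw [hΦ l (c6 l hl).1, hs']
    rfl

/-- independence of the vectors `Θ (V i)` modulo `K` -/
private theorem JA3_ind {r : ℕ} {V : List (List F4)} {K : Submodule F4 VV} {C : Set VV}
    {Φ : VV →ₗ[F4] (Fin r → F4)} {Θ : (Fin r → F4) →ₗ[F4] VV}
    (h1 : ∀ k ∈ K, Φ k = 0) (h2 : ∀ c ∈ C, c + Θ (Φ c) ∈ K)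
    (h3 : ∀ i : Fin V.length, ∃ c ∈ C, ∃ s : F4, s ≠ 0 ∧ vecL r V i = s • Φ c)
    (I : Set (Fin V.length)) :
    LinearIndepOn F4 (vecL r V) I ↔ LinearIndepOn F4 (fun i => K.mkQ (Θ (vecL r V i))) I := by
  have hΦΘ : ∀ i : Fin V.length, Φ (Θ (vecL r V i)) = vecL r V i := by
    intro i
    obtain ⟨c, hc, s, -, hs⟩ := h3 i
    have h4 := h1 _ (h2 c hc)
    rw [map_add] at h4
    have h5 : Φ (Θ (Φ c)) = Φ c := by
      have h6 := JA3_two' (Φ c)
      rw [← h6] at h4
      exact (add_left_cancel h4)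
    rw [hs, map_smul, map_smul, h5]
  constructor
  · intro h
    have hle : K ≤ LinearMap.ker Φ := fun k hk => h1 k hk
    refine LinearIndepOn.of_comp (K.liftQ Φ hle) ?_
    have : (⇑(K.liftQ Φ hle) ∘ fun i => K.mkQ (Θ (vecL r V i))) = vecL r V := by
      funext i
      show K.liftQ Φ hle (K.mkQ (Θ (vecL r V i))) = _
      rw [mkQ_apply, liftQ_apply, hΦΘ]
    rw [this]
    exact h
  · intro h
    exact LinearIndepOn.of_comp (K.mkQ ∘ₗ Θ) h

/-- JA3a. `f x = Θ (V i)` for `x = ι i`, where `Θ` is the linear map of `exists_Th`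
(`Θ (vf r y) = dV (comb y B)`); `Φ` (`exists_Pi`) vanishes on `K` and `Φ Θ` is the identity on the span of `V`:
for `v ∈ V` there is `c ∈ CL` with `v` parallel to `Φ (dV c)`, and `dV c + Θ (Φ (dV c)) ∈ K`, apply `Φ`. So `V` is
independent on `I` iff the vectors `Θ (V i)`, `i ∈ I`, are independent modulo `K`. The lines: `Θ (V i)` is on
the line of `c` modulo `K`; every `c ∈ CL` is parallel to some `V i`. -/
theorem RepL.isCfg {α : Type} {M : Matroid α} {r : ℕ} {V Q T B KL CL PL : List (List F4)}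
    (hc : chkX r V Q T B KL CL PL = true) (h : RepL r V M) :
    IsCfg M (span F4 (SV KL)) (SV CL) := by
  classical
  obtain ⟨Φ, Θ, h1, h2, h3, h4⟩ := JA3_data hc
  obtain ⟨ι, hinj, hran, hI⟩ := h
  set K := span F4 (SV KL)
  let f : α → VV := fun x => if hx : ∃ i, ι i = x then Θ (vecL r V hx.choose) else 0
  have hf : ∀ i, f (ι i) = Θ (vecL r V i) := by
    intro i
    have hx : ∃ j, ι j = ι i := ⟨i, rfl⟩
    have : hx.choose = i := hinj hx.choose_spec
    show (if hx : ∃ j, ι j = ι i then Θ (vecL r V hx.choose) else 0) = _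
    rw [dif_pos hx, this]
  refine ⟨f, ?_, ?_⟩
  · intro I hIE
    obtain ⟨J, rfl⟩ : ∃ J, ι '' J = I := by
      refine ⟨ι ⁻¹' I, ?_⟩
      rw [image_preimage_eq_inter_range, hran]
      exact inter_eq_self_of_subset_left hIE
    rw [hI J, JA3_ind h1 h2 h3 J]
    have e1 : (fun i => K.mkQ (Θ (vecL r V i))) = (K.mkQ ∘ f) ∘ ι := by
      funext i
      show _ = K.mkQ (f (ι i))
      rw [hf]
    rw [e1]
    constructor
    · intro h5
      exact LinearIndepOn.image_of_comp ι (K.mkQ ∘ f) h5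
    · intro h5
      exact h5.comp_of_image hinj.injOn
  · ext y
    constructor
    · rintro ⟨hy, _, ⟨x, hx, rfl⟩, s, hs⟩
      rw [← hran] at hx
      obtain ⟨i, rfl⟩ := hx
      refine ⟨hy, ?_⟩
      obtain ⟨c, hc, s', -, hs'⟩ := h3 i
      refine ⟨c, hc, s * s', ?_⟩
      rw [hf, hs', map_smul] at hs
      have h6 := K.add_mem hs (K.smul_mem (s * s') (h2 c hc))
      have h7 : y + s • s' • Θ (Φ c) + (s * s') • (c + Θ (Φ c)) =
          y + (s * s') • c + ((s * s') • Θ (Φ c) + (s * s') • Θ (Φ c)) := by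
        rw [smul_add, smul_smul]
        abel
      rwa [h7, JA3_two, add_zero] at h6
    · rintro ⟨hy, c, hc, s, hs⟩
      refine ⟨hy, ?_⟩
      obtain ⟨i, s', -, hs'⟩ := h4 c hc
      refine ⟨f (ι i), ⟨ι i, by rw [← hran]; exact ⟨i, rfl⟩, rfl⟩, s * s', ?_⟩
      have h6 := K.add_mem hs (K.smul_mem s (h2 c hc))
      have h7 : y + s • c + s • (c + Θ (Φ c)) = y + (s * s') • f (ι i) + (s • c + s • c) := by
        rw [hf, smul_add, hs', map_smul, smul_smul]
        abel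
      rwa [h7, JA3_two, add_zero] at h6

/-- JA3b. the converse for simple matroids with the right number of elements: `f : α → VV` from
`IsCfg`, for `x ∈ M.E` the vector `Φ (f x)` is a nonzero multiple of `V i` for exactly one `i` (`hV`),
different elements have different `i` (`hs`), so `i` is a bijection; `Φ` is injective modulo `K` on the span
of the points. -/
theorem IsCfg.repL {α : Type} {M : Matroid α} {r : ℕ} {V Q T B KL CL PL : List (List F4)}
    (hc : chkX r V Q T B KL CL PL = true)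
    (hV : ∀ i j : Fin V.length, i ≠ j → ∀ s : F4, vecL r V i ≠ s • vecL r V j)
    (hf : M.Finite) (hs : ∀ x ∈ M.E, ∀ y ∈ M.E, M.Indep {x, y}) (hn : M.E.ncard = V.length)
    (h : IsCfg M (span F4 (SV KL)) (SV CL)) : RepL r V M := by
  classical
  obtain ⟨Φ, Θ, h1, h2, h3, h4⟩ := JA3_data hc
  obtain ⟨f, hI, hL⟩ := h
  set K := span F4 (SV KL)
  have hfin := hf.ground_finite
  -- the class of an element
  have key : ∀ x ∈ M.E, ∃ i : Fin V.length, ∃ t : F4, t ≠ 0 ∧
      K.mkQ (f x) = t • K.mkQ (Θ (vecL r V i)) := by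
    intro x hx
    have hxi : M.Indep {x} := by simpa using hs x hx x hx
    have hx0 : f x ∉ K := by
      have := (hI {x} (singleton_subset_iff.2 hx)).1 hxi
      rw [linearIndepOn_singleton_iff] at this
      intro hk
      exact this ((Submodule.Quotient.mk_eq_zero K).2 hk)
    have hmem : f x ∈ LnK K (f '' M.E) := by
      refine ⟨hx0, f x, ⟨x, hx, rfl⟩, 1, ?_⟩
      rw [one_smul, JA3_two]
      exact K.zero_mem
    rw [hL] at hmem
    obtain ⟨-, c, hc, s, hs1⟩ := hmem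
    obtain ⟨i, s', hs', hci⟩ := h4 c hc
    have hs0 : s ≠ 0 := by
      rintro rfl
      rw [zero_smul, add_zero] at hs1
      exact hx0 hs1
    refine ⟨i, s * s', mul_ne_zero hs0 hs', ?_⟩
    have h6 := K.add_mem hs1 (K.smul_mem s (h2 c hc))
    have h7 : f x + s • c + s • (c + Θ (Φ c)) =
        (f x + (s * s') • Θ (vecL r V i)) + (s • c + s • c) := by
      rw [smul_add, hci, map_smul, smul_smul]
      abel
    rw [h7, JA3_two, add_zero] at h6
    have h8 : K.mkQ (f x + (s * s') • Θ (vecL r V i)) = 0 := (Submodule.Quotient.mk_eq_zero K).2 h6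
    rw [map_add, map_smul] at h8
    have h9 : (s * s') • K.mkQ (Θ (vecL r V i)) + (s * s') • K.mkQ (Θ (vecL r V i)) = 0 := by
      rw [← map_smul, ← map_add, JA3_two, map_zero]
    rw [← h9] at h8
    exact add_right_cancel h8
  have key' : ∀ x : M.E, ∃ i : Fin V.length, ∃ t : F4, t ≠ 0 ∧
      K.mkQ (f x) = t • K.mkQ (Θ (vecL r V i)) := fun x => key x x.2
  choose g t ht0 htg using key'
  have ginj : Function.Injective g := by
    rintro ⟨x, hx⟩ ⟨y, hy⟩ hxy
    by_contra hne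
    have hne' : x ≠ y := fun h5 => hne (Subtype.ext h5)
    have hind := (hI {x, y} (by rintro z (rfl | rfl) <;> assumption)).1 (hs x hx y hy)
    rw [LinearIndepOn.pair_iff _ hne'] at hind
    have := hind (t ⟨y, hy⟩) (-(t ⟨x, hx⟩)) (by
      show t ⟨y, hy⟩ • K.mkQ (f x) + (-(t ⟨x, hx⟩)) • K.mkQ (f y) = 0
      have g1 := htg ⟨x, hx⟩
      have g2 := htg ⟨y, hy⟩
      rw [← hxy] at g2
      simp only at g1 g2
      rw [g1, g2, smul_smul, smul_smul, ← add_smul]
      rw [neg_mul, mul_comm (t ⟨y, hy⟩), add_neg_cancel, zero_smul])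
    exact ht0 ⟨y, hy⟩ this.1
  have : Finite M.E := hfin
  have hcard : Nat.card M.E = Nat.card (Fin V.length) := by
    rw [Nat.card_coe_set_eq, hn, Nat.card_eq_fintype_card, Fintype.card_fin]
  have gbij : Function.Bijective g := (Function.Injective.bijective_of_nat_card_le ginj hcard.ge)
  let G : M.E ≃ Fin V.length := Equiv.ofBijective g gbij
  have hG : ∀ i, g (G.symm i) = i := fun i => G.apply_symm_apply i
  let ι : Fin V.length → α := fun i => (G.symm i : α)
  have ιinj : Function.Injective ι := Subtype.val_injective.comp G.symm.injective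
  have ιran : range ι = M.E := by
    apply Subset.antisymm
    · rintro _ ⟨i, rfl⟩
      exact (G.symm i).2
    · intro x hx
      exact ⟨G ⟨x, hx⟩, by show ((G.symm (G ⟨x, hx⟩) : M.E) : α) = x; rw [G.symm_apply_apply]⟩
  refine ⟨ι, ιinj, ιran, fun I => ?_⟩
  have hsub : ι '' I ⊆ M.E := by
    rw [← ιran]
    exact image_subset_range _ _
  rw [hI _ hsub, JA3_ind h1 h2 h3 I]
  have e1 : LinearIndepOn F4 (K.mkQ ∘ f) (ι '' I) ↔ LinearIndepOn F4 ((K.mkQ ∘ f) ∘ ι) I :=
    ⟨fun h5 => h5.comp_of_image ιinj.injOn, fun h5 => LinearIndepOn.image_of_comp ι _ h5⟩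
  rw [e1]
  have e2 : ((K.mkQ ∘ f) ∘ ι) = fun i => t (G.symm i) • K.mkQ (Θ (vecL r V i)) := by
    funext i
    show K.mkQ (f (G.symm i : α)) = _
    rw [htg (G.symm i), hG]
  rw [e2]
  let w : Fin V.length → F4ˣ := fun i => Units.mk0 (t (G.symm i)) (ht0 _)
  exact LinearIndependent.units_smul_iff (fun i : I => K.mkQ (Θ (vecL r V i))) (fun i : I => w i)

end QG
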