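import Pool.Agent.Lib.QG.W3
import Pool.Agent.Lib.QG.Q2
set_option autoImplicit false

/-! Row W4b of part (T): if the rims of the cyclic structure are dependent there is an `M(K4)` minor. -/

namespace QG
open Set Matroid
variable {α : Type}

private def nx (n k : ℕ) : ℕ := if k + 1 < n then k + 1 else 0

/-- closed cycle of `n` lines with joints `s` and middle points `r`, the middle points dependent -/
private structure Str (M : Matroid α) (n : ℕ) (s r : ℕ → α) : Prop where
  S : rk M (s '' Iio n) = n
  L : ∀ k < n, rk M {s k, r k, s (nx n k)} ≤ 2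
  A : ∀ k < n, rk M {s k, r k} = 2
  B : ∀ k < n, rk M {r k, s (nx n k)} = 2
  R : rk M (r '' Iio n) < n

private theorem w4b_fl (M : Matroid α) [M.Finite] {a b c : α} {X : Set α}
    (h : rk M {a, b, c} ≤ 2) (h2 : 2 ≤ rk M {a, b}) (ha : a ∈ X) (hb : b ∈ X) :
    rk M (insert c X) = rk M X := by
  have h1 := rk_submod M X {a, b, c}
  have h3 : ({a, b} : Set α) ⊆ X ∩ {a, b, c} := by
    intro y hy
    simp only [mem_insert_iff, mem_singleton_iff] at hy
    rcases hy with rfl | rfl
    · exact ⟨ha, by simp⟩
    · exact ⟨hb, by simp⟩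
  have h4 : insert c X ⊆ X ∪ {a, b, c} := by
    intro y hy
    simp only [mem_insert_iff, mem_union, mem_singleton_iff] at hy ⊢
    tauto
  have h5 := rk_mono M h3
  have h6 := rk_mono M h4
  have h7 := rk_mono M (subset_insert c X)
  omega

private theorem w4b_img_ncard (s : ℕ → α) (A : Finset ℕ) : (s '' (A : Set ℕ)).ncard ≤ A.card := by
  refine (Set.ncard_image_le (Finset.finite_toSet A)).trans ?_
  rw [Set.ncard_coe_finset]

private theorem w4b_rk_img_le (M : Matroid α) [M.Finite] (s : ℕ → α) (A : Finset ℕ) :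
    rk M (s '' (A : Set ℕ)) ≤ A.card := by
  rw [← rk_inter_ground]
  have h1 := rk_le_ncard M (X := s '' (A : Set ℕ) ∩ M.E) inter_subset_right
  have h2 : (s '' (A : Set ℕ) ∩ M.E).ncard ≤ (s '' (A : Set ℕ)).ncard :=
    Set.ncard_le_ncard inter_subset_left ((Finset.finite_toSet A).image s)
  exact h1.trans (h2.trans (w4b_img_ncard s A))

/-- any set of joints is independent -/
private theorem Str.joints {M : Matroid α} [M.Finite] {n : ℕ} {s r : ℕ → α} (h : Str M n s r)
    (A : Finset ℕ) (hA : ∀ i ∈ A, i < n) : rk M (s '' (A : Set ℕ)) = A.card := by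
  refine le_antisymm (w4b_rk_img_le M s A) ?_
  have h1 : s '' Iio n ⊆ s '' (A : Set ℕ) ∪ s '' ((Finset.range n \ A : Finset ℕ) : Set ℕ) := by
    rintro _ ⟨i, hi, rfl⟩
    by_cases hiA : i ∈ A
    · exact Or.inl ⟨i, hiA, rfl⟩
    · refine Or.inr ⟨i, ?_, rfl⟩
      rw [Finset.coe_sdiff, Finset.coe_range]
      exact ⟨hi, hiA⟩
  have h2 := rk_mono M h1
  have h3 := rk_union_le M (s '' (A : Set ℕ)) (s '' ((Finset.range n \ A : Finset ℕ) : Set ℕ))
  have h4 := w4b_rk_img_le M s (Finset.range n \ A)
  have h5 : A ⊆ Finset.range n := fun i hi => Finset.mem_range.2 (hA i hi)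
  have h6 := Finset.card_sdiff_of_subset h5
  have h7 := Finset.card_le_card h5
  rw [Finset.card_range] at h6 h7
  rw [h.S] at h2
  omega

private theorem Str.j2 {M : Matroid α} [M.Finite] {n : ℕ} {s r : ℕ → α} (h : Str M n s r)
    {i j : ℕ} (hi : i < n) (hj : j < n) (hij : i ≠ j) {X : Set α} (h1 : s i ∈ X)
    (h2 : s j ∈ X) : 2 ≤ rk M X := by
  have h3 := h.joints {i, j} (by simp [hi, hj])
  rw [Finset.card_pair hij] at h3
  rw [← h3]
  refine rk_mono M ?_
  rintro _ ⟨k, hk, rfl⟩
  simp only [Finset.coe_insert, Finset.coe_singleton, mem_insert_iff, mem_singleton_iff] at hk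
  rcases hk with rfl | rfl <;> assumption

private theorem Str.j3 {M : Matroid α} [M.Finite] {n : ℕ} {s r : ℕ → α} (h : Str M n s r)
    {i j k : ℕ} (hi : i < n) (hj : j < n) (hk : k < n) (hij : i ≠ j) (hik : i ≠ k) (hjk : j ≠ k)
    {X : Set α} (h1 : s i ∈ X) (h2 : s j ∈ X) (h3 : s k ∈ X) : 3 ≤ rk M X := by
  have h4 := h.joints {i, j, k} (by simp [hi, hj, hk])
  rw [Finset.card_eq_three.2 ⟨i, j, k, hij, hik, hjk, rfl⟩] at h4
  rw [← h4]
  refine rk_mono M ?_
  rintro _ ⟨l, hl, rfl⟩
  simp only [Finset.coe_insert, Finset.coe_singleton, mem_insert_iff, mem_singleton_iff] at hl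
  rcases hl with rfl | rfl | rfl <;> assumption

private theorem Str.j4 {M : Matroid α} [M.Finite] {n : ℕ} {s r : ℕ → α} (h : Str M n s r)
    {i j k l : ℕ} (hi : i < n) (hj : j < n) (hk : k < n) (hl : l < n) (hij : i ≠ j) (hik : i ≠ k)
    (hil : i ≠ l) (hjk : j ≠ k) (hjl : j ≠ l) (hkl : k ≠ l)
    {X : Set α} (h1 : s i ∈ X) (h2 : s j ∈ X) (h3 : s k ∈ X) (h4 : s l ∈ X) : 4 ≤ rk M X := by
  have h5 := h.joints {i, j, k, l} (by simp [hi, hj, hk, hl])
  have h6 : ({i, j, k, l} : Finset ℕ).card = 4 := by
    rw [Finset.card_insert_of_notMem (by simp [hij, hik, hil]),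
      Finset.card_eq_three.2 ⟨j, k, l, hjk, hjl, hkl, rfl⟩]
  rw [h6] at h5
  rw [← h5]
  refine rk_mono M ?_
  rintro _ ⟨m, hm, rfl⟩
  simp only [Finset.coe_insert, Finset.coe_singleton, mem_insert_iff, mem_singleton_iff] at hm
  rcases hm with rfl | rfl | rfl | rfl <;> assumption

/-- closure steps -/
private theorem Str.addS {M : Matroid α} [M.Finite] {n : ℕ} {s r : ℕ → α} (h : Str M n s r)
    {k : ℕ} (hk : k < n) {X : Set α} (h1 : s k ∈ X) (h2 : r k ∈ X) :
    rk M (insert (s (nx n k)) X) = rk M X :=
  w4b_fl M (h.L k hk) (h.A k hk).ge h1 h2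

private theorem Str.addS' {M : Matroid α} [M.Finite] {n : ℕ} {s r : ℕ → α} (h : Str M n s r)
    {k : ℕ} (hk : k < n) {X : Set α} (h1 : s (nx n k) ∈ X) (h2 : r k ∈ X) :
    rk M (insert (s k) X) = rk M X := by
  refine w4b_fl M (a := r k) (b := s (nx n k)) ?_ (h.B k hk).ge h2 h1
  have h3 : ({r k, s (nx n k), s k} : Set α) = {s k, r k, s (nx n k)} := by
    ext y
    simp only [mem_insert_iff, mem_singleton_iff]
    tauto
  rw [h3]
  exact h.L k hk

private theorem nx_lt {n k : ℕ} (hn : 0 < n) : nx n k < n := by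
  unfold nx
  split_ifs with h <;> omega

private theorem nx_ne {n k : ℕ} (hn : 2 ≤ n) : nx n k ≠ k := by
  unfold nx
  split_ifs with h
  · omega
  · intro h1
    omega

private theorem Str.addR {M : Matroid α} [M.Finite] {n : ℕ} {s r : ℕ → α} (h : Str M n s r)
    (hn : 2 ≤ n) {k : ℕ} (hk : k < n) {X : Set α} (h1 : s k ∈ X) (h2 : s (nx n k) ∈ X) :
    rk M (insert (r k) X) = rk M X := by
  refine w4b_fl M (a := s k) (b := s (nx n k)) ?_ ?_ h1 h2
  · have h3 : ({s k, s (nx n k), r k} : Set α) = {s k, r k, s (nx n k)} := by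
      ext y
      simp only [mem_insert_iff, mem_singleton_iff]
      tauto
    rw [h3]
    exact h.L k hk
  · exact h.j2 hk (nx_lt (by omega)) (nx_ne hn).symm (by simp) (by simp)

/-- the key rank computation for the contraction -/
private theorem Str.key {M : Matroid α} [M.Finite] {m : ℕ} {s r : ℕ → α} (h : Str M (m + 1) s r)
    (hm : 3 ≤ m) {k : ℕ} (hk : k < m) {X : Set α} (h1 : s k ∈ X) (h2 : s (k + 1) ∈ X)
    (h3 : r m ∈ X) : 3 ≤ rk M X := by
  have hl : nx (m + 1) m = 0 := by simp [nx]
  rcases Nat.eq_zero_or_pos k with h0 | h0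
  · subst h0
    have h4 := h.addS' (k := m) (by omega) (X := X) (by rw [hl]; exact h1) h3
    rw [← h4]
    exact h.j3 (i := 0) (j := 1) (k := m) (by omega) (by omega) (by omega) (by omega) (by omega)
      (by omega) (mem_insert_of_mem _ h1) (mem_insert_of_mem _ h2) (mem_insert _ _)
  · rcases Nat.lt_or_ge (k + 1) m with h5 | h5
    · have h6 := rk_insert_le M (s 0) X
      have h7 := h.addS' (k := m) (by omega) (X := insert (s 0) X)
        (by rw [hl]; exact mem_insert _ _) (mem_insert_of_mem _ h3)
      have h8 := h.j4 (i := 0) (j := k) (k := k + 1) (l := m) (by omega) (by omega) (by omega)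
        (by omega) (by omega) (by omega) (by omega) (by omega) (by omega) (by omega)
        (X := insert (s m) (insert (s 0) X)) (by simp) (by simp [h1]) (by simp [h2]) (by simp)
      omega
    · have h6 : k + 1 = m := by omega
      rw [h6] at h2
      have h7 := h.addS (k := m) (by omega) (X := X) h2 h3
      rw [hl] at h7
      rw [← h7]
      exact h.j3 (i := k) (j := m) (k := 0) (by omega) (by omega) (by omega) (by omega) (by omega)
        (by omega) (mem_insert_of_mem _ h1) (mem_insert_of_mem _ h2) (mem_insert _ _)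

private theorem w4b_one (M : Matroid α) [M.Finite] {a b : α} (h : rk M {a, b} = 2) :
    rk M {b} = 1 := by
  have h1 := rk_insert_le M a {b}
  have h2 : rk M {b} ≤ 1 := by
    have := rk_insert_le M b ∅
    rw [rk_empty] at this
    have h3 : insert b (∅ : Set α) = {b} := by simp
    rw [h3] at this
    omega
  omega

private theorem Str.step {M : Matroid α} [M.Finite] {m : ℕ} {s r : ℕ → α} (h : Str M (m + 1) s r)
    (hm : 3 ≤ m) : Str (M ／ {r m}) m s r := by
  have hl : nx (m + 1) m = 0 := by simp [nx]
  have h1 : rk M {r m} = 1 := w4b_one M (h.A m (by omega))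
  have hc : ∀ X, rk (M ／ {r m}) X + 1 = rk M (X ∪ {r m}) := fun X => by
    rw [← rk_contract M {r m} X, h1]
  have hnx : ∀ k, k + 1 < m → nx m k = k + 1 := fun k hk => by simp [nx, hk]
  have hnx' : ∀ k, k < m → nx (m + 1) k = k + 1 := fun k hk => by simp [nx, hk]
  have hnxl : nx m (m - 1) = 0 := by
    have : ¬ (m - 1 + 1 < m) := by omega
    simp [nx, this]
  have hA : ∀ k < m, rk M {s k, r k, r m} = 3 := by
    intro k hk
    refine le_antisymm ?_ ?_
    · have h2 := rk_insert_le M (r m) {s k, r k}
      rw [h.A k (by omega)] at h2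
      have h3 : ({s k, r k, r m} : Set α) = insert (r m) {s k, r k} := by
        ext y
        simp only [mem_insert_iff, mem_singleton_iff]
        tauto
      rw [h3]
      exact h2
    · have h2 := h.addS (k := k) (by omega) (X := {s k, r k, r m}) (by simp) (by simp)
      rw [← h2, hnx' k hk]
      exact h.key hm hk (by simp) (by simp) (by simp)
  have hB : ∀ k, k + 1 < m → rk M {r k, s (k + 1), r m} = 3 := by
    intro k hk
    refine le_antisymm ?_ ?_
    · have h2 := rk_insert_le M (r m) {r k, s (k + 1)}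
      have h4 := h.B k (by omega)
      rw [hnx' k (by omega)] at h4
      rw [h4] at h2
      have h3 : ({r k, s (k + 1), r m} : Set α) = insert (r m) {r k, s (k + 1)} := by
        ext y
        simp only [mem_insert_iff, mem_singleton_iff]
        tauto
      rw [h3]
      exact h2
    · have h2 := h.addS' (k := k) (by omega) (X := {r k, s (k + 1), r m})
        (by rw [hnx' k (by omega)]; simp) (by simp)
      rw [← h2]
      exact h.key hm (k := k) (by omega) (by simp) (by simp) (by simp)
  have hlast : m - 1 + 1 = m := by omega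
  refine ⟨?_, ?_, ?_, ?_, ?_⟩
  · -- rank
    have h2 := hc (s '' Iio m)
    have h3 := h.addS' (k := m) (by omega) (X := s '' Iio m ∪ {r m})
      (by rw [hl]; exact Or.inl ⟨0, by simp; omega, rfl⟩) (by simp)
    have h4 : s '' Iio (m + 1) ⊆ insert (s m) (s '' Iio m ∪ {r m}) := by
      rintro _ ⟨i, hi, rfl⟩
      rcases Nat.lt_or_ge i m with h5 | h5
      · exact mem_insert_of_mem _ (Or.inl ⟨i, h5, rfl⟩)
      · have h6 : i = m := by
          have : i < m + 1 := hi
          omega
        rw [h6]
        exact mem_insert _ _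
    have h5 := rk_mono M h4
    rw [h.S] at h5
    have h6 : rk M (s '' Iio m) ≤ m := by
      have := w4b_rk_img_le M s (Finset.range m)
      rwa [Finset.coe_range, Finset.card_range] at this
    have h7 := rk_union_le M (s '' Iio m) {r m}
    omega
  · -- lines
    intro k hk
    have h2 := hc {s k, r k, s (nx m k)}
    rcases Nat.lt_or_ge (k + 1) m with h3 | h3
    · rw [hnx k h3] at h2 ⊢
      have h4 := h.L k (by omega)
      rw [hnx' k hk] at h4
      have h5 := rk_union_le M {s k, r k, s (k + 1)} {r m}
      omega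
    · have hk1 : k = m - 1 := by omega
      subst hk1
      rw [hnxl] at h2 ⊢
      have h4 := h.L (m - 1) (by omega)
      rw [hnx' _ (by omega), hlast] at h4
      have h5 := h.L m (by omega)
      rw [hl] at h5
      have h6 := rk_submod M {s (m - 1), r (m - 1), s m} {s m, r m, s 0}
      have h7 : ({s m} : Set α) ⊆ {s (m - 1), r (m - 1), s m} ∩ {s m, r m, s 0} := by
        intro y hy
        rw [mem_singleton_iff] at hy
        subst hy
        exact ⟨by simp, by simp⟩
      have h8 : ({s (m - 1), r (m - 1), s 0} ∪ {r m} : Set α) ⊆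
          {s (m - 1), r (m - 1), s m} ∪ {s m, r m, s 0} := by
        intro y hy
        simp only [mem_union, mem_insert_iff, mem_singleton_iff] at hy ⊢
        tauto
      have h9 := rk_mono M h7
      have h10 := rk_mono M h8
      have h11 := h.joints {m} (by simp)
      rw [Finset.coe_singleton, image_singleton, Finset.card_singleton] at h11
      omega
  · intro k hk
    have h2 := hc {s k, r k}
    have h3 : ({s k, r k} ∪ {r m} : Set α) = {s k, r k, r m} := by
      ext y
      simp only [mem_union, mem_insert_iff, mem_singleton_iff]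
      tauto
    rw [h3, hA k hk] at h2
    omega
  · intro k hk
    have h2 := hc {r k, s (nx m k)}
    rcases Nat.lt_or_ge (k + 1) m with h3 | h3
    · rw [hnx k h3] at h2 ⊢
      have h4 : ({r k, s (k + 1)} ∪ {r m} : Set α) = {r k, s (k + 1), r m} := by
        ext y
        simp only [mem_union, mem_insert_iff, mem_singleton_iff]
        tauto
      rw [h4, hB k h3] at h2
      omega
    · have hk1 : k = m - 1 := by omega
      subst hk1
      rw [hnxl] at h2 ⊢
      have h4 : 3 ≤ rk M ({r (m - 1), s 0} ∪ {r m}) := by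
        have h5 := h.addS' (k := m) (by omega) (X := {r (m - 1), s 0} ∪ {r m})
          (by rw [hl]; simp) (by simp)
        have h6 := h.addS' (k := m - 1) (by omega)
          (X := insert (s m) ({r (m - 1), s 0} ∪ {r m}))
          (by rw [hnx' _ (by omega), hlast]; simp) (by simp)
        rw [← h5, ← h6]
        exact h.j3 (i := m - 1) (j := m) (k := 0) (by omega) (by omega) (by omega) (by omega)
          (by omega) (by omega) (by simp) (by simp) (by simp)
      have h5 : rk M ({r (m - 1), s 0} ∪ {r m}) ≤ 3 := by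
        have h6 := w4b_rk_img_le M (fun i : ℕ => if i = 0 then r (m - 1) else if i = 1 then s 0
          else r m) {0, 1, 2}
        have h7 : ({r (m - 1), s 0} ∪ {r m} : Set α) ⊆ (fun i : ℕ => if i = 0 then r (m - 1)
          else if i = 1 then s 0 else r m) '' (({0, 1, 2} : Finset ℕ) : Set ℕ) := by
          intro y hy
          simp only [mem_union, mem_insert_iff, mem_singleton_iff] at hy
          rcases hy with (rfl | rfl) | rfl
          · exact ⟨0, by simp, by simp⟩
          · exact ⟨1, by simp, by simp⟩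
          · exact ⟨2, by simp, by simp⟩
        exact (rk_mono M h7).trans h6
      omega
  · have h2 := hc (r '' Iio m)
    have h3 : r '' Iio m ∪ {r m} ⊆ r '' Iio (m + 1) := by
      rintro y (⟨i, hi, rfl⟩ | hy)
      · exact ⟨i, by
          have : i < m := hi
          show i < m + 1
          omega, rfl⟩
      · rw [mem_singleton_iff] at hy
        subst hy
        exact ⟨m, by show m < m + 1; omega, rfl⟩
    have h4 := rk_mono M h3
    have h5 := h.R
    omega

private theorem w4b_dec1 : ∀ B P : Finset (Fin 6), B.card = 3 → B ∉ LK4 → B ⊆ P →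
    (∀ L ∈ LK4, 2 ≤ (L ∩ P).card → L ⊆ P) → P = Finset.univ := by
  decide +kernel

private theorem w4b_dec2 : ∀ i j : Fin 6, i ≠ j → ∃ B : Finset (Fin 6), B.card = 3 ∧ B ∉ LK4 ∧
    i ∈ B ∧ j ∈ B := by
  decide +kernel

private theorem w4b_dec3 : ∀ L ∈ LK4, ∀ P : Finset (Fin 6), 2 ≤ (L ∩ P).card →
    ∃ i ∈ L ∩ P, ∃ j ∈ L ∩ P, i ≠ j := by
  decide +kernel

/-- the base case: six points -/
private theorem w4b_six (M : Matroid α) [M.Finite] (e : Fin 6 → α) (hr : rk M (range e) = 3)
    (hL : ∀ L ∈ LK4, rk M (e '' (L : Set (Fin 6))) ≤ 2)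
    (hP : ∀ L ∈ LK4, ∀ i ∈ L, ∀ j ∈ L, i ≠ j → 2 ≤ rk M {e i, e j})
    (hE : range e ⊆ M.E) : ¬ Good M := by
  classical
  have hspan : ∀ B : Finset (Fin 6), B.card = 3 → B ∉ LK4 → rk M (e '' (B : Set (Fin 6))) = 3 := by
    intro B hB hBL
    set P : Finset (Fin 6) := Finset.univ.filter (fun i => e i ∈ M.closure (e '' (B : Set (Fin 6))))
      with hPd
    have hmem : ∀ i, i ∈ P ↔ e i ∈ M.closure (e '' (B : Set (Fin 6))) := fun i => by simp [hPd]
    have hBE : e '' (B : Set (Fin 6)) ⊆ M.E := (image_subset_range _ _).trans hE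
    have h1 : P = Finset.univ := by
      refine w4b_dec1 B P hB hBL ?_ ?_
      · intro i hi
        rw [hmem]
        exact M.subset_closure _ hBE ⟨i, hi, rfl⟩
      · intro L hLL h2 k hk
        obtain ⟨i, hi, j, hj, hij⟩ := w4b_dec3 L hLL P h2
        rw [Finset.mem_inter] at hi hj
        rw [hmem] at hi hj ⊢
        have hkE : e k ∈ M.E := hE ⟨k, rfl⟩
        have h3 : rk M {e i, e j, e k} ≤ 2 := by
          refine (rk_mono M ?_).trans (hL L hLL)
          intro y hy
          simp only [mem_insert_iff, mem_singleton_iff] at hy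
          rcases hy with rfl | rfl | rfl
          · exact ⟨i, hi.1, rfl⟩
          · exact ⟨j, hj.1, rfl⟩
          · exact ⟨k, hk, rfl⟩
        have h4 := w4b_fl M h3 (hP L hLL i hi.1 j hj.1 hij) hi.2 hj.2
        rw [← mem_closure_iff_rk M hkE] at h4
        rwa [closure_closure] at h4
    refine le_antisymm ?_ ?_
    · refine (rk_le_ncard M hBE).trans ?_
      refine (Set.ncard_image_le (Finset.finite_toSet B)).trans ?_
      rw [Set.ncard_coe_finset, hB]
    · rw [← hr, ← rk_closure M (e '' (B : Set (Fin 6)))]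
      refine rk_mono M ?_
      rintro _ ⟨i, rfl⟩
      rw [← hmem, h1]
      exact Finset.mem_univ i
  have hinj : Function.Injective e := by
    intro i j hij
    by_contra hne
    obtain ⟨B, hB, hBL, hi, hj⟩ := w4b_dec2 i j hne
    have h1 := hspan B hB hBL
    have hBE : e '' (B : Set (Fin 6)) ⊆ M.E := (image_subset_range _ _).trans hE
    have h2 := rk_le_ncard M hBE
    have h3 : e '' (B : Set (Fin 6)) ⊆ e '' ((B.erase j : Finset (Fin 6)) : Set (Fin 6)) := by
      rintro _ ⟨k, hk, rfl⟩
      by_cases hkj : k = j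
      · subst hkj
        exact ⟨i, by simp [hne, hi], hij⟩
      · exact ⟨k, by
          rw [Finset.mem_coe, Finset.mem_erase]
          exact ⟨hkj, hk⟩, rfl⟩
    have h4 := Set.ncard_le_ncard h3 ((Finset.finite_toSet _).image e)
    have h5 := Set.ncard_image_le (f := e) (Finset.finite_toSet (B.erase j))
    rw [Set.ncard_coe_finset, Finset.card_erase_of_mem hj, hB] at h5
    omega
  intro hG
  have hN : (M ↾ range e) ≤m M := ⟨∅, M.E \ range e, by
    rw [contract_empty, delete_eq_restrict, Set.sdiff_sdiff_cancel_left hE]⟩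
  refine hG _ hN ?_
  refine Or.inr (Or.inr (Or.inr (Or.inr (Or.inl ⟨e, hinj, rfl, fun B => ?_⟩))))
  have hfin : (M ↾ range e).Finite := ⟨by
    rw [restrict_ground_eq]
    exact Set.finite_range e⟩
  have hBe : e '' (B : Set (Fin 6)) ⊆ range e := image_subset_range _ _
  have hcard : (e '' (B : Set (Fin 6))).ncard = B.card := by
    rw [Set.ncard_image_of_injective _ hinj, Set.ncard_coe_finset]
  have hg : rk (M ↾ range e) (M ↾ range e).E = 3 := by
    rw [restrict_ground_eq, rk_restrict M subset_rfl, hr]
  rw [isBase_iff_rk (M ↾ range e) hBe, hg, hcard, rk_restrict M hBe]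
  constructor
  · rintro ⟨h1, h2⟩
    refine ⟨h2, fun h3 => ?_⟩
    have := hL B h3
    omega
  · rintro ⟨h1, h2⟩
    exact ⟨hspan B h1 h2, h1⟩

private theorem w4b_mem (M : Matroid α) [M.Finite] {a b : α} (h : 2 ≤ rk M {a, b}) :
    a ∈ M.E ∧ b ∈ M.E := by
  have h0 := rk_inter_ground M {a, b}
  have h1 := rk_le_ncard M (X := {a, b} ∩ M.E) inter_subset_right
  constructor
  · by_contra hc
    have h2 : ({a, b} ∩ M.E : Set α) ⊆ {b} := by
      rintro y ⟨hy, hyE⟩
      simp only [mem_insert_iff, mem_singleton_iff] at hy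
      rcases hy with rfl | rfl
      · exact absurd hyE hc
      · rfl
    have h3 := Set.ncard_le_ncard h2 (Set.finite_singleton b)
    rw [Set.ncard_singleton] at h3
    omega
  · by_contra hc
    have h2 : ({a, b} ∩ M.E : Set α) ⊆ {a} := by
      rintro y ⟨hy, hyE⟩
      simp only [mem_insert_iff, mem_singleton_iff] at hy
      rcases hy with rfl | rfl
      · rfl
      · exact absurd hyE hc
    have h3 := Set.ncard_le_ncard h2 (Set.finite_singleton a)
    rw [Set.ncard_singleton] at h3
    omega

private theorem Str.three {M : Matroid α} [M.Finite] {s r : ℕ → α} (h : Str M 3 s r) : ¬ Good M := by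
  have n0 : nx 3 0 = 1 := rfl
  have n1 : nx 3 1 = 2 := rfl
  have n2 : nx 3 2 = 0 := rfl
  have L0 := h.L 0 (by omega)
  have L1 := h.L 1 (by omega)
  have L2 := h.L 2 (by omega)
  have A0 := h.A 0 (by omega)
  have A1 := h.A 1 (by omega)
  have A2 := h.A 2 (by omega)
  have B0 := h.B 0 (by omega)
  have B1 := h.B 1 (by omega)
  have B2 := h.B 2 (by omega)
  rw [n0] at L0 B0
  rw [n1] at L1 B1
  rw [n2] at L2 B2
  have S01 : 2 ≤ rk M {s 0, s 1} := h.j2 (i := 0) (j := 1) (by omega) (by omega) (by omega)
    (by simp) (by simp)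
  have S12 : 2 ≤ rk M {s 1, s 2} := h.j2 (i := 1) (j := 2) (by omega) (by omega) (by omega)
    (by simp) (by simp)
  have S02 : 2 ≤ rk M {s 0, s 2} := h.j2 (i := 0) (j := 2) (by omega) (by omega) (by omega)
    (by simp) (by simp)
  have R02 : 2 ≤ rk M {r 0, r 2} := by
    have h1 := rk_insert_le M (s 0) {r 0, r 2}
    have h2 := h.addS (k := 0) (by omega) (X := {s 0, r 0, r 2}) (by simp) (by simp)
    have h3 := h.addS' (k := 2) (by omega) (X := insert (s (nx 3 0)) {s 0, r 0, r 2})
      (by rw [n2]; simp) (by simp)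
    have h4 := h.j3 (i := 0) (j := 1) (k := 2) (by omega) (by omega) (by omega) (by omega)
      (by omega) (by omega) (X := insert (s 2) (insert (s (nx 3 0)) {s 0, r 0, r 2}))
      (by simp) (by rw [n0]; simp) (by simp)
    omega
  have R01 : 2 ≤ rk M {r 0, r 1} := by
    have h1 := rk_insert_le M (s 1) {r 0, r 1}
    have h2 := h.addS (k := 1) (by omega) (X := {s 1, r 0, r 1}) (by simp) (by simp)
    have h3 := h.addS' (k := 0) (by omega) (X := insert (s (nx 3 1)) {s 1, r 0, r 1})
      (by rw [n0]; simp) (by simp)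
    have h4 := h.j3 (i := 0) (j := 1) (k := 2) (by omega) (by omega) (by omega) (by omega)
      (by omega) (by omega) (X := insert (s 0) (insert (s (nx 3 1)) {s 1, r 0, r 1}))
      (by simp) (by simp) (by rw [n1]; simp)
    omega
  have R12 : 2 ≤ rk M {r 2, r 1} := by
    have h1 := rk_insert_le M (s 2) {r 2, r 1}
    have h2 := h.addS (k := 2) (by omega) (X := {s 2, r 2, r 1}) (by simp) (by simp)
    have h3 := h.addS' (k := 1) (by omega) (X := insert (s (nx 3 2)) {s 2, r 2, r 1})
      (by rw [n1]; simp) (by simp)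
    have h4 := h.j3 (i := 0) (j := 1) (k := 2) (by omega) (by omega) (by omega) (by omega)
      (by omega) (by omega) (X := insert (s 1) (insert (s (nx 3 2)) {s 2, r 2, r 1}))
      (by rw [n2]; simp) (by simp) (by simp)
    omega
  obtain ⟨ms0, mr0⟩ := w4b_mem M A0.ge
  obtain ⟨ms1, mr1⟩ := w4b_mem M A1.ge
  obtain ⟨ms2, mr2⟩ := w4b_mem M A2.ge
  have hLr : rk M {r 0, r 2, r 1} ≤ 2 := by
    have h1 := h.R
    have h2 : ({r 0, r 2, r 1} : Set α) ⊆ r '' Iio 3 := by
      intro y hy
      simp only [mem_insert_iff, mem_singleton_iff] at hy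
      rcases hy with rfl | rfl | rfl
      · exact ⟨0, by show 0 < 3; omega, rfl⟩
      · exact ⟨2, by show 2 < 3; omega, rfl⟩
      · exact ⟨1, by show 1 < 3; omega, rfl⟩
    have h3 := rk_mono M h2
    omega
  let e : Fin 6 → α := ![s 0, r 0, s 1, r 2, s 2, r 1]
  have hrange : range e = {s 0, r 0, s 1, r 2, s 2, r 1} := by
    ext y
    simp only [mem_range, mem_insert_iff, mem_singleton_iff]
    constructor
    · rintro ⟨i, rfl⟩
      fin_cases i <;> simp [e]
    · rintro (rfl | rfl | rfl | rfl | rfl | rfl)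
      · exact ⟨0, rfl⟩
      · exact ⟨1, rfl⟩
      · exact ⟨2, rfl⟩
      · exact ⟨3, rfl⟩
      · exact ⟨4, rfl⟩
      · exact ⟨5, rfl⟩
  refine w4b_six M e ?_ ?_ ?_ ?_
  · -- rank
    rw [hrange]
    refine le_antisymm ?_ ?_
    · have h1 := w4b_rk_img_le M s {0, 1, 2}
      have h2 : s '' (({0, 1, 2} : Finset ℕ) : Set ℕ) = {s 0, s 1, s 2} := by
        simp [image_insert_eq]
      rw [h2] at h1
      have h3 := h.addR (by omega) (k := 0) (by omega) (X := {s 0, s 1, s 2}) (by simp)
        (by rw [n0]; simp)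
      have h4 := h.addR (by omega) (k := 1) (by omega) (X := insert (r 0) {s 0, s 1, s 2})
        (by simp) (by rw [n1]; simp)
      have h5 := h.addR (by omega) (k := 2) (by omega)
        (X := insert (r 1) (insert (r 0) {s 0, s 1, s 2})) (by simp) (by rw [n2]; simp)
      have h6 : ({s 0, r 0, s 1, r 2, s 2, r 1} : Set α) =
          insert (r 2) (insert (r 1) (insert (r 0) {s 0, s 1, s 2})) := by
        ext y
        simp only [mem_insert_iff, mem_singleton_iff]
        tauto
      rw [h6, h5, h4, h3]
      exact h1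
    · exact h.j3 (i := 0) (j := 1) (k := 2) (by omega) (by omega) (by omega) (by omega)
        (by omega) (by omega) (by simp) (by simp) (by simp)
  · intro L hL
    simp only [LK4, Finset.mem_insert, Finset.mem_singleton] at hL
    rcases hL with rfl | rfl | rfl | rfl
    · have : e '' ((({0, 1, 2} : Finset (Fin 6)) : Set (Fin 6))) = {s 0, r 0, s 1} := by
        simp [image_insert_eq, e]
      rw [this]
      exact L0
    · have : e '' ((({0, 3, 4} : Finset (Fin 6)) : Set (Fin 6))) = {s 2, r 2, s 0} := by
        simp only [Finset.coe_insert, Finset.coe_singleton, image_insert_eq, image_singleton]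
        ext y
        simp only [mem_insert_iff, mem_singleton_iff]
        show (y = s 0 ∨ y = r 2 ∨ y = s 2) ↔ _
        tauto
      rw [this]
      exact L2
    · have : e '' ((({1, 3, 5} : Finset (Fin 6)) : Set (Fin 6))) = {r 0, r 2, r 1} := by
        simp only [Finset.coe_insert, Finset.coe_singleton, image_insert_eq, image_singleton]
        rfl
      rw [this]
      exact hLr
    · have : e '' ((({2, 4, 5} : Finset (Fin 6)) : Set (Fin 6))) = {s 1, r 1, s 2} := by
        simp only [Finset.coe_insert, Finset.coe_singleton, image_insert_eq, image_singleton]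
        ext y
        simp only [mem_insert_iff, mem_singleton_iff]
        show (y = s 1 ∨ y = s 2 ∨ y = r 1) ↔ _
        tauto
      rw [this]
      exact L1
  · have e0 : e 0 = s 0 := rfl
    have e1 : e 1 = r 0 := rfl
    have e2 : e 2 = s 1 := rfl
    have e3 : e 3 = r 2 := rfl
    have e4 : e 4 = s 2 := rfl
    have e5 : e 5 = r 1 := rfl
    intro L hL i hi j hj hij
    simp only [LK4, Finset.mem_insert, Finset.mem_singleton] at hL
    rcases hL with rfl | rfl | rfl | rfl
    · simp only [Finset.mem_insert, Finset.mem_singleton] at hi hj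
      rcases hi with rfl | rfl | rfl <;> rcases hj with rfl | rfl | rfl <;>
        first
        | exact absurd rfl hij
        | (simp only [e0, e1, e2, e3, e4, e5]; first
            | exact A0.ge | (rw [pair_comm]; exact A0.ge) | exact B0.ge
            | (rw [pair_comm]; exact B0.ge) | exact S01 | (rw [pair_comm]; exact S01))
    · simp only [Finset.mem_insert, Finset.mem_singleton] at hi hj
      rcases hi with rfl | rfl | rfl <;> rcases hj with rfl | rfl | rfl <;>
        first
        | exact absurd rfl hij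
        | (simp only [e0, e1, e2, e3, e4, e5]; first
            | exact A2.ge | (rw [pair_comm]; exact A2.ge) | exact B2.ge
            | (rw [pair_comm]; exact B2.ge) | exact S02 | (rw [pair_comm]; exact S02))
    · simp only [Finset.mem_insert, Finset.mem_singleton] at hi hj
      rcases hi with rfl | rfl | rfl <;> rcases hj with rfl | rfl | rfl <;>
        first
        | exact absurd rfl hij
        | (simp only [e0, e1, e2, e3, e4, e5]; first
            | exact R02 | (rw [pair_comm]; exact R02) | exact R01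
            | (rw [pair_comm]; exact R01) | exact R12 | (rw [pair_comm]; exact R12))
    · simp only [Finset.mem_insert, Finset.mem_singleton] at hi hj
      rcases hi with rfl | rfl | rfl <;> rcases hj with rfl | rfl | rfl <;>
        first
        | exact absurd rfl hij
        | (simp only [e0, e1, e2, e3, e4, e5]; first
            | exact A1.ge | (rw [pair_comm]; exact A1.ge) | exact B1.ge
            | (rw [pair_comm]; exact B1.ge) | exact S12 | (rw [pair_comm]; exact S12))
  · rw [hrange]
    intro y hy
    simp only [mem_insert_iff, mem_singleton_iff] at hy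
    rcases hy with rfl | rfl | rfl | rfl | rfl | rfl <;> assumption

private theorem w4b_main : ∀ (n : ℕ) (M : Matroid α), M.Finite → ∀ s r : ℕ → α,
    Str M (n + 3) s r → ¬ Good M := by
  intro n
  induction n with
  | zero =>
    intro M hM s r h
    exact h.three
  | succ n ih =>
    intro M hM s r h hG
    have h1 : Str (M ／ {r (n + 3)}) (n + 3) s r := Str.step (m := n + 3) h (by omega)
    have h2 : (M ／ {r (n + 3)}) ≤m M := ⟨{r (n + 3)}, ∅, by rw [delete_empty]⟩
    have hf : (M ／ {r (n + 3)}).Finite := ⟨M.ground_finite.subset sdiff_subset⟩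
    exact ih _ hf s r h1 (hG.minor h2)

/-- rims dependent: there is an `M(K4)` minor -/
theorem W4b {M : Matroid α} [M.Finite] (h : TC4 M) {n : ℕ} {x : ℕ → α} (hc : Cyc M n x)
    (hR : ¬ M.Indep {y | ∃ j < n, y = x (2 * j + 1)}) : ¬ Good M := by
  have h3 := hc.three
  obtain ⟨m, rfl⟩ : ∃ m, n = m + 3 := ⟨n - 3, by omega⟩
  have hxE : ∀ i, x i ∈ M.E := fun i => by rw [← hc.ground]; exact ⟨i, rfl⟩
  have hx0 : x (2 * (m + 3)) = x 0 := by
    have := hc.per 0
    rwa [zero_add] at this
  have hnx : ∀ k < m + 3, x (2 * nx (m + 3) k) = x (2 * k + 2) := by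
    intro k hk
    unfold nx
    split_ifs with h1
    · rfl
    · have h2 : 2 * k + 2 = 2 * (m + 3) := by omega
      rw [h2, hx0]
  have htri : ∀ k, Tri M (x (2 * k)) (x (2 * k + 1)) (x (2 * k + 2)) := fun k =>
    hc.tri (2 * k) (even_two_mul k)
  have hstr : Str M (m + 3) (fun j => x (2 * j)) (fun j => x (2 * j + 1)) := by
    have hL : ∀ k < m + 3, rk M {x (2 * k), x (2 * k + 1), x (2 * nx (m + 3) k)} ≤ 2 := by
      intro k hk
      rw [hnx k hk]
      exact (htri k).2.2.2.2.2.2.le
    have hA : ∀ k < m + 3, rk M {x (2 * k), x (2 * k + 1)} = 2 := by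
      intro k hk
      exact rk_pair h (hxE _) (hxE _) (htri k).2.2.2.1
    have hB : ∀ k < m + 3, rk M {x (2 * k + 1), x (2 * nx (m + 3) k)} = 2 := by
      intro k hk
      rw [hnx k hk]
      exact rk_pair h (hxE _) (hxE _) (htri k).2.2.2.2.2.1
    refine ⟨?_, hL, hA, hB, ?_⟩
    · refine le_antisymm ?_ ?_
      · have := w4b_rk_img_le M (fun j => x (2 * j)) (Finset.range (m + 3))
        rwa [Finset.coe_range, Finset.card_range] at this
      · refine hc.rank.symm.le.trans ?_
        rw [← rk_closure M ((fun j => x (2 * j)) '' Iio (m + 3))]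
        refine rk_mono M ?_
        have hsp : ∀ j < m + 3, x (2 * j) ∈ (fun j => x (2 * j)) '' Iio (m + 3) :=
          fun j hj => ⟨j, hj, rfl⟩
        have hsub : (fun j => x (2 * j)) '' Iio (m + 3) ⊆ M.E := by
          rintro _ ⟨j, _, rfl⟩
          exact hxE _
        have hall : ∀ i < 2 * (m + 3), x i ∈ M.closure ((fun j => x (2 * j)) '' Iio (m + 3)) := by
          intro i hi
          obtain ⟨k, hk | hk⟩ := Nat.even_or_odd' i
          · rw [hk]
            exact M.subset_closure _ hsub (hsp k (by omega))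
          · rw [hk, mem_closure_iff_rk M (hxE _)]
            have hk3 : k < m + 3 := by omega
            refine w4b_fl M (a := x (2 * k)) (b := x (2 * nx (m + 3) k)) ?_ ?_ (hsp k hk3)
              (hsp _ (nx_lt (by omega)))
            · have h5 : ({x (2 * k), x (2 * nx (m + 3) k), x (2 * k + 1)} : Set α) =
                {x (2 * k), x (2 * k + 1), x (2 * nx (m + 3) k)} := by
                rw [pair_comm]
              rw [h5]
              exact hL k hk3
            · rw [hnx k hk3]
              exact (rk_pair h (hxE _) (hxE _) (htri k).2.2.2.2.1).ge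
        intro y hy
        rw [← hc.ground] at hy
        obtain ⟨i, rfl⟩ := hy
        have hper : ∀ q i, x (i + q * (2 * (m + 3))) = x i := by
          intro q
          induction q with
          | zero => intro i; simp
          | succ q ih =>
            intro i
            rw [Nat.succ_mul, ← add_assoc, hc.per, ih]
        have h6 : x i = x (i % (2 * (m + 3))) := by
          conv_lhs => rw [← Nat.mod_add_div i (2 * (m + 3)), mul_comm (2 * (m + 3))]
          exact hper _ _
        rw [h6]
        exact hall _ (Nat.mod_lt _ (by omega))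
    · have hset : {y | ∃ j < m + 3, y = x (2 * j + 1)} = (fun j => x (2 * j + 1)) '' Iio (m + 3) := by
        ext y
        constructor
        · rintro ⟨j, hj, rfl⟩
          exact ⟨j, hj, rfl⟩
        · rintro ⟨j, hj, rfl⟩
          exact ⟨j, hj, rfl⟩
      rw [hset] at hR
      have hsub : (fun j => x (2 * j + 1)) '' Iio (m + 3) ⊆ M.E := by
        rintro _ ⟨j, _, rfl⟩
        exact hxE _
      rw [indep_iff_rk M hsub] at hR
      have h4 := rk_le_ncard M hsub
      have h5 := w4b_img_ncard (fun j => x (2 * j + 1)) (Finset.range (m + 3))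
      rw [Finset.coe_range, Finset.card_range] at h5
      have h6 : rk M ((fun j => x (2 * j + 1)) '' Iio (m + 3)) <
          ((fun j => x (2 * j + 1)) '' Iio (m + 3)).ncard := lt_of_le_of_ne h4 hR
      exact lt_of_lt_of_le h6 h5
  exact w4b_main m M inferInstance _ _ hstr

end QG
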