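import Pool.Agent.Lib.QG.W4a
import Pool.Agent.Lib.QG.W4b
set_option autoImplicit false

/-! Part (T): Tutte's wheels and whirls theorem for good matroids (assembly, helper20). -/

namespace QG
open Set Matroid

/-- a 3-connected good matroid with at least five elements has a 3-connected one-element deletion or
contraction, or it is a whirl -/
theorem chain_good {α : Type} (M : Matroid α) (hf : M.Finite) (h3 : ThreeConn M) (hG : Good M)
    (hn : 5 ≤ M.E.ncard) :
    (∃ x ∈ M.E, ThreeConn (M ＼ {x})) ∨ (∃ x ∈ M.E, ThreeConn (M ／ {x})) ∨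
      ∃ r, 3 ≤ r ∧ M.E.ncard = 2 * r ∧ IsCfg M ⊥ (WhC r) := by
  rcases tutte_cyc (M := M) h3 hn with h | h | ⟨n, x, hc⟩
  · exact Or.inl h
  · exact Or.inr (Or.inl h)
  · refine Or.inr (Or.inr ⟨n, hc.three, hc.card, ?_⟩)
    have hT : TC4 M := ⟨h3, by omega⟩
    by_cases hR : M.Indep {y | ∃ j < n, y = x (2 * j + 1)}
    · exact W4a hT hc hR
    · exact absurd hG (W4b hT hc hR)

end QG
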