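import Pool.Agent.Lib.QG.JD
import Pool.Agent.Lib.QG.W4
import Pool.Agent.Lib.QG.Q2

/-! MP_2e6874_co, part (B), row JA4: at most four elements. -/

set_option autoImplicit false

namespace QG
open Set Matroid Submodule

private theorem JA4_popc {n m : ℕ} (hm : m < 2 ^ n) : (bits n m).ncard = popc n m := by
  induction n generalizing m with
  | zero =>
    have : bits 0 m = ∅ := Set.eq_empty_of_isEmpty _
    rw [this, ncard_empty]
    rfl
  | succ n ih =>
    have hm2 : m / 2 < 2 ^ n := by
      rw [pow_succ] at hm
      omega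
    rw [popc, ← ih hm2]
    have h1 : (Fin.succ '' bits n (m / 2)).ncard = (bits n (m / 2)).ncard :=
      ncard_image_of_injective _ (Fin.succ_injective n)
    have h0 : (0 : Fin (n + 1)) ∉ Fin.succ '' bits n (m / 2) := by
      rintro ⟨i, _, hi⟩
      exact Fin.succ_ne_zero i hi
    by_cases hodd : m % 2 = 1
    · have h2 : bits (n + 1) m = insert 0 (Fin.succ '' bits n (m / 2)) := by
        ext i
        refine Fin.cases ?_ (fun i => ?_) i
        · refine ⟨fun _ => mem_insert _ _, fun _ => ?_⟩
          change m.testBit 0 = true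
          rw [Nat.testBit_zero, decide_eq_true_eq]
          exact hodd
        · constructor
          · intro h
            have h' : m.testBit (i.succ : ℕ) = true := h
            rw [Fin.val_succ, Nat.testBit_succ] at h'
            exact Or.inr ⟨i, h', rfl⟩
          · rintro (h | ⟨j, hj, h⟩)
            · exact absurd h (Fin.succ_ne_zero i)
            · rw [← h]
              change m.testBit (j.succ : ℕ) = true
              rw [Fin.val_succ, Nat.testBit_succ]
              exact hj
      rw [h2, ncard_insert_of_notMem h0, h1, hodd, add_comm]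
    · have h2 : bits (n + 1) m = Fin.succ '' bits n (m / 2) := by
        ext i
        refine Fin.cases ?_ (fun i => ?_) i
        · refine ⟨fun h => ?_, fun h => absurd h h0⟩
          have h' : m.testBit 0 = true := h
          rw [Nat.testBit_zero, decide_eq_true_eq] at h'
          exact absurd h' hodd
        · constructor
          · intro h
            have h' : m.testBit (i.succ : ℕ) = true := h
            rw [Fin.val_succ, Nat.testBit_succ] at h'
            exact ⟨i, h', rfl⟩
          · rintro ⟨j, hj, h⟩
            rw [← h]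
            change m.testBit (j.succ : ℕ) = true
            rw [Fin.val_succ, Nat.testBit_succ]
            exact hj
      rw [h2, h1]
      omega

/-- enumeration of the ground set -/
private theorem JA4_enum {α : Type} (M : Matroid α) (hf : M.Finite) {n : ℕ}
    (hn : M.E.ncard = n) : ∃ e : Fin n → α, Function.Injective e ∧ range e = M.E := by
  have h1 : Nat.card M.E = n := by rw [Nat.card_coe_set_eq, hn]
  have : Finite M.E := M.ground_finite
  obtain ⟨φ⟩ : Nonempty (M.E ≃ Fin n) := ⟨Finite.equivFinOfCardEq h1⟩
  refine ⟨fun i => (φ.symm i : α), fun i j hij => φ.symm.injective (Subtype.ext hij), ?_⟩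
  ext x
  constructor
  · rintro ⟨i, rfl⟩
    exact (φ.symm i).2
  · intro hx
    exact ⟨φ ⟨x, hx⟩, by simp⟩

/-- uniform matroids -/
private theorem JA4_em {α : Type} {M : Matroid α} (hf : M.Finite) {n r : ℕ}
    (hn : M.E.ncard = n) (hr : rk M M.E = r)
    (hU : ∀ B, B ⊆ M.E → B.ncard = r → rk M B = r) :
    ∃ e : Fin n → α, EM e (fun m => popc n m == r) M := by
  obtain ⟨e, he, hE⟩ := JA4_enum M hf hn
  refine ⟨e, he, hE, fun m hm => ?_⟩
  have hs : e '' bits n m ⊆ M.E := by
    rw [← hE]
    exact image_subset_range _ _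
  have hc : (e '' bits n m).ncard = popc n m := by
    rw [ncard_image_of_injective _ he, JA4_popc hm]
  rw [isBase_iff_rk M hs, hr, hc, beq_iff_eq]
  exact ⟨fun h => h.2, fun h => ⟨hU _ hs (hc.trans h), h⟩⟩

private theorem JA4_zero {α : Type} {M : Matroid α} (hf : M.Finite) (hE : M.E = ∅) : QGam M := by
  refine ⟨hf, ⟨Unit, fun _ _ => False, ∅, fun _ => (), inferInstance, ?_, ?_⟩,
    F4, inferInstance, F4.card, ?_⟩
  · rw [hE]
    exact injOn_empty _
  · intro I hI
    rw [hE, subset_empty_iff] at hI
    subst hI
    refine ⟨fun _ => ⟨fun _ => [], ?_, ?_⟩, fun _ => M.empty_indep⟩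
    · intro x hx
      rw [image_empty] at hx
      exact absurd hx (notMem_empty x)
    · intro x hx
      rw [image_empty] at hx
      exact absurd hx (notMem_empty x)
  · refine ⟨F4, inferInstance, inferInstance, fun _ => 0, ?_⟩
    intro I hI
    rw [hE, subset_empty_iff] at hI
    subst hI
    exact ⟨fun _ => linearIndepOn_empty F4 _, fun _ => M.empty_indep⟩

/-- JA4a. a 3-connected matroid with at most three elements is a quaternary gammoid. (It is uniform:
for `n ≤ 1` clear; for `n = 2, 3` every element is neither a loop nor a coloop by 3-connectedness (connected),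
so the rank is 1 (`n = 2`) or 1, 2 (`n = 3`), and rank 1 without loops is uniform, rank 2 with three
elements is the dual. Certificates: `EM.qgam` of K1a (or `chkR`) for `U_{0,0}, U_{0,1}, U_{1,1}, U_{1,2}, U_{1,3}, U_{2,3}`;
alternatively: direct proof with `PresB` and vectors; note `QGam.dual`.) -/
theorem small3 {α : Type} (M : Matroid α) (hf : M.Finite) (h3 : ThreeConn M)
    (hn : M.E.ncard ≤ 3) : QGam M := by
  -- one element
  have hone : ∀ x ∈ M.E, 2 ≤ M.E.ncard → rk M {x} = 1 ∧ rk M (M.E \ {x}) = rk M M.E := by
    intro x hx h2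
    have hs : {x} ⊆ M.E := singleton_subset_iff.2 hx
    have e1 := (h3 {x} hs).1 (by rw [ncard_singleton]) (by
      have := ncard_sdiff_add_ncard_of_subset hs M.ground_finite
      rw [ncard_singleton] at this
      omega)
    have e2 := rk_le_ncard M hs
    rw [ncard_singleton] at e2
    have e3 := rk_le_rk M (M.E \ {x})
    omega
  have hdiff : ∀ x ∈ M.E, (M.E \ {x}).ncard + 1 = M.E.ncard := by
    intro x hx
    have := ncard_sdiff_add_ncard_of_subset (singleton_subset_iff.2 hx) M.ground_finite
    rw [ncard_singleton] at this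
    exact this
  rcases Nat.lt_or_ge M.E.ncard 1 with h0 | h0
  · refine JA4_zero hf ?_
    rw [← ncard_eq_zero M.ground_finite]
    omega
  · rcases Nat.lt_or_ge M.E.ncard 2 with h1 | h1
    · have hn1 : M.E.ncard = 1 := by omega
      have hr := rk_le_ncard M (X := M.E) subset_rfl
      rw [hn1] at hr
      rcases Nat.lt_or_ge (rk M M.E) 1 with h4 | h4
      · have hr0 : rk M M.E = 0 := by omega
        obtain ⟨e, he⟩ := JA4_em hf hn1 hr0 (fun B _ hB => by
          have := rk_le_rk M B
          omega)
        exact he.qgam ⟨true, 1, [[.i]], true, 1, [1]⟩ (by decide +kernel)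
      · have hr1 : rk M M.E = 1 := by omega
        obtain ⟨e, he⟩ := JA4_em hf hn1 hr1 (fun B hBE hB => by
          have : B = M.E := Set.eq_of_subset_of_ncard_le hBE (by omega) M.ground_finite
          rw [this, hr1])
        exact he.qgam ⟨false, 1, [[.i]], false, 1, [1]⟩ (by decide +kernel)
    · -- at least two elements
      obtain ⟨x, hx⟩ : M.E.Nonempty := by
        rw [← ncard_pos M.ground_finite]
        omega
      obtain ⟨k1, k2⟩ := hone x hx h1
      have k3 := hdiff x hx
      have k4 := rk_le_ncard M (X := M.E \ {x}) sdiff_subset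
      have k5 := rk_le_rk M {x}
      have hsing : ∀ B, B ⊆ M.E → B.ncard = 1 → rk M B = 1 := by
        intro B hBE hB
        obtain ⟨y, rfl⟩ := ncard_eq_one.1 hB
        exact (hone y (hBE rfl) h1).1
      rcases Nat.lt_or_ge M.E.ncard 3 with h2 | h2
      · have hn2 : M.E.ncard = 2 := by omega
        have hr1 : rk M M.E = 1 := by omega
        obtain ⟨e, he⟩ := JA4_em hf hn2 hr1 hsing
        exact he.qgam ⟨false, 1, [[.i], [.i]], false, 1, [1, 1]⟩ (by decide +kernel)
      · have hn3 : M.E.ncard = 3 := by omega
        rcases Nat.lt_or_ge (rk M M.E) 2 with h4 | h4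
        · have hr1 : rk M M.E = 1 := by omega
          obtain ⟨e, he⟩ := JA4_em hf hn3 hr1 hsing
          exact he.qgam ⟨false, 1, [[.i], [.i], [.i]], false, 1, [1, 1, 1]⟩ (by decide +kernel)
        · have hr2 : rk M M.E = 2 := by omega
          obtain ⟨e, he⟩ := JA4_em hf hn3 hr2 (fun B hBE hB => by
            have h5 := ncard_sdiff_add_ncard_of_subset hBE M.ground_finite
            obtain ⟨y, hy⟩ := ncard_eq_one.1 (show (M.E \ B).ncard = 1 by omega)
            have hyE : y ∈ M.E := by
              have : y ∈ M.E \ B := by rw [hy]; rfl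
              exact this.1
            have h6 : B = M.E \ {y} := by rw [← hy, sdiff_sdiff_cancel_left hBE]
            rw [h6, (hone y hyE h1).2, hr2])
          exact he.qgam ⟨false, 2, [[.i, .o], [.o, .i], [.i, .i]], false, 2, [3, 3, 3]⟩
            (by decide +kernel)

private theorem JA4_repL {α : Type} {M : Matroid α} {k : ℕ} {V : List (List F4)}
    {e : Fin V.length → α} (h : EM e (fun m => detbR k (sel V m)) M)
    (hex : ∃ m < 2 ^ V.length, detbR k (sel V m) = true) : RepL k V M := by
  have hE := K2_em k V hex
  refine ⟨e, h.1, h.2.1, fun I => ?_⟩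
  rw [h.indep I, ← hE.indep I, image_id, LM_indep]
  simp only [Finset.coe_univ, subset_univ, true_and]

/-- JA4b. `four_elements` (W3) -/
theorem four_repL {α : Type} (M : Matroid α) (hf : M.Finite) (h3 : ThreeConn M)
    (hn : M.E.ncard = 4) : RepL 2 [[.i, .o], [.o, .i], [.i, .i], [.i, .w]] M := by
  have h4 := four_elements (M := M) h3 hn
  have hr : rk M M.E = 2 := by
    apply le_antisymm
    · obtain ⟨I, _, hI, hIc⟩ := exists_indep_rk M M.E
      rw [← hIc]
      exact ((h4 I).1 hI).2
    · obtain ⟨A, hA, hA2⟩ := exists_subset_card_eq (s := M.E) (n := 2) (by omega)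
      have h5 : M.Indep A := (h4 A).2 ⟨hA, hA2.le⟩
      rw [← hA2, ← Indep.rk_eq h5]
      exact rk_mono M hA
  obtain ⟨e, he⟩ := JA4_em hf hn hr (fun B hBE hB => by
    rw [Indep.rk_eq ((h4 B).2 ⟨hBE, hB.le⟩), hB])
  have hb : ∀ m, m < 2 ^ 4 → (popc 4 m == 2) =
      detbR 2 (sel [[.i, .o], [.o, .i], [.i, .i], [.i, .w]] m) := by decide +kernel
  exact JA4_repL (V := [[.i, .o], [.o, .i], [.i, .i], [.i, .w]]) (e := e) (he.congr hb)
    ⟨3, by decide, by decide +kernel⟩

end QG
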