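import Pool.Agent.Lib.QG.GDefs
import Pool.Agent.Lib.QG.C1

/-! MP_2e6874_co, part (A), row GB6. -/

set_option autoImplicit false

namespace QG
open Set Matroid Submodule

/-- GB6. -/
theorem ThreeConn.not_coloop {α : Type} {M : Matroid α} (hM : M.Finite) (h : ThreeConn M)
    (hn : 4 ≤ M.E.ncard) {x : α} (hx : x ∈ M.E) : x ∈ M.closure (M.E \ {x}) := by
  have hfin : M.E.Finite := M.ground_finite
  rw [mem_closure_iff_rk M hx, insert_sdiff_singleton, insert_eq_of_mem hx]
  have hsub : ({x} : Set α) ⊆ M.E := singleton_subset_iff.2 hx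
  have h0 := ncard_sdiff_add_ncard_of_subset hsub hfin
  have h1 : ({x} : Set α).ncard = 1 := ncard_singleton x
  have h2 := (h {x} hsub).1 (by omega) (by omega)
  have h3 := rk_le_ncard M hsub
  have h4 : rk M (M.E \ {x}) ≤ rk M M.E := rk_le_rk M _
  omega

/-- GB6b. -/
theorem ThreeConn.indep_pair {α : Type} {M : Matroid α} (hM : M.Finite) (h : ThreeConn M)
    (hn : 4 ≤ M.E.ncard) {x y : α} (hx : x ∈ M.E) (hy : y ∈ M.E) : M.Indep {x, y} := by
  have hfin : M.E.Finite := M.ground_finite
  have hsub : ({x, y} : Set α) ⊆ M.E := by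
    rintro z (rfl | rfl)
    · exact hx
    · exact hy
  rw [indep_iff_rk M hsub]
  have h0 := ncard_sdiff_add_ncard_of_subset hsub hfin
  have h3 := rk_le_ncard M hsub
  have h4 : rk M (M.E \ {x, y}) ≤ rk M M.E := rk_le_rk M _
  by_cases hxy : x = y
  · subst hxy
    have h1 : ({x, x} : Set α).ncard = 1 := by rw [pair_eq_singleton]; exact ncard_singleton x
    have h2 := (h {x, x} hsub).1 (by omega) (by omega)
    omega
  · have h1 : ({x, y} : Set α).ncard = 2 := ncard_pair hxy
    have h2 := (h {x, y} hsub).2 (by omega) (by omega)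
    omega

end QG
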