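import Pool.Agent.Lib.QG.JA1
import Pool.Agent.Lib.QG.JA2
import Pool.Agent.Lib.QG.GB6
import Pool.Agent.Lib.QG.W4
import Pool.Agent.Lib.QG.Q2

/-! MP_2e6874_co, part (B), row JA5: from the list for `n` elements to the list for `n + 1` elements. -/

set_option autoImplicit false

namespace QG
open Set Matroid Submodule

/-- JA5a. one extension step -/
theorem InL.ext {α : Type} {M : Matroid α} {L L' : List (ℕ × List (List F4))}
    (PP : ℕ → List (List F4)) (CC : ℕ → List (ℕ × List ℕ))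
    (hL : ∀ j < L.length, LExt (L.getD j (0, [])).1 (L.getD j (0, [])).2.length
      (vecL (L.getD j (0, [])).1 (L.getD j (0, [])).2) (vecP (L.getD j (0, [])).1 (PP j)))
    (hS : ∀ j < L.length, chkS (L.getD j (0, [])).1 (L.getD j (0, [])).2 (PP j) L' (CC j) = true)
    (hf : M.Finite) (hG : Good M) (h3 : ThreeConn M) (h4 : 4 ≤ M.E.ncard) {x : α} (hx : x ∈ M.E)
    (h : InL L (M ＼ {x})) : InL L' M := by
  obtain ⟨q, hq, hR⟩ := h
  obtain ⟨j, hj, hjq⟩ := List.getElem_of_mem hq
  have hget : L.getD j (0, []) = q := by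
    rw [← hjq, List.getD_eq_getElem]
  have hLj := hL j hj
  have hSj := hS j hj
  rw [hget] at hLj hSj
  obtain ⟨p, hp, hRp⟩ := hR.ext hLj hf hG hx (h3.not_coloop hf h4 hx)
  unfold chkS at hSj
  rw [Bool.and_eq_true, Bool.and_eq_true, Bool.and_eq_true] at hSj
  obtain ⟨⟨⟨hSP, hSV⟩, hSC⟩, hSZ⟩ := hSj
  have hpl : p.length = q.1 := by
    have := List.all_eq_true.1 hSP p hp
    exact beq_iff_eq.1 this
  have hVl : ∀ v ∈ q.2, v.length = q.1 := by
    intro v hv
    have := List.all_eq_true.1 hSV v hv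
    exact beq_iff_eq.1 this
  have hCl : (CC j).length = (PP j).length := beq_iff_eq.1 hSC
  have hpar : parV q.2 p = false :=
    RepL.par_false hVl hpl (fun a ha b hb => h3.indep_pair hf h4 ha hb) hRp
  obtain ⟨i, hi, hip⟩ := List.getElem_of_mem hp
  have hi' : i < (CC j).length := by omega
  have hz : (p, (CC j)[i]) ∈ (PP j).zip (CC j) := by
    rw [List.mem_iff_getElem]
    refine ⟨i, by rw [List.length_zip]; omega, ?_⟩
    rw [List.getElem_zip, hip]
  have hb := List.all_eq_true.1 hSZ _ hz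
  simp only [hpar, Bool.false_or, Bool.and_eq_true, beq_iff_eq, decide_eq_true_eq] at hb
  obtain ⟨⟨hb1, hb2⟩, hb3⟩ := hb
  refine ⟨L'.getD (CC j)[i].1 (0, []), ?_, ?_⟩
  · rw [List.getD_eq_getElem _ _ hb2]
    exact List.getElem_mem hb2
  · rw [hb1]
    exact hRp.iso hb3

/-- JA5b. -/
theorem InL.of_dual {α : Type} {M : Matroid α} {L : List (ℕ × List (List F4))}
    {C : List (ℕ × List ℕ)} (hD : chkLD L C = true) (h : InL L M✶) : InL L M := by
  obtain ⟨q, hq, hR⟩ := h
  unfold chkLD at hD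
  rw [Bool.and_eq_true] at hD
  obtain ⟨hC, hZ⟩ := hD
  have hCl : C.length = L.length := beq_iff_eq.1 hC
  obtain ⟨i, hi, hip⟩ := List.getElem_of_mem hq
  have hi' : i < C.length := by omega
  have hz : (q, C[i]) ∈ L.zip C := by
    rw [List.mem_iff_getElem]
    refine ⟨i, by rw [List.length_zip]; omega, ?_⟩
    rw [List.getElem_zip, hip]
  have hb := List.all_eq_true.1 hZ _ hz
  simp only [Bool.and_eq_true, decide_eq_true_eq] at hb
  obtain ⟨hb1, hb2⟩ := hb
  refine ⟨L.getD C[i].1 (0, []), ?_, hR.of_dual hb2⟩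
  rw [List.getD_eq_getElem _ _ hb1]
  exact List.getElem_mem hb1

/-- JA5. the step: `chain_good` for `M` (`n + 1` elements): `M ＼ {x}` is 3-connected: JA5a; `M ／ {x}` is
3-connected: apply JA5a to `M✶` (`ThreeConn.dual`, `Good.dual`, `dual_contract`) and JA5b; whirl: `hW`. -/
theorem list_step {n : ℕ} (hn : 4 ≤ n) {L L' : List (ℕ × List (List F4))}
    (PP : ℕ → List (List F4)) (CC : ℕ → List (ℕ × List ℕ)) (C : List (ℕ × List ℕ))
    (hL : ∀ j < L.length, LExt (L.getD j (0, [])).1 (L.getD j (0, [])).2.length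
      (vecL (L.getD j (0, [])).1 (L.getD j (0, [])).2) (vecP (L.getD j (0, [])).1 (PP j)))
    (hS : ∀ j < L.length, chkS (L.getD j (0, [])).1 (L.getD j (0, [])).2 (PP j) L' (CC j) = true)
    (hD : chkLD L' C = true)
    (hW : ∀ (α : Type) (M : Matroid α), M.Finite → ThreeConn M → ∀ r, 3 ≤ r → n + 1 = 2 * r →
      M.E.ncard = n + 1 → IsCfg M ⊥ (WhC r) → InL L' M)
    (h : ∀ (α : Type) (M : Matroid α), M.Finite → ThreeConn M → Good M → M.E.ncard = n → InL L M) :
    ∀ (α : Type) (M : Matroid α), M.Finite → ThreeConn M → Good M → M.E.ncard = n + 1 →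
      InL L' M := by
  have step : ∀ (α : Type) (N : Matroid α), N.Finite → ThreeConn N → Good N →
      N.E.ncard = n + 1 → ∀ x ∈ N.E, ThreeConn (N ＼ {x}) → InL L' N := by
    intro α N hNf hN3 hNG hNn x hx hx3
    have hNfin : N.E.Finite := hNf.ground_finite
    have hcard : (N ＼ {x}).E.ncard = n := by
      rw [delete_ground, ncard_sdiff_singleton_of_mem hx, hNn]
      omega
    have hGd : Good (N ＼ {x}) := hNG.minor ⟨∅, {x}, by rw [contract_empty]⟩
    have hfd' : (N ＼ {x}).Finite := ⟨hNfin.subset sdiff_subset⟩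
    exact InL.ext PP CC hL hS hNf hNG hN3 (by omega) hx (h α (N ＼ {x}) hfd' hx3 hGd hcard)
  intro α M hf h3 hG hn1
  rcases chain_good M hf h3 hG (by omega) with ⟨x, hx, hx3⟩ | ⟨x, hx, hx3⟩ | ⟨r, hr, hr2, hc⟩
  · exact step α M hf h3 hG hn1 x hx hx3
  · have := hf
    have : (M ／ {x}).Finite := ⟨hf.ground_finite.subset sdiff_subset⟩
    refine InL.of_dual hD ?_
    refine step α M✶ inferInstance h3.dual hG.dual (by simpa using hn1) x (by simpa using hx) ?_
    have h := hx3.dual
    rwa [dual_contract] at h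
  · exact hW α M hf h3 r hr (by omega) hn1 hc

end QG
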