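import Pool.Agent.Lib.QG.JL0

/-! MP_2e6874_co, part (B): lists of the small 3-connected good matroids. Duals, certificates. -/

set_option autoImplicit false
set_option maxRecDepth 100000

namespace QG
open Set Matroid Submodule

theorem JD_5 : chkLD JL_5 JDu_5 = true := by
  decide +kernel

theorem JD_6 : chkLD JL_6 JDu_6 = true := by
  decide +kernel

theorem JD_7 : chkLD JL_7 JDu_7 = true := by
  decide +kernel

theorem JD_8 : chkLD JL_8 JDu_8 = true := by
  decide +kernel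

theorem JQ_n4_0 : chkR 2 sV_n4_0 false 2 [3, 3, 3, 3] = true := by
  decide +kernel

theorem JQ_n5_0 : chkR 2 sV_n5_0 false 2 [3, 3, 3, 3, 3] = true := by
  decide +kernel

theorem JQ_n5_1 : chkR 3 sV_n5_1 false 3 [7, 7, 7, 7, 7] = true := by
  decide +kernel

theorem JQ_n6_0 : chkR 3 sV_n6_0 false 3 [6, 7, 6, 5, 5, 4] = true := by
  decide +kernel

theorem JQ_n6_1 : chkR 3 sV_n6_1 false 3 [7, 7, 7, 7, 7, 7] = true := by
  decide +kernel

theorem JQ_n6_2 : chkR 3 sV_n6_2 false 3 [2, 4, 1, 6, 5, 3] = true := by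
  decide +kernel

theorem JQ_n7_0 : chkR 3 sV_n7_0 false 3 [5, 3, 1, 6, 6, 4, 2] = true := by
  decide +kernel

theorem JQ_n7_1 : chkR 3 sV_n7_1 true 4 [10, 2, 9, 4, 5, 12, 3] = true := by
  decide +kernel

theorem JQ_n7_2 : chkR 3 sV_n7_2 true 4 [12, 9, 12, 10, 10, 15, 9] = true := by
  decide +kernel

theorem JQ_n7_3 : chkR 4 sV_n7_3 false 4 [2, 1, 12, 12, 3, 14, 13] = true := by
  decide +kernel

theorem JQ_n7_4 : chkR 4 sV_n7_4 false 4 [10, 2, 9, 4, 5, 12, 3] = true := by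
  decide +kernel

theorem JQ_n7_5 : chkR 4 sV_n7_5 false 4 [12, 9, 12, 10, 10, 15, 9] = true := by
  decide +kernel

end QG
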