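import Pool.Agent.Lib.QG.JL0

/-! MP_2e6874_co, part (B): lists of the small 3-connected good matroids. Step from 6 to 7 elements, number 1. -/

set_option autoImplicit false
set_option maxRecDepth 100000

namespace QG
open Set Matroid Submodule

def JC_n6_1 : List (ℕ × List ℕ) :=
  [(0, []), (0, []), (0, []), (0, []), (0, []), (0, []), (0, []), (2, [0, 1, 6, 3, 4, 2, 5]), (2, [0, 1, 6, 2, 3, 4, 5]), (2, [0, 1, 6, 3, 2, 4, 5]), (2, [0, 1, 2, 3, 4, 6, 5]), (2, [0, 1, 2, 3, 6, 4, 5]), (2, [0, 1, 2, 6, 3, 4, 5]), (2, [0, 2, 1, 3, 4, 6, 5]), (2, [0, 1, 3, 2, 6, 4, 5]), (2, [0, 1, 3, 6, 2, 4, 5]), (2, [0, 2, 1, 6, 3, 4, 5]), (2, [0, 1, 3, 4, 2, 6, 5]), (2, [0, 1, 3, 4, 6, 2, 5]), (2, [0, 2, 1, 3, 6, 4, 5]), (2, [0, 1, 3, 2, 4, 6, 5]), (2, [0, 1, 3, 6, 4, 2, 5])]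

theorem JS_n6_1 : chkS 3 sV_n6_1 sP_n6_1 JL_7 JC_n6_1 = true := by
  decide +kernel

end QG
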