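import Pool.Agent.Lib.QG.JL0

/-! MP_2e6874_co, part (B): lists of the small 3-connected good matroids. Step from 6 to 7 elements, number 2. -/

set_option autoImplicit false
set_option maxRecDepth 100000

namespace QG
open Set Matroid Submodule

def JC_n6_2 : List (ℕ × List ℕ) :=
  [(0, []), (0, []), (0, []), (0, []), (0, []), (0, []), (0, []), (0, [2, 5, 6, 0, 3, 1, 4]), (0, [5, 2, 6, 0, 1, 3, 4]), (0, [5, 6, 2, 3, 1, 0, 4]), (1, [0, 6, 2, 1, 4, 5, 3]), (1, [2, 0, 6, 5, 1, 4, 3]), (1, [0, 2, 6, 5, 4, 1, 3])]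

theorem JS_n6_2 : chkS 3 sV_n6_2 sP_n6_2 JL_7 JC_n6_2 = true := by
  decide +kernel

end QG
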