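import Pool.Agent.Lib.QG.JL0

/-! MP_2e6874_co, part (B): lists of the small 3-connected good matroids. Step from 7 to 8 elements, number 0. -/

set_option autoImplicit false
set_option maxRecDepth 100000

namespace QG
open Set Matroid Submodule

def JC_n7_0 : List (ℕ × List ℕ) :=
  [(0, []), (0, []), (0, []), (0, []), (0, []), (0, []), (0, []), (0, [])]

theorem JS_n7_0 : chkS 3 sV_n7_0 sP_n7_0 JL_8 JC_n7_0 = true := by
  decide +kernel

end QG
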