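import Pool.Agent.Lib.QG.JL0

/-! MP_2e6874_co, part (B): lists of the small 3-connected good matroids. Step from 7 to 8 elements, number 3. -/

set_option autoImplicit false
set_option maxRecDepth 100000

namespace QG
open Set Matroid Submodule

def JC_n7_3 : List (ℕ × List ℕ) :=
  [(0, []), (0, []), (0, []), (0, []), (0, []), (0, []), (0, []), (0, []), (1, [2, 1, 3, 4, 6, 7, 5, 0]), (1, [1, 2, 3, 4, 6, 5, 7, 0]), (3, [1, 2, 3, 0, 6, 5, 7, 4]), (3, [1, 2, 0, 3, 6, 5, 7, 4]), (4, [2, 0, 7, 3, 4, 5, 6, 1]), (4, [2, 0, 3, 7, 4, 5, 6, 1]), (5, [3, 0, 1, 6, 4, 5, 2, 7]), (3, [2, 1, 3, 0, 6, 7, 5, 4]), (4, [0, 2, 3, 7, 4, 6, 5, 1]), (5, [0, 3, 1, 6, 4, 2, 5, 7]), (3, [2, 1, 0, 3, 6, 7, 5, 4]), (4, [0, 2, 7, 3, 4, 6, 5, 1]), (9, [0, 1, 2, 3, 4, 5, 6, 7]), (9, [1, 0, 2, 3, 4, 6, 5, 7]), (8, [0,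 1, 2, 3, 4, 5, 6, 7]), (8, [1, 0, 2, 3, 4, 6, 5, 7]), (9, [0, 1, 3, 2, 4, 5, 6, 7]), (8, [0, 1, 3, 2, 4, 5, 6, 7]), (9, [1, 0, 3, 2, 4, 6, 5, 7]), (8, [1, 0, 3, 2, 4, 6, 5, 7])]

theorem JS_n7_3 : chkS 4 sV_n7_3 sP_n7_3 JL_8 JC_n7_3 = true := by
  decide +kernel

end QG
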