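import Pool.Agent.Lib.QG.JL0

/-! MP_2e6874_co, part (B): lists of the small 3-connected good matroids. Step from 7 to 8 elements, number 4. -/

set_option autoImplicit false
set_option maxRecDepth 100000

namespace QG
open Set Matroid Submodule

def JC_n7_4 : List (ℕ × List ℕ) :=
  [(0, []), (0, []), (0, []), (0, []), (0, []), (0, []), (0, []), (0, []), (9, [0, 3, 5, 1, 6, 7, 2, 4]), (8, [1, 6, 0, 3, 5, 2, 7, 4]), (10, [0, 2, 6, 7, 5, 4, 1, 3]), (9, [2, 3, 5, 1, 7, 6, 0, 4]), (8, [6, 7, 0, 5, 2, 3, 4, 1]), (10, [0, 7, 3, 4, 5, 2, 6, 1]), (2, [4, 1, 3, 2, 7, 6, 5, 0]), (2, [5, 1, 3, 2, 6, 7, 4, 0]), (8, [2, 3, 0, 6, 7, 1, 5, 4]), (8, [3, 5, 0, 7, 4, 6, 2, 1]), (9, [3, 1, 2, 7, 5, 4, 6, 0]), (8, [1, 6, 2, 7, 5, 4, 3, 0]), (8, [3, 6, 2, 7, 4, 5, 1, 0]), (9, [6, 1, 2, 7, 4, 5, 3, 0]), (10, [0, 1, 2, 3, 4, 5, 6,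 7]), (10, [0, 3, 5, 6, 4, 7, 1, 2])]

theorem JS_n7_4 : chkS 4 sV_n7_4 sP_n7_4 JL_8 JC_n7_4 = true := by
  decide +kernel

end QG
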