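import Pool.Agent.Lib.QG.JS_n4_0
import Pool.Agent.Lib.QG.JS_n5_0
import Pool.Agent.Lib.QG.JS_n5_1
import Pool.Agent.Lib.QG.JS_n6_0
import Pool.Agent.Lib.QG.JS_n6_1
import Pool.Agent.Lib.QG.JS_n6_2
import Pool.Agent.Lib.QG.JS_n7_0
import Pool.Agent.Lib.QG.JS_n7_1
import Pool.Agent.Lib.QG.JS_n7_2
import Pool.Agent.Lib.QG.JS_n7_3
import Pool.Agent.Lib.QG.JS_n7_4
import Pool.Agent.Lib.QG.JS_n7_5
import Pool.Agent.Lib.QG.JDQ
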