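import Pool.Agent.Lib.QG.Defs

/-!
MP_2e6874_co. Three further excluded minors (rank 4, eight elements); the fifteen matroids.
-/

set_option autoImplicit false

namespace QG
open Set Matroid

/-- eight elements, rank 4: the three point line 014, the five point plane 01467, and the planes
0235, 1236, 2457, 3567 -/
def LSa : Finset (Finset (Fin 8)) :=
  {{0, 1, 2, 4}, {0, 1, 3, 4}, {0, 2, 3, 5}, {0, 1, 4, 5}, {1, 2, 3, 6}, {0, 1, 4, 6}, {0, 1, 4, 7}, {2, 4, 5, 7}, {0, 1, 6, 7}, {0, 4, 6, 7}, {1, 4, 6, 7}, {3, 5, 6, 7}}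
/-- the three point line 014, the five point plane 01347, and the planes 0235, 1236, 2457, 1567 -/
def LSb : Finset (Finset (Fin 8)) :=
  {{0, 1, 2, 4}, {0, 1, 3, 4}, {0, 2, 3, 5}, {0, 1, 4, 5}, {1, 2, 3, 6}, {0, 1, 4, 6}, {0, 1, 3, 7}, {0, 1, 4, 7}, {0, 3, 4, 7}, {1, 3, 4, 7}, {2, 4, 5, 7}, {1, 5, 6, 7}}
/-- eight four point planes -/
def LSc : Finset (Finset (Fin 8)) :=
  {{0, 1, 3, 5}, {2, 3, 4, 5}, {0, 1, 2, 6}, {1, 3, 4, 6}, {0, 2, 4, 7}, {1, 2, 5, 7}, {0, 3, 6, 7}, {4, 5, 6, 7}}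

/-- the fifteen matroids -/
def Bad15 {α : Type} (M : Matroid α) : Prop :=
  Bad M ∨ IsL 8 4 LSa M ∨ IsL 8 4 LSb M ∨ IsL 8 4 LSc M

/-- no minor among the fifteen -/
def Good15 {α : Type} (M : Matroid α) : Prop := ∀ N : Matroid α, N ≤m M → ¬ Bad15 N

theorem Good15.good {α : Type} {M : Matroid α} (h : Good15 M) : Good M :=
  fun N hN hB => h N hN (Or.inl hB)

end QG
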