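import Pool.Agent.Lib.QG.JA1
import Pool.Agent.Lib.QG.JA2
import Pool.Agent.Lib.QG.JA3
import Pool.Agent.Lib.QG.JA4
import Pool.Agent.Lib.QG.JA5
import Pool.Agent.Lib.QG.JSall
import Pool.Agent.Lib.QG.SPd

/-! MP_2e6874_co, part (B): the 3-connected good matroids with at most eight elements (helper41). -/

set_option autoImplicit false
set_option maxRecDepth 100000

namespace QG
open Set Matroid Submodule

/-- the extension theorems for the point sets with at most seven elements -/
structure LX : Prop where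
  n4_0 : LExt 2 sV_n4_0.length (vecL 2 sV_n4_0) (vecP 2 sP_n4_0)
  n5_0 : LExt 2 sV_n5_0.length (vecL 2 sV_n5_0) (vecP 2 sP_n5_0)
  n5_1 : LExt 3 sV_n5_1.length (vecL 3 sV_n5_1) (vecP 3 sP_n5_1)
  n6_0 : LExt 3 sV_n6_0.length (vecL 3 sV_n6_0) (vecP 3 sP_n6_0)
  n6_1 : LExt 3 sV_n6_1.length (vecL 3 sV_n6_1) (vecP 3 sP_n6_1)
  n6_2 : LExt 3 sV_n6_2.length (vecL 3 sV_n6_2) (vecP 3 sP_n6_2)
  n7_0 : LExt 3 sV_n7_0.length (vecL 3 sV_n7_0) (vecP 3 sP_n7_0)
  n7_1 : LExt 3 sV_n7_1.length (vecL 3 sV_n7_1) (vecP 3 sP_n7_1)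
  n7_2 : LExt 3 sV_n7_2.length (vecL 3 sV_n7_2) (vecP 3 sP_n7_2)
  n7_3 : LExt 4 sV_n7_3.length (vecL 4 sV_n7_3) (vecP 4 sP_n7_3)
  n7_4 : LExt 4 sV_n7_4.length (vecL 4 sV_n7_4) (vecP 4 sP_n7_4)
  n7_5 : LExt 4 sV_n7_5.length (vecL 4 sV_n7_5) (vecP 4 sP_n7_5)

def jW3 : List (List F4) := [[.i, .o, .o], [.o, .i, .o], [.o, .o, .i], [.i, .i, .o], [.o, .i, .i], [.w, .o, .i]]
def jW3T : List (List F4) := [[.i, .o, .o], [.o, .i, .o], [.o, .o, .i]]
def jW3B : List (List F4) := [[.i], [.o, .i], [.o, .o, .i]]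
def jW3s : List ℕ := [0, 1, 2, 3, 4, 5]

private theorem jf_idx {P : ℕ → Prop} {n k : ℕ} (h : n ≤ k) (H : ∀ j < k, P j) : ∀ j < n, P j :=
  fun j hj => H j (lt_of_lt_of_le hj h)

theorem list4 : ∀ (α : Type) (M : Matroid α), M.Finite → ThreeConn M → Good M → M.E.ncard = 4 →
    InL JL_4 M := by
  intro α M hf h3 _ hn
  exact ⟨(2, sV_n4_0), by simp [JL_4], four_repL M hf h3 hn⟩

theorem list5 (hx : LX) : ∀ (α : Type) (M : Matroid α), M.Finite → ThreeConn M → Good M →
    M.E.ncard = 5 → InL JL_5 M := by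
  refine list_step (n := 4) (by omega) (L := JL_4) JP_4
    (fun j => [JC_n4_0].getD j []) JDu_5 ?_ ?_ JD_5 ?_ list4
  · intro j hj
    have hj : j < 1 := hj
    interval_cases j
    · exact hx.n4_0
  · intro j hj
    have hj : j < 1 := hj
    interval_cases j
    · exact JS_n4_0
  · intro α M _ _ r hr hr2 _ _
    omega

theorem list6 (hx : LX) : ∀ (α : Type) (M : Matroid α), M.Finite → ThreeConn M → Good M →
    M.E.ncard = 6 → InL JL_6 M := by
  refine list_step (n := 5) (by omega) (L := JL_5) JP_5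
    (fun j => [JC_n5_0, JC_n5_1].getD j []) JDu_6 ?_ ?_ JD_6 ?_ (list5 hx)
  · intro j hj
    have hj : j < 2 := hj
    interval_cases j
    · exact hx.n5_0
    · exact hx.n5_1
  · intro j hj
    have hj : j < 2 := hj
    interval_cases j
    · exact JS_n5_0
    · exact JS_n5_1
  · intro α M hf h3 r hr hr2 hn hc
    have hr3 : r = 3 := by omega
    subst hr3
    have h1 : RepL 3 jW3 M := by
      refine IsCfg.repL (Q := []) (T := jW3T) (B := jW3B) (KL := []) (CL := WhCL 3) (PL := [])
        (by decide +kernel) (by decide +kernel) hf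
        (fun x hx y hy => h3.indep_pair hf (by omega) hx hy) hn ?_
      rw [span_SV_nil, ← WhC_eq 3 (by omega) (by omega)]
      exact hc
    exact ⟨(3, sV_n6_2), by simp [JL_6], h1.iso (σ := jW3s) (by decide +kernel)⟩

theorem list7 (hx : LX) : ∀ (α : Type) (M : Matroid α), M.Finite → ThreeConn M → Good M →
    M.E.ncard = 7 → InL JL_7 M := by
  refine list_step (n := 6) (by omega) (L := JL_6) JP_6
    (fun j => [JC_n6_0, JC_n6_1, JC_n6_2].getD j []) JDu_7 ?_ ?_ JD_7 ?_ (list6 hx)
  · intro j hj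
    have hj : j < 3 := hj
    interval_cases j
    · exact hx.n6_0
    · exact hx.n6_1
    · exact hx.n6_2
  · intro j hj
    have hj : j < 3 := hj
    interval_cases j
    · exact JS_n6_0
    · exact JS_n6_1
    · exact JS_n6_2
  · intro α M _ _ r hr hr2 _ _
    omega

theorem list8 (hx : LX) : ∀ (α : Type) (M : Matroid α), M.Finite → ThreeConn M → Good M →
    M.E.ncard = 8 → InL JL_8 M := by
  refine list_step (n := 7) (by omega) (L := JL_7) JP_7
    (fun j => [JC_n7_0, JC_n7_1, JC_n7_2, JC_n7_3, JC_n7_4, JC_n7_5].getD j []) JDu_8 ?_ ?_ JD_8 ?_ (list7 hx)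
  · intro j hj
    have hj : j < 6 := hj
    interval_cases j
    · exact hx.n7_0
    · exact hx.n7_1
    · exact hx.n7_2
    · exact hx.n7_3
    · exact hx.n7_4
    · exact hx.n7_5
  · intro j hj
    have hj : j < 6 := hj
    interval_cases j
    · exact JS_n7_0
    · exact JS_n7_1
    · exact JS_n7_2
    · exact JS_n7_3
    · exact JS_n7_4
    · exact JS_n7_5
  · intro α M hf h3 r hr hr2 hn hc
    have hr4 : r = 4 := by omega
    subst hr4
    refine ⟨(4, tV_w4), by simp [JL_8], ?_⟩
    refine IsCfg.repL (Q := tP_w4) (T := tT_w4) (B := tB_w4) (KL := []) (CL := WhCL 4)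
      (PL := WhPL 4) (by decide +kernel) (by decide +kernel) hf
      (fun x hx y hy => h3.indep_pair hf (by omega) hx hy) hn ?_
    rw [span_SV_nil, ← WhC_eq 4 (by omega) (by omega)]
    exact hc

theorem small7 (hx : LX) {α : Type} (M : Matroid α) (hf : M.Finite) (h3 : ThreeConn M) (hG : Good M)
    (hn : M.E.ncard ≤ 7) : QGam M := by
  rcases Nat.lt_or_ge M.E.ncard 4 with h | h
  · exact small3 M hf h3 (by omega)
  · have h4 : M.E.ncard = 4 ∨ M.E.ncard = 5 ∨ M.E.ncard = 6 ∨ M.E.ncard = 7 := by omega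
    rcases h4 with h | h | h | h
    · obtain ⟨q, hq, hM⟩ := list4 α M hf h3 hG h
      simp only [JL_4, List.mem_cons, List.not_mem_nil, or_false] at hq
      subst hq
      exact hM.qgam JQ_n4_0
    · obtain ⟨q, hq, hM⟩ := list5 hx α M hf h3 hG h
      simp only [JL_5, List.mem_cons, List.not_mem_nil, or_false] at hq
      rcases hq with rfl | rfl
      · exact hM.qgam JQ_n5_0
      · exact hM.qgam JQ_n5_1
    · obtain ⟨q, hq, hM⟩ := list6 hx α M hf h3 hG h
      simp only [JL_6, List.mem_cons, List.not_mem_nil, or_false] at hq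
      rcases hq with rfl | rfl | rfl
      · exact hM.qgam JQ_n6_0
      · exact hM.qgam JQ_n6_1
      · exact hM.qgam JQ_n6_2
    · obtain ⟨q, hq, hM⟩ := list7 hx α M hf h3 hG h
      simp only [JL_7, List.mem_cons, List.not_mem_nil, or_false] at hq
      rcases hq with rfl | rfl | rfl | rfl | rfl | rfl
      · exact hM.qgam JQ_n7_0
      · exact hM.qgam JQ_n7_1
      · exact hM.qgam JQ_n7_2
      · exact hM.qgam JQ_n7_3
      · exact hM.qgam JQ_n7_4
      · exact hM.qgam JQ_n7_5

theorem eight15 (hx : LX) {α : Type} (M : Matroid α) (hf : M.Finite) (h3 : ThreeConn M)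
    (hG : Good15 M) (hn : M.E.ncard = 8) : Fam M := by
  obtain ⟨q, hq, hM⟩ := list8 hx α M hf h3 hG.good hn
  simp only [JL_8, List.mem_cons, List.not_mem_nil, or_false] at hq
  rcases hq with rfl | rfl | rfl | rfl | rfl | rfl | rfl | rfl | rfl | rfl | rfl
  · have h := hM.isCfg (Q := tP_w4) (T := tT_w4) (B := tB_w4) (KL := []) (CL := WhCL 4)
      (PL := WhPL 4) (by decide +kernel)
    rw [span_SV_nil, ← WhC_eq 4 (by omega) (by omega)] at h
    exact Fam.wh 4 (by omega) h
  · have h := hM.isCfg (Q := tP_s10_3) (T := tT_s10_3) (B := tB_s10_3) (KL := [])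
      (CL := ThCL true false (m11 3)) (PL := SpPL true false 3) (by decide +kernel)
    rw [span_SV_nil, ← ThC_eq true false (m11 3) (by intro i _; unfold m11; split <;> omega)] at h
    exact Fam.sp true false 3 (by omega) h
  · have h := hM.isCfg (Q := tP_th10_122) (T := tT_th10_122) (B := tB_th10_122) (KL := []) (CL := ThCL true false (mm 1 2 2))
      (PL := ThPL true false (mm 1 2 2)) (by decide +kernel)
    rw [span_SV_nil, ← ThC_eq true false (mm 1 2 2) (by decide)] at h
    exact Fam.th true false (mm 1 2 2) (by unfold ThOk; decide) h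
  · have h := hM.isCfg (Q := tP_la10_011) (T := tT_la10_011) (B := tB_la10_011) (KL := LaKL true false (mm 0 1 1))
      (CL := LaCL true false (mm 0 1 1)) (PL := LaPL true false (mm 0 1 1)) (by decide +kernel)
    rw [← LaK_eq true false (mm 0 1 1), ← LaC_eq true false (mm 0 1 1) (by decide)] at h
    exact Fam.la true false (mm 0 1 1) (by unfold LaOk; decide) h
  · have h := hM.isCfg (Q := tP_de00_22) (T := tT_de00_22) (B := tB_de00_22) (KL := DeKL false [1, 2])
      (CL := DeCL F4.w false false [1, 2] (l4 2 2 1 1)) (PL := DePL F4.w false false [1, 2] (l4 2 2 1 1)) (by decide +kernel)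
    rw [← DeK_eq false [1, 2] (by decide), ← DeC_eq F4.w false false [1, 2] (by decide) (l4 2 2 1 1) (by decide)] at h
    exact Fam.de F4.w false false [1, 2].toFinset (l4 2 2 1 1) ⟨Or.inl rfl, by decide, by decide, by decide, by decide⟩ h
  · have h := hM.isCfg (Q := tP_de00_211) (T := tT_de00_211) (B := tB_de00_211) (KL := DeKL false [1, 2, 3])
      (CL := DeCL F4.w false false [1, 2, 3] (l4 2 1 1 1)) (PL := DePL F4.w false false [1, 2, 3] (l4 2 1 1 1)) (by decide +kernel)
    rw [← DeK_eq false [1, 2, 3] (by decide), ← DeC_eq F4.w false false [1, 2, 3] (by decide) (l4 2 1 1 1) (by decide)] at h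
    exact Fam.de F4.w false false [1, 2, 3].toFinset (l4 2 1 1 1) ⟨Or.inl rfl, by decide, by decide, by decide, by decide⟩ h
  · have h := hM.isCfg (Q := tP_de00_1111) (T := tT_de00_1111) (B := tB_de00_1111) (KL := DeKL false [1, 2, 3, 4])
      (CL := DeCL F4.w false false [1, 2, 3, 4] (l4 1 1 1 1)) (PL := DePL F4.w false false [1, 2, 3, 4] (l4 1 1 1 1)) (by decide +kernel)
    rw [← DeK_eq false [1, 2, 3, 4] (by decide), ← DeC_eq F4.w false false [1, 2, 3, 4] (by decide) (l4 1 1 1 1) (by decide)] at h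
    exact Fam.de F4.w false false [1, 2, 3, 4].toFinset (l4 1 1 1 1) ⟨Or.inl rfl, by decide, by decide, by decide, by decide⟩ h
  · have h := hM.isCfg (Q := tP_de11_111) (T := tT_de11_111) (B := tB_de11_111) (KL := DeKL true [1, 2, 3])
      (CL := DeCL F4.w true true [1, 2, 3] (l4 1 1 1 1)) (PL := DePL F4.w true true [1, 2, 3] (l4 1 1 1 1)) (by decide +kernel)
    rw [← DeK_eq true [1, 2, 3] (by decide), ← DeC_eq F4.w true true [1, 2, 3] (by decide) (l4 1 1 1 1) (by decide)] at h
    exact Fam.de F4.w true true [1, 2, 3].toFinset (l4 1 1 1 1) ⟨Or.inl rfl, by decide, by decide, by decide, by decide⟩ h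
  · exfalso
    obtain ⟨e, he⟩ := hM.em (by decide +kernel)
    refine hG M IsMinor.refl (Or.inr (Or.inl ?_))
    exact EM.isL (n := 8) he (by decide +kernel)
  · exfalso
    obtain ⟨e, he⟩ := hM.em (by decide +kernel)
    refine hG M IsMinor.refl (Or.inr (Or.inr (Or.inl ?_)))
    exact EM.isL (n := 8) he (by decide +kernel)
  · exfalso
    obtain ⟨e, he⟩ := hM.em (by decide +kernel)
    refine hG M IsMinor.refl (Or.inr (Or.inr (Or.inr ?_)))
    exact EM.isL (n := 8) he (by decide +kernel)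

end QG
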