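import Pool.Agent.Lib.QG.LXall
import Pool.Agent.Lib.QG.JF
import Pool.Agent.Lib.QG.BX

/-! MP_2e6874_co, part (B): all extension theorems. -/

set_option autoImplicit false

namespace QG
open Set Matroid Submodule

theorem lx_all : LX where
  n4_0 := lx_n4_0
  n5_0 := lx_n5_0
  n5_1 := lx_n5_1
  n6_0 := lx_n6_0
  n6_1 := lx_n6_1
  n6_2 := lx_n6_2
  n7_0 := lx_n7_0
  n7_1 := lx_n7_1
  n7_2 := lx_n7_2
  n7_3 := lx_n7_3
  n7_4 := lx_n7_4
  n7_5 := lx_n7_5

theorem lxb_all : LXB where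
  w4 := lx_w4
  s10_3 := lx_s10_3
  th10_122 := lx_th10_122
  la10_011 := lx_la10_011
  de00_22 := lx_de00_22
  de00_211 := lx_de00_211
  de00_1111 := lx_de00_1111
  de11_111 := lx_de11_111
  s11_3 := lx_s11_3
  th11_122 := lx_th11_122
  la00_012 := lx_la00_012
  la00_111 := lx_la00_111
  de10_22 := lx_de10_22
  de10_211 := lx_de10_211
  de10_1111 := lx_de10_1111
  th00_123 := lx_th00_123
  th00_222 := lx_th00_222
  s00_4 := lx_s00_4
  la11_011 := lx_la11_011
  de01_22 := lx_de01_22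
  de01_211 := lx_de01_211
  de01_1111 := lx_de01_1111
  w5 := lx_w5
  th10_222 := lx_th10_222
  s10_4 := lx_s10_4
  de11_22 := lx_de11_22
  de00_2111 := lx_de00_2111
  la10_012 := lx_la10_012
  la10_111 := lx_la10_111
  de11_211 := lx_de11_211
  de11_1111 := lx_de11_1111
  th11_222 := lx_th11_222
  s11_4 := lx_s11_4
  la00_022 := lx_la00_022
  la00_112 := lx_la00_112
  de10_2111 := lx_de10_2111
  la11_012 := lx_la11_012
  la11_111 := lx_la11_111
  la10_112 := lx_la10_112
  la11_112 := lx_la11_112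

end QG
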