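import Pool.Agent.Lib.QG.HA5

/-! MP_2e6874_co, part (B), row HA6: the lists for `Th`, the special configurations and the whirls. -/

set_option autoImplicit false

namespace QG
open Set Matroid Submodule

/-- HA6a. (`I3 = [0, 1, 2].toFinset`.) -/
theorem ThC_eq (a b : Bool) (m : ℕ → ℕ) (hm : ∀ i < 3, m i ≤ 5) : ThC a b m = SV (ThCL a b m) := by
  have h : I3 = [0, 1, 2].toFinset := by decide
  unfold ThC ThCL
  rw [← MSC_eq [0, 1, 2] m (by
    intro i hi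
    apply hm
    simp at hi
    omega), h, SV_append, SV_bsL, SV_bsL]
  simp only [SV_cons, SV_nil, dV_smL, dV_eL (show 0 < 5 by norm_num), dV_eL (show 1 < 5 by norm_num),
    insert_empty_eq]

theorem ThP_eq (a b : Bool) (m : ℕ → ℕ) (hm : ∀ i < 3, m i ≤ 5) : ThP a b m = SV (ThPL a b m) := by
  unfold ThP ThPL
  rw [SV_append, ThC_eq a b m hm]
  simp only [SV_cons, SV_nil, dV_nil, dV_eL (show 0 < 5 by norm_num),
    dV_eL (show 1 < 5 by norm_num), insert_empty_eq]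

private theorem HA6_m11 {m : ℕ} (hm : m ≤ 5) : ∀ i < 3, m11 m i ≤ 5 := by
  intro i _
  unfold m11
  split_ifs <;> omega

/-- HA6b. -/
theorem SpP_eq (a b : Bool) (m : ℕ) (hm : m ≤ 5) (hm1 : 1 ≤ m) : SpP a b m = SV (SpPL a b m) := by
  unfold SpP SpPL SX1 SX0 SX1L SX0L
  rw [SV_append, SV_append, SV_append, ThC_eq a b _ (HA6_m11 hm), SV_bsL, SV_bsL]
  simp only [SV_cons, SV_nil, dV_nil, dV_addL, dV_smL, dV_eL (show 0 < 5 by norm_num),
    dV_eL (show 1 < 5 by norm_num), dV_eL (show m - 1 < 5 by omega), insert_empty_eq]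

/-- HA6c. -/
theorem WhC_eq (r : ℕ) (hr : r ≤ 5) (h1 : 1 ≤ r) : WhC r = SV (WhCL r) := by
  unfold WhC WhCL
  rw [← MSC_eq [0] (fun _ => r) (by intro i _; exact hr)]
  simp only [SV_cons, SV_nil, dV_smL, dV_eL (show 0 < 5 by norm_num), insert_empty_eq,
    List.toFinset_cons, List.toFinset_nil]

private theorem HA6_Whr (r n : ℕ) (hr : r ≤ 5) (hn : n < r) : dV (WhrL r n) = Whr r n := by
  unfold WhrL Whr
  rw [dV_addL, dV_eL (show n < 5 by omega)]
  split_ifs with h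
  · rw [dV_smL, dV_eL (show 0 < 5 by norm_num)]
  · rw [dV_eL (show n + 1 < 5 by omega)]

private theorem HA6_pairs (r : ℕ) (f : ℕ → ℕ → List F4) :
    SV ((List.range r).flatMap (fun j => (List.range j).map (fun i => f i j))) =
      {x | ∃ i j, i < j ∧ j < r ∧ x = dV (f i j)} := by
  ext x
  simp only [SV, Set.mem_ofPred_eq, List.mem_flatMap, List.mem_map, List.mem_range]
  constructor
  · rintro ⟨l, ⟨j, hj, i, hi, rfl⟩, rfl⟩
    exact ⟨i, j, hi, hj, rfl⟩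
  · rintro ⟨i, j, hi, hj, rfl⟩
    exact ⟨_, ⟨j, hj, i, hi, rfl⟩, rfl⟩

theorem WhP_eq (r : ℕ) (hr : r ≤ 5) (h1 : 1 ≤ r) : WhP r = SV (WhPL r) := by
  unfold WhP WhPL
  rw [SV_append, SV_append, SV_append, ← WhC_eq r hr h1, HA6_pairs, HA6_pairs, SV_cons, SV_nil,
    dV_nil]
  have e1 : {x | ∃ i j, i < j ∧ j < r ∧ x = dV (addL (eL 0 i) (smL F4.w (eL 0 j)))} =
      {x | ∃ i j, i < j ∧ j < r ∧ x = e 0 i + F4.w • e 0 j} := by
    ext x
    constructor
    · rintro ⟨i, j, hi, hj, rfl⟩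
      refine ⟨i, j, hi, hj, ?_⟩
      rw [dV_addL, dV_smL, dV_eL (by omega), dV_eL (by omega)]
    · rintro ⟨i, j, hi, hj, rfl⟩
      refine ⟨i, j, hi, hj, ?_⟩
      rw [dV_addL, dV_smL, dV_eL (by omega), dV_eL (by omega)]
  have e2 : {x | ∃ i j, i < j ∧ j < r ∧ x = dV (addL (WhrL r i) (smL F4.w (WhrL r j)))} =
      {x | ∃ i j, i < j ∧ j < r ∧ x = Whr r i + F4.w • Whr r j} := by
    ext x
    constructor
    · rintro ⟨i, j, hi, hj, rfl⟩
      refine ⟨i, j, hi, hj, ?_⟩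
      rw [dV_addL, dV_smL, HA6_Whr r i hr (by omega), HA6_Whr r j hr hj]
    · rintro ⟨i, j, hi, hj, rfl⟩
      refine ⟨i, j, hi, hj, ?_⟩
      rw [dV_addL, dV_smL, HA6_Whr r i hr (by omega), HA6_Whr r j hr hj]
  rw [e1, e2, insert_empty_eq]

end QG
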