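import Pool.Agent.Lib.QG.HA5

/-! MP_2e6874_co, part (B), row HA7: the lists for `La`. -/

set_option autoImplicit false

namespace QG
open Set Matroid Submodule

private theorem HA7_LaB (m : ℕ → ℕ) (i : ℕ) : dV (LaBL m i) = LaB m i := by
  unfold LaBL LaB
  split_ifs
  · exact dV_eL (by norm_num)
  · exact dV_eL (by norm_num)

private theorem HA7_Lac : dV LacL = Lac := by
  unfold LacL Lac
  rw [dV_addL, dV_addL, dV_eL (by norm_num), dV_eL (by norm_num), dV_eL (by norm_num)]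

private theorem HA7_Lac' (m : ℕ → ℕ) : dV (LacL' m) = Lac' m := by
  unfold LacL' Lac'
  rw [dV_addL, dV_addL, dV_smL, dV_smL, HA7_LaB, HA7_LaB, HA7_LaB]

private theorem HA7_one (l : List F4) : SV [l] = {dV l} := by
  rw [SV_cons, SV_nil, insert_empty_eq]

theorem LaK_eq (a b : Bool) (m : ℕ → ℕ) : LaK a b m = span F4 (SV (LaKL a b m)) := by
  unfold LaK LaKL
  rw [SV_append, SV_bsL, SV_bsL, HA7_one, HA7_one, HA7_Lac, HA7_Lac']

theorem LaC_eq (a b : Bool) (m : ℕ → ℕ) (hm : ∀ i < 3, m i ≤ 5) : LaC a b m = SV (LaCL a b m) := by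
  unfold LaC LaCL
  have h1 := MSC_eq [0, 1, 2] m (by
    intro i hi
    apply hm
    simp only [List.mem_cons, List.not_mem_nil, or_false] at hi
    omega) (fun i => eL i 0) (LaBL m)
    ([eL 0 0, LaBL m 0, eL 1 0, LaBL m 1, eL 2 0, LaBL m 2] ++ bsL a [LacL] ++ bsL b [LacL' m])
  rw [← h1]
  have h2 : (fun i => dV (eL i 0)) = fun i => e i 0 := by
    funext i
    exact dV_eL (by norm_num)
  have h3 : (fun i => dV (LaBL m i)) = LaB m := by
    funext i
    exact HA7_LaB m i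
  have h4 : SV ([eL 0 0, LaBL m 0, eL 1 0, LaBL m 1, eL 2 0, LaBL m 2] ++ bsL a [LacL] ++
      bsL b [LacL' m]) =
      {x | ∃ i < 3, x = e i 0 ∨ x = LaB m i} ∪ bs a {Lac} ∪ bs b {Lac' m} := by
    rw [SV_append, SV_append, SV_bsL, SV_bsL, HA7_one, HA7_one, HA7_Lac, HA7_Lac']
    have h5 : SV [eL 0 0, LaBL m 0, eL 1 0, LaBL m 1, eL 2 0, LaBL m 2] =
        {x | ∃ i < 3, x = e i 0 ∨ x = LaB m i} := by
      rw [SV_cons, SV_cons, SV_cons, SV_cons, SV_cons, HA7_one, HA7_LaB, HA7_LaB, HA7_LaB,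
        dV_eL (by norm_num), dV_eL (by norm_num), dV_eL (by norm_num)]
      ext x
      constructor
      · rintro (h | h | h | h | h | h)
        · exact ⟨0, by norm_num, Or.inl h⟩
        · exact ⟨0, by norm_num, Or.inr h⟩
        · exact ⟨1, by norm_num, Or.inl h⟩
        · exact ⟨1, by norm_num, Or.inr h⟩
        · exact ⟨2, by norm_num, Or.inl h⟩
        · exact ⟨2, by norm_num, Or.inr h⟩
      · rintro ⟨i, hi, h⟩
        have hi' : i = 0 ∨ i = 1 ∨ i = 2 := by omega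
        rcases hi' with rfl | rfl | rfl <;> rcases h with h | h <;> rw [h] <;> simp
    rw [h5]
  rw [h2, h3, h4]
  rfl

theorem LaP_eq (a b : Bool) (m : ℕ → ℕ) (hm : ∀ i < 3, m i ≤ 5) : LaP a b m = SV (LaPL a b m) := by
  unfold LaP LaPL
  rw [SV_append, SV_append, SV_append, SV_bsL, SV_bsL, ← LaC_eq a b m hm, HA7_one, dV_nil]
  have h1 : SV [addL LacL (eL 0 0), addL LacL (eL 1 0), addL LacL (eL 2 0)] =
      {x | ∃ i < 3, x = Lac + e i 0} := by
    rw [SV_cons, SV_cons, HA7_one, dV_addL, dV_addL, dV_addL, HA7_Lac,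
      dV_eL (by norm_num), dV_eL (by norm_num), dV_eL (by norm_num)]
    ext x
    constructor
    · rintro (h | h | h)
      · exact ⟨0, by norm_num, h⟩
      · exact ⟨1, by norm_num, h⟩
      · exact ⟨2, by norm_num, h⟩
    · rintro ⟨i, hi, h⟩
      have hi' : i = 0 ∨ i = 1 ∨ i = 2 := by omega
      rcases hi' with rfl | rfl | rfl <;> rw [h] <;> simp
  have h2 : SV [addL (LacL' m) (smL (g3 0) (LaBL m 0)), addL (LacL' m) (smL (g3 1) (LaBL m 1)),
      addL (LacL' m) (smL (g3 2) (LaBL m 2))] = {x | ∃ i < 3, x = Lac' m + g3 i • LaB m i} := by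
    rw [SV_cons, SV_cons, HA7_one, dV_addL, dV_addL, dV_addL, dV_smL, dV_smL, dV_smL, HA7_Lac',
      HA7_LaB, HA7_LaB, HA7_LaB]
    ext x
    constructor
    · rintro (h | h | h)
      · exact ⟨0, by norm_num, h⟩
      · exact ⟨1, by norm_num, h⟩
      · exact ⟨2, by norm_num, h⟩
    · rintro ⟨i, hi, h⟩
      have hi' : i = 0 ∨ i = 1 ∨ i = 2 := by omega
      rcases hi' with rfl | rfl | rfl <;> rw [h] <;> simp
  rw [h1, h2]

end QG
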