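import Pool.Agent.Lib.QG.HA5

/-! MP_2e6874_co, part (B), row HA8: the lists for `De`. -/

set_option autoImplicit false

namespace QG
open Set Matroid Submodule

private theorem HA8_foldr (I : List ℕ) :
    dV (I.foldr (fun i x => addL (eL i 0) x) []) = (I.map fun i => e i 0).sum := by
  induction I with
  | nil => rfl
  | cons i I ih =>
    rw [List.foldr_cons, dV_addL, ih, dV_eL (by norm_num), List.map_cons, List.sum_cons]

private theorem HA8_Dec (I : List ℕ) (hI : I.Nodup) : dV (DecL I) = Dec I.toFinset := by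
  rw [DecL, dV_addL, dV_eL (by norm_num), HA8_foldr, Dec, List.sum_toFinset _ hI]

private theorem HA8_map (I : List ℕ) (f : ℕ → List F4) :
    SV (I.map f) = {x | ∃ i ∈ I.toFinset, x = dV (f i)} := by
  ext x
  constructor
  · rintro ⟨y, hy, rfl⟩
    obtain ⟨i, hi, rfl⟩ := List.mem_map.mp hy
    exact ⟨i, List.mem_toFinset.mpr hi, rfl⟩
  · rintro ⟨i, hi, rfl⟩
    exact ⟨f i, List.mem_map.mpr ⟨i, List.mem_toFinset.mp hi, rfl⟩, rfl⟩

private theorem HA8_one (x : List F4) : SV [x] = {dV x} := by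
  rw [SV_cons, SV_nil]
  exact insert_empty_eq _

theorem DeK_eq (b : Bool) (I : List ℕ) (hI : I.Nodup) :
    DeK b I.toFinset = span F4 (SV (DeKL b I)) := by
  rw [DeK, DeKL, SV_bsL, HA8_one, HA8_Dec I hI]

theorem DeC_eq (g : F4) (a b : Bool) (I : List ℕ) (hI : I.Nodup) (l : ℕ → ℕ)
    (hm : ∀ i ∈ I, l i ≤ 5) : DeC g a b I.toFinset l = SV (DeCL g a b I l) := by
  rw [DeC, DeCL, ← MSC_eq I l hm, SV_append, SV_append, SV_bsL, SV_bsL, HA8_one, HA8_one,
    HA8_Dec I hI, HA8_map, dV_smL]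
  simp only [dV_eL (show 0 < 5 by norm_num)]

theorem DeP_eq (g : F4) (a b : Bool) (I : List ℕ) (hI : I.Nodup) (l : ℕ → ℕ)
    (hm : ∀ i ∈ I, l i ≤ 5) : DeP g a b I.toFinset l = SV (DePL g a b I l) := by
  rw [DeP, DePL, DeC_eq g a b I hI l hm, SV_append, SV_append, SV_bsL, SV_append, SV_append,
    HA8_one, HA8_map, SV_cons, HA8_one, dV_nil]
  have h1 : SV ((I.filter (fun i => decide (l i = 1))).map (fun i =>
      addL (addL (DecL I) (eL i 0)) (smL g (eL 0 0)))) =
      {x | ∃ i ∈ I.toFinset, l i = 1 ∧ x = Dec I.toFinset + e i 0 + g • e 0 0} := by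
    ext x
    constructor
    · rintro ⟨y, hy, rfl⟩
      obtain ⟨i, hi, rfl⟩ := List.mem_map.mp hy
      rw [List.mem_filter, decide_eq_true_eq] at hi
      refine ⟨i, List.mem_toFinset.mpr hi.1, hi.2, ?_⟩
      rw [dV_addL, dV_addL, dV_smL, dV_eL (by norm_num), dV_eL (by norm_num), HA8_Dec I hI]
    · rintro ⟨i, hi, hl, rfl⟩
      refine ⟨_, List.mem_map.mpr ⟨i, ?_, rfl⟩, ?_⟩
      · rw [List.mem_filter, decide_eq_true_eq]
        exact ⟨List.mem_toFinset.mp hi, hl⟩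
      · rw [dV_addL, dV_addL, dV_smL, dV_eL (by norm_num), dV_eL (by norm_num), HA8_Dec I hI]
  rw [h1]
  simp only [dV_addL, dV_smL, dV_eL (show 0 < 5 by norm_num), HA8_Dec I hI]

end QG
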