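import Pool.Agent.Lib.QG.HA1
import Pool.Agent.Lib.QG.HA4
import Pool.Agent.Lib.QG.HA6
import Pool.Agent.Lib.QG.HA7
import Pool.Agent.Lib.QG.HA8

/-! MP_2e6874_co, part (B): transfer for the five families. -/

set_option autoImplicit false

namespace QG
open Set Matroid Submodule

/-- the points are nonzero and pairwise not parallel -/
def simV (r : ℕ) (V : List (List F4)) : Bool :=
  decide (∀ i : Fin V.length, vecL r V i ≠ 0) &&
  decide (∀ i j : Fin V.length, i ≠ j → ∀ s : F4, vecL r V i ≠ s • vecL r V j)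

theorem LExt.athm' {r : ℕ} {V P : List (List F4)}
    (h : LExt r V.length (vecL r V) (vecP r P)) (hs : simV r V = true) :
    AThm (range (vecL r V)) {p | p ∈ vecP r P} := by
  rw [simV, Bool.and_eq_true, decide_eq_true_eq, decide_eq_true_eq] at hs
  exact h.athm hs.1 hs.2

theorem span_SV_nil : span F4 (SV []) = ⊥ := by rw [SV_nil, span_empty]

section
variable {r : ℕ} {V P : List (List F4)}

theorem bt_th (h : LExt r V.length (vecL r V) (vecP r P)) (hs : simV r V = true)
    (T B : List (List F4)) (a b : Bool) (m : ℕ → ℕ) (hm : ∀ i < 3, m i ≤ 5)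
    (hc : chkX r V P T B [] (ThCL a b m) (ThPL a b m) = true) : AK ⊥ (ThC a b m) (ThP a b m) := by
  have h2 := ak_of_chk hc (h.athm' hs)
  rwa [span_SV_nil, ← ThC_eq a b m hm, ← ThP_eq a b m hm] at h2

theorem bt_sp (h : LExt r V.length (vecL r V) (vecP r P)) (hs : simV r V = true)
    (T B : List (List F4)) (a b : Bool) (m : ℕ) (hm : m ≤ 5) (h1 : 1 ≤ m)
    (hc : chkX r V P T B [] (ThCL a b (m11 m)) (SpPL a b m) = true) :
    AK ⊥ (ThC a b (m11 m)) (SpP a b m) := by
  have h2 := ak_of_chk hc (h.athm' hs)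
  rwa [span_SV_nil, ← ThC_eq a b (m11 m) (by intro i _; unfold m11; split <;> omega),
    ← SpP_eq a b m hm h1] at h2

theorem bt_la (h : LExt r V.length (vecL r V) (vecP r P)) (hs : simV r V = true)
    (T B : List (List F4)) (a b : Bool) (m : ℕ → ℕ) (hm : ∀ i < 3, m i ≤ 5)
    (hc : chkX r V P T B (LaKL a b m) (LaCL a b m) (LaPL a b m) = true) :
    AK (LaK a b m) (LaC a b m) (LaP a b m) := by
  have h2 := ak_of_chk hc (h.athm' hs)
  rwa [← LaK_eq a b m, ← LaC_eq a b m hm, ← LaP_eq a b m hm] at h2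

theorem bt_de (h : LExt r V.length (vecL r V) (vecP r P)) (hs : simV r V = true)
    (T B : List (List F4)) (g : F4) (a b : Bool) (I : List ℕ) (hI : I.Nodup) (l : ℕ → ℕ)
    (hm : ∀ i ∈ I, l i ≤ 5)
    (hc : chkX r V P T B (DeKL b I) (DeCL g a b I l) (DePL g a b I l) = true) :
    AK (DeK b I.toFinset) (DeC g a b I.toFinset l) (DeP g a b I.toFinset l) := by
  have h2 := ak_of_chk hc (h.athm' hs)
  rwa [← DeK_eq b I hI, ← DeC_eq g a b I hI l hm, ← DeP_eq g a b I hI l hm] at h2

theorem bt_wh (h : LExt r V.length (vecL r V) (vecP r P)) (hs : simV r V = true)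
    (T B : List (List F4)) (k : ℕ) (hm : k ≤ 5) (h1 : 1 ≤ k)
    (hc : chkX r V P T B [] (WhCL k) (WhPL k) = true) : AK ⊥ (WhC k) (WhP k) := by
  have h2 := ak_of_chk hc (h.athm' hs)
  rwa [span_SV_nil, ← WhC_eq k hm h1, ← WhP_eq k hm h1] at h2

end

end QG
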