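import Pool.Agent.Lib.QG.BT0

/-! MP_2e6874_co, part (B): data of the transfer, file 1. -/

set_option autoImplicit false
set_option maxRecDepth 100000

namespace QG
open Set Matroid Submodule

def tV_w4 : List (List F4) := [[.i, .o, .o, .o], [.o, .i, .o, .o], [.o, .o, .i, .o], [.o, .o, .o, .i], [.i, .i, .o, .o], [.o, .i, .i, .o], [.o, .o, .i, .i], [.w, .o, .o, .i]]
def tP_w4 : List (List F4) := [[.i, .o, .o, .o], [.o, .i, .o, .o], [.o, .o, .i, .o], [.o, .o, .o, .i], [.i, .i, .o, .o], [.o, .i, .i, .o], [.o, .o, .i, .i], [.w, .o, .o, .i], [.i, .w, .o, .o], [.i, .o, .w, .o], [.i, .o, .o, .w], [.o, .i, .w, .o], [.o, .i, .o, .w], [.o, .o, .i, .w], [.i, .v, .w, .o], [.i, .i, .w, .w], [.w, .i, .o, .w], [.o, .i, .v, .w], [.v, .i, .i, .w], [.v, .o, .i, .v], [.o, .o, .o, .o]]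
def tT_w4 : List (List F4) := [[.i, .o, .o, .o], [.o, .i, .o, .o], [.o, .o, .i, .o], [.o, .o, .o, .i]]
def tB_w4 : List (List F4) := [[.i], [.o, .i], [.o, .o, .i], [.o, .o, .o, .i]]

theorem ba_w4 (h : LExt 4 tV_w4.length (vecL 4 tV_w4) (vecP 4 tP_w4)) :
    AK ⊥ (WhC 4) (WhP 4) :=
  bt_wh h (by decide +kernel) tT_w4 tB_w4 4 (by omega) (by omega) (by decide +kernel)

def tV_s10_3 : List (List F4) := [[.i, .o, .o, .o], [.o, .i, .o, .o], [.o, .o, .i, .o], [.o, .o, .o, .i], [.v, .o, .o, .w], [.i, .i, .o, .o], [.o, .i, .i, .o], [.v, .o, .i, .v]]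
def tP_s10_3 : List (List F4) := [[.i, .o, .o, .o], [.o, .i, .o, .o], [.o, .o, .i, .o], [.o, .o, .o, .i], [.v, .o, .o, .w], [.i, .i, .o, .o], [.o, .i, .i, .o], [.v, .o, .i, .v], [.i, .o, .o, .i], [.o, .o, .o, .o], [.o, .o, .i, .i], [.v, .o, .i, .w], [.w, .o, .i, .v], [.i, .o, .w, .o], [.i, .o, .v, .o]]
def tT_s10_3 : List (List F4) := [[.o, .o, .o, .o], [.o, .o, .o, .o], [.o, .o, .o, .o], [.o, .o, .o, .o], [.o, .o, .o, .o], [.o, .o, .o, .o], [.o, .o, .o, .o], [.o, .o, .o, .o], [.o, .o, .o, .o], [.o, .o, .o, .o], [.o, .o, .o, .o], [.o, .i, .o, .o], [.o, .o, .i, .o], [.o, .o, .o, .o], [.o, .o, .o, .o], [.i, .o, .o, .o], [.i, .o, .o, .i]]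
def tB_s10_3 : List (List F4) := [[.o, .o, .o, .o, .o, .o, .o, .o, .o, .o, .o, .o, .o, .o, .o, .i], [.o, .o, .o, .o, .o, .o, .o, .o, .o, .o, .o, .i], [.o, .o, .o, .o, .o, .o, .o, .o, .o, .o, .o, .o, .i], [.o, .o, .o, .o, .o, .o, .o, .o, .o, .o, .o, .o, .o, .o, .o, .i, .i]]

theorem ba_s10_3 (h : LExt 4 tV_s10_3.length (vecL 4 tV_s10_3) (vecP 4 tP_s10_3)) :
    AK ⊥ (ThC true false (m11 3)) (SpP true false 3) :=
  bt_sp h (by decide +kernel) tT_s10_3 tB_s10_3 true false 3 (by omega) (by omega) (by decide +kernel)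

def tV_th10_122 : List (List F4) := [[.i, .o, .o, .o], [.o, .i, .o, .o], [.o, .o, .i, .o], [.o, .o, .o, .i], [.i, .i, .o, .o], [.w, .i, .o, .w], [.i, .o, .i, .o], [.v, .o, .i, .v]]
def tP_th10_122 : List (List F4) := [[.i, .o, .o, .o], [.o, .i, .o, .o], [.o, .o, .i, .o], [.o, .o, .o, .i], [.i, .i, .o, .o], [.w, .i, .o, .w], [.i, .o, .i, .o], [.v, .o, .i, .v], [.i, .o, .o, .i], [.o, .o, .o, .o]]
def tT_th10_122 : List (List F4) := [[.o, .o, .o, .o], [.o, .o, .o, .o], [.o, .o, .o, .o], [.o, .o, .o, .o], [.o, .o, .o, .o], [.o, .o, .o, .o], [.o, .i, .o, .o], [.o, .o, .o, .o], [.o, .o, .o, .o], [.o, .o, .o, .o], [.o, .o, .o, .o], [.o, .o, .i, .o], [.o, .o, .o, .o], [.o, .o, .o, .o], [.o, .o, .o, .o], [.i, .o, .o, .o], [.i, .o, .o, .i]]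
def tB_th10_122 : List (List F4) := [[.o, .o, .o, .o, .o, .o, .o, .o, .o, .o, .o, .o, .o, .o, .o, .i], [.o, .o, .o, .o, .o, .o, .i], [.o, .o, .o, .o, .o, .o, .o, .o, .o, .o, .o, .i], [.o, .o, .o, .o, .o, .o, .o, .o, .o, .o, .o, .o, .o, .o, .o, .i, .i]]

theorem ba_th10_122 (h : LExt 4 tV_th10_122.length (vecL 4 tV_th10_122) (vecP 4 tP_th10_122)) :
    AK ⊥ (ThC true false (mm 1 2 2)) (ThP true false (mm 1 2 2)) :=
  bt_th h (by decide +kernel) tT_th10_122 tB_th10_122 true false (mm 1 2 2) (by decide) (by decide +kernel)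

def tV_la10_011 : List (List F4) := [[.i, .o, .o, .o], [.o, .i, .o, .o], [.o, .o, .i, .o], [.o, .o, .o, .i], [.w, .o, .v, .o], [.i, .i, .o, .i], [.o, .i, .i, .o], [.w, .o, .v, .i]]
def tP_la10_011 : List (List F4) := [[.i, .o, .o, .o], [.o, .i, .o, .o], [.o, .o, .i, .o], [.o, .o, .o, .i], [.w, .o, .v, .o], [.i, .i, .o, .i], [.o, .i, .i, .o], [.w, .o, .v, .i], [.o, .i, .o, .i], [.i, .o, .o, .i], [.i, .i, .o, .o], [.o, .o, .o, .o]]
def tT_la10_011 : List (List F4) := [[.i, .o, .o, .o], [.o, .o, .o, .o], [.o, .o, .o, .o], [.o, .o, .o, .o], [.o, .o, .o, .o], [.o, .i, .o, .o], [.o, .o, .o, .o], [.o, .o, .o, .o], [.o, .o, .o, .o], [.o, .o, .o, .o], [.o, .o, .o, .i], [.o, .o, .o, .o], [.o, .o, .o, .o], [.o, .o, .o, .o], [.o, .o, .o, .o], [.o, .o, .o, .o], [.o, .o, .o, .o], [.o, .o, .o, .o], [.o, .o, .o, .o], [.o, .o, .o, .o], [.o, .o, .o, .o], [.o, .o, .o, .o], [.o, .o, .o, .o],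 [.o, .o, .o, .o], [.o, .o, .o, .o], [.o, .o, .i, .o], [.o, .o, .o, .o], [.o, .o, .o, .o], [.o, .o, .o, .o], [.o, .o, .o, .o], [.w, .o, .v, .o]]
def tB_la10_011 : List (List F4) := [[.i], [.o, .o, .o, .o, .o, .i], [.o, .o, .o, .o, .o, .o, .o, .o, .o, .o, .o, .o, .o, .o, .o, .o, .o, .o, .o, .o, .o, .o, .o, .o, .o, .i], [.o, .o, .o, .o, .o, .o, .o, .o, .o, .o, .i]]

theorem ba_la10_011 (h : LExt 4 tV_la10_011.length (vecL 4 tV_la10_011) (vecP 4 tP_la10_011)) :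
    AK (LaK true false (mm 0 1 1)) (LaC true false (mm 0 1 1)) (LaP true false (mm 0 1 1)) :=
  bt_la h (by decide +kernel) tT_la10_011 tB_la10_011 true false (mm 0 1 1) (by decide) (by decide +kernel)

def tV_de00_22 : List (List F4) := [[.i, .o, .o, .o], [.o, .i, .o, .o], [.o, .o, .i, .o], [.o, .o, .o, .i], [.i, .o, .i, .o], [.w, .w, .i, .o], [.o, .i, .o, .i], [.w, .w, .o, .i]]
def tP_de00_22 : List (List F4) := [[.i, .o, .o, .o], [.o, .i, .o, .o], [.o, .o, .i, .o], [.o, .o, .o, .i], [.i, .o, .i, .o], [.w, .w, .i, .o], [.o, .i, .o, .i], [.w, .w, .o, .i], [.i, .i, .o, .o], [.o, .o, .o, .o]]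
def tT_de00_22 : List (List F4) := [[.i, .i, .o, .o], [.o, .o, .o, .o], [.o, .o, .o, .o], [.o, .o, .o, .o], [.o, .o, .o, .o], [.i, .o, .o, .o], [.o, .o, .i, .o], [.o, .o, .o, .o], [.o, .o, .o, .o], [.o, .o, .o, .o], [.o, .i, .o, .o], [.o, .o, .o, .i]]
def tB_de00_22 : List (List F4) := [[.o, .o, .o, .o, .o, .i], [.o, .o, .o, .o, .o, .o, .o, .o, .o, .o, .i], [.o, .o, .o, .o, .o, .o, .i], [.o, .o, .o, .o, .o, .o, .o, .o, .o, .o, .o, .i]]

theorem ba_de00_22 (h : LExt 4 tV_de00_22.length (vecL 4 tV_de00_22) (vecP 4 tP_de00_22)) :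
    AK (DeK false {1, 2}) (DeC F4.w false false {1, 2} (l4 2 2 1 1)) (DeP F4.w false false {1, 2} (l4 2 2 1 1)) :=
  bt_de h (by decide +kernel) tT_de00_22 tB_de00_22 F4.w false false [1, 2] (by decide) (l4 2 2 1 1) (by decide) (by decide +kernel)

end QG
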