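import Pool.Agent.Lib.QG.BT0

/-! MP_2e6874_co, part (B): data of the transfer, file 2. -/

set_option autoImplicit false
set_option maxRecDepth 100000

namespace QG
open Set Matroid Submodule

def tV_de00_211 : List (List F4) := [[.i, .o, .o, .o], [.o, .i, .o, .o], [.o, .o, .i, .o], [.o, .o, .o, .i], [.i, .o, .o, .i], [.w, .w, .w, .i], [.w, .v, .w, .o], [.w, .w, .v, .o]]
def tP_de00_211 : List (List F4) := [[.i, .o, .o, .o], [.o, .i, .o, .o], [.o, .o, .i, .o], [.o, .o, .o, .i], [.i, .o, .o, .i], [.w, .w, .w, .i], [.w, .v, .w, .o], [.w, .w, .v, .o], [.i, .i, .i, .o], [.o, .o, .o, .o]]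
def tT_de00_211 : List (List F4) := [[.i, .i, .i, .o], [.o, .o, .o, .o], [.o, .o, .o, .o], [.o, .o, .o, .o], [.o, .o, .o, .o], [.i, .o, .o, .o], [.o, .o, .o, .i], [.o, .o, .o, .o], [.o, .o, .o, .o], [.o, .o, .o, .o], [.o, .i, .o, .o], [.o, .o, .o, .o], [.o, .o, .o, .o], [.o, .o, .o, .o], [.o, .o, .o, .o], [.o, .o, .i, .o]]
def tB_de00_211 : List (List F4) := [[.o, .o, .o, .o, .o, .i], [.o, .o, .o, .o, .o, .o, .o, .o, .o, .o, .i], [.o, .o, .o, .o, .o, .o, .o, .o, .o, .o, .o, .o, .o, .o, .o, .i], [.o, .o, .o, .o, .o, .o, .i]]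

theorem ba_de00_211 (h : LExt 4 tV_de00_211.length (vecL 4 tV_de00_211) (vecP 4 tP_de00_211)) :
    AK (DeK false {1, 2, 3}) (DeC F4.w false false {1, 2, 3} (l4 2 1 1 1)) (DeP F4.w false false {1, 2, 3} (l4 2 1 1 1)) :=
  bt_de h (by decide +kernel) tT_de00_211 tB_de00_211 F4.w false false [1, 2, 3] (by decide) (l4 2 1 1 1) (by decide) (by decide +kernel)

def tV_de00_1111 : List (List F4) := [[.i, .o, .o, .o], [.o, .i, .o, .o], [.o, .o, .i, .o], [.o, .o, .o, .i], [.v, .w, .w, .w], [.w, .v, .w, .w], [.w, .w, .v, .w], [.w, .w, .w, .v]]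
def tP_de00_1111 : List (List F4) := [[.i, .o, .o, .o], [.o, .i, .o, .o], [.o, .o, .i, .o], [.o, .o, .o, .i], [.v, .w, .w, .w], [.w, .v, .w, .w], [.w, .w, .v, .w], [.w, .w, .w, .v], [.i, .i, .i, .i], [.o, .o, .o, .o]]
def tT_de00_1111 : List (List F4) := [[.i, .i, .i, .i], [.o, .o, .o, .o], [.o, .o, .o, .o], [.o, .o, .o, .o], [.o, .o, .o, .o], [.i, .o, .o, .o], [.o, .o, .o, .o], [.o, .o, .o, .o], [.o, .o, .o, .o], [.o, .o, .o, .o], [.o, .i, .o, .o], [.o, .o, .o, .o], [.o, .o, .o, .o], [.o, .o, .o, .o], [.o, .o, .o, .o], [.o, .o, .i, .o], [.o, .o, .o, .o], [.o, .o, .o, .o], [.o, .o, .o, .o], [.o, .o, .o, .o], [.o, .o, .o, .i]]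
def tB_de00_1111 : List (List F4) := [[.o, .o, .o, .o, .o, .i], [.o, .o, .o, .o, .o, .o, .o, .o, .o, .o, .i], [.o, .o, .o, .o, .o, .o, .o, .o, .o, .o, .o, .o, .o, .o, .o, .i], [.o, .o, .o, .o, .o, .o, .o, .o, .o, .o, .o, .o, .o, .o, .o, .o, .o, .o, .o, .o, .i]]

theorem ba_de00_1111 (h : LExt 4 tV_de00_1111.length (vecL 4 tV_de00_1111) (vecP 4 tP_de00_1111)) :
    AK (DeK false {1, 2, 3, 4}) (DeC F4.w false false {1, 2, 3, 4} (l4 1 1 1 1)) (DeP F4.w false false {1, 2, 3, 4} (l4 1 1 1 1)) :=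
  bt_de h (by decide +kernel) tT_de00_1111 tB_de00_1111 F4.w false false [1, 2, 3, 4] (by decide) (l4 1 1 1 1) (by decide) (by decide +kernel)

def tV_de11_111 : List (List F4) := [[.i, .o, .o, .o], [.o, .i, .o, .o], [.o, .o, .i, .o], [.o, .o, .o, .i], [.i, .i, .i, .i], [.i, .o, .o, .w], [.o, .i, .o, .w], [.o, .o, .i, .w]]
def tP_de11_111 : List (List F4) := [[.i, .o, .o, .o], [.o, .i, .o, .o], [.o, .o, .i, .o], [.o, .o, .o, .i], [.i, .i, .i, .i], [.i, .o, .o, .w], [.o, .i, .o, .w], [.o, .o, .i, .w], [.o, .o, .o, .o], [.o, .i, .i, .i], [.i, .o, .i, .i], [.i, .i, .o, .i], [.i, .i, .i, .v], [.o, .i, .i, .v], [.i, .o, .i, .v], [.i, .i, .o, .v]]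
def tT_de11_111 : List (List F4) := [[.o, .o, .o, .i], [.o, .o, .o, .o], [.o, .o, .o, .o], [.o, .o, .o, .o], [.o, .o, .o, .o], [.i, .o, .o, .o], [.o, .o, .o, .o], [.o, .o, .o, .o], [.o, .o, .o, .o], [.o, .o, .o, .o], [.o, .i, .o, .o], [.o, .o, .o, .o], [.o, .o, .o, .o], [.o, .o, .o, .o], [.o, .o, .o, .o], [.o, .o, .i, .o]]
def tB_de11_111 : List (List F4) := [[.o, .o, .o, .o, .o, .i], [.o, .o, .o, .o, .o, .o, .o, .o, .o, .o, .i], [.o, .o, .o, .o, .o, .o, .o, .o, .o, .o, .o, .o, .o, .o, .o, .i], [.i]]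

theorem ba_de11_111 (h : LExt 4 tV_de11_111.length (vecL 4 tV_de11_111) (vecP 4 tP_de11_111)) :
    AK (DeK true {1, 2, 3}) (DeC F4.w true true {1, 2, 3} (l4 1 1 1 1)) (DeP F4.w true true {1, 2, 3} (l4 1 1 1 1)) :=
  bt_de h (by decide +kernel) tT_de11_111 tB_de11_111 F4.w true true [1, 2, 3] (by decide) (l4 1 1 1 1) (by decide) (by decide +kernel)

def tV_s11_3 : List (List F4) := [[.i, .o, .o, .o], [.o, .i, .o, .o], [.o, .o, .i, .o], [.o, .o, .o, .i], [.i, .i, .o, .o], [.i, .w, .o, .o], [.i, .o, .i, .o], [.o, .o, .i, .i], [.o, .v, .o, .i]]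
def tP_s11_3 : List (List F4) := [[.i, .o, .o, .o], [.o, .i, .o, .o], [.o, .o, .i, .o], [.o, .o, .o, .i], [.i, .i, .o, .o], [.i, .w, .o, .o], [.i, .o, .i, .o], [.o, .o, .i, .i], [.o, .v, .o, .i], [.o, .o, .o, .o]]
def tT_s11_3 : List (List F4) := [[.o, .o, .o, .o], [.o, .o, .o, .o], [.o, .o, .o, .o], [.o, .o, .o, .o], [.o, .o, .o, .o], [.o, .o, .o, .o], [.o, .o, .o, .o], [.o, .o, .o, .o], [.o, .o, .o, .o], [.o, .o, .o, .o], [.o, .o, .o, .o], [.o, .o, .i, .o], [.o, .o, .o, .i], [.o, .o, .o, .o], [.o, .o, .o, .o], [.i, .o, .o, .o], [.o, .i, .o, .o]]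
def tB_s11_3 : List (List F4) := [[.o, .o, .o, .o, .o, .o, .o, .o, .o, .o, .o, .o, .o, .o, .o, .i], [.o, .o, .o, .o, .o, .o, .o, .o, .o, .o, .o, .o, .o, .o, .o, .o, .i], [.o, .o, .o, .o, .o, .o, .o, .o, .o, .o, .o, .i], [.o, .o, .o, .o, .o, .o, .o, .o, .o, .o, .o, .o, .i]]

theorem ba_s11_3 (h : LExt 4 tV_s11_3.length (vecL 4 tV_s11_3) (vecP 4 tP_s11_3)) :
    AK ⊥ (ThC true true (m11 3)) (SpP true true 3) :=
  bt_sp h (by decide +kernel) tT_s11_3 tB_s11_3 true true 3 (by omega) (by omega) (by decide +kernel)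

def tV_th11_122 : List (List F4) := [[.i, .o, .o, .o], [.o, .i, .o, .o], [.o, .o, .i, .o], [.o, .o, .o, .i], [.i, .i, .o, .o], [.i, .o, .i, .o], [.o, .w, .i, .o], [.i, .o, .o, .i], [.o, .v, .o, .i]]
def tP_th11_122 : List (List F4) := [[.i, .o, .o, .o], [.o, .i, .o, .o], [.o, .o, .i, .o], [.o, .o, .o, .i], [.i, .i, .o, .o], [.i, .o, .i, .o], [.o, .w, .i, .o], [.i, .o, .o, .i], [.o, .v, .o, .i], [.o, .o, .o, .o]]
def tT_th11_122 : List (List F4) := [[.o, .o, .o, .o], [.o, .o, .o, .o], [.o, .o, .o, .o], [.o, .o, .o, .o], [.o, .o, .o, .o], [.o, .o, .o, .o], [.o, .o, .i, .o], [.o, .o, .o, .o], [.o, .o, .o, .o], [.o, .o, .o, .o], [.o, .o, .o, .o], [.o, .o, .o, .i], [.o, .o, .o, .o], [.o, .o, .o, .o], [.o, .o, .o, .o], [.i, .o, .o, .o], [.o, .i, .o, .o]]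
def tB_th11_122 : List (List F4) := [[.o, .o, .o, .o, .o, .o, .o, .o, .o, .o, .o, .o, .o, .o, .o, .i], [.o, .o, .o, .o, .o, .o, .o, .o, .o, .o, .o, .o, .o, .o, .o, .o, .i], [.o, .o, .o, .o, .o, .o, .i], [.o, .o, .o, .o, .o, .o, .o, .o, .o, .o, .o, .i]]

theorem ba_th11_122 (h : LExt 4 tV_th11_122.length (vecL 4 tV_th11_122) (vecP 4 tP_th11_122)) :
    AK ⊥ (ThC true true (mm 1 2 2)) (ThP true true (mm 1 2 2)) :=
  bt_th h (by decide +kernel) tT_th11_122 tB_th11_122 true true (mm 1 2 2) (by decide) (by decide +kernel)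

end QG
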