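import Pool.Agent.Lib.QG.BT0

/-! MP_2e6874_co, part (B): data of the transfer, file 4. -/

set_option autoImplicit false
set_option maxRecDepth 100000

namespace QG
open Set Matroid Submodule

def tV_th00_123 : List (List F4) := [[.i, .o, .o, .o, .o], [.o, .i, .o, .o, .o], [.o, .o, .i, .o, .o], [.o, .o, .o, .i, .o], [.o, .o, .o, .o, .i], [.v, .o, .o, .w, .w], [.i, .i, .o, .o, .i], [.o, .i, .i, .o, .o], [.v, .o, .i, .v, .v]]
def tP_th00_123 : List (List F4) := [[.i, .o, .o, .o, .o], [.o, .i, .o, .o, .o], [.o, .o, .i, .o, .o], [.o, .o, .o, .i, .o], [.o, .o, .o, .o, .i], [.v, .o, .o, .w, .w], [.i, .i, .o, .o, .i], [.o, .i, .i, .o, .o], [.v, .o, .i, .v, .v], [.i, .o, .o, .o, .i], [.i, .o, .o, .i, .i], [.o, .o, .o, .o, .o]]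
def tT_th00_123 : List (List F4) := [[.o, .o, .o, .o, .o], [.o, .o, .o, .o, .o], [.o, .o, .o, .o, .o], [.o, .o, .o, .o, .o], [.o, .o, .o, .o, .o], [.o, .o, .o, .o, .o], [.i, .o, .o, .o, .o], [.o, .o, .o, .o, .o], [.o, .o, .o, .o, .o], [.o, .o, .o, .o, .o], [.o, .o, .o, .o, .o], [.o, .i, .o, .o, .o], [.o, .o, .i, .o, .o], [.o, .o, .o, .o, .o], [.o, .o, .o, .o, .o], [.i, .o, .o, .o, .i], [.i, .o, .o, .i, .i]]
def tB_th00_123 : List (List F4) := [[.o, .o, .o, .o, .o, .o, .i], [.o, .o, .o, .o, .o, .o, .o, .o, .o, .o, .o, .i], [.o, .o, .o, .o, .o, .o, .o, .o, .o, .o, .o, .o, .i], [.o, .o, .o, .o, .o, .o, .o, .o, .o, .o, .o, .o, .o, .o, .o, .i, .i], [.o, .o, .o, .o, .o, .o, .i, .o, .o, .o, .o, .o, .o, .o, .o, .i]]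

theorem ba_th00_123 (h : LExt 5 tV_th00_123.length (vecL 5 tV_th00_123) (vecP 5 tP_th00_123)) :
    AK ⊥ (ThC false false (mm 1 2 3)) (ThP false false (mm 1 2 3)) :=
  bt_th h (by decide +kernel) tT_th00_123 tB_th00_123 false false (mm 1 2 3) (by decide) (by decide +kernel)

def tV_th00_222 : List (List F4) := [[.i, .o, .o, .o, .o], [.o, .i, .o, .o, .o], [.o, .o, .i, .o, .o], [.o, .o, .o, .i, .o], [.o, .o, .o, .o, .i], [.i, .i, .o, .i, .o], [.w, .i, .o, .o, .w], [.i, .o, .i, .i, .o], [.v, .o, .i, .o, .v]]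
def tP_th00_222 : List (List F4) := [[.i, .o, .o, .o, .o], [.o, .i, .o, .o, .o], [.o, .o, .i, .o, .o], [.o, .o, .o, .i, .o], [.o, .o, .o, .o, .i], [.i, .i, .o, .i, .o], [.w, .i, .o, .o, .w], [.i, .o, .i, .i, .o], [.v, .o, .i, .o, .v], [.i, .o, .o, .i, .o], [.i, .o, .o, .o, .i], [.o, .o, .o, .o, .o]]
def tT_th00_222 : List (List F4) := [[.o, .o, .o, .o, .o], [.i, .o, .o, .o, .o], [.o, .o, .o, .o, .o], [.o, .o, .o, .o, .o], [.o, .o, .o, .o, .o], [.o, .o, .o, .o, .o], [.o, .i, .o, .o, .o], [.o, .o, .o, .o, .o], [.o, .o, .o, .o, .o], [.o, .o, .o, .o, .o], [.o, .o, .o, .o, .o], [.o, .o, .i, .o, .o], [.o, .o, .o, .o, .o], [.o, .o, .o, .o, .o], [.o, .o, .o, .o, .o], [.i, .o, .o, .i, .o], [.i, .o, .o, .o, .i]]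
def tB_th00_222 : List (List F4) := [[.o, .i], [.o, .o, .o, .o, .o, .o, .i], [.o, .o, .o, .o, .o, .o, .o, .o, .o, .o, .o, .i], [.o, .i, .o, .o, .o, .o, .o, .o, .o, .o, .o, .o, .o, .o, .o, .i], [.o, .i, .o, .o, .o, .o, .o, .o, .o, .o, .o, .o, .o, .o, .o, .o, .i]]

theorem ba_th00_222 (h : LExt 5 tV_th00_222.length (vecL 5 tV_th00_222) (vecP 5 tP_th00_222)) :
    AK ⊥ (ThC false false (mm 2 2 2)) (ThP false false (mm 2 2 2)) :=
  bt_th h (by decide +kernel) tT_th00_222 tB_th00_222 false false (mm 2 2 2) (by decide) (by decide +kernel)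

def tV_s00_4 : List (List F4) := [[.i, .o, .o, .o, .o], [.o, .i, .o, .o, .o], [.o, .o, .i, .o, .o], [.o, .o, .o, .i, .o], [.o, .o, .o, .o, .i], [.i, .o, .o, .v, .w], [.i, .i, .o, .o, .o], [.o, .i, .i, .o, .o], [.o, .o, .i, .i, .i]]
def tP_s00_4 : List (List F4) := [[.i, .o, .o, .o, .o], [.o, .i, .o, .o, .o], [.o, .o, .i, .o, .o], [.o, .o, .o, .i, .o], [.o, .o, .o, .o, .i], [.i, .o, .o, .v, .w], [.i, .i, .o, .o, .o], [.o, .i, .i, .o, .o], [.o, .o, .i, .i, .i], [.o, .o, .o, .v, .w], [.o, .o, .o, .w, .w], [.o, .o, .o, .o, .o], [.o, .o, .i, .i, .o], [.o, .o, .i, .o, .i], [.o, .o, .i, .w, .v], [.o, .o, .w, .v, .w], [.o, .o, .v, .v, .w], [.i, .o, .o, .o, .w], [.i, .o, .o, .v, .o], [.i, .o, .o, .w, .v], [.i, .o, .o, .v, .v], [.i, .o, .o, .w, .w]]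
def tT_s00_4 : List (List F4) := [[.o, .o, .o, .o, .o], [.o, .o, .o, .o, .o], [.o, .o, .o, .o, .o], [.o, .o, .o, .o, .o], [.o, .o, .o, .o, .o], [.o, .o, .o, .o, .o], [.o, .o, .o, .o, .o], [.o, .o, .o, .o, .o], [.o, .o, .o, .o, .o], [.o, .o, .o, .o, .o], [.o, .o, .o, .o, .o], [.i, .o, .o, .o, .o], [.o, .i, .o, .o, .o], [.o, .o, .i, .o, .o], [.o, .o, .o, .o, .o], [.o, .o, .o, .v, .w], [.o, .o, .o, .w, .w]]
def tB_s00_4 : List (List F4) := [[.o, .o, .o, .o, .o, .o, .o, .o, .o, .o, .o, .i], [.o, .o, .o, .o, .o, .o, .o, .o, .o, .o, .o, .o, .i], [.o, .o, .o, .o, .o, .o, .o, .o, .o, .o, .o, .o, .o, .i], [.o, .o, .o, .o, .o, .o, .o, .o, .o, .o, .o, .o, .o, .o, .o, .i, .i], [.o, .o, .o, .o, .o, .o, .o, .o, .o, .o, .o, .o, .o, .o, .o, .i, .w]]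

theorem ba_s00_4 (h : LExt 5 tV_s00_4.length (vecL 5 tV_s00_4) (vecP 5 tP_s00_4)) :
    AK ⊥ (ThC false false (m11 4)) (SpP false false 4) :=
  bt_sp h (by decide +kernel) tT_s00_4 tB_s00_4 false false 4 (by omega) (by omega) (by decide +kernel)

def tV_la11_011 : List (List F4) := [[.i, .o, .o, .o, .o], [.o, .i, .o, .o, .o], [.o, .o, .i, .o, .o], [.o, .o, .o, .i, .o], [.o, .o, .o, .o, .i], [.i, .i, .o, .i, .o], [.i, .o, .w, .o, .v], [.o, .i, .i, .o, .o], [.o, .o, .o, .i, .i]]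
def tP_la11_011 : List (List F4) := [[.i, .o, .o, .o, .o], [.o, .i, .o, .o, .o], [.o, .o, .i, .o, .o], [.o, .o, .o, .i, .o], [.o, .o, .o, .o, .i], [.i, .i, .o, .i, .o], [.i, .o, .w, .o, .v], [.o, .i, .i, .o, .o], [.o, .o, .o, .i, .i], [.o, .i, .o, .i, .o], [.i, .o, .o, .i, .o], [.i, .i, .o, .o, .o], [.o, .o, .w, .o, .v], [.i, .o, .o, .o, .v], [.i, .o, .w, .o, .o], [.o, .o, .o, .o, .o]]
def tT_la11_011 : List (List F4) := [[.i, .o, .o, .o, .o], [.o, .o, .o, .o, .o], [.o, .o, .o, .o, .o], [.o, .o, .o, .o, .o], [.o, .o, .o, .o, .o], [.o, .i, .o, .o, .o], [.o, .o, .o, .o, .o], [.o, .o, .o, .o, .o], [.o, .o, .o, .o, .o], [.o, .o, .o, .o, .o], [.o, .o, .o, .i, .o], [.o, .o, .o, .o, .o], [.o, .o, .o, .o, .o], [.o, .o, .o, .o, .o], [.o, .o, .o, .o, .o], [.o, .o, .o, .o, .o], [.o, .o, .o, .o, .o], [.o, .o, .o, .o, .o], [.o, .o, .o, .o, .o], [.o, .o, .o, .o, .o], [.o, .o,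 .o, .o, .o], [.o, .o, .o, .o, .o], [.o, .o, .o, .o, .o], [.o, .o, .o, .o, .o], [.o, .o, .o, .o, .o], [.o, .o, .i, .o, .o], [.o, .o, .o, .o, .o], [.o, .o, .o, .o, .o], [.o, .o, .o, .o, .o], [.o, .o, .o, .o, .o], [.o, .o, .o, .o, .i]]
def tB_la11_011 : List (List F4) := [[.i], [.o, .o, .o, .o, .o, .i], [.o, .o, .o, .o, .o, .o, .o, .o, .o, .o, .o, .o, .o, .o, .o, .o, .o, .o, .o, .o, .o, .o, .o, .o, .o, .i], [.o, .o, .o, .o, .o, .o, .o, .o, .o, .o, .i], [.o, .o, .o, .o, .o, .o, .o, .o, .o, .o, .o, .o, .o, .o, .o, .o, .o, .o, .o, .o, .o, .o, .o, .o, .o, .o, .o, .o, .o, .o, .i]]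

theorem ba_la11_011 (h : LExt 5 tV_la11_011.length (vecL 5 tV_la11_011) (vecP 5 tP_la11_011)) :
    AK (LaK true true (mm 0 1 1)) (LaC true true (mm 0 1 1)) (LaP true true (mm 0 1 1)) :=
  bt_la h (by decide +kernel) tT_la11_011 tB_la11_011 true true (mm 0 1 1) (by decide) (by decide +kernel)

def tV_de01_22 : List (List F4) := [[.i, .o, .o, .o, .o], [.o, .i, .o, .o, .o], [.o, .o, .i, .o, .o], [.o, .o, .o, .i, .o], [.o, .o, .o, .o, .i], [.i, .o, .o, .i, .o], [.w, .w, .w, .i, .o], [.o, .i, .o, .o, .i], [.w, .w, .w, .o, .i]]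
def tP_de01_22 : List (List F4) := [[.i, .o, .o, .o, .o], [.o, .i, .o, .o, .o], [.o, .o, .i, .o, .o], [.o, .o, .o, .i, .o], [.o, .o, .o, .o, .i], [.i, .o, .o, .i, .o], [.w, .w, .w, .i, .o], [.o, .i, .o, .o, .i], [.w, .w, .w, .o, .i], [.i, .i, .i, .o, .o], [.o, .o, .o, .o, .o], [.i, .o, .i, .o, .o], [.o, .i, .i, .o, .o], [.w, .w, .v, .o, .o]]
def tT_de01_22 : List (List F4) := [[.i, .i, .i, .o, .o], [.o, .o, .o, .o, .o], [.o, .o, .o, .o, .o], [.o, .o, .o, .o, .o], [.o, .o, .o, .o, .o], [.i, .o, .o, .o, .o], [.o, .o, .o, .i, .o], [.o, .o, .o, .o, .o], [.o, .o, .o, .o, .o], [.o, .o, .o, .o, .o], [.o, .i, .o, .o, .o], [.o, .o, .o, .o, .i]]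
def tB_de01_22 : List (List F4) := [[.o, .o, .o, .o, .o, .i], [.o, .o, .o, .o, .o, .o, .o, .o, .o, .o, .i], [.i, .o, .o, .o, .o, .i, .o, .o, .o, .o, .i], [.o, .o, .o, .o, .o, .o, .i], [.o, .o, .o, .o, .o, .o, .o, .o, .o, .o, .o, .i]]

theorem ba_de01_22 (h : LExt 5 tV_de01_22.length (vecL 5 tV_de01_22) (vecP 5 tP_de01_22)) :
    AK (DeK true {1, 2}) (DeC F4.w false true {1, 2} (l4 2 2 1 1)) (DeP F4.w false true {1, 2} (l4 2 2 1 1)) :=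
  bt_de h (by decide +kernel) tT_de01_22 tB_de01_22 F4.w false true [1, 2] (by decide) (l4 2 2 1 1) (by decide) (by decide +kernel)

end QG
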