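import Pool.Agent.Lib.QG.BT0

/-! MP_2e6874_co, part (B): data of the transfer, file 5. -/

set_option autoImplicit false
set_option maxRecDepth 100000

namespace QG
open Set Matroid Submodule

def tV_de01_211 : List (List F4) := [[.i, .o, .o, .o, .o], [.o, .i, .o, .o, .o], [.o, .o, .i, .o, .o], [.o, .o, .o, .i, .o], [.o, .o, .o, .o, .i], [.i, .o, .o, .o, .i], [.w, .w, .w, .w, .i], [.w, .v, .w, .w, .o], [.w, .w, .v, .w, .o]]
def tP_de01_211 : List (List F4) := [[.i, .o, .o, .o, .o], [.o, .i, .o, .o, .o], [.o, .o, .i, .o, .o], [.o, .o, .o, .i, .o], [.o, .o, .o, .o, .i], [.i, .o, .o, .o, .i], [.w, .w, .w, .w, .i], [.w, .v, .w, .w, .o], [.w, .w, .v, .w, .o], [.i, .i, .i, .i, .o], [.o, .o, .o, .o, .o], [.i, .o, .o, .i, .o], [.o, .i, .o, .i, .o], [.o, .o, .i, .i, .o], [.w, .w, .w, .v, .o], [.w, .v, .w, .v, .o], [.w, .w, .v, .v, .o]]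
def tT_de01_211 : List (List F4) := [[.i, .i, .i, .i, .o], [.o, .o, .o, .o, .o], [.o, .o, .o, .o, .o], [.o, .o, .o, .o, .o], [.o, .o, .o, .o, .o], [.i, .o, .o, .o, .o], [.o, .o, .o, .o, .i], [.o, .o, .o, .o, .o], [.o, .o, .o, .o, .o], [.o, .o, .o, .o, .o], [.o, .i, .o, .o, .o], [.o, .o, .o, .o, .o], [.o, .o, .o, .o, .o], [.o, .o, .o, .o, .o], [.o, .o, .o, .o, .o], [.o, .o, .i, .o, .o]]
def tB_de01_211 : List (List F4) := [[.o, .o, .o, .o, .o, .i], [.o, .o, .o, .o, .o, .o, .o, .o, .o, .o, .i], [.o, .o, .o, .o, .o, .o, .o, .o, .o, .o, .o, .o, .o, .o, .o, .i], [.i, .o, .o, .o, .o, .i, .o, .o, .o, .o, .i, .o, .o, .o, .o, .i], [.o, .o, .o, .o, .o, .o, .i]]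

theorem ba_de01_211 (h : LExt 5 tV_de01_211.length (vecL 5 tV_de01_211) (vecP 5 tP_de01_211)) :
    AK (DeK true {1, 2, 3}) (DeC F4.w false true {1, 2, 3} (l4 2 1 1 1)) (DeP F4.w false true {1, 2, 3} (l4 2 1 1 1)) :=
  bt_de h (by decide +kernel) tT_de01_211 tB_de01_211 F4.w false true [1, 2, 3] (by decide) (l4 2 1 1 1) (by decide) (by decide +kernel)

def tV_de01_1111 : List (List F4) := [[.i, .o, .o, .o, .o], [.o, .i, .o, .o, .o], [.o, .o, .i, .o, .o], [.o, .o, .o, .i, .o], [.o, .o, .o, .o, .i], [.v, .w, .w, .w, .w], [.w, .v, .w, .w, .w], [.w, .w, .v, .w, .w], [.w, .w, .w, .v, .w]]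
def tP_de01_1111 : List (List F4) := [[.i, .o, .o, .o, .o], [.o, .i, .o, .o, .o], [.o, .o, .i, .o, .o], [.o, .o, .o, .i, .o], [.o, .o, .o, .o, .i], [.v, .w, .w, .w, .w], [.w, .v, .w, .w, .w], [.w, .w, .v, .w, .w], [.w, .w, .w, .v, .w], [.i, .i, .i, .i, .i], [.o, .o, .o, .o, .o], [.i, .o, .o, .o, .i], [.o, .i, .o, .o, .i], [.o, .o, .i, .o, .i], [.o, .o, .o, .i, .i], [.w, .w, .w, .w, .v], [.v, .w, .w, .w, .v], [.w, .v, .w, .w, .v], [.w, .w, .v, .w, .v], [.w, .w, .w, .v, .v]]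
def tT_de01_1111 : List (List F4) := [[.i, .i, .i, .i, .i], [.o, .o, .o, .o, .o], [.o, .o, .o, .o, .o], [.o, .o, .o, .o, .o], [.o, .o, .o, .o, .o], [.i, .o, .o, .o, .o], [.o, .o, .o, .o, .o], [.o, .o, .o, .o, .o], [.o, .o, .o, .o, .o], [.o, .o, .o, .o, .o], [.o, .i, .o, .o, .o], [.o, .o, .o, .o, .o], [.o, .o, .o, .o, .o], [.o, .o, .o, .o, .o], [.o, .o, .o, .o, .o], [.o, .o, .i, .o, .o], [.o, .o, .o, .o, .o], [.o, .o, .o, .o, .o], [.o, .o, .o, .o, .o], [.o, .o, .o, .o, .o], [.o, .o, .o, .i, .o]]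
def tB_de01_1111 : List (List F4) := [[.o, .o, .o, .o, .o, .i], [.o, .o, .o, .o, .o, .o, .o, .o, .o, .o, .i], [.o, .o, .o, .o, .o, .o, .o, .o, .o, .o, .o, .o, .o, .o, .o, .i], [.o, .o, .o, .o, .o, .o, .o, .o, .o, .o, .o, .o, .o, .o, .o, .o, .o, .o, .o, .o, .i], [.i, .o, .o, .o, .o, .i, .o, .o, .o, .o, .i, .o, .o, .o, .o, .i, .o, .o, .o, .o, .i]]

theorem ba_de01_1111 (h : LExt 5 tV_de01_1111.length (vecL 5 tV_de01_1111) (vecP 5 tP_de01_1111)) :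
    AK (DeK true {1, 2, 3, 4}) (DeC F4.w false true {1, 2, 3, 4} (l4 1 1 1 1)) (DeP F4.w false true {1, 2, 3, 4} (l4 1 1 1 1)) :=
  bt_de h (by decide +kernel) tT_de01_1111 tB_de01_1111 F4.w false true [1, 2, 3, 4] (by decide) (l4 1 1 1 1) (by decide) (by decide +kernel)

def tV_w5 : List (List F4) := [[.i, .o, .o, .o, .o], [.o, .i, .o, .o, .o], [.o, .o, .i, .o, .o], [.o, .o, .o, .i, .o], [.o, .o, .o, .o, .i], [.i, .i, .o, .o, .o], [.o, .i, .i, .o, .o], [.o, .o, .i, .i, .o], [.o, .o, .o, .i, .i], [.w, .o, .o, .o, .i]]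
def tP_w5 : List (List F4) := [[.i, .o, .o, .o, .o], [.o, .i, .o, .o, .o], [.o, .o, .i, .o, .o], [.o, .o, .o, .i, .o], [.o, .o, .o, .o, .i], [.i, .i, .o, .o, .o], [.o, .i, .i, .o, .o], [.o, .o, .i, .i, .o], [.o, .o, .o, .i, .i], [.w, .o, .o, .o, .i], [.i, .w, .o, .o, .o], [.i, .o, .w, .o, .o], [.i, .o, .o, .w, .o], [.i, .o, .o, .o, .w], [.o, .i, .w, .o, .o], [.o, .i, .o, .w, .o], [.o, .i, .o, .o, .w], [.o, .o, .i, .w, .o], [.o, .o, .i, .o, .w], [.o, .o, .o, .i, .w], [.i, .v, .w, .o, .o], [.i, .i, .w, .w, .o], [.i, .i, .o, .w, .w], [.w, .i, .o, .o, .w], [.o, .i, .v, .w, .o], [.o, .i, .i, .w, .w], [.v, .i, .i, .o, .w], [.o, .o, .i, .v, .w], [.v, .o, .i, .i, .w], [.v, .o, .o, .i, .v], [.o, .o, .o, .o, .o]]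
def tT_w5 : List (List F4) := [[.i, .o, .o, .o, .o], [.o, .i, .o, .o, .o], [.o, .o, .i, .o, .o], [.o, .o, .o, .i, .o], [.o, .o, .o, .o, .i]]
def tB_w5 : List (List F4) := [[.i], [.o, .i], [.o, .o, .i], [.o, .o, .o, .i], [.o, .o, .o, .o, .i]]

theorem ba_w5 (h : LExt 5 tV_w5.length (vecL 5 tV_w5) (vecP 5 tP_w5)) :
    AK ⊥ (WhC 5) (WhP 5) :=
  bt_wh h (by decide +kernel) tT_w5 tB_w5 5 (by omega) (by omega) (by decide +kernel)

def tV_th10_222 : List (List F4) := [[.i, .o, .o, .o, .o], [.o, .i, .o, .o, .o], [.o, .o, .i, .o, .o], [.o, .o, .o, .i, .o], [.i, .i, .o, .o, .o], [.o, .o, .o, .o, .i], [.i, .o, .i, .o, .o], [.o, .w, .i, .o, .w], [.i, .o, .o, .i, .o], [.o, .v, .o, .i, .v]]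
def tP_th10_222 : List (List F4) := [[.i, .o, .o, .o, .o], [.o, .i, .o, .o, .o], [.o, .o, .i, .o, .o], [.o, .o, .o, .i, .o], [.i, .i, .o, .o, .o], [.o, .o, .o, .o, .i], [.i, .o, .i, .o, .o], [.o, .w, .i, .o, .w], [.i, .o, .o, .i, .o], [.o, .v, .o, .i, .v], [.o, .i, .o, .o, .i], [.o, .o, .o, .o, .o]]
def tT_th10_222 : List (List F4) := [[.o, .o, .o, .o, .o], [.o, .i, .o, .o, .o], [.o, .o, .o, .o, .o], [.o, .o, .o, .o, .o], [.o, .o, .o, .o, .o], [.o, .o, .o, .o, .o], [.o, .o, .i, .o, .o], [.o, .o, .o, .o, .o], [.o, .o, .o, .o, .o], [.o, .o, .o, .o, .o], [.o, .o, .o, .o, .o], [.o, .o, .o, .i, .o], [.o, .o, .o, .o, .o], [.o, .o, .o, .o, .o], [.o, .o, .o, .o, .o], [.i, .o, .o, .o, .o], [.o, .i, .o, .o, .i]]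
def tB_th10_222 : List (List F4) := [[.o, .o, .o, .o, .o, .o, .o, .o, .o, .o, .o, .o, .o, .o, .o, .i], [.o, .i], [.o, .o, .o, .o, .o, .o, .i], [.o, .o, .o, .o, .o, .o, .o, .o, .o, .o, .o, .i], [.o, .i, .o, .o, .o, .o, .o, .o, .o, .o, .o, .o, .o, .o, .o, .o, .i]]

theorem ba_th10_222 (h : LExt 5 tV_th10_222.length (vecL 5 tV_th10_222) (vecP 5 tP_th10_222)) :
    AK ⊥ (ThC true false (mm 2 2 2)) (ThP true false (mm 2 2 2)) :=
  bt_th h (by decide +kernel) tT_th10_222 tB_th10_222 true false (mm 2 2 2) (by decide) (by decide +kernel)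

def tV_s10_4 : List (List F4) := [[.i, .o, .o, .o, .o], [.o, .i, .o, .o, .o], [.o, .o, .i, .o, .o], [.o, .o, .o, .i, .o], [.o, .o, .o, .o, .i], [.v, .o, .o, .o, .w], [.i, .i, .o, .o, .o], [.o, .i, .i, .o, .o], [.o, .o, .i, .i, .o], [.v, .o, .o, .i, .v]]
def tP_s10_4 : List (List F4) := [[.i, .o, .o, .o, .o], [.o, .i, .o, .o, .o], [.o, .o, .i, .o, .o], [.o, .o, .o, .i, .o], [.o, .o, .o, .o, .i], [.v, .o, .o, .o, .w], [.i, .i, .o, .o, .o], [.o, .i, .i, .o, .o], [.o, .o, .i, .i, .o], [.v, .o, .o, .i, .v], [.i, .o, .o, .o, .i], [.o, .o, .o, .o, .o], [.o, .o, .o, .i, .i], [.v, .o, .o, .i, .w], [.w, .o, .o, .i, .v], [.i, .o, .o, .w, .o], [.i, .o, .o, .v, .o]]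
def tT_s10_4 : List (List F4) := [[.o, .o, .o, .o, .o], [.o, .o, .o, .o, .o], [.o, .o, .o, .o, .o], [.o, .o, .o, .o, .o], [.o, .o, .o, .o, .o], [.o, .o, .o, .o, .o], [.o, .o, .o, .o, .o], [.o, .o, .o, .o, .o], [.o, .o, .o, .o, .o], [.o, .o, .o, .o, .o], [.o, .o, .o, .o, .o], [.o, .i, .o, .o, .o], [.o, .o, .i, .o, .o], [.o, .o, .o, .i, .o], [.o, .o, .o, .o, .o], [.i, .o, .o, .o, .o], [.i, .o, .o, .o, .i]]
def tB_s10_4 : List (List F4) := [[.o, .o, .o, .o, .o, .o, .o, .o, .o, .o, .o, .o, .o, .o, .o, .i], [.o, .o, .o, .o, .o, .o, .o, .o, .o, .o, .o, .i], [.o, .o, .o, .o, .o, .o, .o, .o, .o, .o, .o, .o, .i], [.o, .o, .o, .o, .o, .o, .o, .o, .o, .o, .o, .o, .o, .i], [.o, .o, .o, .o, .o, .o, .o, .o, .o, .o, .o, .o, .o, .o, .o, .i, .i]]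

theorem ba_s10_4 (h : LExt 5 tV_s10_4.length (vecL 5 tV_s10_4) (vecP 5 tP_s10_4)) :
    AK ⊥ (ThC true false (m11 4)) (SpP true false 4) :=
  bt_sp h (by decide +kernel) tT_s10_4 tB_s10_4 true false 4 (by omega) (by omega) (by decide +kernel)

end QG
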