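import Pool.Agent.Lib.QG.BT0

/-! MP_2e6874_co, part (B): data of the transfer, file 7. -/

set_option autoImplicit false
set_option maxRecDepth 100000

namespace QG
open Set Matroid Submodule

def tV_de11_1111 : List (List F4) := [[.i, .o, .o, .o, .o], [.o, .i, .o, .o, .o], [.o, .o, .i, .o, .o], [.o, .o, .o, .i, .o], [.o, .o, .o, .o, .i], [.i, .i, .i, .i, .i], [.i, .o, .o, .o, .w], [.o, .i, .o, .o, .w], [.o, .o, .i, .o, .w], [.o, .o, .o, .i, .w]]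
def tP_de11_1111 : List (List F4) := [[.i, .o, .o, .o, .o], [.o, .i, .o, .o, .o], [.o, .o, .i, .o, .o], [.o, .o, .o, .i, .o], [.o, .o, .o, .o, .i], [.i, .i, .i, .i, .i], [.i, .o, .o, .o, .w], [.o, .i, .o, .o, .w], [.o, .o, .i, .o, .w], [.o, .o, .o, .i, .w], [.o, .o, .o, .o, .o], [.o, .i, .i, .i, .i], [.i, .o, .i, .i, .i], [.i, .i, .o, .i, .i], [.i, .i, .i, .o, .i], [.i, .i, .i, .i, .v], [.o, .i, .i, .i, .v], [.i, .o, .i, .i, .v], [.i, .i, .o, .i, .v], [.i, .i, .i, .o, .v]]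
def tT_de11_1111 : List (List F4) := [[.o, .o, .o, .o, .i], [.o, .o, .o, .o, .o], [.o, .o, .o, .o, .o], [.o, .o, .o, .o, .o], [.o, .o, .o, .o, .o], [.i, .o, .o, .o, .o], [.o, .o, .o, .o, .o], [.o, .o, .o, .o, .o], [.o, .o, .o, .o, .o], [.o, .o, .o, .o, .o], [.o, .i, .o, .o, .o], [.o, .o, .o, .o, .o], [.o, .o, .o, .o, .o], [.o, .o, .o, .o, .o], [.o, .o, .o, .o, .o], [.o, .o, .i, .o, .o], [.o, .o, .o, .o, .o], [.o, .o, .o, .o, .o], [.o, .o, .o, .o, .o], [.o, .o, .o, .o, .o], [.o, .o, .o, .i, .o]]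
def tB_de11_1111 : List (List F4) := [[.o, .o, .o, .o, .o, .i], [.o, .o, .o, .o, .o, .o, .o, .o, .o, .o, .i], [.o, .o, .o, .o, .o, .o, .o, .o, .o, .o, .o, .o, .o, .o, .o, .i], [.o, .o, .o, .o, .o, .o, .o, .o, .o, .o, .o, .o, .o, .o, .o, .o, .o, .o, .o, .o, .i], [.i]]

theorem ba_de11_1111 (h : LExt 5 tV_de11_1111.length (vecL 5 tV_de11_1111) (vecP 5 tP_de11_1111)) :
    AK (DeK true {1, 2, 3, 4}) (DeC F4.w true true {1, 2, 3, 4} (l4 1 1 1 1)) (DeP F4.w true true {1, 2, 3, 4} (l4 1 1 1 1)) :=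
  bt_de h (by decide +kernel) tT_de11_1111 tB_de11_1111 F4.w true true [1, 2, 3, 4] (by decide) (l4 1 1 1 1) (by decide) (by decide +kernel)

def tV_th11_222 : List (List F4) := [[.i, .o, .o, .o, .o], [.o, .i, .o, .o, .o], [.o, .o, .i, .o, .o], [.o, .o, .o, .i, .o], [.o, .o, .o, .o, .i], [.i, .o, .i, .o, .o], [.o, .i, .i, .o, .o], [.i, .o, .o, .i, .o], [.o, .w, .o, .i, .o], [.i, .o, .o, .o, .i], [.o, .v, .o, .o, .i]]
def tP_th11_222 : List (List F4) := [[.i, .o, .o, .o, .o], [.o, .i, .o, .o, .o], [.o, .o, .i, .o, .o], [.o, .o, .o, .i, .o], [.o, .o, .o, .o, .i], [.i, .o, .i, .o, .o], [.o, .i, .i, .o, .o], [.i, .o, .o, .i, .o], [.o, .w, .o, .i, .o], [.i, .o, .o, .o, .i], [.o, .v, .o, .o, .i], [.o, .o, .o, .o, .o]]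
def tT_th11_222 : List (List F4) := [[.o, .o, .o, .o, .o], [.o, .o, .i, .o, .o], [.o, .o, .o, .o, .o], [.o, .o, .o, .o, .o], [.o, .o, .o, .o, .o], [.o, .o, .o, .o, .o], [.o, .o, .o, .i, .o], [.o, .o, .o, .o, .o], [.o, .o, .o, .o, .o], [.o, .o, .o, .o, .o], [.o, .o, .o, .o, .o], [.o, .o, .o, .o, .i], [.o, .o, .o, .o, .o], [.o, .o, .o, .o, .o], [.o, .o, .o, .o, .o], [.i, .o, .o, .o, .o], [.o, .i, .o, .o, .o]]
def tB_th11_222 : List (List F4) := [[.o, .o, .o, .o, .o, .o, .o, .o, .o, .o, .o, .o, .o, .o, .o, .i], [.o, .o, .o, .o, .o, .o, .o, .o, .o, .o, .o, .o, .o, .o, .o, .o, .i], [.o, .i], [.o, .o, .o, .o, .o, .o, .i], [.o, .o, .o, .o, .o, .o, .o, .o, .o, .o, .o, .i]]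

theorem ba_th11_222 (h : LExt 5 tV_th11_222.length (vecL 5 tV_th11_222) (vecP 5 tP_th11_222)) :
    AK ⊥ (ThC true true (mm 2 2 2)) (ThP true true (mm 2 2 2)) :=
  bt_th h (by decide +kernel) tT_th11_222 tB_th11_222 true true (mm 2 2 2) (by decide) (by decide +kernel)

def tV_s11_4 : List (List F4) := [[.i, .o, .o, .o, .o], [.o, .i, .o, .o, .o], [.o, .o, .i, .o, .o], [.o, .o, .o, .i, .o], [.o, .o, .o, .o, .i], [.i, .i, .o, .o, .o], [.i, .w, .o, .o, .o], [.i, .o, .i, .o, .o], [.o, .o, .i, .i, .o], [.o, .o, .o, .i, .i], [.o, .v, .o, .o, .i]]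
def tP_s11_4 : List (List F4) := [[.i, .o, .o, .o, .o], [.o, .i, .o, .o, .o], [.o, .o, .i, .o, .o], [.o, .o, .o, .i, .o], [.o, .o, .o, .o, .i], [.i, .i, .o, .o, .o], [.i, .w, .o, .o, .o], [.i, .o, .i, .o, .o], [.o, .o, .i, .i, .o], [.o, .o, .o, .i, .i], [.o, .v, .o, .o, .i], [.o, .o, .o, .o, .o]]
def tT_s11_4 : List (List F4) := [[.o, .o, .o, .o, .o], [.o, .o, .o, .o, .o], [.o, .o, .o, .o, .o], [.o, .o, .o, .o, .o], [.o, .o, .o, .o, .o], [.o, .o, .o, .o, .o], [.o, .o, .o, .o, .o], [.o, .o, .o, .o, .o], [.o, .o, .o, .o, .o], [.o, .o, .o, .o, .o], [.o, .o, .o, .o, .o], [.o, .o, .i, .o, .o], [.o, .o, .o, .i, .o], [.o, .o, .o, .o, .i], [.o, .o, .o, .o, .o], [.i, .o, .o, .o, .o], [.o, .i, .o, .o, .o]]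
def tB_s11_4 : List (List F4) := [[.o, .o, .o, .o, .o, .o, .o, .o, .o, .o, .o, .o, .o, .o, .o, .i], [.o, .o, .o, .o, .o, .o, .o, .o, .o, .o, .o, .o, .o, .o, .o, .o, .i], [.o, .o, .o, .o, .o, .o, .o, .o, .o, .o, .o, .i], [.o, .o, .o, .o, .o, .o, .o, .o, .o, .o, .o, .o, .i], [.o, .o, .o, .o, .o, .o, .o, .o, .o, .o, .o, .o, .o, .i]]

theorem ba_s11_4 (h : LExt 5 tV_s11_4.length (vecL 5 tV_s11_4) (vecP 5 tP_s11_4)) :
    AK ⊥ (ThC true true (m11 4)) (SpP true true 4) :=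
  bt_sp h (by decide +kernel) tT_s11_4 tB_s11_4 true true 4 (by omega) (by omega) (by decide +kernel)

def tV_la00_022 : List (List F4) := [[.i, .o, .o, .o, .o], [.o, .i, .o, .o, .o], [.o, .o, .i, .o, .o], [.i, .i, .o, .o, .o], [.w, .o, .v, .o, .o], [.o, .o, .o, .i, .o], [.o, .o, .o, .o, .i], [.o, .i, .o, .i, .o], [.o, .o, .i, .i, .o], [.i, .i, .o, .o, .i], [.w, .o, .v, .o, .i]]
def tP_la00_022 : List (List F4) := [[.i, .o, .o, .o, .o], [.o, .i, .o, .o, .o], [.o, .o, .i, .o, .o], [.i, .i, .o, .o, .o], [.w, .o, .v, .o, .o], [.o, .o, .o, .i, .o], [.o, .o, .o, .o, .i], [.o, .i, .o, .i, .o], [.o, .o, .i, .i, .o], [.i, .i, .o, .o, .i], [.w, .o, .v, .o, .i], [.o, .o, .o, .o, .o]]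
def tT_la00_022 : List (List F4) := [[.i, .o, .o, .o, .o], [.o, .o, .o, .o, .o], [.o, .o, .o, .o, .o], [.o, .o, .o, .o, .o], [.o, .o, .o, .o, .o], [.o, .i, .o, .o, .o], [.o, .o, .o, .i, .o], [.o, .o, .o, .o, .o], [.o, .o, .o, .o, .o], [.o, .o, .o, .o, .o], [.i, .i, .o, .o, .o], [.o, .o, .o, .o, .i], [.o, .o, .o, .o, .o], [.o, .o, .o, .o, .o], [.o, .o, .o, .o, .o], [.o, .o, .o, .o, .o], [.o, .o, .o, .o, .o], [.o, .o, .o, .o, .o], [.o, .o, .o, .o, .o], [.o, .o, .o, .o, .o], [.o, .o, .o, .o, .o], [.o, .o, .o, .o, .o], [.o, .o, .o, .o, .o], [.o, .o, .o, .o, .o], [.o, .o, .o, .o, .o], [.o, .o, .i, .o, .o], [.o, .o, .o, .o, .o], [.o, .o, .o, .o, .o], [.o, .o, .o, .o, .o], [.o, .o, .o, .o, .o], [.w, .o, .v, .o, .o]]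
def tB_la00_022 : List (List F4) := [[.i], [.o, .o, .o, .o, .o, .i], [.o, .o, .o, .o, .o, .o, .o, .o, .o, .o, .o, .o, .o, .o, .o, .o, .o, .o, .o, .o, .o, .o, .o, .o, .o, .i], [.o, .o, .o, .o, .o, .o, .i], [.o, .o, .o, .o, .o, .o, .o, .o, .o, .o, .o, .i]]

theorem ba_la00_022 (h : LExt 5 tV_la00_022.length (vecL 5 tV_la00_022) (vecP 5 tP_la00_022)) :
    AK (LaK false false (mm 0 2 2)) (LaC false false (mm 0 2 2)) (LaP false false (mm 0 2 2)) :=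
  bt_la h (by decide +kernel) tT_la00_022 tB_la00_022 false false (mm 0 2 2) (by decide) (by decide +kernel)

def tV_la00_112 : List (List F4) := [[.i, .o, .o, .o, .o], [.o, .i, .o, .o, .o], [.o, .o, .i, .o, .o], [.o, .o, .o, .i, .o], [.i, .o, .i, .o, .o], [.o, .w, .o, .v, .o], [.o, .o, .o, .o, .i], [.i, .i, .o, .o, .o], [.o, .o, .i, .i, .o], [.i, .o, .i, .o, .i], [.o, .w, .o, .v, .i]]
def tP_la00_112 : List (List F4) := [[.i, .o, .o, .o, .o], [.o, .i, .o, .o, .o], [.o, .o, .i, .o, .o], [.o, .o, .o, .i, .o], [.i, .o, .i, .o, .o], [.o, .w, .o, .v, .o], [.o, .o, .o, .o, .i], [.i, .i, .o, .o, .o], [.o, .o, .i, .i, .o], [.i, .o, .i, .o, .i], [.o, .w, .o, .v, .i], [.o, .o, .o, .o, .o]]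
def tT_la00_112 : List (List F4) := [[.i, .o, .o, .o, .o], [.o, .o, .o, .o, .o], [.o, .o, .o, .o, .o], [.o, .o, .o, .o, .o], [.o, .o, .o, .o, .o], [.o, .o, .i, .o, .o], [.o, .o, .o, .o, .o], [.o, .o, .o, .o, .o], [.o, .o, .o, .o, .o], [.o, .o, .o, .o, .o], [.i, .o, .i, .o, .o], [.o, .o, .o, .o, .i], [.o, .o, .o, .o, .o], [.o, .o, .o, .o, .o], [.o, .o, .o, .o, .o], [.o, .o, .o, .o, .o], [.o, .o, .o, .o, .o], [.o, .o, .o, .o, .o], [.o, .o, .o, .o, .o], [.o, .o, .o, .o, .o], [.o, .i, .o, .o, .o], [.o, .o, .o, .o, .o], [.o, .o, .o, .o, .o], [.o, .o, .o, .o, .o], [.o, .o, .o, .o, .o], [.o, .o, .o, .i, .o], [.o, .o, .o, .o, .o], [.o, .o, .o, .o, .o], [.o, .o, .o, .o, .o], [.o, .o, .o, .o, .o], [.o, .w, .o, .v, .o]]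
def tB_la00_112 : List (List F4) := [[.i], [.o, .o, .o, .o, .o, .o, .o, .o, .o, .o, .o, .o, .o, .o, .o, .o, .o, .o, .o, .o, .i], [.o, .o, .o, .o, .o, .i], [.o, .o, .o, .o, .o, .o, .o, .o, .o, .o, .o, .o, .o, .o, .o, .o, .o, .o, .o, .o, .o, .o, .o, .o, .o, .i], [.o, .o, .o, .o, .o, .o, .o, .o, .o, .o, .o, .i]]

theorem ba_la00_112 (h : LExt 5 tV_la00_112.length (vecL 5 tV_la00_112) (vecP 5 tP_la00_112)) :
    AK (LaK false false (mm 1 1 2)) (LaC false false (mm 1 1 2)) (LaP false false (mm 1 1 2)) :=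
  bt_la h (by decide +kernel) tT_la00_112 tB_la00_112 false false (mm 1 1 2) (by decide) (by decide +kernel)

end QG
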