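import Pool.Agent.Lib.QG.BT0

/-! MP_2e6874_co, part (B): data of the transfer, file 8. -/

set_option autoImplicit false
set_option maxRecDepth 100000

namespace QG
open Set Matroid Submodule

def tV_de10_2111 : List (List F4) := [[.i, .o, .o, .o, .o], [.o, .i, .o, .o, .o], [.o, .o, .i, .o, .o], [.o, .o, .o, .i, .o], [.i, .i, .i, .i, .o], [.o, .o, .o, .o, .i], [.i, .o, .o, .o, .i], [.w, .w, .w, .w, .i], [.w, .v, .w, .w, .o], [.w, .w, .v, .w, .o], [.w, .w, .w, .v, .o]]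
def tP_de10_2111 : List (List F4) := [[.i, .o, .o, .o, .o], [.o, .i, .o, .o, .o], [.o, .o, .i, .o, .o], [.o, .o, .o, .i, .o], [.i, .i, .i, .i, .o], [.o, .o, .o, .o, .i], [.i, .o, .o, .o, .i], [.w, .w, .w, .w, .i], [.w, .v, .w, .w, .o], [.w, .w, .v, .w, .o], [.w, .w, .w, .v, .o], [.o, .o, .o, .o, .o]]
def tT_de10_2111 : List (List F4) := [[.i, .i, .i, .i, .o], [.o, .o, .o, .o, .o], [.o, .o, .o, .o, .o], [.o, .o, .o, .o, .o], [.o, .o, .o, .o, .o], [.i, .o, .o, .o, .o], [.o, .o, .o, .o, .i], [.o, .o, .o, .o, .o], [.o, .o, .o, .o, .o], [.o, .o, .o, .o, .o], [.o, .i, .o, .o, .o], [.o, .o, .o, .o, .o], [.o, .o, .o, .o, .o], [.o, .o, .o, .o, .o], [.o, .o, .o, .o, .o], [.o, .o, .i, .o, .o], [.o, .o, .o, .o, .o], [.o, .o, .o, .o, .o], [.o, .o, .o, .o, .o], [.o, .o, .o, .o, .o], [.o, .o, .o, .i, .o]]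
def tB_de10_2111 : List (List F4) := [[.o, .o, .o, .o, .o, .i], [.o, .o, .o, .o, .o, .o, .o, .o, .o, .o, .i], [.o, .o, .o, .o, .o, .o, .o, .o, .o, .o, .o, .o, .o, .o, .o, .i], [.o, .o, .o, .o, .o, .o, .o, .o, .o, .o, .o, .o, .o, .o, .o, .o, .o, .o, .o, .o, .i], [.o, .o, .o, .o, .o, .o, .i]]

theorem ba_de10_2111 (h : LExt 5 tV_de10_2111.length (vecL 5 tV_de10_2111) (vecP 5 tP_de10_2111)) :
    AK (DeK false {1, 2, 3, 4}) (DeC F4.w true false {1, 2, 3, 4} (l4 2 1 1 1)) (DeP F4.w true false {1, 2, 3, 4} (l4 2 1 1 1)) :=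
  bt_de h (by decide +kernel) tT_de10_2111 tB_de10_2111 F4.w true false [1, 2, 3, 4] (by decide) (l4 2 1 1 1) (by decide) (by decide +kernel)

def tV_la11_012 : List (List F4) := [[.i, .o, .o, .o, .o, .o], [.o, .i, .o, .o, .o, .o], [.o, .o, .i, .o, .o, .o], [.o, .o, .o, .i, .o, .o], [.o, .o, .o, .o, .i, .o], [.i, .i, .o, .i, .o, .o], [.i, .o, .w, .o, .v, .o], [.o, .o, .o, .o, .o, .i], [.o, .i, .i, .o, .o, .o], [.o, .o, .o, .i, .o, .i], [.o, .o, .o, .o, .i, .i]]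
def tP_la11_012 : List (List F4) := [[.i, .o, .o, .o, .o, .o], [.o, .i, .o, .o, .o, .o], [.o, .o, .i, .o, .o, .o], [.o, .o, .o, .i, .o, .o], [.o, .o, .o, .o, .i, .o], [.i, .i, .o, .i, .o, .o], [.i, .o, .w, .o, .v, .o], [.o, .o, .o, .o, .o, .i], [.o, .i, .i, .o, .o, .o], [.o, .o, .o, .i, .o, .i], [.o, .o, .o, .o, .i, .i], [.o, .i, .o, .i, .o, .o], [.i, .o, .o, .i, .o, .o], [.i, .i, .o, .o, .o, .o], [.o, .o, .w, .o, .v, .o], [.i, .o, .o, .o, .v, .o], [.i, .o, .w, .o, .o, .o], [.o, .o, .o, .o, .o, .o]]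
def tT_la11_012 : List (List F4) := [[.i, .o, .o, .o, .o, .o], [.o, .o, .o, .o, .o, .o], [.o, .o, .o, .o, .o, .o], [.o, .o, .o, .o, .o, .o], [.o, .o, .o, .o, .o, .o], [.o, .i, .o, .o, .o, .o], [.o, .o, .o, .o, .o, .o], [.o, .o, .o, .o, .o, .o], [.o, .o, .o, .o, .o, .o], [.o, .o, .o, .o, .o, .o], [.o, .o, .o, .i, .o, .o], [.o, .o, .o, .o, .o, .i], [.o, .o, .o, .o, .o, .o], [.o, .o, .o, .o, .o, .o], [.o, .o, .o, .o, .o, .o], [.o, .o, .o, .o, .o, .o], [.o, .o, .o, .o, .o, .o], [.o, .o, .o, .o, .o, .o], [.o, .o, .o, .o, .o, .o], [.o, .o, .o, .o, .o, .o], [.o, .o, .o, .o, .o, .o], [.o, .o, .o, .o, .o, .o], [.o, .o, .o, .o, .o, .o], [.o, .o, .o, .o, .o, .o], [.o, .o, .o, .o, .o, .o], [.o, .o, .i, .o, .o, .o], [.o, .o, .o, .o, .o, .o], [.o, .o, .o, .o, .o, .o], [.o, .o, .o, .o, .o, .o], [.o, .o, .o, .o, .o, .o], [.o, .o, .o, .o, .i, .o]]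
def tB_la11_012 : List (List F4) := [[.i], [.o, .o, .o, .o, .o, .i], [.o, .o, .o, .o, .o, .o, .o, .o, .o, .o, .o, .o, .o, .o, .o, .o, .o, .o, .o, .o, .o, .o, .o, .o, .o, .i], [.o, .o, .o, .o, .o, .o, .o, .o, .o, .o, .i], [.o, .o, .o, .o, .o, .o, .o, .o, .o, .o, .o, .o, .o, .o, .o, .o, .o, .o, .o, .o, .o, .o, .o, .o, .o, .o, .o, .o, .o, .o, .i], [.o, .o, .o, .o, .o, .o, .o, .o, .o, .o, .o, .i]]

theorem ba_la11_012 (h : LExt 6 tV_la11_012.length (vecL 6 tV_la11_012) (vecP 6 tP_la11_012)) :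
    AK (LaK true true (mm 0 1 2)) (LaC true true (mm 0 1 2)) (LaP true true (mm 0 1 2)) :=
  bt_la h (by decide +kernel) tT_la11_012 tB_la11_012 true true (mm 0 1 2) (by decide) (by decide +kernel)

def tV_la11_111 : List (List F4) := [[.i, .o, .o, .o, .o, .o], [.o, .i, .o, .o, .o, .o], [.o, .o, .i, .o, .o, .o], [.o, .o, .o, .i, .o, .o], [.o, .o, .o, .o, .i, .o], [.o, .o, .o, .o, .o, .i], [.i, .o, .i, .o, .i, .o], [.o, .i, .o, .w, .o, .v], [.i, .i, .o, .o, .o, .o], [.o, .o, .i, .i, .o, .o], [.o, .o, .o, .o, .i, .i]]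
def tP_la11_111 : List (List F4) := [[.i, .o, .o, .o, .o, .o], [.o, .i, .o, .o, .o, .o], [.o, .o, .i, .o, .o, .o], [.o, .o, .o, .i, .o, .o], [.o, .o, .o, .o, .i, .o], [.o, .o, .o, .o, .o, .i], [.i, .o, .i, .o, .i, .o], [.o, .i, .o, .w, .o, .v], [.i, .i, .o, .o, .o, .o], [.o, .o, .i, .i, .o, .o], [.o, .o, .o, .o, .i, .i], [.o, .o, .i, .o, .i, .o], [.i, .o, .o, .o, .i, .o], [.i, .o, .i, .o, .o, .o], [.o, .o, .o, .w, .o, .v], [.o, .i, .o, .o, .o, .v], [.o, .i, .o, .w, .o, .o], [.o, .o, .o, .o, .o, .o]]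
def tT_la11_111 : List (List F4) := [[.i, .o, .o, .o, .o, .o], [.o, .o, .o, .o, .o, .o], [.o, .o, .o, .o, .o, .o], [.o, .o, .o, .o, .o, .o], [.o, .o, .o, .o, .o, .o], [.o, .o, .i, .o, .o, .o], [.o, .o, .o, .o, .o, .o], [.o, .o, .o, .o, .o, .o], [.o, .o, .o, .o, .o, .o], [.o, .o, .o, .o, .o, .o], [.o, .o, .o, .o, .i, .o], [.o, .o, .o, .o, .o, .o], [.o, .o, .o, .o, .o, .o], [.o, .o, .o, .o, .o, .o], [.o, .o, .o, .o, .o, .o], [.o, .o, .o, .o, .o, .o], [.o, .o, .o, .o, .o, .o], [.o, .o, .o, .o, .o, .o], [.o, .o, .o, .o, .o, .o], [.o, .o, .o, .o, .o, .o], [.o, .i, .o, .o, .o, .o], [.o, .o, .o, .o, .o, .o], [.o, .o, .o, .o, .o, .o], [.o, .o, .o, .o, .o, .o], [.o, .o, .o, .o, .o, .o], [.o, .o, .o, .i, .o, .o], [.o, .o, .o, .o, .o, .o], [.o, .o, .o, .o, .o, .o], [.o, .o, .o, .o, .o, .o], [.o, .o, .o, .o, .o, .o], [.o, .o, .o, .o, .o, .i]]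
def tB_la11_111 : List (List F4) := [[.i], [.o, .o, .o, .o, .o, .o, .o, .o, .o, .o, .o, .o, .o, .o, .o, .o, .o, .o, .o, .o, .i], [.o, .o, .o, .o, .o, .i], [.o, .o, .o, .o, .o, .o, .o, .o, .o, .o, .o, .o, .o, .o, .o, .o, .o, .o, .o, .o, .o, .o, .o, .o, .o, .i], [.o, .o, .o, .o, .o, .o, .o, .o, .o, .o, .i], [.o, .o, .o, .o, .o, .o, .o, .o, .o, .o, .o, .o, .o, .o, .o, .o, .o, .o, .o, .o, .o, .o, .o, .o, .o, .o, .o, .o, .o, .o, .i]]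

theorem ba_la11_111 (h : LExt 6 tV_la11_111.length (vecL 6 tV_la11_111) (vecP 6 tP_la11_111)) :
    AK (LaK true true (mm 1 1 1)) (LaC true true (mm 1 1 1)) (LaP true true (mm 1 1 1)) :=
  bt_la h (by decide +kernel) tT_la11_111 tB_la11_111 true true (mm 1 1 1) (by decide) (by decide +kernel)

def tV_la10_112 : List (List F4) := [[.i, .o, .o, .o, .o, .o], [.o, .i, .o, .o, .o, .o], [.o, .o, .i, .o, .o, .o], [.o, .o, .o, .i, .o, .o], [.o, .o, .o, .o, .i, .o], [.o, .w, .o, .v, .o, .o], [.i, .o, .i, .o, .i, .o], [.o, .o, .o, .o, .o, .i], [.i, .i, .o, .o, .o, .o], [.o, .o, .i, .i, .o, .o], [.o, .o, .o, .o, .i, .i], [.o, .w, .o, .v, .o, .i]]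
def tP_la10_112 : List (List F4) := [[.i, .o, .o, .o, .o, .o], [.o, .i, .o, .o, .o, .o], [.o, .o, .i, .o, .o, .o], [.o, .o, .o, .i, .o, .o], [.o, .o, .o, .o, .i, .o], [.o, .w, .o, .v, .o, .o], [.i, .o, .i, .o, .i, .o], [.o, .o, .o, .o, .o, .i], [.i, .i, .o, .o, .o, .o], [.o, .o, .i, .i, .o, .o], [.o, .o, .o, .o, .i, .i], [.o, .w, .o, .v, .o, .i], [.o, .o, .i, .o, .i, .o], [.i, .o, .o, .o, .i, .o], [.i, .o, .i, .o, .o, .o], [.o, .o, .o, .o, .o, .o]]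
def tT_la10_112 : List (List F4) := [[.i, .o, .o, .o, .o, .o], [.o, .o, .o, .o, .o, .o], [.o, .o, .o, .o, .o, .o], [.o, .o, .o, .o, .o, .o], [.o, .o, .o, .o, .o, .o], [.o, .o, .i, .o, .o, .o], [.o, .o, .o, .o, .o, .o], [.o, .o, .o, .o, .o, .o], [.o, .o, .o, .o, .o, .o], [.o, .o, .o, .o, .o, .o], [.o, .o, .o, .o, .i, .o], [.o, .o, .o, .o, .o, .i], [.o, .o, .o, .o, .o, .o], [.o, .o, .o, .o, .o, .o], [.o, .o, .o, .o, .o, .o], [.o, .o, .o, .o, .o, .o], [.o, .o, .o, .o, .o, .o], [.o, .o, .o, .o, .o, .o], [.o, .o, .o, .o, .o, .o], [.o, .o, .o, .o, .o, .o], [.o, .i, .o, .o, .o, .o], [.o, .o, .o, .o, .o, .o], [.o, .o, .o, .o, .o, .o], [.o, .o, .o, .o, .o, .o], [.o, .o, .o, .o, .o, .o], [.o, .o, .o, .i, .o, .o], [.o, .o, .o, .o, .o, .o], [.o, .o, .o, .o, .o, .o], [.o, .o, .o, .o, .o, .o], [.o, .o, .o, .o, .o, .o], [.o, .w, .o, .v, .o, .o]]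
def tB_la10_112 : List (List F4) := [[.i], [.o, .o, .o, .o, .o, .o, .o, .o, .o, .o, .o, .o, .o, .o, .o, .o, .o, .o, .o, .o, .i], [.o, .o, .o, .o, .o, .i], [.o, .o, .o, .o, .o, .o, .o, .o, .o, .o, .o, .o, .o, .o, .o, .o, .o, .o, .o, .o, .o, .o, .o, .o, .o, .i], [.o, .o, .o, .o, .o, .o, .o, .o, .o, .o, .i], [.o, .o, .o, .o, .o, .o, .o, .o, .o, .o, .o, .i]]

theorem ba_la10_112 (h : LExt 6 tV_la10_112.length (vecL 6 tV_la10_112) (vecP 6 tP_la10_112)) :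
    AK (LaK true false (mm 1 1 2)) (LaC true false (mm 1 1 2)) (LaP true false (mm 1 1 2)) :=
  bt_la h (by decide +kernel) tT_la10_112 tB_la10_112 true false (mm 1 1 2) (by decide) (by decide +kernel)

def tV_la11_112 : List (List F4) := [[.i, .o, .o, .o, .o, .o, .o], [.o, .i, .o, .o, .o, .o, .o], [.o, .o, .i, .o, .o, .o, .o], [.o, .o, .o, .i, .o, .o, .o], [.o, .o, .o, .o, .i, .o, .o], [.o, .o, .o, .o, .o, .i, .o], [.i, .o, .i, .o, .i, .o, .o], [.o, .i, .o, .w, .o, .v, .o], [.o, .o, .o, .o, .o, .o, .i], [.i, .i, .o, .o, .o, .o, .o], [.o, .o, .i, .i, .o, .o, .o], [.o, .o, .o, .o, .i, .o, .i], [.o, .o, .o, .o, .o, .i, .i]]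
def tP_la11_112 : List (List F4) := [[.i, .o, .o, .o, .o, .o, .o], [.o, .i, .o, .o, .o, .o, .o], [.o, .o, .i, .o, .o, .o, .o], [.o, .o, .o, .i, .o, .o, .o], [.o, .o, .o, .o, .i, .o, .o], [.o, .o, .o, .o, .o, .i, .o], [.i, .o, .i, .o, .i, .o, .o], [.o, .i, .o, .w, .o, .v, .o], [.o, .o, .o, .o, .o, .o, .i], [.i, .i, .o, .o, .o, .o, .o], [.o, .o, .i, .i, .o, .o, .o], [.o, .o, .o, .o, .i, .o, .i], [.o, .o, .o, .o, .o, .i, .i], [.o, .o, .i, .o, .i, .o, .o], [.i, .o, .o, .o, .i, .o, .o], [.i, .o, .i, .o, .o, .o, .o], [.o, .o, .o, .w, .o, .v, .o], [.o, .i, .o, .o, .o, .v, .o], [.o, .i, .o, .w, .o, .o, .o], [.o, .o, .o, .o, .o, .o, .o]]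
def tT_la11_112 : List (List F4) := [[.i, .o, .o, .o, .o, .o, .o], [.o, .o, .o, .o, .o, .o, .o], [.o, .o, .o, .o, .o, .o, .o], [.o, .o, .o, .o, .o, .o, .o], [.o, .o, .o, .o, .o, .o, .o], [.o, .o, .i, .o, .o, .o, .o], [.o, .o, .o, .o, .o, .o, .o], [.o, .o, .o, .o, .o, .o, .o], [.o, .o, .o, .o, .o, .o, .o], [.o, .o, .o, .o, .o, .o, .o], [.o, .o, .o, .o, .i, .o, .o], [.o, .o, .o, .o, .o, .o, .i], [.o, .o, .o, .o, .o, .o, .o], [.o, .o, .o, .o, .o, .o, .o], [.o, .o, .o, .o, .o, .o, .o], [.o, .o, .o, .o, .o, .o, .o], [.o, .o, .o, .o, .o, .o, .o], [.o, .o, .o, .o, .o, .o, .o], [.o, .o, .o, .o, .o, .o, .o], [.o, .o, .o, .o, .o, .o, .o], [.o, .i, .o, .o, .o, .o, .o], [.o, .o, .o, .o, .o, .o, .o], [.o, .o, .o, .o, .o, .o, .o], [.o, .o, .o, .o, .o, .o, .o], [.o, .o, .o, .o, .o, .o, .o], [.o, .o, .o, .i, .o, .o, .o], [.o, .o, .o, .o, .o, .o, .o], [.o, .o, .o,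 .o, .o, .o, .o], [.o, .o, .o, .o, .o, .o, .o], [.o, .o, .o, .o, .o, .o, .o], [.o, .o, .o, .o, .o, .i, .o]]
def tB_la11_112 : List (List F4) := [[.i], [.o, .o, .o, .o, .o, .o, .o, .o, .o, .o, .o, .o, .o, .o, .o, .o, .o, .o, .o, .o, .i], [.o, .o, .o, .o, .o, .i], [.o, .o, .o, .o, .o, .o, .o, .o, .o, .o, .o, .o, .o, .o, .o, .o, .o, .o, .o, .o, .o, .o, .o, .o, .o, .i], [.o, .o, .o, .o, .o, .o, .o, .o, .o, .o, .i], [.o, .o, .o, .o, .o, .o, .o, .o, .o, .o, .o, .o, .o, .o, .o, .o, .o, .o, .o, .o, .o, .o, .o, .o, .o, .o, .o, .o, .o, .o, .i], [.o, .o, .o, .o, .o, .o, .o, .o, .o, .o, .o, .i]]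

theorem ba_la11_112 (h : LExt 7 tV_la11_112.length (vecL 7 tV_la11_112) (vecP 7 tP_la11_112)) :
    AK (LaK true true (mm 1 1 2)) (LaC true true (mm 1 1 2)) (LaP true true (mm 1 1 2)) :=
  bt_la h (by decide +kernel) tT_la11_112 tB_la11_112 true true (mm 1 1 2) (by decide) (by decide +kernel)

end QG
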