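import Pool.Agent.Lib.QG.BT1
import Pool.Agent.Lib.QG.BT2
import Pool.Agent.Lib.QG.BT3
import Pool.Agent.Lib.QG.BT4
import Pool.Agent.Lib.QG.BT5
import Pool.Agent.Lib.QG.BT6
import Pool.Agent.Lib.QG.BT7
import Pool.Agent.Lib.QG.BT8
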