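import Pool.Agent.Lib.QG.FW

/-!
MP_2e6874_co. The statements of the A-theorems for the small members of the families (part (B)).
-/

set_option autoImplicit false

namespace QG
open Set Matroid Submodule

def mm (a b c : ℕ) : ℕ → ℕ := fun i => if i = 0 then a else if i = 1 then b else c
def l4 (a b c d : ℕ) : ℕ → ℕ := fun i => if i = 1 then a else if i = 2 then b else if i = 3 then c else d

/-- the A-theorems for the small members of the families -/
structure BaseA : Prop where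
  -- rank 4, 8 points
  w4 : AK ⊥ (WhC 4) (WhP 4)
  s10_3 : AK ⊥ (ThC true false (m11 3)) (SpP true false 3)
  th10_122 : AK ⊥ (ThC true false (mm 1 2 2)) (ThP true false (mm 1 2 2))
  la10_011 : AK (LaK true false (mm 0 1 1)) (LaC true false (mm 0 1 1)) (LaP true false (mm 0 1 1))
  de00_22 : AK (DeK false {1, 2}) (DeC F4.w false false {1, 2} (l4 2 2 1 1)) (DeP F4.w false false {1, 2} (l4 2 2 1 1))
  de00_211 : AK (DeK false {1, 2, 3}) (DeC F4.w false false {1, 2, 3} (l4 2 1 1 1)) (DeP F4.w false false {1, 2, 3} (l4 2 1 1 1))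
  de00_1111 : AK (DeK false {1, 2, 3, 4}) (DeC F4.w false false {1, 2, 3, 4} (l4 1 1 1 1)) (DeP F4.w false false {1, 2, 3, 4} (l4 1 1 1 1))
  de11_111 : AK (DeK true {1, 2, 3}) (DeC F4.w true true {1, 2, 3} (l4 1 1 1 1)) (DeP F4.w true true {1, 2, 3} (l4 1 1 1 1))
  -- rank 4, 9 points
  s11_3 : AK ⊥ (ThC true true (m11 3)) (SpP true true 3)
  th11_122 : AK ⊥ (ThC true true (mm 1 2 2)) (ThP true true (mm 1 2 2))
  la00_012 : AK (LaK false false (mm 0 1 2)) (LaC false false (mm 0 1 2)) (LaP false false (mm 0 1 2))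
  la00_111 : AK (LaK false false (mm 1 1 1)) (LaC false false (mm 1 1 1)) (LaP false false (mm 1 1 1))
  de10_22 : AK (DeK false {1, 2}) (DeC F4.w true false {1, 2} (l4 2 2 1 1)) (DeP F4.w true false {1, 2} (l4 2 2 1 1))
  de10_211 : AK (DeK false {1, 2, 3}) (DeC F4.w true false {1, 2, 3} (l4 2 1 1 1)) (DeP F4.w true false {1, 2, 3} (l4 2 1 1 1))
  de10_1111 : AK (DeK false {1, 2, 3, 4}) (DeC F4.w true false {1, 2, 3, 4} (l4 1 1 1 1)) (DeP F4.w true false {1, 2, 3, 4} (l4 1 1 1 1))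
  -- rank 5, 9 points
  th00_123 : AK ⊥ (ThC false false (mm 1 2 3)) (ThP false false (mm 1 2 3))
  th00_222 : AK ⊥ (ThC false false (mm 2 2 2)) (ThP false false (mm 2 2 2))
  s00_4 : AK ⊥ (ThC false false (m11 4)) (SpP false false 4)
  la11_011 : AK (LaK true true (mm 0 1 1)) (LaC true true (mm 0 1 1)) (LaP true true (mm 0 1 1))
  de01_22 : AK (DeK true {1, 2}) (DeC F4.w false true {1, 2} (l4 2 2 1 1)) (DeP F4.w false true {1, 2} (l4 2 2 1 1))
  de01_211 : AK (DeK true {1, 2, 3}) (DeC F4.w false true {1, 2, 3} (l4 2 1 1 1)) (DeP F4.w false true {1, 2, 3} (l4 2 1 1 1))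
  de01_1111 : AK (DeK true {1, 2, 3, 4}) (DeC F4.w false true {1, 2, 3, 4} (l4 1 1 1 1)) (DeP F4.w false true {1, 2, 3, 4} (l4 1 1 1 1))
  -- rank 5, 10 points
  w5 : AK ⊥ (WhC 5) (WhP 5)
  th10_222 : AK ⊥ (ThC true false (mm 2 2 2)) (ThP true false (mm 2 2 2))
  s10_4 : AK ⊥ (ThC true false (m11 4)) (SpP true false 4)
  de11_22 : AK (DeK true {1, 2}) (DeC F4.w true true {1, 2} (l4 2 2 1 1)) (DeP F4.w true true {1, 2} (l4 2 2 1 1))
  de00_2111 : AK (DeK false {1, 2, 3, 4}) (DeC F4.w false false {1, 2, 3, 4} (l4 2 1 1 1)) (DeP F4.w false false {1, 2, 3, 4} (l4 2 1 1 1))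
  la10_012 : AK (LaK true false (mm 0 1 2)) (LaC true false (mm 0 1 2)) (LaP true false (mm 0 1 2))
  la10_111 : AK (LaK true false (mm 1 1 1)) (LaC true false (mm 1 1 1)) (LaP true false (mm 1 1 1))
  de11_211 : AK (DeK true {1, 2, 3}) (DeC F4.w true true {1, 2, 3} (l4 2 1 1 1)) (DeP F4.w true true {1, 2, 3} (l4 2 1 1 1))
  de11_1111 : AK (DeK true {1, 2, 3, 4}) (DeC F4.w true true {1, 2, 3, 4} (l4 1 1 1 1)) (DeP F4.w true true {1, 2, 3, 4} (l4 1 1 1 1))
  -- rank 5, 11 points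
  th11_222 : AK ⊥ (ThC true true (mm 2 2 2)) (ThP true true (mm 2 2 2))
  s11_4 : AK ⊥ (ThC true true (m11 4)) (SpP true true 4)
  la00_022 : AK (LaK false false (mm 0 2 2)) (LaC false false (mm 0 2 2)) (LaP false false (mm 0 2 2))
  la00_112 : AK (LaK false false (mm 1 1 2)) (LaC false false (mm 1 1 2)) (LaP false false (mm 1 1 2))
  de10_2111 : AK (DeK false {1, 2, 3, 4}) (DeC F4.w true false {1, 2, 3, 4} (l4 2 1 1 1)) (DeP F4.w true false {1, 2, 3, 4} (l4 2 1 1 1))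
  -- rank 6, 7
  la11_012 : AK (LaK true true (mm 0 1 2)) (LaC true true (mm 0 1 2)) (LaP true true (mm 0 1 2))
  la11_111 : AK (LaK true true (mm 1 1 1)) (LaC true true (mm 1 1 1)) (LaP true true (mm 1 1 1))
  la10_112 : AK (LaK true false (mm 1 1 2)) (LaC true false (mm 1 1 2)) (LaP true false (mm 1 1 2))
  la11_112 : AK (LaK true true (mm 1 1 2)) (LaC true true (mm 1 1 2)) (LaP true true (mm 1 1 2))

end QG
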