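import Pool.Agent.Lib.QG.C1
set_option autoImplicit false

/-! Row C2. Separations of order one and two.
sep_one: for I ⊆ X, J ⊆ Y independent: rk (I ∪ J) = |I| + |J| (submodularity of X ∪ J and I ∪ Y,
(X ∪ J) ∩ (I ∪ Y) = I ∪ J).
sep_two_minor: take an independent B_X ⊆ X of size rk X, extend it by a set C ⊆ Y to a base of M;
|C| = rk Y - 1; C is skew to X. Take y ∈ Y with C + y independent (in Y, size rk Y).
N := (M ／ C) ↾ insert y X; for I ⊆ X: N.Indep I iff I ∪ C independent iff I independent;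
N.Indep (insert y I) iff I ∪ (C + y) independent iff rk (I ∪ Y) = |I| + rk Y.
sep_two: M.Indep (I ∪ J) iff (I is skew to Y and J independent) or (J is skew to X and I independent),
where I skew to Y means rk (I ∪ Y) = |I| + rk Y. (=>): otherwise rk (I ∪ Y) ≤ |I| + rk Y - 1 and
rk (J ∪ X) ≤ |J| + rk X - 1, and submodularity gives rk M + |I| + |J| ≤ |I| + |J| + rk M - 1. -/

namespace QG
open Set Matroid
variable {α : Type} (M : Matroid α) [M.Finite]

private theorem C2_card {I J X Y : Set α} (hE : M.E = X ∪ Y) (hd : Disjoint X Y) (hI : I ⊆ X)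
    (hJ : J ⊆ Y) : (I ∪ J).ncard = I.ncard + J.ncard := by
  have hX : X ⊆ M.E := by rw [hE]; exact subset_union_left
  have hY : Y ⊆ M.E := by rw [hE]; exact subset_union_right
  exact ncard_union_eq (hd.mono hI hJ) (M.ground_finite.subset (hI.trans hX))
    (M.ground_finite.subset (hJ.trans hY))

/-- lower bound for the rank of a union -/
private theorem C2_low {X Y I J : Set α} (hd : Disjoint X Y) (hI : I ⊆ X) (hJ : J ⊆ Y) :
    rk M I + rk M (X ∪ J) ≤ rk M (I ∪ J) + rk M X := by
  have h := rk_submod M (I ∪ J) X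
  have e1 : (I ∪ J) ∩ X = I := by
    ext v
    constructor
    · rintro ⟨h1 | h1, h2⟩
      · exact h1
      · exact absurd (hJ h1) (disjoint_left.1 hd h2)
    · intro h1
      exact ⟨Or.inl h1, hI h1⟩
  have e2 : (I ∪ J) ∪ X = X ∪ J := by
    ext v
    constructor
    · rintro ((h1 | h1) | h1)
      · exact Or.inl (hI h1)
      · exact Or.inr h1
      · exact Or.inl h1
    · rintro (h1 | h1)
      · exact Or.inr h1
      · exact Or.inl (Or.inr h1)
  rwa [e1, e2] at h

private theorem C2_indep {X Y I J : Set α} (hE : M.E = X ∪ Y) (hd : Disjoint X Y) (hI : I ⊆ X)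
    (hJ : J ⊆ Y) (h : I.ncard + J.ncard ≤ rk M (I ∪ J)) : M.Indep (I ∪ J) := by
  have hs : I ∪ J ⊆ M.E := by rw [hE]; exact union_subset_union hI hJ
  rw [indep_iff_rk M hs]
  refine le_antisymm (rk_le_ncard M hs) ?_
  rw [C2_card M hE hd hI hJ]
  exact h

theorem sep_one {X Y : Set α} (hE : M.E = X ∪ Y) (hd : Disjoint X Y)
    (hr : rk M X + rk M Y = rk M M.E) {I J : Set α} (hI : I ⊆ X) (hJ : J ⊆ Y) :
    M.Indep (I ∪ J) ↔ M.Indep I ∧ M.Indep J := by
  constructor
  · intro h
    exact ⟨h.subset subset_union_left, h.subset subset_union_right⟩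
  · rintro ⟨h1, h2⟩
    have a1 := C2_low M hd hI hJ
    have a2 := C2_low M hd.symm hJ (subset_refl X)
    rw [union_comm Y X, ← hE, union_comm J X] at a2
    rw [Indep.rk_eq h1] at a1
    rw [Indep.rk_eq h2] at a2
    exact C2_indep M hE hd hI hJ (by omega)

theorem sep_two_minor {X Y : Set α} (hE : M.E = X ∪ Y) (hd : Disjoint X Y)
    (hr : rk M X + rk M Y = rk M M.E + 1) : ∃ (N : Matroid α) (y : α), N ≤m M ∧ y ∈ Y ∧
      N.E = insert y X ∧ (∀ I, I ⊆ X → (N.Indep I ↔ M.Indep I)) ∧
      (∀ I, I ⊆ X → (N.Indep (insert y I) ↔ M.Indep I ∧ rk M (I ∪ Y) = I.ncard + rk M Y)) := by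
  have hX : X ⊆ M.E := by rw [hE]; exact subset_union_left
  have hY : Y ⊆ M.E := by rw [hE]; exact subset_union_right
  obtain ⟨BX, hBX, hBXi, hBXc⟩ := exists_indep_rk M X
  obtain ⟨B, hB, hBB⟩ := hBXi.exists_isBase_superset
  have hBE := hB.subset_ground
  set C := B ∩ Y with hC
  have hCY : C ⊆ Y := inter_subset_right
  have hCi : M.Indep C := hB.indep.subset inter_subset_left
  have hBXeq : B ∩ X = BX := by
    have h1 : BX ⊆ B ∩ X := subset_inter hBB hBX
    refine (eq_of_subset_of_ncard_le h1 ?_ (M.ground_finite.subset (inter_subset_right.trans hX))).symm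
    have h2 : M.Indep (B ∩ X) := hB.indep.subset inter_subset_left
    rw [← Indep.rk_eq h2, hBXc]
    exact rk_mono M inter_subset_right
  have hBu : B = BX ∪ C := by
    rw [← hBXeq, hC, ← inter_union_distrib_left, ← hE]
    exact (inter_eq_left.2 hBE).symm
  have hBcard : BX.ncard + C.ncard = rk M M.E := by
    rw [← C2_card M hE hd hBX hCY, ← hBu]
    exact ((isBase_iff_rk M hBE).1 hB).2
  -- the extra element
  obtain ⟨IY, hIY, hIYi, hIYc⟩ := exists_indep_rk M Y
  have hCfin : C.Finite := M.ground_finite.subset (hCY.trans hY)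
  have hIYfin : IY.Finite := M.ground_finite.subset (hIY.trans hY)
  have hlt : C.ncard < IY.ncard := by omega
  obtain ⟨y, hy, hyi⟩ : ∃ y ∈ IY \ C, M.Indep (insert y C) := by
    refine hCi.augment hIYi ?_
    rw [← hCfin.cast_ncard_eq, ← hIYfin.cast_ncard_eq]
    exact_mod_cast hlt
  have hyY : y ∈ Y := hIY hy.1
  have hyC : y ∉ C := hy.2
  have hyX : y ∉ X := fun h => disjoint_left.1 hd h hyY
  have hC'Y : insert y C ⊆ Y := insert_subset hyY hCY
  have hC'card : (insert y C).ncard = rk M Y := by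
    rw [ncard_insert_of_notMem hyC hCfin]
    omega
  have hsubC : X ⊆ (M ／ C).E := by
    rw [contract_ground]
    exact subset_sdiff.2 ⟨hX, hd.mono_right hCY⟩
  have hsub : insert y X ⊆ (M ／ C).E := by
    refine insert_subset ?_ hsubC
    rw [contract_ground]
    exact ⟨hY hyY, hyC⟩
  refine ⟨(M ／ C) ↾ insert y X, y, ?_, hyY, rfl, ?_, ?_⟩
  · exact ⟨C, (M ／ C).E \ insert y X, (delete_compl hsub).symm⟩
  · intro I hI
    rw [restrict_indep_iff, hCi.contract_indep_iff]
    constructor
    · rintro ⟨⟨-, h⟩, -⟩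
      exact h.subset subset_union_left
    · intro h
      refine ⟨⟨hd.mono hI hCY, ?_⟩, hI.trans (subset_insert y X)⟩
      have a1 := C2_low M hd hI hCY
      rw [Indep.rk_eq h] at a1
      have a2 : rk M M.E ≤ rk M (X ∪ C) := by
        have h3 : rk M B ≤ rk M (X ∪ C) := rk_mono M (by
          rw [hBu]
          exact union_subset_union_left _ hBX)
        rwa [((isBase_iff_rk M hBE).1 hB).1] at h3
      exact C2_indep M hE hd hI hCY (by omega)
  · intro I hI
    rw [restrict_indep_iff, hCi.contract_indep_iff]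
    have e1 : insert y I ∪ C = I ∪ insert y C := by
      rw [insert_union, union_insert]
    have hrk : rk M (I ∪ insert y C) = rk M (I ∪ Y) := by
      refine le_antisymm (rk_mono M (union_subset_union_right _ hC'Y)) ?_
      have a1 := C2_low M hd.symm hC'Y hI
      rw [Indep.rk_eq hyi, hC'card, union_comm Y I, union_comm (insert y C) I] at a1
      omega
    constructor
    · rintro ⟨⟨-, h⟩, -⟩
      rw [e1] at h
      refine ⟨h.subset subset_union_left, ?_⟩
      rw [← hrk, Indep.rk_eq h, C2_card M hE hd hI hC'Y, hC'card]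
    · rintro ⟨-, h⟩
      refine ⟨⟨?_, ?_⟩, insert_subset_insert hI⟩
      · rw [disjoint_insert_left]
        exact ⟨hyC, hd.mono hI hCY⟩
      · rw [e1]
        refine C2_indep M hE hd hI hC'Y ?_
        rw [hrk, h, hC'card]

theorem sep_two {X Y : Set α} (hE : M.E = X ∪ Y) (hd : Disjoint X Y)
    (hr : rk M X + rk M Y = rk M M.E + 1) {I J : Set α} (hI : I ⊆ X) (hJ : J ⊆ Y) :
    M.Indep (I ∪ J) ↔
      ((M.Indep I ∧ rk M (I ∪ Y) = I.ncard + rk M Y) ∧ M.Indep J) ∨
      (M.Indep I ∧ (M.Indep J ∧ rk M (J ∪ X) = J.ncard + rk M X)) := by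
  have hX : X ⊆ M.E := by rw [hE]; exact subset_union_left
  have hY : Y ⊆ M.E := by rw [hE]; exact subset_union_right
  constructor
  · intro h
    have hi := h.subset (subset_union_left (s := I) (t := J))
    have hj := h.subset (subset_union_right (s := I) (t := J))
    by_contra hcon
    have h1 : rk M (I ∪ Y) ≠ I.ncard + rk M Y := fun h' => hcon (Or.inl ⟨⟨hi, h'⟩, hj⟩)
    have h2 : rk M (J ∪ X) ≠ J.ncard + rk M X := fun h' => hcon (Or.inr ⟨hi, hj, h'⟩)
    have h3 := rk_union_le M I Y
    have h4 := rk_union_le M J X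
    have h5 := rk_submod M (I ∪ Y) (J ∪ X)
    rw [Indep.rk_eq hi] at h3
    rw [Indep.rk_eq hj] at h4
    have e1 : (I ∪ Y) ∩ (J ∪ X) = I ∪ J := by
      ext v
      constructor
      · rintro ⟨g1 | g1, g2 | g2⟩
        · exact Or.inl g1
        · exact Or.inl g1
        · exact Or.inr g2
        · exact absurd g1 (disjoint_left.1 hd g2)
      · rintro (g1 | g1)
        · exact ⟨Or.inl g1, Or.inr (hI g1)⟩
        · exact ⟨Or.inr (hJ g1), Or.inl g1⟩
    have e2 : (I ∪ Y) ∪ (J ∪ X) = M.E := by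
      rw [hE]
      ext v
      constructor
      · rintro ((g | g) | (g | g))
        · exact Or.inl (hI g)
        · exact Or.inr g
        · exact Or.inr (hJ g)
        · exact Or.inl g
      · rintro (g | g)
        · exact Or.inr (Or.inr g)
        · exact Or.inl (Or.inr g)
    rw [e1, e2, Indep.rk_eq h, C2_card M hE hd hI hJ] at h5
    omega
  · rintro (⟨⟨-, h2⟩, h3⟩ | ⟨h1, -, h3⟩)
    · have a1 := C2_low M hd.symm hJ hI
      rw [Indep.rk_eq h3, union_comm Y I, h2, union_comm J I] at a1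
      exact C2_indep M hE hd hI hJ (by omega)
    · have a1 := C2_low M hd hI hJ
      rw [Indep.rk_eq h1, union_comm X J, h3] at a1
      exact C2_indep M hE hd hI hJ (by omega)

end QG
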