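import Pool.Agent.Lib.QG.C1
set_option autoImplicit false

/-! Row D0. Matroids given by lists. Elementary. `EL e n r L M` is the body of IsL. For isL_dual:
M✶.IsBase (e '' B) iff M.IsBase (e '' Bᶜ). -/

namespace QG
open Set Matroid
variable {α β : Type}

/-- the body of IsL -/
def EL {n : ℕ} (e : Fin n → α) (r : ℕ) (L : Finset (Finset (Fin n))) (M : Matroid α) : Prop :=
  Function.Injective e ∧ range e = M.E ∧
    ∀ B : Finset (Fin n), M.IsBase (e '' (B : Set (Fin n))) ↔ B.card = r ∧ B ∉ L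

private theorem EL.exists_finset {n r : ℕ} {e : Fin n → α} {L : Finset (Finset (Fin n))}
    {M : Matroid α} (h : EL e r L M) {X : Set α} (hX : X ⊆ M.E) :
    ∃ Y : Finset (Fin n), e '' (Y : Set (Fin n)) = X := by
  classical
  refine ⟨(Set.toFinite (e ⁻¹' X)).toFinset, ?_⟩
  rw [Set.Finite.coe_toFinset, Set.image_preimage_eq_inter_range, h.2.1]
  exact Set.inter_eq_left.2 hX

theorem EL.finite {n r : ℕ} {e : Fin n → α} {L : Finset (Finset (Fin n))} {M : Matroid α}
    (h : EL e r L M) : M.Finite := by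
  refine ⟨?_⟩
  rw [← h.2.1]
  exact Set.finite_range e

theorem EL.ncard {n r : ℕ} {e : Fin n → α} {L : Finset (Finset (Fin n))} {M : Matroid α}
    (h : EL e r L M) : M.E.ncard = n := by
  rw [← h.2.1, ← Set.image_univ, Set.ncard_image_of_injective _ h.1, Set.ncard_univ, Nat.card_fin]

theorem EL.exists_base {n r : ℕ} {e : Fin n → α} {L : Finset (Finset (Fin n))} {M : Matroid α}
    (h : EL e r L M) : ∃ B : Finset (Fin n), B.card = r ∧ B ∉ L := by
  obtain ⟨B, hB⟩ := M.exists_isBase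
  obtain ⟨Y, hY⟩ := h.exists_finset hB.subset_ground
  rw [← hY, h.2.2] at hB
  exact ⟨Y, hB⟩

private theorem EL.image_subset {n r : ℕ} {e : Fin n → α} {L : Finset (Finset (Fin n))}
    {M : Matroid α} (h : EL e r L M) (X Y : Finset (Fin n)) :
    e '' (X : Set (Fin n)) ⊆ e '' (Y : Set (Fin n)) ↔ X ⊆ Y := by
  rw [Set.image_subset_image_iff h.1, Finset.coe_subset]

private theorem EL.ncard_image {n r : ℕ} {e : Fin n → α} {L : Finset (Finset (Fin n))}
    {M : Matroid α} (h : EL e r L M) (X : Finset (Fin n)) :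
    (e '' (X : Set (Fin n))).ncard = X.card := by
  rw [Set.ncard_image_of_injective _ h.1, Set.ncard_coe_finset]

private theorem EL.image_ground {n r : ℕ} {e : Fin n → α} {L : Finset (Finset (Fin n))}
    {M : Matroid α} (h : EL e r L M) (X : Finset (Fin n)) :
    e '' (X : Set (Fin n)) ⊆ M.E := by
  rw [← h.2.1]
  exact Set.image_subset_range _ _

theorem EL.indep {n r : ℕ} {e : Fin n → α} {L : Finset (Finset (Fin n))} {M : Matroid α}
    (h : EL e r L M) (X : Finset (Fin n)) :
    M.Indep (e '' (X : Set (Fin n))) ↔ ∃ B : Finset (Fin n), X ⊆ B ∧ B.card = r ∧ B ∉ L := by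
  rw [Matroid.indep_iff]
  constructor
  · rintro ⟨B, hB, hXB⟩
    obtain ⟨Y, hY⟩ := h.exists_finset hB.subset_ground
    rw [← hY, h.2.2] at hB
    rw [← hY, h.image_subset] at hXB
    exact ⟨Y, hXB, hB⟩
  · rintro ⟨B, hXB, hB⟩
    exact ⟨e '' (B : Set (Fin n)), (h.2.2 B).2 hB, (h.image_subset X B).2 hXB⟩

theorem EL.rk_ground {n r : ℕ} {e : Fin n → α} {L : Finset (Finset (Fin n))} {M : Matroid α}
    (h : EL e r L M) : rk M M.E = r := by
  have := h.finite
  obtain ⟨B, hB⟩ := h.exists_base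
  have h1 := (h.2.2 B).2 hB
  have h2 := ((isBase_iff_rk M h1.subset_ground).1 h1).2
  rw [← h2, h.ncard_image, hB.1]

theorem EL.rk {n r : ℕ} {e : Fin n → α} {L : Finset (Finset (Fin n))} {M : Matroid α}
    (h : EL e r L M) (X : Finset (Fin n)) : rk M (e '' (X : Set (Fin n))) =
      (((Finset.univ : Finset (Fin n)).powersetCard r).filter (fun B => B ∉ L)).sup
        (fun B => (X ∩ B).card) := by
  have := h.finite
  apply le_antisymm
  · obtain ⟨I, hIX, hI, hIr⟩ := exists_indep_rk M (e '' (X : Set (Fin n)))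
    obtain ⟨Y, rfl⟩ := h.exists_finset hI.subset_ground
    rw [← hIr, h.ncard_image]
    rw [h.image_subset] at hIX
    obtain ⟨B, hYB, hB⟩ := (h.indep Y).1 hI
    have h1 : Y.card ≤ (X ∩ B).card := Finset.card_le_card (Finset.subset_inter hIX hYB)
    refine h1.trans ?_
    refine Finset.le_sup (f := fun B => (X ∩ B).card) ?_
    rw [Finset.mem_filter, Finset.mem_powersetCard]
    exact ⟨⟨Finset.subset_univ _, hB.1⟩, hB.2⟩
  · refine Finset.sup_le fun B hB => ?_
    rw [Finset.mem_filter, Finset.mem_powersetCard] at hB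
    have h1 : M.Indep (e '' ((X ∩ B : Finset (Fin n)) : Set (Fin n))) :=
      (h.indep _).2 ⟨B, Finset.inter_subset_right, hB.1.2, hB.2⟩
    have h2 := Indep.rk_eq h1
    rw [h.ncard_image] at h2
    rw [← h2]
    exact rk_mono M ((h.image_subset _ _).2 Finset.inter_subset_left)

theorem EL.dual {n r : ℕ} {e : Fin n → α} {L : Finset (Finset (Fin n))} {M : Matroid α}
    (h : EL e r L M) : EL e (n - r) (L.image (fun B => Bᶜ)) M✶ := by
  refine ⟨h.1, h.2.1, fun B => ?_⟩
  rw [Matroid.dual_isBase_iff (h.image_ground B)]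
  have h1 : M.E \ e '' (B : Set (Fin n)) = e '' ((Bᶜ : Finset (Fin n)) : Set (Fin n)) := by
    rw [← h.2.1, Finset.coe_compl, Set.image_compl_eq_range_sdiff_image h.1]
  rw [h1, h.2.2]
  obtain ⟨B0, hB0⟩ := h.exists_base
  have h2 : r ≤ n := by
    rw [← hB0.1]
    exact (Finset.card_le_univ B0).trans_eq (Fintype.card_fin n)
  have h3 : B.card ≤ n := (Finset.card_le_univ B).trans_eq (Fintype.card_fin n)
  rw [Finset.card_compl, Fintype.card_fin]
  have h4 : B ∈ L.image (fun B => Bᶜ) ↔ Bᶜ ∈ L := by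
    rw [Finset.mem_image]
    constructor
    · rintro ⟨C, hC, rfl⟩
      rwa [compl_compl]
    · intro hB
      exact ⟨Bᶜ, hB, compl_compl B⟩
  rw [h4]
  constructor
  · rintro ⟨h5, h6⟩
    exact ⟨by omega, h6⟩
  · rintro ⟨h5, h6⟩
    exact ⟨by omega, h6⟩

theorem EL.perm {n r : ℕ} {e : Fin n → α} {L : Finset (Finset (Fin n))} {M : Matroid α}
    (h : EL e r L M) (σ : Equiv.Perm (Fin n)) :
    EL (fun i => e (σ i)) r (L.image (fun B => B.map σ.symm.toEmbedding)) M := by
  refine ⟨h.1.comp σ.injective, ?_, fun B => ?_⟩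
  · rw [← h.2.1]
    exact σ.surjective.range_comp e
  · have h1 : (fun i => e (σ i)) '' (B : Set (Fin n)) =
        e '' ((B.map σ.toEmbedding : Finset (Fin n)) : Set (Fin n)) := by
      rw [Finset.coe_map, Equiv.coe_toEmbedding, Set.image_image]
    rw [h1, h.2.2, Finset.card_map]
    have h4 : B ∈ L.image (fun B => B.map σ.symm.toEmbedding) ↔ B.map σ.toEmbedding ∈ L := by
      rw [Finset.mem_image]
      constructor
      · rintro ⟨C, hC, rfl⟩
        have : (C.map σ.symm.toEmbedding).map σ.toEmbedding = C := by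
          rw [Finset.map_map]
          ext x
          simp
        rwa [this]
      · intro hB
        refine ⟨_, hB, ?_⟩
        rw [Finset.map_map]
        ext x
        simp
    rw [h4]

private theorem MIso_isBase_aux {M : Matroid α} {N : Matroid β} (e : M.E ≃ N.E)
    (h : ∀ I : Set M.E, M.Indep (Subtype.val '' I) ↔ N.Indep (Subtype.val '' (e '' I)))
    {I : Set M.E} (hI : M.IsBase (Subtype.val '' I)) : N.IsBase (Subtype.val '' (e '' I)) := by
  rw [Matroid.isBase_iff_maximal_indep] at hI ⊢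
  refine ⟨(h I).1 hI.prop, fun J hJ hIJ => ?_⟩
  set K : Set M.E := e ⁻¹' (Subtype.val ⁻¹' J) with hK
  have hKJ : Subtype.val '' (e '' K) = J := by
    rw [hK, e.image_preimage, Set.image_preimage_eq_inter_range, Subtype.range_coe]
    exact Set.inter_eq_left.2 hJ.subset_ground
  rw [← hKJ, ← h K] at hJ
  have h1 : Subtype.val '' I ⊆ Subtype.val '' K := by
    refine Set.image_mono ?_
    rw [← hKJ, Set.image_subset_image_iff Subtype.val_injective,
      Set.image_subset_image_iff e.injective] at hIJ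
    exact hIJ
  have h2 := hI.le_of_ge hJ h1
  rw [← hKJ]
  refine Set.image_mono (Set.image_mono ?_)
  exact (Set.image_subset_image_iff Subtype.val_injective).1 h2

private theorem MIso_isBase {M : Matroid α} {N : Matroid β} (e : M.E ≃ N.E)
    (h : ∀ I : Set M.E, M.Indep (Subtype.val '' I) ↔ N.Indep (Subtype.val '' (e '' I)))
    (I : Set M.E) : M.IsBase (Subtype.val '' I) ↔ N.IsBase (Subtype.val '' (e '' I)) := by
  refine ⟨MIso_isBase_aux e h, fun hI => ?_⟩
  have h1 : ∀ J : Set N.E, N.Indep (Subtype.val '' J) ↔ M.Indep (Subtype.val '' (e.symm '' J)) := by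
    intro J
    rw [h, Equiv.image_symm_eq_preimage, e.image_preimage]
  have h2 := MIso_isBase_aux e.symm h1 hI
  rwa [Equiv.image_symm_eq_preimage, e.preimage_image] at h2

theorem IsL.iso {n r : ℕ} {L : Finset (Finset (Fin n))} {M : Matroid α} {N : Matroid β}
    (h : IsL n r L M) (hi : MIso M N) : IsL n r L N := by
  obtain ⟨e, he, hr, hB⟩ := h
  obtain ⟨g, hg⟩ := hi
  have hm : ∀ i, e i ∈ M.E := fun i => by rw [← hr]; exact ⟨i, rfl⟩
  refine ⟨fun i => (g ⟨e i, hm i⟩ : β), ?_, ?_, fun B => ?_⟩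
  · intro i j hij
    have h1 := g.injective (Subtype.val_injective hij)
    exact he (congrArg Subtype.val h1)
  · ext y
    constructor
    · rintro ⟨i, rfl⟩
      exact (g ⟨e i, hm i⟩).2
    · intro hy
      have h1 : ((g.symm ⟨y, hy⟩ : M.E) : α) ∈ range e := by
        rw [hr]
        exact (g.symm ⟨y, hy⟩).2
      obtain ⟨i, hi⟩ := h1
      refine ⟨i, ?_⟩
      have h2 : (⟨e i, hm i⟩ : M.E) = g.symm ⟨y, hy⟩ := Subtype.ext hi
      change ((g ⟨e i, hm i⟩ : N.E) : β) = y
      rw [h2, Equiv.apply_symm_apply]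
  · rw [← hB B]
    have h1 : (fun i => ((g ⟨e i, hm i⟩ : N.E) : β)) '' (B : Set (Fin n)) =
        Subtype.val '' (g '' ((fun i => (⟨e i, hm i⟩ : M.E)) '' (B : Set (Fin n)))) := by
      rw [Set.image_image, Set.image_image]
    have h2 : e '' (B : Set (Fin n)) =
        Subtype.val '' ((fun i => (⟨e i, hm i⟩ : M.E)) '' (B : Set (Fin n))) := by
      rw [Set.image_image]
    rw [h1, h2, ← MIso_isBase g hg]

theorem IsL.miso {n r : ℕ} {L : Finset (Finset (Fin n))} {M : Matroid α} {N : Matroid β}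
    (h : IsL n r L M) (h' : IsL n r L N) : MIso M N := by
  classical
  obtain ⟨e, h⟩ := h
  obtain ⟨e', h'⟩ := h'
  have h : EL e r L M := h
  have h' : EL e' r L N := h'
  let g : M.E ≃ N.E := (Equiv.setCongr h.2.1.symm).trans
    ((Equiv.ofInjective e h.1).symm.trans ((Equiv.ofInjective e' h'.1).trans
      (Equiv.setCongr h'.2.1)))
  have hg : ∀ (i : Fin n) (hi : e i ∈ M.E), ((g ⟨e i, hi⟩ : N.E) : β) = e' i := by
    intro i hi
    have h1 : (Equiv.ofInjective e h.1).symm ⟨e i, ⟨i, rfl⟩⟩ = i := by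
      rw [Equiv.symm_apply_eq]
      rfl
    change e' ((Equiv.ofInjective e h.1).symm ⟨e i, _⟩) = e' i
    rw [h1]
  refine ⟨g, fun I => ?_⟩
  obtain ⟨Y, hY⟩ := h.exists_finset (X := Subtype.val '' I) (by rintro _ ⟨x, _, rfl⟩; exact x.2)
  have h2 : Subtype.val '' (g '' I) = e' '' (Y : Set (Fin n)) := by
    ext y
    constructor
    · rintro ⟨_, ⟨x, hx, rfl⟩, rfl⟩
      have h3 : (x : α) ∈ e '' (Y : Set (Fin n)) := by rw [hY]; exact ⟨x, hx, rfl⟩
      obtain ⟨i, hi, hix⟩ := h3
      refine ⟨i, hi, ?_⟩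
      have h4 : x = ⟨e i, by rw [hix]; exact x.2⟩ := Subtype.ext hix.symm
      rw [h4, hg]
    · rintro ⟨i, hi, rfl⟩
      have h3 : e i ∈ Subtype.val '' I := by rw [← hY]; exact ⟨i, hi, rfl⟩
      obtain ⟨x, hx, hxi⟩ := h3
      refine ⟨g x, ⟨x, hx, rfl⟩, ?_⟩
      have h4 : x = ⟨e i, by rw [← hxi]; exact x.2⟩ := Subtype.ext hxi
      rw [h4, hg]
  rw [h2, ← hY, h.indep, h'.indep]

theorem MIso.dual {M : Matroid α} {N : Matroid β} (h : MIso M N) : MIso M✶ N✶ := by
  obtain ⟨g, hg⟩ := h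
  have key : ∀ {α' β' : Type} {M' : Matroid α'} {N' : Matroid β'} (g : M'.E ≃ N'.E)
      (_ : ∀ I : Set M'.E, M'.Indep (Subtype.val '' I) ↔ N'.Indep (Subtype.val '' (g '' I)))
      (I : Set M'.E), M'✶.Indep (Subtype.val '' I) → N'✶.Indep (Subtype.val '' (g '' I)) := by
    intro α' β' M' N' g hg I hI
    rw [Matroid.dual_indep_iff_exists'] at hI ⊢
    obtain ⟨_, B, hB, hd⟩ := hI
    refine ⟨by rintro _ ⟨x, _, rfl⟩; exact x.2, ?_⟩
    have h1 : Subtype.val '' (Subtype.val ⁻¹' B : Set M'.E) = B := by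
      rw [Set.image_preimage_eq_inter_range, Subtype.range_coe]
      exact Set.inter_eq_left.2 hB.subset_ground
    refine ⟨Subtype.val '' (g '' (Subtype.val ⁻¹' B : Set M'.E)), ?_, ?_⟩
    · rw [← MIso_isBase g hg, h1]
      exact hB
    · rw [Set.disjoint_image_iff Subtype.val_injective, Set.disjoint_image_iff g.injective]
      rw [← h1, Set.disjoint_image_iff Subtype.val_injective] at hd
      exact hd
  refine ⟨g, fun I => ⟨key g hg I, fun hI => ?_⟩⟩
  have h1 : ∀ J : Set N.E, N.Indep (Subtype.val '' J) ↔ M.Indep (Subtype.val '' (g.symm '' J)) := by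
    intro J
    rw [hg, Equiv.image_symm_eq_preimage, g.image_preimage]
  have h2 := key g.symm h1 (g '' I) hI
  rwa [Equiv.image_symm_eq_preimage, g.preimage_image] at h2

end QG
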