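import Pool.Agent.Lib.QG.D0
set_option autoImplicit false

/-! Row D1. Strict minors lie below a one-element deletion or contraction; one-element deletions and
contractions of matroids given by lists (relabelling by Fin.succAbove i). In EL.del there is a base
avoiding e i, so the bases of M ＼ {e i} are the bases of M avoiding e i; in EL.con there is a base
containing e i, so e i is not a loop and B is a base of M ／ {e i} iff B + e i is a base of M. -/

namespace QG
open Set Matroid
variable {α : Type}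

theorem exists_single {M N : Matroid α} [M.Finite] (h : N <m M) :
    ∃ x ∈ M.E, N ≤m M ＼ {x} ∨ N ≤m M ／ {x} := by
  obtain ⟨C, D, hC, hD, hCD, rfl⟩ := h.isMinor.exists_eq_contract_delete_disjoint
  by_cases hC0 : C.Nonempty
  · obtain ⟨x, hx⟩ := hC0
    refine ⟨x, hC hx, Or.inr ?_⟩
    have h1 : M ／ C = M ／ {x} ／ C := by
      rw [contract_contract, union_eq_self_of_subset_left (singleton_subset_iff.2 hx)]
    rw [h1]
    exact contract_delete_isMinor _ C D
  · by_cases hD0 : D.Nonempty
    · obtain ⟨x, hx⟩ := hD0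
      refine ⟨x, hD hx, Or.inl ?_⟩
      have h1 : M ／ C ＼ D = M ＼ {x} ／ C ＼ D := by
        rw [contract_delete_comm _ hCD, contract_delete_comm _ hCD, delete_delete,
          union_eq_self_of_subset_left (singleton_subset_iff.2 hx)]
      rw [h1]
      exact contract_delete_isMinor _ C D
    · exfalso
      rw [not_nonempty_iff_eq_empty] at hC0 hD0
      subst hC0 hD0
      apply h.ne
      rw [contract_empty, delete_empty]

private lemma D1_image {n : ℕ} (e : Fin (n + 1) → α) (i : Fin (n + 1)) (B : Finset (Fin n)) :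
    (fun k => e (i.succAbove k)) '' (B : Set (Fin n)) =
      e '' ((B.map (Fin.succAboveEmb i) : Finset (Fin (n + 1))) : Set (Fin (n + 1))) := by
  rw [Finset.coe_map, image_image]
  rfl

private lemma D1_notMem {n : ℕ} (i : Fin (n + 1)) (B : Finset (Fin n)) :
    i ∉ B.map (Fin.succAboveEmb i) := by
  intro h
  obtain ⟨k, _, hk⟩ := Finset.mem_map.1 h
  exact Fin.succAbove_ne i k hk

private lemma D1_range {n : ℕ} {e : Fin (n + 1) → α} (he : Function.Injective e)
    (i : Fin (n + 1)) : range (fun k => e (i.succAbove k)) = range e \ {e i} := by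
  ext x
  constructor
  · rintro ⟨k, rfl⟩
    exact ⟨⟨_, rfl⟩, fun h => Fin.succAbove_ne i k (he h)⟩
  · rintro ⟨⟨j, rfl⟩, hj⟩
    have hji : j ≠ i := fun h => hj (by rw [h]; rfl)
    obtain ⟨k, hk⟩ := Fin.exists_succAbove_eq hji
    exact ⟨k, by show e (i.succAbove k) = e j; rw [hk]⟩

private lemma D1_disj {n : ℕ} {e : Fin (n + 1) → α} (he : Function.Injective e)
    (i : Fin (n + 1)) (B : Finset (Fin n)) :
    Disjoint (e '' ((B.map (Fin.succAboveEmb i) : Finset (Fin (n + 1))) : Set (Fin (n + 1))))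
      {e i} := by
  rw [disjoint_singleton_right]
  rintro ⟨j, hj, hji⟩
  have h1 : j = i := he hji
  subst h1
  exact D1_notMem _ B (Finset.mem_coe.1 hj)

theorem EL.del {n r : ℕ} {e : Fin (n + 1) → α} {L : Finset (Finset (Fin (n + 1)))}
    {M : Matroid α} (h : EL e r L M) (i : Fin (n + 1)) (L' : Finset (Finset (Fin n)))
    (hex : ∃ B : Finset (Fin n), B.card = r ∧ B ∉ L')
    (hL : ∀ B : Finset (Fin n), B.card = r → (B ∈ L' ↔ B.map (Fin.succAboveEmb i) ∈ L)) :
    EL (fun k => e (i.succAbove k)) r L' (M ＼ {e i}) := by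
  obtain ⟨he, hr, hb⟩ := h
  refine ⟨he.comp Fin.succAbove_right_injective, ?_, ?_⟩
  · rw [D1_range he, hr, delete_ground]
  · obtain ⟨B₀, hB₀, hB₀'⟩ := hex
    have hco : M.Coindep {e i} := by
      refine coindep_iff_exists'.2 ⟨⟨e '' ((B₀.map (Fin.succAboveEmb i) :
        Finset (Fin (n + 1))) : Set (Fin (n + 1))), ?_, ?_⟩, ?_⟩
      · rw [hb, Finset.card_map]
        exact ⟨hB₀, fun h' => hB₀' ((hL B₀ hB₀).2 h')⟩
      · rw [subset_sdiff]
        refine ⟨?_, D1_disj he i B₀⟩
        rw [← hr]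
        exact image_subset_range _ _
      · rw [singleton_subset_iff, ← hr]
        exact ⟨i, rfl⟩
    intro B
    rw [hco.delete_isBase_iff, D1_image, hb, Finset.card_map]
    constructor
    · rintro ⟨⟨h1, h2⟩, _⟩
      exact ⟨h1, fun h' => h2 ((hL B h1).1 h')⟩
    · rintro ⟨h1, h2⟩
      exact ⟨⟨h1, fun h' => h2 ((hL B h1).2 h')⟩, D1_disj he i B⟩

theorem EL.con {n r : ℕ} {e : Fin (n + 1) → α} {L : Finset (Finset (Fin (n + 1)))}
    {M : Matroid α} (h : EL e (r + 1) L M) (i : Fin (n + 1)) (L' : Finset (Finset (Fin n)))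
    (hex : ∃ B : Finset (Fin n), B.card = r ∧ B ∉ L')
    (hL : ∀ B : Finset (Fin n), B.card = r → (B ∈ L' ↔ insert i (B.map (Fin.succAboveEmb i)) ∈ L)) :
    EL (fun k => e (i.succAbove k)) r L' (M ／ {e i}) := by
  obtain ⟨he, hr, hb⟩ := h
  have hcard : ∀ B : Finset (Fin n), (insert i (B.map (Fin.succAboveEmb i))).card = B.card + 1 :=
    fun B => by rw [Finset.card_insert_of_notMem (D1_notMem i B), Finset.card_map]
  have himg : ∀ B : Finset (Fin n),
      e '' ((B.map (Fin.succAboveEmb i) : Finset (Fin (n + 1))) : Set (Fin (n + 1))) ∪ {e i} =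
        e '' ((insert i (B.map (Fin.succAboveEmb i)) : Finset (Fin (n + 1))) :
          Set (Fin (n + 1))) := by
    intro B
    rw [Finset.coe_insert, image_insert_eq, union_singleton]
  refine ⟨he.comp Fin.succAbove_right_injective, ?_, ?_⟩
  · rw [D1_range he, hr, contract_ground]
  · obtain ⟨B₀, hB₀, hB₀'⟩ := hex
    have hin : M.Indep {e i} := by
      have h1 : M.IsBase (e '' ((insert i (B₀.map (Fin.succAboveEmb i)) :
          Finset (Fin (n + 1))) : Set (Fin (n + 1)))) := by
        rw [hb, hcard, hB₀]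
        exact ⟨rfl, fun h' => hB₀' ((hL B₀ hB₀).2 h')⟩
      refine h1.indep.subset ?_
      rw [← himg B₀]
      exact subset_union_right
    intro B
    rw [hin.contract_isBase_iff, D1_image, himg, hb, hcard]
    constructor
    · rintro ⟨⟨h1, h2⟩, _⟩
      have h3 : B.card = r := by omega
      exact ⟨h3, fun h' => h2 ((hL B h3).1 h')⟩
    · rintro ⟨h1, h2⟩
      exact ⟨⟨by omega, fun h' => h2 ((hL B h1).2 h')⟩, D1_disj he i B⟩

end QG
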