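import Mathlib

/-!
MP_2e6874_co, excluded minors of the quaternary gammoids. Definitions.
All ground types are `Type`. Matroids are Mathlib matroids; `≤m`, `<m`, `＼`, `／`, `✶`, `↾` are the
Mathlib notations (open Matroid).
-/

set_option autoImplicit false

namespace QG
open Set Matroid

/-- `X` is linked into `B` in the directed graph with arc relation `A`: there are pairwise vertex
disjoint directed paths, one from each vertex of `X`, each ending at a vertex of `B`. A path is given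
by the list of its vertices (paths with one vertex are allowed). -/
def Linked {V : Type} (A : V → V → Prop) (B X : Set V) : Prop :=
  ∃ p : V → List V,
    (∀ x ∈ X, (p x).Nodup ∧ (p x).IsChain A ∧ (p x).head? = some x ∧
      ∃ b ∈ B, (p x).getLast? = some b) ∧
    (∀ x ∈ X, ∀ y ∈ X, x ≠ y → ∀ v, v ∈ p x → v ∉ p y)

/-- `M` is a gammoid: it is (isomorphic to) the restriction of a strict gammoid. -/
def Gammoid {α : Type} (M : Matroid α) : Prop :=
  ∃ (V : Type) (A : V → V → Prop) (B : Set V) (f : α → V),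
    Finite V ∧ InjOn f M.E ∧ ∀ I, I ⊆ M.E → (M.Indep I ↔ Linked A B (f '' I))

/-- `M` is representable over the field `F` -/
def Rep (F : Type) [Field F] {α : Type} (M : Matroid α) : Prop :=
  ∃ (W : Type) (_ : AddCommGroup W) (_ : Module F W) (φ : α → W),
    ∀ I, I ⊆ M.E → (M.Indep I ↔ LinearIndepOn F φ I)

/-- `M` is representable over a field with four elements -/
def Quaternary {α : Type} (M : Matroid α) : Prop :=
  ∃ (F : Type) (_ : Field F), Nat.card F = 4 ∧ Rep F M

/-- quaternary gammoids -/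
def QGam {α : Type} (M : Matroid α) : Prop := M.Finite ∧ Gammoid M ∧ Quaternary M

/-- excluded minors for the class of quaternary gammoids -/
def ExMin {α : Type} (M : Matroid α) : Prop :=
  M.Finite ∧ ¬ QGam M ∧ ∀ N : Matroid α, N <m M → QGam N

/-- isomorphism -/
def MIso {α β : Type} (M : Matroid α) (N : Matroid β) : Prop :=
  ∃ e : M.E ≃ N.E, ∀ I : Set M.E,
    M.Indep (Subtype.val '' I) ↔ N.Indep (Subtype.val '' (e '' I))

/-- `M` has `n` elements, named `e 0, ..., e (n-1)`; its bases are the sets of `r` elements which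
are not in the list `L` -/
def IsL (n r : ℕ) (L : Finset (Finset (Fin n))) {α : Type} (M : Matroid α) : Prop :=
  ∃ e : Fin n → α, Function.Injective e ∧ range e = M.E ∧
    ∀ B : Finset (Fin n), M.IsBase (e '' (B : Set (Fin n))) ↔ B.card = r ∧ B ∉ L

/-- six points, one three point line -/
def LP6 : Finset (Finset (Fin 6)) := {{0,1,2}}
/-- P8 with both circuit-hyperplanes relaxed -/
def LP8 : Finset (Finset (Fin 8)) :=
  {{0,1,2,7}, {0,1,3,6}, {0,2,3,5}, {0,4,5,6}, {1,2,3,4}, {1,4,5,7}, {2,4,6,7}, {3,5,6,7}}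
/-- the cycle matroid of the complete graph with four vertices -/
def LK4 : Finset (Finset (Fin 6)) := {{0,1,2}, {0,3,4}, {1,3,5}, {2,4,5}}
/-- the affine plane of order three without two points -/
def LA7 : Finset (Finset (Fin 7)) := {{0,1,2}, {0,3,5}, {0,4,6}, {1,4,5}, {2,3,6}}
def LE8a : Finset (Finset (Fin 8)) :=
  {{0,1,2}, {0,1,3}, {0,2,3}, {1,2,3}, {0,4,5}, {1,5,6}, {2,4,7}, {3,6,7}}
def LE8b : Finset (Finset (Fin 8)) := {{0,1,2}, {0,3,4}, {0,5,6}, {4,6,7}, {1,3,7}, {2,5,7}}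
def LX8 : Finset (Finset (Fin 8)) :=
  {{0,1,2,5}, {0,1,3,6}, {0,1,3,7}, {0,1,6,7}, {0,2,3,5}, {0,2,4,5}, {0,2,5,6}, {0,2,5,7},
   {0,2,6,7}, {0,3,6,7}, {0,4,6,7}, {0,5,6,7}, {1,2,4,6}, {1,3,6,7}, {2,5,6,7}, {3,4,5,7}}

/-- the twelve matroids -/
def Bad {α : Type} (M : Matroid α) : Prop :=
  IsL 6 2 ∅ M ∨ IsL 6 4 ∅ M ∨ IsL 6 3 LP6 M ∨ IsL 8 4 LP8 M ∨ IsL 6 3 LK4 M ∨
  IsL 7 3 LA7 M ∨ IsL 7 3 LA7 M✶ ∨ IsL 8 3 LE8a M ∨ IsL 8 3 LE8a M✶ ∨
  IsL 8 3 LE8b M ∨ IsL 8 3 LE8b M✶ ∨ IsL 8 4 LX8 M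

/-- no minor among the twelve -/
def Good {α : Type} (M : Matroid α) : Prop := ∀ N : Matroid α, N ≤m M → ¬ Bad N

/-- rank function with values in ℕ -/
noncomputable def rk {α : Type} (M : Matroid α) (X : Set α) : ℕ := (M.eRk X).toNat

/-- 3-connected: no separation of order one or two -/
def ThreeConn {α : Type} (M : Matroid α) : Prop :=
  ∀ X, X ⊆ M.E →
    (1 ≤ X.ncard → 1 ≤ (M.E \ X).ncard → rk M M.E + 1 ≤ rk M X + rk M (M.E \ X)) ∧
    (2 ≤ X.ncard → 2 ≤ (M.E \ X).ncard → rk M M.E + 2 ≤ rk M X + rk M (M.E \ X))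

/-- matchings: the elements of `X` are matched to distinct elements of `J` (relation `R`) -/
def Mat {S J : Type} (R : S → J → Prop) (X : Set S) : Prop :=
  ∃ g : S → J, (∀ x ∈ X, R x (g x)) ∧ InjOn g X

/-- perfect matchings of `X` with the whole of `J` -/
def MatB {S J : Type} (R : S → J → Prop) (X : Set S) : Prop :=
  ∃ g : S → J, (∀ x ∈ X, R x (g x)) ∧ BijOn g X univ

/-- presentation of `M` as a contraction of a transversal matroid: `I` is independent iff `I ∪ W` is
matched into `J` -/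
def Pres {α : Type} (M : Matroid α) (W J : Type) (R : α ⊕ W → J → Prop) : Prop :=
  ∀ I, I ⊆ M.E → (M.Indep I ↔ Mat R (Sum.inl '' I ∪ range Sum.inr))

/-- the same with bases and perfect matchings -/
def PresB {α : Type} (M : Matroid α) (W J : Type) (R : α ⊕ W → J → Prop) : Prop :=
  ∀ B, B ⊆ M.E → (M.IsBase B ↔ MatB R (Sum.inl '' B ∪ range Sum.inr))

end QG
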