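import Pool.Agent.Lib.QG.D0
set_option autoImplicit false

/-! Row E1. The twelve lists are matroids. Matroid.ofIsBaseOfFinite on univ : Set (Fin n),
IsBase B := B.toFinset.card = r ∧ B.toFinset ∉ L (classical) or use images of Finsets; the exchange
property for Finsets is decidable; make the decision cheap (e.g. it is enough to exchange for the sets
in L: if B1, B2 are bases and x ∈ B1 \ B2 then not all of the sets B1 - x + y, y ∈ B2 \ B1, are in L;
quantify over the (r-1)-sets B1 - x and over B2; or encode sets as bit masks). -/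

namespace QG
open Set Matroid

/-- the closure of a set of `r - 1` elements -/
private def E1cl {n : ℕ} (L : Finset (Finset (Fin n))) (Z : Finset (Fin n)) : Finset (Fin n) :=
  Z ∪ (L.filter (fun A => Z ⊆ A)).biUnion id

private theorem E1ex {n r : ℕ} (hr : 1 ≤ r) (L : Finset (Finset (Fin n)))
    (hL : ∀ A ∈ L, A.card = r)
    (h0 : ∃ B : Finset (Fin n), B.card = r ∧ B ∉ L)
    (h1' : ∀ Z ∈ (Finset.univ : Finset (Fin n)).powersetCard (r - 1),
      (L.filter (fun A => Z ⊆ A)).card ≤ 1 ∨ (E1cl L Z).card = n ∨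
      ∀ Y ∈ (E1cl L Z).powersetCard r, Y ∈ L) :
    ∃ M : Matroid (Fin n), IsL n r L M := by
  classical
  have h1 : ∀ Z ∈ (Finset.univ : Finset (Fin n)).powersetCard (r - 1), E1cl L Z = Finset.univ ∨
      ∀ Y ∈ (E1cl L Z).powersetCard r, Y ∈ L := by
    intro Z hZ
    rcases h1' Z hZ with h | h | h
    · right
      intro Y hY
      rw [Finset.mem_powersetCard] at hY hZ
      rcases Finset.eq_empty_or_nonempty (L.filter (fun A => Z ⊆ A)) with h2 | ⟨A, hA⟩
      · exfalso
        have h3 : E1cl L Z = Z := by rw [E1cl, h2, Finset.biUnion_empty, Finset.union_empty]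
        rw [h3] at hY
        have := Finset.card_le_card hY.1
        omega
      · have h3 : L.filter (fun A => Z ⊆ A) = {A} :=
          Finset.eq_singleton_iff_unique_mem.2 ⟨hA, fun B hB => Finset.card_le_one.1 h B hB A hA⟩
        rw [Finset.mem_filter] at hA
        have h4 : E1cl L Z = A := by
          rw [E1cl, h3, Finset.singleton_biUnion, id]
          exact Finset.union_eq_right.2 hA.2
        rw [h4] at hY
        have h5 : Y = A := Finset.eq_of_subset_of_card_le hY.1 (by rw [hL A hA.1, hY.2])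
        rw [h5]
        exact hA.1
    · left
      exact Finset.eq_univ_of_card _ (by rw [h, Fintype.card_fin])
    · exact Or.inr h
  let P : Set (Fin n) → Prop := fun B =>
    ∃ X : Finset (Fin n), (X : Set (Fin n)) = B ∧ X.card = r ∧ X ∉ L
  have hex : ∃ B, P B := by
    obtain ⟨B, hB⟩ := h0
    exact ⟨B, B, rfl, hB⟩
  have hexch : Matroid.ExchangeProperty P := by
    rintro _ _ ⟨X, rfl, hXr, hXL⟩ ⟨Y, rfl, hYr, hYL⟩ a ha
    have haX : a ∈ X := ha.1
    have haY : a ∉ Y := ha.2
    have hZ : X.erase a ∈ (Finset.univ : Finset (Fin n)).powersetCard (r - 1) := by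
      rw [Finset.mem_powersetCard, Finset.card_erase_of_mem haX, hXr]
      exact ⟨Finset.subset_univ _, rfl⟩
    have hb : ∃ b ∈ Y, b ∉ E1cl L (X.erase a) := by
      rcases h1 _ hZ with h | h
      · exfalso
        have h2 : a ∈ E1cl L (X.erase a) := by rw [h]; exact Finset.mem_univ a
        rw [E1cl, Finset.mem_union] at h2
        rcases h2 with h2 | h2
        · exact Finset.notMem_erase a X h2
        · rw [Finset.mem_biUnion] at h2
          obtain ⟨A, hA, haA⟩ := h2
          rw [Finset.mem_filter] at hA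
          have h3 : X ⊆ A := by
            intro x hx
            by_cases hxa : x = a
            · rw [hxa]; exact haA
            · exact hA.2 (Finset.mem_erase.2 ⟨hxa, hx⟩)
          have h4 : X = A := Finset.eq_of_subset_of_card_le h3 (by rw [hL A hA.1, hXr])
          exact hXL (h4 ▸ hA.1)
      · by_contra hcon
        push Not at hcon
        exact hYL (h Y (Finset.mem_powersetCard.2 ⟨hcon, hYr⟩))
    obtain ⟨b, hbY, hb⟩ := hb
    rw [E1cl, Finset.mem_union, not_or] at hb
    have hba : b ≠ a := fun h => haY (h ▸ hbY)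
    have hbX : b ∉ X := fun h => hb.1 (Finset.mem_erase.2 ⟨hba, h⟩)
    refine ⟨b, ⟨hbY, hbX⟩, insert b (X.erase a), ?_, ?_, ?_⟩
    · rw [Finset.coe_insert, Finset.coe_erase]
    · rw [Finset.card_insert_of_notMem hb.1, Finset.card_erase_of_mem haX, hXr]
      omega
    · intro hmem
      refine hb.2 (Finset.mem_biUnion.2 ⟨_, Finset.mem_filter.2 ⟨hmem, ?_⟩, ?_⟩)
      · exact Finset.subset_insert _ _
      · exact Finset.mem_insert_self _ _
  refine ⟨Matroid.ofIsBaseOfFinite (E := univ) Set.finite_univ P hex hexch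
    (fun B _ => Set.subset_univ B), id, Function.injective_id, ?_, fun B => ?_⟩
  · rw [Set.range_id]
    rfl
  · rw [Set.image_id]
    change P (B : Set (Fin n)) ↔ _
    constructor
    · rintro ⟨X, hX, h⟩
      rwa [← Finset.coe_injective hX]
    · exact fun h => ⟨B, rfl, h⟩

theorem ex_U26 : ∃ M : Matroid (Fin 6), IsL 6 2 ∅ M :=
  E1ex (by decide) _ (by decide +kernel) ⟨{0, 1}, by decide +kernel⟩ (by decide +kernel)

theorem ex_U46 : ∃ M : Matroid (Fin 6), IsL 6 4 ∅ M :=
  E1ex (by decide) _ (by decide +kernel) ⟨{0, 1, 2, 3}, by decide +kernel⟩ (by decide +kernel)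

theorem ex_P6 : ∃ M : Matroid (Fin 6), IsL 6 3 LP6 M :=
  E1ex (by decide) _ (by decide +kernel) ⟨{0, 1, 3}, by decide +kernel⟩ (by decide +kernel)

theorem ex_P8 : ∃ M : Matroid (Fin 8), IsL 8 4 LP8 M :=
  E1ex (by decide) _ (by decide +kernel) ⟨{0, 1, 2, 3}, by decide +kernel⟩ (by decide +kernel)

theorem ex_K4 : ∃ M : Matroid (Fin 6), IsL 6 3 LK4 M :=
  E1ex (by decide) _ (by decide +kernel) ⟨{0, 1, 3}, by decide +kernel⟩ (by decide +kernel)

theorem ex_A7 : ∃ M : Matroid (Fin 7), IsL 7 3 LA7 M :=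
  E1ex (by decide) _ (by decide +kernel) ⟨{0, 1, 3}, by decide +kernel⟩ (by decide +kernel)

theorem ex_E8a : ∃ M : Matroid (Fin 8), IsL 8 3 LE8a M :=
  E1ex (by decide) _ (by decide +kernel) ⟨{0, 1, 4}, by decide +kernel⟩ (by decide +kernel)

theorem ex_E8b : ∃ M : Matroid (Fin 8), IsL 8 3 LE8b M :=
  E1ex (by decide) _ (by decide +kernel) ⟨{0, 1, 3}, by decide +kernel⟩ (by decide +kernel)

theorem ex_X8 : ∃ M : Matroid (Fin 8), IsL 8 4 LX8 M :=
  E1ex (by decide) _ (by decide +kernel) ⟨{0, 1, 2, 3}, by decide +kernel⟩ (by decide +kernel)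

end QG
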