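import Pool.Agent.Lib.QG.K1a

/-!
MP_2e6874_co. Small facts on the field `F4` (elements `o = 0`, `i = 1`, `w = ω`, `v = ω²`) and on
vector spaces over it (characteristic two).
-/

set_option autoImplicit false

namespace QG

theorem F4.add_self (x : F4) : x + x = 0 := by revert x; decide

instance : CharP F4 2 := CharTwo.of_one_ne_zero_of_two_eq_zero (by decide) (by decide)

/-- the automorphism `x ↦ x²` -/
def F4.frob : F4 → F4
  | F4.o => F4.o
  | F4.i => F4.i
  | F4.w => F4.v
  | F4.v => F4.w

theorem F4.frob_add (x y : F4) : F4.frob (x + y) = F4.frob x + F4.frob y := by revert x y; decide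
theorem F4.frob_mul (x y : F4) : F4.frob (x * y) = F4.frob x * F4.frob y := by revert x y; decide
theorem F4.frob_frob (x : F4) : F4.frob (F4.frob x) = x := by revert x; decide

section
variable {W : Type} [AddCommGroup W] [Module F4 W]

theorem vadd_self (x : W) : x + x = 0 := by
  have h : (1 : F4) + 1 = 0 := by decide
  calc x + x = (1 : F4) • x + (1 : F4) • x := by simp
    _ = ((1 : F4) + 1) • x := by rw [add_smul]
    _ = 0 := by rw [h, zero_smul]

theorem vneg (x : W) : -x = x := by
  have := vadd_self x
  exact (eq_neg_of_add_eq_zero_left this).symm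

theorem vsub (x y : W) : x - y = x + y := by rw [sub_eq_add_neg, vneg]

theorem vadd_eq_zero {x y : W} : x + y = 0 ↔ x = y := by
  rw [← vsub, sub_eq_zero]
end

end QG
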