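import Pool.Agent.Lib.QG.FL3

/-!
MP_2e6874_co. Duality Th - La.
-/

set_option autoImplicit false

namespace QG
open Set Matroid Submodule

def thδ : Lab → Lab
  | .rm i n => .vx i n
  | .vx i n => .rm i (n - 1)
  | .tp k => .tp k

theorem FD1_th_vx {a b : Bool} {m : ℕ → ℕ} {i n : ℕ} :
    Lab.vx i n ∈ ThE a b m ↔ i < 3 ∧ 0 < n ∧ n < m i := by
  simp only [ThE, Finset.mem_union, vx_mem_inn, mem_I3, vx_notMem_tps, vx_notMem_rims, false_or,
    or_false]
theorem FD1_th_rm {a b : Bool} {m : ℕ → ℕ} {i n : ℕ} :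
    Lab.rm i n ∈ ThE a b m ↔ i < 3 ∧ n < m i := by
  simp only [ThE, Finset.mem_union, rm_mem_rims, mem_I3, rm_notMem_tps, rm_notMem_inn, false_or]
theorem FD1_th_tp {a b : Bool} {m : ℕ → ℕ} {k : ℕ} :
    Lab.tp k ∈ ThE a b m ↔ (a = true ∧ k = 0) ∨ (b = true ∧ k = 1) := by
  simp only [ThE, Finset.mem_union, tp_mem_tps, tp_notMem_inn, tp_notMem_rims, or_false]
theorem FD1_la_vx {a b : Bool} {m : ℕ → ℕ} {i n : ℕ} :
    Lab.vx i n ∈ LaE a b m ↔ i < 3 ∧ n ≤ m i := by
  simp only [LaE, Finset.mem_union, vx_mem_vts, mem_I3, vx_notMem_tps, vx_notMem_rims, false_or,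
    or_false]
theorem FD1_la_rm {a b : Bool} {m : ℕ → ℕ} {i n : ℕ} :
    Lab.rm i n ∈ LaE a b m ↔ i < 3 ∧ n < m i := by
  simp only [LaE, Finset.mem_union, rm_mem_rims, mem_I3, rm_notMem_tps, rm_notMem_vts, false_or]
theorem FD1_la_tp {a b : Bool} {m : ℕ → ℕ} {k : ℕ} :
    Lab.tp k ∈ LaE a b m ↔ (a = true ∧ k = 0) ∨ (b = true ∧ k = 1) := by
  simp only [LaE, Finset.mem_union, tp_mem_tps, tp_notMem_vts, tp_notMem_rims, or_false]

theorem FD1_indep {S : Set Lab} {u : Lab → VV} (κ : Lab → ℕ × ℕ)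
    (h : ∀ x ∈ S, u x = e (κ x).1 (κ x).2) (hinj : InjOn κ S) : LinearIndepOn F4 u S := by
  have h1 : LinearIndependent F4 (fun p : ℕ × ℕ => (Finsupp.single p (1 : F4) : VV)) := by
    have := (Finsupp.basisSingleOne (R := F4) (ι := ℕ × ℕ)).linearIndependent
    simpa using this
  have h2 := h1.comp (fun x : S => κ x) (fun x y hxy => Subtype.ext (hinj x.2 y.2 hxy))
  unfold LinearIndepOn
  convert h2 using 1
  funext x
  exact h x x.2

theorem thδ_bij (m : ℕ → ℕ) (hm : ∀ i < 3, 1 ≤ m i) :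
    BijOn thδ (ThE true true m) (LaE true true (fun i => m i - 1)) := by
  refine ⟨?_, ?_, ?_⟩
  · rintro (⟨i, n⟩ | ⟨i, n⟩ | k) hx
    · rw [Finset.mem_coe, FD1_th_vx] at hx
      show thδ (Lab.vx i n) ∈ ((LaE true true (fun i => m i - 1) : Finset Lab) : Set Lab)
      rw [Finset.mem_coe, thδ, FD1_la_rm]
      exact ⟨hx.1, by omega⟩
    · rw [Finset.mem_coe, FD1_th_rm] at hx
      show thδ (Lab.rm i n) ∈ ((LaE true true (fun i => m i - 1) : Finset Lab) : Set Lab)
      rw [Finset.mem_coe, thδ, FD1_la_vx]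
      exact ⟨hx.1, by omega⟩
    · rw [Finset.mem_coe, FD1_th_tp] at hx
      show thδ (Lab.tp k) ∈ ((LaE true true (fun i => m i - 1) : Finset Lab) : Set Lab)
      rw [Finset.mem_coe, thδ, FD1_la_tp]
      exact hx
  · rintro (⟨i, n⟩ | ⟨i, n⟩ | k) hx (⟨j, p⟩ | ⟨j, p⟩ | l) hy hxy
    · rw [Finset.mem_coe, FD1_th_vx] at hx hy
      simp only [thδ, Lab.rm.injEq] at hxy
      rw [Lab.vx.injEq]
      omega
    · simp [thδ] at hxy
    · simp [thδ] at hxy
    · simp [thδ] at hxy
    · simp only [thδ, Lab.vx.injEq] at hxy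
      rw [Lab.rm.injEq]
      exact hxy
    · simp [thδ] at hxy
    · simp [thδ] at hxy
    · simp [thδ] at hxy
    · simpa [thδ] using hxy
  · rintro (⟨i, n⟩ | ⟨i, n⟩ | k) hx
    · rw [Finset.mem_coe, FD1_la_vx] at hx
      refine ⟨Lab.rm i n, ?_, rfl⟩
      rw [Finset.mem_coe, FD1_th_rm]
      have := hm i hx.1
      exact ⟨hx.1, by omega⟩
    · rw [Finset.mem_coe, FD1_la_rm] at hx
      refine ⟨Lab.vx i (n + 1), ?_, rfl⟩
      rw [Finset.mem_coe, FD1_th_vx]
      exact ⟨hx.1, by omega, by omega⟩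
    · rw [Finset.mem_coe, FD1_la_tp] at hx
      refine ⟨Lab.tp k, ?_, rfl⟩
      rw [Finset.mem_coe, FD1_th_tp]
      exact hx

theorem FD1_strand (m : ℕ → ℕ) (i : ℕ) (hm : 1 ≤ m i) (φ ψ : VV →ₗ[F4] F4) :
    ∑ n ∈ Finset.Ioo 0 (m i), φ (ThV m (.vx i n)) *
        ψ ((1 : F4) • LaV (fun i => m i - 1) (thδ (.vx i n))) +
      ∑ n ∈ Finset.range (m i), φ (ThV m (.rm i n)) *
        ψ ((1 : F4) • LaV (fun i => m i - 1) (thδ (.rm i n))) =
      φ (e 3 0) * ψ (e i 0) + g3 i * φ (e 3 1) * ψ (LaB (fun i => m i - 1) i) := by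
  have h := tele (fun n => φ (msu m (fun _ => e 3 0) (fun i => g3 i • e 3 1) i n))
    (fun n => ψ (msu (fun i => m i - 1) (fun i => e i 0) (LaB (fun i => m i - 1)) i n)) (m i) hm
  have h0 : msu m (fun _ => e 3 0) (fun i => g3 i • e 3 1) i 0 = e 3 0 := by simp [msu]
  have h1 : msu m (fun _ => e 3 0) (fun i => g3 i • e 3 1) i (m i) = g3 i • e 3 1 := by
    have : m i ≠ 0 := by omega
    simp [msu, this]
  have h2 : msu (fun i => m i - 1) (fun i => e i 0) (LaB (fun i => m i - 1)) i 0 = e i 0 := by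
    simp [msu]
  have h3 : msu (fun i => m i - 1) (fun i => e i 0) (LaB (fun i => m i - 1)) i (m i - 1) =
      LaB (fun i => m i - 1) i := by
    unfold msu LaB
    by_cases hz : m i - 1 = 0
    · simp [hz]
    · simp [hz]
  simp only [h0, h1, h2, h3] at h
  rw [map_smul, smul_eq_mul] at h
  rw [← h, add_comm]
  refine congrArg₂ (· + ·) (Finset.sum_congr rfl fun n _ => ?_)
    (Finset.sum_congr rfl fun n hn => ?_)
  · simp only [thδ, ThV, LaV, vec_rm, vec_vx, one_smul, map_add]
  · rw [Finset.mem_Ioo] at hn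
    have h5 : n - 1 + 1 = n := by omega
    simp only [thδ, ThV, LaV, vec_rm, vec_vx, one_smul, map_add, h5]

theorem FD1_ort (m : ℕ → ℕ) (hm : ∀ i < 3, 1 ≤ m i) (φ ψ : VV →ₗ[F4] F4) :
    ∑ x ∈ ThE true true m, φ (ThV m x) *
      ψ ((1 : F4) • LaV (fun i => m i - 1) (thδ x)) = 0 := by
  have hd1 : Disjoint (inn I3 m) (rims I3 m) := by
    rw [Finset.disjoint_left]
    rintro (⟨i, n⟩ | ⟨i, n⟩ | k) hx hy
    · exact vx_notMem_rims hy
    · exact rm_notMem_inn hx
    · exact tp_notMem_inn hx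
  have hd2 : Disjoint (tps true true) (inn I3 m ∪ rims I3 m) := by
    rw [Finset.disjoint_left]
    rintro (⟨i, n⟩ | ⟨i, n⟩ | k) hx hy
    · exact vx_notMem_tps hx
    · exact rm_notMem_tps hx
    · rw [Finset.mem_union] at hy
      rcases hy with hy | hy
      · exact tp_notMem_inn hy
      · exact tp_notMem_rims hy
  rw [ThE, Finset.sum_union hd2, Finset.sum_union hd1, sum_tps, sum_inn, sum_rims,
    ← Finset.sum_add_distrib]
  rw [Finset.sum_congr rfl fun i hi => FD1_strand m i (hm i (mem_I3.1 hi)) φ ψ]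
  have hI : (I3 : Finset ℕ) = {0, 1, 2} := rfl
  have hg0 : g3 0 = 1 := rfl
  have hg1 : g3 1 = F4.w := rfl
  have hg2 : g3 2 = F4.v := rfl
  rw [hI, Finset.sum_insert (by decide), Finset.sum_insert (by decide), Finset.sum_singleton,
    hg0, hg1, hg2]
  simp only [thδ, ThV, LaV, vec_tp, one_smul, if_true, if_pos, one_ne_zero, if_false,
    Lac, Lac', map_add, map_smul, smul_eq_mul]
  generalize φ (e 3 0) = A
  generalize φ (e 3 1) = B
  generalize ψ (e 0 0) = x0
  generalize ψ (e 1 0) = x1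
  generalize ψ (e 2 0) = x2
  generalize ψ (LaB (fun i => m i - 1) 0) = y0
  generalize ψ (LaB (fun i => m i - 1) 1) = y1
  generalize ψ (LaB (fun i => m i - 1) 2) = y2
  have : A * (x0 + x1 + x2) + B * (y0 + F4.w * y1 + F4.v * y2) +
      (A * x0 + 1 * B * y0 + (A * x1 + F4.w * B * y1 + (A * x2 + F4.v * B * y2))) =
      (A * (x0 + x1 + x2) + B * (y0 + F4.w * y1 + F4.v * y2)) +
      (A * (x0 + x1 + x2) + B * (y0 + F4.w * y1 + F4.v * y2)) := by ring
  rw [this, F4.add_self]

theorem th_dual_tt (m : ℕ → ℕ) (hm : ∀ i < 3, 1 ≤ m i) :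
    (LM (ThE true true m) (ThV m))✶ =
      LM (ThE true true m) (fun x => (1 : F4) • LaV (fun i => m i - 1) (thδ x)) := by
  refine LM_dual (B := tps true true ∪ inn I3 m) ?_ ?_ ?_ (FD1_ort m hm)
  · intro x hx
    rw [ThE, Finset.mem_union, Finset.mem_union]
    rw [Finset.mem_union] at hx
    rcases hx with hx | hx
    · exact Or.inl hx
    · exact Or.inr (Or.inl hx)
  · refine FD1_indep (fun x => match x with
      | .vx i n => (i, n)
      | .rm i n => (i, n)
      | .tp k => (3, k)) ?_ ?_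
    · rintro (⟨i, n⟩ | ⟨i, n⟩ | k) hx
      · rw [Finset.mem_coe, Finset.mem_union, vx_mem_inn, mem_I3] at hx
        rcases hx with hx | hx
        · exact absurd hx vx_notMem_tps
        · have h1 : n ≠ 0 := by omega
          have h2 : n ≠ m i := by omega
          simp [ThV, msu, h1, h2]
      · rw [Finset.mem_coe, Finset.mem_union] at hx
        rcases hx with hx | hx
        · exact absurd hx rm_notMem_tps
        · exact absurd hx rm_notMem_inn
      · rw [Finset.mem_coe, Finset.mem_union, tp_mem_tps] at hx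
        rcases hx with (⟨_, rfl⟩ | ⟨_, rfl⟩) | hx
        · simp [ThV]
        · simp [ThV]
        · exact absurd hx tp_notMem_inn
    · rintro (⟨i, n⟩ | ⟨i, n⟩ | k) hx (⟨j, p⟩ | ⟨j, p⟩ | l) hy hxy
      · simp only [Prod.mk.injEq] at hxy
        rw [Lab.vx.injEq]; exact hxy
      · rw [Finset.mem_coe, Finset.mem_union] at hy
        rcases hy with hy | hy
        · exact absurd hy rm_notMem_tps
        · exact absurd hy rm_notMem_inn
      · rw [Finset.mem_coe, Finset.mem_union, vx_mem_inn, mem_I3] at hx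
        rcases hx with hx | hx
        · exact absurd hx vx_notMem_tps
        · simp only [Prod.mk.injEq] at hxy
          omega
      · rw [Finset.mem_coe, Finset.mem_union] at hx
        rcases hx with hx | hx
        · exact absurd hx rm_notMem_tps
        · exact absurd hx rm_notMem_inn
      · rw [Finset.mem_coe, Finset.mem_union] at hx
        rcases hx with hx | hx
        · exact absurd hx rm_notMem_tps
        · exact absurd hx rm_notMem_inn
      · rw [Finset.mem_coe, Finset.mem_union] at hx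
        rcases hx with hx | hx
        · exact absurd hx rm_notMem_tps
        · exact absurd hx rm_notMem_inn
      · rw [Finset.mem_coe, Finset.mem_union, vx_mem_inn, mem_I3] at hy
        rcases hy with hy | hy
        · exact absurd hy vx_notMem_tps
        · simp only [Prod.mk.injEq] at hxy
          omega
      · rw [Finset.mem_coe, Finset.mem_union] at hy
        rcases hy with hy | hy
        · exact absurd hy rm_notMem_tps
        · exact absurd hy rm_notMem_inn
      · simp only [Prod.mk.injEq, true_and] at hxy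
        rw [hxy]
  · have hmem : ∀ x ∈ ((ThE true true m \ (tps true true ∪ inn I3 m) : Finset Lab) : Set Lab),
        ∃ i n, i < 3 ∧ n < m i ∧ x = .rm i n := by
      intro x hx
      rw [Finset.mem_coe, Finset.mem_sdiff, ThE, Finset.mem_union, Finset.mem_union,
        Finset.mem_union] at hx
      have hx' : x ∈ rims I3 m := by tauto
      rw [mem_rims] at hx'
      obtain ⟨i, hi, n, hn, rfl⟩ := hx'
      exact ⟨i, n, mem_I3.1 hi, hn, rfl⟩
    refine FD1_indep (fun x => match x with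
      | .vx i n => (i, n)
      | .rm i n => if n = 0 then (i, 0) else if n = m i - 1 then (i + 4, 0) else (i, n)
      | .tp k => (3, k)) ?_ ?_
    · intro x hx
      obtain ⟨i, n, hi, hn, rfl⟩ := hmem x hx
      show (1 : F4) • LaV (fun i => m i - 1) (.vx i n) = _
      rw [one_smul, LaV, vec_vx]
      unfold msu LaB
      by_cases h1 : n = 0
      · simp [h1]
      · by_cases h2 : n = m i - 1
        · have h3 : m i - 1 ≠ 0 := by omega
          simp [h1, h2, h3]
        · simp [h1, h2]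
    · intro x hx y hy hxy
      obtain ⟨i, n, hi, hn, rfl⟩ := hmem x hx
      obtain ⟨j, p, hj, hp, rfl⟩ := hmem y hy
      have h1 : (if n = 0 then (i, 0) else if n = m i - 1 then (i + 4, 0) else (i, n)) =
        (if p = 0 then (j, 0) else if p = m j - 1 then (j + 4, 0) else (j, p)) := hxy
      rw [Lab.rm.injEq]
      by_cases hn0 : n = 0
      · by_cases hp0 : p = 0
        · simp only [hn0, hp0, if_true, Prod.mk.injEq] at h1
          exact ⟨h1.1, by rw [hn0, hp0]⟩
        · by_cases hp1 : p = m j - 1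
          · rw [if_pos hn0, if_neg hp0, if_pos hp1, Prod.mk.injEq] at h1
            omega
          · rw [if_pos hn0, if_neg hp0, if_neg hp1, Prod.mk.injEq] at h1
            omega
      · by_cases hn1 : n = m i - 1
        · by_cases hp0 : p = 0
          · rw [if_neg hn0, if_pos hn1, if_pos hp0, Prod.mk.injEq] at h1
            omega
          · by_cases hp1 : p = m j - 1
            · rw [if_neg hn0, if_pos hn1, if_neg hp0, if_pos hp1, Prod.mk.injEq] at h1
              have hij : i = j := by omega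
              subst hij
              exact ⟨rfl, by omega⟩
            · rw [if_neg hn0, if_pos hn1, if_neg hp0, if_neg hp1, Prod.mk.injEq] at h1
              omega
        · by_cases hp0 : p = 0
          · rw [if_neg hn0, if_neg hn1, if_pos hp0, Prod.mk.injEq] at h1
            omega
          · by_cases hp1 : p = m j - 1
            · rw [if_neg hn0, if_neg hn1, if_neg hp0, if_pos hp1, Prod.mk.injEq] at h1
              omega
            · rw [if_neg hn0, if_neg hn1, if_neg hp0, if_neg hp1, Prod.mk.injEq] at h1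
              exact h1

theorem th_dual (a b : Bool) (m : ℕ → ℕ) (hm : ∀ i < 3, 1 ≤ m i) :
    MIso (LM (ThE a b m) (ThV m))✶
      (LM (LaE a b (fun i => m i - 1))
        ((LaK a b (fun i => m i - 1)).mkQ ∘ LaV (fun i => m i - 1))) := by
  have hD : tps (!a) (!b) ⊆ ThE true true m := by
    rintro (⟨i, n⟩ | ⟨i, n⟩ | k) hx
    · exact absurd hx vx_notMem_tps
    · exact absurd hx rm_notMem_tps
    · rw [tp_mem_tps] at hx
      rw [FD1_th_tp]
      rcases hx with ⟨_, h⟩ | ⟨_, h⟩
      · exact Or.inl ⟨rfl, h⟩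
      · exact Or.inr ⟨rfl, h⟩
  have h := LM_minor_dual (C := ∅) (D := tps (!a) (!b)) (u := ThV m)
    (u' := LaV (fun i => m i - 1)) (s := fun _ => 1) (fun _ _ => one_ne_zero) (thδ_bij m hm)
    (th_dual_tt m hm) (Finset.empty_subset _) hD (Finset.disjoint_empty_left _)
  have e1 : ThE true true m \ (∅ ∪ tps (!a) (!b)) = ThE a b m := by
    ext x
    rw [Finset.mem_sdiff, Finset.empty_union]
    rcases x with ⟨i, n⟩ | ⟨i, n⟩ | k
    · rw [FD1_th_vx, FD1_th_vx]
      exact ⟨fun h => h.1, fun h => ⟨h, vx_notMem_tps⟩⟩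
    · rw [FD1_th_rm, FD1_th_rm]
      exact ⟨fun h => h.1, fun h => ⟨h, rm_notMem_tps⟩⟩
    · rw [FD1_th_tp, FD1_th_tp, tp_mem_tps]
      cases a <;> cases b <;> simp <;> omega
  have e2 : (∅ ∪ tps (!a) (!b)).image thδ = tps (!a) (!b) := by
    cases a <;> cases b <;> rfl
  have e2' : (tps (!a) (!b)).image thδ = tps (!a) (!b) := by
    cases a <;> cases b <;> rfl
  have e3 : LaE true true (fun i => m i - 1) \ tps (!a) (!b) = LaE a b (fun i => m i - 1) := by
    ext x
    rw [Finset.mem_sdiff]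
    rcases x with ⟨i, n⟩ | ⟨i, n⟩ | k
    · rw [FD1_la_vx, FD1_la_vx]
      exact ⟨fun h => h.1, fun h => ⟨h, vx_notMem_tps⟩⟩
    · rw [FD1_la_rm, FD1_la_rm]
      exact ⟨fun h => h.1, fun h => ⟨h, rm_notMem_tps⟩⟩
    · rw [FD1_la_tp, FD1_la_tp, tp_mem_tps]
      cases a <;> cases b <;> simp <;> omega
  have e4 : span F4 (ThV m '' ((∅ : Finset Lab) : Set Lab)) = ⊥ := by simp
  have e5 : span F4 (LaV (fun i => m i - 1) '' ((tps (!a) (!b) : Finset Lab) : Set Lab)) =
      LaK a b (fun i => m i - 1) := by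
    unfold LaK
    congr 1
    ext y
    constructor
    · rintro ⟨x, hx, rfl⟩
      rw [Finset.mem_coe, mem_tps] at hx
      rcases hx with ⟨h1, rfl⟩ | ⟨h1, rfl⟩
      · left
        refine ⟨h1, ?_⟩
        simp [LaV]
      · right
        refine ⟨h1, ?_⟩
        simp [LaV]
    · rintro (⟨h1, h2⟩ | ⟨h1, h2⟩)
      · refine ⟨.tp 0, ?_, ?_⟩
        · rw [Finset.mem_coe, tp_mem_tps]; exact Or.inl ⟨h1, rfl⟩
        · rw [mem_singleton_iff] at h2
          simp [LaV, h2]
      · refine ⟨.tp 1, ?_, ?_⟩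
        · rw [Finset.mem_coe, tp_mem_tps]; exact Or.inr ⟨h1, rfl⟩
        · rw [mem_singleton_iff] at h2
          simp [LaV, h2]
  rw [e4, e1, e2, e2', e3, e5, LM_bot] at h
  exact h

end QG
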