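import Pool.Agent.Lib.QG.FL3

/-!
MP_2e6874_co. Duality of the family De.
-/

set_option autoImplicit false

namespace QG
open Set Matroid Submodule

def deδ (l : ℕ → ℕ) : Lab → Lab
  | .rm i n => .vx i (l i - 1 - n)
  | .vx i n => .rm i (l i - 1 - n)
  | .tp k => .tp (1 - k)

def deS (g : F4) : Lab → F4
  | .rm _ _ => g⁻¹
  | .vx _ _ => g⁻¹
  | .tp _ => 1

theorem mem_DeE {a b : Bool} {I : Finset ℕ} {l : ℕ → ℕ} {x : Lab} :
    x ∈ DeE a b I l ↔ (a = true ∧ x = .tp 0) ∨ (b = true ∧ x = .tp 1) ∨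
      (∃ i ∈ I, ∃ n, n < l i ∧ x = .vx i n) ∨ (∃ i ∈ I, ∃ n, n < l i ∧ x = .rm i n) := by
  rw [DeE, Finset.mem_union, Finset.mem_union, mem_tps, mem_vlt, mem_rims, or_assoc]

theorem deδ_mem {I : Finset ℕ} {l : ℕ → ℕ} {a b : Bool} {x : Lab} (hx : x ∈ DeE a b I l) :
    deδ l x ∈ DeE b a I l := by
  rw [mem_DeE] at hx ⊢
  rcases hx with ⟨h, rfl⟩ | ⟨h, rfl⟩ | ⟨i, hi, n, hn, rfl⟩ | ⟨i, hi, n, hn, rfl⟩
  · exact Or.inr (Or.inl ⟨h, rfl⟩)
  · exact Or.inl ⟨h, rfl⟩
  · exact Or.inr (Or.inr (Or.inr ⟨i, hi, _, by omega, rfl⟩))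
  · exact Or.inr (Or.inr (Or.inl ⟨i, hi, _, by omega, rfl⟩))

theorem deδ_deδ {I : Finset ℕ} {l : ℕ → ℕ} {a b : Bool} {x : Lab} (hx : x ∈ DeE a b I l) :
    deδ l (deδ l x) = x := by
  rw [mem_DeE] at hx
  rcases hx with ⟨h, rfl⟩ | ⟨h, rfl⟩ | ⟨i, hi, n, hn, rfl⟩ | ⟨i, hi, n, hn, rfl⟩
  · rfl
  · rfl
  · simp only [deδ]
    congr 1
    omega
  · simp only [deδ]
    congr 1
    omega

theorem deδ_bij' (a b : Bool) (I : Finset ℕ) (l : ℕ → ℕ) :
    BijOn (deδ l) (DeE a b I l) (DeE b a I l) := by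
  refine InvOn.bijOn (f' := deδ l) ⟨?_, ?_⟩ ?_ ?_
  · intro x hx
    exact deδ_deδ hx
  · intro x hx
    exact deδ_deδ hx
  · intro x hx
    exact deδ_mem hx
  · intro x hx
    exact deδ_mem hx

theorem deδ_bij (I : Finset ℕ) (l : ℕ → ℕ) :
    BijOn (deδ l) (DeE true true I l) (DeE true true I l) := deδ_bij' true true I l

/-- distinct coordinate vectors are independent -/
theorem FD2_coord {ι : Type} {S : Set ι} {u : ι → VV} (s : ι → F4) (p : ι → ℕ × ℕ)
    (hs : ∀ x ∈ S, s x ≠ 0) (hp : InjOn p S) (hu : ∀ x ∈ S, u x = s x • e (p x).1 (p x).2) :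
    LinearIndepOn F4 u S := by
  rw [linearIndepOn_congr (fun x hx => hu x hx)]
  rw [LinearIndepOn_scale hs]
  have h1 : LinearIndependent F4 (fun q : ℕ × ℕ => (Finsupp.single q 1 : VV)) := by
    have := (Finsupp.basisSingleOne (R := F4) (ι := ℕ × ℕ)).linearIndependent
    rwa [Finsupp.coe_basisSingleOne] at this
  exact h1.comp (fun x : S => p x) (fun x y hxy => Subtype.ext (hp x.2 y.2 hxy))

theorem DeV_vx (g : F4) (I : Finset ℕ) {l : ℕ → ℕ} {i n : ℕ} (hn : n < l i) :
    DeV g I l (.vx i n) = e i n := by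
  simp only [DeV, vec_vx, msu]
  by_cases h : n = 0
  · rw [if_pos h, h]
  · rw [if_neg h, if_neg (by omega)]

theorem de_dual_tt (g : F4) (hg : g ≠ 0) (I : Finset ℕ) (h0 : 0 ∉ I) (l : ℕ → ℕ)
    (hl : ∀ i ∈ I, 1 ≤ l i) :
    (LM (DeE true true I l) (DeV g I l))✶ =
      LM (DeE true true I l) (fun x => deS g x • DeV g I l (deδ l x)) := by
  have hgi : g⁻¹ ≠ 0 := inv_ne_zero hg
  have hB : ({Lab.tp 0} ∪ vlt I l : Finset Lab) ⊆ DeE true true I l := by
    intro x hx
    rw [Finset.mem_union, Finset.mem_singleton, mem_vlt] at hx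
    rw [mem_DeE]
    rcases hx with rfl | hx
    · exact Or.inl ⟨rfl, rfl⟩
    · exact Or.inr (Or.inr (Or.inl hx))
  refine LM_dual (B := {Lab.tp 0} ∪ vlt I l) hB ?_ ?_ ?_
  · -- independence of the base
    refine FD2_coord (fun _ => 1) (fun x => match x with
      | .tp _ => (0, 0)
      | .vx i n => (i, n)
      | .rm i n => (i, n)) (fun _ _ => one_ne_zero) ?_ ?_
    · intro x hx y hy hxy
      rw [Finset.mem_coe, Finset.mem_union, Finset.mem_singleton, mem_vlt] at hx hy
      rcases hx with rfl | ⟨i, hi, n, hn, rfl⟩ <;> rcases hy with rfl | ⟨j, hj, k, hk, rfl⟩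
      · rfl
      · simp only [Prod.mk.injEq] at hxy
        exact absurd (hxy.1 ▸ hj) h0
      · simp only [Prod.mk.injEq] at hxy
        exact absurd (hxy.1 ▸ hi) h0
      · simp only [Prod.mk.injEq] at hxy
        rw [hxy.1, hxy.2]
    · intro x hx
      rw [Finset.mem_coe, Finset.mem_union, Finset.mem_singleton, mem_vlt] at hx
      rcases hx with rfl | ⟨i, hi, n, hn, rfl⟩
      · simp [DeV]
      · rw [DeV_vx g I hn, one_smul]
  · -- independence of the complement
    refine FD2_coord (fun x => match x with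
      | .tp _ => 1
      | .vx _ _ => 1
      | .rm _ _ => g⁻¹) (fun x => match x with
      | .tp _ => (0, 0)
      | .vx i n => (i, n)
      | .rm i n => (i, l i - 1 - n)) ?_ ?_ ?_
    · intro x _
      cases x
      · exact one_ne_zero
      · exact hgi
      · exact one_ne_zero
    · intro x hx y hy hxy
      rw [Finset.mem_coe, Finset.mem_sdiff, mem_DeE, Finset.mem_union, Finset.mem_singleton,
        mem_vlt] at hx hy
      obtain ⟨hx, hx'⟩ := hx
      obtain ⟨hy, hy'⟩ := hy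
      rcases hx with ⟨h, rfl⟩ | ⟨h, rfl⟩ | ⟨i, hi, n, hn, rfl⟩ | ⟨i, hi, n, hn, rfl⟩
      · exact absurd (Or.inl rfl) hx'
      · rcases hy with ⟨h, rfl⟩ | ⟨h, rfl⟩ | ⟨j, hj, k, hk, rfl⟩ | ⟨j, hj, k, hk, rfl⟩
        · exact absurd (Or.inl rfl) hy'
        · rfl
        · exact absurd (Or.inr ⟨j, hj, k, hk, rfl⟩) hy'
        · simp only [Prod.mk.injEq] at hxy
          exact absurd (hxy.1 ▸ hj) h0
      · exact absurd (Or.inr ⟨i, hi, n, hn, rfl⟩) hx'
      · rcases hy with ⟨h, rfl⟩ | ⟨h, rfl⟩ | ⟨j, hj, k, hk, rfl⟩ | ⟨j, hj, k, hk, rfl⟩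
        · exact absurd (Or.inl rfl) hy'
        · simp only [Prod.mk.injEq] at hxy
          exact absurd (hxy.1 ▸ hi) h0
        · exact absurd (Or.inr ⟨j, hj, k, hk, rfl⟩) hy'
        · simp only [Prod.mk.injEq] at hxy
          obtain ⟨rfl, h2⟩ := hxy
          congr 1
          omega
    · intro x hx
      rw [Finset.mem_coe, Finset.mem_sdiff, mem_DeE, Finset.mem_union, Finset.mem_singleton,
        mem_vlt] at hx
      obtain ⟨hx, hx'⟩ := hx
      rcases hx with ⟨h, rfl⟩ | ⟨h, rfl⟩ | ⟨i, hi, n, hn, rfl⟩ | ⟨i, hi, n, hn, rfl⟩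
      · exact absurd (Or.inl rfl) hx'
      · simp [deS, deδ, DeV]
      · exact absurd (Or.inr ⟨i, hi, n, hn, rfl⟩) hx'
      · simp only [deS, deδ]
        rw [DeV_vx g I (by omega)]
  · -- orthogonality
    intro φ ψ
    have hd1 : Disjoint (tps true true) (vlt I l ∪ rims I l) := by
      rw [Finset.disjoint_left]
      intro x hx hx'
      rw [mem_tps] at hx
      rw [Finset.mem_union] at hx'
      rcases hx with ⟨-, rfl⟩ | ⟨-, rfl⟩ <;> rcases hx' with h | h
      · exact tp_notMem_vlt h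
      · exact tp_notMem_rims h
      · exact tp_notMem_vlt h
      · exact tp_notMem_rims h
    have hd2 : Disjoint (vlt I l) (rims I l) := by
      rw [Finset.disjoint_left]
      intro x hx hx'
      rw [mem_vlt] at hx
      obtain ⟨i, hi, n, hn, rfl⟩ := hx
      exact vx_notMem_rims hx'
    rw [DeE, Finset.sum_union hd1, Finset.sum_union hd2, sum_tps, sum_vlt, sum_rims,
      ← Finset.sum_add_distrib]
    have hleg : ∀ i ∈ I, (∑ n ∈ Finset.range (l i), φ (DeV g I l (.vx i n)) *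
          ψ (deS g (.vx i n) • DeV g I l (deδ l (.vx i n))) +
        ∑ n ∈ Finset.range (l i), φ (DeV g I l (.rm i n)) *
          ψ (deS g (.rm i n) • DeV g I l (deδ l (.rm i n)))) =
        φ (e 0 0) * ψ (e i 0) + φ (e i 0) * ψ (e 0 0) := by
      intro i hi
      have hli := hl i hi
      obtain ⟨w, hw⟩ : ∃ w : ℕ → VV, ∀ n, w n = msu l (fun i => e i 0) (fun _ => g • e 0 0) i n :=
        ⟨_, fun _ => rfl⟩
      have hw0 : w 0 = e i 0 := by rw [hw]; simp [msu]
      have hwl : w (l i) = g • e 0 0 := by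
        rw [hw, msu, if_neg (by omega), if_pos rfl]
      have e1 : ∀ n, DeV g I l (.vx i n) = w n := fun n => (hw n).symm
      have e2 : ∀ n, DeV g I l (.rm i n) = w n + w (n + 1) := by
        intro n
        rw [hw, hw]
        rfl
      have ht := tele (fun n => φ (w n)) (fun n => g⁻¹ * ψ (w (l i - 1 - n))) (l i) hli
      simp only [Nat.sub_zero] at ht
      rw [hw0, hwl, show l i - 1 - (l i - 1) = 0 by omega, hw0, map_smul, smul_eq_mul] at ht
      have e3 : ∑ n ∈ Finset.range (l i), φ (DeV g I l (.vx i n)) *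
          ψ (deS g (.vx i n) • DeV g I l (deδ l (.vx i n))) =
          φ (w 0) * (g⁻¹ * ψ (w (l i - 1)) + ψ (e 0 0)) +
          ∑ n ∈ Finset.Ioo 0 (l i), φ (w n) * (g⁻¹ * ψ (w (l i - 1 - (n - 1))) +
            g⁻¹ * ψ (w (l i - 1 - n))) := by
        have hr : Finset.range (l i) = insert 0 (Finset.Ioo 0 (l i)) := by
          ext n
          simp only [Finset.mem_range, Finset.mem_insert, Finset.mem_Ioo]
          omega
        rw [hr, Finset.sum_insert (by simp)]
        congr 1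
        · simp only [deS, deδ, Nat.sub_zero]
          rw [e1, e2, map_smul, map_add, smul_eq_mul, mul_add,
            show l i - 1 + 1 = l i by omega, hwl, map_smul, smul_eq_mul, ← mul_assoc g⁻¹ g,
            inv_mul_cancel₀ hg, one_mul]
        · apply Finset.sum_congr rfl
          intro n hn
          rw [Finset.mem_Ioo] at hn
          simp only [deS, deδ]
          rw [e1, e2, map_smul, map_add, smul_eq_mul, mul_add,
            show l i - 1 - (n - 1) = l i - 1 - n + 1 by omega]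
          ring
      have e4 : ∑ n ∈ Finset.range (l i), φ (DeV g I l (.rm i n)) *
          ψ (deS g (.rm i n) • DeV g I l (deδ l (.rm i n))) =
          ∑ n ∈ Finset.range (l i), (φ (w n) + φ (w (n + 1))) * (g⁻¹ * ψ (w (l i - 1 - n))) := by
        apply Finset.sum_congr rfl
        intro n _
        simp only [deS, deδ]
        rw [e1, e2, map_smul, map_add, smul_eq_mul]
      rw [e3, e4, hw0]
      have hfin : ∀ p q r s t : F4, r + q = p * s + t →
          p * (s + (ψ (e 0 0))) + q + r = t + p * ψ (e 0 0) := by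
        intro p q r s t h
        calc p * (s + ψ (e 0 0)) + q + r = (r + q) + p * s + p * ψ (e 0 0) := by ring
          _ = (p * s + t) + p * s + p * ψ (e 0 0) := by rw [h]
          _ = (p * s + p * s) + t + p * ψ (e 0 0) := by ring
          _ = t + p * ψ (e 0 0) := by rw [F4.add_self, zero_add]
      rw [hfin _ _ _ _ _ ht]
      congr 1
      calc g * φ (e 0 0) * (g⁻¹ * ψ (e i 0)) = (g * g⁻¹) * (φ (e 0 0) * ψ (e i 0)) := by ring
        _ = φ (e 0 0) * ψ (e i 0) := by rw [mul_inv_cancel₀ hg, one_mul]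
    rw [Finset.sum_congr rfl hleg]
    simp only [if_true, deS, deδ, one_smul, DeV, vec_tp]
    simp only [Nat.sub_zero, one_ne_zero, if_false, Dec, map_add, map_sum,
      Finset.sum_add_distrib, ← Finset.mul_sum, ← Finset.sum_mul]
    have hx : ∀ p q r s : F4, p * (q + r) + (p + s) * q + (p * r + s * q) = 0 := by
      intro p q r s
      calc p * (q + r) + (p + s) * q + (p * r + s * q)
          = (p * q + p * q) + (p * r + p * r) + (s * q + s * q) := by ring
        _ = 0 := by simp only [F4.add_self, add_zero]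
    exact hx _ _ _ _

theorem de_dual (g : F4) (hg : g ≠ 0) (a b : Bool) (I : Finset ℕ) (h0 : 0 ∉ I) (l : ℕ → ℕ)
    (hl : ∀ i ∈ I, 1 ≤ l i) :
    MIso (LM (DeE a b I l) ((DeK b I).mkQ ∘ DeV g I l))✶
      (LM (DeE b a I l) ((DeK a I).mkQ ∘ DeV g I l)) := by
  have hgi : g⁻¹ ≠ 0 := inv_ne_zero hg
  have h := LM_minor_dual (E := DeE true true I l) (E' := DeE true true I l)
    (C := tps false (!b)) (D := tps (!a) false) (u := DeV g I l) (u' := DeV g I l)
    (δ := deδ l) (s := deS g)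
    (by
      intro x _
      cases x
      · exact hgi
      · exact hgi
      · exact one_ne_zero)
    (deδ_bij I l) (de_dual_tt g hg I h0 l hl)
    (by
      intro x hx
      rw [mem_tps] at hx
      rw [mem_DeE]
      rcases hx with ⟨h, rfl⟩ | ⟨h, rfl⟩
      · exact Or.inl ⟨rfl, rfl⟩
      · exact Or.inr (Or.inl ⟨rfl, rfl⟩))
    (by
      intro x hx
      rw [mem_tps] at hx
      rw [mem_DeE]
      rcases hx with ⟨h, rfl⟩ | ⟨h, rfl⟩
      · exact Or.inl ⟨rfl, rfl⟩
      · exact Or.inr (Or.inl ⟨rfl, rfl⟩))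
    (by
      rw [Finset.disjoint_left]
      intro x hx hx'
      rw [mem_tps] at hx hx'
      rcases hx with ⟨h, rfl⟩ | ⟨h, rfl⟩ <;> rcases hx' with ⟨h', h2⟩ | ⟨h', h2⟩
      · exact absurd h (by simp)
      · exact absurd h (by simp)
      · exact absurd h2 (by simp)
      · exact absurd h' (by simp))
  have e1 : DeE true true I l \ (tps false (!b) ∪ tps (!a) false) = DeE a b I l := by
    ext x
    rw [Finset.mem_sdiff, mem_DeE, mem_DeE, Finset.mem_union, mem_tps, mem_tps]
    constructor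
    · rintro ⟨h1, h2⟩
      rcases h1 with ⟨-, rfl⟩ | ⟨-, rfl⟩ | h1 | h1
      · left
        refine ⟨?_, rfl⟩
        by_contra hc
        exact h2 (Or.inr (Or.inl ⟨by simpa using hc, rfl⟩))
      · right; left
        refine ⟨?_, rfl⟩
        by_contra hc
        exact h2 (Or.inl (Or.inr ⟨by simpa using hc, rfl⟩))
      · exact Or.inr (Or.inr (Or.inl h1))
      · exact Or.inr (Or.inr (Or.inr h1))
    · rintro (⟨h1, rfl⟩ | ⟨h1, rfl⟩ | h1 | h1)
      · exact ⟨Or.inl ⟨rfl, rfl⟩, by simp [h1]⟩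
      · exact ⟨Or.inr (Or.inl ⟨rfl, rfl⟩), by simp [h1]⟩
      · refine ⟨Or.inr (Or.inr (Or.inl h1)), ?_⟩
        obtain ⟨i, hi, n, hn, rfl⟩ := h1
        simp
      · refine ⟨Or.inr (Or.inr (Or.inr h1)), ?_⟩
        obtain ⟨i, hi, n, hn, rfl⟩ := h1
        simp
  have e2 : (tps false (!b) ∪ tps (!a) false).image (deδ l) = tps false (!a) ∪ tps (!b) false := by
    ext x
    rw [Finset.image_union, Finset.mem_union, Finset.mem_union, or_comm]
    cases a <;> cases b <;> simp [tps, deδ]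
  have e3 : DeE true true I l \ (tps false (!a) ∪ tps (!b) false) = DeE b a I l := by
    ext x
    rw [Finset.mem_sdiff, mem_DeE, mem_DeE, Finset.mem_union, mem_tps, mem_tps]
    constructor
    · rintro ⟨h1, h2⟩
      rcases h1 with ⟨-, rfl⟩ | ⟨-, rfl⟩ | h1 | h1
      · left
        refine ⟨?_, rfl⟩
        by_contra hc
        exact h2 (Or.inr (Or.inl ⟨by simpa using hc, rfl⟩))
      · right; left
        refine ⟨?_, rfl⟩
        by_contra hc
        exact h2 (Or.inl (Or.inr ⟨by simpa using hc, rfl⟩))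
      · exact Or.inr (Or.inr (Or.inl h1))
      · exact Or.inr (Or.inr (Or.inr h1))
    · rintro (⟨h1, rfl⟩ | ⟨h1, rfl⟩ | h1 | h1)
      · exact ⟨Or.inl ⟨rfl, rfl⟩, by simp [h1]⟩
      · exact ⟨Or.inr (Or.inl ⟨rfl, rfl⟩), by simp [h1]⟩
      · refine ⟨Or.inr (Or.inr (Or.inl h1)), ?_⟩
        obtain ⟨i, hi, n, hn, rfl⟩ := h1
        simp
      · refine ⟨Or.inr (Or.inr (Or.inr h1)), ?_⟩
        obtain ⟨i, hi, n, hn, rfl⟩ := h1
        simp
  have e4 : span F4 (DeV g I l '' ((tps false (!b) : Finset Lab) : Set Lab)) = DeK b I := by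
    rw [DeK]
    congr 1
    cases b <;> ext w <;> simp [tps, bs, DeV]
  have e5 : span F4 (DeV g I l '' (((tps (!a) false).image (deδ l) : Finset Lab) : Set Lab)) =
      DeK a I := by
    rw [DeK]
    congr 1
    cases a <;> ext w <;> simp [tps, bs, DeV, deδ]
  rw [e1, e2, e3, e4, e5] at h
  exact h

end QG
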