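import Pool.Agent.Lib.QG.FL3

/-!
MP_2e6874_co. Whirls are self dual.
-/

set_option autoImplicit false

namespace QG
open Set Matroid Submodule

def whδ (r : ℕ) : Lab → Lab
  | .rm i n => .vx i (r - 1 - n)
  | .vx i n => .rm i (r - 1 - n)
  | .tp k => .tp k

private theorem mem_WhE {r : ℕ} {x : Lab} :
    x ∈ WhE r ↔ ∃ n < r, x = .vx 0 n ∨ x = .rm 0 n := by
  rw [WhE, Finset.mem_union, mem_vlt, mem_rims]
  constructor
  · rintro (⟨i, hi, n, hn, rfl⟩ | ⟨i, hi, n, hn, rfl⟩)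
    · rw [Finset.mem_singleton] at hi
      subst hi
      exact ⟨n, hn, Or.inl rfl⟩
    · rw [Finset.mem_singleton] at hi
      subst hi
      exact ⟨n, hn, Or.inr rfl⟩
  · rintro ⟨n, hn, rfl | rfl⟩
    · exact Or.inl ⟨0, by simp, n, hn, rfl⟩
    · exact Or.inr ⟨0, by simp, n, hn, rfl⟩

private theorem whδ_mem {r : ℕ} {x : Lab} (hx : x ∈ WhE r) :
    whδ r x ∈ WhE r ∧ whδ r (whδ r x) = x := by
  obtain ⟨n, hn, rfl | rfl⟩ := mem_WhE.1 hx
  · refine ⟨mem_WhE.2 ⟨r - 1 - n, by omega, Or.inr rfl⟩, ?_⟩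
    have : r - 1 - (r - 1 - n) = n := by omega
    simp [whδ, this]
  · refine ⟨mem_WhE.2 ⟨r - 1 - n, by omega, Or.inl rfl⟩, ?_⟩
    have : r - 1 - (r - 1 - n) = n := by omega
    simp [whδ, this]

theorem whδ_bij (r : ℕ) : BijOn (whδ r) (WhE r) (WhE r) := by
  refine ⟨fun x hx => (whδ_mem hx).1, ?_, ?_⟩
  · intro x hx y hy h
    rw [← (whδ_mem hx).2, ← (whδ_mem hy).2, h]
  · intro x hx
    exact ⟨whδ r x, (whδ_mem hx).1, (whδ_mem hx).2⟩

private theorem lio_of_dual {S : Set Lab} {u : Lab → VV}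
    (h : ∀ x ∈ S, ∃ φ : VV →ₗ[F4] F4, φ (u x) ≠ 0 ∧ ∀ y ∈ S, y ≠ x → φ (u y) = 0) :
    LinearIndepOn F4 u S := by
  rw [linearIndepOn_iff']
  intro s g hs hsum i hi
  obtain ⟨φ, h1, h2⟩ := h i (hs hi)
  have h3 := congrArg φ hsum
  rw [map_sum, map_zero, Finset.sum_eq_single i] at h3
  · rw [map_smul, smul_eq_mul] at h3
    exact (mul_eq_zero.1 h3).resolve_right h1
  · intro j hj hji
    rw [map_smul, h2 j (hs hj) hji, smul_zero]
  · intro h4
    exact absurd hi h4

private theorem WhV_vx {r n : ℕ} (hn : n < r) : WhV r (.vx 0 n) = e 0 n := by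
  simp only [WhV, vec_vx, msu]
  by_cases h : n = 0
  · rw [if_pos h, h]
  · rw [if_neg h, if_neg (by omega)]

private theorem msu_lt {r n : ℕ} (hn : n < r) :
    msu (fun _ => r) (fun _ => e 0 0) (fun _ => F4.w • e 0 0) 0 n = e 0 n := by
  simp only [msu]
  by_cases h : n = 0
  · rw [if_pos h, h]
  · rw [if_neg h, if_neg (by omega)]

private theorem msu_eq {r : ℕ} (hr : 1 ≤ r) :
    msu (fun _ => r) (fun _ => e 0 0) (fun _ => F4.w • e 0 0) 0 r = F4.w • e 0 0 := by
  have h : r ≠ 0 := by omega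
  simp [msu, h]

private theorem wh_sum (r : ℕ) (hr : 1 ≤ r) (a c : ℕ → F4) (h1 : a r = F4.w * a 0)
    (h2 : c r = F4.w * c 0) :
    ∑ n ∈ Finset.range r, a n * (c (r - 1 - n) + c (r - 1 - n + 1)) +
      ∑ n ∈ Finset.range r, (a n + a (n + 1)) * c (r - 1 - n) = 0 := by
  have h3 := tele a (fun n => c (r - 1 - n)) r hr
  have h4 : Finset.range r = insert 0 (Finset.Ioo 0 r) := by
    ext n
    simp only [Finset.mem_range, Finset.mem_insert, Finset.mem_Ioo]
    omega
  have h5 : ∑ n ∈ Finset.range r, a n * (c (r - 1 - n) + c (r - 1 - n + 1)) =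
      a 0 * (c (r - 1) + c r) +
        ∑ n ∈ Finset.Ioo 0 r, a n * (c (r - 1 - (n - 1)) + c (r - 1 - n)) := by
    rw [h4, Finset.sum_insert (by simp)]
    congr 1
    · have : r - 1 - 0 + 1 = r := by omega
      rw [this, Nat.sub_zero]
    · refine Finset.sum_congr rfl fun n hn => ?_
      rw [Finset.mem_Ioo] at hn
      have : r - 1 - n + 1 = r - 1 - (n - 1) := by omega
      rw [this, add_comm]
  rw [h5, add_assoc, add_comm (∑ n ∈ Finset.Ioo 0 r, a n * (c (r - 1 - (n - 1)) + c (r - 1 - n))),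
    h3]
  have h6 : r - 1 - (r - 1) = 0 := by omega
  rw [h6, h1, h2, Nat.sub_zero]
  have h7 : ∀ x y z : F4, x * (y + F4.w * z) + (x * y + F4.w * x * z) = 0 := by decide
  exact h7 _ _ _

theorem wh_dual_eq (r : ℕ) (hr : 1 ≤ r) :
    (LM (WhE r) (WhV r))✶ = LM (WhE r) (WhV r ∘ whδ r) := by
  classical
  refine LM_dual (B := vlt {0} (fun _ => r)) (Finset.subset_union_left) ?_ ?_ ?_
  · refine lio_of_dual fun x hx => ?_
    obtain ⟨i, hi, n, hn, rfl⟩ := mem_vlt.1 hx
    rw [Finset.mem_singleton] at hi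
    subst hi
    refine ⟨fn fun p => if p = (0, n) then 1 else 0, ?_, ?_⟩
    · rw [WhV_vx hn, fn_e, if_pos rfl]
      exact one_ne_zero
    · intro y hy hne
      obtain ⟨i', hi', n', hn', rfl⟩ := mem_vlt.1 hy
      rw [Finset.mem_singleton] at hi'
      subst hi'
      rw [WhV_vx hn', fn_e, if_neg]
      intro h
      apply hne
      rw [Prod.mk.injEq] at h
      rw [h.2]
  · have hE : ∀ x ∈ ((WhE r \ vlt {0} (fun _ => r) : Finset Lab) : Set Lab),
        ∃ n < r, x = .rm 0 n := by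
      intro x hx
      rw [Finset.mem_coe, Finset.mem_sdiff] at hx
      obtain ⟨n, hn, rfl | rfl⟩ := mem_WhE.1 hx.1
      · exact absurd (vx_mem_vlt.2 ⟨by simp, hn⟩) hx.2
      · exact ⟨n, hn, rfl⟩
    refine lio_of_dual fun x hx => ?_
    obtain ⟨n, hn, rfl⟩ := hE x hx
    refine ⟨fn fun p => if p = (0, r - 1 - n) then 1 else 0, ?_, ?_⟩
    · rw [Function.comp_apply, whδ, WhV_vx (by omega), fn_e, if_pos rfl]
      exact one_ne_zero
    · intro y hy hne
      obtain ⟨n', hn', rfl⟩ := hE y hy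
      rw [Function.comp_apply, whδ, WhV_vx (by omega), fn_e, if_neg]
      intro h
      apply hne
      rw [Prod.mk.injEq] at h
      have : n' = n := by omega
      rw [this]
  · intro φ ψ
    rw [WhE, Finset.sum_union, sum_vlt, sum_rims]
    · simp only [Finset.sum_singleton, Function.comp_apply, whδ, WhV, vec_vx, vec_rm, map_add]
      refine wh_sum r hr
        (fun n => φ (msu (fun _ => r) (fun _ => e 0 0) (fun _ => F4.w • e 0 0) 0 n))
        (fun n => ψ (msu (fun _ => r) (fun _ => e 0 0) (fun _ => F4.w • e 0 0) 0 n)) ?_ ?_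
      · simp only [msu_eq hr, msu_lt (show 0 < r by omega), map_smul, smul_eq_mul]
      · simp only [msu_eq hr, msu_lt (show 0 < r by omega), map_smul, smul_eq_mul]
    · rw [Finset.disjoint_left]
      intro x hx hy
      obtain ⟨i, hi, n, hn, rfl⟩ := mem_vlt.1 hx
      exact vx_notMem_rims hy

theorem wh_dual (r : ℕ) (hr : 1 ≤ r) :
    MIso (LM (WhE r) (WhV r))✶ (LM (WhE r) (WhV r)) := by
  rw [wh_dual_eq r hr]
  exact LM_relabel (WhV r) (whδ_bij r)

end QG
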