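import Pool.Agent.Lib.QG.FL3

/-!
MP_2e6874_co. Duality of the special case of Th.
-/

set_option autoImplicit false

namespace QG
open Set Matroid Submodule

/-- length of the long strand of the dual -/
def spm (a b : Bool) (m : ℕ) : ℕ := m - 1 + (if a then 1 else 0) + (if b then 1 else 0)

/-- vertex number `p` of the long strand of the dual, as a label -/
def spp (m' p : ℕ) : Lab := if p = 0 then .tp 0 else if p = m' then .tp 1 else .vx 2 p

def spδ (a b : Bool) (m : ℕ) : Lab → Lab
  | .rm i n => if i = 2 then spp (spm a b m) (n + if a then 1 else 0) else .rm i n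
  | .vx _ n => .rm 2 (n - 1 + if a then 1 else 0)
  | .tp k => if k = 0 then .rm 2 0 else .rm 2 (spm a b m - 1)

def spS (a b : Bool) (m : ℕ) : Lab → F4
  | .rm i n => if i = 0 then F4.v else if i = 1 then F4.w else
      if (n + if a then 1 else 0) = spm a b m then F4.v else 1
  | .vx _ _ => 1
  | .tp k => if k = 0 then 1 else F4.v

/-- the elements of `ThE a b (m11 m)` -/
private theorem mem_ThE {a b : Bool} {m : ℕ} {x : Lab} :
    x ∈ ThE a b (m11 m) ↔ (a = true ∧ x = .tp 0) ∨ (b = true ∧ x = .tp 1) ∨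
      (∃ n, 0 < n ∧ n < m ∧ x = .vx 2 n) ∨ x = .rm 0 0 ∨ x = .rm 1 0 ∨ ∃ n < m, x = .rm 2 n := by
  rw [ThE, Finset.mem_union, Finset.mem_union, mem_tps, mem_inn, mem_rims]
  constructor
  · rintro ((⟨h, rfl⟩ | ⟨h, rfl⟩) | (⟨i, hi, n, h1, h2, rfl⟩ | ⟨i, hi, n, h1, rfl⟩))
    · exact Or.inl ⟨h, rfl⟩
    · exact Or.inr (Or.inl ⟨h, rfl⟩)
    · by_cases h3 : i = 2
      · subst h3
        simp only [m11, if_true] at h2
        exact Or.inr (Or.inr (Or.inl ⟨n, h1, h2, rfl⟩))
      · simp only [m11, if_neg h3] at h2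
        omega
    · by_cases h3 : i = 2
      · subst h3
        simp only [m11, if_true] at h1
        exact Or.inr (Or.inr (Or.inr (Or.inr (Or.inr ⟨n, h1, rfl⟩))))
      · simp only [m11, if_neg h3] at h1
        have h4 : n = 0 := by omega
        subst h4
        rw [mem_I3] at hi
        have h5 : i = 0 ∨ i = 1 := by omega
        rcases h5 with rfl | rfl
        · exact Or.inr (Or.inr (Or.inr (Or.inl rfl)))
        · exact Or.inr (Or.inr (Or.inr (Or.inr (Or.inl rfl))))
  · rintro (⟨h, rfl⟩ | ⟨h, rfl⟩ | ⟨n, h1, h2, rfl⟩ | rfl | rfl | ⟨n, h1, rfl⟩)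
    · exact Or.inl (Or.inl ⟨h, rfl⟩)
    · exact Or.inl (Or.inr ⟨h, rfl⟩)
    · exact Or.inr (Or.inl ⟨2, mem_I3.2 (by omega), n, h1, by simpa [m11] using h2, rfl⟩)
    · exact Or.inr (Or.inr ⟨0, mem_I3.2 (by omega), 0, by simp [m11], rfl⟩)
    · exact Or.inr (Or.inr ⟨1, mem_I3.2 (by omega), 0, by simp [m11], rfl⟩)
    · exact Or.inr (Or.inr ⟨2, mem_I3.2 (by omega), n, by simpa [m11] using h1, rfl⟩)

/-- the inverse of `spδ` -/
private def spγ (a b : Bool) (m : ℕ) : Lab → Lab
  | .rm i n => if i = 2 then (if a = true ∧ n = 0 then .tp 0 else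
      if b = true ∧ n + 1 = spm a b m then .tp 1 else .vx 2 (n + 1 - if a then 1 else 0))
      else .rm i n
  | .vx _ n => .rm 2 (n - if a then 1 else 0)
  | .tp k => if k = 0 then .rm 2 0 else .rm 2 (m - 1)

private theorem sp_one {a b : Bool} {m : ℕ} (hm : 2 ≤ m) {x : Lab} (hx : x ∈ ThE a b (m11 m)) :
    spδ a b m x ∈ ThE (!a) (!b) (m11 (spm a b m)) ∧ spγ a b m (spδ a b m x) = x := by
  rw [mem_ThE]
  rw [mem_ThE] at hx
  rcases hx with ⟨rfl, rfl⟩ | ⟨rfl, rfl⟩ | ⟨n, h1, h2, rfl⟩ | rfl | rfl | ⟨n, h1, rfl⟩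
  · have h : 0 < spm true b m := by unfold spm; simp
    constructor
    · refine Or.inr (Or.inr (Or.inr (Or.inr (Or.inr ⟨0, h, ?_⟩))))
      simp [spδ]
    · simp [spδ, spγ]
  · have h : 0 < spm a true m := by unfold spm; simp
    constructor
    · refine Or.inr (Or.inr (Or.inr (Or.inr (Or.inr ⟨spm a true m - 1, by omega, ?_⟩))))
      simp [spδ]
    · have h3 : ¬ (a = true ∧ spm a true m - 1 = 0) := by
        rintro ⟨rfl, h4⟩
        simp only [spm, if_true] at h4
        omega
      have h4 : spm a true m - 1 + 1 = spm a true m := by omega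
      simp [spδ, spγ, h3, h4]
  · constructor
    · refine Or.inr (Or.inr (Or.inr (Or.inr (Or.inr
        ⟨n - 1 + if a then 1 else 0, ?_, by simp [spδ]⟩))))
      cases a <;> cases b <;> simp only [spm, if_true, Bool.false_eq_true, if_false] <;> omega
    · cases a <;> cases b <;> simp only [spδ, spγ, spm, if_true, Bool.false_eq_true, if_false,
        true_and, false_and] <;> (try rw [if_neg (by omega)]) <;> (try rw [if_neg (by omega)]) <;>
        congr 1 <;> omega
  · constructor
    · refine Or.inr (Or.inr (Or.inr (Or.inl ?_)))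
      simp [spδ]
    · simp [spδ, spγ]
  · constructor
    · refine Or.inr (Or.inr (Or.inr (Or.inr (Or.inl ?_))))
      simp [spδ]
    · simp [spδ, spγ]
  · constructor
    · by_cases h2 : (n + if a then 1 else 0) = 0
      · have h3 : a = false := by
          cases a
          · rfl
          · simp at h2
        subst h3
        refine Or.inl ⟨rfl, ?_⟩
        simp only [spδ, spp, if_true]
        rw [if_pos h2]
      · by_cases h3 : (n + if a then 1 else 0) = spm a b m
        · have h4 : b = false := by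
            cases b
            · rfl
            · simp only [spm, if_true] at h3
              omega
          subst h4
          refine Or.inr (Or.inl ⟨rfl, ?_⟩)
          simp only [spδ, spp, if_true]
          rw [if_neg h2, if_pos h3]
        · refine Or.inr (Or.inr (Or.inl ⟨n + if a then 1 else 0, by omega, ?_, ?_⟩))
          · have h4 : (n + if a then 1 else 0) ≤ spm a b m := by
              unfold spm
              omega
            omega
          · simp only [spδ, spp, if_true]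
            rw [if_neg h2, if_neg h3]
    · simp only [spδ, spp, if_true]
      by_cases h2 : (n + if a then 1 else 0) = 0
      · rw [if_pos h2]
        have : n = 0 := by omega
        simp [spγ, this]
      · rw [if_neg h2]
        by_cases h3 : (n + if a then 1 else 0) = spm a b m
        · rw [if_pos h3]
          have : n = m - 1 := by
            unfold spm at h3
            omega
          simp [spγ, this]
        · rw [if_neg h3]
          simp only [spγ]
          congr 1
          omega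

private theorem sp_two {a b : Bool} {m : ℕ} (hm : 2 ≤ m) {y : Lab}
    (hy : y ∈ ThE (!a) (!b) (m11 (spm a b m))) :
    spγ a b m y ∈ ThE a b (m11 m) ∧ spδ a b m (spγ a b m y) = y := by
  rw [mem_ThE]
  rw [mem_ThE] at hy
  rcases hy with ⟨ha, rfl⟩ | ⟨hb, rfl⟩ | ⟨n, h1, h2, rfl⟩ | rfl | rfl | ⟨n, h1, rfl⟩
  · have ha : a = false := by simpa using ha
    subst ha
    refine ⟨Or.inr (Or.inr (Or.inr (Or.inr (Or.inr ⟨0, by omega, ?_⟩)))), ?_⟩
    · simp [spγ]
    · simp [spγ, spδ, spp]
  · have hb : b = false := by simpa using hb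
    subst hb
    refine ⟨Or.inr (Or.inr (Or.inr (Or.inr (Or.inr ⟨m - 1, by omega, ?_⟩)))), ?_⟩
    · simp [spγ]
    · have h3 : (m - 1 + if a then 1 else 0) = spm a false m := by simp [spm]
      have h4 : (m - 1 + if a then 1 else 0) ≠ 0 := by omega
      have h5 : spγ a false m (.tp 1) = .rm 2 (m - 1) := by simp [spγ]
      rw [h5]
      simp only [spδ, if_true, spp]
      rw [if_neg h4, if_pos h3]
  · have h3 : n - (if a then 1 else 0) + (if a then 1 else 0) = n := by
      split_ifs <;> omega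
    have h4 : n - (if a then 1 else 0) < m := by
      unfold spm at h2
      revert h2
      cases a <;> cases b <;> simp only [if_true, Bool.false_eq_true, if_false] <;> intro h2 <;> omega
    refine ⟨Or.inr (Or.inr (Or.inr (Or.inr (Or.inr ⟨_, h4, rfl⟩)))), ?_⟩
    simp only [spγ, spδ, if_true, h3, spp]
    rw [if_neg (by omega), if_neg (by omega)]
  · exact ⟨Or.inr (Or.inr (Or.inr (Or.inl (by simp [spγ])))), by simp [spγ, spδ]⟩
  · exact ⟨Or.inr (Or.inr (Or.inr (Or.inr (Or.inl (by simp [spγ]))))), by simp [spγ, spδ]⟩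
  · by_cases h2 : a = true ∧ n = 0
    · obtain ⟨rfl, rfl⟩ := h2
      exact ⟨Or.inl ⟨rfl, by simp [spγ]⟩, by simp [spγ, spδ]⟩
    · by_cases h3 : b = true ∧ n + 1 = spm a b m
      · have h5 : spγ a b m (.rm 2 n) = .tp 1 := by
          simp only [spγ, if_true]
          rw [if_neg h2, if_pos h3]
        rw [h5]
        refine ⟨Or.inr (Or.inl ⟨h3.1, rfl⟩), ?_⟩
        simp only [spδ]
        rw [if_neg (by omega)]
        congr 1
        omega
      · have h5 : spγ a b m (.rm 2 n) = .vx 2 (n + 1 - if a then 1 else 0) := by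
          simp only [spγ, if_true]
          rw [if_neg h2, if_neg h3]
        rw [h5]
        unfold spm at h1 h3
        refine ⟨Or.inr (Or.inr (Or.inl ⟨_, ?_, ?_, rfl⟩)), ?_⟩
        · revert h2
          cases a <;> simp only [if_true, Bool.false_eq_true, if_false, true_and] <;> omega
        · revert h1 h2 h3
          cases a <;> cases b <;> simp only [if_true, Bool.false_eq_true, if_false, true_and,
            false_and] <;> omega
        · simp only [spδ]
          congr 1
          revert h2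
          cases a <;> simp only [if_true, Bool.false_eq_true, if_false, true_and] <;> omega

theorem spδ_bij (a b : Bool) (m : ℕ) (hm : 2 ≤ m) :
    BijOn (spδ a b m) (ThE a b (m11 m)) (ThE (!a) (!b) (m11 (spm a b m))) := by
  refine ⟨fun x hx => (sp_one hm hx).1, ?_, ?_⟩
  · intro x hx y hy h
    rw [← (sp_one hm hx).2, ← (sp_one hm hy).2, h]
  · intro y hy
    exact ⟨spγ a b m y, (sp_two hm hy).1, (sp_two hm hy).2⟩

/-! ### the vectors of the long strand -/

private theorem lio_of_dual {S : Set Lab} {u : Lab → VV}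
    (h : ∀ x ∈ S, ∃ φ : VV →ₗ[F4] F4, φ (u x) ≠ 0 ∧ ∀ y ∈ S, y ≠ x → φ (u y) = 0) :
    LinearIndepOn F4 u S := by
  rw [linearIndepOn_iff']
  intro s g hs hsum i hi
  obtain ⟨φ, h1, h2⟩ := h i (hs hi)
  have h3 := congrArg φ hsum
  rw [map_sum, map_zero, Finset.sum_eq_single i] at h3
  · rw [map_smul, smul_eq_mul] at h3
    exact (mul_eq_zero.1 h3).resolve_right h1
  · intro j hj hji
    rw [map_smul, h2 j (hs hj) hji, smul_zero]
  · intro h4
    exact absurd hi h4

/-- vertex number `n` of the long strand -/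
private noncomputable def sv (m n : ℕ) : VV :=
  msu (m11 m) (fun _ => e 3 0) (fun i => g3 i • e 3 1) 2 n

private theorem sv_zero (m : ℕ) : sv m 0 = e 3 0 := by simp [sv, msu]
private theorem sv_last {m : ℕ} (hm : 1 ≤ m) : sv m m = F4.v • e 3 1 := by
  have h : m ≠ 0 := by omega
  have h2 : g3 2 = F4.v := rfl
  simp [sv, msu, m11, h, h2]
private theorem sv_inn {m n : ℕ} (h0 : 0 < n) (h : n < m) : sv m n = e 2 n := by
  have h1 : n ≠ 0 := by omega
  have h2 : n ≠ m := by omega
  simp [sv, msu, m11, h1, h2]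

private theorem ThV_tp0 (m : ℕ) : ThV (m11 m) (.tp 0) = e 3 0 := by simp [ThV]
private theorem ThV_tp1 (m : ℕ) : ThV (m11 m) (.tp 1) = e 3 1 := by simp [ThV]
private theorem ThV_vx (m n : ℕ) : ThV (m11 m) (.vx 2 n) = sv m n := rfl
private theorem ThV_rm (m n : ℕ) : ThV (m11 m) (.rm 2 n) = sv m n + sv m (n + 1) := rfl
private theorem ThV_rm0 (m : ℕ) : ThV (m11 m) (.rm 0 0) = e 3 0 + e 3 1 := by
  have h2 : g3 0 = 1 := rfl
  simp [ThV, msu, m11, h2]
private theorem ThV_rm1 (m : ℕ) : ThV (m11 m) (.rm 1 0) = e 3 0 + F4.w • e 3 1 := by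
  have h2 : g3 1 = F4.w := rfl
  simp [ThV, msu, m11, h2]

/-- the vector of the point with number `p` on the long strand of the dual -/
private theorem ThV_spp {m' p : ℕ} (hm : 1 ≤ m') (hp : p ≤ m') :
    (if p = m' then F4.v else 1) • ThV (m11 m') (spp m' p) = sv m' p := by
  unfold spp
  by_cases h0 : p = 0
  · subst h0
    rw [if_neg (by omega), if_pos rfl, ThV_tp0, sv_zero, one_smul]
  · by_cases h1 : p = m'
    · rw [if_pos h1, if_neg h0, if_pos h1, ThV_tp1, h1, sv_last hm]
    · rw [if_neg h1, if_neg h0, if_neg h1, ThV_vx, one_smul]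

/-- functionals on the tips -/
private noncomputable def ft (α β : F4) : VV →ₗ[F4] F4 :=
  fn fun p => if p = (3, 0) then α else if p = (3, 1) then β else 0

private theorem ft_t (α β : F4) : ft α β (e 3 0) = α := by simp [ft]
private theorem ft_t' (α β : F4) : ft α β (e 3 1) = β := by simp [ft]
private theorem ft_e (α β : F4) (n : ℕ) : ft α β (e 2 n) = 0 := by simp [ft]

private noncomputable def fi (n : ℕ) : VV →ₗ[F4] F4 := fn fun p => if p = (2, n) then 1 else 0

private theorem fi_t (n : ℕ) : fi n (e 3 0) = 0 := by simp [fi]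
private theorem fi_t' (n : ℕ) : fi n (e 3 1) = 0 := by simp [fi]
private theorem fi_e (n k : ℕ) : fi n (e 2 k) = if k = n then 1 else 0 := by simp [fi]

/-- the basis -/
private def spB (a b : Bool) : Lab → Bool
  | .tp _ => true
  | .vx _ _ => true
  | .rm i _ => (decide (i = 0) && !(a && b)) || (decide (i = 1) && !a && !b)

private theorem mem_B {a b : Bool} {m : ℕ} {x : Lab}
    (hx : x ∈ (((ThE a b (m11 m)).filter fun x => spB a b x = true : Finset Lab) : Set Lab)) :
    (a = true ∧ x = .tp 0) ∨ (b = true ∧ x = .tp 1) ∨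
      (∃ n, 0 < n ∧ n < m ∧ x = .vx 2 n) ∨ ((!(a && b)) = true ∧ x = .rm 0 0) ∨
        ((!a && !b) = true ∧ x = .rm 1 0) := by
  rw [Finset.mem_coe, Finset.mem_filter, mem_ThE] at hx
  obtain ⟨h | h | h | h | h | ⟨n, hn, h⟩, hb⟩ := hx
  · exact Or.inl h
  · exact Or.inr (Or.inl h)
  · exact Or.inr (Or.inr (Or.inl h))
  · subst h
    refine Or.inr (Or.inr (Or.inr (Or.inl ⟨?_, rfl⟩)))
    simpa [spB] using hb
  · subst h
    refine Or.inr (Or.inr (Or.inr (Or.inr ⟨?_, rfl⟩)))
    simpa [spB] using hb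
  · subst h
    simp [spB] at hb

private theorem mem_BC {a b : Bool} {m : ℕ} {x : Lab}
    (hx : x ∈ ((ThE a b (m11 m) \ (ThE a b (m11 m)).filter fun x => spB a b x = true :
      Finset Lab) : Set Lab)) :
    ((a && b) = true ∧ x = .rm 0 0) ∨ ((a || b) = true ∧ x = .rm 1 0) ∨ ∃ n < m, x = .rm 2 n := by
  rw [Finset.mem_coe, Finset.mem_sdiff, Finset.mem_filter, not_and] at hx
  obtain ⟨h1, h2⟩ := hx
  have h2 := h2 h1
  rw [mem_ThE] at h1
  obtain ⟨_, rfl⟩ | ⟨_, rfl⟩ | ⟨n, _, _, rfl⟩ | rfl | rfl | ⟨n, hn, rfl⟩ := h1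
  · simp [spB] at h2
  · simp [spB] at h2
  · simp [spB] at h2
  · refine Or.inl ⟨?_, rfl⟩
    simpa [spB] using h2
  · refine Or.inr (Or.inl ⟨?_, rfl⟩)
    cases a <;> cases b <;> simp_all [spB]
  · exact Or.inr (Or.inr ⟨n, hn, rfl⟩)

private theorem sp_indB {a b : Bool} {m : ℕ} :
    LinearIndepOn F4 (ThV (m11 m))
      (((ThE a b (m11 m)).filter fun x => spB a b x = true : Finset Lab) : Set Lab) := by
  refine lio_of_dual fun x hx => ?_
  obtain ⟨ha, rfl⟩ | ⟨hb, rfl⟩ | ⟨n, h1, h2, rfl⟩ | ⟨hab, rfl⟩ | ⟨hab, rfl⟩ := mem_B hx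
  · subst ha
    refine ⟨ft 1 (if b then 0 else 1), ?_, fun y hy hne => ?_⟩
    · rw [ThV_tp0, ft_t]
      exact one_ne_zero
    · obtain ⟨ha, rfl⟩ | ⟨hb, rfl⟩ | ⟨n, h1, h2, rfl⟩ | ⟨hab, rfl⟩ | ⟨hab, rfl⟩ := mem_B hy
      · exact absurd rfl hne
      · rw [ThV_tp1, ft_t', hb, if_pos rfl]
      · rw [ThV_vx, sv_inn h1 h2, ft_e]
      · have : b = false := by simpa using hab
        subst this
        rw [ThV_rm0, map_add, ft_t, ft_t']
        decide
      · simp at hab
  · subst hb
    refine ⟨ft (if a then 0 else 1) 1, ?_, fun y hy hne => ?_⟩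
    · rw [ThV_tp1, ft_t']
      exact one_ne_zero
    · obtain ⟨ha, rfl⟩ | ⟨hb, rfl⟩ | ⟨n, h1, h2, rfl⟩ | ⟨hab, rfl⟩ | ⟨hab, rfl⟩ := mem_B hy
      · rw [ThV_tp0, ft_t, ha, if_pos rfl]
      · exact absurd rfl hne
      · rw [ThV_vx, sv_inn h1 h2, ft_e]
      · have : a = false := by simpa using hab
        subst this
        rw [ThV_rm0, map_add, ft_t, ft_t']
        decide
      · simp at hab
  · refine ⟨fi n, ?_, fun y hy hne => ?_⟩
    · rw [ThV_vx, sv_inn h1 h2, fi_e, if_pos rfl]
      exact one_ne_zero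
    · obtain ⟨ha, rfl⟩ | ⟨hb, rfl⟩ | ⟨k, h3, h4, rfl⟩ | ⟨hab, rfl⟩ | ⟨hab, rfl⟩ := mem_B hy
      · rw [ThV_tp0, fi_t]
      · rw [ThV_tp1, fi_t']
      · rw [ThV_vx, sv_inn h3 h4, fi_e, if_neg]
        rintro rfl
        exact hne rfl
      · rw [ThV_rm0, map_add, fi_t, fi_t', add_zero]
      · rw [ThV_rm1, map_add, map_smul, fi_t, fi_t', smul_zero, add_zero]
  · refine ⟨ft (if a then 0 else if b then 1 else F4.w) (if b then 0 else 1), ?_,
      fun y hy hne => ?_⟩
    · rw [ThV_rm0, map_add, ft_t, ft_t']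
      revert hab
      cases a <;> cases b <;> simp <;> decide
    · obtain ⟨ha, rfl⟩ | ⟨hb, rfl⟩ | ⟨n, h1, h2, rfl⟩ | ⟨hab', rfl⟩ | ⟨hab', rfl⟩ := mem_B hy
      · rw [ThV_tp0, ft_t, if_pos ha]
      · rw [ThV_tp1, ft_t', if_pos hb]
      · rw [ThV_vx, sv_inn h1 h2, ft_e]
      · exact absurd rfl hne
      · rw [ThV_rm1, map_add, map_smul, ft_t, ft_t']
        revert hab'
        cases a <;> cases b <;> simp <;> decide
  · refine ⟨ft 1 1, ?_, fun y hy hne => ?_⟩
    · rw [ThV_rm1, map_add, map_smul, ft_t, ft_t']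
      decide
    · rw [Bool.and_eq_true, Bool.not_eq_true', Bool.not_eq_true'] at hab
      obtain ⟨rfl, rfl⟩ := hab
      obtain ⟨ha, rfl⟩ | ⟨hb, rfl⟩ | ⟨n, h1, h2, rfl⟩ | ⟨hab', rfl⟩ | ⟨hab', rfl⟩ := mem_B hy
      · simp at ha
      · simp at hb
      · rw [ThV_vx, sv_inn h1 h2, ft_e]
      · rw [ThV_rm0, map_add, ft_t, ft_t']
        decide
      · exact absurd rfl hne

private noncomputable def spg (a b : Bool) (m : ℕ) (x : Lab) : VV :=
  spS a b m x • ThV (m11 (spm a b m)) (spδ a b m x)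

private theorem spm_pos {a b : Bool} {m : ℕ} (hm : 2 ≤ m) : 1 ≤ spm a b m := by
  unfold spm; omega

private theorem spg_rm {a b : Bool} {m n : ℕ} (hm : 2 ≤ m) (hn : n < m) :
    spg a b m (.rm 2 n) = sv (spm a b m) (n + if a then 1 else 0) := by
  have h : (n + if a then 1 else 0) ≤ spm a b m := by unfold spm; omega
  rw [← ThV_spp (spm_pos hm) h]
  rfl

private theorem spg_rm0 (a b : Bool) (m : ℕ) :
    spg a b m (.rm 0 0) = F4.v • (e 3 0 + e 3 1) := by
  simp [spg, spS, spδ, ThV_rm0]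

private theorem spg_rm1 (a b : Bool) (m : ℕ) :
    spg a b m (.rm 1 0) = F4.w • (e 3 0 + F4.w • e 3 1) := by
  simp [spg, spS, spδ, ThV_rm1]

private theorem spg_vx (a b : Bool) (m n : ℕ) :
    spg a b m (.vx 2 n) = sv (spm a b m) (n - 1 + if a then 1 else 0) +
      sv (spm a b m) ((n - 1 + if a then 1 else 0) + 1) := by
  simp [spg, spS, spδ, ThV_rm]

private theorem spg_tp0 (a b : Bool) (m : ℕ) :
    spg a b m (.tp 0) = sv (spm a b m) 0 + sv (spm a b m) 1 := by
  simp [spg, spS, spδ, ThV_rm]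

private theorem spg_tp1 {a b : Bool} {m : ℕ} (hm : 2 ≤ m) :
    spg a b m (.tp 1) = F4.v • (sv (spm a b m) (spm a b m - 1) + sv (spm a b m) (spm a b m)) := by
  have h : spm a b m - 1 + 1 = spm a b m := by have := @spm_pos a b m hm; omega
  simp [spg, spS, spδ, ThV_rm, h]

private theorem sp_indC {a b : Bool} {m : ℕ} (hm : 2 ≤ m) :
    LinearIndepOn F4 (spg a b m) ((ThE a b (m11 m) \ (ThE a b (m11 m)).filter
      fun x => spB a b x = true : Finset Lab) : Set Lab) := by
  have hsv : ∀ n < m, ((n + if a then 1 else 0) = 0 ∧ a = false ∧ n = 0) ∨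
      ((n + if a then 1 else 0) = spm a b m ∧ b = false ∧ n = m - 1) ∨
      (0 < (n + if a then 1 else 0) ∧ (n + if a then 1 else 0) < spm a b m) := by
    intro n hn
    unfold spm
    cases a <;> cases b <;> simp <;> omega
  refine lio_of_dual fun x hx => ?_
  obtain ⟨hab, rfl⟩ | ⟨hab, rfl⟩ | ⟨n, hn, rfl⟩ := mem_BC hx
  · rw [Bool.and_eq_true] at hab
    obtain ⟨rfl, rfl⟩ := hab
    refine ⟨ft F4.w 1, ?_, fun y hy hne => ?_⟩
    · rw [spg_rm0, map_smul, map_add, ft_t, ft_t']
      decide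
    · obtain ⟨hab, rfl⟩ | ⟨hab, rfl⟩ | ⟨n, hn, rfl⟩ := mem_BC hy
      · exact absurd rfl hne
      · rw [spg_rm1, map_smul, map_add, map_smul, ft_t, ft_t']
        decide
      · rw [spg_rm hm hn]
        obtain ⟨_, h, _⟩ | ⟨_, h, _⟩ | ⟨h1, h2⟩ := hsv n hn
        · simp at h
        · simp at h
        · rw [sv_inn h1 h2, ft_e]
  · refine ⟨ft (if a then 1 else 0) (if a && !b then 0 else 1), ?_, fun y hy hne => ?_⟩
    · rw [spg_rm1, map_smul, map_add, map_smul, ft_t, ft_t']
      revert hab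
      cases a <;> cases b <;> simp <;> decide
    · obtain ⟨hab', rfl⟩ | ⟨hab', rfl⟩ | ⟨n, hn, rfl⟩ := mem_BC hy
      · rw [Bool.and_eq_true] at hab'
        obtain ⟨rfl, rfl⟩ := hab'
        rw [spg_rm0, map_smul, map_add, ft_t, ft_t']
        decide
      · exact absurd rfl hne
      · rw [spg_rm hm hn]
        obtain ⟨h1, rfl, _⟩ | ⟨h1, rfl, _⟩ | ⟨h1, h2⟩ := hsv n hn
        · rw [h1, sv_zero, ft_t]
          rfl
        · rw [h1, sv_last (spm_pos hm), map_smul, ft_t']
          have : a = true := by simpa using hab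
          subst this
          rfl
        · rw [sv_inn h1 h2, ft_e]
  · obtain ⟨h1, rfl, h3⟩ | ⟨h1, rfl, h3⟩ | ⟨h1, h2⟩ := hsv n hn
    · refine ⟨ft F4.w (if b then 1 else 0), ?_, fun y hy hne => ?_⟩
      · rw [spg_rm hm hn, h1, sv_zero, ft_t]
        decide
      · obtain ⟨hab', rfl⟩ | ⟨hab', rfl⟩ | ⟨k, hk, rfl⟩ := mem_BC hy
        · simp at hab'
        · have : b = true := by simpa using hab'
          subst this
          rw [spg_rm1, map_smul, map_add, map_smul, ft_t, ft_t']
          decide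
        · rw [spg_rm hm hk]
          obtain ⟨h4, _, h5⟩ | ⟨h4, rfl, h5⟩ | ⟨h4, h5⟩ := hsv k hk
          · rw [h3, h5] at hne
            exact absurd rfl hne
          · rw [h4, sv_last (spm_pos hm), map_smul, ft_t']
            rfl
          · rw [sv_inn h4 h5, ft_e]
    · refine ⟨ft (if a then F4.w else 0) 1, ?_, fun y hy hne => ?_⟩
      · rw [spg_rm hm hn, h1, sv_last (spm_pos hm), map_smul, ft_t']
        decide
      · obtain ⟨hab', rfl⟩ | ⟨hab', rfl⟩ | ⟨k, hk, rfl⟩ := mem_BC hy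
        · simp at hab'
        · have : a = true := by simpa using hab'
          subst this
          rw [spg_rm1, map_smul, map_add, map_smul, ft_t, ft_t']
          decide
        · rw [spg_rm hm hk]
          obtain ⟨h4, rfl, h5⟩ | ⟨h4, _, h5⟩ | ⟨h4, h5⟩ := hsv k hk
          · rw [h4, sv_zero, ft_t]
            rfl
          · rw [h3, h5] at hne
            exact absurd rfl hne
          · rw [sv_inn h4 h5, ft_e]
    · refine ⟨fi (n + if a then 1 else 0), ?_, fun y hy hne => ?_⟩
      · rw [spg_rm hm hn, sv_inn h1 h2, fi_e, if_pos rfl]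
        exact one_ne_zero
      · obtain ⟨hab', rfl⟩ | ⟨hab', rfl⟩ | ⟨k, hk, rfl⟩ := mem_BC hy
        · rw [spg_rm0, map_smul, map_add, fi_t, fi_t', add_zero, smul_zero]
        · rw [spg_rm1, map_smul, map_add, map_smul, fi_t, fi_t', smul_zero, add_zero, smul_zero]
        · rw [spg_rm hm hk]
          obtain ⟨h4, _, h5⟩ | ⟨h4, _, h5⟩ | ⟨h4, h5⟩ := hsv k hk
          · rw [h4, sv_zero, fi_t]
          · rw [h4, sv_last (spm_pos hm), map_smul, fi_t', smul_zero]
          · rw [sv_inn h4 h5, fi_e, if_neg]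
            intro h6
            have : k = n := by omega
            subst this
            exact hne rfl

private theorem sum_E {X : Type} [AddCommMonoid X] (a b : Bool) (m : ℕ) (f : Lab → X) :
    ∑ x ∈ ThE a b (m11 m), f x =
      ((if a then f (.tp 0) else 0) + (if b then f (.tp 1) else 0)) +
      (∑ n ∈ Finset.Ioo 0 m, f (.vx 2 n) +
        (f (.rm 0 0) + (f (.rm 1 0) + ∑ n ∈ Finset.range m, f (.rm 2 n)))) := by
  classical
  rw [ThE, Finset.sum_union, Finset.sum_union, sum_tps, sum_inn, sum_rims]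
  · congr 1
    have h0 : m11 m 0 = 1 := rfl
    have h1 : m11 m 1 = 1 := rfl
    have h2 : m11 m 2 = m := rfl
    have h3 : Finset.Ioo 0 1 = ∅ := by decide
    have h4 : (0 : ℕ) ∉ ({1, 2} : Finset ℕ) := by decide
    have h5 : (1 : ℕ) ∉ ({2} : Finset ℕ) := by decide
    rw [I3, Finset.sum_insert h4, Finset.sum_insert h5, Finset.sum_singleton,
      Finset.sum_insert h4, Finset.sum_insert h5, Finset.sum_singleton, h0, h1, h2, h3]
    simp only [Finset.sum_empty, zero_add, Finset.sum_range_one]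
  · rw [Finset.disjoint_left]
    intro x hx hy
    obtain ⟨i, _, n, _, _, rfl⟩ := mem_inn.1 hx
    exact vx_notMem_rims hy
  · rw [Finset.disjoint_left]
    intro x hx hy
    obtain ⟨_, rfl⟩ | ⟨_, rfl⟩ := mem_tps.1 hx
    · rcases Finset.mem_union.1 hy with h | h
      · exact tp_notMem_inn h
      · exact tp_notMem_rims h
    · rcases Finset.mem_union.1 hy with h | h
      · exact tp_notMem_inn h
      · exact tp_notMem_rims h

private theorem sp_ort {a b : Bool} {m : ℕ} (hm : 2 ≤ m) (φ ψ : VV →ₗ[F4] F4) :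
    ∑ x ∈ ThE a b (m11 m), φ (ThV (m11 m) x) * ψ (spg a b m x) = 0 := by
  rw [sum_E, ThV_tp0, ThV_tp1, spg_tp0, spg_tp1 hm, spg_rm0, spg_rm1, ThV_rm0, ThV_rm1]
  have h1 : ∑ n ∈ Finset.Ioo 0 m, φ (ThV (m11 m) (.vx 2 n)) * ψ (spg a b m (.vx 2 n)) =
      ∑ n ∈ Finset.Ioo 0 m, φ (sv m n) *
        (ψ (sv (spm a b m) (n - 1 + if a then 1 else 0)) +
          ψ (sv (spm a b m) (n + if a then 1 else 0))) := by
    refine Finset.sum_congr rfl fun n hn => ?_
    rw [Finset.mem_Ioo] at hn
    have : (n - 1 + if a then 1 else 0) + 1 = n + if a then 1 else 0 := by omega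
    rw [ThV_vx, spg_vx, this, map_add]
  have h2 : ∑ n ∈ Finset.range m, φ (ThV (m11 m) (.rm 2 n)) * ψ (spg a b m (.rm 2 n)) =
      ∑ n ∈ Finset.range m, (φ (sv m n) + φ (sv m (n + 1))) *
        ψ (sv (spm a b m) (n + if a then 1 else 0)) := by
    refine Finset.sum_congr rfl fun n hn => ?_
    rw [Finset.mem_range] at hn
    rw [ThV_rm, spg_rm hm hn, map_add]
  have h3 := tele (fun n => φ (sv m n)) (fun n => ψ (sv (spm a b m) (n + if a then 1 else 0))) m
    (by omega)
  rw [h1, h2]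
  have h4 : ∀ T T' S R P Q U : F4, R + S = U → T + T' + (P + Q) + U = 0 →
      T + T' + (S + (P + (Q + R))) = 0 := by
    intro T T' S R P Q U h h'
    rw [← h', ← h]
    ring
  refine h4 _ _ _ _ _ _ _ h3 ?_
  have hA : (if a then φ (e 3 0) * ψ (sv (spm a b m) 0 + sv (spm a b m) 1) else 0) +
      φ (sv m 0) * ψ (sv (spm a b m) (0 + if a then 1 else 0)) = φ (e 3 0) * ψ (e 3 0) := by
    have h5 : ∀ x y z : F4, x * (y + z) + x * z = x * y := by decide
    cases a
    · simp [sv_zero]
    · simp only [if_true, map_add, sv_zero, zero_add]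
      exact h5 _ _ _
  have hB : (if b then φ (e 3 1) * ψ (F4.v • (sv (spm a b m) (spm a b m - 1) +
      sv (spm a b m) (spm a b m))) else 0) +
      φ (sv m m) * ψ (sv (spm a b m) (m - 1 + if a then 1 else 0)) =
        F4.v * φ (e 3 1) * (F4.v * ψ (e 3 1)) := by
    have h5 : ∀ x y z : F4, x * (F4.v * (z + y)) + F4.v * x * z = F4.v * x * y := by decide
    cases b
    · have h6 : (m - 1 + if a then 1 else 0) = spm a false m := by simp [spm]
      rw [h6, sv_last (show 1 ≤ m by omega), sv_last (spm_pos hm)]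
      simp
    · have h6 : (m - 1 + if a then 1 else 0) = spm a true m - 1 := by simp [spm]
      rw [h6, sv_last (show 1 ≤ m by omega), sv_last (spm_pos hm)]
      simp only [if_true, map_add, map_smul, smul_eq_mul]
      exact h5 _ _ _
  have h7 : ∀ T T' P U V X Y : F4, T + U = X → T' + V = Y → X + Y + P = 0 →
      T + T' + P + (U + V) = 0 := by
    intro T T' P U V X Y h h' h''
    rw [← h'', ← h, ← h']
    ring
  refine h7 _ _ _ _ _ _ _ hA hB ?_
  simp only [map_add, map_smul, smul_eq_mul]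
  have h8 : ∀ x x' y y' : F4, x * y + F4.v * x' * (F4.v * y') +
      ((x + x') * (F4.v * (y + y')) + (x + F4.w * x') * (F4.w * (y + F4.w * y'))) = 0 := by
    decide
  exact h8 _ _ _ _

theorem sp_dual_eq (a b : Bool) (m : ℕ) (hm : 2 ≤ m) :
    (LM (ThE a b (m11 m)) (ThV (m11 m)))✶ =
      LM (ThE a b (m11 m)) (fun x => spS a b m x • ThV (m11 (spm a b m)) (spδ a b m x)) := by
  classical
  exact LM_dual (B := (ThE a b (m11 m)).filter fun x => spB a b x = true)
    (g := spg a b m) (Finset.filter_subset _ _) sp_indB (sp_indC hm) (sp_ort hm)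

private theorem spS_ne (a b : Bool) (m : ℕ) (x : Lab) : spS a b m x ≠ 0 := by
  cases x with
  | vx i n => simp [spS]
  | rm i n =>
    simp only [spS]
    split_ifs <;> decide
  | tp k =>
    simp only [spS]
    split_ifs <;> decide

theorem sp_dual (a b : Bool) (m : ℕ) (hm : 2 ≤ m) :
    MIso (LM (ThE a b (m11 m)) (ThV (m11 m)))✶
      (LM (ThE (!a) (!b) (m11 (spm a b m))) (ThV (m11 (spm a b m)))) := by
  rw [sp_dual_eq a b m hm, LM_scale _ _ fun x _ => spS_ne a b m x]
  exact LM_relabel _ (spδ_bij a b m hm)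

end QG
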