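import Pool.Agent.Lib.QG.FG1

/-!
MP_2e6874_co. The matroids of the family Th are gammoids.
-/

set_option autoImplicit false

namespace QG
open Set Matroid Submodule

/-- the vertices of the strands -/
private noncomputable def FG2_v (m : ℕ → ℕ) (j l : ℕ) : VV :=
  msu m (fun _ => e 3 0) (fun i => g3 i • e 3 1) j l

private theorem FG2_v0 (m : ℕ → ℕ) (j : ℕ) : FG2_v m j 0 = e 3 0 := by
  simp [FG2_v, msu]

private theorem FG2_vm {m : ℕ → ℕ} {j : ℕ} (h : 1 ≤ m j) : FG2_v m j (m j) = g3 j • e 3 1 := by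
  have : m j ≠ 0 := by omega
  simp [FG2_v, msu, this]

private theorem FG2_vi {m : ℕ → ℕ} {j l : ℕ} (h0 : l ≠ 0) (h1 : l ≠ m j) :
    FG2_v m j l = e j l := by
  simp [FG2_v, msu, h0, h1]

private theorem FG2_g3_inj {i j : ℕ} (hi : i < 3) (hj : j < 3) (h : g3 i = g3 j) : i = j := by
  interval_cases i <;> interval_cases j <;> first | rfl | (exfalso; revert h; decide)

private theorem FG2_Z (m : ℕ → ℕ) (hm : ∀ i < 3, 1 ≤ m i) (z : ℕ → ℕ → Prop) (z0 : Prop)
    (h0 : ∀ j < 3, z j 0 ↔ z0) (h1 : ∀ j < 3, ¬ z j (m j)) (φ : VV →ₗ[F4] F4) :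
    ∃ ψ : VV →ₗ[F4] F4, (∀ j < 3, ∀ l ≤ m j, z j l → ψ (FG2_v m j l) = 0) ∧
      (∀ j < 3, ∀ l ≤ m j, ¬ z j l → ψ (FG2_v m j l) = φ (FG2_v m j l)) ∧
      (φ (e 3 0) = 0 → ψ (e 3 0) = 0) ∧ (φ (e 3 1) = 0 → ψ (e 3 1) = 0) := by
  refine ⟨zro {p | (p.1 < 3 ∧ z p.1 p.2) ∨ (p = (3, 0) ∧ z0)} φ, ?_, ?_, ?_, ?_⟩
  · intro j hj l hl hz
    have hlm : l ≠ m j := by
      rintro rfl
      exact h1 j hj hz
    by_cases h : l = 0
    · subst h
      rw [FG2_v0]
      exact zro_mem (Or.inr ⟨rfl, (h0 j hj).1 hz⟩)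
    · rw [FG2_vi h hlm]
      exact zro_mem (Or.inl ⟨hj, hz⟩)
  · intro j hj l hl hz
    by_cases h : l = 0
    · subst h
      rw [FG2_v0]
      refine zro_notMem ?_
      rintro (⟨h, -⟩ | ⟨-, h⟩)
      · simp at h
      · exact hz ((h0 j hj).2 h)
    · by_cases hlm : l = m j
      · subst hlm
        rw [FG2_vm (hm j hj), map_smul, map_smul, zro_notMem]
        rintro (⟨h, -⟩ | ⟨h, -⟩)
        · simp at h
        · simp at h
      · rw [FG2_vi h hlm]
        refine zro_notMem ?_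
        rintro (⟨-, h⟩ | ⟨h, -⟩)
        · exact hz h
        · simp only [Prod.mk.injEq] at h
          omega
  · intro h
    by_cases hz : (3, 0) ∈ {p : ℕ × ℕ | (p.1 < 3 ∧ z p.1 p.2) ∨ (p = (3, 0) ∧ z0)}
    · exact zro_mem hz
    · rw [zro_notMem hz, h]
  · intro h
    by_cases hz : (3, 1) ∈ {p : ℕ × ℕ | (p.1 < 3 ∧ z p.1 p.2) ∨ (p = (3, 0) ∧ z0)}
    · exact zro_mem hz
    · rw [zro_notMem hz, h]

private theorem FG2_cases {m : ℕ → ℕ} {x : Lab}
    (hx : x ∈ (tps true true ∪ inn I3 m) ∪ rims I3 m) :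
    x = .tp 0 ∨ x = .tp 1 ∨ (∃ i < 3, ∃ n, 0 < n ∧ n < m i ∧ x = .vx i n) ∨
      ∃ i < 3, ∃ n, n < m i ∧ x = .rm i n := by
  rw [Finset.mem_union, Finset.mem_union, mem_tps, mem_inn, mem_rims] at hx
  rcases hx with ((⟨-, h⟩ | ⟨-, h⟩) | ⟨i, hi, n, h1, h2, rfl⟩) | ⟨i, hi, n, hn, rfl⟩
  · exact Or.inl h
  · exact Or.inr (Or.inl h)
  · exact Or.inr (Or.inr (Or.inl ⟨i, mem_I3.1 hi, n, h1, h2, rfl⟩))
  · exact Or.inr (Or.inr (Or.inr ⟨i, mem_I3.1 hi, n, hn, rfl⟩))

/-- a cut which is crossed by the rim `(i, n)` and by no rim of `J` -/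
private theorem FG2_cut (m : ℕ → ℕ) (hm : ∀ i < 3, 1 ≤ m i) {J : Set Lab}
    (hJ : J ⊆ (((tps true true ∪ inn I3 m) ∪ rims I3 m : Finset Lab) : Set Lab))
    (φ : VV →ₗ[F4] F4) (hφ : ∀ z ∈ J, φ (ThV m z) = 0) {i n : ℕ} (hi : i < 3) (hn : n < m i)
    (hs : φ (FG2_v m i n) = φ (FG2_v m i (n + 1))) (hs0 : φ (FG2_v m i n) ≠ 0)
    (z : ℕ → ℕ → Prop) (z0 : Prop)
    (h0 : ∀ j < 3, z j 0 ↔ z0) (h1 : ∀ j < 3, ¬ z j (m j))
    (h2 : ∀ j < 3, ∀ l < m j, Lab.rm j l ∈ J → (z j l ↔ z j (l + 1)))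
    (h3 : ¬ (z i n ↔ z i (n + 1))) :
    ∃ ψ : VV →ₗ[F4] F4, (∀ z ∈ J, ψ (ThV m z) = 0) ∧ ψ (ThV m (.rm i n)) ≠ 0 := by
  obtain ⟨ψ, p1, p2, p3, p4⟩ := FG2_Z m hm z z0 h0 h1 φ
  refine ⟨ψ, ?_, ?_⟩
  · intro x hx
    have hφx := hφ x hx
    rcases FG2_cases (Finset.mem_coe.1 (hJ hx)) with rfl | rfl | ⟨j, hj, l, hl0, hl, rfl⟩ |
      ⟨j, hj, l, hl, rfl⟩
    · exact p3 hφx
    · exact p4 hφx
    · change φ (FG2_v m j l) = 0 at hφx
      change ψ (FG2_v m j l) = 0
      by_cases hz : z j l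
      · exact p1 j hj l hl.le hz
      · rw [p2 j hj l hl.le hz, hφx]
    · change φ (FG2_v m j l + FG2_v m j (l + 1)) = 0 at hφx
      change ψ (FG2_v m j l + FG2_v m j (l + 1)) = 0
      rw [map_add] at hφx ⊢
      by_cases hz : z j l
      · rw [p1 j hj l hl.le hz, p1 j hj (l + 1) hl ((h2 j hj l hl hx).1 hz), add_zero]
      · rw [p2 j hj l hl.le hz, p2 j hj (l + 1) hl (fun h => hz ((h2 j hj l hl hx).2 h)), hφx]
  · change ψ (FG2_v m i n + FG2_v m i (n + 1)) ≠ 0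
    rw [map_add]
    by_cases hz : z i n
    · have hz' : ¬ z i (n + 1) := fun h => h3 ⟨fun _ => h, fun _ => hz⟩
      rw [p1 i hi n hn.le hz, p2 i hi (n + 1) hn hz', zero_add, ← hs]
      exact hs0
    · have hz' : z i (n + 1) := by
        by_contra h
        exact h3 ⟨fun h' => absurd h' hz, fun h' => absurd h' h⟩
      rw [p2 i hi n hn.le hz, p1 i hi (n + 1) hn hz', add_zero]
      exact hs0

/-- equal values along consecutive rims -/
private theorem FG2_tele {m : ℕ → ℕ} {J : Set Lab} (φ : VV →ₗ[F4] F4)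
    (hφ : ∀ z ∈ J, φ (ThV m z) = 0) {j a b : ℕ} (hab : a ≤ b)
    (h : ∀ k, a ≤ k → k < b → Lab.rm j k ∈ J) : φ (FG2_v m j a) = φ (FG2_v m j b) := by
  induction b, hab using Nat.le_induction with
  | base => rfl
  | succ b hab ih =>
    rw [ih fun k h1 h2 => h k h1 (by omega)]
    have h1 := hφ _ (h b hab (by omega))
    change φ (FG2_v m j b + FG2_v m j (b + 1)) = 0 at h1
    rw [map_add, vadd_eq_zero] at h1
    exact h1

private theorem FG2_free (m : ℕ → ℕ) (hm : ∀ i < 3, 1 ≤ m i) {J : Set Lab}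
    (hJ : J ⊆ (((tps true true ∪ inn I3 m) ∪ rims I3 m : Finset Lab) : Set Lab))
    (φ : VV →ₗ[F4] F4) (hφ : ∀ z ∈ J, φ (ThV m z) = 0) {i n : ℕ} (hi : i < 3) (hn : n < m i)
    (hx : Lab.rm i n ∉ J) (hne : φ (FG2_v m i n) ≠ 0 ∨ φ (FG2_v m i (n + 1)) ≠ 0) :
    ∃ ψ : VV →ₗ[F4] F4, (∀ z ∈ J, ψ (ThV m z) = 0) ∧ ψ (ThV m (.rm i n)) ≠ 0 := by
  by_cases hs : φ (FG2_v m i n) = φ (FG2_v m i (n + 1))
  swap
  · refine ⟨φ, hφ, ?_⟩
    change φ (FG2_v m i n + FG2_v m i (n + 1)) ≠ 0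
    rw [map_add, Ne, vadd_eq_zero]
    exact hs
  have hs0 : φ (FG2_v m i n) ≠ 0 := by
    rcases hne with h | h
    · exact h
    · rwa [hs]
  by_cases h1 : ∃ k, k < m i ∧ k ≠ n ∧ Lab.rm i k ∉ J
  · obtain ⟨k, hk, hkn, hkJ⟩ := h1
    refine FG2_cut m hm hJ φ hφ hi hn hs hs0
      (fun j l => j = i ∧ ((n < l ∧ l ≤ k) ∨ (k < l ∧ l ≤ n))) False ?_ ?_ ?_ ?_
    · intro j _
      constructor
      · rintro ⟨-, h | h⟩ <;> omega
      · exact False.elim
    · rintro j _ ⟨rfl, h | h⟩ <;> omega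
    · intro j _ l hl hlJ
      have hl1 : j = i → l ≠ n := by
        rintro rfl rfl
        exact hx hlJ
      have hl2 : j = i → l ≠ k := by
        rintro rfl rfl
        exact hkJ hlJ
      constructor
      · rintro ⟨rfl, h⟩
        have := hl1 rfl
        have := hl2 rfl
        exact ⟨rfl, by omega⟩
      · rintro ⟨rfl, h⟩
        have := hl1 rfl
        have := hl2 rfl
        exact ⟨rfl, by omega⟩
    · intro h
      rcases lt_or_gt_of_ne hkn with h' | h'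
      · have := (h.1 ⟨rfl, Or.inr ⟨h', le_rfl⟩⟩).2
        omega
      · have := (h.2 ⟨rfl, Or.inl ⟨by omega, by omega⟩⟩).2
        omega
  · push Not at h1
    by_cases h2 : ∀ j < 3, j ≠ i → ∃ k, k < m j ∧ Lab.rm j k ∉ J
    · have h3 : ∀ j, ∃ k, j < 3 → (k < m j ∧ Lab.rm j k ∉ J ∧ (j = i → k = n)) := by
        intro j
        by_cases hj : j < 3
        · by_cases hji : j = i
          · subst hji
            exact ⟨n, fun _ => ⟨hn, hx, fun _ => rfl⟩⟩
          · obtain ⟨k, hk, hkJ⟩ := h2 j hj hji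
            exact ⟨k, fun _ => ⟨hk, hkJ, fun h => absurd h hji⟩⟩
        · exact ⟨0, fun h => absurd h hj⟩
      choose k hk using h3
      refine FG2_cut m hm hJ φ hφ hi hn hs hs0 (fun j l => l ≤ k j) True ?_ ?_ ?_ ?_
      · intro j _
        exact ⟨fun _ => trivial, fun _ => Nat.zero_le _⟩
      · intro j hj h
        have := (hk j hj).1
        omega
      · intro j hj l hl hlJ
        have hlk : l ≠ k j := by
          rintro rfl
          exact (hk j hj).2.1 hlJ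
        omega
      · have := (hk i hi).2.2 rfl
        rw [this]
        omega
    · exfalso
      push Not at h2
      obtain ⟨j, hj, hji, hall⟩ := h2
      have t1 := FG2_tele φ hφ (j := j) (Nat.zero_le (m j)) fun k _ hk => hall k hk
      have t2 := FG2_tele φ hφ (j := i) (Nat.zero_le n) fun k _ hk =>
        h1 k (by omega) (by omega)
      have t3 := FG2_tele φ hφ (j := i) (a := n + 1) (b := m i) hn fun k h hk =>
        h1 k hk (by omega)
      rw [FG2_v0, FG2_vm (hm j hj), map_smul, smul_eq_mul] at t1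
      rw [FG2_v0] at t2
      rw [FG2_vm (hm i hi), map_smul, smul_eq_mul] at t3
      have t4 : g3 i * φ (e 3 1) = g3 j * φ (e 3 1) := by
        rw [← t3, ← hs, ← t2, t1]
      have t5 : φ (e 3 1) = 0 := by
        by_contra h
        exact hji (FG2_g3_inj hj hi (mul_right_cancel₀ h t4.symm))
      rw [hs, t3, t5, mul_zero] at hs0
      exact hs0 rfl

private def FG2_c : Lab → ℕ × ℕ
  | .vx i n => (i, n)
  | .rm i n => (i, n)
  | .tp k => (3, k)

private theorem FG2_indep (m : ℕ → ℕ) :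
    LinearIndepOn F4 (ThV m) ((tps true true ∪ inn I3 m : Finset Lab) : Set Lab) := by
  have hc : ∀ x ∈ (tps true true ∪ inn I3 m : Finset Lab),
      ThV m x = Finsupp.single (FG2_c x) 1 := by
    intro x hx
    rcases FG2_cases (Finset.mem_union_left _ hx) with rfl | rfl | ⟨j, hj, l, hl0, hl, rfl⟩ |
      ⟨j, hj, l, hl, rfl⟩
    · rfl
    · rfl
    · exact FG2_vi (by omega) (by omega)
    · rw [Finset.mem_union] at hx
      rcases hx with hx | hx
      · exact absurd hx rm_notMem_tps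
      · exact absurd hx rm_notMem_inn
  have hinj : Function.Injective
      (fun x : ((tps true true ∪ inn I3 m : Finset Lab) : Set Lab) => FG2_c x) := by
    rintro ⟨x, hx⟩ ⟨y, hy⟩ h
    have h' : FG2_c x = FG2_c y := h
    rw [Finset.mem_coe] at hx hy
    apply Subtype.ext
    change x = y
    rcases FG2_cases (Finset.mem_union_left _ hx) with rfl | rfl | ⟨j, hj, l, hl0, hl, rfl⟩ |
      ⟨j, hj, l, hl, rfl⟩ <;>
    rcases FG2_cases (Finset.mem_union_left _ hy) with rfl | rfl | ⟨j', hj', l', hl0', hl', rfl⟩ |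
      ⟨j', hj', l', hl', rfl⟩ <;>
    first
    | rfl
    | (exfalso
       rw [Finset.mem_union] at hx hy
       rcases hx with hx | hx
       · exact absurd hx rm_notMem_tps
       · exact absurd hx rm_notMem_inn)
    | (exfalso
       rw [Finset.mem_union] at hx hy
       rcases hy with hy | hy
       · exact absurd hy rm_notMem_tps
       · exact absurd hy rm_notMem_inn)
    | (simp only [FG2_c, Prod.mk.injEq] at h'
       exfalso
       omega)
    | (simp only [FG2_c, Prod.mk.injEq] at h'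
       obtain ⟨rfl, rfl⟩ := h'
       rfl)
  have h1 := (Finsupp.basisSingleOne (R := F4) (ι := ℕ × ℕ)).linearIndependent.comp _ hinj
  have h2 : (fun x : ((tps true true ∪ inn I3 m : Finset Lab) : Set Lab) => ThV m x) =
      (Finsupp.basisSingleOne (R := F4) (ι := ℕ × ℕ)) ∘
        (fun x : ((tps true true ∪ inn I3 m : Finset Lab) : Set Lab) => FG2_c x) := by
    funext x
    rw [Function.comp_apply, Finsupp.coe_basisSingleOne]
    exact hc x (Finset.mem_coe.1 x.2)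
  unfold LinearIndepOn
  rw [h2]
  exact h1

theorem gam_Th (m : ℕ → ℕ) (hm : ∀ i < 3, 1 ≤ m i) :
    Gammoid (LM (ThE true true m) (ThV m)) := by
  have hE : ThE true true m = (tps true true ∪ inn I3 m) ∪ rims I3 m := by
    rw [ThE, Finset.union_assoc]
  rw [hE]
  refine gam_adds ?_ (gam_indep (FG2_indep m))
  intro x hx hxE
  obtain ⟨i, hi, n, hn, rfl⟩ := mem_rims.1 hx
  have hi3 := mem_I3.1 hi
  set l0 : Lab := if n = 0 then .tp 0 else .vx i n with hl0
  set l1 : Lab := if n + 1 = m i then .tp 1 else .vx i (n + 1) with hl1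
  have hu0 : ThV m l0 = FG2_v m i n := by
    rw [hl0]
    split_ifs with h
    · subst h
      rw [FG2_v0]
      rfl
    · rfl
  have hu1 : (n + 1 = m i ∧ FG2_v m i (n + 1) = g3 i • ThV m l1) ∨ FG2_v m i (n + 1) = ThV m l1 := by
    rw [hl1]
    split_ifs with h
    · left
      refine ⟨h, ?_⟩
      rw [h, FG2_vm (hm i hi3)]
      rfl
    · right
      rfl
  refine ⟨{l0, l1}, ?_, ?_, ?_⟩
  · intro y hy
    rw [Finset.mem_insert, Finset.mem_singleton] at hy
    rw [Finset.mem_union, mem_tps, mem_inn]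
    rcases hy with rfl | rfl
    · rw [hl0]
      split_ifs with h
      · exact Or.inl (Or.inl ⟨rfl, rfl⟩)
      · exact Or.inr ⟨i, hi, n, by omega, hn, rfl⟩
    · rw [hl1]
      split_ifs with h
      · exact Or.inl (Or.inr ⟨rfl, rfl⟩)
      · exact Or.inr ⟨i, hi, n + 1, by omega, by omega, rfl⟩
  · change FG2_v m i n + FG2_v m i (n + 1) ∈ _
    have m0 : ThV m l0 ∈ span F4 (ThV m '' (({l0, l1} : Finset Lab) : Set Lab)) :=
      subset_span ⟨l0, by simp, rfl⟩
    have m1 : ThV m l1 ∈ span F4 (ThV m '' (({l0, l1} : Finset Lab) : Set Lab)) :=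
      subset_span ⟨l1, by simp, rfl⟩
    refine add_mem (hu0 ▸ m0) ?_
    rcases hu1 with ⟨-, h⟩ | h
    · rw [h]
      exact smul_mem _ _ m1
    · rw [h]
      exact m1
  · intro J hJ hxJ y hy φ hφ hne
    refine FG2_free m hm hJ φ hφ hi3 hn hxJ ?_
    rw [Finset.mem_insert, Finset.mem_singleton] at hy
    rcases hy with rfl | rfl
    · left
      rw [← hu0]
      exact hne
    · right
      rcases hu1 with ⟨-, h⟩ | h
      · rw [h, map_smul, smul_eq_mul]
        refine mul_ne_zero ?_ hne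
        unfold g3
        split_ifs <;> decide
      · rw [h]
        exact hne

end QG
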