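import Pool.Agent.Lib.QG.FG1

/-!
MP_2e6874_co. The matroids of the family De are gammoids.
-/

set_option autoImplicit false

namespace QG
open Set Matroid Submodule

/-- the part of a functional on the coordinates `(i, k)`, `k ≤ n` -/
private noncomputable def FG3_cut (φ : VV →ₗ[F4] F4) (i n : ℕ) : VV →ₗ[F4] F4 :=
  Finsupp.linearCombination F4
    (fun p : ℕ × ℕ => if p.1 = i ∧ p.2 ≤ n then φ (e p.1 p.2) else 0)

private theorem FG3_cut_e (φ : VV →ₗ[F4] F4) (i n j k : ℕ) :
    FG3_cut φ i n (e j k) = if j = i ∧ k ≤ n then φ (e j k) else 0 := by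
  unfold FG3_cut
  conv_lhs => rw [e]
  rw [Finsupp.linearCombination_single, one_smul]

private theorem FG3_msu_lt {g : F4} {l : ℕ → ℕ} {i n : ℕ} (h : n < l i) :
    msu l (fun i => e i 0) (fun _ => g • e 0 0) i n = e i n := by
  unfold msu
  split_ifs with h1 h2
  · rw [h1]
  · omega
  · rfl

private theorem FG3_msu_top {g : F4} {l : ℕ → ℕ} {i : ℕ} (h : 1 ≤ l i) :
    msu l (fun i => e i 0) (fun _ => g • e 0 0) i (l i) = g • e 0 0 := by
  unfold msu
  rw [if_neg (by omega), if_pos rfl]

private theorem FG3_cut_msu {g : F4} {l : ℕ → ℕ} {i n : ℕ} (hi : i ≠ 0) (hn : n < l i)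
    (φ : VV →ₗ[F4] F4) {j k : ℕ} (hl : 1 ≤ l j) (hk : k ≤ l j) :
    FG3_cut φ i n (msu l (fun i => e i 0) (fun _ => g • e 0 0) j k) =
      if j = i ∧ k ≤ n then φ (msu l (fun i => e i 0) (fun _ => g • e 0 0) j k) else 0 := by
  rcases hk.lt_or_eq with h | h
  · rw [FG3_msu_lt h, FG3_cut_e]
  · subst h
    rw [FG3_msu_top hl, map_smul, FG3_cut_e, if_neg (fun h => hi h.1.symm), smul_zero, if_neg]
    rintro ⟨rfl, h2⟩
    omega

private theorem FG3_kill {g : F4} {I : Finset ℕ} {l : ℕ → ℕ} (h0 : 0 ∉ I)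
    (hl : ∀ i ∈ I, 1 ≤ l i) {i n : ℕ} (hi : i ∈ I) (hn : n < l i) {J : Set Lab}
    (hJ : J ⊆ ((DeE true false I l : Finset Lab) : Set Lab)) (hx : Lab.rm i n ∉ J)
    {φ : VV →ₗ[F4] F4} (hφ : ∀ z ∈ J, φ (DeV g I l z) = 0) :
    ∀ z ∈ J, FG3_cut φ i n (DeV g I l z) = 0 := by
  have hi0 : i ≠ 0 := fun h => h0 (h ▸ hi)
  intro z hz
  have hz2 : z ∈ DeE true false I l := hJ hz
  have hz3 := hφ z hz
  rw [DeE, Finset.mem_union, Finset.mem_union] at hz2
  rcases hz2 with h | h | h
  · rw [mem_tps] at h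
    rcases h with ⟨_, rfl⟩ | ⟨h, _⟩
    · change FG3_cut φ i n (if (0 : ℕ) = 0 then e 0 0 else Dec I) = 0
      rw [if_pos rfl, FG3_cut_e, if_neg]
      exact fun h => hi0 h.1.symm
    · exact absurd h (by decide)
  · rw [mem_vlt] at h
    obtain ⟨j, hj, k, hk, rfl⟩ := h
    change φ (msu l (fun i => e i 0) (fun _ => g • e 0 0) j k) = 0 at hz3
    change FG3_cut φ i n (msu l (fun i => e i 0) (fun _ => g • e 0 0) j k) = 0
    rw [FG3_cut_msu hi0 hn φ (hl j hj) hk.le, hz3, ite_self]
  · rw [mem_rims] at h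
    obtain ⟨j, hj, k, hk, rfl⟩ := h
    change φ (msu l (fun i => e i 0) (fun _ => g • e 0 0) j k +
      msu l (fun i => e i 0) (fun _ => g • e 0 0) j (k + 1)) = 0 at hz3
    change FG3_cut φ i n (msu l (fun i => e i 0) (fun _ => g • e 0 0) j k +
      msu l (fun i => e i 0) (fun _ => g • e 0 0) j (k + 1)) = 0
    rw [map_add] at hz3 ⊢
    rw [FG3_cut_msu hi0 hn φ (hl j hj) hk.le, FG3_cut_msu hi0 hn φ (hl j hj) hk]
    by_cases hji : j = i
    · subst hji
      rcases lt_trichotomy k n with h1 | h1 | h1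
      · rw [if_pos ⟨rfl, h1.le⟩, if_pos ⟨rfl, h1⟩]
        exact hz3
      · subst h1
        exact absurd hz hx
      · rw [if_neg (fun h => by omega), if_neg (fun h => by omega), add_zero]
    · rw [if_neg (fun h => hji h.1), if_neg (fun h => hji h.1), add_zero]

private def FG3_key : Lab → ℕ × ℕ
  | .vx i n => (i, n)
  | .rm i n => (i, n)
  | .tp _ => (0, 0)

private theorem FG3_base (g : F4) (I : Finset ℕ) (h0 : 0 ∉ I) (l : ℕ → ℕ) :
    LinearIndepOn F4 (DeV g I l) ((tps true false ∪ vlt I l : Finset Lab) : Set Lab) := by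
  have h1 : LinearIndependent F4 (fun p : ℕ × ℕ => (Finsupp.single p (1 : F4) : VV)) := by
    have h2 := (Finsupp.basisSingleOne (R := F4) (ι := ℕ × ℕ)).linearIndependent
    rw [Finsupp.coe_basisSingleOne] at h2
    exact h2
  have h3 := h1.comp (fun x : ((tps true false ∪ vlt I l : Finset Lab) : Set Lab) =>
    FG3_key x.1) (by
      rintro ⟨x, hx⟩ ⟨y, hy⟩ hxy
      rw [Finset.mem_coe, Finset.mem_union, mem_tps, mem_vlt] at hx hy
      apply Subtype.ext
      change FG3_key x = FG3_key y at hxy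
      rcases hx with (⟨_, rfl⟩ | ⟨h, _⟩) | ⟨i, hi, n, hn, rfl⟩
      · rcases hy with (⟨_, rfl⟩ | ⟨h, _⟩) | ⟨j, hj, k, hk, rfl⟩
        · rfl
        · exact absurd h (by decide)
        · have : (0, 0) = (j, k) := hxy
          rw [Prod.mk.injEq] at this
          exact absurd (this.1 ▸ hj) h0
      · exact absurd h (by decide)
      · rcases hy with (⟨_, rfl⟩ | ⟨h, _⟩) | ⟨j, hj, k, hk, rfl⟩
        · have : (i, n) = (0, 0) := hxy
          rw [Prod.mk.injEq] at this
          exact absurd (this.1 ▸ hi) h0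
        · exact absurd h (by decide)
        · have : (i, n) = (j, k) := hxy
          rw [Prod.mk.injEq] at this
          change Lab.vx i n = Lab.vx j k
          rw [this.1, this.2])
  unfold LinearIndepOn
  convert h3 using 1
  funext x
  obtain ⟨x, hx⟩ := x
  rw [Finset.mem_coe, Finset.mem_union, mem_tps, mem_vlt] at hx
  rcases hx with (⟨_, rfl⟩ | ⟨h, _⟩) | ⟨i, hi, n, hn, rfl⟩
  · change (if (0 : ℕ) = 0 then e 0 0 else Dec I) = _
    rw [if_pos rfl]
    rfl
  · exact absurd h (by decide)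
  · change msu l (fun i => e i 0) (fun _ => g • e 0 0) i n = _
    rw [FG3_msu_lt hn]
    rfl

private theorem FG3_tp0 (g : F4) (I : Finset ℕ) (l : ℕ → ℕ) : DeV g I l (.tp 0) = e 0 0 := by
  change (if (0 : ℕ) = 0 then e 0 0 else Dec I) = e 0 0
  exact if_pos rfl

private theorem FG3_tp1 (g : F4) (I : Finset ℕ) (l : ℕ → ℕ) : DeV g I l (.tp 1) = Dec I := by
  change (if (1 : ℕ) = 0 then e 0 0 else Dec I) = Dec I
  exact if_neg (by decide)

private theorem FG3_rims (g : F4) (hg : g ≠ 0) (I : Finset ℕ) (h0 : 0 ∉ I) (l : ℕ → ℕ)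
    (hl : ∀ i ∈ I, 1 ≤ l i) : Gammoid (LM (DeE true false I l) (DeV g I l)) := by
  have hE : DeE true false I l = (tps true false ∪ vlt I l) ∪ rims I l := by
    rw [DeE, Finset.union_assoc]
  have hG := gam_adds (E := tps true false ∪ vlt I l) (R := rims I l) (u := DeV g I l) ?_
    (gam_indep (FG3_base g I h0 l))
  · rw [← hE] at hG
    exact hG
  intro x hx _
  rw [mem_rims] at hx
  obtain ⟨i, hi, n, hn, rfl⟩ := hx
  have hi0 : i ≠ 0 := fun h => h0 (h ▸ hi)
  -- the second end
  have hend : ∃ y ∈ tps true false ∪ vlt I l, ∃ s : F4, s ≠ 0 ∧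
      msu l (fun i => e i 0) (fun _ => g • e 0 0) i (n + 1) = s • DeV g I l y := by
    rcases Nat.lt_or_ge (n + 1) (l i) with h | h
    · refine ⟨.vx i (n + 1), Finset.mem_union_right _ (vx_mem_vlt.2 ⟨hi, h⟩), 1, by decide, ?_⟩
      rw [one_smul]
      rfl
    · have h2 : n + 1 = l i := by omega
      refine ⟨.tp 0, Finset.mem_union_left _ (tp_mem_tps.2 (Or.inl ⟨rfl, rfl⟩)), g, hg, ?_⟩
      rw [h2, FG3_msu_top (hl i hi), FG3_tp0]
  obtain ⟨y, hy, s, hs, hys⟩ := hend
  have hux : DeV g I l (.rm i n) = DeV g I l (.vx i n) + s • DeV g I l y := by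
    change msu l (fun i => e i 0) (fun _ => g • e 0 0) i n +
      msu l (fun i => e i 0) (fun _ => g • e 0 0) i (n + 1) = _
    rw [hys]
    rfl
  refine ⟨{.vx i n, y}, ?_, ?_, ?_⟩
  · intro z hz
    rw [Finset.mem_insert, Finset.mem_singleton] at hz
    rcases hz with rfl | rfl
    · exact Finset.mem_union_right _ (vx_mem_vlt.2 ⟨hi, hn⟩)
    · exact hy
  · rw [hux]
    refine add_mem (subset_span ⟨.vx i n, ?_, rfl⟩) (smul_mem _ _ (subset_span ⟨y, ?_, rfl⟩))
    · rw [Finset.mem_coe, Finset.mem_insert]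
      exact Or.inl rfl
    · rw [Finset.mem_coe, Finset.mem_insert, Finset.mem_singleton]
      exact Or.inr rfl
  · intro J hJ hxJ z hz φ hφ hne
    rw [← hE] at hJ
    by_cases h1 : φ (DeV g I l (.rm i n)) = 0
    · have h2 : φ (DeV g I l (.vx i n)) = φ (s • DeV g I l y) := by
        rw [hux, map_add] at h1
        exact vadd_eq_zero.1 h1
      have h3 : φ (DeV g I l (.vx i n)) ≠ 0 := by
        rw [Finset.mem_insert, Finset.mem_singleton] at hz
        rcases hz with rfl | rfl
        · exact hne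
        · rw [h2, map_smul, smul_eq_mul]
          exact mul_ne_zero hs hne
      refine ⟨FG3_cut φ i n, FG3_kill h0 hl hi hn hJ hxJ hφ, ?_⟩
      change FG3_cut φ i n (msu l (fun i => e i 0) (fun _ => g • e 0 0) i n +
        msu l (fun i => e i 0) (fun _ => g • e 0 0) i (n + 1)) ≠ 0
      rw [map_add, FG3_cut_msu hi0 hn φ (hl i hi) hn.le, FG3_cut_msu hi0 hn φ (hl i hi) hn,
        if_pos ⟨rfl, le_rfl⟩, if_neg (fun h => by omega), add_zero]
      exact h3
    · exact ⟨φ, hφ, h1⟩

theorem gam_De (g : F4) (hg : g = F4.w ∨ g = F4.v) (I : Finset ℕ) (h0 : 0 ∉ I) (l : ℕ → ℕ)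
    (hl : ∀ i ∈ I, 1 ≤ l i) : Gammoid (LM (DeE true true I l) (DeV g I l)) := by
  have hg0 : g ≠ 0 := by rcases hg with rfl | rfl <;> decide
  have hg1 : 1 + g ≠ 0 := by rcases hg with rfl | rfl <;> decide
  have hE : DeE true true I l = insert (.tp 1) (DeE true false I l) := by
    ext x
    simp only [DeE, Finset.mem_union, Finset.mem_insert, mem_tps]
    constructor
    · rintro ((⟨_, h⟩ | ⟨_, h⟩) | h)
      · exact Or.inr (Or.inl (Or.inl ⟨trivial, h⟩))
      · exact Or.inl h
      · exact Or.inr (Or.inr h)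
    · rintro (h | (⟨_, h⟩ | ⟨h, _⟩) | h)
      · exact Or.inl (Or.inr ⟨trivial, h⟩)
      · exact Or.inl (Or.inl ⟨trivial, h⟩)
      · exact absurd h (by decide)
      · exact Or.inr h
  have hvx : ∀ i, DeV g I l (.vx i 0) = e i 0 := fun i => by
    change msu l (fun i => e i 0) (fun _ => g • e 0 0) i 0 = e i 0
    unfold msu
    exact if_pos rfl
  rw [hE]
  refine gam_add (X := insert (.tp 0) (I.image fun i => .vx i 0)) ?_ ?_ ?_ ?_
    (FG3_rims g hg0 I h0 l hl)
  · rw [DeE, Finset.mem_union, Finset.mem_union]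
    rintro (h | h | h)
    · rw [tp_mem_tps] at h
      rcases h with ⟨_, h⟩ | ⟨h, _⟩
      · exact absurd h (by decide)
      · exact absurd h (by decide)
    · exact tp_notMem_vlt h
    · exact tp_notMem_rims h
  · intro z hz
    rw [Finset.mem_insert, Finset.mem_image] at hz
    rcases hz with rfl | ⟨i, hi, rfl⟩
    · exact Finset.mem_union_left _ (tp_mem_tps.2 (Or.inl ⟨rfl, rfl⟩))
    · exact Finset.mem_union_right _ (Finset.mem_union_left _ (vx_mem_vlt.2 ⟨hi, hl i hi⟩))
  · rw [FG3_tp1, Dec]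
    refine add_mem ?_ (sum_mem fun i hi => ?_)
    · rw [← FG3_tp0 g I l]
      refine subset_span ⟨.tp 0, ?_, rfl⟩
      rw [Finset.mem_coe, Finset.mem_insert]
      exact Or.inl rfl
    · rw [← hvx i]
      refine subset_span ⟨.vx i 0, ?_, rfl⟩
      rw [Finset.mem_coe, Finset.mem_insert, Finset.mem_image]
      exact Or.inr ⟨i, hi, rfl⟩
  · intro J hJ y hy φ hφ hne
    by_cases hA : ∃ i ∈ I, φ (e i 0) ≠ 0 ∧ ∃ n < l i, Lab.rm i n ∉ J
    · obtain ⟨i, hi, h1, n, hn, hx⟩ := hA
      have hi0 : i ≠ 0 := fun h => h0 (h ▸ hi)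
      refine ⟨FG3_cut φ i n, FG3_kill h0 hl hi hn hJ hx hφ, ?_⟩
      have h2 : FG3_cut φ i n (Dec I) = φ (e i 0) := by
        rw [Dec, map_add, map_sum, FG3_cut_e, if_neg (fun h => hi0 h.1.symm), zero_add,
          Finset.sum_eq_single i]
        · rw [FG3_cut_e, if_pos ⟨rfl, Nat.zero_le n⟩]
        · intro j _ hj
          rw [FG3_cut_e, if_neg (fun h => hj h.1)]
        · intro h
          exact absurd hi h
      rw [FG3_tp1, h2]
      exact h1
    · have hfull : ∀ j ∈ I, φ (e j 0) = 0 ∨ φ (e j 0) = g * φ (e 0 0) := by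
        intro j hj
        by_cases hz : φ (e j 0) = 0
        · exact Or.inl hz
        · right
          have hall : ∀ n < l j, Lab.rm j n ∈ J := by
            intro n hn
            by_contra hc
            exact hA ⟨j, hj, hz, n, hn, hc⟩
          have htel : ∀ n ≤ l j, φ (msu l (fun i => e i 0) (fun _ => g • e 0 0) j 0) =
              φ (msu l (fun i => e i 0) (fun _ => g • e 0 0) j n) := by
            intro n
            induction n with
            | zero => intro _; rfl
            | succ n ih =>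
              intro hn
              rw [ih (by omega)]
              have h3 := hφ _ (hall n (by omega))
              change φ (msu l (fun i => e i 0) (fun _ => g • e 0 0) j n +
                msu l (fun i => e i 0) (fun _ => g • e 0 0) j (n + 1)) = 0 at h3
              rw [map_add] at h3
              exact vadd_eq_zero.1 h3
          have h4 := htel (l j) le_rfl
          rw [FG3_msu_top (hl j hj), map_smul, smul_eq_mul] at h4
          exact h4
      have hsum : ∀ I' : Finset ℕ, I' ⊆ I → ∑ j ∈ I', φ (e j 0) = 0 ∨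
          ∑ j ∈ I', φ (e j 0) = g * φ (e 0 0) := by
        intro I'
        induction I' using Finset.induction_on with
        | empty => intro _; left; rw [Finset.sum_empty]
        | insert j I' hj ih =>
          intro h
          rw [Finset.sum_insert hj]
          have h1 := ih fun z hz => h (Finset.mem_insert_of_mem hz)
          have h2 := hfull j (h (Finset.mem_insert_self j I'))
          rcases h1 with h1 | h1 <;> rcases h2 with h2 | h2 <;> rw [h1, h2]
          · left; rw [add_zero]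
          · right; rw [add_zero]
          · right; rw [zero_add]
          · left; exact vadd_self _
      have ht : φ (e 0 0) ≠ 0 := by
        intro h
        apply hne
        rw [Finset.mem_insert, Finset.mem_image] at hy
        rcases hy with rfl | ⟨j, hj, rfl⟩
        · rw [FG3_tp0, h]
        · rw [hvx]
          rcases hfull j hj with h1 | h1
          · exact h1
          · rw [h1, h, mul_zero]
      refine ⟨φ, hφ, ?_⟩
      rw [FG3_tp1, Dec, map_add, map_sum]
      rcases hsum I (Finset.Subset.refl _) with h1 | h1 <;> rw [h1]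
      · rw [add_zero]
        exact ht
      · intro h2
        have h3 : (1 + g) * φ (e 0 0) = 0 := by
          rw [add_mul, one_mul, h2]
        exact mul_ne_zero hg1 ht h3

end QG
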