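import Pool.Agent.Lib.QG.FG1

/-!
MP_2e6874_co. Whirls are gammoids.
-/

set_option autoImplicit false

namespace QG
open Set Matroid Submodule

private noncomputable def FG4_m (r : ℕ) (j : ℕ) : VV :=
  msu (fun _ => r) (fun _ => e 0 0) (fun _ => F4.w • e 0 0) 0 j

private theorem FG4_vx (r j : ℕ) : WhV r (.vx 0 j) = FG4_m r j := rfl

private theorem FG4_rm (r j : ℕ) : WhV r (.rm 0 j) = FG4_m r j + FG4_m r (j + 1) := rfl

private theorem FG4_m_lt {r j : ℕ} (h : j < r) : FG4_m r j = e 0 j := by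
  simp only [FG4_m, msu]
  split_ifs with h1 h2
  · rw [h1]
  · omega
  · rfl

private theorem FG4_m_r {r : ℕ} (h : 0 < r) : FG4_m r r = F4.w • e 0 0 := by
  simp only [FG4_m, msu]
  rw [if_neg (by omega), if_pos trivial]

private theorem FG4_zro {r : ℕ} (hr : 0 < r) {Z : Set (ℕ × ℕ)} (φ : VV →ₗ[F4] F4)
    (h0 : (0, 0) ∉ Z) {j : ℕ} (hj : j ≤ r) (hjZ : (0, j) ∉ Z) :
    zro Z φ (FG4_m r j) = φ (FG4_m r j) := by
  rcases Nat.lt_or_ge j r with h | h
  · rw [FG4_m_lt h, zro_notMem hjZ]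
  · obtain rfl : j = r := le_antisymm hj h
    rw [FG4_m_r hr, map_smul, map_smul, zro_notMem h0]

private theorem FG4_zro' {r : ℕ} {Z : Set (ℕ × ℕ)} (φ : VV →ₗ[F4] F4)
    {j : ℕ} (hj : j < r) (hjZ : (0, j) ∈ Z) :
    zro Z φ (FG4_m r j) = 0 := by
  rw [FG4_m_lt hj, zro_mem hjZ]

private theorem FG4_mem {r : ℕ} {x : Lab} (h : x ∈ WhE r) :
    (∃ n < r, x = .vx 0 n) ∨ (∃ n < r, x = .rm 0 n) := by
  simp only [WhE, Finset.mem_union, mem_vlt, mem_rims, Finset.mem_singleton] at h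
  rcases h with ⟨i, rfl, n, hn, rfl⟩ | ⟨i, rfl, n, hn, rfl⟩
  · exact Or.inl ⟨n, hn, rfl⟩
  · exact Or.inr ⟨n, hn, rfl⟩

/-- the key step: setting an interval of coordinates to zero -/
private theorem FG4_key {r n k a b : ℕ} (hr : 0 < r) (hn : n < r) (hk : k < r) (hnk : k ≠ n)
    (hab : (a = n + 1 ∧ b = k ∧ n < k) ∨ (a = k + 1 ∧ b = n ∧ k < n))
    {J : Set Lab} (hJ : J ⊆ (WhE r : Set Lab)) (hnJ : Lab.rm 0 n ∉ J) (hkJ : Lab.rm 0 k ∉ J)
    (φ : VV →ₗ[F4] F4) (hφ : ∀ z ∈ J, φ (WhV r z) = 0)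
    (h1 : φ (FG4_m r n) ≠ 0) (h2 : φ (FG4_m r (n + 1)) ≠ 0) :
    ∃ ψ : VV →ₗ[F4] F4, (∀ z ∈ J, ψ (WhV r z) = 0) ∧ ψ (WhV r (.rm 0 n)) ≠ 0 := by
  set Z : Set (ℕ × ℕ) := {p | a ≤ p.2 ∧ p.2 ≤ b} with hZ
  have hz0 : ((0, 0) : ℕ × ℕ) ∉ Z := by
    simp only [hZ, Set.mem_ofPred_eq]; omega
  have hzm : ∀ j : ℕ, ((0, j) : ℕ × ℕ) ∈ Z ↔ (a ≤ j ∧ j ≤ b) := by
    intro j; simp only [hZ, Set.mem_ofPred_eq]
  refine ⟨zro Z φ, ?_, ?_⟩
  · intro z hz
    rcases FG4_mem (Finset.mem_coe.1 (hJ hz)) with ⟨j, hj, rfl⟩ | ⟨j, hj, rfl⟩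
    · have h0 := hφ _ hz
      rw [FG4_vx] at h0 ⊢
      by_cases hjZ : (0, j) ∈ Z
      · exact FG4_zro' φ hj hjZ
      · rw [FG4_zro hr φ hz0 hj.le hjZ, h0]
    · have h0 := hφ _ hz
      have hjn : j ≠ n := by rintro rfl; exact hnJ hz
      have hjk : j ≠ k := by rintro rfl; exact hkJ hz
      rw [FG4_rm] at h0 ⊢
      by_cases hjZ : (0, j) ∈ Z
      · have hj1 := (hzm j).1 hjZ
        have hj2 : (0, j + 1) ∈ Z := (hzm (j + 1)).2 (by omega)
        rw [map_add, FG4_zro' φ hj hjZ, FG4_zro' φ (by omega) hj2, add_zero]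
      · have hj1 : ¬ (a ≤ j ∧ j ≤ b) := fun h => hjZ ((hzm j).2 h)
        have hj2 : (0, j + 1) ∉ Z := fun h => by
          have := (hzm (j + 1)).1 h
          omega
        rw [map_add, FG4_zro hr φ hz0 hj.le hjZ, FG4_zro hr φ hz0 (by omega) hj2, ← map_add, h0]
  · rw [FG4_rm, map_add]
    rcases hab with ⟨rfl, rfl, h⟩ | ⟨rfl, rfl, h⟩
    · have ha : (0, n) ∉ Z := fun h => by have := (hzm n).1 h; omega
      have hb : (0, n + 1) ∈ Z := (hzm (n + 1)).2 (by omega)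
      rw [FG4_zro hr φ hz0 hn.le ha, FG4_zro' φ (by omega) hb, add_zero]
      exact h1
    · have ha : (0, b) ∈ Z := (hzm b).2 (by omega)
      have hb : (0, b + 1) ∉ Z := fun h => by have := (hzm (b + 1)).1 h; omega
      rw [FG4_zro' φ hn ha, FG4_zro hr φ hz0 (by omega) hb, zero_add]
      exact h2

private theorem FG4_w : ∀ s : F4, F4.w * s = s → s = 0 := by decide
private theorem FG4_w0 : F4.w ≠ 0 := by decide

private def FG4_l : Lab → ℕ × ℕ
  | .vx i n => (i, n)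
  | .rm i n => (i, n)
  | .tp k => (k, 0)

theorem gam_Wh (r : ℕ) (hr : 2 ≤ r) : Gammoid (LM (WhE r) (WhV r)) := by
  have hr0 : 0 < r := by omega
  have hbase : Gammoid (LM (vlt {0} (fun _ => r)) (WhV r)) := by
    apply gam_indep
    have hli : LinearIndependent F4 (fun p : ℕ × ℕ => (Finsupp.single p 1 : VV)) :=
      Finsupp.linearIndependent_single_one F4 (ℕ × ℕ)
    have hmem : ∀ x ∈ vlt {0} (fun _ => r), ∃ n < r, x = Lab.vx 0 n := by
      intro x hx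
      obtain ⟨i, hi, n, hn, rfl⟩ := mem_vlt.1 hx
      obtain rfl := Finset.mem_singleton.1 hi
      exact ⟨n, hn, rfl⟩
    have hc := hli.comp (fun x : ((vlt {0} (fun _ => r) : Finset Lab) : Set Lab) => FG4_l x.1) (by
      rintro ⟨x, hx⟩ ⟨y, hy⟩ hxy
      obtain ⟨n, hn, rfl⟩ := hmem x (Finset.mem_coe.1 hx)
      obtain ⟨m, hm, rfl⟩ := hmem y (Finset.mem_coe.1 hy)
      simp only [FG4_l, Prod.mk.injEq, true_and] at hxy
      subst hxy
      rfl)
    have hfun : (fun x : ((vlt {0} (fun _ => r) : Finset Lab) : Set Lab) => WhV r x.1) =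
        ((fun p : ℕ × ℕ => (Finsupp.single p 1 : VV)) ∘ fun x => FG4_l x.1) := by
      funext x
      obtain ⟨x, hx⟩ := x
      obtain ⟨n, hn, rfl⟩ := hmem x (Finset.mem_coe.1 hx)
      exact (FG4_vx r n).trans (FG4_m_lt hn)
    unfold LinearIndepOn
    rw [hfun]
    exact hc
  refine gam_adds ?_ hbase
  intro x hx _
  obtain ⟨i, hi, n, hn, rfl⟩ := mem_rims.1 hx
  obtain rfl := Finset.mem_singleton.1 hi
  set n' : ℕ := if n + 1 = r then 0 else n + 1 with hn'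
  have hn'r : n' < r := by rw [hn']; split_ifs <;> omega
  -- the second end is a multiple of a vertex
  have hend : ∃ c : F4, c ≠ 0 ∧ FG4_m r (n + 1) = c • WhV r (.vx 0 n') := by
    by_cases h : n + 1 = r
    · refine ⟨F4.w, FG4_w0, ?_⟩
      rw [hn', if_pos h, h, FG4_m_r hr0, FG4_vx, FG4_m_lt hr0]
    · refine ⟨1, one_ne_zero, ?_⟩
      rw [hn', if_neg h, one_smul, FG4_vx]
  obtain ⟨c, hc0, hc⟩ := hend
  refine ⟨{.vx 0 n, .vx 0 n'}, ?_, ?_, ?_⟩
  · intro z hz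
    rw [Finset.mem_insert, Finset.mem_singleton] at hz
    rcases hz with rfl | rfl
    · exact mem_vlt.2 ⟨0, Finset.mem_singleton_self 0, n, hn, rfl⟩
    · exact mem_vlt.2 ⟨0, Finset.mem_singleton_self 0, n', hn'r, rfl⟩
  · rw [FG4_rm, hc, ← FG4_vx]
    refine Submodule.add_mem _ (subset_span ⟨.vx 0 n, by simp, rfl⟩)
      (Submodule.smul_mem _ _ (subset_span ⟨.vx 0 n', by simp, rfl⟩))
  · intro J hJ hnJ y hy φ hφ hφy
    by_cases hx0 : φ (WhV r (.rm 0 n)) = 0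
    swap
    · exact ⟨φ, hφ, hx0⟩
    have hJ' : J ⊆ (WhE r : Set Lab) := hJ
    have heq : φ (FG4_m r n) = φ (FG4_m r (n + 1)) := by
      rw [FG4_rm, map_add] at hx0
      exact vadd_eq_zero.1 hx0
    have hne : φ (FG4_m r n) ≠ 0 ∧ φ (FG4_m r (n + 1)) ≠ 0 := by
      rw [Finset.mem_insert, Finset.mem_singleton] at hy
      rcases hy with rfl | rfl
      · rw [FG4_vx] at hφy
        exact ⟨hφy, heq ▸ hφy⟩
      · have : φ (FG4_m r (n + 1)) ≠ 0 := by
          rw [hc, map_smul, smul_eq_mul]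
          exact mul_ne_zero hc0 hφy
        exact ⟨heq.symm ▸ this, this⟩
    by_cases hex : ∃ k < r, k ≠ n ∧ Lab.rm 0 k ∉ J
    · obtain ⟨k, hk, hkn, hkJ⟩ := hex
      rcases Nat.lt_or_gt_of_ne hkn with h | h
      · exact FG4_key hr0 hn hk hkn (Or.inr ⟨rfl, rfl, h⟩) hJ' hnJ hkJ φ hφ hne.1 hne.2
      · exact FG4_key hr0 hn hk hkn (Or.inl ⟨rfl, rfl, h⟩) hJ' hnJ hkJ φ hφ hne.1 hne.2
    · exfalso
      push Not at hex
      have hstep : ∀ k < r, φ (FG4_m r k) = φ (FG4_m r (k + 1)) := by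
        intro k hk
        by_cases hkn : k = n
        · rw [hkn]; exact heq
        · have h0 := hφ _ (hex k hk hkn)
          rw [FG4_rm, map_add] at h0
          exact vadd_eq_zero.1 h0
      have hall : ∀ k ≤ r, φ (FG4_m r k) = φ (FG4_m r 0) := by
        intro k
        induction k with
        | zero => intro _; rfl
        | succ k ih => intro hk; rw [← hstep k (by omega)]; exact ih (by omega)
      have h0 : φ (FG4_m r 0) = 0 := by
        have h1 := hall r le_rfl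
        rw [FG4_m_r hr0, map_smul, smul_eq_mul, FG4_m_lt hr0] at h1
        rw [FG4_m_lt hr0]
        exact FG4_w _ h1
      exact hne.1 ((hall n hn.le).trans h0)

end QG
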