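import Pool.Agent.Lib.QG.FL3

set_option autoImplicit false

namespace QG
open Set Matroid Submodule

private theorem FN1_e (i n j k : ℕ) : (e i n) (j, k) = if i = j ∧ n = k then (1 : F4) else 0 := by
  simp only [e, Finsupp.single_apply, Prod.mk.injEq]

/-- coordinate at an inner vertex -/
private theorem FN1_in {m : ℕ → ℕ} {i j n k : ℕ} (hi : i < 3) (hj : j < 3) (hk : 0 < k)
    (hk' : k < m j) (hn : n ≤ m i) :
    (msu m (fun _ => e 3 0) (fun i => g3 i • e 3 1) i n) (j, k) =
      if i = j ∧ n = k then (1 : F4) else 0 := by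
  unfold msu
  by_cases h1 : n = 0
  · rw [if_pos h1, FN1_e, if_neg (by omega), if_neg (by omega)]
  rw [if_neg h1]
  by_cases h2 : n = m i
  · rw [if_pos h2, Finsupp.smul_apply, FN1_e, if_neg (by omega), smul_zero, if_neg]
    rintro ⟨h3, h4⟩
    subst h3
    omega
  · rw [if_neg h2, FN1_e]

private theorem FN1_t {m : ℕ → ℕ} {i n : ℕ} (hi : i < 3) (hn : n ≤ m i) (hm : 1 ≤ m i) :
    (msu m (fun _ => e 3 0) (fun i => g3 i • e 3 1) i n) (3, 0) =
      if n = 0 then (1 : F4) else 0 := by
  unfold msu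
  split_ifs with h1 h2
  · rw [FN1_e, if_pos ⟨rfl, rfl⟩]
  · rw [Finsupp.smul_apply, FN1_e, if_neg (by omega), smul_zero]
  · rw [FN1_e, if_neg (by omega)]

private theorem FN1_t' {m : ℕ → ℕ} {i n : ℕ} (hi : i < 3) (hn : n ≤ m i) (hm : 1 ≤ m i) :
    (msu m (fun _ => e 3 0) (fun i => g3 i • e 3 1) i n) (3, 1) =
      if n = m i then g3 i else 0 := by
  unfold msu
  split_ifs with h1 h2 h3 h4
  · omega
  · rw [FN1_e, if_neg (by omega)]
  · rw [Finsupp.smul_apply, FN1_e, if_pos ⟨rfl, rfl⟩, smul_eq_mul, mul_one]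
  · rw [FN1_e, if_neg (by omega)]

private theorem FN1_g3 {i : ℕ} : g3 i ≠ 0 := by
  unfold g3
  split_ifs <;> decide

private theorem FN1_g3inj {i j : ℕ} (hi : i < 3) (hj : j < 3) (h : g3 i = g3 j) : i = j := by
  interval_cases i <;> interval_cases j <;> first | rfl | (exfalso; revert h; decide)

private theorem FN1_1 : (1 : F4) ≠ 0 := by decide

private theorem FN1_s : ∀ s : F4, 1 + s = 0 → s = 1 := by decide

private theorem FN1_add : ∀ a b : F4, a + b = 0 → a = b := by decide

private theorem FN1_mem {a b : Bool} {m : ℕ → ℕ} {x : Lab} (h : x ∈ ThE a b m) :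
    x = .tp 0 ∨ x = .tp 1 ∨ (∃ i < 3, ∃ n, 0 < n ∧ n < m i ∧ x = .vx i n) ∨
      ∃ i < 3, ∃ n < m i, x = .rm i n := by
  simp only [ThE, Finset.mem_union, mem_tps, mem_inn, mem_rims, mem_I3] at h
  rcases h with (⟨_, rfl⟩ | ⟨_, rfl⟩) | ⟨i, hi, n, h0, hn, rfl⟩ | ⟨i, hi, n, hn, rfl⟩
  · exact Or.inl rfl
  · exact Or.inr (Or.inl rfl)
  · exact Or.inr (Or.inr (Or.inl ⟨i, hi, n, h0, hn, rfl⟩))
  · exact Or.inr (Or.inr (Or.inr ⟨i, hi, n, hn, rfl⟩))

theorem np_Th (a b : Bool) (m : ℕ → ℕ) (hm : ∀ i < 3, 1 ≤ m i) : NP ⊥ (ThE a b m) (ThV m) := by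
  have T0 : ThV m (.tp 0) = e 3 0 := rfl
  have T1 : ThV m (.tp 1) = e 3 1 := rfl
  -- coordinates of a rim
  have rin : ∀ {i n j k : ℕ}, i < 3 → n < m i → j < 3 → 0 < k → k < m j →
      (ThV m (.rm i n)) (j, k) = (if i = j ∧ n = k then (1 : F4) else 0) +
        if i = j ∧ n + 1 = k then (1 : F4) else 0 := by
    intro i n j k hi hn hj hk hk'
    simp only [ThV, vec_rm, Finsupp.add_apply]
    rw [FN1_in hi hj hk hk' (by omega), FN1_in hi hj hk hk' (by omega)]
  have rt : ∀ {i n : ℕ}, i < 3 → n < m i →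
      (ThV m (.rm i n)) (3, 0) = if n = 0 then (1 : F4) else 0 := by
    intro i n hi hn
    simp only [ThV, vec_rm, Finsupp.add_apply]
    rw [FN1_t hi (by omega) (hm i hi), FN1_t hi (by omega) (hm i hi), if_neg (by omega : ¬ n + 1 = 0),
      add_zero]
  have rt' : ∀ {i n : ℕ}, i < 3 → n < m i →
      (ThV m (.rm i n)) (3, 1) = if n + 1 = m i then g3 i else 0 := by
    intro i n hi hn
    simp only [ThV, vec_rm, Finsupp.add_apply]
    rw [FN1_t' hi (by omega) (hm i hi), FN1_t' hi (by omega) (hm i hi), if_neg (by omega : ¬ n = m i),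
      zero_add]
  have vin : ∀ {i n j k : ℕ}, i < 3 → n < m i → j < 3 → 0 < k → k < m j →
      (ThV m (.vx i n)) (j, k) = (if i = j ∧ n = k then (1 : F4) else 0) := by
    intro i n j k hi hn hj hk hk'
    simp only [ThV, vec_vx]
    rw [FN1_in hi hj hk hk' (by omega)]
  have vt : ∀ {i n : ℕ}, i < 3 → 0 < n → n < m i → (ThV m (.vx i n)) (3, 0) = 0 := by
    intro i n hi h0 hn
    simp only [ThV, vec_vx]
    rw [FN1_t hi (by omega) (hm i hi), if_neg (by omega)]
  have vt' : ∀ {i n : ℕ}, i < 3 → 0 < n → n < m i → (ThV m (.vx i n)) (3, 1) = 0 := by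
    intro i n hi h0 hn
    simp only [ThV, vec_vx]
    rw [FN1_t' hi (by omega) (hm i hi), if_neg (by omega)]
  have tin : ∀ {k j n : ℕ}, k < 2 → j < 3 → (ThV m (.tp k)) (j, n) = 0 := by
    intro k j n hk hj
    interval_cases k
    · rw [T0, FN1_e, if_neg (by omega)]
    · rw [T1, FN1_e, if_neg (by omega)]
  have t00 : (ThV m (.tp 0)) (3, 0) = 1 := by rw [T0, FN1_e, if_pos ⟨rfl, rfl⟩]
  have t01 : (ThV m (.tp 0)) (3, 1) = 0 := by rw [T0, FN1_e, if_neg (by omega)]
  have t10 : (ThV m (.tp 1)) (3, 0) = 0 := by rw [T1, FN1_e, if_neg (by omega)]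
  have t11 : (ThV m (.tp 1)) (3, 1) = 1 := by rw [T1, FN1_e, if_pos ⟨rfl, rfl⟩]
  -- a rim and another vector: not parallel
  have rimend : ∀ (y : Lab) (i n : ℕ), i < 3 → n < m i → ∀ r : F4, r ≠ 0 →
      (∀ p : ℕ × ℕ, r * (ThV m (.rm i n)) p + (ThV m y) p = 0) → y ∈ ThE a b m → y = .rm i n := by
    intro y i n hi hn r hr hk hy
    have hmi := hm i hi
    have e1 : ∀ z : F4, r * 1 + z = 0 → z = 0 → False := by
      intro z h1 h2
      rw [h2, add_zero, mul_one] at h1
      exact hr h1
    have e2 : ∀ z : F4, r * g3 i + z = 0 → z = 0 → False := by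
      intro z h1 h2
      rw [h2, add_zero] at h1
      exact (mul_ne_zero hr FN1_g3) h1
    -- values at both ends
    rcases Nat.eq_zero_or_pos n with h0 | h0
    · subst h0
      have k0 := hk (3, 0)
      rw [rt hi hn, if_pos rfl] at k0
      rcases Nat.lt_or_ge 1 (m i) with h1 | h1
      · -- ends `t` and `(i, 1)`
        have k1 := hk (i, 1)
        rw [rin hi hn hi (by omega) h1, if_neg (by omega), if_pos ⟨rfl, rfl⟩, zero_add] at k1
        rcases FN1_mem hy with rfl | rfl | ⟨j, hj, k, hk0, hkm, rfl⟩ | ⟨j, hj, k, hkm, rfl⟩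
        · exact (e1 _ k1 (tin (by omega) hi)).elim
        · exact (e1 _ k1 (tin (by omega) hi)).elim
        · exact (e1 _ k0 (vt hj hk0 hkm)).elim
        · rw [rt hj hkm] at k0
          rw [rin hj hkm hi (by omega) h1] at k1
          by_cases hk1 : k = 0
          · subst hk1
            by_cases hij : j = i
            · rw [hij]
            · exfalso
              refine e1 _ k1 ?_
              rw [if_neg (by omega), if_neg (by omega), add_zero]
          · exact (e1 _ k0 (by rw [if_neg hk1])).elim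
      · -- ends `t` and `t'`
        have hmi1 : m i = 1 := by omega
        have k1 := hk (3, 1)
        rw [rt' hi hn, if_pos (by omega)] at k1
        rcases FN1_mem hy with rfl | rfl | ⟨j, hj, k, hk0, hkm, rfl⟩ | ⟨j, hj, k, hkm, rfl⟩
        · exact (e2 _ k1 t01).elim
        · exact (e1 _ k0 t10).elim
        · exact (e1 _ k0 (vt hj hk0 hkm)).elim
        · rw [rt hj hkm] at k0
          rw [rt' hj hkm] at k1
          by_cases hk1 : k = 0
          · subst hk1
            rw [if_pos rfl] at k0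
            by_cases hmj : 0 + 1 = m j
            · rw [if_pos hmj] at k1
              have h2 := FN1_add _ _ k0
              rw [mul_one] at h2
              rw [h2, one_mul] at k1
              rw [FN1_g3inj hi hj (FN1_add _ _ k1)]
            · exact (e2 _ k1 (by rw [if_neg hmj])).elim
          · exact (e1 _ k0 (by rw [if_neg hk1])).elim
    · -- first end `(i, n)`
      have k0 := hk (i, n)
      rw [rin hi hn hi h0 hn, if_pos ⟨rfl, rfl⟩, if_neg (by omega), add_zero] at k0
      rcases Nat.lt_or_ge (n + 1) (m i) with h1 | h1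
      · have k1 := hk (i, n + 1)
        rw [rin hi hn hi (by omega) h1, if_neg (by omega), if_pos ⟨rfl, rfl⟩, zero_add] at k1
        rcases FN1_mem hy with rfl | rfl | ⟨j, hj, k, hk0, hkm, rfl⟩ | ⟨j, hj, k, hkm, rfl⟩
        · exact (e1 _ k1 (tin (by omega) hi)).elim
        · exact (e1 _ k1 (tin (by omega) hi)).elim
        · rw [vin hj hkm hi h0 hn] at k0
          rw [vin hj hkm hi (by omega) h1] at k1
          by_cases hc : j = i ∧ k = n
          · exact (e1 _ k1 (by rw [if_neg (by omega)])).elim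
          · exact (e1 _ k0 (by rw [if_neg hc])).elim
        · rw [rin hj hkm hi h0 hn] at k0
          rw [rin hj hkm hi (by omega) h1] at k1
          by_cases hc : j = i ∧ k = n
          · obtain ⟨rfl, rfl⟩ := hc
            rfl
          · by_cases hc' : j = i ∧ k + 1 = n
            · exact (e1 _ k1 (by rw [if_neg (by omega), if_neg (by omega), add_zero])).elim
            · exact (e1 _ k0 (by rw [if_neg hc, if_neg hc', add_zero])).elim
      · have hn1 : n + 1 = m i := by omega
        have k1 := hk (3, 1)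
        rw [rt' hi hn, if_pos hn1] at k1
        rcases FN1_mem hy with rfl | rfl | ⟨j, hj, k, hk0, hkm, rfl⟩ | ⟨j, hj, k, hkm, rfl⟩
        · exact (e1 _ k0 (tin (by omega) hi)).elim
        · exact (e1 _ k0 (tin (by omega) hi)).elim
        · exact (e2 _ k1 (vt' hj hk0 hkm)).elim
        · rw [rin hj hkm hi h0 hn] at k0
          rw [rt' hj hkm] at k1
          by_cases hc : j = i ∧ k = n
          · obtain ⟨rfl, rfl⟩ := hc
            rfl
          · by_cases hc' : j = i ∧ k + 1 = n
            · obtain ⟨rfl, hc2⟩ := hc'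
              exact (e2 _ k1 (by rw [if_neg (by omega)])).elim
            · exact (e1 _ k0 (by rw [if_neg hc, if_neg hc', add_zero])).elim
  -- no vector is zero
  have hne : ∀ x ∈ ThE a b m, ThV m x ≠ 0 := by
    intro x hx h
    have hk : ∀ p : ℕ × ℕ, (ThV m x) p = 0 := fun p => by rw [h]; rfl
    rcases FN1_mem hx with rfl | rfl | ⟨i, hi, n, h0, hn, rfl⟩ | ⟨i, hi, n, hn, rfl⟩
    · exact FN1_1 (t00.symm.trans (hk _))
    · exact FN1_1 (t11.symm.trans (hk _))
    · have := hk (i, n)
      rw [vin hi hn hi h0 hn, if_pos ⟨rfl, rfl⟩] at this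
      exact FN1_1 this
    · rcases Nat.eq_zero_or_pos n with h1 | h1
      · have := hk (3, 0)
        rw [rt hi hn, if_pos h1] at this
        exact FN1_1 this
      · have := hk (i, n)
        rw [rin hi hn hi h1 hn, if_pos ⟨rfl, rfl⟩, if_neg (by omega), add_zero] at this
        exact FN1_1 this
  refine ⟨fun x hx => by rw [mem_bot]; exact hne x hx, fun x hx y hy hxy s => ?_⟩
  rw [mem_bot]
  intro h
  have hk : ∀ p : ℕ × ℕ, (ThV m x) p + s * (ThV m y) p = 0 := by
    intro p
    have := DFunLike.congr_fun h p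
    rw [Finsupp.add_apply, Finsupp.smul_apply, smul_eq_mul, Finsupp.zero_apply] at this
    exact this
  have hs : s ≠ 0 := by
    rintro rfl
    refine hne x hx ?_
    rwa [zero_smul, add_zero] at h
  rcases FN1_mem hx with rfl | rfl | ⟨i, hi, n, h0, hn, rfl⟩ | ⟨i, hi, n, hn, rfl⟩
  · rcases FN1_mem hy with rfl | rfl | ⟨j, hj, k, hk0, hkm, rfl⟩ | ⟨j, hj, k, hkm, rfl⟩
    · exact hxy rfl
    · have := hk (3, 0)
      rw [t00, t10, mul_zero, add_zero] at this
      exact FN1_1 this
    · have := hk (3, 0)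
      rw [t00, vt hj hk0 hkm, mul_zero, add_zero] at this
      exact FN1_1 this
    · exact hxy (rimend _ j k hj hkm s hs (fun p => by rw [add_comm]; exact hk p) hx)
  · rcases FN1_mem hy with rfl | rfl | ⟨j, hj, k, hk0, hkm, rfl⟩ | ⟨j, hj, k, hkm, rfl⟩
    · have := hk (3, 1)
      rw [t11, t01, mul_zero, add_zero] at this
      exact FN1_1 this
    · exact hxy rfl
    · have := hk (3, 1)
      rw [t11, vt' hj hk0 hkm, mul_zero, add_zero] at this
      exact FN1_1 this
    · exact hxy (rimend _ j k hj hkm s hs (fun p => by rw [add_comm]; exact hk p) hx)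
  · rcases FN1_mem hy with rfl | rfl | ⟨j, hj, k, hk0, hkm, rfl⟩ | ⟨j, hj, k, hkm, rfl⟩
    · have := hk (i, n)
      rw [vin hi hn hi h0 hn, if_pos ⟨rfl, rfl⟩, tin (by omega) hi, mul_zero, add_zero] at this
      exact FN1_1 this
    · have := hk (i, n)
      rw [vin hi hn hi h0 hn, if_pos ⟨rfl, rfl⟩, tin (by omega) hi, mul_zero, add_zero] at this
      exact FN1_1 this
    · have := hk (i, n)
      rw [vin hi hn hi h0 hn, if_pos ⟨rfl, rfl⟩, vin hj hkm hi h0 hn] at this
      by_cases hc : j = i ∧ k = n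
      · obtain ⟨rfl, rfl⟩ := hc
        exact hxy rfl
      · rw [if_neg hc, mul_zero, add_zero] at this
        exact FN1_1 this
    · exact hxy (rimend _ j k hj hkm s hs (fun p => by rw [add_comm]; exact hk p) hx)
  · have h1 : ∀ p : ℕ × ℕ, s⁻¹ * (ThV m (.rm i n)) p + (ThV m y) p = 0 := by
      intro p
      have h2 := hk p
      have h3 : s⁻¹ * ((ThV m (.rm i n)) p + s * (ThV m y) p) = 0 := by rw [h2, mul_zero]
      rw [mul_add, ← mul_assoc, inv_mul_cancel₀ hs, one_mul] at h3
      exact h3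
    exact hxy (rimend y i n hi hn s⁻¹ (inv_ne_zero hs) h1 hy).symm

end QG
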