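import Pool.Agent.Lib.QG.FL3

set_option autoImplicit false

namespace QG
open Set Matroid Submodule

/-- coordinate of vertex `n` of strand `i` -/
private def FN2_pt (m : ℕ → ℕ) (i n : ℕ) : ℕ × ℕ :=
  if n = 0 then (i, 0) else if n = m i then (i + 4, 0) else (i, n)

private theorem FN2_inj {m : ℕ → ℕ} {i j n k : ℕ} (hi : i < 3) (hj : j < 3)
    (h : FN2_pt m i n = FN2_pt m j k) : i = j ∧ n = k := by
  unfold FN2_pt at h
  split_ifs at h with h1 h2 h3 h4 h5 h6 h7 h8 <;> simp only [Prod.mk.injEq] at h <;>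
    first
    | omega
    | (obtain ⟨h', -⟩ := h
       have : i = j := by omega
       subst this
       exact ⟨rfl, by omega⟩)

/-- the vertices -/
private noncomputable def FN2_u (m : ℕ → ℕ) (i n : ℕ) : VV := msu m (fun i => e i 0) (LaB m) i n

private theorem FN2_u_eq (m : ℕ → ℕ) (i n : ℕ) : FN2_u m i n = Finsupp.single (FN2_pt m i n) 1 := by
  unfold FN2_u msu FN2_pt LaB e
  split_ifs with h1 h2 h3
  · rfl
  · omega
  · rfl
  · rfl

private theorem FN2_u_at {m : ℕ → ℕ} {i j n k : ℕ} (hi : i < 3) (hj : j < 3) :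
    (FN2_u m j k) (FN2_pt m i n) = if i = j ∧ n = k then 1 else 0 := by
  rw [FN2_u_eq, Finsupp.single_apply]
  by_cases h : i = j ∧ n = k
  · obtain ⟨rfl, rfl⟩ := h
    simp
  · rw [if_neg h, if_neg]
    intro h'
    exact h (FN2_inj hi hj h'.symm)

private theorem FN2_c (m : ℕ → ℕ) : Lac = FN2_u m 0 0 + FN2_u m 1 0 + FN2_u m 2 0 := by
  simp [Lac, FN2_u, msu]

private theorem FN2_end (m : ℕ → ℕ) (i : ℕ) : LaB m i = FN2_u m i (m i) := by
  unfold FN2_u msu LaB
  by_cases h : m i = 0 <;> simp [h]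

private theorem FN2_c' (m : ℕ → ℕ) : Lac' m =
    FN2_u m 0 (m 0) + F4.w • FN2_u m 1 (m 1) + F4.v • FN2_u m 2 (m 2) := by
  unfold Lac'
  rw [← FN2_end, ← FN2_end, ← FN2_end]

private theorem FN2_c_at {m : ℕ → ℕ} {i n : ℕ} (hi : i < 3) :
    Lac (FN2_pt m i n) = if n = 0 then 1 else 0 := by
  rw [FN2_c m, Finsupp.add_apply, Finsupp.add_apply, FN2_u_at hi (by norm_num),
    FN2_u_at hi (by norm_num), FN2_u_at hi (by norm_num)]
  interval_cases i <;> by_cases hn : n = 0 <;> simp [hn]

private theorem FN2_c'_at {m : ℕ → ℕ} {i n : ℕ} (hi : i < 3) :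
    (Lac' m) (FN2_pt m i n) = if n = m i then g3 i else 0 := by
  rw [FN2_c' m, Finsupp.add_apply, Finsupp.add_apply, Finsupp.smul_apply, Finsupp.smul_apply,
    FN2_u_at hi (by norm_num), FN2_u_at hi (by norm_num), FN2_u_at hi (by norm_num)]
  interval_cases i
  · by_cases hn : n = m 0
    · simp [hn, g3]
      rfl
    · simp [hn]
  · by_cases hn : n = m 1 <;> simp [hn, g3]
  · by_cases hn : n = m 2 <;> simp [hn, g3]

private theorem FN2_g3_inj {i j : ℕ} (hi : i < 3) (hj : j < 3) (h : g3 i = g3 j) : i = j := by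
  interval_cases i <;> interval_cases j <;> first | rfl | (exfalso; revert h; decide)

private theorem FN2_g3_ne (i : ℕ) : g3 i ≠ 0 := by
  unfold g3
  split_ifs <;> decide

/-- a combination of `c` and `c'` which vanishes on a strand with a rim -/
private theorem FN2_zero {m : ℕ → ℕ} {i : ℕ} (hi : i < 3) (hm : 1 ≤ m i) {γ δ : F4}
    (h : ∀ n, n ≤ m i → (γ • Lac + δ • Lac' m) (FN2_pt m i n) = 0) : γ = 0 ∧ δ = 0 := by
  have h0 := h 0 (Nat.zero_le _)
  have h1 := h (m i) le_rfl
  rw [Finsupp.add_apply, Finsupp.smul_apply, Finsupp.smul_apply, FN2_c_at hi, FN2_c'_at hi] at h0 h1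
  have e1 : ¬ (0 = m i) := by omega
  have e2 : ¬ (m i = 0) := by omega
  rw [if_pos rfl, if_neg e1] at h0
  rw [if_neg e2, if_pos rfl] at h1
  simp only [smul_eq_mul, mul_one, mul_zero, add_zero, zero_add] at h0 h1
  rcases mul_eq_zero.1 h1 with h2 | h2
  · exact ⟨h0, h2⟩
  · exact absurd h2 (FN2_g3_ne i)

/-- the strand of a label -/
private inductive FN2_In (m : ℕ → ℕ) : ℕ → Lab → Prop
  | vx {i n : ℕ} (h : n ≤ m i) : FN2_In m i (.vx i n)
  | rm {i n : ℕ} (h : n < m i) : FN2_In m i (.rm i n)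

private theorem FN2_off {m : ℕ → ℕ} {i j n : ℕ} {x : Lab} (hx : FN2_In m i x) (hi : i < 3)
    (hj : j < 3) (hij : i ≠ j) : (LaV m x) (FN2_pt m j n) = 0 := by
  cases hx with
  | vx h =>
    change (FN2_u m i _) _ = 0
    rw [FN2_u_at hj hi, if_neg]
    rintro ⟨h1, -⟩
    exact hij h1.symm
  | rm h =>
    change (FN2_u m i _ + FN2_u m i _) _ = 0
    rw [Finsupp.add_apply, FN2_u_at hj hi, FN2_u_at hj hi, if_neg, if_neg, add_zero]
    · rintro ⟨h1, -⟩
      exact hij h1.symm
    · rintro ⟨h1, -⟩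
      exact hij h1.symm

private theorem FN2_vx_at {m : ℕ → ℕ} {i n k : ℕ} (hi : i < 3) :
    (LaV m (.vx i k)) (FN2_pt m i n) = if n = k then 1 else 0 := by
  change (FN2_u m i _) _ = _
  rw [FN2_u_at hi hi]
  simp

private theorem FN2_rm_at {m : ℕ → ℕ} {i n k : ℕ} (hi : i < 3) :
    (LaV m (.rm i k)) (FN2_pt m i n) = (if n = k then 1 else 0) + (if n = k + 1 then 1 else 0) := by
  change (FN2_u m i _ + FN2_u m i _) _ = _
  rw [Finsupp.add_apply, FN2_u_at hi hi, FN2_u_at hi hi]
  simp

/-- different labels of one strand are not parallel -/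
private theorem FN2_same {m : ℕ → ℕ} {i : ℕ} {x y : Lab} (hi : i < 3) (hx : FN2_In m i x)
    (hy : FN2_In m i y) (hxy : x ≠ y) (s : F4)
    (h : ∀ n, n ≤ m i → (LaV m x + s • LaV m y) (FN2_pt m i n) = 0) : False := by
  have h' : ∀ n, n ≤ m i → (LaV m x) (FN2_pt m i n) + s * (LaV m y) (FN2_pt m i n) = 0 := by
    intro n hn
    have := h n hn
    rwa [Finsupp.add_apply, Finsupp.smul_apply, smul_eq_mul] at this
  have one_ne : (1 : F4) ≠ 0 := by decide
  cases hx with
  | @vx n hn =>
    cases hy with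
    | @vx k hk =>
      have hne : n ≠ k := fun e => hxy (by rw [e])
      have h1 := h' n hn
      rw [FN2_vx_at hi, FN2_vx_at hi, if_pos rfl, if_neg hne, mul_zero, add_zero] at h1
      exact one_ne h1
    | @rm k hk =>
      have h1 := h' k hk.le
      have h2 := h' (k + 1) hk
      rw [FN2_vx_at hi, FN2_rm_at hi] at h1 h2
      have e1 : ¬ (k = k + 1) := by omega
      have e2 : ¬ (k + 1 = k) := by omega
      rw [if_pos rfl, if_neg e1, add_zero, mul_one] at h1
      rw [if_pos rfl, if_neg e2, zero_add, mul_one] at h2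
      have h3 := h' n hn
      rw [FN2_vx_at hi, FN2_rm_at hi, if_pos rfl] at h3
      by_cases e3 : k = n
      · subst e3
        rw [if_neg e2, zero_add] at h2
        rw [h2, if_pos rfl, if_neg e1, add_zero, zero_mul, add_zero] at h3
        exact one_ne h3
      · rw [if_neg e3, zero_add] at h1
        rw [h1, zero_mul, add_zero] at h3
        exact one_ne h3
  | @rm n hn =>
    cases hy with
    | @vx k hk =>
      have h1 := h' n hn.le
      have h2 := h' (n + 1) hn
      rw [FN2_vx_at hi, FN2_rm_at hi] at h1 h2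
      have e1 : ¬ (n = n + 1) := by omega
      have e2 : ¬ (n + 1 = n) := by omega
      rw [if_pos rfl, if_neg e1, add_zero] at h1
      rw [if_pos rfl, if_neg e2, zero_add] at h2
      by_cases e3 : n = k
      · have e4 : ¬ (n + 1 = k) := by omega
        rw [if_neg e4, mul_zero, add_zero] at h2
        exact one_ne h2
      · rw [if_neg e3, mul_zero, add_zero] at h1
        exact one_ne h1
    | @rm k hk =>
      have hne : n ≠ k := fun e => hxy (by rw [e])
      have h1 := h' n hn.le
      have h2 := h' (n + 1) hn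
      rw [FN2_rm_at hi, FN2_rm_at hi] at h1 h2
      have e1 : ¬ (n = n + 1) := by omega
      have e2 : ¬ (n + 1 = n) := by omega
      rw [if_pos rfl, if_neg e1, add_zero, if_neg hne, zero_add] at h1
      have e5 : ¬ (n + 1 = k + 1) := by omega
      rw [if_pos rfl, if_neg e2, zero_add, if_neg e5, add_zero] at h2
      by_cases e3 : n = k + 1
      · have e4 : ¬ (n + 1 = k) := by omega
        rw [if_neg e4, mul_zero, add_zero] at h2
        exact one_ne h2
      · rw [if_neg e3, mul_zero, add_zero] at h1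
        exact one_ne h1

/-- a label vector equal to a combination of `c` and `c'` on its strand -/
private theorem FN2_one {m : ℕ → ℕ} {i : ℕ} {x : Lab} (hi : i < 3) (hx : FN2_In m i x)
    (hm : 1 ≤ m i) {γ δ : F4} (hγ : γ = 0 ↔ δ = 0)
    (h : ∀ n, n ≤ m i → (LaV m x + (γ • Lac + δ • Lac' m)) (FN2_pt m i n) = 0) :
    γ = δ * g3 i ∧ δ ≠ 0 := by
  have h' : ∀ n, n ≤ m i → (LaV m x) (FN2_pt m i n) +
      (γ * (if n = 0 then 1 else 0) + δ * (if n = m i then g3 i else 0)) = 0 := by
    intro n hn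
    have := h n hn
    rwa [Finsupp.add_apply, Finsupp.add_apply, Finsupp.smul_apply, Finsupp.smul_apply,
      smul_eq_mul, smul_eq_mul, FN2_c_at hi, FN2_c'_at hi] at this
  have one_ne : (1 : F4) ≠ 0 := by decide
  have e1 : ¬ (0 = m i) := by omega
  have e2 : ¬ (m i = 0) := by omega
  cases hx with
  | @vx n hn =>
    exfalso
    have h0 := h' 0 (Nat.zero_le _)
    have h1 := h' (m i) le_rfl
    have h2 := h' n hn
    rw [FN2_vx_at hi] at h0 h1 h2
    rw [if_pos rfl, if_neg e1, mul_one, mul_zero, add_zero] at h0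
    rw [if_neg e2, if_pos rfl, mul_zero, zero_add] at h1
    rw [if_pos rfl] at h2
    by_cases e3 : n = 0
    · subst e3
      rw [if_neg e2, zero_add] at h1
      have hd : δ = 0 := by
        rcases mul_eq_zero.1 h1 with h3 | h3
        · exact h3
        · exact absurd h3 (FN2_g3_ne i)
      rw [hd, hγ.2 hd] at h2
      simp at h2
    · have e4 : ¬ (0 = n) := fun e => e3 e.symm
      rw [if_neg e4, zero_add] at h0
      rw [h0, hγ.1 h0] at h2
      simp at h2
  | @rm n hn =>
    have h1 := h' n hn.le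
    have h2 := h' (n + 1) hn
    rw [FN2_rm_at hi] at h1 h2
    have e3 : ¬ (n = n + 1) := by omega
    have e4 : ¬ (n + 1 = n) := by omega
    have e5 : ¬ (n = m i) := by omega
    have e6 : ¬ (n + 1 = 0) := by omega
    rw [if_pos rfl, if_neg e3, add_zero, if_neg e5, mul_zero, add_zero] at h1
    rw [if_neg e4, if_pos rfl, zero_add, if_neg e6, mul_zero, zero_add] at h2
    by_cases e7 : n = 0
    · rw [if_pos e7, mul_one] at h1
      by_cases e8 : n + 1 = m i
      · rw [if_pos e8] at h2
        have h3 : (1 : F4) = γ := by rw [← vadd_eq_zero]; exact h1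
        have h4 : (1 : F4) = δ * g3 i := by rw [← vadd_eq_zero]; exact h2
        refine ⟨h3.symm.trans h4, ?_⟩
        rintro rfl
        rw [zero_mul] at h4
        exact one_ne h4
      · rw [if_neg e8, mul_zero, add_zero] at h2
        exact absurd h2 one_ne
    · rw [if_neg e7, mul_zero, add_zero] at h1
      exact absurd h1 one_ne

/-- the main statement for labels of the strands -/
private theorem FN2_main {m : ℕ → ℕ} (hm : LaOk m) {i j : ℕ} {x y : Lab} (hi : i < 3)
    (hj : j < 3) (hx : FN2_In m i x) (hy : FN2_In m j y) (hxy : x ≠ y) (s γ δ : F4) :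
    LaV m x + s • LaV m y + (γ • Lac + δ • Lac' m) ≠ 0 := by
  intro h
  have hat : ∀ q, (LaV m x + s • LaV m y + (γ • Lac + δ • Lac' m)) q = 0 := by
    intro q
    rw [h]
    rfl
  by_cases hij : i = j
  · subst hij
    -- another strand has a rim
    obtain ⟨k, hk, hki, hmk⟩ : ∃ k < 3, k ≠ i ∧ 1 ≤ m k := by
      by_contra hcon
      push Not at hcon
      have h1 : ∃ k l, k < 3 ∧ l < 3 ∧ k ≠ i ∧ l ≠ i ∧ k ≠ l := by
        interval_cases i
        · exact ⟨1, 2, by norm_num, by norm_num, by norm_num, by norm_num, by norm_num⟩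
        · exact ⟨0, 2, by norm_num, by norm_num, by norm_num, by norm_num, by norm_num⟩
        · exact ⟨0, 1, by norm_num, by norm_num, by norm_num, by norm_num, by norm_num⟩
      obtain ⟨k, l, hk, hl, hki, hli, hkl⟩ := h1
      exact hkl (hm k hk l hl (by have := hcon k hk hki; omega) (by have := hcon l hl hli; omega))
    have h1 : γ = 0 ∧ δ = 0 := by
      refine FN2_zero hk hmk fun n hn => ?_
      have := hat (FN2_pt m k n)
      rwa [Finsupp.add_apply, Finsupp.add_apply, Finsupp.smul_apply, FN2_off hx hi hk hki.symm,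
        FN2_off hy hi hk hki.symm, smul_zero, zero_add, zero_add] at this
    refine FN2_same hi hx hy hxy s fun n hn => ?_
    have := hat (FN2_pt m i n)
    rwa [h1.1, h1.2, zero_smul, zero_smul, add_zero, add_zero] at this
  · obtain ⟨k, hk, hki, hkj⟩ : ∃ k < 3, k ≠ i ∧ k ≠ j :=
      ⟨3 - i - j, by omega, by omega, by omega⟩
    have hK : ∀ n, n ≤ m k → (γ • Lac + δ • Lac' m) (FN2_pt m k n) = 0 := by
      intro n hn
      have := hat (FN2_pt m k n)
      rwa [Finsupp.add_apply, Finsupp.add_apply, Finsupp.smul_apply, FN2_off hx hi hk hki.symm,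
        FN2_off hy hj hk hkj.symm, smul_zero, zero_add, zero_add] at this
    have hI : ∀ n, n ≤ m i → (LaV m x + (γ • Lac + δ • Lac' m)) (FN2_pt m i n) = 0 := by
      intro n hn
      have := hat (FN2_pt m i n)
      rw [Finsupp.add_apply, Finsupp.add_apply, Finsupp.smul_apply,
        FN2_off hy hj hi (Ne.symm hij), smul_zero, add_zero] at this
      rw [Finsupp.add_apply]
      exact this
    by_cases hmk : 1 ≤ m k
    · obtain ⟨rfl, rfl⟩ := FN2_zero hk hmk hK
      by_cases hmi : 1 ≤ m i
      · exact (FN2_one hi hx hmi Iff.rfl hI).2 rfl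
      · have hmi0 : m i = 0 := by omega
        have h0 := hI 0 (Nat.zero_le _)
        rw [zero_smul, zero_smul, add_zero, add_zero] at h0
        cases hx with
        | @vx n hn =>
          have : n = 0 := by omega
          subst this
          rw [FN2_vx_at hi, if_pos rfl] at h0
          exact (by decide : (1 : F4) ≠ 0) h0
        | @rm n hn => omega
    · have hmk0 : m k = 0 := by omega
      have hmi : 1 ≤ m i := by
        by_contra hcon
        exact hki (hm k hk i hi hmk0 (by omega))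
      have h0 := hK 0 (Nat.zero_le _)
      rw [Finsupp.add_apply, Finsupp.smul_apply, Finsupp.smul_apply, FN2_c_at hk, FN2_c'_at hk,
        if_pos rfl, if_pos hmk0.symm, smul_eq_mul, smul_eq_mul, mul_one, vadd_eq_zero] at h0
      have hγ : γ = 0 ↔ δ = 0 := by
        rw [h0, mul_eq_zero]
        constructor
        · rintro (h | h)
          · exact h
          · exact absurd h (FN2_g3_ne k)
        · exact Or.inl
      obtain ⟨h1, h2⟩ := FN2_one hi hx hmi hγ hI
      rw [h0] at h1
      exact hki (FN2_g3_inj hk hi (mul_left_cancel₀ h2 h1))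

private theorem FN2_other (m : ℕ → ℕ) (x : Lab) : ∃ j < 3, ∃ y, FN2_In m j y ∧ x ≠ y := by
  by_cases h : x = .vx 0 0
  · refine ⟨1, by norm_num, .vx 1 0, .vx (Nat.zero_le _), ?_⟩
    rw [h]
    intro h'
    cases h'
  · exact ⟨0, by norm_num, .vx 0 0, .vx (Nat.zero_le _), h⟩

private theorem FN2_single {m : ℕ → ℕ} (hm : LaOk m) {i : ℕ} {x : Lab} (hi : i < 3)
    (hx : FN2_In m i x) (γ δ : F4) : LaV m x + (γ • Lac + δ • Lac' m) ≠ 0 := by
  obtain ⟨j, hj, y, hy, hxy⟩ := FN2_other m x
  have := FN2_main hm hi hj hx hy hxy 0 γ δ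
  rwa [zero_smul, add_zero] at this

private theorem FN2_tips {m : ℕ → ℕ} (hm : LaOk m) {γ δ : F4} (h : γ • Lac + δ • Lac' m = 0) :
    γ = 0 ∧ δ = 0 := by
  obtain ⟨k, hk, hmk⟩ : ∃ k < 3, 1 ≤ m k := by
    by_contra hcon
    push Not at hcon
    have := hm 0 (by norm_num) 1 (by norm_num) (by have := hcon 0 (by norm_num); omega)
      (by have := hcon 1 (by norm_num); omega)
    omega
  refine FN2_zero hk hmk fun n _ => ?_
  rw [h]
  rfl

private theorem FN2_mem {a b : Bool} {m : ℕ → ℕ} {z : VV} (h : z ∈ LaK a b m) :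
    ∃ α β : F4, (a = true → α = 0) ∧ (b = true → β = 0) ∧ z = α • Lac + β • Lac' m := by
  unfold LaK at h
  rw [span_union, Submodule.mem_sup] at h
  obtain ⟨y, hy, z', hz, rfl⟩ := h
  have h1 : ∃ α : F4, (a = true → α = 0) ∧ y = α • Lac := by
    cases a with
    | true =>
      have : bs (!true) {Lac} = (∅ : Set VV) := by
        ext t
        simp [bs]
      rw [this, span_empty, Submodule.mem_bot] at hy
      exact ⟨0, fun _ => rfl, by rw [hy, zero_smul]⟩
    | false =>
      have : bs (!false) {Lac} = ({Lac} : Set VV) := by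
        ext t
        simp [bs]
      rw [this, Submodule.mem_span_singleton] at hy
      obtain ⟨α, rfl⟩ := hy
      exact ⟨α, fun h => absurd h (by decide), rfl⟩
  have h2 : ∃ β : F4, (b = true → β = 0) ∧ z' = β • Lac' m := by
    cases b with
    | true =>
      have : bs (!true) {Lac' m} = (∅ : Set VV) := by
        ext t
        simp [bs]
      rw [this, span_empty, Submodule.mem_bot] at hz
      exact ⟨0, fun _ => rfl, by rw [hz, zero_smul]⟩
    | false =>
      have : bs (!false) {Lac' m} = ({Lac' m} : Set VV) := by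
        ext t
        simp [bs]
      rw [this, Submodule.mem_span_singleton] at hz
      obtain ⟨β, rfl⟩ := hz
      exact ⟨β, fun h => absurd h (by decide), rfl⟩
  obtain ⟨α, hα, rfl⟩ := h1
  obtain ⟨β, hβ, rfl⟩ := h2
  exact ⟨α, β, hα, hβ, rfl⟩

private theorem FN2_cases {a b : Bool} {m : ℕ → ℕ} {x : Lab} (hx : x ∈ LaE a b m) :
    (a = true ∧ x = .tp 0) ∨ (b = true ∧ x = .tp 1) ∨ ∃ i < 3, FN2_In m i x := by
  unfold LaE at hx
  rw [Finset.mem_union, Finset.mem_union, mem_tps, mem_vts, mem_rims] at hx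
  rcases hx with (h | h) | ⟨i, hi, n, hn, rfl⟩ | ⟨i, hi, n, hn, rfl⟩
  · exact Or.inl h
  · exact Or.inr (Or.inl h)
  · exact Or.inr (Or.inr ⟨i, mem_I3.1 hi, .vx hn⟩)
  · exact Or.inr (Or.inr ⟨i, mem_I3.1 hi, .rm hn⟩)

private theorem FN2_tp0 (m : ℕ → ℕ) : LaV m (.tp 0) = Lac := rfl
private theorem FN2_tp1 (m : ℕ → ℕ) : LaV m (.tp 1) = Lac' m := rfl

theorem np_La (a b : Bool) (m : ℕ → ℕ) (hm : LaOk m) :
    NP (LaK a b m) (LaE a b m) (LaV m) := by
  have one_ne : (1 : F4) ≠ 0 := by decide
  constructor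
  · intro x hx hK
    obtain ⟨α, β, hα, hβ, h⟩ := FN2_mem hK
    rcases FN2_cases hx with ⟨ha, rfl⟩ | ⟨hb, rfl⟩ | ⟨i, hi, hxi⟩
    · rw [FN2_tp0, hα ha, zero_smul, zero_add] at h
      have h1 : (1 : F4) • Lac + β • Lac' m = 0 := by
        rw [one_smul, vadd_eq_zero]
        exact h
      exact one_ne (FN2_tips hm h1).1
    · rw [FN2_tp1, hβ hb, zero_smul, add_zero] at h
      have h1 : α • Lac + (1 : F4) • Lac' m = 0 := by
        rw [one_smul, vadd_eq_zero]
        exact h.symm
      exact one_ne (FN2_tips hm h1).2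
    · exact FN2_single hm hi hxi α β (vadd_eq_zero.2 h)
  · intro x hx y hy hxy s hK
    obtain ⟨α, β, hα, hβ, h⟩ := FN2_mem hK
    rcases FN2_cases hx with ⟨ha, rfl⟩ | ⟨hb, rfl⟩ | ⟨i, hi, hxi⟩
    · rcases FN2_cases hy with ⟨ha', rfl⟩ | ⟨hb, rfl⟩ | ⟨j, hj, hyj⟩
      · exact hxy rfl
      · rw [FN2_tp0, FN2_tp1, hα ha, hβ hb, zero_smul, zero_smul, add_zero] at h
        have h1 : (1 : F4) • Lac + s • Lac' m = 0 := by
          rw [one_smul]
          exact h
        exact one_ne (FN2_tips hm h1).1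
      · rw [FN2_tp0, hα ha, zero_smul, zero_add] at h
        by_cases hs : s = 0
        · rw [hs, zero_smul, add_zero] at h
          have h1 : (1 : F4) • Lac + β • Lac' m = 0 := by
            rw [one_smul, vadd_eq_zero]
            exact h
          exact one_ne (FN2_tips hm h1).1
        · refine FN2_single hm hj hyj s⁻¹ (s⁻¹ * β) ?_
          have h1 : s⁻¹ • (Lac + s • LaV m y + β • Lac' m) = 0 := by
            rw [h, vadd_self, smul_zero]
          rw [smul_add, smul_add, smul_smul, smul_smul, inv_mul_cancel₀ hs, one_smul] at h1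
          rw [← add_assoc, add_comm (LaV m y)]
          exact h1
    · rcases FN2_cases hy with ⟨ha, rfl⟩ | ⟨hb', rfl⟩ | ⟨j, hj, hyj⟩
      · rw [FN2_tp0, FN2_tp1, hα ha, hβ hb, zero_smul, zero_smul, add_zero] at h
        have h1 : s • Lac + (1 : F4) • Lac' m = 0 := by
          rw [one_smul, add_comm]
          exact h
        exact one_ne (FN2_tips hm h1).2
      · exact hxy rfl
      · rw [FN2_tp1, hβ hb, zero_smul, add_zero] at h
        by_cases hs : s = 0
        · rw [hs, zero_smul, add_zero] at h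
          have h1 : α • Lac + (1 : F4) • Lac' m = 0 := by
            rw [one_smul, vadd_eq_zero]
            exact h.symm
          exact one_ne (FN2_tips hm h1).2
        · refine FN2_single hm hj hyj (s⁻¹ * α) s⁻¹ ?_
          have h1 : s⁻¹ • (Lac' m + s • LaV m y + α • Lac) = 0 := by
            rw [h, vadd_self, smul_zero]
          rw [smul_add, smul_add, smul_smul, smul_smul, inv_mul_cancel₀ hs, one_smul] at h1
          rw [add_comm ((s⁻¹ * α) • Lac), ← add_assoc, add_comm (LaV m y)]
          exact h1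
    · rcases FN2_cases hy with ⟨ha, rfl⟩ | ⟨hb, rfl⟩ | ⟨j, hj, hyj⟩
      · rw [FN2_tp0, hα ha, zero_smul, zero_add] at h
        refine FN2_single hm hi hxi s β ?_
        rw [← add_assoc, vadd_eq_zero]
        exact h
      · rw [FN2_tp1, hβ hb, zero_smul, add_zero] at h
        refine FN2_single hm hi hxi α s ?_
        rw [add_comm (α • Lac), ← add_assoc, vadd_eq_zero]
        exact h
      · exact FN2_main hm hi hj hxi hyj hxy s α β (vadd_eq_zero.2 h)

end QG
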