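import Pool.Agent.Lib.QG.FL3

set_option autoImplicit false

namespace QG
open Set Matroid Submodule

private theorem FN3_one : (1 : F4) ≠ 0 := by decide

private theorem FN3_e (i n j k : ℕ) : (e i n) (j, k) = if j = i ∧ k = n then (1 : F4) else 0 := by
  simp only [e, Finsupp.single_apply, Prod.mk.injEq]
  by_cases h : i = j ∧ n = k
  · rw [if_pos h, if_pos ⟨h.1.symm, h.2.symm⟩]
  · rw [if_neg h, if_neg fun h' => h ⟨h'.1.symm, h'.2.symm⟩]

private theorem FN3_dec {I : Finset ℕ} (h0 : 0 ∉ I) (j k : ℕ) :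
    (Dec I) (j, k) = if k = 0 ∧ (j = 0 ∨ j ∈ I) then (1 : F4) else 0 := by
  unfold Dec
  rw [Finsupp.add_apply, FN3_e, Finsupp.finsetSum_apply]
  have h1 : ∑ i ∈ I, (e i 0) (j, k) = if k = 0 ∧ j ∈ I then (1 : F4) else 0 := by
    by_cases hj : j ∈ I
    · rw [Finset.sum_eq_single j]
      · rw [FN3_e]
        by_cases hk : k = 0
        · rw [if_pos ⟨rfl, hk⟩, if_pos ⟨hk, hj⟩]
        · rw [if_neg fun h => hk h.2, if_neg fun h => hk h.1]
      · intro i _ hij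
        rw [FN3_e, if_neg fun h => hij h.1.symm]
      · intro h
        exact absurd hj h
    · rw [if_neg fun h => hj h.2]
      refine Finset.sum_eq_zero fun i hi => ?_
      rw [FN3_e, if_neg]
      rintro ⟨rfl, -⟩
      exact hj hi
  rw [h1]
  by_cases hk : k = 0
  · by_cases hj : j = 0
    · rw [if_pos ⟨hj, hk⟩, if_neg, if_pos ⟨hk, Or.inl hj⟩, add_zero]
      rintro ⟨-, h2⟩
      rw [hj] at h2
      exact h0 h2
    · by_cases hjI : j ∈ I
      · rw [if_neg fun h => hj h.1, if_pos ⟨hk, hjI⟩, if_pos ⟨hk, Or.inr hjI⟩, zero_add]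
      · rw [if_neg fun h => hj h.1, if_neg fun h => hjI h.2, if_neg, zero_add]
        rintro ⟨-, h | h⟩
        · exact hj h
        · exact hjI h
  · rw [if_neg fun h => hk h.2, if_neg fun h => hk h.1, if_neg fun h => hk h.1, zero_add]

private theorem FN3_vx {g : F4} {I : Finset ℕ} {l : ℕ → ℕ} {i n : ℕ} (hn : n < l i) :
    DeV g I l (.vx i n) = e i n := by
  simp only [DeV, vec_vx, msu]
  split_ifs with h1 h2
  · rw [h1]
  · omega
  · rfl

private theorem FN3_rm {g : F4} {I : Finset ℕ} {l : ℕ → ℕ} {i n : ℕ} (hn : n < l i) :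
    DeV g I l (.rm i n) = e i n + (if n + 1 = l i then g • e 0 0 else e i (n + 1)) := by
  have h := FN3_vx (g := g) (I := I) hn
  simp only [DeV, vec_vx] at h
  simp only [DeV, vec_rm]
  rw [h]
  congr 1

/-- the support of the vector of a label -/
private def FN3_S (I : Finset ℕ) (l : ℕ → ℕ) (x : Lab) (j k : ℕ) : Prop :=
  match x with
  | .tp 0 => j = 0 ∧ k = 0
  | .tp (_ + 1) => k = 0 ∧ (j = 0 ∨ j ∈ I)
  | .vx i n => j = i ∧ k = n
  | .rm i n => (j = i ∧ k = n) ∨ (n + 1 = l i ∧ j = 0 ∧ k = 0) ∨ (n + 1 ≠ l i ∧ j = i ∧ k = n + 1)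

private theorem FN3_cases {a b : Bool} {I : Finset ℕ} {l : ℕ → ℕ} {x : Lab}
    (hx : x ∈ DeE a b I l) :
    (a = true ∧ x = .tp 0) ∨ (b = true ∧ x = .tp 1) ∨
      (∃ i ∈ I, ∃ n < l i, x = .vx i n) ∨ ∃ i ∈ I, ∃ n < l i, x = .rm i n := by
  unfold DeE at hx
  rw [Finset.mem_union, Finset.mem_union, mem_tps, mem_vlt, mem_rims] at hx
  rcases hx with (h | h) | ⟨i, hi, n, hn, rfl⟩ | ⟨i, hi, n, hn, rfl⟩
  · exact Or.inl h
  · exact Or.inr (Or.inl h)
  · exact Or.inr (Or.inr (Or.inl ⟨i, hi, n, hn, rfl⟩))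
  · exact Or.inr (Or.inr (Or.inr ⟨i, hi, n, hn, rfl⟩))

private theorem FN3_supp {g : F4} {a b : Bool} {I : Finset ℕ} {l : ℕ → ℕ} (h : DeOk g I l)
    {x : Lab} (hx : x ∈ DeE a b I l) (j k : ℕ) :
    (DeV g I l x) (j, k) ≠ 0 ↔ FN3_S I l x j k := by
  have hg : g ≠ 0 := by
    rcases h.g_ne with rfl | rfl <;> decide
  rcases FN3_cases hx with ⟨-, rfl⟩ | ⟨-, rfl⟩ | ⟨i, hi, n, hn, rfl⟩ | ⟨i, hi, n, hn, rfl⟩
  · change (e 0 0) (j, k) ≠ 0 ↔ (j = 0 ∧ k = 0)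
    rw [FN3_e]
    by_cases h1 : j = 0 ∧ k = 0
    · rw [if_pos h1]
      exact ⟨fun _ => h1, fun _ => FN3_one⟩
    · rw [if_neg h1]
      exact ⟨fun h2 => absurd rfl h2, fun h2 => absurd h2 h1⟩
  · change (Dec I) (j, k) ≠ 0 ↔ (k = 0 ∧ (j = 0 ∨ j ∈ I))
    rw [FN3_dec h.zero]
    by_cases h1 : k = 0 ∧ (j = 0 ∨ j ∈ I)
    · rw [if_pos h1]
      exact ⟨fun _ => h1, fun _ => FN3_one⟩
    · rw [if_neg h1]
      exact ⟨fun h2 => absurd rfl h2, fun h2 => absurd h2 h1⟩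
  · rw [FN3_vx hn, FN3_e]
    change _ ↔ (j = i ∧ k = n)
    by_cases h1 : j = i ∧ k = n
    · rw [if_pos h1]
      exact ⟨fun _ => h1, fun _ => FN3_one⟩
    · rw [if_neg h1]
      exact ⟨fun h2 => absurd rfl h2, fun h2 => absurd h2 h1⟩
  · have hi0 : i ≠ 0 := by
      rintro rfl
      exact h.zero hi
    rw [FN3_rm hn, Finsupp.add_apply, FN3_e]
    change _ ↔ ((j = i ∧ k = n) ∨ (n + 1 = l i ∧ j = 0 ∧ k = 0) ∨
      (n + 1 ≠ l i ∧ j = i ∧ k = n + 1))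
    by_cases h1 : j = i ∧ k = n
    · rw [if_pos h1]
      have h2 : (if n + 1 = l i then g • e 0 0 else e i (n + 1)) (j, k) = 0 := by
        split_ifs
        · rw [Finsupp.smul_apply, FN3_e, if_neg (by omega), smul_zero]
        · rw [FN3_e, if_neg (by omega)]
      rw [h2, add_zero]
      exact ⟨fun _ => Or.inl h1, fun _ => FN3_one⟩
    · rw [if_neg h1, zero_add]
      by_cases h3 : n + 1 = l i
      · rw [if_pos h3, Finsupp.smul_apply, FN3_e]
        by_cases h4 : j = 0 ∧ k = 0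
        · rw [if_pos h4, smul_eq_mul, mul_one]
          exact ⟨fun _ => Or.inr (Or.inl ⟨h3, h4⟩), fun _ => hg⟩
        · rw [if_neg h4, smul_zero]
          refine ⟨fun h2 => absurd rfl h2, ?_⟩
          rintro (h5 | ⟨-, h5⟩ | ⟨h5, -⟩)
          · exact absurd h5 h1
          · exact absurd h5 h4
          · exact absurd h3 h5
      · rw [if_neg h3, FN3_e]
        by_cases h4 : j = i ∧ k = n + 1
        · rw [if_pos h4]
          exact ⟨fun _ => Or.inr (Or.inr ⟨h3, h4⟩), fun _ => FN3_one⟩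
        · rw [if_neg h4]
          refine ⟨fun h2 => absurd rfl h2, ?_⟩
          rintro (h5 | ⟨h5, -⟩ | ⟨-, h5⟩)
          · exact absurd h5 h1
          · exact absurd h5 h3
          · exact absurd h5 h4

/-- every support is nonempty -/
private theorem FN3_ne {a b : Bool} {I : Finset ℕ} {l : ℕ → ℕ}
    {x : Lab} (hx : x ∈ DeE a b I l) : ∃ j k, FN3_S I l x j k := by
  rcases FN3_cases hx with ⟨-, rfl⟩ | ⟨-, rfl⟩ | ⟨i, hi, n, hn, rfl⟩ | ⟨i, hi, n, hn, rfl⟩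
  · exact ⟨0, 0, rfl, rfl⟩
  · exact ⟨0, 0, rfl, Or.inl rfl⟩
  · exact ⟨i, n, rfl, rfl⟩
  · exact ⟨i, n, Or.inl ⟨rfl, rfl⟩⟩

/-- different labels have different supports -/
private theorem FN3_dist {g : F4} {a b : Bool} {I : Finset ℕ} {l : ℕ → ℕ} (h : DeOk g I l)
    {x y : Lab} (hx : x ∈ DeE a b I l) (hy : y ∈ DeE a b I l)
    (hs : ∀ j k, FN3_S I l x j k ↔ FN3_S I l y j k) : x = y := by
  have h0 := h.zero
  obtain ⟨p, hp, q, hq, hpq⟩ := Finset.one_lt_card.1 (by have := h.two; omega : 1 < I.card)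
  have hp0 : p ≠ 0 := by
    rintro rfl
    exact h0 hp
  have hq0 : q ≠ 0 := by
    rintro rfl
    exact h0 hq
  rcases FN3_cases hx with ⟨-, rfl⟩ | ⟨-, rfl⟩ | ⟨i, hi, n, hn, rfl⟩ | ⟨i, hi, n, hn, rfl⟩ <;>
    rcases FN3_cases hy with ⟨-, rfl⟩ | ⟨-, rfl⟩ | ⟨j, hj, m, hm, rfl⟩ | ⟨j, hj, m, hm, rfl⟩
  · rfl
  · have h1 : p = 0 ∧ 0 = 0 := (hs p 0).2 ⟨rfl, Or.inr hp⟩
    exact absurd h1.1 hp0
  · have h1 : j = 0 ∧ m = 0 := (hs j m).2 ⟨rfl, rfl⟩
    rw [h1.1] at hj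
    exact absurd hj h0
  · have h1 : j = 0 ∧ m = 0 := (hs j m).2 (Or.inl ⟨rfl, rfl⟩)
    rw [h1.1] at hj
    exact absurd hj h0
  · have h1 : p = 0 ∧ 0 = 0 := (hs p 0).1 ⟨rfl, Or.inr hp⟩
    exact absurd h1.1 hp0
  · rfl
  · have h1 : 0 = j ∧ 0 = m := (hs 0 0).1 ⟨rfl, Or.inl rfl⟩
    rw [← h1.1] at hj
    exact absurd hj h0
  · exfalso
    have h1 : (p = j ∧ 0 = m) ∨ (m + 1 = l j ∧ p = 0 ∧ 0 = 0) ∨ (m + 1 ≠ l j ∧ p = j ∧ 0 = m + 1) :=
      (hs p 0).1 ⟨rfl, Or.inr hp⟩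
    have h2 : (q = j ∧ 0 = m) ∨ (m + 1 = l j ∧ q = 0 ∧ 0 = 0) ∨ (m + 1 ≠ l j ∧ q = j ∧ 0 = m + 1) :=
      (hs q 0).1 ⟨rfl, Or.inr hq⟩
    omega
  · have h1 : i = 0 ∧ n = 0 := (hs i n).1 ⟨rfl, rfl⟩
    rw [h1.1] at hi
    exact absurd hi h0
  · have h1 : 0 = i ∧ 0 = n := (hs 0 0).2 ⟨rfl, Or.inl rfl⟩
    rw [← h1.1] at hi
    exact absurd hi h0
  · have h1 : i = j ∧ n = m := (hs i n).1 ⟨rfl, rfl⟩
    rw [h1.1, h1.2]
  · exfalso
    have h1 : (i = j ∧ n = m) ∨ (m + 1 = l j ∧ i = 0 ∧ n = 0) ∨ (m + 1 ≠ l j ∧ i = j ∧ n = m + 1) :=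
      (hs i n).1 ⟨rfl, rfl⟩
    have h2 : j = i ∧ m = n := (hs j m).2 (Or.inl ⟨rfl, rfl⟩)
    by_cases h3 : m + 1 = l j
    · have h4 : 0 = i ∧ 0 = n := (hs 0 0).2 (Or.inr (Or.inl ⟨h3, rfl, rfl⟩))
      rw [← h4.1] at hi
      exact absurd hi h0
    · have h4 : j = i ∧ m + 1 = n := (hs j (m + 1)).2 (Or.inr (Or.inr ⟨h3, rfl, rfl⟩))
      omega
  · have h1 : i = 0 ∧ n = 0 := (hs i n).1 (Or.inl ⟨rfl, rfl⟩)
    rw [h1.1] at hi
    exact absurd hi h0
  · exfalso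
    have h1 : (p = i ∧ 0 = n) ∨ (n + 1 = l i ∧ p = 0 ∧ 0 = 0) ∨ (n + 1 ≠ l i ∧ p = i ∧ 0 = n + 1) :=
      (hs p 0).2 ⟨rfl, Or.inr hp⟩
    have h2 : (q = i ∧ 0 = n) ∨ (n + 1 = l i ∧ q = 0 ∧ 0 = 0) ∨ (n + 1 ≠ l i ∧ q = i ∧ 0 = n + 1) :=
      (hs q 0).2 ⟨rfl, Or.inr hq⟩
    omega
  · exfalso
    have h2 : i = j ∧ n = m := (hs i n).1 (Or.inl ⟨rfl, rfl⟩)
    by_cases h3 : n + 1 = l i
    · have h4 : 0 = j ∧ 0 = m := (hs 0 0).1 (Or.inr (Or.inl ⟨h3, rfl, rfl⟩))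
      rw [← h4.1] at hj
      exact absurd hj h0
    · have h4 : i = j ∧ n + 1 = m := (hs i (n + 1)).1 (Or.inr (Or.inr ⟨h3, rfl, rfl⟩))
      omega
  · have hi0 : i ≠ 0 := by
      rintro rfl
      exact h0 hi
    have hj0 : j ≠ 0 := by
      rintro rfl
      exact h0 hj
    have h1 : (i = j ∧ n = m) ∨ (m + 1 = l j ∧ i = 0 ∧ n = 0) ∨ (m + 1 ≠ l j ∧ i = j ∧ n = m + 1) :=
      (hs i n).1 (Or.inl ⟨rfl, rfl⟩)
    have h2 : (j = i ∧ m = n) ∨ (n + 1 = l i ∧ j = 0 ∧ m = 0) ∨ (n + 1 ≠ l i ∧ j = i ∧ m = n + 1) :=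
      (hs j m).2 (Or.inl ⟨rfl, rfl⟩)
    have h3 : i = j ∧ n = m := by omega
    rw [h3.1, h3.2]

/-- the special point `z_j` is touched by the first labels of leg `j` only -/
private theorem FN3_touch {a : Bool} {I : Finset ℕ} {l : ℕ → ℕ} (h0 : 0 ∉ I)
    {x : Lab} (hx : x ∈ DeE a false I l) {j : ℕ} (hj : j ∈ I) (hS : FN3_S I l x j 0) :
    x = .vx j 0 ∨ x = .rm j 0 := by
  have hj0 : j ≠ 0 := by
    rintro rfl
    exact h0 hj
  rcases FN3_cases hx with ⟨-, rfl⟩ | ⟨hb, rfl⟩ | ⟨i, hi, n, hn, rfl⟩ | ⟨i, hi, n, hn, rfl⟩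
  · exact absurd hS.1 hj0
  · exact absurd hb (by decide)
  · have h1 : j = i ∧ 0 = n := hS
    rw [← h1.1, ← h1.2]
    exact Or.inl rfl
  · have h1 : (j = i ∧ 0 = n) ∨ (n + 1 = l i ∧ j = 0 ∧ 0 = 0) ∨ (n + 1 ≠ l i ∧ j = i ∧ 0 = n + 1) :=
      hS
    have h2 : j = i ∧ 0 = n := by omega
    rw [← h2.1, ← h2.2]
    exact Or.inr rfl

private theorem FN3_mem {b : Bool} {I : Finset ℕ} {z : VV} (h : z ∈ DeK b I) :
    ∃ α : F4, (b = true → α = 0) ∧ z = α • Dec I := by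
  unfold DeK at h
  cases b with
  | true =>
    have : bs (!true) {Dec I} = (∅ : Set VV) := by
      ext t
      simp [bs]
    rw [this, span_empty, Submodule.mem_bot] at h
    exact ⟨0, fun _ => rfl, by rw [h, zero_smul]⟩
  | false =>
    have : bs (!false) {Dec I} = ({Dec I} : Set VV) := by
      ext t
      simp [bs]
    rw [this, Submodule.mem_span_singleton] at h
    obtain ⟨α, rfl⟩ := h
    exact ⟨α, fun h => absurd h (by decide), rfl⟩

/-- the main statement -/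
private theorem FN3_main {g : F4} {a b : Bool} {I : Finset ℕ} {l : ℕ → ℕ} (h : DeOk g I l)
    {x y : Lab} (hx : x ∈ DeE a b I l) (hy : y ∈ DeE a b I l) (hxy : x ≠ y) (s α : F4)
    (hα : b = true → α = 0) : DeV g I l x + s • DeV g I l y ≠ α • Dec I := by
  intro heq
  have hat : ∀ j k, (DeV g I l x) (j, k) + s * (DeV g I l y) (j, k) =
      α * if k = 0 ∧ (j = 0 ∨ j ∈ I) then (1 : F4) else 0 := by
    intro j k
    have := DFunLike.congr_fun heq (j, k)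
    rwa [Finsupp.add_apply, Finsupp.smul_apply, Finsupp.smul_apply, smul_eq_mul, smul_eq_mul,
      FN3_dec h.zero] at this
  by_cases h0 : α = 0
  · subst h0
    -- different supports
    by_cases hs : s = 0
    · subst hs
      obtain ⟨j, k, hjk⟩ := FN3_ne hx
      have := hat j k
      rw [zero_mul, zero_mul, add_zero] at this
      exact (FN3_supp h hx j k).2 hjk this
    · refine hxy (FN3_dist h hx hy fun j k => ?_)
      have := hat j k
      rw [zero_mul] at this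
      rw [← FN3_supp h hx, ← FN3_supp h hy]
      constructor
      · intro h1 h2
        rw [h2, mul_zero, add_zero] at this
        exact h1 this
      · intro h1 h2
        rw [h2, zero_add] at this
        rcases mul_eq_zero.1 this with h3 | h3
        · exact hs h3
        · exact h1 h3
  · have hb : b = false := by
      cases b
      · rfl
      · exact absurd (hα rfl) h0
    subst hb
    -- every `z_j` is touched
    have ht : ∀ j ∈ I, (x = .vx j 0 ∨ x = .rm j 0) ∨ (y = .vx j 0 ∨ y = .rm j 0) := by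
      intro j hj
      have := hat j 0
      rw [if_pos ⟨rfl, Or.inr hj⟩, mul_one] at this
      by_cases h1 : (DeV g I l x) (j, 0) = 0
      · right
        refine FN3_touch h.zero hy hj ((FN3_supp h hy j 0).1 ?_)
        intro h2
        rw [h1, h2, mul_zero, add_zero] at this
        exact h0 this.symm
      · left
        exact FN3_touch h.zero hx hj ((FN3_supp h hx j 0).1 h1)
    have hcard : I.card = 2 := by
      by_contra hne
      have h3 : 2 < I.card := by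
        have := h.two
        omega
      obtain ⟨p, hp, q, hq, r, hr, hpq, hpr, hqr⟩ := Finset.two_lt_card.1 h3
      have h4 : ∀ {u : Lab} {i j : ℕ}, (u = .vx i 0 ∨ u = .rm i 0) → (u = .vx j 0 ∨ u = .rm j 0) →
          i = j := by
        rintro u i j (rfl | rfl) (h5 | h5)
        · cases h5; rfl
        · cases h5
        · cases h5
        · cases h5; rfl
      rcases ht p hp with h5 | h5 <;> rcases ht q hq with h6 | h6 <;> rcases ht r hr with h7 | h7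
      · exact hpq (h4 h5 h6)
      · exact hpq (h4 h5 h6)
      · exact hpr (h4 h5 h7)
      · exact hqr (h4 h6 h7)
      · exact hqr (h4 h6 h7)
      · exact hpr (h4 h5 h7)
      · exact hpq (h4 h5 h6)
      · exact hpq (h4 h5 h6)
    -- the tip is not touched
    have h5 : ∀ {u : Lab}, u ∈ DeE a false I l → (∃ j ∈ I, u = .vx j 0 ∨ u = .rm j 0) →
        (DeV g I l u) (0, 0) = 0 := by
      rintro u hu ⟨j, hj, hju⟩
      have hj0 : j ≠ 0 := by
        rintro rfl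
        exact h.zero hj
      have hl := h.big hcard j hj
      by_contra h6
      have h7 := (FN3_supp h hu 0 0).1 h6
      rcases hju with rfl | rfl
      · have h8 : 0 = j ∧ 0 = 0 := h7
        omega
      · have h8 : (0 = j ∧ 0 = 0) ∨ (0 + 1 = l j ∧ 0 = 0 ∧ 0 = 0) ∨
            (0 + 1 ≠ l j ∧ 0 = j ∧ 0 = 0 + 1) := h7
        omega
    obtain ⟨p, q, hpq, hI⟩ := Finset.card_eq_two.1 hcard
    have hp : p ∈ I := by rw [hI]; simp
    have hq : q ∈ I := by rw [hI]; simp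
    have h4 : ∀ {u : Lab}, (u = .vx p 0 ∨ u = .rm p 0) → (u = .vx q 0 ∨ u = .rm q 0) → False := by
      rintro u (rfl | rfl) (h5 | h5)
      · cases h5; exact hpq rfl
      · cases h5
      · cases h5
      · cases h5; exact hpq rfl
    have h6 : (∃ j ∈ I, x = .vx j 0 ∨ x = .rm j 0) ∧ (∃ j ∈ I, y = .vx j 0 ∨ y = .rm j 0) := by
      rcases ht p hp with h7 | h7 <;> rcases ht q hq with h8 | h8
      · exact (h4 h7 h8).elim
      · exact ⟨⟨p, hp, h7⟩, ⟨q, hq, h8⟩⟩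
      · exact ⟨⟨q, hq, h8⟩, ⟨p, hp, h7⟩⟩
      · exact (h4 h7 h8).elim
    have h9 := hat 0 0
    rw [h5 hx h6.1, h5 hy h6.2, mul_zero, add_zero, if_pos ⟨rfl, Or.inl rfl⟩, mul_one] at h9
    exact h0 h9.symm

private theorem FN3_other {g : F4} {a b : Bool} {I : Finset ℕ} {l : ℕ → ℕ} (h : DeOk g I l)
    (x : Lab) : ∃ y ∈ DeE a b I l, x ≠ y := by
  obtain ⟨p, hp, q, hq, hpq⟩ := Finset.one_lt_card.1 (by have := h.two; omega : 1 < I.card)
  have hm : ∀ i ∈ I, Lab.vx i 0 ∈ DeE a b I l := by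
    intro i hi
    unfold DeE
    rw [Finset.mem_union, Finset.mem_union, mem_vlt]
    exact Or.inr (Or.inl ⟨i, hi, 0, h.pos i hi, rfl⟩)
  by_cases hx : x = .vx p 0
  · refine ⟨.vx q 0, hm q hq, ?_⟩
    rw [hx]
    intro h1
    cases h1
    exact hpq rfl
  · exact ⟨.vx p 0, hm p hp, hx⟩

theorem np_De (g : F4) (a b : Bool) (I : Finset ℕ) (l : ℕ → ℕ) (h : DeOk g I l) :
    NP (DeK b I) (DeE a b I l) (DeV g I l) := by
  constructor
  · intro x hx hK
    obtain ⟨α, hα, h1⟩ := FN3_mem hK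
    obtain ⟨y, hy, hxy⟩ := FN3_other (a := a) (b := b) h x
    refine FN3_main h hx hy hxy 0 α hα ?_
    rw [zero_smul, add_zero]
    exact h1
  · intro x hx y hy hxy s hK
    obtain ⟨α, hα, h1⟩ := FN3_mem hK
    exact FN3_main h hx hy hxy s α hα h1

end QG
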