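import Pool.Agent.Lib.QG.FL3

set_option autoImplicit false

namespace QG
open Set Matroid Submodule

private theorem FN4_vx {r n : ℕ} (hn : n < r) : WhV r (.vx 0 n) = e 0 n := by
  simp only [WhV, vec_vx, msu]
  split_ifs with h1 h2
  · rw [h1]
  · omega
  · rfl

private theorem FN4_rm {r n : ℕ} (hn : n < r) : WhV r (.rm 0 n) =
    e 0 n + (if n + 1 = r then F4.w • e 0 0 else e 0 (n + 1)) := by
  have h := FN4_vx hn
  simp only [WhV, vec_vx] at h
  simp only [WhV, vec_rm]
  rw [h]
  congr 1

private theorem FN4_e (n k : ℕ) : (e 0 n) (0, k) = if k = n then (1 : F4) else 0 := by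
  simp only [e, Finsupp.single_apply, Prod.mk.injEq, true_and]
  by_cases h : n = k
  · simp [h]
  · rw [if_neg h, if_neg (fun h' => h h'.symm)]

private theorem FN4_cvx {r n : ℕ} (hn : n < r) (k : ℕ) :
    (WhV r (.vx 0 n)) (0, k) = if k = n then (1 : F4) else 0 := by
  rw [FN4_vx hn, FN4_e]

private theorem FN4_crm {r n : ℕ} (hn : n < r) (k : ℕ) :
    (WhV r (.rm 0 n)) (0, k) = (if k = n then (1 : F4) else 0) +
      (if n + 1 = r then (if k = 0 then F4.w else 0) else (if k = n + 1 then 1 else 0)) := by
  rw [FN4_rm hn, Finsupp.add_apply, FN4_e]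
  congr 1
  split_ifs with h1 h2 h3
  · rw [Finsupp.smul_apply, FN4_e, if_pos h2]; rfl
  · rw [Finsupp.smul_apply, FN4_e, if_neg h2]; rfl
  · rw [FN4_e, if_pos h3]
  · rw [FN4_e, if_neg h3]

private theorem FN4_mem {r : ℕ} {x : Lab} (h : x ∈ WhE r) :
    (∃ n < r, x = .vx 0 n) ∨ (∃ n < r, x = .rm 0 n) := by
  simp only [WhE, Finset.mem_union, mem_vlt, mem_rims, Finset.mem_singleton] at h
  rcases h with ⟨i, rfl, n, hn, rfl⟩ | ⟨i, rfl, n, hn, rfl⟩
  · exact Or.inl ⟨n, hn, rfl⟩
  · exact Or.inr ⟨n, hn, rfl⟩

private theorem FN4_w : (1 : F4) + F4.w ≠ 0 := by decide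
private theorem FN4_w' : F4.w ≠ 0 := by decide
private theorem FN4_1 : (1 : F4) ≠ 0 := by decide
private theorem FN4_a : ∀ s : F4, 1 + s * F4.w = 0 → 1 + s = 0 → False := by decide
private theorem FN4_b : ∀ s : F4, 1 + s = 0 → F4.w + s = 0 → False := by decide

theorem np_Wh (r : ℕ) (hr : 2 ≤ r) : NP ⊥ (WhE r) (WhV r) := by
  have main : ∀ x ∈ WhE r, ∀ y ∈ WhE r, x ≠ y → ∀ s : F4, WhV r x + s • WhV r y ≠ 0 := by
    intro x hx y hy hxy s h
    have hk : ∀ k : ℕ, (WhV r x) (0, k) + s * (WhV r y) (0, k) = 0 := by
      intro k
      have := DFunLike.congr_fun h (0, k)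
      rw [Finsupp.add_apply, Finsupp.smul_apply, smul_eq_mul, Finsupp.zero_apply] at this
      exact this
    rcases FN4_mem hx with ⟨n, hn, rfl⟩ | ⟨n, hn, rfl⟩ <;>
    rcases FN4_mem hy with ⟨m, hm, rfl⟩ | ⟨m, hm, rfl⟩
    · have hne : n ≠ m := fun h => hxy (by rw [h])
      have := hk n
      rw [FN4_cvx hn, FN4_cvx hm, if_pos rfl, if_neg hne, mul_zero, add_zero] at this
      exact FN4_1 this
    · -- vertex, rim
      have hs : s = 0 := by
        by_cases hnm : n = m
        · -- use the second end
          by_cases hmr : m + 1 = r
          · have := hk 0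
            rw [FN4_cvx hn, FN4_crm hm, if_neg (by omega), if_neg (by omega), if_pos hmr,
              if_pos rfl, zero_add, zero_add] at this
            exact (mul_eq_zero.1 this).resolve_right FN4_w'
          · have := hk (m + 1)
            rw [FN4_cvx hn, FN4_crm hm, if_neg (by omega), if_neg (by omega), if_neg hmr,
              if_pos rfl, zero_add, zero_add, mul_one] at this
            exact this
        · have := hk m
          rw [FN4_cvx hn, FN4_crm hm, if_neg (fun h => hnm h.symm), if_pos rfl, zero_add] at this
          have h2 : (if m + 1 = r then (if m = 0 then F4.w else 0) else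
            (if m = m + 1 then 1 else 0) : F4) = 0 := by
            split_ifs <;> first | rfl | omega
          rw [h2, add_zero, mul_one] at this
          exact this
      have := hk n
      rw [hs, zero_mul, add_zero, FN4_cvx hn, if_pos rfl] at this
      exact FN4_1 this
    · -- rim, vertex
      by_cases hnm : m = n
      · by_cases hmr : n + 1 = r
        · have := hk 0
          rw [FN4_cvx hm, FN4_crm hn, if_neg (by omega), if_pos hmr,
            if_pos rfl, zero_add, if_neg (by omega), mul_zero, add_zero] at this
          exact FN4_w' this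
        · have := hk (n + 1)
          rw [FN4_cvx hm, FN4_crm hn, if_neg (by omega), if_neg hmr,
            if_pos rfl, zero_add, if_neg (by omega), mul_zero, add_zero] at this
          exact FN4_1 this
      · have := hk n
        have h2 : (if n + 1 = r then (if n = 0 then F4.w else 0) else
          (if n = n + 1 then 1 else 0) : F4) = 0 := by
          split_ifs <;> first | rfl | omega
        have h3 : ¬ n = m := fun h => hnm h.symm
        rw [FN4_cvx hm, FN4_crm hn, if_pos rfl, h2, if_neg h3, mul_zero,
          add_zero, add_zero] at this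
        exact FN4_1 this
    · -- rim, rim
      have hne : n ≠ m := fun h => hxy (by rw [h])
      have h1 := hk n
      have h2 := hk m
      rw [FN4_crm hn, FN4_crm hm, if_pos rfl, if_neg hne, zero_add] at h1
      rw [FN4_crm hn, FN4_crm hm, if_pos rfl, if_neg (fun h => hne h.symm), zero_add] at h2
      have h3 : (if n + 1 = r then (if n = 0 then F4.w else 0) else
        (if n = n + 1 then 1 else 0) : F4) = 0 := by
        split_ifs <;> first | rfl | omega
      have h4 : (if m + 1 = r then (if m = 0 then F4.w else 0) else
        (if m = m + 1 then 1 else 0) : F4) = 0 := by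
        split_ifs <;> first | rfl | omega
      rw [h3, add_zero] at h1
      rw [h4, add_zero, mul_one] at h2
      by_cases c1 : m + 1 = r
      · rw [if_pos c1] at h1
        by_cases c2 : n = 0
        · rw [if_pos c2] at h1
          by_cases c3 : n + 1 = r
          · omega
          · rw [if_neg c3] at h2
            by_cases c4 : m = n + 1
            · rw [if_pos c4] at h2
              exact FN4_a s h1 h2
            · rw [if_neg c4, zero_add] at h2
              rw [h2, zero_mul, add_zero] at h1
              exact FN4_1 h1
        · rw [if_neg c2, mul_zero, add_zero] at h1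
          exact FN4_1 h1
      · rw [if_neg c1] at h1
        by_cases c2 : n = m + 1
        · rw [if_pos c2, mul_one] at h1
          by_cases c3 : n + 1 = r
          · rw [if_pos c3] at h2
            by_cases c4 : m = 0
            · rw [if_pos c4] at h2
              exact FN4_b s h1 h2
            · rw [if_neg c4, zero_add] at h2
              rw [h2, add_zero] at h1
              exact FN4_1 h1
          · rw [if_neg c3, if_neg (by omega), zero_add] at h2
            rw [h2, add_zero] at h1
            exact FN4_1 h1
        · rw [if_neg c2, mul_zero, add_zero] at h1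
          exact FN4_1 h1
  refine ⟨?_, ?_⟩
  · intro x hx h
    rw [Submodule.mem_bot] at h
    -- take any other element of the set
    rcases FN4_mem hx with ⟨n, hn, rfl⟩ | ⟨n, hn, rfl⟩
    · have := DFunLike.congr_fun h (0, n)
      rw [FN4_cvx hn, if_pos rfl] at this
      exact FN4_1 this
    · have := DFunLike.congr_fun h (0, n)
      rw [FN4_crm hn, if_pos rfl] at this
      have h3 : (if n + 1 = r then (if n = 0 then F4.w else 0) else
        (if n = n + 1 then 1 else 0) : F4) = 0 := by
        split_ifs <;> first | rfl | omega
      rw [h3, add_zero] at this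
      exact FN4_1 this
  · intro x hx y hy hxy s h
    rw [Submodule.mem_bot] at h
    exact main x hx y hy hxy s h

end QG
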