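import Pool.Agent.Lib.QG.FD1
import Pool.Agent.Lib.QG.FD2
import Pool.Agent.Lib.QG.FD3
import Pool.Agent.Lib.QG.FD4
import Pool.Agent.Lib.QG.FG2
import Pool.Agent.Lib.QG.FG3
import Pool.Agent.Lib.QG.FG4
import Pool.Agent.Lib.QG.FN1
import Pool.Agent.Lib.QG.FN2
import Pool.Agent.Lib.QG.FN3
import Pool.Agent.Lib.QG.FN4

/-!
MP_2e6874_co. Part (F): the families are closed under duality and consist of quaternary gammoids.
-/

set_option autoImplicit false

namespace QG
open Set Matroid Submodule

theorem MIso.congr_bot {α : Type} {M : Matroid α} {E : Finset Lab} {u : Lab → VV}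
    (h : MIso M (LM E u)) : MIso M (LM E ((⊥ : Submodule F4 VV).mkQ ∘ u)) := by
  rwa [LM_bot]

theorem ThE_card_m11 (a b : Bool) (m : ℕ) (hm : 1 ≤ m) :
    (ThE a b (m11 m)).card = 2 * m + 1 + (if a then 1 else 0) + (if b then 1 else 0) := by
  have d1 : Disjoint (tps a b) (inn I3 (m11 m) ∪ rims I3 (m11 m)) := by
    rw [Finset.disjoint_left]
    intro x hx hx2
    rw [mem_tps] at hx
    rw [Finset.mem_union] at hx2
    rcases hx with ⟨_, rfl⟩ | ⟨_, rfl⟩ <;> rcases hx2 with h | h
    · exact tp_notMem_inn h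
    · exact tp_notMem_rims h
    · exact tp_notMem_inn h
    · exact tp_notMem_rims h
  have d2 : Disjoint (inn I3 (m11 m)) (rims I3 (m11 m)) := by
    rw [Finset.disjoint_left]
    intro x hx hx2
    rw [mem_inn] at hx
    obtain ⟨i, _, n, _, _, rfl⟩ := hx
    exact vx_notMem_rims hx2
  rw [ThE, Finset.card_union_of_disjoint d1, Finset.card_union_of_disjoint d2,
    Finset.card_eq_sum_ones, Finset.card_eq_sum_ones, Finset.card_eq_sum_ones, sum_tps, sum_inn,
    sum_rims]
  simp only [I3, m11, Finset.sum_const, Nat.card_Ioo, Finset.card_range]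
  rw [Finset.sum_insert (by decide), Finset.sum_insert (by decide), Finset.sum_singleton,
    Finset.sum_insert (by decide), Finset.sum_insert (by decide), Finset.sum_singleton]
  cases a <;> cases b <;> simp <;> omega

theorem MIso.ncard {α β : Type} {M : Matroid α} {N : Matroid β} (h : MIso M N) :
    M.E.ncard = N.E.ncard := by
  obtain ⟨e, _⟩ := h
  exact Set.ncard_congr' e

theorem fam_dual {α : Type} (M : Matroid α) (hf : M.Finite) (h3 : ThreeConn M) (hn : 8 ≤ M.E.ncard)
    (h : Fam M✶) : Fam M := by
  have hf' : M✶.Finite := inferInstance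
  have h3' : ThreeConn M✶ := h3.dual
  have hs := h3'.simple hf' (by rw [dual_ground]; omega)
  have key : ∀ {K : Submodule F4 VV} {E : Finset Lab} {u : Lab → VV} {E' : Finset Lab}
      {K' : Submodule F4 VV} {u' : Lab → VV}, NP K E u → IsCfg M✶ K (u '' E) →
      MIso (LM E (K.mkQ ∘ u))✶ (LM E' (K'.mkQ ∘ u')) → IsCfg M K' (u' '' E') := by
    intro K E u E' K' u' hnp hc hd
    have h1 := (hc.label hf' hs hnp).dual
    rw [dual_dual] at h1
    exact IsCfg.of_miso (h1.trans hd)
  cases h with
  | th a b m hm h =>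
    rw [← ThV_image] at h
    refine Fam.la a b (fun i => m i - 1) ?_ ?_
    · intro i hi j hj h1 h2
      have := hm.1 i hi
      have := hm.1 j hj
      exact hm.2 i hi j hj (by simp only at h1; omega) (by simp only at h2; omega)
    · rw [← LaV_image]
      exact key (np_Th a b m hm.1) h (by rw [LM_bot]; exact th_dual a b m hm.1)
  | sp a b m hm h =>
    have hm1 : ∀ i < 3, 1 ≤ m11 m i := by
      intro i _
      simp only [m11]
      split_ifs <;> omega
    rw [← ThV_image] at h
    have hc := (h.label hf' hs (np_Th a b (m11 m) hm1)).ncard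
    rw [dual_ground, LM_E, Set.ncard_coe_finset, ThE_card_m11 a b m (by omega)] at hc
    refine Fam.sp (!a) (!b) (spm a b m) ?_ ?_
    · simp only [spm]
      cases a <;> cases b <;> simp at hc ⊢ <;> omega
    · rw [← ThV_image]
      exact key (np_Th a b (m11 m) hm1) h (by rw [LM_bot, LM_bot]; exact sp_dual a b m hm)
  | la a b m hm h =>
    rw [← LaV_image] at h
    refine Fam.th a b (fun i => m i + 1) ⟨fun i _ => by simp, ?_⟩ ?_
    · intro i hi j hj h1 h2
      exact hm i hi j hj (by simpa using h1) (by simpa using h2)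
    · rw [← ThV_image]
      refine key (np_La a b m hm) h ?_
      have h1 := (th_dual a b (fun i => m i + 1) (fun i _ => by simp)).dual
      rw [dual_dual] at h1
      simp only [Nat.add_sub_cancel] at h1
      rw [LM_bot]
      exact h1.symm
  | de g a b I l hl h =>
    have hg : g ≠ 0 := by
      rcases hl.g_ne with rfl | rfl <;> decide
    rw [← DeV_image _ _ _ _ _ hl.pos] at h
    refine Fam.de g b a I l hl ?_
    rw [← DeV_image _ _ _ _ _ hl.pos]
    exact key (np_De g a b I l hl) h (de_dual g hg a b I hl.zero l hl.pos)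
  | wh r hr h =>
    rw [← WhV_image r (by omega)] at h
    refine Fam.wh r hr ?_
    rw [← WhV_image r (by omega)]
    exact key (np_Wh r (by omega)) h (by rw [LM_bot]; exact wh_dual r (by omega))

theorem LM_rep4 {ι W : Type} [AddCommGroup W] [Module F4 W] (E : Finset ι) (u : ι → W) :
    Quaternary (LM E u) := by
  refine ⟨F4, inferInstance, ?_, W, inferInstance, inferInstance, u, LM_rep E u⟩
  rw [Nat.card_eq_fintype_card]
  decide

theorem fam_qgam {α : Type} (M : Matroid α) (hf : M.Finite) (h3 : ThreeConn M)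
    (hn : 8 ≤ M.E.ncard) (h : Fam M) : QGam M := by
  have hs := h3.simple hf (by omega)
  have key : ∀ {K : Submodule F4 VV} {E : Finset Lab} {u : Lab → VV},
      IsCfg M K (u '' E) → Gammoid (LM E (K.mkQ ∘ u)) → QGam M := by
    intro K E u hc hG
    obtain ⟨E', hE', hi⟩ := hc.sub hf hs
    exact QGam.of_iso hi ⟨inferInstance, gam_sub hE' hG, LM_rep4 _ _⟩
  have hTh : ∀ (a b : Bool) (m : ℕ → ℕ), (∀ i < 3, 1 ≤ m i) →
      Gammoid (LM (ThE a b m) (ThV m)) := by
    intro a b m hm
    refine gam_sub ?_ (gam_Th m hm)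
    refine Finset.union_subset_union ?_ subset_rfl
    intro x hx
    rw [mem_tps] at hx ⊢
    rcases hx with ⟨_, h⟩ | ⟨_, h⟩ <;> simp [h]
  cases h with
  | th a b m hm h =>
    rw [← ThV_image] at h
    exact key h (by rw [LM_bot]; exact hTh a b m hm.1)
  | sp a b m hm h =>
    have hm1 : ∀ i < 3, 1 ≤ m11 m i := by
      intro i _
      simp only [m11]
      split_ifs <;> omega
    rw [← ThV_image] at h
    exact key h (by rw [LM_bot]; exact hTh a b _ hm1)
  | la a b m hm h =>
    rw [← LaV_image] at h
    refine key h ?_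
    have h1 := th_dual a b (fun i => m i + 1) (fun i _ => by simp)
    simp only [Nat.add_sub_cancel] at h1
    exact (hTh a b (fun i => m i + 1) (fun i _ => by simp)).dual.iso h1
  | de g a b I l hl h =>
    rw [← DeV_image _ _ _ _ _ hl.pos] at h
    refine key h ?_
    have h1 := gam_De g hl.g_ne I hl.zero l hl.pos
    have h2 : LM (DeE true true I l \ tps false (!b)) ((span F4 (DeV g I l '' (tps false (!b) : Finset Lab))).mkQ ∘ DeV g I l) =
        (LM (DeE true true I l) (DeV g I l)) ／ ((tps false (!b) : Finset Lab) : Set Lab) := by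
      rw [LM_contract]
      intro x hx
      rw [mem_tps] at hx
      rw [DeE, Finset.mem_union, mem_tps]
      rcases hx with ⟨h, _⟩ | ⟨_, h⟩
      · simp at h
      · simp [h]
    have h3 := h1.contract ((tps false (!b) : Finset Lab) : Set Lab)
    rw [← h2] at h3
    have h4 : span F4 (DeV g I l '' (tps false (!b) : Finset Lab)) = DeK b I := by
      rw [DeK]
      congr 1
      ext x
      cases b <;> simp [tps, bs, DeV]
    rw [h4] at h3
    refine gam_sub ?_ h3
    intro x hx
    rw [DeE, Finset.mem_union, mem_tps] at hx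
    rw [Finset.mem_sdiff, DeE, Finset.mem_union, mem_tps, mem_tps]
    rcases hx with (⟨h5, rfl⟩ | ⟨h5, rfl⟩) | h5
    · simp
    · simp [h5]
    · refine ⟨Or.inr h5, ?_⟩
      rintro (⟨h6, rfl⟩ | ⟨h6, rfl⟩)
      · simp at h6
      · rw [Finset.mem_union] at h5
        rcases h5 with h5 | h5
        · exact tp_notMem_vlt h5
        · exact tp_notMem_rims h5
  | wh r hr h =>
    rw [← WhV_image r (by omega)] at h
    exact key h (by rw [LM_bot]; exact gam_Wh r (by omega))

end QG
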