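import Pool.Agent.Lib.QG.FL3
import Pool.Agent.Lib.QG.A5
import Pool.Agent.Lib.QG.A7

/-!
MP_2e6874_co. Gammoids given by vectors: adding a vector freely.
-/

set_option autoImplicit false

namespace QG
open Set Matroid Submodule

section
variable {ι : Type} {W : Type} [AddCommGroup W] [Module F4 W] [DecidableEq ι]

theorem gam_indep {E : Finset ι} {u : ι → W} (h : LinearIndepOn F4 u (E : Set ι)) :
    Gammoid (LM E u) := by
  refine ⟨Option (E : Set ι), fun _ _ => False, univ,
    fun x => if hx : x ∈ (E : Set ι) then some ⟨x, hx⟩ else none,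
    inferInstance, ?_, fun I hI => ?_⟩
  · intro x hx y hy hxy
    rw [LM_E] at hx hy
    simp only [dif_pos hx, dif_pos hy, Option.some.injEq, Subtype.mk.injEq] at hxy
    exact hxy
  · rw [LM_E] at hI
    rw [LM_indep]
    refine iff_of_true ⟨hI, h.mono hI⟩ ⟨fun v => [v], fun x _ => ⟨by simp, by simp, by simp,
      x, mem_univ _, by simp⟩, fun x _ y _ hxy v hv hv' => ?_⟩
    simp only [List.mem_singleton] at hv hv'
    exact hxy (hv.symm.trans hv')

theorem gam_sub {E E' : Finset ι} {u : ι → W} (h : E' ⊆ E) (hG : Gammoid (LM E u)) :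
    Gammoid (LM E' u) := by
  rw [← LM_restrict u h]
  exact hG.restrict (by rw [LM_E]; exact_mod_cast h)

/-- adding a vector which is free on the span of `X` -/
theorem gam_add {E X : Finset ι} {u : ι → W} {x : ι} (hx : x ∉ E) (hX : X ⊆ E)
    (hcl : u x ∈ span F4 (u '' (X : Set ι)))
    (hfree : ∀ J : Set ι, J ⊆ (E : Set ι) → ∀ y ∈ X, ∀ φ : W →ₗ[F4] F4,
      (∀ z ∈ J, φ (u z) = 0) → φ (u y) ≠ 0 →
      ∃ ψ : W →ₗ[F4] F4, (∀ z ∈ J, ψ (u z) = 0) ∧ ψ (u x) ≠ 0)
    (hG : Gammoid (LM E u)) : Gammoid (LM (insert x E) u) := by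
  have hxE : x ∈ (LM (insert x E) u).E := by
    rw [LM_E]; exact_mod_cast Finset.mem_insert_self x E
  have hE : (LM (insert x E) u).E \ {x} = (E : Set ι) := by
    rw [LM_E, Finset.coe_insert]
    ext y
    simp only [mem_sdiff, mem_insert_iff, mem_singleton_iff, Finset.mem_coe]
    constructor
    · rintro ⟨rfl | h, h'⟩
      · exact absurd rfl h'
      · exact h
    · intro h
      exact ⟨Or.inr h, fun h' => hx (h' ▸ h)⟩
  have hEs : (E : Set ι) ⊆ (LM (insert x E) u).E := by
    rw [← hE]; exact sdiff_subset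
  refine gammoid_free (e := x) hxE (X := (X : Set ι)) ?_ ?_ ?_ ?_
  · rw [hE]; exact_mod_cast hX
  · exact (Api_closure (LM_rep _ u) ((Finset.coe_subset.2 hX).trans hEs) hxE).2 hcl
  · intro J hJ hxJ
    rw [hE] at hJ
    have h1 := (Api_closure (LM_rep _ u) (hJ.trans hEs) hxE).1 hxJ
    intro y hy
    have hyE : y ∈ (LM (insert x E) u).E := hEs (hX hy)
    rw [Api_closure (LM_rep _ u) (hJ.trans hEs) hyE]
    by_contra hcon
    obtain ⟨φ, hφ, hφ0⟩ := Submodule.exists_dual_map_eq_bot_of_notMem hcon inferInstance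
    obtain ⟨ψ, hψ, hψx⟩ := hfree J hJ y hy φ (fun z hz => by
      have h4 : φ (u z) ∈ Submodule.map φ (span F4 (u '' J)) :=
        ⟨u z, subset_span ⟨z, hz, rfl⟩, rfl⟩
      rw [hφ0] at h4
      exact (Submodule.mem_bot F4).1 h4) hφ
    apply hψx
    have : span F4 (u '' J) ≤ LinearMap.ker ψ := by
      rw [span_le]
      rintro _ ⟨z, hz, rfl⟩
      exact hψ z hz
    exact this h1
  · have h2 : (LM (insert x E) u) ＼ ({x} : Set ι) = LM E u := by
      have h3 := LM_delete (insert x E) {x} u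
      rw [Finset.coe_singleton] at h3
      rw [h3, Finset.insert_sdiff_of_mem _ (Finset.mem_singleton_self x)]
      congr 1
      exact Finset.sdiff_eq_self_of_disjoint (Finset.disjoint_singleton_right.2 hx)
    rw [h2]
    exact hG

/-- adding several vectors -/
theorem gam_adds {E R : Finset ι} {u : ι → W}
    (hR : ∀ x ∈ R, x ∉ E → ∃ X : Finset ι, X ⊆ E ∧ u x ∈ span F4 (u '' (X : Set ι)) ∧
      ∀ J : Set ι, J ⊆ ((E ∪ R : Finset ι) : Set ι) → x ∉ J → ∀ y ∈ X, ∀ φ : W →ₗ[F4] F4,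
      (∀ z ∈ J, φ (u z) = 0) → φ (u y) ≠ 0 →
      ∃ ψ : W →ₗ[F4] F4, (∀ z ∈ J, ψ (u z) = 0) ∧ ψ (u x) ≠ 0)
    (hG : Gammoid (LM E u)) : Gammoid (LM (E ∪ R) u) := by
  induction R using Finset.induction_on with
  | empty => rwa [Finset.union_empty]
  | insert x R hxR ih =>
    have hsub : (E ∪ R : Finset ι) ⊆ E ∪ insert x R :=
      Finset.union_subset_union_right (Finset.subset_insert _ _)
    have h1 : Gammoid (LM (E ∪ R) u) := by
      refine ih fun y hy hyE => ?_
      obtain ⟨X, hX, hcl, hf⟩ := hR y (Finset.mem_insert_of_mem hy) hyE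
      exact ⟨X, hX, hcl, fun J hJ => hf J (hJ.trans (Finset.coe_subset.2 hsub))⟩
    rw [Finset.union_insert]
    by_cases hxE : x ∈ E
    · rwa [Finset.insert_eq_of_mem (Finset.mem_union_left _ hxE)]
    · obtain ⟨X, hX, hcl, hf⟩ := hR x (Finset.mem_insert_self _ _) hxE
      have hxER : x ∉ E ∪ R := by
        rw [Finset.mem_union]; exact not_or.2 ⟨hxE, hxR⟩
      refine gam_add hxER (hX.trans Finset.subset_union_left) hcl (fun J hJ => ?_) h1
      exact hf J (hJ.trans (Finset.coe_subset.2 hsub)) (fun h => hxER (hJ h))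

end

end QG
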