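import Pool.Agent.Lib.QG.FW
import Pool.Agent.Lib.QG.Api

/-!
MP_2e6874_co. Matroids given by vectors over `F4`: API.
-/

set_option autoImplicit false

namespace QG
open Set Matroid Submodule

section
variable {ι κ : Type} {W W' : Type} [AddCommGroup W] [Module F4 W] [AddCommGroup W'] [Module F4 W']

theorem LM_aug (u : ι → W) {I J : Set ι} (hIf : I.Finite) (hJf : J.Finite)
    (hI : LinearIndepOn F4 u I) (hJ : LinearIndepOn F4 u J) (hc : I.ncard < J.ncard) :
    ∃ x ∈ J, x ∉ I ∧ LinearIndepOn F4 u (insert x I) := by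
  by_contra hcon
  push Not at hcon
  have h1 : ∀ x ∈ J, u x ∈ span F4 (u '' I) := by
    intro x hx
    by_cases hxI : x ∈ I
    · exact subset_span ⟨x, hxI, rfl⟩
    · have h2 := hcon x hx hxI
      rwa [linearIndepOn_insert hxI, not_and, not_not, forall_prop_of_true hI] at h2
  have hle : span F4 (u '' J) ≤ span F4 (u '' I) := by
    rw [span_le]; rintro _ ⟨x, hx, rfl⟩; exact h1 x hx
  have hd : ∀ {S : Set ι}, S.Finite → LinearIndepOn F4 u S →
      Module.finrank F4 (span F4 (u '' S)) = S.ncard := by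
    intro S hS hl
    let _ : Fintype S := hS.fintype
    have h3 := finrank_span_eq_card hl
    rw [← Nat.card_eq_fintype_card, Nat.card_coe_set_eq] at h3
    rw [← h3, image_eq_range]
  have := FiniteDimensional.span_of_finite F4 (hIf.image u)
  have h4 := Submodule.finrank_mono hle
  rw [hd hIf hI, hd hJf hJ] at h4
  omega

/-- the matroid on the finite set `E` represented by `u` -/
noncomputable def LM (E : Finset ι) (u : ι → W) : Matroid ι :=
  (IndepMatroid.ofFinite (E := (E : Set ι)) E.finite_toSet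
    (fun I => I ⊆ (E : Set ι) ∧ LinearIndepOn F4 u I)
    ⟨empty_subset _, linearIndepOn_empty F4 u⟩
    (fun _ _ hJ hIJ => ⟨hIJ.trans hJ.1, hJ.2.mono hIJ⟩)
    (fun I J hI hJ hc => by
      obtain ⟨x, hx, hxI, h⟩ := LM_aug u (E.finite_toSet.subset hI.1) (E.finite_toSet.subset hJ.1)
        hI.2 hJ.2 hc
      exact ⟨x, hx, hxI, insert_subset (hJ.1 hx) hI.1, h⟩)
    (fun I hI => hI.1)).matroid

theorem LM_E (E : Finset ι) (u : ι → W) : (LM E u).E = (E : Set ι) := rfl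

theorem LM_indep {E : Finset ι} {u : ι → W} {I : Set ι} :
    (LM E u).Indep I ↔ I ⊆ (E : Set ι) ∧ LinearIndepOn F4 u I := Iff.rfl

instance LM_finite (E : Finset ι) (u : ι → W) : (LM E u).Finite := ⟨E.finite_toSet⟩

theorem LM_rep (E : Finset ι) (u : ι → W) :
    ∀ I, I ⊆ (LM E u).E → ((LM E u).Indep I ↔ LinearIndepOn F4 u I) :=
  fun _ hI => ⟨fun h => h.2, fun h => ⟨hI, h⟩⟩

theorem LM_eq {M : Matroid ι} {E : Finset ι} {u : ι → W} (hE : M.E = (E : Set ι))
    (h : ∀ I, I ⊆ M.E → (M.Indep I ↔ LinearIndepOn F4 u I)) : M = LM E u := by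
  refine ext_indep hE fun I hI => ?_
  rw [h I hI, LM_indep, ← hE]
  exact ⟨fun h' => ⟨hI, h'⟩, fun h' => h'.2⟩

theorem LM_congr {E : Finset ι} {u : ι → W} {u' : ι → W} (h : ∀ x ∈ E, u x = u' x) :
    LM E u = LM E u' := by
  refine ext_indep rfl fun I hI => ?_
  rw [LM_indep, LM_indep]
  refine and_congr_right fun hI' => ?_
  exact linearIndepOn_congr fun x hx => h x (hI' hx)

theorem LinearIndepOn_scale {s : ι → F4} {u : ι → W} {I : Set ι} (hs : ∀ x ∈ I, s x ≠ 0) :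
    LinearIndepOn F4 (fun x => s x • u x) I ↔ LinearIndepOn F4 u I := by
  have h := LinearIndependent.units_smul_iff (R := F4) (fun x : I => u x)
    (fun x : I => Units.mk0 (s x) (hs x x.2))
  rw [LinearIndepOn, LinearIndepOn, ← h]
  rfl

/-- independence only depends on the kernel -/
theorem LinearIndepOn_ker {W1 W2 : Type} [AddCommGroup W1] [Module F4 W1] [AddCommGroup W2]
    [Module F4 W2] (f : W →ₗ[F4] W1) (g : W →ₗ[F4] W2) (h : LinearMap.ker f = LinearMap.ker g)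
    (u : ι → W) (I : Set ι) : LinearIndepOn F4 (f ∘ u) I ↔ LinearIndepOn F4 (g ∘ u) I := by
  have key : ∀ l : ι →₀ F4, Finsupp.linearCombination F4 (f ∘ u) l = 0 ↔
      Finsupp.linearCombination F4 (g ∘ u) l = 0 := by
    intro l
    have h1 : Finsupp.linearCombination F4 (f ∘ u) l = f (Finsupp.linearCombination F4 u l) := by
      rw [Finsupp.linearCombination_apply, Finsupp.linearCombination_apply, Finsupp.sum,
        Finsupp.sum, map_sum]
      simp
    have h2 : Finsupp.linearCombination F4 (g ∘ u) l = g (Finsupp.linearCombination F4 u l) := by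
      rw [Finsupp.linearCombination_apply, Finsupp.linearCombination_apply, Finsupp.sum,
        Finsupp.sum, map_sum]
      simp
    rw [h1, h2, ← LinearMap.mem_ker, h, LinearMap.mem_ker]
  rw [linearIndepOn_iff, linearIndepOn_iff]
  simp_rw [key]

theorem LM_ker {W1 W2 : Type} [AddCommGroup W1] [Module F4 W1] [AddCommGroup W2]
    [Module F4 W2] (f : W →ₗ[F4] W1) (g : W →ₗ[F4] W2) (h : LinearMap.ker f = LinearMap.ker g)
    (u : ι → W) (E : Finset ι) : LM E (f ∘ u) = LM E (g ∘ u) := by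
  refine ext_indep rfl fun I hI => ?_
  rw [LM_indep, LM_indep, LinearIndepOn_ker f g h]

theorem LM_scale {E : Finset ι} (s : ι → F4) (u : ι → W) (hs : ∀ x ∈ E, s x ≠ 0) :
    LM E (fun x => s x • u x) = LM E u := by
  refine ext_indep rfl fun I hI => ?_
  rw [LM_indep, LM_indep]
  exact and_congr_right fun hI' => LinearIndepOn_scale fun x hx => hs x (hI' hx)

theorem LM_map (E : Finset ι) (u : ι → W) (f : W →ₗ[F4] W') (hf : Function.Injective f) :
    LM E (f ∘ u) = LM E u := by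
  refine ext_indep rfl fun I hI => ?_
  rw [LM_indep, LM_indep]
  exact and_congr_right fun hI' => f.linearIndepOn_iff_of_injOn (hf.injOn)

theorem LM_restrict {E E' : Finset ι} (u : ι → W) (h : E' ⊆ E) :
    (LM E u) ↾ (E' : Set ι) = LM E' u := by
  refine ext_indep rfl fun I hI => ?_
  rw [restrict_indep_iff, LM_indep, LM_indep]
  constructor
  · rintro ⟨h1, h2⟩; exact ⟨h2, h1.2⟩
  · rintro ⟨h1, h2⟩; exact ⟨⟨h1.trans (by exact_mod_cast h), h2⟩, h1⟩

variable [DecidableEq ι] [DecidableEq κ]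

theorem LM_delete (E D : Finset ι) (u : ι → W) :
    (LM E u) ＼ (D : Set ι) = LM (E \ D) u := by
  refine ext_indep (by rw [delete_ground, LM_E, LM_E, Finset.coe_sdiff]) fun I hI => ?_
  rw [delete_indep_iff, LM_indep, LM_indep, Finset.coe_sdiff, subset_sdiff]
  tauto

theorem LM_contract {E C : Finset ι} (u : ι → W) (hC : C ⊆ E) :
    (LM E u) ／ (C : Set ι) = LM (E \ C) ((span F4 (u '' C)).mkQ ∘ u) := by
  have hC' : (C : Set ι) ⊆ (LM E u).E := by rw [LM_E]; exact_mod_cast hC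
  obtain ⟨J, hJ⟩ := (LM E u).exists_isBasis (C : Set ι) hC'
  have hJi := (LM_indep.1 hJ.indep)
  have hsp : span F4 (u '' (J : Set ι)) = span F4 (u '' (C : Set ι)) := by
    refine le_antisymm (span_mono (image_mono hJ.subset)) (span_le.2 ?_)
    rintro _ ⟨x, hx, rfl⟩
    refine (Api_closure (LM_rep E u) hJ.indep.subset_ground (hC' hx)).1 ?_
    rw [hJ.closure_eq_closure]
    exact (LM E u).mem_closure_of_mem hx hC'
  refine ext_indep (by rw [contract_ground, LM_E, LM_E, Finset.coe_sdiff]) fun I hI => ?_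
  rw [contract_ground, LM_E, subset_sdiff] at hI
  rw [hJ.contract_indep_iff, LM_indep, LM_indep, Finset.coe_sdiff, subset_sdiff, ← hsp,
    hJi.2.quotient_iff_union (hI.2.symm.mono_left hJ.subset), union_comm J I, union_subset_iff]
  constructor
  · rintro ⟨⟨h1, h2⟩, h3⟩; exact ⟨hI, h2⟩
  · rintro ⟨h1, h2⟩; exact ⟨⟨⟨hI.1, hJi.1⟩, h2⟩, hI.2.symm⟩

/-- the same modulo `K` -/
theorem LM_contractK {E C : Finset ι} (K : Submodule F4 W) (u : ι → W) (hC : C ⊆ E) :
    (LM E (K.mkQ ∘ u)) ／ (C : Set ι) = LM (E \ C) ((K ⊔ span F4 (u '' C)).mkQ ∘ u) := by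
  rw [LM_contract _ hC]
  refine LM_ker ((span F4 (K.mkQ ∘ u '' C)).mkQ ∘ₗ K.mkQ) ((K ⊔ span F4 (u '' C)).mkQ) ?_ u _
  rw [LinearMap.ker_comp, ker_mkQ, ker_mkQ, image_comp, ← map_span, comap_map_mkQ]

omit [DecidableEq ι] [DecidableEq κ] in
theorem LM_relabel {E : Finset ι} {E' : Finset κ} {δ : ι → κ} (u : κ → W)
    (h : BijOn δ E E') : MIso (LM E (u ∘ δ)) (LM E' u) := by
  have h' : BijOn δ (LM E (u ∘ δ)).E (LM E' u).E := h
  refine ⟨h'.equiv δ, fun I => ?_⟩
  have h1 : Subtype.val '' ((h'.equiv δ) '' I) = δ '' (Subtype.val '' I) := by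
    ext y
    constructor
    · rintro ⟨_, ⟨x, hx, rfl⟩, rfl⟩
      exact ⟨x, ⟨x, hx, rfl⟩, rfl⟩
    · rintro ⟨_, ⟨x, hx, rfl⟩, rfl⟩
      exact ⟨_, ⟨x, hx, rfl⟩, rfl⟩
  have h2 : (Subtype.val '' I : Set ι) ⊆ (E : Set ι) := by
    rintro _ ⟨x, _, rfl⟩; exact x.2
  rw [LM_indep, LM_indep, h1, and_iff_right h2, and_iff_right ((image_mono h2).trans
    (by rw [h.image_eq]))]
  exact linearIndependent_equiv' (Equiv.Set.imageOfInjOn δ _ (h.injOn.mono h2)) rfl

omit [DecidableEq κ] in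
theorem LM_dual_span {E B : Finset ι} {u : ι → W} {g : ι → W'} (hB : B ⊆ E)
    (hg : LinearIndepOn F4 g ((E \ B : Finset ι) : Set ι))
    (hort : ∀ (φ : W →ₗ[F4] F4) (ψ : W' →ₗ[F4] F4), ∑ x ∈ E, φ (u x) * ψ (g x) = 0) :
    span F4 (u '' (E : Set ι)) = span F4 (u '' (B : Set ι)) := by
  refine le_antisymm (span_le.2 ?_) (span_mono (image_mono (by exact_mod_cast hB)))
  rintro _ ⟨y, hy, rfl⟩
  by_cases hyB : y ∈ B
  · exact subset_span ⟨y, hyB, rfl⟩
  have hyE : y ∈ E \ B := Finset.mem_sdiff.2 ⟨hy, hyB⟩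
  obtain ⟨ψ, hψ, hψ0⟩ := (Api_indep_dual g (Finset.finite_toSet _)).1 hg y hyE
  have h1 : (ψ (g y)) • u y + ∑ x ∈ B, ψ (g x) • u x = 0 := by
    rw [← Module.forall_dual_apply_eq_zero_iff F4]
    intro φ
    have h2 := hort φ ψ
    rw [← Finset.sum_sdiff hB, Finset.sum_eq_single y] at h2
    · rw [map_add, map_sum, map_smul, ← h2, smul_eq_mul, mul_comm]
      congr 1
      refine Finset.sum_congr rfl fun x _ => ?_
      rw [map_smul, smul_eq_mul, mul_comm]
    · intro x hx hxy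
      rw [hψ0 x hx hxy, mul_zero]
    · intro h; exact absurd hyE h
  have h3 : u y = -((ψ (g y))⁻¹ • ∑ x ∈ B, ψ (g x) • u x) := by
    have h4 : (ψ (g y)) • u y = -∑ x ∈ B, ψ (g x) • u x := eq_neg_of_add_eq_zero_left h1
    calc u y = (ψ (g y))⁻¹ • ((ψ (g y)) • u y) := by
          rw [smul_smul, inv_mul_cancel₀ hψ, one_smul]
      _ = _ := by rw [h4, smul_neg]
  rw [SetLike.mem_coe, h3]
  refine neg_mem (smul_mem _ _ (sum_mem fun x hx => smul_mem _ _ (subset_span ⟨x, hx, rfl⟩)))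

omit [DecidableEq ι] [DecidableEq κ] in
theorem finrank_of_indep {u : ι → W} {B : Finset ι} (hu : LinearIndepOn F4 u (B : Set ι)) :
    Module.finrank F4 (span F4 (u '' (B : Set ι))) = B.card := by
  have h3 := finrank_span_eq_card hu
  rw [← Nat.card_eq_fintype_card, Nat.card_coe_set_eq, Set.ncard_coe_finset] at h3
  rw [← h3, image_eq_range]

omit [DecidableEq κ] in
theorem LM_dual {E B : Finset ι} {u : ι → W} {g : ι → W'} (hB : B ⊆ E)
    (hu : LinearIndepOn F4 u (B : Set ι)) (hg : LinearIndepOn F4 g ((E \ B : Finset ι) : Set ι))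
    (hort : ∀ (φ : W →ₗ[F4] F4) (ψ : W' →ₗ[F4] F4), ∑ x ∈ E, φ (u x) * ψ (g x) = 0) :
    (LM E u)✶ = LM E g := by
  have h1 := LM_dual_span hB hg hort
  have h2 : span F4 (g '' (E : Set ι)) = span F4 (g '' ((E \ B : Finset ι) : Set ι)) := by
    refine LM_dual_span (B := E \ B) (g := u) Finset.sdiff_subset ?_ ?_
    · rwa [Finset.sdiff_sdiff_eq_self hB]
    · intro φ ψ
      rw [← hort ψ φ]
      exact Finset.sum_congr rfl fun x _ => mul_comm _ _
  refine LM_eq (dual_ground.trans (LM_E E u)) fun I hI => ?_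
  refine dual_indep_of_orth u g (LM_rep E u) ?_ ?_ I hI
  · intro φ ψ
    rw [← hort φ ψ]
    refine Finset.sum_congr ?_ fun _ _ => rfl
    ext x
    rw [Set.Finite.mem_toFinset, LM_E, Finset.mem_coe]
  · rw [LM_E, h1, h2, finrank_of_indep hu, finrank_of_indep hg, Set.ncard_coe_finset,
      Finset.card_sdiff_of_subset hB]
    have := Finset.card_le_card hB
    omega

/-- duality for minors -/
theorem LM_minor_dual {E C D : Finset ι} {E' : Finset κ} {u : ι → W} {u' : κ → W'} {δ : ι → κ}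
    {s : ι → F4} (hs : ∀ x ∈ E, s x ≠ 0) (hδ : BijOn δ E E')
    (h : (LM E u)✶ = LM E (fun x => s x • u' (δ x)))
    (hC : C ⊆ E) (hD : D ⊆ E) (hCD : Disjoint C D) :
    MIso (LM (E \ (C ∪ D)) ((span F4 (u '' C)).mkQ ∘ u))✶
      (LM (E' \ (C ∪ D).image δ) ((span F4 (u' '' (D.image δ : Finset κ))).mkQ ∘ u')) := by
  have hCD' : D ⊆ E \ C := by
    intro x hx
    rw [Finset.mem_sdiff]
    exact ⟨hD hx, fun h' => (Finset.disjoint_left.1 hCD h' hx)⟩
  have e1 : LM (E \ (C ∪ D)) ((span F4 (u '' C)).mkQ ∘ u) =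
      ((LM E u) ／ (C : Set ι)) ＼ (D : Set ι) := by
    rw [LM_contract u hC, LM_delete, sdiff_sdiff_left]
    rfl
  have e2 : (((LM E u) ／ (C : Set ι)) ＼ (D : Set ι))✶ = ((LM E u)✶ ＼ (C : Set ι)) ／ (D : Set ι) := by
    rw [dual_delete, dual_contract]
  have e3 : ((LM E u)✶ ＼ (C : Set ι)) ／ (D : Set ι) = LM (E \ (C ∪ D))
      ((span F4 ((fun x => s x • u' (δ x)) '' D)).mkQ ∘ (fun x => s x • u' (δ x))) := by
    rw [h, LM_delete, LM_contract _ hCD', sdiff_sdiff_left]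
    rfl
  have e4 : span F4 ((fun x => s x • u' (δ x)) '' D) =
      span F4 (u' '' (D.image δ : Finset κ)) := by
    rw [Finset.coe_image]
    refine le_antisymm (span_le.2 ?_) (span_le.2 ?_)
    · rintro _ ⟨x, hx, rfl⟩
      exact smul_mem _ _ (subset_span ⟨_, ⟨x, hx, rfl⟩, rfl⟩)
    · rintro _ ⟨_, ⟨x, hx, rfl⟩, rfl⟩
      have h5 : u' (δ x) = (s x)⁻¹ • (s x • u' (δ x)) := by
        rw [smul_smul, inv_mul_cancel₀ (hs x (hD hx)), one_smul]
      rw [SetLike.mem_coe, h5]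
      exact smul_mem _ _ (subset_span ⟨x, hx, rfl⟩)
  have e5 : LM (E \ (C ∪ D))
      ((span F4 (u' '' (D.image δ : Finset κ))).mkQ ∘ (fun x => s x • u' (δ x))) =
      LM (E \ (C ∪ D)) (((span F4 (u' '' (D.image δ : Finset κ))).mkQ ∘ u') ∘ δ) := by
    rw [← LM_scale (E := E \ (C ∪ D)) s (((span F4 (u' '' (D.image δ : Finset κ))).mkQ ∘ u') ∘ δ)
      (fun x hx => hs x (Finset.mem_sdiff.1 hx).1)]
    refine LM_congr fun x _ => ?_
    simp
  rw [e1, e2, e3, e4, e5]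
  refine LM_relabel _ ?_
  have hCDE : C ∪ D ⊆ E := Finset.union_subset hC hD
  rw [Finset.coe_sdiff, Finset.coe_sdiff, Finset.coe_image]
  refine ⟨?_, hδ.injOn.mono sdiff_subset, ?_⟩
  · rintro x ⟨hx, hx2⟩
    refine ⟨hδ.mapsTo hx, ?_⟩
    rintro ⟨y, hy, hyx⟩
    exact hx2 (hδ.injOn (hCDE hy) hx hyx ▸ hy)
  · rintro y ⟨hy, hy2⟩
    obtain ⟨x, hx, rfl⟩ := hδ.surjOn hy
    exact ⟨x, ⟨hx, fun hx2 => hy2 ⟨x, hx2, rfl⟩⟩, rfl⟩

end

end QG
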