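import Pool.Agent.Lib.QG.FL1

/-!
MP_2e6874_co. From `IsCfg` to labelled vector configurations and back.
-/

set_option autoImplicit false

namespace QG
open Set Matroid Submodule

theorem ThreeConn.simple {α : Type} {M : Matroid α} (hf : M.Finite) (h3 : ThreeConn M)
    (hn : 4 ≤ M.E.ncard) : ∀ x ∈ M.E, ∀ y ∈ M.E, M.Indep {x, y} := by
  have hrk : ∀ X, X ⊆ M.E → ((rk M X : ℕ) : ℕ∞) = M.eRk X := fun X hX =>
    ENat.natCast_toNat (M.eRk_ne_top_iff.2 (M.isRkFinite_of_finite (M.ground_finite.subset hX)))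
  have hmono : ∀ X, X ⊆ M.E → rk M (M.E \ X) ≤ rk M M.E := by
    intro X hX
    have h1 : M.eRk (M.E \ X) ≤ M.eRk M.E := M.eRk_mono sdiff_subset
    rw [← hrk _ sdiff_subset, ← hrk _ subset_rfl] at h1
    exact_mod_cast h1
  have key : ∀ X, X ⊆ M.E → X.Finite → X.ncard ≤ rk M X → M.Indep X := by
    intro X hX hXf h
    obtain ⟨B, hB⟩ := M.exists_isBasis X hX
    have h1 : rk M X = B.ncard := by
      rw [rk, hB.eRk_eq_encard]
      rfl
    have h2 : B = X := Set.eq_of_subset_of_ncard_le hB.subset (by omega) hXf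
    exact h2 ▸ hB.indep
  intro x hx y hy
  by_cases hxy : x = y
  · subst hxy
    rw [pair_eq_singleton]
    have h1 := (h3 {x} (by simpa using hx)).1 (by simp) (by
      have : (M.E \ {x}).ncard = M.E.ncard - 1 := ncard_sdiff_singleton_of_mem hx
      omega)
    have h2 := hmono {x} (by simpa using hx)
    refine key _ (by simpa using hx) (finite_singleton x) ?_
    rw [ncard_singleton]
    omega
  · have hs : ({x, y} : Set α) ⊆ M.E := by
      rintro z (rfl | rfl)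
      · exact hx
      · exact hy
    have h1 := (h3 {x, y} hs).2 (by rw [ncard_pair hxy]) (by
      rw [ncard_sdiff hs, ncard_pair hxy]
      omega)
    have h2 := hmono {x, y} hs
    refine key _ hs (by simp) ?_
    rw [ncard_pair hxy]
    omega

/-- no loops and no parallel elements modulo `K` -/
def NP {ι : Type} (K : Submodule F4 VV) (E : Finset ι) (u : ι → VV) : Prop :=
  (∀ x ∈ E, u x ∉ K) ∧ ∀ x ∈ E, ∀ y ∈ E, x ≠ y → ∀ s : F4, u x + s • u y ∉ K

variable {α ι : Type} {M : Matroid α} {K : Submodule F4 VV} {E : Finset ι} {u : ι → VV}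

theorem MIso.of_empty {β : Type} {N : Matroid β} (h : M.E = ∅) (h' : N.E = ∅) : MIso M N := by
  have i1 : IsEmpty M.E := by rw [h]; infer_instance
  have i2 : IsEmpty N.E := by rw [h']; infer_instance
  refine ⟨Equiv.equivOfIsEmpty _ _, fun I => ?_⟩
  have hI : I = ∅ := Set.eq_empty_of_isEmpty I
  subst hI
  simp

theorem IsCfg.ground_empty [IsEmpty ι] (hs : ∀ x ∈ M.E, ∀ y ∈ M.E, M.Indep {x, y})
    (h : IsCfg M K (u '' E)) : M.E = ∅ := by
  rw [Set.eq_empty_iff_forall_notMem]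
  intro x hx
  obtain ⟨f, hf, hL⟩ := h
  have h1 := hs x hx x hx
  rw [pair_eq_singleton] at h1
  have h2 := (hf _ h1.subset_ground).1 h1
  have h3 := h2.ne_zero (mem_singleton x)
  have h4 : f x ∈ LnK K (f '' M.E) :=
    ⟨fun hxK => h3 ((Submodule.Quotient.mk_eq_zero K).2 hxK), f x, ⟨x, hx, rfl⟩, 1, by
      rw [one_smul, vadd_self]; exact K.zero_mem⟩
  rw [hL] at h4
  obtain ⟨_, _, ⟨y, hy, rfl⟩, _⟩ := h4
  exact IsEmpty.false y

theorem IsCfg.delta [Nonempty ι] (hs : ∀ x ∈ M.E, ∀ y ∈ M.E, M.Indep {x, y})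
    (h : IsCfg M K (u '' E)) : ∃ (f : α → VV) (δ : α → ι) (s : α → F4),
      (∀ I, I ⊆ M.E → (M.Indep I ↔ LinearIndepOn F4 (K.mkQ ∘ f) I)) ∧
      LnK K (f '' M.E) = LnK K (u '' E) ∧
      (∀ x ∈ M.E, δ x ∈ E ∧ s x ≠ 0 ∧ K.mkQ (f x) = s x • K.mkQ (u (δ x))) ∧
      InjOn δ M.E := by
  obtain ⟨f, hf, hL⟩ := h
  have hl : ∀ x ∈ M.E, f x ∉ K := by
    intro x hx hxK
    have h1 := hs x hx x hx
    rw [pair_eq_singleton] at h1
    have h2 := (hf _ h1.subset_ground).1 h1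
    have h3 := h2.ne_zero (mem_singleton x)
    exact h3 ((Submodule.Quotient.mk_eq_zero K).2 hxK)
  have h1 : ∀ x ∈ M.E, ∃ (y : ι) (s : F4), y ∈ E ∧ s ≠ 0 ∧ K.mkQ (f x) = s • K.mkQ (u y) := by
    intro x hx
    have h2 : f x ∈ LnK K (f '' M.E) := ⟨hl x hx, f x, ⟨x, hx, rfl⟩, 1, by
      rw [one_smul, vadd_self]; exact K.zero_mem⟩
    rw [hL] at h2
    obtain ⟨_, _, ⟨y, hy, rfl⟩, s, hsK⟩ := h2
    refine ⟨y, s, hy, ?_, ?_⟩
    · rintro rfl
      rw [zero_smul, add_zero] at hsK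
      exact hl x hx hsK
    · have h3 : K.mkQ (f x + s • u y) = 0 := (Submodule.Quotient.mk_eq_zero K).2 hsK
      rw [map_add, map_smul] at h3
      rwa [vadd_eq_zero] at h3
  choose! δ s h1 using h1
  refine ⟨f, δ, s, hf, hL, h1, ?_⟩
  intro x hx y hy hxy
  by_contra hne
  have h2 := (hf {x, y} (hs x hx y hy).subset_ground).1 (hs x hx y hy)
  rw [LinearIndepOn.pair_iff _ hne] at h2
  have h3 := h2 (s y) (s x) (by
    simp only [Function.comp]
    rw [(h1 x hx).2.2, (h1 y hy).2.2, hxy, smul_smul, smul_smul, mul_comm (s x), vadd_self])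
  exact (h1 y hy).2.1 h3.1

theorem FL2_iso (hf : M.Finite) {f : α → VV} {δ : α → ι} {s : α → F4} {E' : Finset ι}
    (hfI : ∀ I, I ⊆ M.E → (M.Indep I ↔ LinearIndepOn F4 (K.mkQ ∘ f) I))
    (h1 : ∀ x ∈ M.E, δ x ∈ E ∧ s x ≠ 0 ∧ K.mkQ (f x) = s x • K.mkQ (u (δ x)))
    (hb : BijOn δ M.E E') : MIso M (LM E' (K.mkQ ∘ u)) := by
  have e1 : M = LM hf.ground_finite.toFinset (K.mkQ ∘ f) :=
    LM_eq (by rw [Set.Finite.coe_toFinset]) hfI
  have e2 : LM hf.ground_finite.toFinset (K.mkQ ∘ f) =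
      LM hf.ground_finite.toFinset (fun x => s x • ((K.mkQ ∘ u) ∘ δ) x) :=
    LM_congr fun x hx => (h1 x (by simpa using hx)).2.2
  have e3 := LM_scale (E := hf.ground_finite.toFinset) s ((K.mkQ ∘ u) ∘ δ)
    (fun x hx => (h1 x (by simpa using hx)).2.1)
  have h := LM_relabel (E := hf.ground_finite.toFinset) (E' := E') (δ := δ) (K.mkQ ∘ u)
    (by rwa [Set.Finite.coe_toFinset])
  rw [← e3, ← e2, ← e1] at h
  exact h

theorem IsCfg.sub (hf : M.Finite) (hs : ∀ x ∈ M.E, ∀ y ∈ M.E, M.Indep {x, y})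
    (h : IsCfg M K (u '' E)) : ∃ E' : Finset ι, E' ⊆ E ∧ MIso M (LM E' (K.mkQ ∘ u)) := by
  classical
  rcases isEmpty_or_nonempty ι with hι | hι
  · exact ⟨∅, Finset.empty_subset _, MIso.of_empty (h.ground_empty hs) (by rw [LM_E]; simp)⟩
  obtain ⟨f, δ, s, hfI, hL, h1, hinj⟩ := h.delta hs
  refine ⟨hf.ground_finite.toFinset.image δ, ?_, ?_⟩
  · intro y hy
    obtain ⟨x, hx, rfl⟩ := Finset.mem_image.1 hy
    exact (h1 x (by simpa using hx)).1
  · exact FL2_iso hf hfI h1 (by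
      rw [Finset.coe_image, Set.Finite.coe_toFinset]
      exact hinj.bijOn_image)

theorem IsCfg.label (hf : M.Finite) (hs : ∀ x ∈ M.E, ∀ y ∈ M.E, M.Indep {x, y})
    (hnp : NP K E u) (h : IsCfg M K (u '' E)) : MIso M (LM E (K.mkQ ∘ u)) := by
  rcases isEmpty_or_nonempty ι with hι | hι
  · exact MIso.of_empty (h.ground_empty hs) (by rw [LM_E, Finset.eq_empty_of_isEmpty E]; simp)
  obtain ⟨f, δ, s, hfI, hL, h1, hinj⟩ := h.delta hs
  refine FL2_iso hf hfI h1 ⟨fun x hx => (h1 x hx).1, hinj, ?_⟩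
  intro y hy
  have h2 : u y ∈ LnK K (u '' E) := ⟨hnp.1 y hy, u y, ⟨y, hy, rfl⟩, 1, by
      rw [one_smul, vadd_self]; exact K.zero_mem⟩
  rw [← hL] at h2
  obtain ⟨_, _, ⟨x, hx, rfl⟩, t, ht⟩ := h2
  refine ⟨x, hx, ?_⟩
  by_contra hne
  refine hnp.2 y hy (δ x) (h1 x hx).1 (fun h => hne h.symm) (t * s x) ?_
  rw [← Submodule.Quotient.mk_eq_zero K] at ht ⊢
  have h3 := (h1 x hx).2.2
  change K.mkQ (u y + t • f x) = 0 at ht
  change K.mkQ (u y + (t * s x) • u (δ x)) = 0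
  rw [map_add, map_smul] at ht ⊢
  rw [h3, smul_smul] at ht
  exact ht

theorem IsCfg.of_miso (h : MIso M (LM E (K.mkQ ∘ u))) : IsCfg M K (u '' E) := by
  classical
  obtain ⟨e, he⟩ := h
  rcases isEmpty_or_nonempty ι with hι | hι
  · have hE : M.E = ∅ := by
      rw [Set.eq_empty_iff_forall_notMem]
      intro x hx
      exact hι.false (e ⟨x, hx⟩ : ι)
    have hE' : (E : Set ι) = ∅ := by
      rw [Set.eq_empty_iff_forall_notMem]
      intro x hx
      exact hι.false x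
    refine ⟨fun _ => 0, fun I hI => ?_, ?_⟩
    · rw [hE, subset_empty_iff] at hI
      subst hI
      exact ⟨fun _ => linearIndepOn_empty _ _, fun _ => M.empty_indep⟩
    · rw [hE, hE', image_empty, image_empty]
  · let δ : α → ι := fun x => if hx : x ∈ M.E then (e ⟨x, hx⟩ : ι) else Classical.arbitrary ι
    have hδ : ∀ x (hx : x ∈ M.E), δ x = (e ⟨x, hx⟩ : ι) := fun x hx => dif_pos hx
    have hδb : BijOn δ M.E E := by
      refine ⟨fun x hx => ?_, fun x hx y hy hxy => ?_, fun y hy => ?_⟩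
      · rw [hδ x hx]; exact (e ⟨x, hx⟩).2
      · rw [hδ x hx, hδ y hy] at hxy
        have := e.injective (Subtype.ext hxy)
        exact congrArg Subtype.val this
      · have h2 := (e.symm ⟨y, hy⟩).2
        refine ⟨(e.symm ⟨y, hy⟩ : M.E), h2, ?_⟩
        rw [hδ _ h2]
        simp
    refine ⟨u ∘ δ, fun I hI => ?_, ?_⟩
    · have h1 : I = Subtype.val '' (Subtype.val ⁻¹' I : Set M.E) := by
        rw [Subtype.image_preimage_coe, inter_eq_self_of_subset_right hI]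
      have h2 : Subtype.val '' (e '' (Subtype.val ⁻¹' I : Set M.E)) = δ '' I := by
        ext y
        constructor
        · rintro ⟨_, ⟨x, hx, rfl⟩, rfl⟩
          exact ⟨x, hx, hδ x x.2⟩
        · rintro ⟨x, hx, rfl⟩
          exact ⟨_, ⟨⟨x, hI hx⟩, hx, rfl⟩, (hδ x (hI hx)).symm⟩
      have h3 := he (Subtype.val ⁻¹' I : Set M.E)
      rw [← h1, h2, LM_indep] at h3
      rw [h3, and_iff_right ((image_mono hI).trans hδb.image_eq.subset)]
      exact (linearIndependent_equiv' (Equiv.Set.imageOfInjOn δ _ (hδb.injOn.mono hI)) rfl).symm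
    · rw [image_comp, hδb.image_eq]

/-- a version for `K = ⊥` -/
theorem LM_bot (E : Finset ι) (u : ι → VV) : LM E ((⊥ : Submodule F4 VV).mkQ ∘ u) = LM E u := by
  refine LM_map E u _ ?_
  rw [← LinearMap.ker_eq_bot, ker_mkQ]

end QG
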