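import Pool.Agent.Lib.QG.FL2

/-!
MP_2e6874_co. Labels for the points of the families.
-/

set_option autoImplicit false

namespace QG
open Set Matroid Submodule

/-- labels: vertices and rims of the strands, special points (tips, `c`, `c'`) -/
inductive Lab
  | vx (i n : ℕ)
  | rm (i n : ℕ)
  | tp (k : ℕ)
  deriving DecidableEq

/-- the vector with a given label -/
noncomputable def vec (m : ℕ → ℕ) (A B T : ℕ → VV) : Lab → VV
  | .vx i n => msu m A B i n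
  | .rm i n => msu m A B i n + msu m A B i (n + 1)
  | .tp k => T k

@[simp] theorem vec_vx (m : ℕ → ℕ) (A B T : ℕ → VV) (i n : ℕ) :
    vec m A B T (.vx i n) = msu m A B i n := rfl
@[simp] theorem vec_rm (m : ℕ → ℕ) (A B T : ℕ → VV) (i n : ℕ) :
    vec m A B T (.rm i n) = msu m A B i n + msu m A B i (n + 1) := rfl
@[simp] theorem vec_tp (m : ℕ → ℕ) (A B T : ℕ → VV) (k : ℕ) :
    vec m A B T (.tp k) = T k := rfl

/-- the special points -/
def tps (a b : Bool) : Finset Lab := (if a then {.tp 0} else ∅) ∪ (if b then {.tp 1} else ∅)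
/-- inner vertices -/
def inn (I : Finset ℕ) (m : ℕ → ℕ) : Finset Lab :=
  I.biUnion fun i => (Finset.Ioo 0 (m i)).image (.vx i)
/-- all vertices -/
def vts (I : Finset ℕ) (m : ℕ → ℕ) : Finset Lab :=
  I.biUnion fun i => (Finset.range (m i + 1)).image (.vx i)
/-- all vertices but the last one -/
def vlt (I : Finset ℕ) (m : ℕ → ℕ) : Finset Lab :=
  I.biUnion fun i => (Finset.range (m i)).image (.vx i)
/-- rims -/
def rims (I : Finset ℕ) (m : ℕ → ℕ) : Finset Lab :=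
  I.biUnion fun i => (Finset.range (m i)).image (.rm i)

theorem mem_tps {a b : Bool} {x : Lab} :
    x ∈ tps a b ↔ (a = true ∧ x = .tp 0) ∨ (b = true ∧ x = .tp 1) := by
  cases a <;> cases b <;> simp [tps]
theorem mem_inn {I : Finset ℕ} {m : ℕ → ℕ} {x : Lab} :
    x ∈ inn I m ↔ ∃ i ∈ I, ∃ n, 0 < n ∧ n < m i ∧ x = .vx i n := by
  simp only [inn, Finset.mem_biUnion, Finset.mem_image, Finset.mem_Ioo]
  constructor
  · rintro ⟨i, hi, n, hn, rfl⟩; exact ⟨i, hi, n, hn.1, hn.2, rfl⟩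
  · rintro ⟨i, hi, n, h1, h2, rfl⟩; exact ⟨i, hi, n, ⟨h1, h2⟩, rfl⟩
theorem mem_vts {I : Finset ℕ} {m : ℕ → ℕ} {x : Lab} :
    x ∈ vts I m ↔ ∃ i ∈ I, ∃ n, n ≤ m i ∧ x = .vx i n := by
  simp only [vts, Finset.mem_biUnion, Finset.mem_image, Finset.mem_range, Nat.lt_succ_iff]
  constructor
  · rintro ⟨i, hi, n, hn, rfl⟩; exact ⟨i, hi, n, hn, rfl⟩
  · rintro ⟨i, hi, n, h1, rfl⟩; exact ⟨i, hi, n, h1, rfl⟩
theorem mem_vlt {I : Finset ℕ} {m : ℕ → ℕ} {x : Lab} :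
    x ∈ vlt I m ↔ ∃ i ∈ I, ∃ n, n < m i ∧ x = .vx i n := by
  simp only [vlt, Finset.mem_biUnion, Finset.mem_image, Finset.mem_range]
  constructor
  · rintro ⟨i, hi, n, hn, rfl⟩; exact ⟨i, hi, n, hn, rfl⟩
  · rintro ⟨i, hi, n, h1, rfl⟩; exact ⟨i, hi, n, h1, rfl⟩
theorem mem_rims {I : Finset ℕ} {m : ℕ → ℕ} {x : Lab} :
    x ∈ rims I m ↔ ∃ i ∈ I, ∃ n, n < m i ∧ x = .rm i n := by
  simp only [rims, Finset.mem_biUnion, Finset.mem_image, Finset.mem_range]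
  constructor
  · rintro ⟨i, hi, n, hn, rfl⟩; exact ⟨i, hi, n, hn, rfl⟩
  · rintro ⟨i, hi, n, h1, rfl⟩; exact ⟨i, hi, n, h1, rfl⟩

theorem tp_mem_tps {a b : Bool} {k : ℕ} :
    Lab.tp k ∈ tps a b ↔ (a = true ∧ k = 0) ∨ (b = true ∧ k = 1) := by simp [mem_tps]
theorem vx_mem_inn {I : Finset ℕ} {m : ℕ → ℕ} {i n : ℕ} :
    Lab.vx i n ∈ inn I m ↔ i ∈ I ∧ 0 < n ∧ n < m i := by
  rw [mem_inn]
  constructor
  · rintro ⟨j, hj, k, h1, h2, h3⟩; cases h3; exact ⟨hj, h1, h2⟩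
  · rintro ⟨h1, h2, h3⟩; exact ⟨i, h1, n, h2, h3, rfl⟩
theorem vx_mem_vts {I : Finset ℕ} {m : ℕ → ℕ} {i n : ℕ} :
    Lab.vx i n ∈ vts I m ↔ i ∈ I ∧ n ≤ m i := by
  rw [mem_vts]
  constructor
  · rintro ⟨j, hj, k, h1, h3⟩; cases h3; exact ⟨hj, h1⟩
  · rintro ⟨h1, h2⟩; exact ⟨i, h1, n, h2, rfl⟩
theorem vx_mem_vlt {I : Finset ℕ} {m : ℕ → ℕ} {i n : ℕ} :
    Lab.vx i n ∈ vlt I m ↔ i ∈ I ∧ n < m i := by
  rw [mem_vlt]
  constructor
  · rintro ⟨j, hj, k, h1, h3⟩; cases h3; exact ⟨hj, h1⟩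
  · rintro ⟨h1, h2⟩; exact ⟨i, h1, n, h2, rfl⟩
theorem rm_mem_rims {I : Finset ℕ} {m : ℕ → ℕ} {i n : ℕ} :
    Lab.rm i n ∈ rims I m ↔ i ∈ I ∧ n < m i := by
  rw [mem_rims]
  constructor
  · rintro ⟨j, hj, k, h1, h3⟩; cases h3; exact ⟨hj, h1⟩
  · rintro ⟨h1, h2⟩; exact ⟨i, h1, n, h2, rfl⟩

theorem vx_notMem_tps {a b : Bool} {i n : ℕ} : Lab.vx i n ∉ tps a b := by simp [mem_tps]
theorem rm_notMem_tps {a b : Bool} {i n : ℕ} : Lab.rm i n ∉ tps a b := by simp [mem_tps]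
theorem tp_notMem_inn {I : Finset ℕ} {m : ℕ → ℕ} {k : ℕ} : Lab.tp k ∉ inn I m := by simp [mem_inn]
theorem rm_notMem_inn {I : Finset ℕ} {m : ℕ → ℕ} {i n : ℕ} : Lab.rm i n ∉ inn I m := by
  simp [mem_inn]
theorem tp_notMem_vts {I : Finset ℕ} {m : ℕ → ℕ} {k : ℕ} : Lab.tp k ∉ vts I m := by simp [mem_vts]
theorem rm_notMem_vts {I : Finset ℕ} {m : ℕ → ℕ} {i n : ℕ} : Lab.rm i n ∉ vts I m := by
  simp [mem_vts]
theorem tp_notMem_vlt {I : Finset ℕ} {m : ℕ → ℕ} {k : ℕ} : Lab.tp k ∉ vlt I m := by simp [mem_vlt]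
theorem rm_notMem_vlt {I : Finset ℕ} {m : ℕ → ℕ} {i n : ℕ} : Lab.rm i n ∉ vlt I m := by
  simp [mem_vlt]
theorem tp_notMem_rims {I : Finset ℕ} {m : ℕ → ℕ} {k : ℕ} : Lab.tp k ∉ rims I m := by
  simp [mem_rims]
theorem vx_notMem_rims {I : Finset ℕ} {m : ℕ → ℕ} {i n : ℕ} : Lab.vx i n ∉ rims I m := by
  simp [mem_rims]

theorem sum_tps {X : Type} [AddCommMonoid X] (a b : Bool) (f : Lab → X) :
    ∑ x ∈ tps a b, f x = (if a then f (.tp 0) else 0) + (if b then f (.tp 1) else 0) := by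
  cases a <;> cases b <;> simp [tps]

theorem sum_inn {X : Type} [AddCommMonoid X] (I : Finset ℕ) (m : ℕ → ℕ) (f : Lab → X) :
    ∑ x ∈ inn I m, f x = ∑ i ∈ I, ∑ n ∈ Finset.Ioo 0 (m i), f (.vx i n) := by
  rw [inn, Finset.sum_biUnion]
  · refine Finset.sum_congr rfl fun i _ => ?_
    rw [Finset.sum_image]
    intro x _ y _ h; cases h; rfl
  · intro i _ j _ hij
    rw [Function.onFun, Finset.disjoint_left]
    intro x hx hy
    rw [Finset.mem_image] at hx hy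
    obtain ⟨n, _, rfl⟩ := hx
    obtain ⟨n', _, h⟩ := hy
    cases h; exact hij rfl
theorem sum_vts {X : Type} [AddCommMonoid X] (I : Finset ℕ) (m : ℕ → ℕ) (f : Lab → X) :
    ∑ x ∈ vts I m, f x = ∑ i ∈ I, ∑ n ∈ Finset.range (m i + 1), f (.vx i n) := by
  rw [vts, Finset.sum_biUnion]
  · refine Finset.sum_congr rfl fun i _ => ?_
    rw [Finset.sum_image]
    intro x _ y _ h; cases h; rfl
  · intro i _ j _ hij
    rw [Function.onFun, Finset.disjoint_left]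
    intro x hx hy
    rw [Finset.mem_image] at hx hy
    obtain ⟨n, _, rfl⟩ := hx
    obtain ⟨n', _, h⟩ := hy
    cases h; exact hij rfl
theorem sum_vlt {X : Type} [AddCommMonoid X] (I : Finset ℕ) (m : ℕ → ℕ) (f : Lab → X) :
    ∑ x ∈ vlt I m, f x = ∑ i ∈ I, ∑ n ∈ Finset.range (m i), f (.vx i n) := by
  rw [vlt, Finset.sum_biUnion]
  · refine Finset.sum_congr rfl fun i _ => ?_
    rw [Finset.sum_image]
    intro x _ y _ h; cases h; rfl
  · intro i _ j _ hij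
    rw [Function.onFun, Finset.disjoint_left]
    intro x hx hy
    rw [Finset.mem_image] at hx hy
    obtain ⟨n, _, rfl⟩ := hx
    obtain ⟨n', _, h⟩ := hy
    cases h; exact hij rfl
theorem sum_rims {X : Type} [AddCommMonoid X] (I : Finset ℕ) (m : ℕ → ℕ) (f : Lab → X) :
    ∑ x ∈ rims I m, f x = ∑ i ∈ I, ∑ n ∈ Finset.range (m i), f (.rm i n) := by
  rw [rims, Finset.sum_biUnion]
  · refine Finset.sum_congr rfl fun i _ => ?_
    rw [Finset.sum_image]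
    intro x _ y _ h; cases h; rfl
  · intro i _ j _ hij
    rw [Function.onFun, Finset.disjoint_left]
    intro x hx hy
    rw [Finset.mem_image] at hx hy
    obtain ⟨n, _, rfl⟩ := hx
    obtain ⟨n', _, h⟩ := hy
    cases h; exact hij rfl

/-! ### the families -/

noncomputable def ThV (m : ℕ → ℕ) : Lab → VV :=
  vec m (fun _ => e 3 0) (fun i => g3 i • e 3 1) (fun k => if k = 0 then e 3 0 else e 3 1)
noncomputable def LaV (m : ℕ → ℕ) : Lab → VV :=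
  vec m (fun i => e i 0) (LaB m) (fun k => if k = 0 then Lac else Lac' m)
noncomputable def DeV (g : F4) (I : Finset ℕ) (l : ℕ → ℕ) : Lab → VV :=
  vec l (fun i => e i 0) (fun _ => g • e 0 0) (fun k => if k = 0 then e 0 0 else Dec I)
noncomputable def WhV (r : ℕ) : Lab → VV :=
  vec (fun _ => r) (fun _ => e 0 0) (fun _ => F4.w • e 0 0) (fun _ => 0)

def ThE (a b : Bool) (m : ℕ → ℕ) : Finset Lab := tps a b ∪ (inn I3 m ∪ rims I3 m)
def LaE (a b : Bool) (m : ℕ → ℕ) : Finset Lab := tps a b ∪ (vts I3 m ∪ rims I3 m)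
def DeE (a b : Bool) (I : Finset ℕ) (l : ℕ → ℕ) : Finset Lab := tps a b ∪ (vlt I l ∪ rims I l)
def WhE (r : ℕ) : Finset Lab := vlt {0} (fun _ => r) ∪ rims {0} (fun _ => r)

theorem mem_I3 {i : ℕ} : i ∈ I3 ↔ i < 3 := by
  simp only [I3, Finset.mem_insert, Finset.mem_singleton]; omega

private theorem FI1_tps (m : ℕ → ℕ) (A B T : ℕ → VV) (a b : Bool) :
    vec m A B T '' (tps a b : Set Lab) = bs a {T 0} ∪ bs b {T 1} := by
  ext x
  simp only [mem_image, Finset.mem_coe, mem_tps, mem_union, bs, mem_ofPred_eq, mem_singleton_iff]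
  constructor
  · rintro ⟨y, ⟨ha, rfl⟩ | ⟨hb, rfl⟩, rfl⟩
    · exact Or.inl ⟨ha, rfl⟩
    · exact Or.inr ⟨hb, rfl⟩
  · rintro (⟨ha, rfl⟩ | ⟨hb, rfl⟩)
    · exact ⟨.tp 0, Or.inl ⟨ha, rfl⟩, rfl⟩
    · exact ⟨.tp 1, Or.inr ⟨hb, rfl⟩, rfl⟩

private theorem FI1_msu {m : ℕ → ℕ} {A B : ℕ → VV} {i n : ℕ} (h0 : 0 < n) (h1 : n < m i) :
    msu m A B i n = e i n := by
  unfold msu
  rw [if_neg h0.ne', if_neg h1.ne]

private theorem FI1_inn (I : Finset ℕ) (m : ℕ → ℕ) (A B T : ℕ → VV) :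
    vec m A B T '' (inn I m : Set Lab) = {x | ∃ i ∈ I, ∃ n, 0 < n ∧ n < m i ∧ x = e i n} := by
  ext x
  simp only [mem_image, Finset.mem_coe, mem_inn, mem_ofPred_eq]
  constructor
  · rintro ⟨y, ⟨i, hi, n, h0, h1, rfl⟩, rfl⟩
    exact ⟨i, hi, n, h0, h1, FI1_msu h0 h1⟩
  · rintro ⟨i, hi, n, h0, h1, rfl⟩
    exact ⟨.vx i n, ⟨i, hi, n, h0, h1, rfl⟩, FI1_msu h0 h1⟩

private theorem FI1_rims (I : Finset ℕ) (m : ℕ → ℕ) (A B T : ℕ → VV) :
    vec m A B T '' (rims I m : Set Lab) =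
      {x | ∃ i ∈ I, ∃ n < m i, x = msu m A B i n + msu m A B i (n + 1)} := by
  ext x
  simp only [mem_image, Finset.mem_coe, mem_rims, mem_ofPred_eq]
  constructor
  · rintro ⟨y, ⟨i, hi, n, h1, rfl⟩, rfl⟩
    exact ⟨i, hi, n, h1, rfl⟩
  · rintro ⟨i, hi, n, h1, rfl⟩
    exact ⟨.rm i n, ⟨i, hi, n, h1, rfl⟩, rfl⟩

private theorem FI1_vlt (I : Finset ℕ) (m : ℕ → ℕ) (A B T : ℕ → VV) (hm : ∀ i ∈ I, 1 ≤ m i) :
    vec m A B T '' (vlt I m : Set Lab) =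
      {x | ∃ i ∈ I, x = A i} ∪ {x | ∃ i ∈ I, ∃ n, 0 < n ∧ n < m i ∧ x = e i n} := by
  ext x
  simp only [mem_image, Finset.mem_coe, mem_vlt, mem_union, mem_ofPred_eq]
  constructor
  · rintro ⟨y, ⟨i, hi, n, h1, rfl⟩, rfl⟩
    rcases Nat.eq_zero_or_pos n with rfl | h0
    · exact Or.inl ⟨i, hi, by rw [vec_vx]; unfold msu; rw [if_pos rfl]⟩
    · exact Or.inr ⟨i, hi, n, h0, h1, FI1_msu h0 h1⟩
  · rintro (⟨i, hi, rfl⟩ | ⟨i, hi, n, h0, h1, rfl⟩)
    · exact ⟨.vx i 0, ⟨i, hi, 0, hm i hi, rfl⟩, by rw [vec_vx]; unfold msu; rw [if_pos rfl]⟩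
    · exact ⟨.vx i n, ⟨i, hi, n, h1, rfl⟩, FI1_msu h0 h1⟩

private theorem FI1_vts (I : Finset ℕ) (m : ℕ → ℕ) (A B T : ℕ → VV)
    (hm : ∀ i ∈ I, m i = 0 → A i = B i) :
    vec m A B T '' (vts I m : Set Lab) =
      {x | ∃ i ∈ I, x = A i ∨ x = B i} ∪ {x | ∃ i ∈ I, ∃ n, 0 < n ∧ n < m i ∧ x = e i n} := by
  ext x
  simp only [mem_image, Finset.mem_coe, mem_vts, mem_union, mem_ofPred_eq]
  constructor
  · rintro ⟨y, ⟨i, hi, n, h1, rfl⟩, rfl⟩
    rcases Nat.eq_zero_or_pos n with rfl | h0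
    · exact Or.inl ⟨i, hi, Or.inl (by rw [vec_vx]; unfold msu; rw [if_pos rfl])⟩
    · rcases h1.eq_or_lt with h2 | h2
      · exact Or.inl ⟨i, hi, Or.inr (by
          rw [vec_vx]; unfold msu; rw [if_neg h0.ne', if_pos h2])⟩
      · exact Or.inr ⟨i, hi, n, h0, h2, FI1_msu h0 h2⟩
  · rintro (⟨i, hi, rfl | rfl⟩ | ⟨i, hi, n, h0, h1, rfl⟩)
    · exact ⟨.vx i 0, ⟨i, hi, 0, Nat.zero_le _, rfl⟩, by
        rw [vec_vx]; unfold msu; rw [if_pos rfl]⟩
    · refine ⟨.vx i (m i), ⟨i, hi, m i, le_rfl, rfl⟩, ?_⟩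
      rw [vec_vx]
      unfold msu
      split_ifs with h
      · exact hm i hi h
      · rfl
      · exact absurd rfl ‹_›
    · exact ⟨.vx i n, ⟨i, hi, n, h1.le, rfl⟩, FI1_msu h0 h1⟩

theorem ThV_image (a b : Bool) (m : ℕ → ℕ) : ThV m '' ThE a b m = ThC a b m := by
  unfold ThV ThE ThC MSC
  rw [Finset.coe_union, Finset.coe_union, image_union, image_union, FI1_tps, FI1_inn, FI1_rims,
    ← union_assoc]
  rfl

theorem LaV_image (a b : Bool) (m : ℕ → ℕ) : LaV m '' LaE a b m = LaC a b m := by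
  unfold LaV LaE LaC MSC
  rw [Finset.coe_union, Finset.coe_union, image_union, image_union, FI1_tps,
    FI1_vts _ _ _ _ _ (by
      intro i _ h
      show e i 0 = LaB m i
      unfold LaB
      rw [if_pos h]), FI1_rims]
  have h1 : {x | ∃ i ∈ I3, x = e i 0 ∨ x = LaB m i} = {x | ∃ i < 3, x = e i 0 ∨ x = LaB m i} := by
    ext x
    constructor
    · rintro ⟨i, hi, h⟩
      exact ⟨i, mem_I3.1 hi, h⟩
    · rintro ⟨i, hi, h⟩
      exact ⟨i, mem_I3.2 hi, h⟩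
  rw [h1, if_pos rfl, if_neg one_ne_zero, ← union_assoc, ← union_assoc]
  congr 2
  ext x
  simp only [mem_union]
  tauto

theorem DeV_image (g : F4) (a b : Bool) (I : Finset ℕ) (l : ℕ → ℕ) (hl : ∀ i ∈ I, 1 ≤ l i) :
    DeV g I l '' DeE a b I l = DeC g a b I l := by
  unfold DeV DeE DeC MSC
  rw [Finset.coe_union, Finset.coe_union, image_union, image_union, FI1_tps,
    FI1_vlt _ _ _ _ _ hl, FI1_rims, if_pos rfl, if_neg one_ne_zero, ← union_assoc, ← union_assoc]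
  congr 2
  ext x
  simp only [mem_union]
  tauto

theorem WhV_image (r : ℕ) (hr : 1 ≤ r) : WhV r '' WhE r = WhC r := by
  unfold WhV WhE WhC MSC
  rw [Finset.coe_union, image_union, FI1_vlt _ _ _ _ _ (fun i _ => hr), FI1_rims]
  congr 2
  ext x
  simp

/-! ### telescoping -/

theorem tele (a b : ℕ → F4) : ∀ m : ℕ, 1 ≤ m →
    ∑ n ∈ Finset.range m, (a n + a (n + 1)) * b n +
      ∑ n ∈ Finset.Ioo 0 m, a n * (b (n - 1) + b n) = a 0 * b 0 + a m * b (m - 1) := by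
  intro m hm
  induction m, hm using Nat.le_induction with
  | base =>
    have h0 : Finset.Ioo 0 1 = ∅ := by decide
    simp [add_mul, h0]
  | succ m hm ih =>
    have h1 : Finset.Ioo 0 (m + 1) = insert m (Finset.Ioo 0 m) := by
      ext n; simp only [Finset.mem_Ioo, Finset.mem_insert]; omega
    rw [Finset.sum_range_succ, h1, Finset.sum_insert (by simp)]
    have h2 : ∀ x y z t p q : F4, x + y = z + p * t →
        x + (p + q) * (b m) + (p * (t + b m) + y) = z + q * b m := by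
      intro x y z t p q h
      have : x + (p + q) * b m + (p * (t + b m) + y) =
          (x + y) + (p * t) + q * b m + (p * b m + p * b m) := by ring
      rw [this, h, F4.add_self, add_assoc z, F4.add_self, add_zero, add_zero]
    simpa using h2 _ _ _ _ _ _ ih

/-! ### functionals -/

/-- the functional with given values on the coordinate vectors -/
noncomputable def fn (h : ℕ × ℕ → F4) : VV →ₗ[F4] F4 := Finsupp.linearCombination F4 h

@[simp] theorem fn_e (h : ℕ × ℕ → F4) (i n : ℕ) : fn h (e i n) = h (i, n) := by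
  simp [fn, e]

/-- `φ` with the values at the coordinates in `Z` replaced by zero -/
noncomputable def zro (Z : Set (ℕ × ℕ)) (φ : VV →ₗ[F4] F4) : VV →ₗ[F4] F4 := by
  classical
  exact fn fun p => if p ∈ Z then 0 else φ (e p.1 p.2)

theorem zro_mem {Z : Set (ℕ × ℕ)} {φ : VV →ₗ[F4] F4} {i n : ℕ} (h : (i, n) ∈ Z) :
    zro Z φ (e i n) = 0 := by simp [zro, h]
theorem zro_notMem {Z : Set (ℕ × ℕ)} {φ : VV →ₗ[F4] F4} {i n : ℕ} (h : (i, n) ∉ Z) :
    zro Z φ (e i n) = φ (e i n) := by simp [zro, h]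

end QG
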