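import Pool.Agent.Lib.QG.FB

/-!
MP_2e6874_co. Framework for the classification of the 3-connected good matroids: point sets over
`F4`, one-element extensions (A-theorems), the families.

Everything is stated for a finite matroid `M`, an element `v` of `M` and a map `f : α → W` which
represents `M ＼ {v}`.
-/

set_option autoImplicit false

namespace QG
open Set Matroid Submodule

section general
variable {W : Type} [AddCommGroup W] [Module F4 W]

/-- the nonzero vectors on the lines spanned by the members of `C` -/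
def Ln (C : Set W) : Set W := {y | y ≠ 0 ∧ ∃ c ∈ C, ∃ s : F4, y = s • c}

/-- `M ＼ {v}` is represented by `f`, its points are the points of `C` (parallel elements and loops are
allowed) and `v` is not a coloop -/
structure On {α : Type} (M : Matroid α) (v : α) (f : α → W) (C : Set W) : Prop where
  fin : M.Finite
  mem : v ∈ M.E
  rep : ∀ I, I ⊆ M.E \ {v} → (M.Indep I ↔ LinearIndepOn F4 f I)
  pts : Ln (f '' (M.E \ {v})) = Ln C
  ncl : v ∈ M.closure (M.E \ {v})

/-- `M` is obtained from `M ＼ {v}` by adding the vector `p` as the element `v` -/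
def Adds {α : Type} (M : Matroid α) (v : α) (f : α → W) (p : W) : Prop :=
  ∀ I, I ⊆ M.E \ {v} → (M.Indep (insert v I) ↔ LinearIndepOn F4 f I ∧ p ∉ span F4 (f '' I))

/-- the same for the sets which contain the element `x` (this describes `M ／ {x}`) -/
def AddsAt {α : Type} (M : Matroid α) (v : α) (f : α → W) (x : α) (p : W) : Prop :=
  ∀ I, I ⊆ M.E \ {v} → x ∈ I →
    (M.Indep (insert v I) ↔ LinearIndepOn F4 f I ∧ p ∉ span F4 (f '' I))

/-- A-theorem: every good one-element extension of the point set `C` is obtained by adding a vector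
in `P` -/
def AThm (C P : Set W) : Prop :=
  ∀ (α : Type) (M : Matroid α) (v : α) (f : α → W), On M v f C → Good M → ∃ p ∈ P, Adds M v f p

/-- the same for the contraction of a point `y` -/
def CThm (C : Set W) (y : W) (P : Set W) : Prop :=
  ∀ (α : Type) (M : Matroid α) (v : α) (f : α → W), On M v f C → Good M →
    ∀ x ∈ M.E \ {v}, f x ∈ Ln {y} → ∃ p ∈ P, AddsAt M v f x p

/-- four vectors of `R` are independent -/
def Four (R : Set W) : Prop := ∃ y : Fin 4 → W, (∀ j, y j ∈ R) ∧ LinearIndependent F4 y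

/-- no hyperplane spanned by points of `C` misses `R` -/
def Coc (C R : Set W) : Prop :=
  ∀ φ : W →ₗ[F4] F4, (∀ y ∈ R, φ y ≠ 0) →
    ∃ ψ : W →ₗ[F4] F4, (∀ c ∈ C, φ c = 0 → ψ c = 0) ∧
      ∃ c₁ ∈ C, ∃ c₂ ∈ C, φ c₁ * ψ c₂ ≠ φ c₂ * ψ c₁

/-- compatible choices `p y ∈ Q y` come from one vector of `P` -/
def SH (C P R : Set W) (Q : W → Set W) : Prop :=
  ∀ p : W → W, (∀ y ∈ R, p y ∈ Q y) → (∀ y ∈ R, p y ∉ span F4 {y}) →
    (∀ y ∈ R, ∀ y' ∈ R, ∀ D, D ⊆ C →
      (p y ∈ span F4 ({y, y'} ∪ D) ↔ p y' ∈ span F4 ({y, y'} ∪ D))) →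
    ∃ q ∈ P, ∀ y ∈ R, span F4 {y, q} = span F4 {y, p y}

end general

/-! ### the coordinate space and quotients of it -/

/-- the coordinate space -/
abbrev VV : Type := (ℕ × ℕ) →₀ F4

/-- the coordinate vectors -/
noncomputable def e (i n : ℕ) : VV := Finsupp.single (i, n) 1

/-- the vectors which are nonzero modulo `K` and on a line of `C` modulo `K` -/
def LnK (K : Submodule F4 VV) (C : Set VV) : Set VV :=
  {y | y ∉ K ∧ ∃ c ∈ C, ∃ s : F4, y + s • c ∈ K}

def AK (K : Submodule F4 VV) (C P : Set VV) : Prop := AThm (K.mkQ '' C) (K.mkQ '' P)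

def CK (K : Submodule F4 VV) (C : Set VV) (x : VV) (P : Set VV) : Prop :=
  CThm (K.mkQ '' C) (K.mkQ x) (K.mkQ '' P)

/-! ### point sets made of strands -/

/-- vertex number `n` of strand `i` (`0 ≤ n ≤ m i`) -/
noncomputable def msu (m : ℕ → ℕ) (A B : ℕ → VV) (i n : ℕ) : VV :=
  if n = 0 then A i else if n = m i then B i else e i n

/-- the point set with base points `C0` and strands `i ∈ I` from `A i` to `B i` with `m i` rims;
points of a strand: the inner vertices `e i n`, `0 < n < m i`, and the rims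
`msu i n + msu i (n+1)`, `n < m i` -/
def MSC (I : Finset ℕ) (m : ℕ → ℕ) (A B : ℕ → VV) (C0 : Set VV) : Set VV :=
  C0 ∪ {x | ∃ i ∈ I, ∃ n, 0 < n ∧ n < m i ∧ x = e i n} ∪
    {x | ∃ i ∈ I, ∃ n < m i, x = msu m A B i n + msu m A B i (n + 1)}

/-- the vectors without coordinates `(i, n)`, `i ∈ I`, `1 ≤ n` -/
def Base (I : Finset ℕ) : Submodule F4 VV where
  carrier := {x | ∀ i ∈ I, ∀ n, 1 ≤ n → x (i, n) = 0}
  add_mem' := by
    intro a b ha hb i hi n hn
    simp [ha i hi n hn, hb i hi n hn]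
  zero_mem' := by intro i _ n _; rfl
  smul_mem' := by
    intro s a ha i hi n hn
    simp [ha i hi n hn]

/-- the set `X` if `b` is true, the empty set otherwise -/
def bs (b : Bool) (X : Set VV) : Set VV := {x | b = true ∧ x ∈ X}

/-- the gains `1, ω, ω²` -/
def g3 (i : ℕ) : F4 := if i = 0 then F4.i else if i = 1 then F4.w else F4.v

def I3 : Finset ℕ := {0, 1, 2}

/-! #### theta: three strands between `t` and `t'` -/

/-- `Th a b m`: tips `t = e 3 0`, `t' = e 3 1`, strands `i = 0, 1, 2` from `t` to `ωⁱ t'` with `m i`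
rims. `a`, `b`: the tip `t`, `t'` is a point. -/
noncomputable def ThC (a b : Bool) (m : ℕ → ℕ) : Set VV :=
  MSC I3 m (fun _ => e 3 0) (fun i => g3 i • e 3 1) (bs a {e 3 0} ∪ bs b {e 3 1})

noncomputable def ThP (a b : Bool) (m : ℕ → ℕ) : Set VV := ThC a b m ∪ {e 3 0, e 3 1, 0}

/-- at least two of the strands have at least two rims -/
def ThOk (m : ℕ → ℕ) : Prop :=
  (∀ i < 3, 1 ≤ m i) ∧ ∀ i < 3, ∀ j < 3, m i = 1 → m j = 1 → i = j

/-! #### the special case: two strands with one rim -/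

/-- additional vectors at the end `t'` -/
noncomputable def SX1 (n : ℕ) : Set VV :=
  {e 3 0 + e 3 1 + e 2 n, e 3 0 + F4.w • e 3 1 + e 2 n, e 3 0 + e 2 n + F4.v • e 3 1,
   e 3 0 + F4.w • e 2 n, e 3 0 + F4.v • e 2 n}

/-- additional vectors at the end `t` -/
noncomputable def SX0 : Set VV :=
  {F4.w • e 3 0 + F4.v • e 3 1 + e 2 1, F4.v • e 3 0 + F4.v • e 3 1 + e 2 1,
   e 3 0 + F4.v • e 3 1 + e 2 1, F4.w • e 3 1 + e 2 1, e 3 1 + e 2 1}

/-- the lengths `1, 1, m` -/
def m11 (m : ℕ) : ℕ → ℕ := fun i => if i = 2 then m else 1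

noncomputable def SpP (a b : Bool) (m : ℕ) : Set VV :=
  ThC a b (m11 m) ∪ {e 3 0, e 3 1, 0} ∪ bs (!b) (SX1 (m - 1)) ∪ bs (!a) SX0

/-! #### the dual family: strands between two lines -/

/-- end of strand `i` -/
noncomputable def LaB (m : ℕ → ℕ) (i : ℕ) : VV := if m i = 0 then e i 0 else e (i + 4) 0

/-- `c = e₀ + e₁ + e₂` -/
noncomputable def Lac : VV := e 0 0 + e 1 0 + e 2 0

/-- `c' = f₀ + ω f₁ + ω² f₂` -/
noncomputable def Lac' (m : ℕ → ℕ) : VV := LaB m 0 + F4.w • LaB m 1 + F4.v • LaB m 2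

/-- `a`, `b`: the vector `c`, `c'` is a point; otherwise it is contracted -/
noncomputable def LaK (a b : Bool) (m : ℕ → ℕ) : Submodule F4 VV :=
  span F4 (bs (!a) {Lac} ∪ bs (!b) {Lac' m})

noncomputable def LaC (a b : Bool) (m : ℕ → ℕ) : Set VV :=
  MSC I3 m (fun i => e i 0) (LaB m)
    ({x | ∃ i < 3, x = e i 0 ∨ x = LaB m i} ∪ bs a {Lac} ∪ bs b {Lac' m})

noncomputable def LaP (a b : Bool) (m : ℕ → ℕ) : Set VV :=
  LaC a b m ∪ bs a {x | ∃ i < 3, x = Lac + e i 0} ∪ bs b {x | ∃ i < 3, x = Lac' m + g3 i • LaB m i}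
    ∪ {0}

/-- at most one strand has no rim -/
def LaOk (m : ℕ → ℕ) : Prop := ∀ i < 3, ∀ j < 3, m i = 0 → m j = 0 → i = j

/-! #### legs -/

/-- `c = t + Σ zᵢ`, `t = e 0 0`, `zᵢ = e i 0` -/
noncomputable def Dec (I : Finset ℕ) : VV := e 0 0 + ∑ i ∈ I, e i 0

/-- `b`: the vector `c` is a point; otherwise it is contracted -/
noncomputable def DeK (b : Bool) (I : Finset ℕ) : Submodule F4 VV := span F4 (bs (!b) {Dec I})

/-- `De g a b I l`: tip `t`, legs `i ∈ I` from `zᵢ` to `g t` with `l i` rims. `a`: the tip is a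
point. -/
noncomputable def DeC (g : F4) (a b : Bool) (I : Finset ℕ) (l : ℕ → ℕ) : Set VV :=
  MSC I l (fun i => e i 0) (fun _ => g • e 0 0)
    ({x | ∃ i ∈ I, x = e i 0} ∪ bs a {e 0 0} ∪ bs b {Dec I})

noncomputable def DeP (g : F4) (a b : Bool) (I : Finset ℕ) (l : ℕ → ℕ) : Set VV :=
  DeC g a b I l ∪ {e 0 0, 0} ∪
    bs b ({x | ∃ i ∈ I, x = Dec I + e i 0} ∪ {Dec I + g • e 0 0} ∪
      {x | ∃ i ∈ I, l i = 1 ∧ x = Dec I + e i 0 + g • e 0 0})

/-- admissible leg data -/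
structure DeOk (g : F4) (I : Finset ℕ) (l : ℕ → ℕ) : Prop where
  g_ne : g = F4.w ∨ g = F4.v
  zero : 0 ∉ I
  two : 2 ≤ I.card
  pos : ∀ i ∈ I, 1 ≤ l i
  big : I.card = 2 → ∀ i ∈ I, 2 ≤ l i

/-! #### whirls -/

noncomputable def WhC (r : ℕ) : Set VV :=
  MSC {0} (fun _ => r) (fun _ => e 0 0) (fun _ => F4.w • e 0 0) {e 0 0}

/-- rims of the whirl -/
noncomputable def Whr (r n : ℕ) : VV := e 0 n + (if n + 1 = r then F4.w • e 0 0 else e 0 (n + 1))

noncomputable def WhP (r : ℕ) : Set VV :=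
  WhC r ∪ {x | ∃ i j, i < j ∧ j < r ∧ x = e 0 i + F4.w • e 0 j} ∪
    {x | ∃ i j, i < j ∧ j < r ∧ x = Whr r i + F4.w • Whr r j} ∪ {0}

/-! ### members of the families -/

/-- the simple matroid `M` is represented by vectors modulo `K` and its points are those of `C` -/
def IsCfg {α : Type} (M : Matroid α) (K : Submodule F4 VV) (C : Set VV) : Prop :=
  ∃ f : α → VV, (∀ I, I ⊆ M.E → (M.Indep I ↔ LinearIndepOn F4 (K.mkQ ∘ f) I)) ∧
    LnK K (f '' M.E) = LnK K C

inductive Fam {α : Type} (M : Matroid α) : Prop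
  | th (a b : Bool) (m : ℕ → ℕ) (hm : ThOk m) (h : IsCfg M ⊥ (ThC a b m)) : Fam M
  | sp (a b : Bool) (m : ℕ) (hm : 2 ≤ m) (h : IsCfg M ⊥ (ThC a b (m11 m))) : Fam M
  | la (a b : Bool) (m : ℕ → ℕ) (hm : LaOk m) (h : IsCfg M (LaK a b m) (LaC a b m)) : Fam M
  | de (g : F4) (a b : Bool) (I : Finset ℕ) (l : ℕ → ℕ) (hl : DeOk g I l)
      (h : IsCfg M (DeK b I) (DeC g a b I l)) : Fam M
  | wh (r : ℕ) (hr : 3 ≤ r) (h : IsCfg M ⊥ (WhC r)) : Fam M

end QG
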