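import Pool.Agent.Lib.QG.JD

/-! MP_2e6874_co, part (B): small point sets. -/

set_option autoImplicit false

namespace QG
open Set Matroid Submodule

theorem EM.isL {α : Type} {n r : ℕ} {L : Finset (Finset (Fin n))} {M : Matroid α} {b : ℕ → Bool}
    {e : Fin n → α} (h : EM e b M)
    (hb : ∀ m, m < 2 ^ n → (((fb n m).card = r ∧ fb n m ∉ L) ↔ b m = true)) : IsL n r L M := by
  refine ⟨e, h.1, h.2.1, fun B => ?_⟩
  obtain ⟨m, hm, hmB⟩ := K1_exists_bits n (B : Set (Fin n))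
  have hfb : (fb n m : Set (Fin n)) = bits n m := by
    ext i
    simp [fb, bits]
  have hB : fb n m = B := by
    rw [← Finset.coe_inj, hfb, hmB]
  rw [← hB, hfb, h.2.2 m hm, hb m hm]

def sV_n4_0 : List (List F4) := [[.i, .o], [.o, .i], [.i, .i], [.i, .w]]
def sP_n4_0 : List (List F4) := [[.o, .o], [.i, .o], [.o, .i], [.i, .i], [.i, .w], [.i, .v]]
def sV_n5_0 : List (List F4) := [[.i, .o], [.o, .i], [.i, .i], [.i, .w], [.i, .v]]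
def sP_n5_0 : List (List F4) := [[.o, .o], [.i, .o], [.o, .i], [.i, .i], [.i, .w], [.i, .v]]
def sV_n5_1 : List (List F4) := [[.i, .o, .o], [.o, .i, .o], [.o, .o, .i], [.i, .w, .v], [.i, .v, .w]]
def sP_n5_1 : List (List F4) := [[.o, .o, .o], [.i, .o, .o], [.o, .i, .o], [.o, .o, .i], [.i, .w, .v], [.i, .v, .w], [.o, .i, .i], [.o, .i, .w], [.o, .i, .v], [.i, .o, .i], [.i, .o, .w], [.i, .o, .v], [.i, .i, .o], [.i, .i, .i], [.i, .i, .w], [.i, .i, .v], [.i, .w, .o], [.i, .w, .i], [.i, .w, .w], [.i, .v, .o], [.i, .v, .i], [.i, .v, .v]]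
def sV_n6_0 : List (List F4) := [[.i, .o, .o], [.o, .i, .o], [.o, .o, .i], [.i, .w, .v], [.i, .v, .w], [.i, .o, .i]]
def sP_n6_0 : List (List F4) := [[.o, .o, .o], [.i, .o, .o], [.o, .i, .o], [.o, .o, .i], [.i, .w, .v], [.i, .v, .w], [.i, .o, .i], [.o, .i, .i], [.o, .i, .w], [.o, .i, .v], [.i, .o, .w], [.i, .o, .v], [.i, .i, .o], [.i, .i, .i], [.i, .i, .w], [.i, .i, .v], [.i, .w, .o], [.i, .w, .w], [.i, .v, .o], [.i, .v, .v]]
def sV_n6_1 : List (List F4) := [[.i, .o, .o], [.o, .i, .o], [.o, .o, .i], [.i, .w, .v], [.i, .v, .w], [.i, .i, .i]]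
def sP_n6_1 : List (List F4) := [[.o, .o, .o], [.i, .o, .o], [.o, .i, .o], [.o, .o, .i], [.i, .w, .v], [.i, .v, .w], [.i, .i, .i], [.o, .i, .i], [.o, .i, .w], [.o, .i, .v], [.i, .o, .i], [.i, .o, .w], [.i, .o, .v], [.i, .i, .o], [.i, .i, .w], [.i, .i, .v], [.i, .w, .o], [.i, .w, .i], [.i, .w, .w], [.i, .v, .o], [.i, .v, .i], [.i, .v, .v]]
def sV_n6_2 : List (List F4) := [[.i, .o, .o], [.o, .i, .o], [.o, .o, .i], [.i, .i, .o], [.o, .i, .i], [.i, .o, .v]]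
def sP_n6_2 : List (List F4) := [[.o, .o, .o], [.i, .o, .o], [.o, .i, .o], [.o, .o, .i], [.i, .i, .o], [.o, .i, .i], [.i, .o, .v], [.o, .i, .w], [.i, .o, .w], [.i, .w, .o], [.i, .w, .i], [.i, .v, .i], [.i, .v, .w]]
def sV_n7_0 : List (List F4) := [[.i, .o, .o], [.o, .i, .o], [.o, .o, .i], [.i, .w, .v], [.i, .v, .w], [.i, .o, .i], [.o, .i, .i]]
def sP_n7_0 : List (List F4) := [[.o, .o, .o], [.i, .o, .o], [.o, .i, .o], [.o, .o, .i], [.i, .w, .v], [.i, .v, .w], [.i, .o, .i], [.o, .i, .i]]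
def sV_n7_1 : List (List F4) := [[.i, .o, .o], [.o, .i, .o], [.o, .o, .i], [.i, .w, .v], [.i, .v, .w], [.i, .o, .i], [.i, .v, .o]]
def sP_n7_1 : List (List F4) := [[.o, .o, .o], [.i, .o, .o], [.o, .i, .o], [.o, .o, .i], [.i, .w, .v], [.i, .v, .w], [.i, .o, .i], [.i, .v, .o]]
def sV_n7_2 : List (List F4) := [[.i, .o, .o], [.o, .i, .o], [.o, .o, .i], [.i, .w, .v], [.i, .v, .w], [.i, .o, .i], [.i, .i, .i]]
def sP_n7_2 : List (List F4) := [[.o, .o, .o], [.i, .o, .o], [.o, .i, .o], [.o, .o, .i], [.i, .w, .v], [.i, .v, .w], [.i, .o, .i], [.i, .i, .i]]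
def sV_n7_3 : List (List F4) := [[.i, .o, .o, .o], [.o, .i, .o, .o], [.o, .o, .i, .o], [.o, .o, .o, .i], [.i, .i, .o, .o], [.i, .o, .v, .w], [.o, .i, .i, .i]]
def sP_n7_3 : List (List F4) := [[.o, .o, .o, .o], [.i, .o, .o, .o], [.o, .i, .o, .o], [.o, .o, .i, .o], [.o, .o, .o, .i], [.i, .i, .o, .o], [.i, .o, .v, .w], [.o, .i, .i, .i], [.o, .o, .i, .i], [.o, .o, .i, .v], [.o, .i, .o, .i], [.o, .i, .i, .o], [.o, .i, .i, .v], [.o, .i, .w, .i], [.o, .i, .w, .v], [.i, .o, .o, .w], [.i, .o, .w, .w], [.i, .o, .w, .v], [.i, .o, .v, .o], [.i, .o, .v, .v], [.i, .w, .o, .i], [.i, .w, .o, .v], [.i, .w, .i, .i], [.i, .w, .i, .v], [.i, .v, .i, .o], [.i, .v, .i, .i], [.i, .v, .w, .o], [.i, .v, .w, .i]]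
def sV_n7_4 : List (List F4) := [[.i, .o, .o, .o], [.o, .i, .o, .o], [.o, .o, .i, .o], [.o, .o, .o, .i], [.i, .w, .i, .v], [.i, .w, .o, .i], [.i, .i, .i, .o]]
def sP_n7_4 : List (List F4) := [[.o, .o, .o, .o], [.i, .o, .o, .o], [.o, .i, .o, .o], [.o, .o, .i, .o], [.o, .o, .o, .i], [.i, .w, .i, .v], [.i, .w, .o, .i], [.i, .i, .i, .o], [.i, .o, .o, .w], [.i, .o, .w, .o], [.i, .o, .w, .w], [.i, .i, .i, .w], [.i, .i, .w, .o], [.i, .i, .w, .w], [.i, .w, .o, .o], [.i, .w, .i, .o], [.i, .w, .v, .i], [.i, .w, .v, .v], [.i, .v, .o, .i], [.i, .v, .o, .w], [.i, .v, .i, .w], [.i, .v, .i, .v], [.i, .v, .v, .i], [.i, .v, .v, .v]]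
def sV_n7_5 : List (List F4) := [[.i, .o, .o, .o], [.o, .i, .o, .o], [.o, .o, .i, .o], [.o, .o, .o, .i], [.i, .o, .i, .i], [.i, .v, .w, .v], [.i, .i, .i, .o]]
def sP_n7_5 : List (List F4) := [[.o, .o, .o, .o], [.i, .o, .o, .o], [.o, .i, .o, .o], [.o, .o, .i, .o], [.o, .o, .o, .i], [.i, .o, .i, .i], [.i, .v, .w, .v], [.i, .i, .i, .o], [.o, .o, .i, .w], [.o, .o, .i, .v], [.o, .i, .o, .w], [.o, .i, .o, .v], [.o, .i, .w, .o], [.o, .i, .v, .o], [.i, .o, .o, .w], [.i, .o, .o, .v], [.i, .o, .i, .o], [.i, .o, .w, .i], [.i, .o, .w, .w], [.i, .o, .w, .v], [.i, .o, .v, .i], [.i, .o, .v, .w], [.i, .o, .v, .v], [.i, .i, .i, .w], [.i, .i, .i, .v], [.i, .i, .w, .o], [.i, .i, .v, .o], [.i, .w, .o, .o], [.i, .w, .i, .i], [.i, .w, .i, .w], [.i, .w, .i, .v], [.i, .w, .w, .o], [.i, .w, .v, .o], [.i, .w, .v, .w], [.i, .v, .o, .o], [.i, .v, .i, .i], [.i, .v, .i, .w], [.i, .v, .i,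 .v], [.i, .v, .w, .o], [.i, .v, .v, .o]]
def sV_sp0 : List (List F4) := [[.i, .o, .o, .o], [.o, .i, .o, .o], [.o, .o, .i, .o], [.o, .o, .o, .i], [.i, .i, .o, .o], [.i, .o, .v, .w], [.o, .i, .i, .i], [.i, .w, .i, .i]]
def sV_sp1 : List (List F4) := [[.i, .o, .o, .o], [.o, .i, .o, .o], [.o, .o, .i, .o], [.o, .o, .o, .i], [.i, .i, .o, .o], [.i, .o, .v, .w], [.o, .i, .i, .i], [.i, .w, .o, .i]]
def sV_sp2 : List (List F4) := [[.i, .o, .o, .o], [.o, .i, .o, .o], [.o, .o, .i, .o], [.o, .o, .o, .i], [.i, .w, .i, .v], [.i, .w, .o, .i], [.i, .i, .i, .o], [.i, .v, .v, .i]]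

end QG
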