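import Pool.Agent.Lib.QG.B1
import Pool.Agent.Lib.QG.D0
set_option autoImplicit false

/-! Row N3. P8 with both circuit-hyperplanes relaxed is not representable over a field with four
elements. Take the basis 0, 1, 2, 3; the vectors 4, 5, 6, 7 are the columns of
[[0,*,*,*],[*,0,*,*],[*,*,0,*],[*,*,*,0]] (rows 0..3), * nonzero, because 1234, 0235, 0136, 0127 are not
bases and the other exchanges are. Scale rows and columns (multiply coordinates and vectors by nonzero
scalars) so that seven of the stars are 1, e.g. row 0: (0,1,1,1), column 4: (0,1,1,1), and one more entry: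
(row 1, column 6) = 1. The other five entries a,b,c,d,f are in {1,ω,ω²} (243 cases); the conditions for the
remaining 4-sets (nonbases exactly 0456, 1457, 2467, 3567 among those with three or four elements of
4..7, and the two by two minors nonzero) have no solution. Decide over a concrete model of the field
with four elements or eliminate by hand. -/

namespace QG
open Set Matroid
variable {α : Type}

private theorem N3_det {F : Type} [Field F] (m : Fin 4 → Fin 4 → F) :
    (Matrix.of m).det =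
      m 0 0 * (m 1 1 * (m 2 2 * m 3 3 - m 2 3 * m 3 2) - m 1 2 * (m 2 1 * m 3 3 - m 2 3 * m 3 1)
        + m 1 3 * (m 2 1 * m 3 2 - m 2 2 * m 3 1))
      - m 0 1 * (m 1 0 * (m 2 2 * m 3 3 - m 2 3 * m 3 2) - m 1 2 * (m 2 0 * m 3 3 - m 2 3 * m 3 0)
        + m 1 3 * (m 2 0 * m 3 2 - m 2 2 * m 3 0))
      + m 0 2 * (m 1 0 * (m 2 1 * m 3 3 - m 2 3 * m 3 1) - m 1 1 * (m 2 0 * m 3 3 - m 2 3 * m 3 0)
        + m 1 3 * (m 2 0 * m 3 1 - m 2 1 * m 3 0))
      - m 0 3 * (m 1 0 * (m 2 1 * m 3 2 - m 2 2 * m 3 1) - m 1 1 * (m 2 0 * m 3 2 - m 2 2 * m 3 0)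
        + m 1 2 * (m 2 0 * m 3 1 - m 2 1 * m 3 0)) := by
  rw [Matrix.det_succ_row_zero]
  simp only [Fin.sum_univ_succ, Matrix.det_fin_three, Matrix.of_apply, Matrix.submatrix_apply]
  simp [Fin.succAbove, Fin.lt_def]
  ring

/-- The coordinates of the eight vectors. -/
private def N3U {F : Type} [Field F] (A : Fin 4 → Fin 4 → F) : Fin 8 → Fin 4 → F :=
  ![![1, 0, 0, 0], ![0, 1, 0, 0], ![0, 0, 1, 0], ![0, 0, 0, 1], A 0, A 1, A 2, A 3]

private theorem N3_key {F : Type} [Field F] {W : Type} [AddCommGroup W] [Module F W]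
    {w : Fin 4 → W} (hw : LinearIndependent F w) (m : Fin 4 → Fin 4 → F) :
    LinearIndependent F (fun i => ∑ j, m i j • w j) ↔ (Matrix.of m).det ≠ 0 := by
  have h1 : (fun i => ∑ j, m i j • w j) = (Fintype.linearCombination F w) ∘ m := by
    funext i
    rw [Function.comp_apply, Fintype.linearCombination_apply]
  rw [h1, LinearMap.linearIndependent_iff]
  · have h2 : m = (Matrix.of m).row := rfl
    conv_lhs => rw [h2]
    rw [Matrix.linearIndependent_rows_iff_isUnit, Matrix.isUnit_iff_isUnit_det, isUnit_iff_ne_zero]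
  · exact LinearMap.ker_eq_bot.2 (linearIndependent_iff_injective_fintypeLinearCombination.1 hw)

private theorem N3_inj : ∀ k : Fin 8, (4 : Fin 8) ≤ k →
    Function.Injective (Fin.cons k ![0, 1, 2, 3] : Fin 5 → Fin 8) := by decide

private theorem N3_main {M : Matroid α} (h : IsL 8 4 LP8 M) {F : Type} [Field F]
    (hR : Rep F M) : ∃ A : Fin 4 → Fin 4 → F, ∀ x : Fin 4 → Fin 8, Function.Injective x →
      ((Matrix.of fun i j => N3U A (x i) j).det ≠ 0 ↔ Finset.univ.image x ∉ LP8) := by
  classical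
  obtain ⟨e, he⟩ := h
  have hE : EL e 4 LP8 M := he
  obtain ⟨W, _, _, φ, hφ⟩ := hR
  have hsub : ∀ X : Set (Fin 8), e '' X ⊆ M.E := fun X => by
    rw [← hE.2.1]; exact image_subset_range e X
  have hI : ∀ {n : ℕ} (x : Fin n → Fin 8), Function.Injective x →
      (LinearIndependent F (fun i => φ (e (x i))) ↔
        ∃ B : Finset (Fin 8), Finset.univ.image x ⊆ B ∧ B.card = 4 ∧ B ∉ LP8) := by
    intro n x hx
    rw [← hE.indep, hφ _ (hsub _), Finset.coe_image, Finset.coe_univ, image_univ, ← range_comp,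
      linearIndepOn_range_iff (hE.1.comp hx)]
    rfl
  have h4 : ∀ (x : Fin 4 → Fin 8), Function.Injective x →
      (LinearIndependent F (fun i => φ (e (x i))) ↔ Finset.univ.image x ∉ LP8) := by
    intro x hx
    have hc : (Finset.univ.image x).card = 4 := by
      rw [Finset.card_image_of_injective _ hx, Finset.card_univ, Fintype.card_fin]
    rw [hI x hx]
    constructor
    · rintro ⟨B, h1, h2, h3⟩
      rwa [Finset.eq_of_subset_of_card_le h1 (by rw [h2, hc])]
    · exact fun h1 => ⟨_, Finset.Subset.refl _, hc, h1⟩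
  set w : Fin 4 → W := fun i => φ (e (![0, 1, 2, 3] i)) with hw
  have hwi : LinearIndependent F w := (h4 ![0, 1, 2, 3] (by decide)).2 (by decide)
  have hspan : ∀ k : Fin 8, (4 : Fin 8) ≤ k → ∃ c : Fin 4 → F, ∑ j, c j • w j = φ (e k) := by
    intro k hk
    by_contra hcon
    have hns : φ (e k) ∉ Submodule.span F (range w) := by
      intro hmem
      obtain ⟨c, hc⟩ := (Submodule.mem_span_range_iff_exists_fun F).1 hmem
      exact hcon ⟨c, hc⟩
    have h5 : LinearIndependent F (Fin.cons (φ (e k)) w : Fin 5 → W) :=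
      linearIndependent_finCons.2 ⟨hwi, hns⟩
    have h6 : (Fin.cons (φ (e k)) w : Fin 5 → W) =
        fun i => φ (e ((Fin.cons k ![0, 1, 2, 3] : Fin 5 → Fin 8) i)) := by
      funext i
      refine Fin.cases ?_ (fun j => ?_) i
      · rfl
      · rfl
    rw [h6] at h5
    have hinj : Function.Injective (Fin.cons k ![0, 1, 2, 3] : Fin 5 → Fin 8) := N3_inj k hk
    obtain ⟨B, h7, h8, -⟩ := (hI _ hinj).1 h5
    have h9 := Finset.card_le_card h7
    rw [Finset.card_image_of_injective _ hinj, Finset.card_univ, Fintype.card_fin, h8] at h9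
    omega
  obtain ⟨c4, hc4⟩ := hspan 4 (by decide)
  obtain ⟨c5, hc5⟩ := hspan 5 (by decide)
  obtain ⟨c6, hc6⟩ := hspan 6 (by decide)
  obtain ⟨c7, hc7⟩ := hspan 7 (by decide)
  refine ⟨![c4, c5, c6, c7], fun x hx => ?_⟩
  have hU : ∀ k : Fin 8, ∑ j, N3U ![c4, c5, c6, c7] k j • w j = φ (e k) := by
    intro k
    fin_cases k
    · simp [N3U, hw, Fin.sum_univ_succ]
    · simp [N3U, hw, Fin.sum_univ_succ]
    · simp [N3U, hw, Fin.sum_univ_succ]
    · simp [N3U, hw, Fin.sum_univ_succ]
    · exact hc4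
    · exact hc5
    · exact hc6
    · exact hc7
  rw [← N3_key hwi, ← h4 x hx]
  have h10 : (fun i => ∑ j, N3U ![c4, c5, c6, c7] (x i) j • w j) = fun i => φ (e (x i)) :=
    funext fun i => hU (x i)
  rw [h10]

private theorem N3_fin {F : Type} [Field F] (h2 : (2 : F) = 0) (hpow : ∀ x : F, x ^ 4 = x)
    {a b c d f : F} (ha : a ≠ 0) (hb : b ≠ 0) (hf : f ≠ 0) (e1 : b * f + d - b = 0)
    (e2 : c + d - b = 0) (e3 : f + a - 1 = 0) (i1 : f - d ≠ 0) (i2 : c - a ≠ 0)
    (i3 : -(c * d) + a * (d - b) ≠ 0) : False := by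
  have hd : d = b - b * f := by linear_combination e1
  have hc : c = b * f := by linear_combination e2 - e1
  have ha' : a = 1 - f := by linear_combination e3
  have hf1 : f - 1 ≠ 0 := fun h => ha (by linear_combination ha' - h)
  have hff : f ^ 2 + f + 1 = 0 := by
    have h : f * ((f - 1) * (f ^ 2 + f + 1)) = 0 := by linear_combination hpow f
    rcases mul_eq_zero.1 h with h | h
    · exact absurd h hf
    · rcases mul_eq_zero.1 h with h | h
      · exact absurd h hf1
      · exact h
  have hbb : (b - 1) * ((b - f) * (b - f ^ 2)) = 0 := by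
    have h : b * (b ^ 3 - 1) = 0 := by linear_combination hpow b
    rcases mul_eq_zero.1 h with h | h
    · exact absurd h hb
    · linear_combination h + (-b ^ 2 + b * f - (f - 1)) * hff
  rcases mul_eq_zero.1 hbb with h | h
  · apply i3
    rw [hc, hd, ha']
    linear_combination (-(f * (1 - f)) * b) * h2 - (f - f ^ 2) * b * h
  · rcases mul_eq_zero.1 h with h | h
    · apply i2
      rw [hc, ha']
      linear_combination f * h + hff - h2
    · apply i1
      rw [hd]
      linear_combination (-1 + f) * h + (f - 1) * hff - hff + (f + 1) * h2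

private theorem N3_alg {F : Type} [Field F] (h2 : (2 : F) = 0) (hpow : ∀ x : F, x ^ 4 = x)
    {x01 x02 x03 x10 x12 x13 x20 x21 x23 x30 x31 x32 : F}
    (n01 : x01 ≠ 0) (n02 : x02 ≠ 0) (n03 : x03 ≠ 0) (n10 : x10 ≠ 0) (n12 : x12 ≠ 0)
    (n13 : x13 ≠ 0) (n20 : x20 ≠ 0) (n21 : x21 ≠ 0) (n30 : x30 ≠ 0)
    (n32 : x32 ≠ 0)
    (Z1 : x10 * (x21 * x32) + x20 * (x31 * x12) + -(x30 * (x21 * x12)) = 0)
    (Z2 : -(x30 * (x01 * x23 - x21 * x03)) + -(x20 * (x31 * x03)) = 0)
    (Z3 : x10 * (x32 * x03) + x30 * (x02 * x13 - x12 * x03) = 0)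
    (I1 : x01 * x32 - x31 * x02 ≠ 0) (I2 : x10 * x23 - x20 * x13 ≠ 0)
    (I3 : -(x10 * (x31 * x23)) + x20 * (x31 * x13) + -(x30 * (x21 * x13)) ≠ 0) : False := by
  refine N3_fin h2 hpow (a := x13 * x02 / (x12 * x03)) (b := x21 * x02 * x10 / (x12 * x01 * x20))
    (c := x23 * x02 * x10 / (x12 * x03 * x20)) (d := x31 * x02 * x10 / (x12 * x01 * x30))
    (f := x32 * x10 / (x12 * x30)) ?_ ?_ ?_ ?_ ?_ ?_ ?_ ?_ ?_
  · exact div_ne_zero (mul_ne_zero n13 n02) (mul_ne_zero n12 n03)
  · exact div_ne_zero (mul_ne_zero (mul_ne_zero n21 n02) n10) (mul_ne_zero (mul_ne_zero n12 n01) n20)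
  · exact div_ne_zero (mul_ne_zero n32 n10) (mul_ne_zero n12 n30)
  · have : x21 * x02 * x10 / (x12 * x01 * x20) * (x32 * x10 / (x12 * x30))
        + x31 * x02 * x10 / (x12 * x01 * x30) - x21 * x02 * x10 / (x12 * x01 * x20)
        = x02 * x10 / (x12 ^ 2 * x01 * x20 * x30) *
          (x10 * (x21 * x32) + x20 * (x31 * x12) + -(x30 * (x21 * x12))) := by
      field_simp
      ring
    rw [this, Z1, mul_zero]
  · have : x23 * x02 * x10 / (x12 * x03 * x20) + x31 * x02 * x10 / (x12 * x01 * x30)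
        - x21 * x02 * x10 / (x12 * x01 * x20)
        = -(x02 * x10) / (x12 * x01 * x03 * x20 * x30) *
          (-(x30 * (x01 * x23 - x21 * x03)) + -(x20 * (x31 * x03))) := by
      field_simp
      ring
    rw [this, Z2, mul_zero]
  · have : x32 * x10 / (x12 * x30) + x13 * x02 / (x12 * x03) - 1
        = 1 / (x12 * x30 * x03) * (x10 * (x32 * x03) + x30 * (x02 * x13 - x12 * x03)) := by
      field_simp
      ring
    rw [this, Z3, mul_zero]
  · have : x32 * x10 / (x12 * x30) - x31 * x02 * x10 / (x12 * x01 * x30)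
        = x10 / (x12 * x30 * x01) * (x01 * x32 - x31 * x02) := by
      field_simp
    rw [this]
    exact mul_ne_zero (div_ne_zero n10 (mul_ne_zero (mul_ne_zero n12 n30) n01)) I1
  · have : x23 * x02 * x10 / (x12 * x03 * x20) - x13 * x02 / (x12 * x03)
        = x02 / (x12 * x03 * x20) * (x10 * x23 - x20 * x13) := by
      field_simp
    rw [this]
    exact mul_ne_zero (div_ne_zero n02 (mul_ne_zero (mul_ne_zero n12 n03) n20)) I2
  · have : -(x23 * x02 * x10 / (x12 * x03 * x20) * (x31 * x02 * x10 / (x12 * x01 * x30)))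
        + x13 * x02 / (x12 * x03) * (x31 * x02 * x10 / (x12 * x01 * x30)
          - x21 * x02 * x10 / (x12 * x01 * x20))
        = x02 ^ 2 * x10 / (x12 ^ 2 * x03 * x01 * x20 * x30) *
          (-(x10 * (x31 * x23)) + x20 * (x31 * x13) + -(x30 * (x21 * x13))) := by
      field_simp
      ring
    rw [this]
    exact mul_ne_zero (div_ne_zero (mul_ne_zero (pow_ne_zero _ n02) n10) (mul_ne_zero (mul_ne_zero
      (mul_ne_zero (mul_ne_zero (pow_ne_zero _ n12) n03) n01) n20) n30)) I3

theorem not_rep_P8 {M : Matroid α} (h : IsL 8 4 LP8 M) {F : Type} [Field F]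
    (hF : Nat.card F = 4) : ¬ Rep F M := by
  intro hR
  classical
  obtain ⟨A, hA⟩ := N3_main h hR
  have hFin : Finite F := Nat.finite_of_card_ne_zero (by rw [hF]; norm_num)
  have : Fintype F := Fintype.ofFinite F
  have hcard : Fintype.card F = 4 := by rw [← Nat.card_eq_fintype_card, hF]
  have h4 : (4 : F) = 0 := by
    have := FiniteField.cast_card_eq_zero F
    rw [hcard] at this
    exact_mod_cast this
  have h2 : (2 : F) = 0 := by
    have : (2 : F) * 2 = 0 := by rw [← h4]; norm_num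
    rcases mul_eq_zero.1 this with h | h <;> exact h
  have hpow : ∀ x : F, x ^ 4 = x := fun x => by
    have := FiniteField.pow_card x
    rwa [hcard] at this
  -- zero diagonal
  have z0 : A 0 0 = 0 := by
    have := (hA ![1, 2, 3, 4] (by decide)).not.2 (by decide)
    rw [not_not, N3_det] at this
    simpa [N3U] using this
  have z1 : A 1 1 = 0 := by
    have := (hA ![0, 2, 3, 5] (by decide)).not.2 (by decide)
    rw [not_not, N3_det] at this
    simpa [N3U] using this
  have z2 : A 2 2 = 0 := by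
    have := (hA ![0, 1, 3, 6] (by decide)).not.2 (by decide)
    rw [not_not, N3_det] at this
    simpa [N3U] using this
  have z3 : A 3 3 = 0 := by
    have := (hA ![0, 1, 2, 7] (by decide)).not.2 (by decide)
    rw [not_not, N3_det] at this
    simpa [N3U] using this
  have n01 : A 1 0 ≠ 0 := by
    have := (hA ![1, 2, 3, 5] (by decide)).2 (by decide)
    rw [N3_det] at this
    simpa [N3U] using this
  have n02 : A 2 0 ≠ 0 := by
    have := (hA ![1, 2, 3, 6] (by decide)).2 (by decide)
    rw [N3_det] at this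
    simpa [N3U] using this
  have n03 : A 3 0 ≠ 0 := by
    have := (hA ![1, 2, 3, 7] (by decide)).2 (by decide)
    rw [N3_det] at this
    simpa [N3U] using this
  have n10 : A 0 1 ≠ 0 := by
    have := (hA ![0, 2, 3, 4] (by decide)).2 (by decide)
    rw [N3_det] at this
    simpa [N3U] using this
  have n12 : A 2 1 ≠ 0 := by
    have := (hA ![0, 2, 3, 6] (by decide)).2 (by decide)
    rw [N3_det] at this
    simpa [N3U] using this
  have n13 : A 3 1 ≠ 0 := by
    have := (hA ![0, 2, 3, 7] (by decide)).2 (by decide)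
    rw [N3_det] at this
    simpa [N3U] using this
  have n20 : A 0 2 ≠ 0 := by
    have := (hA ![0, 1, 3, 4] (by decide)).2 (by decide)
    rw [N3_det] at this
    simpa [N3U] using this
  have n21 : A 1 2 ≠ 0 := by
    have := (hA ![0, 1, 3, 5] (by decide)).2 (by decide)
    rw [N3_det] at this
    simpa [N3U] using this
  have n23 : A 3 2 ≠ 0 := by
    have := (hA ![0, 1, 3, 7] (by decide)).2 (by decide)
    rw [N3_det] at this
    simpa [N3U] using this
  have n30 : A 0 3 ≠ 0 := by
    have := (hA ![0, 1, 2, 4] (by decide)).2 (by decide)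
    rw [N3_det] at this
    simpa [N3U] using this
  have n31 : A 1 3 ≠ 0 := by
    have := (hA ![0, 1, 2, 5] (by decide)).2 (by decide)
    rw [N3_det] at this
    simpa [N3U] using this
  have n32 : A 2 3 ≠ 0 := by
    have := (hA ![0, 1, 2, 6] (by decide)).2 (by decide)
    rw [N3_det] at this
    simpa [N3U] using this
  have Z1 := (hA ![0, 4, 5, 6] (by decide)).not.2 (by decide)
  rw [not_not, N3_det] at Z1
  simp [N3U, z0, z1, z2, z3] at Z1
  have Z2 := (hA ![1, 4, 5, 7] (by decide)).not.2 (by decide)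
  rw [not_not, N3_det] at Z2
  simp [N3U, z0, z1, z2, z3] at Z2
  have Z3 := (hA ![2, 4, 6, 7] (by decide)).not.2 (by decide)
  rw [not_not, N3_det] at Z3
  simp [N3U, z0, z1, z2, z3] at Z3
  have Z4 := (hA ![3, 5, 6, 7] (by decide)).not.2 (by decide)
  rw [not_not, N3_det] at Z4
  simp [N3U, z0, z1, z2, z3] at Z4
  have I1 := (hA ![1, 2, 5, 6] (by decide)).2 (by decide)
  rw [N3_det] at I1
  simp [N3U, z0, z1, z2, z3] at I1
  have I2 := (hA ![0, 3, 4, 7] (by decide)).2 (by decide)
  rw [N3_det] at I2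
  simp [N3U, z0, z1, z2, z3] at I2
  have I3 := (hA ![0, 4, 5, 7] (by decide)).2 (by decide)
  rw [N3_det] at I3
  simp [N3U, z0, z1, z2, z3] at I3
  exact N3_alg h2 hpow n01 n02 n03 n10 n12 n13 n20 n21 n30 n32 Z1 Z2 Z3 I1 I2 I3

end QG
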