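import Pool.Agent.Lib.QG.NI0
import Pool.Agent.Lib.QG.B1
import Pool.Agent.Lib.QG.N3
import Pool.Agent.Lib.QG.JL00

/-! MP_2e6874_co, row NI2: two pairs of types. -/

set_option autoImplicit false

namespace QG
open Set Matroid

/-- the number of the nonbases which contain the element `e j` -/
private theorem NI2_count {β : Type} {N : Matroid β} {n r : ℕ} {L : Finset (Finset (Fin n))}
    (hL : ∀ B ∈ L, B.card = r) {e : Fin n → β} (he : Function.Injective e) (hr : range e = N.E)
    (hB : ∀ B : Finset (Fin n), N.IsBase (e '' (B : Set (Fin n))) ↔ B.card = r ∧ B ∉ L)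
    (j : Fin n) :
    {B : Set β | B ⊆ N.E ∧ B.ncard = r ∧ ¬ N.IsBase B ∧ e j ∈ B}.ncard =
      (L.filter (fun B => j ∈ B)).card := by
  classical
  have hinj : Function.Injective (fun B : Finset (Fin n) => e '' (B : Set (Fin n))) := by
    intro B C hBC
    exact Finset.coe_injective (he.image_injective hBC)
  have h1 : {B : Set β | B ⊆ N.E ∧ B.ncard = r ∧ ¬ N.IsBase B ∧ e j ∈ B} =
      (fun B : Finset (Fin n) => e '' (B : Set (Fin n))) ''
      ((L.filter (fun B => j ∈ B) : Finset (Finset (Fin n))) : Set (Finset (Fin n))) := by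
    ext B
    simp only [mem_image, Finset.mem_coe, Finset.mem_filter]
    constructor
    · rintro ⟨hBE, hBr, hBB, hj⟩
      have hsub : B ⊆ range e := by rw [hr]; exact hBE
      have hfin : (e ⁻¹' B).Finite := Set.toFinite _
      have himg : e '' (hfin.toFinset : Set (Fin n)) = B := by
        rw [Set.Finite.coe_toFinset, image_preimage_eq_of_subset hsub]
      have hcard : hfin.toFinset.card = r := by
        have h3 := congrArg Set.ncard himg
        rw [ncard_image_of_injective _ he, ncard_coe_finset] at h3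
        rw [h3, hBr]
      refine ⟨hfin.toFinset, ⟨?_, ?_⟩, himg⟩
      · by_contra h2
        exact hBB (by rw [← himg]; exact (hB _).2 ⟨hcard, h2⟩)
      · rw [Set.Finite.mem_toFinset]
        exact hj
    · rintro ⟨C, ⟨hC, hj⟩, rfl⟩
      refine ⟨?_, ?_, ?_, ?_⟩
      · rw [← hr]
        exact image_subset_range _ _
      · rw [ncard_image_of_injective _ he, ncard_coe_finset]
        exact hL C hC
      · intro h2
        exact ((hB C).1 h2).2 hC
      · exact mem_image_of_mem _ hj
  rw [h1, ncard_image_of_injective _ hinj, ncard_coe_finset]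

/-- NI2a. In `LSb` the element 1 is in nine nonbases, in `LSa` every element is in at most eight. If `M` and `N`
are isomorphic, `N` has the type `LSa` as well (`IsL.iso`), with two labellings `e`, `e'` of the same
matroid (`σ = e'⁻¹ ∘ e` a permutation of `Fin 8` which maps `LSa` to `LSb`); count. -/
theorem ni_ab {α β : Type} {M : Matroid α} {N : Matroid β} (hM : IsL 8 4 LSa M) (hN : IsL 8 4 LSb N) :
    ¬ MIso M N := by
  intro h
  obtain ⟨e, he, hr, hB⟩ := hM.iso h
  obtain ⟨e', he', hr', hB'⟩ := hN
  have h1 : e' 1 ∈ range e := by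
    rw [hr, ← hr']
    exact mem_range_self _
  obtain ⟨j, hj⟩ := h1
  have h2 := NI2_count (by decide +kernel) he hr hB j
  have h3 := NI2_count (by decide +kernel) he' hr' hB' 1
  rw [hj] at h2
  rw [h3] at h2
  have h4 : ∀ j : Fin 8, (LSa.filter (fun B => j ∈ B)).card ≤ 8 := by decide +kernel
  have h5 : (LSb.filter (fun B => (1 : Fin 8) ∈ B)).card = 9 := by decide +kernel
  have h6 := h4 j
  omega

/-- NI2b. `N` (type `LSc`) is representable over `F4`: the matroid `LM univ (vecL 4 sV_sp2)` has type `LSc`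
(`K2_em`, `EM.isL`, `decide +kernel` as at the end of JF.lean), it is isomorphic to `N` (`IsL.miso`), `LM_rep`,
`Rep.iso`; but `M` is not (`not_rep_P8`, `F4.card`). -/
theorem ni_pc {α β : Type} {M : Matroid α} {N : Matroid β} (hM : IsL 8 4 LP8 M) (hN : IsL 8 4 LSc N) :
    ¬ MIso M N := by
  intro h
  have hex : ∃ m < 2 ^ sV_sp2.length, detbR 4 (sel sV_sp2 m) = true :=
    ⟨15, by decide +kernel, by decide +kernel⟩
  have hE := K2_em 4 sV_sp2 hex
  have hL : IsL 8 4 LSc (LM (Finset.univ : Finset (Fin sV_sp2.length)) (vecL 4 sV_sp2)) :=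
    EM.isL (n := 8) hE (by decide +kernel)
  have hRL : Rep F4 (LM (Finset.univ : Finset (Fin sV_sp2.length)) (vecL 4 sV_sp2)) :=
    ⟨_, inferInstance, inferInstance, vecL 4 sV_sp2, LM_rep _ _⟩
  have hRN : Rep F4 N := hRL.iso (hL.miso hN)
  exact not_rep_P8 hM F4.card (hRN.iso h.symm)

end QG
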