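import Pool.Agent.Lib.QG.NI0
import Pool.Agent.Lib.QG.E1
import Pool.Agent.Lib.QG.JL00

/-! MP_2e6874_co, row NI3: the fifteen matroids exist; uniqueness. -/

set_option autoImplicit false

namespace QG
open Set Matroid

/-- the closure of a set of `r - 1` elements -/
private def NI3_cl {n : ℕ} (L : Finset (Finset (Fin n))) (Z : Finset (Fin n)) : Finset (Fin n) :=
  Z ∪ (L.filter (fun A => Z ⊆ A)).biUnion id

private theorem NI3_ex {n r : ℕ} (hr : 1 ≤ r) (L : Finset (Finset (Fin n)))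
    (hL : ∀ A ∈ L, A.card = r)
    (h0 : ∃ B : Finset (Fin n), B.card = r ∧ B ∉ L)
    (h1' : ∀ Z ∈ (Finset.univ : Finset (Fin n)).powersetCard (r - 1),
      (L.filter (fun A => Z ⊆ A)).card ≤ 1 ∨ (NI3_cl L Z).card = n ∨
      ∀ Y ∈ (NI3_cl L Z).powersetCard r, Y ∈ L) :
    ∃ M : Matroid (Fin n), IsL n r L M := by
  classical
  have h1 : ∀ Z ∈ (Finset.univ : Finset (Fin n)).powersetCard (r - 1), NI3_cl L Z = Finset.univ ∨
      ∀ Y ∈ (NI3_cl L Z).powersetCard r, Y ∈ L := by
    intro Z hZ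
    rcases h1' Z hZ with h | h | h
    · right
      intro Y hY
      rw [Finset.mem_powersetCard] at hY hZ
      rcases Finset.eq_empty_or_nonempty (L.filter (fun A => Z ⊆ A)) with h2 | ⟨A, hA⟩
      · exfalso
        have h3 : NI3_cl L Z = Z := by rw [NI3_cl, h2, Finset.biUnion_empty, Finset.union_empty]
        rw [h3] at hY
        have := Finset.card_le_card hY.1
        omega
      · have h3 : L.filter (fun A => Z ⊆ A) = {A} :=
          Finset.eq_singleton_iff_unique_mem.2 ⟨hA, fun B hB => Finset.card_le_one.1 h B hB A hA⟩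
        rw [Finset.mem_filter] at hA
        have h4 : NI3_cl L Z = A := by
          rw [NI3_cl, h3, Finset.singleton_biUnion, id]
          exact Finset.union_eq_right.2 hA.2
        rw [h4] at hY
        have h5 : Y = A := Finset.eq_of_subset_of_card_le hY.1 (by rw [hL A hA.1, hY.2])
        rw [h5]
        exact hA.1
    · left
      exact Finset.eq_univ_of_card _ (by rw [h, Fintype.card_fin])
    · exact Or.inr h
  let P : Set (Fin n) → Prop := fun B =>
    ∃ X : Finset (Fin n), (X : Set (Fin n)) = B ∧ X.card = r ∧ X ∉ L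
  have hex : ∃ B, P B := by
    obtain ⟨B, hB⟩ := h0
    exact ⟨B, B, rfl, hB⟩
  have hexch : Matroid.ExchangeProperty P := by
    rintro _ _ ⟨X, rfl, hXr, hXL⟩ ⟨Y, rfl, hYr, hYL⟩ a ha
    have haX : a ∈ X := ha.1
    have haY : a ∉ Y := ha.2
    have hZ : X.erase a ∈ (Finset.univ : Finset (Fin n)).powersetCard (r - 1) := by
      rw [Finset.mem_powersetCard, Finset.card_erase_of_mem haX, hXr]
      exact ⟨Finset.subset_univ _, rfl⟩
    have hb : ∃ b ∈ Y, b ∉ NI3_cl L (X.erase a) := by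
      rcases h1 _ hZ with h | h
      · exfalso
        have h2 : a ∈ NI3_cl L (X.erase a) := by rw [h]; exact Finset.mem_univ a
        rw [NI3_cl, Finset.mem_union] at h2
        rcases h2 with h2 | h2
        · exact Finset.notMem_erase a X h2
        · rw [Finset.mem_biUnion] at h2
          obtain ⟨A, hA, haA⟩ := h2
          rw [Finset.mem_filter] at hA
          have h3 : X ⊆ A := by
            intro x hx
            by_cases hxa : x = a
            · rw [hxa]; exact haA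
            · exact hA.2 (Finset.mem_erase.2 ⟨hxa, hx⟩)
          have h4 : X = A := Finset.eq_of_subset_of_card_le h3 (by rw [hL A hA.1, hXr])
          exact hXL (h4 ▸ hA.1)
      · by_contra hcon
        push Not at hcon
        exact hYL (h Y (Finset.mem_powersetCard.2 ⟨hcon, hYr⟩))
    obtain ⟨b, hbY, hb⟩ := hb
    rw [NI3_cl, Finset.mem_union, not_or] at hb
    have hba : b ≠ a := fun h => haY (h ▸ hbY)
    have hbX : b ∉ X := fun h => hb.1 (Finset.mem_erase.2 ⟨hba, h⟩)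
    refine ⟨b, ⟨hbY, hbX⟩, insert b (X.erase a), ?_, ?_, ?_⟩
    · rw [Finset.coe_insert, Finset.coe_erase]
    · rw [Finset.card_insert_of_notMem hb.1, Finset.card_erase_of_mem haX, hXr]
      omega
    · intro hmem
      refine hb.2 (Finset.mem_biUnion.2 ⟨_, Finset.mem_filter.2 ⟨hmem, ?_⟩, ?_⟩)
      · exact Finset.subset_insert _ _
      · exact Finset.mem_insert_self _ _
  refine ⟨Matroid.ofIsBaseOfFinite (E := univ) Set.finite_univ P hex hexch
    (fun B _ => Set.subset_univ B), id, Function.injective_id, ?_, fun B => ?_⟩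
  · rw [Set.range_id]
    rfl
  · rw [Set.image_id]
    change P (B : Set (Fin n)) ↔ _
    constructor
    · rintro ⟨X, hX, h⟩
      rwa [← Finset.coe_injective hX]
    · exact fun h => ⟨B, rfl, h⟩

private theorem NI3_ex_Sa : ∃ M : Matroid (Fin 8), IsL 8 4 LSa M :=
  NI3_ex (by decide) _ (by decide +kernel) ⟨{0, 1, 2, 3}, by decide +kernel⟩ (by decide +kernel)

private theorem NI3_ex_Sb : ∃ M : Matroid (Fin 8), IsL 8 4 LSb M :=
  NI3_ex (by decide) _ (by decide +kernel) ⟨{0, 1, 2, 3}, by decide +kernel⟩ (by decide +kernel)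

private theorem NI3_ex_Sc : ∃ M : Matroid (Fin 8), IsL 8 4 LSc M :=
  NI3_ex (by decide) _ (by decide +kernel) ⟨{0, 1, 2, 3}, by decide +kernel⟩ (by decide +kernel)

/-- NI3a. `ex_U26` ... `ex_X8` (E1), for the duals take `M✶` (`dual_dual`); for `LSa`, `LSb`, `LSc`: the
matroids `LM univ (vecL 4 sV_sp0)` etc. (`K2_em`, `EM.isL`, `decide +kernel` as at the end of JF.lean). -/
theorem ty_exists (i : Fin 15) : ∃ (α : Type) (M : Matroid α), Ty i M := by
  have dd : ∀ {α : Type} {n r : ℕ} {L : Finset (Finset (Fin n))} {M : Matroid α}, IsL n r L M →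
      IsL n r L M✶✶ := by
    intro α n r L M h
    rw [dual_dual]
    exact h
  fin_cases i
  · obtain ⟨M, h⟩ := ex_U26
    exact ⟨_, M, h⟩
  · obtain ⟨M, h⟩ := ex_U46
    exact ⟨_, M, h⟩
  · obtain ⟨M, h⟩ := ex_P6
    exact ⟨_, M, h⟩
  · obtain ⟨M, h⟩ := ex_P8
    exact ⟨_, M, h⟩
  · obtain ⟨M, h⟩ := ex_K4
    exact ⟨_, M, h⟩
  · obtain ⟨M, h⟩ := ex_A7
    exact ⟨_, M, h⟩
  · obtain ⟨M, h⟩ := ex_A7
    exact ⟨_, M✶, dd h⟩
  · obtain ⟨M, h⟩ := ex_E8a
    exact ⟨_, M, h⟩
  · obtain ⟨M, h⟩ := ex_E8a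
    exact ⟨_, M✶, dd h⟩
  · obtain ⟨M, h⟩ := ex_E8b
    exact ⟨_, M, h⟩
  · obtain ⟨M, h⟩ := ex_E8b
    exact ⟨_, M✶, dd h⟩
  · obtain ⟨M, h⟩ := ex_X8
    exact ⟨_, M, h⟩
  · obtain ⟨M, h⟩ := NI3_ex_Sa
    exact ⟨_, M, h⟩
  · obtain ⟨M, h⟩ := NI3_ex_Sb
    exact ⟨_, M, h⟩
  · obtain ⟨M, h⟩ := NI3_ex_Sc
    exact ⟨_, M, h⟩

/-- NI3b. `IsL.miso`, for the duals `MIso.dual`. -/
theorem ty_unique (i : Fin 15) {α β : Type} {M : Matroid α} {N : Matroid β} (hM : Ty i M)
    (hN : Ty i N) : MIso M N := by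
  have dd : MIso M✶ N✶ → MIso M N := by
    intro h
    have h2 := h.dual
    rwa [dual_dual, dual_dual] at h2
  fin_cases i <;> simp only [Ty] at hM hN <;>
    first
    | exact IsL.miso hM hN
    | exact dd (IsL.miso hM hN)

end QG
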