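import Pool.Agent.Lib.QG.NI1
import Pool.Agent.Lib.QG.NI2
import Pool.Agent.Lib.QG.NI3

/-! MP_2e6874_co, row NI4: the fifteen matroids are pairwise not isomorphic. -/

set_option autoImplicit false

namespace QG
open Set Matroid

/-- NI4a. number of elements, rank, number of bases -/
def tyI (i : Fin 15) : ℕ × ℕ × ℕ :=
  ![(6, 2, 15), (6, 4, 15), (6, 3, 19), (8, 4, 62), (6, 3, 16), (7, 3, 30), (7, 4, 30), (8, 3, 48),
    (8, 5, 48), (8, 3, 50), (8, 5, 50), (8, 4, 54), (8, 4, 58), (8, 4, 58), (8, 4, 62)] i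

private theorem NI4_inv {n r k : ℕ} {L : Finset (Finset (Fin n))} {α : Type} {M : Matroid α}
    (h : IsL n r L M) (hL : ∀ B ∈ L, B.card = r) (hk : n.choose r = k + L.card) :
    M.Finite ∧ (M.E.ncard, rk M M.E, {B | M.IsBase B}.ncard) = (n, r, k) := by
  obtain ⟨h1, h2, h3⟩ := h.ncard'
  have h4 := h.nbases hL
  refine ⟨h1, ?_⟩
  rw [h2, h3]
  have h5 : {B | M.IsBase B}.ncard = k := by omega
  rw [h5]

private theorem NI4_dual {n r k : ℕ} {L : Finset (Finset (Fin n))} {α : Type} {M : Matroid α}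
    (h : IsL n r L M✶) (hL : ∀ B ∈ L, B.card = r) (hk : n.choose r = k + L.card) (s : ℕ)
    (hs : r + s = n) :
    M.Finite ∧ (M.E.ncard, rk M M.E, {B | M.IsBase B}.ncard) = (n, s, k) := by
  obtain ⟨h1, h2⟩ := NI4_inv h hL hk
  have h3 := inv_dual M✶ h1
  rw [dual_dual] at h3
  obtain ⟨h4, h5, h6⟩ := h3
  simp only [Prod.mk.injEq] at h2
  obtain ⟨h7, h8, h9⟩ := h2
  refine ⟨?_, ?_⟩
  · have := h1
    constructor
    have h10 := this.ground_finite
    rwa [dual_ground] at h10
  · have h11 : rk M M.E = s := by omega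
    rw [h11, h6, h9, h4, h7]

theorem ty_inv (i : Fin 15) {α : Type} {M : Matroid α} (h : Ty i M) :
    M.Finite ∧ (M.E.ncard, rk M M.E, {B | M.IsBase B}.ncard) = tyI i := by
  fin_cases i <;> simp only [Ty] at h
  · exact NI4_inv h (by decide +kernel) (by decide +kernel)
  · exact NI4_inv h (by decide +kernel) (by decide +kernel)
  · exact NI4_inv h (by decide +kernel) (by decide +kernel)
  · exact NI4_inv h (by decide +kernel) (by decide +kernel)
  · exact NI4_inv h (by decide +kernel) (by decide +kernel)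
  · exact NI4_inv h (by decide +kernel) (by decide +kernel)
  · exact NI4_dual h (by decide +kernel) (by decide +kernel) 4 rfl
  · exact NI4_inv h (by decide +kernel) (by decide +kernel)
  · exact NI4_dual h (by decide +kernel) (by decide +kernel) 5 rfl
  · exact NI4_inv h (by decide +kernel) (by decide +kernel)
  · exact NI4_dual h (by decide +kernel) (by decide +kernel) 5 rfl
  · exact NI4_inv h (by decide +kernel) (by decide +kernel)
  · exact NI4_inv h (by decide +kernel) (by decide +kernel)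
  · exact NI4_inv h (by decide +kernel) (by decide +kernel)
  · exact NI4_inv h (by decide +kernel) (by decide +kernel)

private theorem NI4_pairs : ∀ i j : Fin 15, tyI i = tyI j → i = j ∨ (i = 12 ∧ j = 13) ∨
    (i = 13 ∧ j = 12) ∨ (i = 3 ∧ j = 14) ∨ (i = 14 ∧ j = 3) := by
  decide +kernel

/-- NI4b. `ty_inv`, `MIso.inv`; `decide` for the pairs with different invariants; `ni_ab`, `ni_pc` (and
`MIso.symm`) for the other two. -/
theorem ty_ne {i j : Fin 15} {α β : Type} {M : Matroid α} {N : Matroid β} (hM : Ty i M) (hN : Ty j N)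
    (h : MIso M N) : i = j := by
  obtain ⟨h1, h2⟩ := ty_inv i hM
  obtain ⟨h3, h4⟩ := ty_inv j hN
  obtain ⟨h5, h6, h7, h8⟩ := h.inv h1
  rw [h6, h7, h8] at h2
  rcases NI4_pairs i j (h2.symm.trans h4) with h9 | ⟨rfl, rfl⟩ | ⟨rfl, rfl⟩ | ⟨rfl, rfl⟩ | ⟨rfl, rfl⟩
  · exact h9
  · exact absurd h (ni_ab hM hN)
  · exact absurd h.symm (ni_ab hN hM)
  · exact absurd h (ni_pc hM hN)
  · exact absurd h.symm (ni_pc hN hM)

end QG
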