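import Pool.Agent.Lib.QG.GFin
import Pool.Agent.Lib.QG.JF
import Pool.Agent.Lib.QG.BX
import Pool.Agent.Lib.QG.FF
import Pool.Agent.Lib.QG.NI4
import Pool.Agent.Lib.QG.BDall

/-! MP_2e6874_co: the final theorem. -/

set_option autoImplicit false

namespace QG
open Set Matroid

theorem final_all : (∀ (α : Type) (M : Matroid α), ExMin M ↔ Bad15 M) ∧
    (∀ (α : Type) (M : Matroid α), M.Finite → (QGam M ↔ Good15 M)) :=
  fin_all (baseA_of lxb_all) (fun M => small7 lx_all M) (fun M => eight15 lx_all M) fam_dual fam_qgam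

theorem final_exMin (α : Type) (M : Matroid α) : ExMin M ↔ Bad15 M := final_all.1 α M

end QG
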