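import Pool.Agent.Lib.QG.GDefs

/-! MP_2e6874_co, part (A), row GA1. -/

set_option autoImplicit false

namespace QG
open Set Matroid Submodule

variable {W : Type} [AddCommGroup W] [Module F4 W]

/-- GA1a. `Api_closure` for `M ＼ {v}`; the closure in `M` of a set `I` without `v`, outside `v`. -/
theorem On.mem_closure_iff {α : Type} {M : Matroid α} {v : α} {f : α → W} {C : Set W}
    (h : On M v f C) {I : Set α} (hI : I ⊆ M.E \ {v}) {x : α} (hx : x ∈ M.E \ {v}) :
    x ∈ M.closure I ↔ f x ∈ span F4 (f '' I) := by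
  have h1 : ∀ J, J ⊆ (M ＼ ({v} : Set α)).E → ((M ＼ ({v} : Set α)).Indep J ↔
      LinearIndepOn F4 f J) := by
    intro J hJ
    rw [deleteElem_indep_iff, ← h.rep J hJ]
    exact ⟨fun h' => h'.1, fun h' => ⟨h', fun hv => (hJ hv).2 rfl⟩⟩
  rw [← Api_closure h1 (X := I) hI (e := x) hx, delete_closure_eq]
  have h2 : I \ {v} = I := by
    rw [sdiff_eq_left, Set.disjoint_singleton_right]
    exact fun hv => (hI hv).2 rfl
  rw [h2]
  exact ⟨fun h' => ⟨h', hx.2⟩, fun h' => h'.1⟩

/-- GA1b. -/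
theorem On.indep_insert_iff {α : Type} {M : Matroid α} {v : α} {f : α → W} {C : Set W}
    (h : On M v f C) {I : Set α} (hI : I ⊆ M.E \ {v}) :
    M.Indep (insert v I) ↔ LinearIndepOn F4 f I ∧ v ∉ M.closure I := by
  rw [insert_indep_iff, h.rep I hI]
  refine and_congr_right fun _ => ?_
  have hv : v ∉ I := fun hv => (hI hv).2 rfl
  exact ⟨fun h' => (h' hv).2, fun h' _ => ⟨h.mem, h'⟩⟩

/-- GA1c. -/
theorem On.closure_congr {α : Type} {M : Matroid α} {v : α} {f : α → W} {C : Set W}
    (h : On M v f C) {I J : Set α} (hI : I ⊆ M.E \ {v}) (hJ : J ⊆ M.E \ {v})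
    (hIJ : span F4 (f '' I) = span F4 (f '' J)) : M.closure I = M.closure J := by
  refine Subset.antisymm ?_ ?_
  · refine M.closure_subset_closure_of_subset_closure fun x hx => ?_
    rw [h.mem_closure_iff hJ (hI hx), ← hIJ]
    exact subset_span ⟨x, hx, rfl⟩
  · refine M.closure_subset_closure_of_subset_closure fun x hx => ?_
    rw [h.mem_closure_iff hI (hJ hx), hIJ]
    exact subset_span ⟨x, hx, rfl⟩

/-- GA1d. A set with span containing a vector of the list: replace the set by an independent set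
with the same span which contains a given nonloop `x` with `f x` in the span. -/
theorem On.exists_basis_mem {α : Type} {M : Matroid α} {v : α} {f : α → W} {C : Set W}
    (h : On M v f C) {I : Set α} (hI : I ⊆ M.E \ {v}) {x : α} (hx : x ∈ M.E \ {v}) (hx0 : f x ≠ 0)
    (hxI : f x ∈ span F4 (f '' I)) :
    ∃ J, J ⊆ insert x I ∧ x ∈ J ∧ LinearIndepOn F4 f J ∧ span F4 (f '' J) = span F4 (f '' I) := by
  have h1 : LinearIndepOn F4 f ({x} : Set α) := LinearIndepOn.singleton hx0
  obtain ⟨J, hJ1, hJ2, hJ3, hJ4⟩ := exists_linearIndepOn_extension h1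
    (singleton_subset_iff.2 (mem_insert x I))
  refine ⟨J, hJ1, hJ2 rfl, hJ4, le_antisymm ?_ ?_⟩
  · rw [span_le]
    rintro _ ⟨y, hy, rfl⟩
    rcases hJ1 hy with rfl | hy
    · exact hxI
    · exact subset_span ⟨y, hy, rfl⟩
  · rw [span_le]
    rintro _ ⟨y, hy, rfl⟩
    exact hJ3 ⟨y, mem_insert_of_mem _ hy, rfl⟩

end QG
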