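import Pool.Agent.Lib.QG.GDefs

/-! MP_2e6874_co, part (A), row GA2. -/

set_option autoImplicit false

namespace QG
open Set Matroid Submodule

variable {W : Type} [AddCommGroup W] [Module F4 W]

/-- GA2a. -/
theorem Adds.smul {α : Type} {M : Matroid α} {v : α} {f : α → W} {p : W} {s : F4} (hs : s ≠ 0)
    (h : Adds M v f p) : Adds M v f (s • p) := by
  intro I hI
  rw [h I hI, Submodule.smul_mem_iff _ hs]

private theorem GA2_adds_of_smul {α : Type} {M : Matroid α} {v : α} {f : α → W} {p : W} {s : F4}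
    (hs : s ≠ 0) (h : Adds M v f (s • p)) : Adds M v f p := by
  intro I hI
  rw [h I hI, Submodule.smul_mem_iff _ hs]

private theorem GA2_on {α : Type} {M : Matroid α} {v : α} {f : α → W} {C C' : Set W}
    (hC : Ln C = Ln C') (h : On M v f C') : On M v f C :=
  ⟨h.fin, h.mem, h.rep, by rw [h.pts, hC], h.ncl⟩

/-- GA2b. only the points of `C` and the lines of `P` matter -/
theorem AThm.congr {C C' P P' : Set W} (hC : Ln C = Ln C')
    (hP : ∀ p ∈ P, ∃ p' ∈ P', ∃ s : F4, s ≠ 0 ∧ p = s • p') (h : AThm C P) : AThm C' P' := by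
  intro α M v f hO hg
  obtain ⟨p, hp, hA⟩ := h α M v f (GA2_on hC hO) hg
  obtain ⟨p', hp', s, hs, rfl⟩ := hP p hp
  exact ⟨p', hp', GA2_adds_of_smul hs hA⟩

/-- GA2c. -/
theorem CThm.congr {C C' P P' : Set W} {y y' : W} (hC : Ln C = Ln C') (hy : Ln {y} = Ln {y'})
    (hP : ∀ p ∈ P, ∃ p' ∈ P', ∃ s : F4, s ≠ 0 ∧ p = s • p') (h : CThm C y P) : CThm C' y' P' := by
  intro α M v f hO hg x hx hfx
  obtain ⟨p, hp, hA⟩ := h α M v f (GA2_on hC hO) hg x hx (by rw [hy]; exact hfx)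
  obtain ⟨p', hp', s, hs, rfl⟩ := hP p hp
  refine ⟨p', hp', fun I hI hxI => ?_⟩
  rw [hA I hI hxI, Submodule.smul_mem_iff _ hs]

end QG
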