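import Pool.Agent.Lib.QG.GA2

/-! MP_2e6874_co, part (A), row GA3. -/

set_option autoImplicit false

namespace QG
open Set Matroid Submodule

variable {W : Type} [AddCommGroup W] [Module F4 W]

private theorem GA3_mem_span {C A : Set W} (h : Ln A = Ln C) {x : W} (hx : x ∈ A) :
    x ∈ span F4 C := by
  by_cases h0 : x = 0
  · rw [h0]
    exact zero_mem _
  · have h1 : x ∈ Ln A := ⟨h0, x, hx, 1, (one_smul _ _).symm⟩
    rw [h] at h1
    obtain ⟨-, c, hc, s, rfl⟩ := h1
    exact smul_mem _ s (subset_span hc)

private theorem GA3_Ln_sub {W' : Type} [AddCommGroup W'] [Module F4 W'] (π : W →ₗ[F4] W')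
    {A C : Set W} (h : Ln A ⊆ Ln C) : Ln (π '' A) ⊆ Ln (π '' C) := by
  rintro y ⟨hy, c, ⟨a, ha, rfl⟩, s, rfl⟩
  have h0 : s • a ≠ 0 := by
    intro h0
    apply hy
    rw [← map_smul, h0, map_zero]
  obtain ⟨-, c, hc, t, he⟩ := h ⟨h0, a, ha, s, rfl⟩
  exact ⟨hy, π c, mem_image_of_mem π hc, t, by rw [← map_smul, he, map_smul]⟩

/-- GA3. Let `π` be injective on the span of `C ∪ P`. Given `M, v, f` with points `C`, the map `π ∘ f`
represents `M ＼ {v}` with points `π '' C` (linear independence is preserved since `π` is injective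
on the span of the vectors), so some `π p`, `p ∈ P` is added; then `p` is added. -/
theorem AThm.of_map {W' : Type} [AddCommGroup W'] [Module F4 W'] (π : W →ₗ[F4] W') {C P : Set W}
    (hinj : ∀ x ∈ span F4 (C ∪ P), π x = 0 → x = 0) (h : AThm (π '' C) (π '' P)) : AThm C P := by
  intro α M v f hO hG
  have hfC : ∀ x ∈ M.E \ {v}, f x ∈ span F4 C := fun x hx =>
    GA3_mem_span hO.pts (mem_image_of_mem f hx)
  have hsp : ∀ I ⊆ M.E \ {v}, span F4 (f '' I) ≤ span F4 (C ∪ P) := by
    intro I hI
    rw [span_le]
    rintro _ ⟨x, hx, rfl⟩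
    exact span_mono subset_union_left (hfC x (hI hx))
  have hli : ∀ I ⊆ M.E \ {v}, (LinearIndepOn F4 (fun x => π (f x)) I ↔ LinearIndepOn F4 f I) := by
    intro I hI
    constructor
    · intro h1
      exact LinearIndependent.of_comp π h1
    · intro h1
      refine LinearIndependent.map (f := π) h1 ?_
      rw [disjoint_def]
      intro x hx hx0
      refine hinj x ?_ hx0
      have : span F4 (range fun x : I => f x) ≤ span F4 (C ∪ P) := by
        have e : range (fun x : I => f x) = f '' I := by
          ext y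
          simp
        rw [e]
        exact hsp I hI
      exact this hx
  have hO' : On M v (fun x => π (f x)) (π '' C) :=
    { fin := hO.fin
      mem := hO.mem
      rep := fun I hI => (hO.rep I hI).trans (hli I hI).symm
      pts := by
        have e : (fun x => π (f x)) '' (M.E \ {v}) = π '' (f '' (M.E \ {v})) := by
          rw [image_image]
        rw [e]
        exact Subset.antisymm (GA3_Ln_sub π hO.pts.subset) (GA3_Ln_sub π hO.pts.symm.subset)
      ncl := hO.ncl }
  obtain ⟨_, ⟨p, hp, rfl⟩, hA⟩ := h α M v (fun x => π (f x)) hO' hG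
  refine ⟨p, hp, fun I hI => ?_⟩
  rw [hA I hI, hli I hI]
  have e : (fun x => π (f x)) '' I = π '' (f '' I) := by
    rw [image_image]
  have key : π p ∈ span F4 ((fun x => π (f x)) '' I) ↔ p ∈ span F4 (f '' I) := by
    rw [e, ← Submodule.map_span, Submodule.mem_map]
    constructor
    · rintro ⟨x, hx, hxp⟩
      have h1 : x - p = 0 := by
        refine hinj _ (sub_mem (hsp I hI hx) (subset_span (Or.inr hp))) ?_
        rw [map_sub, hxp, sub_self]
      rwa [← sub_eq_zero.1 h1]
    · intro h1
      exact ⟨p, h1, rfl⟩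
  rw [key]

/-- GA3b. the converse: a section `θ` of `π` on the span of `C` gives a representation upstairs.
(Given `M, v, f` with points `π '' C`, put `f' x := θ (f x)`, where `θ : W' → W` is linear with
`θ (π c) = c` for `c ∈ C`; the values of `f` are in the span of `π '' C` by `On.pts`.) -/
theorem AThm.map {W' : Type} [AddCommGroup W'] [Module F4 W'] (π : W →ₗ[F4] W')
    (θ : W' →ₗ[F4] W) {C P : Set W} (hθ : ∀ x ∈ C ∪ P, θ (π x) = x) (h : AThm C P) :
    AThm (π '' C) (π '' P) := by
  have hid : ∀ A ⊆ C ∪ P, θ '' (π '' A) = A := by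
    intro A hA
    rw [image_image]
    ext y
    constructor
    · rintro ⟨x, hx, rfl⟩
      have h1 : θ (π x) = x := hθ x (hA hx)
      show θ (π x) ∈ A
      rwa [h1]
    · intro hy
      exact ⟨y, hy, hθ y (hA hy)⟩
  refine AThm.of_map θ ?_ ?_
  · intro x hx hx0
    have h1 : ∀ y ∈ span F4 (π '' C ∪ π '' P), π (θ y) = y := by
      intro y hy
      rw [← image_union] at hy
      refine span_induction ?_ ?_ ?_ ?_ hy
      · rintro _ ⟨c, hc, rfl⟩
        rw [hθ c hc]
      · rw [map_zero, map_zero]
      · intro a b _ _ ha hb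
        rw [map_add, map_add, ha, hb]
      · intro a b _ hb
        rw [map_smul, map_smul, hb]
    rw [← h1 x hx, hx0, map_zero]
  · rw [hid C subset_union_left, hid P subset_union_right]
    exact h

end QG
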