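import Pool.Agent.Lib.QG.GA2

/-! MP_2e6874_co, part (A), row GA4. -/

set_option autoImplicit false

namespace QG
open Set Matroid Submodule

variable {W : Type} [AddCommGroup W] [Module F4 W]

private theorem GA4_indep {α W' : Type} [AddCommGroup W'] [Module F4 W'] (π : W →ₗ[F4] W')
    {f : α → W} {x : α} {S : Set α} (hx : f x ≠ 0) (hπ : π (f x) = 0) (hxS : x ∉ S)
    (hk : ∀ z ∈ span F4 (f '' S), π z = 0 → z ∈ span F4 {f x}) :
    LinearIndepOn F4 f (insert x S) ↔ LinearIndepOn F4 (π ∘ f) S := by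
  have h1 : LinearIndepOn F4 f ({x} : Set α) := LinearIndepOn.singleton hx
  have hd : Disjoint ({x} : Set α) S := by rwa [Set.disjoint_singleton_left]
  have h2 := LinearIndepOn.quotient_iff_union h1 hd
  rw [singleton_union] at h2
  rw [← h2]
  have hle : span F4 (f '' ({x} : Set α)) ≤ LinearMap.ker π := by
    rw [span_le, image_singleton, singleton_subset_iff]
    exact hπ
  have h3 : π ∘ f = ((span F4 (f '' ({x} : Set α))).liftQ π hle) ∘
      ((span F4 (f '' ({x} : Set α))).mkQ ∘ f) := by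
    funext a
    simp
  rw [h3]
  symm
  refine LinearMap.linearIndepOn_iff_of_injOn _ ?_
  intro p hp q hq hpq
  rw [SetLike.mem_coe, image_comp, span_image, mem_map] at hp hq
  obtain ⟨a, ha, rfl⟩ := hp
  obtain ⟨b, hb, rfl⟩ := hq
  rw [mkQ_apply, mkQ_apply, liftQ_apply, liftQ_apply] at hpq
  rw [mkQ_apply, mkQ_apply, Submodule.Quotient.eq, image_singleton]
  refine hk _ (sub_mem ha hb) ?_
  rw [map_sub, hpq, sub_self]

private theorem GA4_mem {α : Type} {M : Matroid α} {v : α} {f : α → W} {C : Set W}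
    (h : On M v f C) {a : α} (ha : a ∈ M.E \ {v}) : f a ∈ span F4 C := by
  by_cases h0 : f a = 0
  · rw [h0]; exact zero_mem _
  · have h1 : f a ∈ Ln (f '' (M.E \ {v})) := ⟨h0, f a, ⟨a, ha, rfl⟩, 1, by rw [one_smul]⟩
    rw [h.pts] at h1
    obtain ⟨_, c, hc, s, hs⟩ := h1
    rw [hs]
    exact smul_mem _ _ (subset_span hc)

/-- GA4. Let `x` be an element of `M ＼ {v}` on the line of `y`, and `π : W → W'` linear with kernel
`⟨y⟩` on the span of `C ∪ Q`. Then `M ／ {x}` is represented on the complement of `v` by `π ∘ f`, it is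
good, `v` is not a coloop of it, and its points are those of `π '' C`. So the A-theorem for `C'`
gives `p' ∈ P'`, and `p ∈ Q` with `π p = s p'` describes the sets of `M` containing `x`. -/
theorem CThm.of_contract {W' : Type} [AddCommGroup W'] [Module F4 W'] (π : W →ₗ[F4] W')
    {C Q : Set W} {C' P' : Set W'} {y : W} (hy : y ≠ 0)
    (hker : ∀ x ∈ span F4 (C ∪ Q), π x = 0 → x ∈ span F4 {y}) (hy' : π y = 0)
    (hpts : Ln (π '' C) = Ln C') (h : AThm C' P')
    (hQ : ∀ p' ∈ P', ∃ p ∈ Q, ∃ s : F4, s ≠ 0 ∧ π p = s • p') : CThm C y Q := by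
  intro α M v f hOn hG x hx hfx
  obtain ⟨hfx0, y', hy1, s0, hs0⟩ := hfx
  rw [mem_singleton_iff] at hy1
  subst hy1
  have hs00 : s0 ≠ 0 := by
    rintro rfl
    rw [zero_smul] at hs0
    exact hfx0 hs0
  have hsp : span F4 {f x} = span F4 {y'} := by
    rw [hs0]
    exact span_singleton_smul_eq (IsUnit.mk0 _ hs00) _
  have hπx : π (f x) = 0 := by rw [hs0, map_smul, hy', smul_zero]
  have hxv : x ≠ v := fun hxv => hx.2 hxv
  have hxI : M.Indep {x} := by
    rw [hOn.rep _ (singleton_subset_iff.2 hx)]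
    exact LinearIndepOn.singleton hfx0
  have hnl : M.IsNonloop x := indep_singleton.1 hxI
  have hfS : ∀ S, S ⊆ M.E \ {v} → span F4 (f '' S) ≤ span F4 (C ∪ Q) := by
    intro S hS
    rw [span_le]
    rintro _ ⟨a, ha, rfl⟩
    exact span_mono subset_union_left (GA4_mem hOn (hS ha))
  have hkS : ∀ S, S ⊆ M.E \ {v} → ∀ z ∈ span F4 (f '' S), π z = 0 → z ∈ span F4 {f x} := by
    intro S hS z hz hz0
    rw [hsp]
    exact hker z (hfS S hS hz) hz0
  have hrep : ∀ I, I ⊆ M.E \ {v} → x ∉ I →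
      ((M ／ ({x} : Set α)).Indep I ↔ LinearIndepOn F4 (π ∘ f) I) := by
    intro I hI hxI
    rw [hnl.contractElem_indep_iff, and_iff_right hxI, hOn.rep _ (insert_subset hx hI)]
    exact GA4_indep π hfx0 hπx hxI (hkS I hI)
  have hfin : M.Finite := hOn.fin
  have hOn' : On (M ／ ({x} : Set α)) v (π ∘ f) C' := by
    refine ⟨inferInstance, ⟨hOn.mem, fun h' => hxv h'.symm⟩, ?_, ?_, ?_⟩
    · intro I hI
      refine hrep I (fun a ha => ⟨(hI ha).1.1, (hI ha).2⟩) fun hxI => (hI hxI).1.2 rfl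
    · rw [← hpts]
      ext z
      constructor
      · rintro ⟨hz0, _, ⟨a, ha, rfl⟩, s, hs⟩
        rw [contract_ground] at ha
        have h1 : s • f a ≠ 0 := by
          intro h1
          apply hz0
          rw [hs, Function.comp, ← map_smul, h1, map_zero]
        have h2 : s • f a ∈ Ln (f '' (M.E \ {v})) := ⟨h1, f a, ⟨a, ⟨ha.1.1, ha.2⟩, rfl⟩, s, rfl⟩
        rw [hOn.pts] at h2
        obtain ⟨_, c, hc, s', hs'⟩ := h2
        refine ⟨hz0, π c, ⟨c, hc, rfl⟩, s', ?_⟩
        rw [hs, Function.comp, ← map_smul, hs', map_smul]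
      · rintro ⟨hz0, _, ⟨c, hc, rfl⟩, s, hs⟩
        have h1 : s • c ≠ 0 := by
          intro h1
          apply hz0
          rw [hs, ← map_smul, h1, map_zero]
        have h2 : s • c ∈ Ln C := ⟨h1, c, hc, s, rfl⟩
        rw [← hOn.pts] at h2
        obtain ⟨_, _, ⟨a, ha, rfl⟩, s', hs'⟩ := h2
        have h3 : z = s' • π (f a) := by rw [hs, ← map_smul, hs', map_smul]
        refine ⟨hz0, π (f a), ⟨a, ⟨⟨ha.1, ?_⟩, ha.2⟩, rfl⟩, s', h3⟩
        rintro rfl
        apply hz0
        rw [h3, hπx, smul_zero]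
    · rw [contract_ground, contract_closure_eq]
      refine ⟨?_, fun h' => hxv h'.symm⟩
      have h1 : (M.E \ {x}) \ {v} ∪ {x} = M.E \ {v} := by
        ext a
        constructor
        · rintro (h' | h')
          · exact ⟨h'.1.1, h'.2⟩
          · rw [mem_singleton_iff] at h'
            rw [h']; exact hx
        · intro h'
          by_cases hax : a = x
          · exact Or.inr hax
          · exact Or.inl ⟨⟨h'.1, hax⟩, h'.2⟩
      rw [h1]
      exact hOn.ncl
  have hG' : Good (M ／ ({x} : Set α)) := fun N hN => hG N (hN.trans ⟨{x}, ∅, by rw [delete_empty]⟩)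
  obtain ⟨p', hp', hA⟩ := h α _ v _ hOn' hG'
  obtain ⟨p, hpQ, s, hs, hps⟩ := hQ p' hp'
  refine ⟨p, hpQ, fun I hI hxI => ?_⟩
  have hI' : I \ {x} ⊆ M.E \ {v} := fun a ha => hI ha.1
  have hI'' : I \ {x} ⊆ (M ／ ({x} : Set α)).E \ {v} := fun a ha =>
    ⟨⟨(hI ha.1).1, ha.2⟩, (hI ha.1).2⟩
  have hins : insert x (I \ {x}) = I := by
    rw [insert_sdiff_singleton, insert_eq_of_mem hxI]
  have h1 := hA (I \ {x}) hI''
  rw [hnl.contractElem_indep_iff, insert_comm, hins] at h1
  have hx' : x ∉ insert v (I \ {x}) := by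
    rintro (h' | h')
    · exact hxv h'
    · exact h'.2 rfl
  rw [and_iff_right hx'] at h1
  rw [h1, ← GA4_indep π hfx0 hπx (fun h' => h'.2 rfl) (hkS _ hI'), hins]
  refine and_congr_right fun _ => not_congr ?_
  have hfxI : f x ∈ span F4 (f '' I) := subset_span ⟨x, hxI, rfl⟩
  constructor
  · intro h2
    have h3 : π p ∈ span F4 ((π ∘ f) '' (I \ {x})) := by
      rw [hps]; exact smul_mem _ _ h2
    rw [image_comp, span_image, mem_map] at h3
    obtain ⟨w, hw, hw'⟩ := h3
    have h4 : p - w ∈ span F4 {f x} := by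
      rw [hsp]
      refine hker _ (sub_mem (subset_span (Or.inr hpQ)) (hfS _ hI' hw)) ?_
      rw [map_sub, hw', sub_self]
    have h5 : p = (p - w) + w := by abel
    rw [h5]
    refine add_mem ?_ (span_mono (image_mono (fun a ha => ha.1)) hw)
    refine (span_le.2 ?_) h4
    rw [singleton_subset_iff]
    exact hfxI
  · intro h2
    have h3 : π p ∈ span F4 ((π ∘ f) '' (I \ {x})) := by
      have h4 : π p ∈ (span F4 (f '' I)).map π := mem_map_of_mem h2
      rw [← span_image, ← hins, image_insert_eq, image_insert_eq, hπx, span_insert_zero,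
        ← image_comp] at h4
      exact h4
    rw [hps] at h3
    have h5 := smul_mem _ s⁻¹ h3
    rwa [smul_smul, inv_mul_cancel₀ hs, one_smul] at h5

end QG
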