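import Pool.Agent.Lib.QG.GA2

/-! MP_2e6874_co, part (A), row GA5. -/

set_option autoImplicit false

namespace QG
open Set Matroid Submodule

variable {W : Type} [AddCommGroup W] [Module F4 W]

private theorem GA5_span {W' : Type} [AddCommGroup W'] [Module F4 W'] (σ : W ≃+ W')
    (hσ : ∀ (s : F4) (x : W), σ (s • x) = F4.frob s • σ x) {X : Set W} {x : W}
    (h : x ∈ span F4 X) : σ x ∈ span F4 (σ '' X) := by
  induction h using span_induction with
  | mem y hy => exact subset_span ⟨y, hy, rfl⟩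
  | zero => rw [map_zero]; exact zero_mem _
  | add y z _ _ hy hz => rw [map_add]; exact add_mem hy hz
  | smul s y _ hy => rw [hσ]; exact smul_mem _ _ hy

private theorem GA5_symm {W' : Type} [AddCommGroup W'] [Module F4 W'] (σ : W ≃+ W')
    (hσ : ∀ (s : F4) (x : W), σ (s • x) = F4.frob s • σ x) (s : F4) (x : W') :
    σ.symm (s • x) = F4.frob s • σ.symm x := by
  apply σ.injective
  rw [hσ, σ.apply_symm_apply, σ.apply_symm_apply, F4.frob_frob]

private theorem GA5_span_iff {W' : Type} [AddCommGroup W'] [Module F4 W'] (σ : W ≃+ W')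
    (hσ : ∀ (s : F4) (x : W), σ (s • x) = F4.frob s • σ x) {X : Set W} {x : W} :
    σ x ∈ span F4 (σ '' X) ↔ x ∈ span F4 X := by
  refine ⟨fun h => ?_, GA5_span σ hσ⟩
  have h1 := GA5_span σ.symm (GA5_symm σ hσ) h
  have h2 : (σ.symm : W' → W) '' (σ '' X) = X := by
    rw [image_image]
    simp
  rwa [σ.symm_apply_apply, h2] at h1

private theorem GA5_indep {α : Type} {W' : Type} [AddCommGroup W'] [Module F4 W'] (σ : W ≃+ W')
    (hσ : ∀ (s : F4) (x : W), σ (s • x) = F4.frob s • σ x) (g : α → W) (I : Set α) :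
    LinearIndepOn F4 (fun a => σ (g a)) I ↔ LinearIndepOn F4 g I := by
  rw [linearIndepOn_iff_notMem_span, linearIndepOn_iff_notMem_span]
  refine forall_congr' fun a => forall_congr' fun _ => ?_
  have h1 : (fun a => σ (g a)) '' (I \ {a}) = σ '' (g '' (I \ {a})) := by
    rw [image_image]
  rw [h1, GA5_span_iff σ hσ]

private theorem GA5_Ln {W' : Type} [AddCommGroup W'] [Module F4 W'] (σ : W ≃+ W')
    (hσ : ∀ (s : F4) (x : W), σ (s • x) = F4.frob s • σ x) (X : Set W) :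
    Ln (σ '' X) = σ '' (Ln X) := by
  ext y
  constructor
  · rintro ⟨hy, _, ⟨c, hc, rfl⟩, s, rfl⟩
    have h1 : σ (F4.frob s • c) = s • σ c := by rw [hσ, F4.frob_frob]
    refine ⟨F4.frob s • c, ⟨fun h0 => hy ?_, c, hc, _, rfl⟩, h1⟩
    rw [← h1, h0, map_zero]
  · rintro ⟨_, ⟨hx, c, hc, s, rfl⟩, rfl⟩
    refine ⟨fun h0 => hx ((map_eq_zero_iff σ σ.injective).1 h0), σ c, ⟨c, hc, rfl⟩, F4.frob s, ?_⟩
    rw [hσ]

/-- GA5. Let `σ : W → W'` be additive, bijective and semilinear: `σ (s x) = s² σ x`. -/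
theorem AThm.frob {W' : Type} [AddCommGroup W'] [Module F4 W'] (σ : W ≃+ W')
    (hσ : ∀ (s : F4) (x : W), σ (s • x) = F4.frob s • σ x) {C P : Set W} (h : AThm C P) :
    AThm (σ '' C) (σ '' P) := by
  intro α M v f hM hG
  obtain ⟨g, rfl⟩ : ∃ g : α → W, f = fun a => σ (g a) :=
    ⟨fun a => σ.symm (f a), funext fun a => (σ.apply_symm_apply _).symm⟩
  have him : ∀ I : Set α, (fun a => σ (g a)) '' I = σ '' (g '' I) := fun I => by rw [image_image]
  have hon : On M v g C := by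
    refine ⟨hM.fin, hM.mem, fun I hI => ?_, ?_, hM.ncl⟩
    · rw [hM.rep I hI, GA5_indep σ hσ]
    · have h1 := hM.pts
      rw [him, GA5_Ln σ hσ, GA5_Ln σ hσ] at h1
      exact σ.injective.image_injective h1
  obtain ⟨p, hp, hadd⟩ := h α M v g hon hG
  refine ⟨σ p, ⟨p, hp, rfl⟩, fun I hI => ?_⟩
  rw [hadd I hI, him, GA5_span_iff σ hσ, GA5_indep σ hσ]

end QG
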