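import Pool.Agent.Lib.QG.GA1
import Pool.Agent.Lib.QG.GA2

/-! MP_2e6874_co, part (A), row GA6. -/

set_option autoImplicit false

namespace QG
open Set Matroid Submodule

variable {W : Type} [AddCommGroup W] [Module F4 W]

private theorem GA6_le {A B : Set W} (h : Ln A ⊆ Ln B) : span F4 A ≤ span F4 B := by
  rw [span_le]
  intro a ha
  by_cases h0 : a = 0
  · rw [h0]; exact Submodule.zero_mem _
  · obtain ⟨-, b, hb, s, hs⟩ := h ⟨h0, a, ha, 1, (one_smul _ _).symm⟩
    rw [hs]
    exact Submodule.smul_mem _ _ (subset_span hb)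

private theorem GA6_inv {s : F4} {x y : W} (hx : x ≠ 0) (h : x = s • y) :
    s ≠ 0 ∧ y = s⁻¹ • x := by
  have hs0 : s ≠ 0 := by
    rintro rfl
    rw [zero_smul] at h
    exact hx h
  exact ⟨hs0, by rw [h, smul_smul, inv_mul_cancel₀ hs0, one_smul]⟩

private theorem GA6_flat {α : Type} {M : Matroid α} {v : α} {f : α → W} {C : Set W}
    (h : On M v f C) {T : Set W} (hT : T ⊆ C) :
    span F4 (f '' {x | x ∈ M.E \ {v} ∧ f x ∈ span F4 T}) = span F4 T := by
  refine le_antisymm ?_ ?_
  · rw [span_le]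
    rintro _ ⟨x, hx, rfl⟩
    exact hx.2
  · rw [span_le]
    intro t ht
    by_cases h0 : t = 0
    · rw [h0]; exact Submodule.zero_mem _
    · have h1 : t ∈ Ln C := ⟨h0, t, hT ht, 1, (one_smul _ _).symm⟩
      rw [← h.pts] at h1
      obtain ⟨-, _, ⟨x, hx, rfl⟩, s, hs⟩ := h1
      obtain ⟨hs0, h2⟩ := GA6_inv h0 hs
      have h3 : f x ∈ span F4 T := by
        rw [h2]
        exact Submodule.smul_mem _ _ (subset_span ht)
      have h4 : s • f x ∈ span F4 (f '' {x | x ∈ M.E \ {v} ∧ f x ∈ span F4 T}) :=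
        Submodule.smul_mem _ _ (subset_span ⟨x, ⟨hx, h3⟩, rfl⟩)
      rw [← hs] at h4
      exact h4

private theorem GA6_key {α : Type} {M : Matroid α} {v : α} {f : α → W} {C : Set W}
    (h : On M v f C) {x : α} (hx : x ∈ M.E \ {v}) (hx0 : f x ≠ 0) {p : W} (hp : AddsAt M v f x p)
    {I : Set α} (hI : I ⊆ M.E \ {v}) (hxI : f x ∈ span F4 (f '' I)) :
    v ∈ M.closure I ↔ p ∈ span F4 (f '' I) := by
  obtain ⟨J, hJ1, hJ2, hJ3, hJ4⟩ := h.exists_basis_mem hI hx hx0 hxI
  have hJ : J ⊆ M.E \ {v} := hJ1.trans (insert_subset hx hI)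
  have h1 := hp J hJ hJ2
  rw [h.indep_insert_iff hJ] at h1
  rw [← h.closure_congr hJ hI hJ4, ← hJ4]
  tauto

private theorem GA6_hyp {α : Type} {M : Matroid α} {v : α} {f : α → W} {C R : Set W}
    (h : On M v f C) (hRC : R ⊆ C) (hcoc : Coc C R) {J : Set α} (hJ : J ⊆ M.E \ {v}) {u : W}
    (hu : u ∉ span F4 (f '' J)) (hU : span F4 C ≤ span F4 (f '' J) ⊔ span F4 {u}) :
    ∃ y ∈ R, y ∈ span F4 (f '' J) := by
  by_contra! hcon
  obtain ⟨φ, hφu, hφ⟩ := Submodule.exists_dual_map_eq_bot_of_notMem hu inferInstance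
  have hφT : ∀ t ∈ span F4 (f '' J), φ t = 0 := by
    intro t ht
    have h1 : φ t ∈ Submodule.map φ (span F4 (f '' J)) := ⟨t, ht, rfl⟩
    rw [hφ] at h1
    exact (Submodule.mem_bot F4).1 h1
  have hdec : ∀ c ∈ C, ∃ t ∈ span F4 (f '' J), ∃ s : F4, c = t + s • u := by
    intro c hc
    obtain ⟨t, ht, z, hz, h1⟩ := Submodule.mem_sup.1 (hU (subset_span hc))
    obtain ⟨s, hs⟩ := Submodule.mem_span_singleton.1 hz
    exact ⟨t, ht, s, by rw [hs, h1]⟩
  obtain ⟨ψ, hψ, c₁, hc₁, c₂, hc₂, hne⟩ := hcoc φ (by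
    intro y hy h0
    obtain ⟨t, ht, s, hs⟩ := hdec y (hRC hy)
    rw [hs, map_add, hφT t ht, zero_add, map_smul, smul_eq_mul] at h0
    rcases mul_eq_zero.1 h0 with h1 | h1
    · apply hcon y hy
      rw [hs, h1, zero_smul, add_zero]
      exact ht
    · exact hφu h1)
  have hψT : span F4 (f '' J) ≤ LinearMap.ker ψ := by
    rw [span_le]
    rintro _ ⟨x, hx, rfl⟩
    show ψ (f x) = 0
    by_cases h0 : f x = 0
    · rw [h0, map_zero]
    · have h1 : f x ∈ Ln (f '' (M.E \ {v})) := ⟨h0, f x, ⟨x, hJ hx, rfl⟩, 1, (one_smul _ _).symm⟩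
      rw [h.pts] at h1
      obtain ⟨-, c, hc, s, hs⟩ := h1
      obtain ⟨hs0, -⟩ := GA6_inv h0 hs
      have h2 := hφT (f x) (subset_span ⟨x, hx, rfl⟩)
      rw [hs, map_smul, smul_eq_mul] at h2
      rw [hs, map_smul, hψ c hc ((mul_eq_zero.1 h2).resolve_left hs0), smul_zero]
  obtain ⟨t₁, ht₁, s₁, h1⟩ := hdec c₁ hc₁
  obtain ⟨t₂, ht₂, s₂, h2⟩ := hdec c₂ hc₂
  have e₁ : ψ t₁ = 0 := hψT ht₁
  have e₂ : ψ t₂ = 0 := hψT ht₂
  apply hne
  rw [h1, h2]
  simp only [map_add, map_smul, hφT _ ht₁, hφT _ ht₂, e₁, e₂, smul_eq_mul, zero_add]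
  ring

/-- GA6. THE STEP THEOREM. Let `M, v, f` be given. For `y ∈ R` choose `x_y` in `M` with `f x_y` on the
line of `y`, and `p y ∈ Q y` with `AddsAt M v f x_y (p y)` (for `y ∉ R` any value).
(1) If `p y ∈ ⟨y⟩` for some `y ∈ R`: then `{v, x_y}` is dependent (apply AddsAt to `I = {x_y}`), so `v`
is a loop or parallel to `x_y`, and `Adds M v f 0` or `Adds M v f (f x_y)`; use `h0`, `hCP`
and `Adds.smul`.
(2) Otherwise: for `y, y' ∈ R` and `D ⊆ C` both memberships in the definition of `SH` say that `v` is in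
the closure of the elements with vectors on the lines of `{y, y'} ∪ D` (take all elements of `M ＼ {v}`
on these lines; an independent subset with the same span containing `x_y` by GA1d, and AddsAt).
So `SH` gives `q ∈ P` with `⟨y, q⟩ = ⟨y, p y⟩` for all `y ∈ R`, hence `AddsAt M v f x_y q`.
(3) `Adds M v f q`: let `I ⊆ M.E \ {v}` be independent.
  If `q ∉ span (f '' I)`: extend `I` to a set `J` of rank (rank of C) - 1, independent, with
  `q ∉ span (f '' J)` (`q ∈ span C` because `Q y ⊆ span C` and `C` contains `y`; take a basis of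
  `M ＼ {v}` which contains `I` and is obtained from `I ∪ {q}`: choose `J ⊇ I` maximal with
  `f '' J` independent together with `q`). If `q ∈ span (f '' I)`, suppose `M.Indep (insert v I)`;
  extend `insert v I` to a base of `M` by elements of `M.E`; since `v` is not a coloop (`On.ncl`) the
  base has rank-of-`C` elements; let `J` be the base without `v`. In both cases `J` is independent of
  size r - 1, `I ⊆ J`, and it is enough to show `v ∉ closure J ↔ q ∉ span (f '' J)`.
  By `hcoc` some `y ∈ R` is in `span (f '' J)`: otherwise let `φ` be a linear functional vanishing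
  exactly on `span (f '' J)` within `span C`; `φ y ≠ 0` for `y ∈ R`; `hcoc` gives `ψ` vanishing on
  `C ∩ ker φ ⊇` points of `J`, so `ψ` vanishes on `span (f '' J)`, so `ψ` is a multiple of `φ` on
  `span C`, contradiction to `φ c₁ ψ c₂ ≠ φ c₂ ψ c₁`. With GA1d replace `J` by `J' ∋ x_y` with the
  same span and closure and use AddsAt. -/
theorem step {C P R : Set W} {Q : W → Set W} (hne : R.Nonempty) (hRC : R ⊆ C)
    (hR0 : ∀ y ∈ R, y ≠ 0) (hC : ∀ y ∈ R, CThm C y (Q y))
    (hQ : ∀ y ∈ R, Q y ⊆ span F4 C) (hCP : C ⊆ P) (h0 : (0 : W) ∈ P) (hcoc : Coc C R)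
    (hSH : SH C P R Q) : AThm C P := by
  classical
  intro α M v f h hG
  have hfin := h.fin
  have hEfin : (M.E \ {v}).Finite := M.ground_finite.subset Set.sdiff_subset
  have hspan : span F4 (f '' (M.E \ {v})) = span F4 C :=
    le_antisymm (GA6_le h.pts.le) (GA6_le h.pts.ge)
  -- the elements
  have hX : ∀ y ∈ R, ∃ x ∈ M.E \ {v}, ∃ s : F4, s ≠ 0 ∧ f x ≠ 0 ∧ f x = s • y ∧
      ∃ p ∈ Q y, AddsAt M v f x p := by
    intro y hy
    have h1 : y ∈ Ln C := ⟨hR0 y hy, y, hRC hy, 1, (one_smul _ _).symm⟩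
    rw [← h.pts] at h1
    obtain ⟨-, _, ⟨x, hx, rfl⟩, s, hs⟩ := h1
    obtain ⟨hs0, h2⟩ := GA6_inv (hR0 y hy) hs
    have hfx : f x ≠ 0 := by
      intro h3
      rw [h3, smul_zero] at hs
      exact hR0 y hy hs
    obtain ⟨p, hp, hp2⟩ := hC y hy α M v f h hG x hx ⟨hfx, y, rfl, s⁻¹, h2⟩
    exact ⟨x, hx, s⁻¹, inv_ne_zero hs0, hfx, h2, p, hp, hp2⟩
  have : Nonempty α := ⟨v⟩
  choose! X hXE s hs0 hX0 hXs pp hppQ hpp using hX
  have hfX : ∀ y ∈ R, ∀ S : Submodule F4 W, f (X y) ∈ S ↔ y ∈ S := by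
    intro y hy S
    rw [hXs y hy]
    constructor
    · intro h1
      have h2 := S.smul_mem (s y)⁻¹ h1
      rwa [smul_smul, inv_mul_cancel₀ (hs0 y hy), one_smul] at h2
    · exact fun h1 => S.smul_mem _ h1
  have hkey : ∀ y ∈ R, ∀ I, I ⊆ M.E \ {v} → y ∈ span F4 (f '' I) →
      (v ∈ M.closure I ↔ pp y ∈ span F4 (f '' I)) := fun y hy I hI hyI =>
    GA6_key h (hXE y hy) (hX0 y hy) (hpp y hy) hI ((hfX y hy _).2 hyI)
  by_cases hcase : ∃ y ∈ R, pp y ∈ span F4 {y}
  · -- case (1)
    obtain ⟨y, hy, hpy⟩ := hcase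
    have hI : ({X y} : Set α) ⊆ M.E \ {v} := singleton_subset_iff.2 (hXE y hy)
    have h1 : y ∈ span F4 (f '' {X y}) := by
      rw [← hfX y hy]
      exact subset_span ⟨_, rfl, rfl⟩
    have h2 : v ∈ M.closure {X y} := by
      rw [hkey y hy _ hI h1]
      exact (span_le.2 (singleton_subset_iff.2 h1)) hpy
    by_cases hv : M.IsNonloop v
    · refine ⟨y, hCP (hRC hy), ?_⟩
      have h3 : Adds M v f (f (X y)) := by
        intro I hI'
        rw [h.indep_insert_iff hI', ← h.mem_closure_iff hI' (hXE y hy)]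
        have h4 : v ∈ M.closure I ↔ X y ∈ M.closure I := by
          constructor
          · intro h5
            have h6 := (hv.mem_closure_singleton h2)
            exact M.closure_subset_closure_of_subset_closure (singleton_subset_iff.2 h5) h6
          · intro h5
            exact M.closure_subset_closure_of_subset_closure (singleton_subset_iff.2 h5) h2
        rw [h4]
      have h5 := h3.smul (inv_ne_zero (hs0 y hy))
      rwa [hXs y hy, smul_smul, inv_mul_cancel₀ (hs0 y hy), one_smul] at h5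
    · refine ⟨0, h0, fun I hI' => ?_⟩
      constructor
      · intro h3
        exact absurd (h3.isNonloop_of_mem (mem_insert v I)) hv
      · intro h3
        exact absurd (Submodule.zero_mem _) h3.2
  · -- case (2)
    push Not at hcase
    have hflat : ∀ T, T ⊆ C → ∀ y ∈ R, y ∈ span F4 T →
        (v ∈ M.closure {x | x ∈ M.E \ {v} ∧ f x ∈ span F4 T} ↔ pp y ∈ span F4 T) := by
      intro T hT y hy hyT
      have h1 := hkey y hy {x | x ∈ M.E \ {v} ∧ f x ∈ span F4 T} (fun x hx => hx.1)
      rw [GA6_flat h hT] at h1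
      exact h1 hyT
    obtain ⟨q, hqP, hq⟩ := hSH pp hppQ hcase (by
      intro y hy y' hy' D hD
      have hT : ({y, y'} : Set W) ∪ D ⊆ C :=
        union_subset (insert_subset (hRC hy) (singleton_subset_iff.2 (hRC hy'))) hD
      rw [← hflat _ hT y hy (subset_span (Or.inl (mem_insert y _))),
        ← hflat _ hT y' hy' (subset_span (Or.inl (mem_insert_of_mem _ rfl)))])
    have hkey' : ∀ y ∈ R, ∀ I, I ⊆ M.E \ {v} → y ∈ span F4 (f '' I) →
        (v ∈ M.closure I ↔ q ∈ span F4 (f '' I)) := by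
      intro y hy I hI hyI
      rw [hkey y hy I hI hyI]
      have h1 : ∀ z : W, z ∈ span F4 (f '' I) ↔ span F4 {y, z} ≤ span F4 (f '' I) := by
        intro z
        rw [span_le]
        constructor
        · intro hz
          exact insert_subset hyI (singleton_subset_iff.2 hz)
        · intro hz
          exact hz (mem_insert_of_mem _ rfl)
      rw [h1 q, h1 (pp y), hq y hy]
    have hqC : q ∈ span F4 C := by
      obtain ⟨y, hy⟩ := hne
      have h1 : q ∈ span F4 {y, q} := subset_span (mem_insert_of_mem _ rfl)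
      rw [hq y hy] at h1
      refine (span_le.2 ?_) h1
      exact insert_subset (subset_span (hRC hy)) (singleton_subset_iff.2 (hQ y hy (hppQ y hy)))
    refine ⟨q, hqP, fun I hI => ?_⟩
    rw [h.indep_insert_iff hI]
    refine and_congr_right fun hLI => not_congr ?_
    constructor
    · -- (b)
      intro hvI
      by_contra hqI
      obtain ⟨J, hIJ, hJmax⟩ := Set.Finite.exists_le_maximal
        (s := {J : Set α | J ⊆ M.E \ {v} ∧ q ∉ span F4 (f '' J)})
        (hEfin.finite_subsets.subset fun J hJ => hJ.1) (a := I) ⟨hI, hqI⟩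
      obtain ⟨⟨hJE, hqJ⟩, hJm⟩ := hJmax
      have hU : span F4 C ≤ span F4 (f '' J) ⊔ span F4 {q} := by
        rw [← hspan, span_le]
        rintro _ ⟨x, hx, rfl⟩
        by_cases hxJ : f x ∈ span F4 (f '' J)
        · exact Submodule.mem_sup_left hxJ
        · have h1 : q ∈ span F4 (f '' (insert x J)) := by
            by_contra h2
            have h3 := hJm (y := insert x J) ⟨insert_subset hx hJE, h2⟩ (subset_insert x J)
            exact hxJ (subset_span ⟨x, h3 (mem_insert x J), rfl⟩)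
          rw [image_insert_eq, Submodule.mem_span_insert] at h1
          obtain ⟨a, z, hz, hqz⟩ := h1
          have ha : a ≠ 0 := by
            rintro rfl
            rw [zero_smul, zero_add] at hqz
            exact hqJ (hqz ▸ hz)
          have h4 : f x = a⁻¹ • (q - z) := by
            rw [hqz, add_sub_cancel_right, smul_smul, inv_mul_cancel₀ ha, one_smul]
          show f x ∈ span F4 (f '' J) ⊔ span F4 {q}
          rw [h4]
          exact Submodule.smul_mem _ _ (Submodule.sub_mem _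
            (Submodule.mem_sup_right (mem_span_singleton_self q)) (Submodule.mem_sup_left hz))
      obtain ⟨y, hy, hyJ⟩ := GA6_hyp h hRC hcoc hJE hqJ hU
      exact hqJ ((hkey' y hy J hJE hyJ).1 (M.closure_subset_closure hIJ hvI))
    · -- (a)
      intro hqI
      by_contra hvI
      have hIi : M.Indep I := (h.rep I hI).2 hLI
      have hvi : M.Indep (insert v I) := (h.indep_insert_iff hI).2 ⟨hLI, hvI⟩
      obtain ⟨B, hB, hvB⟩ := hvi.exists_isBase_superset
      have hvB' : v ∈ B := hvB (mem_insert v I)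
      obtain ⟨J, hJd⟩ : ∃ J, J = B \ {v} := ⟨_, rfl⟩
      have hJE : J ⊆ M.E \ {v} := by
        rw [hJd]
        exact sdiff_subset_sdiff_left hB.subset_ground
      have hIJ : I ⊆ J := by
        intro x hx
        rw [hJd]
        exact ⟨hvB (mem_insert_of_mem v hx), (hI hx).2⟩
      have hvJ : v ∉ M.closure J := by
        rw [hJd]
        exact hB.indep.notMem_closure_sdiff_of_mem hvB'
      obtain ⟨x, hx, hxJ⟩ : ∃ x ∈ M.E \ {v}, x ∉ M.closure J := by
        by_contra! hcon
        exact hvJ (M.closure_subset_closure_of_subset_closure hcon h.ncl)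
      have hJi : M.Indep J := by
        rw [hJd]
        exact hB.indep.sdiff _
      have hxJi : M.Indep (insert x J) := by
        refine (hJi.insert_indep_iff).2 (Or.inl ⟨hx.1, hxJ⟩)
      have hxB : x ∉ B := by
        intro hxB
        exact hxJ (M.mem_closure_of_mem (by rw [hJd]; exact ⟨hxB, hx.2⟩)
          (hJE.trans sdiff_subset))
      have hB' : M.IsBase (insert x J) := by
        rw [hJd] at hxJi ⊢
        exact hB.exchange_isBase_of_indep hxB hxJi
      have hU : span F4 C ≤ span F4 (f '' J) ⊔ span F4 {f x} := by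
        rw [← hspan, span_le]
        rintro _ ⟨z, hz, rfl⟩
        have h1 : z ∈ M.closure (insert x J) := by
          rw [hB'.closure_eq]
          exact hz.1
        rw [h.mem_closure_iff (insert_subset hx hJE) hz, image_insert_eq,
          Submodule.span_insert, sup_comm] at h1
        exact h1
      have hxJ' : f x ∉ span F4 (f '' J) := by
        rw [← h.mem_closure_iff hJE hx]
        exact hxJ
      obtain ⟨y, hy, hyJ⟩ := GA6_hyp h hRC hcoc hJE hxJ' hU
      exact hvJ ((hkey' y hy J hJE hyJ).2 (span_mono (image_mono hIJ) hqI))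

end QG
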