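import Pool.Agent.Lib.QG.GDefs

/-! MP_2e6874_co, part (A), row GA7. -/

set_option autoImplicit false

namespace QG
open Set Matroid Submodule

variable {W : Type} [AddCommGroup W] [Module F4 W]

private theorem GA7_pair {u v x z : W} (hx : x ∈ span F4 {u, v}) (hz : z ∈ span F4 {u, v})
    (hx0 : x ≠ 0) (hzx : z ∉ span F4 {x}) : span F4 {x, z} = span F4 {u, v} := by
  have hle : span F4 {x, z} ≤ span F4 {u, v} := by
    rw [span_le]
    rintro y (rfl | rfl)
    · exact hx
    · exact hz
  have : Module.Finite F4 (span F4 ({u, v} : Set W)) := Module.Finite.span_of_finite F4 (by simp)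
  refine Submodule.eq_of_le_of_finrank_le hle ?_
  have hli : LinearIndependent F4 ![x, z] := by
    rw [LinearIndependent.pair_iff]
    intro s t h
    have ht : t = 0 := by
      by_contra ht
      apply hzx
      have : z = (-(t⁻¹ * s)) • x := by
        have h1 : t⁻¹ • (s • x + t • z) = 0 := by rw [h, smul_zero]
        rw [smul_add, smul_smul, smul_smul, inv_mul_cancel₀ ht, one_smul] at h1
        rw [neg_smul, eq_neg_iff_add_eq_zero, add_comm]
        exact h1
      rw [this]
      exact Submodule.smul_mem _ _ (mem_span_singleton_self x)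
    refine ⟨?_, ht⟩
    rw [ht, zero_smul, add_zero] at h
    exact (smul_eq_zero.1 h).resolve_right hx0
  have h1 : Module.finrank F4 (span F4 (Set.range ![x, z])) = 2 := by
    rw [finrank_span_eq_card hli]; rfl
  have h2 : Set.range ![x, z] = {x, z} := by
    ext w; simp [eq_comm, or_comm]
  rw [h2] at h1
  rw [h1]
  classical
  have h3 := finrank_span_finset_le_card (R := F4) ({u, v} : Finset W)
  have h4 : (({u, v} : Finset W) : Set W) = {u, v} := by simp
  rw [Set.finrank, h4] at h3
  exact h3.trans (Finset.card_le_two)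

private theorem GA7_out {R : Set W} (h4 : Four R) (u v w : W) :
    ∃ y ∈ R, y ∉ span F4 {u, v, w} := by
  classical
  by_contra hcon
  push Not at hcon
  obtain ⟨y, hy, hli⟩ := h4
  have : Module.Finite F4 (span F4 ({u, v, w} : Set W)) :=
    Module.Finite.span_of_finite F4 (by simp)
  have h1 : Module.finrank F4 (span F4 (Set.range y)) = 4 := by
    rw [finrank_span_eq_card hli]; rfl
  have h2 : span F4 (Set.range y) ≤ span F4 {u, v, w} := by
    rw [span_le]
    rintro _ ⟨j, rfl⟩
    exact hcon _ (hy j)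
  have h3 := Submodule.finrank_mono h2
  have h5 := finrank_span_finset_le_card (R := F4) ({u, v, w} : Finset W)
  have h6 : (({u, v, w} : Finset W) : Set W) = {u, v, w} := by simp
  rw [Set.finrank, h6] at h5
  have h7 : ({u, v, w} : Finset W).card ≤ 3 := Finset.card_le_three
  omega

private theorem GA7_sing {x q : W} (hx : x ∈ span F4 {q}) (hx0 : x ≠ 0) : q ∈ span F4 {x} := by
  obtain ⟨t, rfl⟩ := mem_span_singleton.1 hx
  have ht : t ≠ 0 := by
    rintro rfl
    exact hx0 (zero_smul _ _)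
  refine mem_span_singleton.2 ⟨t⁻¹, ?_⟩
  rw [smul_smul, inv_mul_cancel₀ ht, one_smul]

private theorem GA7_sub {x : W} {S : Submodule F4 W} (hx : x ∈ S) : span F4 {x} ≤ S := by
  rw [span_le]
  rintro _ rfl
  exact hx

/-- a line which is not in the plane and meets two lines of the plane -/
private theorem GA7_H {u v q : W} {S A B : Submodule F4 W} (hS : ¬ span F4 {u, v} ≤ S)
    (hA : A ≤ S) (hB : B ≤ S) (hAB : ∀ z, z ∈ A → z ∈ B → z ∈ span F4 {q})
    (h1 : ∃ x, x ≠ 0 ∧ x ∈ span F4 {u, v} ∧ x ∈ A)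
    (h2 : ∃ x, x ≠ 0 ∧ x ∈ span F4 {u, v} ∧ x ∈ B) :
    q ∈ span F4 {u, v} ∧ ∀ z, z ∈ span F4 {u, v} → z ∈ S → z ∈ span F4 {q} := by
  obtain ⟨x, hx0, hxL, hxA⟩ := h1
  obtain ⟨x', hx0', hxL', hxB⟩ := h2
  -- everything in the intersection is a multiple of x
  have key : ∀ z, z ∈ span F4 {u, v} → z ∈ S → z ∈ span F4 {x} := by
    intro z hz hzS
    by_contra hzx
    apply hS
    rw [← GA7_pair hxL hz hx0 hzx, span_le]
    rintro y (rfl | rfl)
    · exact hA hxA
    · exact hzS
  have hxB' : x ∈ B := GA7_sub hxB (GA7_sing (key x' hxL' (hB hxB)) hx0')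
  have hxq := hAB x hxA hxB'
  refine ⟨GA7_sub hxL (GA7_sing hxq hx0), fun z hz hzS => ?_⟩
  exact GA7_sub hxq (key z hz hzS)

/-- GA7. Four independent points, pairwise meeting lines `ℓ_y = ⟨y, p y⟩`: the lines are all
2-dimensional; `⟨y, y', p y⟩ = ⟨y, y', p y'⟩` says that `ℓ_y, ℓ_y'` meet. Two different lines (they
exist: otherwise all `y` are on one line) meet in a point `⟨q⟩` and span a plane Π (dimension 3). Every
other line of the family passes through `⟨q⟩` or is in Π; if one, `ℓ₃`, does not pass through `⟨q⟩`,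
then every line of the family is in Π (a line not in Π meets Π in one point, which must be on ℓ₁, ℓ₂,
ℓ₃, but these have no common point), so `R ⊆ Π`, contradiction to four independent vectors. So
`q ∈ ℓ_y` for all `y`; `⟨y, q⟩ = ℓ_y` unless `q ∈ ⟨y⟩`; if `q ∈ ⟨y₀⟩`: for `y ∈ R` independent of `y₀`,
`⟨y, q⟩ = ⟨y, y₀⟩ = ℓ_y`, so by `Sep`-equality `⟨y₀, y, p y₀⟩ = ⟨y₀, y, p y⟩ = ⟨y₀, y⟩`, so
`p y₀ ∈ ⟨y₀, y⟩` for all `y ∈ R` independent of `y₀`; with two such `y` (independent with `y₀`) we get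
`p y₀ ∈ ⟨y₀⟩`, excluded in `SH`. Then `Hel` gives the vector of `P` (on the line of `q`). -/
theorem conc {C P R : Set W} {Q : W → Set W} (hRC : R ⊆ C) (hR0 : ∀ y ∈ R, y ≠ 0)
    (hQ : ∀ y ∈ R, Q y ⊆ span F4 C) (h4 : Four R) (hsep : Sep C R Q) (hhel : Hel C P R Q) :
    SH C P R Q := by
  intro p hp hp1 hp2
  have hE : ∀ y ∈ R, ∀ y' ∈ R, y ≠ y' → span F4 {y, y', p y} = span F4 {y, y', p y'} :=
    fun y hy y' hy' hne => hsep y hy y' hy' hne _ (hp y hy) _ (hp y' hy') (hp2 y hy y' hy')
  have hyL : ∀ y, y ∈ span F4 {y, p y} := fun y => subset_span (by simp)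
  have hpL : ∀ y, p y ∈ span F4 {y, p y} := fun y => subset_span (by simp)
  -- lines meet
  have hmeet : ∀ y ∈ R, ∀ y' ∈ R, ∃ x, x ≠ 0 ∧ x ∈ span F4 {y, p y} ∧ x ∈ span F4 {y', p y'} := by
    intro y hy y' hy'
    by_cases hne : y = y'
    · subst hne
      exact ⟨y, hR0 y hy, hyL y, hyL y⟩
    · have h1 : p y' ∈ span F4 {y', y, p y} := by
        have : p y' ∈ span F4 {y, y', p y'} := subset_span (by simp)
        rw [← hE y hy y' hy' hne] at this
        rwa [Set.insert_comm]
      obtain ⟨β, x, hx, h2⟩ := mem_span_insert.1 h1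
      refine ⟨x, ?_, hx, ?_⟩
      · rintro rfl
        apply hp1 y' hy'
        rw [h2, add_zero]
        exact Submodule.smul_mem _ _ (mem_span_singleton_self _)
      · have : x = p y' - β • y' := by rw [h2]; abel
        rw [this]
        exact Submodule.sub_mem _ (hpL y') (Submodule.smul_mem _ _ (hyL y'))
  -- the points a, b, c
  obtain ⟨a, ha, -⟩ := GA7_out h4 0 0 0
  obtain ⟨b, hb, hba⟩ := GA7_out h4 a (p a) 0
  have hba' : b ∉ span F4 {a, p a} := fun h => hba (span_mono (by
    intro x hx; rcases hx with rfl | rfl <;> simp) h)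
  have hab : a ≠ b := fun h => hba' (h ▸ hyL a)
  obtain ⟨c, hc, hcP⟩ := GA7_out h4 a b (p a)
  set S := span F4 {a, b, p a} with hS
  have hAS : span F4 {a, p a} ≤ S := span_mono (by
    intro x hx; rcases hx with rfl | rfl <;> simp)
  have hBS : span F4 {b, p b} ≤ S := by
    rw [hS, hE a ha b hb hab]
    exact span_mono (by intro x hx; rcases hx with rfl | rfl <;> simp)
  obtain ⟨q, hq0, hqa, hqb⟩ := hmeet a ha b hb
  have hAB : ∀ z, z ∈ span F4 {a, p a} → z ∈ span F4 {b, p b} → z ∈ span F4 {q} := by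
    intro z hza hzb
    by_contra hz
    apply hba'
    rw [← GA7_pair hqa hza hq0 hz, GA7_pair hqb hzb hq0 hz]
    exact hyL b
  have hcS : ¬ span F4 {c, p c} ≤ S := fun h => hcP (h (hyL c))
  have hH := GA7_H hcS hAS hBS hAB (hmeet c hc a ha) (hmeet c hc b hb)
  -- q is on all lines
  have hall : ∀ y ∈ R, q ∈ span F4 {y, p y} := by
    intro y hy
    by_cases hyS : span F4 {y, p y} ≤ S
    · obtain ⟨x, hx0, hxy, hxc⟩ := hmeet y hy c hc
      exact GA7_sub hxy (GA7_sing (hH.2 x hxc (hyS hxy)) hx0)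
    · exact (GA7_H hyS hAS hBS hAB (hmeet y hy a ha) (hmeet y hy b hb)).1
  -- q is not one of the points
  have hnot : ∀ y ∈ R, q ∉ span F4 {y} := by
    intro y₀ hy₀ hq
    have hy₀q := GA7_sing hq hq0
    have hstep : ∀ y ∈ R, y ∉ span F4 {y₀} → p y₀ ∈ span F4 {y₀, y} := by
      intro y hy hyy
      have hne : y₀ ≠ y := fun h => hyy (h ▸ mem_span_singleton_self y₀)
      have h1 : y₀ ∈ span F4 {y, p y} := GA7_sub (hall y hy) hy₀q
      have h2 := GA7_pair h1 (hyL y) (hR0 _ hy₀) hyy
      have h3 : p y ∈ span F4 {y₀, y} := by rw [h2]; exact hpL y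
      have h5 : p y₀ ∈ span F4 {y₀, y, p y} := by
        rw [← hE y₀ hy₀ y hy hne]; exact subset_span (by simp)
      have h6 : span F4 {y₀, y, p y} ≤ span F4 {y₀, y} := by
        rw [span_le]
        rintro x (rfl | rfl | rfl)
        · exact subset_span (by simp)
        · exact subset_span (by simp)
        · exact h3
      exact h6 h5
    obtain ⟨y, hy, hy1⟩ := GA7_out h4 y₀ y₀ y₀
    have hy1' : y ∉ span F4 {y₀} := fun h => hy1 (span_mono (by
      intro x hx; rw [Set.mem_singleton_iff] at hx; rw [hx]; simp) h)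
    obtain ⟨y', hy', hy2⟩ := GA7_out h4 y₀ y y
    have hy2' : y' ∉ span F4 {y₀, y} := fun h => hy2 (span_mono (by
      intro x hx; rcases hx with rfl | rfl <;> simp) h)
    have hy2'' : y' ∉ span F4 {y₀} := fun h => hy2' (span_mono (by
      intro x hx; rw [Set.mem_singleton_iff] at hx; rw [hx]; simp) h)
    have h7 := hstep y hy hy1'
    have h8 := hstep y' hy' hy2''
    obtain ⟨s, t, h9⟩ := mem_span_pair.1 h8
    have ht : t = 0 := by
      by_contra ht
      apply hy2'
      have h10 : t • y' ∈ span F4 {y₀, y} := by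
        have : t • y' = p y₀ - s • y₀ := by rw [← h9]; abel
        rw [this]
        exact Submodule.sub_mem _ h7 (Submodule.smul_mem _ _ (subset_span (by simp)))
      have h11 := Submodule.smul_mem _ t⁻¹ h10
      rwa [smul_smul, inv_mul_cancel₀ ht, one_smul] at h11
    apply hp1 y₀ hy₀
    rw [← h9, ht, zero_smul, add_zero]
    exact Submodule.smul_mem _ _ (mem_span_singleton_self _)
  have hfin : ∀ y ∈ R, span F4 {y, q} = span F4 {y, p y} := fun y hy =>
    GA7_pair (hyL y) (hall y hy) (hR0 y hy) (hnot y hy)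
  have hqC : q ∈ span F4 C := by
    have : span F4 {a, p a} ≤ span F4 C := by
      rw [span_le]
      rintro x (rfl | rfl)
      · exact subset_span (hRC ha)
      · exact hQ a ha (hp a ha)
    exact this hqa
  obtain ⟨r, hr, hrq⟩ := hhel q hqC (fun y hy => ⟨p y, hp y hy, hfin y hy⟩)
  refine ⟨r, hr, fun y hy => ?_⟩
  rw [← hfin y hy, span_insert, ← hrq, ← span_insert]

end QG
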