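import Pool.Agent.Lib.QG.GDefs

/-! MP_2e6874_co, part (A), row GA8. -/

set_option autoImplicit false

namespace QG
open Set Matroid Submodule

variable {W : Type} [AddCommGroup W] [Module F4 W]

omit [AddCommGroup W] [Module F4 W] in
private theorem GA8_set (y y' c : W) : ({y, y'} ∪ {c} : Set W) = insert c {y, y'} := by
  rw [union_comm, singleton_union]

omit [AddCommGroup W] [Module F4 W] in
private theorem GA8_set' (y y' c : W) : ({y, y', c} : Set W) = insert c {y, y'} := by
  ext z
  simp only [mem_insert_iff, mem_singleton_iff]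
  tauto

private theorem GA8_exch {S : Set W} {p c : W} (h : p ∈ span F4 (insert c S))
    (h' : p ∉ span F4 S) : span F4 (insert p S) = span F4 (insert c S) := by
  refine le_antisymm ?_ ?_
  · rw [span_le]
    exact insert_subset h ((subset_insert c S).trans subset_span)
  · rw [span_le]
    exact insert_subset (mem_span_insert_exchange h h') ((subset_insert p S).trans subset_span)

/-- if `p` is on a line of `C` or `0` modulo `y, y'`, then the compatibility gives the same span -/
private theorem GA8_aux {C : Set W} {y y' p p' : W}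
    (hc : ∃ c ∈ insert 0 C, ∃ s : F4, p + s • c ∈ span F4 {y, y'})
    (hD : ∀ D, D ⊆ C → (p ∈ span F4 ({y, y'} ∪ D) ↔ p' ∈ span F4 ({y, y'} ∪ D))) :
    span F4 {y, y', p} = span F4 {y, y', p'} := by
  rw [GA8_set' y y' p, GA8_set' y y' p']
  have h0 := hD ∅ (empty_subset C)
  rw [union_empty] at h0
  by_cases hp : p ∈ span F4 {y, y'}
  · rw [span_insert_eq_span hp, span_insert_eq_span (h0.1 hp)]
  · have hp' : p' ∉ span F4 {y, y'} := fun h => hp (h0.2 h)
    obtain ⟨c, hc, s, hs⟩ := hc
    have hcC : c ∈ C := by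
      rcases hc with rfl | hc
      · rw [smul_zero, add_zero] at hs
        exact absurd hs hp
      · exact hc
    have h1 := hD {c} (singleton_subset_iff.2 hcC)
    rw [GA8_set] at h1
    have h2 : p ∈ span F4 (insert c {y, y'}) := by
      rw [mem_span_insert]
      refine ⟨s, p + s • c, hs, ?_⟩
      rw [add_comm p, ← add_assoc, vadd_self, zero_add]
    rw [GA8_exch h2 hp, GA8_exch (h1.1 h2) hp']

/-- GA8. in `Sep` only the pairs of points outside of `C` and `0` (modulo `y, y'`) matter -/
theorem sep_of {C R : Set W} {Q : W → Set W}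
    (h : ∀ y ∈ R, ∀ y' ∈ R, y ≠ y' → ∀ p ∈ Q y, ∀ p' ∈ Q y',
      (∀ c ∈ insert 0 C, ∀ s : F4, p + s • c ∉ span F4 {y, y'}) →
      (∀ c ∈ insert 0 C, ∀ s : F4, p' + s • c ∉ span F4 {y, y'}) →
      (∀ D, D ⊆ C → (p ∈ span F4 ({y, y'} ∪ D) ↔ p' ∈ span F4 ({y, y'} ∪ D))) →
      span F4 {y, y', p} = span F4 {y, y', p'}) : Sep C R Q := by
  intro y hy y' hy' hne p hp p' hp' hD
  by_cases h1 : ∃ c ∈ insert 0 C, ∃ s : F4, p + s • c ∈ span F4 {y, y'}
  · exact GA8_aux h1 hD
  · by_cases h2 : ∃ c ∈ insert 0 C, ∃ s : F4, p' + s • c ∈ span F4 {y, y'}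
    · exact (GA8_aux h2 (fun D hDC => (hD D hDC).symm)).symm
    · refine h y hy y' hy' hne p hp p' hp' ?_ ?_ hD
      · intro c hc s hs
        exact h1 ⟨c, hc, s, hs⟩
      · intro c hc s hs
        exact h2 ⟨c, hc, s, hs⟩

end QG
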