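import Pool.Agent.Lib.QG.GA2

/-! MP_2e6874_co, part (A), row GB1. -/

set_option autoImplicit false

namespace QG
open Set Matroid Submodule

private theorem GB1_mk_eq (K : Submodule F4 VV) (y c : VV) (s : F4) :
    K.mkQ y = s • K.mkQ c ↔ y + s • c ∈ K := by
  rw [← map_smul, ← vsub y (s • c), ← Submodule.Quotient.mk_eq_zero K, ← Submodule.mkQ_apply,
    map_sub, sub_eq_zero]

/-- GB1a. -/
theorem LnK_eq (K : Submodule F4 VV) (C : Set VV) : LnK K C = K.mkQ ⁻¹' Ln (K.mkQ '' C) := by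
  ext y
  rw [mem_preimage]
  have h0 : K.mkQ y ≠ 0 ↔ y ∉ K := by
    rw [Ne, Submodule.mkQ_apply, Submodule.Quotient.mk_eq_zero]
  constructor
  · rintro ⟨h1, c, hc, s, hs⟩
    exact ⟨h0.2 h1, K.mkQ c, ⟨c, hc, rfl⟩, s, (GB1_mk_eq K y c s).2 hs⟩
  · rintro ⟨h1, _, ⟨c, hc, rfl⟩, s, hs⟩
    exact ⟨h0.1 h1, c, hc, s, (GB1_mk_eq K y c s).1 hs⟩

/-- GB1b. -/
theorem Ln_mkQ_eq (K : Submodule F4 VV) {C C' : Set VV} :
    Ln (K.mkQ '' C) = Ln (K.mkQ '' C') ↔ LnK K C = LnK K C' := by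
  rw [LnK_eq, LnK_eq]
  constructor
  · intro h
    rw [h]
  · intro h
    exact Set.preimage_injective.2 K.mkQ_surjective h

private theorem GB1_lines (K : Submodule F4 VV) {P P' : Set VV}
    (hP : ∀ p ∈ P, ∃ p' ∈ P', ∃ s : F4, s ≠ 0 ∧ p + s • p' ∈ K) :
    ∀ p ∈ K.mkQ '' P, ∃ p' ∈ K.mkQ '' P', ∃ s : F4, s ≠ 0 ∧ p = s • p' := by
  rintro _ ⟨p, hp, rfl⟩
  obtain ⟨p', hp', s, hs, h⟩ := hP p hp
  exact ⟨K.mkQ p', ⟨p', hp', rfl⟩, s, hs, (GB1_mk_eq K p p' s).2 h⟩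

/-- GB1c. -/
theorem AK.congr {K : Submodule F4 VV} {C C' P P' : Set VV} (hC : LnK K C = LnK K C')
    (hP : ∀ p ∈ P, ∃ p' ∈ P', ∃ s : F4, s ≠ 0 ∧ p + s • p' ∈ K) (h : AK K C P) : AK K C' P' :=
  AThm.congr ((Ln_mkQ_eq K).2 hC) (GB1_lines K hP) h

/-- GB1d. -/
theorem CK.congr {K : Submodule F4 VV} {C C' P P' : Set VV} {y y' : VV} (hC : LnK K C = LnK K C')
    (hy : LnK K {y} = LnK K {y'})
    (hP : ∀ p ∈ P, ∃ p' ∈ P', ∃ s : F4, s ≠ 0 ∧ p + s • p' ∈ K) (h : CK K C y P) :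
    CK K C' y' P' := by
  refine CThm.congr ((Ln_mkQ_eq K).2 hC) ?_ (GB1_lines K hP) h
  have h1 := (Ln_mkQ_eq K).2 hy
  rw [image_singleton, image_singleton] at h1
  exact h1

/-- GB1e. membership in the quotient -/
theorem mkQ_mem_span (K : Submodule F4 VV) (D : Set VV) (x : VV) :
    K.mkQ x ∈ span F4 (K.mkQ '' D) ↔ x ∈ span F4 D ⊔ K := by
  rw [← Submodule.map_span, ← Submodule.mem_comap, Submodule.comap_map_mkQ, sup_comm]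

end QG
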