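import Pool.Agent.Lib.QG.GA3
import Pool.Agent.Lib.QG.GA4
import Pool.Agent.Lib.QG.GB1

/-! MP_2e6874_co, part (A), row GB2. -/

set_option autoImplicit false

namespace QG
open Set Matroid Submodule

private theorem GB2_mk_eq (K : Submodule F4 VV) (y c : VV) (s : F4) :
    K.mkQ y = s • K.mkQ c ↔ y + s • c ∈ K := by
  rw [← map_smul, ← vsub y (s • c), ← Submodule.Quotient.mk_eq_zero K, ← Submodule.mkQ_apply,
    map_sub, sub_eq_zero]

private theorem GB2_zero (K : Submodule F4 VV) (y : VV) : K.mkQ y = 0 ↔ y ∈ K := by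
  rw [Submodule.mkQ_apply, Submodule.Quotient.mk_eq_zero]

private theorem GB2_image {K K' : Submodule F4 VV} (Φ : VV →ₗ[F4] VV) (h1 : K ≤ K'.comap Φ)
    (C : Set VV) : (K.mapQ K' Φ h1) '' (K.mkQ '' C) = K'.mkQ '' (Φ '' C) := by
  rw [image_image, image_image]
  rfl

/-- a linear condition on the generators holds on the span -/
private theorem GB2_span {K : Submodule F4 VV} (Φ Θ : VV →ₗ[F4] VV) {D : Set VV}
    (h3 : ∀ x ∈ D, x + Θ (Φ x) ∈ K) : ∀ x ∈ span F4 D, x + Θ (Φ x) ∈ K := by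
  have h : span F4 D ≤ K.comap (LinearMap.id + Θ.comp Φ) := by
    rw [span_le]
    intro x hx
    exact h3 x hx
  intro x hx
  exact h hx

private theorem GB2_lines {K K' : Submodule F4 VV} (Φ : VV →ₗ[F4] VV) (h1 : K ≤ K'.comap Φ)
    {P P' : Set VV} (hP : ∀ p' ∈ P', ∃ p ∈ P, ∃ s : F4, s ≠ 0 ∧ Φ p + s • p' ∈ K') :
    ∀ p' ∈ K'.mkQ '' P', ∃ p ∈ K.mkQ '' P, ∃ s : F4, s ≠ 0 ∧ K.mapQ K' Φ h1 p = s • p' := by
  rintro _ ⟨p', hp', rfl⟩
  obtain ⟨p, hp, s, hs, h⟩ := hP p' hp'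
  exact ⟨K.mkQ p, ⟨p, hp, rfl⟩, s, hs, (GB2_mk_eq K' (Φ p) p' s).2 h⟩

/-- GB2a. `Φ` maps `K` into `K'`, `Θ` maps `K'` into `K`, and `Θ Φ = id` modulo `K` on `C ∪ P'`. The map
`Φ` induces `π : VV ⧸ K → VV ⧸ K'`, injective on the span of `C ∪ P'` modulo `K` (if `Φ x ∈ K'` then
`x = (x + Θ (Φ x)) + Θ (Φ x) ∈ K`; the condition is linear in `x`). Use `AThm.of_map`, `AThm.congr`. -/
theorem AK.of_map {K K' : Submodule F4 VV} {C C' P P' : Set VV} (Φ Θ : VV →ₗ[F4] VV)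
    (h1 : ∀ k ∈ K, Φ k ∈ K') (h2 : ∀ k ∈ K', Θ k ∈ K) (h3 : ∀ x ∈ C ∪ P, x + Θ (Φ x) ∈ K)
    (hC : LnK K' (Φ '' C) = LnK K' C')
    (hP : ∀ p' ∈ P', ∃ p ∈ P, ∃ s : F4, s ≠ 0 ∧ Φ p + s • p' ∈ K') (h : AK K' C' P') :
    AK K C P := by
  have h1' : K ≤ K'.comap Φ := h1
  refine AThm.of_map (K.mapQ K' Φ h1') ?_ ?_
  · rw [← image_union, ← Submodule.map_span]
    rintro _ ⟨z, hz, rfl⟩ h0
    have h5 : Φ z ∈ K' := (GB2_zero K' (Φ z)).1 h0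
    have h6 := K.add_mem (GB2_span Φ Θ h3 z hz) (h2 _ h5)
    rw [add_assoc, vadd_self, add_zero] at h6
    exact (GB2_zero K z).2 h6
  · refine AThm.congr (C := K'.mkQ '' C') (P := K'.mkQ '' P') ?_ ?_ h
    · rw [GB2_image, Ln_mkQ_eq, hC]
    · intro p' hp'
      obtain ⟨p, hp, s, hs, he⟩ := GB2_lines Φ h1' hP p' hp'
      refine ⟨K.mapQ K' Φ h1' p, ⟨p, hp, rfl⟩, s⁻¹, inv_ne_zero hs, ?_⟩
      rw [he, smul_smul, inv_mul_cancel₀ hs, one_smul]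

/-- GB2b. THE CONTRACTION LEMMA. `x` is a point of `C`, `Φ x ∈ K'`, and `Θ Φ = id` modulo `K + ⟨x⟩` on
`C ∪ Q`. Apply `CThm.of_contract` to the map `VV ⧸ K → VV ⧸ K'` induced by `Φ`. -/
theorem CK.of_contract {K K' : Submodule F4 VV} {C C' Q P' : Set VV} {x : VV} (Φ Θ : VV →ₗ[F4] VV)
    (hx : x ∉ K) (h0 : Φ x ∈ K') (h1 : ∀ k ∈ K, Φ k ∈ K') (h2 : ∀ k ∈ K', Θ k ∈ K ⊔ span F4 {x})
    (h3 : ∀ z ∈ C ∪ Q, z + Θ (Φ z) ∈ K ⊔ span F4 {x})
    (hC : LnK K' (Φ '' C) = LnK K' C')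
    (hP : ∀ p' ∈ P', ∃ p ∈ Q, ∃ s : F4, s ≠ 0 ∧ Φ p + s • p' ∈ K') (h : AK K' C' P') :
    CK K C x Q := by
  have h1' : K ≤ K'.comap Φ := h1
  refine CThm.of_contract (K.mapQ K' Φ h1') ?_ ?_ ?_ ?_ h (GB2_lines Φ h1' hP)
  · intro h5
    exact hx ((GB2_zero K x).1 h5)
  · rw [← image_union, ← Submodule.map_span]
    rintro _ ⟨z, hz, rfl⟩ h5
    have h6 : Φ z ∈ K' := (GB2_zero K' (Φ z)).1 h5
    have h7 := (K ⊔ span F4 {x}).add_mem (GB2_span Φ Θ h3 z hz) (h2 _ h6)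
    rw [add_assoc, vadd_self, add_zero] at h7
    have h8 := (mkQ_mem_span K {x} z).2 (by rw [sup_comm]; exact h7)
    rw [image_singleton] at h8
    exact h8
  · exact (GB2_zero K' (Φ x)).2 h0
  · rw [GB2_image, Ln_mkQ_eq, hC]

private theorem GB2_LnK {K K' : Submodule F4 VV} {A B : Set VV} (Φ : VV →ₗ[F4] VV)
    (h1 : ∀ k ∈ K, Φ k ∈ K') (h : LnK K A ⊆ LnK K B) : LnK K' (Φ '' A) ⊆ LnK K' (Φ '' B) := by
  rintro y ⟨hy, _, ⟨a, ha, rfl⟩, s, hs⟩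
  have haK : a ∉ K := by
    intro haK
    apply hy
    have h5 := K'.add_mem hs (K'.smul_mem s (h1 a haK))
    rw [add_assoc, vadd_self, add_zero] at h5
    exact h5
  have haA : a ∈ LnK K A := ⟨haK, a, ha, 1, by rw [one_smul, vadd_self]; exact K.zero_mem⟩
  obtain ⟨-, b, hb, s', hs'⟩ := h haA
  refine ⟨hy, Φ b, ⟨b, hb, rfl⟩, s * s', ?_⟩
  have h5 := K'.add_mem hs (K'.smul_mem s (h1 _ hs'))
  rw [map_add, map_smul, smul_add, smul_smul] at h5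
  have h6 : y + s • Φ a + (s • Φ a + (s * s') • Φ b) = y + (s * s') • Φ b := by
    rw [add_assoc, ← add_assoc (s • Φ a), vadd_self, zero_add]
  rw [h6] at h5
  exact h5

/-- GB2c. the same for `IsCfg` (no contraction) -/
theorem IsCfg.map {α : Type} {M : Matroid α} {K K' : Submodule F4 VV} {C C' : Set VV}
    (Φ Θ : VV →ₗ[F4] VV) (h1 : ∀ k ∈ K, Φ k ∈ K') (h2 : ∀ k ∈ K', Θ k ∈ K)
    (h3 : ∀ x ∈ C, x + Θ (Φ x) ∈ K) (hC : LnK K' (Φ '' C) = LnK K' C') (h : IsCfg M K C) :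
    IsCfg M K' C' := by
  have h1' : K ≤ K'.comap Φ := h1
  obtain ⟨f, hf, hL⟩ := h
  have h4 : ∀ z ∈ span F4 C ⊔ K, z + Θ (Φ z) ∈ K := by
    have h5 : span F4 C ⊔ K ≤ K.comap (LinearMap.id + Θ.comp Φ) := by
      refine sup_le ?_ ?_
      · intro z hz
        exact GB2_span Φ Θ h3 z hz
      · intro z hz
        exact K.add_mem hz (h2 _ (h1 z hz))
    intro z hz
    exact h5 hz
  have hmem : ∀ x ∈ M.E, f x ∈ span F4 C ⊔ K := by
    intro x hx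
    by_cases hxK : f x ∈ K
    · exact Submodule.mem_sup_right hxK
    · have h5 : f x ∈ LnK K (f '' M.E) :=
        ⟨hxK, f x, ⟨x, hx, rfl⟩, 1, by rw [one_smul, vadd_self]; exact K.zero_mem⟩
      rw [hL] at h5
      obtain ⟨-, c, hc, s, hs⟩ := h5
      have h6 : f x = s • c + (f x + s • c) := by
        rw [add_comm (f x), ← add_assoc, vadd_self, zero_add]
      rw [h6]
      exact Submodule.add_mem_sup (Submodule.smul_mem _ _ (subset_span hc)) hs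
  refine ⟨Φ ∘ f, fun I hI => ?_, ?_⟩
  · rw [hf I hI]
    have e1 : (K'.mkQ ∘ Φ ∘ f : α → VV ⧸ K') = (K.mapQ K' Φ h1') ∘ (K.mkQ ∘ f) := rfl
    rw [e1]
    refine ((K.mapQ K' Φ h1').linearIndepOn_iff_of_injOn ?_).symm
    have hker : ∀ z ∈ span F4 ((K.mkQ ∘ f) '' I), K.mapQ K' Φ h1' z = 0 → z = 0 := by
      rw [image_comp, ← Submodule.map_span]
      rintro _ ⟨z, hz, rfl⟩ h5
      have h6 : Φ z ∈ K' := (GB2_zero K' (Φ z)).1 h5
      have hz' : z ∈ span F4 C ⊔ K := by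
        have h7 : span F4 (f '' I) ≤ span F4 C ⊔ K := by
          rw [span_le]
          rintro _ ⟨x, hx, rfl⟩
          exact hmem x (hI hx)
        exact h7 hz
      have h8 := K.add_mem (h4 z hz') (h2 _ h6)
      rw [add_assoc, vadd_self, add_zero] at h8
      exact (GB2_zero K z).2 h8
    intro a ha b hb hab
    have h9 := hker (a - b) (Submodule.sub_mem _ ha hb) (by rw [map_sub, hab, sub_self])
    exact sub_eq_zero.1 h9
  · rw [image_comp]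
    have h5 : LnK K' (Φ '' (f '' M.E)) = LnK K' (Φ '' C) :=
      Subset.antisymm (GB2_LnK Φ h1 hL.subset) (GB2_LnK Φ h1 hL.symm.subset)
    rw [h5, hC]

end QG
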