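import Pool.Agent.Lib.QG.GA6
import Pool.Agent.Lib.QG.GB1

/-! MP_2e6874_co, part (A), row GB3. -/

set_option autoImplicit false

namespace QG
open Set Matroid Submodule

/-- GB3. -/
theorem stepK {K : Submodule F4 VV} {C P R : Set VV} {Q : VV → Set VV} (hne : R.Nonempty)
    (hRC : R ⊆ C) (hinj : ∀ y ∈ R, ∀ y' ∈ R, y + y' ∈ K → y = y') (hR0 : ∀ y ∈ R, y ∉ K)
    (hC : ∀ y ∈ R, CK K C y (Q y)) (hQ : ∀ y ∈ R, ∀ p ∈ Q y, p ∈ span F4 C ⊔ K) (hCP : C ⊆ P)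
    (h0 : (0 : VV) ∈ P) (hcoc : CocK K C R) (hSH : SHK K C P R Q) : AK K C P := by
  classical
  have hinj' : ∀ y ∈ R, ∀ y' ∈ R, K.mkQ y = K.mkQ y' → y = y' := by
    intro y hy y' hy' h
    refine hinj y hy y' hy' ?_
    rw [← vsub, ← Submodule.Quotient.eq]
    exact h
  have hpair : ∀ a b : VV, K.mkQ '' {a, b} = {K.mkQ a, K.mkQ b} := fun a b => image_pair _ _ _
  obtain ⟨Q', hQ'⟩ : ∃ Q' : (VV ⧸ K) → Set (VV ⧸ K), ∀ y ∈ R, Q' (K.mkQ y) = K.mkQ '' Q y := by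
    refine ⟨fun w => {z | ∃ y ∈ R, K.mkQ y = w ∧ z ∈ K.mkQ '' Q y}, fun y hy => ?_⟩
    ext z
    constructor
    · rintro ⟨y', hy', h1, h2⟩
      rw [hinj' y' hy' y hy h1] at h2
      exact h2
    · exact fun hz => ⟨y, hy, rfl, hz⟩
  refine step (R := K.mkQ '' R) (Q := Q') (hne.image _) (image_mono hRC) ?_ ?_ ?_
    (image_mono hCP) ⟨0, h0, map_zero _⟩ ?_ ?_
  · rintro _ ⟨y, hy, rfl⟩ h1
    exact hR0 y hy ((Submodule.Quotient.mk_eq_zero K).1 h1)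
  · rintro _ ⟨y, hy, rfl⟩
    rw [hQ' y hy]
    exact hC y hy
  · rintro _ ⟨y, hy, rfl⟩
    rw [hQ' y hy]
    rintro _ ⟨p, hp, rfl⟩
    exact (mkQ_mem_span K C p).2 (hQ y hy p hp)
  · intro φ hφ
    obtain ⟨ψ, hψK, hψC, c₁, hc₁, c₂, hc₂, h1⟩ := hcoc (φ.comp K.mkQ) (fun k hk => by
      have h2 : K.mkQ k = 0 := (Submodule.Quotient.mk_eq_zero K).2 hk
      rw [LinearMap.comp_apply, h2, map_zero]) (fun y hy => hφ _ ⟨y, hy, rfl⟩)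
    refine ⟨K.liftQ ψ (fun k hk => hψK k hk), ?_, K.mkQ c₁, ⟨c₁, hc₁, rfl⟩, K.mkQ c₂,
      ⟨c₂, hc₂, rfl⟩, h1⟩
    rintro _ ⟨c, hc, rfl⟩ h2
    exact hψC c hc h2
  · intro p hp1 hp2 hp3
    have h1 : ∀ y ∈ R, ∃ x ∈ Q y, K.mkQ x = p (K.mkQ y) := by
      intro y hy
      have h2 := hp1 _ ⟨y, hy, rfl⟩
      rw [hQ' y hy] at h2
      exact h2
    choose! p' hp'1 hp'2 using h1
    obtain ⟨q, hqP, hq⟩ := hSH p' hp'1 (fun y hy h2 => by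
      refine hp2 _ ⟨y, hy, rfl⟩ ?_
      rw [← hp'2 y hy, ← image_singleton]
      exact (mkQ_mem_span K {y} _).2 h2) (fun y hy y' hy' D hD => by
      rw [← mkQ_mem_span, ← mkQ_mem_span, hp'2 y hy, hp'2 y' hy', image_union, hpair]
      exact hp3 _ ⟨y, hy, rfl⟩ _ ⟨y', hy', rfl⟩ _ (image_mono hD))
    refine ⟨K.mkQ q, ⟨q, hqP, rfl⟩, ?_⟩
    rintro _ ⟨y, hy, rfl⟩
    rw [← hp'2 y hy, ← hpair, ← hpair]
    ext z
    obtain ⟨x, rfl⟩ := K.mkQ_surjective z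
    rw [mkQ_mem_span, mkQ_mem_span, hq y hy]

end QG
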