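import Pool.Agent.Lib.QG.GA7
import Pool.Agent.Lib.QG.GA8
import Pool.Agent.Lib.QG.GB1

/-! MP_2e6874_co, part (A), row GB4. -/

set_option autoImplicit false

namespace QG
open Set Matroid Submodule

private theorem GB4_eq (K : Submodule F4 VV) (x y : VV) : K.mkQ x = K.mkQ y ↔ x + y ∈ K := by
  rw [← vsub]
  exact Submodule.Quotient.eq K

private theorem GB4_zero (K : Submodule F4 VV) (x : VV) : K.mkQ x = 0 ↔ x ∈ K := by
  rw [Submodule.mkQ_apply]
  exact Submodule.Quotient.mk_eq_zero K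

private theorem GB4_span (K : Submodule F4 VV) (D D' : Set VV) :
    span F4 (K.mkQ '' D) = span F4 (K.mkQ '' D') ↔ span F4 D ⊔ K = span F4 D' ⊔ K := by
  constructor
  · intro h
    ext x
    rw [← mkQ_mem_span, ← mkQ_mem_span, h]
  · intro h
    ext z
    obtain ⟨x, rfl⟩ := K.mkQ_surjective z
    rw [mkQ_mem_span, mkQ_mem_span, h]

private theorem GB4_pair (K : Submodule F4 VV) (y q : VV) :
    ({K.mkQ y, K.mkQ q} : Set (VV ⧸ K)) = K.mkQ '' {y, q} := by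
  rw [image_pair]

private theorem GB4_triple (K : Submodule F4 VV) (y y' q : VV) :
    ({K.mkQ y, K.mkQ y', K.mkQ q} : Set (VV ⧸ K)) = K.mkQ '' {y, y', q} := by
  rw [image_insert_eq, image_pair]

private theorem GB4_union (K : Submodule F4 VV) (y y' : VV) (D : Set VV) :
    ({K.mkQ y, K.mkQ y'} ∪ K.mkQ '' D : Set (VV ⧸ K)) = K.mkQ '' ({y, y'} ∪ D) := by
  rw [image_union, image_pair]

/-- GB4. -/
theorem concK {K : Submodule F4 VV} {C P R : Set VV} {Q : VV → Set VV} (hRC : R ⊆ C)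
    (hinj : ∀ y ∈ R, ∀ y' ∈ R, y + y' ∈ K → y = y') (hR0 : ∀ y ∈ R, y ∉ K)
    (hQ : ∀ y ∈ R, ∀ p ∈ Q y, p ∈ span F4 C ⊔ K) (h4 : FourK K R) (hsep : SepK K C R Q)
    (hhel : HelK K C P R Q) : SHK K C P R Q := by
  classical
  obtain ⟨Q', hQ'⟩ : ∃ Q' : (VV ⧸ K) → Set (VV ⧸ K),
      ∀ z x, x ∈ Q' z ↔ ∃ y ∈ R, K.mkQ y = z ∧ ∃ p ∈ Q y, K.mkQ p = x :=
    ⟨fun z => {x | ∃ y ∈ R, K.mkQ y = z ∧ ∃ p ∈ Q y, K.mkQ p = x}, fun z x => Iff.rfl⟩
  have hmem : ∀ y ∈ R, ∀ x, x ∈ Q' (K.mkQ y) → ∃ p ∈ Q y, K.mkQ p = x := by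
    intro y hy x hx
    obtain ⟨y0, hy0, h, p, hp, hpx⟩ := (hQ' _ _).1 hx
    have : y0 = y := hinj y0 hy0 y hy ((GB4_eq K y0 y).1 h)
    subst this
    exact ⟨p, hp, hpx⟩
  have hsepW : Sep (K.mkQ '' C) (K.mkQ '' R) Q' := by
    apply sep_of
    rintro _ ⟨y, hy, rfl⟩ _ ⟨y', hy', rfl⟩ hne p hp p' hp' h1 h2 h3
    obtain ⟨p, hpQ, rfl⟩ := hmem y hy p hp
    obtain ⟨p', hpQ', rfl⟩ := hmem y' hy' p' hp'
    have hne' : y ≠ y' := fun h => hne (by rw [h])
    have ins : ∀ c ∈ insert 0 C, K.mkQ c ∈ insert 0 (K.mkQ '' C) := by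
      rintro c (rfl | hc)
      · left
        exact map_zero _
      · right
        exact ⟨c, hc, rfl⟩
    have g1 : ∀ c ∈ insert 0 C, ∀ s : F4, p + s • c ∉ span F4 {y, y'} ⊔ K := by
      intro c hc s h
      apply h1 (K.mkQ c) (ins c hc) s
      rw [GB4_pair, ← map_smul, ← map_add, mkQ_mem_span]
      exact h
    have g2 : ∀ c ∈ insert 0 C, ∀ s : F4, p' + s • c ∉ span F4 {y, y'} ⊔ K := by
      intro c hc s h
      apply h2 (K.mkQ c) (ins c hc) s
      rw [GB4_pair, ← map_smul, ← map_add, mkQ_mem_span]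
      exact h
    have g3 : ∀ D, D ⊆ C →
        (p ∈ span F4 ({y, y'} ∪ D) ⊔ K ↔ p' ∈ span F4 ({y, y'} ∪ D) ⊔ K) := by
      intro D hD
      have := h3 (K.mkQ '' D) (image_mono hD)
      rw [GB4_union, mkQ_mem_span, mkQ_mem_span] at this
      exact this
    have a1 : p' ∈ span F4 {y, y', p} ⊔ K := hsep y hy y' hy' hne' p hpQ p' hpQ' g1 g2 g3
    have a2 : p ∈ span F4 {y', y, p'} ⊔ K := by
      refine hsep y' hy' y hy hne'.symm p' hpQ' p hpQ ?_ ?_ ?_
      · intro c hc s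
        rw [pair_comm]
        exact g2 c hc s
      · intro c hc s
        rw [pair_comm]
        exact g1 c hc s
      · intro D hD
        rw [pair_comm y' y]
        exact (g3 D hD).symm
    rw [insert_comm] at a2
    have b1 : K.mkQ p' ∈ span F4 {K.mkQ y, K.mkQ y', K.mkQ p} := by
      rw [GB4_triple, mkQ_mem_span]
      exact a1
    have b2 : K.mkQ p ∈ span F4 {K.mkQ y, K.mkQ y', K.mkQ p'} := by
      rw [GB4_triple, mkQ_mem_span]
      exact a2
    refine le_antisymm (span_le.2 ?_) (span_le.2 ?_)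
    · rintro z (rfl | rfl | rfl)
      · exact subset_span (by simp)
      · exact subset_span (by simp)
      · exact b2
    · rintro z (rfl | rfl | rfl)
      · exact subset_span (by simp)
      · exact subset_span (by simp)
      · exact b1
  have hhelW : Hel (K.mkQ '' C) (K.mkQ '' insert 0 P) (K.mkQ '' R) Q' := by
    intro q hq hall
    obtain ⟨q, rfl⟩ := K.mkQ_surjective q
    rw [mkQ_mem_span] at hq
    by_cases hqK : q ∈ K
    · refine ⟨K.mkQ 0, ⟨0, by simp, rfl⟩, ?_⟩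
      rw [(GB4_zero K q).2 hqK, map_zero]
    · obtain ⟨p, hp, s, hs, hqs⟩ := hhel q hq hqK (by
        intro y hy
        obtain ⟨x, hx, hspan⟩ := hall (K.mkQ y) ⟨y, hy, rfl⟩
        obtain ⟨p, hp, rfl⟩ := hmem y hy x hx
        have h1 : K.mkQ q ∈ span F4 {K.mkQ y, K.mkQ p} := by
          rw [← hspan]
          exact subset_span (by simp)
        obtain ⟨a, b, hab⟩ := mem_span_pair.1 h1
        refine ⟨p, Or.inr hp, a, b, ?_⟩
        rw [add_assoc, ← GB4_eq, ← hab]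
        simp)
      refine ⟨K.mkQ p, ⟨p, Or.inr hp, rfl⟩, ?_⟩
      have h1 : K.mkQ q = s • K.mkQ p := by
        rw [← map_smul, GB4_eq]
        exact hqs
      rw [h1]
      exact span_singleton_smul_eq (IsUnit.mk0 s hs) _
  have hfour : Four (K.mkQ '' R) := by
    obtain ⟨y, hyR, hy⟩ := h4
    refine ⟨fun j => K.mkQ (y j), fun j => ⟨y j, hyR j, rfl⟩, ?_⟩
    rw [Fintype.linearIndependent_iff]
    intro c hc
    refine hy c ?_
    rw [Fin.sum_univ_four] at hc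
    rw [← GB4_zero]
    simpa using hc
  have hSH := conc (C := K.mkQ '' C) (P := K.mkQ '' insert 0 P) (R := K.mkQ '' R) (Q := Q')
    (image_mono hRC)
    (by
      rintro _ ⟨y, hy, rfl⟩ h
      exact hR0 y hy ((GB4_zero K y).1 h))
    (by
      rintro _ ⟨y, hy, rfl⟩ x hx
      obtain ⟨p, hp, rfl⟩ := hmem y hy x hx
      show K.mkQ p ∈ span F4 (K.mkQ '' C)
      rw [mkQ_mem_span]
      exact hQ y hy p hp) hfour hsepW hhelW
  intro p hpQ hpn hcomp
  obtain ⟨p', hp'⟩ : ∃ p' : (VV ⧸ K) → (VV ⧸ K), ∀ y ∈ R, p' (K.mkQ y) = K.mkQ (p y) := by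
    refine ⟨fun z => if h : ∃ y ∈ R, K.mkQ y = z then K.mkQ (p h.choose) else 0, ?_⟩
    intro y hy
    have h : ∃ y0 ∈ R, K.mkQ y0 = K.mkQ y := ⟨y, hy, rfl⟩
    simp only
    rw [dif_pos h]
    have h1 := h.choose_spec
    have h2 : h.choose = y := hinj _ h1.1 y hy ((GB4_eq K _ y).1 h1.2)
    rw [h2]
  obtain ⟨x, ⟨q, hq, rfl⟩, hx⟩ := hSH p'
    (by
      rintro _ ⟨y, hy, rfl⟩
      rw [hp' y hy]
      exact (hQ' _ _).2 ⟨y, hy, rfl, p y, hpQ y hy, rfl⟩)
    (by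
      rintro _ ⟨y, hy, rfl⟩
      rw [hp' y hy]
      intro h
      apply hpn y hy
      rw [← mkQ_mem_span, image_singleton]
      exact h)
    (by
      rintro _ ⟨y, hy, rfl⟩ _ ⟨y', hy', rfl⟩ D hD
      rw [hp' y hy, hp' y' hy']
      obtain ⟨D', hD', rfl⟩ := subset_image_iff.1 hD
      rw [GB4_union, mkQ_mem_span, mkQ_mem_span]
      exact hcomp y hy y' hy' D' hD')
  have hx' : ∀ y ∈ R, span F4 {y, q} ⊔ K = span F4 {y, p y} ⊔ K := by
    intro y hy
    have := hx (K.mkQ y) ⟨y, hy, rfl⟩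
    rw [hp' y hy, GB4_pair, GB4_pair, GB4_span] at this
    exact this
  rcases hq with rfl | hq
  · exfalso
    obtain ⟨y, hyR, -⟩ := h4
    have h1 := hx' (y 0) (hyR 0)
    apply hpn (y 0) (hyR 0)
    have h2 : p (y 0) ∈ span F4 {y 0, p (y 0)} ⊔ K :=
      Submodule.mem_sup_left (subset_span (by simp))
    rw [← h1] at h2
    have h3 : span F4 {y 0, (0 : VV)} = span F4 {y 0} := by
      rw [pair_comm, span_insert_zero]
    rw [h3] at h2
    exact h2
  · exact ⟨q, hq, hx'⟩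

end QG
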