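import Pool.Agent.Lib.QG.GA1
import Pool.Agent.Lib.QG.GB1

/-! MP_2e6874_co, part (A), row GB5. -/

set_option autoImplicit false

namespace QG
open Set Matroid Submodule

private theorem GB5_mk_eq (K : Submodule F4 VV) (y c : VV) (s : F4) :
    K.mkQ y = s • K.mkQ c ↔ y + s • c ∈ K := by
  rw [← map_smul, ← vsub y (s • c), ← Submodule.Quotient.mk_eq_zero K, ← Submodule.mkQ_apply,
    map_sub, sub_eq_zero]

private theorem GB5_LnK_insert (K : Submodule F4 VV) (p : VV) {A B : Set VV}
    (h : LnK K A ⊆ LnK K B) : LnK K (insert p A) ⊆ LnK K (insert p B) := by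
  rintro y ⟨hy, c, hc, s, hs⟩
  rcases hc with rfl | hc
  · exact ⟨hy, c, mem_insert _ _, s, hs⟩
  · obtain ⟨-, c', hc', s', hs'⟩ := h ⟨hy, c, hc, s, hs⟩
    exact ⟨hy, c', mem_insert_of_mem _ hc', s', hs'⟩

/-- GB5. `M ＼ {x}` is the configuration `C` modulo `K`, `M` is simple and `x` is not a coloop. Then
`M` is the configuration `C ∪ {p}` for some `p ∈ P` which is not in `K` and not on a line of `C`. -/
theorem IsCfg.of_AK {α : Type} {M : Matroid α} (hM : M.Finite) (hG : Good M) {x : α}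
    (hx : x ∈ M.E) (hcl : x ∈ M.closure (M.E \ {x}))
    (hsim : ∀ y ∈ M.E, M.Indep {x, y}) {K : Submodule F4 VV} {C P : Set VV}
    (h : IsCfg (M ＼ {x}) K C) (hA : AK K C P) :
    ∃ p ∈ P, p ∉ K ∧ p ∉ LnK K C ∧ IsCfg M K (insert p C) := by
  classical
  obtain ⟨f, hf, hL⟩ := h
  rw [delete_ground] at hf hL
  have hrep : ∀ I, I ⊆ M.E \ {x} → (M.Indep I ↔ LinearIndepOn F4 (K.mkQ ∘ f) I) := by
    intro I hI
    rw [← hf I hI, delete_indep_iff]
    refine ⟨fun h => ⟨h, ?_⟩, fun h => h.1⟩
    rw [disjoint_singleton_right]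
    exact fun hxI => (hI hxI).2 rfl
  have hOn : On M x (K.mkQ ∘ f) (K.mkQ '' C) := by
    refine ⟨hM, hx, hrep, ?_, hcl⟩
    rw [image_comp, Ln_mkQ_eq, hL]
  obtain ⟨_, ⟨p, hp, rfl⟩, hAdd⟩ := hA α M x (K.mkQ ∘ f) hOn hG
  have hpK : p ∉ K := by
    intro hpK
    have h1 := hsim x hx
    rw [pair_eq_singleton, ← insert_empty_eq] at h1
    have h2 := ((hAdd ∅ (empty_subset _)).1 h1).2
    apply h2
    have h3 : K.mkQ p = 0 := by
      rw [Submodule.mkQ_apply, Submodule.Quotient.mk_eq_zero]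
      exact hpK
    rw [h3]
    exact Submodule.zero_mem _
  refine ⟨p, hp, hpK, ?_, Function.update f x p, ?_, ?_⟩
  · rw [← hL]
    rintro ⟨-, _, ⟨y, hy, rfl⟩, s, hs⟩
    have h1 := hsim y hy.1
    have h2 := ((hAdd {y} (singleton_subset_iff.2 hy)).1 h1).2
    apply h2
    rw [(GB5_mk_eq K p (f y) s).2 hs, image_singleton]
    exact Submodule.smul_mem _ _ (Submodule.mem_span_singleton_self _)
  · intro I hI
    have hupd : ∀ J : Set α, x ∉ J → EqOn (K.mkQ ∘ Function.update f x p) (K.mkQ ∘ f) J := by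
      intro J hJ z hz
      have hzx : z ≠ x := fun h0 => hJ (h0 ▸ hz)
      simp only [Function.comp_apply]
      rw [Function.update_of_ne hzx]
    by_cases hxI : x ∈ I
    · have hI' : I \ {x} ⊆ M.E \ {x} := sdiff_subset_sdiff_left hI
      have hxI' : x ∉ I \ {x} := fun h0 => h0.2 rfl
      have h1 := hAdd (I \ {x}) hI'
      rw [insert_sdiff_singleton, insert_eq_of_mem hxI] at h1
      rw [h1]
      have h2 := linearIndepOn_insert (K := F4) (f := K.mkQ ∘ Function.update f x p) hxI'
      rw [insert_sdiff_singleton, insert_eq_of_mem hxI] at h2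
      rw [h2, linearIndepOn_congr (hupd _ hxI'), (hupd _ hxI').image_eq]
      simp only [Function.comp_apply, Function.update_self]
    · rw [hrep I (subset_sdiff_singleton hI hxI), linearIndepOn_congr (hupd I hxI)]
  · have h1 : Function.update f x p '' M.E = insert p (f '' (M.E \ {x})) := by
      have h2 : M.E = insert x (M.E \ {x}) := by
        rw [insert_sdiff_singleton, insert_eq_of_mem hx]
      conv_lhs => rw [h2]
      rw [image_insert_eq, Function.update_self]
      congr 1
      refine image_congr fun z hz => ?_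
      exact Function.update_of_ne hz.2 _ _
    rw [h1]
    exact Subset.antisymm (GB5_LnK_insert K p hL.subset) (GB5_LnK_insert K p hL.symm.subset)

end QG
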