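import Pool.Agent.Lib.QG.GA5
import Pool.Agent.Lib.QG.GB1

/-! MP_2e6874_co, part (A), row GB7. -/

set_option autoImplicit false

namespace QG
open Set Matroid Submodule

private def GB7_h : F4 →+* F4 where
  toFun := F4.frob
  map_one' := rfl
  map_mul' := F4.frob_mul
  map_zero' := rfl
  map_add' := F4.frob_add

private noncomputable def GB7_l : VV →ₛₗ[GB7_h] VV where
  toFun x := frobV x
  map_add' := map_add frobV
  map_smul' s x := by
    ext k
    rw [frobV_apply, Finsupp.smul_apply, Finsupp.smul_apply, frobV_apply, smul_eq_mul,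
      F4.frob_mul]
    rfl

private theorem GB7_inv (x : VV) : frobV (frobV x) = x := by
  ext k
  rw [frobV_apply, frobV_apply, F4.frob_frob]

private theorem GB7_le {K K' : Submodule F4 VV} (hK : ∀ k, k ∈ K ↔ frobV k ∈ K') :
    K' ≤ Submodule.comap GB7_l K := by
  intro k hk
  change frobV k ∈ K
  rw [hK, GB7_inv]
  exact hk

private theorem GB7_le' {K K' : Submodule F4 VV} (hK : ∀ k, k ∈ K ↔ frobV k ∈ K') :
    K ≤ Submodule.comap GB7_l K' := by
  intro k hk
  change frobV k ∈ K'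
  exact (hK k).1 hk

private noncomputable def GB7_s {K K' : Submodule F4 VV}
    (hK : ∀ k, k ∈ K ↔ frobV k ∈ K') : (VV ⧸ K') ≃+ (VV ⧸ K) where
  toFun := Submodule.mapQ K' K GB7_l (GB7_le hK)
  invFun := Submodule.mapQ K K' GB7_l (GB7_le' hK)
  left_inv x := by
    obtain ⟨y, rfl⟩ := Submodule.Quotient.mk_surjective _ x
    rw [Submodule.mapQ_apply, Submodule.mapQ_apply]
    change Submodule.Quotient.mk (frobV (frobV y)) = _
    rw [GB7_inv]
  right_inv x := by
    obtain ⟨y, rfl⟩ := Submodule.Quotient.mk_surjective _ x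
    rw [Submodule.mapQ_apply, Submodule.mapQ_apply]
    change Submodule.Quotient.mk (frobV (frobV y)) = _
    rw [GB7_inv]
  map_add' := map_add _

private theorem GB7_s_mk {K K' : Submodule F4 VV}
    (hK : ∀ k, k ∈ K ↔ frobV k ∈ K') (x : VV) : GB7_s hK (K'.mkQ (frobV x)) = K.mkQ x := by
  change Submodule.mapQ K' K GB7_l (GB7_le hK) (Submodule.Quotient.mk (frobV x)) = _
  rw [Submodule.mapQ_apply]
  change Submodule.Quotient.mk (frobV (frobV x)) = _
  rw [GB7_inv]
  rfl

/-- GB7. `frobV` maps `K` onto `K'`. (Semilinear version of GB2a; the induced map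
`VV ⧸ K ≃+ VV ⧸ K'` is semilinear, use `AThm.frob` and `AThm.congr`.) -/
theorem AK.of_frob {K K' : Submodule F4 VV} {C C' P P' : Set VV}
    (hK : ∀ k, k ∈ K ↔ frobV k ∈ K') (hC : LnK K' (frobV '' C) = LnK K' C')
    (hP : ∀ p' ∈ P', ∃ p ∈ P, ∃ s : F4, s ≠ 0 ∧ frobV p + s • p' ∈ K') (h : AK K' C' P') :
    AK K C P := by
  have h1 : AK K' (frobV '' C) (frobV '' P) := by
    refine AK.congr hC.symm ?_ h
    intro p' hp'
    obtain ⟨p, hp, s, hs, hm⟩ := hP p' hp'
    refine ⟨frobV p, ⟨p, hp, rfl⟩, s⁻¹, inv_ne_zero hs, ?_⟩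
    have h2 := K'.smul_mem s⁻¹ hm
    rw [smul_add, smul_smul, inv_mul_cancel₀ hs, one_smul, add_comm] at h2
    exact h2
  have h2 : AThm (GB7_s hK '' (K'.mkQ '' (frobV '' C))) (GB7_s hK '' (K'.mkQ '' (frobV '' P))) :=
    AThm.frob (GB7_s hK)
      (fun s x => map_smulₛₗ (Submodule.mapQ K' K GB7_l (GB7_le hK)) s x) h1
  have h3 : ∀ X : Set VV, GB7_s hK '' (K'.mkQ '' (frobV '' X)) = K.mkQ '' X := by
    intro X
    rw [Set.image_image, Set.image_image]
    exact Set.image_congr fun x _ => GB7_s_mk hK x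
  rw [h3, h3] at h2
  exact h2

end QG
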