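import Pool.Agent.Lib.QG.GB2

/-! MP_2e6874_co, part (A), row GC1. -/

set_option autoImplicit false

namespace QG
open Set Matroid Submodule

private theorem GC1_fix (g : ℕ × ℕ → VV) (x : VV)
    (h : ∀ p : ℕ × ℕ, x p ≠ 0 → g p = Finsupp.single p 1) :
    Finsupp.linearCombination F4 g x = x := by
  rw [Finsupp.linearCombination_apply]
  conv_rhs => rw [← Finsupp.sum_single x]
  refine Finsupp.sum_congr fun p hp => ?_
  rw [h p (Finsupp.mem_support_iff.1 hp), Finsupp.smul_single, smul_eq_mul, mul_one]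

private theorem GC1_e (g : ℕ × ℕ → VV) (k n : ℕ) :
    Finsupp.linearCombination F4 g (e k n) = g (k, n) := by
  rw [e, Finsupp.linearCombination_single, one_smul]

private noncomputable def GC1_g (m : ℕ → ℕ) (A B : ℕ → VV) (i j : ℕ) : ℕ × ℕ → VV := fun p =>
  if p.1 = i ∧ 1 ≤ p.2 ∧ p.2 < m i then
    (if p.2 ≤ j then msu (dec m i) A B i p.2 else msu (dec m i) A B i (p.2 - 1))
  else e p.1 p.2

private noncomputable def GC1_t (i j : ℕ) : ℕ × ℕ → VV := fun p =>
  if p.1 = i ∧ j < p.2 then e p.1 (p.2 + 1) else e p.1 p.2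

private noncomputable def GC1_P (m : ℕ → ℕ) (A B : ℕ → VV) (i j : ℕ) : VV →ₗ[F4] VV :=
  Finsupp.linearCombination F4 (GC1_g m A B i j)

private noncomputable def GC1_T (i j : ℕ) : VV →ₗ[F4] VV :=
  Finsupp.linearCombination F4 (GC1_t i j)

private theorem GC1_Pb {m : ℕ → ℕ} {A B : ℕ → VV} {i j : ℕ} {I : Finset ℕ} (hi : i ∈ I) {x : VV}
    (hx : x ∈ Base I) : GC1_P m A B i j x = x := by
  refine GC1_fix _ _ fun p hp => ?_
  unfold GC1_g
  rw [if_neg]
  · rfl
  · rintro ⟨h1, h2, -⟩
    apply hp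
    have := hx i hi p.2 h2
    rw [← h1] at this
    exact this

private theorem GC1_Tb {i j : ℕ} {I : Finset ℕ} (hi : i ∈ I) {x : VV}
    (hx : x ∈ Base I) : GC1_T i j x = x := by
  refine GC1_fix _ _ fun p hp => ?_
  unfold GC1_t
  rw [if_neg]
  · rfl
  · rintro ⟨h1, h2⟩
    apply hp
    have := hx i hi p.2 (by omega)
    rw [← h1] at this
    exact this

private theorem GC1_Pe {m : ℕ → ℕ} {A B : ℕ → VV} {i j k n : ℕ} (h : k ≠ i) :
    GC1_P m A B i j (e k n) = e k n := by
  unfold GC1_P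
  rw [GC1_e, GC1_g, if_neg]
  rintro ⟨h1, -⟩
  exact h h1

private theorem GC1_Te {i j k n : ℕ} (h : k ≠ i) : GC1_T i j (e k n) = e k n := by
  unfold GC1_T
  rw [GC1_e, GC1_t, if_neg]
  rintro ⟨h1, -⟩
  exact h h1

private theorem GC1_dec_ne {m : ℕ → ℕ} {i k : ℕ} (h : k ≠ i) : dec m i k = m k := by
  rw [dec, Function.update_of_ne h]

private theorem GC1_dec_i {m : ℕ → ℕ} {i : ℕ} : dec m i i = m i - 1 := by
  rw [dec, Function.update_self]

private theorem GC1_msu_ne {m : ℕ → ℕ} {A B : ℕ → VV} {i k : ℕ} (h : k ≠ i) (n : ℕ) :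
    msu (dec m i) A B k n = msu m A B k n := by
  rw [msu, msu, GC1_dec_ne h]

private theorem GC1_in {m : ℕ → ℕ} {A B : ℕ → VV} {i n : ℕ} (h1 : 0 < n) (h2 : n < m i) :
    msu m A B i n = e i n := by
  rw [msu, if_neg (by omega), if_neg (by omega)]

private theorem GC1_0 {m : ℕ → ℕ} {A B : ℕ → VV} {i : ℕ} : msu m A B i 0 = A i := by
  rw [msu, if_pos rfl]

private theorem GC1_m {m : ℕ → ℕ} {A B : ℕ → VV} {i : ℕ} (h : 0 < m i) :
    msu m A B i (m i) = B i := by
  rw [msu, if_neg (by omega), if_pos rfl]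

section
variable {K : Submodule F4 VV} {I : Finset ℕ} {m : ℕ → ℕ} {A B : ℕ → VV} {C0 A0 : Set VV}
  {i j : ℕ}

private theorem GC1_Pms (h : MSB K I m A B C0 A0) (hi : i ∈ I) (hm : 2 ≤ m i) (hj : j < m i)
    {n : ℕ} (hn : n ≤ m i) : GC1_P m A B i j (msu m A B i n) =
      if n ≤ j then msu (dec m i) A B i n else msu (dec m i) A B i (n - 1) := by
  rcases Nat.eq_zero_or_pos n with rfl | h0
  · rw [GC1_0, GC1_Pb hi (h.hA i hi), if_pos (Nat.zero_le _), GC1_0]
  · rcases Nat.lt_or_ge n (m i) with h1 | h1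
    · rw [GC1_in h0 h1]
      unfold GC1_P
      rw [GC1_e]
      simp only [GC1_g]
      rw [if_pos ⟨trivial, h0, h1⟩]
    · obtain rfl : n = m i := le_antisymm hn h1
      have h2 := GC1_m (m := dec m i) (A := A) (B := B) (i := i)
        (by rw [GC1_dec_i]; omega)
      rw [GC1_dec_i] at h2
      rw [GC1_m h0, GC1_Pb hi (h.hB i hi), if_neg (by omega), h2]

private theorem GC1_Tms (h : MSB K I m A B C0 A0) (hi : i ∈ I) (hm : 2 ≤ m i) (hj : j < m i)
    {n : ℕ} (hn : n ≤ m i - 1) : GC1_T i j (msu (dec m i) A B i n) =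
      if j < n ∨ n = m i - 1 then msu m A B i (n + 1) else msu m A B i n := by
  rcases Nat.eq_zero_or_pos n with rfl | h0
  · rw [GC1_0, GC1_Tb hi (h.hA i hi), if_neg (by omega), GC1_0]
  · rcases Nat.lt_or_ge n (m i - 1) with h1 | h1
    · rw [GC1_in h0 (by rw [GC1_dec_i]; exact h1)]
      unfold GC1_T
      rw [GC1_e]
      simp only [GC1_t, true_and]
      by_cases h2 : j < n
      · rw [if_pos h2, if_pos (Or.inl h2), GC1_in (by omega) (by omega)]
      · rw [if_neg h2, if_neg (by omega), GC1_in h0 (by omega)]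
    · obtain rfl : n = m i - 1 := le_antisymm hn h1
      have h2 := GC1_m (m := dec m i) (A := A) (B := B) (i := i)
        (by rw [GC1_dec_i]; omega)
      rw [GC1_dec_i] at h2
      have h3 : m i - 1 + 1 = m i := by omega
      rw [h2, GC1_Tb hi (h.hB i hi), if_pos (Or.inr rfl), h3, GC1_m (by omega)]

/-- the composite on vertices -/
private theorem GC1_TP (h : MSB K I m A B C0 A0) (hi : i ∈ I) (hm : 2 ≤ m i) (hj : j < m i)
    {n : ℕ} (hn : n ≤ m i) :
    msu m A B i n + GC1_T i j (GC1_P m A B i j (msu m A B i n)) ∈ span F4 {rim m A B i j} := by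
  rw [GC1_Pms h hi hm hj hn]
  by_cases h1 : n ≤ j
  · rw [if_pos h1, GC1_Tms h hi hm hj (by omega)]
    by_cases h2 : j < n ∨ n = m i - 1
    · have h3 : n = j := by omega
      rw [if_pos h2, h3]
      exact mem_span_singleton_self _
    · rw [if_neg h2, vadd_self]
      exact Submodule.zero_mem _
  · rw [if_neg h1, GC1_Tms h hi hm hj (by omega)]
    have h4 : n - 1 + 1 = n := by omega
    by_cases h2 : j < n - 1 ∨ n - 1 = m i - 1
    · rw [if_pos h2, h4, vadd_self]
      exact Submodule.zero_mem _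
    · rw [if_neg h2]
      have h3 : n = j + 1 := by omega
      rw [h3, Nat.add_sub_cancel, add_comm]
      exact mem_span_singleton_self _

private theorem GC1_Prim (h : MSB K I m A B C0 A0) (hi : i ∈ I) (hm : 2 ≤ m i) (hj : j < m i) :
    GC1_P m A B i j (rim m A B i j) = 0 := by
  rw [rim, map_add, GC1_Pms h hi hm hj (by omega), GC1_Pms h hi hm hj (by omega),
    if_pos le_rfl, if_neg (by omega), Nat.add_sub_cancel, vadd_self]

private theorem GC1_e_apply (k n n' : ℕ) : (e k n) (k, n') = if n = n' then (1 : F4) else 0 := by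
  simp only [e, Finsupp.single_apply, Prod.mk.injEq, true_and]

private theorem GC1_rim_notMem (h : MSB K I m A B C0 A0) (hi : i ∈ I) (hm : 2 ≤ m i)
    (hj : j < m i) : rim m A B i j ∉ K := by
  intro hK
  have hb := h.hK hK
  rcases Nat.eq_zero_or_pos j with rfl | h0
  · have h1 := hb i hi 1 le_rfl
    rw [rim, GC1_0, GC1_in (by omega) (by omega), Finsupp.add_apply, h.hA i hi i hi 1 le_rfl,
      GC1_e_apply, if_pos rfl, zero_add] at h1
    exact one_ne_zero h1
  · have h1 := hb i hi j h0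
    rw [rim, GC1_in h0 hj, Finsupp.add_apply, GC1_e_apply, if_pos rfl] at h1
    have h2 : (msu m A B i (j + 1)) (i, j) = 0 := by
      rcases Nat.lt_or_ge (j + 1) (m i) with h3 | h3
      · rw [GC1_in (by omega) h3, GC1_e_apply, if_neg (by omega)]
      · have h4 : j + 1 = m i := by omega
        rw [h4, GC1_m (by omega)]
        exact h.hB i hi i hi j h0
    rw [h2, add_zero] at h1
    exact one_ne_zero h1

private theorem GC1_Pne (h : MSB K I m A B C0 A0) (hi : i ∈ I) {k n : ℕ} (hk : k ∈ I)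
    (hki : k ≠ i) : GC1_P m A B i j (msu m A B k n) = msu m A B k n := by
  rw [msu]
  split_ifs
  · exact GC1_Pb hi (h.hA k hk)
  · exact GC1_Pb hi (h.hB k hk)
  · exact GC1_Pe hki

private theorem GC1_Tne (h : MSB K I m A B C0 A0) (hi : i ∈ I) {k n : ℕ} (hk : k ∈ I)
    (hki : k ≠ i) : GC1_T i j (msu m A B k n) = msu m A B k n := by
  rw [msu]
  split_ifs
  · exact GC1_Tb hi (h.hA k hk)
  · exact GC1_Tb hi (h.hB k hk)
  · exact GC1_Te hki

private theorem GC1_image (h : MSB K I m A B C0 A0) (hi : i ∈ I) (hm : 2 ≤ m i) (hj : j < m i) :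
    GC1_P m A B i j '' MSC I m A B C0 =
      MSC I (dec m i) A B (endC m A B C0 i j) ∪ {0} := by
  apply Set.Subset.antisymm
  · rintro _ ⟨x, (hx | ⟨k, hk, n, h0, hn, rfl⟩) | ⟨k, hk, n, hn, rfl⟩, rfl⟩
    · rw [GC1_Pb hi (h.hC0 hx)]
      exact Or.inl (Or.inl (Or.inl (Or.inl (Or.inl hx))))
    · by_cases hki : k = i
      · subst hki
        have h1 := GC1_Pms h hk hm hj hn.le
        rw [GC1_in h0 hn] at h1
        rw [h1]
        by_cases h2 : n ≤ j
        · rw [if_pos h2]
          rcases Nat.lt_or_ge n (m k - 1) with h3 | h3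
          · refine Or.inl (Or.inl (Or.inr ⟨k, hk, n, h0, ?_, ?_⟩))
            · rw [GC1_dec_i]; exact h3
            · rw [GC1_in h0 (by rw [GC1_dec_i]; exact h3)]
          · have h4 : n = dec m k k := by rw [GC1_dec_i]; omega
            have h5 := GC1_m (m := dec m k) (A := A) (B := B) (i := k)
              (by rw [GC1_dec_i]; omega)
            rw [h4, h5]
            exact Or.inl (Or.inl (Or.inl (Or.inr ⟨by omega, rfl⟩)))
        · rw [if_neg h2]
          rcases Nat.eq_zero_or_pos (n - 1) with h3 | h3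
          · rw [h3, GC1_0]
            exact Or.inl (Or.inl (Or.inl (Or.inl (Or.inr ⟨by omega, rfl⟩))))
          · refine Or.inl (Or.inl (Or.inr ⟨k, hk, n - 1, h3, ?_, ?_⟩))
            · rw [GC1_dec_i]; omega
            · rw [GC1_in h3 (by rw [GC1_dec_i]; omega)]
      · rw [GC1_Pe hki]
        refine Or.inl (Or.inl (Or.inr ⟨k, hk, n, h0, ?_, rfl⟩))
        rw [GC1_dec_ne hki]; exact hn
    · by_cases hki : k = i
      · subst hki
        rw [map_add, GC1_Pms h hk hm hj (by omega), GC1_Pms h hk hm hj (by omega)]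
        rcases Nat.lt_trichotomy n j with h1 | h1 | h1
        · rw [if_pos h1.le, if_pos (by omega)]
          refine Or.inl (Or.inr ⟨k, hk, n, ?_, rfl⟩)
          rw [GC1_dec_i]; omega
        · rw [if_pos h1.le, if_neg (by omega), Nat.add_sub_cancel, vadd_self]
          exact Or.inr rfl
        · rw [if_neg (by omega), if_neg (by omega)]
          refine Or.inl (Or.inr ⟨k, hk, n - 1, ?_, ?_⟩)
          · rw [GC1_dec_i]; omega
          · have h2 : n - 1 + 1 = n := by omega
            rw [Nat.add_sub_cancel, h2]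
      · rw [map_add, GC1_Pne h hi hk hki, GC1_Pne h hi hk hki]
        refine Or.inl (Or.inr ⟨k, hk, n, ?_, ?_⟩)
        · rw [GC1_dec_ne hki]; exact hn
        · rw [GC1_msu_ne hki, GC1_msu_ne hki]
  · rintro x (((((hx | ⟨hj0, rfl⟩) | ⟨hjm, rfl⟩) | ⟨k, hk, n, h0, hn, rfl⟩) |
      ⟨k, hk, n, hn, rfl⟩) | rfl)
    · exact ⟨x, Or.inl (Or.inl hx), GC1_Pb hi (h.hC0 hx)⟩
    · refine ⟨e i 1, Or.inl (Or.inr ⟨i, hi, 1, by omega, by omega, rfl⟩), ?_⟩
      have h1 := GC1_Pms h hi hm hj (n := 1) (by omega)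
      rw [GC1_in (by omega) (by omega), if_neg (by omega), Nat.sub_self, GC1_0] at h1
      exact h1
    · refine ⟨e i j, Or.inl (Or.inr ⟨i, hi, j, by omega, hj, rfl⟩), ?_⟩
      have h1 := GC1_Pms h hi hm hj (n := j) hj.le
      have h4 : j = dec m i i := by rw [GC1_dec_i]; omega
      have h5 := GC1_m (m := dec m i) (A := A) (B := B) (i := i)
        (by rw [GC1_dec_i]; omega)
      rw [← h4] at h5
      rw [GC1_in (by omega) hj, if_pos le_rfl, h5] at h1
      exact h1
    · by_cases hki : k = i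
      · subst hki
        rw [GC1_dec_i] at hn
        by_cases h2 : n ≤ j
        · refine ⟨e k n, Or.inl (Or.inr ⟨k, hk, n, h0, by omega, rfl⟩), ?_⟩
          have h1 := GC1_Pms h hk hm hj (n := n) (by omega)
          rw [GC1_in h0 (by omega), if_pos h2, GC1_in h0 (by rw [GC1_dec_i]; exact hn)] at h1
          exact h1
        · refine ⟨e k (n + 1), Or.inl (Or.inr ⟨k, hk, n + 1, by omega, by omega, rfl⟩), ?_⟩
          have h1 := GC1_Pms h hk hm hj (n := n + 1) (by omega)
          rw [GC1_in (by omega) (by omega), if_neg (by omega), Nat.add_sub_cancel,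
            GC1_in h0 (by rw [GC1_dec_i]; exact hn)] at h1
          exact h1
      · rw [GC1_dec_ne hki] at hn
        exact ⟨e k n, Or.inl (Or.inr ⟨k, hk, n, h0, hn, rfl⟩), GC1_Pe hki⟩
    · by_cases hki : k = i
      · subst hki
        rw [GC1_dec_i] at hn
        by_cases h2 : n < j
        · refine ⟨msu m A B k n + msu m A B k (n + 1), Or.inr ⟨k, hk, n, by omega, rfl⟩, ?_⟩
          rw [map_add, GC1_Pms h hk hm hj (by omega), GC1_Pms h hk hm hj (by omega),
            if_pos h2.le, if_pos (by omega)]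
        · refine ⟨msu m A B k (n + 1) + msu m A B k (n + 1 + 1),
            Or.inr ⟨k, hk, n + 1, by omega, rfl⟩, ?_⟩
          rw [map_add, GC1_Pms h hk hm hj (by omega), GC1_Pms h hk hm hj (by omega),
            if_neg (by omega), if_neg (by omega), Nat.add_sub_cancel, Nat.add_sub_cancel]
      · rw [GC1_dec_ne hki] at hn
        refine ⟨msu m A B k n + msu m A B k (n + 1), Or.inr ⟨k, hk, n, hn, rfl⟩, ?_⟩
        rw [map_add, GC1_Pne h hi hk hki, GC1_Pne h hi hk hki, GC1_msu_ne hki, GC1_msu_ne hki]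
    · exact ⟨rim m A B i j, Or.inr ⟨i, hi, j, hj, rfl⟩, GC1_Prim h hi hm hj⟩

/-- the composite on the points and the additional vectors -/
private theorem GC1_comp (h : MSB K I m A B C0 A0) (hi : i ∈ I) (hm : 2 ≤ m i) (hj : j < m i)
    {z : VV} (hz : z ∈ MSC I m A B C0 ∪ MSP I m A B C0 A0) :
    z + GC1_T i j (GC1_P m A B i j z) ∈ K ⊔ span F4 {rim m A B i j} := by
  apply le_sup_right (a := K)
  have hbase : ∀ x ∈ Base I, x + GC1_T i j (GC1_P m A B i j x) ∈ span F4 {rim m A B i j} := by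
    intro x hx
    rw [GC1_Pb hi hx, GC1_Tb hi hx, vadd_self]
    exact Submodule.zero_mem _
  have hC : ∀ x ∈ MSC I m A B C0,
      x + GC1_T i j (GC1_P m A B i j x) ∈ span F4 {rim m A B i j} := by
    rintro x ((hx | ⟨k, hk, n, h0, hn, rfl⟩) | ⟨k, hk, n, hn, rfl⟩)
    · exact hbase x (h.hC0 hx)
    · by_cases hki : k = i
      · subst hki
        have := GC1_TP h hk hm hj hn.le
        rwa [GC1_in h0 hn] at this
      · rw [GC1_Pe hki, GC1_Te hki, vadd_self]
        exact Submodule.zero_mem _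
    · by_cases hki : k = i
      · subst hki
        rw [map_add, map_add, add_add_add_comm]
        exact Submodule.add_mem _ (GC1_TP h hk hm hj (by omega)) (GC1_TP h hk hm hj (by omega))
      · rw [map_add, GC1_Pne h hi hk hki, GC1_Pne h hi hk hki, map_add, GC1_Tne h hi hk hki,
          GC1_Tne h hi hk hki, vadd_self]
        exact Submodule.zero_mem _
  rcases hz with hz | ((hz | hz) | hz)
  · exact hC z hz
  · exact hC z hz
  · exact hbase z (h.hA0 hz)
  · rw [Set.mem_singleton_iff] at hz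
    subst hz
    rw [map_zero, map_zero, add_zero]
    exact Submodule.zero_mem _

end

/-- GC1. CONTRACTION OF A RIM. Use `CK.of_contract` with `K' = K`,
`Φ (e i n) = msu (dec m i) A B i n` for `1 ≤ n ≤ j`, `= msu (dec m i) A B i (n-1)` for `j < n < m i`,
`Φ (e k n) = e k n` otherwise (a linear map on `VV = Finsupp` is given by the images of the `e k n`:
`Finsupp.lift` / `Finsupp.linearCombination`). Then `Φ (msu m A B i n) = msu (dec m i) A B i n` for
`n ≤ j` and `= msu (dec m i) A B i (n-1)` for `j < n ≤ m i`, so `Φ (rim j) = 0` (char 2).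
`Θ (e i n) = e i n` for `n ≤ j`, `= e i (n+1)` for `j < n`, `Θ (e k n) = e k n` otherwise. Vectors of the
base are fixed by both (no coordinates `(i, n)`, `n ≥ 1`). Check `z + Θ (Φ z) ∈ ⟨rim j⟩` for the
points `z` (vertices: `0` or rim `j`). The image of the point set is the point set with
`dec m i` and base points `endC`: vertex `n = j + 1` (if `j + 1 < m i`) and vertex `n = j` (if
`0 < j`) go to vertex `j` of the new strand, which is `A i` for `j = 0` and `B i` for `j + 1 = m i`.
`MSP` maps onto `MSP` in the same way. (`rim j ∉ K` because it has a nonzero coordinate `(i, n)`,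
`1 ≤ n`.) -/
theorem GC1 {K : Submodule F4 VV} {I : Finset ℕ} {m : ℕ → ℕ} {A B : ℕ → VV} {C0 A0 : Set VV}
    (h : MSB K I m A B C0 A0) {i j : ℕ} (hi : i ∈ I) (hm : 2 ≤ m i) (hj : j < m i)
    (hAK : AK K (MSC I (dec m i) A B (endC m A B C0 i j)) (MSP I (dec m i) A B (endC m A B C0 i j) A0)) :
    CK K (MSC I m A B C0) (rim m A B i j) (MSP I m A B C0 A0) := by
  have him := GC1_image h hi hm hj
  refine CK.of_contract (GC1_P m A B i j) (GC1_T i j) (GC1_rim_notMem h hi hm hj) ?_ ?_ ?_
    (fun z hz => GC1_comp h hi hm hj hz) ?_ ?_ hAK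
  · rw [GC1_Prim h hi hm hj]
    exact Submodule.zero_mem _
  · intro k hk
    rw [GC1_Pb hi (h.hK hk)]
    exact hk
  · intro k hk
    rw [GC1_Tb hi (h.hK hk)]
    exact Submodule.mem_sup_left hk
  · rw [him]
    ext y
    constructor
    · rintro ⟨hy, c, hc | hc, s, hs⟩
      · exact ⟨hy, c, hc, s, hs⟩
      · rw [Set.mem_singleton_iff] at hc
        rw [hc, smul_zero, add_zero] at hs
        exact absurd hs hy
    · rintro ⟨hy, c, hc, s, hs⟩
      exact ⟨hy, c, Or.inl hc, s, hs⟩
  · rintro p ((hp | hp) | hp)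
    · have : p ∈ GC1_P m A B i j '' MSC I m A B C0 := by rw [him]; exact Or.inl hp
      obtain ⟨q, hq, rfl⟩ := this
      refine ⟨q, Or.inl (Or.inl hq), 1, one_ne_zero, ?_⟩
      rw [one_smul, vadd_self]
      exact Submodule.zero_mem _
    · refine ⟨p, Or.inl (Or.inr hp), 1, one_ne_zero, ?_⟩
      rw [GC1_Pb hi (h.hA0 hp), one_smul, vadd_self]
      exact Submodule.zero_mem _
    · rw [Set.mem_singleton_iff] at hp
      subst hp
      refine ⟨0, Or.inr rfl, 1, one_ne_zero, ?_⟩
      rw [map_zero, one_smul, add_zero]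
      exact Submodule.zero_mem _

end QG
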