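import Pool.Agent.Lib.QG.GC2b

/-! MP_2e6874_co, part (A), row GC2c. -/

set_option autoImplicit false

namespace QG
open Set Matroid Submodule

variable {K : Submodule F4 VV} {a b w1 w2 : VV} {D0 A0 : Set VV} {φ1 φ2 : VV →ₗ[F4] F4}

private theorem GC2c_sup (K : Submodule F4 VV) (y y' x : VV) :
    span F4 {y, y', x} ⊔ K = (span F4 {y, y'} ⊔ K) ⊔ span F4 {x} := by
  have : ({y, y', x} : Set VV) = {y, y'} ∪ {x} := by
    ext z
    simp only [mem_insert_iff, mem_singleton_iff, mem_union]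
    tauto
  rw [this, span_union, sup_assoc, sup_comm (span F4 {x}) K, ← sup_assoc]

private theorem GC2c_sup' (K : Submodule F4 VV) (y y' x : VV) :
    span F4 ({y, y'} ∪ {x}) ⊔ K = (span F4 {y, y'} ⊔ K) ⊔ span F4 {x} := by
  rw [span_union, sup_assoc, sup_comm (span F4 {x}) K, ← sup_assoc]

private theorem GC2c_exch (S : Submodule F4 VV) {x x' : VV} (h : x' ∈ S ⊔ span F4 {x})
    (h' : x' ∈ S → x ∈ S) : S ⊔ span F4 {x} = S ⊔ span F4 {x'} := by
  apply le_antisymm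
  · refine sup_le le_sup_left ?_
    rw [span_le, singleton_subset_iff]
    obtain ⟨s, hs, z, hz, hsz⟩ := mem_sup.1 h
    obtain ⟨r, rfl⟩ := mem_span_singleton.1 hz
    by_cases hr : r = 0
    · subst hr
      rw [zero_smul, add_zero] at hsz
      subst hsz
      exact (le_sup_left : S ≤ _) (h' hs)
    · have : x = r⁻¹ • s + r⁻¹ • x' := by
        rw [← hsz, smul_add, smul_smul, inv_mul_cancel₀ hr, one_smul, ← add_assoc, vadd_self,
          zero_add]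
      rw [SetLike.mem_coe, this]
      exact add_mem (mem_sup_left (S.smul_mem _ hs))
        (mem_sup_right (smul_mem _ _ (mem_span_singleton_self _)))
  · refine sup_le le_sup_left ?_
    rw [span_le, singleton_subset_iff]
    exact h

private theorem GC2c_fun (h : Piece K a b w1 w2 D0 A0 φ1 φ2) {y y' x : VV} {D : Set VV}
    (hD : D ⊆ D0) (hx : x ∈ A0)
    (hind : ∀ α β : F4, α * φ1 y + β * φ1 y' = 0 → α * φ2 y + β * φ2 y' = 0 → α = 0 ∧ β = 0)
    (hm : x ∈ span F4 ({y, y'} ∪ D) ⊔ K) : x ∈ span F4 D ⊔ K := by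
  obtain ⟨u, hu, k, hk, huk⟩ := mem_sup.1 hm
  rw [span_union] at hu
  obtain ⟨v, hv, d, hd, hvd⟩ := mem_sup.1 hu
  obtain ⟨α, β, hαβ⟩ := mem_span_pair.1 hv
  have hd0 : φ1 d = 0 ∧ φ2 d = 0 := by
    have l1 : span F4 D ≤ LinearMap.ker φ1 := span_le.2 fun z hz => (h.hD z (Or.inl (hD hz))).1
    have l2 : span F4 D ≤ LinearMap.ker φ2 := span_le.2 fun z hz => (h.hD z (Or.inl (hD hz))).2
    exact ⟨l1 hd, l2 hd⟩
  have hx0 := h.hD x (Or.inr hx)
  have hk0 := h.hK k hk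
  rw [← huk, ← hvd, ← hαβ] at hx0
  simp only [map_add, map_smul, smul_eq_mul, hd0.1, hd0.2, hk0.1, hk0.2, add_zero] at hx0
  obtain ⟨rfl, rfl⟩ := hind α β hx0.1 hx0.2
  rw [zero_smul, zero_smul, add_zero] at hαβ
  rw [← huk, ← hvd, ← hαβ, zero_add]
  exact add_mem (mem_sup_left hd) (mem_sup_right hk)

private theorem GC2c_key (h : Piece K a b w1 w2 D0 A0 φ1 φ2)
    (hsep : ∀ x ∈ A0, ∀ x' ∈ A0, (∀ D, D ⊆ D0 → (x ∈ span F4 D ⊔ K ↔ x' ∈ span F4 D ⊔ K)) →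
      span F4 {x} ⊔ K = span F4 {x'} ⊔ K) {y y' p p' : VV}
    (hp : p ∈ pieceC a b w1 w2 D0 ∪ A0 ∪ {0}) (hp' : p' ∈ pieceC a b w1 w2 D0 ∪ A0 ∪ {0})
    (hind : ∀ α β : F4, α * φ1 y + β * φ1 y' = 0 → α * φ2 y + β * φ2 y' = 0 → α = 0 ∧ β = 0)
    (hc : ∀ D, D ⊆ pieceC a b w1 w2 D0 →
      (p ∈ span F4 ({y, y'} ∪ D) ⊔ K ↔ p' ∈ span F4 ({y, y'} ∪ D) ⊔ K)) :
    span F4 {y, y', p} ⊔ K = span F4 {y, y', p'} ⊔ K := by
  have hemp := hc ∅ (empty_subset _)
  rw [union_empty] at hemp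
  have aux : ∀ {q q' : VV}, (q ∈ pieceC a b w1 w2 D0 ∨ q = 0) →
      (q ∈ span F4 {y, y'} ⊔ K ↔ q' ∈ span F4 {y, y'} ⊔ K) →
      (∀ D, D ⊆ pieceC a b w1 w2 D0 →
      (q ∈ span F4 ({y, y'} ∪ D) ⊔ K ↔ q' ∈ span F4 ({y, y'} ∪ D) ⊔ K)) →
      span F4 {y, y', q} ⊔ K = span F4 {y, y', q'} ⊔ K := by
    intro q q' hq he hcc
    rw [GC2c_sup, GC2c_sup]
    refine GC2c_exch _ ?_ he.2
    rcases hq with hq | rfl
    · have := hcc {q} (singleton_subset_iff.2 hq)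
      rw [GC2c_sup'] at this
      exact this.1 (mem_sup_right (mem_span_singleton_self _))
    · exact mem_sup_left (he.1 (zero_mem _))
  by_cases h1 : p ∈ pieceC a b w1 w2 D0 ∨ p = 0
  · exact aux h1 hemp hc
  · by_cases h2 : p' ∈ pieceC a b w1 w2 D0 ∨ p' = 0
    · exact (aux h2 hemp.symm fun D hD => (hc D hD).symm).symm
    · have hpA : p ∈ A0 := by
        rcases hp with (hp | hp) | hp
        · exact absurd (Or.inl hp) h1
        · exact hp
        · exact absurd (Or.inr hp) h1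
      have hpA' : p' ∈ A0 := by
        rcases hp' with (hp' | hp') | hp'
        · exact absurd (Or.inl hp') h2
        · exact hp'
        · exact absurd (Or.inr hp') h2
      have hs := hsep p hpA p' hpA' (by
        intro D hD
        have hDC : D ⊆ pieceC a b w1 w2 D0 := fun z hz => Or.inl (hD hz)
        have hmono : span F4 D ⊔ K ≤ span F4 ({y, y'} ∪ D) ⊔ K :=
          sup_le_sup_right (span_mono subset_union_right) K
        constructor
        · intro hm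
          exact GC2c_fun h hD hpA' hind ((hc D hDC).1 (hmono hm))
        · intro hm
          exact GC2c_fun h hD hpA hind ((hc D hDC).2 (hmono hm)))
      rw [GC2c_sup, GC2c_sup, sup_assoc, sup_assoc, sup_comm K, sup_comm K, hs]

/-- GC2c. `SHK` for the piece. From the hypothesis on all `D ⊆ C`: for `y ≠ y'` in `R` and
`p = p y`, `p' = p y'` in `P`: `⟨y, y', p⟩ + K = ⟨y, y', p'⟩ + K`. (If `p` or `p'` is a point of `C` or
`0`, use `D = {p}` resp. `D = {p'}` and `D = ∅`. If both are in `A0`: for `D ⊆ D0`, `p ∈ ⟨y, y', D⟩ + K`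
iff `p ∈ ⟨D⟩ + K` (apply `φ1`, `φ2`; for `y = a + w1`, `y' = w2 + b`, etc.), so `hsep` applies.) Then
GC2b. -/
theorem GC2c (h : Piece K a b w1 w2 D0 A0 φ1 φ2)
    (hsep : ∀ x ∈ A0, ∀ x' ∈ A0, (∀ D, D ⊆ D0 → (x ∈ span F4 D ⊔ K ↔ x' ∈ span F4 D ⊔ K)) →
      span F4 {x} ⊔ K = span F4 {x'} ⊔ K) :
    SHK K (pieceC a b w1 w2 D0) (pieceC a b w1 w2 D0 ∪ A0 ∪ {0}) {a + w1, w1 + w2, w2 + b}
      (fun _ => pieceC a b w1 w2 D0 ∪ A0 ∪ {0}) := by
  intro p hpQ hpn hc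
  have m1 : a + w1 ∈ ({a + w1, w1 + w2, w2 + b} : Set VV) := by simp
  have m2 : w1 + w2 ∈ ({a + w1, w1 + w2, w2 + b} : Set VV) := by simp
  have m3 : w2 + b ∈ ({a + w1, w1 + w2, w2 + b} : Set VV) := by simp
  have v1 : φ1 (a + w1) = 1 ∧ φ2 (a + w1) = 0 := by
    rw [map_add, map_add, h.ha.1, h.ha.2, h.h11, h.h21]
    simp
  have v2 : φ1 (w1 + w2) = 1 ∧ φ2 (w1 + w2) = 1 := by
    rw [map_add, map_add, h.h11, h.h12, h.h21, h.h22]
    simp
  have v3 : φ1 (w2 + b) = 0 ∧ φ2 (w2 + b) = 1 := by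
    rw [map_add, map_add, h.h12, h.h22, h.hb.1, h.hb.2]
    simp
  obtain ⟨q, hq, q1, q2, q3⟩ := GC2b h (p (a + w1)) (p (w1 + w2)) (p (w2 + b))
    (hpQ _ m1) (hpQ _ m2) (hpQ _ m3) (hpn _ m1) (hpn _ m2) (hpn _ m3)
    (GC2c_key h hsep (hpQ _ m1) (hpQ _ m2) (by
      rw [v1.1, v1.2, v2.1, v2.2]
      intro α β g1 g2
      have : β = 0 := by simpa using g2
      subst this
      simpa using g1) (hc _ m1 _ m2))
    (GC2c_key h hsep (hpQ _ m1) (hpQ _ m3) (by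
      rw [v1.1, v1.2, v3.1, v3.2]
      intro α β g1 g2
      exact ⟨by simpa using g1, by simpa using g2⟩) (hc _ m1 _ m3))
    (GC2c_key h hsep (hpQ _ m2) (hpQ _ m3) (by
      rw [v2.1, v2.2, v3.1, v3.2]
      intro α β g1 g2
      have : α = 0 := by simpa using g1
      subst this
      simpa using g2) (hc _ m2 _ m3))
  refine ⟨q, hq, ?_⟩
  rintro y (rfl | rfl | rfl)
  · exact q1
  · exact q2
  · exact q3

end QG
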