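import Pool.Agent.Lib.QG.GC2a
import Pool.Agent.Lib.QG.GC2c
import Pool.Agent.Lib.QG.GB3

/-! MP_2e6874_co, part (A), row GC2. -/

set_option autoImplicit false

namespace QG
open Set Matroid Submodule

variable {K : Submodule F4 VV} {a b w1 w2 : VV} {D0 A0 : Set VV} {φ1 φ2 : VV →ₗ[F4] F4}

/-- GC2. A-theorem for a piece of a strand (`stepK`, GC2a, GC2c). -/
theorem GC2 (h : Piece K a b w1 w2 D0 A0 φ1 φ2)
    (hsp : ∀ x ∈ A0, x ∈ span F4 (pieceC a b w1 w2 D0) ⊔ K)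
    (hsep : ∀ x ∈ A0, ∀ x' ∈ A0, (∀ D, D ⊆ D0 → (x ∈ span F4 D ⊔ K ↔ x' ∈ span F4 D ⊔ K)) →
      span F4 {x} ⊔ K = span F4 {x'} ⊔ K)
    (c1 : CK K (pieceC a b w1 w2 D0) (a + w1) (pieceC a b w1 w2 D0 ∪ A0 ∪ {0}))
    (c2 : CK K (pieceC a b w1 w2 D0) (w1 + w2) (pieceC a b w1 w2 D0 ∪ A0 ∪ {0}))
    (c3 : CK K (pieceC a b w1 w2 D0) (w2 + b) (pieceC a b w1 w2 D0 ∪ A0 ∪ {0})) :
    AK K (pieceC a b w1 w2 D0) (pieceC a b w1 w2 D0 ∪ A0 ∪ {0}) := by
  have f1 : ∀ x ∈ K, φ1 x = 0 := fun x hx => (h.hK x hx).1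
  have f2 : ∀ x ∈ K, φ2 x = 0 := fun x hx => (h.hK x hx).2
  have v1 : φ1 (a + w1) = 1 ∧ φ2 (a + w1) = 0 := by
    rw [map_add, map_add, h.ha.1, h.ha.2, h.h11, h.h21]
    decide
  have v2 : φ1 (w1 + w2) = 1 ∧ φ2 (w1 + w2) = 1 := by
    rw [map_add, map_add, h.h11, h.h12, h.h21, h.h22]
    decide
  have v3 : φ1 (w2 + b) = 0 ∧ φ2 (w2 + b) = 1 := by
    rw [map_add, map_add, h.hb.1, h.hb.2, h.h12, h.h22]
    decide
  refine stepK (R := {a + w1, w1 + w2, w2 + b})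
    (Q := fun _ => pieceC a b w1 w2 D0 ∪ A0 ∪ {0}) ⟨a + w1, Or.inl rfl⟩ ?_ ?_ ?_ ?_ ?_ ?_ ?_
    (GC2a h) (GC2c h hsep)
  · rintro y (rfl | rfl | rfl)
    · exact Or.inr (Or.inr (Or.inr (Or.inl rfl)))
    · exact Or.inr (Or.inr (Or.inr (Or.inr (Or.inl rfl))))
    · exact Or.inr (Or.inr (Or.inr (Or.inr (Or.inr rfl))))
  · have key1 : ∀ y y' : VV, y + y' ∈ K → φ1 y = φ1 y' := by
      intro y y' hy
      have h2 := f1 _ hy
      rw [map_add] at h2
      exact vadd_eq_zero.1 h2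
    have key2 : ∀ y y' : VV, y + y' ∈ K → φ2 y = φ2 y' := by
      intro y y' hy
      have h2 := f2 _ hy
      rw [map_add] at h2
      exact vadd_eq_zero.1 h2
    have e01 : (1 : F4) ≠ 0 := by decide
    rintro y (rfl | rfl | rfl) y' (rfl | rfl | rfl) hy
    · rfl
    · have h2 := key2 _ _ hy
      rw [v1.2, v2.2] at h2
      exact absurd h2.symm e01
    · have h2 := key1 _ _ hy
      rw [v1.1, v3.1] at h2
      exact absurd h2 e01
    · have h2 := key2 _ _ hy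
      rw [v1.2, v2.2] at h2
      exact absurd h2 e01
    · rfl
    · have h2 := key1 _ _ hy
      rw [v2.1, v3.1] at h2
      exact absurd h2 e01
    · have h2 := key1 _ _ hy
      rw [v1.1, v3.1] at h2
      exact absurd h2.symm e01
    · have h2 := key1 _ _ hy
      rw [v2.1, v3.1] at h2
      exact absurd h2.symm e01
    · rfl
  · have e01 : (1 : F4) ≠ 0 := by decide
    rintro y (rfl | rfl | rfl) hy
    · exact e01 (v1.1.symm.trans (f1 _ hy))
    · exact e01 (v2.1.symm.trans (f1 _ hy))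
    · exact e01 (v3.2.symm.trans (f2 _ hy))
  · rintro y (rfl | rfl | rfl)
    · exact c1
    · exact c2
    · exact c3
  · rintro y _ p ((hp | hp) | hp)
    · exact Submodule.mem_sup_left (subset_span hp)
    · exact hsp p hp
    · rw [Set.mem_singleton_iff] at hp
      rw [hp]
      exact zero_mem _
  · exact fun x hx => Or.inl (Or.inl hx)
  · exact Or.inr rfl

end QG
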