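import Pool.Agent.Lib.QG.GDefs

/-! MP_2e6874_co, part (A), row GC2a. -/

set_option autoImplicit false

namespace QG
open Set Matroid Submodule

variable {K : Submodule F4 VV} {a b w1 w2 : VV} {D0 A0 : Set VV} {φ1 φ2 : VV →ₗ[F4] F4}

/-- GC2a. `R = {a + w1, w1 + w2, w2 + b}`: if `φ` is nonzero on `R`, then `φ w1 ≠ 0` or `φ w2 ≠ 0`
(as `φ (w1 + w2) ≠ 0`). If `φ w1 ≠ 0` take `ψ = φ1`: the points with `φ1 ≠ 0` are `w1`, `a + w1`,
`w1 + w2`, none in the kernel of `φ`; and `c₁ = w2 + b`, `c₂ = w1`: `φ c₁ ψ c₂ = φ c₁ ≠ 0 = φ c₂ ψ c₁`.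
If `φ w2 ≠ 0` take `ψ = φ2`, `c₁ = a + w1`, `c₂ = w2`. -/
theorem GC2a (h : Piece K a b w1 w2 D0 A0 φ1 φ2) :
    CocK K (pieceC a b w1 w2 D0) {a + w1, w1 + w2, w2 + b} := by
  intro φ hK hR
  have r1 : φ (a + w1) ≠ 0 := hR _ (by simp)
  have r2 : φ (w1 + w2) ≠ 0 := hR _ (by simp)
  have r3 : φ (w2 + b) ≠ 0 := hR _ (by simp)
  have mw1 : w1 ∈ pieceC a b w1 w2 D0 := Or.inr (by simp)
  have mw2 : w2 ∈ pieceC a b w1 w2 D0 := Or.inr (by simp)
  have ma : a + w1 ∈ pieceC a b w1 w2 D0 := Or.inr (by simp)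
  have mb : w2 + b ∈ pieceC a b w1 w2 D0 := Or.inr (by simp)
  by_cases h1 : φ w1 = 0
  · have h2 : φ w2 ≠ 0 := by
      intro h2
      rw [map_add, h1, h2, add_zero] at r2
      exact r2 rfl
    refine ⟨φ2, fun k hk => (h.hK k hk).2, ?_, a + w1, ma, w2, mw2, ?_⟩
    · rintro c (hc | hc) h0
      · exact (h.hD c (Or.inl hc)).2
      · simp only [mem_insert_iff, mem_singleton_iff] at hc
        rcases hc with rfl | rfl | rfl | rfl | rfl
        · exact h.h21
        · exact absurd h0 h2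
        · rw [map_add, h.ha.2, h.h21, add_zero]
        · exact absurd h0 r2
        · exact absurd h0 r3
    · rw [h.h22, map_add φ2, h.ha.2, h.h21, add_zero, mul_one, mul_zero]
      exact r1
  · refine ⟨φ1, fun k hk => (h.hK k hk).1, ?_, w2 + b, mb, w1, mw1, ?_⟩
    · rintro c (hc | hc) h0
      · exact (h.hD c (Or.inl hc)).1
      · simp only [mem_insert_iff, mem_singleton_iff] at hc
        rcases hc with rfl | rfl | rfl | rfl | rfl
        · exact absurd h0 h1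
        · exact h.h12
        · exact absurd h0 r1
        · exact absurd h0 r2
        · rw [map_add, h.hb.1, h.h12, add_zero]
    · rw [h.h11, map_add φ1, h.hb.1, h.h12, add_zero, mul_one, mul_zero]
      exact r3

end QG
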