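import Pool.Agent.Lib.QG.GDefs

/-! MP_2e6874_co, part (A), row GC2b. -/

set_option autoImplicit false

namespace QG
open Set Matroid Submodule

variable {K : Submodule F4 VV} {a b w1 w2 : VV} {D0 A0 : Set VV} {φ1 φ2 : VV →ₗ[F4] F4}

private theorem gc_mem {x z : VV} {U : Submodule F4 VV} (hz : z ∈ U) (h : x + z ∈ K) :
    x ∈ U ⊔ K := by
  have e : x = z + (x + z) := by
    rw [add_comm x z, ← add_assoc, vadd_self, zero_add]
  rw [e]
  exact Submodule.add_mem_sup hz h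

private theorem gc_mem3 {x y y' p : VV} (h : x ∈ span F4 {y, y', p} ⊔ K) :
    ∃ α β γ : F4, x + α • y + β • y' + γ • p ∈ K := by
  obtain ⟨u, hu, k, hk, rfl⟩ := Submodule.mem_sup.1 h
  obtain ⟨α, u1, hu1, rfl⟩ := Submodule.mem_span_insert.1 hu
  obtain ⟨β, u2, hu2, rfl⟩ := Submodule.mem_span_insert.1 hu1
  obtain ⟨γ, rfl⟩ := Submodule.mem_span_singleton.1 hu2
  refine ⟨α, β, γ, ?_⟩
  have e : α • y + (β • y' + γ • p) + k + α • y + β • y' + γ • p =
      (α • y + α • y) + (β • y' + β • y') + (γ • p + γ • p) + k := by abel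
  rw [e]
  simp only [vadd_self, zero_add]
  exact hk

private theorem gc_eq {q y p : VV} {α β : F4} (hβ : β ≠ 0) (h : q + α • y + β • p ∈ K) :
    span F4 {y, q} ⊔ K = span F4 {y, p} ⊔ K := by
  have hy : ∀ z : VV, y ∈ span F4 {y, z} := fun z => Submodule.subset_span (Or.inl rfl)
  have hz : ∀ z : VV, z ∈ span F4 {y, z} := fun z => Submodule.subset_span (Or.inr rfl)
  apply le_antisymm
  · refine sup_le (Submodule.span_le.2 ?_) le_sup_right
    rintro x (rfl | rfl)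
    · exact Submodule.mem_sup_left (hy p)
    · refine gc_mem (z := α • y + β • p)
        (Submodule.add_mem _ (Submodule.smul_mem _ _ (hy p)) (Submodule.smul_mem _ _ (hz p))) ?_
      rw [← add_assoc]
      exact h
  · refine sup_le (Submodule.span_le.2 ?_) le_sup_right
    rintro x (rfl | rfl)
    · exact Submodule.mem_sup_left (hy q)
    · refine gc_mem (z := β⁻¹ • (q + α • y))
        (Submodule.smul_mem _ _ (Submodule.add_mem _ (hz q) (Submodule.smul_mem _ _ (hy q)))) ?_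
      have h1 := K.smul_mem β⁻¹ h
      rw [smul_add, smul_smul, inv_mul_cancel₀ hβ, one_smul, add_comm] at h1
      exact h1

/-- lines modulo `K` -/
private def Sim (K : Submodule F4 VV) (x y : VV) : Prop := ∃ s : F4, s ≠ 0 ∧ x + s • y ∈ K

private theorem Sim.symm' {x y : VV} (h : Sim K x y) : Sim K y x := by
  obtain ⟨s, hs, h⟩ := h
  refine ⟨s⁻¹, inv_ne_zero hs, ?_⟩
  have h1 := K.smul_mem s⁻¹ h
  rw [smul_add, smul_smul, inv_mul_cancel₀ hs, one_smul, add_comm] at h1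
  exact h1

private theorem Sim.trans' {x y z : VV} (h : Sim K x y) (h' : Sim K y z) : Sim K x z := by
  obtain ⟨s, hs, h⟩ := h
  obtain ⟨t, ht, h'⟩ := h'
  refine ⟨s * t, mul_ne_zero hs ht, ?_⟩
  have h1 := K.add_mem h (K.smul_mem s h')
  have e : x + s • y + s • (y + t • z) = x + (s * t) • z + (s • y + s • y) := by module
  rw [e, vadd_self, add_zero] at h1
  exact h1

private theorem Sim.span {x y z : VV} (h : Sim K x y) :
    span F4 {z, x} ⊔ K = span F4 {z, y} ⊔ K := by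
  obtain ⟨s, hs, h⟩ := h
  refine gc_eq (α := 0) hs ?_
  rw [zero_smul, add_zero]
  exact h

private theorem gc_L1 (h : Piece K a b w1 w2 D0 A0 φ1 φ2) {x : VV} {s1 s2 s3 : F4}
    (hx : x + s1 • (a + w1) + s2 • (w1 + w2) + s3 • (w2 + b) ∈ K) :
    φ1 x = s1 + s2 ∧ φ2 x = s2 + s3 ∧ x + φ1 x • w1 + φ2 x • w2 + s1 • a + s3 • b ∈ K := by
  have h1 : φ1 x = s1 + s2 := by
    have h3 := (h.hK _ hx).1
    simp only [map_add, map_smul, h.h11, h.h12, h.ha.1, h.hb.1, smul_eq_mul, zero_add, add_zero,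
      mul_one, mul_zero] at h3
    rw [add_assoc] at h3
    exact vadd_eq_zero.1 h3
  have h2 : φ2 x = s2 + s3 := by
    have h3 := (h.hK _ hx).2
    simp only [map_add, map_smul, h.h21, h.h22, h.ha.2, h.hb.2, smul_eq_mul, zero_add, add_zero,
      mul_one, mul_zero] at h3
    rw [add_assoc] at h3
    exact vadd_eq_zero.1 h3
  refine ⟨h1, h2, ?_⟩
  rw [h1, h2]
  have e : x + (s1 + s2) • w1 + (s2 + s3) • w2 + s1 • a + s3 • b =
      x + s1 • (a + w1) + s2 • (w1 + w2) + s3 • (w2 + b) := by module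
  rw [e]
  exact hx

private def Zt (φ1 φ2 : VV →ₗ[F4] F4) (K : Submodule F4 VV) (a b x : VV) : Prop :=
  φ1 x = 0 ∧ φ2 x = 0 ∧ ∀ s : F4, a + b + s • x ∉ K

private theorem gc_cls (h : Piece K a b w1 w2 D0 A0 φ1 φ2) {x : VV}
    (hx : x ∈ pieceC a b w1 w2 D0 ∪ A0 ∪ {0}) :
    Zt φ1 φ2 K a b x ∨ x = w1 ∨ x = w2 ∨ x = a + w1 ∨ x = w1 + w2 ∨ x = w2 + b := by
  rcases hx with ((hx | hx) | hx) | hx
  · exact Or.inl ⟨(h.hD x (Or.inl hx)).1, (h.hD x (Or.inl hx)).2, h.hab' x (Or.inl hx)⟩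
  · exact Or.inr hx
  · exact Or.inl ⟨(h.hD x (Or.inr hx)).1, (h.hD x (Or.inr hx)).2, h.hab' x (Or.inr hx)⟩
  · have hx : x = 0 := hx
    subst hx
    refine Or.inl ⟨map_zero _, map_zero _, fun s hs => ?_⟩
    rw [smul_zero, add_zero] at hs
    have h1 := (h.hab 1 1 (by rw [one_smul, one_smul]; exact hs)).1
    exact one_ne_zero h1

/-- the only elements of `P` in the span of the three rims -/
private theorem gc_in3 (h : Piece K a b w1 w2 D0 A0 φ1 φ2) {x : VV}
    (hx : x ∈ pieceC a b w1 w2 D0 ∪ A0 ∪ {0}) {s1 s2 s3 : F4}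
    (hs : x + s1 • (a + w1) + s2 • (w1 + w2) + s3 • (w2 + b) ∈ K) :
    x ∈ K ∨ x = a + w1 ∨ x = w1 + w2 ∨ x = w2 + b := by
  obtain ⟨e1, e2, e3⟩ := gc_L1 h hs
  rcases gc_cls h hx with hz | rfl | rfl | hx | hx | hx
  · obtain ⟨z1, z2, z3⟩ := hz
    rw [z1] at e1 e3
    rw [z2] at e2 e3
    have h12 : s1 = s2 := vadd_eq_zero.1 e1.symm
    have h23 : s2 = s3 := vadd_eq_zero.1 e2.symm
    subst h12
    subst h23
    by_cases h0 : s1 = 0
    · left
      rw [h0] at e3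
      simpa using e3
    · exfalso
      refine z3 s1⁻¹ ?_
      have h1 := K.smul_mem s1⁻¹ e3
      have e : s1⁻¹ • (x + (0 : F4) • w1 + (0 : F4) • w2 + s1 • a + s1 • b) =
          (s1⁻¹ * s1) • a + (s1⁻¹ * s1) • b + s1⁻¹ • x := by module
      rw [e, inv_mul_cancel₀ h0, one_smul, one_smul] at h1
      exact h1
  · exfalso
    rw [h.h11] at e1 e3
    rw [h.h21] at e2 e3
    have e : x + (1 : F4) • x + (0 : F4) • w2 + s1 • a + s3 • b = (s1 • a + s3 • b) + (x + x) := by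
      module
    rw [e, vadd_self, add_zero] at e3
    obtain ⟨k1, k3⟩ := h.hab _ _ e3
    rw [k1, zero_add] at e1
    rw [k3, add_zero, ← e1] at e2
    exact zero_ne_one e2
  · exfalso
    rw [h.h12] at e1 e3
    rw [h.h22] at e2 e3
    have e : x + (0 : F4) • w1 + (1 : F4) • x + s1 • a + s3 • b = (s1 • a + s3 • b) + (x + x) := by
      module
    rw [e, vadd_self, add_zero] at e3
    obtain ⟨k1, k3⟩ := h.hab _ _ e3
    rw [k1, zero_add] at e1
    rw [k3, add_zero, ← e1] at e2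
    exact one_ne_zero e2
  · exact Or.inr (Or.inl hx)
  · exact Or.inr (Or.inr (Or.inl hx))
  · exact Or.inr (Or.inr (Or.inr hx))

private theorem gc_ind (h : Piece K a b w1 w2 D0 A0 φ1 φ2) {s1 s2 s3 : F4}
    (hs : s1 • (a + w1) + s2 • (w1 + w2) + s3 • (w2 + b) ∈ K) : s1 = 0 ∧ s2 = 0 ∧ s3 = 0 := by
  obtain ⟨e1, e2, e3⟩ := gc_L1 h (x := 0) (s1 := s1) (s2 := s2) (s3 := s3)
    (by rw [zero_add]; exact hs)
  rw [map_zero] at e1 e3
  rw [map_zero] at e2 e3
  have e : (0 : VV) + (0 : F4) • w1 + (0 : F4) • w2 + s1 • a + s3 • b = s1 • a + s3 • b := by module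
  rw [e] at e3
  obtain ⟨k1, k3⟩ := h.hab _ _ e3
  rw [k1, zero_add] at e1
  exact ⟨k1, e1.symm, k3⟩

private theorem gc_add4 (x y z : VV) : x + y + (z + z) = x + y := by rw [vadd_self, add_zero]

private theorem gc_12 (h : Piece K a b w1 w2 D0 A0 φ1 φ2) {p p' : VV} {α β γ : F4} (hγ : γ ≠ 0)
    (hr : p' + α • (a + w1) + β • (w1 + w2) + γ • p ∈ K) :
    (Zt φ1 φ2 K a b p → Zt φ1 φ2 K a b p' → Sim K p' p) ∧
    (Zt φ1 φ2 K a b p → (p' = w1 ∨ p' = w2) → Sim K a p) ∧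
    ((p = w1 ∨ p = w2) → Zt φ1 φ2 K a b p' → Sim K p' a) := by
  obtain ⟨e1, e2, e3⟩ := gc_L1 h (x := p' + γ • p) (s1 := α) (s2 := β) (s3 := 0) (by
    have e : p' + γ • p + α • (a + w1) + β • (w1 + w2) + (0 : F4) • (w2 + b) =
      p' + α • (a + w1) + β • (w1 + w2) + γ • p := by module
    rw [e]
    exact hr)
  rw [e1, e2] at e3
  rw [map_add, map_smul, smul_eq_mul] at e1 e2
  refine ⟨fun h1 h2 => ⟨γ, hγ, ?_⟩, fun h1 h2 => ?_, fun h1 h2 => ?_⟩
  · rw [h1.1, h2.1, mul_zero, add_zero] at e1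
    rw [h1.2.1, h2.2.1, mul_zero, add_zero, add_zero] at e2
    rw [← e2, add_zero] at e1
    rw [← e1, ← e2] at e3
    simpa using e3
  · rcases h2 with rfl | rfl
    · rw [h1.1, h.h11, mul_zero, add_zero] at e1
      rw [h1.2.1, h.h21, mul_zero, add_zero, add_zero] at e2
      rw [← e2, add_zero] at e1
      rw [← e1, ← e2] at e3
      refine ⟨γ, hγ, ?_⟩
      have e : p' + γ • p + ((1 : F4) + 0) • p' + ((0 : F4) + 0) • w2 + (1 : F4) • a + (0 : F4) • b =
        a + γ • p + (p' + p') := by module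
      rw [e, gc_add4] at e3
      exact e3
    · rw [h1.1, h.h12, mul_zero, add_zero] at e1
      rw [h1.2.1, h.h22, mul_zero, add_zero, add_zero] at e2
      rw [← e2] at e1
      have hα : α = 1 := vadd_eq_zero.1 e1.symm
      rw [hα, ← e2] at e3
      refine ⟨γ, hγ, ?_⟩
      have e : p' + γ • p + ((1 : F4) + 1) • w1 + ((1 : F4) + 0) • p' + (1 : F4) • a + (0 : F4) • b =
        a + γ • p + ((w1 + p') + (w1 + p')) := by module
      rw [e, gc_add4] at e3
      exact e3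
  · rcases h1 with rfl | rfl
    · rw [h2.1, h.h11, mul_one, zero_add] at e1
      rw [h2.2.1, h.h21, mul_zero, add_zero, add_zero] at e2
      rw [← e2, add_zero] at e1
      rw [← e1, ← e2] at e3
      refine ⟨γ, hγ, ?_⟩
      have e : p' + γ • p + (γ + 0) • p + ((0 : F4) + 0) • w2 + γ • a + (0 : F4) • b =
        p' + γ • a + (γ • p + γ • p) := by module
      rw [e, gc_add4] at e3
      exact e3
    · rw [h2.1, h.h12, mul_zero, add_zero] at e1
      rw [h2.2.1, h.h22, mul_one, zero_add, add_zero] at e2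
      have hα : α = β := vadd_eq_zero.1 e1.symm
      rw [hα, ← e2] at e3
      refine ⟨γ, hγ, ?_⟩
      have e' : p' + γ • p + (γ + γ) • w1 + (γ + 0) • p + γ • a + (0 : F4) • b =
        p' + γ • a + ((γ • p + γ • w1) + (γ • p + γ • w1)) := by module
      rw [e', gc_add4] at e3
      exact e3

private theorem gc_23 (h : Piece K a b w1 w2 D0 A0 φ1 φ2) {p p' : VV} {α β γ : F4} (hγ : γ ≠ 0)
    (hr : p' + α • (w1 + w2) + β • (w2 + b) + γ • p ∈ K) :
    (Zt φ1 φ2 K a b p → Zt φ1 φ2 K a b p' → Sim K p' p) ∧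
    (Zt φ1 φ2 K a b p → (p' = w1 ∨ p' = w2) → Sim K b p) ∧
    ((p = w1 ∨ p = w2) → Zt φ1 φ2 K a b p' → Sim K p' b) := by
  obtain ⟨e1, e2, e3⟩ := gc_L1 h (x := p' + γ • p) (s1 := 0) (s2 := α) (s3 := β) (by
    have e : p' + γ • p + (0 : F4) • (a + w1) + α • (w1 + w2) + β • (w2 + b) =
      p' + α • (w1 + w2) + β • (w2 + b) + γ • p := by module
    rw [e]
    exact hr)
  rw [e1, e2] at e3
  rw [map_add, map_smul, smul_eq_mul, zero_add] at e1
  rw [map_add, map_smul, smul_eq_mul] at e2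
  rw [zero_add] at e3
  refine ⟨fun h1 h2 => ⟨γ, hγ, ?_⟩, fun h1 h2 => ?_, fun h1 h2 => ?_⟩
  · rw [h1.1, h2.1, mul_zero, add_zero] at e1
    rw [h1.2.1, h2.2.1, mul_zero, add_zero, ← e1, zero_add] at e2
    rw [← e1, ← e2] at e3
    simpa using e3
  · rcases h2 with rfl | rfl
    · rw [h1.1, h.h11, mul_zero, add_zero] at e1
      rw [h1.2.1, h.h21, mul_zero, add_zero, ← e1] at e2
      have hβ : 1 = β := vadd_eq_zero.1 e2.symm
      rw [← e1, ← hβ] at e3
      refine ⟨γ, hγ, ?_⟩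
      have e : p' + γ • p + (1 : F4) • p' + ((1 : F4) + 1) • w2 + (0 : F4) • a + (1 : F4) • b =
        b + γ • p + ((p' + w2) + (p' + w2)) := by module
      rw [e, gc_add4] at e3
      exact e3
    · rw [h1.1, h.h12, mul_zero, add_zero] at e1
      rw [h1.2.1, h.h22, mul_zero, add_zero, ← e1, zero_add] at e2
      rw [← e1, ← e2] at e3
      refine ⟨γ, hγ, ?_⟩
      have e : p' + γ • p + (0 : F4) • w1 + ((0 : F4) + 1) • p' + (0 : F4) • a + (1 : F4) • b =
        b + γ • p + (p' + p') := by module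
      rw [e, gc_add4] at e3
      exact e3
  · rcases h1 with rfl | rfl
    · rw [h2.1, h.h11, mul_one, zero_add] at e1
      rw [h2.2.1, h.h21, mul_zero, add_zero, ← e1] at e2
      have hβ : γ = β := vadd_eq_zero.1 e2.symm
      rw [← e1, ← hβ] at e3
      refine ⟨γ, hγ, ?_⟩
      have e : p' + γ • p + γ • p + (γ + γ) • w2 + (0 : F4) • a + γ • b =
        p' + γ • b + ((γ • p + γ • w2) + (γ • p + γ • w2)) := by module
      rw [e, gc_add4] at e3
      exact e3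
    · rw [h2.1, h.h12, mul_zero, add_zero] at e1
      rw [h2.2.1, h.h22, mul_one, zero_add, ← e1, zero_add] at e2
      rw [← e1, ← e2] at e3
      refine ⟨γ, hγ, ?_⟩
      have e : p' + γ • p + (0 : F4) • w1 + ((0 : F4) + γ) • p + (0 : F4) • a + γ • b =
        p' + γ • b + (γ • p + γ • p) := by module
      rw [e, gc_add4] at e3
      exact e3

private theorem gc_13 (h : Piece K a b w1 w2 D0 A0 φ1 φ2) {p p' : VV} {α β γ : F4} (hγ : γ ≠ 0)
    (hr : p' + α • (a + w1) + β • (w2 + b) + γ • p ∈ K) :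
    (Zt φ1 φ2 K a b p → Zt φ1 φ2 K a b p' → Sim K p' p) ∧
    (Zt φ1 φ2 K a b p → p' = w1 → Sim K a p) ∧
    (Zt φ1 φ2 K a b p → p' = w2 → Sim K b p) ∧
    (p = w1 → Zt φ1 φ2 K a b p' → Sim K p' a) ∧
    (p = w2 → Zt φ1 φ2 K a b p' → Sim K p' b) ∧
    (p = w1 → p' ≠ w2) ∧ (p = w2 → p' ≠ w1) := by
  obtain ⟨e1, e2, e3⟩ := gc_L1 h (x := p' + γ • p) (s1 := α) (s2 := 0) (s3 := β) (by
    have e : p' + γ • p + α • (a + w1) + (0 : F4) • (w1 + w2) + β • (w2 + b) =
      p' + α • (a + w1) + β • (w2 + b) + γ • p := by module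
    rw [e]
    exact hr)
  rw [e1, e2] at e3
  rw [map_add, map_smul, smul_eq_mul, add_zero] at e1
  rw [map_add, map_smul, smul_eq_mul, zero_add] at e2
  rw [zero_add, add_zero] at e3
  refine ⟨fun h1 h2 => ⟨γ, hγ, ?_⟩, fun h1 h2 => ⟨γ, hγ, ?_⟩, fun h1 h2 => ⟨γ, hγ, ?_⟩,
    fun h1 h2 => ⟨γ, hγ, ?_⟩, fun h1 h2 => ⟨γ, hγ, ?_⟩, fun h1 h2 => ?_, fun h1 h2 => ?_⟩
  · rw [h1.1, h2.1, mul_zero, add_zero] at e1
    rw [h1.2.1, h2.2.1, mul_zero, add_zero] at e2
    rw [← e1, ← e2] at e3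
    simpa using e3
  · rw [h1.1, h2, h.h11, mul_zero, add_zero] at e1
    rw [h1.2.1, h2, h.h21, mul_zero, add_zero] at e2
    rw [← e1, ← e2, h2] at e3
    have e : w1 + γ • p + (1 : F4) • w1 + (0 : F4) • w2 + (1 : F4) • a + (0 : F4) • b =
      a + γ • p + (w1 + w1) := by module
    rw [e, gc_add4] at e3
    exact e3
  · rw [h1.1, h2, h.h12, mul_zero, add_zero] at e1
    rw [h1.2.1, h2, h.h22, mul_zero, add_zero] at e2
    rw [← e1, ← e2, h2] at e3
    have e : w2 + γ • p + (0 : F4) • w1 + (1 : F4) • w2 + (0 : F4) • a + (1 : F4) • b =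
      b + γ • p + (w2 + w2) := by module
    rw [e, gc_add4] at e3
    exact e3
  · rw [h2.1, h1, h.h11, mul_one, zero_add] at e1
    rw [h2.2.1, h1, h.h21, mul_zero, add_zero] at e2
    rw [← e1, ← e2, h1] at e3
    have e : p' + γ • w1 + γ • w1 + (0 : F4) • w2 + γ • a + (0 : F4) • b =
      p' + γ • a + (γ • w1 + γ • w1) := by module
    rw [e, gc_add4] at e3
    exact e3
  · rw [h2.1, h1, h.h12, mul_zero, add_zero] at e1
    rw [h2.2.1, h1, h.h22, mul_one, zero_add] at e2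
    rw [← e1, ← e2, h1] at e3
    have e : p' + γ • w2 + (0 : F4) • w1 + γ • w2 + (0 : F4) • a + γ • b =
      p' + γ • b + (γ • w2 + γ • w2) := by module
    rw [e, gc_add4] at e3
    exact e3
  · rw [h2, h1, h.h11, h.h12, mul_one, zero_add] at e1
    rw [h2, h1, h.h21, h.h22, mul_zero, add_zero] at e2
    rw [← e1, ← e2, h1, h2] at e3
    have e : w2 + γ • w1 + γ • w1 + (1 : F4) • w2 + γ • a + (1 : F4) • b =
      γ • a + (1 : F4) • b + ((w2 + γ • w1) + (w2 + γ • w1)) := by module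
    rw [e, gc_add4] at e3
    exact one_ne_zero (h.hab _ _ e3).2
  · rw [h2, h1, h.h11, h.h12, mul_zero, add_zero] at e1
    rw [h2, h1, h.h21, h.h22, mul_one, zero_add] at e2
    rw [← e1, ← e2, h1, h2] at e3
    have e : w1 + γ • w2 + (1 : F4) • w1 + γ • w2 + (1 : F4) • a + γ • b =
      (1 : F4) • a + γ • b + ((w1 + γ • w2) + (w1 + γ • w2)) := by module
    rw [e, gc_add4] at e3
    exact one_ne_zero (h.hab _ _ e3).1

/-- GC2b. compatible points. Write `P = pieceC ∪ A0 ∪ {0}`. For `x, x' ∈ P` with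
`x + s x' ∈ ⟨y, y'⟩ + K`, `s ≠ 0`, where `y ≠ y'` in `R`, the possibilities are: `x' ` and `x` on the same
line mod `K`; both in `⟨y, y'⟩ + K`, then both are in `{0, y, y'} + K`, up to scalars; or (use `φ1`, `φ2`
and `hab`, `hab'`):
 `{y, y'} = {a + w1, w1 + w2}`: both on the lines of `a`, `w1`, `w2`;
 `{y, y'} = {w1 + w2, w2 + b}`: both on the lines of `w1`, `w2`, `b`;
 `{y, y'} = {a + w1, w2 + b}`: both on the lines of `a`, `w1`, or both on the lines of `w2`, `b`.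
Now let `p1, p2, p3 ∈ P` be pairwise compatible (`⟨y_i, y_j, p_i⟩ + K = ⟨y_i, y_j, p_j⟩ + K`), `p_i` not in
`⟨y_i⟩ + K`. If `p1` is on the line of `y2`: then `p2` is on the line of `y1`, then (2,3): `p3` is on the
line of `y1`, then (1,3): `⟨y1, y3, y2⟩ = ⟨y1, y3⟩` mod `K`, a contradiction (the `y_i` are independent
modulo `K`). In the same way no `p_i` is on a line of `y_j`. If `p1` is not on one of the lines of
`a, w1, w2, b`, then `p2`, `p3` are on the line of `p1` and `q = p1`. If `p1` is on the line of `a` or `w1`: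
`p2` on `a, w1, w2`, `p3` on `a, w1`; if `p3` on `a` then `p2` on `a` (by (2,3)), `q = a` (then `a` is on a line of `P`);
if `p3` on `w1`, then `p2` on `w1, w2`, `q = w1`. If `p1` on the line of `w2`: `p3` on `w2, b`, `p2` on `w1, w2` or `b`..,
`q = w2`; if `p1` on the line of `b`: `p2` on `b`, `p3` on `w2, b`: `q = b`, or `p3`.. see the equalities
`⟨y1, a⟩ = ⟨y1, w1⟩`, `⟨y2, w1⟩ = ⟨y2, w2⟩`, `⟨y3, w2⟩ = ⟨y3, b⟩`. -/
theorem GC2b (h : Piece K a b w1 w2 D0 A0 φ1 φ2) (p1 p2 p3 : VV)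
    (h1 : p1 ∈ pieceC a b w1 w2 D0 ∪ A0 ∪ {0}) (h2 : p2 ∈ pieceC a b w1 w2 D0 ∪ A0 ∪ {0})
    (h3 : p3 ∈ pieceC a b w1 w2 D0 ∪ A0 ∪ {0})
    (n1 : p1 ∉ span F4 {a + w1} ⊔ K) (n2 : p2 ∉ span F4 {w1 + w2} ⊔ K)
    (n3 : p3 ∉ span F4 {w2 + b} ⊔ K)
    (c12 : span F4 {a + w1, w1 + w2, p1} ⊔ K = span F4 {a + w1, w1 + w2, p2} ⊔ K)
    (c13 : span F4 {a + w1, w2 + b, p1} ⊔ K = span F4 {a + w1, w2 + b, p3} ⊔ K)
    (c23 : span F4 {w1 + w2, w2 + b, p2} ⊔ K = span F4 {w1 + w2, w2 + b, p3} ⊔ K) :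
    ∃ q ∈ pieceC a b w1 w2 D0 ∪ A0 ∪ {0},
      span F4 {a + w1, q} ⊔ K = span F4 {a + w1, p1} ⊔ K ∧
      span F4 {w1 + w2, q} ⊔ K = span F4 {w1 + w2, p2} ⊔ K ∧
      span F4 {w2 + b, q} ⊔ K = span F4 {w2 + b, p3} ⊔ K := by
  have y1Y : a + w1 ∈ span F4 {a + w1, w1 + w2, w2 + b} ⊔ K :=
    Submodule.mem_sup_left (Submodule.subset_span (Or.inl rfl))
  have y2Y : w1 + w2 ∈ span F4 {a + w1, w1 + w2, w2 + b} ⊔ K :=
    Submodule.mem_sup_left (Submodule.subset_span (Or.inr (Or.inl rfl)))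
  have y3Y : w2 + b ∈ span F4 {a + w1, w1 + w2, w2 + b} ⊔ K :=
    Submodule.mem_sup_left (Submodule.subset_span (Or.inr (Or.inr rfl)))
  have hle : ∀ {y y' p : VV}, y ∈ span F4 {a + w1, w1 + w2, w2 + b} ⊔ K →
      y' ∈ span F4 {a + w1, w1 + w2, w2 + b} ⊔ K → p ∈ span F4 {a + w1, w1 + w2, w2 + b} ⊔ K →
      span F4 {y, y', p} ⊔ K ≤ span F4 {a + w1, w1 + w2, w2 + b} ⊔ K := by
    intro y y' p hy hy' hp
    refine sup_le (Submodule.span_le.2 ?_) le_sup_right
    rintro x (rfl | rfl | rfl)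
    · exact hy
    · exact hy'
    · exact hp
  have hmem : ∀ y y' p : VV, p ∈ span F4 {y, y', p} ⊔ K := fun y y' p =>
    Submodule.mem_sup_left (Submodule.subset_span (Or.inr (Or.inr rfl)))
  have Y12 : p1 ∈ span F4 {a + w1, w1 + w2, w2 + b} ⊔ K →
      p2 ∈ span F4 {a + w1, w1 + w2, w2 + b} ⊔ K := fun hp =>
    hle y1Y y2Y hp (c12 ▸ hmem _ _ p2)
  have Y21 : p2 ∈ span F4 {a + w1, w1 + w2, w2 + b} ⊔ K →
      p1 ∈ span F4 {a + w1, w1 + w2, w2 + b} ⊔ K := fun hp =>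
    hle y1Y y2Y hp (c12 ▸ hmem _ _ p1)
  have Y13 : p1 ∈ span F4 {a + w1, w1 + w2, w2 + b} ⊔ K →
      p3 ∈ span F4 {a + w1, w1 + w2, w2 + b} ⊔ K := fun hp =>
    hle y1Y y3Y hp (c13 ▸ hmem _ _ p3)
  have Y31 : p3 ∈ span F4 {a + w1, w1 + w2, w2 + b} ⊔ K →
      p1 ∈ span F4 {a + w1, w1 + w2, w2 + b} ⊔ K := fun hp =>
    hle y1Y y3Y hp (c13 ▸ hmem _ _ p1)
  -- no point is in the span of the rims
  have hT1 : p1 ∉ span F4 {a + w1, w1 + w2, w2 + b} ⊔ K := by
    intro t1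
    have t2 := Y12 t1
    have t3 := Y13 t1
    have o1 : p1 = w1 + w2 ∨ p1 = w2 + b := by
      obtain ⟨s1, s2, s3, hs⟩ := gc_mem3 t1
      rcases gc_in3 h h1 hs with hk | hk | hk | hk
      · exact absurd (Submodule.mem_sup_right hk) n1
      · exact absurd (Submodule.mem_sup_left (Submodule.mem_span_singleton_self _)) (hk ▸ n1)
      · exact Or.inl hk
      · exact Or.inr hk
    have o2 : p2 = a + w1 ∨ p2 = w2 + b := by
      obtain ⟨s1, s2, s3, hs⟩ := gc_mem3 t2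
      rcases gc_in3 h h2 hs with hk | hk | hk | hk
      · exact absurd (Submodule.mem_sup_right hk) n2
      · exact Or.inl hk
      · exact absurd (Submodule.mem_sup_left (Submodule.mem_span_singleton_self _)) (hk ▸ n2)
      · exact Or.inr hk
    have o3 : p3 = a + w1 ∨ p3 = w1 + w2 := by
      obtain ⟨s1, s2, s3, hs⟩ := gc_mem3 t3
      rcases gc_in3 h h3 hs with hk | hk | hk | hk
      · exact absurd (Submodule.mem_sup_right hk) n3
      · exact Or.inl hk
      · exact Or.inr hk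
      · exact absurd (Submodule.mem_sup_left (Submodule.mem_span_singleton_self _)) (hk ▸ n3)
    have q3 : ∀ z, z = a + w1 ∨ z = w1 + w2 → w2 + b ∉ span F4 {a + w1, w1 + w2, z} ⊔ K := by
      intro z hz hmz
      obtain ⟨α, β, γ, hs⟩ := gc_mem3 hmz
      rcases hz with rfl | rfl
      · have e : w2 + b + α • (a + w1) + β • (w1 + w2) + γ • (a + w1) =
          (α + γ) • (a + w1) + β • (w1 + w2) + (1 : F4) • (w2 + b) := by module
        rw [e] at hs
        exact one_ne_zero (gc_ind h hs).2.2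
      · have e : w2 + b + α • (a + w1) + β • (w1 + w2) + γ • (w1 + w2) =
          α • (a + w1) + (β + γ) • (w1 + w2) + (1 : F4) • (w2 + b) := by module
        rw [e] at hs
        exact one_ne_zero (gc_ind h hs).2.2
    have q2 : ∀ z, z = a + w1 ∨ z = w2 + b → w1 + w2 ∉ span F4 {a + w1, w2 + b, z} ⊔ K := by
      intro z hz hmz
      obtain ⟨α, β, γ, hs⟩ := gc_mem3 hmz
      rcases hz with rfl | rfl
      · have e : w1 + w2 + α • (a + w1) + β • (w2 + b) + γ • (a + w1) =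
          (α + γ) • (a + w1) + (1 : F4) • (w1 + w2) + β • (w2 + b) := by module
        rw [e] at hs
        exact one_ne_zero (gc_ind h hs).2.1
      · have e : w1 + w2 + α • (a + w1) + β • (w2 + b) + γ • (w2 + b) =
          α • (a + w1) + (1 : F4) • (w1 + w2) + (β + γ) • (w2 + b) := by module
        rw [e] at hs
        exact one_ne_zero (gc_ind h hs).2.1
    have q1 : ∀ z, z = w1 + w2 ∨ z = w2 + b → a + w1 ∉ span F4 {w1 + w2, w2 + b, z} ⊔ K := by
      intro z hz hmz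
      obtain ⟨α, β, γ, hs⟩ := gc_mem3 hmz
      rcases hz with rfl | rfl
      · have e : a + w1 + α • (w1 + w2) + β • (w2 + b) + γ • (w1 + w2) =
          (1 : F4) • (a + w1) + (α + γ) • (w1 + w2) + β • (w2 + b) := by module
        rw [e] at hs
        exact one_ne_zero (gc_ind h hs).1
      · have e : a + w1 + α • (w1 + w2) + β • (w2 + b) + γ • (w2 + b) =
          (1 : F4) • (a + w1) + α • (w1 + w2) + (β + γ) • (w2 + b) := by module
        rw [e] at hs
        exact one_ne_zero (gc_ind h hs).1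
    rcases o1 with rfl | rfl
    · rcases o2 with rfl | rfl
      · rcases o3 with rfl | rfl
        · exact q2 _ (Or.inl rfl) (c13 ▸ hmem _ _ _)
        · exact q1 _ (Or.inl rfl) (c23 ▸ hmem _ _ _)
      · exact q3 _ (Or.inr rfl) (c12 ▸ hmem _ _ _)
    · rcases o2 with rfl | rfl
      · exact q3 _ (Or.inl rfl) (c12 ▸ hmem _ _ _)
      · rcases o3 with rfl | rfl
        · exact q1 _ (Or.inr rfl) (c23 ▸ hmem _ _ _)
        · exact q2 _ (Or.inr rfl) (c13 ▸ hmem _ _ _)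
  have hT2 := fun t => hT1 (Y21 t)
  have hT3 := fun t => hT1 (Y31 t)
  have cls : ∀ p, p ∈ pieceC a b w1 w2 D0 ∪ A0 ∪ {0} →
      p ∉ span F4 {a + w1, w1 + w2, w2 + b} ⊔ K →
      Zt φ1 φ2 K a b p ∨ (p = w1 ∨ p = w2) := by
    intro p hp hpY
    rcases gc_cls h hp with hz | hz | hz | rfl | rfl | rfl
    · exact Or.inl hz
    · exact Or.inr (Or.inl hz)
    · exact Or.inr (Or.inr hz)
    · exact absurd y1Y hpY
    · exact absurd y2Y hpY
    · exact absurd y3Y hpY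
  -- the relations
  obtain ⟨α, β, γ, r12⟩ := gc_mem3 (c12.symm ▸ hmem (a + w1) (w1 + w2) p2 :
    p2 ∈ span F4 {a + w1, w1 + w2, p1} ⊔ K)
  obtain ⟨α', β', γ', r13⟩ := gc_mem3 (c13.symm ▸ hmem (a + w1) (w2 + b) p3 :
    p3 ∈ span F4 {a + w1, w2 + b, p1} ⊔ K)
  obtain ⟨α'', β'', γ'', r23⟩ := gc_mem3 (c23.symm ▸ hmem (w1 + w2) (w2 + b) p3 :
    p3 ∈ span F4 {w1 + w2, w2 + b, p2} ⊔ K)
  have hsm : ∀ {y : VV} (s : F4), y ∈ span F4 {a + w1, w1 + w2, w2 + b} →
      s • y ∈ span F4 {a + w1, w1 + w2, w2 + b} := fun s hy => Submodule.smul_mem _ _ hy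
  have z1 : a + w1 ∈ span F4 {a + w1, w1 + w2, w2 + b} := Submodule.subset_span (Or.inl rfl)
  have z2 : w1 + w2 ∈ span F4 {a + w1, w1 + w2, w2 + b} :=
    Submodule.subset_span (Or.inr (Or.inl rfl))
  have z3 : w2 + b ∈ span F4 {a + w1, w1 + w2, w2 + b} :=
    Submodule.subset_span (Or.inr (Or.inr rfl))
  have g1 : γ ≠ 0 := by
    rintro rfl
    rw [zero_smul, add_zero, add_assoc] at r12
    exact hT2 (gc_mem (Submodule.add_mem _ (hsm α z1) (hsm β z2)) r12)
  have g2 : γ' ≠ 0 := by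
    rintro rfl
    rw [zero_smul, add_zero, add_assoc] at r13
    exact hT3 (gc_mem (Submodule.add_mem _ (hsm α' z1) (hsm β' z3)) r13)
  have g3 : γ'' ≠ 0 := by
    rintro rfl
    rw [zero_smul, add_zero, add_assoc] at r23
    exact hT3 (gc_mem (Submodule.add_mem _ (hsm α'' z2) (hsm β'' z3)) r23)
  obtain ⟨A1, A2, A3⟩ := gc_12 h g1 r12
  obtain ⟨B1, B2, B3⟩ := gc_23 h g3 r23
  obtain ⟨C1, C2, C3, C4, C5, C6, C7⟩ := gc_13 h g2 r13
  have nab : ¬ Sim K a b := by
    rintro ⟨s, hs, hm⟩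
    exact one_ne_zero (h.hab 1 s (by rw [one_smul]; exact hm)).1
  have hw1 : w1 ∈ pieceC a b w1 w2 D0 ∪ A0 ∪ {0} :=
    Or.inl (Or.inl (Or.inr (Or.inl rfl)))
  have hw2 : w2 ∈ pieceC a b w1 w2 D0 ∪ A0 ∪ {0} :=
    Or.inl (Or.inl (Or.inr (Or.inr (Or.inl rfl))))
  have hzK : ∀ z : VV, z + z ∈ K := fun z => by rw [vadd_self]; exact K.zero_mem
  have m1 : span F4 {w1 + w2, w1} ⊔ K = span F4 {w1 + w2, w2} ⊔ K := by
    refine gc_eq (α := 1) (β := 1) one_ne_zero ?_
    have e : w1 + (1 : F4) • (w1 + w2) + (1 : F4) • w2 = (w1 + w2) + (w1 + w2) := by module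
    rw [e]
    exact hzK _
  -- `x` on the line of `a`
  have ma : ∀ x, Sim K x a → span F4 {a + w1, x} ⊔ K = span F4 {a + w1, w1} ⊔ K := by
    rintro x ⟨s, hs, hm⟩
    refine gc_eq (α := s) (β := s) hs ?_
    have e : x + s • (a + w1) + s • w1 = x + s • a + (s • w1 + s • w1) := by module
    rw [e, gc_add4]
    exact hm
  have mb : ∀ x, Sim K x b → span F4 {w2 + b, x} ⊔ K = span F4 {w2 + b, w2} ⊔ K := by
    rintro x ⟨s, hs, hm⟩
    refine gc_eq (α := s) (β := s) hs ?_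
    have e : x + s • (w2 + b) + s • w2 = x + s • b + (s • w2 + s • w2) := by module
    rw [e, gc_add4]
    exact hm
  rcases cls p1 h1 hT1 with Z1 | W1
  · rcases cls p2 h2 hT2 with Z2 | W2
    · rcases cls p3 h3 hT3 with Z3 | W3
      · exact ⟨p1, h1, rfl, (A1 Z1 Z2).symm'.span, (C1 Z1 Z3).symm'.span⟩
      · have k1 := A1 Z1 Z2
        have k2 := B2 Z2 W3
        rcases W3 with W3 | W3
        · exact absurd ((C2 Z1 W3).trans' (k2.trans' k1).symm') nab
        · refine ⟨p1, h1, rfl, k1.symm'.span, ?_⟩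
          rw [W3]
          exact mb _ (k2.trans' k1).symm'
    · rcases cls p3 h3 hT3 with Z3 | W3
      · exact absurd (((A2 Z1 W2).trans' (C1 Z1 Z3).symm').trans' (B3 W2 Z3)) nab
      · have k1 := A2 Z1 W2
        rcases W3 with W3 | W3
        · refine ⟨w1, hw1, (ma _ k1.symm').symm, ?_, ?_⟩
          · rcases W2 with W2 | W2
            · rw [W2]
            · rw [W2]; exact m1
          · rw [W3]
        · exact absurd (k1.trans' (C3 Z1 W3).symm') nab
  · rcases cls p2 h2 hT2 with Z2 | W2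
    · rcases cls p3 h3 hT3 with Z3 | W3
      · have k1 := A3 W1 Z2
        have k2 := B1 Z2 Z3
        rcases W1 with W1 | W1
        · refine ⟨p2, h2, ?_, rfl, k2.symm'.span⟩
          rw [W1]
          exact ma _ k1
        · exact absurd ((k2.trans' k1).symm'.trans' (C5 W1 Z3)) nab
      · exact absurd ((A3 W1 Z2).symm'.trans' (B2 Z2 W3).symm') nab
    · rcases cls p3 h3 hT3 with Z3 | W3
      · have k1 := B3 W2 Z3
        rcases W1 with W1 | W1
        · exact absurd ((C4 W1 Z3).symm'.trans' k1) nab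
        · refine ⟨w2, hw2, ?_, ?_, (mb _ k1).symm⟩
          · rw [W1]
          · rcases W2 with W2 | W2
            · rw [W2]; exact m1.symm
            · rw [W2]
      · rcases W1 with W1 | W1
        · rcases W3 with W3 | W3
          · refine ⟨w1, hw1, ?_, ?_, ?_⟩
            · rw [W1]
            · rcases W2 with W2 | W2
              · rw [W2]
              · rw [W2]; exact m1
            · rw [W3]
          · exact absurd W3 (C6 W1)
        · rcases W3 with W3 | W3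
          · exact absurd W3 (C7 W1)
          · refine ⟨w2, hw2, ?_, ?_, ?_⟩
            · rw [W1]
            · rcases W2 with W2 | W2
              · rw [W2]; exact m1.symm
              · rw [W2]
            · rw [W3]

end QG
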