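import Pool.Agent.Lib.QG.GC1
import Pool.Agent.Lib.QG.GC2

/-! MP_2e6874_co, part (A), row GC3. -/

set_option autoImplicit false

namespace QG
open Set Matroid Submodule

private theorem GC3_e (i n k l : ℕ) : e i n (k, l) = if i = k ∧ n = l then 1 else 0 := by
  unfold e
  rw [Finsupp.single_apply]
  by_cases h : i = k ∧ n = l
  · rw [if_pos h, if_pos]
    rw [h.1, h.2]
  · rw [if_neg h, if_neg]
    intro h'
    rw [Prod.mk.injEq] at h'
    exact h h'

/-- the coordinates of the vertices -/
private theorem GC3_msu {I : Finset ℕ} {m : ℕ → ℕ} {A B : ℕ → VV} (hA : ∀ i ∈ I, A i ∈ Base I)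
    (hB : ∀ i ∈ I, B i ∈ Base I) {j n k l : ℕ} (hj : j ∈ I) (hk : k ∈ I) (hl : 1 ≤ l) :
    msu m A B j n (k, l) = if n ≠ m j ∧ j = k ∧ n = l then 1 else 0 := by
  unfold msu
  by_cases h0 : n = 0
  · rw [if_pos h0, if_neg (by omega)]
    exact hA j hj k hk l hl
  · rw [if_neg h0]
    by_cases h1 : n = m j
    · rw [if_pos h1, if_neg (by omega)]
      exact hB j hj k hk l hl
    · rw [if_neg h1, GC3_e]
      simp [h1]

/-- the other points -/
private def GC3_D (I : Finset ℕ) (m : ℕ → ℕ) (A B : ℕ → VV) (C0 : Set VV) (i : ℕ) : Set VV :=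
  {x | x ∈ C0 ∨ (∃ j ∈ I, ∃ n, 0 < n ∧ n < m j ∧ ¬ (j = i ∧ n ≤ 2) ∧ x = e j n) ∨
    ∃ j ∈ I, ∃ n < m j, ¬ (j = i ∧ n ≤ 2) ∧ x = msu m A B j n + msu m A B j (n + 1)}

private theorem GC3_eq {I : Finset ℕ} {m : ℕ → ℕ} {A B : ℕ → VV} {C0 : Set VV} {i : ℕ}
    (hi : i ∈ I) (hm : 3 ≤ m i) :
    pieceC (A i) (msu m A B i 3) (e i 1) (e i 2) (GC3_D I m A B C0 i) = MSC I m A B C0 := by
  have e0 : msu m A B i 0 = A i := by simp [msu]
  have e1 : msu m A B i 1 = e i 1 := by
    unfold msu
    rw [if_neg (by omega), if_neg (by omega)]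
  have e2 : msu m A B i 2 = e i 2 := by
    unfold msu
    rw [if_neg (by omega), if_neg (by omega)]
  ext x
  constructor
  · rintro ((hx | ⟨j, hj, n, h0, h1, -, rfl⟩ | ⟨j, hj, n, h1, -, rfl⟩) |
      (rfl | rfl | rfl | rfl | rfl))
    · exact Or.inl (Or.inl hx)
    · exact Or.inl (Or.inr ⟨j, hj, n, h0, h1, rfl⟩)
    · exact Or.inr ⟨j, hj, n, h1, rfl⟩
    · exact Or.inl (Or.inr ⟨i, hi, 1, by omega, by omega, rfl⟩)
    · exact Or.inl (Or.inr ⟨i, hi, 2, by omega, by omega, rfl⟩)
    · exact Or.inr ⟨i, hi, 0, by omega, by rw [e0, zero_add, e1]⟩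
    · exact Or.inr ⟨i, hi, 1, by omega, by rw [e1, one_add_one_eq_two, e2]⟩
    · exact Or.inr ⟨i, hi, 2, by omega, by rw [e2]⟩
  · rintro ((hx | ⟨j, hj, n, h0, h1, rfl⟩) | ⟨j, hj, n, h1, rfl⟩)
    · exact Or.inl (Or.inl hx)
    · by_cases hc : j = i ∧ n ≤ 2
      · obtain ⟨rfl, h2⟩ := hc
        have : n = 1 ∨ n = 2 := by omega
        rcases this with rfl | rfl
        · exact Or.inr (by simp)
        · exact Or.inr (by simp)
      · exact Or.inl (Or.inr (Or.inl ⟨j, hj, n, h0, h1, hc, rfl⟩))
    · by_cases hc : j = i ∧ n ≤ 2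
      · obtain ⟨rfl, h2⟩ := hc
        have : n = 0 ∨ n = 1 ∨ n = 2 := by omega
        rcases this with rfl | rfl | rfl
        · rw [zero_add, e0, e1]
          exact Or.inr (by simp)
        · rw [one_add_one_eq_two, e1, e2]
          exact Or.inr (by simp)
        · rw [e2]
          exact Or.inr (by simp)
      · exact Or.inl (Or.inr (Or.inr ⟨j, hj, n, h1, hc, rfl⟩))

/-- GC3 (= T1). GROWTH OF A STRAND WITH AT LEAST THREE RIMS. The point set is `pieceC` with
`a = A i`, `w1 = e i 1`, `w2 = e i 2`, `b = msu m A B i 3` (`= B i` if `m i = 3`, else `e i 3`),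
`D0` = all the other points; `φ1`, `φ2` = the coordinates `(i, 1)`, `(i, 2)`. `Piece`: a point in `D0` with
coordinates in strand `i` cannot be proportional to `A i + msu 3` modulo `K` (`m i ≥ 4`: the points with
coordinate `(i, 3)` are `e i 3`, `e i 3 + msu 4`, ..., and `A i ∉ K`; a relation
`A i + e i 3 + s (e i 3 + e i 4)` has coordinate `(i,4)`, or if `m i = 4`: `A i + B i ∉ K`);
points of other strands with inner vertices have coordinates `(j, n)`.
`hsep` is given with `D ⊆ MSC (I.erase i)` (subsets of `D0`). The three contractions: GC1 with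
`j = 0, 1, 2` and the hypotheses `h0`, `h1`, `h2`. -/
theorem GC3 {K : Submodule F4 VV} {I : Finset ℕ} {m : ℕ → ℕ} {A B : ℕ → VV} {C0 A0 : Set VV}
    (h : MSB K I m A B C0 A0) {i : ℕ} (hi : i ∈ I) (hm : 3 ≤ m i)
    (hab : ∀ s s' : F4, s • A i + s' • B i ∈ K → s = 0 ∧ s' = 0)
    (hab' : ∀ x ∈ C0 ∪ A0, ∀ s : F4, A i + B i + s • x ∉ K)
    (hab'' : ∀ j ∈ I, j ≠ i → m j = 1 → ∀ s : F4, A i + B i + s • (A j + B j) ∉ K)
    (hsep : ∀ x ∈ A0, ∀ x' ∈ A0,
      (∀ D, D ⊆ MSC (I.erase i) m A B C0 → (x ∈ span F4 D ⊔ K ↔ x' ∈ span F4 D ⊔ K)) →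
      span F4 {x} ⊔ K = span F4 {x'} ⊔ K)
    (h0 : AK K (MSC I (dec m i) A B (C0 ∪ {A i})) (MSP I (dec m i) A B (C0 ∪ {A i}) A0))
    (h1 : AK K (MSC I (dec m i) A B C0) (MSP I (dec m i) A B C0 A0))
    (h2 : m i = 3 → AK K (MSC I (dec m i) A B (C0 ∪ {B i})) (MSP I (dec m i) A B (C0 ∪ {B i}) A0)) :
    AK K (MSC I m A B C0) (MSP I m A B C0 A0) := by
  have e0 : msu m A B i 0 = A i := by simp [msu]
  have e1 : msu m A B i 1 = e i 1 := by
    unfold msu
    rw [if_neg (by omega), if_neg (by omega)]
  have e2 : msu m A B i 2 = e i 2 := by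
    unfold msu
    rw [if_neg (by omega), if_neg (by omega)]
  have hA := h.hA
  have hB := h.hB
  -- coordinates
  have hKc : ∀ x ∈ K, ∀ k ∈ I, ∀ l, 1 ≤ l → x (k, l) = 0 := fun x hx => h.hK hx
  have hmsu : ∀ {j n k l : ℕ}, j ∈ I → k ∈ I → 1 ≤ l →
      msu m A B j n (k, l) = if n ≠ m j ∧ j = k ∧ n = l then 1 else 0 :=
    fun hj hk hl => GC3_msu hA hB hj hk hl
  have hone : (1 : F4) ≠ 0 := one_ne_zero
  have hAB : A i + B i ∉ K := by
    intro hc
    have := (hab 1 1 (by simpa using hc)).1
    exact hone this
  have hAi : A i ∉ K := by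
    intro hc
    have := (hab 1 0 (by simpa using hc)).1
    exact hone this
  have hAc : ∀ k ∈ I, ∀ l, 1 ≤ l → A i (k, l) = 0 := hA i hi
  have hBc : ∀ k ∈ I, ∀ l, 1 ≤ l → B i (k, l) = 0 := hB i hi
  have hb3 : msu m A B i 3 = if m i = 3 then B i else e i 3 := by
    unfold msu
    rw [if_neg (by omega)]
    by_cases h3 : m i = 3
    · rw [if_pos h3.symm, if_pos h3]
    · rw [if_neg (Ne.symm h3), if_neg h3]
  let φ1 : VV →ₗ[F4] F4 := Finsupp.lapply (i, 1)
  let φ2 : VV →ₗ[F4] F4 := Finsupp.lapply (i, 2)
  have hφ1 : ∀ x : VV, φ1 x = x (i, 1) := fun x => rfl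
  have hφ2 : ∀ x : VV, φ2 x = x (i, 2) := fun x => rfl
  have hBase : ∀ x : VV, x ∈ Base I → φ1 x = 0 ∧ φ2 x = 0 := fun x hx =>
    ⟨hx i hi 1 (by omega), hx i hi 2 (by omega)⟩
  have hPiece : Piece K (A i) (msu m A B i 3) (e i 1) (e i 2) (GC3_D I m A B C0 i) A0 φ1 φ2 := by
    refine ⟨?_, ?_, ?_, ?_, hBase _ (hA i hi), ?_, fun k hk => hBase k (h.hK hk), ?_, ?_, ?_⟩
    · rw [hφ1, GC3_e]; simp
    · rw [hφ1, GC3_e]; simp
    · rw [hφ2, GC3_e]; simp
    · rw [hφ2, GC3_e]; simp
    · rw [hφ1, hφ2, hmsu hi hi (by omega), hmsu hi hi (by omega)]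
      exact ⟨if_neg (by omega), if_neg (by omega)⟩
    · rintro x ((hx | ⟨j, hj, n, _, _, hn, rfl⟩ | ⟨j, hj, n, hnm, hn, rfl⟩) | hx)
      · exact hBase _ (h.hC0 hx)
      · rw [hφ1, hφ2, GC3_e, GC3_e]
        exact ⟨if_neg (by omega), if_neg (by omega)⟩
      · rw [hφ1, hφ2, Finsupp.add_apply, Finsupp.add_apply, hmsu hj hi (by omega),
          hmsu hj hi (by omega), hmsu hj hi (by omega), hmsu hj hi (by omega),
          if_neg (by omega), if_neg (by omega), if_neg (by omega), if_neg (by omega)]
        simp
      · exact hBase _ (h.hA0 hx)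
    · intro s s' hs
      rw [hb3] at hs
      by_cases h3 : m i = 3
      · rw [if_pos h3] at hs
        exact hab s s' hs
      · rw [if_neg h3] at hs
        have c := hKc _ hs i hi 3 (by omega)
        rw [Finsupp.add_apply, Finsupp.smul_apply, Finsupp.smul_apply, hAc i hi 3 (by omega),
          GC3_e] at c
        simp at c
        subst c
        have := hab s 0 (by simpa using hs)
        exact this
    · intro x hx s hs
      rw [hb3] at hs
      by_cases h3 : m i = 3
      · rw [if_pos h3] at hs
        have key : s = 0 → False := by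
          rintro rfl
          rw [zero_smul, add_zero] at hs
          exact hAB hs
        rcases hx with (hx | ⟨j, hj, n, hn0, hnm, hn, rfl⟩ | ⟨j, hj, n, hnm, hn, rfl⟩) | hx
        · exact hab' x (Or.inl hx) s hs
        · have c := hKc _ hs j hj n (by omega)
          rw [Finsupp.add_apply, Finsupp.add_apply, Finsupp.smul_apply, hAc j hj n (by omega),
            hBc j hj n (by omega), GC3_e] at c
          exact key (by simpa using c)
        · have hji : j ≠ i := by
            rintro rfl
            omega
          by_cases hm1 : m j = 1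
          · have hn0 : n = 0 := by omega
            subst hn0
            have e3 : msu m A B j 0 = A j := by simp [msu]
            have e4 : msu m A B j (0 + 1) = B j := by
              unfold msu
              rw [if_neg (by omega), if_pos (by omega)]
            rw [e3, e4] at hs
            exact hab'' j hj hji hm1 s hs
          · rcases Nat.eq_zero_or_pos n with hn0 | hn0
            · subst hn0
              have c := hKc _ hs j hj 1 (by omega)
              rw [Finsupp.add_apply, Finsupp.add_apply, Finsupp.smul_apply, hAc j hj 1 (by omega),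
                hBc j hj 1 (by omega), Finsupp.add_apply, hmsu hj hj (by omega),
                hmsu hj hj (by omega), if_neg (by omega), if_pos (by omega)] at c
              exact key (by simpa using c)
            · have c := hKc _ hs j hj n (by omega)
              rw [Finsupp.add_apply, Finsupp.add_apply, Finsupp.smul_apply, hAc j hj n (by omega),
                hBc j hj n (by omega), Finsupp.add_apply, hmsu hj hj (by omega),
                hmsu hj hj (by omega), if_pos (by omega), if_neg (by omega)] at c
              exact key (by simpa using c)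
        · exact hab' x (Or.inr hx) s hs
      · rw [if_neg h3] at hs
        have c := hKc _ hs i hi 3 (by omega)
        rw [Finsupp.add_apply, Finsupp.add_apply, Finsupp.smul_apply, hAc i hi 3 (by omega),
          GC3_e, if_pos (by omega), zero_add] at c
        rcases hx with (hx | ⟨j, hj, n, hn0, hnm, hn, rfl⟩ | ⟨j, hj, n, hnm, hn, rfl⟩) | hx
        · rw [h.hC0 hx i hi 3 (by omega), smul_zero, add_zero] at c
          exact hone c
        · rw [GC3_e] at c
          by_cases hc : j = i ∧ n = 3
          · obtain ⟨rfl, rfl⟩ := hc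
            rw [if_pos (by omega), smul_eq_mul, mul_one, vadd_eq_zero] at c
            subst c
            rw [one_smul, add_assoc, vadd_self, add_zero] at hs
            exact hAi hs
          · rw [if_neg hc, smul_zero, add_zero] at c
            exact hone c
        · rw [Finsupp.add_apply, hmsu hj hi (by omega), hmsu hj hi (by omega)] at c
          by_cases hc : j = i ∧ n = 3
          · obtain ⟨rfl, rfl⟩ := hc
            rw [if_pos (by omega), if_neg (by omega), add_zero, smul_eq_mul, mul_one,
              vadd_eq_zero] at c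
            subst c
            have e3 : msu m A B j 3 = e j 3 := by
              rw [hb3, if_neg h3]
            by_cases h4 : m j = 4
            · have e4 : msu m A B j (3 + 1) = B j := by
                unfold msu
                rw [if_neg (by omega), if_pos (by omega)]
              rw [one_smul, e3, e4] at hs
              apply hAB
              have : A j + e j 3 + (e j 3 + B j) = A j + B j := by
                rw [add_assoc, ← add_assoc (e j 3) (e j 3), vadd_self, zero_add]
              rwa [this] at hs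
            · have c := hKc _ hs j hj 4 (by omega)
              rw [Finsupp.add_apply, Finsupp.add_apply, Finsupp.smul_apply,
                hAc j hj 4 (by omega), GC3_e, Finsupp.add_apply, hmsu hj hj (by omega),
                hmsu hj hj (by omega), if_neg (by omega), if_neg (by omega),
                if_pos (by omega)] at c
              simp at c
          · rw [if_neg (by omega), if_neg (by omega), add_zero, smul_zero, add_zero] at c
            exact hone c
        · rw [h.hA0 hx i hi 3 (by omega), smul_zero, add_zero] at c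
          exact hone c
  have hC := GC3_eq (A := A) (B := B) (C0 := C0) hi hm
  have hres := GC2 hPiece (by
      intro x hx
      rw [hC]
      exact h.hsp x hx) (by
      intro x hx x' hx' hD
      refine hsep x hx x' hx' fun D hDs => hD D (hDs.trans ?_)
      rintro y ((hy | ⟨j, hj, n, g0, g1, rfl⟩) | ⟨j, hj, n, g1, rfl⟩)
      · exact Or.inl hy
      · refine Or.inr (Or.inl ⟨j, Finset.mem_of_mem_erase hj, n, g0, g1, ?_, rfl⟩)
        exact fun hc => Finset.ne_of_mem_erase hj hc.1
      · refine Or.inr (Or.inr ⟨j, Finset.mem_of_mem_erase hj, n, g1, ?_, rfl⟩)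
        exact fun hc => Finset.ne_of_mem_erase hj hc.1)
  rw [hC] at hres
  refine hres ?_ ?_ ?_
  · have hE : endC m A B C0 i 0 = C0 ∪ {A i} := by
      ext x
      unfold endC
      simp only [mem_union, Set.mem_ofPred_eq, true_and, mem_singleton_iff]
      constructor
      · rintro ((hx | hx) | ⟨hx, -⟩)
        · exact Or.inl hx
        · exact Or.inr hx
        · omega
      · rintro (hx | hx)
        · exact Or.inl (Or.inl hx)
        · exact Or.inl (Or.inr hx)
    have := GC1 h (i := i) (j := 0) hi (by omega) (by omega) (by rw [hE]; exact h0)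
    unfold rim at this
    rw [e0, zero_add, e1] at this
    exact this
  · have hE : endC m A B C0 i 1 = C0 := by
      ext x
      unfold endC
      simp only [mem_union, Set.mem_ofPred_eq]
      constructor
      · rintro ((hx | ⟨hx, -⟩) | ⟨hx, -⟩)
        · exact hx
        · omega
        · omega
      · intro hx
        exact Or.inl (Or.inl hx)
    have := GC1 h (i := i) (j := 1) hi (by omega) (by omega) (by rw [hE]; exact h1)
    unfold rim at this
    rw [e1, one_add_one_eq_two, e2] at this
    exact this
  · have h' : AK K (MSC I (dec m i) A B (endC m A B C0 i 2))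
        (MSP I (dec m i) A B (endC m A B C0 i 2) A0) := by
      by_cases h3 : m i = 3
      · have hE : endC m A B C0 i 2 = C0 ∪ {B i} := by
          ext x
          unfold endC
          simp only [mem_union, Set.mem_ofPred_eq, mem_singleton_iff]
          constructor
          · rintro ((hx | ⟨hx, -⟩) | ⟨hx, hx'⟩)
            · exact Or.inl hx
            · omega
            · exact Or.inr hx'
          · rintro (hx | hx)
            · exact Or.inl (Or.inl hx)
            · exact Or.inr ⟨by omega, hx⟩
        rw [hE]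
        exact h2 h3
      · have hE : endC m A B C0 i 2 = C0 := by
          ext x
          unfold endC
          simp only [mem_union, Set.mem_ofPred_eq]
          constructor
          · rintro ((hx | ⟨hx, -⟩) | ⟨hx, -⟩)
            · exact hx
            · omega
            · omega
          · intro hx
            exact Or.inl (Or.inl hx)
        rw [hE]
        exact h1
    have := GC1 h (i := i) (j := 2) hi (by omega) (by omega) h'
    unfold rim at this
    rw [e2] at this
    exact this

end QG
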