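import Pool.Agent.Lib.QG.GDefs

/-! MP_2e6874_co, part (A), row GD1. -/

set_option autoImplicit false

namespace QG
open Set Matroid Submodule

variable {K : Submodule F4 VV} {I : Finset ℕ} {m : ℕ → ℕ} {A B : ℕ → VV} {C0 A0 : Set VV}
  {a b : ℕ} {ψ : VV →ₗ[F4] F4}

private theorem GD1_e (i n : ℕ) (q : ℕ × ℕ) : (e i n) q = if (i, n) = q then 1 else 0 :=
  Finsupp.single_apply

private theorem GD1_r0 (m : ℕ → ℕ) (A B : ℕ → VV) {a : ℕ} (ha : 2 ≤ m a) :
    rim m A B a 0 = A a + e a 1 := by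
  have h1 : (1 : ℕ) ≠ m a := by omega
  simp [rim, msu, h1]

private theorem GD1_r1 (m : ℕ → ℕ) (A B : ℕ → VV) {a : ℕ} (ha : 2 ≤ m a) :
    rim m A B a 1 = e a 1 + (if 2 = m a then B a else e a 2) := by
  have h1 : (1 : ℕ) ≠ m a := by omega
  simp [rim, msu, h1]

/-- one strand: the value of the relation at `(a, 1)` and `(a, 2)` -/
private theorem GD1_strand {I : Finset ℕ} {m : ℕ → ℕ} {A B : ℕ → VV} {a : ℕ} (ha : a ∈ I)
    (hma : 2 ≤ m a) (hA : ∀ i ∈ I, A i ∈ Base I) (hB : ∀ i ∈ I, B i ∈ Base I) (c0 c1 : F4)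
    (h1 : (c0 • rim m A B a 0 + c1 • rim m A B a 1) (a, 1) = 0)
    (h2 : (c0 • rim m A B a 0 + c1 • rim m A B a 1) (a, 2) = 0) :
    c0 = c1 ∧ c0 • rim m A B a 0 + c1 • rim m A B a 1 = c0 • (A a + B a) := by
  rw [GD1_r0 m A B hma, GD1_r1 m A B hma] at h1 h2 ⊢
  have hA1 : (A a) (a, 1) = 0 := hA a ha a ha 1 le_rfl
  have hA2 : (A a) (a, 2) = 0 := hA a ha a ha 2 (by norm_num)
  have hB1 : (B a) (a, 1) = 0 := hB a ha a ha 1 le_rfl
  by_cases hm : 2 = m a
  · rw [if_pos hm] at h1 h2 ⊢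
    simp only [Finsupp.add_apply, Finsupp.smul_apply, GD1_e, hA1, hB1, smul_eq_mul, if_true,
      add_zero, zero_add, mul_one] at h1
    have hc : c0 = c1 := by
      rw [← sub_eq_zero, vsub]
      exact h1
    refine ⟨hc, ?_⟩
    rw [← hc, ← smul_add]
    congr 1
    have h3 := vadd_self (e a 1)
    calc A a + e a 1 + (e a 1 + B a) = A a + (e a 1 + e a 1) + B a := by abel
      _ = A a + B a := by rw [h3, add_zero]
  · rw [if_neg hm] at h1 h2 ⊢
    have e1 : ((a, 2) : ℕ × ℕ) ≠ (a, 1) := by simp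
    have e2 : ((a, 1) : ℕ × ℕ) ≠ (a, 2) := by simp
    simp only [Finsupp.add_apply, Finsupp.smul_apply, GD1_e, hA1, smul_eq_mul, if_true,
      if_neg e1, add_zero, zero_add, mul_one] at h1
    simp only [Finsupp.add_apply, Finsupp.smul_apply, GD1_e, hA2, smul_eq_mul, if_true,
      if_neg e2, add_zero, zero_add, mul_one, mul_zero] at h2
    have hc : c0 = c1 := by
      rw [← sub_eq_zero, vsub]
      exact h1
    have hc0 : c0 = 0 := by rw [hc, h2]
    refine ⟨hc, ?_⟩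
    rw [h2, hc0]
    simp

private theorem GD1_off {I : Finset ℕ} {m : ℕ → ℕ} {A B : ℕ → VV} {a b : ℕ} (hab : a ≠ b)
    (ha : a ∈ I) (hb : b ∈ I)
    (hmb : 2 ≤ m b) (hA : ∀ i ∈ I, A i ∈ Base I) (hB : ∀ i ∈ I, B i ∈ Base I) (c0 c1 : F4)
    {n : ℕ} (hn : 1 ≤ n) :
    (c0 • rim m A B b 0 + c1 • rim m A B b 1) (a, n) = 0 := by
  rw [GD1_r0 m A B hmb, GD1_r1 m A B hmb]
  have hA1 : (A b) (a, n) = 0 := hA b hb a ha n hn
  have hB1 : (B b) (a, n) = 0 := hB b hb a ha n hn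
  have e1 : b ≠ a := hab.symm
  by_cases hm : 2 = m b
  · rw [if_pos hm]
    simp [Finsupp.add_apply, Finsupp.smul_apply, GD1_e, hA1, hB1, e1]
  · rw [if_neg hm]
    simp [Finsupp.add_apply, Finsupp.smul_apply, GD1_e, hA1, e1]

private theorem GD1_rel (h : Two K I m A B C0 A0 a b ψ) (c0 c1 c2 c3 : F4)
    (hc : c0 • rim m A B a 0 + c1 • rim m A B a 1 + c2 • rim m A B b 0 + c3 • rim m A B b 1 ∈ K) :
    c0 = 0 ∧ c1 = 0 ∧ c2 = 0 ∧ c3 = 0 := by
  have hA := h.base.hA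
  have hB := h.base.hB
  have hk := h.base.hK hc
  have hsplit : c0 • rim m A B a 0 + c1 • rim m A B a 1 + c2 • rim m A B b 0 +
      c3 • rim m A B b 1 = (c0 • rim m A B a 0 + c1 • rim m A B a 1) +
      (c2 • rim m A B b 0 + c3 • rim m A B b 1) := by abel
  rw [hsplit] at hk hc
  have ka : ∀ n, 1 ≤ n → (c0 • rim m A B a 0 + c1 • rim m A B a 1) (a, n) = 0 := by
    intro n hn
    have h1 := hk a h.ha n hn
    rw [Finsupp.add_apply, GD1_off h.ne h.ha h.hb h.mb hA hB c2 c3 hn, add_zero] at h1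
    exact h1
  have kb : ∀ n, 1 ≤ n → (c2 • rim m A B b 0 + c3 • rim m A B b 1) (b, n) = 0 := by
    intro n hn
    have h1 := hk b h.hb n hn
    rw [Finsupp.add_apply, GD1_off h.ne.symm h.hb h.ha h.ma hA hB c0 c1 hn, zero_add] at h1
    exact h1
  obtain ⟨ea, fa⟩ := GD1_strand h.ha h.ma hA hB c0 c1 (ka 1 le_rfl) (ka 2 (by norm_num))
  obtain ⟨eb, fb⟩ := GD1_strand h.hb h.mb hA hB c2 c3 (kb 1 le_rfl) (kb 2 (by norm_num))
  rw [fa, fb] at hc
  have hmem : c0 • (A a + B a) + c2 • (A b + B b) ∈ span F4 {A a, B a, A b, B b} := by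
    refine Submodule.add_mem _ (Submodule.smul_mem _ _ (Submodule.add_mem _ ?_ ?_))
      (Submodule.smul_mem _ _ (Submodule.add_mem _ ?_ ?_))
    all_goals
      refine Submodule.subset_span ?_
      simp
  have h0 := h.hZ _ hc hmem
  have h1 : c0 • A a + c0 • B a + c2 • A b + c2 • B b = 0 := by
    rw [← h0, smul_add, smul_add]
    abel
  obtain ⟨g1, g2, _⟩ := h.hI c0 c0 c2 c2 h1
  exact ⟨g1, by rw [← ea, g1], g2, by rw [← eb, g2]⟩

/-- GD1. `R4 ∩ ⟨three of them⟩`...: the four rims are independent modulo `K` and pairwise different.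
(Coordinates `(a, 1)`, `(b, 1)`: a relation `c0 r₀ᵃ + c1 r₁ᵃ + c2 r₀ᵇ + c3 r₁ᵇ ∈ K` gives `c0 = c1`,
`c2 = c3`; if `m a ≥ 3` the coordinate `(a, 2)` gives `c1 = 0`, otherwise `r₀ᵃ + r₁ᵃ = A a + B a`; the rest
is `c0 (A a + B a) + c2 (A b + B b) ∈ K`, use `hZ`, `hI`.) -/
theorem GD1 (h : Two K I m A B C0 A0 a b ψ) :
    FourK K (R4 m A B a b) ∧ (∀ y ∈ R4 m A B a b, ∀ y' ∈ R4 m A B a b, y + y' ∈ K → y = y') ∧
      ∀ y ∈ R4 m A B a b, y ∉ K := by
  have h10 : (1 : F4) ≠ 0 := one_ne_zero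
  refine ⟨⟨![rim m A B a 0, rim m A B a 1, rim m A B b 0, rim m A B b 1], ?_, ?_⟩, ?_, ?_⟩
  · intro j
    fin_cases j <;> simp [R4]
  · intro c hc
    obtain ⟨g0, g1, g2, g3⟩ := GD1_rel h (c 0) (c 1) (c 2) (c 3) (by simpa using hc)
    intro j
    fin_cases j
    · exact g0
    · exact g1
    · exact g2
    · exact g3
  · intro y hy y' hy' hk
    have r := GD1_rel h
    rcases hy with rfl | rfl | rfl | rfl <;> rcases hy' with rfl | rfl | rfl | rfl
    · rfl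
    · exact absurd (r 1 1 0 0 (by simpa using hk)).1 h10
    · exact absurd (r 1 0 1 0 (by simpa using hk)).1 h10
    · exact absurd (r 1 0 0 1 (by simpa using hk)).1 h10
    · exact absurd (r 1 1 0 0 (by simpa [add_comm] using hk)).1 h10
    · rfl
    · exact absurd (r 0 1 1 0 (by simpa using hk)).2.1 h10
    · exact absurd (r 0 1 0 1 (by simpa using hk)).2.1 h10
    · exact absurd (r 1 0 1 0 (by simpa [add_comm] using hk)).1 h10
    · exact absurd (r 0 1 1 0 (by simpa [add_comm] using hk)).2.1 h10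
    · rfl
    · exact absurd (r 0 0 1 1 (by simpa using hk)).2.2.1 h10
    · exact absurd (r 1 0 0 1 (by simpa [add_comm] using hk)).1 h10
    · exact absurd (r 0 1 0 1 (by simpa [add_comm] using hk)).2.1 h10
    · exact absurd (r 0 0 1 1 (by simpa [add_comm] using hk)).2.2.1 h10
    · rfl
  · intro y hy hk
    have r := GD1_rel h
    rcases hy with rfl | rfl | rfl | rfl
    · exact absurd (r 1 0 0 0 (by simpa using hk)).1 h10
    · exact absurd (r 0 1 0 0 (by simpa using hk)).2.1 h10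
    · exact absurd (r 0 0 1 0 (by simpa using hk)).2.2.1 h10
    · exact absurd (r 0 0 0 1 (by simpa using hk)).2.2.2 h10

end QG
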