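import Pool.Agent.Lib.QG.GDefs

/-! MP_2e6874_co, part (A), row GD2. -/

set_option autoImplicit false

namespace QG
open Set Matroid Submodule

variable {K : Submodule F4 VV} {I : Finset ℕ} {m : ℕ → ℕ} {A B : ℕ → VV} {C0 A0 : Set VV}
  {a b : ℕ} {ψ : VV →ₗ[F4] F4}

private theorem GD2_base {x : VV} (hx : x ∈ Base I) {a : ℕ} (ha : a ∈ I) : x (a, 1) = 0 :=
  hx a ha 1 le_rfl

private theorem GD2_e {i n a : ℕ} (h : ¬ (i = a ∧ n = 1)) : (e i n) (a, 1) = 0 := by
  unfold e
  rw [Finsupp.single_apply, if_neg]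
  intro h2
  rw [Prod.mk.injEq] at h2
  exact h h2

private theorem GD2_msu (hA : ∀ i ∈ I, A i ∈ Base I) (hB : ∀ i ∈ I, B i ∈ Base I) {i n a : ℕ}
    (hi : i ∈ I) (ha : a ∈ I) (h : ¬ (i = a ∧ n = 1)) : (msu m A B i n) (a, 1) = 0 := by
  unfold msu
  split_ifs with h1 h2
  · exact GD2_base (hA i hi) ha
  · exact GD2_base (hB i hi) ha
  · exact GD2_e h

private theorem GD2_case1 (hb : MSB K I m A B C0 A0) {a b : ℕ} (ha : a ∈ I) (hbI : b ∈ I)
    (hne : a ≠ b) (hma : 2 ≤ m a) (hmb : 2 ≤ m b) (φ : VV →ₗ[F4] F4)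
    (h0 : φ (rim m A B a 0) ≠ 0) (h1 : φ (rim m A B a 1) ≠ 0) (h2 : φ (rim m A B b 0) ≠ 0)
    (he : φ (e a 1) ≠ 0) :
    ∃ ψ : VV →ₗ[F4] F4, (∀ k ∈ K, ψ k = 0) ∧ (∀ c ∈ MSC I m A B C0, φ c = 0 → ψ c = 0) ∧
      ∃ c₁ ∈ MSC I m A B C0, ∃ c₂ ∈ MSC I m A B C0, φ c₁ * ψ c₂ ≠ φ c₂ * ψ c₁ := by
  refine ⟨Finsupp.lapply (a, 1), ?_, ?_, ?_⟩
  · intro k hk
    rw [Finsupp.lapply_apply]
    exact GD2_base (hb.hK hk) ha
  · intro c hc hφ
    rw [Finsupp.lapply_apply]
    rcases hc with (hc | ⟨i, hi, n, hn, hn2, rfl⟩) | ⟨i, hi, n, hn, rfl⟩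
    · exact GD2_base (hb.hC0 hc) ha
    · refine GD2_e ?_
      rintro ⟨rfl, rfl⟩
      exact he hφ
    · rw [Finsupp.add_apply]
      have hn0 : ¬ (i = a ∧ n = 0) := by
        rintro ⟨rfl, rfl⟩
        exact h0 hφ
      have hn1 : ¬ (i = a ∧ n = 1) := by
        rintro ⟨rfl, rfl⟩
        exact h1 hφ
      rw [GD2_msu hb.hA hb.hB hi ha hn1, GD2_msu hb.hA hb.hB hi ha, add_zero]
      rintro ⟨rfl, h⟩
      exact hn0 ⟨rfl, by omega⟩
  · refine ⟨rim m A B b 0, Or.inr ⟨b, hbI, 0, by omega, rfl⟩, e a 1,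
      Or.inl (Or.inr ⟨a, ha, 1, by omega, by omega, rfl⟩), ?_⟩
    have e1 : (Finsupp.lapply (a, 1) : VV →ₗ[F4] F4) (rim m A B b 0) = 0 := by
      rw [Finsupp.lapply_apply, rim, Finsupp.add_apply, GD2_msu hb.hA hb.hB hbI ha,
        GD2_msu hb.hA hb.hB hbI ha, add_zero]
      · rintro ⟨h, _⟩
        exact hne h.symm
      · rintro ⟨h, _⟩
        exact hne h.symm
    have e2 : (Finsupp.lapply (a, 1) : VV →ₗ[F4] F4) (e a 1) = 1 := by
      rw [Finsupp.lapply_apply, e, Finsupp.single_eq_same]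
    rw [e1, e2, mul_zero, mul_one]
    exact h2

private theorem GD2_one (hma : 2 ≤ m a) : msu m A B a 1 = e a 1 := by
  unfold msu
  rw [if_neg (by decide), if_neg (by omega)]

/-- GD2. `CocK`. Let `φ` be nonzero on `R4`, zero on `K`. If `φ (e a 1) ≠ 0`: `ψ' = ` the coordinate
`(a, 1)` (the points with this coordinate nonzero are `e a 1` and the rims 0, 1 of `a`; `c₁ = ` rim 0
of `b`, `c₂ = e a 1`). Likewise for `b`. If `φ (e a 1) = 0 = φ (e b 1)`, then `φ (A a) ≠ 0`,
`φ (A b) ≠ 0`, `φ (msu a 2) ≠ 0`; take the given `ψ`: a point `x` with `ψ x ≠ 0` is a multiple of `A a` or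
`A b`, or rim 0 of `a` or `b` (check the other points with ψA, ψB, ψe), so `φ x ≠ 0`;
`c₁ = ` rim 1 of `a` (`ψ c₁ = 0`, `φ c₁ ≠ 0`), `c₂ = ` rim 0 of `a` (`ψ c₂ ≠ 0`). -/
theorem GD2 (h : Two K I m A B C0 A0 a b ψ) : CocK K (MSC I m A B C0) (R4 m A B a b) := by
  intro φ hφK hφ
  have ha0 : φ (rim m A B a 0) ≠ 0 := hφ _ (Or.inl rfl)
  have ha1 : φ (rim m A B a 1) ≠ 0 := hφ _ (Or.inr (Or.inl rfl))
  have hb0 : φ (rim m A B b 0) ≠ 0 := hφ _ (Or.inr (Or.inr (Or.inl rfl)))
  have hb1 : φ (rim m A B b 1) ≠ 0 := hφ _ (Or.inr (Or.inr (Or.inr rfl)))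
  have hma := h.ma
  have hmb := h.mb
  by_cases hea : φ (e a 1) = 0
  · by_cases heb : φ (e b 1) = 0
    · -- the given functional
      have hψs : ∀ i ∈ I, ∀ n, 1 ≤ n → ψ (msu m A B i n) = 0 := by
        intro i hi n hn
        unfold msu
        split_ifs with h1 h2
        · omega
        · exact h.ψB i hi
        · exact h.ψe i hi n hn
      have hφA : φ (A a) ≠ 0 := by
        intro h1
        apply ha0
        rw [rim, map_add, GD2_one hma, hea, add_zero]
        exact h1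
      have hφB : φ (A b) ≠ 0 := by
        intro h1
        apply hb0
        rw [rim, map_add, GD2_one hmb, heb, add_zero]
        exact h1
      refine ⟨ψ, h.ψK, ?_, rim m A B a 1, Or.inr ⟨a, h.ha, 1, by omega, rfl⟩, rim m A B a 0,
        Or.inr ⟨a, h.ha, 0, by omega, rfl⟩, ?_⟩
      · intro c hc hφc
        by_contra hψ
        rcases hc with (hc | ⟨i, hi, n, hn, hn2, rfl⟩) | ⟨i, hi, n, hn, rfl⟩
        · rcases h.ψC c hc hψ with ⟨s, rfl⟩ | ⟨s, rfl⟩
          · have hs : s ≠ 0 := by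
              rintro rfl
              rw [zero_smul, map_zero] at hψ
              exact hψ rfl
            rw [map_smul, smul_eq_mul] at hφc
            exact mul_ne_zero hs hφA hφc
          · have hs : s ≠ 0 := by
              rintro rfl
              rw [zero_smul, map_zero] at hψ
              exact hψ rfl
            rw [map_smul, smul_eq_mul] at hφc
            exact mul_ne_zero hs hφB hφc
        · exact hψ (h.ψe i hi n hn)
        · rcases Nat.eq_zero_or_pos n with rfl | hn0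
          · by_cases hia : i = a
            · subst hia
              exact ha0 hφc
            · by_cases hib : i = b
              · subst hib
                exact hb0 hφc
              · apply hψ
                rw [map_add, hψs i hi (0 + 1) (by omega), add_zero]
                exact h.ψA i hi hia hib
          · apply hψ
            rw [map_add, hψs i hi n hn0, hψs i hi (n + 1) (by omega), add_zero]
      · have e1 : ψ (rim m A B a 1) = 0 := by
          rw [rim, map_add, hψs a h.ha 1 le_rfl, hψs a h.ha (1 + 1) (by omega), add_zero]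
        have e2 : ψ (rim m A B a 0) ≠ 0 := by
          rw [rim, map_add, hψs a h.ha (0 + 1) (by omega), add_zero]
          exact h.ψa
        rw [e1, mul_zero]
        exact mul_ne_zero ha1 e2
    · exact GD2_case1 h.base h.hb h.ha h.ne.symm hmb hma φ hb0 hb1 ha0 heb
  · exact GD2_case1 h.base h.ha h.hb h.ne hma hmb φ ha0 ha1 hb0 hea

end QG
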