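import Pool.Agent.Lib.QG.GD1

/-! MP_2e6874_co, part (A), row GD3. -/

set_option autoImplicit false

namespace QG
open Set Matroid Submodule

variable {K : Submodule F4 VV} {I : Finset ℕ} {m : ℕ → ℕ} {A B : ℕ → VV} {C0 A0 : Set VV}
  {a b : ℕ} {ψ : VV →ₗ[F4] F4}

private theorem gd_e (i n j k : ℕ) : e i n (j, k) = if i = j ∧ n = k then 1 else 0 := by
  unfold e
  rw [Finsupp.single_apply]
  simp only [Prod.mk.injEq]

private theorem gd_msu (h : MSB K I m A B C0 A0) {j i n k : ℕ} (hj : j ∈ I) (hi : i ∈ I)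
    (hk : 1 ≤ k) (hne : msu m A B j n (i, k) ≠ 0) :
    j = i ∧ n = k ∧ msu m A B j n = e j n := by
  unfold msu at hne ⊢
  split_ifs at hne ⊢ with h1 h2
  · exact absurd (h.hA j hj i hi k hk) hne
  · exact absurd (h.hB j hj i hi k hk) hne
  · rw [gd_e] at hne
    by_cases h3 : j = i ∧ n = k
    · exact ⟨h3.1, h3.2, rfl⟩
    · rw [if_neg h3] at hne
      exact absurd rfl hne

/-- the points with a nonzero coordinate `(i, 1)` -/
private def Ty (m : ℕ → ℕ) (A B : ℕ → VV) (i : ℕ) (v : VV) : Prop :=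
  v = e i 1 ∨ v = A i + e i 1 ∨ v = e i 1 + msu m A B i 2

private theorem gd_one {i : ℕ} (hm : 2 ≤ m i) : msu m A B i 1 = e i 1 := by
  unfold msu
  rw [if_neg one_ne_zero, if_neg (by omega)]

private theorem gd_zero (m : ℕ → ℕ) (A B : ℕ → VV) (i : ℕ) : msu m A B i 0 = A i := by
  unfold msu
  rw [if_pos rfl]

private theorem gd_ty (h : MSB K I m A B C0 A0) {i : ℕ} (hi : i ∈ I) (hm : 2 ≤ m i) {p : VV}
    (hp : p ∈ MSP I m A B C0 A0) (hne : p (i, 1) ≠ 0) : Ty m A B i p := by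
  rcases hp with ((((hp | ⟨j, hj, n, hn0, hn, rfl⟩) | ⟨j, hj, n, hn, rfl⟩) | hp) | hp)
  · exact absurd (h.hC0 hp i hi 1 le_rfl) hne
  · rw [gd_e] at hne
    by_cases h3 : j = i ∧ n = 1
    · rw [h3.1, h3.2]
      exact Or.inl rfl
    · rw [if_neg h3] at hne
      exact absurd rfl hne
  · rw [Finsupp.add_apply] at hne
    by_cases h1 : msu m A B j n (i, 1) = 0
    · rw [h1, zero_add] at hne
      obtain ⟨k1, k2, _⟩ := gd_msu h hj hi le_rfl hne
      have k3 : n = 0 := by omega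
      subst k1
      subst k3
      right
      left
      rw [gd_zero, zero_add, gd_one hm]
    · obtain ⟨k1, k2, _⟩ := gd_msu h hj hi le_rfl h1
      subst k1
      subst k2
      right
      right
      rw [gd_one hm]
  · exact absurd (h.hA0 hp i hi 1 le_rfl) hne
  · have hp : p = 0 := hp
    rw [hp] at hne
    exact absurd rfl hne

private theorem gd_M (h : MSB K I m A B C0 A0) {i j k : ℕ} (hi : i ∈ I) (hj : j ∈ I) (hk : 1 ≤ k)
    (hne : ¬ (i = j ∧ k = 2 ∧ m i ≠ 2)) : msu m A B i 2 (j, k) = 0 := by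
  by_contra h1
  obtain ⟨k1, k2, k3⟩ := gd_msu h hi hj hk h1
  apply hne
  refine ⟨k1, k2.symm, fun h2 => ?_⟩
  unfold msu at h1
  rw [if_neg two_ne_zero, if_pos h2.symm] at h1
  exact h1 (h.hB i hi j hj k hk)

private theorem gd_other (h : MSB K I m A B C0 A0) {i j : ℕ} (hi : i ∈ I) (hj : j ∈ I)
    (hij : i ≠ j) {v : VV} (hv : Ty m A B i v) : v (j, 1) = 0 := by
  have h1 : e i 1 (j, 1) = 0 := by
    rw [gd_e, if_neg (fun h => hij h.1)]
  rcases hv with rfl | rfl | rfl
  · exact h1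
  · rw [Finsupp.add_apply, h1, h.hA i hi j hj 1 le_rfl, add_zero]
  · rw [Finsupp.add_apply, h1, gd_M h hi hj le_rfl (fun h => hij h.1), add_zero]

private theorem gd_self (h : MSB K I m A B C0 A0) {i : ℕ} (hi : i ∈ I) {v : VV}
    (hv : Ty m A B i v) : v (i, 1) = 1 := by
  have h1 : e i 1 (i, 1) = 1 := by
    rw [gd_e, if_pos ⟨rfl, rfl⟩]
  rcases hv with rfl | rfl | rfl
  · exact h1
  · rw [Finsupp.add_apply, h1, h.hA i hi i hi 1 le_rfl, zero_add]
  · rw [Finsupp.add_apply, h1, gd_M h hi hi le_rfl (fun h => by omega), add_zero]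

private theorem gd_form {i : ℕ} {v : VV} (hv : Ty m A B i v) :
    ∃ s t : F4, v = s • A i + e i 1 + t • msu m A B i 2 ∧ (s = 0 ∨ v = A i + e i 1) := by
  rcases hv with rfl | rfl | rfl
  · exact ⟨0, 0, by simp, Or.inl rfl⟩
  · exact ⟨1, 0, by simp, Or.inr rfl⟩
  · exact ⟨0, 1, by simp, Or.inl rfl⟩

/-- the key computation -/
private theorem gd_key (h : Two K I m A B C0 A0 a b ψ) {x1 x2 x3 x4 x5 x6 : F4}
    (hk : x1 • A a + x2 • e a 1 + x3 • msu m A B a 2 + x4 • A b + x5 • e b 1 +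
      x6 • msu m A B b 2 ∈ K) :
    x1 = 0 ∧ x2 = 0 ∧ x4 = 0 ∧ x5 = 0 ∧ ∃ s2 s4 : F4, x3 • msu m A B a 2 = s2 • B a ∧
      x6 • msu m A B b 2 = s4 • B b ∧ s2 • B a = s4 • B b := by
  have hb := h.base
  have hB := hb.hK hk
  have hab := h.ne
  have E1 : ∀ i ∈ I, ∀ n, 1 ≤ n → x1 * A a (i, n) + x2 * e a 1 (i, n) +
      x3 * msu m A B a 2 (i, n) + x4 * A b (i, n) + x5 * e b 1 (i, n) +
      x6 * msu m A B b 2 (i, n) = 0 := by
    intro i hi n hn
    have h1 := hB i hi n hn
    simpa only [Finsupp.add_apply, Finsupp.smul_apply, smul_eq_mul] using h1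
  have k2 : x2 = 0 := by
    have h1 := E1 a h.ha 1 le_rfl
    rw [hb.hA a h.ha a h.ha 1 le_rfl, hb.hA b h.hb a h.ha 1 le_rfl, gd_e, gd_e,
      if_pos ⟨rfl, rfl⟩, if_neg (fun hh => hab hh.1.symm),
      gd_M hb h.ha h.ha le_rfl (fun hh => by omega),
      gd_M hb h.hb h.ha le_rfl (fun hh => hab hh.1.symm)] at h1
    simpa using h1
  have k5 : x5 = 0 := by
    have h1 := E1 b h.hb 1 le_rfl
    rw [hb.hA a h.ha b h.hb 1 le_rfl, hb.hA b h.hb b h.hb 1 le_rfl, gd_e, gd_e,
      if_neg (fun hh => hab hh.1), if_pos ⟨rfl, rfl⟩,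
      gd_M hb h.ha h.hb le_rfl (fun hh => hab hh.1),
      gd_M hb h.hb h.hb le_rfl (fun hh => by omega)] at h1
    simpa using h1
  have hs2 : ∃ s2 : F4, x3 • msu m A B a 2 = s2 • B a := by
    by_cases hm : m a = 2
    · refine ⟨x3, ?_⟩
      unfold msu
      rw [if_neg two_ne_zero, if_pos hm.symm]
    · refine ⟨0, ?_⟩
      have h1 := E1 a h.ha 2 (by omega)
      have h2 : msu m A B a 2 = e a 2 := by
        unfold msu
        rw [if_neg two_ne_zero, if_neg (fun hh => hm hh.symm)]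
      rw [h2, hb.hA a h.ha a h.ha 2 (by omega), hb.hA b h.hb a h.ha 2 (by omega), gd_e, gd_e,
        gd_e, if_neg (fun hh => by omega), if_pos ⟨rfl, rfl⟩, if_neg (fun hh => by omega),
        gd_M hb h.hb h.ha (by omega) (fun hh => hab hh.1.symm)] at h1
      have h3 : x3 = 0 := by simpa using h1
      rw [h3, zero_smul, zero_smul]
  have hs4 : ∃ s4 : F4, x6 • msu m A B b 2 = s4 • B b := by
    by_cases hm : m b = 2
    · refine ⟨x6, ?_⟩
      unfold msu
      rw [if_neg two_ne_zero, if_pos hm.symm]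
    · refine ⟨0, ?_⟩
      have h1 := E1 b h.hb 2 (by omega)
      have h2 : msu m A B b 2 = e b 2 := by
        unfold msu
        rw [if_neg two_ne_zero, if_neg (fun hh => hm hh.symm)]
      rw [h2, hb.hA a h.ha b h.hb 2 (by omega), hb.hA b h.hb b h.hb 2 (by omega), gd_e, gd_e,
        gd_e, if_neg (fun hh => by omega), if_neg (fun hh => by omega), if_pos ⟨rfl, rfl⟩,
        gd_M hb h.ha h.hb (by omega) (fun hh => hab hh.1)] at h1
      have h3 : x6 = 0 := by simpa using h1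
      rw [h3, zero_smul, zero_smul]
  obtain ⟨s2, hs2⟩ := hs2
  obtain ⟨s4, hs4⟩ := hs4
  have e1 : x1 • A a + x2 • e a 1 + x3 • msu m A B a 2 + x4 • A b + x5 • e b 1 +
      x6 • msu m A B b 2 = x1 • A a + s2 • B a + x4 • A b + s4 • B b := by
    rw [k2, k5, hs2, hs4, zero_smul, zero_smul, add_zero, add_zero]
  rw [e1] at hk
  have m1 : A a ∈ span F4 {A a, B a, A b, B b} := Submodule.subset_span (Or.inl rfl)
  have m2 : B a ∈ span F4 {A a, B a, A b, B b} := Submodule.subset_span (Or.inr (Or.inl rfl))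
  have m3 : A b ∈ span F4 {A a, B a, A b, B b} :=
    Submodule.subset_span (Or.inr (Or.inr (Or.inl rfl)))
  have m4 : B b ∈ span F4 {A a, B a, A b, B b} :=
    Submodule.subset_span (Or.inr (Or.inr (Or.inr rfl)))
  have h0 := h.hZ _ hk (Submodule.add_mem _ (Submodule.add_mem _ (Submodule.add_mem _
    (Submodule.smul_mem _ _ m1) (Submodule.smul_mem _ _ m2)) (Submodule.smul_mem _ _ m3))
    (Submodule.smul_mem _ _ m4))
  obtain ⟨l1, l3, l2⟩ := h.hI _ _ _ _ h0
  exact ⟨l1, k2, l3, k5, s2, s4, hs2, hs4, l2⟩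

/-- one rim of the first strand -/
private theorem gd_main (h : Two K I m A B C0 A0 a b ψ) {q : VV} (hq : q ∉ K)
    (hn : ∀ p ∈ MSP I m A B C0 A0, ∀ s : F4, s ≠ 0 → q + s • p ∉ K) {y p p' : VV}
    (hy : Ty m A B a y) (hp : p ∈ MSP I m A B C0 A0) (hp' : p' ∈ MSP I m A B C0 A0)
    {α β α' β' : F4} (hα : α ≠ 0) (hα' : α' ≠ 0)
    (hr : q + α • y + β • p ∈ K) (hr' : q + α' • (A b + e b 1) + β' • p' ∈ K) :
    ∃ d : F4, q + α • y + d • (A b + e b 1) ∈ K := by
  have hb := h.base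
  have hab := h.ne
  have hy' : Ty m A B b (A b + e b 1) := Or.inr (Or.inl rfl)
  have hk : α • y + β • p + (α' • (A b + e b 1) + β' • p') ∈ K := by
    have h1 := K.add_mem hr hr'
    have e1 : q + α • y + β • p + (q + α' • (A b + e b 1) + β' • p') =
        α • y + β • p + (α' • (A b + e b 1) + β' • p') + (q + q) := by module
    rw [e1, vadd_self, add_zero] at h1
    exact h1
  have ha1 : α + β * p (a, 1) + (0 + β' * p' (a, 1)) = 0 := by
    have h1 := hb.hK hk a h.ha 1 le_rfl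
    have h2 := gd_self hb h.ha hy
    have h3 := gd_other hb h.hb h.ha hab.symm hy'
    rw [Finsupp.add_apply, Finsupp.add_apply, Finsupp.add_apply, Finsupp.smul_apply,
      Finsupp.smul_apply, Finsupp.smul_apply, Finsupp.smul_apply, h2, h3, smul_eq_mul,
      smul_eq_mul, smul_eq_mul, smul_eq_mul, mul_one, mul_zero] at h1
    exact h1
  have hb1 : 0 + β * p (b, 1) + (α' + β' * p' (b, 1)) = 0 := by
    have h1 := hb.hK hk b h.hb 1 le_rfl
    have h2 := gd_self hb h.hb hy'
    have h3 := gd_other hb h.ha h.hb hab hy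
    rw [Finsupp.add_apply, Finsupp.add_apply, Finsupp.add_apply, Finsupp.smul_apply,
      Finsupp.smul_apply, Finsupp.smul_apply, Finsupp.smul_apply, h2, h3, smul_eq_mul,
      smul_eq_mul, smul_eq_mul, smul_eq_mul, mul_one, mul_zero] at h1
    exact h1
  obtain ⟨sy, ty, ey, _⟩ := gd_form hy
  by_cases hpa : p (a, 1) = 0
  · -- crossing
    have hpa' : p' (a, 1) ≠ 0 := by
      intro h0
      rw [hpa, h0] at ha1
      apply hα
      simpa using ha1
    have t' := gd_ty hb h.ha h.ma hp' hpa'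
    have hpb : p (b, 1) ≠ 0 := by
      intro h0
      rw [gd_other hb h.ha h.hb hab t', h0] at hb1
      apply hα'
      simpa using hb1
    have t := gd_ty hb h.hb h.mb hp hpb
    obtain ⟨sp, tp, ep, hsp⟩ := gd_form t
    obtain ⟨sp', tp', ep', _⟩ := gd_form t'
    rcases hsp with hsp | hsp
    · exfalso
      have e1 : α • y + β • p + (α' • (A b + e b 1) + β' • p') =
          (α * sy + β' * sp') • A a + (α + β') • e a 1 + (α * ty + β' * tp') • msu m A B a 2 +
          (α' + β * sp) • A b + (α' + β) • e b 1 + (β * tp) • msu m A B b 2 := by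
        rw [ey, ep, ep']
        module
      rw [e1] at hk
      have h1 := (gd_key h hk).2.2.1
      rw [hsp, mul_zero, add_zero] at h1
      exact hα' h1
    · exact ⟨β, by rw [← hsp]; exact hr⟩
  · exfalso
    have t := gd_ty hb h.ha h.ma hp hpa
    have hpb : p' (b, 1) ≠ 0 := by
      intro h0
      rw [gd_other hb h.ha h.hb hab t, h0] at hb1
      apply hα'
      simpa using hb1
    have t' := gd_ty hb h.hb h.mb hp' hpb
    obtain ⟨sp, tp, ep, _⟩ := gd_form t
    obtain ⟨sp', tp', ep', _⟩ := gd_form t'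
    have e1 : α • y + β • p + (α' • (A b + e b 1) + β' • p') =
        (α * sy + β * sp) • A a + (α + β) • e a 1 + (α * ty + β * tp) • msu m A B a 2 +
        (α' + β' * sp') • A b + (α' + β') • e b 1 + (β' * tp') • msu m A B b 2 := by
      rw [ey, ep, ep']
      module
    rw [e1] at hk
    obtain ⟨l1, l2, l3, l4, s2, s4, m2, m4, m5⟩ := gd_key h hk
    have e2 : α • y + β • p = s2 • B a := by
      have e3 : α • y + β • p =
        (α * sy + β * sp) • A a + (α + β) • e a 1 + (α * ty + β * tp) • msu m A B a 2 := by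
        rw [ey, ep]
        module
      rw [e3, l1, l2, zero_smul, zero_smul, zero_add, zero_add, m2]
    rw [add_assoc, e2] at hr
    have hs2 : s2 ≠ 0 := by
      rintro rfl
      rw [zero_smul, add_zero] at hr
      exact hq hr
    have hex : ∃ s : F4, B a = s • B b := by
      refine ⟨s2⁻¹ * s4, ?_⟩
      rw [mul_smul, ← m5, smul_smul, inv_mul_cancel₀ hs2, one_smul]
    obtain ⟨p0, hp0, s, hs, hBa⟩ := h.hI' hex
    rw [hBa, smul_smul] at hr
    refine hn p0 ?_ _ (mul_ne_zero hs2 hs) hr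
    rcases hp0 with hp0 | hp0
    · exact Or.inl (Or.inl (Or.inl (Or.inl hp0)))
    · exact Or.inl (Or.inr hp0)

/-- GD3. `HelK` with `Q = P = MSP`. Write `x_w` for the coordinate `(a, 1)` resp. `(b, 1)`.
Let `q ∉ K`, for `y ∈ R4`: `q + α_y y + β_y p_y ∈ K`, `p_y ∈ P`. If some `α_y = 0` then `q` is on the line
of `p_y` (`β_y ≠ 0`), done; if some `β_y = 0` (or `p_y = 0`) then `q` is on the line of `y`, done. Assume all
are nonzero and that `q` is not on a line of `P`. Take `y = ` rim 0 or 1 of `a` and `y' = ` rim 0 of `b`: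
`α y + β p + α' y' + β' p' = k ∈ K` (`p = p_y`, `p' = p_{y'}`). The coordinate `(a, 1)` of `y` is 1, the
coordinate of `y'` is 0, so `p` or `p'` has coordinate `(a, 1)` nonzero: it is one of
`e a 1`, rim 0, rim 1 of `a`; likewise the other one (the same vector cannot have both) is one of
`e b 1`, rim 0, rim 1 of `b`. So the left side is in the span of `A a, e a 1, msu a 2, A b, e b 1, msu b 2`;
`k ∈ K ⊆ Base`, so it is in the span of the four ends (if `m a ≥ 3` the coordinate `(a, 2)` vanishes),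
`k = 0` by hZ. Same side: `p` in strand `a`: then `q = α y + β p` (mod `K`)
and `q = α' y' + β' p'` exactly equal as `k = 0`; `α y + β p` is in the span of
`A a, e a 1, msu a 2` and equals `α' y' + β' p'` in the span of `A b, e b 1, msu b 2`: by hI
both are multiples of `B a`, `B b`; by `hI'` `q` is on a line of `C0 ∪ A0` (or zero): contradiction.
Cross: `p` in strand `b`, `p'` in strand `a`: `α y + β' p' = α' y' + β p`, again both sides are multiples of
`B a`, `B b`. The right side: `α' (A b + e b 1) + β p` with `p ∈ {e b 1, rim 0, rim 1}`: the coefficient of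
`A b` is `α' + β` for rim 0 and `α' ≠ 0` otherwise; so `p = ` rim 0 of `b` and `β = α'`, the right side is 0.
So `q` is in `⟨y, rim 0 of b⟩ + K`, for `y = ` rim 0 of `a` and for `y = ` rim 1 of `a`, with all
coefficients nonzero: this contradicts the independence GD1 of the three rims modulo `K`. -/
theorem GD3 (h : Two K I m A B C0 A0 a b ψ) :
    HelK K (MSC I m A B C0) (MSP I m A B C0 A0) (R4 m A B a b) (fun _ => MSP I m A B C0 A0) := by
  have hb := h.base
  intro q _ hq hyp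
  by_contra hcon
  have hn : ∀ p ∈ MSP I m A B C0 A0, ∀ s : F4, s ≠ 0 → q + s • p ∉ K :=
    fun p hp s hs hm => hcon ⟨p, hp, s, hs, hm⟩
  have hrimP : ∀ i ∈ I, ∀ n < m i, rim m A B i n ∈ MSP I m A B C0 A0 := fun i hi n hn =>
    Or.inl (Or.inl (Or.inr ⟨i, hi, n, hn, rfl⟩))
  have h0P : (0 : VV) ∈ MSP I m A B C0 A0 := Or.inr rfl
  have r0 : ∀ i, 2 ≤ m i → rim m A B i 0 = A i + e i 1 := fun i hi => by
    unfold rim
    rw [gd_zero, zero_add, gd_one hi]
  have r1 : ∀ i, 2 ≤ m i → rim m A B i 1 = e i 1 + msu m A B i 2 := fun i hi => by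
    unfold rim
    rw [gd_one hi]
  have get : ∀ y ∈ R4 m A B a b, ∃ p ∈ MSP I m A B C0 A0, ∃ α β : F4, α ≠ 0 ∧
      q + α • y + β • p ∈ K := by
    intro y hy
    obtain ⟨p, hp, α, β, hm⟩ := hyp y hy
    have hp' : p ∈ MSP I m A B C0 A0 := by
      rcases hp with rfl | hp
      · exact h0P
      · exact hp
    refine ⟨p, hp', α, β, ?_, hm⟩
    rintro rfl
    rw [zero_smul, add_zero] at hm
    by_cases hβ : β = 0
    · rw [hβ, zero_smul, add_zero] at hm
      exact hq hm
    · exact hn p hp' β hβ hm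
  obtain ⟨pb, hpb, αb, βb, hαb, hrb⟩ := get (rim m A B b 0) (Or.inr (Or.inr (Or.inl rfl)))
  obtain ⟨p0, hp0, α0, β0, hα0, hr0⟩ := get (rim m A B a 0) (Or.inl rfl)
  obtain ⟨p1, hp1, α1, β1, hα1, hr1⟩ := get (rim m A B a 1) (Or.inr (Or.inl rfl))
  rw [r0 b h.mb] at hrb
  rw [r0 a h.ma] at hr0
  rw [r1 a h.ma] at hr1
  obtain ⟨d0, hd0⟩ := gd_main h hq hn (Or.inr (Or.inl rfl)) hp0 hpb hα0 hαb hr0 hrb
  obtain ⟨d1, hd1⟩ := gd_main h hq hn (Or.inr (Or.inr rfl)) hp1 hpb hα1 hαb hr1 hrb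
  have h1 := K.add_mem hd0 hd1
  have e1 : q + α0 • (A a + e a 1) + d0 • (A b + e b 1) +
      (q + α1 • (e a 1 + msu m A B a 2) + d1 • (A b + e b 1)) =
      α0 • A a + (α0 + α1) • e a 1 + α1 • msu m A B a 2 + (d0 + d1) • A b +
        (d0 + d1) • e b 1 + (0 : F4) • msu m A B b 2 + (q + q) := by module
  rw [e1, vadd_self, add_zero] at h1
  exact hα0 (gd_key h h1).1

end QG
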