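import Pool.Agent.Lib.QG.GD1

/-! MP_2e6874_co, part (A), row GD4. -/

set_option autoImplicit false

namespace QG
open Set Matroid Submodule

variable {K : Submodule F4 VV} {I : Finset ℕ} {m : ℕ → ℕ} {A B : ℕ → VV} {C0 A0 : Set VV}
  {a b : ℕ} {ψ : VV →ₗ[F4] F4}

private theorem GD4_key {K : Submodule F4 VV} {I : Finset ℕ} (hK : K ≤ Base I) {y y' u : VV}
    (hu : u ∈ span F4 ({y, y'} : Set VV))
    (h : ∀ s s' : F4, s • y + s' • y' ∈ Base I → s • y + s' • y' ∈ span F4 ({u} : Set VV))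
    {D : Set VV} (hD : D ⊆ Base I) {x : VV} (hx : x ∈ Base I) :
    x ∈ span F4 ({y, y'} ∪ D) ⊔ K ↔ x ∈ span F4 (insert u D) ⊔ K := by
  constructor
  · intro hm
    obtain ⟨z, hz, k, hk, rfl⟩ := Submodule.mem_sup.1 hm
    rw [Submodule.span_union] at hz
    obtain ⟨w, hw, d, hd, rfl⟩ := Submodule.mem_sup.1 hz
    obtain ⟨s, s', rfl⟩ := Submodule.mem_span_pair.1 hw
    have hdB : d ∈ Base I := (Submodule.span_le.2 hD) hd
    have hkB : k ∈ Base I := hK hk
    have hyB : s • y + s' • y' ∈ Base I := by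
      have := (Base I).sub_mem ((Base I).sub_mem hx hkB) hdB
      have e1 : s • y + s' • y' + d + k - k - d = s • y + s' • y' := by abel
      rwa [e1] at this
    have h1 := h s s' hyB
    refine Submodule.add_mem _ (Submodule.mem_sup_left (Submodule.add_mem _ ?_ ?_))
      (Submodule.mem_sup_right hk)
    · exact Submodule.span_mono (by intro z hz; exact Or.inl hz) h1
    · exact Submodule.span_mono (by intro z hz; exact Or.inr hz) hd
  · intro hm
    have : span F4 (insert u D) ⊔ K ≤ span F4 ({y, y'} ∪ D) ⊔ K := by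
      refine sup_le_sup_right (Submodule.span_le.2 ?_) K
      intro z hz
      rcases hz with rfl | hz
      · exact Submodule.span_mono (by intro z hz; exact Or.inl hz) hu
      · exact Submodule.subset_span (Or.inr hz)
    exact this hm

private theorem GD4_e (i n j k : ℕ) : e i n (j, k) = if i = j ∧ n = k then 1 else 0 := by
  unfold e
  rw [Finsupp.single_apply]
  simp only [Prod.mk.injEq]

private theorem GD4_same (hb : MSB K I m A B C0 A0) {c : ℕ} (hc : c ∈ I) (hm : 2 ≤ m c) :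
    ∃ u : VV, (u = 0 ∨ u = A c + B c) ∧ u ∈ span F4 ({rim m A B c 0, rim m A B c 1} : Set VV) ∧
      ∀ s s' : F4, s • rim m A B c 0 + s' • rim m A B c 1 ∈ Base I →
        s • rim m A B c 0 + s' • rim m A B c 1 ∈ span F4 ({u} : Set VV) := by
  have r0 : rim m A B c 0 = A c + e c 1 := by
    have h1 : (1 : ℕ) ≠ m c := by omega
    simp [rim, msu, h1]
  by_cases h2 : m c = 2
  · have r1 : rim m A B c 1 = e c 1 + B c := by
      simp [rim, msu, h2]
    refine ⟨A c + B c, Or.inr rfl, ?_, ?_⟩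
    · rw [Submodule.mem_span_pair]
      refine ⟨1, 1, ?_⟩
      rw [r0, r1, one_smul, one_smul]
      have : A c + e c 1 + (e c 1 + B c) = A c + B c + (e c 1 + e c 1) := by abel
      rw [this, vadd_self, add_zero]
    · intro s s' hB
      have h1 := hB c hc 1 le_rfl
      have hAc := hb.hA c hc c hc 1 le_rfl
      have hBc := hb.hB c hc c hc 1 le_rfl
      rw [r0, r1] at h1 ⊢
      simp only [Finsupp.add_apply, Finsupp.smul_apply, hAc, hBc, GD4_e, smul_eq_mul] at h1
      simp at h1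
      have hss : s = s' := by
        exact vadd_eq_zero.1 h1
      subst hss
      rw [Submodule.mem_span_singleton]
      refine ⟨s, ?_⟩
      have : s • (A c + e c 1) + s • (e c 1 + B c) = s • (A c + B c) + (s • e c 1 + s • e c 1) := by
        simp only [smul_add]; abel
      rw [this, vadd_self, add_zero]
  · have r1 : rim m A B c 1 = e c 1 + e c 2 := by
      have h1 : (1 : ℕ) ≠ m c := by omega
      have h3 : (2 : ℕ) ≠ m c := by omega
      simp [rim, msu, h1, h3]
    refine ⟨0, Or.inl rfl, Submodule.zero_mem _, ?_⟩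
    intro s s' hB
    have h1 := hB c hc 1 le_rfl
    have h2 := hB c hc 2 (by norm_num)
    have hAc := hb.hA c hc c hc 1 le_rfl
    have hAc2 := hb.hA c hc c hc 2 (by norm_num)
    rw [r0, r1] at h1 h2 ⊢
    simp only [Finsupp.add_apply, Finsupp.smul_apply, hAc, hAc2, GD4_e, smul_eq_mul] at h1 h2
    simp at h1 h2
    subst h2
    have hs : s = 0 := by simpa using h1
    subst hs
    simp

private theorem GD4_coord (hb : MSB K I m A B C0 A0) {c : ℕ} (hc : c ∈ I) (hm : 2 ≤ m c) {j : ℕ}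
    (hj : j < 2) : (rim m A B c j) (c, 1) = 1 := by
  have h1 : (1 : ℕ) ≠ m c := by omega
  have hAc := hb.hA c hc c hc 1 le_rfl
  have hBc := hb.hB c hc c hc 1 le_rfl
  interval_cases j
  · simp [rim, msu, h1, hAc, GD4_e]
  · by_cases h3 : (2 : ℕ) = m c
    · simp [rim, msu, h1, hBc, GD4_e, h3]
    · simp [rim, msu, h1, h3, GD4_e]

private theorem GD4_coord' (hb : MSB K I m A B C0 A0) {c d : ℕ} (hc : c ∈ I) (hd : d ∈ I)
    (hcd : c ≠ d) (j : ℕ) : (rim m A B c j) (d, 1) = 0 := by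
  have hAc := hb.hA c hc d hd 1 le_rfl
  have hBc := hb.hB c hc d hd 1 le_rfl
  have key : ∀ n, msu m A B c n (d, 1) = 0 := by
    intro n
    unfold msu
    split_ifs
    · exact hAc
    · exact hBc
    · rw [GD4_e, if_neg]; intro h; exact hcd h.1
  unfold rim
  rw [Finsupp.add_apply, key, key, add_zero]

private theorem GD4_cross (hb : MSB K I m A B C0 A0) {c d : ℕ} (hc : c ∈ I) (hd : d ∈ I)
    (hcd : c ≠ d) (hmc : 2 ≤ m c) (hmd : 2 ≤ m d) {j k : ℕ} (hj : j < 2) (hk : k < 2) (s s' : F4)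
    (h : s • rim m A B c j + s' • rim m A B d k ∈ Base I) :
    s • rim m A B c j + s' • rim m A B d k ∈ span F4 ({0} : Set VV) := by
  have h1 := h c hc 1 le_rfl
  have h2 := h d hd 1 le_rfl
  simp only [Finsupp.add_apply, Finsupp.smul_apply, GD4_coord hb hc hmc hj,
    GD4_coord hb hd hmd hk, GD4_coord' hb hc hd hcd, GD4_coord' hb hd hc hcd.symm,
    smul_eq_mul, mul_one, mul_zero, add_zero, zero_add] at h1 h2
  subst h1
  subst h2
  simp

private theorem GD4_u (h : Two K I m A B C0 A0 a b ψ) {y y' : VV} (hy : y ∈ R4 m A B a b)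
    (hy' : y' ∈ R4 m A B a b) (hne : y ≠ y') :
    ∃ u ∈ ({0, A a + B a, A b + B b} : Set VV), u ∈ span F4 ({y, y'} : Set VV) ∧
      ∀ s s' : F4, s • y + s' • y' ∈ Base I → s • y + s' • y' ∈ span F4 ({u} : Set VV) := by
  have hb := h.base
  obtain ⟨ua, ha1, ha2, ha3⟩ := GD4_same hb h.ha h.ma
  obtain ⟨ub, hb1, hb2, hb3⟩ := GD4_same hb h.hb h.mb
  have ma : ua ∈ ({0, A a + B a, A b + B b} : Set VV) := by
    rcases ha1 with h | h
    · left; exact h
    · right; left; exact h
  have mb : ub ∈ ({0, A a + B a, A b + B b} : Set VV) := by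
    rcases hb1 with h | h
    · left; exact h
    · right; right; exact h
  have cab := fun j k hj hk => GD4_cross (j := j) (k := k) hb h.ha h.hb h.ne h.ma h.mb hj hk
  have cba := fun j k hj hk => GD4_cross (j := j) (k := k) hb h.hb h.ha h.ne.symm h.mb h.ma hj hk
  have z0 : (0 : VV) ∈ ({0, A a + B a, A b + B b} : Set VV) := Or.inl rfl
  rcases hy with rfl | rfl | rfl | rfl <;> rcases hy' with rfl | rfl | rfl | rfl
  · exact absurd rfl hne
  · exact ⟨ua, ma, ha2, ha3⟩
  · exact ⟨0, z0, Submodule.zero_mem _, cab 0 0 (by norm_num) (by norm_num)⟩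
  · exact ⟨0, z0, Submodule.zero_mem _, cab 0 1 (by norm_num) (by norm_num)⟩
  · refine ⟨ua, ma, by rw [Set.pair_comm]; exact ha2, fun s s' hs => ?_⟩
    rw [add_comm] at hs ⊢
    exact ha3 s' s hs
  · exact absurd rfl hne
  · exact ⟨0, z0, Submodule.zero_mem _, cab 1 0 (by norm_num) (by norm_num)⟩
  · exact ⟨0, z0, Submodule.zero_mem _, cab 1 1 (by norm_num) (by norm_num)⟩
  · exact ⟨0, z0, Submodule.zero_mem _, cba 0 0 (by norm_num) (by norm_num)⟩
  · exact ⟨0, z0, Submodule.zero_mem _, cba 0 1 (by norm_num) (by norm_num)⟩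
  · exact absurd rfl hne
  · exact ⟨ub, mb, hb2, hb3⟩
  · exact ⟨0, z0, Submodule.zero_mem _, cba 1 0 (by norm_num) (by norm_num)⟩
  · exact ⟨0, z0, Submodule.zero_mem _, cba 1 1 (by norm_num) (by norm_num)⟩
  · refine ⟨ub, mb, by rw [Set.pair_comm]; exact hb2, fun s s' hs => ?_⟩
    rw [add_comm] at hs ⊢
    exact hb3 s' s hs
  · exact absurd rfl hne

private theorem GD4_A0 {y y' p : VV} (hp : p ∈ MSP I m A B C0 A0)
    (h : ∀ c ∈ insert 0 (MSC I m A B C0), ∀ s : F4, p + s • c ∉ span F4 {y, y'} ⊔ K) : p ∈ A0 := by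
  rcases hp with (hp | hp) | hp
  · exfalso
    apply h p (Or.inr hp) 1
    rw [one_smul, vadd_self]
    exact Submodule.zero_mem _
  · exact hp
  · exfalso
    have hp' : p = 0 := hp
    apply h 0 (Or.inl rfl) 1
    rw [hp', one_smul, vadd_self]
    exact Submodule.zero_mem _

/-- GD4. `SepK`. `p, p' ∈ MSP` which are not on a line of the points or in `⟨y, y'⟩ + K` are in `A0`.
For `D ⊆ C0`: `p ∈ ⟨y, y', D⟩ + K` iff `p ∈ ⟨u, D⟩ + K`, where `u = A a + B a` if `{y, y'}` are the two rims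
of `a` and `m a = 2`, `u = A b + B b` for `b`, and `u = 0` in all other cases (look at the coordinates
`(a, 1)`, `(b, 1)`, `(a, 2)`, `(b, 2)`). So `hsep` gives `p' ∈ ⟨p, u⟩ + K ⊆ ⟨y, y', p⟩ + K`. -/
theorem GD4 (h : Two K I m A B C0 A0 a b ψ)
    (hsep : ∀ x ∈ A0, ∀ x' ∈ A0, ∀ u ∈ ({0, A a + B a, A b + B b} : Set VV),
      (∀ D, D ⊆ C0 → (x ∈ span F4 (insert u D) ⊔ K ↔ x' ∈ span F4 (insert u D) ⊔ K)) →
      x' ∈ span F4 {x, u} ⊔ K) :
    SepK K (MSC I m A B C0) (R4 m A B a b) (fun _ => MSP I m A B C0 A0) := by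
  intro y hy y' hy' hne p hp p' hp' h1 h2 h3
  have hpA := GD4_A0 hp h1
  have hpA' := GD4_A0 hp' h2
  obtain ⟨u, hu, hu1, hu2⟩ := GD4_u h hy hy' hne
  have hb := h.base
  have h4 := hsep p hpA p' hpA' u hu (by
    intro D hD
    have hDB : D ⊆ Base I := fun x hx => hb.hC0 (hD hx)
    rw [← GD4_key hb.hK hu1 hu2 hDB (hb.hA0 hpA), ← GD4_key hb.hK hu1 hu2 hDB (hb.hA0 hpA')]
    exact h3 D (fun x hx => Or.inl (Or.inl (hD hx))))
  have hle : span F4 {p, u} ⊔ K ≤ span F4 {y, y', p} ⊔ K := by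
    refine sup_le_sup_right (Submodule.span_le.2 ?_) K
    intro z hz
    rcases hz with rfl | hz
    · exact Submodule.subset_span (by simp)
    · have hz' : z = u := hz
      rw [hz']
      refine Submodule.span_mono ?_ hu1
      intro w hw
      rcases hw with rfl | hw
      · simp
      · have hw' : w = y' := hw
        simp [hw']
  exact hle h4

end QG
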