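import Pool.Agent.Lib.QG.GD1
import Pool.Agent.Lib.QG.GD2
import Pool.Agent.Lib.QG.GD3
import Pool.Agent.Lib.QG.GD4
import Pool.Agent.Lib.QG.GB3
import Pool.Agent.Lib.QG.GB4
import Pool.Agent.Lib.QG.GC1

/-! MP_2e6874_co, part (A), row GD5. -/

set_option autoImplicit false

namespace QG
open Set Matroid Submodule

variable {K : Submodule F4 VV} {I : Finset ℕ} {m : ℕ → ℕ} {A B : ℕ → VV} {C0 A0 : Set VV}
  {a b : ℕ} {ψ : VV →ₗ[F4] F4}

/-- GD5 (= T24). TWO STRANDS WITH AT LEAST TWO RIMS (`stepK`, `concK`, GD1 .. GD4, GC1). -/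
theorem GD5 (h : Two K I m A B C0 A0 a b ψ)
    (hsep : ∀ x ∈ A0, ∀ x' ∈ A0, ∀ u ∈ ({0, A a + B a, A b + B b} : Set VV),
      (∀ D, D ⊆ C0 → (x ∈ span F4 (insert u D) ⊔ K ↔ x' ∈ span F4 (insert u D) ⊔ K)) →
      x' ∈ span F4 {x, u} ⊔ K)
    (ha : ∀ j < 2, AK K (MSC I (dec m a) A B (endC m A B C0 a j))
      (MSP I (dec m a) A B (endC m A B C0 a j) A0))
    (hb : ∀ j < 2, AK K (MSC I (dec m b) A B (endC m A B C0 b j))
      (MSP I (dec m b) A B (endC m A B C0 b j) A0)) :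
    AK K (MSC I m A B C0) (MSP I m A B C0 A0) := by
  obtain ⟨h4, hinj, h0⟩ := GD1 h
  have hma := h.ma
  have hmb := h.mb
  have hrim : ∀ c ∈ I, ∀ j < m c, rim m A B c j ∈ MSC I m A B C0 := by
    intro c hc j hj
    exact Or.inr ⟨c, hc, j, hj, rfl⟩
  have hRC : R4 m A B a b ⊆ MSC I m A B C0 := by
    rintro y (rfl | rfl | rfl | rfl)
    · exact hrim a h.ha 0 (by omega)
    · exact hrim a h.ha 1 (by omega)
    · exact hrim b h.hb 0 (by omega)
    · exact hrim b h.hb 1 (by omega)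
  have hQ : ∀ y ∈ R4 m A B a b, ∀ p ∈ MSP I m A B C0 A0, p ∈ span F4 (MSC I m A B C0) ⊔ K := by
    rintro y - p ((hp | hp) | hp)
    · exact Submodule.mem_sup_left (Submodule.subset_span hp)
    · exact h.base.hsp p hp
    · have : p = 0 := hp
      rw [this]; exact Submodule.zero_mem _
  refine stepK (Q := fun _ => MSP I m A B C0 A0) (R := R4 m A B a b) ⟨_, Or.inl rfl⟩ hRC hinj h0 ?_
    hQ ?_ ?_ (GD2 h) (concK hRC hinj h0 hQ h4 (GD4 h hsep) (GD3 h))
  · rintro y (rfl | rfl | rfl | rfl)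
    · exact GC1 h.base h.ha h.ma (by omega) (ha 0 (by norm_num))
    · exact GC1 h.base h.ha h.ma (by omega) (ha 1 (by norm_num))
    · exact GC1 h.base h.hb h.mb (by omega) (hb 0 (by norm_num))
    · exact GC1 h.base h.hb h.mb (by omega) (hb 1 (by norm_num))
  · intro x hx; exact Or.inl (Or.inl hx)
  · exact Or.inr rfl

end QG
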