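import Pool.Agent.Lib.QG.FW
import Pool.Agent.Lib.QG.Api

/-! MP_2e6874_co, part (A): definitions used by the rows G*. -/

set_option autoImplicit false

namespace QG
open Set Matroid Submodule

section W
variable {W : Type} [AddCommGroup W] [Module F4 W]

/-- compatible points are equal modulo `y, y'` -/
def Sep (C R : Set W) (Q : W → Set W) : Prop :=
  ∀ y ∈ R, ∀ y' ∈ R, y ≠ y' → ∀ p ∈ Q y, ∀ p' ∈ Q y',
    (∀ D, D ⊆ C → (p ∈ span F4 ({y, y'} ∪ D) ↔ p' ∈ span F4 ({y, y'} ∪ D))) →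
    span F4 {y, y', p} = span F4 {y, y', p'}

/-- a vector which is in `Q y` modulo `y` for all `y ∈ R` is in `P` -/
def Hel (C P R : Set W) (Q : W → Set W) : Prop :=
  ∀ q ∈ span F4 C, (∀ y ∈ R, ∃ p ∈ Q y, span F4 {y, q} = span F4 {y, p}) →
    ∃ p ∈ P, span F4 {q} = span F4 {p}

end W

def CocK (K : Submodule F4 VV) (C R : Set VV) : Prop :=
  ∀ φ : VV →ₗ[F4] F4, (∀ k ∈ K, φ k = 0) → (∀ y ∈ R, φ y ≠ 0) →
    ∃ ψ : VV →ₗ[F4] F4, (∀ k ∈ K, ψ k = 0) ∧ (∀ c ∈ C, φ c = 0 → ψ c = 0) ∧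
      ∃ c₁ ∈ C, ∃ c₂ ∈ C, φ c₁ * ψ c₂ ≠ φ c₂ * ψ c₁

def SHK (K : Submodule F4 VV) (C P R : Set VV) (Q : VV → Set VV) : Prop :=
  ∀ p : VV → VV, (∀ y ∈ R, p y ∈ Q y) → (∀ y ∈ R, p y ∉ span F4 {y} ⊔ K) →
    (∀ y ∈ R, ∀ y' ∈ R, ∀ D, D ⊆ C →
      (p y ∈ span F4 ({y, y'} ∪ D) ⊔ K ↔ p y' ∈ span F4 ({y, y'} ∪ D) ⊔ K)) →
    ∃ q ∈ P, ∀ y ∈ R, span F4 {y, q} ⊔ K = span F4 {y, p y} ⊔ K

def SepK (K : Submodule F4 VV) (C R : Set VV) (Q : VV → Set VV) : Prop :=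
  ∀ y ∈ R, ∀ y' ∈ R, y ≠ y' → ∀ p ∈ Q y, ∀ p' ∈ Q y',
    (∀ c ∈ insert 0 C, ∀ s : F4, p + s • c ∉ span F4 {y, y'} ⊔ K) →
    (∀ c ∈ insert 0 C, ∀ s : F4, p' + s • c ∉ span F4 {y, y'} ⊔ K) →
    (∀ D, D ⊆ C → (p ∈ span F4 ({y, y'} ∪ D) ⊔ K ↔ p' ∈ span F4 ({y, y'} ∪ D) ⊔ K)) →
    p' ∈ span F4 {y, y', p} ⊔ K

/-- `q` is in the span of `C`; for every `y ∈ R` there is a nonzero multiple `q' = s q` and
`p ∈ Q y` with `q' + p ∈ ⟨y⟩ + K`, or `q ∈ ⟨y⟩ + K` -/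
def HelK (K : Submodule F4 VV) (C P R : Set VV) (Q : VV → Set VV) : Prop :=
  ∀ q ∈ span F4 C ⊔ K, q ∉ K →
    (∀ y ∈ R, ∃ p ∈ insert 0 (Q y), ∃ a b : F4, q + a • y + b • p ∈ K) →
    ∃ p ∈ P, ∃ s : F4, s ≠ 0 ∧ q + s • p ∈ K

/-- four vectors of `R` and functionals which show that they are independent modulo `K` -/
def FourK (K : Submodule F4 VV) (R : Set VV) : Prop :=
  ∃ y : Fin 4 → VV, (∀ j, y j ∈ R) ∧
    ∀ c : Fin 4 → F4, c 0 • y 0 + c 1 • y 1 + c 2 • y 2 + c 3 • y 3 ∈ K → ∀ j, c j = 0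

/-- GB7. Frobenius on `VV` -/
noncomputable def frobV : VV ≃+ VV where
  toFun x := x.mapRange F4.frob rfl
  invFun x := x.mapRange F4.frob rfl
  left_inv x := by ext k; simp [F4.frob_frob]
  right_inv x := by ext k; simp [F4.frob_frob]
  map_add' x y := by ext k; simp [F4.frob_add]

theorem frobV_apply (x : VV) (k : ℕ × ℕ) : frobV x k = F4.frob (x k) := rfl

/-- common hypotheses: everything is in the base (strands with `m i = 0` are allowed, they have no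
points) -/
structure MSB (K : Submodule F4 VV) (I : Finset ℕ) (m : ℕ → ℕ) (A B : ℕ → VV) (C0 A0 : Set VV) :
    Prop where
  hK : K ≤ Base I
  hA : ∀ i ∈ I, A i ∈ Base I
  hB : ∀ i ∈ I, B i ∈ Base I
  hC0 : C0 ⊆ Base I
  hA0 : A0 ⊆ Base I
  hsp : ∀ x ∈ A0, x ∈ span F4 (MSC I m A B C0) ⊔ K

/-- one rim less in strand `i` -/
def dec (m : ℕ → ℕ) (i : ℕ) : ℕ → ℕ := Function.update m i (m i - 1)

/-- the base points after the contraction of rim `j` of strand `i`: the end of the strand becomes a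
point if the first or the last rim is contracted -/
def endC (m : ℕ → ℕ) (A B : ℕ → VV) (C0 : Set VV) (i j : ℕ) : Set VV :=
  C0 ∪ {x | j = 0 ∧ x = A i} ∪ {x | j + 1 = m i ∧ x = B i}

/-- rim number `j` of strand `i` -/
noncomputable def rim (m : ℕ → ℕ) (A B : ℕ → VV) (i j : ℕ) : VV :=
  msu m A B i j + msu m A B i (j + 1)

/-- the set `P` of a strand configuration -/
noncomputable def MSP (I : Finset ℕ) (m : ℕ → ℕ) (A B : ℕ → VV) (C0 A0 : Set VV) : Set VV :=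
  MSC I m A B C0 ∪ A0 ∪ {0}

/-- `a - w1 - w2 - b` is a piece of a strand; `D0` are the other points; `A0` the additional vectors.
`φ1`, `φ2` are the coordinates of `w1`, `w2`. -/
structure Piece (K : Submodule F4 VV) (a b w1 w2 : VV) (D0 A0 : Set VV) (φ1 φ2 : VV →ₗ[F4] F4) :
    Prop where
  h11 : φ1 w1 = 1
  h12 : φ1 w2 = 0
  h21 : φ2 w1 = 0
  h22 : φ2 w2 = 1
  ha : φ1 a = 0 ∧ φ2 a = 0
  hb : φ1 b = 0 ∧ φ2 b = 0
  hK : ∀ k ∈ K, φ1 k = 0 ∧ φ2 k = 0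
  hD : ∀ x ∈ D0 ∪ A0, φ1 x = 0 ∧ φ2 x = 0
  hab : ∀ s s' : F4, s • a + s' • b ∈ K → s = 0 ∧ s' = 0
  hab' : ∀ x ∈ D0 ∪ A0, ∀ s : F4, a + b + s • x ∉ K

/-- the points of a piece -/
def pieceC (a b w1 w2 : VV) (D0 : Set VV) : Set VV := D0 ∪ {w1, w2, a + w1, w1 + w2, w2 + b}

/-- hypotheses of the theorem on two strands `a`, `b` with at least two rims -/
structure Two (K : Submodule F4 VV) (I : Finset ℕ) (m : ℕ → ℕ) (A B : ℕ → VV) (C0 A0 : Set VV)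
    (a b : ℕ) (ψ : VV →ₗ[F4] F4) : Prop where
  base : MSB K I m A B C0 A0
  ha : a ∈ I
  hb : b ∈ I
  ne : a ≠ b
  ma : 2 ≤ m a
  mb : 2 ≤ m b
  /-- `K` meets the span of the four ends in `0` -/
  hZ : ∀ k ∈ K, k ∈ span F4 {A a, B a, A b, B b} → k = 0
  /-- the only possible relation between the four ends is between `B a` and `B b` -/
  hI : ∀ s₁ s₂ s₃ s₄ : F4, s₁ • A a + s₂ • B a + s₃ • A b + s₄ • B b = 0 →
    s₁ = 0 ∧ s₃ = 0 ∧ s₂ • B a = s₄ • B b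
  hBa : B a ≠ 0
  hBb : B b ≠ 0
  /-- if there is such a relation, `B a` is on a line of `C0 ∪ A0` -/
  hI' : (∃ s : F4, B a = s • B b) → ∃ p ∈ C0 ∪ A0, ∃ s : F4, s ≠ 0 ∧ B a = s • p
  /-- a functional: the sum of the coordinates of `A a` and `A b` -/
  ψK : ∀ k ∈ K, ψ k = 0
  ψa : ψ (A a) ≠ 0
  ψb : ψ (A b) ≠ 0
  ψB : ∀ j ∈ I, ψ (B j) = 0
  ψA : ∀ j ∈ I, j ≠ a → j ≠ b → ψ (A j) = 0
  ψe : ∀ j ∈ I, ∀ n, 1 ≤ n → ψ (e j n) = 0
  ψC : ∀ x ∈ C0, ψ x ≠ 0 → (∃ s : F4, x = s • A a) ∨ (∃ s : F4, x = s • A b)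

/-- the four rims -/
def R4 (m : ℕ → ℕ) (A B : ℕ → VV) (a b : ℕ) : Set VV :=
  {rim m A B a 0, rim m A B a 1, rim m A B b 0, rim m A B b 1}

/-- the set `R` for the case that `c` is a point: `c`, two points `y₁, y₂` of leg `i`, one point `x` of
leg `j ≠ i` -/
structure RC (g : F4) (I : Finset ℕ) (l : ℕ → ℕ) (i j : ℕ) (y₁ y₂ x : VV) : Prop where
  hi : i ∈ I
  hj : j ∈ I
  ne : i ≠ j
  hy : (l i = 1 ∧ y₁ = e i 0 ∧ y₂ = e i 0 + g • e 0 0) ∨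
    (2 ≤ l i ∧ y₁ = rim l (fun i => e i 0) (fun _ => g • e 0 0) i 0 ∧
      y₂ = rim l (fun i => e i 0) (fun _ => g • e 0 0) i 1)
  hx : (l j = 1 ∧ x = e j 0) ∨ (2 ≤ l j ∧ x = rim l (fun i => e i 0) (fun _ => g • e 0 0) j 0)

/-- the vectors `Q y`, `y ≠ c` -/
noncomputable def DeQ (g : F4) (a : Bool) (I : Finset ℕ) (l : ℕ → ℕ) (i : ℕ) : Set VV :=
  DeP g a true I l ∪ {x | l i = 2 ∧ x = Dec I + e i 0 + g • e 0 0}

/-- the set `R`: all rims but the last -/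
def WhR (r : ℕ) : Set VV := {x | ∃ n, n + 1 < r ∧ x = Whr r n}

/-- GF4. coordinates with respect to the rims. The rims are a basis of the span of the `e 0 n`, `n < r`
(`(1 + ω) e 0 0 = Σ_{n < r} Whr r n`). There are functionals `ρ n` (`n < r`) on `VV` with
`ρ n (Whr r k) = 1` if `n = k` and `0` otherwise for `k < r`. Explicitly `ρ n (e 0 a) = ω` for `a ≤ n`
and `ω²` for `n < a < r`  (then `ρ n (Whr r k) = ρ n (e 0 k) + ρ n (e 0 (k+1))` is `0` for `k ≠ n`, `k + 1 < r`;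
it is `ω + ω² = 1` for `k = n`; for the last rim: `k = r - 1`: `ρ n (e 0 (r-1)) + ω ρ n (e 0 0) =`
`ω² + ω ω = 0` for `n < r - 1` and `ω + ω ω = 1` for `n = r - 1`). -/
noncomputable def rho (r n : ℕ) : VV →ₗ[F4] F4 :=
  Finsupp.lift F4 F4 (ℕ × ℕ)
    (fun k => if k.1 = 0 ∧ k.2 < r then (if k.2 ≤ n then F4.w else F4.v) else 0)

end QG
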