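import Pool.Agent.Lib.QG.GB2

/-! MP_2e6874_co, part (A), row GE1. -/

set_option autoImplicit false

namespace QG
open Set Matroid Submodule

private theorem GE1_e (i n k l : ℕ) : e i n (k, l) = if i = k ∧ n = l then 1 else 0 := by
  unfold e
  rw [Finsupp.single_apply]
  by_cases h : i = k ∧ n = l
  · rw [if_pos h, if_pos]
    rw [h.1, h.2]
  · rw [if_neg h, if_neg]
    intro h'
    rw [Prod.mk.injEq] at h'
    exact h h'

/-- the map which sends `e i 0` to `0` -/
private noncomputable def GE1_Phi (i : ℕ) : VV →ₗ[F4] VV :=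
  LinearMap.id + (Finsupp.lapply (i, 0) : VV →ₗ[F4] F4).smulRight (e i 0)

private theorem GE1_Phi_apply (i : ℕ) (x : VV) : GE1_Phi i x = x + x (i, 0) • e i 0 := rfl

private theorem GE1_Phi_fix {i : ℕ} {x : VV} (h : x (i, 0) = 0) : GE1_Phi i x = x := by
  rw [GE1_Phi_apply, h, zero_smul, add_zero]

private theorem GE1_Phi_self (i : ℕ) : GE1_Phi i (e i 0) = 0 := by
  rw [GE1_Phi_apply, GE1_e, if_pos ⟨rfl, rfl⟩, one_smul, vadd_self]

private theorem GE1_msu {g : F4} {l : ℕ → ℕ} {i j n : ℕ} (h : j ≠ i) (hi : i ≠ 0) :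
    msu l (fun i => e i 0) (fun _ => g • e 0 0) j n (i, 0) = 0 := by
  unfold msu
  split_ifs with h1 h2
  · rw [GE1_e, if_neg (by omega)]
  · rw [Finsupp.smul_apply, GE1_e, if_neg (by omega), smul_zero]
  · rw [GE1_e, if_neg (by omega)]

private theorem GE1_Ln {K : Submodule F4 VV} {S S' : Set VV}
    (h : ∀ c ∈ S, ∃ c' ∈ S', ∃ t : F4, c = t • c') : LnK K S ⊆ LnK K S' := by
  rintro y ⟨hy, c, hc, s, hs⟩
  obtain ⟨c', hc', t, rfl⟩ := h c hc
  refine ⟨hy, c', hc', s * t, ?_⟩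
  rw [mul_smul]
  exact hs

private theorem GE1_Dec {I : Finset ℕ} {i : ℕ} (hi : i ∈ I) : Dec I = Dec (I.erase i) + e i 0 := by
  unfold Dec
  rw [← Finset.sum_erase_add I _ hi, add_assoc]

private theorem GE1_Dec_c {I : Finset ℕ} {i : ℕ} (hi : i ∉ I) (h0 : i ≠ 0) : Dec I (i, 0) = 0 := by
  unfold Dec
  rw [Finsupp.add_apply, GE1_e, if_neg (by omega), zero_add, Finsupp.finsetSum_apply]
  refine Finset.sum_eq_zero fun j hj => ?_
  rw [GE1_e, if_neg]
  rintro ⟨rfl, -⟩
  exact hi hj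

private theorem GE1_Dec_0 {I : Finset ℕ} (h0 : 0 ∉ I) : Dec I (0, 0) = 1 := by
  unfold Dec
  rw [Finsupp.add_apply, GE1_e, if_pos ⟨rfl, rfl⟩, Finsupp.finsetSum_apply, Finset.sum_eq_zero,
    add_zero]
  intro j hj
  rw [GE1_e, if_neg]
  rintro ⟨rfl, -⟩
  exact h0 hj

/-- GE1. contraction of `z_i` when `l i = 1`: the leg `i` disappears, `r_i = z_i + g t` becomes `t`.
`CK.of_contract` with `Φ (e i 0) = 0`, identity on the other `e k n`, `Θ = id`.
`Φ (Dec I) = Dec (I.erase i)`. Lifts of `DeP`: the same expressions with `Dec I`. -/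
theorem GE1 {g : F4} (hg : g = F4.w ∨ g = F4.v) {a b : Bool} {I : Finset ℕ} {l : ℕ → ℕ}
    (h0 : 0 ∉ I) (h2 : 2 ≤ I.card) {i : ℕ} (hi : i ∈ I) (hl : l i = 1)
    (h : AK (DeK b (I.erase i)) (DeC g true b (I.erase i) l) (DeP g true b (I.erase i) l)) :
    CK (DeK b I) (DeC g a b I l) (e i 0) (DeP g a b I l) := by
  have hi0 : i ≠ 0 := by
    rintro rfl
    exact h0 hi
  have hg0 : g ≠ 0 := by
    rcases hg with rfl | rfl <;> decide
  have hdec : GE1_Phi i (Dec I) = Dec (I.erase i) := by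
    rw [GE1_Dec hi, map_add, GE1_Phi_self, add_zero]
    exact GE1_Phi_fix (GE1_Dec_c (Finset.notMem_erase i I) hi0)
  have he : ∀ {j n : ℕ}, j ≠ i → GE1_Phi i (e j n) = e j n := fun {j n} hj =>
    GE1_Phi_fix (by rw [GE1_e, if_neg (by omega)])
  have he0 : ∀ s : F4, GE1_Phi i (s • e 0 0) = s • e 0 0 := fun s => by
    rw [map_smul, he hi0.symm]
  have hmsu : ∀ {j n : ℕ}, j ≠ i → GE1_Phi i (msu l (fun i => e i 0) (fun _ => g • e 0 0) j n) =
      msu l (fun i => e i 0) (fun _ => g • e 0 0) j n := fun {j n} hj =>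
    GE1_Phi_fix (GE1_msu hj hi0)
  have hr : msu l (fun i => e i 0) (fun _ => g • e 0 0) i 0 +
      msu l (fun i => e i 0) (fun _ => g • e 0 0) i (0 + 1) = e i 0 + g • e 0 0 := by
    unfold msu
    rw [if_pos rfl, if_neg (by omega), if_pos (by omega)]
  have hlift : ∀ c' ∈ DeC g true b (I.erase i) l, c' = e 0 0 ∨
      ∃ c ∈ DeC g a b I l, GE1_Phi i c = c' := by
    rintro c' (((((⟨j, hj, rfl⟩) | ⟨-, hc⟩) | ⟨hb, hc⟩) | ⟨j, hj, n, g0, g1, rfl⟩) |
      ⟨j, hj, n, g1, rfl⟩)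
    · right
      exact ⟨e j 0, Or.inl (Or.inl (Or.inl (Or.inl ⟨j, Finset.mem_of_mem_erase hj, rfl⟩))),
        he (Finset.ne_of_mem_erase hj)⟩
    · left
      exact hc
    · right
      refine ⟨Dec I, Or.inl (Or.inl (Or.inr ⟨hb, rfl⟩)), ?_⟩
      rw [hdec]
      exact hc.symm
    · right
      exact ⟨e j n, Or.inl (Or.inr ⟨j, Finset.mem_of_mem_erase hj, n, g0, g1, rfl⟩),
        he (Finset.ne_of_mem_erase hj)⟩
    · right
      refine ⟨_, Or.inr ⟨j, Finset.mem_of_mem_erase hj, n, g1, rfl⟩, ?_⟩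
      rw [map_add, hmsu (Finset.ne_of_mem_erase hj), hmsu (Finset.ne_of_mem_erase hj)]
  have h00 : e 0 0 ∈ DeC g true b (I.erase i) l := Or.inl (Or.inl (Or.inl (Or.inr ⟨rfl, rfl⟩)))
  refine CK.of_contract (GE1_Phi i) LinearMap.id ?_ ?_ ?_ ?_ ?_ ?_ ?_ h
  · intro hx
    unfold DeK at hx
    have hne : e i 0 ≠ 0 := by
      intro hz
      have := DFunLike.congr_fun hz (i, 0)
      rw [GE1_e, if_pos ⟨rfl, rfl⟩] at this
      exact one_ne_zero this
    cases b with
    | true =>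
      have : bs (!true) {Dec I} = ∅ := by
        ext x
        simp [bs]
      rw [this, span_empty] at hx
      exact hne ((mem_bot F4).1 hx)
    | false =>
      have : bs (!false) {Dec I} = {Dec I} := by
        ext x
        simp [bs]
      rw [this] at hx
      obtain ⟨s, hs⟩ := mem_span_singleton.1 hx
      have h3 := DFunLike.congr_fun hs (0, 0)
      rw [Finsupp.smul_apply, GE1_Dec_0 h0, GE1_e, if_neg (by omega), smul_eq_mul, mul_one] at h3
      rw [h3, zero_smul] at hs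
      exact hne hs.symm
  · rw [GE1_Phi_self]
    exact zero_mem _
  · intro k hk
    have hle : DeK b I ≤ (DeK b (I.erase i)).comap (GE1_Phi i) := by
      unfold DeK
      rw [span_le]
      rintro x ⟨hb, hx⟩
      rw [mem_singleton_iff] at hx
      subst hx
      rw [SetLike.mem_coe, Submodule.mem_comap, hdec]
      exact subset_span ⟨hb, rfl⟩
    exact hle hk
  · intro k hk
    have hle : DeK b (I.erase i) ≤ DeK b I ⊔ span F4 {e i 0} := by
      unfold DeK
      rw [span_le]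
      rintro x ⟨hb, hx⟩
      rw [mem_singleton_iff] at hx
      subst hx
      have : Dec (I.erase i) = Dec I + e i 0 := by
        rw [GE1_Dec hi, add_assoc, vadd_self, add_zero]
      rw [this]
      exact add_mem (mem_sup_left (subset_span ⟨hb, rfl⟩))
        (mem_sup_right (mem_span_singleton_self _))
    exact hle hk
  · intro z _
    rw [LinearMap.id_apply, GE1_Phi_apply, ← add_assoc, vadd_self, zero_add]
    exact mem_sup_right (smul_mem _ _ (mem_span_singleton_self _))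
  · apply Subset.antisymm
    · refine GE1_Ln ?_
      rintro _ ⟨c, hc, rfl⟩
      rcases hc with ((((⟨j, hj, rfl⟩) | ⟨ha, hc⟩) | ⟨hb, hc⟩) | ⟨j, hj, n, g0, g1, rfl⟩) |
        ⟨j, hj, n, g1, rfl⟩
      · by_cases hji : j = i
        · subst hji
          rw [GE1_Phi_self]
          exact ⟨e 0 0, h00, 0, by rw [zero_smul]⟩
        · rw [he hji]
          exact ⟨e j 0, Or.inl (Or.inl (Or.inl (Or.inl ⟨j, Finset.mem_erase.2 ⟨hji, hj⟩, rfl⟩))),
            1, by rw [one_smul]⟩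
      · rw [mem_singleton_iff] at hc
        subst hc
        rw [he hi0.symm]
        exact ⟨e 0 0, h00, 1, by rw [one_smul]⟩
      · rw [mem_singleton_iff] at hc
        subst hc
        rw [hdec]
        exact ⟨Dec (I.erase i), Or.inl (Or.inl (Or.inr ⟨hb, rfl⟩)), 1, by rw [one_smul]⟩
      · have hji : j ≠ i := by
          rintro rfl
          omega
        rw [he hji]
        exact ⟨e j n, Or.inl (Or.inr ⟨j, Finset.mem_erase.2 ⟨hji, hj⟩, n, g0, g1, rfl⟩),
          1, by rw [one_smul]⟩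
      · by_cases hji : j = i
        · subst hji
          have hn : n = 0 := by omega
          subst hn
          rw [hr, map_add, GE1_Phi_self, zero_add, he0]
          exact ⟨e 0 0, h00, g, rfl⟩
        · rw [map_add, hmsu hji, hmsu hji]
          exact ⟨_, Or.inr ⟨j, Finset.mem_erase.2 ⟨hji, hj⟩, n, g1, rfl⟩,
            1, by rw [one_smul]⟩
    · refine GE1_Ln fun c' hc' => ?_
      rcases hlift c' hc' with rfl | ⟨c, hc, rfl⟩
      · refine ⟨_, ⟨e i 0 + g • e 0 0, Or.inr ⟨i, hi, 0, by omega, hr.symm⟩, rfl⟩, g⁻¹, ?_⟩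
        rw [map_add, GE1_Phi_self, zero_add, he0, smul_smul, inv_mul_cancel₀ hg0, one_smul]
      · exact ⟨_, ⟨c, hc, rfl⟩, 1, by rw [one_smul]⟩
  · have key : ∀ p' ∈ DeP g true b (I.erase i) l, ∃ p ∈ DeP g a b I l, GE1_Phi i p = p' := by
      rintro p' ((hp | hp) | ⟨hb, hp⟩)
      · rcases hlift p' hp with rfl | ⟨c, hc, rfl⟩
        · exact ⟨e 0 0, Or.inl (Or.inr (Or.inl rfl)), he hi0.symm⟩
        · exact ⟨c, Or.inl (Or.inl hc), rfl⟩
      · rcases hp with rfl | hp
        · exact ⟨e 0 0, Or.inl (Or.inr (Or.inl rfl)), he hi0.symm⟩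
        · rw [mem_singleton_iff] at hp
          subst hp
          exact ⟨0, Or.inl (Or.inr (Or.inr rfl)), map_zero _⟩
      · rcases hp with (⟨j, hj, rfl⟩ | hp) | ⟨j, hj, hlj, rfl⟩
        · refine ⟨Dec I + e j 0, Or.inr ⟨hb, Or.inl (Or.inl
            ⟨j, Finset.mem_of_mem_erase hj, rfl⟩)⟩, ?_⟩
          rw [map_add, hdec, he (Finset.ne_of_mem_erase hj)]
        · rw [mem_singleton_iff] at hp
          subst hp
          refine ⟨Dec I + g • e 0 0, Or.inr ⟨hb, Or.inl (Or.inr rfl)⟩, ?_⟩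
          rw [map_add, hdec, he0]
        · refine ⟨Dec I + e j 0 + g • e 0 0, Or.inr ⟨hb, Or.inr
            ⟨j, Finset.mem_of_mem_erase hj, hlj, rfl⟩⟩, ?_⟩
          rw [map_add, map_add, hdec, he (Finset.ne_of_mem_erase hj), he0]
    intro p' hp'
    obtain ⟨p, hp, rfl⟩ := key p' hp'
    exact ⟨p, hp, 1, one_ne_zero, by rw [one_smul, vadd_self]; exact zero_mem _⟩

end QG
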