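import Pool.Agent.Lib.QG.GB2

/-! MP_2e6874_co, part (A), row GE2. -/

set_option autoImplicit false

namespace QG
open Set Matroid Submodule

private theorem GE2_LnK_sub {K : Submodule F4 VV} {C C' : Set VV}
    (h : ∀ c ∈ C, c ∈ K ∨ ∃ c' ∈ C', ∃ t : F4, c + t • c' ∈ K) : LnK K C ⊆ LnK K C' := by
  rintro y ⟨hy, c, hc, s, hs⟩
  rcases h c hc with hk | ⟨c', hc', t, ht⟩
  · exfalso
    apply hy
    have := K.sub_mem hs (K.smul_mem s hk)
    rwa [add_sub_cancel_right] at this
  · refine ⟨hy, c', hc', s * t, ?_⟩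
    have h1 := K.sub_mem hs (K.smul_mem s ht)
    have h2 : y + s • c - s • (c + t • c') = y + (s * t) • c' := by
      rw [vsub, smul_add, smul_smul]
      calc y + s • c + (s • c + (s * t) • c') = y + (s • c + s • c) + (s * t) • c' := by abel
        _ = y + (s * t) • c' := by rw [vadd_self, add_zero]
    rwa [h2] at h1

/-- the map `Φ` -/
private noncomputable def GE2_Phi (g : F4) (i : ℕ) : VV →ₗ[F4] VV :=
  Finsupp.linearCombination F4 (fun k : ℕ × ℕ =>
    if k = (0, 0) then g • e 0 0 else if k = (i, 0) then (g * g) • e 0 0 else e k.1 k.2)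

/-- the map `Θ` -/
private noncomputable def GE2_Theta (g : F4) : VV →ₗ[F4] VV :=
  Finsupp.linearCombination F4 (fun k : ℕ × ℕ =>
    if k = (0, 0) then (g * g) • e 0 0 else e k.1 k.2)

private theorem GE2_Phi_e (g : F4) (i k n : ℕ) : GE2_Phi g i (e k n) =
    if (k, n) = (0, 0) then g • e 0 0 else if (k, n) = (i, 0) then (g * g) • e 0 0 else e k n := by
  unfold GE2_Phi e
  rw [Finsupp.linearCombination_single, one_smul]

private theorem GE2_Theta_e (g : F4) (k n : ℕ) : GE2_Theta g (e k n) =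
    if (k, n) = (0, 0) then (g * g) • e 0 0 else e k n := by
  unfold GE2_Theta e
  rw [Finsupp.linearCombination_single, one_smul]

private theorem GE2_e_apply (k n k' n' : ℕ) :
    e k n (k', n') = if k = k' ∧ n = n' then 1 else 0 := by
  unfold e
  rw [Finsupp.single_apply]
  simp [Prod.ext_iff]

private theorem GE2_Dec_00 {I : Finset ℕ} (h0 : 0 ∉ I) : Dec I (0, 0) = 1 := by
  unfold Dec
  rw [Finsupp.add_apply, Finsupp.finsetSum_apply, Finset.sum_eq_zero]
  · simp [e]
  · intro i hi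
    have : i ≠ 0 := fun h => h0 (h ▸ hi)
    simp [e, this]

private theorem GE2_Dec_j0 {I : Finset ℕ} (h0 : 0 ∉ I) {j : ℕ} (hj : j ∈ I) : Dec I (j, 0) = 1 := by
  unfold Dec
  have hj0 : j ≠ 0 := fun h => h0 (h ▸ hj)
  rw [Finsupp.add_apply, Finsupp.finsetSum_apply, Finset.sum_eq_single j]
  · rw [GE2_e_apply, GE2_e_apply, if_neg, if_pos ⟨rfl, rfl⟩, zero_add]
    intro h
    exact hj0 h.1.symm
  · intro b _ hb
    rw [GE2_e_apply, if_neg]
    intro h
    exact hb h.1
  · intro h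
    exact absurd hj h

private theorem GE2_Dec_erase {I : Finset ℕ} {i : ℕ} (hi : i ∈ I) :
    Dec I = Dec (I.erase i) + e i 0 := by
  unfold Dec
  rw [← Finset.add_sum_erase I _ hi]
  abel

private theorem GE2_fix (g : F4) (hg : g = F4.w ∨ g = F4.v) {i : ℕ} (hi0 : i ≠ 0) (z : VV) :
    z + GE2_Theta g (GE2_Phi g i z) ∈ span F4 {e i 0 + g • e 0 0} := by
  induction z using Finsupp.induction_linear with
  | zero => rw [map_zero, map_zero, add_zero]; exact zero_mem _
  | add x y hx hy =>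
    rw [map_add, map_add]
    have := add_mem hx hy
    have h2 : x + GE2_Theta g (GE2_Phi g i x) + (y + GE2_Theta g (GE2_Phi g i y)) =
      x + y + (GE2_Theta g (GE2_Phi g i x) + GE2_Theta g (GE2_Phi g i y)) := by abel
    rwa [h2] at this
  | single k s =>
    obtain ⟨k, n⟩ := k
    have h1 : Finsupp.single (k, n) s = s • e k n := by
      unfold e
      rw [Finsupp.smul_single, smul_eq_mul, mul_one]
    rw [h1, map_smul, map_smul, ← smul_add]
    refine smul_mem _ s ?_
    rw [GE2_Phi_e]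
    split_ifs with h2 h3
    · rw [map_smul, GE2_Theta_e, if_pos rfl, smul_smul]
      obtain ⟨rfl, rfl⟩ := Prod.mk.inj h2
      have : g * (g * g) = 1 := by rcases hg with rfl | rfl <;> decide
      rw [this, one_smul, vadd_self]
      exact zero_mem _
    · rw [map_smul, GE2_Theta_e, if_pos rfl, smul_smul]
      obtain ⟨rfl, rfl⟩ := Prod.mk.inj h3
      have : g * g * (g * g) = g := by rcases hg with rfl | rfl <;> decide
      rw [this]
      exact mem_span_singleton_self _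
    · rw [GE2_Theta_e, if_neg h2, vadd_self]
      exact zero_mem _

private theorem GE2_K (b : Bool) (I : Finset ℕ) (x : VV) :
    x ∈ DeK b I ↔ ∃ s : F4, (b = true → s = 0) ∧ x = s • Dec I := by
  unfold DeK
  cases b with
  | true =>
    have : bs (!true) {Dec I} = (∅ : Set VV) := by
      ext x; simp [bs]
    rw [this, span_empty, Submodule.mem_bot]
    constructor
    · rintro rfl
      exact ⟨0, fun _ => rfl, by rw [zero_smul]⟩
    · rintro ⟨s, hs, rfl⟩
      rw [hs rfl, zero_smul]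
  | false =>
    have : bs (!false) {Dec I} = ({Dec I} : Set VV) := by
      ext x; simp [bs]
    rw [this, mem_span_singleton]
    constructor
    · rintro ⟨s, rfl⟩
      exact ⟨s, fun h => by simp at h, rfl⟩
    · rintro ⟨s, -, rfl⟩
      exact ⟨s, rfl⟩

private theorem GE2_Phi_Dec (g : F4) (hg : g = F4.w ∨ g = F4.v) {I : Finset ℕ} (h0 : 0 ∉ I) {i : ℕ}
    (hi : i ∈ I) : GE2_Phi g i (Dec I) = Dec (I.erase i) := by
  have hi0 : i ≠ 0 := fun h => h0 (h ▸ hi)
  rw [GE2_Dec_erase hi]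
  unfold Dec
  rw [map_add, map_add, GE2_Phi_e, if_pos rfl, GE2_Phi_e, if_neg, if_pos rfl, map_sum]
  · have h1 : ∑ j ∈ I.erase i, GE2_Phi g i (e j 0) = ∑ j ∈ I.erase i, e j 0 := by
      refine Finset.sum_congr rfl fun j hj => ?_
      rw [Finset.mem_erase] at hj
      rw [GE2_Phi_e, if_neg, if_neg]
      · intro h
        exact hj.1 (Prod.mk.inj h).1
      · intro h
        exact h0 ((Prod.mk.inj h).1 ▸ hj.2)
    rw [h1]
    have h2 : g • e 0 0 + ∑ j ∈ I.erase i, e j 0 + (g * g) • e 0 0 =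
      (g + g * g) • e 0 0 + ∑ j ∈ I.erase i, e j 0 := by
      rw [add_smul]; abel
    rw [h2]
    have h3 : g + g * g = 1 := by rcases hg with rfl | rfl <;> decide
    rw [h3, one_smul]
  · intro h
    exact hi0 (Prod.mk.inj h).1

private theorem GE2_Phi_Dec' (g : F4) (hg : g = F4.w ∨ g = F4.v) {I : Finset ℕ} (h0 : 0 ∉ I) {i : ℕ}
    (hi : i ∈ I) : GE2_Theta g (Dec (I.erase i)) = Dec I + (e i 0 + g • e 0 0) := by
  rw [GE2_Dec_erase hi]
  unfold Dec
  rw [map_add, GE2_Theta_e, if_pos rfl, map_sum]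
  have h1 : ∑ j ∈ I.erase i, GE2_Theta g (e j 0) = ∑ j ∈ I.erase i, e j 0 := by
    refine Finset.sum_congr rfl fun j hj => ?_
    rw [Finset.mem_erase] at hj
    rw [GE2_Theta_e, if_neg]
    intro h
    exact h0 ((Prod.mk.inj h).1 ▸ hj.2)
  rw [h1]
  have h3 : g * g = 1 + g := by rcases hg with rfl | rfl <;> decide
  rw [h3, add_smul, one_smul]
  calc e 0 0 + g • e 0 0 + ∑ j ∈ I.erase i, e j 0
      = e 0 0 + g • e 0 0 + ∑ j ∈ I.erase i, e j 0 + (e i 0 + e i 0) := by
        rw [vadd_self, add_zero]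
    _ = _ := by abel

/-- `Φ` on the vertices of the legs `k ≠ i` -/
private theorem GE2_Phi_msu (g : F4) {I : Finset ℕ} {l : ℕ → ℕ} (h0 : 0 ∉ I) {i : ℕ}
    {k : ℕ} (hk : k ∈ I.erase i) (n : ℕ) :
    GE2_Phi g i (msu l (fun i => e i 0) (fun _ => g • e 0 0) k n) =
      msu l (fun i => e i 0) (fun _ => (g * g) • e 0 0) k n := by
  rw [Finset.mem_erase] at hk
  have hk0 : k ≠ 0 := fun h => h0 (h ▸ hk.2)
  unfold msu
  split_ifs with h1 h2
  · rw [GE2_Phi_e, if_neg, if_neg]
    · intro h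
      exact hk.1 (Prod.mk.inj h).1
    · intro h
      exact hk0 (Prod.mk.inj h).1
  · rw [map_smul, GE2_Phi_e, if_pos rfl, smul_smul]
  · rw [GE2_Phi_e, if_neg, if_neg]
    · intro h
      exact h1 (Prod.mk.inj h).2
    · intro h
      exact h1 (Prod.mk.inj h).2

/-- the points of the new configuration come from points -/
private theorem GE2_lift (g : F4) (hg : g = F4.w ∨ g = F4.v) {a b : Bool} {I : Finset ℕ}
    {l : ℕ → ℕ} (h0 : 0 ∉ I) {i : ℕ} (hi : i ∈ I) {c' : VV}
    (hc' : c' ∈ DeC (g * g) true b (I.erase i) l) :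
    ∃ c ∈ DeC g a b I l, ∃ s : F4, s ≠ 0 ∧ GE2_Phi g i c = s • c' := by
  have hi0 : i ≠ 0 := fun h => h0 (h ▸ hi)
  rcases hc' with (((hc | hc) | hc) | hc) | hc
  · obtain ⟨k, hk, rfl⟩ := hc
    have hk' := Finset.mem_erase.1 hk
    have hk0 : k ≠ 0 := fun h => h0 (h ▸ hk'.2)
    refine ⟨e k 0, Or.inl (Or.inl (Or.inl (Or.inl ⟨k, hk'.2, rfl⟩))), 1, by decide, ?_⟩
    rw [one_smul, GE2_Phi_e, if_neg, if_neg]
    · intro h
      exact hk'.1 (Prod.mk.inj h).1
    · intro h
      exact hk0 (Prod.mk.inj h).1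
  · obtain ⟨-, rfl⟩ := hc
    refine ⟨e i 0, Or.inl (Or.inl (Or.inl (Or.inl ⟨i, hi, rfl⟩))), g * g, ?_, ?_⟩
    · rcases hg with rfl | rfl <;> decide
    · rw [GE2_Phi_e, if_neg, if_pos rfl]
      intro h
      exact hi0 (Prod.mk.inj h).1
  · obtain ⟨hb, rfl⟩ := hc
    refine ⟨Dec I, Or.inl (Or.inl (Or.inr ⟨hb, rfl⟩)), 1, by decide, ?_⟩
    rw [one_smul, GE2_Phi_Dec g hg h0 hi]
  · obtain ⟨k, hk, n, hn, hn', rfl⟩ := hc
    have hk' := Finset.mem_erase.1 hk
    refine ⟨e k n, Or.inl (Or.inr ⟨k, hk'.2, n, hn, hn', rfl⟩), 1, by decide, ?_⟩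
    rw [one_smul, GE2_Phi_e, if_neg, if_neg]
    · intro h
      exact hk'.1 (Prod.mk.inj h).1
    · intro h
      exact hn.ne' (Prod.mk.inj h).2
  · obtain ⟨k, hk, n, hn', rfl⟩ := hc
    have hk' := Finset.mem_erase.1 hk
    refine ⟨_, Or.inr ⟨k, hk'.2, n, hn', rfl⟩, 1, by decide, ?_⟩
    rw [one_smul, map_add, GE2_Phi_msu g h0 hk, GE2_Phi_msu g h0 hk]

/-- GE2. contraction of `r_i = z_i + g t` when `l i = 1`: `z_i = g t`, `c = (1 + g) t + Σ_{j ≠ i} z_j =
g² t + ...`, so with the new tip `t' = g² t` the gain becomes `g²`: `g t = g² t'`.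
`Φ (e 0 0) = g • e 0 0`, `Φ (e i 0) = g² • e 0 0`, identity otherwise (`g³ = 1`, `1 + g = g²`),
`Θ (e 0 0) = g² • e 0 0`, identity otherwise. -/
theorem GE2 {g : F4} (hg : g = F4.w ∨ g = F4.v) {a b : Bool} {I : Finset ℕ} {l : ℕ → ℕ}
    (h0 : 0 ∉ I) (h2 : 2 ≤ I.card) {i : ℕ} (hi : i ∈ I) (hl : l i = 1)
    (h : AK (DeK b (I.erase i)) (DeC (g * g) true b (I.erase i) l)
      (DeP (g * g) true b (I.erase i) l)) :
    CK (DeK b I) (DeC g a b I l) (e i 0 + g • e 0 0) (DeP g a b I l) := by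
  have hi0 : i ≠ 0 := fun h => h0 (h ▸ hi)
  refine CK.of_contract (K' := DeK b (I.erase i)) (C' := DeC (g * g) true b (I.erase i) l)
    (P' := DeP (g * g) true b (I.erase i) l) (GE2_Phi g i) (GE2_Theta g) ?_ ?_ ?_ ?_ ?_ ?_ ?_ h
  · intro hx
    rw [GE2_K] at hx
    obtain ⟨s, -, hs⟩ := hx
    obtain ⟨j, hj, hji⟩ := Finset.exists_mem_ne (by omega : 1 < I.card) i
    have hj0 : j ≠ 0 := fun h => h0 (h ▸ hj)
    have h3 : s = 0 := by
      have h3 := congrArg (fun x : VV => x (j, 0)) hs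
      simpa [GE2_e_apply, GE2_Dec_j0 h0 hj, hji, hji.symm, hj0, hj0.symm] using h3.symm
    have h4 := congrArg (fun x : VV => x (i, 0)) hs
    rw [h3] at h4
    simp [GE2_e_apply, hi0, hi0.symm] at h4
  · rw [map_add, map_smul, GE2_Phi_e, if_neg, if_pos rfl, GE2_Phi_e, if_pos rfl, smul_smul,
      vadd_self]
    · exact zero_mem _
    · intro h
      exact hi0 (Prod.mk.inj h).1
  · intro k hk
    rw [GE2_K] at hk ⊢
    obtain ⟨s, hs, rfl⟩ := hk
    exact ⟨s, hs, by rw [map_smul, GE2_Phi_Dec g hg h0 hi]⟩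
  · intro k hk
    rw [GE2_K] at hk
    obtain ⟨s, hs, rfl⟩ := hk
    rw [map_smul, GE2_Phi_Dec' g hg h0 hi, smul_add]
    refine Submodule.add_mem_sup ?_ ?_
    · rw [GE2_K]
      exact ⟨s, hs, rfl⟩
    · exact smul_mem _ _ (mem_span_singleton_self _)
  · intro z _
    exact (le_sup_right : _ ≤ DeK b I ⊔ span F4 {e i 0 + g • e 0 0}) (GE2_fix g hg hi0 z)
  · apply Subset.antisymm
    · apply GE2_LnK_sub
      rintro _ ⟨c, hc, rfl⟩
      rcases hc with (((hc | hc) | hc) | hc) | hc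
      · obtain ⟨k, hk, rfl⟩ := hc
        have hk0 : k ≠ 0 := fun h => h0 (h ▸ hk)
        by_cases hki : k = i
        · refine Or.inr ⟨e 0 0, Or.inl (Or.inl (Or.inl (Or.inr ⟨rfl, rfl⟩))), g * g, ?_⟩
          rw [hki, GE2_Phi_e, if_neg, if_pos rfl, vadd_self]
          · exact zero_mem _
          · intro h
            exact hi0 (Prod.mk.inj h).1
        · refine Or.inr ⟨e k 0, Or.inl (Or.inl (Or.inl (Or.inl
            ⟨k, Finset.mem_erase.2 ⟨hki, hk⟩, rfl⟩))), 1, ?_⟩
          rw [GE2_Phi_e, if_neg, if_neg, one_smul, vadd_self]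
          · exact zero_mem _
          · intro h
            exact hki (Prod.mk.inj h).1
          · intro h
            exact hk0 (Prod.mk.inj h).1
      · obtain ⟨-, rfl⟩ := hc
        refine Or.inr ⟨e 0 0, Or.inl (Or.inl (Or.inl (Or.inr ⟨rfl, rfl⟩))), g, ?_⟩
        rw [GE2_Phi_e, if_pos rfl, vadd_self]
        exact zero_mem _
      · obtain ⟨hb, rfl⟩ := hc
        refine Or.inr ⟨Dec (I.erase i), Or.inl (Or.inl (Or.inr ⟨hb, rfl⟩)), 1, ?_⟩
        rw [one_smul, GE2_Phi_Dec g hg h0 hi, vadd_self]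
        exact zero_mem _
      · obtain ⟨k, hk, n, hn, hn', rfl⟩ := hc
        have hki : k ≠ i := by
          rintro rfl
          omega
        refine Or.inr ⟨e k n, Or.inl (Or.inr ⟨k, Finset.mem_erase.2 ⟨hki, hk⟩, n, hn, hn', rfl⟩),
          1, ?_⟩
        rw [GE2_Phi_e, if_neg, if_neg, one_smul, vadd_self]
        · exact zero_mem _
        · intro h
          exact hki (Prod.mk.inj h).1
        · intro h
          exact hn.ne' (Prod.mk.inj h).2
      · obtain ⟨k, hk, n, hn', rfl⟩ := hc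
        by_cases hki : k = i
        · left
          subst hki
          have hn0 : n = 0 := by omega
          subst hn0
          have e1 : msu l (fun i => e i 0) (fun _ => g • e 0 0) k 0 = e k 0 := by
            unfold msu; rw [if_pos rfl]
          have e2 : msu l (fun i => e i 0) (fun _ => g • e 0 0) k (0 + 1) = g • e 0 0 := by
            unfold msu; rw [if_neg (by omega), if_pos (by omega)]
          rw [e1, e2, map_add, map_smul, GE2_Phi_e, if_neg, if_pos rfl, GE2_Phi_e, if_pos rfl,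
            smul_smul, vadd_self]
          · exact zero_mem _
          · intro h
            exact hi0 (Prod.mk.inj h).1
        · have hk' : k ∈ I.erase i := Finset.mem_erase.2 ⟨hki, hk⟩
          refine Or.inr ⟨_, Or.inr ⟨k, hk', n, hn', rfl⟩, 1, ?_⟩
          rw [one_smul, map_add, GE2_Phi_msu g h0 hk', GE2_Phi_msu g h0 hk', vadd_self]
          exact zero_mem _
    · apply GE2_LnK_sub
      intro c' hc'
      obtain ⟨c, hc, s, hs, hcs⟩ := GE2_lift g hg (a := a) h0 hi hc'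
      refine Or.inr ⟨_, ⟨c, hc, rfl⟩, s⁻¹, ?_⟩
      rw [hcs, smul_smul, inv_mul_cancel₀ hs, one_smul, vadd_self]
      exact zero_mem _
  · intro p' hp'
    rcases hp' with (hp' | hp') | hp'
    · obtain ⟨c, hc, s, hs, hcs⟩ := GE2_lift g hg (a := a) h0 hi hp'
      refine ⟨c, Or.inl (Or.inl hc), s, hs, ?_⟩
      rw [hcs, vadd_self]
      exact zero_mem _
    · rcases hp' with rfl | hp'
      · refine ⟨e 0 0, Or.inl (Or.inr (Or.inl rfl)), g, ?_, ?_⟩
        · rcases hg with rfl | rfl <;> decide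
        · rw [GE2_Phi_e, if_pos rfl, vadd_self]
          exact zero_mem _
      · rw [mem_singleton_iff] at hp'
        subst hp'
        refine ⟨0, Or.inl (Or.inr (Or.inr rfl)), 1, by decide, ?_⟩
        rw [map_zero, smul_zero, add_zero]
        exact zero_mem _
    · obtain ⟨hb, hp'⟩ := hp'
      rcases hp' with (hp' | hp') | hp'
      · obtain ⟨j, hj, rfl⟩ := hp'
        have hj' := Finset.mem_erase.1 hj
        have hj0 : j ≠ 0 := fun h => h0 (h ▸ hj'.2)
        refine ⟨Dec I + e j 0, Or.inr ⟨hb, Or.inl (Or.inl ⟨j, hj'.2, rfl⟩)⟩, 1, by decide, ?_⟩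
        rw [map_add, GE2_Phi_Dec g hg h0 hi, GE2_Phi_e, if_neg, if_neg, one_smul, vadd_self]
        · exact zero_mem _
        · intro h
          exact hj'.1 (Prod.mk.inj h).1
        · intro h
          exact hj0 (Prod.mk.inj h).1
      · rw [mem_singleton_iff] at hp'
        subst hp'
        refine ⟨Dec I + g • e 0 0, Or.inr ⟨hb, Or.inl (Or.inr rfl)⟩, 1, by decide, ?_⟩
        rw [map_add, GE2_Phi_Dec g hg h0 hi, map_smul, GE2_Phi_e, if_pos rfl, smul_smul, one_smul,
          vadd_self]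
        exact zero_mem _
      · obtain ⟨j, hj, hlj, rfl⟩ := hp'
        have hj' := Finset.mem_erase.1 hj
        have hj0 : j ≠ 0 := fun h => h0 (h ▸ hj'.2)
        refine ⟨Dec I + e j 0 + g • e 0 0, Or.inr ⟨hb, Or.inr ⟨j, hj'.2, hlj, rfl⟩⟩, 1,
          by decide, ?_⟩
        rw [map_add, map_add, map_smul, GE2_Phi_Dec g hg h0 hi, GE2_Phi_e, if_neg, if_neg,
          GE2_Phi_e, if_pos rfl, smul_smul, one_smul, vadd_self]
        · exact zero_mem _
        · intro h
          exact hj'.1 (Prod.mk.inj h).1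
        · intro h
          exact hj0 (Prod.mk.inj h).1

end QG
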