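import Pool.Agent.Lib.QG.GB2

/-! MP_2e6874_co, part (A), row GE3. -/

set_option autoImplicit false

namespace QG
open Set Matroid Submodule

private theorem GE3_LnK_sub {K : Submodule F4 VV} {C C' : Set VV}
    (h : ∀ c ∈ C, c ∈ K ∨ ∃ c' ∈ C', ∃ t : F4, c + t • c' ∈ K) : LnK K C ⊆ LnK K C' := by
  rintro y ⟨hy, c, hc, s, hs⟩
  rcases h c hc with hk | ⟨c', hc', t, ht⟩
  · exfalso
    apply hy
    have := K.sub_mem hs (K.smul_mem s hk)
    rwa [add_sub_cancel_right] at this
  · refine ⟨hy, c', hc', s * t, ?_⟩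
    have h1 := K.sub_mem hs (K.smul_mem s ht)
    have h2 : y + s • c - s • (c + t • c') = y + (s * t) • c' := by
      rw [vsub, smul_add, smul_smul]
      calc y + s • c + (s • c + (s * t) • c') = y + (s • c + s • c) + (s * t) • c' := by abel
        _ = y + (s * t) • c' := by rw [vadd_self, add_zero]
    rwa [h2] at h1

private theorem GE3_Dec_apply {I : Finset ℕ} (h0 : 0 ∉ I) : Dec I (0, 0) = 1 := by
  unfold Dec
  rw [Finsupp.add_apply, Finsupp.finsetSum_apply, Finset.sum_eq_zero]
  · simp [e]
  · intro i hi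
    have : i ≠ 0 := fun h => h0 (h ▸ hi)
    simp [e, this]

/-- GE3. contraction of `c` (`Φ = Θ = id`, `K = ⊥`, `K' = ⟨c⟩`). -/
theorem GE3 {g : F4} (hg : g = F4.w ∨ g = F4.v) {a : Bool} {I : Finset ℕ} {l : ℕ → ℕ}
    (h0 : 0 ∉ I) (h : AK (DeK false I) (DeC g a false I l) (DeP g a false I l)) :
    CK (DeK true I) (DeC g a true I l) (Dec I) (DeC g a false I l ∪ {e 0 0, 0}) := by
  have hK : DeK true I = ⊥ := by
    unfold DeK
    have : bs (!true) {Dec I} = (∅ : Set VV) := by
      ext x; simp [bs]
    rw [this, span_empty]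
  have hK' : DeK false I = span F4 {Dec I} := by
    unfold DeK
    have : bs (!false) {Dec I} = ({Dec I} : Set VV) := by
      ext x; simp [bs]
    rw [this]
  have hD : Dec I ∈ DeK false I := by
    rw [hK']; exact mem_span_singleton_self _
  refine CK.of_contract (K' := DeK false I) (C' := DeC g a false I l) (P' := DeP g a false I l)
    LinearMap.id LinearMap.id ?_ ?_ ?_ ?_ ?_ ?_ ?_ h
  · rw [hK, Submodule.mem_bot]
    intro h1
    have := GE3_Dec_apply h0
    rw [h1] at this
    exact absurd this (by decide)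
  · exact hD
  · intro k hk
    rw [hK, Submodule.mem_bot] at hk
    rw [hk, map_zero]
    exact zero_mem _
  · intro k hk
    rw [hK'] at hk
    exact (le_sup_right : _ ≤ DeK true I ⊔ span F4 {Dec I}) hk
  · intro z _
    rw [LinearMap.id_apply, LinearMap.id_apply, vadd_self]
    exact zero_mem _
  · apply Subset.antisymm
    · apply GE3_LnK_sub
      rintro _ ⟨c, hc, rfl⟩
      rw [LinearMap.id_apply]
      have key : c = Dec I ∨ c ∈ DeC g a false I l := by
        rcases hc with (((hc | hc) | hc) | hc) | hc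
        · exact Or.inr (Or.inl (Or.inl (Or.inl (Or.inl hc))))
        · exact Or.inr (Or.inl (Or.inl (Or.inl (Or.inr hc))))
        · exact Or.inl hc.2
        · exact Or.inr (Or.inl (Or.inr hc))
        · exact Or.inr (Or.inr hc)
      rcases key with rfl | hk
      · exact Or.inl hD
      · refine Or.inr ⟨c, hk, 1, ?_⟩
        rw [one_smul, vadd_self]
        exact zero_mem _
    · apply GE3_LnK_sub
      intro c hc
      refine Or.inr ⟨c, ⟨c, ?_, rfl⟩, 1, ?_⟩
      · rcases hc with (((hc | hc) | hc) | hc) | hc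
        · exact Or.inl (Or.inl (Or.inl (Or.inl hc)))
        · exact Or.inl (Or.inl (Or.inl (Or.inr hc)))
        · exact absurd hc.1 (by decide)
        · exact Or.inl (Or.inr hc)
        · exact Or.inr hc
      · rw [one_smul, vadd_self]
        exact zero_mem _
  · intro p' hp'
    refine ⟨p', ?_, 1, by decide, ?_⟩
    · unfold DeP at hp'
      rcases hp' with hp' | hp'
      · exact hp'
      · exact absurd hp'.1 (by decide)
    · rw [LinearMap.id_apply, one_smul, vadd_self]
      exact zero_mem _

end QG
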