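import Pool.Agent.Lib.QG.GC1

/-! MP_2e6874_co, part (A), row GE4. -/

set_option autoImplicit false

namespace QG
open Set Matroid Submodule

private theorem GE4_LnK_union (K : Submodule F4 VV) (X Y : Set VV) :
    LnK K (X ∪ Y) = LnK K X ∪ LnK K Y := by
  ext y
  constructor
  · rintro ⟨hy, c, hc | hc, s, hs⟩
    · exact Or.inl ⟨hy, c, hc, s, hs⟩
    · exact Or.inr ⟨hy, c, hc, s, hs⟩
  · rintro (⟨hy, c, hc, s, hs⟩ | ⟨hy, c, hc, s, hs⟩)
    · exact ⟨hy, c, Or.inl hc, s, hs⟩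
    · exact ⟨hy, c, Or.inr hc, s, hs⟩

private theorem GE4_e_base {I : Finset ℕ} (k : ℕ) : e k 0 ∈ Base I := by
  intro i _ n hn
  show (Finsupp.single (k, 0) (1 : F4)) (i, n) = 0
  rw [Finsupp.single_apply, if_neg]
  intro h
  have : 0 = n := congrArg Prod.snd h
  omega

private theorem GE4_Dec_base {I : Finset ℕ} : Dec I ∈ Base I :=
  Submodule.add_mem _ (GE4_e_base 0) (Submodule.sum_mem _ fun k _ => GE4_e_base k)

/-- GE4. contraction of a rim of leg `i` with `l i ≥ 2` (GC1): the tip becomes a point if it is the last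
rim. If `l i = 2` there is one additional vector `c + z_i + g t` (from `DeP` of the new leg with
`l i = 1`); if `l i ≥ 3` it is not needed, but allowed. -/
theorem GE4 {g : F4} (hg : g = F4.w ∨ g = F4.v) {a b : Bool} {I : Finset ℕ} {l : ℕ → ℕ}
    (h0 : 0 ∉ I) (h2 : 2 ≤ I.card) {i j : ℕ} (hi : i ∈ I) (hl : 2 ≤ l i) (hj : j < l i)
    (h : AK (DeK b I) (DeC g (a || decide (j + 1 = l i)) b I (dec l i))
      (DeP g (a || decide (j + 1 = l i)) b I (dec l i))) :
    CK (DeK b I) (DeC g a b I l) (rim l (fun i => e i 0) (fun _ => g • e 0 0) i j)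
      (DeP g a b I l ∪ bs b {x | l i = 2 ∧ x = Dec I + e i 0 + g • e 0 0}) := by
  have hg0 : g ≠ 0 := by
    rcases hg with rfl | rfl <;> decide
  set C0 : Set VV := {x | ∃ i ∈ I, x = e i 0} ∪ bs a {e 0 0} ∪ bs b {Dec I} with hC0
  set E0 : Set VV := {x | ∃ i ∈ I, x = Dec I + e i 0} ∪ {Dec I + g • e 0 0} ∪
      {x | ∃ i ∈ I, l i = 1 ∧ x = Dec I + e i 0 + g • e 0 0} with hE0
  set F0 : Set VV := {x | l i = 2 ∧ x = Dec I + e i 0 + g • e 0 0} with hF0
  set A0 : Set VV := {e 0 0} ∪ bs b E0 ∪ bs b F0 with hA0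
  set K := DeK b I with hK
  -- the last vertex
  have htip : g • e 0 0 ∈ span F4 (DeC g a b I l) := by
    have hr : msu l (fun i => e i 0) (fun _ => g • e 0 0) i (l i - 1) +
        msu l (fun i => e i 0) (fun _ => g • e 0 0) i (l i - 1 + 1) ∈ DeC g a b I l :=
      Or.inr ⟨i, hi, l i - 1, by omega, rfl⟩
    have hv : msu l (fun i => e i 0) (fun _ => g • e 0 0) i (l i - 1) ∈ DeC g a b I l := by
      refine Or.inl (Or.inr ⟨i, hi, l i - 1, by omega, by omega, ?_⟩)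
      unfold msu
      rw [if_neg (by omega), if_neg (by omega)]
    have he : msu l (fun i => e i 0) (fun _ => g • e 0 0) i (l i - 1 + 1) = g • e 0 0 := by
      unfold msu
      rw [if_neg (by omega), if_pos (by omega)]
    have h3 := Submodule.add_mem _ (subset_span (R := F4) hr) (subset_span (R := F4) hv)
    rw [he, add_comm (msu l _ _ i (l i - 1)) (g • e 0 0), add_assoc, vadd_self, add_zero] at h3
    exact h3
  have htip' : e 0 0 ∈ span F4 (DeC g a b I l) := by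
    have h3 := Submodule.smul_mem _ g⁻¹ htip
    rwa [smul_smul, inv_mul_cancel₀ hg0, one_smul] at h3
  have hDec : b = true → Dec I ∈ span F4 (DeC g a b I l) := fun hb =>
    subset_span (Or.inl (Or.inl (Or.inr ⟨hb, rfl⟩)))
  have hz : ∀ k ∈ I, e k 0 ∈ span F4 (DeC g a b I l) := fun k hk =>
    subset_span (Or.inl (Or.inl (Or.inl (Or.inl ⟨k, hk, rfl⟩))))
  have hbase : MSB K I l (fun i => e i 0) (fun _ => g • e 0 0) C0 A0 := by
    refine ⟨?_, fun k _ => GE4_e_base k, fun k _ => Submodule.smul_mem _ _ (GE4_e_base 0), ?_, ?_,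
      ?_⟩
    · rw [hK]
      unfold DeK
      rw [Submodule.span_le]
      rintro x ⟨_, rfl⟩
      exact GE4_Dec_base
    · rintro x ((⟨k, hk, rfl⟩ | ⟨_, rfl⟩) | ⟨_, rfl⟩)
      · exact GE4_e_base k
      · exact GE4_e_base 0
      · exact GE4_Dec_base
    · rintro x ((rfl | ⟨_, (⟨k, hk, rfl⟩ | rfl) | ⟨k, hk, _, rfl⟩⟩) | ⟨_, _, rfl⟩)
      · exact GE4_e_base 0
      · exact Submodule.add_mem _ GE4_Dec_base (GE4_e_base k)
      · exact Submodule.add_mem _ GE4_Dec_base (Submodule.smul_mem _ _ (GE4_e_base 0))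
      · exact Submodule.add_mem _ (Submodule.add_mem _ GE4_Dec_base (GE4_e_base k))
          (Submodule.smul_mem _ _ (GE4_e_base 0))
      · exact Submodule.add_mem _ (Submodule.add_mem _ GE4_Dec_base (GE4_e_base i))
          (Submodule.smul_mem _ _ (GE4_e_base 0))
    · intro x hx
      refine (le_sup_left : span F4 (DeC g a b I l) ≤ span F4 (DeC g a b I l) ⊔ K) ?_
      rcases hx with (rfl | ⟨hb, (⟨k, hk, rfl⟩ | rfl) | ⟨k, hk, _, rfl⟩⟩) | ⟨hb, _, rfl⟩
      · exact htip'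
      · exact Submodule.add_mem _ (hDec hb) (hz k hk)
      · exact Submodule.add_mem _ (hDec hb) htip
      · exact Submodule.add_mem _ (Submodule.add_mem _ (hDec hb) (hz k hk)) htip
      · exact Submodule.add_mem _ (Submodule.add_mem _ (hDec hb) (hz i hi)) htip
  have hset : MSP I l (fun i => e i 0) (fun _ => g • e 0 0) C0 A0 =
      DeP g a b I l ∪ bs b F0 := by
    show DeC g a b I l ∪ ({e 0 0} ∪ bs b E0 ∪ bs b F0) ∪ {0} =
      DeC g a b I l ∪ {e 0 0, 0} ∪ bs b E0 ∪ bs b F0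
    ext x
    simp only [mem_union, mem_singleton_iff, mem_insert_iff]
    tauto
  rw [← hset]
  refine GC1 hbase hi hl hj (AK.congr ?_ ?_ h)
  · -- the points
    set a' : Bool := a || decide (j + 1 = l i) with ha'
    set m' := dec l i with hm'
    set C0' : Set VV := {x | ∃ i ∈ I, x = e i 0} ∪ bs a' {e 0 0} ∪ bs b {Dec I} with hC0'
    set R : Set VV := {x | ∃ i ∈ I, ∃ n, 0 < n ∧ n < m' i ∧ x = e i n} with hR
    set S : Set VV := {x | ∃ i ∈ I, ∃ n < m' i, x =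
      msu m' (fun i => e i 0) (fun _ => g • e 0 0) i n +
        msu m' (fun i => e i 0) (fun _ => g • e 0 0) i (n + 1)} with hS
    show LnK K (C0' ∪ R ∪ S) = LnK K (endC l (fun i => e i 0) (fun _ => g • e 0 0) C0 i j ∪ R ∪ S)
    rw [GE4_LnK_union, GE4_LnK_union K (endC l (fun i => e i 0) (fun _ => g • e 0 0) C0 i j ∪ R),
      GE4_LnK_union, GE4_LnK_union K (endC l (fun i => e i 0) (fun _ => g • e 0 0) C0 i j)]
    congr 2
    ext y
    constructor
    · rintro ⟨hy, c, (⟨k, hk, rfl⟩ | ⟨hb, rfl⟩) | ⟨hb, rfl⟩, s, hs⟩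
      · exact ⟨hy, e k 0, Or.inl (Or.inl (Or.inl (Or.inl ⟨k, hk, rfl⟩))), s, hs⟩
      · rw [ha', Bool.or_eq_true, decide_eq_true_eq] at hb
        rcases hb with hb | hb
        · exact ⟨hy, e 0 0, Or.inl (Or.inl (Or.inl (Or.inr ⟨hb, rfl⟩))), s, hs⟩
        · refine ⟨hy, g • e 0 0, Or.inr ⟨hb, rfl⟩, s * g⁻¹, ?_⟩
          rw [smul_smul, mul_assoc, inv_mul_cancel₀ hg0, mul_one]
          exact hs
      · exact ⟨hy, Dec I, Or.inl (Or.inl (Or.inr ⟨hb, rfl⟩)), s, hs⟩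
    · rintro ⟨hy, c, (((⟨k, hk, rfl⟩ | ⟨hb, rfl⟩) | ⟨hb, rfl⟩) | ⟨_, rfl⟩) | ⟨hb, rfl⟩, s, hs⟩
      · exact ⟨hy, e k 0, Or.inl (Or.inl ⟨k, hk, rfl⟩), s, hs⟩
      · exact ⟨hy, e 0 0, Or.inl (Or.inr ⟨by rw [ha', hb, Bool.true_or], rfl⟩), s, hs⟩
      · exact ⟨hy, Dec I, Or.inr ⟨hb, rfl⟩, s, hs⟩
      · exact ⟨hy, e i 0, Or.inl (Or.inl ⟨i, hi, rfl⟩), s, hs⟩
      · refine ⟨hy, e 0 0, Or.inl (Or.inr ⟨?_, rfl⟩), s * g, ?_⟩
        · rw [ha', Bool.or_eq_true, decide_eq_true_eq]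
          exact Or.inr hb
        · rw [← smul_smul]
          exact hs
  · -- the additional vectors
    have hself : ∀ p : VV, p + (1 : F4) • p ∈ K := fun p => by
      rw [one_smul, vadd_self]
      exact zero_mem _
    have key : ∀ p ∈ DeP g (a || decide (j + 1 = l i)) b I (dec l i),
        p ∈ MSP I (dec l i) (fun i => e i 0) (fun _ => g • e 0 0)
          (endC l (fun i => e i 0) (fun _ => g • e 0 0) C0 i j) A0 := by
      rintro p ((((((⟨k, hk, rfl⟩ | ⟨_, rfl⟩) | ⟨hb, rfl⟩) | hp) | hp) | (rfl | rfl)) |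
        ⟨hb, (⟨k, hk, rfl⟩ | rfl) | ⟨k, hk, hlk, rfl⟩⟩)
      · exact Or.inl (Or.inl (Or.inl (Or.inl (Or.inl (Or.inl (Or.inl (Or.inl ⟨k, hk, rfl⟩)))))))
      · exact Or.inl (Or.inr (Or.inl (Or.inl rfl)))
      · exact Or.inl (Or.inl (Or.inl (Or.inl (Or.inl (Or.inl (Or.inr ⟨hb, rfl⟩))))))
      · exact Or.inl (Or.inl (Or.inl (Or.inr hp)))
      · exact Or.inl (Or.inl (Or.inr hp))
      · exact Or.inl (Or.inr (Or.inl (Or.inl rfl)))
      · exact Or.inr rfl
      · exact Or.inl (Or.inr (Or.inl (Or.inr ⟨hb, Or.inl (Or.inl ⟨k, hk, rfl⟩)⟩)))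
      · exact Or.inl (Or.inr (Or.inl (Or.inr ⟨hb, Or.inl (Or.inr rfl)⟩)))
      · by_cases hki : k = i
        · subst hki
          refine Or.inl (Or.inr (Or.inr ⟨hb, ?_, rfl⟩))
          unfold dec at hlk
          rw [Function.update_self] at hlk
          omega
        · refine Or.inl (Or.inr (Or.inl (Or.inr ⟨hb, Or.inr ⟨k, hk, ?_, rfl⟩⟩)))
          unfold dec at hlk
          rwa [Function.update_of_ne hki] at hlk
    exact fun p hp => ⟨p, key p hp, 1, by decide, hself p⟩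

end QG
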