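import Pool.Agent.Lib.QG.GC3
import Pool.Agent.Lib.QG.GB1

/-! MP_2e6874_co, part (A), row GE5. -/

set_option autoImplicit false

namespace QG
open Set Matroid Submodule

private theorem GE5_e (i n k m : ℕ) : e i n (k, m) = if (i, n) = (k, m) then 1 else 0 := by
  rw [e, Finsupp.single_apply]

private theorem GE5_sum (I : Finset ℕ) (k m : ℕ) :
    (∑ i ∈ I, e i 0) (k, m) = if k ∈ I ∧ m = 0 then 1 else 0 := by
  rw [Finsupp.finsetSum_apply]
  simp only [GE5_e, Prod.mk.injEq]
  by_cases hm : m = 0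
  · subst hm
    simp only [and_true]
    rw [Finset.sum_ite_eq']
  · have : ∀ i ∈ I, (if i = k ∧ 0 = m then (1 : F4) else 0) = 0 := by
      intro i _
      rw [if_neg]
      rintro ⟨-, h⟩
      exact hm h.symm
    rw [Finset.sum_eq_zero this, if_neg]
    rintro ⟨-, h⟩
    exact hm h

private theorem GE5_dec0 {I : Finset ℕ} (h0 : 0 ∉ I) : Dec I (0, 0) = 1 := by
  rw [Dec, Finsupp.add_apply, GE5_sum, GE5_e]
  simp [h0]

private theorem GE5_deci {I : Finset ℕ} (h0 : 0 ∉ I) {i : ℕ} (hi : i ∈ I) : Dec I (i, 0) = 1 := by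
  have : (0 : ℕ) ≠ i := by
    rintro rfl
    exact h0 hi
  rw [Dec, Finsupp.add_apply, GE5_sum, GE5_e]
  simp [hi, this]

private theorem GE5_decn {I : Finset ℕ} {i n : ℕ} (hn : 1 ≤ n) : Dec I (i, n) = 0 := by
  rw [Dec, Finsupp.add_apply, GE5_sum, GE5_e]
  have h1 : ¬ (0, 0) = (i, n) := by
    intro h
    simp only [Prod.mk.injEq] at h
    omega
  have h2 : ¬ (i ∈ I ∧ n = 0) := by
    rintro ⟨-, h⟩
    omega
  rw [if_neg h1, if_neg h2, add_zero]

private theorem GE5_K {b : Bool} {I : Finset ℕ} {x : VV} (h : x ∈ DeK b I) :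
    ∃ κ : F4, x = κ • Dec I ∧ (b = true → κ = 0) := by
  rw [DeK] at h
  cases b
  · have : bs (!false) {Dec I} = {Dec I} := by ext; simp [bs]
    rw [this, mem_span_singleton] at h
    obtain ⟨κ, rfl⟩ := h
    exact ⟨κ, rfl, fun h => absurd h (by decide)⟩
  · have : bs (!true) {Dec I} = ∅ := by ext; simp [bs]
    rw [this, span_empty, mem_bot] at h
    exact ⟨0, by rw [h, zero_smul], fun _ => rfl⟩

private theorem GE5_t {g : F4} (hg : g ≠ 0) {l : ℕ → ℕ} {j : ℕ} (hl : 1 ≤ l j)
    (S : Submodule F4 VV) (h0 : e j 0 ∈ S)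
    (h : ∀ n < l j, msu l (fun i => e i 0) (fun _ => g • e 0 0) j n +
      msu l (fun i => e i 0) (fun _ => g • e 0 0) j (n + 1) ∈ S) : e 0 0 ∈ S := by
  have key : ∀ n ≤ l j, msu l (fun i => e i 0) (fun _ => g • e 0 0) j n ∈ S := by
    intro n
    induction n with
    | zero =>
      intro _
      rw [msu, if_pos rfl]
      exact h0
    | succ n ih =>
      intro hn
      have h1 := S.add_mem (ih (by omega)) (h n (by omega))
      rwa [← add_assoc, vadd_self, zero_add] at h1
  have h1 := key (l j) le_rfl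
  rw [msu, if_neg (by omega), if_pos rfl] at h1
  have h2 := S.smul_mem g⁻¹ h1
  rwa [smul_smul, inv_mul_cancel₀ hg, one_smul] at h2

/-- base points -/
private noncomputable def GE5C (a b : Bool) (I : Finset ℕ) : Set VV :=
  {x | ∃ i ∈ I, x = e i 0} ∪ bs a {e 0 0} ∪ bs b {Dec I}

/-- additional vectors -/
private noncomputable def GE5A (g : F4) (b : Bool) (I : Finset ℕ) (l : ℕ → ℕ) : Set VV :=
  {e 0 0} ∪ bs b ({x | ∃ i ∈ I, x = Dec I + e i 0} ∪ {Dec I + g • e 0 0} ∪
      {x | ∃ i ∈ I, l i = 1 ∧ x = Dec I + e i 0 + g • e 0 0})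

private theorem GE5_P (g : F4) (a b : Bool) (I : Finset ℕ) (l : ℕ → ℕ) :
    DeP g a b I l = MSP I l (fun i => e i 0) (fun _ => g • e 0 0) (GE5C a b I)
      (GE5A g b I l) := by
  ext x
  simp only [DeP, MSP, GE5A, DeC, GE5C, mem_union, mem_insert_iff, mem_singleton_iff]
  tauto

private theorem GE5_A_dec (g : F4) (b : Bool) (I : Finset ℕ) (l : ℕ → ℕ) {i : ℕ} (hl : 3 ≤ l i) :
    GE5A g b I (dec l i) = GE5A g b I l := by
  have h : ∀ j, dec l i j = 1 ↔ l j = 1 := by
    intro j
    rw [dec]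
    by_cases hj : j = i
    · subst hj
      rw [Function.update_self]
      omega
    · rw [Function.update_of_ne hj]
  simp only [GE5A, h]

private theorem GE5_LnK {K : Submodule F4 VV} {C C' : Set VV}
    (h : ∀ c ∈ C, ∃ c' ∈ C', ∃ s : F4, c + s • c' ∈ K) : LnK K C ⊆ LnK K C' := by
  rintro y ⟨hy, c, hc, s, hs⟩
  obtain ⟨c', hc', s', hs'⟩ := h c hc
  refine ⟨hy, c', hc', s * s', ?_⟩
  have h1 := K.add_mem hs (K.smul_mem s hs')
  have h2 : y + s • c + s • (c + s' • c') = y + (s * s') • c' := by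
    rw [smul_add, smul_smul, ← add_assoc, add_assoc y, vadd_self, add_zero]
  rwa [h2] at h1

/-- evaluation of the members of `C0 ∪ A0` -/
private theorem GE5_base {g : F4} {a b : Bool} {I : Finset ℕ} {l : ℕ → ℕ} {x : VV}
    (hx : x ∈ GE5C a b I ∪ GE5A g b I l) : x ∈ Base I := by
  have hz : ∀ k, e k 0 ∈ Base I := by
    intro k i _ n hn
    rw [GE5_e, if_neg]
    intro h
    simp only [Prod.mk.injEq] at h
    omega
  have hc : Dec I ∈ Base I := by
    intro i _ n hn
    exact GE5_decn hn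
  simp only [GE5C, GE5A, mem_union, bs, mem_ofPred_eq, mem_singleton_iff] at hx
  rcases hx with ((⟨k, _, rfl⟩ | ⟨_, rfl⟩) | ⟨_, rfl⟩) | (rfl | ⟨_, (⟨k, _, rfl⟩ | rfl) | ⟨k, _, _, rfl⟩⟩)
  · exact hz k
  · exact hz 0
  · exact hc
  · exact hz 0
  · exact (Base I).add_mem hc (hz k)
  · exact (Base I).add_mem hc ((Base I).smul_mem g (hz 0))
  · exact (Base I).add_mem ((Base I).add_mem hc (hz k)) ((Base I).smul_mem g (hz 0))

private theorem GE5_g {g : F4} (hg : g = F4.w ∨ g = F4.v) : g ≠ 0 ∧ g ≠ 1 := by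
  rcases hg with rfl | rfl <;> decide

/-- `z_i + g t` is not on a line of the base points and vectors -/
private theorem GE5_hab' {g : F4} {a b : Bool} {I : Finset ℕ} {l : ℕ → ℕ} (hOk : DeOk g I l)
    {i : ℕ} (hi : i ∈ I) (x : VV) (hx : x ∈ GE5C a b I ∪ GE5A g b I l) (s : F4) :
    e i 0 + g • e 0 0 + s • x ∉ DeK b I := by
  intro hmem
  obtain ⟨κ, hκ, hb⟩ := GE5_K hmem
  obtain ⟨j, hj, hji⟩ : ∃ j ∈ I, j ≠ i := by
    have h2 : 1 < I.card := by
      have := hOk.two
      omega
    obtain ⟨j, hj, hji⟩ := Finset.exists_mem_ne h2 i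
    exact ⟨j, hj, hji⟩
  have h0 := hOk.zero
  have h0i : (0 : ℕ) ≠ i := by
    rintro rfl
    exact h0 hi
  have h0j : (0 : ℕ) ≠ j := by
    rintro rfl
    exact h0 hj
  have q0 := DFunLike.congr_fun hκ (0, 0)
  have qi := DFunLike.congr_fun hκ (i, 0)
  have qj := DFunLike.congr_fun hκ (j, 0)
  simp only [Finsupp.add_apply, Finsupp.smul_apply, smul_eq_mul, GE5_dec0 h0, GE5_deci h0 hi,
    GE5_deci h0 hj, GE5_e, Prod.mk.injEq, and_true, h0i, h0j, hji.symm, h0i.symm,
    if_true, if_false, mul_one, mul_zero, add_zero, zero_add] at q0 qi qj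
  simp only [GE5C, GE5A, mem_union, bs, mem_ofPred_eq, mem_singleton_iff] at hx
  have hgg := hOk.g_ne
  clear hmem hκ
  rcases hx with ((⟨k, hk, rfl⟩ | ⟨_, rfl⟩) | ⟨hb', rfl⟩) |
    (rfl | ⟨hb', (⟨k, hk, rfl⟩ | rfl) | ⟨k, hk, _, rfl⟩⟩)
  · have h0k : k ≠ 0 := by
      rintro rfl
      exact h0 hk
    simp only [GE5_e, Prod.mk.injEq, and_true, h0k, if_false, mul_zero, add_zero] at q0 qi qj
    by_cases hki : k = i
    · subst hki
      rw [if_neg hji.symm, mul_zero, ← q0] at qj
      exact absurd qj.symm (GE5_g hgg).1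
    · rw [if_neg hki, mul_zero, add_zero, ← q0] at qi
      exact absurd qi.symm (GE5_g hgg).2
  · simp only [GE5_e, Prod.mk.injEq, and_true, h0i, h0j, if_false, mul_zero, add_zero] at q0 qi qj
    rw [← qi] at qj
    exact absurd qj (by decide)
  · rw [hb hb', GE5_deci h0 hi] at qi
    rw [hb hb', GE5_deci h0 hj] at qj
    clear q0
    revert qi qj
    revert s
    decide
  · simp only [GE5_e, Prod.mk.injEq, and_true, h0i, h0j, if_false, mul_zero, add_zero] at q0 qi qj
    rw [← qi] at qj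
    exact absurd qj (by decide)
  · have h0k : k ≠ 0 := by
      rintro rfl
      exact h0 hk
    rw [hb hb'] at q0 qi
    clear qj
    simp only [Finsupp.add_apply, GE5_dec0 h0, GE5_deci h0 hi, GE5_e, Prod.mk.injEq, and_true, h0k,
      if_false, add_zero] at q0 qi
    by_cases hki : k = i
    · rw [if_pos hki] at qi
      clear q0
      revert qi
      revert s
      decide
    · rw [if_neg hki] at qi
      revert q0 qi
      revert s
      rcases hgg with rfl | rfl <;> decide
  · rw [hb hb'] at q0 qi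
    simp only [Finsupp.add_apply, Finsupp.smul_apply, smul_eq_mul, GE5_dec0 h0, GE5_deci h0 hi,
      GE5_e, Prod.mk.injEq, and_true, h0i, if_false, if_true, mul_one, mul_zero, add_zero] at q0 qi
    clear qj
    revert q0 qi
    revert s
    rcases hgg with rfl | rfl <;> decide
  · have h0k : k ≠ 0 := by
      rintro rfl
      exact h0 hk
    rw [hb hb'] at q0 qi
    clear qj
    simp only [Finsupp.add_apply, Finsupp.smul_apply, smul_eq_mul, GE5_dec0 h0, GE5_deci h0 hi,
      GE5_e, Prod.mk.injEq, and_true, h0i, h0k, if_false, if_true, mul_one, mul_zero,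
      add_zero] at q0 qi
    by_cases hki : k = i
    · rw [if_pos hki] at qi
      clear q0
      revert qi
      revert s
      decide
    · rw [if_neg hki] at qi
      revert q0 qi
      revert s
      rcases hgg with rfl | rfl <;> decide

/-- functionals `x ↦ x (i,0)` and `x ↦ x (i,0) + x (j,0)` and spans -/
private theorem GE5_span {D : Set VV} (f : VV →ₗ[F4] F4) (hD : ∀ d ∈ D, f d = 0) {x : VV}
    (hx : x ∈ span F4 D) : f x = 0 := by
  have : span F4 D ≤ LinearMap.ker f := by
    rw [span_le]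
    intro d hd
    exact LinearMap.mem_ker.2 (hD d hd)
  exact LinearMap.mem_ker.1 (this hx)

private noncomputable def GE5_co (k : ℕ) : VV →ₗ[F4] F4 := Finsupp.lapply (k, 0)

private theorem GE5_co_apply (k : ℕ) (x : VV) : GE5_co k x = x (k, 0) := rfl

/-- the tip is in the span of the points of leg `j` in the kernel of `f` -/
private theorem GE5_tD {g : F4} (hg : g ≠ 0) {a b : Bool} {I : Finset ℕ} {l : ℕ → ℕ} {i j : ℕ}
    (hj : j ∈ I) (hji : j ≠ i) (hl : 1 ≤ l j) (f : VV →ₗ[F4] F4) (hf0 : f (e 0 0) = 0)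
    (hfj : ∀ n, f (e j n) = 0) :
    e 0 0 ∈ span F4 {x ∈ MSC (I.erase i) l (fun i => e i 0) (fun _ => g • e 0 0) (GE5C a b I) |
      f x = 0} := by
  have hmsu : ∀ n, f (msu l (fun i => e i 0) (fun _ => g • e 0 0) j n) = 0 := by
    intro n
    rw [msu]
    split_ifs
    · exact hfj 0
    · rw [map_smul, hf0, smul_zero]
    · exact hfj n
  apply GE5_t hg hl
  · apply subset_span
    refine ⟨?_, hfj 0⟩
    exact Or.inl (Or.inl (Or.inl (Or.inl ⟨j, hj, rfl⟩)))
  · intro n hn
    apply subset_span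
    refine ⟨?_, by rw [map_add, hmsu, hmsu, add_zero]⟩
    exact Or.inr ⟨j, Finset.mem_erase.2 ⟨hji, hj⟩, n, hn, rfl⟩

/-- separation of the additional vectors -/
private theorem GE5_sep {g : F4} {a : Bool} {I : Finset ℕ} {l : ℕ → ℕ} (hOk : DeOk g I l)
    {i : ℕ} (hi : i ∈ I) (hl : 3 ≤ l i) (x x' : VV) (hx : x ∈ GE5A g true I l)
    (hx' : x' ∈ GE5A g true I l) (hne : x ≠ x') :
    ∃ D, D ⊆ MSC (I.erase i) l (fun i => e i 0) (fun _ => g • e 0 0) (GE5C a true I) ∧
      ¬ (x ∈ span F4 D ↔ x' ∈ span F4 D) := by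
  have h0 := hOk.zero
  have hg0 := (GE5_g hOk.g_ne).1
  have h0n : ∀ k ∈ I, (0 : ℕ) ≠ k := by
    rintro k hk rfl
    exact h0 hk
  -- two kinds of sets `D`
  have hDz : ∀ k ∈ I, ({Dec I, e k 0} : Set VV) ⊆
      MSC (I.erase i) l (fun i => e i 0) (fun _ => g • e 0 0) (GE5C a true I) := by
    intro k hk y hy
    rw [mem_insert_iff, mem_singleton_iff] at hy
    rcases hy with rfl | rfl
    · exact Or.inl (Or.inl (Or.inr ⟨rfl, rfl⟩))
    · exact Or.inl (Or.inl (Or.inl (Or.inl ⟨k, hk, rfl⟩)))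
  have hzin : ∀ k, Dec I + e k 0 ∈ span F4 ({Dec I, e k 0} : Set VV) := by
    intro k
    exact add_mem (subset_span (by simp)) (subset_span (by simp))
  obtain ⟨j, hj, hji⟩ : ∃ j ∈ I, j ≠ i := by
    have h2 : 1 < I.card := by
      have := hOk.two
      omega
    obtain ⟨j, hj, hji⟩ := Finset.exists_mem_ne h2 i
    exact ⟨j, hj, hji⟩
  -- a vector in the span of `c`, `z_k`
  have hspan : ∀ k ∈ I, ∀ y : VV, y ∈ span F4 ({Dec I, e k 0} : Set VV) →
      ∀ m ∈ I, m ≠ k → y (m, 0) = y (0, 0) := by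
    intro k hk y hy m hm hmk
    have := GE5_span (GE5_co m + GE5_co 0) (D := {Dec I, e k 0}) (by
      intro d hd
      rw [mem_insert_iff, mem_singleton_iff] at hd
      rw [LinearMap.add_apply, GE5_co_apply, GE5_co_apply]
      rcases hd with rfl | rfl
      · rw [GE5_dec0 h0, GE5_deci h0 hm]
        decide
      · rw [GE5_e, GE5_e, if_neg, if_neg, add_zero]
        · simp only [Prod.mk.injEq, and_true]
          exact (h0n k hk).symm
        · simp only [Prod.mk.injEq, and_true]
          exact hmk.symm) hy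
    rw [LinearMap.add_apply, GE5_co_apply, GE5_co_apply] at this
    have h2 : ∀ p q : F4, p + q = 0 → p = q := by decide
    exact h2 _ _ this
  -- three legs if some `l = 1`
  have hthree : ∀ k ∈ I, l k = 1 → ∀ p q, ∃ m ∈ I, m ≠ p ∧ m ≠ q := by
    intro k hk hlk p q
    have h3 : 3 ≤ I.card := by
      by_contra hc
      have h2 : I.card = 2 := by
        have := hOk.two
        omega
      have := hOk.big h2 k hk
      omega
    have h4 : 0 < ((I.erase p).erase q).card := by
      have h5 := Finset.pred_card_le_card_erase (s := I) (a := p)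
      have h6 := Finset.pred_card_le_card_erase (s := I.erase p) (a := q)
      omega
    obtain ⟨m, hm⟩ := Finset.card_pos.1 h4
    rw [Finset.mem_erase, Finset.mem_erase] at hm
    exact ⟨m, hm.2.2, hm.2.1, hm.1⟩
  -- the key: an asymmetric version
  have key : ∀ x x' : VV,
      ((∃ k ∈ I, x = Dec I + e k 0) ∧ x' ∈ GE5A g true I l ∧ x ≠ x') ∨
      (x = e 0 0 ∧ (x' = Dec I + g • e 0 0 ∨ ∃ k ∈ I, l k = 1 ∧ x' = Dec I + e k 0 + g • e 0 0)) ∨
      (x = Dec I + g • e 0 0 ∧ ∃ k ∈ I, l k = 1 ∧ x' = Dec I + e k 0 + g • e 0 0) ∨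
      ((∃ k ∈ I, l k = 1 ∧ x = Dec I + e k 0 + g • e 0 0) ∧
        (∃ k ∈ I, l k = 1 ∧ x' = Dec I + e k 0 + g • e 0 0) ∧ x ≠ x') →
      ∃ D, D ⊆ MSC (I.erase i) l (fun i => e i 0) (fun _ => g • e 0 0) (GE5C a true I) ∧
        x ∈ span F4 D ∧ x' ∉ span F4 D := by
    intro x x' hcase
    rcases hcase with ⟨⟨k, hk, rfl⟩, hx', hne⟩ | ⟨rfl, hx'⟩ | ⟨rfl, k, hk, hlk, rfl⟩ |
      ⟨⟨k, hk, hlk, rfl⟩, ⟨k', hk', hlk', rfl⟩, hne⟩
    · refine ⟨{Dec I, e k 0}, hDz k hk, hzin k, ?_⟩
      intro hmem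
      obtain ⟨m, hm, hmk⟩ : ∃ m ∈ I, m ≠ k := by
        have h2 : 1 < I.card := by
          have := hOk.two
          omega
        obtain ⟨j, hj, hji⟩ := Finset.exists_mem_ne h2 k
        exact ⟨j, hj, hji⟩
      have hs := hspan k hk x' hmem
      simp only [GE5A, mem_union, bs, mem_ofPred_eq, mem_singleton_iff] at hx'
      rcases hx' with rfl | ⟨_, (⟨k', hk', rfl⟩ | rfl) | ⟨k', hk', hlk', rfl⟩⟩
      · have := hs m hm hmk
        rw [GE5_e, GE5_e, if_pos rfl, if_neg] at this
        · exact absurd this (by decide)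
        · simp only [Prod.mk.injEq, and_true]
          exact h0n m hm
      · have hkk : k' ≠ k := by
          rintro rfl
          exact hne rfl
        have := hs k' hk' hkk
        rw [Finsupp.add_apply, Finsupp.add_apply, GE5_deci h0 hk', GE5_dec0 h0, GE5_e, GE5_e,
          if_pos rfl, if_neg] at this
        · exact absurd this (by decide)
        · simp only [Prod.mk.injEq, and_true]
          exact (h0n k' hk').symm
      · have := hs m hm hmk
        rw [Finsupp.add_apply, Finsupp.add_apply, Finsupp.smul_apply, Finsupp.smul_apply,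
          GE5_deci h0 hm, GE5_dec0 h0, GE5_e, GE5_e, if_pos rfl, if_neg] at this
        · revert this
          rcases hOk.g_ne with rfl | rfl <;> decide
        · simp only [Prod.mk.injEq, and_true]
          exact h0n m hm
      · obtain ⟨m, hm, hmk, hmk'⟩ := hthree k' hk' hlk' k k'
        have := hs m hm hmk
        rw [Finsupp.add_apply, Finsupp.add_apply, Finsupp.add_apply, Finsupp.add_apply,
          Finsupp.smul_apply, Finsupp.smul_apply,
          GE5_deci h0 hm, GE5_dec0 h0, GE5_e, GE5_e, GE5_e, GE5_e, if_neg, if_neg, if_neg,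
          if_pos rfl] at this
        · revert this
          rcases hOk.g_ne with rfl | rfl <;> decide
        · simp only [Prod.mk.injEq, and_true]
          exact (h0n k' hk').symm
        · simp only [Prod.mk.injEq, and_true]
          exact h0n m hm
        · simp only [Prod.mk.injEq, and_true]
          exact hmk'.symm
    · refine ⟨_, sep_subset _ _, GE5_tD (i := i) (j := j) hg0 hj hji (hOk.pos j hj) (GE5_co i) ?_ ?_, ?_⟩
      · rw [GE5_co_apply, GE5_e, if_neg]
        simp only [Prod.mk.injEq, and_true]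
        exact h0n i hi
      · intro n
        rw [GE5_co_apply, GE5_e, if_neg]
        simp only [Prod.mk.injEq]
        exact fun h => hji h.1
      · intro hmem
        have := GE5_span (GE5_co i) (fun d hd => hd.2) hmem
        rw [GE5_co_apply] at this
        rcases hx' with rfl | ⟨k, hk, hlk, rfl⟩
        · rw [Finsupp.add_apply, Finsupp.smul_apply, GE5_deci h0 hi, GE5_e, if_neg] at this
          · revert this
            rcases hOk.g_ne with rfl | rfl <;> decide
          · simp only [Prod.mk.injEq, and_true]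
            exact h0n i hi
        · have hki : k ≠ i := by
            rintro rfl
            omega
          rw [Finsupp.add_apply, Finsupp.add_apply, Finsupp.smul_apply, GE5_deci h0 hi, GE5_e,
            GE5_e, if_neg, if_neg] at this
          · revert this
            rcases hOk.g_ne with rfl | rfl <;> decide
          · simp only [Prod.mk.injEq, and_true]
            exact h0n i hi
          · simp only [Prod.mk.injEq, and_true]
            exact hki
    · -- `c + g t` against `c + z_k + g t`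
      have hki : k ≠ i := by
        rintro rfl
        omega
      obtain ⟨m, hm, hmi, hmk⟩ := hthree k hk hlk i k
      have ht := GE5_tD (a := a) (b := true) (i := i) (j := m) hg0 hm hmi (hOk.pos m hm)
        (GE5_co i + GE5_co k) (by
          rw [LinearMap.add_apply, GE5_co_apply, GE5_co_apply, GE5_e, GE5_e, if_neg, if_neg, add_zero]
          · simp only [Prod.mk.injEq, and_true]
            exact h0n k hk
          · simp only [Prod.mk.injEq, and_true]
            exact h0n i hi) (by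
          intro n
          rw [LinearMap.add_apply, GE5_co_apply, GE5_co_apply, GE5_e, GE5_e, if_neg, if_neg, add_zero]
          · simp only [Prod.mk.injEq]
            exact fun h => hmk h.1
          · simp only [Prod.mk.injEq]
            exact fun h => hmi h.1)
      refine ⟨_, sep_subset _ _, add_mem (subset_span ?_) (smul_mem _ g ht), ?_⟩
      · refine ⟨Or.inl (Or.inl (Or.inr ⟨rfl, rfl⟩)), ?_⟩
        rw [LinearMap.add_apply, GE5_co_apply, GE5_co_apply, GE5_deci h0 hi, GE5_deci h0 hk]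
        decide
      · intro hmem
        have := GE5_span (GE5_co i + GE5_co k) (fun d hd => hd.2) hmem
        rw [LinearMap.add_apply, GE5_co_apply, GE5_co_apply] at this
        simp only [Finsupp.add_apply, Finsupp.smul_apply, GE5_deci h0 hi, GE5_deci h0 hk, GE5_e,
          Prod.mk.injEq, and_true, h0n i hi, h0n k hk, hki, if_true, if_false, smul_zero,
          add_zero] at this
        exact absurd this (by decide)
    · -- `c + z_k + g t` against `c + z_k' + g t`
      have hki : k ≠ i := by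
        rintro rfl
        omega
      have hki' : k' ≠ i := by
        rintro rfl
        omega
      have hkk : k ≠ k' := by
        rintro rfl
        exact hne rfl
      refine ⟨{Dec I, e k 0 + g • e 0 0}, ?_, ?_, ?_⟩
      · intro y hy
        rw [mem_insert_iff, mem_singleton_iff] at hy
        rcases hy with rfl | rfl
        · exact Or.inl (Or.inl (Or.inr ⟨rfl, rfl⟩))
        · refine Or.inr ⟨k, Finset.mem_erase.2 ⟨hki, hk⟩, 0, by omega, ?_⟩
          simp [msu, hlk]
      · rw [add_assoc]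
        exact add_mem (subset_span (by simp)) (subset_span (by simp))
      · intro hmem
        have := GE5_span (GE5_co i + GE5_co k') (D := {Dec I, e k 0 + g • e 0 0}) (by
          intro d hd
          rw [mem_insert_iff, mem_singleton_iff] at hd
          rw [LinearMap.add_apply, GE5_co_apply, GE5_co_apply]
          rcases hd with rfl | rfl
          · rw [GE5_deci h0 hi, GE5_deci h0 hk']
            decide
          · simp only [Finsupp.add_apply, Finsupp.smul_apply, GE5_e, Prod.mk.injEq, and_true,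
              h0n i hi, h0n k' hk', hki, hkk, if_false, smul_zero, add_zero]) hmem
        rw [LinearMap.add_apply, GE5_co_apply, GE5_co_apply] at this
        simp only [Finsupp.add_apply, Finsupp.smul_apply, GE5_deci h0 hi, GE5_deci h0 hk', GE5_e,
          Prod.mk.injEq, and_true, h0n i hi, h0n k' hk', hki', if_true, if_false, smul_zero,
          add_zero] at this
        exact absurd this (by decide)
  -- conclusion
  have fin : ∀ {x x' : VV}, (∃ D, D ⊆ MSC (I.erase i) l (fun i => e i 0) (fun _ => g • e 0 0)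
        (GE5C a true I) ∧ x ∈ span F4 D ∧ x' ∉ span F4 D) →
      ∃ D, D ⊆ MSC (I.erase i) l (fun i => e i 0) (fun _ => g • e 0 0) (GE5C a true I) ∧
        ¬ (x ∈ span F4 D ↔ x' ∈ span F4 D) := by
    rintro x x' ⟨D, hD, h1, h2⟩
    exact ⟨D, hD, fun h => h2 (h.1 h1)⟩
  have fin' : ∀ {x x' : VV}, (∃ D, D ⊆ MSC (I.erase i) l (fun i => e i 0) (fun _ => g • e 0 0)
        (GE5C a true I) ∧ x ∈ span F4 D ∧ x' ∉ span F4 D) →
      ∃ D, D ⊆ MSC (I.erase i) l (fun i => e i 0) (fun _ => g • e 0 0) (GE5C a true I) ∧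
        ¬ (x' ∈ span F4 D ↔ x ∈ span F4 D) := by
    rintro x x' ⟨D, hD, h1, h2⟩
    exact ⟨D, hD, fun h => h2 (h.2 h1)⟩
  have hxx := hx
  have hxx' := hx'
  simp only [GE5A, mem_union, bs, mem_ofPred_eq, mem_singleton_iff] at hx hx'
  rcases hx with rfl | ⟨_, (⟨k, hk, rfl⟩ | rfl) | ⟨k, hk, hlk, rfl⟩⟩
  · rcases hx' with rfl | ⟨_, (⟨k', hk', rfl⟩ | rfl) | ⟨k', hk', hlk', rfl⟩⟩
    · exact absurd rfl hne
    · exact fin' (key _ _ (Or.inl ⟨⟨k', hk', rfl⟩, hxx, hne.symm⟩))
    · exact fin (key _ _ (Or.inr (Or.inl ⟨rfl, Or.inl rfl⟩)))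
    · exact fin (key _ _ (Or.inr (Or.inl ⟨rfl, Or.inr ⟨k', hk', hlk', rfl⟩⟩)))
  · exact fin (key _ _ (Or.inl ⟨⟨k, hk, rfl⟩, hxx', hne⟩))
  · rcases hx' with rfl | ⟨_, (⟨k', hk', rfl⟩ | rfl) | ⟨k', hk', hlk', rfl⟩⟩
    · exact fin' (key _ _ (Or.inr (Or.inl ⟨rfl, Or.inl rfl⟩)))
    · exact fin' (key _ _ (Or.inl ⟨⟨k', hk', rfl⟩, hxx, hne.symm⟩))
    · exact absurd rfl hne
    · exact fin (key _ _ (Or.inr (Or.inr (Or.inl ⟨rfl, k', hk', hlk', rfl⟩))))
  · rcases hx' with rfl | ⟨_, (⟨k', hk', rfl⟩ | rfl) | ⟨k', hk', hlk', rfl⟩⟩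
    · exact fin' (key _ _ (Or.inr (Or.inl ⟨rfl, Or.inr ⟨k, hk, hlk, rfl⟩⟩)))
    · exact fin' (key _ _ (Or.inl ⟨⟨k', hk', rfl⟩, hxx, hne.symm⟩))
    · exact fin' (key _ _ (Or.inr (Or.inr (Or.inl ⟨rfl, k, hk, hlk, rfl⟩))))
    · exact fin (key _ _ (Or.inr (Or.inr (Or.inr ⟨⟨k, hk, hlk, rfl⟩, ⟨k', hk', hlk', rfl⟩, hne⟩))))

/-- GE5. A leg with at least three rims (GC3, with `A0 = {e 0 0}` and for `b = true` also
`c + z_j`, `c + g t`, `c + z_j + g t` (`l j = 1`); lower types from `h`). -/
theorem GE5 {g : F4} {a b : Bool} {I : Finset ℕ} {l : ℕ → ℕ} (hOk : DeOk g I l) {i : ℕ}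
    (hi : i ∈ I) (hl : 3 ≤ l i)
    (h : ∀ a', AK (DeK b I) (DeC g a' b I (dec l i)) (DeP g a' b I (dec l i))) :
    AK (DeK b I) (DeC g a b I l) (DeP g a b I l) := by
  have h0 := hOk.zero
  have hg0 := (GE5_g hOk.g_ne).1
  have h0n : ∀ k ∈ I, (0 : ℕ) ≠ k := by
    rintro k hk rfl
    exact h0 hk
  have hz : ∀ k, e k 0 ∈ Base I := by
    intro k i _ n hn
    rw [GE5_e, if_neg]
    intro h
    simp only [Prod.mk.injEq] at h
    omega
  have hMSB : MSB (DeK b I) I l (fun i => e i 0) (fun _ => g • e 0 0) (GE5C a b I)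
      (GE5A g b I l) := by
    refine ⟨?_, fun k _ => hz k, fun _ _ => (Base I).smul_mem g (hz 0), ?_, ?_, ?_⟩
    · intro x hx
      obtain ⟨κ, rfl, -⟩ := GE5_K hx
      apply (Base I).smul_mem
      intro i _ n hn
      exact GE5_decn hn
    · intro x hx
      exact GE5_base (g := g) (l := l) (Or.inl hx)
    · intro x hx
      exact GE5_base (a := a) (Or.inr hx)
    · have ht : e 0 0 ∈ span F4 (MSC I l (fun i => e i 0) (fun _ => g • e 0 0) (GE5C a b I)) := by
        apply GE5_t hg0 (j := i) (hOk.pos i hi)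
        · exact subset_span (Or.inl (Or.inl (Or.inl (Or.inl ⟨i, hi, rfl⟩))))
        · intro n hn
          exact subset_span (Or.inr ⟨i, hi, n, hn, rfl⟩)
      have hzs : ∀ k ∈ I, e k 0 ∈ span F4 (MSC I l (fun i => e i 0) (fun _ => g • e 0 0)
          (GE5C a b I)) := fun k hk => subset_span (Or.inl (Or.inl (Or.inl (Or.inl ⟨k, hk, rfl⟩))))
      have hc : b = true → Dec I ∈ span F4 (MSC I l (fun i => e i 0) (fun _ => g • e 0 0)
          (GE5C a b I)) := fun hb => subset_span (Or.inl (Or.inl (Or.inr ⟨hb, rfl⟩)))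
      intro x hx
      apply mem_sup_left
      simp only [GE5A, mem_union, bs, mem_ofPred_eq, mem_singleton_iff] at hx
      rcases hx with rfl | ⟨hb, (⟨k, hk, rfl⟩ | rfl) | ⟨k, hk, hlk, rfl⟩⟩
      · exact ht
      · exact add_mem (hc hb) (hzs k hk)
      · exact add_mem (hc hb) (smul_mem _ g ht)
      · exact add_mem (add_mem (hc hb) (hzs k hk)) (smul_mem _ g ht)
  have hC : ∀ a', GE5C a' b I ∪ {e i 0} = GE5C a' b I := by
    intro a'
    rw [union_eq_self_of_subset_right]
    rintro _ rfl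
    exact Or.inl (Or.inl ⟨i, hi, rfl⟩)
  have hA := GE5_A_dec g b I l hl
  have hh : ∀ a', AK (DeK b I) (MSC I (dec l i) (fun i => e i 0) (fun _ => g • e 0 0) (GE5C a' b I))
      (MSP I (dec l i) (fun i => e i 0) (fun _ => g • e 0 0) (GE5C a' b I) (GE5A g b I l)) := by
    intro a'
    have := h a'
    rw [GE5_P, hA] at this
    exact this
  rw [GE5_P]
  refine GC3 hMSB hi hl ?_ (GE5_hab' hOk hi) ?_ ?_ ?_ (hh a) ?_
  · -- `z_i` and `g t` independent modulo `K`
    intro s s' hmem
    obtain ⟨κ, hκ, hb⟩ := GE5_K hmem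
    obtain ⟨j, hj, hji⟩ : ∃ j ∈ I, j ≠ i := by
      have h2 : 1 < I.card := by
        have := hOk.two
        omega
      obtain ⟨j, hj, hji⟩ := Finset.exists_mem_ne h2 i
      exact ⟨j, hj, hji⟩
    have q0 := DFunLike.congr_fun hκ (0, 0)
    have qi := DFunLike.congr_fun hκ (i, 0)
    have qj := DFunLike.congr_fun hκ (j, 0)
    simp only [Finsupp.add_apply, Finsupp.smul_apply, smul_eq_mul, GE5_dec0 h0, GE5_deci h0 hi,
      GE5_deci h0 hj, GE5_e, Prod.mk.injEq, and_true, h0n i hi, h0n j hj, hji.symm,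
      (h0n i hi).symm, if_true, if_false, mul_one, mul_zero, add_zero, zero_add] at q0 qi qj
    rw [← qj] at q0 qi
    refine ⟨qi, ?_⟩
    rcases mul_eq_zero.1 q0 with h1 | h1
    · exact h1
    · exact absurd h1 hg0
  · -- legs with one rim
    intro j hj hji hlj s hmem
    obtain ⟨κ, hκ, hb⟩ := GE5_K hmem
    have q0 := DFunLike.congr_fun hκ (0, 0)
    have qi := DFunLike.congr_fun hκ (i, 0)
    have qj := DFunLike.congr_fun hκ (j, 0)
    simp only [Finsupp.add_apply, Finsupp.smul_apply, smul_eq_mul, GE5_dec0 h0, GE5_deci h0 hi,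
      GE5_deci h0 hj, GE5_e, Prod.mk.injEq, and_true, h0n i hi, h0n j hj, hji, hji.symm,
      (h0n i hi).symm, (h0n j hj).symm, if_true, if_false, mul_one, mul_zero, add_zero,
      zero_add] at q0 qi qj
    clear hmem hκ
    rw [← qi] at q0 qj
    rw [qj] at q0
    revert q0
    rcases hOk.g_ne with rfl | rfl <;> decide
  · -- separation
    intro x hx x' hx' hD
    by_cases hxx : x = x'
    · rw [hxx]
    exfalso
    cases b
    · simp only [GE5A, mem_union, bs, mem_ofPred_eq, mem_singleton_iff, Bool.false_eq_true,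
        false_and, or_false] at hx hx'
      exact hxx (hx.trans hx'.symm)
    · obtain ⟨D, hDs, hn⟩ := GE5_sep (a := a) hOk hi hl x x' hx hx' hxx
      have hK : DeK true I = ⊥ := by
        have : bs (!true) {Dec I} = ∅ := by ext; simp [bs]
        rw [DeK, this, span_empty]
      have := hD D hDs
      rw [hK, sup_bot_eq] at this
      exact hn this
  · have h2 := hh a
    rw [← hC a] at h2
    exact h2
  · intro _
    refine AK.congr ?_ ?_ (hh true)
    · apply Subset.antisymm
      · apply GE5_LnK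
        intro c hc
        simp only [MSC, GE5C, mem_union, bs, mem_ofPred_eq, mem_singleton_iff] at hc
        have triv : ∀ {C' : Set VV}, c ∈ C' → ∃ c' ∈ C', ∃ s : F4, c + s • c' ∈ DeK b I := by
          intro C' hc'
          exact ⟨c, hc', 1, by rw [one_smul, vadd_self]; exact zero_mem _⟩
        rcases hc with ((((h1 | ⟨_, rfl⟩) | h1) | h1) | h1)
        · exact triv (Or.inl (Or.inl (Or.inl (Or.inl (Or.inl h1)))))
        · refine ⟨g • e 0 0, Or.inl (Or.inl (Or.inr rfl)), g⁻¹, ?_⟩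
          rw [smul_smul, inv_mul_cancel₀ hg0, one_smul, vadd_self]
          exact zero_mem _
        · exact triv (Or.inl (Or.inl (Or.inl (Or.inr h1))))
        · exact triv (Or.inl (Or.inr h1))
        · exact triv (Or.inr h1)
      · apply GE5_LnK
        intro c hc
        simp only [MSC, mem_union, bs, mem_ofPred_eq, mem_singleton_iff] at hc
        have triv : ∀ {C' : Set VV}, c ∈ C' → ∃ c' ∈ C', ∃ s : F4, c + s • c' ∈ DeK b I := by
          intro C' hc'
          exact ⟨c, hc', 1, by rw [one_smul, vadd_self]; exact zero_mem _⟩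
        rcases hc with (((((h1 | ⟨_, rfl⟩) | h1) | rfl) | h1) | h1)
        · exact triv (Or.inl (Or.inl (Or.inl (Or.inl h1))))
        · exact triv (Or.inl (Or.inl (Or.inl (Or.inr ⟨rfl, rfl⟩))))
        · exact triv (Or.inl (Or.inl (Or.inr h1)))
        · refine ⟨e 0 0, Or.inl (Or.inl (Or.inl (Or.inr ⟨rfl, rfl⟩))), g, ?_⟩
          rw [vadd_self]
          exact zero_mem _
        · exact triv (Or.inl (Or.inr h1))
        · exact triv (Or.inr h1)
    · intro p hp
      have triv : ∀ {C' : Set VV}, p ∈ C' → ∃ c' ∈ C', ∃ s : F4, s ≠ 0 ∧ p + s • c' ∈ DeK b I := by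
        intro C' hc'
        exact ⟨p, hc', 1, one_ne_zero, by rw [one_smul, vadd_self]; exact zero_mem _⟩
      simp only [MSP, MSC, GE5C, mem_union, bs, mem_ofPred_eq, mem_singleton_iff] at hp
      rcases hp with ((((((h1 | ⟨_, rfl⟩) | h1) | h1) | h1) | h1) | h1)
      · exact triv (Or.inl (Or.inl (Or.inl (Or.inl (Or.inl (Or.inl (Or.inl h1)))))))
      · exact triv (Or.inl (Or.inr (Or.inl rfl)))
      · exact triv (Or.inl (Or.inl (Or.inl (Or.inl (Or.inl (Or.inr h1))))))
      · exact triv (Or.inl (Or.inl (Or.inl (Or.inr h1))))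
      · exact triv (Or.inl (Or.inl (Or.inr h1)))
      · exact triv (Or.inl (Or.inr h1))
      · exact triv (Or.inr h1)

end QG
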