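import Pool.Agent.Lib.QG.GE1
import Pool.Agent.Lib.QG.GE2
import Pool.Agent.Lib.QG.GB3
import Pool.Agent.Lib.QG.GB4

/-! MP_2e6874_co, part (A), row GE6. -/

set_option autoImplicit false

namespace QG
open Set Matroid Submodule

/-- the vector has only coordinates in leg `j` and at the tip -/
def GE6_Lg (j : ℕ) (x : VV) : Prop := ∀ k m, x (k, m) ≠ 0 → k = j ∨ (k = 0 ∧ m = 0)

theorem GE6_e (i n k m : ℕ) : (e i n : VV) (k, m) = if i = k ∧ n = m then 1 else 0 := by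
  unfold e
  rw [Finsupp.single_apply]
  simp only [Prod.mk.injEq]

theorem GE6_Lg_e (i n : ℕ) : GE6_Lg i (e i n) := by
  intro k m h
  rw [GE6_e] at h
  left
  by_contra hc
  exact h (if_neg fun h' => hc h'.1.symm)

theorem GE6_Lg_t (j : ℕ) : GE6_Lg j (e 0 0) := by
  intro k m h
  rw [GE6_e] at h
  right
  by_contra hc
  exact h (if_neg fun h' => hc ⟨h'.1.symm, h'.2.symm⟩)

theorem GE6_Lg_zero (j : ℕ) : GE6_Lg j 0 := fun _ _ h => absurd rfl h

theorem GE6_Lg_smul {j : ℕ} {x : VV} (s : F4) (h : GE6_Lg j x) : GE6_Lg j (s • x) := by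
  intro k m hk
  refine h k m fun h0 => hk ?_
  rw [Finsupp.smul_apply, h0, smul_zero]

theorem GE6_Lg_add {j : ℕ} {x y : VV} (h : GE6_Lg j x) (h' : GE6_Lg j y) : GE6_Lg j (x + y) := by
  intro k m hk
  by_cases h0 : x (k, m) = 0
  · refine h' k m fun h1 => hk ?_
    rw [Finsupp.add_apply, h0, h1, add_zero]
  · exact h k m h0

theorem GE6_Lg_off {j : ℕ} {x : VV} (h : GE6_Lg j x) {k : ℕ} (hk : k ≠ j) (hk0 : k ≠ 0) (m : ℕ) :
    x (k, m) = 0 := by
  by_contra hc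
  rcases h k m hc with h1 | h1
  · exact hk h1
  · exact hk0 h1.1

theorem GE6_msu (l : ℕ → ℕ) (g : F4) (i n : ℕ) :
    GE6_Lg i (msu l (fun i => e i 0) (fun _ => g • e 0 0) i n) := by
  unfold msu
  split_ifs
  · exact GE6_Lg_e i 0
  · exact GE6_Lg_smul g (GE6_Lg_t i)
  · exact GE6_Lg_e i n

theorem GE6_C {g : F4} {a : Bool} {I : Finset ℕ} {l : ℕ → ℕ} {x : VV} :
    x ∈ DeC g a false I l ↔ (∃ i ∈ I, x = e i 0) ∨ (a = true ∧ x = e 0 0) ∨
      (∃ i ∈ I, ∃ n, 0 < n ∧ n < l i ∧ x = e i n) ∨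
      (∃ i ∈ I, ∃ n < l i, x = msu l (fun i => e i 0) (fun _ => g • e 0 0) i n +
        msu l (fun i => e i 0) (fun _ => g • e 0 0) i (n + 1)) := by
  unfold DeC MSC bs
  simp only [Set.mem_union, Set.mem_ofPred_eq, Set.mem_singleton_iff, Bool.false_eq_true, false_and,
    or_false, or_assoc]

theorem GE6_P {g : F4} {a : Bool} {I : Finset ℕ} {l : ℕ → ℕ} {x : VV} :
    x ∈ DeP g a false I l ↔ x ∈ DeC g a false I l ∨ x = e 0 0 ∨ x = 0 := by
  unfold DeP bs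
  simp only [Set.mem_union, Set.mem_ofPred_eq, Set.mem_singleton_iff, Bool.false_eq_true, false_and,
    or_false, Set.mem_insert_iff]

theorem GE6_leg {g : F4} {a : Bool} {I : Finset ℕ} {l : ℕ → ℕ} {x : VV} (hI : I.Nonempty)
    (h : x ∈ DeP g a false I l) : ∃ j ∈ I, GE6_Lg j x := by
  obtain ⟨j, hj⟩ := hI
  rcases GE6_P.1 h with h | rfl | rfl
  · rcases GE6_C.1 h with ⟨i, hi, rfl⟩ | ⟨_, rfl⟩ | ⟨i, hi, n, _, _, rfl⟩ | ⟨i, hi, n, _, rfl⟩
    · exact ⟨i, hi, GE6_Lg_e i 0⟩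
    · exact ⟨j, hj, GE6_Lg_t j⟩
    · exact ⟨i, hi, GE6_Lg_e i n⟩
    · exact ⟨i, hi, GE6_Lg_add (GE6_msu l g i n) (GE6_msu l g i (n + 1))⟩
  · exact ⟨j, hj, GE6_Lg_t j⟩
  · exact ⟨j, hj, GE6_Lg_zero j⟩

theorem GE6_K {I : Finset ℕ} {k : VV} : k ∈ DeK false I ↔ ∃ s : F4, k = s • Dec I := by
  unfold DeK bs
  have : {x : VV | (!false) = true ∧ x ∈ ({Dec I} : Set VV)} = {Dec I} := by
    ext x; simp
  rw [this, Submodule.mem_span_singleton]
  exact ⟨fun ⟨s, h⟩ => ⟨s, h.symm⟩, fun ⟨s, h⟩ => ⟨s, h.symm⟩⟩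

theorem GE6_Dec {I : Finset ℕ} (h0 : 0 ∉ I) {k : ℕ} (hk : k ∈ I) : (Dec I) (k, 0) = 1 := by
  unfold Dec
  have hk0 : k ≠ 0 := fun h => h0 (h ▸ hk)
  rw [Finsupp.add_apply, GE6_e, if_neg (fun h => hk0 h.1.symm), zero_add, Finsupp.finsetSum_apply,
    Finset.sum_eq_single k]
  · rw [GE6_e, if_pos ⟨rfl, rfl⟩]
  · intro i _ hik
    rw [GE6_e, if_neg (fun h => hik h.1)]
  · intro h; exact absurd hk h

/-- there is a leg which does not contain four given vectors -/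
theorem GE6_free {I : Finset ℕ} (h5 : 5 ≤ I.card) (j₁ j₂ j₃ j₄ : ℕ) :
    ∃ k ∈ I, k ≠ j₁ ∧ k ≠ j₂ ∧ k ≠ j₃ ∧ k ≠ j₄ := by
  have hc : (({j₁, j₂, j₃, j₄} : Finset ℕ)).card ≤ 4 := Finset.card_le_four
  obtain ⟨k, hk, hk'⟩ := Finset.exists_mem_notMem_of_card_lt_card
    (lt_of_le_of_lt hc (by omega : 4 < I.card))
  simp only [Finset.mem_insert, Finset.mem_singleton, not_or] at hk'
  exact ⟨k, hk, hk'.1, hk'.2.1, hk'.2.2.1, hk'.2.2.2⟩

/-- a sum of four vectors in legs which is a multiple of `c` is zero -/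
theorem GE6_sum {I : Finset ℕ} (h0 : 0 ∉ I) (h5 : 5 ≤ I.card) {j₁ j₂ j₃ j₄ : ℕ}
    {x₁ x₂ x₃ x₄ : VV} (h1 : GE6_Lg j₁ x₁) (h2 : GE6_Lg j₂ x₂) (h3 : GE6_Lg j₃ x₃)
    (h4 : GE6_Lg j₄ x₄) {s : F4} (h : x₁ + x₂ + x₃ + x₄ = s • Dec I) : s = 0 := by
  obtain ⟨k, hk, k1, k2, k3, k4⟩ := GE6_free h5 j₁ j₂ j₃ j₄
  have hk0 : k ≠ 0 := fun h => h0 (h ▸ hk)
  have h' := DFunLike.congr_fun h (k, 0)
  rw [Finsupp.smul_apply, GE6_Dec h0 hk, Finsupp.add_apply, Finsupp.add_apply, Finsupp.add_apply,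
    GE6_Lg_off h1 k1 hk0, GE6_Lg_off h2 k2 hk0, GE6_Lg_off h3 k3 hk0, GE6_Lg_off h4 k4 hk0] at h'
  simpa using h'.symm

/-- the set `R` -/
def GE6_R (g : F4) (i₁ i₂ i₃ : ℕ) : Set VV :=
  {x | ∃ i, (i = i₁ ∨ i = i₂ ∨ i = i₃) ∧ (x = e i 0 ∨ x = e i 0 + g • e 0 0)}

theorem GE6_rim {g : F4} {a : Bool} {I : Finset ℕ} {l : ℕ → ℕ} {i : ℕ} (hi : i ∈ I)
    (hl : l i = 1) : e i 0 + g • e 0 0 ∈ DeC g a false I l := by
  refine GE6_C.2 (Or.inr (Or.inr (Or.inr ⟨i, hi, 0, by omega, ?_⟩)))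
  unfold msu
  rw [if_pos rfl, if_neg (by omega), if_pos (by omega)]

theorem GE6_Rleg {g : F4} {i₁ i₂ i₃ : ℕ} {y : VV} (hy : y ∈ GE6_R g i₁ i₂ i₃) :
    ∃ j, (j = i₁ ∨ j = i₂ ∨ j = i₃) ∧ GE6_Lg j y := by
  obtain ⟨i, hi, rfl | rfl⟩ := hy
  · exact ⟨i, hi, GE6_Lg_e i 0⟩
  · exact ⟨i, hi, GE6_Lg_add (GE6_Lg_e i 0) (GE6_Lg_smul g (GE6_Lg_t i))⟩

/-- the coordinate sum of the legs `i₁`, `i₂` vanishes on points which are not in `R` -/
theorem GE6_psi {g : F4} {a : Bool} {I : Finset ℕ} {l : ℕ → ℕ} (h0 : 0 ∉ I) {i₁ i₂ : ℕ}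
    (i₃ : ℕ) (h1 : i₁ ∈ I) (h2 : i₂ ∈ I) (l1 : l i₁ = 1) (l2 : l i₂ = 1) {x : VV}
    (hx : x ∈ DeC g a false I l) (hR : x ∉ GE6_R g i₁ i₂ i₃) : x (i₁, 0) = 0 ∧ x (i₂, 0) = 0 := by
  have n1 : i₁ ≠ 0 := fun h => h0 (h ▸ h1)
  have n2 : i₂ ≠ 0 := fun h => h0 (h ▸ h2)
  have key : ∀ i, i ≠ 0 → i ∈ I → l i = 1 → (i = i₁ ∨ i = i₂ ∨ i = i₃) → x (i, 0) = 0 := by
    intro i hi0 hiI hli hi
    rcases GE6_C.1 hx with ⟨j, hj, rfl⟩ | ⟨_, rfl⟩ | ⟨j, hj, n, hn, hn', rfl⟩ | ⟨j, hj, n, hn, rfl⟩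
    · have hji : j ≠ i := fun h => hR ⟨i, hi, Or.inl (by rw [h])⟩
      exact GE6_Lg_off (GE6_Lg_e j 0) hji.symm hi0 0
    · exact GE6_Lg_off (GE6_Lg_t 0) hi0 hi0 0
    · rw [GE6_e, if_neg (fun h => by omega)]
    · have hji : j ≠ i := by
        rintro rfl
        have hn0 : n = 0 := by omega
        subst hn0
        apply hR
        refine ⟨j, hi, Or.inr ?_⟩
        unfold msu
        rw [if_pos rfl, if_neg (by omega), if_pos (by omega)]
      exact GE6_Lg_off (GE6_Lg_add (GE6_msu l g j n) (GE6_msu l g j (n + 1))) hji.symm hi0 0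
  exact ⟨key i₁ n1 h1 l1 (Or.inl rfl), key i₂ n2 h2 l2 (Or.inr (Or.inl rfl))⟩

/-- GE6 (= T2a). `c` contracted, at least five legs, three of them (`i₁, i₂, i₃`) with `l = 1`.
`R = {z_i, z_i + g t : i = i₁, i₂, i₃}`, `Q = P = DeC ∪ {t, 0}`, contractions GE1, GE2.
* FourK: `z₁, z₂, z₃, z₁ + g t` are independent modulo `c` (other legs have coordinates in `c`).
* CocK: `φ ≠ 0` on `R`, `φ c = 0`. `ψ = ` (coordinate `(i₁,0)`) + (coordinate `(i₂,0)`): `ψ c = 0`; points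
  with `ψ ≠ 0`: `z₁, r₁, z₂, r₂`, all in `R`. `c₁ = z₃`, `c₂ = z₁`.
* SepK: the only vector of `P` which is not a point or 0 is `t`, so `p = p' = t`.
* HelK: let `q ∉ K`, `q + α_y y + β_y p_y ∈ K` for `y ∈ R`, i.e. `q + α_y y + β_y p_y = κ_y c`. For `y, y'`:
  `α_y y + β_y p_y + α_y' y' + β_y' p_y' = (κ_y + κ_y') c`; every vector on the left has a nonzero
  coordinate `(j, 0)` for at most one `j ∈ I` and there are at least five legs, so `κ_y = κ_y'`. So with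
  `q' = q + κ c`: `q' = α_y y + β_y p_y` for all `y ∈ R`. Let `π_j` be the part of a vector with coordinates
  `(j, n)`. If `π_j q' ≠ 0` and `π_k q' ≠ 0` for `j ≠ k` in `I`, take `y = z_i`, `i ∈ {i₁,i₂,i₃}`, `i ≠ j, k`:
  `p_y` would have coordinates in both legs `j`, `k`, impossible. If `π_j q' = 0` for all `j ∈ I` then `q'` is a
  multiple of `t` (it is in the span of `t` and the legs), done. If `π_j q' ≠ 0` for exactly one `j`, take
  `y = z_i`, `i ∈ {i₁,i₂,i₃}`, `i ≠ j`: `π_j q' = β_y π_j p_y ≠ 0`, so `p_y` is in leg `j`, `π_i p_y = 0`,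
  `0 = π_i q' = α_y π_i y`, so `α_y = 0` and `q' = β_y p_y`, done. -/
theorem GE6 {g : F4} {a : Bool} {I : Finset ℕ} {l : ℕ → ℕ} (hOk : DeOk g I l) (h5 : 5 ≤ I.card)
    {i₁ i₂ i₃ : ℕ} (h1 : i₁ ∈ I) (h2 : i₂ ∈ I) (h3 : i₃ ∈ I) (h12 : i₁ ≠ i₂) (h13 : i₁ ≠ i₃)
    (h23 : i₂ ≠ i₃) (l1 : l i₁ = 1) (l2 : l i₂ = 1) (l3 : l i₃ = 1)
    (h : ∀ i ∈ I, l i = 1 → ∀ g', (g' = F4.w ∨ g' = F4.v) →
      AK (DeK false (I.erase i)) (DeC g' true false (I.erase i) l)
        (DeP g' true false (I.erase i) l)) :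
    AK (DeK false I) (DeC g a false I l) (DeP g a false I l) := by
  have h0 : 0 ∉ I := hOk.zero
  have hg := hOk.g_ne
  have hg0 : g ≠ 0 := by rcases hg with rfl | rfl <;> decide
  have hgg : g * g = F4.w ∨ g * g = F4.v := by rcases hg with rfl | rfl <;> decide
  have n1 : i₁ ≠ 0 := fun h => h0 (h ▸ h1)
  have n2 : i₂ ≠ 0 := fun h => h0 (h ▸ h2)
  have n3 : i₃ ≠ 0 := fun h => h0 (h ▸ h3)
  have hIne : I.Nonempty := ⟨i₁, h1⟩
  have hiI : ∀ i, (i = i₁ ∨ i = i₂ ∨ i = i₃) → i ∈ I ∧ l i = 1 ∧ i ≠ 0 := by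
    rintro i (rfl | rfl | rfl)
    · exact ⟨h1, l1, n1⟩
    · exact ⟨h2, l2, n2⟩
    · exact ⟨h3, l3, n3⟩
  set R := GE6_R g i₁ i₂ i₃ with hRdef
  have hRC : R ⊆ DeC g a false I l := by
    rintro y ⟨i, hi, rfl | rfl⟩
    · exact GE6_C.2 (Or.inl ⟨i, (hiI i hi).1, rfl⟩)
    · exact GE6_rim (hiI i hi).1 (hiI i hi).2.1
  have hz1 : (e i₁ 0 : VV) ∈ R := ⟨i₁, Or.inl rfl, Or.inl rfl⟩
  have hz2 : (e i₂ 0 : VV) ∈ R := ⟨i₂, Or.inr (Or.inl rfl), Or.inl rfl⟩
  have hz3 : (e i₃ 0 : VV) ∈ R := ⟨i₃, Or.inr (Or.inr rfl), Or.inl rfl⟩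
  have hCP : DeC g a false I l ⊆ DeP g a false I l := fun x hx => GE6_P.2 (Or.inl hx)
  have hP0 : (0 : VV) ∈ DeP g a false I l := GE6_P.2 (Or.inr (Or.inr rfl))
  have hinj : ∀ y ∈ R, ∀ y' ∈ R, y + y' ∈ DeK false I → y = y' := by
    intro y hy y' hy' hyy
    obtain ⟨j, -, hj⟩ := GE6_Rleg hy
    obtain ⟨j', -, hj'⟩ := GE6_Rleg hy'
    obtain ⟨s, hs⟩ := GE6_K.1 hyy
    have := GE6_sum h0 h5 hj hj' (GE6_Lg_zero 0) (GE6_Lg_zero 0) (s := s)
      (by rw [add_zero, add_zero, hs])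
    rw [this, zero_smul] at hs
    exact vadd_eq_zero.1 hs
  have hR0 : ∀ y ∈ R, y ∉ DeK false I := by
    intro y hy hyK
    obtain ⟨j, -, hj⟩ := GE6_Rleg hy
    obtain ⟨s, hs⟩ := GE6_K.1 hyK
    have h4 := GE6_sum h0 h5 hj (GE6_Lg_zero 0) (GE6_Lg_zero 0) (GE6_Lg_zero 0) (s := s)
      (by rw [add_zero, add_zero, add_zero, hs])
    rw [h4, zero_smul] at hs
    obtain ⟨i, hi, hy | hy⟩ := hy
    · have := DFunLike.congr_fun (hs.symm.trans hy) (i, 0)
      rw [GE6_e, if_pos ⟨rfl, rfl⟩, Finsupp.coe_zero, Pi.zero_apply] at this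
      exact absurd this (by decide)
    · have := DFunLike.congr_fun (hs.symm.trans hy) (i, 0)
      rw [Finsupp.add_apply, Finsupp.smul_apply, GE6_e, if_pos ⟨rfl, rfl⟩, GE6_e,
        if_neg (fun h => (hiI i hi).2.2 h.1.symm), smul_zero, add_zero, Finsupp.coe_zero,
        Pi.zero_apply] at this
      exact absurd this (by decide)
  have htC : (e 0 0 : VV) ∈ span F4 (DeC g a false I l) := by
    have h6 : g • (e 0 0 : VV) = (e i₁ 0 + g • e 0 0) + e i₁ 0 := by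
      rw [add_comm, ← add_assoc, vadd_self, zero_add]
    rw [← Submodule.smul_mem_iff _ hg0, h6]
    exact Submodule.add_mem _ (Submodule.subset_span (GE6_rim h1 l1))
      (Submodule.subset_span (hRC hz1))
  have hQ : ∀ y ∈ R, ∀ p ∈ DeP g a false I l, p ∈ span F4 (DeC g a false I l) ⊔ DeK false I := by
    intro y _ p hp
    refine Submodule.mem_sup_left ?_
    rcases GE6_P.1 hp with hp | rfl | rfl
    · exact Submodule.subset_span hp
    · exact htC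
    · exact Submodule.zero_mem _
  have hC : ∀ y ∈ R, CK (DeK false I) (DeC g a false I l) y (DeP g a false I l) := by
    rintro y ⟨i, hi, rfl | rfl⟩
    · exact GE1 hg h0 hOk.two (hiI i hi).1 (hiI i hi).2.1 (h i (hiI i hi).1 (hiI i hi).2.1 g hg)
    · exact GE2 hg h0 hOk.two (hiI i hi).1 (hiI i hi).2.1
        (h i (hiI i hi).1 (hiI i hi).2.1 (g * g) hgg)
  -- the cocircuit condition
  have hcoc : CocK (DeK false I) (DeC g a false I l) R := by
    intro φ _ hφ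
    have hψ : ∀ x : VV, (Finsupp.lapply (i₁, 0) + Finsupp.lapply (i₂, 0) : VV →ₗ[F4] F4) x =
        x (i₁, 0) + x (i₂, 0) := fun x => by
      rw [LinearMap.add_apply, Finsupp.lapply_apply, Finsupp.lapply_apply]
    refine ⟨Finsupp.lapply (i₁, 0) + Finsupp.lapply (i₂, 0), ?_, ?_, e i₃ 0, hRC hz3, e i₁ 0,
      hRC hz1, ?_⟩
    · intro k hk
      obtain ⟨s, rfl⟩ := GE6_K.1 hk
      rw [hψ, Finsupp.smul_apply, Finsupp.smul_apply, GE6_Dec h0 h1, GE6_Dec h0 h2]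
      exact F4.add_self _
    · intro c hc hc0
      obtain ⟨e1, e2⟩ := GE6_psi h0 i₃ h1 h2 l1 l2 hc (fun hcR => hφ c hcR hc0)
      rw [hψ, e1, e2, add_zero]
    · rw [hψ, hψ, GE6_e, GE6_e, GE6_e, GE6_e, if_pos ⟨rfl, rfl⟩, if_neg (fun h => h12 h.1),
        if_neg (fun h => h13 h.1.symm), if_neg (fun h => h23 h.1.symm), add_zero, add_zero,
        mul_one, mul_zero]
      exact hφ _ hz3
  -- four independent vectors
  have h4 : FourK (DeK false I) R := by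
    refine ⟨![e i₁ 0, e i₂ 0, e i₃ 0, e i₁ 0 + g • e 0 0], ?_, ?_⟩
    · intro j
      fin_cases j
      · exact hz1
      · exact hz2
      · exact hz3
      · exact ⟨i₁, Or.inl rfl, Or.inr rfl⟩
    · intro c hc
      obtain ⟨s, hs⟩ := GE6_K.1 hc
      simp only [Matrix.cons_val_zero, Matrix.cons_val_one, Matrix.cons_val] at hs
      have hs0 := GE6_sum h0 h5 (GE6_Lg_smul (c 0) (GE6_Lg_e i₁ 0))
        (GE6_Lg_smul (c 1) (GE6_Lg_e i₂ 0)) (GE6_Lg_smul (c 2) (GE6_Lg_e i₃ 0))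
        (GE6_Lg_smul (c 3) (GE6_Lg_add (GE6_Lg_e i₁ 0) (GE6_Lg_smul g (GE6_Lg_t i₁)))) hs
      rw [hs0, zero_smul] at hs
      have ev : ∀ k m, c 0 * (e i₁ 0 : VV) (k, m) + c 1 * (e i₂ 0 : VV) (k, m) +
          c 2 * (e i₃ 0 : VV) (k, m) +
          c 3 * ((e i₁ 0 : VV) (k, m) + g * (e 0 0 : VV) (k, m)) = 0 := by
        intro k m
        have := DFunLike.congr_fun hs (k, m)
        simpa only [Finsupp.add_apply, Finsupp.smul_apply, smul_eq_mul, Finsupp.coe_zero,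
          Pi.zero_apply] using this
      have hc3 : c 3 = 0 := by
        have := ev 0 0
        simp only [GE6_e, n1, n2, n3, false_and, if_false, if_true, and_self,
          mul_zero, zero_add, mul_one, add_zero] at this
        exact (mul_eq_zero.1 this).resolve_right hg0
      have hc0 : c 0 = 0 := by
        have := ev i₁ 0
        simp only [GE6_e, hc3, h12.symm, h13.symm, false_and, if_false, and_self, if_true,
          mul_zero, mul_one, add_zero, zero_mul] at this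
        exact this
      have hc1 : c 1 = 0 := by
        have := ev i₂ 0
        simp only [GE6_e, hc3, h12, h23.symm, false_and, if_false, and_self, if_true,
          mul_zero, mul_one, add_zero, zero_mul, zero_add] at this
        exact this
      have hc2 : c 2 = 0 := by
        have := ev i₃ 0
        simp only [GE6_e, hc3, h13, h23, false_and, if_false, and_self, if_true,
          mul_zero, mul_one, add_zero, zero_mul, zero_add] at this
        exact this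
      intro j
      fin_cases j
      · exact hc0
      · exact hc1
      · exact hc2
      · exact hc3
  -- separation
  have hsep : SepK (DeK false I) (DeC g a false I l) R (fun _ => DeP g a false I l) := by
    have ht : ∀ (y y' p : VV), p ∈ DeP g a false I l →
        (∀ c ∈ insert 0 (DeC g a false I l), ∀ s : F4, p + s • c ∉ span F4 {y, y'} ⊔ DeK false I) →
        p = e 0 0 := by
      intro y y' p hp hs
      rcases GE6_P.1 hp with hp | rfl | rfl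
      · exact absurd (by rw [one_smul, vadd_self]; exact Submodule.zero_mem _)
          (hs p (Set.mem_insert_of_mem _ hp) 1)
      · rfl
      · exact absurd (by rw [smul_zero, add_zero]; exact Submodule.zero_mem _)
          (hs 0 (Set.mem_insert _ _) 1)
    intro y _ y' _ _ p hp p' hp' hs hs' _
    rw [ht y y' p hp hs, ht y y' p' hp' hs']
    exact Submodule.mem_sup_left (Submodule.subset_span (by simp))
  -- the Helly condition
  have hhel : HelK (DeK false I) (DeC g a false I l) (DeP g a false I l) R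
      (fun _ => DeP g a false I l) := by
    intro q _ hqK hq
    have hq' : ∀ y ∈ R, ∃ p ∈ DeP g a false I l, ∃ α β κ : F4,
        q + α • y + β • p = κ • Dec I := by
      intro y hy
      obtain ⟨p, hp, α, β, hk⟩ := hq y hy
      obtain ⟨κ, hκ⟩ := GE6_K.1 hk
      rcases Set.mem_insert_iff.1 hp with rfl | hp
      · exact ⟨0, hP0, α, β, κ, hκ⟩
      · exact ⟨p, hp, α, β, κ, hκ⟩
    obtain ⟨p₁, hp₁, α₁, β₁, κ₁, E1⟩ := hq' _ hz1
    obtain ⟨p₂, hp₂, α₂, β₂, κ₂, E2⟩ := hq' _ hz2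
    obtain ⟨p₃, hp₃, α₃, β₃, κ₃, E3⟩ := hq' _ hz3
    have hκ : ∀ {i i' : ℕ} {p p' : VV} {α β κ α' β' κ' : F4}, p ∈ DeP g a false I l →
        p' ∈ DeP g a false I l → q + α • e i 0 + β • p = κ • Dec I →
        q + α' • e i' 0 + β' • p' = κ' • Dec I → κ = κ' := by
      intro i i' p p' α β κ α' β' κ' hp hp' e1 e2
      obtain ⟨j, _, hj⟩ := GE6_leg hIne hp
      obtain ⟨j', _, hj'⟩ := GE6_leg hIne hp'
      have e3 : α • e i 0 + β • p + α' • e i' 0 + β' • p' = (κ + κ') • Dec I := by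
        rw [add_smul, ← e1, ← e2]
        have : q + α • e i 0 + β • p + (q + α' • e i' 0 + β' • p') =
          (q + q) + (α • e i 0 + β • p + α' • e i' 0 + β' • p') := by abel
        rw [this, vadd_self, zero_add]
      have := GE6_sum h0 h5 (GE6_Lg_smul α (GE6_Lg_e i 0)) (GE6_Lg_smul β hj)
        (GE6_Lg_smul α' (GE6_Lg_e i' 0)) (GE6_Lg_smul β' hj') e3
      revert this
      clear e3 e1 e2
      revert κ κ'
      decide
    have hk2 := hκ hp₁ hp₂ E1 E2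
    have hk3 := hκ hp₁ hp₃ E1 E3
    subst hk2 hk3
    set q' := q + κ₁ • Dec I with hq'def
    have hE : ∀ {i : ℕ} {p : VV} {α β : F4}, q + α • e i 0 + β • p = κ₁ • Dec I →
        q' = α • e i 0 + β • p := by
      intro i p α β e1
      rw [hq'def, ← e1]
      have : q + (q + α • e i 0 + β • p) = (q + q) + (α • e i 0 + β • p) := by abel
      rw [this, vadd_self, zero_add]
    have F1 := hE E1
    have F2 := hE E2
    have F3 := hE E3
    have hq'0 : q' ≠ 0 := by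
      intro hz
      apply hqK
      rw [hq'def] at hz
      rw [vadd_eq_zero.1 hz]
      exact GE6_K.2 ⟨κ₁, rfl⟩
    -- it is enough to write q' as a multiple of a vector of P
    suffices hsuf : ∃ p ∈ DeP g a false I l, ∃ s : F4, q' = s • p by
      obtain ⟨p, hp, s, hs⟩ := hsuf
      have hs0 : s ≠ 0 := by
        rintro rfl; rw [zero_smul] at hs; exact hq'0 hs
      refine ⟨p, hp, s, hs0, GE6_K.2 ⟨κ₁, ?_⟩⟩
      rw [← hs, hq'def, ← add_assoc, vadd_self, zero_add]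
    -- the main argument for two legs which are not the leg of q'
    have hmain : ∀ {i i' j m : ℕ} {p p' : VV} {α β α' β' : F4}, i ≠ 0 → i' ≠ 0 → i ≠ i' →
        i ≠ j → i' ≠ j → ¬ (j = 0 ∧ m = 0) → q' (j, m) ≠ 0 → p ∈ DeP g a false I l →
        p' ∈ DeP g a false I l → q' = α • e i 0 + β • p → q' = α' • e i' 0 + β' • p' →
        q' = β • p := by
      intro i i' j m p p' α β α' β' hi0 hi'0 hii hij hi'j hj0 hqj hp hp' e1 e2
      have hleg : ∀ {i : ℕ} {p : VV} {α β : F4}, i ≠ j → p ∈ DeP g a false I l →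
          q' = α • e i 0 + β • p → GE6_Lg j p := by
        intro i p α β hij hp e1
        obtain ⟨j', _, hj'⟩ := GE6_leg hIne hp
        have hpj : p (j, m) ≠ 0 := by
          intro hz
          apply hqj
          rw [e1, Finsupp.add_apply, Finsupp.smul_apply, Finsupp.smul_apply, hz, GE6_e,
            if_neg (fun h => hij h.1), smul_zero, smul_zero, add_zero]
        rcases hj' j m hpj with hjj | hjj
        · rw [hjj]; exact hj'
        · exact absurd hjj hj0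
      have L1 := hleg hij hp e1
      have L2 := hleg hi'j hp' e2
      have hα : α = 0 := by
        have := DFunLike.congr_fun (e1.symm.trans e2) (i, 0)
        rw [Finsupp.add_apply, Finsupp.add_apply, Finsupp.smul_apply, Finsupp.smul_apply,
          Finsupp.smul_apply, Finsupp.smul_apply, GE6_e, GE6_e, if_pos ⟨rfl, rfl⟩,
          if_neg (fun h => hii h.1.symm), GE6_Lg_off L1 hij hi0, GE6_Lg_off L2 hij hi0] at this
        simpa using this
      rw [e1, hα, zero_smul, zero_add]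
    by_cases hJ : ∃ j m, ¬ (j = 0 ∧ m = 0) ∧ q' (j, m) ≠ 0
    · obtain ⟨j, m, hjm, hqj⟩ := hJ
      by_cases hj1 : i₁ = j
      · exact ⟨p₂, hp₂, β₂, hmain n2 n3 h23 (fun h => h12 (hj1.trans h.symm))
          (fun h => h13 (hj1.trans h.symm)) hjm hqj hp₂ hp₃ F2 F3⟩
      · by_cases hj2 : i₂ = j
        · exact ⟨p₁, hp₁, β₁, hmain n1 n3 h13 hj1 (fun h => h23 (hj2.trans h.symm)) hjm hqj
            hp₁ hp₃ F1 F3⟩
        · exact ⟨p₁, hp₁, β₁, hmain n1 n2 h12 hj1 hj2 hjm hqj hp₁ hp₂ F1 F2⟩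
    · push Not at hJ
      refine ⟨e 0 0, GE6_P.2 (Or.inr (Or.inl rfl)), q' (0, 0), ?_⟩
      ext ⟨j, m⟩
      rw [Finsupp.smul_apply, GE6_e]
      by_cases h00 : j = 0 ∧ m = 0
      · rw [if_pos ⟨h00.1.symm, h00.2.symm⟩, h00.1, h00.2, smul_eq_mul, mul_one]
      · rw [if_neg (fun h => h00 ⟨h.1.symm, h.2.symm⟩), smul_zero]
        exact hJ j m (fun h1 h2 => h00 ⟨h1, h2⟩)
  exact stepK (Q := fun _ => DeP g a false I l) ⟨_, hz1⟩ hRC hinj hR0 hC hQ hCP hP0 hcoc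
    (concK hRC hinj hR0 hQ h4 hsep hhel)

end QG
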