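import Pool.Agent.Lib.QG.GE7b

/-! MP_2e6874_co, part (A), row GE7c. -/

set_option autoImplicit false

namespace QG
open Set Matroid Submodule

/-- leg vectors -/
private def LV (g : F4) (k : ℕ) (v : VV) : Prop :=
  (∃ n, v = e k n) ∨ (∃ n, v = e k n + e k (n + 1)) ∨ ∃ n, v = e k n + g • e 0 0

private theorem e_val (k n h m : ℕ) : (e k n : VV) (h, m) = if k = h ∧ n = m then 1 else 0 := by
  unfold e
  rw [Finsupp.single_apply]
  simp only [Prod.mk.injEq]

private theorem LV.off {g : F4} {k : ℕ} {v : VV} (hv : LV g k v) {h n : ℕ} (hk : h ≠ k)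
    (h0 : (h, n) ≠ (0, 0)) : v (h, n) = 0 := by
  have h1 : ¬ (0 = h ∧ 0 = n) := by
    rintro ⟨rfl, rfl⟩
    exact h0 rfl
  have h2 : ∀ m, ¬ (k = h ∧ m = n) := fun m hh => hk hh.1.symm
  rcases hv with ⟨m, rfl⟩ | ⟨m, rfl⟩ | ⟨m, rfl⟩
  · rw [e_val, if_neg (h2 m)]
  · rw [Finsupp.add_apply, e_val, e_val, if_neg (h2 _), if_neg (h2 _), add_zero]
  · rw [Finsupp.add_apply, Finsupp.smul_apply, e_val, e_val, if_neg (h2 _), if_neg h1, smul_zero,
      add_zero]

private theorem LV.bit {g : F4} {k : ℕ} {v : VV} (hv : LV g k v) (hk0 : k ≠ 0) (n : ℕ) :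
    v (k, n) = 0 ∨ v (k, n) = 1 := by
  have h1 : ¬ (0 = k ∧ 0 = n) := fun hh => hk0 hh.1.symm
  rcases hv with ⟨m, rfl⟩ | ⟨m, rfl⟩ | ⟨m, rfl⟩
  · rw [e_val]
    by_cases hm : m = n
    · right; rw [if_pos ⟨rfl, hm⟩]
    · left; rw [if_neg (fun hh => hm hh.2)]
  · rw [Finsupp.add_apply, e_val, e_val]
    by_cases hm : m = n
    · right; rw [if_pos ⟨rfl, hm⟩, if_neg (fun hh => by omega), add_zero]
    · by_cases hm' : m + 1 = n
      · right; rw [if_neg (fun hh => hm hh.2), if_pos ⟨rfl, hm'⟩, zero_add]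
      · left; rw [if_neg (fun hh => hm hh.2), if_neg (fun hh => hm' hh.2), add_zero]
  · rw [Finsupp.add_apply, Finsupp.smul_apply, e_val, e_val, if_neg h1, smul_zero, add_zero]
    by_cases hm : m = n
    · right; rw [if_pos ⟨rfl, hm⟩]
    · left; rw [if_neg (fun hh => hm hh.2)]

private theorem LV.tc {g : F4} {k : ℕ} {v : VV} (hv : LV g k v) (hk0 : k ≠ 0) :
    v (0, 0) = 0 ∨ v (0, 0) = g := by
  have h2 : ∀ m, ¬ (k = 0 ∧ m = 0) := fun m hh => hk0 hh.1
  rcases hv with ⟨m, rfl⟩ | ⟨m, rfl⟩ | ⟨m, rfl⟩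
  · left; rw [e_val, if_neg (h2 _)]
  · left; rw [Finsupp.add_apply, e_val, e_val, if_neg (h2 _), if_neg (h2 _), add_zero]
  · right
    rw [Finsupp.add_apply, Finsupp.smul_apply, e_val, e_val, if_neg (h2 _), if_pos ⟨rfl, rfl⟩,
      zero_add, smul_eq_mul, mul_one]

private theorem LV.ex {g : F4} {k : ℕ} {v : VV} (hv : LV g k v) (hk0 : k ≠ 0) :
    ∃ n, v (k, n) = 1 := by
  rcases hv with ⟨m, rfl⟩ | ⟨m, rfl⟩ | ⟨m, rfl⟩
  · exact ⟨m, by rw [e_val, if_pos ⟨rfl, rfl⟩]⟩
  · exact ⟨m, by rw [Finsupp.add_apply, e_val, e_val, if_pos ⟨rfl, rfl⟩,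
      if_neg (fun hh => by omega), add_zero]⟩
  · exact ⟨m, by rw [Finsupp.add_apply, Finsupp.smul_apply, e_val, e_val, if_pos ⟨rfl, rfl⟩,
      if_neg (fun hh => hk0 hh.1.symm), smul_zero, add_zero]⟩

private theorem Dec_leg {I : Finset ℕ} (h0 : 0 ∉ I) {k : ℕ} (hk : k ∈ I) : (Dec I) (k, 0) = 1 := by
  have hk0 : k ≠ 0 := fun h => h0 (h ▸ hk)
  unfold Dec
  rw [Finsupp.add_apply, e_val, if_neg (fun hh => hk0 hh.1.symm), zero_add, Finsupp.finsetSum_apply,
    Finset.sum_eq_single k]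
  · rw [e_val, if_pos ⟨rfl, rfl⟩]
  · intro b _ hb
    rw [e_val, if_neg (fun hh => hb hh.1)]
  · intro h
    exact absurd hk h

private theorem Dec_tip {I : Finset ℕ} (h0 : 0 ∉ I) : (Dec I) (0, 0) = 1 := by
  unfold Dec
  rw [Finsupp.add_apply, e_val, if_pos ⟨rfl, rfl⟩, Finsupp.finsetSum_apply, Finset.sum_eq_zero,
    add_zero]
  intro b hb
  rw [e_val, if_neg]
  rintro ⟨rfl, _⟩
  exact h0 hb

private theorem tip_leg {k n : ℕ} (hk : k ≠ 0) : (e 0 0 : VV) (k, n) = 0 := by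
  rw [e_val, if_neg (fun hh => hk hh.1.symm)]

private theorem tip_tip : (e 0 0 : VV) (0, 0) = 1 := by
  rw [e_val, if_pos ⟨rfl, rfl⟩]

/-- the vertices of a leg -/
private theorem msu_lt {g : F4} {l : ℕ → ℕ} {k n : ℕ} (hn : n < l k) :
    msu l (fun i => e i 0) (fun _ => g • e 0 0) k n = e k n := by
  unfold msu
  by_cases h : n = 0
  · rw [if_pos h, h]
  · rw [if_neg h, if_neg (by omega)]

private theorem msu_last {g : F4} {l : ℕ → ℕ} {k n : ℕ} (hn : n + 1 = l k) :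
    msu l (fun i => e i 0) (fun _ => g • e 0 0) k (n + 1) = g • e 0 0 := by
  unfold msu
  rw [if_neg (by omega), if_pos hn]

private theorem rim_LV {g : F4} {l : ℕ → ℕ} {k n : ℕ} (hn : n < l k) :
    LV g k (msu l (fun i => e i 0) (fun _ => g • e 0 0) k n +
      msu l (fun i => e i 0) (fun _ => g • e 0 0) k (n + 1)) := by
  rw [msu_lt hn]
  by_cases h : n + 1 = l k
  · rw [msu_last h]
    exact Or.inr (Or.inr ⟨n, rfl⟩)
  · rw [msu_lt (n := n + 1) (by omega)]
    exact Or.inr (Or.inl ⟨n, rfl⟩)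

private theorem DeC_cases {g : F4} {a : Bool} {I : Finset ℕ} {l : ℕ → ℕ} {ε : VV}
    (hε : ε ∈ DeC g a false I l) : ε = e 0 0 ∨ ∃ k ∈ I, LV g k ε := by
  rcases hε with (((⟨i, hi, rfl⟩ | ⟨_, hx⟩) | ⟨hb, _⟩) | ⟨i, hi, n, _, _, rfl⟩) | ⟨i, hi, n, hn, rfl⟩
  · exact Or.inr ⟨i, hi, Or.inl ⟨0, rfl⟩⟩
  · exact Or.inl hx
  · exact absurd hb (by decide)
  · exact Or.inr ⟨i, hi, Or.inl ⟨n, rfl⟩⟩
  · exact Or.inr ⟨i, hi, rim_LV hn⟩

private theorem DeC_mono {g : F4} {a b : Bool} {I : Finset ℕ} {l : ℕ → ℕ} {ε : VV}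
    (hε : ε ∈ DeC g a false I l) : ε ∈ DeC g a b I l ∧ ε ∈ DeC g true false I l := by
  rcases hε with (((h | ⟨_, hx⟩) | ⟨hb, _⟩) | h) | h
  · exact ⟨Or.inl (Or.inl (Or.inl (Or.inl h))), Or.inl (Or.inl (Or.inl (Or.inl h)))⟩
  · rename_i ha
    exact ⟨Or.inl (Or.inl (Or.inl (Or.inr ⟨ha, hx⟩))), Or.inl (Or.inl (Or.inl (Or.inr ⟨rfl, hx⟩)))⟩
  · exact absurd hb (by decide)
  · exact ⟨Or.inl (Or.inr h), Or.inl (Or.inr h)⟩
  · exact ⟨Or.inr h, Or.inr h⟩

/-- the points of a leg span the tip -/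
private theorem tip_mem {g : F4} (hg : g ≠ 0) {a : Bool} {I : Finset ℕ} {l : ℕ → ℕ} {k : ℕ}
    (hk : k ∈ I) (hl : 1 ≤ l k) :
    (e 0 0 : VV) ∈ span F4 {v | v ∈ DeC g a true I l ∧ LV g k v} := by
  have h1 : (e k (l k - 1) : VV) ∈ span F4 {v | v ∈ DeC g a true I l ∧ LV g k v} := by
    refine subset_span ⟨?_, Or.inl ⟨_, rfl⟩⟩
    by_cases h : l k - 1 = 0
    · rw [h]
      exact Or.inl (Or.inl (Or.inl (Or.inl ⟨k, hk, rfl⟩)))
    · exact Or.inl (Or.inr ⟨k, hk, l k - 1, by omega, by omega, rfl⟩)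
  have h2 : (e k (l k - 1) + g • e 0 0 : VV) ∈
      span F4 {v | v ∈ DeC g a true I l ∧ LV g k v} := by
    refine subset_span ⟨?_, Or.inr (Or.inr ⟨_, rfl⟩)⟩
    refine Or.inr ⟨k, hk, l k - 1, by omega, ?_⟩
    rw [msu_lt (by omega), msu_last (by omega)]
  have h3 := sub_mem h2 h1
  rw [add_sub_cancel_left] at h3
  have h4 := smul_mem _ g⁻¹ h3
  rwa [smul_smul, inv_mul_cancel₀ hg, one_smul] at h4

/-- coordinates of the span of the points of a leg -/
private theorem span_leg {g : F4} {a : Bool} {I : Finset ℕ} {l : ℕ → ℕ} {k : ℕ} {v : VV}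
    (hv : v ∈ span F4 {v | v ∈ DeC g a true I l ∧ LV g k v}) {h n : ℕ} (hk : h ≠ k)
    (h0 : (h, n) ≠ (0, 0)) : v (h, n) = 0 := by
  induction hv using span_induction with
  | mem x hx => exact hx.2.off hk h0
  | zero => rfl
  | add x y _ _ hx hy => rw [Finsupp.add_apply, hx, hy, add_zero]
  | smul s x _ hx => rw [Finsupp.smul_apply, hx, smul_zero]

private theorem third {I : Finset ℕ} (h3 : 3 ≤ I.card) (a b : ℕ) : ∃ k ∈ I, k ≠ a ∧ k ≠ b := by
  have h1 : 0 < ((I.erase a).erase b).card := by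
    have h2 := Finset.pred_card_le_card_erase (s := I) (a := a)
    have h4 := Finset.pred_card_le_card_erase (s := I.erase a) (a := b)
    omega
  obtain ⟨k, hk⟩ := Finset.card_pos.1 h1
  rw [Finset.mem_erase, Finset.mem_erase] at hk
  exact ⟨k, hk.2.2, hk.2.1, hk.1⟩

private theorem c_notin {g : F4} (hg : g = F4.w ∨ g = F4.v) {I : Finset ℕ} (h0 : 0 ∉ I)
    (h3 : 3 ≤ I.card) {i j : ℕ} (hi : i ∈ I) (hj : j ∈ I) {y y' ε : VV} (hy : LV g i y)
    (hy' : LV g j y') (hε : ε = e 0 0 ∨ ∃ k ∈ I, LV g k ε) (a b s : F4) :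
    Dec I ≠ a • y + b • y' + s • ε := by
  intro hc
  have hne0 : ∀ k ∈ I, k ≠ 0 := fun k hk h => h0 (h ▸ hk)
  have hpr : ∀ k ∈ I, (k, 0) ≠ (0, 0) := fun k hk h => hne0 k hk (congrArg Prod.fst h)
  have hcoord : ∀ k ∈ I, (1 : F4) = a * y (k, 0) + b * y' (k, 0) + s * ε (k, 0) := by
    intro k hk
    have h1 := DFunLike.congr_fun hc (k, 0)
    rw [Dec_leg h0 hk, Finsupp.add_apply, Finsupp.add_apply, Finsupp.smul_apply,
      Finsupp.smul_apply, Finsupp.smul_apply] at h1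
    exact h1
  obtain ⟨k, hk, hki, hkj⟩ := third h3 i j
  have h1 := hcoord k hk
  rw [hy.off hki (hpr k hk), hy'.off hkj (hpr k hk), mul_zero, mul_zero, zero_add, zero_add] at h1
  rcases hε with rfl | ⟨h, hh, hεh⟩
  · rw [tip_leg (hne0 k hk), mul_zero] at h1
    exact absurd h1 (by decide)
  · have hall : ∀ m ∈ I, m ≠ i → m ≠ j → m = h := by
      intro m hm hmi hmj
      by_contra hmh
      have h2 := hcoord m hm
      rw [hy.off hmi (hpr m hm), hy'.off hmj (hpr m hm), hεh.off hmh (hpr m hm), mul_zero,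
        mul_zero, mul_zero, add_zero, add_zero] at h2
      exact absurd h2 (by decide)
    have hkh := hall k hk hki hkj
    subst hkh
    have hij : i ≠ j := by
      rintro rfl
      obtain ⟨m, hm, hmi, hmk⟩ := third h3 i k
      exact hmk (hall m hm hmi hmi)
    have e1 := hεh.bit (hne0 k hk) 0
    have e2 := hy.bit (hne0 i hi) 0
    have e3 := hy'.bit (hne0 j hj) 0
    have h4 := hcoord i hi
    rw [hy'.off hij (hpr i hi), hεh.off (Ne.symm hki) (hpr i hi), mul_zero, mul_zero, add_zero,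
      add_zero] at h4
    have h5 := hcoord j hj
    rw [hy.off hij.symm (hpr j hj), hεh.off (Ne.symm hkj) (hpr j hj), mul_zero, mul_zero, add_zero,
      zero_add] at h5
    have hs : s = 1 := by
      rcases e1 with e1 | e1
      · rw [e1, mul_zero] at h1; exact absurd h1 (by decide)
      · rw [e1, mul_one] at h1; exact h1.symm
    have ha : a = 1 := by
      rcases e2 with e2 | e2
      · rw [e2, mul_zero] at h4; exact absurd h4 (by decide)
      · rw [e2, mul_one] at h4; exact h4.symm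
    have hb : b = 1 := by
      rcases e3 with e3 | e3
      · rw [e3, mul_zero] at h5; exact absurd h5 (by decide)
      · rw [e3, mul_one] at h5; exact h5.symm
    have h6 := DFunLike.congr_fun hc (0, 0)
    rw [Dec_tip h0, Finsupp.add_apply, Finsupp.add_apply, Finsupp.smul_apply,
      Finsupp.smul_apply, Finsupp.smul_apply, hs, ha, hb, one_smul, one_smul, one_smul] at h6
    have t1 := hy.tc (hne0 i hi)
    have t2 := hy'.tc (hne0 j hj)
    have t3 := hεh.tc (hne0 k hk)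
    rcases hg with hg | hg <;> rcases t1 with t1 | t1 <;> rcases t2 with t2 | t2 <;>
      rcases t3 with t3 | t3 <;> rw [t1, t2, t3] at h6 <;> (try rw [hg] at h6) <;>
      exact absurd h6 (by decide)

/-- `c`, `y`, `ε` are independent unless `ε = y` -/
private theorem indep2 {g : F4} {I : Finset ℕ} (h0 : 0 ∉ I)
    (h3 : 3 ≤ I.card) {i : ℕ} (hi : i ∈ I) {y ε : VV} (hy : LV g i y)
    (hε : ε = e 0 0 ∨ ∃ k ∈ I, LV g k ε) {a b : F4} (h : ε = a • Dec I + b • y) : ε = y := by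
  have hne0 : ∀ k ∈ I, k ≠ 0 := fun k hk h => h0 (h ▸ hk)
  have hpr : ∀ k ∈ I, ∀ n : ℕ, (k, n) ≠ (0, 0) := fun k hk n h => hne0 k hk (congrArg Prod.fst h)
  have hco : ∀ q : ℕ × ℕ, ε q = a * (Dec I) q + b * y q := by
    intro q
    have h1 := DFunLike.congr_fun h q
    rwa [Finsupp.add_apply, Finsupp.smul_apply, Finsupp.smul_apply] at h1
  rcases hε with hε | ⟨k, hk, hεk⟩
  · obtain ⟨m, hm, hmi, _⟩ := third h3 i i
    have h1 := hco (m, 0)
    rw [hε, tip_leg (hne0 m hm), Dec_leg h0 hm, hy.off hmi (hpr m hm 0), mul_zero, mul_one,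
      add_zero] at h1
    obtain ⟨n, hn⟩ := hy.ex (hne0 i hi)
    have h2 := hco (i, n)
    rw [hε, tip_leg (hne0 i hi), ← h1, hn, zero_mul, mul_one, zero_add] at h2
    have h4 := hco (0, 0)
    rw [hε, tip_tip, ← h1, ← h2, zero_mul, zero_mul, zero_add] at h4
    exact absurd h4 (by decide)
  · obtain ⟨m, hm, hmi, hmk⟩ := third h3 i k
    have h1 := hco (m, 0)
    rw [hεk.off hmk (hpr m hm 0), Dec_leg h0 hm, hy.off hmi (hpr m hm 0), mul_zero, mul_one,
      add_zero] at h1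
    obtain ⟨n, hn⟩ := hεk.ex (hne0 k hk)
    have h2 := hco (k, n)
    rw [hn, ← h1, zero_mul, zero_add] at h2
    have hki : k = i := by
      by_contra hne
      rw [hy.off hne (hpr k hk n), mul_zero] at h2
      exact absurd h2 (by decide)
    subst hki
    rcases hy.bit (hne0 k hk) n with h4 | h4
    · rw [h4, mul_zero] at h2
      exact absurd h2 (by decide)
    · rw [h4, mul_one] at h2
      rw [h, ← h1, ← h2, zero_smul, zero_add, one_smul]

private theorem span_pair_eq {y q r : VV} {s α : F4} (hs : s ≠ 0) (h : r = s • q + α • y) :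
    span F4 {y, q} = span F4 {y, r} := by
  apply le_antisymm
  · rw [span_le]
    rintro z (rfl | hz)
    · exact subset_span (Or.inl rfl)
    · rw [mem_singleton_iff] at hz
      subst hz
      refine mem_span_pair.2 ⟨-(s⁻¹ * α), s⁻¹, ?_⟩
      rw [h, smul_add, smul_smul, smul_smul, inv_mul_cancel₀ hs, one_smul, neg_smul]
      abel
  · rw [span_le]
    rintro z (rfl | hz)
    · exact subset_span (Or.inl rfl)
    · rw [mem_singleton_iff] at hz
      subst hz
      exact mem_span_pair.2 ⟨α, s, by rw [h, add_comm]⟩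

private theorem YD_LV {g : F4} {l : ℕ → ℕ} {k : ℕ} {y : VV}
    (hy : (l k = 1 ∧ (y = e k 0 ∨ y = e k 0 + g • e 0 0)) ∨
      (2 ≤ l k ∧ (y = rim l (fun i => e i 0) (fun _ => g • e 0 0) k 0 ∨
        y = rim l (fun i => e i 0) (fun _ => g • e 0 0) k 1))) : LV g k y := by
  rcases hy with ⟨_, rfl | rfl⟩ | ⟨h2, rfl | rfl⟩
  · exact Or.inl ⟨0, rfl⟩
  · exact Or.inr (Or.inr ⟨0, rfl⟩)
  · exact rim_LV (by omega)
  · exact rim_LV (by omega)

/-- the argument for the set `R' = {y₁, y₂, x}` of test vectors, with leg function `leg` -/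
private theorem core {g : F4} {a : Bool} {I : Finset ℕ} {l : ℕ → ℕ} (hOk : DeOk g I l)
    (h3 : 3 ≤ I.card) (R' : Set VV) (leg : VV → ℕ)
    (hleg : ∀ y ∈ R', leg y ∈ I)
    (hYD : ∀ y ∈ R', (l (leg y) = 1 ∧ (y = e (leg y) 0 ∨ y = e (leg y) 0 + g • e 0 0)) ∨
      (2 ≤ l (leg y) ∧ (y = rim l (fun i => e i 0) (fun _ => g • e 0 0) (leg y) 0 ∨
        y = rim l (fun i => e i 0) (fun _ => g • e 0 0) (leg y) 1)))
    (htwo : ∀ h : ℕ, ∃ y ∈ R', leg y ≠ h)
    (p : VV → VV) (hpc : p (Dec I) ∈ DeC g a false I l ∪ {e 0 0, 0})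
    (hpy : ∀ y ∈ R', p y ∈ DeQ g a I l (leg y))
    (hnc : p (Dec I) ∉ span F4 {Dec I}) (hny : ∀ y ∈ R', p y ∉ span F4 {y})
    (hcomp : ∀ y ∈ insert (Dec I) R', ∀ y' ∈ insert (Dec I) R', ∀ D, D ⊆ DeC g a true I l →
      (p y ∈ span F4 ({y, y'} ∪ D) ↔ p y' ∈ span F4 ({y, y'} ∪ D))) :
    ∃ q ∈ DeP g a true I l, ∀ y ∈ insert (Dec I) R', span F4 {y, q} = span F4 {y, p y} := by
  have h0 := hOk.zero
  have hg := hOk.g_ne
  have hgne : g ≠ 0 := by
    rcases hg with h | h <;> rw [h] <;> decide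
  have hne0 : ∀ k ∈ I, k ≠ 0 := fun k hk h => h0 (h ▸ hk)
  have hpr : ∀ k ∈ I, ∀ n : ℕ, (k, n) ≠ (0, 0) := fun k hk n h => hne0 k hk (congrArg Prod.fst h)
  have hLV : ∀ y ∈ R', LV g (leg y) y := fun y hy => YD_LV (hYD y hy)
  obtain ⟨ε, hεdef⟩ : ∃ ε, ε = p (Dec I) := ⟨_, rfl⟩
  rw [← hεdef] at hpc hnc
  have hε0 : ε ≠ 0 := by
    rintro h
    rw [h] at hnc
    exact hnc (zero_mem _)
  have hεC : ε ∈ DeC g true false I l := by
    rcases hpc with h | h | h
    · exact (DeC_mono (b := true) h).2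
    · rw [h]
      exact Or.inl (Or.inl (Or.inl (Or.inr ⟨rfl, rfl⟩)))
    · exact absurd h hε0
  have hεP : ε ∈ DeP g a true I l := by
    rcases hpc with h | h | h
    · exact Or.inl (Or.inl (DeC_mono h).1)
    · exact Or.inl (Or.inr (Or.inl h))
    · exact absurd h hε0
  have hεT := DeC_cases hεC
  have hpt : ε ∈ DeC g a true I l ∨ ε = e 0 0 := by
    rcases hpc with h | h | h
    · exact Or.inl (DeC_mono h).1
    · exact Or.inr h
    · exact absurd h hε0
  -- Step 1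
  have step1 : ∀ y ∈ R', ∃ κ β α : F4, p y = κ • Dec I + β • ε + α • y := by
    intro y hy
    rcases hpt with hεpt | hεt
    · have h1 := (hcomp (Dec I) (Or.inl rfl) y (Or.inr hy) {ε}
        (singleton_subset_iff.2 hεpt)).1 (by
          rw [← hεdef]; exact subset_span (Or.inr rfl))
      rw [span_union, mem_sup] at h1
      obtain ⟨u, hu, v, hv, huv⟩ := h1
      obtain ⟨κ, α, rfl⟩ := mem_span_pair.1 hu
      obtain ⟨β, rfl⟩ := mem_span_singleton.1 hv
      exact ⟨κ, β, α, by rw [← huv]; abel⟩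
    · have h1 : ∀ h ∈ I, ∃ κ α : F4, ∃ v ∈ span F4 {v | v ∈ DeC g a true I l ∧ LV g h v},
          p y = κ • Dec I + α • y + v := by
        intro h hh
        have h2 := (hcomp (Dec I) (Or.inl rfl) y (Or.inr hy)
          {v | v ∈ DeC g a true I l ∧ LV g h v} (fun v hv => hv.1)).1 (by
            rw [← hεdef, hεt]
            exact span_mono subset_union_right (tip_mem hgne hh (hOk.pos h hh)))
        rw [span_union, mem_sup] at h2
        obtain ⟨u, hu, v, hv, huv⟩ := h2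
        obtain ⟨κ, α, rfl⟩ := mem_span_pair.1 hu
        exact ⟨κ, α, v, hv, huv.symm⟩
      obtain ⟨κ, α, v, hv, e1⟩ := h1 (leg y) (hleg y hy)
      obtain ⟨h, hh, hhy, _⟩ := third h3 (leg y) (leg y)
      obtain ⟨κ', α', v', hv', e2⟩ := h1 h hh
      obtain ⟨m, hm, hmy, hmh⟩ := third h3 (leg y) h
      have hκ : κ = κ' := by
        have h4 := DFunLike.congr_fun (e1.symm.trans e2) (m, 0)
        simp only [Finsupp.add_apply, Finsupp.smul_apply, smul_eq_mul] at h4
        rw [span_leg hv hmy (hpr m hm 0), span_leg hv' hmh (hpr m hm 0),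
          (hLV y hy).off hmy (hpr m hm 0), Dec_leg h0 hm] at h4
        simpa using h4
      have hv'0 : v' = v' (0, 0) • e 0 0 := by
        ext ⟨k, n⟩
        by_cases hkn : (k, n) = (0, 0)
        · rw [hkn, Finsupp.smul_apply, tip_tip, smul_eq_mul, mul_one]
        · have htip : (e 0 0 : VV) (k, n) = 0 := by
            rw [e_val, if_neg]
            rintro ⟨rfl, rfl⟩
            exact hkn rfl
          rw [Finsupp.smul_apply, htip, smul_zero]
          by_cases hkh : k = h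
          · subst hkh
            have h4 := DFunLike.congr_fun (e1.symm.trans e2) (k, n)
            simp only [Finsupp.add_apply, Finsupp.smul_apply, smul_eq_mul] at h4
            rw [span_leg hv hhy hkn, (hLV y hy).off hhy hkn, hκ] at h4
            simpa using h4
          · exact span_leg hv' hkh hkn
      refine ⟨κ', v' (0, 0), α', ?_⟩
      rw [hεt, ← hv'0, e2]
      abel
  -- if `ε ≠ y` then `β ≠ 0`
  have step1b : ∀ y ∈ R', y ≠ ε → ∀ κ β α : F4, p y = κ • Dec I + β • ε + α • y → β ≠ 0 := by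
    rintro y hy hyε κ β α he rfl
    have h1 := (hcomp (Dec I) (Or.inl rfl) y (Or.inr hy) ∅ (empty_subset _)).2 (by
      rw [he, zero_smul, add_zero, union_empty]
      exact mem_span_pair.2 ⟨κ, α, rfl⟩)
    rw [← hεdef, union_empty] at h1
    obtain ⟨a', b', h2⟩ := mem_span_pair.1 h1
    exact hyε (indep2 h0 h3 (hleg y hy) (hLV y hy) hεT h2.symm).symm
  -- the vector `ε'`
  obtain ⟨ε', hε'⟩ : ∃ ε' : VV, (ε = e 0 0 → ε' = g • ε) ∧ (ε ≠ e 0 0 → ε' = ε) := by
    by_cases h : ε = e 0 0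
    · exact ⟨g • ε, fun _ => rfl, fun h' => absurd h h'⟩
    · exact ⟨ε, fun h' => absurd h' h, fun _ => rfl⟩
  have hε's : ∃ s : F4, s ≠ 0 ∧ ε' = s • ε := by
    by_cases h : ε = e 0 0
    · exact ⟨g, hgne, hε'.1 h⟩
    · exact ⟨1, by decide, by rw [hε'.2 h, one_smul]⟩
  -- Step 2
  have step2 : ∀ y ∈ R', y ≠ ε → (∃ β α : F4, β ≠ 0 ∧ p y = β • ε + α • y) ∨
      ((∃ κ α : F4, κ ≠ 0 ∧ p y = κ • (Dec I + ε') + α • y) ∧
        (ε ≠ e 0 0 → (∀ n, ε (leg y, n) = 0) →
          ∃ h ∈ I, ε = e h 0 ∨ (l h = 1 ∧ ε = e h 0 + g • e 0 0))) := by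
    intro y hy hyε
    obtain ⟨κ, β, α, he⟩ := step1 y hy
    have hβ := step1b y hy hyε κ β α he
    by_cases hκ : κ = 0
    · left
      exact ⟨β, α, hβ, by rw [he, hκ, zero_smul, zero_add]⟩
    · right
      obtain ⟨g1, g2, g3⟩ := GE7b hOk h3 (hleg y hy) (hYD y hy) hεC hyε.symm hκ hβ
        (s := 1) (by decide) (hpy y hy) (by rw [← he]; exact (one_smul F4 _).symm)
      refine ⟨⟨κ, α, hκ, ?_⟩, g3⟩
      rw [he, smul_add]
      congr 2
      by_cases h : ε = e 0 0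
      · rw [hε'.1 h, g2 h, mul_smul]
      · rw [hε'.2 h, g1 h]
  -- Step 3
  have step3 : ∀ y ∈ R', ∀ y' ∈ R', ∀ β α : F4, p y = β • ε + α • y →
      ∀ κ α' : F4, κ ≠ 0 → p y' = κ • (Dec I + ε') + α' • y' → False := by
    intro y hy y' hy' β α he κ α' hκ he'
    obtain ⟨s, hs, hs'⟩ := hε's
    rcases hpt with hεpt | hεt
    · have h1 := (hcomp y (Or.inr hy) y' (Or.inr hy') {ε} (singleton_subset_iff.2 hεpt)).1 (by
        rw [he]
        exact add_mem (smul_mem _ _ (subset_span (Or.inr rfl)))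
          (smul_mem _ _ (subset_span (Or.inl (Or.inl rfl)))))
      rw [span_union, mem_sup] at h1
      obtain ⟨u, hu, v, hv, huv⟩ := h1
      obtain ⟨a1, a2, rfl⟩ := mem_span_pair.1 hu
      obtain ⟨a3, rfl⟩ := mem_span_singleton.1 hv
      rw [he', hs'] at huv
      refine c_notin hg h0 h3 (hleg y hy) (hleg y' hy') (hLV y hy) (hLV y' hy') hεT
        (κ⁻¹ * a1) (κ⁻¹ * (a2 - α')) (κ⁻¹ * (a3 - κ * s)) ?_
      have h5 : κ • Dec I = a1 • y + (a2 - α') • y' + (a3 - κ * s) • ε := by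
        have h6 : κ • Dec I = (κ • (Dec I + s • ε) + α' • y') - α' • y' - (κ * s) • ε := by
          rw [smul_add, smul_smul]
          abel
        rw [h6, ← huv, sub_smul, sub_smul]
        abel
      have h7 := congrArg (fun z => κ⁻¹ • z) h5
      simp only [smul_add, smul_smul, inv_mul_cancel₀ hκ, one_smul] at h7
      exact h7
    · have h1 := (hcomp y (Or.inr hy) y' (Or.inr hy')
        {v | v ∈ DeC g a true I l ∧ LV g (leg y) v} (fun v hv => hv.1)).1 (by
          rw [he, hεt]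
          exact add_mem (smul_mem _ _ (span_mono subset_union_right
            (tip_mem hgne (hleg y hy) (hOk.pos _ (hleg y hy)))))
            (smul_mem _ _ (subset_span (Or.inl (Or.inl rfl)))))
      rw [span_union, mem_sup] at h1
      obtain ⟨u, hu, v, hv, huv⟩ := h1
      obtain ⟨a1, a2, rfl⟩ := mem_span_pair.1 hu
      rw [he', hs'] at huv
      obtain ⟨m, hm, hmy, hmy'⟩ := third h3 (leg y) (leg y')
      have h5 := DFunLike.congr_fun huv (m, 0)
      simp only [Finsupp.add_apply, Finsupp.smul_apply, smul_eq_mul] at h5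
      rw [span_leg hv hmy (hpr m hm 0), (hLV y hy).off hmy (hpr m hm 0),
        (hLV y' hy').off hmy' (hpr m hm 0), Dec_leg h0 hm, hεt, tip_leg (hne0 m hm)] at h5
      apply hκ
      simpa using h5.symm
  by_cases hex : ∃ y ∈ R', y ≠ ε ∧ ∃ κ α : F4, κ ≠ 0 ∧ p y = κ • (Dec I + ε') + α • y
  · -- all test vectors are of type `c + ε'`
    obtain ⟨y0, hy0, hy0ε, κ0, α0, hκ0, he0⟩ := hex
    have hall : ∀ y ∈ R', y ≠ ε → (∃ κ α : F4, κ ≠ 0 ∧ p y = κ • (Dec I + ε') + α • y) ∧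
        (ε ≠ e 0 0 → (∀ n, ε (leg y, n) = 0) →
          ∃ h ∈ I, ε = e h 0 ∨ (l h = 1 ∧ ε = e h 0 + g • e 0 0)) := by
      intro y hy hyε
      rcases step2 y hy hyε with ⟨β, α, _, he⟩ | h
      · exact (step3 y hy y0 hy0 β α he κ0 α0 hκ0 he0).elim
      · exact h
    refine ⟨Dec I + ε', ?_, ?_⟩
    · by_cases h : ε = e 0 0
      · rw [hε'.1 h, h]
        exact Or.inr ⟨rfl, Or.inl (Or.inr rfl)⟩
      · rw [hε'.2 h]
        rcases hεT with hT | ⟨k, hk, hkε⟩
        · exact absurd hT h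
        · obtain ⟨y, hy, hyk⟩ := htwo k
          have hyε : y ≠ ε := by
            rintro rfl
            obtain ⟨n, hn⟩ := hkε.ex (hne0 k hk)
            rw [(hLV y hy).off (Ne.symm hyk) (hpr k hk n)] at hn
            exact absurd hn (by decide)
          obtain ⟨h', hh', hform⟩ := (hall y hy hyε).2 h
            (fun n => hkε.off hyk (hpr _ (hleg y hy) n))
          rcases hform with hform | ⟨hl1, hform⟩
          · exact Or.inr ⟨rfl, Or.inl (Or.inl ⟨h', hh', by rw [hform]⟩)⟩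
          · exact Or.inr ⟨rfl, Or.inr ⟨h', hh', hl1, by rw [hform, add_assoc]⟩⟩
    · rintro y (rfl | hy)
      · rw [← hεdef]
        obtain ⟨s, hs, hs'⟩ := hε's
        refine span_pair_eq (s := s⁻¹) (α := -s⁻¹) (inv_ne_zero hs) ?_
        rw [hs', smul_add, smul_smul, inv_mul_cancel₀ hs, one_smul, neg_smul]
        abel
      · by_cases hyε : y = ε
        · have h1 := (hcomp (Dec I) (Or.inl rfl) y (Or.inr hy) ∅ (empty_subset _)).1 (by
            rw [← hεdef, ← hyε, union_empty]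
            exact subset_span (Or.inr rfl))
          rw [union_empty] at h1
          obtain ⟨κ, α, h2⟩ := mem_span_pair.1 h1
          have hκ : κ ≠ 0 := by
            rintro rfl
            apply hny y hy
            rw [← h2, zero_smul, zero_add]
            exact smul_mem _ _ (subset_span rfl)
          obtain ⟨s, hs, hs'⟩ := hε's
          refine span_pair_eq (s := κ) (α := α - κ * s) hκ ?_
          rw [← h2, hs', ← hyε, smul_add, smul_smul, sub_smul]
          abel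
        · obtain ⟨⟨κ, α, hκ, he⟩, _⟩ := hall y hy hyε
          exact span_pair_eq hκ he
  · -- all test vectors are of type `ε`
    push Not at hex
    have hall : ∀ y ∈ R', y ≠ ε → ∃ β α : F4, β ≠ 0 ∧ p y = β • ε + α • y := by
      intro y hy hyε
      rcases step2 y hy hyε with h | ⟨⟨κ, α, hκ, he⟩, _⟩
      · exact h
      · exact absurd he (hex y hy hyε κ α hκ)
    refine ⟨ε, hεP, ?_⟩
    rintro y (rfl | hy)
    · rw [← hεdef]
    · by_cases hyε : y = ε
      · exfalso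
        obtain ⟨y', hy', hleg'⟩ := htwo (leg y)
        have hy'ε : y' ≠ ε := by
          rintro h
          rw [h, ← hyε] at hleg'
          exact hleg' rfl
        obtain ⟨β, α, hβ, he⟩ := hall y' hy' hy'ε
        have h1 := (hcomp y' (Or.inr hy') y (Or.inr hy) ∅ (empty_subset _)).1 (by
          rw [he, union_empty, ← hyε]
          exact mem_span_pair.2 ⟨α, β, add_comm _ _⟩)
        rw [union_empty] at h1
        obtain ⟨a1, a2, h2⟩ := mem_span_pair.1 h1
        have h4 := (hcomp (Dec I) (Or.inl rfl) y (Or.inr hy) ∅ (empty_subset _)).1 (by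
            rw [← hεdef, ← hyε, union_empty]
            exact subset_span (Or.inr rfl))
        rw [union_empty] at h4
        obtain ⟨κ, α', h5⟩ := mem_span_pair.1 h4
        have hκ : κ ≠ 0 := by
          rintro rfl
          apply hny y hy
          rw [← h5, zero_smul, zero_add]
          exact smul_mem _ _ (subset_span rfl)
        refine c_notin hg h0 h3 (hleg y hy) (hleg y' hy') (hLV y hy) (hLV y' hy') hεT
          (κ⁻¹ * (a2 - α')) (κ⁻¹ * a1) 0 ?_
        have h6 : κ • Dec I = (a2 - α') • y + a1 • y' := by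
          have h7 : κ • Dec I = (κ • Dec I + α' • y) - α' • y := by abel
          rw [h7, h5, ← h2, sub_smul]
          abel
        have h7 := congrArg (fun z => κ⁻¹ • z) h6
        simp only [smul_add, smul_smul, inv_mul_cancel₀ hκ, one_smul] at h7
        rw [zero_smul, add_zero]
        exact h7
      · obtain ⟨β, α, hβ, he⟩ := hall y hy hyε
        exact span_pair_eq hβ he

/-- GE7c. `SHK` with `R = {c, y₁, y₂, x}`, `Q c = DeC g a false I l ∪ {t, 0}`, `Q y = DeQ .. i` for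
`y = y₁, y₂`, `Q x = DeQ .. j`, at least three legs. (`DeK true I = ⊥`: `bs false`, so work with `K = ⊥`.)
Let `p` be the choice and `ε = p c` (a point of `DeC g a false I l`, or `t`; not `0`).
Step 1: for `y ∈ {y₁, y₂, x}`: `p y ∈ ⟨c, y, ε⟩`. If `ε` is a point: `D = {ε}` and the pair `(c, y)`. If
`ε = t` is not a point: for every leg `h`, `t` is in the span of the points of leg `h` (`D` = these points), so
`p y ∈ ⟨c, y, t⟩ + (leg h)` for all `h ∈ I`; with three legs the intersection is `⟨c, y, t⟩`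
(write `p y = κ c + α y + τ t + v_h` for all `h`; let `y` be in leg `i`; compare `h = i` with `h ≠ i`: in the
legs other than `i`, `h` (at least one) we get `κ_h = κ_i`; then in leg `h`: `v_h = 0`).
Also `p y ∉ ⟨c, y⟩` if `ε ∉ ⟨c, y⟩` (`D = ∅`). Write `p y = λ_y q_y + α y` with `q_y = κ c + β ε ≠ 0`.
Step 2: by GE7b, for `y` not proportional to `ε`: `q_y` is on the line of `c`, of `ε`, or of `c + ε`
(`c + g t` if `ε = t`). It is not on the line of `c` (otherwise `p y ∈ ⟨c, y⟩`, so `ε ∈ ⟨c, y⟩` by `D = ∅`,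
but `c, y, ε` are independent: `c` has coordinates in three legs).
Step 3: for two of the `y`'s, `y` and `y'`, in different legs and not proportional to `ε` (if `ε` is
proportional to `x`: for `y₁`, `y₂`): `c, ε, y, y'` are independent, and `q_y`, `q_y'` are proportional:
otherwise one is `ε` and the other `c + ε` (`c + g t`): if `ε` is a point use `D = {ε}` for the pair
`(y, y')`: both memberships would hold, contradiction to the independence. If `ε = t` is not a point: `D` =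
the points of the leg of `y`: `t ∈` span, `c + g t ∉ ⟨y, y'⟩ + ` leg (there is a third leg).
Step 4: so there is one `q ∈ {ε, c + ε}` (`{t, c + g t}`) for all `y ∈ {y₁, y₂, x}` not proportional to
`ε`. `q ∈ P`: clear for `ε`, `t`, `c + g t`; for `c + ε`: one of the `y` is not in the leg of `ε`, so the last
part of GE7b gives `ε = z_h` or `r_h` (`l h = 1`), so `c + ε ∈ P`. Then `⟨c, q⟩ = ⟨c, ε⟩`,
`⟨y, q⟩ = ⟨y, p y⟩`. If `y` is proportional to `ε`: `p y ∈ ⟨c, y⟩` (pair `(c, y)`, `D = ∅`, `ε ∈ ⟨c, y⟩`) and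
`p y ∉ ⟨y⟩`, so `⟨y, p y⟩ = ⟨c, ε⟩ = ⟨y, q⟩` if `q = c + ε`; the case `q = ε = y` is impossible: for another
`y'`: `p y' ∈ ⟨y', y⟩`, so `p y ∈ ⟨y, y'⟩` (`D = ∅`), so `c ∈ ⟨y, y'⟩`, contradiction. -/
theorem GE7c {g : F4} {a : Bool} {I : Finset ℕ} {l : ℕ → ℕ} (hOk : DeOk g I l) (h3 : 3 ≤ I.card)
    {i j : ℕ} {y₁ y₂ x : VV} (hR : RC g I l i j y₁ y₂ x) (Q : VV → Set VV)
    (hQc : Q (Dec I) = DeC g a false I l ∪ {e 0 0, 0}) (hQ1 : Q y₁ = DeQ g a I l i)
    (hQ2 : Q y₂ = DeQ g a I l i) (hQx : Q x = DeQ g a I l j) :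
    SHK (DeK true I) (DeC g a true I l) (DeP g a true I l) {Dec I, y₁, y₂, x} Q := by
  have hK : DeK true I = ⊥ := by
    unfold DeK
    rw [span_eq_bot]
    rintro x ⟨h, _⟩
    exact absurd h (by decide)
  rw [hK]
  intro p hQ hS hC
  simp only [sup_bot_eq] at hS hC ⊢
  have h0 := hOk.zero
  have hi0 : i ≠ 0 := fun h => h0 (h ▸ hR.hi)
  have hj0 : j ≠ 0 := fun h => h0 (h ▸ hR.hj)
  have hY1 : (l i = 1 ∧ (y₁ = e i 0 ∨ y₁ = e i 0 + g • e 0 0)) ∨
      (2 ≤ l i ∧ (y₁ = rim l (fun i => e i 0) (fun _ => g • e 0 0) i 0 ∨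
        y₁ = rim l (fun i => e i 0) (fun _ => g • e 0 0) i 1)) := by
    rcases hR.hy with ⟨h1, h2, _⟩ | ⟨h1, h2, _⟩
    · exact Or.inl ⟨h1, Or.inl h2⟩
    · exact Or.inr ⟨h1, Or.inl h2⟩
  have hY2 : (l i = 1 ∧ (y₂ = e i 0 ∨ y₂ = e i 0 + g • e 0 0)) ∨
      (2 ≤ l i ∧ (y₂ = rim l (fun i => e i 0) (fun _ => g • e 0 0) i 0 ∨
        y₂ = rim l (fun i => e i 0) (fun _ => g • e 0 0) i 1)) := by
    rcases hR.hy with ⟨h1, _, h2⟩ | ⟨h1, _, h2⟩
    · exact Or.inl ⟨h1, Or.inr h2⟩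
    · exact Or.inr ⟨h1, Or.inr h2⟩
  have hX : (l j = 1 ∧ (x = e j 0 ∨ x = e j 0 + g • e 0 0)) ∨
      (2 ≤ l j ∧ (x = rim l (fun i => e i 0) (fun _ => g • e 0 0) j 0 ∨
        x = rim l (fun i => e i 0) (fun _ => g • e 0 0) j 1)) := by
    rcases hR.hx with ⟨h1, h2⟩ | ⟨h1, h2⟩
    · exact Or.inl ⟨h1, Or.inl h2⟩
    · exact Or.inr ⟨h1, Or.inl h2⟩
  have hxj : LV g j x := YD_LV hX
  have hne : ∀ y, LV g i y → y ≠ x := by
    rintro y hy rfl
    obtain ⟨n, hn⟩ := hxj.ex hj0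
    rw [hy.off hR.ne.symm (fun h => hj0 (congrArg Prod.fst h))] at hn
    exact absurd hn (by decide)
  have hne1 := hne y₁ (YD_LV hY1)
  have hne2 := hne y₂ (YD_LV hY2)
  refine core hOk h3 {y₁, y₂, x} (fun v => if v = x then j else i) ?_ ?_ ?_ p ?_ ?_ ?_ ?_ hC
  · rintro y (rfl | rfl | rfl)
    · rw [if_neg hne1]; exact hR.hi
    · rw [if_neg hne2]; exact hR.hi
    · rw [if_pos rfl]; exact hR.hj
  · rintro y (rfl | rfl | rfl)
    · rw [if_neg hne1]; exact hY1
    · rw [if_neg hne2]; exact hY2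
    · rw [if_pos rfl]; exact hX
  · intro h
    by_cases hh : i = h
    · refine ⟨x, Or.inr (Or.inr rfl), ?_⟩
      show (if x = x then j else i) ≠ h
      rw [if_pos rfl, ← hh]
      exact hR.ne.symm
    · refine ⟨y₁, Or.inl rfl, ?_⟩
      show (if y₁ = x then j else i) ≠ h
      rw [if_neg hne1]
      exact hh
  · rw [← hQc]
    exact hQ _ (Or.inl rfl)
  · rintro y (rfl | rfl | rfl)
    · show p y ∈ DeQ g a I l (if y = x then j else i)
      rw [if_neg hne1, ← hQ1]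
      exact hQ _ (Or.inr (Or.inl rfl))
    · show p y ∈ DeQ g a I l (if y = x then j else i)
      rw [if_neg hne2, ← hQ2]
      exact hQ _ (Or.inr (Or.inr (Or.inl rfl)))
    · show p y ∈ DeQ g a I l (if y = y then j else i)
      rw [if_pos rfl, ← hQx]
      exact hQ _ (Or.inr (Or.inr (Or.inr rfl)))
  · exact hS _ (Or.inl rfl)
  · intro y hy
    exact hS _ (Or.inr hy)

end QG
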