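import Pool.Agent.Lib.QG.GE7a
import Pool.Agent.Lib.QG.GE7c
import Pool.Agent.Lib.QG.GB3

/-! MP_2e6874_co, part (A), row GE7. -/

set_option autoImplicit false

namespace QG
open Set Matroid Submodule

private theorem GE7_K (I : Finset ℕ) : DeK true I = ⊥ := by
  have h : bs (!true) {Dec I} = (∅ : Set VV) := by
    ext x
    simp [bs]
  rw [DeK, h, span_empty]

private theorem GE7_Dec_mem {g : F4} {a : Bool} {I : Finset ℕ} {l : ℕ → ℕ} :
    Dec I ∈ DeC g a true I l :=
  Or.inl (Or.inl (Or.inr ⟨rfl, rfl⟩))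

private theorem GE7_z_mem {g : F4} {a b : Bool} {I : Finset ℕ} {l : ℕ → ℕ} {i : ℕ} (hi : i ∈ I) :
    e i 0 ∈ DeC g a b I l :=
  Or.inl (Or.inl (Or.inl (Or.inl ⟨i, hi, rfl⟩)))

private theorem GE7_rim_mem {g : F4} {a b : Bool} {I : Finset ℕ} {l : ℕ → ℕ} {i n : ℕ} (hi : i ∈ I)
    (hn : n < l i) :
    rim l (fun i => e i 0) (fun _ => g • e 0 0) i n ∈ DeC g a b I l :=
  Or.inr ⟨i, hi, n, hn, rfl⟩

private theorem GE7_r_mem {g : F4} {a b : Bool} {I : Finset ℕ} {l : ℕ → ℕ} {i : ℕ} (hi : i ∈ I)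
    (hl : l i = 1) :
    e i 0 + g • e 0 0 ∈ DeC g a b I l := by
  have h := GE7_rim_mem (g := g) (a := a) (b := b) (l := l) hi (n := 0) (by omega)
  have h2 : rim l (fun i => e i 0) (fun _ => g • e 0 0) i 0 = e i 0 + g • e 0 0 := by
    simp [rim, msu, hl]
  rwa [h2] at h

private theorem GE7_sub {g : F4} {a : Bool} {I : Finset ℕ} {l : ℕ → ℕ} :
    DeC g a false I l ⊆ DeC g a true I l := by
  intro x hx
  rcases hx with (hx | hx) | hx
  · rcases hx with (hx | hx) | hx
    · exact Or.inl (Or.inl (Or.inl (Or.inl hx)))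
    · exact Or.inl (Or.inl (Or.inl (Or.inr hx)))
    · exact absurd hx.1 (by simp)
  · exact Or.inl (Or.inr hx)
  · exact Or.inr hx

private theorem GE7_t_mem {g : F4} {a : Bool} {I : Finset ℕ} {l : ℕ → ℕ} :
    e 0 0 ∈ span F4 (DeC g a true I l) := by
  have h1 : Dec I ∈ span F4 (DeC g a true I l) := subset_span GE7_Dec_mem
  have h2 : (∑ i ∈ I, e i 0) ∈ span F4 (DeC g a true I l) :=
    sum_mem fun i hi => subset_span (GE7_z_mem hi)
  have h3 : e 0 0 = Dec I - ∑ i ∈ I, e i 0 := by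
    simp [Dec]
  rw [h3]
  exact sub_mem h1 h2

private theorem GE7_P {g : F4} {a : Bool} {I : Finset ℕ} {l : ℕ → ℕ} {p : VV}
    (hp : p ∈ DeP g a true I l) : p ∈ span F4 (DeC g a true I l) := by
  have hD : Dec I ∈ span F4 (DeC g a true I l) := subset_span GE7_Dec_mem
  have ht : e 0 0 ∈ span F4 (DeC g a true I l) := GE7_t_mem
  have hz : ∀ i ∈ I, e i 0 ∈ span F4 (DeC g a true I l) := fun i hi =>
    subset_span (GE7_z_mem hi)
  rcases hp with (hp | hp) | ⟨-, hp⟩
  · exact subset_span hp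
  · rcases hp with rfl | rfl
    · exact ht
    · exact zero_mem _
  · rcases hp with (⟨i, hi, rfl⟩ | rfl) | ⟨i, hi, -, rfl⟩
    · exact add_mem hD (hz i hi)
    · exact add_mem hD (smul_mem _ _ ht)
    · exact add_mem (add_mem hD (hz i hi)) (smul_mem _ _ ht)

private theorem GE7_Q {g : F4} {a : Bool} {I : Finset ℕ} {l : ℕ → ℕ} {i : ℕ} (hi : i ∈ I) {p : VV}
    (hp : p ∈ DeQ g a I l i) : p ∈ span F4 (DeC g a true I l) := by
  rcases hp with hp | ⟨-, rfl⟩
  · exact GE7_P hp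
  · exact add_mem (add_mem (subset_span GE7_Dec_mem) (subset_span (GE7_z_mem hi)))
      (smul_mem _ _ GE7_t_mem)

private theorem GE7_e {i n : ℕ} (k : ℕ × ℕ) : e i n k = if (i, n) = k then (1 : F4) else 0 := by
  simp [e, Finsupp.single_apply]

private theorem GE7_Dec_ap {I : Finset ℕ} (h0 : 0 ∉ I) (j : ℕ) (hj : j ∈ I) :
    Dec I (j, 0) = 1 := by
  have hj0 : j ≠ 0 := fun h => h0 (h ▸ hj)
  rw [Dec, Finsupp.add_apply, Finsupp.finsetSum_apply, GE7_e,
    if_neg (by intro h; exact hj0 (Prod.mk.inj h).1.symm), zero_add,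
    Finset.sum_eq_single j]
  · rw [GE7_e, if_pos rfl]
  · intro b _ hb
    rw [GE7_e, if_neg (by intro h; exact hb (Prod.mk.inj h).1)]
  · intro h
    exact absurd hj h

/-- GE7 (= T3). `c` present, at least three legs. The contractions are given (GE1 .. GE4). -/
theorem GE7 {g : F4} {a : Bool} {I : Finset ℕ} {l : ℕ → ℕ} (hOk : DeOk g I l) (h3 : 3 ≤ I.card)
    {i j : ℕ} {y₁ y₂ x : VV} (hR : RC g I l i j y₁ y₂ x)
    (hc : CK (DeK true I) (DeC g a true I l) (Dec I) (DeC g a false I l ∪ {e 0 0, 0}))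
    (h1 : CK (DeK true I) (DeC g a true I l) y₁ (DeQ g a I l i))
    (h2 : CK (DeK true I) (DeC g a true I l) y₂ (DeQ g a I l i))
    (hx : CK (DeK true I) (DeC g a true I l) x (DeQ g a I l j)) :
    AK (DeK true I) (DeC g a true I l) (DeP g a true I l) := by
  classical
  have hi0 : i ≠ 0 := fun h => hOk.zero (h ▸ hR.hi)
  have hj0 : j ≠ 0 := fun h => hOk.zero (h ▸ hR.hj)
  -- the members of `R` are points
  have m1 : y₁ ∈ DeC g a true I l := by
    rcases hR.hy with ⟨_, h, _⟩ | ⟨hl, h, _⟩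
    · rw [h]; exact GE7_z_mem hR.hi
    · rw [h]; exact GE7_rim_mem hR.hi (by omega)
  have m2 : y₂ ∈ DeC g a true I l := by
    rcases hR.hy with ⟨hl, _, h⟩ | ⟨hl, _, h⟩
    · rw [h]; exact GE7_r_mem hR.hi hl
    · rw [h]; exact GE7_rim_mem hR.hi (by omega)
  have mx : x ∈ DeC g a true I l := by
    rcases hR.hx with ⟨_, h⟩ | ⟨hl, h⟩
    · rw [h]; exact GE7_z_mem hR.hj
    · rw [h]; exact GE7_rim_mem hR.hj (by omega)
  have hRC : ({Dec I, y₁, y₂, x} : Set VV) ⊆ DeC g a true I l := by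
    intro y hy
    rcases hy with rfl | rfl | rfl | rfl
    · exact GE7_Dec_mem
    · exact m1
    · exact m2
    · exact mx
  -- a third leg
  obtain ⟨k, hk, hki, hkj⟩ : ∃ k ∈ I, k ≠ i ∧ k ≠ j := by
    have h4 : 1 ≤ ((I.erase i).erase j).card := by
      have h5 := Finset.pred_card_le_card_erase (s := I) (a := i)
      have h6 := Finset.pred_card_le_card_erase (s := I.erase i) (a := j)
      omega
    obtain ⟨k, hk⟩ := Finset.card_pos.mp h4
    rw [Finset.mem_erase, Finset.mem_erase] at hk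
    exact ⟨k, hk.2.2, hk.2.1, hk.1⟩
  have hk0 : k ≠ 0 := fun h => hOk.zero (h ▸ hk)
  have hij := hR.ne
  -- coordinates
  have c0k : Dec I (k, 0) = 1 := GE7_Dec_ap hOk.zero k hk
  have c1k : y₁ (k, 0) = 0 := by
    rcases hR.hy with ⟨_, h, _⟩ | ⟨hl, h, _⟩
    · rw [h]
      simp [GE7_e, hki.symm]
    · rw [h, rim, msu, msu, if_pos rfl, if_neg (by omega), if_neg (by omega)]
      simp [GE7_e, hki.symm]
  have c2k : y₂ (k, 0) = 0 := by
    rcases hR.hy with ⟨_, _, h⟩ | ⟨hl, _, h⟩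
    · rw [h]
      simp [GE7_e, hki.symm, hk0.symm]
    · rw [h, rim, msu, msu, if_neg (by omega), if_neg (by omega), if_neg (by omega)]
      split_ifs <;> simp [GE7_e, hki.symm, hk0.symm]
  have cxk : x (k, 0) = 0 := by
    rcases hR.hx with ⟨_, h⟩ | ⟨hl, h⟩
    · rw [h]
      simp [GE7_e, hkj.symm]
    · rw [h, rim, msu, msu, if_pos rfl, if_neg (by omega), if_neg (by omega)]
      simp [GE7_e, hkj.symm]
  have cxj : x (j, 0) = 1 := by
    rcases hR.hx with ⟨_, h⟩ | ⟨hl, h⟩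
    · rw [h]
      simp [GE7_e]
    · rw [h, rim, msu, msu, if_pos rfl, if_neg (by omega), if_neg (by omega)]
      simp [GE7_e]
  have c1j : y₁ (j, 0) = 0 := by
    rcases hR.hy with ⟨_, h, _⟩ | ⟨hl, h, _⟩
    · rw [h]
      simp [GE7_e, hij]
    · rw [h, rim, msu, msu, if_pos rfl, if_neg (by omega), if_neg (by omega)]
      simp [GE7_e, hij]
  have c2j : y₂ (j, 0) = 0 := by
    rcases hR.hy with ⟨_, _, h⟩ | ⟨hl, _, h⟩
    · rw [h]
      simp [GE7_e, hij, hj0.symm]
    · rw [h, rim, msu, msu, if_neg (by omega), if_neg (by omega), if_neg (by omega)]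
      split_ifs <;> simp [GE7_e, hij, hj0.symm]
  have c1i : y₁ (i, 0) = 1 := by
    rcases hR.hy with ⟨_, h, _⟩ | ⟨hl, h, _⟩
    · rw [h]
      simp [GE7_e]
    · rw [h, rim, msu, msu, if_pos rfl, if_neg (by omega), if_neg (by omega)]
      simp [GE7_e]
  have n2 : y₂ ≠ 0 := by
    intro h0
    rcases hR.hy with ⟨_, _, h⟩ | ⟨hl, _, h⟩
    · have h4 : y₂ (i, 0) = 1 := by
        rw [h]
        simp [GE7_e, hi0.symm]
      rw [h0] at h4
      exact one_ne_zero h4.symm
    · have h4 : y₂ (i, 1) = 1 := by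
        rw [h, rim, msu, msu, if_neg (by omega), if_neg (by omega), if_neg (by omega)]
        split_ifs <;> simp [GE7_e]
      rw [h0] at h4
      exact one_ne_zero h4.symm
  have n01 : Dec I ≠ y₁ := fun h => one_ne_zero (c0k.symm.trans ((DFunLike.congr_fun h _).trans c1k))
  have n02 : Dec I ≠ y₂ := fun h => one_ne_zero (c0k.symm.trans ((DFunLike.congr_fun h _).trans c2k))
  have n0x : Dec I ≠ x := fun h => one_ne_zero (c0k.symm.trans ((DFunLike.congr_fun h _).trans cxk))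
  have nx1 : x ≠ y₁ := fun h => one_ne_zero (cxj.symm.trans ((DFunLike.congr_fun h _).trans c1j))
  have nx2 : x ≠ y₂ := fun h => one_ne_zero (cxj.symm.trans ((DFunLike.congr_fun h _).trans c2j))
  -- the sets `Q`
  let Q : VV → Set VV := fun y =>
    if y = Dec I then DeC g a false I l ∪ {e 0 0, 0} else if y = x then DeQ g a I l j
      else DeQ g a I l i
  have q0 : Q (Dec I) = DeC g a false I l ∪ {e 0 0, 0} := if_pos rfl
  have q1 : Q y₁ = DeQ g a I l i := by
    simp only [Q]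
    rw [if_neg n01.symm, if_neg nx1.symm]
  have q2 : Q y₂ = DeQ g a I l i := by
    simp only [Q]
    rw [if_neg n02.symm, if_neg nx2.symm]
  have qx : Q x = DeQ g a I l j := by
    simp only [Q]
    rw [if_neg n0x.symm, if_pos trivial]
  refine stepK (R := {Dec I, y₁, y₂, x}) (Q := Q) ⟨Dec I, Or.inl rfl⟩ hRC ?_ ?_ ?_ ?_ ?_ ?_
    (GE7a hOk hR) (GE7c hOk h3 hR Q q0 q1 q2 qx)
  · intro y _ y' _ h
    rw [GE7_K, Submodule.mem_bot] at h
    exact vadd_eq_zero.mp h
  · intro y hy h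
    rw [GE7_K, Submodule.mem_bot] at h
    rcases hy with rfl | rfl | rfl | rfl
    · rw [h] at c0k; exact one_ne_zero c0k.symm
    · rw [h] at c1i; exact one_ne_zero c1i.symm
    · exact n2 h
    · rw [h] at cxj; exact one_ne_zero cxj.symm
  · intro y hy
    rcases hy with rfl | rfl | rfl | rfl
    · rw [q0]; exact hc
    · rw [q1]; exact h1
    · rw [q2]; exact h2
    · rw [qx]; exact hx
  · intro y hy p hp
    refine Submodule.mem_sup_left ?_
    rcases hy with rfl | rfl | rfl | rfl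
    · rw [q0] at hp
      rcases hp with hp | rfl | rfl
      · exact subset_span (GE7_sub hp)
      · exact GE7_t_mem
      · exact zero_mem _
    · rw [q1] at hp
      exact GE7_Q hR.hi hp
    · rw [q2] at hp
      exact GE7_Q hR.hi hp
    · rw [qx] at hp
      exact GE7_Q hR.hj hp
  · exact fun y hy => Or.inl (Or.inl hy)
  · exact Or.inl (Or.inr (Or.inr rfl))

end QG
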