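import Pool.Agent.Lib.QG.GDefs

/-! MP_2e6874_co, part (A), row GE7a. -/

set_option autoImplicit false

namespace QG
open Set Matroid Submodule

private theorem GE7a_K {I : Finset ℕ} {k : VV} (h : k ∈ DeK true I) : k = 0 := by
  have h1 : bs (!true) {Dec I} = (∅ : Set VV) := by
    ext x
    simp [bs]
  rw [DeK, h1, span_empty] at h
  exact (Submodule.mem_bot F4).1 h

private theorem GE7a_e {h n i k : ℕ} (hne : ¬ (h = i ∧ n = k)) : (e h n) (i, k) = 0 := by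
  unfold e
  rw [Finsupp.single_apply, if_neg]
  intro h2
  rw [Prod.mk.injEq] at h2
  exact hne h2

private theorem GE7a_msu0 {g : F4} {l : ℕ → ℕ} {h n i : ℕ} (hi : i ≠ 0)
    (hne : ¬ (h = i ∧ n = 0)) :
    (msu l (fun i => e i 0) (fun _ => g • e 0 0) h n) (i, 0) = 0 := by
  unfold msu
  split_ifs with h1 h2
  · subst h1
    exact GE7a_e hne
  · rw [Finsupp.smul_apply, GE7a_e (fun h => hi h.1.symm), smul_zero]
  · exact GE7a_e fun h => h1 h.2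

private theorem GE7a_msu1 {g : F4} {l : ℕ → ℕ} {h n i : ℕ} (hi : i ≠ 0)
    (hne : ¬ (h = i ∧ n = 1)) :
    (msu l (fun i => e i 0) (fun _ => g • e 0 0) h n) (i, 1) = 0 := by
  unfold msu
  split_ifs with h1 h2
  · exact GE7a_e fun h => by omega
  · rw [Finsupp.smul_apply, GE7a_e (fun h => hi h.1.symm), smul_zero]
  · exact GE7a_e hne

private theorem GE7a_Dec {I : Finset ℕ} {i : ℕ} : (Dec I) (i, 1) = 0 := by
  rw [Dec, Finsupp.add_apply, Finsupp.finsetSum_apply, GE7a_e (fun h => by omega), zero_add]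
  exact Finset.sum_eq_zero fun j _ => GE7a_e fun h => by omega

/-- the coordinate `(i, 0)` -/
private theorem GE7a_case0 {g : F4} {a : Bool} {I : Finset ℕ} {l : ℕ → ℕ} {i : ℕ} (hi : i ∈ I)
    (hi0 : i ≠ 0) {x : VV} (hx : x ∈ DeC g a true I l)
    (hx0 : x (i, 0) = 0) (φ : VV →ₗ[F4] F4) (hφx : φ x ≠ 0) (hφz : φ (e i 0) ≠ 0)
    (hφr : φ (rim l (fun i => e i 0) (fun _ => g • e 0 0) i 0) ≠ 0) (hφc : φ (Dec I) ≠ 0) :
    ∃ ψ : VV →ₗ[F4] F4, (∀ k ∈ DeK true I, ψ k = 0) ∧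
      (∀ c ∈ DeC g a true I l, φ c = 0 → ψ c = 0) ∧
      ∃ c₁ ∈ DeC g a true I l, ∃ c₂ ∈ DeC g a true I l, φ c₁ * ψ c₂ ≠ φ c₂ * ψ c₁ := by
  refine ⟨Finsupp.lapply (i, 0), ?_, ?_, x, hx, e i 0, ?_, ?_⟩
  · intro k hk
    rw [GE7a_K hk, map_zero]
  · intro c hc hφ
    rw [Finsupp.lapply_apply]
    rcases hc with (((⟨h, hh, rfl⟩ | ⟨_, hc⟩) | ⟨_, hc⟩) | ⟨h, hh, n, hn, hn2, rfl⟩) |
      ⟨h, hh, n, hn, rfl⟩
    · by_cases hhi : h = i
      · subst hhi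
        exact absurd hφ hφz
      · exact GE7a_e fun h => hhi h.1
    · rw [Set.mem_singleton_iff] at hc
      subst hc
      exact GE7a_e fun h => hi0 h.1.symm
    · rw [Set.mem_singleton_iff] at hc
      subst hc
      exact absurd hφ hφc
    · exact GE7a_e fun h => by omega
    · rw [Finsupp.add_apply, GE7a_msu0 (n := n + 1) hi0 (fun h => by omega), add_zero]
      by_cases hhi : h = i ∧ n = 0
      · obtain ⟨rfl, rfl⟩ := hhi
        exact absurd hφ hφr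
      · exact GE7a_msu0 hi0 hhi
  · exact Or.inl (Or.inl (Or.inl (Or.inl ⟨i, hi, rfl⟩)))
  · rw [Finsupp.lapply_apply, Finsupp.lapply_apply, hx0, mul_zero]
    have h1 : (e i 0) (i, 0) = 1 := by
      unfold e
      rw [Finsupp.single_eq_same]
    rw [h1, mul_one]
    exact hφx

/-- the coordinate `(i, 1)` -/
private theorem GE7a_case1 {g : F4} {a : Bool} {I : Finset ℕ} {l : ℕ → ℕ} {i : ℕ} (hi : i ∈ I)
    (hi0 : i ≠ 0) (hli : 2 ≤ l i) {x : VV} (hx : x ∈ DeC g a true I l)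
    (hx0 : x (i, 1) = 0) (φ : VV →ₗ[F4] F4) (hφx : φ x ≠ 0) (hφz : φ (e i 1) ≠ 0)
    (hφr : φ (rim l (fun i => e i 0) (fun _ => g • e 0 0) i 0) ≠ 0)
    (hφr1 : φ (rim l (fun i => e i 0) (fun _ => g • e 0 0) i 1) ≠ 0) :
    ∃ ψ : VV →ₗ[F4] F4, (∀ k ∈ DeK true I, ψ k = 0) ∧
      (∀ c ∈ DeC g a true I l, φ c = 0 → ψ c = 0) ∧
      ∃ c₁ ∈ DeC g a true I l, ∃ c₂ ∈ DeC g a true I l, φ c₁ * ψ c₂ ≠ φ c₂ * ψ c₁ := by
  refine ⟨Finsupp.lapply (i, 1), ?_, ?_, x, hx, e i 1, ?_, ?_⟩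
  · intro k hk
    rw [GE7a_K hk, map_zero]
  · intro c hc hφ
    rw [Finsupp.lapply_apply]
    rcases hc with (((⟨h, hh, rfl⟩ | ⟨_, hc⟩) | ⟨_, hc⟩) | ⟨h, hh, n, hn, hn2, rfl⟩) |
      ⟨h, hh, n, hn, rfl⟩
    · exact GE7a_e fun h => by omega
    · rw [Set.mem_singleton_iff] at hc
      subst hc
      exact GE7a_e fun h => hi0 h.1.symm
    · rw [Set.mem_singleton_iff] at hc
      subst hc
      exact GE7a_Dec
    · by_cases hhi : h = i ∧ n = 1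
      · obtain ⟨rfl, rfl⟩ := hhi
        exact absurd hφ hφz
      · exact GE7a_e hhi
    · rw [Finsupp.add_apply]
      by_cases hh0 : h = i ∧ n = 0
      · obtain ⟨rfl, rfl⟩ := hh0
        exact absurd hφ hφr
      · by_cases hh1 : h = i ∧ n = 1
        · obtain ⟨rfl, rfl⟩ := hh1
          exact absurd hφ hφr1
        · rw [GE7a_msu1 hi0 hh1, GE7a_msu1 hi0 (fun h => hh0 ⟨h.1, by omega⟩), add_zero]
  · exact Or.inl (Or.inr ⟨i, hi, 1, by omega, by omega, rfl⟩)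
  · rw [Finsupp.lapply_apply, Finsupp.lapply_apply, hx0, mul_zero]
    have h1 : (e i 1) (i, 1) = 1 := by
      unfold e
      rw [Finsupp.single_eq_same]
    rw [h1, mul_one]
    exact hφx

/-- GE7a. `CocK`. If `l i = 1`: `ψ = ` coordinate `(i, 0)`; points with this coordinate nonzero: `z_i`, `r_i`,
`c`, all in `R`; `c₁ = x`, `c₂ = z_i`. If `l i ≥ 2` and `φ (e i 1) ≠ 0`: `ψ = ` coordinate `(i, 1)` (points:
`e i 1`, `y₁`, `y₂`), `c₁ = x`, `c₂ = e i 1`; if `φ (e i 1) = 0` then `φ z_i ≠ 0`: `ψ = ` coordinate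
`(i, 0)` (points `z_i`, `y₁`, `c`), `c₁ = x`, `c₂ = z_i`. -/
theorem GE7a {g : F4} {a : Bool} {I : Finset ℕ} {l : ℕ → ℕ} (hOk : DeOk g I l) {i j : ℕ}
    {y₁ y₂ x : VV} (hR : RC g I l i j y₁ y₂ x) :
    CocK (DeK true I) (DeC g a true I l) {Dec I, y₁, y₂, x} := by
  intro φ _ hφ
  have hi := hR.hi
  have hj := hR.hj
  have hi0 : i ≠ 0 := fun h => hOk.zero (h ▸ hi)
  have hc : φ (Dec I) ≠ 0 := hφ _ (Or.inl rfl)
  have h1 : φ y₁ ≠ 0 := hφ _ (Or.inr (Or.inl rfl))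
  have h2 : φ y₂ ≠ 0 := hφ _ (Or.inr (Or.inr (Or.inl rfl)))
  have h3 : φ x ≠ 0 := hφ _ (Or.inr (Or.inr (Or.inr rfl)))
  have hne := hR.ne
  -- the point `x`
  have hxC : x ∈ DeC g a true I l := by
    rcases hR.hx with ⟨_, rfl⟩ | ⟨h, rfl⟩
    · exact Or.inl (Or.inl (Or.inl (Or.inl ⟨j, hj, rfl⟩)))
    · exact Or.inr ⟨j, hj, 0, by omega, rfl⟩
  have hx0 : x (i, 0) = 0 := by
    rcases hR.hx with ⟨_, rfl⟩ | ⟨h, rfl⟩
    · exact GE7a_e fun h => hne h.1.symm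
    · rw [rim, Finsupp.add_apply, GE7a_msu0 hi0 (fun h => hne h.1.symm),
        GE7a_msu0 hi0 (fun h => hne h.1.symm), add_zero]
  have hx1 : x (i, 1) = 0 := by
    rcases hR.hx with ⟨_, rfl⟩ | ⟨h, rfl⟩
    · exact GE7a_e fun h => hne h.1.symm
    · rw [rim, Finsupp.add_apply, GE7a_msu1 hi0 (fun h => hne h.1.symm),
        GE7a_msu1 hi0 (fun h => hne h.1.symm), add_zero]
  rcases hR.hy with ⟨hl, rfl, rfl⟩ | ⟨hl, rfl, rfl⟩
  · refine GE7a_case0 hi hi0 hxC hx0 φ h3 h1 ?_ hc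
    have e1 : rim l (fun i => e i 0) (fun _ => g • e 0 0) i 0 = e i 0 + g • e 0 0 := by
      unfold rim msu
      rw [if_pos rfl, if_neg (by omega), if_pos (by omega)]
    rw [e1]
    exact h2
  · have e1 : rim l (fun i => e i 0) (fun _ => g • e 0 0) i 0 = e i 0 + e i 1 := by
      unfold rim msu
      rw [if_pos rfl, if_neg (by omega), if_neg (by omega)]
    by_cases he : φ (e i 1) = 0
    · refine GE7a_case0 hi hi0 hxC hx0 φ h3 ?_ h1 hc
      intro h4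
      apply h1
      rw [e1, map_add, h4, he, add_zero]
    · exact GE7a_case1 hi hi0 hl hxC hx1 φ h3 he h1 h2

end QG
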