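import Pool.Agent.Lib.QG.GDefs
/-! MP_2e6874_co, part (A), row GE7b. -/

set_option autoImplicit false

namespace QG
open Set Matroid Submodule

private theorem GE7b_e (i n j m : ℕ) : e i n (j, m) = if i = j ∧ n = m then (1 : F4) else 0 := by
  unfold e
  rw [Finsupp.single_apply]
  simp only [Prod.mk.injEq]

private theorem GE7b_Dec {I : Finset ℕ} (h0 : 0 ∉ I) {j : ℕ} (hj : j ∈ I) (n : ℕ) :
    Dec I (j, n) = if n = 0 then (1 : F4) else 0 := by
  have hj0 : (0 : ℕ) ≠ j := fun h => h0 (h ▸ hj)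
  unfold Dec
  rw [Finsupp.add_apply, GE7b_e, Finsupp.finsetSum_apply]
  simp only [GE7b_e, hj0, false_and, if_false, zero_add]
  rw [Finset.sum_eq_single j]
  · simp [eq_comm]
  · intro b _ hb
    simp [hb]
  · intro h; exact absurd hj h

private theorem GE7b_Dec0 {I : Finset ℕ} (h0 : 0 ∉ I) : Dec I (0, 0) = (1 : F4) := by
  unfold Dec
  rw [Finsupp.add_apply, GE7b_e, Finsupp.finsetSum_apply]
  simp only [GE7b_e, and_self, if_true]
  rw [Finset.sum_eq_zero, add_zero]
  intro j hj
  have : j ≠ 0 := fun h => h0 (h ▸ hj)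
  simp [this]

private def GE7b_Leg (g : F4) (l : ℕ → ℕ) (h : ℕ) (x : VV) : Prop :=
  ∃ n, n < l h ∧ (x = e h n ∨ (n + 1 < l h ∧ x = e h n + e h (n + 1)) ∨
    (n + 1 = l h ∧ x = e h n + g • e 0 0))

private theorem GE7b_rim {g : F4} {l : ℕ → ℕ} {h n : ℕ} (hn : n < l h) :
    rim l (fun i => e i 0) (fun _ => g • e 0 0) h n =
      e h n + (if n + 1 = l h then g • e 0 0 else e h (n + 1)) := by
  unfold rim msu
  have h1 : n ≠ l h := hn.ne
  rcases Nat.eq_zero_or_pos n with h0 | h0
  · subst h0; simp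
  · have h2 : n ≠ 0 := h0.ne'
    simp [h1, h2]

private theorem GE7b_mem {g : F4} {a b : Bool} {I : Finset ℕ} {l : ℕ → ℕ}
    (hl : ∀ i ∈ I, 1 ≤ l i) {x : VV} (hx : x ∈ DeC g a b I l) :
    (∃ h ∈ I, GE7b_Leg g l h x) ∨ x = e 0 0 ∨ x = Dec I ∧ b = true := by
  unfold DeC MSC at hx
  rcases hx with ((((⟨i, hi, rfl⟩ | ⟨_, hx⟩) | ⟨hb, hx⟩) | ⟨i, hi, n, h0, hn, rfl⟩) | ⟨i, hi, n, hn, rfl⟩)
  · exact Or.inl ⟨i, hi, 0, hl i hi, Or.inl rfl⟩
  · exact Or.inr (Or.inl hx)
  · exact Or.inr (Or.inr ⟨hx, hb⟩)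
  · exact Or.inl ⟨i, hi, n, hn, Or.inl rfl⟩
  · refine Or.inl ⟨i, hi, n, hn, Or.inr ?_⟩
    have := GE7b_rim (g := g) hn
    unfold rim at this
    rw [this]
    split_ifs with h
    · exact Or.inr ⟨h, rfl⟩
    · exact Or.inl ⟨by omega, rfl⟩

private theorem GE7b_off {g : F4} {l : ℕ → ℕ} {h : ℕ} {x : VV} (hx : GE7b_Leg g l h x) {j : ℕ}
    (hj : j ≠ 0) (hjh : j ≠ h) (m : ℕ) : x (j, m) = 0 := by
  obtain ⟨n, hn, rfl | ⟨_, rfl⟩ | ⟨_, rfl⟩⟩ := hx <;>
    simp [GE7b_e, hjh.symm, hj.symm]

private theorem GE7b_t {g : F4} {l : ℕ → ℕ} {h : ℕ} {x : VV} (hx : GE7b_Leg g l h x)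
    (hh : h ≠ 0) : x (0, 0) = 0 ∨ x (0, 0) = g := by
  obtain ⟨n, hn, rfl | ⟨_, rfl⟩ | ⟨_, rfl⟩⟩ := hx <;>
    simp [GE7b_e, hh]

private theorem GE7b_nz {g : F4} {l : ℕ → ℕ} {h : ℕ} {x : VV} (hx : GE7b_Leg g l h x)
    (hh : h ≠ 0) : ∃ n, x (h, n) = 1 := by
  obtain ⟨n, hn, rfl | ⟨_, rfl⟩ | ⟨_, rfl⟩⟩ := hx <;>
    exact ⟨n, by simp [GE7b_e, hh.symm]⟩

private theorem GE7b_z {g : F4} {l : ℕ → ℕ} {h : ℕ} {x : VV} (hx : GE7b_Leg g l h x)
    (hh : h ≠ 0) {b c : F4} (hc : c ≠ 0)
    (H : ∀ n, b * x (h, n) = if n = 0 then c else 0) :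
    b = c ∧ (x = e h 0 ∨ l h = 1 ∧ x = e h 0 + g • e 0 0) := by
  have hb : b ≠ 0 := by
    rintro rfl
    have := H 0
    simp at this
    exact hc this.symm
  obtain ⟨n, hn, hx | ⟨hn', hx⟩ | ⟨hn', hx⟩⟩ := hx
  · have h0 : n = 0 := by
      by_contra h0
      have := H n
      rw [hx] at this
      simp [GE7b_e, h0, hb] at this
    subst h0
    have := H 0
    rw [hx] at this
    simp [GE7b_e] at this
    exact ⟨this, Or.inl hx⟩
  · exfalso
    have := H (n + 1)
    rw [hx] at this
    simp [GE7b_e, hb] at this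
  · have h0 : n = 0 := by
      by_contra h0
      have := H n
      rw [hx] at this
      simp [GE7b_e, h0, hb, hh.symm] at this
    subst h0
    have := H 0
    rw [hx] at this
    simp [GE7b_e, hh.symm] at this
    exact ⟨this, Or.inr ⟨hn'.symm, hx⟩⟩

private theorem GE7b_cov {I : Finset ℕ} (h3 : 3 ≤ I.card) {h i k : ℕ}
    (H : ∀ j ∈ I, j = h ∨ j = i ∨ j = k) :
    h ≠ i ∧ h ≠ k ∧ i ≠ k ∧ h ∈ I ∧ i ∈ I ∧ k ∈ I := by
  have hsub : I ⊆ {h, i, k} := by
    intro j hj
    simpa using H j hj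
  have hcard := Finset.card_le_card hsub
  have e : I = {h, i, k} := Finset.eq_of_subset_of_card_le hsub (Finset.card_le_three.trans h3)
  have h1 : h ≠ i := by
    rintro rfl
    have : ({h, h, k} : Finset ℕ).card ≤ 2 := by
      simpa using Finset.card_le_two (a := h) (b := k)
    omega
  have h2 : h ≠ k := by
    rintro rfl
    have : ({h, i, h} : Finset ℕ).card ≤ 2 := by
      rw [Finset.insert_comm]
      simpa using Finset.card_le_two (a := i) (b := h)
    omega
  have h4 : i ≠ k := by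
    rintro rfl
    have : ({h, i, i} : Finset ℕ).card ≤ 2 := by
      simpa using Finset.card_le_two (a := h) (b := i)
    omega
  refine ⟨h1, h2, h4, ?_, ?_, ?_⟩ <;> rw [e] <;> simp

private theorem GE7b_add {x y z : F4} : x + y = z ↔ y = x + z := by
  revert x y z; decide

private theorem GE7b_f1 {g x y z : F4} (hg : g = F4.w ∨ g = F4.v) (hx : x = 0 ∨ x = g)
    (hy : y = 0 ∨ y = g) (hz : z = 0 ∨ z = g) : 1 + x + y ≠ z := by
  revert hx hy hz hg
  revert g x y z
  decide

private theorem GE7b_g1 {κ β d : F4} (hβ : β ≠ 0) (hd : d = 0 ∨ d = 1) (h : β = κ * d) : β = κ := by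
  rcases hd with rfl | rfl
  · rw [mul_zero] at h; exact absurd h hβ
  · rwa [mul_one] at h

private theorem GE7b_g2 {κ β d g : F4} (hβ : β ≠ 0) (hg : g ≠ 0) (hd : d = 0 ∨ d = g)
    (h : β * g = κ * d) : β = κ := by
  rcases hd with rfl | rfl
  · rw [mul_zero] at h; exact absurd h (mul_ne_zero hβ hg)
  · exact mul_right_cancel₀ hg h

private theorem GE7b_c3 {g : F4} {l : ℕ → ℕ} {i : ℕ} (hi0 : i ≠ 0) {y ε d : VV}
    (hy : (l i = 1 ∧ (y = e i 0 ∨ y = e i 0 + g • e 0 0)) ∨
      (2 ≤ l i ∧ (y = rim l (fun i => e i 0) (fun _ => g • e 0 0) i 0 ∨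
        y = rim l (fun i => e i 0) (fun _ => g • e 0 0) i 1)))
    (hεL : GE7b_Leg g l i ε) (hεy : ε ≠ y) {κ α β : F4} (hκ : κ ≠ 0) (hβ : β ≠ 0)
    (HD : ∀ k, β * ε k + α * y k = κ * d k) (hd0 : d (0, 0) = 0 ∨ d (0, 0) = g) (hg : g ≠ 0)
    (hdn : ∀ n, n ≠ 0 → d (i, n) = 0) (hd1 : d (i, 0) = 0 ∨ d (i, 0) = 1) : β = κ := by
  have hi0' := hi0.symm
  have H0 := HD (i, 0)
  have Ht := HD (0, 0)
  have Hn : ∀ n, n ≠ 0 → β * ε (i, n) + α * y (i, n) = 0 := by
    intro n hn
    rw [HD, hdn n hn, mul_zero]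
  clear HD
  rcases hy with ⟨h1, hy⟩ | ⟨h2, hy⟩
  · -- `l i = 1`
    obtain ⟨n, hn, hε | ⟨hn', hε⟩ | ⟨hn', hε⟩⟩ := hεL
    · have hn0 : n = 0 := by omega
      subst hn0
      rcases hy with hy | hy
      · exact absurd (hε.trans hy.symm) hεy
      · rw [hε, hy] at H0 Ht
        simp [GE7b_e, hi0, hi0'] at H0 Ht
        by_cases hα : α = 0
        · rw [hα, add_zero] at H0
          exact GE7b_g1 hβ hd1 H0
        · have h3 := GE7b_g2 hα hg hd0 Ht
          rw [h3] at H0
          rcases hd1 with h4 | h4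
          · rw [h4, mul_zero, vadd_eq_zero] at H0
            exact H0
          · rw [h4, mul_one] at H0
            exact absurd (by simpa using H0) hβ
    · omega
    · have hn0 : n = 0 := by omega
      subst hn0
      rcases hy with hy | hy
      · rw [hε, hy] at Ht
        simp [GE7b_e, hi0] at Ht
        exact GE7b_g2 hβ hg hd0 Ht
      · exact absurd (hε.trans hy.symm) hεy
  · have r0 : rim l (fun i => e i 0) (fun _ => g • e 0 0) i 0 = e i 0 + e i 1 := by
      rw [GE7b_rim (by omega), if_neg (by omega)]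
    rw [r0] at hy
    rcases hy with hy | hy
    · -- `y = y₁`
      obtain ⟨n, hn, hε | ⟨hn', hε⟩ | ⟨hn', hε⟩⟩ := hεL
      · by_cases hn0 : n = 0
        · subst hn0
          have H1 := Hn 1 one_ne_zero
          rw [hε, hy] at H0 H1
          simp [GE7b_e] at H0 H1
          rw [H1, add_zero] at H0
          exact GE7b_g1 hβ hd1 H0
        · by_cases hn1 : n = 1
          · subst hn1
            have H1 := Hn 1 one_ne_zero
            rw [hε, hy] at H0 H1
            simp [GE7b_e] at H0 H1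
            rw [vadd_eq_zero] at H1
            rw [← H1] at H0
            exact GE7b_g1 hβ hd1 H0
          · have H1 := Hn n hn0
            rw [hε, hy] at H1
            simp [GE7b_e, Ne.symm hn0, Ne.symm hn1, hβ] at H1
      · by_cases hn0 : n = 0
        · subst hn0
          exact absurd (hε.trans hy.symm) hεy
        · have H1 := Hn (n + 1) (by omega)
          rw [hε, hy] at H1
          simp [GE7b_e, hn0, hβ] at H1
      · have hn0 : n ≠ 0 := by omega
        by_cases hn1 : n = 1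
        · subst hn1
          have H1 := Hn 1 one_ne_zero
          rw [hε, hy] at H0 H1
          simp [GE7b_e, hi0'] at H0 H1
          rw [vadd_eq_zero] at H1
          rw [← H1] at H0
          exact GE7b_g1 hβ hd1 H0
        · have H1 := Hn n hn0
          rw [hε, hy] at H1
          simp [GE7b_e, Ne.symm hn0, Ne.symm hn1, hβ, hi0'] at H1
    · -- `y = y₂`
      rw [GE7b_rim (by omega)] at hy
      by_cases hl : 1 + 1 = l i
      · -- `l i = 2`
        rw [if_pos hl] at hy
        obtain ⟨n, hn, hε | ⟨hn', hε⟩ | ⟨hn', hε⟩⟩ := hεL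
        · by_cases hn0 : n = 0
          · subst hn0
            rw [hε, hy] at H0
            simp [GE7b_e, hi0'] at H0
            exact GE7b_g1 hβ hd1 H0
          · have hn1 : n = 1 := by omega
            subst hn1
            have H1 := Hn 1 one_ne_zero
            rw [hε, hy] at Ht H1
            simp [GE7b_e, hi0, hi0'] at Ht H1
            rw [vadd_eq_zero] at H1
            rw [← H1] at Ht
            exact GE7b_g2 hβ hg hd0 Ht
        · have hn0 : n = 0 := by omega
          subst hn0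
          rw [hε, hy] at H0
          simp [GE7b_e, hi0'] at H0
          exact GE7b_g1 hβ hd1 H0
        · have hn1 : n = 1 := by omega
          subst hn1
          exact absurd (hε.trans hy.symm) hεy
      · -- `l i ≥ 3`
        rw [if_neg hl] at hy
        obtain ⟨n, hn, hε | ⟨hn', hε⟩ | ⟨hn', hε⟩⟩ := hεL
        · by_cases hn0 : n = 0
          · subst hn0
            rw [hε, hy] at H0
            simp [GE7b_e] at H0
            exact GE7b_g1 hβ hd1 H0
          · exfalso
            by_cases hn1 : n = 1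
            · subst hn1
              have H1 := Hn 1 one_ne_zero
              have H2 := Hn 2 two_ne_zero
              rw [hε, hy] at H1 H2
              simp [GE7b_e] at H1 H2
              rw [H2, add_zero] at H1
              exact hβ H1
            · have H1 := Hn 1 one_ne_zero
              have H2 := Hn n hn0
              rw [hε, hy] at H1 H2
              simp [GE7b_e, hn1] at H1
              rw [H1] at H2
              simp [GE7b_e, hβ] at H2
        · by_cases hn0 : n = 0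
          · subst hn0
            rw [hε, hy] at H0
            simp [GE7b_e] at H0
            exact GE7b_g1 hβ hd1 H0
          · by_cases hn1 : n = 1
            · subst hn1
              exact absurd (hε.trans hy.symm) hεy
            · exfalso
              have H2 := Hn (n + 1) (by omega)
              rw [hε, hy] at H2
              simp [GE7b_e, hβ, hn0, hn1] at H2
        · exfalso
          have hn0 : n ≠ 0 := by omega
          have hn1 : n ≠ 1 := by omega
          have H1 := Hn 1 one_ne_zero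
          have H2 := Hn n hn0
          rw [hε, hy] at H1 H2
          simp [GE7b_e, hn1, hi0'] at H1
          rw [H1] at H2
          simp [GE7b_e, hβ, hi0'] at H2

/-- GE7b. The plane `⟨c, y, ε⟩`. Let `ε` be a point of `DeC g a false I l` or `ε = t`, `k ≥ 3` legs, `y` one of
`y₁, y₂` (leg `i`) or `x` (then read `j` for `i`), `ε` not proportional to `y`. If
`κ c + β ε + α y = s p` with `κ, β ≠ 0`, `s ≠ 0` and `p ∈ DeQ .. i`, then `β = κ` if `ε ≠ t` (`ε` not on
the line of `t`), and `β ε = κ g t` if `ε` is on the line of `t`; moreover if `ε` is not in leg `i` (no coordinates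
`(i, n)`) and not on the line of `t`, then `ε` is a multiple of some `z_h` or of `z_h + g t` with
`l h = 1`. (Normalise: here `ε` is one of the vectors listed in `DeC`, not only up to a scalar.)
Proof: scale to `κ = 1`. `ε` and `y` have coordinates in at most two legs, so there is a leg `h` in which the
left side is `z_h`. `p` is not a point of a leg or `t` or `0`: it would be in leg `h`, equal to a multiple of `z_h`
or `r_h`, and the left side would vanish in the other `≥ 2` legs modulo `t`, so there are three legs,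
`β ε` and `α y` are `z` or `r` of the other two legs (coefficient 1) and the coefficient of `t` is `1`
or `1 + g` (as `g + g = 0`), but must be `0` or `g`: contradiction. So `p = c + d` with
`d ∈ {0, z_h, g t, r_h (l h = 1), z_i + g t (l i = 2)}`. If `s ≠ 1`: `(1 + s) c + β ε + α y = s d`: in a leg
not touched by `ε, y, d` this is `(1 + s) z ≠ 0`; so there are exactly three legs, touched by `ε`, `y`, `d`
respectively; in the leg of `d` we get `1 + s = s` (modulo `t`), contradiction. So `s = 1` and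
`β ε + α y = d`.
(1) `ε` in a leg `h ≠ i`: the leg part of `d` in leg `h` is `β ε ≠ 0`, so `d ∈ {z_h, r_h}`, the part in leg
`i` gives `α = 0`, `β ε = d`, so `β = 1` and `ε = d`.
(2) `ε = t`: `β t + α y = d`. If `α = 0`: `d = g t`, `β = g`. If `α ≠ 0`: `d` is in leg `i` and proportional to
`y` modulo `t`: `l i = 1`, `y, d ∈ {z_i, r_i}`, `α = 1`, `β t = y + d ∈ {0, g t}`, so `β = g`
(`l i ≥ 2`: `y ≡ z_i + e i 1` or `e i 1 (+ e i 2)` modulo `t`, `d ≡ z_i`, impossible).
(3) `ε` in leg `i`: `l i = 1`: `{ε, y} = {z_i, r_i}`: `β ε + α y ∈ {0, g t, z_i, r_i}` gives `β = 1`.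
`l i ≥ 2`, `y = y₁ = z_i + e i 1`: `ε = z_i`: `α = 0` or ... the coordinate `(i,1)` is `α = 0`, `β = 1`;
`ε = e i 1`: `α = β`, `d = β z_i`, `β = 1`; `ε = y₂`: coordinates `(i,0)`: `α`, `(i,1)`: `α + β`: not possible
unless `d = ..`; other `ε` impossible. (`d ∈ {0, g t, z_i, z_i + g t}` has only the coordinates `(i,0)`
and `(0,0)`.) `y = y₂` in the same way. -/
theorem GE7b {g : F4} {a : Bool} {I : Finset ℕ} {l : ℕ → ℕ} (hOk : DeOk g I l) (h3 : 3 ≤ I.card)
    {i : ℕ} (hi : i ∈ I) {y : VV}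
    (hy : (l i = 1 ∧ (y = e i 0 ∨ y = e i 0 + g • e 0 0)) ∨
      (2 ≤ l i ∧ (y = rim l (fun i => e i 0) (fun _ => g • e 0 0) i 0 ∨
        y = rim l (fun i => e i 0) (fun _ => g • e 0 0) i 1)))
    {ε : VV} (hε : ε ∈ DeC g true false I l) (hεy : ε ≠ y) {κ α β s : F4} (hκ : κ ≠ 0)
    (hβ : β ≠ 0) (hs : s ≠ 0) {p : VV} (hp : p ∈ DeQ g a I l i)
    (hrel : κ • Dec I + β • ε + α • y = s • p) :
    (ε ≠ e 0 0 → β = κ) ∧ (ε = e 0 0 → β = κ * g) ∧
      (ε ≠ e 0 0 → (∀ n, ε (i, n) = 0) →
        ∃ h ∈ I, ε = e h 0 ∨ (l h = 1 ∧ ε = e h 0 + g • e 0 0)) := by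
  have hI0 : ∀ j ∈ I, j ≠ 0 := fun j hj h => hOk.zero (h ▸ hj)
  have hi0 : i ≠ 0 := hI0 i hi
  have hg := hOk.g_ne
  -- the type of `y`
  have hyL : GE7b_Leg g l i y := by
    rcases hy with ⟨h1, rfl | rfl⟩ | ⟨h2, rfl | rfl⟩
    · exact ⟨0, by omega, Or.inl rfl⟩
    · exact ⟨0, by omega, Or.inr (Or.inr ⟨by omega, rfl⟩)⟩
    · have : 0 < l i := by omega
      rw [GE7b_rim this, if_neg (by omega)]
      exact ⟨0, this, Or.inr (Or.inl ⟨by omega, rfl⟩)⟩
    · have : 1 < l i := by omega
      rw [GE7b_rim this]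
      split_ifs with h
      · exact ⟨1, this, Or.inr (Or.inr ⟨h, rfl⟩)⟩
      · exact ⟨1, this, Or.inr (Or.inl ⟨by omega, rfl⟩)⟩
  -- the type of `ε`
  have hεL : (∃ h ∈ I, GE7b_Leg g l h ε) ∨ ε = e 0 0 := by
    rcases GE7b_mem hOk.pos hε with h | h | ⟨_, h⟩
    · exact Or.inl h
    · exact Or.inr h
    · exact absurd h (by decide)
  have rel : ∀ k, κ * Dec I k + β * ε k + α * y k = s * p k := by
    intro k
    have := DFunLike.congr_fun hrel k
    simpa using this
  obtain ⟨h, hεh, hεt⟩ : ∃ h, (∀ j ∈ I, j ≠ h → ∀ m, ε (j, m) = 0) ∧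
      ((h ∈ I ∧ GE7b_Leg g l h ε) ∨ (h = i ∧ ε = e 0 0)) := by
    rcases hεL with ⟨h, hh, hL⟩ | hL
    · exact ⟨h, fun j hj hjh m => GE7b_off hL (hI0 j hj) hjh m, Or.inl ⟨hh, hL⟩⟩
    · refine ⟨i, fun j hj _ m => ?_, Or.inr ⟨rfl, hL⟩⟩
      rw [hL, GE7b_e]
      simp [(hI0 j hj).symm]
  have hyo : ∀ j ∈ I, j ≠ i → ∀ m, y (j, m) = 0 := fun j hj hji m => GE7b_off hyL (hI0 j hj) hji m
  -- the type of `p`
  have hpT : (∃ k, (∀ j ∈ I, j ≠ k → ∀ m, p (j, m) = 0) ∧
      ((k ∈ I ∧ GE7b_Leg g l k p) ∨ k = i)) ∨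
      ∃ d, p = Dec I + d ∧ (d = 0 ∨ d = g • e 0 0 ∨ (∃ k ∈ I, d = e k 0) ∨
        (∃ k ∈ I, d = e k 0 + g • e 0 0)) := by
    unfold DeQ DeP at hp
    rcases hp with ((hp | hp) | ⟨_, (⟨k, hk, hp⟩ | hp) | ⟨k, hk, _, hp⟩⟩) | ⟨_, hp⟩
    · rcases GE7b_mem hOk.pos hp with ⟨k, hk, hL⟩ | hL | ⟨hL, _⟩
      · exact Or.inl ⟨k, fun j hj hjh m => GE7b_off hL (hI0 j hj) hjh m, Or.inl ⟨hk, hL⟩⟩
      · refine Or.inl ⟨i, fun j hj _ m => ?_, Or.inr rfl⟩
        rw [hL, GE7b_e]
        simp [(hI0 j hj).symm]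
      · exact Or.inr ⟨0, by rw [hL, add_zero], Or.inl rfl⟩
    · refine Or.inl ⟨i, fun j hj _ m => ?_, Or.inr rfl⟩
      rcases hp with hp | hp
      · rw [hp, GE7b_e]
        simp [(hI0 j hj).symm]
      · rw [Set.mem_singleton_iff.1 hp]
        simp
    · exact Or.inr ⟨e k 0, hp, Or.inr (Or.inr (Or.inl ⟨k, hk, rfl⟩))⟩
    · exact Or.inr ⟨g • e 0 0, hp, Or.inr (Or.inl rfl)⟩
    · exact Or.inr ⟨e k 0 + g • e 0 0, by rw [hp, add_assoc], Or.inr (Or.inr (Or.inr ⟨k, hk, rfl⟩))⟩
    · exact Or.inr ⟨e i 0 + g • e 0 0, by rw [show p = Dec I + e i 0 + g • e 0 0 from hp, add_assoc],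
        Or.inr (Or.inr (Or.inr ⟨i, hi, rfl⟩))⟩
  rcases hpT with ⟨k, hpo, hpk⟩ | ⟨d, hpd, hd⟩
  · -- `p` is not a point of a leg
    exfalso
    obtain ⟨hhi, hhk, hik, hh, -, hk⟩ := GE7b_cov h3 (h := h) (i := i) (k := k) (by
      intro j hj
      by_contra hcon
      push Not at hcon
      obtain ⟨h1, h2, h4⟩ := hcon
      have := rel (j, 0)
      rw [GE7b_Dec hOk.zero hj, hεh j hj h1, hyo j hj h2, hpo j hj h4] at this
      simp at this
      exact hκ this)
    have hεL' : GE7b_Leg g l h ε := by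
      rcases hεt with ⟨_, h1⟩ | ⟨h1, _⟩
      · exact h1
      · exact absurd h1 hhi
    have hpL' : GE7b_Leg g l k p := by
      rcases hpk with ⟨_, h1⟩ | h1
      · exact h1
      · exact absurd h1.symm hik
    have z1 := GE7b_z hεL' (hI0 h hh) hκ (b := β) (by
      intro n
      have := rel (h, n)
      rw [GE7b_Dec hOk.zero hh, hyo h hh hhi, hpo h hh hhk] at this
      split_ifs at this ⊢ with hn
      · simp only [mul_one, mul_zero, add_zero] at this
        exact (GE7b_add.1 this).trans (add_zero _)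
      · simpa using this)
    have z2 := GE7b_z hyL hi0 hκ (b := α) (by
      intro n
      have := rel (i, n)
      rw [GE7b_Dec hOk.zero hi, hεh i hi hhi.symm, hpo i hi hik] at this
      split_ifs at this ⊢ with hn
      · simp only [mul_one, mul_zero, add_zero] at this
        exact (GE7b_add.1 this).trans (add_zero _)
      · simpa using this)
    have z3 := GE7b_z hpL' (hI0 k hk) hκ (b := s) (by
      intro n
      have := rel (k, n)
      rw [GE7b_Dec hOk.zero hk, hεh k hk hhk.symm, hyo k hk hik.symm] at this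
      split_ifs at this ⊢ with hn
      · simp only [mul_one, mul_zero, add_zero] at this
        exact this.symm
      · simp only [mul_zero, add_zero] at this
        exact this.symm)
    have ht := rel (0, 0)
    rw [GE7b_Dec0 hOk.zero, z1.1, z2.1, z3.1, ← mul_add, ← mul_add] at ht
    exact GE7b_f1 hg (GE7b_t hεL' (hI0 h hh)) (GE7b_t hyL hi0) (GE7b_t hpL' (hI0 k hk))
      (mul_left_cancel₀ hκ ht)
  · -- facts on `d`
    have hd0 : d (0, 0) = 0 ∨ d (0, 0) = g := by
      rcases hd with rfl | rfl | ⟨k, hk, rfl⟩ | ⟨k, hk, rfl⟩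
      · simp
      · simp [GE7b_e]
      · simp [GE7b_e, hI0 k hk]
      · simp [GE7b_e, hI0 k hk]
    have hdn : ∀ j ∈ I, ∀ n, n ≠ 0 → d (j, n) = 0 := by
      intro j hj n hn
      have hj0 := (hI0 j hj).symm
      rcases hd with rfl | rfl | ⟨k, hk, rfl⟩ | ⟨k, hk, rfl⟩
      · simp
      · simp [GE7b_e, hj0]
      · simp [GE7b_e, hn.symm]
      · simp [GE7b_e, hj0, hn.symm]
    have hdk : ∃ k, (∀ j ∈ I, j ≠ k → d (j, 0) = 0) ∧ (k = i ∨ (k ∈ I ∧ d (k, 0) = 1)) := by
      rcases hd with rfl | rfl | ⟨k, hk, rfl⟩ | ⟨k, hk, rfl⟩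
      · exact ⟨i, fun _ _ _ => by simp, Or.inl rfl⟩
      · exact ⟨i, fun j hj _ => by simp [GE7b_e, (hI0 j hj).symm], Or.inl rfl⟩
      · exact ⟨k, fun j hj hjk => by simp [GE7b_e, hjk.symm], Or.inr ⟨hk, by simp [GE7b_e]⟩⟩
      · exact ⟨k, fun j hj hjk => by simp [GE7b_e, hjk.symm, (hI0 j hj).symm],
          Or.inr ⟨hk, by simp [GE7b_e, (hI0 k hk).symm]⟩⟩
    have hd1 : ∀ j ∈ I, d (j, 0) = 0 ∨ d (j, 0) = 1 := by
      intro j hj
      have hj0 := (hI0 j hj).symm
      rcases hd with rfl | rfl | ⟨k, hk, rfl⟩ | ⟨k, hk, rfl⟩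
      · simp
      · simp [GE7b_e, hj0]
      · by_cases hkj : k = j <;> simp [GE7b_e, hkj]
      · by_cases hkj : k = j <;> simp [GE7b_e, hj0, hkj]
    -- `s = κ`
    have hsκ : κ = s := by
      by_contra hne
      obtain ⟨k, hk1, hk2⟩ := hdk
      obtain ⟨hhi, hhk, hik, hh, -, hk⟩ := GE7b_cov h3 (h := h) (i := i) (k := k) (by
        intro j hj
        by_contra hcon
        push Not at hcon
        obtain ⟨h1, h2, h4⟩ := hcon
        have := rel (j, 0)
        rw [hpd, Finsupp.add_apply, GE7b_Dec hOk.zero hj, hεh j hj h1, hyo j hj h2,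
          hk1 j hj h4] at this
        simp at this
        exact hne this)
      have hdk1 : d (k, 0) = 1 := by
        rcases hk2 with h1 | ⟨_, h1⟩
        · exact absurd h1.symm hik
        · exact h1
      have := rel (k, 0)
      rw [hpd, Finsupp.add_apply, GE7b_Dec hOk.zero hk, hεh k hk hhk.symm, hyo k hk hik.symm,
        hdk1] at this
      rw [if_pos rfl, F4.add_self] at this
      simp at this
      exact hκ this
    subst hsκ
    have HD : ∀ k, β * ε k + α * y k = κ * d k := by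
      intro k
      have := rel k
      rw [hpd, Finsupp.add_apply, mul_add, add_assoc] at this
      exact add_left_cancel this
    clear rel hrel hp hpd
    rcases hεt with ⟨hh, hεL'⟩ | ⟨-, hεe⟩
    · have hεne : ε ≠ e 0 0 := by
        intro h1
        obtain ⟨n, hn⟩ := GE7b_nz hεL' (hI0 h hh)
        rw [h1, GE7b_e] at hn
        simp [(hI0 h hh).symm] at hn
      by_cases hhi : h = i
      · -- case 3
        rw [hhi] at hεL'
        refine ⟨fun _ => GE7b_c3 hi0 hy hεL' hεy hκ hβ HD hd0 ?_ (hdn i hi) (hd1 i hi),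
          fun h1 => absurd h1 hεne, fun _ h1 => ?_⟩
        · rcases hg with rfl | rfl <;> decide
        · obtain ⟨n, hn⟩ := GE7b_nz hεL' hi0
          rw [h1 n] at hn
          exact absurd hn zero_ne_one
      · -- case 1
        have H : ∀ n, β * ε (h, n) = κ * d (h, n) := by
          intro n
          have := HD (h, n)
          rwa [hyo h hh hhi, mul_zero, add_zero] at this
        obtain ⟨n, hn⟩ := GE7b_nz hεL' (hI0 h hh)
        have hn' := H n
        rw [hn, mul_one] at hn'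
        have hdh : d (h, 0) = 1 := by
          rcases hd1 h hh with h1 | h1
          · exfalso
            by_cases h2 : n = 0
            · rw [h2, h1, mul_zero] at hn'; exact hβ hn'
            · rw [hdn h hh n h2, mul_zero] at hn'; exact hβ hn'
          · exact h1
        have z := GE7b_z hεL' (hI0 h hh) hκ (b := β) (by
          intro n
          rw [H n]
          split_ifs with h1
          · rw [h1, hdh, mul_one]
          · rw [hdn h hh n h1, mul_zero])
        exact ⟨fun _ => z.1, fun h1 => absurd h1 hεne, fun _ _ => ⟨h, hh, z.2⟩⟩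
    · -- case 2
      refine ⟨fun h1 => absurd hεe h1, fun _ => ?_, fun h1 => absurd hεe h1⟩
      have Ht := HD (0, 0)
      rw [hεe, GE7b_e, if_pos ⟨rfl, rfl⟩, mul_one] at Ht
      by_cases hα : α = 0
      · rw [hα, zero_mul, add_zero] at Ht
        rcases hd0 with h1 | h1
        · rw [h1, mul_zero] at Ht; exact absurd Ht hβ
        · rw [h1] at Ht; exact Ht
      · have H : ∀ n, α * y (i, n) = κ * d (i, n) := by
          intro n
          have := HD (i, n)
          rw [hεe, GE7b_e, if_neg (fun h1 => hi0 h1.1.symm), mul_zero, zero_add] at this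
          exact this
        obtain ⟨n, hn⟩ := GE7b_nz hyL hi0
        have hn' := H n
        rw [hn, mul_one] at hn'
        have hdh : d (i, 0) = 1 := by
          rcases hd1 i hi with h1 | h1
          · exfalso
            by_cases h2 : n = 0
            · rw [h2, h1, mul_zero] at hn'; exact hα hn'
            · rw [hdn i hi n h2, mul_zero] at hn'; exact hα hn'
          · exact h1
        have z := GE7b_z hyL hi0 hκ (b := α) (by
          intro n
          rw [H n]
          split_ifs with h1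
          · rw [h1, hdh, mul_one]
          · rw [hdn i hi n h1, mul_zero])
        rw [z.1] at Ht
        have hy0 := GE7b_t hyL hi0
        rw [add_comm] at Ht
        have Ht' := GE7b_add.1 Ht
        rw [← mul_add] at Ht'
        rcases hy0 with h1 | h1 <;> rcases hd0 with h2 | h2 <;> rw [h1, h2] at Ht'
        · rw [add_zero, mul_zero] at Ht'; exact absurd Ht' hβ
        · rw [zero_add] at Ht'; exact Ht'
        · rw [add_zero] at Ht'; exact Ht'
        · rw [F4.add_self, mul_zero] at Ht'; exact absurd Ht' hβ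

end QG
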