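import Pool.Agent.Lib.QG.GD5

/-! MP_2e6874_co, part (A), row GE8. -/

set_option autoImplicit false

namespace QG
open Set Matroid Submodule

private theorem GE8_e (i n j k : ℕ) : e i n (j, k) = if i = j ∧ n = k then 1 else 0 := by
  unfold e
  rw [Finsupp.single_apply]
  simp only [Prod.mk.injEq]

private theorem GE8_Dec {I : Finset ℕ} (k n : ℕ) : Dec I (k, n) =
    (if 0 = k ∧ 0 = n then 1 else 0) + ∑ i ∈ I, (if i = k ∧ 0 = n then (1 : F4) else 0) := by
  unfold Dec
  rw [Finsupp.add_apply, Finsupp.finsetSum_apply, GE8_e]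
  congr 1
  refine Finset.sum_congr rfl fun i _ => ?_
  rw [GE8_e]

private theorem GE8_Dec1 {I : Finset ℕ} (h0 : 0 ∉ I) {k : ℕ} (hk : k ∈ I) : Dec I (k, 0) = 1 := by
  rw [GE8_Dec, if_neg (by rintro ⟨rfl, -⟩; exact h0 hk), zero_add]
  simp [hk]

private theorem GE8_Dec2 {I : Finset ℕ} (k : ℕ) {n : ℕ} (hn : 1 ≤ n) : Dec I (k, n) = 0 := by
  rw [GE8_Dec, if_neg (by rintro ⟨-, rfl⟩; omega), zero_add]
  refine Finset.sum_eq_zero fun i _ => ?_
  rw [if_neg (by rintro ⟨-, rfl⟩; omega)]

private theorem GE8_LnK {K : Submodule F4 VV} {C C' : Set VV}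
    (h : ∀ c ∈ C, ∃ c' ∈ C', ∃ s : F4, c + s • c' ∈ K) : LnK K C ⊆ LnK K C' := by
  rintro y ⟨hy, c, hc, s, hs⟩
  obtain ⟨c', hc', s', hs'⟩ := h c hc
  refine ⟨hy, c', hc', s * s', ?_⟩
  have h1 := K.add_mem hs (K.smul_mem s hs')
  have e1 : y + s • c + s • (c + s' • c') = y + (s * s') • c' := by
    rw [smul_add, smul_smul]
    have : y + s • c + (s • c + (s * s') • c') = y + (s • c + s • c) + (s * s') • c' := by abel
    rw [this, vadd_self, add_zero]
  rwa [e1] at h1

private theorem GE8_memK {I : Finset ℕ} {k : VV} (hk : k ∈ DeK false I) : ∃ s : F4, k = s • Dec I := by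
  have h1 : bs (!false) {Dec I} = ({Dec I} : Set VV) := by
    ext x; simp [bs]
  unfold DeK at hk
  rw [h1] at hk
  obtain ⟨s, hs⟩ := Submodule.mem_span_singleton.1 hk
  exact ⟨s, hs.symm⟩

private theorem GE8_mem {I : Finset ℕ} : Dec I ∈ DeK false I := by
  refine Submodule.subset_span ?_
  simp [bs]

/-- lower configurations -/
private theorem GE8_low {g : F4} (hg : g ≠ 0) {a : Bool} {I : Finset ℕ} {l l' : ℕ → ℕ} {i : ℕ}
    (hi : i ∈ I) (h1 : ∀ a', (a = true → a' = true) →
      AK (DeK false I) (DeC g a' false I l') (DeP g a' false I l')) (j : ℕ) :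
    AK (DeK false I) (MSC I l' (fun i => e i 0) (fun _ => g • e 0 0)
      (endC l (fun i => e i 0) (fun _ => g • e 0 0)
        ({x | ∃ i ∈ I, x = e i 0} ∪ bs a {e 0 0} ∪ bs false {Dec I}) i j))
      (MSP I l' (fun i => e i 0) (fun _ => g • e 0 0)
      (endC l (fun i => e i 0) (fun _ => g • e 0 0)
        ({x | ∃ i ∈ I, x = e i 0} ∪ bs a {e 0 0} ∪ bs false {Dec I}) i j) {e 0 0}) := by
  have hK0 : ∀ x : VV, x + (1 : F4) • x ∈ DeK false I := by
    intro x
    rw [one_smul, vadd_self]
    exact Submodule.zero_mem _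
  have hK1 : ∀ x : VV, ∃ s : F4, s ≠ 0 ∧ x + s • (g • x) ∈ DeK false I := by
    intro x
    refine ⟨g⁻¹, inv_ne_zero hg, ?_⟩
    rw [smul_smul, inv_mul_cancel₀ hg, one_smul, vadd_self]
    exact Submodule.zero_mem _
  have hK2 : ∀ x : VV, ∃ s : F4, s ≠ 0 ∧ g • x + s • x ∈ DeK false I := by
    intro x
    refine ⟨g, hg, ?_⟩
    rw [vadd_self]
    exact Submodule.zero_mem _
  by_cases hj : j + 1 = l i
  · -- a' = true
    have hA : ∀ c ∈ DeC g true false I l', ∃ c' ∈ MSC I l' (fun i => e i 0) (fun _ => g • e 0 0)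
      (endC l (fun i => e i 0) (fun _ => g • e 0 0)
        ({x | ∃ i ∈ I, x = e i 0} ∪ bs a {e 0 0} ∪ bs false {Dec I}) i j), ∃ s : F4, s ≠ 0 ∧
        c + s • c' ∈ DeK false I := by
      rintro c ((((hc | hc) | hc) | hc) | hc)
      · exact ⟨c, Or.inl (Or.inl (Or.inl (Or.inl (Or.inl (Or.inl hc))))), 1, one_ne_zero, hK0 c⟩
      · have h2 : c = e 0 0 := hc.2
        subst h2
        obtain ⟨s, hs, hs'⟩ := hK1 (e 0 0)
        exact ⟨g • e 0 0, Or.inl (Or.inl (Or.inr ⟨hj, rfl⟩)), s, hs, hs'⟩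
      · exact absurd hc.1 (by decide)
      · exact ⟨c, Or.inl (Or.inr hc), 1, one_ne_zero, hK0 c⟩
      · exact ⟨c, Or.inr hc, 1, one_ne_zero, hK0 c⟩
    have hB : ∀ c ∈ MSC I l' (fun i => e i 0) (fun _ => g • e 0 0)
      (endC l (fun i => e i 0) (fun _ => g • e 0 0)
        ({x | ∃ i ∈ I, x = e i 0} ∪ bs a {e 0 0} ∪ bs false {Dec I}) i j),
        ∃ c' ∈ DeC g true false I l', ∃ s : F4, s ≠ 0 ∧ c + s • c' ∈ DeK false I := by
      rintro c ((((((hc | hc) | hc) | hc) | hc) | hc) | hc)
      · exact ⟨c, Or.inl (Or.inl (Or.inl (Or.inl hc))), 1, one_ne_zero, hK0 c⟩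
      · exact ⟨c, Or.inl (Or.inl (Or.inl (Or.inr ⟨rfl, hc.2⟩))), 1, one_ne_zero, hK0 c⟩
      · exact absurd hc.1 (by decide)
      · have h2 : c = e i 0 := hc.2
        exact ⟨c, Or.inl (Or.inl (Or.inl (Or.inl ⟨i, hi, h2⟩))), 1, one_ne_zero, hK0 c⟩
      · have h2 : c = g • e 0 0 := hc.2
        subst h2
        obtain ⟨s, hs, hs'⟩ := hK2 (e 0 0)
        exact ⟨e 0 0, Or.inl (Or.inl (Or.inl (Or.inr ⟨rfl, rfl⟩))), s, hs, hs'⟩
      · exact ⟨c, Or.inl (Or.inr hc), 1, one_ne_zero, hK0 c⟩
      · exact ⟨c, Or.inr hc, 1, one_ne_zero, hK0 c⟩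
    refine AK.congr ?_ ?_ (h1 true (fun _ => rfl))
    · apply Set.Subset.antisymm
      · apply GE8_LnK
        intro c hc
        obtain ⟨c', hc', s, -, hs⟩ := hA c hc
        exact ⟨c', hc', s, hs⟩
      · apply GE8_LnK
        intro c hc
        obtain ⟨c', hc', s, -, hs⟩ := hB c hc
        exact ⟨c', hc', s, hs⟩
    · rintro p ((hp | hp) | hp)
      · obtain ⟨c', hc', s, hs0, hs⟩ := hA p hp
        exact ⟨c', Or.inl (Or.inl hc'), s, hs0, hs⟩
      · rcases hp with hp | hp
        · exact ⟨p, Or.inl (Or.inr hp), 1, one_ne_zero, hK0 p⟩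
        · exact ⟨p, Or.inr hp, 1, one_ne_zero, hK0 p⟩
      · exact absurd hp.1 (by decide)
  · -- a' = a
    have hE : endC l (fun i => e i 0) (fun _ => g • e 0 0)
        ({x | ∃ i ∈ I, x = e i 0} ∪ bs a {e 0 0} ∪ bs false {Dec I}) i j =
        ({x | ∃ i ∈ I, x = e i 0} ∪ bs a {e 0 0} ∪ bs false {Dec I}) := by
      apply Set.Subset.antisymm
      · rintro c ((hc | hc) | hc)
        · exact hc
        · exact Or.inl (Or.inl ⟨i, hi, hc.2⟩)
        · exact absurd hc.1 hj
      · intro c hc; exact Or.inl (Or.inl hc)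
    rw [hE]
    have h2 := h1 a (fun h => h)
    have hP : DeP g a false I l' = MSP I l' (fun i => e i 0) (fun _ => g • e 0 0)
      ({x | ∃ i ∈ I, x = e i 0} ∪ bs a {e 0 0} ∪ bs false {Dec I}) {e 0 0} := by
      apply Set.Subset.antisymm
      · rintro p ((hp | hp) | hp)
        · exact Or.inl (Or.inl hp)
        · rcases hp with hp | hp
          · exact Or.inl (Or.inr hp)
          · exact Or.inr hp
        · exact absurd hp.1 (by decide)
      · rintro p ((hp | hp) | hp)
        · exact Or.inl (Or.inl hp)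
        · exact Or.inl (Or.inr (Or.inl hp))
        · exact Or.inl (Or.inr (Or.inr hp))
    rw [hP] at h2
    exact h2

/-- GE8. GD5 for `De` with `c` contracted, at least three legs, two legs `i ≠ j` with at least two rims.
`A i = e i 0`, `B i = g • e 0 0`, `C0 = {e i 0 : i ∈ I} ∪ [t]`, `A0 = {e 0 0}`, `K = ⟨c⟩`.
`hZ`: the third leg. `hI`: `s₁ z_i + s₂ g t + s₃ z_j + s₄ g t = 0`. `hI'`: `B i = g • e 0 0`, `e 0 0 ∈ A0`.
`ψ` = (coordinate `(i, 0)`) + (coordinate `(j, 0)`), `ψ c = 0`. `hsep`: `x = x' = e 0 0`.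
Lower configurations: `endC` adds `g • e 0 0` (the tip) for the last rim. -/
theorem GE8 {g : F4} {a : Bool} {I : Finset ℕ} {l : ℕ → ℕ} (hOk : DeOk g I l) (h3 : 3 ≤ I.card)
    {i j : ℕ} (hi : i ∈ I) (hj : j ∈ I) (hij : i ≠ j) (hli : 2 ≤ l i) (hlj : 2 ≤ l j)
    (h1 : ∀ a', (a = true → a' = true) →
      AK (DeK false I) (DeC g a' false I (dec l i)) (DeP g a' false I (dec l i)))
    (h2 : ∀ a', (a = true → a' = true) →
      AK (DeK false I) (DeC g a' false I (dec l j)) (DeP g a' false I (dec l j))) :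
    AK (DeK false I) (DeC g a false I l) (DeP g a false I l) := by
  have hg : g ≠ 0 := by
    rcases hOk.g_ne with h | h <;> rw [h] <;> decide
  have h0 := hOk.zero
  have hi0 : i ≠ 0 := fun h => h0 (h ▸ hi)
  have hj0 : j ≠ 0 := fun h => h0 (h ▸ hj)
  obtain ⟨k, hk, hki, hkj⟩ : ∃ k ∈ I, k ≠ i ∧ k ≠ j := by
    by_contra hcon
    push Not at hcon
    have : I ⊆ {i, j} := by
      intro k hk
      by_cases h : k = i
      · simp [h]
      · simp [hcon k hk h]
    have := Finset.card_le_card this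
    have h4 := Finset.card_le_two (a := i) (b := j)
    omega
  have hk0 : k ≠ 0 := fun h => h0 (h ▸ hk)
  have heB : ∀ k, e k 0 ∈ Base I := by
    intro k i hi n hn
    rw [GE8_e, if_neg (by rintro ⟨-, rfl⟩; omega)]
  have hDB : Dec I ∈ Base I := by
    intro i hi n hn
    exact GE8_Dec2 i hn
  have hKB : DeK false I ≤ Base I := by
    intro x hx
    obtain ⟨s, rfl⟩ := GE8_memK hx
    exact (Base I).smul_mem s hDB
  have key := GD5 (K := DeK false I) (I := I) (m := l) (A := fun i => e i 0)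
    (B := fun _ => g • e 0 0)
    (C0 := {x | ∃ i ∈ I, x = e i 0} ∪ bs a {e 0 0} ∪ bs false {Dec I}) (A0 := {e 0 0})
    (a := i) (b := j) (ψ := Finsupp.lapply (i, 0) + Finsupp.lapply (j, 0))
    { base :=
        { hK := hKB
          hA := fun i _ => heB i
          hB := fun _ _ => (Base I).smul_mem g (heB 0)
          hC0 := by
            rintro x ((⟨k, -, rfl⟩ | ⟨-, rfl⟩) | ⟨h, -⟩)
            · exact heB k
            · exact heB 0
            · exact absurd h (by decide)
          hA0 := by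
            rintro x rfl
            exact heB 0
          hsp := by
            rintro x rfl
            have : e 0 0 = (∑ i ∈ I, e i 0) + Dec I := by
              unfold Dec
              have h5 : (∑ i ∈ I, e i 0) + (e 0 0 + ∑ i ∈ I, e i 0) =
                e 0 0 + ((∑ i ∈ I, e i 0) + ∑ i ∈ I, e i 0) := by abel
              rw [h5, vadd_self, add_zero]
            rw [this]
            refine Submodule.add_mem _ (Submodule.mem_sup_left ?_) (Submodule.mem_sup_right GE8_mem)
            refine Submodule.sum_mem _ fun k hk => Submodule.subset_span ?_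
            exact Or.inl (Or.inl (Or.inl (Or.inl ⟨k, hk, rfl⟩))) }
      ha := hi
      hb := hj
      ne := hij
      ma := hli
      mb := hlj
      hZ := by
        intro x hx hx'
        obtain ⟨s, rfl⟩ := GE8_memK hx
        have h5 : ∀ y ∈ span F4 ({e i 0, g • e 0 0, e j 0, g • e 0 0} : Set VV),
            y (k, 0) = 0 := by
          intro y hy
          have : span F4 ({e i 0, g • e 0 0, e j 0, g • e 0 0} : Set VV) ≤
              LinearMap.ker (Finsupp.lapply (k, 0) : VV →ₗ[F4] F4) := by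
            refine Submodule.span_le.2 ?_
            rintro z (rfl | rfl | rfl | rfl)
            · simp [GE8_e, hki.symm]
            · simp [GE8_e, hk0.symm]
            · simp [GE8_e, hkj.symm]
            · simp [GE8_e, hk0.symm]
          exact this hy
        have h6 := h5 _ hx'
        rw [Finsupp.smul_apply, GE8_Dec1 h0 hk] at h6
        have : s = 0 := by simpa using h6
        rw [this, zero_smul]
      hI := by
        intro s₁ s₂ s₃ s₄ h
        have e1 := DFunLike.congr_fun h (i, 0)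
        have e2 := DFunLike.congr_fun h (j, 0)
        have e3 := DFunLike.congr_fun h (0, 0)
        simp [GE8_e, hi0, hj0, hi0.symm, hj0.symm, hij, hij.symm] at e1 e2 e3
        refine ⟨e1, e2, ?_⟩
        have : s₂ * g = s₄ * g := vadd_eq_zero.1 e3
        show s₂ • g • e 0 0 = s₄ • g • e 0 0
        rw [smul_smul, smul_smul, this]
      hBa := by
        intro h
        have e3 := DFunLike.congr_fun h (0, 0)
        simp [GE8_e] at e3
        exact hg e3
      hBb := by
        intro h
        have e3 := DFunLike.congr_fun h (0, 0)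
        simp [GE8_e] at e3
        exact hg e3
      hI' := by
        intro _
        exact ⟨e 0 0, Or.inr rfl, g, hg, rfl⟩
      ψK := by
        intro x hx
        obtain ⟨s, rfl⟩ := GE8_memK hx
        have : Dec I (i, 0) + Dec I (j, 0) = 0 := by
          rw [GE8_Dec1 h0 hi, GE8_Dec1 h0 hj]; decide
        rw [map_smul]
        show s • (Dec I (i, 0) + Dec I (j, 0)) = 0
        rw [this, smul_zero]
      ψa := by
        show e i 0 (i, 0) + e i 0 (j, 0) ≠ 0
        simp [GE8_e, hij]
      ψb := by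
        show e j 0 (i, 0) + e j 0 (j, 0) ≠ 0
        simp [GE8_e, hij.symm]
      ψB := by
        intro _ _
        show (g • e 0 0) (i, 0) + (g • e 0 0) (j, 0) = 0
        simp [GE8_e, hi0.symm, hj0.symm]
      ψA := by
        intro k' _ h5 h6
        show e k' 0 (i, 0) + e k' 0 (j, 0) = 0
        simp [GE8_e, h5, h6]
      ψe := by
        intro k' _ n hn
        show e k' n (i, 0) + e k' n (j, 0) = 0
        have : n ≠ 0 := by omega
        simp [GE8_e, this]
      ψC := by
        rintro x ((⟨k', -, rfl⟩ | ⟨-, rfl⟩) | ⟨h, -⟩) hx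
        · by_cases h5 : k' = i
          · left; exact ⟨1, by rw [h5]; simp⟩
          by_cases h6 : k' = j
          · right; exact ⟨1, by rw [h6]; simp⟩
          exfalso
          apply hx
          show e k' 0 (i, 0) + e k' 0 (j, 0) = 0
          simp [GE8_e, h5, h6]
        · exfalso
          apply hx
          show e 0 0 (i, 0) + e 0 0 (j, 0) = 0
          simp [GE8_e, hi0.symm, hj0.symm]
        · exact absurd h (by decide) }
    (by
      rintro x rfl x' rfl u - -
      exact Submodule.mem_sup_left (Submodule.subset_span (Or.inl rfl)))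
    (fun j' _ => GE8_low hg hi h1 j') (fun j' _ => GE8_low hg hj h2 j')
  have hP : DeP g a false I l = MSP I l (fun i => e i 0) (fun _ => g • e 0 0)
      ({x | ∃ i ∈ I, x = e i 0} ∪ bs a {e 0 0} ∪ bs false {Dec I}) {e 0 0} := by
    apply Set.Subset.antisymm
    · rintro p ((hp | hp) | hp)
      · exact Or.inl (Or.inl hp)
      · rcases hp with hp | hp
        · exact Or.inl (Or.inr hp)
        · exact Or.inr hp
      · exact absurd hp.1 (by decide)
    · rintro p ((hp | hp) | hp)
      · exact Or.inl (Or.inl hp)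
      · exact Or.inl (Or.inr (Or.inl hp))
      · exact Or.inl (Or.inr (Or.inr hp))
  rw [hP]
  exact key

end QG
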