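import Pool.Agent.Lib.QG.GDefs

/-! MP_2e6874_co, part (A), row GF1. -/

set_option autoImplicit false

namespace QG
open Set Matroid Submodule

private theorem GF1_rim {r n : ℕ} (hn : n < r) :
    msu (fun _ => r) (fun _ => e 0 0) (fun _ => F4.w • e 0 0) 0 n +
      msu (fun _ => r) (fun _ => e 0 0) (fun _ => F4.w • e 0 0) 0 (n + 1) = Whr r n := by
  have h1 : msu (fun _ => r) (fun _ => e 0 0) (fun _ => F4.w • e 0 0) 0 n = e 0 n := by
    rw [msu]
    split_ifs with h2 h3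
    · rw [h2]
    · omega
    · rfl
  have h2 : msu (fun _ => r) (fun _ => e 0 0) (fun _ => F4.w • e 0 0) 0 (n + 1) =
      if n + 1 = r then F4.w • e 0 0 else e 0 (n + 1) := by
    rw [msu, if_neg (Nat.succ_ne_zero n)]
  rw [h1, h2, Whr]

/-- GF1. points of the whirl: `WhC r = {e 0 n : n < r} ∪ {Whr r n : n < r}` (`r ≥ 2`), all in the span of
`e 0 n`, `n < r`. -/
theorem GF1 {r : ℕ} (hr : 2 ≤ r) (x : VV) :
    x ∈ WhC r ↔ (∃ n < r, x = e 0 n) ∨ (∃ n < r, x = Whr r n) := by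
  constructor
  · rintro ((hx | ⟨i, hi, n, hn, hnr, rfl⟩) | ⟨i, hi, n, hn, rfl⟩)
    · exact Or.inl ⟨0, by omega, hx⟩
    · rw [Finset.mem_singleton] at hi
      subst hi
      exact Or.inl ⟨n, hnr, rfl⟩
    · rw [Finset.mem_singleton] at hi
      subst hi
      exact Or.inr ⟨n, hn, GF1_rim hn⟩
  · rintro (⟨n, hn, rfl⟩ | ⟨n, hn, rfl⟩)
    · rcases Nat.eq_zero_or_pos n with rfl | hn0
      · exact Or.inl (Or.inl rfl)
      · exact Or.inl (Or.inr ⟨0, Finset.mem_singleton_self 0, n, hn0, hn, rfl⟩)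
    · exact Or.inr ⟨0, Finset.mem_singleton_self 0, n, hn, (GF1_rim hn).symm⟩

end QG
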