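import Pool.Agent.Lib.QG.GB2
import Pool.Agent.Lib.QG.GF1

/-! MP_2e6874_co, part (A), row GF2. -/

set_option autoImplicit false

namespace QG
open Set Matroid Submodule

private theorem GF2_LnK_sub {K : Submodule F4 VV} {C C' : Set VV}
    (h : ∀ c ∈ C, c ∈ K ∨ ∃ c' ∈ C', ∃ t : F4, c + t • c' ∈ K) : LnK K C ⊆ LnK K C' := by
  rintro y ⟨hy, c, hc, s, hs⟩
  rcases h c hc with hk | ⟨c', hc', t, ht⟩
  · exfalso
    apply hy
    have := K.sub_mem hs (K.smul_mem s hk)
    rwa [add_sub_cancel_right] at this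
  · refine ⟨hy, c', hc', s * t, ?_⟩
    have h1 := K.sub_mem hs (K.smul_mem s ht)
    have h2 : y + s • c - s • (c + t • c') = y + (s * t) • c' := by
      rw [vsub, smul_add, smul_smul]
      calc y + s • c + (s • c + (s * t) • c') = y + (s • c + s • c) + (s * t) • c' := by abel
        _ = y + (s * t) • c' := by rw [vadd_self, add_zero]
    rwa [h2] at h1

/-- the map `Φ` -/
private noncomputable def GF2_Phi (j : ℕ) : VV →ₗ[F4] VV :=
  Finsupp.linearCombination F4 (fun k : ℕ × ℕ =>
    e k.1 (if k.1 = 0 then (if k.2 ≤ j then k.2 else k.2 - 1) else k.2))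

/-- the map `Θ` -/
private noncomputable def GF2_Theta (j : ℕ) : VV →ₗ[F4] VV :=
  Finsupp.linearCombination F4 (fun k : ℕ × ℕ =>
    e k.1 (if k.1 = 0 then (if k.2 ≤ j then k.2 else k.2 + 1) else k.2))

private theorem GF2_Phi_e0 (j k n : ℕ) :
    GF2_Phi j (e k n) = e k (if k = 0 then (if n ≤ j then n else n - 1) else n) := by
  unfold GF2_Phi
  have : e k n = Finsupp.single (k, n) 1 := rfl
  rw [this, Finsupp.linearCombination_single, one_smul]

private theorem GF2_Phi_e (j n : ℕ) : GF2_Phi j (e 0 n) = e 0 (if n ≤ j then n else n - 1) := by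
  rw [GF2_Phi_e0, if_pos rfl]

private theorem GF2_Theta_e0 (j k n : ℕ) :
    GF2_Theta j (e k n) = e k (if k = 0 then (if n ≤ j then n else n + 1) else n) := by
  unfold GF2_Theta
  have : e k n = Finsupp.single (k, n) 1 := rfl
  rw [this, Finsupp.linearCombination_single, one_smul]

private theorem GF2_Phi_Whr {r j : ℕ} (hj : j + 1 < r) {n : ℕ} :
    GF2_Phi j (Whr r n) =
      if n < j then Whr (r - 1) n else if n = j then 0 else Whr (r - 1) (n - 1) := by
  unfold Whr
  split_ifs with h1 h2 h3 h4 h5 h6 h7 h8 h9 <;> try omega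
  · rw [map_add, map_smul, GF2_Phi_e, GF2_Phi_e, if_neg (by omega), if_pos (by omega)]
  · rw [map_add, GF2_Phi_e, GF2_Phi_e, if_pos (by omega), if_pos (by omega)]
  · rw [map_add, GF2_Phi_e, GF2_Phi_e, if_pos (by omega), if_neg (by omega)]
    have : n + 1 - 1 = n := by omega
    rw [this, vadd_self]
  · rw [map_add, GF2_Phi_e, GF2_Phi_e, if_neg (by omega), if_neg (by omega)]
    have : n + 1 - 1 = n - 1 + 1 := by omega
    rw [this]

/-- lift of a vertex -/
private theorem GF2_liftv (j n : ℕ) : GF2_Phi j (e 0 (if n ≤ j then n else n + 1)) = e 0 n := by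
  rw [GF2_Phi_e]
  congr 1
  split_ifs <;> omega

private theorem GF2_liftr {r j : ℕ} (hj : j + 1 < r) {n : ℕ} :
    GF2_Phi j (Whr r (if n < j then n else n + 1)) = Whr (r - 1) n := by
  rw [GF2_Phi_Whr hj]
  split_ifs <;> first | rfl | omega

/-- GF2. contraction of rim `j`, `j + 1 < r` (`CK.of_contract` directly, or GC1 for the points):
`Φ (e 0 n) = e 0 n` for `n ≤ j`, `Φ (e 0 n) = e 0 (n-1)` for `n > j`; `Θ (e 0 n) = e 0 n` for `n ≤ j`,
`e 0 (n+1)` for `n > j`. `Φ (Whr r n) = Whr (r-1) n` (`n < j`), `0` (`n = j`), `Whr (r-1) (n-1)` (`n > j`).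
Lifts: `e 0 i + ω e 0 k` (`i < k < r-1`) comes from `e 0 i' + ω e 0 k'`, `i' = i` or `i+1`, in the same way
for the rims. -/
theorem GF2 {r j : ℕ} (hr : 4 ≤ r) (hj : j + 1 < r) (h : AK ⊥ (WhC (r - 1)) (WhP (r - 1))) :
    CK ⊥ (WhC r) (Whr r j) (WhP r) := by
  have hWj : Whr r j = e 0 j + e 0 (j + 1) := by
    unfold Whr
    rw [if_neg (by omega)]
  have lift : ∀ c' ∈ WhC (r - 1), ∃ c ∈ WhC r, GF2_Phi j c = c' := by
    intro c' hc'
    rw [GF1 (by omega)] at hc'
    rcases hc' with ⟨n, hn, rfl⟩ | ⟨n, hn, rfl⟩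
    · refine ⟨e 0 (if n ≤ j then n else n + 1), ?_, GF2_liftv j n⟩
      rw [GF1 (by omega)]
      exact Or.inl ⟨_, by split_ifs <;> omega, rfl⟩
    · refine ⟨Whr r (if n < j then n else n + 1), ?_, GF2_liftr hj⟩
      rw [GF1 (by omega)]
      exact Or.inr ⟨_, by split_ifs <;> omega, rfl⟩
  refine CK.of_contract (K' := ⊥) (C' := WhC (r - 1)) (P' := WhP (r - 1))
    (GF2_Phi j) (GF2_Theta j) ?_ ?_ ?_ ?_ ?_ ?_ ?_ h
  · rw [Submodule.mem_bot, hWj]
    intro h1
    have := congrArg (fun x : VV => x (0, j)) h1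
    simp [e] at this
  · rw [Submodule.mem_bot, GF2_Phi_Whr hj, if_neg (by omega), if_pos rfl]
  · intro k hk
    rw [Submodule.mem_bot] at hk ⊢
    rw [hk, map_zero]
  · intro k hk
    rw [Submodule.mem_bot] at hk
    rw [hk, map_zero]
    exact zero_mem _
  · intro z _
    refine (le_sup_right : _ ≤ (⊥ : Submodule F4 VV) ⊔ span F4 {Whr r j}) ?_
    clear * - hWj
    induction z using Finsupp.induction_linear with
    | zero => rw [map_zero, map_zero, add_zero]; exact zero_mem _
    | add x y hx hy =>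
      rw [map_add, map_add]
      have := add_mem hx hy
      have h2 : x + GF2_Theta j (GF2_Phi j x) + (y + GF2_Theta j (GF2_Phi j y)) =
        x + y + (GF2_Theta j (GF2_Phi j x) + GF2_Theta j (GF2_Phi j y)) := by abel
      rwa [h2] at this
    | single k s =>
      obtain ⟨k, n⟩ := k
      have h1 : Finsupp.single (k, n) s = s • e k n := by
        unfold e
        rw [Finsupp.smul_single, smul_eq_mul, mul_one]
      rw [h1, map_smul, map_smul, ← smul_add]
      refine smul_mem _ s ?_
      rw [GF2_Phi_e0, GF2_Theta_e0]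
      by_cases hk : k = 0
      · subst hk
        rw [if_pos rfl, if_pos rfl]
        by_cases h3 : n ≤ j
        · rw [if_pos h3, if_pos h3, vadd_self]
          exact zero_mem _
        · rw [if_neg h3]
          by_cases h4 : n - 1 ≤ j
          · rw [if_pos h4]
            have h5 : n = j + 1 := by omega
            subst h5
            rw [Nat.add_sub_cancel, add_comm, ← hWj]
            exact mem_span_singleton_self _
          · rw [if_neg h4]
            have h5 : n - 1 + 1 = n := by omega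
            rw [h5, vadd_self]
            exact zero_mem _
      · rw [if_neg hk, if_neg hk, vadd_self]
        exact zero_mem _
  · apply Subset.antisymm
    · apply GF2_LnK_sub
      rintro _ ⟨c, hc, rfl⟩
      rw [GF1 (by omega)] at hc
      rcases hc with ⟨n, hn, rfl⟩ | ⟨n, hn, rfl⟩
      · refine Or.inr ⟨GF2_Phi j (e 0 n), ?_, 1, ?_⟩
        · rw [GF1 (by omega), GF2_Phi_e]
          exact Or.inl ⟨_, by split_ifs <;> omega, rfl⟩
        · rw [one_smul, vadd_self]
          exact zero_mem _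
      · by_cases hnj : n = j
        · left
          rw [GF2_Phi_Whr hj, if_neg (by omega), if_pos hnj]
          exact zero_mem _
        · refine Or.inr ⟨GF2_Phi j (Whr r n), ?_, 1, ?_⟩
          · rw [GF1 (by omega), GF2_Phi_Whr hj, if_neg hnj]
            right
            by_cases h1 : n < j
            · exact ⟨n, by omega, by rw [if_pos h1]⟩
            · exact ⟨n - 1, by omega, by rw [if_neg h1]⟩
          · rw [one_smul, vadd_self]
            exact zero_mem _
    · apply GF2_LnK_sub
      intro c' hc'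
      obtain ⟨c, hc, hcc⟩ := lift c' hc'
      refine Or.inr ⟨_, ⟨c, hc, rfl⟩, 1, ?_⟩
      rw [hcc, one_smul, vadd_self]
      exact zero_mem _
  · have key : ∀ p' ∈ WhP (r - 1), ∃ p ∈ WhP r, GF2_Phi j p = p' := by
      intro p' hp'
      rcases hp' with ((hp' | hp') | hp') | hp'
      · obtain ⟨c, hc, hcc⟩ := lift p' hp'
        exact ⟨c, Or.inl (Or.inl (Or.inl hc)), hcc⟩
      · obtain ⟨i, k, hik, hk, rfl⟩ := hp'
        refine ⟨e 0 (if i ≤ j then i else i + 1) + F4.w • e 0 (if k ≤ j then k else k + 1),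
          Or.inl (Or.inl (Or.inr ⟨_, _, ?_, ?_, rfl⟩)), ?_⟩
        · split_ifs <;> omega
        · split_ifs <;> omega
        · rw [map_add, map_smul, GF2_liftv, GF2_liftv]
      · obtain ⟨i, k, hik, hk, rfl⟩ := hp'
        refine ⟨Whr r (if i < j then i else i + 1) + F4.w • Whr r (if k < j then k else k + 1),
          Or.inl (Or.inr ⟨_, _, ?_, ?_, rfl⟩), ?_⟩
        · split_ifs <;> omega
        · split_ifs <;> omega
        · rw [map_add, map_smul, GF2_liftr hj, GF2_liftr hj]
      · rw [mem_singleton_iff] at hp'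
        subst hp'
        exact ⟨0, Or.inr rfl, map_zero _⟩
    intro p' hp'
    obtain ⟨p, hp, hpp⟩ := key p' hp'
    refine ⟨p, hp, 1, by decide, ?_⟩
    rw [hpp, one_smul, vadd_self]
    exact zero_mem _

end QG
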