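import Pool.Agent.Lib.QG.GF1

/-! MP_2e6874_co, part (A), row GF3. -/

set_option autoImplicit false

namespace QG
open Set Matroid Submodule

private theorem GF3_e (n m : ℕ) : (e 0 m : VV) (0, n) = if m = n then 1 else 0 := by
  unfold e
  rw [Finsupp.single_apply]
  simp

private theorem GF3_Whr {r : ℕ} (hr : 5 ≤ r) {n m : ℕ} (hn : 1 ≤ n) (hm : m < r)
    (h : m + 1 ≠ n) (h' : m ≠ n) : (Whr r m) (0, n) = 0 := by
  unfold Whr
  split_ifs with h1
  · simp only [Finsupp.add_apply, Finsupp.smul_apply, GF3_e]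
    rw [if_neg h', if_neg (by omega)]
    simp
  · simp only [Finsupp.add_apply, GF3_e]
    rw [if_neg h', if_neg h]
    simp

/-- GF3. `CocK`: if `φ` is nonzero on `WhR r` then among `e 0 1`, `e 0 2` there is one, `e 0 n`, with
`φ ≠ 0`. `ψ = ` coordinate `(0, n)`; the points with this coordinate nonzero are `e 0 n`, `Whr r (n-1)`,
`Whr r n`; `c₁ = Whr r 3` (`n ≤ 2`, `5 ≤ r`), `c₂ = e 0 n`. -/
theorem GF3 {r : ℕ} (hr : 5 ≤ r) : CocK ⊥ (WhC r) (WhR r) := by
  intro φ _ hφ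
  have hφ' : ∀ n, n + 1 < r → φ (Whr r n) ≠ 0 := fun n hn => hφ _ ⟨n, hn, rfl⟩
  obtain ⟨n, h1, h2, h3⟩ : ∃ n, 1 ≤ n ∧ n ≤ 2 ∧ φ (e 0 n) ≠ 0 := by
    by_cases h : φ (e 0 1) = 0
    · refine ⟨2, by omega, le_rfl, fun h' => hφ' 1 (by omega) ?_⟩
      unfold Whr
      rw [if_neg (by omega), map_add, h, h', add_zero]
    · exact ⟨1, le_rfl, by omega, h⟩
  refine ⟨Finsupp.lapply (0, n), ?_, ?_, Whr r 3, ?_, e 0 n, ?_, ?_⟩
  · intro k hk
    rw [Submodule.mem_bot] at hk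
    rw [hk, map_zero]
  · intro c hc hc0
    rw [Finsupp.lapply_apply]
    rcases (GF1 (by omega) c).1 hc with ⟨m, hm, rfl⟩ | ⟨m, hm, rfl⟩
    · rw [GF3_e]
      split_ifs with h
      · rw [h] at hc0; exact absurd hc0 h3
      · rfl
    · by_cases ha : m + 1 = n
      · exact absurd hc0 (hφ' m (by omega))
      · by_cases hb : m = n
        · exact absurd hc0 (hφ' m (by omega))
        · exact GF3_Whr hr h1 hm ha hb
  · exact (GF1 (by omega) _).2 (Or.inr ⟨3, by omega, rfl⟩)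
  · exact (GF1 (by omega) _).2 (Or.inl ⟨n, by omega, rfl⟩)
  · rw [Finsupp.lapply_apply, Finsupp.lapply_apply, GF3_e, if_pos rfl, mul_one,
      GF3_Whr hr h1 (by omega) (by omega) (by omega), mul_zero]
    exact hφ' 3 (by omega)

end QG
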