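import Pool.Agent.Lib.QG.GF1

/-! MP_2e6874_co, part (A), row GF4. -/

set_option autoImplicit false

namespace QG
open Set Matroid Submodule

/-- GF4a. -/
theorem rho_e (r n i k : ℕ) :
    rho r n (e i k) = if i = 0 ∧ k < r then (if k ≤ n then F4.w else F4.v) else 0 := by
  simp [rho, e]

/-- GF4b. -/
theorem rho_rim {r n k : ℕ} (hr : 2 ≤ r) (hn : n < r) (hk : k < r) :
    rho r n (Whr r k) = if k = n then 1 else 0 := by
  have h1 : (F4.w : F4) + F4.w = 0 := by decide
  have h2 : (F4.v : F4) + F4.v = 0 := by decide
  have h3 : (F4.w : F4) + F4.v = 1 := by decide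
  have h4 : (F4.v : F4) + F4.w * F4.w = 0 := by decide
  have h5 : (F4.w : F4) + F4.w * F4.w = 1 := by decide
  rw [Whr, map_add, rho_e]
  by_cases hkr : k + 1 = r
  · rw [if_pos hkr, map_smul, rho_e, smul_eq_mul]
    have e1 : (0 : ℕ) = 0 ∧ k < r := ⟨rfl, hk⟩
    have e2 : (0 : ℕ) = 0 ∧ 0 < r := ⟨rfl, by omega⟩
    rw [if_pos e1, if_pos e2, if_pos (Nat.zero_le n)]
    by_cases hkn : k = n
    · rw [if_pos hkn, if_pos (by omega : k ≤ n), h5]
    · rw [if_neg hkn, if_neg (by omega : ¬ k ≤ n), h4]
  · rw [if_neg hkr, rho_e]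
    have e1 : (0 : ℕ) = 0 ∧ k < r := ⟨rfl, hk⟩
    have e2 : (0 : ℕ) = 0 ∧ k + 1 < r := ⟨rfl, by omega⟩
    rw [if_pos e1, if_pos e2]
    by_cases hkn : k = n
    · rw [if_pos hkn, if_pos (by omega : k ≤ n), if_neg (by omega : ¬ k + 1 ≤ n), h3]
    · rw [if_neg hkn]
      by_cases hlt : k < n
      · rw [if_pos (by omega : k ≤ n), if_pos (by omega : k + 1 ≤ n), h1]
      · rw [if_neg (by omega : ¬ k ≤ n), if_neg (by omega : ¬ k + 1 ≤ n), h2]

/-- GF4c. -/
theorem eq_of_rho {r : ℕ} (hr : 2 ≤ r) {x y : VV} (hx : x ∈ span F4 (WhC r))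
    (hy : y ∈ span F4 (WhC r)) (h : ∀ n < r, rho r n x = rho r n y) : x = y := by
  have key : ∀ z ∈ span F4 (WhC r), (∀ n < r, rho r n z = 0) → z = 0 := by
    intro z hz h0
    have c1 : ∀ p : ℕ × ℕ, ¬ (p.1 = 0 ∧ p.2 < r) → z p = 0 := by
      intro p hp
      refine span_induction (p := fun z _ => z p = 0) ?_ ?_ ?_ ?_ hz
      · intro u hu
        have he : ∀ n < r, e 0 n p = 0 := by
          intro n hn
          rw [e, Finsupp.single_apply, if_neg]
          rintro rfl
          exact hp ⟨rfl, hn⟩
        rw [GF1 hr] at hu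
        rcases hu with ⟨n, hn, rfl⟩ | ⟨n, hn, rfl⟩
        · exact he n hn
        · rw [Whr]
          split_ifs with h1
          · rw [Finsupp.add_apply, Finsupp.smul_apply, he n hn, he 0 (by omega), smul_zero,
              add_zero]
          · rw [Finsupp.add_apply, he n hn, he (n + 1) (by omega), add_zero]
      · rfl
      · intro a b _ _ ha hb
        rw [Finsupp.add_apply, ha, hb, add_zero]
      · intro t a _ ha
        rw [Finsupp.smul_apply, ha, smul_zero]
    have c2 : ∀ n, 1 ≤ n → n < r → z (0, n) = 0 := by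
      intro n hn hnr
      have hl : rho r n + rho r (n - 1) = (Finsupp.lapply (0, n) : VV →ₗ[F4] F4) := by
        refine Finsupp.lhom_ext' fun p => LinearMap.ext_ring ?_
        obtain ⟨i, k⟩ := p
        have e1 : (rho r n + rho r (n - 1)) (e i k) =
            (Finsupp.lapply (0, n) : VV →ₗ[F4] F4) (e i k) := by
          rw [LinearMap.add_apply, rho_e, rho_e, Finsupp.lapply_apply, e, Finsupp.single_apply]
          by_cases hi : i = 0 ∧ k < r
          · rw [if_pos hi, if_pos hi]
            obtain ⟨rfl, hk⟩ := hi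
            by_cases hkn : k = n
            · subst hkn
              rw [if_pos le_rfl, if_neg (by omega), if_pos rfl]
              decide
            · have hne : ¬ ((0, k) : ℕ × ℕ) = (0, n) := by
                intro hh; exact hkn (Prod.ext_iff.1 hh).2
              rw [if_neg hne]
              by_cases hlt : k ≤ n
              · rw [if_pos hlt, if_pos (by omega)]
                decide
              · rw [if_neg hlt, if_neg (by omega)]
                decide
          · rw [if_neg hi, if_neg hi, if_neg, add_zero]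
            rintro hh
            have := Prod.ext_iff.1 hh
            simp only at this
            exact hi ⟨this.1, by omega⟩
        exact e1
      have := congrArg (fun f : VV →ₗ[F4] F4 => f z) hl
      simp only [LinearMap.add_apply, Finsupp.lapply_apply] at this
      rw [← this, h0 n hnr, h0 (n - 1) (by omega), add_zero]
    have c3 : z = z (0, 0) • e 0 0 := by
      ext ⟨i, k⟩
      rw [Finsupp.smul_apply, e, Finsupp.single_apply]
      split_ifs with h1
      · rw [← h1, smul_eq_mul, mul_one]
      · rw [smul_zero]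
        by_cases hi : i = 0 ∧ k < r
        · obtain ⟨rfl, hk⟩ := hi
          exact c2 k (by
            rcases Nat.eq_zero_or_pos k with rfl | hk0
            · exact absurd rfl h1
            · exact hk0) hk
        · exact c1 _ hi
    have c4 := h0 0 (by omega)
    rw [c3, map_smul, rho_e, if_pos ⟨rfl, by omega⟩, if_pos le_rfl, smul_eq_mul] at c4
    have c5 : z (0, 0) = 0 := by
      revert c4
      generalize z (0, 0) = t
      revert t
      decide
    rw [c3, c5, zero_smul]
  have h1 := key (x - y) (sub_mem hx hy) (fun n hn => by rw [map_sub, h n hn, sub_self])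
  exact sub_eq_zero.1 h1

end QG
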