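import Pool.Agent.Lib.QG.GF4

/-! MP_2e6874_co, part (A), row GF5. -/

set_option autoImplicit false

namespace QG
open Set Matroid Submodule

/-- the number of the class of `n` -/
private def GF5_c (a b n : ℕ) : ℕ := n - (if a < n then 1 else 0) - (if b < n then 1 else 0)

private theorem GF5_c_mono {a b m n : ℕ} (hab : a ≠ b) (h : m ≤ n) :
    GF5_c a b m ≤ GF5_c a b n := by
  unfold GF5_c
  split_ifs <;> omega

private theorem GF5_c_succ {a b n : ℕ} (hab : a ≠ b) (ha : n ≠ a) (hb : n ≠ b) :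
    GF5_c a b (n + 1) = GF5_c a b n + 1 := by
  unfold GF5_c
  split_ifs <;> omega

private theorem GF5_c_a {a b : ℕ} (hab : a ≠ b) : GF5_c a b (a + 1) = GF5_c a b a := by
  unfold GF5_c
  split_ifs <;> omega

private theorem GF5_c_b {a b : ℕ} (hab : a ≠ b) : GF5_c a b (b + 1) = GF5_c a b b := by
  unfold GF5_c
  split_ifs <;> omega

private theorem GF5_c_zero (a b : ℕ) : GF5_c a b 0 = 0 := by
  unfold GF5_c
  simp

private theorem GF5_c_last {a b r : ℕ} (ha : a + 1 < r) (hb : b + 1 < r) :
    GF5_c a b (r - 1) = r - 3 := by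
  unfold GF5_c
  split_ifs <;> omega

/-- the sum of the coordinates of the class `n` -/
private noncomputable def GF5_chi (a b n : ℕ) : VV →ₗ[F4] F4 :=
  Finsupp.linearCombination F4 (fun k : ℕ × ℕ => if k.1 = 0 ∧ GF5_c a b k.2 = n then (1 : F4) else 0)

private theorem GF5_chi_e (a b n k : ℕ) :
    GF5_chi a b n (e 0 k) = if GF5_c a b k = n then 1 else 0 := by
  unfold GF5_chi e
  rw [Finsupp.linearCombination_single]
  simp

private theorem GF5_van (L : VV →ₗ[F4] F4) {X : Set VV} (h : ∀ x ∈ X, L x = 0) {p : VV}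
    (hp : p ∈ span F4 X) : L p = 0 := by
  have h1 : span F4 X ≤ LinearMap.ker L := span_le.2 fun x hx => h x hx
  exact h1 hp

private theorem GF5_rim {r a : ℕ} (ha : a + 1 < r) : Whr r a = e 0 a + e 0 (a + 1) := by
  unfold Whr
  rw [if_neg (by omega)]

private theorem GF5_same {r a b : ℕ} (hab : a ≠ b) (ha : a + 1 < r) (hb : b + 1 < r) (i d : ℕ) :
    GF5_c a b i = GF5_c a b (i + d) → e 0 i + e 0 (i + d) ∈ span F4 {Whr r a, Whr r b} := by
  induction d with
  | zero =>
    intro _
    rw [add_zero, vadd_self]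
    exact zero_mem _
  | succ d ih =>
    intro h
    have h1 := GF5_c_mono (m := i) (n := i + d) hab (by omega)
    have h2 := GF5_c_mono (m := i + d) (n := i + (d + 1)) hab (by omega)
    have h3 : GF5_c a b i = GF5_c a b (i + d) := by omega
    have h4 := ih h3
    have h5 : i + d = a ∨ i + d = b := by
      by_contra hne
      push Not at hne
      have h6 := GF5_c_succ hab hne.1 hne.2
      have h7 : i + d + 1 = i + (d + 1) := by ring
      rw [h7] at h6
      omega
    have h8 : e 0 (i + d) + e 0 (i + d + 1) ∈ span F4 {Whr r a, Whr r b} := by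
      rcases h5 with h5 | h5
      · rw [h5, ← GF5_rim ha]
        exact subset_span (by simp)
      · rw [h5, ← GF5_rim hb]
        exact subset_span (by simp)
    have h9 : e 0 i + e 0 (i + (d + 1)) = (e 0 i + e 0 (i + d)) + (e 0 (i + d) + e 0 (i + d + 1)) := by
      have h10 : e 0 i + e 0 (i + d) + (e 0 (i + d) + e 0 (i + d + 1)) =
          e 0 i + (e 0 (i + d) + e 0 (i + d)) + e 0 (i + d + 1) := by abel
      rw [h10, vadd_self, add_zero, add_assoc i d 1]
    rw [h9]
    exact add_mem h4 h8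

private theorem GF5_same' {r a b : ℕ} (hab : a ≠ b) (ha : a + 1 < r) (hb : b + 1 < r) {i j : ℕ}
    (h : GF5_c a b i = GF5_c a b j) : e 0 i + e 0 j ∈ span F4 {Whr r a, Whr r b} := by
  rcases le_total i j with hij | hij
  · obtain ⟨d, rfl⟩ := Nat.exists_eq_add_of_le hij
    exact GF5_same hab ha hb i d h
  · obtain ⟨d, rfl⟩ := Nat.exists_eq_add_of_le hij
    rw [add_comm]
    exact GF5_same hab ha hb j d h.symm

/-- the excluded case for the vectors `s_i + ω s_j` -/
private theorem GF5_lt {r a b : ℕ} (hr : 6 ≤ r) (hab : a ≠ b) (ha : a + 1 < r) (hb : b + 1 < r)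
    {i j : ℕ} (hij : i < j) (hj : j < r)
    (h : ∀ c ∈ insert 0 (WhC r), ∀ s : F4,
      (e 0 i + F4.w • e 0 j) + s • c ∉ span F4 {Whr r a, Whr r b}) :
    GF5_c a b i < GF5_c a b j := by
  refine lt_of_le_of_ne (GF5_c_mono hab hij.le) fun hne => ?_
  have h1 := GF5_same' hab ha hb hne
  refine h (e 0 i) (Set.mem_insert_of_mem _ ((GF1 (by omega) _).2 (Or.inl ⟨i, by omega, rfl⟩)))
    F4.v ?_
  have h2 : e 0 i + F4.w • e 0 j + F4.v • e 0 i = F4.w • (e 0 i + e 0 j) := by
    have h3 : (1 : F4) + F4.v = F4.w := by decide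
    have h4 : e 0 i + F4.w • e 0 j + F4.v • e 0 i =
        ((1 : F4) + F4.v) • e 0 i + F4.w • e 0 j := by
      rw [add_smul, one_smul]
      abel
    rw [h4, h3, smul_add]
  rw [h2]
  exact Submodule.smul_mem _ _ h1

/-- the excluded case for the vectors `r_i + ω r_j` -/
private theorem GF5_ne {r a b : ℕ} (hr : 6 ≤ r) {i j : ℕ} (hij : i < j) (hj : j < r)
    (h : ∀ c ∈ insert 0 (WhC r), ∀ s : F4,
      (Whr r i + F4.w • Whr r j) + s • c ∉ span F4 {Whr r a, Whr r b}) :
    (i ≠ a ∧ i ≠ b) ∧ j ≠ a ∧ j ≠ b := by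
  have hi' : Whr r i ∈ insert 0 (WhC r) :=
    Set.mem_insert_of_mem _ ((GF1 (by omega) _).2 (Or.inr ⟨i, by omega, rfl⟩))
  have hj' : Whr r j ∈ insert 0 (WhC r) :=
    Set.mem_insert_of_mem _ ((GF1 (by omega) _).2 (Or.inr ⟨j, hj, rfl⟩))
  have h1 : Whr r i ∉ span F4 {Whr r a, Whr r b} := by
    intro h1
    refine h _ hj' F4.w ?_
    rw [add_assoc, vadd_self, add_zero]
    exact h1
  have h2 : Whr r j ∉ span F4 {Whr r a, Whr r b} := by
    intro h2
    refine h _ hi' 1 ?_
    have h3 : Whr r i + F4.w • Whr r j + (1 : F4) • Whr r i = F4.w • Whr r j := by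
      rw [one_smul, add_right_comm, vadd_self, zero_add]
    rw [h3]
    exact Submodule.smul_mem _ _ h2
  refine ⟨⟨?_, ?_⟩, ?_, ?_⟩
  · rintro rfl
    exact h1 (subset_span (by simp))
  · rintro rfl
    exact h1 (subset_span (by simp))
  · rintro rfl
    exact h2 (subset_span (by simp))
  · rintro rfl
    exact h2 (subset_span (by simp))

/-- the vectors which are in the span of `r_a, r_b, s_i, s_j` -/
private theorem GF5_supp {r a b : ℕ} (hab : a ≠ b) (ha : a + 1 < r) (hb : b + 1 < r) {i j : ℕ}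
    {p : VV} (hp : p ∈ span F4 ({Whr r a, Whr r b} ∪ {e 0 i, e 0 j})) {n : ℕ}
    (hi : GF5_c a b i ≠ n) (hj : GF5_c a b j ≠ n) : GF5_chi a b n p = 0 := by
  refine GF5_van _ ?_ hp
  rintro x ((rfl | rfl) | (rfl | rfl))
  · rw [GF5_rim ha, map_add, GF5_chi_e, GF5_chi_e, GF5_c_a hab, F4.add_self]
  · rw [GF5_rim hb, map_add, GF5_chi_e, GF5_chi_e, GF5_c_b hab, F4.add_self]
  · rw [GF5_chi_e, if_neg hi]
  · rw [GF5_chi_e, if_neg hj]

/-- case (A2) -/
private theorem GF5_SR {r a b : ℕ} (hr : 6 ≤ r) (hab : a ≠ b) (ha : a + 1 < r) (hb : b + 1 < r)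
    {i j k m : ℕ} (hkm : k < m) (hm : m < r)
    (h2 : ∀ c ∈ insert 0 (WhC r), ∀ s : F4,
      (Whr r k + F4.w • Whr r m) + s • c ∉ span F4 {Whr r a, Whr r b})
    (hp : Whr r k + F4.w • Whr r m ∈ span F4 ({Whr r a, Whr r b} ∪ {e 0 i, e 0 j})) : False := by
  obtain ⟨⟨hka, hkb⟩, hma, hmb⟩ := GF5_ne hr hkm hm h2
  have hk : k + 1 < r := by omega
  have hck := GF5_c_succ hab hka hkb
  have hck1 := GF5_c_mono (m := k + 1) (n := m) hab (by omega)
  have key : ∀ n, GF5_chi a b n (Whr r k + F4.w • Whr r m) ≠ 0 →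
      GF5_c a b i = n ∨ GF5_c a b j = n := by
    intro n hn
    by_contra hne
    push Not at hne
    exact hn (GF5_supp hab ha hb hp hne.1 hne.2)
  by_cases hmr : m + 1 < r
  · have hcm := GF5_c_succ hab hma hmb
    have ev : ∀ n, GF5_chi a b n (Whr r k + F4.w • Whr r m) =
        (if GF5_c a b k = n then 1 else 0) + (if GF5_c a b k + 1 = n then 1 else 0) +
        F4.w * ((if GF5_c a b m = n then 1 else 0) + (if GF5_c a b m + 1 = n then 1 else 0)) := by
      intro n
      rw [GF5_rim hk, GF5_rim hmr, map_add, map_smul, map_add, map_add, GF5_chi_e, GF5_chi_e,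
        GF5_chi_e, GF5_chi_e, hck, hcm, smul_eq_mul]
    have e1 := key (GF5_c a b k) (by
      rw [ev, if_pos rfl, if_neg (by omega), if_neg (by omega), if_neg (by omega)]; decide)
    have e2 := key (GF5_c a b k + 1) (by
      rw [ev, if_neg (by omega), if_pos rfl]
      by_cases h : GF5_c a b m = GF5_c a b k + 1
      · rw [if_pos h, if_neg (by omega)]; decide
      · rw [if_neg h, if_neg (by omega)]; decide)
    have e3 := key (GF5_c a b m + 1) (by
      rw [ev, if_neg (by omega), if_neg (by omega), if_neg (by omega), if_pos rfl]; decide)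
    omega
  · have hmr' : m = r - 1 := by omega
    have hcm : GF5_c a b m = r - 3 := by rw [hmr']; exact GF5_c_last ha hb
    have ev : ∀ n, GF5_chi a b n (Whr r k + F4.w • Whr r m) =
        (if GF5_c a b k = n then 1 else 0) + (if GF5_c a b k + 1 = n then 1 else 0) +
        F4.w * ((if r - 3 = n then 1 else 0) + F4.w * (if 0 = n then 1 else 0)) := by
      intro n
      have h5 : Whr r m = e 0 m + F4.w • e 0 0 := by
        unfold Whr
        rw [if_pos (by omega)]
      rw [GF5_rim hk, h5, map_add, map_smul, map_add, map_add, map_smul, GF5_chi_e, GF5_chi_e,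
        GF5_chi_e, GF5_chi_e, hck, hcm, GF5_c_zero, smul_eq_mul, smul_eq_mul]
    have e1 := key (GF5_c a b k) (by
      rw [ev, if_pos rfl, if_neg (by omega), if_neg (by omega)]
      by_cases h : 0 = GF5_c a b k
      · rw [if_pos h]; decide
      · rw [if_neg h]; decide)
    have e2 := key (GF5_c a b k + 1) (by
      rw [ev, if_neg (by omega), if_pos rfl, if_neg (show ¬ (0 = GF5_c a b k + 1) by omega)]
      by_cases h : r - 3 = GF5_c a b k + 1
      · rw [if_pos h]; decide
      · rw [if_neg h]; decide)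
    have e3 := key 0 (by
      rw [ev, if_neg (show ¬ (GF5_c a b k + 1 = 0) by omega), if_neg (show ¬ (r - 3 = 0) by omega),
        if_pos rfl]
      by_cases h : GF5_c a b k = 0
      · rw [if_pos h]; decide
      · rw [if_neg h]; decide)
    have e4 := key (r - 3) (by
      rw [ev, if_neg (show ¬ (GF5_c a b k = r - 3) by omega), if_pos (show r - 3 = r - 3 from rfl),
        if_neg (show ¬ (0 = r - 3) by omega)]
      by_cases h : GF5_c a b k + 1 = r - 3
      · rw [if_pos h]; decide
      · rw [if_neg h]; decide)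
    omega

/-- GF5. `SepK`, `r ≥ 6`. Let `y = r_a`, `y' = r_b`, `a ≠ b`, both `< r - 1`. The vectors of `WhP` which are
not points or 0 are `s_i + ω s_j` and `r_i + ω r_j` (`i < j`). Work modulo `⟨r_a, r_b⟩`: the vertices
`s_a, s_{a+1}` become equal and `s_b, s_{b+1}` become equal. Write `[n]` for the class of `n < r`; the classes
are intervals, there are `r - 2 ≥ 4` of them, linearly ordered, and the classes are a basis modulo
`⟨r_a, r_b⟩` (formally: for a class `J` the functional `χ_J = Σ_{n ∈ J}` coordinate `(0,n)` vanishes on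
`r_a, r_b`; or use the linear map which sends `s_n` to `s_{[n]}`, compare GF2). The excluded cases: `p` is a
point or 0 modulo `⟨r_a, r_b⟩`. So if `p = s_i + ω s_j` then `[i] < [j]` (otherwise `p ≡ (1 + ω) s_i`); if
`p = r_i + ω r_j` then `i, j ∉ {a, b}`, so `[i] < [i+1]` and `[j] < [j+1]`.
(A1) `p = s_i + ω s_j`, `p' = s_k + ω s_m`: `D = {s_i, s_j}` gives `p' ∈ ⟨r_a, r_b, s_i, s_j⟩`, so
`{[k],[m]} ⊆ {[i],[j]}`, so `[k] = [i]`, `[m] = [j]`, `p' ≡ p`.
(A2) `p = s_i + ω s_j`, `p' = r_k + ω r_m` (`k < m`): again `p'` has at most two nonzero class coordinates.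
`m < r - 1`: `p' ≡ s_[k] + s_[k+1] + ω s_[m] + ω s_[m+1]`, `[k] < [k+1] ≤ [m] < [m+1]`; at least three nonzero
class coordinates (`1 + ω ≠ 0`), contradiction. `m = r - 1`:
`p' ≡ s_[k] + s_[k+1] + ω s_[r-1] + ω² s_[0]`; as there are at least four classes, not both `[k] = [0]` and
`[k+1] = [r-1]`; at least three nonzero class coordinates (`1 + ω² ≠ 0`, `1 + ω ≠ 0`), contradiction.
(A3) `p = r_i + ω r_j`, `p' = s_k + ω s_m`: (A2) with the roles exchanged (`D = {s_k, s_m}`).
(B) `p = r_i + ω r_j`, `p' = r_k + ω r_m`, `i, j, k, m ∉ {a, b}`: `D = {r_i, r_j}` gives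
`p' ∈ ⟨r_a, r_b, r_i, r_j⟩`, the rims are independent (GF4), so `{k, m} = {i, j}`, `p' = p`. -/
theorem GF5 {r : ℕ} (hr : 6 ≤ r) : SepK ⊥ (WhC r) (WhR r) (fun _ => WhP r) := by
  rintro y ⟨a, ha, rfl⟩ y' ⟨b, hb, rfl⟩ hyy p hp p' hp' h1 h2 h3
  rw [sup_bot_eq] at h1 h2 ⊢
  simp only [sup_bot_eq] at h3
  have hab : a ≠ b := by
    rintro rfl
    exact hyy rfl
  have hz : ∀ {q : VV}, (∀ c ∈ insert 0 (WhC r), ∀ s : F4,
      q + s • c ∉ span F4 {Whr r a, Whr r b}) → q ∈ WhP r →
      (∃ i j, i < j ∧ j < r ∧ q = e 0 i + F4.w • e 0 j) ∨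
        ∃ i j, i < j ∧ j < r ∧ q = Whr r i + F4.w • Whr r j := by
    rintro q hq (((hq' | hq') | hq') | hq')
    · exfalso
      refine hq q (Set.mem_insert_of_mem _ hq') 1 ?_
      rw [one_smul, vadd_self]
      exact zero_mem _
    · exact Or.inl hq'
    · exact Or.inr hq'
    · exfalso
      refine hq 0 (Set.mem_insert _ _) 1 ?_
      rw [hq', smul_zero, add_zero]
      exact zero_mem _
  have hsub : ∀ {i j : ℕ}, i < j → j < r → ({e 0 i, e 0 j} : Set VV) ⊆ WhC r := by
    rintro i j hij hj x (rfl | rfl)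
    · exact (GF1 (by omega) _).2 (Or.inl ⟨i, by omega, rfl⟩)
    · exact (GF1 (by omega) _).2 (Or.inl ⟨j, hj, rfl⟩)
  have hin : ∀ u v : VV, u + F4.w • v ∈ span F4 ({Whr r a, Whr r b} ∪ {u, v}) := by
    intro u v
    exact add_mem (subset_span (by simp)) (Submodule.smul_mem _ _ (subset_span (by simp)))
  rcases hz h1 hp with ⟨i, j, hij, hj, rfl⟩ | ⟨i, j, hij, hj, rfl⟩
  · have h4 := (h3 _ (hsub hij hj)).1 (hin _ _)
    rcases hz h2 hp' with ⟨k, m, hkm, hm, rfl⟩ | ⟨k, m, hkm, hm, rfl⟩
    · have c1 := GF5_lt hr hab ha hb hij hj h1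
      have c2 := GF5_lt hr hab ha hb hkm hm h2
      have ev : ∀ n, GF5_chi a b n (e 0 k + F4.w • e 0 m) =
          (if GF5_c a b k = n then 1 else 0) + F4.w * (if GF5_c a b m = n then 1 else 0) := by
        intro n
        rw [map_add, map_smul, GF5_chi_e, GF5_chi_e, smul_eq_mul]
      have key : ∀ n, GF5_chi a b n (e 0 k + F4.w • e 0 m) ≠ 0 →
          GF5_c a b i = n ∨ GF5_c a b j = n := by
        intro n hn
        by_contra hne
        push Not at hne
        exact hn (GF5_supp hab ha hb h4 hne.1 hne.2)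
      have e1 := key (GF5_c a b k) (by rw [ev, if_pos rfl, if_neg (by omega)]; decide)
      have e2 := key (GF5_c a b m) (by rw [ev, if_neg (by omega), if_pos rfl]; decide)
      have e3 : GF5_c a b i = GF5_c a b k := by omega
      have e4 : GF5_c a b j = GF5_c a b m := by omega
      have e5 := GF5_same' hab ha hb e3
      have e6 := GF5_same' hab ha hb e4
      have e7 : e 0 k + F4.w • e 0 m = (e 0 i + e 0 k) + F4.w • (e 0 j + e 0 m) +
          (e 0 i + F4.w • e 0 j) := by
        rw [smul_add]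
        have h5 : e 0 i + e 0 k + (F4.w • e 0 j + F4.w • e 0 m) + (e 0 i + F4.w • e 0 j) =
            (e 0 i + e 0 i) + (F4.w • e 0 j + F4.w • e 0 j) + (e 0 k + F4.w • e 0 m) := by abel
        rw [h5, vadd_self, vadd_self, zero_add, zero_add]
      have hle : span F4 {Whr r a, Whr r b} ≤ span F4 {Whr r a, Whr r b, e 0 i + F4.w • e 0 j} :=
        span_mono (by
          rintro x (rfl | rfl)
          · simp
          · simp)
      rw [e7]
      exact add_mem (add_mem (hle e5) (Submodule.smul_mem _ _ (hle e6)))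
        (subset_span (by simp))
    · exact (GF5_SR hr hab ha hb hkm hm h2 h4).elim
  · rcases hz h2 hp' with ⟨k, m, hkm, hm, rfl⟩ | ⟨k, m, hkm, hm, rfl⟩
    · have h4 := (h3 _ (hsub hkm hm)).2 (hin _ _)
      exact (GF5_SR hr hab ha hb hij hj h1 h4).elim
    · obtain ⟨⟨hka, hkb⟩, hma, hmb⟩ := GF5_ne hr hkm hm h2
      have hsub' : ({Whr r i, Whr r j} : Set VV) ⊆ WhC r := by
        rintro x (rfl | rfl)
        · exact (GF1 (by omega) _).2 (Or.inr ⟨i, by omega, rfl⟩)
        · exact (GF1 (by omega) _).2 (Or.inr ⟨j, hj, rfl⟩)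
      have h4 := (h3 _ hsub').1 (hin _ _)
      have key : ∀ n < r, n ≠ a → n ≠ b → n ≠ i → n ≠ j →
          rho r n (Whr r k + F4.w • Whr r m) = 0 := by
        intro n hn hna hnb hni hnj
        refine GF5_van _ ?_ h4
        rintro x ((rfl | rfl) | (rfl | rfl))
        · rw [rho_rim (by omega) hn (by omega), if_neg (Ne.symm hna)]
        · rw [rho_rim (by omega) hn (by omega), if_neg (Ne.symm hnb)]
        · rw [rho_rim (by omega) hn (by omega), if_neg (Ne.symm hni)]
        · rw [rho_rim (by omega) hn (by omega), if_neg (Ne.symm hnj)]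
      have e1 : k = i ∨ k = j := by
        by_contra hne
        push Not at hne
        have h5 := key k (by omega) hka hkb hne.1 hne.2
        rw [map_add, map_smul, rho_rim (by omega) (by omega) (by omega), if_pos rfl,
          rho_rim (by omega) (by omega) (by omega), if_neg (by omega)] at h5
        revert h5
        decide
      have e2 : m = i ∨ m = j := by
        by_contra hne
        push Not at hne
        have h5 := key m (by omega) hma hmb hne.1 hne.2
        rw [map_add, map_smul, rho_rim (by omega) (by omega) (by omega), if_neg (by omega),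
          rho_rim (by omega) (by omega) (by omega), if_pos rfl] at h5
        revert h5
        decide
      have e3 : k = i := by omega
      have e4 : m = j := by omega
      rw [e3, e4]
      exact subset_span (by simp)

end QG
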