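import Pool.Agent.Lib.QG.GF4

/-! MP_2e6874_co, part (A), row GF6. -/

set_option autoImplicit false

namespace QG
open Set Matroid Submodule

private theorem GF6_fa {x y : F4} (h : x + y = 0) : x = y := by
  revert x y
  decide

private theorem GF6_card {X : Finset ℕ} {a b c d : ℕ} (hab : a < b) (hbc : b < c) (hcd : c < d)
    (ha : a ∈ X) (hb : b ∈ X) (hc : c ∈ X) (hd : d ∈ X) : 4 ≤ X.card := by
  have h1 : ({a, b, c, d} : Finset ℕ) ⊆ X := by
    intro n hn
    simp only [Finset.mem_insert, Finset.mem_singleton] at hn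
    rcases hn with rfl | rfl | rfl | rfl <;> assumption
  refine le_trans (le_of_eq ?_) (Finset.card_le_card h1)
  rw [Finset.card_insert_of_notMem, Finset.card_insert_of_notMem, Finset.card_insert_of_notMem,
    Finset.card_singleton]
  · simp only [Finset.mem_singleton]
    omega
  · simp only [Finset.mem_insert, Finset.mem_singleton]
    omega
  · simp only [Finset.mem_insert, Finset.mem_singleton]
    omega

private theorem GF6_card5 {X : Finset ℕ} (h0 : 0 ∈ X) (h1 : 1 ∈ X) (h2 : 2 ∈ X) (h3 : 3 ∈ X)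
    (h4 : 4 ∈ X) : 5 ≤ X.card := by
  have h5 : ({0, 1, 2, 3, 4} : Finset ℕ) ⊆ X := by
    intro n hn
    simp only [Finset.mem_insert, Finset.mem_singleton] at hn
    rcases hn with rfl | rfl | rfl | rfl | rfl <;> assumption
  exact le_trans (by decide) (Finset.card_le_card h5)

private theorem GF6_const {ρ : ℕ → F4} {l u : ℕ} (h : ∀ n, l < n → n ≤ u → ρ n = ρ (n - 1)) :
    ∀ n, l ≤ n → n ≤ u → ρ n = ρ l := by
  intro n hn
  induction n, hn using Nat.le_induction with
  | base => exact fun _ => rfl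
  | succ n hn ih =>
    intro hu
    rw [h (n + 1) (by omega) hu, Nat.add_sub_cancel]
    exact ih (by omega)

/-- the support in the rim coordinates -/
private theorem GF6_R {r : ℕ} {ρ : ℕ → F4} (h3 : ∀ m, m < r → ∃ n < r, n ≠ m ∧ ρ n ≠ 0) {i : ℕ}
    (hir : i + 1 < r) {a c : F4} (ha : a ≠ 0) {k m : ℕ} (hk : k < m) (hm : m < r)
    (h : ∀ n < r, ρ n + (if n = i then a else 0) =
      c * ((if n = k then 1 else 0) + F4.w * (if n = m then 1 else 0))) : ρ i ≠ 0 := by
  intro h0
  have h1 := h i (by omega)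
  rw [h0, if_pos rfl, zero_add] at h1
  by_cases hik : i = k
  · obtain ⟨n, hn, hnm, hn0⟩ := h3 m hm
    apply hn0
    by_cases hni : n = i
    · rw [hni, h0]
    · have h2 := h n hn
      rw [if_neg hni, if_neg (by omega), if_neg hnm, mul_zero, add_zero, add_zero, mul_zero] at h2
      exact h2
  · by_cases him : i = m
    · obtain ⟨n, hn, hnk, hn0⟩ := h3 k (by omega)
      apply hn0
      by_cases hni : n = i
      · rw [hni, h0]
      · have h2 := h n hn
        rw [if_neg hni, if_neg hnk, if_neg (by omega), mul_zero, add_zero, add_zero, mul_zero] at h2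
        exact h2
    · rw [if_neg hik, if_neg him, mul_zero, add_zero, mul_zero] at h1
      exact ha h1

private theorem GF6_S {r : ℕ} {Q : ℕ → F4} {i : ℕ} (hir : i + 1 < r) {a : F4} (ha : a ≠ 0)
    {k m : ℕ} (h : ∀ n < r, n ≠ k → n ≠ m → Q n + (if n = i ∨ n = i + 1 then a else 0) = 0) :
    ((Finset.range r).filter fun n => Q n ≠ 0).card ≤ 2 ∨
      (Q i ≠ 0 ∧ Q (i + 1) ≠ 0 ∧ ((Finset.range r).filter fun n => Q n ≠ 0).card ≤ 4) := by
  have key : ∀ n < r, Q n ≠ 0 → n ≠ i → n ≠ i + 1 → n = k ∨ n = m := by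
    intro n hn hQ h1 h2
    by_contra hcon
    push Not at hcon
    have h3 := h n hn hcon.1 hcon.2
    rw [if_neg (by omega), add_zero] at h3
    exact hQ h3
  have hkm : ∀ j, j < r → (j = i ∨ j = i + 1) → Q j = 0 → j = k ∨ j = m := by
    intro j hj hji hQ
    by_contra hcon
    push Not at hcon
    have h3 := h j hj hcon.1 hcon.2
    rw [if_pos hji, hQ, zero_add] at h3
    exact ha h3
  have hc2 : ∀ x y : ℕ, (({x, y} : Finset ℕ)).card ≤ 2 := fun x y => Finset.card_le_two
  by_cases h1 : Q i = 0
  · left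
    rcases hkm i (by omega) (Or.inl rfl) h1 with h2 | h2
    · refine (Finset.card_le_card (t := {i + 1, m}) ?_).trans (hc2 _ _)
      intro n hn
      rw [Finset.mem_filter, Finset.mem_range] at hn
      simp only [Finset.mem_insert, Finset.mem_singleton]
      by_cases h3 : n = i + 1
      · exact Or.inl h3
      · have h4 : n ≠ i := fun h5 => hn.2 (h5 ▸ h1)
        rcases key n hn.1 hn.2 h4 h3 with h5 | h5
        · exact absurd (h5.trans h2.symm) h4
        · exact Or.inr h5
    · refine (Finset.card_le_card (t := {i + 1, k}) ?_).trans (hc2 _ _)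
      intro n hn
      rw [Finset.mem_filter, Finset.mem_range] at hn
      simp only [Finset.mem_insert, Finset.mem_singleton]
      by_cases h3 : n = i + 1
      · exact Or.inl h3
      · have h4 : n ≠ i := fun h5 => hn.2 (h5 ▸ h1)
        rcases key n hn.1 hn.2 h4 h3 with h5 | h5
        · exact Or.inr h5
        · exact absurd (h5.trans h2.symm) h4
  · by_cases h1' : Q (i + 1) = 0
    · left
      rcases hkm (i + 1) hir (Or.inr rfl) h1' with h2 | h2
      · refine (Finset.card_le_card (t := {i, m}) ?_).trans (hc2 _ _)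
        intro n hn
        rw [Finset.mem_filter, Finset.mem_range] at hn
        simp only [Finset.mem_insert, Finset.mem_singleton]
        by_cases h3 : n = i
        · exact Or.inl h3
        · have h4 : n ≠ i + 1 := fun h5 => hn.2 (h5 ▸ h1')
          rcases key n hn.1 hn.2 h3 h4 with h5 | h5
          · exact absurd (h5.trans h2.symm) h4
          · exact Or.inr h5
      · refine (Finset.card_le_card (t := {i, k}) ?_).trans (hc2 _ _)
        intro n hn
        rw [Finset.mem_filter, Finset.mem_range] at hn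
        simp only [Finset.mem_insert, Finset.mem_singleton]
        by_cases h3 : n = i
        · exact Or.inl h3
        · have h4 : n ≠ i + 1 := fun h5 => hn.2 (h5 ▸ h1')
          rcases key n hn.1 hn.2 h3 h4 with h5 | h5
          · exact Or.inr h5
          · exact absurd (h5.trans h2.symm) h4
    · right
      refine ⟨h1, h1', (Finset.card_le_card (t := {i, i + 1, k, m}) ?_).trans Finset.card_le_four⟩
      intro n hn
      rw [Finset.mem_filter, Finset.mem_range] at hn
      simp only [Finset.mem_insert, Finset.mem_singleton]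
      by_cases h3 : n = i
      · exact Or.inl h3
      · by_cases h4 : n = i + 1
        · exact Or.inr (Or.inl h4)
        · exact Or.inr (Or.inr (key n hn.1 hn.2 h3 h4))

private theorem GF6_comb {r : ℕ} (hr : 6 ≤ r) {Q ρ : ℕ → F4}
    (hQρ : ∀ n, 1 ≤ n → n < r → Q n = ρ n + ρ (n - 1)) (hQ0 : Q 0 = ρ 0 + F4.w * ρ (r - 1))
    (h1 : ∀ a, a < r → ∃ n < r, n ≠ a ∧ Q n ≠ 0)
    (h2 : ∀ a b, a < b → b < r → (∀ n < r, n ≠ a → n ≠ b → Q n = 0) → Q b ≠ F4.w * Q a)
    (h3 : ∀ m, m < r → ∃ n < r, n ≠ m ∧ ρ n ≠ 0)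
    (hi : ∀ i, i + 1 < r → ∃ a : F4, a ≠ 0 ∧
      ((∃ k m, ∀ n < r, n ≠ k → n ≠ m → Q n + (if n = i ∨ n = i + 1 then a else 0) = 0) ∨
      (∃ k m, ∃ c : F4, k < m ∧ m < r ∧ ∀ n < r, ρ n + (if n = i then a else 0) =
        c * ((if n = k then 1 else 0) + F4.w * (if n = m then 1 else 0))))) : False := by
  obtain ⟨X, hX⟩ : ∃ X : Finset ℕ, X = (Finset.range r).filter fun n => Q n ≠ 0 := ⟨_, rfl⟩
  obtain ⟨N, hN⟩ : ∃ N : Finset ℕ, N = (Finset.range r).filter fun n => ρ n ≠ 0 := ⟨_, rfl⟩
  have mX : ∀ n, n < r → Q n ≠ 0 → n ∈ X := fun n hn h => by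
    rw [hX, Finset.mem_filter, Finset.mem_range]
    exact ⟨hn, h⟩
  have mN : ∀ n, n < r → ρ n ≠ 0 → n ∈ N := fun n hn h => by
    rw [hN, Finset.mem_filter, Finset.mem_range]
    exact ⟨hn, h⟩
  have hX2 : X.card ≤ 2 := by
    by_contra hX2
    have A : ∀ i, i + 1 < r → (ρ i ≠ 0 ∧ N.card ≤ 3) ∨ (Q i ≠ 0 ∧ Q (i + 1) ≠ 0 ∧ X.card ≤ 4) := by
      intro i hir
      obtain ⟨a, ha, ⟨k, m, h⟩ | ⟨k, m, c, hk, hm, h⟩⟩ := hi i hir
      · rcases GF6_S hir ha h with h4 | h4
        · rw [← hX] at h4
          exact absurd h4 hX2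
        · rw [← hX] at h4
          exact Or.inr h4
      · refine Or.inl ⟨GF6_R h3 hir ha hk hm h, ?_⟩
        refine (Finset.card_le_card (t := {k, m, i}) ?_).trans Finset.card_le_three
        intro n hn
        rw [hN, Finset.mem_filter, Finset.mem_range] at hn
        simp only [Finset.mem_insert, Finset.mem_singleton]
        by_contra hcon
        push Not at hcon
        have h4 := h n hn.1
        rw [if_neg hcon.2.2, if_neg hcon.1, if_neg hcon.2.1, mul_zero, add_zero, add_zero,
          mul_zero] at h4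
        exact hn.2 h4
    have B : N.card ≤ 3 := by
      by_contra hN3
      have A' : ∀ i, i + 1 < r → Q i ≠ 0 ∧ Q (i + 1) ≠ 0 ∧ X.card ≤ 4 := fun i hir =>
        (A i hir).resolve_left fun h => hN3 h.2
      have e0 := A' 0 (by omega)
      have e2 := A' 2 (by omega)
      have e4 := A' 4 (by omega)
      have h5 := GF6_card5 (mX 0 (by omega) e0.1) (mX 1 (by omega) e0.2.1)
        (mX 2 (by omega) e2.1) (mX 3 (by omega) e2.2.1) (mX 4 (by omega) e4.1)
      omega
    have Cc : ∀ i, i + 1 < r → ρ i = 0 → Q i ≠ 0 ∧ Q (i + 1) ≠ 0 ∧ X.card ≤ 4 := fun i hir h0 =>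
      (A i hir).resolve_left fun h => h.1 h0
    have D : ∀ i, i + 1 < r → ρ i = 0 → ρ (i + 1) ≠ 0 := by
      intro i hir h0 h4
      have h5 := hQρ (i + 1) (by omega) hir
      rw [Nat.add_sub_cancel, h0, h4, add_zero] at h5
      exact (Cc i hir h0).2.1 h5
    have E : ∀ i, 1 ≤ i → i + 1 < r → ρ i = 0 → ρ (i - 1) ≠ 0 := by
      intro i hi1 hir h0 h4
      have h5 := hQρ i hi1 (by omega)
      rw [h0, h4, add_zero] at h5
      exact (Cc i hir h0).1 h5
    have F : ρ 0 = 0 → ρ (r - 1) ≠ 0 := by
      intro h0 h4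
      rw [h0, h4, mul_zero, add_zero] at hQ0
      exact (Cc 0 (by omega) h0).1 hQ0
    have four : ∀ a b c d, a < b → b < c → c < d → d < r → ρ a ≠ 0 → ρ b ≠ 0 → ρ c ≠ 0 →
        ρ d ≠ 0 → False := by
      intro a b c d hab hbc hcd hd ha hb hc hd'
      have h5 := GF6_card hab hbc hcd (mN a (by omega) ha) (mN b (by omega) hb)
        (mN c (by omega) hc) (mN d hd hd')
      omega
    by_cases z0 : ρ 0 = 0
    · have n1 : ρ 1 ≠ 0 := D 0 (by omega) z0
      have nr := F z0
      by_cases h7 : 7 ≤ r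
      · -- `1, r - 1` and one of `2, 3`, one of `4, 5`
        by_cases z2 : ρ 2 = 0
        · have n3 : ρ 3 ≠ 0 := D 2 (by omega) z2
          by_cases z4 : ρ 4 = 0
          · have n5 : ρ 5 ≠ 0 := D 4 (by omega) z4
            exact four 1 3 5 (r - 1) (by omega) (by omega) (by omega) (by omega) n1 n3 n5 nr
          · exact four 1 3 4 (r - 1) (by omega) (by omega) (by omega) (by omega) n1 n3 z4 nr
        · by_cases z4 : ρ 4 = 0
          · have n5 : ρ 5 ≠ 0 := D 4 (by omega) z4
            exact four 1 2 5 (r - 1) (by omega) (by omega) (by omega) (by omega) n1 z2 n5 nr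
          · exact four 1 2 4 (r - 1) (by omega) (by omega) (by omega) (by omega) n1 z2 z4 nr
      · have h6 : r = 6 := by omega
        have n5 : ρ 5 ≠ 0 := by
          rw [h6] at nr
          exact nr
        have z4 : ρ 4 = 0 := by
          by_contra n4
          by_cases z2 : ρ 2 = 0
          · exact four 1 3 4 5 (by omega) (by omega) (by omega) (by omega) n1
              (D 2 (by omega) z2) n4 n5
          · exact four 1 2 4 5 (by omega) (by omega) (by omega) (by omega) n1 z2 n4 n5
        have n3 : ρ 3 ≠ 0 := E 4 (by omega) (by omega) z4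
        have z2 : ρ 2 = 0 := by
          by_contra n2
          exact four 1 2 3 5 (by omega) (by omega) (by omega) (by omega) n1 n2 n3 n5
        have e0 := Cc 0 (by omega) z0
        have e2 := Cc 2 (by omega) z2
        have e4 := Cc 4 (by omega) z4
        have h5 := GF6_card5 (mX 0 (by omega) e0.1) (mX 1 (by omega) e0.2.1)
          (mX 2 (by omega) e2.1) (mX 3 (by omega) e2.2.1) (mX 4 (by omega) e4.1)
        omega
    · -- `0 ∈ N`
      by_cases z1 : ρ 1 = 0
      · have n2 : ρ 2 ≠ 0 := D 1 (by omega) z1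
        by_cases z3 : ρ 3 = 0
        · have n4 : ρ 4 ≠ 0 := D 3 (by omega) z3
          have z5 : ρ 5 = 0 := by
            by_contra n5
            exact four 0 2 4 5 (by omega) (by omega) (by omega) (by omega) z0 n2 n4 n5
          by_cases h7 : 7 ≤ r
          · have n6 : ρ 6 ≠ 0 := D 5 (by omega) z5
            exact four 0 2 4 6 (by omega) (by omega) (by omega) (by omega) z0 n2 n4 n6
          · have h6 : r = 6 := by omega
            have e1 := Cc 1 (by omega) z1
            have e3 := Cc 3 (by omega) z3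
            have q0 : Q 0 ≠ 0 := by
              rw [hQ0, h6]
              show ρ 0 + F4.w * ρ 5 ≠ 0
              rw [z5, mul_zero, add_zero]
              exact z0
            have h5 := GF6_card5 (mX 0 (by omega) q0) (mX 1 (by omega) e1.1)
              (mX 2 (by omega) e1.2.1) (mX 3 (by omega) e3.1) (mX 4 (by omega) e3.2.1)
            omega
        · by_cases z4 : ρ 4 = 0
          · exact four 0 2 3 5 (by omega) (by omega) (by omega) (by omega) z0 n2 z3
              (D 4 (by omega) z4)
          · exact four 0 2 3 4 (by omega) (by omega) (by omega) (by omega) z0 n2 z3 z4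
      · by_cases z2 : ρ 2 = 0
        · have n3 : ρ 3 ≠ 0 := D 2 (by omega) z2
          by_cases z4 : ρ 4 = 0
          · exact four 0 1 3 5 (by omega) (by omega) (by omega) (by omega) z0 z1 n3
              (D 4 (by omega) z4)
          · exact four 0 1 3 4 (by omega) (by omega) (by omega) (by omega) z0 z1 n3 z4
        · by_cases z4 : ρ 4 = 0
          · exact four 0 1 2 5 (by omega) (by omega) (by omega) (by omega) z0 z1 z2
              (D 4 (by omega) z4)
          · exact four 0 1 2 4 (by omega) (by omega) (by omega) (by omega) z0 z1 z2 z4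
  -- two coordinates
  obtain ⟨a, b, hab, hb, hQa, hQb, hz⟩ : ∃ a b, a < b ∧ b < r ∧ Q a ≠ 0 ∧ Q b ≠ 0 ∧
      ∀ n < r, n ≠ a → n ≠ b → Q n = 0 := by
    obtain ⟨x, hx, -, hQx⟩ := h1 0 (by omega)
    obtain ⟨y, hy, hyx, hQy⟩ := h1 x hx
    have h4 : ∀ n < r, n ≠ x → n ≠ y → Q n = 0 := by
      intro n hn hnx hny
      by_contra h5
      have h6 : ({x, y, n} : Finset ℕ) ⊆ X := by
        intro z hz
        simp only [Finset.mem_insert, Finset.mem_singleton] at hz
        rcases hz with rfl | rfl | rfl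
        · exact mX _ hx hQx
        · exact mX _ hy hQy
        · exact mX _ hn h5
      have h7 := Finset.card_le_card h6
      rw [Finset.card_eq_three.2 ⟨x, y, n, hyx.symm, hnx.symm, hny.symm, rfl⟩] at h7
      omega
    rcases lt_or_gt_of_ne hyx with h5 | h5
    · exact ⟨y, x, h5, hx, hQy, hQx, fun n hn h6 h7 => h4 n hn h7 h6⟩
    · exact ⟨x, y, h5, hy, hQx, hQy, h4⟩
  have hw := h2 a b hab hb hz
  have hstep : ∀ n, 1 ≤ n → n < r → n ≠ a → n ≠ b → ρ n = ρ (n - 1) := by
    intro n hn hnr hna hnb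
    have h4 := hQρ n hn hnr
    rw [hz n hnr hna hnb] at h4
    exact GF6_fa h4.symm
  have hβ : ∀ n, a ≤ n → n ≤ b - 1 → ρ n = ρ a :=
    GF6_const fun n h4 h5 => hstep n (by omega) (by omega) (by omega) (by omega)
  have hγ : ∀ n, b ≤ n → n ≤ r - 1 → ρ n = ρ b :=
    GF6_const fun n h4 h5 => hstep n (by omega) (by omega) (by omega) (by omega)
  have hα : ∀ n, n < a → ρ n = F4.w * ρ b := by
    intro n hn
    have h4 : ρ n = ρ 0 := GF6_const (l := 0) (u := a - 1)
      (fun n h4 h5 => hstep n (by omega) (by omega) (by omega) (by omega)) n (by omega) (by omega)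
    rw [hz 0 (by omega) (by omega) (by omega)] at hQ0
    rw [h4, GF6_fa hQ0.symm, hγ (r - 1) (by omega) le_rfl]
  have hQa' : Q a = ρ a + F4.w * ρ b := by
    rcases Nat.eq_zero_or_pos a with h4 | h4
    · rw [h4, hQ0, hγ (r - 1) (by omega) le_rfl]
    · rw [hQρ a h4 (by omega), hα (a - 1) (by omega)]
  have hQb' : Q b = ρ b + ρ a := by
    rw [hQρ b (by omega) hb, hβ (b - 1) (by omega) le_rfl]
  obtain ⟨i, hir, hia, hib, hia', hib'⟩ : ∃ i, i + 1 < r ∧ i ≠ a ∧ i ≠ b ∧ i + 1 ≠ a ∧
      i + 1 ≠ b := by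
    by_contra! hcon
    have e0 := hcon 0 (by omega)
    have e2 := hcon 2 (by omega)
    have e4 := hcon 4 (by omega)
    omega
  obtain ⟨x, hx, ⟨k, m, h⟩ | ⟨k, m, c, hk, hm, h⟩⟩ := hi i hir
  · -- type S
    have key : ∀ n, n < r → (n = a ∨ n = b ∨ n = i ∨ n = i + 1) → n = k ∨ n = m := by
      intro n hn h4
      by_contra hcon
      push Not at hcon
      have h5 := h n hn hcon.1 hcon.2
      rcases h4 with rfl | rfl | rfl | rfl
      · rw [if_neg (by omega), add_zero] at h5
        exact hQa h5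
      · rw [if_neg (by omega), add_zero] at h5
        exact hQb h5
      · rw [if_pos (Or.inl rfl), hz n hn hia hib, zero_add] at h5
        exact hx h5
      · rw [if_pos (Or.inr rfl), hz _ hn hia' hib', zero_add] at h5
        exact hx h5
    have e1 := key a (by omega) (Or.inl rfl)
    have e2 := key b (by omega) (Or.inr (Or.inl rfl))
    have e3 := key i (by omega) (Or.inr (Or.inr (Or.inl rfl)))
    omega
  · -- type R
    have hρi := GF6_R h3 hir hx hk hm h
    have hval : ∀ n, n < r → n ≠ i → ρ n ≠ 0 → (n = k ∧ ρ n = c) ∨ (n = m ∧ ρ n = c * F4.w) := by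
      intro n hn hni hρn
      have h4 := h n hn
      rw [if_neg hni, add_zero] at h4
      by_cases h5 : n = k
      · left
        rw [if_pos h5, if_neg (by omega), mul_zero, add_zero, mul_one] at h4
        exact ⟨h5, h4⟩
      · by_cases h6 : n = m
        · right
          rw [if_neg h5, if_pos h6, mul_one, zero_add] at h4
          exact ⟨h6, h4⟩
        · rw [if_neg h5, if_neg h6, mul_zero, add_zero, mul_zero] at h4
          exact absurd h4 hρn
    have hpair : ∀ n n', n < n' → n' < r → n ≠ i → n' ≠ i → ρ n ≠ 0 → ρ n' ≠ 0 →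
        ρ n = c ∧ ρ n' = c * F4.w := by
      intro n n' hnn hn' hni hni' h4 h5
      rcases hval n (by omega) hni h4 with h6 | h6 <;> rcases hval n' hn' hni' h5 with h7 | h7
      · omega
      · exact ⟨h6.2, h7.2⟩
      · omega
      · omega
    rw [hQa'] at hQa hw
    rw [hQb'] at hQb hw
    have hcase : ρ a = 0 ∨ ρ b = 0 := by
      generalize ρ a = β at *
      generalize ρ b = γ at *
      clear * - hQa hQb hw
      revert β γ
      decide
    rcases hcase with h0 | h0
    · -- `ρ a = 0`
      have hb0 : ρ b ≠ 0 := by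
        rw [h0, add_zero] at hQb
        exact hQb
      have ha0 : F4.w * ρ b ≠ 0 := mul_ne_zero (by decide) hb0
      have hiN : b ≤ i ∨ i < a := by
        by_contra hcon
        push Not at hcon
        exact hρi ((hβ i (by omega) (by omega)).trans h0)
      rcases hiN with h4 | h4
      · have h5 := hpair b (r - 1) (by omega) (by omega) (by omega) (by omega) hb0
          (by rw [hγ (r - 1) (by omega) le_rfl]; exact hb0)
        rw [hγ (r - 1) (by omega) le_rfl] at h5
        obtain ⟨h6, h7⟩ := h5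
        rw [h6] at h7 hb0
        clear * - h7 hb0
        revert c
        decide
      · have h5 := hpair (a - 1) b (by omega) hb (by omega) (by omega)
          (by rw [hα (a - 1) (by omega)]; exact ha0) hb0
        rw [hα (a - 1) (by omega)] at h5
        obtain ⟨h6, h7⟩ := h5
        rw [h7] at h6 hb0
        clear * - h6 hb0
        revert c
        decide
    · have ha0 : ρ a ≠ 0 := by
        rw [h0, zero_add] at hQb
        exact hQb
      have hiN : a ≤ i ∧ i < b := by
        by_contra hcon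
        rcases Nat.lt_or_ge i a with h4 | h4
        · exact hρi (by rw [hα i h4, h0, mul_zero])
        · exact hρi ((hγ i (by omega) (by omega)).trans h0)
      have h5 := hpair a (b - 1) (by omega) (by omega) (by omega) (by omega) ha0
        (by rw [hβ (b - 1) (by omega) le_rfl]; exact ha0)
      rw [hβ (b - 1) (by omega) le_rfl] at h5
      obtain ⟨h6, h7⟩ := h5
      rw [h6] at h7 ha0
      clear * - h7 ha0
      revert c
      decide

/-- GF6. `HelK`, `r ≥ 6`. Let `q ≠ 0` be in the span of the points and not on a line of `WhP`. For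
`i + 1 < r`: `q + a_i r_i + b_i p_i = 0`, `p_i ∈ WhP ∪ {0}`. Let `X = {n < r : q (0, n) ≠ 0}`,
`N = {n < r : ρ n q ≠ 0}`. Call `i` (`i + 1 < r`) of type s if `p_i` is `0`, a point or `s_k + ω s_m`
(then `q + a_i r_i` has at most two nonzero coordinates), of type r if `p_i = r_k + ω r_m` (then
`ρ_n (q + a_i r_i) ≠ 0` for at most two `n`, so `|N \ {i}| ≤ 2`).
(a) `i ∉ N` of type r: then `b_i p_i = q + a_i r_i`, `ρ_i`: if `a_i ≠ 0` then `i ∈ {k, m}` and `q` is a
multiple of the other rim; if `a_i = 0` then `q` is a multiple of `p_i`: contradiction. So every `i ∉ N`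
is of type s.
(b) `|N| ≥ 4`: all `i` are of type s. If `|X| ≥ 3`: adding `a_i r_i` changes only the coordinates `i, i+1`, so
both `i, i + 1 ∈ X` (otherwise `q + a_i r_i` has at least three nonzero coordinates), for all
`i + 1 < r`, so `|X| = r ≥ 6`, but `|X| ≤ 4`, contradiction.
(c) `|N| ≤ 3`, `|X| ≥ 3`: for `i ∉ N`, `i + 1 < r`: `i, i + 1 ∈ X`; the coordinate `(0, n)` of
`q = Σ_{k ∈ N} ρ_k(q) r_k` is nonzero only if `n ∈ N` or `n - 1 ∈ N` (cyclically); so `i - 1 ∈ N` (cyclic)
and `i + 1 ∈ N`. As `|N| ≤ 3`, `r ≥ 6`: this is possible only for `r = 6` and `N` one of the two alternating sets, then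
`|X| = 6 > 4`, contradiction.
(d) `|X| ≤ 2`, so `q = x s_a + y s_b`, `a < b`, `x, y ≠ 0` (`|X| = 1` is a point). `y = ω x` is in
`WhP`. `y = x`: `q = x (r_a + ... + r_{b-1})`, `b ≥ a + 2` (else a rim). `y = ω² x`:
`q = y (s_b + ω s_a) = y (r_b + ... + r_{r-1} + ω (r_0 + ... + r_{a-1}))`, not the last rim. Choose `i` with
`i + 1 < r`, `i, i+1 ∉ {a, b}` (exists, `r ≥ 6`). Type s: `q + a_i r_i` has at most two nonzero
coordinates, so `a_i = 0` and `q` is on the line of `p_i`, contradiction. Type r: `q + a_i r_i` is a multiple of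
`r_k + ω r_m`, `k < m`; the nonzero values of `ρ_n q` are: all equal (`y = x`), or `1` on
`n ≥ b` and `ω` on `n < a`; so for two different `n ≠ i` in `N` the quotient (larger index by smaller index) is `1` or
`ω² `, not `ω`; and `i ∈ {k, m}` with `i ∉ N`: then `|N| = 1`: `q` is a multiple of a rim; `i ∈ {k,m}`, `i ∈ N`:
then `|N| ≤ 2` and `N ∋ i`: but `N` is an interval (cyclic) of length 2 containing `i`:
`N = {a, a+1}` (`b = a + 2`): `i = a` or `i = b - 1`: excluded; for `y = ω² x`: `N = {b, ..}`,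
`i = b` or `i = a - 1` excluded, (`i = r - 1` is not allowed). -/
theorem GF6 {r : ℕ} (hr : 6 ≤ r) :
    HelK ⊥ (WhC r) (WhP r) (WhR r) (fun _ => WhP r) := by
  intro q hq hq0 hy
  rw [sup_bot_eq] at hq
  rw [Submodule.mem_bot] at hq0
  by_contra hcon
  have hline : ∀ p ∈ WhP r, ∀ b : F4, q ≠ b • p := by
    intro p hp b hqb
    apply hcon
    have hb : b ≠ 0 := by
      rintro rfl
      exact hq0 (by rw [hqb, zero_smul])
    exact ⟨p, hp, b, hb, by rw [Submodule.mem_bot, hqb]; exact vadd_self _⟩
  have hsupp : ∀ k : ℕ × ℕ, ¬ (k.1 = 0 ∧ k.2 < r) → q k = 0 := by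
    have h1 : span F4 (WhC r) ≤ Finsupp.supported F4 F4 {k : ℕ × ℕ | k.1 = 0 ∧ k.2 < r} := by
      rw [Submodule.span_le]
      intro x hx
      rcases (GF1 (by omega) x).1 hx with ⟨n, hn, rfl⟩ | ⟨n, hn, rfl⟩
      · exact Finsupp.single_mem_supported F4 _ ⟨rfl, hn⟩
      · unfold Whr
        refine Submodule.add_mem _ (Finsupp.single_mem_supported F4 _ ⟨rfl, hn⟩) ?_
        split_ifs with h
        · exact Submodule.smul_mem _ _ (Finsupp.single_mem_supported F4 _ ⟨rfl, by show 0 < r; omega⟩)
        · exact Finsupp.single_mem_supported F4 _ ⟨rfl, by show n + 1 < r; omega⟩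
    intro k hk
    exact (Finsupp.mem_supported' F4 q).1 (h1 hq) k hk
  have hQρ : ∀ n, 1 ≤ n → n < r → q (0, n) = rho r n q + rho r (n - 1) q := by
    intro n hn hnr
    have h : Finsupp.lapply (R := F4) (M := F4) ((0 : ℕ), n) = rho r n + rho r (n - 1) := by
      refine Finsupp.lhom_ext fun k b => ?_
      have h1 : Finsupp.single k b = b • e k.1 k.2 := by
        rw [e, Finsupp.smul_single, smul_eq_mul, mul_one]
      rw [h1, map_smul, map_smul]
      congr 1
      rw [LinearMap.add_apply, rho_e, rho_e, Finsupp.lapply_apply, e, Finsupp.single_apply]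
      obtain ⟨k1, k2⟩ := k
      simp only [Prod.mk.injEq]
      by_cases h2 : k1 = 0 ∧ k2 < r
      · rw [if_pos h2, if_pos h2]
        rcases lt_trichotomy k2 n with h3 | h3 | h3
        · rw [if_neg (by omega), if_pos (by omega), if_pos (by omega)]
          decide
        · rw [if_pos ⟨h2.1, h3⟩, if_pos (by omega), if_neg (by omega)]
          decide
        · rw [if_neg (by omega), if_neg (by omega), if_neg (by omega)]
          decide
      · rw [if_neg h2, if_neg h2, add_zero, if_neg]
        rintro ⟨rfl, rfl⟩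
        exact h2 ⟨rfl, hnr⟩
    have h4 := LinearMap.congr_fun h q
    exact h4
  have hQ0 : q (0, 0) = rho r 0 q + F4.w * rho r (r - 1) q := by
    have h : Finsupp.lapply (R := F4) (M := F4) ((0 : ℕ), 0) = rho r 0 + F4.w • rho r (r - 1) := by
      refine Finsupp.lhom_ext fun k b => ?_
      have h1 : Finsupp.single k b = b • e k.1 k.2 := by
        rw [e, Finsupp.smul_single, smul_eq_mul, mul_one]
      rw [h1, map_smul, map_smul]
      congr 1
      rw [LinearMap.add_apply, LinearMap.smul_apply, rho_e, rho_e, Finsupp.lapply_apply, e,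
        Finsupp.single_apply]
      obtain ⟨k1, k2⟩ := k
      simp only [Prod.mk.injEq]
      by_cases h2 : k1 = 0 ∧ k2 < r
      · rw [if_pos h2, if_pos h2]
        rcases Nat.eq_zero_or_pos k2 with h3 | h3
        · rw [if_pos ⟨h2.1, h3⟩, if_pos (by omega), if_pos (by omega)]
          decide
        · rw [if_neg (by omega), if_neg (by omega), if_pos (by omega)]
          decide
      · rw [if_neg h2, if_neg h2, smul_zero, add_zero, if_neg]
        rintro ⟨rfl, rfl⟩
        exact h2 ⟨rfl, by omega⟩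
    have h4 := LinearMap.congr_fun h q
    exact h4
  have hCP : ∀ x ∈ WhC r, x ∈ WhP r := fun x hx => Or.inl (Or.inl (Or.inl hx))
  have h0P : (0 : VV) ∈ WhP r := Or.inr rfl
  have hex : ∀ n m : ℕ, (e 0 n) ((0 : ℕ), m) = if m = n then (1 : F4) else 0 := by
    intro n m
    rw [e, Finsupp.single_apply]
    simp only [Prod.mk.injEq, true_and]
    by_cases h : m = n
    · rw [if_pos h, if_pos h.symm]
    · rw [if_neg h, if_neg (fun h' => h h'.symm)]
  have h1 : ∀ a, a < r → ∃ n < r, n ≠ a ∧ q (0, n) ≠ 0 := by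
    intro a ha
    by_contra! h
    apply hline (e 0 a) (hCP _ ((GF1 (by omega) _).2 (Or.inl ⟨a, ha, rfl⟩))) (q (0, a))
    ext ⟨k1, k2⟩
    rw [Finsupp.smul_apply, smul_eq_mul]
    by_cases h2 : k1 = 0 ∧ k2 < r
    · obtain ⟨rfl, h2⟩ := h2
      rw [hex]
      by_cases h3 : k2 = a
      · rw [if_pos h3, mul_one, h3]
      · rw [if_neg h3, mul_zero]
        exact h k2 h2 h3
    · rw [hsupp _ h2, e, Finsupp.single_apply, if_neg, mul_zero]
      intro h3
      rw [Prod.mk.injEq] at h3
      exact h2 ⟨h3.1.symm, by show k2 < r; omega⟩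
  have h2 : ∀ a b, a < b → b < r → (∀ n < r, n ≠ a → n ≠ b → q (0, n) = 0) →
      q (0, b) ≠ F4.w * q (0, a) := by
    intro a b hab hb hz hw
    apply hline (e 0 a + F4.w • e 0 b) (Or.inl (Or.inl (Or.inr ⟨a, b, hab, hb, rfl⟩))) (q (0, a))
    ext ⟨k1, k2⟩
    rw [Finsupp.smul_apply, Finsupp.add_apply, Finsupp.smul_apply, smul_eq_mul, smul_eq_mul]
    by_cases h2 : k1 = 0 ∧ k2 < r
    · obtain ⟨rfl, h2⟩ := h2
      rw [hex, hex]
      by_cases h3 : k2 = a
      · rw [if_pos h3, if_neg (by omega), mul_zero, add_zero, mul_one, h3]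
      · rw [if_neg h3, zero_add]
        by_cases h4 : k2 = b
        · rw [if_pos h4, mul_one, h4, hw, mul_comm]
        · rw [if_neg h4, mul_zero, mul_zero]
          exact hz k2 h2 h3 h4
    · rw [hsupp _ h2, e, e, Finsupp.single_apply, Finsupp.single_apply, if_neg, if_neg, mul_zero,
        add_zero, mul_zero]
      · intro h3
        rw [Prod.mk.injEq] at h3
        exact h2 ⟨h3.1.symm, by show k2 < r; omega⟩
      · intro h3
        rw [Prod.mk.injEq] at h3
        exact h2 ⟨h3.1.symm, by show k2 < r; omega⟩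
  have h3 : ∀ m, m < r → ∃ n < r, n ≠ m ∧ rho r n q ≠ 0 := by
    intro m hm
    by_contra! h
    have hW : Whr r m ∈ WhC r := (GF1 (by omega) _).2 (Or.inr ⟨m, hm, rfl⟩)
    apply hline (Whr r m) (hCP _ hW) (rho r m q)
    refine eq_of_rho (by omega) hq (Submodule.smul_mem _ _ (Submodule.subset_span hW)) ?_
    intro n hn
    rw [map_smul, rho_rim (by omega) hn hm, smul_eq_mul]
    by_cases h4 : m = n
    · rw [if_pos h4, mul_one, h4]
    · rw [if_neg h4, mul_zero]
      exact h n hn (fun h5 => h4 h5.symm)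
  have hi : ∀ i, i + 1 < r → ∃ a : F4, a ≠ 0 ∧
      ((∃ k m, ∀ n < r, n ≠ k → n ≠ m → q (0, n) + (if n = i ∨ n = i + 1 then a else 0) = 0) ∨
      (∃ k m, ∃ c : F4, k < m ∧ m < r ∧ ∀ n < r, rho r n q + (if n = i then a else 0) =
        c * ((if n = k then 1 else 0) + F4.w * (if n = m then 1 else 0)))) := by
    intro i hir
    obtain ⟨p, hp, a, b, hpab⟩ := hy (Whr r i) ⟨i, hir, rfl⟩
    rw [Submodule.mem_bot] at hpab
    have hpP : p ∈ WhP r := by
      rcases hp with hp | hp
      · rw [hp]
        exact h0P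
      · exact hp
    have ha : a ≠ 0 := by
      rintro rfl
      rw [zero_smul, add_zero] at hpab
      exact hline p hpP b (vadd_eq_zero.1 hpab)
    refine ⟨a, ha, ?_⟩
    have hWi : Whr r i = e 0 i + e 0 (i + 1) := by
      rw [Whr, if_neg (by omega)]
    have hS : (∃ k m, ∀ n < r, n ≠ k → n ≠ m → p (0, n) = 0) →
        (∃ k m, ∀ n < r, n ≠ k → n ≠ m → q (0, n) + (if n = i ∨ n = i + 1 then a else 0) = 0) := by
      rintro ⟨k, m, h⟩
      refine ⟨k, m, fun n hn hnk hnm => ?_⟩
      have h5 := DFunLike.congr_fun hpab ((0 : ℕ), n)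
      rw [Finsupp.add_apply, Finsupp.add_apply, Finsupp.smul_apply, Finsupp.smul_apply,
        h n hn hnk hnm, smul_zero, add_zero, hWi, Finsupp.add_apply, hex, hex, smul_eq_mul,
        Finsupp.zero_apply] at h5
      have h8 : (if n = i ∨ n = i + 1 then a else 0) =
          a * ((if n = i then 1 else 0) + if n = i + 1 then 1 else 0) := by
        by_cases h6 : n = i
        · rw [if_pos (Or.inl h6), if_pos h6, if_neg (by omega), add_zero, mul_one]
        · by_cases h7 : n = i + 1
          · rw [if_pos (Or.inr h7), if_neg h6, if_pos h7, zero_add, mul_one]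
          · rw [if_neg (by omega), if_neg h6, if_neg h7, add_zero, mul_zero]
      rw [h8]
      exact h5
    rcases hpP with ((hpC | ⟨k, m, hkm, hm, hpe⟩) | ⟨k, m, hkm, hm, hpe⟩) | hp0
    · left
      apply hS
      rcases (GF1 (by omega) p).1 hpC with ⟨n, hn, hpn⟩ | ⟨n, hn, hpn⟩
      · refine ⟨n, n, fun m hm hmn _ => ?_⟩
        rw [hpn, hex, if_neg hmn]
      · by_cases h5 : n + 1 = r
        · refine ⟨n, 0, fun m hm hmn hm0 => ?_⟩
          rw [hpn, Whr, if_pos h5, Finsupp.add_apply, Finsupp.smul_apply, hex, hex, if_neg hmn,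
            if_neg hm0, smul_zero, add_zero]
        · refine ⟨n, n + 1, fun m hm hmn hm0 => ?_⟩
          rw [hpn, Whr, if_neg h5, Finsupp.add_apply, hex, hex, if_neg hmn,
            if_neg hm0, add_zero]
    · left
      apply hS
      refine ⟨k, m, fun n hn hnk hnm => ?_⟩
      rw [hpe, Finsupp.add_apply, Finsupp.smul_apply, hex, hex, if_neg hnk, if_neg hnm, smul_zero,
        add_zero]
    · right
      refine ⟨k, m, b, hkm, hm, fun n hn => ?_⟩
      have h5 := congrArg (rho r n) hpab
      rw [hpe, map_add, map_add, map_smul, map_smul, map_add, map_smul,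
        rho_rim (by omega) hn (by omega), rho_rim (by omega) hn (by omega),
        rho_rim (by omega) hn hm, map_zero] at h5
      have h6 := GF6_fa h5
      rw [smul_eq_mul, smul_eq_mul, smul_eq_mul] at h6
      have e1 : (if n = i then a else 0) = a * (if i = n then 1 else 0) := by
        by_cases h : n = i
        · rw [if_pos h, if_pos h.symm, mul_one]
        · rw [if_neg h, if_neg (fun h' => h h'.symm), mul_zero]
      have e2 : ∀ j : ℕ, (if n = j then (1 : F4) else 0) = (if j = n then 1 else 0) := by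
        intro j
        by_cases h : n = j
        · rw [if_pos h, if_pos h.symm]
        · rw [if_neg h, if_neg (fun h' => h h'.symm)]
      rw [e1, e2 k, e2 m]
      exact h6
    · left
      apply hS
      have hp0' : p = 0 := hp0
      exact ⟨0, 0, fun n _ _ _ => by rw [hp0']; rfl⟩
  exact GF6_comb hr hQρ hQ0 h1 h2 h3 hi

end QG
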