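import Pool.Agent.Lib.QG.GF2
import Pool.Agent.Lib.QG.GF3
import Pool.Agent.Lib.QG.GF5
import Pool.Agent.Lib.QG.GF6
import Pool.Agent.Lib.QG.GB3
import Pool.Agent.Lib.QG.GB4

/-! MP_2e6874_co, part (A), row GF7. -/

set_option autoImplicit false

namespace QG
open Set Matroid Submodule

private theorem GF7_Q {r : ℕ} (hr : 2 ≤ r) {p : VV} (hp : p ∈ WhP r) :
    p ∈ span F4 (WhC r) := by
  have he : ∀ n < r, e 0 n ∈ span F4 (WhC r) := fun n hn =>
    subset_span ((GF1 hr _).2 (Or.inl ⟨n, hn, rfl⟩))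
  have hw : ∀ n < r, Whr r n ∈ span F4 (WhC r) := fun n hn =>
    subset_span ((GF1 hr _).2 (Or.inr ⟨n, hn, rfl⟩))
  rcases hp with ((hp | ⟨i, j, hij, hj, rfl⟩) | ⟨i, j, hij, hj, rfl⟩) | hp
  · exact subset_span hp
  · exact add_mem (he i (hij.trans hj)) (smul_mem _ _ (he j hj))
  · exact add_mem (hw i (hij.trans hj)) (smul_mem _ _ (hw j hj))
  · rw [Set.mem_singleton_iff.1 hp]
    exact zero_mem _

private theorem GF7_four {r : ℕ} (hr : 6 ≤ r) : FourK ⊥ (WhR r) := by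
  refine ⟨fun j => Whr r j, fun j => ⟨j, by have := j.2; omega, rfl⟩, ?_⟩
  intro c hc
  rw [Submodule.mem_bot] at hc
  have h2 : 2 ≤ r := by omega
  have key : ∀ n, n < 4 → ∀ k, k < 4 → rho r n (Whr r k) = if k = n then 1 else 0 :=
    fun n hn k hk => rho_rim h2 (by omega) (by omega)
  have hat : ∀ n, rho r n (c 0 • Whr r ((0 : Fin 4) : ℕ) + c 1 • Whr r ((1 : Fin 4) : ℕ) +
      c 2 • Whr r ((2 : Fin 4) : ℕ) + c 3 • Whr r ((3 : Fin 4) : ℕ)) = 0 := by
    intro n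
    rw [hc, map_zero]
  have c0 : ((0 : Fin 4) : ℕ) = 0 := rfl
  have c1 : ((1 : Fin 4) : ℕ) = 1 := rfl
  have c2 : ((2 : Fin 4) : ℕ) = 2 := rfl
  have c3 : ((3 : Fin 4) : ℕ) = 3 := rfl
  simp only [map_add, map_smul, smul_eq_mul, c0, c1, c2, c3] at hat
  intro j
  fin_cases j
  · have := hat 0
    rw [key 0 (by norm_num) 0 (by norm_num), key 0 (by norm_num) 1 (by norm_num),
      key 0 (by norm_num) 2 (by norm_num), key 0 (by norm_num) 3 (by norm_num)] at this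
    simpa using this
  · have := hat 1
    rw [key 1 (by norm_num) 0 (by norm_num), key 1 (by norm_num) 1 (by norm_num),
      key 1 (by norm_num) 2 (by norm_num), key 1 (by norm_num) 3 (by norm_num)] at this
    simpa using this
  · have := hat 2
    rw [key 2 (by norm_num) 0 (by norm_num), key 2 (by norm_num) 1 (by norm_num),
      key 2 (by norm_num) 2 (by norm_num), key 2 (by norm_num) 3 (by norm_num)] at this
    simpa using this
  · have := hat 3
    rw [key 3 (by norm_num) 0 (by norm_num), key 3 (by norm_num) 1 (by norm_num),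
      key 3 (by norm_num) 2 (by norm_num), key 3 (by norm_num) 3 (by norm_num)] at this
    simpa using this

/-- GF7 (= T7). (`stepK`, `concK`, GF1 .. GF6) -/
theorem GF7 {r : ℕ} (hr : 6 ≤ r) (h : AK ⊥ (WhC (r - 1)) (WhP (r - 1))) :
    AK ⊥ (WhC r) (WhP r) := by
  have h2 : 2 ≤ r := by omega
  have hRC : WhR r ⊆ WhC r := by
    rintro x ⟨n, hn, rfl⟩
    exact (GF1 h2 _).2 (Or.inr ⟨n, by omega, rfl⟩)
  have hinj : ∀ y ∈ WhR r, ∀ y' ∈ WhR r, y + y' ∈ (⊥ : Submodule F4 VV) → y = y' := by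
    intro y _ y' _ h
    exact vadd_eq_zero.1 ((Submodule.mem_bot F4).1 h)
  have hR0 : ∀ y ∈ WhR r, y ∉ (⊥ : Submodule F4 VV) := by
    rintro y ⟨n, hn, rfl⟩ h
    have h1 := rho_rim h2 (n := n) (k := n) (by omega) (by omega)
    rw [(Submodule.mem_bot F4).1 h, map_zero, if_pos rfl] at h1
    exact (by decide : (0 : F4) ≠ 1) h1
  have hQ : ∀ y ∈ WhR r, ∀ p ∈ WhP r, p ∈ span F4 (WhC r) ⊔ (⊥ : Submodule F4 VV) := by
    intro y _ p hp
    rw [sup_bot_eq]
    exact GF7_Q h2 hp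
  refine stepK (R := WhR r) (Q := fun _ => WhP r) ⟨Whr r 0, 0, by omega, rfl⟩ hRC hinj hR0 ?_ hQ
    ?_ ?_ (GF3 (by omega)) (concK hRC hinj hR0 hQ (GF7_four hr) (GF5 hr) (GF6 hr))
  · rintro y ⟨n, hn, rfl⟩
    exact GF2 (by omega) hn h
  · exact fun x hx => Or.inl (Or.inl (Or.inl hx))
  · exact Or.inr rfl

end QG
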