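import Pool.Agent.Lib.QG.MA2
import Pool.Agent.Lib.QG.SPd

/-! MP_2e6874_co, row MA3: the three matroids are not gammoids. -/

set_option autoImplicit false
set_option maxRecDepth 100000

namespace QG
open Set Matroid

def FSa (i : ℕ) : Finset (Fin 8) :=
  [({0, 2, 3, 5} : Finset (Fin 8)), ({1, 2, 3, 6} : Finset (Fin 8)), ({2, 4, 5, 7} : Finset (Fin 8)), ({3, 5, 6, 7} : Finset (Fin 8)), ({0, 1, 4, 6, 7} : Finset (Fin 8))].getD i ∅

private theorem ma3_Sa_p (f : ℕ → ℤ) : msum 5 (2 ^ 5 - 1) 0 f =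
    (0 + (f 1 + (f 2 + (- f 3 + (f 4 + (- f 5 + (- f 6 + (f 7 + (f 8 + (- f 9 + (- f 10 + (f 11 + (- f 12 + (f 13 + (f 14 + (- f 15 + (f 16 + (- f 17 + (- f 18 + (f 19 + (- f 20 + (f 21 + (f 22 + (- f 23 + (- f 24 + (f 25 + (f 26 + (- f 27 + (f 28 + (- f 29 + (- f 30 + (f 31 + 0)))))))))))))))))))))))))))))))) := by
  rfl

private theorem ma3_Sa_l0 (f : ℕ → ℤ) : msum 5 30 (2 ^ 0) f =
    (0 + (0 + (f 3 + (0 + (f 5 + (0 + (- f 7 + (0 + (f 9 + (0 + (- f 11 + (0 + (- f 13 + (0 + (f 15 + (0 + (f 17 + (0 + (- f 19 + (0 + (- f 21 + (0 + (f 23 + (0 + (- f 25 + (0 + (f 27 + (0 + (f 29 + (0 + (- f 31 + (0 + 0)))))))))))))))))))))))))))))))) := by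
  rfl

private theorem ma3_Sa_l1 (f : ℕ → ℤ) : msum 5 29 (2 ^ 1) f =
    (0 + (f 3 + (0 + (0 + (f 6 + (- f 7 + (0 + (0 + (f 10 + (- f 11 + (0 + (0 + (- f 14 + (f 15 + (0 + (0 + (f 18 + (- f 19 + (0 + (0 + (- f 22 + (f 23 + (0 + (0 + (- f 26 + (f 27 + (0 + (0 + (f 30 + (- f 31 + (0 + (0 + 0)))))))))))))))))))))))))))))))) := by
  rfl

private theorem ma3_Sa_l2 (f : ℕ → ℤ) : msum 5 27 (2 ^ 2) f =
    (0 + (f 5 + (f 6 + (- f 7 + (0 + (0 + (0 + (0 + (f 12 + (- f 13 + (- f 14 + (f 15 + (0 + (0 + (0 + (0 + (f 20 + (- f 21 + (- f 22 + (f 23 + (0 + (0 + (0 + (0 + (- f 28 + (f 29 + (f 30 + (- f 31 + (0 + (0 + (0 + (0 + 0)))))))))))))))))))))))))))))))) := by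
  rfl

theorem not_gammoid_Sa {α : Type} {M : Matroid α} (h : IsL 8 4 LSa M) : ¬ Gammoid M := by
  intro hG
  obtain ⟨e, he⟩ := h
  obtain ⟨r, P⟩ := EL.planes (e := e) (L := LSa) he hG (by decide +kernel) 5 (by omega) FSa
    (by decide +kernel) (by decide +kernel)
    (by intro i hi j hj hij; interval_cases i <;> interval_cases j <;> first | exact absurd rfl hij | decide +kernel)
  have h1 : r 1 = 3 := P.one 0 (by omega)
  have h2 : r 2 = 3 := P.one 1 (by omega)
  have h4 : r 4 = 3 := P.one 2 (by omega)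
  have h8 : r 8 = 3 := P.one 3 (by omega)
  have h16 : r 16 = 3 := P.one 4 (by omega)
  have a3 : 2 ≤ r 3 := P.pt2 3 (by decide) (by decide) 2 3 (by decide) (by decide +kernel)
  have b3 : r 3 ≤ 2 := P.two 3 (by decide) (by decide)
  have h3 : r 3 = 2 := by omega
  have a5 : 2 ≤ r 5 := P.pt2 5 (by decide) (by decide) 2 5 (by decide) (by decide +kernel)
  have b5 : r 5 ≤ 2 := P.two 5 (by decide) (by decide)
  have h5 : r 5 = 2 := by omega
  have a6 : 1 ≤ r 6 := P.pt 6 (by decide) (by decide) 2 (by decide +kernel)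
  have b6 : r 6 ≤ 2 := P.two 6 (by decide) (by decide)
  have a9 : 2 ≤ r 9 := P.pt2 9 (by decide) (by decide) 3 5 (by decide) (by decide +kernel)
  have b9 : r 9 ≤ 2 := P.two 9 (by decide) (by decide)
  have h9 : r 9 = 2 := by omega
  have a10 : 2 ≤ r 10 := P.pt2 10 (by decide) (by decide) 3 6 (by decide) (by decide +kernel)
  have b10 : r 10 ≤ 2 := P.two 10 (by decide) (by decide)
  have h10 : r 10 = 2 := by omega
  have a12 : 2 ≤ r 12 := P.pt2 12 (by decide) (by decide) 5 7 (by decide) (by decide +kernel)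
  have b12 : r 12 ≤ 2 := P.two 12 (by decide) (by decide)
  have h12 : r 12 = 2 := by omega
  have a17 : 1 ≤ r 17 := P.pt 17 (by decide) (by decide) 0 (by decide +kernel)
  have b17 : r 17 ≤ 2 := P.two 17 (by decide) (by decide)
  have a18 : 2 ≤ r 18 := P.pt2 18 (by decide) (by decide) 1 6 (by decide) (by decide +kernel)
  have b18 : r 18 ≤ 2 := P.two 18 (by decide) (by decide)
  have h18 : r 18 = 2 := by omega
  have a20 : 2 ≤ r 20 := P.pt2 20 (by decide) (by decide) 4 7 (by decide) (by decide +kernel)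
  have b20 : r 20 ≤ 2 := P.two 20 (by decide) (by decide)
  have h20 : r 20 = 2 := by omega
  have a24 : 2 ≤ r 24 := P.pt2 24 (by decide) (by decide) 6 7 (by decide) (by decide +kernel)
  have b24 : r 24 ≤ 2 := P.two 24 (by decide) (by decide)
  have h24 : r 24 = 2 := by omega
  have a7 : 1 ≤ r 7 := P.pt 7 (by decide) (by decide) 2 (by decide +kernel)
  have b7 : r 7 + 1 ≤ r 5 := P.lt 5 (by decide) (by decide) 1 (by decide) 5 (by decide +kernel) (by decide +kernel)
  have h7 : r 7 = 1 := by omega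
  have a11 : 1 ≤ r 11 := P.pt 11 (by decide) (by decide) 3 (by decide +kernel)
  have b11 : r 11 + 1 ≤ r 10 := P.lt 10 (by decide) (by decide) 0 (by decide) 6 (by decide +kernel) (by decide +kernel)
  have h11 : r 11 = 1 := by omega
  have a13 : 1 ≤ r 13 := P.pt 13 (by decide) (by decide) 5 (by decide +kernel)
  have b13 : r 13 + 1 ≤ r 12 := P.lt 12 (by decide) (by decide) 0 (by decide) 7 (by decide +kernel) (by decide +kernel)
  have h13 : r 13 = 1 := by omega
  have b14 : r 14 + 1 ≤ r 12 := P.lt 12 (by decide) (by decide) 1 (by decide) 5 (by decide +kernel) (by decide +kernel)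
  have c14_3 : r 14 + 1 ≤ r 6 := P.lt 6 (by decide) (by decide) 3 (by decide) 2 (by decide +kernel) (by decide +kernel)
  have b19 : r 19 + 1 ≤ r 18 := P.lt 18 (by decide) (by decide) 0 (by decide) 1 (by decide +kernel) (by decide +kernel)
  have c19_1 : r 19 + 1 ≤ r 17 := P.lt 17 (by decide) (by decide) 1 (by decide) 0 (by decide +kernel) (by decide +kernel)
  have b21 : r 21 + 1 ≤ r 20 := P.lt 20 (by decide) (by decide) 0 (by decide) 4 (by decide +kernel) (by decide +kernel)
  have c21_2 : r 21 + 1 ≤ r 17 := P.lt 17 (by decide) (by decide) 2 (by decide) 0 (by decide +kernel) (by decide +kernel)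
  have b22 : r 22 + 1 ≤ r 20 := P.lt 20 (by decide) (by decide) 1 (by decide) 4 (by decide +kernel) (by decide +kernel)
  have c22_4 : r 22 + 1 ≤ r 6 := P.lt 6 (by decide) (by decide) 4 (by decide) 2 (by decide +kernel) (by decide +kernel)
  have b25 : r 25 + 1 ≤ r 24 := P.lt 24 (by decide) (by decide) 0 (by decide) 6 (by decide +kernel) (by decide +kernel)
  have c25_3 : r 25 + 1 ≤ r 17 := P.lt 17 (by decide) (by decide) 3 (by decide) 0 (by decide +kernel) (by decide +kernel)
  have a26 : 1 ≤ r 26 := P.pt 26 (by decide) (by decide) 6 (by decide +kernel)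
  have b26 : r 26 + 1 ≤ r 24 := P.lt 24 (by decide) (by decide) 1 (by decide) 7 (by decide +kernel) (by decide +kernel)
  have h26 : r 26 = 1 := by omega
  have a28 : 1 ≤ r 28 := P.pt 28 (by decide) (by decide) 7 (by decide +kernel)
  have b28 : r 28 + 1 ≤ r 24 := P.lt 24 (by decide) (by decide) 2 (by decide) 6 (by decide +kernel) (by decide +kernel)
  have h28 : r 28 = 1 := by omega
  have b15 : r 15 + 1 ≤ r 13 := P.lt 13 (by decide) (by decide) 1 (by decide) 5 (by decide +kernel) (by decide +kernel)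
  have h15 : r 15 = 0 := by omega
  have b23 : r 23 + 1 ≤ r 7 := P.lt 7 (by decide) (by decide) 4 (by decide) 2 (by decide +kernel) (by decide +kernel)
  have h23 : r 23 = 0 := by omega
  have b27 : r 27 + 1 ≤ r 26 := P.lt 26 (by decide) (by decide) 0 (by decide) 6 (by decide +kernel) (by decide +kernel)
  have h27 : r 27 = 0 := by omega
  have b29 : r 29 + 1 ≤ r 28 := P.lt 28 (by decide) (by decide) 0 (by decide) 7 (by decide +kernel) (by decide +kernel)
  have h29 : r 29 = 0 := by omega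
  have b30 : r 30 + 1 ≤ r 28 := P.lt 28 (by decide) (by decide) 1 (by decide) 7 (by decide +kernel) (by decide +kernel)
  have h30 : r 30 = 0 := by omega
  have b31 : r 31 ≤ r 30 := P.mono 30 (by decide) (by decide) 0 (by decide)
  have h31 : r 31 = 0 := by omega
  have hp := P.plane
  rw [ma3_Sa_p] at hp
  have hl0 := P.line 0 (by decide) 30 (by decide) (by decide) ⟨{0, 1, 2, 3}, by decide, by decide +kernel, by decide +kernel⟩
  rw [ma3_Sa_l0] at hl0
  have hl1 := P.line 1 (by decide) 29 (by decide) (by decide) ⟨{0, 1, 2, 3}, by decide, by decide +kernel, by decide +kernel⟩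
  rw [ma3_Sa_l1] at hl1
  have hl2 := P.line 2 (by decide) 27 (by decide) (by decide) ⟨{0, 2, 4, 5}, by decide, by decide +kernel, by decide +kernel⟩
  rw [ma3_Sa_l2] at hl2
  simp only [h1, h2, h3, h4, h5, h7, h8, h9, h10, h11, h12, h13, h15, h16, h18, h20, h23, h24, h26, h27, h28, h29, h30, h31] at hp hl0 hl1 hl2
  omega

def FSb (i : ℕ) : Finset (Fin 8) :=
  [({0, 2, 3, 5} : Finset (Fin 8)), ({1, 2, 3, 6} : Finset (Fin 8)), ({2, 4, 5, 7} : Finset (Fin 8)), ({1, 5, 6, 7} : Finset (Fin 8)), ({0, 1, 3, 4, 7} : Finset (Fin 8))].getD i ∅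

private theorem ma3_Sb_p (f : ℕ → ℤ) : msum 5 (2 ^ 5 - 1) 0 f =
    (0 + (f 1 + (f 2 + (- f 3 + (f 4 + (- f 5 + (- f 6 + (f 7 + (f 8 + (- f 9 + (- f 10 + (f 11 + (- f 12 + (f 13 + (f 14 + (- f 15 + (f 16 + (- f 17 + (- f 18 + (f 19 + (- f 20 + (f 21 + (f 22 + (- f 23 + (- f 24 + (f 25 + (f 26 + (- f 27 + (f 28 + (- f 29 + (- f 30 + (f 31 + 0)))))))))))))))))))))))))))))))) := by
  rfl

private theorem ma3_Sb_l0 (f : ℕ → ℤ) : msum 5 30 (2 ^ 0) f =
    (0 + (0 + (f 3 + (0 + (f 5 + (0 + (- f 7 + (0 + (f 9 + (0 + (- f 11 + (0 + (- f 13 + (0 + (f 15 + (0 + (f 17 + (0 + (- f 19 + (0 + (- f 21 + (0 + (f 23 + (0 + (- f 25 + (0 + (f 27 + (0 + (f 29 + (0 + (- f 31 + (0 + 0)))))))))))))))))))))))))))))))) := by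
  rfl

private theorem ma3_Sb_l1 (f : ℕ → ℤ) : msum 5 27 (2 ^ 2) f =
    (0 + (f 5 + (f 6 + (- f 7 + (0 + (0 + (0 + (0 + (f 12 + (- f 13 + (- f 14 + (f 15 + (0 + (0 + (0 + (0 + (f 20 + (- f 21 + (- f 22 + (f 23 + (0 + (0 + (0 + (0 + (- f 28 + (f 29 + (f 30 + (- f 31 + (0 + (0 + (0 + (0 + 0)))))))))))))))))))))))))))))))) := by
  rfl

private theorem ma3_Sb_l2 (f : ℕ → ℤ) : msum 5 29 (2 ^ 1) f =
    (0 + (f 3 + (0 + (0 + (f 6 + (- f 7 + (0 + (0 + (f 10 + (- f 11 + (0 + (0 + (- f 14 + (f 15 + (0 + (0 + (f 18 + (- f 19 + (0 + (0 + (- f 22 + (f 23 + (0 + (0 + (- f 26 + (f 27 + (0 + (0 + (f 30 + (- f 31 + (0 + (0 + 0)))))))))))))))))))))))))))))))) := by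
  rfl

theorem not_gammoid_Sb {α : Type} {M : Matroid α} (h : IsL 8 4 LSb M) : ¬ Gammoid M := by
  intro hG
  obtain ⟨e, he⟩ := h
  obtain ⟨r, P⟩ := EL.planes (e := e) (L := LSb) he hG (by decide +kernel) 5 (by omega) FSb
    (by decide +kernel) (by decide +kernel)
    (by intro i hi j hj hij; interval_cases i <;> interval_cases j <;> first | exact absurd rfl hij | decide +kernel)
  have h1 : r 1 = 3 := P.one 0 (by omega)
  have h2 : r 2 = 3 := P.one 1 (by omega)
  have h4 : r 4 = 3 := P.one 2 (by omega)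
  have h8 : r 8 = 3 := P.one 3 (by omega)
  have h16 : r 16 = 3 := P.one 4 (by omega)
  have a3 : 2 ≤ r 3 := P.pt2 3 (by decide) (by decide) 2 3 (by decide) (by decide +kernel)
  have b3 : r 3 ≤ 2 := P.two 3 (by decide) (by decide)
  have h3 : r 3 = 2 := by omega
  have a5 : 2 ≤ r 5 := P.pt2 5 (by decide) (by decide) 2 5 (by decide) (by decide +kernel)
  have b5 : r 5 ≤ 2 := P.two 5 (by decide) (by decide)
  have h5 : r 5 = 2 := by omega
  have a6 : 1 ≤ r 6 := P.pt 6 (by decide) (by decide) 2 (by decide +kernel)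
  have b6 : r 6 ≤ 2 := P.two 6 (by decide) (by decide)
  have a9 : 1 ≤ r 9 := P.pt 9 (by decide) (by decide) 5 (by decide +kernel)
  have b9 : r 9 ≤ 2 := P.two 9 (by decide) (by decide)
  have a10 : 2 ≤ r 10 := P.pt2 10 (by decide) (by decide) 1 6 (by decide) (by decide +kernel)
  have b10 : r 10 ≤ 2 := P.two 10 (by decide) (by decide)
  have h10 : r 10 = 2 := by omega
  have a12 : 2 ≤ r 12 := P.pt2 12 (by decide) (by decide) 5 7 (by decide) (by decide +kernel)
  have b12 : r 12 ≤ 2 := P.two 12 (by decide) (by decide)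
  have h12 : r 12 = 2 := by omega
  have a17 : 2 ≤ r 17 := P.pt2 17 (by decide) (by decide) 0 3 (by decide) (by decide +kernel)
  have b17 : r 17 ≤ 2 := P.two 17 (by decide) (by decide)
  have h17 : r 17 = 2 := by omega
  have a18 : 2 ≤ r 18 := P.pt2 18 (by decide) (by decide) 1 3 (by decide) (by decide +kernel)
  have b18 : r 18 ≤ 2 := P.two 18 (by decide) (by decide)
  have h18 : r 18 = 2 := by omega
  have a20 : 2 ≤ r 20 := P.pt2 20 (by decide) (by decide) 4 7 (by decide) (by decide +kernel)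
  have b20 : r 20 ≤ 2 := P.two 20 (by decide) (by decide)
  have h20 : r 20 = 2 := by omega
  have a24 : 2 ≤ r 24 := P.pt2 24 (by decide) (by decide) 1 7 (by decide) (by decide +kernel)
  have b24 : r 24 ≤ 2 := P.two 24 (by decide) (by decide)
  have h24 : r 24 = 2 := by omega
  have a7 : 1 ≤ r 7 := P.pt 7 (by decide) (by decide) 2 (by decide +kernel)
  have b7 : r 7 + 1 ≤ r 5 := P.lt 5 (by decide) (by decide) 1 (by decide) 5 (by decide +kernel) (by decide +kernel)
  have h7 : r 7 = 1 := by omega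
  have b11 : r 11 + 1 ≤ r 10 := P.lt 10 (by decide) (by decide) 0 (by decide) 1 (by decide +kernel) (by decide +kernel)
  have c11_1 : r 11 + 1 ≤ r 9 := P.lt 9 (by decide) (by decide) 1 (by decide) 5 (by decide +kernel) (by decide +kernel)
  have a13 : 1 ≤ r 13 := P.pt 13 (by decide) (by decide) 5 (by decide +kernel)
  have b13 : r 13 + 1 ≤ r 12 := P.lt 12 (by decide) (by decide) 0 (by decide) 7 (by decide +kernel) (by decide +kernel)
  have h13 : r 13 = 1 := by omega
  have b14 : r 14 + 1 ≤ r 12 := P.lt 12 (by decide) (by decide) 1 (by decide) 5 (by decide +kernel) (by decide +kernel)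
  have c14_3 : r 14 + 1 ≤ r 6 := P.lt 6 (by decide) (by decide) 3 (by decide) 2 (by decide +kernel) (by decide +kernel)
  have a19 : 1 ≤ r 19 := P.pt 19 (by decide) (by decide) 3 (by decide +kernel)
  have b19 : r 19 + 1 ≤ r 18 := P.lt 18 (by decide) (by decide) 0 (by decide) 1 (by decide +kernel) (by decide +kernel)
  have h19 : r 19 = 1 := by omega
  have b21 : r 21 + 1 ≤ r 20 := P.lt 20 (by decide) (by decide) 0 (by decide) 4 (by decide +kernel) (by decide +kernel)
  have b22 : r 22 + 1 ≤ r 20 := P.lt 20 (by decide) (by decide) 1 (by decide) 4 (by decide +kernel) (by decide +kernel)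
  have c22_4 : r 22 + 1 ≤ r 6 := P.lt 6 (by decide) (by decide) 4 (by decide) 2 (by decide +kernel) (by decide +kernel)
  have b25 : r 25 + 1 ≤ r 24 := P.lt 24 (by decide) (by decide) 0 (by decide) 1 (by decide +kernel) (by decide +kernel)
  have c25_4 : r 25 + 1 ≤ r 9 := P.lt 9 (by decide) (by decide) 4 (by decide) 5 (by decide +kernel) (by decide +kernel)
  have a26 : 1 ≤ r 26 := P.pt 26 (by decide) (by decide) 1 (by decide +kernel)
  have b26 : r 26 + 1 ≤ r 24 := P.lt 24 (by decide) (by decide) 1 (by decide) 7 (by decide +kernel) (by decide +kernel)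
  have h26 : r 26 = 1 := by omega
  have a28 : 1 ≤ r 28 := P.pt 28 (by decide) (by decide) 7 (by decide +kernel)
  have b28 : r 28 + 1 ≤ r 24 := P.lt 24 (by decide) (by decide) 2 (by decide) 1 (by decide +kernel) (by decide +kernel)
  have h28 : r 28 = 1 := by omega
  have b15 : r 15 + 1 ≤ r 13 := P.lt 13 (by decide) (by decide) 1 (by decide) 5 (by decide +kernel) (by decide +kernel)
  have h15 : r 15 = 0 := by omega
  have b23 : r 23 + 1 ≤ r 19 := P.lt 19 (by decide) (by decide) 2 (by decide) 3 (by decide +kernel) (by decide +kernel)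
  have h23 : r 23 = 0 := by omega
  have b27 : r 27 + 1 ≤ r 26 := P.lt 26 (by decide) (by decide) 0 (by decide) 1 (by decide +kernel) (by decide +kernel)
  have h27 : r 27 = 0 := by omega
  have b29 : r 29 + 1 ≤ r 28 := P.lt 28 (by decide) (by decide) 0 (by decide) 7 (by decide +kernel) (by decide +kernel)
  have h29 : r 29 = 0 := by omega
  have b30 : r 30 + 1 ≤ r 28 := P.lt 28 (by decide) (by decide) 1 (by decide) 7 (by decide +kernel) (by decide +kernel)
  have h30 : r 30 = 0 := by omega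
  have b31 : r 31 ≤ r 30 := P.mono 30 (by decide) (by decide) 0 (by decide)
  have h31 : r 31 = 0 := by omega
  have hp := P.plane
  rw [ma3_Sb_p] at hp
  have hl0 := P.line 0 (by decide) 30 (by decide) (by decide) ⟨{0, 1, 2, 3}, by decide, by decide +kernel, by decide +kernel⟩
  rw [ma3_Sb_l0] at hl0
  have hl1 := P.line 2 (by decide) 27 (by decide) (by decide) ⟨{0, 2, 4, 5}, by decide, by decide +kernel, by decide +kernel⟩
  rw [ma3_Sb_l1] at hl1
  have hl2 := P.line 1 (by decide) 29 (by decide) (by decide) ⟨{0, 1, 2, 3}, by decide, by decide +kernel, by decide +kernel⟩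
  rw [ma3_Sb_l2] at hl2
  simp only [h1, h2, h3, h4, h5, h7, h8, h10, h12, h13, h15, h16, h17, h18, h19, h20, h23, h24, h26, h27, h28, h29, h30, h31] at hp hl0 hl1 hl2
  omega

def FSc (i : ℕ) : Finset (Fin 8) :=
  [({0, 1, 3, 5} : Finset (Fin 8)), ({2, 3, 4, 5} : Finset (Fin 8)), ({0, 1, 2, 6} : Finset (Fin 8)), ({1, 3, 4, 6} : Finset (Fin 8)), ({1, 2, 5, 7} : Finset (Fin 8)), ({0, 3, 6, 7} : Finset (Fin 8))].getD i ∅

private theorem ma3_Sc_p (f : ℕ → ℤ) : msum 6 (2 ^ 6 - 1) 0 f =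
    (0 + (f 1 + (f 2 + (- f 3 + (f 4 + (- f 5 + (- f 6 + (f 7 + (f 8 + (- f 9 + (- f 10 + (f 11 + (- f 12 + (f 13 + (f 14 + (- f 15 + (f 16 + (- f 17 + (- f 18 + (f 19 + (- f 20 + (f 21 + (f 22 + (- f 23 + (- f 24 + (f 25 + (f 26 + (- f 27 + (f 28 + (- f 29 + (- f 30 + (f 31 + (f 32 + (- f 33 + (- f 34 + (f 35 + (- f 36 + (f 37 + (f 38 + (- f 39 + (- f 40 + (f 41 + (f 42 + (- f 43 + (f 44 + (- f 45 + (- f 46 + (f 47 + (- f 48 + (f 49 + (f 50 + (- f 51 + (f 52 + (- f 53 + (- f 54 + (f 55 + (f 56 + (- f 57 + (- f 58 + (f 59 + (- f 60 + (f 61 + (f 62 + (- f 63 + 0)))))))))))))))))))))))))))))))))))))))))))))))))))))))))))))))) := by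
  rfl

private theorem ma3_Sc_l0 (f : ℕ → ℤ) : msum 6 59 (2 ^ 2) f =
    (0 + (f 5 + (f 6 + (- f 7 + (0 + (0 + (0 + (0 + (f 12 + (- f 13 + (- f 14 + (f 15 + (0 + (0 + (0 + (0 + (f 20 + (- f 21 + (- f 22 + (f 23 + (0 + (0 + (0 + (0 + (- f 28 + (f 29 + (f 30 + (- f 31 + (0 + (0 + (0 + (0 + (f 36 + (- f 37 + (- f 38 + (f 39 + (0 + (0 + (0 + (0 + (- f 44 + (f 45 + (f 46 + (- f 47 + (0 + (0 + (0 + (0 + (- f 52 + (f 53 + (f 54 + (- f 55 + (0 + (0 + (0 + (0 + (f 60 + (- f 61 + (- f 62 + (f 63 + (0 + (0 + (0 + (0 + 0)))))))))))))))))))))))))))))))))))))))))))))))))))))))))))))))) := by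
  rfl

private theorem ma3_Sc_l1 (f : ℕ → ℤ) : msum 6 47 (2 ^ 4) f =
    (0 + (f 17 + (f 18 + (- f 19 + (f 20 + (- f 21 + (- f 22 + (f 23 + (f 24 + (- f 25 + (- f 26 + (f 27 + (- f 28 + (f 29 + (f 30 + (- f 31 + (0 + (0 + (0 + (0 + (0 + (0 + (0 + (0 + (0 + (0 + (0 + (0 + (0 + (0 + (0 + (0 + (f 48 + (- f 49 + (- f 50 + (f 51 + (- f 52 + (f 53 + (f 54 + (- f 55 + (- f 56 + (f 57 + (f 58 + (- f 59 + (f 60 + (- f 61 + (- f 62 + (f 63 + (0 + (0 + (0 + (0 + (0 + (0 + (0 + (0 + (0 + (0 + (0 + (0 + (0 + (0 + (0 + (0 + 0)))))))))))))))))))))))))))))))))))))))))))))))))))))))))))))))) := by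
  rfl

private theorem ma3_Sc_l2 (f : ℕ → ℤ) : msum 6 54 (2 ^ 0) f =
    (0 + (0 + (f 3 + (0 + (f 5 + (0 + (- f 7 + (0 + (0 + (0 + (0 + (0 + (0 + (0 + (0 + (0 + (f 17 + (0 + (- f 19 + (0 + (- f 21 + (0 + (f 23 + (0 + (0 + (0 + (0 + (0 + (0 + (0 + (0 + (0 + (f 33 + (0 + (- f 35 + (0 + (- f 37 + (0 + (f 39 + (0 + (0 + (0 + (0 + (0 + (0 + (0 + (0 + (0 + (- f 49 + (0 + (f 51 + (0 + (f 53 + (0 + (- f 55 + (0 + (0 + (0 + (0 + (0 + (0 + (0 + (0 + (0 + 0)))))))))))))))))))))))))))))))))))))))))))))))))))))))))))))))) := by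
  rfl

theorem not_gammoid_Sc {α : Type} {M : Matroid α} (h : IsL 8 4 LSc M) : ¬ Gammoid M := by
  intro hG
  obtain ⟨e, he⟩ := h
  obtain ⟨r, P⟩ := EL.planes (e := e) (L := LSc) he hG (by decide +kernel) 6 (by omega) FSc
    (by decide +kernel) (by decide +kernel)
    (by intro i hi j hj hij; interval_cases i <;> interval_cases j <;> first | exact absurd rfl hij | decide +kernel)
  have h1 : r 1 = 3 := P.one 0 (by omega)
  have h2 : r 2 = 3 := P.one 1 (by omega)
  have h4 : r 4 = 3 := P.one 2 (by omega)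
  have h8 : r 8 = 3 := P.one 3 (by omega)
  have h16 : r 16 = 3 := P.one 4 (by omega)
  have h32 : r 32 = 3 := P.one 5 (by omega)
  have a3 : 2 ≤ r 3 := P.pt2 3 (by decide) (by decide) 3 5 (by decide) (by decide +kernel)
  have b3 : r 3 ≤ 2 := P.two 3 (by decide) (by decide)
  have h3 : r 3 = 2 := by omega
  have a5 : 2 ≤ r 5 := P.pt2 5 (by decide) (by decide) 0 1 (by decide) (by decide +kernel)
  have b5 : r 5 ≤ 2 := P.two 5 (by decide) (by decide)
  have h5 : r 5 = 2 := by omega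
  have a6 : 1 ≤ r 6 := P.pt 6 (by decide) (by decide) 2 (by decide +kernel)
  have b6 : r 6 ≤ 2 := P.two 6 (by decide) (by decide)
  have a9 : 2 ≤ r 9 := P.pt2 9 (by decide) (by decide) 1 3 (by decide) (by decide +kernel)
  have b9 : r 9 ≤ 2 := P.two 9 (by decide) (by decide)
  have h9 : r 9 = 2 := by omega
  have a10 : 2 ≤ r 10 := P.pt2 10 (by decide) (by decide) 3 4 (by decide) (by decide +kernel)
  have b10 : r 10 ≤ 2 := P.two 10 (by decide) (by decide)
  have h10 : r 10 = 2 := by omega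
  have a12 : 2 ≤ r 12 := P.pt2 12 (by decide) (by decide) 1 6 (by decide) (by decide +kernel)
  have b12 : r 12 ≤ 2 := P.two 12 (by decide) (by decide)
  have h12 : r 12 = 2 := by omega
  have a17 : 2 ≤ r 17 := P.pt2 17 (by decide) (by decide) 1 5 (by decide) (by decide +kernel)
  have b17 : r 17 ≤ 2 := P.two 17 (by decide) (by decide)
  have h17 : r 17 = 2 := by omega
  have a18 : 2 ≤ r 18 := P.pt2 18 (by decide) (by decide) 2 5 (by decide) (by decide +kernel)
  have b18 : r 18 ≤ 2 := P.two 18 (by decide) (by decide)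
  have h18 : r 18 = 2 := by omega
  have a20 : 2 ≤ r 20 := P.pt2 20 (by decide) (by decide) 1 2 (by decide) (by decide +kernel)
  have b20 : r 20 ≤ 2 := P.two 20 (by decide) (by decide)
  have h20 : r 20 = 2 := by omega
  have a24 : 1 ≤ r 24 := P.pt 24 (by decide) (by decide) 1 (by decide +kernel)
  have b24 : r 24 ≤ 2 := P.two 24 (by decide) (by decide)
  have a33 : 2 ≤ r 33 := P.pt2 33 (by decide) (by decide) 0 3 (by decide) (by decide +kernel)
  have b33 : r 33 ≤ 2 := P.two 33 (by decide) (by decide)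
  have h33 : r 33 = 2 := by omega
  have a34 : 1 ≤ r 34 := P.pt 34 (by decide) (by decide) 3 (by decide +kernel)
  have b34 : r 34 ≤ 2 := P.two 34 (by decide) (by decide)
  have a36 : 2 ≤ r 36 := P.pt2 36 (by decide) (by decide) 0 6 (by decide) (by decide +kernel)
  have b36 : r 36 ≤ 2 := P.two 36 (by decide) (by decide)
  have h36 : r 36 = 2 := by omega
  have a40 : 2 ≤ r 40 := P.pt2 40 (by decide) (by decide) 3 6 (by decide) (by decide +kernel)
  have b40 : r 40 ≤ 2 := P.two 40 (by decide) (by decide)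
  have h40 : r 40 = 2 := by omega
  have a48 : 1 ≤ r 48 := P.pt 48 (by decide) (by decide) 7 (by decide +kernel)
  have b48 : r 48 ≤ 2 := P.two 48 (by decide) (by decide)
  have b7 : r 7 + 1 ≤ r 6 := P.lt 6 (by decide) (by decide) 0 (by decide) 2 (by decide +kernel) (by decide +kernel)
  have c7_0 : r 7 + 1 ≤ r 6 := P.lt 6 (by decide) (by decide) 0 (by decide) 2 (by decide +kernel) (by decide +kernel)
  have a11 : 1 ≤ r 11 := P.pt 11 (by decide) (by decide) 3 (by decide +kernel)
  have b11 : r 11 + 1 ≤ r 10 := P.lt 10 (by decide) (by decide) 0 (by decide) 4 (by decide +kernel) (by decide +kernel)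
  have h11 : r 11 = 1 := by omega
  have a13 : 1 ≤ r 13 := P.pt 13 (by decide) (by decide) 1 (by decide +kernel)
  have b13 : r 13 + 1 ≤ r 12 := P.lt 12 (by decide) (by decide) 0 (by decide) 6 (by decide +kernel) (by decide +kernel)
  have h13 : r 13 = 1 := by omega
  have b14 : r 14 + 1 ≤ r 12 := P.lt 12 (by decide) (by decide) 1 (by decide) 1 (by decide +kernel) (by decide +kernel)
  have c14_3 : r 14 + 1 ≤ r 6 := P.lt 6 (by decide) (by decide) 3 (by decide) 2 (by decide +kernel) (by decide +kernel)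
  have a19 : 1 ≤ r 19 := P.pt 19 (by decide) (by decide) 5 (by decide +kernel)
  have b19 : r 19 + 1 ≤ r 18 := P.lt 18 (by decide) (by decide) 0 (by decide) 2 (by decide +kernel) (by decide +kernel)
  have h19 : r 19 = 1 := by omega
  have a21 : 1 ≤ r 21 := P.pt 21 (by decide) (by decide) 1 (by decide +kernel)
  have b21 : r 21 + 1 ≤ r 20 := P.lt 20 (by decide) (by decide) 0 (by decide) 2 (by decide +kernel) (by decide +kernel)
  have h21 : r 21 = 1 := by omega
  have a22 : 1 ≤ r 22 := P.pt 22 (by decide) (by decide) 2 (by decide +kernel)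
  have b22 : r 22 + 1 ≤ r 20 := P.lt 20 (by decide) (by decide) 1 (by decide) 1 (by decide +kernel) (by decide +kernel)
  have h22 : r 22 = 1 := by omega
  have a25 : 1 ≤ r 25 := P.pt 25 (by decide) (by decide) 1 (by decide +kernel)
  have b25 : r 25 + 1 ≤ r 17 := P.lt 17 (by decide) (by decide) 3 (by decide) 5 (by decide +kernel) (by decide +kernel)
  have h25 : r 25 = 1 := by omega
  have b26 : r 26 + 1 ≤ r 24 := P.lt 24 (by decide) (by decide) 1 (by decide) 1 (by decide +kernel) (by decide +kernel)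
  have c26_1 : r 26 + 1 ≤ r 24 := P.lt 24 (by decide) (by decide) 1 (by decide) 1 (by decide +kernel) (by decide +kernel)
  have a28 : 1 ≤ r 28 := P.pt 28 (by decide) (by decide) 1 (by decide +kernel)
  have b28 : r 28 + 1 ≤ r 20 := P.lt 20 (by decide) (by decide) 3 (by decide) 2 (by decide +kernel) (by decide +kernel)
  have h28 : r 28 = 1 := by omega
  have a35 : 1 ≤ r 35 := P.pt 35 (by decide) (by decide) 3 (by decide +kernel)
  have b35 : r 35 + 1 ≤ r 33 := P.lt 33 (by decide) (by decide) 1 (by decide) 0 (by decide +kernel) (by decide +kernel)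
  have h35 : r 35 = 1 := by omega
  have a37 : 1 ≤ r 37 := P.pt 37 (by decide) (by decide) 0 (by decide +kernel)
  have b37 : r 37 + 1 ≤ r 36 := P.lt 36 (by decide) (by decide) 0 (by decide) 6 (by decide +kernel) (by decide +kernel)
  have h37 : r 37 = 1 := by omega
  have b38 : r 38 + 1 ≤ r 36 := P.lt 36 (by decide) (by decide) 1 (by decide) 0 (by decide +kernel) (by decide +kernel)
  have c38_2 : r 38 + 1 ≤ r 34 := P.lt 34 (by decide) (by decide) 2 (by decide) 3 (by decide +kernel) (by decide +kernel)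
  have c38_5 : r 38 + 1 ≤ r 6 := P.lt 6 (by decide) (by decide) 5 (by decide) 2 (by decide +kernel) (by decide +kernel)
  have a41 : 1 ≤ r 41 := P.pt 41 (by decide) (by decide) 3 (by decide +kernel)
  have b41 : r 41 + 1 ≤ r 40 := P.lt 40 (by decide) (by decide) 0 (by decide) 6 (by decide +kernel) (by decide +kernel)
  have h41 : r 41 = 1 := by omega
  have a42 : 1 ≤ r 42 := P.pt 42 (by decide) (by decide) 3 (by decide +kernel)
  have b42 : r 42 + 1 ≤ r 40 := P.lt 40 (by decide) (by decide) 1 (by decide) 6 (by decide +kernel) (by decide +kernel)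
  have h42 : r 42 = 1 := by omega
  have a44 : 1 ≤ r 44 := P.pt 44 (by decide) (by decide) 6 (by decide +kernel)
  have b44 : r 44 + 1 ≤ r 40 := P.lt 40 (by decide) (by decide) 2 (by decide) 3 (by decide +kernel) (by decide +kernel)
  have h44 : r 44 = 1 := by omega
  have b49 : r 49 + 1 ≤ r 48 := P.lt 48 (by decide) (by decide) 0 (by decide) 7 (by decide +kernel) (by decide +kernel)
  have c49_0 : r 49 + 1 ≤ r 48 := P.lt 48 (by decide) (by decide) 0 (by decide) 7 (by decide +kernel) (by decide +kernel)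
  have b50 : r 50 + 1 ≤ r 48 := P.lt 48 (by decide) (by decide) 1 (by decide) 7 (by decide +kernel) (by decide +kernel)
  have c50_1 : r 50 + 1 ≤ r 48 := P.lt 48 (by decide) (by decide) 1 (by decide) 7 (by decide +kernel) (by decide +kernel)
  have c50_4 : r 50 + 1 ≤ r 34 := P.lt 34 (by decide) (by decide) 4 (by decide) 3 (by decide +kernel) (by decide +kernel)
  have b52 : r 52 + 1 ≤ r 48 := P.lt 48 (by decide) (by decide) 2 (by decide) 7 (by decide +kernel) (by decide +kernel)
  have c52_2 : r 52 + 1 ≤ r 48 := P.lt 48 (by decide) (by decide) 2 (by decide) 7 (by decide +kernel) (by decide +kernel)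
  have b56 : r 56 + 1 ≤ r 48 := P.lt 48 (by decide) (by decide) 3 (by decide) 7 (by decide +kernel) (by decide +kernel)
  have c56_3 : r 56 + 1 ≤ r 48 := P.lt 48 (by decide) (by decide) 3 (by decide) 7 (by decide +kernel) (by decide +kernel)
  have c56_5 : r 56 + 1 ≤ r 24 := P.lt 24 (by decide) (by decide) 5 (by decide) 1 (by decide +kernel) (by decide +kernel)
  have b15 : r 15 + 1 ≤ r 13 := P.lt 13 (by decide) (by decide) 1 (by decide) 1 (by decide +kernel) (by decide +kernel)
  have h15 : r 15 = 0 := by omega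
  have b23 : r 23 + 1 ≤ r 22 := P.lt 22 (by decide) (by decide) 0 (by decide) 2 (by decide +kernel) (by decide +kernel)
  have h23 : r 23 = 0 := by omega
  have b27 : r 27 + 1 ≤ r 25 := P.lt 25 (by decide) (by decide) 1 (by decide) 1 (by decide +kernel) (by decide +kernel)
  have h27 : r 27 = 0 := by omega
  have a29 : 1 ≤ r 29 := P.pt 29 (by decide) (by decide) 1 (by decide +kernel)
  have b29 : r 29 ≤ r 28 := P.mono 28 (by decide) (by decide) 0 (by decide)
  have h29 : r 29 = 1 := by omega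
  have b30 : r 30 + 1 ≤ r 28 := P.lt 28 (by decide) (by decide) 1 (by decide) 1 (by decide +kernel) (by decide +kernel)
  have h30 : r 30 = 0 := by omega
  have b39 : r 39 + 1 ≤ r 37 := P.lt 37 (by decide) (by decide) 1 (by decide) 0 (by decide +kernel) (by decide +kernel)
  have h39 : r 39 = 0 := by omega
  have a43 : 1 ≤ r 43 := P.pt 43 (by decide) (by decide) 3 (by decide +kernel)
  have b43 : r 43 ≤ r 42 := P.mono 42 (by decide) (by decide) 0 (by decide)
  have h43 : r 43 = 1 := by omega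
  have b45 : r 45 + 1 ≤ r 44 := P.lt 44 (by decide) (by decide) 0 (by decide) 6 (by decide +kernel) (by decide +kernel)
  have h45 : r 45 = 0 := by omega
  have b46 : r 46 + 1 ≤ r 44 := P.lt 44 (by decide) (by decide) 1 (by decide) 6 (by decide +kernel) (by decide +kernel)
  have h46 : r 46 = 0 := by omega
  have b51 : r 51 + 1 ≤ r 35 := P.lt 35 (by decide) (by decide) 4 (by decide) 3 (by decide +kernel) (by decide +kernel)
  have h51 : r 51 = 0 := by omega
  have b53 : r 53 + 1 ≤ r 37 := P.lt 37 (by decide) (by decide) 4 (by decide) 0 (by decide +kernel) (by decide +kernel)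
  have h53 : r 53 = 0 := by omega
  have b54 : r 54 + 1 ≤ r 22 := P.lt 22 (by decide) (by decide) 5 (by decide) 2 (by decide +kernel) (by decide +kernel)
  have h54 : r 54 = 0 := by omega
  have b57 : r 57 + 1 ≤ r 41 := P.lt 41 (by decide) (by decide) 4 (by decide) 3 (by decide +kernel) (by decide +kernel)
  have h57 : r 57 = 0 := by omega
  have b58 : r 58 + 1 ≤ r 42 := P.lt 42 (by decide) (by decide) 4 (by decide) 3 (by decide +kernel) (by decide +kernel)
  have h58 : r 58 = 0 := by omega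
  have b60 : r 60 + 1 ≤ r 44 := P.lt 44 (by decide) (by decide) 4 (by decide) 6 (by decide +kernel) (by decide +kernel)
  have h60 : r 60 = 0 := by omega
  have b31 : r 31 + 1 ≤ r 29 := P.lt 29 (by decide) (by decide) 1 (by decide) 1 (by decide +kernel) (by decide +kernel)
  have h31 : r 31 = 0 := by omega
  have b47 : r 47 + 1 ≤ r 43 := P.lt 43 (by decide) (by decide) 2 (by decide) 3 (by decide +kernel) (by decide +kernel)
  have h47 : r 47 = 0 := by omega
  have b55 : r 55 ≤ r 54 := P.mono 54 (by decide) (by decide) 0 (by decide)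
  have h55 : r 55 = 0 := by omega
  have b59 : r 59 + 1 ≤ r 43 := P.lt 43 (by decide) (by decide) 4 (by decide) 3 (by decide +kernel) (by decide +kernel)
  have h59 : r 59 = 0 := by omega
  have b61 : r 61 + 1 ≤ r 29 := P.lt 29 (by decide) (by decide) 5 (by decide) 1 (by decide +kernel) (by decide +kernel)
  have h61 : r 61 = 0 := by omega
  have b62 : r 62 ≤ r 60 := P.mono 60 (by decide) (by decide) 1 (by decide)
  have h62 : r 62 = 0 := by omega
  have b63 : r 63 ≤ r 62 := P.mono 62 (by decide) (by decide) 0 (by decide)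
  have h63 : r 63 = 0 := by omega
  have hp := P.plane
  rw [ma3_Sc_p] at hp
  have hl0 := P.line 2 (by decide) 59 (by decide) (by decide) ⟨{0, 1, 2, 3}, by decide, by decide +kernel, by decide +kernel⟩
  rw [ma3_Sc_l0] at hl0
  have hl1 := P.line 4 (by decide) 47 (by decide) (by decide) ⟨{0, 1, 2, 5}, by decide, by decide +kernel, by decide +kernel⟩
  rw [ma3_Sc_l1] at hl1
  have hl2 := P.line 0 (by decide) 54 (by decide) (by decide) ⟨{0, 1, 2, 3}, by decide, by decide +kernel, by decide +kernel⟩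
  rw [ma3_Sc_l2] at hl2
  simp only [h1, h2, h3, h4, h5, h8, h9, h10, h11, h12, h13, h15, h16, h17, h18, h19, h20, h21, h22, h23, h25, h27, h28, h29, h30, h31, h32, h33, h35, h36, h37, h39, h40, h41, h42, h43, h44, h45, h46, h47, h51, h53, h54, h55, h57, h58, h59, h60, h61, h62, h63] at hp hl0 hl1 hl2
  omega

end QG
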