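import Pool.Agent.Lib.QG.K1a
import Pool.Agent.Lib.QG.SPd
set_option autoImplicit false

/-! MP_2e6874_co. The one-element deletions and contractions of the three matroids `LSa`, `LSb`, `LSc`
are quaternary gammoids (certificates). -/

namespace QG
open Set Matroid

section data
variable {α : Type} {M : Matroid α}

def cdSa : List Cert := [
  ⟨true, 3, [[.i, .i, .v], [.v, .i, .i], [.w, .i, .i], [.i, .o, .i], [.i, .o, .o], [.o, .i, .o], [.o, .o, .i]], false, 4, [10, 12, 6, 9, 5, 2, 1]⟩,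
  ⟨true, 3, [[.i, .i, .v], [.v, .i, .i], [.w, .i, .i], [.o, .i, .w], [.i, .o, .o], [.o, .i, .o], [.o, .o, .i]], false, 4, [10, 12, 6, 9, 4, 3, 1]⟩,
  ⟨true, 3, [[.i, .w, .v], [.i, .i, .w], [.o, .w, .w], [.i, .o, .o], [.o, .w, .w], [.o, .i, .o], [.o, .o, .i]], false, 4, [10, 10, 13, 10, 13, 12, 12]⟩,
  ⟨true, 3, [[.i, .v, .w], [.i, .i, .w], [.o, .v, .v], [.i, .o, .o], [.o, .v, .v], [.o, .i, .o], [.o, .o, .i]], false, 4, [10, 10, 13, 8, 13, 14, 12]⟩,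
  ⟨true, 3, [[.i, .o, .i], [.o, .i, .w], [.v, .i, .i], [.w, .i, .i], [.i, .o, .o], [.o, .i, .o], [.o, .o, .i]], false, 4, [10, 9, 12, 4, 6, 1, 3]⟩,
  ⟨true, 3, [[.i, .o, .i], [.i, .i, .w], [.o, .i, .i], [.o, .i, .i], [.i, .o, .o], [.o, .i, .o], [.o, .o, .i]], false, 4, [10, 8, 13, 13, 10, 12, 14]⟩,
  ⟨true, 3, [[.i, .i, .i], [.i, .o, .w], [.o, .v, .i], [.o, .w, .i], [.i, .o, .o], [.o, .i, .o], [.o, .o, .i]], false, 4, [2, 3, 12, 14, 1, 12, 13]⟩,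
  ⟨true, 3, [[.i, .i, .o], [.i, .o, .i], [.o, .v, .i], [.o, .w, .i], [.i, .o, .o], [.o, .i, .o], [.o, .o, .i]], false, 4, [2, 1, 12, 12, 3, 14, 13]⟩]

def ccSa : List Cert := [
  ⟨false, 3, [[.i, .o, .o], [.o, .i, .o], [.o, .o, .i], [.i, .o, .o], [.o, .v, .w], [.i, .i, .i], [.w, .i, .i]], false, 3, [2, 5, 5, 2, 5, 6, 6]⟩,
  ⟨false, 3, [[.i, .o, .o], [.o, .i, .o], [.o, .o, .i], [.i, .o, .o], [.i, .v, .w], [.o, .i, .i], [.i, .i, .i]], false, 3, [2, 5, 5, 2, 7, 4, 6]⟩,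
  ⟨false, 3, [[.i, .o, .o], [.o, .i, .o], [.o, .o, .i], [.i, .i, .o], [.i, .o, .w], [.o, .i, .i], [.i, .w, .i]], true, 4, [12, 10, 6, 9, 5, 2, 1]⟩,
  ⟨false, 3, [[.i, .o, .o], [.o, .i, .o], [.o, .o, .i], [.i, .i, .o], [.i, .o, .v], [.o, .i, .i], [.i, .w, .i]], true, 4, [12, 10, 6, 8, 5, 3, 1]⟩,
  ⟨false, 3, [[.i, .o, .o], [.i, .o, .o], [.o, .i, .o], [.o, .o, .i], [.i, .v, .w], [.i, .i, .i], [.v, .i, .i]], false, 3, [2, 2, 5, 7, 5, 6, 4]⟩,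
  ⟨false, 3, [[.o, .v, .w], [.i, .o, .o], [.o, .i, .o], [.o, .o, .i], [.i, .v, .w], [.i, .i, .i], [.w, .w, .v]], true, 4, [12, 4, 10, 9, 6, 1, 3]⟩,
  ⟨false, 3, [[.i, .o, .o], [.o, .i, .i], [.o, .i, .o], [.o, .o, .i], [.i, .i, .i], [.i, .v, .w], [.i, .v, .v]], false, 3, [6, 4, 5, 1, 6, 3, 2]⟩,
  ⟨false, 3, [[.w, .i, .i], [.i, .o, .o], [.o, .i, .o], [.o, .o, .i], [.v, .i, .i], [.w, .w, .v], [.i, .i, .i]], false, 3, [6, 6, 5, 3, 4, 1, 2]⟩]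

theorem K1_chk_Sa : chkAll 7 (bL 8 4 [23, 27, 45, 51, 78, 83, 147, 180, 195, 209, 210, 232]) cdSa ccSa = true := by
  decide +kernel

theorem sm_Sa (h : IsL 8 4 LSa M) : ∀ x ∈ M.E, QGam (M ＼ {x}) ∧ QGam (M ／ {x}) := by
  obtain ⟨e, he⟩ := K1_em h [23, 27, 45, 51, 78, 83, 147, 180, 195, 209, 210, 232] (by decide +kernel)
  exact he.all _ _ K1_chk_Sa

def cdSb : List Cert := [
  ⟨true, 3, [[.i, .i, .v], [.v, .i, .o], [.w, .i, .i], [.i, .o, .i], [.i, .o, .o], [.o, .i, .o], [.o, .o, .i]], false, 4, [4, 10, 12, 9, 3, 6, 1]⟩,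
  ⟨true, 3, [[.i, .i, .v], [.v, .i, .o], [.w, .i, .i], [.o, .i, .w], [.i, .o, .o], [.o, .i, .o], [.o, .o, .i]], false, 4, [12, 10, 12, 9, 10, 15, 9]⟩,
  ⟨true, 3, [[.i, .w, .i], [.i, .i, .w], [.o, .w, .i], [.i, .o, .o], [.o, .w, .o], [.o, .i, .o], [.o, .o, .i]], false, 4, [10, 8, 14, 10, 13, 13, 12]⟩,
  ⟨true, 3, [[.i, .v, .w], [.i, .i, .w], [.o, .v, .w], [.i, .o, .o], [.o, .v, .v], [.o, .i, .o], [.o, .o, .i]], false, 4, [3, 1, 14, 2, 12, 13, 12]⟩,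
  ⟨true, 3, [[.i, .o, .i], [.o, .i, .w], [.v, .i, .o], [.w, .i, .i], [.i, .o, .o], [.o, .i, .o], [.o, .o, .i]], false, 4, [10, 1, 12, 8, 6, 5, 3]⟩,
  ⟨true, 3, [[.i, .o, .i], [.i, .i, .w], [.o, .i, .o], [.o, .i, .i], [.i, .o, .o], [.o, .i, .o], [.o, .o, .i]], false, 4, [10, 8, 13, 12, 10, 13, 14]⟩,
  ⟨true, 3, [[.i, .i, .i], [.i, .o, .w], [.o, .v, .o], [.o, .w, .i], [.i, .o, .o], [.o, .i, .o], [.o, .o, .i]], false, 4, [4, 6, 9, 12, 2, 9, 10]⟩,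
  ⟨true, 3, [[.i, .i, .o], [.i, .o, .i], [.o, .v, .i], [.o, .w, .i], [.i, .o, .o], [.o, .i, .o], [.o, .o, .i]], false, 4, [2, 1, 12, 12, 3, 14, 13]⟩]

def ccSb : List Cert := [
  ⟨false, 3, [[.i, .o, .o], [.o, .i, .o], [.o, .o, .i], [.i, .o, .o], [.o, .v, .w], [.i, .i, .i], [.w, .o, .i]], false, 3, [2, 5, 4, 2, 5, 7, 6]⟩,
  ⟨false, 3, [[.i, .o, .o], [.o, .i, .o], [.o, .o, .i], [.i, .o, .o], [.i, .v, .w], [.o, .i, .i], [.i, .o, .i]], true, 4, [9, 4, 12, 9, 2, 6, 10]⟩,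
  ⟨false, 3, [[.i, .o, .o], [.o, .i, .o], [.o, .o, .i], [.i, .i, .o], [.i, .o, .w], [.o, .i, .i], [.i, .w, .i]], true, 4, [12, 10, 6, 9, 5, 2, 1]⟩,
  ⟨false, 3, [[.i, .o, .o], [.o, .i, .o], [.o, .o, .i], [.i, .i, .o], [.i, .o, .v], [.o, .i, .i], [.i, .w, .o]], false, 3, [4, 2, 1, 6, 5, 3, 6]⟩,
  ⟨false, 3, [[.i, .o, .o], [.i, .o, .o], [.o, .i, .o], [.o, .o, .i], [.i, .v, .w], [.i, .i, .i], [.v, .o, .i]], false, 3, [2, 2, 5, 6, 5, 7, 4]⟩,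
  ⟨false, 3, [[.o, .v, .w], [.i, .o, .o], [.o, .i, .o], [.o, .o, .i], [.i, .v, .w], [.i, .i, .i], [.w, .v, .v]], true, 4, [12, 5, 10, 8, 6, 1, 3]⟩,
  ⟨false, 3, [[.i, .o, .o], [.o, .i, .i], [.o, .i, .o], [.o, .o, .i], [.i, .i, .i], [.i, .v, .w], [.i, .w, .v]], true, 4, [10, 15, 12, 12, 10, 9, 9]⟩,
  ⟨false, 3, [[.w, .o, .i], [.i, .o, .o], [.o, .i, .o], [.o, .o, .i], [.v, .o, .i], [.w, .v, .v], [.i, .i, .i]], false, 3, [6, 2, 5, 6, 4, 1, 3]⟩]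

theorem K1_chk_Sb : chkAll 7 (bL 8 4 [23, 27, 45, 51, 78, 83, 139, 147, 153, 154, 180, 226]) cdSb ccSb = true := by
  decide +kernel

theorem sm_Sb (h : IsL 8 4 LSb M) : ∀ x ∈ M.E, QGam (M ＼ {x}) ∧ QGam (M ／ {x}) := by
  obtain ⟨e, he⟩ := K1_em h [23, 27, 45, 51, 78, 83, 139, 147, 153, 154, 180, 226] (by decide +kernel)
  exact he.all _ _ K1_chk_Sb

def cdSc : List Cert := [
  ⟨true, 3, [[.o, .v, .i], [.i, .o, .w], [.w, .v, .w], [.i, .i, .i], [.i, .o, .o], [.o, .i, .o], [.o, .o, .i]], false, 4, [9, 10, 12, 4, 2, 5, 3]⟩,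
  ⟨true, 3, [[.o, .w, .v], [.i, .w, .i], [.w, .w, .o], [.i, .v, .w], [.i, .o, .o], [.o, .i, .o], [.o, .o, .i]], false, 4, [9, 12, 10, 4, 6, 3, 1]⟩,
  ⟨true, 3, [[.i, .o, .w], [.w, .v, .w], [.i, .v, .v], [.o, .i, .v], [.i, .o, .o], [.o, .i, .o], [.o, .o, .i]], false, 4, [10, 12, 8, 5, 6, 1, 3]⟩,
  ⟨true, 3, [[.v, .i, .v], [.i, .i, .o], [.w, .i, .i], [.w, .o, .w], [.i, .o, .o], [.o, .i, .o], [.o, .o, .i]], false, 4, [12, 10, 8, 5, 3, 6, 1]⟩,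
  ⟨true, 3, [[.i, .i, .i], [.w, .i, .v], [.o, .i, .v], [.i, .o, .i], [.i, .o, .o], [.o, .i, .o], [.o, .o, .i]], false, 4, [4, 8, 9, 6, 10, 5, 3]⟩,
  ⟨true, 3, [[.i, .i, .i], [.w, .i, .v], [.i, .i, .v], [.v, .o, .i], [.i, .o, .o], [.o, .i, .o], [.o, .o, .i]], false, 4, [2, 12, 10, 5, 9, 4, 3]⟩,
  ⟨true, 3, [[.i, .i, .i], [.w, .w, .v], [.i, .o, .v], [.v, .i, .i], [.i, .o, .o], [.o, .i, .o], [.o, .o, .i]], false, 4, [10, 6, 1, 12, 9, 4, 3]⟩,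
  ⟨true, 3, [[.i, .i, .i], [.w, .w, .i], [.i, .o, .i], [.v, .i, .o], [.i, .o, .o], [.o, .i, .o], [.o, .o, .i]], false, 4, [10, 2, 9, 4, 5, 12, 3]⟩]

def ccSc : List Cert := [
  ⟨false, 3, [[.i, .o, .o], [.o, .i, .o], [.o, .o, .i], [.w, .i, .v], [.w, .o, .i], [.i, .i, .o], [.v, .v, .i]], true, 4, [12, 6, 9, 2, 8, 5, 3]⟩,
  ⟨false, 3, [[.i, .o, .o], [.o, .i, .o], [.o, .o, .i], [.i, .i, .v], [.i, .o, .i], [.i, .i, .o], [.i, .v, .i]], true, 4, [12, 5, 10, 2, 9, 6, 1]⟩,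
  ⟨false, 3, [[.i, .o, .o], [.o, .i, .o], [.o, .o, .i], [.i, .w, .v], [.i, .w, .i], [.i, .i, .o], [.i, .v, .i]], true, 4, [6, 5, 8, 10, 9, 4, 3]⟩,
  ⟨false, 3, [[.i, .o, .o], [.o, .i, .o], [.o, .o, .i], [.i, .w, .i], [.i, .w, .o], [.i, .i, .i], [.i, .v, .v]], true, 4, [9, 10, 4, 6, 12, 3, 1]⟩,
  ⟨false, 3, [[.w, .i, .v], [.i, .o, .o], [.o, .i, .o], [.o, .o, .i], [.o, .i, .w], [.v, .o, .v], [.i, .w, .w]], true, 4, [2, 4, 10, 12, 9, 5, 3]⟩,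
  ⟨false, 3, [[.w, .o, .i], [.i, .o, .o], [.o, .i, .o], [.o, .o, .i], [.o, .i, .w], [.v, .i, .i], [.i, .v, .o]], true, 4, [8, 10, 6, 12, 5, 1, 3]⟩,
  ⟨false, 3, [[.i, .i, .o], [.i, .o, .o], [.o, .i, .o], [.o, .o, .i], [.v, .o, .v], [.v, .i, .i], [.w, .w, .i]], true, 4, [10, 12, 8, 6, 5, 1, 3]⟩,
  ⟨false, 3, [[.v, .v, .i], [.i, .o, .o], [.o, .i, .o], [.o, .o, .i], [.i, .w, .w], [.i, .v, .o], [.w, .w, .i]], true, 4, [10, 4, 12, 2, 9, 5, 3]⟩]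

theorem K1_chk_Sc : chkAll 7 (bL 8 4 [43, 60, 71, 90, 149, 166, 201, 240]) cdSc ccSc = true := by
  decide +kernel

theorem sm_Sc (h : IsL 8 4 LSc M) : ∀ x ∈ M.E, QGam (M ＼ {x}) ∧ QGam (M ／ {x}) := by
  obtain ⟨e, he⟩ := K1_em h [43, 60, 71, 90, 149, 166, 201, 240] (by decide +kernel)
  exact he.all _ _ K1_chk_Sc

end data

end QG
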