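import Pool.Agent.Lib.QG.Q3
import Pool.Agent.Lib.QG.SP1
import Pool.Agent.Lib.QG.MA3

/-! MP_2e6874_co. The fifteen matroids are excluded minors; reduction to the 3-connected matroids
without one of the fifteen as a minor. -/

set_option autoImplicit false

namespace QG
open Set Matroid
variable {α β : Type} {M N : Matroid α}

private theorem SP2_fin {n r : ℕ} {L : Finset (Finset (Fin n))} (h : IsL n r L M) : M.Finite := by
  obtain ⟨e, he⟩ := h
  exact EL.finite (e := e) (r := r) (L := L) he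

private theorem SP2_strict (h : N <m M) : ∃ x ∈ M.E, N ≤m M ＼ {x} ∨ N ≤m M ／ {x} := by
  obtain ⟨C, D, hC, hD, -, hN⟩ := h.isMinor.exists_eq_contract_delete_disjoint
  rcases C.eq_empty_or_nonempty with hCe | ⟨x, hx⟩
  · subst hCe
    rcases D.eq_empty_or_nonempty with hDe | ⟨x, hx⟩
    · subst hDe
      rw [contract_empty, delete_empty] at hN
      exact absurd hN h.ne
    · refine ⟨x, hD hx, Or.inl ⟨∅, D \ {x}, ?_⟩⟩
      rw [hN, contract_empty, contract_empty, delete_delete,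
        union_sdiff_cancel (singleton_subset_iff.2 hx)]
  · refine ⟨x, hC hx, Or.inr ⟨C \ {x}, D, ?_⟩⟩
    rw [hN, contract_contract, union_sdiff_cancel (singleton_subset_iff.2 hx)]

private theorem SP2_ex (hfin : M.Finite) (hn : ¬ QGam M)
    (h : ∀ x ∈ M.E, QGam (M ＼ {x}) ∧ QGam (M ／ {x})) : ExMin M := by
  refine ⟨hfin, hn, fun N hN => ?_⟩
  obtain ⟨x, hx, h1 | h1⟩ := SP2_strict hN
  · exact (h x hx).1.minor h1
  · exact (h x hx).2.minor h1

theorem Bad15.not_qgam (h : Bad15 M) : ¬ QGam M := by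
  rcases h with h | h | h | h
  · exact h.not_qgam
  · exact fun hq => not_gammoid_Sa h hq.2.1
  · exact fun hq => not_gammoid_Sb h hq.2.1
  · exact fun hq => not_gammoid_Sc h hq.2.1

theorem Bad15.exMin (h : Bad15 M) : ExMin M := by
  rcases h with h | h | h | h
  · exact h.exMin
  · exact SP2_ex (SP2_fin h) (fun hq => not_gammoid_Sa h hq.2.1) (sm_Sa h)
  · exact SP2_ex (SP2_fin h) (fun hq => not_gammoid_Sb h hq.2.1) (sm_Sb h)
  · exact SP2_ex (SP2_fin h) (fun hq => not_gammoid_Sc h hq.2.1) (sm_Sc h)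

private def SP2_a : Equiv.Perm (Fin 8) :=
  ⟨![2, 3, 0, 1, 5, 4, 6, 7], ![2, 3, 0, 1, 5, 4, 6, 7], by decide, by decide⟩

private def SP2_b : Equiv.Perm (Fin 8) :=
  ⟨![2, 6, 0, 3, 5, 4, 1, 7], ![2, 6, 0, 3, 5, 4, 1, 7], by decide, by decide⟩

private def SP2_c : Equiv.Perm (Fin 8) :=
  ⟨![0, 6, 7, 3, 5, 4, 1, 2], ![0, 6, 7, 3, 5, 4, 1, 2], by decide, by decide⟩

private theorem SP2_self {n r : ℕ} {L : Finset (Finset (Fin n))} (h : IsL n r L M)
    (σ : Equiv.Perm (Fin n)) (hr : n - r = r)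
    (hL : (L.image (fun B => Bᶜ)).image (fun B => B.map σ.symm.toEmbedding) = L) :
    IsL n r L M✶ := by
  obtain ⟨e, he⟩ := h
  have h1 : EL e r L M := he
  have h2 := h1.dual.perm σ
  rw [hr, hL] at h2
  exact ⟨_, h2⟩

theorem Bad15.dual (h : Bad15 M) : Bad15 M✶ := by
  rcases h with h | h | h | h
  · exact Or.inl h.dual
  · exact Or.inr (Or.inl (SP2_self h SP2_a rfl (by decide +kernel)))
  · exact Or.inr (Or.inr (Or.inl (SP2_self h SP2_b rfl (by decide +kernel))))
  · exact Or.inr (Or.inr (Or.inr (SP2_self h SP2_c rfl (by decide +kernel))))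

theorem Good15.minor (h : Good15 M) (hN : N ≤m M) : Good15 N :=
  fun _ hN' => h _ (hN'.trans hN)

theorem Good15.dual (h : Good15 M) : Good15 M✶ := by
  rintro N ⟨C, D, rfl⟩ hB
  refine h _ ?_ hB.dual
  rw [dual_contract_delete, dual_dual]
  have h1 := contract_delete_isMinor M ∅ C
  have h2 := contract_delete_isMinor (M ＼ C) D ∅
  rw [contract_empty] at h1
  rw [delete_empty] at h2
  exact h2.trans h1

theorem QGam.good15 (h : QGam M) : Good15 M :=
  fun _ hN hB => hB.not_qgam (h.minor hN)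

private theorem SP2_min (n : ℕ) : ∀ M : Matroid α, M.Finite → M.E.ncard = n → ¬ QGam M →
    ∃ N, N ≤m M ∧ ExMin N := by
  induction n using Nat.strong_induction_on with
  | h n ih =>
    intro M hM hn hq
    by_cases h : ∀ N : Matroid α, N <m M → QGam N
    · exact ⟨M, IsMinor.refl, hM, hq, h⟩
    · push Not at h
      obtain ⟨N, hN, hNq⟩ := h
      have hfin : M.E.Finite := hM.ground_finite
      have h1 : N.E.ncard < n := by
        rw [← hn]
        exact ncard_lt_ncard hN.ssubset hfin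
      obtain ⟨N', h2, h3⟩ := ih _ h1 N ⟨hfin.subset hN.ssubset.subset⟩ rfl hNq
      exact ⟨N', h2.trans hN.isMinor, h3⟩

theorem main_reduction15
    (hclass : ∀ (α : Type) (M : Matroid α), M.Finite → ThreeConn M → Good15 M → QGam M) :
    (∀ (α : Type) (M : Matroid α), ExMin M ↔ Bad15 M) ∧
    (∀ (α : Type) (M : Matroid α), M.Finite → (QGam M ↔ Good15 M)) := by
  have hex : ∀ (α : Type) (M : Matroid α), ExMin M → Bad15 M := by
    intro α M h
    by_contra hB
    refine h.2.1 (hclass α M h.1 h.threeConn fun N hN hNB => ?_)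
    by_cases hMN : N = M
    · exact hB (hMN ▸ hNB)
    · exact hNB.not_qgam (h.2.2 N (isStrictMinor_iff_isMinor_ne.2 ⟨hN, hMN⟩))
  refine ⟨fun α M => ⟨hex α M, Bad15.exMin⟩, fun α M hM => ⟨QGam.good15, fun h => ?_⟩⟩
  by_contra hq
  obtain ⟨N, hN, hNe⟩ := SP2_min _ M hM rfl hq
  exact h N hN (hex α N hNe)

end QG
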