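import Pool.Agent.Lib.QG.GZ
import Pool.Agent.Lib.QG.W4
import Pool.Agent.Lib.QG.SP2

/-! MP_2e6874_co: assembly of the classification (helper41). -/

set_option autoImplicit false

namespace QG
open Set Matroid Submodule

private theorem fin_del {α : Type} (M : Matroid α) (X : Set α) : M ＼ X ≤m M := by
  have h := contract_delete_isMinor M ∅ X
  rwa [contract_empty] at h

/-- classification of the 3-connected matroids with at least eight elements and without one of the
fifteen matroids as a minor -/
theorem fin_class (hB : BaseA)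
    (h8 : ∀ {α : Type} (M : Matroid α), M.Finite → ThreeConn M → Good15 M → M.E.ncard = 8 → Fam M)
    (hfd : ∀ {α : Type} (M : Matroid α), M.Finite → ThreeConn M → 8 ≤ M.E.ncard → Fam M✶ → Fam M) :
    ∀ n, ∀ (α : Type) (M : Matroid α), M.Finite → ThreeConn M → Good15 M → M.E.ncard = n → 8 ≤ n →
      Fam M := by
  intro n
  induction n using Nat.strong_induction_on with
  | _ n ih =>
    intro α M hf h3 hG hn h8n
    have step : ∀ (N : Matroid α), N.Finite → ThreeConn N → Good15 N → N.E.ncard = n → 9 ≤ n →
        ∀ x ∈ N.E, ThreeConn (N ＼ {x}) → Fam N := by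
      intro N hNf hN3 hNG hNn h9 x hx hx3
      have hNfin : N.E.Finite := hNf.ground_finite
      have hcard : (N ＼ {x}).E.ncard = n - 1 := by
        rw [delete_ground, ncard_sdiff_singleton_of_mem hx, hNn]
      have hGd : Good15 (N ＼ {x}) := hNG.minor (fin_del N {x})
      have hfd' : (N ＼ {x}).Finite := ⟨hNfin.subset sdiff_subset⟩
      exact fam_step' hB N hNf hN3 hNG.good x hx (by omega)
        (ih (n - 1) (by omega) α (N ＼ {x}) hfd' hx3 hGd hcard (by omega))
    rcases Nat.lt_or_ge n 9 with h9 | h9
    · exact h8 M hf h3 hG (by omega)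
    · rcases chain_good M hf h3 hG.good (by omega) with ⟨x, hx, hx3⟩ | ⟨x, hx, hx3⟩ | ⟨r, hr, hr2, hc⟩
      · exact step M hf h3 hG hn h9 x hx hx3
      · refine hfd M hf h3 (by omega) ?_
        have := hf
        have : (M ／ {x}).Finite := ⟨hf.ground_finite.subset sdiff_subset⟩
        refine step M✶ inferInstance h3.dual hG.dual (by simpa using hn) h9 x (by simpa using hx) ?_
        have h := hx3.dual
        rwa [dual_contract] at h
      · exact Fam.wh r hr hc

/-- the final theorem from the parts -/
theorem fin_all (hB : BaseA)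
    (hsm : ∀ {α : Type} (M : Matroid α), M.Finite → ThreeConn M → Good M → M.E.ncard ≤ 7 → QGam M)
    (h8 : ∀ {α : Type} (M : Matroid α), M.Finite → ThreeConn M → Good15 M → M.E.ncard = 8 → Fam M)
    (hfd : ∀ {α : Type} (M : Matroid α), M.Finite → ThreeConn M → 8 ≤ M.E.ncard → Fam M✶ → Fam M)
    (hfq : ∀ {α : Type} (M : Matroid α), M.Finite → ThreeConn M → 8 ≤ M.E.ncard → Fam M → QGam M) :
    (∀ (α : Type) (M : Matroid α), ExMin M ↔ Bad15 M) ∧
      (∀ (α : Type) (M : Matroid α), M.Finite → (QGam M ↔ Good15 M)) := by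
  refine main_reduction15 fun α M hf h3 hG => ?_
  rcases Nat.lt_or_ge 7 M.E.ncard with h | h
  · exact hfq M hf h3 (by omega) (fin_class hB h8 hfd M.E.ncard α M hf h3 hG rfl (by omega))
  · exact hsm M hf h3 hG.good h

end QG
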