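import Pool.Agent.Lib.QG.GB2

/-! MP_2e6874_co, part (A), row GI1. Rotation of the three strands. -/

set_option autoImplicit false

namespace QG
open Set Matroid Submodule

private def GI1_Rel (K : Submodule F4 VV) (A C : Set VV) : Prop :=
  ∀ x ∈ A, ∃ c ∈ C, ∃ s : F4, s ≠ 0 ∧ x + s • c ∈ K

private theorem GI1_sub {K : Submodule F4 VV} {A C : Set VV} (h : A ⊆ C) : GI1_Rel K A C := by
  intro x hx
  refine ⟨x, h hx, 1, by decide, ?_⟩
  rw [one_smul, vadd_self]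
  exact zero_mem _

private theorem GI1_union {K : Submodule F4 VV} {A B C : Set VV} (h : GI1_Rel K A C)
    (h' : GI1_Rel K B C) : GI1_Rel K (A ∪ B) C := by
  rintro x (hx | hx)
  · exact h x hx
  · exact h' x hx

private theorem GI1_mono {K : Submodule F4 VV} {A C D : Set VV} (h : GI1_Rel K A C) (hCD : C ⊆ D) :
    GI1_Rel K A D := by
  intro x hx
  obtain ⟨c, hc, s, hs, h1⟩ := h x hx
  exact ⟨c, hCD hc, s, hs, h1⟩

private theorem GI1_congr {K : Submodule F4 VV} {A B C D : Set VV} (h : GI1_Rel K A C)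
    (h' : GI1_Rel K B D) : GI1_Rel K (A ∪ B) (C ∪ D) :=
  GI1_union (GI1_mono h subset_union_left) (GI1_mono h' subset_union_right)

private theorem GI1_LnK {K : Submodule F4 VV} {A C : Set VV} (h : GI1_Rel K A C) :
    LnK K A ⊆ LnK K C := by
  rintro y ⟨hy, c, hc, s, hs⟩
  obtain ⟨c', hc', t, -, ht⟩ := h c hc
  refine ⟨hy, c', hc', s * t, ?_⟩
  have h1 := add_mem hs (K.smul_mem s ht)
  have h2 : y + s • c + s • (c + t • c') = y + (s * t) • c' := by
    rw [smul_add, mul_smul]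
    have h3 := vadd_self (s • c)
    calc y + s • c + (s • c + s • t • c') = y + (s • c + s • c) + s • t • c' := by abel
      _ = y + s • t • c' := by rw [h3, add_zero]
  rwa [h2] at h1

private theorem GI1_of {K K' : Submodule F4 VV} {C C' P P' : Set VV} (Φ Θ : VV →ₗ[F4] VV)
    (hid : ∀ x, Θ (Φ x) = x) (h1 : ∀ k ∈ K, Φ k ∈ K') (h2 : ∀ k ∈ K', Θ k ∈ K)
    (hC : GI1_Rel K' (Φ '' C) C') (hC' : GI1_Rel K' C' (Φ '' C)) (hP : GI1_Rel K' P' (Φ '' P))
    (h : AK K' C' P') : AK K C P := by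
  refine AK.of_map Φ Θ h1 h2 ?_ (Subset.antisymm (GI1_LnK hC) (GI1_LnK hC')) ?_ h
  · intro x _
    rw [hid, vadd_self]
    exact zero_mem _
  · intro p' hp'
    obtain ⟨_, ⟨p, hp, rfl⟩, s, hs, hh⟩ := hP p' hp'
    refine ⟨p, hp, s⁻¹, inv_ne_zero hs, ?_⟩
    have h3 := K'.smul_mem s⁻¹ hh
    rwa [smul_add, smul_smul, inv_mul_cancel₀ hs, one_smul, add_comm] at h3

private def GI1_r (i : ℕ) : ℕ :=
  if i = 0 then 1 else if i = 1 then 2 else if i = 2 then 0 else if i = 4 then 5 else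
    if i = 5 then 6 else if i = 6 then 4 else i

private def GI1_r' (i : ℕ) : ℕ :=
  if i = 1 then 0 else if i = 2 then 1 else if i = 0 then 2 else if i = 5 then 4 else
    if i = 6 then 5 else if i = 4 then 6 else i

private theorem GI1_r'_r (i : ℕ) : GI1_r' (GI1_r i) = i := by
  by_cases h : i ≤ 6
  · interval_cases i <;> rfl
  · have h1 : GI1_r i = i := by
      unfold GI1_r
      rw [if_neg (by omega), if_neg (by omega), if_neg (by omega), if_neg (by omega),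
        if_neg (by omega), if_neg (by omega)]
    rw [h1]
    unfold GI1_r'
    rw [if_neg (by omega), if_neg (by omega), if_neg (by omega), if_neg (by omega),
      if_neg (by omega), if_neg (by omega)]

private noncomputable def GI1_Phi (r : ℕ → ℕ) (c : ℕ → ℕ → F4) : VV →ₗ[F4] VV :=
  Finsupp.linearCombination F4 fun k : ℕ × ℕ => c k.1 k.2 • e (r k.1) k.2

private theorem GI1_Phi_e (r : ℕ → ℕ) (c : ℕ → ℕ → F4) (i n : ℕ) :
    GI1_Phi r c (e i n) = c i n • e (r i) n := by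
  unfold GI1_Phi e
  rw [Finsupp.linearCombination_single, one_smul]

private theorem GI1_id {r r' : ℕ → ℕ} {c c' : ℕ → ℕ → F4} (hr : ∀ i, r' (r i) = i)
    (hc : ∀ i n, c i n * c' (r i) n = 1) (x : VV) : GI1_Phi r' c' (GI1_Phi r c x) = x := by
  have h : (GI1_Phi r' c').comp (GI1_Phi r c) = LinearMap.id := by
    refine Finsupp.lhom_ext' fun k => LinearMap.ext_ring ?_
    obtain ⟨i, n⟩ := k
    show GI1_Phi r' c' (GI1_Phi r c (e i n)) = e i n
    rw [GI1_Phi_e, map_smul, GI1_Phi_e, smul_smul, hc, hr, one_smul]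
  exact LinearMap.congr_fun h x

private theorem GI1_I3 {i : ℕ} : i ∈ I3 ↔ i = 0 ∨ i = 1 ∨ i = 2 := by
  unfold I3
  simp

private theorem GI1_MSC {m m' : ℕ → ℕ} {A B A' B' : ℕ → VV} {C0 : Set VV} (Φ : VV →ₗ[F4] VV)
    (hm : ∀ i ∈ I3, m' i = m (GI1_r i)) (he : ∀ i ∈ I3, ∀ n, Φ (e i n) = e (GI1_r i) n)
    (hA : ∀ i ∈ I3, Φ (A' i) = A (GI1_r i)) (hB : ∀ i ∈ I3, Φ (B' i) = B (GI1_r i)) :
    Φ '' MSC I3 m' A' B' C0 = MSC I3 m A B (Φ '' C0) := by
  have hr : ∀ i ∈ I3, GI1_r i ∈ I3 := by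
    intro i hi
    rw [GI1_I3] at hi ⊢
    unfold GI1_r
    split_ifs <;> omega
  have hs : ∀ i ∈ I3, ∃ j ∈ I3, GI1_r j = i := by
    intro i hi
    rcases GI1_I3.1 hi with rfl | rfl | rfl
    · exact ⟨2, by decide, rfl⟩
    · exact ⟨0, by decide, rfl⟩
    · exact ⟨1, by decide, rfl⟩
  have hu : ∀ i ∈ I3, ∀ n, Φ (msu m' A' B' i n) = msu m A B (GI1_r i) n := by
    intro i hi n
    unfold msu
    rw [hm i hi]
    split_ifs
    · exact hA i hi
    · exact hB i hi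
    · exact he i hi n
  unfold MSC
  rw [image_union, image_union]
  congr 1
  · congr 1
    ext y
    constructor
    · rintro ⟨_, ⟨i, hi, n, h0, hn, rfl⟩, rfl⟩
      exact ⟨GI1_r i, hr i hi, n, h0, by rwa [← hm i hi], he i hi n⟩
    · rintro ⟨i, hi, n, h0, hn, rfl⟩
      obtain ⟨j, hj, rfl⟩ := hs i hi
      exact ⟨e j n, ⟨j, hj, n, h0, by rwa [hm j hj], rfl⟩, he j hj n⟩
  · ext y
    constructor
    · rintro ⟨_, ⟨i, hi, n, hn, rfl⟩, rfl⟩
      refine ⟨GI1_r i, hr i hi, n, by rwa [← hm i hi], ?_⟩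
      rw [map_add, hu i hi, hu i hi]
    · rintro ⟨i, hi, n, hn, rfl⟩
      obtain ⟨j, hj, rfl⟩ := hs i hi
      refine ⟨msu m' A' B' j n + msu m' A' B' j (n + 1), ⟨j, hj, n, by rwa [hm j hj], rfl⟩, ?_⟩
      rw [map_add, hu j hj, hu j hj]

/-- GI1a. `m' i = m (i + 1 mod 3)`. Use `AK.of_map` from `m` ... : the linear map `Φ` with
`Φ (e i n) = e (i+1) n` for `i = 0, 1`, `e 2 n ↦ e 0 n` (vertices of strand `i` of `m'` go to strand
`i + 1` of `m`), `e 3 0 ↦ e 3 0`, `e 3 1 ↦ ω • e 3 1`: then the end `ωⁱ t'` of strand `i` of `m'` goes to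
`ω^(i+1) t'`. `Θ` = the inverse. The rims go to the rims. -/
theorem GI1a {a b : Bool} {m m' : ℕ → ℕ} (h0 : m' 0 = m 1) (h1 : m' 1 = m 2) (h2 : m' 2 = m 0)
    (h : AK ⊥ (ThC a b m) (ThP a b m)) : AK ⊥ (ThC a b m') (ThP a b m') := by
  set c : ℕ → ℕ → F4 := fun i n => if i = 3 ∧ n = 1 then F4.w else F4.i with hc
  set c' : ℕ → ℕ → F4 := fun i n => if i = 3 ∧ n = 1 then F4.v else F4.i with hc'
  have hone : F4.i = 1 := rfl
  have hm : ∀ i ∈ I3, m' i = m (GI1_r i) := by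
    intro i hi
    rcases GI1_I3.1 hi with rfl | rfl | rfl
    · exact h0
    · exact h1
    · exact h2
  have he : ∀ i ∈ I3, ∀ n, GI1_Phi GI1_r c (e i n) = e (GI1_r i) n := by
    intro i hi n
    rw [GI1_Phi_e, hc]
    have : ¬ (i = 3 ∧ n = 1) := by
      rcases GI1_I3.1 hi with rfl | rfl | rfl <;> omega
    beta_reduce
    rw [if_neg this, hone, one_smul]
  have e30 : GI1_Phi GI1_r c (e 3 0) = e 3 0 := by
    rw [GI1_Phi_e, hc]
    beta_reduce
    rw [if_neg (by omega), hone, one_smul]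
    rfl
  have e31 : GI1_Phi GI1_r c (e 3 1) = F4.w • e 3 1 := by
    rw [GI1_Phi_e, hc]
    beta_reduce
    rw [if_pos ⟨rfl, rfl⟩]
    rfl
  have hB : ∀ i ∈ I3, GI1_Phi GI1_r c (g3 i • e 3 1) = g3 (GI1_r i) • e 3 1 := by
    intro i hi
    rw [map_smul, e31, smul_smul]
    congr 1
    rcases GI1_I3.1 hi with rfl | rfl | rfl <;> decide
  have hMSC := GI1_MSC (m := m) (m' := m') (A := fun _ => e 3 0) (B := fun i => g3 i • e 3 1)
    (A' := fun _ => e 3 0) (B' := fun i => g3 i • e 3 1) (C0 := bs a {e 3 0} ∪ bs b {e 3 1})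
    (GI1_Phi GI1_r c) hm he (fun i _ => e30) hB
  have hC1 : GI1_Rel ⊥ (GI1_Phi GI1_r c '' (bs a {e 3 0} ∪ bs b {e 3 1}))
      (bs a {e 3 0} ∪ bs b {e 3 1}) := by
    rintro _ ⟨x, ⟨hx, rfl⟩ | ⟨hx, rfl⟩, rfl⟩
    · refine ⟨e 3 0, Or.inl ⟨hx, rfl⟩, 1, by decide, ?_⟩
      rw [e30, one_smul, vadd_self]
      exact zero_mem _
    · refine ⟨e 3 1, Or.inr ⟨hx, rfl⟩, F4.w, by decide, ?_⟩
      rw [e31, vadd_self]
      exact zero_mem _
  have hC2 : GI1_Rel ⊥ (bs a {e 3 0} ∪ bs b {e 3 1})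
      (GI1_Phi GI1_r c '' (bs a {e 3 0} ∪ bs b {e 3 1})) := by
    rintro x (⟨hx, rfl⟩ | ⟨hx, rfl⟩)
    · refine ⟨_, ⟨e 3 0, Or.inl ⟨hx, rfl⟩, rfl⟩, 1, by decide, ?_⟩
      rw [e30, one_smul, vadd_self]
      exact zero_mem _
    · refine ⟨_, ⟨e 3 1, Or.inr ⟨hx, rfl⟩, rfl⟩, F4.v, by decide, ?_⟩
      have : F4.v * F4.w = 1 := by decide
      rw [e31, smul_smul, this, one_smul, vadd_self]
      exact zero_mem _
  have hCC : GI1_Rel ⊥ (ThC a b m) (GI1_Phi GI1_r c '' ThC a b m') := by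
    unfold ThC
    rw [hMSC]
    unfold MSC
    exact GI1_congr (GI1_congr hC2 (GI1_sub subset_rfl)) (GI1_sub subset_rfl)
  refine GI1_of (GI1_Phi GI1_r c) (GI1_Phi GI1_r' c') (GI1_id GI1_r'_r ?_) ?_ ?_ ?_ hCC ?_ h
  · intro i n
    rw [hc, hc']
    beta_reduce
    by_cases h3 : i = 3
    · subst h3
      have : GI1_r 3 = 3 := rfl
      rw [this]
      by_cases hn : n = 1
      · rw [if_pos ⟨rfl, hn⟩, if_pos ⟨rfl, hn⟩]
        decide
      · rw [if_neg (fun h => hn h.2), if_neg (fun h => hn h.2)]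
        decide
    · have h4 : GI1_r i ≠ 3 := by
        unfold GI1_r
        split_ifs <;> omega
      rw [if_neg (fun h => h3 h.1), if_neg (fun h => h4 h.1)]
      decide
  · intro k hk
    rw [(Submodule.mem_bot F4).1 hk, map_zero]
    exact zero_mem _
  · intro k hk
    rw [(Submodule.mem_bot F4).1 hk, map_zero]
    exact zero_mem _
  · unfold ThC
    rw [hMSC]
    unfold MSC
    exact GI1_congr (GI1_congr hC1 (GI1_sub subset_rfl)) (GI1_sub subset_rfl)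
  · unfold ThP
    rw [image_union]
    refine GI1_congr hCC ?_
    rintro x (rfl | rfl | rfl)
    · refine ⟨_, ⟨e 3 0, Or.inl rfl, rfl⟩, 1, by decide, ?_⟩
      rw [e30, one_smul, vadd_self]
      exact zero_mem _
    · refine ⟨_, ⟨e 3 1, Or.inr (Or.inl rfl), rfl⟩, F4.v, by decide, ?_⟩
      have : F4.v * F4.w = 1 := by decide
      rw [e31, smul_smul, this, one_smul, vadd_self]
      exact zero_mem _
    · refine ⟨_, ⟨0, Or.inr (Or.inr rfl), rfl⟩, 1, by decide, ?_⟩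
      rw [map_zero, smul_zero, add_zero]
      exact zero_mem _

/-- GI1b. `La`: `Φ (e i n) = e (i+1 mod 3) n`, `Φ (e (i+4) 0) = e ((i+1 mod 3) + 4) 0`; `c ↦ c`,
`Lac' m' ↦ ω² • Lac' m` (up to the right scalar `ω` or `ω²`). -/
theorem GI1b {a b : Bool} {m m' : ℕ → ℕ} (h0 : m' 0 = m 1) (h1 : m' 1 = m 2) (h2 : m' 2 = m 0)
    (h : AK (LaK a b m) (LaC a b m) (LaP a b m)) : AK (LaK a b m') (LaC a b m') (LaP a b m') := by
  have hm : ∀ i ∈ I3, m' i = m (GI1_r i) := by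
    intro i hi
    rcases GI1_I3.1 hi with rfl | rfl | rfl
    · exact h0
    · exact h1
    · exact h2
  have h3 : ∀ i, i < 3 ↔ i ∈ I3 := by
    intro i
    rw [GI1_I3]
    omega
  have hr3 : ∀ i ∈ I3, GI1_r i ∈ I3 := by
    intro i hi
    rw [GI1_I3] at hi ⊢
    unfold GI1_r
    split_ifs <;> omega
  have hs3 : ∀ i ∈ I3, ∃ j ∈ I3, GI1_r j = i := by
    intro i hi
    rcases GI1_I3.1 hi with rfl | rfl | rfl
    · exact ⟨2, by decide, rfl⟩
    · exact ⟨0, by decide, rfl⟩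
    · exact ⟨1, by decide, rfl⟩
  set Φ := GI1_Phi GI1_r (fun _ _ => 1) with hΦ
  set Θ := GI1_Phi GI1_r' (fun _ _ => 1) with hΘ
  have hid : ∀ x, Θ (Φ x) = x := GI1_id GI1_r'_r (fun i n => by rw [mul_one])
  have hee : ∀ i n, Φ (e i n) = e (GI1_r i) n := by
    intro i n
    rw [hΦ, GI1_Phi_e, one_smul]
  have hB : ∀ i ∈ I3, Φ (LaB m' i) = LaB m (GI1_r i) := by
    intro i hi
    unfold LaB
    rw [← hm i hi]
    split_ifs
    · exact hee i 0
    · rw [hee]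
      rcases GI1_I3.1 hi with rfl | rfl | rfl <;> rfl
  have hL : Φ Lac = Lac := by
    unfold Lac
    rw [map_add, map_add, hee, hee, hee]
    have e0 : GI1_r 0 = 1 := rfl
    have e1 : GI1_r 1 = 2 := rfl
    have e2 : GI1_r 2 = 0 := rfl
    rw [e0, e1, e2]
    abel
  have hL' : Φ (Lac' m') = F4.v • Lac' m := by
    unfold Lac'
    rw [map_add, map_add, map_smul, map_smul, hB 0 (by decide), hB 1 (by decide),
      hB 2 (by decide)]
    have e0 : GI1_r 0 = 1 := rfl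
    have e1 : GI1_r 1 = 2 := rfl
    have e2 : GI1_r 2 = 0 := rfl
    have f1 : F4.v * F4.w = 1 := by decide
    have f2 : F4.v * F4.v = F4.w := by decide
    rw [e0, e1, e2, smul_add, smul_add, smul_smul, smul_smul, f1, f2, one_smul]
    abel
  have hMSC := GI1_MSC (m := m) (m' := m') (A := fun i => e i 0) (B := LaB m)
    (A' := fun i => e i 0) (B' := LaB m')
    (C0 := {x | ∃ i < 3, x = e i 0 ∨ x = LaB m' i} ∪ bs a {Lac} ∪ bs b {Lac' m'})
    Φ hm (fun i _ n => hee i n) (fun i _ => hee i 0) hB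
  have z : ∀ (K : Submodule F4 VV) (x : VV), x + x ∈ K := by
    intro K x
    rw [vadd_self]
    exact zero_mem _
  have hends : Φ '' {x | ∃ i < 3, x = e i 0 ∨ x = LaB m' i} =
      {x | ∃ i < 3, x = e i 0 ∨ x = LaB m i} := by
    ext y
    constructor
    · rintro ⟨x, ⟨i, hi, rfl | rfl⟩, rfl⟩
      · exact ⟨GI1_r i, (h3 _).2 (hr3 i ((h3 _).1 hi)), Or.inl (hee i 0)⟩
      · exact ⟨GI1_r i, (h3 _).2 (hr3 i ((h3 _).1 hi)), Or.inr (hB i ((h3 _).1 hi))⟩
    · rintro ⟨i, hi, rfl | rfl⟩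
      · obtain ⟨j, hj, rfl⟩ := hs3 i ((h3 _).1 hi)
        exact ⟨e j 0, ⟨j, (h3 _).2 hj, Or.inl rfl⟩, hee j 0⟩
      · obtain ⟨j, hj, rfl⟩ := hs3 i ((h3 _).1 hi)
        exact ⟨LaB m' j, ⟨j, (h3 _).2 hj, Or.inr rfl⟩, hB j hj⟩
  have hv : F4.w * F4.v = 1 := by decide
  have hC1 : GI1_Rel (LaK a b m)
      (Φ '' ({x | ∃ i < 3, x = e i 0 ∨ x = LaB m' i} ∪ bs a {Lac} ∪ bs b {Lac' m'}))
      ({x | ∃ i < 3, x = e i 0 ∨ x = LaB m i} ∪ bs a {Lac} ∪ bs b {Lac' m}) := by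
    rw [image_union, image_union, hends]
    refine GI1_congr (GI1_congr (GI1_sub subset_rfl) ?_) ?_
    · rintro _ ⟨x, ⟨hx, rfl⟩, rfl⟩
      exact ⟨Lac, ⟨hx, rfl⟩, 1, by decide, by rw [hL, one_smul]; exact z _ _⟩
    · rintro _ ⟨x, ⟨hx, rfl⟩, rfl⟩
      exact ⟨Lac' m, ⟨hx, rfl⟩, F4.v, by decide, by rw [hL']; exact z _ _⟩
  have hC2 : GI1_Rel (LaK a b m)
      ({x | ∃ i < 3, x = e i 0 ∨ x = LaB m i} ∪ bs a {Lac} ∪ bs b {Lac' m})
      (Φ '' ({x | ∃ i < 3, x = e i 0 ∨ x = LaB m' i} ∪ bs a {Lac} ∪ bs b {Lac' m'})) := by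
    rw [image_union, image_union, hends]
    refine GI1_congr (GI1_congr (GI1_sub subset_rfl) ?_) ?_
    · rintro x ⟨hx, rfl⟩
      exact ⟨_, ⟨Lac, ⟨hx, rfl⟩, rfl⟩, 1, by decide, by rw [hL, one_smul]; exact z _ _⟩
    · rintro x ⟨hx, rfl⟩
      exact ⟨_, ⟨Lac' m', ⟨hx, rfl⟩, rfl⟩, F4.w, by decide, by
        rw [hL', smul_smul, hv, one_smul]; exact z _ _⟩
  have hCC : GI1_Rel (LaK a b m) (LaC a b m) (Φ '' LaC a b m') := by
    unfold LaC
    rw [hMSC]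
    unfold MSC
    exact GI1_congr (GI1_congr hC2 (GI1_sub subset_rfl)) (GI1_sub subset_rfl)
  have hΘL : Θ Lac = Lac := by
    have := hid Lac
    rwa [hL] at this
  have hΘL' : Θ (Lac' m) = F4.w • Lac' m' := by
    have h4 := hid (Lac' m')
    rw [hL', map_smul] at h4
    rw [← h4, smul_smul, hv, one_smul]
  refine GI1_of Φ Θ hid ?_ ?_ ?_ hCC ?_ h
  · have : LaK a b m' ≤ (LaK a b m).comap Φ := by
      unfold LaK
      rw [span_le]
      rintro x (⟨hx, rfl⟩ | ⟨hx, rfl⟩)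
      · rw [SetLike.mem_coe, mem_comap, hL]
        exact subset_span (Or.inl ⟨hx, rfl⟩)
      · rw [SetLike.mem_coe, mem_comap, hL']
        exact smul_mem _ _ (subset_span (Or.inr ⟨hx, rfl⟩))
    exact this
  · have : LaK a b m ≤ (LaK a b m').comap Θ := by
      unfold LaK
      rw [span_le]
      rintro x (⟨hx, rfl⟩ | ⟨hx, rfl⟩)
      · rw [SetLike.mem_coe, mem_comap, hΘL]
        exact subset_span (Or.inl ⟨hx, rfl⟩)
      · rw [SetLike.mem_coe, mem_comap, hΘL']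
        exact smul_mem _ _ (subset_span (Or.inr ⟨hx, rfl⟩))
    exact this
  · unfold LaC
    rw [hMSC]
    unfold MSC
    exact GI1_congr (GI1_congr hC1 (GI1_sub subset_rfl)) (GI1_sub subset_rfl)
  · unfold LaP
    rw [image_union, image_union, image_union]
    refine GI1_congr (GI1_congr (GI1_congr hCC ?_) ?_) ?_
    · rintro x ⟨hx, i, hi, rfl⟩
      obtain ⟨j, hj, rfl⟩ := hs3 i ((h3 _).1 hi)
      refine ⟨_, ⟨Lac + e j 0, ⟨hx, j, (h3 _).2 hj, rfl⟩, rfl⟩, 1, by decide, ?_⟩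
      rw [map_add, hL, hee, one_smul]
      exact z _ _
    · rintro x ⟨hx, i, hi, rfl⟩
      obtain ⟨j, hj, rfl⟩ := hs3 i ((h3 _).1 hi)
      refine ⟨_, ⟨Lac' m' + g3 j • LaB m' j, ⟨hx, j, (h3 _).2 hj, rfl⟩, rfl⟩, F4.w,
        by decide, ?_⟩
      have hg : F4.w * g3 j = g3 (GI1_r j) := by
        rcases GI1_I3.1 hj with rfl | rfl | rfl <;> decide
      rw [map_add, hL', map_smul, hB j hj, smul_add, smul_smul, smul_smul, hv, one_smul, hg]
      exact z _ _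
    · rintro x rfl
      refine ⟨_, ⟨0, rfl, rfl⟩, 1, by decide, ?_⟩
      rw [map_zero, smul_zero, add_zero]
      exact zero_mem _

end QG
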