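import Pool.Agent.Lib.QG.GB7
import Pool.Agent.Lib.QG.GB2

/-! MP_2e6874_co, part (A), row GI2. Exchange of the strands 1, 2 (with the Frobenius map). -/

set_option autoImplicit false

namespace QG
open Set Matroid Submodule

private theorem GI2_frob_smul (s : F4) (x : VV) : frobV (s • x) = F4.frob s • frobV x := by
  ext k
  show F4.frob ((s • x) k) = (F4.frob s • frobV x) k
  rw [Finsupp.smul_apply, Finsupp.smul_apply, smul_eq_mul, smul_eq_mul, F4.frob_mul]
  rfl

private theorem GI2_frob_e (i n : ℕ) : frobV (e i n) = e i n := by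
  ext k
  rw [frobV_apply]
  unfold e
  rw [Finsupp.single_apply]
  split_ifs <;> rfl

/-- change of coordinates followed by the Frobenius map -/
private theorem GI2_of {K K' : Submodule F4 VV} {C C' P P' : Set VV} (Φ Θ : VV →ₗ[F4] VV)
    (hid : ∀ x, Θ (Φ x) = x) (hid' : ∀ x, Φ (Θ x) = x) (hK : ∀ k, k ∈ K ↔ frobV (Φ k) ∈ K')
    (hC : (fun x => frobV (Φ x)) '' C = C') (hP : (fun x => frobV (Φ x)) '' P = P')
    (h : AK K' C' P') : AK K C P := by
  have h2 : AK (K.comap Θ) (Φ '' C) (Φ '' P) := by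
    refine AK.of_frob (K' := K') (C' := C') (P' := P') ?_ ?_ ?_ h
    · intro k
      rw [Submodule.mem_comap, hK, hid']
    · rw [image_image, hC]
    · intro p' hp'
      rw [← hP] at hp'
      obtain ⟨p, hp, rfl⟩ := hp'
      refine ⟨Φ p, mem_image_of_mem _ hp, 1, one_ne_zero, ?_⟩
      rw [one_smul, vadd_self]
      exact zero_mem _
  refine AK.of_map Φ Θ ?_ ?_ ?_ rfl ?_ h2
  · intro k hk
    rw [Submodule.mem_comap, hid]
    exact hk
  · intro k hk
    exact hk
  · intro x _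
    rw [hid, vadd_self]
    exact zero_mem _
  · rintro _ ⟨p, hp, rfl⟩
    refine ⟨p, hp, 1, one_ne_zero, ?_⟩
    rw [one_smul, vadd_self]
    exact zero_mem _

/-- exchange of the strands -/
private def GI2_r (i : ℕ) : ℕ :=
  if i = 1 then 2 else if i = 2 then 1 else if i = 5 then 6 else if i = 6 then 5 else i

private theorem GI2_rr (i : ℕ) : GI2_r (GI2_r i) = i := by
  by_cases h : i ≤ 6
  · interval_cases i <;> rfl
  · have h1 : GI2_r i = i := by
      unfold GI2_r
      rw [if_neg (by omega), if_neg (by omega), if_neg (by omega), if_neg (by omega)]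
    rw [h1, h1]

private noncomputable def GI2_Phi : VV →ₗ[F4] VV :=
  Finsupp.linearCombination F4 fun k : ℕ × ℕ => e (GI2_r k.1) k.2

private theorem GI2_Phi_e (i n : ℕ) : GI2_Phi (e i n) = e (GI2_r i) n := by
  unfold GI2_Phi e
  rw [Finsupp.linearCombination_single, one_smul]

private theorem GI2_id (x : VV) : GI2_Phi (GI2_Phi x) = x := by
  have h : GI2_Phi.comp GI2_Phi = LinearMap.id := by
    refine Finsupp.lhom_ext' fun k => LinearMap.ext_ring ?_
    obtain ⟨i, n⟩ := k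
    show GI2_Phi (GI2_Phi (e i n)) = e i n
    rw [GI2_Phi_e, GI2_Phi_e, GI2_rr]
  exact LinearMap.congr_fun h x

private noncomputable def GI2_F (x : VV) : VV := frobV (GI2_Phi x)

private theorem GI2_F_add (x y : VV) : GI2_F (x + y) = GI2_F x + GI2_F y := by
  unfold GI2_F
  rw [map_add, map_add]

private theorem GI2_F_zero : GI2_F 0 = 0 := by
  unfold GI2_F
  rw [map_zero, map_zero]

private theorem GI2_F_smul (s : F4) (x : VV) : GI2_F (s • x) = F4.frob s • GI2_F x := by
  unfold GI2_F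
  rw [map_smul, GI2_frob_smul]

private theorem GI2_F_e (i n : ℕ) : GI2_F (e i n) = e (GI2_r i) n := by
  unfold GI2_F
  rw [GI2_Phi_e, GI2_frob_e]

private theorem GI2_I3 {i : ℕ} : i ∈ I3 ↔ i = 0 ∨ i = 1 ∨ i = 2 := by
  unfold I3
  simp

private theorem GI2_r_mem : ∀ i ∈ I3, GI2_r i ∈ I3 := by
  intro i hi
  rcases GI2_I3.1 hi with rfl | rfl | rfl <;> decide

/-- the image of a set of strands under an additive map -/
private theorem GI2_MSC {F : VV → VV} (hadd : ∀ x y, F (x + y) = F x + F y) {I : Finset ℕ}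
    {r : ℕ → ℕ} (hr : ∀ i ∈ I, r i ∈ I) (hrr : ∀ i, r (r i) = i) {m m' : ℕ → ℕ} {A B A' B' : ℕ → VV}
    {C0 : Set VV} (hm : ∀ i ∈ I, m' i = m (r i)) (he : ∀ i ∈ I, ∀ n, F (e i n) = e (r i) n)
    (hA : ∀ i ∈ I, F (A' i) = A (r i)) (hB : ∀ i ∈ I, F (B' i) = B (r i)) :
    F '' MSC I m' A' B' C0 = MSC I m A B (F '' C0) := by
  have hu : ∀ i ∈ I, ∀ n, F (msu m' A' B' i n) = msu m A B (r i) n := by
    intro i hi n
    unfold msu
    rw [hm i hi]
    split_ifs
    · exact hA i hi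
    · exact hB i hi
    · exact he i hi n
  unfold MSC
  rw [image_union, image_union]
  congr 1
  · congr 1
    ext y
    constructor
    · rintro ⟨_, ⟨i, hi, n, h0, hn, rfl⟩, rfl⟩
      exact ⟨r i, hr i hi, n, h0, by rwa [← hm i hi], he i hi n⟩
    · rintro ⟨i, hi, n, h0, hn, rfl⟩
      have h1 := hm (r i) (hr i hi)
      rw [hrr] at h1
      exact ⟨e (r i) n, ⟨r i, hr i hi, n, h0, by rwa [h1], rfl⟩, by rw [he _ (hr i hi), hrr]⟩
  · ext y
    constructor
    · rintro ⟨_, ⟨i, hi, n, hn, rfl⟩, rfl⟩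
      refine ⟨r i, hr i hi, n, by rwa [← hm i hi], ?_⟩
      rw [hadd, hu i hi, hu i hi]
    · rintro ⟨i, hi, n, hn, rfl⟩
      have h1 := hm (r i) (hr i hi)
      rw [hrr] at h1
      refine ⟨msu m' A' B' (r i) n + msu m' A' B' (r i) (n + 1), ⟨r i, hr i hi, n, by rwa [h1], rfl⟩,
        ?_⟩
      rw [hadd, hu _ (hr i hi), hu _ (hr i hi), hrr]

private theorem GI2_bs (F : VV → VV) (b : Bool) (X : Set VV) : F '' bs b X = bs b (F '' X) := by
  ext y
  constructor
  · rintro ⟨x, ⟨h1, h2⟩, rfl⟩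
    exact ⟨h1, x, h2, rfl⟩
  · rintro ⟨h1, x, h2, rfl⟩
    exact ⟨x, ⟨h1, h2⟩, rfl⟩

private theorem GI2_fw : F4.frob F4.w = F4.v := by decide

private theorem GI2_fv : F4.frob F4.v = F4.w := by decide

private theorem GI2_g3 : ∀ i ∈ I3, F4.frob (g3 i) = g3 (GI2_r i) := by
  intro i hi
  rcases GI2_I3.1 hi with rfl | rfl | rfl <;> decide

/-- GI2a. First `AK.of_map` with the exchange of the strands 1 and 2 (`e 1 n ↔ e 2 n`), which maps the
configuration of `m'` to the one of `m` with gains `1, ω², ω`; then `AK.of_frob` (the Frobenius map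
exchanges `ω` and `ω²` and fixes all `e i n`). Or the other order. -/
theorem GI2a {a b : Bool} {m m' : ℕ → ℕ} (h0 : m' 0 = m 0) (h1 : m' 1 = m 2) (h2 : m' 2 = m 1)
    (h : AK ⊥ (ThC a b m) (ThP a b m)) : AK ⊥ (ThC a b m') (ThP a b m') := by
  have hm : ∀ i ∈ I3, m' i = m (GI2_r i) := by
    intro i hi
    rcases GI2_I3.1 hi with rfl | rfl | rfl
    · exact h0
    · exact h1
    · exact h2
  have e30 : GI2_F (e 3 0) = e 3 0 := GI2_F_e 3 0
  have e31 : GI2_F (e 3 1) = e 3 1 := GI2_F_e 3 1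
  have hC : GI2_F '' ThC a b m' = ThC a b m := by
    unfold ThC
    rw [GI2_MSC (m := m) (A := fun _ => e 3 0) (B := fun i => g3 i • e 3 1) GI2_F_add GI2_r_mem
      GI2_rr hm (fun i _ n => GI2_F_e i n) (fun i _ => e30) (fun i hi => by
        rw [GI2_F_smul, e31, GI2_g3 i hi])]
    rw [image_union, GI2_bs, GI2_bs, image_singleton, image_singleton, e30, e31]
  refine GI2_of GI2_Phi GI2_Phi GI2_id GI2_id ?_ hC ?_ h
  · intro k
    rw [Submodule.mem_bot, Submodule.mem_bot, EmbeddingLike.map_eq_zero_iff]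
    constructor
    · intro hk
      rw [hk, map_zero]
    · intro hk
      rw [← GI2_id k, hk, map_zero]
  · show GI2_F '' ThP a b m' = ThP a b m
    unfold ThP
    rw [image_union, hC, image_insert_eq, image_insert_eq, image_singleton, e30, e31, GI2_F_zero]

/-- GI2b. (`e 1 n ↔ e 2 n`, `e 5 0 ↔ e 6 0`, then Frobenius.) -/
theorem GI2b {a b : Bool} {m m' : ℕ → ℕ} (h0 : m' 0 = m 0) (h1 : m' 1 = m 2) (h2 : m' 2 = m 1)
    (h : AK (LaK a b m) (LaC a b m) (LaP a b m)) : AK (LaK a b m') (LaC a b m') (LaP a b m') := by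
  have h3 : ∀ i, i < 3 ↔ i ∈ I3 := by
    intro i
    rw [GI2_I3]
    omega
  have key : ∀ {m m' : ℕ → ℕ}, (∀ i ∈ I3, m' i = m (GI2_r i)) →
      (∀ i ∈ I3, GI2_F (LaB m' i) = LaB m (GI2_r i)) ∧ GI2_F (Lac' m') = Lac' m := by
    intro m m' hm
    have hB : ∀ i ∈ I3, GI2_F (LaB m' i) = LaB m (GI2_r i) := by
      intro i hi
      unfold LaB
      rw [← hm i hi]
      split_ifs
      · exact GI2_F_e i 0
      · rw [GI2_F_e]
        rcases GI2_I3.1 hi with rfl | rfl | rfl <;> rfl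
    refine ⟨hB, ?_⟩
    unfold Lac'
    rw [GI2_F_add, GI2_F_add, GI2_F_smul, GI2_F_smul, hB 0 (by decide), hB 1 (by decide),
      hB 2 (by decide), GI2_fw, GI2_fv]
    show LaB m 0 + F4.v • LaB m 2 + F4.w • LaB m 1 = _
    abel
  have hm : ∀ i ∈ I3, m' i = m (GI2_r i) := by
    intro i hi
    rcases GI2_I3.1 hi with rfl | rfl | rfl
    · exact h0
    · exact h1
    · exact h2
  have hm2 : ∀ i ∈ I3, m i = m' (GI2_r i) := by
    intro i hi
    rw [hm _ (GI2_r_mem i hi), GI2_rr]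
  obtain ⟨hB, hL'⟩ := key hm
  obtain ⟨-, hL2'⟩ := key hm2
  have hL : GI2_F Lac = Lac := by
    unfold Lac
    rw [GI2_F_add, GI2_F_add, GI2_F_e, GI2_F_e, GI2_F_e]
    show e 0 0 + e 2 0 + e 1 0 = _
    abel
  have hr : ∀ {i}, i < 3 → GI2_r i < 3 := by
    intro i hi
    exact (h3 _).2 (GI2_r_mem i ((h3 _).1 hi))
  have hends : GI2_F '' {x | ∃ i < 3, x = e i 0 ∨ x = LaB m' i} =
      {x | ∃ i < 3, x = e i 0 ∨ x = LaB m i} := by
    ext y
    constructor
    · rintro ⟨x, ⟨i, hi, rfl | rfl⟩, rfl⟩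
      · exact ⟨GI2_r i, hr hi, Or.inl (GI2_F_e i 0)⟩
      · exact ⟨GI2_r i, hr hi, Or.inr (hB i ((h3 _).1 hi))⟩
    · rintro ⟨i, hi, rfl | rfl⟩
      · exact ⟨e (GI2_r i) 0, ⟨GI2_r i, hr hi, Or.inl rfl⟩, by rw [GI2_F_e, GI2_rr]⟩
      · exact ⟨LaB m' (GI2_r i), ⟨GI2_r i, hr hi, Or.inr rfl⟩, by
          rw [hB _ ((h3 _).1 (hr hi)), GI2_rr]⟩
  have hC : GI2_F '' LaC a b m' = LaC a b m := by
    unfold LaC
    rw [GI2_MSC (m := m) (A := fun i => e i 0) (B := LaB m) GI2_F_add GI2_r_mem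
      GI2_rr hm (fun i _ n => GI2_F_e i n) (fun i _ => GI2_F_e i 0) hB]
    rw [image_union, image_union, GI2_bs, GI2_bs, image_singleton, image_singleton, hL, hL', hends]
  have hsub : ∀ {m m' : ℕ → ℕ}, GI2_F (Lac' m') = Lac' m → ∀ k ∈ LaK a b m',
      GI2_F k ∈ LaK a b m := by
    intro m m' hL' k hk
    unfold LaK at hk
    induction hk using Submodule.span_induction with
    | mem x hx =>
      rcases hx with ⟨hx, rfl⟩ | ⟨hx, rfl⟩
      · rw [hL]
        exact subset_span (Or.inl ⟨hx, rfl⟩)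
      · rw [hL']
        exact subset_span (Or.inr ⟨hx, rfl⟩)
    | zero =>
      rw [GI2_F_zero]
      exact zero_mem _
    | add x y _ _ hx hy =>
      rw [GI2_F_add]
      exact add_mem hx hy
    | smul s x _ hx =>
      rw [GI2_F_smul]
      exact smul_mem _ _ hx
  have hFF : ∀ x, GI2_F (GI2_F x) = x := by
    intro x
    induction x using Finsupp.induction_linear with
    | zero => rw [GI2_F_zero, GI2_F_zero]
    | add x y hx hy => rw [GI2_F_add, GI2_F_add, hx, hy]
    | single k s =>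
      obtain ⟨i, n⟩ := k
      have h4 : (Finsupp.single (i, n) s : VV) = s • e i n := by
        unfold e
        rw [Finsupp.smul_single, smul_eq_mul, mul_one]
      rw [h4, GI2_F_smul, GI2_F_smul, GI2_F_e, GI2_F_e, GI2_rr, F4.frob_frob]
  refine GI2_of GI2_Phi GI2_Phi GI2_id GI2_id ?_ hC ?_ h
  · intro k
    constructor
    · exact hsub hL' k
    · intro hk
      have h5 := hsub hL2' _ hk
      rwa [show frobV (GI2_Phi k) = GI2_F k from rfl, hFF] at h5
  · show GI2_F '' LaP a b m' = LaP a b m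
    unfold LaP
    rw [image_union, image_union, image_union, hC, GI2_bs, GI2_bs, image_singleton, GI2_F_zero]
    congr 1
    congr 1
    · congr 1
      congr 1
      ext y
      constructor
      · rintro ⟨x, ⟨i, hi, rfl⟩, rfl⟩
        exact ⟨GI2_r i, hr hi, by rw [GI2_F_add, hL, GI2_F_e]⟩
      · rintro ⟨i, hi, rfl⟩
        exact ⟨Lac + e (GI2_r i) 0, ⟨GI2_r i, hr hi, rfl⟩, by
          rw [GI2_F_add, hL, GI2_F_e, GI2_rr]⟩
    · congr 1
      ext y
      constructor
      · rintro ⟨x, ⟨i, hi, rfl⟩, rfl⟩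
        refine ⟨GI2_r i, hr hi, ?_⟩
        rw [GI2_F_add, hL', GI2_F_smul, hB i ((h3 _).1 hi), GI2_g3 i ((h3 _).1 hi)]
      · rintro ⟨i, hi, rfl⟩
        refine ⟨Lac' m' + g3 (GI2_r i) • LaB m' (GI2_r i), ⟨GI2_r i, hr hi, rfl⟩, ?_⟩
        have h6 := (h3 _).1 (hr hi)
        rw [GI2_F_add, hL', GI2_F_smul, hB _ h6, GI2_g3 _ h6, GI2_rr]

/-- GI2c. `De`: Frobenius, `g ↦ g²`. -/
theorem GI2c {g : F4} {a b : Bool} {I : Finset ℕ} {l : ℕ → ℕ}
    (h : AK (DeK b I) (DeC g a b I l) (DeP g a b I l)) :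
    AK (DeK b I) (DeC (g * g) a b I l) (DeP (g * g) a b I l) := by
  have hg' : ∀ x : F4, F4.frob (x * x) = x := by decide
  have hg : F4.frob (g * g) = g := hg' g
  have he : ∀ i n, frobV (e i n) = e i n := GI2_frob_e
  have hge : frobV ((g * g) • e 0 0) = g • e 0 0 := by
    rw [GI2_frob_smul, hg, he]
  have hD : frobV (Dec I) = Dec I := by
    unfold Dec
    rw [map_add, map_sum, he]
    congr 1
    exact Finset.sum_congr rfl fun i _ => he i 0
  have hC : frobV '' DeC (g * g) a b I l = DeC g a b I l := by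
    unfold DeC
    rw [GI2_MSC (F := frobV) (r := fun i => i) (m := l) (A := fun i => e i 0)
      (B := fun _ => g • e 0 0) (fun x y => map_add _ _ _) (fun i hi => hi) (fun i => rfl)
      (fun i _ => rfl) (fun i _ n => he i n) (fun i _ => he i 0) (fun i _ => hge)]
    rw [image_union, image_union, GI2_bs, GI2_bs, image_singleton, image_singleton, hD, he]
    congr 1
    congr 1
    congr 1
    ext y
    constructor
    · rintro ⟨x, ⟨i, hi, rfl⟩, rfl⟩
      exact ⟨i, hi, he i 0⟩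
    · rintro ⟨i, hi, rfl⟩
      exact ⟨e i 0, ⟨i, hi, rfl⟩, he i 0⟩
  have hsub : ∀ k ∈ DeK b I, frobV k ∈ DeK b I := by
    intro k hk
    unfold DeK at hk
    induction hk using Submodule.span_induction with
    | mem x hx =>
      obtain ⟨hx, rfl⟩ := hx
      rw [hD]
      exact subset_span ⟨hx, rfl⟩
    | zero =>
      rw [map_zero]
      exact zero_mem _
    | add x y _ _ hx hy =>
      rw [map_add]
      exact add_mem hx hy
    | smul s x _ hx =>
      rw [GI2_frob_smul]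
      exact smul_mem _ _ hx
  have hFF : ∀ x : VV, frobV (frobV x) = x := by
    intro x
    ext k
    rw [frobV_apply, frobV_apply, F4.frob_frob]
  refine AK.of_frob (K' := DeK b I) (C' := DeC g a b I l) (P' := DeP g a b I l) ?_ ?_ ?_ h
  · intro k
    constructor
    · exact hsub k
    · intro hk
      have h5 := hsub _ hk
      rwa [hFF] at h5
  · rw [hC]
  · have hP : frobV '' DeP (g * g) a b I l = DeP g a b I l := by
      unfold DeP
      rw [image_union, image_union, hC, image_insert_eq, image_singleton, he, map_zero, GI2_bs,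
        image_union, image_union, image_singleton, map_add, hD, hge]
      congr 1
      congr 1
      congr 1
      · congr 1
        ext y
        constructor
        · rintro ⟨x, ⟨i, hi, rfl⟩, rfl⟩
          exact ⟨i, hi, by rw [map_add, hD, he]⟩
        · rintro ⟨i, hi, rfl⟩
          exact ⟨Dec I + e i 0, ⟨i, hi, rfl⟩, by rw [map_add, hD, he]⟩
      · ext y
        constructor
        · rintro ⟨x, ⟨i, hi, hl, rfl⟩, rfl⟩
          exact ⟨i, hi, hl, by rw [map_add, map_add, hD, he, hge]⟩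
        · rintro ⟨i, hi, hl, rfl⟩
          exact ⟨Dec I + e i 0 + (g * g) • e 0 0, ⟨i, hi, hl, rfl⟩, by
            rw [map_add, map_add, hD, he, hge]⟩
    intro p' hp'
    rw [← hP] at hp'
    obtain ⟨p, hp, rfl⟩ := hp'
    refine ⟨p, hp, 1, one_ne_zero, ?_⟩
    rw [one_smul, vadd_self]
    exact zero_mem _

end QG
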