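import Pool.Agent.Lib.QG.GB2

/-! MP_2e6874_co, part (A), row GI3. Reversal of all strands. -/

set_option autoImplicit false

namespace QG
open Set Matroid Submodule

private def GI3_pi (i : ℕ) : ℕ := if i = 0 then 0 else 3 - i

private theorem GI3_pi_lt {i : ℕ} (hi : i < 3) : GI3_pi i < 3 := by
  unfold GI3_pi
  split_ifs <;> omega

private theorem GI3_pi_pi {i : ℕ} (hi : i < 3) : GI3_pi (GI3_pi i) = i := by
  interval_cases i <;> rfl

private theorem GI3_g {i : ℕ} (hi : i < 3) : g3 i * g3 (GI3_pi i) = 1 := by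
  interval_cases i <;> decide

private theorem GI3_g0 (i : ℕ) : g3 i ≠ 0 := by
  unfold g3
  split_ifs <;> decide

/-- the reversal -/
private noncomputable def GI3_rev (m : ℕ → ℕ) : VV →ₗ[F4] VV :=
  Finsupp.linearCombination F4 (fun p : ℕ × ℕ =>
    if p.1 < 3 then g3 p.1 • e (GI3_pi p.1) (m p.1 - p.2)
    else if p = (3, 0) then e 3 1 else if p = (3, 1) then e 3 0 else 0)

private theorem GI3_lc (f : ℕ × ℕ → VV) (i n : ℕ) :
    Finsupp.linearCombination F4 f (e i n) = f (i, n) := by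
  rw [e, Finsupp.linearCombination_single, one_smul]

private theorem GI3_rev_e {m : ℕ → ℕ} {i : ℕ} (hi : i < 3) (n : ℕ) :
    GI3_rev m (e i n) = g3 i • e (GI3_pi i) (m i - n) := by
  rw [GI3_rev, GI3_lc]
  simp only [hi, if_true]

private theorem GI3_rev_30 (m : ℕ → ℕ) : GI3_rev m (e 3 0) = e 3 1 := by
  rw [GI3_rev, GI3_lc]
  simp

private theorem GI3_rev_31 (m : ℕ → ℕ) : GI3_rev m (e 3 1) = e 3 0 := by
  rw [GI3_rev, GI3_lc]
  simp

private def GI3_rel (m m' : ℕ → ℕ) : Prop := ∀ i < 3, m' i = m (GI3_pi i)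

private theorem GI3_rel.symm {m m' : ℕ → ℕ} (h : GI3_rel m m') : GI3_rel m' m := by
  intro i hi
  rw [h _ (GI3_pi_lt hi), GI3_pi_pi hi]

private theorem GI3_msu {m m' : ℕ → ℕ} (h : GI3_rel m m') {i n : ℕ} (hi : i < 3)
    (hm : 1 ≤ m' i) (hn : n ≤ m' i) :
    GI3_rev m' (msu m' (fun _ => e 3 0) (fun i => g3 i • e 3 1) i n) =
      g3 i • msu m (fun _ => e 3 0) (fun i => g3 i • e 3 1) (GI3_pi i) (m' i - n) := by
  have h1 := h i hi
  unfold msu
  by_cases hn0 : n = 0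
  · subst hn0
    rw [if_pos rfl, if_neg (by omega : ¬ m' i - 0 = 0), if_pos (by omega : m' i - 0 = m (GI3_pi i)),
      GI3_rev_30, smul_smul, GI3_g hi, one_smul]
  · rw [if_neg hn0]
    by_cases hn1 : n = m' i
    · rw [if_pos hn1, if_pos (by omega : m' i - n = 0), map_smul, GI3_rev_31]
    · rw [if_neg hn1, if_neg (by omega : ¬ m' i - n = 0), if_neg (by omega : ¬ m' i - n = m (GI3_pi i)),
        GI3_rev_e hi]

private theorem GI3_C {a b : Bool} {m m' : ℕ → ℕ} (h : GI3_rel m m') :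
    ∀ c ∈ ThC b a m', ∃ c' ∈ ThC a b m, ∃ s : F4, s ≠ 0 ∧ GI3_rev m' c = s • c' := by
  intro c hc
  rcases hc with ((hc | hc) | hc) | hc
  · obtain ⟨hb, hc⟩ := hc
    rw [mem_singleton_iff] at hc
    subst hc
    refine ⟨e 3 1, Or.inl (Or.inl (Or.inr ⟨hb, rfl⟩)), 1, one_ne_zero, ?_⟩
    rw [GI3_rev_30, one_smul]
  · obtain ⟨hb, hc⟩ := hc
    rw [mem_singleton_iff] at hc
    subst hc
    refine ⟨e 3 0, Or.inl (Or.inl (Or.inl ⟨hb, rfl⟩)), 1, one_ne_zero, ?_⟩
    rw [GI3_rev_31, one_smul]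
  · obtain ⟨i, hi, n, hn0, hn, rfl⟩ := hc
    have hi3 : i < 3 := by
      simp only [I3, Finset.mem_insert, Finset.mem_singleton] at hi
      omega
    have h1 := h i hi3
    have hj3 := GI3_pi_lt hi3
    refine ⟨e (GI3_pi i) (m' i - n), Or.inl (Or.inr ⟨GI3_pi i, ?_, m' i - n, by omega, by omega, rfl⟩),
      g3 i, GI3_g0 i, GI3_rev_e hi3 n⟩
    simp only [I3, Finset.mem_insert, Finset.mem_singleton]
    omega
  · obtain ⟨i, hi, n, hn, rfl⟩ := hc
    have hi3 : i < 3 := by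
      simp only [I3, Finset.mem_insert, Finset.mem_singleton] at hi
      omega
    have h1 := h i hi3
    have hj3 := GI3_pi_lt hi3
    refine ⟨_, Or.inr ⟨GI3_pi i, ?_, m' i - (n + 1), by omega, rfl⟩, g3 i, GI3_g0 i, ?_⟩
    · simp only [I3, Finset.mem_insert, Finset.mem_singleton]
      omega
    · rw [map_add, GI3_msu h hi3 (by omega) (by omega), GI3_msu h hi3 (by omega) (by omega),
        ← smul_add, add_comm]
      have h2 : m' i - n = m' i - (n + 1) + 1 := by omega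
      rw [h2]

private theorem GI3_P {a b : Bool} {m m' : ℕ → ℕ} (h : GI3_rel m m') :
    ∀ c ∈ ThP b a m', ∃ c' ∈ ThP a b m, ∃ s : F4, s ≠ 0 ∧ GI3_rev m' c = s • c' := by
  rintro c (hc | hc)
  · obtain ⟨c', hc', s, hs, h1⟩ := GI3_C h c hc
    exact ⟨c', Or.inl hc', s, hs, h1⟩
  · simp only [mem_insert_iff, mem_singleton_iff] at hc
    rcases hc with rfl | rfl | rfl
    · exact ⟨e 3 1, Or.inr (by simp), 1, one_ne_zero, by rw [GI3_rev_30, one_smul]⟩
    · exact ⟨e 3 0, Or.inr (by simp), 1, one_ne_zero, by rw [GI3_rev_31, one_smul]⟩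
    · exact ⟨0, Or.inr (by simp), 1, one_ne_zero, by rw [map_zero, smul_zero]⟩

private theorem GI3_inv_msu {m m' : ℕ → ℕ} (h : GI3_rel m m') {i n : ℕ} (hi : i < 3)
    (hm : 1 ≤ m' i) (hn : n ≤ m' i) :
    GI3_rev m (GI3_rev m' (msu m' (fun _ => e 3 0) (fun i => g3 i • e 3 1) i n)) =
      msu m' (fun _ => e 3 0) (fun i => g3 i • e 3 1) i n := by
  have h1 := h i hi
  rw [GI3_msu h hi hm hn, map_smul, GI3_msu h.symm (GI3_pi_lt hi) (by omega) (by omega), smul_smul,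
    GI3_g hi, one_smul, GI3_pi_pi hi]
  congr 1
  omega

private theorem GI3_inv {a b : Bool} {m m' : ℕ → ℕ} (h : GI3_rel m m') :
    ∀ c ∈ ThP b a m', GI3_rev m (GI3_rev m' c) = c := by
  rintro c (hc | hc)
  · rcases hc with ((hc | hc) | hc) | hc
    · obtain ⟨hb, hc⟩ := hc
      rw [mem_singleton_iff] at hc
      subst hc
      rw [GI3_rev_30, GI3_rev_31]
    · obtain ⟨hb, hc⟩ := hc
      rw [mem_singleton_iff] at hc
      subst hc
      rw [GI3_rev_31, GI3_rev_30]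
    · obtain ⟨i, hi, n, hn0, hn, rfl⟩ := hc
      have hi3 : i < 3 := by
        simp only [I3, Finset.mem_insert, Finset.mem_singleton] at hi
        omega
      have h1 := h i hi3
      rw [GI3_rev_e hi3, map_smul, GI3_rev_e (GI3_pi_lt hi3), smul_smul, GI3_g hi3, one_smul,
        GI3_pi_pi hi3]
      congr 1
      omega
    · obtain ⟨i, hi, n, hn, rfl⟩ := hc
      have hi3 : i < 3 := by
        simp only [I3, Finset.mem_insert, Finset.mem_singleton] at hi
        omega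
      rw [map_add, map_add, GI3_inv_msu h hi3 (by omega) (by omega),
        GI3_inv_msu h hi3 (by omega) (by omega)]
  · simp only [mem_insert_iff, mem_singleton_iff] at hc
    rcases hc with rfl | rfl | rfl
    · rw [GI3_rev_30, GI3_rev_31]
    · rw [GI3_rev_31, GI3_rev_30]
    · rw [map_zero, map_zero]

private theorem GI3_LnK {K : Submodule F4 VV} {C C' : Set VV}
    (h1 : ∀ c ∈ C, ∃ c' ∈ C', ∃ s : F4, s ≠ 0 ∧ c = s • c') : LnK K C ⊆ LnK K C' := by
  rintro y ⟨hy, c, hc, s, hs⟩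
  obtain ⟨c', hc', r, hr, rfl⟩ := h1 c hc
  exact ⟨hy, c', hc', s * r, by rwa [mul_smul]⟩

/-- GI3a. `Th a b m → Th b a m'`. `Φ` from the configuration of `m'` to the one of `m`, or back; e.g.
`π = (1 2)`, `Φ (e 3 0) = e 3 1`, `Φ (e 3 1) = e 3 0`, `Φ (e i n) = g3 i • e (π i) (m i - n)` for
`0 < n < m i`: it maps the strand `i` of `m` (vertex `n`) to `g3 i` times the strand `π i` of `m'`
(vertex `m i - n`), as `g3 i * g3 (π i) = 1`. -/
theorem GI3a {a b : Bool} {m m' : ℕ → ℕ} (h0 : m' 0 = m 0) (h1 : m' 1 = m 2) (h2 : m' 2 = m 1)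
    (h : AK ⊥ (ThC a b m) (ThP a b m)) : AK ⊥ (ThC b a m') (ThP b a m') := by
  have hr : GI3_rel m m' := by
    intro i hi
    interval_cases i
    · exact h0
    · exact h1
    · exact h2
  have hCP : ∀ x ∈ ThC b a m' ∪ ThP b a m', x ∈ ThP b a m' := by
    rintro x (hx | hx)
    · exact Or.inl hx
    · exact hx
  refine AK.of_map (GI3_rev m') (GI3_rev m) ?_ ?_ ?_ ?_ ?_ h
  · intro k hk
    rw [mem_bot] at hk ⊢
    rw [hk, map_zero]
  · intro k hk
    rw [mem_bot] at hk ⊢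
    rw [hk, map_zero]
  · intro x hx
    rw [mem_bot, GI3_inv hr x (hCP x hx), vadd_self]
  · refine subset_antisymm (GI3_LnK ?_) (GI3_LnK ?_)
    · rintro _ ⟨c, hc, rfl⟩
      exact GI3_C hr c hc
    · intro c' hc'
      obtain ⟨c, hc, s, hs, h3⟩ := GI3_C hr.symm c' hc'
      refine ⟨GI3_rev m' c, ⟨c, hc, rfl⟩, s, hs, ?_⟩
      rw [← map_smul, ← h3, GI3_inv hr.symm c' (Or.inl hc')]
  · intro p' hp'
    obtain ⟨p, hp, s, hs, h3⟩ := GI3_P hr.symm p' hp'
    refine ⟨p, hp, s⁻¹, inv_ne_zero hs, ?_⟩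
    have h4 : p' = s • GI3_rev m' p := by
      rw [← map_smul, ← h3, GI3_inv hr.symm p' hp']
    rw [mem_bot]
    conv_lhs => rw [h4]
    rw [smul_smul, inv_mul_cancel₀ hs, one_smul, vadd_self]

end QG
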