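import Pool.Agent.Lib.QG.GB2

/-! MP_2e6874_co, part (A), row GI4. Reversal of all strands, family `La`. -/

set_option autoImplicit false

namespace QG
open Set Matroid Submodule

private def GI4_pi (i : ℕ) : ℕ := if i = 0 then 0 else 3 - i

private theorem GI4_pi_lt {i : ℕ} (hi : i < 3) : GI4_pi i < 3 := by
  unfold GI4_pi
  split_ifs <;> omega

private theorem GI4_pi_pi {i : ℕ} (hi : i < 3) : GI4_pi (GI4_pi i) = i := by
  interval_cases i <;> rfl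

private theorem GI4_g {i : ℕ} (hi : i < 3) : g3 i * g3 (GI4_pi i) = 1 := by
  interval_cases i <;> decide

private theorem GI4_g' {i : ℕ} (hi : i < 3) : g3 (GI4_pi i) * g3 i = 1 := by
  rw [mul_comm, GI4_g hi]

private theorem GI4_g0 (i : ℕ) : g3 i ≠ 0 := by
  unfold g3
  split_ifs <;> decide

private theorem GI4_mem {i : ℕ} : i ∈ I3 ↔ i < 3 := by
  simp only [I3, Finset.mem_insert, Finset.mem_singleton]
  omega

/-- the vertices -/
private noncomputable def GI4_u (m : ℕ → ℕ) (i n : ℕ) : VV := msu m (fun i => e i 0) (LaB m) i n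

private theorem GI4_u0 (m : ℕ → ℕ) (i : ℕ) : GI4_u m i 0 = e i 0 := by
  unfold GI4_u msu
  rw [if_pos rfl]

private theorem GI4_um (m : ℕ → ℕ) (i : ℕ) : GI4_u m i (m i) = LaB m i := by
  unfold GI4_u msu LaB
  by_cases h : m i = 0
  · rw [if_pos h, if_pos h]
  · rw [if_neg h, if_pos rfl]

private theorem GI4_ue {m : ℕ → ℕ} {i n : ℕ} (h0 : 0 < n) (hn : n < m i) :
    GI4_u m i n = e i n := by
  unfold GI4_u msu
  rw [if_neg (by omega), if_neg (by omega)]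

/-- the reversal -/
private noncomputable def GI4_rev (m m' : ℕ → ℕ) : VV →ₗ[F4] VV :=
  Finsupp.linearCombination F4 (fun p : ℕ × ℕ =>
    if p.1 < 3 then g3 (GI4_pi p.1) • GI4_u m' (GI4_pi p.1) (m p.1 - p.2)
    else g3 (GI4_pi (p.1 - 4)) • GI4_u m' (GI4_pi (p.1 - 4)) 0)

private theorem GI4_lc (f : ℕ × ℕ → VV) (i n : ℕ) :
    Finsupp.linearCombination F4 f (e i n) = f (i, n) := by
  rw [e, Finsupp.linearCombination_single, one_smul]

private theorem GI4_rev_e {m m' : ℕ → ℕ} {i : ℕ} (hi : i < 3) (n : ℕ) :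
    GI4_rev m m' (e i n) = g3 (GI4_pi i) • GI4_u m' (GI4_pi i) (m i - n) := by
  rw [GI4_rev, GI4_lc]
  simp only [hi, if_true]

private theorem GI4_rev_e4 {m m' : ℕ → ℕ} (i : ℕ) :
    GI4_rev m m' (e (i + 4) 0) = g3 (GI4_pi i) • GI4_u m' (GI4_pi i) 0 := by
  rw [GI4_rev, GI4_lc]
  have h : ¬ (i + 4 < 3) := by omega
  simp only [h, if_false, Nat.add_sub_cancel]

private def GI4_rel (m m' : ℕ → ℕ) : Prop := ∀ i < 3, m' i = m (GI4_pi i)

private theorem GI4_rel.symm {m m' : ℕ → ℕ} (h : GI4_rel m m') : GI4_rel m' m := by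
  intro i hi
  rw [h _ (GI4_pi_lt hi), GI4_pi_pi hi]

private theorem GI4_rev_u {m m' : ℕ → ℕ} {i n : ℕ} (hi : i < 3) (hn : n ≤ m i) :
    GI4_rev m m' (GI4_u m i n) = g3 (GI4_pi i) • GI4_u m' (GI4_pi i) (m i - n) := by
  by_cases h0 : n = 0
  · rw [h0, GI4_u0, GI4_rev_e hi]
  · by_cases h1 : n = m i
    · have h2 : m i ≠ 0 := by omega
      rw [h1, GI4_um, Nat.sub_self, LaB, if_neg h2, GI4_rev_e4]
    · rw [GI4_ue (by omega) (by omega), GI4_rev_e hi]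

private theorem GI4_inv_u {m m' : ℕ → ℕ} (h : GI4_rel m m') {i n : ℕ} (hi : i < 3)
    (hn : n ≤ m i) : GI4_rev m' m (GI4_rev m m' (GI4_u m i n)) = GI4_u m i n := by
  have h1 := h.symm i hi
  rw [GI4_rev_u hi hn, map_smul, GI4_rev_u (GI4_pi_lt hi) (by omega), smul_smul, GI4_pi_pi hi,
    GI4_g' hi, one_smul]
  congr 1
  omega

private theorem GI4_c (m : ℕ → ℕ) : Lac = GI4_u m 0 0 + GI4_u m 1 0 + GI4_u m 2 0 := by
  rw [GI4_u0, GI4_u0, GI4_u0, Lac]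

private theorem GI4_c' (m : ℕ → ℕ) : Lac' m = g3 0 • GI4_u m 0 (m 0) + g3 1 • GI4_u m 1 (m 1) +
    g3 2 • GI4_u m 2 (m 2) := by
  have e0 : g3 0 = 1 := rfl
  have e1 : g3 1 = F4.w := rfl
  have e2 : g3 2 = F4.v := rfl
  rw [GI4_um, GI4_um, GI4_um, Lac', e0, e1, e2, one_smul]

private theorem GI4_rev_c {m m' : ℕ → ℕ} (h : GI4_rel m m') : GI4_rev m m' Lac = Lac' m' := by
  have h0 := h 0 (by omega)
  have h1 := h 1 (by omega)
  have h2 := h 2 (by omega)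
  have p0 : GI4_pi 0 = 0 := rfl
  have p1 : GI4_pi 1 = 2 := rfl
  have p2 : GI4_pi 2 = 1 := rfl
  rw [p0] at h0
  rw [p1] at h1
  rw [p2] at h2
  rw [GI4_c m, GI4_c', map_add, map_add, GI4_rev_u (by omega) (by omega),
    GI4_rev_u (by omega) (by omega), GI4_rev_u (by omega) (by omega), p0, p1, p2, h0, h1, h2,
    Nat.sub_zero, Nat.sub_zero, Nat.sub_zero, add_right_comm]

private theorem GI4_rev_c' {m m' : ℕ → ℕ} : GI4_rev m m' (Lac' m) = Lac := by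
  have p0 : GI4_pi 0 = 0 := rfl
  have p1 : GI4_pi 1 = 2 := rfl
  have p2 : GI4_pi 2 = 1 := rfl
  rw [GI4_c m', GI4_c', map_add, map_add, map_smul, map_smul, map_smul, GI4_rev_u (by omega) le_rfl,
    GI4_rev_u (by omega) le_rfl, GI4_rev_u (by omega) le_rfl, smul_smul, smul_smul, smul_smul,
    GI4_g (by omega), GI4_g (by omega), GI4_g (by omega), Nat.sub_self, Nat.sub_self, Nat.sub_self,
    p0, p1, p2, one_smul, one_smul, one_smul, add_right_comm]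

private theorem GI4_rev_B {m m' : ℕ → ℕ} {i : ℕ} (hi : i < 3) :
    GI4_rev m m' (LaB m i) = g3 (GI4_pi i) • e (GI4_pi i) 0 := by
  rw [← GI4_um, GI4_rev_u hi le_rfl, Nat.sub_self, GI4_u0]

private theorem GI4_rev_e0 {m m' : ℕ → ℕ} (h : GI4_rel m m') {i : ℕ} (hi : i < 3) :
    GI4_rev m m' (e i 0) = g3 (GI4_pi i) • LaB m' (GI4_pi i) := by
  have h1 := h.symm i hi
  rw [GI4_rev_e hi, Nat.sub_zero, h1, GI4_um]

private theorem GI4_C {a b : Bool} {m m' : ℕ → ℕ} (h : GI4_rel m m') :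
    ∀ c ∈ LaC a b m, ∃ c' ∈ LaC b a m', ∃ s : F4, s ≠ 0 ∧ GI4_rev m m' c = s • c' := by
  intro c hc
  rcases hc with ((((hc | hc) | hc)) | hc) | hc
  · obtain ⟨i, hi, rfl | rfl⟩ := hc
    · exact ⟨LaB m' (GI4_pi i), Or.inl (Or.inl (Or.inl (Or.inl ⟨GI4_pi i, GI4_pi_lt hi, Or.inr rfl⟩))),
        g3 (GI4_pi i), GI4_g0 _, GI4_rev_e0 h hi⟩
    · exact ⟨e (GI4_pi i) 0, Or.inl (Or.inl (Or.inl (Or.inl ⟨GI4_pi i, GI4_pi_lt hi, Or.inl rfl⟩))),
        g3 (GI4_pi i), GI4_g0 _, GI4_rev_B hi⟩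
  · obtain ⟨ha, hc⟩ := hc
    rw [mem_singleton_iff] at hc
    subst hc
    refine ⟨Lac' m', Or.inl (Or.inl (Or.inr ⟨ha, rfl⟩)), 1, one_ne_zero, ?_⟩
    rw [GI4_rev_c h, one_smul]
  · obtain ⟨hb, hc⟩ := hc
    rw [mem_singleton_iff] at hc
    subst hc
    refine ⟨Lac, Or.inl (Or.inl (Or.inl (Or.inr ⟨hb, rfl⟩))), 1, one_ne_zero, ?_⟩
    rw [GI4_rev_c', one_smul]
  · obtain ⟨i, hi, n, hn0, hn, rfl⟩ := hc
    have hi3 : i < 3 := GI4_mem.1 hi
    have h1 := h.symm i hi3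
    have hj3 := GI4_pi_lt hi3
    refine ⟨e (GI4_pi i) (m i - n), Or.inl (Or.inr ⟨GI4_pi i, GI4_mem.2 hj3, m i - n, by omega,
      by omega, rfl⟩), g3 (GI4_pi i), GI4_g0 _, ?_⟩
    rw [GI4_rev_e hi3, GI4_ue (by omega) (by omega)]
  · obtain ⟨i, hi, n, hn, rfl⟩ := hc
    have hi3 : i < 3 := GI4_mem.1 hi
    have h1 := h.symm i hi3
    have hj3 := GI4_pi_lt hi3
    refine ⟨GI4_u m' (GI4_pi i) (m i - (n + 1)) + GI4_u m' (GI4_pi i) (m i - (n + 1) + 1),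
      Or.inr ⟨GI4_pi i, GI4_mem.2 hj3, m i - (n + 1), by omega, rfl⟩, g3 (GI4_pi i), GI4_g0 _, ?_⟩
    show GI4_rev m m' (GI4_u m i n + GI4_u m i (n + 1)) = _
    rw [map_add, GI4_rev_u hi3 (by omega), GI4_rev_u hi3 (by omega), ← smul_add, add_comm]
    have h2 : m i - n = m i - (n + 1) + 1 := by omega
    rw [h2]

private theorem GI4_P {a b : Bool} {m m' : ℕ → ℕ} (h : GI4_rel m m') :
    ∀ c ∈ LaP a b m, ∃ c' ∈ LaP b a m', ∃ s : F4, s ≠ 0 ∧ GI4_rev m m' c = s • c' := by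
  rintro c (((hc | hc) | hc) | hc)
  · obtain ⟨c', hc', s, hs, h1⟩ := GI4_C h c hc
    exact ⟨c', Or.inl (Or.inl (Or.inl hc')), s, hs, h1⟩
  · obtain ⟨ha, i, hi, rfl⟩ := hc
    refine ⟨Lac' m' + g3 (GI4_pi i) • LaB m' (GI4_pi i),
      Or.inl (Or.inr ⟨ha, GI4_pi i, GI4_pi_lt hi, rfl⟩), 1, one_ne_zero, ?_⟩
    rw [map_add, GI4_rev_c h, GI4_rev_e0 h hi, one_smul]
  · obtain ⟨hb, i, hi, rfl⟩ := hc
    refine ⟨Lac + e (GI4_pi i) 0, Or.inl (Or.inl (Or.inr ⟨hb, GI4_pi i, GI4_pi_lt hi, rfl⟩)), 1,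
      one_ne_zero, ?_⟩
    rw [map_add, GI4_rev_c', map_smul, GI4_rev_B hi, smul_smul, GI4_g hi, one_smul, one_smul]
  · rw [mem_singleton_iff] at hc
    subst hc
    exact ⟨0, Or.inr rfl, 1, one_ne_zero, by rw [map_zero, smul_zero]⟩

private theorem GI4_S {a b : Bool} {m : ℕ → ℕ} {S : Submodule F4 VV}
    (hS : ∀ i < 3, ∀ n ≤ m i, GI4_u m i n ∈ S) : ∀ x ∈ LaP a b m, x ∈ S := by
  have hA : ∀ i < 3, e i 0 ∈ S := fun i hi => by
    rw [← GI4_u0 m]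
    exact hS i hi 0 (Nat.zero_le _)
  have hB : ∀ i < 3, LaB m i ∈ S := fun i hi => by
    rw [← GI4_um m]
    exact hS i hi _ le_rfl
  have hc : Lac ∈ S := S.add_mem (S.add_mem (hA 0 (by omega)) (hA 1 (by omega))) (hA 2 (by omega))
  have hc' : Lac' m ∈ S := S.add_mem (S.add_mem (hB 0 (by omega))
    (S.smul_mem _ (hB 1 (by omega)))) (S.smul_mem _ (hB 2 (by omega)))
  rintro x (((hx | hx) | hx) | hx)
  · rcases hx with ((((hx | hx) | hx)) | hx) | hx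
    · obtain ⟨i, hi, rfl | rfl⟩ := hx
      · exact hA i hi
      · exact hB i hi
    · obtain ⟨_, hx⟩ := hx
      rw [mem_singleton_iff] at hx
      rw [hx]
      exact hc
    · obtain ⟨_, hx⟩ := hx
      rw [mem_singleton_iff] at hx
      rw [hx]
      exact hc'
    · obtain ⟨i, hi, n, hn0, hn, rfl⟩ := hx
      rw [← GI4_ue hn0 hn]
      exact hS i (GI4_mem.1 hi) n hn.le
    · obtain ⟨i, hi, n, hn, rfl⟩ := hx
      exact S.add_mem (hS i (GI4_mem.1 hi) n hn.le) (hS i (GI4_mem.1 hi) (n + 1) hn)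
  · obtain ⟨_, i, hi, rfl⟩ := hx
    exact S.add_mem hc (hA i hi)
  · obtain ⟨_, i, hi, rfl⟩ := hx
    exact S.add_mem hc' (S.smul_mem _ (hB i hi))
  · rw [mem_singleton_iff] at hx
    rw [hx]
    exact S.zero_mem

private theorem GI4_inv {a b : Bool} {m m' : ℕ → ℕ} (h : GI4_rel m m') :
    ∀ c ∈ LaP a b m, GI4_rev m' m (GI4_rev m m' c) = c := by
  intro c hc
  refine GI4_S (S := LinearMap.eqLocus ((GI4_rev m' m).comp (GI4_rev m m')) LinearMap.id) ?_ c hc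
  intro i hi n hn
  exact GI4_inv_u h hi hn

private theorem GI4_K {a b : Bool} {m m' : ℕ → ℕ} (h : GI4_rel m m') :
    ∀ k ∈ LaK a b m, GI4_rev m m' k ∈ LaK b a m' := by
  intro k hk
  have h1 : LaK a b m ≤ (LaK b a m').comap (GI4_rev m m') := by
    rw [LaK, span_le]
    rintro x (⟨ha, hx⟩ | ⟨hb, hx⟩)
    · rw [mem_singleton_iff] at hx
      rw [SetLike.mem_coe, Submodule.mem_comap, hx, GI4_rev_c h]
      exact subset_span (Or.inr ⟨ha, rfl⟩)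
    · rw [mem_singleton_iff] at hx
      rw [SetLike.mem_coe, Submodule.mem_comap, hx, GI4_rev_c']
      exact subset_span (Or.inl ⟨hb, rfl⟩)
  exact h1 hk

private theorem GI4_LnK {K : Submodule F4 VV} {C C' : Set VV}
    (h1 : ∀ c ∈ C, ∃ c' ∈ C', ∃ s : F4, s ≠ 0 ∧ c = s • c') : LnK K C ⊆ LnK K C' := by
  rintro y ⟨hy, c, hc, s, hs⟩
  obtain ⟨c', hc', r, hr, rfl⟩ := h1 c hc
  exact ⟨hy, c', hc', s * r, by rwa [mul_smul]⟩

/-- GI4. `La a b m → La b a m'`. `π = (1 2)`, vertex `n` of strand `i` of `m` goes to `(g3 i)⁻¹` times the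
vertex `m i - n` of strand `π i` of `m'` (so `e i 0 ↦ (g3 i)⁻¹ • LaB m' (π i)`,
`e (i+4) 0 ↦ (g3 i)⁻¹ • e (π i) 0` (if `m i ≥ 1`), `e i n ↦ (g3 i)⁻¹ • e (π i) (m i - n)` for
`0 < n < m i`, and for `m i = 0`: `e i 0 ↦ (g3 i)⁻¹ • e (π i) 0`). Then `Lac ↦ Lac' m'` and
`Lac' m ↦ Lac`, since `(g3 i)⁻¹ = g3 (π i)`. -/
theorem GI4 {a b : Bool} {m m' : ℕ → ℕ} (h0 : m' 0 = m 0) (h1 : m' 1 = m 2) (h2 : m' 2 = m 1)
    (h : AK (LaK a b m) (LaC a b m) (LaP a b m)) : AK (LaK b a m') (LaC b a m') (LaP b a m') := by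
  have hr : GI4_rel m m' := by
    intro i hi
    interval_cases i
    · exact h0
    · exact h1
    · exact h2
  have hCP : ∀ x ∈ LaC b a m', x ∈ LaP b a m' := fun x hx => Or.inl (Or.inl (Or.inl hx))
  refine AK.of_map (GI4_rev m' m) (GI4_rev m m') (GI4_K hr.symm) (GI4_K hr) ?_ ?_ ?_ h
  · intro x hx
    have hx' : x ∈ LaP b a m' := by
      rcases hx with hx | hx
      · exact hCP x hx
      · exact hx
    rw [GI4_inv hr.symm x hx', vadd_self]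
    exact Submodule.zero_mem _
  · refine subset_antisymm (GI4_LnK ?_) (GI4_LnK ?_)
    · rintro _ ⟨c, hc, rfl⟩
      exact GI4_C hr.symm c hc
    · intro c' hc'
      obtain ⟨c, hc, s, hs, h3⟩ := GI4_C hr c' hc'
      have h4 : GI4_rev m' m (GI4_rev m m' c') = c' :=
        GI4_inv hr c' (Or.inl (Or.inl (Or.inl hc')))
      refine ⟨GI4_rev m' m c, ⟨c, hc, rfl⟩, s, hs, ?_⟩
      rw [← map_smul, ← h3, h4]
  · intro p' hp'
    obtain ⟨p, hp, s, hs, h3⟩ := GI4_P hr p' hp'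
    refine ⟨p, hp, s⁻¹, inv_ne_zero hs, ?_⟩
    have h4 : p' = s • GI4_rev m' m p := by
      rw [← map_smul, ← h3, GI4_inv hr p' hp']
    have h5 : GI4_rev m' m p + s⁻¹ • p' = 0 := by
      conv_lhs => rw [h4]
      rw [smul_smul, inv_mul_cancel₀ hs, one_smul, vadd_self]
    rw [h5]
    exact Submodule.zero_mem _

end QG
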