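import Pool.Agent.Lib.QG.GB2

/-! MP_2e6874_co, part (A), row GI5. Relabelling of the legs. -/

set_option autoImplicit false

namespace QG
open Set Matroid Submodule

/-- the linear map `e i n ↦ e (ρ i) n` -/
private noncomputable def GI5_mv (ρ : ℕ → ℕ) : VV →ₗ[F4] VV :=
  Finsupp.lmapDomain F4 F4 (fun k : ℕ × ℕ => (ρ k.1, k.2))

private theorem GI5_mv_e (ρ : ℕ → ℕ) (i n : ℕ) : GI5_mv ρ (e i n) = e (ρ i) n := by
  simp [GI5_mv, e, Finsupp.mapDomain_single]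

private theorem GI5_dec {I I' : Finset ℕ} {σ ρ : ℕ → ℕ} (hσ : BijOn σ (I : Set ℕ) (I' : Set ℕ))
    (hρ : ∀ i ∈ I, ρ i = σ i) (hρ0 : ρ 0 = 0) : GI5_mv ρ (Dec I) = Dec I' := by
  classical
  have h1 : I' = I.image σ := by
    ext j
    rw [Finset.mem_image]
    constructor
    · intro hj
      obtain ⟨i, hi, h⟩ := hσ.surjOn hj
      exact ⟨i, hi, h⟩
    · rintro ⟨i, hi, rfl⟩
      exact hσ.mapsTo hi
  rw [Dec, Dec, map_add, GI5_mv_e, hρ0, map_sum, h1, Finset.sum_image hσ.injOn]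
  congr 1
  refine Finset.sum_congr rfl fun i hi => ?_
  rw [GI5_mv_e, hρ i hi]

private theorem GI5_msu {g : F4} {I : Finset ℕ} {l l' : ℕ → ℕ} {σ ρ : ℕ → ℕ}
    (hρ : ∀ i ∈ I, ρ i = σ i) (hρ0 : ρ 0 = 0) (hl : ∀ i ∈ I, l' (σ i) = l i) {i : ℕ} (hi : i ∈ I)
    (n : ℕ) : GI5_mv ρ (msu l (fun i => e i 0) (fun _ => g • e 0 0) i n) =
      msu l' (fun i => e i 0) (fun _ => g • e 0 0) (σ i) n := by
  unfold msu
  rw [hl i hi]
  split_ifs
  · rw [GI5_mv_e, hρ i hi]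
  · rw [map_smul, GI5_mv_e, hρ0]
  · rw [GI5_mv_e, hρ i hi]

/-- one direction -/
private theorem GI5_C {g : F4} {a b : Bool} {I I' : Finset ℕ} {l l' : ℕ → ℕ} {σ ρ : ℕ → ℕ}
    (hσ : BijOn σ (I : Set ℕ) (I' : Set ℕ)) (hl : ∀ i ∈ I, l' (σ i) = l i)
    (hρ : ∀ i ∈ I, ρ i = σ i) (hρ0 : ρ 0 = 0) :
    ∀ x ∈ DeC g a b I l, GI5_mv ρ x ∈ DeC g a b I' l' := by
  rintro x ((((⟨i, hi, rfl⟩ | ⟨ha, hx⟩) | ⟨hb, hx⟩) | ⟨i, hi, n, h1, h2, rfl⟩) |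
    ⟨i, hi, n, h1, rfl⟩)
  · rw [GI5_mv_e, hρ i hi]
    exact Or.inl (Or.inl (Or.inl (Or.inl ⟨σ i, hσ.mapsTo hi, rfl⟩)))
  · rw [mem_singleton_iff] at hx
    rw [hx, GI5_mv_e, hρ0]
    exact Or.inl (Or.inl (Or.inl (Or.inr ⟨ha, rfl⟩)))
  · rw [mem_singleton_iff] at hx
    rw [hx, GI5_dec hσ hρ hρ0]
    exact Or.inl (Or.inl (Or.inr ⟨hb, rfl⟩))
  · rw [GI5_mv_e, hρ i hi]
    exact Or.inl (Or.inr ⟨σ i, hσ.mapsTo hi, n, h1, by rwa [hl i hi], rfl⟩)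
  · rw [map_add, GI5_msu hρ hρ0 hl hi, GI5_msu hρ hρ0 hl hi]
    exact Or.inr ⟨σ i, hσ.mapsTo hi, n, by rwa [hl i hi], rfl⟩

private theorem GI5_P {g : F4} {a b : Bool} {I I' : Finset ℕ} {l l' : ℕ → ℕ} {σ ρ : ℕ → ℕ}
    (hσ : BijOn σ (I : Set ℕ) (I' : Set ℕ)) (hl : ∀ i ∈ I, l' (σ i) = l i)
    (hρ : ∀ i ∈ I, ρ i = σ i) (hρ0 : ρ 0 = 0) :
    ∀ x ∈ DeP g a b I l, GI5_mv ρ x ∈ DeP g a b I' l' := by
  rintro x ((h | h) | ⟨hb, ((⟨i, hi, rfl⟩ | h) | ⟨i, hi, h1, rfl⟩)⟩)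
  · exact Or.inl (Or.inl (GI5_C hσ hl hρ hρ0 x h))
  · rcases h with rfl | h
    · rw [GI5_mv_e, hρ0]
      exact Or.inl (Or.inr (Or.inl rfl))
    · rw [mem_singleton_iff] at h
      rw [h, map_zero]
      exact Or.inl (Or.inr (Or.inr rfl))
  · rw [map_add, GI5_mv_e, hρ i hi, GI5_dec hσ hρ hρ0]
    exact Or.inr ⟨hb, Or.inl (Or.inl ⟨σ i, hσ.mapsTo hi, rfl⟩)⟩
  · rw [mem_singleton_iff] at h
    rw [h, map_add, map_smul, GI5_mv_e, hρ0, GI5_dec hσ hρ hρ0]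
    exact Or.inr ⟨hb, Or.inl (Or.inr rfl)⟩
  · rw [map_add, map_add, map_smul, GI5_mv_e, GI5_mv_e, hρ0, hρ i hi, GI5_dec hσ hρ hρ0]
    exact Or.inr ⟨hb, Or.inr ⟨σ i, hσ.mapsTo hi, by rwa [hl i hi], rfl⟩⟩

/-- everything is in the span of the `e i n`, `i ∈ I` or `i = 0` -/
private theorem GI5_S {g : F4} {a b : Bool} {I : Finset ℕ} {l : ℕ → ℕ} {S : Submodule F4 VV}
    (hS : ∀ i n, i ∈ I ∨ i = 0 → e i n ∈ S) : ∀ x ∈ DeP g a b I l, x ∈ S := by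
  have hD : Dec I ∈ S :=
    S.add_mem (hS 0 0 (Or.inr rfl)) (Submodule.sum_mem _ fun i hi => hS i 0 (Or.inl hi))
  have hm : ∀ i ∈ I, ∀ n, msu l (fun i => e i 0) (fun _ => g • e 0 0) i n ∈ S := by
    intro i hi n
    unfold msu
    split_ifs
    · exact hS i 0 (Or.inl hi)
    · exact S.smul_mem _ (hS 0 0 (Or.inr rfl))
    · exact hS i n (Or.inl hi)
  rintro x ((h | h) | ⟨hb, ((⟨i, hi, rfl⟩ | h) | ⟨i, hi, h1, rfl⟩)⟩)
  · rcases h with ((((⟨i, hi, rfl⟩ | ⟨ha, hx⟩) | ⟨hb, hx⟩) | ⟨i, hi, n, h1, h2, rfl⟩) |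
      ⟨i, hi, n, h1, rfl⟩)
    · exact hS i 0 (Or.inl hi)
    · rw [mem_singleton_iff] at hx
      rw [hx]
      exact hS 0 0 (Or.inr rfl)
    · rw [mem_singleton_iff] at hx
      rw [hx]
      exact hD
    · exact hS i n (Or.inl hi)
    · exact S.add_mem (hm i hi _) (hm i hi _)
  · rcases h with rfl | h
    · exact hS 0 0 (Or.inr rfl)
    · rw [mem_singleton_iff] at h
      rw [h]
      exact S.zero_mem
  · exact S.add_mem hD (hS i 0 (Or.inl hi))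
  · rw [mem_singleton_iff] at h
    rw [h]
    exact S.add_mem hD (S.smul_mem _ (hS 0 0 (Or.inr rfl)))
  · exact S.add_mem (S.add_mem hD (hS i 0 (Or.inl hi))) (S.smul_mem _ (hS 0 0 (Or.inr rfl)))

private theorem GI5_K {b : Bool} {I I' : Finset ℕ} {σ ρ : ℕ → ℕ}
    (hσ : BijOn σ (I : Set ℕ) (I' : Set ℕ))
    (hρ : ∀ i ∈ I, ρ i = σ i) (hρ0 : ρ 0 = 0) : ∀ k ∈ DeK b I, GI5_mv ρ k ∈ DeK b I' := by
  intro k hk
  have h1 : DeK b I ≤ (DeK b I').comap (GI5_mv ρ) := by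
    rw [DeK, span_le]
    rintro x ⟨hb, hx⟩
    rw [mem_singleton_iff] at hx
    rw [SetLike.mem_coe, Submodule.mem_comap, hx, GI5_dec hσ hρ hρ0]
    exact subset_span ⟨hb, rfl⟩
  exact h1 hk

/-- GI5. `Φ (e i n) = e (σ i) n` for `i ∈ I`, `e 0 n ↦ e 0 n`, `0` for the others; `Θ` = the inverse in the
same way. -/
theorem GI5 {g : F4} {a b : Bool} {I I' : Finset ℕ} {l l' : ℕ → ℕ} (σ : ℕ → ℕ)
    (hσ : BijOn σ (I : Set ℕ) (I' : Set ℕ)) (h0 : 0 ∉ I) (h0' : 0 ∉ I')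
    (hl : ∀ i ∈ I, l' (σ i) = l i)
    (h : AK (DeK b I') (DeC g a b I' l') (DeP g a b I' l')) :
    AK (DeK b I) (DeC g a b I l) (DeP g a b I l) := by
  classical
  obtain ⟨τ, hτ⟩ : ∃ τ : ℕ → ℕ, ∀ j ∈ I', τ j ∈ I ∧ σ (τ j) = j := by
    refine ⟨fun j => if hj : j ∈ I' then (hσ.surjOn hj).choose else 0, fun j hj => ?_⟩
    have h1 := (hσ.surjOn hj).choose_spec
    simp only [dif_pos hj]
    exact h1
  have hστ : ∀ i ∈ I, τ (σ i) = i := by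
    intro i hi
    have h1 := hτ (σ i) (hσ.mapsTo hi)
    exact hσ.injOn h1.1 hi h1.2
  have hτb : BijOn τ (I' : Set ℕ) (I : Set ℕ) := by
    refine ⟨fun j hj => (hτ j hj).1, ?_, ?_⟩
    · intro j hj k hk hjk
      rw [← (hτ j hj).2, ← (hτ k hk).2, hjk]
    · intro i hi
      exact ⟨σ i, hσ.mapsTo hi, hστ i hi⟩
  have hlτ : ∀ j ∈ I', l (τ j) = l' j := by
    intro j hj
    rw [← hl _ (hτ j hj).1, (hτ j hj).2]
  have hρ : ∀ i ∈ I, (fun i => if i ∈ I then σ i else 0) i = σ i := fun i hi => if_pos hi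
  have hρ0 : (fun i => if i ∈ I then σ i else 0) 0 = 0 := if_neg h0
  have hρ' : ∀ j ∈ I', (fun j => if j ∈ I' then τ j else 0) j = τ j := fun j hj => if_pos hj
  have hρ0' : (fun j => if j ∈ I' then τ j else 0) 0 = 0 := if_neg h0'
  have hid : ∀ x ∈ DeP g a b I l, GI5_mv (fun j => if j ∈ I' then τ j else 0)
      (GI5_mv (fun i => if i ∈ I then σ i else 0) x) = x := by
    intro x hx
    refine GI5_S (S := LinearMap.eqLocus ((GI5_mv (fun j => if j ∈ I' then τ j else 0)).comp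
      (GI5_mv (fun i => if i ∈ I then σ i else 0))) LinearMap.id) ?_ x hx
    intro i n hi
    rw [LinearMap.mem_eqLocus, LinearMap.comp_apply, LinearMap.id_apply, GI5_mv_e, GI5_mv_e]
    rcases hi with hi | rfl
    · simp only [if_pos hi]
      have : σ i ∈ I' := hσ.mapsTo hi
      rw [if_pos this, hστ i hi]
    · simp only [if_neg h0, if_neg h0']
  have hid' : ∀ x ∈ DeP g a b I' l', GI5_mv (fun i => if i ∈ I then σ i else 0)
      (GI5_mv (fun j => if j ∈ I' then τ j else 0) x) = x := by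
    intro x hx
    refine GI5_S (S := LinearMap.eqLocus ((GI5_mv (fun i => if i ∈ I then σ i else 0)).comp
      (GI5_mv (fun j => if j ∈ I' then τ j else 0))) LinearMap.id) ?_ x hx
    intro i n hi
    rw [LinearMap.mem_eqLocus, LinearMap.comp_apply, LinearMap.id_apply, GI5_mv_e, GI5_mv_e]
    rcases hi with hi | rfl
    · simp only [if_pos hi]
      rw [if_pos (hτ i hi).1, (hτ i hi).2]
    · simp only [if_neg h0, if_neg h0']
  have hCP : ∀ x ∈ DeC g a b I l, x ∈ DeP g a b I l := fun x hx => Or.inl (Or.inl hx)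
  have hCP' : ∀ x ∈ DeC g a b I' l', x ∈ DeP g a b I' l' := fun x hx => Or.inl (Or.inl hx)
  refine AK.of_map (GI5_mv (fun i => if i ∈ I then σ i else 0))
    (GI5_mv (fun j => if j ∈ I' then τ j else 0)) (GI5_K hσ hρ hρ0) (GI5_K hτb hρ' hρ0') ?_ ?_ ?_ h
  · intro x hx
    have h1 : x ∈ DeP g a b I l := by
      rcases hx with hx | hx
      · exact hCP x hx
      · exact hx
    rw [hid x h1, vadd_self]
    exact Submodule.zero_mem _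
  · congr 1
    ext y
    constructor
    · rintro ⟨x, hx, rfl⟩
      exact GI5_C hσ hl hρ hρ0 x hx
    · intro hy
      exact ⟨_, GI5_C hτb hlτ hρ' hρ0' y hy, hid' y (hCP' y hy)⟩
  · intro p' hp'
    refine ⟨_, GI5_P hτb hlτ hρ' hρ0' p' hp', 1, one_ne_zero, ?_⟩
    rw [hid' p' hp', one_smul, vadd_self]
    exact Submodule.zero_mem _

end QG
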