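import Pool.Agent.Lib.QG.GC3

/-! MP_2e6874_co, part (A), row GL1. -/

set_option autoImplicit false

namespace QG
open Set Matroid Submodule

private theorem e_val (k n h m : ℕ) : (e k n : VV) (h, m) = if k = h ∧ n = m then 1 else 0 := by
  unfold e
  rw [Finsupp.single_apply]
  simp only [Prod.mk.injEq]

private theorem eA (j q : ℕ) : (e j 0 : VV) (q, 0) = if j = q then 1 else 0 := by
  rw [e_val]
  simp

private theorem eB {j : ℕ} (q : ℕ) (hj : j < 3) : (e j 0 : VV) (q + 4, 0) = 0 := by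
  rw [e_val, if_neg]
  rintro ⟨h, _⟩
  omega

private theorem fA (m : ℕ → ℕ) (j : ℕ) {q : ℕ} (hq : q < 3) :
    (LaB m j) (q, 0) = if j = q ∧ m j = 0 then 1 else 0 := by
  unfold LaB
  by_cases h : m j = 0
  · rw [if_pos h, e_val]
    simp [h]
  · rw [if_neg h, e_val, if_neg (by omega), if_neg (fun hh => h hh.2)]

private theorem fB (m : ℕ → ℕ) {j : ℕ} (hj : j < 3) (q : ℕ) :
    (LaB m j) (q + 4, 0) = if j = q ∧ m j ≠ 0 then 1 else 0 := by
  unfold LaB
  by_cases h : m j = 0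
  · rw [if_pos h, e_val, if_neg (by omega), if_neg (fun hh => hh.2 h)]
  · rw [if_neg h, e_val]
    simp [h]

private theorem cA {q : ℕ} (hq : q < 3) : Lac (q, 0) = 1 := by
  unfold Lac
  rw [Finsupp.add_apply, Finsupp.add_apply, eA, eA, eA]
  interval_cases q <;> decide

private theorem cB (q : ℕ) : Lac (q + 4, 0) = 0 := by
  unfold Lac
  rw [Finsupp.add_apply, Finsupp.add_apply, eB q (by omega), eB q (by omega), eB q (by omega)]
  decide

private theorem dA (m : ℕ → ℕ) {q : ℕ} (hq : q < 3) :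
    (Lac' m) (q, 0) = if m q = 0 then g3 q else 0 := by
  unfold Lac'
  rw [Finsupp.add_apply, Finsupp.add_apply, Finsupp.smul_apply, Finsupp.smul_apply, fA m _ hq,
    fA m _ hq, fA m _ hq]
  interval_cases q
  · by_cases h : m 0 = 0 <;> simp [h, g3] <;> rfl
  · by_cases h : m 1 = 0 <;> simp [h, g3]
  · by_cases h : m 2 = 0 <;> simp [h, g3]

private theorem dB (m : ℕ → ℕ) {q : ℕ} (hq : q < 3) :
    (Lac' m) (q + 4, 0) = if m q = 0 then 0 else g3 q := by
  unfold Lac'
  rw [Finsupp.add_apply, Finsupp.add_apply, Finsupp.smul_apply, Finsupp.smul_apply,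
    fB m (by omega), fB m (by omega), fB m (by omega)]
  interval_cases q
  · by_cases h : m 0 = 0 <;> simp [h, g3] <;> rfl
  · by_cases h : m 1 = 0 <;> simp [h, g3]
  · by_cases h : m 2 = 0 <;> simp [h, g3]

private theorem g3_ne (q : ℕ) : g3 q ≠ 0 := by
  unfold g3
  split_ifs <;> decide

private theorem g3_inj {p q : ℕ} (hp : p < 3) (hq : q < 3) (h : g3 p = g3 q) : p = q := by
  interval_cases p <;> interval_cases q <;> first | rfl | (exact absurd h (by decide))

private theorem other {m : ℕ → ℕ} (hm : LaOk m) {i : ℕ} (hi : i < 3) :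
    ∃ l < 3, l ≠ i ∧ m l ≠ 0 := by
  by_contra hcon
  push Not at hcon
  interval_cases i
  · exact absurd (hm 1 (by omega) 2 (by omega) (hcon 1 (by omega) (by omega))
      (hcon 2 (by omega) (by omega))) (by omega)
  · exact absurd (hm 0 (by omega) 2 (by omega) (hcon 0 (by omega) (by omega))
      (hcon 2 (by omega) (by omega))) (by omega)
  · exact absurd (hm 0 (by omega) 1 (by omega) (hcon 0 (by omega) (by omega))
      (hcon 1 (by omega) (by omega))) (by omega)

private theorem third' {i j : ℕ} (hi : i < 3) (hj : j < 3) : ∃ l < 3, l ≠ i ∧ l ≠ j := by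
  interval_cases i <;> interval_cases j <;>
    first
    | exact ⟨0, by omega, by omega, by omega⟩
    | exact ⟨1, by omega, by omega, by omega⟩
    | exact ⟨2, by omega, by omega, by omega⟩

private theorem bs_span {a : Bool} {x u : VV} (h : u ∈ span F4 (bs (!a) {x})) :
    ∃ κ : F4, u = κ • x ∧ (a = true → κ = 0) := by
  cases a with
  | false =>
    have h1 : bs (!false) {x} = {x} := by
      ext z
      simp [bs]
    rw [h1] at h
    obtain ⟨κ, rfl⟩ := mem_span_singleton.1 h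
    exact ⟨κ, rfl, fun h => absurd h (by decide)⟩
  | true =>
    have h1 : bs (!true) {x} = ∅ := by
      ext z
      simp [bs]
    rw [h1, span_empty, mem_bot] at h
    exact ⟨0, by rw [h, zero_smul], fun _ => rfl⟩

private theorem mem_LaK {a b : Bool} {m : ℕ → ℕ} {z : VV} (h : z ∈ LaK a b m) :
    ∃ κ κ' : F4, z = κ • Lac + κ' • Lac' m ∧ (a = true → κ = 0) ∧ (b = true → κ' = 0) := by
  unfold LaK at h
  rw [span_union, mem_sup] at h
  obtain ⟨u, hu, v, hv, rfl⟩ := h
  obtain ⟨κ, rfl, h1⟩ := bs_span hu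
  obtain ⟨κ', rfl, h2⟩ := bs_span hv
  exact ⟨κ, κ', rfl, h1, h2⟩

/-- values in strand `l` -/
private theorem at_strand {m : ℕ → ℕ} {z : VV} {κ κ' : F4} (h : z = κ • Lac + κ' • Lac' m) {l : ℕ}
    (hl : l < 3) : z (l, 0) = κ + κ' * (if m l = 0 then g3 l else 0) ∧
      z (l + 4, 0) = κ' * (if m l = 0 then 0 else g3 l) := by
  constructor
  · rw [h, Finsupp.add_apply, Finsupp.smul_apply, Finsupp.smul_apply, cA hl, dA m hl, smul_eq_mul,
      smul_eq_mul, mul_one]
  · rw [h, Finsupp.add_apply, Finsupp.smul_apply, Finsupp.smul_apply, cB, dB m hl, smul_eq_mul,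
      smul_eq_mul, mul_zero, zero_add]

/-- a strand `l` with `m l ≠ 0` where `z` vanishes -/
private theorem vanish {m : ℕ → ℕ} {z : VV} {κ κ' : F4} (h : z = κ • Lac + κ' • Lac' m) {l : ℕ}
    (hl : l < 3) (hml : m l ≠ 0) (h1 : z (l, 0) = 0) (h2 : z (l + 4, 0) = 0) :
    κ = 0 ∧ κ' = 0 := by
  obtain ⟨e1, e2⟩ := at_strand h hl
  rw [h1, if_neg hml, mul_zero, add_zero] at e1
  rw [h2, if_neg hml] at e2
  refine ⟨e1.symm, ?_⟩
  rcases mul_eq_zero.1 e2.symm with h3 | h3
  · exact h3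
  · exact absurd h3 (g3_ne l)

/-- case `N` -/
private theorem caseN {m : ℕ → ℕ} {i l : ℕ} (hi : i < 3) (hl : l < 3) (hli : l ≠ i)
    (hmi : m i ≠ 0) {x : VV} (x1 : x (i, 0) = 0) (x2 : x (i + 4, 0) = 0) (x3 : x (l, 0) = 0)
    (x4 : x (l + 4, 0) = 0) (s κ κ' : F4) :
    e i 0 + LaB m i + s • x ≠ κ • Lac + κ' • Lac' m := by
  intro h
  obtain ⟨e1, e2⟩ := at_strand h hi
  obtain ⟨e3, e4⟩ := at_strand h hl
  rw [Finsupp.add_apply, Finsupp.add_apply, Finsupp.smul_apply] at e1 e2 e3 e4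
  rw [eA, if_pos rfl, fA m i hi, if_neg (fun hh => hmi hh.2), x1, if_neg hmi] at e1
  rw [eB i hi, fB m hi, if_pos ⟨rfl, hmi⟩, x2, if_neg hmi] at e2
  rw [eA, if_neg hli.symm, fA m i hl, if_neg (fun hh => hmi hh.2), x3] at e3
  rw [eB l hi, fB m hi, if_neg (fun hh => hli hh.1.symm), x4] at e4
  simp only [smul_zero, add_zero, zero_add, mul_zero] at e1 e2 e3 e4
  subst e1
  by_cases hml : m l = 0
  · rw [if_pos hml] at e3
    have hκ : κ' ≠ 0 := by
      rintro rfl
      rw [zero_mul] at e2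
      exact absurd e2 (by decide)
    have h5 : κ' * g3 l = κ' * g3 i := by
      rw [← e2]
      have h6 : κ' * g3 l = -1 := by
        rw [eq_neg_iff_add_eq_zero, add_comm]
        exact e3.symm
      rw [h6]
      decide
    exact hli (g3_inj hl hi (mul_left_cancel₀ hκ h5))
  · rw [if_neg hml, mul_zero, add_zero] at e3
    exact absurd e3 (by decide)

private theorem caseM {m : ℕ → ℕ} (hm : LaOk m) {i j : ℕ} (hi : i < 3) (hj : j < 3)
    (hmi : m i ≠ 0) {x : VV} (hx : x = e j 0 ∨ x = LaB m j) (s κ κ' : F4) :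
    e i 0 + LaB m i + s • x ≠ κ • Lac + κ' • Lac' m := by
  by_cases hji : j = i
  · subst hji
    intro h
    obtain ⟨l, hl, hlj, hml⟩ := other hm hj
    have hz : (e j 0 + LaB m j + s • x) (l, 0) = 0 ∧
        (e j 0 + LaB m j + s • x) (l + 4, 0) = 0 := by
      rw [Finsupp.add_apply, Finsupp.add_apply, Finsupp.smul_apply, Finsupp.add_apply,
        Finsupp.add_apply, Finsupp.smul_apply, eA, if_neg hlj.symm, fA m j hl,
        if_neg (fun hh => hmi hh.2), eB l hj, fB m hj, if_neg (fun hh => hlj hh.1.symm)]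
      rcases hx with rfl | rfl
      · rw [eA, if_neg hlj.symm, eB l hj]
        simp
      · rw [fA m j hl, if_neg (fun hh => hmi hh.2), fB m hj, if_neg (fun hh => hlj hh.1.symm)]
        simp
    obtain ⟨k1, k2⟩ := vanish h hl hml hz.1 hz.2
    obtain ⟨e1, e2⟩ := at_strand h hj
    rw [Finsupp.add_apply, Finsupp.add_apply, Finsupp.smul_apply] at e1 e2
    rw [eA, if_pos rfl, fA m j hj, if_neg (fun hh => hmi hh.2), k1, k2] at e1
    rw [eB j hj, fB m hj, if_pos ⟨rfl, hmi⟩, k2] at e2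
    rcases hx with rfl | rfl
    · rw [eB j hj] at e2
      simp at e2
    · rw [fA m j hj, if_neg (fun hh => hmi hh.2)] at e1
      simp at e1
  · obtain ⟨l, hl, hli, hlj⟩ := third' hi hj
    rcases hx with rfl | rfl
    · exact caseN hi hl hli hmi (by rw [eA, if_neg hji]) (eB i hj) (by rw [eA, if_neg hlj.symm])
        (eB l hj) s κ κ'
    · exact caseN hi hl hli hmi (by rw [fA m j hi, if_neg (fun hh => hji hh.1)])
        (by rw [fB m hj, if_neg (fun hh => hji hh.1)])
        (by rw [fA m j hl, if_neg (fun hh => hlj hh.1.symm)])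
        (by rw [fB m hj, if_neg (fun hh => hlj hh.1.symm)]) s κ κ'

/-- `e_k'` is not in `⟨c, c', e_k⟩` -/
private theorem sepE {m : ℕ → ℕ} (hm : LaOk m) {k k' : ℕ} (hk : k < 3) (hk' : k' < 3)
    (hne : k' ≠ k) (s κ κ' : F4) : e k' 0 + s • e k 0 ≠ κ • Lac + κ' • Lac' m := by
  intro h
  obtain ⟨l, hl, hlk, hlk'⟩ := third' hk hk'
  obtain ⟨e1, e2⟩ := at_strand h hk'
  obtain ⟨e3, e4⟩ := at_strand h hl
  rw [Finsupp.add_apply, Finsupp.smul_apply] at e1 e2 e3 e4
  rw [eA, if_pos rfl, eA, if_neg hne.symm] at e1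
  rw [eB k' hk', eB k' hk] at e2
  rw [eA, if_neg hlk'.symm, eA, if_neg hlk.symm] at e3
  rw [eB l hk', eB l hk] at e4
  simp only [smul_zero, add_zero] at e1 e2 e3 e4
  by_cases h1 : m k' = 0
  · have h2 : m l ≠ 0 := fun h2 => hlk' (hm l hl k' hk' h2 h1)
    rw [if_neg h2, mul_zero, add_zero] at e3
    rw [if_neg h2] at e4
    rcases mul_eq_zero.1 e4.symm with h4 | h4
    · rw [← e3, h4, zero_mul, add_zero] at e1
      exact absurd e1 (by decide)
    · exact g3_ne l h4
  · rw [if_neg h1, mul_zero, add_zero] at e1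
    rw [if_neg h1] at e2
    rcases mul_eq_zero.1 e2.symm with h4 | h4
    · rw [← e1, h4, zero_mul, add_zero] at e3
      exact absurd e3 (by decide)
    · exact g3_ne k' h4

/-- `f_k'` is not in `⟨c, c', f_k⟩` -/
private theorem sepF {m : ℕ → ℕ} (hm : LaOk m) {k k' : ℕ} (hk : k < 3) (hk' : k' < 3)
    (hne : k' ≠ k) (s κ κ' : F4) : LaB m k' + s • LaB m k ≠ κ • Lac + κ' • Lac' m := by
  intro h
  obtain ⟨l, hl, hlk, hlk'⟩ := third' hk hk'
  obtain ⟨e1, e2⟩ := at_strand h hk'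
  obtain ⟨e3, e4⟩ := at_strand h hl
  rw [Finsupp.add_apply, Finsupp.smul_apply] at e1 e2 e3 e4
  rw [fA m k' hk', fA m k hk', if_neg (fun hh : k = k' ∧ _ => hne hh.1.symm)] at e1
  rw [fB m hk', fB m hk, if_neg (fun hh : k = k' ∧ _ => hne hh.1.symm)] at e2
  rw [fA m k' hl, fA m k hl, if_neg (fun hh : k' = l ∧ _ => hlk' hh.1.symm),
    if_neg (fun hh : k = l ∧ _ => hlk hh.1.symm)] at e3
  rw [fB m hk', fB m hk, if_neg (fun hh : k' = l ∧ _ => hlk' hh.1.symm),
    if_neg (fun hh : k = l ∧ _ => hlk hh.1.symm)] at e4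
  simp only [smul_zero, add_zero, true_and] at e1 e2 e3 e4
  by_cases h1 : m k' = 0
  · have h2 : m l ≠ 0 := fun h2 => hlk' (hm l hl k' hk' h2 h1)
    rw [if_neg h2, mul_zero, add_zero] at e3
    rw [if_neg h2] at e4
    rw [if_pos h1, if_pos h1] at e1
    rcases mul_eq_zero.1 e4.symm with h4 | h4
    · rw [← e3, h4, zero_mul, add_zero] at e1
      exact absurd e1 (by decide)
    · exact g3_ne l h4
  · rw [if_neg h1, if_neg h1, mul_zero, add_zero] at e1
    rw [if_pos h1, if_neg h1] at e2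
    by_cases h2 : m l = 0
    · rw [if_pos h2, ← e1, zero_add] at e3
      rcases mul_eq_zero.1 e3.symm with h4 | h4
      · rw [h4, zero_mul] at e2
        exact absurd e2 (by decide)
      · exact g3_ne l h4
    · rw [if_neg h2] at e4
      rcases mul_eq_zero.1 e4.symm with h4 | h4
      · rw [h4, zero_mul] at e2
        exact absurd e2 (by decide)
      · exact g3_ne l h4

private theorem mix1 {m : ℕ → ℕ} (hm : LaOk m) {k k' : ℕ} (hk : k < 3) (hk' : k' < 3)
    (α β : F4) : Lac' m + g3 k' • LaB m k' ≠ α • Lac + β • e k 0 := by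
  intro h
  obtain ⟨l, hl, hlk, hml⟩ := other hm hk'
  have h1 := DFunLike.congr_fun h (l + 4, 0)
  rw [Finsupp.add_apply, Finsupp.add_apply, Finsupp.smul_apply, Finsupp.smul_apply,
    Finsupp.smul_apply, dB m hl, if_neg hml, fB m hk', if_neg (fun hh => hlk hh.1.symm), cB,
    eB l hk, smul_zero, smul_zero, smul_zero, add_zero, add_zero] at h1
  exact g3_ne l h1

private theorem mix2 {m : ℕ → ℕ} (hm : LaOk m) {k k' : ℕ} (hk' : k' < 3)
    (α β : F4) : Lac + e k' 0 ≠ α • Lac' m + β • LaB m k := by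
  intro h
  obtain ⟨l, hl, hlk, hml⟩ := other hm hk'
  have h1 := DFunLike.congr_fun h (l, 0)
  rw [Finsupp.add_apply, Finsupp.add_apply, Finsupp.smul_apply, Finsupp.smul_apply, cA hl, eA,
    if_neg hlk.symm, dA m hl, if_neg hml, fA m k hl,
    if_neg (fun hh : k = l ∧ m k = 0 => hml (hh.1 ▸ hh.2)), smul_zero, smul_zero, add_zero,
    add_zero] at h1
  exact absurd h1 (by decide)

private theorem e_base (k : ℕ) : (e k 0 : VV) ∈ Base I3 := by
  intro i _ n hn
  rw [e_val, if_neg]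
  rintro ⟨_, h⟩
  omega

private theorem LaB_base (m : ℕ → ℕ) (k : ℕ) : LaB m k ∈ Base I3 := by
  unfold LaB
  split_ifs
  · exact e_base _
  · exact e_base _

private theorem Lac_base : Lac ∈ Base I3 :=
  add_mem (add_mem (e_base 0) (e_base 1)) (e_base 2)

private theorem Lac'_base (m : ℕ → ℕ) : Lac' m ∈ Base I3 :=
  add_mem (add_mem (LaB_base m 0) (smul_mem _ _ (LaB_base m 1))) (smul_mem _ _ (LaB_base m 2))

private theorem mem_I3 {j : ℕ} : j ∈ I3 ↔ j < 3 := by
  unfold I3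
  simp only [Finset.mem_insert, Finset.mem_singleton]
  omega

/-- GL1. GC3 for `La` (`I = I3`, `A i = e i 0`, `B = LaB m` (`= LaB (dec m i)` as `m i ≥ 3`),
`C0 = {e i 0, LaB m i} ∪ [c] ∪ [c']`, `A0 = [c + e j 0] ∪ [c' + g3 j • LaB m j]`, `K = LaK a b m`).
A vector of `K` is `κ c + κ' c'` (`κ = 0` if `a`, `κ' = 0` if `b`). To check (`i` with `m i ≥ 3`; `j, l` the other
two strands, at least one of them, has `m ≥ 1`; look at the coordinates of the ends):
* `s e_i + s' f_i = κ c + κ' c'`: strand with `m ≥ 1` gives `κ = κ' = 0`.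
* `e_i + f_i + s x ∉ K` for `x ∈ C0 ∪ A0` and for `x = e_j + f_j` (`m j = 1`): if `x` is in strand `j` the
  strand `l` gives `κ e_l + κ' g_l B_l = 0`: `κ = κ' = 0` if `m l ≥ 1`, `κ = κ' g_l` if `m l = 0`, then
  `κ e_j + κ' g_j f_j = s x` is impossible (`g_j ≠ g_l`) unless `κ = κ' = 0`.
* `hsep`: for `x = c + e_k` use `D = {c, e_k}`, for `x = c' + g_k B_k` use `D = {c', B_k}`. -/
theorem GL1 {a b : Bool} {m : ℕ → ℕ} (hm : LaOk m) {i : ℕ} (hi : i < 3) (h3 : 3 ≤ m i)
    (h : AK (LaK a b (dec m i)) (LaC a b (dec m i)) (LaP a b (dec m i))) :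
    AK (LaK a b m) (LaC a b m) (LaP a b m) := by
  have hmi : m i ≠ 0 := by omega
  have hB : LaB (dec m i) = LaB m := by
    funext j
    unfold LaB dec
    by_cases hj : j = i
    · subst hj
      rw [Function.update_self, if_neg (by omega), if_neg hmi]
    · rw [Function.update_of_ne hj]
  have hc' : Lac' (dec m i) = Lac' m := by
    unfold Lac'
    rw [hB]
  obtain ⟨C0, hC0⟩ : ∃ C0 : Set VV, C0 = {x | ∃ i < 3, x = e i 0 ∨ x = LaB m i} ∪
      bs a {Lac} ∪ bs b {Lac' m} := ⟨_, rfl⟩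
  obtain ⟨A0, hA0⟩ : ∃ A0 : Set VV, A0 = bs a {x | ∃ i < 3, x = Lac + e i 0} ∪
      bs b {x | ∃ i < 3, x = Lac' m + g3 i • LaB m i} := ⟨_, rfl⟩
  have hK : LaK a b (dec m i) = LaK a b m := by
    unfold LaK
    rw [hc']
  have hC : LaC a b (dec m i) = MSC I3 (dec m i) (fun i => e i 0) (LaB m) C0 := by
    unfold LaC
    rw [hB, hc', ← hC0]
  have hC1 : LaC a b m = MSC I3 m (fun i => e i 0) (LaB m) C0 := by
    unfold LaC
    rw [← hC0]
  have hP : LaP a b (dec m i) = MSP I3 (dec m i) (fun i => e i 0) (LaB m) C0 A0 := by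
    unfold LaP MSP
    rw [hC, hB, hc', hA0, ← union_assoc]
  have hP1 : LaP a b m = MSP I3 m (fun i => e i 0) (LaB m) C0 A0 := by
    unfold LaP MSP
    rw [hC1, hA0, ← union_assoc]
  rw [hK, hC, hP] at h
  rw [hC1, hP1]
  have hmemE : ∀ k < 3, e k 0 ∈ C0 := by
    intro k hk
    rw [hC0]
    exact Or.inl (Or.inl ⟨k, hk, Or.inl rfl⟩)
  have hmemF : ∀ k < 3, LaB m k ∈ C0 := by
    intro k hk
    rw [hC0]
    exact Or.inl (Or.inl ⟨k, hk, Or.inr rfl⟩)
  have hmemc : a = true → Lac ∈ C0 := by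
    intro ha
    rw [hC0]
    exact Or.inl (Or.inr ⟨ha, rfl⟩)
  have hmemc' : b = true → Lac' m ∈ C0 := by
    intro hb
    rw [hC0]
    exact Or.inr ⟨hb, rfl⟩
  have hcE : C0 ∪ {e i 0} = C0 := union_eq_self_of_subset_right
    (singleton_subset_iff.2 (hmemE i hi))
  have hcF : C0 ∪ {LaB m i} = C0 := union_eq_self_of_subset_right
    (singleton_subset_iff.2 (hmemF i hi))
  have hbase : MSB (LaK a b m) I3 m (fun i => e i 0) (LaB m) C0 A0 := by
    refine ⟨?_, fun j _ => e_base j, fun j _ => LaB_base m j, ?_, ?_, ?_⟩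
    · unfold LaK
      rw [span_le]
      rintro x (⟨_, rfl⟩ | ⟨_, rfl⟩)
      · exact Lac_base
      · exact Lac'_base m
    · rw [hC0]
      rintro x ((⟨k, _, rfl | rfl⟩ | ⟨_, rfl⟩) | ⟨_, rfl⟩)
      · exact e_base k
      · exact LaB_base m k
      · exact Lac_base
      · exact Lac'_base m
    · rw [hA0]
      rintro x (⟨_, k, _, rfl⟩ | ⟨_, k, _, rfl⟩)
      · exact add_mem Lac_base (e_base k)
      · exact add_mem (Lac'_base m) (smul_mem _ _ (LaB_base m k))
    · rw [hA0]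
      rintro x (⟨ha, k, hk, rfl⟩ | ⟨hb, k, hk, rfl⟩)
      · exact mem_sup_left (add_mem (subset_span (Or.inl (Or.inl (hmemc ha))))
          (subset_span (Or.inl (Or.inl (hmemE k hk)))))
      · exact mem_sup_left (add_mem (subset_span (Or.inl (Or.inl (hmemc' hb))))
          (smul_mem _ _ (subset_span (Or.inl (Or.inl (hmemF k hk))))))
  refine GC3 hbase (mem_I3.2 hi) h3 ?_ ?_ ?_ ?_ ?_ h ?_
  · intro s s' hs
    obtain ⟨κ, κ', hz, _, _⟩ := mem_LaK hs
    obtain ⟨l, hl, hli, hml⟩ := other hm hi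
    have hv : (s • e i 0 + s' • LaB m i) (l, 0) = 0 ∧ (s • e i 0 + s' • LaB m i) (l + 4, 0) = 0 := by
      rw [Finsupp.add_apply, Finsupp.smul_apply, Finsupp.smul_apply, Finsupp.add_apply,
        Finsupp.smul_apply, Finsupp.smul_apply, eA, if_neg hli.symm, fA m i hl,
        if_neg (fun hh => hmi hh.2), eB l hi, fB m hi, if_neg (fun hh => hli hh.1.symm)]
      simp
    obtain ⟨k1, k2⟩ := vanish hz hl hml hv.1 hv.2
    obtain ⟨e1, e2⟩ := at_strand hz hi
    rw [Finsupp.add_apply, Finsupp.smul_apply, Finsupp.smul_apply] at e1 e2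
    rw [eA, if_pos rfl, fA m i hi, if_neg (fun hh => hmi hh.2), k1, k2] at e1
    rw [eB i hi, fB m hi, if_pos ⟨rfl, hmi⟩, k2] at e2
    simp only [smul_eq_mul, mul_one, mul_zero, zero_mul, add_zero, zero_add] at e1 e2
    exact ⟨e1, e2⟩
  · intro x hx s hs
    obtain ⟨κ, κ', hz, _, _⟩ := mem_LaK hs
    rw [hC0, hA0] at hx
    rcases hx with ((⟨k, hk, hx⟩ | ⟨_, hx⟩) | ⟨_, hx⟩) | ⟨_, k, hk, hx⟩ | ⟨_, k, hk, hx⟩
    · exact caseM hm hi hk hmi hx s κ κ' hz
    · rw [mem_singleton_iff] at hx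
      refine caseM hm hi hi hmi (x := e i 0) (Or.inl rfl) 0 (κ - s) κ' ?_
      rw [zero_smul, add_zero, sub_smul, sub_add_eq_add_sub, ← hz, hx]
      abel
    · rw [mem_singleton_iff] at hx
      refine caseM hm hi hi hmi (x := e i 0) (Or.inl rfl) 0 κ (κ' - s) ?_
      rw [zero_smul, add_zero, sub_smul, ← add_sub_assoc, ← hz, hx]
      abel
    · refine caseM hm hi hk hmi (x := e k 0) (Or.inl rfl) s (κ - s) κ' ?_
      rw [sub_smul, sub_add_eq_add_sub, ← hz, hx, smul_add]
      abel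
    · refine caseM hm hi hk hmi (x := LaB m k) (Or.inr rfl) (s * g3 k) κ (κ' - s) ?_
      rw [sub_smul, ← add_sub_assoc, ← hz, hx, smul_add, smul_smul]
      abel
  · intro j hj hji _ s hs
    obtain ⟨κ, κ', hz, _, _⟩ := mem_LaK hs
    have hj3 := mem_I3.1 hj
    obtain ⟨l, hl, hli, hlj⟩ := third' hi hj3
    refine caseN hi hl hli hmi ?_ ?_ ?_ ?_ s κ κ' hz
    · rw [Finsupp.add_apply, eA, if_neg hji, fA m j hi, if_neg (fun hh => hji hh.1), add_zero]
    · rw [Finsupp.add_apply, eB i hj3, fB m hj3, if_neg (fun hh => hji hh.1), add_zero]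
    · rw [Finsupp.add_apply, eA, if_neg hlj.symm, fA m j hl, if_neg (fun hh => hlj hh.1.symm),
        add_zero]
    · rw [Finsupp.add_apply, eB l hj3, fB m hj3, if_neg (fun hh => hlj hh.1.symm), add_zero]
  · intro x hx x' hx' hD
    rw [hA0] at hx hx'
    rcases hx with ⟨ha, k, hk, hx⟩ | ⟨hb, k, hk, hx⟩
    · have h1 := (hD {Lac, e k 0} (by
        rintro z (rfl | hz)
        · exact Or.inl (Or.inl (hmemc ha))
        · rw [mem_singleton_iff] at hz
          rw [hz]
          exact Or.inl (Or.inl (hmemE k hk)))).1 (by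
        rw [hx]
        exact mem_sup_left (add_mem (subset_span (Or.inl rfl)) (subset_span (Or.inr rfl))))
      obtain ⟨u, hu, v, hv, huv⟩ := mem_sup.1 h1
      obtain ⟨α, β, rfl⟩ := mem_span_pair.1 hu
      obtain ⟨κ, κ', rfl, hκ, hκ'⟩ := mem_LaK hv
      rcases hx' with ⟨_, k', hk', hx'⟩ | ⟨hb, k', hk', hx'⟩
      · by_cases hkk : k' = k
        · rw [hx, hx', hkk]
        · exfalso
          refine sepE hm hk hk' hkk (-β) (α + κ - 1) κ' ?_
          have h2 : e k' 0 = (α • Lac + β • e k 0 + (κ • Lac + κ' • Lac' m)) - Lac := by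
            rw [huv, hx']
            abel
          rw [h2, sub_smul, add_smul, one_smul, neg_smul]
          abel
      · exfalso
        refine mix1 hm hk hk' α β ?_
        rw [hκ ha, hκ' hb, zero_smul, zero_smul, add_zero, add_zero] at huv
        rw [huv, hx']
    · have h1 := (hD {Lac' m, LaB m k} (by
        rintro z (rfl | hz)
        · exact Or.inl (Or.inl (hmemc' hb))
        · rw [mem_singleton_iff] at hz
          rw [hz]
          exact Or.inl (Or.inl (hmemF k hk)))).1 (by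
        rw [hx]
        exact mem_sup_left (add_mem (subset_span (Or.inl rfl))
          (smul_mem _ _ (subset_span (Or.inr rfl)))))
      obtain ⟨u, hu, v, hv, huv⟩ := mem_sup.1 h1
      obtain ⟨α, β, rfl⟩ := mem_span_pair.1 hu
      obtain ⟨κ, κ', rfl, hκ, hκ'⟩ := mem_LaK hv
      rcases hx' with ⟨ha, k', hk', hx'⟩ | ⟨_, k', hk', hx'⟩
      · exfalso
        refine mix2 hm hk' (k := k) α β ?_
        rw [hκ ha, hκ' hb, zero_smul, zero_smul, add_zero, add_zero] at huv
        rw [huv, hx']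
      · by_cases hkk : k' = k
        · rw [hx, hx', hkk]
        · exfalso
          refine sepF hm hk hk' hkk (-((g3 k')⁻¹ * β)) ((g3 k')⁻¹ * κ)
            ((g3 k')⁻¹ * (α + κ' - 1)) ?_
          have h2 : g3 k' • LaB m k' =
              (α • Lac' m + β • LaB m k + (κ • Lac + κ' • Lac' m)) - Lac' m := by
            rw [huv, hx']
            abel
          have h3 : LaB m k' = (g3 k')⁻¹ • ((α • Lac' m + β • LaB m k +
              (κ • Lac + κ' • Lac' m)) - Lac' m) := by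
            rw [← h2, smul_smul, inv_mul_cancel₀ (g3_ne k'), one_smul]
          have h4 : (g3 k')⁻¹ • ((α • Lac' m + β • LaB m k +
              (κ • Lac + κ' • Lac' m)) - Lac' m) + -((g3 k')⁻¹ * β) • LaB m k =
              ((g3 k')⁻¹ * κ) • Lac + ((g3 k')⁻¹ * (α + κ' - 1)) • Lac' m := by
            rw [smul_sub, smul_add, smul_add, smul_add, smul_smul, smul_smul, smul_smul, smul_smul,
              mul_sub, mul_add, sub_smul, add_smul, mul_one, neg_smul]
            abel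
          rw [← h4, ← h3]
  · show AK (LaK a b m) (MSC I3 (dec m i) (fun i => e i 0) (LaB m) (C0 ∪ {e i 0})) _
    rw [hcE]
    exact h
  · intro _
    rw [hcF]
    exact h

end QG
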