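import Pool.Agent.Lib.QG.GD5

/-! MP_2e6874_co, part (A), row GL2. -/

set_option autoImplicit false
set_option linter.unusedSimpArgs false

namespace QG
open Set Matroid Submodule

private def GL2_dl (k t : Fin 3) : F4 := if k = t then 1 else 0

private theorem GL2_f11 : ∀ k k' : Fin 3, ∀ gi : F4, gi ≠ 0 → ∀ gj : F4, gj ≠ 0 → ∀ κ g0 : F4,
    0 = g0 + κ * gi → ∀ g1 : F4, 0 = g1 + κ * gj → g0 * g1 = 0 → ∀ z : F4, ∀ α β : F4,
    1 + GL2_dl k' 0 = α + β * GL2_dl k 0 + g0 → 1 + GL2_dl k' 1 = α + β * GL2_dl k 1 + g1 →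
    1 + GL2_dl k' 2 = α + β * GL2_dl k 2 + κ * z → k = k' := by decide

private theorem GL2_f12 : ∀ k k' : Fin 3, ∀ gi : F4, gi ≠ 0 → ∀ gj : F4, gj ≠ 0 → gi ≠ gj →
    ∀ gl : F4, gl ≠ 0 → gi ≠ gl → gj ≠ gl → ∀ g0 : F4, gi * (1 + GL2_dl k' 0) = g0 →
    ∀ g1 : F4, gj * (1 + GL2_dl k' 1) = g1 → g0 * g1 = 0 → ∀ α β : F4,
    0 = α + β * GL2_dl k 0 + g0 → 0 = α + β * GL2_dl k 1 + g1 →
    gl * (1 + GL2_dl k' 2) = α + β * GL2_dl k 2 → False := by decide

private theorem GL2_f12' : ∀ k' : Fin 3, ∀ gi : F4, gi ≠ 0 → ∀ gj : F4, gj ≠ 0 →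
    ∀ g0 : F4, gi * (1 + GL2_dl k' 0) = g0 →
    ∀ g1 : F4, gj * (1 + GL2_dl k' 1) = g1 → g0 * g1 = 0 →
    ∀ gl : F4, gl ≠ 0 → gl * (1 + GL2_dl k' 2) = 0 → False := by decide

private theorem GL2_f20 : ∀ κ g0 : F4, 0 = g0 + κ → ∀ g1 : F4, 0 = g1 + κ → g0 * g1 = 0 →
    κ = 0 ∧ g0 = 0 ∧ g1 = 0 := by decide

private theorem GL2_f21 : ∀ k k' : Fin 3, ∀ gi : F4, gi ≠ 0 → ∀ gj : F4, gj ≠ 0 →
    ∀ gl : F4, gl ≠ 0 → ∀ α β : F4,
    gi * (1 + GL2_dl k' 0) = α * gi + β * GL2_dl k 0 →
    gj * (1 + GL2_dl k' 1) = α * gj + β * GL2_dl k 1 →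
    gl * (1 + GL2_dl k' 2) = α * gl + β * GL2_dl k 2 → k = k' := by decide

private theorem GL2_f22 : ∀ k k' : Fin 3, ∀ gi : F4, gi ≠ 0 → ∀ gj : F4, gj ≠ 0 → gi ≠ gj →
    ∀ gl : F4, gl ≠ 0 → gi ≠ gl → gj ≠ gl → ∀ g0 : F4, 1 + GL2_dl k' 0 = g0 →
    ∀ g1 : F4, 1 + GL2_dl k' 1 = g1 → g0 * g1 = 0 → ∀ α β : F4,
    0 = α * gi + β * GL2_dl k 0 + g0 → 0 = α * gj + β * GL2_dl k 1 + g1 →
    1 + GL2_dl k' 2 = α * gl + β * GL2_dl k 2 → False := by decide

private theorem GL2_f22' : ∀ k' : Fin 3, ∀ g0 : F4, 1 + GL2_dl k' 0 = g0 →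
    ∀ g1 : F4, 1 + GL2_dl k' 1 = g1 → g0 * g1 = 0 → 1 + GL2_dl k' 2 = 0 → False := by decide

private theorem GL2_g3 : ∀ {i j : ℕ}, i < 3 → j < 3 → i ≠ j → g3 i ≠ g3 j := by
  intro i j hi hj hij
  interval_cases i <;> interval_cases j <;> first | exact absurd rfl hij | decide

private theorem GL2_g0 (i : ℕ) : g3 i ≠ 0 := by
  unfold g3; split_ifs <;> decide

private theorem GL2_e (i n j k : ℕ) : e i n (j, k) = if i = j ∧ n = k then 1 else 0 := by
  unfold e
  rw [Finsupp.single_apply]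
  simp only [Prod.mk.injEq]

private theorem GL2_P (k t : ℕ) : e k 0 (t, 0) = if k = t then 1 else 0 := by
  rw [GL2_e]; simp

private theorem GL2_Q {k : ℕ} (hk : k < 3) (t : ℕ) : e k 0 (t + 4, 0) = 0 := by
  rw [GL2_P, if_neg]; omega

private theorem GL2_PB (m : ℕ → ℕ) (k : ℕ) {t : ℕ} (ht : t < 3) :
    LaB m k (t, 0) = if m t = 0 then (if k = t then 1 else 0) else 0 := by
  unfold LaB
  have h4 : k + 4 ≠ t := by omega
  by_cases hkt : k = t
  · subst hkt
    by_cases h : m k = 0
    · simp [h, GL2_P]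
    · simp [h, GL2_P]
  · rw [if_neg hkt]
    by_cases h : m k = 0
    · simp [h, GL2_P, hkt]
    · simp [h, GL2_P, h4]

private theorem GL2_QB (m : ℕ → ℕ) {k : ℕ} (hk : k < 3) (t : ℕ) :
    LaB m k (t + 4, 0) = if m t = 0 then 0 else (if k = t then 1 else 0) := by
  unfold LaB
  have h4 : k ≠ t + 4 := by omega
  by_cases hkt : k = t
  · subst hkt
    by_cases h : m k = 0
    · simp [h, GL2_P]
    · simp [h, GL2_P]
  · rw [if_neg hkt]
    by_cases h : m k = 0
    · simp [h, GL2_P, h4]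
    · simp [h, GL2_P, hkt]

private theorem GL2_Bn (m : ℕ → ℕ) (k t : ℕ) {n : ℕ} (hn : 1 ≤ n) : LaB m k (t, n) = 0 := by
  unfold LaB
  split_ifs
  · rw [GL2_e, if_neg]; omega
  · rw [GL2_e, if_neg]; omega

private theorem GL2_Pc {t : ℕ} (ht : t < 3) : Lac (t, 0) = 1 := by
  unfold Lac
  simp only [Finsupp.add_apply, GL2_P]
  interval_cases t <;> simp

private theorem GL2_Qc (t : ℕ) : Lac (t + 4, 0) = 0 := by
  unfold Lac
  simp only [Finsupp.add_apply]
  rw [GL2_Q (by norm_num), GL2_Q (by norm_num), GL2_Q (by norm_num)]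
  simp

private theorem GL2_Pd (m : ℕ → ℕ) {t : ℕ} (ht : t < 3) :
    Lac' m (t, 0) = if m t = 0 then g3 t else 0 := by
  unfold Lac'
  simp only [Finsupp.add_apply, Finsupp.smul_apply, GL2_PB m _ ht]
  interval_cases t <;> simp [g3] <;> intros <;> rfl

private theorem GL2_Qd (m : ℕ → ℕ) {t : ℕ} (ht : t < 3) :
    Lac' m (t + 4, 0) = if m t = 0 then 0 else g3 t := by
  unfold Lac'
  simp only [Finsupp.add_apply, Finsupp.smul_apply]
  rw [GL2_QB m (by norm_num), GL2_QB m (by norm_num), GL2_QB m (by norm_num)]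
  interval_cases t <;> simp [g3] <;> intros <;> rfl

private theorem GL2_ix {i j l : ℕ} (hi : i < 3) (hj : j < 3) (hl : l < 3)
    (hij : i ≠ j) (hil : i ≠ l) (hjl : j ≠ l) {k : ℕ} (hk : k < 3) :
    ∃ κ : Fin 3, k = ![i, j, l] κ ∧ ((if k = i then (1 : F4) else 0) = GL2_dl κ 0 ∧
      (if k = j then (1 : F4) else 0) = GL2_dl κ 1 ∧
      (if k = l then (1 : F4) else 0) = GL2_dl κ 2) ∧
      (g3 k * GL2_dl κ 0 = g3 i * GL2_dl κ 0 ∧
      g3 k * GL2_dl κ 1 = g3 j * GL2_dl κ 1 ∧ g3 k * GL2_dl κ 2 = g3 l * GL2_dl κ 2) := by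
  have : k = i ∨ k = j ∨ k = l := by omega
  rcases this with rfl | rfl | rfl
  · exact ⟨0, rfl, ⟨by simp [GL2_dl], by simp [GL2_dl, hij], by simp [GL2_dl, hil]⟩,
      by simp [GL2_dl]⟩
  · exact ⟨1, rfl, ⟨by simp [GL2_dl, hij.symm], by simp [GL2_dl], by simp [GL2_dl, hjl]⟩,
      by simp [GL2_dl]⟩
  · exact ⟨2, rfl, ⟨by simp [GL2_dl, hil.symm], by simp [GL2_dl, hjl.symm], by simp [GL2_dl]⟩,
      by simp [GL2_dl]⟩

private theorem GL2_K {a b : Bool} {m : ℕ → ℕ} {x : VV} (hx : x ∈ LaK a b m) :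
    ∃ κ κ' : F4, (a = true → κ = 0) ∧ (b = true → κ' = 0) ∧ x = κ • Lac + κ' • Lac' m := by
  unfold LaK at hx
  rw [Submodule.span_union] at hx
  obtain ⟨y, hy, z, hz, rfl⟩ := Submodule.mem_sup.1 hx
  have h1 : ∀ (c : Bool) (v w : VV), w ∈ span F4 (bs (!c) {v}) →
      ∃ s : F4, (c = true → s = 0) ∧ w = s • v := by
    intro c v w hw
    cases c
    · have : bs (!false) {v} = ({v} : Set VV) := by ext; simp [bs]
      rw [this] at hw
      obtain ⟨s, hs⟩ := Submodule.mem_span_singleton.1 hw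
      exact ⟨s, by simp, hs.symm⟩
    · have : bs (!true) {v} = (∅ : Set VV) := by ext; simp [bs]
      rw [this, Submodule.span_empty] at hw
      exact ⟨0, fun _ => rfl, by rw [zero_smul]; simpa using hw⟩
  obtain ⟨s, hs, rfl⟩ := h1 a _ _ hy
  obtain ⟨s', hs', rfl⟩ := h1 b _ _ hz
  exact ⟨s, s', hs, hs', rfl⟩

/-- the separation -/
private theorem GL2_sep {a b : Bool} {m : ℕ → ℕ} {i j l : ℕ} (hi : i < 3) (hj : j < 3) (hl3 : l < 3)
    (hij : i ≠ j) (hil : i ≠ l) (hjl : j ≠ l) (hmi : 2 ≤ m i) (hmj : 2 ≤ m j)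
    {CC : Set VV} (hC1 : ∀ k < 3, e k 0 ∈ CC) (hC2 : ∀ k < 3, LaB m k ∈ CC)
    (hC3 : a = true → Lac ∈ CC) (hC4 : b = true → Lac' m ∈ CC)
    {x x' u : VV}
    (hx : x ∈ bs a {x | ∃ i < 3, x = Lac + e i 0} ∪ bs b {x | ∃ i < 3, x = Lac' m + g3 i • LaB m i})
    (hx' : x' ∈ bs a {x | ∃ i < 3, x = Lac + e i 0} ∪
      bs b {x | ∃ i < 3, x = Lac' m + g3 i • LaB m i})
    (hu : u ∈ ({0, e i 0 + LaB m i, e j 0 + LaB m j} : Set VV))
    (hD : ∀ D, D ⊆ CC → (x ∈ span F4 (insert u D) ⊔ LaK a b m ↔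
      x' ∈ span F4 (insert u D) ⊔ LaK a b m)) : x = x' := by
  have hmi0 : m i ≠ 0 := by omega
  have hmj0 : m j ≠ 0 := by omega
  -- multiples of u
  have hU : ∀ γ : F4, ∃ g0 g1 : F4, g0 * g1 = 0 ∧
      γ • u = g0 • (e i 0 + LaB m i) + g1 • (e j 0 + LaB m j) := by
    intro γ
    rcases hu with rfl | rfl | rfl
    · exact ⟨0, 0, by simp, by simp⟩
    · exact ⟨γ, 0, by simp, by simp⟩
    · exact ⟨0, γ, by simp, by simp⟩
  -- membership in the span of three vectors and K
  have hM : ∀ v w y : VV, y ∈ span F4 (insert u {v, w}) ⊔ LaK a b m →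
      ∃ g0 g1 α β κ κ' : F4, g0 * g1 = 0 ∧ (a = true → κ = 0) ∧ (b = true → κ' = 0) ∧
        y = g0 • (e i 0 + LaB m i) + g1 • (e j 0 + LaB m j) + α • v + β • w +
          (κ • Lac + κ' • Lac' m) := by
    intro v w y hy
    obtain ⟨z, hz, k, hk, rfl⟩ := Submodule.mem_sup.1 hy
    obtain ⟨γ, z', hz', rfl⟩ := Submodule.mem_span_insert.1 hz
    obtain ⟨α, β, rfl⟩ := Submodule.mem_span_pair.1 hz'
    obtain ⟨κ, κ', h1, h2, rfl⟩ := GL2_K hk
    obtain ⟨g0, g1, h3, h4⟩ := hU γ
    refine ⟨g0, g1, α, β, κ, κ', h3, h1, h2, ?_⟩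
    rw [h4, ← add_assoc (g0 • (e i 0 + LaB m i) + g1 • (e j 0 + LaB m j)) (α • v) (β • w)]
  have gi := GL2_g0 i
  have gj := GL2_g0 j
  have gl := GL2_g0 l
  have gij := GL2_g3 hi hj hij
  have gil := GL2_g3 hi hl3 hil
  have gjl := GL2_g3 hj hl3 hjl
  obtain ⟨k, hk, hxk⟩ : ∃ k < 3, (a = true ∧ x = Lac + e k 0) ∨
      (b = true ∧ x = Lac' m + g3 k • LaB m k) := by
    rcases hx with ⟨ha, k, hk, rfl⟩ | ⟨hb, k, hk, rfl⟩
    · exact ⟨k, hk, Or.inl ⟨ha, rfl⟩⟩
    · exact ⟨k, hk, Or.inr ⟨hb, rfl⟩⟩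
  obtain ⟨k', hk', hxk'⟩ : ∃ k < 3, (a = true ∧ x' = Lac + e k 0) ∨
      (b = true ∧ x' = Lac' m + g3 k • LaB m k) := by
    rcases hx' with ⟨ha, k, hk, rfl⟩ | ⟨hb, k, hk, rfl⟩
    · exact ⟨k, hk, Or.inl ⟨ha, rfl⟩⟩
    · exact ⟨k, hk, Or.inr ⟨hb, rfl⟩⟩
  clear hx hx'
  obtain ⟨c, hc, ⟨C0, C1, C2⟩, D0, D1, D2⟩ := GL2_ix hi hj hl3 hij hil hjl hk
  obtain ⟨c', hc', ⟨C0', C1', C2'⟩, D0', D1', D2'⟩ := GL2_ix hi hj hl3 hij hil hjl hk'
  rcases hxk with ⟨ha, rfl⟩ | ⟨hb, rfl⟩
  · -- type 1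
    have hin : Lac + e k 0 ∈ span F4 (insert u {Lac, e k 0}) ⊔ LaK a b m := by
      refine Submodule.mem_sup_left (Submodule.add_mem _ ?_ ?_) <;>
        exact Submodule.subset_span (by simp)
    have hsub : ({Lac, e k 0} : Set VV) ⊆ CC := by
      rintro y (rfl | rfl)
      · exact hC3 ha
      · exact hC1 k hk
    obtain ⟨g0, g1, α, β, κ, κ', h3, h1, h2, h4⟩ := hM _ _ _ ((hD _ hsub).1 hin)
    rw [h1 ha, zero_smul, zero_add] at h4
    rcases hxk' with ⟨ha, rfl⟩ | ⟨hb, rfl⟩
    · have hcc : c = c' := by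
        by_cases M : m l = 0
        · have e1 := DFunLike.congr_fun h4 (i, 0)
          have e2 := DFunLike.congr_fun h4 (j, 0)
          have e3 := DFunLike.congr_fun h4 (l, 0)
          have e4 := DFunLike.congr_fun h4 (i + 4, 0)
          have e5 := DFunLike.congr_fun h4 (j + 4, 0)
          have e6 := DFunLike.congr_fun h4 (l + 4, 0)
          simp only [Finsupp.add_apply, Finsupp.smul_apply, smul_eq_mul, GL2_P, GL2_PB m _
            hi, GL2_Pc hi, GL2_Pd m hi, hmi0, hmj0, C0, C0', M, hij, hij.symm, hil, hil.symm,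
            hjl, hjl.symm, if_true, if_false] at e1
          simp only [Finsupp.add_apply, Finsupp.smul_apply, smul_eq_mul, GL2_P, GL2_PB m _
            hj, GL2_Pc hj, GL2_Pd m hj, hmi0, hmj0, C1, C1', M, hij, hij.symm, hil, hil.symm,
            hjl, hjl.symm, if_true, if_false] at e2
          simp only [Finsupp.add_apply, Finsupp.smul_apply, smul_eq_mul, GL2_P, GL2_PB m _
            hl3, GL2_Pc hl3, GL2_Pd m hl3, hmi0, hmj0, C2, C2', M, hij, hij.symm, hil,
            hil.symm, hjl, hjl.symm, if_true, if_false] at e3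
          simp only [Finsupp.add_apply, Finsupp.smul_apply, smul_eq_mul, GL2_Q hi, GL2_Q hj,
            GL2_Q hk, GL2_Q hk', GL2_QB m hi, GL2_QB m hj, GL2_QB m hk, GL2_QB m hk', GL2_Qc,
            GL2_Qd m hi, hmi0, hmj0, C0, C0', M, hij, hij.symm, hil, hil.symm, hjl, hjl.symm,
            if_true, if_false] at e4
          simp only [Finsupp.add_apply, Finsupp.smul_apply, smul_eq_mul, GL2_Q hi, GL2_Q hj,
            GL2_Q hk, GL2_Q hk', GL2_QB m hi, GL2_QB m hj, GL2_QB m hk, GL2_QB m hk', GL2_Qc,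
            GL2_Qd m hj, hmi0, hmj0, C1, C1', M, hij, hij.symm, hil, hil.symm, hjl, hjl.symm,
            if_true, if_false] at e5
          simp only [Finsupp.add_apply, Finsupp.smul_apply, smul_eq_mul, GL2_Q hi, GL2_Q hj,
            GL2_Q hk, GL2_Q hk', GL2_QB m hi, GL2_QB m hj, GL2_QB m hk, GL2_QB m hk', GL2_Qc,
            GL2_Qd m hl3, hmi0, hmj0, C2, C2', M, hij, hij.symm, hil, hil.symm, hjl, hjl.symm,
            if_true, if_false] at e6
          refine GL2_f11 c c' (g3 i) gi (g3 j) gj κ' g0 ?_ g1 ?_ h3 (g3 l) α β ?_ ?_ ?_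
          · linear_combination e4
          · linear_combination e5
          · linear_combination e1
          · linear_combination e2
          · linear_combination e3
        · have e1 := DFunLike.congr_fun h4 (i, 0)
          have e2 := DFunLike.congr_fun h4 (j, 0)
          have e3 := DFunLike.congr_fun h4 (l, 0)
          have e4 := DFunLike.congr_fun h4 (i + 4, 0)
          have e5 := DFunLike.congr_fun h4 (j + 4, 0)
          have e6 := DFunLike.congr_fun h4 (l + 4, 0)
          simp only [Finsupp.add_apply, Finsupp.smul_apply, smul_eq_mul, GL2_P, GL2_PB m _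
            hi, GL2_Pc hi, GL2_Pd m hi, hmi0, hmj0, C0, C0', M, hij, hij.symm, hil, hil.symm,
            hjl, hjl.symm, if_true, if_false] at e1
          simp only [Finsupp.add_apply, Finsupp.smul_apply, smul_eq_mul, GL2_P, GL2_PB m _
            hj, GL2_Pc hj, GL2_Pd m hj, hmi0, hmj0, C1, C1', M, hij, hij.symm, hil, hil.symm,
            hjl, hjl.symm, if_true, if_false] at e2
          simp only [Finsupp.add_apply, Finsupp.smul_apply, smul_eq_mul, GL2_P, GL2_PB m _
            hl3, GL2_Pc hl3, GL2_Pd m hl3, hmi0, hmj0, C2, C2', M, hij, hij.symm, hil,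
            hil.symm, hjl, hjl.symm, if_true, if_false] at e3
          simp only [Finsupp.add_apply, Finsupp.smul_apply, smul_eq_mul, GL2_Q hi, GL2_Q hj,
            GL2_Q hk, GL2_Q hk', GL2_QB m hi, GL2_QB m hj, GL2_QB m hk, GL2_QB m hk', GL2_Qc,
            GL2_Qd m hi, hmi0, hmj0, C0, C0', M, hij, hij.symm, hil, hil.symm, hjl, hjl.symm,
            if_true, if_false] at e4
          simp only [Finsupp.add_apply, Finsupp.smul_apply, smul_eq_mul, GL2_Q hi, GL2_Q hj,
            GL2_Q hk, GL2_Q hk', GL2_QB m hi, GL2_QB m hj, GL2_QB m hk, GL2_QB m hk', GL2_Qc,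
            GL2_Qd m hj, hmi0, hmj0, C1, C1', M, hij, hij.symm, hil, hil.symm, hjl, hjl.symm,
            if_true, if_false] at e5
          simp only [Finsupp.add_apply, Finsupp.smul_apply, smul_eq_mul, GL2_Q hi, GL2_Q hj,
            GL2_Q hk, GL2_Q hk', GL2_QB m hi, GL2_QB m hj, GL2_QB m hk, GL2_QB m hk', GL2_Qc,
            GL2_Qd m hl3, hmi0, hmj0, C2, C2', M, hij, hij.symm, hil, hil.symm, hjl, hjl.symm,
            if_true, if_false] at e6
          refine GL2_f11 c c' (g3 i) gi (g3 j) gj κ' g0 ?_ g1 ?_ h3 0 α β ?_ ?_ ?_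
          · linear_combination e4
          · linear_combination e5
          · linear_combination e1
          · linear_combination e2
          · linear_combination e3
      rw [hc, hc', hcc]
    · exfalso
      rw [h2 hb, zero_smul, add_zero] at h4
      by_cases M : m l = 0
      · have e1 := DFunLike.congr_fun h4 (i, 0)
        have e2 := DFunLike.congr_fun h4 (j, 0)
        have e3 := DFunLike.congr_fun h4 (l, 0)
        have e4 := DFunLike.congr_fun h4 (i + 4, 0)
        have e5 := DFunLike.congr_fun h4 (j + 4, 0)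
        have e6 := DFunLike.congr_fun h4 (l + 4, 0)
        simp only [Finsupp.add_apply, Finsupp.smul_apply, smul_eq_mul, GL2_P, GL2_PB m _ hi,
          GL2_Pc hi, GL2_Pd m hi, hmi0, hmj0, C0, C0', M, hij, hij.symm, hil, hil.symm, hjl,
          hjl.symm, if_true, if_false] at e1
        simp only [Finsupp.add_apply, Finsupp.smul_apply, smul_eq_mul, GL2_P, GL2_PB m _ hj,
          GL2_Pc hj, GL2_Pd m hj, hmi0, hmj0, C1, C1', M, hij, hij.symm, hil, hil.symm, hjl,
          hjl.symm, if_true, if_false] at e2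
        simp only [Finsupp.add_apply, Finsupp.smul_apply, smul_eq_mul, GL2_P, GL2_PB m _
          hl3, GL2_Pc hl3, GL2_Pd m hl3, hmi0, hmj0, C2, C2', M, hij, hij.symm, hil, hil.symm,
          hjl, hjl.symm, if_true, if_false] at e3
        simp only [Finsupp.add_apply, Finsupp.smul_apply, smul_eq_mul, GL2_Q hi, GL2_Q hj,
          GL2_Q hk, GL2_Q hk', GL2_QB m hi, GL2_QB m hj, GL2_QB m hk, GL2_QB m hk', GL2_Qc,
          GL2_Qd m hi, hmi0, hmj0, C0, C0', M, hij, hij.symm, hil, hil.symm, hjl, hjl.symm,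
          if_true, if_false] at e4
        simp only [Finsupp.add_apply, Finsupp.smul_apply, smul_eq_mul, GL2_Q hi, GL2_Q hj,
          GL2_Q hk, GL2_Q hk', GL2_QB m hi, GL2_QB m hj, GL2_QB m hk, GL2_QB m hk', GL2_Qc,
          GL2_Qd m hj, hmi0, hmj0, C1, C1', M, hij, hij.symm, hil, hil.symm, hjl, hjl.symm,
          if_true, if_false] at e5
        simp only [Finsupp.add_apply, Finsupp.smul_apply, smul_eq_mul, GL2_Q hi, GL2_Q hj,
          GL2_Q hk, GL2_Q hk', GL2_QB m hi, GL2_QB m hj, GL2_QB m hk, GL2_QB m hk', GL2_Qc,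
          GL2_Qd m hl3, hmi0, hmj0, C2, C2', M, hij, hij.symm, hil, hil.symm, hjl, hjl.symm,
          if_true, if_false] at e6
        refine GL2_f12 c c' (g3 i) gi (g3 j) gj gij (g3 l) gl gil gjl g0 ?_ g1 ?_ h3 α β ?_ ?_ ?_
        · linear_combination e4 - D0'
        · linear_combination e5 - D1'
        · linear_combination e1
        · linear_combination e2
        · linear_combination e3 - D2'
      · have e1 := DFunLike.congr_fun h4 (i, 0)
        have e2 := DFunLike.congr_fun h4 (j, 0)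
        have e3 := DFunLike.congr_fun h4 (l, 0)
        have e4 := DFunLike.congr_fun h4 (i + 4, 0)
        have e5 := DFunLike.congr_fun h4 (j + 4, 0)
        have e6 := DFunLike.congr_fun h4 (l + 4, 0)
        simp only [Finsupp.add_apply, Finsupp.smul_apply, smul_eq_mul, GL2_P, GL2_PB m _ hi,
          GL2_Pc hi, GL2_Pd m hi, hmi0, hmj0, C0, C0', M, hij, hij.symm, hil, hil.symm, hjl,
          hjl.symm, if_true, if_false] at e1
        simp only [Finsupp.add_apply, Finsupp.smul_apply, smul_eq_mul, GL2_P, GL2_PB m _ hj,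
          GL2_Pc hj, GL2_Pd m hj, hmi0, hmj0, C1, C1', M, hij, hij.symm, hil, hil.symm, hjl,
          hjl.symm, if_true, if_false] at e2
        simp only [Finsupp.add_apply, Finsupp.smul_apply, smul_eq_mul, GL2_P, GL2_PB m _
          hl3, GL2_Pc hl3, GL2_Pd m hl3, hmi0, hmj0, C2, C2', M, hij, hij.symm, hil, hil.symm,
          hjl, hjl.symm, if_true, if_false] at e3
        simp only [Finsupp.add_apply, Finsupp.smul_apply, smul_eq_mul, GL2_Q hi, GL2_Q hj,
          GL2_Q hk, GL2_Q hk', GL2_QB m hi, GL2_QB m hj, GL2_QB m hk, GL2_QB m hk', GL2_Qc,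
          GL2_Qd m hi, hmi0, hmj0, C0, C0', M, hij, hij.symm, hil, hil.symm, hjl, hjl.symm,
          if_true, if_false] at e4
        simp only [Finsupp.add_apply, Finsupp.smul_apply, smul_eq_mul, GL2_Q hi, GL2_Q hj,
          GL2_Q hk, GL2_Q hk', GL2_QB m hi, GL2_QB m hj, GL2_QB m hk, GL2_QB m hk', GL2_Qc,
          GL2_Qd m hj, hmi0, hmj0, C1, C1', M, hij, hij.symm, hil, hil.symm, hjl, hjl.symm,
          if_true, if_false] at e5
        simp only [Finsupp.add_apply, Finsupp.smul_apply, smul_eq_mul, GL2_Q hi, GL2_Q hj,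
          GL2_Q hk, GL2_Q hk', GL2_QB m hi, GL2_QB m hj, GL2_QB m hk, GL2_QB m hk', GL2_Qc,
          GL2_Qd m hl3, hmi0, hmj0, C2, C2', M, hij, hij.symm, hil, hil.symm, hjl, hjl.symm,
          if_true, if_false] at e6
        refine GL2_f12' c' (g3 i) gi (g3 j) gj g0 ?_ g1 ?_ h3 (g3 l) gl ?_
        · linear_combination e4 - D0'
        · linear_combination e5 - D1'
        · linear_combination e6 - D2'
  · -- type 2
    have hin : Lac' m + g3 k • LaB m k ∈ span F4 (insert u {Lac' m, LaB m k}) ⊔ LaK a b m := by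
      refine Submodule.mem_sup_left (Submodule.add_mem _ ?_ (Submodule.smul_mem _ _ ?_)) <;>
        exact Submodule.subset_span (by simp)
    have hsub : ({Lac' m, LaB m k} : Set VV) ⊆ CC := by
      rintro y (rfl | rfl)
      · exact hC4 hb
      · exact hC2 k hk
    obtain ⟨g0, g1, α, β, κ, κ', h3, h1, h2, h4⟩ := hM _ _ _ ((hD _ hsub).1 hin)
    rw [h2 hb, zero_smul, add_zero] at h4
    rcases hxk' with ⟨ha, rfl⟩ | ⟨hb, rfl⟩
    · exfalso
      rw [h1 ha, zero_smul, add_zero] at h4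
      by_cases M : m l = 0
      · have e1 := DFunLike.congr_fun h4 (i, 0)
        have e2 := DFunLike.congr_fun h4 (j, 0)
        have e3 := DFunLike.congr_fun h4 (l, 0)
        have e4 := DFunLike.congr_fun h4 (i + 4, 0)
        have e5 := DFunLike.congr_fun h4 (j + 4, 0)
        have e6 := DFunLike.congr_fun h4 (l + 4, 0)
        simp only [Finsupp.add_apply, Finsupp.smul_apply, smul_eq_mul, GL2_P, GL2_PB m _ hi,
          GL2_Pc hi, GL2_Pd m hi, hmi0, hmj0, C0, C0', M, hij, hij.symm, hil, hil.symm, hjl,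
          hjl.symm, if_true, if_false] at e1
        simp only [Finsupp.add_apply, Finsupp.smul_apply, smul_eq_mul, GL2_P, GL2_PB m _ hj,
          GL2_Pc hj, GL2_Pd m hj, hmi0, hmj0, C1, C1', M, hij, hij.symm, hil, hil.symm, hjl,
          hjl.symm, if_true, if_false] at e2
        simp only [Finsupp.add_apply, Finsupp.smul_apply, smul_eq_mul, GL2_P, GL2_PB m _
          hl3, GL2_Pc hl3, GL2_Pd m hl3, hmi0, hmj0, C2, C2', M, hij, hij.symm, hil, hil.symm,
          hjl, hjl.symm, if_true, if_false] at e3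
        simp only [Finsupp.add_apply, Finsupp.smul_apply, smul_eq_mul, GL2_Q hi, GL2_Q hj,
          GL2_Q hk, GL2_Q hk', GL2_QB m hi, GL2_QB m hj, GL2_QB m hk, GL2_QB m hk', GL2_Qc,
          GL2_Qd m hi, hmi0, hmj0, C0, C0', M, hij, hij.symm, hil, hil.symm, hjl, hjl.symm,
          if_true, if_false] at e4
        simp only [Finsupp.add_apply, Finsupp.smul_apply, smul_eq_mul, GL2_Q hi, GL2_Q hj,
          GL2_Q hk, GL2_Q hk', GL2_QB m hi, GL2_QB m hj, GL2_QB m hk, GL2_QB m hk', GL2_Qc,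
          GL2_Qd m hj, hmi0, hmj0, C1, C1', M, hij, hij.symm, hil, hil.symm, hjl, hjl.symm,
          if_true, if_false] at e5
        simp only [Finsupp.add_apply, Finsupp.smul_apply, smul_eq_mul, GL2_Q hi, GL2_Q hj,
          GL2_Q hk, GL2_Q hk', GL2_QB m hi, GL2_QB m hj, GL2_QB m hk, GL2_QB m hk', GL2_Qc,
          GL2_Qd m hl3, hmi0, hmj0, C2, C2', M, hij, hij.symm, hil, hil.symm, hjl, hjl.symm,
          if_true, if_false] at e6
        refine GL2_f22 c c' (g3 i) gi (g3 j) gj gij (g3 l) gl gil gjl g0 ?_ g1 ?_ h3 α β ?_ ?_ ?_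
        · linear_combination e1
        · linear_combination e2
        · linear_combination e4
        · linear_combination e5
        · linear_combination e3
      · have e1 := DFunLike.congr_fun h4 (i, 0)
        have e2 := DFunLike.congr_fun h4 (j, 0)
        have e3 := DFunLike.congr_fun h4 (l, 0)
        have e4 := DFunLike.congr_fun h4 (i + 4, 0)
        have e5 := DFunLike.congr_fun h4 (j + 4, 0)
        have e6 := DFunLike.congr_fun h4 (l + 4, 0)
        simp only [Finsupp.add_apply, Finsupp.smul_apply, smul_eq_mul, GL2_P, GL2_PB m _ hi,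
          GL2_Pc hi, GL2_Pd m hi, hmi0, hmj0, C0, C0', M, hij, hij.symm, hil, hil.symm, hjl,
          hjl.symm, if_true, if_false] at e1
        simp only [Finsupp.add_apply, Finsupp.smul_apply, smul_eq_mul, GL2_P, GL2_PB m _ hj,
          GL2_Pc hj, GL2_Pd m hj, hmi0, hmj0, C1, C1', M, hij, hij.symm, hil, hil.symm, hjl,
          hjl.symm, if_true, if_false] at e2
        simp only [Finsupp.add_apply, Finsupp.smul_apply, smul_eq_mul, GL2_P, GL2_PB m _
          hl3, GL2_Pc hl3, GL2_Pd m hl3, hmi0, hmj0, C2, C2', M, hij, hij.symm, hil, hil.symm,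
          hjl, hjl.symm, if_true, if_false] at e3
        simp only [Finsupp.add_apply, Finsupp.smul_apply, smul_eq_mul, GL2_Q hi, GL2_Q hj,
          GL2_Q hk, GL2_Q hk', GL2_QB m hi, GL2_QB m hj, GL2_QB m hk, GL2_QB m hk', GL2_Qc,
          GL2_Qd m hi, hmi0, hmj0, C0, C0', M, hij, hij.symm, hil, hil.symm, hjl, hjl.symm,
          if_true, if_false] at e4
        simp only [Finsupp.add_apply, Finsupp.smul_apply, smul_eq_mul, GL2_Q hi, GL2_Q hj,
          GL2_Q hk, GL2_Q hk', GL2_QB m hi, GL2_QB m hj, GL2_QB m hk, GL2_QB m hk', GL2_Qc,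
          GL2_Qd m hj, hmi0, hmj0, C1, C1', M, hij, hij.symm, hil, hil.symm, hjl, hjl.symm,
          if_true, if_false] at e5
        simp only [Finsupp.add_apply, Finsupp.smul_apply, smul_eq_mul, GL2_Q hi, GL2_Q hj,
          GL2_Q hk, GL2_Q hk', GL2_QB m hi, GL2_QB m hj, GL2_QB m hk, GL2_QB m hk', GL2_Qc,
          GL2_Qd m hl3, hmi0, hmj0, C2, C2', M, hij, hij.symm, hil, hil.symm, hjl, hjl.symm,
          if_true, if_false] at e6
        refine GL2_f22' c' g0 ?_ g1 ?_ h3 ?_
        · linear_combination e1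
        · linear_combination e2
        · linear_combination e3
    · have hcc : c = c' := by
        by_cases M : m l = 0
        · have e1 := DFunLike.congr_fun h4 (i, 0)
          have e2 := DFunLike.congr_fun h4 (j, 0)
          have e3 := DFunLike.congr_fun h4 (l, 0)
          have e4 := DFunLike.congr_fun h4 (i + 4, 0)
          have e5 := DFunLike.congr_fun h4 (j + 4, 0)
          have e6 := DFunLike.congr_fun h4 (l + 4, 0)
          simp only [Finsupp.add_apply, Finsupp.smul_apply, smul_eq_mul, GL2_P, GL2_PB m _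
            hi, GL2_Pc hi, GL2_Pd m hi, hmi0, hmj0, C0, C0', M, hij, hij.symm, hil, hil.symm,
            hjl, hjl.symm, if_true, if_false] at e1
          simp only [Finsupp.add_apply, Finsupp.smul_apply, smul_eq_mul, GL2_P, GL2_PB m _
            hj, GL2_Pc hj, GL2_Pd m hj, hmi0, hmj0, C1, C1', M, hij, hij.symm, hil, hil.symm,
            hjl, hjl.symm, if_true, if_false] at e2
          simp only [Finsupp.add_apply, Finsupp.smul_apply, smul_eq_mul, GL2_P, GL2_PB m _
            hl3, GL2_Pc hl3, GL2_Pd m hl3, hmi0, hmj0, C2, C2', M, hij, hij.symm, hil,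
            hil.symm, hjl, hjl.symm, if_true, if_false] at e3
          simp only [Finsupp.add_apply, Finsupp.smul_apply, smul_eq_mul, GL2_Q hi, GL2_Q hj,
            GL2_Q hk, GL2_Q hk', GL2_QB m hi, GL2_QB m hj, GL2_QB m hk, GL2_QB m hk', GL2_Qc,
            GL2_Qd m hi, hmi0, hmj0, C0, C0', M, hij, hij.symm, hil, hil.symm, hjl, hjl.symm,
            if_true, if_false] at e4
          simp only [Finsupp.add_apply, Finsupp.smul_apply, smul_eq_mul, GL2_Q hi, GL2_Q hj,
            GL2_Q hk, GL2_Q hk', GL2_QB m hi, GL2_QB m hj, GL2_QB m hk, GL2_QB m hk', GL2_Qc,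
            GL2_Qd m hj, hmi0, hmj0, C1, C1', M, hij, hij.symm, hil, hil.symm, hjl, hjl.symm,
            if_true, if_false] at e5
          simp only [Finsupp.add_apply, Finsupp.smul_apply, smul_eq_mul, GL2_Q hi, GL2_Q hj,
            GL2_Q hk, GL2_Q hk', GL2_QB m hi, GL2_QB m hj, GL2_QB m hk, GL2_QB m hk', GL2_Qc,
            GL2_Qd m hl3, hmi0, hmj0, C2, C2', M, hij, hij.symm, hil, hil.symm, hjl, hjl.symm,
            if_true, if_false] at e6
          obtain ⟨z1, z2, z3⟩ := GL2_f20 κ g0 (by linear_combination e1) g1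
            (by linear_combination e2) h3
          subst z1 z2 z3
          refine GL2_f21 c c' (g3 i) gi (g3 j) gj (g3 l) gl α β ?_ ?_ ?_
          · linear_combination e4 - D0'
          · linear_combination e5 - D1'
          · linear_combination e3 - D2'
        · have e1 := DFunLike.congr_fun h4 (i, 0)
          have e2 := DFunLike.congr_fun h4 (j, 0)
          have e3 := DFunLike.congr_fun h4 (l, 0)
          have e4 := DFunLike.congr_fun h4 (i + 4, 0)
          have e5 := DFunLike.congr_fun h4 (j + 4, 0)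
          have e6 := DFunLike.congr_fun h4 (l + 4, 0)
          simp only [Finsupp.add_apply, Finsupp.smul_apply, smul_eq_mul, GL2_P, GL2_PB m _
            hi, GL2_Pc hi, GL2_Pd m hi, hmi0, hmj0, C0, C0', M, hij, hij.symm, hil, hil.symm,
            hjl, hjl.symm, if_true, if_false] at e1
          simp only [Finsupp.add_apply, Finsupp.smul_apply, smul_eq_mul, GL2_P, GL2_PB m _
            hj, GL2_Pc hj, GL2_Pd m hj, hmi0, hmj0, C1, C1', M, hij, hij.symm, hil, hil.symm,
            hjl, hjl.symm, if_true, if_false] at e2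
          simp only [Finsupp.add_apply, Finsupp.smul_apply, smul_eq_mul, GL2_P, GL2_PB m _
            hl3, GL2_Pc hl3, GL2_Pd m hl3, hmi0, hmj0, C2, C2', M, hij, hij.symm, hil,
            hil.symm, hjl, hjl.symm, if_true, if_false] at e3
          simp only [Finsupp.add_apply, Finsupp.smul_apply, smul_eq_mul, GL2_Q hi, GL2_Q hj,
            GL2_Q hk, GL2_Q hk', GL2_QB m hi, GL2_QB m hj, GL2_QB m hk, GL2_QB m hk', GL2_Qc,
            GL2_Qd m hi, hmi0, hmj0, C0, C0', M, hij, hij.symm, hil, hil.symm, hjl, hjl.symm,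
            if_true, if_false] at e4
          simp only [Finsupp.add_apply, Finsupp.smul_apply, smul_eq_mul, GL2_Q hi, GL2_Q hj,
            GL2_Q hk, GL2_Q hk', GL2_QB m hi, GL2_QB m hj, GL2_QB m hk, GL2_QB m hk', GL2_Qc,
            GL2_Qd m hj, hmi0, hmj0, C1, C1', M, hij, hij.symm, hil, hil.symm, hjl, hjl.symm,
            if_true, if_false] at e5
          simp only [Finsupp.add_apply, Finsupp.smul_apply, smul_eq_mul, GL2_Q hi, GL2_Q hj,
            GL2_Q hk, GL2_Q hk', GL2_QB m hi, GL2_QB m hj, GL2_QB m hk, GL2_QB m hk', GL2_Qc,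
            GL2_Qd m hl3, hmi0, hmj0, C2, C2', M, hij, hij.symm, hil, hil.symm, hjl, hjl.symm,
            if_true, if_false] at e6
          obtain ⟨z1, z2, z3⟩ := GL2_f20 κ g0 (by linear_combination e1) g1
            (by linear_combination e2) h3
          subst z1 z2 z3
          refine GL2_f21 c c' (g3 i) gi (g3 j) gj (g3 l) gl α β ?_ ?_ ?_
          · linear_combination e4 - D0'
          · linear_combination e5 - D1'
          · linear_combination e6 - D2'
      rw [hc, hc', hcc]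

private theorem GL2_B2 {m : ℕ → ℕ} {k : ℕ} (h : m k ≠ 0) : LaB m k = e (k + 4) 0 := by
  unfold LaB; rw [if_neg h]

private theorem GL2_LaB_dec {m : ℕ → ℕ} {i : ℕ} (h : 2 ≤ m i) : LaB (dec m i) = LaB m := by
  funext k
  unfold LaB dec
  by_cases hk : k = i
  · subst hk
    rw [Function.update_self, if_neg (by omega), if_neg (by omega)]
  · rw [Function.update_of_ne hk]

private theorem GL2_Lac'_dec {m : ℕ → ℕ} {i : ℕ} (h : 2 ≤ m i) : Lac' (dec m i) = Lac' m := by
  unfold Lac'; rw [GL2_LaB_dec h]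

private theorem GL2_LaK_dec {a b : Bool} {m : ℕ → ℕ} {i : ℕ} (h : 2 ≤ m i) :
    LaK a b (dec m i) = LaK a b m := by
  unfold LaK; rw [GL2_Lac'_dec h]

private theorem GL2_I3 {k : ℕ} : k ∈ I3 ↔ k < 3 := by
  unfold I3
  simp only [Finset.mem_insert, Finset.mem_singleton]
  omega

private noncomputable def GL2_C0 (a b : Bool) (m : ℕ → ℕ) : Set VV :=
  {x | ∃ i < 3, x = e i 0 ∨ x = LaB m i} ∪ bs a {Lac} ∪ bs b {Lac' m}

private noncomputable def GL2_A0 (a b : Bool) (m : ℕ → ℕ) : Set VV :=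
  bs a {x | ∃ i < 3, x = Lac + e i 0} ∪ bs b {x | ∃ i < 3, x = Lac' m + g3 i • LaB m i}

private theorem GL2_LaC (a b : Bool) (m : ℕ → ℕ) :
    LaC a b m = MSC I3 m (fun i => e i 0) (LaB m) (GL2_C0 a b m) := rfl

private theorem GL2_LaP (a b : Bool) (m : ℕ → ℕ) :
    LaP a b m = MSP I3 m (fun i => e i 0) (LaB m) (GL2_C0 a b m) (GL2_A0 a b m) := by
  unfold LaP MSP GL2_A0
  rw [GL2_LaC, Set.union_assoc (MSC _ _ _ _ _)]

private theorem GL2_low {a b : Bool} {m : ℕ → ℕ} {i : ℕ} (hi : i < 3) (hmi : 2 ≤ m i)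
    (h1 : AK (LaK a b (dec m i)) (LaC a b (dec m i)) (LaP a b (dec m i))) (j : ℕ) :
    AK (LaK a b m) (MSC I3 (dec m i) (fun i => e i 0) (LaB m)
      (endC m (fun i => e i 0) (LaB m) (GL2_C0 a b m) i j))
      (MSP I3 (dec m i) (fun i => e i 0) (LaB m)
      (endC m (fun i => e i 0) (LaB m) (GL2_C0 a b m) i j) (GL2_A0 a b m)) := by
  have hE : endC m (fun i => e i 0) (LaB m) (GL2_C0 a b m) i j = GL2_C0 a b m := by
    apply Set.Subset.antisymm
    · rintro c ((hc | hc) | hc)
      · exact hc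
      · exact Or.inl (Or.inl ⟨i, hi, Or.inl hc.2⟩)
      · exact Or.inl (Or.inl ⟨i, hi, Or.inr hc.2⟩)
    · intro c hc; exact Or.inl (Or.inl hc)
  rw [hE]
  have hC : GL2_C0 a b (dec m i) = GL2_C0 a b m := by
    unfold GL2_C0; rw [GL2_LaB_dec hmi, GL2_Lac'_dec hmi]
  have hA : GL2_A0 a b (dec m i) = GL2_A0 a b m := by
    unfold GL2_A0; rw [GL2_LaB_dec hmi, GL2_Lac'_dec hmi]
  rw [GL2_LaC, GL2_LaP, GL2_LaK_dec hmi, GL2_LaB_dec hmi, hC, hA] at h1
  exact h1

/-- GL2. GD5 for `La`, strands `i ≠ j` with at least two rims, `l` the third strand; `K`, `C0`, `A0` as in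
GL1. `ψ` = (coordinate `(i, 0)`) + (coordinate `(j, 0)`): `ψ c = 1 + 1 = 0`, `ψ c' = 0`, `ψ (LaB m k) = 0`
for all `k`. `hZ`: `κ c + κ' c' ∈ ⟨e_i, f_i, e_j, f_j⟩` gives `κ e_l + κ' g_l B_l = 0`, so `κ = κ' = 0` by `hl`.
`hI`: the four ends are independent. `hsep`, `u ∈ {0, e_i + f_i, e_j + f_j}`: for `x = c + e_k` use
`D = {c, e_k}`: `x' ∉ ⟨c, e_k, u⟩ + K`; for `x = c' + g_k B_k` use `D = {c', B_k}`.
The lower configurations: `endC` adds only points which are already there; `LaB (dec m i) = LaB m`. -/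
theorem GL2 {a b : Bool} {m : ℕ → ℕ} {i j l : ℕ} (hi : i < 3) (hj : j < 3) (hl3 : l < 3)
    (hij : i ≠ j) (hil : i ≠ l) (hjl : j ≠ l) (hmi : 2 ≤ m i) (hmj : 2 ≤ m j)
    (hl : 1 ≤ m l ∨ a = true ∨ b = true)
    (h1 : AK (LaK a b (dec m i)) (LaC a b (dec m i)) (LaP a b (dec m i)))
    (h2 : AK (LaK a b (dec m j)) (LaC a b (dec m j)) (LaP a b (dec m j))) :
    AK (LaK a b m) (LaC a b m) (LaP a b m) := by
  have hmi0 : m i ≠ 0 := by omega
  have hmj0 : m j ≠ 0 := by omega
  have heB : ∀ k, e k 0 ∈ Base I3 := by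
    intro k i hi n hn
    rw [GL2_e, if_neg (by rintro ⟨-, rfl⟩; omega)]
  have hfB : ∀ k, LaB m k ∈ Base I3 := by
    intro k i hi n hn
    exact GL2_Bn m k i hn
  have hcB : Lac ∈ Base I3 := by
    unfold Lac
    exact Submodule.add_mem _ (Submodule.add_mem _ (heB 0) (heB 1)) (heB 2)
  have hdB : Lac' m ∈ Base I3 := by
    unfold Lac'
    exact Submodule.add_mem _ (Submodule.add_mem _ (hfB 0) (Submodule.smul_mem _ _ (hfB 1)))
      (Submodule.smul_mem _ _ (hfB 2))
  have hKB : LaK a b m ≤ Base I3 := by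
    intro x hx
    obtain ⟨κ, κ', -, -, rfl⟩ := GL2_K hx
    exact Submodule.add_mem _ (Submodule.smul_mem _ _ hcB) (Submodule.smul_mem _ _ hdB)
  have hψc : Lac (i, 0) + Lac (j, 0) = 0 := by
    rw [GL2_Pc hi, GL2_Pc hj]; decide
  have hψd : Lac' m (i, 0) + Lac' m (j, 0) = 0 := by
    rw [GL2_Pd m hi, GL2_Pd m hj, if_neg hmi0, if_neg hmj0]; decide
  have hψB : ∀ k, LaB m k (i, 0) + LaB m k (j, 0) = 0 := by
    intro k
    rw [GL2_PB m k hi, GL2_PB m k hj, if_neg hmi0, if_neg hmj0]; decide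
  have hC1 : ∀ k < 3, e k 0 ∈ GL2_C0 a b m := fun k hk => Or.inl (Or.inl ⟨k, hk, Or.inl rfl⟩)
  have hC2 : ∀ k < 3, LaB m k ∈ GL2_C0 a b m := fun k hk => Or.inl (Or.inl ⟨k, hk, Or.inr rfl⟩)
  have hC3 : a = true → Lac ∈ GL2_C0 a b m := fun h => Or.inl (Or.inr ⟨h, rfl⟩)
  have hC4 : b = true → Lac' m ∈ GL2_C0 a b m := fun h => Or.inr ⟨h, rfl⟩
  rw [GL2_LaP, GL2_LaC]
  refine GD5 (K := LaK a b m) (I := I3) (m := m) (A := fun i => e i 0) (B := LaB m)
    (C0 := GL2_C0 a b m) (A0 := GL2_A0 a b m)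
    (a := i) (b := j) (ψ := Finsupp.lapply (i, 0) + Finsupp.lapply (j, 0))
    { base :=
        { hK := hKB
          hA := fun i _ => heB i
          hB := fun i _ => hfB i
          hC0 := by
            rintro x ((⟨k, -, rfl | rfl⟩ | ⟨-, rfl⟩) | ⟨-, rfl⟩)
            · exact heB k
            · exact hfB k
            · exact hcB
            · exact hdB
          hA0 := by
            rintro x (⟨-, k, -, rfl⟩ | ⟨-, k, -, rfl⟩)
            · exact Submodule.add_mem _ hcB (heB k)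
            · exact Submodule.add_mem _ hdB (Submodule.smul_mem _ _ (hfB k))
          hsp := by
            rintro x (⟨ha, k, hk, rfl⟩ | ⟨hb, k, hk, rfl⟩)
            · refine Submodule.mem_sup_left (Submodule.add_mem _ ?_ ?_)
              · exact Submodule.subset_span (Or.inl (Or.inl (hC3 ha)))
              · exact Submodule.subset_span (Or.inl (Or.inl (hC1 k hk)))
            · refine Submodule.mem_sup_left (Submodule.add_mem _ ?_ (Submodule.smul_mem _ _ ?_))
              · exact Submodule.subset_span (Or.inl (Or.inl (hC4 hb)))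
              · exact Submodule.subset_span (Or.inl (Or.inl (hC2 k hk))) }
      ha := GL2_I3.2 hi
      hb := GL2_I3.2 hj
      ne := hij
      ma := hmi
      mb := hmj
      hZ := by
        intro x hx hx'
        obtain ⟨κ, κ', h5, h6, rfl⟩ := GL2_K hx
        have h7 : ∀ y ∈ span F4 ({e i 0, LaB m i, e j 0, LaB m j} : Set VV),
            y (l, 0) = 0 ∧ y (l + 4, 0) = 0 := by
          intro y hy
          have : span F4 ({e i 0, LaB m i, e j 0, LaB m j} : Set VV) ≤
              LinearMap.ker (Finsupp.lapply (l, 0) : VV →ₗ[F4] F4) ⊓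
              LinearMap.ker (Finsupp.lapply (l + 4, 0) : VV →ₗ[F4] F4) := by
            refine Submodule.span_le.2 ?_
            rintro z (rfl | rfl | rfl | rfl)
            · refine ⟨?_, ?_⟩
              · show e i 0 (l, 0) = 0
                rw [GL2_P, if_neg hil]
              · show e i 0 (l + 4, 0) = 0
                exact GL2_Q hi l
            · refine ⟨?_, ?_⟩
              · show LaB m i (l, 0) = 0
                rw [GL2_PB m _ hl3, if_neg hil, ite_self]
              · show LaB m i (l + 4, 0) = 0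
                rw [GL2_QB m hi, if_neg hil, ite_self]
            · refine ⟨?_, ?_⟩
              · show e j 0 (l, 0) = 0
                rw [GL2_P, if_neg hjl]
              · show e j 0 (l + 4, 0) = 0
                exact GL2_Q hj l
            · refine ⟨?_, ?_⟩
              · show LaB m j (l, 0) = 0
                rw [GL2_PB m _ hl3, if_neg hjl, ite_self]
              · show LaB m j (l + 4, 0) = 0
                rw [GL2_QB m hj, if_neg hjl, ite_self]
          exact this hy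
        obtain ⟨e1, e2⟩ := h7 _ hx'
        simp only [Finsupp.add_apply, Finsupp.smul_apply, smul_eq_mul, GL2_Pc hl3, GL2_Qc,
          GL2_Pd m hl3, GL2_Qd m hl3] at e1 e2
        have gl := GL2_g0 l
        by_cases M : m l = 0
        · simp only [M, if_true, mul_one, mul_zero, add_zero] at e1 e2
          rcases hl with hl | hl | hl
          · omega
          · have h8 := h5 hl
            subst h8
            have h9 : κ' = 0 := by
              rcases mul_eq_zero.1 (by simpa using e1 : κ' * g3 l = 0) with h | h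
              · exact h
              · exact absurd h gl
            rw [h9]; simp
          · have h8 := h6 hl
            subst h8
            have h9 : κ = 0 := by simpa using e1
            rw [h9]; simp
        · simp only [M, if_false, mul_one, mul_zero, add_zero, zero_add] at e1 e2
          have h9 : κ' = 0 := by
            rcases mul_eq_zero.1 e2 with h | h
            · exact h
            · exact absurd h gl
          rw [h9, e1]; simp
      hI := by
        intro s₁ s₂ s₃ s₄ h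
        have e1 := DFunLike.congr_fun h (i, 0)
        have e2 := DFunLike.congr_fun h (j, 0)
        have e3 := DFunLike.congr_fun h (i + 4, 0)
        have e4 := DFunLike.congr_fun h (j + 4, 0)
        simp only [Finsupp.add_apply, Finsupp.smul_apply, smul_eq_mul, GL2_P, GL2_PB m _ hi,
          hmi0, hmj0, hij, hij.symm, if_true, if_false, Finsupp.coe_zero, Pi.zero_apply] at e1
        simp only [Finsupp.add_apply, Finsupp.smul_apply, smul_eq_mul, GL2_P, GL2_PB m _ hj,
          hmi0, hmj0, hij, hij.symm, if_true, if_false, Finsupp.coe_zero, Pi.zero_apply] at e2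
        simp only [Finsupp.add_apply, Finsupp.smul_apply, smul_eq_mul, GL2_Q hi, GL2_Q hj,
          GL2_QB m hi, GL2_QB m hj,
          hmi0, hmj0, hij, hij.symm, if_true, if_false, Finsupp.coe_zero, Pi.zero_apply] at e3 e4
        have f1 : s₁ = 0 := by simpa using e1
        have f2 : s₃ = 0 := by simpa using e2
        have f3 : s₂ = 0 := by simpa using e3
        have f4 : s₄ = 0 := by simpa using e4
        exact ⟨f1, f2, by rw [f3, f4, zero_smul, zero_smul]⟩
      hBa := by
        intro h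
        have e1 := DFunLike.congr_fun h (i + 4, 0)
        rw [GL2_QB m hi] at e1
        simp [hmi0] at e1
      hBb := by
        intro h
        have e1 := DFunLike.congr_fun h (j + 4, 0)
        rw [GL2_QB m hj] at e1
        simp [hmj0] at e1
      hI' := by
        rintro ⟨s, hs⟩
        exfalso
        have e1 := DFunLike.congr_fun hs (i + 4, 0)
        rw [Finsupp.smul_apply, GL2_QB m hi, GL2_QB m hj] at e1
        simp [hmi0, hij.symm] at e1
      ψK := by
        intro x hx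
        obtain ⟨κ, κ', -, -, rfl⟩ := GL2_K hx
        rw [map_add, map_smul, map_smul]
        show κ • (Lac (i, 0) + Lac (j, 0)) + κ' • (Lac' m (i, 0) + Lac' m (j, 0)) = 0
        rw [hψc, hψd]; simp
      ψa := by
        show e i 0 (i, 0) + e i 0 (j, 0) ≠ 0
        rw [GL2_P, GL2_P, if_pos rfl, if_neg hij]; decide
      ψb := by
        show e j 0 (i, 0) + e j 0 (j, 0) ≠ 0
        rw [GL2_P, GL2_P, if_pos rfl, if_neg hij.symm]; decide
      ψB := by
        intro k _
        exact hψB k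
      ψA := by
        intro k' _ h5 h6
        show e k' 0 (i, 0) + e k' 0 (j, 0) = 0
        rw [GL2_P, GL2_P, if_neg h5, if_neg h6]; decide
      ψe := by
        intro k' _ n hn
        show e k' n (i, 0) + e k' n (j, 0) = 0
        rw [GL2_e, GL2_e, if_neg (by omega), if_neg (by omega)]; decide
      ψC := by
        rintro x ((⟨k', -, rfl | rfl⟩ | ⟨-, rfl⟩) | ⟨-, rfl⟩) hx
        · by_cases h5 : k' = i
          · left; exact ⟨1, by rw [h5]; simp⟩
          by_cases h6 : k' = j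
          · right; exact ⟨1, by rw [h6]; simp⟩
          exfalso
          apply hx
          show e k' 0 (i, 0) + e k' 0 (j, 0) = 0
          rw [GL2_P, GL2_P, if_neg h5, if_neg h6]; decide
        · exact absurd (hψB k') hx
        · exact absurd hψc hx
        · exact absurd hψd hx }
    ?_ (fun j' _ => GL2_low hi hmi h1 j') (fun j' _ => GL2_low hj hmj h2 j')
  intro x hx x' hx' u hu hD
  have := GL2_sep hi hj hl3 hij hil hjl hmi hmj hC1 hC2 hC3 hC4 hx hx' hu hD
  rw [← this]
  exact Submodule.mem_sup_left (Submodule.subset_span (Or.inl rfl))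

end QG
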