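import Pool.Agent.Lib.QG.GC3
import Pool.Agent.Lib.QG.GB1

/-! MP_2e6874_co, part (A), row GT1. -/

set_option autoImplicit false

namespace QG
open Set Matroid Submodule

private theorem GT1_union (K : Submodule F4 VV) (C D : Set VV) :
    LnK K (C ∪ D) = LnK K C ∪ LnK K D := by
  ext y
  constructor
  · rintro ⟨h0, c, hc | hc, s, hs⟩
    · exact Or.inl ⟨h0, c, hc, s, hs⟩
    · exact Or.inr ⟨h0, c, hc, s, hs⟩
  · rintro (⟨h0, c, hc, s, hs⟩ | ⟨h0, c, hc, s, hs⟩)
    · exact ⟨h0, c, Or.inl hc, s, hs⟩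
    · exact ⟨h0, c, Or.inr hc, s, hs⟩

private theorem GT1_ln {K : Submodule F4 VV} (I : Finset ℕ) (m : ℕ → ℕ) (A B : ℕ → VV)
    {C0 C0' : Set VV} (h : LnK K C0 = LnK K C0') :
    LnK K (MSC I m A B C0) = LnK K (MSC I m A B C0') := by
  unfold MSC
  rw [GT1_union, GT1_union, GT1_union, GT1_union, h]

private theorem GT1_sub {K : Submodule F4 VV} {C C' P P' : Set VV} (hC : LnK K C = LnK K C')
    (hP : P ⊆ P') (h : AK K C P) : AK K C' P' :=
  AK.congr hC (fun p hp => ⟨p, hP hp, 1, one_ne_zero, by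
    rw [one_smul, vadd_self]; exact K.zero_mem⟩) h

private theorem GT1_msp {I : Finset ℕ} {m : ℕ → ℕ} {A B : ℕ → VV} {C0 C0' A0 : Set VV}
    (h : C0 ⊆ C0' ∪ A0) : MSP I m A B C0 A0 ⊆ MSP I m A B C0' A0 := by
  rintro x (((hx | hx) | hx) | hx)
  · rcases hx with hx | hx
    · rcases h hx with hx | hx
      · exact Or.inl (Or.inl (Or.inl (Or.inl hx)))
      · exact Or.inl (Or.inr hx)
    · exact Or.inl (Or.inl (Or.inl (Or.inr hx)))
  · exact Or.inl (Or.inl (Or.inr hx))
  · exact Or.inl (Or.inr hx)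
  · exact Or.inr hx

private theorem GT1_P (a b : Bool) (m : ℕ → ℕ) : ThP a b m =
    MSP I3 m (fun _ => e 3 0) (fun i => g3 i • e 3 1) (bs a {e 3 0} ∪ bs b {e 3 1})
      {e 3 0, e 3 1} := by
  unfold ThP MSP ThC
  ext x
  simp only [mem_union, mem_insert_iff, mem_singleton_iff]
  tauto

private theorem GT1_tel {I : Finset ℕ} {m : ℕ → ℕ} {A B : ℕ → VV} {C0 : Set VV} {i : ℕ}
    (hi : i ∈ I) : ∀ n, n ≤ m i →
      msu m A B i 0 + msu m A B i n ∈ span F4 (MSC I m A B C0) := by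
  intro n
  induction n with
  | zero =>
    intro _
    rw [vadd_self]
    exact Submodule.zero_mem _
  | succ n ih =>
    intro hn
    have h1 := ih (by omega)
    have h2 : msu m A B i n + msu m A B i (n + 1) ∈ span F4 (MSC I m A B C0) :=
      Submodule.subset_span (Or.inr ⟨i, hi, n, by omega, rfl⟩)
    have h3 := Submodule.add_mem _ h1 h2
    have e1 : msu m A B i 0 + msu m A B i n + (msu m A B i n + msu m A B i (n + 1)) =
        msu m A B i 0 + (msu m A B i n + msu m A B i n) + msu m A B i (n + 1) := by abel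
    rw [e1, vadd_self, add_zero] at h3
    exact h3

private theorem GT1_AB {I : Finset ℕ} {m : ℕ → ℕ} {A B : ℕ → VV} {C0 : Set VV} {i : ℕ}
    (hi : i ∈ I) (hm : 1 ≤ m i) : A i + B i ∈ span F4 (MSC I m A B C0) := by
  have h := GT1_tel (A := A) (B := B) (C0 := C0) hi (m i) le_rfl
  have h0 : m i ≠ 0 := by omega
  simpa [msu, h0] using h

private theorem GT1_e (i n : ℕ) (q : ℕ × ℕ) : (e i n) q = if (i, n) = q then 1 else 0 :=
  Finsupp.single_apply

private theorem GT1_g3 (i : ℕ) : g3 i ≠ 0 := by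
  unfold g3
  split_ifs <;> decide

private theorem GT1_inj {i j : ℕ} (hi : i < 3) (hj : j < 3) (h : g3 i = g3 j) : i = j := by
  have h1 : F4.i ≠ F4.w := by decide
  have h2 : F4.i ≠ F4.v := by decide
  have h3 : F4.w ≠ F4.v := by decide
  have e0 : g3 0 = F4.i := rfl
  have e1 : g3 1 = F4.w := rfl
  have e2 : g3 2 = F4.v := rfl
  interval_cases i <;> interval_cases j <;>
    first | rfl | (exfalso; rw [e0, e1] at h; exact h1 h) | (exfalso; rw [e0, e2] at h; exact h2 h) |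
      (exfalso; rw [e1, e0] at h; exact h1 h.symm) | (exfalso; rw [e1, e2] at h; exact h3 h) |
      (exfalso; rw [e2, e0] at h; exact h2 h.symm) | (exfalso; rw [e2, e1] at h; exact h3 h.symm)

private theorem GT1_mem {i : ℕ} (hi : i ∈ I3) : i < 3 := by
  simp only [I3, Finset.mem_insert, Finset.mem_singleton] at hi
  omega

private theorem GT1_mem' {i : ℕ} (hi : i < 3) : i ∈ I3 := by
  simp only [I3, Finset.mem_insert, Finset.mem_singleton]
  omega

private theorem GT1_base (n : ℕ) : e 3 n ∈ Base I3 := by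
  intro i hi k _
  have h := GT1_mem hi
  rw [GT1_e, if_neg]
  intro hh
  have := (Prod.mk.inj hh).1
  omega

private theorem GT1_coef {s s' : F4} (h : s • e 3 0 + s' • e 3 1 = 0) : s = 0 ∧ s' = 0 := by
  have h0 := DFunLike.congr_fun h ((3, 0) : ℕ × ℕ)
  have h1 := DFunLike.congr_fun h ((3, 1) : ℕ × ℕ)
  simp only [Finsupp.add_apply, Finsupp.smul_apply, GT1_e, smul_eq_mul, Finsupp.coe_zero,
    Pi.zero_apply] at h0 h1
  simp at h0 h1
  exact ⟨h0, h1⟩

/-- GT1. GC3 for `Th` (`I = I3`, `A = fun _ => e 3 0`, `B i = g3 i • e 3 1`, `A0 = {e 3 0, e 3 1}`,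
`K = ⊥`). Contraction of the first rim makes `t` a point, of the last rim (`m i = 3`: rim 2) makes `t'`
a point (`g3 i • e 3 1` is on its line: `AK.congr`). `hsep`: only `t`, `t'`: some strand `j ≠ i` has
`m j ≥ 2`, `D = {e j 1, e 3 0 + e j 1}`. -/
theorem GT1 {a b : Bool} {m : ℕ → ℕ} (hm : ThOk m) {i : ℕ} (hi : i < 3) (h3 : 3 ≤ m i)
    (h0 : AK ⊥ (ThC true b (dec m i)) (ThP true b (dec m i)))
    (h1 : AK ⊥ (ThC a b (dec m i)) (ThP a b (dec m i)))
    (h2 : m i = 3 → AK ⊥ (ThC a true (dec m i)) (ThP a true (dec m i))) :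
    AK ⊥ (ThC a b m) (ThP a b m) := by
  classical
  obtain ⟨hm1, hm2⟩ := hm
  have hgi := GT1_g3 i
  rw [GT1_P] at h0 h1 h2 ⊢
  have hC0 : (bs a {e 3 0} ∪ bs b {e 3 1} : Set VV) ⊆ {e 3 0, e 3 1} := by
    rintro x (⟨_, hx⟩ | ⟨_, hx⟩)
    · exact Or.inl hx
    · exact Or.inr hx
  have hA0b : ({e 3 0, e 3 1} : Set VV) ⊆ (Base I3 : Set VV) := by
    rintro x (hx | hx)
    · rw [hx]; exact GT1_base 0
    · rw [hx]; exact GT1_base 1
  -- the ends are in the span of the points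
  have hsp1 : e 3 1 ∈ span F4 (MSC I3 m (fun _ => e 3 0) (fun i => g3 i • e 3 1)
      (bs a {e 3 0} ∪ bs b {e 3 1})) := by
    have k0 := GT1_AB (A := fun _ => e 3 0) (B := fun i => g3 i • e 3 1)
      (C0 := bs a {e 3 0} ∪ bs b {e 3 1}) (GT1_mem' (by norm_num : 0 < 3)) (hm1 0 (by norm_num))
    have k1 := GT1_AB (A := fun _ => e 3 0) (B := fun i => g3 i • e 3 1)
      (C0 := bs a {e 3 0} ∪ bs b {e 3 1}) (GT1_mem' (by norm_num : 1 < 3)) (hm1 1 (by norm_num))
    have k2 := Submodule.smul_mem _ F4.w (Submodule.add_mem _ k0 k1)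
    have ew : F4.w * (g3 0 + g3 1) = 1 := by decide
    have e1 : F4.w • (e 3 0 + g3 0 • e 3 1 + (e 3 0 + g3 1 • e 3 1)) = e 3 1 := by
      have e2 : e 3 0 + g3 0 • e 3 1 + (e 3 0 + g3 1 • e 3 1) =
          (e 3 0 + e 3 0) + (g3 0 + g3 1) • e 3 1 := by rw [add_smul]; abel
      rw [e2, vadd_self, zero_add, smul_smul, ew, one_smul]
    rw [e1] at k2
    exact k2
  have hsp0 : e 3 0 ∈ span F4 (MSC I3 m (fun _ => e 3 0) (fun i => g3 i • e 3 1)
      (bs a {e 3 0} ∪ bs b {e 3 1})) := by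
    have k0 := GT1_AB (A := fun _ => e 3 0) (B := fun i => g3 i • e 3 1)
      (C0 := bs a {e 3 0} ∪ bs b {e 3 1}) (GT1_mem' (by norm_num : 0 < 3)) (hm1 0 (by norm_num))
    have k2 := Submodule.add_mem _ k0 (Submodule.smul_mem _ (g3 0) hsp1)
    have e1 : e 3 0 + g3 0 • e 3 1 + g3 0 • e 3 1 = e 3 0 := by
      rw [add_assoc, vadd_self, add_zero]
    rw [e1] at k2
    exact k2
  have hMSB : MSB ⊥ I3 m (fun _ => e 3 0) (fun i => g3 i • e 3 1) (bs a {e 3 0} ∪ bs b {e 3 1})
      {e 3 0, e 3 1} := by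
    refine ⟨bot_le, fun _ _ => GT1_base 0, fun _ _ => Submodule.smul_mem _ _ (GT1_base 1),
      hC0.trans hA0b, hA0b, ?_⟩
    rintro x (hx | hx)
    · rw [hx]; exact Submodule.mem_sup_left hsp0
    · rw [hx]; exact Submodule.mem_sup_left hsp1
  refine GC3 hMSB (GT1_mem' hi) h3 ?_ ?_ ?_ ?_ ?_ h1 ?_
  · intro s s' h
    rw [Submodule.mem_bot, smul_smul] at h
    obtain ⟨g1, g2⟩ := GT1_coef h
    refine ⟨g1, ?_⟩
    rcases mul_eq_zero.1 g2 with g | g
    · exact g
    · exact absurd g hgi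
  · intro x hx s h
    have hx' : x ∈ ({e 3 0, e 3 1} : Set VV) := by
      rcases hx with hx | hx
      · exact hC0 hx
      · exact hx
    rw [Submodule.mem_bot] at h
    rcases hx' with rfl | hx'
    · have h4 : (1 + s) • e 3 0 + g3 i • e 3 1 = 0 := by
        rw [← h, add_smul, one_smul]; abel
      exact hgi (GT1_coef h4).2
    · rw [mem_singleton_iff] at hx'
      rw [hx'] at h
      have h4 : (1 : F4) • e 3 0 + (g3 i + s) • e 3 1 = 0 := by
        rw [← h, add_smul, one_smul]; abel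
      exact one_ne_zero (GT1_coef h4).1
  · intro j hj hji _ s h
    rw [Submodule.mem_bot] at h
    have h4 : (1 + s) • e 3 0 + (g3 i + s * g3 j) • e 3 1 = 0 := by
      rw [← h, add_smul, add_smul, one_smul, smul_add, smul_smul]; abel
    obtain ⟨g1, g2⟩ := GT1_coef h4
    have g5 : s = 1 := by
      rw [← vsub, sub_eq_zero] at g1
      exact g1.symm
    rw [g5, one_mul, ← vsub, sub_eq_zero] at g2
    exact hji (GT1_inj (GT1_mem hj) hi g2.symm)
  · -- separation
    have hj : ∃ j < 3, j ≠ i ∧ 2 ≤ m j := by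
      have hk : ∃ j k, j < 3 ∧ k < 3 ∧ j ≠ i ∧ k ≠ i ∧ j ≠ k := by
        interval_cases i
        · exact ⟨1, 2, by norm_num⟩
        · exact ⟨0, 2, by norm_num⟩
        · exact ⟨0, 1, by norm_num⟩
      obtain ⟨j, k, hj, hk, hji, hki, hjk⟩ := hk
      by_cases h5 : 2 ≤ m j
      · exact ⟨j, hj, hji, h5⟩
      · by_cases h6 : 2 ≤ m k
        · exact ⟨k, hk, hki, h6⟩
        · have h7 := hm1 j hj
          have h8 := hm1 k hk
          exact absurd (hm2 j hj k hk (by omega) (by omega)) hjk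
    obtain ⟨j, hj, hji, hj2⟩ := hj
    have hjI : j ∈ I3.erase i := Finset.mem_erase.2 ⟨hji, GT1_mem' hj⟩
    set D : Set VV := {e j 1, e 3 0 + e j 1} with hD
    have hDsub : D ⊆ MSC (I3.erase i) m (fun _ => e 3 0) (fun i => g3 i • e 3 1)
        (bs a {e 3 0} ∪ bs b {e 3 1}) := by
      rintro x (hx | hx)
      · exact Or.inl (Or.inr ⟨j, hjI, 1, by norm_num, by omega, hx⟩)
      · refine Or.inr ⟨j, hjI, 0, by omega, ?_⟩
        have h5 : (1 : ℕ) ≠ m j := by omega
        rw [mem_singleton_iff] at hx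
        rw [hx]
        simp [msu, h5]
    have hin : e 3 0 ∈ span F4 D ⊔ (⊥ : Submodule F4 VV) := by
      refine Submodule.mem_sup_left ?_
      have k1 : e j 1 ∈ span F4 D := Submodule.subset_span (Or.inl rfl)
      have k2 : e 3 0 + e j 1 ∈ span F4 D := Submodule.subset_span (Or.inr rfl)
      have k3 := Submodule.add_mem _ k2 k1
      rw [add_assoc, vadd_self, add_zero] at k3
      exact k3
    have hout : e 3 1 ∉ span F4 D ⊔ (⊥ : Submodule F4 VV) := by
      rw [sup_bot_eq]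
      intro hh
      have h5 : span F4 D ≤ LinearMap.ker (Finsupp.lapply (R := F4) ((3, 1) : ℕ × ℕ)) := by
        rw [Submodule.span_le]
        have hne : ((j, 1) : ℕ × ℕ) ≠ (3, 1) := by
          intro hh
          have := (Prod.mk.inj hh).1
          omega
        have hne' : ((3, 0) : ℕ × ℕ) ≠ (3, 1) := by simp
        rintro x (hx | hx)
        · rw [hx]
          show (e j 1) (3, 1) = 0
          rw [GT1_e, if_neg hne]
        · rw [mem_singleton_iff] at hx
          rw [hx]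
          show (e 3 0 + e j 1) (3, 1) = 0
          rw [Finsupp.add_apply, GT1_e, GT1_e, if_neg hne, if_neg hne', add_zero]
      have h6 : (e 3 1) (3, 1) = 0 := h5 hh
      rw [GT1_e, if_pos rfl] at h6
      exact one_ne_zero h6
    rintro x (rfl | hx) x' (rfl | hx') hxx
    · rfl
    · rw [mem_singleton_iff] at hx'
      rw [hx'] at hxx
      exact absurd ((hxx D hDsub).1 hin) hout
    · rw [mem_singleton_iff] at hx
      rw [hx] at hxx
      exact absurd ((hxx D hDsub).2 hin) hout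
    · rw [mem_singleton_iff] at hx hx'
      rw [hx, hx']
  · refine GT1_sub (GT1_ln _ _ _ _ ?_) (GT1_msp ?_) h0
    · congr 1
      ext x
      simp only [bs, mem_union, mem_ofPred_eq, mem_singleton_iff]
      tauto
    · rintro x (⟨_, hx⟩ | hx)
      · exact Or.inr (Or.inl hx)
      · exact Or.inl (Or.inl (Or.inr hx))
  · intro hm3
    refine GT1_sub (GT1_ln _ _ _ _ ?_) (GT1_msp ?_) (h2 hm3)
    · ext y
      constructor
      · rintro ⟨hy, c, hc | ⟨_, hc⟩, s, hs⟩
        · exact ⟨hy, c, Or.inl (Or.inl hc), s, hs⟩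
        · refine ⟨hy, g3 i • e 3 1, Or.inr rfl, s * (g3 i)⁻¹, ?_⟩
          rw [mem_singleton_iff] at hc
          rw [hc] at hs
          rw [smul_smul, mul_assoc, inv_mul_cancel₀ hgi, mul_one]
          exact hs
      · rintro ⟨hy, c, (hc | ⟨_, hc⟩) | hc, s, hs⟩
        · exact ⟨hy, c, Or.inl hc, s, hs⟩
        · exact ⟨hy, c, Or.inr ⟨rfl, hc⟩, s, hs⟩
        · refine ⟨hy, e 3 1, Or.inr ⟨rfl, rfl⟩, s * g3 i, ?_⟩
          rw [mem_singleton_iff] at hc
          rw [hc, smul_smul] at hs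
          exact hs
    · rintro x (hx | ⟨_, hx⟩)
      · exact Or.inl (Or.inl (Or.inl hx))
      · exact Or.inr (Or.inr hx)

end QG
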