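import Pool.Agent.Lib.QG.BaseA
import Pool.Agent.Lib.QG.GI1
import Pool.Agent.Lib.QG.GI2
import Pool.Agent.Lib.QG.GI3
import Pool.Agent.Lib.QG.GT1

/-! MP_2e6874_co, part (A), row GM1. -/

set_option autoImplicit false

namespace QG
open Set Matroid Submodule

/-- the statement -/
private abbrev GM1_S (a b : Bool) (m : ℕ → ℕ) : Prop := AK ⊥ (ThC a b m) (ThP a b m)

private theorem GM1_r1 {a b : Bool} {x y z : ℕ} (h : GM1_S a b (mm x y z)) {m : ℕ → ℕ}
    (h0 : m 0 = y) (h1 : m 1 = z) (h2 : m 2 = x) : GM1_S a b m :=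
  GI1a (m := mm x y z) h0 h1 h2 h

private theorem GM1_r2 {a b : Bool} {x y z : ℕ} (h : GM1_S a b (mm x y z)) {m : ℕ → ℕ}
    (h0 : m 0 = z) (h1 : m 1 = x) (h2 : m 2 = y) : GM1_S a b m :=
  GM1_r1 (x := y) (y := z) (z := x) (GM1_r1 h rfl rfl rfl) h0 h1 h2

private theorem GM1_r0 {a b : Bool} {x y z : ℕ} (h : GM1_S a b (mm x y z)) {m : ℕ → ℕ}
    (h0 : m 0 = x) (h1 : m 1 = y) (h2 : m 2 = z) : GM1_S a b m :=
  GM1_r2 (x := y) (y := z) (z := x) (GM1_r1 h rfl rfl rfl) h0 h1 h2

private theorem GM1_sw {a b : Bool} {x y z : ℕ} (h : GM1_S a b (mm x y z)) :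
    GM1_S a b (mm x z y) :=
  GI2a (m := mm x y z) rfl rfl rfl h

private theorem GM1_rev {a b : Bool} {x y z : ℕ} (h : GM1_S a b (mm x y z)) :
    GM1_S b a (mm x z y) :=
  GI3a (m := mm x y z) rfl rfl rfl h

/-- `(1, 2, 2)` -/
private theorem GM1_122 (hB : BaseA) {a b : Bool} (hab : 1 ≤ a.toNat + b.toNat) :
    GM1_S a b (mm 1 2 2) := by
  cases a <;> cases b
  · exact absurd hab (by decide)
  · exact GM1_rev hB.th10_122
  · exact hB.th10_122
  · exact hB.th11_122

/-- `(2, 2, 2)` -/
private theorem GM1_222 (hB : BaseA) (a b : Bool) : GM1_S a b (mm 2 2 2) := by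
  cases a <;> cases b
  · exact hB.th00_222
  · exact GM1_rev hB.th10_222
  · exact hB.th10_222
  · exact hB.th11_222

private theorem GM1_dec {m : ℕ → ℕ} (hm : ThOk m) {i : ℕ} (hi : i < 3) (h3 : 3 ≤ m i) :
    ThOk (dec m i) ∧ dec m i 0 + dec m i 1 + dec m i 2 + 1 = m 0 + m 1 + m 2 := by
  obtain ⟨h1, h2⟩ := hm
  have hd : ∀ j, dec m i j = if j = i then m i - 1 else m j := by
    intro j
    unfold dec
    by_cases h : j = i
    · subst h
      rw [Function.update_self, if_pos rfl]
    · rw [Function.update_of_ne h, if_neg h]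
  refine ⟨⟨fun j hj => ?_, fun j hj k hk hj1 hk1 => ?_⟩, ?_⟩
  · rw [hd]
    split_ifs
    · omega
    · exact h1 j hj
  · rw [hd] at hj1 hk1
    split_ifs at hj1 hk1
    · omega
    · omega
    · omega
    · exact h2 j hj k hk hj1 hk1
  · rw [hd, hd, hd]
    have h4 : i = 0 ∨ i = 1 ∨ i = 2 := by omega
    rcases h4 with rfl | rfl | rfl
    · rw [if_pos rfl, if_neg (by decide), if_neg (by decide)]
      omega
    · rw [if_pos rfl, if_neg (by decide), if_neg (by decide)]
      omega
    · rw [if_pos rfl, if_neg (by decide), if_neg (by decide)]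
      omega

private theorem GM1_step {s : ℕ}
    (ih : ∀ (a b : Bool) (m : ℕ → ℕ), ThOk m → m 0 + m 1 + m 2 = s →
      11 ≤ 2 * s + a.toNat + b.toNat → GM1_S a b m) {a b : Bool} {m : ℕ → ℕ} (hm : ThOk m)
    (hs : m 0 + m 1 + m 2 = s + 1) (hn : 11 ≤ 2 * s + a.toNat + b.toNat)
    {i : ℕ} (hi : i < 3) (h3 : 3 ≤ m i) : GM1_S a b m := by
  obtain ⟨h1, h2⟩ := GM1_dec hm hi h3
  have h4 : dec m i 0 + dec m i 1 + dec m i 2 = s := by omega
  have ha : a.toNat ≤ 1 := Bool.toNat_le a
  have hb : b.toNat ≤ 1 := Bool.toNat_le b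
  refine GT1 hm hi h3 (ih _ _ _ h1 h4 ?_) (ih _ _ _ h1 h4 hn) fun _ => ih _ _ _ h1 h4 ?_
  · rw [Bool.toNat_true]
    omega
  · rw [Bool.toNat_true]
    omega

private theorem GM1_all (hB : BaseA) (s : ℕ) : ∀ (a b : Bool) (m : ℕ → ℕ), ThOk m →
    m 0 + m 1 + m 2 = s → 11 ≤ 2 * s + a.toNat + b.toNat → GM1_S a b m := by
  induction s with
  | zero =>
    intro a b m hm hs hn
    have ha : a.toNat ≤ 1 := Bool.toNat_le a
    have hb : b.toNat ≤ 1 := Bool.toNat_le b
    omega
  | succ s ih =>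
    intro a b m hm hs hn
    have ha : a.toNat ≤ 1 := Bool.toNat_le a
    have hb : b.toNat ≤ 1 := Bool.toNat_le b
    have p0 := hm.1 0 (by decide)
    have p1 := hm.1 1 (by decide)
    have p2 := hm.1 2 (by decide)
    have q01 : ¬ (m 0 = 1 ∧ m 1 = 1) := fun h =>
      absurd (hm.2 0 (by decide) 1 (by decide) h.1 h.2) (by decide)
    have q02 : ¬ (m 0 = 1 ∧ m 2 = 1) := fun h =>
      absurd (hm.2 0 (by decide) 2 (by decide) h.1 h.2) (by decide)
    have q12 : ¬ (m 1 = 1 ∧ m 2 = 1) := fun h =>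
      absurd (hm.2 1 (by decide) 2 (by decide) h.1 h.2) (by decide)
    by_cases hab : 11 ≤ 2 * s + a.toNat + b.toNat
    · -- the induction step
      by_cases h0 : 3 ≤ m 0
      · exact GM1_step ih hm hs hab (by decide : 0 < 3) h0
      · by_cases h1 : 3 ≤ m 1
        · exact GM1_step ih hm hs hab (by decide : 1 < 3) h1
        · by_cases h2 : 3 ≤ m 2
          · exact GM1_step ih hm hs hab (by decide : 2 < 3) h2
          · -- `(2, 2, 2)` as `s ≥ 5`
            have h6 : s + 1 = 6 := by omega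
            exact GM1_r0 (GM1_222 hB a b) (by omega) (by omega) (by omega)
    · have h5 : s = 4 ∨ s = 5 := by omega
      rcases h5 with rfl | rfl
      · -- `(1, 2, 2)`
        have h122 := GM1_122 hB (a := a) (b := b) (by omega)
        by_cases e0 : m 0 = 1
        · exact GM1_r0 h122 e0 (by omega) (by omega)
        · by_cases e1 : m 1 = 1
          · exact GM1_r2 h122 (by omega) e1 (by omega)
          · exact GM1_r1 h122 (by omega) (by omega) (by omega)
      · -- `(1, 2, 3)`, `(2, 2, 2)`, `a = b = false`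
        have hab0 : a = false ∧ b = false := by
          revert hab
          cases a <;> cases b <;> decide
        obtain ⟨rfl, rfl⟩ := hab0
        have h123 := hB.th00_123
        have h132 : GM1_S false false (mm 1 3 2) := GM1_sw h123
        by_cases e0 : m 0 = 1
        · by_cases e1 : m 1 = 2
          · exact GM1_r0 h123 e0 e1 (by omega)
          · exact GM1_r0 h132 e0 (by omega) (by omega)
        · by_cases e1 : m 1 = 1
          · by_cases e2 : m 2 = 2
            · exact GM1_r2 h123 (by omega) e1 e2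
            · exact GM1_r2 h132 (by omega) e1 (by omega)
          · by_cases e2 : m 2 = 1
            · by_cases e3 : m 0 = 2
              · exact GM1_r1 h123 e3 (by omega) e2
              · exact GM1_r1 h132 (by omega) (by omega) e2
            · exact GM1_r0 (GM1_222 hB false false) (by omega) (by omega) (by omega)

/-- GM1. Induction on `s = m 0 + m 1 + m 2` (`ThC a b m` has `2 s - 3 + a + b` points). `s = 5`: `m` is a
permutation of `(1,2,2)` (values at 0, 1, 2; use GI1a for the rotation; GI1a three times also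
replaces `m` by any `m'` with the same values at `0, 1, 2`), `a` or `b` is true: `th10_122`, `th11_122`, and
GI3a (reversal) for `(false, true)`. `s = 6`: `(2,2,2)`: `th00_222`, `th10_222`, `th11_222`, GI3a;
permutations of `(1,2,3)`: `false false`: `th00_123` with GI1a, GI2a; otherwise GT1 for the strand with 3
rims from `s = 5`. `s ≥ 7`: some `m i ≥ 3`, GT1. (`dec m i` is `ThOk` if `m i ≥ 3`.) -/
theorem GM1 (hB : BaseA) (a b : Bool) (m : ℕ → ℕ) (hm : ThOk m)
    (hn : 11 ≤ 2 * (m 0 + m 1 + m 2) + a.toNat + b.toNat) :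
    AK ⊥ (ThC a b m) (ThP a b m) :=
  GM1_all hB _ a b m hm rfl hn

end QG
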