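import Pool.Agent.Lib.QG.GDefs

/-! MP_2e6874_co, part (A): the special configurations `Th a b (1, 1, m)` as a point set with one long
strand between `e 1 0` (first inner vertex) and `e 2 0` (last inner vertex). -/

set_option autoImplicit false

namespace QG
open Set Matroid Submodule

/-- additional vectors at the end `t'`, `τ` = last inner vertex -/
noncomputable def SXa (τ : VV) : Set VV :=
  {e 3 0 + e 3 1 + τ, e 3 0 + F4.w • e 3 1 + τ, e 3 0 + τ + F4.v • e 3 1,
   e 3 0 + F4.w • τ, e 3 0 + F4.v • τ}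

/-- additional vectors at the end `t`, `s` = first inner vertex -/
noncomputable def SXb (s : VV) : Set VV :=
  {F4.w • e 3 0 + F4.v • e 3 1 + s, F4.v • e 3 0 + F4.v • e 3 1 + s,
   e 3 0 + F4.v • e 3 1 + s, F4.w • e 3 1 + s, e 3 1 + s}

/-- base points: `s₁ = e 1 0`, `τ = e 2 0`, rims `t + s₁`, `τ + ω² t'`, `t + t'`, `t + ω t'`, tips -/
noncomputable def SMB (a b : Bool) : Set VV :=
  {e 1 0, e 2 0, e 3 0 + e 1 0, e 2 0 + F4.v • e 3 1, e 3 0 + e 3 1, e 3 0 + F4.w • e 3 1} ∪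
    bs a {e 3 0} ∪ bs b {e 3 1}

noncomputable def SMA (a b : Bool) : Set VV :=
  {e 3 0, e 3 1} ∪ bs (!b) (SXa (e 2 0)) ∪ bs (!a) (SXb (e 1 0))

noncomputable def SMC (a b : Bool) (q : ℕ) : Set VV :=
  MSC {0} (fun _ => q) (fun _ => e 1 0) (fun _ => e 2 0) (SMB a b)

noncomputable def SMP (a b : Bool) (q : ℕ) : Set VV :=
  MSP {0} (fun _ => q) (fun _ => e 1 0) (fun _ => e 2 0) (SMB a b) (SMA a b)

end QG
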