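import Pool.Agent.Lib.QG.GB2
import Pool.Agent.Lib.QG.GSd

/-! MP_2e6874_co, part (A), row GS1. The two descriptions of the special configurations; reversal. -/

set_option autoImplicit false

namespace QG
open Set Matroid Submodule

private theorem GS1_of {C C' P P' : Set VV} (Φ Θ : VV →ₗ[F4] VV)
    (h3 : ∀ x ∈ C ∪ P, Θ (Φ x) = x)
    (hC1 : ∀ c ∈ C, ∃ c' ∈ C', ∃ s : F4, s ≠ 0 ∧ Φ c = s • c')
    (hC2 : ∀ c' ∈ C', ∃ c ∈ C, ∃ s : F4, s ≠ 0 ∧ Φ c = s • c')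
    (hP : ∀ p' ∈ P', ∃ p ∈ P, ∃ s : F4, s ≠ 0 ∧ Φ p = s • p') (h : AK ⊥ C' P') :
    AK ⊥ C P := by
  refine AK.of_map Φ Θ ?_ ?_ ?_ ?_ ?_ h
  · intro k hk
    rw [Submodule.mem_bot] at hk ⊢
    rw [hk, map_zero]
  · intro k hk
    rw [Submodule.mem_bot] at hk ⊢
    rw [hk, map_zero]
  · intro x hx
    rw [Submodule.mem_bot, h3 x hx]
    exact vadd_self x
  · ext y
    constructor
    · rintro ⟨hy, _, ⟨c, hc, rfl⟩, s, hs⟩
      obtain ⟨c', hc', t, _, hct⟩ := hC1 c hc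
      refine ⟨hy, c', hc', s * t, ?_⟩
      rw [hct, smul_smul] at hs
      exact hs
    · rintro ⟨hy, c', hc', s, hs⟩
      obtain ⟨c, hc, t, ht, hct⟩ := hC2 c' hc'
      refine ⟨hy, Φ c, ⟨c, hc, rfl⟩, s * t⁻¹, ?_⟩
      rw [hct, smul_smul, mul_assoc, inv_mul_cancel₀ ht, mul_one]
      exact hs
  · intro p' hp'
    obtain ⟨p, hp, s, hs, hps⟩ := hP p' hp'
    refine ⟨p, hp, s, hs, ?_⟩
    rw [Submodule.mem_bot, hps]
    exact vadd_self _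

/-! ### the vertices -/

private noncomputable def GS1_S (q k : ℕ) : VV :=
  msu (fun _ => q) (fun _ => e 1 0) (fun _ => e 2 0) 0 k

private noncomputable def GS1_V (m n : ℕ) : VV :=
  msu (m11 m) (fun _ => e 3 0) (fun i => g3 i • e 3 1) 2 n

private theorem GS1_lc (f : ℕ × ℕ → VV) (i n : ℕ) :
    Finsupp.linearCombination F4 f (e i n) = f (i, n) := by
  unfold e
  rw [Finsupp.linearCombination_single, one_smul]

private theorem GS1_S0 (q : ℕ) : GS1_S q 0 = e 1 0 := by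
  unfold GS1_S msu
  exact if_pos rfl

private theorem GS1_Sq {q : ℕ} (hq : 1 ≤ q) : GS1_S q q = e 2 0 := by
  unfold GS1_S msu
  rw [if_neg (by omega)]
  exact if_pos rfl

private theorem GS1_Sn {q n : ℕ} (h0 : 0 < n) (h : n < q) : GS1_S q n = e 0 n := by
  unfold GS1_S msu
  rw [if_neg (by omega)]
  exact if_neg (show ¬ n = q by omega)

private theorem GS1_V0 (m : ℕ) : GS1_V m 0 = e 3 0 := by
  unfold GS1_V msu
  exact if_pos rfl

private theorem GS1_Vm {m : ℕ} (hm : 1 ≤ m) : GS1_V m m = F4.v • e 3 1 := by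
  unfold GS1_V msu
  have h1 : m11 m 2 = m := if_pos rfl
  have h2 : g3 2 = F4.v := by decide
  rw [if_neg (by omega), h1, if_pos rfl]
  change g3 2 • e 3 1 = _
  rw [h2]

private theorem GS1_Vn {m n : ℕ} (h0 : 0 < n) (h : n < m) : GS1_V m n = e 2 n := by
  unfold GS1_V msu
  have h1 : m11 m 2 = m := if_pos rfl
  rw [if_neg (by omega), h1, if_neg (by omega)]

/-! ### the points -/

private theorem GS1_mem_ThC {a b : Bool} {m : ℕ} {x : VV} :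
    x ∈ ThC a b (m11 m) ↔ (a = true ∧ x = e 3 0) ∨ (b = true ∧ x = e 3 1) ∨
      (∃ n, 0 < n ∧ n < m ∧ x = e 2 n) ∨ x = e 3 0 + e 3 1 ∨ x = e 3 0 + F4.w • e 3 1 ∨
      ∃ n < m, x = GS1_V m n + GS1_V m (n + 1) := by
  have h2 : m11 m 2 = m := if_pos rfl
  have h0 : m11 m 0 = 1 := if_neg (by decide)
  have h1 : m11 m 1 = 1 := if_neg (by decide)
  have r0 : msu (m11 m) (fun _ => e 3 0) (fun i => g3 i • e 3 1) 0 0 +
      msu (m11 m) (fun _ => e 3 0) (fun i => g3 i • e 3 1) 0 (0 + 1) = e 3 0 + e 3 1 := by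
    unfold msu
    rw [if_pos rfl, if_neg (by decide), h0, if_pos rfl]
    change e 3 0 + g3 0 • e 3 1 = _
    rw [show g3 0 = 1 by decide, one_smul]
  have r1 : msu (m11 m) (fun _ => e 3 0) (fun i => g3 i • e 3 1) 1 0 +
      msu (m11 m) (fun _ => e 3 0) (fun i => g3 i • e 3 1) 1 (0 + 1) =
        e 3 0 + F4.w • e 3 1 := by
    unfold msu
    rw [if_pos rfl, if_neg (by decide), h1, if_pos rfl]
    change e 3 0 + g3 1 • e 3 1 = _
    rw [show g3 1 = F4.w by decide]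
  constructor
  · rintro (((⟨h, h'⟩ | ⟨h, h'⟩) | ⟨i, hi, n, hn, hn2, rfl⟩) | ⟨i, hi, n, hn, rfl⟩)
    · exact Or.inl ⟨h, h'⟩
    · exact Or.inr (Or.inl ⟨h, h'⟩)
    · rw [I3, Finset.mem_insert, Finset.mem_insert, Finset.mem_singleton] at hi
      rcases hi with rfl | rfl | rfl
      · rw [h0] at hn2
        omega
      · rw [h1] at hn2
        omega
      · rw [h2] at hn2
        exact Or.inr (Or.inr (Or.inl ⟨n, hn, hn2, rfl⟩))
    · rw [I3, Finset.mem_insert, Finset.mem_insert, Finset.mem_singleton] at hi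
      rcases hi with rfl | rfl | rfl
      · rw [h0, Nat.lt_one_iff] at hn
        subst hn
        exact Or.inr (Or.inr (Or.inr (Or.inl r0)))
      · rw [h1, Nat.lt_one_iff] at hn
        subst hn
        exact Or.inr (Or.inr (Or.inr (Or.inr (Or.inl r1))))
      · rw [h2] at hn
        exact Or.inr (Or.inr (Or.inr (Or.inr (Or.inr ⟨n, hn, rfl⟩))))
  · have i0 : (0 : ℕ) ∈ I3 := by decide
    have i1 : (1 : ℕ) ∈ I3 := by decide
    have i2 : (2 : ℕ) ∈ I3 := by decide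
    rintro (⟨h, h'⟩ | ⟨h, h'⟩ | ⟨n, hn, hn2, rfl⟩ | rfl | rfl | ⟨n, hn, rfl⟩)
    · exact Or.inl (Or.inl (Or.inl ⟨h, h'⟩))
    · exact Or.inl (Or.inl (Or.inr ⟨h, h'⟩))
    · exact Or.inl (Or.inr ⟨2, i2, n, hn, by rw [h2]; exact hn2, rfl⟩)
    · exact Or.inr ⟨0, i0, 0, by rw [h0]; exact Nat.one_pos, r0.symm⟩
    · exact Or.inr ⟨1, i1, 0, by rw [h1]; exact Nat.one_pos, r1.symm⟩
    · exact Or.inr ⟨2, i2, n, by rw [h2]; exact hn, rfl⟩

private theorem GS1_mem_SMC {a b : Bool} {q : ℕ} {x : VV} :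
    x ∈ SMC a b q ↔ x ∈ SMB a b ∨ (∃ n, 0 < n ∧ n < q ∧ x = e 0 n) ∨
      ∃ n < q, x = GS1_S q n + GS1_S q (n + 1) := by
  constructor
  · rintro ((h | ⟨i, hi, n, hn, hn2, rfl⟩) | ⟨i, hi, n, hn, rfl⟩)
    · exact Or.inl h
    · rw [Finset.mem_singleton] at hi
      subst hi
      exact Or.inr (Or.inl ⟨n, hn, hn2, rfl⟩)
    · rw [Finset.mem_singleton] at hi
      subst hi
      exact Or.inr (Or.inr ⟨n, hn, rfl⟩)
  · rintro (h | ⟨n, hn, hn2, rfl⟩ | ⟨n, hn, rfl⟩)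
    · exact Or.inl (Or.inl h)
    · exact Or.inl (Or.inr ⟨0, Finset.mem_singleton_self 0, n, hn, hn2, rfl⟩)
    · exact Or.inr ⟨0, Finset.mem_singleton_self 0, n, hn, rfl⟩

/-! ### the first pair of maps -/

private noncomputable def GS1_F (q : ℕ) : VV →ₗ[F4] VV :=
  Finsupp.linearCombination F4 (fun p : ℕ × ℕ =>
    if p.1 = 3 then e 3 p.2 else GS1_S q (p.2 - 1))

private noncomputable def GS1_G (q : ℕ) : VV →ₗ[F4] VV :=
  Finsupp.linearCombination F4 (fun p : ℕ × ℕ =>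
    if p.1 = 3 then e 3 p.2 else if p.1 = 1 then e 2 1 else
      if p.1 = 2 then e 2 (q + 1) else e 2 (p.2 + 1))

private theorem GS1_F3 (q n : ℕ) : GS1_F q (e 3 n) = e 3 n := by
  refine (GS1_lc _ _ _).trans ?_
  exact if_pos rfl

private theorem GS1_F2 (q k : ℕ) : GS1_F q (e 2 (k + 1)) = GS1_S q k := by
  refine (GS1_lc _ _ _).trans ?_
  exact if_neg (show ¬ (2 : ℕ) = 3 by decide)

private theorem GS1_G3 (q n : ℕ) : GS1_G q (e 3 n) = e 3 n := by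
  refine (GS1_lc _ _ _).trans ?_
  exact if_pos rfl

private theorem GS1_G1 (q : ℕ) : GS1_G q (e 1 0) = e 2 1 := by
  refine (GS1_lc _ _ _).trans ?_
  exact (if_neg (show ¬ (1 : ℕ) = 3 by decide)).trans (if_pos rfl)

private theorem GS1_G2 (q : ℕ) : GS1_G q (e 2 0) = e 2 (q + 1) := by
  refine (GS1_lc _ _ _).trans ?_
  exact (if_neg (show ¬ (2 : ℕ) = 3 by decide)).trans
    ((if_neg (show ¬ (2 : ℕ) = 1 by decide)).trans (if_pos rfl))

private theorem GS1_G0 (q n : ℕ) : GS1_G q (e 0 n) = e 2 (n + 1) := by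
  refine (GS1_lc _ _ _).trans ?_
  exact (if_neg (show ¬ (0 : ℕ) = 3 by decide)).trans
    ((if_neg (show ¬ (0 : ℕ) = 1 by decide)).trans (if_neg (show ¬ (0 : ℕ) = 2 by decide)))

private theorem GS1_GS (q k : ℕ) : GS1_G q (GS1_S q k) = e 2 (k + 1) := by
  unfold GS1_S msu
  split_ifs with h1 h2
  · subst h1
    exact GS1_G1 q
  · subst h2
    exact GS1_G2 k
  · exact GS1_G0 q k

private theorem GS1_GFV (q n : ℕ) (hn : n ≤ q + 2) :
    GS1_G q (GS1_F q (GS1_V (q + 2) n)) = GS1_V (q + 2) n := by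
  rcases Nat.eq_zero_or_pos n with rfl | h0
  · rw [GS1_V0, GS1_F3, GS1_G3]
  · rcases hn.lt_or_eq with h | rfl
    · rw [GS1_Vn h0 h]
      obtain ⟨k, rfl⟩ := Nat.exists_eq_succ_of_ne_zero h0.ne'
      rw [Nat.succ_eq_add_one, GS1_F2, GS1_GS]
    · rw [GS1_Vm (by omega), map_smul, GS1_F3, map_smul, GS1_G3]

/-- the map `Φ` on the points -/
private theorem GS1_FC {a b : Bool} {q : ℕ} (hq : 1 ≤ q) {x : VV}
    (hx : x ∈ ThC a b (m11 (q + 2))) : GS1_F q x ∈ SMC a b q ∧ GS1_G q (GS1_F q x) = x := by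
  rw [GS1_mem_ThC] at hx
  rw [GS1_mem_SMC]
  rcases hx with ⟨h, rfl⟩ | ⟨h, rfl⟩ | ⟨n, hn, hn2, rfl⟩ | rfl | rfl | ⟨n, hn, rfl⟩
  · rw [GS1_F3, GS1_G3]
    exact ⟨Or.inl (Or.inl (Or.inr ⟨h, rfl⟩)), rfl⟩
  · rw [GS1_F3, GS1_G3]
    exact ⟨Or.inl (Or.inr ⟨h, rfl⟩), rfl⟩
  · obtain ⟨k, rfl⟩ := Nat.exists_eq_succ_of_ne_zero hn.ne'
    rw [Nat.succ_eq_add_one, GS1_F2, GS1_GS]
    refine ⟨?_, rfl⟩
    rcases Nat.eq_zero_or_pos k with rfl | hk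
    · rw [GS1_S0]
      exact Or.inl (Or.inl (Or.inl (Or.inl rfl)))
    · rcases (show k ≤ q by omega).lt_or_eq with hkq | rfl
      · rw [GS1_Sn hk hkq]
        exact Or.inr (Or.inl ⟨k, hk, hkq, rfl⟩)
      · rw [GS1_Sq hk]
        exact Or.inl (Or.inl (Or.inl (Or.inr (Or.inl rfl))))
  · rw [map_add, GS1_F3, GS1_F3, map_add, GS1_G3, GS1_G3]
    exact ⟨Or.inl (Or.inl (Or.inl (Or.inr (Or.inr (Or.inr (Or.inr (Or.inl rfl))))))), rfl⟩
  · rw [map_add, map_smul, GS1_F3, GS1_F3, map_add, map_smul, GS1_G3, GS1_G3]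
    exact ⟨Or.inl (Or.inl (Or.inl (Or.inr (Or.inr (Or.inr (Or.inr (Or.inr rfl))))))), rfl⟩
  · refine ⟨?_, by rw [map_add, map_add, GS1_GFV q n (by omega), GS1_GFV q (n + 1) (by omega)]⟩
    rw [map_add]
    rcases Nat.eq_zero_or_pos n with rfl | h0
    · rw [GS1_V0, GS1_Vn (by omega) (by omega), GS1_F3, zero_add, GS1_F2 q 0, GS1_S0]
      exact Or.inl (Or.inl (Or.inl (Or.inr (Or.inr (Or.inl rfl)))))
    · obtain ⟨k, rfl⟩ := Nat.exists_eq_succ_of_ne_zero h0.ne'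
      rw [Nat.succ_eq_add_one, GS1_Vn (by omega) (by omega), GS1_F2]
      rcases (show k ≤ q by omega).lt_or_eq with hkq | rfl
      · rw [GS1_Vn (by omega) (by omega), GS1_F2]
        exact Or.inr (Or.inr ⟨k, hkq, rfl⟩)
      · rw [GS1_Vm (by omega), map_smul, GS1_F3, GS1_Sq hq]
        exact Or.inl (Or.inl (Or.inl (Or.inr (Or.inr (Or.inr (Or.inl rfl))))))

/-- the map `Θ` on the points -/
private theorem GS1_GC {a b : Bool} {q : ℕ} (hq : 1 ≤ q) {x : VV}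
    (hx : x ∈ SMC a b q) : GS1_G q x ∈ ThC a b (m11 (q + 2)) ∧ GS1_F q (GS1_G q x) = x := by
  rw [GS1_mem_SMC] at hx
  rw [GS1_mem_ThC]
  rcases hx with (((rfl | rfl | rfl | rfl | rfl | rfl) | ⟨h, rfl⟩) | ⟨h, rfl⟩) |
    ⟨n, hn, hn2, rfl⟩ | ⟨n, hn, rfl⟩
  · rw [GS1_G1, GS1_F2 q 0, GS1_S0]
    exact ⟨Or.inr (Or.inr (Or.inl ⟨1, by omega, by omega, rfl⟩)), rfl⟩
  · rw [GS1_G2, GS1_F2, GS1_Sq hq]
    exact ⟨Or.inr (Or.inr (Or.inl ⟨q + 1, by omega, by omega, rfl⟩)), rfl⟩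
  · rw [map_add, GS1_G3, GS1_G1, map_add, GS1_F3, GS1_F2 q 0, GS1_S0]
    refine ⟨Or.inr (Or.inr (Or.inr (Or.inr (Or.inr ⟨0, by omega, ?_⟩)))), rfl⟩
    rw [GS1_V0, GS1_Vn (by omega) (by omega)]
  · rw [map_add, map_smul, GS1_G3, GS1_G2, map_add, map_smul, GS1_F3, GS1_F2, GS1_Sq hq]
    refine ⟨Or.inr (Or.inr (Or.inr (Or.inr (Or.inr ⟨q + 1, by omega, ?_⟩)))), rfl⟩
    rw [GS1_Vm (by omega), GS1_Vn (by omega) (by omega)]
  · rw [map_add, GS1_G3, GS1_G3, map_add, GS1_F3, GS1_F3]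
    exact ⟨Or.inr (Or.inr (Or.inr (Or.inl rfl))), rfl⟩
  · rw [map_add, map_smul, GS1_G3, GS1_G3, map_add, map_smul, GS1_F3, GS1_F3]
    exact ⟨Or.inr (Or.inr (Or.inr (Or.inr (Or.inl rfl)))), rfl⟩
  · rw [GS1_G3, GS1_F3]
    exact ⟨Or.inl ⟨h, rfl⟩, rfl⟩
  · rw [GS1_G3, GS1_F3]
    exact ⟨Or.inr (Or.inl ⟨h, rfl⟩), rfl⟩
  · rw [GS1_G0, GS1_F2, GS1_Sn hn hn2]
    exact ⟨Or.inr (Or.inr (Or.inl ⟨n + 1, by omega, by omega, rfl⟩)), rfl⟩
  · rw [map_add, GS1_GS, GS1_GS, map_add, GS1_F2, GS1_F2]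
    refine ⟨Or.inr (Or.inr (Or.inr (Or.inr (Or.inr ⟨n + 1, by omega, ?_⟩)))), rfl⟩
    rw [GS1_Vn (by omega) (by omega), GS1_Vn (by omega) (by omega)]

private theorem GS1_FP {a b : Bool} {q : ℕ} (hq : 1 ≤ q) {x : VV}
    (hx : x ∈ SpP a b (q + 2)) : GS1_F q x ∈ SMP a b q ∧ GS1_G q (GS1_F q x) = x := by
  have f0 := GS1_F3 q 0
  have f1 := GS1_F3 q 1
  have g0 := GS1_G3 q 0
  have g1 := GS1_G3 q 1
  have f2 : GS1_F q (e 2 1) = e 1 0 := by rw [GS1_F2 q 0, GS1_S0]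
  have g2 := GS1_G1 q
  have f3 : GS1_F q (e 2 (q + 1)) = e 2 0 := by rw [GS1_F2 q q, GS1_Sq hq]
  have g3 := GS1_G2 q
  rcases hx with ((hx | (rfl | rfl | rfl)) | ⟨hb, hx⟩) | ⟨ha, hx⟩
  · obtain ⟨h1, h2⟩ := GS1_FC hq hx
    exact ⟨Or.inl (Or.inl h1), h2⟩
  · rw [f0, g0]
    exact ⟨Or.inl (Or.inr (Or.inl (Or.inl (Or.inl rfl)))), rfl⟩
  · rw [f1, g1]
    exact ⟨Or.inl (Or.inr (Or.inl (Or.inl (Or.inr rfl)))), rfl⟩
  · rw [map_zero, map_zero]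
    exact ⟨Or.inr rfl, rfl⟩
  · have hm : q + 2 - 1 = q + 1 := by omega
    rw [hm] at hx
    rcases hx with rfl | rfl | rfl | rfl | rfl
    · rw [map_add, map_add, f0, f1, f3, map_add, map_add, g0, g1, g3]
      exact ⟨Or.inl (Or.inr (Or.inl (Or.inr ⟨hb, Or.inl rfl⟩))), rfl⟩
    · rw [map_add, map_add, map_smul, f0, f1, f3, map_add, map_add, map_smul, g0, g1, g3]
      exact ⟨Or.inl (Or.inr (Or.inl (Or.inr ⟨hb, Or.inr (Or.inl rfl)⟩))), rfl⟩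
    · rw [map_add, map_add, map_smul, f0, f1, f3, map_add, map_add, map_smul, g0, g1, g3]
      exact ⟨Or.inl (Or.inr (Or.inl (Or.inr ⟨hb, Or.inr (Or.inr (Or.inl rfl))⟩))), rfl⟩
    · rw [map_add, map_smul, f0, f3, map_add, map_smul, g0, g3]
      exact ⟨Or.inl (Or.inr (Or.inl (Or.inr ⟨hb, Or.inr (Or.inr (Or.inr (Or.inl rfl)))⟩))), rfl⟩
    · rw [map_add, map_smul, f0, f3, map_add, map_smul, g0, g3]
      exact ⟨Or.inl (Or.inr (Or.inl (Or.inr ⟨hb, Or.inr (Or.inr (Or.inr (Or.inr rfl)))⟩))), rfl⟩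
  · rcases hx with rfl | rfl | rfl | rfl | rfl
    · rw [map_add, map_add, map_smul, map_smul, f0, f1, f2, map_add, map_add, map_smul,
        map_smul, g0, g1, g2]
      exact ⟨Or.inl (Or.inr (Or.inr ⟨ha, Or.inl rfl⟩)), rfl⟩
    · rw [map_add, map_add, map_smul, map_smul, f0, f1, f2, map_add, map_add, map_smul,
        map_smul, g0, g1, g2]
      exact ⟨Or.inl (Or.inr (Or.inr ⟨ha, Or.inr (Or.inl rfl)⟩)), rfl⟩
    · rw [map_add, map_add, map_smul, f0, f1, f2, map_add, map_add, map_smul, g0, g1, g2]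
      exact ⟨Or.inl (Or.inr (Or.inr ⟨ha, Or.inr (Or.inr (Or.inl rfl))⟩)), rfl⟩
    · rw [map_add, map_smul, f1, f2, map_add, map_smul, g1, g2]
      exact ⟨Or.inl (Or.inr (Or.inr ⟨ha, Or.inr (Or.inr (Or.inr (Or.inl rfl)))⟩)), rfl⟩
    · rw [map_add, f1, f2, map_add, g1, g2]
      exact ⟨Or.inl (Or.inr (Or.inr ⟨ha, Or.inr (Or.inr (Or.inr (Or.inr rfl)))⟩)), rfl⟩

private theorem GS1_GP {a b : Bool} {q : ℕ} (hq : 1 ≤ q) {x : VV}
    (hx : x ∈ SMP a b q) : GS1_G q x ∈ SpP a b (q + 2) ∧ GS1_F q (GS1_G q x) = x := by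
  have f0 := GS1_F3 q 0
  have f1 := GS1_F3 q 1
  have g0 := GS1_G3 q 0
  have g1 := GS1_G3 q 1
  have f2 : GS1_F q (e 2 1) = e 1 0 := by rw [GS1_F2 q 0, GS1_S0]
  have g2 := GS1_G1 q
  have f3 : GS1_F q (e 2 (q + 1)) = e 2 0 := by rw [GS1_F2 q q, GS1_Sq hq]
  have g3 := GS1_G2 q
  rcases hx with (hx | (((rfl | rfl) | ⟨hb, hx⟩) | ⟨ha, hx⟩)) | rfl
  · obtain ⟨h1, h2⟩ := GS1_GC hq hx
    exact ⟨Or.inl (Or.inl (Or.inl h1)), h2⟩
  · rw [g0, f0]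
    exact ⟨Or.inl (Or.inl (Or.inr (Or.inl rfl))), rfl⟩
  · rw [g1, f1]
    exact ⟨Or.inl (Or.inl (Or.inr (Or.inr (Or.inl rfl)))), rfl⟩
  · have hm : q + 2 - 1 = q + 1 := by omega
    have hSX : ∀ y ∈ SX1 (q + 1), y ∈ SpP a b (q + 2) := by
      intro y hy
      refine Or.inl (Or.inr ⟨hb, ?_⟩)
      rw [hm]
      exact hy
    rcases hx with rfl | rfl | rfl | rfl | rfl
    · rw [map_add, map_add, g0, g1, g3, map_add, map_add, f0, f1, f3]
      exact ⟨hSX _ (Or.inl rfl), rfl⟩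
    · rw [map_add, map_add, map_smul, g0, g1, g3, map_add, map_add, map_smul, f0, f1, f3]
      exact ⟨hSX _ (Or.inr (Or.inl rfl)), rfl⟩
    · rw [map_add, map_add, map_smul, g0, g1, g3, map_add, map_add, map_smul, f0, f1, f3]
      exact ⟨hSX _ (Or.inr (Or.inr (Or.inl rfl))), rfl⟩
    · rw [map_add, map_smul, g0, g3, map_add, map_smul, f0, f3]
      exact ⟨hSX _ (Or.inr (Or.inr (Or.inr (Or.inl rfl)))), rfl⟩
    · rw [map_add, map_smul, g0, g3, map_add, map_smul, f0, f3]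
      exact ⟨hSX _ (Or.inr (Or.inr (Or.inr (Or.inr rfl)))), rfl⟩
  · rcases hx with rfl | rfl | rfl | rfl | rfl
    · rw [map_add, map_add, map_smul, map_smul, g0, g1, g2, map_add, map_add, map_smul,
        map_smul, f0, f1, f2]
      exact ⟨Or.inr ⟨ha, Or.inl rfl⟩, rfl⟩
    · rw [map_add, map_add, map_smul, map_smul, g0, g1, g2, map_add, map_add, map_smul,
        map_smul, f0, f1, f2]
      exact ⟨Or.inr ⟨ha, Or.inr (Or.inl rfl)⟩, rfl⟩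
    · rw [map_add, map_add, map_smul, g0, g1, g2, map_add, map_add, map_smul, f0, f1, f2]
      exact ⟨Or.inr ⟨ha, Or.inr (Or.inr (Or.inl rfl))⟩, rfl⟩
    · rw [map_add, map_smul, g1, g2, map_add, map_smul, f1, f2]
      exact ⟨Or.inr ⟨ha, Or.inr (Or.inr (Or.inr (Or.inl rfl)))⟩, rfl⟩
    · rw [map_add, g1, g2, map_add, f1, f2]
      exact ⟨Or.inr ⟨ha, Or.inr (Or.inr (Or.inr (Or.inr rfl)))⟩, rfl⟩
  · rw [map_zero, map_zero]
    exact ⟨Or.inl (Or.inl (Or.inr (Or.inr (Or.inr rfl)))), rfl⟩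

/-- GS1a. `Φ (e 2 1) = e 1 0`, `Φ (e 2 (n+1)) = e 0 n` (`1 ≤ n < q`), `Φ (e 2 (q+1)) = e 2 0`,
`e 3 0`, `e 3 1` fixed, `0` otherwise; `Θ` the inverse (`AK.of_map`). -/
theorem GS1a {a b : Bool} {q : ℕ} (hq : 1 ≤ q) (h : AK ⊥ (SMC a b q) (SMP a b q)) :
    AK ⊥ (ThC a b (m11 (q + 2))) (SpP a b (q + 2)) := by
  refine GS1_of (GS1_F q) (GS1_G q) ?_ ?_ ?_ ?_ h
  · rintro x (hx | hx)
    · exact (GS1_FC hq hx).2
    · exact (GS1_FP hq hx).2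
  · intro c hc
    exact ⟨_, (GS1_FC hq hc).1, 1, one_ne_zero, (one_smul _ _).symm⟩
  · intro c hc
    exact ⟨_, (GS1_GC hq hc).1, 1, one_ne_zero, by rw [(GS1_GC hq hc).2, one_smul]⟩
  · intro c hc
    exact ⟨_, (GS1_GP hq hc).1, 1, one_ne_zero, by rw [(GS1_GP hq hc).2, one_smul]⟩

/-- GS1b. the converse -/
theorem GS1b {a b : Bool} {q : ℕ} (hq : 1 ≤ q)
    (h : AK ⊥ (ThC a b (m11 (q + 2))) (SpP a b (q + 2))) : AK ⊥ (SMC a b q) (SMP a b q) := by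
  refine GS1_of (GS1_G q) (GS1_F q) ?_ ?_ ?_ ?_ h
  · rintro x (hx | hx)
    · exact (GS1_GC hq hx).2
    · exact (GS1_GP hq hx).2
  · intro c hc
    exact ⟨_, (GS1_GC hq hc).1, 1, one_ne_zero, (one_smul _ _).symm⟩
  · intro c hc
    exact ⟨_, (GS1_FC hq hc).1, 1, one_ne_zero, by rw [(GS1_FC hq hc).2, one_smul]⟩
  · intro c hc
    exact ⟨_, (GS1_FP hq hc).1, 1, one_ne_zero, by rw [(GS1_FP hq hc).2, one_smul]⟩

/-! ### reversal -/

private noncomputable def GS1_R (m : ℕ) : VV →ₗ[F4] VV :=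
  Finsupp.linearCombination F4 (fun p : ℕ × ℕ =>
    if p.1 = 3 then (if p.2 = 0 then F4.v • e 3 1 else F4.w • e 3 0) else e 2 (m - p.2))

private theorem GS1_R30 (m : ℕ) : GS1_R m (e 3 0) = F4.v • e 3 1 := by
  refine (GS1_lc _ _ _).trans ?_
  exact (if_pos rfl).trans (if_pos rfl)

private theorem GS1_R31 (m : ℕ) : GS1_R m (e 3 1) = F4.w • e 3 0 := by
  refine (GS1_lc _ _ _).trans ?_
  exact (if_pos rfl).trans (if_neg (show ¬ (1 : ℕ) = 0 by decide))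

private theorem GS1_R2 (m n : ℕ) : GS1_R m (e 2 n) = e 2 (m - n) := by
  refine (GS1_lc _ _ _).trans ?_
  exact if_neg (show ¬ (2 : ℕ) = 3 by decide)

private theorem GS1_vw : F4.v * F4.w = 1 := by decide
private theorem GS1_wv : F4.w * F4.v = 1 := by decide

private theorem GS1_RV {m : ℕ} (hm : 1 ≤ m) {n : ℕ} (hn : n ≤ m) :
    GS1_R m (GS1_V m n) = GS1_V m (m - n) := by
  rcases Nat.eq_zero_or_pos n with rfl | h0
  · rw [GS1_V0, GS1_R30, Nat.sub_zero, GS1_Vm hm]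
  · rcases hn.lt_or_eq with h | rfl
    · rw [GS1_Vn h0 h, GS1_R2, GS1_Vn (by omega) (by omega)]
    · rw [GS1_Vm hm, map_smul, GS1_R31, smul_smul, GS1_vw, one_smul, Nat.sub_self, GS1_V0]

private theorem GS1_RR30 (m : ℕ) : GS1_R m (GS1_R m (e 3 0)) = e 3 0 := by
  rw [GS1_R30, map_smul, GS1_R31, smul_smul, GS1_vw, one_smul]

private theorem GS1_RR31 (m : ℕ) : GS1_R m (GS1_R m (e 3 1)) = e 3 1 := by
  rw [GS1_R31, map_smul, GS1_R30, smul_smul, GS1_wv, one_smul]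

private theorem GS1_RR2 {m n : ℕ} (hn : n ≤ m) : GS1_R m (GS1_R m (e 2 n)) = e 2 n := by
  rw [GS1_R2, GS1_R2]
  congr 1
  omega

/-- linear identities -/
private theorem GS1_id {x y z : VV} {a b c a' b' c' s : F4} (h1 : a = s * a') (h2 : b = s * b')
    (h3 : c = s * c') : a • x + b • y + c • z = s • (a' • x + b' • y + c' • z) := by
  rw [smul_add, smul_add, smul_smul, smul_smul, smul_smul, h1, h2, h3]

private theorem GS1_RC {a b : Bool} {m : ℕ} (hm : 2 ≤ m) {x : VV}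
    (hx : x ∈ ThC a b (m11 m)) : (∃ y ∈ ThC b a (m11 m), ∃ s : F4, s ≠ 0 ∧ GS1_R m x = s • y) ∧
      GS1_R m (GS1_R m x) = x := by
  rw [GS1_mem_ThC] at hx
  rcases hx with ⟨h, rfl⟩ | ⟨h, rfl⟩ | ⟨n, hn, hn2, rfl⟩ | rfl | rfl | ⟨n, hn, rfl⟩
  · exact ⟨⟨e 3 1, GS1_mem_ThC.2 (Or.inr (Or.inl ⟨h, rfl⟩)), F4.v, by decide, GS1_R30 m⟩,
      GS1_RR30 m⟩
  · exact ⟨⟨e 3 0, GS1_mem_ThC.2 (Or.inl ⟨h, rfl⟩), F4.w, by decide, GS1_R31 m⟩, GS1_RR31 m⟩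
  · exact ⟨⟨e 2 (m - n), GS1_mem_ThC.2 (Or.inr (Or.inr (Or.inl ⟨m - n, by omega, by omega,
      rfl⟩))), 1, by decide, by rw [one_smul, GS1_R2]⟩, GS1_RR2 hn2.le⟩
  · refine ⟨⟨e 3 0 + F4.w • e 3 1, GS1_mem_ThC.2 (Or.inr (Or.inr (Or.inr (Or.inr
      (Or.inl rfl))))), F4.w, by decide, ?_⟩, by rw [map_add, map_add, GS1_RR30, GS1_RR31]⟩
    rw [map_add, GS1_R30, GS1_R31, smul_add, smul_smul, show F4.w * F4.w = F4.v by decide,
      add_comm]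
  · refine ⟨⟨e 3 0 + e 3 1, GS1_mem_ThC.2 (Or.inr (Or.inr (Or.inr (Or.inl rfl)))), F4.v,
      by decide, ?_⟩, by rw [map_add, map_add, map_smul, map_smul, GS1_RR30, GS1_RR31]⟩
    rw [map_add, map_smul, GS1_R30, GS1_R31, smul_add, smul_smul,
      show F4.w * F4.w = F4.v by decide, add_comm]
  · constructor
    · refine ⟨GS1_V m (m - (n + 1)) + GS1_V m (m - (n + 1) + 1), GS1_mem_ThC.2 (Or.inr (Or.inr
        (Or.inr (Or.inr (Or.inr ⟨m - (n + 1), by omega, rfl⟩))))), 1, by decide, ?_⟩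
      rw [map_add, GS1_RV (by omega) hn.le, GS1_RV (by omega) (by omega), one_smul, add_comm]
      congr 2
      omega
    · have h1 : ∀ k, k ≤ m → GS1_R m (GS1_R m (GS1_V m k)) = GS1_V m k := by
        intro k hk
        rw [GS1_RV (by omega) hk, GS1_RV (by omega) (by omega)]
        congr 1
        omega
      rw [map_add, map_add, h1 n hn.le, h1 (n + 1) hn]

private theorem GS1_RP {a b : Bool} {m : ℕ} (hm : 2 ≤ m) {x : VV}
    (hx : x ∈ SpP a b m) : (∃ y ∈ SpP b a m, ∃ s : F4, s ≠ 0 ∧ GS1_R m x = s • y) ∧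
      GS1_R m (GS1_R m x) = x := by
  have r0 := GS1_R30 m
  have r1 := GS1_R31 m
  have r2 : GS1_R m (e 2 1) = e 2 (m - 1) := GS1_R2 m 1
  have r3 : GS1_R m (e 2 (m - 1)) = e 2 1 := by
    rw [GS1_R2]
    congr 1
    omega
  have q0 := GS1_RR30 m
  have q1 := GS1_RR31 m
  have q2 : GS1_R m (GS1_R m (e 2 1)) = e 2 1 := GS1_RR2 (by omega)
  have q3 : GS1_R m (GS1_R m (e 2 (m - 1))) = e 2 (m - 1) := GS1_RR2 (by omega)
  rcases hx with ((hx | (rfl | rfl | rfl)) | ⟨hb, hx⟩) | ⟨ha, hx⟩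
  · obtain ⟨⟨y, hy, s, hs, h1⟩, h2⟩ := GS1_RC hm hx
    exact ⟨⟨y, Or.inl (Or.inl (Or.inl hy)), s, hs, h1⟩, h2⟩
  · exact ⟨⟨e 3 1, Or.inl (Or.inl (Or.inr (Or.inr (Or.inl rfl)))), F4.v, by decide, r0⟩, q0⟩
  · exact ⟨⟨e 3 0, Or.inl (Or.inl (Or.inr (Or.inl rfl))), F4.w, by decide, r1⟩, q1⟩
  · refine ⟨⟨0, Or.inl (Or.inl (Or.inr (Or.inr (Or.inr rfl)))), 1, by decide, ?_⟩, ?_⟩
    · rw [map_zero, smul_zero]
    · rw [map_zero, map_zero]
  · have hT : ∀ y ∈ SX0, y ∈ SpP b a m := fun y hy => Or.inr ⟨hb, hy⟩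
    rcases hx with rfl | rfl | rfl | rfl | rfl
    · refine ⟨⟨_, hT _ (Or.inl rfl), 1, by decide, ?_⟩, by simp only [map_add, q0, q1, q3]⟩
      rw [map_add, map_add, r0, r1, r3, one_smul, add_comm (F4.v • e 3 1)]
    · refine ⟨⟨_, hT _ (Or.inr (Or.inl rfl)), 1, by decide, ?_⟩,
        by simp only [map_add, map_smul, q0, q1, q3]⟩
      rw [map_add, map_add, map_smul, r0, r1, r3, one_smul, smul_smul,
        show F4.w * F4.w = F4.v by decide, add_comm (F4.v • e 3 1)]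
    · refine ⟨⟨_, hT _ (Or.inr (Or.inr (Or.inl rfl))), 1, by decide, ?_⟩,
        by simp only [map_add, map_smul, q0, q1, q3]⟩
      rw [map_add, map_add, map_smul, r0, r1, r3, one_smul, smul_smul, GS1_vw, one_smul]
      abel
    · refine ⟨⟨_, hT _ (Or.inr (Or.inr (Or.inr (Or.inl rfl)))), F4.w, by decide, ?_⟩,
        by simp only [map_add, map_smul, q0, q3]⟩
      rw [map_add, map_smul, r0, r3, smul_add, smul_smul, show F4.w * F4.w = F4.v by decide]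
    · refine ⟨⟨_, hT _ (Or.inr (Or.inr (Or.inr (Or.inr rfl)))), F4.v, by decide, ?_⟩,
        by simp only [map_add, map_smul, q0, q3]⟩
      rw [map_add, map_smul, r0, r3, smul_add]
  · have hT : ∀ y ∈ SX1 (m - 1), y ∈ SpP b a m := fun y hy => Or.inl (Or.inr ⟨ha, hy⟩)
    rcases hx with rfl | rfl | rfl | rfl | rfl
    · refine ⟨⟨_, hT _ (Or.inl rfl), 1, by decide, ?_⟩,
        by simp only [map_add, map_smul, q0, q1, q2]⟩
      rw [map_add, map_add, map_smul, map_smul, r0, r1, r2, one_smul, smul_smul, smul_smul,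
        GS1_vw, GS1_wv, one_smul, one_smul, add_comm (e 3 1)]
    · refine ⟨⟨_, hT _ (Or.inr (Or.inl rfl)), 1, by decide, ?_⟩,
        by simp only [map_add, map_smul, q0, q1, q2]⟩
      rw [map_add, map_add, map_smul, map_smul, r0, r1, r2, one_smul, smul_smul, smul_smul,
        GS1_vw, show F4.v * F4.v = F4.w by decide, one_smul, add_comm (F4.w • e 3 1)]
    · refine ⟨⟨_, hT _ (Or.inr (Or.inr (Or.inl rfl))), 1, by decide, ?_⟩,
        by simp only [map_add, map_smul, q0, q1, q2]⟩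
      rw [map_add, map_add, map_smul, r0, r1, r2, one_smul, smul_smul, GS1_vw, one_smul]
      abel
    · refine ⟨⟨_, hT _ (Or.inr (Or.inr (Or.inr (Or.inl rfl)))), F4.v, by decide, ?_⟩,
        by simp only [map_add, map_smul, q1, q2]⟩
      rw [map_add, map_smul, r1, r2, smul_add, smul_smul, smul_smul, GS1_vw,
        show F4.w * F4.w = F4.v by decide, one_smul]
    · refine ⟨⟨_, hT _ (Or.inr (Or.inr (Or.inr (Or.inr rfl)))), F4.w, by decide, ?_⟩,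
        by simp only [map_add, q1, q2]⟩
      rw [map_add, r1, r2, smul_add, smul_smul, GS1_wv, one_smul]

/-- GS1c. reversal: `Φ (e 3 0) = ω² • e 3 1`, `Φ (e 3 1) = ω • e 3 0`, `Φ (e 2 n) = e 2 (m - n)` for
`0 < n < m`: strand 2 (from `t` to `ω² t'`) is reversed, `t + t' ↦ ω (t + ω t')`,
`t + ω t' ↦ ω² (t + t')`, `SX1 (m-1)` and `SX0` are exchanged (up to scalars). -/
theorem GS1c {a b : Bool} {m : ℕ} (hm : 2 ≤ m) (h : AK ⊥ (ThC a b (m11 m)) (SpP a b m)) :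
    AK ⊥ (ThC b a (m11 m)) (SpP b a m) := by
  have inv : ∀ {x y : VV} {s : F4}, s ≠ 0 → GS1_R m x = s • y → GS1_R m (GS1_R m x) = x →
      GS1_R m y = s⁻¹ • x := by
    intro x y s hs h1 h2
    rw [h1, map_smul] at h2
    rw [← h2, smul_smul, inv_mul_cancel₀ hs, one_smul]
  refine GS1_of (GS1_R m) (GS1_R m) ?_ ?_ ?_ ?_ h
  · rintro x (hx | hx)
    · exact (GS1_RC hm hx).2
    · exact (GS1_RP hm hx).2
  · intro c hc
    exact (GS1_RC hm hc).1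
  · intro c hc
    obtain ⟨⟨y, hy, s, hs, h1⟩, h2⟩ := GS1_RC hm hc
    exact ⟨y, hy, s⁻¹, inv_ne_zero hs, inv hs h1 h2⟩
  · intro c hc
    obtain ⟨⟨y, hy, s, hs, h1⟩, h2⟩ := GS1_RP hm hc
    exact ⟨y, hy, s⁻¹, inv_ne_zero hs, inv hs h1 h2⟩

end QG
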