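import Pool.Agent.Lib.QG.GC3
import Pool.Agent.Lib.QG.GSd

/-! MP_2e6874_co, part (A), row GS2. -/

set_option autoImplicit false
set_option linter.all false

namespace QG
open Set Matroid Submodule

private def G2c (l : List F4) (k : ℕ) : F4 := l.getD k F4.o

private noncomputable def G2j (l : List F4) : VV :=
  G2c l 0 • e 1 0 + G2c l 1 • e 2 0 + G2c l 2 • e 3 0 + G2c l 3 • e 3 1

private def G2dot (x y : List F4) : F4 :=
  G2c x 0 * G2c y 0 + G2c x 1 * G2c y 1 + G2c x 2 * G2c y 2 + G2c x 3 * G2c y 3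

private noncomputable def G2f (l : List F4) : VV →ₗ[F4] F4 :=
  G2c l 0 • Finsupp.lapply (1, 0) + G2c l 1 • Finsupp.lapply (2, 0) +
    G2c l 2 • Finsupp.lapply (3, 0) + G2c l 3 • Finsupp.lapply (3, 1)

private theorem G2e (i n k l : ℕ) : e i n (k, l) = if (i, n) = (k, l) then 1 else 0 := by
  unfold e
  rw [Finsupp.single_apply]

private theorem G2f_j (p l : List F4) : G2f p (G2j l) = G2dot p l := by
  simp [G2f, G2j, G2dot, G2e]

private def G2cmb : List F4 → List (List F4) → List F4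
  | c :: cs, d :: D => [c * G2c d 0 + G2c (G2cmb cs D) 0, c * G2c d 1 + G2c (G2cmb cs D) 1,
      c * G2c d 2 + G2c (G2cmb cs D) 2, c * G2c d 3 + G2c (G2cmb cs D) 3]
  | _, _ => [F4.o, F4.o, F4.o, F4.o]

private theorem G2j_zero : G2j [F4.o, F4.o, F4.o, F4.o] = 0 := by
  have h : (F4.o : F4) = 0 := rfl
  simp [G2j, G2c, h]

private theorem G2_cmb (cs : List F4) (D : List (List F4)) :
    G2j (G2cmb cs D) ∈ span F4 (G2j '' {d | d ∈ D}) := by
  induction D generalizing cs with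
  | nil =>
    have : G2cmb cs [] = [F4.o, F4.o, F4.o, F4.o] := by cases cs <;> rfl
    rw [this, G2j_zero]
    exact zero_mem _
  | cons d D ih =>
    cases cs with
    | nil =>
      have : G2cmb [] (d :: D) = [F4.o, F4.o, F4.o, F4.o] := rfl
      rw [this, G2j_zero]
      exact zero_mem _
    | cons c cs =>
      have h1 : G2j (G2cmb (c :: cs) (d :: D)) = c • G2j d + G2j (G2cmb cs D) := by
        simp only [G2cmb, G2j, smul_add, smul_smul]
        have e0 : ∀ a b c d : F4, G2c [a, b, c, d] 0 = a := fun _ _ _ _ => rfl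
        have e1 : ∀ a b c d : F4, G2c [a, b, c, d] 1 = b := fun _ _ _ _ => rfl
        have e2 : ∀ a b c d : F4, G2c [a, b, c, d] 2 = c := fun _ _ _ _ => rfl
        have e3 : ∀ a b c d : F4, G2c [a, b, c, d] 3 = d := fun _ _ _ _ => rfl
        rw [e0, e1, e2, e3]
        simp only [add_smul]
        abel
      rw [h1]
      refine add_mem (smul_mem _ _ (subset_span ⟨d, by simp, rfl⟩)) ?_
      refine span_mono (image_mono ?_) (ih cs)
      intro x hx
      exact List.mem_cons_of_mem _ hx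

private def G2eqb (l m : List F4) : Bool :=
  G2c l 0 == G2c m 0 && G2c l 1 == G2c m 1 && G2c l 2 == G2c m 2 && G2c l 3 == G2c m 3

private theorem G2_eqb {l m : List F4} (h : G2eqb l m = true) : G2j l = G2j m := by
  simp only [G2eqb, Bool.and_eq_true, beq_iff_eq] at h
  rw [G2j, G2j, h.1.1.1, h.1.1.2, h.1.2, h.2]

private def G2sc (s : F4) (l : List F4) : List F4 :=
  [s * G2c l 0, s * G2c l 1, s * G2c l 2, s * G2c l 3]

private theorem G2j_sc (s : F4) (l : List F4) : G2j (G2sc s l) = s • G2j l := by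
  simp only [G2sc, G2j, smul_add, smul_smul]
  rfl

private abbrev G2T : Type := List F4 × List (List (List F4) × List F4 × List (List F4))

private def G2chk1 (Bl : List (List F4)) (q : G2T) : Bool :=
  q.2.length != 0 && q.2.all (fun t => t.1.all (fun d => Bl.contains d) &&
    G2eqb (G2cmb t.2.1 t.1) q.1 && t.2.2.all (fun p => t.1.all (fun d => G2dot p d == F4.o)))

private def G2chk2 (q q' : G2T) : Bool :=
  [F4.i, F4.w, F4.v].any (fun s => G2eqb (G2sc s q.1) q'.1) ||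
    q.2.any (fun t => t.2.2.any (fun p => G2dot p q'.1 != F4.o)) ||
    q'.2.any (fun t => t.2.2.any (fun p => G2dot p q.1 != F4.o))

private def G2dat (a b : Bool) : List G2T :=
  match a, b with
  | false, false =>
    [([F4.o, F4.o, F4.i, F4.o],
      [([[F4.i, F4.o, F4.o, F4.o], [F4.i, F4.o, F4.i, F4.o]], [F4.i, F4.i],
          [[F4.o, F4.i, F4.o, F4.i], [F4.o, F4.o, F4.o, F4.i]])]),
     ([F4.o, F4.o, F4.o, F4.i],
      [([[F4.o, F4.i, F4.o, F4.o], [F4.o, F4.i, F4.o, F4.v]], [F4.w, F4.w],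
          [[F4.i, F4.o, F4.i, F4.o], [F4.o, F4.o, F4.i, F4.o]])]),
     ([F4.o, F4.i, F4.i, F4.i],
      [([[F4.o, F4.i, F4.o, F4.o], [F4.o, F4.o, F4.i, F4.i]], [F4.i, F4.i],
          [[F4.i, F4.o, F4.w, F4.w]])]),
     ([F4.o, F4.i, F4.i, F4.w],
      [([[F4.o, F4.i, F4.o, F4.o], [F4.o, F4.o, F4.i, F4.w]], [F4.i, F4.i],
          [[F4.i, F4.o, F4.v, F4.w]])]),
     ([F4.o, F4.i, F4.i, F4.v],
      [([[F4.i, F4.o, F4.o, F4.o], [F4.i, F4.o, F4.i, F4.o], [F4.o, F4.i, F4.o, F4.v]], [F4.i, F4.i, F4.i],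
          [[F4.o, F4.i, F4.o, F4.w]])]),
     ([F4.o, F4.w, F4.i, F4.o],
      [([[F4.o, F4.i, F4.o, F4.v], [F4.o, F4.o, F4.i, F4.i]], [F4.w, F4.i],
          [[F4.i, F4.i, F4.w, F4.w]]),
        ([[F4.i, F4.o, F4.o, F4.o], [F4.o, F4.i, F4.o, F4.o], [F4.i, F4.o, F4.i, F4.o]], [F4.i, F4.w, F4.i],
          [[F4.o, F4.o, F4.o, F4.i]])]),
     ([F4.o, F4.v, F4.i, F4.o],
      [([[F4.o, F4.i, F4.o, F4.v], [F4.o, F4.o, F4.i, F4.w]], [F4.v, F4.i],
          [[F4.i, F4.i, F4.v, F4.w]]),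
        ([[F4.i, F4.o, F4.o, F4.o], [F4.o, F4.i, F4.o, F4.o], [F4.i, F4.o, F4.i, F4.o]], [F4.i, F4.v, F4.i],
          [[F4.o, F4.o, F4.o, F4.i]])]),
     ([F4.i, F4.o, F4.w, F4.v],
      [([[F4.i, F4.o, F4.o, F4.o], [F4.o, F4.o, F4.i, F4.w]], [F4.i, F4.w],
          [[F4.o, F4.i, F4.i, F4.v]])]),
     ([F4.i, F4.o, F4.v, F4.v],
      [([[F4.i, F4.o, F4.o, F4.o], [F4.o, F4.o, F4.i, F4.i]], [F4.i, F4.v],
          [[F4.o, F4.i, F4.i, F4.i]])]),
     ([F4.i, F4.o, F4.i, F4.v],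
      [([[F4.o, F4.i, F4.o, F4.o], [F4.i, F4.o, F4.i, F4.o], [F4.o, F4.i, F4.o, F4.v]], [F4.i, F4.i, F4.i],
          [[F4.i, F4.o, F4.i, F4.o]])]),
     ([F4.i, F4.o, F4.o, F4.w],
      [([[F4.i, F4.o, F4.i, F4.o], [F4.o, F4.o, F4.i, F4.w]], [F4.i, F4.i],
          [[F4.i, F4.i, F4.i, F4.v]]),
        ([[F4.i, F4.o, F4.o, F4.o], [F4.o, F4.i, F4.o, F4.o], [F4.o, F4.i, F4.o, F4.v]], [F4.i, F4.v, F4.v],
          [[F4.o, F4.o, F4.i, F4.o]])]),
     ([F4.i, F4.o, F4.o, F4.i],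
      [([[F4.i, F4.o, F4.i, F4.o], [F4.o, F4.o, F4.i, F4.i]], [F4.i, F4.i],
          [[F4.i, F4.i, F4.i, F4.i]]),
        ([[F4.i, F4.o, F4.o, F4.o], [F4.o, F4.i, F4.o, F4.o], [F4.o, F4.i, F4.o, F4.v]], [F4.i, F4.w, F4.w],
          [[F4.o, F4.o, F4.i, F4.o]])])]
  | false, true =>
    [([F4.o, F4.o, F4.i, F4.o],
      [([[F4.i, F4.o, F4.o, F4.o], [F4.i, F4.o, F4.i, F4.o]], [F4.i, F4.i],
          [[F4.o, F4.o, F4.o, F4.i]])]),
     ([F4.o, F4.o, F4.o, F4.i],
      [([[F4.o, F4.o, F4.o, F4.i]], [F4.i],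
          [[F4.i, F4.o, F4.o, F4.o], [F4.o, F4.o, F4.i, F4.o]])]),
     ([F4.i, F4.o, F4.w, F4.v],
      [([[F4.i, F4.o, F4.o, F4.o], [F4.o, F4.o, F4.i, F4.w]], [F4.i, F4.w],
          [[F4.o, F4.o, F4.i, F4.v]])]),
     ([F4.i, F4.o, F4.v, F4.v],
      [([[F4.i, F4.o, F4.o, F4.o], [F4.o, F4.o, F4.i, F4.i]], [F4.i, F4.v],
          [[F4.o, F4.o, F4.i, F4.i]])]),
     ([F4.i, F4.o, F4.i, F4.v],
      [([[F4.i, F4.o, F4.i, F4.o], [F4.o, F4.o, F4.o, F4.i]], [F4.i, F4.v],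
          [[F4.i, F4.o, F4.i, F4.o]])]),
     ([F4.i, F4.o, F4.o, F4.w],
      [([[F4.i, F4.o, F4.i, F4.o], [F4.o, F4.o, F4.i, F4.w]], [F4.i, F4.i],
          [[F4.i, F4.o, F4.i, F4.v]]),
        ([[F4.i, F4.o, F4.o, F4.o], [F4.o, F4.o, F4.o, F4.i]], [F4.i, F4.w],
          [[F4.o, F4.o, F4.i, F4.o]])]),
     ([F4.i, F4.o, F4.o, F4.i],
      [([[F4.i, F4.o, F4.i, F4.o], [F4.o, F4.o, F4.i, F4.i]], [F4.i, F4.i],
          [[F4.i, F4.o, F4.i, F4.i]]),
        ([[F4.i, F4.o, F4.o, F4.o], [F4.o, F4.o, F4.o, F4.i]], [F4.i, F4.i],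
          [[F4.o, F4.o, F4.i, F4.o]])])]
  | true, false =>
    [([F4.o, F4.o, F4.i, F4.o],
      [([[F4.o, F4.o, F4.i, F4.o]], [F4.i],
          [[F4.o, F4.i, F4.o, F4.o], [F4.o, F4.o, F4.o, F4.i]])]),
     ([F4.o, F4.o, F4.o, F4.i],
      [([[F4.o, F4.i, F4.o, F4.o], [F4.o, F4.i, F4.o, F4.v]], [F4.w, F4.w],
          [[F4.o, F4.o, F4.i, F4.o]])]),
     ([F4.o, F4.i, F4.i, F4.i],
      [([[F4.o, F4.i, F4.o, F4.o], [F4.o, F4.o, F4.i, F4.i]], [F4.i, F4.i],
          [[F4.o, F4.o, F4.i, F4.i]])]),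
     ([F4.o, F4.i, F4.i, F4.w],
      [([[F4.o, F4.i, F4.o, F4.o], [F4.o, F4.o, F4.i, F4.w]], [F4.i, F4.i],
          [[F4.o, F4.o, F4.i, F4.v]])]),
     ([F4.o, F4.i, F4.i, F4.v],
      [([[F4.o, F4.i, F4.o, F4.v], [F4.o, F4.o, F4.i, F4.o]], [F4.i, F4.i],
          [[F4.o, F4.i, F4.o, F4.w]])]),
     ([F4.o, F4.w, F4.i, F4.o],
      [([[F4.o, F4.i, F4.o, F4.v], [F4.o, F4.o, F4.i, F4.i]], [F4.w, F4.i],
          [[F4.o, F4.i, F4.w, F4.w]]),
        ([[F4.o, F4.i, F4.o, F4.o], [F4.o, F4.o, F4.i, F4.o]], [F4.w, F4.i],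
          [[F4.o, F4.o, F4.o, F4.i]])]),
     ([F4.o, F4.v, F4.i, F4.o],
      [([[F4.o, F4.i, F4.o, F4.v], [F4.o, F4.o, F4.i, F4.w]], [F4.v, F4.i],
          [[F4.o, F4.i, F4.v, F4.w]]),
        ([[F4.o, F4.i, F4.o, F4.o], [F4.o, F4.o, F4.i, F4.o]], [F4.v, F4.i],
          [[F4.o, F4.o, F4.o, F4.i]])])]
  | true, true =>
    [([F4.o, F4.o, F4.i, F4.o],
      [([[F4.o, F4.o, F4.i, F4.o]], [F4.i],
          [[F4.o, F4.o, F4.o, F4.i]])]),
     ([F4.o, F4.o, F4.o, F4.i],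
      [([[F4.o, F4.o, F4.o, F4.i]], [F4.i],
          [[F4.o, F4.o, F4.i, F4.o]])])]

private def G2B (a b : Bool) : List (List F4) :=
  match a, b with
  | false, false => [[F4.i, F4.o, F4.o, F4.o], [F4.o, F4.i, F4.o, F4.o], [F4.i, F4.o, F4.i, F4.o], [F4.o, F4.i, F4.o, F4.v], [F4.o, F4.o, F4.i, F4.i], [F4.o, F4.o, F4.i, F4.w]]
  | false, true => [[F4.i, F4.o, F4.o, F4.o], [F4.o, F4.i, F4.o, F4.o], [F4.i, F4.o, F4.i, F4.o], [F4.o, F4.i, F4.o, F4.v], [F4.o, F4.o, F4.i, F4.i], [F4.o, F4.o, F4.i, F4.w], [F4.o, F4.o, F4.o, F4.i]]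
  | true, false => [[F4.i, F4.o, F4.o, F4.o], [F4.o, F4.i, F4.o, F4.o], [F4.i, F4.o, F4.i, F4.o], [F4.o, F4.i, F4.o, F4.v], [F4.o, F4.o, F4.i, F4.i], [F4.o, F4.o, F4.i, F4.w], [F4.o, F4.o, F4.i, F4.o]]
  | true, true => [[F4.i, F4.o, F4.o, F4.o], [F4.o, F4.i, F4.o, F4.o], [F4.i, F4.o, F4.i, F4.o], [F4.o, F4.i, F4.o, F4.v], [F4.o, F4.o, F4.i, F4.i], [F4.o, F4.o, F4.i, F4.w], [F4.o, F4.o, F4.i, F4.o], [F4.o, F4.o, F4.o, F4.i]]

private theorem G2_c1 : ∀ a b : Bool, (G2dat a b).all (G2chk1 (G2B a b)) = true := by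
  decide +kernel

private theorem G2_c2 : ∀ a b : Bool,
    (G2dat a b).all (fun q => (G2dat a b).all (fun q' => G2chk2 q q')) = true := by
  decide +kernel

private theorem G2o (x : VV) : F4.o • x = 0 := by
  have h : (F4.o : F4) = 0 := rfl
  rw [h, zero_smul]

private theorem G2i (x : VV) : F4.i • x = x := by
  have h : (F4.i : F4) = 1 := rfl
  rw [h, one_smul]

private theorem G2j_eq (a b c d : F4) :
    G2j [a, b, c, d] = a • e 1 0 + b • e 2 0 + c • e 3 0 + d • e 3 1 := rfl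

private theorem G2_A00 : ∀ x ∈ SMA false false, ∃ q ∈ G2dat false false, x = G2j q.1 := by
  intro x hx
  simp only [SMA, SXa, SXb, bs, mem_union, mem_insert_iff, mem_singleton_iff, mem_ofPred_eq,
    Bool.not_false, Bool.not_true, true_and, Bool.false_eq_true, false_and, or_false] at hx
  rcases hx with (((rfl | rfl) | (rfl | rfl | rfl | rfl | rfl)) | (rfl | rfl | rfl | rfl | rfl))
  · refine ⟨_, List.getElem_mem (l := G2dat false false) (n := 0) (by decide), ?_⟩
    change _ = G2j [F4.o, F4.o, F4.i, F4.o]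
    rw [G2j_eq]
    simp only [G2o, G2i, add_zero, zero_add] <;> abel
  · refine ⟨_, List.getElem_mem (l := G2dat false false) (n := 1) (by decide), ?_⟩
    change _ = G2j [F4.o, F4.o, F4.o, F4.i]
    rw [G2j_eq]
    simp only [G2o, G2i, add_zero, zero_add] <;> abel
  · refine ⟨_, List.getElem_mem (l := G2dat false false) (n := 2) (by decide), ?_⟩
    change _ = G2j [F4.o, F4.i, F4.i, F4.i]
    rw [G2j_eq]
    simp only [G2o, G2i, add_zero, zero_add] <;> abel
  · refine ⟨_, List.getElem_mem (l := G2dat false false) (n := 3) (by decide), ?_⟩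
    change _ = G2j [F4.o, F4.i, F4.i, F4.w]
    rw [G2j_eq]
    simp only [G2o, G2i, add_zero, zero_add] <;> abel
  · refine ⟨_, List.getElem_mem (l := G2dat false false) (n := 4) (by decide), ?_⟩
    change _ = G2j [F4.o, F4.i, F4.i, F4.v]
    rw [G2j_eq]
    simp only [G2o, G2i, add_zero, zero_add] <;> abel
  · refine ⟨_, List.getElem_mem (l := G2dat false false) (n := 5) (by decide), ?_⟩
    change _ = G2j [F4.o, F4.w, F4.i, F4.o]
    rw [G2j_eq]
    simp only [G2o, G2i, add_zero, zero_add] <;> abel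
  · refine ⟨_, List.getElem_mem (l := G2dat false false) (n := 6) (by decide), ?_⟩
    change _ = G2j [F4.o, F4.v, F4.i, F4.o]
    rw [G2j_eq]
    simp only [G2o, G2i, add_zero, zero_add] <;> abel
  · refine ⟨_, List.getElem_mem (l := G2dat false false) (n := 7) (by decide), ?_⟩
    change _ = G2j [F4.i, F4.o, F4.w, F4.v]
    rw [G2j_eq]
    simp only [G2o, G2i, add_zero, zero_add] <;> abel
  · refine ⟨_, List.getElem_mem (l := G2dat false false) (n := 8) (by decide), ?_⟩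
    change _ = G2j [F4.i, F4.o, F4.v, F4.v]
    rw [G2j_eq]
    simp only [G2o, G2i, add_zero, zero_add] <;> abel
  · refine ⟨_, List.getElem_mem (l := G2dat false false) (n := 9) (by decide), ?_⟩
    change _ = G2j [F4.i, F4.o, F4.i, F4.v]
    rw [G2j_eq]
    simp only [G2o, G2i, add_zero, zero_add] <;> abel
  · refine ⟨_, List.getElem_mem (l := G2dat false false) (n := 10) (by decide), ?_⟩
    change _ = G2j [F4.i, F4.o, F4.o, F4.w]
    rw [G2j_eq]
    simp only [G2o, G2i, add_zero, zero_add] <;> abel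
  · refine ⟨_, List.getElem_mem (l := G2dat false false) (n := 11) (by decide), ?_⟩
    change _ = G2j [F4.i, F4.o, F4.o, F4.i]
    rw [G2j_eq]
    simp only [G2o, G2i, add_zero, zero_add] <;> abel

private theorem G2_A01 : ∀ x ∈ SMA false true, ∃ q ∈ G2dat false true, x = G2j q.1 := by
  intro x hx
  simp only [SMA, SXa, SXb, bs, mem_union, mem_insert_iff, mem_singleton_iff, mem_ofPred_eq,
    Bool.not_false, Bool.not_true, true_and, Bool.false_eq_true, false_and, or_false] at hx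
  rcases hx with ((rfl | rfl) | (rfl | rfl | rfl | rfl | rfl))
  · refine ⟨_, List.getElem_mem (l := G2dat false true) (n := 0) (by decide), ?_⟩
    change _ = G2j [F4.o, F4.o, F4.i, F4.o]
    rw [G2j_eq]
    simp only [G2o, G2i, add_zero, zero_add] <;> abel
  · refine ⟨_, List.getElem_mem (l := G2dat false true) (n := 1) (by decide), ?_⟩
    change _ = G2j [F4.o, F4.o, F4.o, F4.i]
    rw [G2j_eq]
    simp only [G2o, G2i, add_zero, zero_add] <;> abel
  · refine ⟨_, List.getElem_mem (l := G2dat false true) (n := 2) (by decide), ?_⟩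
    change _ = G2j [F4.i, F4.o, F4.w, F4.v]
    rw [G2j_eq]
    simp only [G2o, G2i, add_zero, zero_add] <;> abel
  · refine ⟨_, List.getElem_mem (l := G2dat false true) (n := 3) (by decide), ?_⟩
    change _ = G2j [F4.i, F4.o, F4.v, F4.v]
    rw [G2j_eq]
    simp only [G2o, G2i, add_zero, zero_add] <;> abel
  · refine ⟨_, List.getElem_mem (l := G2dat false true) (n := 4) (by decide), ?_⟩
    change _ = G2j [F4.i, F4.o, F4.i, F4.v]
    rw [G2j_eq]
    simp only [G2o, G2i, add_zero, zero_add] <;> abel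
  · refine ⟨_, List.getElem_mem (l := G2dat false true) (n := 5) (by decide), ?_⟩
    change _ = G2j [F4.i, F4.o, F4.o, F4.w]
    rw [G2j_eq]
    simp only [G2o, G2i, add_zero, zero_add] <;> abel
  · refine ⟨_, List.getElem_mem (l := G2dat false true) (n := 6) (by decide), ?_⟩
    change _ = G2j [F4.i, F4.o, F4.o, F4.i]
    rw [G2j_eq]
    simp only [G2o, G2i, add_zero, zero_add] <;> abel

private theorem G2_A10 : ∀ x ∈ SMA true false, ∃ q ∈ G2dat true false, x = G2j q.1 := by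
  intro x hx
  simp only [SMA, SXa, SXb, bs, mem_union, mem_insert_iff, mem_singleton_iff, mem_ofPred_eq,
    Bool.not_false, Bool.not_true, true_and, Bool.false_eq_true, false_and, or_false] at hx
  rcases hx with ((rfl | rfl) | (rfl | rfl | rfl | rfl | rfl))
  · refine ⟨_, List.getElem_mem (l := G2dat true false) (n := 0) (by decide), ?_⟩
    change _ = G2j [F4.o, F4.o, F4.i, F4.o]
    rw [G2j_eq]
    simp only [G2o, G2i, add_zero, zero_add] <;> abel
  · refine ⟨_, List.getElem_mem (l := G2dat true false) (n := 1) (by decide), ?_⟩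
    change _ = G2j [F4.o, F4.o, F4.o, F4.i]
    rw [G2j_eq]
    simp only [G2o, G2i, add_zero, zero_add] <;> abel
  · refine ⟨_, List.getElem_mem (l := G2dat true false) (n := 2) (by decide), ?_⟩
    change _ = G2j [F4.o, F4.i, F4.i, F4.i]
    rw [G2j_eq]
    simp only [G2o, G2i, add_zero, zero_add] <;> abel
  · refine ⟨_, List.getElem_mem (l := G2dat true false) (n := 3) (by decide), ?_⟩
    change _ = G2j [F4.o, F4.i, F4.i, F4.w]
    rw [G2j_eq]
    simp only [G2o, G2i, add_zero, zero_add] <;> abel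
  · refine ⟨_, List.getElem_mem (l := G2dat true false) (n := 4) (by decide), ?_⟩
    change _ = G2j [F4.o, F4.i, F4.i, F4.v]
    rw [G2j_eq]
    simp only [G2o, G2i, add_zero, zero_add] <;> abel
  · refine ⟨_, List.getElem_mem (l := G2dat true false) (n := 5) (by decide), ?_⟩
    change _ = G2j [F4.o, F4.w, F4.i, F4.o]
    rw [G2j_eq]
    simp only [G2o, G2i, add_zero, zero_add] <;> abel
  · refine ⟨_, List.getElem_mem (l := G2dat true false) (n := 6) (by decide), ?_⟩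
    change _ = G2j [F4.o, F4.v, F4.i, F4.o]
    rw [G2j_eq]
    simp only [G2o, G2i, add_zero, zero_add] <;> abel

private theorem G2_A11 : ∀ x ∈ SMA true true, ∃ q ∈ G2dat true true, x = G2j q.1 := by
  intro x hx
  simp only [SMA, SXa, SXb, bs, mem_union, mem_insert_iff, mem_singleton_iff, mem_ofPred_eq,
    Bool.not_false, Bool.not_true, true_and, Bool.false_eq_true, false_and, or_false] at hx
  rcases hx with (rfl | rfl)
  · refine ⟨_, List.getElem_mem (l := G2dat true true) (n := 0) (by decide), ?_⟩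
    change _ = G2j [F4.o, F4.o, F4.i, F4.o]
    rw [G2j_eq]
    simp only [G2o, G2i, add_zero, zero_add] <;> abel
  · refine ⟨_, List.getElem_mem (l := G2dat true true) (n := 1) (by decide), ?_⟩
    change _ = G2j [F4.o, F4.o, F4.o, F4.i]
    rw [G2j_eq]
    simp only [G2o, G2i, add_zero, zero_add] <;> abel

private theorem G2_B00 : ∀ d ∈ G2B false false, G2j d ∈ SMB false false := by
  intro x hx
  simp only [G2B, List.mem_cons, List.not_mem_nil, or_false] at hx
  rcases hx with rfl | rfl | rfl | rfl | rfl | rfl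
  · have h1 : G2j [F4.i, F4.o, F4.o, F4.o] = e 1 0 := by
      rw [G2j_eq]
      simp only [G2o, G2i, add_zero, zero_add] <;> abel
    rw [h1]
    simp [SMB, bs]
  · have h1 : G2j [F4.o, F4.i, F4.o, F4.o] = e 2 0 := by
      rw [G2j_eq]
      simp only [G2o, G2i, add_zero, zero_add] <;> abel
    rw [h1]
    simp [SMB, bs]
  · have h1 : G2j [F4.i, F4.o, F4.i, F4.o] = e 3 0 + e 1 0 := by
      rw [G2j_eq]
      simp only [G2o, G2i, add_zero, zero_add] <;> abel
    rw [h1]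
    simp [SMB, bs]
  · have h1 : G2j [F4.o, F4.i, F4.o, F4.v] = e 2 0 + F4.v • e 3 1 := by
      rw [G2j_eq]
      simp only [G2o, G2i, add_zero, zero_add] <;> abel
    rw [h1]
    simp [SMB, bs]
  · have h1 : G2j [F4.o, F4.o, F4.i, F4.i] = e 3 0 + e 3 1 := by
      rw [G2j_eq]
      simp only [G2o, G2i, add_zero, zero_add] <;> abel
    rw [h1]
    simp [SMB, bs]
  · have h1 : G2j [F4.o, F4.o, F4.i, F4.w] = e 3 0 + F4.w • e 3 1 := by
      rw [G2j_eq]
      simp only [G2o, G2i, add_zero, zero_add] <;> abel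
    rw [h1]
    simp [SMB, bs]

private theorem G2_B01 : ∀ d ∈ G2B false true, G2j d ∈ SMB false true := by
  intro x hx
  simp only [G2B, List.mem_cons, List.not_mem_nil, or_false] at hx
  rcases hx with rfl | rfl | rfl | rfl | rfl | rfl | rfl
  · have h1 : G2j [F4.i, F4.o, F4.o, F4.o] = e 1 0 := by
      rw [G2j_eq]
      simp only [G2o, G2i, add_zero, zero_add] <;> abel
    rw [h1]
    simp [SMB, bs]
  · have h1 : G2j [F4.o, F4.i, F4.o, F4.o] = e 2 0 := by
      rw [G2j_eq]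
      simp only [G2o, G2i, add_zero, zero_add] <;> abel
    rw [h1]
    simp [SMB, bs]
  · have h1 : G2j [F4.i, F4.o, F4.i, F4.o] = e 3 0 + e 1 0 := by
      rw [G2j_eq]
      simp only [G2o, G2i, add_zero, zero_add] <;> abel
    rw [h1]
    simp [SMB, bs]
  · have h1 : G2j [F4.o, F4.i, F4.o, F4.v] = e 2 0 + F4.v • e 3 1 := by
      rw [G2j_eq]
      simp only [G2o, G2i, add_zero, zero_add] <;> abel
    rw [h1]
    simp [SMB, bs]
  · have h1 : G2j [F4.o, F4.o, F4.i, F4.i] = e 3 0 + e 3 1 := by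
      rw [G2j_eq]
      simp only [G2o, G2i, add_zero, zero_add] <;> abel
    rw [h1]
    simp [SMB, bs]
  · have h1 : G2j [F4.o, F4.o, F4.i, F4.w] = e 3 0 + F4.w • e 3 1 := by
      rw [G2j_eq]
      simp only [G2o, G2i, add_zero, zero_add] <;> abel
    rw [h1]
    simp [SMB, bs]
  · have h1 : G2j [F4.o, F4.o, F4.o, F4.i] = e 3 1 := by
      rw [G2j_eq]
      simp only [G2o, G2i, add_zero, zero_add] <;> abel
    rw [h1]
    simp [SMB, bs]

private theorem G2_B10 : ∀ d ∈ G2B true false, G2j d ∈ SMB true false := by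
  intro x hx
  simp only [G2B, List.mem_cons, List.not_mem_nil, or_false] at hx
  rcases hx with rfl | rfl | rfl | rfl | rfl | rfl | rfl
  · have h1 : G2j [F4.i, F4.o, F4.o, F4.o] = e 1 0 := by
      rw [G2j_eq]
      simp only [G2o, G2i, add_zero, zero_add] <;> abel
    rw [h1]
    simp [SMB, bs]
  · have h1 : G2j [F4.o, F4.i, F4.o, F4.o] = e 2 0 := by
      rw [G2j_eq]
      simp only [G2o, G2i, add_zero, zero_add] <;> abel
    rw [h1]
    simp [SMB, bs]
  · have h1 : G2j [F4.i, F4.o, F4.i, F4.o] = e 3 0 + e 1 0 := by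
      rw [G2j_eq]
      simp only [G2o, G2i, add_zero, zero_add] <;> abel
    rw [h1]
    simp [SMB, bs]
  · have h1 : G2j [F4.o, F4.i, F4.o, F4.v] = e 2 0 + F4.v • e 3 1 := by
      rw [G2j_eq]
      simp only [G2o, G2i, add_zero, zero_add] <;> abel
    rw [h1]
    simp [SMB, bs]
  · have h1 : G2j [F4.o, F4.o, F4.i, F4.i] = e 3 0 + e 3 1 := by
      rw [G2j_eq]
      simp only [G2o, G2i, add_zero, zero_add] <;> abel
    rw [h1]
    simp [SMB, bs]
  · have h1 : G2j [F4.o, F4.o, F4.i, F4.w] = e 3 0 + F4.w • e 3 1 := by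
      rw [G2j_eq]
      simp only [G2o, G2i, add_zero, zero_add] <;> abel
    rw [h1]
    simp [SMB, bs]
  · have h1 : G2j [F4.o, F4.o, F4.i, F4.o] = e 3 0 := by
      rw [G2j_eq]
      simp only [G2o, G2i, add_zero, zero_add] <;> abel
    rw [h1]
    simp [SMB, bs]

private theorem G2_B11 : ∀ d ∈ G2B true true, G2j d ∈ SMB true true := by
  intro x hx
  simp only [G2B, List.mem_cons, List.not_mem_nil, or_false] at hx
  rcases hx with rfl | rfl | rfl | rfl | rfl | rfl | rfl | rfl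
  · have h1 : G2j [F4.i, F4.o, F4.o, F4.o] = e 1 0 := by
      rw [G2j_eq]
      simp only [G2o, G2i, add_zero, zero_add] <;> abel
    rw [h1]
    simp [SMB, bs]
  · have h1 : G2j [F4.o, F4.i, F4.o, F4.o] = e 2 0 := by
      rw [G2j_eq]
      simp only [G2o, G2i, add_zero, zero_add] <;> abel
    rw [h1]
    simp [SMB, bs]
  · have h1 : G2j [F4.i, F4.o, F4.i, F4.o] = e 3 0 + e 1 0 := by
      rw [G2j_eq]
      simp only [G2o, G2i, add_zero, zero_add] <;> abel
    rw [h1]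
    simp [SMB, bs]
  · have h1 : G2j [F4.o, F4.i, F4.o, F4.v] = e 2 0 + F4.v • e 3 1 := by
      rw [G2j_eq]
      simp only [G2o, G2i, add_zero, zero_add] <;> abel
    rw [h1]
    simp [SMB, bs]
  · have h1 : G2j [F4.o, F4.o, F4.i, F4.i] = e 3 0 + e 3 1 := by
      rw [G2j_eq]
      simp only [G2o, G2i, add_zero, zero_add] <;> abel
    rw [h1]
    simp [SMB, bs]
  · have h1 : G2j [F4.o, F4.o, F4.i, F4.w] = e 3 0 + F4.w • e 3 1 := by
      rw [G2j_eq]
      simp only [G2o, G2i, add_zero, zero_add] <;> abel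
    rw [h1]
    simp [SMB, bs]
  · have h1 : G2j [F4.o, F4.o, F4.i, F4.o] = e 3 0 := by
      rw [G2j_eq]
      simp only [G2o, G2i, add_zero, zero_add] <;> abel
    rw [h1]
    simp [SMB, bs]
  · have h1 : G2j [F4.o, F4.o, F4.o, F4.i] = e 3 1 := by
      rw [G2j_eq]
      simp only [G2o, G2i, add_zero, zero_add] <;> abel
    rw [h1]
    simp [SMB, bs]

private theorem G2_A (a b : Bool) : ∀ x ∈ SMA a b, ∃ q ∈ G2dat a b, x = G2j q.1 := by
  cases a <;> cases b
  · exact G2_A00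
  · exact G2_A01
  · exact G2_A10
  · exact G2_A11

private theorem G2_B (a b : Bool) : ∀ d ∈ G2B a b, G2j d ∈ SMB a b := by
  cases a <;> cases b
  · exact G2_B00
  · exact G2_B01
  · exact G2_B10
  · exact G2_B11

private theorem G2f_span {p : List F4} {D : List (List F4)} (h : ∀ d ∈ D, G2dot p d = 0) {x : VV}
    (hx : x ∈ span F4 (G2j '' {d | d ∈ D})) : G2f p x = 0 := by
  have : span F4 (G2j '' {d | d ∈ D}) ≤ LinearMap.ker (G2f p) := by
    rw [span_le]
    rintro _ ⟨d, hd, rfl⟩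
    rw [SetLike.mem_coe, LinearMap.mem_ker, G2f_j, h d hd]
  exact this hx

private theorem G2_sep (a b : Bool) {x x' : VV} (hx : x ∈ SMA a b) (hx' : x' ∈ SMA a b)
    (h : ∀ D, D ⊆ SMB a b → (x ∈ span F4 D ↔ x' ∈ span F4 D)) :
    span F4 {x} = span F4 {x'} := by
  obtain ⟨q, hq, rfl⟩ := G2_A a b x hx
  obtain ⟨q', hq', rfl⟩ := G2_A a b x' hx'
  have c1 := G2_c1 a b
  have c2 := G2_c2 a b
  rw [List.all_eq_true] at c1 c2
  have c3 := c2 q hq
  rw [List.all_eq_true] at c3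
  have c4 := c3 q' hq'
  have key : ∀ q ∈ G2dat a b, ∀ t ∈ q.2, (G2j q.1 ∈ span F4 (G2j '' {d | d ∈ t.1})) ∧
      (G2j '' {d | d ∈ t.1} ⊆ SMB a b) ∧ ∀ p ∈ t.2.2, ∀ d ∈ t.1, G2dot p d = 0 := by
    intro q hq t ht
    have h1 := c1 q hq
    simp only [G2chk1, Bool.and_eq_true, List.all_eq_true] at h1
    obtain ⟨⟨h2, h3⟩, h4⟩ := h1.2 t ht
    refine ⟨?_, ?_, ?_⟩
    · rw [← G2_eqb h3]
      exact G2_cmb _ _
    · rintro _ ⟨d, hd, rfl⟩
      refine G2_B a b d ?_
      have := h2 d hd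
      simpa using this
    · intro p hp d hd
      have := h4 p hp d hd
      exact beq_iff_eq.1 this
  simp only [G2chk2, Bool.or_eq_true, List.any_eq_true] at c4
  rcases c4 with (⟨s, hs, h1⟩ | ⟨t, ht, p, hp, h1⟩) | ⟨t, ht, p, hp, h1⟩
  · have h2 := G2_eqb h1
    rw [G2j_sc] at h2
    have hs0 : s ≠ 0 := by
      simp only [List.mem_cons, List.not_mem_nil, or_false] at hs
      rcases hs with rfl | rfl | rfl <;> decide
    rw [← h2]
    exact (span_singleton_smul_eq (IsUnit.mk0 s hs0) _).symm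
  · exfalso
    obtain ⟨k1, k2, k3⟩ := key q hq t ht
    have h2 := (h _ k2).1 k1
    have h3 := G2f_span (k3 p hp) h2
    rw [G2f_j] at h3
    rw [h3] at h1
    exact absurd h1 (by decide)
  · exfalso
    obtain ⟨k1, k2, k3⟩ := key q' hq' t ht
    have h2 := (h _ k2).2 k1
    have h3 := G2f_span (k3 p hp) h2
    rw [G2f_j] at h3
    rw [h3] at h1
    exact absurd h1 (by decide)

private theorem G2_sp (a b : Bool) {x : VV} (hx : x ∈ SMA a b) : x ∈ span F4 (SMB a b) := by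
  obtain ⟨q, hq, rfl⟩ := G2_A a b x hx
  have c1 := G2_c1 a b
  rw [List.all_eq_true] at c1
  have h1 := c1 q hq
  simp only [G2chk1, Bool.and_eq_true, List.all_eq_true] at h1
  have h0 : q.2 ≠ [] := by
    intro h
    have := h1.1
    rw [h] at this
    exact absurd this (by decide)
  obtain ⟨t, T, hT⟩ := List.exists_cons_of_ne_nil h0
  have ht : t ∈ q.2 := by rw [hT]; simp
  obtain ⟨⟨h2, h3⟩, _⟩ := h1.2 t ht
  rw [← G2_eqb h3]
  refine span_mono ?_ (G2_cmb _ _)
  rintro _ ⟨d, hd, rfl⟩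
  refine G2_B a b d ?_
  have := h2 d hd
  simpa using this

/-- all lists of length four with the first two entries one -/
private theorem G2_ab (a b : Bool) : ∀ x ∈ SMB a b ∪ SMA a b, ∀ s : F4,
    e 1 0 + e 2 0 + s • x ∉ (⊥ : Submodule F4 VV) := by
  intro x hx s h0
  rw [Submodule.mem_bot] at h0
  have h1 := congrArg (fun z : VV => z (1, 0)) h0
  have h2 := congrArg (fun z : VV => z (2, 0)) h0
  have h3 : x (1, 0) = 0 ∨ x (2, 0) = 0 := by
    rcases hx with hx | hx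
    · simp only [SMB, bs, mem_union, mem_insert_iff, mem_singleton_iff, mem_ofPred_eq] at hx
      rcases hx with ((rfl | rfl | rfl | rfl | rfl | rfl) | ⟨_, rfl⟩) | ⟨_, rfl⟩ <;> simp [G2e]
    · simp only [SMA, SXa, SXb, bs, mem_union, mem_insert_iff, mem_singleton_iff,
        mem_ofPred_eq] at hx
      rcases hx with ((rfl | rfl) | ⟨_, (rfl | rfl | rfl | rfl | rfl)⟩) |
        ⟨_, (rfl | rfl | rfl | rfl | rfl)⟩ <;> simp [G2e]
  simp only [Finsupp.add_apply, Finsupp.smul_apply, Finsupp.zero_apply, G2e] at h1 h2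
  rcases h3 with h3 | h3
  · rw [h3] at h1
    simp at h1
  · rw [h3] at h2
    simp at h2

private theorem G2_base (a b : Bool) : ∀ x ∈ SMB a b ∪ SMA a b, x ∈ Base {0} := by
  intro x hx i hi n hn
  rw [Finset.mem_singleton] at hi
  subst hi
  rcases hx with hx | hx
  · simp only [SMB, bs, mem_union, mem_insert_iff, mem_singleton_iff, mem_ofPred_eq] at hx
    rcases hx with ((rfl | rfl | rfl | rfl | rfl | rfl) | ⟨_, rfl⟩) | ⟨_, rfl⟩ <;> simp [G2e]
  · simp only [SMA, SXa, SXb, bs, mem_union, mem_insert_iff, mem_singleton_iff,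
      mem_ofPred_eq] at hx
    rcases hx with ((rfl | rfl) | ⟨_, (rfl | rfl | rfl | rfl | rfl)⟩) |
      ⟨_, (rfl | rfl | rfl | rfl | rfl)⟩ <;> simp [G2e]

private theorem G2_msc {q : ℕ} {m : ℕ → ℕ} (hm : m 0 = q) (A B : ℕ → VV) (C0 : Set VV) :
    MSC {0} m A B C0 = MSC {0} (fun _ => q) A B C0 := by
  have h : ∀ n, msu m A B 0 n = msu (fun _ => q) A B 0 n := by
    intro n
    unfold msu
    rw [hm]
  unfold MSC
  congr 1
  · congr 1
    ext x
    constructor
    · rintro ⟨i, hi, n, h0, h1, rfl⟩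
      rw [Finset.mem_singleton] at hi
      subst hi
      exact ⟨0, by simp, n, h0, by rw [← hm]; exact h1, rfl⟩
    · rintro ⟨i, hi, n, h0, h1, rfl⟩
      rw [Finset.mem_singleton] at hi
      subst hi
      exact ⟨0, by simp, n, h0, by rw [hm]; exact h1, rfl⟩
  · ext x
    constructor
    · rintro ⟨i, hi, n, h1, rfl⟩
      rw [Finset.mem_singleton] at hi
      subst hi
      exact ⟨0, by simp, n, by rw [← hm]; exact h1, by rw [h, h]⟩
    · rintro ⟨i, hi, n, h1, rfl⟩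
      rw [Finset.mem_singleton] at hi
      subst hi
      exact ⟨0, by simp, n, by rw [hm]; exact h1, by rw [h, h]⟩

/-- GS2. GC3 with `I = {0}`, `i = 0`, `A = e 1 0`, `B = e 2 0` (both in `SMB`), `C0 = SMB a b`,
`A0 = SMA a b`, `K = ⊥`. -/
theorem GS2 {a b : Bool} {q : ℕ} (hq : 3 ≤ q) (h : AK ⊥ (SMC a b (q - 1)) (SMP a b (q - 1))) :
    AK ⊥ (SMC a b q) (SMP a b q) := by
  have hd : dec (fun _ => q) 0 0 = q - 1 := by simp [dec]
  have hA : (SMB a b ∪ {e 1 0} : Set VV) = SMB a b := by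
    rw [union_eq_self_of_subset_right]
    rintro x rfl
    simp [SMB]
  have hB : (SMB a b ∪ {e 2 0} : Set VV) = SMB a b := by
    rw [union_eq_self_of_subset_right]
    rintro x rfl
    simp [SMB]
  have hMP : AK ⊥ (MSC {0} (dec (fun _ => q) 0) (fun _ => e 1 0) (fun _ => e 2 0) (SMB a b))
      (MSP {0} (dec (fun _ => q) 0) (fun _ => e 1 0) (fun _ => e 2 0) (SMB a b) (SMA a b)) := by
    rw [MSP, G2_msc hd]
    exact h
  refine GC3 (I := {0}) (i := 0) ⟨bot_le, ?_, ?_, ?_, ?_, ?_⟩ (by simp) hq ?_ ?_ ?_ ?_ ?_ ?_ ?_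
  · intro i _
    intro i hi n hn
    rw [Finset.mem_singleton] at hi
    subst hi
    simp [G2e]
  · intro i _
    intro i hi n hn
    rw [Finset.mem_singleton] at hi
    subst hi
    simp [G2e]
  · exact fun x hx => G2_base a b x (Or.inl hx)
  · exact fun x hx => G2_base a b x (Or.inr hx)
  · intro x hx
    refine mem_sup_left (span_mono ?_ (G2_sp a b hx))
    intro y hy
    exact Or.inl (Or.inl hy)
  · intro s s' h0
    rw [Submodule.mem_bot] at h0
    have h1 := congrArg (fun z : VV => z (1, 0)) h0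
    have h2 := congrArg (fun z : VV => z (2, 0)) h0
    simp only [Finsupp.add_apply, Finsupp.smul_apply, Finsupp.zero_apply, G2e] at h1 h2
    exact ⟨by simpa using h1, by simpa using h2⟩
  · exact G2_ab a b
  · intro j hj hj0
    rw [Finset.mem_singleton] at hj
    exact absurd hj hj0
  · intro x hx x' hx' hD
    rw [sup_bot_eq, sup_bot_eq]
    refine G2_sep a b hx hx' fun D hD' => ?_
    have := hD D (fun y hy => Or.inl (Or.inl (hD' hy)))
    rwa [sup_bot_eq] at this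
  · rw [hA]; exact hMP
  · exact hMP
  · intro _
    rw [hB]; exact hMP

end QG
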