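import Pool.Agent.Lib.QG.BaseA
import Pool.Agent.Lib.QG.GS1
import Pool.Agent.Lib.QG.GS2

/-! MP_2e6874_co, part (A), row GM2. -/

set_option autoImplicit false

namespace QG
open Set Matroid Submodule

/-- GM2. `m = 3`: `s10_3`, `s11_3`, GS1c; `m = 4`: `s00_4`, `s10_4`, `s11_4`, GS1c; `m ≥ 5`: GS1b, GS2,
GS1a by induction. -/
theorem GM2 (hB : BaseA) (a b : Bool) (m : ℕ) (hm : 3 ≤ m) (hn : 7 ≤ 2 * m + a.toNat + b.toNat) :
    AK ⊥ (ThC a b (m11 m)) (SpP a b m) := by
  have h4 : ∀ k, AK ⊥ (ThC a b (m11 (k + 4))) (SpP a b (k + 4)) := by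
    intro k
    induction k with
    | zero =>
      cases a <;> cases b
      · exact hB.s00_4
      · exact GS1c (by norm_num) hB.s10_4
      · exact hB.s10_4
      · exact hB.s11_4
    | succ k ih =>
      have h1 : AK ⊥ (SMC a b (k + 2)) (SMP a b (k + 2)) := GS1b (by omega) ih
      have h2 : AK ⊥ (SMC a b (k + 3)) (SMP a b (k + 3)) := GS2 (by omega) h1
      exact GS1a (q := k + 3) (by omega) h2
  rcases Nat.lt_or_ge m 4 with h | h
  · obtain rfl : m = 3 := by omega
    cases a <;> cases b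
    · simp at hn
    · exact GS1c (by norm_num) hB.s10_3
    · exact hB.s10_3
    · exact hB.s11_3
  · obtain ⟨k, rfl⟩ : ∃ k, m = k + 4 := ⟨m - 4, by omega⟩
    exact h4 k

end QG
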