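import Pool.Agent.Lib.QG.BaseA
import Pool.Agent.Lib.QG.GI1
import Pool.Agent.Lib.QG.GI2
import Pool.Agent.Lib.QG.GI4
import Pool.Agent.Lib.QG.GL1
import Pool.Agent.Lib.QG.GL2

/-! MP_2e6874_co, part (A), row GM3. -/

set_option autoImplicit false

namespace QG
open Set Matroid Submodule

private def GM3_A (a b : Bool) (m : ℕ → ℕ) : Prop := AK (LaK a b m) (LaC a b m) (LaP a b m)

private def GM3_P (a b : Bool) (x y z : ℕ) : Prop :=
  ∀ m : ℕ → ℕ, m 0 = x → m 1 = y → m 2 = z → GM3_A a b m

private theorem GM3_mm0 (x y z : ℕ) : mm x y z 0 = x := if_pos rfl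
private theorem GM3_mm1 (x y z : ℕ) : mm x y z 1 = y :=
  (if_neg (show ¬ (1 : ℕ) = 0 by decide)).trans (if_pos rfl)
private theorem GM3_mm2 (x y z : ℕ) : mm x y z 2 = z :=
  (if_neg (show ¬ (2 : ℕ) = 0 by decide)).trans (if_neg (show ¬ (2 : ℕ) = 1 by decide))

/-- rotation -/
private theorem GM3_rot {a b : Bool} {x y z : ℕ} (h : GM3_P a b x y z) : GM3_P a b y z x := by
  intro m h0 h1 h2
  exact GI1b (m := mm x y z) (by rw [GM3_mm1, h0]) (by rw [GM3_mm2, h1]) (by rw [GM3_mm0, h2])
    (h _ (GM3_mm0 _ _ _) (GM3_mm1 _ _ _) (GM3_mm2 _ _ _))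

/-- exchange -/
private theorem GM3_swap {a b : Bool} {x y z : ℕ} (h : GM3_P a b x y z) : GM3_P a b x z y := by
  intro m h0 h1 h2
  exact GI2b (m := mm x y z) (by rw [GM3_mm0, h0]) (by rw [GM3_mm2, h1]) (by rw [GM3_mm1, h2])
    (h _ (GM3_mm0 _ _ _) (GM3_mm1 _ _ _) (GM3_mm2 _ _ _))

/-- reversal -/
private theorem GM3_rev {a b : Bool} {x y z : ℕ} (h : GM3_P a b x y z) : GM3_P b a x y z := by
  refine GM3_swap ?_
  intro m h0 h1 h2
  exact GI4 (m := mm x y z) (by rw [GM3_mm0, h0]) (by rw [GM3_mm2, h1]) (by rw [GM3_mm1, h2])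
    (h _ (GM3_mm0 _ _ _) (GM3_mm1 _ _ _) (GM3_mm2 _ _ _))

private theorem GM3_of {a b : Bool} {x y z : ℕ} (h : GM3_A a b (mm x y z)) :
    GM3_P a b x y z := by
  have h1 : GM3_P a b y z x := by
    intro m q0 q1 q2
    exact GI1b (m := mm x y z) (by rw [GM3_mm1, q0]) (by rw [GM3_mm2, q1])
      (by rw [GM3_mm0, q2]) h
  exact GM3_rot (GM3_rot h1)

private theorem GM3_sort {a b : Bool} {x y z : ℕ}
    (h : ∀ x' y' z', x' + y' + z' = x + y + z → 1 ≤ x' + y' → x' ≤ y' → y' ≤ z' →
      GM3_P a b x' y' z') (h1 : 1 ≤ x + y) (h2 : 1 ≤ y + z) (h3 : 1 ≤ x + z) :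
    GM3_P a b x y z := by
  rcases le_total x y with hxy | hxy
  · rcases le_total y z with hyz | hyz
    · exact h x y z rfl h1 hxy hyz
    · rcases le_total x z with hxz | hxz
      · exact GM3_swap (h x z y (by omega) (by omega) hxz hyz)
      · exact GM3_rot (h z x y (by omega) (by omega) hxz hxy)
  · rcases le_total y z with hyz | hyz
    · rcases le_total x z with hxz | hxz
      · exact GM3_rot (GM3_rot (GM3_swap (h y x z (by omega) (by omega) hxy hxz)))
      · exact GM3_rot (GM3_rot (h y z x (by omega) (by omega) hyz hxz))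
    · exact GM3_rot (GM3_swap (h z y x (by omega) (by omega) hyz hxy))

private theorem GM3_ok {m : ℕ → ℕ} (h1 : 1 ≤ m 0 + m 1) (h2 : 1 ≤ m 1 + m 2)
    (h3 : 1 ≤ m 0 + m 2) : LaOk m := by
  intro i hi j hj hmi hmj
  interval_cases i <;> interval_cases j <;> omega

private theorem GM3_main (hB : BaseA) (s : ℕ) : ∀ (a b : Bool) (x y z : ℕ), x + y + z = s →
    1 ≤ x + y → 1 ≤ y + z → 1 ≤ x + z → 5 ≤ 2 * s + a.toNat + b.toNat → GM3_P a b x y z := by
  induction s using Nat.strong_induction_on with
  | _ s ih =>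
  intro a b x y z hs h1 h2 h3 hn
  refine GM3_sort ?_ h1 h2 h3
  clear h1 h2 h3
  intro x' y' z' hs' h1 hxy hyz
  rw [hs] at hs'
  clear hs x y z
  have h2 : 1 ≤ y' := by omega
  by_cases hz : 3 ≤ z'
  · intro m q0 q1 q2
    refine GL1 (GM3_ok (by omega) (by omega) (by omega)) (i := 2) (by omega) (by omega) ?_
    have d0 : dec m 2 0 = x' := by
      rw [← q0]
      exact Function.update_of_ne (by decide) _ _
    have d1 : dec m 2 1 = y' := by
      rw [← q1]
      exact Function.update_of_ne (by decide) _ _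
    have d2 : dec m 2 2 = z' - 1 := by
      rw [← q2]
      exact Function.update_self _ _ _
    exact ih (s - 1) (by omega) a b x' y' (z' - 1) (by omega) (by omega) (by omega) (by omega)
      (by omega) _ d0 d1 d2
  by_cases hz2 : z' = 2
  · subst hz2
    by_cases hy2 : y' = 2
    · subst hy2
      by_cases hc : 1 ≤ x' ∨ a = true ∨ b = true
      · intro m q0 q1 q2
        refine GL2 (i := 1) (j := 2) (l := 0) (by decide) (by decide) (by decide) (by decide)
          (by decide) (by decide) q1.ge q2.ge (by rw [q0]; exact hc) ?_ ?_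
        · have d0 : dec m 1 0 = x' := by
            rw [← q0]
            exact Function.update_of_ne (by decide) _ _
          have d1 : dec m 1 1 = 1 := by
            have : dec m 1 1 = m 1 - 1 := Function.update_self _ _ _
            rw [this, q1]
          have d2 : dec m 1 2 = 2 :=
            (show dec m 1 2 = m 2 from Function.update_of_ne (by decide) _ _).trans q2
          exact ih (s - 1) (by omega) a b x' 1 2 (by omega) (by omega) (by omega) (by omega)
            (by omega) _ d0 d1 d2
        · have d0 : dec m 2 0 = x' := by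
            rw [← q0]
            exact Function.update_of_ne (by decide) _ _
          have d1 : dec m 2 1 = 2 :=
            (show dec m 2 1 = m 1 from Function.update_of_ne (by decide) _ _).trans q1
          have d2 : dec m 2 2 = 1 := by
            have : dec m 2 2 = m 2 - 1 := Function.update_self _ _ _
            rw [this, q2]
          exact ih (s - 1) (by omega) a b x' 2 1 (by omega) (by omega) (by omega) (by omega)
            (by omega) _ d0 d1 d2
      · push Not at hc
        obtain ⟨hx, ha, hb⟩ := hc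
        have hx0 : x' = 0 := by omega
        have ha' : a = false := by simpa using ha
        have hb' : b = false := by simpa using hb
        subst hx0 ha' hb'
        exact GM3_of hB.la00_022
    · have hy1 : y' = 1 := by omega
      subst hy1
      have hx : x' = 0 ∨ x' = 1 := by omega
      rcases hx with rfl | rfl
      · cases a <;> cases b
        · exact GM3_of hB.la00_012
        · exact GM3_rev (GM3_of hB.la10_012)
        · exact GM3_of hB.la10_012
        · exact GM3_of hB.la11_012
      · cases a <;> cases b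
        · exact GM3_of hB.la00_112
        · exact GM3_rev (GM3_of hB.la10_112)
        · exact GM3_of hB.la10_112
        · exact GM3_of hB.la11_112
  · have hz1 : z' = 1 := by omega
    have hy1 : y' = 1 := by omega
    subst hz1 hy1
    have hx : x' = 0 ∨ x' = 1 := by omega
    rcases hx with rfl | rfl
    · cases a <;> cases b
      · simp only [Bool.toNat_false] at hn
        omega
      · exact GM3_rev (GM3_of hB.la10_011)
      · exact GM3_of hB.la10_011
      · exact GM3_of hB.la11_011
    · cases a <;> cases b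
      · exact GM3_of hB.la00_111
      · exact GM3_rev (GM3_of hB.la10_111)
      · exact GM3_of hB.la10_111
      · exact GM3_of hB.la11_111

/-- GM3. Induction on `s = m 0 + m 1 + m 2` (`LaC a b m` has `2 s + 3 + a + b` points).
`s = 2`: permutations of `(0,1,1)`, `a` or `b`: `la10_011`, `la11_011`, GI1b, GI4.
`s = 3`: permutations of `(0,1,2)` and `(1,1,1)`: `la00_..`, `la10_..`, `la11_..`, GI1b, GI2b, GI4.
`s = 4`: permutations of `(0,1,3)`: GL1; of `(0,2,2)`: `la00_022`, otherwise GL2 (`a` or `b` true);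
of `(1,1,2)`: `la00_112`, `la10_112`, `la11_112`. `s ≥ 5`: some `m i ≥ 3`: GL1; otherwise `(1,2,2)` or
`(2,2,2)`: GL2 with `1 ≤ m l`. -/
theorem GM3 (hB : BaseA) (a b : Bool) (m : ℕ → ℕ) (hm : LaOk m)
    (hn : 5 ≤ 2 * (m 0 + m 1 + m 2) + a.toNat + b.toNat) :
    AK (LaK a b m) (LaC a b m) (LaP a b m) := by
  refine GM3_main hB _ a b (m 0) (m 1) (m 2) rfl ?_ ?_ ?_ hn m rfl rfl rfl
  · by_contra h
    have h1 := hm 0 (by decide) 1 (by decide) (by omega) (by omega)
    omega
  · by_contra h
    have h1 := hm 1 (by decide) 2 (by decide) (by omega) (by omega)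
    omega
  · by_contra h
    have h1 := hm 0 (by decide) 2 (by decide) (by omega) (by omega)
    omega

end QG
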