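import Pool.Agent.Lib.QG.BaseA
import Pool.Agent.Lib.QG.GI2
import Pool.Agent.Lib.QG.GI5
import Pool.Agent.Lib.QG.GE5
import Pool.Agent.Lib.QG.GE6
import Pool.Agent.Lib.QG.GE8

/-! MP_2e6874_co, part (A), row GM4. -/

set_option autoImplicit false

namespace QG
open Set Matroid Submodule

/-- relabelling of the legs, all but one have the same length -/
private theorem GM4_relab {I I' : Finset ℕ} {l l' : ℕ → ℕ} {p p' c : ℕ} (hp : p ∈ I)
    (hp' : p' ∈ I') (hcard : I.card = I'.card) (h1 : l' p' = l p)
    (h2 : ∀ i ∈ I, i ≠ p → l i = c) (h3 : ∀ j ∈ I', j ≠ p' → l' j = c) :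
    ∃ σ : ℕ → ℕ, BijOn σ (I : Set ℕ) (I' : Set ℕ) ∧ ∀ i ∈ I, l' (σ i) = l i := by
  classical
  have hc : (I.erase p).card = (I'.erase p').card := by
    rw [Finset.card_erase_of_mem hp, Finset.card_erase_of_mem hp', hcard]
  let ε : (I.erase p) ≃ (I'.erase p') := Finset.equivOfCardEq hc
  let σ : ℕ → ℕ := fun i => if h : i ∈ I.erase p then (ε ⟨i, h⟩ : ℕ) else p'
  have hσ1 : ∀ i (h : i ∈ I.erase p), σ i = ε ⟨i, h⟩ := fun i h => dif_pos h
  have hσp : σ p = p' := dif_neg (by simp)
  have hmem : ∀ i ∈ I, i ≠ p → σ i ∈ I'.erase p' := by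
    intro i hi hip
    rw [hσ1 i (Finset.mem_erase.2 ⟨hip, hi⟩)]
    exact (ε _).2
  refine ⟨σ, ⟨?_, ?_, ?_⟩, ?_⟩
  · intro i hi
    by_cases hip : i = p
    · rw [hip, hσp]
      exact hp'
    · exact Finset.mem_of_mem_erase (hmem i hi hip)
  · intro i hi j hj hij
    by_cases hip : i = p
    · by_cases hjp : j = p
      · rw [hip, hjp]
      · have := hmem j hj hjp
        rw [← hij, hip, hσp] at this
        exact absurd this (by simp)
    · by_cases hjp : j = p
      · have := hmem i hi hip
        rw [hij, hjp, hσp] at this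
        exact absurd this (by simp)
      · rw [hσ1 i (Finset.mem_erase.2 ⟨hip, hi⟩), hσ1 j (Finset.mem_erase.2 ⟨hjp, hj⟩)] at hij
        have := ε.injective (Subtype.ext hij)
        exact congrArg Subtype.val this
  · intro j hj
    by_cases hjp : j = p'
    · exact ⟨p, hp, by rw [hσp, hjp]⟩
    · have hj' : j ∈ I'.erase p' := Finset.mem_erase.2 ⟨hjp, hj⟩
      refine ⟨(ε.symm ⟨j, hj'⟩ : ℕ), Finset.mem_of_mem_erase (ε.symm ⟨j, hj'⟩).2, ?_⟩
      rw [hσ1 _ (ε.symm ⟨j, hj'⟩).2]
      simp
  · intro i hi
    by_cases hip : i = p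
    · rw [hip, hσp, h1]
    · have := hmem i hi hip
      rw [Finset.mem_erase] at this
      rw [h3 _ this.2 this.1, h2 i hi hip]

private theorem GM4_base {g : F4} (hg : g = F4.w ∨ g = F4.v) {a : Bool} {I I' : Finset ℕ}
    {l l' : ℕ → ℕ} {p p' c : ℕ} (h0 : 0 ∉ I) (h0' : 0 ∉ I') (hp : p ∈ I)
    (hp' : p' ∈ I') (hcard : I.card = I'.card) (h1 : l' p' = l p)
    (h2 : ∀ i ∈ I, i ≠ p → l i = c) (h3 : ∀ j ∈ I', j ≠ p' → l' j = c)
    (h : AK (DeK false I') (DeC F4.w a false I' l') (DeP F4.w a false I' l')) :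
    AK (DeK false I) (DeC g a false I l) (DeP g a false I l) := by
  obtain ⟨σ, hσ, hl⟩ := GM4_relab hp hp' hcard h1 h2 h3
  have hw := GI5 (g := F4.w) σ hσ h0 h0' hl h
  rcases hg with rfl | rfl
  · exact hw
  · have h4 := GI2c hw
    have h5 : F4.w * F4.w = F4.v := by decide
    rw [h5] at h4
    exact h4

theorem GM4 (hB : BaseA) (g : F4) (a : Bool) (I : Finset ℕ) (l : ℕ → ℕ) (hOk : DeOk g I l)
    (hn : 4 ≤ ∑ i ∈ I, l i) :
    AK (DeK false I) (DeC g a false I l) (DeP g a false I l) := by
  obtain ⟨s, hs⟩ : ∃ s, s = ∑ i ∈ I, l i := ⟨_, rfl⟩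
  induction s using Nat.strong_induction_on generalizing g a I l with
  | _ s ih =>
  -- sums
  have hsum : ∀ i ∈ I, ∑ k ∈ I, dec l i k + 1 = ∑ k ∈ I, l k := by
    intro i hi
    rw [← Finset.add_sum_erase _ _ hi, ← Finset.add_sum_erase I l hi]
    have h1 : dec l i i = l i - 1 := by rw [dec, Function.update_self]
    have h2 : ∑ k ∈ I.erase i, dec l i k = ∑ k ∈ I.erase i, l k := by
      apply Finset.sum_congr rfl
      intro k hk
      rw [dec, Function.update_of_ne (Finset.ne_of_mem_erase hk)]
    have h3 := hOk.pos i hi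
    rw [h1, h2]
    omega
  have hdec : ∀ i k, k ≠ i → dec l i k = l k := by
    intro i k hk
    rw [dec, Function.update_of_ne hk]
  have hdec' : ∀ i, dec l i i = l i - 1 := by
    intro i
    rw [dec, Function.update_self]
  by_cases h3 : ∃ i ∈ I, 3 ≤ l i
  · -- a leg with at least three rims
    obtain ⟨i, hi, hli⟩ := h3
    have hOk' : DeOk g I (dec l i) := by
      refine ⟨hOk.g_ne, hOk.zero, hOk.two, ?_, ?_⟩
      · intro k hk
        by_cases hki : k = i
        · rw [hki, hdec']
          omega
        · rw [hdec i k hki]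
          exact hOk.pos k hk
      · intro h2 k hk
        by_cases hki : k = i
        · rw [hki, hdec']
          omega
        · rw [hdec i k hki]
          exact hOk.big h2 k hk
    have hs5 : 5 ≤ ∑ k ∈ I, l k := by
      rw [← Finset.add_sum_erase I l hi]
      have hc : (I.erase i).card = I.card - 1 := Finset.card_erase_of_mem hi
      have htwo := hOk.two
      have h1 : (I.erase i).card • (if I.card = 2 then 2 else 1) ≤ ∑ k ∈ I.erase i, l k := by
        apply Finset.card_nsmul_le_sum
        intro k hk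
        split_ifs with h2
        · exact hOk.big h2 k (Finset.mem_of_mem_erase hk)
        · exact hOk.pos k (Finset.mem_of_mem_erase hk)
      rw [smul_eq_mul] at h1
      split_ifs at h1 with h2
      · rw [hc, h2] at h1
        omega
      · omega
    refine GE5 hOk hi hli (fun a' => ?_)
    have := hsum i hi
    exact ih (∑ k ∈ I, dec l i k) (by omega) g a' I (dec l i) hOk' (by omega) rfl
  push Not at h3
  have hle : ∀ i ∈ I, l i = 1 ∨ l i = 2 := by
    intro i hi
    have h1 := h3 i hi
    have h2 := hOk.pos i hi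
    omega
  have htwo := hOk.two
  rcases Nat.lt_or_ge I.card 3 with hc3 | hc3
  · -- two legs
    have hc2 : I.card = 2 := by omega
    have hl2 : ∀ i ∈ I, l i = 2 := by
      intro i hi
      have h1 := hOk.big hc2 i hi
      have h2 := hle i hi
      omega
    obtain ⟨p, hp⟩ : I.Nonempty := Finset.card_pos.1 (by omega)
    have hb : AK (DeK false {1, 2}) (DeC F4.w a false {1, 2} (l4 2 2 1 1))
        (DeP F4.w a false {1, 2} (l4 2 2 1 1)) := by
      cases a
      · exact hB.de00_22
      · exact hB.de10_22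
    refine GM4_base (p' := 1) (c := 2) hOk.g_ne hOk.zero (by decide) hp (by decide)
      (by rw [hc2]; decide) ?_ (fun i hi _ => hl2 i hi) ?_ hb
    · rw [hl2 p hp]
      rfl
    · decide
  by_cases htt : ∃ i ∈ I, ∃ j ∈ I, i ≠ j ∧ l i = 2 ∧ l j = 2
  · -- two legs with two rims
    obtain ⟨i, hi, j, hj, hij, hli, hlj⟩ := htt
    have hOk' : ∀ i ∈ I, l i = 2 → DeOk g I (dec l i) := by
      intro i hi hli
      refine ⟨hOk.g_ne, hOk.zero, hOk.two, ?_, ?_⟩
      · intro k hk
        by_cases hki : k = i
        · rw [hki, hdec']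
          omega
        · rw [hdec i k hki]
          exact hOk.pos k hk
      · intro h2
        omega
    have hs5 : 5 ≤ ∑ k ∈ I, l k := by
      rw [← Finset.add_sum_erase I l hi,
        ← Finset.add_sum_erase (I.erase i) l (Finset.mem_erase.2 ⟨hij.symm, hj⟩)]
      have hc : ((I.erase i).erase j).card = I.card - 2 := by
        rw [Finset.card_erase_of_mem (Finset.mem_erase.2 ⟨hij.symm, hj⟩),
          Finset.card_erase_of_mem hi]
        omega
      have h1 : ((I.erase i).erase j).card • 1 ≤ ∑ k ∈ (I.erase i).erase j, l k := by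
        apply Finset.card_nsmul_le_sum
        intro k hk
        exact hOk.pos k (Finset.mem_of_mem_erase (Finset.mem_of_mem_erase hk))
      rw [smul_eq_mul] at h1
      omega
    have e1 := hsum i hi
    have e2 := hsum j hj
    exact GE8 hOk hc3 hi hj hij (by omega) (by omega)
      (fun a' _ => ih (∑ k ∈ I, dec l i k) (by omega) g a' I (dec l i) (hOk' i hi hli)
        (by omega) rfl)
      (fun a' _ => ih (∑ k ∈ I, dec l j k) (by omega) g a' I (dec l j) (hOk' j hj hlj)
        (by omega) rfl)
  push Not at htt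
  -- at most one leg with two rims: `p`, all others have one
  obtain ⟨p, hp, hp1⟩ : ∃ p ∈ I, ∀ i ∈ I, i ≠ p → l i = 1 := by
    by_cases hex : ∃ p ∈ I, l p = 2
    · obtain ⟨p, hp, hlp⟩ := hex
      refine ⟨p, hp, fun i hi hip => ?_⟩
      rcases hle i hi with h | h
      · exact h
      · exact absurd h (htt p hp i hi (Ne.symm hip) hlp)
    · push Not at hex
      obtain ⟨p, hp⟩ : I.Nonempty := Finset.card_pos.1 (by omega)
      refine ⟨p, hp, fun i hi _ => ?_⟩
      rcases hle i hi with h | h
      · exact h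
      · exact absurd h (hex i hi)
  rcases Nat.lt_or_ge I.card 5 with hc5 | hc5
  · rcases Nat.lt_or_ge I.card 4 with hc4 | hc4
    · -- three legs
      have hc : I.card = 3 := by omega
      have hlp : l p = 2 := by
        rcases hle p hp with h | h
        · exfalso
          have : ∑ i ∈ I, l i = ∑ i ∈ I, 1 := by
            apply Finset.sum_congr rfl
            intro i hi
            by_cases hip : i = p
            · rw [hip, h]
            · exact hp1 i hi hip
          rw [this, Finset.sum_const, smul_eq_mul] at hn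
          omega
        · exact h
      have hb : AK (DeK false {1, 2, 3}) (DeC F4.w a false {1, 2, 3} (l4 2 1 1 1))
          (DeP F4.w a false {1, 2, 3} (l4 2 1 1 1)) := by
        cases a
        · exact hB.de00_211
        · exact hB.de10_211
      refine GM4_base (p' := 1) (c := 1) hOk.g_ne hOk.zero (by decide) hp (by decide)
        (by rw [hc]; decide) ?_ hp1 ?_ hb
      · rw [hlp]
        rfl
      · decide
    · have hc : I.card = 4 := by omega
      rcases hle p hp with hlp | hlp
      · have hb : AK (DeK false {1, 2, 3, 4}) (DeC F4.w a false {1, 2, 3, 4} (l4 1 1 1 1))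
            (DeP F4.w a false {1, 2, 3, 4} (l4 1 1 1 1)) := by
          cases a
          · exact hB.de00_1111
          · exact hB.de10_1111
        refine GM4_base (p' := 1) (c := 1) hOk.g_ne hOk.zero (by decide) hp (by decide)
          (by rw [hc]; decide) ?_ hp1 ?_ hb
        · rw [hlp]
          rfl
        · decide
      · have hb : AK (DeK false {1, 2, 3, 4}) (DeC F4.w a false {1, 2, 3, 4} (l4 2 1 1 1))
            (DeP F4.w a false {1, 2, 3, 4} (l4 2 1 1 1)) := by
          cases a
          · exact hB.de00_2111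
          · exact hB.de10_2111
        refine GM4_base (p' := 1) (c := 1) hOk.g_ne hOk.zero (by decide) hp (by decide)
          (by rw [hc]; decide) ?_ hp1 ?_ hb
        · rw [hlp]
          rfl
        · decide
  · -- at least five legs
    have hce : (I.erase p).card = I.card - 1 := Finset.card_erase_of_mem hp
    obtain ⟨J, hJ, hJ3⟩ := Finset.exists_subset_card_eq (s := I.erase p) (n := 3) (by omega)
    obtain ⟨i₁, i₂, i₃, h12, h13, h23, rfl⟩ := Finset.card_eq_three.1 hJ3
    have m1 := hJ (by simp : i₁ ∈ ({i₁, i₂, i₃} : Finset ℕ))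
    have m2 := hJ (by simp : i₂ ∈ ({i₁, i₂, i₃} : Finset ℕ))
    have m3 := hJ (by simp : i₃ ∈ ({i₁, i₂, i₃} : Finset ℕ))
    rw [Finset.mem_erase] at m1 m2 m3
    refine GE6 hOk hc5 m1.2 m2.2 m3.2 h12 h13 h23 (hp1 _ m1.2 m1.1) (hp1 _ m2.2 m2.1)
      (hp1 _ m3.2 m3.1) ?_
    intro i hi hli g' hg'
    have hce' : (I.erase i).card = I.card - 1 := Finset.card_erase_of_mem hi
    have hOk' : DeOk g' (I.erase i) l := by
      refine ⟨hg', fun h => hOk.zero (Finset.mem_of_mem_erase h), by omega, ?_, ?_⟩
      · intro k hk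
        exact hOk.pos k (Finset.mem_of_mem_erase hk)
      · intro h2
        omega
    have h4 : (I.erase i).card • 1 ≤ ∑ k ∈ I.erase i, l k := by
      apply Finset.card_nsmul_le_sum
      intro k hk
      exact hOk.pos k (Finset.mem_of_mem_erase hk)
    rw [smul_eq_mul] at h4
    have h5 := Finset.add_sum_erase I l hi
    exact ih (∑ k ∈ I.erase i, l k) (by omega) g' true (I.erase i) l hOk' (by omega) rfl

end QG
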