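import Pool.Agent.Lib.QG.GM4
import Pool.Agent.Lib.QG.GE3
import Pool.Agent.Lib.QG.GE4
import Pool.Agent.Lib.QG.GE7

/-! MP_2e6874_co, part (A), row GM5. -/

set_option autoImplicit false

namespace QG
open Set Matroid Submodule

private def GM5_A (g : F4) (a : Bool) (I : Finset ℕ) (l : ℕ → ℕ) : Prop :=
  AK (DeK true I) (DeC g a true I l) (DeP g a true I l)

private theorem GM5_g {g : F4} (hg : g = F4.w ∨ g = F4.v) {a : Bool} {I : Finset ℕ} {l : ℕ → ℕ}
    (h : GM5_A F4.w a I l) : GM5_A g a I l := by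
  rcases hg with rfl | rfl
  · exact h
  · have h1 := GI2c h
    rwa [show F4.w * F4.w = F4.v by decide] at h1

private theorem GM5_bij2 {i y : ℕ} (σ : ℕ → ℕ) (h1 : σ i = 1) (h2 : σ y = 2) :
    BijOn σ (({i, y} : Finset ℕ) : Set ℕ) (({1, 2} : Finset ℕ) : Set ℕ) := by
  simp only [Finset.coe_insert, Finset.coe_singleton]
  refine ⟨?_, ?_, ?_⟩
  · rintro n (rfl | rfl)
    · exact Or.inl h1
    · exact Or.inr h2
  · rintro n (rfl | rfl) n' (rfl | rfl) h <;> first | rfl | simp [h1, h2] at h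
  · rintro n (rfl | rfl)
    · exact ⟨i, Or.inl rfl, h1⟩
    · exact ⟨y, Or.inr rfl, h2⟩

private theorem GM5_bij3 {i y z : ℕ} (σ : ℕ → ℕ) (h1 : σ i = 1) (h2 : σ y = 2) (h3 : σ z = 3) :
    BijOn σ (({i, y, z} : Finset ℕ) : Set ℕ) (({1, 2, 3} : Finset ℕ) : Set ℕ) := by
  simp only [Finset.coe_insert, Finset.coe_singleton]
  refine ⟨?_, ?_, ?_⟩
  · rintro n (rfl | rfl | rfl)
    · exact Or.inl h1
    · exact Or.inr (Or.inl h2)
    · exact Or.inr (Or.inr h3)
  · rintro n (rfl | rfl | rfl) n' (rfl | rfl | rfl) h <;> first | rfl | simp [h1, h2, h3] at h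
  · rintro n (rfl | rfl | rfl)
    · exact ⟨i, Or.inl rfl, h1⟩
    · exact ⟨y, Or.inr (Or.inl rfl), h2⟩
    · exact ⟨z, Or.inr (Or.inr rfl), h3⟩

private theorem GM5_bij4 {i y z t : ℕ} (σ : ℕ → ℕ) (h1 : σ i = 1) (h2 : σ y = 2) (h3 : σ z = 3)
    (h4 : σ t = 4) :
    BijOn σ (({i, y, z, t} : Finset ℕ) : Set ℕ) (({1, 2, 3, 4} : Finset ℕ) : Set ℕ) := by
  simp only [Finset.coe_insert, Finset.coe_singleton]
  refine ⟨?_, ?_, ?_⟩
  · rintro n (rfl | rfl | rfl | rfl)
    · exact Or.inl h1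
    · exact Or.inr (Or.inl h2)
    · exact Or.inr (Or.inr (Or.inl h3))
    · exact Or.inr (Or.inr (Or.inr h4))
  · rintro n (rfl | rfl | rfl | rfl) n' (rfl | rfl | rfl | rfl) h <;>
      first | rfl | simp [h1, h2, h3, h4] at h
  · rintro n (rfl | rfl | rfl | rfl)
    · exact ⟨i, Or.inl rfl, h1⟩
    · exact ⟨y, Or.inr (Or.inl rfl), h2⟩
    · exact ⟨z, Or.inr (Or.inr (Or.inl rfl)), h3⟩
    · exact ⟨t, Or.inr (Or.inr (Or.inr rfl)), h4⟩

/-- two legs -/
private theorem GM5_b2 (hB : BaseA) {g : F4} (hg : g = F4.w ∨ g = F4.v) (a : Bool)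
    {I : Finset ℕ} {l : ℕ → ℕ} (h0 : 0 ∉ I) (h2 : I.card = 2) (hl : ∀ i ∈ I, l i = 2) :
    GM5_A g a I l := by
  refine GM5_g hg ?_
  obtain ⟨x, y, hxy, rfl⟩ := Finset.card_eq_two.1 h2
  refine GI5 (I' := {1, 2}) (l' := l4 2 2 1 1) (fun n => if n = x then 1 else 2)
    (GM5_bij2 _ (if_pos rfl) (if_neg hxy.symm)) h0 (by decide) ?_ ?_
  · intro i hi
    rw [hl i hi]
    by_cases h : i = x
    · simp [h, l4]
    · simp [h, l4]
  · cases a
    · exact hB.de01_22
    · exact hB.de11_22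

/-- three legs, one of them is special -/
private theorem GM5_b3 {g : F4} (hg : g = F4.w ∨ g = F4.v) (a : Bool) (p : ℕ)
    {I : Finset ℕ} {l : ℕ → ℕ} (h0 : 0 ∉ I) (h2 : I.card = 3) {i : ℕ} (hi : i ∈ I)
    (hli : l i = p) (hl : ∀ j ∈ I, j ≠ i → l j = 1)
    (h : GM5_A F4.w a {1, 2, 3} (l4 p 1 1 1)) : GM5_A g a I l := by
  refine GM5_g hg ?_
  have hc : (I.erase i).card = 2 := by
    rw [Finset.card_erase_of_mem hi, h2]
  obtain ⟨y, z, hyz, hI⟩ := Finset.card_eq_two.1 hc
  have hIe : I = {i, y, z} := by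
    rw [← Finset.insert_erase hi, hI]
  have hiy : y ≠ i := by
    have : y ∈ I.erase i := by rw [hI]; simp
    exact (Finset.mem_erase.1 this).1
  have hiz : z ≠ i := by
    have : z ∈ I.erase i := by rw [hI]; simp
    exact (Finset.mem_erase.1 this).1
  subst hIe
  refine GI5 (I' := {1, 2, 3}) (l' := l4 p 1 1 1)
    (fun n => if n = i then 1 else if n = y then 2 else 3)
    (GM5_bij3 _ (by simp) (by simp [hiy]) (by simp [hiz, hyz.symm])) h0 (by decide) ?_ h
  intro j hj
  by_cases h1 : j = i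
  · simp [h1, l4, hli]
  · rw [hl j hj h1]
    by_cases h2 : j = y
    · simp [h2, l4, hiy]
    · simp [h1, h2, l4]

/-- four legs -/
private theorem GM5_b4 (hB : BaseA) {g : F4} (hg : g = F4.w ∨ g = F4.v) (a : Bool)
    {I : Finset ℕ} {l : ℕ → ℕ} (h0 : 0 ∉ I) (h2 : I.card = 4) (hl : ∀ j ∈ I, l j = 1) :
    GM5_A g a I l := by
  refine GM5_g hg ?_
  obtain ⟨i, hi⟩ := Finset.card_pos.1 (show 0 < I.card by omega)
  have hc : (I.erase i).card = 3 := by
    rw [Finset.card_erase_of_mem hi, h2]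
  obtain ⟨y, z, t, hyz, hyt, hzt, hI⟩ := Finset.card_eq_three.1 hc
  have hIe : I = {i, y, z, t} := by
    rw [← Finset.insert_erase hi, hI]
  have hiy : y ≠ i := by
    have : y ∈ I.erase i := by rw [hI]; simp
    exact (Finset.mem_erase.1 this).1
  have hiz : z ≠ i := by
    have : z ∈ I.erase i := by rw [hI]; simp
    exact (Finset.mem_erase.1 this).1
  have hit : t ≠ i := by
    have : t ∈ I.erase i := by rw [hI]; simp
    exact (Finset.mem_erase.1 this).1
  subst hIe
  refine GI5 (I' := {1, 2, 3, 4}) (l' := l4 1 1 1 1)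
    (fun n => if n = i then 1 else if n = y then 2 else if n = z then 3 else 4)
    (GM5_bij4 _ (by simp) (by simp [hiy]) (by simp [hiz, hyz.symm])
      (by simp [hit, hyt.symm, hzt.symm])) h0 (by decide) ?_ ?_
  · intro j hj
    rw [hl j hj]
    unfold l4
    split_ifs <;> rfl
  · cases a
    · exact hB.de01_1111
    · exact hB.de11_1111

private theorem GM5_dec_sum {I : Finset ℕ} {l : ℕ → ℕ} {i : ℕ} (hi : i ∈ I) (hl : 1 ≤ l i) :
    ∑ j ∈ I, dec l i j + 1 = ∑ j ∈ I, l j := by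
  rw [← Finset.add_sum_erase I l hi, ← Finset.add_sum_erase I (dec l i) hi]
  have h1 : dec l i i = l i - 1 := Function.update_self _ _ _
  have h2 : ∑ j ∈ I.erase i, dec l i j = ∑ j ∈ I.erase i, l j :=
    Finset.sum_congr rfl fun j hj => Function.update_of_ne (Finset.mem_erase.1 hj).1 _ _
  rw [h1, h2]
  omega

private theorem GM5_dec_ok {g : F4} {I : Finset ℕ} {l : ℕ → ℕ} (hOk : DeOk g I l) {i : ℕ}
    (hl : 2 ≤ l i) (h : I.card = 2 → 3 ≤ l i) : DeOk g I (dec l i) where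
  g_ne := hOk.g_ne
  zero := hOk.zero
  two := hOk.two
  pos := by
    intro j hj
    by_cases hji : j = i
    · subst hji
      have h1 : dec l j j = l j - 1 := Function.update_self _ _ _
      rw [h1]
      omega
    · have h1 : dec l i j = l j := Function.update_of_ne hji _ _
      rw [h1]
      exact hOk.pos j hj
  big := by
    intro hc j hj
    by_cases hji : j = i
    · subst hji
      have h1 : dec l j j = l j - 1 := Function.update_self _ _ _
      have h2 := h hc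
      rw [h1]
      omega
    · have h1 : dec l i j = l j := Function.update_of_ne hji _ _
      rw [h1]
      exact hOk.big hc j hj

private theorem GM5_erase_ok {g g' : F4} {I : Finset ℕ} {l : ℕ → ℕ} (hOk : DeOk g I l)
    (hg' : g' = F4.w ∨ g' = F4.v) (h4 : 4 ≤ I.card) {i : ℕ} (hi : i ∈ I) :
    DeOk g' (I.erase i) l where
  g_ne := hg'
  zero := fun h => hOk.zero (Finset.mem_of_mem_erase h)
  two := by
    rw [Finset.card_erase_of_mem hi]
    omega
  pos := fun j hj => hOk.pos j (Finset.mem_of_mem_erase hj)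
  big := by
    rw [Finset.card_erase_of_mem hi]
    intro h
    omega

private theorem GM5_mono {K : Submodule F4 VV} {C P P' : Set VV} {y : VV} (hP : P ⊆ P')
    (h : CK K C y P) : CK K C y P' :=
  CK.congr rfl rfl (fun p hp => ⟨p, hP hp, 1, one_ne_zero, by
    rw [one_smul, vadd_self]
    exact K.zero_mem⟩) h

private theorem GM5_main (hB : BaseA) (s : ℕ) : ∀ (g : F4) (a : Bool) (I : Finset ℕ)
    (l : ℕ → ℕ), DeOk g I l → ∑ i ∈ I, l i = s → 7 ≤ 2 * s + a.toNat → GM5_A g a I l := by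
  induction s using Nat.strong_induction_on with
  | _ s ih =>
  intro g a I l hOk hs hn
  have IH : ∀ (g' : F4) (a' : Bool) (I' : Finset ℕ) (l' : ℕ → ℕ), DeOk g' I' l' →
      ∑ i ∈ I', l' i + 1 = s → 5 ≤ s → GM5_A g' a' I' l' := by
    intro g' a' I' l' h1 h2 h3
    exact ih _ (by omega) g' a' I' l' h1 rfl (by omega)
  have hsplit : ∀ i ∈ I, l i + ∑ j ∈ I.erase i, l j = s := fun i hi => by
    rw [Finset.add_sum_erase I l hi, hs]
  have hlow : ∀ J, J ⊆ I → J.card ≤ ∑ j ∈ J, l j := by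
    intro J hJ
    rw [Finset.card_eq_sum_ones]
    exact Finset.sum_le_sum fun j hj => hOk.pos j (hJ hj)
  have hcd : ∀ i ∈ I, (I.erase i).card = I.card - 1 := fun i hi => Finset.card_erase_of_mem hi
  have hgg : g * g = F4.w ∨ g * g = F4.v := by
    rcases hOk.g_ne with rfl | rfl
    · right
      decide
    · left
      decide
  by_cases hA : ∃ i ∈ I, 3 ≤ l i
  · obtain ⟨i, hi, hl⟩ := hA
    have h5 : 5 ≤ s := by
      have h1 := hsplit i hi
      by_cases hc : I.card = 2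
      · obtain ⟨j, hj⟩ := Finset.card_pos.1 (show 0 < (I.erase i).card by rw [hcd i hi]; omega)
        have h2 : l j ≤ ∑ j ∈ I.erase i, l j :=
          Finset.single_le_sum (f := l) (fun _ _ => Nat.zero_le _) hj
        have h3 := hOk.big hc j (Finset.mem_of_mem_erase hj)
        omega
      · have h2 := hlow _ (Finset.erase_subset i I)
        rw [hcd i hi] at h2
        have h3 := hOk.two
        omega
    refine GE5 hOk hi hl fun a' => IH g a' I (dec l i) (GM5_dec_ok hOk (by omega) fun _ => hl) ?_ h5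
    rw [GM5_dec_sum hi (by omega), hs]
  push Not at hA
  by_cases c2 : I.card = 2
  · refine GM5_b2 hB hOk.g_ne a hOk.zero c2 fun i hi => ?_
    have h1 := hOk.big c2 i hi
    have h2 := hA i hi
    omega
  have c3 : 3 ≤ I.card := by
    have h1 := hOk.two
    omega
  have hc : 4 ≤ s → CK (DeK true I) (DeC g a true I l) (Dec I)
      (DeC g a false I l ∪ {e 0 0, 0}) := fun h4 =>
    GE3 hOk.g_ne hOk.zero (GM4 hB g a I l hOk (by rw [hs]; exact h4))
  have hrim : ∀ i ∈ I, l i = 2 → 5 ≤ s → ∀ j < 2, CK (DeK true I) (DeC g a true I l)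
      (rim l (fun i => e i 0) (fun _ => g • e 0 0) i j) (DeQ g a I l i) := by
    intro i hi hl h5 j hj
    have h1 := GE4 (a := a) (b := true) (j := j) hOk.g_ne hOk.zero hOk.two hi hl.ge (by omega)
      (IH g _ I (dec l i) (GM5_dec_ok hOk hl.ge fun h => absurd h c2)
        (by rw [GM5_dec_sum hi (by omega), hs]) h5)
    refine GM5_mono ?_ h1
    rintro x (hx | hx)
    · exact Or.inl hx
    · exact Or.inr hx.2
  have hpt : ∀ j ∈ I, l j = 1 → 5 ≤ s → 4 ≤ I.card → ∀ i, CK (DeK true I) (DeC g a true I l)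
      (e j 0) (DeQ g a I l i) := by
    intro j hj hl h5 h4 i
    refine GM5_mono (fun x hx => Or.inl hx) (GE1 hOk.g_ne hOk.zero hOk.two hj hl ?_)
    refine IH g true (I.erase j) l (GM5_erase_ok hOk hOk.g_ne h4 hj) ?_ h5
    have h1 := hsplit j hj
    omega
  by_cases h1 : ∃ i ∈ I, ∃ j ∈ I, i ≠ j ∧ l i = 2 ∧ l j = 2
  · obtain ⟨i, hi, j, hj, hij, hli, hlj⟩ := h1
    have hj' : j ∈ I.erase i := Finset.mem_erase.2 ⟨hij.symm, hj⟩
    have h5 : 5 ≤ s := by
      have h1 := hsplit i hi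
      have h2 := Finset.add_sum_erase (I.erase i) l hj'
      have h3 := hlow ((I.erase i).erase j) ((Finset.erase_subset _ _).trans
        (Finset.erase_subset _ _))
      rw [Finset.card_erase_of_mem hj', hcd i hi] at h3
      omega
    exact GE7 hOk c3 ⟨hi, hj, hij, Or.inr ⟨hli.ge, rfl, rfl⟩, Or.inr ⟨hlj.ge, rfl⟩⟩
      (hc (by omega)) (hrim i hi hli h5 0 (by omega)) (hrim i hi hli h5 1 (by omega))
      (hrim j hj hlj h5 0 (by omega))
  push Not at h1
  by_cases h2 : ∃ i ∈ I, l i = 2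
  · obtain ⟨i, hi, hli⟩ := h2
    have hone : ∀ j ∈ I, j ≠ i → l j = 1 := by
      intro j hj hji
      have q1 := h1 i hi j hj hji.symm hli
      have q2 := hA j hj
      have q3 := hOk.pos j hj
      omega
    by_cases c4 : I.card = 3
    · refine GM5_b3 hOk.g_ne a 2 hOk.zero c4 hi hli hone ?_
      cases a
      · exact hB.de01_211
      · exact hB.de11_211
    · obtain ⟨j, hj⟩ := Finset.card_pos.1 (show 0 < (I.erase i).card by rw [hcd i hi]; omega)
      obtain ⟨hji, hj⟩ := Finset.mem_erase.1 hj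
      have h5 : 5 ≤ s := by
        have h1 := hsplit i hi
        have h2 := hlow _ (Finset.erase_subset i I)
        rw [hcd i hi] at h2
        omega
      exact GE7 hOk c3 ⟨hi, hj, hji.symm, Or.inr ⟨hli.ge, rfl, rfl⟩, Or.inl ⟨hone j hj hji, rfl⟩⟩
        (hc (by omega)) (hrim i hi hli h5 0 (by omega)) (hrim i hi hli h5 1 (by omega))
        (hpt j hj (hone j hj hji) h5 (by omega) j)
  push Not at h2
  have hone : ∀ j ∈ I, l j = 1 := by
    intro j hj
    have q1 := h2 j hj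
    have q2 := hA j hj
    have q3 := hOk.pos j hj
    omega
  have hsc : I.card = s := by
    rw [← hs, Finset.sum_congr rfl hone, Finset.card_eq_sum_ones]
  obtain ⟨i, hi⟩ := Finset.card_pos.1 (show 0 < I.card by omega)
  by_cases c4 : I.card = 3
  · refine GM5_b3 hOk.g_ne a 1 hOk.zero c4 hi (hone i hi) (fun j hj _ => hone j hj) ?_
    cases a
    · rw [Bool.toNat_false] at hn
      omega
    · exact hB.de11_111
  by_cases c5 : I.card = 4
  · exact GM5_b4 hB hOk.g_ne a hOk.zero c5 hone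
  · obtain ⟨j, hj⟩ := Finset.card_pos.1 (show 0 < (I.erase i).card by rw [hcd i hi]; omega)
    obtain ⟨hji, hj⟩ := Finset.mem_erase.1 hj
    have h5 : 5 ≤ s := by omega
    refine GE7 hOk c3 ⟨hi, hj, hji.symm, Or.inl ⟨hone i hi, rfl, rfl⟩, Or.inl ⟨hone j hj, rfl⟩⟩
      (hc (by omega)) (hpt i hi (hone i hi) h5 (by omega) i) ?_
      (hpt j hj (hone j hj) h5 (by omega) j)
    refine GM5_mono (fun x hx => Or.inl hx) (GE2 hOk.g_ne hOk.zero hOk.two hi (hone i hi) ?_)
    refine IH (g * g) true (I.erase i) l (GM5_erase_ok hOk hgg (by omega) hi) ?_ h5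
    have q1 := hsplit i hi
    have q2 := hone i hi
    omega

/-- GM5. Induction on `s = ∑ l i`. `s = 3` (`a = true`): `(1,1,1)`, `de11_111`. `s = 4`: `(2,2)`, `(2,1,1)`,
`(1,1,1,1)`: `de01_..`, `de11_..` (up to GI5, GI2c). `s ≥ 5`: some `l i ≥ 3`: GE5. Otherwise at least three
legs, GE7 with `hc` from GE3 and GM4, and:
* two legs `i ≠ j` with `l = 2`: `y₁, y₂` = the rims of `i`, `x` = rim 0 of `j`, GE4 (lower: `dec l i`,
`dec l j`, `s - 1 ≥ 4`).
* exactly one leg `i` with `l i = 2` (then at least four legs): `y₁, y₂` = its rims (GE4), `x = e j 0`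
(GE1, `I.erase j`, at least three legs).
* all `l = 1`, at least five legs: `y₁ = e i 0`, `y₂ = e i 0 + g t`, `x = e j 0` (GE1, GE2).
`DeP ⊆ DeQ` (`CK.congr`). -/
theorem GM5 (hB : BaseA) (g : F4) (a : Bool) (I : Finset ℕ) (l : ℕ → ℕ) (hOk : DeOk g I l)
    (hn : 7 ≤ 2 * (∑ i ∈ I, l i) + a.toNat) :
    AK (DeK true I) (DeC g a true I l) (DeP g a true I l) :=
  GM5_main hB _ g a I l hOk rfl hn

end QG
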