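import Pool.Agent.Lib.QG.BaseA
import Pool.Agent.Lib.QG.GF7

/-! MP_2e6874_co, part (A), row GM6. -/

set_option autoImplicit false

namespace QG
open Set Matroid Submodule

/-- GM6. `w4`, `w5`, GF7. -/
theorem GM6 (hB : BaseA) (r : ℕ) (hr : 4 ≤ r) : AK ⊥ (WhC r) (WhP r) := by
  induction r using Nat.strong_induction_on with
  | _ r ih =>
    rcases Nat.lt_or_ge r 6 with h | h
    · have h2 : r = 4 ∨ r = 5 := by omega
      rcases h2 with rfl | rfl
      · exact hB.w4
      · exact hB.w5
    · exact GF7 h (ih (r - 1) (by omega) (by omega))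

end QG
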