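import Pool.Agent.Lib.QG.GB1

/-! MP_2e6874_co, part (A), row GN1. Numbers of points. -/

set_option autoImplicit false

namespace QG
open Set Matroid Submodule

/-- GN1a. different elements of a simple matroid are on different lines; each line of `LnK K C` contains
a member of `C` -/
theorem IsCfg.ncard_le {α : Type} {M : Matroid α} (hM : M.Finite)
    (hsim : ∀ x ∈ M.E, ∀ y ∈ M.E, M.Indep {x, y}) {K : Submodule F4 VV} {C : Set VV}
    (h : IsCfg M K C) (hC : C.Finite) : M.E.ncard ≤ C.ncard := by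
  obtain ⟨f, hf, hL⟩ := h
  have hK : ∀ x ∈ M.E, f x ∉ K := by
    intro x hx hxK
    have h1 := (hf {x} (by simpa using hx)).mp (by simpa using hsim x hx x hx)
    have h2 := h1.ne_zero (Set.mem_singleton x)
    apply h2
    rw [Function.comp_apply, Submodule.mkQ_apply, Submodule.Quotient.mk_eq_zero]
    exact hxK
  have hg : ∀ x ∈ M.E, ∃ c ∈ C, ∃ s : F4, f x + s • c ∈ K := by
    intro x hx
    have h1 : f x ∈ LnK K (f '' M.E) := by
      refine ⟨hK x hx, f x, ⟨x, hx, rfl⟩, 1, ?_⟩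
      rw [one_smul, vadd_self]
      exact K.zero_mem
    rw [hL] at h1
    exact h1.2
  choose! g hgC s hs using hg
  refine Set.ncard_le_ncard_of_injOn g hgC ?_ hC
  intro x hx y hy hxy
  by_contra hne
  have h1 := (hf {x, y} (by
    rintro z (rfl | rfl)
    · exact hx
    · exact hy)).mp (hsim x hx y hy)
  have hx1 := hs x hx
  have hy1 := hs y hy
  rw [← hxy] at hy1
  have hs0 : s x ≠ 0 := by
    intro h0
    rw [h0, zero_smul, add_zero] at hx1
    exact hK x hx hx1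
  have h2 : K.mkQ (s y • f x + s x • f y) = 0 := by
    rw [Submodule.mkQ_apply, Submodule.Quotient.mk_eq_zero]
    have h3 := K.add_mem (K.smul_mem (s y) hx1) (K.smul_mem (s x) hy1)
    have h4 : s y • (f x + s x • g x) + s x • (f y + s y • g x) =
        s y • f x + s x • f y + (s y * s x) • (g x + g x) := by
      rw [smul_add, smul_add, smul_smul, smul_smul, smul_add, mul_comm (s x) (s y)]
      abel
    rw [h4, vadd_self, smul_zero, add_zero] at h3
    exact h3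
  rw [map_add, map_smul, map_smul] at h2
  rw [LinearIndepOn.pair_iff _ hne] at h1
  exact hs0 (h1 (s y) (s x) h2).2

/-- The points of the strands. -/
private theorem GN1_msc (I : Finset ℕ) (m : ℕ → ℕ) (A B : ℕ → VV) {C0 : Set VV} (hC : C0.Finite) :
    (MSC I m A B C0).Finite ∧ (MSC I m A B C0).ncard ≤
      C0.ncard + ∑ i ∈ I, (m i - 1) + ∑ i ∈ I, m i := by
  classical
  obtain ⟨S1, hS1⟩ : ∃ S1 : Finset VV, S1 = I.biUnion fun i =>
      (Finset.Ioo 0 (m i)).image fun n => e i n := ⟨_, rfl⟩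
  obtain ⟨S2, hS2⟩ : ∃ S2 : Finset VV, S2 = I.biUnion fun i =>
      (Finset.range (m i)).image fun n => msu m A B i n + msu m A B i (n + 1) := ⟨_, rfl⟩
  have h1 : {x | ∃ i ∈ I, ∃ n, 0 < n ∧ n < m i ∧ x = e i n} = (S1 : Set VV) := by
    ext x
    rw [hS1]
    simp only [Finset.coe_biUnion, Finset.coe_image, Set.mem_iUnion, Set.mem_image,
      Finset.mem_coe, Finset.mem_Ioo, Set.mem_ofPred_eq]
    constructor
    · rintro ⟨i, hi, n, h0, h1, rfl⟩
      exact ⟨i, hi, n, ⟨h0, h1⟩, rfl⟩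
    · rintro ⟨i, hi, n, ⟨h0, h1⟩, rfl⟩
      exact ⟨i, hi, n, h0, h1, rfl⟩
  have h2 : {x | ∃ i ∈ I, ∃ n < m i, x = msu m A B i n + msu m A B i (n + 1)} =
      (S2 : Set VV) := by
    ext x
    rw [hS2]
    simp only [Finset.coe_biUnion, Finset.coe_image, Set.mem_iUnion, Set.mem_image,
      Finset.mem_coe, Finset.mem_range, Set.mem_ofPred_eq]
    constructor
    · rintro ⟨i, hi, n, h0, rfl⟩
      exact ⟨i, hi, n, h0, rfl⟩
    · rintro ⟨i, hi, n, h0, rfl⟩
      exact ⟨i, hi, n, h0, rfl⟩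
  have c1 : S1.card ≤ ∑ i ∈ I, (m i - 1) := by
    rw [hS1]
    refine Finset.card_biUnion_le.trans (Finset.sum_le_sum fun i _ => ?_)
    refine Finset.card_image_le.trans ?_
    rw [Nat.card_Ioo]
    omega
  have c2 : S2.card ≤ ∑ i ∈ I, m i := by
    rw [hS2]
    refine Finset.card_biUnion_le.trans (Finset.sum_le_sum fun i _ => ?_)
    refine Finset.card_image_le.trans ?_
    rw [Finset.card_range]
  rw [MSC, h1, h2]
  refine ⟨(hC.union S1.finite_toSet).union S2.finite_toSet, ?_⟩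
  refine (Set.ncard_union_le _ _).trans ?_
  have h3 := Set.ncard_union_le C0 (S1 : Set VV)
  rw [Set.ncard_coe_finset] at h3 ⊢
  omega

private theorem GN1_bs (b : Bool) (x : VV) : (bs b {x}).Finite ∧ (bs b {x}).ncard ≤ b.toNat := by
  cases b with
  | false =>
    have h : bs false {x} = ∅ := by
      ext y
      simp [bs]
    rw [h]
    simp
  | true =>
    have h : bs true {x} = {x} := by
      ext y
      simp [bs]
    rw [h]
    simp

private theorem GN1_un3 {X Y Z : Set VV} {x y z : ℕ} (hX : X.Finite ∧ X.ncard ≤ x)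
    (hY : Y.Finite ∧ Y.ncard ≤ y) (hZ : Z.Finite ∧ Z.ncard ≤ z) :
    (X ∪ Y ∪ Z).Finite ∧ (X ∪ Y ∪ Z).ncard ≤ x + y + z := by
  refine ⟨(hX.1.union hY.1).union hZ.1, ?_⟩
  have h1 := Set.ncard_union_le (X ∪ Y) Z
  have h2 := Set.ncard_union_le X Y
  omega

/-- GN1b. -/
theorem ThC_ncard (a b : Bool) (m : ℕ → ℕ) (hm : ∀ i < 3, 1 ≤ m i) :
    (ThC a b m).Finite ∧ (ThC a b m).ncard + 3 ≤ 2 * (m 0 + m 1 + m 2) + a.toNat + b.toNat := by
  have h1 := GN1_bs a (e 3 0)
  have h2 := GN1_bs b (e 3 1)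
  have h3 : (bs a {e 3 0} ∪ bs b {e 3 1}).ncard ≤ a.toNat + b.toNat := by
    have := Set.ncard_union_le (bs a {e 3 0}) (bs b {e 3 1})
    omega
  obtain ⟨h4, h5⟩ := GN1_msc I3 m (fun _ => e 3 0) (fun i => g3 i • e 3 1) (h1.1.union h2.1)
  refine ⟨h4, ?_⟩
  rw [← ThC] at h5
  have h6 : ∑ i ∈ I3, (m i - 1) = (m 0 - 1) + (m 1 - 1) + (m 2 - 1) := by
    simp [I3, add_assoc]
  have h7 : ∑ i ∈ I3, m i = m 0 + m 1 + m 2 := by
    simp [I3, add_assoc]
  rw [h6, h7] at h5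
  have := hm 0 (by norm_num)
  have := hm 1 (by norm_num)
  have := hm 2 (by norm_num)
  omega

/-- GN1c. -/
theorem LaC_ncard (a b : Bool) (m : ℕ → ℕ) :
    (LaC a b m).Finite ∧ (LaC a b m).ncard ≤ 2 * (m 0 + m 1 + m 2) + 3 + a.toNat + b.toNat := by
  classical
  obtain ⟨S, hS⟩ : ∃ S : Finset VV, S = I3.biUnion fun i => {e i 0, LaB m i} := ⟨_, rfl⟩
  have h1 : {x | ∃ i < 3, x = e i 0 ∨ x = LaB m i} = (S : Set VV) := by
    ext x
    rw [hS]
    simp only [Finset.coe_biUnion, Set.mem_iUnion, Finset.mem_coe, Set.mem_ofPred_eq,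
      Finset.mem_insert, Finset.mem_singleton]
    constructor
    · rintro ⟨i, hi, h⟩
      refine ⟨i, ?_, h⟩
      simp only [I3, Finset.mem_insert, Finset.mem_singleton]
      omega
    · rintro ⟨i, hi, h⟩
      refine ⟨i, ?_, h⟩
      simp only [I3, Finset.mem_insert, Finset.mem_singleton] at hi
      omega
  have h2 : S.card ≤ ∑ i ∈ I3, (if m i = 0 then 1 else 2) := by
    rw [hS]
    refine Finset.card_biUnion_le.trans (Finset.sum_le_sum fun i _ => ?_)
    split_ifs with h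
    · rw [LaB, if_pos h]
      simp
    · exact Finset.card_le_two
  have h3 : (S : Set VV).Finite ∧ (S : Set VV).ncard ≤ ∑ i ∈ I3, (if m i = 0 then 1 else 2) :=
    ⟨S.finite_toSet, by rw [Set.ncard_coe_finset]; exact h2⟩
  obtain ⟨h4, h5⟩ := GN1_un3 h3 (GN1_bs a Lac) (GN1_bs b (Lac' m))
  obtain ⟨h6, h7⟩ := GN1_msc I3 m (fun i => e i 0) (LaB m) h4
  rw [LaC, h1]
  refine ⟨h6, h7.trans ?_⟩
  have h8 : ∀ i, (if m i = 0 then 1 else 2) + (m i - 1) + m i = 2 * m i + 1 := by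
    intro i
    split_ifs <;> omega
  have h9 : ∑ i ∈ I3, (if m i = 0 then 1 else 2) + ∑ i ∈ I3, (m i - 1) + ∑ i ∈ I3, m i =
      2 * (m 0 + m 1 + m 2) + 3 := by
    rw [← Finset.sum_add_distrib, ← Finset.sum_add_distrib, Finset.sum_congr rfl fun i _ => h8 i]
    simp [I3]
    ring
  omega

/-- GN1d. -/
theorem DeC_ncard (g : F4) (a b : Bool) (I : Finset ℕ) (l : ℕ → ℕ) (hl : ∀ i ∈ I, 1 ≤ l i) :
    (DeC g a b I l).Finite ∧
      (DeC g a b I l).ncard ≤ 2 * (∑ i ∈ I, l i) + a.toNat + b.toNat := by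
  classical
  have h1 : {x | ∃ i ∈ I, x = e i 0} = ((I.image fun i => e i 0 : Finset VV) : Set VV) := by
    ext x
    simp [eq_comm]
  have h3 : ({x | ∃ i ∈ I, x = e i 0} : Set VV).Finite ∧
      ({x | ∃ i ∈ I, x = e i 0} : Set VV).ncard ≤ I.card := by
    rw [h1]
    exact ⟨Finset.finite_toSet _, by rw [Set.ncard_coe_finset]; exact Finset.card_image_le⟩
  obtain ⟨h4, h5⟩ := GN1_un3 h3 (GN1_bs a (e 0 0)) (GN1_bs b (Dec I))
  obtain ⟨h6, h7⟩ := GN1_msc I l (fun i => e i 0) (fun _ => g • e 0 0) h4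
  refine ⟨h6, h7.trans ?_⟩
  have h8 : I.card + ∑ i ∈ I, (l i - 1) = ∑ i ∈ I, l i := by
    rw [Finset.card_eq_sum_ones, ← Finset.sum_add_distrib]
    refine Finset.sum_congr rfl fun i hi => ?_
    have := hl i hi
    omega
  omega

/-- GN1e. -/
theorem WhC_ncard (r : ℕ) (hr : 1 ≤ r) : (WhC r).Finite ∧ (WhC r).ncard ≤ 2 * r := by
  obtain ⟨h6, h7⟩ := GN1_msc {0} (fun _ => r) (fun _ => e 0 0) (fun _ => F4.w • e 0 0)
    (Set.finite_singleton (e 0 0))
  refine ⟨h6, h7.trans ?_⟩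
  rw [Set.ncard_singleton, Finset.sum_singleton, Finset.sum_singleton]
  omega

end QG
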