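import Pool.Agent.Lib.QG.GDefs

/-! MP_2e6874_co, part (A): definition for the rows GX*. -/

set_option autoImplicit false

namespace QG
open Set Matroid Submodule

/-- one rim more in strand `i` -/
def inc (m : ℕ → ℕ) (i : ℕ) : ℕ → ℕ := Function.update m i (m i + 1)

end QG
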