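import Pool.Agent.Lib.QG.GB2
import Pool.Agent.Lib.QG.GXd

/-! MP_2e6874_co, part (A), row GX1. Adding a tip to `Th`; rotation for configurations. -/

set_option autoImplicit false

namespace QG
open Set Matroid Submodule

private def GX1_Rel (K : Submodule F4 VV) (A C : Set VV) : Prop :=
  ∀ x ∈ A, ∃ c ∈ C, ∃ s : F4, s ≠ 0 ∧ x + s • c ∈ K

private theorem GX1_sub {K : Submodule F4 VV} {A C : Set VV} (h : A ⊆ C) : GX1_Rel K A C := by
  intro x hx
  refine ⟨x, h hx, 1, by decide, ?_⟩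
  rw [one_smul, vadd_self]
  exact zero_mem _

private theorem GX1_union {K : Submodule F4 VV} {A B C : Set VV} (h : GX1_Rel K A C)
    (h' : GX1_Rel K B C) : GX1_Rel K (A ∪ B) C := by
  rintro x (hx | hx)
  · exact h x hx
  · exact h' x hx

private theorem GX1_mono {K : Submodule F4 VV} {A C D : Set VV} (h : GX1_Rel K A C) (hCD : C ⊆ D) :
    GX1_Rel K A D := by
  intro x hx
  obtain ⟨c, hc, s, hs, h1⟩ := h x hx
  exact ⟨c, hCD hc, s, hs, h1⟩

private theorem GX1_congr {K : Submodule F4 VV} {A B C D : Set VV} (h : GX1_Rel K A C)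
    (h' : GX1_Rel K B D) : GX1_Rel K (A ∪ B) (C ∪ D) :=
  GX1_union (GX1_mono h subset_union_left) (GX1_mono h' subset_union_right)

private theorem GX1_LnK {K : Submodule F4 VV} {A C : Set VV} (h : GX1_Rel K A C) :
    LnK K A ⊆ LnK K C := by
  rintro y ⟨hy, c, hc, s, hs⟩
  obtain ⟨c', hc', t, -, ht⟩ := h c hc
  refine ⟨hy, c', hc', s * t, ?_⟩
  have h1 := add_mem hs (K.smul_mem s ht)
  have h2 : y + s • c + s • (c + t • c') = y + (s * t) • c' := by
    rw [smul_add, mul_smul]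
    have h3 := vadd_self (s • c)
    calc y + s • c + (s • c + s • t • c') = y + (s • c + s • c) + s • t • c' := by abel
      _ = y + s • t • c' := by rw [h3, add_zero]
  rwa [h2] at h1

private def GX1_r (i : ℕ) : ℕ :=
  if i = 0 then 1 else if i = 1 then 2 else if i = 2 then 0 else if i = 4 then 5 else
    if i = 5 then 6 else if i = 6 then 4 else i

private def GX1_r' (i : ℕ) : ℕ :=
  if i = 1 then 0 else if i = 2 then 1 else if i = 0 then 2 else if i = 5 then 4 else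
    if i = 6 then 5 else if i = 4 then 6 else i

private theorem GX1_r'_r (i : ℕ) : GX1_r' (GX1_r i) = i := by
  by_cases h : i ≤ 6
  · interval_cases i <;> rfl
  · have h1 : GX1_r i = i := by
      unfold GX1_r
      rw [if_neg (by omega), if_neg (by omega), if_neg (by omega), if_neg (by omega),
        if_neg (by omega), if_neg (by omega)]
    rw [h1]
    unfold GX1_r'
    rw [if_neg (by omega), if_neg (by omega), if_neg (by omega), if_neg (by omega),
      if_neg (by omega), if_neg (by omega)]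

private noncomputable def GX1_Phi (r : ℕ → ℕ) (c : ℕ → ℕ → F4) : VV →ₗ[F4] VV :=
  Finsupp.linearCombination F4 fun k : ℕ × ℕ => c k.1 k.2 • e (r k.1) k.2

private theorem GX1_Phi_e (r : ℕ → ℕ) (c : ℕ → ℕ → F4) (i n : ℕ) :
    GX1_Phi r c (e i n) = c i n • e (r i) n := by
  unfold GX1_Phi e
  rw [Finsupp.linearCombination_single, one_smul]

private theorem GX1_id {r r' : ℕ → ℕ} {c c' : ℕ → ℕ → F4} (hr : ∀ i, r' (r i) = i)
    (hc : ∀ i n, c i n * c' (r i) n = 1) (x : VV) : GX1_Phi r' c' (GX1_Phi r c x) = x := by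
  have h : (GX1_Phi r' c').comp (GX1_Phi r c) = LinearMap.id := by
    refine Finsupp.lhom_ext' fun k => LinearMap.ext_ring ?_
    obtain ⟨i, n⟩ := k
    show GX1_Phi r' c' (GX1_Phi r c (e i n)) = e i n
    rw [GX1_Phi_e, map_smul, GX1_Phi_e, smul_smul, hc, hr, one_smul]
  exact LinearMap.congr_fun h x

private theorem GX1_I3 {i : ℕ} : i ∈ I3 ↔ i = 0 ∨ i = 1 ∨ i = 2 := by
  unfold I3
  simp

private theorem GX1_MSC {m m' : ℕ → ℕ} {A B A' B' : ℕ → VV} {C0 : Set VV} (Φ : VV →ₗ[F4] VV)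
    (hm : ∀ i ∈ I3, m' i = m (GX1_r i)) (he : ∀ i ∈ I3, ∀ n, Φ (e i n) = e (GX1_r i) n)
    (hA : ∀ i ∈ I3, Φ (A' i) = A (GX1_r i)) (hB : ∀ i ∈ I3, Φ (B' i) = B (GX1_r i)) :
    Φ '' MSC I3 m' A' B' C0 = MSC I3 m A B (Φ '' C0) := by
  have hr : ∀ i ∈ I3, GX1_r i ∈ I3 := by
    intro i hi
    rw [GX1_I3] at hi ⊢
    unfold GX1_r
    split_ifs <;> omega
  have hs : ∀ i ∈ I3, ∃ j ∈ I3, GX1_r j = i := by
    intro i hi
    rcases GX1_I3.1 hi with rfl | rfl | rfl
    · exact ⟨2, by decide, rfl⟩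
    · exact ⟨0, by decide, rfl⟩
    · exact ⟨1, by decide, rfl⟩
  have hu : ∀ i ∈ I3, ∀ n, Φ (msu m' A' B' i n) = msu m A B (GX1_r i) n := by
    intro i hi n
    unfold msu
    rw [hm i hi]
    split_ifs
    · exact hA i hi
    · exact hB i hi
    · exact he i hi n
  unfold MSC
  rw [image_union, image_union]
  congr 1
  · congr 1
    ext y
    constructor
    · rintro ⟨_, ⟨i, hi, n, h0, hn, rfl⟩, rfl⟩
      exact ⟨GX1_r i, hr i hi, n, h0, by rwa [← hm i hi], he i hi n⟩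
    · rintro ⟨i, hi, n, h0, hn, rfl⟩
      obtain ⟨j, hj, rfl⟩ := hs i hi
      exact ⟨e j n, ⟨j, hj, n, h0, by rwa [hm j hj], rfl⟩, he j hj n⟩
  · ext y
    constructor
    · rintro ⟨_, ⟨i, hi, n, hn, rfl⟩, rfl⟩
      refine ⟨GX1_r i, hr i hi, n, by rwa [← hm i hi], ?_⟩
      rw [map_add, hu i hi, hu i hi]
    · rintro ⟨i, hi, n, hn, rfl⟩
      obtain ⟨j, hj, rfl⟩ := hs i hi
      refine ⟨msu m' A' B' j n + msu m' A' B' j (n + 1), ⟨j, hj, n, by rwa [hm j hj], rfl⟩, ?_⟩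
      rw [map_add, hu j hj, hu j hj]


private theorem GX1_cfg {α : Type} {M : Matroid α} {a b : Bool} {m m' : ℕ → ℕ} (h0 : m' 0 = m 1)
    (h1 : m' 1 = m 2) (h2 : m' 2 = m 0) (h : IsCfg M ⊥ (ThC a b m')) : IsCfg M ⊥ (ThC a b m) := by
  set c : ℕ → ℕ → F4 := fun i n => if i = 3 ∧ n = 1 then F4.w else F4.i with hc
  set c' : ℕ → ℕ → F4 := fun i n => if i = 3 ∧ n = 1 then F4.v else F4.i with hc'
  have hone : F4.i = 1 := rfl
  have hm : ∀ i ∈ I3, m' i = m (GX1_r i) := by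
    intro i hi
    rcases GX1_I3.1 hi with rfl | rfl | rfl
    · exact h0
    · exact h1
    · exact h2
  have he : ∀ i ∈ I3, ∀ n, GX1_Phi GX1_r c (e i n) = e (GX1_r i) n := by
    intro i hi n
    rw [GX1_Phi_e, hc]
    have : ¬ (i = 3 ∧ n = 1) := by
      rcases GX1_I3.1 hi with rfl | rfl | rfl <;> omega
    beta_reduce
    rw [if_neg this, hone, one_smul]
  have e30 : GX1_Phi GX1_r c (e 3 0) = e 3 0 := by
    rw [GX1_Phi_e, hc]
    beta_reduce
    rw [if_neg (by omega), hone, one_smul]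
    rfl
  have e31 : GX1_Phi GX1_r c (e 3 1) = F4.w • e 3 1 := by
    rw [GX1_Phi_e, hc]
    beta_reduce
    rw [if_pos ⟨rfl, rfl⟩]
    rfl
  have hB : ∀ i ∈ I3, GX1_Phi GX1_r c (g3 i • e 3 1) = g3 (GX1_r i) • e 3 1 := by
    intro i hi
    rw [map_smul, e31, smul_smul]
    congr 1
    rcases GX1_I3.1 hi with rfl | rfl | rfl <;> decide
  have hMSC := GX1_MSC (m := m) (m' := m') (A := fun _ => e 3 0) (B := fun i => g3 i • e 3 1)
    (A' := fun _ => e 3 0) (B' := fun i => g3 i • e 3 1) (C0 := bs a {e 3 0} ∪ bs b {e 3 1})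
    (GX1_Phi GX1_r c) hm he (fun i _ => e30) hB
  have hC1 : GX1_Rel ⊥ (GX1_Phi GX1_r c '' (bs a {e 3 0} ∪ bs b {e 3 1}))
      (bs a {e 3 0} ∪ bs b {e 3 1}) := by
    rintro _ ⟨x, ⟨hx, rfl⟩ | ⟨hx, rfl⟩, rfl⟩
    · refine ⟨e 3 0, Or.inl ⟨hx, rfl⟩, 1, by decide, ?_⟩
      rw [e30, one_smul, vadd_self]
      exact zero_mem _
    · refine ⟨e 3 1, Or.inr ⟨hx, rfl⟩, F4.w, by decide, ?_⟩
      rw [e31, vadd_self]
      exact zero_mem _
  have hC2 : GX1_Rel ⊥ (bs a {e 3 0} ∪ bs b {e 3 1})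
      (GX1_Phi GX1_r c '' (bs a {e 3 0} ∪ bs b {e 3 1})) := by
    rintro x (⟨hx, rfl⟩ | ⟨hx, rfl⟩)
    · refine ⟨_, ⟨e 3 0, Or.inl ⟨hx, rfl⟩, rfl⟩, 1, by decide, ?_⟩
      rw [e30, one_smul, vadd_self]
      exact zero_mem _
    · refine ⟨_, ⟨e 3 1, Or.inr ⟨hx, rfl⟩, rfl⟩, F4.v, by decide, ?_⟩
      have : F4.v * F4.w = 1 := by decide
      rw [e31, smul_smul, this, one_smul, vadd_self]
      exact zero_mem _
  have hCC : GX1_Rel ⊥ (ThC a b m) (GX1_Phi GX1_r c '' ThC a b m') := by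
    unfold ThC
    rw [hMSC]
    unfold MSC
    exact GX1_congr (GX1_congr hC2 (GX1_sub subset_rfl)) (GX1_sub subset_rfl)
  refine IsCfg.map (GX1_Phi GX1_r c) (GX1_Phi GX1_r' c') ?_ ?_ ?_ ?_ h
  · intro k hk
    rw [(Submodule.mem_bot F4).1 hk, map_zero]
    exact zero_mem _
  · intro k hk
    rw [(Submodule.mem_bot F4).1 hk, map_zero]
    exact zero_mem _
  · intro x _
    rw [GX1_id GX1_r'_r, vadd_self]
    · exact zero_mem _
    · intro i n
      rw [hc, hc']
      beta_reduce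
      by_cases h3 : i = 3
      · subst h3
        have : GX1_r 3 = 3 := rfl
        rw [this]
        by_cases hn : n = 1
        · rw [if_pos ⟨rfl, hn⟩, if_pos ⟨rfl, hn⟩]
          decide
        · rw [if_neg (fun h => hn h.2), if_neg (fun h => hn h.2)]
          decide
      · have h4 : GX1_r i ≠ 3 := by
          unfold GX1_r
          split_ifs <;> omega
        rw [if_neg (fun h => h3 h.1), if_neg (fun h => h4 h.1)]
        decide
  · refine Subset.antisymm (GX1_LnK ?_) (GX1_LnK hCC)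
    unfold ThC
    rw [hMSC]
    unfold MSC
    exact GX1_congr (GX1_congr hC1 (GX1_sub subset_rfl)) (GX1_sub subset_rfl)

/-- GX1a. adding a tip: `insert (e 3 0) (ThC false b m) = ThC true b m` etc. -/
theorem GX1a {α : Type} {M : Matroid α} {a b : Bool} {m : ℕ → ℕ} {p : VV}
    (hp : p = e 3 0 ∨ p = e 3 1) (hpC : p ∉ LnK ⊥ (ThC a b m))
    (h : IsCfg M ⊥ (insert p (ThC a b m))) :
    ∃ a' b' : Bool, IsCfg M ⊥ (ThC a' b' m) := by
  rcases hp with rfl | rfl
  · refine ⟨true, b, ?_⟩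
    have : insert (e 3 0) (ThC a b m) = ThC true b m := by
      ext x
      constructor
      · rintro (rfl | ((((hx | hx) | hx)) | hx))
        · exact Or.inl (Or.inl (Or.inl ⟨rfl, rfl⟩))
        · exact Or.inl (Or.inl (Or.inl ⟨rfl, hx.2⟩))
        · exact Or.inl (Or.inl (Or.inr hx))
        · exact Or.inl (Or.inr hx)
        · exact Or.inr hx
      · rintro ((((hx | hx) | hx)) | hx)
        · exact Or.inl hx.2
        · exact Or.inr (Or.inl (Or.inl (Or.inr hx)))
        · exact Or.inr (Or.inl (Or.inr hx))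
        · exact Or.inr (Or.inr hx)
    rwa [this] at h
  · refine ⟨a, true, ?_⟩
    have : insert (e 3 1) (ThC a b m) = ThC a true m := by
      ext x
      constructor
      · rintro (rfl | ((((hx | hx) | hx)) | hx))
        · exact Or.inl (Or.inl (Or.inr ⟨rfl, rfl⟩))
        · exact Or.inl (Or.inl (Or.inl hx))
        · exact Or.inl (Or.inl (Or.inr ⟨rfl, hx.2⟩))
        · exact Or.inl (Or.inr hx)
        · exact Or.inr hx
      · rintro ((((hx | hx) | hx)) | hx)
        · exact Or.inr (Or.inl (Or.inl (Or.inl hx)))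
        · exact Or.inl hx.2
        · exact Or.inr (Or.inl (Or.inr hx))
        · exact Or.inr (Or.inr hx)
    rwa [this] at h

/-- GX1b. -/
theorem GX1b {α : Type} {M : Matroid α} {a b : Bool} {m : ℕ → ℕ} (hm : ThOk m) {p : VV}
    (hp : p ∈ ThP a b m) (hp0 : p ∉ (⊥ : Submodule F4 VV)) (hpC : p ∉ LnK ⊥ (ThC a b m))
    (h : IsCfg M ⊥ (insert p (ThC a b m))) : Fam M := by
  have hp' : p = e 3 0 ∨ p = e 3 1 := by
    rcases hp with hp | hp
    · exfalso
      apply hpC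
      refine ⟨hp0, p, hp, 1, ?_⟩
      rw [one_smul, vadd_self]
      exact zero_mem _
    · rcases hp with hp | hp | hp
      · exact Or.inl hp
      · exact Or.inr hp
      · exfalso
        apply hp0
        rw [mem_singleton_iff] at hp
        rw [hp]
        exact zero_mem _
  obtain ⟨a', b', h'⟩ := GX1a hp' hpC h
  exact Fam.th a' b' m hm h'

/-- GX1c. rotation of the strands (the maps of GI1a, `IsCfg.map`) -/
theorem GX1c {α : Type} {M : Matroid α} {a b : Bool} {m m' : ℕ → ℕ} (h0 : m' 0 = m 1)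
    (h1 : m' 1 = m 2) (h2 : m' 2 = m 0) (h : IsCfg M ⊥ (ThC a b m)) : IsCfg M ⊥ (ThC a b m') := by
  have h3 : IsCfg M ⊥ (ThC a b (fun i => m' (GX1_r i))) :=
    GX1_cfg (m' := m) h2.symm h0.symm h1.symm h
  exact GX1_cfg (m' := fun i => m' (GX1_r i)) rfl rfl rfl h3

end QG
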