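import Pool.Agent.Lib.QG.GB2
import Pool.Agent.Lib.QG.GXd

/-! MP_2e6874_co, part (A), row GX2p1. One more vector for the special configuration. -/

set_option autoImplicit false

namespace QG
open Set Matroid Submodule

private def GX2p1_Pr (K : Submodule F4 VV) (x c : VV) : Prop := ∃ s : F4, s ≠ 0 ∧ x + s • c ∈ K

private theorem GX2p1_symm {K : Submodule F4 VV} {x c : VV} (h : GX2p1_Pr K x c) : GX2p1_Pr K c x := by
  obtain ⟨s, hs, h1⟩ := h
  refine ⟨s⁻¹, inv_ne_zero hs, ?_⟩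
  have h3 := K.smul_mem s⁻¹ h1
  rwa [smul_add, smul_smul, inv_mul_cancel₀ hs, one_smul, add_comm] at h3

private theorem GX2p1_eq {K : Submodule F4 VV} {x c : VV} (h : x = c) : GX2p1_Pr K x c := by
  refine ⟨1, by decide, ?_⟩
  rw [h, one_smul, vadd_self]
  exact zero_mem _

private theorem GX2p1_LnK {K : Submodule F4 VV} {A C : Set VV}
    (h : ∀ x ∈ A, ∃ c ∈ C, GX2p1_Pr K x c) : LnK K A ⊆ LnK K C := by
  rintro y ⟨hy, c, hc, s, hs⟩
  obtain ⟨c', hc', t, -, ht⟩ := h c hc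
  refine ⟨hy, c', hc', s * t, ?_⟩
  have h1 := add_mem hs (K.smul_mem s ht)
  have h2 : y + s • c + s • (c + t • c') = y + (s * t) • c' := by
    rw [smul_add, mul_smul]
    have h3 := vadd_self (s • c)
    calc y + s • c + (s • c + s • t • c') = y + (s • c + s • c) + s • t • c' := by abel
      _ = y + s • t • c' := by rw [h3, add_zero]
  rwa [h2] at h1

private theorem GX2p1_map {α : Type} {M : Matroid α} {K' : Submodule F4 VV} {C C' : Set VV}
    (Φ Θ : VV →ₗ[F4] VV) (h2 : ∀ k ∈ K', Θ k = 0) (h3 : ∀ x ∈ C, Θ (Φ x) = x)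
    (hC : ∀ x ∈ C, ∃ c ∈ C', GX2p1_Pr K' (Φ x) c) (hC' : ∀ c ∈ C', ∃ x ∈ C, GX2p1_Pr K' (Φ x) c)
    (h : IsCfg M ⊥ C) : IsCfg M K' C' := by
  refine IsCfg.map Φ Θ ?_ ?_ ?_ (Subset.antisymm (GX2p1_LnK ?_) (GX2p1_LnK ?_)) h
  · intro k hk
    rw [(Submodule.mem_bot F4).1 hk, map_zero]
    exact zero_mem _
  · intro k hk
    rw [h2 k hk]
    exact zero_mem _
  · intro x hx
    rw [h3 x hx, vadd_self]
    exact zero_mem _
  · rintro _ ⟨x, hx, rfl⟩
    exact hC x hx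
  · intro c hc
    obtain ⟨x, hx, h1⟩ := hC' c hc
    exact ⟨Φ x, ⟨x, hx, rfl⟩, GX2p1_symm h1⟩

/-- the linear map with given values on the coordinate vectors -/
private noncomputable def GX2p1_L (φ : ℕ → ℕ → VV) : VV →ₗ[F4] VV :=
  Finsupp.linearCombination F4 fun k : ℕ × ℕ => φ k.1 k.2

private theorem GX2p1_L_e (φ : ℕ → ℕ → VV) (i n : ℕ) : GX2p1_L φ (e i n) = φ i n := by
  unfold GX2p1_L e
  rw [Finsupp.linearCombination_single, one_smul]

private theorem GX2p1_I3 {i : ℕ} : i ∈ I3 ↔ i = 0 ∨ i = 1 ∨ i = 2 := by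
  unfold I3
  simp

private noncomputable def GX2p1_u (n : ℕ) : VV := if n = 0 then e 3 0 else e 2 n

/-- the members of the special configuration -/
private theorem GX2p1_mem {a : Bool} {m : ℕ} (hm : 3 ≤ m) {x : VV} :
    x ∈ ThC a false (m11 m) ↔ (a = true ∧ x = e 3 0) ∨ (∃ n, 1 ≤ n ∧ n + 1 ≤ m ∧ x = e 2 n) ∨
      x = e 3 0 + e 3 1 ∨ x = e 3 0 + F4.w • e 3 1 ∨
      (∃ n, n + 2 ≤ m ∧ x = GX2p1_u n + GX2p1_u (n + 1)) ∨ x = e 2 (m - 1) + F4.v • e 3 1 := by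
  have m0 : m11 m 0 = 1 := rfl
  have m1 : m11 m 1 = 1 := rfl
  have m2 : m11 m 2 = m := rfl
  have hu : ∀ n, n < m → msu (m11 m) (fun _ => e 3 0) (fun i => g3 i • e 3 1) 2 n = GX2p1_u n := by
    intro n hn
    unfold msu GX2p1_u
    rw [m2, if_neg (show ¬ n = m by omega)]
  have hv : msu (m11 m) (fun _ => e 3 0) (fun i => g3 i • e 3 1) 2 m = F4.v • e 3 1 := by
    unfold msu
    rw [m2, if_neg (show ¬ m = 0 by omega), if_pos rfl]
    rfl
  have h0 : msu (m11 m) (fun _ => e 3 0) (fun i => g3 i • e 3 1) 0 0 +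
      msu (m11 m) (fun _ => e 3 0) (fun i => g3 i • e 3 1) 0 1 = e 3 0 + e 3 1 := by
    unfold msu
    rw [m0, if_pos rfl, if_neg (by omega), if_pos rfl]
    show e 3 0 + g3 0 • e 3 1 = e 3 0 + e 3 1
    have : g3 0 • e 3 1 = e 3 1 := one_smul _ _
    rw [this]
  have h1 : msu (m11 m) (fun _ => e 3 0) (fun i => g3 i • e 3 1) 1 0 +
      msu (m11 m) (fun _ => e 3 0) (fun i => g3 i • e 3 1) 1 1 = e 3 0 + F4.w • e 3 1 := by
    unfold msu
    rw [m1, if_pos rfl, if_neg (by omega), if_pos rfl]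
    rfl
  unfold ThC MSC
  constructor
  · rintro (((⟨ha, hx⟩ | ⟨hb, -⟩) | ⟨i, hi, n, h3, hn, rfl⟩) | ⟨i, hi, n, hn, rfl⟩)
    · exact Or.inl ⟨ha, hx⟩
    · cases hb
    · rcases GX2p1_I3.1 hi with rfl | rfl | rfl
      · omega
      · omega
      · exact Or.inr (Or.inl ⟨n, h3, hn, rfl⟩)
    · rcases GX2p1_I3.1 hi with rfl | rfl | rfl
      · obtain rfl : n = 0 := by omega
        exact Or.inr (Or.inr (Or.inl h0))
      · obtain rfl : n = 0 := by omega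
        exact Or.inr (Or.inr (Or.inr (Or.inl h1)))
      · rw [m2] at hn
        by_cases h4 : n + 1 = m
        · right; right; right; right; right
          obtain rfl : n = m - 1 := by omega
          rw [hu _ hn, h4, hv]
          unfold GX2p1_u
          rw [if_neg (by omega)]
        · right; right; right; right; left
          exact ⟨n, by omega, by rw [hu _ hn, hu _ (by omega)]⟩
  · rintro (⟨ha, hx⟩ | ⟨n, h3, h4, rfl⟩ | rfl | rfl | ⟨n, h3, rfl⟩ | rfl)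
    · exact Or.inl (Or.inl (Or.inl ⟨ha, hx⟩))
    · exact Or.inl (Or.inr ⟨2, by decide, n, h3, by rw [m2]; omega, rfl⟩)
    · exact Or.inr ⟨0, by decide, 0, by rw [m0]; omega, h0.symm⟩
    · exact Or.inr ⟨1, by decide, 0, by rw [m1]; omega, h1.symm⟩
    · refine Or.inr ⟨2, by decide, n, by rw [m2]; omega, ?_⟩
      rw [hu _ (by omega), hu _ (by omega)]
    · refine Or.inr ⟨2, by decide, m - 1, by rw [m2]; omega, ?_⟩
      rw [hu _ (by omega), show m - 1 + 1 = m by omega, hv]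
      unfold GX2p1_u
      rw [if_neg (by omega)]

private def GX2p1_m (k : ℕ) : ℕ → ℕ := fun i => if i = 0 then 0 else if i = 1 then 1 else k

/-- the vertices of strand 2 of the target -/
private noncomputable def GX2p1_r (k n : ℕ) : VV := if n = 0 then e 2 0 else if n = k then e 6 0 else e 2 n

/-- the members of the target -/
private theorem GX2p1_La {a : Bool} {k : ℕ} (hk : 1 ≤ k) {x : VV} :
    x ∈ LaC a false (GX2p1_m k) ↔ x = e 0 0 ∨ x = e 1 0 ∨ x = e 5 0 ∨ (a = true ∧ x = Lac) ∨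
      x = e 1 0 + e 5 0 ∨ (∃ n, n ≤ k ∧ x = GX2p1_r k n) ∨
      (∃ n, n + 1 ≤ k ∧ x = GX2p1_r k n + GX2p1_r k (n + 1)) := by
  have m0 : GX2p1_m k 0 = 0 := rfl
  have m1 : GX2p1_m k 1 = 1 := rfl
  have m2 : GX2p1_m k 2 = k := rfl
  have b0 : LaB (GX2p1_m k) 0 = e 0 0 := rfl
  have b1 : LaB (GX2p1_m k) 1 = e 5 0 := rfl
  have b2 : LaB (GX2p1_m k) 2 = e 6 0 := by
    unfold LaB
    rw [m2, if_neg (by omega)]
  have u : ∀ n, msu (GX2p1_m k) (fun i => e i 0) (LaB (GX2p1_m k)) 2 n = GX2p1_r k n := by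
    intro n
    unfold msu GX2p1_r
    rw [m2, b2]
  have r1 : msu (GX2p1_m k) (fun i => e i 0) (LaB (GX2p1_m k)) 1 0 +
      msu (GX2p1_m k) (fun i => e i 0) (LaB (GX2p1_m k)) 1 1 = e 1 0 + e 5 0 := by
    unfold msu
    rw [m1, if_pos rfl, if_neg (by omega), if_pos rfl, b1]
  unfold LaC MSC
  constructor
  · rintro (((((⟨i, hi, hx⟩ | ⟨ha, hx⟩) | ⟨hb, -⟩)) | ⟨i, hi, n, h3, hn, rfl⟩) | ⟨i, hi, n, hn, rfl⟩)
    · interval_cases i
      · rw [b0] at hx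
        exact Or.inl (by tauto)
      · rw [b1] at hx
        rcases hx with hx | hx
        · exact Or.inr (Or.inl hx)
        · exact Or.inr (Or.inr (Or.inl hx))
      · right; right; right; right; right; left
        rcases hx with rfl | rfl
        · exact ⟨0, by omega, rfl⟩
        · refine ⟨k, le_rfl, ?_⟩
          rw [b2]
          unfold GX2p1_r
          rw [if_neg (by omega), if_pos rfl]
    · exact Or.inr (Or.inr (Or.inr (Or.inl ⟨ha, hx⟩)))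
    · cases hb
    · rcases GX2p1_I3.1 hi with rfl | rfl | rfl
      · omega
      · omega
      · right; right; right; right; right; left
        rw [m2] at hn
        refine ⟨n, hn.le, ?_⟩
        unfold GX2p1_r
        rw [if_neg (by omega), if_neg (by omega)]
    · rcases GX2p1_I3.1 hi with rfl | rfl | rfl
      · omega
      · obtain rfl : n = 0 := by omega
        right; right; right; right; left
        exact r1
      · right; right; right; right; right; right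
        exact ⟨n, hn, by rw [u, u]⟩
  · rintro (rfl | rfl | rfl | ⟨ha, hx⟩ | rfl | ⟨n, h3, rfl⟩ | ⟨n, h3, rfl⟩)
    · exact Or.inl (Or.inl (Or.inl (Or.inl ⟨0, by omega, Or.inl rfl⟩)))
    · exact Or.inl (Or.inl (Or.inl (Or.inl ⟨1, by omega, Or.inl rfl⟩)))
    · exact Or.inl (Or.inl (Or.inl (Or.inl ⟨1, by omega, Or.inr b1.symm⟩)))
    · exact Or.inl (Or.inl (Or.inl (Or.inr ⟨ha, hx⟩)))
    · exact Or.inr ⟨1, by decide, 0, by rw [m1]; omega, r1.symm⟩
    · unfold GX2p1_r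
      split_ifs with h4 h5
      · exact Or.inl (Or.inl (Or.inl (Or.inl ⟨2, by omega, Or.inl rfl⟩)))
      · exact Or.inl (Or.inl (Or.inl (Or.inl ⟨2, by omega, Or.inr b2.symm⟩)))
      · exact Or.inl (Or.inr ⟨2, by decide, n, by omega, by rw [m2]; omega, rfl⟩)
    · refine Or.inr ⟨2, by decide, n, h3, ?_⟩
      rw [u, u]

private theorem GX2p1_K {a : Bool} {k : ℕ} (hk : 1 ≤ k) {x : VV} (s t : F4) (hs : a = true → s = 0)
    (h : x = s • Lac + t • (e 0 0 + F4.w • e 5 0 + F4.v • e 6 0)) : x ∈ LaK a false (GX2p1_m k) := by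
  have hL : Lac' (GX2p1_m k) = e 0 0 + F4.w • e 5 0 + F4.v • e 6 0 := by
    unfold Lac' LaB
    rw [show GX2p1_m k 0 = 0 from rfl, show GX2p1_m k 1 = 1 from rfl, show GX2p1_m k 2 = k from rfl,
      if_pos rfl, if_neg (by omega), if_neg (by omega)]
  unfold LaK
  rw [h]
  refine add_mem ?_ (Submodule.smul_mem _ _ (subset_span (Or.inr ⟨rfl, hL.symm⟩)))
  cases a
  · exact Submodule.smul_mem _ _ (subset_span (Or.inl ⟨rfl, rfl⟩))
  · rw [hs rfl, zero_smul]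
    exact zero_mem _

private theorem GX2p1_K0 {a : Bool} {k : ℕ} (hk : 1 ≤ k) {Θ : VV →ₗ[F4] VV} (h1 : a = false → Θ Lac = 0)
    (h2 : Θ (e 0 0 + F4.w • e 5 0 + F4.v • e 6 0) = 0) : ∀ x ∈ LaK a false (GX2p1_m k), Θ x = 0 := by
  have hL : Lac' (GX2p1_m k) = e 0 0 + F4.w • e 5 0 + F4.v • e 6 0 := by
    unfold Lac' LaB
    rw [show GX2p1_m k 0 = 0 from rfl, show GX2p1_m k 1 = 1 from rfl, show GX2p1_m k 2 = k from rfl,
      if_pos rfl, if_neg (by omega), if_neg (by omega)]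
  intro x hx
  unfold LaK at hx
  induction hx using Submodule.span_induction with
  | mem x hx =>
    rcases hx with ⟨ha, hx⟩ | ⟨-, hx⟩
    · rw [hx]
      exact h1 (by simpa using ha)
    · rw [hx, hL]
      exact h2
  | zero => exact map_zero _
  | add x y _ _ hx hy => rw [map_add, hx, hy, add_zero]
  | smul s x _ hx => rw [map_smul, hx, smul_zero]

private theorem GX2p1_t {α : Type} {M : Matroid α} {m : ℕ} (hm : 3 ≤ m)
    (h : IsCfg M ⊥ (insert (e 3 0 + e 3 1 + e 2 (m - 1)) (ThC true false (m11 m)))) :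
    IsCfg M (LaK false false (GX2p1_m (m - 1))) (LaC false false (GX2p1_m (m - 1))) := by
  set φ : ℕ → ℕ → VV := fun i n => if i = 3 then (if n = 0 then e 2 0 else F4.w • e 0 0 + e 2 0)
    else if n = m - 1 then e 6 0 else e 2 n with hφ
  set θ : ℕ → ℕ → VV := fun i n => if i = 0 then F4.v • (e 3 0 + e 3 1) else
    if i = 1 then F4.w • (e 3 0 + F4.w • e 3 1) else if i = 2 then (if n = 0 then e 3 0 else e 2 n)
    else if i = 6 then e 2 (m - 1) else F4.w • (e 3 0 + e 3 1 + e 2 (m - 1)) with hθ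
  have p30 : GX2p1_L φ (e 3 0) = e 2 0 := by rw [GX2p1_L_e]; rfl
  have p31 : GX2p1_L φ (e 3 1) = F4.w • e 0 0 + e 2 0 := by rw [GX2p1_L_e]; rfl
  have p2n : ∀ n, n < m - 1 → GX2p1_L φ (e 2 n) = e 2 n := by
    intro n hn
    rw [GX2p1_L_e, hφ]
    simp [hn.ne]
  have p2l : GX2p1_L φ (e 2 (m - 1)) = e 6 0 := by
    rw [GX2p1_L_e, hφ]
    simp
  have q0 : GX2p1_L θ (e 0 0) = F4.v • (e 3 0 + e 3 1) := by rw [GX2p1_L_e]; rfl
  have q1 : GX2p1_L θ (e 1 0) = F4.w • (e 3 0 + F4.w • e 3 1) := by rw [GX2p1_L_e]; rfl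
  have q2 : GX2p1_L θ (e 2 0) = e 3 0 := by rw [GX2p1_L_e]; rfl
  have q2n : ∀ n, 0 < n → GX2p1_L θ (e 2 n) = e 2 n := by
    intro n hn
    rw [GX2p1_L_e, hθ]
    simp [hn.ne']
  have q6 : GX2p1_L θ (e 6 0) = e 2 (m - 1) := by rw [GX2p1_L_e]; rfl
  have q5 : GX2p1_L θ (e 5 0) = F4.w • (e 3 0 + e 3 1 + e 2 (m - 1)) := by rw [GX2p1_L_e]; rfl
  have t30 : GX2p1_L θ (GX2p1_L φ (e 3 0)) = e 3 0 := by rw [p30, q2]
  have t31 : GX2p1_L θ (GX2p1_L φ (e 3 1)) = e 3 1 := by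
    rw [p31, map_add, map_smul, q0, q2]
    match_scalars <;> decide
  have t2 : ∀ n, 1 ≤ n → n + 1 ≤ m → GX2p1_L θ (GX2p1_L φ (e 2 n)) = e 2 n := by
    intro n h1 h2
    by_cases h3 : n = m - 1
    · rw [h3, p2l, q6]
    · rw [p2n n (by omega), q2n n h1]
  have tu : ∀ n, n + 1 ≤ m → GX2p1_L θ (GX2p1_L φ (GX2p1_u n)) = GX2p1_u n := by
    intro n h1
    unfold GX2p1_u
    split_ifs with h2
    · exact t30
    · exact t2 n (by omega) h1
  have pu : ∀ n, n ≤ m - 1 → GX2p1_L φ (GX2p1_u n) = GX2p1_r (m - 1) n := by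
    intro n h1
    unfold GX2p1_u GX2p1_r
    split_ifs with h2 h3
    · exact p30
    · rw [h3, p2l]
    · exact p2n n (by omega)
  have f1 : GX2p1_Pr (LaK false false (GX2p1_m (m - 1)))
      (GX2p1_L φ (e 3 0 + e 3 1 + e 2 (m - 1))) (e 5 0) := by
    refine ⟨F4.v, by decide, GX2p1_K (by omega) 0 F4.w (fun h => rfl) ?_⟩
    rw [map_add, map_add, p30, p31, p2l]
    unfold Lac
    match_scalars <;> decide
  have f2 : GX2p1_Pr (LaK false false (GX2p1_m (m - 1))) (GX2p1_L φ (e 3 0 + e 3 1)) (e 0 0) := by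
    refine ⟨F4.w, by decide, GX2p1_K (by omega) 0 0 (fun h => rfl) ?_⟩
    rw [map_add, p30, p31]
    unfold Lac
    match_scalars <;> decide
  have f3 : GX2p1_Pr (LaK false false (GX2p1_m (m - 1)))
      (GX2p1_L φ (e 3 0 + F4.w • e 3 1)) (e 1 0) := by
    refine ⟨F4.v, by decide, GX2p1_K (by omega) F4.v 0 (fun h => by cases h) ?_⟩
    rw [map_add, map_smul, p30, p31]
    unfold Lac
    match_scalars <;> decide
  have f4 : GX2p1_Pr (LaK false false (GX2p1_m (m - 1)))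
      (GX2p1_L φ (e 2 (m - 1) + F4.v • e 3 1)) (e 1 0 + e 5 0) := by
    refine ⟨F4.v, by decide, GX2p1_K (by omega) F4.v F4.w (fun h => by cases h) ?_⟩
    rw [map_add, map_smul, p31, p2l]
    unfold Lac
    match_scalars <;> decide
  refine GX2p1_map (GX2p1_L φ) (GX2p1_L θ) ?_ ?_ ?_ ?_ h
  · refine GX2p1_K0 (by omega) (fun _ => ?_) ?_
    · unfold Lac
      rw [map_add, map_add, q0, q1, q2]
      match_scalars <;> decide
    · rw [map_add, map_add, map_smul, map_smul, q0, q5, q6]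
      match_scalars <;> decide
  · intro x hx
    rw [mem_insert_iff, GX2p1_mem hm] at hx
    rcases hx with rfl | ⟨-, rfl⟩ | ⟨n, h1, h2, rfl⟩ | rfl | rfl | ⟨n, h1, rfl⟩ | rfl
    · simp only [map_add, t30, t31, t2 (m - 1) (by omega) (by omega)]
    · exact t30
    · exact t2 n h1 h2
    · simp only [map_add, t30, t31]
    · simp only [map_add, map_smul, t30, t31]
    · simp only [map_add, tu n (by omega), tu (n + 1) (by omega)]
    · simp only [map_add, map_smul, t31, t2 (m - 1) (by omega) (by omega)]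
  · intro x hx
    rw [mem_insert_iff, GX2p1_mem hm] at hx
    rcases hx with rfl | ⟨-, rfl⟩ | ⟨n, h1, h2, rfl⟩ | rfl | rfl | ⟨n, h1, rfl⟩ | rfl
    · exact ⟨e 5 0, (GX2p1_La (by omega)).2 (by tauto), f1⟩
    · refine ⟨GX2p1_r (m - 1) 0, (GX2p1_La (by omega)).2 ?_, GX2p1_eq p30⟩
      exact Or.inr (Or.inr (Or.inr (Or.inr (Or.inr (Or.inl ⟨0, by omega, rfl⟩)))))
    · refine ⟨GX2p1_r (m - 1) n, (GX2p1_La (by omega)).2 ?_, GX2p1_eq ?_⟩
      · exact Or.inr (Or.inr (Or.inr (Or.inr (Or.inr (Or.inl ⟨n, by omega, rfl⟩)))))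
      · rw [← pu n (by omega)]
        unfold GX2p1_u
        rw [if_neg (by omega)]
    · exact ⟨e 0 0, (GX2p1_La (by omega)).2 (by tauto), f2⟩
    · exact ⟨e 1 0, (GX2p1_La (by omega)).2 (by tauto), f3⟩
    · refine ⟨GX2p1_r (m - 1) n + GX2p1_r (m - 1) (n + 1), (GX2p1_La (by omega)).2 ?_, GX2p1_eq ?_⟩
      · exact Or.inr (Or.inr (Or.inr (Or.inr (Or.inr (Or.inr ⟨n, by omega, rfl⟩)))))
      · rw [map_add, pu n (by omega), pu (n + 1) (by omega)]
    · exact ⟨e 1 0 + e 5 0, (GX2p1_La (by omega)).2 (by tauto), f4⟩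
  · intro c hc
    rw [GX2p1_La (by omega)] at hc
    rcases hc with rfl | rfl | rfl | ⟨h0, -⟩ | rfl | ⟨n, h1, rfl⟩ | ⟨n, h1, rfl⟩
    · exact ⟨_, Or.inr ((GX2p1_mem hm).2 (Or.inr (Or.inr (Or.inl rfl)))), f2⟩
    · exact ⟨_, Or.inr ((GX2p1_mem hm).2 (Or.inr (Or.inr (Or.inr (Or.inl rfl))))), f3⟩
    · exact ⟨_, Or.inl rfl, f1⟩
    · cases h0
    · exact ⟨_, Or.inr ((GX2p1_mem hm).2 (Or.inr (Or.inr (Or.inr (Or.inr (Or.inr rfl)))))), f4⟩
    · refine ⟨GX2p1_u n, Or.inr ((GX2p1_mem hm).2 ?_), GX2p1_eq (pu n h1)⟩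
      rcases n with _ | n
      · exact Or.inl ⟨rfl, rfl⟩
      · exact Or.inr (Or.inl ⟨n + 1, by omega, by omega, rfl⟩)
    · refine ⟨GX2p1_u n + GX2p1_u (n + 1), Or.inr ((GX2p1_mem hm).2 ?_), GX2p1_eq ?_⟩
      · exact Or.inr (Or.inr (Or.inr (Or.inr (Or.inl ⟨n, by omega, rfl⟩))))
      · rw [map_add, pu n (by omega), pu (n + 1) (by omega)]

private theorem GX2p1_f {α : Type} {M : Matroid α} {m : ℕ} (hm : 3 ≤ m)
    (h : IsCfg M ⊥ (insert (e 3 0 + e 3 1 + e 2 (m - 1)) (ThC false false (m11 m)))) :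
    IsCfg M (LaK true false (GX2p1_m (m - 2))) (LaC true false (GX2p1_m (m - 2))) := by
  set φ : ℕ → ℕ → VV := fun i n => if i = 3 then (if n = 0 then e 0 0 + e 1 0 else
    F4.v • e 0 0 + e 1 0) else if n = m - 1 then e 6 0 else e 2 (n - 1) with hφ
  set θ : ℕ → ℕ → VV := fun i n => if i = 0 then F4.v • (e 3 0 + e 3 1) else
    if i = 1 then F4.w • (e 3 0 + F4.w • e 3 1) else if i = 2 then e 2 (n + 1)
    else if i = 6 then e 2 (m - 1) else F4.w • (e 3 0 + e 3 1 + e 2 (m - 1)) with hθ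
  have p30 : GX2p1_L φ (e 3 0) = e 0 0 + e 1 0 := by rw [GX2p1_L_e]; rfl
  have p31 : GX2p1_L φ (e 3 1) = F4.v • e 0 0 + e 1 0 := by rw [GX2p1_L_e]; rfl
  have p2n : ∀ n, n < m - 1 → GX2p1_L φ (e 2 n) = e 2 (n - 1) := by
    intro n hn
    rw [GX2p1_L_e, hφ]
    simp [hn.ne]
  have p2l : GX2p1_L φ (e 2 (m - 1)) = e 6 0 := by
    rw [GX2p1_L_e, hφ]
    simp
  have q0 : GX2p1_L θ (e 0 0) = F4.v • (e 3 0 + e 3 1) := by rw [GX2p1_L_e]; rfl
  have q1 : GX2p1_L θ (e 1 0) = F4.w • (e 3 0 + F4.w • e 3 1) := by rw [GX2p1_L_e]; rfl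
  have q2n : ∀ n, GX2p1_L θ (e 2 n) = e 2 (n + 1) := by
    intro n
    rw [GX2p1_L_e]
    rfl
  have q6 : GX2p1_L θ (e 6 0) = e 2 (m - 1) := by rw [GX2p1_L_e]; rfl
  have q5 : GX2p1_L θ (e 5 0) = F4.w • (e 3 0 + e 3 1 + e 2 (m - 1)) := by rw [GX2p1_L_e]; rfl
  have t30 : GX2p1_L θ (GX2p1_L φ (e 3 0)) = e 3 0 := by
    rw [p30, map_add, q0, q1]
    match_scalars <;> decide
  have t31 : GX2p1_L θ (GX2p1_L φ (e 3 1)) = e 3 1 := by
    rw [p31, map_add, map_smul, q0, q1]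
    match_scalars <;> decide
  have t2 : ∀ n, 1 ≤ n → n + 1 ≤ m → GX2p1_L θ (GX2p1_L φ (e 2 n)) = e 2 n := by
    intro n h1 h2
    by_cases h3 : n = m - 1
    · rw [h3, p2l, q6]
    · rw [p2n n (by omega), q2n, show n - 1 + 1 = n by omega]
  have tu : ∀ n, n + 1 ≤ m → GX2p1_L θ (GX2p1_L φ (GX2p1_u n)) = GX2p1_u n := by
    intro n h1
    unfold GX2p1_u
    split_ifs with h2
    · exact t30
    · exact t2 n (by omega) h1
  have pu : ∀ n, n ≤ m - 2 → GX2p1_L φ (e 2 (n + 1)) = GX2p1_r (m - 2) n := by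
    intro n h1
    unfold GX2p1_r
    split_ifs with h2 h3
    · rw [h2, p2n _ (by omega)]
    · rw [h3, show m - 2 + 1 = m - 1 by omega, p2l]
    · rw [p2n (n + 1) (by omega)]
      rfl
  have f1 : GX2p1_Pr (LaK true false (GX2p1_m (m - 2)))
      (GX2p1_L φ (e 3 0 + e 3 1 + e 2 (m - 1))) (e 5 0) := by
    refine ⟨F4.v, by decide, GX2p1_K (by omega) 0 F4.w (fun h => rfl) ?_⟩
    rw [map_add, map_add, p30, p31, p2l]
    unfold Lac
    match_scalars <;> decide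
  have f2 : GX2p1_Pr (LaK true false (GX2p1_m (m - 2))) (GX2p1_L φ (e 3 0 + e 3 1)) (e 0 0) := by
    refine ⟨F4.w, by decide, GX2p1_K (by omega) 0 0 (fun h => rfl) ?_⟩
    rw [map_add, p30, p31]
    unfold Lac
    match_scalars <;> decide
  have f3 : GX2p1_Pr (LaK true false (GX2p1_m (m - 2)))
      (GX2p1_L φ (e 3 0 + F4.w • e 3 1)) (e 1 0) := by
    refine ⟨F4.v, by decide, GX2p1_K (by omega) 0 0 (fun h => rfl) ?_⟩
    rw [map_add, map_smul, p30, p31]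
    unfold Lac
    match_scalars <;> decide
  have f4 : GX2p1_Pr (LaK true false (GX2p1_m (m - 2)))
      (GX2p1_L φ (e 2 (m - 1) + F4.v • e 3 1)) (e 1 0 + e 5 0) := by
    refine ⟨F4.v, by decide, GX2p1_K (by omega) 0 F4.w (fun h => rfl) ?_⟩
    rw [map_add, map_smul, p31, p2l]
    unfold Lac
    match_scalars <;> decide
  have f5 : GX2p1_L φ (GX2p1_u 0 + GX2p1_u (0 + 1)) = Lac := by
    have h1 : GX2p1_u 0 = e 3 0 := rfl
    have h2 : GX2p1_u (0 + 1) = e 2 (0 + 1) := rfl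
    rw [h1, h2, map_add, p30, pu 0 (by omega)]
    rfl
  refine GX2p1_map (GX2p1_L φ) (GX2p1_L θ) ?_ ?_ ?_ ?_ h
  · refine GX2p1_K0 (by omega) (fun h => by cases h) ?_
    rw [map_add, map_add, map_smul, map_smul, q0, q5, q6]
    match_scalars <;> decide
  · intro x hx
    rw [mem_insert_iff, GX2p1_mem hm] at hx
    rcases hx with rfl | ⟨-, rfl⟩ | ⟨n, h1, h2, rfl⟩ | rfl | rfl | ⟨n, h1, rfl⟩ | rfl
    · simp only [map_add, t30, t31, t2 (m - 1) (by omega) (by omega)]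
    · exact t30
    · exact t2 n h1 h2
    · simp only [map_add, t30, t31]
    · simp only [map_add, map_smul, t30, t31]
    · simp only [map_add, tu n (by omega), tu (n + 1) (by omega)]
    · simp only [map_add, map_smul, t31, t2 (m - 1) (by omega) (by omega)]
  · intro x hx
    rw [mem_insert_iff, GX2p1_mem hm] at hx
    rcases hx with rfl | ⟨h0, -⟩ | ⟨n, h1, h2, rfl⟩ | rfl | rfl | ⟨n, h1, rfl⟩ | rfl
    · exact ⟨e 5 0, (GX2p1_La (by omega)).2 (by tauto), f1⟩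
    · cases h0
    · obtain ⟨k, rfl⟩ : ∃ k, n = k + 1 := ⟨n - 1, by omega⟩
      refine ⟨GX2p1_r (m - 2) k, (GX2p1_La (by omega)).2 ?_, GX2p1_eq (pu k (by omega))⟩
      exact Or.inr (Or.inr (Or.inr (Or.inr (Or.inr (Or.inl ⟨k, by omega, rfl⟩)))))
    · exact ⟨e 0 0, (GX2p1_La (by omega)).2 (by tauto), f2⟩
    · exact ⟨e 1 0, (GX2p1_La (by omega)).2 (by tauto), f3⟩
    · rcases n with _ | n
      · exact ⟨Lac, (GX2p1_La (by omega)).2 (by tauto), GX2p1_eq f5⟩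
      · refine ⟨GX2p1_r (m - 2) n + GX2p1_r (m - 2) (n + 1), (GX2p1_La (by omega)).2 ?_, GX2p1_eq ?_⟩
        · exact Or.inr (Or.inr (Or.inr (Or.inr (Or.inr (Or.inr ⟨n, by omega, rfl⟩)))))
        · rw [map_add, ← pu n (by omega), ← pu (n + 1) (by omega)]
          rfl
    · exact ⟨e 1 0 + e 5 0, (GX2p1_La (by omega)).2 (by tauto), f4⟩
  · intro c hc
    rw [GX2p1_La (by omega)] at hc
    rcases hc with rfl | rfl | rfl | ⟨-, rfl⟩ | rfl | ⟨n, h1, rfl⟩ | ⟨n, h1, rfl⟩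
    · exact ⟨_, Or.inr ((GX2p1_mem hm).2 (Or.inr (Or.inr (Or.inl rfl)))), f2⟩
    · exact ⟨_, Or.inr ((GX2p1_mem hm).2 (Or.inr (Or.inr (Or.inr (Or.inl rfl))))), f3⟩
    · exact ⟨_, Or.inl rfl, f1⟩
    · refine ⟨_, Or.inr ((GX2p1_mem hm).2 ?_), GX2p1_eq f5⟩
      exact Or.inr (Or.inr (Or.inr (Or.inr (Or.inl ⟨0, by omega, rfl⟩))))
    · exact ⟨_, Or.inr ((GX2p1_mem hm).2 (Or.inr (Or.inr (Or.inr (Or.inr (Or.inr rfl)))))), f4⟩
    · refine ⟨e 2 (n + 1), Or.inr ((GX2p1_mem hm).2 ?_), GX2p1_eq (pu n h1)⟩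
      exact Or.inr (Or.inl ⟨n + 1, by omega, by omega, rfl⟩)
    · refine ⟨GX2p1_u (n + 1) + GX2p1_u (n + 1 + 1), Or.inr ((GX2p1_mem hm).2 ?_), GX2p1_eq ?_⟩
      · exact Or.inr (Or.inr (Or.inr (Or.inr (Or.inl ⟨n + 1, by omega, rfl⟩))))
      · rw [map_add, ← pu n (by omega), ← pu (n + 1) (by omega)]
        rfl

/-- GX2p1. `p = ra + τ`, where `ra = t + t'`, `rb = t + ω t'`, `τ = e 2 (m-1)`, `y = τ + ω² t'` (a point; `t'` is not a point).
`a = true`: M is `La false false (0, 1, m-1)`: `s = ω² ra`, `e_1 = ω rb`, `e_2 = t`, strand 2 = the chain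
`t, e 2 1, ..., τ`, `f_1 = ω (ra + τ)`, `f_2 = τ`; then `s + e_1 + e_2 = 0`, `s + ω f_1 + ω² f_2 = 0`,
`e_1 + f_1 = ω y`. Maps: `Φ (e 3 0) = e 2 0`, `Φ (e 3 1) = ω • e 0 0 + e 2 0`, `Φ (e 2 n) = e 2 n` (`n ≤ m-2`),
`Φ (e 2 (m-1)) = e 6 0`; `Θ (e 0 0) = ω² • (e 3 0 + e 3 1)`, `Θ (e 1 0) = ω • (e 3 0 + ω • e 3 1)`,
`Θ (e 2 0) = e 3 0`, `Θ (e 2 n) = e 2 n`, `Θ (e 6 0) = e 2 (m-1)`, `Θ (e 5 0) = ω • p`.
`a = false`: M is `La true false (0, 1, m-2)`: the same with the strand 2 = the chain `e 2 1, ..., τ`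
(`Φ (e 2 n) = e 2 (n-1)` for `1 ≤ n ≤ m-2`, `Φ (e 2 (m-1)) = e 6 0`), `c = s + e_1 + e 2 1 = t + e 2 1` is a point
(`Φ (e 3 0) = Lac + e 2 0`).
Use `IsCfg.map`. (All identities use `1 + ω + ω² = 0`, `ω³ = 1`, characteristic 2. The family was checked by
computer.) -/
theorem GX2p1 {α : Type} {M : Matroid α} {a : Bool} {m : ℕ} (hm : 3 ≤ m)
    (h : IsCfg M ⊥ (insert (e 3 0 + e 3 1 + e 2 (m - 1)) (ThC a false (m11 m)))) : Fam M := by
  have hO : ∀ k, 1 ≤ k → LaOk (GX2p1_m k) := by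
    intro k hk i hi j hj h1 h2
    unfold GX2p1_m at h1 h2
    split_ifs at h1 h2 <;> omega
  cases a
  · exact Fam.la true false _ (hO _ (by omega)) (GX2p1_f hm h)
  · exact Fam.la false false _ (hO _ (by omega)) (GX2p1_t hm h)

end QG
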