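import Pool.Agent.Lib.QG.GB2
import Pool.Agent.Lib.QG.GXd

/-! MP_2e6874_co, part (A), row GX2p4. One more vector for the special configuration. -/

set_option autoImplicit false

namespace QG
open Set Matroid Submodule

private noncomputable def GX2p4_V (m n : ℕ) : VV :=
  msu (m11 m) (fun _ => e 3 0) (fun i => g3 i • e 3 1) 2 n

private theorem GX2p4_lc (f : ℕ × ℕ → VV) (i n : ℕ) :
    Finsupp.linearCombination F4 f (e i n) = f (i, n) := by
  unfold e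
  rw [Finsupp.linearCombination_single, one_smul]

private theorem GX2p4_V0 (m : ℕ) : GX2p4_V m 0 = e 3 0 := by
  unfold GX2p4_V msu
  exact if_pos rfl

private theorem GX2p4_Vm {m : ℕ} (hm : 1 ≤ m) : GX2p4_V m m = F4.v • e 3 1 := by
  unfold GX2p4_V msu
  have h1 : m11 m 2 = m := if_pos rfl
  have h2 : g3 2 = F4.v := by decide
  rw [if_neg (by omega), h1, if_pos rfl]
  change g3 2 • e 3 1 = _
  rw [h2]

private theorem GX2p4_Vn {m n : ℕ} (h0 : 0 < n) (h : n < m) : GX2p4_V m n = e 2 n := by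
  unfold GX2p4_V msu
  have h1 : m11 m 2 = m := if_pos rfl
  rw [if_neg (by omega), h1, if_neg (by omega)]

private theorem GX2p4_mem_ThC {a b : Bool} {m : ℕ} {x : VV} :
    x ∈ ThC a b (m11 m) ↔ (a = true ∧ x = e 3 0) ∨ (b = true ∧ x = e 3 1) ∨
      (∃ n, 0 < n ∧ n < m ∧ x = e 2 n) ∨ x = e 3 0 + e 3 1 ∨ x = e 3 0 + F4.w • e 3 1 ∨
      ∃ n < m, x = GX2p4_V m n + GX2p4_V m (n + 1) := by
  have h2 : m11 m 2 = m := if_pos rfl
  have h0 : m11 m 0 = 1 := if_neg (by decide)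
  have h1 : m11 m 1 = 1 := if_neg (by decide)
  have r0 : msu (m11 m) (fun _ => e 3 0) (fun i => g3 i • e 3 1) 0 0 +
      msu (m11 m) (fun _ => e 3 0) (fun i => g3 i • e 3 1) 0 (0 + 1) = e 3 0 + e 3 1 := by
    unfold msu
    rw [if_pos rfl, if_neg (by decide), h0, if_pos rfl]
    change e 3 0 + g3 0 • e 3 1 = _
    rw [show g3 0 = 1 by decide, one_smul]
  have r1 : msu (m11 m) (fun _ => e 3 0) (fun i => g3 i • e 3 1) 1 0 +
      msu (m11 m) (fun _ => e 3 0) (fun i => g3 i • e 3 1) 1 (0 + 1) =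
        e 3 0 + F4.w • e 3 1 := by
    unfold msu
    rw [if_pos rfl, if_neg (by decide), h1, if_pos rfl]
    change e 3 0 + g3 1 • e 3 1 = _
    rw [show g3 1 = F4.w by decide]
  constructor
  · rintro (((⟨h, h'⟩ | ⟨h, h'⟩) | ⟨i, hi, n, hn, hn2, rfl⟩) | ⟨i, hi, n, hn, rfl⟩)
    · exact Or.inl ⟨h, h'⟩
    · exact Or.inr (Or.inl ⟨h, h'⟩)
    · rw [I3, Finset.mem_insert, Finset.mem_insert, Finset.mem_singleton] at hi
      rcases hi with rfl | rfl | rfl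
      · rw [h0] at hn2
        omega
      · rw [h1] at hn2
        omega
      · rw [h2] at hn2
        exact Or.inr (Or.inr (Or.inl ⟨n, hn, hn2, rfl⟩))
    · rw [I3, Finset.mem_insert, Finset.mem_insert, Finset.mem_singleton] at hi
      rcases hi with rfl | rfl | rfl
      · rw [h0, Nat.lt_one_iff] at hn
        subst hn
        exact Or.inr (Or.inr (Or.inr (Or.inl r0)))
      · rw [h1, Nat.lt_one_iff] at hn
        subst hn
        exact Or.inr (Or.inr (Or.inr (Or.inr (Or.inl r1))))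
      · rw [h2] at hn
        exact Or.inr (Or.inr (Or.inr (Or.inr (Or.inr ⟨n, hn, rfl⟩))))
  · have i0 : (0 : ℕ) ∈ I3 := by decide
    have i1 : (1 : ℕ) ∈ I3 := by decide
    have i2 : (2 : ℕ) ∈ I3 := by decide
    rintro (⟨h, h'⟩ | ⟨h, h'⟩ | ⟨n, hn, hn2, rfl⟩ | rfl | rfl | ⟨n, hn, rfl⟩)
    · exact Or.inl (Or.inl (Or.inl ⟨h, h'⟩))
    · exact Or.inl (Or.inl (Or.inr ⟨h, h'⟩))
    · exact Or.inl (Or.inr ⟨2, i2, n, hn, by rw [h2]; exact hn2, rfl⟩)
    · exact Or.inr ⟨0, i0, 0, by rw [h0]; exact Nat.one_pos, r0.symm⟩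
    · exact Or.inr ⟨1, i1, 0, by rw [h1]; exact Nat.one_pos, r1.symm⟩
    · exact Or.inr ⟨2, i2, n, by rw [h2]; exact hn, rfl⟩
private theorem GX2p4_LnK {K : Submodule F4 VV} {C C' : Set VV}
    (h1 : ∀ c ∈ C, ∃ c' ∈ C', ∃ s : F4, s ≠ 0 ∧ c + s • c' ∈ K)
    (h2 : ∀ c' ∈ C', ∃ c ∈ C, ∃ s : F4, s ≠ 0 ∧ c + s • c' ∈ K) : LnK K C = LnK K C' := by
  refine subset_antisymm ?_ ?_
  · rintro y ⟨hy, c, hc, s, hs⟩
    obtain ⟨c', hc', r, hr, h3⟩ := h1 c hc
    refine ⟨hy, c', hc', s * r, ?_⟩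
    have h4 := K.add_mem hs (K.smul_mem s h3)
    have h5 : y + s • c + s • (c + r • c') = y + (s * r) • c' := by
      rw [smul_add, smul_smul, ← add_assoc, add_assoc y, vadd_self, add_zero]
    rwa [h5] at h4
  · rintro y ⟨hy, c', hc', s, hs⟩
    obtain ⟨c, hc, r, hr, h3⟩ := h2 c' hc'
    refine ⟨hy, c, hc, s * r⁻¹, ?_⟩
    have h4 := K.add_mem hs (K.smul_mem (s * r⁻¹) h3)
    have h5 : y + s • c' + (s * r⁻¹) • (c + r • c') = y + (s * r⁻¹) • c := by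
      rw [smul_add, smul_smul, mul_assoc, inv_mul_cancel₀ hr, mul_one, add_comm ((s * r⁻¹) • c),
        ← add_assoc, add_assoc y, vadd_self, add_zero]
    rwa [h5] at h4

/-! ### the legs -/

private def GX2p4_l (k : ℕ) : ℕ → ℕ := fun i => if i = 1 then k else 2

private noncomputable def GX2p4_U (g : F4) (k n : ℕ) : VV :=
  msu (GX2p4_l k) (fun i => e i 0) (fun _ => g • e 0 0) 1 n

private theorem GX2p4_U0 (g : F4) (k : ℕ) : GX2p4_U g k 0 = e 1 0 := by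
  unfold GX2p4_U msu
  exact if_pos rfl

private theorem GX2p4_Uk (g : F4) {k : ℕ} (hk : 1 ≤ k) : GX2p4_U g k k = g • e 0 0 := by
  unfold GX2p4_U msu
  have h1 : GX2p4_l k 1 = k := if_pos rfl
  rw [if_neg (by omega), h1, if_pos rfl]

private theorem GX2p4_Un (g : F4) {k n : ℕ} (h0 : 0 < n) (h : n < k) : GX2p4_U g k n = e 1 n := by
  unfold GX2p4_U msu
  have h1 : GX2p4_l k 1 = k := if_pos rfl
  rw [if_neg (by omega), h1, if_neg (by omega)]

private theorem GX2p4_mem_DeC {g : F4} {a : Bool} {k : ℕ} {x : VV} :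
    x ∈ DeC g a false {1, 2} (GX2p4_l k) ↔ x = e 1 0 ∨ x = e 2 0 ∨ (a = true ∧ x = e 0 0) ∨
      (∃ n, 0 < n ∧ n < k ∧ x = e 1 n) ∨ x = e 2 1 ∨ (∃ n < k, x = GX2p4_U g k n + GX2p4_U g k (n + 1)) ∨
      x = e 2 0 + e 2 1 ∨ x = e 2 1 + g • e 0 0 := by
  have h1 : GX2p4_l k 1 = k := if_pos rfl
  have h2 : GX2p4_l k 2 = 2 := if_neg (by decide)
  have r0 : msu (GX2p4_l k) (fun i => e i 0) (fun _ => g • e 0 0) 2 0 +
      msu (GX2p4_l k) (fun i => e i 0) (fun _ => g • e 0 0) 2 (0 + 1) = e 2 0 + e 2 1 := by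
    unfold msu
    rw [if_pos rfl, if_neg (by decide), h2, if_neg (by decide)]
  have r1 : msu (GX2p4_l k) (fun i => e i 0) (fun _ => g • e 0 0) 2 1 +
      msu (GX2p4_l k) (fun i => e i 0) (fun _ => g • e 0 0) 2 (1 + 1) = e 2 1 + g • e 0 0 := by
    unfold msu
    rw [if_neg (by decide), h2, if_neg (by decide), if_neg (by decide), if_pos rfl]
  have i1 : (1 : ℕ) ∈ ({1, 2} : Finset ℕ) := by decide
  have i2 : (2 : ℕ) ∈ ({1, 2} : Finset ℕ) := by decide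
  constructor
  · rintro ((((⟨i, hi, rfl⟩ | ⟨h, h'⟩) | ⟨h, h'⟩) | ⟨i, hi, n, hn, hn2, rfl⟩) | ⟨i, hi, n, hn, rfl⟩)
    · rw [Finset.mem_insert, Finset.mem_singleton] at hi
      rcases hi with rfl | rfl
      · exact Or.inl rfl
      · exact Or.inr (Or.inl rfl)
    · exact Or.inr (Or.inr (Or.inl ⟨h, h'⟩))
    · exact absurd h (by decide)
    · rw [Finset.mem_insert, Finset.mem_singleton] at hi
      rcases hi with rfl | rfl
      · rw [h1] at hn2
        exact Or.inr (Or.inr (Or.inr (Or.inl ⟨n, hn, hn2, rfl⟩)))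
      · rw [h2] at hn2
        have h3 : n = 1 := by omega
        subst h3
        exact Or.inr (Or.inr (Or.inr (Or.inr (Or.inl rfl))))
    · rw [Finset.mem_insert, Finset.mem_singleton] at hi
      rcases hi with rfl | rfl
      · rw [h1] at hn
        exact Or.inr (Or.inr (Or.inr (Or.inr (Or.inr (Or.inl ⟨n, hn, rfl⟩)))))
      · rw [h2] at hn
        rcases (show n = 0 ∨ n = 1 by omega) with rfl | rfl
        · exact Or.inr (Or.inr (Or.inr (Or.inr (Or.inr (Or.inr (Or.inl r0))))))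
        · exact Or.inr (Or.inr (Or.inr (Or.inr (Or.inr (Or.inr (Or.inr r1))))))
  · rintro (rfl | rfl | ⟨h, rfl⟩ | ⟨n, hn, hn2, rfl⟩ | rfl | ⟨n, hn, rfl⟩ | rfl | rfl)
    · exact Or.inl (Or.inl (Or.inl (Or.inl ⟨1, i1, rfl⟩)))
    · exact Or.inl (Or.inl (Or.inl (Or.inl ⟨2, i2, rfl⟩)))
    · exact Or.inl (Or.inl (Or.inl (Or.inr ⟨h, rfl⟩)))
    · exact Or.inl (Or.inr ⟨1, i1, n, hn, by rw [h1]; exact hn2, rfl⟩)
    · exact Or.inl (Or.inr ⟨2, i2, 1, by omega, by rw [h2]; omega, rfl⟩)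
    · exact Or.inr ⟨1, i1, n, by rw [h1]; exact hn, rfl⟩
    · exact Or.inr ⟨2, i2, 0, by rw [h2]; omega, r0.symm⟩
    · exact Or.inr ⟨2, i2, 1, by rw [h2]; omega, r1.symm⟩

/-! ### the maps -/

private noncomputable def GX2p4_Φ (g : F4) (k : ℕ) : VV →ₗ[F4] VV :=
  Finsupp.linearCombination F4 (fun p : ℕ × ℕ =>
    if p.1 = 3 then (if p.2 = 0 then g • e 0 0 else F4.w • e 2 1 + F4.w • e 0 0) else e 1 (k - p.2))

private noncomputable def GX2p4_Θ (g : F4) (k : ℕ) : VV →ₗ[F4] VV :=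
  Finsupp.linearCombination F4 (fun p : ℕ × ℕ =>
    if p.1 = 0 then g⁻¹ • e 3 0 else if p.1 = 2 then
      (if p.2 = 0 then g⁻¹ • e 3 0 + e 2 k else g⁻¹ • e 3 0 + F4.v • e 3 1) else e 2 (k - p.2))

private theorem GX2p4_Φ30 (g : F4) (k : ℕ) : GX2p4_Φ g k (e 3 0) = g • e 0 0 := by
  refine (GX2p4_lc _ _ _).trans ?_
  exact (if_pos rfl).trans (if_pos rfl)

private theorem GX2p4_Φ31 (g : F4) (k : ℕ) :
    GX2p4_Φ g k (e 3 1) = F4.w • e 2 1 + F4.w • e 0 0 := by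
  refine (GX2p4_lc _ _ _).trans ?_
  exact (if_pos rfl).trans (if_neg (show ¬ (1 : ℕ) = 0 by decide))

private theorem GX2p4_Φ2 (g : F4) (k n : ℕ) : GX2p4_Φ g k (e 2 n) = e 1 (k - n) := by
  refine (GX2p4_lc _ _ _).trans ?_
  exact if_neg (show ¬ (2 : ℕ) = 3 by decide)

private theorem GX2p4_Θ0 (g : F4) (k : ℕ) : GX2p4_Θ g k (e 0 0) = g⁻¹ • e 3 0 := by
  refine (GX2p4_lc _ _ _).trans ?_
  exact if_pos rfl

private theorem GX2p4_Θ20 (g : F4) (k : ℕ) : GX2p4_Θ g k (e 2 0) = g⁻¹ • e 3 0 + e 2 k := by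
  refine (GX2p4_lc _ _ _).trans ?_
  exact (if_neg (show ¬ (2 : ℕ) = 0 by decide)).trans ((if_pos rfl).trans (if_pos rfl))

private theorem GX2p4_Θ21 (g : F4) (k : ℕ) :
    GX2p4_Θ g k (e 2 1) = g⁻¹ • e 3 0 + F4.v • e 3 1 := by
  refine (GX2p4_lc _ _ _).trans ?_
  exact (if_neg (show ¬ (2 : ℕ) = 0 by decide)).trans ((if_pos rfl).trans
    (if_neg (show ¬ (1 : ℕ) = 0 by decide)))

private theorem GX2p4_Θ1 (g : F4) (k n : ℕ) : GX2p4_Θ g k (e 1 n) = e 2 (k - n) := by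
  refine (GX2p4_lc _ _ _).trans ?_
  exact (if_neg (show ¬ (1 : ℕ) = 0 by decide)).trans (if_neg (show ¬ (1 : ℕ) = 2 by decide))

private theorem GX2p4_Dec : Dec {1, 2} = e 0 0 + (e 1 0 + e 2 0) := by
  rw [Dec, Finset.sum_pair (by decide)]

private theorem GX2p4_wv : F4.w * F4.v = 1 := by decide
private theorem GX2p4_vw : F4.v * F4.w = 1 := by decide

private theorem GX2p4_TT30 {g : F4} (hg : g ≠ 0) (k : ℕ) : GX2p4_Θ g k (GX2p4_Φ g k (e 3 0)) = e 3 0 := by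
  rw [GX2p4_Φ30, map_smul, GX2p4_Θ0, smul_smul, mul_inv_cancel₀ hg, one_smul]

private theorem GX2p4_TT31 (g : F4) (k : ℕ) : GX2p4_Θ g k (GX2p4_Φ g k (e 3 1)) = e 3 1 := by
  rw [GX2p4_Φ31, map_add, map_smul, map_smul, GX2p4_Θ0, GX2p4_Θ21, smul_add, smul_smul F4.w F4.v, GX2p4_wv,
    one_smul, add_comm (F4.w • g⁻¹ • e 3 0), add_assoc, vadd_self, add_zero]

private theorem GX2p4_TT2 (g : F4) {k n : ℕ} (hn : n ≤ k) :
    GX2p4_Θ g k (GX2p4_Φ g k (e 2 n)) = e 2 n := by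
  rw [GX2p4_Φ2, GX2p4_Θ1]
  congr 1
  omega

private theorem GX2p4_TTV {g : F4} (hg : g ≠ 0) {k n : ℕ} (hn : n ≤ k + 1) :
    GX2p4_Θ g k (GX2p4_Φ g k (GX2p4_V (k + 1) n)) = GX2p4_V (k + 1) n := by
  rcases Nat.eq_zero_or_pos n with rfl | h0
  · rw [GX2p4_V0, GX2p4_TT30 hg]
  · rcases hn.lt_or_eq with h | rfl
    · rw [GX2p4_Vn h0 h, GX2p4_TT2 g (by omega)]
    · rw [GX2p4_Vm (by omega), map_smul, map_smul, GX2p4_TT31]

private theorem GX2p4_ΦV (g : F4) {k n : ℕ} (hk : 1 ≤ k) (hn : n ≤ k) :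
    GX2p4_Φ g k (GX2p4_V (k + 1) n) = GX2p4_U g k (k - n) := by
  rcases Nat.eq_zero_or_pos n with rfl | h0
  · rw [GX2p4_V0, GX2p4_Φ30, Nat.sub_zero, GX2p4_Uk g hk]
  · rw [GX2p4_Vn h0 (by omega), GX2p4_Φ2]
    rcases Nat.eq_zero_or_pos (k - n) with h | h
    · rw [h, GX2p4_U0]
    · rw [GX2p4_Un g h (by omega)]

/-- the last rim -/
private theorem GX2p4_ΦL (g : F4) {k : ℕ} (hk : 1 ≤ k) :
    GX2p4_Φ g k (GX2p4_V (k + 1) k + GX2p4_V (k + 1) (k + 1)) + (e 2 0 + e 2 1) = Dec {1, 2} := by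
  rw [GX2p4_Dec, map_add, GX2p4_Vn (by omega) (by omega), GX2p4_Vm (by omega), GX2p4_Φ2, map_smul, GX2p4_Φ31,
    Nat.sub_self, smul_add, smul_smul, smul_smul, GX2p4_vw, one_smul, one_smul]
  have h : (e 2 1 : VV) + e 2 1 = 0 := vadd_self _
  calc e 1 0 + (e 2 1 + e 0 0) + (e 2 0 + e 2 1)
      = e 0 0 + (e 1 0 + e 2 0) + (e 2 1 + e 2 1) := by abel
    _ = e 0 0 + (e 1 0 + e 2 0) := by rw [h, add_zero]

private theorem GX2p4_K : Dec {1, 2} ∈ DeK false {1, 2} :=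
  subset_span ⟨rfl, rfl⟩

/-- the points `ra` and `rb` -/
private theorem GX2p4_ab {g : F4} (hg : g = F4.w ∨ g = F4.v) (k : ℕ) :
    (GX2p4_Φ g k (e 3 0 + e 3 1) = F4.w • e 2 1 ∧
      GX2p4_Φ g k (e 3 0 + F4.w • e 3 1) = F4.v • (e 2 1 + g • e 0 0)) ∨
    (GX2p4_Φ g k (e 3 0 + e 3 1) = F4.w • (e 2 1 + g • e 0 0) ∧
      GX2p4_Φ g k (e 3 0 + F4.w • e 3 1) = F4.v • e 2 1) := by
  have hww : F4.w * F4.w = F4.v := by decide
  have hvw : F4.v * F4.w = 1 := by decide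
  have hwv : F4.w * F4.v = 1 := by decide
  rcases hg with rfl | rfl
  · left
    constructor
    · rw [map_add, GX2p4_Φ30, GX2p4_Φ31, add_comm (F4.w • e 2 1), ← add_assoc, vadd_self, zero_add]
    · rw [map_add, map_smul, GX2p4_Φ30, GX2p4_Φ31, smul_add, smul_add, smul_smul, smul_smul, smul_smul,
        hww, hvw, add_comm (F4.v • e 2 1), ← add_assoc, ← add_smul,
        show F4.w + F4.v = 1 by decide, add_comm]
  · right
    constructor
    · rw [map_add, GX2p4_Φ30, GX2p4_Φ31, smul_add, smul_smul, hwv, add_comm (F4.w • e 2 1), ← add_assoc,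
        ← add_smul, show F4.v + F4.w = 1 by decide, add_comm]
    · rw [map_add, map_smul, GX2p4_Φ30, GX2p4_Φ31, smul_add, smul_smul, smul_smul,
        hww, add_comm (F4.v • e 2 1), ← add_assoc, vadd_self, zero_add]


private theorem GX2p4_main {α : Type} {M : Matroid α} {g : F4} (hg : g = F4.w ∨ g = F4.v) {a : Bool}
    {k : ℕ} (hk : 2 ≤ k)
    (h : IsCfg M ⊥ (insert (e 3 0 + g • e 2 k) (ThC a false (m11 (k + 1))))) : Fam M := by
  have hg0 : g ≠ 0 := by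
    rcases hg with rfl | rfl
    · decide
    · decide
  refine Fam.de g a false {1, 2} (GX2p4_l k) ?_ ?_
  · refine ⟨hg, by decide, by decide, ?_, ?_⟩
    · intro i hi
      rw [GX2p4_l]
      split_ifs
      · omega
      · omega
    · intro _ i hi
      rw [GX2p4_l]
      split_ifs
      · omega
      · omega
  · have hv0 : F4.v ≠ 0 := by decide
    have hw0 : F4.w ≠ 0 := by decide
    have eqK : ∀ {x y : VV}, x = y → x + y ∈ DeK false {1, 2} := by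
      intro x y hxy
      rw [hxy, vadd_self]
      exact Submodule.zero_mem _
    have p1 : GX2p4_Φ g k (e 3 0 + g • e 2 k) + g • e 2 0 = g • Dec {1, 2} := by
      rw [map_add, map_smul, GX2p4_Φ30, GX2p4_Φ2, Nat.sub_self, ← smul_add, ← smul_add, GX2p4_Dec,
        add_assoc]
    refine IsCfg.map (GX2p4_Φ g k) (GX2p4_Θ g k) ?_ ?_ ?_ ?_ h
    · intro x hx
      rw [Submodule.mem_bot] at hx
      rw [hx, map_zero]
      exact Submodule.zero_mem _
    · have h1 : DeK false {1, 2} ≤ (⊥ : Submodule F4 VV).comap (GX2p4_Θ g k) := by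
        rw [DeK, span_le]
        rintro x ⟨_, hx⟩
        have hx' : x = Dec {1, 2} := hx
        change GX2p4_Θ g k x ∈ (⊥ : Submodule F4 VV)
        rw [Submodule.mem_bot, hx', GX2p4_Dec, map_add, map_add, GX2p4_Θ0, GX2p4_Θ1, GX2p4_Θ20,
          Nat.sub_zero, add_comm (e 2 k), add_assoc, vadd_self, add_zero, vadd_self]
      intro x hx
      exact h1 hx
    · intro x hx
      suffices hh : GX2p4_Θ g k (GX2p4_Φ g k x) = x by
        rw [hh, vadd_self]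
        exact Submodule.zero_mem _
      rcases hx with rfl | hx
      · rw [map_add, map_add, map_smul, map_smul, GX2p4_TT30 hg0, GX2p4_TT2 g le_rfl]
      · rw [GX2p4_mem_ThC] at hx
        rcases hx with ⟨_, rfl⟩ | ⟨_, rfl⟩ | ⟨n, hn, hn2, rfl⟩ | rfl | rfl | ⟨n, hn, rfl⟩
        · exact GX2p4_TT30 hg0 k
        · exact GX2p4_TT31 g k
        · exact GX2p4_TT2 g (by omega)
        · rw [map_add, map_add, GX2p4_TT30 hg0, GX2p4_TT31]
        · rw [map_add, map_add, map_smul, map_smul, GX2p4_TT30 hg0, GX2p4_TT31]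
        · rw [map_add, map_add, GX2p4_TTV hg0 (by omega), GX2p4_TTV hg0 (by omega)]
    · refine GX2p4_LnK ?_ ?_
      · rintro _ ⟨x, (rfl | hx), rfl⟩
        · refine ⟨e 2 0, GX2p4_mem_DeC.2 (Or.inr (Or.inl rfl)), g, hg0, ?_⟩
          rw [p1]
          exact Submodule.smul_mem _ _ GX2p4_K
        · rw [GX2p4_mem_ThC] at hx
          rcases hx with ⟨ha, rfl⟩ | ⟨hb, rfl⟩ | ⟨n, hn, hn2, rfl⟩ | rfl | rfl | ⟨n, hn, rfl⟩
          · exact ⟨e 0 0, GX2p4_mem_DeC.2 (Or.inr (Or.inr (Or.inl ⟨ha, rfl⟩))), g, hg0,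
              eqK (GX2p4_Φ30 g k)⟩
          · exact absurd hb (by decide)
          · rw [GX2p4_Φ2]
            rcases Nat.eq_zero_or_pos (k - n) with h0 | h0
            · exact ⟨e 1 0, GX2p4_mem_DeC.2 (Or.inl rfl), 1, one_ne_zero,
                eqK (by rw [h0, one_smul])⟩
            · exact ⟨e 1 (k - n), GX2p4_mem_DeC.2 (Or.inr (Or.inr (Or.inr (Or.inl
                ⟨k - n, h0, by omega, rfl⟩)))), 1, one_ne_zero, eqK (by rw [one_smul])⟩
          · rcases GX2p4_ab hg k with ⟨h1, _⟩ | ⟨h1, _⟩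
            · exact ⟨e 2 1, GX2p4_mem_DeC.2 (Or.inr (Or.inr (Or.inr (Or.inr (Or.inl rfl))))),
                F4.w, hw0, eqK h1⟩
            · exact ⟨_, GX2p4_mem_DeC.2 (Or.inr (Or.inr (Or.inr (Or.inr (Or.inr (Or.inr
                (Or.inr rfl))))))), F4.w, hw0, eqK h1⟩
          · rcases GX2p4_ab hg k with ⟨_, h1⟩ | ⟨_, h1⟩
            · exact ⟨_, GX2p4_mem_DeC.2 (Or.inr (Or.inr (Or.inr (Or.inr (Or.inr (Or.inr
                (Or.inr rfl))))))), F4.v, hv0, eqK h1⟩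
            · exact ⟨e 2 1, GX2p4_mem_DeC.2 (Or.inr (Or.inr (Or.inr (Or.inr (Or.inl rfl))))),
                F4.v, hv0, eqK h1⟩
          · rcases (show n < k ∨ n = k by omega) with h0 | rfl
            · refine ⟨GX2p4_U g k (k - (n + 1)) + GX2p4_U g k (k - (n + 1) + 1),
                GX2p4_mem_DeC.2 (Or.inr (Or.inr (Or.inr (Or.inr (Or.inr (Or.inl
                ⟨k - (n + 1), by omega, rfl⟩)))))), 1, one_ne_zero, eqK ?_⟩
              rw [map_add, GX2p4_ΦV g (by omega) (by omega), GX2p4_ΦV g (by omega) (by omega), one_smul,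
                add_comm, show k - (n + 1) + 1 = k - n by omega]
            · refine ⟨_, GX2p4_mem_DeC.2 (Or.inr (Or.inr (Or.inr (Or.inr (Or.inr (Or.inr
                (Or.inl rfl))))))), 1, one_ne_zero, ?_⟩
              rw [one_smul, GX2p4_ΦL g (by omega)]
              exact GX2p4_K
      · have inC : ∀ {x : VV}, x ∈ ThC a false (m11 (k + 1)) →
            GX2p4_Φ g k x ∈ GX2p4_Φ g k '' (insert (e 3 0 + g • e 2 k) (ThC a false (m11 (k + 1)))) :=
          fun hx => ⟨_, Or.inr hx, rfl⟩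
        have ra := inC (x := e 3 0 + e 3 1) (GX2p4_mem_ThC.2 (Or.inr (Or.inr (Or.inr (Or.inl rfl)))))
        have rb := inC (x := e 3 0 + F4.w • e 3 1)
          (GX2p4_mem_ThC.2 (Or.inr (Or.inr (Or.inr (Or.inr (Or.inl rfl))))))
        have e2 : ∀ n, 0 < n → n < k + 1 → e 1 (k - n) ∈
            GX2p4_Φ g k '' (insert (e 3 0 + g • e 2 k) (ThC a false (m11 (k + 1)))) := by
          intro n h0 h1
          rw [← GX2p4_Φ2 g k n]
          exact inC (GX2p4_mem_ThC.2 (Or.inr (Or.inr (Or.inl ⟨n, h0, h1, rfl⟩))))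
        intro c' hc'
        rw [GX2p4_mem_DeC] at hc'
        rcases hc' with rfl | rfl | ⟨ha, rfl⟩ | ⟨n, hn, hn2, rfl⟩ | rfl | ⟨n, hn, rfl⟩ | rfl | rfl
        · refine ⟨e 1 (k - k), e2 k (by omega) (by omega), 1, one_ne_zero, eqK ?_⟩
          rw [Nat.sub_self, one_smul]
        · refine ⟨_, ⟨_, Or.inl rfl, rfl⟩, g, hg0, ?_⟩
          rw [p1]
          exact Submodule.smul_mem _ _ GX2p4_K
        · exact ⟨_, inC (GX2p4_mem_ThC.2 (Or.inl ⟨ha, rfl⟩)), g, hg0, eqK (GX2p4_Φ30 g k)⟩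
        · refine ⟨e 1 (k - (k - n)), e2 (k - n) (by omega) (by omega), 1, one_ne_zero, eqK ?_⟩
          rw [one_smul]
          congr 1
          omega
        · rcases GX2p4_ab hg k with ⟨h1, _⟩ | ⟨_, h1⟩
          · exact ⟨_, ra, F4.w, hw0, eqK h1⟩
          · exact ⟨_, rb, F4.v, hv0, eqK h1⟩
        · refine ⟨_, inC (GX2p4_mem_ThC.2 (Or.inr (Or.inr (Or.inr (Or.inr (Or.inr
            ⟨k - (n + 1), by omega, rfl⟩)))))), 1, one_ne_zero, eqK ?_⟩
          rw [map_add, GX2p4_ΦV g (by omega) (by omega), GX2p4_ΦV g (by omega) (by omega), one_smul,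
            add_comm]
          congr 2
          · omega
          · omega
        · refine ⟨_, inC (GX2p4_mem_ThC.2 (Or.inr (Or.inr (Or.inr (Or.inr (Or.inr
            ⟨k, by omega, rfl⟩)))))), 1, one_ne_zero, ?_⟩
          rw [one_smul, GX2p4_ΦL g (by omega)]
          exact GX2p4_K
        · rcases GX2p4_ab hg k with ⟨_, h1⟩ | ⟨h1, _⟩
          · exact ⟨_, rb, F4.v, hv0, eqK h1⟩
          · exact ⟨_, ra, F4.w, hw0, eqK h1⟩

/-- GX2p4. `p = t + ω τ = ra + ω y` (notation of GX2p1): `De ω a false {1,2} (m-1, 2)`: tip `T = ω² t`, leg 1 = the chain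
`z_1 = τ, ..., e 2 1` (vertex `n` = `e 2 (m-1-n)`) to `ω T = t`; leg 2: `z_2 = ω² p`, inner vertex `ω² ra`,
rims `z_2 + ω² ra = y` and `ω² ra + t = ω rb`; `T + z_1 + z_2 = 0`.
Use `IsCfg.map`. (All identities use `1 + ω + ω² = 0`, `ω³ = 1`, characteristic 2. The family was checked by
computer.) -/
theorem GX2p4 {α : Type} {M : Matroid α} {a : Bool} {m : ℕ} (hm : 3 ≤ m)
    (h : IsCfg M ⊥ (insert (e 3 0 + F4.w • e 2 (m - 1)) (ThC a false (m11 m)))) : Fam M := by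
  obtain ⟨k, rfl⟩ : ∃ k, m = k + 1 := ⟨m - 1, by omega⟩
  rw [Nat.add_sub_cancel] at h
  exact GX2p4_main (Or.inl rfl) (by omega) h

end QG
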