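import Pool.Agent.Lib.QG.GX1
import Pool.Agent.Lib.QG.GX2p1
import Pool.Agent.Lib.QG.GX2p2
import Pool.Agent.Lib.QG.GX2p3
import Pool.Agent.Lib.QG.GX2p4
import Pool.Agent.Lib.QG.GX2p5

/-! MP_2e6874_co, part (A), row GX2. -/

set_option autoImplicit false

namespace QG
open Set Matroid Submodule

private noncomputable def GX2_V (m n : ℕ) : VV :=
  msu (m11 m) (fun _ => e 3 0) (fun i => g3 i • e 3 1) 2 n

private theorem GX2_lc (f : ℕ × ℕ → VV) (i n : ℕ) :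
    Finsupp.linearCombination F4 f (e i n) = f (i, n) := by
  unfold e
  rw [Finsupp.linearCombination_single, one_smul]

private theorem GX2_V0 (m : ℕ) : GX2_V m 0 = e 3 0 := by
  unfold GX2_V msu
  exact if_pos rfl

private theorem GX2_Vm {m : ℕ} (hm : 1 ≤ m) : GX2_V m m = F4.v • e 3 1 := by
  unfold GX2_V msu
  have h1 : m11 m 2 = m := if_pos rfl
  have h2 : g3 2 = F4.v := by decide
  rw [if_neg (by omega), h1, if_pos rfl]
  change g3 2 • e 3 1 = _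
  rw [h2]

private theorem GX2_Vn {m n : ℕ} (h0 : 0 < n) (h : n < m) : GX2_V m n = e 2 n := by
  unfold GX2_V msu
  have h1 : m11 m 2 = m := if_pos rfl
  rw [if_neg (by omega), h1, if_neg (by omega)]

private theorem GX2_mem_ThC {a b : Bool} {m : ℕ} {x : VV} :
    x ∈ ThC a b (m11 m) ↔ (a = true ∧ x = e 3 0) ∨ (b = true ∧ x = e 3 1) ∨
      (∃ n, 0 < n ∧ n < m ∧ x = e 2 n) ∨ x = e 3 0 + e 3 1 ∨ x = e 3 0 + F4.w • e 3 1 ∨
      ∃ n < m, x = GX2_V m n + GX2_V m (n + 1) := by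
  have h2 : m11 m 2 = m := if_pos rfl
  have h0 : m11 m 0 = 1 := if_neg (by decide)
  have h1 : m11 m 1 = 1 := if_neg (by decide)
  have r0 : msu (m11 m) (fun _ => e 3 0) (fun i => g3 i • e 3 1) 0 0 +
      msu (m11 m) (fun _ => e 3 0) (fun i => g3 i • e 3 1) 0 (0 + 1) = e 3 0 + e 3 1 := by
    unfold msu
    rw [if_pos rfl, if_neg (by decide), h0, if_pos rfl]
    change e 3 0 + g3 0 • e 3 1 = _
    rw [show g3 0 = 1 by decide, one_smul]
  have r1 : msu (m11 m) (fun _ => e 3 0) (fun i => g3 i • e 3 1) 1 0 +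
      msu (m11 m) (fun _ => e 3 0) (fun i => g3 i • e 3 1) 1 (0 + 1) =
        e 3 0 + F4.w • e 3 1 := by
    unfold msu
    rw [if_pos rfl, if_neg (by decide), h1, if_pos rfl]
    change e 3 0 + g3 1 • e 3 1 = _
    rw [show g3 1 = F4.w by decide]
  constructor
  · rintro (((⟨h, h'⟩ | ⟨h, h'⟩) | ⟨i, hi, n, hn, hn2, rfl⟩) | ⟨i, hi, n, hn, rfl⟩)
    · exact Or.inl ⟨h, h'⟩
    · exact Or.inr (Or.inl ⟨h, h'⟩)
    · rw [I3, Finset.mem_insert, Finset.mem_insert, Finset.mem_singleton] at hi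
      rcases hi with rfl | rfl | rfl
      · rw [h0] at hn2
        omega
      · rw [h1] at hn2
        omega
      · rw [h2] at hn2
        exact Or.inr (Or.inr (Or.inl ⟨n, hn, hn2, rfl⟩))
    · rw [I3, Finset.mem_insert, Finset.mem_insert, Finset.mem_singleton] at hi
      rcases hi with rfl | rfl | rfl
      · rw [h0, Nat.lt_one_iff] at hn
        subst hn
        exact Or.inr (Or.inr (Or.inr (Or.inl r0)))
      · rw [h1, Nat.lt_one_iff] at hn
        subst hn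
        exact Or.inr (Or.inr (Or.inr (Or.inr (Or.inl r1))))
      · rw [h2] at hn
        exact Or.inr (Or.inr (Or.inr (Or.inr (Or.inr ⟨n, hn, rfl⟩))))
  · have i0 : (0 : ℕ) ∈ I3 := by decide
    have i1 : (1 : ℕ) ∈ I3 := by decide
    have i2 : (2 : ℕ) ∈ I3 := by decide
    rintro (⟨h, h'⟩ | ⟨h, h'⟩ | ⟨n, hn, hn2, rfl⟩ | rfl | rfl | ⟨n, hn, rfl⟩)
    · exact Or.inl (Or.inl (Or.inl ⟨h, h'⟩))
    · exact Or.inl (Or.inl (Or.inr ⟨h, h'⟩))
    · exact Or.inl (Or.inr ⟨2, i2, n, hn, by rw [h2]; exact hn2, rfl⟩)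
    · exact Or.inr ⟨0, i0, 0, by rw [h0]; exact Nat.one_pos, r0.symm⟩
    · exact Or.inr ⟨1, i1, 0, by rw [h1]; exact Nat.one_pos, r1.symm⟩
    · exact Or.inr ⟨2, i2, n, by rw [h2]; exact hn, rfl⟩

private noncomputable def GX2_R (m : ℕ) : VV →ₗ[F4] VV :=
  Finsupp.linearCombination F4 (fun p : ℕ × ℕ =>
    if p.1 = 3 then (if p.2 = 0 then F4.v • e 3 1 else F4.w • e 3 0) else e 2 (m - p.2))

private theorem GX2_R30 (m : ℕ) : GX2_R m (e 3 0) = F4.v • e 3 1 := by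
  refine (GX2_lc _ _ _).trans ?_
  exact (if_pos rfl).trans (if_pos rfl)

private theorem GX2_R31 (m : ℕ) : GX2_R m (e 3 1) = F4.w • e 3 0 := by
  refine (GX2_lc _ _ _).trans ?_
  exact (if_pos rfl).trans (if_neg (show ¬ (1 : ℕ) = 0 by decide))

private theorem GX2_R2 (m n : ℕ) : GX2_R m (e 2 n) = e 2 (m - n) := by
  refine (GX2_lc _ _ _).trans ?_
  exact if_neg (show ¬ (2 : ℕ) = 3 by decide)

private theorem GX2_vw : F4.v * F4.w = 1 := by decide
private theorem GX2_wv : F4.w * F4.v = 1 := by decide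

private theorem GX2_RV {m : ℕ} (hm : 1 ≤ m) {n : ℕ} (hn : n ≤ m) :
    GX2_R m (GX2_V m n) = GX2_V m (m - n) := by
  rcases Nat.eq_zero_or_pos n with rfl | h0
  · rw [GX2_V0, GX2_R30, Nat.sub_zero, GX2_Vm hm]
  · rcases hn.lt_or_eq with h | rfl
    · rw [GX2_Vn h0 h, GX2_R2, GX2_Vn (by omega) (by omega)]
    · rw [GX2_Vm hm, map_smul, GX2_R31, smul_smul, GX2_vw, one_smul, Nat.sub_self, GX2_V0]

private theorem GX2_RR30 (m : ℕ) : GX2_R m (GX2_R m (e 3 0)) = e 3 0 := by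
  rw [GX2_R30, map_smul, GX2_R31, smul_smul, GX2_vw, one_smul]

private theorem GX2_RR31 (m : ℕ) : GX2_R m (GX2_R m (e 3 1)) = e 3 1 := by
  rw [GX2_R31, map_smul, GX2_R30, smul_smul, GX2_wv, one_smul]

private theorem GX2_RR2 {m n : ℕ} (hn : n ≤ m) : GX2_R m (GX2_R m (e 2 n)) = e 2 n := by
  rw [GX2_R2, GX2_R2]
  congr 1
  omega

private theorem GX2_RC {a b : Bool} {m : ℕ} (hm : 2 ≤ m) {x : VV}
    (hx : x ∈ ThC a b (m11 m)) : (∃ y ∈ ThC b a (m11 m), ∃ s : F4, s ≠ 0 ∧ GX2_R m x = s • y) ∧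
      GX2_R m (GX2_R m x) = x := by
  rw [GX2_mem_ThC] at hx
  rcases hx with ⟨h, rfl⟩ | ⟨h, rfl⟩ | ⟨n, hn, hn2, rfl⟩ | rfl | rfl | ⟨n, hn, rfl⟩
  · exact ⟨⟨e 3 1, GX2_mem_ThC.2 (Or.inr (Or.inl ⟨h, rfl⟩)), F4.v, by decide, GX2_R30 m⟩,
      GX2_RR30 m⟩
  · exact ⟨⟨e 3 0, GX2_mem_ThC.2 (Or.inl ⟨h, rfl⟩), F4.w, by decide, GX2_R31 m⟩, GX2_RR31 m⟩
  · exact ⟨⟨e 2 (m - n), GX2_mem_ThC.2 (Or.inr (Or.inr (Or.inl ⟨m - n, by omega, by omega,
      rfl⟩))), 1, by decide, by rw [one_smul, GX2_R2]⟩, GX2_RR2 hn2.le⟩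
  · refine ⟨⟨e 3 0 + F4.w • e 3 1, GX2_mem_ThC.2 (Or.inr (Or.inr (Or.inr (Or.inr
      (Or.inl rfl))))), F4.w, by decide, ?_⟩, by rw [map_add, map_add, GX2_RR30, GX2_RR31]⟩
    rw [map_add, GX2_R30, GX2_R31, smul_add, smul_smul, show F4.w * F4.w = F4.v by decide,
      add_comm]
  · refine ⟨⟨e 3 0 + e 3 1, GX2_mem_ThC.2 (Or.inr (Or.inr (Or.inr (Or.inl rfl)))), F4.v,
      by decide, ?_⟩, by rw [map_add, map_add, map_smul, map_smul, GX2_RR30, GX2_RR31]⟩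
    rw [map_add, map_smul, GX2_R30, GX2_R31, smul_add, smul_smul,
      show F4.w * F4.w = F4.v by decide, add_comm]
  · constructor
    · refine ⟨GX2_V m (m - (n + 1)) + GX2_V m (m - (n + 1) + 1), GX2_mem_ThC.2 (Or.inr (Or.inr
        (Or.inr (Or.inr (Or.inr ⟨m - (n + 1), by omega, rfl⟩))))), 1, by decide, ?_⟩
      rw [map_add, GX2_RV (by omega) hn.le, GX2_RV (by omega) (by omega), one_smul, add_comm]
      congr 2
      omega
    · have h1 : ∀ k, k ≤ m → GX2_R m (GX2_R m (GX2_V m k)) = GX2_V m k := by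
        intro k hk
        rw [GX2_RV (by omega) hk, GX2_RV (by omega) (by omega)]
        congr 1
        omega
      rw [map_add, map_add, h1 n hn.le, h1 (n + 1) hn]

private theorem GX2_RP {m : ℕ} (hm : 2 ≤ m) {x : VV}
    (hx : x ∈ SX0) : (∃ y ∈ SX1 (m - 1), ∃ s : F4, s ≠ 0 ∧ GX2_R m x = s • y) ∧
      GX2_R m (GX2_R m x) = x := by
  have r0 := GX2_R30 m
  have r1 := GX2_R31 m
  have r2 : GX2_R m (e 2 1) = e 2 (m - 1) := GX2_R2 m 1
  have q0 := GX2_RR30 m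
  have q1 := GX2_RR31 m
  have q2 : GX2_R m (GX2_R m (e 2 1)) = e 2 1 := GX2_RR2 (by omega)
  rcases hx with rfl | rfl | rfl | rfl | rfl
  · refine ⟨⟨_, Or.inl rfl, 1, by decide, ?_⟩,
      by simp only [map_add, map_smul, q0, q1, q2]⟩
    rw [map_add, map_add, map_smul, map_smul, r0, r1, r2, one_smul, smul_smul, smul_smul,
      GX2_vw, GX2_wv, one_smul, one_smul, add_comm (e 3 1)]
  · refine ⟨⟨_, Or.inr (Or.inl rfl), 1, by decide, ?_⟩,
      by simp only [map_add, map_smul, q0, q1, q2]⟩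
    rw [map_add, map_add, map_smul, map_smul, r0, r1, r2, one_smul, smul_smul, smul_smul,
      GX2_vw, show F4.v * F4.v = F4.w by decide, one_smul, add_comm (F4.w • e 3 1)]
  · refine ⟨⟨_, Or.inr (Or.inr (Or.inl rfl)), 1, by decide, ?_⟩,
      by simp only [map_add, map_smul, q0, q1, q2]⟩
    rw [map_add, map_add, map_smul, r0, r1, r2, one_smul, smul_smul, GX2_vw, one_smul]
    abel
  · refine ⟨⟨_, Or.inr (Or.inr (Or.inr (Or.inl rfl))), F4.v, by decide, ?_⟩,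
      by simp only [map_add, map_smul, q1, q2]⟩
    rw [map_add, map_smul, r1, r2, smul_add, smul_smul, smul_smul, GX2_vw,
      show F4.w * F4.w = F4.v by decide, one_smul]
  · refine ⟨⟨_, Or.inr (Or.inr (Or.inr (Or.inr rfl))), F4.w, by decide, ?_⟩,
      by simp only [map_add, q1, q2]⟩
    rw [map_add, r1, r2, smul_add, smul_smul, GX2_wv, one_smul]

private theorem GX2_LnK {K : Submodule F4 VV} {C C' : Set VV}
    (h1 : ∀ c ∈ C, ∃ c' ∈ C', ∃ s : F4, s ≠ 0 ∧ c + s • c' ∈ K)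
    (h2 : ∀ c' ∈ C', ∃ c ∈ C, ∃ s : F4, s ≠ 0 ∧ c + s • c' ∈ K) : LnK K C = LnK K C' := by
  refine subset_antisymm ?_ ?_
  · rintro y ⟨hy, c, hc, s, hs⟩
    obtain ⟨c', hc', r, hr, h3⟩ := h1 c hc
    refine ⟨hy, c', hc', s * r, ?_⟩
    have h4 := K.add_mem hs (K.smul_mem s h3)
    have h5 : y + s • c + s • (c + r • c') = y + (s * r) • c' := by
      rw [smul_add, smul_smul, ← add_assoc, add_assoc y, vadd_self, add_zero]
    rwa [h5] at h4
  · rintro y ⟨hy, c', hc', s, hs⟩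
    obtain ⟨c, hc, r, hr, h3⟩ := h2 c' hc'
    refine ⟨hy, c, hc, s * r⁻¹, ?_⟩
    have h4 := K.add_mem hs (K.smul_mem (s * r⁻¹) h3)
    have h5 : y + s • c' + (s * r⁻¹) • (c + r • c') = y + (s * r⁻¹) • c := by
      rw [smul_add, smul_smul, mul_assoc, inv_mul_cancel₀ hr, mul_one, add_comm ((s * r⁻¹) • c),
        ← add_assoc, add_assoc y, vadd_self, add_zero]
    rwa [h5] at h4

/-- GX2a. the vectors at the other end, by reversal (the maps of GS1c: `Φ (e 3 0) = ω² • e 3 1`,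
`Φ (e 3 1) = ω • e 3 0`, `Φ (e 2 n) = e 2 (m - n)` for `0 < n < m`, `IsCfg.map`): `p` goes to a multiple of a
vector in `SX1 (m - 1)`. -/
theorem GX2a {α : Type} {M : Matroid α} {b : Bool} {m : ℕ} (hm : 3 ≤ m) {p : VV} (hp : p ∈ SX0)
    (h : IsCfg M ⊥ (insert p (ThC false b (m11 m)))) :
    ∃ p' ∈ SX1 (m - 1), IsCfg M ⊥ (insert p' (ThC b false (m11 m))) := by
  obtain ⟨⟨p', hp', s, hs, h1⟩, h2⟩ := GX2_RP (show 2 ≤ m by omega) hp
  refine ⟨p', hp', ?_⟩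
  have inv : ∀ {x y : VV} {s : F4}, s ≠ 0 → GX2_R m x = s • y → GX2_R m (GX2_R m x) = x →
      GX2_R m y = s⁻¹ • x := by
    intro x y s hs h1 h2
    rw [h1, map_smul] at h2
    rw [← h2, smul_smul, inv_mul_cancel₀ hs, one_smul]
  refine IsCfg.map (GX2_R m) (GX2_R m) ?_ ?_ ?_ ?_ h
  · intro k hk
    rw [Submodule.mem_bot] at hk ⊢
    rw [hk, map_zero]
  · intro k hk
    rw [Submodule.mem_bot] at hk ⊢
    rw [hk, map_zero]
  · rintro x (rfl | hx)
    · rw [h2, vadd_self]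
      exact Submodule.zero_mem _
    · rw [(GX2_RC (by omega) hx).2, vadd_self]
      exact Submodule.zero_mem _
  · refine GX2_LnK ?_ ?_
    · rintro _ ⟨x, (rfl | hx), rfl⟩
      · refine ⟨p', Or.inl rfl, s, hs, ?_⟩
        rw [h1, vadd_self]
        exact Submodule.zero_mem _
      · obtain ⟨y, hy, r, hr, h3⟩ := (GX2_RC (show 2 ≤ m by omega) hx).1
        refine ⟨y, Or.inr hy, r, hr, ?_⟩
        rw [h3, vadd_self]
        exact Submodule.zero_mem _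
    · rintro c' (rfl | hx)
      · refine ⟨GX2_R m p, ⟨p, Or.inl rfl, rfl⟩, s, hs, ?_⟩
        rw [h1, vadd_self]
        exact Submodule.zero_mem _
      · obtain ⟨⟨y, hy, r, hr, h3⟩, h4⟩ := GX2_RC (show 2 ≤ m by omega) hx
        refine ⟨GX2_R m y, ⟨y, Or.inr hy, rfl⟩, r⁻¹, inv_ne_zero hr, ?_⟩
        rw [inv hr h3 h4, vadd_self]
        exact Submodule.zero_mem _

private theorem GX2_SX1 {α : Type} {M : Matroid α} {a : Bool} {m : ℕ} (hm : 3 ≤ m) {p : VV}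
    (hp : p ∈ SX1 (m - 1)) (h : IsCfg M ⊥ (insert p (ThC a false (m11 m)))) : Fam M := by
  rcases hp with rfl | rfl | rfl | rfl | rfl
  · exact GX2p1 hm h
  · exact GX2p2 hm h
  · exact GX2p3 hm h
  · exact GX2p4 hm h
  · exact GX2p5 hm h

/-- GX2. tips: GX1a and `Fam.sp`; `SX1` (`b = false`): GX2p1 .. GX2p5; `SX0` (`a = false`): GX2a first. -/
theorem GX2 {α : Type} {M : Matroid α} {a b : Bool} {m : ℕ} (hm : 3 ≤ m) {p : VV}
    (hp : p ∈ SpP a b m) (hp0 : p ∉ (⊥ : Submodule F4 VV))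
    (hpC : p ∉ LnK ⊥ (ThC a b (m11 m))) (h : IsCfg M ⊥ (insert p (ThC a b (m11 m)))) : Fam M := by
  have tip : (p = e 3 0 ∨ p = e 3 1) → Fam M := by
    intro ht
    obtain ⟨a', b', h'⟩ := GX1a ht hpC h
    exact Fam.sp a' b' m (by omega) h'
  rcases hp with ((hp | (hp | hp | hp)) | ⟨hb, hp⟩) | ⟨ha, hp⟩
  · refine absurd ⟨hp0, p, hp, 1, ?_⟩ hpC
    rw [one_smul, vadd_self]
    exact Submodule.zero_mem _
  · exact tip (Or.inl hp)
  · exact tip (Or.inr hp)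
  · refine absurd ?_ hp0
    rw [hp]
    exact Submodule.zero_mem _
  · have hb' : b = false := by simpa using hb
    subst hb'
    exact GX2_SX1 hm hp h
  · have ha' : a = false := by simpa using ha
    subst ha'
    obtain ⟨p', hp', h'⟩ := GX2a hm hp h
    exact GX2_SX1 hm hp' h'

end QG
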