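import Pool.Agent.Lib.QG.GB2
import Pool.Agent.Lib.QG.GXd

/-! MP_2e6874_co, part (A), row GX3. One more vector for `La`. -/

set_option autoImplicit false

namespace QG
open Set Matroid Submodule

/-- the vertices of the strands of `La` -/
private noncomputable def GX3_v (m : ℕ → ℕ) (j n : ℕ) : VV := msu m (fun i => e i 0) (LaB m) j n

private theorem GX3_v0 (m : ℕ → ℕ) (j : ℕ) : GX3_v m j 0 = e j 0 := by
  rw [GX3_v, msu, if_pos rfl]

private theorem GX3_vB (m : ℕ → ℕ) (j : ℕ) : GX3_v m j (m j) = LaB m j := by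
  rw [GX3_v, msu]
  by_cases h : m j = 0
  · rw [if_pos h, LaB, if_pos h]
  · rw [if_neg h, if_pos rfl]

private theorem GX3_vi {m : ℕ → ℕ} {j n : ℕ} (h0 : 0 < n) (h1 : n < m j) : GX3_v m j n = e j n := by
  rw [GX3_v, msu, if_neg (by omega), if_neg (by omega)]

private theorem GX3_I3 {i : ℕ} : i ∈ I3 ↔ i < 3 := by
  simp only [I3, Finset.mem_insert, Finset.mem_singleton]
  omega

private theorem GX3_mem {a b : Bool} {m : ℕ → ℕ} {x : VV} : x ∈ LaC a b m ↔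
    (∃ j < 3, ∃ n ≤ m j, x = GX3_v m j n) ∨
    (∃ j < 3, ∃ n < m j, x = GX3_v m j n + GX3_v m j (n + 1)) ∨
    (a = true ∧ x = Lac) ∨ (b = true ∧ x = Lac' m) := by
  constructor
  · rintro ((((⟨j, hj, rfl | rfl⟩ | ⟨ha, hx⟩) | ⟨hb, hx⟩) | ⟨j, hj, n, h0, hn, rfl⟩) |
      ⟨j, hj, n, hn, rfl⟩)
    · exact Or.inl ⟨j, hj, 0, Nat.zero_le _, (GX3_v0 m j).symm⟩
    · exact Or.inl ⟨j, hj, m j, le_rfl, (GX3_vB m j).symm⟩
    · exact Or.inr (Or.inr (Or.inl ⟨ha, hx⟩))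
    · exact Or.inr (Or.inr (Or.inr ⟨hb, hx⟩))
    · exact Or.inl ⟨j, GX3_I3.1 hj, n, hn.le, (GX3_vi h0 hn).symm⟩
    · exact Or.inr (Or.inl ⟨j, GX3_I3.1 hj, n, hn, rfl⟩)
  · rintro (⟨j, hj, n, hn, rfl⟩ | ⟨j, hj, n, hn, rfl⟩ | ⟨ha, rfl⟩ | ⟨hb, rfl⟩)
    · rcases Nat.eq_zero_or_pos n with h0 | h0
      · subst h0
        rw [GX3_v0]
        exact Or.inl (Or.inl (Or.inl (Or.inl ⟨j, hj, Or.inl rfl⟩)))
      · rcases Nat.lt_or_ge n (m j) with h1 | h1
        · rw [GX3_vi h0 h1]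
          exact Or.inl (Or.inr ⟨j, GX3_I3.2 hj, n, h0, h1, rfl⟩)
        · have h2 : n = m j := by omega
          rw [h2, GX3_vB]
          exact Or.inl (Or.inl (Or.inl (Or.inl ⟨j, hj, Or.inr rfl⟩)))
    · exact Or.inr ⟨j, GX3_I3.2 hj, n, hn, rfl⟩
    · exact Or.inl (Or.inl (Or.inl (Or.inr ⟨ha, rfl⟩)))
    · exact Or.inl (Or.inl (Or.inr ⟨hb, rfl⟩))

private theorem GX3_Lac {i : ℕ} (hi : i < 3) :
    Lac + e i 0 = ∑ j ∈ (Finset.range 3).erase i, e j 0 := by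
  have h1 : Lac = ∑ j ∈ Finset.range 3, e j 0 := by
    simp [Finset.sum_range_succ, Lac]
  rw [h1, ← Finset.add_sum_erase _ _ (Finset.mem_range.2 hi), add_comm, ← add_assoc, vadd_self,
    zero_add]

private theorem GX3_g0 (i : ℕ) : g3 i ≠ 0 := by
  unfold g3
  split_ifs <;> decide

private theorem GX3_Lac' (m : ℕ → ℕ) {i : ℕ} (hi : i < 3) :
    Lac' m + g3 i • LaB m i = ∑ j ∈ (Finset.range 3).erase i, g3 j • LaB m j := by
  have h1 : Lac' m = ∑ j ∈ Finset.range 3, g3 j • LaB m j := by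
    have g0 : g3 0 = 1 := rfl
    have g1 : g3 1 = F4.w := rfl
    have g2 : g3 2 = F4.v := rfl
    simp [Finset.sum_range_succ, Lac', g0, g1, g2]
  rw [h1, ← Finset.add_sum_erase _ _ (Finset.mem_range.2 hi), add_comm, ← add_assoc, vadd_self,
    zero_add]

private theorem GX3_split {x y z : VV} (h : x + y = z) : x = y + z := by
  rw [← h, ← add_assoc, add_comm y x, add_assoc, vadd_self, add_zero]

private theorem GX3_lc (f : ℕ × ℕ → VV) (i n : ℕ) :
    Finsupp.linearCombination F4 f (e i n) = f (i, n) := by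
  rw [e, Finsupp.linearCombination_single, one_smul]

private theorem GX3_LnK {K : Submodule F4 VV} {C C' : Set VV}
    (h1 : ∀ c ∈ C, ∃ c' ∈ C', ∃ s : F4, s ≠ 0 ∧ c + s • c' ∈ K)
    (h2 : ∀ c' ∈ C', ∃ c ∈ C, ∃ s : F4, s ≠ 0 ∧ c + s • c' ∈ K) : LnK K C = LnK K C' := by
  refine subset_antisymm ?_ ?_
  · rintro y ⟨hy, c, hc, s, hs⟩
    obtain ⟨c', hc', r, hr, h3⟩ := h1 c hc
    refine ⟨hy, c', hc', s * r, ?_⟩
    have h4 := K.add_mem hs (K.smul_mem s h3)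
    have h5 : y + s • c + s • (c + r • c') = y + (s * r) • c' := by
      rw [smul_add, smul_smul, ← add_assoc, add_assoc y, vadd_self, add_zero]
    rwa [h5] at h4
  · rintro y ⟨hy, c', hc', s, hs⟩
    obtain ⟨c, hc, r, hr, h3⟩ := h2 c' hc'
    refine ⟨hy, c, hc, s * r⁻¹, ?_⟩
    have h4 := K.add_mem hs (K.smul_mem (s * r⁻¹) h3)
    have h5 : y + s • c' + (s * r⁻¹) • (c + r • c') = y + (s * r⁻¹) • c := by
      rw [smul_add, smul_smul, mul_assoc, inv_mul_cancel₀ hr, mul_one, add_comm ((s * r⁻¹) • c),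
        ← add_assoc, add_assoc y, vadd_self, add_zero]
    rwa [h5] at h4

private theorem GX3_inc_same (m : ℕ → ℕ) (i : ℕ) : inc m i i = m i + 1 := by
  rw [inc, Function.update_self]

private theorem GX3_inc_ne (m : ℕ → ℕ) {i j : ℕ} (h : j ≠ i) : inc m i j = m j := by
  rw [inc, Function.update_of_ne h]

private theorem GX3_LaB_ne (m : ℕ → ℕ) {i j : ℕ} (h : j ≠ i) : LaB (inc m i) j = LaB m j := by
  rw [LaB, LaB, GX3_inc_ne m h]

private theorem GX3_LaB_same (m : ℕ → ℕ) (i : ℕ) : LaB (inc m i) i = e (i + 4) 0 := by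
  rw [LaB, GX3_inc_same, if_neg (by omega)]

private theorem GX3_v_ne (m : ℕ → ℕ) {i j : ℕ} (h : j ≠ i) (n : ℕ) :
    GX3_v (inc m i) j n = GX3_v m j n := by
  rw [GX3_v, GX3_v, msu, msu, GX3_inc_ne m h, GX3_LaB_ne m h]

/-! ### GX3a -/

private noncomputable def GX3_Φ (m : ℕ → ℕ) (i : ℕ) : VV →ₗ[F4] VV :=
  Finsupp.linearCombination F4 (fun p : ℕ × ℕ =>
    if p.1 = i then (if m i = 0 ∧ p.2 = 0 then e (i + 4) 0 else e i (p.2 + 1)) else e p.1 p.2)

private noncomputable def GX3_Θ (m : ℕ → ℕ) (i : ℕ) : VV →ₗ[F4] VV :=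
  Finsupp.linearCombination F4 (fun p : ℕ × ℕ =>
    if p.1 = i then (if p.2 = 0 then Lac + e i 0 else e i (p.2 - 1))
    else if p.1 = i + 4 ∧ m i = 0 then e i 0 else e p.1 p.2)

private theorem GX3_Φ_ne {m : ℕ → ℕ} {i j : ℕ} (h : j ≠ i) (n : ℕ) : GX3_Φ m i (e j n) = e j n := by
  rw [GX3_Φ, GX3_lc]
  simp only [h, if_false]

private theorem GX3_Φ_B {m : ℕ → ℕ} {i j : ℕ} (hi : i < 3) (h : j ≠ i) :
    GX3_Φ m i (LaB m j) = LaB m j := by
  rw [LaB]
  split_ifs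
  · exact GX3_Φ_ne h 0
  · exact GX3_Φ_ne (by omega) 0

private theorem GX3_Φ_v {m : ℕ → ℕ} {i j : ℕ} (hi : i < 3) (h : j ≠ i) (n : ℕ) :
    GX3_Φ m i (GX3_v m j n) = GX3_v m j n := by
  rw [GX3_v, msu]
  split_ifs
  · exact GX3_Φ_ne h 0
  · exact GX3_Φ_B hi h
  · exact GX3_Φ_ne h n

private theorem GX3_Φ_vi {m : ℕ → ℕ} {i : ℕ} {n : ℕ} (hn : n ≤ m i) :
    GX3_Φ m i (GX3_v m i n) = GX3_v (inc m i) i (n + 1) := by
  have hs := GX3_inc_same m i
  rcases Nat.eq_zero_or_pos n with h0 | h0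
  · subst h0
    rw [GX3_v0, GX3_Φ, GX3_lc]
    simp only [if_true, and_true]
    by_cases h1 : m i = 0
    · rw [if_pos h1]
      have h2 : 0 + 1 = inc m i i := by rw [hs, h1]
      rw [h2, GX3_vB, GX3_LaB_same]
    · rw [if_neg h1, GX3_vi (by omega) (by omega)]
  · rcases Nat.lt_or_ge n (m i) with h1 | h1
    · rw [GX3_vi h0 h1, GX3_Φ, GX3_lc, GX3_vi (by omega) (by omega)]
      simp only [if_true]
      rw [if_neg (by omega)]
    · have h2 : n = m i := by omega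
      subst h2
      rw [GX3_vB, ← hs, GX3_vB, GX3_LaB_same, LaB, if_neg (by omega)]
      exact GX3_Φ_ne (by omega) 0

private theorem GX3_Θ_ne {m : ℕ → ℕ} {i j : ℕ} (h : j ≠ i) (h4 : j ≠ i + 4) (n : ℕ) :
    GX3_Θ m i (e j n) = e j n := by
  rw [GX3_Θ, GX3_lc]
  simp only [h, h4, if_false, false_and]

private theorem GX3_Θ_B {m : ℕ → ℕ} {i j : ℕ} (hi : i < 3) (hj : j < 3) (h : j ≠ i) :
    GX3_Θ m i (LaB m j) = LaB m j := by
  rw [LaB]
  split_ifs
  · exact GX3_Θ_ne h (by omega) 0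
  · exact GX3_Θ_ne (by omega) (by omega) 0

private theorem GX3_Θ_v {m : ℕ → ℕ} {i j : ℕ} (hi : i < 3) (hj : j < 3) (h : j ≠ i) (n : ℕ) :
    GX3_Θ m i (GX3_v m j n) = GX3_v m j n := by
  rw [GX3_v, msu]
  split_ifs
  · exact GX3_Θ_ne h (by omega) 0
  · exact GX3_Θ_B hi hj h
  · exact GX3_Θ_ne h (by omega) n

private theorem GX3_Θ_Bi {m : ℕ → ℕ} {i : ℕ} : GX3_Θ m i (e (i + 4) 0) = LaB m i := by
  rw [GX3_Θ, GX3_lc, LaB]
  simp only [show ¬ (i + 4 = i) by omega, if_false, true_and]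

private theorem GX3_Θ_vi {m : ℕ → ℕ} {i : ℕ} {n : ℕ} (hn : n ≤ m i) :
    GX3_Θ m i (GX3_v (inc m i) i (n + 1)) = GX3_v m i n := by
  have hs := GX3_inc_same m i
  rcases Nat.lt_or_ge n (m i) with h1 | h1
  · rw [GX3_vi (by omega) (by omega), GX3_Θ, GX3_lc]
    simp only [if_true]
    rw [if_neg (by omega), Nat.add_sub_cancel]
    rcases Nat.eq_zero_or_pos n with h0 | h0
    · subst h0
      rw [GX3_v0]
    · rw [GX3_vi h0 h1]
  · have h2 : n = m i := by omega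
    subst h2
    rw [← hs, GX3_vB, GX3_LaB_same, GX3_Θ_Bi, GX3_vB]

private theorem GX3_Θ_0 {m : ℕ → ℕ} {i : ℕ} : GX3_Θ m i (e i 0) = Lac + e i 0 := by
  rw [GX3_Θ, GX3_lc]
  simp only [if_true]

private theorem GX3_Φ_others {m : ℕ → ℕ} {i : ℕ} (hi : i < 3) :
    GX3_Φ m i (Lac + e i 0) = Lac + e i 0 := by
  rw [GX3_Lac hi, map_sum]
  refine Finset.sum_congr rfl fun j hj => ?_
  rw [Finset.mem_erase] at hj
  exact GX3_Φ_ne hj.1 0

private theorem GX3_Φ_Lac {m : ℕ → ℕ} {i : ℕ} (hi : i < 3) :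
    GX3_Φ m i Lac = GX3_v (inc m i) i 1 + (Lac + e i 0) := by
  have h1 : Lac = e i 0 + (Lac + e i 0) := GX3_split rfl
  conv_lhs => rw [h1]
  rw [map_add, GX3_Φ_others hi, ← GX3_v0 m i, GX3_Φ_vi (Nat.zero_le _)]

private theorem GX3_Φ_Lac' {m : ℕ → ℕ} {i : ℕ} (hi : i < 3) :
    GX3_Φ m i (Lac' m) = Lac' (inc m i) := by
  have h1 : Lac' m = g3 i • LaB m i + (Lac' m + g3 i • LaB m i) := GX3_split rfl
  have h2 : Lac' (inc m i) = g3 i • LaB (inc m i) i +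
    (Lac' (inc m i) + g3 i • LaB (inc m i) i) := GX3_split rfl
  rw [h1, h2, map_add, map_smul, GX3_Lac' _ hi, GX3_Lac' _ hi, ← GX3_vB m i, GX3_Φ_vi le_rfl,
    ← GX3_inc_same m i, GX3_vB, map_sum]
  congr 1
  refine Finset.sum_congr rfl fun j hj => ?_
  rw [Finset.mem_erase] at hj
  rw [map_smul, GX3_Φ_B hi hj.1, GX3_LaB_ne m hj.1]

private theorem GX3_Θ_others {m : ℕ → ℕ} {i : ℕ} (hi : i < 3) :
    GX3_Θ m i (Lac + e i 0) = Lac + e i 0 := by
  rw [GX3_Lac hi, map_sum]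
  refine Finset.sum_congr rfl fun j hj => ?_
  rw [Finset.mem_erase, Finset.mem_range] at hj
  exact GX3_Θ_ne hj.1 (by omega) 0

private theorem GX3_Θ_Lac {m : ℕ → ℕ} {i : ℕ} (hi : i < 3) : GX3_Θ m i Lac = 0 := by
  have h1 : Lac = e i 0 + (Lac + e i 0) := GX3_split rfl
  conv_lhs => rw [h1]
  rw [map_add, GX3_Θ_others hi, GX3_Θ_0, vadd_self]

private theorem GX3_Θ_Lac' {m : ℕ → ℕ} {i : ℕ} (hi : i < 3) :
    GX3_Θ m i (Lac' (inc m i)) = Lac' m := by
  have h1 : Lac' m = g3 i • LaB m i + (Lac' m + g3 i • LaB m i) := GX3_split rfl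
  have h2 : Lac' (inc m i) = g3 i • LaB (inc m i) i +
    (Lac' (inc m i) + g3 i • LaB (inc m i) i) := GX3_split rfl
  rw [h1, h2, map_add, map_smul, GX3_Lac' _ hi, GX3_Lac' _ hi, GX3_LaB_same, GX3_Θ_Bi, map_sum]
  congr 1
  refine Finset.sum_congr rfl fun j hj => ?_
  rw [Finset.mem_erase, Finset.mem_range] at hj
  rw [map_smul, GX3_LaB_ne m hj.1, GX3_Θ_B hi hj.2 hj.1]

private theorem GX3_one {K : Submodule F4 VV} (x : VV) : x + (1 : F4) • x ∈ K := by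
  rw [one_smul, vadd_self]
  exact K.zero_mem

/-- GX3a. `c` is a point, `p = c + e_i`. New configuration: strand `i` gets the new first vertex `p` and the
new first rim `c`: `Φ (e i n) = e i (n+1)` for `n < m i`, (for `m i = 0`: `Φ (e i 0) = e (i+4) 0`), everything
else fixed; `Θ (e i 0) = Lac + e i 0` (`= Σ_{j ≠ i} e j 0`), `Θ (e i (n+1)) = e i n`, (for `m i = 0` :
`Θ (e (i+4) 0) = e i 0`). Modulo `Lac`: `Φ Lac ≡ ` rim 0, `Φ (Lac + e i 0) ≡ e i 0`. `Φ (Lac' m) = Lac' (inc m i)`. -/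
theorem GX3a {α : Type} {M : Matroid α} {b : Bool} {m : ℕ → ℕ} {i : ℕ} (hi : i < 3)
    (h : IsCfg M (LaK true b m) (insert (Lac + e i 0) (LaC true b m))) :
    IsCfg M (LaK false b (inc m i)) (LaC false b (inc m i)) := by
  have hs := GX3_inc_same m i
  have hLac : Lac ∈ LaK false b (inc m i) := subset_span (Or.inl ⟨rfl, rfl⟩)
  refine h.map (GX3_Φ m i) (GX3_Θ m i) ?_ ?_ ?_ ?_
  · intro k hk
    have h1 : LaK true b m ≤ (LaK false b (inc m i)).comap (GX3_Φ m i) := by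
      rw [LaK, span_le]
      rintro x (⟨h1, -⟩ | ⟨h1, hx⟩)
      · exact absurd h1 (by decide)
      · rw [mem_singleton_iff] at hx
        subst hx
        rw [SetLike.mem_coe, Submodule.mem_comap]
        rw [GX3_Φ_Lac' hi]
        exact subset_span (Or.inr ⟨h1, rfl⟩)
    exact h1 hk
  · intro k hk
    have h1 : LaK false b (inc m i) ≤ (LaK true b m).comap (GX3_Θ m i) := by
      rw [LaK, span_le]
      rintro x (⟨h1, hx⟩ | ⟨h1, hx⟩)
      · rw [mem_singleton_iff] at hx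
        subst hx
        rw [SetLike.mem_coe, Submodule.mem_comap]
        rw [GX3_Θ_Lac hi]
        exact Submodule.zero_mem _
      · rw [mem_singleton_iff] at hx
        subst hx
        rw [SetLike.mem_coe, Submodule.mem_comap]
        rw [GX3_Θ_Lac' hi]
        exact subset_span (Or.inr ⟨h1, rfl⟩)
    exact h1 hk
  · -- `Θ Φ = id`
    have key : ∀ x ∈ insert (Lac + e i 0) (LaC true b m), GX3_Θ m i (GX3_Φ m i x) = x := by
      have hv : ∀ j < 3, ∀ n ≤ m j, GX3_Θ m i (GX3_Φ m i (GX3_v m j n)) = GX3_v m j n := by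
        intro j hj n hn
        by_cases hji : j = i
        · subst hji
          rw [GX3_Φ_vi hn, GX3_Θ_vi hn]
        · rw [GX3_Φ_v hi hji, GX3_Θ_v hi hj hji]
      rintro x (rfl | hx)
      · rw [GX3_Φ_others hi, GX3_Θ_others hi]
      · rcases GX3_mem.1 hx with ⟨j, hj, n, hn, rfl⟩ | ⟨j, hj, n, hn, rfl⟩ | ⟨-, rfl⟩ | ⟨-, rfl⟩
        · exact hv j hj n hn
        · rw [map_add, map_add, hv j hj n hn.le, hv j hj (n + 1) hn]
        · rw [GX3_Φ_Lac hi, map_add, GX3_Θ_vi (Nat.zero_le _), GX3_Θ_others hi, GX3_v0]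
          exact (GX3_split rfl).symm
        · rw [GX3_Φ_Lac' hi, GX3_Θ_Lac' hi]
    intro x hx
    rw [key x hx, vadd_self]
    exact Submodule.zero_mem _
  · refine GX3_LnK ?_ ?_
    · rintro _ ⟨x, rfl | hx, rfl⟩
      · refine ⟨GX3_v (inc m i) i 0, GX3_mem.2 (Or.inl ⟨i, hi, 0, Nat.zero_le _, rfl⟩), 1,
          one_ne_zero, ?_⟩
        rw [GX3_Φ_others hi, GX3_v0, one_smul, add_assoc, vadd_self, add_zero]
        exact hLac
      · rcases GX3_mem.1 hx with ⟨j, hj, n, hn, rfl⟩ | ⟨j, hj, n, hn, rfl⟩ | ⟨-, rfl⟩ | ⟨h1, rfl⟩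
        · by_cases hji : j = i
          · subst hji
            refine ⟨_, GX3_mem.2 (Or.inl ⟨j, hj, n + 1, by omega, rfl⟩), 1, one_ne_zero, ?_⟩
            rw [GX3_Φ_vi hn]
            exact GX3_one _
          · refine ⟨_, GX3_mem.2 (Or.inl ⟨j, hj, n, by rw [GX3_inc_ne m hji]; exact hn, rfl⟩), 1,
              one_ne_zero, ?_⟩
            rw [GX3_Φ_v hi hji, GX3_v_ne m hji]
            exact GX3_one _
        · by_cases hji : j = i
          · subst hji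
            refine ⟨_, GX3_mem.2 (Or.inr (Or.inl ⟨j, hj, n + 1, by omega, rfl⟩)), 1,
              one_ne_zero, ?_⟩
            rw [map_add, GX3_Φ_vi hn.le, GX3_Φ_vi hn]
            exact GX3_one _
          · refine ⟨_, GX3_mem.2 (Or.inr (Or.inl ⟨j, hj, n, by rw [GX3_inc_ne m hji]; exact hn,
              rfl⟩)), 1, one_ne_zero, ?_⟩
            rw [map_add, GX3_Φ_v hi hji, GX3_Φ_v hi hji, GX3_v_ne m hji, GX3_v_ne m hji]
            exact GX3_one _
        · refine ⟨_, GX3_mem.2 (Or.inr (Or.inl ⟨i, hi, 0, by omega, rfl⟩)), 1, one_ne_zero, ?_⟩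
          rw [GX3_Φ_Lac hi, GX3_v0, one_smul, zero_add]
          have h2 : GX3_v (inc m i) i 1 + (Lac + e i 0) + (e i 0 + GX3_v (inc m i) i 1) =
              Lac + (e i 0 + e i 0) + (GX3_v (inc m i) i 1 + GX3_v (inc m i) i 1) := by abel
          rw [h2, vadd_self, vadd_self, add_zero, add_zero]
          exact hLac
        · refine ⟨_, GX3_mem.2 (Or.inr (Or.inr (Or.inr ⟨h1, rfl⟩))), 1, one_ne_zero, ?_⟩
          rw [GX3_Φ_Lac' hi]
          exact GX3_one _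
    · intro c' hc'
      rcases GX3_mem.1 hc' with ⟨j, hj, n, hn, rfl⟩ | ⟨j, hj, n, hn, rfl⟩ | ⟨h1, -⟩ | ⟨h1, rfl⟩
      · by_cases hji : j = i
        · subst hji
          cases n with
          | zero =>
            refine ⟨_, ⟨Lac + e j 0, mem_insert _ _, rfl⟩, 1, one_ne_zero, ?_⟩
            rw [GX3_Φ_others hi, GX3_v0, one_smul, add_assoc, vadd_self, add_zero]
            exact hLac
          | succ n =>
            refine ⟨_, ⟨GX3_v m j n, mem_insert_of_mem _ (GX3_mem.2 (Or.inl ⟨j, hj, n, by omega,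
              rfl⟩)), rfl⟩, 1, one_ne_zero, ?_⟩
            rw [GX3_Φ_vi (by omega)]
            exact GX3_one _
        · rw [GX3_inc_ne m hji] at hn
          refine ⟨_, ⟨GX3_v m j n, mem_insert_of_mem _ (GX3_mem.2 (Or.inl ⟨j, hj, n, hn,
              rfl⟩)), rfl⟩, 1, one_ne_zero, ?_⟩
          rw [GX3_Φ_v hi hji, GX3_v_ne m hji]
          exact GX3_one _
      · by_cases hji : j = i
        · subst hji
          cases n with
          | zero =>
            refine ⟨_, ⟨Lac, mem_insert_of_mem _ (GX3_mem.2 (Or.inr (Or.inr (Or.inl ⟨rfl,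
              rfl⟩)))), rfl⟩, 1, one_ne_zero, ?_⟩
            rw [GX3_Φ_Lac hi, GX3_v0, one_smul, zero_add]
            have h2 : GX3_v (inc m j) j 1 + (Lac + e j 0) + (e j 0 + GX3_v (inc m j) j 1) =
                Lac + (e j 0 + e j 0) + (GX3_v (inc m j) j 1 + GX3_v (inc m j) j 1) := by abel
            rw [h2, vadd_self, vadd_self, add_zero, add_zero]
            exact hLac
          | succ n =>
            refine ⟨_, ⟨GX3_v m j n + GX3_v m j (n + 1), mem_insert_of_mem _ (GX3_mem.2 (Or.inr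
              (Or.inl ⟨j, hj, n, by omega, rfl⟩))), rfl⟩, 1, one_ne_zero, ?_⟩
            rw [map_add, GX3_Φ_vi (by omega), GX3_Φ_vi (by omega)]
            exact GX3_one _
        · rw [GX3_inc_ne m hji] at hn
          refine ⟨_, ⟨GX3_v m j n + GX3_v m j (n + 1), mem_insert_of_mem _ (GX3_mem.2 (Or.inr
              (Or.inl ⟨j, hj, n, hn, rfl⟩))), rfl⟩, 1, one_ne_zero, ?_⟩
          rw [map_add, GX3_Φ_v hi hji, GX3_Φ_v hi hji, GX3_v_ne m hji, GX3_v_ne m hji]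
          exact GX3_one _
      · exact absurd h1 (by decide)
      · refine ⟨_, ⟨Lac' m, mem_insert_of_mem _ (GX3_mem.2 (Or.inr (Or.inr (Or.inr ⟨h1,
              rfl⟩)))), rfl⟩, 1, one_ne_zero, ?_⟩
        rw [GX3_Φ_Lac' hi]
        exact GX3_one _

/-! ### GX3b -/

private noncomputable def GX3_Ψ (m : ℕ → ℕ) (i : ℕ) : VV →ₗ[F4] VV :=
  Finsupp.linearCombination F4 (fun p : ℕ × ℕ =>
    if p.1 = i + 4 ∧ 1 ≤ m i then e i (m i) else e p.1 p.2)

private noncomputable def GX3_Ξ (m : ℕ → ℕ) (i : ℕ) : VV →ₗ[F4] VV :=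
  Finsupp.linearCombination F4 (fun p : ℕ × ℕ =>
    if p.1 = i + 4 then (g3 i)⁻¹ • (Lac' m + g3 i • LaB m i)
    else if p.1 = i ∧ p.2 = m i then LaB m i else e p.1 p.2)

private theorem GX3_Ψ_ne {m : ℕ → ℕ} {i j : ℕ} (h : j ≠ i + 4) (n : ℕ) :
    GX3_Ψ m i (e j n) = e j n := by
  rw [GX3_Ψ, GX3_lc]
  simp only [h, if_false, false_and]

private theorem GX3_Ψ_B {m : ℕ → ℕ} {i j : ℕ} (hj : j < 3) (h : j ≠ i) :
    GX3_Ψ m i (LaB m j) = LaB m j := by
  rw [LaB]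
  split_ifs
  · exact GX3_Ψ_ne (by omega) 0
  · exact GX3_Ψ_ne (by omega) 0

private theorem GX3_Ψ_v {m : ℕ → ℕ} {i j : ℕ} (hj : j < 3) (h : j ≠ i) (n : ℕ) :
    GX3_Ψ m i (GX3_v m j n) = GX3_v m j n := by
  rw [GX3_v, msu]
  split_ifs
  · exact GX3_Ψ_ne (by omega) 0
  · exact GX3_Ψ_B hj h
  · exact GX3_Ψ_ne (by omega) n

private theorem GX3_Ψ_vi {m : ℕ → ℕ} {i : ℕ} (hi : i < 3) {n : ℕ} (hn : n ≤ m i) :
    GX3_Ψ m i (GX3_v m i n) = GX3_v (inc m i) i n := by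
  have hs := GX3_inc_same m i
  rcases Nat.eq_zero_or_pos n with h0 | h0
  · subst h0
    rw [GX3_v0, GX3_v0, GX3_Ψ_ne (by omega)]
  · rw [GX3_vi (m := inc m i) h0 (by omega)]
    rcases Nat.lt_or_ge n (m i) with h1 | h1
    · rw [GX3_vi h0 h1, GX3_Ψ_ne (by omega)]
    · have h2 : n = m i := by omega
      subst h2
      rw [GX3_vB, LaB, if_neg (by omega), GX3_Ψ, GX3_lc]
      simp only [true_and]
      rw [if_pos (by omega)]

private theorem GX3_Ξ_ne {m : ℕ → ℕ} {i j : ℕ} (h : j ≠ i) (h4 : j ≠ i + 4) (n : ℕ) :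
    GX3_Ξ m i (e j n) = e j n := by
  rw [GX3_Ξ, GX3_lc]
  simp only [h, h4, if_false, false_and]

private theorem GX3_Ξ_B {m : ℕ → ℕ} {i j : ℕ} (hi : i < 3) (hj : j < 3) (h : j ≠ i) :
    GX3_Ξ m i (LaB m j) = LaB m j := by
  rw [LaB]
  split_ifs
  · exact GX3_Ξ_ne h (by omega) 0
  · exact GX3_Ξ_ne (by omega) (by omega) 0

private theorem GX3_Ξ_v {m : ℕ → ℕ} {i j : ℕ} (hi : i < 3) (hj : j < 3) (h : j ≠ i) (n : ℕ) :
    GX3_Ξ m i (GX3_v m j n) = GX3_v m j n := by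
  rw [GX3_v, msu]
  split_ifs
  · exact GX3_Ξ_ne h (by omega) 0
  · exact GX3_Ξ_B hi hj h
  · exact GX3_Ξ_ne h (by omega) n

private theorem GX3_Ξ_vi {m : ℕ → ℕ} {i : ℕ} {n : ℕ} (hn : n ≤ m i) :
    GX3_Ξ m i (GX3_v (inc m i) i n) = GX3_v m i n := by
  have hs := GX3_inc_same m i
  rcases Nat.lt_or_ge n (m i) with h1 | h1
  · rcases Nat.eq_zero_or_pos n with h0 | h0
    · subst h0
      rw [GX3_v0, GX3_v0, GX3_Ξ, GX3_lc]
      simp only [show ¬ (i = i + 4) by omega, if_false, true_and]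
      rw [if_neg (by omega)]
    · rw [GX3_vi h0 h1, GX3_vi h0 (by omega), GX3_Ξ, GX3_lc]
      simp only [show ¬ (i = i + 4) by omega, if_false, true_and]
      rw [if_neg (by omega)]
  · have h2 : n = m i := by omega
    subst h2
    rw [GX3_vB]
    rcases Nat.eq_zero_or_pos (m i) with h0 | h0
    · rw [h0, GX3_v0, GX3_Ξ, GX3_lc]
      simp only [show ¬ (i = i + 4) by omega, if_false, true_and]
      rw [if_pos h0.symm]
    · rw [GX3_vi h0 (by omega), GX3_Ξ, GX3_lc]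
      simp only [show ¬ (i = i + 4) by omega, if_false, true_and, if_true]

private theorem GX3_Ξ_new {m : ℕ → ℕ} {i : ℕ} :
    GX3_Ξ m i (e (i + 4) 0) = (g3 i)⁻¹ • (Lac' m + g3 i • LaB m i) := by
  rw [GX3_Ξ, GX3_lc]
  simp only [if_true]

private theorem GX3_Ψ_Lac {m : ℕ → ℕ} {i : ℕ} : GX3_Ψ m i Lac = Lac := by
  rw [Lac, map_add, map_add, GX3_Ψ_ne (by omega), GX3_Ψ_ne (by omega), GX3_Ψ_ne (by omega)]

private theorem GX3_Ξ_e0 {m : ℕ → ℕ} {i j : ℕ} (hi : i < 3) (hj : j < 3) :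
    GX3_Ξ m i (e j 0) = e j 0 := by
  by_cases h : j = i
  · subst h
    have h1 := GX3_Ξ_vi (m := m) (i := j) (n := 0) (Nat.zero_le _)
    rwa [GX3_v0, GX3_v0] at h1
  · exact GX3_Ξ_ne h (by omega) 0

private theorem GX3_Ξ_Lac {m : ℕ → ℕ} {i : ℕ} (hi : i < 3) : GX3_Ξ m i Lac = Lac := by
  rw [Lac, map_add, map_add, GX3_Ξ_e0 hi (by omega), GX3_Ξ_e0 hi (by omega),
    GX3_Ξ_e0 hi (by omega)]

private theorem GX3_Ψ_others {m : ℕ → ℕ} {i : ℕ} (hi : i < 3) :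
    GX3_Ψ m i (Lac' m + g3 i • LaB m i) = Lac' m + g3 i • LaB m i := by
  rw [GX3_Lac' m hi, map_sum]
  refine Finset.sum_congr rfl fun j hj => ?_
  rw [Finset.mem_erase, Finset.mem_range] at hj
  rw [map_smul, GX3_Ψ_B hj.2 hj.1]

private theorem GX3_Ξ_others {m : ℕ → ℕ} {i : ℕ} (hi : i < 3) :
    GX3_Ξ m i (Lac' m + g3 i • LaB m i) = Lac' m + g3 i • LaB m i := by
  rw [GX3_Lac' m hi, map_sum]
  refine Finset.sum_congr rfl fun j hj => ?_
  rw [Finset.mem_erase, Finset.mem_range] at hj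
  rw [map_smul, GX3_Ξ_B hi hj.2 hj.1]

/-- the vector `c'` of the longer configuration -/
private theorem GX3_new {m : ℕ → ℕ} {i : ℕ} (hi : i < 3) :
    Lac' (inc m i) = g3 i • e (i + 4) 0 + (Lac' m + g3 i • LaB m i) := by
  have h2 : Lac' (inc m i) = g3 i • LaB (inc m i) i +
    (Lac' (inc m i) + g3 i • LaB (inc m i) i) := GX3_split rfl
  rw [h2, GX3_Lac' _ hi, GX3_Lac' _ hi, GX3_LaB_same]
  congr 1
  refine Finset.sum_congr rfl fun j hj => ?_
  rw [Finset.mem_erase, Finset.mem_range] at hj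
  rw [GX3_LaB_ne m hj.1]

private theorem GX3_Ξ_Lac' {m : ℕ → ℕ} {i : ℕ} (hi : i < 3) :
    GX3_Ξ m i (Lac' (inc m i)) = 0 := by
  rw [GX3_new hi, map_add, map_smul, GX3_Ξ_new, GX3_Ξ_others hi, smul_smul,
    mul_inv_cancel₀ (GX3_g0 i), one_smul, vadd_self]

private theorem GX3_Ψ_Lac' {m : ℕ → ℕ} {i : ℕ} (hi : i < 3) :
    GX3_Ψ m i (Lac' m) = g3 i • GX3_v (inc m i) i (m i) + (Lac' m + g3 i • LaB m i) := by
  have h1 : Lac' m = g3 i • LaB m i + (Lac' m + g3 i • LaB m i) := GX3_split rfl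
  conv_lhs => rw [h1]
  rw [map_add, GX3_Ψ_others hi, map_smul, ← GX3_vB m i, GX3_Ψ_vi hi le_rfl]

/-- GX3b. `c'` is a point, `p = c' + g_i f_i`. The strand `i` gets a new last vertex (`g_i f_new ≡ p`) and the new
last rim `f_i + f_new ≡ g_i⁻¹ c'`. `Φ (e (i+4) 0) = e i (m i)` if `m i ≥ 1` (nothing to do if `m i = 0`), everything
else fixed, `K' ∋ Lac' (inc m i)`; `Θ (e (i+4) 0) = (g3 i)⁻¹ • (Lac' m + g3 i • LaB m i)`,
`Θ (e i (m i)) = LaB m i`. -/
theorem GX3b {α : Type} {M : Matroid α} {a : Bool} {m : ℕ → ℕ} {i : ℕ} (hi : i < 3)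
    (h : IsCfg M (LaK a true m) (insert (Lac' m + g3 i • LaB m i) (LaC a true m))) :
    IsCfg M (LaK a false (inc m i)) (LaC a false (inc m i)) := by
  have hs := GX3_inc_same m i
  have hLac : Lac' (inc m i) ∈ LaK a false (inc m i) := subset_span (Or.inr ⟨rfl, rfl⟩)
  have hnew : GX3_v (inc m i) i (m i + 1) = e (i + 4) 0 := by
    rw [← hs, GX3_vB, GX3_LaB_same]
  -- the two new points
  have hp : GX3_Ψ m i (Lac' m + g3 i • LaB m i) + g3 i • GX3_v (inc m i) i (m i + 1) ∈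
      LaK a false (inc m i) := by
    rw [GX3_Ψ_others hi, hnew, add_comm, ← GX3_new hi]
    exact hLac
  have hr : GX3_Ψ m i (Lac' m) + g3 i • (GX3_v (inc m i) i (m i) + GX3_v (inc m i) i (m i + 1)) ∈
      LaK a false (inc m i) := by
    rw [GX3_Ψ_Lac' hi, hnew, smul_add]
    have h2 : g3 i • GX3_v (inc m i) i (m i) + (Lac' m + g3 i • LaB m i) +
        (g3 i • GX3_v (inc m i) i (m i) + g3 i • e (i + 4) 0) =
        (g3 i • GX3_v (inc m i) i (m i) + g3 i • GX3_v (inc m i) i (m i)) +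
        (g3 i • e (i + 4) 0 + (Lac' m + g3 i • LaB m i)) := by abel
    rw [h2, vadd_self, zero_add, ← GX3_new hi]
    exact hLac
  refine h.map (GX3_Ψ m i) (GX3_Ξ m i) ?_ ?_ ?_ ?_
  · intro k hk
    have h1 : LaK a true m ≤ (LaK a false (inc m i)).comap (GX3_Ψ m i) := by
      rw [LaK, span_le]
      rintro x (⟨h1, hx⟩ | ⟨h1, -⟩)
      · rw [mem_singleton_iff] at hx
        subst hx
        rw [SetLike.mem_coe, Submodule.mem_comap]
        rw [GX3_Ψ_Lac]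
        exact subset_span (Or.inl ⟨h1, rfl⟩)
      · exact absurd h1 (by decide)
    exact h1 hk
  · intro k hk
    have h1 : LaK a false (inc m i) ≤ (LaK a true m).comap (GX3_Ξ m i) := by
      rw [LaK, span_le]
      rintro x (⟨h1, hx⟩ | ⟨h1, hx⟩)
      · rw [mem_singleton_iff] at hx
        subst hx
        rw [SetLike.mem_coe, Submodule.mem_comap]
        rw [GX3_Ξ_Lac hi]
        exact subset_span (Or.inl ⟨h1, rfl⟩)
      · rw [mem_singleton_iff] at hx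
        subst hx
        rw [SetLike.mem_coe, Submodule.mem_comap]
        rw [GX3_Ξ_Lac' hi]
        exact Submodule.zero_mem _
    exact h1 hk
  · have key : ∀ x ∈ insert (Lac' m + g3 i • LaB m i) (LaC a true m),
        GX3_Ξ m i (GX3_Ψ m i x) = x := by
      have hv : ∀ j < 3, ∀ n ≤ m j, GX3_Ξ m i (GX3_Ψ m i (GX3_v m j n)) = GX3_v m j n := by
        intro j hj n hn
        by_cases hji : j = i
        · subst hji
          rw [GX3_Ψ_vi hi hn, GX3_Ξ_vi hn]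
        · rw [GX3_Ψ_v hj hji, GX3_Ξ_v hi hj hji]
      rintro x (rfl | hx)
      · rw [GX3_Ψ_others hi, GX3_Ξ_others hi]
      · rcases GX3_mem.1 hx with ⟨j, hj, n, hn, rfl⟩ | ⟨j, hj, n, hn, rfl⟩ | ⟨-, rfl⟩ | ⟨-, rfl⟩
        · exact hv j hj n hn
        · rw [map_add, map_add, hv j hj n hn.le, hv j hj (n + 1) hn]
        · rw [GX3_Ψ_Lac, GX3_Ξ_Lac hi]
        · rw [GX3_Ψ_Lac' hi, map_add, map_smul, GX3_Ξ_vi le_rfl, GX3_Ξ_others hi, GX3_vB]
          exact (GX3_split rfl).symm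
    intro x hx
    rw [key x hx, vadd_self]
    exact Submodule.zero_mem _
  · refine GX3_LnK ?_ ?_
    · rintro _ ⟨x, rfl | hx, rfl⟩
      · exact ⟨_, GX3_mem.2 (Or.inl ⟨i, hi, m i + 1, by omega, rfl⟩), g3 i, GX3_g0 i, hp⟩
      · rcases GX3_mem.1 hx with ⟨j, hj, n, hn, rfl⟩ | ⟨j, hj, n, hn, rfl⟩ | ⟨h1, rfl⟩ | ⟨-, rfl⟩
        · by_cases hji : j = i
          · subst hji
            refine ⟨_, GX3_mem.2 (Or.inl ⟨j, hj, n, by omega, rfl⟩), 1, one_ne_zero, ?_⟩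
            rw [GX3_Ψ_vi hi hn]
            exact GX3_one _
          · refine ⟨_, GX3_mem.2 (Or.inl ⟨j, hj, n, by rw [GX3_inc_ne m hji]; exact hn, rfl⟩), 1,
              one_ne_zero, ?_⟩
            rw [GX3_Ψ_v hj hji, GX3_v_ne m hji]
            exact GX3_one _
        · by_cases hji : j = i
          · subst hji
            refine ⟨_, GX3_mem.2 (Or.inr (Or.inl ⟨j, hj, n, by omega, rfl⟩)), 1,
              one_ne_zero, ?_⟩
            rw [map_add, GX3_Ψ_vi hi hn.le, GX3_Ψ_vi hi hn]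
            exact GX3_one _
          · refine ⟨_, GX3_mem.2 (Or.inr (Or.inl ⟨j, hj, n, by rw [GX3_inc_ne m hji]; exact hn,
              rfl⟩)), 1, one_ne_zero, ?_⟩
            rw [map_add, GX3_Ψ_v hj hji, GX3_Ψ_v hj hji, GX3_v_ne m hji, GX3_v_ne m hji]
            exact GX3_one _
        · refine ⟨_, GX3_mem.2 (Or.inr (Or.inr (Or.inl ⟨h1, rfl⟩))), 1, one_ne_zero, ?_⟩
          rw [GX3_Ψ_Lac]
          exact GX3_one _
        · exact ⟨_, GX3_mem.2 (Or.inr (Or.inl ⟨i, hi, m i, by omega, rfl⟩)), g3 i, GX3_g0 i, hr⟩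
    · intro c' hc'
      rcases GX3_mem.1 hc' with ⟨j, hj, n, hn, rfl⟩ | ⟨j, hj, n, hn, rfl⟩ | ⟨h1, rfl⟩ | ⟨h1, -⟩
      · by_cases hji : j = i
        · subst hji
          rcases Nat.lt_or_ge n (m j + 1) with h1 | h1
          · refine ⟨_, ⟨GX3_v m j n, mem_insert_of_mem _ (GX3_mem.2 (Or.inl ⟨j, hj, n, by omega,
              rfl⟩)), rfl⟩, 1, one_ne_zero, ?_⟩
            rw [GX3_Ψ_vi hi (by omega)]
            exact GX3_one _
          · have h2 : n = m j + 1 := by omega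
            subst h2
            exact ⟨_, ⟨_, mem_insert _ _, rfl⟩, g3 j, GX3_g0 j, hp⟩
        · rw [GX3_inc_ne m hji] at hn
          refine ⟨_, ⟨GX3_v m j n, mem_insert_of_mem _ (GX3_mem.2 (Or.inl ⟨j, hj, n, hn,
              rfl⟩)), rfl⟩, 1, one_ne_zero, ?_⟩
          rw [GX3_Ψ_v hj hji, GX3_v_ne m hji]
          exact GX3_one _
      · by_cases hji : j = i
        · subst hji
          rcases Nat.lt_or_ge n (m j) with h1 | h1
          · refine ⟨_, ⟨GX3_v m j n + GX3_v m j (n + 1), mem_insert_of_mem _ (GX3_mem.2 (Or.inr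
              (Or.inl ⟨j, hj, n, h1, rfl⟩))), rfl⟩, 1, one_ne_zero, ?_⟩
            rw [map_add, GX3_Ψ_vi hi (by omega), GX3_Ψ_vi hi (by omega)]
            exact GX3_one _
          · have h2 : n = m j := by omega
            subst h2
            exact ⟨_, ⟨Lac' m, mem_insert_of_mem _ (GX3_mem.2 (Or.inr (Or.inr (Or.inr ⟨rfl,
              rfl⟩)))), rfl⟩, g3 j, GX3_g0 j, hr⟩
        · rw [GX3_inc_ne m hji] at hn
          refine ⟨_, ⟨GX3_v m j n + GX3_v m j (n + 1), mem_insert_of_mem _ (GX3_mem.2 (Or.inr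
              (Or.inl ⟨j, hj, n, hn, rfl⟩))), rfl⟩, 1, one_ne_zero, ?_⟩
          rw [map_add, GX3_Ψ_v hj hji, GX3_Ψ_v hj hji, GX3_v_ne m hji, GX3_v_ne m hji]
          exact GX3_one _
      · refine ⟨_, ⟨Lac, mem_insert_of_mem _ (GX3_mem.2 (Or.inr (Or.inr (Or.inl ⟨h1,
              rfl⟩)))), rfl⟩, 1, one_ne_zero, ?_⟩
        rw [GX3_Ψ_Lac]
        exact GX3_one _
      · exact absurd h1 (by decide)

private theorem GX3_ok {m : ℕ → ℕ} (hm : LaOk m) (i : ℕ) : LaOk (inc m i) := by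
  intro j hj k hk h1 h2
  have h3 : ∀ l, inc m i l = 0 → m l = 0 := by
    intro l hl
    by_cases h : l = i
    · subst h
      rw [GX3_inc_same] at hl
      omega
    · rwa [GX3_inc_ne m h] at hl
  exact hm j hj k hk (h3 j h1) (h3 k h2)

/-- GX3. -/
theorem GX3 {α : Type} {M : Matroid α} {a b : Bool} {m : ℕ → ℕ} (hm : LaOk m) {p : VV}
    (hp : p ∈ LaP a b m) (hp0 : p ∉ LaK a b m) (hpC : p ∉ LnK (LaK a b m) (LaC a b m))
    (h : IsCfg M (LaK a b m) (insert p (LaC a b m))) : Fam M := by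
  rcases hp with ((hp | ⟨rfl, i, hi, rfl⟩) | ⟨rfl, i, hi, rfl⟩) | hp
  · exact absurd ⟨hp0, p, hp, 1, GX3_one p⟩ hpC
  · exact Fam.la false b (inc m i) (GX3_ok hm i) (GX3a hi h)
  · exact Fam.la a false (inc m i) (GX3_ok hm i) (GX3b hi h)
  · rw [mem_singleton_iff] at hp
    subst hp
    exact absurd (Submodule.zero_mem _) hp0

end QG
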