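import Pool.Agent.Lib.QG.GB2
import Pool.Agent.Lib.QG.GXd

/-! MP_2e6874_co, part (A), row GX4. One more vector for `De`. -/

set_option autoImplicit false

namespace QG
open Set Matroid Submodule

private theorem GX4_ext {K : Submodule F4 VV} {C C' : Set VV}
    (h : ∀ x ∈ C, ∃ y ∈ C', ∃ s : F4, x + s • y ∈ K)
    (h' : ∀ y ∈ C', ∃ x ∈ C, ∃ s : F4, y + s • x ∈ K) : LnK K C = LnK K C' := by
  have key : ∀ {A B : Set VV}, (∀ x ∈ A, ∃ y ∈ B, ∃ s : F4, x + s • y ∈ K) →
      LnK K A ⊆ LnK K B := by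
    rintro A B hAB y ⟨hy, c, hc, s, hs⟩
    obtain ⟨c', hc', t, ht⟩ := hAB c hc
    refine ⟨hy, c', hc', s * t, ?_⟩
    have h1 := K.add_mem hs (K.smul_mem s ht)
    have h2 : y + s • c + s • (c + t • c') = y + (s * t) • c' := by
      rw [smul_add, smul_smul, ← add_assoc, add_assoc y, vadd_self, add_zero]
    rwa [h2] at h1
  exact Subset.antisymm (key h) (key h')

private theorem GX4_ext' {K : Submodule F4 VV} {C C' : Set VV} (Φ : VV →ₗ[F4] VV)
    (h : ∀ x ∈ C, ∃ y ∈ C', ∃ s : F4, Φ x + s • y ∈ K)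
    (h' : ∀ y ∈ C', ∃ x ∈ C, ∃ s : F4, y + s • Φ x ∈ K) : LnK K (Φ '' C) = LnK K C' := by
  apply GX4_ext
  · rintro _ ⟨x, hx, rfl⟩
    exact h x hx
  · intro y hy
    obtain ⟨x, hx, s, hs⟩ := h' y hy
    exact ⟨Φ x, mem_image_of_mem _ hx, s, hs⟩

private theorem GX4_eq {K : Submodule F4 VV} {x y : VV} (h : x = y) : x + (1 : F4) • y ∈ K := by
  rw [one_smul, h, vadd_self]
  exact K.zero_mem

private noncomputable def GX4_map (f : ℕ × ℕ → VV) : VV →ₗ[F4] VV :=
  Finsupp.lift VV F4 (ℕ × ℕ) f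

private theorem GX4_map_e (f : ℕ × ℕ → VV) (j n : ℕ) : GX4_map f (e j n) = f (j, n) := by
  unfold GX4_map e
  rw [Finsupp.lift_apply, Finsupp.sum_single_index (h := fun x r => r • f x) (zero_smul F4 _),
    one_smul]

private theorem GX4_K (I : Finset ℕ) : DeK true I = ⊥ := by
  unfold DeK bs
  rw [Submodule.span_eq_bot]
  rintro x ⟨h, -⟩
  exact absurd h (by decide)

private theorem GX4_mK {I : Finset ℕ} {x : VV} (hx : x ∈ DeK false I) :
    ∃ s : F4, x = s • Dec I := by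
  have h1 : DeK false I ≤ span F4 {Dec I} := by
    unfold DeK bs
    exact Submodule.span_mono fun y hy => hy.2
  obtain ⟨s, hs⟩ := Submodule.mem_span_singleton.1 (h1 hx)
  exact ⟨s, hs.symm⟩

private theorem GX4_K' (I : Finset ℕ) : Dec I ∈ DeK false I :=
  Submodule.subset_span ⟨rfl, rfl⟩

private theorem GX4_dec_map {Φ : VV →ₗ[F4] VV} {I : Finset ℕ} {i : ℕ} (hi : i ∈ I)
    (h : ∀ j ∈ I, j ≠ i → Φ (e j 0) = e j 0) :
    Φ (Dec I) = Dec I + (e 0 0 + Φ (e 0 0)) + (e i 0 + Φ (e i 0)) := by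
  unfold Dec
  rw [map_add, map_sum, ← Finset.add_sum_erase I (fun j => Φ (e j 0)) hi,
    ← Finset.add_sum_erase I (fun j => e j 0) hi]
  have h1 : ∑ j ∈ I.erase i, Φ (e j 0) = ∑ j ∈ I.erase i, e j 0 := by
    apply Finset.sum_congr rfl
    intro j hj
    rw [Finset.mem_erase] at hj
    exact h j hj.2 hj.1
  rw [h1]
  have h2 := vadd_self (e 0 0)
  have h3 := vadd_self (e i 0)
  have h4 : e 0 0 + (e i 0 + ∑ j ∈ I.erase i, e j 0) + (e 0 0 + Φ (e 0 0)) + (e i 0 + Φ (e i 0)) =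
      (e 0 0 + e 0 0) + (e i 0 + e i 0) + (Φ (e 0 0) + (Φ (e i 0) + ∑ j ∈ I.erase i, e j 0)) := by
    abel
  rw [h4, h2, h3, add_zero, zero_add]

private theorem GX4_dec_fix {Φ : VV →ₗ[F4] VV} {I : Finset ℕ} (h0 : Φ (e 0 0) = e 0 0)
    (h : ∀ j ∈ I, Φ (e j 0) = e j 0) : Φ (Dec I) = Dec I := by
  unfold Dec
  rw [map_add, map_sum, h0]
  congr 1
  exact Finset.sum_congr rfl h

/-- the points of the legs -/
private theorem GX4_mem {g : F4} {a b : Bool} {I : Finset ℕ} {l : ℕ → ℕ} {x : VV} :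
    x ∈ DeC g a b I l ↔ (∃ i ∈ I, x = e i 0) ∨ (a = true ∧ x = e 0 0) ∨ (b = true ∧ x = Dec I) ∨
      (∃ i ∈ I, ∃ n, 0 < n ∧ n < l i ∧ x = e i n) ∨
      (∃ i ∈ I, ∃ n < l i, x = msu l (fun i => e i 0) (fun _ => g • e 0 0) i n +
        msu l (fun i => e i 0) (fun _ => g • e 0 0) i (n + 1)) := by
  unfold DeC MSC bs
  simp only [Set.mem_union, Set.mem_ofPred_eq, Set.mem_singleton_iff, or_assoc]

private theorem GX4_msu0 {l : ℕ → ℕ} {A B : ℕ → VV} {i : ℕ} : msu l A B i 0 = A i := if_pos rfl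

private theorem GX4_msuL {l : ℕ → ℕ} {A B : ℕ → VV} {i n : ℕ} (h0 : n ≠ 0) (h : n = l i) :
    msu l A B i n = B i := by
  unfold msu
  rw [if_neg h0, if_pos h]

private theorem GX4_msuM {l : ℕ → ℕ} {A B : ℕ → VV} {i n : ℕ} (h0 : n ≠ 0) (h : n ≠ l i) :
    msu l A B i n = e i n := by
  unfold msu
  rw [if_neg h0, if_neg h]

/-- GX4a. `p = c + z_i`: leg `i` gets the new first vertex `p` and the new first rim `c`:
`Φ (e i n) = e i (n+1)` (`n < l i`), everything else fixed; `Θ (e i 0) = Dec I + e i 0`,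
`Θ (e i (n+1)) = e i n`. -/
theorem GX4a {α : Type} {M : Matroid α} {g : F4} {a : Bool} {I : Finset ℕ} {l : ℕ → ℕ}
    (hOk : DeOk g I l) {i : ℕ} (hi : i ∈ I)
    (h : IsCfg M (DeK true I) (insert (Dec I + e i 0) (DeC g a true I l))) :
    IsCfg M (DeK false I) (DeC g a false I (inc l i)) := by
  have hi0 : i ≠ 0 := fun h => hOk.zero (h ▸ hi)
  have hli : 1 ≤ l i := hOk.pos i hi
  set Φ : VV →ₗ[F4] VV := GX4_map fun k => if k.1 = i then e i (k.2 + 1) else e k.1 k.2 with hΦ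
  set Θ : VV →ₗ[F4] VV := GX4_map fun k => if k.1 = i then
    (if k.2 = 0 then Dec I + e i 0 else e i (k.2 - 1)) else e k.1 k.2 with hΘ
  have Φi : ∀ n, Φ (e i n) = e i (n + 1) := by
    intro n
    rw [hΦ, GX4_map_e]
    exact if_pos rfl
  have Φj : ∀ j n, j ≠ i → Φ (e j n) = e j n := by
    intro j n hj
    rw [hΦ, GX4_map_e]
    exact if_neg hj
  have Θ0 : Θ (e i 0) = Dec I + e i 0 := by
    rw [hΘ, GX4_map_e]
    show (if i = i then (if 0 = 0 then Dec I + e i 0 else e i (0 - 1)) else e i 0) = _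
    rw [if_pos rfl, if_pos rfl]
  have Θi : ∀ n, Θ (e i (n + 1)) = e i n := by
    intro n
    rw [hΘ, GX4_map_e]
    show (if i = i then (if n + 1 = 0 then Dec I + e i 0 else e i (n + 1 - 1)) else e i (n + 1)) = _
    rw [if_pos rfl, if_neg (by omega), Nat.add_sub_cancel]
  have Θj : ∀ j n, j ≠ i → Θ (e j n) = e j n := by
    intro j n hj
    rw [hΘ, GX4_map_e]
    exact if_neg hj
  have hid : Θ ∘ₗ Φ = LinearMap.id := by
    refine Finsupp.lhom_ext fun k b => ?_
    have h1 : Finsupp.single k b = b • e k.1 k.2 := by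
      rw [e, Finsupp.smul_single, smul_eq_mul, mul_one]
    rw [h1, map_smul, map_smul]
    congr 1
    rw [LinearMap.comp_apply, LinearMap.id_apply]
    by_cases hk : k.1 = i
    · rw [hk, Φi, Θi]
    · rw [Φj _ _ hk, Θj _ _ hk]
  have Φt : Φ (e 0 0) = e 0 0 := Φj 0 0 hi0.symm
  have ΦD : Φ (Dec I) = Dec I + (e i 0 + e i 1) := by
    rw [GX4_dec_map hi (fun j _ hj => Φj j 0 hj), Φt, vadd_self, add_zero, Φi]
  have ΘD : Θ (Dec I) = 0 := by
    rw [GX4_dec_map hi (fun j _ hj => Θj j 0 hj), Θj 0 0 hi0.symm, vadd_self, add_zero, Θ0]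
    have h4 : Dec I + (e i 0 + (Dec I + e i 0)) = (Dec I + Dec I) + (e i 0 + e i 0) := by abel
    rw [h4, vadd_self, vadd_self, add_zero]
  have inci : inc l i i = l i + 1 := Function.update_self _ _ _
  have incj : ∀ j, j ≠ i → inc l i j = l j := fun j hj => Function.update_of_ne hj _ _
  -- the images of the vertices
  have Φm : ∀ n, n ≤ l i → Φ (msu l (fun i => e i 0) (fun _ => g • e 0 0) i n) =
      msu (inc l i) (fun i => e i 0) (fun _ => g • e 0 0) i (n + 1) := by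
    intro n hn
    by_cases h0 : n = 0
    · rw [h0, GX4_msu0, Φi, GX4_msuM (by omega) (by rw [inci]; omega)]
    · by_cases h1 : n = l i
      · rw [GX4_msuL h0 h1, GX4_msuL (by omega) (by rw [inci, h1]), map_smul, Φt]
      · rw [GX4_msuM h0 h1, GX4_msuM (by omega) (by rw [inci]; omega), Φi]
  have Φm' : ∀ j, j ≠ i → ∀ n, Φ (msu l (fun i => e i 0) (fun _ => g • e 0 0) j n) =
      msu (inc l i) (fun i => e i 0) (fun _ => g • e 0 0) j n := by
    intro j hj n
    by_cases h0 : n = 0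
    · rw [h0, GX4_msu0, GX4_msu0, Φj j 0 hj]
    · by_cases h1 : n = l j
      · rw [GX4_msuL h0 h1, GX4_msuL h0 (by rw [incj j hj, h1]), map_smul, Φt]
      · rw [GX4_msuM h0 h1, GX4_msuM h0 (by rw [incj j hj]; exact h1), Φj j n hj]
  refine IsCfg.map Φ Θ ?_ ?_ ?_ ?_ h
  · intro k hk
    rw [GX4_K, Submodule.mem_bot] at hk
    rw [hk, map_zero]
    exact Submodule.zero_mem _
  · intro k hk
    obtain ⟨s, rfl⟩ := GX4_mK hk
    rw [map_smul, ΘD, smul_zero]
    exact Submodule.zero_mem _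
  · intro x _
    have h1 := LinearMap.congr_fun hid x
    rw [LinearMap.comp_apply, LinearMap.id_apply] at h1
    rw [h1, vadd_self]
    exact Submodule.zero_mem _
  · apply GX4_ext'
    · intro x hx
      rcases hx with rfl | hx
      · -- `Dec I + e i 0 ↦ e i 0`
        refine ⟨e i 0, GX4_mem.2 (Or.inl ⟨i, hi, rfl⟩), 1, ?_⟩
        rw [map_add, ΦD, Φi, one_smul]
        have h4 : Dec I + (e i 0 + e i 1) + e i (0 + 1) + e i 0 =
            Dec I + (e i 0 + e i 0) + (e i 1 + e i 1) := by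
          rw [zero_add]
          abel
        rw [h4, vadd_self, vadd_self, add_zero, add_zero]
        exact GX4_K' I
      · rcases GX4_mem.1 hx with ⟨j, hj, rfl⟩ | ⟨ha, rfl⟩ | ⟨-, rfl⟩ | ⟨j, hj, n, hn, hnl, rfl⟩ |
          ⟨j, hj, n, hn, rfl⟩
        · by_cases hji : j = i
          · subst hji
            refine ⟨e j 1, GX4_mem.2 (Or.inr (Or.inr (Or.inr (Or.inl
              ⟨j, hj, 1, by omega, by rw [inci]; omega, rfl⟩)))), 1, ?_⟩
            exact GX4_eq (Φi 0)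
          · exact ⟨e j 0, GX4_mem.2 (Or.inl ⟨j, hj, rfl⟩), 1, GX4_eq (Φj j 0 hji)⟩
        · exact ⟨e 0 0, GX4_mem.2 (Or.inr (Or.inl ⟨ha, rfl⟩)), 1, GX4_eq Φt⟩
        · refine ⟨_, GX4_mem.2 (Or.inr (Or.inr (Or.inr (Or.inr
            ⟨i, hi, 0, by rw [inci]; omega, rfl⟩)))), 1, ?_⟩
          rw [GX4_msu0, GX4_msuM (by omega) (by rw [inci]; omega), ΦD, one_smul]
          have h4 : Dec I + (e i 0 + e i 1) + (e i 0 + e i (0 + 1)) =
              Dec I + (e i 0 + e i 0) + (e i 1 + e i 1) := by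
            rw [zero_add]
            abel
          rw [h4, vadd_self, vadd_self, add_zero, add_zero]
          exact GX4_K' I
        · by_cases hji : j = i
          · subst hji
            exact ⟨e j (n + 1), GX4_mem.2 (Or.inr (Or.inr (Or.inr (Or.inl
              ⟨j, hj, n + 1, by omega, by rw [inci]; omega, rfl⟩)))), 1, GX4_eq (Φi n)⟩
          · exact ⟨e j n, GX4_mem.2 (Or.inr (Or.inr (Or.inr (Or.inl
              ⟨j, hj, n, by omega, by rw [incj j hji]; omega, rfl⟩)))), 1, GX4_eq (Φj j n hji)⟩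
        · by_cases hji : j = i
          · subst hji
            refine ⟨_, GX4_mem.2 (Or.inr (Or.inr (Or.inr (Or.inr
              ⟨j, hj, n + 1, by rw [inci]; omega, rfl⟩)))), 1, GX4_eq ?_⟩
            rw [map_add, Φm n (by omega), Φm (n + 1) (by omega)]
          · refine ⟨_, GX4_mem.2 (Or.inr (Or.inr (Or.inr (Or.inr
              ⟨j, hj, n, by rw [incj j hji]; omega, rfl⟩)))), 1, GX4_eq ?_⟩
            rw [map_add, Φm' j hji, Φm' j hji]
    · intro y hy
      rcases GX4_mem.1 hy with ⟨j, hj, rfl⟩ | ⟨ha, rfl⟩ | ⟨hb, -⟩ | ⟨j, hj, n, hn, hnl, rfl⟩ |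
          ⟨j, hj, n, hn, rfl⟩
      · by_cases hji : j = i
        · subst hji
          refine ⟨Dec I + e j 0, Or.inl rfl, 1, ?_⟩
          rw [map_add, ΦD, Φi, one_smul]
          have h4 : e j 0 + (Dec I + (e j 0 + e j 1) + e j (0 + 1)) =
              Dec I + (e j 0 + e j 0) + (e j 1 + e j 1) := by
            rw [zero_add]
            abel
          rw [h4, vadd_self, vadd_self, add_zero, add_zero]
          exact GX4_K' I
        · exact ⟨e j 0, Or.inr (GX4_mem.2 (Or.inl ⟨j, hj, rfl⟩)), 1, GX4_eq (Φj j 0 hji).symm⟩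
      · exact ⟨e 0 0, Or.inr (GX4_mem.2 (Or.inr (Or.inl ⟨ha, rfl⟩))), 1, GX4_eq Φt.symm⟩
      · exact absurd hb (by decide)
      · by_cases hji : j = i
        · subst hji
          rw [inci] at hnl
          obtain ⟨k, rfl⟩ : ∃ k, n = k + 1 := ⟨n - 1, by omega⟩
          by_cases hk : k = 0
          · subst hk
            exact ⟨e j 0, Or.inr (GX4_mem.2 (Or.inl ⟨j, hj, rfl⟩)), 1, GX4_eq (Φi 0).symm⟩
          · exact ⟨e j k, Or.inr (GX4_mem.2 (Or.inr (Or.inr (Or.inr (Or.inl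
              ⟨j, hj, k, by omega, by omega, rfl⟩))))), 1, GX4_eq (Φi k).symm⟩
        · rw [incj j hji] at hnl
          exact ⟨e j n, Or.inr (GX4_mem.2 (Or.inr (Or.inr (Or.inr (Or.inl
              ⟨j, hj, n, hn, hnl, rfl⟩))))), 1, GX4_eq (Φj j n hji).symm⟩
      · by_cases hji : j = i
        · subst hji
          rw [inci] at hn
          by_cases hn0 : n = 0
          · subst hn0
            refine ⟨Dec I, Or.inr (GX4_mem.2 (Or.inr (Or.inr (Or.inl ⟨rfl, rfl⟩)))), 1, ?_⟩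
            rw [GX4_msu0, GX4_msuM (by omega) (by rw [inci]; omega), ΦD, one_smul]
            have h4 : e j 0 + e j (0 + 1) + (Dec I + (e j 0 + e j 1)) =
                Dec I + (e j 0 + e j 0) + (e j 1 + e j 1) := by
              rw [zero_add]
              abel
            rw [h4, vadd_self, vadd_self, add_zero, add_zero]
            exact GX4_K' I
          · obtain ⟨k, rfl⟩ : ∃ k, n = k + 1 := ⟨n - 1, by omega⟩
            refine ⟨_, Or.inr (GX4_mem.2 (Or.inr (Or.inr (Or.inr (Or.inr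
              ⟨j, hj, k, by omega, rfl⟩))))), 1, GX4_eq ?_⟩
            rw [map_add, Φm k (by omega), Φm (k + 1) (by omega)]
        · rw [incj j hji] at hn
          refine ⟨_, Or.inr (GX4_mem.2 (Or.inr (Or.inr (Or.inr (Or.inr
            ⟨j, hj, n, hn, rfl⟩))))), 1, GX4_eq ?_⟩
          rw [map_add, Φm' j hji, Φm' j hji]

/-- GX4b. `p = c + g t`: a new leg `j` with `l j = 1`: `z_j = c`, `z_j + g t = p` (`Φ` = identity,
`Dec (insert j I) = Dec I + e j 0`, `Θ (e j 0) = Dec I`). -/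
theorem GX4b {α : Type} {M : Matroid α} {g : F4} {a : Bool} {I : Finset ℕ} {l : ℕ → ℕ}
    (hOk : DeOk g I l) {j : ℕ} (hj : j ∉ I) (hj0 : j ≠ 0)
    (h : IsCfg M (DeK true I) (insert (Dec I + g • e 0 0) (DeC g a true I l))) :
    IsCfg M (DeK false (insert j I)) (DeC g a false (insert j I) (Function.update l j 1)) := by
  have hjI : ∀ k ∈ I, k ≠ j := fun k hk h => hj (h ▸ hk)
  have hD : Dec (insert j I) = Dec I + e j 0 := by
    unfold Dec
    rw [Finset.sum_insert hj, add_comm (e j 0), ← add_assoc]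
  set Θ : VV →ₗ[F4] VV := GX4_map fun k => if k.1 = j then Dec I else e k.1 k.2 with hΘ
  have Θj : ∀ n, Θ (e j n) = Dec I := by
    intro n
    rw [hΘ, GX4_map_e]
    exact if_pos rfl
  have Θk : ∀ k n, k ≠ j → Θ (e k n) = e k n := by
    intro k n hk
    rw [hΘ, GX4_map_e]
    exact if_neg hk
  have Θt : Θ (e 0 0) = e 0 0 := Θk 0 0 hj0.symm
  have ΘD : Θ (Dec I) = Dec I := GX4_dec_fix Θt fun k hk => Θk k 0 (hjI k hk)
  have Θm : ∀ k ∈ I, ∀ n, Θ (msu l (fun i => e i 0) (fun _ => g • e 0 0) k n) =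
      msu l (fun i => e i 0) (fun _ => g • e 0 0) k n := by
    intro k hk n
    by_cases h0 : n = 0
    · rw [h0, GX4_msu0, Θk k 0 (hjI k hk)]
    · by_cases h1 : n = l k
      · rw [GX4_msuL h0 h1, map_smul, Θt]
      · rw [GX4_msuM h0 h1, Θk k n (hjI k hk)]
  have hlj : Function.update l j 1 j = 1 := Function.update_self _ _ _
  have hlk : ∀ k ∈ I, Function.update l j 1 k = l k := fun k hk =>
    Function.update_of_ne (hjI k hk) _ _
  have hm : ∀ k ∈ I, ∀ n, msu (Function.update l j 1) (fun i => e i 0) (fun _ => g • e 0 0) k n =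
      msu l (fun i => e i 0) (fun _ => g • e 0 0) k n := by
    intro k hk n
    unfold msu
    rw [hlk k hk]
  have hDK : Dec I + e j 0 ∈ DeK false (insert j I) := by
    rw [← hD]
    exact GX4_K' _
  refine IsCfg.map LinearMap.id Θ ?_ ?_ ?_ ?_ h
  · intro k hk
    rw [GX4_K, Submodule.mem_bot] at hk
    rw [hk, map_zero]
    exact Submodule.zero_mem _
  · intro k hk
    obtain ⟨s, rfl⟩ := GX4_mK hk
    rw [map_smul, hD, map_add, ΘD, Θj, vadd_self, smul_zero]
    exact Submodule.zero_mem _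
  · intro x hx
    rw [LinearMap.id_apply]
    have h1 : Θ x = x := by
      rcases hx with rfl | hx
      · rw [map_add, ΘD, map_smul, Θt]
      · rcases GX4_mem.1 hx with ⟨k, hk, rfl⟩ | ⟨ha, rfl⟩ | ⟨-, rfl⟩ | ⟨k, hk, n, hn, hnl, rfl⟩ |
          ⟨k, hk, n, hn, rfl⟩
        · exact Θk k 0 (hjI k hk)
        · exact Θt
        · exact ΘD
        · exact Θk k n (hjI k hk)
        · rw [map_add, Θm k hk, Θm k hk]
    rw [h1, vadd_self]
    exact Submodule.zero_mem _
  · apply GX4_ext'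
    · intro x hx
      rw [LinearMap.id_apply]
      rcases hx with rfl | hx
      · refine ⟨_, GX4_mem.2 (Or.inr (Or.inr (Or.inr (Or.inr
          ⟨j, Finset.mem_insert_self _ _, 0, by rw [hlj]; omega, rfl⟩)))), 1, ?_⟩
        rw [GX4_msu0, GX4_msuL (by omega) (by rw [hlj]), one_smul]
        have h4 : Dec I + g • e 0 0 + (e j 0 + g • e 0 0) =
            Dec I + e j 0 + (g • e 0 0 + g • e 0 0) := by abel
        rw [h4, vadd_self, add_zero]
        exact hDK
      · rcases GX4_mem.1 hx with ⟨k, hk, rfl⟩ | ⟨ha, rfl⟩ | ⟨-, rfl⟩ | ⟨k, hk, n, hn, hnl, rfl⟩ |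
          ⟨k, hk, n, hn, rfl⟩
        · exact ⟨_, GX4_mem.2 (Or.inl ⟨k, Finset.mem_insert_of_mem hk, rfl⟩), 1, GX4_eq rfl⟩
        · exact ⟨_, GX4_mem.2 (Or.inr (Or.inl ⟨ha, rfl⟩)), 1, GX4_eq rfl⟩
        · refine ⟨e j 0, GX4_mem.2 (Or.inl ⟨j, Finset.mem_insert_self _ _, rfl⟩), 1, ?_⟩
          rw [one_smul]
          exact hDK
        · exact ⟨_, GX4_mem.2 (Or.inr (Or.inr (Or.inr (Or.inl
            ⟨k, Finset.mem_insert_of_mem hk, n, hn, by rw [hlk k hk]; exact hnl, rfl⟩)))), 1,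
            GX4_eq rfl⟩
        · refine ⟨_, GX4_mem.2 (Or.inr (Or.inr (Or.inr (Or.inr
            ⟨k, Finset.mem_insert_of_mem hk, n, by rw [hlk k hk]; exact hn, rfl⟩)))), 1,
            GX4_eq ?_⟩
          rw [hm k hk, hm k hk]
    · intro y hy
      rcases GX4_mem.1 hy with ⟨k, hk, rfl⟩ | ⟨ha, rfl⟩ | ⟨hb, -⟩ | ⟨k, hk, n, hn, hnl, rfl⟩ |
          ⟨k, hk, n, hn, rfl⟩
      · rcases Finset.mem_insert.1 hk with rfl | hk
        · refine ⟨Dec I, Or.inr (GX4_mem.2 (Or.inr (Or.inr (Or.inl ⟨rfl, rfl⟩)))), 1, ?_⟩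
          rw [one_smul, LinearMap.id_apply, add_comm]
          exact hDK
        · exact ⟨e k 0, Or.inr (GX4_mem.2 (Or.inl ⟨k, hk, rfl⟩)), 1, GX4_eq rfl⟩
      · exact ⟨e 0 0, Or.inr (GX4_mem.2 (Or.inr (Or.inl ⟨ha, rfl⟩))), 1, GX4_eq rfl⟩
      · exact absurd hb (by decide)
      · rcases Finset.mem_insert.1 hk with rfl | hk
        · rw [hlj] at hnl
          omega
        · rw [hlk k hk] at hnl
          exact ⟨e k n, Or.inr (GX4_mem.2 (Or.inr (Or.inr (Or.inr (Or.inl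
            ⟨k, hk, n, hn, hnl, rfl⟩))))), 1, GX4_eq rfl⟩
      · rcases Finset.mem_insert.1 hk with rfl | hk
        · rw [hlj] at hn
          obtain rfl : n = 0 := by omega
          refine ⟨Dec I + g • e 0 0, Or.inl rfl, 1, ?_⟩
          rw [GX4_msu0, GX4_msuL (by omega) (by rw [hlj]), one_smul, LinearMap.id_apply]
          have h4 : e k 0 + g • e 0 0 + (Dec I + g • e 0 0) =
              Dec I + e k 0 + (g • e 0 0 + g • e 0 0) := by abel
          rw [h4, vadd_self, add_zero]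
          exact hDK
        · rw [hlk k hk] at hn
          refine ⟨_, Or.inr (GX4_mem.2 (Or.inr (Or.inr (Or.inr (Or.inr
            ⟨k, hk, n, hn, rfl⟩))))), 1, GX4_eq ?_⟩
          rw [LinearMap.id_apply, hm k hk, hm k hk]

/-- GX4c. `l i = 1`: exchange of `z_i` and `r_i = z_i + g t` (gain `g²`): `Φ (e 0 0) = g • e 0 0`,
`Φ (e i 0) = e i 0 + g² • e 0 0`, everything else fixed: `r_i ↦ e i 0`, `z_i ↦ e i 0 + g² t`,
`Dec I ↦ Dec I` (`g + g² = 1`), `u + g t ↦ u + g² t`. `Θ (e 0 0) = g² • e 0 0`, `Θ (e i 0) = e i 0 + g • e 0 0`. -/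
theorem GX4c {α : Type} {M : Matroid α} {g : F4} {a : Bool} {I : Finset ℕ} {l : ℕ → ℕ}
    (hOk : DeOk g I l) {i : ℕ} (hi : i ∈ I) (hl : l i = 1)
    (h : IsCfg M (DeK true I) (insert (Dec I + e i 0 + g • e 0 0) (DeC g a true I l))) :
    IsCfg M (DeK true I) (insert (Dec I + e i 0) (DeC (g * g) a true I l)) := by
  have hi0 : i ≠ 0 := fun h => hOk.zero (h ▸ hi)
  have hg3 : g * (g * g) = 1 := by
    rcases hOk.g_ne with rfl | rfl <;> decide
  have hg4 : (g * g) * (g * g) = g := by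
    rcases hOk.g_ne with rfl | rfl <;> decide
  have hg5 : 1 + g + g * g = 0 := by
    rcases hOk.g_ne with rfl | rfl <;> decide
  set Φ : VV →ₗ[F4] VV := GX4_map fun k => if k = (0, 0) then g • e 0 0 else
    if k = (i, 0) then e i 0 + (g * g) • e 0 0 else e k.1 k.2 with hΦ
  set Θ : VV →ₗ[F4] VV := GX4_map fun k => if k = (0, 0) then (g * g) • e 0 0 else
    if k = (i, 0) then e i 0 + g • e 0 0 else e k.1 k.2 with hΘ
  have Φt : Φ (e 0 0) = g • e 0 0 := by
    rw [hΦ, GX4_map_e]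
    exact if_pos rfl
  have Φi : Φ (e i 0) = e i 0 + (g * g) • e 0 0 := by
    rw [hΦ, GX4_map_e]
    show (if (i, 0) = (0, 0) then g • e 0 0 else
      if (i, 0) = (i, 0) then e i 0 + (g * g) • e 0 0 else e i 0) = _
    rw [if_neg (by rw [Prod.mk.injEq]; exact fun h => hi0 h.1), if_pos rfl]
  have Φj : ∀ j n, (j, n) ≠ (0, 0) → (j, n) ≠ (i, 0) → Φ (e j n) = e j n := by
    intro j n h1 h2
    rw [hΦ, GX4_map_e]
    show (if (j, n) = (0, 0) then g • e 0 0 else
      if (j, n) = (i, 0) then e i 0 + (g * g) • e 0 0 else e j n) = _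
    rw [if_neg h1, if_neg h2]
  have Θt : Θ (e 0 0) = (g * g) • e 0 0 := by
    rw [hΘ, GX4_map_e]
    exact if_pos rfl
  have Θi : Θ (e i 0) = e i 0 + g • e 0 0 := by
    rw [hΘ, GX4_map_e]
    show (if (i, 0) = (0, 0) then (g * g) • e 0 0 else
      if (i, 0) = (i, 0) then e i 0 + g • e 0 0 else e i 0) = _
    rw [if_neg (by rw [Prod.mk.injEq]; exact fun h => hi0 h.1), if_pos rfl]
  have Θj : ∀ j n, (j, n) ≠ (0, 0) → (j, n) ≠ (i, 0) → Θ (e j n) = e j n := by
    intro j n h1 h2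
    rw [hΘ, GX4_map_e]
    show (if (j, n) = (0, 0) then (g * g) • e 0 0 else
      if (j, n) = (i, 0) then e i 0 + g • e 0 0 else e j n) = _
    rw [if_neg h1, if_neg h2]
  have hid : Θ ∘ₗ Φ = LinearMap.id := by
    refine Finsupp.lhom_ext fun k b => ?_
    have h1 : Finsupp.single k b = b • e k.1 k.2 := by
      rw [e, Finsupp.smul_single, smul_eq_mul, mul_one]
    rw [h1, map_smul, map_smul]
    congr 1
    rw [LinearMap.comp_apply, LinearMap.id_apply]
    by_cases hk : k = (0, 0)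
    · rw [hk, Φt, map_smul, Θt, smul_smul, hg3, one_smul]
    · by_cases hk' : k = (i, 0)
      · rw [hk', Φi, map_add, map_smul, Θi, Θt, smul_smul, hg4, add_assoc, vadd_self, add_zero]
      · rw [Φj _ _ hk hk', Θj _ _ hk hk']
  have hne0 : ∀ j ∈ I, ∀ n, (j, n) ≠ (0, 0) := by
    intro j hj n h1
    rw [Prod.mk.injEq] at h1
    exact hOk.zero (h1.1 ▸ hj)
  have hnei : ∀ j n, j ≠ i → (j, n) ≠ (i, 0) := by
    intro j n hj h1
    rw [Prod.mk.injEq] at h1
    exact hj h1.1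
  have ΦD : Φ (Dec I) = Dec I := by
    rw [GX4_dec_map hi (fun j hj hji => Φj j 0 (hne0 j hj 0) (hnei j 0 hji)), Φt, Φi]
    have h4 : Dec I + (e 0 0 + g • e 0 0) + (e i 0 + (e i 0 + (g * g) • e 0 0)) =
        Dec I + (e i 0 + e i 0) + (1 + g + g * g) • e 0 0 := by
      rw [add_smul, add_smul, one_smul]
      abel
    rw [h4, hg5, vadd_self, zero_smul, add_zero, add_zero]
  have Φm : ∀ j ∈ I, j ≠ i → ∀ n, Φ (msu l (fun i => e i 0) (fun _ => g • e 0 0) j n) =
      msu l (fun i => e i 0) (fun _ => (g * g) • e 0 0) j n := by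
    intro j hj hji n
    by_cases h0 : n = 0
    · rw [h0, GX4_msu0, GX4_msu0, Φj j 0 (hne0 j hj 0) (hnei j 0 hji)]
    · by_cases h1 : n = l j
      · rw [GX4_msuL h0 h1, GX4_msuL h0 h1, map_smul, Φt, smul_smul]
      · rw [GX4_msuM h0 h1, GX4_msuM h0 h1, Φj j n (hne0 j hj n) (hnei j n hji)]
  have r1 : ∀ x : F4, msu l (fun i => e i 0) (fun _ => x • e 0 0) i 0 +
      msu l (fun i => e i 0) (fun _ => x • e 0 0) i (0 + 1) = e i 0 + x • e 0 0 := by
    intro x
    rw [GX4_msu0, GX4_msuL (by omega) (by rw [hl])]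
  have r2 : Φ (e i 0 + g • e 0 0) = e i 0 := by
    rw [map_add, map_smul, Φi, Φt, smul_smul, add_assoc, vadd_self, add_zero]
  have h00 : (0 : VV) ∈ (DeK true I) := Submodule.zero_mem _
  refine IsCfg.map Φ Θ ?_ ?_ ?_ ?_ h
  · intro k hk
    rw [GX4_K, Submodule.mem_bot] at hk
    rw [hk, map_zero]
    exact Submodule.zero_mem _
  · intro k hk
    rw [GX4_K, Submodule.mem_bot] at hk
    rw [hk, map_zero]
    exact Submodule.zero_mem _
  · intro x _
    have h1 := LinearMap.congr_fun hid x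
    rw [LinearMap.comp_apply, LinearMap.id_apply] at h1
    rw [h1, vadd_self]
    exact Submodule.zero_mem _
  · apply GX4_ext'
    · intro x hx
      rcases hx with rfl | hx
      · refine ⟨Dec I + e i 0, Or.inl rfl, 1, GX4_eq ?_⟩
        rw [add_assoc, map_add, ΦD, r2]
      · rcases GX4_mem.1 hx with ⟨j, hj, rfl⟩ | ⟨ha, rfl⟩ | ⟨-, rfl⟩ | ⟨j, hj, n, hn, hnl, rfl⟩ |
          ⟨j, hj, n, hn, rfl⟩
        · by_cases hji : j = i
          · subst hji
            refine ⟨_, Or.inr (GX4_mem.2 (Or.inr (Or.inr (Or.inr (Or.inr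
              ⟨j, hj, 0, by omega, rfl⟩))))), 1, GX4_eq ?_⟩
            rw [r1, Φi]
          · exact ⟨e j 0, Or.inr (GX4_mem.2 (Or.inl ⟨j, hj, rfl⟩)), 1,
              GX4_eq (Φj j 0 (hne0 j hj 0) (hnei j 0 hji))⟩
        · refine ⟨e 0 0, Or.inr (GX4_mem.2 (Or.inr (Or.inl ⟨ha, rfl⟩))), g, ?_⟩
          rw [Φt, vadd_self]
          exact h00
        · exact ⟨Dec I, Or.inr (GX4_mem.2 (Or.inr (Or.inr (Or.inl ⟨rfl, rfl⟩)))), 1, GX4_eq ΦD⟩
        · have hn0 : (j, n) ≠ (i, 0) := by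
            intro h1
            rw [Prod.mk.injEq] at h1
            omega
          exact ⟨e j n, Or.inr (GX4_mem.2 (Or.inr (Or.inr (Or.inr (Or.inl
            ⟨j, hj, n, hn, hnl, rfl⟩))))), 1, GX4_eq (Φj j n (hne0 j hj n) hn0)⟩
        · by_cases hji : j = i
          · subst hji
            obtain rfl : n = 0 := by omega
            refine ⟨e j 0, Or.inr (GX4_mem.2 (Or.inl ⟨j, hj, rfl⟩)), 1, GX4_eq ?_⟩
            rw [r1, r2]
          · refine ⟨_, Or.inr (GX4_mem.2 (Or.inr (Or.inr (Or.inr (Or.inr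
              ⟨j, hj, n, hn, rfl⟩))))), 1, GX4_eq ?_⟩
            rw [map_add, Φm j hj hji, Φm j hj hji]
    · intro y hy
      rcases hy with rfl | hy
      · refine ⟨Dec I + e i 0 + g • e 0 0, Or.inl rfl, 1, GX4_eq ?_⟩
        rw [add_assoc, map_add, ΦD, r2]
      · rcases GX4_mem.1 hy with ⟨j, hj, rfl⟩ | ⟨ha, rfl⟩ | ⟨-, rfl⟩ | ⟨j, hj, n, hn, hnl, rfl⟩ |
          ⟨j, hj, n, hn, rfl⟩
        · by_cases hji : j = i
          · subst hji
            refine ⟨_, Or.inr (GX4_mem.2 (Or.inr (Or.inr (Or.inr (Or.inr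
              ⟨j, hj, 0, by omega, rfl⟩))))), 1, GX4_eq ?_⟩
            rw [r1, r2]
          · exact ⟨e j 0, Or.inr (GX4_mem.2 (Or.inl ⟨j, hj, rfl⟩)), 1,
              GX4_eq (Φj j 0 (hne0 j hj 0) (hnei j 0 hji)).symm⟩
        · refine ⟨e 0 0, Or.inr (GX4_mem.2 (Or.inr (Or.inl ⟨ha, rfl⟩))), g * g, ?_⟩
          rw [Φt, smul_smul, mul_comm, hg3, one_smul, vadd_self]
          exact h00
        · exact ⟨Dec I, Or.inr (GX4_mem.2 (Or.inr (Or.inr (Or.inl ⟨rfl, rfl⟩)))), 1,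
            GX4_eq ΦD.symm⟩
        · have hn0 : (j, n) ≠ (i, 0) := by
            intro h1
            rw [Prod.mk.injEq] at h1
            omega
          exact ⟨e j n, Or.inr (GX4_mem.2 (Or.inr (Or.inr (Or.inr (Or.inl
            ⟨j, hj, n, hn, hnl, rfl⟩))))), 1, GX4_eq (Φj j n (hne0 j hj n) hn0).symm⟩
        · by_cases hji : j = i
          · subst hji
            obtain rfl : n = 0 := by omega
            refine ⟨e j 0, Or.inr (GX4_mem.2 (Or.inl ⟨j, hj, rfl⟩)), 1, GX4_eq ?_⟩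
            rw [r1, Φi]
          · refine ⟨_, Or.inr (GX4_mem.2 (Or.inr (Or.inr (Or.inr (Or.inr
              ⟨j, hj, n, hn, rfl⟩))))), 1, GX4_eq ?_⟩
            rw [map_add, Φm j hj hji, Φm j hj hji]

private theorem GX4_inc {g : F4} {I : Finset ℕ} {l : ℕ → ℕ} (hOk : DeOk g I l) (i : ℕ) :
    DeOk g I (inc l i) := by
  have h : ∀ j, l j ≤ inc l i j := by
    intro j
    unfold inc
    by_cases hj : j = i
    · subst hj
      rw [Function.update_self]
      omega
    · rw [Function.update_of_ne hj]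
  exact ⟨hOk.g_ne, hOk.zero, hOk.two, fun j hj => (hOk.pos j hj).trans (h j),
    fun hc j hj => (hOk.big hc j hj).trans (h j)⟩

/-- GX4. (`t` if `a = false`: `insert (e 0 0) (DeC g false b I l) = DeC g true b I l`.) -/
theorem GX4 {α : Type} {M : Matroid α} {g : F4} {a b : Bool} {I : Finset ℕ} {l : ℕ → ℕ}
    (hOk : DeOk g I l) {p : VV} (hp : p ∈ DeP g a b I l) (hp0 : p ∉ DeK b I)
    (hpC : p ∉ LnK (DeK b I) (DeC g a b I l))
    (h : IsCfg M (DeK b I) (insert p (DeC g a b I l))) : Fam M := by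
  have hC : p ∉ DeC g a b I l := by
    intro hp1
    exact hpC ⟨hp0, p, hp1, 1, GX4_eq rfl⟩
  unfold DeP at hp
  rcases hp with (hp | hp | hp) | ⟨hb, (⟨i, hi, hp⟩ | hp) | ⟨i, hi, hl, hp⟩⟩
  · exact absurd hp hC
  · -- `t`
    have ha : a = false := by
      cases a
      · rfl
      · exact absurd (GX4_mem.2 (Or.inr (Or.inl ⟨rfl, hp⟩))) hC
    subst ha
    have h1 : insert p (DeC g false b I l) = DeC g true b I l := by
      ext x
      constructor
      · rintro (rfl | hx)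
        · exact GX4_mem.2 (Or.inr (Or.inl ⟨rfl, hp⟩))
        · rcases GX4_mem.1 hx with h2 | ⟨h2, -⟩ | h2
          · exact GX4_mem.2 (Or.inl h2)
          · exact absurd h2 (by decide)
          · exact GX4_mem.2 (Or.inr (Or.inr h2))
      · intro hx
        rcases GX4_mem.1 hx with h2 | ⟨-, h2⟩ | h2
        · exact Or.inr (GX4_mem.2 (Or.inl h2))
        · exact Or.inl (h2.trans hp.symm)
        · exact Or.inr (GX4_mem.2 (Or.inr (Or.inr h2)))
    rw [h1] at h
    exact Fam.de g true b I l hOk h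
  · have hp' : p = 0 := hp
    rw [hp'] at hp0
    exact absurd (Submodule.zero_mem _) hp0
  · subst hb
    rw [hp] at h
    exact Fam.de g a false I (inc l i) (GX4_inc hOk i) (GX4a hOk hi h)
  · subst hb
    have hp' : p = Dec I + g • e 0 0 := hp
    rw [hp'] at h
    obtain ⟨j, hj⟩ := Infinite.exists_notMem_finset (insert 0 I)
    rw [Finset.mem_insert, not_or] at hj
    have h1 := GX4b hOk hj.2 hj.1 h
    refine Fam.de g a false _ _ ⟨hOk.g_ne, ?_, ?_, ?_, ?_⟩ h1
    · rw [Finset.mem_insert, not_or]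
      exact ⟨fun h2 => hj.1 h2.symm, hOk.zero⟩
    · rw [Finset.card_insert_of_notMem hj.2]
      have := hOk.two
      omega
    · intro i hi
      rcases Finset.mem_insert.1 hi with rfl | hi
      · rw [Function.update_self]
      · rw [Function.update_of_ne (fun h2 : i = j => hj.2 (h2 ▸ hi))]
        exact hOk.pos i hi
    · intro hc
      rw [Finset.card_insert_of_notMem hj.2] at hc
      have := hOk.two
      omega
  · subst hb
    rw [hp] at h
    have h1 := GX4c hOk hi hl h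
    have hOk' : DeOk (g * g) I l := by
      refine ⟨?_, hOk.zero, hOk.two, hOk.pos, hOk.big⟩
      rcases hOk.g_ne with rfl | rfl
      · exact Or.inr (by decide)
      · exact Or.inl (by decide)
    exact Fam.de (g * g) a false I (inc l i) (GX4_inc hOk' i) (GX4a hOk' hi h1)

end QG
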