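import Pool.Agent.Lib.QG.GB2
import Pool.Agent.Lib.QG.GF1
import Pool.Agent.Lib.QG.GX1

/-! MP_2e6874_co, part (A), row GX5. One more vector for the whirl. -/

set_option autoImplicit false

namespace QG
open Set Matroid Submodule

/-- lengths for `s_i + ω s_j` -/
def lenS (r i j : ℕ) : ℕ → ℕ := fun k => if k = 0 then j - i else if k = 1 then 1 else r - (j - i)

/-- lengths for `r_i + ω r_j` -/
def lenR (r i j : ℕ) : ℕ → ℕ := fun k => if k = 0 then 1 else if k = 1 then j - i - 1 else r - (j - i) - 1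

private def GX5_Rel (K : Submodule F4 VV) (A C : Set VV) : Prop :=
  ∀ x ∈ A, ∃ c ∈ C, ∃ s : F4, x + s • c ∈ K

private theorem GX5_LnK {K : Submodule F4 VV} {A C : Set VV} (h : GX5_Rel K A C) :
    LnK K A ⊆ LnK K C := by
  rintro y ⟨hy, c, hc, s, hs⟩
  obtain ⟨c', hc', t, ht⟩ := h c hc
  refine ⟨hy, c', hc', s * t, ?_⟩
  have h1 := add_mem hs (K.smul_mem s ht)
  have h2 : y + s • c + s • (c + t • c') = y + (s * t) • c' := by
    rw [smul_add, mul_smul]
    have h3 := vadd_self (s • c)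
    calc y + s • c + (s • c + s • t • c') = y + (s • c + s • c) + s • t • c' := by abel
      _ = y + s • t • c' := by rw [h3, add_zero]
  rwa [h2] at h1

/-- a linear map given on the coordinate vectors -/
private noncomputable def GX5_lin (φ : ℕ → ℕ → VV) : VV →ₗ[F4] VV :=
  Finsupp.linearCombination F4 fun k : ℕ × ℕ => φ k.1 k.2

private theorem GX5_lin_e (φ : ℕ → ℕ → VV) (i n : ℕ) : GX5_lin φ (e i n) = φ i n := by
  unfold GX5_lin e
  rw [Finsupp.linearCombination_single, one_smul]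

private theorem GX5_Whr_lt {r n : ℕ} (hn : n + 1 < r) : Whr r n = e 0 n + e 0 (n + 1) := by
  unfold Whr
  rw [if_neg (by omega)]

private theorem GX5_Whr_last {r n : ℕ} (hn : n + 1 = r) : Whr r n = e 0 n + F4.w • e 0 0 := by
  unfold Whr
  rw [if_pos hn]

private theorem GX5_wv (x : VV) : F4.w • F4.v • x = x := by
  rw [smul_smul, show F4.w * F4.v = 1 by decide, one_smul]

private theorem GX5_vw (x : VV) : F4.v • F4.w • x = x := by
  rw [smul_smul, show F4.v * F4.w = 1 by decide, one_smul]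

/-- the image of the points of the whirl under `Φ`, `Φ (e 0 n) = φ n` -/
private theorem GX5_hid {r : ℕ} (hr : 2 ≤ r) (Φ Θ : VV →ₗ[F4] VV)
    (h : ∀ n < r, Θ (Φ (e 0 n)) = e 0 n) : ∀ x ∈ span F4 (WhC r), x + Θ (Φ x) = 0 := by
  have h1 : ∀ x ∈ span F4 (WhC r), Θ (Φ x) = x := by
    intro x hx
    induction hx using Submodule.span_induction with
    | mem x hx =>
      rcases (GF1 hr x).1 hx with ⟨n, hn, rfl⟩ | ⟨n, hn, rfl⟩
      · exact h n hn
      · rcases Nat.lt_or_ge (n + 1) r with h2 | h2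
        · rw [GX5_Whr_lt h2, map_add, map_add, h n hn, h (n + 1) h2]
        · rw [GX5_Whr_last (by omega), map_add, map_add, map_smul, map_smul, h n hn,
            h 0 (by omega)]
    | zero => rw [map_zero, map_zero]
    | add x y _ _ hx hy => rw [map_add, map_add, hx, hy]
    | smul s x _ hx => rw [map_smul, map_smul, hx]
  intro x hx
  rw [h1 x hx, vadd_self]

/-- GX5a. -/
theorem GX5a {α : Type} {M : Matroid α} {r i j : ℕ} (hr : 4 ≤ r) (hij : i < j) (hj : j < r)
    (h : IsCfg M ⊥ (insert (e 0 i + F4.w • e 0 j) (WhC r))) :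
    IsCfg M ⊥ (ThC true true (lenS r i j)) := by
  have hr2 : 2 ≤ r := by omega
  set m := lenS r i j with hm
  have m0 : m 0 = j - i := rfl
  have m1 : m 1 = 1 := rfl
  have m2 : m 2 = r - (j - i) := rfl
  -- the vertices of the strands
  set V : ℕ → ℕ → VV := fun k n => msu m (fun _ => e 3 0) (fun i => g3 i • e 3 1) k n with hV
  have V00 : ∀ k, V k 0 = e 3 0 := fun k => by
    show msu _ _ _ _ _ = _
    rw [msu, if_pos rfl]
  have Vin : ∀ k n, 0 < n → n < m k → V k n = e k n := fun k n h1 h2 => by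
    show msu _ _ _ _ _ = _
    rw [msu, if_neg (by omega), if_neg (by omega)]
  have Vend : ∀ k, 0 < m k → V k (m k) = g3 k • e 3 1 := fun k h1 => by
    show msu _ _ _ _ _ = _
    rw [msu, if_neg (by omega), if_pos rfl]
  have g30 : g3 0 = 1 := rfl
  have g31 : g3 1 = F4.w := rfl
  have g32 : g3 2 = F4.v := rfl
  -- the map
  set φ : ℕ → VV := fun n => if n ≤ i then V 2 (i - n) else if n ≤ j then V 0 (n - i) else
    F4.w • V 2 (i + r - n) with hφ
  have φ1 : ∀ n, n ≤ i → φ n = V 2 (i - n) := fun n hn => if_pos hn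
  have φ2 : ∀ n, i ≤ n → n ≤ j → φ n = V 0 (n - i) := fun n hn hn' => by
    rcases eq_or_lt_of_le hn with rfl | h1
    · rw [φ1 _ le_rfl, Nat.sub_self, V00, V00]
    · show (if _ then _ else _) = _
      rw [if_neg (by omega), if_pos hn']
  have φ3 : ∀ n, j ≤ n → n < r → φ n = F4.w • V 2 (i + r - n) := fun n hn hn' => by
    rcases eq_or_lt_of_le hn with h1 | h1
    · rw [φ2 n (by omega) (by omega), ← h1, ← m0, Vend 0 (by omega),
        show i + r - j = m 2 by omega, Vend 2 (by omega), g30, g32, GX5_wv, one_smul]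
    · show (if _ then _ else _) = _
      rw [if_neg (by omega), if_neg (by omega)]
  set Φ : VV →ₗ[F4] VV := GX5_lin (fun a n => if a = 0 then φ n else 0) with hΦ
  have Φe : ∀ n, Φ (e 0 n) = φ n := fun n => by
    rw [hΦ, GX5_lin_e, if_pos rfl]
  set Θ : VV →ₗ[F4] VV := GX5_lin (fun a n => if a = 0 then e 0 (i + n) else
    if a = 2 then (if n ≤ i then e 0 (i - n) else F4.v • e 0 (i + r - n)) else
      if n = 0 then e 0 i else e 0 j) with hΘ
  have Θ0 : ∀ n, Θ (e 0 n) = e 0 (i + n) := fun n => by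
    rw [hΘ, GX5_lin_e, if_pos rfl]
  have Θ2 : ∀ n, n ≤ i → Θ (e 2 n) = e 0 (i - n) := fun n hn => by
    rw [hΘ, GX5_lin_e, if_neg (by decide), if_pos rfl, if_pos hn]
  have Θ2' : ∀ n, i < n → Θ (e 2 n) = F4.v • e 0 (i + r - n) := fun n hn => by
    rw [hΘ, GX5_lin_e, if_neg (by decide), if_pos rfl, if_neg (by omega)]
  have Θ3 : Θ (e 3 0) = e 0 i := by
    rw [hΘ, GX5_lin_e, if_neg (by decide), if_neg (by decide), if_pos rfl]
  have Θ3' : Θ (e 3 1) = e 0 j := by
    rw [hΘ, GX5_lin_e, if_neg (by decide), if_neg (by decide), if_neg (by decide)]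
  have hΘΦ : ∀ n < r, Θ (Φ (e 0 n)) = e 0 n := by
    intro n hn
    rw [Φe]
    rcases Nat.lt_trichotomy n i with h1 | rfl | h1
    · rw [φ1 n h1.le, Vin 2 _ (by omega) (by omega), Θ2 _ (by omega)]
      congr 1
      omega
    · rw [φ1 n le_rfl, Nat.sub_self, V00, Θ3]
    · rcases Nat.lt_trichotomy n j with h2 | rfl | h2
      · rw [φ2 n h1.le h2.le, Vin 0 _ (by omega) (by omega), Θ0]
        congr 1
        omega
      · rw [φ2 n h1.le le_rfl, ← m0, Vend 0 (by omega), map_smul, Θ3', g30, one_smul]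
      · rw [φ3 n h2.le hn, Vin 2 _ (by omega) (by omega), map_smul, Θ2' _ (by omega), GX5_wv]
        congr 1
        omega
  have hp : Φ (e 0 i + F4.w • e 0 j) = e 3 0 + F4.w • e 3 1 := by
    rw [map_add, map_smul, Φe, Φe, φ1 i le_rfl, φ2 j hij.le le_rfl, Nat.sub_self, V00, ← m0,
      Vend 0 (by omega), g30, one_smul]
  have rim1 : V 1 0 + V 1 (0 + 1) = e 3 0 + F4.w • e 3 1 := by
    rw [V00, show (0 + 1 : ℕ) = m 1 from rfl, Vend 1 (by omega), g31]
  -- the rims
  have R1 : ∀ n < i, Φ (Whr r n) = V 2 (i - n - 1) + V 2 (i - n - 1 + 1) := by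
    intro n hn
    rw [GX5_Whr_lt (by omega), map_add, Φe, Φe, φ1 n hn.le, φ1 (n + 1) (by omega), add_comm,
      show i - (n + 1) = i - n - 1 by omega, show i - n - 1 + 1 = i - n by omega]
  have R2 : ∀ n, i ≤ n → n < j → Φ (Whr r n) = V 0 (n - i) + V 0 (n - i + 1) := by
    intro n hn hn'
    rw [GX5_Whr_lt (by omega), map_add, Φe, Φe, φ2 n hn hn'.le, φ2 (n + 1) (by omega) (by omega),
      show n + 1 - i = n - i + 1 by omega]
  have R3 : ∀ n, j ≤ n → n < r →
      Φ (Whr r n) = F4.w • (V 2 (i + r - n - 1) + V 2 (i + r - n - 1 + 1)) := by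
    intro n hn hn'
    rcases Nat.lt_or_ge (n + 1) r with h2 | h2
    · rw [GX5_Whr_lt h2, map_add, Φe, Φe, φ3 n hn hn', φ3 (n + 1) (by omega) h2, smul_add,
        add_comm, show i + r - (n + 1) = i + r - n - 1 by omega,
        show i + r - n - 1 + 1 = i + r - n by omega]
    · rw [GX5_Whr_last (by omega), map_add, map_smul, Φe, Φe, φ3 n hn hn', φ1 0 (by omega),
        smul_add, add_comm, show i + r - n - 1 = i - 0 by omega,
        show i - 0 + 1 = i + r - n by omega]
  have I3m : ∀ k, k ∈ I3 ↔ k = 0 ∨ k = 1 ∨ k = 2 := by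
    intro k
    unfold I3
    simp
  have hrimC : ∀ k ∈ I3, ∀ n < m k, V k n + V k (n + 1) ∈ ThC true true m := fun k hk n hn =>
    Or.inr ⟨k, hk, n, hn, rfl⟩
  have hvC : ∀ k ∈ I3, ∀ n, 0 < n → n < m k → e k n ∈ ThC true true m := fun k hk n h0 hn =>
    Or.inl (Or.inr ⟨k, hk, n, h0, hn, rfl⟩)
  have ht : e 3 0 ∈ ThC true true m := Or.inl (Or.inl (Or.inl ⟨rfl, rfl⟩))
  have ht' : e 3 1 ∈ ThC true true m := Or.inl (Or.inl (Or.inr ⟨rfl, rfl⟩))
  have i0 : (0 : ℕ) ∈ I3 := by decide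
  have i1 : (1 : ℕ) ∈ I3 := by decide
  have i2 : (2 : ℕ) ∈ I3 := by decide
  have one : ∀ x y : VV, x = y → x + (1 : F4) • y ∈ (⊥ : Submodule F4 VV) := by
    rintro x y rfl
    rw [one_smul, vadd_self]
    exact zero_mem _
  have sc : ∀ (s : F4) (x y : VV), x = s • y → x + s • y ∈ (⊥ : Submodule F4 VV) := by
    rintro s x y rfl
    rw [vadd_self]
    exact zero_mem _
  refine IsCfg.map Φ Θ ?_ ?_ ?_ (Subset.antisymm (GX5_LnK ?_) (GX5_LnK ?_)) h
  · intro k hk
    rw [(Submodule.mem_bot F4).1 hk, map_zero]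
    exact zero_mem _
  · intro k hk
    rw [(Submodule.mem_bot F4).1 hk, map_zero]
    exact zero_mem _
  · intro x hx
    rw [Submodule.mem_bot]
    refine GX5_hid hr2 Φ Θ hΘΦ x ?_
    rcases hx with rfl | hx
    · exact add_mem (subset_span ((GF1 hr2 _).2 (Or.inl ⟨i, by omega, rfl⟩)))
        (smul_mem _ _ (subset_span ((GF1 hr2 _).2 (Or.inl ⟨j, hj, rfl⟩))))
    · exact subset_span hx
  · rintro _ ⟨x, hx, rfl⟩
    rcases hx with rfl | hx
    · exact ⟨_, hrimC 1 i1 0 (by omega), 1, one _ _ (hp.trans rim1.symm)⟩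
    · rcases (GF1 hr2 x).1 hx with ⟨n, hn, rfl⟩ | ⟨n, hn, rfl⟩
      · rw [Φe]
        rcases Nat.lt_trichotomy n i with h1 | rfl | h1
        · refine ⟨_, hvC 2 i2 (i - n) (by omega) (by omega), 1, one _ _ ?_⟩
          rw [φ1 n h1.le, Vin 2 _ (by omega) (by omega)]
        · refine ⟨_, ht, 1, one _ _ ?_⟩
          rw [φ1 n le_rfl, Nat.sub_self, V00]
        · rcases Nat.lt_trichotomy n j with h2 | rfl | h2
          · refine ⟨_, hvC 0 i0 (n - i) (by omega) (by omega), 1, one _ _ ?_⟩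
            rw [φ2 n h1.le h2.le, Vin 0 _ (by omega) (by omega)]
          · refine ⟨_, ht', 1, one _ _ ?_⟩
            rw [φ2 n h1.le le_rfl, ← m0, Vend 0 (by omega), g30, one_smul]
          · refine ⟨_, hvC 2 i2 (i + r - n) (by omega) (by omega), F4.w, sc _ _ _ ?_⟩
            rw [φ3 n h2.le hn, Vin 2 _ (by omega) (by omega)]
      · rcases Nat.lt_or_ge n i with h1 | h1
        · exact ⟨_, hrimC 2 i2 (i - n - 1) (by omega), 1, one _ _ (R1 n h1)⟩
        · rcases Nat.lt_or_ge n j with h2 | h2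
          · exact ⟨_, hrimC 0 i0 (n - i) (by omega), 1, one _ _ (R2 n h1 h2)⟩
          · exact ⟨_, hrimC 2 i2 (i + r - n - 1) (by omega), F4.w, sc _ _ _ (R3 n h2 hn)⟩
  · have hW : ∀ n < r, Φ (Whr r n) ∈ Φ '' insert (e 0 i + F4.w • e 0 j) (WhC r) := fun n hn =>
      ⟨_, Or.inr ((GF1 hr2 _).2 (Or.inr ⟨n, hn, rfl⟩)), rfl⟩
    have hE : ∀ n < r, Φ (e 0 n) ∈ Φ '' insert (e 0 i + F4.w • e 0 j) (WhC r) := fun n hn =>
      ⟨_, Or.inr ((GF1 hr2 _).2 (Or.inl ⟨n, hn, rfl⟩)), rfl⟩
    rintro x (((⟨-, hx⟩ | ⟨-, hx⟩) | ⟨k, hk, n, h0, hn, rfl⟩) | ⟨k, hk, n, hn, rfl⟩)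
    · refine ⟨_, hE i (by omega), 1, one _ _ ?_⟩
      rw [mem_singleton_iff.1 hx, Φe, φ1 i le_rfl, Nat.sub_self, V00]
    · refine ⟨_, hE j hj, 1, one _ _ ?_⟩
      rw [mem_singleton_iff.1 hx, Φe, φ2 j hij.le le_rfl, ← m0, Vend 0 (by omega), g30, one_smul]
    · rcases (I3m k).1 hk with rfl | rfl | rfl
      · refine ⟨_, hE (i + n) (by omega), 1, one _ _ ?_⟩
        rw [Φe, φ2 _ (by omega) (by omega), show i + n - i = n by omega,
          Vin 0 _ (by omega) (by omega)]
      · omega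
      · rcases Nat.lt_or_ge i n with h1 | h1
        · refine ⟨_, hE (i + r - n) (by omega), F4.v, sc _ _ _ ?_⟩
          rw [Φe, φ3 _ (by omega) (by omega), show i + r - (i + r - n) = n by omega,
            Vin 2 _ (by omega) (by omega), GX5_vw]
        · refine ⟨_, hE (i - n) (by omega), 1, one _ _ ?_⟩
          rw [Φe, φ1 _ (by omega), show i - (i - n) = n by omega, Vin 2 _ (by omega) (by omega)]
    · rcases (I3m k).1 hk with rfl | rfl | rfl
      · refine ⟨_, hW (i + n) (by omega), 1, one _ _ ?_⟩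
        rw [R2 _ (by omega) (by omega), show i + n - i = n by omega]
      · have hn0 : n = 0 := by omega
        subst hn0
        exact ⟨_, ⟨_, Or.inl rfl, rfl⟩, 1, one _ _ (rim1.trans hp.symm)⟩
      · rcases Nat.lt_or_ge n i with h1 | h1
        · refine ⟨_, hW (i - n - 1) (by omega), 1, one _ _ ?_⟩
          rw [R1 _ (by omega), show i - (i - n - 1) - 1 = n by omega]
        · refine ⟨_, hW (i + r - n - 1) (by omega), F4.v, sc _ _ _ ?_⟩
          rw [R3 _ (by omega) (by omega), show i + r - (i + r - n - 1) - 1 = n by omega, GX5_vw]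

/-- GX5b. -/
theorem GX5b {α : Type} {M : Matroid α} {r i j : ℕ} (hr : 4 ≤ r) (hij : i < j) (hj : j < r)
    (h : IsCfg M ⊥ (insert (Whr r i + F4.w • Whr r j) (WhC r))) :
    IsCfg M (LaK false false (lenR r i j)) (LaC false false (lenR r i j)) := by
  have hr2 : 2 ≤ r := by omega
  set m := lenR r i j with hm
  have m0 : m 0 = 1 := rfl
  have m1 : m 1 = j - i - 1 := rfl
  have m2 : m 2 = r - (j - i) - 1 := rfl
  set K' := LaK false false m with hK'
  have hc : Lac ∈ K' := subset_span (Or.inl ⟨rfl, rfl⟩)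
  have hc' : Lac' m ∈ K' := subset_span (Or.inr ⟨rfl, rfl⟩)
  -- the vertices of the strands
  set V : ℕ → ℕ → VV := fun k n => msu m (fun i => e i 0) (LaB m) k n with hV
  have V00 : ∀ k, V k 0 = e k 0 := fun k => by
    show msu _ _ _ _ _ = _
    rw [msu, if_pos rfl]
  have Vin : ∀ k n, 0 < n → n < m k → V k n = e k n := fun k n h1 h2 => by
    show msu _ _ _ _ _ = _
    rw [msu, if_neg (by omega), if_neg (by omega)]
  have Vend : ∀ k, V k (m k) = LaB m k := fun k => by
    rcases Nat.eq_zero_or_pos (m k) with h1 | h1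
    · rw [h1, V00, LaB, if_pos h1]
    · show msu _ _ _ _ _ = _
      rw [msu, if_neg (by omega), if_pos rfl]
  have LB0 : LaB m 0 = e 4 0 := by rw [LaB, if_neg (by omega)]
  -- the map
  set φ : ℕ → VV := fun n => if n ≤ i then V 2 (i - n) else if n ≤ j then V 1 (n - i - 1) else
    F4.w • V 2 (i + r - n) with hφ
  have φ1 : ∀ n, n ≤ i → φ n = V 2 (i - n) := fun n hn => if_pos hn
  have φ2 : ∀ n, i < n → n ≤ j → φ n = V 1 (n - i - 1) := fun n hn hn' => by
    show (if _ then _ else _) = _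
    rw [if_neg (by omega), if_pos hn']
  have φ3 : ∀ n, j < n → n < r → φ n = F4.w • V 2 (i + r - n) := fun n hn hn' => by
    show (if _ then _ else _) = _
    rw [if_neg (by omega), if_neg (by omega)]
  set Φ : VV →ₗ[F4] VV := GX5_lin (fun a n => if a = 0 then φ n else 0) with hΦ
  have Φe : ∀ n, Φ (e 0 n) = φ n := fun n => by
    rw [hΦ, GX5_lin_e, if_pos rfl]
  set g : ℕ → VV := fun n => if n ≤ i then e 0 (i - n) else F4.v • e 0 (i + r - n) with hg
  set Θ : VV →ₗ[F4] VV := GX5_lin (fun a n => if a = 0 then Whr r i else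
    if a = 1 then e 0 (i + 1 + n) else if a = 2 then g n else
      if a = 4 then F4.w • Whr r j else if a = 5 then e 0 j else
        if j + 1 = r then e 0 0 else F4.v • e 0 (j + 1)) with hΘ
  have Θ0 : Θ (e 0 0) = Whr r i := by
    rw [hΘ, GX5_lin_e, if_pos rfl]
  have Θ1 : ∀ n, Θ (e 1 n) = e 0 (i + 1 + n) := fun n => by
    rw [hΘ, GX5_lin_e, if_neg (by decide), if_pos rfl]
  have Θ2 : ∀ n, Θ (e 2 n) = g n := fun n => by
    rw [hΘ, GX5_lin_e, if_neg (by decide), if_neg (by decide), if_pos rfl]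
  have Θ4 : Θ (e 4 0) = F4.w • Whr r j := by
    rw [hΘ, GX5_lin_e, if_neg (by decide), if_neg (by decide), if_neg (by decide), if_pos rfl]
  have Θ5 : Θ (e 5 0) = e 0 j := by
    rw [hΘ, GX5_lin_e, if_neg (by decide), if_neg (by decide), if_neg (by decide),
      if_neg (by decide), if_pos rfl]
  have Θ6 : Θ (e 6 0) = if j + 1 = r then e 0 0 else F4.v • e 0 (j + 1) := by
    rw [hΘ, GX5_lin_e, if_neg (by decide), if_neg (by decide), if_neg (by decide),
      if_neg (by decide), if_neg (by decide)]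
  have ΘV1 : ∀ n ≤ m 1, Θ (V 1 n) = e 0 (i + 1 + n) := by
    intro n hn
    rcases Nat.eq_zero_or_pos n with rfl | h0
    · rw [V00, Θ1]
    · rcases eq_or_lt_of_le hn with rfl | h1
      · rw [Vend, LaB, if_neg (by omega), Θ5]
        congr 1
        omega
      · rw [Vin _ _ h0 h1, Θ1]
  have ΘV2 : ∀ n ≤ m 2, Θ (V 2 n) = g n := by
    intro n hn
    rcases Nat.eq_zero_or_pos n with rfl | h0
    · rw [V00, Θ2]
    · rcases eq_or_lt_of_le hn with rfl | h1
      · rw [Vend, LaB, if_neg (by omega), Θ6]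
        show _ = if _ then _ else _
        by_cases h2 : j + 1 = r
        · rw [if_pos h2, if_pos (by omega)]
          congr 1
          omega
        · rw [if_neg h2, if_neg (by omega)]
          congr 2
          omega
      · rw [Vin _ _ h0 h1, Θ2]
  have g1 : ∀ n, n ≤ i → g n = e 0 (i - n) := fun n hn => if_pos hn
  have g2 : ∀ n, i < n → g n = F4.v • e 0 (i + r - n) := fun n hn => if_neg (by omega)
  have hΘΦ : ∀ n < r, Θ (Φ (e 0 n)) = e 0 n := by
    intro n hn
    rw [Φe]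
    rcases Nat.lt_or_ge i n with h1 | h1
    · rcases Nat.lt_or_ge j n with h2 | h2
      · rw [φ3 n h2 hn, map_smul, ΘV2 _ (by omega), g2 _ (by omega), GX5_wv]
        congr 1
        omega
      · rw [φ2 n h1 h2, ΘV1 _ (by omega)]
        congr 1
        omega
    · rw [φ1 n h1, ΘV2 _ (by omega), g1 _ (by omega)]
      congr 1
      omega
  -- the rims
  have R1 : ∀ n < i, Φ (Whr r n) = V 2 (i - n - 1) + V 2 (i - n - 1 + 1) := by
    intro n hn
    rw [GX5_Whr_lt (by omega), map_add, Φe, Φe, φ1 n hn.le, φ1 (n + 1) (by omega), add_comm,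
      show i - (n + 1) = i - n - 1 by omega, show i - n - 1 + 1 = i - n by omega]
  have Ri : Φ (Whr r i) + e 0 0 ∈ K' := by
    rw [GX5_Whr_lt (by omega), map_add, Φe, Φe, φ1 i le_rfl, φ2 (i + 1) (by omega) (by omega),
      show i + 1 - i - 1 = 0 by omega, Nat.sub_self, V00, V00]
    have h1 : e 2 0 + e 1 0 + e 0 0 = Lac := by
      unfold Lac
      abel
    rw [h1]
    exact hc
  have R2 : ∀ n, i < n → n < j → Φ (Whr r n) = V 1 (n - i - 1) + V 1 (n - i - 1 + 1) := by
    intro n hn hn'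
    rw [GX5_Whr_lt (by omega), map_add, Φe, Φe, φ2 n hn hn'.le, φ2 (n + 1) (by omega) (by omega),
      show n + 1 - i - 1 = n - i - 1 + 1 by omega]
  have Rj0 : Φ (Whr r j) = LaB m 1 + F4.w • LaB m 2 := by
    rcases Nat.lt_or_ge (j + 1) r with h2 | h2
    · rw [GX5_Whr_lt h2, map_add, Φe, Φe, φ2 j hij le_rfl, φ3 (j + 1) (by omega) h2, ← m1, Vend,
        show i + r - (j + 1) = m 2 by omega, Vend]
    · rw [GX5_Whr_last (by omega), map_add, map_smul, Φe, Φe, φ2 j hij le_rfl, φ1 0 (by omega),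
        ← m1, Vend, show i - 0 = m 2 by omega, Vend]
  have Rj : Φ (Whr r j) + F4.v • LaB m 0 ∈ K' := by
    have h1 : LaB m 1 + F4.w • LaB m 2 + F4.v • LaB m 0 = F4.v • Lac' m := by
      unfold Lac'
      rw [smul_add, smul_add, GX5_vw, smul_smul, show F4.v * F4.v = F4.w by decide]
      abel
    rw [Rj0, h1]
    exact smul_mem _ _ hc'
  have R3 : ∀ n, j < n → n < r →
      Φ (Whr r n) = F4.w • (V 2 (i + r - n - 1) + V 2 (i + r - n - 1 + 1)) := by
    intro n hn hn'
    rcases Nat.lt_or_ge (n + 1) r with h2 | h2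
    · rw [GX5_Whr_lt h2, map_add, Φe, Φe, φ3 n hn hn', φ3 (n + 1) (by omega) h2, smul_add,
        add_comm, show i + r - (n + 1) = i + r - n - 1 by omega,
        show i + r - n - 1 + 1 = i + r - n by omega]
    · rw [GX5_Whr_last (by omega), map_add, map_smul, Φe, Φe, φ3 n hn hn', φ1 0 (by omega),
        smul_add, add_comm, show i + r - n - 1 = i - 0 by omega,
        show i - 0 + 1 = i + r - n by omega]
  have rim0 : V 0 0 + V 0 (0 + 1) = e 0 0 + LaB m 0 := by
    rw [V00, show (0 + 1 : ℕ) = m 0 from rfl, Vend]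
  have hp : Φ (Whr r i + F4.w • Whr r j) + (V 0 0 + V 0 (0 + 1)) ∈ K' := by
    have h1 : Φ (Whr r i + F4.w • Whr r j) + (V 0 0 + V 0 (0 + 1)) =
        (Φ (Whr r i) + e 0 0) + F4.w • (Φ (Whr r j) + F4.v • LaB m 0) := by
      rw [rim0, map_add, map_smul, smul_add, GX5_wv]
      abel
    rw [h1]
    exact add_mem Ri (smul_mem _ _ Rj)
  have I3m : ∀ k, k ∈ I3 ↔ k = 0 ∨ k = 1 ∨ k = 2 := by
    intro k
    unfold I3
    simp
  have i0 : (0 : ℕ) ∈ I3 := by decide
  have i1 : (1 : ℕ) ∈ I3 := by decide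
  have i2 : (2 : ℕ) ∈ I3 := by decide
  have hI3 : ∀ k ∈ I3, k < 3 := by
    intro k hk
    rcases (I3m k).1 hk with rfl | rfl | rfl <;> omega
  have hrimC : ∀ k ∈ I3, ∀ n < m k, V k n + V k (n + 1) ∈ LaC false false m := fun k hk n hn =>
    Or.inr ⟨k, hk, n, hn, rfl⟩
  have hbase : ∀ k ∈ I3, e k 0 ∈ LaC false false m ∧ LaB m k ∈ LaC false false m := fun k hk =>
    ⟨Or.inl (Or.inl (Or.inl (Or.inl ⟨k, hI3 k hk, Or.inl rfl⟩))),
      Or.inl (Or.inl (Or.inl (Or.inl ⟨k, hI3 k hk, Or.inr rfl⟩)))⟩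
  have hvC : ∀ k ∈ I3, ∀ n ≤ m k, V k n ∈ LaC false false m := by
    intro k hk n hn
    rcases Nat.eq_zero_or_pos n with rfl | h0
    · rw [V00]
      exact (hbase k hk).1
    · rcases eq_or_lt_of_le hn with rfl | h1
      · rw [Vend]
        exact (hbase k hk).2
      · rw [Vin _ _ h0 h1]
        exact Or.inl (Or.inr ⟨k, hk, n, h0, h1, rfl⟩)
  have one : ∀ x y : VV, x = y → x + (1 : F4) • y ∈ K' := by
    rintro x y rfl
    rw [one_smul, vadd_self]
    exact zero_mem _
  have one' : ∀ x y : VV, x + y ∈ K' → x + (1 : F4) • y ∈ K' := by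
    intro x y hxy
    rwa [one_smul]
  have sc : ∀ (s : F4) (x y : VV), x = s • y → x + s • y ∈ K' := by
    rintro s x y rfl
    rw [vadd_self]
    exact zero_mem _
  refine IsCfg.map Φ Θ ?_ ?_ ?_ (Subset.antisymm (GX5_LnK ?_) (GX5_LnK ?_)) h
  · intro k hk
    rw [(Submodule.mem_bot F4).1 hk, map_zero]
    exact zero_mem _
  · have h1 : K' ≤ (⊥ : Submodule F4 VV).comap Θ := by
      rw [hK', LaK, span_le]
      rintro x (⟨-, hx⟩ | ⟨-, hx⟩)
      · rw [mem_singleton_iff.1 hx]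
        show Θ Lac ∈ (⊥ : Submodule F4 VV)
        rw [Submodule.mem_bot]
        unfold Lac
        rw [map_add, map_add, Θ0, Θ1, Θ2, g1 0 (by omega), GX5_Whr_lt (by omega), add_zero,
          Nat.sub_zero]
        calc e 0 i + e 0 (i + 1) + e 0 (i + 1) + e 0 i
            = (e 0 i + e 0 i) + (e 0 (i + 1) + e 0 (i + 1)) := by abel
          _ = 0 := by rw [vadd_self, vadd_self, add_zero]
      · rw [mem_singleton_iff.1 hx]
        show Θ (Lac' m) ∈ (⊥ : Submodule F4 VV)
        rw [Submodule.mem_bot]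
        unfold Lac'
        rw [map_add, map_add, map_smul, map_smul, ← Vend 1, ← Vend 2, ΘV1 _ le_rfl, ΘV2 _ le_rfl,
          LB0, Θ4, show i + 1 + m 1 = j by omega]
        rcases Nat.lt_or_ge (j + 1) r with h2 | h2
        · rw [GX5_Whr_lt h2, g2 _ (by omega), show i + r - m 2 = j + 1 by omega, smul_add,
            smul_smul, show F4.v * F4.v = F4.w by decide]
          calc F4.w • e 0 j + F4.w • e 0 (j + 1) + F4.w • e 0 j + F4.w • e 0 (j + 1)
              = (F4.w • e 0 j + F4.w • e 0 j) + (F4.w • e 0 (j + 1) + F4.w • e 0 (j + 1)) := by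
                abel
            _ = 0 := by rw [vadd_self, vadd_self, add_zero]
        · rw [GX5_Whr_last (by omega), g1 _ (by omega), show i - m 2 = 0 by omega, smul_add,
            smul_smul, show F4.w * F4.w = F4.v by decide]
          calc F4.w • e 0 j + F4.v • e 0 0 + F4.w • e 0 j + F4.v • e 0 0
              = (F4.w • e 0 j + F4.w • e 0 j) + (F4.v • e 0 0 + F4.v • e 0 0) := by
                abel
            _ = 0 := by rw [vadd_self, vadd_self, add_zero]
    intro k hk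
    exact h1 hk
  · intro x hx
    rw [Submodule.mem_bot]
    refine GX5_hid hr2 Φ Θ hΘΦ x ?_
    rcases hx with rfl | hx
    · exact add_mem (subset_span ((GF1 hr2 _).2 (Or.inr ⟨i, by omega, rfl⟩)))
        (smul_mem _ _ (subset_span ((GF1 hr2 _).2 (Or.inr ⟨j, hj, rfl⟩))))
    · exact subset_span hx
  · rintro _ ⟨x, hx, rfl⟩
    rcases hx with rfl | hx
    · exact ⟨_, hrimC 0 i0 0 (by omega), 1, one' _ _ hp⟩
    · rcases (GF1 hr2 x).1 hx with ⟨n, hn, rfl⟩ | ⟨n, hn, rfl⟩
      · rw [Φe]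
        rcases Nat.lt_or_ge i n with h1 | h1
        · rcases Nat.lt_or_ge j n with h2 | h2
          · exact ⟨_, hvC 2 i2 (i + r - n) (by omega), F4.w, sc _ _ _ (φ3 n h2 hn)⟩
          · exact ⟨_, hvC 1 i1 (n - i - 1) (by omega), 1, one _ _ (φ2 n h1 h2)⟩
        · exact ⟨_, hvC 2 i2 (i - n) (by omega), 1, one _ _ (φ1 n h1)⟩
      · rcases Nat.lt_trichotomy n i with h1 | rfl | h1
        · exact ⟨_, hrimC 2 i2 (i - n - 1) (by omega), 1, one _ _ (R1 n h1)⟩
        · exact ⟨_, (hbase 0 i0).1, 1, one' _ _ Ri⟩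
        · rcases Nat.lt_trichotomy n j with h2 | rfl | h2
          · exact ⟨_, hrimC 1 i1 (n - i - 1) (by omega), 1, one _ _ (R2 n h1 h2)⟩
          · exact ⟨_, (hbase 0 i0).2, F4.v, Rj⟩
          · exact ⟨_, hrimC 2 i2 (i + r - n - 1) (by omega), F4.w, sc _ _ _ (R3 n h2 hn)⟩
  · have hW : ∀ n < r, Φ (Whr r n) ∈ Φ '' insert (Whr r i + F4.w • Whr r j) (WhC r) :=
      fun n hn => ⟨_, Or.inr ((GF1 hr2 _).2 (Or.inr ⟨n, hn, rfl⟩)), rfl⟩
    have hE : ∀ n < r, Φ (e 0 n) ∈ Φ '' insert (Whr r i + F4.w • Whr r j) (WhC r) :=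
      fun n hn => ⟨_, Or.inr ((GF1 hr2 _).2 (Or.inl ⟨n, hn, rfl⟩)), rfl⟩
    have hV1 : ∀ n ≤ m 1, ∃ c ∈ Φ '' insert (Whr r i + F4.w • Whr r j) (WhC r), ∃ s : F4,
        V 1 n + s • c ∈ K' := by
      intro n hn
      refine ⟨_, hE (i + 1 + n) (by omega), 1, one _ _ ?_⟩
      rw [Φe, φ2 _ (by omega) (by omega), show i + 1 + n - i - 1 = n by omega]
    have hV2 : ∀ n ≤ m 2, ∃ c ∈ Φ '' insert (Whr r i + F4.w • Whr r j) (WhC r), ∃ s : F4,
        V 2 n + s • c ∈ K' := by
      intro n hn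
      rcases Nat.lt_or_ge i n with h1 | h1
      · refine ⟨_, hE (i + r - n) (by omega), F4.v, sc _ _ _ ?_⟩
        rw [Φe, φ3 _ (by omega) (by omega), show i + r - (i + r - n) = n by omega, GX5_vw]
      · refine ⟨_, hE (i - n) (by omega), 1, one _ _ ?_⟩
        rw [Φe, φ1 _ (by omega), show i - (i - n) = n by omega]
    rintro x (((((⟨k, hk, rfl | rfl⟩) | ⟨h0, -⟩) | ⟨h0, -⟩) | ⟨k, hk, n, h0, hn, rfl⟩) |
      ⟨k, hk, n, hn, rfl⟩)
    · interval_cases k
      · refine ⟨_, hW i (by omega), 1, one' _ _ ?_⟩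
        rw [add_comm]
        exact Ri
      · rw [← V00]
        exact hV1 0 (Nat.zero_le _)
      · rw [← V00]
        exact hV2 0 (Nat.zero_le _)
    · interval_cases k
      · refine ⟨_, hW j hj, F4.w, ?_⟩
        have h1 : LaB m 0 + F4.w • Φ (Whr r j) = F4.w • (Φ (Whr r j) + F4.v • LaB m 0) := by
          rw [smul_add, GX5_wv, add_comm]
        rw [h1]
        exact smul_mem _ _ Rj
      · rw [← Vend]
        exact hV1 _ le_rfl
      · rw [← Vend]
        exact hV2 _ le_rfl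
    · exact absurd h0 (by decide)
    · exact absurd h0 (by decide)
    · rcases (I3m k).1 hk with rfl | rfl | rfl
      · omega
      · rw [← Vin 1 n h0 hn]
        exact hV1 n hn.le
      · rw [← Vin 2 n h0 hn]
        exact hV2 n hn.le
    · rcases (I3m k).1 hk with rfl | rfl | rfl
      · have hn0 : n = 0 := by omega
        subst hn0
        refine ⟨_, ⟨_, Or.inl rfl, rfl⟩, 1, one' _ _ ?_⟩
        rw [add_comm]
        exact hp
      · refine ⟨_, hW (i + 1 + n) (by omega), 1, one _ _ ?_⟩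
        rw [R2 _ (by omega) (by omega), show i + 1 + n - i - 1 = n by omega]
      · rcases Nat.lt_or_ge n i with h1 | h1
        · refine ⟨_, hW (i - n - 1) (by omega), 1, one _ _ ?_⟩
          rw [R1 _ (by omega), show i - (i - n - 1) - 1 = n by omega]
        · refine ⟨_, hW (i + r - n - 1) (by omega), F4.v, sc _ _ _ ?_⟩
          rw [R3 _ (by omega) (by omega), show i + r - (i + r - n - 1) - 1 = n by omega, GX5_vw]

/-- GX5. -/
theorem GX5 {α : Type} {M : Matroid α} {r : ℕ} (hr : 4 ≤ r) {p : VV} (hp : p ∈ WhP r)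
    (hp0 : p ∉ (⊥ : Submodule F4 VV)) (hpC : p ∉ LnK ⊥ (WhC r))
    (h : IsCfg M ⊥ (insert p (WhC r))) : Fam M := by
  rcases hp with ((hp | ⟨i, j, hij, hj, rfl⟩) | ⟨i, j, hij, hj, rfl⟩) | hp
  · exact absurd ⟨hp0, p, hp, 1, by rw [one_smul, vadd_self]; exact zero_mem _⟩ hpC
  · have h1 := GX5a hr hij hj h
    by_cases h2 : j - i = 1
    · refine Fam.sp true true (r - 1) (by omega) ?_
      have h3 := GX1c (m' := fun k => lenS r i j (if k = 2 then 0 else k + 1)) rfl rfl rfl h1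
      have h4 := GX1c (m' := fun k => lenS r i j (if k = 0 then 2 else if k = 1 then 0 else 1))
        rfl rfl rfl h3
      refine GX1c ?_ ?_ ?_ h4
      · show 1 = j - i
        omega
      · show 1 = 1
        rfl
      · show r - 1 = r - (j - i)
        omega
    · by_cases h3 : r - (j - i) = 1
      · refine Fam.sp true true (r - 1) (by omega) (GX1c ?_ ?_ ?_ h1)
        · show 1 = 1
          rfl
        · show 1 = r - (j - i)
          omega
        · show r - 1 = j - i
          omega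
      · refine Fam.th true true _ ?_ h1
        have m0 : lenS r i j 0 = j - i := rfl
        have m1 : lenS r i j 1 = 1 := rfl
        have m2 : lenS r i j 2 = r - (j - i) := rfl
        constructor
        · intro k hk
          interval_cases k <;> omega
        · intro k hk l hl
          interval_cases k <;> interval_cases l <;> omega
  · refine Fam.la false false _ ?_ (GX5b hr hij hj h)
    have m0 : lenR r i j 0 = 1 := rfl
    have m1 : lenR r i j 1 = j - i - 1 := rfl
    have m2 : lenR r i j 2 = r - (j - i) - 1 := rfl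
    intro k hk l hl
    interval_cases k <;> interval_cases l <;> omega
  · exact absurd (by rw [mem_singleton_iff.1 hp]; exact zero_mem _) hp0

end QG
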