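import Pool.Agent.Lib.QG.GM1
import Pool.Agent.Lib.QG.GM2
import Pool.Agent.Lib.QG.GM3
import Pool.Agent.Lib.QG.GM5
import Pool.Agent.Lib.QG.GM6
import Pool.Agent.Lib.QG.GN1
import Pool.Agent.Lib.QG.GB5
import Pool.Agent.Lib.QG.GB6
import Pool.Agent.Lib.QG.GX2
import Pool.Agent.Lib.QG.GX3
import Pool.Agent.Lib.QG.GX4
import Pool.Agent.Lib.QG.GX5

/-! MP_2e6874_co, part (A), row GZ: the extension step. -/

set_option autoImplicit false

namespace QG
open Set Matroid Submodule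

/-- GZ. `x` is not a coloop, `M` is simple (GB6). `M ＼ {x}` has at least 8 elements, and at most as many as
its family has points (GN1), so the A-theorems GM1 .. GM6 apply; `IsCfg.of_AK` gives `p`; then GX1b, GX2, GX3,
GX4, GX5. -/
theorem fam_step' (hB : BaseA) {α : Type} (M : Matroid α) (hf : M.Finite) (h3 : ThreeConn M)
    (hG : Good M) (x : α) (hx : x ∈ M.E) (hn : 9 ≤ M.E.ncard) (h : Fam (M ＼ {x})) : Fam M := by
  have hcl : x ∈ M.closure (M.E \ {x}) := h3.not_coloop hf (by omega) hx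
  have hsim : ∀ y ∈ M.E, M.Indep {x, y} := fun y hy => h3.indep_pair hf (by omega) hx hy
  have hE : (M ＼ {x}).E = M.E \ {x} := rfl
  have hfin : (M ＼ {x}).Finite := inferInstance
  have hcard : 8 ≤ (M ＼ {x}).E.ncard := by
    have h1 := Set.ncard_sdiff_singleton_add_one hx hf.ground_finite
    rw [hE]
    omega
  have hsim' : ∀ y ∈ (M ＼ {x}).E, ∀ z ∈ (M ＼ {x}).E, (M ＼ {x}).Indep {y, z} := by
    intro y hy z hz
    rw [delete_indep_iff]
    refine ⟨h3.indep_pair hf (by omega) hy.1 hz.1, ?_⟩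
    rw [Set.disjoint_singleton_right]
    rintro (h1 | h1)
    · exact hy.2 (by rw [← h1]; rfl)
    · exact hz.2 (by rw [← h1]; rfl)
  cases h with
  | th a b m hm hC =>
    obtain ⟨h1, h2⟩ := ThC_ncard a b m hm.1
    have h4 := hC.ncard_le hfin hsim' h1
    obtain ⟨p, hp, hp0, hpC, hM⟩ := IsCfg.of_AK hf hG hx hcl hsim hC (GM1 hB a b m hm (by omega))
    exact GX1b hm hp hp0 hpC hM
  | sp a b m hm hC =>
    obtain ⟨h1, h2⟩ := ThC_ncard a b (m11 m) (by
      intro i hi
      unfold m11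
      split_ifs <;> omega)
    have h4 := hC.ncard_le hfin hsim' h1
    have e0 : m11 m 0 = 1 := rfl
    have e1 : m11 m 1 = 1 := rfl
    have e2 : m11 m 2 = m := rfl
    rw [e0, e1, e2] at h2
    have ha := Bool.toNat_le a
    have hb := Bool.toNat_le b
    obtain ⟨p, hp, hp0, hpC, hM⟩ := IsCfg.of_AK hf hG hx hcl hsim hC
      (GM2 hB a b m (by omega) (by omega))
    exact GX2 (by omega) hp hp0 hpC hM
  | la a b m hm hC =>
    obtain ⟨h1, h2⟩ := LaC_ncard a b m
    have h4 := hC.ncard_le hfin hsim' h1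
    obtain ⟨p, hp, hp0, hpC, hM⟩ := IsCfg.of_AK hf hG hx hcl hsim hC (GM3 hB a b m hm (by omega))
    exact GX3 hm hp hp0 hpC hM
  | de g a b I l hl hC =>
    obtain ⟨h1, h2⟩ := DeC_ncard g a b I l hl.pos
    have ha := Bool.toNat_le a
    have h4 := hC.ncard_le hfin hsim' h1
    cases b with
    | true =>
      rw [Bool.toNat_true] at h2
      obtain ⟨p, hp, hp0, hpC, hM⟩ := IsCfg.of_AK hf hG hx hcl hsim hC
        (GM5 hB g a I l hl (by omega))
      exact GX4 hl hp hp0 hpC hM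
    | false =>
      rw [Bool.toNat_false] at h2
      obtain ⟨p, hp, hp0, hpC, hM⟩ := IsCfg.of_AK hf hG hx hcl hsim hC
        (GM4 hB g a I l hl (by omega))
      exact GX4 hl hp hp0 hpC hM
  | wh r hr hC =>
    obtain ⟨h1, h2⟩ := WhC_ncard r (by omega)
    have h4 := hC.ncard_le hfin hsim' h1
    obtain ⟨p, hp, hp0, hpC, hM⟩ := IsCfg.of_AK hf hG hx hcl hsim hC (GM6 hB r (by omega))
    exact GX5 (by omega) hp hp0 hpC hM

end QG
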