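import Pool.Agent.Lib.QG.BC0
import Pool.Agent.Lib.QG.GA1

/-! MP_2e6874_co, part (B), row HA1: from labelled points to AThm. -/

set_option autoImplicit false

namespace QG
open Set Matroid Submodule

private theorem HA1_smul {W ι : Type} [AddCommGroup W] [Module F4 W] {V V' : ι → W} {J : Set ι}
    (h : ∀ i ∈ J, ∃ s : F4, s ≠ 0 ∧ V' i = s • V i) (hV : LinearIndepOn F4 V J) :
    LinearIndepOn F4 V' J := by
  choose! s hs0 hs using h
  have h1 : LinearIndependent F4 (fun x : J => V x) := hV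
  have h2 := h1.units_smul (fun x : J => Units.mk0 (s x) (hs0 x x.2))
  have h3 : ((fun x : J => Units.mk0 (s x) (hs0 x x.2)) • fun x : J => V x) =
      fun x : J => V' x := by
    funext x
    rw [hs x x.2]
    rfl
  rw [h3] at h2
  exact h2

private theorem HA1_smul_iff {W ι : Type} [AddCommGroup W] [Module F4 W] {V V' : ι → W} {J : Set ι}
    (h : ∀ i ∈ J, ∃ s : F4, s ≠ 0 ∧ V' i = s • V i) :
    LinearIndepOn F4 V' J ↔ LinearIndepOn F4 V J := by
  refine ⟨fun hV => HA1_smul (fun i hi => ?_) hV, HA1_smul h⟩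
  obtain ⟨s, hs0, hs⟩ := h i hi
  exact ⟨s⁻¹, inv_ne_zero hs0, by rw [hs, smul_smul, inv_mul_cancel₀ hs0, one_smul]⟩

private theorem HA1_image {W α ι : Type} [AddCommGroup W] [Module F4 W] {f : α → W} {g : ι → α}
    {V : ι → W} {J : Set ι} (hg : InjOn g J) (h : ∀ i ∈ J, ∃ s : F4, s ≠ 0 ∧ f (g i) = s • V i) :
    LinearIndepOn F4 f (g '' J) ↔ LinearIndepOn F4 V J := by
  rw [← HA1_smul_iff h]
  exact ⟨fun h1 => h1.comp_of_image hg, fun h1 => LinearIndepOn.image_of_comp g f h1⟩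

private theorem HA1_span {W : Type} [AddCommGroup W] [Module F4 W] {A B : Set W}
    (h : ∀ a ∈ A, a = 0 ∨ ∃ b ∈ B, ∃ s : F4, a = s • b) : span F4 A ≤ span F4 B := by
  rw [span_le]
  intro a ha
  rcases h a ha with rfl | ⟨b, hb, s, hs⟩
  · exact Submodule.zero_mem _
  · rw [hs]
    exact Submodule.smul_mem _ _ (subset_span hb)

/-- HA1. `V` has no zero vector and no two parallel vectors. Given `M, v, f` with
`On M v f (range V)`: for every `i` choose `ι i ∈ M.E \ {v}` with `f (ι i) = s • V i`, `s ≠ 0` (`On.pts`);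
`ι` is injective. `M' = M ↾ insert v (range ι)` is good (minor), `M'.Indep (ι '' I)` iff `V` is independent on
`I` (scalars do not matter); `v ∈ M.closure (range ι)` since `range ι` and `M.E \ {v}` have vectors with the same
span (`On.ncl`, `On.closure_congr`). `LExt` gives `p`. `Adds M v f p`: use `On.indep_insert_iff`; for an independent
`I ⊆ M.E \ {v}` let `J` be the set of the `i` such that some `f x`, `x ∈ I`, is a multiple of `V i`: the vectors of
`I` and of `ι '' J` have the same span, `V` is independent on `J` (independent vectors are not parallel),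
so `M.closure I = M.closure (ι '' J)`, and `v` is in it iff `p` is in the span. -/
theorem LExt.athm {r c : ℕ} {V : Fin c → Fin r → F4} {P : List (Fin r → F4)} (h : LExt r c V P)
    (h0 : ∀ i, V i ≠ 0) (hV : ∀ i j, i ≠ j → ∀ s : F4, V i ≠ s • V j) :
    AThm (range V) {p | p ∈ P} := by
  intro α M v f hO hG
  -- choice of the points
  have hch : ∀ i, ∃ x, x ∈ M.E \ {v} ∧ ∃ s : F4, s ≠ 0 ∧ f x = s • V i := by
    intro i
    have h1 : V i ∈ Ln (range V) := ⟨h0 i, V i, ⟨i, rfl⟩, 1, (one_smul _ _).symm⟩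
    rw [← hO.pts] at h1
    obtain ⟨-, _, ⟨x, hx, rfl⟩, s, hs⟩ := h1
    have hs0 : s ≠ 0 := by
      rintro rfl
      rw [zero_smul] at hs
      exact h0 i hs
    exact ⟨x, hx, s⁻¹, inv_ne_zero hs0, by rw [hs, smul_smul, inv_mul_cancel₀ hs0, one_smul]⟩
  choose ι hι hιs using hch
  -- every vector of a point is zero or a multiple of some `V i`
  have hcov : ∀ x ∈ M.E \ {v}, f x ≠ 0 → ∃ i, ∃ s : F4, s ≠ 0 ∧ f x = s • V i := by
    intro x hx hx0
    have h1 : f x ∈ Ln (f '' (M.E \ {v})) := ⟨hx0, f x, ⟨x, hx, rfl⟩, 1, (one_smul _ _).symm⟩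
    rw [hO.pts] at h1
    obtain ⟨-, _, ⟨i, rfl⟩, s, hs⟩ := h1
    refine ⟨i, s, ?_, hs⟩
    rintro rfl
    rw [zero_smul] at hs
    exact hx0 hs
  have hpar : ∀ i j, ∀ s t : F4, s ≠ 0 → s • V i = t • V j → i = j := by
    intro i j s t hs0 hst
    by_contra hij
    apply hV i j hij (s⁻¹ * t)
    rw [← smul_smul, ← hst, smul_smul, inv_mul_cancel₀ hs0, one_smul]
  have hinj : Function.Injective ι := by
    intro i j hij
    obtain ⟨s, hs0, hs⟩ := hιs i
    obtain ⟨t, -, ht⟩ := hιs j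
    rw [hij] at hs
    exact hpar i j s t hs0 (by rw [← hs, ht])
  have hv : v ∉ range ι := by
    rintro ⟨i, hi⟩
    exact (hι i).2 hi
  have hran : range ι ⊆ M.E \ {v} := by
    rintro _ ⟨i, rfl⟩
    exact hι i
  have hR : insert v (range ι) ⊆ M.E := insert_subset hO.mem (hran.trans sdiff_subset)
  -- the images span
  have hspJ : ∀ J : Set (Fin c), span F4 (f '' (ι '' J)) = span F4 (V '' J) := by
    intro J
    refine le_antisymm (HA1_span ?_) (HA1_span ?_)
    · rintro _ ⟨_, ⟨i, hi, rfl⟩, rfl⟩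
      obtain ⟨s, -, hs⟩ := hιs i
      exact Or.inr ⟨V i, ⟨i, hi, rfl⟩, s, hs⟩
    · rintro _ ⟨i, hi, rfl⟩
      obtain ⟨s, hs0, hs⟩ := hιs i
      exact Or.inr ⟨f (ι i), ⟨ι i, ⟨i, hi, rfl⟩, rfl⟩, s⁻¹,
        by rw [hs, smul_smul, inv_mul_cancel₀ hs0, one_smul]⟩
  have hJsub : ∀ J : Set (Fin c), ι '' J ⊆ M.E \ {v} := fun J =>
    (image_subset_range ι J).trans hran
  have hind : ∀ J : Set (Fin c), LinearIndepOn F4 f (ι '' J) ↔ LinearIndepOn F4 V J := fun J =>
    HA1_image hinj.injOn (fun i _ => hιs i)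
  have hsp : span F4 (f '' (M.E \ {v})) = span F4 (f '' range ι) := by
    refine le_antisymm (HA1_span ?_) (span_mono (image_mono hran))
    rintro _ ⟨x, hx, rfl⟩
    by_cases hx0 : f x = 0
    · exact Or.inl hx0
    · right
      obtain ⟨i, s, -, hs⟩ := hcov x hx hx0
      obtain ⟨t, ht0, ht⟩ := hιs i
      refine ⟨f (ι i), ⟨ι i, ⟨i, rfl⟩, rfl⟩, s * t⁻¹, ?_⟩
      rw [ht, smul_smul, mul_assoc, inv_mul_cancel₀ ht0, mul_one, hs]
  have hvcl : v ∈ M.closure (range ι) := by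
    rw [← hO.closure_congr subset_rfl hran hsp]
    exact hO.ncl
  have hmin : M ↾ insert v (range ι) ≤m M := by
    refine ⟨∅, M.E \ insert v (range ι), ?_⟩
    rw [contract_empty, delete_eq_restrict, sdiff_sdiff_cancel_left hR]
  obtain ⟨p, hpP, hp⟩ := h α (M ↾ insert v (range ι)) v ι ⟨hO.fin.ground_finite.subset hR⟩
    (fun N hN => hG N (hN.trans hmin)) hinj hv rfl
    (by
      rw [restrict_closure_eq M (subset_insert v (range ι)) hR]
      exact ⟨hvcl, mem_insert _ _⟩)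
    (by
      intro I
      rw [restrict_indep_iff, hO.rep _ (hJsub I), hind]
      exact ⟨fun h1 => h1.1, fun h1 => ⟨h1,
        (image_subset_range ι I).trans (subset_insert _ _)⟩⟩)
  refine ⟨p, hpP, ?_⟩
  intro I hI
  rw [hO.indep_insert_iff hI]
  refine and_congr_right fun hIi => ?_
  set J : Set (Fin c) := {i | ∃ x ∈ I, ∃ s : F4, s ≠ 0 ∧ f x = s • V i} with hJ
  have hspI : span F4 (f '' I) = span F4 (V '' J) := by
    refine le_antisymm (HA1_span ?_) (HA1_span ?_)
    · rintro _ ⟨x, hx, rfl⟩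
      by_cases hx0 : f x = 0
      · exact Or.inl hx0
      · right
        obtain ⟨i, s, hs0, hs⟩ := hcov x (hI hx) hx0
        exact ⟨V i, ⟨i, ⟨x, hx, s, hs0, hs⟩, rfl⟩, s, hs⟩
    · rintro _ ⟨i, ⟨x, hx, s, hs0, hs⟩, rfl⟩
      exact Or.inr ⟨f x, ⟨x, hx, rfl⟩, s⁻¹,
        by rw [hs, smul_smul, inv_mul_cancel₀ hs0, one_smul]⟩
  have hVJ : LinearIndepOn F4 V J := by
    have hchJ : ∀ i ∈ J, ∃ x, x ∈ I ∧ ∃ s : F4, s ≠ 0 ∧ f x = s • V i := fun i hi => hi
    have : Nonempty α := ⟨v⟩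
    choose! g hg hgs using hchJ
    have hginj : InjOn g J := by
      intro i hi j hj hij
      obtain ⟨s, hs0, hs⟩ := hgs i hi
      obtain ⟨t, -, ht⟩ := hgs j hj
      rw [hij] at hs
      exact hpar i j s t hs0 (by rw [← hs, ht])
    rw [← HA1_image hginj hgs]
    refine hIi.mono ?_
    rintro _ ⟨i, hi, rfl⟩
    exact hg i hi
  have hcl : M.closure I = M.closure (ι '' J) :=
    hO.closure_congr hI (hJsub J) (by rw [hspI, hspJ])
  have h1 := hp J
  rw [restrict_indep_iff, hO.indep_insert_iff (hJsub J), hind] at h1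
  rw [hcl, hspI]
  have hRJ : insert v (ι '' J) ⊆ insert v (range ι) :=
    insert_subset_insert (image_subset_range ι J)
  constructor
  · intro h2
    exact (h1.1 ⟨⟨hVJ, h2⟩, hRJ⟩).2
  · intro h2
    exact (h1.2 ⟨hVJ, h2⟩).1.2

end QG
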