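import Pool.Agent.Lib.QG.GA2
import Pool.Agent.Lib.QG.GA3
import Pool.Agent.Lib.QG.GB1

/-! MP_2e6874_co, part (B), row HA2: from coordinates to `VV` modulo `K`. -/

set_option autoImplicit false

namespace QG
open Set Matroid Submodule

/-- HA2. `Φ` vanishes on `K`, so it induces `π : VV ⧸ K → W`; `π` is injective on the span of the
images of `C ∪ P` since `x + Θ (Φ x) ∈ K` holds on the span of `C ∪ P` and `K ... ` (the set of `x` with
`x + Θ (Φ x) ∈ K` is a subspace; if moreover `Φ x = 0` then `x ∈ K`). Use `AThm.of_map` and `AThm.congr`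
(compare the proof of `AK.of_map`, row GB2). -/
theorem AK.of_coord {W : Type} [AddCommGroup W] [Module F4 W] {K : Submodule F4 VV}
    {C P : Set VV} {C' P' : Set W} (Φ : VV →ₗ[F4] W) (Θ : W →ₗ[F4] VV)
    (h1 : ∀ k ∈ K, Φ k = 0) (h3 : ∀ x ∈ C ∪ P, x + Θ (Φ x) ∈ K) (hC : Ln (Φ '' C) = Ln C')
    (hP : ∀ p' ∈ P', ∃ p ∈ P, ∃ s : F4, s ≠ 0 ∧ p' = s • Φ p) (h : AThm C' P') : AK K C P := by
  have hK : K ≤ LinearMap.ker Φ := fun k hk => LinearMap.mem_ker.2 (h1 k hk)
  have hπ : ∀ x, K.liftQ Φ hK (K.mkQ x) = Φ x := fun x => by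
    rw [Submodule.mkQ_apply, Submodule.liftQ_apply]
  have himg : ∀ A : Set VV, K.liftQ Φ hK '' (K.mkQ '' A) = Φ '' A := by
    intro A
    rw [image_image]
    exact image_congr fun x _ => hπ x
  refine AThm.of_map (K.liftQ Φ hK) ?_ ?_
  · intro x hx hx0
    rw [← image_union, ← Submodule.map_span] at hx
    obtain ⟨y, hy, rfl⟩ := hx
    have h4 : y + Θ (Φ y) ∈ K := by
      refine span_induction ?_ ?_ ?_ ?_ hy
      · intro z hz
        exact h3 z hz
      · rw [map_zero, map_zero, add_zero]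
        exact zero_mem _
      · intro a b _ _ ha hb
        rw [map_add, map_add, add_add_add_comm]
        exact add_mem ha hb
      · intro s a _ ha
        rw [map_smul, map_smul, ← smul_add]
        exact smul_mem _ s ha
    rw [hπ] at hx0
    rw [hx0, map_zero, add_zero] at h4
    rw [Submodule.mkQ_apply]
    exact (Submodule.Quotient.mk_eq_zero K).2 h4
  · rw [himg, himg]
    refine AThm.congr hC.symm ?_ h
    intro p' hp'
    obtain ⟨p, hp, s, hs, he⟩ := hP p' hp'
    exact ⟨Φ p, ⟨p, hp, rfl⟩, s, hs, he⟩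

end QG
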