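import Pool.Agent.Lib.QG.HA3

/-! MP_2e6874_co, part (B), row HA5: strands. -/

set_option autoImplicit false

namespace QG
open Set Matroid Submodule

/-- HA5a. -/
theorem SV_append (L L' : List (List F4)) : SV (L ++ L') = SV L ∪ SV L' := by
  ext x
  constructor
  · rintro ⟨l, hl, rfl⟩
    rcases List.mem_append.1 hl with h | h
    · exact Or.inl ⟨l, h, rfl⟩
    · exact Or.inr ⟨l, h, rfl⟩
  · rintro (⟨l, hl, rfl⟩ | ⟨l, hl, rfl⟩)
    · exact ⟨l, List.mem_append.2 (Or.inl hl), rfl⟩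
    · exact ⟨l, List.mem_append.2 (Or.inr hl), rfl⟩

theorem SV_nil : SV [] = ∅ := by
  ext x
  constructor
  · rintro ⟨l, hl, -⟩
    simp at hl
  · intro h
    exact h.elim

/-- HA5b. -/
theorem SV_bsL (b : Bool) (X : List (List F4)) : SV (bsL b X) = bs b (SV X) := by
  cases b
  · show SV [] = _
    rw [SV_nil]
    ext x
    constructor
    · intro h
      exact h.elim
    · rintro ⟨h, -⟩
      simp at h
  · show SV X = _
    ext x
    exact ⟨fun h => ⟨rfl, h⟩, fun h => h.2⟩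

theorem SV_cons (l : List F4) (L : List (List F4)) : SV (l :: L) = insert (dV l) (SV L) := by
  ext x
  constructor
  · rintro ⟨l', hl', rfl⟩
    rcases List.mem_cons.1 hl' with rfl | h
    · exact Or.inl rfl
    · exact Or.inr ⟨l', h, rfl⟩
  · rintro (rfl | ⟨l', hl', rfl⟩)
    · exact ⟨l, List.mem_cons_self, rfl⟩
    · exact ⟨l', List.mem_cons_of_mem _ hl', rfl⟩

/-- HA5c. -/
theorem MSC_eq (I : List ℕ) (m : ℕ → ℕ) (hm : ∀ i ∈ I, m i ≤ 5) (A B : ℕ → List F4)
    (C0 : List (List F4)) :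
    MSC I.toFinset m (fun i => dV (A i)) (fun i => dV (B i)) (SV C0) = SV (MSCL I m A B C0) := by
  have hu : ∀ i ∈ I, ∀ n ≤ m i, dV (msuL m A B i n) =
      msu m (fun i => dV (A i)) (fun i => dV (B i)) i n := by
    intro i hi n hn
    unfold msuL msu
    split_ifs with h1 h2
    · rfl
    · rfl
    · have := hm i hi
      exact dV_eL (by omega)
  unfold MSC MSCL
  rw [SV_append, SV_append]
  congr 1
  · congr 1
    ext x
    constructor
    · rintro ⟨i, hi, n, h0, hn, rfl⟩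
      rw [List.mem_toFinset] at hi
      have := hm i hi
      refine ⟨eL i n, List.mem_flatMap.2 ⟨i, hi, List.mem_map.2 ⟨n, ?_, rfl⟩⟩, ?_⟩
      · rw [List.mem_filter, List.mem_range]
        exact ⟨hn, by simpa using h0⟩
      · rw [dV_eL (by omega)]
    · rintro ⟨l, hl, rfl⟩
      obtain ⟨i, hi, hl⟩ := List.mem_flatMap.1 hl
      obtain ⟨n, hn, rfl⟩ := List.mem_map.1 hl
      rw [List.mem_filter, List.mem_range] at hn
      have := hm i hi
      refine ⟨i, List.mem_toFinset.2 hi, n, by simpa using hn.2, hn.1, ?_⟩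
      rw [dV_eL (by omega)]
  · ext x
    constructor
    · rintro ⟨i, hi, n, hn, rfl⟩
      rw [List.mem_toFinset] at hi
      refine ⟨_, List.mem_flatMap.2 ⟨i, hi, List.mem_map.2 ⟨n, List.mem_range.2 hn, rfl⟩⟩, ?_⟩
      rw [dV_addL, hu i hi n hn.le, hu i hi (n + 1) hn]
    · rintro ⟨l, hl, rfl⟩
      obtain ⟨i, hi, hl⟩ := List.mem_flatMap.1 hl
      obtain ⟨n, hn, rfl⟩ := List.mem_map.1 hl
      rw [List.mem_range] at hn
      refine ⟨i, List.mem_toFinset.2 hi, n, hn, ?_⟩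
      rw [dV_addL, hu i hi n hn.le, hu i hi (n + 1) hn]

end QG
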