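import Pool.Agent.Lib.QG.BC0
import Pool.Agent.Lib.QG.BaseA

/-!
MP_2e6874_co, part (B). Vectors of `VV` as lists; transfer of the extension theorems from coordinates
to the point sets. Definitions.
-/

set_option autoImplicit false

namespace QG
open Set Matroid Submodule

/-- the vector with the entries `l` at the coordinates number `j, j + 1, ...`; coordinate number `j` is
`(j / 5, j % 5)` -/
noncomputable def dVa : ℕ → List F4 → VV
  | _, [] => 0
  | j, s :: l => s • e (j / 5) (j % 5) + dVa (j + 1) l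

noncomputable def dV (l : List F4) : VV := dVa 0 l

/-- sum of two lists (the shorter one is extended by zeros) -/
def addL : List F4 → List F4 → List F4
  | [], y => y
  | x, [] => x
  | a :: x, b :: y => F4.add a b :: addL x y

def smL (s : F4) (x : List F4) : List F4 := x.map (F4.mul s)

/-- `e i n` -/
def eL (i n : ℕ) : List F4 := List.replicate (5 * i + n) F4.o ++ [F4.i]

/-- all entries are zero -/
def isz (x : List F4) : Bool := x.all (fun s => s == F4.o)

/-- `Σ x_j T_j` -/
def comb : List F4 → List (List F4) → List F4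
  | [], _ => []
  | _, [] => []
  | a :: x, t :: T => addL (smL a t) (comb x T)

/-- `x` is a nonzero multiple of `y` (both may be zero) -/
def par (x y : List F4) : Bool :=
  [F4.i, F4.w, F4.v].any (fun s => isz (addL x (smL s y)))

/-- the set of vectors of a list -/
def SV (L : List (List F4)) : Set VV := {x | ∃ l ∈ L, x = dV l}

/-- all linear combinations of the members of a list -/
def spanL : List (List F4) → List (List F4)
  | [] => [[]]
  | k :: K => (spanL K).flatMap (fun x => [F4.o, F4.i, F4.w, F4.v].map (fun s => addL (smL s k) x))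

/-- THE TRANSFER CHECK. `T`: images of the coordinate vectors in `F4^r`; `B`: images of the unit vectors
of `F4^r` in `VV`; `KL`, `CL`, `PL`: lists for `K`, `C`, `P`; `V`, `Q` the lists for which the extension theorem
is known. -/
def chkX (r : ℕ) (V Q T B KL CL PL : List (List F4)) : Bool :=
  T.all (fun t => t.length == r) && B.length == r && V.all (fun v => v.length == r) &&
  Q.all (fun v => v.length == r) &&
  KL.all (fun k => k.length ≤ T.length && isz (comb k T)) &&
  CL.all (fun x => x.length ≤ T.length && (spanL KL).any (fun k =>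
    isz (addL (addL x (comb (comb x T) B)) k))) &&
  PL.all (fun x => x.length ≤ T.length && (spanL KL).any (fun k =>
    isz (addL (addL x (comb (comb x T) B)) k))) &&
  V.all (fun v => !isz v && CL.any (fun c => par v (comb c T))) &&
  CL.all (fun c => V.any (fun v => par (comb c T) v)) &&
  Q.all (fun q => PL.any (fun p => par q (comb p T)))

/-! ### lists for the point sets -/

def msuL (m : ℕ → ℕ) (A B : ℕ → List F4) (i n : ℕ) : List F4 :=
  if n = 0 then A i else if n = m i then B i else eL i n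

def MSCL (I : List ℕ) (m : ℕ → ℕ) (A B : ℕ → List F4) (C0 : List (List F4)) : List (List F4) :=
  C0 ++ I.flatMap (fun i => ((List.range (m i)).filter (fun n => decide (0 < n))).map (fun n => eL i n)) ++
    I.flatMap (fun i => (List.range (m i)).map (fun n =>
      addL (msuL m A B i n) (msuL m A B i (n + 1))))

def bsL (b : Bool) (X : List (List F4)) : List (List F4) := if b then X else []

def ThCL (a b : Bool) (m : ℕ → ℕ) : List (List F4) :=
  MSCL [0, 1, 2] m (fun _ => eL 3 0) (fun i => smL (g3 i) (eL 3 1))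
    (bsL a [eL 3 0] ++ bsL b [eL 3 1])

def ThPL (a b : Bool) (m : ℕ → ℕ) : List (List F4) := ThCL a b m ++ [eL 3 0, eL 3 1, []]

def SX1L (n : ℕ) : List (List F4) :=
  [addL (addL (eL 3 0) (eL 3 1)) (eL 2 n), addL (addL (eL 3 0) (smL F4.w (eL 3 1))) (eL 2 n),
   addL (addL (eL 3 0) (eL 2 n)) (smL F4.v (eL 3 1)), addL (eL 3 0) (smL F4.w (eL 2 n)),
   addL (eL 3 0) (smL F4.v (eL 2 n))]

def SX0L : List (List F4) :=
  [addL (addL (smL F4.w (eL 3 0)) (smL F4.v (eL 3 1))) (eL 2 1),
   addL (addL (smL F4.v (eL 3 0)) (smL F4.v (eL 3 1))) (eL 2 1),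
   addL (addL (eL 3 0) (smL F4.v (eL 3 1))) (eL 2 1), addL (smL F4.w (eL 3 1)) (eL 2 1),
   addL (eL 3 1) (eL 2 1)]

def SpPL (a b : Bool) (m : ℕ) : List (List F4) :=
  ThCL a b (m11 m) ++ [eL 3 0, eL 3 1, []] ++ bsL (!b) (SX1L (m - 1)) ++ bsL (!a) SX0L

def LaBL (m : ℕ → ℕ) (i : ℕ) : List F4 := if m i = 0 then eL i 0 else eL (i + 4) 0

def LacL : List F4 := addL (addL (eL 0 0) (eL 1 0)) (eL 2 0)

def LacL' (m : ℕ → ℕ) : List F4 :=
  addL (addL (LaBL m 0) (smL F4.w (LaBL m 1))) (smL F4.v (LaBL m 2))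

def LaKL (a b : Bool) (m : ℕ → ℕ) : List (List F4) := bsL (!a) [LacL] ++ bsL (!b) [LacL' m]

def LaCL (a b : Bool) (m : ℕ → ℕ) : List (List F4) :=
  MSCL [0, 1, 2] m (fun i => eL i 0) (LaBL m)
    ([eL 0 0, LaBL m 0, eL 1 0, LaBL m 1, eL 2 0, LaBL m 2] ++ bsL a [LacL] ++ bsL b [LacL' m])

def LaPL (a b : Bool) (m : ℕ → ℕ) : List (List F4) :=
  LaCL a b m ++ bsL a [addL LacL (eL 0 0), addL LacL (eL 1 0), addL LacL (eL 2 0)] ++
    bsL b [addL (LacL' m) (smL (g3 0) (LaBL m 0)), addL (LacL' m) (smL (g3 1) (LaBL m 1)),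
      addL (LacL' m) (smL (g3 2) (LaBL m 2))] ++ [[]]

/-- `I` is a list of the legs without repetitions -/
def DecL (I : List ℕ) : List F4 := addL (eL 0 0) (I.foldr (fun i x => addL (eL i 0) x) [])

def DeKL (b : Bool) (I : List ℕ) : List (List F4) := bsL (!b) [DecL I]

def DeCL (g : F4) (a b : Bool) (I : List ℕ) (l : ℕ → ℕ) : List (List F4) :=
  MSCL I l (fun i => eL i 0) (fun _ => smL g (eL 0 0))
    (I.map (fun i => eL i 0) ++ bsL a [eL 0 0] ++ bsL b [DecL I])

def DePL (g : F4) (a b : Bool) (I : List ℕ) (l : ℕ → ℕ) : List (List F4) :=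
  DeCL g a b I l ++ [eL 0 0, []] ++
    bsL b (I.map (fun i => addL (DecL I) (eL i 0)) ++ [addL (DecL I) (smL g (eL 0 0))] ++
      (I.filter (fun i => decide (l i = 1))).map (fun i =>
        addL (addL (DecL I) (eL i 0)) (smL g (eL 0 0))))

def WhCL (r : ℕ) : List (List F4) :=
  MSCL [0] (fun _ => r) (fun _ => eL 0 0) (fun _ => smL F4.w (eL 0 0)) [eL 0 0]

def WhrL (r n : ℕ) : List F4 :=
  addL (eL 0 n) (if n + 1 = r then smL F4.w (eL 0 0) else eL 0 (n + 1))

def WhPL (r : ℕ) : List (List F4) :=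
  WhCL r ++ (List.range r).flatMap (fun j => (List.range j).map (fun i =>
      addL (eL 0 i) (smL F4.w (eL 0 j)))) ++
    (List.range r).flatMap (fun j => (List.range j).map (fun i =>
      addL (WhrL r i) (smL F4.w (WhrL r j)))) ++ [[]]

end QG
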