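import Pool.Agent.Lib.QG.JD

/-! MP_2e6874_co, part (B), row JA1: isomorphisms of labelled matroids. -/

set_option autoImplicit false

namespace QG
open Set Matroid Submodule

/-- JA1a. the masks of the bases: `V` has rank `k` -/
theorem RepL.em {α : Type} {M : Matroid α} {k : ℕ} {V : List (List F4)} (h : RepL k V M)
    (hex : ∃ m < 2 ^ V.length, detbR k (sel V m) = true) :
    ∃ e : Fin V.length → α, EM e (fun m => detbR k (sel V m)) M := by
  obtain ⟨ι, hι, hE, hi⟩ := h
  obtain ⟨m0, hm0, hd0⟩ := hex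
  rw [K2_detb_iff] at hd0
  have hfin : M.Finite := ⟨by rw [← hE]; exact finite_range ι⟩
  have hle : ∀ I, M.Indep I → I.ncard ≤ k := by
    intro I hI
    have h0 : ι '' (ι ⁻¹' I) = I :=
      image_preimage_eq_of_subset (by rw [hE]; exact hI.subset_ground)
    have h1 : LinearIndepOn F4 (vecL k V) (ι ⁻¹' I) := by
      rw [← hi, h0]
      exact hI
    have : Fintype (ι ⁻¹' I) := (Set.toFinite _).fintype
    have h2 := h1.linearIndependent.fintype_card_le_finrank
    rw [← Nat.card_eq_fintype_card, Nat.card_coe_set_eq, Module.finrank_fin_fun] at h2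
    rw [← h0, ncard_image_of_injective _ hι]
    exact h2
  have hi0 : M.Indep (ι '' bits V.length m0) := (hi _).2 hd0.2
  have hc0 : (ι '' bits V.length m0).ncard = k := by
    rw [ncard_image_of_injective _ hι]
    exact hd0.1
  have hb0 : M.IsBase (ι '' bits V.length m0) := by
    obtain ⟨B, hB, hB0⟩ := hi0.exists_isBase_superset
    have : ι '' bits V.length m0 = B := Set.eq_of_subset_of_ncard_le hB0
      ((hle B hB.indep).trans hc0.ge) (M.ground_finite.subset hB.subset_ground)
    rw [this]
    exact hB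
  refine ⟨ι, hι, hE, fun m _ => ?_⟩
  rw [K2_detb_iff]
  constructor
  · intro hB
    refine ⟨?_, (hi _).1 hB.indep⟩
    rw [← ncard_image_of_injective (bits V.length m) hι]
    exact (hB.ncard_eq_ncard_of_isBase hb0).trans hc0
  · rintro ⟨h1, h2⟩
    have h3 : M.Indep (ι '' bits V.length m) := (hi _).2 h2
    obtain ⟨B', hB', hB0⟩ := h3.exists_isBase_superset
    have h4 : (ι '' bits V.length m).ncard = k := by
      rw [ncard_image_of_injective _ hι, h1]
    have : ι '' bits V.length m = B' := Set.eq_of_subset_of_ncard_le hB0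
      ((hle B' hB'.indep).trans h4.ge) (M.ground_finite.subset hB'.subset_ground)
    rw [this]
    exact hB'

/-- there is a mask with value `true` -/
private theorem JA1_ex {α : Type} {M : Matroid α} {n : ℕ} {b : ℕ → Bool} {e : Fin n → α}
    (h : EM e b M) : ∃ m < 2 ^ n, b m = true := by
  obtain ⟨B, hB⟩ := M.exists_isBase
  obtain ⟨m, hm, hmB⟩ := K1_exists_bits n (e ⁻¹' B)
  refine ⟨m, hm, (h.2.2 m hm).1 ?_⟩
  rw [hmB, image_preimage_eq_of_subset (by rw [h.2.1]; exact hB.subset_ground)]
  exact hB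

/-- JA1b. the converse (`M.Indep` is determined by the bases, `EM.indep`; the same for the matroid of `V`,
`K2_em`) -/
theorem EM.repL {α : Type} {M : Matroid α} {k : ℕ} {V : List (List F4)} {e : Fin V.length → α}
    (h : EM e (fun m => detbR k (sel V m)) M) : RepL k V M := by
  have hE := K2_em k V (JA1_ex h)
  refine ⟨e, h.1, h.2.1, fun I => ?_⟩
  rw [h.indep I, ← hE.indep I, image_id, LM_indep]
  simp only [Finset.coe_univ, subset_univ, true_and]

/-- JA1c. an isomorphism of mask functions carries `EM` to `EM` (see the proof of `EM.miso`) -/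
theorem EM.perm {α : Type} {M : Matroid α} {n : ℕ} {b b' : ℕ → Bool} {e : Fin n → α}
    (h : EM e b M) (σ : List ℕ) (hc : chkIso n b b' σ = true) : ∃ e' : Fin n → α, EM e' b' M := by
  simp only [chkIso, Bool.and_eq_true, beq_iff_eq, List.all_eq_true, List.mem_range,
    decide_eq_true_eq] at hc
  obtain ⟨⟨⟨hl, hnd⟩, hlt⟩, hm⟩ := hc
  subst hl
  let s : Fin σ.length → Fin σ.length := fun i => ⟨σ.get i, hlt _ (List.get_mem σ i)⟩
  have hs : Function.Injective s := by
    intro i j hij
    exact (List.nodup_iff_injective_get.1 hnd) (congrArg Fin.val hij)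
  have hsur : Function.Surjective s := Finite.surjective_of_injective hs
  have hbits : ∀ m, bits σ.length (pmask σ m) = s '' bits σ.length m := by
    intro m
    ext j
    simp only [bits, mem_ofPred_eq, mem_image]
    rw [K2_testBit_pmask]
    constructor
    · rintro ⟨i, hi, hij⟩; exact ⟨i, hi, Fin.ext hij⟩
    · rintro ⟨i, hi, hij⟩; exact ⟨i, hi, congrArg Fin.val hij⟩
  have hpm : ∀ m, pmask σ m < 2 ^ σ.length := by
    intro m
    apply Nat.lt_pow_two_of_testBit
    intro j hj
    rw [Bool.eq_false_iff]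
    intro h
    rw [K2_testBit_pmask] at h
    obtain ⟨i, _, rfl⟩ := h
    have := hlt _ (List.get_mem σ i)
    omega
  let t : Fin σ.length ≃ Fin σ.length := Equiv.ofBijective s ⟨hs, hsur⟩
  have ht : ∀ i, t.symm (s i) = i := fun i => t.symm_apply_apply i
  have hst : ∀ i, s (t.symm i) = i := fun i => t.apply_symm_apply i
  refine ⟨fun i => e (t.symm i), fun i j hij => t.symm.injective (h.1 hij), ?_, ?_⟩
  · rw [← h.2.1]
    exact t.symm.surjective.range_comp e
  · intro m' hm'
    obtain ⟨m, hm1, hm2⟩ := K1_exists_bits σ.length (s ⁻¹' bits σ.length m')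
    have h1 : bits σ.length (pmask σ m) = bits σ.length m' := by
      rw [hbits, hm2, image_preimage_eq _ hsur]
    have h2 : pmask σ m = m' := by
      refine Nat.eq_of_testBit_eq fun j => ?_
      by_cases hj : j < σ.length
      · have h3 : (⟨j, hj⟩ : Fin σ.length) ∈ bits σ.length (pmask σ m) ↔
          (⟨j, hj⟩ : Fin σ.length) ∈ bits σ.length m' := by rw [h1]
        exact Bool.eq_iff_iff.2 h3
      · have hmj : 2 ^ σ.length ≤ 2 ^ j := Nat.pow_le_pow_right (by norm_num) (not_lt.1 hj)
        rw [Nat.testBit_lt_two_pow ((hpm m).trans_le hmj),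
          Nat.testBit_lt_two_pow (hm'.trans_le hmj)]
    have h3 : (fun i => e (t.symm i)) '' bits σ.length m' = e '' bits σ.length m := by
      rw [hm2]
      ext a
      constructor
      · rintro ⟨i, hi, rfl⟩
        refine ⟨t.symm i, ?_, rfl⟩
        change s (t.symm i) ∈ bits σ.length m'
        rw [hst]
        exact hi
      · rintro ⟨i, hi, rfl⟩
        refine ⟨s i, hi, ?_⟩
        change e (t.symm (s i)) = e i
        rw [ht]
    rw [h3, h.2.2 m hm1, hm m hm1, h2]

private theorem JA1_cast {α : Type} {M : Matroid α} {k n : ℕ} {V : List (List F4)}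
    (hn : n = V.length) {e : Fin n → α} (h : EM e (fun m => detbR k (sel V m)) M) :
    RepL k V M := by
  subst hn
  exact h.repL

/-- JA1d. -/
theorem RepL.iso {α : Type} {M : Matroid α} {k : ℕ} {V V' : List (List F4)} {σ : List ℕ}
    (hc : chkV k V V' σ = true) (h : RepL k V M) : RepL k V' M := by
  simp only [chkV, Bool.and_eq_true, beq_iff_eq, List.any_eq_true, List.mem_range] at hc
  obtain ⟨⟨hl, hex⟩, hiso⟩ := hc
  obtain ⟨e, he⟩ := h.em hex
  obtain ⟨e', he'⟩ := he.perm σ hiso
  exact JA1_cast hl he'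

/-- JA1e. `EM.dual` -/
theorem RepL.of_dual {α : Type} {M : Matroid α} {k k' : ℕ} {V V' : List (List F4)} {σ : List ℕ}
    (hc : chkDu k k' V V' σ = true) (h : RepL k V M✶) : RepL k' V' M := by
  simp only [chkDu, Bool.and_eq_true, beq_iff_eq, List.any_eq_true, List.mem_range] at hc
  obtain ⟨⟨hl, hex⟩, hiso⟩ := hc
  obtain ⟨e, he⟩ := h.em hex
  have h1 := he.dual
  rw [dual_dual] at h1
  obtain ⟨e', he'⟩ := h1.perm σ hiso
  exact JA1_cast hl he'

/-- JA1f. `K2_qgam`, `MIso` -/
theorem RepL.qgam {α : Type} {M : Matroid α} {k : ℕ} {V : List (List F4)} {d : Bool} {r : ℕ}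
    {R : List ℕ} (hc : chkR k V d r R = true) (h : RepL k V M) : QGam M := by
  have hq := K2_qgam k V d r R hc
  simp only [chkR, Bool.and_eq_true, beq_iff_eq, List.any_eq_true,
    List.mem_range, decide_eq_true_eq] at hc
  obtain ⟨⟨⟨hR, hr⟩, hex⟩, hT⟩ := hc
  obtain ⟨e, he⟩ := h.em hex
  have hE := K2_em k V hex
  exact QGam.of_iso (he.miso_same hE (fun _ _ => rfl)) hq

end QG
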