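import Pool.Agent.Lib.QG.HD

/-!
MP_2e6874_co, part (B). Lists of the 3-connected good matroids with at most eight elements.
Definitions.
-/

set_option autoImplicit false

namespace QG
open Set Matroid Submodule

/-- `M` is represented by the vectors `V` (of length `k`) -/
def RepL (k : ℕ) (V : List (List F4)) {α : Type} (M : Matroid α) : Prop :=
  ∃ ι : Fin V.length → α, Function.Injective ι ∧ range ι = M.E ∧
    ∀ I : Set (Fin V.length), M.Indep (ι '' I) ↔ LinearIndepOn F4 (vecL k V) I

/-- the matroid of `V` (rank `k`) is isomorphic to the matroid of `V'` by `σ` (element `i` of `V` is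
mapped to element number `σ_i` of `V'`) -/
def chkV (k : ℕ) (V V' : List (List F4)) (σ : List ℕ) : Bool :=
  V.length == V'.length && (List.range (2 ^ V.length)).any (fun m => detbR k (sel V m)) &&
    chkIso V.length (fun m => detbR k (sel V m)) (fun m => detbR k (sel V' m)) σ

/-- the dual of the matroid of `V` (rank `k`) is isomorphic to the matroid of `V'` (rank `k'`) by `σ` -/
def chkDu (k k' : ℕ) (V V' : List (List F4)) (σ : List ℕ) : Bool :=
  V.length == V'.length && (List.range (2 ^ V.length)).any (fun m => detbR k (sel V m)) &&
    chkIso V.length (fun m => detbR k (sel V (2 ^ V.length - 1 - m)))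
      (fun m => detbR k' (sel V' m)) σ

/-- `M` is one of the matroids of the list -/
def InL (L : List (ℕ × List (List F4))) {α : Type} (M : Matroid α) : Prop :=
  ∃ q ∈ L, RepL q.1 q.2 M

/-- `p` is zero or parallel to a member of `V` -/
def parV (V : List (List F4)) (p : List F4) : Bool := isz p || V.any (fun v => par v p)

/-- each of the extensions `V ++ [p]`, `p ∈ P`, is not simple or isomorphic to a member of `L`; `C` is the
list of the numbers of the members and of the isomorphisms -/
def chkS (k : ℕ) (V P : List (List F4)) (L : List (ℕ × List (List F4))) (C : List (ℕ × List ℕ)) :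
    Bool :=
  P.all (fun p => p.length == k) && V.all (fun p => p.length == k) && C.length == P.length &&
  (P.zip C).all (fun q => parV V q.1 || ((L.getD q.2.1 (0, [])).1 == k && decide (q.2.1 < L.length) &&
    chkV k (V ++ [q.1]) (L.getD q.2.1 (0, [])).2 q.2.2))

/-- the duals of the members of `L` are isomorphic to members of `L` -/
def chkLD (L : List (ℕ × List (List F4))) (C : List (ℕ × List ℕ)) : Bool :=
  C.length == L.length &&
  (L.zip C).all (fun q => decide (q.2.1 < L.length) &&
    chkDu q.1.1 (L.getD q.2.1 (0, [])).1 q.1.2 (L.getD q.2.1 (0, [])).2 q.2.2)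

end QG
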