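import Pool.Agent.Lib.QG.JL00
import Pool.Agent.Lib.QG.BT1
import Pool.Agent.Lib.QG.BT2

/-! MP_2e6874_co, part (B): lists of the small 3-connected good matroids. Data. -/

set_option autoImplicit false

namespace QG
open Set Matroid Submodule

def JL_4 : List (ℕ × List (List F4)) :=
  [(2, sV_n4_0)]

def JL_5 : List (ℕ × List (List F4)) :=
  [(2, sV_n5_0), (3, sV_n5_1)]

def JL_6 : List (ℕ × List (List F4)) :=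
  [(3, sV_n6_0), (3, sV_n6_1), (3, sV_n6_2)]

def JL_7 : List (ℕ × List (List F4)) :=
  [(3, sV_n7_0), (3, sV_n7_1), (3, sV_n7_2), (4, sV_n7_3), (4, sV_n7_4), (4, sV_n7_5)]

def JL_8 : List (ℕ × List (List F4)) :=
  [(4, tV_w4), (4, tV_s10_3), (4, tV_th10_122), (4, tV_la10_011), (4, tV_de00_22), (4, tV_de00_211), (4, tV_de00_1111), (4, tV_de11_111), (4, sV_sp0), (4, sV_sp1), (4, sV_sp2)]

def JP_4 (j : ℕ) : List (List F4) := [sP_n4_0].getD j []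

def JP_5 (j : ℕ) : List (List F4) := [sP_n5_0, sP_n5_1].getD j []

def JP_6 (j : ℕ) : List (List F4) := [sP_n6_0, sP_n6_1, sP_n6_2].getD j []

def JP_7 (j : ℕ) : List (List F4) := [sP_n7_0, sP_n7_1, sP_n7_2, sP_n7_3, sP_n7_4, sP_n7_5].getD j []

def JDu_5 : List (ℕ × List ℕ) :=
  [(1, [0, 1, 2, 3, 4]), (0, [0, 1, 2, 3, 4])]

def JDu_6 : List (ℕ × List ℕ) :=
  [(0, [0, 5, 2, 3, 4, 1]), (1, [0, 1, 2, 3, 4, 5]), (2, [3, 4, 5, 1, 2, 0])]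

def JDu_7 : List (ℕ × List ℕ) :=
  [(3, [0, 1, 4, 2, 3, 5, 6]), (4, [0, 1, 2, 3, 4, 5, 6]), (5, [0, 1, 2, 3, 4, 5, 6]), (0, [0, 1, 3, 4, 2, 5, 6]), (1, [0, 1, 2, 3, 4, 5, 6]), (2, [0, 1, 2, 3, 4, 5, 6])]

def JDu_8 : List (ℕ × List ℕ) :=
  [(0, [4, 5, 6, 7, 1, 2, 3, 0]), (1, [7, 6, 5, 3, 4, 2, 1, 0]), (3, [5, 6, 7, 0, 1, 2, 3, 4]), (2, [3, 4, 5, 6, 7, 0, 1, 2]), (4, [5, 7, 4, 6, 2, 0, 3, 1]), (5, [5, 1, 2, 4, 3, 0, 6, 7]), (6, [0, 1, 2, 3, 4, 5, 6, 7]), (7, [0, 1, 2, 4, 3, 5, 6, 7]), (8, [2, 3, 0, 1, 5, 4, 6, 7]), (9, [2, 6, 0, 3, 5, 4, 1, 7]), (10, [0, 6, 7, 3, 5, 4, 1, 2])]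

end QG
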