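import Pool.Agent.Lib.QG.K1a
set_option autoImplicit false

/-! Row K1 (helper49). Certificates, part c. -/

namespace QG
open Set Matroid

section data
variable {α : Type} {M : Matroid α}

def cdE8b : List Cert := [
  ⟨false, 3, [[.i, .o, .o], [.o, .i, .o], [.o, .o, .i], [.i, .i, .i], [.i, .w, .v], [.i, .v, .w], [.i, .o, .v]], true, 4, [3, 5, 3, 9, 4, 8, 14]⟩,
  ⟨false, 3, [[.i, .o, .o], [.o, .i, .o], [.o, .o, .i], [.i, .o, .i], [.i, .i, .w], [.i, .w, .v], [.i, .v, .w]], true, 4, [3, 4, 1, 9, 6, 10, 12]⟩,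
  ⟨false, 3, [[.i, .o, .o], [.o, .i, .o], [.o, .o, .i], [.i, .o, .i], [.i, .i, .w], [.i, .w, .v], [.o, .i, .i]], true, 4, [3, 4, 5, 9, 2, 10, 12]⟩,
  ⟨false, 3, [[.i, .o, .o], [.o, .i, .o], [.i, .i, .o], [.o, .o, .i], [.i, .w, .i], [.i, .v, .w], [.i, .v, .v]], true, 4, [3, 1, 5, 8, 6, 10, 12]⟩,
  ⟨false, 3, [[.i, .o, .o], [.o, .i, .o], [.i, .i, .o], [.o, .o, .i], [.i, .w, .i], [.i, .v, .w], [.o, .i, .w]], true, 4, [3, 5, 9, 4, 10, 2, 12]⟩,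
  ⟨false, 3, [[.i, .o, .o], [.o, .i, .o], [.i, .i, .o], [.o, .o, .i], [.i, .o, .i], [.i, .w, .w], [.o, .i, .w]], true, 4, [3, 5, 1, 6, 10, 8, 12]⟩,
  ⟨false, 3, [[.i, .o, .o], [.o, .i, .o], [.i, .i, .o], [.o, .o, .i], [.i, .o, .i], [.i, .w, .w], [.o, .i, .v]], true, 4, [3, 5, 9, 6, 2, 8, 12]⟩,
  ⟨false, 3, [[.i, .o, .o], [.o, .i, .o], [.i, .i, .o], [.o, .o, .i], [.i, .o, .i], [.i, .w, .w], [.i, .v, .v]], true, 4, [15, 5, 1, 6, 2, 12, 8]⟩]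

def ccE8b : List Cert := [
  ⟨false, 2, [[.i, .o], [.i, .o], [.o, .i], [.o, .i], [.i, .i], [.i, .i], [.i, .w]], true, 5, [21, 1, 22, 2, 12, 8, 16]⟩,
  ⟨false, 2, [[.i, .o], [.i, .o], [.o, .i], [.i, .i], [.i, .w], [.i, .v], [.o, .i]], false, 2, [1, 1, 2, 3, 3, 3, 2]⟩,
  ⟨false, 2, [[.i, .o], [.i, .o], [.o, .i], [.i, .i], [.i, .w], [.i, .v], [.i, .w]], false, 2, [1, 1, 3, 3, 2, 3, 2]⟩,
  ⟨false, 2, [[.i, .o], [.o, .i], [.i, .i], [.i, .o], [.i, .w], [.i, .v], [.o, .i]], false, 2, [1, 2, 3, 1, 3, 3, 2]⟩,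
  ⟨false, 2, [[.i, .o], [.o, .i], [.i, .i], [.i, .o], [.i, .w], [.i, .v], [.i, .v]], false, 2, [1, 3, 3, 1, 3, 2, 2]⟩,
  ⟨false, 2, [[.i, .o], [.o, .i], [.i, .i], [.i, .w], [.i, .v], [.i, .o], [.i, .i]], false, 2, [1, 3, 2, 3, 3, 1, 2]⟩,
  ⟨false, 2, [[.i, .o], [.o, .i], [.i, .i], [.i, .w], [.i, .v], [.i, .o], [.i, .v]], false, 2, [1, 3, 3, 3, 2, 1, 2]⟩,
  ⟨false, 2, [[.i, .o], [.o, .i], [.i, .i], [.o, .i], [.i, .w], [.i, .i], [.i, .w]], true, 5, [5, 7, 9, 2, 20, 8, 16]⟩]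

theorem K1_chk_E8b : chkAll 7 (bL 8 3 [7, 25, 97, 208, 138, 164]) cdE8b ccE8b = true := by
  decide +kernel

theorem sm_E8b (h : IsL 8 3 LE8b M) : ∀ x ∈ M.E, QGam (M ＼ {x}) ∧ QGam (M ／ {x}) := by
  obtain ⟨e, he⟩ := K1_em h [7, 25, 97, 208, 138, 164] (by decide +kernel)
  exact he.all _ _ K1_chk_E8b

def cdX8 : List Cert := [
  ⟨true, 3, [[.i, .o, .o], [.o, .i, .o], [.o, .o, .i], [.i, .o, .i], [.i, .i, .i], [.i, .w, .o], [.i, .i, .v]], false, 4, [5, 6, 9, 3, 10, 4, 8]⟩,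
  ⟨true, 3, [[.i, .o, .o], [.o, .i, .o], [.o, .o, .i], [.o, .o, .i], [.o, .i, .i], [.i, .i, .o], [.i, .i, .w]], false, 4, [4, 6, 11, 1, 2, 12, 8]⟩,
  ⟨true, 3, [[.i, .o, .o], [.o, .i, .o], [.o, .o, .i], [.o, .i, .i], [.o, .i, .i], [.i, .i, .o], [.i, .w, .i]], false, 4, [12, 13, 9, 3, 2, 4, 8]⟩,
  ⟨true, 3, [[.i, .o, .o], [.o, .i, .o], [.o, .o, .i], [.o, .i, .o], [.o, .i, .i], [.i, .i, .w], [.i, .w, .w]], false, 4, [4, 11, 2, 1, 6, 8, 12]⟩,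
  ⟨true, 3, [[.i, .o, .o], [.o, .i, .o], [.o, .o, .i], [.o, .i, .o], [.o, .o, .i], [.i, .i, .i], [.i, .w, .i]], false, 4, [4, 13, 6, 1, 2, 12, 8]⟩,
  ⟨true, 3, [[.i, .o, .o], [.o, .i, .o], [.o, .o, .i], [.o, .i, .i], [.o, .o, .i], [.i, .i, .v], [.i, .w, .w]], false, 4, [12, 5, 7, 9, 2, 4, 8]⟩,
  ⟨true, 3, [[.i, .o, .o], [.o, .i, .o], [.i, .i, .o], [.o, .o, .i], [.o, .i, .i], [.i, .w, .v], [.o, .i, .v]], false, 4, [1, 11, 5, 10, 6, 4, 8]⟩,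
  ⟨true, 3, [[.i, .o, .o], [.o, .i, .o], [.o, .o, .i], [.i, .i, .i], [.i, .w, .i], [.i, .w, .w], [.i, .v, .i]], false, 4, [2, 9, 4, 11, 5, 6, 8]⟩]

def ccX8 : List Cert := [
  ⟨false, 3, [[.i, .o, .o], [.o, .i, .o], [.o, .o, .i], [.i, .i, .i], [.o, .i, .o], [.i, .o, .w], [.i, .o, .w]], false, 3, [5, 2, 5, 3, 2, 4, 4]⟩,
  ⟨false, 3, [[.i, .o, .o], [.o, .i, .o], [.o, .o, .i], [.i, .i, .i], [.i, .w, .o], [.i, .o, .i], [.i, .o, .w]], false, 3, [2, 1, 6, 5, 3, 4, 6]⟩,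
  ⟨false, 3, [[.i, .o, .o], [.o, .i, .o], [.o, .o, .i], [.i, .i, .i], [.i, .o, .o], [.i, .w, .i], [.i, .v, .w]], false, 3, [2, 5, 7, 1, 2, 4, 6]⟩,
  ⟨false, 3, [[.i, .o, .o], [.o, .i, .o], [.o, .o, .i], [.i, .i, .i], [.i, .o, .w], [.i, .w, .o], [.i, .v, .o]], false, 3, [2, 6, 3, 5, 1, 6, 4]⟩,
  ⟨false, 3, [[.i, .o, .o], [.o, .i, .o], [.o, .o, .i], [.i, .i, .i], [.i, .o, .w], [.o, .i, .w], [.i, .w, .v]], true, 4, [9, 2, 3, 4, 5, 10, 12]⟩,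
  ⟨false, 3, [[.i, .o, .o], [.o, .i, .o], [.i, .o, .o], [.o, .o, .i], [.i, .i, .i], [.i, .w, .v], [.i, .i, .w]], false, 3, [2, 7, 2, 5, 1, 6, 4]⟩,
  ⟨false, 3, [[.i, .o, .o], [.o, .i, .o], [.o, .o, .i], [.i, .i, .o], [.o, .i, .i], [.i, .o, .w], [.i, .o, .o]], false, 3, [4, 1, 2, 5, 3, 6, 4]⟩,
  ⟨false, 3, [[.i, .o, .o], [.o, .i, .o], [.o, .o, .i], [.i, .i, .o], [.i, .w, .i], [.i, .o, .w], [.i, .o, .o]], false, 3, [4, 5, 6, 1, 3, 2, 4]⟩]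

theorem K1_chk_X8 : chkAll 7 (bL 8 4 [39, 75, 139, 195, 45, 53, 101, 165, 197, 201, 209, 225, 86, 202, 228, 184]) cdX8 ccX8 = true := by
  decide +kernel

theorem sm_X8 (h : IsL 8 4 LX8 M) : ∀ x ∈ M.E, QGam (M ＼ {x}) ∧ QGam (M ／ {x}) := by
  obtain ⟨e, he⟩ := K1_em h [39, 75, 139, 195, 45, 53, 101, 165, 197, 201, 209, 225, 86, 202, 228, 184] (by decide +kernel)
  exact he.all _ _ K1_chk_X8

def cdP8 : List Cert := [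
  ⟨true, 3, [[.i, .o, .o], [.o, .i, .o], [.o, .o, .i], [.i, .i, .o], [.i, .o, .i], [.o, .i, .w], [.i, .w, .w]], false, 4, [3, 5, 6, 1, 10, 12, 8]⟩,
  ⟨true, 3, [[.i, .o, .o], [.o, .i, .o], [.o, .o, .i], [.i, .i, .o], [.i, .o, .i], [.i, .w, .w], [.o, .i, .v]], false, 4, [3, 5, 6, 9, 2, 8, 12]⟩,
  ⟨true, 3, [[.i, .o, .o], [.o, .i, .o], [.o, .o, .i], [.i, .i, .o], [.i, .w, .i], [.i, .o, .v], [.o, .i, .w]], false, 4, [3, 5, 6, 9, 8, 2, 12]⟩,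
  ⟨true, 3, [[.i, .o, .o], [.o, .i, .o], [.o, .o, .i], [.i, .i, .i], [.i, .w, .o], [.i, .o, .v], [.o, .i, .v]], false, 4, [3, 9, 10, 4, 5, 6, 8]⟩,
  ⟨true, 3, [[.i, .o, .o], [.o, .i, .o], [.i, .i, .o], [.o, .o, .i], [.i, .w, .i], [.i, .w, .v], [.i, .v, .v]], false, 4, [1, 9, 5, 2, 6, 10, 12]⟩,
  ⟨true, 3, [[.i, .o, .o], [.o, .i, .o], [.o, .o, .i], [.i, .i, .o], [.i, .w, .i], [.i, .v, .v], [.i, .w, .w]], false, 4, [9, 1, 4, 3, 6, 10, 12]⟩,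
  ⟨true, 3, [[.i, .o, .o], [.o, .i, .o], [.o, .o, .i], [.i, .o, .i], [.i, .i, .v], [.i, .w, .w], [.i, .v, .v]], false, 4, [9, 4, 1, 3, 6, 10, 12]⟩,
  ⟨true, 3, [[.i, .o, .o], [.o, .i, .o], [.o, .o, .i], [.o, .i, .i], [.i, .i, .v], [.i, .i, .w], [.i, .w, .v]], false, 4, [8, 5, 3, 1, 6, 10, 12]⟩]

def ccP8 : List Cert := [
  ⟨false, 3, [[.i, .o, .o], [.o, .i, .o], [.o, .o, .i], [.i, .i, .i], [.o, .i, .v], [.i, .o, .w], [.i, .w, .o]], true, 4, [10, 9, 3, 4, 5, 6, 8]⟩,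
  ⟨false, 3, [[.i, .o, .o], [.o, .i, .o], [.o, .o, .i], [.o, .i, .i], [.i, .i, .v], [.i, .o, .i], [.i, .w, .o]], true, 4, [6, 5, 3, 9, 8, 2, 12]⟩,
  ⟨false, 3, [[.i, .o, .o], [.o, .i, .o], [.o, .o, .i], [.o, .i, .i], [.i, .o, .i], [.i, .i, .v], [.i, .w, .o]], true, 4, [6, 5, 3, 9, 2, 8, 12]⟩,
  ⟨false, 3, [[.i, .o, .o], [.o, .i, .o], [.o, .o, .i], [.o, .i, .i], [.i, .o, .w], [.i, .i, .o], [.i, .w, .i]], true, 4, [6, 5, 3, 1, 10, 12, 8]⟩,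
  ⟨false, 3, [[.i, .o, .o], [.o, .i, .o], [.o, .o, .i], [.o, .i, .i], [.i, .i, .v], [.i, .w, .i], [.i, .w, .v]], true, 4, [2, 5, 9, 1, 6, 10, 12]⟩,
  ⟨false, 3, [[.i, .o, .o], [.o, .i, .o], [.o, .o, .i], [.i, .o, .i], [.i, .i, .w], [.i, .w, .v], [.i, .v, .w]], true, 4, [3, 4, 1, 9, 6, 10, 12]⟩,
  ⟨false, 3, [[.i, .o, .o], [.o, .i, .o], [.o, .o, .i], [.i, .i, .o], [.i, .w, .i], [.i, .v, .w], [.i, .w, .v]], true, 4, [3, 1, 4, 9, 6, 10, 12]⟩,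
  ⟨false, 3, [[.i, .o, .o], [.o, .i, .o], [.i, .i, .o], [.o, .o, .i], [.i, .w, .i], [.i, .v, .i], [.i, .v, .v]], true, 4, [1, 3, 5, 8, 6, 10, 12]⟩]

theorem K1_chk_P8 : chkAll 7 (bL 8 4 [135, 75, 45, 113, 30, 178, 212, 232]) cdP8 ccP8 = true := by
  decide +kernel

theorem sm_P8 (h : IsL 8 4 LP8 M) : ∀ x ∈ M.E, QGam (M ＼ {x}) ∧ QGam (M ／ {x}) := by
  obtain ⟨e, he⟩ := K1_em h [135, 75, 45, 113, 30, 178, 212, 232] (by decide +kernel)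
  exact he.all _ _ K1_chk_P8

end data

end QG
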