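import Pool.Agent.Lib.QG.K1b
import Pool.Agent.Lib.QG.K1c
set_option autoImplicit false

/-! Row K1 (helper49). One-element deletions and contractions of the eight matroids are quaternary
gammoids: theorems sm_U26, sm_P6, sm_K4, sm_A7, sm_E8a (K1b), sm_E8b, sm_X8, sm_P8 (K1c). -/
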