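import Pool.Agent.Lib.QG.A4
import Pool.Agent.Lib.QG.B2
import Pool.Agent.Lib.QG.D1
set_option autoImplicit false

/-! Row K1 (helper49). One-element deletions and contractions of the eight matroids are quaternary
gammoids (certificates, kernel computation). -/

namespace QG
open Set Matroid

/-! ### the field with four elements -/

inductive F4 | o | i | w | v
deriving DecidableEq

namespace F4

def add : F4 → F4 → F4
  | o, x => x
  | x, o => x
  | i, i => o | i, w => v | i, v => w
  | w, i => v | w, w => o | w, v => i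
  | v, i => w | v, w => i | v, v => o

def mul : F4 → F4 → F4
  | o, _ => o
  | _, o => o
  | i, x => x
  | x, i => x
  | w, w => v | w, v => i
  | v, w => i | v, v => w

def inv : F4 → F4
  | o => o | i => i | w => v | v => w

instance : Fintype F4 := ⟨{o, i, w, v}, by intro x; cases x <;> decide⟩

instance : Zero F4 := ⟨o⟩
instance : One F4 := ⟨i⟩
instance : Add F4 := ⟨add⟩
instance : Mul F4 := ⟨mul⟩
instance : Neg F4 := ⟨id⟩
instance : Inv F4 := ⟨inv⟩

instance : Field F4 where
  add_assoc := by intro a b c; cases a <;> cases b <;> cases c <;> rfl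
  zero_add := by intro a; cases a <;> rfl
  add_zero := by intro a; cases a <;> rfl
  add_comm := by intro a b; cases a <;> cases b <;> rfl
  neg_add_cancel := by intro a; cases a <;> rfl
  mul_assoc := by intro a b c; cases a <;> cases b <;> cases c <;> rfl
  one_mul := by intro a; cases a <;> rfl
  mul_one := by intro a; cases a <;> rfl
  zero_mul := by intro a; cases a <;> rfl
  mul_zero := by intro a; cases a <;> rfl
  mul_comm := by intro a b; cases a <;> cases b <;> rfl
  left_distrib := by intro a b c; cases a <;> cases b <;> cases c <;> rfl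
  right_distrib := by intro a b c; cases a <;> cases b <;> cases c <;> rfl
  mul_inv_cancel := by intro a h; cases a <;> first | rfl | exact absurd rfl h
  inv_zero := rfl
  exists_pair_ne := ⟨o, i, by decide⟩
  nsmul := nsmulRec
  zsmul := zsmulRec
  nnqsmul := _
  nnqsmul_def := fun _ _ => rfl
  qsmul := _
  qsmul_def := fun _ _ => rfl

theorem card : Nat.card F4 = 4 := by
  rw [Nat.card_eq_fintype_card]; rfl

end F4

/-! ### bit masks -/

/-- the set with mask m -/
def bits (n m : ℕ) : Set (Fin n) := {i | m.testBit i = true}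

theorem K1_exists_bits (n : ℕ) (B : Set (Fin n)) : ∃ m, m < 2 ^ n ∧ bits n m = B := by
  classical
  have key : ∀ B : Finset (Fin n), ∃ m, m < 2 ^ n ∧ bits n m = (B : Set (Fin n)) := by
    intro B
    induction B using Finset.induction_on with
    | empty => exact ⟨0, by positivity, by ext i; simp [bits]⟩
    | insert a B _ ih =>
      obtain ⟨m, hm, hB⟩ := ih
      refine ⟨m ||| 2 ^ (a : ℕ), ?_, ?_⟩
      · exact Nat.or_lt_two_pow hm (Nat.pow_lt_pow_right (by norm_num) a.2)
      · ext i
        have h1 : (i ∈ bits n m) ↔ i ∈ B := by rw [hB]; simp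
        simp only [bits, mem_ofPred_eq] at h1
        simp only [bits, mem_ofPred_eq, Nat.testBit_or, Bool.or_eq_true, h1, Nat.testBit_two_pow,
          decide_eq_true_eq, Finset.coe_insert, mem_insert_iff, Finset.mem_coe]
        rw [or_comm]
        constructor
        · rintro (h | h)
          · exact Or.inl (Fin.ext h.symm)
          · exact Or.inr h
        · rintro (h | h)
          · exact Or.inl (by rw [h])
          · exact Or.inr h
  obtain ⟨m, hm, h⟩ := key B.toFinset
  exact ⟨m, hm, by rw [h]; simp⟩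

/-- M has the elements e i; the set with mask m is a base iff b m -/
def EM {α : Type} {n : ℕ} (e : Fin n → α) (b : ℕ → Bool) (M : Matroid α) : Prop :=
  Function.Injective e ∧ range e = M.E ∧ ∀ m, m < 2 ^ n → (M.IsBase (e '' bits n m) ↔ b m = true)

/-- insert a zero bit at position i -/
def ins0 (i m : ℕ) : ℕ := (m % 2 ^ i) ||| ((m >>> i) <<< (i + 1))
/-- insert a one bit at position i -/
def ins1 (i m : ℕ) : ℕ := ins0 i m ||| 2 ^ i

theorem K1_testBit_ins0 (i m j : ℕ) : (ins0 i m).testBit j =
    if j < i then m.testBit j else if j = i then false else m.testBit (j - 1) := by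
  simp only [ins0, Nat.testBit_or, Nat.testBit_mod_two_pow, Nat.testBit_shiftLeft,
    Nat.testBit_shiftRight]
  split_ifs with h1 h2
  · have : ¬ (i + 1 ≤ j) := by omega
    simp [h1, this]
  · subst h2
    simp
  · have h3 : i + 1 ≤ j := by omega
    have h4 : i + (j - (i + 1)) = j - 1 := by omega
    simp [h1, h3, h4]

theorem K1_testBit_ins1 (i m j : ℕ) : (ins1 i m).testBit j =
    if j < i then m.testBit j else if j = i then true else m.testBit (j - 1) := by
  simp only [ins1, Nat.testBit_or, K1_testBit_ins0, Nat.testBit_two_pow]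
  split_ifs with h1 h2
  · have : ¬ i = j := by omega
    simp [this]
  · subst h2
    simp
  · have : ¬ i = j := by omega
    simp [this]

theorem K1_ins0_lt {n i m : ℕ} (hi : i ≤ n) (hm : m < 2 ^ n) : ins0 i m < 2 ^ (n + 1) := by
  apply Nat.lt_pow_two_of_testBit
  intro j hj
  rw [K1_testBit_ins0, if_neg (by omega), if_neg (by omega)]
  exact Nat.testBit_lt_two_pow (lt_of_lt_of_le hm (Nat.pow_le_pow_right (by norm_num) (by omega)))

theorem K1_ins1_lt {n i m : ℕ} (hi : i ≤ n) (hm : m < 2 ^ n) : ins1 i m < 2 ^ (n + 1) := by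
  apply Nat.lt_pow_two_of_testBit
  intro j hj
  rw [K1_testBit_ins1, if_neg (by omega), if_neg (by omega)]
  exact Nat.testBit_lt_two_pow (lt_of_lt_of_le hm (Nat.pow_le_pow_right (by norm_num) (by omega)))

theorem K1_testBit_succAbove {n : ℕ} (i : Fin (n + 1)) (m : ℕ) (k : Fin n) :
    (ins0 i m).testBit (i.succAbove k) = m.testBit k ∧
    (ins1 i m).testBit (i.succAbove k) = m.testBit k := by
  rw [K1_testBit_ins0, K1_testBit_ins1]
  by_cases h : (k : ℕ) < i
  · have h1 : ((i.succAbove k : Fin (n + 1)) : ℕ) = k := by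
      rw [Fin.succAbove_of_castSucc_lt _ _ (by rw [Fin.lt_def]; simpa using h)]; simp
    rw [h1]; simp [h]
  · have h1 : ((i.succAbove k : Fin (n + 1)) : ℕ) = k + 1 := by
      rw [Fin.succAbove_of_le_castSucc _ _ (by rw [Fin.le_def]; simp; omega)]; simp
    rw [h1]
    have h2 : ¬ ((k : ℕ) + 1 < i) := by omega
    have h3 : ¬ ((k : ℕ) + 1 = i) := by omega
    simp [h2, h3]

theorem K1_image_ins0 {α : Type} {n : ℕ} (e : Fin (n + 1) → α) (i : Fin (n + 1)) (m : ℕ) :
    (fun k => e (i.succAbove k)) '' bits n m = e '' bits (n + 1) (ins0 i m) := by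
  ext x
  simp only [mem_image, bits, mem_ofPred_eq]
  constructor
  · rintro ⟨k, hk, rfl⟩
    exact ⟨i.succAbove k, by rw [(K1_testBit_succAbove i m k).1]; exact hk, rfl⟩
  · rintro ⟨j, hj, rfl⟩
    have hji : j ≠ i := by
      rintro rfl
      rw [K1_testBit_ins0] at hj
      simp at hj
    obtain ⟨k, rfl⟩ := Fin.exists_succAbove_eq hji
    rw [(K1_testBit_succAbove i m k).1] at hj
    exact ⟨k, hj, rfl⟩

theorem K1_image_ins1 {α : Type} {n : ℕ} (e : Fin (n + 1) → α) (i : Fin (n + 1)) (m : ℕ) :
    (fun k => e (i.succAbove k)) '' bits n m ∪ {e i} = e '' bits (n + 1) (ins1 i m) := by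
  ext x
  simp only [mem_union, mem_image, bits, mem_ofPred_eq, mem_singleton_iff]
  constructor
  · rintro (⟨k, hk, rfl⟩ | rfl)
    · exact ⟨i.succAbove k, by rw [(K1_testBit_succAbove i m k).2]; exact hk, rfl⟩
    · exact ⟨i, by rw [K1_testBit_ins1]; simp, rfl⟩
  · rintro ⟨j, hj, rfl⟩
    by_cases hji : j = i
    · exact Or.inr (by rw [hji])
    · obtain ⟨k, rfl⟩ := Fin.exists_succAbove_eq hji
      rw [(K1_testBit_succAbove i m k).2] at hj
      exact Or.inl ⟨k, hj, rfl⟩

section EM
variable {α : Type} {n : ℕ} {b : ℕ → Bool} {M : Matroid α}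

theorem K1_range_succAbove (e : Fin (n + 1) → α) (he : Function.Injective e) (i : Fin (n + 1)) :
    range (fun k => e (i.succAbove k)) = range e \ {e i} := by
  ext x
  simp only [mem_range, mem_sdiff, mem_singleton_iff]
  constructor
  · rintro ⟨k, rfl⟩
    exact ⟨⟨_, rfl⟩, fun h => Fin.succAbove_ne i k (he h)⟩
  · rintro ⟨⟨j, rfl⟩, hj⟩
    have hji : j ≠ i := fun h => hj (by rw [h])
    obtain ⟨k, rfl⟩ := Fin.exists_succAbove_eq hji
    exact ⟨k, rfl⟩

theorem EM.finite {e : Fin n → α} (h : EM e b M) : M.Finite := by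
  constructor
  rw [← h.2.1]
  exact finite_range e

theorem EM.del {e : Fin (n + 1) → α} (h : EM e b M) (i : Fin (n + 1))
    (hex : ∃ m, m < 2 ^ n ∧ b (ins0 i m) = true) :
    EM (fun k => e (i.succAbove k)) (fun m => b (ins0 i m)) (M ＼ {e i}) := by
  obtain ⟨he, hE, hb⟩ := h
  refine ⟨fun a c hac => Fin.succAbove_right_injective (he hac), ?_, ?_⟩
  · rw [K1_range_succAbove e he i, hE]; rfl
  · obtain ⟨m0, hm0, hb0⟩ := hex
    have hB0 : M.IsBase (e '' bits (n + 1) (ins0 i m0)) :=
      (hb _ (K1_ins0_lt (by omega) hm0)).2 hb0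
    have hnot : ∀ m, e i ∉ e '' bits (n + 1) (ins0 i m) := by
      rintro m ⟨j, hj, hji⟩
      have := he hji
      subst this
      simp only [bits, mem_ofPred_eq, K1_testBit_ins0] at hj
      simp at hj
    have hco : M.Coindep {e i} := by
      rw [coindep_iff_exists (by rw [singleton_subset_iff, ← hE]; exact ⟨i, rfl⟩)]
      exact ⟨_, hB0, by
        rw [subset_sdiff]
        exact ⟨hB0.subset_ground, disjoint_singleton_right.2 (hnot m0)⟩⟩
    intro m hm
    rw [K1_image_ins0, hco.delete_isBase_iff]
    rw [hb _ (K1_ins0_lt (by omega) hm)]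
    constructor
    · exact fun h => h.1
    · exact fun h => ⟨h, disjoint_singleton_right.2 (hnot m)⟩

theorem EM.con {e : Fin (n + 1) → α} (h : EM e b M) (i : Fin (n + 1))
    (hex : ∃ m, m < 2 ^ n ∧ b (ins1 i m) = true) :
    EM (fun k => e (i.succAbove k)) (fun m => b (ins1 i m)) (M ／ {e i}) := by
  obtain ⟨he, hE, hb⟩ := h
  refine ⟨fun a c hac => Fin.succAbove_right_injective (he hac), ?_, ?_⟩
  · rw [K1_range_succAbove e he i, hE]; rfl
  · obtain ⟨m0, hm0, hb0⟩ := hex
    have hB0 : M.IsBase (e '' bits (n + 1) (ins1 i m0)) :=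
      (hb _ (K1_ins1_lt (by omega) hm0)).2 hb0
    have hin : e i ∈ e '' bits (n + 1) (ins1 i m0) :=
      ⟨i, by simp only [bits, mem_ofPred_eq, K1_testBit_ins1]; simp, rfl⟩
    have hi : M.Indep {e i} := hB0.indep.subset (singleton_subset_iff.2 hin)
    intro m hm
    rw [hi.contract_isBase_iff, K1_image_ins1, hb _ (K1_ins1_lt (by omega) hm)]
    constructor
    · exact fun h => h.1
    · refine fun h => ⟨h, ?_⟩
      rw [disjoint_singleton_right, K1_image_ins0]
      rintro ⟨j, hj, hji⟩
      have := he hji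
      subst this
      simp only [bits, mem_ofPred_eq, K1_testBit_ins0] at hj
      simp at hj

theorem K1_bits_compl {m : ℕ} (hm : m < 2 ^ n) : bits n (2 ^ n - 1 - m) = (bits n m)ᶜ := by
  ext i
  simp only [bits, mem_ofPred_eq, mem_compl_iff]
  have h1 : 2 ^ n - 1 - m = 2 ^ n - (m + 1) := by omega
  rw [h1, Nat.testBit_two_pow_sub_succ hm]
  simp

theorem EM.dual {e : Fin n → α} (h : EM e b M) : EM e (fun m => b (2 ^ n - 1 - m)) M✶ := by
  obtain ⟨he, hE, hb⟩ := h
  refine ⟨he, by rw [hE]; rfl, ?_⟩
  intro m hm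
  have h1 : e '' bits n m ⊆ M.E := by rw [← hE]; exact image_subset_range _ _
  rw [dual_isBase_iff h1, ← hE, ← image_univ, ← image_sdiff he, ← compl_eq_univ_sdiff,
    ← K1_bits_compl hm, hb _ (by have := Nat.two_pow_pos n; omega)]

end EM

/-! ### gammoid certificates -/

/-- perfect matching test: the rows (bit masks of allowed columns below r) are matched to distinct
columns outside the mask u -/
def pm (r : ℕ) : List ℕ → ℕ → Bool
  | [], _ => true
  | c :: cs, u => (List.range r).any (fun j => c.testBit j && !u.testBit j && pm r cs (u ||| 2 ^ j))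

/-- rows selected by the mask m -/
def sel {A : Type} : List A → ℕ → List A
  | [], _ => []
  | c :: cs, m => if m % 2 = 1 then c :: sel cs (m / 2) else sel cs (m / 2)

def pmb (r : ℕ) (R : List ℕ) (m : ℕ) : Bool :=
  (sel R m).length == r && pm r (sel R m) 0

theorem K1_pm_iff (r : ℕ) (l : List ℕ) (u : ℕ) : pm r l u = true ↔
    ∃ js : List ℕ, js.Nodup ∧ (∀ j ∈ js, j < r ∧ u.testBit j = false) ∧
      List.Forall₂ (fun c j => c.testBit j = true) l js := by
  induction l generalizing u with
  | nil =>
    simp only [pm, true_iff]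
    exact ⟨[], List.nodup_nil, by simp, List.Forall₂.nil⟩
  | cons c cs ih =>
    simp only [pm, List.any_eq_true, List.mem_range, Bool.and_eq_true, Bool.not_eq_true', ih]
    constructor
    · rintro ⟨j, hj, ⟨hc, hu⟩, js, hnd, hjs, hF⟩
      refine ⟨j :: js, List.nodup_cons.2 ⟨?_, hnd⟩, ?_, List.Forall₂.cons hc hF⟩
      · intro hmem
        have := (hjs j hmem).2
        simp [Nat.testBit_or] at this
      · intro k hk
        rcases List.mem_cons.1 hk with rfl | hk
        · exact ⟨hj, hu⟩
        · have := hjs k hk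
          refine ⟨this.1, ?_⟩
          have h2 := this.2
          simp only [Nat.testBit_or, Bool.or_eq_false_iff] at h2
          exact h2.1
    · rintro ⟨js, hnd, hjs, hF⟩
      cases hF with
      | cons hc hF =>
        rename_i j js
        rw [List.nodup_cons] at hnd
        have hj := hjs j List.mem_cons_self
        refine ⟨j, hj.1, ⟨hc, hj.2⟩, js, hnd.2, ?_, hF⟩
        intro k hk
        have hk2 := hjs k (List.mem_cons_of_mem _ hk)
        refine ⟨hk2.1, ?_⟩
        rw [Nat.testBit_or, hk2.2, Nat.testBit_two_pow]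
        have : j ≠ k := fun h => hnd.1 (h ▸ hk)
        simp [this]

theorem K1_forall2_fun {ι : Type} [DecidableEq ι] {P : ι → ℕ → Prop} {L : List ι} {js : List ℕ}
    (h : List.Forall₂ P L js) (hL : L.Nodup) (hjs : js.Nodup) :
    ∃ g : ι → ℕ, (∀ i ∈ L, P i (g i) ∧ g i ∈ js) ∧ InjOn g {i | i ∈ L} := by
  induction h with
  | nil => exact ⟨fun _ => 0, by simp, by simp [InjOn]⟩
  | cons hab hF ih =>
    rename_i a c L js
    rw [List.nodup_cons] at hL hjs
    obtain ⟨g, hg, hinj⟩ := ih hL.2 hjs.2
    have hne : ∀ i ∈ L, i ≠ a := fun i hi h => hL.1 (h ▸ hi)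
    refine ⟨Function.update g a c, ?_, ?_⟩
    · intro i hi
      rcases List.mem_cons.1 hi with rfl | hi
      · simp [hab]
      · rw [Function.update_of_ne (hne i hi)]
        exact ⟨(hg i hi).1, List.mem_cons_of_mem _ (hg i hi).2⟩
    · intro i hi j hj hij
      rcases List.mem_cons.1 hi with rfl | hi2
      · rcases List.mem_cons.1 hj with rfl | hj2
        · rfl
        · exfalso
          rw [Function.update_self, Function.update_of_ne (hne j hj2)] at hij
          exact hjs.1 (hij ▸ (hg j hj2).2)
      · rcases List.mem_cons.1 hj with rfl | hj2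
        · exfalso
          rw [Function.update_self, Function.update_of_ne (hne i hi2)] at hij
          exact hjs.1 (hij ▸ (hg i hi2).2)
        · rw [Function.update_of_ne (hne j hj2), Function.update_of_ne (hne i hi2)] at hij
          exact hinj hi2 hj2 hij

theorem K1_sel_eq {A : Type} (R : List A) (m : ℕ) :
    sel R m = ((List.finRange R.length).filter
      (fun i : Fin R.length => m.testBit (i : ℕ))).map (fun i => R.get i) := by
  induction R generalizing m with
  | nil => simp [sel]
  | cons c cs ih =>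
    have h0 : m.testBit 0 = decide (m % 2 = 1) := by simp
    have h1 : ∀ i : Fin cs.length, m.testBit (i.succ : Fin (cs.length + 1)) = (m / 2).testBit i := by
      intro i; simp [Nat.testBit_succ]
    simp only [sel, List.length_cons, List.finRange_succ, List.filter_cons]
    have h2 : (List.filter (fun i : Fin (cs.length + 1) => m.testBit i)
        (List.map Fin.succ (List.finRange cs.length))).map (fun i => (c :: cs).get i) =
        sel cs (m / 2) := by
      rw [ih, List.filter_map, List.map_map]
      congr 1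
      apply List.filter_congr
      intro i _
      exact h1 i
    by_cases hm : m % 2 = 1
    · have h3 : (fun i : Fin (cs.length + 1) => m.testBit i) 0 = true := by simp [hm]
      simp only [hm, if_true]
      rw [if_pos (by simpa using hm)]
      rw [List.map_cons]
      exact congrArg (c :: ·) h2.symm
    · rw [if_neg hm, if_neg (by simpa using hm)]
      exact h2.symm

/-- matching condition for the elements with indices in the mask -/
theorem K1_pmb_iff {n r : ℕ} (R : List ℕ) (hn : R.length = n) (m : ℕ) : pmb r R m = true ↔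
    (bits n m).ncard = r ∧ ∃ g : Fin n → ℕ, (∀ i ∈ bits n m, g i < r ∧
      (R.getD i 0).testBit (g i) = true) ∧ InjOn g (bits n m) := by
  subst hn
  set Lf := (List.finRange R.length).filter (fun i : Fin R.length => m.testBit (i : ℕ)) with hLf
  have hnd : Lf.Nodup := (List.nodup_finRange _).filter _
  have hmem : ∀ i, i ∈ Lf ↔ i ∈ bits R.length m := by
    intro i; simp [hLf, bits]
  have hset : bits R.length m = (Lf.toFinset : Set (Fin R.length)) := by
    ext i; simp [← hmem]
  have hcard : (bits R.length m).ncard = Lf.length := by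
    rw [hset, ncard_coe_finset, List.toFinset_card_of_nodup hnd]
  rw [pmb, Bool.and_eq_true, beq_iff_eq, K1_sel_eq, ← hLf, List.length_map, ← hcard, K1_pm_iff]
  refine and_congr_right fun _ => ?_
  constructor
  · rintro ⟨js, hj1, hj2, hF⟩
    rw [List.forall₂_map_left_iff] at hF
    obtain ⟨g, hg, hi⟩ := K1_forall2_fun hF hnd hj1
    refine ⟨g, fun i hi => ?_, ?_⟩
    · have h1 := hg i ((hmem i).2 hi)
      refine ⟨(hj2 _ h1.2).1, ?_⟩
      simpa using h1.1
    · have : {i | i ∈ Lf} = bits R.length m := by ext i; simp [hmem]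
      rw [← this]; exact hi
  · rintro ⟨g, hg, hi⟩
    refine ⟨Lf.map g, ?_, ?_, ?_⟩
    · rw [List.nodup_map_iff_inj_on hnd]
      intro x hx y hy hxy
      exact hi ((hmem x).1 hx) ((hmem y).1 hy) hxy
    · intro j hj
      obtain ⟨i, hi, rfl⟩ := List.mem_map.1 hj
      exact ⟨(hg i ((hmem i).1 hi)).1, by simp⟩
    · rw [List.forall₂_map_left_iff, List.forall₂_map_right_iff, List.forall₂_same]
      intro i hi
      have := (hg i ((hmem i).1 hi)).2
      simpa using this

theorem EM.gammoid {α : Type} {n : ℕ} {b : ℕ → Bool} {M : Matroid α} {e : Fin n → α}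
    (h : EM e b M) {r : ℕ} (hr : 0 < r) (R : List ℕ) (hn : R.length = n)
    (hc : ∀ m, m < 2 ^ n → b m = pmb r R m) : Gammoid M := by
  classical
  have hfin := h.finite
  obtain ⟨he, hE, hb⟩ := h
  refine gammoid_of_trans (J := Fin r)
    (fun x j => ∃ i : Fin n, e i = x ∧ (R.getD i 0).testBit j = true) ?_
  intro B hB
  obtain ⟨m, hm, hmB⟩ := K1_exists_bits n (e ⁻¹' B)
  have hBe : B = e '' bits n m := by
    rw [hmB, image_preimage_eq_of_subset (by rw [hE]; exact hB)]
  rw [hBe, hb m hm, hc m hm, K1_pmb_iff R hn]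
  constructor
  · rintro ⟨hcard, g, hg, hginj⟩
    let g' : Fin n → Fin r := fun i => if h : g i < r then ⟨g i, h⟩ else ⟨0, hr⟩
    have hg' : ∀ i ∈ bits n m, ((g' i : Fin r) : ℕ) = g i := by
      intro i hi
      simp only [g', dif_pos (hg i hi).1]
    refine ⟨Function.extend e g' (fun _ => ⟨0, hr⟩), ?_, ?_⟩
    · rintro x ⟨i, hi, rfl⟩
      refine ⟨i, rfl, ?_⟩
      rw [he.extend_apply, hg' i hi]
      exact (hg i hi).2
    · have hinj : InjOn (Function.extend e g' (fun _ => ⟨0, hr⟩)) (e '' bits n m) := by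
        rintro x ⟨i, hi, rfl⟩ y ⟨j, hj, rfl⟩ hxy
        rw [he.extend_apply, he.extend_apply] at hxy
        have : g i = g j := by rw [← hg' i hi, ← hg' j hj, hxy]
        rw [hginj hi hj this]
      refine ⟨fun _ _ => mem_univ _, hinj, ?_⟩
      have h1 : (Function.extend e g' (fun _ => ⟨0, hr⟩) '' (e '' bits n m)) = univ := by
        apply eq_of_subset_of_ncard_le (subset_univ _)
        rw [hinj.ncard_image, ncard_image_of_injective _ he, hcard]
        simp [ncard_univ]
      exact h1.ge
  · rintro ⟨G, hG, hbij⟩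
    have hcard : (bits n m).ncard = r := by
      have h1 := hbij.injOn.ncard_image
      rw [hbij.image_eq, ncard_univ, Nat.card_eq_fintype_card, Fintype.card_fin,
        ncard_image_of_injective _ he] at h1
      exact h1.symm
    refine ⟨hcard, fun i => G (e i), ?_, ?_⟩
    · intro i hi
      refine ⟨(G (e i)).2, ?_⟩
      obtain ⟨j, hj, hj2⟩ := hG (e i) ⟨i, hi, rfl⟩
      rw [he hj] at hj2
      exact hj2
    · intro i hi j hj hij
      have := hbij.injOn ⟨i, hi, rfl⟩ ⟨j, hj, rfl⟩ (Fin.ext hij)
      exact he this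

/-! ### certificates over the field with four elements -/

theorem K1_indep_image {α : Type} {n k : ℕ} {e : Fin n → α} (he : Function.Injective e)
    (v : Fin n → Fin k → F4) (X : Set (Fin n)) :
    LinearIndepOn F4 (Function.extend e v 0) (e '' X) ↔ LinearIndepOn F4 v X := by
  have hv : (Function.extend e v 0) ∘ e = v := by
    funext i; simp [he.extend_apply]
  constructor
  · intro h
    have := h.comp_of_image he.injOn
    rwa [hv] at this
  · intro h
    apply LinearIndepOn.image_of_comp
    rwa [hv]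

theorem EM.rep {α : Type} {n k : ℕ} {b : ℕ → Bool} {M : Matroid α} {e : Fin n → α}
    (h : EM e b M) (v : Fin n → Fin k → F4)
    (hc : ∀ m, m < 2 ^ n → (b m = true ↔ (bits n m).ncard = k ∧ LinearIndepOn F4 v (bits n m))) :
    Rep F4 M := by
  classical
  have hfin := h.finite
  obtain ⟨he, hE, hb⟩ := h
  refine ⟨Fin k → F4, inferInstance, inferInstance, Function.extend e v 0, ?_⟩
  have hbase : ∀ B, B ⊆ M.E → (M.IsBase B ↔ B.ncard = k ∧
      LinearIndepOn F4 (Function.extend e v 0) B) := by
    intro B hB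
    obtain ⟨m, hm, hmB⟩ := K1_exists_bits n (e ⁻¹' B)
    have hBe : B = e '' bits n m := by
      rw [hmB, image_preimage_eq_of_subset (by rw [hE]; exact hB)]
    rw [hBe, hb m hm, hc m hm, K1_indep_image he, ncard_image_of_injective _ he]
  intro I hI
  constructor
  · intro hi
    obtain ⟨B, hB, hIB⟩ := hi.exists_isBase_superset
    exact ((hbase B hB.subset_ground).1 hB).2.mono hIB
  · intro hi
    obtain ⟨B0, hB0⟩ := M.exists_isBase
    obtain ⟨hc0, hl0⟩ := (hbase B0 hB0.subset_ground).1 hB0
    obtain ⟨C, hCE, hIC, hsp, hlC⟩ := exists_linearIndepOn_extension hi hI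
    have hCfin : C.Finite := M.ground_finite.subset hCE
    have hB0fin : B0.Finite := M.ground_finite.subset hB0.subset_ground
    have h1 : k ≤ C.ncard := by
      have h2 : Module.finrank F4 (Submodule.span F4 (Function.extend e v 0 '' B0)) =
          B0.ncard := by
        have : Fintype B0 := hB0fin.fintype
        rw [image_eq_range]
        have h3 := finrank_span_eq_card (R := F4) (b := fun x : B0 => Function.extend e v 0 x) hl0
        rw [h3, ← Nat.card_eq_fintype_card, Nat.card_coe_set_eq]
      have h3 : Module.finrank F4 (Submodule.span F4 (Function.extend e v 0 '' C)) ≤ C.ncard := by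
        have : Fintype C := hCfin.fintype
        rw [image_eq_range]
        refine (finrank_range_le_card _).trans ?_
        rw [← Nat.card_eq_fintype_card, Nat.card_coe_set_eq]
      have h4 : Submodule.span F4 (Function.extend e v 0 '' B0) ≤
          Submodule.span F4 (Function.extend e v 0 '' C) := by
        rw [Submodule.span_le]
        exact (image_mono hB0.subset_ground).trans hsp
      exact (hc0.symm.trans h2.symm).le.trans ((Submodule.finrank_mono h4).trans h3)
    have h2 : C.ncard ≤ k := by
      have : Fintype C := hCfin.fintype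
      have := hlC.linearIndependent.fintype_card_le_finrank
      rw [← Nat.card_eq_fintype_card, Nat.card_coe_set_eq] at this
      simpa using this
    exact (((hbase C hCE).2 ⟨le_antisymm h2 h1, hlC⟩).indep).subset hIC

def ent (rows : List (List F4)) (r s : ℕ) : F4 := (rows.getD r []).getD s F4.o

def det1 (x : ℕ → ℕ → F4) : F4 := x 0 0
def det2 (x : ℕ → ℕ → F4) : F4 := F4.add (F4.mul (x 0 0) (x 1 1)) (F4.mul (x 0 1) (x 1 0))
def det3 (x : ℕ → ℕ → F4) : F4 :=
  F4.add (F4.add (F4.add (F4.add (F4.add
    (F4.mul (F4.mul (x 0 0) (x 1 1)) (x 2 2))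
    (F4.mul (F4.mul (x 0 0) (x 1 2)) (x 2 1)))
    (F4.mul (F4.mul (x 0 1) (x 1 0)) (x 2 2)))
    (F4.mul (F4.mul (x 0 1) (x 1 2)) (x 2 0)))
    (F4.mul (F4.mul (x 0 2) (x 1 0)) (x 2 1)))
    (F4.mul (F4.mul (x 0 2) (x 1 1)) (x 2 0))

def F4.nz : F4 → Bool
  | o => false
  | _ => true

def detV : ℕ → (ℕ → ℕ → F4) → F4
  | 1 => det1
  | 2 => det2
  | 3 => det3
  | _ => fun _ => F4.o

def detb (k : ℕ) (rows : List (List F4)) : Bool :=
  rows.length == k && (detV k (ent rows)).nz

theorem K1_nz (x : F4) : x.nz = true ↔ x ≠ 0 := by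
  cases x <;> decide

theorem K1_indep_list {n k : ℕ} (v : Fin n → Fin k → F4) (Lf : List (Fin n)) (hnd : Lf.Nodup)
    (hk : Lf.length = k) : LinearIndepOn F4 v {i | i ∈ Lf} ↔
      (Matrix.of (fun t : Fin k => v (Lf.get (t.cast hk.symm)))).det ≠ 0 := by
  subst hk
  have h1 : {i | i ∈ Lf} = range (fun t : Fin Lf.length => Lf.get t) := by
    ext i
    simp only [mem_ofPred_eq, mem_range]
    exact List.mem_iff_get
  have h2 : Function.Injective (fun t : Fin Lf.length => Lf.get t) :=
    List.nodup_iff_injective_get.1 hnd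
  rw [h1, linearIndepOn_range_iff h2, ← isUnit_iff_ne_zero, ← Matrix.isUnit_iff_isUnit_det,
    ← Matrix.linearIndependent_rows_iff_isUnit]
  rfl

theorem K1_detb_iff {k : ℕ} (V : List (List F4)) (m : ℕ) (hk : k = 1 ∨ k = 2 ∨ k = 3) :
    detb k (sel V m) = true ↔ (bits V.length m).ncard = k ∧
      LinearIndepOn F4 (fun (i : Fin V.length) (s : Fin k) => (V.get i).getD s F4.o)
        (bits V.length m) := by
  set Lf := (List.finRange V.length).filter (fun i : Fin V.length => m.testBit (i : ℕ)) with hLf
  have hnd : Lf.Nodup := (List.nodup_finRange _).filter _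
  have hmem : ∀ i, i ∈ Lf ↔ i ∈ bits V.length m := by
    intro i; simp [hLf, bits]
  have hset : bits V.length m = {i | i ∈ Lf} := by
    ext i; simp [← hmem]
  have hcard : (bits V.length m).ncard = Lf.length := by
    have : bits V.length m = (Lf.toFinset : Set (Fin V.length)) := by
      ext i; simp [← hmem]
    rw [this, ncard_coe_finset, List.toFinset_card_of_nodup hnd]
  rw [detb, Bool.and_eq_true, beq_iff_eq, K1_sel_eq, ← hLf, List.length_map, ← hcard]
  refine and_congr_right fun hk2 => ?_
  have hk3 : Lf.length = k := by rw [← hcard]; exact hk2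
  rw [hset, K1_indep_list _ Lf hnd hk3]
  have hent : ∀ r s : ℕ, (hr : r < k) → ent (List.map (fun i => V.get i) Lf) r s =
      (V.get (Lf.get ⟨r, by omega⟩)).getD s F4.o := by
    intro r s hr
    have : r < Lf.length := by omega
    simp [ent, this]
  rcases hk with rfl | rfl | rfl
  · rw [K1_nz, Matrix.det_fin_one, detV, det1, hent 0 0 (by norm_num)]
    rfl
  · rw [K1_nz, Matrix.det_fin_two, detV, det2, hent 0 0 (by norm_num), hent 0 1 (by norm_num),
      hent 1 0 (by norm_num), hent 1 1 (by norm_num)]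
    rfl
  · rw [K1_nz, Matrix.det_fin_three, detV, det3, hent 0 0 (by norm_num), hent 0 1 (by norm_num),
      hent 0 2 (by norm_num), hent 1 0 (by norm_num), hent 1 1 (by norm_num),
      hent 1 2 (by norm_num), hent 2 0 (by norm_num), hent 2 1 (by norm_num),
      hent 2 2 (by norm_num)]
    rfl

theorem EM.rep' {α : Type} {n k : ℕ} {b : ℕ → Bool} {M : Matroid α} {e : Fin n → α}
    (h : EM e b M) (hk : k = 1 ∨ k = 2 ∨ k = 3) (V : List (List F4)) (hn : V.length = n)
    (hc : ∀ m, m < 2 ^ n → b m = detb k (sel V m)) : Rep F4 M := by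
  subst hn
  refine h.rep (fun (i : Fin V.length) (s : Fin k) => (V.get i).getD s F4.o) ?_
  intro m hm
  rw [hc m hm, K1_detb_iff V m hk]

/-! ### checking a matroid given by masks -/

structure Cert where
  /-- the field certificate is for the dual -/
  dF : Bool
  k : ℕ
  V : List (List F4)
  /-- the transversal presentation is for the dual -/
  dT : Bool
  r : ℕ
  R : List ℕ

def chk (n : ℕ) (b : ℕ → Bool) (c : Cert) : Bool :=
  (c.k == 1 || c.k == 2 || c.k == 3) && c.V.length == n && c.R.length == n && decide (0 < c.r) &&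
  (List.range (2 ^ n)).all (fun m => b (if c.dF then 2 ^ n - 1 - m else m) == detb c.k (sel c.V m)) &&
  (List.range (2 ^ n)).all (fun m => b (if c.dT then 2 ^ n - 1 - m else m) == pmb c.r c.R m)

theorem EM.qgam {α : Type} {n : ℕ} {b : ℕ → Bool} {M : Matroid α} {e : Fin n → α}
    (h : EM e b M) (c : Cert) (hc : chk n b c = true) : QGam M := by
  have hfin := h.finite
  simp only [chk, Bool.and_eq_true, Bool.or_eq_true, beq_iff_eq, List.all_eq_true, List.mem_range,
    decide_eq_true_eq] at hc
  obtain ⟨⟨⟨⟨⟨hk, hV⟩, hR⟩, hr⟩, hF⟩, hT⟩ := hc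
  have hk' : c.k = 1 ∨ c.k = 2 ∨ c.k = 3 := by tauto
  refine ⟨hfin, ?_, ?_⟩
  · cases hd : c.dT with
    | false =>
      exact h.gammoid hr c.R hR (fun m hm => by have := hT m hm; simpa [hd] using this)
    | true =>
      have h1 : Gammoid M✶ :=
        h.dual.gammoid hr c.R hR (fun m hm => by have := hT m hm; simpa [hd] using this)
      have h2 := h1.dual
      rwa [dual_dual] at h2
  · refine ⟨F4, inferInstance, F4.card, ?_⟩
    cases hd : c.dF with
    | false =>
      exact h.rep' hk' c.V hV (fun m hm => by have := hF m hm; simpa [hd] using this)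
    | true =>
      have h1 : Rep F4 M✶ :=
        h.dual.rep' hk' c.V hV (fun m hm => by have := hF m hm; simpa [hd] using this)
      have hfin' := h.dual.finite
      have h2 := h1.dual
      rwa [dual_dual] at h2

def Cert.zero : Cert := ⟨false, 0, [], false, 0, []⟩

/-- all one-element deletions and contractions -/
def chkAll (n : ℕ) (b : ℕ → Bool) (cd cc : List Cert) : Bool :=
  (List.range (n + 1)).all (fun i =>
    (List.range (2 ^ n)).any (fun m => b (ins0 i m)) &&
    (List.range (2 ^ n)).any (fun m => b (ins1 i m)) &&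
    chk n (fun m => b (ins0 i m)) (cd.getD i Cert.zero) &&
    chk n (fun m => b (ins1 i m)) (cc.getD i Cert.zero))

theorem EM.all {α : Type} {n : ℕ} {b : ℕ → Bool} {M : Matroid α} {e : Fin (n + 1) → α}
    (h : EM e b M) (cd cc : List Cert) (hc : chkAll n b cd cc = true) :
    ∀ x ∈ M.E, QGam (M ＼ {x}) ∧ QGam (M ／ {x}) := by
  intro x hx
  rw [← h.2.1] at hx
  obtain ⟨i, rfl⟩ := hx
  simp only [chkAll, Bool.and_eq_true, List.all_eq_true, List.any_eq_true, List.mem_range] at hc
  obtain ⟨⟨⟨h1, h2⟩, h3⟩, h4⟩ := hc i i.2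
  exact ⟨(h.del i h1).qgam _ h3, (h.con i h2).qgam _ h4⟩

def fb (n m : ℕ) : Finset (Fin n) := Finset.univ.filter (fun i : Fin n => m.testBit i = true)

def popc : ℕ → ℕ → ℕ
  | 0, _ => 0
  | n + 1, m => m % 2 + popc n (m / 2)

/-- the masks of size r which are not in the list -/
def bL (n r : ℕ) (Lm : List ℕ) (m : ℕ) : Bool := popc n m == r && !Lm.contains m

theorem K1_em {α : Type} {n r : ℕ} {L : Finset (Finset (Fin n))} {M : Matroid α}
    (h : IsL n r L M) (Lm : List ℕ)
    (hb : ∀ m, m < 2 ^ n → (((fb n m).card = r ∧ fb n m ∉ L) ↔ bL n r Lm m = true)) :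
    ∃ e : Fin n → α, EM e (bL n r Lm) M := by
  obtain ⟨e, he, hE, hB⟩ := h
  refine ⟨e, he, hE, fun m hm => ?_⟩
  rw [← hb m hm, ← hB]
  have : ((fb n m : Finset (Fin n)) : Set (Fin n)) = bits n m := by
    ext i; simp [fb, bits]
  rw [this]

end QG
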