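import Pool.Agent.Lib.QG.K1a
set_option autoImplicit false

/-! Row K1 (helper49). Certificates, part b. -/

namespace QG
open Set Matroid

/-! ### data -/

section data
variable {α : Type} {M : Matroid α}

def cdU26 : List Cert := [
  ⟨false, 2, [[.i, .o], [.o, .i], [.i, .i], [.i, .w], [.i, .v]], false, 2, [3, 3, 3, 1, 2]⟩,
  ⟨false, 2, [[.i, .o], [.o, .i], [.i, .i], [.i, .w], [.i, .v]], false, 2, [3, 3, 3, 1, 2]⟩,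
  ⟨false, 2, [[.i, .o], [.o, .i], [.i, .i], [.i, .w], [.i, .v]], false, 2, [3, 3, 3, 1, 2]⟩,
  ⟨false, 2, [[.i, .o], [.o, .i], [.i, .i], [.i, .w], [.i, .v]], false, 2, [3, 3, 3, 1, 2]⟩,
  ⟨false, 2, [[.i, .o], [.o, .i], [.i, .i], [.i, .w], [.i, .v]], false, 2, [3, 3, 3, 1, 2]⟩,
  ⟨false, 2, [[.i, .o], [.o, .i], [.i, .i], [.i, .w], [.i, .v]], false, 2, [3, 3, 3, 1, 2]⟩]

def ccU26 : List Cert := [
  ⟨false, 1, [[.i], [.i], [.i], [.i], [.i]], false, 1, [1, 1, 1, 1, 1]⟩,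
  ⟨false, 1, [[.i], [.i], [.i], [.i], [.i]], false, 1, [1, 1, 1, 1, 1]⟩,
  ⟨false, 1, [[.i], [.i], [.i], [.i], [.i]], false, 1, [1, 1, 1, 1, 1]⟩,
  ⟨false, 1, [[.i], [.i], [.i], [.i], [.i]], false, 1, [1, 1, 1, 1, 1]⟩,
  ⟨false, 1, [[.i], [.i], [.i], [.i], [.i]], false, 1, [1, 1, 1, 1, 1]⟩,
  ⟨false, 1, [[.i], [.i], [.i], [.i], [.i]], false, 1, [1, 1, 1, 1, 1]⟩]

theorem K1_chk_U26 : chkAll 5 (bL 6 2 []) cdU26 ccU26 = true := by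
  decide +kernel

theorem sm_U26 (h : IsL 6 2 ∅ M) : ∀ x ∈ M.E, QGam (M ＼ {x}) ∧ QGam (M ／ {x}) := by
  obtain ⟨e, he⟩ := K1_em h [] (by decide +kernel)
  exact he.all _ _ K1_chk_U26

def cdP6 : List Cert := [
  ⟨true, 2, [[.i, .o], [.o, .i], [.i, .i], [.i, .w], [.i, .v]], false, 3, [7, 7, 1, 2, 4]⟩,
  ⟨true, 2, [[.i, .o], [.o, .i], [.i, .i], [.i, .w], [.i, .v]], false, 3, [7, 7, 1, 2, 4]⟩,
  ⟨true, 2, [[.i, .o], [.o, .i], [.i, .i], [.i, .w], [.i, .v]], false, 3, [7, 7, 1, 2, 4]⟩,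
  ⟨true, 2, [[.i, .o], [.o, .i], [.i, .i], [.i, .w], [.i, .w]], false, 3, [3, 3, 1, 6, 4]⟩,
  ⟨true, 2, [[.i, .o], [.o, .i], [.i, .i], [.i, .w], [.i, .w]], false, 3, [3, 3, 1, 6, 4]⟩,
  ⟨true, 2, [[.i, .o], [.o, .i], [.i, .i], [.i, .w], [.i, .w]], false, 3, [3, 3, 1, 6, 4]⟩]

def ccP6 : List Cert := [
  ⟨false, 2, [[.i, .o], [.i, .o], [.o, .i], [.i, .i], [.i, .w]], false, 2, [1, 1, 3, 3, 2]⟩,
  ⟨false, 2, [[.i, .o], [.i, .o], [.o, .i], [.i, .i], [.i, .w]], false, 2, [1, 1, 3, 3, 2]⟩,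
  ⟨false, 2, [[.i, .o], [.i, .o], [.o, .i], [.i, .i], [.i, .w]], false, 2, [1, 1, 3, 3, 2]⟩,
  ⟨false, 2, [[.i, .o], [.o, .i], [.i, .i], [.i, .w], [.i, .v]], false, 2, [3, 3, 3, 1, 2]⟩,
  ⟨false, 2, [[.i, .o], [.o, .i], [.i, .i], [.i, .w], [.i, .v]], false, 2, [3, 3, 3, 1, 2]⟩,
  ⟨false, 2, [[.i, .o], [.o, .i], [.i, .i], [.i, .w], [.i, .v]], false, 2, [3, 3, 3, 1, 2]⟩]

theorem K1_chk_P6 : chkAll 5 (bL 6 3 [7]) cdP6 ccP6 = true := by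
  decide +kernel

theorem sm_P6 (h : IsL 6 3 LP6 M) : ∀ x ∈ M.E, QGam (M ＼ {x}) ∧ QGam (M ／ {x}) := by
  obtain ⟨e, he⟩ := K1_em h [7] (by decide +kernel)
  exact he.all _ _ K1_chk_P6

def cdK4 : List Cert := [
  ⟨true, 2, [[.i, .o], [.o, .i], [.i, .o], [.o, .i], [.i, .i]], false, 3, [5, 6, 1, 2, 4]⟩,
  ⟨true, 2, [[.i, .o], [.o, .i], [.i, .o], [.i, .i], [.o, .i]], false, 3, [3, 6, 1, 2, 4]⟩,
  ⟨true, 2, [[.i, .o], [.o, .i], [.i, .i], [.i, .o], [.o, .i]], false, 3, [3, 5, 1, 2, 4]⟩,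
  ⟨true, 2, [[.i, .o], [.i, .o], [.o, .i], [.i, .i], [.i, .i]], false, 3, [3, 1, 2, 6, 4]⟩,
  ⟨true, 2, [[.i, .o], [.o, .i], [.i, .o], [.i, .i], [.i, .i]], false, 3, [3, 2, 1, 6, 4]⟩,
  ⟨true, 2, [[.i, .o], [.o, .i], [.o, .i], [.i, .i], [.i, .i]], false, 3, [2, 3, 1, 6, 4]⟩]

def ccK4 : List Cert := [
  ⟨false, 2, [[.i, .o], [.i, .o], [.o, .i], [.o, .i], [.i, .i]], false, 2, [1, 1, 2, 2, 3]⟩,
  ⟨false, 2, [[.i, .o], [.i, .o], [.o, .i], [.i, .i], [.o, .i]], false, 2, [1, 1, 2, 3, 2]⟩,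
  ⟨false, 2, [[.i, .o], [.i, .o], [.o, .i], [.i, .i], [.i, .i]], false, 2, [1, 1, 3, 2, 2]⟩,
  ⟨false, 2, [[.i, .o], [.o, .i], [.i, .i], [.i, .o], [.o, .i]], false, 2, [1, 2, 3, 1, 2]⟩,
  ⟨false, 2, [[.i, .o], [.o, .i], [.i, .i], [.i, .o], [.i, .i]], false, 2, [1, 3, 2, 1, 2]⟩,
  ⟨false, 2, [[.i, .o], [.o, .i], [.i, .i], [.o, .i], [.i, .i]], false, 2, [3, 1, 2, 1, 2]⟩]

theorem K1_chk_K4 : chkAll 5 (bL 6 3 [7, 25, 42, 52]) cdK4 ccK4 = true := by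
  decide +kernel

theorem sm_K4 (h : IsL 6 3 LK4 M) : ∀ x ∈ M.E, QGam (M ＼ {x}) ∧ QGam (M ／ {x}) := by
  obtain ⟨e, he⟩ := K1_em h [7, 25, 42, 52] (by decide +kernel)
  exact he.all _ _ K1_chk_K4

def cdA7 : List Cert := [
  ⟨false, 3, [[.i, .o, .o], [.o, .i, .o], [.o, .o, .i], [.i, .i, .i], [.i, .w, .w], [.o, .i, .w]], false, 3, [3, 5, 5, 3, 2, 4]⟩,
  ⟨false, 3, [[.i, .o, .o], [.o, .i, .o], [.o, .o, .i], [.i, .i, .i], [.i, .o, .w], [.o, .i, .i]], false, 3, [2, 5, 1, 6, 3, 4]⟩,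
  ⟨false, 3, [[.i, .o, .o], [.o, .i, .o], [.o, .o, .i], [.i, .i, .i], [.i, .o, .i], [.i, .w, .w]], false, 3, [2, 5, 3, 4, 1, 6]⟩,
  ⟨false, 3, [[.i, .o, .o], [.o, .i, .o], [.i, .i, .o], [.o, .o, .i], [.o, .i, .i], [.i, .o, .w]], false, 3, [2, 1, 3, 4, 5, 6]⟩,
  ⟨false, 3, [[.i, .o, .o], [.o, .i, .o], [.i, .i, .o], [.o, .o, .i], [.i, .o, .i], [.i, .i, .w]], false, 3, [1, 3, 2, 4, 5, 6]⟩,
  ⟨false, 3, [[.i, .o, .o], [.o, .i, .o], [.i, .i, .o], [.o, .o, .i], [.i, .w, .i], [.i, .i, .v]], false, 3, [2, 3, 1, 5, 6, 4]⟩,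
  ⟨false, 3, [[.i, .o, .o], [.o, .i, .o], [.i, .i, .o], [.o, .o, .i], [.i, .w, .i], [.i, .o, .i]], false, 3, [1, 2, 3, 5, 6, 4]⟩]

def ccA7 : List Cert := [
  ⟨false, 2, [[.i, .o], [.i, .o], [.o, .i], [.i, .i], [.o, .i], [.i, .i]], true, 4, [3, 1, 6, 10, 4, 8]⟩,
  ⟨false, 2, [[.i, .o], [.i, .o], [.o, .i], [.i, .i], [.i, .i], [.i, .w]], false, 2, [1, 1, 3, 2, 2, 3]⟩,
  ⟨false, 2, [[.i, .o], [.i, .o], [.o, .i], [.i, .i], [.i, .w], [.o, .i]], false, 2, [1, 1, 2, 3, 3, 2]⟩,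
  ⟨false, 2, [[.i, .o], [.o, .i], [.i, .i], [.i, .w], [.i, .o], [.i, .i]], false, 2, [1, 3, 2, 3, 1, 2]⟩,
  ⟨false, 2, [[.i, .o], [.o, .i], [.i, .i], [.i, .w], [.o, .i], [.i, .o]], false, 2, [2, 1, 3, 3, 1, 2]⟩,
  ⟨false, 2, [[.i, .o], [.o, .i], [.i, .i], [.i, .o], [.o, .i], [.i, .w]], false, 2, [1, 2, 3, 1, 2, 3]⟩,
  ⟨false, 2, [[.i, .o], [.o, .i], [.i, .i], [.i, .i], [.i, .o], [.i, .w]], false, 2, [2, 3, 1, 1, 2, 3]⟩]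

theorem K1_chk_A7 : chkAll 6 (bL 7 3 [7, 41, 81, 50, 76]) cdA7 ccA7 = true := by
  decide +kernel

theorem sm_A7 (h : IsL 7 3 LA7 M) : ∀ x ∈ M.E, QGam (M ＼ {x}) ∧ QGam (M ／ {x}) := by
  obtain ⟨e, he⟩ := K1_em h [7, 41, 81, 50, 76] (by decide +kernel)
  exact he.all _ _ K1_chk_A7

def cdE8a : List Cert := [
  ⟨false, 3, [[.i, .o, .o], [.o, .i, .o], [.i, .i, .o], [.o, .o, .i], [.i, .w, .i], [.i, .v, .w], [.o, .i, .i]], true, 4, [3, 5, 9, 4, 2, 10, 12]⟩,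
  ⟨false, 3, [[.i, .o, .o], [.o, .i, .o], [.i, .i, .o], [.o, .o, .i], [.i, .o, .i], [.i, .w, .w], [.o, .i, .v]], true, 4, [3, 5, 9, 6, 2, 8, 12]⟩,
  ⟨false, 3, [[.i, .o, .o], [.o, .i, .o], [.i, .i, .o], [.o, .o, .i], [.i, .o, .i], [.i, .w, .i], [.i, .v, .v]], true, 4, [3, 5, 9, 2, 6, 12, 8]⟩,
  ⟨false, 3, [[.i, .o, .o], [.o, .i, .o], [.i, .i, .o], [.o, .o, .i], [.i, .o, .i], [.i, .w, .i], [.i, .i, .w]], true, 4, [3, 5, 9, 10, 6, 4, 8]⟩,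
  ⟨false, 3, [[.i, .o, .o], [.o, .i, .o], [.i, .i, .o], [.i, .w, .o], [.o, .o, .i], [.o, .i, .i], [.i, .v, .i]], false, 3, [3, 1, 3, 2, 5, 4, 6]⟩,
  ⟨false, 3, [[.i, .o, .o], [.o, .i, .o], [.i, .i, .o], [.i, .w, .o], [.o, .o, .i], [.i, .v, .i], [.i, .i, .v]], false, 3, [3, 3, 1, 2, 5, 6, 4]⟩,
  ⟨false, 3, [[.i, .o, .o], [.o, .i, .o], [.i, .i, .o], [.i, .w, .o], [.o, .o, .i], [.i, .o, .i], [.i, .i, .v]], false, 3, [1, 3, 2, 3, 4, 5, 6]⟩,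
  ⟨false, 3, [[.i, .o, .o], [.o, .i, .o], [.i, .i, .o], [.i, .w, .o], [.o, .o, .i], [.i, .o, .i], [.i, .v, .i]], false, 3, [1, 2, 3, 3, 5, 4, 6]⟩]

def ccE8a : List Cert := [
  ⟨false, 2, [[.i, .o], [.i, .o], [.i, .o], [.o, .i], [.o, .i], [.i, .i], [.i, .w]], false, 2, [1, 1, 1, 2, 2, 3, 3]⟩,
  ⟨false, 2, [[.i, .o], [.i, .o], [.i, .o], [.o, .i], [.i, .i], [.i, .i], [.i, .w]], false, 2, [1, 1, 1, 3, 2, 2, 3]⟩,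
  ⟨false, 2, [[.i, .o], [.i, .o], [.i, .o], [.o, .i], [.i, .i], [.i, .w], [.o, .i]], false, 2, [1, 1, 1, 2, 3, 3, 2]⟩,
  ⟨false, 2, [[.i, .o], [.i, .o], [.i, .o], [.o, .i], [.i, .i], [.i, .w], [.i, .w]], false, 2, [1, 1, 1, 3, 3, 2, 2]⟩,
  ⟨false, 2, [[.i, .o], [.o, .i], [.i, .i], [.i, .w], [.i, .o], [.i, .v], [.i, .i]], false, 2, [1, 3, 2, 3, 1, 3, 2]⟩,
  ⟨false, 2, [[.i, .o], [.o, .i], [.i, .i], [.i, .w], [.i, .o], [.o, .i], [.i, .v]], false, 2, [1, 2, 3, 3, 1, 2, 3]⟩,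
  ⟨false, 2, [[.i, .o], [.o, .i], [.i, .i], [.i, .w], [.i, .v], [.o, .i], [.i, .w]], false, 2, [3, 1, 3, 2, 3, 1, 2]⟩,
  ⟨false, 2, [[.i, .o], [.o, .i], [.i, .i], [.i, .w], [.i, .i], [.i, .v], [.i, .w]], false, 2, [3, 3, 1, 2, 1, 3, 2]⟩]

theorem K1_chk_E8a : chkAll 7 (bL 8 3 [7, 11, 13, 14, 49, 98, 148, 200]) cdE8a ccE8a = true := by
  decide +kernel

theorem sm_E8a (h : IsL 8 3 LE8a M) : ∀ x ∈ M.E, QGam (M ＼ {x}) ∧ QGam (M ／ {x}) := by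
  obtain ⟨e, he⟩ := K1_em h [7, 11, 13, 14, 49, 98, 148, 200] (by decide +kernel)
  exact he.all _ _ K1_chk_E8a


end data

end QG
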