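import Pool.Agent.Lib.QG.K1a
import Pool.Agent.Lib.QG.FL1

/-!
MP_2e6874_co. Certificates for quaternary gammoids, any rank: determinants by expansion.
-/

set_option autoImplicit false

namespace QG
open Set Matroid

/-- sum of `f 0, ..., f (k-1)` -/
def sumR (f : ℕ → F4) : ℕ → F4
  | 0 => F4.o
  | k + 1 => F4.add (sumR f k) (f k)

/-- determinant (characteristic two) by expansion along the first row -/
def detR : ℕ → (ℕ → ℕ → F4) → F4
  | 0, _ => F4.i
  | k + 1, x => sumR (fun j => F4.mul (x 0 j)
      (detR k (fun r s => x (r + 1) (if s < j then s else s + 1)))) (k + 1)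

theorem sumR_eq (f : ℕ → F4) (k : ℕ) : sumR f k = ∑ j : Fin k, f j := by
  induction k with
  | zero => rfl
  | succ k ih => rw [sumR, ih, Fin.sum_univ_castSucc]; rfl

theorem detR_eq (k : ℕ) (x : ℕ → ℕ → F4) :
    detR k x = (Matrix.of fun i j : Fin k => x i j).det := by
  induction k generalizing x with
  | zero => rw [detR, Matrix.det_fin_zero]; rfl
  | succ k ih =>
    rw [detR, sumR_eq, Matrix.det_succ_row_zero]
    refine Finset.sum_congr rfl fun j _ => ?_
    have h1 : ((-1 : F4)) ^ (j : ℕ) = 1 := by
      have : (-1 : F4) = 1 := by decide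
      rw [this, one_pow]
    rw [ih, h1, one_mul]
    change x 0 j * _ = x 0 j * _
    congr 2
    ext a b
    simp only [Matrix.of_apply, Matrix.submatrix_apply, Fin.val_succ]
    congr 1
    by_cases hb : (b : ℕ) < j
    · rw [if_pos hb, Fin.succAbove_of_castSucc_lt _ _ (by rw [Fin.lt_def]; simpa using hb)]
      rfl
    · rw [if_neg hb, Fin.succAbove_of_le_castSucc _ _ (by rw [Fin.le_def]; simpa using hb)]
      rfl

def detbR (k : ℕ) (rows : List (List F4)) : Bool :=
  rows.length == k && (detR k (ent rows)).nz

theorem K2_detb_iff {k : ℕ} (V : List (List F4)) (m : ℕ) :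
    detbR k (sel V m) = true ↔ (bits V.length m).ncard = k ∧
      LinearIndepOn F4 (fun (i : Fin V.length) (s : Fin k) => (V.get i).getD s F4.o)
        (bits V.length m) := by
  set Lf := (List.finRange V.length).filter (fun i : Fin V.length => m.testBit (i : ℕ)) with hLf
  have hnd : Lf.Nodup := (List.nodup_finRange _).filter _
  have hmem : ∀ i, i ∈ Lf ↔ i ∈ bits V.length m := by
    intro i; simp [hLf, bits]
  have hset : bits V.length m = {i | i ∈ Lf} := by
    ext i; simp [← hmem]
  have hcard : (bits V.length m).ncard = Lf.length := by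
    have : bits V.length m = (Lf.toFinset : Set (Fin V.length)) := by
      ext i; simp [← hmem]
    rw [this, ncard_coe_finset, List.toFinset_card_of_nodup hnd]
  rw [detbR, Bool.and_eq_true, beq_iff_eq, K1_sel_eq, ← hLf, List.length_map, ← hcard]
  refine and_congr_right fun hk2 => ?_
  have hk3 : Lf.length = k := by rw [← hcard]; exact hk2
  rw [hset, K1_indep_list _ Lf hnd hk3, K1_nz, detR_eq]
  have hent : ∀ r s : ℕ, (hr : r < k) → ent (List.map (fun i => V.get i) Lf) r s =
      (V.get (Lf.get ⟨r, by omega⟩)).getD s F4.o := by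
    intro r s hr
    have : r < Lf.length := by omega
    simp [ent, this]
  have : (Matrix.of fun i j : Fin k => ent (List.map (fun i => V.get i) Lf) i j) =
      Matrix.of (fun t : Fin k => fun s : Fin k => (V.get (Lf.get (t.cast hk3.symm))).getD s F4.o) := by
    ext a b
    rw [Matrix.of_apply, Matrix.of_apply, hent a b a.2]
    rfl
  rw [this]

/-- a list of vectors of length `k` gives a matroid; check of a transversal presentation of it or of
its dual -/
def chkR (k : ℕ) (V : List (List F4)) (d : Bool) (r : ℕ) (R : List ℕ) : Bool :=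
  R.length == V.length && decide (0 < r) &&
  (List.range (2 ^ V.length)).any (fun m => detbR k (sel V m)) &&
  (List.range (2 ^ V.length)).all
    (fun m => detbR k (sel V (if d then 2 ^ V.length - 1 - m else m)) == pmb r R m)

/-- the vectors of a list -/
def vecL (k : ℕ) (V : List (List F4)) (i : Fin V.length) (s : Fin k) : F4 := (V.get i).getD s F4.o

theorem K2_em (k : ℕ) (V : List (List F4))
    (hex : ∃ m < 2 ^ V.length, detbR k (sel V m) = true) :
    EM id (fun m => detbR k (sel V m)) (LM (Finset.univ : Finset (Fin V.length)) (vecL k V)) := by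
  obtain ⟨m0, hm0, hd0⟩ := hex
  rw [K2_detb_iff] at hd0
  set M := LM (Finset.univ : Finset (Fin V.length)) (vecL k V) with hM
  have hi0 : M.Indep (bits V.length m0) := ⟨by simp, hd0.2⟩
  have hle : ∀ I, M.Indep I → I.ncard ≤ k := by
    intro I hI
    have h1 := (LM_indep.1 hI).2
    have : Fintype I := (Set.toFinite I).fintype
    have := h1.linearIndependent.fintype_card_le_finrank
    rw [← Nat.card_eq_fintype_card, Nat.card_coe_set_eq] at this
    simpa using this
  have hb0 : M.IsBase (bits V.length m0) := by
    obtain ⟨B, hB, hB0⟩ := hi0.exists_isBase_superset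
    have : bits V.length m0 = B := Set.eq_of_subset_of_ncard_le hB0
      ((hle B hB.indep).trans hd0.1.ge) (Set.toFinite _)
    rw [this]
    exact hB
  have hbase : ∀ B, M.IsBase B ↔ B.ncard = k ∧ M.Indep B := by
    intro B
    constructor
    · intro hB
      exact ⟨(hB.ncard_eq_ncard_of_isBase hb0).trans hd0.1, hB.indep⟩
    · rintro ⟨h1, h2⟩
      obtain ⟨B', hB', hB0⟩ := h2.exists_isBase_superset
      have : B = B' := Set.eq_of_subset_of_ncard_le hB0
        ((hle B' hB'.indep).trans h1.ge) (Set.toFinite _)
      rw [this]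
      exact hB'
  refine ⟨Function.injective_id, by rw [hM, LM_E]; simp, fun m _ => ?_⟩
  rw [image_id, hbase, K2_detb_iff]
  refine and_congr_right fun _ => ?_
  rw [hM, LM_indep]
  simp only [Finset.coe_univ, subset_univ, true_and]
  rfl

theorem K2_qgam (k : ℕ) (V : List (List F4)) (d : Bool) (r : ℕ) (R : List ℕ)
    (h : chkR k V d r R = true) : QGam (LM (Finset.univ : Finset (Fin V.length)) (vecL k V)) := by
  simp only [chkR, Bool.and_eq_true, beq_iff_eq, List.all_eq_true, List.any_eq_true,
    List.mem_range, decide_eq_true_eq] at h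
  obtain ⟨⟨⟨hR, hr⟩, hex⟩, hT⟩ := h
  have hE := K2_em k V hex
  refine ⟨inferInstance, ?_, F4, inferInstance, F4.card, ?_⟩
  · cases hd : d with
    | false =>
      exact hE.gammoid hr R hR (fun m hm => by have := hT m hm; simpa [hd] using this)
    | true =>
      have h1 := hE.dual.gammoid hr R hR (fun m hm => by have := hT m hm; simpa [hd] using this)
      have h2 := h1.dual
      rwa [dual_dual] at h2
  · exact ⟨_, inferInstance, inferInstance, vecL k V, LM_rep _ _⟩

end QG
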