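import Pool.Agent.Lib.QG.K2a
import Pool.Agent.Lib.QG.D0

/-!
MP_2e6874_co. Isomorphism certificates for matroids given by masks.
-/

set_option autoImplicit false

namespace QG
open Set Matroid

variable {α β : Type} {M : Matroid α} {N : Matroid β} {n : ℕ} {b b' : ℕ → Bool}
  {e : Fin n → α} {e' : Fin n → β}

theorem EM.indep (h : EM e b M) (X : Set (Fin n)) :
    M.Indep (e '' X) ↔ ∃ m, m < 2 ^ n ∧ X ⊆ bits n m ∧ b m = true := by
  constructor
  · intro hI
    obtain ⟨B, hB, hXB⟩ := hI.exists_isBase_superset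
    obtain ⟨m, hm, hmB⟩ := K1_exists_bits n (e ⁻¹' B)
    have hBe : B = e '' bits n m := by
      rw [hmB, image_preimage_eq_of_subset (by rw [h.2.1]; exact hB.subset_ground)]
    refine ⟨m, hm, ?_, ?_⟩
    · rw [hmB]; exact image_subset_iff.1 hXB
    · rw [← h.2.2 m hm, ← hBe]; exact hB
  · rintro ⟨m, hm, hX, hb⟩
    exact ((h.2.2 m hm).2 hb).indep.subset (image_mono hX)

theorem EM.miso_same (h : EM e b M) (h' : EM e' b' N) (hb : ∀ m, m < 2 ^ n → b m = b' m) :
    MIso M N := by
  classical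
  let g : M.E ≃ N.E := (Equiv.setCongr h.2.1.symm).trans
    ((Equiv.ofInjective e h.1).symm.trans ((Equiv.ofInjective e' h'.1).trans
      (Equiv.setCongr h'.2.1)))
  have hg : ∀ (i : Fin n) (hi : e i ∈ M.E), ((g ⟨e i, hi⟩ : N.E) : β) = e' i := by
    intro i hi
    have h1 : (Equiv.ofInjective e h.1).symm ⟨e i, ⟨i, rfl⟩⟩ = i := by
      rw [Equiv.symm_apply_eq]
      rfl
    change e' ((Equiv.ofInjective e h.1).symm ⟨e i, _⟩) = e' i
    rw [h1]
  refine ⟨g, fun I => ?_⟩
  have hY : e '' (e ⁻¹' (Subtype.val '' I)) = Subtype.val '' I := by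
    rw [image_preimage_eq_of_subset]
    rw [h.2.1]
    rintro _ ⟨x, _, rfl⟩
    exact x.2
  have h2 : Subtype.val '' (g '' I) = e' '' (e ⁻¹' (Subtype.val '' I)) := by
    ext y
    constructor
    · rintro ⟨_, ⟨x, hx, rfl⟩, rfl⟩
      have h3 : (x : α) ∈ e '' (e ⁻¹' (Subtype.val '' I)) := by rw [hY]; exact ⟨x, hx, rfl⟩
      obtain ⟨i, hi, hix⟩ := h3
      refine ⟨i, hi, ?_⟩
      have h4 : x = ⟨e i, by rw [hix]; exact x.2⟩ := Subtype.ext hix.symm
      rw [h4, hg]
    · rintro ⟨i, hi, rfl⟩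
      obtain ⟨x, hx, hxi⟩ := hi
      refine ⟨g x, ⟨x, hx, rfl⟩, ?_⟩
      have h4 : x = ⟨e i, by rw [← hxi]; exact x.2⟩ := Subtype.ext hxi
      rw [h4, hg]
  have h6 := h.indep (e ⁻¹' (Subtype.val '' I))
  rw [hY] at h6
  rw [h2, h6, h'.indep]
  constructor
  · rintro ⟨m, hm, hX, hbm⟩
    exact ⟨m, hm, hX, by rw [← hb m hm]; exact hbm⟩
  · rintro ⟨m, hm, hX, hbm⟩
    exact ⟨m, hm, hX, by rw [hb m hm]; exact hbm⟩

/-- the mask of the image of the set with mask `m` under `i ↦ σ i` -/
def pmask : List ℕ → ℕ → ℕ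
  | [], _ => 0
  | s :: σ, m => (if m % 2 = 1 then 2 ^ s else 0) ||| pmask σ (m / 2)

theorem K2_testBit_pmask (σ : List ℕ) (m j : ℕ) : (pmask σ m).testBit j = true ↔
    ∃ i : Fin σ.length, m.testBit i = true ∧ σ.get i = j := by
  induction σ generalizing m with
  | nil => simp [pmask]
  | cons s σ ih =>
    rw [pmask, Nat.testBit_or, Bool.or_eq_true, ih]
    constructor
    · rintro (h | ⟨i, hi, rfl⟩)
      · by_cases hm : m % 2 = 1
        · rw [if_pos hm, Nat.testBit_two_pow] at h
          refine ⟨⟨0, by simp⟩, ?_, by simpa using h⟩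
          simp [hm]
        · rw [if_neg hm] at h
          simp at h
      · refine ⟨i.succ, ?_, by simp⟩
        rw [Fin.val_succ, Nat.testBit_succ]
        exact hi
    · rintro ⟨i, hi, rfl⟩
      refine Fin.cases (motive := fun i => m.testBit i = true →
        ((if m % 2 = 1 then 2 ^ s else 0).testBit ((s :: σ).get i) = true ∨
          ∃ i_1 : Fin σ.length, (m / 2).testBit ↑i_1 = true ∧
            σ.get i_1 = (s :: σ).get i)) ?_ ?_ i hi
      · intro h0
        left
        have : m % 2 = 1 := by simpa using h0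
        simp [this]
      · intro k hk
        right
        refine ⟨k, ?_, by simp⟩
        rw [Fin.val_succ, Nat.testBit_succ] at hk
        exact hk

/-- `M` with mask function `b` and `N` with mask function `b'` are isomorphic by `σ` -/
def chkIso (n : ℕ) (b b' : ℕ → Bool) (σ : List ℕ) : Bool :=
  σ.length == n && decide σ.Nodup && σ.all (fun i => decide (i < n)) &&
  (List.range (2 ^ n)).all (fun m => b m == b' (pmask σ m))

theorem EM.miso (h : EM e b M) (h' : EM e' b' N) (σ : List ℕ) (hc : chkIso n b b' σ = true) :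
    MIso M N := by
  simp only [chkIso, Bool.and_eq_true, beq_iff_eq, List.all_eq_true, List.mem_range,
    decide_eq_true_eq] at hc
  obtain ⟨⟨⟨hl, hnd⟩, hlt⟩, hm⟩ := hc
  subst hl
  let s : Fin σ.length → Fin σ.length := fun i => ⟨σ.get i, hlt _ (List.get_mem σ i)⟩
  have hs : Function.Injective s := by
    intro i j hij
    exact (List.nodup_iff_injective_get.1 hnd) (congrArg Fin.val hij)
  have hsur : Function.Surjective s := Finite.surjective_of_injective hs
  have hbits : ∀ m, bits σ.length (pmask σ m) = s '' bits σ.length m := by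
    intro m
    ext j
    simp only [bits, mem_ofPred_eq, mem_image]
    rw [K2_testBit_pmask]
    constructor
    · rintro ⟨i, hi, hij⟩; exact ⟨i, hi, Fin.ext hij⟩
    · rintro ⟨i, hi, hij⟩; exact ⟨i, hi, congrArg Fin.val hij⟩
  have hpm : ∀ m, pmask σ m < 2 ^ σ.length := by
    intro m
    apply Nat.lt_pow_two_of_testBit
    intro j hj
    rw [Bool.eq_false_iff]
    intro h
    rw [K2_testBit_pmask] at h
    obtain ⟨i, _, rfl⟩ := h
    have := hlt _ (List.get_mem σ i)
    omega
  have h2 : EM (fun i => e' (s i)) b N := by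
    refine ⟨fun i j hij => hs (h'.1 hij), ?_, ?_⟩
    · rw [← h'.2.1]
      exact hsur.range_comp e'
    · intro m hm2
      have : (fun i => e' (s i)) '' bits σ.length m = e' '' bits σ.length (pmask σ m) := by
        rw [hbits, image_image]
      rw [this, h'.2.2 _ (hpm m), hm m hm2]
  exact h.miso_same h2 (fun _ _ => rfl)

theorem EM.congr {b2 : ℕ → Bool} (h : EM e b M) (hb : ∀ m, m < 2 ^ n → b m = b2 m) :
    EM e b2 M := ⟨h.1, h.2.1, fun m hm => by rw [h.2.2 m hm, hb m hm]⟩

end QG
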