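import Pool.Agent.Lib.QG.BD_w4
import Pool.Agent.Lib.QG.BD_s10_3
import Pool.Agent.Lib.QG.BD_th10_122
import Pool.Agent.Lib.QG.BD_la10_011
import Pool.Agent.Lib.QG.BD_de00_22
import Pool.Agent.Lib.QG.BD_de00_211
import Pool.Agent.Lib.QG.BD_de00_1111
import Pool.Agent.Lib.QG.BD_de11_111
import Pool.Agent.Lib.QG.BD_s11_3
import Pool.Agent.Lib.QG.BD_th11_122
import Pool.Agent.Lib.QG.BD_la00_012
import Pool.Agent.Lib.QG.BD_la00_111
import Pool.Agent.Lib.QG.BD_de10_22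
import Pool.Agent.Lib.QG.BD_de10_211
import Pool.Agent.Lib.QG.BD_de10_1111
import Pool.Agent.Lib.QG.BD_th00_123
import Pool.Agent.Lib.QG.BD_th00_222
import Pool.Agent.Lib.QG.BD_s00_4
import Pool.Agent.Lib.QG.BD_la11_011
import Pool.Agent.Lib.QG.BD_de01_22
import Pool.Agent.Lib.QG.BD_de01_211
import Pool.Agent.Lib.QG.BD_de01_1111
import Pool.Agent.Lib.QG.BD_w5
import Pool.Agent.Lib.QG.BD_th10_222
import Pool.Agent.Lib.QG.BD_s10_4
import Pool.Agent.Lib.QG.BD_de11_22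
import Pool.Agent.Lib.QG.BD_de00_2111
import Pool.Agent.Lib.QG.BD_la10_012
import Pool.Agent.Lib.QG.BD_la10_111
import Pool.Agent.Lib.QG.BD_de11_211
import Pool.Agent.Lib.QG.BD_de11_1111
import Pool.Agent.Lib.QG.BD_th11_222
import Pool.Agent.Lib.QG.BD_s11_4
import Pool.Agent.Lib.QG.BD_la00_022
import Pool.Agent.Lib.QG.BD_la00_112
import Pool.Agent.Lib.QG.BD_de10_2111
import Pool.Agent.Lib.QG.BD_la11_012
import Pool.Agent.Lib.QG.BD_la11_111
import Pool.Agent.Lib.QG.BD_la10_112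
import Pool.Agent.Lib.QG.BD_la11_112
import Pool.Agent.Lib.QG.BD_n4_0
import Pool.Agent.Lib.QG.BD_n5_0
import Pool.Agent.Lib.QG.BD_n5_1
import Pool.Agent.Lib.QG.BD_n6_0
import Pool.Agent.Lib.QG.BD_n6_1
import Pool.Agent.Lib.QG.BD_n6_2
import Pool.Agent.Lib.QG.BD_n7_0
import Pool.Agent.Lib.QG.BD_n7_1
import Pool.Agent.Lib.QG.BD_n7_2
import Pool.Agent.Lib.QG.BD_n7_3
import Pool.Agent.Lib.QG.BD_n7_4
import Pool.Agent.Lib.QG.BD_n7_5
import Pool.Agent.Lib.QG.BT1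
import Pool.Agent.Lib.QG.BT2
import Pool.Agent.Lib.QG.BT3
import Pool.Agent.Lib.QG.BT4
import Pool.Agent.Lib.QG.BT5
import Pool.Agent.Lib.QG.BT6
import Pool.Agent.Lib.QG.BT7
import Pool.Agent.Lib.QG.BT8
import Pool.Agent.Lib.QG.JL0

/-! MP_2e6874_co, part (B): all one-element extensions of the explicit point sets. -/

set_option autoImplicit false

namespace QG

theorem lx_w4 : LExt 4 tV_w4.length (vecL 4 tV_w4) (vecP 4 tP_w4) := lext_w4
theorem lx_s10_3 : LExt 4 tV_s10_3.length (vecL 4 tV_s10_3) (vecP 4 tP_s10_3) := lext_s10_3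
theorem lx_th10_122 : LExt 4 tV_th10_122.length (vecL 4 tV_th10_122) (vecP 4 tP_th10_122) := lext_th10_122
theorem lx_la10_011 : LExt 4 tV_la10_011.length (vecL 4 tV_la10_011) (vecP 4 tP_la10_011) := lext_la10_011
theorem lx_de00_22 : LExt 4 tV_de00_22.length (vecL 4 tV_de00_22) (vecP 4 tP_de00_22) := lext_de00_22
theorem lx_de00_211 : LExt 4 tV_de00_211.length (vecL 4 tV_de00_211) (vecP 4 tP_de00_211) := lext_de00_211
theorem lx_de00_1111 : LExt 4 tV_de00_1111.length (vecL 4 tV_de00_1111) (vecP 4 tP_de00_1111) := lext_de00_1111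
theorem lx_de11_111 : LExt 4 tV_de11_111.length (vecL 4 tV_de11_111) (vecP 4 tP_de11_111) := lext_de11_111
theorem lx_s11_3 : LExt 4 tV_s11_3.length (vecL 4 tV_s11_3) (vecP 4 tP_s11_3) := lext_s11_3
theorem lx_th11_122 : LExt 4 tV_th11_122.length (vecL 4 tV_th11_122) (vecP 4 tP_th11_122) := lext_th11_122
theorem lx_la00_012 : LExt 4 tV_la00_012.length (vecL 4 tV_la00_012) (vecP 4 tP_la00_012) := lext_la00_012
theorem lx_la00_111 : LExt 4 tV_la00_111.length (vecL 4 tV_la00_111) (vecP 4 tP_la00_111) := lext_la00_111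
theorem lx_de10_22 : LExt 4 tV_de10_22.length (vecL 4 tV_de10_22) (vecP 4 tP_de10_22) := lext_de10_22
theorem lx_de10_211 : LExt 4 tV_de10_211.length (vecL 4 tV_de10_211) (vecP 4 tP_de10_211) := lext_de10_211
theorem lx_de10_1111 : LExt 4 tV_de10_1111.length (vecL 4 tV_de10_1111) (vecP 4 tP_de10_1111) := lext_de10_1111
theorem lx_th00_123 : LExt 5 tV_th00_123.length (vecL 5 tV_th00_123) (vecP 5 tP_th00_123) := lext_th00_123
theorem lx_th00_222 : LExt 5 tV_th00_222.length (vecL 5 tV_th00_222) (vecP 5 tP_th00_222) := lext_th00_222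
theorem lx_s00_4 : LExt 5 tV_s00_4.length (vecL 5 tV_s00_4) (vecP 5 tP_s00_4) := lext_s00_4
theorem lx_la11_011 : LExt 5 tV_la11_011.length (vecL 5 tV_la11_011) (vecP 5 tP_la11_011) := lext_la11_011
theorem lx_de01_22 : LExt 5 tV_de01_22.length (vecL 5 tV_de01_22) (vecP 5 tP_de01_22) := lext_de01_22
theorem lx_de01_211 : LExt 5 tV_de01_211.length (vecL 5 tV_de01_211) (vecP 5 tP_de01_211) := lext_de01_211
theorem lx_de01_1111 : LExt 5 tV_de01_1111.length (vecL 5 tV_de01_1111) (vecP 5 tP_de01_1111) := lext_de01_1111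
theorem lx_w5 : LExt 5 tV_w5.length (vecL 5 tV_w5) (vecP 5 tP_w5) := lext_w5
theorem lx_th10_222 : LExt 5 tV_th10_222.length (vecL 5 tV_th10_222) (vecP 5 tP_th10_222) := lext_th10_222
theorem lx_s10_4 : LExt 5 tV_s10_4.length (vecL 5 tV_s10_4) (vecP 5 tP_s10_4) := lext_s10_4
theorem lx_de11_22 : LExt 5 tV_de11_22.length (vecL 5 tV_de11_22) (vecP 5 tP_de11_22) := lext_de11_22
theorem lx_de00_2111 : LExt 5 tV_de00_2111.length (vecL 5 tV_de00_2111) (vecP 5 tP_de00_2111) := lext_de00_2111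
theorem lx_la10_012 : LExt 5 tV_la10_012.length (vecL 5 tV_la10_012) (vecP 5 tP_la10_012) := lext_la10_012
theorem lx_la10_111 : LExt 5 tV_la10_111.length (vecL 5 tV_la10_111) (vecP 5 tP_la10_111) := lext_la10_111
theorem lx_de11_211 : LExt 5 tV_de11_211.length (vecL 5 tV_de11_211) (vecP 5 tP_de11_211) := lext_de11_211
theorem lx_de11_1111 : LExt 5 tV_de11_1111.length (vecL 5 tV_de11_1111) (vecP 5 tP_de11_1111) := lext_de11_1111
theorem lx_th11_222 : LExt 5 tV_th11_222.length (vecL 5 tV_th11_222) (vecP 5 tP_th11_222) := lext_th11_222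
theorem lx_s11_4 : LExt 5 tV_s11_4.length (vecL 5 tV_s11_4) (vecP 5 tP_s11_4) := lext_s11_4
theorem lx_la00_022 : LExt 5 tV_la00_022.length (vecL 5 tV_la00_022) (vecP 5 tP_la00_022) := lext_la00_022
theorem lx_la00_112 : LExt 5 tV_la00_112.length (vecL 5 tV_la00_112) (vecP 5 tP_la00_112) := lext_la00_112
theorem lx_de10_2111 : LExt 5 tV_de10_2111.length (vecL 5 tV_de10_2111) (vecP 5 tP_de10_2111) := lext_de10_2111
theorem lx_la11_012 : LExt 6 tV_la11_012.length (vecL 6 tV_la11_012) (vecP 6 tP_la11_012) := lext_la11_012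
theorem lx_la11_111 : LExt 6 tV_la11_111.length (vecL 6 tV_la11_111) (vecP 6 tP_la11_111) := lext_la11_111
theorem lx_la10_112 : LExt 6 tV_la10_112.length (vecL 6 tV_la10_112) (vecP 6 tP_la10_112) := lext_la10_112
theorem lx_la11_112 : LExt 7 tV_la11_112.length (vecL 7 tV_la11_112) (vecP 7 tP_la11_112) := lext_la11_112

theorem lx_n4_0 : LExt 2 sV_n4_0.length (vecL 2 sV_n4_0) (vecP 2 sP_n4_0) := lext_n4_0
theorem lx_n5_0 : LExt 2 sV_n5_0.length (vecL 2 sV_n5_0) (vecP 2 sP_n5_0) := lext_n5_0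
theorem lx_n5_1 : LExt 3 sV_n5_1.length (vecL 3 sV_n5_1) (vecP 3 sP_n5_1) := lext_n5_1
theorem lx_n6_0 : LExt 3 sV_n6_0.length (vecL 3 sV_n6_0) (vecP 3 sP_n6_0) := lext_n6_0
theorem lx_n6_1 : LExt 3 sV_n6_1.length (vecL 3 sV_n6_1) (vecP 3 sP_n6_1) := lext_n6_1
theorem lx_n6_2 : LExt 3 sV_n6_2.length (vecL 3 sV_n6_2) (vecP 3 sP_n6_2) := lext_n6_2
theorem lx_n7_0 : LExt 3 sV_n7_0.length (vecL 3 sV_n7_0) (vecP 3 sP_n7_0) := lext_n7_0
theorem lx_n7_1 : LExt 3 sV_n7_1.length (vecL 3 sV_n7_1) (vecP 3 sP_n7_1) := lext_n7_1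
theorem lx_n7_2 : LExt 3 sV_n7_2.length (vecL 3 sV_n7_2) (vecP 3 sP_n7_2) := lext_n7_2
theorem lx_n7_3 : LExt 4 sV_n7_3.length (vecL 4 sV_n7_3) (vecP 4 sP_n7_3) := lext_n7_3
theorem lx_n7_4 : LExt 4 sV_n7_4.length (vecL 4 sV_n7_4) (vecP 4 sP_n7_4) := lext_n7_4
theorem lx_n7_5 : LExt 4 sV_n7_5.length (vecL 4 sV_n7_5) (vecP 4 sP_n7_5) := lext_n7_5

end QG
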