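import Pool.Agent.Lib.QG.T3
import Pool.Agent.Lib.QG.C1

/-! MP_2e6874_co, row MA1: Mason's inequality. -/

set_option autoImplicit false

namespace QG
open Set Matroid

private theorem MA1_ie {α : Type} [Finite α] {ι : Type} [DecidableEq ι] (s : Finset ι)
    (X : ι → Set α) : ((⋃ i ∈ s, X i).ncard : ℤ) =
      ∑ J ∈ s.powerset.filter (fun J => J.Nonempty),
        (-1) ^ (J.card + 1) * ((⋂ i ∈ J, X i).ncard : ℤ) := by
  classical
  have := Fintype.ofFinite α
  have h1 : (⋃ i ∈ s, X i).ncard = (s.biUnion fun i => (X i).toFinset).card := by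
    rw [Set.ncard_eq_toFinset_card']
    congr 1
    ext x
    simp
  rw [h1, Finset.inclusion_exclusion_card_biUnion]
  rw [← Finset.sum_coe_sort (s.powerset.filter (fun J => J.Nonempty))
    (fun J => (-1) ^ (J.card + 1) * ((⋂ i ∈ J, X i).ncard : ℤ))]
  refine Finset.sum_congr rfl fun J _ => ?_
  congr 2
  rw [Set.ncard_eq_toFinset_card']
  congr 1
  ext x
  rw [Finset.mem_inf']
  simp

theorem mason_flats {V S : Type} [Finite V] [Finite S] (N : Matroid V) (hE : N.E = univ)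
    (A : S → Set V) (hle : ∀ Y : Set V, {s | A s ⊆ Y}.ncard + rk N Y ≤ Y.ncard)
    (heq : ∀ Y : Set V, N.closure Y = Y → {s | A s ⊆ Y}.ncard + rk N Y = Y.ncard)
    {ι : Type} [DecidableEq ι] (s : Finset ι) (X : ι → Set V)
    (hX : ∀ i ∈ s, N.closure (X i) = X i) :
    (rk N (⋃ i ∈ s, X i) : ℤ) ≤
      ∑ J ∈ s.powerset.filter (fun J => J.Nonempty),
        (-1) ^ (J.card + 1) * (rk N (⋂ i ∈ J, X i) : ℤ) := by
  have h1 := MA1_ie s X
  have h2 := MA1_ie s (fun i => {σ | A σ ⊆ X i})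
  have h3 : (⋃ i ∈ s, {σ | A σ ⊆ X i}).ncard ≤ {σ | A σ ⊆ ⋃ i ∈ s, X i}.ncard := by
    refine Set.ncard_le_ncard ?_ (Set.toFinite _)
    intro σ hσ
    simp only [mem_iUnion, mem_ofPred_eq, exists_prop] at hσ
    obtain ⟨i, hi, h⟩ := hσ
    exact h.trans (Set.subset_biUnion_of_mem (u := X) hi)
  have h4 := hle (⋃ i ∈ s, X i)
  have h5 : ∑ J ∈ s.powerset.filter (fun J => J.Nonempty),
      (-1) ^ (J.card + 1) * (rk N (⋂ i ∈ J, X i) : ℤ) =
      ((⋃ i ∈ s, X i).ncard : ℤ) - ((⋃ i ∈ s, {σ | A σ ⊆ X i}).ncard : ℤ) := by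
    rw [h1, h2, ← Finset.sum_sub_distrib]
    refine Finset.sum_congr rfl fun J hJ => ?_
    rw [Finset.mem_filter, Finset.mem_powerset] at hJ
    have h6 : N.closure (⋂ i ∈ J, X i) = ⋂ i ∈ J, X i := by
      refine Set.Subset.antisymm ?_ (N.subset_closure _ (by rw [hE]; exact subset_univ _))
      refine Set.subset_iInter₂ fun i hi => ?_
      have h9 := N.closure_subset_closure
        (Set.biInter_subset_of_mem hi : ⋂ i ∈ J, X i ⊆ X i)
      rwa [hX i (hJ.1 hi)] at h9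
    have h7 := heq _ h6
    have h8 : {σ | A σ ⊆ ⋂ i ∈ J, X i} = ⋂ i ∈ J, {σ | A σ ⊆ X i} := by
      ext σ
      simp
    rw [h8] at h7
    rw [← mul_sub]
    congr 1
    omega
  rw [h5]
  omega

end QG
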