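import Pool.Agent.Lib.QG.T4
set_option autoImplicit false

/-! Row T5. Mason's inequality in rank three, in the strict gammoid N.
Let L i := closure (l i) (rank 2), U := union of the L i, T ⊇ E a maximal set of pairwise independent
nonloops (representatives of all points; exists by finiteness). If ι is empty the claim is
3 ≤ |E| (rk N E = 3). c' i := {s | A s ⊆ L i, A s not contained in any closure {v}}: by heq for L i and
count_points for G = L i it has |L i ∩ T| - 2 elements; the sets c' i are disjoint (A s ⊆ L i ∩ L j has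
rank at most 1, by hd). By hle for Y = U ∪ E (rank 3): (|U| - |U ∩ T|) + Σ (|L i ∩ T| - 2) + 3 ≤ |U ∪ E|
(count_points for G = U), i.e. Σ (|L i ∩ T| - 2) + 3 ≤ |U ∩ T| + |E \ U|. Since
|L i ∩ T| = |L i ∩ E| + |L i ∩ (T \ E)| and |U ∩ T| ≤ |U ∩ E| + Σ |L i ∩ (T \ E)|, the extra points cancel. -/

namespace QG
open Set Matroid

private theorem T5_sum {S ι : Type} [Finite S] [Fintype ι] (c : ι → Set S) (P Q : Set S)
    (hc : ∀ i, c i ⊆ Q) (hP : P ⊆ Q) (hd : ∀ i j, i ≠ j → Disjoint (c i) (c j))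
    (hPd : ∀ i, Disjoint P (c i)) : P.ncard + ∑ i, (c i).ncard ≤ Q.ncard := by
  classical
  have hfin := Fintype.ofFinite S
  have e : ∀ X : Set S, X.ncard = X.toFinset.card := fun X => ncard_eq_toFinset_card' X
  rw [e P, e Q, Finset.sum_congr rfl (fun i _ => e (c i)), ← Finset.card_biUnion,
    ← Finset.card_union_of_disjoint]
  · refine Finset.card_le_card ?_
    intro s hs
    rw [mem_toFinset]
    rcases Finset.mem_union.1 hs with h | h
    · exact hP (mem_toFinset.1 h)
    · obtain ⟨i, -, hi⟩ := Finset.mem_biUnion.1 h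
      exact hc i (mem_toFinset.1 hi)
  · rw [Finset.disjoint_left]
    intro s h1 h2
    obtain ⟨i, -, hi⟩ := Finset.mem_biUnion.1 h2
    exact disjoint_left.1 (hPd i) (mem_toFinset.1 h1) (mem_toFinset.1 hi)
  · intro i _ j _ hij
    show Disjoint (c i).toFinset (c j).toFinset
    rw [Finset.disjoint_left]
    intro s h1 h2
    exact disjoint_left.1 (hd i j hij) (mem_toFinset.1 h1) (mem_toFinset.1 h2)

private theorem T5_union {V ι : Type} [Finite V] [Fintype ι] (X Z : Set V) (c : ι → Set V)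
    (h : ∀ x ∈ X, x ∈ Z ∨ ∃ i, x ∈ c i) : X.ncard ≤ Z.ncard + ∑ i, (c i).ncard := by
  classical
  have hfin := Fintype.ofFinite V
  have e : ∀ X : Set V, X.ncard = X.toFinset.card := fun X => ncard_eq_toFinset_card' X
  rw [e X, e Z, Finset.sum_congr rfl (fun i _ => e (c i))]
  refine le_trans (Finset.card_le_card (t := Z.toFinset ∪
    Finset.univ.biUnion (fun i => (c i).toFinset)) ?_) ?_
  · intro x hx
    rw [Finset.mem_union]
    rcases h x (mem_toFinset.1 hx) with h1 | ⟨i, hi⟩
    · exact Or.inl (mem_toFinset.2 h1)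
    · exact Or.inr (Finset.mem_biUnion.2 ⟨i, Finset.mem_univ i, mem_toFinset.2 hi⟩)
  · exact (Finset.card_union_le _ _).trans (Nat.add_le_add_left Finset.card_biUnion_le _)

/-- existence of representatives of the points -/
private theorem T5_reps {V : Type} [Finite V] (N : Matroid V) [N.Finite] (hE : N.E = univ)
    (E : Set V) (h1 : ∀ x ∈ E, N.Indep {x})
    (hs : ∀ x ∈ E, ∀ y ∈ E, x ≠ y → N.Indep {x, y}) :
    ∃ T : Set V, E ⊆ T ∧ (∀ t ∈ T, N.Indep {t}) ∧
      (∀ t ∈ T, ∀ t' ∈ T, t' ∈ N.closure {t} → t' = t) ∧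
      (∀ v, v ∉ N.closure ∅ → ∃ t ∈ T, v ∈ N.closure {t}) := by
  classical
  have key : ∀ x y, N.Indep {x} → y ∈ N.closure {x} → N.Indep {x, y} → y = x := by
    intro x y hx hy hxy
    by_contra hne
    have h2 := (mem_closure_iff_rk N (by rw [hE]; exact mem_univ y) {x}).1 hy
    rw [pair_comm] at hxy
    rw [Indep.rk_eq hxy, Indep.rk_eq hx, ncard_pair hne, ncard_singleton] at h2
    omega
  obtain ⟨T, hT⟩ := (toFinite {T : Set V | E ⊆ T ∧ (∀ t ∈ T, N.Indep {t}) ∧
      (∀ t ∈ T, ∀ t' ∈ T, t' ∈ N.closure {t} → t' = t)}).exists_maximal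
      ⟨E, subset_rfl, h1, fun t ht t' ht' h => by
        by_contra hne
        exact hne (key t t' (h1 t ht) h (hs t ht t' ht' (fun h' => hne h'.symm)))⟩
  obtain ⟨hET, hTi, hT2⟩ := hT.prop
  refine ⟨T, hET, hTi, hT2, ?_⟩
  intro v hv
  by_contra hcon
  push Not at hcon
  have hvi : N.Indep {v} := by
    rw [indep_iff_rk N (by rw [hE]; exact subset_univ _), ncard_singleton]
    have h3 : rk N (insert v ∅) ≠ rk N ∅ := fun h =>
      hv ((mem_closure_iff_rk N (by rw [hE]; exact mem_univ v) ∅).2 h)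
    have h4 := rk_insert_le N v ∅
    rw [rk_empty] at h3 h4
    simp only [insert_empty_eq] at h3 h4
    omega
  have hvT : v ∉ T := fun h => hcon v h (N.subset_closure {v} (by rw [hE]; exact subset_univ _) rfl)
  have hpair : ∀ t ∈ T, N.Indep {t, v} := by
    intro t ht
    rw [indep_iff_rk N (by rw [hE]; exact subset_univ _)]
    have hne : t ≠ v := fun h => hvT (h ▸ ht)
    rw [ncard_pair hne]
    have h3 : rk N (insert v {t}) ≠ rk N {t} := fun h =>
      hcon t ht ((mem_closure_iff_rk N (by rw [hE]; exact mem_univ v) {t}).2 h)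
    have h4 := rk_insert_le N v {t}
    have h5 := rk_mono N (subset_insert v {t})
    rw [Indep.rk_eq (hTi t ht), ncard_singleton] at h3 h4 h5
    rw [pair_comm]
    omega
  have hins : insert v T ∈ {T : Set V | E ⊆ T ∧ (∀ t ∈ T, N.Indep {t}) ∧
      (∀ t ∈ T, ∀ t' ∈ T, t' ∈ N.closure {t} → t' = t)} := by
    refine ⟨hET.trans (subset_insert v T), ?_, ?_⟩
    · rintro t (rfl | ht)
      · exact hvi
      · exact hTi t ht
    · rintro t (rfl | ht) t' (rfl | ht') h
      · rfl
      · refine key _ _ hvi h ?_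
        rw [pair_comm]
        exact hpair t' ht'
      · exact absurd h (hcon t ht)
      · exact hT2 t ht t' ht' h
  exact hvT (hT.le_of_ge hins (subset_insert v T) (mem_insert v T))

theorem count_abs {V S : Type} [Finite V] [Finite S] (N : Matroid V) (hE : N.E = univ)
    (A : S → Set V) (h3 : rk N univ = 3)
    (hle : ∀ Y : Set V, {s | A s ⊆ Y}.ncard + rk N Y ≤ Y.ncard)
    (heq : ∀ Y : Set V, N.closure Y = Y → {s | A s ⊆ Y}.ncard + rk N Y = Y.ncard)
    (E : Set V) (hs : ∀ x ∈ E, ∀ y ∈ E, x ≠ y → N.Indep {x, y}) (hE3 : rk N E = 3)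
    {ι : Type} [Fintype ι] (l : ι → Set V)
    (hl : ∀ i, l i ⊆ E ∧ rk N (l i) = 2 ∧ 3 ≤ (l i).ncard)
    (hd : ∀ i j, i ≠ j → rk N (l i ∪ l j) = 3) :
    ∑ i, ((l i).ncard - 2) + 3 ≤ E.ncard := by
  classical
  have hfinN : N.Finite := ⟨toFinite _⟩
  have hsub : ∀ X : Set V, X ⊆ N.E := fun X => by rw [hE]; exact subset_univ X
  have hE3' : 3 ≤ E.ncard := by
    rw [← hE3]
    exact rk_le_ncard N (hsub E)
  rcases isEmpty_or_nonempty ι with hι | ⟨⟨i0⟩⟩
  · simpa using hE3'
  have h1 : ∀ x ∈ E, N.Indep {x} := by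
    intro x hx
    obtain ⟨y, hy, hyx⟩ : ∃ y ∈ E, y ≠ x := by
      by_contra hcon
      push Not at hcon
      have : E ⊆ {x} := fun y hy => hcon y hy
      have h4 := ncard_le_ncard this
      rw [ncard_singleton] at h4
      omega
    exact (hs x hx y hy hyx.symm).subset (by simp)
  obtain ⟨T, hET, hT, hT2, hT3⟩ := T5_reps N hE E h1 hs
  set L : ι → Set V := fun i => N.closure (l i) with hL
  set U : Set V := ⋃ i, L i with hU
  have hrkL : ∀ i, rk N (L i) = 2 := fun i => by rw [hL]; simp only; rw [rk_closure, (hl i).2.1]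
  have hclL : ∀ i, N.closure (L i) = L i := fun i => N.closure_closure _
  have hlL : ∀ i, l i ⊆ L i := fun i => N.subset_closure (l i) (hsub _)
  have hclo : ∀ i, N.closure ∅ ⊆ L i := fun i => N.closure_subset_closure (empty_subset _)
  have hptL : ∀ i, ∀ v ∈ L i, N.closure {v} ⊆ L i := by
    intro i v hv
    rw [← hclL i]
    exact N.closure_subset_closure (singleton_subset_iff.2 hv)
  have hneL : ∀ i, (L i).Nonempty := by
    intro i
    have h4 := (hl i).2.2
    have : (l i).Nonempty := by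
      rw [← ncard_pos]
      omega
    exact this.mono (hlL i)
  -- sets of rank at most one
  have hone : ∀ i s, A s ⊆ L i → rk N (A s) ≤ 1 → ∃ v ∈ L i, A s ⊆ N.closure {v} := by
    intro i s hsL hr
    by_cases h4 : A s ⊆ N.closure ∅
    · obtain ⟨v, hv⟩ := hneL i
      exact ⟨v, hv, h4.trans (N.closure_subset_closure (empty_subset _))⟩
    · obtain ⟨x, hx, hxn⟩ := not_subset.1 h4
      refine ⟨x, hsL hx, ?_⟩
      intro y hy
      rw [mem_closure_iff_rk N (hsub univ (mem_univ y))]
      have h5 : rk N (insert x ∅) ≠ rk N ∅ := fun h =>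
        hxn ((mem_closure_iff_rk N (hsub univ (mem_univ x)) ∅).2 h)
      rw [rk_empty, insert_empty_eq] at h5
      have h6 : rk N (insert y {x}) ≤ rk N (A s) :=
        rk_mono N (insert_subset hy (singleton_subset_iff.2 hx))
      have h7 := rk_mono N (subset_insert y {x})
      omega
  set P : Set V → Set S := fun G => {s | ∃ v ∈ G, A s ⊆ N.closure {v}} with hP
  set c : ι → Set S := fun i => {s | A s ⊆ L i ∧ 2 ≤ rk N (A s)} with hc
  have hPr : ∀ G s, s ∈ P G → rk N (A s) ≤ 1 := by
    rintro G s ⟨v, -, hv⟩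
    refine (rk_mono N hv).trans ?_
    rw [rk_closure]
    exact (rk_le_ncard N (hsub {v})).trans (by rw [ncard_singleton])
  -- the number of the sets inside a line
  have hcc : ∀ i, (c i).ncard + 2 = (L i ∩ T).ncard := by
    intro i
    have e1 := heq (L i) (hclL i)
    have e2 := count_points N hE A heq T hT hT2 hT3 (L i) (hclo i) (hptL i) (hneL i)
    have e3 : {s | A s ⊆ L i} = P (L i) ∪ c i := by
      ext s
      constructor
      · intro h
        rcases Nat.lt_or_ge (rk N (A s)) 2 with h4 | h4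
        · exact Or.inl (hone i s h (by omega))
        · exact Or.inr ⟨h, h4⟩
      · rintro (⟨v, hv, h⟩ | h)
        · exact h.trans (hptL i v hv)
        · exact h.1
    have e4 : Disjoint (P (L i)) (c i) := by
      rw [disjoint_left]
      intro s h4 h5
      have h6 := hPr _ s h4
      have h7 := h5.2
      omega
    rw [e3, ncard_union_eq e4 (toFinite _) (toFinite _), hrkL] at e1
    have e5 : (P (L i)).ncard + (L i ∩ T).ncard = (L i).ncard := e2
    omega
  have e1 := count_points N hE A heq T hT hT2 hT3 U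
    ((hclo i0).trans (subset_iUnion L i0))
    (fun v hv => by
      obtain ⟨i, hi⟩ := mem_iUnion.1 hv
      exact (hptL i v hi).trans (subset_iUnion L i))
    ((hneL i0).mono (subset_iUnion L i0))
  have e1' : (P U).ncard + (U ∩ T).ncard = U.ncard := e1
  have e2 := hle (U ∪ E)
  have e3 : rk N (U ∪ E) = 3 := by
    refine le_antisymm ?_ ?_
    · rw [← h3]
      exact rk_mono N (subset_univ _)
    · rw [← hE3]
      exact rk_mono N subset_union_right
  have e4 : (P U).ncard + ∑ i, (c i).ncard ≤ {s | A s ⊆ U ∪ E}.ncard := by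
    refine T5_sum c (P U) _ ?_ ?_ ?_ ?_
    · intro i s hs'
      exact hs'.1.trans ((subset_iUnion L i).trans subset_union_left)
    · rintro s ⟨v, hv, h⟩
      obtain ⟨i, hi⟩ := mem_iUnion.1 hv
      exact h.trans ((hptL i v hi).trans ((subset_iUnion L i).trans subset_union_left))
    · intro i j hij
      rw [disjoint_left]
      intro s h4 h5
      have h6 : rk N (A s) ≤ rk N (L i ∩ L j) := rk_mono N (subset_inter h4.1 h5.1)
      have h7 := rk_submod N (L i) (L j)
      have h8 : rk N (l i ∪ l j) ≤ rk N (L i ∪ L j) :=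
        rk_mono N (union_subset_union (hlL i) (hlL j))
      rw [hd i j hij] at h8
      rw [hrkL, hrkL] at h7
      have h9 := h4.2
      omega
    · intro i
      rw [disjoint_left]
      intro s h4 h5
      have h6 := hPr _ s h4
      have h7 := h5.2
      omega
  have e5 : (U ∪ E).ncard = U.ncard + (E \ U).ncard := by
    rw [← union_sdiff_self, ncard_union_eq disjoint_sdiff_right (toFinite _) (toFinite _)]
  have e6 : (U ∩ T).ncard ≤ (U ∩ E).ncard + ∑ i, (L i ∩ (T \ E)).ncard := by
    refine T5_union _ _ _ ?_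
    rintro x ⟨hxU, hxT⟩
    by_cases hxE : x ∈ E
    · exact Or.inl ⟨hxU, hxE⟩
    · obtain ⟨i, hi⟩ := mem_iUnion.1 hxU
      exact Or.inr ⟨i, hi, hxT, hxE⟩
  have e7 : ∀ i, (L i ∩ T).ncard = (L i ∩ E).ncard + (L i ∩ (T \ E)).ncard := by
    intro i
    rw [← ncard_union_eq _ (toFinite _) (toFinite _)]
    · congr 1
      ext x
      constructor
      · rintro ⟨h4, h5⟩
        by_cases h6 : x ∈ E
        · exact Or.inl ⟨h4, h6⟩
        · exact Or.inr ⟨h4, h5, h6⟩
      · rintro (⟨h4, h5⟩ | ⟨h4, h5, -⟩)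
        · exact ⟨h4, hET h5⟩
        · exact ⟨h4, h5⟩
    · rw [disjoint_left]
      rintro x ⟨-, h4⟩ ⟨-, -, h5⟩
      exact h5 h4
  have e8 : (U ∩ E).ncard + (E \ U).ncard = E.ncard := by
    rw [inter_comm]
    exact ncard_inter_add_ncard_sdiff_eq_ncard E U (toFinite _)
  have e9 : ∀ i, (l i).ncard - 2 + (L i ∩ (T \ E)).ncard ≤ (c i).ncard := by
    intro i
    have h4 := hcc i
    rw [e7 i] at h4
    have h5 : (l i).ncard ≤ (L i ∩ E).ncard :=
      ncard_le_ncard (subset_inter (hlL i) (hl i).1)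
    have h6 := (hl i).2.2
    omega
  have e10 := Finset.sum_le_sum (s := Finset.univ) (fun i _ => e9 i)
  rw [Finset.sum_add_distrib] at e10
  omega

end QG
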