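import Pool.Agent.Lib.QG.T3
import Pool.Agent.Lib.QG.T5
set_option autoImplicit false

/-! Row T6. Mason's inequality for gammoids of rank three: transport M to f '' M.E in N
(Gammoid.strict) and use count_abs; rk N (f '' X) = rk M X for X ⊆ M.E (compare independent
subsets). -/

namespace QG
open Set Matroid

private theorem T6_rk {α V : Type} {M : Matroid α} {N : Matroid V} {f : α → V}
    (hf : InjOn f M.E) (hI : ∀ I, I ⊆ M.E → (M.Indep I ↔ N.Indep (f '' I))) {X : Set α}
    (hX : X ⊆ M.E) : rk N (f '' X) = rk M X := by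
  unfold rk
  congr 1
  apply le_antisymm
  · rw [Matroid.eRk_le_iff]
    intro J hJ hJi
    have h1 : f '' (X ∩ f ⁻¹' J) = J := by
      rw [image_inter_preimage]
      exact inter_eq_right.2 hJ
    have h2 : X ∩ f ⁻¹' J ⊆ X := inter_subset_left
    have h3 : M.Indep (X ∩ f ⁻¹' J) := by
      rw [hI _ (h2.trans hX), h1]
      exact hJi
    calc J.encard = (f '' (X ∩ f ⁻¹' J)).encard := by rw [h1]
      _ = (X ∩ f ⁻¹' J).encard := (hf.mono (h2.trans hX)).encard_image
      _ ≤ M.eRk X := h3.encard_le_eRk_of_subset h2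
  · rw [Matroid.eRk_le_iff]
    intro I hIX hIi
    have h1 : N.Indep (f '' I) := (hI I (hIX.trans hX)).1 hIi
    rw [← (hf.mono (hIX.trans hX)).encard_image]
    exact h1.encard_le_eRk_of_subset (image_mono hIX)

theorem Gammoid.count {α : Type} {M : Matroid α} (hG : Gammoid M) (h3 : rk M M.E = 3)
    (hs : ∀ x ∈ M.E, ∀ y ∈ M.E, x ≠ y → M.Indep {x, y}) {ι : Type} [Fintype ι] (l : ι → Set α)
    (hl : ∀ i, l i ⊆ M.E ∧ rk M (l i) = 2 ∧ 3 ≤ (l i).ncard)
    (hd : ∀ i j, i ≠ j → rk M (l i ∪ l j) = 3) :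
    ∑ i, ((l i).ncard - 2) + 3 ≤ M.E.ncard := by
  have hne : M.E.Nonempty := by
    rw [nonempty_iff_ne_empty]
    intro h
    rw [h] at h3
    simp [rk] at h3
  obtain ⟨V, S, N, A, f, hV, hS, hE, hrk, hf, hI, hle, heq⟩ := hG.strict hne
  have key : ∀ X, X ⊆ M.E → rk N (f '' X) = rk M X := fun X hX => T6_rk hf hI hX
  have hcard : ∀ X, X ⊆ M.E → (f '' X).ncard = X.ncard := fun X hX =>
    (hf.mono hX).ncard_image
  have h := count_abs N hE A (hrk.trans h3) hle heq (f '' M.E)
    (by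
      rintro _ ⟨x, hx, rfl⟩ _ ⟨y, hy, rfl⟩ hxy
      have h1 : M.Indep {x, y} := hs x hx y hy (fun h => hxy (by rw [h]))
      rw [hI _ (by rintro z (rfl | rfl); exacts [hx, hy]), image_pair] at h1
      exact h1)
    ((key M.E subset_rfl).trans h3) (fun i => f '' (l i))
    (fun i => ⟨image_mono (hl i).1, (key _ (hl i).1).trans (hl i).2.1, by
      rw [hcard _ (hl i).1]
      exact (hl i).2.2⟩)
    (fun i j hij => by
      rw [← image_union, key _ (union_subset (hl i).1 (hl j).1)]
      exact hd i j hij)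
  rw [hcard _ subset_rfl] at h
  have h4 : ∀ i, (f '' (l i)).ncard = (l i).ncard := fun i => hcard _ (hl i).1
  simp only [h4] at h
  exact h

end QG
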