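import Pool.Agent.Lib.QG.MA1
import Pool.Agent.Lib.QG.T6
import Pool.Agent.Lib.QG.D0
import Pool.Agent.Lib.QG.K1a

/-! MP_2e6874_co, row MA2: planes in a strict gammoid which contains a gammoid of rank four. -/

set_option autoImplicit false

namespace QG
open Set Matroid

/-- alternating sum over the nonzero masks `J` below `2 ^ m` which are contained in `T`, at `J ||| c` -/
def msum (m T c : ℕ) (r : ℕ → ℤ) : ℤ :=
  ((List.range (2 ^ m)).map (fun J => if J = 0 then 0 else if J &&& T = J then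
    (if popc m J % 2 = 1 then r (J ||| c) else - r (J ||| c)) else 0)).sum

/-- `r J` is the rank of the intersection of the flats (planes) `X j`, `j ∈ J` (`J` a mask) which are
spanned by the sets `F j` in the strict gammoid -/
structure PS (L : Finset (Finset (Fin 8))) (m : ℕ) (F : ℕ → Finset (Fin 8)) (r : ℕ → ℕ) : Prop where
  one : ∀ i < m, r (2 ^ i) = 3
  two : ∀ J < 2 ^ m, 2 ≤ popc m J → r J ≤ 2
  pt : ∀ J < 2 ^ m, J ≠ 0 → ∀ x, (∀ j < m, J.testBit j = true → x ∈ F j) → 1 ≤ r J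
  pt2 : ∀ J < 2 ^ m, J ≠ 0 → ∀ x y, x ≠ y → (∀ j < m, J.testBit j = true → x ∈ F j ∧ y ∈ F j) →
    2 ≤ r J
  lt : ∀ J < 2 ^ m, J ≠ 0 → ∀ k < m, ∀ x, (∀ j < m, J.testBit j = true → x ∈ F j) → x ∉ F k →
    r (J ||| 2 ^ k) + 1 ≤ r J
  mono : ∀ J < 2 ^ m, J ≠ 0 → ∀ k < m, r (J ||| 2 ^ k) ≤ r J
  plane : 4 ≤ msum m (2 ^ m - 1) 0 (fun J => (r J : ℤ))
  line : ∀ i < m, ∀ T < 2 ^ m, T.testBit i = false →
    (∃ B : Finset (Fin 8), B.card = 4 ∧ B ∉ L ∧
      3 ≤ (B.filter (fun x => ∃ a < m, T.testBit a = true ∧ x ∈ F i ∧ x ∈ F a)).card) →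
    3 ≤ msum m T (2 ^ i) (fun J => (r J : ℤ))

/-- the set with mask `J` -/
private def MA2_bs (m J : ℕ) : Finset ℕ := (Finset.range m).filter (fun j => J.testBit j = true)

private theorem MA2_mem {m J j : ℕ} : j ∈ MA2_bs m J ↔ j < m ∧ J.testBit j = true := by
  rw [MA2_bs, Finset.mem_filter, Finset.mem_range]

private theorem MA2_popc (m J : ℕ) : popc m J = (MA2_bs m J).card := by
  induction m generalizing J with
  | zero => rfl
  | succ m ih =>
    rw [popc, ih, MA2_bs, MA2_bs, Finset.card_filter, Finset.card_filter, Finset.sum_range_succ']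
    have h1 : (if J.testBit 0 = true then 1 else 0) = J % 2 := by
      rw [Nat.testBit_zero]
      rcases Nat.mod_two_eq_zero_or_one J with h | h
      · simp [h]
      · simp [h]
    rw [h1, add_comm]
    congr 1
    refine Finset.sum_congr rfl fun j _ => ?_
    rw [Nat.testBit_succ]

private theorem MA2_eq {m J J' : ℕ} (hJ : J < 2 ^ m) (hJ' : J' < 2 ^ m)
    (h : MA2_bs m J = MA2_bs m J') : J = J' := by
  refine Nat.eq_of_testBit_eq fun j => ?_
  by_cases hj : j < m
  · have h1 : (j ∈ MA2_bs m J) ↔ (j ∈ MA2_bs m J') := by rw [h]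
    rw [MA2_mem, MA2_mem] at h1
    have h2 : J.testBit j = true ↔ J'.testBit j = true :=
      ⟨fun h3 => (h1.1 ⟨hj, h3⟩).2, fun h3 => (h1.2 ⟨hj, h3⟩).2⟩
    exact Bool.eq_iff_iff.2 h2
  · have hmj : 2 ^ m ≤ 2 ^ j := Nat.pow_le_pow_right (by norm_num) (not_lt.1 hj)
    rw [Nat.testBit_lt_two_pow (hJ.trans_le hmj), Nat.testBit_lt_two_pow (hJ'.trans_le hmj)]

private theorem MA2_ne {m J : ℕ} (hJ : J < 2 ^ m) (h0 : J ≠ 0) : (MA2_bs m J).Nonempty := by
  rw [Finset.nonempty_iff_ne_empty]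
  intro h
  apply h0
  refine MA2_eq hJ (by positivity) ?_
  rw [h]
  symm
  rw [Finset.eq_empty_iff_forall_notMem]
  intro j hj
  rw [MA2_mem, Nat.zero_testBit] at hj
  exact absurd hj.2 (by simp)

private theorem MA2_exists (m : ℕ) (s : Finset ℕ) (hs : s ⊆ Finset.range m) :
    ∃ J < 2 ^ m, MA2_bs m J = s := by
  obtain ⟨J, hJ, h⟩ := K1_exists_bits m {j : Fin m | (j : ℕ) ∈ s}
  refine ⟨J, hJ, ?_⟩
  ext j
  rw [MA2_mem]
  constructor
  · rintro ⟨h1, h2⟩
    have h3 : (⟨j, h1⟩ : Fin m) ∈ bits m J := h2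
    rw [h] at h3
    exact h3
  · intro h1
    have hj : j < m := Finset.mem_range.1 (hs h1)
    refine ⟨hj, ?_⟩
    have h3 : (⟨j, hj⟩ : Fin m) ∈ {j : Fin m | (j : ℕ) ∈ s} := h1
    rw [← h] at h3
    exact h3

private theorem MA2_sum (m T c : ℕ) (r : ℕ → ℤ) (ρ : Finset ℕ → ℤ)
    (hρ : ∀ J < 2 ^ m, J ≠ 0 → r (J ||| c) = ρ (MA2_bs m J)) :
    msum m T c r = ∑ J ∈ (MA2_bs m T).powerset.filter (fun J => J.Nonempty),
      (-1) ^ (J.card + 1) * ρ J := by
  have h1 : msum m T c r = ∑ J ∈ Finset.range (2 ^ m), (if J = 0 then 0 else if J &&& T = J then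
    (if popc m J % 2 = 1 then r (J ||| c) else - r (J ||| c)) else 0) := rfl
  have h2 : msum m T c r = ∑ J ∈ (Finset.range (2 ^ m)).filter (fun J => J ≠ 0 ∧ J &&& T = J),
      (if popc m J % 2 = 1 then r (J ||| c) else - r (J ||| c)) := by
    rw [h1, Finset.sum_filter]
    refine Finset.sum_congr rfl fun J _ => ?_
    by_cases h0 : J = 0
    · rw [if_pos h0, if_neg (fun h => h.1 h0)]
    · rw [if_neg h0]
      by_cases h3 : J &&& T = J
      · rw [if_pos h3, if_pos (show J ≠ 0 ∧ J &&& T = J from ⟨h0, h3⟩)]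
      · rw [if_neg h3, if_neg (show ¬ (J ≠ 0 ∧ J &&& T = J) from fun h => h3 h.2)]
  rw [h2]
  refine Finset.sum_bij (fun J _ => MA2_bs m J) ?_ ?_ ?_ ?_
  · intro J hJ
    rw [Finset.mem_filter, Finset.mem_range] at hJ
    rw [Finset.mem_filter, Finset.mem_powerset]
    refine ⟨fun j hj => ?_, MA2_ne hJ.1 hJ.2.1⟩
    rw [MA2_mem] at hj ⊢
    refine ⟨hj.1, ?_⟩
    have h3 := hj.2
    rw [← hJ.2.2, Nat.testBit_and, Bool.and_eq_true] at h3
    exact h3.2
  · intro J hJ J' hJ' h
    rw [Finset.mem_filter, Finset.mem_range] at hJ hJ'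
    exact MA2_eq hJ.1 hJ'.1 h
  · intro s hs
    rw [Finset.mem_filter, Finset.mem_powerset] at hs
    obtain ⟨J, hJ, h⟩ := MA2_exists m s (hs.1.trans (Finset.filter_subset _ _))
    refine ⟨J, ?_, h⟩
    rw [Finset.mem_filter, Finset.mem_range]
    refine ⟨hJ, ?_, ?_⟩
    · rintro rfl
      obtain ⟨j, hj⟩ := hs.2
      rw [← h, MA2_mem, Nat.zero_testBit] at hj
      exact absurd hj.2 (by simp)
    · refine Nat.eq_of_testBit_eq fun j => ?_
      rw [Nat.testBit_and]
      cases h3 : J.testBit j with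
      | false => rfl
      | true =>
        have hj : j < m := by
          by_contra hj
          have hmj : 2 ^ m ≤ 2 ^ j := Nat.pow_le_pow_right (by norm_num) (not_lt.1 hj)
          rw [Nat.testBit_lt_two_pow (hJ.trans_le hmj)] at h3
          exact absurd h3 (by simp)
        have h4 : j ∈ s := by
          rw [← h, MA2_mem]
          exact ⟨hj, h3⟩
        rw [(MA2_mem.1 (hs.1 h4)).2]
        rfl
  · intro J hJ
    rw [Finset.mem_filter, Finset.mem_range] at hJ
    rw [hρ J hJ.1 hJ.2.1, MA2_popc]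
    by_cases h3 : (MA2_bs m J).card % 2 = 1
    · rw [if_pos h3]
      have h4 : Even ((MA2_bs m J).card + 1) := by
        rw [Nat.even_iff]
        omega
      rw [h4.neg_one_pow, one_mul]
    · rw [if_neg h3]
      have h4 : Odd ((MA2_bs m J).card + 1) := by
        rw [Nat.odd_iff]
        omega
      rw [h4.neg_one_pow, neg_one_mul]

private theorem MA2_rk {α V : Type} {M : Matroid α} {N : Matroid V} {f : α → V}
    (hf : InjOn f M.E) (hI : ∀ I, I ⊆ M.E → (M.Indep I ↔ N.Indep (f '' I))) {X : Set α}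
    (hX : X ⊆ M.E) : rk N (f '' X) = rk M X := by
  unfold rk
  congr 1
  apply le_antisymm
  · rw [Matroid.eRk_le_iff]
    intro J hJ hJi
    have h1 : f '' (X ∩ f ⁻¹' J) = J := by
      rw [image_inter_preimage]
      exact inter_eq_right.2 hJ
    have h2 : X ∩ f ⁻¹' J ⊆ X := inter_subset_left
    have h3 : M.Indep (X ∩ f ⁻¹' J) := by
      rw [hI _ (h2.trans hX), h1]
      exact hJi
    calc J.encard = (f '' (X ∩ f ⁻¹' J)).encard := by rw [h1]
      _ = (X ∩ f ⁻¹' J).encard := (hf.mono (h2.trans hX)).encard_image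
      _ ≤ M.eRk X := h3.encard_le_eRk_of_subset h2
  · rw [Matroid.eRk_le_iff]
    intro I hIX hIi
    have h1 : N.Indep (f '' I) := (hI I (hIX.trans hX)).1 hIi
    rw [← (hf.mono (hIX.trans hX)).encard_image]
    exact h1.encard_le_eRk_of_subset (image_mono hIX)

/-- MA2. `N, A, f` from `Gammoid.strict` (`f` injective on `M.E`, `T6_rk`-type lemma: `rk N (f '' X) = rk M X`).
`X j = N.closure (f '' (e '' F j))`, a flat of rank 3 (`h4`, `hcl`), `r J = rk N (⋂ j ∈ J, X j)` (over `j < m` with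
`J.testBit j`). Facts: for flats `Y ⊆ Y'` with `y ∈ Y' \ Y`: `rk Y + 1 ≤ rk Y'`.
* `one`: rank of `F j` is 3.
* `two`: for `i ≠ j`: `rk (X i ∩ X j) + rk (X i ∪ X j) ≤ 6` and `X i ∪ X j` contains `F j` and a point `x ∈ F i`
  which is not in `F j`, so it has rank 4 (`hcl`, `hne`). (`popc m J ≥ 2`: `J` contains two different `i, j < m`;
  monotone.)
* `pt`, `pt2`: `f (e x)` is in the intersection, `{x, y}` is independent in `M` (`hs`).
* `lt`: `f (e x)` is in `⋂_J` and not in `X k` by `hcl`.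
* `mono`: smaller set.
* `plane`: `mason_flats` for `X j`, `j < m`; the union has rank 4 (contains `F 0` and a point outside, `m ≥ 2`).
* `line`: `mason_flats` for the flats `X i ∩ X a`, `a ∈ T`; the intersection over `J ⊆ T`, `J ≠ ∅`, is the
  intersection with mask `J ||| 2 ^ i`; the union contains the images of at least three elements of a base.
The sums over masks and over Finsets agree (bijection `J ↦ {j | J.testBit j}`; `popc m J` is the number
of elements). -/
theorem EL.planes {α : Type} {e : Fin 8 → α} {L : Finset (Finset (Fin 8))} {M : Matroid α}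
    (h : EL e 4 L M) (hG : Gammoid M)
    (hs : ∀ x y : Fin 8, x ≠ y → ∃ B : Finset (Fin 8), B.card = 4 ∧ B ∉ L ∧ x ∈ B ∧ y ∈ B)
    (m : ℕ) (hm : 2 ≤ m) (F : ℕ → Finset (Fin 8))
    (h4 : ∀ i < m, ∀ B : Finset (Fin 8), B ⊆ F i → B.card = 4 → B ∈ L)
    (hcl : ∀ i < m, ∀ x, x ∉ F i → ∃ B : Finset (Fin 8), B ⊆ insert x (F i) ∧ B.card = 4 ∧ B ∉ L)
    (hne : ∀ i < m, ∀ j < m, i ≠ j → ∃ x ∈ F i, x ∉ F j) :
    ∃ r : ℕ → ℕ, PS L m F r := by
  classical
  have hMf : M.Finite := h.finite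
  have hEr : range e = M.E := h.2.1
  have hEne : M.E.Nonempty := by
    rw [← hEr]
    exact ⟨e 0, 0, rfl⟩
  obtain ⟨V, S, N, A, f, hV, hS, hE, hrk, hf, hI, hle, heq⟩ := hG.strict hEne
  have hNf : N.Finite := ⟨Set.toFinite _⟩
  have hsub : ∀ X : Set (Fin 8), e '' X ⊆ M.E := fun X => by
    rw [← hEr]
    exact image_subset_range _ _
  have hg : Function.Injective (fun x => f (e x)) := by
    intro x y hxy
    exact h.1 (hf (hEr ▸ ⟨x, rfl⟩) (hEr ▸ ⟨y, rfl⟩) hxy)
  set g : Fin 8 → V := fun x => f (e x) with hgdef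
  have him : ∀ X : Set (Fin 8), g '' X = f '' (e '' X) := fun X => by rw [image_image]
  have hrkg : ∀ X : Set (Fin 8), QG.rk N (g '' X) = QG.rk M (e '' X) := fun X => by
    rw [him, MA2_rk hf hI (hsub X)]
  have hind : ∀ X : Set (Fin 8), M.Indep (e '' X) ↔ N.Indep (g '' X) := fun X => by
    rw [him]
    exact hI _ (hsub X)
  have hNE : ∀ X : Set V, X ⊆ N.E := fun X => by
    rw [hE]
    exact subset_univ X
  have hbase : ∀ B : Finset (Fin 8), B.card = 4 → B ∉ L → N.Indep (g '' (B : Set (Fin 8))) := by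
    intro B h1 h2
    rw [← hind]
    exact ((h.2.2 B).2 ⟨h1, h2⟩).indep
  have hncard : ∀ B : Finset (Fin 8), (g '' (B : Set (Fin 8))).ncard = B.card := fun B => by
    rw [ncard_image_of_injective _ hg, ncard_coe_finset]
  have hrk4 : QG.rk M M.E = 4 := h.rk_ground
  -- a set which contains an independent set
  have hge : ∀ (B : Finset (Fin 8)) (Y : Set V), N.Indep (g '' (B : Set (Fin 8))) →
      g '' (B : Set (Fin 8)) ⊆ Y → B.card ≤ QG.rk N Y := by
    intro B Y h1 h2
    rw [← hncard B, ← QG.Indep.rk_eq h1]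
    exact rk_mono N h2
  -- the rank of `F i`
  have hF3 : ∀ i < m, QG.rk N (g '' (F i : Set (Fin 8))) = 3 := by
    intro i hi
    apply le_antisymm
    · by_contra hlt
      have h5 : 4 ≤ QG.rk N (g '' (F i : Set (Fin 8))) := by omega
      rw [hrkg] at h5
      obtain ⟨I, hI1, hI2, hI3⟩ := exists_indep_rk M (e '' (F i : Set (Fin 8)))
      have h6 : QG.rk M (e '' (F i : Set (Fin 8))) = 4 := by
        have := rk_le_rk M (e '' (F i : Set (Fin 8)))
        omega
      set B : Finset (Fin 8) := (F i).filter (fun x => e x ∈ I) with hB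
      have hBI : e '' (B : Set (Fin 8)) = I := by
        ext a
        constructor
        · rintro ⟨x, hx, rfl⟩
          exact (Finset.mem_filter.1 hx).2
        · intro ha
          obtain ⟨x, hx, rfl⟩ := hI1 ha
          exact ⟨x, Finset.mem_filter.2 ⟨hx, ha⟩, rfl⟩
      have hBc : B.card = 4 := by
        rw [← ncard_coe_finset, ← ncard_image_of_injective _ h.1, hBI, hI3, h6]
      have hBL := h4 i hi B (Finset.filter_subset _ _) hBc
      have hBb : M.IsBase (e '' (B : Set (Fin 8))) := by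
        rw [isBase_iff_rk M (hsub _), hrk4]
        have h7 : (e '' (B : Set (Fin 8))).ncard = 4 := by
          rw [ncard_image_of_injective _ h.1, ncard_coe_finset, hBc]
        refine ⟨?_, h7⟩
        rw [← h7]
        refine QG.Indep.rk_eq ?_
        rw [hBI]
        exact hI2
      exact ((h.2.2 B).1 hBb).2 hBL
    · obtain ⟨x, hx⟩ : ∃ x, x ∉ F i := by
        rcases eq_or_ne i 0 with rfl | h0
        · obtain ⟨x, -, hx⟩ := hne 1 (by omega) 0 hi (by norm_num)
          exact ⟨x, hx⟩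
        · obtain ⟨x, -, hx⟩ := hne 0 (by omega) i hi h0.symm
          exact ⟨x, hx⟩
      obtain ⟨B, hB1, hB2, hB3⟩ := hcl i hi x hx
      have h5 := hbase B hB2 hB3
      have h6 : B.erase x ⊆ F i := by
        intro y hy
        rw [Finset.mem_erase] at hy
        exact (Finset.mem_insert.1 (hB1 hy.2)).resolve_left hy.1
      have h7 : N.Indep (g '' ((B.erase x : Finset (Fin 8)) : Set (Fin 8))) :=
        h5.subset (image_mono (Finset.coe_subset.2 (Finset.erase_subset _ _)))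
      have h8 := hge _ _ h7 (image_mono (Finset.coe_subset.2 h6))
      have h9 := Finset.pred_card_le_card_erase (s := B) (a := x)
      omega
  -- rank four
  have h44 : ∀ i < m, ∀ x, x ∉ F i → 4 ≤ QG.rk N (insert (g x) (g '' (F i : Set (Fin 8)))) := by
    intro i hi x hx
    obtain ⟨B, hB1, hB2, hB3⟩ := hcl i hi x hx
    have h5 := hge B (insert (g x) (g '' (F i : Set (Fin 8)))) (hbase B hB2 hB3) (by
      rw [← image_insert_eq, ← Finset.coe_insert]
      exact image_mono (Finset.coe_subset.2 hB1))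
    omega
  -- the flats
  set X : ℕ → Set V := fun j => N.closure (g '' (F j : Set (Fin 8))) with hX
  have hXc : ∀ j, N.closure (X j) = X j := fun j => N.closure_closure _
  have hX3 : ∀ j < m, QG.rk N (X j) = 3 := fun j hj => by rw [hX, rk_closure, hF3 j hj]
  have hXin : ∀ j, g '' (F j : Set (Fin 8)) ⊆ X j := fun j => N.subset_closure _ (hNE _)
  have hXmem : ∀ j, ∀ x ∈ F j, g x ∈ X j := fun j x hx => hXin j ⟨x, hx, rfl⟩
  have hXout : ∀ j < m, ∀ x, x ∉ F j → g x ∉ X j := by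
    intro j hj x hx hmem
    have h5 := (mem_closure_iff_rk N (hNE {g x} rfl) _).1 hmem
    have h6 := h44 j hj x hx
    rw [h5, hF3 j hj] at h6
    omega
  -- intersections
  set W : ℕ → Set V := fun J => ⋂ j ∈ MA2_bs m J, X j with hW
  have hWmem : ∀ J v, v ∈ W J ↔ ∀ j < m, J.testBit j = true → v ∈ X j := by
    intro J v
    rw [hW, mem_iInter₂]
    refine forall_congr' fun j => ?_
    rw [MA2_mem, and_imp]
  have hWor : ∀ J k, k < m → W (J ||| 2 ^ k) = W J ∩ X k := by
    intro J k hk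
    ext v
    rw [mem_inter_iff, hWmem, hWmem]
    constructor
    · intro h5
      refine ⟨fun j hj hJ => h5 j hj ?_, h5 k hk ?_⟩
      · rw [Nat.testBit_or, hJ, Bool.true_or]
      · rw [Nat.testBit_or, Nat.testBit_two_pow_self, Bool.or_true]
    · rintro ⟨h5, h6⟩ j hj hJ
      rw [Nat.testBit_or, Bool.or_eq_true] at hJ
      rcases hJ with hJ | hJ
      · exact h5 j hj hJ
      · rw [Nat.testBit_two_pow, decide_eq_true_eq] at hJ
        rw [← hJ]
        exact h6
  have hpair : ∀ x y : Fin 8, x ≠ y → N.Indep {g x, g y} := by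
    intro x y hxy
    obtain ⟨B, hB1, hB2, hx, hy⟩ := hs x y hxy
    refine (hbase B hB1 hB2).subset ?_
    rintro _ (rfl | rfl)
    · exact ⟨x, hx, rfl⟩
    · exact ⟨y, hy, rfl⟩
  refine ⟨fun J => QG.rk N (W J), ?_, ?_, ?_, ?_, ?_, ?_, ?_, ?_⟩
  · -- one
    intro i hi
    have h5 : W (2 ^ i) = X i := by
      ext v
      rw [hWmem]
      constructor
      · intro h6
        exact h6 i hi (Nat.testBit_two_pow_self)
      · intro h6 j hj hJ
        rw [Nat.testBit_two_pow, decide_eq_true_eq] at hJ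
        rw [← hJ]
        exact h6
    change QG.rk N (W (2 ^ i)) = 3
    rw [h5, hX3 i hi]
  · -- two
    intro J _ hJ2
    rw [MA2_popc] at hJ2
    obtain ⟨i, hi, j, hj, hij⟩ := Finset.one_lt_card.1 hJ2
    rw [MA2_mem] at hi hj
    have h5 := rk_submod N (X i) (X j)
    rw [hX3 i hi.1, hX3 j hj.1] at h5
    obtain ⟨x, hx, hx'⟩ := hne i hi.1 j hj.1 hij
    have h6 : 4 ≤ QG.rk N (X i ∪ X j) := by
      refine (h44 j hj.1 x hx').trans (rk_mono N ?_)
      refine insert_subset (Or.inl (hXmem i x hx)) ?_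
      exact (hXin j).trans subset_union_right
    have h7 : QG.rk N (W J) ≤ QG.rk N (X i ∩ X j) := by
      refine rk_mono N fun v hv => ?_
      rw [hWmem] at hv
      exact ⟨hv i hi.1 hi.2, hv j hj.1 hj.2⟩
    change QG.rk N (W J) ≤ 2
    omega
  · -- pt
    intro J _ _ x hx
    obtain ⟨y, hy⟩ : ∃ y : Fin 8, x ≠ y := by
      by_cases h0 : x = 0
      · exact ⟨1, by rw [h0]; decide⟩
      · exact ⟨0, h0⟩
    have h5 : N.Indep {g x} := (hpair x y hy).subset (by
      intro z hz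
      exact Or.inl hz)
    have h6 := QG.Indep.rk_eq h5
    rw [ncard_singleton] at h6
    change 1 ≤ QG.rk N (W J)
    rw [← h6]
    refine rk_mono N ?_
    rw [singleton_subset_iff, hWmem]
    exact fun j hj hJ => hXmem j x (hx j hj hJ)
  · -- pt2
    intro J _ _ x y hxy hxy'
    have h6 := QG.Indep.rk_eq (hpair x y hxy)
    rw [ncard_pair (fun h7 => hxy (hg h7))] at h6
    change 2 ≤ QG.rk N (W J)
    rw [← h6]
    refine rk_mono N ?_
    rintro _ (rfl | rfl)
    · rw [hWmem]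
      exact fun j hj hJ => hXmem j x (hxy' j hj hJ).1
    · rw [hWmem]
      exact fun j hj hJ => hXmem j y (hxy' j hj hJ).2
  · -- lt
    intro J _ _ k hk x hx hxk
    change QG.rk N (W (J ||| 2 ^ k)) + 1 ≤ QG.rk N (W J)
    rw [hWor J k hk]
    have hxW : g x ∈ W J := by
      rw [hWmem]
      exact fun j hj hJ => hXmem j x (hx j hj hJ)
    have h5 : g x ∉ N.closure (W J ∩ X k) := by
      intro h6
      apply hXout k hk x hxk
      rw [← hXc k]
      exact N.closure_subset_closure inter_subset_right h6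
    have h6 : QG.rk N (insert (g x) (W J ∩ X k)) ≠ QG.rk N (W J ∩ X k) := fun h7 =>
      h5 ((mem_closure_iff_rk N (hNE {g x} rfl) _).2 h7)
    have h7 : QG.rk N (W J ∩ X k) ≤ QG.rk N (insert (g x) (W J ∩ X k)) :=
      rk_mono N (subset_insert _ _)
    have h8 : QG.rk N (insert (g x) (W J ∩ X k)) ≤ QG.rk N (W J) :=
      rk_mono N (insert_subset hxW inter_subset_left)
    omega
  · -- mono
    intro J _ _ k hk
    change QG.rk N (W (J ||| 2 ^ k)) ≤ QG.rk N (W J)
    rw [hWor J k hk]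
    exact rk_mono N inter_subset_left
  · -- plane
    have h5 := mason_flats N hE A hle heq (MA2_bs m (2 ^ m - 1)) X (fun i _ => hXc i)
    rw [MA2_sum m (2 ^ m - 1) 0 (fun J => ((QG.rk N (W J) : ℕ) : ℤ))
      (fun s => (QG.rk N (⋂ i ∈ s, X i) : ℤ)) (fun J _ _ => by rw [Nat.or_zero])]
    refine le_trans ?_ h5
    have h6 : ∀ j < m, j ∈ MA2_bs m (2 ^ m - 1) := by
      intro j hj
      rw [MA2_mem, Nat.testBit_two_pow_sub_one]
      exact ⟨hj, decide_eq_true hj⟩
    obtain ⟨x, hx, hx'⟩ := hne 1 (by omega) 0 (by omega) (by norm_num)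
    have h7 : 4 ≤ QG.rk N (⋃ i ∈ MA2_bs m (2 ^ m - 1), X i) := by
      refine (h44 0 (by omega) x hx').trans (rk_mono N ?_)
      refine insert_subset ?_ ?_
      · exact mem_iUnion₂.2 ⟨1, h6 1 (by omega), hXmem 1 x hx⟩
      · exact fun v hv => mem_iUnion₂.2 ⟨0, h6 0 (by omega), hXin 0 hv⟩
    exact_mod_cast h7
  · -- line
    rintro i hi T _ _ ⟨B, hB1, hB2, hB3⟩
    have h5 := mason_flats N hE A hle heq (MA2_bs m T) (fun a => X i ∩ X a) (fun a _ => by
      refine Subset.antisymm (subset_inter ?_ ?_) (N.subset_closure _ (hNE _))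
      · exact (N.closure_subset_closure inter_subset_left).trans (hXc i).subset
      · exact (N.closure_subset_closure inter_subset_right).trans (hXc a).subset)
    rw [MA2_sum m T (2 ^ i) (fun J => ((QG.rk N (W J) : ℕ) : ℤ))
      (fun s => (QG.rk N (⋂ a ∈ s, (X i ∩ X a)) : ℤ)) (fun J hJ h0 => by
        have h6 : W (J ||| 2 ^ i) = ⋂ a ∈ MA2_bs m J, (X i ∩ X a) := by
          obtain ⟨k, hk⟩ := MA2_ne hJ h0
          rw [hWor J i hi]
          ext v
          rw [mem_inter_iff, hW, mem_iInter₂, mem_iInter₂]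
          constructor
          · rintro ⟨h7, h8⟩ a ha
            exact ⟨h8, h7 a ha⟩
          · intro h7
            exact ⟨fun a ha => (h7 a ha).2, (h7 k hk).1⟩
        change ((QG.rk N (W (J ||| 2 ^ i)) : ℕ) : ℤ) = _
        rw [h6])]
    refine le_trans ?_ h5
    set B' := B.filter (fun x => ∃ a < m, T.testBit a = true ∧ x ∈ F i ∧ x ∈ F a) with hB'
    have h7 : N.Indep (g '' (B' : Set (Fin 8))) := (hbase B hB1 hB2).subset
      (image_mono (Finset.coe_subset.2 (Finset.filter_subset _ _)))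
    have h8 := hge B' (⋃ a ∈ MA2_bs m T, (X i ∩ X a)) h7 (by
      rintro _ ⟨x, hx, rfl⟩
      obtain ⟨-, a, ha, haT, hxi, hxa⟩ := Finset.mem_filter.1 (Finset.mem_coe.1 hx)
      exact mem_iUnion₂.2 ⟨a, MA2_mem.2 ⟨ha, haT⟩, hXmem i x hxi, hXmem a x hxa⟩)
    have h9 : 3 ≤ QG.rk N (⋃ a ∈ MA2_bs m T, (X i ∩ X a)) := hB3.trans h8
    exact_mod_cast h9

end QG
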