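import Pool.Agent.Lib.QG.B1
import Pool.Agent.Lib.QG.D0
set_option autoImplicit false

/-! Row N1. U26 is not representable over a field with four elements: with a basis v0, v1 of the span of
the first two vectors every other vector is a v0 + b v1 with a, b nonzero (a base exchange), and the ratio
a / b takes at most three values, so two of the four other vectors are parallel. -/

namespace QG
open Set Matroid
variable {α : Type}

private lemma N1_out {n : ℕ} {M : Matroid α} {e : Fin n → α} (he : Function.Injective e)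
    (hE : range e = M.E) {F W : Type} [Field F] [AddCommGroup W] [Module F W] {φ : α → W}
    (hφ : ∀ I, I ⊆ M.E → (M.Indep I ↔ LinearIndepOn F φ I)) {i : Fin n} {X : Finset (Fin n)}
    (hi : i ∉ X) (h : M.Indep (e '' ((insert i X : Finset (Fin n)) : Set (Fin n)))) :
    φ (e i) ∉ Submodule.span F ((fun j => φ (e j)) '' (X : Set (Fin n))) := by
  have h1 := (hφ _ (by rw [← hE]; exact image_subset_range _ _)).1 h
  rw [Finset.coe_insert, image_insert_eq] at h1
  have h2 : e i ∉ e '' (X : Set (Fin n)) := by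
    rintro ⟨j, hj, hji⟩
    exact hi (he hji ▸ hj)
  rw [linearIndepOn_insert h2] at h1
  have h3 := h1.2
  rw [image_image] at h3
  exact h3

private lemma N1_in {n : ℕ} {M : Matroid α} {e : Fin n → α} (he : Function.Injective e)
    (hE : range e = M.E) {F W : Type} [Field F] [AddCommGroup W] [Module F W] {φ : α → W}
    (hφ : ∀ I, I ⊆ M.E → (M.Indep I ↔ LinearIndepOn F φ I)) {i : Fin n} {X : Finset (Fin n)}
    (hi : i ∉ X) (hX : M.Indep (e '' (X : Set (Fin n))))
    (h : ¬ M.Indep (e '' ((insert i X : Finset (Fin n)) : Set (Fin n)))) :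
    φ (e i) ∈ Submodule.span F ((fun j => φ (e j)) '' (X : Set (Fin n))) := by
  by_contra hcon
  apply h
  rw [hφ _ (by rw [← hE]; exact image_subset_range _ _)]
  rw [Finset.coe_insert, image_insert_eq]
  have h2 : e i ∉ e '' (X : Set (Fin n)) := by
    rintro ⟨j, hj, hji⟩
    exact hi (he hji ▸ hj)
  rw [linearIndepOn_insert h2]
  refine ⟨(hφ _ (by rw [← hE]; exact image_subset_range _ _)).1 hX, ?_⟩
  rw [image_image]
  exact hcon

private lemma N1_five {F : Type} [Field F] (hF : Nat.card F = 4) (a b c d e : F)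
    (h1 : a ≠ b) (h2 : a ≠ c) (h3 : a ≠ d) (h4 : a ≠ e) (h5 : b ≠ c) (h6 : b ≠ d) (h7 : b ≠ e)
    (h8 : c ≠ d) (h9 : c ≠ e) (h10 : d ≠ e) : False := by
  classical
  have hfin : Finite F := Nat.finite_of_card_ne_zero (by rw [hF]; norm_num)
  have := Fintype.ofFinite F
  have h11 : ({a, b, c, d, e} : Finset F).card = 5 := by
    rw [Finset.card_insert_of_notMem, Finset.card_insert_of_notMem, Finset.card_insert_of_notMem,
      Finset.card_insert_of_notMem, Finset.card_singleton] <;> simp [*]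
  have h12 := Finset.card_le_univ ({a, b, c, d, e} : Finset F)
  rw [h11, ← Nat.card_eq_fintype_card, hF] at h12
  norm_num at h12

theorem not_rep_U26 {M : Matroid α} (h : IsL 6 2 ∅ M) {F : Type} [Field F]
    (hF : Nat.card F = 4) : ¬ Rep F M := by
  obtain ⟨e, he⟩ := h
  have hE : EL e 2 ∅ M := he
  obtain ⟨hinj, hrange, _⟩ := he
  rintro ⟨W, hW1, hW2, φ, hφ⟩
  have hind : ∀ X : Finset (Fin 6), M.Indep (e '' (X : Set (Fin 6))) ↔
      ∃ B : Finset (Fin 6), X ⊆ B ∧ B.card = 2 ∧ B ∉ (∅ : Finset (Finset (Fin 6))) :=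
    fun X => EL.indep hE X
  have h2 : ∀ i j : Fin 6, i ≠ j → φ (e i) ∉ Submodule.span F {φ (e j)} := by
    intro i j hij
    have h1 := N1_out hinj hrange hφ (i := i) (X := {j}) (by simpa using hij) (by
      rw [hind]
      exact ⟨{i, j}, by rfl, Finset.card_pair hij, Finset.notMem_empty _⟩)
    simpa using h1
  have h3 : ∀ i : Fin 6, i ≠ 0 → i ≠ 1 → ∃ a b : F, a • φ (e 0) + b • φ (e 1) = φ (e i) := by
    intro i hi0 hi1
    have h1 := N1_in hinj hrange hφ (i := i) (X := {0, 1}) (by simp [hi0, hi1]) (by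
      rw [hind]
      exact ⟨{0, 1}, by rfl, by decide, Finset.notMem_empty _⟩) (by
      rw [hind]
      rintro ⟨B, hB, hB2, _⟩
      have h4 := Finset.card_le_card hB
      rw [Finset.card_insert_of_notMem (by simp [hi0, hi1]), hB2] at h4
      have h5 : ({0, 1} : Finset (Fin 6)).card = 2 := by decide
      omega)
    have h4 : (fun j => φ (e j)) '' (({0, 1} : Finset (Fin 6)) : Set (Fin 6)) =
        {φ (e 0), φ (e 1)} := by
      rw [Finset.coe_insert, Finset.coe_singleton, image_insert_eq, image_singleton]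
    rw [h4, Submodule.mem_span_pair] at h1
    exact h1
  have h4 : ∀ i : Fin 6, i ≠ 0 → i ≠ 1 → ∃ a b : F, a ≠ 0 ∧ b ≠ 0 ∧
      a • φ (e 0) + b • φ (e 1) = φ (e i) := by
    intro i hi0 hi1
    obtain ⟨a, b, hab⟩ := h3 i hi0 hi1
    refine ⟨a, b, ?_, ?_, hab⟩
    · rintro rfl
      apply h2 i 1 hi1
      rw [← hab, zero_smul, zero_add]
      exact Submodule.smul_mem _ _ (Submodule.mem_span_singleton_self _)
    · rintro rfl
      apply h2 i 0 hi0
      rw [← hab, zero_smul, add_zero]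
      exact Submodule.smul_mem _ _ (Submodule.mem_span_singleton_self _)
  have h5 : ∀ i j : Fin 6, i ≠ j → ∀ a b a' b' : F, a ≠ 0 → b ≠ 0 → a' ≠ 0 → b' ≠ 0 →
      a • φ (e 0) + b • φ (e 1) = φ (e i) → a' • φ (e 0) + b' • φ (e 1) = φ (e j) →
      a / b ≠ a' / b' := by
    intro i j hij a b a' b' ha hb ha' hb' h6 h7 h8
    apply h2 i j hij
    have h9 : φ (e i) = (b / b') • φ (e j) := by
      rw [← h6, ← h7, smul_add, smul_smul, smul_smul]
      congr 2
      · rw [div_eq_div_iff hb hb'] at h8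
        field_simp
        rw [h8]
        ring
      · field_simp
    rw [h9]
    exact Submodule.smul_mem _ _ (Submodule.mem_span_singleton_self _)
  obtain ⟨a2, b2, ha2, hb2, hv2⟩ := h4 2 (by decide) (by decide)
  obtain ⟨a3, b3, ha3, hb3, hv3⟩ := h4 3 (by decide) (by decide)
  obtain ⟨a4, b4, ha4, hb4, hv4⟩ := h4 4 (by decide) (by decide)
  obtain ⟨a5, b5, ha5, hb5, hv5⟩ := h4 5 (by decide) (by decide)
  exact N1_five hF 0 (a2 / b2) (a3 / b3) (a4 / b4) (a5 / b5) (div_ne_zero ha2 hb2).symm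
    (div_ne_zero ha3 hb3).symm (div_ne_zero ha4 hb4).symm (div_ne_zero ha5 hb5).symm
    (h5 2 3 (by decide) _ _ _ _ ha2 hb2 ha3 hb3 hv2 hv3)
    (h5 2 4 (by decide) _ _ _ _ ha2 hb2 ha4 hb4 hv2 hv4)
    (h5 2 5 (by decide) _ _ _ _ ha2 hb2 ha5 hb5 hv2 hv5)
    (h5 3 4 (by decide) _ _ _ _ ha3 hb3 ha4 hb4 hv3 hv4)
    (h5 3 5 (by decide) _ _ _ _ ha3 hb3 ha5 hb5 hv3 hv5)
    (h5 4 5 (by decide) _ _ _ _ ha4 hb4 ha5 hb5 hv4 hv5)

end QG
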