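import Pool.Agent.Lib.QG.B1
import Pool.Agent.Lib.QG.D0
set_option autoImplicit false

/-! Row N2. P6 is not representable over a field with four elements. The points 3, 4, 5 are a basis
b3, b4, b5. The vectors 0, 1, 2 have all three coordinates nonzero. With v0 = (x0, y0, z0),
v1 = (x1, y1, z1) and v2 = s v0 + t v1 the ratios x1 / x0, y1 / y0, z1 / z0 are different from each
other, from 0 and from - s / t (the coordinates of v2 are nonzero): five elements of the field. -/

namespace QG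
open Set Matroid
variable {α : Type}

private lemma N2_out {n : ℕ} {M : Matroid α} {e : Fin n → α} (he : Function.Injective e)
    (hE : range e = M.E) {F W : Type} [Field F] [AddCommGroup W] [Module F W] {φ : α → W}
    (hφ : ∀ I, I ⊆ M.E → (M.Indep I ↔ LinearIndepOn F φ I)) {i : Fin n} {X : Finset (Fin n)}
    (hi : i ∉ X) (h : M.Indep (e '' ((insert i X : Finset (Fin n)) : Set (Fin n)))) :
    φ (e i) ∉ Submodule.span F ((fun j => φ (e j)) '' (X : Set (Fin n))) := by
  have h1 := (hφ _ (by rw [← hE]; exact image_subset_range _ _)).1 h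
  rw [Finset.coe_insert, image_insert_eq] at h1
  have h2 : e i ∉ e '' (X : Set (Fin n)) := by
    rintro ⟨j, hj, hji⟩
    exact hi (he hji ▸ hj)
  rw [linearIndepOn_insert h2] at h1
  have h3 := h1.2
  rw [image_image] at h3
  exact h3

private lemma N2_in {n : ℕ} {M : Matroid α} {e : Fin n → α} (he : Function.Injective e)
    (hE : range e = M.E) {F W : Type} [Field F] [AddCommGroup W] [Module F W] {φ : α → W}
    (hφ : ∀ I, I ⊆ M.E → (M.Indep I ↔ LinearIndepOn F φ I)) {i : Fin n} {X : Finset (Fin n)}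
    (hi : i ∉ X) (hX : M.Indep (e '' (X : Set (Fin n))))
    (h : ¬ M.Indep (e '' ((insert i X : Finset (Fin n)) : Set (Fin n)))) :
    φ (e i) ∈ Submodule.span F ((fun j => φ (e j)) '' (X : Set (Fin n))) := by
  by_contra hcon
  apply h
  rw [hφ _ (by rw [← hE]; exact image_subset_range _ _)]
  rw [Finset.coe_insert, image_insert_eq]
  have h2 : e i ∉ e '' (X : Set (Fin n)) := by
    rintro ⟨j, hj, hji⟩
    exact hi (he hji ▸ hj)
  rw [linearIndepOn_insert h2]
  refine ⟨(hφ _ (by rw [← hE]; exact image_subset_range _ _)).1 hX, ?_⟩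
  rw [image_image]
  exact hcon

private lemma N2_five {F : Type} [Field F] (hF : Nat.card F = 4) (a b c d e : F)
    (h1 : a ≠ b) (h2 : a ≠ c) (h3 : a ≠ d) (h4 : a ≠ e) (h5 : b ≠ c) (h6 : b ≠ d) (h7 : b ≠ e)
    (h8 : c ≠ d) (h9 : c ≠ e) (h10 : d ≠ e) : False := by
  classical
  have hfin : Finite F := Nat.finite_of_card_ne_zero (by rw [hF]; norm_num)
  have := Fintype.ofFinite F
  have h11 : ({a, b, c, d, e} : Finset F).card = 5 := by
    rw [Finset.card_insert_of_notMem, Finset.card_insert_of_notMem, Finset.card_insert_of_notMem,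
      Finset.card_insert_of_notMem, Finset.card_singleton] <;> simp [*]
  have h12 := Finset.card_le_univ ({a, b, c, d, e} : Finset F)
  rw [h11, ← Nat.card_eq_fintype_card, hF] at h12
  norm_num at h12

theorem not_rep_P6 {M : Matroid α} (h : IsL 6 3 LP6 M) {F : Type} [Field F]
    (hF : Nat.card F = 4) : ¬ Rep F M := by
  obtain ⟨e, he⟩ := h
  have hE : EL e 3 LP6 M := he
  obtain ⟨hinj, hrange, _⟩ := he
  rintro ⟨W, hW1, hW2, φ, hφ⟩
  have hind : ∀ X : Finset (Fin 6), M.Indep (e '' (X : Set (Fin 6))) ↔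
      ∃ B : Finset (Fin 6), X ⊆ B ∧ B.card = 3 ∧ B ∉ LP6 := fun X => EL.indep hE X
  have h4 : ∀ X : Finset (Fin 6), 4 ≤ X.card → ¬ M.Indep (e '' (X : Set (Fin 6))) := by
    intro X hX
    rw [hind]
    rintro ⟨B, hB, hB2, _⟩
    have := Finset.card_le_card hB
    omega
  have out2 : ∀ i j k : Fin 6, i ∉ ({j, k} : Finset (Fin 6)) →
      (∃ B : Finset (Fin 6), insert i {j, k} ⊆ B ∧ B.card = 3 ∧ B ∉ LP6) →
      ∀ a b : F, a • φ (e j) + b • φ (e k) ≠ φ (e i) := by
    intro i j k hi hB a b hab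
    have h1 := N2_out hinj hrange hφ hi ((hind _).2 hB)
    apply h1
    have h5 : (fun j => φ (e j)) '' (({j, k} : Finset (Fin 6)) : Set (Fin 6)) =
        {φ (e j), φ (e k)} := by
      rw [Finset.coe_insert, Finset.coe_singleton, image_insert_eq, image_singleton]
    rw [h5, Submodule.mem_span_pair]
    exact ⟨a, b, hab⟩
  have out1 : ∀ i j : Fin 6, i ∉ ({j} : Finset (Fin 6)) →
      (∃ B : Finset (Fin 6), insert i {j} ⊆ B ∧ B.card = 3 ∧ B ∉ LP6) →
      ∀ a : F, a • φ (e j) ≠ φ (e i) := by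
    intro i j hi hB a hab
    have h1 := N2_out hinj hrange hφ hi ((hind _).2 hB)
    apply h1
    have h5 : (fun j => φ (e j)) '' (({j} : Finset (Fin 6)) : Set (Fin 6)) = {φ (e j)} := by
      rw [Finset.coe_singleton, image_singleton]
    rw [h5, Submodule.mem_span_singleton]
    exact ⟨a, hab⟩
  have in3 : ∀ i : Fin 6, i ∉ ({3, 4, 5} : Finset (Fin 6)) →
      ∃ x y z : F, x • φ (e 3) + y • φ (e 4) + z • φ (e 5) = φ (e i) := by
    intro i hi
    have h1 := N2_in hinj hrange hφ hi ((hind _).2 ⟨{3, 4, 5}, by rfl, by decide, by decide⟩)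
      (h4 _ (by rw [Finset.card_insert_of_notMem hi]; decide))
    have h5 : (fun j => φ (e j)) '' (({3, 4, 5} : Finset (Fin 6)) : Set (Fin 6)) =
        {φ (e 3), φ (e 4), φ (e 5)} := by
      rw [Finset.coe_insert, Finset.coe_insert, Finset.coe_singleton, image_insert_eq,
        image_insert_eq, image_singleton]
    rw [h5, Submodule.mem_span_triple] at h1
    exact h1
  have in2 : ∃ s t : F, s • φ (e 0) + t • φ (e 1) = φ (e 2) := by
    have h1 := N2_in hinj hrange hφ (i := 2) (X := {0, 1}) (by decide)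
      ((hind _).2 ⟨{0, 1, 3}, by decide, by decide, by decide⟩) (by
        rw [hind]
        decide)
    have h5 : (fun j => φ (e j)) '' (({0, 1} : Finset (Fin 6)) : Set (Fin 6)) =
        {φ (e 0), φ (e 1)} := by
      rw [Finset.coe_insert, Finset.coe_singleton, image_insert_eq, image_singleton]
    rw [h5, Submodule.mem_span_pair] at h1
    exact h1
  obtain ⟨s, t, hst⟩ := in2
  obtain ⟨x0, y0, z0, h0⟩ := in3 0 (by decide)
  obtain ⟨x1, y1, z1, h1⟩ := in3 1 (by decide)
  have ht : t ≠ 0 := by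
    rintro rfl
    refine out1 2 0 (by decide) ⟨{0, 2, 3}, by decide, by decide, by decide⟩ s ?_
    rw [← hst, zero_smul, add_zero]
  have hs : s ≠ 0 := by
    rintro rfl
    refine out1 2 1 (by decide) ⟨{1, 2, 3}, by decide, by decide, by decide⟩ t ?_
    rw [← hst, zero_smul, zero_add]
  have hx0 : x0 ≠ 0 := by
    rintro rfl
    refine out2 0 4 5 (by decide) ⟨{0, 4, 5}, by decide, by decide, by decide⟩ y0 z0 ?_
    rw [← h0, zero_smul, zero_add]
  have hy0 : y0 ≠ 0 := by
    rintro rfl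
    refine out2 0 3 5 (by decide) ⟨{0, 3, 5}, by decide, by decide, by decide⟩ x0 z0 ?_
    rw [← h0, zero_smul, add_zero]
  have hz0 : z0 ≠ 0 := by
    rintro rfl
    refine out2 0 3 4 (by decide) ⟨{0, 3, 4}, by decide, by decide, by decide⟩ x0 y0 ?_
    rw [← h0, zero_smul, add_zero]
  have hx1 : x1 ≠ 0 := by
    rintro rfl
    refine out2 1 4 5 (by decide) ⟨{1, 4, 5}, by decide, by decide, by decide⟩ y1 z1 ?_
    rw [← h1, zero_smul, zero_add]
  have hy1 : y1 ≠ 0 := by
    rintro rfl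
    refine out2 1 3 5 (by decide) ⟨{1, 3, 5}, by decide, by decide, by decide⟩ x1 z1 ?_
    rw [← h1, zero_smul, add_zero]
  have hz1 : z1 ≠ 0 := by
    rintro rfl
    refine out2 1 3 4 (by decide) ⟨{1, 3, 4}, by decide, by decide, by decide⟩ x1 y1 ?_
    rw [← h1, zero_smul, add_zero]
  have h2 : (s * x0 + t * x1) • φ (e 3) + (s * y0 + t * y1) • φ (e 4) +
      (s * z0 + t * z1) • φ (e 5) = φ (e 2) := by
    rw [← hst, ← h0, ← h1]
    module
  have hx2 : s * x0 + t * x1 ≠ 0 := by
    intro hh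
    refine out2 2 4 5 (by decide) ⟨{2, 4, 5}, by decide, by decide, by decide⟩
      (s * y0 + t * y1) (s * z0 + t * z1) ?_
    rw [← h2, hh, zero_smul, zero_add]
  have hy2 : s * y0 + t * y1 ≠ 0 := by
    intro hh
    refine out2 2 3 5 (by decide) ⟨{2, 3, 5}, by decide, by decide, by decide⟩
      (s * x0 + t * x1) (s * z0 + t * z1) ?_
    rw [← h2, hh, zero_smul, add_zero]
  have hz2 : s * z0 + t * z1 ≠ 0 := by
    intro hh
    refine out2 2 3 4 (by decide) ⟨{2, 3, 4}, by decide, by decide, by decide⟩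
      (s * x0 + t * x1) (s * y0 + t * y1) ?_
    rw [← h2, hh, zero_smul, add_zero]
  have hxy : x1 / x0 ≠ y1 / y0 := by
    intro hh
    refine out2 1 0 5 (by decide) ⟨{0, 1, 5}, by decide, by decide, by decide⟩
      (x1 / x0) (z1 - x1 / x0 * z0) ?_
    have e1 : x1 = x1 / x0 * x0 := by field_simp
    have e2 : y1 = x1 / x0 * y0 := by rw [hh]; field_simp
    have e3 : φ (e 1) = (x1 / x0 * x0) • φ (e 3) + (x1 / x0 * y0) • φ (e 4) + z1 • φ (e 5) := by
      rw [← e1, ← e2, h1]
    rw [e3, ← h0]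
    module
  have hxz : x1 / x0 ≠ z1 / z0 := by
    intro hh
    refine out2 1 0 4 (by decide) ⟨{0, 1, 4}, by decide, by decide, by decide⟩
      (x1 / x0) (y1 - x1 / x0 * y0) ?_
    have e1 : x1 = x1 / x0 * x0 := by field_simp
    have e2 : z1 = x1 / x0 * z0 := by rw [hh]; field_simp
    have e3 : φ (e 1) = (x1 / x0 * x0) • φ (e 3) + y1 • φ (e 4) + (x1 / x0 * z0) • φ (e 5) := by
      rw [← e1, ← e2, h1]
    rw [e3, ← h0]
    module
  have hyz : y1 / y0 ≠ z1 / z0 := by
    intro hh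
    refine out2 1 0 3 (by decide) ⟨{0, 1, 3}, by decide, by decide, by decide⟩
      (y1 / y0) (x1 - y1 / y0 * x0) ?_
    have e1 : y1 = y1 / y0 * y0 := by field_simp
    have e2 : z1 = y1 / y0 * z0 := by rw [hh]; field_simp
    have e3 : φ (e 1) = x1 • φ (e 3) + (y1 / y0 * y0) • φ (e 4) + (y1 / y0 * z0) • φ (e 5) := by
      rw [← e1, ← e2, h1]
    rw [e3, ← h0]
    module
  have hneg : ∀ a b : F, a ≠ 0 → s * a + t * b ≠ 0 → -s / t ≠ b / a := by
    intro a b ha hab hh
    apply hab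
    rw [div_eq_div_iff ht ha] at hh
    linear_combination -hh
  exact N2_five hF 0 (-s / t) (x1 / x0) (y1 / y0) (z1 / z0)
    (div_ne_zero (neg_ne_zero.2 hs) ht).symm (div_ne_zero hx1 hx0).symm
    (div_ne_zero hy1 hy0).symm (div_ne_zero hz1 hz0).symm (hneg _ _ hx0 hx2) (hneg _ _ hy0 hy2)
    (hneg _ _ hz0 hz2) hxy hxz hyz

end QG
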