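import Pool.Agent.Lib.QG.A8
import Pool.Agent.Lib.QG.D0
set_option autoImplicit false

/-! Row N4. X8 is not a gammoid: it is not strongly base orderable. The bases 0146 and 2357 are
disjoint; for each of the 24 bijections π between them some (0146 \ X) ∪ π(X) is in the list LX8.
(Gammoid.sbo; transport to Fin 8 by the injective map e, then decide.) -/

namespace QG
open Set Matroid
variable {α : Type}

private theorem N4_key : ∀ j0 ∈ ({2, 3, 5, 7} : Finset (Fin 8)),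
    ∀ j1 ∈ ({2, 3, 5, 7} : Finset (Fin 8)), ∀ j4 ∈ ({2, 3, 5, 7} : Finset (Fin 8)),
    ∀ j6 ∈ ({2, 3, 5, 7} : Finset (Fin 8)), j0 ≠ j1 → j0 ≠ j4 → j0 ≠ j6 → j1 ≠ j4 → j1 ≠ j6 →
    j4 ≠ j6 → ∃ X ∈ ({0, 1, 4, 6} : Finset (Fin 8)).powerset,
      (({0, 1, 4, 6} : Finset (Fin 8)) \ X) ∪ X.image ![j0, j1, 0, 0, j4, 0, j6, 0] ∈ LX8 := by
  decide +kernel

theorem not_gammoid_X8 {M : Matroid α} (h : IsL 8 4 LX8 M) : ¬ Gammoid M := by
  intro hG
  obtain ⟨e, hinj, hE, hB⟩ := h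
  have h1 : M.IsBase (e '' (({0, 1, 4, 6} : Finset (Fin 8)) : Set (Fin 8))) :=
    (hB _).2 (by decide +kernel)
  have h2 : M.IsBase (e '' (({2, 3, 5, 7} : Finset (Fin 8)) : Set (Fin 8))) :=
    (hB _).2 (by decide +kernel)
  have hd : Disjoint (e '' (({0, 1, 4, 6} : Finset (Fin 8)) : Set (Fin 8)))
      (e '' (({2, 3, 5, 7} : Finset (Fin 8)) : Set (Fin 8))) := by
    rw [disjoint_image_iff hinj, Finset.disjoint_coe]
    decide
  obtain ⟨π, hπ, hX⟩ := hG.sbo h1 h2 hd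
  have hj : ∀ i ∈ ({0, 1, 4, 6} : Finset (Fin 8)), ∃ j ∈ ({2, 3, 5, 7} : Finset (Fin 8)),
      e j = π (e i) := by
    intro i hi
    obtain ⟨j, hj, hj'⟩ := hπ.mapsTo ⟨i, Finset.mem_coe.2 hi, rfl⟩
    exact ⟨j, Finset.mem_coe.1 hj, hj'⟩
  obtain ⟨j0, m0, e0⟩ := hj 0 (by decide)
  obtain ⟨j1, m1, e1⟩ := hj 1 (by decide)
  obtain ⟨j4, m4, e4⟩ := hj 4 (by decide)
  obtain ⟨j6, m6, e6⟩ := hj 6 (by decide)
  have hne : ∀ i ∈ ({0, 1, 4, 6} : Finset (Fin 8)), ∀ i' ∈ ({0, 1, 4, 6} : Finset (Fin 8)),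
      ∀ j j' : Fin 8, e j = π (e i) → e j' = π (e i') → i ≠ i' → j ≠ j' := by
    rintro i hi i' hi' j j' hj hj' hii rfl
    exact hii (hinj (hπ.injOn ⟨i, Finset.mem_coe.2 hi, rfl⟩ ⟨i', Finset.mem_coe.2 hi', rfl⟩
      (hj.symm.trans hj')))
  obtain ⟨X, hXs, hL⟩ := N4_key j0 m0 j1 m1 j4 m4 j6 m6
    (hne 0 (by decide) 1 (by decide) _ _ e0 e1 (by decide))
    (hne 0 (by decide) 4 (by decide) _ _ e0 e4 (by decide))
    (hne 0 (by decide) 6 (by decide) _ _ e0 e6 (by decide))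
    (hne 1 (by decide) 4 (by decide) _ _ e1 e4 (by decide))
    (hne 1 (by decide) 6 (by decide) _ _ e1 e6 (by decide))
    (hne 4 (by decide) 6 (by decide) _ _ e4 e6 (by decide))
  have hXs' : X ⊆ {0, 1, 4, 6} := Finset.mem_powerset.1 hXs
  have hval : ∀ i ∈ X, e ((![j0, j1, 0, 0, j4, 0, j6, 0] : Fin 8 → Fin 8) i) = π (e i) := by
    intro i hi
    have h3 := hXs' hi
    simp only [Finset.mem_insert, Finset.mem_singleton] at h3
    rcases h3 with rfl | rfl | rfl | rfl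
    · exact e0
    · exact e1
    · exact e4
    · exact e6
  have h3 := hX (e '' (X : Set (Fin 8))) (image_mono (Finset.coe_subset.2 hXs'))
  have h4 : e '' (((({0, 1, 4, 6} : Finset (Fin 8)) \ X) ∪
      X.image ![j0, j1, 0, 0, j4, 0, j6, 0] : Finset (Fin 8)) : Set (Fin 8)) =
      (e '' (({0, 1, 4, 6} : Finset (Fin 8)) : Set (Fin 8)) \ e '' (X : Set (Fin 8))) ∪
        π '' (e '' (X : Set (Fin 8))) := by
    rw [Finset.coe_union, image_union, Finset.coe_sdiff, image_sdiff hinj, Finset.coe_image,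
      image_image, image_image]
    congr 1
    exact image_congr fun i hi => hval i (Finset.mem_coe.1 hi)
  rw [← h4] at h3
  exact ((hB _).1 h3).2 hL

end QG
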