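import Pool.Agent.Lib.QG.T6
import Pool.Agent.Lib.QG.D0
set_option autoImplicit false

/-! Row N5. K4, A7, E8a, E8b are not gammoids: Mason's inequality Gammoid.count fails.
EL.not_gammoid: transport by e (EL.indep, EL.rk, EL.rk_ground, EL.ncard). Lines: LK4 itself; LA7 itself;
for E8a: 0123, 045, 156, 247, 367; LE8b itself. The hypotheses are decidable (decide). -/

namespace QG
open Set Matroid
variable {α : Type}

theorem EL.not_gammoid {n : ℕ} {e : Fin n → α} {L : Finset (Finset (Fin n))} {M : Matroid α}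
    (h : EL e 3 L M)
    (hs : ∀ x y : Fin n, x ≠ y → ∃ z : Fin n, z ≠ x ∧ z ≠ y ∧ ({x, y, z} : Finset (Fin n)) ∉ L)
    {k : ℕ} (l : Fin k → Finset (Fin n)) (hl : ∀ i, 3 ≤ (l i).card)
    (hl2 : ∀ i, ∀ x ∈ l i, ∀ y ∈ l i, ∀ z ∈ l i, x ≠ y → x ≠ z → y ≠ z →
      ({x, y, z} : Finset (Fin n)) ∈ L)
    (hd : ∀ i j, i ≠ j → ∃ x ∈ l i ∪ l j, ∃ y ∈ l i ∪ l j, ∃ z ∈ l i ∪ l j, x ≠ y ∧ x ≠ z ∧ y ≠ z ∧
      ({x, y, z} : Finset (Fin n)) ∉ L)
    (hc : n < ∑ i, ((l i).card - 2) + 3) : ¬ Gammoid M := by
  intro hG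
  have hfin : M.Finite := h.finite
  have hinj : Function.Injective e := h.1
  have hE : range e = M.E := h.2.1
  have hcard : ∀ X : Finset (Fin n), (e '' (X : Set (Fin n))).ncard = X.card := fun X => by
    rw [ncard_image_of_injective _ hinj, ncard_coe_finset]
  have hsub : ∀ X : Finset (Fin n), e '' (X : Set (Fin n)) ⊆ M.E := fun X => by
    rw [← hE]
    exact image_subset_range _ _
  have hmem : ∀ B : Finset (Fin n), B.card = 3 → B ∉ L →
      B ∈ ((Finset.univ : Finset (Fin n)).powersetCard 3).filter (fun B => B ∉ L) := by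
    intro B h1 h2
    rw [Finset.mem_filter, Finset.mem_powersetCard]
    exact ⟨⟨Finset.subset_univ _, h1⟩, h2⟩
  have hthree : ∀ x y z : Fin n, x ≠ y → x ≠ z → y ≠ z → ({x, y, z} : Finset (Fin n)).card = 3 :=
    fun x y z h1 h2 h3 => Finset.card_eq_three.2 ⟨x, y, z, h1, h2, h3, rfl⟩
  have h1 := hG.count h.rk_ground (by
    intro a ha b hb hab
    rw [← hE] at ha hb
    obtain ⟨x, rfl⟩ := ha
    obtain ⟨y, rfl⟩ := hb
    have hxy : x ≠ y := fun h => hab (by rw [h])
    obtain ⟨z, hzx, hzy, hz⟩ := hs x y hxy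
    have h2 := (h.indep {x, y}).2 ⟨{x, y, z}, by
      intro w hw
      rw [Finset.mem_insert, Finset.mem_singleton] at hw
      rcases hw with rfl | rfl <;> simp, hthree x y z hxy hzx.symm hzy.symm, hz⟩
    have h3 : e '' (({x, y} : Finset (Fin n)) : Set (Fin n)) = {e x, e y} := by
      rw [Finset.coe_pair, image_pair]
    rw [← h3]
    exact h2)
    (fun i => e '' (l i : Set (Fin n)))
    (fun i => ⟨hsub _, by
      rw [h.rk]
      apply le_antisymm
      · refine Finset.sup_le fun B hB => ?_
        rw [Finset.mem_filter, Finset.mem_powersetCard] at hB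
        by_contra hlt
        rw [not_le] at hlt
        have h2 : l i ∩ B = B :=
          Finset.eq_of_subset_of_card_le Finset.inter_subset_right (by omega)
        obtain ⟨x, y, z, hxy, hxz, hyz, rfl⟩ := Finset.card_eq_three.1 hB.1.2
        have h3 : ({x, y, z} : Finset (Fin n)) ⊆ l i := by
          rw [← h2]
          exact Finset.inter_subset_left
        exact hB.2 (hl2 i x (h3 (by simp)) y (h3 (by simp)) z (h3 (by simp)) hxy hxz hyz)
      · obtain ⟨x, hx, y, hy, hxy⟩ := Finset.one_lt_card.1 (show 1 < (l i).card by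
          have := hl i
          omega)
        obtain ⟨z, hzx, hzy, hz⟩ := hs x y hxy
        refine le_trans ?_ (Finset.le_sup (f := fun B => (l i ∩ B).card)
          (hmem {x, y, z} (hthree x y z hxy hzx.symm hzy.symm) hz))
        have h2 : ({x, y} : Finset (Fin n)) ⊆ l i ∩ {x, y, z} := by
          intro w hw
          rw [Finset.mem_insert, Finset.mem_singleton] at hw
          rw [Finset.mem_inter]
          rcases hw with rfl | rfl
          · exact ⟨hx, by simp⟩
          · exact ⟨hy, by simp⟩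
        calc 2 = ({x, y} : Finset (Fin n)).card := (Finset.card_pair hxy).symm
          _ ≤ (l i ∩ {x, y, z}).card := Finset.card_le_card h2, by
      rw [hcard]
      exact hl i⟩)
    (fun i j hij => by
      rw [← image_union, ← Finset.coe_union, h.rk]
      apply le_antisymm
      · refine Finset.sup_le fun B hB => ?_
        rw [Finset.mem_filter, Finset.mem_powersetCard] at hB
        rw [← hB.1.2]
        exact Finset.card_le_card Finset.inter_subset_right
      · obtain ⟨x, hx, y, hy, z, hz, hxy, hxz, hyz, hB⟩ := hd i j hij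
        refine le_trans ?_ (Finset.le_sup (f := fun B => ((l i ∪ l j) ∩ B).card)
          (hmem {x, y, z} (hthree x y z hxy hxz hyz) hB))
        have h2 : ({x, y, z} : Finset (Fin n)) ⊆ (l i ∪ l j) ∩ {x, y, z} := by
          intro w hw
          rw [Finset.mem_inter]
          refine ⟨?_, hw⟩
          rw [Finset.mem_insert, Finset.mem_insert, Finset.mem_singleton] at hw
          rcases hw with rfl | rfl | rfl
          · exact hx
          · exact hy
          · exact hz
        calc 3 = ({x, y, z} : Finset (Fin n)).card := (hthree x y z hxy hxz hyz).symm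
          _ ≤ ((l i ∪ l j) ∩ {x, y, z}).card := Finset.card_le_card h2)
  simp only [hcard] at h1
  rw [h.ncard] at h1
  omega

theorem not_gammoid_K4 {M : Matroid α} (h : IsL 6 3 LK4 M) : ¬ Gammoid M := by
  obtain ⟨e, he⟩ := h
  exact EL.not_gammoid (e := e) he (by decide +kernel)
    (k := 4) ![{0,1,2}, {0,3,4}, {1,3,5}, {2,4,5}] (by decide +kernel) (by decide +kernel)
    (by decide +kernel) (by decide +kernel)

theorem not_gammoid_A7 {M : Matroid α} (h : IsL 7 3 LA7 M) : ¬ Gammoid M := by
  obtain ⟨e, he⟩ := h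
  exact EL.not_gammoid (e := e) he (by decide +kernel)
    (k := 5) ![{0,1,2}, {0,3,5}, {0,4,6}, {1,4,5}, {2,3,6}] (by decide +kernel) (by decide +kernel)
    (by decide +kernel) (by decide +kernel)

theorem not_gammoid_E8a {M : Matroid α} (h : IsL 8 3 LE8a M) : ¬ Gammoid M := by
  obtain ⟨e, he⟩ := h
  exact EL.not_gammoid (e := e) he (by decide +kernel)
    (k := 5) ![{0,1,2,3}, {0,4,5}, {1,5,6}, {2,4,7}, {3,6,7}] (by decide +kernel)
    (by decide +kernel) (by decide +kernel) (by decide +kernel)

theorem not_gammoid_E8b {M : Matroid α} (h : IsL 8 3 LE8b M) : ¬ Gammoid M := by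
  obtain ⟨e, he⟩ := h
  exact EL.not_gammoid (e := e) he (by decide +kernel)
    (k := 6) ![{0,1,2}, {0,3,4}, {0,5,6}, {4,6,7}, {1,3,7}, {2,5,7}] (by decide +kernel)
    (by decide +kernel) (by decide +kernel) (by decide +kernel)

end QG
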