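import Pool.Agent.Lib.QG.SPd
import Pool.Agent.Lib.QG.D0

/-! MP_2e6874_co. The fifteen types. -/

set_option autoImplicit false

namespace QG
open Set Matroid

/-- the fifteen types of matroids -/
def Ty (i : Fin 15) {α : Type} (M : Matroid α) : Prop :=
  match i with
  | 0 => IsL 6 2 ∅ M
  | 1 => IsL 6 4 ∅ M
  | 2 => IsL 6 3 LP6 M
  | 3 => IsL 8 4 LP8 M
  | 4 => IsL 6 3 LK4 M
  | 5 => IsL 7 3 LA7 M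
  | 6 => IsL 7 3 LA7 M✶
  | 7 => IsL 8 3 LE8a M
  | 8 => IsL 8 3 LE8a M✶
  | 9 => IsL 8 3 LE8b M
  | 10 => IsL 8 3 LE8b M✶
  | 11 => IsL 8 4 LX8 M
  | 12 => IsL 8 4 LSa M
  | 13 => IsL 8 4 LSb M
  | 14 => IsL 8 4 LSc M

theorem bad15_iff {α : Type} (M : Matroid α) : Bad15 M ↔ ∃ i, Ty i M := by
  constructor
  · rintro ((h | h | h | h | h | h | h | h | h | h | h | h) | h | h | h)
    exacts [⟨0, h⟩, ⟨1, h⟩, ⟨2, h⟩, ⟨3, h⟩, ⟨4, h⟩, ⟨5, h⟩, ⟨6, h⟩, ⟨7, h⟩, ⟨8, h⟩, ⟨9, h⟩, ⟨10, h⟩,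
      ⟨11, h⟩, ⟨12, h⟩, ⟨13, h⟩, ⟨14, h⟩]
  · rintro ⟨i, h⟩
    unfold Bad15 Bad
    fin_cases i <;> simp only [Ty] at h <;> tauto

end QG
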