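import Pool.Agent.Lib.QG.NI0
import Pool.Agent.Lib.QG.C1

/-! MP_2e6874_co, row NI1: invariants (number of elements, rank, number of bases). -/

set_option autoImplicit false

namespace QG
open Set Matroid

/-- NI1a. (bases of `M` are the images of the sets of `r` elements which are not in `L`) -/
theorem IsL.nbases {n r : ℕ} {L : Finset (Finset (Fin n))} (hL : ∀ B ∈ L, B.card = r)
    {α : Type} {M : Matroid α} (h : IsL n r L M) :
    {B | M.IsBase B}.ncard + L.card = n.choose r := by
  classical
  obtain ⟨e, he, hr, hB⟩ := h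
  have h1 : {B | M.IsBase B} = (fun B : Finset (Fin n) => e '' (B : Set (Fin n))) ''
      ((((Finset.univ : Finset (Fin n)).powersetCard r) \ L : Finset (Finset (Fin n))) :
        Set (Finset (Fin n))) := by
    ext B
    simp only [mem_image, Finset.mem_coe, Finset.mem_sdiff, Finset.mem_powersetCard]
    constructor
    · intro hBB
      have hBB' : M.IsBase B := hBB
      have hsub : B ⊆ range e := by rw [hr]; exact hBB'.subset_ground
      have hfin : (e ⁻¹' B).Finite := Set.toFinite _
      have himg : e '' (hfin.toFinset : Set (Fin n)) = B := by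
        rw [Set.Finite.coe_toFinset, image_preimage_eq_of_subset hsub]
      refine ⟨hfin.toFinset, ?_, himg⟩
      have := (hB hfin.toFinset).1 (by rw [himg]; exact hBB')
      exact ⟨⟨Finset.subset_univ _, this.1⟩, this.2⟩
    · rintro ⟨C, hC, rfl⟩
      exact (hB C).2 ⟨hC.1.2, hC.2⟩
  have hinj : Function.Injective (fun B : Finset (Fin n) => e '' (B : Set (Fin n))) := by
    intro B C hBC
    exact Finset.coe_injective (he.image_injective hBC)
  rw [h1, ncard_image_of_injective _ hinj, ncard_coe_finset]
  have hsub : L ⊆ (Finset.univ : Finset (Fin n)).powersetCard r := by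
    intro B hBL
    rw [Finset.mem_powersetCard]
    exact ⟨Finset.subset_univ _, hL B hBL⟩
  rw [Finset.card_sdiff_add_card_eq_card hsub, Finset.card_powersetCard, Finset.card_univ,
    Fintype.card_fin]

theorem IsL.ncard' {n r : ℕ} {L : Finset (Finset (Fin n))} {α : Type} {M : Matroid α}
    (h : IsL n r L M) : M.Finite ∧ M.E.ncard = n ∧ rk M M.E = r := by
  obtain ⟨e, he⟩ := h
  exact ⟨EL.finite he, EL.ncard he, EL.rk_ground he⟩

private theorem NI1_exists {α : Type} (M : Matroid α) (hM : M.Finite) :
    ∃ L : Finset (Finset (Fin M.E.ncard)), (∀ B ∈ L, B.card = rk M M.E) ∧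
      IsL M.E.ncard (rk M M.E) L M := by
  classical
  have hfin : Finite M.E := M.ground_finite
  have hc : Nat.card M.E = M.E.ncard := Nat.card_coe_set_eq M.E
  let f : Fin M.E.ncard ≃ M.E := (Finite.equivFinOfCardEq hc).symm
  let e : Fin M.E.ncard → α := fun i => (f i : α)
  have he : Function.Injective e := Subtype.val_injective.comp f.injective
  have hr : range e = M.E := by
    ext x
    constructor
    · rintro ⟨i, rfl⟩
      exact (f i).2
    · intro hx
      exact ⟨f.symm ⟨x, hx⟩, by simp [e]⟩
  refine ⟨(Finset.univ : Finset (Finset (Fin M.E.ncard))).filter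
    (fun B => B.card = rk M M.E ∧ ¬ M.IsBase (e '' (B : Set _))), ?_, e, he, hr, ?_⟩
  · intro B hB
    exact (Finset.mem_filter.1 hB).2.1
  · intro B
    have hcard : (e '' (B : Set (Fin M.E.ncard))).ncard = B.card := by
      rw [ncard_image_of_injective _ he, ncard_coe_finset]
    constructor
    · intro h
      have h2 := (isBase_iff_rk M h.subset_ground).1 h
      refine ⟨by rw [← hcard]; exact h2.2, ?_⟩
      rw [Finset.mem_filter]
      tauto
    · rintro ⟨h1, h2⟩
      rw [Finset.mem_filter] at h2
      by_contra h3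
      exact h2 ⟨Finset.mem_univ _, h1, h3⟩

/-- NI1b. -/
theorem MIso.inv {α β : Type} {M : Matroid α} {N : Matroid β} (hM : M.Finite) (h : MIso M N) :
    N.Finite ∧ M.E.ncard = N.E.ncard ∧ rk M M.E = rk N N.E ∧
      {B | M.IsBase B}.ncard = {B | N.IsBase B}.ncard := by
  obtain ⟨L, hL, hML⟩ := NI1_exists M hM
  have hN := hML.iso h
  obtain ⟨h1, h2, h3⟩ := hN.ncard'
  have h4 := hML.nbases hL
  have h5 := hN.nbases hL
  exact ⟨h1, h2.symm, h3.symm, by omega⟩

/-- NI1c. duality: (number of elements, rank, number of bases) -/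
theorem inv_dual {α : Type} (M : Matroid α) (hM : M.Finite) :
    M✶.E.ncard = M.E.ncard ∧ rk M M.E + rk M✶ M✶.E = M.E.ncard ∧
      {B | M✶.IsBase B}.ncard = {B | M.IsBase B}.ncard := by
  refine ⟨rfl, ?_, ?_⟩
  · rw [dual_ground, add_comm]
    exact rk_dual_ground M
  · refine ncard_congr (fun B _ => M.E \ B) ?_ ?_ ?_
    · intro B hB
      exact ((dual_isBase_iff'.1 hB).1)
    · intro B C hB hC hBC
      have h1 := (dual_isBase_iff'.1 hB).2
      have h2 := (dual_isBase_iff'.1 hC).2
      have h3 : M.E \ (M.E \ B) = M.E \ (M.E \ C) := by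
        have : M.E \ B = M.E \ C := hBC
        rw [this]
      rwa [sdiff_sdiff_cancel_left h1, sdiff_sdiff_cancel_left h2] at h3
    · intro B hB
      have hB' : M.IsBase B := hB
      refine ⟨M.E \ B, ?_, sdiff_sdiff_cancel_left hB'.subset_ground⟩
      change M✶.IsBase (M.E \ B)
      rw [dual_isBase_iff', sdiff_sdiff_cancel_left hB'.subset_ground]
      exact ⟨hB', Set.sdiff_subset⟩

end QG
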