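import Pool.Agent.Lib.QG.NI0

/-!
MP_2e6874_co. The fifteen types in short form (nonbases given by lists of lists of numbers).
-/

set_option autoImplicit false

namespace QG
open Set Matroid

/-- `M` has `n` elements, named `e 0, ..., e (n - 1)`; its bases are the sets of `r` elements whose
set of indices is not one of the sets in the list `L` -/
def IsM (n r : ℕ) (L : List (List ℕ)) {α : Type} (M : Matroid α) : Prop :=
  ∃ e : Fin n → α, Function.Injective e ∧ range e = M.E ∧
    ∀ B : Finset (Fin n), M.IsBase (e '' (B : Set (Fin n))) ↔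
      B.card = r ∧ ∀ l ∈ L, B.image Fin.val ≠ l.toFinset

/-- six points, one three point line -/
def NP6 : List (List ℕ) :=
  [[0,1,2]]

/-- the matroid `P_8` with both circuit-hyperplanes relaxed -/
def NP8 : List (List ℕ) :=
  [[0,1,2,7], [0,1,3,6], [0,2,3,5], [0,4,5,6], [1,2,3,4], [1,4,5,7], [2,4,6,7], [3,5,6,7]]

/-- the cycle matroid of the complete graph with four vertices -/
def NK4 : List (List ℕ) :=
  [[0,1,2], [0,3,4], [1,3,5], [2,4,5]]

/-- the affine plane of order three without two points -/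
def NA7 : List (List ℕ) :=
  [[0,1,2], [0,3,5], [0,4,6], [1,4,5], [2,3,6]]

/-- eight points in the plane, the lines 0123, 045, 156, 247, 367 -/
def NE8a : List (List ℕ) :=
  [[0,1,2], [0,1,3], [0,2,3], [1,2,3], [0,4,5], [1,5,6], [2,4,7], [3,6,7]]

/-- eight points in the plane, the lines 012, 034, 056, 467, 137, 257 -/
def NE8b : List (List ℕ) :=
  [[0,1,2], [0,3,4], [0,5,6], [4,6,7], [1,3,7], [2,5,7]]

/-- rank 4, eight elements, sixteen nonbases -/
def NX8 : List (List ℕ) :=
  [[0,1,2,5], [0,1,3,6], [0,1,3,7], [0,1,6,7], [0,2,3,5], [0,2,4,5], [0,2,5,6], [0,2,5,7],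
   [0,2,6,7], [0,3,6,7], [0,4,6,7], [0,5,6,7], [1,2,4,6], [1,3,6,7], [2,5,6,7], [3,4,5,7]]

/-- rank 4, eight elements: the line 014, the five point plane 01467, the planes 0235, 1236, 2457, 3567 -/
def NSa : List (List ℕ) :=
  [[0,1,2,4], [0,1,3,4], [0,2,3,5], [0,1,4,5], [1,2,3,6], [0,1,4,6], [0,1,4,7], [2,4,5,7],
   [0,1,6,7], [0,4,6,7], [1,4,6,7], [3,5,6,7]]

/-- rank 4, eight elements: the line 014, the five point plane 01347, the planes 0235, 1236, 2457, 1567 -/
def NSb : List (List ℕ) :=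
  [[0,1,2,4], [0,1,3,4], [0,2,3,5], [0,1,4,5], [1,2,3,6], [0,1,4,6], [0,1,3,7], [0,1,4,7],
   [0,3,4,7], [1,3,4,7], [2,4,5,7], [1,5,6,7]]

/-- rank 4, eight elements, eight four point planes -/
def NSc : List (List ℕ) :=
  [[0,1,3,5], [2,3,4,5], [0,1,2,6], [1,3,4,6], [0,2,4,7], [1,2,5,7], [0,3,6,7], [4,5,6,7]]

/-- the fifteen types of matroids -/
def Typ (i : Fin 15) {α : Type} (M : Matroid α) : Prop :=
  ![IsM 6 2 [] M, IsM 6 4 [] M, IsM 6 3 NP6 M, IsM 8 4 NP8 M, IsM 6 3 NK4 M,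
    IsM 7 3 NA7 M, IsM 7 3 NA7 M✶, IsM 8 3 NE8a M, IsM 8 3 NE8a M✶,
    IsM 8 3 NE8b M, IsM 8 3 NE8b M✶, IsM 8 4 NX8 M, IsM 8 4 NSa M, IsM 8 4 NSb M,
    IsM 8 4 NSc M] i

theorem isM_iff {n r : ℕ} {L : List (List ℕ)} {K : Finset (Finset (Fin n))} {α : Type}
    (M : Matroid α)
    (h : ∀ B : Finset (Fin n), B.card = r → (B ∈ K ↔ ∃ l ∈ L, B.image Fin.val = l.toFinset)) :
    IsM n r L M ↔ IsL n r K M := by
  have h2 : ∀ B : Finset (Fin n), (B.card = r ∧ ∀ l ∈ L, B.image Fin.val ≠ l.toFinset) ↔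
      (B.card = r ∧ B ∉ K) := by
    intro B
    refine and_congr_right fun hB => ?_
    rw [h B hB]
    push Not
    rfl
  unfold IsM IsL
  simp only [h2]

theorem typ_iff (i : Fin 15) {α : Type} (M : Matroid α) : Typ i M ↔ Ty i M := by
  fin_cases i
  · exact isM_iff (n := 6) (r := 2) (L := []) (K := ∅) M (by decide +kernel)
  · exact isM_iff (n := 6) (r := 4) (L := []) (K := ∅) M (by decide +kernel)
  · exact isM_iff (n := 6) (r := 3) (L := NP6) (K := LP6) M (by decide +kernel)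
  · exact isM_iff (n := 8) (r := 4) (L := NP8) (K := LP8) M (by decide +kernel)
  · exact isM_iff (n := 6) (r := 3) (L := NK4) (K := LK4) M (by decide +kernel)
  · exact isM_iff (n := 7) (r := 3) (L := NA7) (K := LA7) M (by decide +kernel)
  · exact isM_iff (n := 7) (r := 3) (L := NA7) (K := LA7) M✶ (by decide +kernel)
  · exact isM_iff (n := 8) (r := 3) (L := NE8a) (K := LE8a) M (by decide +kernel)
  · exact isM_iff (n := 8) (r := 3) (L := NE8a) (K := LE8a) M✶ (by decide +kernel)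
  · exact isM_iff (n := 8) (r := 3) (L := NE8b) (K := LE8b) M (by decide +kernel)
  · exact isM_iff (n := 8) (r := 3) (L := NE8b) (K := LE8b) M✶ (by decide +kernel)
  · exact isM_iff (n := 8) (r := 4) (L := NX8) (K := LX8) M (by decide +kernel)
  · exact isM_iff (n := 8) (r := 4) (L := NSa) (K := LSa) M (by decide +kernel)
  · exact isM_iff (n := 8) (r := 4) (L := NSb) (K := LSb) M (by decide +kernel)
  · exact isM_iff (n := 8) (r := 4) (L := NSc) (K := LSc) M (by decide +kernel)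

end QG
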