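import Pool.Agent.Lib.QG.A5
import Pool.Agent.Lib.QG.A6
import Pool.Agent.Lib.QG.B2
import Pool.Agent.Lib.QG.B3
import Pool.Agent.Lib.QG.C2
set_option autoImplicit false

/-! Row Q1. Closure properties of the class of quaternary gammoids; excluded minors are 3-connected.
(Use a fixed field with four elements, e.g. GaloisField 2 2, and quaternary_iff for the sums.)
ExMin.threeConn: if X, M.E \ X nonempty and rk X + rk (M.E \ X) = rk M (≤ suffices, by submodularity)
then M ↾ X and M ↾ (M.E \ X) are proper minors, and sep_one, gammoid_sum, rep_sum give QGam M. If both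
have at least two elements and rk X + rk (M.E \ X) = rk M + 1: sep_two_minor for (X, Y) and (Y, X) gives
N1, N2, proper minors (|Y|, |X| ≥ 2), sep_two gives the hypothesis of gammoid_two_sum, rep_two_sum;
N1.Indep {y}: N1.Indep (insert y ∅) iff rk Y = rk Y. -/

namespace QG
open Set Matroid
variable {α β : Type} {M N : Matroid α}

private lemma Q1_dual_minor (h : N ≤m M) : N✶ ≤m M✶ := by
  obtain ⟨C, D, -, -, hCD, rfl⟩ := h.exists_eq_contract_delete_disjoint
  refine ⟨D, C, ?_⟩
  rw [dual_contract_delete, contract_delete_comm _ hCD.symm]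

private lemma Q1_dual_strict (h : N <m M) : N✶ <m M✶ := by
  rw [isStrictMinor_iff_isMinor_ne] at h ⊢
  exact ⟨Q1_dual_minor h.1, fun hh => h.2 (dual_inj.1 hh)⟩

theorem QGam.dual (h : QGam M) : QGam M✶ := by
  obtain ⟨hf, hg, F, hF, hc, hr⟩ := h
  exact ⟨inferInstance, hg.dual, F, hF, hc, hr.dual⟩

theorem QGam.minor (h : QGam M) (hN : N ≤m M) : QGam N := by
  obtain ⟨hf, hg, F, hF, hc, hr⟩ := h
  refine ⟨?_, hg.minor hN, F, hF, hc, hr.minor hN⟩
  obtain ⟨C, D, rfl⟩ := hN
  infer_instance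

theorem QGam.iso {P : Matroid β} (h : QGam M) (e : MIso M P) : QGam P := by
  obtain ⟨hf, hg, F, hF, hc, hr⟩ := h
  refine ⟨?_, hg.iso e, F, hF, hc, hr.iso e⟩
  obtain ⟨e, -⟩ := e
  have : Finite M.E := hf.ground_finite
  exact ⟨(Finite.of_equiv _ e : Finite P.E)⟩

theorem ExMin.dual (h : ExMin M) : ExMin M✶ := by
  obtain ⟨hf, hn, hm⟩ := h
  refine ⟨inferInstance, fun hh => hn ?_, fun N hN => ?_⟩
  · have := hh.dual
    rwa [dual_dual] at this
  · have h1 := Q1_dual_strict hN
    rw [dual_dual] at h1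
    have := (hm _ h1).dual
    rwa [dual_dual] at this

private lemma Q1_card : Nat.card (GaloisField 2 2) = 4 := by
  rw [GaloisField.card 2 2 (by norm_num)]
  norm_num

theorem ExMin.threeConn (h : ExMin M) : ThreeConn M := by
  obtain ⟨hf, hn, hm⟩ := h
  have key1 : ∀ X, X ⊆ M.E → 1 ≤ X.ncard → 1 ≤ (M.E \ X).ncard →
      rk M M.E + 1 ≤ rk M X + rk M (M.E \ X) := by
    intro X hX h1 h2
    by_contra hcon
    have hE : M.E = X ∪ (M.E \ X) := (union_sdiff_cancel hX).symm
    have hle := rk_union_le M X (M.E \ X)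
    rw [← hE] at hle
    have hr : rk M X + rk M (M.E \ X) = rk M M.E := by omega
    have hd : Disjoint X (M.E \ X) := disjoint_sdiff_right
    have hX1 : M ↾ X <m M := by
      rw [isStrictMinor_iff_isMinor_ssubset]
      refine ⟨⟨∅, M.E \ X, by rw [contract_empty, delete_compl hX]⟩, hX, fun hh => ?_⟩
      have h3 : M.E \ X = ∅ := sdiff_eq_empty.2 hh
      rw [h3] at h2
      simp at h2
    have hY1 : M ↾ (M.E \ X) <m M := by
      rw [isStrictMinor_iff_isMinor_ssubset]
      refine ⟨⟨∅, M.E \ (M.E \ X), by rw [contract_empty, delete_compl sdiff_subset]⟩,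
        sdiff_subset, fun hh => ?_⟩
      have : X = ∅ := by
        refine eq_empty_of_forall_notMem fun x hx => ?_
        exact (hh (hX hx)).2 hx
      rw [this] at h1
      simp at h1
    have q1 := hm _ hX1
    have q2 := hm _ hY1
    have hsum : ∀ I, I ⊆ X → ∀ J, J ⊆ M.E \ X →
        (M.Indep (I ∪ J) ↔ M.Indep I ∧ M.Indep J) :=
      fun I hI J hJ => sep_one M hE hd hr hI hJ
    refine hn ⟨hf, gammoid_sum hE hd hsum q1.2.1 q2.2.1, ?_⟩
    rw [quaternary_iff Q1_card]
    exact rep_sum hE hd hsum ((quaternary_iff Q1_card).1 q1.2.2)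
      ((quaternary_iff Q1_card).1 q2.2.2)
  intro X hX
  refine ⟨key1 X hX, fun h1 h2 => ?_⟩
  by_contra hcon
  have hk := key1 X hX (by omega) (by omega)
  have hE : M.E = X ∪ (M.E \ X) := (union_sdiff_cancel hX).symm
  have hE' : M.E = (M.E \ X) ∪ X := by rw [union_comm]; exact hE
  have hr : rk M X + rk M (M.E \ X) = rk M M.E + 1 := by omega
  have hr' : rk M (M.E \ X) + rk M X = rk M M.E + 1 := by omega
  have hd : Disjoint X (M.E \ X) := disjoint_sdiff_right
  obtain ⟨N1, y, hN1, hy, hE1, a1, a2⟩ := sep_two_minor M hE hd hr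
  obtain ⟨N2, x, hN2, hx, hE2, b1, b2⟩ := sep_two_minor M hE' hd.symm hr'
  have hs1 : N1 <m M := by
    rw [isStrictMinor_iff_isMinor_ssubset]
    refine ⟨hN1, hN1.subset, fun hh => ?_⟩
    have hsub : M.E \ X ⊆ {y} := by
      intro z hz
      have := hh hz.1
      rw [hE1] at this
      exact this.resolve_right hz.2
    have := ncard_le_ncard hsub
    rw [ncard_singleton] at this
    omega
  have hs2 : N2 <m M := by
    rw [isStrictMinor_iff_isMinor_ssubset]
    refine ⟨hN2, hN2.subset, fun hh => ?_⟩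
    have hsub : X ⊆ {x} := by
      intro z hz
      have := hh (hX hz)
      rw [hE2] at this
      exact this.resolve_right fun h' => h'.2 hz
    have := ncard_le_ncard hsub
    rw [ncard_singleton] at this
    omega
  have q1 := hm _ hs1
  have q2 := hm _ hs2
  have hsum : ∀ I, I ⊆ X → ∀ J, J ⊆ M.E \ X → (M.Indep (I ∪ J) ↔
      (N1.Indep (insert y I) ∧ N2.Indep J) ∨ (N1.Indep I ∧ N2.Indep (insert x J))) := by
    intro I hI J hJ
    rw [sep_two M hE hd hr hI hJ, a1 I hI, a2 I hI, b1 J hJ, b2 J hJ]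
  have hne1 : N1.Indep {y} := by
    rw [← insert_empty_eq, a2 ∅ (empty_subset _)]
    exact ⟨M.empty_indep, by simp⟩
  have hne2 : N2.Indep {x} := by
    rw [← insert_empty_eq, b2 ∅ (empty_subset _)]
    exact ⟨M.empty_indep, by simp⟩
  refine hn ⟨hf, gammoid_two_sum hE hd hx hy hE1 hE2 hsum q1.2.1 q2.2.1, ?_⟩
  rw [quaternary_iff Q1_card]
  exact rep_two_sum hE hd hx hy hE1 hE2 hne1 hne2 hsum ((quaternary_iff Q1_card).1 q1.2.2)
      ((quaternary_iff Q1_card).1 q2.2.2)

theorem ThreeConn.dual [M.Finite] (h : ThreeConn M) : ThreeConn M✶ := by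
  intro X hX
  rw [dual_ground] at hX ⊢
  have h1 := rk_dual M hX
  have h2 := rk_dual M (sdiff_subset : M.E \ X ⊆ M.E)
  rw [sdiff_sdiff_cancel_left hX] at h2
  have h3 := rk_dual_ground M
  have h4 : X.ncard + (M.E \ X).ncard = M.E.ncard := by
    rw [add_comm]
    exact ncard_sdiff_add_ncard_of_subset hX M.ground_finite
  have h5 := h X hX
  refine ⟨fun a b => ?_, fun a b => ?_⟩
  · have := h5.1 a b
    omega
  · have := h5.2 a b
    omega

end QG
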