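import Pool.Agent.Lib.QG.Q1
import Pool.Agent.Lib.QG.Q2
import Pool.Agent.Lib.QG.K1
import Pool.Agent.Lib.QG.N1
import Pool.Agent.Lib.QG.N2
import Pool.Agent.Lib.QG.N3
import Pool.Agent.Lib.QG.N4
import Pool.Agent.Lib.QG.N5
set_option autoImplicit false

/-! Row Q3. The twelve matroids are excluded minors; reduction of the theorem to the 3-connected
matroids without minor among the twelve. -/

namespace QG
open Set Matroid
variable {α : Type} {M N : Matroid α}

private theorem Q3_fin {n r : ℕ} {L : Finset (Finset (Fin n))} (h : IsL n r L M) : M.Finite := by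
  obtain ⟨e, he⟩ := h
  exact EL.finite (e := e) (r := r) (L := L) he

private theorem Q3_fin' (h : M✶.Finite) : M.Finite := ⟨h.ground_finite⟩

private theorem Q3_U46 (h : IsL 6 4 ∅ M) : IsL 6 2 ∅ M✶ := by
  obtain ⟨e, he⟩ := h
  have h1 : EL e 4 ∅ M := he
  have h2 := h1.dual
  rw [Finset.image_empty] at h2
  exact ⟨_, h2⟩

private theorem Q3_strict (h : N <m M) : ∃ x ∈ M.E, N ≤m M ＼ {x} ∨ N ≤m M ／ {x} := by
  obtain ⟨C, D, hC, hD, -, hN⟩ := h.isMinor.exists_eq_contract_delete_disjoint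
  rcases C.eq_empty_or_nonempty with hCe | ⟨x, hx⟩
  · subst hCe
    rcases D.eq_empty_or_nonempty with hDe | ⟨x, hx⟩
    · subst hDe
      rw [contract_empty, delete_empty] at hN
      exact absurd hN h.ne
    · refine ⟨x, hD hx, Or.inl ⟨∅, D \ {x}, ?_⟩⟩
      rw [hN, contract_empty, contract_empty, delete_delete,
        union_sdiff_cancel (singleton_subset_iff.2 hx)]
  · refine ⟨x, hC hx, Or.inr ⟨C \ {x}, D, ?_⟩⟩
    rw [hN, contract_contract, union_sdiff_cancel (singleton_subset_iff.2 hx)]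

private theorem Q3_ex (hfin : M.Finite) (hn : ¬ QGam M)
    (h : ∀ x ∈ M.E, QGam (M ＼ {x}) ∧ QGam (M ／ {x})) : ExMin M := by
  refine ⟨hfin, hn, fun N hN => ?_⟩
  obtain ⟨x, hx, h1 | h1⟩ := Q3_strict hN
  · exact (h x hx).1.minor h1
  · exact (h x hx).2.minor h1

theorem Bad.finite (h : Bad M) : M.Finite := by
  unfold Bad at h
  rcases h with h | h | h | h | h | h | h | h | h | h | h | h
  · exact Q3_fin h
  · exact Q3_fin h
  · exact Q3_fin h
  · exact Q3_fin h
  · exact Q3_fin h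
  · exact Q3_fin h
  · exact Q3_fin' (Q3_fin h)
  · exact Q3_fin h
  · exact Q3_fin' (Q3_fin h)
  · exact Q3_fin h
  · exact Q3_fin' (Q3_fin h)
  · exact Q3_fin h

theorem Bad.not_qgam (h : Bad M) : ¬ QGam M := by
  unfold Bad at h
  rcases h with h | h | h | h | h | h | h | h | h | h | h | h
  · rintro ⟨-, -, F, hF, hc, hr⟩
    exact not_rep_U26 h hc hr
  · intro hq
    obtain ⟨-, -, F, hF, hc, hr⟩ := hq.dual
    exact not_rep_U26 (Q3_U46 h) hc hr
  · rintro ⟨-, -, F, hF, hc, hr⟩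
    exact not_rep_P6 h hc hr
  · rintro ⟨-, -, F, hF, hc, hr⟩
    exact not_rep_P8 h hc hr
  · exact fun hq => not_gammoid_K4 h hq.2.1
  · exact fun hq => not_gammoid_A7 h hq.2.1
  · exact fun hq => not_gammoid_A7 h hq.dual.2.1
  · exact fun hq => not_gammoid_E8a h hq.2.1
  · exact fun hq => not_gammoid_E8a h hq.dual.2.1
  · exact fun hq => not_gammoid_E8b h hq.2.1
  · exact fun hq => not_gammoid_E8b h hq.dual.2.1
  · exact fun hq => not_gammoid_X8 h hq.2.1

private theorem Q3_dual (h : ∀ x ∈ M✶.E, QGam (M✶ ＼ {x}) ∧ QGam (M✶ ／ {x})) :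
    ∀ x ∈ M.E, QGam (M ＼ {x}) ∧ QGam (M ／ {x}) := by
  intro x hx
  obtain ⟨h1, h2⟩ := h x hx
  have h1' := h1.dual
  have h2' := h2.dual
  rw [dual_delete, dual_dual] at h1'
  rw [dual_contract, dual_dual] at h2'
  exact ⟨h2', h1'⟩

theorem Bad.exMin (h : Bad M) : ExMin M := by
  refine Q3_ex h.finite h.not_qgam ?_
  unfold Bad at h
  rcases h with h | h | h | h | h | h | h | h | h | h | h | h
  · exact sm_U26 h
  · exact Q3_dual (sm_U26 (Q3_U46 h))
  · exact sm_P6 h
  · exact sm_P8 h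
  · exact sm_K4 h
  · exact sm_A7 h
  · exact Q3_dual (sm_A7 h)
  · exact sm_E8a h
  · exact Q3_dual (sm_E8a h)
  · exact sm_E8b h
  · exact Q3_dual (sm_E8b h)
  · exact sm_X8 h

theorem QGam.good (h : QGam M) : Good M :=
  fun _ hN hB => hB.not_qgam (h.minor hN)

private theorem Q3_min (n : ℕ) : ∀ M : Matroid α, M.Finite → M.E.ncard = n → ¬ QGam M →
    ∃ N, N ≤m M ∧ ExMin N := by
  induction n using Nat.strong_induction_on with
  | h n ih =>
    intro M hM hn hq
    by_cases h : ∀ N : Matroid α, N <m M → QGam N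
    · exact ⟨M, IsMinor.refl, hM, hq, h⟩
    · push Not at h
      obtain ⟨N, hN, hNq⟩ := h
      have hfin : M.E.Finite := hM.ground_finite
      have h1 : N.E.ncard < n := by
        rw [← hn]
        exact ncard_lt_ncard hN.ssubset hfin
      obtain ⟨N', h2, h3⟩ := ih _ h1 N ⟨hfin.subset hN.ssubset.subset⟩ rfl hNq
      exact ⟨N', h2.trans hN.isMinor, h3⟩

theorem main_reduction
    (hclass : ∀ (α : Type) (M : Matroid α), M.Finite → ThreeConn M → Good M → QGam M) :
    (∀ (α : Type) (M : Matroid α), ExMin M ↔ Bad M) ∧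
    (∀ (α : Type) (M : Matroid α), M.Finite → (QGam M ↔ Good M)) := by
  have hex : ∀ (α : Type) (M : Matroid α), ExMin M → Bad M := by
    intro α M h
    by_contra hB
    refine h.2.1 (hclass α M h.1 h.threeConn fun N hN hNB => ?_)
    by_cases hMN : N = M
    · exact hB (hMN ▸ hNB)
    · exact hNB.not_qgam (h.2.2 N (isStrictMinor_iff_isMinor_ne.2 ⟨hN, hMN⟩))
  refine ⟨fun α M => ⟨hex α M, Bad.exMin⟩, fun α M hM => ⟨QGam.good, fun h => ?_⟩⟩
  by_contra hq
  obtain ⟨N, hN, hNe⟩ := Q3_min _ M hM rfl hq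
  exact h N hN (hex α N hNe)

end QG
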