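import Pool.Agent.Lib.QG.A3
set_option autoImplicit false

/-! Row T1. The transversal matroid. `transM R` on the finite type S: independent sets = sets matched
into J. Augmentation from mendelsohn_dulmage: if X, X' are matched and X has fewer elements, take
K := f'(X'), h := inverse of the matching f' of X': the set Y contains X, is contained in X ∪ X' and
has at least |K| = |X'| elements, so it contains some x ∈ X' \ X, and X + x ⊆ Y is matched. -/

namespace QG
open Set Matroid

theorem Mat.subset {S J : Type} {R : S → J → Prop} {X Y : Set S} (h : Mat R Y) (hXY : X ⊆ Y) :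
    Mat R X := by
  obtain ⟨g, hg, hi⟩ := h
  exact ⟨g, fun x hx => hg x (hXY hx), hi.mono hXY⟩

theorem Mat.augment {S J : Type} [Finite S] {R : S → J → Prop} {X Y : Set S} (hX : Mat R X)
    (hY : Mat R Y) (hXY : X.ncard < Y.ncard) : ∃ y ∈ Y, y ∉ X ∧ Mat R (insert y X) := by
  obtain ⟨f, hf, hfi⟩ := hX
  obtain ⟨f', hf', hfi'⟩ := hY
  have hinv : ∀ j : J, ∃ s : S, j ∈ f' '' Y → s ∈ Y ∧ f' s = j := by
    intro j
    by_cases hj : j ∈ f' '' Y
    · obtain ⟨s, hs, rfl⟩ := hj
      exact ⟨s, fun _ => ⟨hs, rfl⟩⟩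
    · have : Y.Nonempty := by
        rw [nonempty_iff_ne_empty]
        rintro rfl
        simp at hXY
      exact ⟨this.some, fun h => absurd h hj⟩
  choose h hh using hinv
  obtain ⟨Z, g, hXZ, hZ, hg, hgi, hK⟩ := mendelsohn_dulmage R X (f' '' Y) f hf hfi h
    (fun j hj => by
      have h1 := hh j hj
      have h2 := hf' _ h1.1
      rwa [h1.2] at h2)
    (fun j hj j' hj' e => by
      rw [← (hh j hj).2, ← (hh j' hj').2, e])
  have hcard : Y.ncard ≤ Z.ncard := by
    calc Y.ncard = (f' '' Y).ncard := hfi'.ncard_image.symm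
      _ ≤ (g '' Z).ncard := ncard_le_ncard hK (toFinite _)
      _ ≤ Z.ncard := ncard_image_le (toFinite _)
  obtain ⟨y, hyZ, hyX⟩ : ∃ y ∈ Z, y ∉ X := by
    by_contra hcon
    push Not at hcon
    have h1 : Z.ncard ≤ X.ncard := ncard_le_ncard hcon (toFinite _)
    omega
  refine ⟨y, ?_, hyX, Mat.subset ⟨g, hg, hgi⟩ (insert_subset hyZ hXZ)⟩
  rcases hZ hyZ with h1 | ⟨j, hj, rfl⟩
  · exact absurd h1 hyX
  · exact (hh j hj).1

/-- transversal matroid (given by its independent sets) -/
noncomputable def transM {S J : Type} [Finite S] [Nonempty J] (R : S → J → Prop) : Matroid S :=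
  (IndepMatroid.ofFinite (E := (univ : Set S)) (toFinite _) (fun X => Mat R X)
    ⟨fun _ => Classical.arbitrary J, by simp, by simp⟩
    (fun _ _ hJ hIJ => hJ.subset hIJ)
    (fun I J hI hJ h => by
      obtain ⟨y, hy, hyI, hm⟩ := hI.augment hJ h
      exact ⟨y, hy, hyI, hm⟩)
    (fun _ _ => subset_univ _)).matroid

theorem transM_E {S J : Type} [Finite S] [Nonempty J] (R : S → J → Prop) :
    (transM R).E = univ := rfl

theorem transM_indep {S J : Type} [Finite S] [Nonempty J] (R : S → J → Prop) (X : Set S) :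
    (transM R).Indep X ↔ Mat R X := Iff.rfl

end QG
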