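import Pool.Agent.Lib.QG.T1
import Pool.Agent.Lib.QG.C1
set_option autoImplicit false

/-! Row T2. Rank in the transversal matroid. trans_cyclic: if Z has no coloop then every j related to
some element of Z is used by a maximum matching of Z. Proof: let K := the set of these j and suppose
rk Z < |K|. By Hall (Finset.all_card_le_biUnion_card_iff_exists_injective, for the family j ↦
{v ∈ Z | R v j}, j ∈ K) there is K' ⊆ K with |D| < |K'| where D := {v ∈ Z | R v j for some j ∈ K'};
choose K' with |K'| - |D| as large as possible. D is nonempty. By Hall again D is matched into K', by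
g, and (|D| < |K'|). Take v ∈ D; there is a base I of Z avoiding v, with a matching g'. Then g on
(I ∩ D) ∪ {v} and g' on I \ D is a matching of I + v (elements of Z \ D are not related to K'),
contradiction. -/

namespace QG
open Set Matroid

theorem trans_rk_le {S J : Type} [Finite S] [Finite J] [Nonempty J] (R : S → J → Prop)
    (Z : Set S) : rk (transM R) Z ≤ {j | ∃ v ∈ Z, R v j}.ncard := by
  obtain ⟨I, hIZ, hI, hIr⟩ := exists_indep_rk (transM R) Z
  rw [← hIr]
  obtain ⟨g, hg, hinj⟩ := (transM_indep R I).1 hI
  rw [← hinj.ncard_image]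
  refine Set.ncard_le_ncard ?_ (Set.toFinite _)
  rintro j ⟨x, hx, rfl⟩
  exact ⟨x, hIZ hx, hg x hx⟩

theorem trans_cyclic {S J : Type} [Finite S] [Finite J] [Nonempty J] (R : S → J → Prop)
    (Z : Set S) (h : ∀ v ∈ Z, rk (transM R) (Z \ {v}) = rk (transM R) Z) :
    rk (transM R) Z = {j | ∃ v ∈ Z, R v j}.ncard := by
  classical
  refine le_antisymm (trans_rk_le R Z) ?_
  let _ := Fintype.ofFinite S
  let _ := Fintype.ofFinite J
  let K : Finset J := Finset.univ.filter (fun j => ∃ v ∈ Z, R v j)
  let N : Finset J → Finset S := fun A => Finset.univ.filter (fun v => v ∈ Z ∧ ∃ j ∈ A, R v j)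
  have hmemN : ∀ A v, v ∈ N A ↔ v ∈ Z ∧ ∃ j ∈ A, R v j := fun A v => by simp [N]
  have hmemK : ∀ j, j ∈ K ↔ ∃ v ∈ Z, R v j := fun j => by simp [K]
  obtain ⟨K', hK', hmax⟩ := Finset.exists_max_image K.powerset
    (fun A => (A.card : ℤ) - (N A).card) ⟨∅, by simp⟩
  rw [Finset.mem_powerset] at hK'
  rcases lt_or_ge (N K').card K'.card with hpos | hle
  · exfalso
    -- the set N K' is matched into K'
    have hall := (Fintype.all_card_le_filter_rel_iff_exists_injective
      (α := {v // v ∈ N K'}) (β := J) (fun v j => j ∈ K' ∧ R v.1 j)).1 (by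
      intro A
      set B : Finset J := Finset.univ.filter (fun j => ∃ a ∈ A, j ∈ K' ∧ R a.1 j) with hB
      have hBK : B ⊆ K' := by
        intro j hj
        simp only [hB, Finset.mem_filter, Finset.mem_univ, true_and] at hj
        obtain ⟨_, _, hj, _⟩ := hj
        exact hj
      have h1 := hmax (K' \ B) (Finset.mem_powerset.2 (Finset.sdiff_subset.trans hK'))
      have h2 : N (K' \ B) ⊆ N K' \ A.map (Function.Embedding.subtype _) := by
        intro v hv
        rw [hmemN] at hv
        obtain ⟨hvZ, j, hj, hvj⟩ := hv
        rw [Finset.mem_sdiff] at hj ⊢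
        refine ⟨(hmemN _ _).2 ⟨hvZ, j, hj.1, hvj⟩, fun hvA => hj.2 ?_⟩
        simp only [Finset.mem_map, Function.Embedding.coe_subtype] at hvA
        obtain ⟨a, haA, rfl⟩ := hvA
        simp only [hB, Finset.mem_filter, Finset.mem_univ, true_and]
        exact ⟨a, haA, hj.1, hvj⟩
      have h3 := Finset.card_le_card h2
      have h4 : A.map (Function.Embedding.subtype _) ⊆ N K' := by
        intro v hv
        simp only [Finset.mem_map, Function.Embedding.coe_subtype] at hv
        obtain ⟨a, _, rfl⟩ := hv
        exact a.2
      rw [Finset.card_sdiff_of_subset h4, Finset.card_map] at h3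
      have h5 := Finset.card_le_card h4
      rw [Finset.card_map] at h5
      have h6 := Finset.card_sdiff_of_subset hBK
      have h7 := Finset.card_le_card hBK
      omega)
    obtain ⟨g, hginj, hg⟩ := hall
    have hne : K'.Nonempty := Finset.card_pos.1 (by omega)
    obtain ⟨j, hj⟩ := hne
    obtain ⟨v, hvZ, hvj⟩ := (hmemK j).1 (hK' hj)
    have hvN : v ∈ N K' := (hmemN _ _).2 ⟨hvZ, j, hj, hvj⟩
    obtain ⟨I, hIZ, hI, hIr⟩ := exists_indep_rk (transM R) (Z \ {v})
    obtain ⟨g', hg', hinj'⟩ := (transM_indep R I).1 hI
    have hvI : v ∉ I := fun hv => (hIZ hv).2 rfl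
    have hmix : ∀ x (hx : x ∈ N K'), ∀ y ∈ I, y ∉ N K' → g ⟨x, hx⟩ ≠ g' y := by
      intro x hx y hy hyN he
      apply hyN
      rw [hmemN]
      refine ⟨(hIZ hy).1, g' y, ?_, hg' y hy⟩
      rw [← he]
      exact (hg ⟨x, hx⟩).1
    have hM : Mat R (insert v I) := by
      refine ⟨fun x => if hx : x ∈ N K' then g ⟨x, hx⟩ else g' x, ?_, ?_⟩
      · intro x hx
        by_cases hxN : x ∈ N K'
        · simp only [hxN, dif_pos]
          exact (hg ⟨x, hxN⟩).2
        · simp only [hxN, dif_neg, not_false_eq_true]
          rcases hx with rfl | hx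
          · exact absurd hvN hxN
          · exact hg' x hx
      · intro x hx y hy hxy
        by_cases hxN : x ∈ N K' <;> by_cases hyN : y ∈ N K'
        · simp only [hxN, hyN, dif_pos] at hxy
          exact congrArg Subtype.val (hginj hxy)
        · simp only [hxN, hyN, dif_pos, dif_neg, not_false_eq_true] at hxy
          rcases hy with rfl | hy
          · exact absurd hvN hyN
          · exact absurd hxy (hmix x hxN y hy hyN)
        · simp only [hxN, hyN, dif_pos, dif_neg, not_false_eq_true] at hxy
          rcases hx with rfl | hx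
          · exact absurd hvN hxN
          · exact absurd hxy.symm (hmix y hyN x hx hxN)
        · simp only [hxN, hyN, dif_neg, not_false_eq_true] at hxy
          rcases hx with rfl | hx
          · exact absurd hvN hxN
          rcases hy with rfl | hy
          · exact absurd hvN hyN
          exact hinj' hx hy hxy
    have h8 := Indep.rk_eq ((transM_indep R _).2 hM)
    rw [Set.ncard_insert_of_notMem hvI (Set.toFinite _), hIr, h v hvZ] at h8
    have h9 : rk (transM R) (insert v I) ≤ rk (transM R) Z :=
      rk_mono _ (Set.insert_subset hvZ (hIZ.trans Set.sdiff_subset))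
    omega
  · have hall := (Fintype.all_card_le_filter_rel_iff_exists_injective
      (α := {j // j ∈ K}) (β := S) (fun j v => v ∈ Z ∧ R v j.1)).1 (by
      intro A
      have h1 := hmax (A.map (Function.Embedding.subtype _)) (by
        rw [Finset.mem_powerset]
        intro j hj
        simp only [Finset.mem_map, Function.Embedding.coe_subtype] at hj
        obtain ⟨a, _, rfl⟩ := hj
        exact a.2)
      simp only [Finset.card_map] at h1
      have h2 : N (A.map (Function.Embedding.subtype _)) ⊆
          Finset.univ.filter (fun v => ∃ a ∈ A, v ∈ Z ∧ R v a.1) := by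
        intro v hv
        rw [hmemN] at hv
        obtain ⟨hvZ, j, hj, hvj⟩ := hv
        simp only [Finset.mem_map, Function.Embedding.coe_subtype] at hj
        obtain ⟨a, haA, rfl⟩ := hj
        simp only [Finset.mem_filter, Finset.mem_univ, true_and]
        exact ⟨a, haA, hvZ, hvj⟩
      have h3 := Finset.card_le_card h2
      omega)
    obtain ⟨f, hfinj, hf⟩ := hall
    have hM : Mat R (range f) := by
      refine ⟨fun x => if hx : ∃ j, f j = x then (hx.choose : J) else Classical.arbitrary J, ?_, ?_⟩
      · rintro x ⟨j, rfl⟩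
        have hx : ∃ i, f i = f j := ⟨j, rfl⟩
        simp only [hx, dif_pos]
        have h1 : hx.choose = j := hfinj hx.choose_spec
        rw [h1]
        exact (hf j).2
      · rintro x ⟨i, rfl⟩ y ⟨j, rfl⟩ hxy
        have hx : ∃ k, f k = f i := ⟨i, rfl⟩
        have hy : ∃ k, f k = f j := ⟨j, rfl⟩
        simp only [hx, hy, dif_pos] at hxy
        have h1 : hx.choose = i := hfinj hx.choose_spec
        have h2 : hy.choose = j := hfinj hy.choose_spec
        rw [h1, h2] at hxy
        exact congrArg f (Subtype.ext hxy)
    have h8 := Indep.rk_eq ((transM_indep R _).2 hM)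
    have h9 : rk (transM R) (range f) ≤ rk (transM R) Z :=
      rk_mono _ (by rintro x ⟨j, rfl⟩; exact (hf j).1)
    have h10 : (range f).ncard = K.card := by
      rw [← Set.image_univ, Set.ncard_image_of_injective _ hfinj, Set.ncard_univ]
      simp
    have h11 : {j | ∃ v ∈ Z, R v j}.ncard = K.card := by
      rw [← Set.ncard_coe_finset]
      congr 1
      ext j
      simp [K]
    omega

end QG
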