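import Pool.Agent.Lib.QG.A4
import Pool.Agent.Lib.QG.T2
set_option autoImplicit false

/-! Row T3. A gammoid is a restriction of a strict gammoid N, and N has sets A s (s in S) counting the
nullity of its flats. Take PresB M W J R (gammoid_iff_presB), V := M.E ⊕ J, S := M.E ⊕ W (nonempty),
Rs : V → S → Prop, Rs (inl e) s := s = inl e, Rs (inr j) (inl x) := R (inl x) j,
Rs (inr j) (inr w) := R (inr w) j; T := transM Rs, N := T✶, A s := {v | Rs v s}, f e := inl e (e ∈ M.E).
The rank of T is |S| (base B0 of M: perfect matching of (M.E \ B0) ∪ J with S), so (rk_dual)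
rk N Y = |Y| + rk T (univ \ Y) - |S| and {s | A s ⊆ Y} is the complement of {s | ∃ v ∉ Y, Rs v s}: use
trans_rk_le and, for closed Y, trans_cyclic for Z = univ \ Y (v ∉ closure Y gives
rk N (insert v Y) = rk N Y + 1, i.e. rk T (Z \ {v}) = rk T Z).
N.Indep (inl '' I) iff some base V' of T avoids inl '' I. From V': (M.E \ V') ∪ W is matched into J, so I is
independent in M (pres_of_presB). Conversely extend I to a base B of M and take
V' := inl '' (M.E \ B) ∪ range inr. rank N = |V| - |S| = |J| - |W| = rank M. -/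

namespace QG
open Set Matroid

/-- the inclusion of `M.E ⊕ W` into `α ⊕ W` -/
private def T3_in {α W : Type} (E : Set α) : E ⊕ W → α ⊕ W := Sum.map Subtype.val id

private theorem T3_in_inj {α W : Type} (E : Set α) : Function.Injective (T3_in (W := W) E) :=
  Function.Injective.sumMap Subtype.val_injective Function.injective_id

/-- the relation of the transversal matroid -/
private def T3_R {α W J : Type} (E : Set α) (R : α ⊕ W → J → Prop) : E ⊕ J → E ⊕ W → Prop
  | Sum.inl e, s => s = Sum.inl e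
  | Sum.inr j, s => R (T3_in E s) j

private theorem T3_L1 {α W J : Type} {E : Set α} {R : α ⊕ W → J → Prop} {B : Set α}
    (hB : B ⊆ E) (h : MatB R (Sum.inl '' B ∪ range Sum.inr)) :
    MatB (T3_R E R) (Sum.inl '' {e : E | e.1 ∉ B} ∪ range Sum.inr) := by
  obtain ⟨g, hg, hb⟩ := h
  have hex : ∀ j, ∃ s : E ⊕ W, T3_in E s ∈ Sum.inl '' B ∪ range (Sum.inr : W → α ⊕ W) ∧
      g (T3_in E s) = j := by
    intro j
    obtain ⟨x, hx, rfl⟩ := hb.surjOn (mem_univ j)
    rcases hx with ⟨a, ha, rfl⟩ | ⟨w, rfl⟩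
    · exact ⟨Sum.inl ⟨a, hB ha⟩, Or.inl ⟨a, ha, rfl⟩, rfl⟩
    · exact ⟨Sum.inr w, Or.inr ⟨w, rfl⟩, rfl⟩
  choose h' h1 h2 using hex
  refine ⟨Sum.elim Sum.inl h', ?_, ?_, ?_, ?_⟩
  · rintro (e | j) _
    · rfl
    · have h3 := hg _ (h1 j)
      rw [h2] at h3
      exact h3
  · exact fun _ _ => mem_univ _
  · rintro (e | j) he (e' | j') he' heq
    · exact congrArg Sum.inl (Sum.inl_injective heq)
    · exfalso
      have h4 : Sum.inl e = h' j' := heq
      have h5 := h1 j'
      rw [← h4] at h5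
      rcases he with ⟨e0, he0, h6⟩ | ⟨j0, h6⟩
      · obtain rfl : e0 = e := Sum.inl_injective h6
        rcases h5 with ⟨a, ha, h7⟩ | ⟨w, h7⟩
        · have h8 : a = e0.1 := Sum.inl_injective h7
          exact he0 (h8 ▸ ha)
        · exact absurd h7 (by simp [T3_in])
      · exact absurd h6 (by simp)
    · exfalso
      have h4 : h' j = Sum.inl e' := heq
      have h5 := h1 j
      rw [h4] at h5
      rcases he' with ⟨e0, he0, h6⟩ | ⟨j0, h6⟩
      · obtain rfl : e0 = e' := Sum.inl_injective h6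
        rcases h5 with ⟨a, ha, h7⟩ | ⟨w, h7⟩
        · have h8 : a = e0.1 := Sum.inl_injective h7
          exact he0 (h8 ▸ ha)
        · exact absurd h7 (by simp [T3_in])
      · exact absurd h6 (by simp)
    · have h4 : h' j = h' j' := heq
      have h5 := h2 j
      rw [h4, h2] at h5
      rw [h5]
  · intro s _
    by_cases hs : T3_in E s ∈ Sum.inl '' B ∪ range (Sum.inr : W → α ⊕ W)
    · refine ⟨Sum.inr (g (T3_in E s)), Or.inr ⟨_, rfl⟩, ?_⟩
      exact T3_in_inj E (hb.injOn (h1 _) hs (h2 _))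
    · rcases s with e | w
      · refine ⟨Sum.inl e, Or.inl ⟨e, fun h6 => hs (Or.inl ⟨e.1, h6, rfl⟩), rfl⟩, rfl⟩
      · exact absurd (Or.inr ⟨w, rfl⟩) hs

open Classical in
private theorem T3_L2 {α W J : Type} [Nonempty J] {E : Set α} {R : α ⊕ W → J → Prop} {I : Set α}
    (hI : I ⊆ E) {V' : Set (E ⊕ J)} (h : MatB (T3_R E R) V')
    (hav : ∀ e : E, e.1 ∈ I → Sum.inl e ∉ V') : Mat R (Sum.inl '' I ∪ range Sum.inr) := by
  obtain ⟨g, hg, hb⟩ := h
  set P : α ⊕ W → J → Prop := fun y j => Sum.inr j ∈ V' ∧ T3_in E (g (Sum.inr j)) = y with hP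
  have hex : ∀ y ∈ Sum.inl '' I ∪ range (Sum.inr : W → α ⊕ W), ∃ j, P y j := by
    intro y hy
    obtain ⟨s, hs⟩ : ∃ s : E ⊕ W, T3_in E s = y := by
      rcases hy with ⟨a, ha, rfl⟩ | ⟨w, rfl⟩
      · exact ⟨Sum.inl ⟨a, hI ha⟩, rfl⟩
      · exact ⟨Sum.inr w, rfl⟩
    obtain ⟨v, hv, hvs⟩ := hb.surjOn (mem_univ s)
    rcases v with e | j
    · exfalso
      have h1 : g (Sum.inl e) = Sum.inl e := hg _ hv
      rw [h1] at hvs
      rw [← hvs] at hs
      rcases hy with ⟨a, ha, h2⟩ | ⟨w, h2⟩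
      · rw [← hs] at h2
        have h3 : a = e.1 := Sum.inl_injective h2
        exact hav e (h3 ▸ ha) hv
      · rw [← hs] at h2
        exact absurd h2 (by simp [T3_in])
    · exact ⟨j, hv, by rw [hvs, hs]⟩
  have hspec : ∀ y ∈ Sum.inl '' I ∪ range (Sum.inr : W → α ⊕ W),
      P y (if h : ∃ j, P y j then h.choose else Classical.arbitrary J) := by
    intro y hy
    rw [dif_pos (hex y hy)]
    exact (hex y hy).choose_spec
  refine ⟨fun y => if h : ∃ j, P y j then h.choose else Classical.arbitrary J, ?_, ?_⟩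
  · intro y hy
    have h1 := hspec y hy
    have h2 := hg _ h1.1
    have h3 : R (T3_in E (g (Sum.inr (if h : ∃ j, P y j then h.choose else
      Classical.arbitrary J)))) (if h : ∃ j, P y j then h.choose else Classical.arbitrary J) := h2
    rw [h1.2] at h3
    exact h3
  · intro y hy y' hy' heq
    have h1 := hspec y hy
    have h2 := hspec y' hy'
    have h3 : (if h : ∃ j, P y j then h.choose else Classical.arbitrary J) =
      (if h : ∃ j, P y' j then h.choose else Classical.arbitrary J) := heq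
    rw [h3] at h1
    exact h1.2.symm.trans h2.2

theorem Gammoid.strict {α : Type} {M : Matroid α} (hG : Gammoid M) (hne : M.E.Nonempty) :
    ∃ (V S : Type) (N : Matroid V) (A : S → Set V) (f : α → V), Finite V ∧ Finite S ∧
      N.E = univ ∧ rk N univ = rk M M.E ∧ InjOn f M.E ∧
      (∀ I, I ⊆ M.E → (M.Indep I ↔ N.Indep (f '' I))) ∧
      (∀ Y : Set V, {s | A s ⊆ Y}.ncard + rk N Y ≤ Y.ncard) ∧
      (∀ Y : Set V, N.closure Y = Y → {s | A s ⊆ Y}.ncard + rk N Y = Y.ncard) := by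
  classical
  obtain ⟨hfin, W, J, R, hW, hJ, hPB⟩ := (gammoid_iff_presB M).1 hG
  obtain ⟨e0, he0⟩ := hne
  have hEfin : Finite M.E := M.ground_finite.to_subtype
  obtain ⟨B0, hB0⟩ := M.exists_isBase
  have hB0E := hB0.subset_ground
  have hm0 := (hPB B0 hB0E).1 hB0
  have hJne : Nonempty J := by
    obtain ⟨g, -⟩ := hm0
    exact ⟨g (Sum.inl e0)⟩
  have hSne : Nonempty (M.E ⊕ W) := ⟨Sum.inl ⟨e0, he0⟩⟩
  set T := transM (T3_R M.E R) with hT
  have hTE : T.E = univ := rfl
  have : T.Finite := ⟨toFinite _⟩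
  have : T✶.Finite := ⟨toFinite _⟩
  have hTind : ∀ X, T.Indep X ↔ Mat (T3_R M.E R) X := transM_indep _
  -- perfect matchings and bases
  have hcardS : ∀ V' : Set (M.E ⊕ J), MatB (T3_R M.E R) V' → V'.ncard = Nat.card (M.E ⊕ W) := by
    rintro V' ⟨g, -, hb⟩
    rw [← ncard_univ, ← hb.image_eq, hb.injOn.ncard_image]
  have hMatB : ∀ V' : Set (M.E ⊕ J), MatB (T3_R M.E R) V' → T.Indep V' := by
    rintro V' ⟨g, h1, hb⟩
    exact (hTind V').2 ⟨g, h1, hb.injOn⟩
  have hrT : rk T T.E = Nat.card (M.E ⊕ W) := by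
    have h1 := T3_L1 hB0E hm0
    refine le_antisymm ?_ ?_
    · refine (trans_rk_le _ _).trans ?_
      rw [← ncard_univ]
      exact ncard_le_ncard (subset_univ _)
    · rw [← hcardS _ h1, ← Indep.rk_eq (hMatB _ h1)]
      exact rk_le_rk T _
  have hbase : ∀ V' : Set (M.E ⊕ J), MatB (T3_R M.E R) V' → T.IsBase V' := by
    intro V' h
    refine (isBase_iff_rk T (subset_univ _)).2 ⟨?_, ?_⟩
    · rw [Indep.rk_eq (hMatB _ h), hrT, hcardS _ h]
    · rw [hrT, hcardS _ h]
  have hbase' : ∀ V' : Set (M.E ⊕ J), T.IsBase V' → MatB (T3_R M.E R) V' := by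
    intro V' h
    obtain ⟨g, h1, h2⟩ := (hTind V').1 h.indep
    refine ⟨g, h1, fun _ _ => mem_univ _, h2, ?_⟩
    have h3 := ((isBase_iff_rk T (subset_univ _)).1 h).2
    have h4 : g '' V' = univ := by
      refine eq_of_subset_of_ncard_le (subset_univ _) ?_
      rw [ncard_univ, h2.ncard_image, h3, hrT]
    rw [SurjOn, h4]
  have hVcard : Nat.card (M.E ⊕ J) = M.E.ncard + Nat.card J := by
    rw [Nat.card_sum, Nat.card_coe_set_eq]
  have hScard : Nat.card (M.E ⊕ W) = M.E.ncard + Nat.card W := by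
    rw [Nat.card_sum, Nat.card_coe_set_eq]
  have hJW : Nat.card J = rk M M.E + Nat.card W := by
    obtain ⟨g, -, hb⟩ := hm0
    have h1 : (Sum.inl '' B0 ∪ range (Sum.inr : W → α ⊕ W)).ncard = Nat.card J := by
      rw [← ncard_univ, ← hb.image_eq, hb.injOn.ncard_image]
    have hB0fin : B0.Finite := M.ground_finite.subset hB0E
    rw [ncard_union_eq _ (hB0fin.image _) (finite_range _),
      ncard_image_of_injective _ Sum.inl_injective,
      ← image_univ, ncard_image_of_injective _ Sum.inr_injective, ncard_univ,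
      ((isBase_iff_rk M hB0E).1 hB0).2] at h1
    · exact h1.symm
    · rw [disjoint_left]
      rintro _ ⟨a, -, rfl⟩ ⟨w, hw⟩
      exact absurd hw (by simp)
  -- the dual rank
  have hdual : ∀ Y : Set (M.E ⊕ J), rk T✶ Y + Nat.card (M.E ⊕ W) = Y.ncard + rk T Yᶜ := by
    intro Y
    have h1 := rk_dual T (X := Y) (subset_univ _)
    rw [hrT, hTE, ← compl_eq_univ_sdiff] at h1
    exact h1
  have hcompl : ∀ Y : Set (M.E ⊕ J), {s | {v | T3_R M.E R v s} ⊆ Y}.ncard +
      {s | ∃ v ∈ Yᶜ, T3_R M.E R v s}.ncard = Nat.card (M.E ⊕ W) := by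
    intro Y
    have h1 : {s | {v | T3_R M.E R v s} ⊆ Y} = {s | ∃ v ∈ Yᶜ, T3_R M.E R v s}ᶜ := by
      ext s
      simp only [mem_ofPred_eq, mem_compl_iff, not_exists, not_and]
      constructor
      · intro h v hv hR
        exact hv (h hR)
      · intro h v hv
        by_contra hcon
        exact h v hcon hv
    rw [h1, add_comm, ncard_add_ncard_compl]
  refine ⟨M.E ⊕ J, M.E ⊕ W, T✶, fun s => {v | T3_R M.E R v s},
    fun a => if h : a ∈ M.E then Sum.inl ⟨a, h⟩ else Sum.inl ⟨e0, he0⟩,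
    inferInstance, inferInstance, rfl, ?_, ?_, ?_, ?_, ?_⟩
  · have h1 := rk_dual_ground T
    rw [hrT, hTE, ncard_univ, hVcard, hScard, hJW] at h1
    omega
  · intro a ha b hb hab
    simp only [dif_pos ha, dif_pos hb] at hab
    exact congrArg Subtype.val (Sum.inl_injective hab)
  · intro I hI
    rw [dual_indep_iff_exists (subset_univ _)]
    have hf : ∀ a (ha : a ∈ M.E), (if h : a ∈ M.E then (Sum.inl ⟨a, h⟩ : M.E ⊕ J) else
        Sum.inl ⟨e0, he0⟩) = Sum.inl ⟨a, ha⟩ := fun a ha => dif_pos ha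
    constructor
    · intro h
      obtain ⟨B, hB, hIB⟩ := h.exists_isBase_superset
      have hBE := hB.subset_ground
      refine ⟨_, hbase _ (T3_L1 hBE ((hPB B hBE).1 hB)), ?_⟩
      rw [disjoint_left]
      rintro _ ⟨a, ha, rfl⟩ hmem
      simp only [hf a (hI ha)] at hmem
      rcases hmem with ⟨e, he, h2⟩ | ⟨j, h2⟩
      · obtain rfl := Sum.inl_injective h2
        exact he (hIB ha)
      · exact absurd h2 (by simp)
    · rintro ⟨V', hV', hdis⟩
      refine (pres_of_presB hPB I hI).2 (T3_L2 hI (hbase' V' hV') ?_)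
      intro e he hmem
      refine disjoint_left.1 hdis ⟨e.1, he, ?_⟩ hmem
      simp only [hf e.1 e.2]
  · intro Y
    have h1 := hdual Y
    have h2 := hcompl Y
    have h3 := trans_rk_le (T3_R M.E R) Yᶜ
    have h4 : rk T Yᶜ ≤ {s | ∃ v ∈ Yᶜ, T3_R M.E R v s}.ncard := h3
    show {s | {v | T3_R M.E R v s} ⊆ Y}.ncard + rk T✶ Y ≤ Y.ncard
    omega
  · intro Y hY
    have h1 := hdual Y
    have h2 := hcompl Y
    have h3 : rk T Yᶜ = {s | ∃ v ∈ Yᶜ, T3_R M.E R v s}.ncard := by
      refine trans_cyclic (T3_R M.E R) Yᶜ ?_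
      intro v hv
      have h5 : v ∉ T✶.closure Y := by rw [hY]; exact hv
      have h6 : rk T✶ (insert v Y) ≠ rk T✶ Y := by
        intro h
        exact h5 ((mem_closure_iff_rk T✶ (mem_univ v) Y).2 h)
      have h7 := rk_insert_le T✶ v Y
      have h8 := rk_mono T✶ (subset_insert v Y)
      have h9 := hdual (insert v Y)
      have h10 : (insert v Y)ᶜ = Yᶜ \ {v} := by
        ext x
        simp only [mem_compl_iff, mem_insert_iff, not_or, mem_sdiff, mem_singleton_iff]
        tauto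
      rw [ncard_insert_of_notMem hv, h10] at h9
      show rk T (Yᶜ \ {v}) = rk T Yᶜ
      omega
    show {s | {v | T3_R M.E R v s} ⊆ Y}.ncard + rk T✶ Y = Y.ncard
    omega

end QG
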