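import Pool.Agent.Lib.QG.C1
set_option autoImplicit false

/-! Row T4. Counting sets A s contained in points. -/

namespace QG
open Set Matroid

private theorem T4_cl_eq {V : Type} (N : Matroid V) {t v : V} (hv : v ∈ N.closure {t})
    (hv0 : v ∉ N.closure ∅) (ht : t ∈ N.E) : N.closure {v} = N.closure {t} := by
  have hvE : v ∈ N.E := N.closure_subset_ground _ hv
  have h1 : t ∈ N.closure {v} := by
    have := N.mem_closure_insert (X := ∅) (e := v) (f := t) hv0 (by simpa using hv)
    simpa using this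
  apply Subset.antisymm
  · exact N.closure_subset_closure_of_subset_closure (singleton_subset_iff.2 hv)
  · exact N.closure_subset_closure_of_subset_closure (singleton_subset_iff.2 h1)

theorem count_points {V S : Type} [Finite V] [Finite S] (N : Matroid V) (hE : N.E = univ)
    (A : S → Set V)
    (heq : ∀ Y : Set V, N.closure Y = Y → {s | A s ⊆ Y}.ncard + rk N Y = Y.ncard)
    (T : Set V) (hT : ∀ t ∈ T, N.Indep {t})
    (hT2 : ∀ t ∈ T, ∀ t' ∈ T, t' ∈ N.closure {t} → t' = t)
    (hT3 : ∀ v, v ∉ N.closure ∅ → ∃ t ∈ T, v ∈ N.closure {t})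
    (G : Set V) (hO : N.closure ∅ ⊆ G) (hG : ∀ v ∈ G, N.closure {v} ⊆ G) (hne : G.Nonempty) :
    {s | ∃ v ∈ G, A s ⊆ N.closure {v}}.ncard + (G ∩ T).ncard = G.ncard := by
  classical
  haveI : N.Finite := ⟨Set.toFinite _⟩
  have hmemE : ∀ v, v ∈ N.E := fun v => by rw [hE]; trivial
  have hself : ∀ v, v ∈ N.closure {v} := fun v =>
    N.mem_closure_of_mem (mem_singleton v) (by simpa using hmemE v)
  have hOsub : ∀ X : Set V, N.closure ∅ ⊆ N.closure X := fun X =>
    N.closure_subset_closure (empty_subset X)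
  -- the closures of distinct representatives meet in the loops
  have hint : ∀ t ∈ T, ∀ t' ∈ T, t ≠ t' → ∀ v, v ∈ N.closure {t} → v ∈ N.closure {t'} →
      v ∈ N.closure ∅ := by
    intro t ht t' ht' hne v h1 h2
    by_contra hv
    have e1 := T4_cl_eq N h1 hv (hmemE t)
    have e2 := T4_cl_eq N h2 hv (hmemE t')
    apply hne
    refine (hT2 t ht t' ht' ?_).symm
    rw [← e1, e2]
    exact hself t'
  have hSO : {s | A s ⊆ N.closure ∅}.ncard = (N.closure ∅).ncard := by
    have h := heq (N.closure ∅) (N.closure_closure _)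
    rw [rk_closure, rk_empty] at h
    exact h
  have hSt : ∀ t ∈ T, {s | A s ⊆ N.closure {t}}.ncard + 1 = (N.closure {t}).ncard := by
    intro t ht
    have h := heq (N.closure {t}) (N.closure_closure _)
    rw [rk_closure, Indep.rk_eq (hT t ht), ncard_singleton] at h
    exact h
  have key : ∀ T' : Finset V, (∀ t ∈ T', t ∈ T) →
      ({s | A s ⊆ N.closure ∅} ∪ ⋃ t ∈ T', {s | A s ⊆ N.closure {t}}).ncard + T'.card =
        (N.closure ∅ ∪ ⋃ t ∈ T', N.closure {t}).ncard := by
    intro T'
    induction T' using Finset.induction_on with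
    | empty =>
      intro _
      simpa using hSO
    | insert t T' hnt ih =>
      intro h
      have ih' := ih fun t' ht' => h t' (Finset.mem_insert_of_mem ht')
      have htT : t ∈ T := h t (Finset.mem_insert_self _ _)
      have hne' : ∀ t' ∈ T', t ≠ t' := fun t' ht' e => hnt (e ▸ ht')
      rw [Finset.card_insert_of_notMem hnt]
      have e1 : ({s | A s ⊆ N.closure ∅} ∪ ⋃ t' ∈ insert t T', {s | A s ⊆ N.closure {t'}}) =
          ({s | A s ⊆ N.closure ∅} ∪ ⋃ t' ∈ T', {s | A s ⊆ N.closure {t'}}) ∪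
            {s | A s ⊆ N.closure {t}} := by
        rw [Finset.set_biUnion_insert, union_comm {s | A s ⊆ N.closure {t}}, union_assoc]
      have e2 : (N.closure ∅ ∪ ⋃ t' ∈ insert t T', N.closure {t'}) =
          (N.closure ∅ ∪ ⋃ t' ∈ T', N.closure {t'}) ∪ N.closure {t} := by
        rw [Finset.set_biUnion_insert, union_comm (N.closure {t}), union_assoc]
      have i1 : ({s | A s ⊆ N.closure ∅} ∪ ⋃ t' ∈ T', {s | A s ⊆ N.closure {t'}}) ∩
          {s | A s ⊆ N.closure {t}} = {s | A s ⊆ N.closure ∅} := by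
        ext s
        simp only [mem_inter_iff, mem_union, mem_iUnion, mem_setOf_eq, exists_prop]
        constructor
        · rintro ⟨h1 | ⟨t', ht', h1⟩, h2⟩
          · exact h1
          · intro v hv
            exact hint t htT t' (h t' (Finset.mem_insert_of_mem ht')) (hne' t' ht') v (h2 hv)
              (h1 hv)
        · intro h1
          exact ⟨Or.inl h1, h1.trans (hOsub _)⟩
      have i2 : (N.closure ∅ ∪ ⋃ t' ∈ T', N.closure {t'}) ∩ N.closure {t} = N.closure ∅ := by
        ext v
        simp only [mem_inter_iff, mem_union, mem_iUnion, exists_prop]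
        constructor
        · rintro ⟨h1 | ⟨t', ht', h1⟩, h2⟩
          · exact h1
          · exact hint t htT t' (h t' (Finset.mem_insert_of_mem ht')) (hne' t' ht') v h2 h1
        · intro h1
          exact ⟨Or.inl h1, hOsub _ h1⟩
      have c1 := ncard_union_add_ncard_inter
        ({s | A s ⊆ N.closure ∅} ∪ ⋃ t' ∈ T', {s | A s ⊆ N.closure {t'}})
        {s | A s ⊆ N.closure {t}} (Set.toFinite _) (Set.toFinite _)
      have c2 := ncard_union_add_ncard_inter
        (N.closure ∅ ∪ ⋃ t' ∈ T', N.closure {t'}) (N.closure {t}) (Set.toFinite _)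
        (Set.toFinite _)
      rw [i1, ← e1] at c1
      rw [i2, ← e2] at c2
      have c3 := hSt t htT
      omega
  have hfin : (G ∩ T).Finite := Set.toFinite _
  have hk := key hfin.toFinset (fun t ht => (hfin.mem_toFinset.1 ht).2)
  have hc : hfin.toFinset.card = (G ∩ T).ncard := (ncard_eq_toFinset_card _ hfin).symm
  have hcase : ∀ v ∈ G, v ∈ N.closure ∅ ∨ ∃ t ∈ G ∩ T, N.closure {v} = N.closure {t} := by
    intro v hv
    by_cases h0 : v ∈ N.closure ∅
    · exact Or.inl h0
    · obtain ⟨t, ht, hvt⟩ := hT3 v h0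
      have e := T4_cl_eq N hvt h0 (hmemE t)
      refine Or.inr ⟨t, ⟨hG v hv ?_, ht⟩, e⟩
      rw [e]
      exact hself t
  have E1 : {s | ∃ v ∈ G, A s ⊆ N.closure {v}} =
      ({s | A s ⊆ N.closure ∅} ∪ ⋃ t ∈ hfin.toFinset, {s | A s ⊆ N.closure {t}}) := by
    ext s
    simp only [mem_union, mem_iUnion, mem_setOf_eq, exists_prop, Set.Finite.mem_toFinset]
    constructor
    · rintro ⟨v, hv, h1⟩
      rcases hcase v hv with h0 | ⟨t, ht, e⟩
      · left
        have : N.closure {v} ⊆ N.closure ∅ :=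
          N.closure_subset_closure_of_subset_closure (singleton_subset_iff.2 h0)
        exact h1.trans this
      · exact Or.inr ⟨t, ht, e ▸ h1⟩
    · rintro (h1 | ⟨t, ht, h1⟩)
      · obtain ⟨v, hv⟩ := hne
        exact ⟨v, hv, h1.trans (hOsub _)⟩
      · exact ⟨t, ht.1, h1⟩
  have E2 : G = (N.closure ∅ ∪ ⋃ t ∈ hfin.toFinset, N.closure {t}) := by
    ext v
    simp only [mem_union, mem_iUnion, exists_prop, Set.Finite.mem_toFinset]
    constructor
    · intro hv
      rcases hcase v hv with h0 | ⟨t, ht, e⟩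
      · exact Or.inl h0
      · exact Or.inr ⟨t, ht, e ▸ hself v⟩
    · rintro (h1 | ⟨t, ht, h1⟩)
      · exact hO h1
      · exact hG t ht.1 h1
  rw [hc, ← E1, ← E2] at hk
  exact hk

end QG
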