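import Pool.Agent.Lib.QG.C1
set_option autoImplicit false

/-! Rows W0, W1, W2 of part (T): triangles, triads, essential elements, Tutte's triangle lemma.
Proofs on paper: qg_TB_design.md. -/

namespace QG
open Set Matroid
variable {α : Type}

/-- `a b c` are three distinct elements on a common line -/
def Tri (M : Matroid α) (a b c : α) : Prop :=
  a ∈ M.E ∧ b ∈ M.E ∧ c ∈ M.E ∧ a ≠ b ∧ a ≠ c ∧ b ≠ c ∧ rk M {a, b, c} = 2

/-- 3-connected with at least four elements -/
def TC4 (M : Matroid α) : Prop := ThreeConn M ∧ 4 ≤ M.E.ncard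

/-- `e` is essential: neither the deletion nor the contraction of `e` is 3-connected -/
def Ess (M : Matroid α) (e : α) : Prop := ¬ ThreeConn (M ＼ {e}) ∧ ¬ ThreeConn (M ／ {e})

theorem Tri.swap12 {M : Matroid α} {a b c : α} (h : Tri M a b c) : Tri M b a c := by
  obtain ⟨h1, h2, h3, h4, h5, h6, h7⟩ := h
  exact ⟨h2, h1, h3, h4.symm, h6, h5, by rw [insert_comm]; exact h7⟩

theorem Tri.swap23 {M : Matroid α} {a b c : α} (h : Tri M a b c) : Tri M a c b := by
  obtain ⟨h1, h2, h3, h4, h5, h6, h7⟩ := h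
  exact ⟨h1, h3, h2, h5, h4, h6.symm, by rw [pair_comm c b]; exact h7⟩

theorem Tri.rot {M : Matroid α} {a b c : α} (h : Tri M a b c) : Tri M b c a :=
  h.swap12.swap23

theorem Tri.rev {M : Matroid α} {a b c : α} (h : Tri M a b c) : Tri M c b a :=
  h.swap12.swap23.swap12

variable (M : Matroid α) [M.Finite]

private theorem w0_lam1 {M : Matroid α} (h : ThreeConn M) {A B : Set α}
    (hAB : A ∪ B = M.E) (hd : Disjoint A B) (hA : 1 ≤ A.ncard) (hB : 1 ≤ B.ncard) :
    rk M M.E + 1 ≤ rk M A + rk M B := by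
  have e : M.E \ A = B := by
    rw [← hAB, Set.union_sdiff_left]
    exact hd.symm.sdiff_eq_left
  have h1 := (h A (hAB ▸ Set.subset_union_left)).1
  rw [e] at h1
  exact h1 hA hB

private theorem w0_lam2 {M : Matroid α} (h : ThreeConn M) {A B : Set α}
    (hAB : A ∪ B = M.E) (hd : Disjoint A B) (hA : 2 ≤ A.ncard) (hB : 2 ≤ B.ncard) :
    rk M M.E + 2 ≤ rk M A + rk M B := by
  have e : M.E \ A = B := by
    rw [← hAB, Set.union_sdiff_left]
    exact hd.symm.sdiff_eq_left
  have h1 := (h A (hAB ▸ Set.subset_union_left)).2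
  rw [e] at h1
  exact h1 hA hB

/-- a 3-connected matroid with four elements is simple -/
theorem w1 (h : TC4 M) {X : Set α} (hX : X ⊆ M.E) (hc : X.ncard ≤ 2) : rk M X = X.ncard := by
  obtain ⟨h3, h4⟩ := h
  have hEf := M.ground_finite
  have hXf := hEf.subset hX
  have h1 := rk_le_ncard M hX
  have h2 : (M.E \ X).ncard + X.ncard = M.E.ncard := Set.ncard_sdiff_add_ncard_of_subset hX hEf
  have h5 := rk_le_rk M (M.E \ X)
  refine le_antisymm h1 ?_
  rcases Nat.lt_or_ge X.ncard 1 with h0 | h0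
  · omega
  rcases Nat.lt_or_ge X.ncard 2 with h6 | h6
  · have := (h3 X hX).1 h0 (by omega)
    omega
  · have := (h3 X hX).2 h6 (by omega)
    omega

theorem w2 (h : ThreeConn M) : ThreeConn M✶ := by
  intro X hX
  have hX' : X ⊆ M.E := hX
  have e : M✶.E = M.E := rfl
  rw [e]
  have h1 := rk_dual M hX'
  have h2 := rk_dual M (X := M.E \ X) Set.sdiff_subset
  rw [Set.sdiff_sdiff_cancel_left hX'] at h2
  have h3 := rk_dual_ground M
  have h4 : (M.E \ X).ncard + X.ncard = M.E.ncard :=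
    Set.ncard_sdiff_add_ncard_of_subset hX' M.ground_finite
  obtain ⟨h5, h6⟩ := h X hX'
  refine ⟨fun k1 k2 => ?_, fun k1 k2 => ?_⟩
  · have := h5 k1 k2
    omega
  · have := h6 k1 k2
    omega

theorem w2' (h : TC4 M) : TC4 M✶ := ⟨w2 M h.1, h.2⟩

theorem Ess.dual {M : Matroid α} [M.Finite] {e : α} (h : Ess M e) : Ess M✶ e := by
  constructor
  · intro h1
    rw [← dual_contract] at h1
    have h2 := w2 _ h1
    rw [dual_dual] at h2
    exact h.2 h2
  · intro h1
    rw [← dual_delete] at h1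
    have h2 := w2 _ h1
    rw [dual_dual] at h2
    exact h.1 h2

/-- a deletion which is not 3-connected has a 2-separation -/
theorem w3d (h : TC4 M) {e : α} (he : e ∈ M.E) (hn : ¬ ThreeConn (M ＼ {e})) :
    ∃ X Y : Set α, X ∪ Y = M.E \ {e} ∧ Disjoint X Y ∧ 2 ≤ X.ncard ∧ 2 ≤ Y.ncard ∧
      rk M X + rk M Y ≤ rk M M.E + 1 := by
  obtain ⟨h3, h4⟩ := h
  have hEf := M.ground_finite
  have hE1 : (M.E \ {e}).ncard + 1 = M.E.ncard := Set.ncard_sdiff_singleton_add_one he hEf
  unfold ThreeConn at hn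
  push Not at hn
  obtain ⟨X, hX, hn⟩ := hn
  have hX' : X ⊆ M.E \ {e} := hX
  have eE : (M ＼ {e}).E = M.E \ {e} := rfl
  rw [eE] at hn
  set Y := (M.E \ {e}) \ X with hY
  have hY' : Y ⊆ M.E \ {e} := Set.sdiff_subset
  have hXe : X \ {e} = X := Set.sdiff_singleton_eq_self fun h => (hX' h).2 rfl
  have hYe : Y \ {e} = Y := Set.sdiff_singleton_eq_self fun h => (hY' h).2 rfl
  have hEe : (M.E \ {e}) \ {e} = M.E \ {e} := by rw [Set.sdiff_sdiff, Set.union_self]
  simp only [rk_delete, hXe, hYe, hEe] at hn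
  have hun : X ∪ Y = M.E \ {e} := Set.union_sdiff_cancel hX'
  have hdis : Disjoint X Y := Set.disjoint_sdiff_right
  have hle := rk_mono M (Set.sdiff_subset : M.E \ {e} ⊆ M.E)
  have hcard : X.ncard + Y.ncard = (M.E \ {e}).ncard := by
    rw [← hun, Set.ncard_union_eq hdis (hEf.subset (hX'.trans Set.sdiff_subset))
      (hEf.subset (hY'.trans Set.sdiff_subset))]
  by_cases hb : 2 ≤ X.ncard ∧ 2 ≤ Y.ncard
  · refine ⟨X, Y, hun, hdis, hb.1, hb.2, ?_⟩
    by_cases hr : rk M X + rk M Y < rk M (M.E \ {e}) + 1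
    · omega
    · have := (hn (fun _ _ => by omega)).2.2
      omega
  · exfalso
    -- a coloop or a small side
    have key : ∀ A B : Set α, A ∪ B = M.E \ {e} → Disjoint A B → A.ncard = 1 → 2 ≤ B.ncard →
        rk M A + rk M B ≤ rk M M.E → False := by
      intro A B hAB hd hA hB hr
      have hAE : A ⊆ M.E \ {e} := hAB ▸ Set.subset_union_left
      have hBE : B ⊆ M.E \ {e} := hAB ▸ Set.subset_union_right
      have heA : e ∉ A := fun h => (hAE h).2 rfl
      have heB : e ∉ B := fun h => (hBE h).2 rfl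
      have h1 : (insert e A) ∪ B = M.E := by
        rw [Set.insert_union, hAB, Set.insert_sdiff_self_of_mem he]
      have h2 : Disjoint (insert e A) B := Set.disjoint_insert_left.2 ⟨heB, hd⟩
      have h5 : (insert e A).ncard = 2 := by
        rw [Set.ncard_insert_of_notMem heA (hEf.subset (hAE.trans Set.sdiff_subset)), hA]
      have h6 := w0_lam2 h3 h1 h2 (by omega) hB
      have h7 := rk_insert_le M e A
      omega
    by_cases hX1 : 1 ≤ X.ncard ∧ 1 ≤ Y.ncard
    · by_cases hr : rk M X + rk M Y < rk M (M.E \ {e}) + 1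
      · rcases Nat.lt_or_ge X.ncard 2 with h5 | h5
        · exact key X Y hun hdis (by omega) (by omega) (by omega)
        · exact key Y X (by rw [Set.union_comm]; exact hun) hdis.symm (by omega) (by omega)
            (by omega)
      · exact hb ⟨(hn (fun _ _ => by omega)).1, (hn (fun _ _ => by omega)).2.1⟩
    · have := hn (fun h1 h2 => absurd ⟨h1, h2⟩ hX1)
      exact hb ⟨this.1, this.2.1⟩

/-- a contraction which is not 3-connected has a 2-separation -/
theorem w3c (h : TC4 M) {e : α} (he : e ∈ M.E) (hn : ¬ ThreeConn (M ／ {e})) :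
    ∃ X Y : Set α, X ∪ Y = M.E \ {e} ∧ Disjoint X Y ∧ 2 ≤ X.ncard ∧ 2 ≤ Y.ncard ∧
      rk M (insert e X) + rk M (insert e Y) ≤ rk M M.E + 2 := by
  have hs : ∀ {X : Set α}, X ⊆ M.E → X.ncard ≤ 2 → rk M X = X.ncard := fun h1 h2 => w1 M h h1 h2
  obtain ⟨h3, h4⟩ := h
  have hEf := M.ground_finite
  have hE1 : (M.E \ {e}).ncard + 1 = M.E.ncard := Set.ncard_sdiff_singleton_add_one he hEf
  unfold ThreeConn at hn
  push Not at hn
  obtain ⟨X, hX, hn⟩ := hn
  have hX' : X ⊆ M.E \ {e} := hX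
  have eE : (M ／ {e}).E = M.E \ {e} := rfl
  rw [eE] at hn
  set Y := (M.E \ {e}) \ X with hY
  have hY' : Y ⊆ M.E \ {e} := Set.sdiff_subset
  have hre : rk M {e} = 1 := by
    rw [hs (Set.singleton_subset_iff.2 he) (by rw [Set.ncard_singleton]; omega),
      Set.ncard_singleton]
  have c1 := rk_contract M {e} X
  have c2 := rk_contract M {e} Y
  have c3 := rk_contract M {e} (M.E \ {e})
  rw [Set.union_singleton, hre] at c1 c2 c3
  rw [Set.insert_sdiff_self_of_mem he] at c3
  have hun : X ∪ Y = M.E \ {e} := Set.union_sdiff_cancel hX'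
  have hdis : Disjoint X Y := Set.disjoint_sdiff_right
  have hcard : X.ncard + Y.ncard = (M.E \ {e}).ncard := by
    rw [← hun, Set.ncard_union_eq hdis (hEf.subset (hX'.trans Set.sdiff_subset))
      (hEf.subset (hY'.trans Set.sdiff_subset))]
  by_cases hb : 2 ≤ X.ncard ∧ 2 ≤ Y.ncard
  · refine ⟨X, Y, hun, hdis, hb.1, hb.2, ?_⟩
    by_cases hr : rk (M ／ {e}) X + rk (M ／ {e}) Y < rk (M ／ {e}) (M.E \ {e}) + 1
    · omega
    · have := (hn (fun _ _ => by omega)).2.2
      omega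
  · exfalso
    have key : ∀ A B : Set α, A ∪ B = M.E \ {e} → Disjoint A B → A.ncard = 1 → 2 ≤ B.ncard →
        rk M (insert e A) + rk M (insert e B) ≤ rk M M.E + 1 → False := by
      intro A B hAB hd hA hB hr
      have hAE : A ⊆ M.E \ {e} := hAB ▸ Set.subset_union_left
      have hBE : B ⊆ M.E \ {e} := hAB ▸ Set.subset_union_right
      have heA : e ∉ A := fun h => (hAE h).2 rfl
      have heB : e ∉ B := fun h => (hBE h).2 rfl
      have h1 : A ∪ (insert e B) = M.E := by
        rw [Set.union_insert, hAB, Set.insert_sdiff_self_of_mem he]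
      have h2 : Disjoint A (insert e B) := Set.disjoint_insert_right.2 ⟨heA, hd⟩
      have h5 : (insert e A).ncard = 2 := by
        rw [Set.ncard_insert_of_notMem heA (hEf.subset (hAE.trans Set.sdiff_subset)), hA]
      have h6 := hs (X := insert e A) (Set.insert_subset he (hAE.trans Set.sdiff_subset)) h5.le
      have h7 := hs (X := A) (hAE.trans Set.sdiff_subset) (by omega)
      have h8 : (insert e B).ncard = B.ncard + 1 :=
        Set.ncard_insert_of_notMem heB (hEf.subset (hBE.trans Set.sdiff_subset))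
      have h9 := w0_lam1 h3 h1 h2 (by omega) (by omega)
      omega
    by_cases hX1 : 1 ≤ X.ncard ∧ 1 ≤ Y.ncard
    · by_cases hr : rk (M ／ {e}) X + rk (M ／ {e}) Y < rk (M ／ {e}) (M.E \ {e}) + 1
      · rcases Nat.lt_or_ge X.ncard 2 with h5 | h5
        · exact key X Y hun hdis (by omega) (by omega) (by omega)
        · exact key Y X (by rw [Set.union_comm]; exact hun) hdis.symm (by omega) (by omega)
            (by omega)
      · exact hb ⟨(hn (fun _ _ => by omega)).1, (hn (fun _ _ => by omega)).2.1⟩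
    · have := hn (fun h1 h2 => absurd ⟨h1, h2⟩ hX1)
      exact hb ⟨this.1, this.2.1⟩

/-- three elements whose complement is not spanning form a triad -/
private theorem w0_triad {M : Matroid α} [M.Finite] (h : TC4 M) {a b c : α} (ha : a ∈ M.E)
    (hb : b ∈ M.E) (hc : c ∈ M.E) (hab : a ≠ b) (hac : a ≠ c) (hbc : b ≠ c)
    (hr : rk M (M.E \ {a, b, c}) + 1 ≤ rk M M.E) : Tri M✶ a b c := by
  have hT : ({a, b, c} : Set α) ⊆ M.E := by
    intro x hx
    rcases hx with rfl | rfl | rfl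
    · exact ha
    · exact hb
    · exact hc
  refine ⟨ha, hb, hc, hab, hac, hbc, le_antisymm ?_ ?_⟩
  · have h1 := rk_dual M hT
    have h2 : ({a, b, c} : Set α).ncard = 3 := Set.ncard_eq_three.2 ⟨a, b, c, hab, hac, hbc, rfl⟩
    omega
  · have h1 : ({a, b} : Set α) ⊆ {a, b, c} := by
      intro x hx
      rcases hx with rfl | rfl
      · exact Or.inl rfl
      · exact Or.inr (Or.inl rfl)
    have h2 := rk_mono M✶ h1
    have h3 := w1 M✶ (w2' M h) (X := {a, b}) (h1.trans hT) (Set.ncard_pair hab).le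
    rw [Set.ncard_pair hab] at h3
    omega

/-- three elements of rank at most two form a triangle -/
private theorem w0_tri {M : Matroid α} [M.Finite] (h : TC4 M) {a b c : α} (ha : a ∈ M.E)
    (hb : b ∈ M.E) (hc : c ∈ M.E) (hab : a ≠ b) (hac : a ≠ c) (hbc : b ≠ c)
    (hr : rk M {a, b, c} ≤ 2) : Tri M a b c := by
  have hT : ({a, b, c} : Set α) ⊆ M.E := by
    intro x hx
    rcases hx with rfl | rfl | rfl
    · exact ha
    · exact hb
    · exact hc
  refine ⟨ha, hb, hc, hab, hac, hbc, le_antisymm hr ?_⟩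
  have h1 : ({a, b} : Set α) ⊆ {a, b, c} := by
    intro x hx
    rcases hx with rfl | rfl
    · exact Or.inl rfl
    · exact Or.inr (Or.inl rfl)
  have h2 := rk_mono M h1
  have h3 := w1 M h (X := {a, b}) (h1.trans hT) (Set.ncard_pair hab).le
  rw [Set.ncard_pair hab] at h3
  omega

/-- the small side of a 2-separation of a deletion gives a triad -/
theorem w4d (h : TC4 M) {e : α} (he : e ∈ M.E) {X Y : Set α} (hXY : X ∪ Y = M.E \ {e})
    (hd : Disjoint X Y) (hX : X.ncard = 2) (hr : rk M X + rk M Y ≤ rk M M.E + 1) :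
    ∃ a b, X = {a, b} ∧ Tri M✶ e a b := by
  obtain ⟨a, b, hab, rfl⟩ := Set.ncard_eq_two.1 hX
  have hXE : ({a, b} : Set α) ⊆ M.E \ {e} := hXY ▸ Set.subset_union_left
  have ha := hXE (Or.inl rfl)
  have hb := hXE (Or.inr rfl)
  have h1 := w1 M h (X := {a, b}) (hXE.trans Set.sdiff_subset) hX.le
  refine ⟨a, b, rfl, w0_triad h he ha.1 hb.1 (fun h => ha.2 h.symm) (fun h => hb.2 h.symm) hab ?_⟩
  have h2 : M.E \ {e, a, b} = Y := by
    have h3 : M.E \ {e, a, b} = (M.E \ {e}) \ {a, b} := by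
      rw [Set.sdiff_sdiff]; rfl
    rw [h3, ← hXY, Set.union_sdiff_left]
    exact hd.symm.sdiff_eq_left
  rw [h2]
  omega

/-- the small side of a 2-separation of a contraction gives a triangle -/
theorem w4c (h : TC4 M) {e : α} (he : e ∈ M.E) {X Y : Set α} (hXY : X ∪ Y = M.E \ {e})
    (hd : Disjoint X Y) (hX : X.ncard = 2) (hY : 2 ≤ Y.ncard)
    (hr : rk M (insert e X) + rk M (insert e Y) ≤ rk M M.E + 2) :
    ∃ a b, X = {a, b} ∧ Tri M e a b := by
  obtain ⟨a, b, hab, rfl⟩ := Set.ncard_eq_two.1 hX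
  have hXE : ({a, b} : Set α) ⊆ M.E \ {e} := hXY ▸ Set.subset_union_left
  have hYE : Y ⊆ M.E \ {e} := hXY ▸ Set.subset_union_right
  have ha := hXE (Or.inl rfl)
  have hb := hXE (Or.inr rfl)
  have heX : e ∉ ({a, b} : Set α) := fun h => (hXE h).2 rfl
  have heY : e ∉ Y := fun h => (hYE h).2 rfl
  have h1 := w1 M h (X := {a, b}) (hXE.trans Set.sdiff_subset) hX.le
  have hYc : (insert e Y).ncard = Y.ncard + 1 :=
    Set.ncard_insert_of_notMem heY (M.ground_finite.subset (hYE.trans Set.sdiff_subset))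
  have h2 := w0_lam2 h.1 (A := {a, b}) (B := insert e Y)
    (by rw [Set.union_insert, hXY, Set.insert_sdiff_self_of_mem he])
    (Set.disjoint_insert_right.2 ⟨heX, hd⟩) hX.ge (by omega)
  exact ⟨a, b, rfl, w0_tri h he ha.1 hb.1 (fun h => ha.2 h.symm) (fun h => hb.2 h.symm) hab
    (by omega)⟩

/-- a triangle and a triad do not meet in exactly one element -/
theorem w5 (h : TC4 M) {a b c d f : α} (h1 : Tri M a b c) (h2 : Tri M✶ a d f) :
    b = d ∨ b = f ∨ c = d ∨ c = f := by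
  by_contra hno
  push Not at hno
  obtain ⟨n1, n2, n3, n4⟩ := hno
  obtain ⟨haE, hbE, hcE, hab, hac, hbc, hr⟩ := h1
  obtain ⟨-, hdE, hfE, had, haf, hdf, hr'⟩ := h2
  have hdE' : d ∈ M.E := hdE
  have hfE' : f ∈ M.E := hfE
  have hEf := M.ground_finite
  have hT : ({a, d, f} : Set α) ⊆ M.E := by
    intro x hx
    rcases hx with rfl | rfl | rfl
    · exact haE
    · exact hdE'
    · exact hfE'
  have k1 := rk_dual M hT
  have k2 : ({a, d, f} : Set α).ncard = 3 := Set.ncard_eq_three.2 ⟨a, d, f, had, haf, hdf, rfl⟩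
  have k3 := rk_submod M (M.E \ {a, d, f}) {a, b, c}
  have k4 : ({b, c} : Set α) ⊆ (M.E \ {a, d, f}) ∩ {a, b, c} := by
    intro x hx
    rcases hx with rfl | rfl
    · refine ⟨⟨hbE, ?_⟩, Or.inr (Or.inl rfl)⟩
      rintro (h | h | h)
      · exact hab h.symm
      · exact n1 h
      · exact n2 h
    · refine ⟨⟨hcE, ?_⟩, Or.inr (Or.inr rfl)⟩
      rintro (h | h | h)
      · exact hac h.symm
      · exact n3 h
      · exact n4 h
  have k5 := rk_mono M k4
  have k6 := w1 M h (X := {b, c}) (by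
    intro x hx
    rcases hx with rfl | rfl
    · exact hbE
    · exact hcE) (Set.ncard_pair hbc).le
  rw [Set.ncard_pair hbc] at k6
  have k7 : M.E \ {d, f} ⊆ (M.E \ {a, d, f}) ∪ {a, b, c} := by
    intro x hx
    by_cases hxa : x = a
    · exact Or.inr (Or.inl hxa)
    · left
      refine ⟨hx.1, ?_⟩
      rintro (h | h | h)
      · exact hxa h
      · exact hx.2 (Or.inl h)
      · exact hx.2 (Or.inr h)
  have k8 := rk_mono M k7
  have hdfE : ({d, f} : Set α) ⊆ M.E := by
    intro x hx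
    rcases hx with rfl | rfl
    · exact hdE'
    · exact hfE'
  have k9 : (M.E \ {d, f}).ncard + ({d, f} : Set α).ncard = M.E.ncard :=
    Set.ncard_sdiff_add_ncard_of_subset hdfE hEf
  rw [Set.ncard_pair hdf] at k9
  have k10 := w0_lam2 h.1 (A := {d, f}) (B := M.E \ {d, f}) (Set.union_sdiff_cancel hdfE)
    Set.disjoint_sdiff_right (Set.ncard_pair hdf).ge (by have := h.2; omega)
  have k11 := w1 M h (X := {d, f}) hdfE (Set.ncard_pair hdf).le
  rw [Set.ncard_pair hdf] at k11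
  omega

/-- a triangle is not a triad -/
theorem w6 (h : TC4 M) (h5 : 5 ≤ M.E.ncard) {a b c : α} (h1 : Tri M a b c) :
    ¬ Tri M✶ a b c := by
  rintro ⟨-, -, -, -, -, -, hr'⟩
  obtain ⟨haE, hbE, hcE, hab, hac, hbc, hr⟩ := h1
  have hEf := M.ground_finite
  have hT : ({a, b, c} : Set α) ⊆ M.E := by
    intro x hx
    rcases hx with rfl | rfl | rfl
    · exact haE
    · exact hbE
    · exact hcE
  have k1 := rk_dual M hT
  have k2 : ({a, b, c} : Set α).ncard = 3 := Set.ncard_eq_three.2 ⟨a, b, c, hab, hac, hbc, rfl⟩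
  have k9 : (M.E \ {a, b, c}).ncard + ({a, b, c} : Set α).ncard = M.E.ncard :=
    Set.ncard_sdiff_add_ncard_of_subset hT hEf
  have k10 := w0_lam2 h.1 (A := {a, b, c}) (B := M.E \ {a, b, c}) (Set.union_sdiff_cancel hT)
    Set.disjoint_sdiff_right (by omega) (by omega)
  omega

/-- W1: an essential element is in a triangle or in a triad -/
theorem ess_tri (h : TC4 M) {e : α} (he : e ∈ M.E) (hE : Ess M e) :
    ∃ a b, Tri M e a b ∨ Tri M✶ e a b := by
  have hEf := M.ground_finite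
  obtain ⟨X, Y, hXY, hd, hX, hY, hr⟩ := w3d M h he hE.1
  obtain ⟨X', Y', hXY', hd', hX', hY', hr'⟩ := w3c M h he hE.2
  by_cases c1 : X.ncard = 2
  · obtain ⟨a, b, -, hT⟩ := w4d M h he hXY hd c1 hr
    exact ⟨a, b, Or.inr hT⟩
  by_cases c2 : Y.ncard = 2
  · obtain ⟨a, b, -, hT⟩ := w4d M h he (by rw [Set.union_comm]; exact hXY) hd.symm c2
      (by omega)
    exact ⟨a, b, Or.inr hT⟩
  by_cases c3 : X'.ncard = 2
  · obtain ⟨a, b, -, hT⟩ := w4c M h he hXY' hd' c3 hY' hr'
    exact ⟨a, b, Or.inl hT⟩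
  by_cases c4 : Y'.ncard = 2
  · obtain ⟨a, b, -, hT⟩ := w4c M h he (by rw [Set.union_comm]; exact hXY') hd'.symm c4 hX'
      (by omega)
    exact ⟨a, b, Or.inl hT⟩
  exfalso
  -- uncrossing
  have key : ∀ X Y X' Y' : Set α, X ∪ Y = M.E \ {e} → Disjoint X Y → X' ∪ Y' = M.E \ {e} →
      Disjoint X' Y' → rk M X + rk M Y ≤ rk M M.E + 1 →
      rk M (insert e X') + rk M (insert e Y') ≤ rk M M.E + 2 → 2 ≤ X.ncard → 2 ≤ Y.ncard →
      (X ∩ X').ncard ≤ 1 ∨ (Y ∩ Y').ncard ≤ 1 := by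
    intro X Y X' Y' hXY hd hXY' hd' hr hr' hX hY
    by_contra hno
    push Not at hno
    obtain ⟨n1, n2⟩ := hno
    have hXE : X ⊆ M.E \ {e} := hXY ▸ Set.subset_union_left
    have hYE : Y ⊆ M.E \ {e} := hXY ▸ Set.subset_union_right
    have hXE' : X' ⊆ M.E \ {e} := hXY' ▸ Set.subset_union_left
    have hYE' : Y' ⊆ M.E \ {e} := hXY' ▸ Set.subset_union_right
    have mem : ∀ x ∈ M.E, x ≠ e → (x ∈ X ∨ x ∈ Y) ∧ (x ∈ X' ∨ x ∈ Y') := fun x hx hxe => by
      have h1 : x ∈ X ∪ Y := hXY ▸ (⟨hx, hxe⟩ : x ∈ M.E \ {e})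
      have h2 : x ∈ X' ∪ Y' := hXY' ▸ (⟨hx, hxe⟩ : x ∈ M.E \ {e})
      exact ⟨h1, h2⟩
    have s1 := rk_submod M X (insert e X')
    have s2 := rk_submod M Y (insert e Y')
    have i1 : X ∩ insert e X' = X ∩ X' := by
      ext x
      constructor
      · rintro ⟨h1, rfl | h2⟩
        · exact absurd rfl (hXE h1).2
        · exact ⟨h1, h2⟩
      · rintro ⟨h1, h2⟩
        exact ⟨h1, Or.inr h2⟩
    have i2 : Y ∩ insert e Y' = Y ∩ Y' := by
      ext x
      constructor
      · rintro ⟨h1, rfl | h2⟩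
        · exact absurd rfl (hYE h1).2
        · exact ⟨h1, h2⟩
      · rintro ⟨h1, h2⟩
        exact ⟨h1, Or.inr h2⟩
    rw [i1] at s1
    rw [i2] at s2
    have l1 := w0_lam2 h.1 (A := X ∩ X') (B := Y ∪ insert e Y') (by
      ext x
      constructor
      · rintro (⟨h1, -⟩ | h1 | rfl | h1)
        · exact (hXE h1).1
        · exact (hYE h1).1
        · exact he
        · exact (hYE' h1).1
      · intro hx
        by_cases hxe : x = e
        · exact Or.inr (Or.inr (Or.inl hxe))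
        · obtain ⟨h1 | h1, h2 | h2⟩ := mem x hx hxe
          · exact Or.inl ⟨h1, h2⟩
          · exact Or.inr (Or.inr (Or.inr h2))
          · exact Or.inr (Or.inl h1)
          · exact Or.inr (Or.inl h1)) (by
      rw [Set.disjoint_left]
      rintro x ⟨h1, h2⟩ (h3 | rfl | h3)
      · exact Set.disjoint_left.1 hd h1 h3
      · exact (hXE h1).2 rfl
      · exact Set.disjoint_left.1 hd' h2 h3) (by omega)
      (hY.trans (Set.ncard_le_ncard Set.subset_union_left
        (hEf.subset (Set.union_subset (hYE.trans Set.sdiff_subset)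
          (Set.insert_subset he (hYE'.trans Set.sdiff_subset))))))
    have l2 := w0_lam2 h.1 (A := Y ∩ Y') (B := X ∪ insert e X') (by
      ext x
      constructor
      · rintro (⟨h1, -⟩ | h1 | rfl | h1)
        · exact (hYE h1).1
        · exact (hXE h1).1
        · exact he
        · exact (hXE' h1).1
      · intro hx
        by_cases hxe : x = e
        · exact Or.inr (Or.inr (Or.inl hxe))
        · obtain ⟨h1 | h1, h2 | h2⟩ := mem x hx hxe
          · exact Or.inr (Or.inl h1)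
          · exact Or.inr (Or.inl h1)
          · exact Or.inr (Or.inr (Or.inr h2))
          · exact Or.inl ⟨h1, h2⟩) (by
      rw [Set.disjoint_left]
      rintro x ⟨h1, h2⟩ (h3 | rfl | h3)
      · exact Set.disjoint_left.1 hd h3 h1
      · exact (hYE h1).2 rfl
      · exact Set.disjoint_left.1 hd' h3 h2) (by omega)
      (hX.trans (Set.ncard_le_ncard Set.subset_union_left
        (hEf.subset (Set.union_subset (hXE.trans Set.sdiff_subset)
          (Set.insert_subset he (hXE'.trans Set.sdiff_subset))))))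
    omega
  have split : ∀ A B C : Set α, A ⊆ M.E \ {e} → B ∪ C = M.E \ {e} →
      A.ncard ≤ (A ∩ B).ncard + (A ∩ C).ncard := by
    intro A B C hA hBC
    have h1 : A = (A ∩ B) ∪ (A ∩ C) := by
      rw [← Set.inter_union_distrib_left, hBC, Set.inter_eq_left.2 hA]
    calc A.ncard = ((A ∩ B) ∪ (A ∩ C)).ncard := congrArg _ h1
      _ ≤ _ := Set.ncard_union_le _ _
  have k1 := key X Y X' Y' hXY hd hXY' hd' hr hr' hX hY
  have k2 := key X Y Y' X' hXY hd (by rw [Set.union_comm]; exact hXY') hd'.symm hr (by omega) hX hY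
  have t1 := split X X' Y' (hXY ▸ Set.subset_union_left) hXY'
  have t2 := split Y X' Y' (hXY ▸ Set.subset_union_right) hXY'
  have t3 := split X' X Y (hXY' ▸ Set.subset_union_left) hXY
  have t4 := split Y' X Y (hXY' ▸ Set.subset_union_right) hXY
  rw [Set.inter_comm X' X, Set.inter_comm X' Y] at t3
  rw [Set.inter_comm Y' X, Set.inter_comm Y' Y] at t4
  omega

/-- the third point of a triangle is spanned by the other two -/
private theorem w0_span {M : Matroid α} [M.Finite] (h : TC4 M) {a b c : α} (ht : Tri M a b c)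
    {Z : Set α} (hb : b ∈ Z) (hc : c ∈ Z) : rk M (insert a Z) = rk M Z := by
  obtain ⟨haE, hbE, hcE, hab, hac, hbc, hr⟩ := ht
  refine le_antisymm ?_ (rk_mono M (Set.subset_insert _ _))
  have k3 := rk_submod M Z {a, b, c}
  have k4 : ({b, c} : Set α) ⊆ Z ∩ {a, b, c} := by
    intro x hx
    rcases hx with rfl | rfl
    · exact ⟨hb, Or.inr (Or.inl rfl)⟩
    · exact ⟨hc, Or.inr (Or.inr rfl)⟩
  have k5 := rk_mono M k4
  have k6 := w1 M h (X := {b, c}) (by
    intro x hx
    rcases hx with rfl | rfl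
    · exact hbE
    · exact hcE) (Set.ncard_pair hbc).le
  rw [Set.ncard_pair hbc] at k6
  have k7 : insert a Z ⊆ Z ∪ {a, b, c} := by
    intro x hx
    rcases hx with rfl | hx
    · exact Or.inr (Or.inl rfl)
    · exact Or.inl hx
  have k8 := rk_mono M k7
  omega

/-- a 2-separation of the deletion of a point of a triangle separates the other two points -/
private theorem w0_sides {M : Matroid α} [M.Finite] (h : TC4 M) {e f g : α} (ht : Tri M e f g)
    (h1 : ¬ ThreeConn (M ＼ {e})) : ∃ X Y : Set α, X ∪ Y = M.E \ {e} ∧ Disjoint X Y ∧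
      2 ≤ X.ncard ∧ 2 ≤ Y.ncard ∧ rk M X + rk M Y ≤ rk M M.E + 1 ∧ f ∈ X ∧ g ∈ Y := by
  have hEf := M.ground_finite
  have ht' := ht
  obtain ⟨heE, hfE, hgE, hef, heg, hfg, hr⟩ := ht
  obtain ⟨X, Y, hXY, hd, hX, hY, hr⟩ := w3d M h heE h1
  have key : ∀ X Y : Set α, X ∪ Y = M.E \ {e} → Disjoint X Y → 2 ≤ X.ncard → 2 ≤ Y.ncard →
      rk M X + rk M Y ≤ rk M M.E + 1 → f ∈ X → g ∈ X → False := by
    intro X Y hXY hd hX hY hr hf hg
    have hXE : X ⊆ M.E \ {e} := hXY ▸ Set.subset_union_left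
    have hYE : Y ⊆ M.E \ {e} := hXY ▸ Set.subset_union_right
    have k1 := w0_span h ht' hf hg
    have k2 := w0_lam2 h.1 (A := insert e X) (B := Y)
      (by rw [Set.insert_union, hXY, Set.insert_sdiff_self_of_mem heE])
      (Set.disjoint_insert_left.2 ⟨fun h => (hYE h).2 rfl, hd⟩)
      (hX.trans (Set.ncard_le_ncard (Set.subset_insert _ _)
        ((hEf.subset (hXE.trans Set.sdiff_subset)).insert e))) hY
    omega
  have hf : f ∈ X ∪ Y := hXY ▸ (⟨hfE, hef.symm⟩ : f ∈ M.E \ {e})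
  have hg : g ∈ X ∪ Y := hXY ▸ (⟨hgE, heg.symm⟩ : g ∈ M.E \ {e})
  rcases hf with hf | hf <;> rcases hg with hg | hg
  · exact (key X Y hXY hd hX hY hr hf hg).elim
  · exact ⟨X, Y, hXY, hd, hX, hY, hr, hf, hg⟩
  · exact ⟨Y, X, by rw [Set.union_comm]; exact hXY, hd.symm, hY, hX, by omega, hf, hg⟩
  · exact (key Y X (by rw [Set.union_comm]; exact hXY) hd.symm hY hX (by omega) hf hg).elim

/-- W2: Tutte's triangle lemma -/
theorem triangle_lemma (h : TC4 M) {e f g : α} (ht : Tri M e f g)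
    (h1 : ¬ ThreeConn (M ＼ {e})) (h2 : ¬ ThreeConn (M ＼ {f})) :
    ∃ x, (x ≠ g ∧ Tri M✶ e f x) ∨ (x ≠ f ∧ Tri M✶ e g x) := by
  have hEf := M.ground_finite
  obtain ⟨X, Y, hXY, hd, hX, hY, hr, hfX, hgY⟩ := w0_sides h ht h1
  obtain ⟨X', Y', hXY', hd', hX', hY', hr', heX', hgY'⟩ := w0_sides h ht.swap12 h2
  have ht' := ht
  obtain ⟨heE, hfE, hgE, hef, heg, hfg, -⟩ := ht'
  have hXE : X ⊆ M.E \ {e} := hXY ▸ Set.subset_union_left
  have hYE : Y ⊆ M.E \ {e} := hXY ▸ Set.subset_union_right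
  have hXE' : X' ⊆ M.E \ {f} := hXY' ▸ Set.subset_union_left
  have hYE' : Y' ⊆ M.E \ {f} := hXY' ▸ Set.subset_union_right
  have pair : ∀ {a b z : α} {N : Matroid α} {u : α}, z ∈ ({a, b} : Set α) → Tri N u a b →
      ∃ x ∈ ({a, b} : Set α), Tri N u z x := by
    intro a b z N u hz hT
    rcases hz with rfl | rfl
    · exact ⟨b, Or.inr rfl, hT⟩
    · exact ⟨a, Or.inl rfl, hT.swap23⟩
  -- small sides
  by_cases c1 : X.ncard = 2
  · obtain ⟨a, b, rfl, hT⟩ := w4d M h heE hXY hd c1 hr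
    obtain ⟨x, hx, hT'⟩ := pair hfX hT
    exact ⟨x, Or.inl ⟨fun hxg => Set.disjoint_left.1 hd hx (hxg ▸ hgY), hT'⟩⟩
  by_cases c2 : Y.ncard = 2
  · obtain ⟨a, b, rfl, hT⟩ := w4d M h heE (by rw [Set.union_comm]; exact hXY) hd.symm c2
      (by omega)
    obtain ⟨x, hx, hT'⟩ := pair hgY hT
    exact ⟨x, Or.inr ⟨fun hxf => Set.disjoint_left.1 hd (hxf ▸ hfX) hx, hT'⟩⟩
  by_cases c3 : X'.ncard = 2
  · obtain ⟨a, b, rfl, hT⟩ := w4d M h hfE hXY' hd' c3 hr'
    obtain ⟨x, hx, hT'⟩ := pair heX' hT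
    exact ⟨x, Or.inl ⟨fun hxg => Set.disjoint_left.1 hd' hx (hxg ▸ hgY'), hT'.swap12⟩⟩
  -- the four parts
  have hfin : ∀ S : Set α, S ⊆ M.E → S.Finite := fun S hS => hEf.subset hS
  have mem : ∀ x ∈ M.E, x ≠ e → x ≠ f → (x ∈ X ∨ x ∈ Y) ∧ (x ∈ X' ∨ x ∈ Y') :=
    fun x hx hxe hxf => by
      have h1 : x ∈ X ∪ Y := hXY ▸ (⟨hx, hxe⟩ : x ∈ M.E \ {e})
      have h2 : x ∈ X' ∪ Y' := hXY' ▸ (⟨hx, hxf⟩ : x ∈ M.E \ {f})
      exact ⟨h1, h2⟩
  have heX : e ∉ X := fun h => (hXE h).2 rfl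
  have heY : e ∉ Y := fun h => (hYE h).2 rfl
  have hfX' : f ∉ X' := fun h => (hXE' h).2 rfl
  have hfY' : f ∉ Y' := fun h => (hYE' h).2 rfl
  have hfY : f ∉ Y := fun h => Set.disjoint_left.1 hd hfX h
  have heY' : e ∉ Y' := fun h => Set.disjoint_left.1 hd' heX' h
  have sX : X ⊆ M.E := hXE.trans Set.sdiff_subset
  have sY : Y ⊆ M.E := hYE.trans Set.sdiff_subset
  have sX' : X' ⊆ M.E := hXE'.trans Set.sdiff_subset
  have sY' : Y' ⊆ M.E := hYE'.trans Set.sdiff_subset
  set A := X ∩ X' with hA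
  set B := X ∩ Y' with hB
  set C := Y ∩ X' with hC
  set D := Y ∩ Y' with hD
  have nX : X.ncard ≤ A.ncard + B.ncard + 1 := by
    have k : X ⊆ insert f (A ∪ B) := by
      intro x hx
      by_cases hxf : x = f
      · exact Or.inl hxf
      · have hxe : x ≠ e := fun h => heX (h ▸ hx)
        rcases (mem x (sX hx) hxe hxf).2 with h3 | h3
        · exact Or.inr (Or.inl ⟨hx, h3⟩)
        · exact Or.inr (Or.inr ⟨hx, h3⟩)
    have k2 := Set.ncard_le_ncard k (((hfin _ (Set.inter_subset_left.trans sX)).union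
      (hfin _ (Set.inter_subset_left.trans sX))).insert f)
    have k3 := Set.ncard_insert_le f (A ∪ B)
    have k4 := Set.ncard_union_le A B
    omega
  have nY : Y.ncard ≤ C.ncard + D.ncard := by
    have k : Y ⊆ C ∪ D := by
      intro x hx
      have hxf : x ≠ f := fun h => hfY (h ▸ hx)
      have hxe : x ≠ e := fun h => heY (h ▸ hx)
      rcases (mem x (sY hx) hxe hxf).2 with h3 | h3
      · exact Or.inl ⟨hx, h3⟩
      · exact Or.inr ⟨hx, h3⟩
    have k2 := Set.ncard_le_ncard k ((hfin _ (Set.inter_subset_left.trans sY)).union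
      (hfin _ (Set.inter_subset_left.trans sY)))
    have k4 := Set.ncard_union_le C D
    omega
  have nX' : X'.ncard ≤ A.ncard + C.ncard + 1 := by
    have k : X' ⊆ insert e (A ∪ C) := by
      intro x hx
      by_cases hxe : x = e
      · exact Or.inl hxe
      · have hxf : x ≠ f := fun h => hfX' (h ▸ hx)
        rcases (mem x (sX' hx) hxe hxf).1 with h3 | h3
        · exact Or.inr (Or.inl ⟨h3, hx⟩)
        · exact Or.inr (Or.inr ⟨h3, hx⟩)
    have k2 := Set.ncard_le_ncard k (((hfin _ (Set.inter_subset_left.trans sX)).union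
      (hfin _ (Set.inter_subset_left.trans sY))).insert e)
    have k3 := Set.ncard_insert_le e (A ∪ C)
    have k4 := Set.ncard_union_le A C
    omega
  have nY' : Y'.ncard ≤ B.ncard + D.ncard := by
    have k : Y' ⊆ B ∪ D := by
      intro x hx
      have hxf : x ≠ f := fun h => hfY' (h ▸ hx)
      have hxe : x ≠ e := fun h => heY' (h ▸ hx)
      rcases (mem x (sY' hx) hxe hxf).1 with h3 | h3
      · exact Or.inl ⟨h3, hx⟩
      · exact Or.inr ⟨h3, hx⟩
    have k2 := Set.ncard_le_ncard k ((hfin _ (Set.inter_subset_left.trans sX)).union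
      (hfin _ (Set.inter_subset_left.trans sY)))
    have k4 := Set.ncard_union_le B D
    omega
  have sA : A ⊆ M.E := Set.inter_subset_left.trans sX
  have sB : B ⊆ M.E := Set.inter_subset_left.trans sX
  have sC : C ⊆ M.E := Set.inter_subset_left.trans sY
  have sD : D ⊆ M.E := Set.inter_subset_left.trans sY
  have hgD : g ∈ D := ⟨hgY, hgY'⟩
  have heA : e ∉ A := fun h => heX h.1
  have heB : e ∉ B := fun h => heX h.1
  have heC : e ∉ C := fun h => heY h.1
  have heD : e ∉ D := fun h => heY h.1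
  have hfA : f ∉ A := fun h => hfX' h.2
  have hfB : f ∉ B := fun h => hfY' h.2
  have hfC : f ∉ C := fun h => hfY h.1
  have hfD : f ∉ D := fun h => hfY h.1
  have two : ∀ S : Set α, S ⊆ M.E → e ∉ S → f ∉ S → 2 ≤ (M.E \ S).ncard := by
    intro S hS h3 h4
    have k : ({e, f} : Set α) ⊆ M.E \ S := by
      intro x hx
      rcases hx with rfl | rfl
      · exact ⟨heE, h3⟩
      · exact ⟨hfE, h4⟩
    have k2 := Set.ncard_le_ncard k (hEf.subset Set.sdiff_subset)
    rwa [Set.ncard_pair hef] at k2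
  have lam2 : ∀ S : Set α, S ⊆ M.E → e ∉ S → f ∉ S → 2 ≤ S.ncard →
      rk M M.E + 2 ≤ rk M S + rk M (M.E \ S) := fun S hS h3 h4 h5 =>
    w0_lam2 h.1 (Set.union_sdiff_cancel hS) Set.disjoint_sdiff_right h5 (two S hS h3 h4)
  have lam1 : ∀ S : Set α, S ⊆ M.E → e ∉ S → f ∉ S → 1 ≤ S.ncard →
      rk M M.E + 1 ≤ rk M S + rk M (M.E \ S) := fun S hS h3 h4 h5 =>
    w0_lam1 h.1 (Set.union_sdiff_cancel hS) Set.disjoint_sdiff_right h5
      (by have := two S hS h3 h4; omega)
  -- first uncrossing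
  have q1 : rk M B + rk M (M.E \ B) + (rk M C + rk M (M.E \ C)) ≤ 2 * rk M M.E + 2 := by
    have s1 : rk M B + rk M (X ∪ Y') ≤ rk M X + rk M Y' := rk_submod M X Y'
    have s2 : rk M C + rk M (Y ∪ X') ≤ rk M Y + rk M X' := rk_submod M Y X'
    have r1 : rk M (M.E \ C) ≤ rk M (X ∪ Y') := by
      rw [← w0_span h ht (Z := X ∪ Y') (Or.inl hfX) (Or.inr hgY')]
      refine rk_mono M ?_
      intro x hx
      by_cases hxe : x = e
      · exact Or.inl hxe
      · right
        by_cases hxf : x = f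
        · exact Or.inl (hxf ▸ hfX)
        · obtain ⟨h3 | h3, h4 | h4⟩ := mem x hx.1 hxe hxf
          · exact Or.inl h3
          · exact Or.inl h3
          · exact absurd ⟨h3, h4⟩ hx.2
          · exact Or.inr h4
    have r2 : rk M (M.E \ B) ≤ rk M (Y ∪ X') := by
      rw [← w0_span h ht.swap12 (Z := Y ∪ X') (Or.inr heX') (Or.inl hgY)]
      refine rk_mono M ?_
      intro x hx
      by_cases hxf : x = f
      · exact Or.inl hxf
      · right
        by_cases hxe : x = e
        · exact Or.inr (hxe ▸ heX')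
        · obtain ⟨h3 | h3, h4 | h4⟩ := mem x hx.1 hxe hxf
          · exact Or.inr h4
          · exact absurd ⟨h3, h4⟩ hx.2
          · exact Or.inl h3
          · exact Or.inl h3
    omega
  have p1 : 2 ≤ B.ncard → C.ncard = 0 := by
    intro hb
    by_contra hc
    have := lam2 B sB heB hfB hb
    have := lam1 C sC heC hfC (by omega)
    omega
  have p2 : 2 ≤ C.ncard → B.ncard = 0 := by
    intro hc
    by_contra hb
    have := lam2 C sC heC hfC hc
    have := lam1 B sB heB hfB (by omega)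
    omega
  have hD1 : 1 ≤ D.ncard := (Set.ncard_pos (hfin D sD)).2 ⟨g, hgD⟩
  rcases Nat.lt_or_ge D.ncard 2 with hD2 | hD2
  · exfalso
    have := p2 (by omega)
    omega
  -- second uncrossing
  have q2 : rk M D + rk M (M.E \ D) + (rk M A + rk M (Y ∪ Y')) ≤ 2 * rk M M.E + 2 := by
    have s1 : rk M A + rk M (X ∪ X') ≤ rk M X + rk M X' := rk_submod M X X'
    have s2 : rk M D + rk M (Y ∪ Y') ≤ rk M Y + rk M Y' := rk_submod M Y Y'
    have r1 : rk M (M.E \ D) ≤ rk M (X ∪ X') := by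
      refine rk_mono M ?_
      intro x hx
      by_cases hxf : x = f
      · exact Or.inl (hxf ▸ hfX)
      · by_cases hxe : x = e
        · exact Or.inr (hxe ▸ heX')
        · obtain ⟨h3 | h3, h4 | h4⟩ := mem x hx.1 hxe hxf
          · exact Or.inl h3
          · exact Or.inl h3
          · exact Or.inr h4
          · exact absurd ⟨h3, h4⟩ hx.2
    omega
  have hlD := lam2 D sD heD hfD hD2
  have r3 : rk M (M.E \ A) ≤ rk M (Y ∪ Y') + 1 := by
    have k1 := rk_insert_le M e (Y ∪ Y')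
    rw [← w0_span h ht.swap12 (Z := insert e (Y ∪ Y')) (Or.inl rfl) (Or.inr (Or.inl hgY))] at k1
    refine le_trans (rk_mono M ?_) k1
    intro x hx
    by_cases hxf : x = f
    · exact Or.inl hxf
    · by_cases hxe : x = e
      · exact Or.inr (Or.inl hxe)
      · obtain ⟨h3 | h3, h4 | h4⟩ := mem x hx.1 hxe hxf
        · exact absurd ⟨h3, h4⟩ hx.2
        · exact Or.inr (Or.inr (Or.inr h4))
        · exact Or.inr (Or.inr (Or.inl h3))
        · exact Or.inr (Or.inr (Or.inl h3))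
  have hA1 : A.ncard ≤ 1 := by
    by_contra hc
    have := lam2 A sA heA hfA (by omega)
    omega
  rcases Nat.lt_or_ge A.ncard 1 with hA0 | hA0
  · exfalso
    have := p1 (by omega)
    omega
  obtain ⟨x, hx⟩ := Set.ncard_eq_one.1 (le_antisymm hA1 hA0)
  have hxA : x ∈ A := by rw [hx]; rfl
  have hxE : x ∈ M.E := sA hxA
  have hrA := w1 M h sA (by omega)
  refine ⟨x, Or.inl ⟨fun hxg => Set.disjoint_left.1 hd hxA.1 (hxg ▸ hgY), ?_⟩⟩
  refine w0_triad h heE hfE hxE hef (fun h => heA (h ▸ hxA)) (fun h => hfA (h ▸ hxA)) ?_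
  have k1 : M.E \ {e, f, x} ⊆ Y ∪ Y' := by
    intro z hz
    have hze : z ≠ e := fun h => hz.2 (Or.inl h)
    have hzf : z ≠ f := fun h => hz.2 (Or.inr (Or.inl h))
    have hzx : z ≠ x := fun h => hz.2 (Or.inr (Or.inr h))
    obtain ⟨h3 | h3, h4 | h4⟩ := mem z hz.1 hze hzf
    · exfalso
      apply hzx
      have : z ∈ A := ⟨h3, h4⟩
      rwa [hx] at this
    · exact Or.inr h4
    · exact Or.inl h3
    · exact Or.inl h3
  have k2 := rk_mono M k1
  omega

end QG
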