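import Pool.Agent.Lib.QG.W0
set_option autoImplicit false

/-! Row W3 of part (T): chains of triangles and triads, the cyclic structure (helper20). -/

namespace QG
open Set Matroid
variable {α : Type}

/-- chains: alternately triangles and triads, the first triple is a triangle -/
def Ch (M : Matroid α) (x : ℕ → α) (m : ℕ) : Prop :=
  (∀ i < m, ∀ j < m, x i = x j → i = j) ∧
  ∀ i, i + 2 < m → (Even i → Tri M (x i) (x (i + 1)) (x (i + 2))) ∧
    (¬ Even i → Tri M✶ (x i) (x (i + 1)) (x (i + 2)))

/-- the cyclic structure of a wheel or whirl of rank `n` -/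
structure Cyc (M : Matroid α) (n : ℕ) (x : ℕ → α) : Prop where
  three : 3 ≤ n
  per : ∀ i, x (i + 2 * n) = x i
  inj : ∀ i < 2 * n, ∀ j < 2 * n, x i = x j → i = j
  ground : range x = M.E
  rank : rk M M.E = n
  tri : ∀ i, Even i → Tri M (x i) (x (i + 1)) (x (i + 2))
  trd : ∀ i, ¬ Even i → Tri M✶ (x i) (x (i + 1)) (x (i + 2))

/-- add an element in front -/
def cons (y : α) (x : ℕ → α) : ℕ → α := fun i => Nat.casesOn i y x

theorem cons_zero (y : α) (x : ℕ → α) : cons y x 0 = y := rfl
theorem cons_succ (y : α) (x : ℕ → α) (i : ℕ) : cons y x (i + 1) = x i := rfl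

theorem Ch.cons {M : Matroid α} {x : ℕ → α} {m : ℕ} (h : Ch M x m) {y : α}
    (hy : ∀ i < m, y ≠ x i) (ht : Tri M✶ y (x 0) (x 1)) : Ch M✶ (cons y x) (m + 1) := by
  refine ⟨?_, ?_⟩
  · intro i hi j hj hij
    rcases i with _ | i
    · rcases j with _ | j
      · rfl
      · rw [cons_zero, cons_succ] at hij
        exact absurd hij (hy j (by omega))
    · rcases j with _ | j
      · rw [cons_zero, cons_succ] at hij
        exact absurd hij.symm (hy i (by omega))
      · rw [cons_succ, cons_succ] at hij
        rw [h.1 i (by omega) j (by omega) hij]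
  · intro i hi
    rcases i with _ | i
    · refine ⟨fun _ => ht, fun hn => absurd (by decide) hn⟩
    · have h1 := h.2 i (by omega)
      rw [Nat.even_add_one, dual_dual]
      refine ⟨fun h2 => h1.2 h2, fun h2 => h1.1 (not_not.1 h2)⟩

theorem Ch.rev {M : Matroid α} {x : ℕ → α} {m : ℕ} (h : Ch M x m) (hm : Even m) :
    Ch M✶ (fun i => x (m - 1 - i)) m := by
  refine ⟨?_, ?_⟩
  · intro i hi j hj hij
    have := h.1 (m - 1 - i) (by omega) (m - 1 - j) (by omega) hij
    omega
  · intro i hi
    have h1 := h.2 (m - 3 - i) (by omega)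
    have e1 : m - 3 - i + 1 = m - 1 - (i + 1) := by omega
    have e2 : m - 3 - i + 2 = m - 1 - i := by omega
    have e3 : m - 3 - i = m - 1 - (i + 2) := by omega
    rw [e1, e2, e3] at h1
    rw [dual_dual]
    have hp : Even (m - 1 - (i + 2)) ↔ ¬ Even i := by
      obtain ⟨k, hk⟩ := hm
      constructor
      · rintro ⟨a, ha⟩ ⟨b, hb⟩
        omega
      · intro hi'
        rw [Nat.not_even_iff_odd] at hi'
        obtain ⟨b, hb⟩ := hi'
        exact ⟨k - b - 2, by omega⟩
    refine ⟨fun h2 => ?_, fun h2 => ?_⟩
    · have h3 : ¬ Even (m - 1 - (i + 2)) := by rw [hp]; exact fun h4 => h4 h2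
      exact (h1.2 h3).rev
    · exact (h1.1 (hp.2 h2)).rev

variable {M : Matroid α} [M.Finite]

theorem rk_pair (h : TC4 M) {a b : α} (ha : a ∈ M.E) (hb : b ∈ M.E) (hab : a ≠ b) :
    rk M {a, b} = 2 := by
  rw [w1 M h (by rintro x (rfl | rfl) <;> assumption) (by rw [ncard_pair hab]), ncard_pair hab]

theorem rk_one (h : TC4 M) {a : α} (ha : a ∈ M.E) : rk M {a} = 1 := by
  rw [w1 M h (by rintro x rfl; assumption) (by rw [ncard_singleton]; omega), ncard_singleton]

/-- two triangles with two common elements -/
theorem tri_trans (h : TC4 M) {a b c d : α} (h1 : Tri M a b c) (h2 : Tri M d b c)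
    (had : a ≠ d) : Tri M a d b := by
  obtain ⟨ha, hb, hc, hab, hac, hbc, hr⟩ := h1
  obtain ⟨hd, -, -, hdb, hdc, -, hr'⟩ := h2
  refine ⟨ha, hd, hb, had, hab, hdb, ?_⟩
  have e1 := rk_submod M {a, b, c} {d, b, c}
  have e2 : rk M {b, c} ≤ rk M ({a, b, c} ∩ {d, b, c}) := by
    apply rk_mono
    rintro x (rfl | rfl) <;> simp
  have e3 : rk M {a, d, b} ≤ rk M ({a, b, c} ∪ {d, b, c}) := by
    apply rk_mono
    rintro x (rfl | rfl | rfl) <;> simp
  have e4 := rk_pair h hb hc hbc
  have e5 : rk M {a, d} ≤ rk M {a, d, b} := by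
    apply rk_mono
    rintro x (rfl | rfl) <;> simp
  have e6 := rk_pair h ha hd had
  omega

theorem tri_union (h : TC4 M) {a b c d e : α} (h1 : Tri M a b c) (h2 : Tri M c d e) :
    rk M {a, b, c, d, e} ≤ 3 := by
  have e1 := rk_submod M {a, b, c} {c, d, e}
  have e2 : rk M {c} ≤ rk M ({a, b, c} ∩ {c, d, e}) := by
    apply rk_mono
    rintro x rfl
    simp
  have e3 : rk M {a, b, c, d, e} ≤ rk M ({a, b, c} ∪ {c, d, e}) := by
    apply rk_mono
    rintro x (rfl | rfl | rfl | rfl | rfl) <;> simp
  have e4 := rk_one h h1.2.2.1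
  have e5 := h1.2.2.2.2.2.2
  have e6 := h2.2.2.2.2.2.2
  omega

/-- no coloops -/
theorem rk_diff_one (h : TC4 M) {e : α} (he : e ∈ M.E) : rk M (M.E \ {e}) = rk M M.E := by
  have h1 := rk_one (w2' M h) he
  have h2 := rk_dual M (X := {e}) (by rintro x rfl; exact he)
  rw [ncard_singleton] at h2
  omega

/-- triads in terms of the rank function -/
theorem tri_dual_of (h : TC4 M) {a b c : α} (ha : a ∈ M.E) (hb : b ∈ M.E) (hc : c ∈ M.E)
    (hab : a ≠ b) (hac : a ≠ c) (hbc : b ≠ c)
    (hr : rk M (M.E \ {a, b, c}) + 1 ≤ rk M M.E) : Tri M✶ a b c := by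
  have hs : ({a, b, c} : Set α) ⊆ M.E := by rintro x (rfl | rfl | rfl) <;> assumption
  refine ⟨ha, hb, hc, hab, hac, hbc, ?_⟩
  have h1 := rk_dual M hs
  have h2 : ({a, b, c} : Set α).ncard = 3 := ncard_eq_three.2 ⟨a, b, c, hab, hac, hbc, rfl⟩
  have h3 := rk_pair (w2' M h) ha hb hab
  have h4 : rk M✶ {a, b} ≤ rk M✶ {a, b, c} := by
    apply rk_mono
    rintro x (rfl | rfl) <;> simp
  omega

/-- the exceptional configuration: six elements -/
theorem case_five (h : TC4 M) (h5 : 5 ≤ M.E.ncard) {a b c d e : α} (h1 : Tri M a b c)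
    (h2 : Tri M c d e) (h3 : Tri M✶ b c d) (h4 : Tri M✶ a c e)
    (hne : a ≠ d ∧ b ≠ e) :
    ∃ z, M.E = {a, b, c, d, e, z} ∧ z ≠ a ∧ z ≠ b ∧ z ≠ c ∧ z ≠ d ∧ z ≠ e ∧
      Tri M✶ a b z ∧ Tri M✶ d e z := by
  obtain ⟨ha, hb, hc, hab, hac, hbc, -⟩ := id h1
  obtain ⟨-, hd, he, hcd, hce, hde, -⟩ := id h2
  have hbd : b ≠ d := h3.2.2.2.2.1
  have hae : a ≠ e := h4.2.2.2.2.1
  have r1 := tri_union h h1 h2
  have r2 := tri_union (w2' M h) h3.swap12.rev h4.swap12
  have r2' : rk M✶ {a, b, c, d, e} ≤ 3 := by
    refine le_trans (rk_mono _ ?_) r2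
    rintro x (rfl | rfl | rfl | rfl | rfl) <;> simp
  have hs : ({a, b, c, d, e} : Set α) ⊆ M.E := by
    rintro x (rfl | rfl | rfl | rfl | rfl) <;> assumption
  have hn : ({a, b, c, d, e} : Set α).ncard = 5 := by
    rw [ncard_insert_of_notMem (by simp [hab, hac, hne.1, hae]),
      ncard_insert_of_notMem (by simp [hbc, hbd, hne.2]),
      ncard_insert_of_notMem (by simp [hcd, hce]), ncard_pair hde]
  have r3 := rk_dual M hs
  have hsum := rk_dual_ground M
  have hdiff : (M.E \ {a, b, c, d, e}).ncard + 5 = M.E.ncard := by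
    rw [← hn, ncard_sdiff_add_ncard_of_subset hs M.ground_finite]
  have hle : (M.E \ {a, b, c, d, e}).ncard ≤ 1 := by
    by_contra hc'
    have := (h.1 _ hs).2 (by omega) (by omega)
    omega
  rcases Nat.lt_or_ge (M.E \ {a, b, c, d, e}).ncard 1 with h0 | h0
  · -- five elements
    exfalso
    have hE : M.E = {a, b, c, d, e} := by
      have : M.E \ {a, b, c, d, e} = ∅ := by
        rw [← ncard_eq_zero (M.ground_finite.subset sdiff_subset)]
        omega
      exact Subset.antisymm (sdiff_eq_empty.1 this) hs
    rw [← hE] at r1 r2'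
    have hcase : rk M M.E = 2 ∨ rk M✶ M.E = 2 := by
      have := hE ▸ hn
      omega
    rcases hcase with hc' | hc'
    · refine w6 M h h5 ⟨hb, hc, hd, hbc, hbd, hcd, ?_⟩ h3
      have t1 := rk_pair h hb hc hbc
      have t2 : rk M {b, c} ≤ rk M {b, c, d} := by
        apply rk_mono
        rintro x (rfl | rfl) <;> simp
      have t3 : rk M {b, c, d} ≤ rk M M.E := rk_le_rk M _
      omega
    · refine w6 M h h5 h1 ⟨ha, hb, hc, hab, hac, hbc, ?_⟩
      have t1 := rk_pair (w2' M h) ha hb hab
      have t2 : rk M✶ {a, b} ≤ rk M✶ {a, b, c} := by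
        apply rk_mono
        rintro x (rfl | rfl) <;> simp
      have t3 : rk M✶ {a, b, c} ≤ rk M✶ M.E := rk_le_rk M✶ _
      omega
  · obtain ⟨z, hz⟩ := ncard_eq_one.1 (show (M.E \ {a, b, c, d, e}).ncard = 1 by omega)
    have hz' : z ∈ M.E \ {a, b, c, d, e} := by rw [hz]; rfl
    obtain ⟨hzE, hzn⟩ := hz'
    simp only [mem_insert_iff, mem_singleton_iff, not_or] at hzn
    obtain ⟨za, zb, zc, zd, ze⟩ := hzn
    have hE : M.E = {a, b, c, d, e, z} := by
      ext w
      constructor
      · intro hw
        by_cases hw' : w ∈ ({a, b, c, d, e} : Set α)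
        · simp only [mem_insert_iff, mem_singleton_iff] at hw' ⊢
          tauto
        · have : w ∈ M.E \ {a, b, c, d, e} := ⟨hw, hw'⟩
          rw [hz, mem_singleton_iff] at this
          simp [this]
      · intro hw
        simp only [mem_insert_iff, mem_singleton_iff] at hw
        rcases hw with rfl | rfl | rfl | rfl | rfl | rfl <;> assumption
    have hEz : M.E \ {z} = {a, b, c, d, e} := by
      ext w
      rw [mem_sdiff, hE]
      simp only [mem_insert_iff, mem_singleton_iff]
      constructor
      · tauto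
      · rintro (rfl | rfl | rfl | rfl | rfl) <;> simp [Ne.symm, *]
    have r4 : rk M M.E ≤ 3 := by
      rw [← rk_diff_one h hzE, hEz]
      exact r1
    have r5 : rk M✶ M.E ≤ 3 := by
      have := rk_diff_one (w2' M h) (e := z) hzE
      rw [dual_ground, hEz] at this
      omega
    have r6 : rk M M.E = 3 := by omega
    refine ⟨z, hE, za, zb, zc, zd, ze, ?_, ?_⟩
    · apply tri_dual_of h ha hb hzE hab (Ne.symm za) (Ne.symm zb)
      have t1 : M.E \ {a, b, z} ⊆ {c, d, e} := by
        rw [hE]
        rintro w ⟨hw, hw'⟩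
        simp only [mem_insert_iff, mem_singleton_iff] at hw hw' ⊢
        tauto
      have t2 := rk_mono M t1
      have t3 := h2.2.2.2.2.2.2
      omega
    · apply tri_dual_of h hd he hzE hde (Ne.symm zd) (Ne.symm ze)
      have t1 : M.E \ {d, e, z} ⊆ {a, b, c} := by
        rw [hE]
        rintro w ⟨hw, hw'⟩
        simp only [mem_insert_iff, mem_singleton_iff] at hw hw' ⊢
        tauto
      have t2 := rk_mono M t1
      have t3 := h1.2.2.2.2.2.2
      omega

/-- the front end of a maximal chain -/
theorem front (h : TC4 M) (h5 : 5 ≤ M.E.ncard) (hess : ∀ e ∈ M.E, Ess M e) {x : ℕ → α} {m : ℕ}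
    (hch : Ch M x m) (h3 : 3 ≤ m) (hmax1 : ∀ x', ¬ Ch M x' (m + 1))
    (hmax2 : ∀ x', ¬ Ch M✶ x' (m + 1)) :
    Even m ∧ 6 ≤ m ∧ Tri M✶ (x 0) (x 1) (x (m - 1)) := by
  have hd : TC4 M✶ := w2' M h
  have T0 : Tri M (x 0) (x 1) (x 2) := (hch.2 0 (by omega)).1 (by decide)
  have hx0 := T0.1
  have hx1 := T0.2.1
  obtain ⟨y, hy⟩ := triangle_lemma M h T0 (hess _ hx0).1 (hess _ hx1).1
  rcases hy with ⟨hy2, ht⟩ | ⟨hy1, ht⟩
  · -- triad x0 x1 y
    by_cases hnew : ∀ i < m, y ≠ x i
    · exact absurd (hch.cons hnew ht.rot.rot) (hmax2 _)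
    push Not at hnew
    obtain ⟨j, hj, rfl⟩ := hnew
    have hj0 : j ≠ 0 := by
      rintro rfl
      exact ht.2.2.2.2.1 rfl
    have hj1 : j ≠ 1 := by
      rintro rfl
      exact ht.2.2.2.2.2.1 rfl
    have hj2 : j ≠ 2 := by
      rintro rfl
      exact hy2 rfl
    have hne : ∀ i < m, i ≠ j → x i ≠ x j := fun i hi hij he => hij (hch.1 i hi j hj he)
    have hinj : ∀ i < m, ∀ k < m, i ≠ k → x i ≠ x k := fun i hi k hk hik he =>
      hik (hch.1 i hi k hk he)
    rcases Nat.even_or_odd j with hev | hodd
    · exfalso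
      obtain ⟨b, hb⟩ := hev
      have hT := (hch.2 (j - 2) (by omega)).1 ⟨b - 1, by omega⟩
      rw [show j - 2 + 1 = j - 1 by omega, show j - 2 + 2 = j by omega] at hT
      rcases w5 M h hT.rot.rot ht.rot.rot with h1 | h1 | h1 | h1
      · exact hinj (j - 2) (by omega) 0 (by omega) (by omega) h1
      · exact hinj (j - 2) (by omega) 1 (by omega) (by omega) h1
      · exact hinj (j - 1) (by omega) 0 (by omega) (by omega) h1
      · exact hinj (j - 1) (by omega) 1 (by omega) (by omega) h1
    · obtain ⟨b, hb⟩ := hodd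
      rcases Nat.lt_or_ge (j + 1) m with hlt | hge
      · exfalso
        have hT := (hch.2 (j - 1) (by omega)).1 ⟨b, by omega⟩
        rw [show j - 1 + 1 = j by omega, show j - 1 + 2 = j + 1 by omega] at hT
        rcases w5 M h hT.rot ht.rot.rot with h1 | h1 | h1 | h1
        · exact hinj (j + 1) (by omega) 0 (by omega) (by omega) h1
        · exact hinj (j + 1) (by omega) 1 (by omega) (by omega) h1
        · exact hinj (j - 1) (by omega) 0 (by omega) (by omega) h1
        · exact hinj (j - 1) (by omega) 1 (by omega) (by omega) h1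
      · have hjm : j = m - 1 := by omega
        subst hjm
        refine ⟨⟨b + 1, by omega⟩, ?_, ht⟩
        by_contra hm6
        have hm4 : m = 4 := by omega
        subst hm4
        have T1 : Tri M✶ (x 1) (x 2) (x 3) := (hch.2 1 (by omega)).2 (by decide)
        have := tri_trans hd ht (b := x 1) (c := x 3) T1.swap12
          (hinj 0 (by omega) 2 (by omega) (by omega))
        exact w6 M h h5 T0 this.swap23
  · -- triad x0 x2 y
    have hinj : ∀ i < m, ∀ k < m, i ≠ k → x i ≠ x k := fun i hi k hk hik he =>
      hik (hch.1 i hi k hk he)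
    have hy0 : y ≠ x 0 := ht.2.2.2.2.1.symm
    have hy2 : y ≠ x 2 := ht.2.2.2.2.2.1.symm
    rcases Nat.lt_or_ge m 5 with hm5 | hm5
    · -- m = 3 or m = 4: extend the chain after exchanging x1 and x2
      exfalso
      have hy3 : 4 ≤ m → y ≠ x 3 := by
        rintro hm rfl
        have T1 : Tri M✶ (x 1) (x 2) (x 3) := (hch.2 1 (by omega)).2 (by decide)
        have := tri_trans hd ht (b := x 2) (c := x 3) T1
          (hinj 0 (by omega) 1 (by omega) (by omega))
        exact w6 M h h5 T0 this
      rcases Nat.lt_or_ge m 4 with hm4 | hm4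
      · have hm : m = 3 := by omega
        subst hm
        -- chain y, x2, x0, x1
        apply hmax2 (fun i => if i = 0 then y else if i = 1 then x 2 else if i = 2 then x 0 else x 1)
        refine ⟨?_, ?_⟩
        · have a01 := hinj 0 (by omega) 1 (by omega) (by omega)
          have a02 := hinj 0 (by omega) 2 (by omega) (by omega)
          have a12 := hinj 1 (by omega) 2 (by omega) (by omega)
          intro i hi j hj hij
          interval_cases i <;> interval_cases j <;> simp at hij ⊢ <;>
            first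
            | exact hy0 hij | exact hy1 hij | exact hy2 hij
            | exact hy0 hij.symm | exact hy1 hij.symm | exact hy2 hij.symm
            | exact a01 hij | exact a02 hij | exact a12 hij
            | exact a01 hij.symm | exact a02 hij.symm | exact a12 hij.symm
        · intro i hi
          have : i = 0 ∨ i = 1 := by omega
          rcases this with rfl | rfl
          · refine ⟨fun _ => ?_, fun hn => absurd (by decide) hn⟩
            simpa using ht.rev
          · refine ⟨fun hn => absurd hn (by decide), fun _ => ?_⟩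
            rw [dual_dual]
            simpa using T0.rot.rot
      · have hm : m = 4 := by omega
        subst hm
        have T1 : Tri M✶ (x 1) (x 2) (x 3) := (hch.2 1 (by omega)).2 (by decide)
        -- chain y, x0, x2, x1, x3
        apply hmax2 (fun i => if i = 0 then y else if i = 1 then x 0 else if i = 2 then x 2
          else if i = 3 then x 1 else x 3)
        have hy3 := hy3 le_rfl
        refine ⟨?_, ?_⟩
        · have a01 := hinj 0 (by omega) 1 (by omega) (by omega)
          have a02 := hinj 0 (by omega) 2 (by omega) (by omega)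
          have a03 := hinj 0 (by omega) 3 (by omega) (by omega)
          have a12 := hinj 1 (by omega) 2 (by omega) (by omega)
          have a13 := hinj 1 (by omega) 3 (by omega) (by omega)
          have a23 := hinj 2 (by omega) 3 (by omega) (by omega)
          intro i hi j hj hij
          interval_cases i <;> interval_cases j <;> simp at hij ⊢ <;>
            first
            | exact hy0 hij | exact hy1 hij | exact hy2 hij | exact hy3 hij
            | exact hy0 hij.symm | exact hy1 hij.symm | exact hy2 hij.symm | exact hy3 hij.symm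
            | exact a01 hij | exact a02 hij | exact a12 hij
            | exact a01 hij.symm | exact a02 hij.symm | exact a12 hij.symm
            | exact a03 hij | exact a13 hij | exact a23 hij
            | exact a03 hij.symm | exact a13 hij.symm | exact a23 hij.symm
        · intro i hi
          have : i = 0 ∨ i = 1 ∨ i = 2 := by omega
          rcases this with rfl | rfl | rfl
          · refine ⟨fun _ => ?_, fun hn => absurd (by decide) hn⟩
            simpa using ht.rot.rot
          · refine ⟨fun hn => absurd hn (by decide), fun _ => ?_⟩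
            rw [dual_dual]
            simpa using T0.swap23
          · refine ⟨fun _ => ?_, fun hn => absurd (by decide) hn⟩
            simpa using T1.swap12
    · have T1 : Tri M✶ (x 1) (x 2) (x 3) := (hch.2 1 (by omega)).2 (by decide)
      have T2 : Tri M (x 2) (x 3) (x 4) := (hch.2 2 (by omega)).1 (by decide)
      have hy3 : y ≠ x 3 := by
        rintro rfl
        have := tri_trans hd ht (b := x 2) (c := x 3) T1
          (hinj 0 (by omega) 1 (by omega) (by omega))
        exact w6 M h h5 T0 this
      have hy4 : y = x 4 := by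
        rcases w5 M h T2 ht.swap12 with h1 | h1 | h1 | h1
        · exact absurd h1 (hinj 3 (by omega) 0 (by omega) (by omega))
        · exact absurd h1.symm hy3
        · exact absurd h1 (hinj 4 (by omega) 0 (by omega) (by omega))
        · exact h1.symm
      subst hy4
      rcases Nat.lt_or_ge m 7 with hm7 | hm7
      · obtain ⟨z, hE, z0, z1, z2, z3, z4, hz1, hz2⟩ := case_five h h5 T0 T2 T1 ht
          ⟨hinj 0 (by omega) 3 (by omega) (by omega), hinj 1 (by omega) 4 (by omega) (by omega)⟩
        rcases Nat.lt_or_ge m 6 with hm6 | hm6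
        · exfalso
          have hm : m = 5 := by omega
          subst hm
          apply hmax1 (fun i => if i = 5 then z else x i)
          refine ⟨?_, ?_⟩
          · intro i hi j hj hij
            by_cases hi5 : i = 5
            · by_cases hj5 : j = 5
              · omega
              · exfalso
                simp only [hi5, hj5, if_true, if_false] at hij
                have : j < 5 := by omega
                interval_cases j <;> simp_all
            · by_cases hj5 : j = 5
              · exfalso
                simp only [hi5, hj5, if_true, if_false] at hij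
                have : i < 5 := by omega
                interval_cases i <;> simp_all
              · simp only [hi5, hj5, if_false] at hij
                exact hch.1 i (by omega) j (by omega) hij
          · intro i hi
            rcases Nat.lt_or_ge i 3 with hi3 | hi3
            · have := hch.2 i (by omega)
              beta_reduce
              rw [if_neg (by omega), if_neg (by omega), if_neg (by omega)]
              exact this
            · have hi' : i = 3 := by omega
              subst hi'
              refine ⟨fun hn => absurd hn (by decide), fun _ => ?_⟩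
              simpa using hz2
        · have hm : m = 6 := by omega
          subst hm
          refine ⟨by decide, le_rfl, ?_⟩
          have T3 : Tri M✶ (x 3) (x 4) (x 5) := (hch.2 3 (by omega)).2 (by decide)
          have hx5 : x 5 ∈ M.E := T3.2.2.1
          rw [hE] at hx5
          simp only [mem_insert_iff, mem_singleton_iff] at hx5
          rcases hx5 with h1 | h1 | h1 | h1 | h1 | h1
          · exact absurd h1 (hinj 5 (by omega) 0 (by omega) (by omega))
          · exact absurd h1 (hinj 5 (by omega) 1 (by omega) (by omega))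
          · exact absurd h1 (hinj 5 (by omega) 2 (by omega) (by omega))
          · exact absurd h1 (hinj 5 (by omega) 3 (by omega) (by omega))
          · exact absurd h1 (hinj 5 (by omega) 4 (by omega) (by omega))
          · rw [h1]
            exact hz1
      · exfalso
        have T4 : Tri M (x 4) (x 5) (x 6) := (hch.2 4 (by omega)).1 (by decide)
        rcases w5 M h T4 ht.rot.rot with h1 | h1 | h1 | h1
        · exact hinj 5 (by omega) 0 (by omega) (by omega) h1
        · exact hinj 5 (by omega) 2 (by omega) (by omega) h1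
        · exact hinj 6 (by omega) 0 (by omega) (by omega) h1
        · exact hinj 6 (by omega) 2 (by omega) (by omega) h1

theorem Ch.le {m : ℕ} (hch : ∃ x : ℕ → α, ∃ N : Matroid α, (N = M ∨ N = M✶) ∧ Ch N x m) (hm : 3 ≤ m) :
    m ≤ M.E.ncard := by
  obtain ⟨x, N, hN, hch⟩ := hch
  have hmem : ∀ i < m, x i ∈ M.E := by
    intro i hi
    have key : ∀ j, j + 2 < m → x j ∈ M.E ∧ x (j + 1) ∈ M.E ∧ x (j + 2) ∈ M.E := by
      intro j hj
      by_cases hev : Even j
      · have := (hch.2 j hj).1 hev
        rcases hN with rfl | rfl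
        · exact ⟨this.1, this.2.1, this.2.2.1⟩
        · exact ⟨this.1, this.2.1, this.2.2.1⟩
      · have := (hch.2 j hj).2 hev
        rcases hN with rfl | rfl
        · exact ⟨this.1, this.2.1, this.2.2.1⟩
        · exact ⟨this.1, this.2.1, this.2.2.1⟩
    rcases Nat.lt_or_ge (i + 2) m with h | h
    · exact (key i h).1
    · have := key (m - 3) (by omega)
      rcases Nat.lt_or_ge (i + 1) m with h' | h'
      · rw [show i = m - 3 + 1 by omega]
        exact this.2.1
      · rw [show i = m - 3 + 2 by omega]
        exact this.2.2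
  have h1 : (x '' (Finset.range m : Set ℕ)).ncard = m := by
    rw [InjOn.ncard_image, ncard_coe_finset, Finset.card_range]
    intro i hi j hj hij
    simp only [Finset.coe_range, mem_Iio] at hi hj
    exact hch.1 i hi j hj hij
  rw [← h1]
  apply ncard_le_ncard _ M.ground_finite
  rintro _ ⟨i, hi, rfl⟩
  simp only [Finset.coe_range, mem_Iio] at hi
  exact hmem i hi

/-- triangles: the third element is in the closure of the other two -/
theorem Tri.mem_closure {a b c : α} (h : TC4 M) (ht : Tri M a b c) : b ∈ M.closure {a, c} := by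
  obtain ⟨ha, hb, hc, hab, hac, hbc, hr⟩ := ht
  rw [mem_closure_iff_rk M hb, insert_comm, rk_pair h ha hc hac]
  exact hr

/-- rank of a cyclic chain -/
theorem cyc_rank (h : TC4 M) {x : ℕ → α} {n : ℕ} (hn : 1 ≤ n) (per : ∀ i, x (i + 2 * n) = x i)
    (tri : ∀ i, Even i → Tri M (x i) (x (i + 1)) (x (i + 2))) : rk M (range x) ≤ n := by
  have h1 : range x ⊆ M.closure ((fun i => x (2 * i)) '' (Finset.range n : Set ℕ)) := by
    have hmod : ∀ i q, x (i + 2 * n * q) = x i := by
      intro i q
      induction q with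
      | zero => simp
      | succ q ih => rw [show i + 2 * n * (q + 1) = (i + 2 * n * q) + 2 * n by ring, per, ih]
    have hE : ∀ i, x i ∈ M.E := by
      intro i
      rcases Nat.even_or_odd i with hev | ⟨b, hb⟩
      · exact (tri i hev).1
      · rw [hb]
        exact (tri (2 * b) ⟨b, by omega⟩).2.1
    have hsub : (fun i => x (2 * i)) '' (Finset.range n : Set ℕ) ⊆ M.E := by
      rintro _ ⟨i, -, rfl⟩
      exact hE _
    have heven : ∀ i, x (2 * i) ∈ (fun i => x (2 * i)) '' (Finset.range n : Set ℕ) := by
      intro i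
      refine ⟨i % n, ?_, ?_⟩
      · simp only [Finset.coe_range, mem_Iio]
        exact Nat.mod_lt _ (by omega)
      · show x (2 * (i % n)) = x (2 * i)
        have h2 := Nat.div_add_mod i n
        conv_rhs => rw [← h2]
        rw [show 2 * (n * (i / n) + i % n) = 2 * (i % n) + 2 * n * (i / n) by ring, hmod]
    rintro _ ⟨i, rfl⟩
    rcases Nat.even_or_odd i with ⟨b, hb⟩ | ⟨b, hb⟩
    · rw [show i = 2 * b by omega]
      exact M.subset_closure _ hsub (heven b)
    · have h2 := (tri (2 * b) ⟨b, by omega⟩).mem_closure h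
      rw [hb]
      refine M.closure_subset_closure ?_ h2
      rintro w (rfl | rfl)
      · exact heven b
      · rw [show 2 * b + 2 = 2 * (b + 1) by ring]
        exact heven (b + 1)
  have h2 := rk_mono M h1
  rw [rk_closure] at h2
  have hE : (fun i => x (2 * i)) '' (Finset.range n : Set ℕ) ⊆ M.E := by
    rintro _ ⟨i, -, rfl⟩
    exact (tri (2 * i) ⟨i, by omega⟩).1
  have h3 := rk_le_ncard M hE
  have h4 : ((fun i => x (2 * i)) '' (Finset.range n : Set ℕ)).ncard ≤ n := by
    refine le_trans (ncard_image_le (Finset.finite_toSet _)) ?_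
    rw [ncard_coe_finset, Finset.card_range]
  omega

/-- all elements essential: cyclic structure, for a maximal chain -/
theorem cyc_of_max (h : TC4 M) (h5 : 5 ≤ M.E.ncard) (hess : ∀ e ∈ M.E, Ess M e) {x : ℕ → α}
    {m : ℕ} (hch : Ch M x m) (h3 : 3 ≤ m) (hmax1 : ∀ x', ¬ Ch M x' (m + 1))
    (hmax2 : ∀ x', ¬ Ch M✶ x' (m + 1)) : ∃ n x, Cyc M n x := by
  obtain ⟨hev, hm6, ht1⟩ := front h h5 hess hch h3 hmax1 hmax2
  have hd : TC4 M✶ := w2' M h
  obtain ⟨-, -, ht2⟩ := front (M := M✶) hd h5 (fun e he => (hess e he).dual) (hch.rev hev) h3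
    hmax2 (by rw [dual_dual]; exact hmax1)
  rw [dual_dual] at ht2
  simp only [Nat.sub_zero, Nat.sub_self] at ht2
  obtain ⟨n, hn⟩ := hev
  have hm0 : 0 < m := by omega
  have hpar : ∀ i, Even (i % m) ↔ Even i := by
    intro i
    have h1 := Nat.div_add_mod i m
    constructor
    · rintro ⟨a, ha⟩
      have h2 : Even (m * (i / m)) := ⟨n * (i / m), by rw [hn]; ring⟩
      obtain ⟨b, hb⟩ := h2
      exact ⟨b + a, by omega⟩
    · rintro ⟨a, ha⟩
      have h2 : Even (m * (i / m)) := ⟨n * (i / m), by rw [hn]; ring⟩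
      obtain ⟨b, hb⟩ := h2
      exact ⟨a - b, by omega⟩
  have key : ∀ i < m, (Even i → Tri M (x i) (x ((i + 1) % m)) (x ((i + 2) % m))) ∧
      (¬ Even i → Tri M✶ (x i) (x ((i + 1) % m)) (x ((i + 2) % m))) := by
    intro i hi
    rcases Nat.lt_or_ge (i + 2) m with h' | h'
    · rw [Nat.mod_eq_of_lt (by omega), Nat.mod_eq_of_lt (by omega)]
      exact hch.2 i h'
    · rcases Nat.lt_or_ge (i + 1) m with h'' | h''
      · have hi' : i = m - 2 := by omega
        have e1 : (i + 1) % m = m - 1 := by rw [Nat.mod_eq_of_lt h'']; omega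
        have e2 : (i + 2) % m = 0 := by rw [show i + 2 = m by omega]; exact Nat.mod_self m
        rw [e1, e2]
        refine ⟨fun _ => ?_, fun hn' => absurd ⟨n - 1, by omega⟩ hn'⟩
        have := ht2.swap12
        rw [show m - 1 - 1 = i by omega] at this
        exact this
      · have hi' : i = m - 1 := by omega
        have e1 : (i + 1) % m = 0 := by rw [show i + 1 = m by omega]; exact Nat.mod_self m
        have e2 : (i + 2) % m = 1 := by
          rw [show i + 2 = 1 + m by omega, Nat.add_mod_right, Nat.mod_eq_of_lt (by omega)]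
        rw [e1, e2]
        refine ⟨fun hn' => ?_, fun _ => ?_⟩
        · exfalso
          obtain ⟨a, ha⟩ := hn'
          omega
        · rw [hi']
          exact ht1.rot.rot
  have hm1 : ∀ i j, (i % m + j) % m = (i + j) % m := fun i j => Nat.mod_add_mod i m j
  have hper : ∀ i, x ((i + 2 * n) % m) = x (i % m) := by
    intro i
    rw [show i + 2 * n = i + m by omega, Nat.add_mod_right]
  have htri : ∀ i, Even i → Tri M (x (i % m)) (x ((i + 1) % m)) (x ((i + 2) % m)) := by
    intro i hi
    have := (key (i % m) (Nat.mod_lt _ hm0)).1 ((hpar i).2 hi)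
    rw [hm1, hm1] at this
    exact this
  have htrd : ∀ i, ¬ Even i → Tri M✶ (x (i % m)) (x ((i + 1) % m)) (x ((i + 2) % m)) := by
    intro i hi
    have := (key (i % m) (Nat.mod_lt _ hm0)).2 (fun h' => hi ((hpar i).1 h'))
    rw [hm1, hm1] at this
    exact this
  let X : ℕ → α := fun i => x (i % m)
  have hr1 : rk M (range X) ≤ n := cyc_rank h (x := X) (by omega) hper htri
  have hr2 : rk M✶ (range X) ≤ n := by
    have hr := cyc_rank hd (x := fun i => X (i + 1)) (n := n) (by omega) (fun i => by
      show x ((i + 2 * n + 1) % m) = x ((i + 1) % m)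
      rw [show i + 2 * n + 1 = i + 1 + 2 * n by ring]
      exact hper (i + 1)) (fun i hi => htrd (i + 1) (by rw [Nat.even_add_one, not_not]; exact hi))
    refine le_trans (rk_mono _ ?_) hr
    rintro _ ⟨i, rfl⟩
    refine ⟨i + (m - 1), ?_⟩
    show x ((i + (m - 1) + 1) % m) = x (i % m)
    rw [show i + (m - 1) + 1 = i + m by omega, Nat.add_mod_right]
  have hsub : range X ⊆ M.E := by
    rintro _ ⟨i, rfl⟩
    by_cases hi : Even i
    · exact (htri i hi).1
    · exact (htrd i hi).1
  have hcard : (range X).ncard = m := by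
    have : range X = x '' (Finset.range m : Set ℕ) := by
      ext w
      constructor
      · rintro ⟨i, rfl⟩
        exact ⟨i % m, by simp only [Finset.coe_range, mem_Iio]; exact Nat.mod_lt _ hm0, rfl⟩
      · rintro ⟨i, hi, rfl⟩
        simp only [Finset.coe_range, mem_Iio] at hi
        exact ⟨i, by show x (i % m) = x i; rw [Nat.mod_eq_of_lt hi]⟩
    rw [this, InjOn.ncard_image, ncard_coe_finset, Finset.card_range]
    intro i hi j hj hij
    simp only [Finset.coe_range, mem_Iio] at hi hj
    exact hch.1 i hi j hj hij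
  have hdual := rk_dual M hsub
  have hdiff : (M.E \ range X).ncard + m = M.E.ncard := by
    rw [← hcard, ncard_sdiff_add_ncard_of_subset hsub M.ground_finite]
  have hle : (M.E \ range X).ncard = 0 := by
    by_contra hc
    have := (h.1 _ hsub).1 (by omega) (by omega)
    omega
  have hE : range X = M.E := by
    have : M.E \ range X = ∅ := by
      rwa [ncard_eq_zero (M.ground_finite.subset sdiff_subset)] at hle
    exact Subset.antisymm hsub (sdiff_eq_empty.1 this)
  have hsum := rk_dual_ground M
  rw [hE] at hr1 hr2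
  refine ⟨n, X, ⟨by omega, hper, ?_, hE, by omega, htri, htrd⟩⟩
  intro i hi j hj hij
  have hi' : i < m := by omega
  have hj' : j < m := by omega
  apply hch.1 i hi' j hj'
  have : x (i % m) = x (j % m) := hij
  rwa [Nat.mod_eq_of_lt hi', Nat.mod_eq_of_lt hj'] at this

theorem Cyc.card {n : ℕ} {x : ℕ → α} (h : Cyc M n x) : M.E.ncard = 2 * n := by
  have h3 := h.three
  have : M.E = x '' (Finset.range (2 * n) : Set ℕ) := by
    rw [← h.ground]
    have hmod : ∀ i q, x (i + 2 * n * q) = x i := by
      intro i q
      induction q with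
      | zero => simp
      | succ q ih => rw [show i + 2 * n * (q + 1) = (i + 2 * n * q) + 2 * n by ring, h.per, ih]
    ext w
    constructor
    · rintro ⟨i, rfl⟩
      refine ⟨i % (2 * n), ?_, ?_⟩
      · simp only [Finset.coe_range, mem_Iio]
        exact Nat.mod_lt _ (by omega)
      · have h2 := Nat.mod_add_div i (2 * n)
        conv_rhs => rw [← h2]
        rw [hmod]
    · rintro ⟨i, -, rfl⟩
      exact ⟨i, rfl⟩
  rw [this, InjOn.ncard_image, ncard_coe_finset, Finset.card_range]
  intro i hi j hj hij
  simp only [Finset.coe_range, mem_Iio] at hi hj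
  exact h.inj i hi j hj hij

theorem Cyc.dual {n : ℕ} {x : ℕ → α} (h : Cyc M✶ n x) : Cyc M n (fun i => x (i + 1)) := by
  have hc := h.card
  have h3 := h.three
  have hmod : ∀ i q, x (i + 2 * n * q) = x i := by
    intro i q
    induction q with
    | zero => simp
    | succ q ih => rw [show i + 2 * n * (q + 1) = (i + 2 * n * q) + 2 * n by ring, h.per, ih]
  refine ⟨h3, ?_, ?_, ?_, ?_, ?_, ?_⟩
  · intro i
    show x (i + 2 * n + 1) = x (i + 1)
    rw [show i + 2 * n + 1 = i + 1 + 2 * n by ring, h.per]
  · intro i hi j hj hij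
    have hij' : x (i + 1) = x (j + 1) := hij
    rcases Nat.lt_or_ge (i + 1) (2 * n) with h1 | h1
    · rcases Nat.lt_or_ge (j + 1) (2 * n) with h2 | h2
      · have := h.inj _ h1 _ h2 hij'
        omega
      · rw [show j + 1 = 0 + 2 * n by omega, h.per] at hij'
        have := h.inj _ h1 0 (by omega) hij'
        omega
    · rcases Nat.lt_or_ge (j + 1) (2 * n) with h2 | h2
      · rw [show i + 1 = 0 + 2 * n by omega, h.per] at hij'
        have := h.inj 0 (by omega) _ h2 hij'
        omega
      · omega
  · have h1 := h.ground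
    rw [dual_ground] at h1
    rw [← h1]
    ext w
    constructor
    · rintro ⟨i, rfl⟩
      exact ⟨i + 1, rfl⟩
    · rintro ⟨i, rfl⟩
      refine ⟨i + (2 * n - 1), ?_⟩
      show x (i + (2 * n - 1) + 1) = x i
      rw [show i + (2 * n - 1) + 1 = i + 2 * n by omega, h.per]
  · have h1 := rk_dual_ground M
    have h2 := h.rank
    rw [dual_ground] at h2 hc
    omega
  · intro i hi
    have := h.trd (i + 1) (by rw [Nat.even_add_one, not_not]; exact hi)
    rw [dual_dual] at this
    exact this
  · intro i hi
    exact h.tri (i + 1) (by rw [Nat.even_add_one]; exact hi)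

/-- Tutte's wheels and whirls theorem, first form: either some single-element deletion or
contraction is 3-connected, or the matroid has the cyclic structure of a wheel or a whirl -/
theorem tutte_cyc (h : ThreeConn M) (h5 : 5 ≤ M.E.ncard) :
    (∃ x ∈ M.E, ThreeConn (M ＼ {x})) ∨ (∃ x ∈ M.E, ThreeConn (M ／ {x})) ∨
      ∃ n x, Cyc M n x := by
  classical
  by_contra hcon
  push Not at hcon
  obtain ⟨h1, h2, hcyc⟩ := hcon
  have hT : TC4 M := ⟨h, by omega⟩
  have hTd : TC4 M✶ := w2' M hT
  have hess : ∀ e ∈ M.E, Ess M e := fun e he => ⟨h1 e he, h2 e he⟩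
  let P : ℕ → Prop := fun m => 3 ≤ m ∧ ∃ x : ℕ → α, ∃ N : Matroid α, (N = M ∨ N = M✶) ∧ Ch N x m
  have hbd : ∀ m, P m → m ≤ M.E.ncard := fun m hm => Ch.le hm.2 hm.1
  have hP3 : P 3 := by
    obtain ⟨e, he⟩ : M.E.Nonempty := by
      rw [← ncard_pos M.ground_finite]
      omega
    have key : ∀ N : Matroid α, ∀ a b c, Tri N a b c →
        Ch N (fun i => if i = 0 then a else if i = 1 then b else c) 3 := by
      intro N a b c ht
      obtain ⟨-, -, -, hab, hac, hbc, -⟩ := id ht
      refine ⟨?_, ?_⟩
      · intro i hi j hj hij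
        interval_cases i <;> interval_cases j <;> simp at hij ⊢ <;>
          first
          | exact hab hij | exact hac hij | exact hbc hij
          | exact hab hij.symm | exact hac hij.symm | exact hbc hij.symm
      · intro i hi
        have : i = 0 := by omega
        subst this
        refine ⟨fun _ => ?_, fun hn => absurd (by decide) hn⟩
        simpa using ht
    obtain ⟨a, b, ht | ht⟩ := ess_tri M hT he (hess e he)
    · exact ⟨le_rfl, _, M, Or.inl rfl, key M _ _ _ ht⟩
    · exact ⟨le_rfl, _, M✶, Or.inr rfl, key M✶ _ _ _ ht⟩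
  have hm := Nat.findGreatest_spec (P := P) (hbd 3 hP3) hP3
  set m := Nat.findGreatest P M.E.ncard with hmdef
  have hmax : ∀ m', P m' → m' ≤ m := fun m' hm' => Nat.le_findGreatest (hbd m' hm') hm'
  obtain ⟨hm3, x, N, hN, hch⟩ := hm
  have hmax1 : ∀ x', ¬ Ch M x' (m + 1) := by
    intro x' hx'
    have := hmax (m + 1) ⟨by omega, x', M, Or.inl rfl, hx'⟩
    omega
  have hmax2 : ∀ x', ¬ Ch M✶ x' (m + 1) := by
    intro x' hx'
    have := hmax (m + 1) ⟨by omega, x', M✶, Or.inr rfl, hx'⟩
    omega
  rcases hN with rfl | rfl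
  · obtain ⟨n, x', hc⟩ := cyc_of_max hT h5 hess hch hm3 hmax1 hmax2
    exact hcyc n x' hc
  · obtain ⟨n, x', hc⟩ := cyc_of_max (M := M✶) hTd h5 (fun e he => (hess e he).dual) hch hm3
      hmax2 (by rw [dual_dual]; exact hmax1)
    exact hcyc n _ hc.dual

/-- 3-connected with four elements: the uniform matroid of rank two -/
theorem four_elements (h : ThreeConn M) (h4 : M.E.ncard = 4) (I : Set α) :
    M.Indep I ↔ I ⊆ M.E ∧ I.ncard ≤ 2 := by
  have hT : TC4 M := ⟨h, by omega⟩
  have hTd : TC4 M✶ := w2' M hT
  obtain ⟨A, hA, hA2⟩ := exists_subset_card_eq (s := M.E) (n := 2) (by omega)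
  have h1 := w1 M hT hA (by omega)
  have h2 := w1 M✶ hTd hA (by omega)
  have h3 := rk_le_rk M A
  have h3' := rk_le_rk M✶ A
  rw [dual_ground] at h3'
  have h5 := rk_dual_ground M
  constructor
  · intro hI
    refine ⟨hI.subset_ground, ?_⟩
    have h6 := Indep.rk_eq hI
    have h7 := rk_le_rk M I
    omega
  · rintro ⟨hI, hc⟩
    rw [indep_iff_rk M hI]
    exact w1 M hT hI hc

end QG
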