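import Pool.Agent.Lib.QG.W3
import Pool.Agent.Lib.QG.FW
set_option autoImplicit false
set_option linter.unusedSectionVars false

/-! Row W4 of part (T) (helper58): a cyclic structure gives an `M(K4)` minor or a whirl.

`PathP P a b m`: the family `P` of (independent) sets behaves along the path `a 0, b 0, a 1, b 1, …,
a m` like the independent sets of the cycle matroid of a fan. Such a family is unique. -/

namespace QG
open Set Matroid Submodule

section path
variable {α : Type}

/-- the labels before `a j` -/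
def W4PD (a b : ℕ → α) (j : ℕ) : Set α := a '' Iic j ∪ b '' Iio j

theorem W4PD_zero (a b : ℕ → α) : W4PD a b 0 = {a 0} := by
  ext x
  simp only [W4PD, mem_union, mem_image, mem_Iic, mem_Iio, mem_singleton_iff, Nat.le_zero,
    Nat.not_lt_zero, false_and, exists_false, or_false]
  constructor
  · rintro ⟨i, rfl, rfl⟩; rfl
  · rintro rfl; exact ⟨0, rfl, rfl⟩

theorem W4PD_succ (a b : ℕ → α) (j : ℕ) :
    W4PD a b (j + 1) = insert (b j) (insert (a (j + 1)) (W4PD a b j)) := by
  ext x
  simp only [W4PD, mem_union, mem_image, mem_Iic, mem_Iio, mem_insert_iff]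
  constructor
  · rintro (⟨i, hi, rfl⟩ | ⟨i, hi, rfl⟩)
    · rcases Nat.lt_or_ge j i with h | h
      · have : i = j + 1 := by omega
        subst this
        exact Or.inr (Or.inl rfl)
      · exact Or.inr (Or.inr (Or.inl ⟨i, h, rfl⟩))
    · rcases Nat.lt_or_ge i j with h | h
      · exact Or.inr (Or.inr (Or.inr ⟨i, h, rfl⟩))
      · have : i = j := by omega
        subst this
        exact Or.inl rfl
  · rintro (rfl | rfl | ⟨i, hi, rfl⟩ | ⟨i, hi, rfl⟩)
    · exact Or.inr ⟨j, by omega, rfl⟩
    · exact Or.inl ⟨j + 1, le_rfl, rfl⟩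
    · exact Or.inl ⟨i, by omega, rfl⟩
    · exact Or.inr ⟨i, by omega, rfl⟩

/-- the family `P` along the path -/
structure PathP (P : Set α → Prop) (a b : ℕ → α) (m : ℕ) : Prop where
  e0 : P ∅
  e1 : P {a 0}
  addb : ∀ j < m, ∀ L, L ⊆ W4PD a b j → (P (insert (b j) L) ↔ P L)
  adda : ∀ j < m, ∀ L, L ⊆ W4PD a b j → (P (insert (a (j + 1)) L) ↔ P L)
  both : ∀ j < m, ∀ L, L ⊆ W4PD a b j →
    (P (insert (b j) (insert (a (j + 1)) L)) ↔ a j ∉ L ∧ P (insert (a j) L))

/-- **Uniqueness.** -/
theorem PathP.unique {P P' : Set α → Prop} {a b : ℕ → α} {m : ℕ} (h : PathP P a b m)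
    (h' : PathP P' a b m) : ∀ j ≤ m, ∀ L, L ⊆ W4PD a b j → (P L ↔ P' L) := by
  intro j
  induction j with
  | zero =>
    intro _ L hL
    rw [W4PD_zero, subset_singleton_iff_eq] at hL
    rcases hL with rfl | rfl
    · exact ⟨fun _ => h'.e0, fun _ => h.e0⟩
    · exact ⟨fun _ => h'.e1, fun _ => h.e1⟩
  | succ j ih =>
    intro hj L hL
    have ih' := ih (by omega)
    rw [W4PD_succ] at hL
    have hjm : j < m := by omega
    have haD : a j ∈ W4PD a b j := Or.inl ⟨j, mem_Iic.2 le_rfl, rfl⟩
    -- split off the two last elements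
    set L0 := L ∩ W4PD a b j with hL0
    have hL0s : L0 ⊆ W4PD a b j := inter_subset_right
    by_cases hb : b j ∈ L
    · by_cases ha : a (j + 1) ∈ L
      · have hLeq : L = insert (b j) (insert (a (j + 1)) L0) := by
          apply Subset.antisymm
          · intro x hx
            rcases hL hx with rfl | rfl | hx'
            · exact mem_insert _ _
            · exact mem_insert_of_mem _ (mem_insert _ _)
            · exact mem_insert_of_mem _ (mem_insert_of_mem _ ⟨hx, hx'⟩)
          · rintro x (rfl | rfl | hx)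
            · exact hb
            · exact ha
            · exact hx.1
        rw [hLeq, h.both j hjm L0 hL0s, h'.both j hjm L0 hL0s,
          ih' _ (insert_subset haD hL0s)]
      · by_cases hpar : a (j + 1) = b j
        · exact absurd (hpar ▸ hb) ha
        have hLeq : L = insert (b j) L0 := by
          apply Subset.antisymm
          · intro x hx
            rcases hL hx with rfl | rfl | hx'
            · exact mem_insert _ _
            · exact absurd hx ha
            · exact mem_insert_of_mem _ ⟨hx, hx'⟩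
          · rintro x (rfl | hx)
            · exact hb
            · exact hx.1
        rw [hLeq, h.addb j hjm L0 hL0s, h'.addb j hjm L0 hL0s, ih' _ hL0s]
    · by_cases ha : a (j + 1) ∈ L
      · have hLeq : L = insert (a (j + 1)) L0 := by
          apply Subset.antisymm
          · intro x hx
            rcases hL hx with rfl | rfl | hx'
            · exact absurd hx hb
            · exact mem_insert _ _
            · exact mem_insert_of_mem _ ⟨hx, hx'⟩
          · rintro x (rfl | hx)
            · exact ha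
            · exact hx.1
        rw [hLeq, h.adda j hjm L0 hL0s, h'.adda j hjm L0 hL0s, ih' _ hL0s]
      · have hLeq : L = L0 := by
          apply Subset.antisymm
          · intro x hx
            rcases hL hx with rfl | rfl | hx'
            · exact absurd hx hb
            · exact absurd hx ha
            · exact ⟨hx, hx'⟩
          · exact inter_subset_left
        rw [hLeq, ih' _ hL0s]

/-- the matroid side -/
theorem pathP_matroid (M : Matroid α) [M.Finite] {a b : ℕ → α} {m : ℕ}
    (haE : ∀ j ≤ m, a j ∈ M.E)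
    (hna : M.Indep {a 0})
    (hn : ∀ j < m, a (j + 1) ∉ M.closure (a '' Iic j))
    (h1 : ∀ j < m, b j ∈ M.closure {a j, a (j + 1)})
    (h2 : ∀ j < m, a j ∈ M.closure {b j, a (j + 1)})
    (h3 : ∀ j < m, a (j + 1) ∈ M.closure {a j, b j}) :
    PathP M.Indep a b m := by
  have hbE : ∀ j < m, b j ∈ M.E := fun j hj => M.closure_subset_ground _ (h1 j hj)
  -- the closure of the prefix
  have hcl : ∀ j ≤ m, W4PD a b j ⊆ M.closure (a '' Iic j) := by
    intro j hj x hx
    have hsub : a '' Iic j ⊆ M.E := by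
      rintro _ ⟨i, hi, rfl⟩
      exact haE i (le_trans (mem_Iic.1 hi) hj)
    rcases hx with hx | ⟨i, hi, rfl⟩
    · exact M.mem_closure_of_mem hx
    · have hi' : i < j := mem_Iio.1 hi
      refine M.closure_subset_closure ?_ (h1 i (lt_of_lt_of_le hi' hj))
      rintro _ (rfl | rfl)
      · exact ⟨i, mem_Iic.2 hi'.le, rfl⟩
      · exact ⟨i + 1, mem_Iic.2 hi', rfl⟩
  have hclD : ∀ j ≤ m, ∀ L, L ⊆ W4PD a b j → M.closure L ⊆ M.closure (a '' Iic j) :=
    fun j hj L hL => M.closure_subset_closure_of_subset_closure (hL.trans (hcl j hj))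
  have hDE : ∀ j ≤ m, W4PD a b j ⊆ M.E := fun j hj =>
    (hcl j hj).trans (M.closure_subset_ground _)
  have haD : ∀ j, a j ∈ W4PD a b j := fun j => Or.inl ⟨j, mem_Iic.2 le_rfl, rfl⟩
  have hb' : ∀ j < m, b j ∉ M.closure (a '' Iic j) := by
    intro j hj hcon
    refine hn j hj (M.closure_subset_closure_of_subset_closure ?_ (h3 j hj))
    rintro _ (rfl | rfl)
    · exact hcl j hj.le (haD j)
    · exact hcon
  have hb2 : ∀ j < m, ∀ L, L ⊆ W4PD a b j → b j ∉ M.closure L := fun j hj L hL hc =>
    hb' j hj (hclD j hj.le L hL hc)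
  have ha2 : ∀ j < m, ∀ L, L ⊆ W4PD a b j → a (j + 1) ∉ M.closure L := fun j hj L hL hc =>
    hn j hj (hclD j hj.le L hL hc)
  have hind : ∀ x L, x ∈ M.E → x ∉ M.closure L → L ⊆ M.E → (M.Indep (insert x L) ↔ M.Indep L) := by
    intro x L hx hxL hL
    constructor
    · intro h; exact h.subset (subset_insert _ _)
    · intro h
      exact (h.insert_indep_iff).2 (Or.inl ⟨hx, hxL⟩)
  refine ⟨M.empty_indep, hna, fun j hj L hL => ?_, fun j hj L hL => ?_, fun j hj L hL => ?_⟩
  · exact hind _ _ (hbE j hj) (hb2 j hj L hL) (hL.trans (hDE j hj.le))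
  · exact hind _ _ (haE _ hj) (ha2 j hj L hL) (hL.trans (hDE j hj.le))
  · have hLE := hL.trans (hDE j hj.le)
    have hLa : insert (a j) L ⊆ W4PD a b j := insert_subset (haD j) hL
    have hajE := haE j hj.le
    have hfin : ∀ X ⊆ M.E, X.Finite := fun X hX => M.ground_finite.subset hX
    -- the closures of the two sets
    have hceq : M.closure (insert (b j) (insert (a (j + 1)) L))
        = M.closure (insert (b j) (insert (a j) L)) := by
      apply Subset.antisymm
      · refine M.closure_subset_closure_of_subset_closure ?_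
        have h0 : insert (b j) (insert (a j) L) ⊆ M.E :=
          insert_subset (hbE j hj) (insert_subset hajE hLE)
        rintro x (rfl | rfl | hx)
        · exact M.mem_closure_of_mem (mem_insert _ _) h0
        · refine M.closure_subset_closure ?_ (h3 j hj)
          rintro _ (rfl | rfl)
          · exact mem_insert_of_mem _ (mem_insert _ _)
          · exact mem_insert _ _
        · exact M.mem_closure_of_mem (mem_insert_of_mem _ (mem_insert_of_mem _ hx)) h0
      · refine M.closure_subset_closure_of_subset_closure ?_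
        have h0 : insert (b j) (insert (a (j + 1)) L) ⊆ M.E :=
          insert_subset (hbE j hj) (insert_subset (haE _ hj) hLE)
        rintro x (rfl | rfl | hx)
        · exact M.mem_closure_of_mem (mem_insert _ _) h0
        · refine M.closure_subset_closure ?_ (h2 j hj)
          rintro _ (rfl | rfl)
          · exact mem_insert _ _
          · exact mem_insert_of_mem _ (mem_insert _ _)
        · exact M.mem_closure_of_mem (mem_insert_of_mem _ (mem_insert_of_mem _ hx)) h0
    have hrk : rk M (insert (b j) (insert (a (j + 1)) L))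
        = rk M (insert (b j) (insert (a j) L)) := by
      rw [← rk_closure, hceq, rk_closure]
    have hbL : b j ∉ L := fun h => hb2 j hj L hL (M.mem_closure_of_mem h hLE)
    have haL : a (j + 1) ∉ L := fun h => ha2 j hj L hL (M.mem_closure_of_mem h hLE)
    have hba : b j ≠ a (j + 1) := by
      intro h
      have h4 := h2 j hj
      rw [h, pair_eq_singleton] at h4
      -- `a j` is in the closure of `a (j+1)`
      have h5 : M.Indep {a j, a (j + 1)} := by
        have h6 := (hind (a (j + 1)) {a j} (haE _ hj)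
          (ha2 j hj _ (singleton_subset_iff.2 (haD j))) (singleton_subset_iff.2 hajE))
        rw [pair_comm]
        refine h6.2 ?_
        -- `a j` is not a loop
        rcases Nat.eq_zero_or_pos j with h0 | h0
        · rw [h0]; exact hna
        · obtain ⟨j', rfl⟩ := Nat.exists_eq_succ_of_ne_zero h0.ne'
          rw [indep_singleton]
          have h7 : a (j' + 1) ∉ M.closure ∅ := fun hc =>
            hn j' (by omega) (M.closure_subset_closure (empty_subset _) hc)
          rw [isNonloop_iff]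
          exact ⟨fun hl => h7 hl, hajE⟩
      have h6 := h5.notMem_closure_sdiff_of_mem (mem_insert _ _)
      apply h6
      have hne : a j ≠ a (j + 1) := fun he => ha2 j hj {a (j + 1)}
        (by rw [← he]; exact singleton_subset_iff.2 (haD j))
        (M.mem_closure_of_mem (mem_singleton _) (singleton_subset_iff.2 (haE _ hj)))
      rw [insert_sdiff_of_mem _ (mem_singleton _), sdiff_singleton_eq_self (by simpa using hne)]
      exact h4
    have hcard : (insert (b j) (insert (a (j + 1)) L)).ncard = L.ncard + 2 := by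
      rw [ncard_insert_of_notMem _ ((hfin L hLE).insert _), ncard_insert_of_notMem haL (hfin L hLE)]
      rintro (h | h)
      · exact hba h
      · exact hbL h
    have hrk2 : rk M (insert (b j) (insert (a j) L)) = rk M (insert (a j) L) + 1 := by
      have h4 := hb2 j hj _ hLa
      have h5 : rk M (insert (b j) (insert (a j) L)) ≠ rk M (insert (a j) L) := fun h =>
        h4 ((mem_closure_iff_rk M (hbE j hj) _).2 h)
      have h6 := rk_insert_le M (b j) (insert (a j) L)
      have h7 := rk_mono M (subset_insert (b j) (insert (a j) L))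
      omega
    rw [indep_iff_rk M (insert_subset (hbE j hj) (insert_subset (haE _ hj) hLE)), hrk, hrk2, hcard]
    constructor
    · intro h
      have h5 : rk M (insert (a j) L) = L.ncard + 1 := by omega
      have h6 : a j ∉ L := by
        intro h7
        rw [insert_eq_of_mem h7] at h5
        have := rk_le_ncard M hLE
        omega
      refine ⟨h6, ?_⟩
      rw [indep_iff_rk M (insert_subset hajE hLE), h5, ncard_insert_of_notMem h6 (hfin L hLE)]
    · rintro ⟨h6, h⟩
      rw [indep_iff_rk M (insert_subset hajE hLE), ncard_insert_of_notMem h6 (hfin L hLE)] at h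
      omega

/-- the vector side -/
theorem pathP_vectors {K W : Type} [Field K] [AddCommGroup W] [Module K W] {f : α → W}
    {a b : ℕ → α} {m : ℕ} (h0 : f (a 0) ≠ 0)
    (hn : ∀ j < m, f (a (j + 1)) ∉ span K (f '' (a '' Iic j)))
    {x y : ℕ → K} (hx : ∀ j < m, x j ≠ 0) (hy : ∀ j < m, y j ≠ 0)
    (hb : ∀ j < m, f (b j) = x j • f (a j) + y j • f (a (j + 1))) :
    PathP (LinearIndepOn K f) a b m := by
  have hcl : ∀ j ≤ m, f '' W4PD a b j ⊆ span K (f '' (a '' Iic j)) := by
    rintro j hj _ ⟨z, hz, rfl⟩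
    rcases hz with hz | ⟨i, hi, rfl⟩
    · exact subset_span ⟨z, hz, rfl⟩
    · have hi' : i < j := mem_Iio.1 hi
      rw [hb i (lt_of_lt_of_le hi' hj)]
      exact add_mem (smul_mem _ _ (subset_span ⟨_, ⟨i, mem_Iic.2 hi'.le, rfl⟩, rfl⟩))
        (smul_mem _ _ (subset_span ⟨_, ⟨i + 1, mem_Iic.2 hi', rfl⟩, rfl⟩))
  have hsp : ∀ j ≤ m, ∀ L, L ⊆ W4PD a b j → span K (f '' L) ≤ span K (f '' (a '' Iic j)) :=
    fun j hj L hL => span_le.2 ((image_mono hL).trans (hcl j hj))
  have haD : ∀ j, a j ∈ W4PD a b j := fun j => Or.inl ⟨j, mem_Iic.2 le_rfl, rfl⟩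
  have haS : ∀ j ≤ m, f (a j) ∈ span K (f '' (a '' Iic j)) := fun j hj =>
    hcl j hj ⟨_, haD j, rfl⟩
  have hb' : ∀ j < m, f (b j) ∉ span K (f '' (a '' Iic j)) := by
    intro j hj hcon
    refine hn j hj ?_
    have h1 : f (a (j + 1)) = (y j)⁻¹ • (f (b j) - x j • f (a j)) := by
      rw [hb j hj, add_sub_cancel_left, smul_smul, inv_mul_cancel₀ (hy j hj), one_smul]
    rw [h1]
    exact smul_mem _ _ (sub_mem hcon (smul_mem _ _ (haS j hj.le)))
  have hb2 : ∀ j < m, ∀ L, L ⊆ W4PD a b j → f (b j) ∉ span K (f '' L) := fun j hj L hL hc =>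
    hb' j hj (hsp j hj.le L hL hc)
  have ha2 : ∀ j < m, ∀ L, L ⊆ W4PD a b j → f (a (j + 1)) ∉ span K (f '' L) := fun j hj L hL hc =>
    hn j hj (hsp j hj.le L hL hc)
  have hins : ∀ z L, f z ∉ span K (f '' L) →
      (LinearIndepOn K f (insert z L) ↔ LinearIndepOn K f L) := by
    intro z L hz
    have hzL : z ∉ L := fun h => hz (subset_span ⟨z, h, rfl⟩)
    rw [linearIndepOn_insert hzL]
    exact ⟨fun h => h.1, fun h => ⟨h, hz⟩⟩
  refine ⟨linearIndepOn_empty K f, ?_, fun j hj L hL => hins _ _ (hb2 j hj L hL),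
    fun j hj L hL => hins _ _ (ha2 j hj L hL), fun j hj L hL => ?_⟩
  · rw [linearIndepOn_singleton_iff]
    exact h0
  · have hbL : b j ∉ L := fun h => hb2 j hj L hL (subset_span ⟨_, h, rfl⟩)
    have hba : b j ≠ a (j + 1) := by
      intro h
      have h1 := hb j hj
      rw [h] at h1
      -- `(1 - y) a' = x a`
      by_cases hy1 : y j = 1
      · rw [hy1, one_smul] at h1
        have h2 : x j • f (a j) = 0 := by
          have := left_eq_add.1 (h1.trans (add_comm _ _))
          exact this
        rcases smul_eq_zero.1 h2 with h3 | h3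
        · exact hx j hj h3
        · rcases Nat.eq_zero_or_pos j with h4 | h4
          · rw [h4] at h3; exact h0 h3
          · obtain ⟨j', rfl⟩ := Nat.exists_eq_succ_of_ne_zero h4.ne'
            apply hn j' (by omega)
            show f (a (j' + 1)) ∈ _
            have h3' : f (a (j' + 1)) = 0 := h3
            rw [h3']
            exact zero_mem _
      · have h2 : (1 - y j) • f (a (j + 1)) = x j • f (a j) := by
          rw [sub_smul, one_smul]
          nth_rewrite 1 [h1]
          abel
        refine hn j hj ?_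
        have h3 : f (a (j + 1)) = (1 - y j)⁻¹ • (x j • f (a j)) := by
          rw [← h2, smul_smul, inv_mul_cancel₀ (sub_ne_zero.2 (Ne.symm hy1)), one_smul]
        rw [h3]
        exact smul_mem _ _ (smul_mem _ _ (haS j hj.le))
    have hbL' : b j ∉ insert (a (j + 1)) L := by
      rintro (h | h)
      · exact hba h
      · exact hbL h
    rw [linearIndepOn_insert hbL', hins _ _ (ha2 j hj L hL)]
    -- membership of `b j`
    have hmem : f (b j) ∈ span K (f '' insert (a (j + 1)) L) ↔ f (a j) ∈ span K (f '' L) := by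
      rw [image_insert_eq]
      constructor
      · intro h
        have h1 : f (a j) ∈ span K (insert (f (a (j + 1))) (f '' L)) := by
          have h2 : f (a j) = (x j)⁻¹ • (f (b j) - y j • f (a (j + 1))) := by
            rw [hb j hj, add_sub_cancel_right, smul_smul, inv_mul_cancel₀ (hx j hj), one_smul]
          rw [h2]
          exact smul_mem _ _ (sub_mem h (smul_mem _ _ (subset_span (mem_insert _ _))))
        rw [mem_span_insert] at h1
        obtain ⟨c, z, hz, hc⟩ := h1
        by_cases hc0 : c = 0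
        · rw [hc, hc0, zero_smul, zero_add]; exact hz
        · exfalso
          refine hn j hj ?_
          have h2 : f (a (j + 1)) = c⁻¹ • (f (a j) - z) := by
            rw [hc, add_sub_cancel_right, smul_smul, inv_mul_cancel₀ hc0, one_smul]
          rw [h2]
          exact smul_mem _ _ (sub_mem (haS j hj.le) (hsp j hj.le L hL hz))
      · intro h
        rw [hb j hj]
        exact add_mem (smul_mem _ _ (span_mono (subset_insert _ _) h))
          (smul_mem _ _ (subset_span (mem_insert _ _)))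
    rw [hmem]
    constructor
    · rintro ⟨h1, h2⟩
      have h3 : a j ∉ L := fun h => h2 (subset_span ⟨_, h, rfl⟩)
      exact ⟨h3, (linearIndepOn_insert h3).2 ⟨h1, h2⟩⟩
    · rintro ⟨h3, h⟩
      exact (linearIndepOn_insert h3).1 h

end path


section cyc
variable {α : Type} {M : Matroid α} {n : ℕ} {x : ℕ → α}

theorem Cyc.mod (hc : Cyc M n x) (i : ℕ) : x (i % (2 * n)) = x i := by
  have h : ∀ k j, x (j + 2 * n * k) = x j := by
    intro k
    induction k with
    | zero => intro j; simp
    | succ k ih =>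
      intro j
      rw [Nat.mul_succ, ← add_assoc, hc.per, ih]
  conv_rhs => rw [← Nat.mod_add_div i (2 * n)]
  rw [h]

theorem Cyc.eq_iff (hc : Cyc M n x) (i j : ℕ) : x i = x j ↔ i % (2 * n) = j % (2 * n) := by
  have h3 := hc.three
  constructor
  · intro h
    rw [← hc.mod i, ← hc.mod j] at h
    exact hc.inj _ (Nat.mod_lt _ (by omega)) _ (Nat.mod_lt _ (by omega)) h
  · intro h
    rw [← hc.mod i, ← hc.mod j, h]

theorem Cyc.spoke_iff (hc : Cyc M n x) (i j : ℕ) : x (2 * i) = x (2 * j) ↔ i % n = j % n := by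
  rw [hc.eq_iff, Nat.mul_mod_mul_left, Nat.mul_mod_mul_left]
  omega

theorem Cyc.rim_iff (hc : Cyc M n x) (i j : ℕ) :
    x (2 * i + 1) = x (2 * j + 1) ↔ i % n = j % n := by
  have h3 := hc.three
  rw [hc.eq_iff]
  have h : ∀ i, (2 * i + 1) % (2 * n) = 2 * (i % n) + 1 := by
    intro i
    have h1 := Nat.mod_lt i (show 0 < n by omega)
    conv_lhs => rw [← Nat.mod_add_div i n]
    have h2 : 2 * (i % n + n * (i / n)) + 1 = 2 * (i % n) + 1 + 2 * n * (i / n) := by ring
    rw [h2, Nat.add_mul_mod_self_left, Nat.mod_eq_of_lt (by omega)]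
  rw [h, h]
  omega

theorem Cyc.spoke_ne_rim (hc : Cyc M n x) (i j : ℕ) : x (2 * i) ≠ x (2 * j + 1) := by
  intro h
  rw [hc.eq_iff] at h
  have h1 : (2 * i) % (2 * n) % 2 = (2 * j + 1) % (2 * n) % 2 := by rw [h]
  rw [Nat.mod_mul_right_mod, Nat.mod_mul_right_mod] at h1
  omega

theorem Cyc.cases (hc : Cyc M n x) {y : α} (hy : y ∈ M.E) :
    (∃ j < n, y = x (2 * j)) ∨ (∃ j < n, y = x (2 * j + 1)) := by
  rw [← hc.ground] at hy
  obtain ⟨i, rfl⟩ := hy
  have h3 := hc.three
  rcases Nat.even_or_odd' i with ⟨j, rfl | rfl⟩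
  · exact Or.inl ⟨j % n, Nat.mod_lt _ (by omega), (hc.spoke_iff _ _).2 (Nat.mod_mod _ _).symm⟩
  · exact Or.inr ⟨j % n, Nat.mod_lt _ (by omega), (hc.rim_iff _ _).2 (Nat.mod_mod _ _).symm⟩

theorem Cyc.memE (hc : Cyc M n x) (i : ℕ) : x i ∈ M.E := by
  rw [← hc.ground]; exact mem_range_self i

theorem W4a_mem_closure {a b c : α} [M.Finite] (h : TC4 M) (ht : Tri M a b c) :
    c ∈ M.closure {a, b} := by
  obtain ⟨ha, hb, hc, hab, hac, hbc, hr⟩ := ht
  rw [mem_closure_iff_rk M hc]
  have h1 : rk M {a, b} = 2 := by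
    have h2 := w1 M h (X := {a, b}) (insert_subset ha (singleton_subset_iff.2 hb))
      (by rw [ncard_pair hab])
    rw [h2, ncard_pair hab]
  rw [h1, ← hr]
  congr 1
  ext y
  simp only [mem_insert_iff, mem_singleton_iff]
  tauto

variable [M.Finite]

/-- the three closure relations -/
theorem Cyc.c1 (h : TC4 M) (hc : Cyc M n x) (j : ℕ) :
    x (2 * j + 1) ∈ M.closure {x (2 * j), x (2 * (j + 1))} :=
  W4a_mem_closure h (hc.tri (2 * j) (even_two_mul j)).swap23

theorem Cyc.c2 (h : TC4 M) (hc : Cyc M n x) (j : ℕ) :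
    x (2 * j) ∈ M.closure {x (2 * j + 1), x (2 * (j + 1))} :=
  W4a_mem_closure h (hc.tri (2 * j) (even_two_mul j)).rot

theorem Cyc.c3 (h : TC4 M) (hc : Cyc M n x) (j : ℕ) :
    x (2 * (j + 1)) ∈ M.closure {x (2 * j), x (2 * j + 1)} :=
  W4a_mem_closure h (hc.tri (2 * j) (even_two_mul j))

/-- the spokes -/
def Spk (x : ℕ → α) (n : ℕ) : Set α := (fun j => x (2 * j)) '' Iio n

theorem Cyc.mem_spk (hc : Cyc M n x) (i : ℕ) : x (2 * i) ∈ Spk x n := by
  have h3 := hc.three
  exact ⟨i % n, mem_Iio.2 (Nat.mod_lt _ (by omega)), (hc.spoke_iff _ _).2 (Nat.mod_mod _ _)⟩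

theorem Cyc.spk_ncard (hc : Cyc M n x) : (Spk x n).ncard = n := by
  rw [Spk, InjOn.ncard_image]
  · rw [Set.ncard_eq_toFinset_card']; simp
  · intro i hi j hj hij
    have h1 := (hc.spoke_iff i j).1 hij
    rwa [Nat.mod_eq_of_lt (mem_Iio.1 hi), Nat.mod_eq_of_lt (mem_Iio.1 hj)] at h1

theorem Cyc.spk_sub (hc : Cyc M n x) : Spk x n ⊆ M.E := by
  rintro _ ⟨j, _, rfl⟩
  exact hc.memE _

theorem Cyc.spk_closure (h : TC4 M) (hc : Cyc M n x) : M.E ⊆ M.closure (Spk x n) := by
  intro y hy
  rcases hc.cases hy with ⟨j, hj, rfl⟩ | ⟨j, hj, rfl⟩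
  · exact M.mem_closure_of_mem (hc.mem_spk j) hc.spk_sub
  · refine M.closure_subset_closure ?_ (hc.c1 h j)
    rintro _ (rfl | rfl)
    · exact hc.mem_spk _
    · exact hc.mem_spk _

theorem Cyc.spk_indep (h : TC4 M) (hc : Cyc M n x) : M.Indep (Spk x n) := by
  rw [indep_iff_rk M hc.spk_sub, hc.spk_ncard]
  have h1 := rk_le_rk M (Spk x n)
  have h2 := rk_mono M (hc.spk_closure h)
  rw [rk_closure, hc.rank] at h2
  rw [hc.rank] at h1
  omega

/-- independence in `M` along the path starting after rim `k` -/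
theorem Cyc.pathM (h : TC4 M) (hc : Cyc M n x) (k : ℕ) :
    PathP M.Indep (fun j => x (2 * (k + 1 + j))) (fun j => x (2 * (k + 1 + j) + 1)) (n - 1) := by
  have h3 := hc.three
  have hS := hc.spk_indep h
  refine pathP_matroid M (fun j _ => hc.memE _) ?_ ?_ (fun j _ => ?_) (fun j _ => ?_)
    (fun j _ => ?_)
  · exact hS.subset (singleton_subset_iff.2 (hc.mem_spk _))
  · intro j hj hcon
    refine hS.notMem_closure_sdiff_of_mem (hc.mem_spk (k + 1 + (j + 1))) ?_
    refine M.closure_subset_closure ?_ hcon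
    rintro _ ⟨i, hi, rfl⟩
    refine ⟨hc.mem_spk _, ?_⟩
    have hi' : i ≤ j := mem_Iic.1 hi
    show x (2 * (k + 1 + i)) ∉ ({x (2 * (k + 1 + (j + 1)))} : Set α)
    rw [mem_singleton_iff, hc.spoke_iff]
    intro he
    have h4 : (k + 1 + i) ≡ (k + 1 + (j + 1)) [MOD n] := he
    have h5 : i ≡ j + 1 [MOD n] := Nat.ModEq.add_left_cancel' _ h4
    have h6 : i % n = (j + 1) % n := h5
    rw [Nat.mod_eq_of_lt (by omega), Nat.mod_eq_of_lt (by omega)] at h6
    omega
  · exact hc.c1 h _
  · exact hc.c2 h _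
  · exact hc.c3 h _

/-- a set which misses a rim is in a path -/
theorem Cyc.sub_path (hc : Cyc M n x) {k : ℕ} {I : Set α} (hI : I ⊆ M.E)
    (hk : x (2 * k + 1) ∉ I) :
    I ⊆ W4PD (fun j => x (2 * (k + 1 + j))) (fun j => x (2 * (k + 1 + j) + 1)) (n - 1) := by
  have h3 := hc.three
  -- every index is congruent to some `k + 1 + i`, `i < n`
  have hidx : ∀ j, ∃ i < n, (k + 1 + i) % n = j % n := by
    intro j
    refine ⟨(j + n * (k + 1) - (k + 1)) % n, Nat.mod_lt _ (by omega), ?_⟩
    have h4 : k + 1 ≤ j + n * (k + 1) := by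
      have : 1 * (k + 1) ≤ n * (k + 1) := Nat.mul_le_mul_right _ (by omega)
      omega
    rw [Nat.add_mod_mod, Nat.add_sub_cancel' h4, Nat.add_mul_mod_self_left]
  intro y hy
  rcases hc.cases (hI hy) with ⟨j, hj, rfl⟩ | ⟨j, hj, rfl⟩
  · obtain ⟨i, hi, h5⟩ := hidx j
    exact Or.inl ⟨i, mem_Iic.2 (by omega), (hc.spoke_iff _ _).2 h5⟩
  · obtain ⟨i, hi, h5⟩ := hidx j
    have h6 : i ≠ n - 1 := by
      rintro rfl
      apply hk
      have h7 : x (2 * k + 1) = x (2 * j + 1) := by
        rw [hc.rim_iff, ← h5]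
        have : k + 1 + (n - 1) = k + n := by omega
        rw [this, Nat.add_mod_right]
      rw [h7]
      exact hy
    exact Or.inr ⟨i, mem_Iio.2 (by omega), (hc.rim_iff _ _).2 h5⟩

/-! ### the vectors -/

/-- the representation -/
noncomputable def WF (n : ℕ) (x : ℕ → α) (y : α) : VV := by
  classical
  exact if h : ∃ j, y = x (2 * j) then e 0 (h.choose % n)
    else if h : ∃ j, y = x (2 * j + 1) then Whr n (h.choose % n) else 0

omit [M.Finite] in
theorem Cyc.WF_spoke (hc : Cyc M n x) (j : ℕ) : WF n x (x (2 * j)) = e 0 (j % n) := by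
  classical
  have h : ∃ i, x (2 * j) = x (2 * i) := ⟨j, rfl⟩
  unfold WF
  rw [dif_pos h]
  congr 1
  exact ((hc.spoke_iff _ _).1 h.choose_spec).symm

omit [M.Finite] in
theorem Cyc.WF_rim (hc : Cyc M n x) (j : ℕ) : WF n x (x (2 * j + 1)) = Whr n (j % n) := by
  classical
  have h : ∃ i, x (2 * j + 1) = x (2 * i + 1) := ⟨j, rfl⟩
  have h' : ¬ ∃ i, x (2 * j + 1) = x (2 * i) := by
    rintro ⟨i, hi⟩
    exact hc.spoke_ne_rim i j hi.symm
  unfold WF
  rw [dif_neg h', dif_pos h]
  congr 1
  exact ((hc.rim_iff _ _).1 h.choose_spec).symm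

/-- the coefficient of the second end of a rim -/
def Wy (n : ℕ) (i : ℕ) : F4 := if i % n + 1 = n then F4.w else 1

theorem Wy_ne (n i : ℕ) : Wy n i ≠ 0 := by
  unfold Wy
  split_ifs <;> decide

theorem Whr_eq {n : ℕ} (hn : 0 < n) (j : ℕ) :
    Whr n (j % n) = (1 : F4) • e 0 (j % n) + Wy n j • e 0 ((j + 1) % n) := by
  have h1 := Nat.mod_lt j hn
  unfold Whr Wy
  rw [one_smul]
  congr 1
  by_cases h : j % n + 1 = n
  · rw [if_pos h, if_pos h]
    have h2 : (j + 1) % n = 0 := by
      rw [Nat.add_mod]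
      by_cases hn1 : n = 1
      · subst hn1; exact Nat.mod_one _
      · rw [Nat.mod_eq_of_lt (show 1 < n by omega), h, Nat.mod_self]
    rw [h2]
  · rw [if_neg h, if_neg h, one_smul]
    have h2 : (j + 1) % n = j % n + 1 := by
      rw [Nat.add_mod]
      have hn1 : n ≠ 1 := by
        rintro rfl
        apply h
        rw [Nat.mod_one]
      rw [Nat.mod_eq_of_lt (show 1 < n by omega), Nat.mod_eq_of_lt (by omega)]
    rw [h2]

theorem W4a_e_apply (i n i' n' : ℕ) : e i n (i', n') = if (i, n) = (i', n') then 1 else 0 := by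
  unfold e
  rw [Finsupp.single_apply]

omit [M.Finite] in
/-- independence of the vectors along the path starting after rim `k` -/
theorem Cyc.pathV (hc : Cyc M n x) (k : ℕ) :
    PathP (LinearIndepOn F4 (WF n x)) (fun j => x (2 * (k + 1 + j)))
      (fun j => x (2 * (k + 1 + j) + 1)) (n - 1) := by
  have h3 := hc.three
  refine pathP_vectors (K := F4) (x := fun _ => 1) (y := fun j => Wy n (k + 1 + j)) ?_ ?_
    (fun j _ => one_ne_zero) (fun j _ => Wy_ne _ _) (fun j _ => ?_)
  · intro h
    have h4 := congrFun (congrArg DFunLike.coe h) (0, (k + 1 + 0) % n)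
    change WF n x (x (2 * (k + 1 + 0))) (0, (k + 1 + 0) % n) = 0 at h4
    rw [hc.WF_spoke, W4a_e_apply, if_pos rfl] at h4
    exact one_ne_zero h4
  · intro j hj hcon
    -- the coordinate of the new spoke
    have h4 : span F4 (WF n x '' ((fun j => x (2 * (k + 1 + j))) '' Iic j)) ≤
        LinearMap.ker (Finsupp.lapply (R := F4) (0, (k + 1 + (j + 1)) % n) : VV →ₗ[F4] F4) := by
      rw [span_le]
      rintro _ ⟨_, ⟨i, hi, rfl⟩, rfl⟩
      have hi' : i ≤ j := mem_Iic.1 hi
      rw [SetLike.mem_coe, LinearMap.mem_ker, Finsupp.lapply_apply]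
      change WF n x (x (2 * (k + 1 + i))) _ = 0
      rw [hc.WF_spoke, W4a_e_apply, if_neg]
      intro he
      have h5 : (k + 1 + i) % n = (k + 1 + (j + 1)) % n := congrArg Prod.snd he
      have h6 : (k + 1 + i) ≡ (k + 1 + (j + 1)) [MOD n] := h5
      have h7 : i ≡ j + 1 [MOD n] := Nat.ModEq.add_left_cancel' _ h6
      have h8 : i % n = (j + 1) % n := h7
      rw [Nat.mod_eq_of_lt (by omega), Nat.mod_eq_of_lt (by omega)] at h8
      omega
    have h5 := h4 hcon
    rw [LinearMap.mem_ker, Finsupp.lapply_apply] at h5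
    change WF n x (x (2 * (k + 1 + (j + 1)))) _ = 0 at h5
    rw [hc.WF_spoke, W4a_e_apply, if_pos rfl] at h5
    exact one_ne_zero h5
  · change WF n x (x (2 * (k + 1 + j) + 1)) = (1 : F4) • WF n x (x (2 * (k + 1 + j))) +
      Wy n (k + 1 + j) • WF n x (x (2 * (k + 1 + (j + 1))))
    rw [hc.WF_rim, hc.WF_spoke, hc.WF_spoke, Whr_eq (by omega)]
    rfl

/-- a set which misses a rim is independent iff the vectors are -/
theorem Cyc.indep_iff_of_rim (h : TC4 M) (hc : Cyc M n x) {k : ℕ} {I : Set α} (hI : I ⊆ M.E)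
    (hk : x (2 * k + 1) ∉ I) : M.Indep I ↔ LinearIndepOn F4 (WF n x) I :=
  (hc.pathM h k).unique (hc.pathV k) _ le_rfl _ (hc.sub_path hI hk)

/-- the rims -/
def Rms (x : ℕ → α) (n : ℕ) : Set α := {y | ∃ j < n, y = x (2 * j + 1)}

omit [M.Finite] in
theorem Cyc.rms_ncard (hc : Cyc M n x) : (Rms x n).ncard = n := by
  have h1 : Rms x n = (fun j => x (2 * j + 1)) '' Iio n := by
    ext y
    constructor
    · rintro ⟨j, hj, rfl⟩; exact ⟨j, mem_Iio.2 hj, rfl⟩
    · rintro ⟨j, hj, rfl⟩; exact ⟨j, mem_Iio.1 hj, rfl⟩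
  rw [h1, InjOn.ncard_image]
  · rw [Set.ncard_eq_toFinset_card']; simp
  · intro i hi j hj hij
    have h1 := (hc.rim_iff i j).1 hij
    rwa [Nat.mod_eq_of_lt (mem_Iio.1 hi), Nat.mod_eq_of_lt (mem_Iio.1 hj)] at h1

omit [M.Finite] in
theorem Cyc.rms_sub (hc : Cyc M n x) : Rms x n ⊆ M.E := by
  rintro _ ⟨j, _, rfl⟩
  exact hc.memE _

/-- the sum of the coordinates -/
noncomputable def Wsum : VV →ₗ[F4] F4 := Finsupp.linearCombination F4 (fun _ => (1 : F4))

theorem Wsum_e (i n : ℕ) : Wsum (e i n) = 1 := by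
  unfold Wsum e
  rw [Finsupp.linearCombination_single, smul_eq_mul, mul_one]

/-- the vectors of the rims are independent -/
theorem Cyc.rms_vec (h : TC4 M) (hc : Cyc M n x) (hR : M.Indep (Rms x n)) :
    LinearIndepOn F4 (WF n x) (Rms x n) := by
  have h3 := hc.three
  -- the last rim
  have hlast : x (2 * (n - 1) + 1) ∈ Rms x n := ⟨n - 1, by omega, rfl⟩
  have h1 : Rms x n = insert (x (2 * (n - 1) + 1)) (Rms x n \ {x (2 * (n - 1) + 1)}) := by
    rw [insert_sdiff_singleton, insert_eq_of_mem hlast]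
  have h2 : M.Indep (Rms x n \ {x (2 * (n - 1) + 1)}) := hR.subset sdiff_subset
  have h4 : LinearIndepOn F4 (WF n x) (Rms x n \ {x (2 * (n - 1) + 1)}) :=
    (hc.indep_iff_of_rim h (sdiff_subset.trans hc.rms_sub) (k := n - 1) (by simp)).1 h2
  rw [h1, linearIndepOn_insert (by simp)]
  refine ⟨h4, fun hcon => ?_⟩
  have h5 : span F4 (WF n x '' (Rms x n \ {x (2 * (n - 1) + 1)})) ≤ LinearMap.ker Wsum := by
    rw [span_le]
    rintro _ ⟨_, ⟨⟨j, hj, rfl⟩, hne⟩, rfl⟩
    rw [mem_singleton_iff, hc.rim_iff, Nat.mod_eq_of_lt hj,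
      Nat.mod_eq_of_lt (show n - 1 < n by omega)] at hne
    rw [SetLike.mem_coe, LinearMap.mem_ker, hc.WF_rim, Whr_eq (by omega), map_add, map_smul,
      map_smul, Wsum_e, Wsum_e, Wy, Nat.mod_eq_of_lt hj, if_neg (by omega)]
    decide
  have h6 := h5 hcon
  rw [LinearMap.mem_ker, hc.WF_rim, Whr_eq (by omega), map_add, map_smul,
      map_smul, Wsum_e, Wsum_e, Wy, Nat.mod_eq_of_lt (show n - 1 < n by omega),
      if_pos (by omega)] at h6
  exact absurd h6 (by decide)

/-- all vectors are in the span of `e 0 j`, `j < n` -/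
theorem Cyc.WF_mem (hc : Cyc M n x) {y : α} (hy : y ∈ M.E) :
    WF n x y ∈ span F4 ((fun j => e 0 j) '' Iio n) := by
  have h3 := hc.three
  have hm : ∀ j, e 0 (j % n) ∈ span F4 ((fun j => e 0 j) '' Iio n) := fun j =>
    subset_span ⟨j % n, mem_Iio.2 (Nat.mod_lt _ (by omega)), rfl⟩
  rcases hc.cases hy with ⟨j, hj, rfl⟩ | ⟨j, hj, rfl⟩
  · rw [hc.WF_spoke]; exact hm j
  · rw [hc.WF_rim, Whr_eq (by omega)]
    exact add_mem (smul_mem _ _ (hm _)) (smul_mem _ _ (hm _))

theorem Cyc.ncard_le_of_vec (hc : Cyc M n x) {I : Set α} (hI : I ⊆ M.E)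
    (h : LinearIndepOn F4 (WF n x) I) : I.ncard ≤ n := by
  have hfin : I.Finite := M.ground_finite.subset hI
  have := hfin.fintype
  set W := span F4 ((fun j => e 0 j) '' Iio n) with hW
  have hfW : Module.Finite F4 W := by
    rw [hW]
    exact FiniteDimensional.span_of_finite F4 ((finite_Iio n).image _)
  have h1 : Module.finrank F4 W ≤ n := by
    have h2 := finrank_span_le_card (R := F4) ((fun j => e 0 j) '' Iio n)
    refine h2.trans ?_
    rw [← Set.ncard_eq_toFinset_card']
    refine (Set.ncard_image_le (finite_Iio n)).trans ?_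
    rw [Set.ncard_eq_toFinset_card']; simp
  have h2 : LinearIndependent F4 (fun i : I => (⟨WF n x i, hc.WF_mem (hI i.2)⟩ : W)) := by
    have h3 : LinearIndependent F4 (fun i : I => WF n x i) := h
    exact LinearIndependent.of_comp W.subtype h3
  have h3 := h2.fintype_card_le_finrank
  rw [Set.ncard_eq_toFinset_card', Set.toFinset_card]
  omega

/-- **W4a.** -/
theorem W4a (h : TC4 M) (hc : Cyc M n x) (hR : M.Indep {y | ∃ j < n, y = x (2 * j + 1)}) :
    IsCfg M ⊥ (WhC n) := by
  have h3 := hc.three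
  have hR' : M.Indep (Rms x n) := hR
  have key : ∀ I, I ⊆ M.E → (M.Indep I ↔ LinearIndepOn F4 (WF n x) I) := by
    intro I hI
    by_cases hk : ∃ k, x (2 * k + 1) ∉ I
    · obtain ⟨k, hk⟩ := hk
      exact hc.indep_iff_of_rim h hI hk
    · push Not at hk
      have hsub : Rms x n ⊆ I := by
        rintro _ ⟨j, _, rfl⟩
        exact hk j
      have hIf := M.ground_finite.subset hI
      have heq : I.ncard ≤ n → I = Rms x n := fun hle =>
        (Set.eq_of_subset_of_ncard_le hsub (by rw [hc.rms_ncard]; exact hle) hIf).symm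
      constructor
      · intro hI'
        have h4 := rk_le_rk M I
        rw [Indep.rk_eq hI', hc.rank] at h4
        rw [heq h4]
        exact hc.rms_vec h hR'
      · intro hI'
        rw [heq (hc.ncard_le_of_vec hI hI')]
        exact hR'
  refine ⟨WF n x, fun I hI => ?_, ?_⟩
  · rw [key I hI]
    have hinj : Function.Injective (⊥ : Submodule F4 VV).mkQ := by
      rw [← LinearMap.ker_eq_bot, Submodule.ker_mkQ]
    exact (LinearMap.linearIndepOn_iff_of_injOn _ hinj.injOn).symm
  · congr 1
    -- the set of points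
    apply Subset.antisymm
    · rintro _ ⟨y, hy, rfl⟩
      rcases hc.cases hy with ⟨j, hj, rfl⟩ | ⟨j, hj, rfl⟩
      · rw [hc.WF_spoke, Nat.mod_eq_of_lt hj]
        rcases Nat.eq_zero_or_pos j with rfl | h0
        · exact Or.inl (Or.inl rfl)
        · exact Or.inl (Or.inr ⟨0, Finset.mem_singleton_self 0, j, h0, hj, rfl⟩)
      · rw [hc.WF_rim, Nat.mod_eq_of_lt hj]
        refine Or.inr ⟨0, Finset.mem_singleton_self 0, j, hj, ?_⟩
        unfold Whr msu
        rw [if_neg (show ¬ j + 1 = 0 by omega)]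
        have hjn : ¬ j = n := by omega
        by_cases h0 : j = 0
        · subst h0
          rw [if_pos rfl]
        · rw [if_neg h0, if_neg hjn]
    · rintro y ((hy | ⟨i, hi, j, h0, hj, rfl⟩) | ⟨i, hi, j, hj, rfl⟩)
      · rw [mem_singleton_iff] at hy
        subst hy
        refine ⟨x (2 * 0), hc.memE _, ?_⟩
        rw [hc.WF_spoke, Nat.zero_mod]
      · rw [Finset.mem_singleton] at hi
        subst hi
        refine ⟨x (2 * j), hc.memE _, ?_⟩
        rw [hc.WF_spoke, Nat.mod_eq_of_lt hj]
      · rw [Finset.mem_singleton] at hi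
        subst hi
        have hj' : j < n := hj
        refine ⟨x (2 * j + 1), hc.memE _, ?_⟩
        rw [hc.WF_rim, Nat.mod_eq_of_lt hj']
        unfold Whr msu
        rw [if_neg (show ¬ j + 1 = 0 by omega)]
        have hjn : ¬ j = n := by omega
        by_cases h0 : j = 0
        · subst h0
          rw [if_pos rfl]
        · rw [if_neg h0, if_neg hjn]

end cyc

end QG
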